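import Pool.Agent.MP_f3836a_nt.VE.SpecZ3
import Pool.Agent.MP_f3836a_nt.PK.BasicF

/-! The theorem on the level of rings; independence of the residue map. -/

set_option autoImplicit false

namespace Pool.Agent.MP_f3836a_nt.VE.Z

open Polynomial IsLocalRing PK VE.A VE.T VE.W

namespace ZMainY

theorem expo {I : Type} {κ : I → Type} [∀ i, Field (κ i)] (t : ∀ i, κ i) (p : I → Prop)
    (hf : {i | p i ∧ t i ≠ 1}.Finite) (ht : ∀ i, p i → ∃ j : ℕ, 0 < j ∧ t i ^ j = 1) :
    ∃ J : ℕ, 0 < J ∧ ∀ i, p i → t i ^ J = 1 := by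
  classical
  choose! j h0 h1 using ht
  refine ⟨∏ i ∈ hf.toFinset, j i, Finset.prod_pos fun i hi => h0 i (hf.mem_toFinset.1 hi).1,
    fun i hi => ?_⟩
  by_cases e : t i = 1
  · rw [e, one_pow]
  · obtain ⟨c, hc⟩ := Finset.dvd_prod_of_mem j (hf.mem_toFinset.2 ⟨hi, e⟩)
    rw [hc, pow_mul, h1 i hi, one_pow]

theorem prod_rep {α M : Type} [CommMonoid M] (f : α → M) (l : List α) (J : ℕ) :
    ((List.replicate J l).flatten.map f).prod = (l.map f).prod ^ J := by
  induction J with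
  | zero => simp
  | succ J ih => rw [List.replicate_succ, List.flatten_cons, List.map_append, List.prod_append, ih,
      pow_succ']

theorem res_pow {K κ : Type} [Field K] [Field κ] {O : Subring K} {r : O →+* κ} {a : K} (ha : a ∈ O)
    (n : ℕ) : resR O r (a ^ n) = resR O r a ^ n := by
  rw [EDVA.res_mem ha, EDVA.res_mem (O.pow_mem ha n), ← map_pow]
  rfl

theorem nz_swap {K : Type} [Field K] {l : List (K × K)} (h : NZ l) : NZ (l.map Prod.swap) := by
  intro s hs
  obtain ⟨s, h1, rfl⟩ := List.mem_map.1 hs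
  exact (h s h1).symm

end ZMainY

open ZMainY in
theorem zMainY : OfMainY := by
  intro dv psi all W K ι _ _ _ x y ξ Pt _ O κ _ r hΔ hg G φ h0 hf h1 hc
  obtain ⟨ψ, co, hψ⟩ := psi K ι ξ Pt O κ r G φ h0 hf h1 hc
  obtain ⟨n, n0, l, nz, tor⟩ := all W K x y hΔ hg ι ξ ψ co
  have dr : ∀ C, Order.height C = 1 → Dvr (O C) := fun C h => ⟨(G.dv C h).dvr, (G.dv C h).frac⟩
  obtain ⟨J, J0, hJ⟩ := expo (fun C => φ C ^ n * resR (O C) (r C) (bdE l (O C)))
    (fun C => Order.height C = 1) ((hf.union ((l.finite_toSet.biUnion fun s _ =>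
      (G.fin s.1).union (G.fin s.2)))).subset fun C hC => by
        by_contra e
        simp only [Set.mem_union, Set.mem_iUnion, Set.mem_ofPred_eq, not_or, not_exists, not_and,
          not_not] at e
        exact hC.2 (by
          rw [e.1, (dv K _ (dr C hC.1)).one l fun s hs => ⟨(e.2 s hs).1 hC.1, (e.2 s hs).2 hC.1⟩,
            EDVA.res_one, one_pow, one_mul]))
    fun C h => by
      obtain ⟨j, j0, e⟩ := tor _ (dr C h)
      have a := (co.us _ (dr C h)).2.1
      have b := ((dv K _ (dr C h)).bd l nz).1.2.1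
      have c := (O C).mul_mem ((O C).pow_mem a n) b
      refine ⟨j, j0, ?_⟩
      rw [← hψ C h, ← res_pow a, ← EDVA.rmul ((O C).pow_mem a n) b, ← res_pow c,
        ((dv K _ (dr C h)).res _ _ (G.dv C h) _ ((O C).pow_mem c j) _ (O C).one_mem).2 e,
        EDVA.res_one]
  refine ⟨n * J, mul_pos n0 J0, (List.replicate J (l.map Prod.swap)).flatten, fun s hs => ?_,
    fun C h => ?_⟩
  · obtain ⟨l', a, b⟩ := List.mem_flatten.1 hs
    exact nz_swap nz s (List.eq_of_mem_replicate a ▸ b)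
  · have A := dv K _ (dr C h)
    obtain ⟨a1, a2, -⟩ := A.bd l nz
    obtain ⟨b1, -, b3⟩ := A.bd _ (nz_swap nz)
    have c := (A.res _ _ (G.dv C h) _ ((O C).mul_mem a1.2.1 b1.2.1) _ (O C).one_mem).2 a2
    rw [EDVA.rmul a1.2.1 b1.2.1, EDVA.res_one] at c
    have d := hJ C h
    rw [prod_rep, ← b3 _ _ (G.dv C h), pow_mul, ← one_mul (resR _ _ _ ^ J), ← d, ← mul_pow,
      mul_assoc, c, mul_one]

theorem zOk : OfOk := by
  intro od' tr dv rg K κ _ _ D O r z hD hO hr
  have A := dv K O ⟨hr.dvr, hr.frac⟩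
  have := A.loc
  obtain ⟨e, he, -⟩ := tr K κ _ (RingEquiv.refl K) O O r (residue O) hr A.dv fun _ => Iff.rfl
  obtain ⟨q, _, q0, q1, hq⟩ := hO
  obtain ⟨i1, i2, i3⟩ := (od' K κ D O q r (rg K D hD).loc2 q0 q1 hq hr).im
  have h1 : (e : κ →+* _).comp r = residue O := RingHom.ext fun a =>
    ((congrArg e (EDVA.res_mem a.2)).symm.trans (he a)).trans (EDVA.res_mem a.2)
  have h2 : im O (residue O) D = (im O r D).map (e : κ →+* _) := by
    rw [im, im, Subring.map_map, h1]
  rw [oK_eq, W.od, W.od, h2, ← show e _ = resR O (residue O) z from he z]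
  split_ifs
  · exact (ordR_map (e : κ →+* ResidueField O) _ i1 i2 i3 _).symm
  · rfl

end Pool.Agent.MP_f3836a_nt.VE.Z
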