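import Pool.Agent.MP_f3836a_nt.VE.SpecZ3
import Pool.Agent.MP_f3836a_nt.PK.GVal

/-! Part Z3: discrete valuation rings in finite extensions. -/

set_option autoImplicit false

namespace Pool.Agent.MP_f3836a_nt.VE.Z

open IsLocalRing PK VE.A VE.T VE.W

namespace ZExA

variable {K L : Type} [Field K] [Field L]

theorem ut_comap (i : K →+* L) (V : Subring L) (z : K) : Ut (V.comap i) z ↔ Ut V (i z) := by
  simp only [Ut, Subring.mem_comap, map_inv₀, map_ne_zero]

theorem nu_comap (i : K →+* L) (V : Subring L) (z : K) : Nu (V.comap i) z ↔ Nu V (i z) := by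
  simp only [Nu, Subring.mem_comap, map_inv₀, map_eq_zero]

theorem tor_comap (i : K →+* L) (V : Subring L) (z : K) : Tor (V.comap i) z ↔ Tor V (i z) := by
  simp only [Tor, nu_comap, map_sub, map_pow, map_one]

/-- a unit times a power of the parameter -/
theorem dec {U : Subring K} (A : DvA U) {π z : K} (π0 : π ≠ 0) (hπ : ordR U π = 1) (hz : z ≠ 0) :
    ∃ u, Ut U u ∧ z = u * π ^ ordR U z := by
  have h := zpow_ne_zero (-ordR U z) π0
  refine ⟨z * π ^ (-ordR U z), (A.ut _).2 ⟨mul_ne_zero hz h, ?_⟩, ?_⟩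
  · rw [A.mul _ _ hz h, A.zpow _ _ π0, hπ]; ring
  · rw [mul_assoc, ← zpow_add₀ π0, neg_add_cancel, zpow_zero, mul_one]

theorem alg [Algebra K L] [FiniteDimensional K L] {Γ : Type} [LinearOrderedCommGroupWithZero Γ]
    (w : Valuation L Γ) {f : L} (hf : f ≠ 0) : ∃ (m : ℕ) (a : K), 0 < m ∧ m ≤ Module.finrank K L ∧
      a ≠ 0 ∧ w f ^ m = w (algebraMap K L a) := by
  have hP := minpoly.ne_zero_of_finite K f
  have h0 := minpoly.aeval K f
  have hd := minpoly.natDegree_le (A := K) f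
  generalize minpoly K f = P at hP h0 hd
  by_contra hn
  have key : ∀ i ∈ P.support, ∀ j ∈ P.support, i < j →
      w (algebraMap K L (P.coeff i) * f ^ i) ≠ w (algebraMap K L (P.coeff j) * f ^ j) := by
    intro i hi j hj hij e
    have := Polynomial.le_natDegree_of_mem_supp j hj
    rw [Polynomial.mem_support_iff] at hi hj
    obtain ⟨m, rfl⟩ := Nat.exists_eq_add_of_lt hij
    refine hn ⟨m + 1, P.coeff i / P.coeff (i + m + 1), m.succ_pos, by omega, div_ne_zero hi hj, ?_⟩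
    rw [map_div₀, map_div₀, eq_div_iff ((map_ne_zero w).2 ((map_ne_zero _).2 hj)), ← map_pow]
    refine mul_right_cancel₀ ((map_ne_zero w).2 (pow_ne_zero i hf)) ?_
    rw [← map_mul, ← map_mul, ← map_mul, e]
    congr 1
    ring
  obtain ⟨j, hj, hm⟩ := P.support.exists_max_image
    (fun i => w (algebraMap K L (P.coeff i) * f ^ i)) (Polynomial.support_nonempty.2 hP)
  have h1 := w.map_sum_eq_of_lt (f := fun i => algebraMap K L (P.coeff i) * f ^ i) hj fun i hi => by
    rw [Finset.mem_sdiff, Finset.mem_singleton] at hi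
    refine lt_of_le_of_ne (hm i hi.1) fun e => ?_
    rcases lt_or_gt_of_ne hi.2 with h | h
    · exact key i hi.1 j hj h e
    · exact key j hj i hi.1 h e.symm
  rw [Polynomial.aeval_def, Polynomial.eval₂_eq_sum, Polynomial.sum_def] at h0
  rw [h0, map_zero, eq_comm, map_eq_zero] at h1
  exact mul_ne_zero ((map_ne_zero _).2 (Polynomial.mem_support_iff.1 hj)) (pow_ne_zero _ hf) h1

/-- a valuation ring with discrete value group -/
theorem disc (V : ValuationSubring L) {t : L} {N : ℕ} (hN : N ≠ 0) (t0 : t ≠ 0)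
    (ht : V.valuation t < 1) (h : ∀ f, f ≠ 0 → ∃ k : ℤ, V.valuation f ^ N = V.valuation t ^ k) :
    Dvr V.toSubring := by
  classical
  have g0 : 0 < V.valuation t := zero_lt_iff.2 ((map_ne_zero _).2 t0)
  have pid : IsPrincipalIdealRing V := ⟨fun I => by
    by_cases h0 : I = ⊥
    · exact h0 ▸ bot_isPrincipal
    have nat : ∀ x ∈ I, x ≠ 0 → ∃ k : ℕ, V.valuation x ^ N = V.valuation t ^ k := fun x _ x0 => by
      obtain ⟨k, e⟩ := h x fun c => x0 (Subtype.ext c)
      have : 0 ≤ k := (zpow_le_one_iff_right_of_lt_one₀ g0 ht).1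
        (e ▸ pow_le_one₀ zero_le (V.valuation_le_one x))
      lift k to ℕ using this
      exact ⟨k, by rwa [zpow_natCast] at e⟩
    have ex : ∃ k : ℕ, ∃ x ∈ I, x ≠ 0 ∧ V.valuation x ^ N = V.valuation t ^ k := by
      obtain ⟨x, h1, h2⟩ := (Submodule.ne_bot_iff I).1 h0
      exact (nat x h1 h2).imp fun k e => ⟨x, h1, h2, e⟩
    obtain ⟨x, hx, -, e⟩ := Nat.find_spec ex
    refine ⟨x, le_antisymm (fun y hy => Ideal.mem_span_singleton'.2 ?_)
      ((Ideal.span_singleton_le_iff_mem _).2 hx)⟩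
    by_cases y0 : y = 0
    · exact ⟨0, by rw [y0, zero_mul]⟩
    obtain ⟨k, e'⟩ := nat y hy y0
    have : V.valuation y ^ N ≤ V.valuation x ^ N := by
      rw [e, e']
      exact pow_le_pow_of_le_one zero_le ht.le (Nat.find_min' ex ⟨y, hy, y0, e'⟩)
    obtain ⟨c, hc⟩ := (V.valuation_le_iff _ _).1 ((pow_le_pow_iff_left₀ zero_le zero_le hN).1 this)
    exact ⟨c, Subtype.ext hc⟩⟩
  have nf : maximalIdeal V ≠ ⊥ := fun h0 => by
    have := (V.valuation_lt_one_iff ⟨t, (V.valuation_le_one_iff t).1 ht.le⟩).2 ht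
    rw [h0, Ideal.mem_bot] at this
    exact t0 (congrArg Subtype.val this)
  have dvr : IsDiscreteValuationRing V := { not_a_field' := nf }
  refine ⟨dvr, fun f => ?_⟩
  rcases V.mem_or_inv_mem f with hf | hf
  · exact ⟨⟨f, hf⟩, 1, one_ne_zero, mul_one f⟩
  · by_cases h0 : f = 0
    · exact ⟨0, 1, one_ne_zero, by simp [h0]⟩
    · exact ⟨1, ⟨_, hf⟩, inv_ne_zero h0, mul_inv_cancel₀ h0⟩

theorem exC (hD : DvS) : ExC := by
  intro K Ω _ _ _ V hV
  obtain ⟨U, h⟩ := rExtV K Ω (algebraMap K Ω) (ValuationSubring.ofSubring V (hD K V hV).val)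
  exact ⟨U, Subring.ext fun f => (h f).symm⟩

theorem up (hD : DvS) [Algebra K L] [FiniteDimensional K L] (V : ValuationSubring L)
    (hV : Dvr (V.toSubring.comap (algebraMap K L))) : Dvr V.toSubring := by
  have A := hD K _ hV
  obtain ⟨π, π0, hπ⟩ := A.uni
  have n := (nu_comap _ _ _).1 ((A.nu π).2 (.inr (by omega)))
  refine disc V (t := algebraMap K L π) (Module.finrank K L).factorial_ne_zero
    ((map_ne_zero _).2 π0) ((V.valuation_lt_one_iff ⟨_, n.1⟩).1 ((nu_iff ⟨_, n.1⟩).1 n)) fun f hf => ?_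
  obtain ⟨m, a, m0, hm, a0, e⟩ := alg (K := K) V.valuation hf
  obtain ⟨c, hc⟩ := Nat.dvd_factorial m0 hm
  obtain ⟨u, hu, k⟩ := dec A π0 hπ a0
  have hu' := (ut_comap _ _ _).1 hu
  have h1 : V.valuation (algebraMap K L u) = 1 :=
    (V.valuation_eq_one_iff ⟨_, hu'.2.1⟩).1 ((ut_iff ⟨_, hu'.2.1⟩).1 hu')
  generalize ordR _ a = j at k
  refine ⟨j * c, ?_⟩
  rw [hc, pow_mul, e, k, map_mul, map_mul, h1, one_mul, map_zpow₀, map_zpow₀, zpow_mul, zpow_natCast]

end ZExA

open ZExA in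
theorem zExA : OfExA := by
  intro hD K K' _ _ _ _ V hV
  have A' := hD K' V hV
  have := A'.loc
  have dv := rDVsub K K' _ V _ ((ValuationSubring.ofSubring V A'.val).comap (algebraMap K K'))
    A'.dv fun _ => Iff.rfl
  have hU : Dvr (V.comap (algebraMap K K')) := ⟨dv.dvr, dv.frac⟩
  have A := hD K _ hU
  obtain ⟨π, π0, hπ⟩ := A.uni
  have p0 : algebraMap K K' π ≠ 0 := (map_ne_zero _).2 π0
  have n := ((A'.nu _).1 ((nu_comap _ _ _).1 ((A.nu π).2 (.inr (by omega))))).resolve_left p0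
  refine ⟨hU, (ordR V (algebraMap K K' π)).toNat, by omega, fun z hz => ?_⟩
  obtain ⟨u, hu, k⟩ := dec A π0 hπ hz
  have hu' := (A'.ut _).1 ((ut_comap _ _ _).1 hu)
  generalize ordR (V.comap _) z = j at k
  rw [k, map_mul, map_zpow₀, A'.mul _ _ hu'.1 (zpow_ne_zero _ p0), hu'.2, A'.zpow _ _ p0,
    Int.toNat_of_nonneg n.le]
  ring

open ZExA in
theorem zExB : OfExB := fun hD => ⟨fun K K' _ _ _ _ => ⟨up hD, fun V hV => by
  obtain ⟨U, h⟩ := exC hD K K' V hV
  exact ⟨_, up hD U (h.symm ▸ hV), h⟩⟩, exC hD⟩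

end Pool.Agent.MP_f3836a_nt.VE.Z
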