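import Pool.Agent.MP_f3836a_nt.VE.SpecT

set_option autoImplicit false

/-! Norms and resultants; symbols on a quadratic extension. -/

namespace Pool.Agent.MP_f3836a_nt.VE.T

open Polynomial IntermediateField

namespace TNR

variable {K L : Type} [Field K] [CharZero K] [Field L] [Algebra K L]

theorem pb_norm (pb : PowerBasis K L) (a : K[X]) :
    Algebra.norm K (aeval pb.gen a) = resultant (minpoly K pb.gen) a := by
  classical
  have := pb.finite
  let E := AlgebraicClosure K
  apply (algebraMap K E).injective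
  have h := resultant_eq_prod_eval ((minpoly K pb.gen).map (algebraMap K E))
    (a.map (algebraMap K E)) _ natDegree_map_le (IsAlgClosed.splits _)
  rw [natDegree_map, resultant_map_map, ((minpoly.monic pb.isIntegral_gen).map _).leadingCoeff,
    one_pow, one_mul] at h
  rw [h, Algebra.norm_eq_prod_embeddings K E, Fintype.prod_equiv pb.liftEquiv'
    (fun σ : L →ₐ[K] E => σ (aeval pb.gen a)) (fun z => aeval z.1 a)
      fun σ => (aeval_algHom_apply σ _ _).symm,
    Finset.prod_mem_multiset _ _ (fun z => aeval z a) fun _ => rfl, Finset.prod_eq_multiset_prod,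
    Multiset.toFinset_val, Multiset.dedup_eq_self.2
      (nodup_roots (.map (Algebra.IsSeparable.isSeparable K pb.gen)))]
  simp only [← eval_map_algebraMap]

theorem nr [FiniteDimensional K L] {θ : L} {π : K[X]} (a : K[X]) (hm : π.Monic)
    (hi : Irreducible π) (h : aeval θ π = 0) :
    Algebra.norm K (aeval θ a) ^ π.natDegree = resultant π a ^ Module.finrank K L := by
  have h0 := Algebra.IsIntegral.isIntegral (R := K) θ
  have h1 := pb_norm (adjoin.powerBasis h0) a
  rw [adjoin.powerBasis_gen, minpoly_gen, ← minpoly.eq_of_irreducible_of_monic hi h hm] at h1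
  rw [← AdjoinSimple.algebraMap_gen K θ, aeval_algebraMap_apply,
    ← Algebra.norm_norm (S := K⟮θ⟯), Algebra.norm_algebraMap, map_pow, h1, ← pow_mul,
    ← Module.finrank_mul_finrank K K⟮θ⟯ L, adjoin.finrank h0,
    ← minpoly.eq_of_irreducible_of_monic hi h hm, mul_comm]

end TNR

theorem rNR : RNR := fun _ _ _ _ _ _ a hm hi h => TNR.nr a hm hi h

theorem rQuad : RQuad := fun F _ _ x y f σ ρ _ hx hy hD hz mul skew st inv cc cp pp => by
  have := algebraRat.charZero F
  have fx : ∀ A : ℚ[X], σ (aeval x A) = aeval x A := fun A =>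
    ((aeval_algHom_apply (σ : F →+* F).toRatAlgHom x A).symm.trans (congrArg (aeval · A) hx))
  have ss : ∀ z, σ (σ z) = z := fun z => by
    obtain ⟨A, B, D, h0, h⟩ := hz z
    have h1 := congrArg σ (congrArg σ h)
    simp only [map_mul, map_add, fx, hy, map_neg, neg_neg] at h1
    exact mul_right_cancel₀ (hD D h0) (h1.trans h.symm)
  have self : ∀ g, g ≠ 0 → ρ g g = 0 := fun g h => by linarith [skew g g h h]
  have gen : ∀ h, h ≠ 0 → (∀ c : ℚ, c ≠ 0 → ρ (algebraMap ℚ F c) h = 0) →
      (∀ π : ℚ[X], π.Monic → Irreducible π → ρ (aeval x π) h = 0) →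
      ∀ g, g ≠ 0 → σ g = g → ρ g h = 0 := fun h h0 h1 h2 g g0 hg => by
    have k : ∀ A : ℚ[X], A ≠ 0 → ρ (aeval x A) h = 0 := fun A => by
      induction A using WfDvdMonoid.induction_on_irreducible with
      | zero => exact fun e => absurd rfl e
      | unit u hu =>
        obtain ⟨c, hc, rfl⟩ := isUnit_iff.1 hu
        exact fun _ => aeval_C x c ▸ h1 c hc.ne_zero
      | mul A i a0 hi ih =>
        have l0 := leadingCoeff_ne_zero.2 hi.ne_zero
        have m := monic_mul_leadingCoeff_inv hi.ne_zero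
        have e : i = i * C i.leadingCoeff⁻¹ * C i.leadingCoeff := by
          rw [mul_assoc, ← C_mul, inv_mul_cancel₀ l0, C_1, mul_one]
        intro _
        rw [map_mul, mul _ _ _ (hD _ hi.ne_zero) (hD _ a0) h0, ih a0, e, map_mul,
          mul _ _ _ (hD _ m.ne_zero) (hD _ (C_ne_zero.2 l0)) h0, aeval_C, h1 _ l0,
          h2 _ m (irreducible_mul_leadingCoeff_inv.2 hi), add_zero, add_zero]
    obtain ⟨A, B, D, d0, e⟩ := hz g
    have e1 := congrArg σ e
    simp only [map_mul, map_add, fx, hy, hg] at e1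
    have e2 : g * aeval x D = aeval x A := by linear_combination (e + e1) / 2
    have e3 := mul g _ h g0 (hD D d0) h0
    rwa [e2, k D d0, add_zero, k A fun a => mul_ne_zero g0 (hD D d0) (by rw [e2, a, map_zero]),
      eq_comm] at e3
  have c0 : ∀ c : ℚ, c ≠ 0 → algebraMap ℚ F c ≠ 0 := fun c => (_root_.map_ne_zero _).2
  have ff : ∀ g h, g ≠ 0 → h ≠ 0 → σ g = g → σ h = h → ρ g h = 0 := fun g h g0 h0 hg hh =>
    gen h h0 (fun c hc => by
      rw [skew _ _ (c0 c hc) h0, gen _ (c0 c hc) (fun c' hc' => cc c' c hc' hc) (fun π a b => by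
        rw [skew _ _ (hD π a.ne_zero) (c0 c hc), cp c π hc a b, neg_zero]) h h0 hh, neg_zero])
      (fun π a b => by
        rw [skew _ _ (hD π a.ne_zero) h0, gen _ (hD π a.ne_zero) (fun c hc => cp c π hc a b)
          (fun π' a' b' => (eq_or_ne π' π).elim (fun e => e ▸ self _ (hD π' a'.ne_zero))
            (pp π' π a' b' a b)) h h0 hh, neg_zero]) g g0 hg
  have f1 : ∀ g c, g ≠ 0 → c ≠ 0 → σ c = c → ρ g c = 0 := fun g c g0 h0 hc => by
    have s0 := (_root_.map_ne_zero σ).2 g0
    have h1 := ff _ c (mul_ne_zero g0 s0) h0 (by rw [map_mul, ss, mul_comm]) hc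
    have h2 := inv g c g0 h0
    rw [hc] at h2
    linarith [mul g _ c g0 s0 h0]
  have f2 : ∀ c g h, c ≠ 0 → g ≠ 0 → h ≠ 0 → σ c = c → ρ (c * g) h = ρ g h :=
    fun c g h h0 g0 h1 hc => by
      rw [mul c g h h0 g0 h1, skew c h h0 h1, f1 h c h1 h0 hc, neg_zero, zero_add]
  intro g h g0 h0
  by_cases hh : σ h = h
  · exact f1 g h g0 h0 hh
  by_cases hg : σ g = g
  · rw [skew g h g0 h0, f1 h g h0 g0 hg, neg_zero]
  have d0 := sub_ne_zero.2 hg
  obtain ⟨c, hc⟩ : ∃ c, c = (σ g - g) / (σ h - h) := ⟨_, rfl⟩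
  have c1 : c ≠ 0 := hc ▸ div_ne_zero d0 (sub_ne_zero.2 hh)
  have c2 : σ c = c := by rw [hc, map_div₀, map_sub, map_sub, ss, ss, ← neg_div_neg_eq, neg_sub,
    neg_sub]
  obtain ⟨t, ht⟩ : ∃ t, t = g - c * h := ⟨_, rfl⟩
  have t2 : σ t = t := by
    rw [ht, map_sub, map_mul, c2]
    linear_combination -(eq_div_iff (sub_ne_zero.2 hh)).1 hc
  by_cases t0 : t = 0
  · rw [sub_eq_zero.1 (ht.symm.trans t0), f2 c h h c1 h0 h0 c2, self h h0]
  have u0 := div_ne_zero g0 t0
  have e : 1 - g / t = -(c / t) * h := by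
    field_simp
    linear_combination ht
  have e0 := neg_ne_zero.2 (div_ne_zero c1 t0)
  have e1 := mul_ne_zero e0 h0
  have h1 := st (g / t) u0 fun a => e1 (by rw [← e, a, sub_self])
  rw [e, skew _ _ u0 e1, f2 _ h _ e0 h0 u0 (by rw [map_neg, map_div₀, c2, t2]),
    ← skew _ _ u0 h0, ← f2 t _ h t0 u0 h0 t2, mul_div_cancel₀ _ t0] at h1
  exact h1

end Pool.Agent.MP_f3836a_nt.VE.T
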