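import Pool.Agent.MP_f3836a_nt.VE.SpecW2

/-! Finiteness of zeros and poles in a chart, and heights of points. -/

set_option autoImplicit false

namespace Pool.Agent.MP_f3836a_nt.VE.W

open PK

theorem wFinC : OfFinC := by
  intro hL hO K κ _ _ B O r u hB hd hu
  classical
  rcases Set.eq_empty_or_nonempty
    {S : Subring K | Mx B S ∧ Loc2 S ∧ H1 S O ∧ od O r S u ≠ 0} with e | ⟨S0, h0⟩
  · rw [e]; exact Set.finite_empty
  obtain ⟨⟨m0, _, -, rfl⟩, -, ⟨q0, _, -, -, e0⟩, -⟩ := h0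
  obtain ⟨q, _, l0⟩ := (hL K B).dn m0 q0
  have hq : O = lc B q := e0.trans l0.eq
  obtain ⟨o, ho⟩ := hd.surj u
  obtain ⟨a, b, hb, hab⟩ := mem_lc.1 (hq ▸ o.2 : (o : K) ∈ lc B q)
  have res : u * resR O r b = resR O r a := by
    rw [← hab, EDVA.rmul o.2 (hq ▸ le_lc B q b.2), EDVA.res_mem o.2, ← ho]
  refine (((q ⊔ Ideal.span {a * b}).finite_minimalPrimes_of_isNoetherianRing B).image
    fun m => if h : m.IsPrime then lc B m else ⊥).subset ?_
  rintro S ⟨⟨m, hm, -, rfl⟩, h2, ⟨q', _, n0, n1, e1⟩, hu0⟩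
  refine ⟨m, ?_, dif_pos hm⟩
  obtain ⟨q1, _, l1⟩ := (hL K B).dn m q'
  have e2 : lc B q1 = lc B q := (l1.eq.symm.trans e1.symm).trans hq
  obtain rfl : q1 = q :=
    le_antisymm (((hL K B).le q q1).1 e2.ge) (((hL K B).le q1 q).1 e2.le)
  have A := hO K κ _ O q' r h2 n0 n1 e1 hd
  have b1 : Subring.inclusion (le_lc B m) b ∉ q' := fun h => hb ((l1.mem b).2 h)
  have b2 : resR O r b ≠ 0 := fun h => b1 ((A.zero _).1 h)
  have a1 : Subring.inclusion (le_lc B m) a ∉ q' := fun h =>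
    mul_ne_zero hu b2 (res.trans ((A.zero _).2 h))
  have ab : a * b ∉ q1 := fun h =>
    (Ideal.IsPrime.mem_or_mem ‹_› h).elim (fun h => a1 ((l1.mem a).1 h)) hb
  have hm' : a * b ∈ m := by
    by_contra hn
    have z1 : od O r (lc B m) (resR O r a) = 0 :=
      (A.len _ a1).2.2.2 (((hL K B).unit m a).2 fun h => hn (m.mul_mem_right _ h))
    have z2 : od O r (lc B m) (resR O r b) = 0 :=
      (A.len _ b1).2.2.2 (((hL K B).unit m b).2 fun h => hn (m.mul_mem_left _ h))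
    have := A.mul u _ hu b2
    rw [res, z1, z2, add_zero] at this
    exact hu0 this.symm
  refine ⟨⟨hm, sup_le l1.le ((Ideal.span_singleton_le_iff_mem _).2 hm')⟩, ?_⟩
  rintro p ⟨hp, h1⟩ h3
  obtain ⟨p', _, l2⟩ := (hL K B).up m p h3
  have le : q' ≤ p' := ((hL K _).le p' q').1 (by
    rw [l1.eq, l2.eq]; exact ((hL K B).le p q1).2 (le_sup_left.trans h1))
  have ne : q' ≠ p' := fun e => ab ((l1.mem _).2 (e ▸ (l2.mem _).1
    (h1 (Ideal.mem_sup_right (Ideal.mem_span_singleton_self _)))))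
  exact (l2.max.1 (h2.dim q' p' ‹_› ‹_› n0 (lt_of_le_of_ne le ne))).ge

theorem wHt : HtS := by
  rintro K Pt _ _ O cl dv inj le tri hc hd hx ⟨z0, h0⟩
  have lt : ∀ {z z'}, z' < z ↔ O z' ≤ O z ∧ z' ≠ z := fun {z z'} =>
    ⟨fun h => ⟨(le _ _).1 h.le, h.ne⟩, fun h => lt_of_le_not_ge ((le _ _).2 h.1)
      fun h' => h.2 (inj (le_antisymm h.1 ((le _ _).1 h')))⟩
  have top : ∀ z, O z = ⊤ → z0 < z := fun z h =>
    lt.2 ⟨h ▸ le_top, fun e => (hx z0 h0).1 (e ▸ h)⟩
  have c0 : ∀ z, Order.height z = 0 ↔ cl z := fun z => by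
    rw [Order.height_eq_zero]
    refine ⟨fun h => ?_, fun h z' h' => (hc z z' h ((le _ _).1 h')).ge⟩
    rcases tri z with h1 | h1 | h1
    · exact h1
    · obtain ⟨-, z', -, h2⟩ := hx z h1
      exact absurd (lt.2 h2) h.not_lt
    · exact absurd (top z h1) h.not_lt
  have c1 : ∀ z, dv z → Order.height z = 1 := fun z h => by
    obtain ⟨nt, z', -, h2⟩ := hx z h
    refine le_antisymm ((Order.height_le_coe_iff (n := 1)).2 fun w hw => ?_) ?_
    · obtain ⟨w1, w2⟩ := lt.1 hw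
      rcases tri w with h1 | h1 | h1
      · rw [(c0 w).2 h1]; exact Nat.cast_pos.2 one_pos
      · exact ((hd w z h1 w1).elim (fun e => w2 e.symm) nt).elim
      · exact (nt (top_le_iff.1 (h1 ▸ w1))).elim
    · exact le_add_self.trans (Order.height_add_one_le (lt.2 h2))
  have c2 : ∀ z, O z = ⊤ → Order.height z = 2 := fun z h => by
    refine le_antisymm ((Order.height_le_coe_iff (n := 2)).2 fun w hw => ?_) ?_
    · rcases tri w with h1 | h1 | h1
      · rw [(c0 w).2 h1]; exact Nat.cast_pos.2 two_pos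
      · rw [c1 w h1]; exact Nat.one_lt_cast.2 one_lt_two
      · exact (hw.ne (inj (h1.trans h.symm))).elim
    · have h2 := Order.height_add_one_le (top z h)
      rwa [c1 z0 h0, one_add_one_eq_two] at h2
  refine fun z => ⟨c0 z, ⟨fun h => ?_, c1 z⟩, c2 z⟩
  rcases tri z with h1 | h1 | h1
  · rw [(c0 z).2 h1] at h; exact absurd h zero_ne_one
  · exact h1
  · rw [c2 z h1] at h; exact absurd h (by decide)

end Pool.Agent.MP_f3836a_nt.VE.W
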