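import Pool.Agent.MP_f3836a_nt.VE.SpecW2
import Pool.Agent.MP_f3836a_nt.PK.FHer

/-! Lengths along the symbolic filtration. -/

set_option autoImplicit false

namespace Pool.Agent.MP_f3836a_nt.VE.W

open PK Submodule
open scoped Pointwise

namespace WFulA

theorem add {R M N : Type} [CommRing R] [AddCommGroup M] [Module R M] [AddCommGroup N] [Module R N]
    (φ : N →ₗ[R] M) {U V : Submodule R M} {T : Submodule R N} (h : ∀ x, x ∈ T ↔ φ x ∈ U)
    (hU : U ≤ V) (hV : ∀ y, y ∈ V ↔ ∃ x, φ x - y ∈ U) :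
    Module.length R (M ⧸ U) = Module.length R (N ⧸ T) + Module.length R (M ⧸ V) := by
  refine Module.length_eq_add_of_exact (T.mapQ U φ fun x => (h x).1) (factor hU) ?_
    (factor_surjective hU) fun y => ?_
  · refine (injective_iff_map_eq_zero _).2 fun x hx => ?_
    obtain ⟨x, rfl⟩ := T.mkQ_surjective x
    exact (Quotient.mk_eq_zero _).2 ((h x).2 ((Quotient.mk_eq_zero _).1 hx))
  · obtain ⟨y, rfl⟩ := U.mkQ_surjective y
    refine ((Quotient.mk_eq_zero V).trans (hV y)).trans ⟨fun ⟨x, k⟩ => ?_, fun ⟨x, k⟩ => ?_⟩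
    · exact ⟨T.mkQ x, (Submodule.Quotient.eq U).2 k⟩
    · obtain ⟨x, rfl⟩ := T.mkQ_surjective x
      exact ⟨x, (Submodule.Quotient.eq U).1 k⟩

/-- one step of a filtration -/
theorem step {R : Type} [CommRing R] {q J J' : Ideal R} (hq : q.IsPrime) {u b : R} (hu : u ∉ q)
    (hJ : J' ≤ J) (reg : ∀ a, u * a ∈ J → a ∈ J) (φ : J →ₗ[R] R ⧸ q)
    (ker : ∀ a, φ a = 0 ↔ (a : R) ∈ J') (hb : q.mkQ b ∈ LinearMap.range φ)
    (fin : Module.length R (R ⧸ (q ⊔ Ideal.span {b})) ≠ ⊤) :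
    Module.length R (R ⧸ (J' ⊔ Ideal.span {u})) =
      Module.length R (R ⧸ (q ⊔ Ideal.span {u})) + Module.length R (R ⧸ (J ⊔ Ideal.span {u})) := by
  rw [add J.subtype (U := J' ⊔ Ideal.span {u}) (V := J ⊔ Ideal.span {u})
    (T := comap J.subtype (J' ⊔ Ideal.span {u})) (fun _ => Iff.rfl) (sup_le_sup_right hJ _)
    fun y => ⟨fun h => ?_, fun ⟨x, h⟩ => ?_⟩]
  · congr 1
    have h1 := rHer R (R ⧸ q) (LinearMap.range φ) u (fun m e => by
      obtain ⟨m, rfl⟩ := q.mkQ_surjective m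
      exact (Quotient.mk_eq_zero _).2
        ((hq.mem_or_mem ((Quotient.mk_eq_zero q).1 e)).resolve_left hu)) (by
      refine ne_top_of_le_ne_top fin (Module.length_le_of_surjective
        (liftQ _ ((LinearMap.range φ).mkQ ∘ₗ q.mkQ) (sup_le (fun x hx => ?_) ?_)) fun x => ?_)
      · rw [LinearMap.mem_ker, LinearMap.comp_apply, mkQ_apply q, (Quotient.mk_eq_zero q).2 hx,
          map_zero]
      · exact (Ideal.span_singleton_le_iff_mem _).2 ((Quotient.mk_eq_zero _).2 hb)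
      · obtain ⟨x, rfl⟩ := mkQ_surjective _ x
        obtain ⟨x, rfl⟩ := mkQ_surjective _ x
        exact ⟨mkQ _ x, rfl⟩)
    rw [← FHer.cyc _ q.mkQ_surjective, ker_mkQ] at h1
    rw [← h1]
    refine FHer.len ((u • (⊤ : Submodule R (LinearMap.range φ))).mkQ ∘ₗ φ.rangeRestrict)
      ((mkQ_surjective _).comp φ.surjective_rangeRestrict) fun x => ?_
    rw [mem_comap, sup_comm, Ideal.mem_span_singleton_sup]
    refine (Quotient.mk_eq_zero _).trans ((mem_smul_pointwise_iff_exists _ _ _).trans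
      ⟨fun ⟨⟨_, y, rfl⟩, _, e⟩ => ⟨y, (x - u • y : J), (ker _).1 ?_, by simp [mul_comm]⟩,
        fun ⟨y, z, hz, e⟩ => ?_⟩)
    · rw [map_sub, map_smul, sub_eq_zero]
      exact (congrArg Subtype.val e).symm
    · have hy : y ∈ J := reg y (by
        rw [mul_comm, eq_sub_of_add_eq e]
        exact sub_mem x.2 (hJ hz))
      refine ⟨φ.rangeRestrict ⟨y, hy⟩, trivial, Subtype.ext ?_⟩
      have e' : x = u • ⟨y, hy⟩ + ⟨z, hJ hz⟩ := Subtype.ext (by rw [mul_comm] at e; exact e.symm)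
      change u • φ ⟨y, hy⟩ = φ x
      rw [e', map_add, map_smul, (ker ⟨z, hJ hz⟩).2 hz, add_zero]
  · obtain ⟨x, hx, z, hz, rfl⟩ := mem_sup.1 h
    exact ⟨⟨x, hx⟩, mem_sup_right (by simpa using hz)⟩
  · simpa using sub_mem (mem_sup_left x.2) (sup_le_sup_right hJ _ h)

variable {K : Type} [Field K] {D : Subring K}

/-- multiples of `w` in `O` -/
def Pd (D O : Subring K) (w : K) : Ideal D where
  carrier := {a | D ≤ O → (a : K) / w ∈ O}
  add_mem' ha hb h := by
    rw [Subring.coe_add, add_div]; exact O.add_mem (ha h) (hb h)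
  zero_mem' _ := by rw [Subring.coe_zero, zero_div]; exact O.zero_mem
  smul_mem' c a ha h := by
    rw [smul_eq_mul, Subring.coe_mul, mul_div_assoc]
    exact O.mul_mem (h c.2) (ha h)

theorem den {q : Ideal D} [hq : q.IsPrime] (w : K) (J : Ideal D) (hJ : J.FG) :
    (∀ a ∈ J, (a : K) / w ∈ lc D q) → ∃ b ∉ q, ∀ a ∈ J, (b : K) * (a / w) ∈ D := by
  refine fg_induction (motive := fun (J : Ideal D) _ => (∀ a ∈ J, (a : K) / w ∈ lc D q) →
    ∃ b ∉ q, ∀ a ∈ J, (b : K) * (a / w) ∈ D) (fun x h => ?_) (fun M N _ _ hM hN h => ?_) J hJ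
  · obtain ⟨a, b, hb, e⟩ := mem_lc.1 (h x (mem_span_singleton_self x))
    refine ⟨b, hb, fun y hy => ?_⟩
    obtain ⟨c, rfl⟩ := mem_span_singleton.1 hy
    rw [smul_eq_mul, Subring.coe_mul, mul_div_assoc, mul_left_comm, mul_comm (b : K), e]
    exact D.mul_mem c.2 a.2
  · obtain ⟨b, hb, h1⟩ := hM fun a ha => h a (mem_sup_left ha)
    obtain ⟨c, hc, h2⟩ := hN fun a ha => h a (mem_sup_right ha)
    refine ⟨b * c, fun e => (hq.mem_or_mem e).elim hb hc, fun a ha => ?_⟩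
    obtain ⟨x, hx, y, hy, rfl⟩ := mem_sup.1 ha
    convert D.add_mem (D.mul_mem c.2 (h1 x hx)) (D.mul_mem b.2 (h2 y hy)) using 1
    push_cast
    ring

variable {κ : Type} [Field κ] {O : Subring K} {r : O →+* κ}

theorem ord_div (h : DVA O r) {a w : K} (ha : a ≠ 0) (hw : w ≠ 0) :
    ordR O (a / w) = ordR O a - ordR O w := by
  rw [eq_sub_iff_add_eq, ← h.mul _ _ (div_ne_zero ha hw) hw, div_mul_cancel₀ _ hw]

theorem mem_div (h : DVA O r) {a w : K} (hw : w ≠ 0) :
    a / w ∈ O ↔ a = 0 ∨ ordR O w ≤ ordR O a := by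
  by_cases ha : a = 0
  · simp [ha]
  · rw [h.mem _ (div_ne_zero ha hw), ord_div h ha hw, sub_nonneg, or_iff_right ha]

theorem reg {q : Ideal D} (hv : DVA O r) (ho : OdA D q O r) {u : D} (hu : u ∉ q) {w : K}
    (hw : w ≠ 0) (a : D) (h : u * a ∈ Pd D O w) : a ∈ Pd D O w := fun hD => by
  have u0 : u ≠ 0 := fun e => hu (e ▸ q.zero_mem)
  have u1 : (u : K) ≠ 0 := fun e => u0 (Subtype.ext e)
  rw [mem_div hv hw, or_iff_not_imp_left]
  intro a0
  have := ((mem_div hv hw).1 (h hD)).resolve_left (mul_ne_zero u1 a0)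
  rwa [Subring.coe_mul, hv.mul _ _ u1 a0, ((ho.ord u u0).2).2 hu, zero_add] at this

/-- the powers of one prime -/
theorem pw {q : Ideal D} [hq : q.IsPrime] (hn : IsNoetherianRing D) (hO : O = lc D q)
    (hv : DVA O r) (ho : OdA D q O r) {u : D} (hu : u ∉ q) {R : Ideal D}
    (hR : ∀ a, u * a ∈ R → a ∈ R) {y : D} (hy : y ∈ R) (hy' : y ∉ q) (k : ℕ) :
    ∀ w : K, w ≠ 0 → ordR O w = k → Module.length D (D ⧸ (Pd D O w ⊓ R ⊔ Ideal.span {u})) =
      k * Module.length D (D ⧸ (q ⊔ Ideal.span {u})) +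
        Module.length D (D ⧸ (R ⊔ Ideal.span {u})) := by
  have hD : D ≤ O := hO ▸ le_lc D q
  have o0 : ∀ a : D, (a : K) = 0 ∨ 0 ≤ ordR O (a : K) := fun a =>
    or_iff_not_imp_left.2 fun h => (hv.mem _ h).1 (hD a.2)
  induction k with
  | zero =>
    intro w hw e
    rw [(Ideal.eq_top_iff_one (Pd D O w)).2 fun _ => (mem_div hv hw).2 (by
      rw [e]; exact o0 1), top_inf_eq]
    simp
  | succ k ih =>
    intro w hw e
    obtain ⟨π, p0, p1⟩ := hv.uni
    have w0 := div_ne_zero hw p0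
    have e' : ordR O (w / π) = k := by rw [ord_div hv hw p0, e, p1]; simp
    generalize w / π = v at w0 e'
    obtain ⟨b, hb, h1⟩ := den (q := q) v (Pd D O v ⊓ R) (IsNoetherian.noetherian _)
      fun a ha => hO ▸ ha.1 hD
    have b0 : b ≠ 0 := fun e => hb (e ▸ q.zero_mem)
    have b1 : (b : K) ≠ 0 := fun e => b0 (Subtype.ext e)
    obtain ⟨c, d, hd, e2⟩ := mem_lc.1 (hO ▸ (hv.mem v w0).2 (by omega) : v ∈ lc D q)
    have e3 : ((c * y : D) : K) / v = (d * y : D) := by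
      rw [Subring.coe_mul, Subring.coe_mul, ← e2]
      field_simp
    have hb' : b * (d * y) ∉ q := fun h => (hq.mem_or_mem h).elim hb fun h =>
      (hq.mem_or_mem h).elim hd hy'
    let ψ : ↥(Pd D O v ⊓ R) →ₗ[D] D :=
      { toFun a := ⟨_, h1 a a.2⟩
        map_add' a a' := Subtype.ext (by simp [add_div, mul_add])
        map_smul' a a' := Subtype.ext (by simp [mul_div_assoc, mul_left_comm]) }
    have hle : Pd D O w ≤ Pd D O v := fun a ha _ =>
      (mem_div hv w0).2 (((mem_div hv hw).1 (ha hD)).imp_right (by omega))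
    rw [step hq hu (J := Pd D O v ⊓ R) (b := b * (d * y)) (inf_le_inf_right R hle)
      (fun a ha => ⟨reg hv ho hu w0 a ha.1, hR a ha.2⟩) (q.mkQ ∘ₗ ψ) (fun a => ?_)
      ⟨⟨c * y, fun _ => e3 ▸ hD (d * y).2, R.mul_mem_left c hy⟩,
        congrArg q.mkQ (Subtype.ext (congrArg ((b : K) * ·) e3))⟩
      (by rw [(ho.len _ hb').2.1]; exact ENat.natCast_ne_top _), ih v w0 e', Nat.cast_succ, add_mul,
      one_mul, add_left_comm, add_assoc]
    refine (Quotient.mk_eq_zero q).trans ?_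
    by_cases a0 : ((a : D) : K) = 0
    · have : a = 0 := Subtype.ext (Subtype.ext a0)
      simp [this]
    · have a1 : (ψ a : K) = b * (a / v) := rfl
      have a2 := ho.ord (ψ a) fun h => mul_ne_zero b1 (div_ne_zero a0 w0) (congrArg Subtype.val h)
      rw [a1, hv.mul _ _ b1 (div_ne_zero a0 w0), ((ho.ord b b0).2).2 hb, ord_div hv a0 w0] at a2
      refine ⟨fun h => ⟨fun _ => (mem_div hv hw).2 (Or.inr ?_), a.2.2⟩,
        fun h => by_contra fun h' => ?_⟩
      · have a3 : ¬_ = _ := fun e => a2.2.1 e h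
        have a4 := a2.1
        omega
      · have := ((mem_div hv hw).1 (h.1 hD)).resolve_left a0
        have := a2.2.2 h'
        omega

end WFulA

open WFulA in
theorem wFulA : OfFulA := by
  classical
  intro _ hO K _ D I O κ _ r hD hT g u s hc hs
  have g1 : (g : K) ≠ 0 := fun e => hc.1 (Subtype.ext e)
  have hv := fun C => rDVA _ _ _ _ (hT.dv C)
  have hq : ∀ C ∈ s, ∃ (q : Ideal D) (_ : q.IsPrime), q ≠ ⊥ ∧ ¬q.IsMaximal ∧ O C = lc D q ∧
      OdA D q (O C) (r C) ∧ u ∉ q := fun C hC => by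
    obtain ⟨q, _, q1, q2, q3⟩ := hT.cen C ((hs C).1 hC).1
    have ho := hO K _ D _ q (r C) hD q1 q2 q3 (hT.dv C)
    exact ⟨q, ‹_›, q1, q2, q3, ho, fun h => q2 (hc.2.2 q ‹_›
      (by_contra fun h' => ((hs C).1 hC).2 ((ho.ord g hc.1).2.2 h')) h)⟩
  have e : Sat D g = s.inf fun C => Pd D (O C) g := by
    ext a
    rw [Submodule.mem_finsetInf]
    refine ⟨fun h C _ h' => h _ (hT.cen C h'), fun h S hS => ?_⟩
    obtain ⟨C, rfl⟩ := hT.ex S hS
    have h1 : D ≤ O C := by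
      obtain ⟨q, _, -, -, e⟩ := hS
      exact e ▸ le_lc D q
    by_cases hC : C ∈ s
    · exact h C hC h1
    · rw [mem_div (hv C) g1, by_contra fun h' : ¬ordR (O C) (g : K) = 0 => hC ((hs C).2 ⟨h1, h'⟩)]
      exact or_iff_not_imp_left.2 fun h => ((hv C).mem _ h).1 (h1 a.2)
  rw [e]
  clear e hs
  induction s using Finset.induction_on with
  | empty =>
    rw [Finset.inf_empty, top_sup_eq, Finset.sum_empty, Nat.cast_zero, Module.length_eq_zero_iff]
    infer_instance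
  | insert C s hC ih =>
    have hq' := fun C h => hq C (Finset.mem_insert_of_mem h)
    obtain ⟨q, hp, q1, q2, q3, ho, hu⟩ := hq C (Finset.mem_insert_self C s)
    obtain ⟨y, y1, y2⟩ := SetLike.not_le_iff_exists.1 fun h :
        (s.inf fun C => Pd D (O C) g) ≤ q => by
      obtain ⟨C', h1, h2⟩ := hp.inf_le'.1 h
      obtain ⟨q', hp', r1, -, r3, ho', -⟩ := hq' C' h1
      obtain ⟨x, x1, x2⟩ := SetLike.not_le_iff_exists.1 fun h : q' ≤ q => by
        rcases h.eq_or_lt with rfl | h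
        · exact hC (hT.inj (q3.trans r3.symm) ▸ h1)
        · exact q2 (hD.dim q' q hp' hp r1 h)
      have x0 : x ≠ 0 := fun e => x2 (e ▸ q.zero_mem)
      refine x2 (hp.mem_of_pow_mem (ordR (O C') (g : K)).toNat (h2 fun _ => ?_))
      rw [mem_div (hv C') g1, Subring.coe_pow, ← zpow_natCast,
        (hv C').zpow _ _ fun e => x0 (Subtype.ext e)]
      have a1 := (ho'.ord x x0).1
      have a2 : ¬_ = _ := fun e => (ho'.ord x x0).2.1 e x1
      have a3 : 1 ≤ ordR (O C') (x : K) := by omega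
      exact Or.inr ((Int.self_le_toNat _).trans
        (le_mul_of_one_le_right (Int.natCast_nonneg _) a3))
    rw [Finset.inf_insert, Finset.sum_insert hC, pw hD.noeth q3 (hv C) ho hu (fun a ha => ?_) y1 y2
      (ordR (O C) (g : K)).toNat g g1 (Int.toNat_of_nonneg (ho.ord g hc.1).1).symm, ih hq',
      (ho.len u hu).2.1, Nat.cast_add, Nat.cast_mul]
    rw [Submodule.mem_finsetInf] at ha ⊢
    intro C' h1
    obtain ⟨q', -, -, -, -, ho', hu'⟩ := hq' C' h1
    exact reg (hv C') ho' hu' g1 a (ha C' h1)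

end Pool.Agent.MP_f3836a_nt.VE.W
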