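import Pool.Agent.MP_f3836a_nt.VE.SpecW2

/-! Symmetry of the local intersection number. -/

set_option autoImplicit false

namespace Pool.Agent.MP_f3836a_nt.VE.W

open Submodule

namespace WFulB

variable {R M N : Type} [CommRing R] [AddCommGroup M] [Module R M] [AddCommGroup N] [Module R N]

theorem add (φ : N →ₗ[R] M) {U V : Submodule R M} {T : Submodule R N} (h : ∀ x, x ∈ T ↔ φ x ∈ U)
    (hU : U ≤ V) (h1 : ∀ x, φ x ∈ V) (h2 : ∀ y ∈ V, ∃ x, φ x - y ∈ U) :
    Module.length R (M ⧸ U) = Module.length R (N ⧸ T) + Module.length R (M ⧸ V) := by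
  refine Module.length_eq_add_of_exact (T.mapQ U φ fun x => (h x).1) (factor hU) ?_
    (factor_surjective hU) fun y => ?_
  · refine (injective_iff_map_eq_zero _).2 fun x hx => ?_
    obtain ⟨x, rfl⟩ := T.mkQ_surjective x
    exact (Quotient.mk_eq_zero _).2 ((h x).2 ((Quotient.mk_eq_zero _).1 hx))
  · obtain ⟨y, rfl⟩ := U.mkQ_surjective y
    refine (Quotient.mk_eq_zero V).trans ⟨fun k => ?_, fun ⟨x, k⟩ => ?_⟩
    · obtain ⟨x, e⟩ := h2 y k
      exact ⟨T.mkQ x, (Submodule.Quotient.eq U).2 e⟩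
    · obtain ⟨x, rfl⟩ := T.mkQ_surjective x
      have := sub_mem (h1 x) (hU ((Submodule.Quotient.eq U).1 k))
      simpa using this

theorem fin [IsNoetherianRing R] [Module.Finite R M]
    (h : ∀ q : Ideal R, q.IsPrime → ¬q.IsMaximal → ∀ m : M, ∃ r ∉ q, r • m = 0) :
    Module.length R M ≠ ⊤ := by
  have hd : Ring.KrullDimLE 0 (R ⧸ Module.annihilator R M) :=
    Ideal.krullDimLE_zero_quotient_iff_forall_minimalPrimes_isMaximal.2 fun J hJ => by
      by_contra k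
      exact Module.notMem_support_iff'.2 (h J hJ.1.1 k)
        ((Module.mem_support_iff_of_finite (p := ⟨J, hJ.1.1⟩)).2 hJ.1.2)
  have : IsArtinianRing (R ⧸ Module.annihilator R M) :=
    IsNoetherianRing.isArtinianRing_of_krullDimLE_zero
  let _ := (Module.isTorsionBySet_annihilator R M).module
  have : IsScalarTower R (R ⧸ Module.annihilator R M) M :=
    (Module.isTorsionBySet_annihilator R M).isScalarTower
  have := Module.Finite.of_restrictScalars_finite R (R ⧸ Module.annihilator R M) M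
  have : IsArtinian R M :=
    isArtinian_of_surjective_algebraMap (R := R ⧸ Module.annihilator R M)
      Ideal.Quotient.mk_surjective
  exact Module.length_ne_top

theorem key [IsNoetherianRing R] (g u : R) (I : Ideal R) (hg : g ∈ I)
    (hu : ∀ a, u * a ∈ I → a ∈ I)
    (hI : ∀ q : Ideal R, q.IsPrime → ¬q.IsMaximal → ∀ a ∈ I, ∃ r ∉ q, r * a ∈ Ideal.span {g})
    (φ : N →ₗ[R] R) (T : Submodule R N) (hT : ∀ x, x ∈ T ↔ φ x ∈ Ideal.span {g})
    (hφ : ∀ a, u * a ∈ Ideal.span {g} ↔ ∃ x, φ x = a) :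
    Module.length R (R ⧸ (Ideal.span {g} ⊔ Ideal.span {u})) =
      Module.length R (N ⧸ T) + Module.length R (R ⧸ (I ⊔ Ideal.span {u})) ∧
    Module.length R (N ⧸ T) ≠ ⊤ := by
  have gI : Ideal.span {g} ≤ I := (Ideal.span_singleton_le_iff_mem _).2 hg
  have e1 := add I.subtype (U := Ideal.span {g} ⊔ Ideal.span {u}) (V := I ⊔ Ideal.span {u})
    (T := comap I.subtype (Ideal.span {g} ⊔ Ideal.span {u})) (fun _ => Iff.rfl)
    (sup_le_sup_right gI _) (fun x => mem_sup_left x.2) fun y hy => by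
      obtain ⟨a, ha, b, hb, rfl⟩ := mem_sup.1 hy
      exact ⟨⟨a, ha⟩, mem_sup_right (by simpa using hb)⟩
  have e2 := add (LinearMap.lsmul R I u) (U := comap I.subtype (Ideal.span {g}))
    (V := comap I.subtype (Ideal.span {g} ⊔ Ideal.span {u}))
    (T := comap I.subtype (comap (LinearMap.lsmul R R u) (Ideal.span {g}))) (fun _ => Iff.rfl)
    (comap_mono le_sup_left)
    (fun x => mem_sup_right (Ideal.mem_span_singleton.2 ⟨x, rfl⟩)) fun y hy => by
      obtain ⟨a, ha, b, hb, e⟩ := mem_sup.1 hy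
      obtain ⟨b, rfl⟩ := Ideal.mem_span_singleton.1 hb
      have e' : u * b = y - a := eq_sub_of_add_eq' e
      refine ⟨⟨b, hu b (e' ▸ sub_mem y.2 (gI ha))⟩, ?_⟩
      change u * b - y ∈ Ideal.span {g}
      rw [e']
      simpa using ha
  have e3 := add (φ.codRestrict I fun x => hu _ (gI ((hφ _).2 ⟨x, rfl⟩)))
    (U := comap I.subtype (Ideal.span {g}))
    (V := comap I.subtype (comap (LinearMap.lsmul R R u) (Ideal.span {g}))) hT
    (comap_mono fun a ha => Ideal.mul_mem_left _ u ha) (fun x => (hφ _).2 ⟨x, rfl⟩) fun y hy => by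
      obtain ⟨x, e⟩ := (hφ _).1 hy
      refine ⟨x, ?_⟩
      change φ x - y ∈ Ideal.span {g}
      rw [e]
      simp
  have f := fin (R := R) (M := I ⧸ comap I.subtype (Ideal.span {g})) fun q h1 h2 m => by
    obtain ⟨m, rfl⟩ := mkQ_surjective _ m
    obtain ⟨r, r1, r2⟩ := hI q h1 h2 m m.2
    exact ⟨r, r1, (Quotient.mk_eq_zero _).2 r2⟩
  rw [e3] at f e2
  rw [add_comm] at e2
  exact ⟨e1.trans (congrArg (· + _) (WithTop.add_left_cancel (WithTop.add_ne_top.1 f).2 e2).symm),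
    (WithTop.add_ne_top.1 f).1⟩

theorem sat {K : Type} [Field K] {D : Subring K} (g u : D) (h : Cop D g u) :
    g ∈ Sat D g ∧ (∀ a, u * a ∈ Sat D g → a ∈ Sat D g) ∧
    ∀ q : Ideal D, q.IsPrime → ¬q.IsMaximal → ∀ a ∈ Sat D g, ∃ r ∉ q, r * a ∈ Ideal.span {g} := by
  have g0 : (g : K) ≠ 0 := fun e => h.1 (Subtype.ext e)
  refine ⟨fun S _ => by rw [div_self g0]; exact S.one_mem, fun a ha S hS => ?_,
    fun q h1 h2 a ha => ?_⟩
  · have k := ha S hS
    obtain ⟨q, h1, -, h2, rfl⟩ := hS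
    by_cases hg : g ∈ q
    · obtain ⟨c, b, hb, e⟩ := mem_lc.1 k
      refine mem_lc.2 ⟨c, u * b, fun k => (h1.mem_or_mem k).elim
        (fun k => h2 (h.2.2 q h1 hg k)) hb, ?_⟩
      rw [← e]
      push_cast
      ring
    · exact mem_lc.2 ⟨a, g, hg, div_mul_cancel₀ _ g0⟩
  · by_cases hq : q = ⊥
    · exact ⟨g, fun k => h.1 (by simpa [hq] using k), Ideal.mem_span_singleton.2 ⟨a, rfl⟩⟩
    · obtain ⟨c, b, hb, e⟩ := mem_lc.1 (ha _ ⟨q, h1, hq, h2, rfl⟩)
      refine ⟨b, hb, Ideal.mem_span_singleton.2 ⟨c, Subtype.ext ?_⟩⟩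
      push_cast
      rw [← e]
      field_simp

end WFulB

open WFulB in
theorem wFulB : OfFulB := by
  intro _ K _ D g u hD h
  have := hD.noeth
  obtain ⟨a1, a2, a3⟩ := sat g u h
  obtain ⟨b1, b2, b3⟩ := sat u g ⟨h.2.1, h.1, fun q h1 h2 h3 => h.2.2 q h1 h3 h2⟩
  let P := LinearMap.eqLocus (u • LinearMap.fst D D D) (g • LinearMap.snd D D D)
  obtain ⟨e1, f⟩ := key g u _ a1 a2 a3 (LinearMap.fst D D D ∘ₗ P.subtype)
    (comap (LinearMap.fst D D D ∘ₗ P.subtype) (Ideal.span {g})) (fun _ => Iff.rfl) fun a =>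
      Ideal.mem_span_singleton.trans ⟨fun ⟨b, e⟩ => ⟨⟨(a, b), e⟩, rfl⟩,
        fun ⟨x, e⟩ => ⟨_, (congrArg (u * ·) e).symm.trans x.2⟩⟩
  obtain ⟨e2, -⟩ := key u g _ b1 b2 b3 (LinearMap.snd D D D ∘ₗ P.subtype)
    (comap (LinearMap.fst D D D ∘ₗ P.subtype) (Ideal.span {g}))
    (fun ⟨⟨a, b⟩, (e : u * a = g * b)⟩ => Ideal.mem_span_singleton.trans (Iff.trans
      ⟨fun ⟨c, (k : a = g * c)⟩ => ⟨c, mul_left_cancel₀ h.1
        (show g * b = g * (u * c) by rw [← e, k]; ring)⟩,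
      fun ⟨c, (k : b = u * c)⟩ => ⟨c, mul_left_cancel₀ h.2.1
        (show u * a = u * (g * c) by rw [e, k]; ring)⟩⟩ Ideal.mem_span_singleton.symm)) fun a =>
      Ideal.mem_span_singleton.trans
        ⟨fun ⟨b, e⟩ => ⟨⟨(b, a), e.symm⟩, rfl⟩,
          fun ⟨x, e⟩ => ⟨_, (congrArg (g * ·) e).symm.trans x.2.symm⟩⟩
  rw [sup_comm, e1] at e2
  exact WithTop.add_left_cancel f e2

end Pool.Agent.MP_f3836a_nt.VE.W
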