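import Pool.Agent.MP_f3836a_nt.VE.SpecT

set_option autoImplicit false

/-! The tame symbol at a discrete place: elementary rules and transport. -/

namespace Pool.Agent.MP_f3836a_nt.VE.T

open Polynomial IsLocalRing PK VE.A

namespace TTame

section
variable {L κ : Type} [Field L] [Field κ] {O : Subring L} {r : O →+* κ}

theorem radd {f g : L} (hf : f ∈ O) (hg : g ∈ O) :
    resR O r (f + g) = resR O r f + resR O r g := by
  rw [EDVA.res_mem hf, EDVA.res_mem hg, EDVA.res_mem (O.add_mem hf hg), ← map_add]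
  rfl

theorem rsub {f g : L} (hf : f ∈ O) (hg : g ∈ O) :
    resR O r (f - g) = resR O r f - resR O r g := by
  rw [EDVA.res_mem hf, EDVA.res_mem hg, EDVA.res_mem (O.sub_mem hf hg), ← map_sub]
  rfl

variable (h : DV O r)

include h

theorem emul {f f' g : L} (hf : f ≠ 0) (hf' : f' ≠ 0) (hg : g ≠ 0) :
    tameE O (f * f') g = tameE O f g * tameE O f' g := by
  have h1 : (-1 : L) ≠ 0 := neg_ne_zero.2 one_ne_zero
  unfold tameE
  rw [EDVA.mul h hf hf', add_mul, zpow_add₀ h1, zpow_add₀ hg, mul_zpow]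
  have := zpow_ne_zero (ordR O f) hg
  have := zpow_ne_zero (ordR O f') hg
  field_simp

theorem emul' {f g g' : L} (hf : f ≠ 0) (hg : g ≠ 0) (hg' : g' ≠ 0) :
    tameE O f (g * g') = tameE O f g * tameE O f g' := by
  have h1 : (-1 : L) ≠ 0 := neg_ne_zero.2 one_ne_zero
  unfold tameE
  rw [EDVA.mul h hg hg', mul_add, zpow_add₀ h1, zpow_add₀ hf, mul_zpow]
  have := zpow_ne_zero (ordR O f) hg
  have := zpow_ne_zero (ordR O f) hg'
  field_simp

theorem tmul {f f' g : L} (hf : f ≠ 0) (hf' : f' ≠ 0) (hg : g ≠ 0) :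
    tameR O r (f * f') g = tameR O r f g * tameR O r f' g := by
  rw [tameR, tameR, tameR, emul h hf hf' hg, EDVA.res_mul h (EDVA.tt h hf hg).1
    (EDVA.tt h hf' hg).1 (EDVA.tt h hf hg).2 (EDVA.tt h hf' hg).2]

theorem tmul' {f g g' : L} (hf : f ≠ 0) (hg : g ≠ 0) (hg' : g' ≠ 0) :
    tameR O r f (g * g') = tameR O r f g * tameR O r f g' := by
  rw [tameR, tameR, tameR, emul' h hf hg hg', EDVA.res_mul h (EDVA.tt h hf hg).1
    (EDVA.tt h hf hg').1 (EDVA.tt h hf hg).2 (EDVA.tt h hf hg').2]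

theorem tunit {f : L} (g : L) (hf : f ≠ 0) (a : ordR O f = 0) :
    tameR O r f g = resR O r f ^ ordR O g := by
  rw [tameR, tameE, a, zero_mul, zpow_zero, zpow_zero, one_mul, div_one, EDVA.res_zpow h hf a]

theorem tunit' (f : L) {g : L} (hg : g ≠ 0) (a : ordR O g = 0) :
    tameR O r f g = resR O r g ^ (-ordR O f) := by
  rw [tameR, tameE, a, mul_zero, zpow_zero, zpow_zero, one_mul, one_div, ← zpow_neg,
    EDVA.res_zpow h hg a]

theorem one_sub {u : L} (hu : u ≠ 0) (a : 0 < ordR O u) :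
    1 - u ≠ 0 ∧ ordR O (1 - u) = 0 ∧ resR O r (1 - u) = 1 := by
  have hm : u ∈ O := (EDVA.mem h hu).2 a.le
  have h0 : resR O r u = 0 := by
    rw [EDVA.res_mem hm]
    exact (h.ker _).2 ((EDVA.nu h ⟨u, hm⟩ hu).2 a)
  have h1 : resR O r (1 - u) = 1 := by rw [rsub O.one_mem hm, h0, EDVA.res_one, sub_zero]
  have hm' : 1 - u ∈ O := O.sub_mem O.one_mem hm
  have h2 : IsUnit (⟨1 - u, hm'⟩ : O) := by
    by_contra e
    have := (h.ker _).2 e
    rw [← EDVA.res_mem hm', h1] at this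
    exact one_ne_zero this
  exact ⟨(EDVA.unit' h _ h2).1, (EDVA.unit' h _ h2).2, h1⟩

theorem stein {g : L} (hg : g ≠ 0) (hg1 : g ≠ 1) : tameR O r g (1 - g) = 1 := by
  have hg' : 1 - g ≠ 0 := sub_ne_zero.2 hg1.symm
  rcases lt_trichotomy (ordR O g) 0 with a | a | a
  · have hu : 0 < ordR O g⁻¹ := by rw [EDVA.v_inv h hg]; omega
    obtain ⟨b0, b1, b2⟩ := one_sub h (inv_ne_zero hg) hu
    have h1 : (-1 : L) ≠ 0 := neg_ne_zero.2 one_ne_zero
    have e : 1 - g = -1 * (g * (1 - g⁻¹)) := by field_simp; ring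
    have e1 : ordR O (1 - g) = ordR O g := by
      rw [e, EDVA.mul h h1 (mul_ne_zero hg b0), EDVA.mul h hg b0, EDVA.v_neg_one h, b1]
      ring
    have e2 : tameE O g (1 - g) = (1 - g⁻¹) ^ (-ordR O g) := by
      rw [tameE, e1, e, mul_zpow, mul_zpow, zpow_neg]
      have e3 : (-1 : L) ^ (ordR O g * ordR O g) = (-1) ^ ordR O g := by
        rcases Int.even_or_odd (ordR O g) with c | c
        · rw [c.neg_one_zpow, (c.mul_right _).neg_one_zpow]
        · rw [c.neg_one_zpow, (c.mul c).neg_one_zpow]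
      rw [e3]
      have := zpow_ne_zero (ordR O g) h1
      have := zpow_ne_zero (ordR O g) hg
      have := zpow_ne_zero (ordR O g) b0
      field_simp
    rw [tameR, e2, EDVA.res_zpow h b0 b1, b2, one_zpow]
  · rw [tunit h _ hg a]
    have hm : 1 - g ∈ O := O.sub_mem O.one_mem ((EDVA.mem h hg).2 a.ge)
    rcases ((EDVA.mem h hg').1 hm).eq_or_lt with b | b
    · rw [← b, zpow_zero]
    · have := (one_sub h hg' b).2.2
      rw [sub_sub_cancel] at this
      rw [this, one_zpow]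
  · obtain ⟨b0, b1, b2⟩ := one_sub h hg a
    rw [tunit' h _ b0 b1, b2, one_zpow]

theorem ord_eq {κ' : Type} [Field κ'] {O' : Subring L} {r' : O' →+* κ'} (h' : DV O' r')
    (σ : L ≃+* L) (hσ : ∀ f, f ∈ O' ↔ σ f ∈ O) {f : L} (hf : f ≠ 0) :
    ordR O (σ f) = ordR O' f := by
  obtain ⟨p, p0, p1⟩ := EDVA.uni h'
  have ne : ∀ {x : L}, x ≠ 0 → σ x ≠ 0 := fun hx => (map_ne_zero σ).2 hx
  have key : ∀ x : L, x ≠ 0 → ordR O (σ x) = ordR O' x * ordR O (σ p) := by
    intro x hx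
    have u0 : x * p ^ (-ordR O' x) ≠ 0 := mul_ne_zero hx (zpow_ne_zero _ p0)
    have u1 : ordR O' (x * p ^ (-ordR O' x)) = 0 := by
      rw [EDVA.mul h' hx (zpow_ne_zero _ p0), EDVA.v_zpow h' p0, p1]
      ring
    have a1 := (EDVA.mem h (ne u0)).1 ((hσ _).1 ((EDVA.mem h' u0).2 u1.ge))
    have a2 := (EDVA.mem h (ne (inv_ne_zero u0))).1 ((hσ _).1
      ((EDVA.mem h' (inv_ne_zero u0)).2 (by rw [EDVA.v_inv h' u0, u1, neg_zero])))
    rw [map_inv₀, EDVA.v_inv h (ne u0)] at a2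
    rw [map_mul, map_zpow₀, EDVA.mul h (ne hx) (zpow_ne_zero _ (ne p0)),
      EDVA.v_zpow h (ne p0)] at a1 a2
    linarith
  obtain ⟨q, q0, q1⟩ := EDVA.uni h
  have a1 := key (σ.symm q) ((map_ne_zero σ.symm).2 q0)
  rw [σ.apply_symm_apply, q1] at a1
  have a2 : 0 ≤ ordR O (σ p) :=
    (EDVA.mem h (ne p0)).1 ((hσ _).1 ((EDVA.mem h' p0).2 (by omega)))
  have a3 : ordR O (σ p) = 1 := Int.eq_one_of_mul_eq_one_left a2 a1.symm
  rw [key f hf, a3, mul_one]

end

section
variable {F : Type} [Field F] [Algebra ℚ F]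

theorem nu (P : Place F) {g : F} (hg : g ∈ P.V) :
    g ∈ P.V.nonunits ↔ ¬IsUnit (⟨g, hg⟩ : P.V) :=
  (P.V.coe_mem_nonunits_iff (a := ⟨g, hg⟩)).trans ((mem_maximalIdeal _).trans mem_nonunits_iff)

theorem aev (P : Place F) (g : F) (A : ℚ[X]) (hg : g ∈ P.V) :
    aeval g A ∈ P.V ∧ P.res (aeval g A) = aeval (P.res g) A := by
  induction A using Polynomial.induction_on with
  | C a =>
    rw [aeval_C, aeval_C]
    exact ⟨P.const a, P.res_const a⟩
  | add A B hA hB =>
    rw [map_add, map_add, ← hA.2, ← hB.2]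
    exact ⟨P.V.add_mem _ _ hA.1 hB.1, radd (O := P.V.toSubring) hA.1 hB.1⟩
  | monomial n a hA =>
    rw [pow_succ, ← mul_assoc, map_mul _ _ X, map_mul _ _ X, aeval_X, aeval_X, ← hA.2]
    exact ⟨P.V.mul_mem _ _ hA.1 hg, EDVA.rmul (O := P.V.toSubring) hA.1 hg⟩

/-- the isomorphism of valuation rings -/
def iso (P : Place F) (σ : F ≃+* F) : (P.pull σ).V ≃+* P.V where
  toFun a := ⟨σ a, a.2⟩
  invFun b := ⟨σ.symm b, by
    change σ (σ.symm b) ∈ P.V
    rw [σ.apply_symm_apply]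
    exact b.2⟩
  left_inv a := Subtype.ext (σ.symm_apply_apply a)
  right_inv b := Subtype.ext (σ.apply_symm_apply b)
  map_mul' a b := Subtype.ext (map_mul σ _ _)
  map_add' a b := Subtype.ext (map_add σ _ _)

theorem res_pull (P : Place F) (σ : F ≃+* F) (t : F) :
    P.res (σ t) = ResidueField.mapEquiv (iso P σ) ((P.pull σ).res t) := by
  by_cases ht : t ∈ (P.pull σ).V
  · rw [(P.pull σ).res_mem ht, P.res_mem (g := σ t) ht]
    rfl
  · have a : (P.pull σ).res t = 0 := dif_neg ht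
    have b : P.res (σ t) = 0 := dif_neg ht
    rw [a, b, map_zero]

theorem nm_pull (P : Place F) (σ : F ≃+* F) (a : ResidueField (P.pull σ).V) :
    P.nm (ResidueField.mapEquiv (iso P σ) a) = (P.pull σ).nm a := by
  rw [Place.nm_eq, Place.nm_eq]
  exact Algebra.norm_eq_of_algEquiv (AlgEquiv.ofRingEquiv (R := ℚ)
    (f := ResidueField.mapEquiv (iso P σ)) fun q => DFunLike.congr_fun (Subsingleton.elim
      ((ResidueField.mapEquiv (iso P σ)).toRingHom.comp (P.pull σ).emb) P.emb) q) a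

theorem pull_symm (P : Place F) (σ : F ≃+* F) : (P.pull σ).pull σ.symm = P := by
  refine Place.ext (ValuationSubring.ext _ _ fun x => ?_)
  change σ (σ.symm x) ∈ P.V ↔ _
  rw [σ.apply_symm_apply]

end

end TTame

open TTame in
theorem rTameA : RTameA := fun _ _ _ P h =>
  { mul := fun _ _ _ a b c => tmul (P.dv h) a b c
    mul' := fun _ _ _ a b c => tmul' (P.dv h) a b c
    unit := fun _ k a b => tunit (P.dv h) k a b
    unit' := fun g _ a b => tunit' (P.dv h) g a b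
    stein := fun _ a b => stein (P.dv h) a b
    pos := fun g a => ⟨fun b => (EDVA.nu (P.dv h) ⟨g, P.V.nonunits_le b⟩ a).1
        ((nu P (P.V.nonunits_le b)).1 b),
      fun b => (nu P ((EDVA.mem (P.dv h) a).2 b.le)).2
        ((EDVA.nu (P.dv h) ⟨g, (EDVA.mem (P.dv h) a).2 b.le⟩ a).2 b)⟩
    zero := fun g a => by
      rw [P.res_mem a, nu P a]
      exact (P.dv h).ker ⟨g, a⟩
    add := fun _ _ a b => radd (O := P.V.toSubring) a b
    aev := fun g A a => aev P g A a }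

open TTame in
theorem rPull : RPull := by
  intro F _ _ σ
  refine ⟨Function.bijective_iff_has_inverse.2 ⟨fun P => P.pull σ.symm, fun P => pull_symm P σ,
    fun P => pull_symm P σ.symm⟩, fun P g k h hg hk => ?_⟩
  have h' : IsDiscreteValuationRing (P.pull σ).V :=
    IsDiscreteValuationRing.RingEquivClass.isDiscreteValuationRing (iso P σ).symm
  have o : ∀ {f : F}, f ≠ 0 → ordR P.V.toSubring (σ f) = ordR (P.pull σ).V.toSubring f :=
    fun hf => ord_eq (P.dv h) ((P.pull σ).dv h') σ (fun _ => Iff.rfl) hf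
  have e : tameE P.V.toSubring (σ g) (σ k) = σ (tameE (P.pull σ).V.toSubring g k) := by
    rw [tameE, tameE, o hg, o hk, map_div₀, map_mul, map_zpow₀, map_zpow₀, map_zpow₀, map_neg,
      map_one]
  have e' : P.tame (σ g) (σ k) = P.res (σ (tameE (P.pull σ).V.toSubring g k)) := by
    rw [← e]
    rfl
  rw [e', res_pull, nm_pull]
  rfl

end Pool.Agent.MP_f3836a_nt.VE.T
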