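import Pool.Agent.MP_f3836a_nt.VE.SpecW2
import Pool.Agent.MP_f3836a_nt.VE.TTame

/-! The divisor of a tame symbol at a point: formal rules and regular points. -/

set_option autoImplicit false

namespace Pool.Agent.MP_f3836a_nt.VE.W

open PK VE.T VE.T.TTame

namespace WKb

variable {K : Type} [Field K] {D : Subring K}

theorem Cop.symm {g u : D} (h : Cop D g u) : Cop D u g :=
  ⟨h.2.1, h.1, fun q a b c => h.2.2 q a c b⟩

theorem ne {a : D} (h : a ≠ 0) : (a : K) ≠ 0 := fun e => h (Subtype.ext e)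

theorem frac (h : Fr D) {f : K} (hf : f ≠ 0) : ∃ a b : D, a ≠ 0 ∧ b ≠ 0 ∧ f * b = a := by
  obtain ⟨a, b, hb, e⟩ := h f
  refine ⟨a, b, ?_, ?_, e⟩ <;> rintro rfl
  · exact mul_ne_zero hf hb e
  · exact hb rfl

theorem ind (hD : Loc2 D) (hP : Pri D) (P : D → Prop)
    (a : ∀ f, f ≠ 0 → (∀ q : Ideal D, q.IsPrime → f ∈ q → q.IsMaximal) → P f)
    (b : ∀ g, g ≠ 0 → (Ideal.span {g}).IsPrime → P g)
    (c : ∀ g f, g ≠ 0 → f ≠ 0 → P g → P f → P (g * f)) (f : D) : f ≠ 0 → P f := by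
  have := hD.noeth
  induction f using (wellFounded_dvdNotUnit (α := D)).induction with
  | _ f ih =>
  intro hf
  by_cases h : ∀ q : Ideal D, q.IsPrime → f ∈ q → q.IsMaximal
  · exact a f hf h
  push Not at h
  obtain ⟨q, h1, h2, h3⟩ := h
  obtain ⟨g, rfl⟩ := hP q h1 h3
  obtain ⟨f', rfl⟩ := Ideal.mem_span_singleton.1 h2
  obtain ⟨g0, f0⟩ := mul_ne_zero_iff.1 hf
  exact c g f' g0 f0 (b g g0 h1) (ih f' ⟨f0, g, fun u => h1.ne_top
    (Ideal.span_singleton_eq_top.2 u), mul_comm _ _⟩ f0)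

variable {I : Type} {O : I → Subring K} {κ : I → Type} [∀ C, Field (κ C)]
  {r : ∀ C, O C →+* κ C}

theorem out {C : I} (h : ¬D ≤ O C) (u : κ C) : od (O C) (r C) D u = 0 := if_neg h

variable (hO : OdS) (hD : Loc2 D) (hT : Thr D O r)
include hO hD hT

theorem loc {C : I} (h : D ≤ O C) : ∃ (q : Ideal D) (_ : q.IsPrime), ¬q.IsMaximal ∧
    O C = lc D q ∧ OdA D q (O C) (r C) := by
  obtain ⟨q, _, a, b, c⟩ := hT.cen C h
  exact ⟨q, ‹_›, b, c, hO K _ D _ q _ hD a b c (hT.dv C)⟩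

theorem odm (C : I) {u u' : κ C} (a : u ≠ 0) (b : u' ≠ 0) :
    od (O C) (r C) D (u * u') = od (O C) (r C) D u + od (O C) (r C) D u' := by
  by_cases h : D ≤ O C
  · obtain ⟨q, _, -, -, o⟩ := loc hO hD hT h
    exact o.mul u u' a b
  · simp [out h]

theorem od1 (C : I) : od (O C) (r C) D 1 = 0 := by
  have := odm hO hD hT C one_ne_zero one_ne_zero
  rw [mul_one] at this
  omega

theorem odz (C : I) {u : κ C} (a : u ≠ 0) (n : ℤ) :
    od (O C) (r C) D (u ^ n) = n * od (O C) (r C) D u := by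
  induction n using Int.induction_on with
  | zero => rw [zpow_zero, od1 hO hD hT, zero_mul]
  | succ n ih => rw [zpow_add_one₀ a, odm hO hD hT C (zpow_ne_zero _ a) a, ih]; ring
  | pred n ih =>
    have := odm hO hD hT C (zpow_ne_zero (-n - 1) a) a
    rw [← zpow_add_one₀ a, sub_add_cancel, ih] at this
    linarith

theorem fin0 {a : D} (h : a ≠ 0) : {C | D ≤ O C ∧ ordR (O C) (a : K) ≠ 0}.Finite := by
  have := hD.noeth
  refine (((((Ideal.span {a}).finite_minimalPrimes_of_isNoetherianRing D).preimage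
    (f := PrimeSpectrum.asIdeal) fun _ _ _ _ => PrimeSpectrum.ext).image
    fun q => lc D q.asIdeal).preimage hT.inj.injOn).subset fun C hC => ?_
  obtain ⟨q, _, m, e, o⟩ := loc hO hD hT hC.1
  refine ⟨⟨q, ‹_›⟩, ⟨⟨‹_›, (Ideal.span_singleton_le_iff_mem _).2 ?_⟩, fun q' h1 h2 => ?_⟩, e.symm⟩
  · exact not_not.1 fun n => hC.2 ((o.ord a h).2.2 n)
  · by_contra n
    refine m (hD.dim q' q h1.1 ‹_› ?_ (lt_of_le_not_ge h2 n))
    rintro rfl
    exact h (Ideal.span_singleton_eq_bot.1 (le_bot_iff.1 h1.2))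

theorem fin1 (f : K) : {C | D ≤ O C ∧ ordR (O C) f ≠ 0}.Finite := by
  by_cases hf : f = 0
  · simp [hf, ordR]
  obtain ⟨a, b, ha, hb, e⟩ := frac hD.frac hf
  refine ((fin0 hO hD hT ha).union (fin0 hO hD hT hb)).subset fun C hC => ?_
  have := EDVA.mul (hT.dv C) hf (ne hb)
  rw [e] at this
  have := hC.2
  simp only [Set.mem_union, Set.mem_ofPred_eq, hC.1, true_and]
  omega

theorem fin2 (f g : K) :
    Function.HasFiniteSupport fun C => od (O C) (r C) D (tameR (O C) (r C) f g) := by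
  refine ((fin1 hO hD hT f).union (fin1 hO hD hT g)).subset fun C hC => ?_
  by_contra n
  by_cases h : D ≤ O C
  · simp only [Set.mem_union, Set.mem_ofPred_eq, h, true_and, not_or, not_not] at n
    exact hC (by simp only [(rDVA _ _ _ _ (hT.dv C)).one f g n.1 n.2, od1 hO hD hT])
  · exact hC (out h _)

theorem term {g u : D} (h : Cop D g u) (C : I) : od (O C) (r C) D (tameR (O C) (r C) g u) =
    ordR (O C) (u : K) * od (O C) (r C) D (resR (O C) (r C) g) -
      ordR (O C) (g : K) * od (O C) (r C) D (resR (O C) (r C) u) := by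
  by_cases l : D ≤ O C
  · obtain ⟨q, _, m, -, o⟩ := loc hO hD hT l
    by_cases n : g ∈ q
    · have n' : u ∉ q := fun e => m (h.2.2 q ‹_› n e)
      have z := (o.ord u h.2.1).2.2 n'
      rw [tunit' (hT.dv C) _ (ne h.2.1) z, odz hO hD hT C (mt (o.zero u).1 n'), z]
      ring
    · have z := (o.ord g h.1).2.2 n
      rw [tunit (hT.dv C) _ (ne h.1) z, odz hO hD hT C (mt (o.zero g).1 n), z]
      ring
  · simp [out l]

theorem half (hA : FulA) {g u : D} (h : Cop D g u) : ∃ n : ℕ,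
    Module.length D (D ⧸ (Sat D g ⊔ Ideal.span {u})) = n ∧
    ∑ᶠ C, ordR (O C) (g : K) * od (O C) (r C) D (resR (O C) (r C) u) = n ∧
    Function.HasFiniteSupport
      fun C => ordR (O C) (g : K) * od (O C) (r C) D (resR (O C) (r C) u) := by
  have f := fin1 hO hD hT (g : K)
  have s : (Function.support fun C => ordR (O C) (g : K) *
      od (O C) (r C) D (resR (O C) (r C) u)) ⊆ f.toFinset := fun C hC => by
    obtain ⟨a, b⟩ := mul_ne_zero_iff.1 hC
    simpa using ⟨not_not.1 fun n => b (out n _), a⟩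
  refine ⟨_, hA K D I O κ r hD hT g u f.toFinset h fun C => f.mem_toFinset, ?_,
    f.toFinset.finite_toSet.subset s⟩
  rw [finsum_eq_sum_of_support_subset _ s, Nat.cast_sum]
  refine Finset.sum_congr rfl fun C hC => ?_
  obtain ⟨l, z⟩ := f.mem_toFinset.1 hC
  obtain ⟨q, _, m, -, o⟩ := loc hO hD hT l
  have n : u ∉ q := fun e => m (h.2.2 q ‹_› (not_not.1 fun n => z ((o.ord g h.1).2.2 n)) e)
  rw [Nat.cast_mul, Int.toNat_of_nonneg (o.ord g h.1).1, Int.toNat_of_nonneg (o.len u n).1]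

end WKb

open WKb

theorem wKb : OfKb := by
  intro _ hO K _ D I O κ _ r hD hT
  have ne := fun C => (rDVA _ _ _ _ (hT.dv C)).ne
  refine ⟨fin1 hO hD hT, fun f f' g a b c => ?_, fun f g a b => ?_, fun f a b => ?_⟩
  · rw [Kf, Kf, Kf, ← finsum_add_distrib (fin2 hO hD hT f g) (fin2 hO hD hT f' g)]
    exact finsum_congr fun C => by
      rw [tmul (hT.dv C) a b c, odm hO hD hT C (ne C _ _ a c) (ne C _ _ b c)]
  · rw [Kf, Kf, ← finsum_neg_distrib]
    refine finsum_congr fun C => eq_neg_of_add_eq_zero_left ?_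
    rw [← odm hO hD hT C (ne C _ _ a b) (ne C _ _ b a), EDVA.swap (hT.dv C) a b, od1 hO hD hT]
  · exact finsum_eq_zero_of_forall_eq_zero fun C => by rw [stein (hT.dv C) a b, od1 hO hD hT]

theorem wFul : OfFul := by
  intro hO _ hA hB K _ D I O κ _ r hD hT g u h
  obtain ⟨n, a1, a2, a3⟩ := half hO hD hT hA h
  obtain ⟨m, b1, b2, b3⟩ := half hO hD hT hA (Cop.symm h)
  have e : n = m := by exact_mod_cast a1.symm.trans ((hB K D g u hD h).trans b1)
  rw [Kf, finsum_congr (term hO hD hT h), finsum_sub_distrib b3 a3, a2, b2, e, sub_self]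

theorem wKeyU : OfKeyU := by
  intro hK hF K _ D I O κ _ r hD hT hP
  obtain ⟨-, mul, anti, -⟩ := hK K D I O κ r hD hT
  have cop := hF K D I O κ r hD hT
  have mul' : ∀ f g g', f ≠ 0 → g ≠ 0 → g' ≠ 0 →
      Kf D O r f (g * g') = Kf D O r f g + Kf D O r f g' := fun f g g' a b c => by
    rw [anti _ _ a (mul_ne_zero b c), mul _ _ _ b c a, anti _ _ a b, anti _ _ a c, neg_add]
  have key : ∀ f : D, f ≠ 0 → ∀ h : D, h ≠ 0 → Kf D O r f h = 0 := by
    refine ind hD hP _ (fun f a b h c => cop f h ⟨a, c, fun q x y _ => b q x y⟩)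
      (fun g a b => ind hD hP _ (fun h c d => cop g h ⟨a, c, fun q x _ y => d q x y⟩)
        (fun h c d => ?_) fun h h' c d x y => ?_) fun g f a b x y h c => ?_
    · by_cases e : Cop D g h
      · exact cop g h e
      simp only [Cop, ne_eq, a, c, not_false_eq_true, true_and, not_forall] at e
      obtain ⟨q, q1, q2, q3, q4⟩ := e
      have eq : ∀ t : D, t ≠ 0 → (Ideal.span {t}).IsPrime → t ∈ q → Ideal.span {t} = q :=
        fun t x y z => not_not.1 fun n => q4 (hD.dim _ q y q1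
          (mt Ideal.span_singleton_eq_bot.1 x)
          (lt_of_le_of_ne ((Ideal.span_singleton_le_iff_mem _).2 z) n))
      obtain ⟨w, rfl⟩ := Ideal.span_singleton_eq_span_singleton.1
        ((eq g a b q2).trans (eq h c d q3).symm)
      have := anti g g (ne a) (ne a)
      rw [Subring.coe_mul, mul' _ _ _ (ne a) (ne a) (ne w.ne_zero), cop g w ⟨a, w.ne_zero,
        fun q x _ y => absurd (q.eq_top_of_isUnit_mem y w.isUnit) x.ne_top⟩]
      omega
    · rw [Subring.coe_mul, mul' _ _ _ (ne a) (ne c) (ne d), x, y, add_zero]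
    · rw [Subring.coe_mul, mul _ _ _ (ne a) (ne b) (ne c), x h c, y h c, add_zero]
  have k2 : ∀ f : K, f ≠ 0 → ∀ h : D, h ≠ 0 → Kf D O r f h = 0 := fun f hf h c => by
    obtain ⟨a, b, ha, hb, e⟩ := frac hD.frac hf
    have := mul _ _ _ hf (ne hb) (ne c)
    rw [e, key a ha h c, key b hb h c] at this
    omega
  intro f g hf hg
  obtain ⟨a, b, ha, hb, e⟩ := frac hD.frac hg
  have := mul' _ _ _ hf hg (ne hb)
  rw [e, k2 f hf a ha, k2 f hf b hb] at this
  omega

end Pool.Agent.MP_f3836a_nt.VE.W
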