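import Pool.Agent.MP_f3836a_nt.VE.SpecW2

/-! Part W: localizations of a subring of a field. -/

set_option autoImplicit false

namespace Pool.Agent.MP_f3836a_nt.VE.W

open Polynomial IsLocalRing PK VE.A VE.T

namespace WLc

variable {K : Type} [Field K]

theorem unit_iff (S : Subring K) (a : S) : IsUnit a ↔ (a : K) ≠ 0 ∧ (a : K)⁻¹ ∈ S := by
  constructor
  · intro h
    obtain ⟨b, e⟩ := h.exists_right_inv
    have e' : (a : K) * b = 1 := congrArg Subtype.val e
    refine ⟨left_ne_zero_of_mul_eq_one e', ?_⟩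
    rw [inv_eq_of_mul_eq_one_right e']
    exact b.2
  · rintro ⟨h0, h⟩
    exact IsUnit.of_mul_eq_one (⟨_, h⟩ : S) (Subtype.ext (mul_inv_cancel₀ h0))

theorem unit (B : Subring K) (q : Ideal B) [q.IsPrime] (a : B) :
    IsUnit (Subring.inclusion (le_lc B q) a) ↔ a ∉ q :=
  IsLocalization.AtPrime.isUnit_to_map_iff (lc B q) q a

theorem inv (B : Subring K) (q : Ideal B) [q.IsPrime] (a : B) (h : a ≠ 0) :
    (a : K)⁻¹ ∈ lc B q ↔ a ∉ q := by
  rw [← unit B q a, unit_iff]
  exact ⟨fun h' => ⟨fun h0 => h (Subtype.ext h0), h'⟩, fun h' => h'.2⟩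

theorem rep (B : Subring K) (m : Ideal B) [m.IsPrime] (x : lc B m) :
    ∃ a s : B, s ∉ m ∧ x * Subring.inclusion (le_lc B m) s = Subring.inclusion (le_lc B m) a := by
  obtain ⟨a, s, hs, e⟩ := mem_lc.1 x.2
  exact ⟨a, s, hs, Subtype.ext e⟩

theorem mem_rep {B : Subring K} {m : Ideal B} [m.IsPrime] (q' : Ideal (lc B m)) {x : lc B m}
    {a s : B} (hs : s ∉ m)
    (e : x * Subring.inclusion (le_lc B m) s = Subring.inclusion (le_lc B m) a) :
    x ∈ q' ↔ Subring.inclusion (le_lc B m) a ∈ q' := by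
  rw [← e, Ideal.mul_unit_mem_iff_mem _ ((unit B m s).2 hs)]

theorem lk {B : Subring K} {m q : Ideal B} [m.IsPrime] [q.IsPrime] (q' : Ideal (lc B m))
    [hq' : q'.IsPrime] (h : ∀ a : B, a ∈ q ↔ Subring.inclusion (le_lc B m) a ∈ q') :
    Lk B m q q' := by
  have hle : q ≤ m := fun a ha => by
    by_contra hm
    exact hq'.ne_top (Ideal.eq_top_of_isUnit_mem _ ((h a).1 ha) ((unit B m a).2 hm))
  refine ⟨hle, ?_, ?_, ?_, h⟩
  · ext z
    rw [mem_lc, mem_lc]
    constructor
    · rintro ⟨a, b, hb, e⟩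
      obtain ⟨a1, s1, hs1, e1⟩ := rep B m a
      obtain ⟨b1, s2, hs2, e2⟩ := rep B m b
      have hb1 : b1 ∉ q := fun hh => hb ((mem_rep q' hs2 e2).2 ((h b1).1 hh))
      refine ⟨a1 * s2, b1 * s1, fun hh => ?_, ?_⟩
      · exact (‹q.IsPrime›.mem_or_mem hh).elim hb1 fun h1 => hs1 (hle h1)
      · have e1' : (a : K) * s1 = a1 := congrArg Subtype.val e1
        have e2' : (b : K) * s2 = b1 := congrArg Subtype.val e2
        push_cast
        rw [← e1', ← e2', ← e]
        ring
    · rintro ⟨a, b, hb, e⟩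
      exact ⟨Subring.inclusion (le_lc B m) a, Subring.inclusion (le_lc B m) b,
        fun hh => hb ((h b).2 hh), e⟩
  · constructor
    · rintro rfl
      refine eq_bot_iff.2 fun a ha => ?_
      have h1 : Subring.inclusion (le_lc B m) a = 0 := (h a).1 ha
      have h2 : (a : K) = 0 := congrArg Subtype.val h1
      exact Subtype.ext h2
    · rintro rfl
      refine eq_bot_iff.2 fun x hx => ?_
      obtain ⟨a, s, hs, e⟩ := rep B m x
      have ha : a = 0 := (h a).2 ((mem_rep q' hs e).1 hx)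
      rw [ha, map_zero] at e
      exact (mul_eq_zero.1 e).resolve_right ((unit B m s).2 hs).ne_zero
  · constructor
    · intro hm
      refine le_antisymm hle fun a ha => (h a).2 ?_
      rw [eq_maximalIdeal hm]
      exact fun hu => (unit B m a).1 hu ha
    · rintro rfl
      have : q' = maximalIdeal (lc B q) := by
        refine le_antisymm (le_maximalIdeal hq'.ne_top) fun x hx => ?_
        obtain ⟨a, s, hs, e⟩ := rep B q x
        refine (mem_rep q' hs e).2 ((h a).1 ?_)
        by_contra ha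
        have hu := (unit B q a).2 ha
        rw [← e] at hu
        exact hx (isUnit_of_mul_isUnit_left hu)
      rw [this]
      exact maximalIdeal.isMaximal _

theorem dn (B : Subring K) (m : Ideal B) [m.IsPrime] (q' : Ideal (lc B m)) [q'.IsPrime] :
    ∃ (q : Ideal B) (_ : q.IsPrime), Lk B m q q' :=
  ⟨q'.comap (Subring.inclusion (le_lc B m)), inferInstance, lk q' fun _ => Iff.rfl⟩

theorem up (B : Subring K) (m q : Ideal B) [m.IsPrime] [hq : q.IsPrime] (h : q ≤ m) :
    ∃ (q' : Ideal (lc B m)) (_ : q'.IsPrime), Lk B m q q' := by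
  have hd : Disjoint (m.primeCompl : Set B) (q : Set B) :=
    Set.disjoint_left.2 fun a ha hb => ha (h hb)
  have hp := IsLocalization.isPrime_of_isPrime_disjoint m.primeCompl (lc B m) q hq hd
  have hc := IsLocalization.under_map_of_isPrime_disjoint m.primeCompl (lc B m) hq hd
  refine ⟨_, hp, lk _ fun a => ?_⟩
  conv_lhs => rw [← hc]
  exact Iff.rfl

theorem noeth (B : Subring K) (q : Ideal B) [q.IsPrime] (h : IsNoetherianRing B) :
    IsNoetherianRing (lc B q) :=
  IsLocalization.isNoetherianRing q.primeCompl (lc B q) h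

theorem loc (B : Subring K) (hB : Dim2 B) (m : Ideal B) [hm : m.IsPrime] : Loc2 (lc B m) := by
  refine ⟨⟨noeth B m hB.noeth, fun z => ?_, fun q q' hq hq' h0 hlt => ?_, fun q _ h0 hq => ?_⟩,
    inferInstance⟩
  · obtain ⟨a, b, hb, e⟩ := hB.frac z
    exact ⟨Subring.inclusion (le_lc B m) a, Subring.inclusion (le_lc B m) b, hb, e⟩
  · obtain ⟨p, hp, k⟩ := dn B m q
    obtain ⟨p', hp', k'⟩ := dn B m q'
    have hl : p < p' := by
      refine lt_of_le_of_ne (fun a ha => (k'.mem a).2 (hlt.le ((k.mem a).1 ha))) ?_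
      rintro rfl
      refine hlt.not_ge fun x hx => ?_
      obtain ⟨a, s, hs, e⟩ := rep B m x
      exact (mem_rep q hs e).2 ((k.mem a).1 ((k'.mem a).2 ((mem_rep q' hs e).1 hx)))
    have hx := hB.dim p p' hp hp' (fun h => h0 (k.bot.2 h)) hl
    exact k'.max.2 (hx.eq_of_le hm.ne_top k'.le)
  · obtain ⟨p, hp, k⟩ := dn B m q
    have hd := hB.dvr p (fun h => h0 (k.bot.2 h))
      (fun hx => hq (k.max.2 (hx.eq_of_le hm.ne_top k.le)))
    have key : ∀ S S' : Subring K, S = S' → IsDiscreteValuationRing S' →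
        IsDiscreteValuationRing S := by
      rintro S _ rfl h
      exact h
    exact key _ _ k.eq hd

end WLc

theorem wLc : LcS := by
  intro K _ B
  refine ⟨WLc.dn B, WLc.up B, fun q q' _ _ => ⟨fun h a ha => ?_, fun h z hz => ?_⟩, WLc.unit B,
    WLc.inv B, WLc.noeth B, fun q _ hB => ⟨fun h => ?_, ?_⟩,
    fun q _ => (IsLocalization.AtPrime.map_eq_maximalIdeal q (lc B q)).symm, fun S _ h => ?_,
    fun hB m _ _ => WLc.loc B hB m⟩
  · by_contra hq
    have a0 : a ≠ 0 := fun h0 => hq (h0 ▸ q.zero_mem)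
    exact (WLc.inv B q' a a0).1 (h ((WLc.inv B q a a0).2 hq)) ha
  · obtain ⟨a, b, hb, e⟩ := mem_lc.1 hz
    exact mem_lc.2 ⟨a, b, fun hh => hb (h hh), e⟩
  · refine eq_bot_iff.2 fun a ha => ?_
    by_contra a0
    exact (WLc.inv B q a a0).1 (h ▸ Subring.mem_top _) ha
  · rintro rfl
    refine eq_top_iff.2 fun z _ => ?_
    obtain ⟨a, b, hb, e⟩ := hB z
    exact mem_lc.2 ⟨a, b, fun hh => hb (congrArg Subtype.val hh), e⟩
  · refine ⟨(maximalIdeal S).comap (Subring.inclusion h), inferInstance, fun z hz => ?_,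
      fun a => Iff.rfl⟩
    obtain ⟨a, b, hb, e⟩ := mem_lc.1 hz
    have hu : IsUnit (Subring.inclusion h b) := by
      by_contra hu
      exact hb hu
    obtain ⟨b0, hi⟩ := (WLc.unit_iff S _).1 hu
    have : z = (a : K) * (b : K)⁻¹ := (eq_mul_inv_iff_mul_eq₀ b0).2 e
    rw [this]
    exact S.mul_mem (h a.2) hi

end Pool.Agent.MP_f3836a_nt.VE.W
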