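import Pool.Agent.MP_f3836a_nt.VE.SpecW2
import Pool.Agent.MP_f3836a_nt.PK.EDVA

/-! Orders on a curve through a point. -/

set_option autoImplicit false

namespace Pool.Agent.MP_f3836a_nt.VE.W

open IsLocalRing PK

namespace WOd

theorem len {R S : Type} [CommRing R] [CommRing S] (f : R →+* S) (hf : Function.Surjective f)
    (b : R) : Module.length R (R ⧸ (RingHom.ker f ⊔ Ideal.span {b})) = Ring.ord S (f b) := by
  let _ : Algebra R S := f.toAlgebra
  have h1 : Module.length R (S ⧸ Ideal.span {f b}) = Module.length S (S ⧸ Ideal.span {f b}) :=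
    Module.length_eq_of_surjective hf
  let g : R →ₗ[R] S ⧸ Ideal.span {f b} := Algebra.linearMap R (S ⧸ Ideal.span {f b})
  have hs : Function.Surjective g := Ideal.Quotient.mk_surjective.comp hf
  have hker : LinearMap.ker g = RingHom.ker f ⊔ Ideal.span {b} := by
    rw [sup_comm, RingHom.ker_eq_comap_bot, ← Ideal.comap_map_of_surjective f hf, Ideal.map_span,
      Set.image_singleton]
    ext a
    exact Ideal.Quotient.eq_zero_iff_mem
  rw [Ring.ord, ← h1, ← hker]
  exact (g.quotKerEquivOfSurjective hs).length_eq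

variable {K κ : Type} [Field K] [Field κ] {D O : Subring K} (h : D ≤ O) (r : O →+* κ)

/-- restriction to the image -/
noncomputable def rl : D →+* im O r D :=
  (r.comp (Subring.inclusion h)).codRestrict (im O r D) fun a => ⟨Subring.inclusion h a, a.2, rfl⟩

theorem coe_rl (a : D) : resR O r a = rl h r a := EDVA.res_mem (h a.2)

theorem surj : Function.Surjective (rl h r) := by
  rintro ⟨_, a, ha, rfl⟩
  exact ⟨⟨a, ha⟩, rfl⟩

end WOd

open WOd in
theorem wOd : OfOd := by
  rintro hL K κ _ _ D O q _ r hD q0 q1 rfl hV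
  have h := le_lc D q
  have := hD.loc
  have := hD.noeth
  have hs := surj h r
  have := hs.isLocalHom
  have z : ∀ a : D, resR (lc D q) r a = 0 ↔ a ∈ q := fun a => by
    rw [EDVA.res_mem (h a.2), hV.ker]
    exact ((hL K D).unit q a).not.trans not_not
  have z' : ∀ a : D, rl h r a = 0 ↔ a ∈ q := fun a => by
    rw [← z, coe_rl h, ZeroMemClass.coe_eq_zero]
  have hk : RingHom.ker (rl h r) = q := Ideal.ext z'
  have fr : ∀ u, ∃ a b : D, b ∉ q ∧ u * resR (lc D q) r b = resR (lc D q) r a := fun u => by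
    obtain ⟨g, rfl⟩ := hV.surj u
    obtain ⟨a, b, hb, e⟩ := mem_lc.1 g.2
    exact ⟨a, b, hb, by rw [← e, EDVA.rmul g.2 (h b.2), EDVA.res_mem g.2]⟩
  have i1 : IsNoetherianRing (im _ r D) := isNoetherianRing_of_surjective _ _ _ hs
  have i2 : Ring.KrullDimLE 1 (im _ r D) := by
    refine Ring.krullDimLE_one_iff_of_noZeroDivisors.2 fun I I0 I1 => ?_
    have e := Ideal.map_comap_of_surjective _ hs I
    have := hD.dim q (I.comap (rl h r)) ‹_› inferInstance q0 (lt_of_le_of_ne
      (hk.ge.trans (Ideal.ker_le_comap (rl h r))) fun e' => I0 (by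
        rw [← e, ← e', Ideal.map_eq_bot_iff_le_ker, hk]))
    exact e ▸ (Ideal.map_eq_top_or_isMaximal_of_surjective _ hs this).resolve_left
      (e.symm ▸ I1.ne_top)
  have i3 : Fr (im _ r D) := fun u => by
    obtain ⟨a, b, hb, e⟩ := fr u
    exact ⟨rl h r a, rl h r b, coe_rl h r b ▸ (z b).not.2 hb, by rwa [← coe_rl, ← coe_rl]⟩
  obtain ⟨o1, o2, o3⟩ := rOrd κ _ i1 i2 i3
  refine ⟨fun u u' hu hu' => ?_, z, fun a ha => ?_, fun a ha => ?_, fun u hu => ?_, i1, i2, i3⟩
  · simp only [od, if_pos h, o1 u u' hu hu']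
  · have a0 : (a : K) ≠ 0 := fun e => ha (Subtype.ext e)
    have h0 := (EDVA.mem hV a0).1 (h a.2)
    have := (((hL K D).unit q a).not.symm.trans (EDVA.nu hV (Subring.inclusion h a) a0)).not
    rw [not_not, not_lt] at this
    exact ⟨h0, ⟨fun e => this.2 e.le, fun e => le_antisymm (this.1 e) h0⟩⟩
  · have a0 := (z' a).not.2 ha
    rw [od, if_pos h, coe_rl h, o3 _ a0, (o2 _ a0).2, Int.toNat_natCast,
      ENat.natCast_toNat (o2 _ a0).1, ← len _ hs, hk]
    exact ⟨Nat.cast_nonneg _, rfl, isUnit_map_iff _ a⟩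
  · obtain ⟨a, b, hb, e⟩ := fr u
    exact ⟨a, b, (z a).not.1 (e ▸ mul_ne_zero hu ((z b).not.2 hb)), hb, e⟩

end Pool.Agent.MP_f3836a_nt.VE.W
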