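import Pool.Agent.MP_f3836a_nt.VE.SpecW2
import Pool.Agent.MP_f3836a_nt.PK.BReg

/-! Part W2: regular points. -/

set_option autoImplicit false

namespace Pool.Agent.MP_f3836a_nt.VE.W

open Polynomial IsLocalRing PK VE.A VE.T

namespace WReg

variable {R : Type} [CommRing R] [IsLocalRing R] [IsNoetherianRing R] {p π : R}

omit [IsNoetherianRing R] in
theorem quot (hm : maximalIdeal R = Ideal.span {p, π}) (hp : (Ideal.span {p}).IsPrime) :
    ∃ _ : IsLocalRing (R ⧸ Ideal.span {p}),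
      maximalIdeal (R ⧸ Ideal.span {p}) = Ideal.span {Ideal.Quotient.mk _ π} := by
  have := Ideal.Quotient.nontrivial_iff.2 hp.ne_top
  have := IsLocalRing.of_surjective' (Ideal.Quotient.mk (Ideal.span {p}))
    Ideal.Quotient.mk_surjective
  refine ⟨this, ?_⟩
  rw [← map_maximalIdeal_of_surjective _ (Ideal.Quotient.mk_surjective (I := Ideal.span {p})), hm,
    Ideal.map_span, Set.image_pair,
    Ideal.Quotient.eq_zero_iff_mem.2 (Ideal.mem_span_singleton_self p), Ideal.span_insert_zero]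

theorem up (hm : maximalIdeal R = Ideal.span {p, π}) (hp : (Ideal.span {p}).IsPrime) (a : R)
    (ha : a ∉ Ideal.span {p}) : ∃ (k : ℕ) (w : R), IsUnit w ∧ a - w * π ^ k ∈ Ideal.span {p} := by
  obtain ⟨_, h⟩ := quot hm hp
  obtain ⟨k, c, hc, e⟩ := BReg.unit_pow h (mt Ideal.Quotient.eq_zero_iff_mem.1 ha)
  obtain ⟨w, rfl⟩ := Ideal.Quotient.mk_surjective c
  refine ⟨k, w, ?_, Ideal.Quotient.eq.1 (by rw [e, map_mul, map_pow])⟩
  by_contra hw
  have := Ideal.mem_map_of_mem (Ideal.Quotient.mk (Ideal.span {p})) ((mem_maximalIdeal w).2 hw)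
  rw [map_maximalIdeal_of_surjective _ Ideal.Quotient.mk_surjective] at this
  exact (mem_maximalIdeal _).1 this hc

theorem pri (hm : maximalIdeal R = Ideal.span {p, π}) (hp : (Ideal.span {p}).IsPrime)
    (q : Ideal R) (hq : q.IsPrime) (h1 : ¬q.IsMaximal) : ∃ g, q = Ideal.span {g} := by
  by_cases h : p ∈ q
  · have le := (Ideal.span_singleton_le_iff_mem q).2 h
    refine ⟨p, le_antisymm (fun a ha => by_contra fun hn => h1 ?_) le⟩
    obtain ⟨k, w, hw, e⟩ := up hm hp a hn
    have h2 : w * π ^ k ∈ q := by simpa using q.sub_mem ha (le e)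
    have h3 : π ∈ q := hq.mem_of_pow_mem k ((q.unit_mul_mem_iff_mem hw).1 h2)
    have h4 : maximalIdeal R ≤ q := hm.trans_le (Ideal.span_le.2 (by
      rintro x (rfl | rfl)
      exacts [h, h3]))
    rw [← (maximalIdeal.isMaximal R).eq_of_le hq.ne_top h4]
    exact maximalIdeal.isMaximal R
  · obtain ⟨_, hm'⟩ := quot hm hp
    have sj := Ideal.Quotient.mk_surjective (I := Ideal.span {p})
    have pr : (maximalIdeal (R ⧸ Ideal.span {p})).IsPrincipal := ⟨_, hm'⟩
    have pid : IsPrincipalIdealRing (R ⧸ Ideal.span {p}) :=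
      ((tfae_of_isNoetherianRing_of_isLocalRing_of_isDomain (R ⧸ Ideal.span {p})).out 4 0).1 pr
    obtain ⟨g, hg⟩ := (IsPrincipalIdealRing.principal
      (q.map (Ideal.Quotient.mk (Ideal.span {p})))).principal
    have hg : q.map (Ideal.Quotient.mk (Ideal.span {p})) = Ideal.span {g} := hg
    obtain ⟨g, hπ, rfl⟩ := (Ideal.mem_map_iff_of_surjective _ sj).1
      (hg ▸ Ideal.mem_span_singleton_self g)
    refine ⟨g, le_antisymm (Submodule.le_of_le_smul_of_le_jacobson_bot (IsNoetherian.noetherian q)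
      (maximalIdeal_le_jacobson _) fun x hx => ?_) ((Ideal.span_singleton_le_iff_mem q).2 hπ)⟩
    obtain ⟨c, hc⟩ := Ideal.mem_span_singleton'.1 (hg ▸ Ideal.mem_map_of_mem _ hx)
    obtain ⟨c, rfl⟩ := sj c
    rw [← map_mul, eq_comm, Ideal.Quotient.eq, Ideal.mem_span_singleton'] at hc
    obtain ⟨r, hr⟩ := hc
    have hr' : r ∈ q := (hq.mem_or_mem (hr ▸ q.sub_mem hx (q.mul_mem_left c hπ))).resolve_right h
    have : x = c * g + p * r := by rw [mul_comm p, hr]; ring
    rw [this]
    exact Submodule.add_mem_sup (Ideal.mem_span_singleton'.2 ⟨c, rfl⟩)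
      (Ideal.mul_mem_mul (hm ▸ Ideal.subset_span (Or.inl rfl)) hr')

end WReg

open WReg in
theorem wReg : OfReg := by
  intro hL K _ D _ p π hN hF _ hm hp _
  refine ⟨⟨⟨hN, hF, fun q q' hq hq' h0 hlt => by_contra fun hn => ?_, fun q hq h0 hn => ?_⟩,
    inferInstance⟩, pri hm hp, up hm hp⟩
  · obtain ⟨g', rfl⟩ := pri hm hp q' hq' hn
    obtain ⟨g, rfl⟩ := pri hm hp q hq fun k => hlt.ne (k.eq_of_le hq'.ne_top hlt.le)
    obtain ⟨c, hc⟩ := Ideal.mem_span_singleton'.1 (hlt.le (Ideal.mem_span_singleton_self g))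
    have hcg : c * g' ∈ Ideal.span {g} := by rw [hc]; exact Ideal.mem_span_singleton_self g
    obtain ⟨d, rfl⟩ := Ideal.mem_span_singleton'.1 ((hq.mem_or_mem hcg).resolve_right fun k =>
        hlt.not_ge ((Ideal.span_singleton_le_iff_mem _).2 k))
    have g0 : g ≠ 0 := fun k => h0 (by rw [k, Ideal.span_singleton_zero])
    refine hq'.ne_top ((Ideal.eq_top_iff_one _).2 (Ideal.mem_span_singleton'.2 ⟨d, ?_⟩))
    exact mul_left_cancel₀ g0 (by linear_combination hc)
  · obtain ⟨g, hg⟩ := pri hm hp q hq hn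
    have := (hL K D).noeth q hN
    have e : maximalIdeal (lc D q) = Ideal.span {Subring.inclusion (le_lc D q) g} := by
      rw [(hL K D).max q]
      simp only [hg, Ideal.map_span, Set.image_singleton]
    have nf : ¬IsField (lc D q) := fun hf => h0 (by
      rw [isField_iff_maximalIdeal_eq.1 hf, eq_comm, Ideal.span_singleton_eq_bot] at e
      rw [hg, Ideal.span_singleton_eq_bot]
      exact Subtype.ext (congrArg (fun z : lc D q => (z : K)) e))
    have pr : (maximalIdeal (lc D q)).IsPrincipal := ⟨_, e⟩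
    exact ((IsDiscreteValuationRing.TFAE (lc D q) nf).out 4 0).1 pr

end Pool.Agent.MP_f3836a_nt.VE.W
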