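import Pool.Agent.MP_f3836a_nt.VE.SpecW2
import Pool.Agent.MP_f3836a_nt.PK.BasicF

/-! Transport along an automorphism. -/

set_option autoImplicit false

namespace Pool.Agent.MP_f3836a_nt.VE.W

open Polynomial IsLocalRing PK VE.A VE.T

namespace WTr

variable {K : Type} [Field K]

/-- the restriction of an automorphism -/
def iso (σ : K ≃+* K) {O O' : Subring K} (h : ∀ z, z ∈ O ↔ σ z ∈ O') : O ≃+* O' where
  toFun z := ⟨σ z, (h z).1 z.2⟩
  invFun z := ⟨σ.symm z, (h _).2 (by simp)⟩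
  left_inv z := by simp
  right_inv z := by simp
  map_mul' a b := Subtype.ext (by simp)
  map_add' a b := Subtype.ext (by simp)

theorem h1 (σ : K ≃+* K) {D S : Subring K} (h : ∀ z, z ∈ D ↔ σ z ∈ D) (hS : H1 D S) :
    ∃ S', H1 D S' ∧ ∀ z, z ∈ S ↔ σ z ∈ S' := by
  obtain ⟨q, _, q0, q1, rfl⟩ := hS
  refine ⟨_, ⟨q.comap (iso σ h).symm, inferInstance, fun e => q0 ?_, fun e => q1 ?_, rfl⟩,
    fun z => ?_⟩
  · refine eq_bot_iff.2 fun a ha => ?_
    have : iso σ h a ∈ q.comap (iso σ h).symm := by simpa [Ideal.mem_comap] using ha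
    rw [e] at this
    simpa using this
  · have := Ideal.comap_isMaximal_of_equiv (iso σ h) (p := q.comap (iso σ h).symm)
    convert this
    ext a
    simp [Ideal.mem_comap]
  · rw [mem_lc, mem_lc]
    constructor
    · rintro ⟨a, b, hb, e⟩
      exact ⟨iso σ h a, iso σ h b, by simpa [Ideal.mem_comap] using hb,
        (map_mul σ z b).symm.trans (congrArg σ e)⟩
    · rintro ⟨a, b, hb, e⟩
      refine ⟨(iso σ h).symm a, (iso σ h).symm b, hb, ?_⟩
      have := congrArg σ.symm e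
      rwa [map_mul, σ.symm_apply_apply] at this

end WTr

open WTr

theorem wTr : TrS := by
  intro K κ κ' _ _ _ σ O O' r r' h h' hσ
  let e : κ →+* κ' := r.liftOfSurjective h.surj ⟨r'.comp (iso σ hσ), fun a ha =>
    (h'.ker _).2 fun u => (h.ker a).1 ha ((isUnit_map_iff (iso σ hσ) a).1 u)⟩
  have he : ∀ a, e (r a) = r' (iso σ hσ a) := RingHom.liftOfSurjective_comp_apply _ _ _
  have su : Function.Surjective e := fun y => by
    obtain ⟨a, rfl⟩ := h'.surj y
    exact ⟨r ((iso σ hσ).symm a), by rw [he, RingEquiv.apply_symm_apply]⟩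
  have re : ∀ z, e (resR O r z) = resR O' r' (σ z) := fun z => by
    unfold resR
    by_cases hz : z ∈ O
    · rw [dif_pos hz, dif_pos ((hσ z).1 hz), he]
      rfl
    · rw [dif_neg hz, dif_neg (mt (hσ z).2 hz), map_zero]
  have o : ∀ z, ordR O z = ordR O' (σ z) := fun z => by
    have := h.dvr
    have e : O' = O.map (σ : K →+* K) := by
      ext w
      obtain ⟨w, rfl⟩ := σ.surjective w
      simp [← hσ]
    subst e
    exact (ordR_map (σ : K →+* K) O inferInstance inferInstance h.frac z).symm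
  refine ⟨RingEquiv.ofBijective e ⟨e.injective, su⟩, re, o, fun f g => (re _).trans ?_⟩
  rw [tameR, tameE, tameE, ← o, ← o, map_div₀, map_mul, map_zpow₀, map_zpow₀, map_zpow₀, map_neg,
    map_one]

theorem wKs : OfKs := by
  classical
  intro _ hO hT K _ D I O κ _ r hD h σ hσ f g _ _
  have le : ∀ {S}, H1 D S → D ≤ S := by
    rintro _ ⟨q, _, -, -, rfl⟩
    exact le_lc D q
  have tr : ∀ σ : K ≃+* K, (∀ z, z ∈ D ↔ σ z ∈ D) → ∀ C, ∃ C', D ≤ O C →
      D ≤ O C' ∧ ∀ z, z ∈ O C ↔ σ z ∈ O C' := fun σ hσ C => by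
    by_cases c : D ≤ O C
    · obtain ⟨S, s1, s2⟩ := h1 σ hσ (h.cen C c)
      obtain ⟨C', rfl⟩ := h.ex S s1
      exact ⟨C', fun _ => ⟨le s1, s2⟩⟩
    · exact ⟨C, fun c' => absurd c' c⟩
  choose φ hφ using tr σ hσ
  have bj : Set.BijOn φ {C | D ≤ O C} {C | D ≤ O C} := by
    refine ⟨fun C c => (hφ C c).1, fun C c C' c' e => h.inj (Subring.ext fun z => ?_),
      fun C c => ?_⟩
    · rw [(hφ C c).2, (hφ C' c').2, e]
    · obtain ⟨C', hC⟩ := tr σ.symm (fun z => by rw [hσ (σ.symm z), σ.apply_symm_apply]) C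
      refine ⟨C', (hC c).1, h.inj (Subring.ext fun z => ?_)⟩
      rw [(hC c).2, (hφ C' (hC c).1).2, σ.apply_symm_apply]
  have s : ∀ f g, Kf D O r f g = ∑ᶠ C ∈ {C | D ≤ O C},
      ordR (im (O C) (r C) D) (tameR (O C) (r C) f g) := fun f g =>
    finsum_congr fun C => by rw [od, finsum_eq_if]; congr
  rw [s, s]
  refine (finsum_mem_eq_of_bijOn φ bj fun C c => ?_).symm
  obtain ⟨e, e1, -, e2⟩ := hT K _ _ σ _ _ _ _ (h.dv C) (h.dv (φ C)) (hφ C c).2
  obtain ⟨q, _, q0, q1, hq⟩ := h.cen C c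
  obtain ⟨i1, i2, i3⟩ := (hO K _ D _ q _ hD q0 q1 hq (h.dv C)).im
  have rs : ∀ C (a : O C), resR (O C) (r C) a = r C a := fun C a => dif_pos a.2
  have m : im (O (φ C)) (r (φ C)) D = (im (O C) (r C) D).map (e : κ C →+* κ (φ C)) := by
    ext w
    constructor
    · rintro ⟨a, ha, rfl⟩
      obtain ⟨a, rfl⟩ := (iso σ (hφ C c).2).surjective a
      exact ⟨r C a, ⟨a, (hσ a).2 ha, rfl⟩, by rw [← rs, ← rs]; exact e1 a⟩
    · rintro ⟨_, ⟨a, ha, rfl⟩, rfl⟩
      exact ⟨iso σ (hφ C c).2 a, (hσ a).1 ha, by rw [← rs, ← rs]; exact (e1 a).symm⟩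
  rw [← e2, m]
  exact (ordR_map (e : κ C →+* κ (φ C)) _ i1 i2 i3 _).symm

end Pool.Agent.MP_f3836a_nt.VE.W
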