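import Pool.Agent.MP_f3836a_nt.VE.SpecT

set_option autoImplicit false

/-! Functionals which vanish at infinity vanish. -/

namespace Pool.Agent.MP_f3836a_nt.VE.T

open Polynomial IsLocalRing PK VE.A

namespace TBr

section
variable {κ : Type} [Field κ] {v : κ → ℚ}

theorem a_one (h : Addv v) : v 1 = 0 := by
  have := h 1 1 one_ne_zero one_ne_zero
  rw [one_mul] at this
  linarith

theorem a_pow (h : Addv v) {f : κ} (hf : f ≠ 0) (n : ℕ) : v (f ^ n) = n * v f := by
  induction n with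
  | zero => simp [a_one h]
  | succ n ih => rw [pow_succ, h _ _ (pow_ne_zero n hf) hf, ih]; push_cast; ring

theorem a_inv (h : Addv v) {f : κ} (hf : f ≠ 0) : v f⁻¹ = -v f := by
  have := h f f⁻¹ hf (inv_ne_zero hf)
  rw [mul_inv_cancel₀ hf, a_one h] at this
  linarith

end

section
variable {R F : Type} [CommRing R] [Field F] [Algebra ℚ F] [Algebra R F] {x : R}

/-- the finite places -/
abbrev Io (F : Type) [Field F] [Algebra ℚ F] [Algebra R F] (x : R) : Type :=
  {P : Place F // algebraMap R F x ∈ P.V}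

/-- the centre -/
noncomputable def ctr (hF : PFin R F x) (v : Io F x) : Ideal R := (hF.ctr v.1 v.2).choose

theorem ctr_max (hF : PFin R F x) (v : Io F x) : (ctr hF v).IsMaximal :=
  (hF.ctr v.1 v.2).choose_spec.1

theorem ctr_ct (hF : PFin R F x) (v : Io F x) : v.1.Ct (ctr hF v) :=
  (hF.ctr v.1 v.2).choose_spec.2

open Classical in
/-- the system -/
noncomputable def sy (hF : PFin R F x) (lam : ∀ P : Place F, ResidueField P.V → ℚ) :
    Sy R (Io F x) where
  P := ctr hF
  ord v g := (v.1.ord (algebraMap R F g)).toNat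
  lam v u := if u ∈ ctr hF v then 0 else (lam v.1 (v.1.res (algebraMap R F u)) : ℝ)

theorem res_zero (hT : RTameA) (hF : PFin R F x) (v : Io F x) (u : R) :
    v.1.res (algebraMap R F u) = 0 ↔ u ∈ ctr hF v :=
  ((hT F v.1 (hF.dvr v.1 v.2)).zero _ (ctr_ct hF v u).1).trans (ctr_ct hF v u).2.symm

theorem lam_in (hF : PFin R F x) (lam : ∀ P : Place F, ResidueField P.V → ℚ) {v : Io F x} {u : R}
    (h : u ∈ ctr hF v) : (sy hF lam).lam v u = 0 := if_pos h

theorem lam_out (hF : PFin R F x) (lam : ∀ P : Place F, ResidueField P.V → ℚ) {v : Io F x} {u : R}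
    (h : u ∉ ctr hF v) :
    (sy hF lam).lam v u = (lam v.1 (v.1.res (algebraMap R F u)) : ℝ) := if_neg h

theorem lam_all (hT : RTameA) (hF : PFin R F x) (lam : ∀ P : Place F, ResidueField P.V → ℚ)
    (v : Io F x) (h : ∀ r, (sy hF lam).lam v r = 0) (a : ResidueField v.1.V) (ha : a ≠ 0) :
    lam v.1 a = 0 := by
  obtain ⟨r, rfl⟩ := hF.res v.1 v.2 a
  have h1 := h r
  rw [lam_out hF lam (fun e => ha ((res_zero hT hF v r).2 e))] at h1
  exact_mod_cast h1

variable [IsFractionRing R F]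

theorem ne0 {g : R} (hg : g ≠ 0) : algebraMap R F g ≠ 0 := fun e =>
  hg (IsFractionRing.injective R F (by rw [e, map_zero]))

theorem ord_nonneg (hF : PFin R F x) (v : Io F x) {g : R} (hg : g ≠ 0) :
    0 ≤ v.1.ord (algebraMap R F g) :=
  ((v.1.dva (hF.dvr v.1 v.2)).mem _ (ne0 hg)).1 (ctr_ct hF v g).1

theorem ord_pos (hT : RTameA) (hF : PFin R F x) (v : Io F x) {g : R} (hg : g ≠ 0) :
    g ∈ ctr hF v ↔ 0 < v.1.ord (algebraMap R F g) :=
  (ctr_ct hF v g).2.trans ((hT F v.1 (hF.dvr v.1 v.2)).pos _ (ne0 hg))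

theorem ord_zero (hT : RTameA) (hF : PFin R F x) (v : Io F x) {g : R} (hg : g ≠ 0)
    (h : g ∉ ctr hF v) : v.1.ord (algebraMap R F g) = 0 :=
  le_antisymm (not_lt.1 fun e => h ((ord_pos hT hF v hg).2 e)) (ord_nonneg hF v hg)

theorem fin_ctr (hF : PFin R F x) (g : R) (hg : g ≠ 0) : {v : Io F x | g ∈ ctr hF v}.Finite := by
  refine Set.Finite.of_finite_image (f := Subtype.val) ((hF.fin g hg).subset ?_)
    Subtype.val_injective.injOn
  rintro _ ⟨v, hv, rfl⟩
  exact ⟨v.2, (ctr_ct hF v g).2.1 hv⟩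

theorem term (hT : RTameA) (hF : PFin R F x) (lam : ∀ P : Place F, ResidueField P.V → ℚ)
    (hA : ∀ P, Addv (lam P)) {g u : R} (hg : g ≠ 0) (hu : u ≠ 0) (v : Io F x)
    (H : g ∈ ctr hF v → u ∈ ctr hF v → ∀ r, (sy hF lam).lam v r = 0) :
    (lam v.1 (v.1.tame (algebraMap R F g) (algebraMap R F u)) : ℝ) =
      ((sy hF lam).ord v u : ℝ) * (sy hF lam).lam v g -
        ((sy hF lam).ord v g : ℝ) * (sy hF lam).lam v u := by
  have TA := hT F v.1 (hF.dvr v.1 v.2)
  have og : (sy hF lam).ord v g = (v.1.ord (algebraMap R F g)).toNat := rfl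
  have ou : (sy hF lam).ord v u = (v.1.ord (algebraMap R F u)).toNat := rfl
  by_cases h1 : g ∈ ctr hF v
  · by_cases h2 : u ∈ ctr hF v
    · have t0 : v.1.tame (algebraMap R F g) (algebraMap R F u) ≠ 0 :=
        (v.1.dva (hF.dvr v.1 v.2)).ne _ _ (ne0 hg) (ne0 hu)
      rw [lam_in hF lam h1, lam_in hF lam h2, lam_all hT hF lam v (H h1 h2) _ t0]
      simp
    · have e := ord_zero hT hF v hu h2
      have r0 : v.1.res (algebraMap R F u) ≠ 0 := fun e => h2 ((res_zero hT hF v u).1 e)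
      obtain ⟨n, hn⟩ := Int.eq_ofNat_of_zero_le (ord_nonneg hF v hg)
      rw [TA.unit' _ _ (ne0 hu) e, ou, og, e, hn, lam_out hF lam h2, zpow_neg, zpow_natCast,
        a_inv (hA _) (pow_ne_zero n r0), a_pow (hA _) r0]
      simp
  · have e := ord_zero hT hF v hg h1
    have r0 : v.1.res (algebraMap R F g) ≠ 0 := fun e => h1 ((res_zero hT hF v g).1 e)
    obtain ⟨n, hn⟩ := Int.eq_ofNat_of_zero_le (ord_nonneg hF v hu)
    rw [TA.unit _ _ (ne0 hg) e, ou, og, e, hn, lam_out hF lam h1, zpow_natCast,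
      a_pow (hA _) r0]
    simp

theorem ord0 (hT : RTameA) (hF : PFin R F x) (lam : ∀ P : Place F, ResidueField P.V → ℚ)
    (v : Io F x) (g : R) (hg : g ≠ 0) : (sy hF lam).ord v g = 0 ↔ g ∉ ctr hF v := by
  change (v.1.ord (algebraMap R F g)).toNat = 0 ↔ _
  rw [Int.toNat_eq_zero, ord_pos hT hF v hg, not_lt]

theorem ok (hT : RTameA) (hF : PFin R F x) (lam : ∀ P : Place F, ResidueField P.V → ℚ)
    (hA : ∀ P, Addv (lam P))
    (hS : ∀ g h : F, g ≠ 0 → h ≠ 0 → ∑ᶠ P, lam P (P.tame g h) = 0)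
    (hO : ∀ (P : Place F) (g h : F), g ≠ 0 → h ≠ 0 → algebraMap R F x ∉ P.V →
      lam P (P.tame g h) = 0) : (sy hF lam).Ok where
  max := ctr_max hF
  inj v w e := Subtype.ext (hF.inj _ _ _ (ctr_ct hF v) (by
    have e' : ctr hF v = ctr hF w := e
    rw [e']; exact ctr_ct hF w))
  sur M hM := by
    obtain ⟨P, hP⟩ := hF.sur M hM
    refine ⟨⟨P, (hP x).1⟩, ?_⟩
    ext r
    exact (ctr_ct hF ⟨P, (hP x).1⟩ r).2.trans (hP r).2.symm
  fin := fin_ctr hF
  ord0 := ord0 hT hF lam
  lam0 v u h := lam_in hF lam h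
  lamm v u u' h h' := by
    have h2 : u * u' ∉ ctr hF v := fun e => ((ctr_max hF v).isPrime.mem_or_mem e).elim h h'
    have e : v.1.res (algebraMap R F u * algebraMap R F u') =
        v.1.res (algebraMap R F u) * v.1.res (algebraMap R F u') :=
      (v.1.dva (hF.dvr v.1 v.2)).rmul _ _ (ctr_ct hF v u).1 (ctr_ct hF v u').1
    rw [lam_out hF lam h, lam_out hF lam h', lam_out hF lam h2, map_mul, e,
      hA _ _ _ (fun e => h ((res_zero hT hF v u).1 e)) (fun e => h' ((res_zero hT hF v u').1 e))]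
    push_cast; rfl
  lamc v u u' h := by
    have h0 : u - u' ∈ ctr hF v := h
    by_cases h1 : u' ∈ ctr hF v
    · have h2 : u ∈ ctr hF v := by simpa using add_mem h0 h1
      rw [lam_in hF lam h1, lam_in hF lam h2]
    · have h2 : u ∉ ctr hF v := fun e => h1 (by simpa using sub_mem e h0)
      have e : algebraMap R F u = algebraMap R F u' + algebraMap R F (u - u') := by
        rw [← map_add]; congr 1; ring
      rw [lam_out hF lam h1, lam_out hF lam h2, e,
        (hT F v.1 (hF.dvr v.1 v.2)).add _ _ (ctr_ct hF v u').1 (ctr_ct hF v _).1,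
        (res_zero hT hF v _).2 h0, add_zero]
  sym g u hg hu H := by
    classical
    have h1 := hS _ _ (ne0 (F := F) hg) (ne0 (F := F) hu)
    have h2 : ∑ᶠ v : Io F x, lam v.1 (v.1.tame (algebraMap R F g) (algebraMap R F u)) = 0 := by
      refine (finsum_subtype_eq_finsum_cond
        (f := fun P : Place F => lam P (P.tame (algebraMap R F g) (algebraMap R F u)))
        (fun P : Place F => algebraMap R F x ∈ P.V)).trans (Eq.trans ?_ h1)
      refine finsum_congr fun P => ?_
      rw [finsum_eq_if]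
      split_ifs with hP
      · rfl
      · exact (hO P _ _ (ne0 hg) (ne0 hu) hP).symm
    set s : Finset (Io F x) := (fin_ctr hF g hg).toFinset ∪ (fin_ctr hF u hu).toFinset with hs
    have hn : ∀ v, v ∉ s → g ∉ ctr hF v ∧ u ∉ ctr hF v := fun v hv => by
      simpa [hs, not_or] using hv
    have e1 : (sy hF lam).L g u = ∑ v ∈ s, ((sy hF lam).ord v g : ℝ) * (sy hF lam).lam v u :=
      finsum_eq_sum_of_support_subset _ fun v hv => by
        by_contra hc
        exact hv (by simp [(ord0 hT hF lam v g hg).2 (hn v hc).1])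
    have e2 : (sy hF lam).L u g = ∑ v ∈ s, ((sy hF lam).ord v u : ℝ) * (sy hF lam).lam v g :=
      finsum_eq_sum_of_support_subset _ fun v hv => by
        by_contra hc
        exact hv (by simp [(ord0 hT hF lam v u hu).2 (hn v hc).2])
    rw [finsum_eq_sum_of_support_subset (s := s) _ fun v hv => by
      by_contra hc
      have := term hT hF lam hA hg hu v (H v)
      rw [(ord0 hT hF lam v g hg).2 (hn v hc).1, (ord0 hT hF lam v u hu).2 (hn v hc).2] at this
      exact hv (by simpa using this)] at h2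
    have h3 : ∑ v ∈ s, (lam v.1 (v.1.tame (algebraMap R F g) (algebraMap R F u)) : ℝ) = 0 := by
      exact_mod_cast h2
    rw [Finset.sum_congr rfl fun v _ => term hT hF lam hA hg hu v (H v),
      Finset.sum_sub_distrib] at h3
    rw [e1, e2]; linarith

end

end TBr

theorem rBr : VE.A.Fibres → RGen → RTameA → RBr := by
  intro hFib hGen hT R F _ _ _ _ _ _ _ x y f O hM hF hI _ lam hA hS hO P a ha
  have hok := TBr.ok hT hF lam hA hS fun Q g h hg hh hQ => by
    obtain rfl := (hI.uniq Q).1 hQ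
    exact hO _ ((Place.dva _ hI.dvr).ne _ _ hg hh)
  have h0 := hGen R _ x y f _ hM hok (hFib x y f _ hM hok)
  by_cases hP : algebraMap R F x ∈ P.V
  · exact TBr.lam_all hT hF lam ⟨P, hP⟩ (h0 _) a ha
  · obtain rfl := (hI.uniq P).1 hP
    exact hO a ha

end Pool.Agent.MP_f3836a_nt.VE.T
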