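import Pool.Agent.MP_f3836a_nt.VE.SpecW2
import Pool.Agent.MP_f3836a_nt.VE.TBr
import Pool.Agent.MP_f3836a_nt.VE.TTame

set_option autoImplicit false

/-! A twisted system from functionals on the places. -/

namespace Pool.Agent.MP_f3836a_nt.VE.W

open Polynomial IsLocalRing PK VE.A VE.T VE.T.TBr

namespace WTwi

variable {R F : Type} [CommRing R] [IsDomain R] [Field F] [Algebra ℚ F] [Algebra R F]
  [IsFractionRing R F] {x : R}

theorem ok0 (hF : PFin R F x) (lam : ∀ P : Place F, ResidueField P.V → ℚ)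
    (hA : ∀ P, Addv (lam P)) : Ok0 (sy hF lam) where
  max := ctr_max hF
  sur M hM := by
    obtain ⟨P, hP⟩ := hF.sur M hM
    refine ⟨⟨P, (hP x).1⟩, ?_⟩
    ext r
    exact (ctr_ct hF ⟨P, (hP x).1⟩ r).2.trans (hP r).2.symm
  fin := fin_ctr hF
  ord0 := ord0 rTameA hF lam
  ordu v c g hc hg := by
    have hc' : c ∉ ctr hF v := fun e =>
      (ctr_max hF v).ne_top (Ideal.eq_top_of_isUnit_mem _ e hc)
    have e : v.1.ord (algebraMap R F c * algebraMap R F g) =
        v.1.ord (algebraMap R F c) + v.1.ord (algebraMap R F g) :=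
      (v.1.dva (hF.dvr v.1 v.2)).mul _ _ (ne0 hc.ne_zero) (ne0 hg)
    change (v.1.ord (algebraMap R F (c * g))).toNat = (v.1.ord (algebraMap R F g)).toNat
    rw [map_mul, e, ord_zero rTameA hF v hc.ne_zero hc', zero_add]
  lam0 v u h := lam_in hF lam h
  lamm v u u' h h' := by
    have h2 : u * u' ∉ ctr hF v := fun e => ((ctr_max hF v).isPrime.mem_or_mem e).elim h h'
    have e : v.1.res (algebraMap R F u * algebraMap R F u') =
        v.1.res (algebraMap R F u) * v.1.res (algebraMap R F u') :=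
      (v.1.dva (hF.dvr v.1 v.2)).rmul _ _ (ctr_ct hF v u).1 (ctr_ct hF v u').1
    rw [lam_out hF lam h, lam_out hF lam h', lam_out hF lam h2, map_mul, e,
      hA _ _ _ (fun e => h ((res_zero rTameA hF v u).1 e))
        (fun e => h' ((res_zero rTameA hF v u').1 e))]
    push_cast; rfl
  lamc v u u' h := by
    have h0 : u - u' ∈ ctr hF v := h
    by_cases h1 : u' ∈ ctr hF v
    · have h2 : u ∈ ctr hF v := by simpa using add_mem h0 h1
      rw [lam_in hF lam h1, lam_in hF lam h2]
    · have h2 : u ∉ ctr hF v := fun e => h1 (by simpa using sub_mem e h0)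
      have e : algebraMap R F u = algebraMap R F u' + algebraMap R F (u - u') := by
        rw [← map_add]; congr 1; ring
      rw [lam_out hF lam h1, lam_out hF lam h2, e,
        (rTameA F v.1 (hF.dvr v.1 v.2)).add _ _ (ctr_ct hF v u').1 (ctr_ct hF v _).1,
        (res_zero rTameA hF v _).2 h0, add_zero]

end WTwi

theorem wTwi : TwiS := by
  intro R F _ _ _ _ _ _ _ x lam E hF hA hO hS
  classical
  have hok := WTwi.ok0 hF lam hA
  refine ⟨_, sy hF lam, hok, fun g u hg hu hc => ?_⟩
  have H : ∀ v, g ∈ ctr hF v → u ∈ ctr hF v → ∀ r, (sy hF lam).lam v r = 0 :=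
    fun v h1 h2 => absurd h2 (hok.cop hc v h1)
  have h1 := hS _ _ (ne0 (F := F) hg) (ne0 (F := F) hu)
  have h2 : ∑ᶠ v : Io F x, lam v.1 (v.1.tame (algebraMap R F g) (algebraMap R F u)) =
      ∑ᶠ P : Place F, lam P (P.tame (algebraMap R F g) (algebraMap R F u)) := by
    refine (finsum_subtype_eq_finsum_cond
      (f := fun P : Place F => lam P (P.tame (algebraMap R F g) (algebraMap R F u)))
      (fun P : Place F => algebraMap R F x ∈ P.V)).trans ?_
    refine finsum_congr fun P => ?_
    rw [finsum_eq_if]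
    split_ifs with hP
    · rfl
    · exact (hO P _ _ (ne0 hg) (ne0 hu) hP).symm
  set s : Finset (Io F x) := (fin_ctr hF g hg).toFinset ∪ (fin_ctr hF u hu).toFinset with hs
  have hn : ∀ v, v ∉ s → g ∉ ctr hF v ∧ u ∉ ctr hF v := fun v hv => by
    simpa [hs, not_or] using hv
  have e1 : (sy hF lam).L g u = ∑ v ∈ s, ((sy hF lam).ord v g : ℝ) * (sy hF lam).lam v u :=
    finsum_eq_sum_of_support_subset _ fun v hv => by
      by_contra hc
      exact hv (by simp [(ord0 rTameA hF lam v g hg).2 (hn v hc).1])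
  have e2 : (sy hF lam).L u g = ∑ v ∈ s, ((sy hF lam).ord v u : ℝ) * (sy hF lam).lam v g :=
    finsum_eq_sum_of_support_subset _ fun v hv => by
      by_contra hc
      exact hv (by simp [(ord0 rTameA hF lam v u hu).2 (hn v hc).2])
  rw [finsum_eq_sum_of_support_subset (s := s) _ fun v hv => by
    by_contra hc
    have := term rTameA hF lam hA hg hu v (H v)
    rw [(ord0 rTameA hF lam v g hg).2 (hn v hc).1,
      (ord0 rTameA hF lam v u hu).2 (hn v hc).2] at this
    exact hv (by simpa using this)] at h2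
  rw [← h2, Rat.cast_sum, Finset.sum_congr rfl fun v _ => term rTameA hF lam hA hg hu v (H v),
    Finset.sum_sub_distrib] at h1
  rw [e1, e2]; linarith

end Pool.Agent.MP_f3836a_nt.VE.W
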