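import Pool.Agent.MP_f3836a_nt.VE.WCob
import Pool.Agent.MP_f3836a_nt.VE.WFinC
import Pool.Agent.MP_f3836a_nt.VE.WFulA
import Pool.Agent.MP_f3836a_nt.VE.WFulB
import Pool.Agent.MP_f3836a_nt.VE.WKb
import Pool.Agent.MP_f3836a_nt.VE.WLc
import Pool.Agent.MP_f3836a_nt.VE.WOd
import Pool.Agent.MP_f3836a_nt.VE.WReg
import Pool.Agent.MP_f3836a_nt.VE.WTr
import Pool.Agent.MP_f3836a_nt.VE.WTwi

/-! Part W2: assembly. -/

set_option autoImplicit false

namespace Pool.Agent.MP_f3836a_nt.VE.W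

theorem odS : OdS := wOd wLc
theorem regS : RegS := wReg wLc
theorem kbS : KbS := wKb wLc odS
theorem fulS : FulS := wFul odS kbS (wFulA wLc odS) (wFulB wLc)
theorem keyU : KeyU := wKeyU kbS fulS
theorem ksS : KsS := wKs wLc odS wTr
theorem finC : FinC := wFinC wLc odS

end Pool.Agent.MP_f3836a_nt.VE.W
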