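import Pool.Agent.MP_f3836a_nt.VE.SpecZ3

/-! The global argument. -/

set_option autoImplicit false

namespace Pool.Agent.MP_f3836a_nt.VE.Z

open Polynomial IsLocalRing PK VE.A VE.T VE.W

namespace ZAllT

variable {K : Type} [Field K] {V : Subring K}

theorem exists_nu (h : ¬Ho V) : ∃ p : ℕ, p.Prime ∧ Nu V p := by
  by_contra c
  have : ∀ n : ℕ, n ≠ 0 → Ut V n := fun n => by
    induction n using Nat.recOnMul with
    | zero => exact fun e => (e rfl).elim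
    | one => exact fun _ => Nat.cast_one (R := K) ▸ ut_one
    | prime p hp => exact fun _ => (nu_or (natCast_mem V p)).resolve_left fun e => c ⟨p, hp, e⟩
    | mul a b ha hb =>
      exact fun e => Nat.cast_mul (α := K) a b ▸
        (ha (left_ne_zero_of_mul e)).mul (hb (right_ne_zero_of_mul e))
  exact h fun n hn => (this n hn).2.2

theorem sq_one {q : ℚ} (h1 : ∀ p : ℕ, p.Prime → ¬(p : ℤ) ∣ q.num)
    (h2 : ∀ p : ℕ, p.Prime → ¬(p : ℤ) ∣ q.den) : q ^ 2 = 1 := by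
  have e1 : q.num.natAbs = 1 := by_contra fun c => (Nat.exists_prime_and_dvd c).elim fun p h =>
    h1 p h.1 (Int.natCast_dvd.2 h.2)
  have e2 : q.den = 1 := by_contra fun c => (Nat.exists_prime_and_dvd c).elim fun p h =>
    h2 p h.1 (Int.natCast_dvd_natCast.2 h.2)
  rw [← q.num_div_den, e2]
  rcases Int.natAbs_eq_iff.1 e1 with e | e <;> simp [e]

end ZAllT

open ZAllT in
theorem zAllT : OfAllT := by
  intro hL hR hM hC hD hCo hG hV hP hK W₀ K _ _ x₀ y₀ h1 h2 ι _ ξ ψ hψ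
  obtain ⟨W, x, y, w1, w2, w3⟩ := hG W₀ K x₀ y₀ h1 h2
  have ch := hC W K x y w1 w2
  have ex : ∀ p : Nat.Primes, ∃ G : Subring K, Ver x y p G ∧ Dvr G ∧ Nu G (p : ℕ) := fun p => by
    obtain ⟨a, b, c⟩ := ch.pr p p.2
    refine ⟨lc _ (Ideal.span {((p : ℕ) : A1 x y)}), ⟨p.2, _, a, rfl, rfl⟩,
      ⟨ch.dim2.dvr _ (by simpa using c) b, fun z => ?_⟩, ?_⟩
    · obtain ⟨u, v, v0, e⟩ := ch.frac z
      exact ⟨⟨u, le_lc _ _ u.2⟩, ⟨v, le_lc _ _ v.2⟩, v0, e⟩
    · exact (nu_iff (Subring.inclusion (le_lc _ _) ((p : ℕ) : A1 x y))).2 fun u =>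
        ((hL K _).unit _ _).1 u (Ideal.mem_span_singleton_self _)
  choose G g1 g2 g3 using ex
  have loc := fun p => (hD K _ (g2 p)).loc
  have dv : ∀ p, DV (G p) (residue (G p)) := fun p => (hD K _ (g2 p)).dv
  choose d d1 d2 using fun p : Nat.Primes =>
    hV W K x y w1 w2 ch p (G p) _ (residue (G p)) (g1 p) (dv p)
  obtain ⟨n, n0, l, nz, t1, t2⟩ := hP W K x y w1 w2 ch G _ (fun p => residue (G p))
    (fun p => ⟨g1 p, dv p⟩) d ψ d1 hψ.us hψ.fin
  have co := (hCo K ι ξ ψ hψ).2 n l nz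
  have rz := (hCo K ι ξ _ co).1
  refine ⟨n, n0, l, nz, ?_⟩
  set φ := fun V => ψ V ^ n * bdE l V with hφ
  have hz : HzK x φ := fun V a b c => (t1 V a b c).tor
  have sy : ∀ (p : ℕ) G', Ver x y p G' → SymZ x p G' (φ G') := fun p G' h => by
    obtain ⟨hp, _, _, rfl, e'⟩ := h
    obtain ⟨-, _, _, rfl, e⟩ := g1 ⟨p, hp⟩
    rw [e'.trans e.symm]
    exact d2 ⟨p, hp⟩ φ rz hz (t2 _)
  obtain ⟨m1, m2⟩ := hM W K x y w1 w2
  obtain ⟨O, -, o, -⟩ := hR (Rq x y) K (xq x y) _ _ m1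
  have d0 := O.dv o.dvr
  have v0 : Dvr O.V.toSubring := ⟨d0.dvr, d0.frac⟩
  have a0 := hD K _ v0
  have := a0.loc
  have ho : Ho O.V.toSubring := fun n _ => by simpa using O.const (n : ℚ)⁻¹
  have x0 : x ∉ O.V.toSubring := (o.uniq O).2 rfl
  have lk := fun V p => hK W K x y w1 w2 ch w3 ι ξ φ _ V p co hz (sy p) v0 ho x0
  have t0 : Tor O.V.toSubring (φ O.V.toSubring) := by
    have u := co.us _ v0
    obtain ⟨q, hq⟩ := o.rat (O.res (φ O.V.toSubring))
    have e := (a0.res _ _ d0 _ u.2.1 _ (O.const q)).1 (hq.symm.trans (O.res_const q).symm)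
    have q0 : q.num ≠ 0 := fun c => Nu.not (by simpa [Rat.num_eq_zero.1 c] using e) u
    have cp : ∀ p : ℕ, p.Prime → (p : ℤ) ∣ q.num → ¬(p : ℤ) ∣ q.den := fun p hp a b =>
      hp.one_lt.ne' (Nat.eq_one_of_dvd_coprimes q.reduced (Int.natCast_dvd.1 a)
        (Int.natCast_dvd_natCast.1 b))
    have eq : algebraMap ℚ K q = (q.num : K) / ((q.den : ℤ) : K) := by simp [Rat.cast_def]
    have s := sq_one (q := q) (fun p hp a => one_ne_zero ((lk _ p (g2 ⟨p, hp⟩) hp (g3 _)).1 _ _ 1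
      q0 a (cp p hp a) (by rwa [zpow_one, ← eq]))) fun p hp a =>
      absurd ((lk _ p (g2 ⟨p, hp⟩) hp (g3 _)).1 _ q.num (-1) (by simp) a (fun b => cp p hp b a)
        (by rwa [zpow_neg_one, inv_div, ← eq])) (by decide)
    exact Tor.congr u.2.1 (O.const q) e
      ⟨2, two_pos, by rw [← map_pow, s, map_one, sub_self]; exact nu_zero⟩
  intro V v
  by_cases c : Ho V
  · by_cases c' : x ∈ V
    · exact hz V v c c'
    · have a := hD K V v
      have := (o.uniq ⟨⟨V, a.val⟩, fun e => a.ne (congrArg (·.toSubring) e), fun q => by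
        rw [eq_ratCast, Rat.cast_def, div_eq_mul_inv]
        exact V.mul_mem (intCast_mem V _) (c _ q.den_nz)⟩).1 c'
      subst this
      exact t0
  · obtain ⟨p, hp, np⟩ := exists_nu c
    exact (lk V p v hp np).2 t0

end Pool.Agent.MP_f3836a_nt.VE.Z

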