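import Pool.Agent.MP_f3836a_nt.VE.SpecZ1

/-! Cycles at a regular point. -/

set_option autoImplicit false

namespace Pool.Agent.MP_f3836a_nt.VE.Z

open IsLocalRing PK VE.A VE.T VE.W

namespace ZCy

/-- each generator of the maximal ideal cuts out a curve -/
theorem prime_gen {R : Type} [CommRing R] [IsDomain R] [IsLocalRing R] [IsNoetherianRing R]
    {p π : R} (h : maximalIdeal R = Ideal.span {p, π})
    (hq : ∃ q : Ideal R, q.IsPrime ∧ q ≠ ⊥ ∧ ¬q.IsMaximal) :
    (Ideal.span {p}).IsPrime ∧ π ∉ Ideal.span {p} := by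
  obtain ⟨q, _, h0, h1⟩ := hq
  obtain ⟨P, hP, hle⟩ := Ideal.exists_minimalPrimes_le (I := Ideal.span {p}) (J := maximalIdeal R)
    (h ▸ Ideal.span_mono (by simp))
  have hp : P.IsPrime := hP.1.1
  have pP : p ∈ P := hP.1.2 (Ideal.mem_span_singleton_self p)
  have hπ : π ∉ P := fun e => by
    have e1 : P = maximalIdeal R := le_antisymm hle (h ▸ Ideal.span_le.2 (by
      rintro x (rfl | rfl) <;> assumption))
    have a1 := Ideal.height_le_one_of_isPrincipal_of_mem_minimalPrimes _ P hP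
    have a2 := Ideal.height_add_one_le_of_lt_of_isPrime (bot_lt_iff_ne_bot.2 h0)
    have a3 := Ideal.height_add_one_le_of_lt_of_isPrime ((le_maximalIdeal_of_isPrime q).lt_of_ne
      fun e => h1 (e ▸ maximalIdeal.isMaximal R))
    rw [Ideal.height_bot, zero_add] at a2
    exact absurd ((add_le_add_left a2 1).trans (a3.trans (e1 ▸ a1))) (by decide)
  have e : Ideal.span {p} = P := le_antisymm hP.1.2 (Submodule.le_of_le_smul_of_le_jacobson_bot
    (IsNoetherian.noetherian P) (maximalIdeal_le_jacobson _) fun x hx => by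
      obtain ⟨u, v, rfl⟩ := Ideal.mem_span_pair.1 (h ▸ hle hx)
      have hv : v ∈ P := (hp.mem_or_mem ((P.add_mem_iff_right (P.mul_mem_left u pP)).1
        hx)).resolve_right hπ
      rw [mul_comm v]
      exact Submodule.add_mem_sup (Ideal.mem_span_singleton'.2 ⟨u, rfl⟩)
        (Ideal.mul_mem_mul (h ▸ Ideal.subset_span (by simp)) hv))
  exact e ▸ ⟨hp, hπ⟩

variable {K : Type} [Field K] {D : Subring K}

theorem gen_max [IsLocalRing D] {a b : K} (g : Gen D a b) :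
    maximalIdeal D = Ideal.span {⟨a, g.1⟩, ⟨b, g.2.1⟩} := by
  ext z
  rw [mem_maximalIdeal, mem_nonunits_iff, ← nu_iff, g.2.2, Ideal.mem_span_pair]
  exact ⟨fun ⟨u, hu, v, hv, e⟩ => ⟨⟨u, hu⟩, ⟨v, hv⟩, Subtype.ext e.symm⟩,
    fun ⟨u, v, e⟩ => ⟨u, u.2, v, v.2, (congrArg Subtype.val e).symm⟩⟩

theorem ax (hL : LcS) (hO : OdS) (hR : RegS) (hV : DvS) (h : Rg D) (A : RgA D) {a b : K}
    (g : Gen D a b) : ∃ O, Ax D a b O := by
  have := h.loc
  have := h.noeth
  have hm := gen_max g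
  obtain ⟨hp, hb⟩ := prime_gen hm h.cur
  have a0 : (⟨a, g.1⟩ : D) ≠ 0 := fun e =>
    (prime_gen (gen_max g.swap) h.cur).2 (e ▸ zero_mem _)
  have a0' : a ≠ 0 := fun e => a0 (Subtype.ext e)
  have q0 := mt Ideal.span_singleton_eq_bot.1 a0
  have q1 : ¬(Ideal.span {(⟨a, g.1⟩ : D)}).IsMaximal := fun e =>
    hb (by rw [eq_maximalIdeal e, hm]; exact Ideal.subset_span (by simp))
  obtain ⟨O, hO'⟩ : ∃ O, O = lc D (Ideal.span {(⟨a, g.1⟩ : D)}) := ⟨_, rfl⟩
  have h1 : H1 D O := ⟨_, hp, q0, q1, hO'⟩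
  obtain ⟨dv, le, -⟩ := A.dvr O h1
  have V := hV K O dv
  have := V.loc
  have nu : ∀ z : D, Nu O z ↔ z ∈ Ideal.span {(⟨a, g.1⟩ : D)} := fun z => by
    subst hO'
    exact (nu_iff (Subring.inclusion le z)).trans (((hL K D).unit _ z).not.trans not_not)
  have dv' : ∀ z ∈ D, Nu O z ↔ z / a ∈ D := fun z hz => (nu ⟨z, hz⟩).trans
    (Ideal.mem_span_singleton'.trans ⟨fun ⟨c, e⟩ => by
      rw [← eq_div_of_mul_eq a0' (congrArg Subtype.val e)]; exact c.2,
      fun e => ⟨⟨_, e⟩, Subtype.ext (div_mul_cancel₀ z a0')⟩⟩)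
  obtain ⟨e, E⟩ := A.eqn O h1
  have u : Ut D (a / e) := ⟨div_ne_zero a0' E.ne, (E.div a g.1).1 ((dv' a g.1).2 (by simp [a0'])),
    by rw [inv_div]; exact (dv' e E.mem).1 ((V.nu e).2 (.inr (E.ord ▸ one_pos)))⟩
  have ea : a = a / e * e := (div_mul_cancel₀ a E.ne).symm
  have ub : Ut O b := (nu_or (le g.2.1)).resolve_left fun n => hb ((nu ⟨b, g.2.1⟩).1 n)
  have nf : ∀ c ∈ D, Ut O c → ∃ (w : K) (k : ℕ), Ut D w ∧ Nu O (c - w * b ^ k) := fun c hc uc => by
    obtain ⟨k, w, hw, e⟩ := (hR K D _ _ h.noeth h.fr a0 hm hp hb).2.2 ⟨c, hc⟩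
      fun e => ((nu ⟨c, hc⟩).2 e).not uc
    exact ⟨w, k, (ut_iff w).2 hw, (nu _).2 e⟩
  refine ⟨O, ⟨g.1, a0', ?_, fun O' h' n => ?_, dv'⟩, h1, ub, ?_, fun v hv => ?_⟩
  · rw [ea, V.mul _ _ u.1 E.ne, E.ord, ((V.ut _).1 (u.mono le)).2, zero_add]
  · exact ea ▸ (u.mono (A.dvr O' h').2.1).mul (E.oth O' h' n)
  · obtain ⟨l1, l2, -⟩ := (hO K _ D O _ _ A.loc2 q0 q1 hO' V.dv).len ⟨b, g.2.1⟩ hb
    rw [← Ideal.span_insert, ← hm, Module.length_eq_one_iff.2 (isSimpleModule_iff_isCoatom.2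
      (Ideal.isMaximal_def.1 (maximalIdeal.isMaximal D)))] at l2
    have l3 : (od O (residue O) D (resR O (residue O) b)).toNat = 1 := by exact_mod_cast l2.symm
    rw [oK_eq]
    omega
  · obtain ⟨c, hc, d, hd, ud, e⟩ := A.frac O h1 v hv.2.1
    obtain ⟨w, k, uw, n⟩ := nf c hc (e ▸ hv.mul ud)
    obtain ⟨w', k', uw', n'⟩ := nf d hd ud
    have u2 := (uw'.mono le).mul (ub.pow k')
    refine ⟨w / w', k - k', uw.div uw', ?_⟩
    convert (n.mul u2.2.2).sub (n'.mul (hv.div u2).2.1) using 1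
    rw [zpow_sub₀ ub.1, zpow_natCast, zpow_natCast, ← e]
    have := uw'.1
    have := ub.1
    field_simp
    ring

variable (hV : DvS) (A : RgA D) {ψ ψ' : Subring K → K}
include A

theorem zero (hψ : Us ψ) {O : Subring K} (h : H1 D O → Tor O (ψ O)) :
    ∑ᶠ _ : H1 D O, oK O D (ψ O) = 0 :=
  (finsum_congr fun h1 => A.tor O _ h1 (hψ O (A.dvr O h1).1) (h h1)).trans finsum_zero

theorem fin (hψ : Us ψ) (h : Fs D ψ) :
    (Function.support fun O => ∑ᶠ _ : H1 D O, oK O D (ψ O)).Finite :=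
  h.subset fun O hO => by
    by_contra hn
    exact hO (zero A hψ fun h1 => (not_not.1 fun e => hn ⟨h1, e⟩).tor)

theorem single (hψ : Us ψ) {O : Subring K} (h1 : H1 D O)
    (h : ∀ O', H1 D O' → O' ≠ O → Tor O' (ψ O')) :
    ∑ᶠ (O) (_ : H1 D O), oK O D (ψ O) = oK O D (ψ O) := by
  classical
  rw [finsum_eq_single _ O fun O' n => zero A hψ fun h' => h O' h' n, finsum_eq_if, if_pos h1]

include hV

theorem mul (hψ : Us ψ) (hψ' : Us ψ') (c : Cyc D ψ) (c' : Cyc D ψ') :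
    Cyc D fun O => ψ O * ψ' O := by
  refine ⟨(c.1.union c'.1).subset fun O hO => ?_, ?_⟩
  · by_contra hn
    have d := (A.dvr O hO.1).1
    have := (hV K O d).loc
    have n : Nu O (ψ O - 1) := not_not.1 fun e => hn (.inl ⟨hO.1, e⟩)
    have n' : Nu O (ψ' O - 1) := not_not.1 fun e => hn (.inr ⟨hO.1, e⟩)
    exact hO.2 (by convert (n.mul (hψ' O d).2.1).add n' using 1; ring)
  · have e := finsum_add_distrib (fin A hψ c.1) (fin A hψ' c'.1)
    rw [c.2, c'.2, add_zero] at e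
    refine (finsum_congr fun O => ?_).trans e
    by_cases h : H1 D O
    · simpa [h] using A.mul O _ _ h (hψ O (A.dvr O h).1) (hψ' O (A.dvr O h).1)
    · simp [h]

theorem key (hK : KeyU) (l : List (K × K)) (hl : NZ l) : Cyc D (bdE l) := by
  have us : ∀ l : List (K × K), NZ l → Us (bdE l) := fun l hl O d => ((hV K O d).bd l hl).1
  induction l with
  | nil => exact ⟨Set.finite_empty.subset fun O h => h.2 (by simpa [bdE] using nu_zero),
      finsum_eq_zero_of_forall_eq_zero fun O => zero A (us _ hl) fun _ =>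
        Nu.tor (by simpa [bdE] using nu_zero)⟩
  | cons s l ih =>
    have hs : NZ [s] := fun t ht => hl t (by simp [List.mem_singleton.1 ht])
    have hl' : NZ l := fun t ht => hl t (List.mem_cons_of_mem s ht)
    have e : bdE (s :: l) = fun O => bdE [s] O * bdE l O := by funext O; simp [bdE]
    rw [e]
    refine mul hV A (us _ hs) (us _ hl') ⟨((A.fin s.1).union (A.fin s.2)).subset fun O hO => ?_,
      ?_⟩ (ih hl')
    · by_contra hn
      refine hO.2 ?_
      rw [(hV K O (A.dvr O hO.1).1).one [s] fun t ht => List.mem_singleton.1 ht ▸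
        ⟨not_not.1 fun e => hn (.inl ⟨hO.1, e⟩), not_not.1 fun e => hn (.inr ⟨hO.1, e⟩)⟩, sub_self]
      exact nu_zero
    · have loc : ∀ C : {O // H1 D O}, IsLocalRing C.1 := fun C => (hV K _ (A.dvr _ C.2).1).loc
      rw [← finsum_subtype_eq_finsum_cond, ← hK K D {O // H1 D O} Subtype.val
        (fun C => ResidueField C.1) (fun C => residue C.1) A.loc2
        ⟨Subtype.val_injective, fun C => (hV K _ (A.dvr _ C.2).1).dv, fun C _ => C.2,
          fun S h => ⟨⟨S, h⟩, rfl⟩⟩ A.pri s.1 s.2 (hs s (by simp)).1 (hs s (by simp)).2]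
      exact finsum_congr fun C => by rw [oK_eq]; simp [bdE, tameR]

end ZCy

open ZCy in
theorem zCy : OfCy := by
  intro hL hO hR hK hV hG K _ D h
  have A := hG K D h
  refine ⟨fun a b => ax hL hO hR hV h A, key hV A hK, fun ψ ψ' => mul hV A,
    fun ψ ψ' u u' n c => ⟨c.1.subset fun O hO => ⟨hO.1, fun e => hO.2 ?_⟩, ?_⟩,
    fun ψ O u c h1 t => (single A u h1 t).symm.trans c.2, fun ψ O O₁ u c h1 h2 ne t => ?_,
    fun ψ O u h1 n e => ⟨(Set.finite_singleton O).subset fun O' hO => ?_,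
      (single A u h1 fun O' h' m => (n O' h' m).tor).trans e⟩⟩
  · have := (hV K O (A.dvr O hO.1).1).loc
    simpa using e.sub (n O hO.1)
  · rw [← c.2]
    exact finsum_congr fun O => finsum_congr fun h1 => (A.cg O h1 _ (u O (A.dvr O h1).1).2.1 _
      (u' O (A.dvr O h1).1).2.1 (n O h1)).symm
  · classical
    rw [← c.2, finsum_eq_sum_of_support_subset _ (s := {O, O₁}) fun O' hO => ?_,
      Finset.sum_pair ne, finsum_eq_if, finsum_eq_if, if_pos h1, if_pos h2]
    by_contra hn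
    simp only [Finset.coe_insert, Finset.coe_singleton, Set.mem_insert_iff, Set.mem_singleton_iff,
      not_or] at hn
    exact hO (zero A u fun h' => t O' h' hn.1 hn.2)
  · by_contra hn
    exact hO.2 (n O' hO.1 hn)

end Pool.Agent.MP_f3836a_nt.VE.Z
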