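import Pool.Agent.MP_f3836a_nt.VE.SpecZ1
import Pool.Agent.MP_f3836a_nt.VE.TTame
import Pool.Agent.MP_f3836a_nt.PK.EDVA

/-! Discrete valuation rings inside a field, and cycles at a regular point are boundaries. -/

set_option autoImplicit false

namespace Pool.Agent.MP_f3836a_nt.VE.Z

open Polynomial IsLocalRing PK VE.A VE.T VE.W

namespace ZDv

variable {K : Type} [Field K] {O : Subring K}

theorem dv (h : Dvr O) [IsLocalRing O] : DV O (residue O) where
  dvr := h.dvr
  frac := h.fr
  surj := residue_surjective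
  ker a := (residue_eq_zero_iff a).trans mem_nonunits_iff

theorem bd_cons (s : K × K) (l : List (K × K)) : bdE (s :: l) O = tameE O s.1 s.2 * bdE l O := by
  rw [bdE, List.map_cons, List.prod_cons, bdE]

theorem bd_app (l l' : List (K × K)) : bdE (l ++ l') O = bdE l O * bdE l' O := by
  rw [bdE, List.map_append, List.prod_append, bdE, bdE]

theorem eswap {f g : K} (hf : f ≠ 0) (hg : g ≠ 0) : tameE O f g * tameE O g f = 1 := by
  rw [tameE, tameE, mul_comm (ordR O g)]
  have h1 : ((-1 : K) ^ (ordR O f * ordR O g)) * (-1) ^ (ordR O f * ordR O g) = 1 := by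
    rw [← mul_zpow, neg_one_mul, neg_neg, one_zpow]
  have h2 := zpow_ne_zero (ordR O g) hf
  have h3 := zpow_ne_zero (ordR O f) hg
  field_simp
  linear_combination h1

theorem bd_swap (l : List (K × K)) (hl : NZ l) : bdE l O * bdE (l.map Prod.swap) O = 1 := by
  induction l with
  | nil => simp [bdE]
  | cons s l ih =>
    have h1 := hl s (by simp)
    rw [List.map_cons, bd_cons, bd_cons, mul_mul_mul_comm, ih fun t ht => hl t (by simp [ht]),
      mul_one]
    exact eswap h1.1 h1.2

theorem nz_swap {l : List (K × K)} (hl : NZ l) : NZ (l.map Prod.swap) := fun s hs => by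
  obtain ⟨t, ht, rfl⟩ := List.mem_map.1 hs
  exact (hl t ht).symm

variable {κ : Type} [Field κ] {r : O →+* κ}

theorem ut (h : DV O r) (f : K) : Ut O f ↔ f ≠ 0 ∧ ordR O f = 0 :=
  and_congr_right fun hf => by
    rw [EDVA.mem h hf, EDVA.mem h (inv_ne_zero hf), EDVA.v_inv h hf]
    omega

theorem bd (h : DV O r) (l : List (K × K)) (hl : NZ l) :
    Ut O (bdE l O) ∧ resR O r (bdE l O) = (l.map fun s => tameR O r s.1 s.2).prod := by
  induction l with
  | nil => exact ⟨ut_one, EDVA.res_one⟩
  | cons s l ih =>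
    have h1 := hl s (by simp)
    have h2 := ih fun t ht => hl t (by simp [ht])
    have h3 := (ut h _).2 (EDVA.tt h h1.1 h1.2)
    rw [bd_cons, List.map_cons, List.prod_cons, EDVA.rmul h3.2.1 h2.1.2.1, h2.2]
    exact ⟨h3.mul h2.1, rfl⟩

end ZDv

open ZDv in
theorem zDv : DvS := fun K _ O hO =>
  have := hO.dvr
  have h := dv hO
  { loc := inferInstance
    dv := dv hO
    ne := fun e => by
      obtain ⟨π, h0, h1⟩ := EDVA.uni h
      have h2 := (EDVA.mem h (inv_ne_zero h0)).1 (e ▸ trivial)
      rw [EDVA.v_inv h h0] at h2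
      omega
    max := EDVA.max h
    val := fun z => by
      obtain ⟨W, rfl⟩ := EDVA.val h
      exact W.mem_or_inv_mem z
    mul := fun _ _ => EDVA.mul h
    zpow := fun _ n hf => EDVA.v_zpow h hf n
    mem := fun _ => EDVA.mem h
    ut := ut h
    nu := fun f => by
      by_cases hf : f = 0
      · exact iff_of_true (hf ▸ nu_zero) (.inl hf)
      · rw [Nu, EDVA.mem h hf, EDVA.mem h (inv_ne_zero hf), EDVA.v_inv h hf]
        simp only [hf, false_or]
        omega
    uni := EDVA.uni h
    res := fun κ _ r hr a ha b hb => by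
      rw [← sub_eq_zero, ← TTame.rsub ha hb, EDVA.res_mem (O.sub_mem ha hb), hr.ker]
      exact (nu_iff ⟨a - b, O.sub_mem ha hb⟩).symm
    bd := fun l hl => ⟨(bd h l hl).1, by rw [bd_swap l hl, sub_self]; exact nu_zero,
      fun _ _ _ hr => (bd hr l hl).2⟩
    one := fun l hl => List.prod_eq_one fun x hx => by
      obtain ⟨s, hs, rfl⟩ := List.mem_map.1 hx
      simp [tameE, (hl s hs).1, (hl s hs).2]
    int := fun z q hq hz => by
      have : IsFractionRing O K := IsFractionRing.of_field O K fun z => by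
        obtain ⟨a, b, hb, e⟩ := hO.fr z
        exact ⟨a, b, eq_div_of_mul_eq hb e⟩
      obtain ⟨y, rfl⟩ := IsIntegrallyClosed.algebraMap_eq_of_integral (R := O) (x := z) ⟨q, hq, hz⟩
      exact y.2 }

theorem zLg : OfLg := fun hD hR hC h1 => by
  have hS : LgS := fun K _ D A a b ψ hg hab hA hψ hF => by
    classical
    have R := hR K D hg
    have key : ∀ s : Finset (Subring K), ∃ l, NZ l ∧ ∀ O, H1 D O → O ≠ A →
        (O ∈ s → Nu O (ψ O - bdE l O)) ∧ (O ∉ s → Nu O (bdE l O - 1)) := fun s => by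
      induction s using Finset.induction_on with
      | empty => exact ⟨[], fun _ h => by simp at h, fun O _ _ => ⟨fun h => by simp at h,
          fun _ => by simpa [bdE] using nu_zero⟩⟩
      | insert O0 s hs ih =>
        obtain ⟨l, hl, ih⟩ := ih
        by_cases h0 : H1 D O0 ∧ O0 ≠ A
        swap
        · refine ⟨l, hl, fun O hO hne => ?_⟩
          have : O ≠ O0 := fun e => h0 (e ▸ ⟨hO, hne⟩)
          simpa only [Finset.mem_insert, this, false_or] using ih O hO hne
        obtain ⟨l0, hl0, e0, e1⟩ :=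
          h1 K D A O0 a b _ hg hab hA h0.1 h0.2 (hψ O0 (R.dvr O0 h0.1).1)
        refine ⟨l ++ l0, fun t ht => (List.mem_append.1 ht).elim (hl t) (hl0 t),
          fun O hO hne => ?_⟩
        have V := hD K O (R.dvr O hO).1
        have := V.loc
        rw [ZDv.bd_app]
        by_cases e : O = O0
        · subst e
          refine ⟨fun _ => ?_, fun h => absurd (Finset.mem_insert_self _ _) h⟩
          convert e0.sub (((ih O hO hne).2 hs).mul (V.bd l0 hl0).1.2.1) using 1
          ring
        · have e2 := (e1 O hO e hne).mul (V.bd l hl).1.2.1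
          simp only [Finset.mem_insert, e, false_or]
          refine ⟨fun h => ?_, fun h => ?_⟩
          · convert ((ih O hO hne).1 h).sub e2 using 1
            ring
          · convert ((ih O hO hne).2 h).add e2 using 1
            ring
    obtain ⟨l, hl, e⟩ := key hF.toFinset
    refine ⟨l, hl, fun O hO hne => ?_⟩
    by_cases h : O ∈ hF.toFinset
    · exact (e O hO hne).1 h
    · have := (hD K O (R.dvr O hO).1).loc
      have h2 : Nu O (ψ O - 1) := by simpa [hO] using h
      convert h2.sub ((e O hO hne).2 h) using 1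
      ring
  refine ⟨hS, fun K _ D ψ hg hψ hc => ?_⟩
  have R := hR K D hg
  have C := hC K D hg
  obtain ⟨a, b, hab⟩ := hg.gen
  obtain ⟨A, hA⟩ := C.ax a b hab
  obtain ⟨l, hl, e⟩ := hS K D A a b ψ hg hab hA hψ hc.1
  have hl' := ZDv.nz_swap hl
  have u1 : Us (bdE (l.map Prod.swap)) := fun O hO => ((hD K O hO).bd _ hl').1
  have dA := R.dvr A hA.h1
  have uA := (hψ A dA.1).mul (u1 A dA.1)
  have k0 := C.one _ A (fun O hO => (hψ O hO).mul (u1 O hO)) (C.mul _ _ hψ u1 hc (C.key _ hl'))
    hA.h1 fun O hO hne => Nu.tor (by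
      convert (e O hO hne).mul (u1 O (R.dvr O hO).1).2.1 using 1
      rw [← ZDv.bd_swap (O := O) l hl]
      ring)
  obtain ⟨w, k, hw, e1⟩ := hA.nf _ uA
  have wA := hw.mono dA.2.1
  rw [R.cg A hA.h1 _ uA.2.1 _ (wA.mul (hA.ut.zpow k)).2.1 e1, R.mul A _ _ hA.h1 wA (hA.ut.zpow k),
    R.zpow A _ _ hA.h1 hA.ut, hA.one, ((R.pos A hA.h1 w hw.2.1 wA).2).2 hw, zero_add,
    mul_one] at k0
  rw [k0, zpow_zero, mul_one] at e1
  refine ⟨(w, a) :: l, fun t ht => (List.mem_cons.1 ht).elim (fun h => h ▸ ⟨hw.1, hA.ne⟩) (hl t),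
    fun O hO => ?_⟩
  have V := hD K O (R.dvr O hO).1
  have w0 := ((V.ut w).1 (hw.mono (R.dvr O hO).2.1)).2
  rw [ZDv.bd_cons, tameE, w0, zero_mul, zpow_zero, zpow_zero, one_mul, div_one]
  by_cases h : O = A
  · subst h
    convert e1.mul (V.bd l hl).1.2.1 using 1
    rw [hA.ord, zpow_one]
    linear_combination -ψ O * ZDv.bd_swap (O := O) l hl
  · rw [((V.ut a).1 (hA.oth O hO h)).2, zpow_zero, one_mul]
    exact e O hO h

end Pool.Agent.MP_f3836a_nt.VE.Z
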