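import Pool.Agent.MP_f3836a_nt.VE.SpecZ1

/-! A unit on one curve is a boundary away from the axis. -/

set_option autoImplicit false

namespace Pool.Agent.MP_f3836a_nt.VE.Z

open Polynomial IsLocalRing PK VE.A VE.T VE.W

namespace ZLg1

variable {K : Type} [Field K] {D A O : Subring K} {a b g u f : K}

theorem ut_of [IsLocalRing O] {k : ℤ} (ha : Ut O a) (hu : Ut O u) (h : Nu O (u - a ^ k * f)) :
    Ut O f := by
  have h1 : Ut O (a ^ k * f) := by simpa using hu.add h.neg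
  have h2 := h1.div (ha.zpow k)
  rwa [mul_div_cancel_left₀ _ (ha.zpow k).1] at h2

theorem red (V : DvA O) (R : RgA D) (hO : H1 D O) (hg : Eqn D O g) (ha : Nu D a) (ha' : Ut O a)
    (hu : Ut O u) (m : ℕ) : ∀ (k : ℤ) (f : K), f ∈ D → Nu O (u - a ^ k * f) → oK O D f < m →
    ∃ (k : ℤ) (f : K), f ∈ D ∧ Nu O (u - a ^ k * f) ∧ ¬∃ c ∈ D, ∃ d ∈ D, f = a * c + g * d := by
  have := V.loc
  have hle := (R.dvr O hO).2.1
  induction m with
  | zero => exact fun k f hf h hm => absurd (R.pos O hO f hf (ut_of ha' hu h)).1 (by omega)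
  | succ m ih =>
    intro k f hf h hm
    by_cases hc : ∃ c ∈ D, ∃ d ∈ D, f = a * c + g * d
    · obtain ⟨c, hc, d, hd, rfl⟩ := hc
      have h1 : Nu O (d * g) := ((V.nu g).2 (.inr (by rw [hg.ord]; exact one_pos))).mul (hle hd)
      have h2 : Nu O (u - a ^ (k + 1) * c) := by
        convert h.add (h1.mul (ha'.zpow k).2.1) using 1
        rw [zpow_add_one₀ ha'.1]
        ring
      have h3 := ut_of ha' hu h2
      refine ih (k + 1) c hc h2 ?_
      have h4 := R.cg O hO _ (hle hf) _ (ha'.mul h3).2.1 (by convert h1 using 1; ring)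
      have h5 := R.pos O hO a ha.1 ha'
      have h6 : oK O D a ≠ 0 := fun e => ha.not (h5.2.1 e)
      rw [R.mul O a c hO ha' h3] at h4
      push_cast at hm
      omega
    · exact ⟨k, f, hf, h, hc⟩

theorem norm (V : DvA O) (R : RgA D) (hO : H1 D O) (hg : Eqn D O g) (ha : Nu D a) (ha' : Ut O a)
    (hu : Ut O u) :
    ∃ (k : ℤ) (f : K), f ∈ D ∧ Nu O (u - a ^ k * f) ∧ ¬∃ c ∈ D, ∃ d ∈ D, f = a * c + g * d := by
  obtain ⟨f1, h1, f2, h2, h3, e⟩ := R.frac O hO u hu.2.1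
  obtain ⟨N, c, hc, h4⟩ := R.rad O hO f2 h2 h3 a ha
  refine red V R hO hg ha ha' hu ((oK O D (c * f1)).toNat + 1) (-N) (c * f1) (D.mul_mem hc h1) ?_
    (by omega)
  convert h4.mul (hu.div (ha'.pow N)).2.1 using 1
  have := (ha'.pow N).1
  rw [← e, zpow_neg, zpow_natCast]
  field_simp

theorem ok_nf (R : RgA D) (hA : Ax D a b A) {w : K} {i : ℤ} (hf : Ut A f) (hw : Ut D w)
    (h : Nu A (f - w * b ^ i)) : oK A D f = i := by
  have h1 := hw.mono (R.dvr A hA.h1).2.1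
  rw [R.cg A hA.h1 _ hf.2.1 _ (h1.mul (hA.ut.zpow i)).2.1 h, R.mul A _ _ hA.h1 h1 (hA.ut.zpow i),
    R.zpow A b i hA.h1 hA.ut, hA.one, (R.pos A hA.h1 w hw.2.1 h1).2.2 hw, zero_add, mul_one]

theorem small (V : DvA A) (R : RgA D) (hb : b ∈ D) (hA : Ax D a b A) (hg : g ∈ D) (hg' : Ut A g)
    (hf : f ∈ D) (h : ¬∃ c ∈ D, ∃ d ∈ D, f = a * c + g * d) : Ut A f ∧ oK A D f < oK A D g := by
  have := V.loc
  have hle := (R.dvr A hA.h1).2.1
  have h1 : Ut A f := (nu_or (hle hf)).resolve_left fun e =>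
    h ⟨_, (hA.div f hf).1 e, 0, D.zero_mem, by rw [mul_div_cancel₀ _ hA.ne, mul_zero, add_zero]⟩
  refine ⟨h1, ?_⟩
  obtain ⟨w, i, hw, h2⟩ := hA.nf f h1
  obtain ⟨w', j, hw', h3⟩ := hA.nf g hg'
  rw [ok_nf R hA h1 hw h2, ok_nf R hA hg' hw' h3]
  by_contra hij
  obtain ⟨e, rfl⟩ := Int.le.dest (not_lt.1 hij)
  have h4 : w / w' * b ^ e ∈ D := D.mul_mem (hw.div hw').2.1 (D.pow_mem hb e)
  have h5 : Nu A (f - g * (w / w' * b ^ e)) := by
    convert h2.sub (h3.mul (hle h4)) using 1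
    have := hw'.1
    rw [zpow_add₀ hA.ut.1, zpow_natCast]
    field_simp
    ring
  exact h ⟨_, (hA.div _ (D.sub_mem hf (D.mul_mem hg h4))).1 h5, _, h4, by
    rw [mul_div_cancel₀ _ hA.ne, sub_add_cancel]⟩

theorem bd_append (l l' : List (K × K)) : bdE (l ++ l') O = bdE l O * bdE l' O := by
  simp [bdE]

theorem main (hV : DvS) (R : RgA D) (hab : Gen D a b) (hA : Ax D a b A) (m : ℕ) :
    ∀ (O : Subring K) (g u : K), H1 D O → O ≠ A → Eqn D O g → oK A D g < m → Ut O u →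
    ∃ l, NZ l ∧ Nu O (u - bdE l O) ∧ ∀ O', H1 D O' → O' ≠ O → O' ≠ A → Nu O' (bdE l O' - 1) := by
  classical
  have V : ∀ O, H1 D O → DvA O := fun O h => hV K O (R.dvr O h).1
  induction m with
  | zero =>
    exact fun O g u _ hn hg hm _ =>
      absurd (R.pos A hA.h1 g hg.mem (hg.oth A hA.h1 hn.symm)).1 (by omega)
  | succ m ih =>
    intro O g u hO hn hg hm hu
    have := (V O hO).loc
    have ha := hA.oth O hO hn
    obtain ⟨k, f, hf, h1, h2⟩ := norm (V O hO) R hO hg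
      ((hab.2.2 a).2 ⟨1, D.one_mem, 0, D.zero_mem, by ring⟩) ha hu
    obtain ⟨h3, h4⟩ := small (V A hA.h1) R hab.2.1 hA hg.mem (hg.oth A hA.h1 hn.symm) hf h2
    have h5 := (((V O hO).ut _).1 ((ha.zpow k).mul (ut_of ha hu h1)))
    have key : ∀ T : Finset (Subring K), (∀ O' ∈ T, H1 D O' ∧ ordR O' (a ^ k * f) ≠ 0 ∧ O' ≠ A) →
        ∃ l, NZ l ∧ Nu O (u - bdE l O) ∧ ∀ O', H1 D O' → O' ≠ O → O' ≠ A →
          (O' ∈ T ∨ ordR O' (a ^ k * f) = 0) → Nu O' (bdE l O' - 1) := by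
      intro T
      induction T using Finset.induction_on with
      | empty =>
        refine fun _ => ⟨[(a ^ k * f, g)], fun s hs => ?_, ?_, fun O' h6 h7 _ h8 => ?_⟩
        · rw [List.mem_singleton.1 hs]
          exact ⟨h5.1, hg.ne⟩
        · simpa [bdE, tameE, h5.2, hg.ord] using h1
        · have h9 := (((V O' h6).ut _).1 (hg.oth O' h6 h7)).2
          simpa [bdE, tameE, h9, h8.resolve_left (Finset.notMem_empty _)] using nu_zero
      | insert O2 T _ ihT =>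
        intro hT
        obtain ⟨l, hl, e1, e2⟩ := ihT fun O' h => hT O' (Finset.mem_insert_of_mem h)
        obtain ⟨p1, p2, p3⟩ := hT O2 (Finset.mem_insert_self _ _)
        obtain ⟨g2, hg2⟩ := R.eqn O2 p1
        have q1 : Nu O2 f := (nu_or ((R.dvr O2 p1).2.1 hf)).resolve_right fun e =>
          p2 (((V O2 p1).ut _).1 (((hA.oth O2 p1 p3).zpow k).mul e)).2
        have q2 := hg2.oth A hA.h1 p3.symm
        have q3 := R.mul A _ _ hA.h1 q2 (h3.div q2)
        have q4 := (R.pos A hA.h1 _ ((hg2.div f hf).1 q1) (h3.div q2)).1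
        rw [mul_div_cancel₀ _ hg2.ne] at q3
        have q5 := ((V O2 p1).bd l hl).1
        obtain ⟨l2, hl2, e3, e4⟩ := ih O2 g2 _ p1 p3 hg2 (by push_cast at hm; omega) q5.inv
        refine ⟨l ++ l2, fun s hs => (List.mem_append.1 hs).elim (hl s) (hl2 s), ?_,
          fun O' h6 h7 h8 h9 => ?_⟩
        · rw [bd_append]
          convert e1.sub ((e4 O hO (fun e => p2 (e ▸ h5.2)) hn).mul ((V O hO).bd l hl).1.2.1)
            using 1
          ring
        · rw [bd_append]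
          by_cases e : O' = O2
          · subst e
            convert (e3.mul q5.2.1).neg using 1
            rw [mul_sub, mul_inv_cancel₀ q5.1, neg_sub]
          · have := (V O' h6).loc
            convert ((e4 O' h6 e h8).mul ((V O' h6).bd l hl).1.2.1).add (e2 O' h6 h7 h8
              (h9.imp_left fun h => (Finset.mem_insert.1 h).resolve_left e)) using 1
            ring
    obtain ⟨l, hl, e1, e2⟩ := key ((R.fin (a ^ k * f)).toFinset.erase A) fun O' h => by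
      obtain ⟨p1, p2⟩ := Finset.mem_erase.1 h
      obtain ⟨p3, p4⟩ := (Set.Finite.mem_toFinset _).1 p2
      exact ⟨p3, p4, p1⟩
    refine ⟨l, hl, e1, fun O' h6 h7 h8 => e2 O' h6 h7 h8 (or_iff_not_imp_right.2 fun h => ?_)⟩
    exact Finset.mem_erase.2 ⟨h8, (Set.Finite.mem_toFinset _).2 ⟨h6, h⟩⟩

end ZLg1

theorem zLg1 : OfLg1 := by
  intro hV hR _ K _ D A O a b u hD hab hA hO hn hu
  have R := hR K D hD
  obtain ⟨g, hg⟩ := R.eqn O hO
  exact ZLg1.main hV R hab hA ((oK A D g).toNat + 1) O g u hO hn hg (by omega) hu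

end Pool.Agent.MP_f3836a_nt.VE.Z
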