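import Pool.Agent.MP_f3836a_nt.VE.SpecZ1

/-! The measure of indeterminacy drops under blowing up. -/

set_option autoImplicit false

namespace Pool.Agent.MP_f3836a_nt.VE.Z

open PK VE.W

namespace ZMe

variable {K : Type} [Field K] {D D' E : Subring K} {a b f g t : K}

open Classical in
noncomputable def tm (D : Subring K) (f g : K) (O : Subring K) : ℤ :=
  if H1 D O then ordR O g * oK O D f else 0

/-- the intersection number -/
noncomputable def val (D : Subring K) (f g : K) : ℤ := ∑ᶠ O, tm D f g O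

/-- no common curve -/
structure Cp (D : Subring K) (f g : K) : Prop where
  fm : f ∈ D
  gm : g ∈ D
  f0 : f ≠ 0
  g0 : g ≠ 0
  ut : ∀ O, H1 D O → Ut O f ∨ Ut O g

theorem Cp.swap (c : Cp D f g) : Cp D g f := ⟨c.gm, c.fm, c.g0, c.f0, fun O h => (c.ut O h).symm⟩

open Classical in
noncomputable def mu (D : Subring K) (t : K) : ℕ :=
  if t ∈ D ∨ t⁻¹ ∈ D then 0 else sInf {n : ℕ | ∃ f g, Cp D f g ∧ t * g = f ∧ (n : ℤ) = val D f g}

theorem tm_fin (h : RgA D) (f g : K) : (Function.support (tm D f g)).Finite :=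
  (h.fin g).subset fun O e => by
    rw [Function.mem_support, tm] at e
    split_ifs at e with c
    · exact ⟨c, left_ne_zero_of_mul e⟩
    · exact absurd rfl e

theorem tm_nonneg (hV : DvS) (h : RgA D) (c : Cp D f g) (O : Subring K) : 0 ≤ tm D f g O := by
  rw [tm]
  split_ifs with e
  · have v := hV K O (h.dvr O e).1
    rcases c.ut O e with u | u
    · exact mul_nonneg ((v.mem g c.g0).1 ((h.dvr O e).2.1 c.gm)) (h.pos O e f c.fm u).1
    · rw [((v.ut g).1 u).2, zero_mul]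
  · exact le_rfl

theorem val_nonneg (hV : DvS) (h : RgA D) (c : Cp D f g) : 0 ≤ val D f g :=
  finsum_nonneg (tm_nonneg hV h c)

theorem tm_pos (hV : DvS) (h : RgA D) (c : Cp D f g) (hf : Nu D f) {O : Subring K} (e : H1 D O)
    (hg : ordR O g ≠ 0) : 0 < tm D f g O := by
  have v := hV K O (h.dvr O e).1
  have u : Ut O f := (c.ut O e).resolve_right fun u => hg ((v.ut g).1 u).2
  have p := h.pos O e f c.fm u
  rw [tm, if_pos e]
  exact mul_pos (lt_of_le_of_ne ((v.mem g c.g0).1 ((h.dvr O e).2.1 c.gm)) hg.symm)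
    (lt_of_le_of_ne p.1 fun z => hf.not (p.2.1 z.symm))

theorem val_symm (hV : DvS) (h : RgA D) (y : CyA D) (c : Cp D f g) : val D f g = val D g f := by
  classical
  have k := (y.key [(f, g)] (by simp [NZ, c.f0, c.g0])).2
  rw [← sub_eq_zero, val, val, ← finsum_sub_distrib (tm_fin h f g) (tm_fin h g f), ← k]
  refine finsum_congr fun O => ?_
  rw [finsum_eq_if, tm, tm]
  split_ifs with e
  · have v := hV K O (h.dvr O e).1
    rcases c.ut O e with u | u
    · have z := ((v.ut f).1 u).2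
      simp [bdE, tameE, z, h.zpow O f _ e u]
    · have z := ((v.ut g).1 u).2
      have := h.zpow O g (-ordR O f) e u
      rw [zpow_neg] at this
      simp [bdE, tameE, z, this]
  · exact sub_self _

theorem exists_cp (hV : DvS) (r : Rg D) (h : RgA D) (ht : t ≠ 0) :
    ∃ f g, Cp D f g ∧ t * g = f := by
  have := r.noeth
  obtain ⟨f, g, g0, e⟩ := r.fr t
  obtain ⟨g, ⟨g0, f, hf, e⟩, m⟩ := (wellFounded_dvdNotUnit (α := D)).has_min
    {g : D | (g : K) ≠ 0 ∧ ∃ f ∈ D, t * g = f} ⟨g, g0, f, f.2, e⟩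
  refine ⟨f, g, ⟨hf, g.2, e ▸ mul_ne_zero ht g0, g0, fun O o => ?_⟩, e⟩
  by_contra c
  rw [not_or] at c
  have l := (h.dvr O o).2.1
  obtain ⟨p, q⟩ := h.eqn O o
  have f1 := (q.div f hf).1 ((nu_or (l hf)).resolve_right c.1)
  have g1 := (q.div g g.2).1 ((nu_or (l g.2)).resolve_right c.2)
  have g2 : (g : K) / p ≠ 0 := div_ne_zero g0 q.ne
  refine m ⟨_, g1⟩ ⟨g2, _, f1, by rw [← e, mul_div_assoc]⟩
    ⟨fun z => g2 (congrArg Subtype.val z), ⟨p, q.mem⟩, fun u => ?_,
      Subtype.ext (div_mul_cancel₀ _ q.ne).symm⟩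
  have := (((hV K O (h.dvr O o).1).ut p).1 (((ut_iff ⟨p, q.mem⟩).2 u).mono l)).2
  rw [q.ord] at this
  exact one_ne_zero this

theorem ord_div (v : DvA E) (hf : f ≠ 0) (ha : a ≠ 0) (s : ℕ) :
    ordR E (f / a ^ s) = ordR E f - s * ordR E a := by
  rw [div_eq_mul_inv, ← zpow_natCast, ← zpow_neg, v.mul _ _ hf (zpow_ne_zero _ ha), v.zpow _ _ ha]
  ring

theorem div_mem {B : Subring K} (v : DvA E) (c : Cu B a E) (hf : f ∈ B) (f0 : f ≠ 0) (s : ℕ)
    (hs : (s : ℤ) ≤ ordR E f) : f / a ^ s ∈ B := by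
  induction s with
  | zero => simpa using hf
  | succ s ih =>
    rw [pow_succ, ← div_div]
    push_cast at hs
    refine (c.div _ (ih (by omega))).1 ((v.nu _).2 (.inr ?_))
    rw [ord_div v f0 c.ne, c.ord]
    omega

theorem drop (hV : DvS) (hR : RgS) (hK : KaS) (r : Rg D) (G : Gen D a b) (x : Ex D a b E)
    (p : Pp (Bl D (b / a)) a D') (c : Cp D f g) (hf : Nu D f) (hg : Nu D g)
    (hs : ordR E g ≤ ordR E f) :
    ∃ s : ℕ, Cp D' (f / a ^ s) (g / a ^ s) ∧ val D' (f / a ^ s) (g / a ^ s) < val D f g := by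
  have v := hV K E x.dvr
  have h := hR K D r
  obtain ⟨r', l', -⟩ := x.pt D' p
  have h' := hR K D' r'
  obtain ⟨dm, pt⟩ := x.pt' D' p
  have g1 : 0 < ordR E g := ((v.nu g).1 (x.dom.2 g hg)).resolve_left c.g0
  obtain ⟨s, e⟩ := Int.eq_ofNat_of_zero_le g1.le
  have l : D ≤ Bl D (b / a) := fun z hz => Subring.subset_closure (Set.mem_insert_of_mem _ hz)
  have a0 := pow_ne_zero s x.ne
  have oE : ordR E (g / a ^ s) = 0 := by rw [ord_div v c.g0 x.ne, x.ord, e]; ring
  have na : Nu D' a := dm.2 a ((G.2.2 a).2 ⟨1, D.one_mem, 0, D.zero_mem, by ring⟩)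
  have c' : Cp D' (f / a ^ s) (g / a ^ s) := by
    refine ⟨l' (div_mem v x.toCu (l c.fm) c.f0 s (e ▸ hs)),
      l' (div_mem v x.toCu (l c.gm) c.g0 s e.ge), div_ne_zero c.f0 a0, div_ne_zero c.g0 a0,
      fun O o => ?_⟩
    rcases pt O o with rfl | ⟨o', u⟩
    · exact .inr ((v.ut _).2 ⟨div_ne_zero c.g0 a0, oE⟩)
    · exact (c.ut O o').imp (·.div (u.pow s)) (·.div (u.pow s))
  have key : ∀ O, tm D' (f / a ^ s) (g / a ^ s) O = 0 ∨
      tm D' (f / a ^ s) (g / a ^ s) O < tm D f g O := fun O => by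
    rw [tm]
    split_ifs with o
    · rcases pt O o with rfl | ⟨o', u⟩
      · exact .inl (by rw [oE, zero_mul])
      have w := hV K O (h.dvr O o').1
      rw [ord_div w c.g0 x.ne, ((w.ut a).1 u).2, mul_zero, sub_zero]
      by_cases z : ordR O g = 0
      · exact .inl (by rw [z, zero_mul])
      have uf : Ut O f := (c.ut O o').resolve_right fun u => z ((w.ut g).1 u).2
      have g2 : 0 < ordR O g :=
        lt_of_le_of_ne ((w.mem g c.g0).1 ((h.dvr O o').2.1 c.gm)) (Ne.symm z)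
      have pa := h'.pos O o a na.1 u
      have pa' : 0 < oK O D' a := lt_of_le_of_ne pa.1 fun z => na.not (pa.2.1 z.symm)
      have k := hK K D D' O f r r' dm o' o c.fm uf
      rw [tm, if_pos o', div_eq_mul_inv, ← zpow_natCast, ← zpow_neg, h'.mul O _ _ o uf (u.zpow _),
        h'.zpow O _ _ o u]
      refine .inr (mul_lt_mul_of_pos_left ?_ g2)
      have := mul_pos (e ▸ g1 : (0 : ℤ) < s) pa'
      linarith
    · exact .inl rfl
  refine ⟨s, c', ?_⟩
  rw [← sub_pos, val, val, ← finsum_sub_distrib (tm_fin h f g) (tm_fin h' _ _)]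
  obtain ⟨O, o, n⟩ := h.ex g hg c.g0
  have z : 0 < ordR O g := (((hV K O (h.dvr O o).1).nu g).1 n).resolve_left c.g0
  refine finsum_pos (fun O => ?_) ⟨O, ?_⟩ (((tm_fin h f g).union
    (tm_fin h' (f / a ^ s) (g / a ^ s))).subset (Function.support_sub _ _))
  · rcases key O with e | e
    · rw [e, sub_zero]; exact tm_nonneg hV h c O
    · exact sub_nonneg.2 e.le
  · rcases key O with e | e
    · rw [e, sub_zero]; exact tm_pos hV h c hf o z.ne'
    · exact sub_pos.2 e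

end ZMe

open ZMe in
theorem zMe : OfMe := by
  intro hV hR hC hE hK K _
  refine ⟨mu, fun D D' a b t r G p => ?_⟩
  obtain ⟨E, x⟩ := hE K D a b r G
  have h := hR K D r
  have r' := (x.pt D' p).1
  have h' := hR K D' r'
  have dm := (x.pt' D' p).1
  by_cases ht : t ∈ D ∨ t⁻¹ ∈ D
  · have ht' : t ∈ D' ∨ t⁻¹ ∈ D' := ht.imp (dm.1 ·) (dm.1 ·)
    exact ⟨by rw [mu, mu, if_pos ht, if_pos ht'], fun u w => absurd ht (not_or.2 ⟨u, w⟩)⟩
  suffices k : mu D' t < mu D t from ⟨k.le, fun _ _ => k⟩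
  have hn := not_or.1 ht
  have t0 : t ≠ 0 := fun e => hn.1 (e ▸ D.zero_mem)
  obtain ⟨f, g, c, e⟩ := exists_cp hV r h t0
  obtain ⟨f, g, c, e, m⟩ := Nat.sInf_mem
    (s := {n : ℕ | ∃ f g, Cp D f g ∧ t * g = f ∧ (n : ℤ) = val D f g})
    ⟨_, f, g, c, e, Int.toNat_of_nonneg (val_nonneg hV h c)⟩
  have hg : Nu D g := (nu_or c.gm).resolve_right fun u => hn.1 (by
    rw [(eq_mul_inv_iff_mul_eq₀ c.g0).2 e]; exact D.mul_mem c.fm u.2.2)
  have hf : Nu D f := (nu_or c.fm).resolve_right fun u => hn.2 (by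
    have : t⁻¹ = g * f⁻¹ := by rw [← e]; field_simp [c.g0]
    rw [this]; exact D.mul_mem c.gm u.2.2)
  obtain ⟨s, c', k⟩ : ∃ s : ℕ, Cp D' (f / a ^ s) (g / a ^ s) ∧
      val D' (f / a ^ s) (g / a ^ s) < val D f g := by
    rcases le_total (ordR E g) (ordR E f) with hs | hs
    · exact drop hV hR hK r G x p c hf hg hs
    · obtain ⟨s, c', k⟩ := drop hV hR hK r G x p c.swap hg hf hs
      exact ⟨s, c'.swap, by
        rwa [val_symm hV h (hC K D r) c, val_symm hV h' (hC K D' r') c'.swap]⟩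
  have n := val_nonneg hV h' c'
  rw [mu, mu, if_neg ht]
  split_ifs
  · omega
  · have := Nat.sInf_le (s := {n : ℕ | ∃ f g, Cp D' f g ∧ t * g = f ∧ (n : ℤ) = val D' f g})
      ⟨_, _, c', by rw [← e, mul_div_assoc], Int.toNat_of_nonneg n⟩
    omega

end Pool.Agent.MP_f3836a_nt.VE.Z
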