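import Pool.Agent.MP_f3836a_nt.VE.SpecZ3

/-! The family of units attached to a cycle. -/

set_option autoImplicit false

namespace Pool.Agent.MP_f3836a_nt.VE.Z

open Polynomial IsLocalRing PK VE.A VE.T VE.W

namespace ZPsi

theorem ord_one {L : Type} [Field L] (R : Subring L) : ordR R 1 = 0 := by
  unfold ordR
  split_ifs with h
  · have e : h.2.choose.1 = h.2.choose.2 := Subtype.ext (by rw [← h.2.choose_spec.2, one_mul])
    rw [e, sub_self]
  · rfl

variable {K : Type} [Field K]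

theorem res_one {κ : Type} [Field κ] (O : Subring K) (r : O →+* κ) : resR O r 1 = 1 := by
  unfold resR
  rw [dif_pos O.one_mem]
  exact map_one r

theorem alg_of {D S : Subring K} (h : Dom D S) (a : Alg S) : Alg D := fun u hu =>
  (a u (hu.mono h.1)).imp fun j e => ⟨e.1,
    (nu_or (D.sub_mem (D.pow_mem hu.2.1 j) D.one_mem)).resolve_right fun t => e.2.not (t.mono h.1)⟩

theorem not_ho [CharZero K] {D V : Subring K} (h : Dom D V) (a : Alg D) (ho : Ho V) : False := by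
  have key : ∀ n : ℕ, n ≠ 0 → ¬Nu D (n : K) := fun n hn e =>
    (h.2 _ e).not ⟨Nat.cast_ne_zero.2 hn, natCast_mem V n, ho n hn⟩
  obtain ⟨j, hj, e⟩ := a _ ((nu_or (natCast_mem D 2)).resolve_left (key 2 two_ne_zero))
  have h1 : 1 < 2 ^ j := Nat.one_lt_two_pow hj.ne'
  refine key (2 ^ j - 1) (by omega) ?_
  rwa [Nat.cast_sub h1.le, Nat.cast_pow, Nat.cast_one]

end ZPsi

open ZPsi in
theorem zPsi : OfPsi := by
  intro hDv _ hLg hOk K ι _ _ ξ Pt _ O κ _ r G φ h0 hfin hht hcy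
  classical
  have hD : ∀ C, Order.height C = 1 → Dvr (O C) := fun C h => ⟨(G.dv C h).dvr, (G.dv C h).frac⟩
  have ha : ∀ C, ∃ a : K, Order.height C = 1 → Ut (O C) a ∧ resR (O C) (r C) a = φ C := fun C => by
    by_cases h : Order.height C = 1
    · obtain ⟨a, e⟩ := (G.dv C h).surj (φ C)
      refine ⟨a, fun _ => ⟨(ut_iff a).2 ?_, (dif_pos a.2).trans e⟩⟩
      by_contra hn
      exact h0 C (e ▸ ((G.dv C h).ker a).2 hn)
    · exact ⟨1, fun e => absurd e h⟩
  choose a ha using ha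
  have hπ : ∀ C, ∃ π : K, Order.height C = 1 → ordR (O C) π = 1 := fun C => by
    by_cases h : Order.height C = 1
    · obtain ⟨π, -, e⟩ := (hDv K _ (hD C h)).uni
      exact ⟨π, fun _ => e⟩
    · exact ⟨1, fun e => absurd e h⟩
  choose π hπ using hπ
  obtain ⟨ψ0, p1, p2⟩ : ∃ ψ0 : Subring K → K, (∀ C, Order.height C = 1 → ψ0 (O C) = a C) ∧
      ∀ V, (¬∃ C, Order.height C = 1 ∧ O C = V) → ψ0 V = 1 := by
    refine ⟨fun V => if h : ∃ C, Order.height C = 1 ∧ O C = V then a h.choose else 1,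
      fun C h => ?_, fun V h => dif_neg h⟩
    have e : ∃ C', Order.height C' = 1 ∧ O C' = O C := ⟨C, h, rfl⟩
    exact (dif_pos e).trans (congrArg a (G.inj e.choose_spec.2))
  have us0 : Us ψ0 := fun V _ => by
    by_cases h : ∃ C, Order.height C = 1 ∧ O C = V
    · obtain ⟨C, h, rfl⟩ := h
      rw [p1 C h]; exact (ha C h).1
    · rw [p2 V h]; exact ut_one
  have nu1 : ∀ C, Order.height C = 1 → φ C = 1 → Nu (O C) (ψ0 (O C) - 1) := fun C h e => by
    rw [p1 C h]
    exact ((hDv K _ (hD C h)).res _ _ (G.dv C h) _ (ha C h).1.2.1 _ (O C).one_mem).1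
      (by rw [(ha C h).2, e, res_one])
  have cyc : ∀ z, Order.height z = 0 → Cyc (O z) ψ0 := fun z hz => by
    refine ⟨(hfin.image O).subset ?_, ?_⟩
    · rintro S ⟨h1, h2⟩
      obtain ⟨C, h, rfl, -⟩ := (G.cur z S hz).1 h1
      exact ⟨C, fun e => h2 (nu1 C h e), rfl⟩
    · have e : {S | H1 (O z) S} = O '' {C | Order.height C = 1 ∧ O z ≤ O C} := by
        ext S
        exact (G.cur z S hz).trans ⟨fun ⟨C, h, e, l⟩ => ⟨C, ⟨h, e ▸ l⟩, e⟩,
          fun ⟨C, h, e⟩ => ⟨C, h.1, e, e ▸ h.2⟩⟩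
      change ∑ᶠ S ∈ {S | H1 (O z) S}, oK S (O z) (ψ0 S) = 0
      rw [e, finsum_mem_image G.inj.injOn, ← hcy z hz]
      refine finsum_congr fun C => ?_
      rw [finsum_eq_if]
      split_ifs with h
      · rw [p1 C h.1, ← hOk K _ _ _ (r C) _ (G.cl z hz) ((G.cur z _ hz).2 ⟨C, h.1, rfl, h.2⟩)
          (G.dv C h.1), (ha C h.1).2]
      · unfold W.od
        split_ifs with l
        · have : φ C = 1 := by
            by_contra hn
            exact h ⟨hht C hn, l⟩
          rw [this, ord_one]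
        · rfl
  have hτ : ∀ z, ∃ l, Order.height z = 0 → NZ l ∧ ∀ S, H1 (O z) S → Nu S (ψ0 S - bdE l S) :=
    fun z => by
      by_cases h : Order.height z = 0
      · exact (hLg K _ _ (G.cl z h) us0 (cyc z h)).imp fun _ e _ => e
      · exact ⟨[], fun e => absurd e h⟩
  choose τ hτ using hτ
  have uq : ∀ z z' V, Dom (O z) V → Dom (O z') V → z = z' := fun z z' V h h' =>
    G.inj (le_antisymm (G.mono z z' V V h h' le_rfl) (G.mono z' z V V h' h le_rfl))
  obtain ⟨ψ, q1, q2⟩ : ∃ ψ : Subring K → K,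
      (∀ z V, Order.height z = 0 → Dom (O z) V → ψ V = bdE (τ z) V) ∧
      ∀ V, (¬∃ z, Order.height z = 0 ∧ Dom (O z) V) → ψ V = ψ0 V := by
    refine ⟨fun V => if h : ∃ z, Order.height z = 0 ∧ Dom (O z) V then bdE (τ h.choose) V else ψ0 V,
      fun z V h d => ?_, fun V h => dif_neg h⟩
    have e : ∃ z, Order.height z = 0 ∧ Dom (O z) V := ⟨z, h, d⟩
    exact (dif_pos e).trans (by rw [uq _ _ V e.choose_spec.2 d])
  have q3 : ∀ C, Order.height C = 1 → ψ (O C) = ψ0 (O C) := fun C h => q2 _ fun ⟨z, hz, d⟩ => by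
    rw [uq z C _ d ⟨le_rfl, fun _ e => e⟩, h] at hz
    exact one_ne_zero hz
  refine ⟨ψ, ⟨G.ex, fun V hV => ?_, fun S hS hA hC => ?_,
    ⟨π '' {C | φ C ≠ 1}, hfin.image π, fun V hV ho hH => ?_⟩⟩,
    fun C h => by rw [q3 C h, p1 C h, (ha C h).2]⟩
  · by_cases h : ∃ z, Order.height z = 0 ∧ Dom (O z) V
    · obtain ⟨z, hz, d⟩ := h
      rw [q1 z V hz d]
      exact ((hDv K V hV).bd _ (hτ z hz).1).1
    · rw [q2 V h]; exact us0 V hV
  · obtain ⟨z, d⟩ := G.cen S hS hC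
    have hz := G.alg z (alg_of d hA)
    refine ⟨τ z, (hτ z hz).1, fun V hV le => ?_⟩
    have A := hDv K V hV
    obtain ⟨c, dc⟩ := G.cen V A.loc (G.val V hV)
    have l := G.mono z c S V d dc le
    rcases G.tri c with h | h | h
    · rw [q1 c V h dc, G.min z c h l, sub_self]
      exact nu_zero
    · obtain rfl := ((hDv K _ (hD c h)).max V dc.1).resolve_right A.ne
      rw [q3 c h]
      exact (hτ z hz).2 _ ((G.cur z _ hz).2 ⟨c, h, rfl, l⟩)
    · exact absurd (top_le_iff.1 (h ▸ dc.1)) A.ne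
  · rw [q2 V fun ⟨z, hz, d⟩ => not_ho d (G.cl z hz).alg ho]
    by_cases h : ∃ C, Order.height C = 1 ∧ O C = V
    · obtain ⟨C, h, rfl⟩ := h
      refine nu1 C h ?_
      by_contra hn
      exact one_ne_zero ((hπ C h).symm.trans (hH _ ⟨C, hn, rfl⟩))
    · rw [p2 V h, sub_self]
      exact nu_zero

end Pool.Agent.MP_f3836a_nt.VE.Z
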