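import Pool.Agent.MP_f3836a_nt.VE.SpecZ1
import Pool.Agent.MP_f3836a_nt.PK.BReg

/-! Part Z1: basic facts about regular points. -/

set_option autoImplicit false

namespace Pool.Agent.MP_f3836a_nt.VE.Z

open Polynomial IsLocalRing PK VE.A VE.T VE.W

namespace ZRg

section
variable {R : Type} [CommRing R] [IsDomain R] [IsLocalRing R] [IsNoetherianRing R]

/-- a curve through the zeros of `g` -/
theorem exq (h : ∃ q : Ideal R, q.IsPrime ∧ q ≠ ⊥ ∧ ¬q.IsMaximal) {g : R} (hg : g ∈ maximalIdeal R) :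
    ∃ q : Ideal R, q.IsPrime ∧ g ∈ q ∧ ¬q.IsMaximal := by
  obtain ⟨q, hq, h0, h1⟩ := h
  obtain ⟨P, hP, -⟩ := Ideal.exists_minimalPrimes_le ((Ideal.span_singleton_le_iff_mem _).2 hg)
  have := hP.isPrime
  refine ⟨P, this, hP.le (Ideal.mem_span_singleton_self g), fun k => ?_⟩
  have a := Ideal.height_le_one_of_isPrincipal_of_mem_minimalPrimes _ P hP
  have b := Ideal.height_add_one_le_of_lt_of_isPrime (bot_lt_iff_ne_bot.2 h0)
  have c := Ideal.height_add_one_le_of_lt_of_isPrime (I := q) (J := P)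
    (lt_of_le_of_ne (eq_maximalIdeal k ▸ le_maximalIdeal hq.ne_top) fun e => h1 (e ▸ k))
  have d : (1 : ℕ∞) + 1 ≤ 1 := ((add_le_add_left (le_add_self.trans b) 1).trans c).trans a
  exact absurd d (by decide)

omit [IsDomain R] [IsNoetherianRing R] in
theorem mx {q : Ideal R} (hq : q.IsPrime) {p π : R} (hm : maximalIdeal R = Ideal.span {p, π})
    (h : p ∈ q) (h' : π ∈ q) : q.IsMaximal := by
  have h4 : maximalIdeal R ≤ q := hm.trans_le (Ideal.span_le.2 (by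
    rintro x (rfl | rfl)
    exacts [h, h']))
  rw [← (maximalIdeal.isMaximal R).eq_of_le hq.ne_top h4]
  exact maximalIdeal.isMaximal R

/-- a member of a system of two generators is prime -/
theorem prime (h : ∃ q : Ideal R, q.IsPrime ∧ q ≠ ⊥ ∧ ¬q.IsMaximal) {p π : R}
    (hm : maximalIdeal R = Ideal.span {p, π}) :
    p ≠ 0 ∧ (Ideal.span {p}).IsPrime ∧ π ∉ Ideal.span {p} := by
  obtain ⟨q, hq, hp, h1⟩ := exq h (hm ▸ Ideal.subset_span (Or.inl rfl) : p ∈ maximalIdeal R)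
  obtain ⟨q', hq', hp', h1'⟩ := exq h (hm ▸ Ideal.subset_span (Or.inr rfl) : π ∈ maximalIdeal R)
  have le := (Ideal.span_singleton_le_iff_mem q).2 hp
  refine ⟨fun e => h1' (mx hq' hm (e ▸ q'.zero_mem) hp'), ?_, fun e => h1 (mx hq hm hp (le e))⟩
  have := Ideal.Quotient.nontrivial_iff.2 (ne_top_of_le_ne_top hq.ne_top le)
  have := IsLocalRing.of_surjective' (Ideal.Quotient.mk (Ideal.span {p}))
    Ideal.Quotient.mk_surjective
  have e : maximalIdeal (R ⧸ Ideal.span {p}) = Ideal.span {Ideal.Quotient.mk _ π} := by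
    rw [← map_maximalIdeal_of_surjective _ (Ideal.Quotient.mk_surjective (I := Ideal.span {p})), hm,
      Ideal.map_span, Set.image_pair,
      Ideal.Quotient.eq_zero_iff_mem.2 (Ideal.mem_span_singleton_self p), Ideal.span_insert_zero]
  obtain ⟨dom, -⟩ := BReg.dvr e fun h0 => h1 (by
    have := Ring.krullDimLE_zero_iff.1 h0 _ (Ideal.isPrime_map_quotientMk_of_isPrime le)
    rw [← Ideal.comap_map_mk le]
    exact Ideal.comap_isMaximal_of_surjective _ Ideal.Quotient.mk_surjective)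
  exact (Ideal.Quotient.isDomain_iff_prime _).1 dom

end

variable {K : Type} [Field K] {D O : Subring K}

theorem nu_max [IsLocalRing D] (z : D) : Nu D z ↔ z ∈ maximalIdeal D := nu_iff z

theorem gen_iff [IsLocalRing D] (a b : D) : Gen D a b ↔ maximalIdeal D = Ideal.span {a, b} := by
  refine ⟨fun h => Ideal.ext fun z => ?_, fun h => ⟨a.2, b.2, fun z => ⟨fun k => ?_, ?_⟩⟩⟩
  · rw [← nu_max, h.2.2, Ideal.mem_span_pair]
    exact ⟨fun ⟨u, hu, v, hv, e⟩ => ⟨⟨u, hu⟩, ⟨v, hv⟩, Subtype.ext e.symm⟩,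
      fun ⟨u, v, e⟩ => ⟨u, u.2, v, v.2, (congrArg Subtype.val e).symm⟩⟩
  · obtain ⟨u, v, e⟩ := Ideal.mem_span_pair.1 (h ▸ (nu_max ⟨z, k.1⟩).1 k)
    exact ⟨u, u.2, v, v.2, (congrArg Subtype.val e).symm⟩
  · rintro ⟨u, hu, v, hv, rfl⟩
    exact (nu_max (⟨u, hu⟩ * a + ⟨v, hv⟩ * b)).2 (h ▸ Ideal.mem_span_pair.2 ⟨_, _, rfl⟩)

theorem ut_lc (hL : LcS) (q : Ideal D) [q.IsPrime] (z : D) : Ut (lc D q) z ↔ z ∉ q :=
  (ut_iff (Subring.inclusion (le_lc D q) z)).trans ((hL K D).unit q z)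

theorem nu_lc (hL : LcS) (q : Ideal D) [q.IsPrime] (z : D) : Nu (lc D q) z ↔ z ∈ q := by
  rw [nu_iff_not (le_lc D q z.2), ut_lc hL, not_not]

theorem h1_loc (h : H1 D O) : IsLocalRing O := by
  obtain ⟨q, _, -, -, rfl⟩ := h
  infer_instance

instance (C : {O // H1 D O}) : IsLocalRing C.1 := h1_loc C.2

theorem h1_dvr (h2 : Loc2 D) (h : H1 D O) : Dvr O ∧ D ≤ O := by
  obtain ⟨q, _, h0, h1, rfl⟩ := h
  refine ⟨⟨h2.dvr q h0 h1, fun z => ?_⟩, le_lc D q⟩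
  obtain ⟨a, b, c⟩ := h2.frac z
  exact ⟨⟨a, le_lc D q a.2⟩, ⟨b, le_lc D q b.2⟩, c⟩

/-- all curves through a point -/
theorem thr (hD : DvS) (h2 : Loc2 D) :
    Thr D (fun C : {O // H1 D O} => C.1) fun C => residue C.1 :=
  ⟨Subtype.val_injective, fun C => (hD K _ (h1_dvr h2 C.2).1).dv, fun C _ => C.2,
    fun S h => ⟨⟨S, h⟩, rfl⟩⟩

/-- the centre of a valuation ring -/
theorem cen (hL : LcS) (hD : DvS) (hF : Fr D) {V : Subring K} (hV : Dvr V) (h : D ≤ V) :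
    ∃ (q : Ideal D) (_ : q.IsPrime), q ≠ ⊥ ∧ lc D q ≤ V ∧ ∀ a : D, a ∈ q ↔ Nu V a := by
  have := (hD K V hV).loc
  obtain ⟨q, hq, le, e⟩ := (hL K D).cen V h
  exact ⟨q, hq, fun k => (hD K V hV).ne (top_le_iff.1 (((hL K D).top q hF).2 k ▸ le)), le,
    fun a => (e a).trans (nu_iff (Subring.inclusion h a)).symm⟩

theorem dom [IsLocalRing D] {V : Subring K} (h : D ≤ V) {q : Ideal D} (hq : q.IsMaximal)
    (e : ∀ a : D, a ∈ q ↔ Nu V a) : Dom D V :=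
  ⟨h, fun z k => (e ⟨z, k.1⟩).1 (eq_maximalIdeal hq ▸ (nu_max ⟨z, k.1⟩).1 k)⟩

theorem res_ne {κ : Type} [Field κ] {r : O →+* κ} (h : DV O r) {u : K} (hu : Ut O u) :
    resR O r u ≠ 0 := by
  rw [resR, dif_pos hu.2.1, Ne, h.ker, not_not]
  exact (ut_iff ⟨u, hu.2.1⟩).1 hu

end ZRg

open ZRg in
theorem zRg : OfRg := by
  intro hL hO hR hK hD K _ D h
  have := h.loc
  have := h.noeth
  obtain ⟨a, b, hg⟩ := h.gen
  have hm := (gen_iff ⟨a, hg.1⟩ ⟨b, hg.2.1⟩).1 hg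
  obtain ⟨p0, p1, p2⟩ := prime h.cur hm
  obtain ⟨h2, hp, -⟩ := hR K D _ _ h.noeth h.fr p0 hm p1 p2
  have mul : ∀ O u u', H1 D O → Ut O u → Ut O u' → oK O D (u * u') = oK O D u + oK O D u' := by
    intro O u u' k hu hu'
    have dv := (hD K _ (h1_dvr h2 k).1)
    obtain ⟨q, _, h0, h1, rfl⟩ := k
    rw [oK_eq, oK_eq, oK_eq, (rDVA _ _ _ _ dv.dv).rmul _ _ hu.2.1 hu'.2.1]
    exact (hO K _ D _ q _ h2 h0 h1 rfl dv.dv).mul _ _ (res_ne dv.dv hu) (res_ne dv.dv hu')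
  have one : ∀ O, H1 D O → oK O D 1 = 0 := fun O k => by simpa using mul O 1 1 k ut_one ut_one
  have zp : ∀ O u (n : ℤ), H1 D O → Ut O u → oK O D (u ^ n) = n * oK O D u := by
    intro O u n k hu
    induction n using Int.induction_on with
    | zero => simpa using one O k
    | succ i ih => rw [zpow_add_one₀ hu.1, mul O _ _ k (hu.zpow _) hu, ih]; ring
    | pred i ih =>
      have := mul O _ _ k (hu.zpow (-(i : ℤ) - 1)) hu
      rw [← zpow_add_one₀ hu.1, sub_add_cancel, ih] at this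
      linear_combination -this
  have cg : ∀ O, H1 D O → ∀ u ∈ O, ∀ u' ∈ O, Nu O (u - u') → oK O D u = oK O D u' := by
    intro O k u hu u' hu' e
    have dv := (hD K _ (h1_dvr h2 k).1)
    have := dv.loc
    rw [oK_eq, oK_eq, (dv.res _ _ dv.dv u hu u' hu').2 e]
  refine ⟨h2, hp, fun O k => ⟨(h1_dvr h2 k).1, (h1_dvr h2 k).2, fun e => ?_⟩, fun V hV le => ?_,
    fun O k => ?_, fun g k g0 => ?_, fun f => ?_, mul, zp, cg, fun O u k hu t => ?_,
    fun O k z hz hu => ?_, ?_, ?_⟩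
  · obtain ⟨q, hq, -, h1, rfl⟩ := k
    exact h1 (mx hq hm ((nu_lc hL q _).1 (e.2 _ ((nu_max _).2 (hm ▸ Ideal.subset_span (Or.inl rfl)))))
      ((nu_lc hL q _).1 (e.2 _ ((nu_max _).2 (hm ▸ Ideal.subset_span (Or.inr rfl))))))
  · obtain ⟨q, hq, h0, l, e⟩ := cen hL hD h.fr hV le
    by_cases h1 : q.IsMaximal
    · exact .inr (dom le h1 e)
    · have k : H1 D (lc D q) := ⟨q, hq, h0, h1, rfl⟩
      exact .inl ((((hD K _ (h1_dvr h2 k).1).max V l).resolve_right (hD K V hV).ne).symm ▸ k)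
  · have dv := (hD K _ (h1_dvr h2 k).1)
    obtain ⟨q, hq, h0, h1, rfl⟩ := k
    obtain ⟨g, e⟩ := hp q hq h1
    have g0 : (g : K) ≠ 0 := fun k => h0 (by rw [e, Ideal.span_singleton_eq_bot]; exact Subtype.ext k)
    have gq : g ∈ q := e ▸ Ideal.mem_span_singleton_self g
    refine ⟨g, g.2, g0, ?_, ?_, fun z hz => ?_⟩
    · obtain ⟨π, π0, hπ⟩ := dv.uni
      have n : Nu _ π := (dv.nu π).2 (.inr (by omega))
      obtain ⟨c, d, hd, k⟩ := mem_lc.1 n.1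
      have ud := (dv.ut _).1 ((ut_lc hL q d).2 hd)
      have hc : c ∈ Ideal.span {g} := e ▸ (nu_lc hL q c).1 (by
        rw [← k, mul_comm]; exact n.mul (le_lc D q d.2))
      obtain ⟨s, rfl⟩ := Ideal.mem_span_singleton'.1 hc
      have k' : π * d = s * g := k
      have s0 : (s : K) ≠ 0 := left_ne_zero_of_mul (k' ▸ mul_ne_zero π0 ud.1)
      have a1 := dv.mul _ _ π0 ud.1
      have a2 := (dv.mem _ s0).1 (le_lc D q s.2)
      have a3 := ((dv.nu _).1 ((nu_lc hL q g).2 gq)).resolve_left g0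
      rw [k', dv.mul _ _ s0 g0] at a1
      omega
    · rintro O' ⟨q', hq', -, h1', rfl⟩ ne
      refine (ut_lc hL q' g).2 fun k => h1' (h2.dim q q' hq hq' h0 (lt_of_le_of_ne
        (e.trans_le ((Ideal.span_singleton_le_iff_mem _).2 k)) fun k' => ne ?_))
      subst k'
      rfl
    · refine (nu_lc hL q ⟨z, hz⟩).trans ?_
      rw [e, Ideal.mem_span_singleton']
      exact ⟨fun ⟨s, k⟩ => (div_eq_of_eq_mul g0 (congrArg Subtype.val k).symm).symm ▸ s.2,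
        fun k => ⟨⟨_, k⟩, Subtype.ext (div_mul_cancel₀ z g0)⟩⟩
  · obtain ⟨q, hq, e, h1⟩ := exq h.cur ((nu_max ⟨g, k.1⟩).1 k)
    refine ⟨_, ⟨q, hq, fun k' => g0 ?_, h1, rfl⟩, (nu_lc hL q _).2 e⟩
    rw [k', Ideal.mem_bot] at e
    exact congrArg Subtype.val e
  · exact (((hK K D _ _ _ _ h2 (thr hD h2)).1 f).image Subtype.val).subset fun O k =>
      ⟨⟨O, k.1⟩, ⟨(h1_dvr h2 k.1).2, k.2⟩, rfl⟩
  · obtain ⟨j, hj, e⟩ := t
    have := cg O k _ (hu.pow j).2.1 _ O.one_mem e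
    rw [← zpow_natCast, zp O u j k hu, one O k] at this
    exact (mul_eq_zero.1 this).resolve_left (by omega)
  · have dv := (hD K _ (h1_dvr h2 k).1)
    obtain ⟨q, _, h0, h1, rfl⟩ := k
    have := (hO K _ D _ q _ h2 h0 h1 rfl dv.dv).len ⟨z, hz⟩ ((ut_lc hL q _).1 hu)
    rw [oK_eq]
    exact ⟨this.1, this.2.2.trans (ut_iff ⟨z, hz⟩).symm⟩
  · rintro O ⟨q, _, -, -, rfl⟩ u hu
    obtain ⟨c, d, hd, k⟩ := mem_lc.1 hu
    exact ⟨c, c.2, d, d.2, (ut_lc hL q d).2 hd, k⟩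
  · rintro O ⟨q, hq, h0, -, rfl⟩ f hf hu z hz
    have : (⟨z, hz.1⟩ : D) ∈ (q ⊔ Ideal.span {⟨f, hf⟩}).radical := by
      rw [Ideal.radical_eq_sInf, Submodule.mem_sInf]
      rintro P ⟨le, hP⟩
      rw [eq_maximalIdeal (h2.dim q P hq hP h0 (lt_of_le_of_ne (le_sup_left.trans le) fun k =>
        (ut_lc hL q ⟨f, hf⟩).1 hu
          (k ▸ le (Ideal.mem_sup_right (Ideal.mem_span_singleton_self _)))))]
      exact (nu_max _).1 hz
    obtain ⟨n, hn⟩ := this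
    obtain ⟨y, hy, w, hw, e⟩ := Submodule.mem_sup.1 hn
    obtain ⟨c, rfl⟩ := Ideal.mem_span_singleton'.1 hw
    have e' : (y : K) + c * f = z ^ n := congrArg Subtype.val e
    exact ⟨n, c, c.2, by rw [← e', add_sub_cancel_right]; exact (nu_lc hL q y).2 hy⟩

open ZRg in
theorem zRgI : OfRgI := by
  intro hL hD K _ D V a b h1 h2 h3 h4 h5 hV le hn
  obtain ⟨q, hq, h0, -, e⟩ := cen hL hD h3 hV le
  exact ⟨h1, h2, h3, h4, ⟨a, b, h5⟩, q, hq, h0, fun k => hn (dom le k e)⟩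

end Pool.Agent.MP_f3836a_nt.VE.Z
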