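import Pool.Agent.MP_f3836a_nt.VE.WCh2

/-! The dimension of an arithmetic surface at a closed point. -/

set_option autoImplicit false

namespace Pool.Agent.MP_f3836a_nt.VE.Z

open Polynomial

section
variable {B : Type} [CommRing B]

/-- the lowest coefficient -/
theorem za_low {A : Type} [CommRing A] (f : A →+* B) (I : Ideal B) [hI : I.IsPrime] (J : Ideal A)
    {a : B} (ha : a ∉ I) (P : A[X]) (hP : ∃ n, P.coeff n ∉ J) (hJ : ∀ c ∈ J, f c ∈ I)
    (h : eval₂ f a P ∈ I) : ∃ c, c ∉ J ∧ f c ∈ I ⊔ Ideal.span {a} := by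
  obtain ⟨n, hn⟩ := hP
  induction n generalizing P with
  | zero =>
    refine ⟨_, hn, ?_⟩
    rw [← divX_mul_X_add P, eval₂_add, eval₂_mul, eval₂_X, eval₂_C] at h
    have := sub_mem (Ideal.mem_sup_left h : _ ∈ I ⊔ Ideal.span {a})
      (Ideal.mem_sup_right (Ideal.mul_mem_left _ (eval₂ f a P.divX) (Ideal.mem_span_singleton_self a)))
    rwa [add_sub_cancel_left] at this
  | succ n ih =>
    rw [← divX_mul_X_add P, eval₂_add, eval₂_mul, eval₂_X, eval₂_C] at h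
    by_cases h0 : P.coeff 0 ∈ J
    · have := sub_mem h (hJ _ h0)
      rw [add_sub_cancel_right] at this
      exact ih _ ((hI.mem_or_mem this).resolve_right ha) (by rwa [coeff_divX])
    · refine ⟨_, h0, ?_⟩
      have := sub_mem (Ideal.mem_sup_left h : _ ∈ I ⊔ Ideal.span {a})
        (Ideal.mem_sup_right (Ideal.mul_mem_left _ (eval₂ f a P.divX)
          (Ideal.mem_span_singleton_self a)))
      rwa [add_sub_cancel_left] at this

theorem za_ex {A : Type} [CommRing A] [IsDomain A] [WfDvdMonoid A] {π Q : A} (hπ : ¬IsUnit π)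
    (hQ : Q ≠ 0) : ∃ (n : ℕ) (Q' : A), Q = π ^ n * Q' ∧ ¬π ∣ Q' := by
  obtain ⟨n, Q', h1, h2⟩ := WfDvdMonoid.max_power_factor' hQ hπ
  exact ⟨n, Q', h2, h1⟩

theorem za_nd {A : Type} [CommRing A] {π : A} {Q : A[X]} (h : ¬C π ∣ Q) :
    ∃ n, Q.coeff n ∉ Ideal.span {π} := by
  rw [C_dvd_iff_dvd_coeff, not_forall] at h
  exact h.imp fun n e => by rwa [Ideal.mem_span_singleton]

/-- the last step -/
theorem za_end {p : ℕ} (hp : p.Prime) {I J : Ideal B} [I.IsPrime] (hJ : J.IsPrime) (hle : I ≤ J)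
    (hpI : (p : B) ∈ I) {c : B} (h1 : c ∉ I) (h2 : c ∈ J) {Q : ℤ[X]} (hQ : ¬C (p : ℤ) ∣ Q)
    (h : aeval c Q ∈ I) : False := by
  obtain ⟨n, hn, e⟩ := za_low (algebraMap ℤ B) I (Ideal.span {(p : ℤ)}) h1 Q (za_nd hQ)
    (fun c hc => by
      obtain ⟨d, rfl⟩ := Ideal.mem_span_singleton.1 hc
      rw [map_mul, map_natCast]
      exact I.mul_mem_right _ hpI) h
  have e' : algebraMap ℤ B n ∈ J := sup_le hle ((Ideal.span_singleton_le_iff_mem _).2 h2) e
  obtain ⟨u, v, huv⟩ := (Nat.prime_iff_prime_int.1 hp).coprime_iff_not_dvd.2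
    (fun d => hn (Ideal.mem_span_singleton.2 d))
  have := add_mem (J.mul_mem_left (algebraMap ℤ B u) (hle hpI)) (J.mul_mem_left (algebraMap ℤ B v) e')
  rw [← map_natCast (algebraMap ℤ B), ← map_mul, ← map_mul, ← map_add, huv, map_one] at this
  exact hJ.ne_top ((Ideal.eq_top_iff_one _).2 this)

theorem za_prime {I : Ideal B} (hI : I.IsPrime) {n : ℤ} (hn : n ≠ 0) (h : (n : B) ∈ I) :
    ∃ p : ℕ, p.Prime ∧ (p : B) ∈ I := by
  have := hI.comap (Int.castRingHom B)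
  obtain ⟨p, hp, e⟩ := this.exists_mem_prime_of_ne_bot fun e => hn (e.le h)
  refine ⟨p.natAbs, Int.prime_iff_natAbs_prime.1 e, ?_⟩
  have hp' : (p : B) ∈ I := hp
  rcases Int.natAbs_eq p with h | h
  · rwa [h, Int.cast_natCast] at hp'
  · rwa [h, Int.cast_neg, Int.cast_natCast, neg_mem_iff] at hp'

/-- any two elements are algebraically dependent -/
def Td (B : Type) [CommRing B] : Prop :=
  ∀ a b : B, ∃ P : ℤ[X][X], P ≠ 0 ∧ eval₂ (aeval b : ℤ[X] →ₐ[ℤ] B).toRingHom a P = 0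

/-- no chain of length three -/
theorem za_no3 [IsDomain B] [CharZero B] (td : Td B) {q₁ q₂ q₃ : Ideal B} (h1 : q₁.IsPrime)
    (h2 : q₂.IsPrime) (h3 : q₃.IsPrime) (e0 : q₁ ≠ ⊥) (e1 : q₁ < q₂) (e2 : q₂ < q₃) : False := by
  have := Ideal.isPrime_bot (α := B)
  obtain ⟨a, a1, a0⟩ := SetLike.exists_of_lt (bot_lt_iff_ne_bot.2 e0)
  obtain ⟨b, b2, b1⟩ := SetLike.exists_of_lt e1
  obtain ⟨c, c3, c2⟩ := SetLike.exists_of_lt e2
  have ne : ∀ {A : Type} [CommRing A] {P : A[X]}, P ≠ 0 → ∃ n, P.coeff n ∉ (⊥ : Ideal A) :=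
    fun h => ⟨_, leadingCoeff_ne_zero.2 h⟩
  have k : ∀ t : B, ∃ Q : ℤ[X], Q ≠ 0 ∧ aeval t Q ∈ q₁ := fun t => by
    obtain ⟨P, hP, e⟩ := td a t
    obtain ⟨Q, hQ, e'⟩ := za_low _ ⊥ ⊥ a0 P (ne hP) (fun c hc => by rw [show c = 0 from hc, map_zero]; exact zero_mem _) e
    exact ⟨Q, hQ, sup_le bot_le ((Ideal.span_singleton_le_iff_mem _).2 a1) e'⟩
  obtain ⟨p, hp, hp2⟩ : ∃ p : ℕ, p.Prime ∧ (p : B) ∈ q₂ := by
    obtain ⟨Q, hQ, e⟩ := k b
    obtain ⟨n, hn, e'⟩ := za_low (algebraMap ℤ B) q₁ ⊥ b1 Q (ne hQ)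
      (fun c hc => by rw [show c = 0 from hc, map_zero]; exact zero_mem _) e
    exact za_prime h2 hn (sup_le e1.le ((Ideal.span_singleton_le_iff_mem _).2 b2) e')
  have hu : ¬IsUnit (p : ℤ) := (Nat.prime_iff_prime_int.1 hp).not_isUnit
  by_cases hp1 : (p : B) ∈ q₁
  · obtain ⟨P, hP, e⟩ := td b c
    obtain ⟨n, P', rfl, hP'⟩ := za_ex (π := C (C (p : ℤ))) (by rwa [isUnit_C, isUnit_C]) hP
    rw [eval₂_mul, eval₂_pow, eval₂_C, mul_eq_zero] at e
    obtain ⟨Q, hQ, e'⟩ := za_low (aeval c : ℤ[X] →ₐ[ℤ] B).toRingHom q₁ _ b1 P' (za_nd hP')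
      (fun c hc => by
        obtain ⟨d, rfl⟩ := Ideal.mem_span_singleton.1 hc
        rw [map_mul]
        exact q₁.mul_mem_right _ (by simpa using hp1))
      (by rw [e.resolve_left (pow_ne_zero _ (by simpa using hp.ne_zero))]; exact zero_mem _)
    exact za_end hp h3 e2.le hp2 c2 c3 (fun d => hQ (Ideal.mem_span_singleton.2 d))
      (sup_le e1.le ((Ideal.span_singleton_le_iff_mem _).2 b2) e')
  · obtain ⟨Q, hQ, e⟩ := k c
    obtain ⟨n, Q', rfl, hQ'⟩ := za_ex (π := C (p : ℤ)) (by rwa [isUnit_C]) hQ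
    rw [map_mul, map_pow] at e
    exact za_end hp h3 e2.le hp2 c2 c3 hQ' (e1.le ((h1.mem_or_mem e).resolve_left fun d =>
      hp1 (by simpa using h1.mem_of_pow_mem _ d)))

/-- finite residue fields -/
theorem za_fin [Algebra.FiniteType ℤ B] (m : Ideal B) [m.IsMaximal] : Finite (B ⧸ m) :=
  letI := Ideal.Quotient.field m
  W.WCh2.finite_field _ (by
    have h : (algebraMap ℤ B).FiniteType := RingHom.finiteType_algebraMap.2 inferInstance
    have e : (Ideal.Quotient.mk m).comp (algebraMap ℤ B) = Int.castRingHom (B ⧸ m) :=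
      RingHom.ext_int _ _
    have := (RingHom.FiniteType.of_surjective (Ideal.Quotient.mk m)
      Ideal.Quotient.mk_surjective).comp h
    rw [e] at this
    exact this)

theorem za_char {m : Ideal B} (hm : m.IsPrime) [Finite (B ⧸ m)] :
    ∃ p : ℕ, p.Prime ∧ (p : B) ∈ m :=
  za_prime hm (n := Nat.card (B ⧸ m)) (by exact_mod_cast Nat.card_pos.ne') (by
    rw [← Ideal.Quotient.eq_zero_iff_mem, map_intCast, Int.cast_natCast, ← nsmul_one]
    exact card_nsmul_eq_zero')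

/-- closed points do not have height one -/
theorem za_two [IsDomain B] [CharZero B] [Algebra.FiniteType ℤ B] (tr : ∃ t : B, Transcendental ℤ t)
    (m : Ideal B) [hm : m.IsMaximal] : ∃ q : Ideal B, q.IsPrime ∧ q ≠ ⊥ ∧ q < m := by
  have := za_fin m
  obtain ⟨p, hp, hpm⟩ := za_char hm.isPrime
  have : IsNoetherianRing B := Algebra.FiniteType.isNoetherianRing ℤ B
  by_contra! h
  have nb : ∀ q ∈ (Ideal.span {(p : B)}).minimalPrimes, q ≠ ⊥ := fun q hq e =>
    hp.ne_zero (by simpa [e] using hq.1.2 (Ideal.mem_span_singleton_self _))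
  have fin : ((Ideal.span {(p : B)}).minimalPrimes \ {m}).Finite :=
    (Ideal.finite_minimalPrimes_of_isNoetherianRing _ _).sdiff
  obtain ⟨f, f1, f2⟩ : ∃ f ∈ fin.toFinset.inf id, f ∉ m := SetLike.not_le_iff_exists.1 fun e => by
    obtain ⟨q, hq, e'⟩ := hm.isPrime.inf_le'.1 e
    rw [Set.Finite.mem_toFinset] at hq
    exact h q hq.1.1.1 (nb q hq.1) (lt_of_le_of_ne e' hq.2)
  have qf : Algebra.QuasiFiniteAt ℤ m := Algebra.QuasiFiniteAt.of_isOpen_singleton_fiber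
    (⟨m, hm.isPrime⟩ : PrimeSpectrum B) (by
      refine isOpen_induced_iff.2 ⟨_, PrimeSpectrum.isOpen_basicOpen (a := f), Set.ext fun Q => ⟨fun hQ => ?_, ?_⟩⟩
      · have hp' : (p : B) ∈ Q.1.asIdeal := by
          have := (congrArg PrimeSpectrum.asIdeal Q.2).ge
            (show (p : ℤ) ∈ m.comap (algebraMap ℤ B) by simpa using hpm)
          simpa using this
        obtain ⟨q, hq, e⟩ := Ideal.exists_minimalPrimes_le
          ((Ideal.span_singleton_le_iff_mem _).2 hp')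
        by_cases e' : q = m
        · exact Subtype.ext (PrimeSpectrum.ext (hm.eq_of_le Q.1.2.ne_top (e' ▸ e)).symm)
        · exact absurd (e ((Finset.inf_le (f := id) (fin.mem_toFinset.2 ⟨hq, e'⟩)) f1)) hQ
      · rintro rfl
        exact f2)
  obtain ⟨r, r1, r2, r3⟩ := Algebra.zariskisMainProperty_iff.1
    (Algebra.ZariskisMainProperty.of_finiteType (R := ℤ) m)
  obtain ⟨t, ht⟩ := tr
  obtain ⟨k, hk⟩ := r3 t
  exact ht (IsAlgebraic.of_mul (mem_nonZeroDivisors_of_ne_zero (pow_ne_zero k fun e : r = 0 =>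
    r1 (e ▸ m.zero_mem))) (r2.pow k).isAlgebraic hk.isAlgebraic)

end

end Pool.Agent.MP_f3836a_nt.VE.Z
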