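import Pool.Agent.MP_f3836a_nt.VE.DefsY
import Pool.Agent.MP_f3836a_nt.VE.ZSa
import Pool.Agent.MP_f3836a_nt.VE.WFinC
import Pool.Agent.MP_f3836a_nt.VE.WLc

/-! The geometry of a regular model from its charts. -/

set_option autoImplicit false

namespace Pool.Agent.MP_f3836a_nt.VE.Z

open Polynomial IsLocalRing PK VE.A VE.T VE.W

variable {K : Type} [Field K]

theorem zb_td (td : Td K) (B : Subring K) : Td B := fun a b => by
  obtain ⟨P, h, e⟩ := td a b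
  refine ⟨P, h, Subtype.ext ?_⟩
  change B.subtype _ = 0
  rw [hom_eval₂, ← e]
  congr 1
  exact Polynomial.ringHom_ext (fun n => by simp) (by simp)

theorem zb_tr (tr : ∃ t : K, Transcendental ℤ t) {B : Subring K} (fr : Fr B) :
    ∃ t : B, Transcendental ℤ t := by
  by_contra! h
  obtain ⟨t, ht⟩ := tr
  obtain ⟨a, b, b0, e⟩ := fr t
  have k : ∀ c : B, IsAlgebraic ℤ (c : K) := fun c =>
    (not_not.1 (h c) : IsAlgebraic ℤ c).algHom B.subtype.toIntAlgHom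
  exact ht (IsAlgebraic.of_mul (mem_nonZeroDivisors_of_ne_zero b0) (k b) (mul_comm t b ▸ e ▸ k a))

theorem zb_ut {B : Subring K} {q : Ideal B} [q.IsPrime] (a : B) : Ut (lc B q) (a : K) ↔ a ∉ q :=
  (ut_iff (Subring.inclusion (le_lc B q) a)).trans ((wLc K B).unit q a)

theorem zb_fr {B S : Subring K} (fr : Fr B) (h : B ≤ S) : Fr S := fun z => by
  obtain ⟨a, b, b0, e⟩ := fr z
  exact ⟨⟨a, h a.2⟩, ⟨b, h b.2⟩, b0, e⟩

theorem zb_alg {B : Subring K} (m : Ideal B) [m.IsPrime] [Finite (B ⧸ m)] : Alg (lc B m) := by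
  intro z hz
  obtain ⟨a, b, hb, e⟩ := mem_lc.1 hz.2.1
  have ub := (zb_ut b).2 hb
  have ua : Ut (lc B m) (a : K) := e ▸ hz.mul ub
  have k : ∀ c : B, c ∉ m → Tor (lc B m) (c : K) := fun c hc => by
    obtain ⟨i, j, hij, e⟩ : ∃ i j : ℕ, i < j ∧ Ideal.Quotient.mk m c ^ i = Ideal.Quotient.mk m c ^ j := by
      obtain ⟨i, j, h1, h2⟩ := Finite.exists_ne_map_eq_of_infinite
        fun n : ℕ => Ideal.Quotient.mk m c ^ n
      exact h1.lt_or_gt.elim (fun h => ⟨i, j, h, h2⟩) fun h => ⟨j, i, h, h2.symm⟩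
    obtain ⟨n, rfl⟩ := Nat.exists_eq_add_of_lt hij
    refine ⟨n + 1, n.succ_pos, ?_⟩
    have h1 : c ^ (n + 1) - 1 ∈ m := Ideal.Quotient.eq.1 (mul_left_cancel₀ (pow_ne_zero i
      fun e => hc (Ideal.Quotient.eq_zero_iff_mem.1 e)) (by
        rw [map_pow, ← pow_add, ← add_assoc, ← e, map_one, mul_one]))
    have h2 := mt (zb_ut (q := m) _).1 (not_not.2 h1)
    exact (nu_iff_not (le_lc B m (c ^ _ - 1 : B).2)).2 h2
  rw [eq_div_of_mul_eq ub.1 e, div_eq_mul_inv]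
  exact (k a ((zb_ut a).1 ua)).mul ((k b hb).inv ub)

theorem zb_gen [CharZero K] (td : Td K) (D : Subring K) [h : IsRegularLocalRing D] :
    ∃ a b, Gen D a b := by
  have := D.subtype.charZero
  have h2 : ringKrullDim D ≤ 2 := iSup_le fun p => by
    by_contra! e
    have e' : 2 < p.length := by exact_mod_cast e
    let c : Fin 4 → PrimeSpectrum D := fun i => p ⟨i, by omega⟩
    have l : ∀ i j : Fin 4, i < j → (c i).asIdeal < (c j).asIdeal := fun i j e => p.strictMono e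
    exact za_no3 (zb_td td D) (c 1).2 (c 2).2 (c 3).2 (l 0 1 (by decide)).ne_bot (l 1 2 (by decide))
      (l 2 3 (by decide))
  rw [← h.spanFinrank_maximalIdeal] at h2
  obtain ⟨s, s1, s2⟩ := (IsNoetherian.noetherian (maximalIdeal D)).exists_span_finset_card_eq_spanFinrank
  have s3 : s.card ≤ 2 := by rw [s1]; exact_mod_cast h2
  obtain ⟨a, b, e⟩ : ∃ a b : D, maximalIdeal D = Ideal.span {a, b} := by
    rw [← s2]
    obtain e | e | e : s.card = 0 ∨ s.card = 1 ∨ s.card = 2 := by omega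
    · exact ⟨0, 0, by simp [Finset.card_eq_zero.1 e]⟩
    · obtain ⟨a, rfl⟩ := Finset.card_eq_one.1 e
      exact ⟨a, a, by simp⟩
    · classical
      obtain ⟨a, b, -, rfl⟩ := Finset.card_eq_two.1 e
      exact ⟨a, b, by simp⟩
  refine ⟨a, b, a.2, b.2, fun z => ⟨fun hz => ?_, ?_⟩⟩
  · obtain ⟨u, v, e'⟩ := Ideal.mem_span_pair.1 (e.le ((nu_iff ⟨z, hz.1⟩).1 hz))
    exact ⟨u, u.2, v, v.2, (congrArg Subtype.val e').symm⟩
  · rintro ⟨u, hu, v, hv, rfl⟩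
    exact (nu_iff (⟨u, hu⟩ * a + ⟨v, hv⟩ * b : D)).2 (e.ge (Ideal.mem_span_pair.2 ⟨_, _, rfl⟩))

theorem zb_rg [CharZero K] (td : Td K) (tr : ∃ t : K, Transcendental ℤ t) {B : Subring K}
    (fr : Fr B) [Algebra.FiniteType ℤ B] (m : Ideal B) [m.IsPrime] (hm : m.IsMaximal)
    (h : IsRegularLocalRing (lc B m)) : Rg (lc B m) := by
  have := za_fin m
  have := B.subtype.charZero
  have t := zb_tr tr fr
  obtain ⟨q, hq, q0, ql⟩ := za_two (B := B) (by obtain ⟨t, h⟩ := t; exact ⟨t, h⟩) m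
  obtain ⟨q', hq', l⟩ := (wLc K B).up m q ql.le
  exact ⟨inferInstance, inferInstance, zb_fr fr (le_lc B m), zb_alg m, zb_gen td _,
    q', hq', fun e => q0 (l.bot.1 e), fun e => ql.ne (l.max.1 e)⟩

theorem zb_cen {B S : Subring K} [IsLocalRing S] (h : B ≤ S) :
    ∃ (q : Ideal B) (_ : q.IsPrime), Dom (lc B q) S := by
  obtain ⟨q, hq, h1, h2⟩ := (wLc K B).cen S h
  refine ⟨q, hq, h1, fun z hz => (nu_or (h1 hz.1)).resolve_right fun u => hz.not ?_⟩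
  obtain ⟨a, b, hb, e⟩ := mem_lc.1 hz.1
  have ub := (zb_ut b).2 hb
  have ua : Ut S (a : K) := e ▸ u.mul (ub.mono h1)
  rw [eq_div_of_mul_eq ub.1 e]
  exact ((zb_ut a).2 fun k => (h2 a).1 k ((ut_iff (Subring.inclusion h a)).1 ua)).div ub

theorem zb_max {B : Subring K} (q : Ideal B) [hq : q.IsPrime] (h : Alg (lc B q)) : q.IsMaximal := by
  refine Ideal.isMaximal_iff.2 ⟨(Ideal.ne_top_iff_one q).1 hq.ne_top, fun J a hJ ha ha' => ?_⟩
  obtain ⟨j, hj, e⟩ := h a ((zb_ut a).2 ha)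
  have : a ^ j - 1 ∈ q := by_contra fun k => e.not ((zb_ut (a ^ j - 1)).2 k)
  simpa using sub_mem (J.pow_mem_of_mem ha' j hj) (hJ this)

/-- the charts -/
structure DcY {ι : Type} (ξ : ι → K) (B : ι → Subring K) {Pt : Type} [Preorder Pt]
    (O : Pt → Subring K) {κ : Pt → Type} [∀ z, Field (κ z)] (r : ∀ z, O z →+* κ z) : Prop where
  ex : ∃ i, ξ i ≠ 0
  gen : ∀ i S, ξ i ≠ 0 → (B i ≤ S ↔ ∀ j, ξ j / ξ i ∈ S)
  ft : ∀ i, ξ i ≠ 0 → Algebra.FiniteType ℤ (B i)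
  fr : ∀ i, ξ i ≠ 0 → Fr (B i)
  inj : Function.Injective O
  le : ∀ z z', z ≤ z' ↔ O z ≤ O z'
  cls : ∀ S : Subring K, (∃ z, O z = S) ↔
    ∃ i, ξ i ≠ 0 ∧ ∃ (q : Ideal (B i)) (_ : q.IsPrime), S = lc _ q
  surj : ∀ z, Function.Surjective (r z)
  ker : ∀ z a, r z a = 0 ↔ ¬IsUnit a
  reg : ∀ z, IsRegularLocalRing (O z)

theorem geoY (hD : DvS) (hR : RgS) [CharZero K] (td : Td K) (tr : ∃ t : K, Transcendental ℤ t)
    {ι : Type} [Fintype ι] {ξ : ι → K} {B : ι → Subring K} {Pt : Type} [Preorder Pt]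
    {O : Pt → Subring K} {κ : Pt → Type} [∀ z, Field (κ z)] {r : ∀ z, O z →+* κ z}
    (d : DcY ξ B O r) : GeoY ξ O r ∧ ∀ z, O z = ⊤ → Order.height z = 2 := by
  classical
  have pt := fun z => (d.cls (O z)).1 ⟨z, rfl⟩
  have rf : ∀ S : Subring K, Dom S S := fun S => ⟨le_rfl, fun _ h => h⟩
  have mono : ∀ (z z' : Pt) (S S' : Subring K), Dom (O z) S → Dom (O z') S' → S ≤ S' →
      O z ≤ O z' := fun z z' S S' h h' l => by
    obtain ⟨i, hi, q, _, e⟩ := pt z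
    obtain ⟨j, hj, q', _, e'⟩ := pt z'
    have b1 : B i ≤ S' := ((le_lc _ q).trans (e ▸ h.1)).trans l
    have b2 := (d.gen j _ hj).1 ((le_lc _ q').trans e'.ge)
    have u : Ut (O z') (ξ i / ξ j) := h'.ut (b2 i)
      ⟨div_ne_zero hi hj, h'.1 (b2 i), by rw [inv_div]; exact (d.gen i _ hi).1 b1 j⟩
    have b3 : B i ≤ O z' := (d.gen i _ hi).2 fun k => by
      have := mul_mem (b2 k) u.2.2
      rwa [inv_div, div_mul_div_cancel₀ hj] at this
    intro w hw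
    obtain ⟨a, b, hb, e1⟩ := mem_lc.1 (e.le hw)
    have ub : Ut (O z') (b : K) := h'.ut (b3 b.2) ((((zb_ut b).2 hb).mono (e ▸ h.1)).mono l)
    rw [eq_div_of_mul_eq ub.1 e1, div_eq_mul_inv]
    exact mul_mem (b3 a.2) ub.2.2
  have mn : ∀ z z', Alg (O z) → O z' ≤ O z → z' = z := fun z z' h l => by
    obtain ⟨j, hj, q', _, e'⟩ := pt z'
    have := (d.reg z).toIsLocalRing
    obtain ⟨q, hq, c⟩ := zb_cen (((le_lc _ q').trans e'.ge).trans l)
    obtain ⟨w, hw⟩ := (d.cls _).2 ⟨j, hj, q, hq, rfl⟩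
    have e : O z = lc _ q := le_antisymm (hw ▸ mono z w _ _ (rf _) (hw ▸ c) le_rfl) c.1
    obtain rfl : q = q' := (zb_max q (e ▸ h)).eq_of_le (Ideal.IsPrime.ne_top ‹_›)
      (((wLc K _).le q' q).1 (e' ▸ e ▸ l))
    exact d.inj (e'.trans e.symm)
  have up : ∀ z, ∃ z', Rg (O z') ∧ O z' ≤ O z ∧ (z = z' ∨ H1 (O z') (O z) ∨ O z = ⊤) := fun z => by
    obtain ⟨i, hi, q, hq, e⟩ := pt z
    obtain ⟨m, hm, l⟩ := q.exists_le_maximal hq.ne_top
    have := hm.isPrime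
    have := d.ft i hi
    obtain ⟨w, hw⟩ := (d.cls _).2 ⟨i, hi, m, ‹_›, rfl⟩
    refine ⟨w, hw ▸ zb_rg td tr (d.fr i hi) m hm (hw ▸ d.reg w),
      by rw [hw, e]; exact ((wLc K _).le m q).2 l, ?_⟩
    obtain ⟨q', hq', k⟩ := (wLc K _).up m q l
    by_cases h1 : q = m
    · subst h1; exact .inl (d.inj (e.trans hw.symm))
    by_cases h2 : q = ⊥
    · exact .inr (.inr (e.trans (((wLc K _).top q (d.fr i hi)).2 h2)))
    · exact .inr (.inl (hw ▸ ⟨q', hq', fun x => h2 (k.bot.1 x), fun x => h1 (k.max.1 x),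
        e.trans k.eq.symm⟩))
  have dn : ∀ z S, H1 (O z) S → ∃ C, O C = S := fun z S h => by
    obtain ⟨i, hi, q, hq, e⟩ := pt z
    rw [e] at h
    obtain ⟨q', _, -, -, rfl⟩ := h
    obtain ⟨q₀, h0, k⟩ := (wLc K _).dn q q'
    exact (d.cls _).2 ⟨i, hi, q₀, h0, k.eq⟩
  have ex : ∀ S : Subring K, Rg S → ¬Dvr S := fun S h h' => by
    obtain ⟨q, hq, q0, q1⟩ := h.cur
    have := h'.dvr
    exact q1 (IsPrime.to_maximal_ideal q0)
  have ht := wHt K Pt O (fun z => Rg (O z)) (fun z => Dvr (O z)) d.inj d.le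
    (fun z => by
      obtain ⟨w, h, -, rfl | e | e⟩ := up z
      exacts [.inl h, .inr (.inl ((hR K _ h).dvr _ e).1), .inr (.inr e)])
    (fun z z' h => mn z z' h.alg)
    (fun z z' h l => ((hD K _ h).max _ l).imp_left fun e => d.inj e)
    (fun z h => ⟨(hD K _ h).ne, (up z).imp fun w k => ⟨k.1, k.2.1, fun e => ex _ k.1 (e ▸ h)⟩⟩)
    (by
      obtain ⟨i, hi⟩ := d.ex
      obtain ⟨z, -⟩ := (d.cls _).2 ⟨i, hi, ⊥, Ideal.isPrime_bot, rfl⟩
      obtain ⟨w, h, -⟩ := up z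
      obtain ⟨q, hq, q0, q1⟩ := h.cur
      obtain ⟨C, hC⟩ := dn w _ ⟨q, hq, q0, q1, rfl⟩
      exact ⟨C, hC ▸ ((hR K _ h).dvr _ ⟨q, hq, q0, q1, rfl⟩).1⟩)
  refine ⟨⟨d.ex, d.inj, fun z => ?_, fun z => (ht z).1.1, fun C hC => ?_, fun S _ h => ?_,
    fun V hV => ?_, mono, fun z S hz => ⟨fun h => ?_, ?_⟩,
    fun z z' h => mn z' z ((ht z').1.1 h).alg,
    fun z h => Order.height_eq_zero.2 fun z' l => (mn z z' h ((d.le _ _).1 l)).ge, fun f => ?_⟩,
    fun z => (ht z).2.2⟩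
  · obtain ⟨w, h, -, rfl | e | e⟩ := up z
    exacts [.inl ((ht _).1.2 h), .inr (.inl ((ht _).2.1.2 ((hR K _ h).dvr _ e).1)), .inr (.inr e)]
  · exact ⟨((ht C).2.1.1 hC).dvr, ((ht C).2.1.1 hC).fr, d.surj C, d.ker C⟩
  · obtain ⟨i, hi, h⟩ := h
    obtain ⟨q, hq, c⟩ := zb_cen ((d.gen i S hi).2 h)
    obtain ⟨w, hw⟩ := (d.cls _).2 ⟨i, hi, q, hq, rfl⟩
    exact ⟨w, hw ▸ c⟩
  · have A := hD K V hV
    obtain ⟨i, hi, h⟩ := (Finset.univ.filter fun i => ξ i ≠ 0).exists_min_image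
      (fun i => ordR V (ξ i)) (d.ex.imp fun i hi => by simpa using hi)
    rw [Finset.mem_filter] at hi
    refine ⟨i, hi.2, fun j => ?_⟩
    by_cases hj : ξ j = 0
    · rw [hj, zero_div]; exact V.zero_mem
    have n := div_ne_zero hj hi.2
    have := A.mul _ _ n hi.2
    rw [div_mul_cancel₀ _ hi.2] at this
    have := h j (by simpa using hj)
    exact (A.mem _ n).2 (by omega)
  · obtain ⟨C, rfl⟩ := dn z S h
    have k := (hR K _ ((ht z).1.1 hz)).dvr _ h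
    exact ⟨C, (ht C).2.1.2 k.1, rfl, k.2.1⟩
  · rintro ⟨C, hC, rfl, l⟩
    refine ((hR K _ ((ht z).1.1 hz)).cen _ ((ht C).2.1.1 hC) l).resolve_right fun k => ?_
    exact ex _ ((ht z).1.1 hz) (le_antisymm (mono C z _ _ (rf _) k le_rfl) l ▸ (ht C).2.1.1 hC)
  · by_cases hf : f = 0
    · exact Set.finite_empty.subset fun C hC => hC.2 (dif_neg fun z => z.1 hf)
    choose a b hb e using fun i hi => d.fr i hi f
    refine ((Set.finite_iUnion fun i : {i // ξ i ≠ 0} =>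
      (have := d.ft i i.2
       have := Algebra.FiniteType.isNoetherianRing ℤ (B i)
       Ideal.finite_minimalPrimes_of_isNoetherianRing _
        (Ideal.span {a i i.2 * b i i.2})).dependent_image fun q hq =>
        @lc K _ _ q hq.1.1).preimage d.inj.injOn).subset fun C hC => ?_
    obtain ⟨i, hi, q, _, h3⟩ := pt C
    have A := hD K _ ((ht C).2.1.1 hC.1)
    have ha : (a i hi : K) ≠ 0 := e i hi ▸ mul_ne_zero hf (hb i hi)
    have hq : a i hi * b i hi ∈ q := by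
      by_contra z
      have a1 := (A.ut _).1 (h3 ▸ (zb_ut _).2 fun w => z (q.mul_mem_right _ w))
      have b1 := (A.ut _).1 (h3 ▸ (zb_ut _).2 fun w => z (q.mul_mem_left _ w))
      have := A.mul f _ hf (hb i hi)
      rw [e, a1.2, b1.2, add_zero] at this
      exact hC.2 this.symm
    obtain ⟨q0, m0, l0⟩ := Ideal.exists_minimalPrimes_le ((Ideal.span_singleton_le_iff_mem q).2 hq)
    have := m0.1.1
    refine Set.mem_iUnion.2 ⟨⟨i, hi⟩, q0, m0, ?_⟩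
    refine (A.max _ (h3 ▸ ((wLc K _).le q q0).2 l0)).resolve_right fun z => ?_
    have := m0.1.2 (Ideal.mem_span_singleton_self _)
    rw [((wLc K _).top q0 (d.fr i hi)).1 z, Ideal.mem_bot] at this
    exact mul_ne_zero ha (hb i hi) (congrArg Subtype.val this)

end Pool.Agent.MP_f3836a_nt.VE.Z
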