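import Pool.Agent.MP_f3836a_nt.PK.BasicG
import Pool.Agent.MP_f3836a_nt.PK.EDVA

/-! The boundary map at a discrete valuation ring is the tame symbol. -/

set_option autoImplicit false

namespace Pool.Agent.MP_f3836a_nt.VE.W

open IsLocalRing PK

theorem sb_bdry {A L : Type} [CommRing A] [IsLocalRing A] [Field L] (e : A →+* L)
    (r : e.range →+* ResidueField A) (hr : ∀ a, r ⟨e a, a, rfl⟩ = residue A a)
    (hd : DV e.range r) {f g : L} (hf : f ≠ 0) (hg : g ≠ 0) :
    PT.bdry e f g = tameR e.range r f g := by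
  classical
  have D := rDVA _ _ _ _ hd
  obtain ⟨V, hV⟩ := D.val
  have mem : ∀ a, e a ∈ V := fun a => (hV.ge ⟨a, rfl⟩ : e a ∈ V.toSubring)
  have h0 : PT.Dom e V := fun a => ⟨mem a, fun ha => by
    rw [ValuationSubring.mem_nonunits_iff_or]
    by_contra hn
    rw [not_or, not_not] at hn
    refine (hd.ker ⟨e a, a, rfl⟩).1 ((hr a).trans ((residue_eq_zero_iff a).2 ha))
      (IsUnit.of_mul_eq_one ⟨(e a)⁻¹, hV.le hn.2⟩ (Subtype.ext (mul_inv_cancel₀ hn.1)))⟩
  have uniq : ∀ U : ValuationSubring L, PT.Dom e U → U = V := fun U hU => by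
    rcases D.max U.toSubring (by rintro _ ⟨a, rfl⟩; exact (hU a).1) with h | h
    · exact ValuationSubring.toSubring_injective (h.trans hV.symm)
    · obtain ⟨π, p0, p1⟩ := D.uni
      obtain ⟨a, rfl⟩ := (D.mem π p0).2 (by omega)
      have ha : a ∈ maximalIdeal A := fun hu => by
        have := (D.unit' _ (hu.map e.rangeRestrict)).2
        exact zero_ne_one (this.symm.trans p1)
      rcases (ValuationSubring.mem_nonunits_iff_or _).1 ((hU a).2 ha) with h1 | h1
      · exact absurd h1 p0
      · exact absurd (h.ge trivial : (e a)⁻¹ ∈ U.toSubring) h1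
  rw [bdry_eq, finprod_eq_single (fun U : ValuationSubring L => ∏ᶠ h : PT.Dom e U,
    nrmO (PT.toRes h) (tameR U.toSubring (resW U) f g)) V fun U hU =>
      (finprod_eq_dif _).trans (dif_neg fun h => hU (uniq U h)), finprod_eq_dif, dif_pos h0]
  obtain ⟨t0, t1⟩ := D.tE f g hf hg
  obtain ⟨a, ha⟩ := (D.mem _ t0).2 t1.ge
  have e1 : tameR e.range r f g = residue A a := by
    rw [tameR, ← ha, resR, dif_pos ⟨a, rfl⟩, hr]
  have e2 : tameR V.toSubring (resW V) f g = PT.toRes h0 (residue A a) := by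
    have : tameE V.toSubring f g = e a := by rw [hV, ha]
    rw [tameR, this, resR, dif_pos (show e a ∈ V.toSubring from mem a), toRes_residue]
    rfl
  rw [e1, e2]
  let _ := (PT.toRes h0).toAlgebra
  have : Module.finrank (ResidueField A) (ResidueField V) = 1 :=
    Algebra.finrank_eq_one_iff_bijective_algebraMap.2 ⟨(PT.toRes h0).injective, fun t => by
      obtain ⟨⟨s, hs⟩, rfl⟩ := residue_surjective t
      obtain ⟨b, rfl⟩ := hV.le hs
      exact ⟨residue A b, rfl⟩⟩
  exact (Algebra.norm_algebraMap _).trans (by rw [this, pow_one])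

end Pool.Agent.MP_f3836a_nt.VE.W
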