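import Pool.Agent.MP_f3836a_nt.VE.WSa
import Pool.Agent.MP_f3836a_nt.PK.SDict
import Pool.Agent.MP_f3836a_nt.PK.SComp

/-! Affine charts of an irreducible closed subscheme of projective space. -/

set_option autoImplicit false

namespace Pool.Agent.MP_f3836a_nt.VE.W

open MvPolynomial IsLocalRing AlgebraicGeometry CategoryTheory PK PS

variable {Y : Scheme.{0}} {N : ℕ} {P : Y → Ideal (MvPolynomial (Fin (N + 1)) ℤ)}
  {fr : ∀ z : Y, MvPolynomial (Fin (N + 1)) ℤ → MvPolynomial (Fin (N + 1)) ℤ → Y.presheaf.stalk z}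

variable (P fr) in
/-- evaluation at the point `y` in the chart `i` -/
structure Ch (y : Y) (i : Fin (N + 1)) (E : MvPolynomial (Fin (N + 1)) ℤ →+* Y.residueField y) :
    Prop where
  one : E (X i) = 1
  val : ∀ (z : Y) (h : y ⤳ z) (n : ℕ) (A B : MvPolynomial (Fin (N + 1)) ℤ), A.IsHomogeneous n →
    B.IsHomogeneous n → B ∉ P z → ev h (fr z A B) * E B = E A

theorem sc_ex (H : PrA Y N P fr) (y : Y) (i : Fin (N + 1)) (hi : X i ∉ P y) :
    ∃ E, Ch P fr y i E := by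
  have hip : ∀ n : ℕ, (X i ^ n : MvPolynomial (Fin (N + 1)) ℤ) ∉ P y := fun n h =>
    hi ((H.prime y).mem_of_pow_mem n h)
  have r0 : y ⤳ y := specializes_refl y
  let E : MvPolynomial (Fin (N + 1)) ℤ →+* Y.residueField y :=
    eval₂Hom (Int.castRingHom _) fun j => ev r0 (fr y (X j) (X i ^ 1))
  have k1 : ∀ (n : ℕ) (A : MvPolynomial (Fin (N + 1)) ℤ), A.IsHomogeneous n →
      ev r0 (fr y A (X i ^ n)) = E A := by
    refine SDict.key (fun n A => ev r0 (fr y A (X i ^ n))) E (fun n A A' hA hA' => ?_)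
      (fun n n' A A' hA hA' => ?_) ?_ fun j => by simp only [E, eval₂Hom_X']
    · rw [H.add y n A A' _ hA hA' (isHomogeneous_X_pow _ _) (hip n), map_add]
    · rw [pow_add, H.mul y n n' A _ A' _ hA (isHomogeneous_X_pow _ _) hA' (isHomogeneous_X_pow _ _)
        (hip n) (hip n'), map_mul]
    · have := H.self y 0 (X i ^ 0) (isHomogeneous_X_pow _ _) (hip 0)
      rw [pow_zero] at this ⊢
      rw [this, map_one]
  refine ⟨E, ?_, fun z h n A B hA hB hz => ?_⟩
  · rw [← k1 1 _ (isHomogeneous_X _ _), pow_one, H.self y 1 _ (isHomogeneous_X _ _) hi, map_one]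
  · have hy : B ∉ P y := fun hh => hz ((H.le y z).1 h hh)
    have e1 : ev h (fr z A B) = ev r0 (fr y A B) := by
      rw [← H.res y z h n A B hA hB hz, ← ev_trans r0 h]
    have e2 := H.mul y n n A B B (X i ^ n) hA hB hB (isHomogeneous_X_pow _ _) hy (hip n)
    have e3 := H.mul y n n B B A (X i ^ n) hB hB hA (isHomogeneous_X_pow _ _) hy (hip n)
    rw [H.self y n B hB hy, one_mul, mul_comm B A, e2] at e3
    rw [e1, ← k1 n B hB, ← map_mul, e3, k1 n A hA]

variable {y : Y} {i : Fin (N + 1)} {E : MvPolynomial (Fin (N + 1)) ℤ →+* Y.residueField y}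

theorem Ch.pw (c : Ch P fr y i E) (H : PrA Y N P fr) {z : Y} (h : y ⤳ z) (hz : X i ∉ P z) {n : ℕ}
    {A : MvPolynomial (Fin (N + 1)) ℤ} (hA : A.IsHomogeneous n) :
    ev h (fr z A (X i ^ n)) = E A ∧ (Y.residue z (fr z A (X i ^ n)) = 0 ↔ A ∈ P z) := by
  have h1 : X i ^ n ∉ P z := fun hh => hz ((H.prime z).mem_of_pow_mem n hh)
  have h2 := c.val z h n A _ hA (isHomogeneous_X_pow _ _) h1
  rw [map_pow, c.one, one_pow, mul_one] at h2
  exact ⟨h2, (residue_eq_zero_iff _).trans (H.mem z n A _ hA (isHomogeneous_X_pow _ _) h1)⟩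

theorem Ch.zero (c : Ch P fr y i E) (H : PrA Y N P fr) (hi : X i ∉ P y) {n : ℕ}
    {A : MvPolynomial (Fin (N + 1)) ℤ} (hA : A.IsHomogeneous n) : E A = 0 ↔ A ∈ P y := by
  obtain ⟨h1, h2⟩ := c.pw H (specializes_refl y) hi hA
  rw [← h1, ← h2, SComp.ev_res, sp_refl]

/-- a prime of the chart which matches a point -/
def Mt (P : Ideal (MvPolynomial (Fin (N + 1)) ℤ)) {K : Type} [Field K]
    (E : MvPolynomial (Fin (N + 1)) ℤ →+* K) (q : Ideal E.range) : Prop :=
  ∀ (n : ℕ) (G : MvPolynomial (Fin (N + 1)) ℤ), G.IsHomogeneous n → (G ∈ P ↔ E.rangeRestrict G ∈ q)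

theorem Ch.loc (c : Ch P fr y i E) (H : PrA Y N P fr) {z : Y} (h : y ⤳ z) (q : Ideal E.range)
    [hq : q.IsPrime] (m : Mt (P z) E q) : (ev h).range = lc _ q := by
  ext f
  rw [mem_lc]
  constructor
  · rintro ⟨a, rfl⟩
    obtain ⟨n, A, B, hA, hB, hP, rfl⟩ := H.surj z a
    exact ⟨E.rangeRestrict A, E.rangeRestrict B, fun e => hP ((m n B hB).2 e),
      c.val z h n A B hA hB hP⟩
  · rintro ⟨⟨_, A, rfl⟩, ⟨_, B, rfl⟩, hb, e⟩
    obtain ⟨n, A', a1, a2⟩ := sa_hom i A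
    obtain ⟨k, B', b1, b2⟩ := sa_hom i B
    have hB : (X i ^ n * B').IsHomogeneous (n + k) := (isHomogeneous_X_pow _ _).mul b1
    have eB : E (X i ^ n * B') = E B := by rw [map_mul, map_pow, c.one, one_pow, one_mul, b2 _ E c.one]
    have := c.val z h (n + k) (A' * X i ^ k) _ (a1.mul (isHomogeneous_X_pow _ _)) hB fun e' =>
      hb ((Subtype.ext eB : E.rangeRestrict _ = ⟨_, B, rfl⟩) ▸ (m _ _ hB).1 e')
    rw [eB, map_mul, map_pow, c.one, one_pow, mul_one, a2 _ E c.one] at this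
    refine ⟨_, mul_right_cancel₀ (fun b0 : E B = 0 => hb ?_) (this.trans e.symm)⟩
    rw [show (⟨_, B, rfl⟩ : E.range) = 0 from Subtype.ext b0]
    exact q.zero_mem

theorem Ch.to (c : Ch P fr y i E) (H : PrA Y N P fr) {z : Y} (h : y ⤳ z) (hz : X i ∉ P z) :
    ∃ (q : Ideal E.range) (_ : q.IsPrime), Mt (P z) E q := by
  obtain ⟨r, hr⟩ := SComp.exists_rs h _ rfl
  have hle : E.range ≤ (ev h).range := by
    rintro _ ⟨A, rfl⟩
    obtain ⟨n, A', a1, a2⟩ := sa_hom i A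
    exact ⟨_, (c.pw H h hz a1).1.trans (a2 _ E c.one)⟩
  refine ⟨RingHom.ker (r.comp (Subring.inclusion hle)), RingHom.ker_isPrime _, fun n G hG => ?_⟩
  obtain ⟨h1, h2⟩ := c.pw H h hz hG
  rw [← h2, ← hr _ ⟨_, rfl⟩, RingHom.mem_ker, RingHom.comp_apply]
  exact Iff.of_eq (congrArg (r · = 0) (Subtype.ext h1))

attribute [local instance] MvPolynomial.gradedAlgebra in
theorem Ch.of (c : Ch P fr y i E) (H : PrA Y N P fr) (hi : X i ∉ P y) (q : Ideal E.range)
    [hq : q.IsPrime] : ∃ (z : Y) (h : y ⤳ z), (ev h).range = lc _ q := by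
  let Q := (q.comap E.rangeRestrict).homogeneousCore (homogeneousSubmodule (Fin (N + 1)) ℤ)
  have m : Mt Q.toIdeal E q := fun n G hG =>
    ⟨fun h => Ideal.toIdeal_homogeneousCore_le _ (q.comap E.rangeRestrict) h,
    fun h => Ideal.mem_homogeneousCore_of_homogeneous_of_mem ⟨n, hG⟩ h⟩
  have hle : P y ≤ Q.toIdeal := fun G hG => by
    rw [← sum_homogeneousComponent G]
    refine Ideal.sum_mem _ fun n _ => (m n _ (homogeneousComponent_isHomogeneous _ _)).2 ?_
    rw [show E.rangeRestrict _ = 0 from Subtype.ext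
      ((c.zero H hi (homogeneousComponent_isHomogeneous _ _)).2 (H.hom y G hG n))]
    exact q.zero_mem
  obtain ⟨z, hz⟩ := H.up y Q.toIdeal (Ideal.IsPrime.homogeneousCore (Ideal.comap_isPrime _ _))
    (fun G hG n => homogeneousComponent_mem_of_mem Q.isHomogeneous hG n)
    ⟨i, fun h => (Ideal.ne_top_iff_one _).1 hq.ne_top
      ((Subtype.ext c.one : E.rangeRestrict _ = 1) ▸ (m 1 _ (isHomogeneous_X _ _)).1 h)⟩ hle
  exact ⟨z, (H.le y z).2 (hz ▸ hle), c.loc H _ q (hz ▸ m)⟩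

theorem Ch.le (c : Ch P fr y i E) (H : PrA Y N P fr) (hi : X i ∉ P y) {z z' : Y} (h : y ⤳ z)
    (h' : y ⤳ z') : z' ⤳ z ↔ (ev h).range ≤ (ev h').range := by
  constructor
  · rintro hh _ ⟨a, rfl⟩
    exact ⟨_, (ev_trans h' hh a).symm⟩
  · intro hle
    refine (H.le _ _).2 fun G hG => ?_
    rw [← sum_homogeneousComponent G]
    refine Ideal.sum_mem _ fun n _ => by_contra fun hn => ?_
    have h1 := H.hom z' G hG n
    have hG' := homogeneousComponent_isHomogeneous n G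
    generalize homogeneousComponent n G = A at hn h1 hG'
    obtain ⟨j, hj⟩ := H.good z'
    obtain ⟨a, ha⟩ := hle ⟨fr z (X j ^ n) A, rfl⟩
    obtain ⟨k, A', B', a1, b1, hP, rfl⟩ := H.surj z' a
    have e1 := c.val z h n _ A (isHomogeneous_X_pow j n) hG' hn
    have e2 := c.val z' h' k A' B' a1 b1 hP
    have e3 : X j ^ n * B' - A * A' ∈ P z' := (H.le _ _).1 h' ((c.zero H hi
      (((isHomogeneous_X_pow j n).mul b1).sub (hG'.mul a1))).1 (by
        rw [map_sub, map_mul, map_mul, ← e1, ← e2, ha]; ring))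
    have e4 := add_mem e3 (Ideal.mul_mem_right A' _ h1)
    rw [sub_add_cancel] at e4
    exact ((H.prime z').mem_or_mem e4).elim (fun e => hj ((H.prime z').mem_of_pow_mem n e)) hP

end Pool.Agent.MP_f3836a_nt.VE.W
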