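import Pool.Agent.MP_f3836a_nt.VE.Defs

/-! Part A: symbol functionals on the coordinate ring of `y² = f`. -/

set_option autoImplicit false

namespace Pool.Agent.MP_f3836a_nt.VE.A

open Polynomial

/-- `R = ℚ[x, y] / (y² - f)` with `f` a separable monic cubic -/
structure Model {R : Type} [CommRing R] [Algebra ℚ R] (x y : R) (f : ℚ[X]) : Prop where
  monic : f.Monic
  deg : f.natDegree = 3
  sep : f.Separable
  eq : y ^ 2 = aeval x f
  gen : ∀ r : R, ∃ A B : ℚ[X], r = aeval x A + aeval x B * y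
  ind : ∀ A B : ℚ[X], aeval x A + aeval x B * y = 0 → A = 0 ∧ B = 0

/-- places, orders of vanishing and a real function at each place -/
structure Sy (R ι : Type) [CommRing R] where
  P : ι → Ideal R
  ord : ι → R → ℕ
  lam : ι → R → ℝ

namespace Sy

variable {R ι : Type} [CommRing R] (S : Sy R ι)

/-- the pairing -/
noncomputable def L (g u : R) : ℝ := ∑ᶠ v, (S.ord v g : ℝ) * S.lam v u

/-- homomorphisms on the residue fields which kill tame symbols -/
structure Ok : Prop where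
  max : ∀ v, (S.P v).IsMaximal
  inj : Function.Injective S.P
  sur : ∀ M : Ideal R, M.IsMaximal → ∃ v, S.P v = M
  fin : ∀ g, g ≠ 0 → {v | g ∈ S.P v}.Finite
  ord0 : ∀ v g, g ≠ 0 → (S.ord v g = 0 ↔ g ∉ S.P v)
  lam0 : ∀ v u, u ∈ S.P v → S.lam v u = 0
  lamm : ∀ v u u', u ∉ S.P v → u' ∉ S.P v → S.lam v (u * u') = S.lam v u + S.lam v u'
  lamc : ∀ v u u', u - u' ∈ S.P v → S.lam v u = S.lam v u'
  sym : ∀ g u, g ≠ 0 → u ≠ 0 → (∀ v, g ∈ S.P v → u ∈ S.P v → ∀ r, S.lam v r = 0) →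
    S.L g u = S.L u g

/-- the pairing with `h` vanishes -/
def Z (h : R) : Prop := ∀ u, IsCoprime h u → S.L h u = 0

variable {S}

theorem Ok.L_eq (h : S.Ok) {g : R} (hg : g ≠ 0) (u : R) :
    S.L g u = ∑ v ∈ (h.fin g hg).toFinset, (S.ord v g : ℝ) * S.lam v u := by
  refine finsum_eq_sum_of_support_subset _ fun v hv => ?_
  simp only [Set.Finite.coe_toFinset, Set.mem_ofPred_eq]
  by_contra hn
  exact hv (by simp [(h.ord0 v g hg).2 hn])

theorem Ok.cop (h : S.Ok) {g u : R} : IsCoprime g u ↔ ∀ v, g ∈ S.P v → u ∉ S.P v := by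
  constructor
  · rintro ⟨a, b, e⟩ v h1 h2
    exact (h.max v).ne_top ((Ideal.eq_top_iff_one _).2
      (e ▸ add_mem (Ideal.mul_mem_left _ _ h1) (Ideal.mul_mem_left _ _ h2)))
  · intro H
    rw [← Ideal.isCoprime_span_singleton_iff, Ideal.isCoprime_iff_sup_eq]
    by_contra hn
    obtain ⟨M, hM, hle⟩ := Ideal.exists_le_maximal _ hn
    obtain ⟨v, rfl⟩ := h.sur M hM
    exact H v (hle (Ideal.mem_sup_left (Ideal.mem_span_singleton_self g)))
      (hle (Ideal.mem_sup_right (Ideal.mem_span_singleton_self u)))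

theorem Ok.L_mul (h : S.Ok) {g u u' : R} (hg : g ≠ 0) (h1 : IsCoprime g u) (h2 : IsCoprime g u') :
    S.L g (u * u') = S.L g u + S.L g u' := by
  rw [h.L_eq hg, h.L_eq hg, h.L_eq hg, ← Finset.sum_add_distrib]
  refine Finset.sum_congr rfl fun v hv => ?_
  have hv' : g ∈ S.P v := by simpa using hv
  rw [h.lamm v u u' (h.cop.1 h1 v hv') (h.cop.1 h2 v hv'), mul_add]

theorem Ok.L_congr' (h : S.Ok) {g u u' : R} (hg : g ≠ 0) (e : ∀ v, g ∈ S.P v → u - u' ∈ S.P v) :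
    S.L g u = S.L g u' := by
  rw [h.L_eq hg, h.L_eq hg]
  exact Finset.sum_congr rfl fun v hv => by rw [h.lamc v u u' (e v (by simpa using hv))]

theorem Ok.L_congr (h : S.Ok) {g u u' : R} (hg : g ≠ 0) (e : g ∣ u - u') : S.L g u = S.L g u' :=
  h.L_congr' hg fun _ hv => Ideal.mem_of_dvd _ e hv

theorem Ok.L_symm (h : S.Ok) {g u : R} (hg : g ≠ 0) (hu : u ≠ 0) (hc : IsCoprime g u) :
    S.L g u = S.L u g := h.sym g u hg hu fun v h1 h2 => absurd h2 (h.cop.1 hc v h1)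

theorem Ok.L_unit_left (h : S.Ok) [Nontrivial R] {c : R} (hc : IsUnit c) (u : R) : S.L c u = 0 := by
  rw [h.L_eq hc.ne_zero]
  refine Finset.sum_eq_zero fun v hv => ?_
  exact absurd (Ideal.eq_top_of_isUnit_mem _ (by simpa using hv) hc) (h.max v).ne_top

theorem Ok.L_unit (h : S.Ok) [Nontrivial R] {g c : R} (hg : g ≠ 0) (hc : IsUnit c) : S.L g c = 0 := by
  obtain ⟨w, rfl⟩ := hc
  rw [h.L_symm hg w.ne_zero ⟨0, (w⁻¹ : Rˣ), by simp⟩, h.L_unit_left w.isUnit]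

end Sy

/-- the conclusion of the analytic part: the pairing vanishes on all rational fibres -/
def Fibres : Prop := ∀ {R ι : Type} [CommRing R] [IsDomain R] [Algebra ℚ R] (x y : R) (f : ℚ[X])
  (S : Sy R ι), Model x y f → S.Ok → ∀ t : ℚ, S.Z (x - algebraMap ℚ R t)

/-- single slope at `p` -/
def SS (N : ℤ[X]) (t0 : ℤ) (p n σ : ℕ) : Prop := ∃ M : ℤ[X], M.Monic ∧ ¬(p : ℤ) ∣ M.coeff 0 ∧
  N.comp (C t0 + C ((p : ℤ) ^ σ) * X) = C ((p : ℤ) ^ (n * σ)) * M

end Pool.Agent.MP_f3836a_nt.VE.A
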