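import Pool.Agent.MP_f3836a_nt.PK.DefsT

set_option autoImplicit false

namespace Pool.Agent.MP_f3836a_nt.VE.T

open IsLocalRing

/-- A place of `F` over the rationals: a proper valuation ring containing the rationals. -/
@[ext] structure Place (F : Type) [Field F] [Algebra ℚ F] where
  V : ValuationSubring F
  ne : V ≠ ⊤
  const : ∀ q : ℚ, algebraMap ℚ F q ∈ V

variable {F : Type} [Field F] [Algebra ℚ F]

/-- The map from the rationals to the residue field. -/
noncomputable def Place.emb (P : Place F) : ℚ →+* ResidueField P.V :=
  (residue P.V).comp ((algebraMap ℚ F).codRestrict P.V P.const)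

/-- The norm from the residue field to the rationals. -/
noncomputable def Place.nm (P : Place F) (a : ResidueField P.V) : ℚ :=
  letI := P.emb.toAlgebra
  Algebra.norm ℚ a

end Pool.Agent.MP_f3836a_nt.VE.T
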