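import Pool.Agent.MP_f3836a_nt.PK.EDVA
import Pool.Agent.MP_f3836a_nt.PK.EDual
import Pool.Agent.MP_f3836a_nt.VE.DefsV
import Pool.Agent.MP_f3836a_nt.VE.DefsA

set_option autoImplicit false

/-! The top end: places of the function field, Weil reciprocity, generation. -/

namespace Pool.Agent.MP_f3836a_nt.VE.T

open Polynomial IsLocalRing PK VE.A

section
variable {F : Type} [Field F] [Algebra ℚ F]

noncomputable instance Place.alg (P : Place F) : Algebra ℚ (ResidueField P.V) := P.emb.toAlgebra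

theorem Place.nm_eq (P : Place F) (a : ResidueField P.V) : P.nm a = Algebra.norm ℚ a := rfl

theorem Place.alg_eq (P : Place F) (q : ℚ) : algebraMap ℚ (ResidueField P.V) q = P.emb q := rfl

/-- the residue map -/
noncomputable def Place.r (P : Place F) : P.V.toSubring →+* ResidueField P.V := residue P.V

/-- the order -/
noncomputable def Place.ord (P : Place F) (g : F) : ℤ := ordR P.V.toSubring g

/-- the value -/
noncomputable def Place.res (P : Place F) (g : F) : ResidueField P.V := resR P.V.toSubring P.r g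

/-- the tame symbol -/
noncomputable def Place.tame (P : Place F) (g h : F) : ResidueField P.V :=
  tameR P.V.toSubring P.r g h

theorem Place.tame_eq (P : Place F) (g h : F) : PT.tameW P.V g h = P.tame g h := rfl

/-- the degree -/
noncomputable def Place.deg (P : Place F) : ℕ := Module.finrank ℚ (ResidueField P.V)

theorem Place.dv (P : Place F) (h : IsDiscreteValuationRing P.V) : DV P.V.toSubring P.r where
  dvr := h
  frac f := by
    rcases P.V.mem_or_inv_mem f with e | e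
    · exact ⟨⟨f, e⟩, 1, one_ne_zero, mul_one f⟩
    · by_cases f0 : f = 0
      · exact ⟨0, 1, one_ne_zero, by simp [f0]⟩
      · exact ⟨1, ⟨f⁻¹, e⟩, inv_ne_zero f0, mul_inv_cancel₀ f0⟩
  surj := residue_surjective
  ker a := (residue_eq_zero_iff (R := P.V) a).trans mem_nonunits_iff

theorem Place.dva (P : Place F) (h : IsDiscreteValuationRing P.V) : DVA P.V.toSubring P.r :=
  rDVA _ _ _ _ (P.dv h)

theorem Place.res_mem (P : Place F) {g : F} (hg : g ∈ P.V) : P.res g = residue P.V ⟨g, hg⟩ :=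
  dif_pos hg

theorem Place.res_const (P : Place F) (q : ℚ) : P.res (algebraMap ℚ F q) = P.emb q :=
  P.res_mem (P.const q)

/-- the centre of a place on a ring -/
def Place.Ct (P : Place F) {R : Type} [CommRing R] [Algebra R F] (M : Ideal R) : Prop :=
  ∀ r : R, algebraMap R F r ∈ P.V ∧ (r ∈ M ↔ algebraMap R F r ∈ P.V.nonunits)

/-- the place pulled back along an automorphism -/
def Place.pull (P : Place F) (σ : F ≃+* F) : Place F where
  V := P.V.comap (σ : F →+* F)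
  ne h := P.ne (eq_top_iff.2 fun g _ => by
    have : σ.symm g ∈ P.V.comap (σ : F →+* F) := h ▸ trivial
    simpa using this)
  const q := by
    have : (σ : F →+* F) (algebraMap ℚ F q) = algebraMap ℚ F q :=
      DFunLike.congr_fun (Subsingleton.elim ((σ : F →+* F).comp (algebraMap ℚ F)) _) q
    exact ValuationSubring.mem_comap.2 (this.symm ▸ P.const q)

/-- properties of the tame symbol at a discrete place -/
structure TameA (P : Place F) : Prop where
  mul : ∀ g g' h, g ≠ 0 → g' ≠ 0 → h ≠ 0 → P.tame (g * g') h = P.tame g h * P.tame g' h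
  mul' : ∀ g h h', g ≠ 0 → h ≠ 0 → h' ≠ 0 → P.tame g (h * h') = P.tame g h * P.tame g h'
  unit : ∀ g h, g ≠ 0 → P.ord g = 0 → P.tame g h = P.res g ^ P.ord h
  unit' : ∀ g h, h ≠ 0 → P.ord h = 0 → P.tame g h = P.res h ^ (-P.ord g)
  stein : ∀ g, g ≠ 0 → g ≠ 1 → P.tame g (1 - g) = 1
  pos : ∀ g, g ≠ 0 → (g ∈ P.V.nonunits ↔ 0 < P.ord g)
  zero : ∀ g, g ∈ P.V → (P.res g = 0 ↔ g ∈ P.V.nonunits)
  add : ∀ g h, g ∈ P.V → h ∈ P.V → P.res (g + h) = P.res g + P.res h
  aev : ∀ g (A : ℚ[X]), g ∈ P.V → aeval g A ∈ P.V ∧ P.res (aeval g A) = aeval (P.res g) A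

end

def RTameA : Prop := ∀ (F : Type) [Field F] [Algebra ℚ F] (P : Place F),
  IsDiscreteValuationRing P.V → TameA P

/-- transport along an automorphism -/
def RPull : Prop := ∀ (F : Type) [Field F] [Algebra ℚ F] (σ : F ≃+* F),
  Function.Bijective (fun P : Place F => P.pull σ) ∧ ∀ (P : Place F) (g h : F),
    IsDiscreteValuationRing P.V → g ≠ 0 → h ≠ 0 →
    (P.pull σ).nm ((P.pull σ).tame g h) = P.nm (P.tame (σ g) (σ h))

/-- the coordinate ring is a model -/
def RModE : Prop := ∀ (W : WeierstrassCurve ℚ) [W.IsElliptic],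
  ∃ (x y : W.toAffine.CoordinateRing) (f : ℚ[X]), Model x y f

def RDed : Prop := ∀ (R : Type) [CommRing R] [IsDomain R] [Algebra ℚ R] (x y : R) (f : ℚ[X]),
  Model x y f → IsDedekindDomain R

/-- the number of zeros -/
def RDim : Prop := ∀ (R : Type) [CommRing R] [IsDomain R] [Algebra ℚ R] (x y : R) (f : ℚ[X]),
  Model x y f → ∀ A B : ℚ[X], aeval x A + aeval x B * y ≠ 0 →
  A ^ 2 - f * B ^ 2 ≠ 0 ∧ (A ^ 2 - f * B ^ 2).natDegree =
    max (2 * A.natDegree) (if B = 0 then 0 else 2 * B.natDegree + 3) ∧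
  Module.Finite ℚ (R ⧸ Ideal.span {aeval x A + aeval x B * y}) ∧
  Module.finrank ℚ (R ⧸ Ideal.span {aeval x A + aeval x B * y}) = (A ^ 2 - f * B ^ 2).natDegree

/-- generation -/
def RGen : Prop := ∀ (R ι : Type) [CommRing R] [IsDomain R] [Algebra ℚ R] (x y : R) (f : ℚ[X])
  (S : Sy R ι), Model x y f → S.Ok → (∀ t : ℚ, S.Z (x - algebraMap ℚ R t)) →
  ∀ v u, S.lam v u = 0

/-- conjugation -/
def RCj : Prop := ∀ (R F : Type) [CommRing R] [IsDomain R] [Algebra ℚ R] [Field F] [Algebra ℚ F]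
  [Algebra R F] [IsFractionRing R F] (x y : R) (f : ℚ[X]), Model x y f →
  (∃ σ : F ≃+* F, σ (algebraMap R F x) = algebraMap R F x ∧
    σ (algebraMap R F y) = -algebraMap R F y) ∧
  ∀ z : F, ∃ A B D : ℚ[X], D ≠ 0 ∧ z * aeval (algebraMap R F x) D =
    aeval (algebraMap R F x) A + aeval (algebraMap R F x) B * algebraMap R F y

section
variable (R F : Type) [CommRing R] [Algebra ℚ R] [Field F] [Algebra ℚ F] [Algebra R F] (x y : R)
  (f : ℚ[X])

/-- finite places -/
structure PFin : Prop where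
  dvr : ∀ P : Place F, algebraMap R F x ∈ P.V → IsDiscreteValuationRing P.V
  ctr : ∀ P : Place F, algebraMap R F x ∈ P.V → ∃ M : Ideal R, M.IsMaximal ∧ P.Ct M
  inj : ∀ (P Q : Place F) (M : Ideal R), P.Ct M → Q.Ct M → P = Q
  sur : ∀ M : Ideal R, M.IsMaximal → ∃ P : Place F, P.Ct M
  res : ∀ P : Place F, algebraMap R F x ∈ P.V → ∀ a, ∃ r : R, P.res (algebraMap R F r) = a
  fd : ∀ P : Place F, algebraMap R F x ∈ P.V → FiniteDimensional ℚ (ResidueField P.V)
  fin : ∀ g : R, g ≠ 0 →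
    {P : Place F | algebraMap R F x ∈ P.V ∧ algebraMap R F g ∈ P.V.nonunits}.Finite

/-- the place at infinity -/
structure PInf (O : Place F) : Prop where
  dvr : IsDiscreteValuationRing O.V
  uniq : ∀ P : Place F, algebraMap R F x ∉ P.V ↔ P = O
  ord : ∀ A B : ℚ[X], aeval x A + aeval x B * y ≠ 0 →
    O.ord (algebraMap R F (aeval x A + aeval x B * y)) = -((A ^ 2 - f * B ^ 2).natDegree : ℤ)
  rat : Function.Surjective O.emb

/-- the sum of the local degrees over a point of the line -/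
def PSum : Prop := ∀ (π : ℚ[X]) (s : Finset (Place F)), π.Monic → Irreducible π →
  (∀ P : Place F, P ∈ s ↔ algebraMap R F x ∈ P.V ∧ aeval (algebraMap R F x) π ∈ P.V.nonunits) →
  ∑ P ∈ s, P.ord (aeval (algebraMap R F x) π) * P.deg = 2 * π.natDegree

end

def RPFin : Prop := ∀ (R F : Type) [CommRing R] [IsDedekindDomain R] [Algebra ℚ R] [Field F]
  [Algebra ℚ F] [Algebra R F] [IsFractionRing R F] (x y : R) (f : ℚ[X]), Model x y f → PFin R F x

def RPInf : Prop := ∀ (R F : Type) [CommRing R] [IsDomain R] [Algebra ℚ R] [Field F]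
  [Algebra ℚ F] [Algebra R F] [IsFractionRing R F] (x y : R) (f : ℚ[X]), Model x y f →
  ∃ O : Place F, PInf R F x y f O

/-- dimension count in a Dedekind domain -/
def RCnt : Prop := ∀ (R F : Type) [CommRing R] [IsDedekindDomain R] [Algebra ℚ R] [Field F]
  [Algebra ℚ F] [Algebra R F] [IsFractionRing R F] (x : R), PFin R F x →
  ∀ (g : R) (s : Finset (Place F)), g ≠ 0 →
  (∀ P : Place F, P ∈ s ↔ algebraMap R F x ∈ P.V ∧ algebraMap R F g ∈ P.V.nonunits) →
  ∑ P ∈ s, P.ord (algebraMap R F g) * P.deg = Module.finrank ℚ (R ⧸ Ideal.span {g})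

/-- norms and resultants -/
def RNR : Prop := ∀ (κ : Type) [Field κ] [Algebra ℚ κ] [FiniteDimensional ℚ κ] (θ : κ)
  (π a : ℚ[X]), π.Monic → Irreducible π → aeval θ π = 0 →
  Algebra.norm ℚ (aeval θ a) ^ π.natDegree = resultant π a ^ Module.finrank ℚ κ

/-- every symbol has finite support -/
def FinT (F : Type) [Field F] [Algebra ℚ F] : Prop :=
  (∀ P : Place F, IsDiscreteValuationRing P.V) ∧
  (∀ P : Place F, FiniteDimensional ℚ (ResidueField P.V)) ∧
  ∀ g : F, {P : Place F | P.ord g ≠ 0}.Finite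

/-- reciprocity for a pair -/
def Rec {F : Type} [Field F] [Algebra ℚ F] (g h : F) : Prop :=
  ∀ l : ℚ → ℚ, Addv l → ∑ᶠ P : Place F, l (P.nm (P.tame g h)) = 0

/-- reciprocity for constants and irreducible polynomials -/
def RWeil0 : Prop := ∀ (R F : Type) [CommRing R] [IsDomain R] [Algebra ℚ R] [Field F]
  [Algebra ℚ F] [Algebra R F] [IsFractionRing R F] (x y : R) (f : ℚ[X]) (O : Place F),
  Model x y f → PFin R F x → PInf R F x y f O → PSum R F x → FinT F →
  (∀ (c : ℚ) (π : ℚ[X]), c ≠ 0 → π.Monic → Irreducible π →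
    Rec (algebraMap ℚ F c) (aeval (algebraMap R F x) π)) ∧
  ∀ π π' : ℚ[X], π.Monic → Irreducible π → π'.Monic → Irreducible π' → π ≠ π' →
    Rec (aeval (algebraMap R F x) π) (aeval (algebraMap R F x) π')

/-- symbols on a quadratic extension of the rational function field -/
def RQuad : Prop := ∀ (F : Type) [Field F] [Algebra ℚ F] (x y : F) (f : ℚ[X]) (σ : F ≃+* F)
  (ρ : F → F → ℚ), y ^ 2 = aeval x f → σ x = x → σ y = -y → (∀ D : ℚ[X], D ≠ 0 → aeval x D ≠ 0) →
  (∀ z : F, ∃ A B D : ℚ[X], D ≠ 0 ∧ z * aeval x D = aeval x A + aeval x B * y) →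
  (∀ g g' h, g ≠ 0 → g' ≠ 0 → h ≠ 0 → ρ (g * g') h = ρ g h + ρ g' h) →
  (∀ g h, g ≠ 0 → h ≠ 0 → ρ g h = -ρ h g) →
  (∀ g, g ≠ 0 → g ≠ 1 → ρ g (1 - g) = 0) →
  (∀ g h, g ≠ 0 → h ≠ 0 → ρ (σ g) (σ h) = ρ g h) →
  (∀ c c' : ℚ, c ≠ 0 → c' ≠ 0 → ρ (algebraMap ℚ F c) (algebraMap ℚ F c') = 0) →
  (∀ (c : ℚ) (π : ℚ[X]), c ≠ 0 → π.Monic → Irreducible π →
    ρ (algebraMap ℚ F c) (aeval x π) = 0) →
  (∀ π π' : ℚ[X], π.Monic → Irreducible π → π'.Monic → Irreducible π' → π ≠ π' →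
    ρ (aeval x π) (aeval x π') = 0) →
  ∀ g h, g ≠ 0 → h ≠ 0 → ρ g h = 0

/-- all local facts -/
def RAll : Prop := ∀ (R F : Type) [CommRing R] [IsDomain R] [Algebra ℚ R] [Field F]
  [Algebra ℚ F] [Algebra R F] [IsFractionRing R F] (x y : R) (f : ℚ[X]), Model x y f →
  ∃ O : Place F, PFin R F x ∧ PInf R F x y f O ∧ PSum R F x ∧ FinT F

/-- Weil reciprocity -/
def RWeil : Prop := ∀ (R F : Type) [CommRing R] [IsDomain R] [Algebra ℚ R] [Field F]
  [Algebra ℚ F] [Algebra R F] [IsFractionRing R F] (x y : R) (f : ℚ[X]), Model x y f →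
  ∀ g h : F, g ≠ 0 → h ≠ 0 → Rec g h

/-- functionals which vanish at infinity vanish -/
def RBr : Prop := ∀ (R F : Type) [CommRing R] [IsDomain R] [Algebra ℚ R] [Field F]
  [Algebra ℚ F] [Algebra R F] [IsFractionRing R F] (x y : R) (f : ℚ[X]) (O : Place F),
  Model x y f → PFin R F x → PInf R F x y f O → FinT F →
  ∀ lam : ∀ P : Place F, ResidueField P.V → ℚ, (∀ P, Addv (lam P)) →
  (∀ g h : F, g ≠ 0 → h ≠ 0 → ∑ᶠ P, lam P (P.tame g h) = 0) → (∀ a, a ≠ 0 → lam O a = 0) →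
  ∀ P a, a ≠ 0 → lam P a = 0

/-- the theorem -/
def Final : Prop := ∀ (W : WeierstrassCurve ℚ) [W.IsElliptic]
  (u : ∀ P : Place W.toAffine.FunctionField, ResidueField P.V), (∀ P, u P ≠ 0) →
  {P | u P ≠ 1}.Finite → ∏ᶠ P, Place.nm P (u P) = 1 →
  ∃ n : ℕ, 0 < n ∧ ∃ l : List (W.toAffine.FunctionField × W.toAffine.FunctionField),
    (∀ a ∈ l, a.1 ≠ 0 ∧ a.2 ≠ 0) ∧
    ∀ P, u P ^ n = (l.map fun a => PT.tameW P.V a.1 a.2).prod

end Pool.Agent.MP_f3836a_nt.VE.T
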