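import Pool.Agent.MP_f3836a_nt.VE.SpecW1
import Pool.Agent.MP_f3836a_nt.VE.SpecT

/-! Part W: the local rings of a Weierstrass model inside its function field. -/

set_option autoImplicit false

namespace Pool.Agent.MP_f3836a_nt.VE.W

open Polynomial IsLocalRing PK VE.A

section
variable {K : Type} [Field K]

/-- the localization of a subring at a prime -/
noncomputable abbrev lc (B : Subring K) (q : Ideal B) [q.IsPrime] : Subring K :=
  (LocalSubring.ofPrime B q).toSubring

theorem mem_lc {B : Subring K} {q : Ideal B} [q.IsPrime] {z : K} :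
    z ∈ lc B q ↔ ∃ a b : B, b ∉ q ∧ z * b = a := by
  constructor
  · intro h
    obtain ⟨⟨a, b⟩, e⟩ := IsLocalization.surj q.primeCompl (⟨z, h⟩ : lc B q)
    exact ⟨a, b, b.2, congrArg Subtype.val e⟩
  · rintro ⟨a, b, hb, e⟩
    have h := congrArg Subtype.val (IsLocalization.mk'_spec (lc B q) a (⟨b, hb⟩ : q.primeCompl))
    have b0 : (b : K) ≠ 0 := fun h0 => hb (by rw [show b = 0 from Subtype.ext h0]; exact q.zero_mem)
    have : z = (IsLocalization.mk' (lc B q) a (⟨b, hb⟩ : q.primeCompl) : lc B q) :=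
      mul_right_cancel₀ b0 (e.trans h.symm)
    rw [this]
    exact SetLike.coe_mem _

theorem le_lc (B : Subring K) (q : Ideal B) [q.IsPrime] : B ≤ lc B q := LocalSubring.le_ofPrime B q

/-- the ring generated by two elements -/
def A1 (x y : K) : Subring K := Subring.closure {x, y}

/-- an ideal of the second chart contains both coordinates -/
def Inf {x y : K} (q : Ideal (A1 (x / y) (1 / y))) : Prop :=
  ∀ a : A1 (x / y) (1 / y), (a : K) = x / y ∨ (a : K) = 1 / y → a ∈ q

/-- a generic point of the curve -/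
structure Gn (W : WeierstrassCurve ℤ) (x y : K) : Prop where
  eq : eW W x y = 0
  ind : ∀ A B : ℤ[X], gv x y A B = 0 → A = 0 ∧ B = 0
  frac : ∀ z : K, ∃ A B D : ℤ[X], D ≠ 0 ∧ z * aeval x D = gv x y A B

/-- the image of `D` in the residue field of `O` -/
noncomputable def im {κ : Type} [Field κ] (O : Subring K) (r : O →+* κ) (D : Subring K) :
    Subring κ := (D.comap O.subtype).map r

open Classical in
/-- the order at the point with local ring `D` of a function on the curve with local ring `O` -/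
noncomputable def od {κ : Type} [Field κ] (O : Subring K) (r : O →+* κ) (D : Subring K) (u : κ) :
    ℤ := if D ≤ O then ordR (im O r D) u else 0

/-- the points of the model with their local rings and residue fields -/
structure Dc (x y : K) {Pt : Type} [Preorder Pt] (O : Pt → Subring K) {κ : Pt → Type}
    [∀ z, Field (κ z)] (r : ∀ z, O z →+* κ z) : Prop where
  inj : Function.Injective O
  le : ∀ z z', z ≤ z' ↔ O z ≤ O z'
  cls : ∀ S : Subring K, (∃ z, O z = S) ↔
    (∃ (q : Ideal (A1 x y)) (_ : q.IsPrime), S = lc _ q) ∨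
    ∃ (q : Ideal (A1 (x / y) (1 / y))) (_ : q.IsPrime), Inf q ∧ S = lc _ q
  surj : ∀ z, Function.Surjective (r z)
  ker : ∀ z a, r z a = 0 ↔ ¬IsUnit a

end

/-- the theorem on the level of rings, dual form -/
def MainW : Prop := ∀ (W : WeierstrassCurve ℤ) (K : Type) [Field K] [CharZero K] (x y : K)
  (Pt : Type) [Preorder Pt] (O : Pt → Subring K) (κ : Pt → Type) [∀ z, Field (κ z)]
  (r : ∀ z, O z →+* κ z), W.Δ ≠ 0 → Gn W x y → Dc x y O r →
  (∀ z, O z = ⊤ → Order.height z = 2) ∧ (∀ C, Order.height C = 1 → DV (O C) (r C)) ∧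
  (∀ f : K, {C | Order.height C = 1 ∧ ordR (O C) f ≠ 0}.Finite) ∧
  ∀ (φ : ∀ C, κ C) (lam : ∀ C, κ C → ℚ), (∀ C, φ C ≠ 0) → {C | φ C ≠ 1}.Finite →
    (∀ C, φ C ≠ 1 → Order.height C = 1) →
    (∀ z, Order.height z = 0 → ∑ᶠ C, od (O C) (r C) (O z) (φ C) = 0) → (∀ C, Addv (lam C)) →
    (∀ f g : K, f ≠ 0 → g ≠ 0 →
      ∑ᶠ (C) (_ : Order.height C = 1), lam C (tameR (O C) (r C) f g) = 0) →
    ∑ᶠ C, lam C (φ C) = 0

end Pool.Agent.MP_f3836a_nt.VE.W
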