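import Pool.Agent.MP_f3836a_nt.VE.ZSa
import Pool.Agent.MP_f3836a_nt.VE.DefsW

/-! The function field of an elliptic curve over the rationals. -/

set_option autoImplicit false

namespace Pool.Agent.MP_f3836a_nt.VE.Z

open Polynomial VE.A VE.W

variable {K : Type} [Field K]

theorem zc_td {W : WeierstrassCurve ℤ} {x y : K} (G : Gn W x y) :
    Td K ∧ ∃ t : K, Transcendental ℤ t := by
  have tx : ∀ A : ℤ[X], aeval x A = 0 → A = 0 := fun A h => (G.ind A 0 (by simp [gv, h])).1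
  refine ⟨fun a b => by_contra fun h => ?_, x, fun ⟨A, h, e⟩ => h (tx A e)⟩
  push Not at h
  let R := Algebra.adjoin ℤ ({x} : Set K)
  have m : ∀ A : ℤ[X], IsAlgebraic R (aeval x A) := fun A =>
    isAlgebraic_algebraMap (⟨_, aeval_mem_adjoin_singleton ℤ x⟩ : R)
  have hy : IsAlgebraic R y := by
    let c : ℤ[X] → R := fun A => ⟨_, aeval_mem_adjoin_singleton ℤ x (p := A)⟩
    refine IsIntegral.isAlgebraic ⟨X ^ 2 + C (c (C W.a₁ * X + C W.a₃)) * X -
      C (c (X ^ 3 + C W.a₂ * X ^ 2 + C W.a₄ * X + C W.a₆)), by monicity!, ?_⟩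
    have := G.eq
    rw [eW] at this
    simp only [eval₂_sub, eval₂_add, eval₂_mul, eval₂_pow, eval₂_X, eval₂_C]
    change y ^ 2 + aeval x _ * y - aeval x _ = 0
    simp only [map_add, map_mul, map_pow, aeval_X, eq_intCast, map_intCast]
    linear_combination this
  have : Algebra.IsAlgebraic R K := ⟨fun z => by
    obtain ⟨A, B, D, h0, e⟩ := G.frac z
    exact IsAlgebraic.of_mul (mem_nonZeroDivisors_of_ne_zero fun k => h0 (tx D k)) (m D)
      (by rw [mul_comm, e]; exact (m A).add ((m B).mul hy))⟩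
  have h1 := Algebra.IsAlgebraic.trdeg_le_cardinalMk ℤ (A := K) {x}
  have h2 : AlgebraicIndependent ℤ fun o : Option Unit => o.elim a fun _ => b := by
    refine AlgebraicIndependent.option_iff.2 ⟨algebraicIndependent_unique_type_iff.2
      fun ⟨Q, q, e⟩ => h (C Q) (C_ne_zero.2 q) (by rw [eval₂_C]; exact e), fun ⟨Q, q, e⟩ => ?_⟩
    let s : ℤ[X] →+* Algebra.adjoin ℤ (Set.range fun _ : Unit => b) :=
      (aeval b : ℤ[X] →ₐ[ℤ] K).toRingHom.codRestrict _ fun A => by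
        rw [Set.range_const]; exact aeval_mem_adjoin_singleton ℤ b
    obtain ⟨P, rfl⟩ := map_surjective s (fun ⟨w, hw⟩ => by
      rw [Set.range_const, Algebra.adjoin_singleton_eq_range_aeval] at hw
      exact hw.imp fun _ e => Subtype.ext e) Q
    refine h P (fun k => q (by rw [k, Polynomial.map_zero])) ?_
    rw [aeval_def, eval₂_map] at e
    exact e
  have h3 := h2.cardinalMk_le_trdeg.trans h1
  simp at h3

theorem zc_map {L : Type} [Field L] (e : K ≃+* L) {W : WeierstrassCurve ℤ} {x y : K}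
    (G : Gn W x y) : Gn W (e x) (e y) := by
  have a (U : ℤ[X]) : e (aeval x U) = aeval (e x) U :=
    (aeval_algHom_apply e.toRingHom.toIntAlgHom _ U).symm
  have g (A B : ℤ[X]) : e (gv x y A B) = gv (e x) (e y) A B := by
    rw [gv, gv, map_add, map_mul, a, a]
  refine ⟨?_, fun A B h => G.ind A B (e.injective (by rw [g, h, map_zero])), fun z => ?_⟩
  · simpa [eW] using congrArg e G.eq
  · obtain ⟨A, B, D, h0, h⟩ := G.frac (e.symm z)
    exact ⟨A, B, D, h0, by rw [← g, ← h, map_mul, a, e.apply_symm_apply]⟩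

theorem zc_int [Algebra ℚ K] {W : WeierstrassCurve ℚ} (hΔ : W.Δ ≠ 0) {x y : K}
    (he : y ^ 2 + aeval x (C W.a₁ * X + C W.a₃) * y =
      aeval x (X ^ 3 + C W.a₂ * X ^ 2 + C W.a₄ * X + C W.a₆))
    (hi : ∀ A B : ℚ[X], aeval x A + aeval x B * y = 0 → A = 0 ∧ B = 0)
    (hf : ∀ z : K, ∃ A B D : ℚ[X], D ≠ 0 ∧ z * aeval x D = aeval x A + aeval x B * y) :
    ∃ (W' : WeierstrassCurve ℤ) (x' y' : K), W'.Δ ≠ 0 ∧ Gn W' x' y' := by
  obtain ⟨⟨d, hd⟩, h⟩ := IsLocalization.exist_integer_multiples_of_finite (nonZeroDivisors ℤ)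
    ![W.a₁, W.a₂, W.a₃, W.a₄, W.a₆]
  have d0 : (d : ℚ) ≠ 0 := by exact_mod_cast nonZeroDivisors.ne_zero hd
  obtain ⟨b₁, e₁⟩ : ∃ b : ℤ, (b : ℚ) = d * W.a₁ := (h 0).imp fun _ e => by simpa using e
  obtain ⟨b₂, e₂⟩ : ∃ b : ℤ, (b : ℚ) = d * W.a₂ := (h 1).imp fun _ e => by simpa using e
  obtain ⟨b₃, e₃⟩ : ∃ b : ℤ, (b : ℚ) = d * W.a₃ := (h 2).imp fun _ e => by simpa using e
  obtain ⟨b₄, e₄⟩ : ∃ b : ℤ, (b : ℚ) = d * W.a₄ := (h 3).imp fun _ e => by simpa using e
  obtain ⟨b₆, e₆⟩ : ∃ b : ℤ, (b : ℚ) = d * W.a₆ := (h 4).imp fun _ e => by simpa using e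
  have := charZero_of_injective_algebraMap (algebraMap ℚ K).injective
  have dK : (d : K) ≠ 0 := by exact_mod_cast d0
  have cl : ∀ A : ℚ[X], ∃ (n : ℤ) (A' : ℤ[X]), (n : K) ≠ 0 ∧
      aeval ((d : K) ^ 2 * x) A' = n * aeval x A := fun A => by
    obtain ⟨A', n, hn, e⟩ : ∃ A' : ℤ[X], ∃ n ∈ nonZeroDivisors ℤ, A'.map (algebraMap ℤ ℚ) =
        n • A.comp (C ((d : ℚ) ^ 2)⁻¹ * X) := ⟨_, IsLocalization.integerNormalization_spec _ _⟩
    refine ⟨n, A', by exact_mod_cast nonZeroDivisors.ne_zero hn, ?_⟩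
    rw [← aeval_map_algebraMap ℚ, e, map_zsmul, aeval_comp, zsmul_eq_mul]
    simp [dK]
  refine ⟨⟨b₁, d * b₂, d ^ 2 * b₃, d ^ 3 * b₄, d ^ 5 * b₆⟩, d ^ 2 * x, d ^ 3 * y, fun k => ?_, ?_,
    fun A B k => ?_, fun z => ?_⟩
  · have k' := congrArg (Int.cast : ℤ → ℚ) k
    simp only [WeierstrassCurve.Δ, WeierstrassCurve.b₂, WeierstrassCurve.b₄, WeierstrassCurve.b₆,
      WeierstrassCurve.b₈] at k' hΔ
    push_cast at k'
    rw [e₁, e₂, e₃, e₄, e₆] at k'
    exact mul_ne_zero (pow_ne_zero 12 d0) hΔ (by linear_combination k')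
  · have c : ∀ {b : ℤ} {a : ℚ}, (b : ℚ) = d * a → (b : K) = d * algebraMap ℚ K a := fun e => by
      simpa using congrArg (algebraMap ℚ K) e
    simp only [map_add, map_mul, map_pow, aeval_X, aeval_C] at he
    simp only [eW]
    push_cast
    rw [c e₁, c e₂, c e₃, c e₄, c e₆]
    linear_combination (d : K) ^ 6 * he
  · have s : ∀ A : ℤ[X], aeval ((d : K) ^ 2 * x) A =
        aeval x ((A.map (algebraMap ℤ ℚ)).comp (C ((d : ℚ) ^ 2) * X)) := fun A => by
      rw [aeval_comp, aeval_map_algebraMap]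
      simp
    have t : ∀ A : ℤ[X], (A.map (algebraMap ℤ ℚ)).comp (C ((d : ℚ) ^ 2) * X) = 0 → A = 0 :=
      fun A e => map_injective _ (algebraMap ℤ ℚ).injective_int (by
        rwa [comp_C_mul_X_eq_zero_iff (mem_nonZeroDivisors_of_ne_zero (pow_ne_zero 2 d0)),
          ← Polynomial.map_zero (algebraMap ℤ ℚ)] at e)
    rw [gv, s, s] at k
    obtain ⟨a, b⟩ := hi ((A.map (algebraMap ℤ ℚ)).comp (C ((d : ℚ) ^ 2) * X))
      (C ((d : ℚ) ^ 3) * (B.map (algebraMap ℤ ℚ)).comp (C ((d : ℚ) ^ 2) * X)) (by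
      rw [map_mul, aeval_C, map_pow (algebraMap ℚ K), map_intCast]
      linear_combination k)
    exact ⟨t A a, t B ((mul_eq_zero.1 b).resolve_left (C_ne_zero.2 (pow_ne_zero 3 d0)))⟩
  · obtain ⟨A, B, D, h0, e⟩ := hf z
    obtain ⟨a, A', a0, a1⟩ := cl A
    obtain ⟨b, B', b0, b1⟩ := cl B
    obtain ⟨c, D', c0, c1⟩ := cl D
    have i0 : ∀ {n : ℤ}, (n : K) ≠ 0 → n ≠ 0 := fun h e => h (by simp [e])
    refine ⟨C (b * c * d ^ 3) * A', C (a * c) * B', C (a * b * d ^ 3) * D', mul_ne_zero (C_ne_zero.2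
      (mul_ne_zero (mul_ne_zero (i0 a0) (i0 b0)) (pow_ne_zero 3 (i0 dK)))) fun k => ?_, ?_⟩
    · rw [k, map_zero] at c1
      exact h0 (hi D 0 (by simpa [c0] using c1.symm)).1
    · simp only [gv, map_mul, map_pow, eq_intCast, map_intCast, a1, b1, c1]
      linear_combination (a * b * c * d ^ 3 : K) * e

open WeierstrassCurve.Affine in
theorem zc_model (W : WeierstrassCurve ℚ) (hΔ : W.Δ ≠ 0) : ∃ (W' : WeierstrassCurve ℤ)
    (x y : W.toAffine.FunctionField), W'.Δ ≠ 0 ∧ Gn W' x y := by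
  let ι := algebraMap W.toAffine.CoordinateRing W.toAffine.FunctionField
  have inj : Function.Injective ι := IsFractionRing.injective _ _
  let x := ι (CoordinateRing.mk W.toAffine (C X))
  let y := ι (CoordinateRing.mk W.toAffine X)
  have a : ∀ p : ℚ[X], aeval x p = ι (CoordinateRing.mk W.toAffine (C p)) := fun p =>
    RingHom.congr_fun (Polynomial.ringHom_ext (f := (aeval x : ℚ[X] →ₐ[ℚ] _).toRingHom)
      (g := ι.comp ((CoordinateRing.mk W.toAffine).comp C))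
      (fun q => RingHom.congr_fun (RingHom.ext_rat ((aeval x : ℚ[X] →ₐ[ℚ] _).toRingHom.comp C)
        ((ι.comp ((CoordinateRing.mk W.toAffine).comp C)).comp C)) q) (aeval_X x)) p
  have b : ∀ p q : ℚ[X], aeval x p + aeval x q * y =
      ι (p • 1 + q • CoordinateRing.mk W.toAffine X) := fun p q => by
    rw [a, a, CoordinateRing.smul, CoordinateRing.smul, mul_one, map_add, map_mul]
  refine zc_int (x := x) (y := y) hΔ ?_
    (fun A B h => CoordinateRing.smul_basis_eq_zero (inj (by rw [← b, h, map_zero]))) fun z => ?_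
  · have := congrArg ι (CoordinateRing.smul_basis_mul_Y (W' := W.toAffine) 0 1)
    rw [map_mul, ← b, ← b] at this
    simp only [map_zero, map_one, one_mul, zero_add, zero_sub, map_neg] at this
    linear_combination this
  · obtain ⟨u, v, hv, rfl⟩ := IsFractionRing.div_surjective (A := W.toAffine.CoordinateRing) z
    have : Module.Finite ℚ[X] W.toAffine.CoordinateRing := .of_basis (CoordinateRing.basis _)
    obtain ⟨c, D, h0, e⟩ := Algebra.IsAlgebraic.exists_smul_eq_mul (R := ℚ[X]) u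
      (nonZeroDivisors.ne_zero hv)
    obtain ⟨A, B, rfl⟩ := CoordinateRing.exists_smul_basis_eq c
    refine ⟨A, B, D, h0, ?_⟩
    rw [b, a, div_mul_eq_mul_div, div_eq_iff ((map_ne_zero_iff _ inj).2 (nonZeroDivisors.ne_zero hv)),
      ← map_mul, ← map_mul, mul_comm, ← CoordinateRing.smul, e, mul_comm]

end Pool.Agent.MP_f3836a_nt.VE.Z
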