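import Pool.Agent.MP_f3836a_nt.VE.ZSb
import Pool.Agent.MP_f3836a_nt.VE.ZSc
import Pool.Agent.MP_f3836a_nt.VE.WSb
import Pool.Agent.MP_f3836a_nt.VE.WSc
import Pool.Agent.MP_f3836a_nt.PK.SPr

/-! From rings to the scheme. -/

set_option autoImplicit false

namespace Pool.Agent.MP_f3836a_nt.VE.Z

open IsLocalRing AlgebraicGeometry CategoryTheory PK PS VE.A VE.W MvPolynomial

theorem zd_le {σ K : Type} [Field K] (E : MvPolynomial σ ℤ →+* K) (S : Subring K) :
    E.range ≤ S ↔ ∀ j, E (X j) ∈ S := by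
  refine ⟨fun h j => h ⟨_, rfl⟩, fun h => ?_⟩
  rintro _ ⟨G, rfl⟩
  induction G using MvPolynomial.induction_on with
  | C n => rw [eq_intCast, map_intCast]; exact intCast_mem _ n
  | add p q hp hq => rw [map_add]; exact add_mem hp hq
  | mul_X p j hp => rw [map_mul]; exact mul_mem hp (h j)

theorem zd_ft {σ K : Type} [Finite σ] [Field K] (E : MvPolynomial σ ℤ →+* K) :
    Algebra.FiniteType ℤ E.range := by
  have h : (algebraMap ℤ (MvPolynomial σ ℤ)).FiniteType :=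
    RingHom.finiteType_algebraMap.2 inferInstance
  have e : E.rangeRestrict.comp (algebraMap ℤ (MvPolynomial σ ℤ)) = algebraMap ℤ E.range :=
    RingHom.ext_int _ _
  have := (RingHom.FiniteType.of_surjective _ E.rangeRestrict_surjective).comp h
  rw [e] at this
  exact RingHom.finiteType_algebraMap.1 this

/-- the theorem for schemes -/
def FinalZ : Prop := ∀ (W : WeierstrassCurve ℚ) (N : ℕ) (Y : Scheme.{0}) (ι : Y ⟶ PT.PN N)
  [IsClosedImmersion ι] [IsIntegral Y], W.Δ ≠ 0 →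
  (∀ z : Y, IsRegularLocalRing (Y.presheaf.stalk z)) →
  Nonempty (Y.functionField ≃+* W.toAffine.FunctionField) →
  ∀ φ : ∀ C : Y, Y.residueField C, (∀ C, φ C ≠ 0) → {C | φ C ≠ 1}.Finite →
    (∀ C, φ C ≠ 1 → Order.height C = 1) →
    (∀ x : Y, Order.height x = 0 → ∑ᶠ C, PT.ordZ C x (φ C) = 0) →
    ∃ n : ℕ, 0 < n ∧ ∃ l : List (Σ y : Y, Y.residueField y × Y.residueField y),
      (∀ a ∈ l, Order.height a.1 = 2 ∧ a.2.1 ≠ 0 ∧ a.2.2 ≠ 0) ∧
      ∀ C : Y, Order.height C = 1 → φ C ^ n = (l.map fun a => PT.bd a.1 C a.2.1 a.2.2).prod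

theorem zFinal (hD : DvS) (hR : RgS) (hM : MainY) : FinalZ := by
  intro W N Y ι hι _ hΔ reg ⟨e⟩ φ hne hfin hsupp hdiv
  classical
  obtain ⟨P, fr, H⟩ : ∃ P fr, PrA Y N P fr := ⟨_, _, SPr.main N Y ι hι⟩
  have g : ∀ z, genericPoint Y ⤳ z := genericPoint_specializes
  have ri : Function.Injective (residue Y.functionField) := RingHom.injective _
  have inj : ∀ z, Function.Injective (ev (g z)) := fun z =>
    ri.comp (IsFractionRing.injective (Y.presheaf.stalk z) Y.functionField)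
  obtain ⟨W', x, y, hΔ', G⟩ : ∃ (W' : WeierstrassCurve ℤ) (x y : Y.residueField (genericPoint Y)),
      W'.Δ ≠ 0 ∧ Gn W' x y := by
    obtain ⟨W', x, y, hΔ', G⟩ := zc_model W hΔ
    exact ⟨W', _, _, hΔ', zc_map (e.symm.trans (RingEquiv.ofBijective _ ⟨ri, residue_surjective⟩)) G⟩
  generalize genericPoint Y = η at g inj x y G
  obtain ⟨i₀, h₀⟩ := H.good η
  obtain ⟨E₀, c₀⟩ := sc_ex H η i₀ h₀
  have nz : ∀ i, E₀ (X i) ≠ 0 ↔ X i ∉ P η := fun i => (c₀.zero H h₀ (isHomogeneous_X _ _)).not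
  have : ∀ i, ∃ E, E₀ (X i) ≠ 0 → Ch P fr η i E := fun i => by
    by_cases h : E₀ (X i) = 0
    · exact ⟨E₀, fun k => absurd h k⟩
    · exact (sc_ex H η i ((nz i).1 h)).imp fun _ k _ => k
  choose E c using this
  have ee : ∀ i j, E₀ (X i) ≠ 0 → E i (X j) = E₀ (X j) / E₀ (X i) := fun i j h => by
    rw [← c₀.val η (g η) 1 _ _ (isHomogeneous_X _ j) (isHomogeneous_X _ _) ((nz i).1 h),
      ← (c i h).val η (g η) 1 _ _ (isHomogeneous_X _ j) (isHomogeneous_X _ _) ((nz i).1 h),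
      (c i h).one, mul_one, mul_div_cancel_right₀ _ h]
  choose r hr using fun z => SComp.exists_rs (g z) _ rfl
  have hle : ∀ z z', z' ⤳ z ↔ (ev (g z)).range ≤ (ev (g z')).range := fun z z' =>
    c₀.le H h₀ (g z) (g z')
  have D : DcY (fun i => E₀ (X i)) (fun i => (E i).range) (fun z => (ev (g z)).range) r := by
    refine ⟨⟨i₀, (nz _).2 h₀⟩, fun i S h => by simp only [zd_le, ee i _ h],
      fun i _ => zd_ft (E i),
      fun i h z => ?_, fun z z' e => (((hle _ _).2 e.ge).antisymm ((hle _ _).2 e.le)).eq, hle,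
      fun S => ⟨?_, ?_⟩, fun z t => ?_, fun z a => ⟨fun h0 hu => (hu.map (r z)).ne_zero h0, ?_⟩,
      fun z => (reg z).of_ringEquiv (RingEquiv.ofBijective (ev (g z)).rangeRestrict
        ⟨fun a b k => inj z (congrArg Subtype.val k), RingHom.rangeRestrict_surjective _⟩)⟩
    · obtain ⟨a, rfl⟩ := (SComp.range_refl (g η)).ge (Subring.mem_top z)
      obtain ⟨n, A, B, hA, hB, k, rfl⟩ := H.surj η a
      exact ⟨⟨_, A, rfl⟩, ⟨_, B, rfl⟩, fun e => k (((c i h).zero H ((nz i).1 h) hB).1 e),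
        (c i h).val η _ n A B hA hB k⟩
    · rintro ⟨z, rfl⟩
      obtain ⟨i, hi⟩ := H.good z
      have h := (nz i).2 fun k => hi ((H.le _ _).1 (g z) k)
      obtain ⟨q, hq, m⟩ := (c i h).to H (g z) hi
      exact ⟨i, h, q, hq, (c i h).loc H _ q m⟩
    · rintro ⟨i, h, q, hq, rfl⟩
      obtain ⟨z, _, e⟩ := (c i h).of H ((nz i).1 h) q
      exact ⟨z, e⟩
    · obtain ⟨a, rfl⟩ := SComp.res_surj z t
      exact ⟨_, hr z a ⟨_, rfl⟩⟩
    · obtain ⟨_, b, rfl⟩ := a
      exact fun hu => (hr z b _).trans ((SComp.res_eq_zero z b).2 fun hb =>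
        hu (hb.map (ev (g z)).rangeRestrict))
  have : CharZero (Y.residueField η) := charZero_of_inj_zero fun n h => by
    simpa using (G.ind (Polynomial.C n) 0 (by simp [gv, h])).1
  obtain ⟨geo, top⟩ := geoY hD hR (zc_td G).1 (zc_td G).2 D
  obtain ⟨n, hn, l, l1, l2⟩ := hM W' _ _ _ _ _ Y _ _ r hΔ' G geo φ hne hfin hsupp
    fun z hz => (finsum_congr fun C => by
      unfold VE.W.od PT.ordZ
      by_cases h : C ⤳ z
      · rw [if_pos ((hle _ _).1 h), dif_pos h, im, SComp.loc_eq rfl (hr C) h]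
        rfl
      · rw [if_neg fun e => h ((hle _ _).2 e), dif_neg h]).trans (hdiv z hz)
  refine ⟨n, hn, l.map fun s => ⟨η, s⟩, fun a ha => ?_, fun C hC => ?_⟩
  · obtain ⟨s, hs, rfl⟩ := List.mem_map.1 ha
    exact ⟨top η (SComp.range_refl _), l1 s hs⟩
  · rw [l2 C hC, List.map_map]
    refine congrArg List.prod (List.map_congr_left fun s hs => Eq.symm ?_)
    exact (dif_pos (g C)).trans (sb_bdry (ev (g C)) (r C) (fun a => hr C a _) (geo.dv C hC)
      (l1 s hs).1 (l1 s hs).2)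

end Pool.Agent.MP_f3836a_nt.VE.Z
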