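import Pool.Agent.MP_f3836a_nt.VE.SpecC

/-! Row CCell: the mass of a cell. -/

set_option autoImplicit false

namespace Pool.Agent.MP_f3836a_nt.VE.BC

open Finset

namespace CCell

theorem ind_mono {p q : Prop} (h : p → q) : ind p ≤ ind q := by
  unfold ind
  by_cases hp : p
  · rw [if_pos hp, if_pos (h hp)]
  · rw [if_neg hp]
    split_ifs <;> norm_num

/-- one point lies near the corner of its cell -/
theorem rp_one (z : ℂ) (u N2 : ℕ) (L η : ℝ) (hη : 0 < η) (hN : 1 ≤ η * N2) (hz : z ≠ 0)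
    (h1 : η * u ≤ Real.log (‖z‖ ^ 2) - L) (h2 : Real.log (‖z‖ ^ 2) - L ≤ η * (u + 1)) :
    ∃ th : ℤ, ∃ e : ℂ, ‖e‖ ≤ 7 * η ∧
      z = Complex.exp ((L + η * u) / 2 + 2 * Real.pi * th / N2 * Complex.I + e) := by
  have hN0 : (0 : ℝ) < N2 := by
    by_contra h
    nlinarith
  have hp := Real.pi_pos
  have hp2 := Real.pi_lt_d2
  set th : ℤ := ⌊N2 * z.arg / (2 * Real.pi)⌋ with hth
  have f1 : (th : ℝ) ≤ N2 * z.arg / (2 * Real.pi) := Int.floor_le _
  have f2 : N2 * z.arg / (2 * Real.pi) < th + 1 := Int.lt_floor_add_one _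
  rw [le_div_iff₀ (by positivity)] at f1
  rw [div_lt_iff₀ (by positivity)] at f2
  rw [Real.log_pow] at h1 h2
  push_cast at h1 h2
  have g1 : 0 ≤ z.arg - 2 * Real.pi * th / N2 := by
    rw [sub_nonneg, div_le_iff₀ hN0]
    linarith
  have g2 : z.arg - 2 * Real.pi * th / N2 ≤ 2 * Real.pi * η := by
    rw [sub_le_iff_le_add, ← sub_le_iff_le_add', le_div_iff₀ hN0]
    nlinarith
  refine ⟨th, ((Real.log ‖z‖ - (L + η * u) / 2 : ℝ) : ℂ)
    + ((z.arg - 2 * Real.pi * th / N2 : ℝ) : ℂ) * Complex.I, ?_, ?_⟩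
  · refine (norm_add_le _ _).trans ?_
    rw [norm_mul, Complex.norm_I, mul_one, Complex.norm_real, Complex.norm_real,
      Real.norm_of_nonneg g1, Real.norm_of_nonneg (by linarith)]
    nlinarith
  · conv_lhs => rw [← Complex.exp_log hz]
    congr 1
    rw [Complex.log]
    push_cast
    ring

/-- the event for a fixed smoothing lies in a small disc -/
theorem disc {ι : Type} (lam : ι → ℂ) (u : ι → ℕ) (th : ι → ℤ) (k N2 : ℕ) (L η : ℝ) (hN : N2 ≠ 0)
    (hk : 28 * k * η ≤ 1) (hR : Rp lam u th L η N2) (v t : ℤ) (s : Fin k → ι)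
    (h1 : ∑ i, (u (s i) : ℤ) = v) (h2 : ∑ i, (th (s i) : ZMod N2) = t) (ζ : ℂ)
    (hζ : ζ = Complex.exp ((k * L + η * v) / 2 + 2 * Real.pi * t / N2 * Complex.I)) :
    ‖∏ i, lam (s i) - ζ‖ ≤ 14 * k * η * ‖ζ‖ ∧ ‖ζ‖ ≤ 2 * ‖∏ i, lam (s i)‖ ∧
      ‖∏ i, lam (s i)‖ ≤ 2 * ‖ζ‖ := by
  choose e he hl using hR
  have hd : (N2 : ℤ) ∣ (∑ i, th (s i)) - t := by
    rw [← ZMod.intCast_eq_intCast_iff_dvd_sub]
    push_cast
    exact h2.symm
  obtain ⟨m, hm⟩ := hd
  have hs : ∑ i, (th (s i) : ℂ) = t + N2 * m := by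
    have : ∑ i, th (s i) = t + N2 * m := by linarith
    exact_mod_cast congrArg (Int.cast : ℤ → ℂ) this
  have hv : ∑ i, (u (s i) : ℂ) = v := by exact_mod_cast congrArg (Int.cast : ℤ → ℂ) h1
  have hN' : (N2 : ℂ) ≠ 0 := by exact_mod_cast hN
  have hp : ∏ i, lam (s i) = ζ * Complex.exp (∑ i, e (s i)) := by
    rw [prod_congr rfl fun i _ => hl (s i), ← Complex.exp_sum, hζ, ← Complex.exp_add,
      Complex.exp_eq_exp_iff_exists_int]
    refine ⟨m, ?_⟩
    rw [sum_add_distrib, sum_add_distrib, ← sum_div, sum_add_distrib, ← mul_sum, ← sum_mul,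
      ← sum_div, ← mul_sum, hs, hv, sum_const, card_univ, Fintype.card_fin, nsmul_eq_mul]
    field_simp
    ring
  have hE : ‖∑ i, e (s i)‖ ≤ 7 * k * η := by
    refine (norm_sum_le _ _).trans ((sum_le_sum fun i _ => he (s i)).trans ?_)
    rw [sum_const, card_univ, Fintype.card_fin, nsmul_eq_mul]
    linarith
  have hb := Complex.norm_exp_sub_one_le (hE.trans (by linarith))
  have hz := norm_nonneg ζ
  have hn : ‖∏ i, lam (s i) - ζ‖ ≤ 14 * k * η * ‖ζ‖ := by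
    rw [hp, ← mul_sub_one, norm_mul, mul_comm]
    exact mul_le_mul_of_nonneg_right (by linarith) hz
  have a1 := norm_sub_norm_le (∏ i, lam (s i)) ζ
  have a2 := norm_sub_norm_le ζ (∏ i, lam (s i))
  rw [norm_sub_rev] at a2
  have a3 : 14 * k * η * ‖ζ‖ ≤ 1 / 2 * ‖ζ‖ := mul_le_mul_of_nonneg_right (by linarith) hz
  exact ⟨hn, by linarith, by linarith⟩

/-- averaging over the smoothing -/
theorem avg {ι : Type} [Fintype ι] (μ : ι → ℝ) (k J : ℕ) (hJ : 1 ≤ J) (B : ℝ)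
    (F : (Fin k → ι × Fin J) → ℝ)
    (h : ∀ a : Fin k → Fin J, tm μ k (fun s => F fun i => (s i, a i)) ≤ B) :
    tm (sm μ J) k F ≤ B := by
  have hJ0 : (0 : ℝ) < (J : ℝ) ^ k := by
    have : (0 : ℝ) < J := by exact_mod_cast hJ
    positivity
  have e : tm (sm μ J) k F
      = (∑ a : Fin k → Fin J, tm μ k fun s => F fun i => (s i, a i)) / (J : ℝ) ^ k := by
    unfold tm sm
    rw [← (Equiv.arrowProdEquivProdArrow (Fin k) (fun _ => ι) fun _ => Fin J).symm.sum_comp,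
      Fintype.sum_prod_type_right, sum_div]
    refine sum_congr rfl fun a _ => ?_
    rw [sum_div]
    refine sum_congr rfl fun s _ => ?_
    rw [prod_div_distrib, prod_const, card_univ, Fintype.card_fin, div_mul_eq_mul_div]
    rfl
  rw [e, div_le_iff₀ hJ0]
  refine (sum_le_sum fun a _ => h a).trans ?_
  rw [sum_const, card_univ, Fintype.card_fun, Fintype.card_fin, Fintype.card_fin, nsmul_eq_mul]
  push_cast
  exact (mul_comm _ _).le

end CCell

theorem rCell : OfCell := by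
  intro hT _ ι G _ _ μ x lam u k J N2 L η D hμ hk hJ hη hkη hN hC hD
  choose th hth using fun i => CCell.rp_one (lam i) (u i) N2 L η hη hN (hC i).1 (hC i).2.1 (hC i).2.2
  have hN0 : N2 ≠ 0 := by
    rintro rfl
    norm_num at hN
  have hk1 : (1 : ℝ) ≤ k := by exact_mod_cast hk
  refine ⟨th, hth, ?_⟩
  rintro ⟨v, t, g⟩
  obtain ⟨t, rfl⟩ := ZMod.intCast_surjective t
  refine CCell.avg μ k J hJ _ _ fun a => ?_
  set ζ : ℂ := Complex.exp ((k * L + η * (v - ∑ i, ((a i : ℕ) : ℤ) : ℤ)) / 2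
    + 2 * Real.pi * t / N2 * Complex.I) with hζ
  have hz : 0 < ‖ζ‖ := norm_pos_iff.2 (Complex.exp_ne_zero _)
  refine le_trans ((hT ι μ).2.2.2.2.1 hμ.1 k _ _ fun s => CCell.ind_mono fun h => ?_)
    (hD g ζ ‖ζ‖ (14 * k * η) (by nlinarith) (by linarith) hz)
  have h1 := congrArg Prod.fst h
  have h2 := congrArg (fun p => p.2.1) h
  have h3 := congrArg (fun p => p.2.2) h
  simp only [tri, su, Prod.fst_sum, Prod.snd_sum, sum_add_distrib] at h1 h2 h3
  exact ⟨h3, CCell.disc lam u th k N2 L η hN0 hkη hth _ t s (eq_sub_of_add_eq h1) h2 ζ hζ⟩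

end Pool.Agent.MP_f3836a_nt.VE.BC
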