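import Pool.Agent.MP_f3836a_nt.VE.SpecB

set_option autoImplicit false

namespace Pool.Agent.MP_f3836a_nt.VE.BC

open Finset

namespace BCls

theorem ee_norm (x : ℝ) : ‖ee x‖ = 1 := by
  rw [ee, Complex.norm_exp]; simp

theorem ee_pow (x : ℝ) (j : ℕ) : ee x ^ j = ee (j * x) := by
  rw [ee, ee, ← Complex.exp_nat_mul]; congr 1; push_cast; ring

theorem ee_sub (x : ℝ) : ‖ee x - 1‖ ≤ 8 * |x| := by
  have h := Real.norm_exp_I_mul_ofReal_sub_one_le (x := 2 * Real.pi * x)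
  rw [show Complex.I * (2 * Real.pi * x : ℝ) = 2 * Real.pi * x * Complex.I by push_cast; ring,
    Real.norm_eq_abs, abs_mul, abs_of_pos Real.two_pi_pos] at h
  refine h.trans ?_
  gcongr
  linarith [Real.pi_le_four]

theorem marg (hT : TupS) {ι Γ : Type} [Fintype ι] [AddCommGroup Γ] [Finite Γ] (μ : ι → ℝ)
    (X : ι → ℤ) (x : ι → Γ) (k : ℕ) (D : ℝ) (h : ∀ y, law μ (fun i => (X i, x i)) k y ≤ D)
    (v : ℤ) : law μ X k v ≤ Nat.card Γ * D := by
  classical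
  have := Fintype.ofFinite Γ
  have h1 := ((hT ι μ).2.2.2.2.2 (ℤ × Γ) fun i => (X i, x i)).2.1 k ({v} ×ˢ univ)
    (fun y => ind (y.1 = v)) fun s hs => by
      refine mem_product.2 ⟨mem_singleton.2 ?_, mem_univ _⟩
      by_contra h
      exact hs (if_neg h)
  simp only [Prod.fst_sum] at h1
  rw [law, h1]
  refine (sum_le_card_nsmul _ _ D fun y hy => ?_).trans (by simp)
  rw [ind, if_pos (mem_singleton.1 (mem_product.1 hy).1), mul_one]
  exact h y

theorem num {cA c k M j d a : ℝ} (c0 : 0 < cA) (k1 : 1 ≤ k) (j1 : 1 ≤ j) (jM : j ≤ M)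
    (d0 : 0 < d) (d1 : d ≤ 1) (hc : c = cA / (1024 * k * (M + 1) ^ 2))
    (h : cA * min 1 ((j * a) ^ 2) ≤ j ^ 2 * (c * d ^ 2)) : |a| ≤ d / 32 := by
  have M0 : 0 < M := by linarith
  have a4 : j ^ 2 * c ≤ cA / 1024 := by
    rw [hc, ← mul_div_assoc, div_le_div_iff₀ (by positivity) (by norm_num)]
    have : j ^ 2 ≤ k * (M + 1) ^ 2 := by nlinarith
    nlinarith
  have a5 : min 1 ((j * a) ^ 2) ≤ (d / 32) ^ 2 := by
    refine le_of_mul_le_mul_left ?_ c0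
    nlinarith [mul_le_mul_of_nonneg_right a4 (sq_nonneg d)]
  rcases min_le_iff.1 a5 with b | b
  · nlinarith
  · have := abs_le_of_sq_le_sq b (by positivity)
    rw [abs_mul, abs_of_pos (by linarith)] at this
    nlinarith [abs_nonneg a]

theorem cle {cA k M : ℝ} (c1 : cA ≤ 1) (k1 : 1 ≤ k) (M0 : 0 ≤ M) :
    cA / (1024 * k * (M + 1) ^ 2) ≤ 1 / (4 * k * (M + 1) ^ 2) ∧
      cA / (1024 * k * (M + 1) ^ 2) ≤ 1 / 2 := by
  have q1 : 1 ≤ k * (M + 1) ^ 2 := by nlinarith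
  constructor <;> rw [div_le_div_iff₀ (by positivity) (by positivity)] <;> nlinarith

theorem near {ι : Type} [Fintype ι] {μ : ι → ℝ} (h : Sb μ) (X : ι → ℤ) (f : ι → ℂ) {α U d : ℝ}
    (hf : ∀ i, ‖f i‖ = 1) (hX : ∀ i, 0 ≤ X i ∧ (X i : ℝ) ≤ 2 * U) (d0 : 0 ≤ d)
    (ha : |α| * U ≤ d / 32) : ‖ex μ fun i => ee (α * X i) * f i‖ ≤ ‖ex μ f‖ + d / 2 := by
  refine sub_le_iff_le_add'.1 ((norm_sub_norm_le _ _).trans ?_)
  rw [ex, ex, ← sum_sub_distrib]
  calc _ ≤ ∑ i, μ i * (d / 2) := norm_sum_le_of_le _ fun i _ => by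
        rw [← mul_sub, ← sub_one_mul, norm_mul, norm_mul, hf, mul_one,
          Complex.norm_real, Real.norm_of_nonneg (h.1 i)]
        refine mul_le_mul_of_nonneg_left ((ee_sub _).trans ?_) (h.1 i)
        rw [abs_mul, abs_of_nonneg (a := (X i : ℝ)) (by exact_mod_cast (hX i).1)]
        linarith [mul_le_mul_of_nonneg_left (hX i).2 (abs_nonneg α)]
    _ ≤ _ := by rw [← sum_mul]; nlinarith [h.2]

end BCls

open BCls in
theorem rCls : OfCls := by
  intro hT hP hB hS hA k C hk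
  obtain ⟨J0, cA, c0, c1, hA⟩ := hA k C hk
  set M := ⌈4 * k * C⌉₊ with hM
  have k1 : (1 : ℝ) ≤ k := by exact_mod_cast hk
  have M0 : (0 : ℝ) ≤ M := M.cast_nonneg
  set c := cA / (1024 * k * (M + 1) ^ 2) with hc
  obtain ⟨c5, c2⟩ : c ≤ _ ∧ c ≤ _ := cle c1 k1 M0
  have c3 : 0 < c := by positivity
  refine ⟨J0 + 2 * M + 1, c, c3, by linarith, fun ι G _ _ _ μ u th x U J N2 d hJ hU hN hN' hμ hu hl
    d0 d1 α ψ hα h => ?_⟩
  have : NeZero N2 := ⟨hN.ne_zero⟩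
  obtain ⟨s1, -, s3, -⟩ := hS ι μ u J (fun i => ψ (th i, x i)) α hμ (by omega)
  have s4 := (hS ι μ u J (fun i => ψ (th i, x i)) α hμ (by omega)).2.2.2
    (fun i => (ψ.norm_apply _).le) hα
  have hX : ∀ p, 0 ≤ su u J p ∧ su u J p < (2 * U : ℕ) := fun p => by
    have := hu p.1; have := p.2.2; unfold su; omega
  have U0 : (0 : ℝ) < U := by exact_mod_cast (by omega : 0 < U)
  have N0 : (0 : ℝ) < N2 := by exact_mod_cast hN.pos
  have G0 : (0 : ℝ) < Nat.card G := by exact_mod_cast Nat.card_pos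
  have hcard : (Nat.card (ZMod N2 × G) : ℝ) = N2 * Nat.card G := by
    rw [Nat.card_prod, Nat.card_zmod, Nat.cast_mul]
  have c4 : c * d ^ 2 ≤ c := mul_le_of_le_one_right c3.le (pow_le_one₀ d0.le d1)
  obtain ⟨j, j1, jM, hj⟩ := (hB _ (ZMod N2 × G) (sm μ J) (su u J)
    (fun p => ((th p.1 : ZMod N2), x p.1)) k (2 * U) M _ s1 hk (by omega) hX hl (by
      rw [hcard]
      refine le_trans (le_of_eq ?_) (Nat.le_ceil _)
      push_cast; field_simp; ring)).2 ψ α (by linarith)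
  have ht : ∀ t, ψ (t, 0) = 1 := fun t => by
    have a1 : ψ (t, 0) ^ N2 = 1 := by
      rw [← AddChar.map_nsmul_eq_pow, Prod.smul_mk, smul_zero, nsmul_eq_mul, ZMod.natCast_self,
        zero_mul]
      exact ψ.map_zero_eq_one
    have a2 := pow_gcd_eq_one.2 ⟨a1, hj (t, 0)⟩
    rwa [(Nat.coprime_of_lt_prime (by omega) (by omega) hN : N2.Coprime j), pow_one] at a2
  have hψ : ∀ t g, ψ (t, g) = ψ (0, g) := fun t g => by
    rw [← one_mul (ψ (0, g)), ← ht t, ← AddChar.map_add_eq_mul]; simp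
  refine ⟨ψ.compAddMonoidHom (AddMonoidHom.inr _ _), hψ, ?_⟩
  have j1' : (1 : ℝ) ≤ j := by exact_mod_cast j1
  have jM' : (j : ℝ) ≤ M := by exact_mod_cast jM
  have a1 : |j * α| ≤ 1 / 2 := by
    rcases eq_or_ne α 0 with rfl | h0
    · simp
    have b0 := abs_pos.2 h0
    have b1 : (2 * M + 1 : ℝ) ≤ J := by exact_mod_cast (by omega : 2 * M + 1 ≤ J)
    have b2 : 1 / 2 < 1 / (2 * J * |α|) := by linarith [s4 h0]
    rw [div_lt_div_iff₀ two_pos (mul_pos (by linarith) b0)] at b2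
    rw [abs_mul, Nat.abs_cast]
    linarith [mul_le_mul_of_nonneg_right b1 b0.le, mul_le_mul_of_nonneg_right jM' b0.le]
  have a2 := hA ι μ u U J (by omega) hU hμ hu (fun v => by
    refine (marg hT _ _ _ k _ hl v).trans (le_of_eq ?_)
    rw [hcard]; field_simp) (j * α) a1
  have a3 := (hP _ (sm μ J) _ (c * d ^ 2) s1
    (fun p => by rw [norm_mul, ee_norm, ψ.norm_apply, mul_one]) h.le).2 j j1
  simp only [mul_pow, hj, mul_one, ee_pow, ← mul_assoc] at a3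
  have a6 := num (a := α * U) c0 k1 j1' jM' d0 d1 hc (by rw [← mul_assoc, ← mul_assoc]; linarith)
  rw [abs_mul, Nat.abs_cast] at a6
  have a7 := near s1 (su u J) (fun p => ψ (th p.1, x p.1)) (fun p => ψ.norm_apply _)
    (fun p => ⟨(hX p).1, by exact_mod_cast (hX p).2.le⟩) d0.le a6
  have a8 : c * d ^ 2 ≤ 1 / 2 * d := by
    have : d ^ 2 ≤ d := pow_le_of_le_one d0.le d1 two_ne_zero
    gcongr
  rw [s3] at a7
  simp only [hψ (th _)] at a7 h
  change _ < ‖ex μ fun i => ψ (0, x i)‖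
  linarith

end Pool.Agent.MP_f3836a_nt.VE.BC
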