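import Pool.Agent.MP_f3836a_nt.VE.SpecC

/-! Row CDich: the dichotomy at level `Q`. -/

set_option autoImplicit false

namespace Pool.Agent.MP_f3836a_nt.VE.BC

open Finset Pool.Agent.MP_c481b3_nt.H28.W Pool.Agent.MP_c481b3_nt.H63

namespace CDich

theorem ex_coe {ι : Type} (S : Finset ι) (μ : ι → ℝ) (f : ι → ℂ) :
    ex (fun x : S => μ x) (fun x => f x) = ∑ x ∈ S, (μ x : ℂ) * f x :=
  sum_coe_sort S fun x => (μ x : ℂ) * f x

theorem sub_le {ι : Type} (S T : Finset ι) (h : S ⊆ T) (μ : ι → ℝ) (f : ι → ℂ)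
    (hμ : ∀ x ∈ T, 0 ≤ μ x) (hf : ∀ x, ‖f x‖ ≤ 1) :
    ‖∑ x ∈ S, (μ x : ℂ) * f x‖ - (∑ x ∈ T, μ x - ∑ x ∈ S, μ x) ≤ ‖∑ x ∈ T, (μ x : ℂ) * f x‖ := by
  classical
  rw [← sum_sdiff h (f := μ), ← sum_sdiff h (f := fun x => (μ x : ℂ) * f x)]
  have h1 : ‖∑ x ∈ T \ S, (μ x : ℂ) * f x‖ ≤ ∑ x ∈ T \ S, μ x := by
    refine (norm_sum_le _ _).trans (sum_le_sum fun x hx => ?_)
    have h0 := hμ x (mem_sdiff.1 hx).1
    rw [norm_mul, Complex.norm_real, Real.norm_of_nonneg h0]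
    exact mul_le_of_le_one_right h0 (hf x)
  have h2 := norm_sub_le (∑ x ∈ T \ S, (μ x : ℂ) * f x + ∑ x ∈ S, (μ x : ℂ) * f x)
    (∑ x ∈ T \ S, (μ x : ℂ) * f x)
  rw [add_sub_cancel_left] at h2
  linarith

theorem law_pair {ι Γ : Type} [Fintype ι] [AddCommGroup Γ] (μ : ι → ℝ) (x : ι → Γ) (k : ℕ)
    (hμ : ∀ i, 0 ≤ μ i) (y : ℤ × Γ) :
    law μ (fun i => ((0 : ℤ), x i)) k y ≤ law μ x k y.2 := by
  unfold law tm
  refine sum_le_sum fun s _ => mul_le_mul_of_nonneg_left ?_ (prod_nonneg fun i _ => hμ _)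
  unfold ind
  beta_reduce
  split_ifs with h1 h2 h2
  · exact le_rfl
  · exact absurd (by rw [← h1, Prod.snd_sum]) h2
  · exact zero_le_one
  · exact le_rfl

end CDich

open CDich in
theorem rDich : OfDich := by
  intro hBes hBas hCard hHens A W Q M k0 ss St St2 μ π B D d d4 Bq hA hW hWQ hQ hBq hπ hSt h1 hcop
    hk0 hlaw hM hd hdk hd4 hVio hB hsub hm2
  classical
  have : Finite (RC A Q) := (hCard A W Q hA hWQ hQ).1
  have : Finite (RC A W) := Finite.of_surjective π hπ.surj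
  have hinj := AddChar.compAddMonoidHom_injective_left (M := ℂ) π hπ.surj
  refine ⟨B.image fun χ' => χ'.compAddMonoidHom π, card_image_of_injective _ hinj, ?_, ?_⟩
  · intro χ hχ
    obtain ⟨χ', h, rfl⟩ := mem_image.1 hχ
    exact ⟨χ', h, fun _ => rfl⟩
  intro χ hχ
  by_contra hbig
  push Not at hbig
  have hμ : ∀ x ∈ St, 0 ≤ μ x := fun x hx => (hSt x hx).1
  have hcs : cop St Q ⊆ St := filter_subset _ _
  have hd1 : d ≤ 1 := by
    refine hdk.trans ?_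
    have h2 : (1 : ℝ) ≤ k0 := by exact_mod_cast hk0
    have h3 : (0 : ℝ) ≤ M := Nat.cast_nonneg M
    rw [div_le_one (by positivity)]
    nlinarith [sq_nonneg (M : ℝ)]
  set m2 := ∑ x ∈ St2, μ x with hm2d
  have hm0 : 0 < m2 := by linarith
  have hf : ∀ x, ‖χ (cM A Q ss x)‖ ≤ 1 := fun x => (χ.norm_apply _).le
  have e1 : mch Q ss St μ χ = ∑ x ∈ cop St Q, (μ x : ℂ) * χ (cM A Q ss x) :=
    ex_coe _ μ fun x => χ (cM A Q ss x)
  have e2 : mch Q ss St2 (nz St2 μ) χ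
      = (∑ x ∈ cop St2 Q, (μ x : ℂ) * χ (cM A Q ss x)) / (m2 : ℂ) := by
    rw [mch, ex_coe _ (nz St2 μ) fun x => χ (cM A Q ss x), sum_div]
    refine sum_congr rfl fun x _ => ?_
    rw [nz, ← hm2d]
    push_cast
    ring
  rw [e2, norm_div, Complex.norm_real, Real.norm_of_nonneg hm0.le, lt_div_iff₀ hm0] at hbig
  have hc2 : cop St2 Q ⊆ cop St Q := filter_subset_filter _ hsub
  have h3 := sub_le _ _ hc2 μ _ (fun x hx => hμ x (hcs hx)) hf
  have h4 : ∑ x ∈ cop St Q, μ x - ∑ x ∈ cop St2 Q, μ x ≤ 1 - m2 := by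
    rw [← h1, hm2d, ← sum_sdiff hc2, ← sum_sdiff hsub, add_sub_cancel_right, add_sub_cancel_right]
    refine sum_le_sum_of_subset_of_nonneg (fun x hx => ?_) fun x hx _ => hμ x (mem_sdiff.1 hx).1
    obtain ⟨hx1, hx2⟩ := mem_sdiff.1 hx
    exact mem_sdiff.2 ⟨hcs hx1, fun h => hx2 (mem_filter.2 ⟨h, (mem_filter.1 hx1).2⟩)⟩
  have h5 : 1 - d / 2 < ‖mch Q ss St μ χ‖ := by
    rw [e1]
    nlinarith
  have hSb : Sb fun x : cop St Q => μ x := by
    refine ⟨fun x => hμ x (hcs x.2), ?_⟩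
    rw [sum_coe_sort (cop St Q) μ, ← h1]
    exact sum_le_sum_of_subset_of_nonneg hcs fun x hx _ => hμ x hx
  obtain ⟨j, hj1, hjM, hj⟩ := (hBes (cop St Q) (RC A Q) (fun x => μ x) (fun _ => 0)
    (fun x => cM A Q ss x) k0 1 M D hSb hk0 le_rfl (fun _ => by simp)
    (fun y => (law_pair _ _ _ hSb.1 y).trans (hlaw _)) (by simpa using hM)).2 χ 0 (by
      have : (fun i : cop St Q => ee (0 * ((0 : ℤ) : ℝ)) * χ (cM A Q ss i))
          = fun i : cop St Q => χ (cM A Q ss i) := by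
        funext i
        simp [ee]
      rw [this]
      unfold mch at h5
      linarith)
  obtain ⟨χ', hχ'⟩ := hHens A M.factorial W Q π χ hA hW hWQ hQ hπ
    (fun g => by
      obtain ⟨t, ht⟩ := Nat.dvd_factorial hj1 hjM
      rw [ht, pow_mul, hj, one_pow])
    (fun l c hl hlW hc hdv => by
      by_contra hne
      exact hVio l χ hlW ⟨hQ, hBq, hl, by linarith, c, hc, hdv, hne⟩)
  refine hχ (mem_image.2 ⟨χ', ?_, AddChar.ext _ _ fun g => (hχ' g).symm⟩)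
  by_contra hnB
  have h6 := hB χ' hnB
  rw [ex_coe St μ fun x => χ' (cM A W ss x)] at h6
  have h7 := sub_le _ _ hcs μ (fun x => χ' (cM A W ss x)) hμ fun x => (χ'.norm_apply _).le
  have h8 : ∑ x ∈ cop St Q, (μ x : ℂ) * χ' (cM A W ss x) = mch Q ss St μ χ := by
    rw [e1]
    refine sum_congr rfl fun x hx => ?_
    have hG := (hSt x (hcs hx)).2
    have hco : (nT x).Coprime Q := (mem_filter.1 hx).2
    obtain ⟨a1, a2⟩ := ((hBas A Q ss hA).2.2.2.2.2.2.2 x hG).2.2.1 hco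
    obtain ⟨-, a3⟩ := ((hBas A W ss hA).2.2.2.2.2.2.2 x hG).2.2.1 (hco.coprime_dvd_right hWQ)
    rw [hχ', a2, hπ.cl _ a1, a3]
  rw [h8, h1] at h7
  linarith

end Pool.Agent.MP_f3836a_nt.VE.BC
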