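import Pool.Agent.MP_f3836a_nt.VE.CGc

/-! Assembly of part C. -/

set_option autoImplicit false

namespace Pool.Agent.MP_f3836a_nt.VE.BC.CG

open Finset Filter Pool.Agent.MP_c481b3_nt.H28.W

theorem ev_sqrt (a : ℝ) {b : ℝ} (hb : 0 < b) : ∀ᶠ Y : ℝ in atTop, a ≤ b * √Y :=
  (Real.tendsto_sqrt_atTop.const_mul_atTop hb).eventually_ge_atTop a

theorem log_le {Y : ℝ} (h : 0 < Y) : Real.log Y ≤ 2 * √Y := by
  have := Real.log_le_sub_one_of_pos (Real.sqrt_pos.2 h)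
  rw [Real.log_sqrt h.le] at this
  linarith

theorem rho_low {Y e K c a G b l : ℝ} (hY : 0 < Y) (hc : 0 < c) (hG : 0 < G) (hl : 0 < l)
    (hb : 1 ≤ b) (ha : 0 < a) (h1 : G * l ≤ Y ^ (e / 2) * a) (h2 : K * (Real.pi * c) ≤ Y ^ (e / 2)) :
    K ≤ Y ^ e * (a * b / (Real.pi * (c * l) * G)) := by
  have hπ := Real.pi_pos
  have h3 : 0 < Y ^ (e / 2) := Real.rpow_pos_of_pos hY _
  rw [← mul_div_assoc, le_div_iff₀ (by positivity), ← add_halves e, Real.rpow_add hY]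
  calc _ = K * (Real.pi * c) * (G * l) := by ring
    _ ≤ Y ^ (e / 2) * (Y ^ (e / 2) * a) := mul_le_mul h2 h1 (by positivity) h3.le
    _ ≤ _ := by rw [← mul_assoc, ← mul_assoc]; exact le_mul_of_one_le_right (by positivity) hb

theorem sfe_mono {A W : ℕ} {ss : Pt → ℤ} {S : Finset (Multiset Pt)} {w : Multiset Pt → ℝ}
    {ρ X Λ0 Qm V ε K ε' K' : ℝ} {LL : Finset ℕ} {ad : Multiset Pt → ℕ → Prop}
    {fm : Multiset Pt → ℕ → ℝ} (hNu : NuS) (h : SFE A ss W S w ρ LL ad fm X Λ0 Qm V ε K)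
    (hρ : 0 < ρ) (hf : ∀ T j, ad T j → 0 ≤ fm T j) (h1 : ε ≤ ε') (h2 : K ≤ K') :
    SFE A ss W S w ρ LL ad fm X Λ0 Qm V ε' K' := fun Q a b c => by
  obtain ⟨Vs, ω, h3, h4, h5, h6⟩ := h Q a b c
  refine ⟨Vs, ω, h3, h4, h5, fun T j β n' t0 t1 t2 t3 t4 t5 t6 => ?_⟩
  obtain ⟨h7, h8⟩ := h6 T j β n' t0 t1 t2 t3 t4 t5 t6
  have : 0 ≤ ρ * fm T j * rat A W Q := mul_nonneg (mul_nonneg hρ.le (hf T j t0))
    (prod_nonneg fun l hl => inv_nonneg.2
      (hNu A l (Nat.prime_of_mem_primeFactors (mem_filter.1 hl).1)).2.2.2.1.le)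
  exact ⟨h7.trans (mul_le_mul_of_nonneg_right h2 this),
    fun c => (h8 c).trans (mul_le_mul_of_nonneg_right h1 this)⟩

theorem cMain_of (hB : BasS) (hPar : ParS) (hSum : SumS) (hLoc : LocS) (hOm : OmS) (hMg : MgS)
    (hPi : PiS) (hCard : CardS) (hLam : LamS) (hNu : NuS) (hMul : MulS) (hDens : DensS)
    (hMgz : MgzS) (hLsb : LsbS) (hLsg : LsgS) (hDich : DichS) (hRho : RhoS) (hAn : AnS)
    (hReg : RegS) (hRs : RsS) : CMain := by
  classical
  intro L0 E0 E1 C1 hL hE0 hE1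
  obtain ⟨k0, C0, hk0, hC0, hM⟩ := hMgz L0 E0 E1 C1 hL hE0
  obtain ⟨M1, d4, Y1, hd4, hLs⟩ := hLsb L0 E0 E1 C1 hL hE0
  set M0 := ⌈2 * k0 * C0⌉₊ with hM0
  refine ⟨M0.factorial, M0, M1, M0.factorial ^ M0 * M0.factorial ^ M0,
    min d4 (1 / (4 * k0 * (M0 + 1) ^ 2)), M0.factorial_pos, by positivity, fun E => ?_⟩
  obtain ⟨k', Cd0, hk', hCd0, hD⟩ := hDens L0 E0 E1 E C1 hL
  obtain ⟨cτ, Cτ, hc, hC, hRS⟩ := hRs
  have hE1' : (0 : ℝ) < E1 - 1 := by
    have : (2 : ℝ) ≤ E1 := by exact_mod_cast hE1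
    linarith
  set c0 : ℝ := L0 * (E1 - 1) with hc0
  have c0p : 0 < c0 := by positivity
  set Cd := 2 ^ k' * Cd0 * c0 with hCd
  have Cdp : 0 ≤ Cd := by positivity
  obtain ⟨J0, c, C', hJ0, cp, c1, hC', hA⟩ := hAn cτ Cτ hc hC hRS k' Cd hk' Cdp
  have e1 : 0 ≤ 1 + 8 * (5 * C' + Cd) / cτ := by positivity
  have e2 : 0 ≤ 32 * Cd / cτ := by positivity
  refine ⟨k', J0, C' + (1 + 8 * (5 * C' + Cd) / cτ) + 32 * Cd / cτ, c / 16, hk', by linarith,
    by positivity, by linarith, fun d W J k Λ0 ε0 hd hd0 hd1 hW hJ hε => ?_⟩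
  obtain ⟨δ1, hδ, hA⟩ := hA J k hJ
  obtain ⟨Y2, hR⟩ := hRho C1 (ε0 / 2) (by linarith)
  obtain ⟨Y00, hY⟩ := eventually_atTop.1 ((eventually_ge_atTop (7 : ℝ)).and
    ((eventually_gt_atTop (W : ℝ)).and ((eventually_ge_atTop Y1).and ((eventually_ge_atTop Y2).and
    ((eventually_ge_atTop (J : ℝ)).and ((ev_sqrt 2 one_pos).and ((ev_sqrt (1 + 2 * c0) hδ).and
    ((ev_sqrt ((1 + 2 * c0) * Real.exp Λ0) one_pos).and
    ((ev_sqrt (1 + k * J + (3 + 8 * k ^ 2 * L0) + k * (2 * E0) * C') (pow_pos hε 2)).and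
    ((ev_sqrt (4 * Cτ) (mul_pos hc hε)).and ((ev_sqrt (4 * E0) (hd0 M0)).and
    ((tendsto_rpow_atTop (half_pos hε)).eventually_ge_atTop
      ((4 ^ (L0 * k) * (|2 * C1| + 1)) ^ k * (Real.pi * c0))))))))))))))
  refine ⟨Y00, fun Y A ss Val St μ hY0 h => ?_⟩
  obtain ⟨y1, y2, y3, y4, y5, y6, y7, y8, y9, y10, y11, y12⟩ := hY Y hY0
  have hY1 : 1 < Y := by linarith
  have hs : 0 < √Y := by linarith
  have hlog := Real.log_pos hY1
  have hW0 : 0 < W := by have := hW.1; omega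
  have hWY : (W : ℝ) ≤ Y ^ E0 := y2.le.trans (le_self_pow₀ hY1.le (by omega))
  have hfin : ∀ Q, 0 < Q → Finite (RC A Q) := fun Q hQ => (hCard A 1 Q h.one (one_dvd _) hQ).1
  have hpos : ∀ Q, 0 < Q → (0 : ℝ) < Nat.card (RC A Q) := fun Q hQ => by
    have := hfin Q hQ
    exact_mod_cast Nat.card_pos
  have hcnt : ∀ Q, 0 < Q → 2 * k0 * Nat.card (RC A Q) * (C0 / Nat.card (RC A Q)) ≤ (M0 : ℝ) :=
    fun Q hQ => by rw [mul_assoc, mul_div_cancel₀ _ (hpos Q hQ).ne']; exact Nat.le_ceil _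
  have := hfin W hW0
  obtain ⟨i, B, cc, S, r1, r2, r3, r4, r5, r6, r7⟩ := hReg St (RC A W) (fun x => μ x)
    (fun x => cM A W ss x) (sigma h) k0 M0 _ d (fun x => h.pos _ x.2)
    ((sum_coe_sort St μ).trans h.tot) (fun x => (h.cj _ x.2).2) hk0
    (hM Y A W ss Val St St μ y1 h hW0 hWY (cop_small h hW0 y2)) (hcnt W hW0) hd hd0
    (hd1.trans (min_le_right _ _))
  obtain ⟨LL, l1, l2, l3⟩ := hLsg A W M1 ss St μ (Y ^ E0) d4 (hLs Y A ss Val St μ y3 h)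
  obtain ⟨lab, hlab⟩ := label B M0.factorial_pos r3 r4 fun z => cI W (Jd z.p (ss z))
  have hb : (1 : ℝ) ≤ B.card := by exact_mod_cast r2
  have hA0 : (0 : ℝ) < √A * W ^ 2 :=
    mul_pos (Real.sqrt_pos.2 (by exact_mod_cast h.one.le)) (by positivity)
  have hρ : 0 < √A * W ^ 2 * B.card / (Real.pi * (c0 * Real.log Y) * Nat.card (RC A W)) := by
    have := hpos W hW0
    have := Real.pi_pos
    positivity
  have di : d i ≤ min d4 (1 / (4 * k0 * (M0 + 1) ^ 2)) := (hd (Nat.zero_le i)).trans hd1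
  have di1 : d i ≤ 1 := (di.trans (min_le_right _ _)).trans ((div_le_one (by positivity)).2 (by
    have h1 : (1 : ℝ) ≤ k0 := by exact_mod_cast hk0
    have h2 : (1 : ℝ) ≤ (M0 + 1) ^ 2 := one_le_pow₀ (le_add_of_nonneg_left (Nat.cast_nonneg _))
    nlinarith))
  refine ⟨i, St.filter fun x => ∀ χ ∈ B, χ (cM A W ss x) = cc χ ∧ χ (cM A W ss (x.map Pt.cj)) = cc χ,
    LL, lab, fun T => ∀ χ ∈ B, χ (cM A W ss T) = 1, _, r1, filter_subset _ _, fun x hx => ?_, ?_, l1,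
    l2, fun χ _ => by simp [cM], fun T T' a b χ hχ => ?_, fun T a b c =>
      ⟨fun χ hχ => (hlab T a b c χ hχ).1, fun χ hχ => (hlab T a b c χ hχ).2⟩, hρ,
    fun St2 hS2 hm2 => ?_⟩
  · obtain ⟨h1, h2⟩ := mem_filter.1 hx
    refine mem_filter.2 ⟨(h.cj x h1).1, fun χ hχ => ⟨(h2 χ hχ).2, ?_⟩⟩
    have e : (x.map Pt.cj).map Pt.cj = x :=
      congrArg Subtype.val ((sigma h).left_inv ⟨x, h1⟩)
    rw [e]; exact (h2 χ hχ).1
  · refine r6.trans (le_of_eq ?_)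
    rw [sum_filter, ← sum_coe_sort St, ← sum_filter]
    exact sum_congr (Finset.ext fun s => by rw [r5, mem_filter]; simp; rfl) fun _ _ => rfl
  · rw [cM_add, AddChar.map_add_eq_mul, a χ hχ, b χ hχ, mul_one]
  have hS : St2 ⊆ St := hS2.trans (filter_subset _ _)
  have hm : 1 / 2 ≤ ∑ x ∈ St2, μ x := by linarith
  refine ⟨fun T j β hj hT => (rw_le hMul h hS hm hT j β).trans (le_trans ?_
    (rho_low (by linarith) c0p (hpos W hW0) hlog hb hA0 (hR Y A W y4 h.one hW0 h.hb) y12)),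
    fun U u1 u2 => ?_⟩
  · have h1 : (1 : ℝ) ≤ 4 ^ (L0 * k) := one_le_pow₀ (by norm_num)
    refine le_trans (pow_le_pow_left₀ (by positivity) ?_ j) (pow_le_pow_right₀
      (one_le_mul_of_one_le_of_one_le h1 (le_add_of_nonneg_left (abs_nonneg _))) hj)
    gcongr
    · norm_num
    · linarith
  have hU' : (0 : ℝ) < U := by linarith
  have hU : 0 < U := by exact_mod_cast hU'
  have ea : U * eta L0 E1 Y U = c0 * Real.log Y := by rw [eta, mul_div_cancel₀ _ hU'.ne']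
  have hJU : J ≤ U := by exact_mod_cast y5.trans u1
  have hl2 := mul_le_mul_of_nonneg_left (log_le (by linarith : 0 < Y)) c0p.le
  have eY : √Y * √Y = Y := Real.mul_self_sqrt (by linarith)
  have hη : eta L0 E1 Y U ≤ δ1 := by
    rw [eta, div_le_iff₀ hU']
    have h1 := mul_le_mul_of_nonneg_right y7 hs.le
    have h2 := mul_le_mul_of_nonneg_left u1 hδ.le
    rw [mul_assoc δ1, eY] at h1
    linarith
  have hDH : ∀ (Q : ℕ) (lam : Ideal (O A) → ℂ), 3 ≤ Q → (Q : ℝ) ≤ Y ^ E0 → Lam A Q lam →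
      DH (fun x : cop St2 Q => nz St2 μ x) (fun x : cop St2 Q => cM A Q ss x)
        (fun x : cop St2 Q => lam (IM A ss x)) k' (eta L0 E1 Y U)
        (Cd / (Nat.card (RC A Q) * (U * eta L0 E1 Y U))) := fun Q lam q1 q2 q3 => by
    have := hpos Q (by omega)
    have h1 := dh_scale (δ1 := eta L0 E1 Y U)
      (fun x : cop St2 Q => (nz_le hm (h.pos _ (hS (filter_subset _ _ x.2)))).1)
      (fun x => (nz_le hm (h.pos _ (hS (filter_subset _ _ x.2)))).2) (by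
        have h2 : 1 ≤ Real.log Y := (Real.le_log_iff_exp_le (by linarith)).2
          (Real.exp_one_lt_d9.le.trans (by linarith))
        have h3 : (1 : ℝ) ≤ L0 := by exact_mod_cast hL
        have h4 : (2 : ℝ) ≤ E1 := by exact_mod_cast hE1
        exact div_le_div₀ (by positivity) (one_le_mul_of_one_le_of_one_le
          (one_le_mul_of_one_le_of_one_le h3 (by linarith)) h2) hU' u2)
      (hD Y A Q ss Val St (cop St2 Q) μ lam (by linarith) h q1 q2 q3 (filter_subset_filter _ hS))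
    convert h1 using 1
    rw [ea, hCd]
    field_simp
  have hcv : ∀ v, cv St2 (nz St2 μ) (uu L0 E1 Y U) J k' v ≤ C' / U := fun v => by
    obtain ⟨lam, hl⟩ := hLam A W h.one hW.1
    have e : cop St2 W = St2 :=
      filter_true_of_mem fun x hx => (mem_filter.1 (cop_small h hW0 y2 (hS hx))).2
    have h1 := (hA _ _ _ _ _ _ U _ _ (sb_cop h hS (filter_subset _ _) hm) hJU
      (fun x => (uu_spec h hY1 hL hE1 hU (hS (filter_subset _ _ x.2))).1)
      (eta_pos hY1 hL hE1 hU) hη (cel hB h hY1 hL hE1 hU hl hS) (hDH W lam hW.1 hWY hl)).1 v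
    rw [← cv_eq] at h1
    unfold cop at e
    rwa [e] at h1
  refine ⟨fun x hx => (uu_spec h hY1 hL hE1 hU hx).1, fun v => (hcv v).trans
    (div_le_div_of_nonneg_right (by linarith) hU'.le),
    fun ad fm X V Qm ε Λ ε' K a1 a2 a3 a4 a5 a6 a7 a8 a9 a10 had => ?_⟩
  have hex := Real.exp_pos Λ0
  rw [← ea]
  refine sfe_mono hNu (sfe_all hB hPar hSum hLoc hOm hMg hPi hCard hLam (d := d i / 4) (cc := cc) hc
    hC hRS Cdp hC' hA h hL hE0 hE1 hS hm hW.1 (hJ0.trans hJ) hJU hη hDH hcv r2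
    (by linarith [hd0 i]) (by linarith) (fun Q π q1 q2 q3 q4 q5 => ?_)
    (fun χ hχ x hx => ((mem_filter.1 (hS2 hx)).2 χ hχ).1) (fun T j hT => ?_) hε a1 a2 a3 a4 a5 a6 a7
    a8 (by linarith) (by linarith) (by nlinarith only [y8, hex, c0p]) ?_ y9 y10) (ea ▸ hρ)
    (fun T j hT => le_trans (by positivity) (had T j hT).2.2.2.2.1)
    (le_trans (mul_le_mul_of_nonneg_right (by linarith) (by linarith)) a9)
    (le_trans (mul_le_mul_of_nonneg_right (by linarith) (by linarith)) a10)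
  · refine hDich A W Q M0 k0 ss St St2 μ π B _ (d i) d4 _ h.one hW q1 q2 q3 q4
      (fun x hx => ⟨h.pos x hx, fun z hz => gd h hx hz⟩) h.tot ?_ hk0
      (hM Y A Q ss Val St _ μ y1 h q2 q3 Subset.rfl) (hcnt Q q2) (hd0 i)
      (di.trans (min_le_right _ _)) (di.trans (min_le_left _ _)) (fun l χ => l3 Q l χ q5) r7 hS hm2
    have h1 := mass_cop h hY1 q2 q3 Subset.rfl
    have h2 := sum_sdiff (f := μ) (filter_subset (fun x => (nT x).Coprime Q) St)
    have h3 : E0 / √Y ≤ d i / 4 := by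
      rw [div_le_div_iff₀ hs four_pos]
      linarith [mul_le_mul_of_nonneg_right (hd r1) hs.le]
    rw [h.tot] at h2
    unfold cop at h1 ⊢
    linarith
  · obtain ⟨t1, t2, t3, t4, t5, t6, ⟨T0, xs, t7, t8, t9, t10⟩, t11⟩ := had T j hT
    refine ⟨t1, t2, t3, t4, t5, by convert t6 using 4; ring, fun χ hχ g hg => ?_, t11⟩
    obtain ⟨x, hx⟩ := nonempty_of_sum_ne_zero (show ∑ x ∈ St2, μ x ≠ 0 by linarith)
    refine ch_target χ hg ?_ ?_ t10
    · rw [t7, cM_add, AddChar.map_add_eq_mul, t8 χ hχ, one_mul]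
      exact ch_sum χ _ (by simp [cM]) (cM_add A W ss) _ xs
        fun y hy => ((mem_filter.1 (t9 y hy)).2 χ hχ).1
    · rw [← ((mem_filter.1 (hS2 hx)).2 χ hχ).1]; exact r4 χ hχ _
  · have h1 := mul_le_mul_of_nonneg_right hl2 hex.le
    have h2 := mul_le_mul_of_nonneg_right y8 hs.le
    rw [one_mul, eY] at h2
    nlinarith only [h1, h2, mul_pos hex hs]

end Pool.Agent.MP_f3836a_nt.VE.BC.CG
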