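import Pool.Agent.MP_f3836a_nt.VE.SpecC

/-! Lower bound for the denominator of the sieve. -/

set_option autoImplicit false

namespace Pool.Agent.MP_f3836a_nt.VE.BC

open Finset Pool.Agent.MP_c481b3_nt.H63

namespace CGl

theorem markov (g a : ℕ → ℝ) (Q : Finset ℕ) (hg : ∀ l ∈ Q, 0 ≤ g l) (ha : ∀ l ∈ Q, 0 ≤ a l) :
    ∑ D ∈ Q.powerset, (∏ l ∈ D, g l) * ∑ l ∈ D, a l ≤ (∏ l ∈ Q, (1 + g l)) * ∑ l ∈ Q, g l * a l := by
  induction Q using Finset.induction_on with
  | empty => simp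
  | insert l Q hl ih =>
    have ih := ih (fun r hr => hg r (mem_insert_of_mem hr)) fun r hr => ha r (mem_insert_of_mem hr)
    have h1 := hg l (mem_insert_self _ _)
    have h2 := ha l (mem_insert_self _ _)
    have h3 : 0 ≤ ∏ l ∈ Q, (1 + g l) :=
      prod_nonneg fun r hr => add_nonneg zero_le_one (hg r (mem_insert_of_mem hr))
    have e : ∑ D ∈ Q.powerset, (∏ r ∈ insert l D, g r) * ∑ r ∈ insert l D, a r =
        g l * a l * ∏ r ∈ Q, (1 + g r) + g l * ∑ D ∈ Q.powerset, (∏ r ∈ D, g r) * ∑ r ∈ D, a r := by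
      rw [prod_one_add, mul_sum, mul_sum, ← sum_add_distrib]
      refine sum_congr rfl fun D hD => ?_
      have : l ∉ D := fun h => hl (mem_powerset.1 hD h)
      rw [prod_insert this, sum_insert this]
      ring
    rw [sum_powerset_insert hl, e, prod_insert hl, sum_insert hl]
    nlinarith [mul_le_mul_of_nonneg_left ih h1, mul_nonneg (mul_nonneg h1 (mul_nonneg h1 h2)) h3]

theorem half (g : ℕ → ℝ) (P Q : Finset ℕ) (Y : ℝ) (hY : 2 ≤ Y) (hQ : Q ⊆ P)
    (hg : ∀ l ∈ P, l.Prime ∧ 0 ≤ g l) (h : ∑ l ∈ Q, g l * Real.log l ≤ Real.log Y / 4) :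
    (∏ l ∈ Q, (1 + g l)) / 2 ≤ Gs g P ⌊√Y⌋₊ := by
  have hL : 0 < Real.log Y := Real.log_pos (by linarith)
  have h0 : ∀ D ⊆ P, 0 ≤ ∏ l ∈ D, g l := fun D hD => prod_nonneg fun l hl => (hg l (hD hl)).2
  have h1 := markov g (fun l => Real.log l) Q (fun l hl => (hg l (hQ hl)).2)
    fun l _ => Real.log_natCast_nonneg l
  have h2 : 0 ≤ ∏ l ∈ Q, (1 + g l) := prod_nonneg fun l hl => add_nonneg zero_le_one (hg l (hQ hl)).2
  have h3 : ∑ D ∈ Q.powerset with ∏ r ∈ D, r ≤ ⌊√Y⌋₊, ∏ l ∈ D, g l ≤ Gs g P ⌊√Y⌋₊ :=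
    sum_le_sum_of_subset_of_nonneg (filter_subset_filter _ (powerset_mono.2 hQ))
      fun D hD _ => h0 D (mem_Ds.1 hD).1
  have h4 : (∏ l ∈ Q, (1 + g l)) * (Real.log Y / 2) ≤
      (∑ D ∈ Q.powerset with ∏ r ∈ D, r ≤ ⌊√Y⌋₊, ∏ l ∈ D, g l) * (Real.log Y / 2) +
        ∑ D ∈ Q.powerset, (∏ l ∈ D, g l) * ∑ l ∈ D, Real.log l := by
    rw [prod_one_add, sum_filter, sum_mul, sum_mul, ← sum_add_distrib]
    refine sum_le_sum fun D hD => ?_
    have hD' := (mem_powerset.1 hD).trans hQ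
    have p := h0 D hD'
    split_ifs with e
    · exact le_add_of_nonneg_right (mul_nonneg p (sum_nonneg fun l _ => Real.log_natCast_nonneg l))
    · rw [zero_mul, zero_add]
      refine mul_le_mul_of_nonneg_left ?_ p
      rw [Nat.le_floor_iff (Real.sqrt_nonneg Y), not_le, Nat.cast_prod] at e
      rw [← Real.log_prod fun l hl => Nat.cast_ne_zero.2 (hg l (hD' hl)).1.ne_zero,
        ← Real.log_sqrt (by linarith)]
      exact Real.log_le_log (Real.sqrt_pos.2 (by linarith)) e.le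
  refine le_trans ?_ h3
  refine le_of_mul_le_mul_right ?_ (half_pos hL)
  nlinarith [mul_le_mul_of_nonneg_left h h2]

end CGl

theorem rGl : OfGl := by
  rintro ⟨C, hC, h⟩
  have sub : ∀ (x : ℝ) (Q : Finset ℕ), 1 ≤ x → (∀ l ∈ Q, l.Prime ∧ (l : ℝ) ≤ x) →
      ∑ l ∈ Q, Real.log l / l ≤ C * Real.log x := fun x Q hx hQ =>
    le_trans (sum_le_sum_of_subset_of_nonneg (fun l hl => mem_filter.2 ⟨mem_range.2
      (Nat.lt_succ_of_le (Nat.le_floor (hQ l hl).2)), (hQ l hl).1⟩)
      fun l _ _ => div_nonneg (Real.log_natCast_nonneg l) l.cast_nonneg) (h x hx)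
  refine ⟨Real.exp (-(144 * C ^ 2)) / 2, by positivity, fun Y P g hY hP => ?_⟩
  have hL : 0 < Real.log Y := Real.log_pos (by linarith)
  set t := Real.log Y / (24 * C) with ht
  have t0 : 0 < t := by positivity
  have h1 := CGl.half g P (P.filter fun l => Real.log l ≤ t) Y hY (filter_subset _ _)
    (fun l hl => ⟨(hP l hl).1, (hP l hl).2.2.1⟩) (by
      have := sub (Real.exp t) (P.filter fun l => Real.log l ≤ t) (Real.one_le_exp t0.le)
        fun l hl => ⟨(hP l (mem_filter.1 hl).1).1, (Real.log_le_iff_le_exp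
          (Nat.cast_pos.2 (hP l (mem_filter.1 hl).1).1.pos)).1 (mem_filter.1 hl).2⟩
      rw [Real.log_exp] at this
      calc _ ≤ ∑ l ∈ P.filter fun l : ℕ => Real.log l ≤ t, 6 * (Real.log l / l) :=
            sum_le_sum fun l hl => by
              rw [← mul_div_assoc, mul_div_right_comm]
              exact mul_le_mul_of_nonneg_right (hP l (mem_filter.1 hl).1).2.2.2
                (Real.log_natCast_nonneg l)
        _ ≤ 6 * (C * t) := by rw [← mul_sum]; linarith
        _ = _ := by rw [ht]; field_simp; ring)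
  have h2 : ∏ l ∈ P.filter fun l : ℕ => ¬Real.log l ≤ t, (1 + g l) ≤ Real.exp (144 * C ^ 2) := by
    have := sub Y (P.filter fun l => ¬Real.log l ≤ t) (by linarith)
      fun l hl => ⟨(hP l (mem_filter.1 hl).1).1, (hP l (mem_filter.1 hl).1).2.1.le⟩
    calc _ ≤ ∏ l ∈ P.filter fun l : ℕ => ¬Real.log l ≤ t, Real.exp (6 / t * (Real.log l / l)) :=
          prod_le_prod (fun l hl => add_nonneg zero_le_one (hP l (mem_filter.1 hl).1).2.2.1)
            fun l hl => by
              obtain ⟨a, b⟩ := mem_filter.1 hl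
              refine le_trans ?_ (Real.add_one_le_exp _)
              rw [add_comm]
              refine add_le_add_left ((hP l a).2.2.2.trans ?_) _
              rw [← mul_div_assoc]
              refine div_le_div_of_nonneg_right ?_ l.cast_nonneg
              rw [div_mul_eq_mul_div, le_div_iff₀ t0]
              linarith [not_le.1 b]
      _ ≤ _ := by
          rw [← Real.exp_sum, ← mul_sum]
          refine Real.exp_le_exp.2 ((mul_le_mul_of_nonneg_left this (by positivity)).trans_eq ?_)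
          rw [ht]; field_simp; ring
  refine le_trans ?_ h1
  rw [← prod_filter_mul_prod_filter_not P (fun l => Real.log l ≤ t), Real.exp_neg]
  have h3 : 0 ≤ ∏ l ∈ P.filter fun l : ℕ => Real.log l ≤ t, (1 + g l) :=
    prod_nonneg fun l hl => add_nonneg zero_le_one (hP l (mem_filter.1 hl).1).2.2.1
  have h4 := Real.exp_pos (144 * C ^ 2)
  rw [div_mul_eq_mul_div, inv_mul_eq_div]
  refine div_le_div_of_nonneg_right ?_ zero_le_two
  rw [div_le_iff₀ h4]
  exact mul_le_mul_of_nonneg_left h2 h3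

end Pool.Agent.MP_f3836a_nt.VE.BC
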