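import Pool.Agent.MP_f3836a_nt.VE.SpecB

/-! The local limit theorem from Fourier inversion and the classification of large characters. -/

set_option autoImplicit false

namespace Pool.Agent.MP_f3836a_nt.VE.BC

open Finset

namespace BLlt

theorem law_congr {ι Γ Γ' : Type} [Fintype ι] [AddCommMonoid Γ] [AddCommMonoid Γ'] (μ : ι → ℝ)
    (X : ι → Γ) (X' : ι → Γ') (j : ℕ) (y : Γ) (y' : Γ')
    (h : ∀ s : Fin j → ι, ∑ i, X (s i) = y ↔ ∑ i, X' (s i) = y') : law μ X j y = law μ X' j y' := by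
  unfold law
  congr 1
  funext s
  rw [propext (h s)]

theorem cast_iff {N : ℕ} {a b : ℤ} (h : |b - a| < N) : (a : ZMod N) = b ↔ a = b := by
  rw [ZMod.intCast_eq_intCast_iff_dvd_sub]
  exact ⟨fun d => (sub_eq_zero.1 (Int.eq_zero_of_abs_lt_dvd d h)).symm, fun e => by simp [e]⟩

theorem law_red {ι : Type} [Fintype ι] (μ : ι → ℝ) (X : ι → ℤ) (N j : ℕ) (v : ℤ)
    (h : ∀ s : Fin j → ι, |v - ∑ i, X (s i)| < N) :
    law μ (fun p => (X p : ZMod N)) j (v : ZMod N) = law μ X j v :=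
  law_congr μ _ _ j _ _ fun s => by rw [← Int.cast_sum, cast_iff (h s)]

theorem law_red2 {ι Γ : Type} [Fintype ι] [AddCommMonoid Γ] (μ : ι → ℝ) (X : ι → ℤ × Γ) (N j : ℕ)
    (v : ℤ) (y : Γ) (h : ∀ s : Fin j → ι, |v - ∑ i, (X (s i)).1| < N) :
    law μ (fun p => (((X p).1 : ZMod N), (X p).2)) j ((v : ZMod N), y) = law μ X j (v, y) :=
  law_congr μ _ _ j _ _ fun s => by
    rw [Prod.ext_iff, Prod.ext_iff, Prod.fst_sum, Prod.fst_sum, Prod.snd_sum, Prod.snd_sum,
      ← Int.cast_sum, cast_iff (h s)]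

theorem exists_ee {N : ℕ} [NeZero N] (φ : AddChar (ZMod N) ℂ) :
    ∃ α : ℝ, |α| ≤ 1 / 2 ∧ ∀ n : ℤ, φ n = ee (α * n) := by
  have hp := Real.pi_pos
  refine ⟨Complex.arg (φ 1) / (2 * Real.pi), ?_, fun n => ?_⟩
  · rw [abs_div, abs_of_pos (by positivity : 0 < 2 * Real.pi), div_le_iff₀ (by positivity)]
    linarith [Complex.abs_arg_le_pi (φ 1)]
  · have e := Complex.norm_mul_exp_arg_mul_I (φ 1)
    rw [AddChar.norm_apply, Complex.ofReal_one, one_mul] at e
    have e2 : φ n = φ 1 ^ n := by rw [← AddChar.map_zsmul_eq_zpow, zsmul_one]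
    have e3 : (Real.pi : ℂ) ≠ 0 := Complex.ofReal_ne_zero.2 hp.ne'
    rw [e2, ← e, ← Complex.exp_int_mul, ee, e]
    congr 1
    push_cast
    field_simp

/-- the characters that are trivial on the middle factor -/
noncomputable def emb (A T G : Type) [AddCommGroup A] [AddCommGroup T] [AddCommGroup G]
    (p : AddChar A ℂ × AddChar G ℂ) : AddChar (A × T × G) ℂ :=
  p.1.compAddMonoidHom (AddMonoidHom.fst _ _) *
    p.2.compAddMonoidHom ((AddMonoidHom.snd _ _).comp (AddMonoidHom.snd _ _))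

theorem emb_apply {A T G : Type} [AddCommGroup A] [AddCommGroup T] [AddCommGroup G]
    (p : AddChar A ℂ × AddChar G ℂ) (y : A × T × G) : emb A T G p y = p.1 y.1 * p.2 y.2.2 := rfl

theorem emb_inj (A T G : Type) [AddCommGroup A] [AddCommGroup T] [AddCommGroup G] :
    Function.Injective (emb A T G) := fun p q h => by
  refine Prod.ext (AddChar.ext _ _ fun a => ?_) (AddChar.ext _ _ fun g => ?_)
  · simpa [emb_apply] using DFunLike.congr_fun h (a, 0, 0)
  · simpa [emb_apply] using DFunLike.congr_fun h (0, 0, g)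

theorem ex_mul {ι : Type} [Fintype ι] (μ : ι → ℝ) (f : ι → ℂ) (c : ℂ) :
    (ex μ fun i => f i * c) = ex μ f * c := by
  simp only [ex, sum_mul, mul_assoc]

end BLlt

open BLlt in
theorem rLlt : OfLlt := by
  intro tup sms inv cls k' C hk
  obtain ⟨J0, c, c0, c1, H⟩ := cls k' C hk
  refine ⟨max J0 1, c, c0, c1, fun ι G _ _ _ μ u th x U J N2 d hJ hU hN hN0 sb hu hl d0 d1 B cc j g
    hB hB' hj hg v t => ?_⟩
  classical
  have J1 : 1 ≤ J := (le_max_right _ _).trans hJ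
  have : NeZero N2 := ⟨hN.ne_zero⟩
  have sb' : Sb (sm μ J) := (sms ι μ u J (fun _ => 0) 0 sb J1).1
  obtain ⟨N, hNd⟩ : ∃ N : ℕ, N = 2 * U * j + v.natAbs + 1 := ⟨_, rfl⟩
  have : NeZero N := ⟨by omega⟩
  have rng : ∀ (m : ℕ) (s : Fin m → ι × Fin J), m ≤ j →
      0 ≤ ∑ i, su u J (s i) ∧ ∑ i, su u J (s i) ≤ ((2 * U * j : ℕ) : ℤ) := fun m s hm => by
    refine ⟨sum_nonneg fun i _ => by unfold su; positivity, ?_⟩
    refine (sum_le_card_nsmul _ _ ((2 * U : ℕ) : ℤ) fun i _ => ?_).trans ?_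
    · have := hu (s i).1
      have := (s i).2.2
      unfold su
      omega
    · rw [card_univ, Fintype.card_fin, nsmul_eq_mul, mul_comm]
      exact_mod_cast Nat.mul_le_mul_left _ hm
  have rv : ∀ s : Fin j → ι × Fin J, |v - ∑ i, su u J (s i)| < N := fun s => by
    have := rng j s le_rfl
    rw [abs_lt]
    omega
  have i1 := inv _ (ZMod N) (sm μ J) (fun p => (su u J p : ZMod N)) 0 j 1 0 univ sb' (fun y => by
    obtain ⟨-, -, -, t4, t5, -⟩ := tup _ (sm μ J)
    refine (t5 sb'.1 0 _ (fun _ => 1) fun s => ?_).trans (by rw [t4, pow_zero, mul_one])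
    unfold ind
    split_ifs <;> norm_num) le_rfl (fun ξ h => absurd (mem_univ ξ) h) (by omega) v
  rw [zero_pow (by omega), zero_mul, norm_le_zero_iff, sub_eq_zero, law_red _ _ _ _ _ rv,
    Nat.card_zmod, eq_div_iff (Nat.cast_ne_zero.2 (NeZero.ne N))] at i1
  have i2 := inv _ (ZMod N × ZMod N2 × G) (sm μ J)
    (fun p => (((tri u J N2 th x p).1 : ZMod N), (tri u J N2 th x p).2)) k' j
    (C / (U * N2 * Nat.card G)) (1 - c * d ^ 2) ((univ ×ˢ B).image (emb (ZMod N) (ZMod N2) G)) sb'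
    (fun y => by
      have e : y = (((y.1.val : ℤ) : ZMod N), y.2) := by simp
      rw [e, law_red2 _ _ _ _ _ _ fun s => ?_]
      · exact hl _
      · have a1 := rng k' s (by omega)
        have a2 := ZMod.val_lt y.1
        change |_ - ∑ i, su u J (s i)| < _
        rw [abs_lt]
        omega)
    (sub_nonneg.2 (mul_le_one₀ c1 (by positivity) (pow_le_one₀ d0.le d1)))
    (fun ξ hξ => by
      by_contra hn
      obtain ⟨α, a1, a2⟩ := exists_ee (ξ.compAddMonoidHom (AddMonoidHom.inl _ _))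
      have sp : ∀ y, ξ y = ξ.compAddMonoidHom (AddMonoidHom.inl _ _) y.1 *
          ξ.compAddMonoidHom (AddMonoidHom.inr _ _) y.2 := fun y => by
        simp [← AddChar.map_add_eq_mul]
      obtain ⟨χ, b1, b2⟩ := H ι G μ u th x U J N2 d ((le_max_left _ _).trans hJ) hU hN
        ((le_max_left _ _).trans hN0) sb hu hl d0 d1 α (ξ.compAddMonoidHom (AddMonoidHom.inr _ _)) a1
        (by
          refine (not_le.1 hn).trans_eq ?_
          congr 2
          funext p
          rw [sp, a2]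
          rfl)
      refine hξ (mem_image.2 ⟨(ξ.compAddMonoidHom (AddMonoidHom.inl _ _), χ),
        mem_product.2 ⟨mem_univ _, by_contra fun h => (hB' χ h).not_gt b2⟩, ?_⟩)
      refine AddChar.ext _ _ fun y => ?_
      rw [emb_apply, sp y, ← b1 y.2.1 y.2.2])
    hj ((v : ZMod N), t, g)
  rw [law_red2 _ (tri u J N2 th x) N j v _ rv, sum_image (emb_inj _ _ _).injOn, sum_product] at i2
  have e1 : ∀ φ : AddChar (ZMod N) ℂ, ∀ χ ∈ B,
      (ex (sm μ J) fun p => emb (ZMod N) (ZMod N2) G (φ, χ)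
        (((tri u J N2 th x p).1 : ZMod N), (tri u J N2 th x p).2)) ^ j *
        emb (ZMod N) (ZMod N2) G (φ, χ) (-((v : ZMod N), t, g)) =
      (ex (sm μ J) fun p => φ (su u J p : ZMod N)) ^ j * φ (-(v : ZMod N)) := fun φ χ hχ => by
    have a1 : χ g * χ (-g) = 1 := by
      rw [← AddChar.map_add_eq_mul, add_neg_cancel, AddChar.map_zero_eq_one]
    simp only [emb_apply, tri, hB χ hχ, ex_mul, Prod.fst_neg, Prod.snd_neg]
    rw [mul_pow, ← hg χ hχ, mul_mul_mul_comm, a1, mul_one]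
  rw [sum_congr rfl fun φ _ => sum_congr rfl (e1 φ)] at i2
  simp only [sum_const, nsmul_eq_mul] at i2
  rw [← mul_sum, ← i1, Nat.card_prod, Nat.card_prod, Nat.card_zmod, Nat.card_zmod] at i2
  refine le_of_eq_of_le ?_ i2
  rw [← Real.norm_eq_abs, ← Complex.norm_real]
  congr 1
  have n0 : (N : ℂ) ≠ 0 := Nat.cast_ne_zero.2 (NeZero.ne N)
  push_cast
  rw [← mul_assoc, mul_comm (N : ℂ), mul_div_mul_right _ _ n0]
  ring

end Pool.Agent.MP_f3836a_nt.VE.BC
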