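import Pool.Agent.MP_f3836a_nt.VE.SpecC

/-! The exceptional primes come from a maximal sequence of violations. -/

set_option autoImplicit false

namespace Pool.Agent.MP_f3836a_nt.VE.BC

open Finset

namespace CLsg

theorem maxi {T : Type} (p : T → Prop) (r : T → T → Prop) (M1 : ℕ)
    (h : ∀ (M : ℕ) (s : Fin M → T), (∀ i, p (s i)) → (∀ i j, i < j → r (s i) (s j)) → M ≤ M1) :
    ∃ (M : ℕ) (s : Fin M → T), M ≤ M1 ∧ (∀ i, p (s i)) ∧ ∀ t, (∀ i, r (s i) t) → ¬p t := by
  by_contra hn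
  have key : ∀ M : ℕ, ∃ s : Fin M → T, (∀ i, p (s i)) ∧ ∀ i j, i < j → r (s i) (s j) := fun M => by
    induction M with
    | zero => exact ⟨Fin.elim0, fun i => i.elim0, fun i => i.elim0⟩
    | succ M ih =>
      obtain ⟨s, a, b⟩ := ih
      obtain ⟨t, c, e⟩ : ∃ t, (∀ i, r (s i) t) ∧ p t := by
        by_contra u
        exact hn ⟨M, s, h M s a b, a, fun t c e => u ⟨t, c, e⟩⟩
      refine ⟨Fin.snoc s t, fun i => ?_, fun i j hij => ?_⟩
      · induction i using Fin.lastCases <;> simp [a, e]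
      · induction i using Fin.lastCases with
        | last => exact absurd hij (Fin.le_last j).not_gt
        | cast i =>
          induction j using Fin.lastCases with
          | last => simpa using c i
          | cast j => simpa using b i j (by simpa using hij)
  obtain ⟨s, a, b⟩ := key (M1 + 1)
  exact (h _ s a b).not_gt (Nat.lt_succ_self _)

end CLsg

theorem rLsg : LsgS := by
  intro A W M1 ss St μ B d h
  obtain ⟨M, s, a, b, c⟩ := CLsg.maxi (T := ℕ × Σ Q : ℕ, AddChar (RC A Q) ℂ)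
    (fun t => Vio ss St μ B d t.2.1 t.1 t.2.2 ∧ ¬t.1 ∣ W) (fun t t' => ¬t.1 ∣ t'.2.1) M1
    fun M s a b => h M (fun i => (s i).2.1) (fun i => (s i).1) (fun i => (s i).2.2)
      (fun i => (a i).1) b
  refine ⟨univ.image fun i => (s i).1, card_image_le.trans (by simpa using a), fun l hl => ?_,
    fun Q l χ u v w => c (l, ⟨Q, χ⟩) (fun i => u _ (mem_image_of_mem _ (mem_univ i))) ⟨w, v⟩⟩
  obtain ⟨i, -, rfl⟩ := mem_image.1 hl
  exact ⟨(b i).1.prime, (b i).2⟩

end Pool.Agent.MP_f3836a_nt.VE.BC
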