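import Pool.Agent.MP_f3836a_nt.VE.SpecC

/-! Tuples of steps with a given norm. -/

set_option autoImplicit false

namespace Pool.Agent.MP_f3836a_nt.VE.BC

open Finset

namespace CMul

theorem nT_sum {ι : Type} (t : Finset ι) (f : ι → Multiset Pt) :
    nT (∑ i ∈ t, f i) = ∏ i ∈ t, nT (f i) := by
  classical
  induction t using Finset.induction_on with
  | empty => simp [nT]
  | insert a t ha ih =>
    rw [sum_insert ha, prod_insert ha, ← ih]
    simp [nT]

theorem pf_card (M : Multiset Pt) (h : ∀ z ∈ M, z.p.Prime) :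
    nT M ≠ 0 ∧ (nT M).primeFactors.card ≤ M.card := by
  refine ⟨Multiset.prod_ne_zero fun h0 => ?_, ?_⟩
  · obtain ⟨z, hz, e⟩ := Multiset.mem_map.1 h0
    exact (h z hz).ne_zero e
  · have : (nT M).primeFactors ⊆ (M.map Pt.p).toFinset := by
      intro q hq
      have hp := Nat.prime_of_mem_primeFactors hq
      obtain ⟨a, ha, hqa⟩ := hp.prime.exists_mem_multiset_dvd (Nat.dvd_of_mem_primeFactors hq)
      obtain ⟨z, hz, rfl⟩ := Multiset.mem_map.1 ha
      rw [(Nat.prime_dvd_prime_iff_eq hp (h z hz)).1 hqa]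
      exact Multiset.mem_toFinset.2 ha
    refine (card_le_card this).trans ((Multiset.toFinset_card_le _).trans ?_)
    rw [Multiset.card_map]

theorem pts (Val : Pt → Prop) (Z : Finset Pt) (n : ℕ) (hn : n ≠ 0)
    (h2 : ∀ z z', Val z → Val z' → z.p = z'.p → z' = z ∨ z' = z.cj)
    (hZ : ∀ z ∈ Z, Val z ∧ z.p.Prime ∧ z.p ∣ n) : Z.card ≤ 2 * n.primeFactors.card := by
  refine card_le_mul_card_image_of_maps_to (f := Pt.p) (fun z hz =>
    Nat.mem_primeFactors.2 ⟨(hZ z hz).2.1, (hZ z hz).2.2, hn⟩) 2 fun b _ => ?_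
  rcases (Z.filter fun a => a.p = b).eq_empty_or_nonempty with h | ⟨z, hz⟩
  · rw [h]; simp
  · refine (card_le_card (t := {z, z.cj}) fun y hy => ?_).trans card_le_two
    rw [mem_filter] at hz hy
    rcases h2 z y (hZ z hz.1).1 (hZ y hy.1).1 (hz.2.trans hy.2.symm) with e | e <;> simp [e]

end CMul

open CMul in
theorem rMul : MulS := by
  classical
  intro Val S μ L0 j n C1 h2 hS
  obtain ⟨G, hG⟩ : ∃ G : Finset (Fin j → S), ∀ s, s ∈ G ↔ nT (∑ i, (s i).1) = n :=
    ⟨univ.filter fun s => nT (∑ i, (s i).1) = n, fun s => by simp⟩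
  have e1 : n * tm (fun x : S => μ x) j (fun s => ind (nT (∑ i, (s i).1) = n))
      = ∑ s ∈ G, ∏ i, (μ (s i) * nT (s i).1) := by
    rw [tm, mul_sum, ← sum_subset (subset_univ G)]
    · refine sum_congr rfl fun s hs => ?_
      have := (hG s).1 hs
      rw [ind, if_pos this, ← this, nT_sum, prod_mul_distrib]
      push_cast
      ring
    · intro s _ hs
      rw [ind, if_neg fun h => hs ((hG s).2 h)]
      simp
  rw [e1]
  have e2 : ∑ s ∈ G, ∏ i, (μ (s i) * nT (s i).1) ≤ G.card • |C1| ^ j := by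
    refine sum_le_card_nsmul _ _ _ fun s _ => ?_
    refine (prod_le_prod (g := fun _ => |C1|) (fun i _ => mul_nonneg (hS _ (s i).2).2.2.2.1
      (Nat.cast_nonneg _)) fun i _ => (hS _ (s i).2).2.2.2.2.trans (le_abs_self _)).trans ?_
    simp
  refine e2.trans ?_
  rw [nsmul_eq_mul, mul_pow]
  refine mul_le_mul_of_nonneg_right ?_ (by positivity)
  have : G.card ≤ (4 ^ (L0 * j)) ^ j := by
    rcases G.eq_empty_or_nonempty with h | ⟨s0, hs0⟩
    · rw [h]; simp
    obtain ⟨hn, hc⟩ := pf_card (∑ i, (s0 i).1) fun z hz => by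
      obtain ⟨i, -, hi⟩ := Multiset.mem_sum.1 hz
      exact ((hS _ (s0 i).2).2.2.1 z hi).2
    rw [(hG s0).1 hs0] at hn hc
    rw [Multiset.card_sum, sum_congr rfl fun i _ => (hS _ (s0 i).2).1] at hc
    simp only [sum_const, card_univ, Fintype.card_fin, smul_eq_mul] at hc
    obtain ⟨Z, hZ⟩ : ∃ Z : Finset Pt, ∀ z, z ∈ Z ↔ (∃ x ∈ S, z ∈ x) ∧ z.p ∣ n :=
      ⟨(S.biUnion Multiset.toFinset).filter fun z => z.p ∣ n, fun z => by simp⟩
    have hZc := pts Val Z n hn h2 fun z hz => by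
      obtain ⟨⟨x, hx, hzx⟩, hd⟩ := (hZ z).1 hz
      exact ⟨((hS x hx).2.2.1 z hzx).1, ((hS x hx).2.2.1 z hzx).2, hd⟩
    have h3 : G.card ≤ (Fintype.piFinset fun _ : Fin j => Z.powerset).card := by
      refine card_le_card_of_injOn (fun s i => (s i).1.toFinset) (fun s hs => ?_) ?_
      · rw [mem_coe, Fintype.mem_piFinset]
        intro i
        refine mem_powerset.2 fun z hz => (hZ z).2 ⟨⟨_, (s i).2, Multiset.mem_toFinset.1 hz⟩, ?_⟩
        rw [← (hG s).1 hs, nT_sum]
        exact (Multiset.dvd_prod (Multiset.mem_map_of_mem Pt.p (Multiset.mem_toFinset.1 hz))).trans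
          (dvd_prod_of_mem (fun i => nT (s i).1) (mem_univ i))
      · intro s _ s' _ h
        funext i
        exact Subtype.ext (Multiset.Nodup.toFinset_inj (Multiset.Nodup.of_map _ (hS _ (s i).2).2.1)
          (Multiset.Nodup.of_map _ (hS _ (s' i).2).2.1) (congrFun h i))
    refine h3.trans ?_
    rw [Fintype.card_piFinset, prod_const, card_univ, Fintype.card_fin, card_powerset]
    refine Nat.pow_le_pow_left ?_ j
    rw [show 4 = 2 ^ 2 from rfl, ← pow_mul]
    exact Nat.pow_le_pow_right two_pos (by nlinarith)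
  exact_mod_cast this

end Pool.Agent.MP_f3836a_nt.VE.BC
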