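import Pool.Agent.MP_f3836a_nt.VE.SpecD

/-! D1: averaging over short shifts. -/

set_option autoImplicit false

namespace Pool.Agent.MP_f3836a_nt.VE

open Finset

namespace DShift

theorem card_ico (a b k : ℤ) :
    (((Ico a b).filter fun x => x - k ∉ Ico a b).card : ℝ) ≤ |(k : ℝ)| := by
  rcases le_total 0 k with hk | hk
  · have h : ((Ico a b).filter fun x => x - k ∉ Ico a b) ⊆ Ico a (a + k) := by
      intro x hx
      simp only [mem_filter, mem_Ico, not_and, not_lt] at hx ⊢
      obtain ⟨⟨h1, h2⟩, h3⟩ := hx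
      refine ⟨h1, ?_⟩
      by_contra h4
      have := h3 (by omega)
      omega
    have h2 := card_le_card h
    rw [Int.card_Ico] at h2
    have h4 : (((Ico a b).filter fun x => x - k ∉ Ico a b).card : ℤ) ≤ k := by omega
    rw [abs_of_nonneg (by exact_mod_cast hk)]
    exact_mod_cast h4
  · have h : ((Ico a b).filter fun x => x - k ∉ Ico a b) ⊆ Ico (b + k) b := by
      intro x hx
      simp only [mem_filter, mem_Ico, not_and, not_lt] at hx ⊢
      obtain ⟨⟨h1, h2⟩, h3⟩ := hx
      refine ⟨?_, h2⟩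
      have := h3 (by omega)
      omega
    have h2 := card_le_card h
    rw [Int.card_Ico] at h2
    have h4 : (((Ico a b).filter fun x => x - k ∉ Ico a b).card : ℤ) ≤ -k := by omega
    rw [abs_of_nonpos (by exact_mod_cast hk)]
    exact_mod_cast h4

theorem card_bad {ι : Type} [Fintype ι] [DecidableEq ι] (t : ι → Finset ℤ) (σ : ι → ℤ)
    (c : ℝ) (h : ∀ i, (((t i).filter fun x => x - σ i ∉ t i).card : ℝ) ≤ c * (t i).card) :
    (((Fintype.piFinset t).filter fun x => x - σ ∉ Fintype.piFinset t).card : ℝ)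
      ≤ Fintype.card ι * c * (Fintype.piFinset t).card := by
  have hsub : ((Fintype.piFinset t).filter fun x => x - σ ∉ Fintype.piFinset t) ⊆
      univ.biUnion fun i => Fintype.piFinset
        (Function.update t i ((t i).filter fun x => x - σ i ∉ t i)) := by
    intro x hx
    simp only [mem_filter, Fintype.mem_piFinset, not_forall, Pi.sub_apply] at hx
    obtain ⟨h1, i, hi⟩ := hx
    simp only [mem_biUnion, mem_univ, true_and, Fintype.mem_piFinset]
    refine ⟨i, fun j => ?_⟩
    by_cases hj : j = i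
    · subst hj
      rw [Function.update_self, mem_filter]
      exact ⟨h1 j, hi⟩
    · rw [Function.update_of_ne hj]
      exact h1 j
  have h1 := (card_le_card hsub).trans card_biUnion_le
  have h2 : ∀ i, ((Fintype.piFinset
      (Function.update t i ((t i).filter fun x => x - σ i ∉ t i))).card : ℝ)
      ≤ c * (Fintype.piFinset t).card := by
    intro i
    rw [Fintype.card_piFinset, Fintype.card_piFinset, ← mul_prod_erase _ _ (mem_univ i),
      ← mul_prod_erase univ (fun j => (t j).card) (mem_univ i), Function.update_self]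
    have h3 : ∏ j ∈ univ.erase i, (Function.update t i ((t i).filter fun x => x - σ i ∉ t i) j).card
        = ∏ j ∈ univ.erase i, (t j).card :=
      prod_congr rfl fun j hj => by rw [Function.update_of_ne (ne_of_mem_erase hj)]
    rw [h3]
    push_cast
    rw [← mul_assoc]
    exact mul_le_mul_of_nonneg_right (h i) (by positivity)
  calc (((Fintype.piFinset t).filter fun x => x - σ ∉ Fintype.piFinset t).card : ℝ)
      ≤ ∑ i, ((Fintype.piFinset
        (Function.update t i ((t i).filter fun x => x - σ i ∉ t i))).card : ℝ) := by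
        exact_mod_cast h1
    _ ≤ ∑ _i : ι, c * (Fintype.piFinset t).card := sum_le_sum fun i _ => h2 i
    _ = _ := by rw [sum_const, card_univ, nsmul_eq_mul, mul_assoc]

theorem shift_one {G : Type} [AddCommGroup G] [DecidableEq G] (B : Finset G) (F : G → ℝ) (M : ℝ)
    (σ : G) (hF : ∀ x, |F x| ≤ M) :
    |∑ x ∈ B, F x - ∑ x ∈ B, F (x + σ)| ≤ 2 * M * (B.filter fun x => x - σ ∉ B).card := by
  set B' := B.image (fun x => x + σ) with hB'
  have hinj : Function.Injective fun x : G => x + σ := add_left_injective σ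
  have h1 : ∑ x ∈ B, F (x + σ) = ∑ y ∈ B', F y := by
    rw [hB', sum_image fun x _ y _ h => hinj h]
  have h2 : B'.card = B.card := card_image_of_injective _ hinj
  have h3 : B \ B' = B.filter fun x => x - σ ∉ B := by
    ext x
    simp only [mem_sdiff, hB', mem_image, mem_filter, not_exists, not_and]
    refine and_congr_right fun _ => ⟨fun h hx => h _ hx (sub_add_cancel x σ), fun h y hy e => h ?_⟩
    rw [← e, add_sub_cancel_right]
    exact hy
  have h4 : (B' \ B).card = (B \ B').card := card_sdiff_comm h2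
  have h5 : ∀ S : Finset G, |∑ x ∈ S, F x| ≤ M * S.card := fun S =>
    (abs_sum_le_sum_abs _ _).trans <| (sum_le_sum fun x _ => hF x).trans_eq <| by
      rw [sum_const, nsmul_eq_mul, mul_comm]
  rw [h1, ← sum_sdiff_sub_sum_sdiff, ← h3]
  refine (abs_sub _ _).trans ?_
  have h6 := h5 (B \ B')
  have h7 := h5 (B' \ B)
  rw [h4] at h7
  linarith

theorem box_bad (m H H1 : ℕ) (h1 : 0 < H1) (h2 : H1 ≤ H) (σ : Ix m → ℤ) (s : ℝ) (hs : 0 ≤ s)
    (hσ : ∀ i, |(σ i : ℝ)| ≤ s) :
    (((box m H H1).filter fun x => x - σ ∉ box m H H1).card : ℝ)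
      ≤ 2 * m * (s / H1) * (box m H H1).card := by
  have hH : (0 : ℝ) < H1 := by exact_mod_cast h1
  have key : ∀ (a b k : ℤ), |(k : ℝ)| ≤ s → H1 ≤ (Ico a b).card →
      (((Ico a b).filter fun x => x - k ∉ Ico a b).card : ℝ) ≤ s / H1 * (Ico a b).card := by
    intro a b k hk hc
    have hc' : (H1 : ℝ) ≤ (Ico a b).card := by exact_mod_cast hc
    calc _ ≤ s := (card_ico a b k).trans hk
      _ = s / H1 * H1 := by field_simp
      _ ≤ _ := mul_le_mul_of_nonneg_left hc' (by positivity)
  have h := card_bad (fun i : Ix m =>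
    Sum.elim (fun i : Fin m => if (i : ℕ) = 0 then Ico (H : ℤ) (2 * H) else Ico (0 : ℤ) H1)
      (fun _ => Ico (0 : ℤ) H1) i) σ (s / H1) (by
    intro i
    rcases i with i | i
    · simp only [Sum.elim_inl]
      split_ifs
      · refine key _ _ _ (hσ _) ?_
        rw [Int.card_Ico]
        omega
      · refine key _ _ _ (hσ _) ?_
        rw [Int.card_Ico]
        omega
    · simp only [Sum.elim_inr]
      refine key _ _ _ (hσ _) ?_
      rw [Int.card_Ico]
      omega)
  refine le_trans (le_of_eq ?_) (h.trans ?_)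
  · unfold box
    congr
  · have hc : (Fintype.card (Ix m) : ℝ) ≤ 2 * m := by
      rw [Fintype.card_sum, Fintype.card_fin, Fintype.card_fin]
      exact_mod_cast (by omega : m + (m - 1) ≤ 2 * m)
    unfold box
    gcongr

theorem box_pos (m H H1 : ℕ) (h1 : 0 < H1) (h2 : H1 ≤ H) : 0 < (box m H H1).card := by
  unfold box
  rw [Fintype.card_piFinset]
  refine prod_pos fun i _ => ?_
  rcases i with i | i
  · simp only [Sum.elim_inl]
    split_ifs <;> rw [Int.card_Ico] <;> omega
  · simp only [Sum.elim_inr]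
    rw [Int.card_Ico]
    omega

end DShift

theorem rShift : ShiftS := by
  intro m H H1 F M s ι Vs ω σ h1 h2 hF hω hω1 hs hσ
  have hM : 0 ≤ M := (abs_nonneg _).trans (hF 0)
  have hH : (0 : ℝ) < H1 := by exact_mod_cast h1
  have hB : (0 : ℝ) < (box m H H1).card := by exact_mod_cast DShift.box_pos m H H1 h1 h2
  unfold Eb
  rw [← sub_div, abs_div, abs_of_pos hB, div_le_iff₀ hB, sum_comm]
  have e1 : ∑ x ∈ box m H H1, F x - ∑ v ∈ Vs, ∑ x ∈ box m H H1, ω v * F (x + σ v)
      = ∑ v ∈ Vs, ω v * (∑ x ∈ box m H H1, F x - ∑ x ∈ box m H H1, F (x + σ v)) := by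
    simp only [mul_sub, sum_sub_distrib, ← sum_mul, hω1, one_mul, ← mul_sum]
  rw [e1]
  have e2 : ∀ v ∈ Vs, |ω v * (∑ x ∈ box m H H1, F x - ∑ x ∈ box m H H1, F (x + σ v))|
      ≤ ω v * (8 * m * M * s / H1 * (box m H H1).card) := by
    intro v hv
    rw [abs_mul, abs_of_nonneg (hω v)]
    refine mul_le_mul_of_nonneg_left ?_ (hω v)
    have h3 := DShift.shift_one (box m H H1) F M (σ v) hF
    have h4 := DShift.box_bad m H H1 h1 h2 (σ v) s hs (hσ v hv)
    have h5 := mul_le_mul_of_nonneg_left h4 (by positivity : 0 ≤ 2 * M)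
    have h6 : 0 ≤ m * M * s / H1 * (box m H H1).card := by positivity
    calc _ ≤ _ := h3
      _ ≤ _ := h5
      _ = 4 * (m * M * s / H1 * (box m H H1).card) := by ring
      _ ≤ 8 * (m * M * s / H1 * (box m H H1).card) := by linarith
      _ = _ := by ring
  refine (abs_sum_le_sum_abs _ _).trans ((sum_le_sum e2).trans_eq ?_)
  rw [← sum_mul, hω1, one_mul]

end Pool.Agent.MP_f3836a_nt.VE
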