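import Pool.Agent.MP_f3836a_nt.VE.SpecC

/-! The order of the ray class group is not too large. -/

set_option autoImplicit false

namespace Pool.Agent.MP_f3836a_nt.VE.BC

open Finset Filter

namespace CRho

theorem sd_le (h : NuS) (A : ℕ) (P : Finset ℕ) (hP : ∀ l ∈ P, l.Prime) : sd A P ≤ 1 :=
  prod_le_one (fun l hl => (h A l (hP l hl)).2.2.2.1.le)
    fun l hl => sub_le_self _ (h A l (hP l hl)).2.1

theorem sd_ge (h : NuS) (A : ℕ) (P : Finset ℕ) (hP : ∀ l ∈ P, l.Prime) :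
    1 ≤ sd A P * Real.exp (4 * ∑ l ∈ P, (1 : ℝ) / l) := by
  rw [mul_sum, Real.exp_sum, sd, ← prod_mul_distrib]
  refine le_trans (prod_const_one (s := P)).ge (prod_le_prod (fun _ _ => zero_le_one) fun l hl => ?_)
  have h1 := h A l (hP l hl)
  have := mul_le_mul_of_nonneg_left h1.2.2.2.2 h1.2.2.2.1.le
  rwa [mul_inv_cancel₀ h1.2.2.2.1.ne', div_eq_mul_one_div] at this

theorem sum_le {C L x : ℝ} (hL : 0 < L) (P : Finset ℕ)
    (hP : P ⊆ (range (⌊x⌋₊ + 1)).filter Nat.Prime)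
    (hC : ∑ l ∈ (range (⌊x⌋₊ + 1)).filter Nat.Prime, Real.log l / l ≤ C * Real.log x) :
    ∑ l ∈ P, (1 : ℝ) / l ≤ ⌈Real.exp L⌉₊ + C * Real.log x / L := by
  have h1 : ∀ l ∈ P, (1 : ℝ) / l ≤ (if l ∈ range ⌈Real.exp L⌉₊ then 1 else 0) + Real.log l / l / L := by
    intro l hl
    have hp : (1 : ℝ) ≤ l := by exact_mod_cast (mem_filter.1 (hP hl)).2.one_le
    have h0 : 0 ≤ Real.log l / l / L := by have := Real.log_nonneg hp; positivity
    split_ifs with h
    · have : (1 : ℝ) / l ≤ 1 := by rw [div_le_one (by linarith)]; exact hp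
      linarith
    · have h2 : Real.exp L ≤ l := Nat.ceil_le.1 (not_lt.1 fun h' => h (mem_range.2 h'))
      have h3 : L ≤ Real.log l := (Real.le_log_iff_exp_le (by linarith)).2 h2
      rw [zero_add, div_right_comm]
      exact div_le_div_of_nonneg_right ((one_le_div hL).2 h3) (by linarith)
  refine (sum_le_sum h1).trans ?_
  rw [sum_add_distrib, ← sum_div]
  refine add_le_add ?_ (div_le_div_of_nonneg_right (le_trans ?_ hC) hL.le)
  · rw [sum_boole]
    have : (P.filter fun l => l ∈ range ⌈Real.exp L⌉₊).card ≤ ⌈Real.exp L⌉₊ :=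
      (card_le_card fun l hl => (mem_filter.1 hl).2).trans (card_range _).le
    exact_mod_cast this
  · exact sum_le_sum_of_subset_of_nonneg hP fun l _ _ =>
      div_nonneg (Real.log_natCast_nonneg l) (Nat.cast_nonneg l)

end CRho

theorem rRho : OfRho := by
  rintro hc hn ⟨C, hC1, hC⟩ C1 γ hγ
  set L : ℝ := 8 * C / γ with hL
  have L0 : 0 < L := by positivity
  obtain ⟨Y1, hY1⟩ := eventually_atTop.1 (((tendsto_rpow_atTop (half_pos hγ)).eventually_ge_atTop
    (C1 * Real.exp (4 * ⌈Real.exp L⌉₊))).and (eventually_ge_atTop 1))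
  refine ⟨Y1, fun Y A W hY hA hW hb => ?_⟩
  obtain ⟨y1, y2⟩ := hY1 Y hY
  have y0 : 0 < Y := by linarith
  have lY := Real.log_nonneg y2
  have h1 : (Nat.card (RC A W) : ℝ) ≤ Nat.card (RC A 1) * W ^ 2 := by
    have h := (hc A 1 W hA (one_dvd W) hW).2.1
    have h' := CRho.sd_le hn A (W.primeFactors.filter fun l => ¬l ∣ 1)
      fun l hl => Nat.prime_of_mem_primeFactors (mem_filter.1 hl).1
    rw [Nat.cast_one, one_pow, mul_one] at h
    exact h.trans (mul_le_of_le_one_right (by positivity) h')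
  have hP : Pr A Y ⊆ (range (⌊Y⌋₊ + 1)).filter Nat.Prime := fun l hl => by
    obtain ⟨a, b, -⟩ := mem_filter.1 hl
    exact mem_filter.2 ⟨mem_range.2 ((mem_range.1 a).trans_le (Nat.ceil_le_floor_add_one Y)), b⟩
  have h2 := CRho.sd_ge hn A (Pr A Y) fun l hl => (mem_filter.1 (hP hl)).2
  have h3 := CRho.sum_le L0 _ hP (hC Y y2)
  have h4 : Real.exp (4 * ∑ l ∈ Pr A Y, (1 : ℝ) / l)
      ≤ Real.exp (4 * ⌈Real.exp L⌉₊) * Y ^ (γ / 2) := by
    rw [Real.rpow_def_of_pos y0, ← Real.exp_add]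
    refine Real.exp_le_exp.2 ?_
    have : 4 * (C * Real.log Y / L) = Real.log Y * (γ / 2) := by
      rw [hL]
      field_simp
      ring
    linarith
  have h5 : Nat.card (RC A 1) * Real.log Y ≤ Y ^ γ * √A := by
    have e : Y ^ γ = Y ^ (γ / 2) * Y ^ (γ / 2) := by rw [← Real.rpow_add y0, add_halves]
    have hb' : Nat.card (RC A 1) * Real.log Y * sd A (Pr A Y) ≤ C1 * √A := hb
    calc Nat.card (RC A 1) * Real.log Y
        ≤ Nat.card (RC A 1) * Real.log Y
          * (sd A (Pr A Y) * Real.exp (4 * ∑ l ∈ Pr A Y, (1 : ℝ) / l)) :=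
          le_mul_of_one_le_right (by positivity) h2
      _ ≤ C1 * √A * Real.exp (4 * ∑ l ∈ Pr A Y, (1 : ℝ) / l) := by
          rw [← mul_assoc]
          exact mul_le_mul_of_nonneg_right hb' (Real.exp_pos _).le
      _ ≤ C1 * √A * (Real.exp (4 * ⌈Real.exp L⌉₊) * Y ^ (γ / 2)) := by
          refine mul_le_mul_of_nonneg_left h4 (le_trans ?_ hb')
          have : 0 < sd A (Pr A Y) :=
            prod_pos fun l hl => (hn A l (mem_filter.1 (hP hl)).2).2.2.2.1
          positivity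
      _ = C1 * Real.exp (4 * ⌈Real.exp L⌉₊) * (Y ^ (γ / 2) * √A) := by ring
      _ ≤ Y ^ (γ / 2) * (Y ^ (γ / 2) * √A) := mul_le_mul_of_nonneg_right y1 (by positivity)
      _ = Y ^ γ * √A := by rw [e, mul_assoc]
  calc Nat.card (RC A W) * Real.log Y ≤ Nat.card (RC A 1) * W ^ 2 * Real.log Y :=
        mul_le_mul_of_nonneg_right h1 lY
    _ = Nat.card (RC A 1) * Real.log Y * W ^ 2 := by ring
    _ ≤ Y ^ γ * √A * W ^ 2 := mul_le_mul_of_nonneg_right h5 (by positivity)
    _ = _ := by ring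

end Pool.Agent.MP_f3836a_nt.VE.BC
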