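import Pool.Agent.MP_f3836a_nt.VE.SpecC

/-! Discretisation of the local sum. -/

set_option autoImplicit false

namespace Pool.Agent.MP_f3836a_nt.VE.BC

open Finset

namespace CRia

theorem tm_sm {ι : Type} [Fintype ι] (μ : ι → ℝ) {J : ℕ} (hJ : 1 ≤ J) (j : ℕ)
    (F : (Fin j → ι) → ℝ) : tm (sm μ J) j (fun s => F fun i => (s i).1) = tm μ j F := by
  have h : (J : ℝ) ^ j ≠ 0 := by positivity
  unfold tm
  rw [← (Equiv.arrowProdEquivProdArrow (Fin j) (fun _ => ι) fun _ => Fin J).symm.sum_comp,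
    Fintype.sum_prod_type]
  refine sum_congr rfl fun s _ => ?_
  simp [sm, prod_div_distrib]
  field_simp

theorem tm_abs {ι : Type} [Fintype ι] {μ : ι → ℝ} (h : ∀ i, 0 ≤ μ i) {j : ℕ}
    {F G H : (Fin j → ι) → ℝ} {c : ℝ} (k : ∀ s, |F s - G s| ≤ c * H s) :
    |tm μ j F - tm μ j G| ≤ c * tm μ j H := by
  unfold tm
  rw [← sum_sub_distrib, mul_sum]
  refine (abs_sum_le_sum_abs _ _).trans (sum_le_sum fun s _ => ?_)
  have p := prod_nonneg fun i (_ : i ∈ univ) => h (s i)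
  rw [← mul_sub, abs_mul, abs_of_nonneg p, mul_left_comm]
  exact mul_le_mul_of_nonneg_left (k s) p

theorem pt (z E : ℂ) {δ ε : ℝ} (h0 : 0 < δ) (h1 : 64 * δ ≤ 1) (hE : ‖E‖ ≤ ε) (h2 : 8 * ε ≤ δ) :
    |tent ((z * Complex.exp E - 1) / δ) - tent ((z - 1) / δ)|
      ≤ 4 * ε / δ * ind (‖z * Complex.exp E - 1‖ ≤ 2 * δ) := by
  have e0 := (norm_nonneg E).trans hE
  have a := (Complex.norm_exp_sub_one_le (hE.trans (by linarith))).trans
    (mul_le_mul_of_nonneg_left hE zero_le_two)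
  have b : |‖z * Complex.exp E - 1‖ - ‖z - 1‖| ≤ ‖z‖ * (2 * ε) := by
    refine (abs_norm_sub_norm_le _ _).trans ?_
    rw [show z * Complex.exp E - 1 - (z - 1) = z * (Complex.exp E - 1) by ring, norm_mul]
    exact mul_le_mul_of_nonneg_left a (norm_nonneg z)
  have c : ‖z‖ ≤ ‖z - 1‖ + 1 := by simpa using norm_add_le (z - 1) 1
  have c0 := norm_nonneg z
  simp only [tent, norm_div, Complex.norm_real, Real.norm_of_nonneg h0.le]
  generalize ‖z * Complex.exp E - 1‖ = p at *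
  generalize ‖z - 1‖ = q at *
  generalize ‖z‖ = n at *
  obtain ⟨b1, b2⟩ := abs_le.1 b
  by_cases k : p < δ ∨ q < δ
  · have n2 : n ≤ 2 := by rcases k with k | k <;> nlinarith
    have p2 : p ≤ 2 * δ := by rcases k with k | k <;> nlinarith
    rw [ind, if_pos p2, mul_one, max_comm, max_comm 0]
    refine (abs_max_sub_max_le_abs _ _ _).trans ?_
    rw [show 1 - p / δ - (1 - q / δ) = -((p - q) / δ) by ring, abs_neg, abs_div, abs_of_pos h0]
    exact div_le_div_of_nonneg_right (b.trans (by nlinarith)) h0.le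
  · rw [not_or, not_lt, not_lt] at k
    rw [max_eq_left (sub_nonpos.2 ((one_le_div h0).2 k.1)),
      max_eq_left (sub_nonpos.2 ((one_le_div h0).2 k.2)), sub_self, abs_zero]
    unfold ind
    split_ifs <;> positivity

theorem ang {N : ℕ} (hN : 1 ≤ N) (a : ℤ) :
    Complex.exp (2 * Real.pi * (a : ZMod N).val / N * Complex.I) =
      Complex.exp (2 * Real.pi * a / N * Complex.I) := by
  have : NeZero N := ⟨by omega⟩
  have h : (N : ℂ) ≠ 0 := by exact_mod_cast NeZero.ne N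
  refine Complex.exp_eq_exp_iff_exists_int.2 ⟨-(a / N), ?_⟩
  have e := congrArg (Int.cast (R := ℂ)) ((ZMod.val_intCast (n := N) a).trans (Int.emod_def a N))
  push_cast at e ⊢
  rw [e]
  field_simp
  ring

end CRia

open CRia in
theorem rRia : OfRia := by
  intro _ hS hU ι G _ _ μ x lam u th k j J N2 L η D r g κ β w0 hμ hJ hN hR hD hk r0 η0 h1 h2 hβ
  choose e e1 e2 using hR
  have b0 : 0 < ‖β‖ := norm_pos_iff.2 fun a => by simp [a] at h1; linarith
  obtain ⟨δ, rfl⟩ : ∃ δ, r = δ * ‖β‖ := ⟨r / ‖β‖, by field_simp⟩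
  have d0 : 0 < δ := (mul_pos_iff_of_pos_right b0).1 r0
  rw [mul_div_cancel_right₀ _ b0.ne'] at h1 h2 ⊢
  have J1 : (1 : ℝ) ≤ J := by exact_mod_cast hJ
  have j0 : (0 : ℝ) ≤ j := Nat.cast_nonneg j
  have jJ : (0 : ℝ) ≤ j * J := by positivity
  have h3 : 64 * (j * J * δ) + 64 * δ ≤ 1 := by nlinarith
  have h4 : 64 * δ ≤ 1 := by nlinarith [mul_nonneg jJ d0.le]
  have U := (hU ι G μ x lam k j η D (2 * δ * ‖β‖) g κ β hμ hD (by positivity) (by nlinarith)
    (by rw [mul_div_cancel_right₀ _ b0.ne']; nlinarith)).1 hk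
  rw [mul_div_cancel_right₀ _ b0.ne'] at U
  have U0 : 0 ≤ D * (2 * δ) ^ 2 := le_trans (sum_nonneg fun s _ => mul_nonneg
    (prod_nonneg fun i _ => hμ.1 _) (by unfold ind; split_ifs <;> norm_num)) U
  rw [← tm_sm μ hJ] at U
  rw [Sl, ← tm_sm μ hJ]
  refine (tm_abs (c := 32 * (j * J * δ)) (hS ι μ u J 0 0 hμ hJ).1.1 fun s => ?_).trans
    ((mul_le_mul_of_nonneg_left U (by positivity)).trans (by nlinarith [mul_nonneg jJ d0.le]))
  by_cases hg : ∑ i, x (s i).1 = g
  swap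
  · simp [ind, hg]
  have f1 : ‖∑ i, (e (s i).1 - η * ((s i).2 : ℕ) / 2)‖ ≤ 8 * (j * J * δ) * δ := by
    refine (norm_sum_le_of_le _ fun i _ => (norm_sub_le _ _).trans
      (add_le_add (e1 _) (?_ : _ ≤ η * J))).trans ?_
    · have : (((s i).2 : ℕ) : ℝ) ≤ J := by exact_mod_cast (s i).2.2.le
      simp only [norm_div, norm_mul, Complex.norm_real, Real.norm_of_nonneg η0.le,
        Complex.norm_natCast, Complex.norm_ofNat]
      nlinarith
    · simp only [sum_const, card_fin, nsmul_eq_mul]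
      nlinarith [mul_le_mul_of_nonneg_left h1 jJ, mul_nonneg (mul_nonneg j0 η0.le) (sub_nonneg.2 J1)]
  have f2 : κ * ∏ i, lam (s i).1 - β = β * (Complex.exp (η * (∑ i, su u J (s i) : ℤ) / 2 +
      2 * Real.pi * (∑ i, (th (s i).1 : ZMod N2)).val / N2 * Complex.I - w0) *
      Complex.exp (∑ i, (e (s i).1 - η * ((s i).2 : ℕ) / 2)) - 1) := by
    rw [← Int.cast_sum, sub_eq_add_neg _ w0, Complex.exp_add, Complex.exp_add, ang hN, mul_sub,
      mul_one, sub_left_inj, ← hβ]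
    simp only [e2, ← Complex.exp_sum, mul_assoc κ, ← Complex.exp_add]
    congr 2
    simp only [su, sum_add_distrib, sum_sub_distrib, add_div, sum_const, card_fin, nsmul_eq_mul,
      Int.cast_add, Int.cast_sum, Int.cast_natCast, ← sum_div, ← mul_sum, ← sum_mul]
    ring
  have f3 := pt (Complex.exp (η * (∑ i, su u J (s i) : ℤ) / 2 +
      2 * Real.pi * (∑ i, (th (s i).1 : ZMod N2)).val / N2 * Complex.I - w0)) _ d0 h4 f1
      (by nlinarith)
  simp only [hg, true_and, f2, ct, norm_mul]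
  rw [ind, if_pos trivial, one_mul, one_mul, mul_comm (2 * δ), mul_le_mul_iff_right₀ b0]
  convert f3 using 3
  · simp only [tent, norm_div, norm_mul, Complex.norm_real, Real.norm_eq_abs, abs_norm]
    field_simp
  · field_simp
    ring

end Pool.Agent.MP_f3836a_nt.VE.BC
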