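import Pool.Agent.MP_f3836a_nt.VE.SpecC

/-! Row Up: upper bounds for longer tuples. -/

set_option autoImplicit false

namespace Pool.Agent.MP_f3836a_nt.VE.BC

open Finset

namespace CUp

theorem ind0 (p : Prop) : 0 ≤ ind p := by
  by_cases h : p <;> simp [ind, h]

theorem ind_le {p q : Prop} (h : p → q) : ind p ≤ ind q := by
  by_cases a : p
  · simp [ind, a, h a]
  · simpa [ind, a] using ind0 q

variable {ι G : Type} [Fintype ι] [AddCommGroup G] {μ : ι → ℝ} {x : ι → G} {lam : ι → ℂ}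

theorem tm_mul (j : ℕ) (c : ℝ) (F : (Fin j → ι) → ℝ) :
    tm μ j (fun s => c * F s) = c * tm μ j F := by
  simp only [tm, mul_sum, mul_left_comm]

theorem step (hT : TupS) (h0 : ∀ i, 0 ≤ μ i) {β : ℂ} {r B : ℝ} {b : ℕ}
    (h : ∀ g κ, tm μ b (fun s => ind (∑ i, x (s i) = g ∧ ‖κ * ∏ i, lam (s i) - β‖ ≤ r)) ≤ B)
    (a : ℕ) (w : (Fin a → ι) → ℝ) (hw : ∀ s, 0 ≤ w s) (g : G) (κ : ℂ) :
    tm μ (a + b) (fun s => w (fun i => s (Fin.castAdd b i)) *
      ind (∑ i, x (s i) = g ∧ ‖κ * ∏ i, lam (s i) - β‖ ≤ r)) ≤ B * tm μ a w := by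
  rw [(hT ι μ).2.1, ← tm_mul]
  refine (hT ι μ).2.2.2.2.1 h0 _ _ _ fun s => ?_
  simp only [Fin.sum_univ_add, Fin.prod_univ_add, Fin.append_left, Fin.append_right, tm_mul,
    ← mul_assoc, ← eq_sub_iff_add_eq']
  rw [mul_comm B]
  exact mul_le_mul_of_nonneg_left (h _ _) (hw s)

end CUp

open CUp

theorem rUp : OfUp := by
  intro hT ι G _ _ μ x lam k j δ0 D r g κ β hμ hD r0 rβ hδ
  obtain ⟨-, -, hp, hc, hm, -⟩ := hT ι μ
  have β0 : 0 < ‖β‖ := by linarith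
  have d1 : r / ‖β‖ ≤ 1 / 2 := by
    rw [div_le_iff₀ β0]
    linarith
  have base : ∀ g κ, tm μ k (fun s => ind (∑ i, x (s i) = g ∧ ‖κ * ∏ i, lam (s i) - β‖ ≤ r)) ≤
      D * (r / ‖β‖) ^ 2 := fun g κ => by
    rcases eq_or_ne κ 0 with rfl | e
    · refine (hm hμ.1 _ _ _ fun s => ind_le fun a => ?_).trans
        (hD g 0 1 _ hδ (by linarith) one_pos)
      simp only [zero_mul, zero_sub, norm_neg] at a
      linarith [a.2]
    · have R0 : 0 < ‖β / κ‖ := norm_pos_iff.2 (div_ne_zero (norm_pos_iff.1 β0) e)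
      refine (hm hμ.1 _ _ _ fun s => ind_le fun a => ⟨a.1, ?_⟩).trans
        (hD g (β / κ) ‖β / κ‖ _ hδ (by linarith) R0)
      have b : ‖∏ i, lam (s i) - β / κ‖ ≤ r / ‖β‖ * ‖β / κ‖ := by
        rw [show ∏ i, lam (s i) - β / κ = (κ * ∏ i, lam (s i) - β) / κ by field_simp, norm_div,
          norm_div, ← mul_div_assoc, div_mul_cancel₀ _ β0.ne']
        exact div_le_div_of_nonneg_right a.2 (norm_nonneg _)
      have c := abs_le.1 ((abs_norm_sub_norm_le _ _).trans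
        (b.trans (mul_le_mul_of_nonneg_right d1 R0.le)))
      exact ⟨b, by linarith [c.1], by linarith [c.2]⟩
  have B0 : 0 ≤ D * (r / ‖β‖) ^ 2 :=
    (sum_nonneg fun s _ => mul_nonneg (prod_nonneg fun i _ => hμ.1 _) (ind0 _)).trans (base 0 0)
  generalize D * (r / ‖β‖) ^ 2 = B at base B0 ⊢
  have one : ∀ j, k ≤ j → ∀ g κ, tm μ j (fun s => ind (∑ i, x (s i) = g ∧
      ‖κ * ∏ i, lam (s i) - β‖ ≤ r)) ≤ B := fun j hj g κ => by
    obtain ⟨a, rfl⟩ := Nat.exists_eq_add_of_le' hj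
    have := step hT hμ.1 base a (fun _ => 1) (fun _ => zero_le_one) g κ
    simp only [one_mul, hc, mul_one] at this
    exact this.trans (mul_le_of_le_one_right B0
      (pow_le_one₀ (sum_nonneg fun i _ => hμ.1 i) hμ.2))
  refine ⟨fun hj => one j hj g κ, fun Bd t hj t0 ht => ?_⟩
  obtain ⟨b, rfl, hb⟩ : ∃ b, j = 2 + b ∧ k ≤ b := ⟨j - 2, by omega, by omega⟩
  have two : tm μ 2 (fun s => ind (Bd (s 0) (s 1))) ≤ t := by
    rw [tm, Fintype.sum_equiv (piFinTwoEquiv fun _ => ι) _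
      (fun p => μ p.1 * (μ p.2 * ind (Bd p.1 p.2))) fun s => by simp [mul_assoc],
      Fintype.sum_prod_type]
    simp only [← mul_sum]
    refine (sum_le_sum fun i _ => mul_le_mul_of_nonneg_left (ht i) (hμ.1 i)).trans ?_
    rw [← sum_mul]
    exact mul_le_of_le_one_left t0 hμ.2
  have pair : ∀ p : Fin (2 + b) × Fin (2 + b), tm μ (2 + b) (fun s => ind (p.1 ≠ p.2 ∧
      Bd (s p.1) (s p.2)) * ind (∑ i, x (s i) = g ∧ ‖κ * ∏ i, lam (s i) - β‖ ≤ r)) ≤ t * B := by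
    rintro ⟨p, q⟩
    rcases eq_or_ne p q with rfl | e
    · simpa [ind, tm] using mul_nonneg t0 B0
    · obtain ⟨σ, hσ⟩ := Equiv.Perm.exists_extending_pair _ ![p, q] (Fin.castAdd_injective 2 b)
        (injective_pair_iff_ne.2 e)
      have := step hT hμ.1 (one b hb) 2 (fun s => ind (Bd (s 0) (s 1))) (fun _ => ind0 _) g κ
      rw [← hp _ σ] at this
      refine (hm hμ.1 _ _ _ fun s => le_of_eq ?_).trans
        (this.trans ((mul_le_mul_of_nonneg_left two B0).trans_eq (mul_comm _ _)))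
      simp [hσ, e, Equiv.sum_comp σ fun i => x (s i), Equiv.prod_comp σ fun i => lam (s i)]
  refine le_trans (hm hμ.1 _ _ (fun s => ∑ p : Fin (2 + b) × Fin (2 + b), ind (p.1 ≠ p.2 ∧
      Bd (s p.1) (s p.2)) * ind (∑ i, x (s i) = g ∧ ‖κ * ∏ i, lam (s i) - β‖ ≤ r)) fun s => ?_) ?_
  · by_cases e : (∃ a b, a ≠ b ∧ Bd (s a) (s b)) ∧ ∑ i, x (s i) = g ∧
      ‖κ * ∏ i, lam (s i) - β‖ ≤ r
    · obtain ⟨p, q, h⟩ := e.1
      refine le_trans ?_ (single_le_sum (fun p _ => mul_nonneg (ind0 _) (ind0 _)) (mem_univ (p, q)))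
      rw [ind, ind, ind, if_pos e, if_pos h, if_pos e.2, one_mul]
    · rw [ind, if_neg e]
      exact sum_nonneg fun p _ => mul_nonneg (ind0 _) (ind0 _)
  · simp only [tm, mul_sum] at pair ⊢
    rw [sum_comm]
    refine (sum_le_card_nsmul _ _ _ fun p _ => pair p).trans (le_of_eq ?_)
    simp [sq, mul_assoc]

end Pool.Agent.MP_f3836a_nt.VE.BC
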