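import Pool.Agent.MP_f3836a_nt.VE.SpecB

/-! Anti-concentration. -/

set_option autoImplicit false

namespace Pool.Agent.MP_f3836a_nt.VE.BC

open Finset Real

namespace BAc

theorem card_near (T : Finset ℤ) {a L : ℝ} (hL : 0 ≤ L) (h : ∀ v ∈ T, |v - a| ≤ L) :
    (T.card : ℝ) ≤ 2 * L + 1 := by
  have h1 : T.card ≤ (Icc ⌈a - L⌉ ⌊a + L⌋).card := card_le_card fun v hv => by
    have := abs_le.1 (h v hv)
    exact mem_Icc.2 ⟨Int.ceil_le.2 (by linarith), Int.le_floor.2 (by linarith)⟩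
  have h2 := Int.card_Icc_of_le _ _ (show ⌈a - L⌉ ≤ ⌊a + L⌋ + 1 from
    Int.ceil_le.2 (by push_cast; linarith [Int.lt_floor_add_one (a + L)]))
  have h3 : (T.card : ℝ) ≤ ⌊a + L⌋ + 1 - ⌈a - L⌉ := by exact_mod_cast h2 ▸ Int.ofNat_le.2 h1
  linarith [Int.floor_le (a + L), Int.le_ceil (a - L)]

theorem count (R : ℕ) (α θ : ℝ) {L : ℝ} (hL : 0 ≤ L) :
    (((Icc (0 : ℤ) R).filter fun v : ℤ => |α * v - θ - round (α * v - θ)| < |α| * L).card : ℝ) ≤
      (2 * (|α| * R + 1 / 2) + 1) * (2 * L + 1) := by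
  rw [card_eq_sum_card_image fun v : ℤ => round (α * v - θ), Nat.cast_sum]
  refine (sum_le_card_nsmul _ _ (2 * L + 1) fun n _ => ?_).trans ?_
  · refine card_near _ (a := (θ + n) / α) hL fun v hv => ?_
    obtain ⟨h1, rfl⟩ := mem_filter.1 hv
    have h2 := (mem_filter.1 h1).2
    have h0 : α ≠ 0 := fun e => by simpa [e] using (abs_nonneg _).trans_lt h2
    refine le_of_mul_le_mul_left (le_of_eq_of_le ?_ h2.le) (abs_pos.2 h0)
    rw [← abs_mul, mul_sub, mul_div_cancel₀ _ h0, sub_sub]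
  rw [nsmul_eq_mul]
  refine mul_le_mul_of_nonneg_right (card_near _ (a := -θ) (by positivity) fun n hn => ?_)
    (by positivity)
  obtain ⟨v, hv, rfl⟩ := mem_image.1 hn
  have h1 := mem_Icc.1 (mem_filter.1 hv).1
  have h2 : |α * v| ≤ |α| * R := by
    rw [abs_mul, abs_of_nonneg (show (0 : ℝ) ≤ v by exact_mod_cast h1.1)]
    exact mul_le_mul_of_nonneg_left (by exact_mod_cast h1.2) (abs_nonneg _)
  have h3 := abs_le.1 (abs_sub_round (α * v - θ))
  have h4 := abs_le.1 h2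
  exact abs_le.2 ⟨by linarith, by linarith⟩

theorem cos_le (x : ℝ) : cos (2 * π * x) ≤ 1 - 8 * |x - round x| ^ 2 := by
  have h := abs_sub_round x
  have h1 := cos_le_one_sub_mul_cos_sq (x := 2 * π * x - round x * (2 * π)) (by
    rw [show 2 * π * x - round x * (2 * π) = 2 * π * (x - round x) by ring, abs_mul,
      abs_of_pos two_pi_pos]
    nlinarith [pi_pos])
  rw [cos_sub_int_mul_two_pi] at h1
  refine h1.trans_eq ?_
  rw [sq_abs]
  field_simp
  ring

theorem pow_eq (hT : TupS) {ι : Type} [Fintype ι] (μ : ι → ℝ) (X : ι → ℤ) (k : ℕ) (α : ℝ) :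
    ∃ θ : ℝ, ‖ex μ fun i => ee (α * X i)‖ ^ k =
      tm μ k fun s => cos (2 * π * (α * (∑ i, X (s i) : ℤ) - θ)) := by
  set z := (ex μ fun i => ee (α * X i)) ^ k with hz
  refine ⟨z.arg / (2 * π), ?_⟩
  have h1 : ((‖z‖ : ℝ) : ℂ) = z * Complex.exp (-(z.arg * Complex.I)) := by
    rw [Complex.exp_neg, eq_mul_inv_iff_mul_eq₀ (Complex.exp_ne_zero _),
      Complex.norm_mul_exp_arg_mul_I]
  rw [← norm_pow, ← hz, ← Complex.ofReal_re ‖z‖, h1]
  generalize z.arg = a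
  rw [hz, ← (hT ι μ).1, sum_mul, Complex.re_sum]
  refine sum_congr rfl fun s _ => ?_
  simp only [mul_assoc _ (∏ i, _), Complex.re_ofReal_mul, ← Complex.exp_ofReal_mul_I_re]
  congr 2
  simp only [ee, ← Complex.exp_sum, ← Complex.exp_add, ← sum_mul, ← mul_sum]
  have : (π : ℂ) ≠ 0 := by exact_mod_cast pi_ne_zero
  congr 1
  push_cast
  rw [← mul_sum]
  field_simp
  ring

theorem bound (hT : TupS) {ι : Type} [Fintype ι] {μ : ι → ℝ} (hμ : Sb μ) (X : ι → ℤ) (k : ℕ)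
    (F : ℤ → ℝ) (S : Finset ℤ) {e D : ℝ} (h0 : 0 ≤ e) (h1 : e ≤ 1) (hD : ∀ v, law μ X k v ≤ D)
    (hF : ∀ s : Fin k → ι, F (∑ i, X (s i)) ≤ 1 - e + if ∑ i, X (s i) ∈ S then e else 0) :
    (tm μ k fun s => F (∑ i, X (s i))) ≤ 1 - e + e * (S.card * D) := by
  obtain ⟨-, -, -, a, b, c⟩ := hT ι μ
  refine (b hμ.1 k _ _ hF).trans ?_
  have h2 := (c ℤ X).2.1 k S (fun y => if y ∈ S then e else 0) fun s h => by_contra fun h' =>
    h (if_neg h')
  have h3 : ∑ y ∈ S, law μ X k y * (if y ∈ S then e else 0) ≤ S.card • (D * e) :=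
    sum_le_card_nsmul _ _ _ fun y hy => by
      rw [if_pos hy]
      exact mul_le_mul_of_nonneg_right (hD y) h0
  have h4 := a k (1 - e)
  have h5 := mul_le_mul_of_nonneg_right (pow_le_one₀ (n := k) (sum_nonneg fun i _ => hμ.1 i) hμ.2)
    (sub_nonneg.2 h1)
  simp only [tm, mul_add, sum_add_distrib, nsmul_eq_mul] at h2 h3 h4 ⊢
  linarith

end BAc

open BAc in
theorem rAc : OfAc := fun hT hS k C hk => by
  obtain ⟨D, hD, hC⟩ : ∃ D : ℝ, 1 ≤ D ∧ C ≤ D := ⟨_, le_max_left 1 C, le_max_right 1 C⟩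
  have k1 : (1 : ℝ) ≤ k := by exact_mod_cast hk
  obtain ⟨K, hK⟩ : ∃ K : ℝ, K = 64 * D * k := ⟨_, rfl⟩
  have K1 : 64 * D ≤ K := by rw [hK]; nlinarith
  have K0 : 0 < K := by linarith
  have c1 : 4 / (K ^ 2 * k) ≤ 1 / 2 := by
    rw [div_le_iff₀ (by positivity)]
    nlinarith [mul_le_mul (show (64 : ℝ) ^ 2 ≤ K ^ 2 by gcongr; linarith) k1 zero_le_one
      (by positivity)]
  refine ⟨⌈K⌉₊, 4 / (K ^ 2 * k), by positivity, by linarith,
    fun ι _ μ u U J hJ hU hμ hu hl α hα => ?_⟩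
  have J1 : K ≤ J := Nat.ceil_le.1 hJ
  have U1 : (J : ℝ) ≤ U := by exact_mod_cast hU
  have J0 : (0 : ℝ) < J := by linarith
  obtain ⟨hν, -, -, h1⟩ := hS ι μ u J (fun _ => 1) α hμ (by exact_mod_cast (by linarith : (1 : ℝ) ≤ J))
  have m0 : 0 ≤ min 1 ((α * U) ^ 2) := by positivity
  rcases le_total 1 (J * |α|) with h | h
  · have h2 := h1 (by simp) hα (by rintro rfl; norm_num at h)
    simp only [mul_one] at h2
    have h3 : 1 / (2 * J * |α|) ≤ 1 / 2 := one_div_le_one_div_of_le two_pos (by linarith)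
    have h4 := mul_le_mul c1 (min_le_left 1 ((α * U) ^ 2)) m0 (by norm_num)
    linarith
  obtain ⟨L, L0, LU, L1, hm⟩ : ∃ L : ℝ, 0 ≤ L ∧ L ≤ U ∧ |α| * L ≤ 1 ∧
      min 1 ((α * U) ^ 2) = (|α| * L) ^ 2 := by
    rw [mul_pow α, ← sq_abs α, ← mul_pow]
    rcases le_total 1 (|α| * U) with g | g
    · have a0 : 0 < |α| := abs_pos.2 (by rintro rfl; norm_num at g)
      refine ⟨1 / |α|, by positivity, by rwa [div_le_iff₀' a0], ?_⟩
      rw [mul_one_div_cancel a0.ne', one_pow]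
      exact ⟨le_rfl, min_eq_left (one_le_pow₀ g)⟩
    · exact ⟨U, by positivity, le_rfl, g, min_eq_right (pow_le_one₀ (by positivity) g)⟩
  obtain ⟨θ, hθ⟩ := pow_eq hT (sm μ J) (su u J) k α
  have a0 := abs_nonneg α
  have t1 : |α| * (L / K) ≤ 1 / K := by rw [← mul_div_assoc]; gcongr
  have t2 : 1 / K ≤ 1 / 64 := one_div_le_one_div_of_le (by norm_num) (by linarith)
  have t0 : 0 ≤ |α| * (L / K) := by positivity
  have h2 := bound hT hν (su u J) k (fun v => cos (2 * π * (α * v - θ)))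
    ((Icc (0 : ℤ) (2 * k * U : ℕ)).filter fun v : ℤ =>
      |α * v - θ - round (α * v - θ)| < |α| * (L / K)) (e := 8 * (|α| * (L / K)) ^ 2) (D := D / U)
    (by positivity) (by nlinarith) (fun v => (hl v).trans (by gcongr)) fun s => by
      split_ifs with g
      · linarith [cos_le_one (2 * π * (α * (∑ i, su u J (s i) : ℤ) - θ))]
      · have g1 : ∑ i, su u J (s i) ∈ Icc (0 : ℤ) (2 * k * U : ℕ) := mem_Icc.2
          ⟨sum_nonneg fun i _ => by unfold su; positivity, (sum_le_card_nsmul _ _ (2 * U : ℤ)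
            fun i _ => by have := hu (s i).1; have := (s i).2.2; unfold su; omega).trans_eq
              (by simp; ring)⟩
        have g2 := pow_le_pow_left₀ t0 (not_lt.1 fun h => g (mem_filter.2 ⟨g1, h⟩)) 2
        linarith [cos_le (α * (∑ i, su u J (s i) : ℤ) - θ)]
  have h3 := count (2 * k * U) α θ (L := L / K) (by positivity)
  have h4 : (2 * (|α| * (2 * k * U : ℕ) + 1 / 2) + 1) * (2 * (L / K) + 1) * (D / U) ≤ 1 / 2 := by
    have U0 : (0 : ℝ) < U := by linarith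
    have b1 : K * |α| ≤ 1 := (mul_le_mul_of_nonneg_right J1 a0).trans h
    have b2 : D * L ≤ D * U := by gcongr
    have b3 : D * K ≤ D * U := by gcongr; linarith
    have b4 : 64 * D * U ≤ K * U := by gcongr
    have b5 : |α| * L * (K * U) ≤ 1 * (K * U) := by gcongr
    have b6 : K * |α| * (K * U) ≤ 1 * (K * U) := by gcongr
    have e : (2 * (|α| * (2 * k * U : ℕ) + 1 / 2) + 1) * (2 * (L / K) + 1) * (D / U) =
        (|α| * L * (K * U) / 8 + K * |α| * (K * U) / 16 + 4 * (D * L) + 2 * (D * K)) / (K * U) := by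
      push_cast
      field_simp
      rw [hK]
      ring
    rw [e, div_le_iff₀ (by positivity)]
    linarith [mul_pos K0 U0]
  have h5 := mul_le_mul_of_nonneg_left ((mul_le_mul_of_nonneg_right h3 (by positivity)).trans h4)
    (show 0 ≤ 8 * (|α| * (L / K)) ^ 2 by positivity)
  have h6 : 4 / (K ^ 2 * k) * (|α| * L) ^ 2 ≤ 1 / 2 * 1 :=
    mul_le_mul c1 (pow_le_one₀ (by positivity) L1) (by positivity) (by norm_num)
  rw [hm]
  refine le_of_pow_le_pow_left₀ (n := k) (by omega) (by linarith) ?_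
  refine le_trans ?_ (one_add_mul_le_pow (a := -(4 / (K ^ 2 * k) * (|α| * L) ^ 2)) (by linarith) k)
  have e : k * -(4 / (K ^ 2 * k) * (|α| * L) ^ 2) = -(4 * (|α| * (L / K)) ^ 2) := by field_simp
  rw [hθ, e]
  linarith

end Pool.Agent.MP_f3836a_nt.VE.BC
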