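import Pool.Agent.MP_f3836a_nt.VE.SpecB

/-! Few large characters, and they have small order. -/

set_option autoImplicit false

namespace Pool.Agent.MP_f3836a_nt.VE.BC

open Finset

namespace BBes

theorem norm_ee (x : ℝ) : ‖ee x‖ = 1 := by
  unfold ee
  have : (2 * Real.pi * x * Complex.I : ℂ) = ((2 * Real.pi * x : ℝ) : ℂ) * Complex.I := by
    push_cast; ring
  rw [this, Complex.norm_exp_ofReal_mul_I]

theorem ee_add (x y : ℝ) : ee (x + y) = ee x * ee y := by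
  unfold ee
  rw [← Complex.exp_add]; congr 1; push_cast; ring

theorem ee_zero : ee 0 = 1 := by simp [ee]

theorem ee_sum {κ : Type} (s : Finset κ) (f : κ → ℝ) : ee (∑ i ∈ s, f i) = ∏ i ∈ s, ee (f i) := by
  classical
  induction s using Finset.induction_on with
  | empty => simp [ee_zero]
  | insert a s ha ih => rw [sum_insert ha, prod_insert ha, ee_add, ih]

theorem ee_pow (x : ℝ) (j : ℕ) : ee x ^ j = ee (j * x) := by
  induction j with
  | zero => simp [ee_zero]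
  | succ j ih => rw [pow_succ, ih, ← ee_add]; congr 1; push_cast; ring

theorem char_sum {Γ κ : Type} [AddCommGroup Γ] (ψ : AddChar Γ ℂ) (s : Finset κ) (f : κ → Γ) :
    ψ (∑ i ∈ s, f i) = ∏ i ∈ s, ψ (f i) := by
  classical
  induction s using Finset.induction_on with
  | empty => simp
  | insert a s ha ih => rw [sum_insert ha, prod_insert ha, AddChar.map_add_eq_mul, ih]

/-- Parseval on a finite abelian group -/
theorem parseval {Γ : Type} [AddCommGroup Γ] [Fintype Γ] (f : Γ → ℝ) :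
    ∑ ψ : AddChar Γ ℂ, ‖∑ g, (f g : ℂ) * ψ g‖ ^ 2 = Fintype.card Γ * ∑ g, f g ^ 2 := by
  classical
  have h : ∀ ψ : AddChar Γ ℂ, ((‖∑ g, (f g : ℂ) * ψ g‖ ^ 2 : ℝ) : ℂ)
      = ∑ g, ∑ h, (f g : ℂ) * f h * ψ (g - h) := by
    intro ψ
    rw [Complex.ofReal_pow, ← Complex.mul_conj', map_sum, sum_mul_sum]
    refine sum_congr rfl fun g _ => sum_congr rfl fun h _ => ?_
    rw [map_mul, Complex.conj_ofReal, sub_eq_add_neg, AddChar.map_add_eq_mul,
      AddChar.map_neg_eq_conj]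
    ring
  apply Complex.ofReal_injective
  rw [Complex.ofReal_sum]
  simp_rw [h]
  rw [sum_comm]
  push_cast
  rw [mul_sum]
  refine sum_congr rfl fun g _ => ?_
  rw [sum_comm]
  simp_rw [← mul_sum, AddChar.sum_apply_eq_ite, sub_eq_zero]
  simp only [mul_ite, mul_zero, sum_ite_eq, mem_univ, if_true]
  ring

theorem law_sum {ι Γ : Type} [Fintype ι] [AddCommMonoid Γ] (μ : ι → ℝ) (X : ι → Γ) (j : ℕ)
    (T : Finset Γ) (hT : ∀ s : Fin j → ι, ∑ i, X (s i) ∈ T) (F : Γ → ℂ) :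
    ∑ y ∈ T, (law μ X j y : ℂ) * F y
      = ∑ s : Fin j → ι, ((∏ i, μ (s i) : ℝ) : ℂ) * F (∑ i, X (s i)) := by
  classical
  unfold law tm
  simp_rw [Complex.ofReal_sum, sum_mul]
  rw [sum_comm]
  refine sum_congr rfl fun s _ => ?_
  rw [sum_eq_single_of_mem _ (hT s)]
  · simp [ind]
  · intro y _ hy
    simp [ind, hy.symm]

theorem first (hT : TupS) (ι Γ : Type) [Fintype ι] [AddCommGroup Γ] [Finite Γ] (μ : ι → ℝ)
    (u : ι → ℤ) (x : ι → Γ) (k R M : ℕ) (D : ℝ) (hμ : Sb μ) (hk : 1 ≤ k)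
    (hu : ∀ i, 0 ≤ u i ∧ u i < R) (hD : ∀ y, law μ (fun i => (u i, x i)) k y ≤ D)
    (hM : 2 * k * R * Nat.card Γ * D ≤ M) (S : Finset (AddChar Γ ℂ)) (α : AddChar Γ ℂ → ℝ)
    (hS : ∀ ψ ∈ S, 1 - 1 / (4 * k : ℝ) ≤ ‖ex μ fun i => ee (α ψ * u i) * ψ (x i)‖) :
    S.card ≤ M := by
  classical
  have := Fintype.ofFinite Γ
  obtain ⟨h1, -, -, h4, -, -⟩ := hT ι μ
  set L : ℤ × Γ → ℝ := law μ (fun i => (u i, x i)) k with hL
  set I : Finset ℤ := Ico 0 (k * R : ℤ) with hI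
  have hcI : (I.card : ℝ) = k * R := by
    rw [hI, Int.card_Ico, sub_zero, ← Nat.cast_mul, Int.toNat_natCast]; push_cast; ring
  have hmem : ∀ s : Fin k → ι, ∑ i, (u (s i), x (s i)) ∈ I ×ˢ (univ : Finset Γ) := by
    intro s
    rw [mem_product, Prod.fst_sum, hI, mem_Ico]
    refine ⟨⟨sum_nonneg fun i _ => (hu _).1, ?_⟩, mem_univ _⟩
    have hne : (univ : Finset (Fin k)).Nonempty := ⟨⟨0, hk⟩, mem_univ _⟩
    calc ∑ i, u (s i) < ∑ _i : Fin k, (R : ℤ) := sum_lt_sum_of_nonempty hne fun i _ => (hu _).2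
      _ = k * R := by simp
  have hL0 : ∀ y, 0 ≤ L y := fun y => sum_nonneg fun s _ =>
    mul_nonneg (prod_nonneg fun i _ => hμ.1 _) (by unfold ind; dsimp only; split_ifs <;> norm_num)
  have hL1 : ∑ y ∈ I ×ˢ (univ : Finset Γ), L y ≤ 1 := by
    have h := law_sum μ (fun i => (u i, x i)) k _ hmem fun _ => 1
    simp only [mul_one] at h
    rw [← Complex.ofReal_sum, ← Complex.ofReal_sum, Complex.ofReal_inj] at h
    have h' := h4 k 1
    unfold tm at h'
    simp only [mul_one] at h'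
    rw [hL, h, h']
    exact pow_le_one₀ (sum_nonneg fun i _ => hμ.1 i) hμ.2
  have hD0 : 0 ≤ D := (hL0 0).trans (hD 0)
  have hL2 : ∑ v ∈ I, ∑ g, L (v, g) ^ 2 ≤ D := by
    rw [← sum_product' (f := fun v g => L (v, g) ^ 2)]
    calc ∑ y ∈ I ×ˢ (univ : Finset Γ), L (y.1, y.2) ^ 2
        ≤ ∑ y ∈ I ×ˢ (univ : Finset Γ), D * L y := by
          refine sum_le_sum fun y _ => ?_
          rw [sq]
          exact mul_le_mul_of_nonneg_right (hD y) (hL0 y)
      _ ≤ D := by rw [← mul_sum]; exact mul_le_of_le_one_right hD0 hL1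
  have hkR : (0 : ℝ) < k := by exact_mod_cast hk
  have key : ∀ ψ ∈ S, (1 / 2 : ℝ) ≤ k * R * ∑ v ∈ I, ‖∑ g, (L (v, g) : ℂ) * ψ g‖ ^ 2 := by
    intro ψ hψ
    have e1 : (ex μ fun i => ee (α ψ * u i) * ψ (x i)) ^ k
        = ∑ v ∈ I, ee (α ψ * v) * ∑ g, (L (v, g) : ℂ) * ψ g := by
      rw [← h1]
      have h := law_sum μ (fun i => (u i, x i)) k _ hmem fun y => ee (α ψ * y.1) * ψ y.2
      rw [sum_product] at h
      simp_rw [mul_sum]
      refine Eq.trans ?_ (h.symm.trans ?_)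
      · refine sum_congr rfl fun s _ => ?_
        rw [Prod.fst_sum, Prod.snd_sum, char_sum, prod_mul_distrib, Int.cast_sum, mul_sum, ee_sum]
      · exact sum_congr rfl fun v _ => sum_congr rfl fun g _ => by rw [hL]; ring
    have e2 : ‖ex μ fun i => ee (α ψ * u i) * ψ (x i)‖ ^ k
        ≤ ∑ v ∈ I, ‖∑ g, (L (v, g) : ℂ) * ψ g‖ := by
      rw [← norm_pow, e1]
      refine (norm_sum_le _ _).trans (le_of_eq (sum_congr rfl fun v _ => ?_))
      rw [norm_mul, norm_ee, one_mul]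
    have h14 : 1 / (4 * k : ℝ) ≤ 1 := by
      rw [div_le_one (by positivity)]
      have : (1 : ℝ) ≤ k := by exact_mod_cast hk
      linarith
    have e3 : (3 / 4 : ℝ) ≤ (1 - 1 / (4 * k : ℝ)) ^ k := by
      have h := one_add_mul_le_pow (a := -(1 / (4 * k : ℝ))) (by linarith) k
      have h' : (k : ℝ) * -(1 / (4 * k : ℝ)) = -(1 / 4) := by field_simp
      rw [h', ← sub_eq_add_neg, ← sub_eq_add_neg] at h
      linarith
    have e4 := (e3.trans (pow_le_pow_left₀ (by linarith) (hS ψ hψ) k)).trans e2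
    have e5 := sq_sum_le_card_mul_sum_sq (s := I) (f := fun v => ‖∑ g, (L (v, g) : ℂ) * ψ g‖)
    rw [hcI] at e5
    nlinarith
  have hfin : (S.card : ℝ) * (1 / 2) ≤ k * R * (Nat.card Γ * D) := by
    calc (S.card : ℝ) * (1 / 2) = ∑ _ψ ∈ S, (1 / 2 : ℝ) := by simp
      _ ≤ ∑ ψ ∈ S, k * R * ∑ v ∈ I, ‖∑ g, (L (v, g) : ℂ) * ψ g‖ ^ 2 := sum_le_sum key
      _ ≤ ∑ ψ : AddChar Γ ℂ, k * R * ∑ v ∈ I, ‖∑ g, (L (v, g) : ℂ) * ψ g‖ ^ 2 :=
          sum_le_sum_of_subset_of_nonneg (subset_univ _) fun _ _ _ => by positivity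
      _ = k * R * (Nat.card Γ * ∑ v ∈ I, ∑ g, L (v, g) ^ 2) := by
          rw [← mul_sum, sum_comm, mul_sum, mul_sum, mul_sum]
          refine sum_congr rfl fun v _ => ?_
          rw [parseval fun g => L (v, g), Nat.card_eq_fintype_card]
      _ ≤ k * R * (Nat.card Γ * D) := by gcongr
  have : (S.card : ℝ) ≤ M := by nlinarith
  exact_mod_cast this

end BBes

theorem rBes : OfBes := by
  classical
  intro hT hP ι Γ _ _ _ μ u x k R M D hμ hk _ hu hD hM
  have H := BBes.first hT ι Γ μ u x k R M D hμ hk hu hD hM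
  refine ⟨H, fun ψ α hψ => ?_⟩
  have hkR : (0 : ℝ) < k := by exact_mod_cast hk
  have hpow := (hP ι μ (fun i => ee (α * u i) * ψ (x i)) _ hμ
    (fun i => by rw [norm_mul, BBes.norm_ee, AddChar.norm_apply, one_mul]) hψ).2
  have hch : ∀ χ : AddChar Γ ℂ, ∃ a : ℝ, χ ∈ (Icc 1 (M + 1)).image (fun j => ψ ^ j) →
      1 - 1 / (4 * k : ℝ) ≤ ‖ex μ fun i => ee (a * u i) * χ (x i)‖ := by
    intro χ
    by_cases hχ : χ ∈ (Icc 1 (M + 1)).image (fun j => ψ ^ j)
    · obtain ⟨j, hj, rfl⟩ := mem_image.1 hχ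
      rw [mem_Icc] at hj
      refine ⟨j * α, fun _ => ?_⟩
      have h := hpow j hj.1
      have e : (fun i => (ee (α * u i) * ψ (x i)) ^ j)
          = fun i => ee (j * α * u i) * (ψ ^ j) (x i) := by
        funext i
        rw [mul_pow, BBes.ee_pow, AddChar.pow_apply, mul_assoc]
      rw [e] at h
      refine le_trans ?_ h
      have hj' : (j : ℝ) ≤ M + 1 := by exact_mod_cast hj.2
      have : (j : ℝ) ^ 2 * (1 / (4 * k * (M + 1) ^ 2 : ℝ)) ≤ 1 / (4 * k : ℝ) := by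
        calc (j : ℝ) ^ 2 * (1 / (4 * k * (M + 1) ^ 2 : ℝ))
            ≤ (M + 1) ^ 2 * (1 / (4 * k * (M + 1) ^ 2 : ℝ)) := by gcongr
          _ = 1 / (4 * k : ℝ) := by field_simp
      linarith
    · exact ⟨0, fun h => absurd h hχ⟩
  choose a ha using hch
  have hc := H _ a ha
  have hlt : ((Icc 1 (M + 1)).image (fun j => ψ ^ j)).card < (Icc 1 (M + 1)).card := by
    rw [Nat.card_Icc]; omega
  obtain ⟨i, hi, j, hj, hne, hij⟩ := exists_ne_map_eq_of_card_image_lt hlt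
  rw [mem_Icc] at hi hj
  wlog hlt' : i < j generalizing i j
  · exact this j hj i hi hne.symm hij.symm (by omega)
  refine ⟨j - i, by omega, by omega, fun g => ?_⟩
  have h := congrArg (fun χ : AddChar Γ ℂ => χ g) hij
  simp only [AddChar.pow_apply] at h
  have h0 : ψ g ≠ 0 := by
    intro h0
    have := AddChar.norm_apply ψ g
    rw [h0, norm_zero] at this
    exact zero_ne_one this
  have e : ψ g ^ j = ψ g ^ i * ψ g ^ (j - i) := by rw [← pow_add]; congr 1; omega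
  rw [e] at h
  exact (mul_eq_left₀ (pow_ne_zero i h0)).1 h.symm

end Pool.Agent.MP_f3836a_nt.VE.BC
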