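import Pool.Agent.MP_f3836a_nt.VE.SpecB

/-! Row BInv: Fourier inversion with a tail bound. -/

set_option autoImplicit false

namespace Pool.Agent.MP_f3836a_nt.VE.BC

open Finset

namespace BInv

variable {ι Γ : Type} [Fintype ι] [AddCommGroup Γ] [Finite Γ] (hT : TupS) (μ : ι → ℝ) (X : ι → Γ)
include hT

omit [Finite Γ] in
theorem pw (ξ : AddChar Γ ℂ) (j : ℕ) : (ex μ fun i => ξ (X i)) ^ j =
    ∑ s : Fin j → ι, ((∏ i, μ (s i) : ℝ) : ℂ) * ξ (∑ i, X (s i)) := by
  rw [← (hT ι μ).1]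
  refine sum_congr rfl fun s _ => congrArg _ ?_
  induction (univ : Finset (Fin j)) using Finset.cons_induction with
  | empty => simp
  | cons a t h ih => rw [prod_cons, sum_cons, AddChar.map_add_eq_mul, ih]

theorem inv (j : ℕ) (y : Γ) : ∑ ξ : AddChar Γ ℂ, (ex μ fun i => ξ (X i)) ^ j * ξ (-y) =
    (law μ X j y : ℂ) * Nat.card Γ := by
  classical
  have := Fintype.ofFinite Γ
  simp only [pw hT, sum_mul, law, tm, Complex.ofReal_sum, Complex.ofReal_mul]
  rw [sum_comm]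
  refine sum_congr rfl fun s _ => ?_
  simp only [mul_assoc, ← mul_sum, ← AddChar.map_add_eq_mul, AddChar.sum_apply_eq_ite,
    add_neg_eq_zero, ind, Nat.card_eq_fintype_card]
  split_ifs <;> simp

theorem pars (k : ℕ) : ∑ ξ : AddChar Γ ℂ, ‖ex μ fun i => ξ (X i)‖ ^ (2 * k) =
    (tm μ k fun s => law μ X k (∑ i, X (s i))) * Nat.card Γ := by
  have : ∀ ξ : AddChar Γ ℂ, ((‖ex μ fun i => ξ (X i)‖ ^ (2 * k) : ℝ) : ℂ) =
      ∑ s : Fin k → ι, ((∏ i, μ (s i) : ℝ) : ℂ) *
        ((ex μ fun i => ξ (X i)) ^ k * ξ (-∑ i, X (s i))) := fun ξ => by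
    rw [mul_comm 2, pow_mul, ← norm_pow, Complex.ofReal_pow, ← Complex.mul_conj']
    nth_rewrite 2 [pw hT]
    simp only [map_sum, map_mul, Complex.conj_ofReal, mul_sum, AddChar.map_neg_eq_conj,
      mul_left_comm]
  refine Complex.ofReal_injective ?_
  simp only [Complex.ofReal_sum, this, tm, Complex.ofReal_mul, sum_mul, Complex.ofReal_natCast]
  rw [sum_comm]
  exact sum_congr rfl fun s _ => by rw [← mul_sum, inv hT, mul_assoc]

end BInv

open BInv in
theorem rInv : OfInv := by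
  classical
  intro hT ι Γ _ _ _ μ X k j D θ S hμ hD hθ hS hj y
  obtain ⟨-, -, -, t4, t5, -⟩ := hT ι μ
  have c0 : (0 : ℝ) < Nat.card Γ := Nat.cast_pos.2 Nat.card_pos
  have D0 : 0 ≤ D := by
    refine le_trans ?_ (hD y)
    simpa only [t4, mul_zero, law] using t5 hμ.1 k (fun _ => 0) (fun s => ind (∑ i, X (s i) = y))
      fun s => by unfold ind; split_ifs <;> norm_num
  have h1 := t5 hμ.1 k _ (fun _ => D) fun s => hD (∑ i, X (s i))
  rw [t4] at h1
  replace h1 := h1.trans (mul_le_of_le_one_left D0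
    (pow_le_one₀ (sum_nonneg fun i _ => hμ.1 i) hμ.2))
  rw [← mul_div_cancel_right₀ (law μ X j y : ℂ) (Nat.cast_ne_zero.2 (Nat.card_pos (α := Γ)).ne'),
    ← inv hT, ← sub_div, ← sum_compl_add_sum S, add_sub_cancel_right, norm_div,
    Complex.norm_natCast, div_le_iff₀ c0, mul_assoc]
  refine (norm_sum_le _ _).trans (le_trans ?_ (mul_le_mul_of_nonneg_left
    (mul_le_mul_of_nonneg_right h1 c0.le) (pow_nonneg hθ _)))
  rw [← pars hT, mul_sum]
  refine (sum_le_sum fun ξ hξ => ?_).trans (sum_le_univ_sum_of_nonneg fun ξ => by positivity)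
  rw [norm_mul, AddChar.norm_apply, mul_one, norm_pow, ← Nat.sub_add_cancel hj, pow_add,
    Nat.add_sub_cancel]
  gcongr
  exact hS ξ (mem_compl.1 hξ)

end Pool.Agent.MP_f3836a_nt.VE.BC
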