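import Pool.Agent.MP_f3836a_nt.VE.SpecB

/-! Large means and powers. -/

set_option autoImplicit false

namespace Pool.Agent.MP_f3836a_nt.VE.BC

open Finset

namespace BPow

theorem sq_sub {a b : ℂ} (ha : ‖a‖ = 1) (hb : ‖b‖ = 1) :
    ‖a - b‖ ^ 2 = 2 - 2 * (a * (starRingEnd ℂ) b).re := by
  rw [Complex.sq_norm, Complex.normSq_sub, ← Complex.sq_norm, ← Complex.sq_norm, ha, hb]
  ring

theorem pow_sub {a b : ℂ} (ha : ‖a‖ = 1) (hb : ‖b‖ = 1) (j : ℕ) :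
    ‖a ^ j - b ^ j‖ ≤ j * ‖a - b‖ := by
  induction j with
  | zero => simp
  | succ j ih =>
    have e : a ^ (j + 1) - b ^ (j + 1) = a * (a ^ j - b ^ j) + (a - b) * b ^ j := by ring
    rw [e]
    refine (norm_add_le _ _).trans ?_
    rw [norm_mul, norm_mul, norm_pow, ha, hb, one_pow]
    push_cast
    linarith

theorem sum_sq {ι : Type} [Fintype ι] (μ : ι → ℝ) {g : ι → ℂ} {e : ℂ} (hg : ∀ i, ‖g i‖ = 1)
    (he : ‖e‖ = 1) :
    ∑ i, μ i * ‖g i - e‖ ^ 2 = 2 * ∑ i, μ i - 2 * (ex μ g * (starRingEnd ℂ) e).re := by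
  rw [ex, sum_mul, Complex.re_sum, mul_sum, mul_sum, ← sum_sub_distrib]
  refine sum_congr rfl fun i _ => ?_
  rw [sq_sub (hg i) he, mul_assoc, Complex.re_ofReal_mul]
  ring

theorem dir (E : ℂ) : ∃ c : ℂ, ‖c‖ = 1 ∧ (E * (starRingEnd ℂ) c).re = ‖E‖ := by
  refine ⟨Complex.exp (Complex.arg E * Complex.I), Complex.norm_exp_ofReal_mul_I _, ?_⟩
  have h := Complex.norm_mul_exp_arg_mul_I E
  set c := Complex.exp (Complex.arg E * Complex.I) with hc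
  have hn : ‖c‖ = 1 := Complex.norm_exp_ofReal_mul_I _
  rw [← h, mul_assoc, Complex.mul_conj, ← Complex.sq_norm, hn, h]
  simp

end BPow

open BPow

theorem rPow : PowS := fun ι _ μ f d hμ hf hd => by
  obtain ⟨c, hc, hE⟩ := dir (ex μ f)
  have h1 := sum_sq μ hf hc
  rw [hE] at h1
  have h2 : ∑ i, μ i * ‖f i - c‖ ^ 2 ≤ 2 * d := by linarith [hμ.2]
  refine ⟨⟨c, hc, h2, Real.le_sqrt_of_sq_le ?_⟩, fun j hj => ?_⟩
  · have cs := sum_mul_sq_le_sq_mul_sq univ (fun i => √(μ i)) fun i => √(μ i) * ‖f i - c‖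
    simp only [← mul_assoc, mul_pow, Real.mul_self_sqrt (hμ.1 _), Real.sq_sqrt (hμ.1 _)] at cs
    have h0 : 0 ≤ ∑ i, μ i * ‖f i - c‖ ^ 2 :=
      sum_nonneg fun i _ => mul_nonneg (hμ.1 i) (sq_nonneg _)
    nlinarith [hμ.2]
  · have hcj : ‖c ^ j‖ = 1 := by rw [norm_pow, hc, one_pow]
    have h3 := sum_sq μ (g := fun i => f i ^ j) (fun i => by rw [norm_pow, hf, one_pow]) hcj
    have h4 : ∑ i, μ i * ‖f i ^ j - c ^ j‖ ^ 2 ≤ (j : ℝ) ^ 2 * ∑ i, μ i * ‖f i - c‖ ^ 2 := by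
      rw [mul_sum]
      refine sum_le_sum fun i _ => ?_
      rw [mul_left_comm, ← mul_pow]
      exact mul_le_mul_of_nonneg_left
        (pow_le_pow_left₀ (norm_nonneg _) (pow_sub (hf i) hc j) 2) (hμ.1 i)
    have h5 : ((ex μ fun i => f i ^ j) * (starRingEnd ℂ) (c ^ j)).re ≤ ‖ex μ fun i => f i ^ j‖ := by
      refine (Complex.re_le_norm _).trans_eq ?_
      rw [norm_mul, Complex.norm_conj, hcj, mul_one]
    have h6 : (1 : ℝ) ≤ (j : ℝ) ^ 2 := one_le_pow₀ (by exact_mod_cast hj)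
    rw [h1] at h4
    nlinarith [mul_nonneg (sub_nonneg.2 h6) (sub_nonneg.2 hμ.2),
      mul_nonneg (zero_le_one.trans h6) (sub_nonneg.2 hd)]

end Pool.Agent.MP_f3836a_nt.VE.BC
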