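import Pool.Agent.MP_f3836a_nt.VE.SpecB

/-! Row BReg: regularisation. -/

set_option autoImplicit false

namespace Pool.Agent.MP_f3836a_nt.VE.BC

open Finset

namespace BReg

theorem root_gap {z : ℂ} {j : ℕ} (hn : ‖z‖ = 1) (hz : z ^ j = 1) (h1 : z ≠ 1) (hj : 1 ≤ j) :
    4 ≤ j * ‖z - 1‖ := by
  have e : Complex.exp (Complex.I * (Complex.arg z : ℝ)) = z := by
    have := Complex.norm_mul_exp_arg_mul_I z
    rwa [hn, Complex.ofReal_one, one_mul, mul_comm] at this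
  set θ := Complex.arg z with hθ
  have h2 : Complex.exp (j * (Complex.I * θ)) = 1 := by rw [Complex.exp_nat_mul, e, hz]
  obtain ⟨n, hn'⟩ := Complex.exp_eq_one_iff.1 h2
  have h3 : (j : ℝ) * θ = n * (2 * Real.pi) := by
    have := congrArg Complex.im hn'
    simpa using this
  have hjp : (0 : ℝ) < j := by exact_mod_cast hj
  have n0 : n ≠ 0 := by
    rintro rfl
    have : θ = 0 := by simpa [hjp.ne'] using h3
    exact h1 (by rw [← e, this]; simp)
  have n1 : (1 : ℝ) ≤ |(n : ℝ)| := by exact_mod_cast Int.one_le_abs n0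
  have pp := Real.pi_pos
  have h4 : 2 * Real.pi ≤ j * |θ| := by
    have := congrArg abs h3
    rw [abs_mul, abs_mul, abs_of_pos hjp, abs_of_pos (by positivity : 0 < 2 * Real.pi)] at this
    nlinarith
  have h5 : |θ / 2| ≤ Real.pi / 2 := by
    rw [abs_div, abs_two]
    linarith [Complex.abs_arg_le_pi z]
  have h6 := Real.mul_abs_le_abs_sin h5
  have h7 : ‖z - 1‖ = 2 * |Real.sin (θ / 2)| := by
    rw [← e, Complex.norm_exp_I_mul_ofReal_sub_one]
    simp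
  rw [abs_div, abs_two, div_mul_eq_mul_div, div_le_iff₀ pp] at h6
  rw [h7]
  refine le_of_mul_le_mul_right ?_ pp
  nlinarith

theorem two_gap {a b : ℂ} {j : ℕ} (ha : ‖a‖ = 1) (hb : ‖b‖ = 1) (ha' : a ^ j = 1) (hb' : b ^ j = 1)
    (h : a ≠ b) (hj : 1 ≤ j) : 4 ≤ j * ‖a - b‖ := by
  have b0 : b ≠ 0 := fun e => by simp [e] at hb
  have := root_gap (z := a / b) (j := j) (by rw [norm_div, ha, hb, div_one])
    (by rw [div_pow, ha', hb', div_one]) (fun e => h ((div_eq_one_iff_eq b0).1 e)) hj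
  rwa [div_sub_one b0, norm_div, hb, div_one] at this

theorem chain (c : ℕ → ℕ) (M : ℕ) (h0 : c 0 ≤ M) : ∃ i, i ≤ M ∧ c i ≤ c (i + 1) := by
  by_contra hn
  have key : ∀ i, i ≤ M + 1 → c i + i ≤ M := fun i => by
    induction i with
    | zero => exact fun _ => h0
    | succ i ih =>
      intro hi
      have a : ¬c i ≤ c (i + 1) := fun e => hn ⟨i, by omega, e⟩
      have := ih (by omega)
      omega
  have := key (M + 1) le_rfl
  omega

open Classical in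
/-- the minority has small mass -/
theorem minor (hP : PowS) {ι : Type} [Fintype ι] (μ : ι → ℝ) (f : ι → ℂ) (d : ℝ) (j M : ℕ)
    (h0 : ∀ i, 0 ≤ μ i) (h1 : ∑ i, μ i = 1) (hf : ∀ i, ‖f i‖ = 1) (hj : 1 ≤ j) (hM : j ≤ M)
    (hp : ∀ i, f i ^ j = 1) (hd : 1 - d ≤ ‖ex μ f‖) :
    ∃ c : ℂ, ∑ i, μ i * ind (f i ≠ c) ≤ d * M ^ 2 / 2 := by
  obtain ⟨⟨c, -, hc, -⟩, -⟩ := hP ι μ f d ⟨h0, h1.le⟩ hf hd
  have ne : (univ : Finset ι).Nonempty := nonempty_of_sum_ne_zero (h1 ▸ one_ne_zero)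
  obtain ⟨s, -, hs⟩ := exists_min_image univ (fun i => ‖f i - c‖) ne
  refine ⟨f s, ?_⟩
  have hM' : (j : ℝ) ≤ M := by exact_mod_cast hM
  have key : ∀ i, μ i * ind (f i ≠ f s) ≤ (M : ℝ) ^ 2 / 4 * (μ i * ‖f i - c‖ ^ 2) := fun i => by
    have a : ind (f i ≠ f s) ≤ (M : ℝ) ^ 2 / 4 * ‖f i - c‖ ^ 2 := by
      unfold ind
      split_ifs with e
      · have b1 := two_gap (hf i) (hf s) (hp i) (hp s) e hj
        have b2 : ‖f i - f s‖ ≤ ‖f i - c‖ + ‖f s - c‖ := by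
          have := norm_sub_le (f i - c) (f s - c)
          rwa [sub_sub_sub_cancel_right] at this
        have b3 : ‖f s - c‖ ≤ ‖f i - c‖ := hs i (mem_univ i)
        have b4 : (j : ℝ) * ‖f i - f s‖ ≤ M * (2 * ‖f i - c‖) :=
          mul_le_mul hM' (by linarith) (norm_nonneg _) (Nat.cast_nonneg _)
        have b5 : 2 ≤ M * ‖f i - c‖ := by linarith
        nlinarith
      · positivity
    calc _ ≤ μ i * ((M : ℝ) ^ 2 / 4 * ‖f i - c‖ ^ 2) := mul_le_mul_of_nonneg_left a (h0 i)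
      _ = _ := by ring
  calc _ ≤ ∑ i, (M : ℝ) ^ 2 / 4 * (μ i * ‖f i - c‖ ^ 2) := sum_le_sum fun i _ => key i
    _ = (M : ℝ) ^ 2 / 4 * ∑ i, μ i * ‖f i - c‖ ^ 2 := (mul_sum _ _ _).symm
    _ ≤ (M : ℝ) ^ 2 / 4 * (2 * d) := mul_le_mul_of_nonneg_left hc (by positivity)
    _ = _ := by ring

theorem ind_nonneg (p : Prop) : 0 ≤ ind p := by
  unfold ind
  split_ifs <;> norm_num

end BReg

open BReg Classical in
theorem rReg : OfReg := by
  intro hP hB ι G _ _ _ μ x σ k M D d h0 h1 hσ hk hD hM hd hd0 hd1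
  have hlaw : ∀ y, law μ (fun i => ((0 : ℤ), x i)) k y ≤ D := fun y => by
    refine le_trans ?_ (hD y.2)
    refine sum_le_sum fun s _ => mul_le_mul_of_nonneg_left ?_ (prod_nonneg fun i _ => h0 _)
    by_cases e : ∑ i, ((0 : ℤ), x (s i)) = y
    · have e' : ∑ i, x (s i) = y.2 := by rw [← e, Prod.snd_sum]
      simp only [ind, if_pos e, if_pos e', le_refl]
    · simp only [ind, if_neg e]
      exact ind_nonneg _
  obtain ⟨b1, b2⟩ := hB ι G μ (fun _ => 0) x k 1 M D ⟨h0, h1.le⟩ hk le_rfl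
    (fun _ => ⟨le_rfl, by norm_num⟩) hlaw (by simpa using hM)
  have e0 : ∀ ψ : AddChar G ℂ, (fun i => ee (0 * ((0 : ℤ) : ℝ)) * ψ (x i)) = fun i => ψ (x i) :=
    fun ψ => funext fun i => by simp [ee]
  let Bad : ℕ → Finset (AddChar G ℂ) := fun i =>
    univ.filter fun χ => 1 - d i ≤ ‖ex μ fun s => χ (x s)‖
  have mB : ∀ i χ, χ ∈ Bad i ↔ 1 - d i ≤ ‖ex μ fun s => χ (x s)‖ := fun i χ => by simp [Bad]
  have sub : ∀ i j, i ≤ j → Bad j ⊆ Bad i := fun i j h χ hχ =>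
    (mB i χ).2 (le_trans (by linarith [hd h]) ((mB j χ).1 hχ))
  have kp : (0 : ℝ) < k := by exact_mod_cast hk
  have c0 : (Bad 0).card ≤ M := b1 (Bad 0) (fun _ => 0) fun ψ hψ => by
    rw [e0]
    refine le_trans ?_ ((mB 0 ψ).1 hψ)
    have : 1 / (4 * k * (M + 1) ^ 2 : ℝ) ≤ 1 / (4 * k : ℝ) :=
      one_div_le_one_div_of_le (by positivity) (le_mul_of_one_le_right (by positivity)
        (one_le_pow₀ (by linarith [Nat.cast_nonneg (α := ℝ) M])))
    linarith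
  have ord : ∀ χ ∈ Bad 0, ∃ j : ℕ, 1 ≤ j ∧ j ≤ M ∧ ∀ g, χ g ^ j = 1 := fun χ hχ =>
    b2 χ 0 (by rw [e0]; exact le_trans (by linarith) ((mB 0 χ).1 hχ))
  obtain ⟨i, hi, hc⟩ := chain (fun i => (Bad i).card) M c0
  have eq : Bad (i + 1) = Bad i := eq_of_subset_of_card_le (sub _ _ (Nat.le_succ i)) hc
  have cM : (Bad i).card ≤ M := (card_le_card (sub 0 i (Nat.zero_le i))).trans c0
  have mi : ∀ χ : AddChar G ℂ, ∃ c : ℂ, χ ∈ Bad i →
      ∑ s, μ s * ind (χ (x s) ≠ c) ≤ d (i + 1) * M ^ 2 / 2 := fun χ => by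
    by_cases hχ : χ ∈ Bad i
    · obtain ⟨j, j1, j2, j3⟩ := ord χ (sub 0 i (Nat.zero_le i) hχ)
      obtain ⟨c, hc⟩ := minor hP μ (fun s => χ (x s)) (d (i + 1)) j M h0 h1
        (fun s => χ.norm_apply _) j1 j2 (fun s => j3 _) ((mB _ χ).1 (eq ▸ hχ))
      exact ⟨c, fun _ => hc⟩
    · exact ⟨0, fun h => absurd h hχ⟩
  choose cc hcc using mi
  refine ⟨i, Bad i, cc, univ.filter fun s => ∀ χ ∈ Bad i, χ (x s) = cc χ ∧ χ (x (σ s)) = cc χ, hi,
    card_pos.2 ⟨0, (mB i 0).2 ?_⟩, cM, fun χ hχ g => ?_, fun s => by simp, ?_,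
    fun χ hχ => (not_le.1 fun h => hχ ((mB i χ).2 h)).le⟩
  · have : (ex μ fun s => (0 : AddChar G ℂ) (x s)) = 1 := by
      simp only [ex, AddChar.zero_apply, mul_one]
      exact_mod_cast h1
    rw [this, norm_one]
    linarith [hd0 i]
  · obtain ⟨j, j1, j2, j3⟩ := ord χ (sub 0 i (Nat.zero_le i) hχ)
    obtain ⟨q, hq⟩ := Nat.dvd_factorial j1 j2
    rw [hq, pow_mul, j3, one_pow]
  · have key : ∀ s, μ s ≤ (if ∀ χ ∈ Bad i, χ (x s) = cc χ ∧ χ (x (σ s)) = cc χ then μ s else 0) +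
        ∑ χ ∈ Bad i, (μ s * ind (χ (x s) ≠ cc χ) + μ (σ s) * ind (χ (x (σ s)) ≠ cc χ)) := fun s => by
      have p : ∀ χ ∈ Bad i,
          0 ≤ μ s * ind (χ (x s) ≠ cc χ) + μ (σ s) * ind (χ (x (σ s)) ≠ cc χ) := fun χ _ =>
        add_nonneg (mul_nonneg (h0 _) (ind_nonneg _)) (mul_nonneg (h0 _) (ind_nonneg _))
      split_ifs with e
      · linarith [sum_nonneg p]
      · simp only [not_forall] at e
        obtain ⟨χ, hχ, e⟩ := e
        rw [zero_add]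
        refine le_trans ?_ (single_le_sum p hχ)
        have q1 := mul_nonneg (h0 s) (ind_nonneg (χ (x s) ≠ cc χ))
        have q2 := mul_nonneg (h0 (σ s)) (ind_nonneg (χ (x (σ s)) ≠ cc χ))
        rcases not_and_or.1 e with e | e
        · have : ind (χ (x s) ≠ cc χ) = 1 := if_pos e
          rw [this]
          linarith
        · have : ind (χ (x (σ s)) ≠ cc χ) = 1 := if_pos e
          rw [this, hσ]
          linarith
    have s1 := sum_le_sum fun s (_ : s ∈ univ) => key s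
    rw [h1, sum_add_distrib, ← sum_filter, sum_comm] at s1
    have s2 : ∀ χ ∈ Bad i, ∑ s, (μ s * ind (χ (x s) ≠ cc χ) + μ (σ s) * ind (χ (x (σ s)) ≠ cc χ))
        ≤ d (i + 1) * M ^ 2 := fun χ hχ => by
      rw [sum_add_distrib, σ.sum_comp fun s => μ s * ind (χ (x s) ≠ cc χ)]
      linarith [hcc χ hχ]
    have s3 := sum_le_card_nsmul _ _ _ s2
    have s4 : ((Bad i).card : ℝ) * (d (i + 1) * M ^ 2) ≤ M * (d (i + 1) * M ^ 2) :=
      mul_le_mul_of_nonneg_right (by exact_mod_cast cM) (mul_nonneg (hd0 _).le (sq_nonneg _))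
    rw [nsmul_eq_mul] at s3
    linarith

end Pool.Agent.MP_f3836a_nt.VE.BC
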