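import Pool.Agent.MP_f3836a_nt.VE.SpecB

/-! Smoothing damps the high frequencies. -/

set_option autoImplicit false

namespace Pool.Agent.MP_f3836a_nt.VE.BC

open Finset

namespace BSm

theorem ee_add (x y : ℝ) : ee (x + y) = ee x * ee y := by
  rw [ee, ee, ee, ← Complex.exp_add]
  congr 1
  push_cast
  ring

theorem ee_eq (x : ℝ) : ee x = Complex.exp (Complex.I * (2 * Real.pi * x : ℝ)) := by
  rw [ee]
  congr 1
  push_cast
  ring

theorem norm_ee (x : ℝ) : ‖ee x‖ = 1 := by rw [ee_eq, Complex.norm_exp_I_mul_ofReal]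

theorem ee_nat (x : ℝ) (n : ℕ) : ee (x * n) = ee x ^ n := by
  rw [ee, ee, ← Complex.exp_nat_mul]
  congr 1
  push_cast
  ring

theorem geo {α : ℝ} (h : |α| ≤ 1 / 2) (h0 : α ≠ 0) (J : ℕ) :
    ‖∑ s : Fin J, ee (α * (s : ℕ))‖ ≤ 1 / (2 * |α|) := by
  have p := Real.pi_pos
  have a0 : 0 < |α| := abs_pos.2 h0
  have a1 : 4 * |α| ≤ ‖ee α - 1‖ := by
    have b := Real.mul_abs_le_abs_sin (x := Real.pi * α) (by
      rw [abs_mul, abs_of_pos p]; nlinarith)
    rw [abs_mul, abs_of_pos p, ← mul_assoc, div_mul_cancel₀ _ p.ne'] at b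
    rw [ee_eq, Complex.norm_exp_I_mul_ofReal_sub_one, Real.norm_eq_abs, abs_mul, abs_two,
      show 2 * Real.pi * α / 2 = Real.pi * α by ring]
    linarith
  have a2 : ‖∑ s : Fin J, ee (α * (s : ℕ))‖ * ‖ee α - 1‖ ≤ 2 := by
    simp only [ee_nat]
    rw [← norm_mul, Fin.sum_univ_eq_sum_range (fun s => ee α ^ s), geom_sum_mul]
    refine (norm_sub_le _ _).trans ?_
    rw [norm_pow, norm_ee, one_pow, norm_one, one_add_one_eq_two]
  rw [le_div_iff₀ (by positivity)]
  nlinarith [mul_le_mul_of_nonneg_left a1 (norm_nonneg (∑ s : Fin J, ee (α * (s : ℕ))))]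

end BSm

open BSm in
theorem rSm : SmS := by
  intro ι _ μ u J f α hμ hJ
  have J0 : (0 : ℝ) < J := by exact_mod_cast hJ
  have J1 : (J : ℂ) ≠ 0 := by exact_mod_cast J0.ne'
  have e1 : ∑ p, sm μ J p = ∑ i, μ i := by
    simp only [Fintype.sum_prod_type, sm, sum_const, card_univ, Fintype.card_fin, nsmul_eq_mul,
      mul_div_cancel₀ _ J0.ne']
  refine ⟨⟨fun p => div_nonneg (hμ.1 _) J0.le, e1 ▸ hμ.2⟩, e1, ?_, fun hf h h0 => ?_⟩
  · simp only [ex, Fintype.sum_prod_type, sm, sum_const, card_univ, Fintype.card_fin, nsmul_eq_mul]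
    refine sum_congr rfl fun i _ => ?_
    push_cast
    field_simp
  · have e2 : (ex (sm μ J) fun p => ee (α * su u J p) * f p.1) =
        (∑ i, (μ i : ℂ) * (ee (α * u i) * f i)) * (∑ s : Fin J, ee (α * (s : ℕ))) / J := by
      simp only [ex, Fintype.sum_prod_type, sm, su, sum_mul_sum, sum_div]
      refine sum_congr rfl fun i _ => sum_congr rfl fun s _ => ?_
      push_cast
      rw [mul_add, ee_add]
      ring
    have e3 : ‖∑ i, (μ i : ℂ) * (ee (α * u i) * f i)‖ ≤ 1 := by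
      refine (norm_sum_le _ _).trans ((sum_le_sum fun i _ => ?_).trans hμ.2)
      rw [norm_mul, norm_mul, norm_ee, one_mul, Complex.norm_real, Real.norm_of_nonneg (hμ.1 i)]
      exact mul_le_of_le_one_right (hμ.1 i) (hf i)
    rw [e2, norm_div, norm_mul, Complex.norm_natCast, mul_right_comm, ← div_div]
    exact div_le_div_of_nonneg_right
      ((mul_le_of_le_one_left (norm_nonneg _) e3).trans (geo h h0 J)) J0.le

end Pool.Agent.MP_f3836a_nt.VE.BC
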