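import Pool.Agent.MP_f3836a_nt.VE.SpecC

/-! Row CChe: the upper bound for the sum of `log l / l`. -/

set_option autoImplicit false

namespace Pool.Agent.MP_f3836a_nt.VE.BC

open Finset

theorem CChe.nat {N : ℕ} (hN : 1 ≤ N) :
    ∑ l ∈ (range (N + 1)).filter Nat.Prime, Real.log l / l ≤ 2 * Real.log N := by
  have h0 : (0 : ℝ) < N := Nat.cast_pos.2 hN
  have h1 : ∀ n ∈ Ioc 0 N, ∑ l ∈ (range (N + 1)).filter Nat.Prime,
      (if l ∣ n then Real.log l else 0) ≤ Real.log N := fun n hn => by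
    obtain ⟨a, b⟩ := mem_Ioc.1 hn
    have c : ∀ l ∈ n.primeFactors, (l : ℝ) ≠ 0 := fun l hl =>
      Nat.cast_ne_zero.2 (Nat.pos_of_mem_primeFactors hl).ne'
    rw [← sum_filter]
    refine (sum_le_sum_of_subset_of_nonneg (t := n.primeFactors) (fun l hl => ?_)
      fun _ _ _ => Real.log_natCast_nonneg _).trans ?_
    · simp only [mem_filter] at hl
      exact Nat.mem_primeFactors.2 ⟨hl.1.2, hl.2, a.ne'⟩
    · rw [← Real.log_prod c, ← Nat.cast_prod]
      exact Real.log_le_log (Nat.cast_pos.2 (prod_pos fun l => Nat.pos_of_mem_primeFactors))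
        (Nat.cast_le.2 ((Nat.le_of_dvd a (Nat.prod_primeFactors_dvd n)).trans b))
  have h2 := sum_le_card_nsmul _ _ _ h1
  rw [sum_comm, Nat.card_Ioc, Nat.sub_zero, nsmul_eq_mul] at h2
  refine le_of_mul_le_mul_left ?_ h0
  rw [mul_left_comm, mul_sum]
  refine le_trans ?_ (mul_le_mul_of_nonneg_left h2 zero_le_two)
  rw [mul_sum]
  refine sum_le_sum fun l hl => ?_
  obtain ⟨a, b⟩ := mem_filter.1 hl
  have c := Nat.div_pos (Nat.lt_succ_iff.1 (mem_range.1 a)) b.pos
  have d : (N : ℝ) ≤ (2 * (N / l) * l : ℕ) :=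
    Nat.cast_le.2 (by nlinarith [Nat.div_add_mod N l, Nat.mod_lt N b.pos])
  rw [← sum_filter, sum_const, Nat.Ioc_filter_dvd_card_eq_div, nsmul_eq_mul, ← mul_div_assoc,
    div_le_iff₀ (Nat.cast_pos.2 b.pos)]
  push_cast at d
  nlinarith [Real.log_natCast_nonneg l]

theorem rChe : CheS := ⟨2, one_le_two, fun x hx => (CChe.nat (Nat.floor_pos.2 hx)).trans (by
  have := Nat.floor_pos.2 hx
  gcongr
  exact Nat.floor_le (by linarith))⟩

end Pool.Agent.MP_f3836a_nt.VE.BC
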