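import Pool.Agent.MP_f3836a_nt.VE.SpecC

/-! A sum over prime powers. -/

set_option autoImplicit false

namespace Pool.Agent.MP_f3836a_nt.VE.BC

open Finset

namespace CHta

theorem big {l j Z : ℕ} (hl : 2 ≤ l) (hj : 3 ≤ j) (h : l ^ j ≤ Z) :
    2 * (l : ℝ) ^ (j / 2) * (j * Real.log l) ≤
      16 * Z * (l : ℝ) ^ (-(3 / 2) : ℝ) * (j ^ 1 * (4 / 5 : ℝ) ^ j) := by
  have l2 : (2 : ℝ) ≤ l := by exact_mod_cast hl
  have l0 : (0 : ℝ) < l := by linarith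
  obtain ⟨k, hk⟩ : ∃ k, j = j / 2 + 2 + k := ⟨j - j / 2 - 2, by omega⟩
  have h1 : (l : ℝ) ^ (j / 2) * l ^ 2 * 2 ^ k ≤ Z := by
    refine le_trans ?_ (show (l : ℝ) ^ j ≤ Z by exact_mod_cast h)
    conv_rhs => rw [hk, pow_add, pow_add]
    gcongr
  have h2 : 1 ≤ 4 * 2 ^ k * (4 / 5 : ℝ) ^ j := by
    have h3 : (4 / 5 : ℝ) ^ (2 * (k + 2)) ≤ (4 / 5) ^ j :=
      pow_le_pow_of_le_one (by norm_num) (by norm_num) (by omega)
    refine le_trans ?_ (mul_le_mul_of_nonneg_left h3 (by positivity))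
    rw [pow_mul, show (4 : ℝ) * 2 ^ k = 2 ^ (k + 2) by ring, ← mul_pow]
    exact one_le_pow₀ (by norm_num)
  have h3 : Real.log l ≤ 2 * ((l : ℝ) ^ (-(3 / 2) : ℝ) * l ^ 2) := by
    rw [← Real.rpow_natCast, ← Real.rpow_add l0]
    refine (Real.log_le_rpow_div l0.le (show (0 : ℝ) < 1 / 2 by norm_num)).trans_eq ?_
    norm_num
    ring
  have h4 : (l : ℝ) ^ (j / 2) * l ^ 2 ≤ 4 * Z * (4 / 5 : ℝ) ^ j :=
    (le_mul_of_one_le_right (by positivity) h2).trans (by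
      have := mul_le_mul_of_nonneg_right h1 (show 0 ≤ 4 * (4 / 5 : ℝ) ^ j by positivity)
      linarith)
  calc _ ≤ 2 * (l : ℝ) ^ (j / 2) * (j * (2 * ((l : ℝ) ^ (-(3 / 2) : ℝ) * l ^ 2))) := by gcongr
    _ = 4 * j * (l : ℝ) ^ (-(3 / 2) : ℝ) * ((l : ℝ) ^ (j / 2) * l ^ 2) := by ring
    _ ≤ 4 * j * (l : ℝ) ^ (-(3 / 2) : ℝ) * (4 * Z * (4 / 5 : ℝ) ^ j) := by gcongr
    _ = _ := by ring

theorem inner {l Z : ℕ} (hl : 2 ≤ l) :
    ∑ j ∈ (Icc 1 Z).filter fun j => l ^ j ≤ Z, 2 * (l : ℝ) ^ (j / 2) * (j * Real.log l) ≤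
      2 * Real.log l + (if l ≤ ⌊√Z⌋₊ then 4 * √Z * Real.log l else 0) +
      16 * Z * (l : ℝ) ^ (-(3 / 2) : ℝ) * ∑' j : ℕ, j ^ 1 * (4 / 5 : ℝ) ^ j := by
  have l0 := Real.log_natCast_nonneg l
  have h0 : 0 ≤ if l ≤ ⌊√Z⌋₊ then 4 * √Z * Real.log l else 0 := by positivity
  refine le_trans (sum_le_sum (g := fun j : ℕ => (if j = 1 then 2 * Real.log l else 0) +
    (if j = 2 then (if l ≤ ⌊√Z⌋₊ then 4 * √Z * Real.log l else 0) else 0) +
    16 * Z * (l : ℝ) ^ (-(3 / 2) : ℝ) * (j ^ 1 * (4 / 5 : ℝ) ^ j)) fun j hj => ?_) ?_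
  · obtain ⟨h1, h2⟩ := mem_filter.1 hj
    have h3 := (mem_Icc.1 h1).1
    have h4 : 0 ≤ 16 * Z * (l : ℝ) ^ (-(3 / 2) : ℝ) * (j ^ 1 * (4 / 5 : ℝ) ^ j) := by positivity
    obtain rfl | rfl | h5 : j = 1 ∨ j = 2 ∨ 3 ≤ j := by omega
    · refine le_add_of_le_of_nonneg (by simp) h4
    · have h6 : (l : ℝ) ≤ √Z := Real.le_sqrt_of_sq_le (by exact_mod_cast h2)
      refine le_add_of_le_of_nonneg ?_ h4
      rw [if_neg (by norm_num), if_pos rfl, if_pos (Nat.le_floor h6)]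
      norm_num
      nlinarith
    · rw [if_neg (by omega), if_neg (by omega), zero_add, zero_add]
      exact big hl h5 h2
  · rw [sum_add_distrib, sum_add_distrib, sum_ite_eq', sum_ite_eq', ← mul_sum]
    gcongr
    · split_ifs <;> linarith
    · split_ifs <;> first | exact le_rfl | positivity
    · exact (summable_pow_mul_geometric_of_norm_lt_one 1 (by norm_num)).sum_le_tsum _
        fun _ _ => by positivity

theorem th (x : ℝ) (hx : 0 ≤ x) :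
    ∑ l ∈ (range (⌊x⌋₊ + 1)).filter Nat.Prime, Real.log l ≤ Real.log 4 * x := by
  rw [Nat.range_succ_eq_Icc_zero, ← Chebyshev.theta_eq_sum_Icc]
  exact Chebyshev.theta_le_log4_mul_x hx

end CHta

open CHta in
theorem rHta : HtaS := by
  have l4 : 0 ≤ Real.log 4 := Real.log_nonneg (by norm_num)
  have A0 : 0 ≤ ∑' j : ℕ, j ^ 1 * (4 / 5 : ℝ) ^ j := tsum_nonneg fun _ => by positivity
  have B0 : 0 ≤ ∑' l : ℕ, (l : ℝ) ^ (-(3 / 2) : ℝ) := tsum_nonneg fun _ => by positivity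
  refine ⟨6 * Real.log 4 + 16 * (∑' l : ℕ, (l : ℝ) ^ (-(3 / 2) : ℝ)) *
    ∑' j : ℕ, j ^ 1 * (4 / 5 : ℝ) ^ j, by positivity, fun Z => ?_⟩
  refine (sum_le_sum fun l hl => inner (mem_filter.1 hl).2.two_le).trans ?_
  have h1 := th Z Z.cast_nonneg
  rw [Nat.floor_natCast] at h1
  have h2 : ∑ l ∈ ((range (Z + 1)).filter Nat.Prime).filter (· ≤ ⌊√Z⌋₊), Real.log l ≤
      Real.log 4 * √Z := le_trans (sum_le_sum_of_subset_of_nonneg (fun l hl => by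
        simp only [mem_filter, mem_range] at hl ⊢
        exact ⟨by omega, hl.1.2⟩) fun l _ _ => Real.log_natCast_nonneg l) (th _ (Real.sqrt_nonneg _))
  have h3 := (Real.summable_nat_rpow.2 (show (-(3 / 2) : ℝ) < -1 by norm_num)).sum_le_tsum
    ((range (Z + 1)).filter Nat.Prime) fun _ _ => by positivity
  have h4 := mul_le_mul_of_nonneg_left h2 (show 0 ≤ 4 * √Z by positivity)
  have h5 := Real.mul_self_sqrt (Nat.cast_nonneg (α := ℝ) Z)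
  have h6 := mul_le_mul_of_nonneg_left h3
    (show 0 ≤ 16 * Z * ∑' j : ℕ, j ^ 1 * (4 / 5 : ℝ) ^ j by positivity)
  rw [sum_add_distrib, sum_add_distrib, ← sum_filter, ← mul_sum, ← mul_sum, ← sum_mul, ← mul_sum]
  have h7 : 4 * √Z * (Real.log 4 * √Z) = 4 * Real.log 4 * Z := by linear_combination 4 * Real.log 4 * h5
  nlinarith

end Pool.Agent.MP_f3836a_nt.VE.BC
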