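import Pool.Agent.MP_f3836a_nt.VE.SpecC

set_option autoImplicit false

namespace Pool.Agent.MP_f3836a_nt.VE.BC

open Finset

theorem rHtb : HtbS := by
  intro r Ef X h0 h1 hm hE
  set P := (range (X + 1)).filter Nat.Prime with hP
  have sub : ∀ (e : ℕ → ℕ) (s : Finset ℕ), (∀ l ∈ s, l.Prime) →
      r (∏ l ∈ s, l ^ e l) ≤ ∏ l ∈ s, r (l ^ e l) := by
    intro e s
    induction s using Finset.induction_on with
    | empty => simp [h1]
    | insert a s ha ih =>
      intro hs
      rw [prod_insert ha, prod_insert ha]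
      refine (hm _ _ (Nat.Coprime.prod_right fun l hl => Nat.coprime_pow_primes _ _
        (hs a (mem_insert_self _ _)) (hs l (mem_insert_of_mem hl)) fun e => ha (e ▸ hl))).trans ?_
      exact mul_le_mul_of_nonneg_left (ih fun l hl => hs l (mem_insert_of_mem hl)) (h0 _)
  have hn : ∀ n ∈ Icc 1 X, ∏ l ∈ P, l ^ n.factorization l = n := fun n hn => by
    obtain ⟨a, b⟩ := mem_Icc.1 hn
    conv_rhs => rw [← Nat.prod_factorization_pow_eq_self (n := n) (by omega)]
    refine (Finsupp.prod_of_support_subset _ (fun l hl => ?_) _ fun _ _ => pow_zero _).symm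
    have := Nat.le_of_mem_primeFactors hl
    exact mem_filter.2 ⟨mem_range.2 (by omega), Nat.prime_of_mem_primeFactors hl⟩
  have g0 : ∀ l j : ℕ, 0 ≤ r (l ^ j) / (l : ℝ) ^ j := fun l j => div_nonneg (h0 _) (by positivity)
  calc _ ≤ ∑ n ∈ Icc 1 X, ∏ l : P, r (l ^ n.factorization l) / (l : ℝ) ^ n.factorization l := by
        refine sum_le_sum fun n h => ?_
        rw [prod_coe_sort P fun l => r (l ^ n.factorization l) / (l : ℝ) ^ n.factorization l,
          prod_div_distrib]
        have e : ∏ l ∈ P, (l : ℝ) ^ n.factorization l = n := by exact_mod_cast hn n h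
        have := sub n.factorization P fun l hl => (mem_filter.1 hl).2
        rw [hn n h] at this
        rw [e]
        gcongr
    _ ≤ ∑ e ∈ Fintype.piFinset fun _ : P => range (X + 1), ∏ l : P, r (l ^ e l) / (l : ℝ) ^ e l := by
        refine (sum_image (g := fun (n : ℕ) (l : P) => n.factorization l)
          (f := fun e => ∏ l : P, r (l ^ e l) / (l : ℝ) ^ e l) fun n h n' h' e => ?_).ge.trans
          (sum_le_sum_of_subset_of_nonneg
            (image_subset_iff.2 fun n h => Fintype.mem_piFinset.2 fun l => ?_)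
            fun _ _ _ => prod_nonneg fun _ _ => g0 _ _)
        · rw [← hn n h, ← hn n' h']
          exact prod_congr rfl fun l hl => congrArg (l ^ ·) (congrFun e ⟨l, hl⟩)
        · obtain ⟨a, b⟩ := mem_Icc.1 h
          have := Nat.factorization_lt (n := n) l (by omega)
          exact mem_range.2 (by omega)
    _ = ∏ l ∈ P, ∑ j ∈ range (X + 1), r (l ^ j) / (l : ℝ) ^ j := by
        rw [← prod_coe_sort P, prod_univ_sum]
    _ ≤ _ := prod_le_prod (fun l _ => sum_nonneg fun _ _ => g0 _ _) fun l hl =>
        hE l _ (mem_filter.1 hl).2 (Nat.lt_succ_iff.1 (mem_range.1 (mem_filter.1 hl).1))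

end Pool.Agent.MP_f3836a_nt.VE.BC
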