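import Pool.Agent.MP_f3836a_nt.VE.SpecC

/-! Removing a few steps changes the law of a long sum little. -/

set_option autoImplicit false

namespace Pool.Agent.MP_f3836a_nt.VE.BC

open Finset

namespace CMg

/-- one step -/
noncomputable def T {κ : Type} (w : κ → ℝ) (X : κ → ℤ) (R : Finset κ) (f : ℤ → ℝ) (v : ℤ) : ℝ :=
  ∑ p ∈ R, w p * f (v - X p)

variable {κ : Type} {w : κ → ℝ} {X : κ → ℤ} {R R' : Finset κ} {f g : ℤ → ℝ}

theorem mono (h : ∀ p ∈ R, 0 ≤ w p) (hf : ∀ v, f v ≤ g v) (v : ℤ) : T w X R f v ≤ T w X R g v :=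
  sum_le_sum fun p hp => mul_le_mul_of_nonneg_left (hf _) (h p hp)

theorem nn (h : ∀ p ∈ R, 0 ≤ w p) (hf : ∀ v, 0 ≤ f v) (v : ℤ) : 0 ≤ T w X R f v :=
  sum_nonneg fun p hp => mul_nonneg (h p hp) (hf _)

theorem comm (v : ℤ) : T w X R (T w X R' f) v = T w X R' (T w X R f) v := by
  simp only [T, mul_sum]
  rw [sum_comm]
  refine sum_congr rfl fun p _ => sum_congr rfl fun q _ => ?_
  rw [sub_right_comm, mul_left_comm]

theorem lin (c : ℝ) (v : ℤ) :
    T w X R (fun y => f y + c * g y) v = T w X R f v + c * T w X R g v := by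
  simp only [T, mul_sum, ← sum_add_distrib]
  exact sum_congr rfl fun p _ => by ring

theorem bd {D t : ℝ} (h : ∀ p ∈ R, 0 ≤ w p) (ht : ∑ p ∈ R, w p ≤ t) (hD : 0 ≤ D)
    (hf : ∀ v, f v ≤ D) (v : ℤ) : T w X R f v ≤ t * D :=
  (mono (g := fun _ => D) h hf v).trans <| by
    rw [T, ← sum_mul]
    exact mul_le_mul_of_nonneg_right ht hD

theorem main [DecidableEq κ] (c c' : ℕ → ℤ → ℝ) (k j : ℕ) (D t : ℝ) (hR : R' ⊆ R)
    (h : ∀ p ∈ R, 0 ≤ w p) (h1 : ∑ p ∈ R, w p ≤ 1) (ht : ∑ p ∈ R \ R', w p ≤ t)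
    (h0 : c' 0 = c 0) (n0 : ∀ v, 0 ≤ c 0 v) (hc : ∀ j v, c (j + 1) v = T w X R (c j) v)
    (hc' : ∀ j v, c' (j + 1) v = T w X R' (c' j) v) (hD : ∀ v, c k v ≤ D) (hj : k ≤ j) (v : ℤ) :
    c' (j + 1) v ≤ c (j + 1) v ∧ c (j + 1) v ≤ c' (j + 1) v + (j + 1 : ℕ) * t * D := by
  have h' : ∀ p ∈ R', 0 ≤ w p := fun p hp => h p (hR hp)
  have h'' : ∀ p ∈ R \ R', 0 ≤ w p := fun p hp => h p (mem_sdiff.1 hp).1
  have sp : ∀ f v, T w X R f v = T w X (R \ R') f v + T w X R' f v := fun f v =>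
    (sum_sdiff hR).symm
  have n : ∀ j v, 0 ≤ c j v := fun j => by
    induction j with
    | zero => exact n0
    | succ j ih => exact fun v => hc j v ▸ nn h ih v
  have le : ∀ j v, c' j v ≤ c j v := fun j => by
    induction j with
    | zero => exact fun v => h0 ▸ le_rfl
    | succ j ih =>
      intro v
      rw [hc, hc', sp]
      linarith [mono (X := X) h' ih v, nn (X := X) h'' (n j) v]
  have up : ∀ j v, c (j + 1) v ≤ c' (j + 1) v + (j + 1 : ℕ) * T w X (R \ R') (c j) v := fun j => by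
    induction j with
    | zero =>
      intro v
      rw [hc, hc', sp, h0]
      simp [add_comm]
    | succ j ih =>
      intro v
      have e1 := mono (X := X) h' ih v
      have e2 : T w X R' (T w X (R \ R') (c j)) v ≤ T w X (R \ R') (c (j + 1)) v := by
        rw [show c (j + 1) = T w X R (c j) from funext (hc j), ← comm (R := R), sp]
        linarith [nn (X := X) h'' (nn (X := X) h'' (n j)) v]
      rw [lin, ← hc'] at e1
      rw [hc (j + 1), sp]
      have := mul_le_mul_of_nonneg_left e2 (Nat.cast_nonneg (j + 1))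
      push_cast at *
      linarith
  have D0 : 0 ≤ D := (n k 0).trans (hD 0)
  have sup : ∀ v, c j v ≤ D := by
    induction j, hj using Nat.le_induction with
    | base => exact hD
    | succ j _ ih => exact fun v => by simpa [hc] using bd h h1 D0 ih v
  refine ⟨le _ v, (up j v).trans ?_⟩
  rw [mul_assoc]
  gcongr
  exact bd h'' ht D0 sup v

end CMg

open CMg in
theorem rMg : OfMg := by
  intro hT _ ι _ S S' μ u J k j D t hS h0 h1 ht hJ hD hj v
  obtain ⟨j, rfl⟩ : ∃ i, j = i + 1 := ⟨j - 1, by omega⟩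
  have J0 : (J : ℝ) ≠ 0 := by positivity
  have rc : ∀ (R : Finset ι) j v, cv R μ u J (j + 1) v =
      T (sm μ J) (su u J) (R ×ˢ univ) (cv R μ u J j) v := fun R j v => by
    rw [cv_eq, ((hT _ _).2.2.2.2.2 ℤ _).1, T, sum_product, Fintype.sum_prod_type, ← sum_coe_sort R]
    simp only [cv_eq]
    rfl
  have ms : ∀ R : Finset ι, ∑ p ∈ R ×ˢ univ, sm μ J p = ∑ x ∈ R, μ x := fun R => by
    simp [sum_product, sm, mul_div_cancel₀, J0]
  refine main (w := sm μ J) (X := su u J) (R := S ×ˢ univ) (R' := S' ×ˢ univ) (cv S μ u J)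
    (cv S' μ u J) k j D t (product_subset_product_left hS)
    (fun p hp => div_nonneg (h0 _ (mem_product.1 hp).1) (Nat.cast_nonneg _)) (ms S ▸ h1) ?_ ?_ ?_
    (rc S) (rc S') hD (by omega) v
  · rw [show S ×ˢ (univ : Finset (Fin J)) \ S' ×ˢ univ = (S \ S') ×ˢ univ by ext; simp, ms]
    exact ht
  · funext v
    simp [cv]
  · intro v
    simp only [cv, univ_eq_empty, prod_empty, sum_empty, one_mul]
    positivity

end Pool.Agent.MP_f3836a_nt.VE.BC
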