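import Pool.Agent.MP_f3836a_nt.VE.SpecE1

/-! Row Mass: the masses of the coarse cells. -/

set_option autoImplicit false

namespace Pool.Agent.MP_f3836a_nt.VE

open Polynomial Finset

namespace EMass

variable {L U : ℝ} {p : ℕ}

theorem le_pos (hL : 0 < L) {U : ℕ} (hU : 0 < U) (hp : Real.exp L ≤ p) (n : ℕ) :
    n ≤ pos L (L / U) p ↔ Real.exp (L + n * (L / U)) ≤ p := by
  have h0 := (Real.exp_pos L).trans_le hp
  have h1 : 0 < L / U := by positivity
  rw [pos, Nat.le_floor_iff (div_nonneg (sub_nonneg.2 ((Real.le_log_iff_exp_le h0).2 hp)) h1.le),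
    le_div_iff₀ h1, ← Real.le_log_iff_exp_le h0, le_sub_iff_add_le']

theorem le_cell {U K : ℕ} (hU : 0 < U) (hK : 0 < K) (u d : ℕ) :
    d ≤ K * u / U ↔ ⌈(d * U / K : ℝ)⌉₊ ≤ u := by
  rw [Nat.le_div_iff_mul_le hU, Nat.ceil_le, div_le_iff₀ (Nat.cast_pos.2 hK), mul_comm K]
  norm_cast

end EMass

open EMass in
theorem rMass : OfMass := by
  intro hW f t0 A0 hc K' δ hK hδ
  obtain ⟨K, Y1, h⟩ := hW f t0 A0 hc
  have K0 : 0 ≤ K := (abs_nonneg _).trans (h Y1 Y1 le_rfl le_rfl)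
  refine ⟨max Y1 (Real.exp (K' * (1 + K) / δ + K + 1)), fun Y U hY hU => ?_⟩
  obtain ⟨y1, y2⟩ := max_le_iff.1 hY
  have y0 := (Real.exp_pos _).trans_le y2
  have y3 := (Real.le_log_iff_exp_le y0).2 y2
  have y4 : 0 ≤ K' * (1 + K) / δ := by positivity
  have y5 : Real.log Y ≤ U := (Real.log_le_self y0.le).trans hU
  obtain ⟨L, rfl⟩ : ∃ L, Y = Real.exp L := ⟨_, (Real.exp_log y0).symm⟩
  rw [Real.log_exp] at y3 y5
  have L0 : 0 < L := by linarith
  have U0 : (0 : ℝ) < U := L0.trans_le y5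
  have U1 : 0 < U := Nat.cast_pos.1 U0
  have e1 : Real.exp L ^ 2 = Real.exp (L + U * (L / U)) := by
    rw [mul_div_cancel₀ _ U0.ne', Real.exp_add, sq]
  have m1 : ∀ {a b : ℕ}, a ≤ b → Real.exp (L + a * (L / U)) ≤ Real.exp (L + b * (L / U)) :=
    fun k => by gcongr
  have m0 : ∀ a : ℕ, Real.exp L ≤ Real.exp (L + a * (L / U)) := fun a => by
    simpa using m1 a.zero_le
  have key : ∀ a b : ℕ, a ≤ b → |∑ z ∈ Pts f (Real.exp (L + a * (L / U)))
      (Real.exp (L + b * (L / U))), sg (Real.exp L) z - (b - a) / U| ≤ K / L := fun a b hab => by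
    have := h _ _ (y1.trans (m0 a)) (m1 hab)
    rw [Real.log_exp, Real.log_exp] at this
    rw [le_div_iff₀ L0, ← abs_of_pos L0, ← abs_mul, abs_of_pos L0, sub_mul, sum_mul]
    refine (congrArg abs (congrArg₂ _ (sum_congr rfl fun z _ => ?_) (by ring))).trans_le this
    rw [sg, n0, Real.log_exp]
    field_simp
  have p1 : ∀ z ∈ Pts f (Real.exp L) (Real.exp L ^ 2), pos L (L / U) z.p < U := fun z hz =>
    not_le.1 (mt (le_pos L0 U1 (mem_Pts.1 hz).2.1 U).1 (e1 ▸ not_le.2 (mem_Pts.1 hz).2.2))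
  refine ⟨fun z hz => ?_, ?_, ?_⟩
  · rw [cz, Real.log_exp, Nat.div_lt_iff_lt_mul U1]
    exact ⟨p1 z hz, Nat.mul_lt_mul_of_pos_left (p1 z hz) hK⟩
  · have := (abs_le.1 (key 0 U U1.le)).2
    rw [← e1, Nat.cast_zero, zero_mul, add_zero, sub_zero, div_self U0.ne'] at this
    linarith [(div_le_one L0).2 (by linarith : K ≤ L)]
  · refine (sum_le_card_nsmul _ _ ((1 + K) / L) fun d hd => ?_).trans ?_
    · have K1 : (0 : ℝ) < K' := Nat.cast_pos.2 hK
      have a1 : ⌈((d + 1 : ℕ) * U / K' : ℝ)⌉₊ ≤ U := (le_cell U1 hK _ _).1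
        (by rw [Nat.mul_div_cancel _ U1]; exact mem_range.1 hd)
      have a2 := key ⌈(d * U / K' : ℝ)⌉₊ ⌈((d + 1 : ℕ) * U / K' : ℝ)⌉₊
        (Nat.ceil_mono (by gcongr; omega))
      have a3 : ∀ n : ℕ, |(⌈(n * U / K' : ℝ)⌉₊ : ℝ) / U - (n / K' + 1 / 2 / U)| ≤ 1 / 2 / U :=
        fun n => by
          have b1 := Nat.le_ceil (n * U / K' : ℝ)
          have b2 := Nat.ceil_lt_add_one (by positivity : (0 : ℝ) ≤ n * U / K')
          rw [show (n / K' + 1 / 2 / U : ℝ) = (n * U / K' + 1 / 2) / U by field_simp, ← sub_div,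
            abs_div, abs_of_pos U0, div_le_div_iff_of_pos_right U0, abs_le]
          constructor <;> linarith
      have a4 : (Pts f (Real.exp L) (Real.exp L ^ 2)).filter (fun z => cz (Real.exp L) U K' z = d) =
          Pts f (Real.exp (L + ⌈(d * U / K' : ℝ)⌉₊ * (L / U)))
            (Real.exp (L + ⌈((d + 1 : ℕ) * U / K' : ℝ)⌉₊ * (L / U))) := by
        ext z
        rw [mem_filter, mem_Pts, mem_Pts, cz, Real.log_exp, eq_comm, le_antisymm_iff,
          ← Nat.lt_succ_iff (m := _ / _), ← not_le (a := d.succ), le_cell U1 hK, le_cell U1 hK]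
        refine ⟨fun ⟨⟨b1, b2, _⟩, b4, b5⟩ => ⟨b1, (le_pos L0 U1 b2 _).1 b4,
          not_le.1 (mt (le_pos L0 U1 b2 _).2 b5)⟩, fun ⟨b1, b2, b3⟩ => ?_⟩
        have b4 := (m0 _).trans b2
        exact ⟨⟨b1, b4, e1 ▸ b3.trans_le (m1 a1)⟩, (le_pos L0 U1 b4 _).2 b2,
          mt (le_pos L0 U1 b4 _).1 (not_le.2 b3)⟩
      have a5 := abs_le.1 (a3 d)
      have a6 := abs_le.1 (a3 (d + 1))
      have a7 := one_div_le_one_div_of_le L0 y5
      have a8 : (1 / 2 / U : ℝ) = 1 / U / 2 := by ring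
      rw [sub_div, abs_le] at a2
      rw [Nat.cast_succ d, add_div (d : ℝ)] at a6
      rw [Nat.cast_succ d] at a2 a4
      rw [a4, add_div, abs_le]
      constructor <;> linarith [a2.1, a2.2, a5.1, a5.2, a6.1, a6.2]
    · rw [card_range, nsmul_eq_mul, ← mul_div_assoc, div_le_iff₀ L0, mul_comm δ, ← div_le_iff₀ hδ]
      linarith

end Pool.Agent.MP_f3836a_nt.VE
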