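import Pool.Agent.MP_f3836a_nt.VE.SpecD

/-! Row DApi: the dictionary between the big curve and its values on a small curve. -/

set_option autoImplicit false

namespace Pool.Agent.MP_f3836a_nt.VE

open Polynomial Finset

namespace DApi

theorem hv_cast {R : Type} [CommRing R] (P : ℤ[X]) (d : ℕ) (a b : ℤ) (t : R) (hd : P.natDegree ≤ d)
    (ht : (a : R) = (b : R) * t) : ((hv P d a b : ℤ) : R) = (b : R) ^ d * aeval t P := by
  rw [aeval_eq_sum_range' (Nat.lt_succ_of_le hd), Finset.mul_sum]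
  unfold hv
  push_cast
  refine Finset.sum_congr rfl fun i hi => ?_
  have hi' : i ≤ d := Nat.lt_succ_iff.mp (Finset.mem_range.mp hi)
  obtain ⟨j, rfl⟩ := Nat.exists_eq_add_of_le hi'
  rw [ht, Nat.add_sub_cancel_left, zsmul_eq_mul]
  ring

theorem aeval_int {R : Type} [CommRing R] (P : ℤ[X]) (t : ℤ) :
    aeval (t : R) P = ((P.eval t : ℤ) : R) := by
  have := aeval_algebraMap_apply_eq_algebraMap_eval (A := R) t P
  simpa using this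

theorem mon (Γ : Gf) (h : Γ.Ok) (x : Ix Γ.m → ℤ) : Mon Γ.m (Γ.gA x) (Γ.gB x) := by
  obtain ⟨hm, hd, hb⟩ := h.mon
  have h5 := h.five
  have hlt : (∑ i : Fin Γ.m, monomial (i : ℕ) ((Γ.W' : ℤ) * x (Sum.inl i))).degree < Γ.As.degree := by
    rw [degree_eq_natDegree hm.ne_zero, hd]
    refine lt_of_le_of_lt (degree_sum_le _ _) ?_
    rw [Finset.sup_lt_iff (WithBot.bot_lt_coe _)]
    intro i _
    exact lt_of_le_of_lt (degree_monomial_le _ _) (by exact_mod_cast i.2)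
  refine ⟨hm.add_of_left hlt, ?_, ?_⟩
  · unfold Gf.gA
    rw [natDegree_add_eq_left_of_degree_lt hlt, hd]
  · have : (Γ.gB x).natDegree ≤ Γ.m - 2 := by
      unfold Gf.gB
      refine natDegree_add_le_of_degree_le (by omega) ?_
      refine natDegree_sum_le_of_forall_le _ _ fun i _ => ?_
      have := i.2
      exact (natDegree_monomial_le _).trans (by omega)
    omega

theorem ng_deg (f A B : ℤ[X]) (m : ℕ) (hf : f.natDegree = 3) (h : Mon m A B) :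
    (Ng f A B).natDegree ≤ 2 * m := by
  obtain ⟨-, hA, hB⟩ := h
  unfold Ng
  refine (natDegree_sub_le _ _).trans (max_le ?_ ?_)
  · exact natDegree_pow_le.trans (by omega)
  · refine natDegree_mul_le.trans ?_
    have : (B ^ 2).natDegree ≤ 2 * B.natDegree := natDegree_pow_le
    omega

theorem norm_bet (Γ : Gf) (c : Cu) (h : Γ.Ok) (hc : c.Ok Γ) (x : Ix Γ.m → ℤ) :
    (c.bet Γ x).norm = hv (Ng Γ.f (Γ.gA x) (Γ.gB x)) (2 * Γ.m) c.a (c.k ^ 2) := by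
  have hm := mon Γ h x
  have h5 := h.five
  have hk : (c.k : ℚ) ≠ 0 := by exact_mod_cast hc.kpos.ne'
  have ht : (c.a : ℚ) = ((c.k ^ 2 : ℤ) : ℚ) * ((c.a : ℚ) / (c.k : ℚ) ^ 2) := by
    push_cast
    field_simp
  have e1 := hv_cast (Γ.gA x) Γ.m c.a (c.k ^ 2) _ hm.2.1.le ht
  have e2 := hv_cast (Γ.gB x) (Γ.m - 2) c.a (c.k ^ 2) _ (by have := hm.2.2; omega) ht
  have e3 := hv_cast Γ.f 3 c.a (c.k ^ 2) _ h.deg.le ht
  have e4 := hv_cast _ (2 * Γ.m) c.a (c.k ^ 2) _ (ng_deg Γ.f _ _ Γ.m h.deg hm) ht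
  have e5 : ((c.A : ℤ) : ℚ) = -((hv Γ.f 3 c.a (c.k ^ 2) : ℤ) : ℚ) := by
    rw [hc.disc, Int.cast_neg]
  obtain ⟨n, hn⟩ : ∃ n, Γ.m = n + 2 := ⟨Γ.m - 2, by omega⟩
  have hq : (((c.bet Γ x).norm : ℤ) : ℚ) =
      ((hv (Ng Γ.f (Γ.gA x) (Γ.gB x)) (2 * Γ.m) c.a (c.k ^ 2) : ℤ) : ℚ) := by
    rw [e4, Zsqrtd.norm_def]
    simp only [Cu.bet, Int.cast_sub, Int.cast_mul, Int.cast_neg, e1, e2, e5, e3, Ng, map_sub, map_mul, map_pow]
    generalize aeval ((c.a : ℚ) / (c.k : ℚ) ^ 2) (Γ.gA x) = u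
    generalize aeval ((c.a : ℚ) / (c.k : ℚ) ^ 2) (Γ.gB x) = v
    rw [hn, Nat.add_sub_cancel]
    push_cast
    ring
  exact_mod_cast hq

theorem norm_gam (Γ : Gf) (c : Cu) (hc : c.Ok Γ) (x : Ix Γ.m → ℤ) :
    (c.gam Γ x).norm * (Γ.p0 : ℤ) ^ (2 * c.e) = (c.bet Γ x).norm * (Γ.p0 : ℤ) ^ c.e' := by
  have h1 := congrArg Zsqrtd.norm (hc.exact x)
  have h2 : ((Γ.p0 : ℤ√(-(c.A : ℤ))) ^ c.e).norm = (Γ.p0 : ℤ) ^ (2 * c.e) := by
    rw [← Nat.cast_pow, Zsqrtd.norm_natCast]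
    push_cast
    ring
  rw [Zsqrtd.norm_mul, Zsqrtd.norm_mul, hc.nrm, h2] at h1
  rw [h1, mul_comm]

theorem k_ne (Γ : Gf) (c : Cu) (hc : c.Ok Γ) (l : ℕ) (hl : l.Prime) (hW : ¬l ∣ Γ.W) :
    ((c.k : ℤ) : ZMod l) ≠ 0 := by
  intro h0
  exact hW (hc.rad l hl ((ZMod.intCast_zmod_eq_zero_iff_dvd _ _).mp h0))

theorem p0_ne (Γ : Gf) (h : Γ.Ok) (l : ℕ) (hW : ¬l ∣ Γ.W) : ((Γ.p0 : ℕ) : ZMod l) ≠ 0 := by
  intro h0
  have h1 : l ∣ Γ.p0 := (ZMod.natCast_eq_zero_iff _ _).mp h0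
  exact hW (h1.trans h.p0W.2)

theorem on_eq (c : Cu) (z : Pt) (ho : c.on z) :
    (c.a : ZMod z.p) = ((c.k ^ 2 : ℤ) : ZMod z.p) * (((z.t : ℕ) : ℤ) : ZMod z.p) := by
  have h1 := (ZMod.intCast_zmod_eq_zero_iff_dvd _ _).mpr ho
  rw [Int.cast_sub, Int.cast_mul, sub_eq_zero] at h1
  exact h1.symm

theorem root (Γ : Gf) (c : Cu) (h : Γ.Ok) (hc : c.Ok Γ) (z : Pt) (hz : Vp Γ z) (ho : c.on z) :
    ((c.k : ZMod z.p) ^ 3 * (z.y : ZMod z.p)) * ((c.k : ZMod z.p) ^ 3 * (z.y : ZMod z.p)) =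
      ((-(c.A : ℤ) : ℤ) : ZMod z.p) := by
  have e3 := hv_cast Γ.f 3 c.a (c.k ^ 2) _ h.deg.le (on_eq c z ho)
  have h1 := (ZMod.intCast_zmod_eq_zero_iff_dvd _ _).mpr hz.1.2.2.2.2.2
  rw [Int.cast_sub, sub_eq_zero] at h1
  rw [hc.disc, neg_neg, e3, aeval_int, ← h1]
  push_cast
  ring

theorem dict (Γ : Gf) (c : Cu) (h : Γ.Ok) (hc : c.Ok Γ) (x : Ix Γ.m → ℤ) (z : Pt) (hz : Vp Γ z)
    (ho : c.on z) : In c.A c.ss (c.gam Γ x) z ↔ Γ.zr x z := by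
  have hp := hz.1.1
  have : Fact z.p.Prime := ⟨hp⟩
  have hm := mon Γ h x
  have h5 := h.five
  have hk := k_ne Γ c hc z.p hp hz.2
  have hp0 := p0_ne Γ h z.p hz.2
  let φ : ℤ√(-(c.A : ℤ)) →+* ZMod z.p := Zsqrtd.lift ⟨_, root Γ c h hc z hz ho⟩
  have hφ : ∀ β : ℤ√(-(c.A : ℤ)), φ β =
      (β.re : ZMod z.p) + (β.im : ZMod z.p) * ((c.k : ZMod z.p) ^ 3 * (z.y : ZMod z.p)) := fun β => rfl
  have hϖ : φ c.ϖ ≠ 0 := by
    intro h0
    have h1 := congrArg φ (Zsqrtd.norm_eq_mul_conj c.ϖ)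
    rw [map_mul, h0, zero_mul, map_intCast, hc.nrm] at h1
    push_cast at h1
    exact pow_ne_zero _ hp0 h1
  have e1 := hv_cast (Γ.gA x) Γ.m c.a (c.k ^ 2) _ hm.2.1.le (on_eq c z ho)
  have e2 := hv_cast (Γ.gB x) (Γ.m - 2) c.a (c.k ^ 2) _ (by have := hm.2.2; omega) (on_eq c z ho)
  rw [aeval_int] at e1 e2
  obtain ⟨n, hn⟩ : ∃ n, Γ.m = n + 2 := ⟨Γ.m - 2, by omega⟩
  have hb : φ (c.bet Γ x) = ((c.k : ZMod z.p) ^ 2) ^ Γ.m *
      (((Γ.gA x).eval (z.t : ℤ) + (Γ.gB x).eval (z.t : ℤ) * z.y : ℤ) : ZMod z.p) := by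
    rw [hφ]
    simp only [Cu.bet, Int.cast_mul, e1, e2, Int.cast_add]
    generalize (((Γ.gA x).eval (z.t : ℤ) : ℤ) : ZMod z.p) = u
    generalize (((Γ.gB x).eval (z.t : ℤ) : ℤ) : ZMod z.p) = v
    rw [hn, Nat.add_sub_cancel]
    push_cast
    ring
  have hg : φ (c.gam Γ x) = (((c.gam Γ x).re - c.ss z * (c.gam Γ x).im : ℤ) : ZMod z.p) := by
    rw [hφ]
    unfold Cu.ss
    push_cast
    ring
  have he := congrArg φ (hc.exact x)
  rw [map_mul, map_mul, map_pow, map_natCast, hb, hg] at he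
  unfold In Gf.zr Zr
  rw [← ZMod.intCast_zmod_eq_zero_iff_dvd, ← ZMod.intCast_zmod_eq_zero_iff_dvd]
  constructor
  · intro h0
    rw [h0, mul_zero] at he
    rcases mul_eq_zero.mp he with h1 | h1
    · exact (mul_eq_zero.mp h1).resolve_left (pow_ne_zero _ (pow_ne_zero _ hk))
    · exact absurd h1 hϖ
  · intro h0
    rw [h0, mul_zero, zero_mul] at he
    exact (mul_eq_zero.mp he.symm).resolve_left (pow_ne_zero _ hp0)

theorem split (Γ : Gf) (c : Cu) (h : Γ.Ok) (hc : c.Ok Γ) (z : Pt) (hz : Vp Γ z) (ho : c.on z) :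
    (z.p : ℤ) ∣ c.ss z ^ 2 + c.A ∧ ¬z.p ∣ 2 * c.A := by
  have hp := hz.1.1
  have : Fact z.p.Prime := ⟨hp⟩
  have hk := k_ne Γ c hc z.p hp hz.2
  have hr := root Γ c h hc z hz ho
  push_cast at hr
  constructor
  · rw [← ZMod.intCast_zmod_eq_zero_iff_dvd]
    unfold Cu.ss
    push_cast
    linear_combination hr
  · intro hd
    rcases (Nat.Prime.dvd_mul hp).mp hd with h2 | hA
    · exact hz.1.2.1 ((Nat.prime_dvd_prime_iff_eq hp Nat.prime_two).mp h2)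
    · have hy : (z.y : ZMod z.p) ≠ 0 := by
        intro h0
        exact absurd (Nat.le_of_dvd hz.1.2.2.2.1 ((ZMod.natCast_eq_zero_iff _ _).mp h0))
          (not_le.mpr hz.1.2.2.2.2.1)
      rw [(ZMod.natCast_eq_zero_iff _ _).mpr hA, neg_zero] at hr
      exact mul_ne_zero (pow_ne_zero 3 hk) hy (mul_self_eq_zero.mp hr)

theorem dvd_norm (Γ : Gf) (c : Cu) (h : Γ.Ok) (hc : c.Ok Γ) (x : Ix Γ.m → ℤ) (l : ℕ) (hl : l.Prime)
    (hW : ¬l ∣ Γ.W) (t : ZMod l) (ht : (c.a : ZMod l) = ((c.k ^ 2 : ℤ) : ZMod l) * t) :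
    (l : ℤ) ∣ (c.gam Γ x).norm ↔ aeval t (Ng Γ.f (Γ.gA x) (Γ.gB x)) = 0 := by
  have : Fact l.Prime := ⟨hl⟩
  have hk := k_ne Γ c hc l hl hW
  have hp0 := p0_ne Γ h l hW
  have e4 := hv_cast _ (2 * Γ.m) c.a (c.k ^ 2) t (ng_deg Γ.f _ _ Γ.m h.deg (mon Γ h x)) ht
  have e := congrArg (Int.cast : ℤ → ZMod l) (norm_gam Γ c hc x)
  rw [norm_bet Γ c h hc x, Int.cast_mul, Int.cast_mul, e4] at e
  push_cast at e
  rw [← ZMod.intCast_zmod_eq_zero_iff_dvd]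
  constructor
  · intro h0
    rw [h0, zero_mul] at e
    rcases mul_eq_zero.mp e.symm with h1 | h1
    · exact (mul_eq_zero.mp h1).resolve_left (pow_ne_zero _ (pow_ne_zero _ hk))
    · exact absurd h1 (pow_ne_zero _ hp0)
  · intro h0
    rw [h0, mul_zero, zero_mul] at e
    exact (mul_eq_zero.mp e).resolve_right (pow_ne_zero _ hp0)

end DApi

theorem rApi : ApiS := by
  intro Γ c h hc x
  refine ⟨DApi.mon Γ h x, DApi.norm_bet Γ c h hc x, DApi.norm_gam Γ c hc x, DApi.dict Γ c h hc x,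
    DApi.split Γ c h hc, fun y hy => ?_, fun c' l hc' hl hW hr => ?_⟩
  · unfold Cu.gam
    rw [hy]
  · have : Fact l.Prime := ⟨hl⟩
    have hk := DApi.k_ne Γ c hc l hl hW
    have hk' := DApi.k_ne Γ c' hc' l hl hW
    have h1 := (ZMod.intCast_zmod_eq_zero_iff_dvd _ _).mpr hr
    unfold Cu.res at h1
    push_cast at h1
    have ht : (c.a : ZMod l) = ((c.k ^ 2 : ℤ) : ZMod l) * ((c.a : ZMod l) / (c.k : ZMod l) ^ 2) := by
      push_cast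
      field_simp
    have ht' : (c'.a : ZMod l) = ((c'.k ^ 2 : ℤ) : ZMod l) * ((c.a : ZMod l) / (c.k : ZMod l) ^ 2) := by
      push_cast
      field_simp
      linear_combination -h1
    rw [DApi.dvd_norm Γ c h hc x l hl hW _ ht, DApi.dvd_norm Γ c' h hc' x l hl hW _ ht']

end Pool.Agent.MP_f3836a_nt.VE
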