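import Pool.Agent.MP_f3836a_nt.VE.SpecD

/-! The degenerate classes are rare: a union bound. -/

set_option autoImplicit false

namespace Pool.Agent.MP_f3836a_nt.VE

open Finset

namespace DBad

lemma ind_nonneg (p : Prop) : 0 ≤ ind p := by
  unfold ind; split_ifs <;> norm_num

lemma ind_true {p : Prop} (h : p) : ind p = 1 := by
  unfold ind; rw [if_pos h]

lemma E_le2 (Γ : Gf) (P : (Ix Γ.m → ℤ) → Prop) (s : Finset Pt) (t : Finset ℕ)
    (P1 : Pt → (Ix Γ.m → ℤ) → Prop) (P2 : ℕ → (Ix Γ.m → ℤ) → Prop)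
    (h : ∀ x, P x → (∃ i ∈ s, P1 i x) ∨ ∃ i ∈ t, P2 i x) :
    Γ.E (fun x => ind (P x)) ≤
      ∑ i ∈ s, Γ.E (fun x => ind (P1 i x)) + ∑ i ∈ t, Γ.E (fun x => ind (P2 i x)) := by
  unfold Gf.E Eb
  rw [← sum_div, ← sum_div, ← add_div]
  refine div_le_div_of_nonneg_right ?_ (Nat.cast_nonneg _)
  rw [sum_comm (s := s), sum_comm (s := t), ← sum_add_distrib]
  refine sum_le_sum fun x _ => ?_
  have h1 : 0 ≤ ∑ i ∈ s, ind (P1 i x) := sum_nonneg fun i _ => ind_nonneg _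
  have h2 : 0 ≤ ∑ i ∈ t, ind (P2 i x) := sum_nonneg fun i _ => ind_nonneg _
  by_cases hP : P x
  · rw [ind_true hP]
    rcases h x hP with ⟨i, hi, hp⟩ | ⟨i, hi, hp⟩
    · have := single_le_sum (f := fun i => ind (P1 i x)) (fun i _ => ind_nonneg _) hi
      simp only [ind_true hp] at this
      linarith
    · have := single_le_sum (f := fun i => ind (P2 i x)) (fun i _ => ind_nonneg _) hi
      simp only [ind_true hp] at this
      linarith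
  · have : ind (P x) = 0 := by unfold ind; rw [if_neg hP]
    linarith

lemma res_le {B : ℝ} {c c' : Cu} {Γ : Gf} (h : Ht B c Γ) (h' : Ht B c' Γ) :
    ((c.res c').natAbs : ℝ) ≤ (2 * B) ^ 2 := by
  have e : ((c.res c').natAbs : ℝ) = |(c.a : ℝ) * (c'.k : ℝ) ^ 2 - (c'.a : ℝ) * (c.k : ℝ) ^ 2| := by
    rw [Nat.cast_natAbs, Int.cast_abs]; simp [Cu.res]
  have hB : 0 ≤ B := (abs_nonneg _).trans h.1
  have h1 : |(c.a : ℝ) * (c'.k : ℝ) ^ 2| ≤ B * B := by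
    rw [abs_mul, abs_of_nonneg (sq_nonneg (c'.k : ℝ))]
    exact mul_le_mul h.1 h'.2.1 (sq_nonneg _) hB
  have h2 : |(c'.a : ℝ) * (c.k : ℝ) ^ 2| ≤ B * B := by
    rw [abs_mul, abs_of_nonneg (sq_nonneg (c.k : ℝ))]
    exact mul_le_mul h'.1 h.2.1 (sq_nonneg _) hB
  rw [e]
  have := abs_sub ((c.a : ℝ) * (c'.k : ℝ) ^ 2) ((c'.a : ℝ) * (c.k : ℝ) ^ 2)
  nlinarith

lemma prod_le {α : Type} (l : List α) (r : α → ℕ) (M : ℝ) (hM : 1 ≤ M) (hl : l.length ≤ 2)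
    (h : ∀ b ∈ l, (r b : ℝ) ≤ M) : ((l.map r).prod : ℝ) ≤ M ^ 2 := by
  match l, hl, h with
  | [], _, _ =>
    simp only [List.map_nil, List.prod_nil, Nat.cast_one]
    exact one_le_pow₀ hM
  | [b], _, h =>
    have := h b (by simp)
    simp only [List.map_cons, List.map_nil, List.prod_cons, List.prod_nil, mul_one]
    nlinarith
  | [b, b'], _, h =>
    have h1 := h b (by simp)
    have h2 := h b' (by simp)
    simp only [List.map_cons, List.map_nil, List.prod_cons, List.prod_nil, mul_one, Nat.cast_mul]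
    rw [sq]
    exact mul_le_mul h1 h2 (Nat.cast_nonneg _) (by linarith)
  | _ :: _ :: _ :: _, hl, _ => simp at hl

lemma card_le (R : ℕ) (hR : R ≠ 0) (t : Finset ℕ) (ht : t ⊆ R.primeFactors)
    (h5 : ∀ q ∈ t, 5 ≤ q) (y : ℝ) (hy : 0 < y) (hRy : (R : ℝ) ≤ y ^ 4) :
    (t.card : ℝ) ≤ 4 * Real.log y := by
  have h1 : 5 ^ t.card ≤ R := by
    refine (pow_card_le_prod t (fun q => q) 5 h5).trans (Nat.le_of_dvd (Nat.pos_of_ne_zero hR) ?_)
    exact (prod_dvd_prod_of_subset _ _ _ ht).trans (Nat.prod_primeFactors_dvd R)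
  have h2 : Real.exp t.card ≤ y ^ 4 := by
    have h3 : Real.exp 1 ≤ 5 := by linarith [Real.exp_one_lt_d9]
    calc Real.exp t.card = Real.exp 1 ^ t.card := by rw [← Real.exp_nat_mul, mul_one]
      _ ≤ 5 ^ t.card := pow_le_pow_left₀ (Real.exp_pos 1).le h3 _
      _ ≤ R := by exact_mod_cast h1
      _ ≤ _ := hRy
  have h4 := (Real.le_log_iff_exp_le (by positivity)).2 h2
  rw [Real.log_pow] at h4
  exact_mod_cast h4

lemma numeric (E P L y Z m τ W V Pm H q0 ε n1 n2 : ℝ) (k : ℕ) (hP : 1 / Pm ≤ P) (hPm : 1 ≤ Pm)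
    (hy : 4 ≤ y) (hL1 : 1 ≤ L) (hLy : L ≤ y) (hZ : 0 ≤ Z) (hm : 0 ≤ m) (hτ : 0 ≤ τ)
    (hW : 1 ≤ W) (hV : 0 ≤ V) (hH : 0 < H) (hq : 0 < q0) (hε : 0 < ε) (hk : 5 ≤ k)
    (hn1 : n1 ≤ τ) (hn2 : n2 ≤ 4 * L)
    (hdeg : 100 * (τ + 1) * L * Z ≤ ε * q0)
    (hbdy : 1000 * m * (τ + 1) ^ 2 * Z * W * (V + 1) * Pm ^ 5 * y ^ (k + 12) ≤ ε * H)
    (hE : E ≤ n1 * (2 / q0 * P + 64 * m * (τ + 1) * Pm ^ 4 / H) +
      n2 * (2 / q0 * P + 64 * m * (τ + 1) * (Pm * y ^ 4) ^ 2 / H)) :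
    E * Z ≤ ε / 2 * P := by
  have hPm0 : 0 < Pm := by linarith
  have hP0 : 0 < P := lt_of_lt_of_le (by positivity) hP
  have hy0 : 0 < y := by linarith
  have hPP : 1 ≤ P * Pm := by rwa [div_le_iff₀ hPm0] at hP
  have a1 : τ * (2 / q0 * P) * Z ≤ ε / 50 * P := by
    have h1 : τ * Z * 100 ≤ ε * q0 := by
      have : τ * Z ≤ (τ + 1) * L * Z := by
        refine mul_le_mul_of_nonneg_right ?_ hZ
        nlinarith
      linarith
    have h2 : τ * Z * 100 / q0 ≤ ε := by rwa [div_le_iff₀ hq]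
    calc τ * (2 / q0 * P) * Z = (τ * Z * 100 / q0) / 50 * P := by ring
      _ ≤ ε / 50 * P := by gcongr
  have a2 : 4 * L * (2 / q0 * P) * Z ≤ 2 * ε / 25 * P := by
    have h1 : L * Z * 100 ≤ ε * q0 := by
      have : L * Z ≤ (τ + 1) * L * Z := by
        refine mul_le_mul_of_nonneg_right ?_ hZ
        nlinarith
      linarith
    have h2 : L * Z * 100 / q0 ≤ ε := by rwa [div_le_iff₀ hq]
    calc 4 * L * (2 / q0 * P) * Z = 2 * (L * Z * 100 / q0) / 25 * P := by ring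
      _ ≤ 2 * ε / 25 * P := by gcongr
  have hb : 1000 * m * (τ + 1) ^ 2 * Z * Pm ^ 5 * y ^ 17 / H ≤ ε := by
    rw [div_le_iff₀ hH]
    refine le_trans ?_ hbdy
    have h1 : y ^ 17 ≤ y ^ (k + 12) := pow_le_pow_right₀ (by linarith) (by omega)
    have h2 : 1 ≤ W * (V + 1) := by nlinarith
    calc 1000 * m * (τ + 1) ^ 2 * Z * Pm ^ 5 * y ^ 17
        = 1000 * m * (τ + 1) ^ 2 * Z * 1 * Pm ^ 5 * y ^ 17 := by ring
      _ ≤ 1000 * m * (τ + 1) ^ 2 * Z * (W * (V + 1)) * Pm ^ 5 * y ^ (k + 12) := by gcongr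
      _ = _ := by ring
  have a3 : τ * (64 * m * (τ + 1) * Pm ^ 4 / H) * Z ≤ ε / 8 * P := by
    have h1 : (1 : ℝ) ≤ y ^ 17 := one_le_pow₀ (by linarith)
    calc τ * (64 * m * (τ + 1) * Pm ^ 4 / H) * Z
        = (512 * m * (τ * (τ + 1)) * Z * Pm ^ 4 * 1 / H) / 8 * 1 := by ring
      _ ≤ (1000 * m * ((τ + 1) * (τ + 1)) * Z * Pm ^ 4 * y ^ 17 / H) / 8 * (P * Pm) := by
          gcongr <;> linarith
      _ = (1000 * m * (τ + 1) ^ 2 * Z * Pm ^ 5 * y ^ 17 / H) / 8 * P := by ring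
      _ ≤ ε / 8 * P := by gcongr
  have a4 : 4 * L * (64 * m * (τ + 1) * (Pm * y ^ 4) ^ 2 / H) * Z ≤ ε / 8 * P := by
    have h1 : 4 * L * y ^ 8 ≤ y ^ 17 := by
      have h2 : y ^ 10 ≤ y ^ 17 := pow_le_pow_right₀ (by linarith) (by omega)
      calc 4 * L * y ^ 8 ≤ y * y * y ^ 8 := by gcongr
        _ = y ^ 10 := by ring
        _ ≤ _ := h2
    have h3 : Pm ^ 2 ≤ Pm ^ 4 := pow_le_pow_right₀ hPm (by omega)
    calc 4 * L * (64 * m * (τ + 1) * (Pm * y ^ 4) ^ 2 / H) * Z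
        = (512 * m * (1 * (τ + 1)) * Z * Pm ^ 2 * (4 * L * y ^ 8) / H) / 8 * 1 := by ring
      _ ≤ (1000 * m * ((τ + 1) * (τ + 1)) * Z * Pm ^ 4 * y ^ 17 / H) / 8 * (P * Pm) := by
          gcongr <;> linarith
      _ = (1000 * m * (τ + 1) ^ 2 * Z * Pm ^ 5 * y ^ 17 / H) / 8 * P := by ring
      _ ≤ ε / 8 * P := by gcongr
  have b1 : n1 * (2 / q0 * P + 64 * m * (τ + 1) * Pm ^ 4 / H) ≤
      τ * (2 / q0 * P + 64 * m * (τ + 1) * Pm ^ 4 / H) :=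
    mul_le_mul_of_nonneg_right hn1 (by positivity)
  have b2 : n2 * (2 / q0 * P + 64 * m * (τ + 1) * (Pm * y ^ 4) ^ 2 / H) ≤
      4 * L * (2 / q0 * P + 64 * m * (τ + 1) * (Pm * y ^ 4) ^ 2 / H) :=
    mul_le_mul_of_nonneg_right hn2 (by positivity)
  have b3 := mul_le_mul_of_nonneg_right (hE.trans (add_le_add b1 b2)) hZ
  have b4 : 0 < ε * P := mul_pos hε hP0
  nlinarith

end DBad

open DBad in
theorem rBad : OfBad := by
  intro hB C Φ Γ B V Λ Λ0 Ym q0 Pm ε K Tm a l T hΓ hΦ hC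
  classical
  obtain ⟨hB2, hV, hΛ, hYm, hq0, hPm, hε, -, -⟩ := hΦ.num
  obtain ⟨had, hle, hoff⟩ := hC.ad a (List.mem_cons_self ..)
  have hVp : ∀ z ∈ T, Vp Γ z := fun z hz => (hC.pt z hz).1
  obtain ⟨p1, p2⟩ := hB Γ (Φ.cu a.1) T hΓ (hΦ.cu a.1).1 hC.nd hVp
  set R : ℕ := (l.map fun b => ((Φ.cu a.1).res (Φ.cu b.1)).natAbs).prod with hRdef
  have hR0 : R ≠ 0 := by
    rw [hRdef]
    refine List.prod_ne_zero fun h => ?_
    obtain ⟨b, hb, h0⟩ := List.mem_map.1 h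
    have hn := hC.nodup
    rw [List.map_cons, List.nodup_cons] at hn
    refine hΦ.res a.1 b.1 (fun e => hn.1 (e ▸ List.mem_map_of_mem hb)) (Int.natAbs_eq_zero.1 h0)
  have hRy : (R : ℝ) ≤ (2 * B) ^ 4 := by
    have hl : l.length ≤ 2 := by have := hC.len; simp at this; omega
    have := prod_le l (fun b => ((Φ.cu a.1).res (Φ.cu b.1)).natAbs) ((2 * B) ^ 2)
      (one_le_pow₀ (by linarith)) hl (fun b _ => res_le (hΦ.cu a.1).2 (hΦ.cu b.1).2)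
    calc (R : ℝ) ≤ ((2 * B) ^ 2) ^ 2 := this
      _ = _ := by ring
  set t : Finset ℕ := R.primeFactors.filter fun q => q0 ≤ q ∧ ¬q ∣ Γ.W ∧ ∀ z ∈ a.2.1, z.p ≠ q
    with htdef
  have hnT : 0 < nT T := by
    unfold nT
    refine Multiset.prod_pos fun p hp => ?_
    obtain ⟨z, hz, rfl⟩ := Multiset.mem_map.1 hp
    exact (hVp z hz).1.1.pos
  have hnT' : (0 : ℝ) < nT T := by exact_mod_cast hnT
  have hPT : 1 / Pm ≤ PT T := one_div_le_one_div_of_le hnT' hC.size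
  have hPT0 : 0 ≤ PT T := le_trans (by positivity) hPT
  have hH : (0 : ℝ) < Γ.H1 := by exact_mod_cast hΓ.side.1
  have hcard : (T.card : ℝ) ≤ Tm := by exact_mod_cast hC.card
  have hsize := hC.size
  have hE := E_le2 Γ (Φ.Bad Γ q0 a l T) a.2.1.toFinset t
    (fun z0 x => (∀ z ∈ T, Γ.zr x z) ∧ (z0.p : ℤ) ^ 2 ∣ ((Φ.cu a.1).gam Γ x).norm)
    (fun q x => (∀ z ∈ T, Γ.zr x z) ∧ (q : ℤ) ∣ ((Φ.cu a.1).gam Γ x).norm) (by
      rintro x ⟨h1, ⟨z, hz, h2⟩ | ⟨b, hb, q, hq, h2, h3, h4, h5, h6⟩⟩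
      · exact Or.inl ⟨z, Multiset.mem_toFinset.2 hz, h1, h2⟩
      · refine Or.inr ⟨q, mem_filter.2 ⟨Nat.mem_primeFactors.2 ⟨hq, ?_, hR0⟩, h2, h3, h5⟩, h1, h6⟩
        exact (Int.natCast_dvd.1 h4).trans (List.dvd_prod (List.mem_map_of_mem
          (f := fun b : C × Multiset Pt × ℕ => ((Φ.cu a.1).res (Φ.cu b.1)).natAbs) hb)))
  have s1 := sum_le_card_nsmul a.2.1.toFinset (fun z0 : Pt => Γ.E fun x =>
      ind ((∀ z ∈ T, Γ.zr x z) ∧ (z0.p : ℤ) ^ 2 ∣ ((Φ.cu a.1).gam Γ x).norm))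
    (2 / q0 * PT T + 64 * Γ.m * (Tm + 1) * Pm ^ 4 / Γ.H1) (fun z0 hz0 => by
      have hz := Multiset.mem_toFinset.1 hz0
      have hzT := Multiset.mem_of_le hle hz
      have h1 := (hC.pt z0 hzT).2
      refine (p2 z0 hzT (((hΦ.ad _ _ _ had).1 z0 hz).1)).trans ?_
      gcongr)
  have s2 := sum_le_card_nsmul t (fun q : ℕ => Γ.E fun x =>
      ind ((∀ z ∈ T, Γ.zr x z) ∧ (q : ℤ) ∣ ((Φ.cu a.1).gam Γ x).norm))
    (2 / q0 * PT T + 64 * Γ.m * (Tm + 1) * (Pm * (2 * B) ^ 4) ^ 2 / Γ.H1) (fun q hq => by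
      obtain ⟨h1, h2, h3, h4⟩ := mem_filter.1 hq
      have h5 : (q : ℝ) ≤ (2 * B) ^ 4 :=
        le_trans (by exact_mod_cast Nat.le_of_mem_primeFactors h1) hRy
      refine (p1 q (Nat.prime_of_mem_primeFactors h1) h3 fun z hz e =>
        (hoff z hz).resolve_left fun hz' => h4 z hz' e).trans ?_
      gcongr)
  rw [nsmul_eq_mul] at s1 s2
  have hlog : 1 ≤ Real.log (2 * B) := by
    rw [Real.le_log_iff_exp_le (by linarith)]
    linarith [Real.exp_one_lt_d9]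
  refine numeric _ (PT T) (Real.log (2 * B)) (2 * B) ((Ym * Λ) ^ 3) Γ.m Tm Γ.W V Pm Γ.H1 q0 ε
    a.2.1.toFinset.card t.card Γ.m hPT hPm (by linarith) hlog
    ((Real.log_le_sub_one_of_pos (by linarith)).trans (by linarith)) (by positivity)
    (Nat.cast_nonneg _) (Nat.cast_nonneg _) (by exact_mod_cast hΓ.pos.1) hV hH (by linarith) hε
    hΓ.five ?_ ?_ hΦ.deg hΦ.bdy (hE.trans (add_le_add s1 s2))
  · exact_mod_cast (Multiset.toFinset_card_le _).trans ((Multiset.card_le_card hle).trans hC.card)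
  · refine card_le R hR0 t (filter_subset _ _) (fun q hq => ?_) (2 * B) (by linarith) hRy
    have := (mem_filter.1 hq).2.1
    exact_mod_cast hq0.trans this

end Pool.Agent.MP_f3836a_nt.VE
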