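import Pool.Agent.MP_f3836a_nt.VE.SpecD

/-! Row D2: Lagrange shifts. -/

set_option autoImplicit false

namespace Pool.Agent.MP_f3836a_nt.VE

open Polynomial Finset

namespace DLag

theorem hv_add (P Q : ℤ[X]) (d : ℕ) (a b : ℤ) : hv (P + Q) d a b = hv P d a b + hv Q d a b := by
  simp only [hv, coeff_add, add_mul, sum_add_distrib]

theorem hv_C_mul (s : ℤ) (P : ℤ[X]) (d : ℕ) (a b : ℤ) : hv (C s * P) d a b = s * hv P d a b := by
  simp only [hv, coeff_C_mul, mul_sum, mul_assoc]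

theorem hv_X_mul (P : ℤ[X]) (d : ℕ) (a b : ℤ) : hv (X * P) (d + 1) a b = a * hv P d a b := by
  rw [hv, sum_range_succ', coeff_X_mul_zero, zero_mul, zero_mul, add_zero, hv, mul_sum]
  refine sum_congr rfl fun i _ => ?_
  rw [coeff_X_mul, Nat.add_sub_add_right]
  ring

theorem hv_succ {P : ℤ[X]} {d : ℕ} (h : P.natDegree ≤ d) (a b : ℤ) :
    hv P (d + 1) a b = b * hv P d a b := by
  rw [hv, sum_range_succ, coeff_eq_zero_of_natDegree_lt (Nat.lt_succ_of_le h), zero_mul, zero_mul,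
    add_zero, hv, mul_sum]
  refine sum_congr rfl fun i hi => ?_
  rw [show d + 1 - i = d - i + 1 by have := mem_range.1 hi; omega]
  ring

/-- a product of linear forms -/
theorem prod_lin (s : ℤ) {N : ℝ} (L : List (ℤ × ℤ))
    (hL : ∀ q ∈ L, |(q.1 : ℝ)| + |(q.2 : ℝ)| ≤ N) :
    ∃ P : ℤ[X], P.natDegree ≤ L.length ∧ (∀ i, |(P.coeff i : ℝ)| ≤ |(s : ℝ)| * N ^ L.length) ∧
      ∀ a b, hv P L.length a b = s * (L.map fun q => q.1 * a + q.2 * b).prod := by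
  induction L with
  | nil =>
    refine ⟨C s, by simp, fun i => ?_, fun a b => by simp [hv]⟩
    rw [coeff_C]
    split_ifs <;> simp
  | cons q L ih =>
    obtain ⟨P, h1, h2, h3⟩ := ih fun q' hq' => hL q' (List.mem_cons_of_mem _ hq')
    have hq := hL q List.mem_cons_self
    have h0 : 0 ≤ |(s : ℝ)| * N ^ L.length := (abs_nonneg _).trans (h2 0)
    have hX : ∀ i, |((X * P).coeff i : ℝ)| ≤ |(s : ℝ)| * N ^ L.length := fun i => by
      rcases i with _ | i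
      · simpa using h0
      · rw [coeff_X_mul]
        exact h2 i
    refine ⟨C q.1 * (X * P) + C q.2 * P, ?_, fun i => ?_, fun a b => ?_⟩
    · refine (natDegree_add_le _ _).trans (max_le ((natDegree_C_mul_le _ _).trans
        (natDegree_mul_le.trans ?_)) ((natDegree_C_mul_le _ _).trans (h1.trans (by simp))))
      rw [natDegree_X, List.length_cons]
      omega
    · rw [coeff_add, coeff_C_mul, coeff_C_mul, List.length_cons, pow_succ]
      push_cast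
      refine (abs_add_le _ _).trans ?_
      rw [abs_mul, abs_mul]
      have e1 := mul_le_mul_of_nonneg_left (hX i) (abs_nonneg (q.1 : ℝ))
      have e2 := mul_le_mul_of_nonneg_left (h2 i) (abs_nonneg (q.2 : ℝ))
      have e3 := mul_le_mul_of_nonneg_left hq h0
      linarith
    · rw [List.length_cons, hv_add, hv_C_mul, hv_C_mul, hv_X_mul, hv_succ h1, h3, List.map_cons,
        List.prod_cons]
      ring

theorem bezout {a b : ℤ} {B : ℝ} (h : IsCoprime a b) (hb : 0 < b) (ha : |(a : ℝ)| ≤ B)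
    (hbB : (b : ℝ) ≤ B) : ∃ u v : ℤ, u * a + v * b = 1 ∧ |(u : ℝ)| + |(v : ℝ)| ≤ 2 * B := by
  obtain ⟨u, v, huv⟩ := h
  have e : u % b * a + (v + u / b * a) * b = 1 := by
    have := Int.mul_ediv_add_emod u b
    linear_combination huv + a * this
  generalize v + u / b * a = v' at e
  have h0 : (0 : ℝ) ≤ (u % b : ℤ) := by exact_mod_cast Int.emod_nonneg u hb.ne'
  have h1 : ((u % b : ℤ) : ℝ) + 1 ≤ b := by exact_mod_cast Int.emod_lt_of_pos u hb
  refine ⟨u % b, v', e, ?_⟩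
  generalize u % b = u' at e h0 h1
  have hb' : (0 : ℝ) < b := by exact_mod_cast hb
  have e' : (v' : ℝ) * b = 1 - u' * a := by
    have : (u' : ℝ) * a + v' * b = 1 := by exact_mod_cast e
    linarith
  have h2 : |(v' : ℝ)| * b ≤ B * b := by
    rw [← abs_of_pos hb', ← abs_mul, e', abs_of_pos hb']
    refine (abs_sub _ _).trans ?_
    rw [abs_one, abs_mul, abs_of_nonneg h0]
    have := mul_le_mul_of_nonneg_left ha h0
    nlinarith
  have h3 := le_of_mul_le_mul_right h2 hb'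
  rw [abs_of_nonneg h0]
  linarith

/-- the interpolating form -/
theorem interp {Γ : Gf} {c : Cu} {l : List Cu} {B : ℝ} (hc : c.Ok Γ) (hH : Ht B c Γ)
    (hl : ∀ c' ∈ l, Ht B c' Γ) (s : ℤ) {d : ℕ} (hd : l.length ≤ d) :
    ∃ P : ℤ[X], P.natDegree ≤ d ∧ (∀ i, |(P.coeff i : ℝ)| ≤ |(s : ℝ)| * (2 * B) ^ d) ∧
      hv P d c.a (c.k ^ 2) = s * (l.map c.res).prod ∧ ∀ c' ∈ l, hv P d c'.a (c'.k ^ 2) = 0 := by
  obtain ⟨u, v, huv, hB⟩ := bezout (B := B) (hc.cop.pow_right (n := 2)) (pow_pos hc.kpos 2) hH.1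
    (by exact_mod_cast hH.2.1)
  obtain ⟨P, h1, h2, h3⟩ := prod_lin s (N := 2 * B)
    ((l.map fun c' => (c'.k ^ 2, -c'.a)) ++ List.replicate (d - l.length) (u, v)) fun q hq => by
      rcases List.mem_append.1 hq with h | h
      · obtain ⟨c', hc', rfl⟩ := List.mem_map.1 h
        have := hl c' hc'
        push_cast
        rw [abs_neg, abs_of_nonneg (sq_nonneg _)]
        linarith [this.1, this.2.1]
      · rw [List.eq_of_mem_replicate h]
        exact hB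
  rw [List.length_append, List.length_map, List.length_replicate, Nat.add_sub_cancel' hd]
    at h1 h2 h3
  simp only [List.map_append, List.prod_append, List.map_map, List.map_replicate,
    List.prod_replicate] at h3
  refine ⟨P, h1, h2, ?_, fun c' hc' => ?_⟩
  · rw [h3, huv, one_pow, mul_one]
    congr 2
    refine List.map_congr_left fun c' _ => ?_
    simp only [Function.comp, Cu.res]
    ring
  · rw [h3, List.prod_eq_zero (List.mem_map.2 ⟨c', hc', ?_⟩), zero_mul, mul_zero]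
    simp only [Function.comp]
    ring

theorem shift (G : ℤ[X]) {m : ℕ} (w : ℤ) (x : Fin m → ℤ) {P : ℤ[X]} (hP : P.natDegree < m) :
    G + ∑ i : Fin m, monomial i (w * (x i + P.coeff i)) =
      G + ∑ i : Fin m, monomial i (w * x i) + C w * P := by
  have e : C w * P = ∑ i : Fin m, monomial i (w * P.coeff i) := by
    rw [Fin.sum_univ_eq_sum_range (fun i => monomial i (w * P.coeff i)) m]
    conv_lhs => rw [P.as_sum_range' m hP]
    simp only [mul_sum, C_mul_monomial]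
  simp only [e, mul_add, map_add, sum_add_distrib, add_assoc]

/-- the shift with given coefficients -/
def sg (m : ℕ) (P Q : ℤ[X]) : Ix m → ℤ :=
  Sum.elim (fun i : Fin m => P.coeff i) fun i : Fin (m - 1) => Q.coeff i

theorem bet_shift {Γ : Gf} (h5 : 5 ≤ Γ.m) (c : Cu) {P Q : ℤ[X]} (hP : P.natDegree ≤ Γ.m - 1)
    (hQ : Q.natDegree ≤ Γ.m - 2) (x : Ix Γ.m → ℤ) :
    c.bet Γ (x + sg Γ.m P Q) = c.bet Γ x +
      ⟨Γ.W' * (c.k ^ 2 * hv P (Γ.m - 1) c.a (c.k ^ 2)),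
        c.k * (Γ.W' * hv Q (Γ.m - 2) c.a (c.k ^ 2))⟩ := by
  have e1 : Γ.gA (x + sg Γ.m P Q) =
      Γ.gA x + C (Γ.W' : ℤ) * P :=
    shift Γ.As (Γ.W' : ℤ) (fun i : Fin Γ.m => x (Sum.inl i)) (P := P) (by omega)
  have e2 : Γ.gB (x + sg Γ.m P Q) =
      Γ.gB x + C (Γ.W' : ℤ) * Q :=
    shift Γ.Bs (Γ.W' : ℤ) (fun i : Fin (Γ.m - 1) => x (Sum.inr i)) (P := Q) (by omega)
  have e3 := hv_succ hP c.a (c.k ^ 2)
  rw [Nat.sub_add_cancel (by omega)] at e3
  rw [Cu.bet, Cu.bet, e1, e2, hv_add, hv_add, hv_C_mul, hv_C_mul, e3, mul_add]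
  rfl

theorem cancel {d N : ℤ} (hN : N ≠ 0) {z w : ℤ√d} (h : (N : ℤ√d) * z = N * w) : z = w := by
  have h1 := congrArg Zsqrtd.re h
  have h2 := congrArg Zsqrtd.im h
  rw [Zsqrtd.re_smul, Zsqrtd.re_smul] at h1
  rw [Zsqrtd.im_smul, Zsqrtd.im_smul] at h2
  exact Zsqrtd.ext (mul_left_cancel₀ hN h1) (mul_left_cancel₀ hN h2)

theorem size {A : ℕ} (hA : 1 ≤ A) {ϖ v : ℤ√(-(A : ℤ))} {V : ℝ} (h1 : |(v.re : ℝ)| ≤ V)
    (h2 : |(v.im : ℝ)| ≤ V) : |((v * star ϖ).re : ℝ)| ≤ 2 * V * ϖ.norm ∧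
      |((v * star ϖ).im : ℝ)| ≤ 2 * V * ϖ.norm := by
  have hV : 0 ≤ V := (abs_nonneg _).trans h1
  have hA' : (1 : ℝ) ≤ A := by exact_mod_cast hA
  have a1 : |(ϖ.re : ℝ)| ≤ (ϖ.re : ℝ) ^ 2 := by exact_mod_cast Int.le_self_sq |ϖ.re| |>.trans_eq (sq_abs _)
  have a2 : |(ϖ.im : ℝ)| ≤ (ϖ.im : ℝ) ^ 2 := by exact_mod_cast Int.le_self_sq |ϖ.im| |>.trans_eq (sq_abs _)
  have e : (ϖ.norm : ℝ) = (ϖ.re : ℝ) ^ 2 + A * (ϖ.im : ℝ) ^ 2 := by
    rw [Zsqrtd.norm_def]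
    push_cast
    ring
  have b1 : |(ϖ.re : ℝ)| ≤ ϖ.norm := by
    rw [e]
    nlinarith [sq_nonneg (ϖ.im : ℝ)]
  have b2 : A * |(ϖ.im : ℝ)| ≤ ϖ.norm := by
    rw [e]
    nlinarith [sq_nonneg (ϖ.re : ℝ)]
  have b3 : |(ϖ.im : ℝ)| ≤ ϖ.norm := by nlinarith [abs_nonneg (ϖ.im : ℝ)]
  have c1 := mul_le_mul h1 b1 (abs_nonneg _) hV
  have c2 := mul_le_mul h2 b2 (by positivity) hV
  have c3 := mul_le_mul h1 b3 (abs_nonneg _) hV
  have c4 := mul_le_mul h2 b1 (abs_nonneg _) hV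
  constructor
  · have : ((v * star ϖ).re : ℝ) = v.re * ϖ.re + v.im * (A * ϖ.im) := by
      rw [Zsqrtd.re_mul, Zsqrtd.re_star, Zsqrtd.im_star]
      push_cast
      ring
    rw [this]
    refine (abs_add_le _ _).trans ?_
    rw [abs_mul, abs_mul, abs_mul, Nat.abs_cast]
    linarith
  · have : ((v * star ϖ).im : ℝ) = v.im * ϖ.re - v.re * ϖ.im := by
      rw [Zsqrtd.im_mul, Zsqrtd.re_star, Zsqrtd.im_star]
      push_cast
      ring
    rw [this]
    refine (abs_sub _ _).trans ?_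
    rw [abs_mul, abs_mul]
    linarith

end DLag

open DLag in
theorem rLag : OfLag := by
  intro _ Γ c l n B V hΓ hc hl2 hl hH hB hV v hre him
  have h5 := hΓ.five
  obtain ⟨ε, hε1, hε⟩ : ∃ ε : ℤ, |(ε : ℝ)| = 1 ∧
      ε * (l.map c.res).prod = ((l.map fun c' => (c.res c').natAbs).prod : ℕ) := by
    have e : (l.map fun c' => (c.res c').natAbs).prod = (l.map c.res).prod.natAbs := by
      rw [← Int.natAbsHom_apply, map_list_prod, List.map_map]
      rfl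
    rw [e, Int.natCast_natAbs]
    rcases le_total 0 (l.map c.res).prod with h | h
    · exact ⟨1, by simp, by rw [one_mul, abs_of_nonneg h]⟩
    · exact ⟨-1, by simp, by rw [neg_one_mul, abs_of_nonpos h]⟩
  obtain ⟨s1, s2⟩ := size (ϖ := c.ϖ) hc.one.le hre him
  set u := v * star c.ϖ with hu
  obtain ⟨P, hP1, hP2, hP3, hP4⟩ := interp hc hH (fun c' h => (hl c' h).2)
    (ε * (Γ.W * n ^ 2 * (Γ.p0 ^ c.e * u.re))) (d := Γ.m - 1) (by omega)
  obtain ⟨Q, hQ1, hQ2, hQ3, hQ4⟩ := interp hc hH (fun c' h => (hl c' h).2)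
    (ε * (Γ.W * n ^ 2 * (Γ.p0 ^ c.e * u.im) * c.k)) (d := Γ.m - 2) (by omega)
  have hs : ∀ t : ℤ, |(t : ℝ)| ≤ 2 * V * c.ϖ.norm →
      |(Γ.W : ℝ) * n ^ 2 * (Γ.p0 ^ c.e * t)| ≤ Γ.W * n ^ 2 * V * (2 * B) := fun t ht => by
    have h1 := hH.2.2.2
    rw [hc.nrm] at ht
    push_cast at ht
    rw [pow_add] at h1
    rw [abs_mul, abs_mul (_ ^ _), abs_of_nonneg (by positivity : (0 : ℝ) ≤ Γ.W * n ^ 2),
      abs_of_nonneg (by positivity : (0 : ℝ) ≤ Γ.p0 ^ c.e), mul_assoc _ V]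
    refine mul_le_mul_of_nonneg_left ?_ (by positivity)
    have h2 := mul_le_mul_of_nonneg_left ht (by positivity : (0 : ℝ) ≤ Γ.p0 ^ c.e)
    have h3 := mul_le_mul_of_nonneg_left h1 hV
    linarith
  have h0 : (0 : ℝ) ≤ Γ.W * n ^ 2 * V := by positivity
  have h2B : (1 : ℝ) ≤ 2 * B := by linarith
  refine ⟨sg Γ.m P Q, ?_, fun x => ⟨?_, fun c' hc' => ?_⟩⟩
  · rintro (i | i)
    · refine (hP2 i).trans ?_
      push_cast
      rw [abs_mul, hε1, one_mul]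
      refine (mul_le_mul_of_nonneg_right (hs _ s1) (by positivity)).trans ?_
      rw [mul_assoc _ (2 * B), ← pow_succ']
      exact mul_le_mul_of_nonneg_left (pow_le_pow_right₀ h2B (by omega)) h0
    · refine (hQ2 i).trans ?_
      have hk : |(c.k : ℝ)| ≤ 2 * B := by
        have h1 : |(c.k : ℝ)| ≤ (c.k : ℝ) ^ 2 := by
          exact_mod_cast Int.le_self_sq |c.k| |>.trans_eq (sq_abs _)
        linarith [hH.2.1]
      push_cast
      rw [abs_mul, hε1, one_mul, abs_mul]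
      refine (mul_le_mul_of_nonneg_right (mul_le_mul (hs _ s2) hk (abs_nonneg _) (by positivity))
        (by positivity)).trans ?_
      rw [mul_assoc _ (2 * B), ← pow_succ', mul_assoc _ (2 * B), ← pow_succ']
      exact mul_le_mul_of_nonneg_left (pow_le_pow_right₀ h2B (by omega)) h0
  · have hp : (Γ.p0 : ℤ) ^ c.e ≠ 0 := pow_ne_zero _ (by exact_mod_cast hΓ.p0W.1.ne_zero)
    refine cancel hp ?_
    set R : ℕ := (l.map fun c' => (c.res c').natAbs).prod with hR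
    have e1 : (⟨Γ.W' * (c.k ^ 2 * hv P (Γ.m - 1) c.a (c.k ^ 2)),
        c.k * (Γ.W' * hv Q (Γ.m - 2) c.a (c.k ^ 2))⟩ : ℤ√(-(c.A : ℤ))) =
        ((Γ.p0 ^ c.e * (Γ.W * Γ.W' * c.k ^ 2 * R * n ^ 2) : ℤ) : ℤ√(-(c.A : ℤ))) * u := by
      refine Zsqrtd.ext ?_ ?_
      · rw [Zsqrtd.re_smul, hP3, ← hε]
        ring
      · rw [Zsqrtd.im_smul, hQ3, ← hε]
        ring
    have e2 : (modQ Γ c l n : ℤ√(-(c.A : ℤ))) =
        ((Γ.W * Γ.W' * c.k ^ 2 * R * n ^ 2 : ℤ) : ℤ√(-(c.A : ℤ))) * (c.ϖ * star c.ϖ) := by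
      have e : (modQ Γ c l n : ℤ) = Γ.W * Γ.W' * c.k ^ 2 * R * n ^ 2 * Γ.p0 ^ c.e' := by
        rw [modQ, ← hR]
        push_cast
        rw [abs_of_nonneg (sq_nonneg _)]
        ring
      rw [← Zsqrtd.norm_eq_mul_conj, hc.nrm, ← Int.cast_mul, ← e, Int.cast_natCast]
    have e3 := hc.exact (x + sg Γ.m P Q)
    rw [bet_shift h5 c hP1 hQ1, e1, add_mul, hc.exact x, Int.cast_mul] at e3
    rw [e2, Int.cast_pow, Int.cast_natCast, ← e3, hu, Int.cast_pow, Int.cast_natCast]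
    ring
  · rw [bet_shift h5 c' hP1 hQ1, hP4 c' hc', hQ4 c' hc']
    simp only [mul_zero]
    exact add_zero _

end Pool.Agent.MP_f3836a_nt.VE
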