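import Pool.Agent.MP_f3836a_nt.VE.SpecD

/-! Removing a point which lies on no curve. -/

set_option autoImplicit false

namespace Pool.Agent.MP_f3836a_nt.VE

open Polynomial Finset

namespace DMvP

/-- the product of the curves -/
noncomputable def pr (l : List Cu) : ℤ[X] := (l.map fun c => C (c.k ^ 2) * X - C c.a).prod

theorem pr_cons (c : Cu) (l : List Cu) : pr (c :: l) = (C (c.k ^ 2) * X - C c.a) * pr l := rfl

theorem pr_deg (l : List Cu) : (pr l).natDegree ≤ l.length := by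
  induction l with
  | nil => simp [pr]
  | cons c l ih =>
    have : (C (c.k ^ 2) * X - C c.a : ℤ[X]).natDegree ≤ 1 := by compute_degree
    rw [pr_cons, List.length_cons]
    exact natDegree_mul_le.trans (by omega)

theorem pr_bd {B : ℝ} (hB : 0 ≤ B) (l : List Cu)
    (h : ∀ c ∈ l, |(c.a : ℝ)| ≤ B ∧ (c.k : ℝ) ^ 2 ≤ B) (i : ℕ) :
    |((pr l).coeff i : ℝ)| ≤ (2 * B) ^ l.length := by
  induction l generalizing i with
  | nil => by_cases hi : i = 0 <;> simp [pr, coeff_one, hi]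
  | cons c l ih =>
    obtain ⟨h1, h2⟩ := h c (by simp)
    have ih := ih fun c hc => h c (List.mem_cons_of_mem _ hc)
    have p : 0 ≤ (2 * B) ^ l.length := by positivity
    have hx : |((X * pr l).coeff i : ℝ)| ≤ (2 * B) ^ l.length := by
      cases i with
      | zero => simpa using p
      | succ i => rw [coeff_X_mul]; exact ih i
    rw [pr_cons, sub_mul, mul_assoc, coeff_sub, coeff_C_mul, coeff_C_mul, List.length_cons,
      pow_succ (2 * B)]
    push_cast
    refine (abs_sub _ _).trans ?_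
    rw [abs_mul, abs_mul, abs_of_nonneg (sq_nonneg (c.k : ℝ))]
    linarith [mul_le_mul h2 hx (abs_nonneg _) hB, mul_le_mul h1 (ih i) (abs_nonneg _) hB]

theorem hv_pr {l : List Cu} {c : Cu} (hc : c ∈ l) (hk : c.k ≠ 0) {m : ℕ} (hm : l.length ≤ m) :
    hv (pr l) m c.a (c.k ^ 2) = 0 := by
  have b0 : ((c.k : ℚ)) ^ 2 ≠ 0 := pow_ne_zero _ (Int.cast_ne_zero.2 hk)
  have h1 : aeval ((c.a : ℚ) / (c.k : ℚ) ^ 2) (pr l) = 0 := by
    rw [pr, map_list_prod, List.map_map]
    refine List.prod_eq_zero (List.mem_map.2 ⟨c, hc, ?_⟩)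
    simp [mul_div_cancel₀ _ b0]
  rw [aeval_eq_sum_range' (Nat.lt_succ_of_le ((pr_deg l).trans hm))] at h1
  have h2 : (hv (pr l) m c.a (c.k ^ 2) : ℚ) = ((c.k : ℚ) ^ 2) ^ m * 0 := by
    rw [← h1, hv, mul_sum]
    push_cast
    refine sum_congr rfl fun i hi => ?_
    obtain ⟨d, rfl⟩ := Nat.exists_eq_add_of_le (Nat.lt_succ_iff.1 (mem_range.1 hi))
    rw [Nat.add_sub_cancel_left, zsmul_eq_mul, div_pow, pow_add]
    field_simp
  exact_mod_cast h2.trans (mul_zero _)

theorem hv_add (A P : ℤ[X]) (r : ℤ) (m : ℕ) (a b : ℤ) :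
    hv (A + C r * P) m a b = hv A m a b + r * hv P m a b := by
  simp only [hv, coeff_add, coeff_C_mul, mul_sum, add_mul, sum_add_distrib, mul_assoc]

theorem one {p : ℕ} (hp : p.Prime) (v : ℤ) {u : ℤ} (hu : ¬(p : ℤ) ∣ u) :
    ∑ c ∈ range p, ind ((p : ℤ) ∣ v + c * u) = 1 := by
  have := Fact.mk hp
  have u0 : (u : ZMod p) ≠ 0 := fun h => hu ((ZMod.intCast_zmod_eq_zero_iff_dvd u p).1 h)
  have key : ∀ c : ℕ, (p : ℤ) ∣ v + c * u ↔ (c : ZMod p) = -v / u := fun c => by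
    rw [← ZMod.intCast_zmod_eq_zero_iff_dvd, eq_div_iff u0]
    push_cast
    exact ⟨fun h => by linear_combination h, fun h => by linear_combination h⟩
  refine (sum_eq_single (f := fun c : ℕ => ind ((p : ℤ) ∣ v + c * u)) (-v / u : ZMod p).val
    (fun c hc h => if_neg fun e => h (by
      rw [← (key c).1 e, ZMod.val_cast_of_lt (mem_range.1 hc)]))
    fun h => absurd (mem_range.2 (ZMod.val_lt _)) h).trans ?_
  exact if_pos ((key _).2 (ZMod.natCast_zmod_val _))

theorem ind_and (p q : Prop) : ind (p ∧ q) = ind p * ind q := by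
  by_cases hp : p <;> by_cases hq : q <;> simp [ind, hp, hq]

end DMvP

open DMvP in
theorem rMvP : OfMvP := by
  intro hS Γ l T z B M Ξ hΓ hl hc hB hN hV hM hΞ
  obtain ⟨⟨hp, -⟩, hW⟩ := hV z (Multiset.mem_cons_self _ _)
  have p0 : (0 : ℝ) < z.p := Nat.cast_pos.2 hp.pos
  have five := hΓ.five
  let σ : ℕ → Ix Γ.m → ℤ := fun c => Sum.elim (fun i => c * nT T * (pr l).coeff i) 0
  have gA : ∀ x (c : ℕ), Γ.gA (x + σ c) = Γ.gA x + C ((Γ.W' : ℤ) * (c * nT T)) * pr l :=
    fun x c => by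
      conv_rhs => rw [as_sum_range' (pr l) Γ.m ((pr_deg l).trans_lt (by omega)),
        ← Fin.sum_univ_eq_sum_range (fun i => monomial i ((pr l).coeff i))]
      simp only [Gf.gA, σ, Pi.add_apply, Sum.elim_inl, mul_add, map_add, sum_add_distrib, mul_sum,
        C_mul_monomial, add_assoc, mul_assoc]
  have gB : ∀ x (c : ℕ), Γ.gB (x + σ c) = Γ.gB x := fun x c => by simp [Gf.gB, σ]
  have zr : ∀ x (c : ℕ) z', Γ.zr (x + σ c) z' ↔ (z'.p : ℤ) ∣ ((Γ.gA x).eval (z'.t : ℤ) +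
      (Γ.gB x).eval (z'.t : ℤ) * z'.y) + c * (Γ.W' * nT T * (pr l).eval (z'.t : ℤ)) :=
    fun x c z' => by
      rw [Gf.zr, Zr, gA, gB, eval_add, eval_mul, eval_C]
      congr! 1
      ring
  have hpz : Prime (z.p : ℤ) := Nat.prime_iff_prime_int.1 hp
  have hu : ¬(z.p : ℤ) ∣ Γ.W' * nT T * (pr l).eval (z.t : ℤ) := fun h => by
    rcases hpz.dvd_or_dvd h with h | h
    · rcases hpz.dvd_or_dvd h with h | h
      · exact hW (hΓ.rad _ hp (Int.natCast_dvd_natCast.1 h))
      · obtain ⟨q, hq, h⟩ := hp.prime.exists_mem_multiset_dvd (Int.natCast_dvd_natCast.1 h)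
        obtain ⟨z', hz, rfl⟩ := Multiset.mem_map.1 hq
        rw [Nd, Multiset.map_cons, Multiset.nodup_cons] at hN
        exact hN.1 ((Nat.prime_dvd_prime_iff_eq hp
          (hV z' (Multiset.mem_cons_of_mem hz)).1.1).1 h ▸ hq)
    · rw [pr, eval_list_prod, List.map_map] at h
      obtain ⟨q, hq, h⟩ := hpz.dvd_prod_iff.1 h
      obtain ⟨c, hcl, rfl⟩ := List.mem_map.1 hq
      exact (hc c hcl).2.2 (by simpa [Cu.on, On] using h)
  have key := hS Γ.m Γ.H Γ.H1 (fun x => ind (∀ z' ∈ z ::ₘ T, Γ.zr x z') * Ξ x) M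
    ((nT (z ::ₘ T) : ℝ) * (2 * B) ^ 3) (range z.p) (fun _ => 1 / (z.p : ℝ)) σ hΓ.side.1 hΓ.side.2
    (fun x => by
      rw [abs_mul]
      refine (mul_le_of_le_one_left (abs_nonneg _) ?_).trans (hM x)
      unfold ind
      split_ifs <;> simp) (fun _ => by positivity) (by simp [p0.ne']) (by positivity)
    fun c hcp i => by
      cases i with
      | inr i => simp only [σ, Sum.elim_inr, Pi.zero_apply, Int.cast_zero, abs_zero]; positivity
      | inl i =>
        have h1 := (pr_bd (by linarith) l (fun c h => ⟨(hc c h).2.1.1, (hc c h).2.1.2.1⟩) i).trans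
          (pow_le_pow_right₀ (by linarith) hl)
        have h2 : (c : ℝ) ≤ z.p := Nat.cast_le.2 (mem_range.1 hcp).le
        have hn : nT (z ::ₘ T) = z.p * nT T := by simp [nT]
        rw [hn]
        simp only [σ, Sum.elim_inl]
        push_cast
        rw [abs_mul, abs_of_nonneg (by positivity)]
        gcongr
  suffices e2 : (1 / (z.p : ℝ)) * Γ.E (fun x => ind (∀ z' ∈ T, Γ.zr x z') * Ξ x) =
      Eb Γ.m Γ.H Γ.H1 fun x => ∑ v ∈ range z.p, 1 / (z.p : ℝ) *
        (ind (∀ z' ∈ z ::ₘ T, Γ.zr (x + σ v) z') * Ξ (x + σ v)) by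
    rw [e2]
    exact key
  unfold Gf.E Eb
  rw [← mul_div_assoc, mul_sum]
  refine congrArg (· / _) (sum_congr rfl fun x _ => ?_)
  have e : ∀ c : ℕ, ind (∀ z' ∈ z ::ₘ T, Γ.zr (x + σ c) z') * Ξ (x + σ c) =
      ind (Γ.zr (x + σ c) z) * (ind (∀ z' ∈ T, Γ.zr x z') * Ξ x) := fun c => by
    rw [Multiset.forall_mem_cons, ind_and, mul_assoc, hΞ (x + σ c) x fun d hd => by
      rw [Cu.bet, Cu.bet, gA, gB, hv_add, hv_pr hd (hc d hd).1.kpos.ne' (by omega), mul_zero,
        add_zero]]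
    congr 3
    refine propext (forall₂_congr fun z' hz => ?_)
    have d : (z'.p : ℤ) ∣ nT T :=
      Int.natCast_dvd_natCast.2 (Multiset.dvd_prod (Multiset.mem_map_of_mem _ hz))
    rw [zr]
    exact dvd_add_left (((d.mul_left _).mul_right _).mul_left _)
  simp only [e]
  simp only [zr]
  rw [← mul_sum, ← sum_mul, one hp _ hu, one_mul]

end Pool.Agent.MP_f3836a_nt.VE
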