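import Pool.Agent.MP_f3836a_nt.VE.SpecD

/-! Row DPcA: probability of containing a set with at most two points over each prime. -/

set_option autoImplicit false

namespace Pool.Agent.MP_f3836a_nt.VE

open Polynomial Finset

namespace DPcA

/-- the linear part of the value -/
def L {m : ℕ} (σ : Ix m → ℤ) (z : Pt) : ℤ :=
  ∑ i : Fin m, σ (Sum.inl i) * (z.t : ℤ) ^ (i : ℕ) +
    (∑ i : Fin (m - 1), σ (Sum.inr i) * (z.t : ℤ) ^ (i : ℕ)) * z.y

/-- the value -/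
noncomputable def val (Γ : Gf) (x : Ix Γ.m → ℤ) (z : Pt) : ℤ :=
  (Γ.gA x).eval (z.t : ℤ) + (Γ.gB x).eval (z.t : ℤ) * z.y

theorem val_add (Γ : Gf) (x τ : Ix Γ.m → ℤ) (c : ℤ) (z : Pt) :
    val Γ (x + c • τ) z = val Γ x z + c * (Γ.W' * L τ z) := by
  simp only [val, Gf.gA, Gf.gB, L, eval_add, eval_finsetSum, eval_monomial, Pi.add_apply,
    Pi.smul_apply, smul_eq_mul, mul_add, add_mul, sum_add_distrib, mul_sum, sum_mul, mul_assoc,
    mul_left_comm c]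
  ring

theorem dir {m : ℕ} (hm : 5 ≤ m) (a b c s : ℤ) (ha : |a| ≤ s) (hb : |b| ≤ s) (hc : |c| ≤ s) :
    ∃ τ : Ix m → ℤ, (∀ i, |τ i| ≤ 3 * s) ∧ ∀ z, L τ z = a + b * z.t + c * z.y := by
  have h : ∀ (j : Ix m) (a : ℤ), |a| ≤ s → ∀ i, |(Pi.single j a : Ix m → ℤ) i| ≤ s := by
    intro j a ha i
    rw [Pi.single_apply]
    split_ifs
    · exact ha
    · exact (abs_zero (α := ℤ)).le.trans ((abs_nonneg a).trans ha)
  refine ⟨Pi.single (Sum.inl ⟨0, by omega⟩) a + Pi.single (Sum.inl ⟨1, by omega⟩) b +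
    Pi.single (Sum.inr ⟨0, by omega⟩) c, fun i => ?_, fun z => ?_⟩
  · simp only [Pi.add_apply]
    refine (abs_add_three _ _ _).trans ?_
    linarith [h (Sum.inl ⟨0, by omega⟩) a ha i, h (Sum.inl ⟨1, by omega⟩) b hb i,
      h (Sum.inr ⟨0, by omega⟩) c hc i]
  · simp [L, Pi.single_apply, add_mul, sum_add_distrib]

theorem nT_cons (z : Pt) (T : Multiset Pt) : nT (z ::ₘ T) = z.p * nT T := by simp [nT]

theorem dvd_nT {z : Pt} {T : Multiset Pt} (h : z ∈ T) : (z.p : ℤ) ∣ nT T :=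
  Int.natCast_dvd_natCast.2 (Multiset.dvd_prod (Multiset.mem_map_of_mem _ h))

theorem not_dvd_nT {p : ℕ} (hp : p.Prime) {T : Multiset Pt} (h : ∀ z ∈ T, z.p.Prime ∧ z.p ≠ p) :
    ¬(p : ℤ) ∣ nT T := fun hd => by
  obtain ⟨q, h1, h2⟩ := hp.prime.exists_mem_multiset_dvd (Int.natCast_dvd_natCast.1 hd)
  obtain ⟨z, hz, rfl⟩ := Multiset.mem_map.1 h1
  exact (h z hz).2 ((Nat.prime_dvd_prime_iff_eq hp (h z hz).1).1 h2).symm

theorem nT_pos {T : Multiset Pt} (h : ∀ z ∈ T, z.p.Prime) : 0 < nT T :=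
  Multiset.prod_pos fun a ha => by
    obtain ⟨z, hz, rfl⟩ := Multiset.mem_map.1 ha
    exact (h z hz).pos

theorem not_dvd_sub {p a b : ℕ} (ha : a < p) (hb : b < p) (h : a ≠ b) : ¬(p : ℤ) ∣ (a : ℤ) - b :=
  fun hd => h (by
    have := Int.eq_zero_of_abs_lt_dvd hd (abs_lt.2 ⟨by omega, by omega⟩)
    omega)

/-- a direction that moves `z` and fixes the other points -/
theorem move {f : ℤ[X]} {m : ℕ} (hm : 5 ≤ m) {z : Pt} {T : Multiset Pt} (hn : z ∉ T)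
    (hz : IsPt f z) (hT : ∀ z' ∈ T, IsPt f z') (hc : (T.map Pt.p).count z.p ≤ 1) :
    ∃ τ : Ix m → ℤ, (∀ i, |τ i| ≤ 3 * (nT T : ℤ)) ∧ ¬(z.p : ℤ) ∣ L τ z ∧
      ∀ z' ∈ T, (z'.p : ℤ) ∣ L τ z' := by
  have hp := Nat.prime_iff_prime_int.1 hz.1
  by_cases h : ∃ z' ∈ T, z'.p = z.p
  · obtain ⟨z', h1, h2⟩ := h
    obtain ⟨T', rfl⟩ := Multiset.exists_cons_of_mem h1
    have h3 : ¬(z.p : ℤ) ∣ nT T' := not_dvd_nT hz.1 fun w hw =>
      ⟨(hT w (Multiset.mem_cons_of_mem hw)).1, fun e => by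
        rw [Multiset.map_cons, h2, Multiset.count_cons_self] at hc
        have := Multiset.count_pos.2 (e ▸ Multiset.mem_map_of_mem Pt.p hw)
        omega⟩
    have h4 := hT z' h1
    have h5 : ∀ a : ℕ, a ≤ z'.p → |(nT T' : ℤ) * a| ≤ nT (z' ::ₘ T') := fun a ha => by
      rw [nT_cons, abs_of_nonneg (by positivity), mul_comm]
      exact_mod_cast Nat.mul_le_mul_right _ ha
    have h6 : |(nT T' : ℤ)| ≤ nT (z' ::ₘ T') := by simpa using h5 1 h4.1.pos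
    have h7 : |(0 : ℤ)| ≤ nT (z' ::ₘ T') := by simp
    by_cases ht : z.t = z'.t
    · obtain ⟨τ, t1, t2⟩ := dir hm _ 0 _ _ ((abs_neg _).trans_le (h5 _ h4.2.2.2.2.1.le)) h7 h6
      have t3 : ∀ w : Pt, L τ w = nT T' * ((w.y : ℤ) - z'.y) := fun w => by rw [t2]; ring
      refine ⟨τ, t1, fun hd => ?_, fun w hw => ?_⟩
      · refine (hp.dvd_or_dvd (t3 z ▸ hd)).elim h3 (not_dvd_sub hz.2.2.2.2.1 (h2 ▸ h4.2.2.2.2.1)
          fun e => hn ?_)
        rw [show z = ⟨z.p, z.t, z.y⟩ from rfl, ← h2, ht, e]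
        exact h1
      · rw [t3]
        rcases Multiset.mem_cons.1 hw with rfl | hw
        · simp
        · exact (dvd_nT hw).mul_right _
    · obtain ⟨τ, t1, t2⟩ := dir hm _ _ 0 _ ((abs_neg _).trans_le (h5 _ h4.2.2.1.le)) h6 h7
      have t3 : ∀ w : Pt, L τ w = nT T' * ((w.t : ℤ) - z'.t) := fun w => by rw [t2]; ring
      refine ⟨τ, t1, fun hd => ?_, fun w hw => ?_⟩
      · exact (hp.dvd_or_dvd (t3 z ▸ hd)).elim h3 (not_dvd_sub hz.2.2.1 (h2 ▸ h4.2.2.1) ht)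
      · rw [t3]
        rcases Multiset.mem_cons.1 hw with rfl | hw
        · simp
        · exact (dvd_nT hw).mul_right _
  · obtain ⟨τ, t1, t2⟩ := dir hm (nT T) 0 0 (nT T) (by simp) (by simp) (by simp)
    have t3 : ∀ w : Pt, L τ w = nT T := fun w => by rw [t2]; ring
    exact ⟨τ, t1, t3 z ▸ not_dvd_nT hz.1 fun w hw => ⟨(hT w hw).1, fun e => h ⟨w, hw, e⟩⟩,
      fun w hw => t3 w ▸ dvd_nT hw⟩

theorem ind_le (p : Prop) : 0 ≤ ind p ∧ ind p ≤ 1 := by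
  unfold ind
  split_ifs <;> norm_num

theorem sum_le {p : ℕ} (hp : p.Prime) {v u : ℤ} (hu : ¬(p : ℤ) ∣ u) (q : Prop) :
    ∑ c ∈ range p, ind ((p : ℤ) ∣ v + c * u ∧ q) ≤ ind q := by
  classical
  by_cases hq : q
  · simp only [ind, hq, and_true, if_true, sum_boole]
    rw [Nat.cast_le_one, card_le_one]
    intro a ha b hb
    rw [mem_filter, mem_range] at ha hb
    by_contra h
    have := dvd_sub ha.2 hb.2
    rw [add_sub_add_left_eq_sub, ← sub_mul] at this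
    exact ((Nat.prime_iff_prime_int.1 hp).dvd_or_dvd this).elim (not_dvd_sub ha.1 hb.1 h) hu
  · simp [ind, hq]

theorem step (sh : ShiftS) {Γ : Gf} (ok : Γ.Ok) {z : Pt} {T : Multiset Pt} (hn : z ∉ T)
    (hz : Vp Γ z) (hT : ∀ z' ∈ T, Vp Γ z') (hc : (T.map Pt.p).count z.p ≤ 1) :
    Γ.E (fun x => ind (∀ w ∈ z ::ₘ T, Γ.zr x w)) ≤
      1 / z.p * Γ.E (fun x => ind (∀ w ∈ T, Γ.zr x w)) +
        8 * Γ.m * 1 * (z.p * (3 * nT T)) / Γ.H1 := by
  obtain ⟨τ, t1, t2, t3⟩ := move ok.five hn hz.1 (fun w hw => (hT w hw).1) hc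
  have hp : (0 : ℝ) < z.p := Nat.cast_pos.2 hz.1.1.pos
  have hu : ¬(z.p : ℤ) ∣ Γ.W' * L τ z := fun h =>
    ((Nat.prime_iff_prime_int.1 hz.1.1).dvd_or_dvd h).elim
      (fun h' => hz.2 (ok.rad _ hz.1.1 (Int.natCast_dvd_natCast.1 h'))) t2
  have h1 := sh Γ.m Γ.H Γ.H1 (fun x => ind (∀ w ∈ z ::ₘ T, Γ.zr x w)) 1 (z.p * (3 * nT T))
    (range z.p) (fun _ => 1 / z.p) (fun c => (c : ℤ) • τ) ok.side.1 ok.side.2
    (fun x => abs_le.2 ⟨by linarith [(ind_le (∀ w ∈ z ::ₘ T, Γ.zr x w)).1], (ind_le _).2⟩)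
    (fun _ => by positivity) (by simp [hp.ne']) (by positivity) fun c hc i => by
      rw [Pi.smul_apply, smul_eq_mul, Int.cast_mul, abs_mul, Int.cast_natCast, Nat.abs_cast]
      exact mul_le_mul (Nat.cast_le.2 (mem_range.1 hc).le) (by exact_mod_cast t1 i)
        (abs_nonneg _) hp.le
  refine (sub_le_iff_le_add'.1 (abs_le.1 h1).2).trans (add_le_add_left ?_ _)
  rw [Gf.E, Eb, Eb, ← mul_div_assoc, mul_sum]
  refine div_le_div_of_nonneg_right (sum_le_sum fun x _ => ?_) (Nat.cast_nonneg _)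
  rw [← mul_sum]
  refine mul_le_mul_of_nonneg_left (le_trans (le_of_eq (sum_congr rfl fun c _ => ?_))
    (sum_le hz.1.1 (v := val Γ x z) hu _)) (by positivity)
  refine congrArg ind (propext ?_)
  rw [Multiset.forall_mem_cons, ← val_add]
  refine and_congr Iff.rfl (forall₂_congr fun w hw => ?_)
  show (w.p : ℤ) ∣ val Γ _ w ↔ (w.p : ℤ) ∣ val Γ x w
  rw [val_add]
  exact dvd_add_left (((t3 w hw).mul_left _).mul_left _)

end DPcA

open DPcA in
theorem rPcA : OfPcA := by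
  intro sh Γ T ok
  induction T using Multiset.induction_on with
  | empty =>
    intro _ _ _
    simp [Gf.E, Eb, PT, nT, ind, div_self_le_one]
  | cons z T ih =>
    intro hn hv hc
    rw [Multiset.nodup_cons] at hn
    have hz := hv z (Multiset.mem_cons_self _ _)
    have hT : ∀ w ∈ T, Vp Γ w := fun w hw => hv w (Multiset.mem_cons_of_mem hw)
    have h1 := step sh ok hn.1 hz hT (by
      have := hc z.p
      rw [Multiset.map_cons, Multiset.count_cons_self] at this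
      omega)
    have h2 := ih hn.2 hT fun p => le_trans (by
      rw [Multiset.map_cons]
      exact Multiset.count_le_count_cons _ _ _) (hc p)
    have hp : (2 : ℝ) ≤ z.p := by exact_mod_cast hz.1.1.two_le
    have hN : (1 : ℝ) ≤ nT T := by exact_mod_cast nT_pos fun w hw => (hT w hw).1.1
    have hH : (0 : ℝ) < Γ.H1 := Nat.cast_pos.2 ok.side.1
    have h3 : 1 / (z.p : ℝ) * PT T = PT (z ::ₘ T) := by
      rw [PT, PT, nT_cons, Nat.cast_mul, one_div_mul_one_div]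
    have h4 : 1 / (z.p : ℝ) * (16 * Γ.m * T.card * (nT T : ℝ) ^ 2 / Γ.H1) ≤
        16 * Γ.m * T.card * (z.p * nT T : ℝ) ^ 2 / Γ.H1 := by
      refine (mul_le_of_le_one_left (by positivity)
        ((div_le_one (by linarith)).2 (by linarith))).trans ?_
      gcongr
      exact le_mul_of_one_le_left (by linarith) (by linarith)
    have h5 : 8 * Γ.m * 1 * ((z.p : ℝ) * (3 * nT T)) / Γ.H1 ≤
        16 * Γ.m * (z.p * nT T : ℝ) ^ 2 / Γ.H1 := by
      refine div_le_div_of_nonneg_right ?_ hH.le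
      have a : (2 : ℝ) ≤ z.p * nT T := by nlinarith
      have b : (0 : ℝ) ≤ Γ.m * (z.p * nT T) := by positivity
      nlinarith [mul_le_mul_of_nonneg_left a b]
    have h6 := mul_le_mul_of_nonneg_left h2 (show (0 : ℝ) ≤ 1 / z.p by positivity)
    rw [mul_add, h3] at h6
    rw [nT_cons, Multiset.card_cons]
    push_cast
    rw [show 16 * (Γ.m : ℝ) * (T.card + 1) * (z.p * nT T : ℝ) ^ 2 / Γ.H1 =
      16 * Γ.m * T.card * (z.p * nT T : ℝ) ^ 2 / Γ.H1 + 16 * Γ.m * (z.p * nT T : ℝ) ^ 2 / Γ.H1 by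
      ring]
    linarith

end Pool.Agent.MP_f3836a_nt.VE
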