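import Pool.Agent.MP_f3836a_nt.VE.SpecD

/-! The degenerate classes. -/

set_option autoImplicit false

namespace Pool.Agent.MP_f3836a_nt.VE

open Polynomial Finset

namespace DPcB

/-- the shift of the two lowest coefficients -/
def sh (m : ℕ) (u0 u1 : ℤ) : Ix m → ℤ :=
  Sum.elim (fun i => if (i : ℕ) = 0 then u0 else if (i : ℕ) = 1 then u1 else 0) fun _ => 0

variable {Γ : Gf}

theorem gB_sh (x : Ix Γ.m → ℤ) (u0 u1 : ℤ) : Γ.gB (x + sh Γ.m u0 u1) = Γ.gB x := by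
  simp [Gf.gB, sh]

theorem gA_sh (h : Γ.Ok) (x : Ix Γ.m → ℤ) (u0 u1 : ℤ) : Γ.gA (x + sh Γ.m u0 u1) =
    Γ.gA x + (monomial 0 (Γ.W' * u0) + monomial 1 (Γ.W' * u1)) := by
  obtain ⟨k, hk⟩ : ∃ k, Γ.m = k + 1 + 1 := ⟨Γ.m - 2, by have := h.five; omega⟩
  simp only [Gf.gA, Pi.add_apply, mul_add, map_add, sum_add_distrib, add_assoc, sh, Sum.elim_inl]
  congr 2
  rw [Fin.sum_univ_eq_sum_range (fun i => monomial i ((Γ.W' : ℤ) *
    if i = 0 then u0 else if i = 1 then u1 else 0)), hk, sum_range_succ', sum_range_succ']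
  simp [add_comm]

theorem zr_sh (h : Γ.Ok) (x : Ix Γ.m → ℤ) {u0 u1 : ℤ} (v : ℤ) {z : Pt}
    (hz : (z.p : ℤ) ∣ u0 + u1 * z.t) : Γ.zr (x + sh Γ.m (v * u0) (v * u1)) z ↔ Γ.zr x z := by
  rw [Gf.zr, Gf.zr, Zr, Zr, gA_sh h, gB_sh, eval_add, add_right_comm]
  refine dvd_add_left ?_
  convert hz.mul_left (Γ.W' * v) using 1
  simp only [eval_add, eval_monomial]
  ring

theorem hv_mon {j d : ℕ} (hj : j ≤ d) (v a b : ℤ) :
    hv (monomial j v) d a b = v * a ^ j * b ^ (d - j) := by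
  simp [hv, coeff_monomial, hj]

theorem hv_add (P Q : ℤ[X]) (d : ℕ) (a b : ℤ) : hv (P + Q) d a b = hv P d a b + hv Q d a b := by
  simp [hv, add_mul, sum_add_distrib]

theorem nrm_sh (h : Γ.Ok) (c : Cu) (x : Ix Γ.m → ℤ) (u0 u1 v : ℤ) :
    (c.bet Γ (x + sh Γ.m (v * u0) (v * u1))).norm = ((c.bet Γ x).re +
      v * (Γ.W' * (c.k ^ 2) ^ (Γ.m - 1) * (u0 * c.k ^ 2 + u1 * c.a))) ^ 2 +
        c.A * (c.bet Γ x).im ^ 2 := by
  obtain ⟨k, hk⟩ : ∃ k, Γ.m = k + 1 := ⟨Γ.m - 1, by have := h.five; omega⟩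
  rw [Zsqrtd.norm_def]
  simp only [Cu.bet]
  rw [gA_sh h, gB_sh, hv_add, hv_add, hv_mon (Nat.zero_le _), hv_mon (by omega)]
  generalize hv (Γ.gA x) Γ.m c.a (c.k ^ 2) = R
  generalize hv (Γ.gB x) (Γ.m - 2) c.a (c.k ^ 2) = I
  rw [hk, Nat.sub_zero, Nat.add_sub_cancel]
  ring

theorem hv_cong {P : ℤ[X]} {d : ℕ} (hP : P.natDegree = d) {p a b t : ℤ} (h : p ∣ b * t - a) :
    p ∣ b ^ d * P.eval t - hv P d a b := by
  rw [eval_eq_sum_range, hP, hv, mul_sum, ← sum_sub_distrib]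
  refine dvd_sum fun i hi => ?_
  obtain ⟨j, rfl⟩ := Nat.exists_eq_add_of_le (Nat.lt_succ_iff.1 (mem_range.1 hi))
  convert (h.trans (sub_dvd_pow_sub_pow _ _ i)).mul_left (P.coeff i * b ^ j) using 1
  rw [Nat.add_sub_cancel_left]
  ring

theorem ind_le {p q : Prop} (h : p → q) : ind p ≤ ind q := by
  unfold ind
  split_ifs with h1 h2
  exacts [le_rfl, absurd (h h1) h2, zero_le_one, le_rfl]

theorem E_mono {F G : (Ix Γ.m → ℤ) → ℝ} (h : ∀ x, F x ≤ G x) : Γ.E F ≤ Γ.E G :=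
  div_le_div_of_nonneg_right (sum_le_sum fun x _ => h x) (Nat.cast_nonneg _)

theorem E_add (F G : (Ix Γ.m → ℤ) → ℝ) : Γ.E (fun x => F x + G x) = Γ.E F + Γ.E G := by
  simp only [Gf.E, Eb, sum_add_distrib, add_div]

theorem E_mul (a : ℝ) (F : (Ix Γ.m → ℤ) → ℝ) : Γ.E (fun x => a * F x) = a * Γ.E F := by
  simp only [Gf.E, Eb, ← mul_sum, mul_div_assoc]

open Classical in
/-- conditioning by a shift -/
theorem cond (hS : ShiftS) (h : Γ.Ok) {l n r : ℕ} (hl : 0 < l) {u0 u1 : ℤ} (h0 : |u0| ≤ n)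
    (h1 : |u1| ≤ n) (P Q : (Ix Γ.m → ℤ) → Prop)
    (hP : ∀ x (v : ℕ), Q (x + sh Γ.m (v * u0) (v * u1)) → P x)
    (hr : ∀ x (s : Finset ℕ), (∀ v ∈ s, v ∈ range l ∧ Q (x + sh Γ.m (v * u0) (v * u1))) →
      s.card ≤ r) :
    Γ.E (fun x => ind (Q x)) ≤ r / l * Γ.E (fun x => ind (P x)) + 8 * Γ.m * (l * n) / Γ.H1 := by
  have l0 : (0 : ℝ) < l := by exact_mod_cast hl
  have hb : ∀ v ∈ range l, ∀ u : ℤ, |u| ≤ n → |((v * u : ℤ) : ℝ)| ≤ l * n := fun v hv u hu => by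
    have : |(v : ℤ) * u| ≤ l * n := by
      rw [abs_mul, Nat.abs_cast]
      exact mul_le_mul (by exact_mod_cast (mem_range.1 hv).le) hu (abs_nonneg _) (by positivity)
    exact_mod_cast this
  have e := (abs_le.1 (hS Γ.m Γ.H Γ.H1 (fun x => ind (Q x)) 1 (l * n) (range l) (fun _ => 1 / l)
    (fun v => sh Γ.m (v * u0) (v * u1)) h.side.1 h.side.2
    (fun x => by unfold ind; split_ifs <;> simp) (fun _ => by positivity)
    (by rw [sum_const, card_range, nsmul_eq_mul, mul_one_div_cancel l0.ne']) (by positivity)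
    fun v hv i => by
      rcases i with i | i
      · simp only [sh, Sum.elim_inl]
        split_ifs
        exacts [hb v hv _ h0, hb v hv _ h1, by simp; positivity]
      · simp [sh]
        positivity)).2
  have e2 : Γ.E (fun x => ∑ v ∈ range l, 1 / (l : ℝ) * ind (Q (x + sh Γ.m (v * u0) (v * u1)))) ≤
      r / l * Γ.E (fun x => ind (P x)) := by
    rw [← E_mul]
    refine E_mono fun x => ?_
    rw [← mul_sum]
    by_cases hx : P x
    · simp only [ind, sum_boole, if_pos hx, mul_one]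
      rw [one_div_mul_eq_div]
      exact div_le_div_of_nonneg_right (by exact_mod_cast hr x _ fun v => mem_filter.1) l0.le
    · simp only [ind]
      rw [sum_eq_zero fun v _ => if_neg (mt (hP x v) hx), if_neg hx, mul_zero, mul_zero]
  rw [mul_one] at e
  unfold Gf.E at e2 ⊢
  linarith

theorem eq_of_dvd {l v w : ℕ} (hv : v ∈ range l) (hw : w ∈ range l) (h : (l : ℤ) ∣ v - w) :
    v = w := by
  have := Int.eq_zero_of_abs_lt_dvd h (abs_lt.2 (by
    have := mem_range.1 hv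
    have := mem_range.1 hw
    omega))
  omega

theorem two {l : ℕ} (hl : l.Prime) {U : ℤ} (hU : ¬(l : ℤ) ∣ U) (R N : ℤ) (s : Finset ℕ)
    (hs : ∀ v ∈ s, v ∈ range l ∧ (l : ℤ) ∣ (R + v * U) ^ 2 + N) : s.card ≤ 2 := by
  have hp := Nat.prime_iff_prime_int.1 hl
  by_contra hn
  obtain ⟨a, b, c, ha, hb, hc, h1, h2, h3⟩ := two_lt_card_iff.1 (not_le.1 hn)
  have key : ∀ v ∈ s, ∀ w ∈ s, v ≠ w → (l : ℤ) ∣ 2 * R + (v + w) * U := fun v hv w hw h => by
    have e : (l : ℤ) ∣ (v - w) * U * (2 * R + (v + w) * U) :=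
      (dvd_sub (hs v hv).2 (hs w hw).2).trans (dvd_of_eq (by ring))
    refine (hp.dvd_or_dvd e).resolve_left fun e => ?_
    exact (hp.dvd_or_dvd e).elim (fun e => h (eq_of_dvd (hs v hv).1 (hs w hw).1 e)) hU
  have e : (l : ℤ) ∣ (b - c) * U :=
    (dvd_sub (key a ha b hb h1) (key a ha c hc h2)).trans (dvd_of_eq (by ring))
  exact (hp.dvd_or_dvd e).elim (fun e => h3 (eq_of_dvd (hs b hb).1 (hs c hc).1 e)) hU

theorem one {l : ℕ} (hl : l.Prime) {U R : ℤ} (hU : ¬(l : ℤ) ∣ U) (N : ℤ) (s : Finset ℕ)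
    (hs : ∀ v ∈ s, v ∈ range l ∧ ¬(l : ℤ) ∣ 2 * R ∧ (l : ℤ) ^ 2 ∣ (R + v * (l * U)) ^ 2 + N) :
    s.card ≤ 1 := by
  have hp := Nat.prime_iff_prime_int.1 hl
  refine card_le_one.2 fun v hv w hw => eq_of_dvd (hs v hv).1 (hs w hw).1 ?_
  have e : (l : ℤ) * l ∣ l * ((v - w) * U * (2 * R + l * ((v + w) * U))) := by
    rw [← sq]
    exact (dvd_sub (hs v hv).2.2 (hs w hw).2.2).trans (dvd_of_eq (by ring))
  refine (hp.dvd_or_dvd ((hp.dvd_or_dvd ((mul_dvd_mul_iff_left hp.ne_zero).1 e)).resolve_right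
    fun e => (hs v hv).2.1 ((dvd_add_left (dvd_mul_right _ _)).1 e))).resolve_right hU

theorem dvd_nT {T : Multiset Pt} {z : Pt} (hz : z ∈ T) : z.p ∣ nT T :=
  Multiset.dvd_prod (Multiset.mem_map_of_mem _ hz)

theorem nT_cons (z : Pt) (T : Multiset Pt) : nT (z ::ₘ T) = z.p * nT T := by simp [nT]

theorem not_dvd {T : Multiset Pt} (h : ∀ z ∈ T, z.p.Prime) {l : ℕ} (hl : l.Prime)
    (hn : ∀ z ∈ T, z.p ≠ l) : ¬(l : ℤ) ∣ nT T := fun e => by
  obtain ⟨_, h1, h2⟩ := hl.prime.exists_mem_multiset_dvd (Int.natCast_dvd_natCast.1 e)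
  obtain ⟨z, hz, rfl⟩ := Multiset.mem_map.1 h1
  exact hn z hz ((Nat.prime_dvd_prime_iff_eq hl (h z hz)).1 h2).symm

theorem nT_pos {T : Multiset Pt} (h : ∀ z ∈ T, z.p.Prime) : 0 < nT T :=
  Multiset.prod_pos fun _ ha => by
    obtain ⟨z, hz, rfl⟩ := Multiset.mem_map.1 ha
    exact (h z hz).pos

theorem unit (h : Γ.Ok) {c : Cu} (hc : c.Ok Γ) {l : ℕ} (hl : l.Prime) (hW : ¬l ∣ Γ.W) (j : ℕ) :
    ¬(l : ℤ) ∣ Γ.W' * (c.k ^ 2) ^ j := fun e => by
  have hp := Nat.prime_iff_prime_int.1 hl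
  exact (hp.dvd_or_dvd e).elim (fun e => hW (h.rad l hl (Int.natCast_dvd_natCast.1 e)))
    fun e => hW (hc.rad l hl (hp.dvd_of_dvd_pow (hp.dvd_of_dvd_pow e)))

theorem to_bet (hA : ApiS) (h : Γ.Ok) {c : Cu} (hc : c.Ok Γ) {l : ℕ} (hl : l.Prime)
    (hW : ¬l ∣ Γ.W) (j : ℕ) {x : Ix Γ.m → ℤ} (e : (l : ℤ) ^ j ∣ (c.gam Γ x).norm) :
    (l : ℤ) ^ j ∣ (c.bet Γ x).norm := by
  have h1 := e.mul_right ((Γ.p0 : ℤ) ^ (2 * c.e))
  rw [(hA Γ c h hc x).2.2.1] at h1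
  refine IsCoprime.dvd_of_dvd_mul_right (IsCoprime.pow (Nat.isCoprime_iff_coprime.2 ?_)) h1
  exact (Nat.coprime_primes hl h.p0W.1).2 fun e => hW (e ▸ h.p0W.2)

end DPcB

open DPcB in
theorem rPcB : OfPcB := by
  intro hA hS hP Γ c T h hc hT hV
  classical
  have hpr : ∀ z ∈ T, z.p.Prime := fun z hz => (hV z hz).1.1
  have n1 : (1 : ℝ) ≤ nT T := by exact_mod_cast nT_pos hpr
  have H0 : (0 : ℝ) < Γ.H1 := by exact_mod_cast h.side.1
  have hc1 := Multiset.nodup_iff_count_le_one.1 hT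
  have hE := hP Γ T h (Multiset.Nodup.of_map _ hT) hV fun p => (hc1 p).trans one_le_two
  obtain ⟨D, hD⟩ : ∃ D : ℝ, D = Γ.m / Γ.H1 := ⟨_, rfl⟩
  have D0 : 0 ≤ D := by rw [hD]; positivity
  have eD : ∀ a b : ℝ, a * Γ.m * b / Γ.H1 = a * b * D := fun a b => by rw [hD]; ring
  have k0 : (0 : ℝ) ≤ T.card := Nat.cast_nonneg _
  rw [mul_assoc (16 * _), eD] at hE
  refine ⟨fun l hl hW hon => ?_, fun z0 hz hon => ?_⟩
  · have hp := Nat.prime_iff_prime_int.1 hl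
    obtain ⟨u0, u1, h0, h1, h2, h3⟩ : ∃ u0 u1 : ℤ, |u0| ≤ nT T ∧ |u1| ≤ nT T ∧
        (∀ z ∈ T, (z.p : ℤ) ∣ u0 + u1 * z.t) ∧ ¬(l : ℤ) ∣ u0 * c.k ^ 2 + u1 * c.a := by
      by_cases hz : ∃ z ∈ T, z.p = l
      · obtain ⟨z, hz, rfl⟩ := hz
        obtain ⟨T0, rfl⟩ := Multiset.exists_cons_of_mem hz
        rw [Nd, Multiset.map_cons, Multiset.nodup_cons] at hT
        have h4 := (hV z hz).1.2.2.1
        refine ⟨z.t * nT T0, -nT T0, ?_, ?_, fun z' hz' => ?_, fun e => ?_⟩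
        · rw [nT_cons, abs_of_nonneg (by positivity)]
          exact_mod_cast Nat.mul_le_mul_right _ h4.le
        · rw [nT_cons, abs_neg, Nat.abs_cast]
          exact_mod_cast Nat.le_mul_of_pos_left _ hl.pos
        · rcases Multiset.mem_cons.1 hz' with rfl | h5
          · exact ⟨0, by ring⟩
          · exact ((Int.natCast_dvd_natCast.2 (dvd_nT h5)).mul_right ((z.t : ℤ) - z'.t)).trans
              (dvd_of_eq (by ring))
        · have e2 : (z.p : ℤ) ∣ nT T0 * (c.k ^ 2 * z.t - c.a) := e.trans (dvd_of_eq (by ring))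
          exact (hp.dvd_or_dvd e2).elim (not_dvd (fun w hw => hpr w (Multiset.mem_cons_of_mem hw))
            hl fun w hw e3 => hT.1 (Multiset.mem_map.2 ⟨w, hw, e3⟩)) (hon z hz rfl)
      · refine ⟨nT T, 0, (Nat.abs_cast _).le, by simp, fun z hz => ?_, fun e => ?_⟩
        · simpa using Int.natCast_dvd_natCast.2 (dvd_nT hz)
        · rw [zero_mul, add_zero] at e
          exact (hp.dvd_or_dvd e).elim (not_dvd hpr hl fun w hw e3 => hz ⟨w, hw, e3⟩)
            fun e => hW (hc.rad l hl (hp.dvd_of_dvd_pow e))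
    have e := cond (r := 2) hS h hl.pos h0 h1 (fun x => ∀ z ∈ T, Γ.zr x z)
      (fun x => (∀ z ∈ T, Γ.zr x z) ∧ (l : ℤ) ∣ (c.gam Γ x).norm)
      (fun x v hx z hz => (zr_sh h x v (h2 z hz)).1 (hx.1 z hz)) fun x s hs =>
        two hl (fun e => (hp.dvd_or_dvd e).elim (unit h hc hl hW (Γ.m - 1)) h3) (c.bet Γ x).re
          (c.A * (c.bet Γ x).im ^ 2) s fun v hv => ⟨(hs v hv).1, by
            have := to_bet hA h hc hl hW 1 (by rw [pow_one]; exact (hs v hv).2.2)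
            rwa [pow_one, nrm_sh h] at this⟩
    have l2 : (2 : ℝ) ≤ l := by exact_mod_cast hl.two_le
    have a1 : (2 : ℝ) / l ≤ 1 := (div_le_one (by linarith)).2 l2
    have a2 := mul_le_mul_of_nonneg_left hE (show (0 : ℝ) ≤ 2 / l by positivity)
    have a3 : (nT T : ℝ) ≤ nT T * l := le_mul_of_one_le_right (by linarith) (by linarith)
    have a4 : (nT T : ℝ) ^ 2 ≤ (nT T * l) ^ 2 := pow_le_pow_left₀ (by linarith) a3 2
    have a5 : (l : ℝ) * nT T ≤ (nT T * l) ^ 2 := by nlinarith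
    have a6 := mul_le_of_le_one_left (show 0 ≤ 16 * (T.card * (nT T : ℝ) ^ 2) * D by positivity) a1
    have a7 := mul_le_mul_of_nonneg_right (mul_le_mul_of_nonneg_left a4 k0) D0
    have a8 := mul_le_mul_of_nonneg_right a5 D0
    have a9 : 0 ≤ T.card * ((nT T : ℝ) * l) ^ 2 * D := by positivity
    have a10 : 0 ≤ ((nT T : ℝ) * l) ^ 2 * D := by positivity
    rw [eD, Nat.cast_ofNat] at e
    rw [mul_assoc (64 * _), eD]
    linarith
  · obtain ⟨⟨hl, p2, ht, y0, y1, hf⟩, hW⟩ := hV z0 hz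
    have hp := Nat.prime_iff_prime_int.1 hl
    have hcj : ((z0.cj.y : ℕ) : ℤ) = z0.p - z0.y := Nat.cast_sub y1.le
    have e1 := hP Γ (z0.cj ::ₘ T) h (Multiset.nodup_cons.2 ⟨fun hm => by
        have e := congrArg Pt.y (Multiset.inj_on_of_nodup_map hT _ hm _ hz rfl)
        simp only [Pt.cj] at e
        exact p2 ((Nat.prime_dvd_prime_iff_eq Nat.prime_two hl).1 ⟨z0.y, by omega⟩).symm,
        Multiset.Nodup.of_map _ hT⟩) (fun z hz' => by
        rcases Multiset.mem_cons.1 hz' with rfl | h5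
        · refine ⟨⟨hl, p2, ht, Nat.sub_pos_of_lt y1, Nat.sub_lt hl.pos y0, ?_⟩, hW⟩
          rw [hcj]
          simp only [Pt.cj]
          exact (dvd_add hf (dvd_mul_right _ ((z0.p : ℤ) - 2 * z0.y))).trans (dvd_of_eq (by ring))
        · exact hV z h5) fun p => by
        rw [Multiset.map_cons, Multiset.count_cons]
        have := hc1 p
        split_ifs <;> omega
    obtain ⟨n', hn⟩ := dvd_nT hz
    have hn' : ¬(z0.p : ℤ) ∣ n' := by
      obtain ⟨T0, rfl⟩ := Multiset.exists_cons_of_mem hz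
      rw [Nd, Multiset.map_cons, Multiset.nodup_cons] at hT
      rw [nT_cons] at hn
      rw [← Nat.eq_of_mul_eq_mul_left hl.pos hn]
      exact not_dvd (fun w hw => hpr w (Multiset.mem_cons_of_mem hw)) hl
        fun w hw e3 => hT.1 (Multiset.mem_map.2 ⟨w, hw, e3⟩)
    have h2 : ∀ z ∈ T, ∀ t : ℤ, (z.p : ℤ) ∣ nT T + 0 * t := fun z hz t => by
      simpa using Int.natCast_dvd_natCast.2 (dvd_nT hz)
    have e2 := cond (r := 1) (u0 := nT T) (u1 := 0) hS h hl.pos (Nat.abs_cast _).le (by simp)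
      (fun x => ∀ z ∈ T, Γ.zr x z)
      (fun x => (∀ z ∈ T, Γ.zr x z) ∧ ¬Γ.zr x z0.cj ∧ (z0.p : ℤ) ^ 2 ∣ (c.gam Γ x).norm)
      (fun x v hx z hz => (zr_sh h x v (h2 z hz _)).1 (hx.1 z hz)) fun x s hs =>
        one (U := Γ.W' * (c.k ^ 2) ^ Γ.m * n') (R := (c.bet Γ x).re) hl
          (fun e => (hp.dvd_or_dvd e).elim (unit h hc hl hW Γ.m) hn')
          (c.A * (c.bet Γ x).im ^ 2) s fun v hw => by
            obtain ⟨h3, h4, h5, h6⟩ := hs v hw
            refine ⟨h3, fun e => h5 ((zr_sh h x v (z := z0.cj) (h2 z0 hz _)).2 ?_), ?_⟩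
            · have b1 : (z0.p : ℤ) ∣ (c.bet Γ x).re := (hp.dvd_or_dvd e).resolve_left fun e =>
                p2 ((Nat.prime_dvd_prime_iff_eq hl Nat.prime_two).1 (by exact_mod_cast e))
              have b2 := dvd_add (hv_cong (hA Γ c h hc x).1.2.1 hon) b1
              rw [show (c.bet Γ x).re = hv (Γ.gA x) Γ.m c.a (c.k ^ 2) from rfl,
                sub_add_cancel] at b2
              have b3 := (hp.dvd_or_dvd b2).resolve_left fun e =>
                unit h hc hl hW Γ.m (e.mul_left _)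
              have b4 : Zr _ _ z0 := (zr_sh h x v (h2 z0 hz _)).1 (h4 z0 hz)
              rw [Gf.zr, Zr, hcj]
              simp only [Pt.cj]
              exact (dvd_add (dvd_sub (b3.mul_left 2) b4)
                (dvd_mul_right _ ((Γ.gB x).eval (z0.t : ℤ)))).trans (dvd_of_eq (by ring))
            · have := to_bet hA h hc hl hW 2 h6
              rw [nrm_sh h, hn] at this
              refine this.trans (dvd_of_eq ?_)
              rw [← pow_sub_one_mul (show Γ.m ≠ 0 by have := h.five; omega) (c.k ^ 2)]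
              push_cast
              ring
    have e3 : Γ.E (fun x => ind ((∀ z ∈ T, Γ.zr x z) ∧ (z0.p : ℤ) ^ 2 ∣ (c.gam Γ x).norm)) ≤
        Γ.E (fun x => ind (∀ z ∈ z0.cj ::ₘ T, Γ.zr x z)) + Γ.E fun x =>
          ind ((∀ z ∈ T, Γ.zr x z) ∧ ¬Γ.zr x z0.cj ∧ (z0.p : ℤ) ^ 2 ∣ (c.gam Γ x).norm) := by
      rw [← E_add]
      refine E_mono fun x => ?_
      have i0 : ∀ p : Prop, 0 ≤ ind p := fun p => by unfold ind; split_ifs <;> simp
      by_cases hx : Γ.zr x z0.cj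
      · exact le_add_of_le_of_nonneg (ind_le fun e => Multiset.forall_mem_cons.2 ⟨hx, e.1⟩) (i0 _)
      · exact le_add_of_nonneg_of_le (i0 _) (ind_le fun e => ⟨e.1, hx, e.2⟩)
    have l1 : (1 : ℝ) ≤ z0.p := by exact_mod_cast hl.pos
    have l2 : (z0.p : ℝ) ≤ nT T := by exact_mod_cast Nat.le_of_dvd (nT_pos hpr) (dvd_nT hz)
    have e4 : PT (z0.cj ::ₘ T) = 1 / z0.p * PT T := by
      rw [PT, PT, nT_cons, one_div_mul_one_div, Nat.cast_mul]
      rfl
    have a1 : (1 : ℝ) / z0.p ≤ 1 := (div_le_one (by linarith)).2 l1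
    have a2 := mul_le_mul_of_nonneg_left hE (show (0 : ℝ) ≤ 1 / z0.p by positivity)
    have a3 : (z0.p : ℝ) * nT T ≤ nT T ^ 2 := by nlinarith
    have a4 : (nT T : ℝ) ^ 2 ≤ nT T ^ 4 := pow_le_pow_right₀ n1 (by norm_num)
    have a5 : ((z0.p : ℝ) * nT T) ^ 2 ≤ nT T ^ 4 :=
      (pow_le_pow_left₀ (by positivity) a3 2).trans_eq (by ring)
    have a6 := mul_le_of_le_one_left (show 0 ≤ 16 * (T.card * (nT T : ℝ) ^ 2) * D by positivity) a1
    have a7 := mul_le_mul_of_nonneg_right (mul_le_mul_of_nonneg_left a4 k0) D0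
    have a8 := mul_le_mul_of_nonneg_right (a3.trans a4) D0
    have a9 := mul_le_mul_of_nonneg_right (mul_le_mul_of_nonneg_left a5
      (show (0 : ℝ) ≤ T.card + 1 by linarith)) D0
    have a10 : 0 ≤ T.card * (nT T : ℝ) ^ 4 * D := by positivity
    have a11 : 0 ≤ (nT T : ℝ) ^ 4 * D := by positivity
    rw [e4, mul_assoc (16 * _), eD, Multiset.card_cons, nT_cons, show z0.cj.p = z0.p from rfl]
      at e1
    rw [eD, Nat.cast_one] at e2
    push_cast at e1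
    rw [mul_assoc (64 * _), eD, show (2 : ℝ) / z0.p = 2 * (1 / z0.p) by ring]
    linarith

end Pool.Agent.MP_f3836a_nt.VE
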