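import Pool.Agent.MP_f3836a_nt.VE.SpecE1

/-! The test of Schur and the large sieve. -/

set_option autoImplicit false

namespace Pool.Agent.MP_f3836a_nt.VE

open Finset

namespace ESchur

theorem expand {ι κ : Type} (I : Finset ι) (N : Finset κ) (X : ι → κ → ℝ) (c : ι → ℝ) :
    ∑ n ∈ N, (∑ i ∈ I, c i * X i n) ^ 2 =
      ∑ i ∈ I, ∑ i' ∈ I, c i * c i' * ∑ n ∈ N, X i n * X i' n := by
  simp only [sq, sum_mul_sum]
  rw [sum_comm]
  refine sum_congr rfl fun i _ => ?_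
  rw [sum_comm]
  refine sum_congr rfl fun i' _ => ?_
  rw [mul_sum]
  exact sum_congr rfl fun n _ => by ring

theorem quad {ι κ : Type} {I : Finset ι} {N : Finset κ} {X : ι → κ → ℝ} {μ : ι → ℝ} {δ : ℝ}
    (h0 : ∀ i ∈ I, 0 ≤ μ i) (h : ∀ i ∈ I, ∑ i' ∈ I, μ i' * |∑ n ∈ N, X i n * X i' n| ≤ δ)
    (t : ι → ℝ) : ∑ n ∈ N, (∑ i ∈ I, μ i * t i * X i n) ^ 2 ≤ δ * ∑ i ∈ I, μ i * t i ^ 2 := by
  have e : ∑ i ∈ I, ∑ i' ∈ I, μ i * t i ^ 2 * (μ i' * |∑ n ∈ N, X i n * X i' n|)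
      ≤ δ * ∑ i ∈ I, μ i * t i ^ 2 := by
    rw [mul_comm, sum_mul]
    refine sum_le_sum fun i hi => ?_
    rw [← mul_sum]
    exact mul_le_mul_of_nonneg_left (h i hi) (mul_nonneg (h0 i hi) (sq_nonneg _))
  have e' := e
  rw [sum_comm] at e'
  rw [expand]
  refine le_of_mul_le_mul_left (le_trans ?_ ((add_le_add e e').trans_eq (two_mul _).symm)) two_pos
  rw [← sum_add_distrib, mul_sum]
  refine sum_le_sum fun i hi => ?_
  rw [← sum_add_distrib, mul_sum]
  refine sum_le_sum fun j hj => ?_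
  rw [show ∑ n ∈ N, X j n * X i n = ∑ n ∈ N, X i n * X j n from sum_congr rfl fun _ _ => mul_comm _ _]
  generalize ∑ n ∈ N, X i n * X j n = G
  have m := mul_nonneg (h0 i hi) (h0 j hj)
  rcases abs_cases G with ⟨u, v⟩ | ⟨u, v⟩ <;> rw [u]
  · linarith [mul_nonneg (mul_nonneg m v) (sq_nonneg (t i - t j))]
  · linarith [mul_nonneg (mul_nonneg m (neg_nonneg.2 v.le)) (sq_nonneg (t i + t j))]

theorem sum_Xz (b : ℤ) (z : Pt) (S : Finset ℤ) :
    ∑ a ∈ S, Xz b z a = z.p * ((lk S b {z}).card : ℝ) - S.card := by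
  simp only [Xz, sum_sub_distrib, ← mul_sum, ind, sum_boole, sum_const, nsmul_eq_mul, mul_one]
  congr 4
  ext a
  simp [lk]

end ESchur

open ESchur

theorem rSchur : SchurS := by
  intro ι κ I N X μ δ d0 h0 h
  refine ⟨fun c hc => ?_, fun S hS => ?_⟩
  · rw [expand, mul_comm, sum_mul]
    refine sum_le_sum fun i hi => le_trans ?_ (mul_le_mul_of_nonneg_left (h i hi) (abs_nonneg _))
    rw [mul_sum]
    refine sum_le_sum fun j hj => (le_abs_self _).trans ?_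
    rw [abs_mul, abs_mul, mul_assoc]
    exact mul_le_mul_of_nonneg_left (mul_le_mul_of_nonneg_right (hc j hj) (abs_nonneg _))
      (abs_nonneg _)
  · have e := quad h0 h fun i => ∑ n ∈ S, X i n
    have e1 : ∑ i ∈ I, μ i * (∑ n ∈ S, X i n) ^ 2 =
        ∑ m ∈ S, ∑ i ∈ I, μ i * (∑ n ∈ S, X i n) * X i m := by
      rw [sum_comm]
      exact sum_congr rfl fun i _ => by rw [← mul_sum, sq, mul_assoc]
    have e2 := (sq_sum_le_card_mul_sum_sq (s := S)
      (f := fun m => ∑ i ∈ I, μ i * (∑ n ∈ S, X i n) * X i m)).trans (mul_le_mul_of_nonneg_left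
        ((sum_le_sum_of_subset_of_nonneg hS fun _ _ _ => sq_nonneg _).trans e) (Nat.cast_nonneg _))
    rw [← e1] at e2
    by_contra u
    have v : 0 ≤ δ * S.card := mul_nonneg d0 (Nat.cast_nonneg _)
    nlinarith [not_le.1 u]

theorem rLsv : OfLsv := by
  intro hC hS hL hSch hG f t0 W k Y sc Y10
  obtain ⟨-, -, L0, -, -, hp, -, -, hn, -⟩ := hS W k Y sc
  have Y0 : 0 < Y := by linarith
  replace L0 : 0 < Lc W k := lt_of_lt_of_le (by positivity) L0
  have cd := (hC.1 t0 W k (by linarith [sc.two]) sc.dvd).1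
  have s0 : ∀ z ∈ Pts f Y (Y ^ 2), 0 ≤ sg Y z := fun z hz => (hn f z hz).2.2.2.1.le
  have pr : ∀ z ∈ Pts f Y (Y ^ 2), z.p.Prime := fun z hz => (mem_Pts.1 hz).1.1
  have lnk : ∀ z ∈ Pts f Y (Y ^ 2),
      z.p * ((lk (HH0 t0 W k) ((k : ℤ) ^ 2) {z}).card : ℝ) ≤ 2 * Lc W k := fun z hz => by
    obtain ⟨-, a, b⟩ := mem_Pts.1 hz
    have p0 : (0 : ℝ) < z.p := by linarith
    have := (hL t0 ((k : ℤ) ^ 2) W k Y {z} sc (by simp [Nd])
      (by simpa using ⟨pr z hz, (hp _ (pr z hz) a).1⟩) (by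
        simpa [nT] using b.le.trans (pow_le_pow_right₀ (by linarith) (by norm_num)))).2
    rw [show PT {z} = 1 / z.p by simp [PT, nT], mul_one_div, ← mul_div_assoc, le_div_iff₀' p0] at this
    exact this
  obtain ⟨a1, a2⟩ := hSch (Pts f Y (Y ^ 2)) (HH0 t0 W k) (Xz ((k : ℤ) ^ 2)) (sg Y) (20 * Lc W k / Y)
    (by positivity) s0 fun z hz => by
      have := hG f t0 W k Y 1 0 sc Y10 one_pos (by simp) (by push_cast; nlinarith) z hz
        (pr z hz).not_dvd_one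
      rwa [filter_true_of_mem fun z hz => (pr z hz).not_dvd_one,
        filter_true_of_mem fun a _ => by simp, Nat.cast_one, one_mul] at this
  refine ⟨⟨fun S hS => ?_, fun z0 h0 S hS on => ?_, cd.le, lnk⟩, a1⟩
  · have := a2 S hS
    have c : (S.card : ℝ) ≤ Lc W k := cd ▸ Nat.cast_le.2 (card_le_card hS)
    simp only [sum_Xz] at this
    simp only [div_pow, ← mul_div_assoc, ← sum_div]
    rw [div_le_iff₀ (by positivity)]
    refine this.trans ((mul_le_mul_of_nonneg_left c (by positivity)).trans ?_)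
    have : 0 ≤ Lc W k ^ 2 / Y := by positivity
    linarith [show 20 * Lc W k / Y * Lc W k = 20 * (Lc W k ^ 2 / Y) by ring,
      show 40 / Y * Lc W k ^ 2 = 40 * (Lc W k ^ 2 / Y) by ring]
  · obtain ⟨-, a, b⟩ := mem_Pts.1 h0
    have p0 : (0 : ℝ) < z0.p := by linarith
    have e : (Pts f Y (Y ^ 2)).filter (fun z => ¬z.p ∣ z0.p) =
        (Pts f Y (Y ^ 2)).filter fun z => z.p ≠ z0.p :=
      filter_congr fun z hz => (Nat.prime_dvd_prime_iff_eq (pr z hz) (pr z0 h0)).not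
    have := (hSch ((Pts f Y (Y ^ 2)).filter fun z => ¬z.p ∣ z0.p)
      ((HH0 t0 W k).filter fun a => (z0.p : ℤ) ∣ a - (k : ℤ) ^ 2 * z0.t) (Xz ((k : ℤ) ^ 2)) (sg Y)
      (20 * Lc W k / (z0.p * Y)) (by positivity) (fun z hz => s0 z (mem_filter.1 hz).1)
      fun z hz => hG f t0 W k Y z0.p _ sc Y10 (pr z0 h0).pos (hp _ (pr z0 h0) a).2.2 b.le z
        (mem_filter.1 hz).1 (mem_filter.1 hz).2).2 S
      fun a ha => mem_filter.2 ⟨hS ha, dvd_sub_comm.1 (on a ha)⟩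
    have c : (S.card : ℝ) ≤ 2 * Lc W k / z0.p := by
      rw [le_div_iff₀' p0]
      refine le_trans (mul_le_mul_of_nonneg_left (Nat.cast_le.2 (card_le_card fun a ha => ?_)) p0.le)
        (lnk z0 h0)
      simp only [lk, mem_filter, Multiset.mem_singleton, forall_eq]
      exact ⟨hS ha, on a ha⟩
    simp only [sum_Xz, e] at this
    simp only [div_pow, mul_pow, ← mul_div_assoc, ← sum_div, mul_left_comm (sg Y _), ← mul_sum]
    rw [div_le_iff₀ (by positivity)]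
    refine (mul_le_mul_of_nonneg_left
      (this.trans (mul_le_mul_of_nonneg_left c (by positivity))) (sq_nonneg _)).trans_eq ?_
    field_simp
    norm_num

end Pool.Agent.MP_f3836a_nt.VE
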