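import Pool.Agent.MP_f3836a_nt.VE.FBase

/-! The bilinear bound over curves. -/

set_option autoImplicit false

namespace Pool.Agent.MP_f3836a_nt.VE.F

open Finset

theorem bil0_schur {H : Type} [Fintype H] (r a : H → ℝ) (K D : H → H → ℝ) (hr : ∀ h, 0 ≤ r h)
    (hK : ∀ h h', K h h' = K h' h) (hD : ∀ h h', r h ≠ 0 → r h' ≠ 0 → |K h h'| ≤ D h h') :
    ∑ h, ∑ h', r h * a h * (r h' * a h') * K h h' ≤ ∑ h, r h * a h ^ 2 * ∑ h', r h' * D h h' := by
  have h1 : ∑ h, ∑ h', r h * a h * (r h' * a h') * K h h' ≤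
      ∑ h, ∑ h', (r h * a h ^ 2 * (r h' * D h h') + r h' * a h' ^ 2 * (r h * D h' h)) / 2 := by
    refine sum_le_sum fun h _ => sum_le_sum fun h' _ => ?_
    by_cases e : r h = 0
    · simp [e]
    by_cases e' : r h' = 0
    · simp [e']
    have d1 := hD h h' e e'
    have d2 := hK h' h ▸ hD h' h e' e
    have d3 : a h * a h' * K h h' ≤ (a h ^ 2 * D h h' + a h' ^ 2 * D h' h) / 2 := by
      have := mul_le_mul_of_nonneg_left d1 (sq_nonneg (a h))
      have := mul_le_mul_of_nonneg_left d2 (sq_nonneg (a h'))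
      rcases abs_cases (K h h') with ⟨k, k'⟩ | ⟨k, k'⟩
      · nlinarith [mul_nonneg k' (sq_nonneg (a h - a h'))]
      · nlinarith [mul_nonneg (neg_pos.2 k').le (sq_nonneg (a h + a h'))]
    nlinarith [mul_le_mul_of_nonneg_left d3 (mul_nonneg (hr h) (hr h'))]
  refine h1.trans_eq ?_
  simp only [← sum_div, sum_add_distrib]
  rw [sum_comm (f := fun h h' => r h' * a h' ^ 2 * (r h * D h' h))]
  simp only [← mul_sum]
  ring

theorem rBil0 : OfBil0 := by
  refine ⟨4, fun {G H Cl} _ _ S hS T j r a B hn hT hr had h0 => ?_⟩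
  classical
  have hP := PT_nonneg T
  have hσ := hS.sig_pos
  have hΛ := hS.num.1
  have hY := hS.num.2.1
  have hθ := sq_nonneg S.θ
  set K : H → H → ℝ := fun h h' => S.E (fun g => S.Y (some h) T j g * S.Y (some h') T j g) -
    PT T * (S.fm (some h) T j * S.fm (some h') T j) with hK
  set D : H → H → ℝ := fun h h' => S.Λ ^ 2 * PT T * (S.θ ^ 2 * ind (S.Lk T h') +
    ind (S.Lk T h' ∧ some h' ≠ some h) * ((1 + S.et (some h) (some h')) ^ 3 - 1)) +
    if h' = h then 3 * S.Ym ^ 2 * PT T else 0 with hD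
  have het : ∀ c c', 3 * S.et c c' ≤ (1 + S.et c c') ^ 3 - 1 := fun c c' => by
    have := hS.eta c c'
    nlinarith [mul_nonneg this this, mul_nonneg this (mul_nonneg this this)]
  have hA : ∀ h h', 0 ≤ S.Λ ^ 2 * PT T * (S.θ ^ 2 * ind (S.Lk T h') +
      ind (S.Lk T h' ∧ some h' ≠ some h) * ((1 + S.et (some h) (some h')) ^ 3 - 1)) := fun h h' =>
    mul_nonneg (by positivity) (add_nonneg (mul_nonneg hθ (ind_nonneg _))
      (mul_nonneg (ind_nonneg _) (by linarith [het (some h) (some h'), hS.eta (some h) (some h')])))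
  have hD0 : ∀ h h', 0 ≤ D h h' := fun h h' =>
    add_nonneg (hA h h') (by split_ifs <;> positivity)
  have hKD : ∀ h h', r h ≠ 0 → r h' ≠ 0 → |K h h'| ≤ D h h' := fun h h' e e' => by
    have a1 := had h e
    have a2 := had h' e'
    have f0 := mul_pos (hS.fm_pos a1) (hS.fm_pos a2)
    have f1 : S.fm (some h) T j * S.fm (some h') T j ≤ S.Λ ^ 2 := by
      rw [sq]
      exact mul_le_mul (hS.fm_le a1) (hS.fm_le a2) (hS.fm_pos a2).le (by linarith)
    have f2 := mul_le_mul_of_nonneg_left f1 hP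
    have f3 := mul_nonneg hP f0.le
    have eI : S.E (fun g => S.Y (some h) T j g * S.Y (some h') T j g) =
        S.E fun g => S.I T g * (S.Y (some h) T j g * S.Y (some h') T j g) :=
      S.E_congr fun g hg => by rw [← mul_assoc, hS.I_Y hg a1 hT]
    by_cases hh : h' = h
    · have b1 : S.E (fun g => S.Y (some h) T j g * S.Y (some h') T j g) ≤
          S.E fun g => S.Ym ^ 2 * S.I T g := by
        rw [eI]
        refine S.E_mono fun g hg => ?_
        rw [mul_comm, sq]
        exact mul_le_mul_of_nonneg_right (mul_le_mul (hS.Y_le hg a1) (hS.Y_le hg a2)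
          (hS.Y_nonneg _ _ _ _) (by linarith)) (S.I_nonneg _ _)
      have b2 := S.E_nonneg (F := fun g => S.Y (some h) T j g * S.Y (some h') T j g) fun g _ =>
        mul_nonneg (hS.Y_nonneg _ _ _ _) (hS.Y_nonneg _ _ _ _)
      rw [S.E_mul] at b1
      have b3 := mul_le_mul_of_nonneg_left (hS.tb1 hn hT) (sq_nonneg S.Ym)
      have b4 := mul_le_mul_of_nonneg_left (pow_le_pow_left₀ (by linarith) hY 2) hP
      have b5 := hA h h'
      simp only [hK, hD, if_pos hh]
      rw [abs_le]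
      constructor <;> nlinarith
    · have l : S.Lk T h' := (hS.ad0 _ _ _ a2).1
      have ne : some h' ≠ some h := fun x => hh (Option.some.inj x)
      have b := hS.eq2 hn hT ne.symm (S.Cf_self a1) (S.Cf_self a2)
      simp only [hK, hD, if_neg hh, ind_pos l, ind_pos (⟨l, ne⟩ : S.Lk T h' ∧ some h' ≠ some h)]
      rw [eI]
      refine b.trans ?_
      have c1 := hS.eta (some h) (some h')
      have c2 := het (some h) (some h')
      have c3 : S.θ ^ 2 * S.et (some h) (some h') ≤ 1 * S.et (some h) (some h') :=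
        mul_le_mul_of_nonneg_right (hS.th_sq.trans hS.th_le) c1
      rw [add_zero, mul_comm (S.Λ ^ 2 * PT T), mul_comm (S.Λ ^ 2)]
      exact mul_le_mul (by linarith) f2 f3 (by linarith)
  have hrow : ∀ h, r h ≠ 0 →
      S.σ * ∑ h', r h' * D h h' ≤ B * S.Λ ^ 4 * S.θ ^ 2 * PT T ^ 2 := fun h e => by
    have hB : 0 ≤ B := (hr h).1.trans (hr h).2
    have b1 : ∑ h', r h' * D h h' ≤ B * ∑ h', D h h' := by
      rw [mul_sum]
      exact sum_le_sum fun h' _ => mul_le_mul_of_nonneg_right (hr h').2 (hD0 h h')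
    have b2 := hS.lk T hn hT
    have b3 := hS.row (some h) T j T (had h e) hn hT fun z hz => Or.inl hz
    have b4 : S.σ * S.Ym ^ 2 ≤ S.θ ^ 2 * PT T :=
      (mul_le_mul_of_nonneg_left (pow_le_pow_right₀ hS.ym_one (by omega)) hσ.le).trans (hS.atom' hT)
    have b5 : S.σ * ∑ h', D h h' ≤ S.Λ ^ 4 * S.θ ^ 2 * PT T ^ 2 := by
      simp only [hD, sum_add_distrib, ← mul_sum, sum_ite_eq', mem_univ, if_true]
      have c1 := mul_le_mul_of_nonneg_left b2 (by positivity : 0 ≤ S.Λ ^ 2 * PT T * S.θ ^ 2)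
      have c2 := mul_le_mul_of_nonneg_left b3 (by positivity : 0 ≤ S.Λ ^ 2 * PT T)
      have c3 := mul_le_mul_of_nonneg_left b4 (by positivity : 0 ≤ 3 * PT T)
      have c4 : S.Λ ^ 3 + S.Λ ^ 2 + 3 ≤ S.Λ ^ 4 := by
        have : 0 ≤ S.Λ ^ 2 := by positivity
        nlinarith [mul_le_mul_of_nonneg_left hΛ this, mul_le_mul_of_nonneg_left hΛ
          (by positivity : 0 ≤ S.Λ ^ 3)]
      have c5 := mul_le_mul_of_nonneg_right c4 (by positivity : 0 ≤ S.θ ^ 2 * PT T ^ 2)
      linarith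
    have b6 := mul_le_mul_of_nonneg_left b1 hσ.le
    have b7 := mul_le_mul_of_nonneg_left b5 hB
    linarith
  have e1 : S.E (fun g => (S.σ * ∑ h, r h * a h * S.Y (some h) T j g) ^ 2) =
      S.σ ^ 2 * ∑ h, ∑ h', r h * a h * (r h' * a h') * K h h' := by
    have e2 : ∑ h, ∑ h', r h * a h * (r h' * a h') *
        (PT T * (S.fm (some h) T j * S.fm (some h') T j)) = 0 := by
      rw [← mul_zero (PT T * 0), ← h0, mul_assoc, h0, ← h0, sum_mul_sum, mul_sum]
      refine sum_congr rfl fun h _ => ?_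
      rw [mul_sum]
      exact sum_congr rfl fun h' _ => by ring
    simp only [hK, mul_sub, sum_sub_distrib, e2, sub_zero, ← S.E_mul, ← S.E_sum]
    refine S.E_congr fun g _ => ?_
    rw [mul_pow, sq (∑ h, _), sum_mul_sum]
    congr 1
    exact sum_congr rfl fun h _ => sum_congr rfl fun h' _ => by ring
  rw [e1]
  refine (mul_le_mul_of_nonneg_left (bil0_schur r a K D (fun h => (hr h).1) (fun h h' => by
    simp only [hK, mul_comm]) hKD) (sq_nonneg _)).trans ?_
  have e3 : S.σ * ∑ h, r h * a h ^ 2 * ∑ h', r h' * D h h' ≤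
      B * S.Λ ^ 4 * S.θ ^ 2 * PT T ^ 2 * ∑ h, r h * a h ^ 2 := by
    rw [mul_sum, mul_sum]
    refine sum_le_sum fun h _ => ?_
    by_cases e : r h = 0
    · simp [e]
    · rw [mul_left_comm, mul_comm _ (r h * a h ^ 2)]
      exact mul_le_mul_of_nonneg_left (hrow h e) (mul_nonneg (hr h).1 (sq_nonneg _))
  linarith [mul_le_mul_of_nonneg_left e3 hσ.le]

end Pool.Agent.MP_f3836a_nt.VE.F
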