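import Pool.Agent.MP_f3836a_nt.VE.FBase

set_option autoImplicit false

namespace Pool.Agent.MP_f3836a_nt.VE.F

open Finset

theorem lnk_sum {ι : Type} (s : Finset ι) (p : ι → Prop) [DecidablePred p] (F : ι → ℝ) :
    ∑ z ∈ s.filter p, F z = ∑ z ∈ s, ind (p z) * F z := by
  rw [sum_filter]
  exact sum_congr rfl fun z _ => by by_cases h : p z <;> simp [ind, h]

theorem rLnk : OfLnk := by
  intro hM hB A1 A2 hA hG
  refine ⟨A1 * A2, @fun G H Cl _ _ S hS e hP g hg hgd α => ?_⟩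
  classical
  obtain ⟨m1, m2, m3, m4, m5, m6⟩ := hM S hS g hg α
  have hK : 0 < S.K := Nat.pos_of_mul_pos_right hS.U_pos
  have hr : 0 < S.r := Nat.pos_of_mul_pos_left hS.U_pos
  have md := hA S.K S.r S.k S.v S.Λ hS.num.1 hK hS.cel.1 hS.nat.1 hS.nat.2.1 hS.mdl
  have L1 : (1 : ℝ) ≤ S.Λ ^ A1 := one_le_pow₀ hS.one_le
  have L2 : S.Λ ≤ S.Λ ^ A1 := le_self_pow₀ hS.one_le fun h => by
    have := md.big
    rw [h] at this
    norm_num at this
  have hη := hS.num.2.2.2.2.2.2.1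
  have hl := hS.num.2.2.2.2.2.2.2
  have K0 : (0 : ℝ) < S.K := by exact_mod_cast hK
  have K2 : 2 / (S.K : ℝ) ≤ S.η := (div_le_iff₀ K0).2 hS.cel.2.1
  have K1 : 1 / (S.K : ℝ) ≤ S.η := le_trans (by gcongr; norm_num) K2
  set ZZ := S.P1.filter (S.zr g) with hZ
  have hz : ∀ z ∈ ZZ, z ∈ S.P1 := fun z h => (mem_filter.1 h).1
  have gt : Gt (S.mo g) S.Zo (fun ω => S.cell ω.1) ZZ S.n0 S.f1 S.f2 S.d S.K (G1 S.K S.r S.k S.v)
      (G2 S.K S.r S.k S.v) S.mc (S.dev1 g) (S.Λ ^ A1) S.η e :=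
    { md := md
      tp := ⟨m5, fun ω h i => mem_filter.2 ⟨((m6 ω h).1 i).1, ((m6 ω h).1 i).2.1⟩, hS.mc0.1,
        hS.mc0.2⟩
      pos := fun z h => hS.n0_pos (hz z h)
      lt := fun z h => hS.d_lt (hz z h)
      c1 := fun z _ => ⟨(hS.f1_bd z).1, (hS.f1_bd z).2.trans L1,
        (hB S.K S.r S.k S.v (S.u z) 0 hK hr hS.nat.1).1.trans K1⟩
      c2 := fun z _ z' _ => ⟨(hS.f2_bd z z').1, (hS.f2_bd z z').2.trans L1,
        (hB S.K S.r S.k S.v (S.u z) (S.u z') hK hr hS.nat.1).2.trans K2⟩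
      dv := fun i j hij z h => by
        refine add_le_add (by simp only [m1 i z (hz z h)]; exact le_rfl) ?_
        rw [sum_congr rfl fun z' h' => by rw [m2 i j hij z (hz z h) z' (hz z' h')], lnk_sum]
        exact le_rfl
      tot := (lnk_sum _ _ _).trans_le hgd.1
      eq := by simp only [hZ, lnk_sum]; exact hgd.2
      sm := ⟨hP.1, (hS.par_small hP).2.1, hη.le⟩ }
  obtain ⟨c1, c2⟩ := hG _ _ _ _ _ _ _ _ _ _ _ _ _ _ _ _ (fun z => S.φ g z - α z)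
    (fun z => Real.log z.p) (S.SZ α g) (S.SC α g) (S.Fo α) (fun ω => S.ua g (some ω.1))
    (fun ω => S.la g ω.1) S.L1 (S.lam * S.r) S.M (∀ c, S.ua g c = 0) gt hS.cel.2.2.1 hS.cel.2.2.2
    (by rw [← pow_mul]; exact hP.2.1) (by rw [← pow_mul]; exact hP.2.2.1) (by positivity)
    (fun z h => by
      have a1 := abs_le.1 (hS.p1 z (hz z h)).2.2.2.2.2.2
      have a2 : (S.u z : ℝ) = S.r * S.d z + (S.u z % S.r : ℕ) := by
        exact_mod_cast (Nat.div_add_mod _ _).symm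
      have a3 : ((S.u z % S.r : ℕ) : ℝ) + 1 ≤ S.r := by exact_mod_cast Nat.mod_lt _ hr
      have a4 := mul_le_mul_of_nonneg_left a3 hl.le
      have a5 := mul_nonneg hl.le (S.u z % S.r).cast_nonneg
      rw [a2] at a1
      exact abs_le.2 ⟨by linarith [a1.1], by linarith [a1.2]⟩)
    (fun ω h => (m6 ω h).2)
    (fun s => by
      obtain ⟨R, U, a1, a2, a3, a4, a5⟩ := hS.arh g hg s
      refine ⟨R, U, a1, fun ω => a2 ω.1, a3, fun x => (a4 x).trans (mul_le_mul_of_nonneg_right L2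
        (sum_nonneg fun c _ => mul_nonneg (hS.mc0.1 c) (sq_nonneg _))), fun h => ?_⟩
      obtain ⟨h0⟩ := hS.nonempty
      exact ⟨(a5 h).1, (a5 h).2, S.cell h0, by simpa [h, (a5 h).1, (a5 h).2] using a2 h0⟩)
    (fun i z h => m3 i z (hz z h)) m4
  refine ⟨c1.trans ?_, fun h => ?_⟩
  · rw [← pow_mul]
    refine mul_le_mul_of_nonneg_left (add_le_add (add_le_add ?_ le_rfl) ?_)
      (pow_nonneg hS.lam_pos.le _)
    · exact sum_le_sum_of_subset_of_nonneg (filter_subset _ _) fun z h _ =>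
        div_nonneg (sq_nonneg _) (hS.n0_pos h).le
    · exact sum_le_sum fun ω _ => mul_le_mul_of_nonneg_right (mul_le_mul_of_nonneg_left
        (ind_mono fun ⟨i, h⟩ => ⟨i, Or.inr h⟩) (m5 ω)) (sq_nonneg _)
  · obtain ⟨a1, a2⟩ := c2 fun ω h0 => sum_eq_zero fun i _ =>
      sub_eq_zero.2 (h _ _ ((m6 ω h0).1 i).2.2)
    exact ⟨a1, fun z h1 h2 h3 => sub_eq_zero.1
      (a2 z (mem_filter.2 ⟨h1, h2⟩) (not_lt.1 fun h4 => h3 (Or.inr h4)))⟩

end Pool.Agent.MP_f3836a_nt.VE.F
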