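import Pool.Agent.MP_f3836a_nt.VE.FBase

/-! Row Low: a lower bound for the quadratic form of one curve. -/

set_option autoImplicit false

namespace Pool.Agent.MP_f3836a_nt.VE.F

open Finset

theorem low_lo {w q y z B Q : ℝ} (hw : 0 ≤ w) (h1 : |y - z| ≤ B) (h2 : |q| ≤ Q) :
    w * q * z - w * (Q * B) ≤ w * q * y := by
  have a : |q * (y - z)| ≤ Q * B := by
    rw [abs_mul]
    exact mul_le_mul h2 h1 (abs_nonneg _) ((abs_nonneg _).trans h2)
  linarith [mul_le_mul_of_nonneg_left (abs_le.1 a).1 hw]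

theorem low_sq {n : ℕ} (x0 : ℝ) (a : Fin (n + 2) → ℝ) : (x0 + ∑ i, a i) ^ 2 =
    ∑ i, ((x0 ^ 2 / (n + 2) + 2 * x0 * a i + a i ^ 2) + ∑ i' ∈ univ.erase i, a i * a i') := by
  have h : ∀ i, ∑ i' ∈ univ.erase i, a i * a i' = a i * ∑ i', a i' - a i ^ 2 := fun i => by
    rw [← mul_sum, sum_erase_eq_sub (mem_univ i)]
    ring
  simp only [h, sum_add_distrib, sum_sub_distrib, ← mul_sum, ← sum_mul, sum_const, card_univ,
    Fintype.card_fin, nsmul_eq_mul]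
  push_cast
  field_simp
  ring

theorem rLow : OfLow := by
  refine ⟨6, fun {G H Cl} _ _ S hS hθ c x0 a ha => ?_⟩
  have hΛ := hS.num.1
  have kΛ := hS.kk_le c
  have k0 : (0 : ℝ) ≤ S.kk c := Nat.cast_nonneg _
  have w0 : ∀ x ∈ S.St c, 0 ≤ S.w c x := fun x h => (hS.st c x h).2.2.1
  have nrm := hS.nrm c
  obtain ⟨A, hA⟩ : ∃ A, A = ∑ x ∈ S.St c, S.w c x * PT x * a x ^ 2 := ⟨_, rfl⟩
  have A0 : 0 ≤ A := hA ▸ sum_nonneg fun x h =>
    mul_nonneg (mul_nonneg (w0 x h) (PT_nonneg x)) (sq_nonneg _)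
  have bd : ∀ {T j}, Nd T → S.Sm 8 T → S.ad c T j →
      |S.E (S.Y c T j) - PT T * S.fm c T j| ≤ S.θ ^ 2 * S.Λ * PT T := fun {T j} h1 h2 h3 => by
    refine (hS.eq1_self h1 h2 h3).trans ?_
    rw [mul_assoc, mul_comm S.Λ]
    exact mul_le_mul_of_nonneg_left (mul_le_mul_of_nonneg_left (hS.fm_le h3) (PT_nonneg T))
      (sq_nonneg _)
  have T1 : (x0 ^ 2 / (S.kk c + 2) + A) / S.Λ - 2 * S.θ ^ 2 * S.Λ * (x0 ^ 2 + A) ≤
      ∑ x ∈ S.St c, S.w c x * (x0 ^ 2 / (S.kk c + 2) + 2 * x0 * a x + a x ^ 2) *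
        S.E (S.Y c x (S.kk c + 1)) := by
    have z := hS.sum_st_anti (c := c) (fun x => S.w c x * PT x * a x * S.fm c x (S.kk c + 1))
      fun x h => by
        rw [(hS.st c x h).2.2.2.2, PT_cj, ha x h, hS.fmp c _ x _ (map_cj_p x)]
        ring
    have u0 : 0 ≤ x0 ^ 2 / (S.kk c + 2) := by positivity
    have u1 : x0 ^ 2 / (S.kk c + 2) ≤ x0 ^ 2 := div_le_self (sq_nonneg _) (by linarith)
    generalize x0 ^ 2 / (S.kk c + 2) = u at u0 u1 ⊢
    refine le_trans (le_of_eq ?_) (sum_le_sum (f := fun x =>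
      (u / S.Λ - 2 * S.θ ^ 2 * S.Λ * x0 ^ 2) * (S.w c x * PT x) +
      (1 / S.Λ - 2 * S.θ ^ 2 * S.Λ) * (S.w c x * PT x * a x ^ 2) +
      2 * x0 * (S.w c x * PT x * a x * S.fm c x (S.kk c + 1))) fun x h => ?_)
    · simp only [sum_add_distrib, ← mul_sum, nrm, ← hA, z]
      ring
    · have b := low_lo (q := u + 2 * x0 * a x + a x ^ 2) (Q := 2 * (x0 ^ 2 + a x ^ 2)) (w0 x h)
        (bd (hS.st c x h).1 (hS.Sm_mono (by omega) (hS.st c x h).2.1) (hS.ad1 c x h))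
        (abs_le.2 ⟨by nlinarith [sq_nonneg (x0 + a x)], by nlinarith [sq_nonneg (x0 - a x)]⟩)
      have d := mul_le_mul_of_nonneg_left (hS.ad0 _ _ _ (hS.ad1 c x h)).2.1
        (mul_nonneg (mul_nonneg (w0 x h) (PT_nonneg x)) (add_nonneg u0 (sq_nonneg (a x))))
      rw [div_eq_mul_one_div u]
      linarith
  have T2 : -(S.θ ^ 2 * S.Λ * A) ≤ ∑ x ∈ S.St c, ∑ x' ∈ S.St c,
      S.w c x * S.w c x' * (a x * a x') * S.E (S.Y c (x + x') (S.kk c)) := by
    have z : ∀ x, ∑ x' ∈ S.St c, S.w c x * S.w c x' * (a x * a x') * (ind (Nd (x + x')) *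
        (PT (x + x') * S.fm c (x + x') (S.kk c))) = 0 := fun x => hS.sum_st_anti _ fun x' h => by
      rw [(hS.st c x' h).2.2.2.2, Nd_add_cj, PT_add, PT_add, PT_cj, ha x' h,
        hS.fmp c _ (x + x') _ (by simp only [Multiset.map_add, map_cj_p])]
      ring
    refine le_trans (le_of_eq ?_) (sum_le_sum fun x h => sum_le_sum (f := fun x' =>
      S.w c x * S.w c x' * (a x * a x') * (ind (Nd (x + x')) *
        (PT (x + x') * S.fm c (x + x') (S.kk c))) - S.θ ^ 2 * S.Λ / 2 *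
        (S.w c x * PT x * a x ^ 2 * (S.w c x' * PT x') +
          S.w c x * PT x * (S.w c x' * PT x' * a x' ^ 2))) fun x' h' => ?_)
    · simp only [sum_sub_distrib, z, sum_add_distrib, ← mul_sum, ← sum_mul, nrm, ← hA,
        sum_const_zero]
      ring
    · have b := low_lo (q := a x * a x') (Q := (a x ^ 2 + a x' ^ 2) / 2)
        (y := S.E (S.Y c (x + x') (S.kk c))) (B := S.θ ^ 2 * S.Λ * PT (x + x'))
        (z := ind (Nd (x + x')) * (PT (x + x') * S.fm c (x + x') (S.kk c)))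
        (mul_nonneg (w0 x h) (w0 x' h')) (by
          by_cases n : Nd (x + x')
          · rw [ind_pos n, one_mul]
            exact bd n (hS.Sm_mono (by omega) (S.Sm_add (hS.st c x h).2.1 (hS.st c x' h').2.1))
              (hS.ad2 c x h x' h' n)
          · rw [ind_neg n, S.E_congr fun g _ => by_contra fun e => n (hS.Y_nd e), S.E_zero]
            simpa using mul_nonneg (mul_nonneg (sq_nonneg S.θ) hS.lam_pos.le) (PT_nonneg _))
        (abs_le.2 ⟨by nlinarith [sq_nonneg (a x + a x')], by nlinarith [sq_nonneg (a x - a x')]⟩)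
      refine le_trans (le_of_eq ?_) b
      rw [PT_add]
      ring
  have key : ∀ i : Fin (S.kk c + 2), (x0 ^ 2 / (S.kk c + 2) + A) / S.Λ -
      2 * S.θ ^ 2 * S.Λ * (x0 ^ 2 + A) - S.Λ * (S.θ ^ 2 * S.Λ * A) ≤
      S.E fun g => S.TY c 0 (S.kk c + 2) g fun s => (x0 ^ 2 / (S.kk c + 2) + 2 * x0 * a (s i) +
        a (s i) ^ 2) + ∑ i' ∈ univ.erase i, a (s i) * a (s i') := fun i => by
    simp only [S.TY_add c 0 _ _ _ fun s => ∑ i' ∈ univ.erase i, a (s i) * a (s i'), S.TY_sum,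
      S.E_add, S.E_sum, S.TC1 c 0 _ _ i fun x => x0 ^ 2 / (S.kk c + 2) + 2 * x0 * a x + a x ^ 2,
      S.E_mul, zero_add]
    have b := card_nsmul_le_sum (univ.erase i) (fun i' => S.E fun g => S.TY c 0 (S.kk c + 2) g
      fun s => a (s i) * a (s i')) _ fun i' h => T2.trans_eq (by
        simp only [S.TC2 c 0 _ _ (ne_of_mem_erase h).symm fun x x' => a x * a x', S.E_sum, S.E_mul,
          zero_add])
    have d : ((univ.erase i).card : ℝ) ≤ S.Λ := le_trans (by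
      exact_mod_cast card_erase_le.trans (by simp)) kΛ
    rw [nsmul_eq_mul] at b
    have e := mul_le_mul_of_nonneg_right d
      (mul_nonneg (mul_nonneg (sq_nonneg S.θ) hS.lam_pos.le) A0)
    linarith
  simp only [low_sq, S.TY_sum, S.E_sum, ← hA]
  refine le_trans ?_ (card_nsmul_le_sum _ _ _ fun i _ => key i)
  simp only [card_univ, Fintype.card_fin, nsmul_eq_mul]
  push_cast
  have X0 : 0 ≤ x0 ^ 2 + A := by positivity
  have t1 : S.θ ^ 2 * (3 * S.Λ ^ 3) ≤ 1 / (2 * S.Λ) := by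
    rw [le_div_iff₀ (by linarith)]
    have b : 3 * S.Λ ^ 3 * (2 * S.Λ) ≤ S.Λ ^ 6 := by
      nlinarith [mul_nonneg (pow_nonneg hS.lam_pos.le 4) (by nlinarith : 0 ≤ S.Λ ^ 2 - 6)]
    nlinarith [mul_le_mul hS.th_sq b (by positivity) hS.th_pos.le]
  have t2 : (x0 ^ 2 + A) / S.Λ ≤ (S.kk c + 2) * ((x0 ^ 2 / (S.kk c + 2) + A) / S.Λ) := by
    rw [← mul_div_assoc, mul_add, mul_div_cancel₀ _ (by linarith)]
    exact div_le_div_of_nonneg_right (by nlinarith) hS.lam_pos.le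
  have L0 := hS.lam_pos
  have t3 : 2 * S.θ ^ 2 * S.Λ * (x0 ^ 2 + A) + S.Λ * (S.θ ^ 2 * S.Λ * A) ≤
      S.θ ^ 2 * (3 * S.Λ ^ 2) * (x0 ^ 2 + A) := by
    have b : 0 ≤ S.θ ^ 2 * S.Λ * (x0 ^ 2 + A) * (S.Λ - 1) :=
      mul_nonneg (by positivity) (by linarith)
    have d : 0 ≤ S.θ ^ 2 * S.Λ ^ 2 * x0 ^ 2 := by positivity
    linarith
  have t4 := mul_le_mul kΛ t3 (by positivity) L0.le
  have t5 := mul_le_mul_of_nonneg_right t1 X0
  have t6 : (x0 ^ 2 + A) / S.Λ = 2 * (1 / (2 * S.Λ) * (x0 ^ 2 + A)) := by field_simp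
  rw [div_eq_mul_one_div]
  linarith

end Pool.Agent.MP_f3836a_nt.VE.F
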