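import Pool.Agent.MP_f3836a_nt.VE.FBase

/-! Part F: the lower bound and the removed part, summed over the small curves. -/

set_option autoImplicit false

namespace Pool.Agent.MP_f3836a_nt.VE.F

open Finset

section

variable {G H Cl : Type} [Fintype H] [Fintype Cl] {S : Sys G H Cl}

theorem lr_om (F : G → S.Om → ℝ) : S.E (fun g => ∑ ω, S.mo g ω * F g ω)
    = S.σ * ∑ h, S.E fun g => S.TY (some h) 0 (S.k + 2) g fun s => F g ⟨h, s⟩ := by
  rw [← S.E_sum, ← S.E_mul]
  refine S.E_congr fun g _ => ?_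
  simp only [Fintype.sum_sigma, Sys.mo, Sys.TY, mul_sum, mul_assoc]

theorem lr_nrm (hS : S.Ok) (α : Pt → ℝ) : S.nrm2 α = S.σ * ∑ h,
    (0 ^ 2 + ∑ x ∈ S.St (some h), S.w (some h) x * PT x * S.aa α h (pt x) ^ 2) := by
  unfold Sys.nrm2
  congr 1
  refine sum_congr rfl fun h _ => ?_
  simp only [mul_assoc]
  rw [hS.sum_st h fun x => PT x * S.aa α h (pt x) ^ 2, zero_pow two_ne_zero, zero_add]
  refine sum_congr rfl fun z _ => ?_
  rw [PT_single, pt_single]
  ring

end

theorem rLr : OfLr := by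
  intro hR A1 A2 hL hB
  refine ⟨A1 + (A2 + 4), fun {G H Cl} _ _ S hS e hP α hα => ⟨?_, ?_⟩⟩
  · have h1 := (hS.par_small (hS.par_mono (Nat.le_add_right _ _) hP)).2.2.2.1
    rw [lr_om, lr_nrm hS, mul_div_assoc, sum_div]
    refine mul_le_mul_of_nonneg_left (sum_le_sum fun h _ => ?_) hS.sig_pos.le
    refine (hL S hS h1 (some h) 0 (fun x => S.aa α h (pt x)) fun x hx => ?_).trans_eq ?_
    · obtain ⟨z, hz, rfl⟩ := (hS.st1 h x hx).2
      simp only [Multiset.map_singleton, pt_single, Sys.aa, hα z hz,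
        (hS.okp z (hS.p1 z hz).1).2.2]
      ring
    · simp only [zero_add]
      rfl
  · have e1 := (hS.par_small hP).2.1
    have hM : 0 ≤ S.M := by linarith [hS.num.2.2.1]
    have l0 := hS.lam_pos
    have t0 := hS.th_pos
    have e0 : 0 ≤ S.M * S.Λ ^ A2 * S.θ / e ^ 2 := by positivity
    have n0 : 0 ≤ S.nrm2 α := mul_nonneg hS.sig_pos.le (sum_nonneg fun h _ => sum_nonneg
      fun z _ => mul_nonneg (div_nonneg (hS.wz_nonneg h z) (Nat.cast_nonneg _)) (sq_nonneg _))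
    have le : 2 * S.Λ ^ 3 * (S.M * S.Λ ^ A2 * S.θ / e ^ 2)
        ≤ S.M * S.Λ ^ (A1 + (A2 + 4)) * S.θ / e ^ 2 := by
      have h1 : 2 * S.Λ ^ (A2 + 3) ≤ S.Λ ^ (A1 + (A2 + 4)) := by
        refine le_trans ?_ (hS.pow_mono (Nat.le_add_left _ _))
        rw [pow_succ' _ (A2 + 3)]
        exact mul_le_mul_of_nonneg_right (by linarith [hS.num.1]) (by positivity)
      calc _ = S.M * (2 * S.Λ ^ (A2 + 3)) * S.θ / e ^ 2 := by ring
        _ ≤ _ := by gcongr
    refine le_trans ?_ (mul_le_mul_of_nonneg_right le n0)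
    simp only [mul_assoc (S.mo _ _)]
    rw [lr_om, lr_nrm hS, mul_left_comm]
    refine mul_le_mul_of_nonneg_left ?_ hS.sig_pos.le
    rw [mul_sum]
    refine sum_le_sum fun h _ => ?_
    refine le_trans (le_of_eq ?_) (hR S hS (some h) 0 _ (fun x => S.aa α h (pt x))
      (fun g x => S.b1 e g (pt x)) e0 (fun x hx => ?_) fun x hx x' hx' hn => ?_)
    · simp only [zero_add]
      rfl
    · have hs := hS.st _ x hx
      have := (hB S hS e (some h) x _ hP.1 e1
        ⟨hS.ad1 _ x hx, hs.1, hS.Sm_mono one_le_two hs.2.1⟩).1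
      obtain ⟨z, hz, rfl⟩ := (hS.st1 h x hx).2
      rw [pt_single]
      exact this z hz (by simp)
    · have := (hB S hS e (some h) (x + x') _ hP.1 e1
        ⟨hS.ad2 _ x hx x' hx' hn, hn, S.Sm_add (hS.st _ x hx).2.1 (hS.st _ x' hx').2.1⟩).1
      obtain ⟨z, hz, rfl⟩ := (hS.st1 h x' hx').2
      rw [pt_single]
      exact this z hz (by simp)

end Pool.Agent.MP_f3836a_nt.VE.F
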