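import Pool.Agent.MP_f3836a_nt.VE.FBase

/-! Part F: marginals of the events of the first kind. -/

set_option autoImplicit false

namespace Pool.Agent.MP_f3836a_nt.VE.F

open Finset

theorem mar_single {ι : Type} (I : Finset ι) (f : ι → Pt) :
    ∑ i ∈ I, ({f i} : Multiset Pt) = I.val.map f := by
  classical
  induction I using Finset.induction_on with
  | empty => simp
  | insert a I ha ih => rw [sum_insert ha, ih, insert_val_of_notMem ha, Multiset.map_cons,
      Multiset.singleton_add]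

theorem mar_pick {P : Finset Pt} {z : Pt} (hz : z ∈ P) (F : Pt → ℝ) :
    ∑ y ∈ P, ind (y = z) * F y = F z := by
  rw [sum_eq_single z (fun y _ hy => by rw [ind_neg hy, zero_mul]) fun h => absurd hz h,
    ind_pos rfl, one_mul]

variable {G H Cl : Type} [Fintype H] [Fintype Cl] {S : Sys G H Cl}

omit [Fintype Cl] in
theorem mar_om (g : G) (F : S.Om → ℝ) : ∑ ω, S.mo g ω * F ω
    = S.σ * ∑ h, S.TY (some h) 0 (S.k + 2) g fun s => F ⟨h, s⟩ := by
  rw [Fintype.sum_sigma, mul_sum]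
  refine sum_congr rfl fun h _ => ?_
  unfold Sys.TY Sys.mo
  rw [mul_sum]
  exact sum_congr rfl fun s _ => mul_assoc _ _ _

theorem mar_one (hS : S.Ok) (g : G) (h : H) (i : Fin (S.k + 2)) (A : Pt → ℝ) :
    S.TY (some h) 0 (S.k + 2) g (fun s => A (pt (s i)))
      = ∑ z ∈ S.P1, A z * (S.wz h z * S.Y (some h) {z} (S.k + 1) g) := by
  rw [S.TC1 (some h) 0 (S.k + 1) g i fun x => A (pt x)]
  simp only [mul_assoc]
  rw [hS.sum_st h fun x => A (pt x) * S.Y (some h) (0 + x) (S.k + 1) g]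
  refine sum_congr rfl fun z _ => ?_
  rw [pt_single, zero_add]
  ring

theorem mar_two (hS : S.Ok) (g : G) (h : H) {i j : Fin (S.k + 2)} (hij : i ≠ j) (A : Pt → Pt → ℝ) :
    S.TY (some h) 0 (S.k + 2) g (fun s => A (pt (s i)) (pt (s j)))
      = ∑ z ∈ S.P1, ∑ z' ∈ S.P1,
        A z z' * (S.wz h z * S.wz h z' * S.Y (some h) (z' ::ₘ {z}) S.k g) := by
  rw [S.TC2 (some h) 0 S.k g hij fun x x' => A (pt x) (pt x')]
  simp only [mul_assoc, ← mul_sum]
  rw [hS.sum_st h fun x => ∑ x' ∈ S.St (some h),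
    S.w (some h) x' * (A (pt x) (pt x') * S.Y (some h) (0 + x + x') S.k g)]
  refine sum_congr rfl fun z _ => ?_
  rw [hS.sum_st h fun x' => A (pt {z}) (pt x') * S.Y (some h) (0 + {z} + x') S.k g, mul_sum]
  refine sum_congr rfl fun z' _ => ?_
  rw [pt_single, pt_single, zero_add, add_comm, Multiset.singleton_add]
  ring

theorem mar_pt (hS : S.Ok) (ω : S.Om) (i : Fin (S.k + 2)) :
    S.Zo ω i ∈ S.P1 ∧ (ω.2 i).1 = {S.Zo ω i} := by
  obtain ⟨z, hz, e⟩ := (hS.st1 ω.1 _ (ω.2 i).2).2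
  have : S.Zo ω i = z := by unfold Sys.Zo; rw [e, pt_single]
  rw [this]
  exact ⟨hz, e⟩

theorem rMar : MarS := by
  intro G H Cl _ _ S hS g hg α
  refine ⟨fun i z hz c => ?_, fun i j hij z hz z' hz' => ?_, fun i z hz => ?_, fun c => ?_,
    fun ω => mul_nonneg hS.sig_pos.le (hS.mw_nonneg _ _ _ _), fun ω hω => ?_⟩
  · unfold M1 Sys.N1
    rw [mar_om]
    refine congrArg _ (sum_congr rfl fun h _ => ?_)
    refine (mar_one hS g h i fun y => ind (y = z ∧ S.cell h = c)).trans ?_
    simp only [ind_and, mul_assoc]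
    exact mar_pick hz fun y => ind (S.cell h = c) * (S.wz h y * S.Y (some h) {y} (S.k + 1) g)
  · unfold M2 Sys.N2
    rw [mar_om]
    refine congrArg _ (sum_congr rfl fun h _ => ?_)
    refine (mar_two hS g h hij fun y y' => ind (y = z ∧ y' = z')).trans ?_
    simp only [ind_and, mul_assoc _ (ind _), ← mul_sum]
    rw [mar_pick hz fun y => ∑ y' ∈ S.P1,
      ind (y' = z') * (S.wz h y * S.wz h y' * S.Y (some h) (y' ::ₘ {y}) S.k g)]
    exact mar_pick hz' fun y' => S.wz h z * S.wz h y' * S.Y (some h) (y' ::ₘ {z}) S.k g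
  · simp only [mul_assoc]
    rw [mar_om]
    unfold Sys.SZ
    rw [mul_left_comm, ← mul_add, mul_sum _ _ ((S.k : ℝ) + 1), ← sum_add_distrib]
    refine congrArg _ (sum_congr rfl fun h _ => ?_)
    simp only [Sys.Fo, mul_sum]
    rw [S.TY_sum, Fin.sum_univ_succAbove _ i]
    congr 1
    · refine (mar_one hS g h i fun y => ind (y = z) * S.aa α h y).trans ?_
      simp only [mul_assoc]
      rw [mar_pick hz fun y => S.aa α h y * (S.wz h y * S.Y (some h) {y} (S.k + 1) g)]
      ring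
    · have e : ∀ m : Fin (S.k + 1), (S.TY (some h) 0 (S.k + 2) g fun s =>
          ind (S.Zo ⟨h, s⟩ i = z) * S.aa α h (S.Zo ⟨h, s⟩ (i.succAbove m)))
          = ∑ z' ∈ S.P1, S.wz h z * S.wz h z' * S.aa α h z' * S.Y (some h) (z' ::ₘ {z}) S.k g := by
        intro m
        refine (mar_two hS g h (Fin.succAbove_ne i m).symm
          fun y y' => ind (y = z) * S.aa α h y').trans ?_
        simp only [mul_assoc (ind _), ← mul_sum]
        rw [mar_pick hz fun y => ∑ y' ∈ S.P1,
          S.aa α h y' * (S.wz h y * S.wz h y' * S.Y (some h) (y' ::ₘ {y}) S.k g)]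
        exact sum_congr rfl fun y _ => by ring
      rw [sum_congr rfl fun m _ => e m, sum_const, card_univ, Fintype.card_fin, nsmul_eq_mul,
        ← mul_sum]
      push_cast
      rfl
  · simp only [mul_assoc]
    rw [mar_om]
    unfold Sys.SC
    rw [mul_left_comm, mul_sum _ _ ((S.k : ℝ) + 2)]
    refine congrArg _ (sum_congr rfl fun h _ => ?_)
    simp only [Sys.Fo]
    have e : ∀ m : Fin (S.k + 2), (S.TY (some h) 0 (S.k + 2) g fun s =>
        ind (S.cell h = c) * S.aa α h (S.Zo ⟨h, s⟩ m))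
        = ∑ z ∈ S.P1, ind (S.cell h = c) * S.wz h z * S.aa α h z * S.Y (some h) {z} (S.k + 1) g := by
      intro m
      refine (mar_one hS g h m fun y => ind (S.cell h = c) * S.aa α h y).trans ?_
      exact sum_congr rfl fun y _ => by ring
    simp only [mul_sum univ]
    rw [S.TY_sum, sum_congr rfl fun m _ => e m, sum_const, card_univ, Fintype.card_fin, nsmul_eq_mul]
    push_cast
    rfl
  · obtain ⟨hev, hw⟩ := Sys.Ok.mw_ne (right_ne_zero_of_mul hω)
    have hM : (0 : Multiset Pt) + ∑ i, (ω.2 i).1 = univ.val.map (S.Zo ω) := by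
      rw [zero_add, ← mar_single]
      exact sum_congr rfl fun i _ => (mar_pt hS ω i).2
    rw [hM] at hev
    have hon : ∀ i, S.ok (S.Zo ω i) ∧ S.on (some ω.1) (S.Zo ω i) := fun i =>
      hS.st_on (ω.2 i).2 _ (by rw [(mar_pt hS ω i).2]; exact Multiset.mem_singleton_self _)
    have hall : ∀ z ∈ univ.val.map (S.Zo ω), S.ok z ∧ S.on (some ω.1) z := by
      intro z hz
      obtain ⟨i, -, rfl⟩ := Multiset.mem_map.1 hz
      exact hon i
    refine ⟨fun i => ⟨(mar_pt hS ω i).1, hS.evz g hg _ _ hev _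
      (Multiset.mem_map_of_mem _ (mem_univ i)) (hon i).1 (hon i).2, ?_⟩, ?_, ?_⟩
    · have hm := (ω.2 i).2
      have h1 := hw i
      rw [(mar_pt hS ω i).2] at hm h1
      rwa [S.wz_eq hm]
    · have h1 := hS.idh g hg _ _ hev hall
      rw [Multiset.map_map, Multiset.map_map] at h1
      have h2 : ∑ i, S.ψ (some ω.1) (S.Zo ω i) = ∑ i, S.φ g (S.Zo ω i) + S.ua g (some ω.1) := h1
      simp only [Sys.Fo, Sys.aa, sum_sub_distrib]
      linarith
    · rw [← hS.evl g hg _ _ hev, ← Real.log_prod fun i _ => (hS.p_pos (hon i).1).ne']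
      congr 1
      unfold nT
      rw [Multiset.map_map, ← Nat.cast_prod]
      rfl

end Pool.Agent.MP_f3836a_nt.VE.F
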