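import Pool.Agent.MP_f3836a_nt.VE.FBase

/-! Part F: the bad pairs have small mass. -/

set_option autoImplicit false

namespace Pool.Agent.MP_f3836a_nt.VE.F

open Finset

namespace Sys

variable {G H Cl : Type} (S : Sys G H Cl)

theorem bad_dev0 (g : G) : 0 ≤ S.dev0 g := sum_nonneg fun _ _ => abs_nonneg _

variable [Fintype H] [Fintype Cl]

theorem bad_dva (g : G) (z : Pt) : 0 ≤ S.dva g z := sum_nonneg fun _ _ => abs_nonneg _

omit [Fintype Cl] in
theorem bad_dvb (g : G) (z : Pt) : 0 ≤ S.dvb g z :=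
  sum_nonneg fun _ _ => mul_nonneg (ind_nonneg _) (abs_nonneg _)

theorem bad_dev1 (g : G) (z : Pt) : 0 ≤ S.dev1 g z := add_nonneg (S.bad_dva g z) (S.bad_dvb g z)

theorem bad_tot1 (g : G) : 0 ≤ S.tot1 g :=
  sum_nonneg fun _ _ => mul_nonneg (ind_nonneg _) (S.bad_dev1 _ _)

omit [Fintype Cl] in
theorem bad_dev2 (g : G) (T : Multiset Pt) : 0 ≤ S.dev2 g T :=
  add_nonneg (abs_nonneg _) (sum_nonneg fun _ _ => mul_nonneg (ind_nonneg _) (abs_nonneg _))

/-- the pointwise Markov inequality -/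
theorem bad_ind {e n D : ℝ} (he : 0 < e) (he1 : e ≤ 1) (hn : 0 < n) (hD : 0 ≤ D) (g : G) :
    ind (¬S.good e g ∨ e * n < D)
      ≤ 1 / e ^ 2 * S.tot1 g + 1 / e ^ 2 * S.dev0 g + 1 / (e ^ 2 * n) * D := by
  have h1 : 0 ≤ 1 / e ^ 2 * S.tot1 g := mul_nonneg (by positivity) (S.bad_tot1 g)
  have h2 : 0 ≤ 1 / e ^ 2 * S.dev0 g := mul_nonneg (by positivity) (S.bad_dev0 g)
  have h3 : 0 ≤ 1 / (e ^ 2 * n) * D := mul_nonneg (by positivity) hD
  have he2 : e ^ 2 ≤ e := by nlinarith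
  have key : ∀ a x : ℝ, 0 < a → a ≤ x → 1 ≤ 1 / a * x := fun a x ha hx => by
    rw [one_div_mul_eq_div]; exact (one_le_div ha).2 hx
  by_cases h : ¬S.good e g ∨ e * n < D
  · rw [ind_pos h]
    rcases h with h | h
    · rcases not_and_or.1 h with h | h
      · linarith [key _ _ (pow_pos he 2) (not_le.1 h).le]
      · linarith [key _ _ (pow_pos he 2) (he2.trans (not_le.1 h).le)]
    · linarith [key _ _ (mul_pos (pow_pos he 2) hn)
        ((mul_le_mul_of_nonneg_right he2 hn.le).trans h.le)]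
  · rw [ind_neg h]; linarith

variable {S}

/-- the Markov inequality in the mean -/
theorem bad_E (hS : S.Ok) {e n B : ℝ} (he : 0 < e) (he1 : e ≤ 1) (hn : 0 < n) (c : Option H)
    (Ta : Multiset Pt) (ja : ℕ) (D : G → ℝ) (hD : ∀ g, 0 ≤ D g)
    (h1 : S.E (fun g => S.Y c Ta ja g * S.tot1 g) ≤ B)
    (h0 : S.E (fun g => S.Y c Ta ja g * S.dev0 g) ≤ B)
    (h2 : S.E (fun g => S.Y c Ta ja g * D g) ≤ 2 * B * n) :
    S.E (fun g => S.Y c Ta ja g * ind (¬S.good e g ∨ e * n < D g)) ≤ 4 * B / e ^ 2 := by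
  have h : S.E (fun g => S.Y c Ta ja g * ind (¬S.good e g ∨ e * n < D g))
      ≤ S.E fun g => 1 / e ^ 2 * (S.Y c Ta ja g * S.tot1 g) + 1 / e ^ 2 * (S.Y c Ta ja g * S.dev0 g)
        + 1 / (e ^ 2 * n) * (S.Y c Ta ja g * D g) := by
    refine S.E_mono fun g _ => ?_
    refine (mul_le_mul_of_nonneg_left (S.bad_ind he he1 hn (hD g) g) (hS.Y_nonneg c Ta ja g)).trans
      (le_of_eq ?_)
    ring
  rw [E_add, E_add, E_mul, E_mul, E_mul] at h
  have a1 := mul_le_mul_of_nonneg_left h1 (by positivity : 0 ≤ 1 / e ^ 2)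
  have a0 := mul_le_mul_of_nonneg_left h0 (by positivity : 0 ≤ 1 / e ^ 2)
  have a2 := mul_le_mul_of_nonneg_left h2 (by positivity : 0 ≤ 1 / (e ^ 2 * n))
  have a3 : 1 / e ^ 2 * B + 1 / e ^ 2 * B + 1 / (e ^ 2 * n) * (2 * B * n) = 4 * B / e ^ 2 := by
    field_simp; ring
  linarith

end Sys

theorem rBad : OfBad := by
  intro A1 A2 A3 A4 A5 h1 h2 h3 h4 h5
  refine ⟨A1 + A2 + A3 + A4 + A5 + 1, ?_⟩
  intro G H Cl _ _ S hS e c Ta ja he he1 hA
  set A := A1 + A2 + A3 + A4 + A5 with hAdef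
  have hM : 1 ≤ S.M := hS.num.2.2.1
  have hθ := hS.th_pos
  have hP := PT_nonneg Ta
  have hL : 0 < S.Λ ^ A := pow_pos hS.lam_pos A
  have up : ∀ a : ℕ, a ≤ A → S.M * S.Λ ^ a * S.θ ≤ S.M * S.Λ ^ A * S.θ := fun a ha =>
    mul_le_mul_of_nonneg_right (mul_le_mul_of_nonneg_left (hS.pow_mono ha) (by linarith)) hθ.le
  have up' : ∀ a : ℕ, a ≤ A → S.Λ ^ a * S.θ ≤ S.M * S.Λ ^ A * S.θ := fun a ha =>
    mul_le_mul_of_nonneg_right ((hS.pow_mono ha).trans (le_mul_of_one_le_left hL.le hM)) hθ.le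
  have hB : 0 ≤ S.M * S.Λ ^ A * S.θ := by positivity
  have b4 : S.E (fun g => S.Y c Ta ja g * S.tot1 g) ≤ S.M * S.Λ ^ A * S.θ * PT Ta :=
    (h4 S hS c Ta ja hA).trans (mul_le_mul_of_nonneg_right (up A4 (by omega)) hP)
  have b5 : S.E (fun g => S.Y c Ta ja g * S.dev0 g) ≤ S.M * S.Λ ^ A * S.θ * PT Ta :=
    (h5 S hS c Ta ja hA).trans (mul_le_mul_of_nonneg_right (up A5 (by omega)) hP)
  have fin : 4 * (S.M * S.Λ ^ A * S.θ * PT Ta) / e ^ 2
      ≤ S.M * S.Λ ^ (A + 1) * S.θ / e ^ 2 * PT Ta := by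
    rw [div_mul_eq_mul_div]
    refine div_le_div_of_nonneg_right ?_ (by positivity)
    have h4' : (4 : ℝ) ≤ S.Λ := by linarith [hS.num.1]
    have := mul_le_mul_of_nonneg_right h4' (mul_nonneg hB hP)
    calc _ ≤ _ := this
      _ = _ := by ring
  have hT4 : S.Sm 4 Ta := hS.Sm_mono (by norm_num) hA.2.2
  refine ⟨fun z hz hzT => ?_, fun T hT hTa => ?_⟩
  · have hn := hS.n0_pos hz
    refine (Sys.bad_E hS he he1 hn c Ta ja (fun g => S.dev1 g z) (fun g => S.bad_dev1 g z) b4 b5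
      ?_).trans fin
    have e1 : S.E (fun g => S.Y c Ta ja g * S.dev1 g z)
        = S.E (fun g => S.I Ta g * S.Y c Ta ja g * S.dva g z)
          + S.E (fun g => S.I Ta g * S.Y c Ta ja g * S.dvb g z) := by
      rw [← S.E_add]
      refine S.E_congr fun g hg => ?_
      rw [hS.I_Y hg hA.1 hT4, Sys.dev1, mul_add]
    have a1 := (h1 S hS c Ta Ta ja hA.2.1 hT4 (S.Cf_self hA.1) z hz hzT).trans
      (mul_le_mul_of_nonneg_right (up A1 (by omega)) (mul_nonneg hn.le hP))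
    have a2 := (h2 S hS c Ta Ta ja hA.2.1 hT4 (S.Cf_self hA.1) z hz hzT).trans
      (mul_le_mul_of_nonneg_right (up' A2 (by omega)) (mul_nonneg hn.le hP))
    rw [e1]
    linarith
  · have hn : 0 < PT T := hS.PT_pos (hS.st none T hT).2.1
    refine (Sys.bad_E hS he he1 hn c Ta ja (fun g => S.dev2 g T) (fun g => S.bad_dev2 g T) b4 b5
      ?_).trans fin
    have a3 := (h3 S hS c Ta ja hA T hT hTa).trans
      (mul_le_mul_of_nonneg_right (up' A3 (by omega)) (mul_nonneg hn.le hP))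
    have : 0 ≤ S.M * S.Λ ^ A * S.θ * (PT T * PT Ta) := mul_nonneg hB (mul_nonneg hn.le hP)
    linarith

end Pool.Agent.MP_f3836a_nt.VE.F
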