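import Pool.Agent.MP_f3836a_nt.VE.FBase

set_option autoImplicit false

namespace Pool.Agent.MP_f3836a_nt.VE.F

open Finset

/-- the test of Schur with a one sided majorant -/
theorem bil1_schur {ι : Type} (I : Finset ι) (r a w : ι → ℝ) (K D : ι → ι → ℝ) (σ C : ℝ)
    (hσ : 0 ≤ σ) (hr : ∀ i, 0 ≤ r i) (hK : ∀ i i', K i i' = K i' i)
    (hD : ∀ i ∈ I, ∀ i' ∈ I, r i ≠ 0 → r i' ≠ 0 → |K i i'| ≤ D i i')
    (hS : ∀ i ∈ I, r i ≠ 0 → σ * ∑ i' ∈ I, r i' * D i i' ≤ C * w i) :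
    σ ^ 2 * ∑ i ∈ I, ∑ i' ∈ I, r i * a i * (r i' * a i') * K i i'
      ≤ C * (σ * ∑ i ∈ I, r i * w i * a i ^ 2) := by
  have h1 : ∀ i ∈ I, ∀ i' ∈ I, r i * a i * (r i' * a i') * K i i'
      ≤ 1 / 2 * (r i * a i ^ 2 * (r i' * D i i')) + 1 / 2 * (r i' * a i' ^ 2 * (r i * D i' i)) := by
    intro i hi i' hi'
    by_cases h0 : r i = 0
    · simp [h0]
    by_cases h0' : r i' = 0
    · simp [h0']
    have b1 := hD i hi i' hi' h0 h0'
    have b2 := hD i' hi' i hi h0' h0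
    rw [← hK i i'] at b2
    have b3 : a i * a i' * K i i' ≤ 1 / 2 * (a i ^ 2 * D i i') + 1 / 2 * (a i' ^ 2 * D i' i) := by
      have c1 := mul_le_mul_of_nonneg_left b1 (sq_nonneg (a i))
      have c2 := mul_le_mul_of_nonneg_left b2 (sq_nonneg (a i'))
      rcases abs_cases (K i i') with ⟨e, he⟩ | ⟨e, he⟩
      · rw [e] at c1 c2
        nlinarith [mul_nonneg (sq_nonneg (a i - a i')) he]
      · rw [e] at c1 c2
        nlinarith [mul_nonneg (sq_nonneg (a i + a i')) (neg_nonneg.2 he.le)]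
    nlinarith [mul_le_mul_of_nonneg_left b3 (mul_nonneg (hr i) (hr i'))]
  have h2 : ∑ i ∈ I, ∑ i' ∈ I, r i * a i * (r i' * a i') * K i i'
      ≤ ∑ i ∈ I, ∑ i' ∈ I, r i * a i ^ 2 * (r i' * D i i') := by
    refine (sum_le_sum fun i hi => sum_le_sum fun i' hi' => h1 i hi i' hi').trans (le_of_eq ?_)
    simp only [sum_add_distrib, ← mul_sum]
    rw [sum_comm (s := I) (t := I) (f := fun i i' => r i' * a i' ^ 2 * (r i * D i' i))]
    simp only [← mul_sum]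
    ring
  have h3 : σ * ∑ i ∈ I, ∑ i' ∈ I, r i * a i ^ 2 * (r i' * D i i')
      ≤ C * ∑ i ∈ I, r i * w i * a i ^ 2 := by
    rw [mul_sum, mul_sum]
    refine sum_le_sum fun i hi => ?_
    rw [← mul_sum]
    by_cases h0 : r i = 0
    · simp [h0]
    nlinarith [mul_le_mul_of_nonneg_left (hS i hi h0) (mul_nonneg (hr i) (sq_nonneg (a i)))]
  nlinarith [mul_le_mul_of_nonneg_left h2 (sq_nonneg σ), mul_le_mul_of_nonneg_left h3 hσ]

variable {G H Cl : Type} (S : Sys G H Cl)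

/-- the majorant of the kernel -/
noncomputable def bil1D (T : Multiset Pt) (h : H) (z : Pt) (h' : H) (z' : Pt) : ℝ :=
  S.Λ ^ 2 * PT T / z.p * (ind (some h' ≠ some h)
      * (S.θ ^ 2 + ((1 + S.et (some h) (some h')) ^ 3 - 1))) * (1 / z'.p)
    + 2 * S.Ym ^ 2 * PT T / z.p * ind (h' = h) * (1 / z'.p)
    + 2 * S.Ym ^ 2 * PT T / z.p * (ind (z'.p = z.p) / z'.p)
    + 2 * S.Ym ^ 2 * PT T / z.p * (ind (S.on (some h) z') / z'.p)
    + 2 * S.Ym ^ 2 * PT T / z.p * ind (S.on (some h') z) * (1 / z'.p)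
    + 2 * S.Ym ^ 2 * PT T / z.p * ind (z' = z)

variable [Fintype H] [Fintype Cl] {S}

theorem bil1_dl (hS : S.Ok) (c c' : Option H) :
    0 ≤ (1 + S.et c c') ^ 3 - 1 ∧
      (1 + S.θ ^ 2) * (1 + S.et c c') - 1 ≤ S.θ ^ 2 + ((1 + S.et c c') ^ 3 - 1) := by
  have h1 := hS.eta c c'
  have h2 := hS.th_sq.trans hS.th_le
  have h3 := mul_nonneg h1 h1
  have h4 := mul_nonneg h3 h1
  have h5 := mul_le_mul_of_nonneg_right h2 h1
  constructor <;> nlinarith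

/-- the product of two weights is supported on the common zeros -/
theorem bil1_I (hS : S.Ok) {T T2 : Multiset Pt} {j : ℕ} {h h' : H} {z z' : Pt} {g : G}
    (hg : g ∈ S.Gs) (hs : S.Sm 3 (z ::ₘ T)) (hs' : S.Sm 3 (z' ::ₘ T))
    (ha : S.ad (some h) (z ::ₘ T) j) (ha' : S.ad (some h') (z' ::ₘ T) j)
    (h2 : ∀ y ∈ T2, y ∈ z ::ₘ T ∨ y ∈ z' ::ₘ T) :
    S.I T2 g * (S.Y (some h) (z ::ₘ T) j g * S.Y (some h') (z' ::ₘ T) j g)
      = S.Y (some h) (z ::ₘ T) j g * S.Y (some h') (z' ::ₘ T) j g := by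
  by_cases h0 : S.Y (some h) (z ::ₘ T) j g = 0
  · simp [h0]
  by_cases h0' : S.Y (some h') (z' ::ₘ T) j g = 0
  · simp [h0']
  rw [Sys.I, ind_pos, one_mul]
  intro y hy
  rcases h2 y hy with hy | hy
  · exact hS.Y_zr hg h0 hy (hs.2.2 y hy) ((hS.ad0 _ _ _ ha).1 y hy)
  · exact hS.Y_zr hg h0' hy (hs'.2.2 y hy) ((hS.ad0 _ _ _ ha').1 y hy)

theorem bil1_crude (hS : S.Ok) {T T2 : Multiset Pt} {j : ℕ} {h h' : H} {z z' : Pt}
    (hs : S.Sm 3 (z ::ₘ T)) (hs' : S.Sm 3 (z' ::ₘ T))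
    (ha : S.ad (some h) (z ::ₘ T) j) (ha' : S.ad (some h') (z' ::ₘ T) j)
    (h2 : ∀ y ∈ T2, y ∈ z ::ₘ T ∨ y ∈ z' ::ₘ T) :
    S.E (fun g => S.Y (some h) (z ::ₘ T) j g * S.Y (some h') (z' ::ₘ T) j g)
      ≤ S.Ym ^ 2 * S.E (S.I T2) := by
  rw [← S.E_mul]
  refine S.E_mono fun g hg => ?_
  rw [← bil1_I hS hg hs hs' ha ha' h2, mul_comm, sq]
  exact mul_le_mul_of_nonneg_right (mul_le_mul (hS.Y_le hg ha) (hS.Y_le hg ha')
    (hS.Y_nonneg _ _ _ _) (by linarith [hS.ym_one])) (S.I_nonneg _ _)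

/-- the kernel is bounded by the majorant -/
theorem bil1_K (hS : S.Ok) {T : Multiset Pt} {j : ℕ} {h h' : H} {z z' : Pt} (hT : S.Sm 2 T)
    (hz : z ∈ S.P1) (hz' : z' ∈ S.P1) (ha : S.ad (some h) (z ::ₘ T) j) (hn : Nd (z ::ₘ T))
    (ha' : S.ad (some h') (z' ::ₘ T) j) (hn' : Nd (z' ::ₘ T)) :
    |S.E (fun g => S.Y (some h) (z ::ₘ T) j g * S.Y (some h') (z' ::ₘ T) j g)
      - PT T * (S.fm (some h) (z ::ₘ T) j / z.p * (S.fm (some h') (z' ::ₘ T) j / z'.p))|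
      ≤ bil1D S T h z h' z' := by
  have hs := hS.Sm_cons hz hT
  have hs' := hS.Sm_cons hz' hT
  have hs2 : S.Sm 8 (z' ::ₘ z ::ₘ T) := hS.Sm_mono (by norm_num) (hS.Sm_cons hz' hs)
  have hq := hS.p_pos (hS.p1 z hz).1
  have hq' := hS.p_pos (hS.p1 z' hz').1
  have hP := PT_nonneg T
  have hf := hS.fm_pos ha
  have hf' := hS.fm_pos ha'
  have hff : S.fm (some h) (z ::ₘ T) j * S.fm (some h') (z' ::ₘ T) j ≤ S.Λ ^ 2 := by
    rw [sq]; exact mul_le_mul (hS.fm_le ha) (hS.fm_le ha') hf'.le hS.lam_pos.le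
  have hLY : S.Λ ^ 2 ≤ S.Ym ^ 2 := pow_le_pow_left₀ hS.lam_pos.le hS.num.2.1 2
  have hdl := bil1_dl hS (some h) (some h')
  have hmem : ∀ y ∈ z' ::ₘ z ::ₘ T, y ∈ z ::ₘ T ∨ y ∈ z' ::ₘ T := by
    intro y hy
    rcases Multiset.mem_cons.1 hy with rfl | hy
    · exact Or.inr (Multiset.mem_cons_self _ _)
    · exact Or.inl hy
  set X := 2 * S.Ym ^ 2 * PT T / z.p with hX
  have hX0 : 0 ≤ X := by positivity
  have t1 : 0 ≤ S.Λ ^ 2 * PT T / z.p * (ind (some h' ≠ some h)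
      * (S.θ ^ 2 + ((1 + S.et (some h) (some h')) ^ 3 - 1))) * (1 / z'.p) := by
    have := ind_nonneg (some h' ≠ some h)
    have := hdl.1
    positivity
  have t2 : 0 ≤ X * ind (h' = h) * (1 / z'.p) := by have := ind_nonneg (h' = h); positivity
  have t3 : 0 ≤ X * (ind (z'.p = z.p) / z'.p) := by have := ind_nonneg (z'.p = z.p); positivity
  have t4 : 0 ≤ X * (ind (S.on (some h) z') / z'.p) := by
    have := ind_nonneg (S.on (some h) z'); positivity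
  have t5 : 0 ≤ X * ind (S.on (some h') z) * (1 / z'.p) := by
    have := ind_nonneg (S.on (some h') z); positivity
  have t6 : 0 ≤ X * ind (z' = z) := by have := ind_nonneg (z' = z); positivity
  have hE0 : 0 ≤ S.E (fun g => S.Y (some h) (z ::ₘ T) j g * S.Y (some h') (z' ::ₘ T) j g) :=
    S.E_nonneg fun g _ => mul_nonneg (hS.Y_nonneg _ _ _ _) (hS.Y_nonneg _ _ _ _)
  have hm : PT T * (S.fm (some h) (z ::ₘ T) j / z.p * (S.fm (some h') (z' ::ₘ T) j / z'.p))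
      = PT T / z.p / z'.p * (S.fm (some h) (z ::ₘ T) j * S.fm (some h') (z' ::ₘ T) j) := by
    field_simp
  have hm0 : 0 ≤ PT T / z.p / z'.p * (S.fm (some h) (z ::ₘ T) j * S.fm (some h') (z' ::ₘ T) j) := by
    positivity
  have hPq : 0 ≤ PT T / z.p / z'.p := by positivity
  have hm1 : PT T / z.p / z'.p * (S.fm (some h) (z ::ₘ T) j * S.fm (some h') (z' ::ₘ T) j)
      ≤ X * (1 / z'.p) := by
    have e : X * (1 / z'.p) = PT T / z.p / z'.p * (2 * S.Ym ^ 2) := by rw [hX]; field_simp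
    rw [e]
    exact mul_le_mul_of_nonneg_left (by nlinarith [sq_nonneg S.Ym]) hPq
  rw [hm]
  unfold bil1D
  rw [← hX]
  by_cases hzz : z' = z
  · have b1 := bil1_crude hS hs hs' ha ha' (T2 := z ::ₘ T) fun y hy => Or.inl hy
    have b2 := hS.tb1 hn (hS.Sm_mono (by norm_num) hs)
    rw [PT_cons] at b2
    have b3 : S.Ym ^ 2 * S.E (S.I (z ::ₘ T)) ≤ X := by
      have e : X = S.Ym ^ 2 * (2 * (PT T / z.p)) := by rw [hX]; ring
      rw [e]
      exact mul_le_mul_of_nonneg_left b2 (sq_nonneg _)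
    have b4 : X * (1 / z'.p) ≤ X := by
      refine mul_le_of_le_one_right hX0 ((div_le_one hq').2 ?_)
      have : 0 < z'.p := by exact_mod_cast hq'
      exact_mod_cast this
    rw [ind_pos hzz, mul_one] at *
    rw [abs_le]
    constructor <;> linarith
  have hdeg : |S.E (fun g => S.Y (some h) (z ::ₘ T) j g * S.Y (some h') (z' ::ₘ T) j g)
      - PT T / z.p / z'.p * (S.fm (some h) (z ::ₘ T) j * S.fm (some h') (z' ::ₘ T) j)|
      ≤ X * (1 / z'.p) := by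
    have b1 := bil1_crude hS hs hs' ha ha' hmem
    have b0 : z' ∉ z ::ₘ T := by
      intro hy
      rcases Multiset.mem_cons.1 hy with e | hy
      · exact hzz e
      · exact (Nd_cons.1 hn').1 z' hy rfl
    have b2 := hS.tb2 hn b0 hs2
    rw [PT_cons] at b2
    have b3 : S.Ym ^ 2 * S.E (S.I (z' ::ₘ z ::ₘ T)) ≤ X * (1 / z'.p) := by
      have e : X * (1 / z'.p) = S.Ym ^ 2 * (2 * (PT T / z.p / z'.p)) := by rw [hX]; ring
      rw [e]
      exact mul_le_mul_of_nonneg_left b2 (sq_nonneg _)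
    rw [abs_le]
    constructor <;> linarith
  by_cases c1 : h' = h
  · rw [ind_pos c1, mul_one] at *
    linarith
  by_cases c2 : z'.p = z.p
  · rw [ind_pos c2] at *
    linarith
  by_cases c3 : S.on (some h) z'
  · rw [ind_pos c3] at *
    linarith
  by_cases c4 : S.on (some h') z
  · rw [ind_pos c4, mul_one] at *
    linarith
  have hne : some h' ≠ some h := fun e => c1 (Option.some.inj e)
  have hn2 : Nd (z' ::ₘ z ::ₘ T) := by
    refine Nd_cons.2 ⟨fun y hy => ?_, hn⟩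
    rcases Multiset.mem_cons.1 hy with rfl | hy
    · exact fun e => c2 e.symm
    · exact (Nd_cons.1 hn').1 y hy
  have cf1 : S.Cf (some h) (z ::ₘ T) j (z' ::ₘ z ::ₘ T) := S.Cf_cons (S.Cf_self ha) c3
  have cf2 : S.Cf (some h') (z' ::ₘ T) j (z' ::ₘ z ::ₘ T) := by
    rw [Multiset.cons_swap]
    exact S.Cf_cons (S.Cf_self ha') c4
  have b1 := hS.eq2 hn2 hs2 hne.symm cf1 cf2
  rw [S.E_congr fun g hg => bil1_I hS hg hs hs' ha ha' hmem, PT_cons, PT_cons] at b1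
  have b2 : ((1 + S.θ ^ 2) * (1 + S.et (some h) (some h')) - 1)
      * (PT T / z.p / z'.p * (S.fm (some h) (z ::ₘ T) j * S.fm (some h') (z' ::ₘ T) j))
      ≤ (S.θ ^ 2 + ((1 + S.et (some h) (some h')) ^ 3 - 1)) * (PT T / z.p / z'.p * S.Λ ^ 2) :=
    mul_le_mul hdl.2 (mul_le_mul_of_nonneg_left hff hPq) hm0 (by linarith [hdl.1, sq_nonneg S.θ])
  have e : S.Λ ^ 2 * PT T / z.p * (ind (some h' ≠ some h)
      * (S.θ ^ 2 + ((1 + S.et (some h) (some h')) ^ 3 - 1))) * (1 / z'.p)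
      = (S.θ ^ 2 + ((1 + S.et (some h) (some h')) ^ 3 - 1)) * (PT T / z.p / z'.p * S.Λ ^ 2) := by
    rw [ind_pos hne]
    ring
  rw [e]
  linarith

/-- sums whose factor depends on the curve -/
theorem bil1_A (hS : S.Ok) {T : Multiset Pt} {j : ℕ} {r : H → Pt → ℝ} {B : ℝ} (hB : 0 ≤ B)
    (hr : ∀ h z, 0 ≤ r h z ∧ r h z ≤ B)
    (ha : ∀ h, ∀ z ∈ S.P1, r h z ≠ 0 → S.ad (some h) (z ::ₘ T) j ∧ Nd (z ::ₘ T))
    (c : H → ℝ) (hc : ∀ h, 0 ≤ c h) :
    S.σ * ∑ h', ∑ z' ∈ S.P1, r h' z' * (c h' * (1 / z'.p))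
      ≤ B * S.Λ * (S.σ * ∑ h', c h' * ind (S.Lk T h')) := by
  have h1 : ∀ h', ∑ z' ∈ S.P1, r h' z' * (c h' * (1 / z'.p))
      ≤ B * S.Λ * (c h' * ind (S.Lk T h')) := by
    intro h'
    have h2 : ∀ z' ∈ S.P1, r h' z' * (c h' * (1 / z'.p))
        ≤ B * (c h' * ind (S.Lk T h')) * (ind (S.on (some h') z') / z'.p) := by
      intro z' hz'
      have := hc h'
      by_cases h0 : r h' z' = 0
      · have := ind_nonneg (S.Lk T h')
        have := ind_nonneg (S.on (some h') z')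
        rw [h0, zero_mul]
        positivity
      · have h3 := (hS.ad0 _ _ _ (ha h' z' hz' h0).1).1
        rw [ind_pos (h3 z' (Multiset.mem_cons_self _ _)),
          ind_pos (show S.Lk T h' from fun y hy => h3 y (Multiset.mem_cons_of_mem hy)), mul_one,
          mul_assoc]
        exact mul_le_mul_of_nonneg_right (hr h' z').2 (by positivity)
    refine (sum_le_sum h2).trans ?_
    rw [← mul_sum]
    have h4 := mul_le_mul_of_nonneg_left (hS.line (some h'))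
      (mul_nonneg hB (mul_nonneg (hc h') (ind_nonneg (S.Lk T h'))))
    linarith
  have h5 := mul_le_mul_of_nonneg_left (sum_le_sum fun h' (_ : h' ∈ univ) => h1 h') hS.sig_pos.le
  rw [← mul_sum] at h5
  linarith

/-- sums whose factor depends on the point -/
theorem bil1_B (hS : S.Ok) {T : Multiset Pt} {j : ℕ} {r : H → Pt → ℝ} {B : ℝ} (hB : 0 ≤ B)
    (hT : S.Sm 2 T) (hr : ∀ h z, 0 ≤ r h z ∧ r h z ≤ B)
    (ha : ∀ h, ∀ z ∈ S.P1, r h z ≠ 0 → S.ad (some h) (z ::ₘ T) j ∧ Nd (z ::ₘ T))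
    (c : Pt → ℝ) (hc : ∀ z, 0 ≤ c z) :
    S.σ * ∑ h', ∑ z' ∈ S.P1, r h' z' * c z'
      ≤ B * S.Λ * PT T * ∑ z' ∈ S.P1, c z' / z'.p := by
  rw [sum_comm, mul_sum, mul_sum]
  refine sum_le_sum fun z' hz' => ?_
  have h1 : S.σ * ∑ h', r h' z' ≤ B * S.Λ * PT T / z'.p := by
    by_cases hn : Nd (z' ::ₘ T)
    · have h2 := hS.lk _ hn (hS.Sm_mono (by norm_num) (hS.Sm_cons hz' hT))
      rw [PT_cons] at h2
      have h3 : ∑ h', r h' z' ≤ ∑ h', B * ind (S.Lk (z' ::ₘ T) h') := by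
        refine sum_le_sum fun h' _ => ?_
        by_cases h0 : r h' z' = 0
        · rw [h0]; exact mul_nonneg hB (ind_nonneg _)
        · rw [ind_pos (show S.Lk (z' ::ₘ T) h' from (hS.ad0 _ _ _ (ha h' z' hz' h0).1).1), mul_one]
          exact (hr h' z').2
      rw [← mul_sum] at h3
      have h4 := mul_le_mul_of_nonneg_left h3 hS.sig_pos.le
      have h5 := mul_le_mul_of_nonneg_left h2 hB
      have e : B * S.Λ * PT T / z'.p = B * (S.Λ * (PT T / z'.p)) := by ring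
      linarith
    · rw [sum_eq_zero fun h' _ => by_contra fun h0 => hn (ha h' z' hz' h0).2, mul_zero]
      have := hS.lam_pos
      have := PT_nonneg T
      positivity
  rw [← sum_mul, ← mul_assoc]
  have e : B * S.Λ * PT T * (c z' / z'.p) = B * S.Λ * PT T / z'.p * c z' := by ring
  rw [e]
  exact mul_le_mul_of_nonneg_right h1 (hc z')

/-- a weighted sum over points with one more small factor -/
theorem bil1_C (hS : S.Ok) (c : Pt → Prop) (hc : ∑ z ∈ S.P1, ind (c z) / z.p ≤ S.Λ) :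
    S.Ym ^ 2 * ∑ z ∈ S.P1, ind (c z) / z.p / z.p ≤ S.θ ^ 2 * S.Λ := by
  have h1 : S.Ym ^ 2 * ∑ z ∈ S.P1, ind (c z) / z.p / z.p
      ≤ S.θ ^ 2 * ∑ z ∈ S.P1, ind (c z) / z.p := by
    rw [mul_sum, mul_sum]
    refine sum_le_sum fun z hz => ?_
    have h2 := hS.small (hS.p1 z hz).1
    have h3 : S.Ym ^ 2 / z.p ≤ S.Ym ^ 3 / z.p :=
      div_le_div_of_nonneg_right (pow_le_pow_right₀ hS.ym_one (by norm_num)) (Nat.cast_nonneg _)
    have e : S.Ym ^ 2 * (ind (c z) / z.p / z.p) = S.Ym ^ 2 / z.p * (ind (c z) / z.p) := by ring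
    rw [e]
    exact mul_le_mul_of_nonneg_right (h3.trans h2) (div_nonneg (ind_nonneg _) (Nat.cast_nonneg _))
  exact h1.trans (mul_le_mul_of_nonneg_left hc (sq_nonneg _))

/-- the rows of the majorant -/
theorem bil1_row (hS : S.Ok) {T : Multiset Pt} {j : ℕ} {r : H → Pt → ℝ} {B : ℝ} (hN : Nd T)
    (hT : S.Sm 2 T) (hr : ∀ h z, 0 ≤ r h z ∧ r h z ≤ B)
    (ha : ∀ h, ∀ z ∈ S.P1, r h z ≠ 0 → S.ad (some h) (z ::ₘ T) j ∧ Nd (z ::ₘ T))
    {h : H} {z : Pt} (hz : z ∈ S.P1) (h0 : r h z ≠ 0) :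
    S.σ * ∑ h', ∑ z' ∈ S.P1, r h' z' * bil1D S T h z h' z'
      ≤ B * S.Λ ^ 5 * S.θ ^ 2 * PT T ^ 2 * (1 / z.p) := by
  classical
  have hB : 0 ≤ B := (hr h z).1.trans (hr h z).2
  have hq := hS.p_pos (hS.p1 z hz).1
  have hP := PT_nonneg T
  have hL := hS.lam_pos
  have hT8 : S.Sm 8 T := hS.Sm_mono (by norm_num) hT
  have hs8 : S.Sm 8 (z ::ₘ T) := hS.Sm_mono (by norm_num) (hS.Sm_cons hz hT)
  have hY : S.Ym ^ 2 ≤ S.Ym ^ 3 := pow_le_pow_right₀ hS.ym_one (by norm_num)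
  have hsm : S.Ym ^ 2 / z.p ≤ S.θ ^ 2 :=
    (div_le_div_of_nonneg_right hY hq.le).trans (hS.small (hS.p1 z hz).1)
  set X := 2 * S.Ym ^ 2 * PT T / z.p with hX
  have hX0 : 0 ≤ X := by positivity
  set Z := B * S.θ ^ 2 * PT T ^ 2 * (1 / z.p) with hZ
  have hZ0 : 0 ≤ Z := by positivity
  have hW : 0 ≤ B * S.Λ * (PT T / z.p) := by positivity
  have t1 := bil1_A hS hB hr ha (fun h' => S.Λ ^ 2 * PT T / z.p * (ind (some h' ≠ some h)
      * (S.θ ^ 2 + ((1 + S.et (some h) (some h')) ^ 3 - 1)))) (fun h' => by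
    have := ind_nonneg (some h' ≠ some h)
    have := (bil1_dl hS (some h) (some h')).1
    positivity)
  have t2 := bil1_A hS hB hr ha (fun h' => X * ind (h' = h)) fun h' =>
    mul_nonneg hX0 (ind_nonneg _)
  have t3 := bil1_B hS hB hT hr ha (fun z' => X * (ind (z'.p = z.p) / z'.p)) fun z' =>
    mul_nonneg hX0 (div_nonneg (ind_nonneg _) (Nat.cast_nonneg _))
  have t4 := bil1_B hS hB hT hr ha (fun z' => X * (ind (S.on (some h) z') / z'.p)) fun z' =>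
    mul_nonneg hX0 (div_nonneg (ind_nonneg _) (Nat.cast_nonneg _))
  have t5 := bil1_A hS hB hr ha (fun h' => X * ind (S.on (some h') z)) fun h' =>
    mul_nonneg hX0 (ind_nonneg _)
  have t6 := bil1_B hS hB hT hr ha (fun z' => X * ind (z' = z)) fun z' =>
    mul_nonneg hX0 (ind_nonneg _)
  have s1 : B * S.Λ * (S.σ * ∑ h', S.Λ ^ 2 * PT T / z.p * (ind (some h' ≠ some h)
      * (S.θ ^ 2 + ((1 + S.et (some h) (some h')) ^ 3 - 1))) * ind (S.Lk T h'))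
      ≤ (S.Λ ^ 4 + S.Λ ^ 3) * Z := by
    have b1 := hS.row (some h) (z ::ₘ T) j T (ha h z hz h0).1 hN hT8
      fun y hy => Or.inl (Multiset.mem_cons_of_mem hy)
    have b2 := hS.lk T hN hT8
    have b3 : ∑ h', S.Λ ^ 2 * PT T / z.p * (ind (some h' ≠ some h)
        * (S.θ ^ 2 + ((1 + S.et (some h) (some h')) ^ 3 - 1))) * ind (S.Lk T h')
        ≤ S.Λ ^ 2 * PT T / z.p * (S.θ ^ 2 * ∑ h', ind (S.Lk T h') + ∑ h',
          ind (S.Lk T h' ∧ some h' ≠ some h) * ((1 + S.et (some h) (some h')) ^ 3 - 1)) := by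
      rw [mul_sum, ← sum_add_distrib, mul_sum]
      refine sum_le_sum fun h' _ => ?_
      rw [mul_assoc]
      refine mul_le_mul_of_nonneg_left ?_ (by positivity)
      rw [ind_and]
      have := mul_le_mul_of_nonneg_right (ind_le_one (some h' ≠ some h))
        (mul_nonneg (sq_nonneg S.θ) (ind_nonneg (S.Lk T h')))
      linarith
    have b4 := mul_le_mul_of_nonneg_left b3 hS.sig_pos.le
    have b5 := mul_le_mul_of_nonneg_left b2 (sq_nonneg S.θ)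
    have b6 : S.σ * (S.θ ^ 2 * ∑ h', ind (S.Lk T h') + ∑ h',
        ind (S.Lk T h' ∧ some h' ≠ some h) * ((1 + S.et (some h) (some h')) ^ 3 - 1))
        ≤ S.θ ^ 2 * (S.Λ * PT T) + S.θ ^ 2 * PT T := by linarith
    have b7 := mul_le_mul_of_nonneg_left b6 (show 0 ≤ S.Λ ^ 2 * PT T / z.p by positivity)
    have b8 := mul_le_mul_of_nonneg_left (b4.trans (le_of_eq (mul_left_comm _ _ _) |>.trans b7))
      (mul_nonneg hB hL.le)
    refine b8.trans (le_of_eq ?_)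
    rw [hZ]
    ring
  have s2 : B * S.Λ * (S.σ * ∑ h', X * ind (h' = h) * ind (S.Lk T h')) ≤ 2 * S.Λ * Z := by
    have b1 : ∑ h', X * ind (h' = h) * ind (S.Lk T h') ≤ X := by
      rw [sum_eq_single h (fun h' _ e => by rw [ind_neg e]; ring) fun e => absurd (mem_univ h) e,
        ind_pos rfl, mul_one]
      exact mul_le_of_le_one_right hX0 (ind_le_one _)
    have b2 : S.σ * S.Ym ^ 2 ≤ S.θ ^ 2 * PT T :=
      (mul_le_mul_of_nonneg_left hY hS.sig_pos.le).trans (hS.atom' hT8)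
    have b3 := mul_le_mul_of_nonneg_left (mul_le_mul_of_nonneg_left b1 hS.sig_pos.le)
      (mul_nonneg hB hL.le)
    have b4 := mul_le_mul_of_nonneg_left b2 hW
    have e1 : B * S.Λ * (S.σ * X) = 2 * (B * S.Λ * (PT T / z.p) * (S.σ * S.Ym ^ 2)) := by
      rw [hX]; ring
    have e2 : 2 * S.Λ * Z = 2 * (B * S.Λ * (PT T / z.p) * (S.θ ^ 2 * PT T)) := by rw [hZ]; ring
    linarith
  have s34 : ∀ c : Pt → Prop, ∑ z' ∈ S.P1, ind (c z') / z'.p ≤ S.Λ →
      B * S.Λ * PT T * ∑ z' ∈ S.P1, X * (ind (c z') / z'.p) / z'.p ≤ 2 * S.Λ ^ 2 * Z := by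
    intro c hc
    have b1 := mul_le_mul_of_nonneg_left (bil1_C hS c hc) (mul_nonneg hW hP)
    have e1 : B * S.Λ * PT T * ∑ z' ∈ S.P1, X * (ind (c z') / z'.p) / z'.p
        = 2 * (B * S.Λ * (PT T / z.p) * PT T
          * (S.Ym ^ 2 * ∑ z' ∈ S.P1, ind (c z') / z'.p / z'.p)) := by
      simp only [mul_div_assoc, ← mul_sum]
      rw [hX]; ring
    have e2 : 2 * S.Λ ^ 2 * Z = 2 * (B * S.Λ * (PT T / z.p) * PT T * (S.θ ^ 2 * S.Λ)) := by
      rw [hZ]; ring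
    linarith
  have s3 := s34 (fun z' => z'.p = z.p) (hS.fib z.p)
  have s4 := s34 (fun z' => S.on (some h) z') (hS.line (some h))
  have s5 : B * S.Λ * (S.σ * ∑ h', X * ind (S.on (some h') z) * ind (S.Lk T h'))
      ≤ 2 * S.Λ ^ 2 * Z := by
    have b1 := hS.lk _ (ha h z hz h0).2 hs8
    rw [PT_cons] at b1
    have b2 : ∑ h', X * ind (S.on (some h') z) * ind (S.Lk T h')
        = X * ∑ h', ind (S.Lk (z ::ₘ T) h') := by
      rw [mul_sum]
      refine sum_congr rfl fun h' _ => ?_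
      rw [mul_assoc, ← ind_and]
      congr 1
      exact ind_congr (by simp [Sys.Lk])
    have b3 := mul_le_mul_of_nonneg_left b1 (mul_nonneg (mul_nonneg hB hL.le) hX0)
    have b4 := mul_le_mul_of_nonneg_left hsm (mul_nonneg (mul_nonneg hW hP) hL.le)
    have e1 : B * S.Λ * X * (S.Λ * (PT T / z.p))
        = 2 * (B * S.Λ * (PT T / z.p) * PT T * S.Λ * (S.Ym ^ 2 / z.p)) := by rw [hX]; ring
    have e2 : 2 * S.Λ ^ 2 * Z = 2 * (B * S.Λ * (PT T / z.p) * PT T * S.Λ * S.θ ^ 2) := by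
      rw [hZ]; ring
    rw [b2]
    linarith
  have s6 : B * S.Λ * PT T * ∑ z' ∈ S.P1, X * ind (z' = z) / z'.p ≤ 2 * S.Λ * Z := by
    rw [sum_eq_single z (fun z' _ e => by rw [ind_neg e]; ring) fun e => absurd hz e,
      ind_pos rfl, mul_one]
    have b4 := mul_le_mul_of_nonneg_left hsm (mul_nonneg hW hP)
    have e1 : B * S.Λ * PT T * (X / z.p)
        = 2 * (B * S.Λ * (PT T / z.p) * PT T * (S.Ym ^ 2 / z.p)) := by rw [hX]; ring
    have e2 : 2 * S.Λ * Z = 2 * (B * S.Λ * (PT T / z.p) * PT T * S.θ ^ 2) := by rw [hZ]; ring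
    linarith
  have hc : S.Λ ^ 4 + S.Λ ^ 3 + 2 * S.Λ + 2 * S.Λ ^ 2 + 2 * S.Λ ^ 2 + 2 * S.Λ ^ 2 + 2 * S.Λ
      ≤ S.Λ ^ 5 := by
    have b1 : S.Λ ^ 1 ≤ S.Λ ^ 4 := hS.pow_mono (by norm_num)
    have b2 : S.Λ ^ 2 ≤ S.Λ ^ 4 := hS.pow_mono (by norm_num)
    have b3 : S.Λ ^ 3 ≤ S.Λ ^ 4 := hS.pow_mono (by norm_num)
    have b4 := mul_le_mul_of_nonneg_right hS.num.1 (pow_pos hL 4).le
    have b5 := pow_pos hL 4
    nlinarith
  have hc' := mul_le_mul_of_nonneg_right hc hZ0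
  have e : B * S.Λ ^ 5 * S.θ ^ 2 * PT T ^ 2 * (1 / z.p) = S.Λ ^ 5 * Z := by rw [hZ]; ring
  unfold bil1D
  rw [← hX, e]
  simp only [mul_add (r _ _), sum_add_distrib, mul_add S.σ]
  linarith

theorem rBil1 : OfBil1 := by
  refine ⟨5, ?_⟩
  intro G H Cl _ _ S hS T j r a B hN hT hr ha h0
  set I : Finset (H × Pt) := univ ×ˢ S.P1 with hI
  set Y : H × Pt → G → ℝ := fun i => S.Y (some i.1) (i.2 ::ₘ T) j with hY
  set m : H × Pt → ℝ := fun i => S.fm (some i.1) (i.2 ::ₘ T) j / i.2.p with hm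
  have key := bil1_schur I (fun i => r i.1 i.2) (fun i => a i.1 i.2) (fun i => 1 / (i.2.p : ℝ))
    (fun i i' => S.E (fun g => Y i g * Y i' g) - PT T * (m i * m i'))
    (fun i i' => bil1D S T i.1 i.2 i'.1 i'.2) S.σ (B * S.Λ ^ 5 * S.θ ^ 2 * PT T ^ 2)
    hS.sig_pos.le (fun i => (hr i.1 i.2).1)
    (fun i i' => by simp only [mul_comm (Y i _), mul_comm (m i)])
    (fun i hi i' hi' b b' => by
      have hz := (mem_product.1 hi).2
      have hz' := (mem_product.1 hi').2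
      exact bil1_K hS hT hz hz' (ha _ _ hz b).1 (ha _ _ hz b).2 (ha _ _ hz' b').1 (ha _ _ hz' b').2)
    (fun i hi b => by
      rw [hI, sum_product]
      exact bil1_row hS hN hT hr ha (mem_product.1 hi).2 b)
  have e0 : ∑ i ∈ I, r i.1 i.2 * a i.1 i.2 * m i = 0 := by
    rw [hI, sum_product, ← h0]
    simp only [hm, mul_div_assoc]
  have e1 : S.E (fun g => (S.σ * ∑ h, ∑ z ∈ S.P1, r h z * a h z * S.Y (some h) (z ::ₘ T) j g) ^ 2)
      = S.σ ^ 2 * ∑ i ∈ I, ∑ i' ∈ I, r i.1 i.2 * a i.1 i.2 * (r i'.1 i'.2 * a i'.1 i'.2)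
        * S.E (fun g => Y i g * Y i' g) := by
    simp only [← S.E_mul, ← S.E_sum]
    refine S.E_congr fun g _ => ?_
    have e : ∑ h, ∑ z ∈ S.P1, r h z * a h z * S.Y (some h) (z ::ₘ T) j g
        = ∑ i ∈ I, r i.1 i.2 * a i.1 i.2 * Y i g := by rw [hI, sum_product]
    rw [e, mul_pow, sq (∑ i ∈ I, _), sum_mul_sum]
    congr 1
    exact sum_congr rfl fun i _ => sum_congr rfl fun i' _ => by ring
  have e2 : ∑ i ∈ I, ∑ i' ∈ I, r i.1 i.2 * a i.1 i.2 * (r i'.1 i'.2 * a i'.1 i'.2)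
      * (PT T * (m i * m i')) = 0 := by
    have e : ∑ i ∈ I, ∑ i' ∈ I, r i.1 i.2 * a i.1 i.2 * (r i'.1 i'.2 * a i'.1 i'.2)
        * (PT T * (m i * m i')) = PT T * ((∑ i ∈ I, r i.1 i.2 * a i.1 i.2 * m i)
          * ∑ i ∈ I, r i.1 i.2 * a i.1 i.2 * m i) := by
      rw [sum_mul_sum, mul_sum]
      refine sum_congr rfl fun i _ => ?_
      rw [mul_sum]
      exact sum_congr rfl fun i' _ => by ring
    rw [e, e0]
    ring
  have e3 : ∑ h, ∑ z ∈ S.P1, r h z / z.p * a h z ^ 2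
      = ∑ i ∈ I, r i.1 i.2 * (1 / (i.2.p : ℝ)) * a i.1 i.2 ^ 2 := by
    rw [hI, sum_product]
    simp only [mul_one_div]
  rw [e1, e3]
  simp only [mul_sub, sum_sub_distrib, e2, sub_zero] at key
  exact key

end Pool.Agent.MP_f3836a_nt.VE.F
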