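import Pool.Agent.MP_f3836a_nt.VE.FBase

/-! Row Cru: crude bounds. -/

set_option autoImplicit false

namespace Pool.Agent.MP_f3836a_nt.VE.F

open Finset

variable {G H Cl : Type} [Fintype H] [Fintype Cl] {S : Sys G H Cl}

theorem cru_link (hS : S.Ok) {T : Multiset Pt} (hn : Nd T) (hT : S.Sm 8 T) {F : H → ℝ} {B : ℝ}
    (hB : 0 ≤ B) (hF : ∀ h, F h ≠ 0 → S.Lk T h ∧ F h ≤ B) :
    S.σ * ∑ h, F h ≤ B * (S.Λ * PT T) := by
  have a : ∑ h, F h ≤ B * ∑ h, ind (S.Lk T h) := by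
    rw [mul_sum]
    refine sum_le_sum fun h _ => ?_
    by_cases e : F h = 0
    · rw [e]
      exact mul_nonneg hB (ind_nonneg _)
    · rw [ind_pos (hF h e).1, mul_one]
      exact (hF h e).2
  refine (mul_le_mul_of_nonneg_left a hS.sig_pos.le).trans ?_
  rw [mul_left_comm]
  exact mul_le_mul_of_nonneg_left (hS.lk T hn hT) hB

theorem cru_n2 (hS : S.Ok) {g : G} (hg : g ∈ S.Gs) {z z' : Pt} (hz : z ∈ S.P1) (hz' : z' ∈ S.P1) :
    |S.N2 g z z' - S.n0 z * S.n0 z' * S.f2 z z'| ≤ S.Λ ^ 3 * S.Ym / (z.p * z'.p) := by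
  have l0 := hS.lam_pos
  have y1 := hS.ym_one
  have q := hS.p_pos (hS.p1 z hz).1
  have q' := hS.p_pos (hS.p1 z' hz').1
  have a0 : 0 ≤ S.N2 g z z' := mul_nonneg hS.sig_pos.le (sum_nonneg fun h _ =>
    mul_nonneg (mul_nonneg (hS.wz_nonneg h z) (hS.wz_nonneg h z')) (hS.Y_nonneg _ _ _ _))
  have a1 : S.N2 g z z' ≤ S.Λ ^ 3 * S.Ym / (z.p * z'.p) := by
    by_cases e : z.p = z'.p
    · have : S.N2 g z z' = 0 := mul_eq_zero_of_right _ (sum_eq_zero fun h _ =>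
        mul_eq_zero_of_right _ (by_contra fun y =>
          (Nd_cons.1 (hS.Y_nd y)).1 z (Multiset.mem_singleton_self z) e))
      rw [this]
      positivity
    · refine (cru_link hS (B := S.Λ * S.Λ * S.Ym) (Nd_cons.2 ⟨by simpa using e, Nd_single z⟩)
        (hS.Sm_mono (by norm_num) (hS.Sm_cons hz' (hS.Sm_single hz))) (by positivity)
        fun h y => ?_).trans (le_of_eq ?_)
      · obtain ⟨w, w'⟩ := mul_ne_zero_iff.1 (left_ne_zero_of_mul y)
        have ad := hS.ad_pair w w' e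
        exact ⟨(hS.ad0 _ _ _ ad).1, mul_le_mul (mul_le_mul (hS.wz_le h z) (hS.wz_le h z')
          (hS.wz_nonneg h z') l0.le) (hS.Y_le hg ad) (hS.Y_nonneg _ _ _ _) (by positivity)⟩
      · rw [PT_cons, PT_single]
        field_simp
  have n := hS.n0_pos hz
  have n' := hS.n0_pos hz'
  have b0 : 0 ≤ S.n0 z * S.n0 z' * S.f2 z z' := mul_nonneg (by positivity) (hS.f2_bd z z').1
  have b1 : S.n0 z * S.n0 z' * S.f2 z z' ≤ S.Λ ^ 3 * S.Ym / (z.p * z'.p) := by
    refine (mul_le_of_le_one_right (by positivity) (hS.f2_bd z z').2).trans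
      ((mul_le_mul (hS.p1 z hz).2.2.2.2.1 (hS.p1 z' hz').2.2.2.2.1 n'.le (by positivity)).trans ?_)
    rw [div_mul_div_comm, ← sq]
    exact div_le_div_of_nonneg_right ((hS.pow_mono (by norm_num)).trans
      (le_mul_of_one_le_right (by positivity) y1)) (by positivity)
  rw [abs_le]
  constructor <;> linarith

theorem cru_a (hS : S.Ok) {g : G} (hg : g ∈ S.Gs) {z : Pt} (hz : z ∈ S.P1) :
    S.dva g z ≤ 2 * (S.Λ ^ 4 * S.Ym / z.p) := by
  have l0 := hS.lam_pos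
  have y1 := hS.ym_one
  have q := hS.p_pos (hS.p1 z hz).1
  have n := hS.n0_pos hz
  have a0 : S.dva g z ≤ ∑ c, S.N1 g z c + S.n0 z * S.f1 z * ∑ c, S.mc c := by
    rw [mul_sum, ← sum_add_distrib]
    refine sum_le_sum fun c _ => ?_
    have b0 : 0 ≤ S.N1 g z c := mul_nonneg hS.sig_pos.le (sum_nonneg fun h _ =>
      mul_nonneg (mul_nonneg (ind_nonneg _) (hS.wz_nonneg h z)) (hS.Y_nonneg _ _ _ _))
    have b1 : 0 ≤ S.n0 z * S.f1 z * S.mc c :=
      mul_nonneg (mul_nonneg n.le (hS.f1_bd z).1) (hS.mc0.1 c)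
    rw [abs_le]
    constructor <;> linarith
  have a1 : ∑ c, S.N1 g z c = S.σ * ∑ h, S.wz h z * S.Y (some h) {z} (S.k + 1) g := by
    unfold Sys.N1
    rw [← mul_sum, sum_comm]
    refine congrArg _ (sum_congr rfl fun h _ => ?_)
    rw [sum_eq_single (S.cell h) (fun c _ hc => by rw [ind_neg hc.symm, zero_mul, zero_mul])
      fun c => absurd (mem_univ _) c, ind_pos rfl, one_mul]
  have a2 := cru_link hS (B := S.Λ * S.Ym) (Nd_single z) (hS.Sm_mono (by norm_num) (hS.Sm_single hz))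
    (F := fun h => S.wz h z * S.Y (some h) {z} (S.k + 1) g) (by positivity) fun h y => by
      have ad := hS.ad_single (left_ne_zero_of_mul y)
      exact ⟨(hS.ad0 _ _ _ ad).1, mul_le_mul (hS.wz_le h z) (hS.Y_le hg ad) (hS.Y_nonneg _ _ _ _)
        l0.le⟩
  have a3 : S.Λ * S.Ym * (S.Λ * PT {z}) ≤ S.Λ ^ 4 * S.Ym / z.p := by
    rw [PT_single, mul_one_div, ← mul_div_assoc, mul_right_comm, ← sq]
    exact div_le_div_of_nonneg_right (mul_le_mul_of_nonneg_right (hS.pow_mono (by norm_num))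
      (by positivity)) q.le
  have a4 : S.n0 z * S.f1 z ≤ S.Λ ^ 4 * S.Ym / z.p :=
    (mul_le_of_le_one_right n.le (hS.f1_bd z).2).trans ((hS.p1 z hz).2.2.2.2.1.trans
      (div_le_div_of_nonneg_right ((le_self_pow₀ hS.one_le (by norm_num)).trans
        (le_mul_of_one_le_right (by positivity) y1)) q.le))
  rw [hS.mc0.2, mul_one, a1] at a0
  linarith

theorem cru_b (hS : S.Ok) {g : G} (hg : g ∈ S.Gs) {z : Pt} (hz : z ∈ S.P1) :
    S.dvb g z ≤ S.Λ ^ 4 * S.Ym / z.p := by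
  have l0 := hS.lam_pos
  have y1 := hS.ym_one
  have a : S.dvb g z ≤ S.Λ ^ 3 * S.Ym / z.p * ∑ z' ∈ S.P1, ind (S.zr g z') / z'.p := by
    rw [mul_sum]
    refine sum_le_sum fun z' hz' =>
      (mul_le_mul_of_nonneg_left (cru_n2 hS hg hz hz') (ind_nonneg _)).trans (le_of_eq ?_)
    ring
  refine a.trans ((mul_le_mul_of_nonneg_left (hS.zer g hg) (by positivity)).trans (le_of_eq ?_))
  ring

theorem rCru : OfCru := by
  refine ⟨5, fun S hS g hg z hz => ⟨fun z' hz' => (cru_n2 hS hg hz hz').trans ?_, ?_⟩⟩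
  · have y1 := hS.ym_one
    exact div_le_div_of_nonneg_right (mul_le_mul_of_nonneg_right (hS.pow_mono (by norm_num))
      (by positivity)) (by positivity)
  · have l0 := hS.lam_pos
    have y1 := hS.ym_one
    have a : 100 * (S.Λ ^ 4 * S.Ym / z.p) ≤ S.Λ * (S.Λ ^ 4 * S.Ym / z.p) :=
      mul_le_mul_of_nonneg_right hS.num.1 (by positivity)
    have b : 0 ≤ S.Λ ^ 4 * S.Ym / z.p := by positivity
    have c : S.Λ ^ 5 * S.Ym / z.p = S.Λ * (S.Λ ^ 4 * S.Ym / z.p) := by ring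
    unfold Sys.dev1
    linarith [cru_a hS hg hz, cru_b hS hg hz]

end Pool.Agent.MP_f3836a_nt.VE.F
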