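import Pool.Agent.MP_f3836a_nt.VE.FBase

/-! Part F: degenerate points. -/

set_option autoImplicit false

namespace Pool.Agent.MP_f3836a_nt.VE.F

open Finset

theorem deg_mass {G H Cl : Type} [Fintype H] [Fintype Cl] {S : Sys G H Cl} (hS : S.Ok)
    (c : Option H) {T : Multiset Pt} (hT : (T.card : ℝ) ≤ 8 * S.Λ) :
    ∑ z ∈ S.P1, ind (S.Dg c T z) / z.p ≤ 9 * S.Λ ^ 2 := by
  have h1 : ∑ z ∈ S.P1, ind (S.Dg c T z) / z.p ≤ ∑ z ∈ S.P1,
      (∑ z' ∈ T.toFinset, ind (z.p = z'.p) / z.p + ind (S.on c z) / z.p) := by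
    refine sum_le_sum fun z _ => ?_
    rw [← sum_div, ← add_div]
    refine div_le_div_of_nonneg_right ?_ (Nat.cast_nonneg _)
    have h0 : 0 ≤ ∑ z' ∈ T.toFinset, ind (z.p = z'.p) := sum_nonneg fun _ _ => ind_nonneg _
    by_cases h : S.Dg c T z
    · rw [ind_pos h]
      rcases h with ⟨z', hz', e⟩ | h
      · have := single_le_sum (f := fun z' : Pt => ind (z.p = z'.p)) (fun _ _ => ind_nonneg _)
          (Multiset.mem_toFinset.2 hz')
        rw [ind_pos e.symm] at this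
        linarith [ind_nonneg (S.on c z)]
      · rw [ind_pos h]; linarith
    · rw [ind_neg h]; linarith [ind_nonneg (S.on c z)]
  rw [sum_add_distrib, sum_comm] at h1
  have h2 := sum_le_card_nsmul T.toFinset (fun z' => ∑ z ∈ S.P1, ind (z.p = z'.p) / z.p) S.Λ
    fun z' _ => hS.fib z'.p
  rw [nsmul_eq_mul] at h2
  have h3 : (T.toFinset.card : ℝ) ≤ T.card := by exact_mod_cast T.toFinset_card_le
  have h4 := mul_le_mul_of_nonneg_right (h3.trans hT) hS.lam_pos.le
  nlinarith [hS.line c, hS.one_le]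

theorem rDeg : OfDeg := by
  refine ⟨3, fun S hS c T hn hT => ?_⟩
  have h8 := hS.Sm_mono (by norm_num : 6 ≤ 8) hT
  have hc := hS.Sm_card h8
  have hD := deg_mass hS c hc
  have hL := hS.num.1
  have hP := PT_nonneg T
  have hθ := sq_nonneg S.θ
  constructor
  · have h1 : ∑ z ∈ S.P1, ind (S.Dg c T z) * (S.Ym ^ 3 / z.p) * S.E (S.I (z ::ₘ T))
        ≤ ∑ z ∈ S.P1, (ind (z ∈ T) + ind (S.Dg c T z) / z.p) * (2 * (S.θ ^ 2 * PT T)) := by
      refine sum_le_sum fun z hz => ?_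
      have hs := hS.small (hS.p1 z hz).1
      have h0 : 0 ≤ ind (S.Dg c T z) / z.p := div_nonneg (ind_nonneg _) (Nat.cast_nonneg _)
      have hE : 0 ≤ S.E (S.I (z ::ₘ T)) := S.E_nonneg fun g _ => S.I_nonneg _ g
      have a1 : ind (S.Dg c T z) * (S.Ym ^ 3 / z.p) * S.E (S.I (z ::ₘ T))
          ≤ ind (S.Dg c T z) * S.θ ^ 2 * S.E (S.I (z ::ₘ T)) :=
        mul_le_mul_of_nonneg_right (mul_le_mul_of_nonneg_left hs (ind_nonneg _)) hE
      refine a1.trans ?_
      by_cases h : z ∈ T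
      · have a2 : S.E (S.I (z ::ₘ T)) ≤ 2 * PT T := by
          refine le_trans (S.E_mono fun g _ => ?_) (hS.tb1 hn h8)
          rw [S.I_cons]
          exact mul_le_of_le_one_left (S.I_nonneg _ _) (ind_le_one _)
        have a3 := mul_le_mul (mul_le_of_le_one_left hθ (ind_le_one (S.Dg c T z))) a2 hE hθ
        rw [ind_pos h]
        nlinarith [mul_nonneg h0 (mul_nonneg hθ hP)]
      · have a2 := hS.tb2 hn h (hS.Sm_mono (by norm_num : 6 + 1 ≤ 8) (hS.Sm_cons hz hT))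
        rw [ind_neg h, zero_add]
        refine (mul_le_mul_of_nonneg_left a2 (mul_nonneg (ind_nonneg _) hθ)).trans_eq ?_
        ring
    rw [← sum_mul, sum_add_distrib] at h1
    have h2 : ∑ z ∈ S.P1, ind (z ∈ T) ≤ T.card := by
      rw [← sum_filter_add_sum_filter_not S.P1 (· ∈ T), sum_congr rfl fun z hz =>
        ind_pos (mem_filter.1 hz).2, sum_congr rfl fun z hz => ind_neg (mem_filter.1 hz).2]
      simp only [sum_const, nsmul_eq_mul, mul_one, mul_zero, add_zero, Nat.cast_le]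
      exact (card_le_card fun z hz => Multiset.mem_toFinset.2 (mem_filter.1 hz).2).trans
        T.toFinset_card_le
    refine h1.trans ?_
    rw [mul_assoc, ← mul_assoc _ 2]
    refine mul_le_mul_of_nonneg_right ?_ (mul_nonneg hθ hP)
    nlinarith [mul_le_mul_of_nonneg_right hL (sq_nonneg S.Λ)]
  · have h1 : ∑ z ∈ S.P1, ind (S.Dg c T z) * (S.Ym ^ 3 / (z.p : ℝ) ^ 2)
        ≤ ∑ z ∈ S.P1, ind (S.Dg c T z) / z.p * S.θ ^ 2 := by
      refine sum_le_sum fun z hz => ?_
      refine le_trans (le_of_eq ?_) (mul_le_mul_of_nonneg_left (hS.small (hS.p1 z hz).1)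
        (div_nonneg (ind_nonneg _) (Nat.cast_nonneg _)))
      ring
    rw [← sum_mul] at h1
    refine h1.trans (mul_le_mul_of_nonneg_right ?_ hθ)
    nlinarith [mul_le_mul_of_nonneg_right hL (sq_nonneg S.Λ)]

end Pool.Agent.MP_f3836a_nt.VE.F
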