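import Pool.Agent.MP_f3836a_nt.VE.FBase

/-! The zeros of a big curve are equidistributed in the coarse cells. -/

set_option autoImplicit false

namespace Pool.Agent.MP_f3836a_nt.VE.F

open Finset Sys

section

variable {G H Cl : Type} [Fintype H] [Fintype Cl] {S : Sys G H Cl} {c : Option H}
  {T : Multiset Pt} {j : ℕ}

theorem dg0_one (hS : S.Ok) (h : S.An c T j) : S.E (S.Y c T j) ≤ 2 * S.Λ * PT T := by
  rw [← S.E_congr fun g hg => hS.I_Y hg h.1 h.2.2]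
  exact hS.eq1_le h.2.1 (hS.Sm_mono (by norm_num) h.2.2) (S.Cf_self h.1)

theorem dg0_ym (hS : S.Ok) : S.Λ ≤ S.Ym ^ 3 ∧ S.Λ * S.Ym ≤ S.Ym ^ 3 ∧ S.Ym ≤ S.Ym ^ 3 := by
  have h1 := hS.ym_one
  have h2 := hS.num.2.1
  have h3 := le_self_pow₀ h1 three_ne_zero
  exact ⟨h2.trans h3, (mul_le_mul_of_nonneg_right h2 (by linarith)).trans
    ((sq _).ge.trans (pow_le_pow_right₀ h1 (by norm_num))), h3⟩

theorem dg0_kap (hS : S.Ok) (h : S.An c T j) {z z' : Pt} (hz : z ∈ S.P1) (hz' : z' ∈ S.P1)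
    (g1 : ¬S.Dg c T z) (g2 : ¬S.Dg c T z') :
    S.E (fun g => S.Y c T j g * ((ind (S.zr g z) - 1 / z.p) * (ind (S.zr g z') - 1 / z'.p))) ≤
      PT T / z.p * (4 * S.θ ^ 2 * S.Λ / z'.p + ind (z = z') * (2 * S.Λ) +
        ind (z'.p = z.p) / z'.p * (4 * S.Ym)) := by
  obtain ⟨ha, hn, hs⟩ := h
  have nd : ∀ {w : Pt}, ¬S.Dg c T w → Nd (w ::ₘ T) := fun g =>
    Nd_cons.2 ⟨fun v hv e => g (.inl ⟨v, hv, e⟩), hn⟩
  have cf : ∀ {w : Pt}, ¬S.Dg c T w → S.Cf c T j (w ::ₘ T) := fun g =>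
    S.Cf_cons (S.Cf_self ha) fun e => g (.inr e)
  have s0 := hS.Sm_mono (by norm_num : 2 ≤ 8) hs
  have s1 := hS.Sm_mono (by norm_num : 3 ≤ 8) (hS.Sm_cons hz hs)
  have s2 := hS.Sm_mono (by norm_num : 3 ≤ 8) (hS.Sm_cons hz' hs)
  have s3 := hS.Sm_mono (by norm_num : 4 ≤ 8) (hS.Sm_cons hz' (hS.Sm_cons hz hs))
  have e : S.E (fun g => S.Y c T j g * ((ind (S.zr g z) - 1 / z.p) * (ind (S.zr g z') - 1 / z'.p)))
      = S.E (fun g => S.I (z' ::ₘ z ::ₘ T) g * S.Y c T j g)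
        - 1 / z'.p * S.E (fun g => S.I (z ::ₘ T) g * S.Y c T j g)
        - 1 / z.p * S.E (fun g => S.I (z' ::ₘ T) g * S.Y c T j g)
        + 1 / z.p * (1 / z'.p) * S.E (fun g => S.I T g * S.Y c T j g) := by
    simp only [← E_mul, ← E_sub, ← E_add, I_cons]
    exact S.E_congr fun g hg => by
      linear_combination (-((ind (S.zr g z) - 1 / z.p) * (ind (S.zr g z') - 1 / z'.p))) *
        hS.I_Y hg ha hs
  have pos : ∀ T', 0 ≤ S.E fun g => S.I T' g * S.Y c T j g := fun T' =>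
    S.E_nonneg fun g _ => mul_nonneg (S.I_nonneg _ _) (hS.Y_nonneg _ _ _ _)
  have u0 : (0 : ℝ) ≤ 1 / z.p := by positivity
  have u1 : (0 : ℝ) ≤ 1 / z'.p := by positivity
  have P0 := PT_nonneg T
  have L0 := hS.lam_pos
  have hP : 0 ≤ PT T * (1 / z.p * (1 / z'.p)) := by positivity
  rw [e]
  by_cases hp : z'.p = z.p
  · have a0 := mul_le_mul_of_nonneg_left (hS.eq1_le hn s0 (S.Cf_self ha)) (mul_nonneg u0 u1)
    have a1 := mul_nonneg u1 (pos (z ::ₘ T))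
    have a2 := mul_nonneg u0 (pos (z' ::ₘ T))
    have a3 := mul_le_mul_of_nonneg_right hS.num.2.1 hP
    have a4 := mul_nonneg (mul_nonneg (sq_nonneg S.θ) L0.le) hP
    have a5 := mul_nonneg L0.le hP
    rw [ind_pos hp]
    by_cases hzz : z = z'
    · have a6 := (S.E_mono (F := fun g => S.I (z' ::ₘ z ::ₘ T) g * S.Y c T j g) fun g _ =>
        mul_le_mul_of_nonneg_right ((S.I_cons _ _ _).trans_le (mul_le_of_le_one_left
          (S.I_nonneg _ _) (ind_le_one _))) (hS.Y_nonneg _ _ _ _)).trans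
            (hS.eq1_le (nd g1) s1 (cf g1))
      rw [ind_pos hzz]
      simp only [PT_cons, div_eq_mul_one_div (PT T), div_eq_mul_one_div (_ * S.Λ)] at a6 ⊢
      linarith
    · have a6 := (S.E_mono (F := fun g => S.I (z' ::ₘ z ::ₘ T) g * S.Y c T j g)
        (F' := fun g => S.Ym * S.I (z' ::ₘ z ::ₘ T) g) fun g hg => (mul_comm _ _).trans_le
          (mul_le_mul_of_nonneg_right (hS.Y_le hg ha) (S.I_nonneg _ _))).trans_eq (S.E_mul _ _)
      have a7 := mul_le_mul_of_nonneg_left (hS.tb2 (nd g1) (fun m => (Multiset.mem_cons.1 m).elim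
        (fun e => hzz e.symm) fun m => g2 (.inl ⟨_, m, rfl⟩)) s3) (zero_le_one.trans hS.ym_one)
      rw [ind_neg hzz]
      simp only [PT_cons, div_eq_mul_one_div (PT T), div_eq_mul_one_div (_ * _)] at a7 ⊢
      linarith
  · have a0 := mul_le_mul_of_nonneg_left (abs_le.1 (hS.eq1 hn s0 (S.Cf_self ha))).2
      (mul_nonneg u0 u1)
    have a1 := mul_le_mul_of_nonneg_left (abs_le.1 (hS.eq1 (nd g1) s1 (cf g1))).1 u1
    have a2 := mul_le_mul_of_nonneg_left (abs_le.1 (hS.eq1 (nd g2) s2 (cf g2))).1 u0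
    have a3 := (abs_le.1 (hS.eq1 (Nd_cons.2 ⟨fun v hv => (Multiset.mem_cons.1 hv).elim
      (fun e => e ▸ Ne.symm hp) fun m e => g2 (.inl ⟨v, m, e⟩), nd g1⟩) s3
        (S.Cf_cons (cf g1) fun e => g2 (.inr e)))).2
    have a4 := mul_le_mul_of_nonneg_right (hS.fm_le ha) (mul_nonneg (sq_nonneg S.θ) hP)
    rw [ind_neg hp, ind_neg fun e : z = z' => hp (e ▸ rfl), zero_div]
    simp only [PT_cons, div_eq_mul_one_div (PT T), div_eq_mul_one_div (_ * _)] at a1 a2 a3 ⊢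
    linarith

theorem dg0_sq (hS : S.Ok) (h : S.An c T j) (a : Pt → ℝ)
    (ha : ∀ z ∈ S.P1, 0 ≤ a z ∧ a z ≤ S.n0 z ∧ (S.Dg c T z → a z = 0)) :
    S.E (fun g => S.Y c T j g * (∑ z ∈ S.P1, a z * (ind (S.zr g z) - 1 / z.p)) ^ 2) ≤
      2 * S.Λ * PT T * (4 * S.θ) ^ 2 := by
  have P0 := PT_nonneg T
  have L0 := hS.lam_pos
  have Y0 := zero_le_one.trans hS.ym_one
  have hl : ∀ z ∈ S.P1, S.n0 z ≤ S.θ ^ 2 ∧ S.n0 z * S.Ym ≤ S.θ ^ 2 := fun z hz => by
    have h1 := (hS.p1 z hz).2.2.2.2.1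
    have h2 := hS.small (hS.p1 z hz).1
    refine ⟨h1.trans (le_trans ?_ h2), (mul_le_mul_of_nonneg_right h1 Y0).trans
      ((div_mul_eq_mul_div _ _ _).trans_le (le_trans ?_ h2))⟩ <;> gcongr
    exacts [(dg0_ym hS).1, (dg0_ym hS).2.1]
  have row : ∀ z ∈ S.P1, ∑ z' ∈ S.P1, S.n0 z' * (4 * S.θ ^ 2 * S.Λ / z'.p +
      ind (z = z') * (2 * S.Λ) + ind (z'.p = z.p) / z'.p * (4 * S.Ym)) ≤
      14 * S.Λ * S.θ ^ 2 := fun z hz => by
    have h1 : ∑ z' ∈ S.P1, S.n0 z' * (ind (z = z') * (2 * S.Λ)) = S.n0 z * (2 * S.Λ) := by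
      rw [sum_eq_single_of_mem z hz fun _ _ e => by simp [ind_neg e.symm], ind_pos rfl, one_mul]
    have h2 : ∑ z' ∈ S.P1, S.n0 z' * (ind (z'.p = z.p) / z'.p * (4 * S.Ym)) ≤
        4 * S.θ ^ 2 * ∑ z' ∈ S.P1, ind (z'.p = z.p) / z'.p := by
      rw [mul_sum]
      refine sum_le_sum fun w hw => ?_
      linarith [mul_le_mul_of_nonneg_right (hl w hw).2
        (div_nonneg (ind_nonneg (w.p = z.p)) (Nat.cast_nonneg w.p))]
    have h3 : ∑ z' ∈ S.P1, S.n0 z' * (4 * S.θ ^ 2 * S.Λ / z'.p) =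
        4 * S.θ ^ 2 * S.Λ * ∑ z' ∈ S.P1, S.n0 z' / z'.p := by
      rw [mul_sum]
      exact sum_congr rfl fun _ _ => by ring
    simp only [mul_add, sum_add_distrib, h1, h3]
    linarith [mul_le_mul_of_nonneg_left (hS.fib z.p) (sq_nonneg S.θ),
      mul_le_mul_of_nonneg_left (hl z hz).1 L0.le,
      mul_le_mul_of_nonneg_left hS.sum_n0 (mul_nonneg (sq_nonneg S.θ) L0.le)]
  calc _ = ∑ z ∈ S.P1, ∑ z' ∈ S.P1, a z * a z' * S.E (fun g => S.Y c T j g *
          ((ind (S.zr g z) - 1 / z.p) * (ind (S.zr g z') - 1 / z'.p))) := by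
        simp only [← E_mul, ← E_sum, sq, sum_mul_sum]
        simp only [mul_sum]
        exact S.E_congr fun g _ => sum_congr rfl fun _ _ => sum_congr rfl fun _ _ => by ring
    _ ≤ ∑ z ∈ S.P1, PT T * (14 * S.Λ * S.θ ^ 2) * (S.n0 z / z.p) := by
        refine sum_le_sum fun z hz => le_trans (sum_le_sum fun z' hz' => ?_)
          ((mul_sum ..).ge.trans ((mul_le_mul_of_nonneg_left (row z hz)
            (show 0 ≤ S.n0 z * (PT T / z.p) by have := hS.n0_pos hz; positivity)).trans_eq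
              (by ring)))
        have b1 := hS.n0_pos hz
        have b2 := hS.n0_pos hz'
        have b3 := ind_nonneg (z = z')
        have b4 := ind_nonneg (z'.p = z.p)
        by_cases g : S.Dg c T z ∨ S.Dg c T z'
        · rw [mul_eq_zero.2 (g.imp (ha z hz).2.2 (ha z' hz').2.2), zero_mul]
          positivity
        · refine (mul_le_mul_of_nonneg_left (dg0_kap hS h hz hz' (not_or.1 g).1 (not_or.1 g).2)
            (mul_nonneg (ha z hz).1 (ha z' hz').1)).trans ((mul_le_mul_of_nonneg_right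
              (mul_le_mul (ha z hz).2.1 (ha z' hz').2.1 (ha z' hz').1 b1.le)
                (by positivity)).trans_eq (by ring))
    _ ≤ _ := by
        rw [← mul_sum]
        linarith [mul_le_mul_of_nonneg_left hS.sum_n0
          (show 0 ≤ PT T * (S.Λ * S.θ ^ 2) by positivity), mul_nonneg P0 (mul_nonneg L0.le
            (sq_nonneg S.θ))]

end

theorem rDg0 : OfDg0 := fun A hD => ⟨A + 3, fun S hS c T j h => by
  obtain ⟨d1, d2⟩ := hD S hS c T h.2.1 (hS.Sm_mono (by norm_num) h.2.2)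
  have P0 := PT_nonneg T
  have L0 := hS.lam_pos
  have t0 := hS.th_pos
  have Y0 := hS.Y_nonneg c T j
  have h1 := dg0_one hS h
  have h2 : S.E (fun g => S.Y c T j g * ∑ z ∈ S.P1, ind (S.Dg c T z) * (S.Λ / z.p) *
      (ind (S.zr g z) + 1 / z.p)) ≤ 3 * S.Λ ^ 2 * (S.Λ ^ A * S.θ ^ 2 * PT T) := by
    have b1 := mul_le_mul_of_nonneg_left d1 L0.le
    have b2 := mul_le_mul_of_nonneg_left d2 (show 0 ≤ 2 * S.Λ ^ 2 * PT T by positivity)
    have b3 : S.Λ * (S.Λ ^ A * S.θ ^ 2 * PT T) ≤ S.Λ ^ 2 * (S.Λ ^ A * S.θ ^ 2 * PT T) := by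
      gcongr
      exact le_self_pow₀ hS.one_le two_ne_zero
    refine le_trans ?_ ((add_le_add b1 b2).trans (by linarith))
    simp only [mul_sum, E_sum, ← sum_add_distrib]
    refine sum_le_sum fun z hz => ?_
    have b4 := ind_nonneg (S.Dg c T z)
    have b5 : S.E (fun g => ind (S.zr g z) * S.Y c T j g) ≤ S.Ym ^ 3 * S.E (S.I (z ::ₘ T)) := by
      rw [← E_mul]
      refine S.E_mono fun g hg => ?_
      rw [← hS.I_Y hg h.1 h.2.2, ← mul_assoc, ← I_cons, mul_comm]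
      exact mul_le_mul_of_nonneg_right ((hS.Y_le hg h.1).trans (dg0_ym hS).2.2) (S.I_nonneg _ _)
    have b6 : S.E (S.Y c T j) ≤ 2 * S.Λ * PT T * S.Ym ^ 3 :=
      h1.trans (le_mul_of_one_le_right (by positivity) (one_le_pow₀ hS.ym_one))
    have b7 := mul_le_mul_of_nonneg_left (add_le_add b5 (mul_le_mul_of_nonneg_left b6
      (show (0 : ℝ) ≤ 1 / z.p by positivity)))
      (show 0 ≤ ind (S.Dg c T z) * (S.Λ / z.p) by positivity)
    refine le_of_eq_of_le ?_ (b7.trans_eq (by ring))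
    rw [← E_mul, ← E_add, ← E_mul]
    exact S.E_congr fun g _ => by ring
  have h3 : ∀ i, S.E (fun g => S.Y c T j g *
      |∑ z ∈ S.P1, ind (S.zr g z) * (ind (S.d z = i) * S.n0 z) - 1 / S.K|) ≤
      2 * S.Λ * PT T * (4 * S.θ) + 3 * S.Λ ^ 2 * (S.Λ ^ A * S.θ ^ 2 * PT T) + 2 * S.Λ * PT T *
        |∑ z ∈ S.P1, ind (S.d z = i) * S.n0 z / z.p - 1 / S.K| := fun i => by
    have b0 : ∀ z ∈ S.P1, 0 ≤ ind (S.d z = i) * S.n0 z ∧ ind (S.d z = i) * S.n0 z ≤ S.n0 z :=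
      fun z hz => ⟨mul_nonneg (ind_nonneg _) (hS.n0_pos hz).le,
        mul_le_of_le_one_left (hS.n0_pos hz).le (ind_le_one _)⟩
    have b1 := S.E_abs (by positivity) (fun g _ => Y0 g) h1 (dg0_sq hS h
      (fun z => ind (¬S.Dg c T z) * (ind (S.d z = i) * S.n0 z)) fun z hz =>
        ⟨mul_nonneg (ind_nonneg _) (b0 z hz).1, (mul_le_of_le_one_left (b0 z hz).1
          (ind_le_one _)).trans (b0 z hz).2, fun e => by rw [ind_neg (not_not.2 e), zero_mul]⟩)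
    have b2 := mul_le_mul_of_nonneg_left h1
      (abs_nonneg (∑ z ∈ S.P1, ind (S.d z = i) * S.n0 z / z.p - 1 / S.K))
    refine le_trans ?_ (add_le_add (add_le_add b1 h2) (b2.trans_eq (mul_comm _ _)))
    rw [← E_mul, ← E_add, ← E_add]
    refine S.E_mono fun g _ => ?_
    rw [mul_comm _ (S.Y c T j g), ← mul_add, ← mul_add]
    refine mul_le_mul_of_nonneg_left ((abs_sub_le _ _ _).trans (add_le_add_left
      ((le_add_of_sub_left_le (abs_sub_abs_le_abs_sub _ _)).trans (add_le_add_right ?_ _)) _))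
      (Y0 g)
    rw [← sum_sub_distrib, ← sum_sub_distrib]
    refine (abs_sum_le_sum_abs _ _).trans (sum_le_sum fun z hz => ?_)
    by_cases e : S.Dg c T z
    · rw [ind_neg (not_not.2 e), ind_pos e, zero_mul, zero_mul, sub_zero, one_mul]
      have b3 := mul_le_mul_of_nonneg_right ((b0 z hz).2.trans (hS.p1 z hz).2.2.2.2.1)
        (add_nonneg (ind_nonneg (S.zr g z)) (show (0 : ℝ) ≤ 1 / z.p by positivity))
      have b4 := mul_nonneg (b0 z hz).1 (ind_nonneg (S.zr g z))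
      have b5 := mul_nonneg (b0 z hz).1 (show (0 : ℝ) ≤ 1 / z.p by positivity)
      rw [div_eq_mul_one_div (_ * _)]
      exact abs_le.2 ⟨by linarith, by linarith⟩
    · rw [ind_pos e, ind_neg e, zero_mul, zero_mul]
      exact (abs_eq_zero.2 (by ring)).le
  simp only [dev0, mul_sum, E_sum]
  refine (sum_le_sum fun i _ => h3 i).trans ?_
  rw [sum_add_distrib, ← mul_sum, sum_const, card_range, nsmul_eq_mul, pow_add]
  have b1 := mul_le_mul_of_nonneg_left (hS.r0.trans hS.th_sq)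
    (show 0 ≤ 2 * S.Λ * PT T by positivity)
  have b2 : 1 ≤ S.Λ ^ A := one_le_pow₀ hS.one_le
  have b3 := hS.num.1
  have b4 : S.Λ ^ A * S.θ ^ 2 * PT T ≤ S.Λ ^ A * (S.θ * PT T) := by
    rw [← mul_assoc]
    gcongr
    exact hS.th_sq
  have b5 : 10 * S.Λ + 3 * S.Λ ^ 2 * S.Λ ^ A ≤ S.Λ ^ A * S.Λ ^ 3 := by
    nlinarith [mul_le_mul_of_nonneg_left b2 L0.le, mul_le_mul_of_nonneg_left b3
      (show 0 ≤ S.Λ ^ A * S.Λ ^ 2 by positivity), mul_le_mul_of_nonneg_left b3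
        (show 0 ≤ S.Λ ^ A * S.Λ by positivity)]
  have M1 := hS.num.2.2.1
  calc _ ≤ S.M * (2 * S.Λ * PT T * (4 * S.θ) + 3 * S.Λ ^ 2 * (S.Λ ^ A * (S.θ * PT T))) +
        S.M * (2 * S.Λ * PT T * S.θ) := by
        refine add_le_add ?_ (b1.trans (le_mul_of_one_le_left (by positivity) M1))
        gcongr
        exact hS.cel.2.2.1
    _ ≤ _ := by
        linarith [mul_le_mul_of_nonneg_left b5 (show 0 ≤ S.M * (S.θ * PT T) by positivity)]⟩

end Pool.Agent.MP_f3836a_nt.VE.F
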