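import Pool.Agent.MP_f3836a_nt.VE.FBase

/-! Part F, row Dg1: the total deviation against an anchor. -/

set_option autoImplicit false

namespace Pool.Agent.MP_f3836a_nt.VE.F

open Finset

theorem rDg1 : OfDg1 := by
  intro A1 A2 A3 A4 hDa hDb hDg hCr
  refine ⟨A1 + A2 + A3 + A4 + 1, fun {G H Cl} _ _ S hS c Ta ja hA => ?_⟩
  obtain ⟨had, hnd, hsm⟩ := hA
  have hL := hS.one_le
  have hL0 := hS.lam_pos
  have hM := hS.num.2.2.1
  have hθ := hS.th_pos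
  have hP := PT_nonneg Ta
  have hY := hS.ym_one
  have key : ∀ z ∈ S.P1, S.E (fun g => S.Y c Ta ja g * (ind (S.zr g z) * S.dev1 g z))
      ≤ (S.M * S.Λ ^ A1 * S.θ + S.Λ ^ A2 * S.θ) * PT Ta * (S.n0 z / z.p)
        + S.Λ ^ A4 * (ind (S.Dg c Ta z) * (S.Ym ^ 3 / z.p) * S.E (S.I (z ::ₘ Ta))) := by
    intro z hz
    have hn := (hS.n0_pos hz).le
    have hq : (0 : ℝ) < z.p := hS.p_pos (hS.p1 z hz).1
    have hI : 0 ≤ S.E (S.I (z ::ₘ Ta)) := S.E_nonneg fun g _ => S.I_nonneg _ g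
    have e : S.E (fun g => S.Y c Ta ja g * (ind (S.zr g z) * S.dev1 g z))
        = S.E fun g => S.I (z ::ₘ Ta) g * S.Y c Ta ja g * S.dev1 g z := by
      refine S.E_congr fun g hg => ?_
      rw [S.I_cons, mul_assoc (ind (S.zr g z)), hS.I_Y hg had hsm]
      ring
    rw [e]
    by_cases hd : S.Dg c Ta z
    · rw [ind_pos hd, one_mul]
      refine le_add_of_nonneg_of_le (by positivity) ?_
      rw [← mul_assoc, ← S.E_mul]
      refine S.E_mono fun g hg => ?_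
      have h1 := (hCr S hS g hg z hz).2
      have h2 := hS.Y_le hg had
      have h3 := hS.Y_nonneg c Ta ja g
      have h4 := S.I_nonneg (z ::ₘ Ta) g
      have h5 : S.Y c Ta ja g * S.dev1 g z ≤ S.Ym * (S.Λ ^ A4 * S.Ym / z.p) :=
        (mul_le_mul_of_nonneg_left h1 h3).trans (mul_le_mul_of_nonneg_right h2 (by positivity))
      have h6 : S.Ym * (S.Λ ^ A4 * S.Ym / z.p) ≤ S.Λ ^ A4 * (S.Ym ^ 3 / z.p) := by
        have : S.Ym ^ 2 ≤ S.Ym ^ 3 := pow_le_pow_right₀ hY (by norm_num)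
        calc S.Ym * (S.Λ ^ A4 * S.Ym / z.p) = S.Λ ^ A4 * (S.Ym ^ 2 / z.p) := by ring
          _ ≤ _ := by gcongr
      rw [mul_assoc, mul_comm (S.Λ ^ A4 * (S.Ym ^ 3 / z.p))]
      exact mul_le_mul_of_nonneg_left (h5.trans h6) h4
    · rw [ind_neg hd, zero_mul, zero_mul, mul_zero, add_zero]
      have hn' : Nd (z ::ₘ Ta) := Nd_cons.2 ⟨fun z' hz' h => hd (Or.inl ⟨z', hz', h⟩), hnd⟩
      have hs' : S.Sm 4 (z ::ₘ Ta) := hS.Sm_mono (by norm_num) (hS.Sm_cons hz hsm)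
      have hc' : S.Cf c Ta ja (z ::ₘ Ta) := S.Cf_cons (S.Cf_self had) fun h => hd (Or.inr h)
      have h1 := hDa S hS c Ta _ ja hn' hs' hc' z hz (Multiset.mem_cons_self _ _)
      have h2 := hDb S hS c Ta _ ja hn' hs' hc' z hz (Multiset.mem_cons_self _ _)
      simp only [Sys.dev1, mul_add]
      rw [S.E_add]
      rw [PT_cons] at h1 h2
      refine (add_le_add h1 h2).trans (le_of_eq ?_)
      ring
  have e : S.E (fun g => S.Y c Ta ja g * S.tot1 g)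
      = ∑ z ∈ S.P1, S.E (fun g => S.Y c Ta ja g * (ind (S.zr g z) * S.dev1 g z)) := by
    rw [← S.E_sum]
    simp only [Sys.tot1, mul_sum]
  rw [e]
  refine (sum_le_sum key).trans ?_
  rw [sum_add_distrib, ← mul_sum, ← mul_sum]
  have h1 := (hDg S hS c Ta hnd (hS.Sm_mono (by norm_num) hsm)).1
  have h2 := hS.sum_n0
  set B := S.Λ ^ (A1 + A2 + A3 + A4) with hB
  have b1 : S.Λ ^ A1 ≤ B := hS.pow_mono (by omega)
  have b2 : S.Λ ^ A2 ≤ B := hS.pow_mono (by omega)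
  have b3 : S.Λ ^ A4 * S.Λ ^ A3 ≤ B := by rw [← pow_add]; exact hS.pow_mono (by omega)
  have b0 : 0 ≤ B := by positivity
  have c1 : (S.M * S.Λ ^ A1 * S.θ + S.Λ ^ A2 * S.θ) * PT Ta * ∑ z ∈ S.P1, S.n0 z / z.p
      ≤ (S.M * B * S.θ + S.M * B * S.θ) * PT Ta * 2 := by
    have : S.Λ ^ A2 ≤ S.M * B := b2.trans (le_mul_of_one_le_left b0 hM)
    have : 0 ≤ ∑ z ∈ S.P1, S.n0 z / z.p :=
      sum_nonneg fun z hz => div_nonneg (hS.n0_pos hz).le (Nat.cast_nonneg _)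
    gcongr
  have c2 : S.Λ ^ A4 * (S.Λ ^ A3 * S.θ ^ 2 * PT Ta) ≤ S.M * B * S.θ * PT Ta := by
    have : S.Λ ^ A4 * S.Λ ^ A3 ≤ S.M * B := b3.trans (le_mul_of_one_le_left b0 hM)
    have h3 := hS.th_sq
    calc S.Λ ^ A4 * (S.Λ ^ A3 * S.θ ^ 2 * PT Ta) = S.Λ ^ A4 * S.Λ ^ A3 * S.θ ^ 2 * PT Ta := by ring
      _ ≤ _ := by gcongr
  have c3 := mul_le_mul_of_nonneg_left h1 (pow_nonneg hL0.le A4)
  have c4 : 0 ≤ S.M * B * S.θ * PT Ta := by positivity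
  have c5 := mul_le_mul_of_nonneg_left hS.num.1 c4
  rw [pow_succ S.Λ (A1 + A2 + A3 + A4), ← hB]
  linarith

end Pool.Agent.MP_f3836a_nt.VE.F
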