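import Pool.Agent.MP_f3836a_nt.VE.FBase

/-! Part F: the deviation of the second kind. -/

set_option autoImplicit false

namespace Pool.Agent.MP_f3836a_nt.VE.F

open Finset

variable {G H Cl : Type} [Fintype H] [Fintype Cl] {S : Sys G H Cl}

theorem dv2_var {A : ℕ} (hV : VarS A) (hS : S.Ok) {c : Option H} {Ta T T' : Multiset Pt} {ja j : ℕ}
    {cf : H → ℝ} {B : ℝ} (hn : Nd T) (hT : S.Sm 8 T) (hc : S.Cf c Ta ja T) (hl : T' ≤ T)
    (B0 : 0 < B) (hB : ∀ h, |cf h| ≤ B) (ha : ∀ h, cf h ≠ 0 → S.ad (some h) T' j) :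
    S.E (fun g => S.I T g * S.Y c Ta ja g
      * |S.σ * ∑ h, cf h * (S.Y (some h) T' j g - S.fm (some h) T' j)|)
      ≤ 2 * S.Λ * PT T * (B * S.Λ ^ A * S.θ * PT T') := by
  have l := hS.lam_pos
  have t := hS.th_pos
  have p := hS.PT_pos (hS.Sm_le hl hT)
  have q := PT_nonneg T
  refine S.E_abs (by positivity) (fun g _ => mul_nonneg (S.I_nonneg _ _) (hS.Y_nonneg _ _ _ _))
    (hS.eq1_le hn hT hc) ((hV S hS c Ta T T' ja j cf B hn hT hc hl hB ha).trans ?_)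
  have a : S.Λ ^ A ≤ 2 * S.Λ ^ (2 * A + 1) := by
    linarith [hS.pow_mono (show A ≤ 2 * A + 1 by omega), pow_pos l (2 * A + 1)]
  calc _ ≤ B ^ 2 * (2 * S.Λ ^ (2 * A + 1)) * S.θ ^ 2 * (PT T * PT T' ^ 2) := by gcongr
    _ = _ := by ring

theorem dv2_crude (hS : S.Ok) {T : Multiset Pt} (hT : T ∈ S.St none) {z : Pt} (hz : z ∈ S.P1)
    {g : G} (hg : g ∈ S.Gs) : |S.σ * ∑ h, ind (S.adm h T) * S.wz h z
      * (S.Y (some h) (z ::ₘ T) (S.k + 1) g - S.fm (some h) (z ::ₘ T) (S.k + 1))|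
      ≤ S.Λ * S.Ym * (S.Λ * (PT T / z.p)) := by
  have y : 0 ≤ S.Λ * S.Ym := mul_nonneg hS.lam_pos.le (zero_le_one.trans hS.ym_one)
  have k := hS.lk _ (hS.Nd_blk hT hz) (hS.Sm_mono (by norm_num) (hS.Sm_cons hz (hS.st _ _ hT).2.1))
  rw [PT_cons] at k
  refine le_trans ?_ (mul_le_mul_of_nonneg_left k y)
  rw [abs_mul, abs_of_pos hS.sig_pos, mul_left_comm, mul_sum _ _ (S.Λ * S.Ym)]
  refine mul_le_mul_of_nonneg_left ((abs_sum_le_sum_abs _ _).trans (sum_le_sum fun h _ => ?_))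
    hS.sig_pos.le
  by_cases e : ind (S.adm h T) * S.wz h z = 0
  · rw [e, zero_mul, abs_zero]
    exact mul_nonneg y (ind_nonneg _)
  have a := ind_ne (left_ne_zero_of_mul e)
  have b := hS.ad_blk hT a (right_ne_zero_of_mul e)
  rw [ind_pos a, ind_pos (show S.Lk _ h from (hS.ad0 _ _ _ b).1), one_mul, mul_one, abs_mul,
    abs_of_nonneg (hS.wz_nonneg h z)]
  refine mul_le_mul (hS.wz_le h z) (abs_le.2 ⟨?_, ?_⟩) (abs_nonneg _) hS.lam_pos.le
  · linarith [hS.Y_nonneg (some h) (z ::ₘ T) (S.k + 1) g, hS.fm_le b, hS.num.2.1]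
  · linarith [hS.Y_le hg b, hS.fm_pos b]

theorem rDv2 : OfDv2 := by
  intro A1 A2 hV hD
  refine ⟨A1 + A2 + 4, fun S hS c Ta ja ⟨ha, hn, hs⟩ T hT hl => ?_⟩
  have l := hS.lam_pos
  have t := hS.th_pos
  have y := hS.ym_one
  have p := PT_nonneg T
  have q := PT_nonneg Ta
  have s8 := hS.Sm_mono (show 2 ≤ 8 by norm_num) hs
  have k0 := dv2_var hV hS (cf := fun h => ind (S.adm h T)) (j := S.k + 2) hn s8 (S.Cf_self ha) hl
    one_pos (fun h => by rw [abs_of_nonneg (ind_nonneg _)]; exact ind_le_one _)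
    fun h e => (hS.ad3 h T hT (ind_ne e)).2.1
  have k1 : ∀ z ∈ S.P1, S.E (fun g => S.I (z ::ₘ Ta) g * S.Y c Ta ja g * |S.σ * ∑ h,
      ind (S.adm h T) * S.wz h z
        * (S.Y (some h) (z ::ₘ T) (S.k + 1) g - S.fm (some h) (z ::ₘ T) (S.k + 1))|)
      ≤ 2 * S.Λ ^ (A1 + 2) * S.θ * (PT T * PT Ta) * (1 / (z.p : ℝ) ^ 2) + S.Λ ^ 2 * PT T
        * (ind (S.Dg c Ta z) * (S.Ym ^ 3 / z.p) * S.E (S.I (z ::ₘ Ta))) := fun z hz => by
    have i0 := S.E_nonneg fun g _ => S.I_nonneg (z ::ₘ Ta) g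
    by_cases d : S.Dg c Ta z
    · refine le_trans ?_ (le_add_of_nonneg_left (by positivity))
      rw [ind_pos d, one_mul, ← mul_assoc, ← S.E_mul]
      refine S.E_mono fun g hg => ?_
      rw [mul_assoc, mul_comm]
      refine mul_le_mul_of_nonneg_right ((mul_le_mul (hS.Y_le hg ha) (dv2_crude hS hT hz hg)
        (abs_nonneg _) (by positivity)).trans ?_) (S.I_nonneg _ _)
      calc _ = S.Λ ^ 2 * PT T * (S.Ym ^ 2 / z.p) := by ring
        _ ≤ _ := by gcongr; norm_num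
    · rw [ind_neg d, zero_mul, zero_mul, mul_zero, add_zero]
      rw [Sys.Dg, not_or] at d
      refine (dv2_var hV hS (Nd_cons.2 ⟨fun z' m e => d.1 ⟨z', m, e⟩, hn⟩)
        (hS.Sm_mono (by norm_num) (hS.Sm_cons hz hs)) (S.Cf_cons (S.Cf_self ha) d.2)
        (Multiset.cons_le_cons z hl) l (fun h => ?_) fun h e =>
          hS.ad_blk hT (ind_ne (left_ne_zero_of_mul e)) (right_ne_zero_of_mul e)).trans_eq ?_
      · rw [abs_of_nonneg (mul_nonneg (ind_nonneg _) (hS.wz_nonneg _ _))]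
        exact (mul_le_of_le_one_left (hS.wz_nonneg _ _) (ind_le_one _)).trans (hS.wz_le _ _)
      · rw [PT_cons, PT_cons]
        ring
  have k2 := sum_le_sum k1
  rw [sum_add_distrib, ← mul_sum, ← mul_sum, ← S.E_sum] at k2
  have k3 := add_le_add k0 (k2.trans (add_le_add
    (mul_le_mul_of_nonneg_left hS.sum_q2 (by positivity))
    (mul_le_mul_of_nonneg_left (hD S hS c Ta hn (hS.Sm_mono (by norm_num) hs)).1 (by positivity))))
  rw [← S.E_add] at k3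
  refine (S.E_congr fun g hg => ?_).le.trans (k3.trans ?_)
  · rw [Sys.dev2, mul_add, mul_sum _ _ (S.Y c Ta ja g), hS.I_Y hg ha hs]
    refine congrArg _ (sum_congr rfl fun z _ => ?_)
    rw [S.I_cons, mul_assoc (ind _), hS.I_Y hg ha hs]
    ring
  have a1 := hS.pow_mono (show A1 + 1 ≤ A1 + A2 + 3 by omega)
  have a2 := hS.pow_mono (show A1 + 3 ≤ A1 + A2 + 3 by omega)
  have a3 := (mul_le_of_le_one_right (by positivity) hS.th_le).trans
    (hS.pow_mono (show A2 + 2 ≤ A1 + A2 + 3 by omega))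
  have a4 : 7 * S.Λ ^ (A1 + A2 + 3) ≤ S.Λ ^ (A1 + A2 + 4) := by
    rw [pow_succ' _ (A1 + A2 + 3)]
    gcongr
    linarith [hS.num.1]
  calc _ = (2 * S.Λ ^ (A1 + 1) + 4 * S.Λ ^ (A1 + 3) + S.Λ ^ (A2 + 2) * S.θ) * S.θ
        * (PT T * PT Ta) := by ring
    _ ≤ _ := by gcongr; linarith

end Pool.Agent.MP_f3836a_nt.VE.F
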