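import Pool.Agent.MP_f3836a_nt.VE.FBase

/-! Part F: the deviation of the first counting function. -/

set_option autoImplicit false

namespace Pool.Agent.MP_f3836a_nt.VE.F

open Finset

theorem rDva : OfDva := by
  intro A hV
  refine ⟨A + 4, fun {G H Cl} _ _ S hS c Ta T ja hn hT hc z hz hzT => ?_⟩
  have h8 := hS.Sm_mono (by norm_num : 4 ≤ 8) hT
  have hL := hS.lam_pos
  have hθ := hS.th_pos
  have hP := PT_nonneg T
  have hq := one_div_pos.2 (hS.p_pos (hS.p1 z hz).1)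
  have hn0 := hS.n0_pos hz
  have hM := hS.num.2.2.1
  let W : G → ℝ := fun g => S.I T g * S.Y c Ta ja g
  let X : Cl → G → ℝ := fun a g => S.σ * ∑ h, ind (S.cell h = a) * S.wz h z *
    (S.Y (some h) {z} (S.k + 1) g - S.fm (some h) {z} (S.k + 1))
  let D : Cl → ℝ := fun a => S.σ * ∑ h, ind (S.cell h = a) * S.wz h z - S.n0 z * S.mc a
  have W0 : ∀ g, 0 ≤ W g := fun g => mul_nonneg (S.I_nonneg _ _) (hS.Y_nonneg _ _ _ _)
  have W1 : S.E W ≤ 2 * S.Λ * PT T := hS.eq1_le hn h8 hc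
  have e1 : ∀ a g, S.N1 g z a - S.n0 z * S.f1 z * S.mc a = X a g + S.f1 z * D a := fun a g => by
    have h1 : ∑ h, ind (S.cell h = a) * S.wz h z *
        (S.Y (some h) {z} (S.k + 1) g - S.fm (some h) {z} (S.k + 1)) =
        ∑ h, ind (S.cell h = a) * S.wz h z * S.Y (some h) {z} (S.k + 1) g -
          S.f1 z * ∑ h, ind (S.cell h = a) * S.wz h z := by
      rw [mul_sum, ← sum_sub_distrib]
      refine sum_congr rfl fun h _ => ?_
      by_cases hw : S.wz h z = 0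
      · simp [hw]
      · rw [hS.fm1 h z (S.wz_mem hw)]
        ring
    simp only [X, D, Sys.N1, h1]
    ring
  have e2 : ∀ g, S.dva g z ≤ ∑ a, |X a g| + S.θ * S.n0 z := fun g => by
    have h1 : S.dva g z ≤ ∑ a, (|X a g| + |D a|) := sum_le_sum fun a _ => by
      rw [e1]
      refine (abs_add_le _ _).trans (add_le_add le_rfl ?_)
      rw [abs_mul, abs_of_nonneg (hS.f1_bd z).1]
      exact mul_le_of_le_one_left (abs_nonneg _) (hS.f1_bd z).2
    rw [sum_add_distrib] at h1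
    have h2 : ∑ a, |D a| ≤ S.θ ^ 2 * S.n0 z := hS.r1 z hz
    have h3 := mul_le_mul_of_nonneg_right hS.th_sq hn0.le
    linarith
  have e3 : ∀ a, S.E (fun g => W g * |X a g|) ≤
      2 * S.Λ * PT T * (S.Λ ^ (A + 1) * S.θ * (S.Λ * S.n0 z)) := fun a => by
    have h1 := hV S hS c Ta T {z} ja (S.k + 1) (fun h => ind (S.cell h = a) * S.wz h z) S.Λ hn h8 hc
      (Multiset.singleton_le.2 hzT) (fun h => by
        rw [abs_of_nonneg (mul_nonneg (ind_nonneg _) (hS.wz_nonneg _ _))]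
        exact (mul_le_of_le_one_left (hS.wz_nonneg _ _) (ind_le_one _)).trans (hS.wz_le _ _))
      fun h hw => hS.ad_single (right_ne_zero_of_mul hw)
    rw [PT_single] at h1
    refine (S.E_abs (t := S.Λ ^ (A + 1) * S.θ * (1 / z.p)) (by positivity) (fun g _ => W0 g) W1
      (h1.trans ?_)).trans (mul_le_mul_of_nonneg_left
        (mul_le_mul_of_nonneg_left (hS.p1 z hz).2.2.2.1 (by positivity)) (by positivity))
    have h2 : S.Λ ^ (A + 2) ≤ S.Λ ^ (2 * A + 3) := hS.pow_mono (by omega)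
    have h3 : 0 ≤ S.Λ ^ (2 * A + 3) := by positivity
    have h4 := mul_le_mul_of_nonneg_right (h2.trans (by linarith : _ ≤ 2 * S.Λ ^ (2 * A + 3)))
      (by positivity : 0 ≤ S.θ ^ 2 * (PT T * (1 / (z.p : ℝ)) ^ 2))
    calc _ = S.Λ ^ (A + 2) * (S.θ ^ 2 * (PT T * (1 / (z.p : ℝ)) ^ 2)) := by ring
      _ ≤ _ := h4
      _ = _ := by ring
  have e4 : S.E (fun g => W g * S.dva g z) ≤
      S.E fun g => ∑ a, W g * |X a g| + S.θ * S.n0 z * W g := S.E_mono fun g _ => by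
    rw [← mul_sum, mul_comm _ (W g), ← mul_add]
    exact mul_le_mul_of_nonneg_left (e2 g) (W0 g)
  rw [S.E_add, S.E_sum, S.E_mul] at e4
  have e5 := sum_le_sum fun a (_ : a ∈ univ) => e3 a
  rw [sum_const, card_univ, nsmul_eq_mul] at e5
  have e6 := mul_le_mul_of_nonneg_right hS.cel.2.2.2
    (by positivity : 0 ≤ 2 * S.Λ * PT T * (S.Λ ^ (A + 1) * S.θ * (S.Λ * S.n0 z)))
  have e7 := mul_le_mul_of_nonneg_left W1 (by positivity : 0 ≤ S.θ * S.n0 z)
  have e8 : S.Λ ≤ S.M * S.Λ ^ (A + 3) := by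
    have h1 : S.Λ ^ 1 ≤ S.Λ ^ (A + 3) := hS.pow_mono (by omega)
    rw [pow_one] at h1
    exact h1.trans (le_mul_of_one_le_left (by positivity) hM)
  have e9 : 4 * (S.M * S.Λ ^ (A + 3)) ≤ S.Λ * (S.M * S.Λ ^ (A + 3)) :=
    mul_le_mul_of_nonneg_right (by linarith [hS.num.1]) (by positivity)
  have e10 := mul_le_mul_of_nonneg_right
    (by linarith : 2 * (S.M * S.Λ ^ (A + 3)) + 2 * S.Λ ≤ S.Λ * (S.M * S.Λ ^ (A + 3)))
    (by positivity : 0 ≤ S.θ * (S.n0 z * PT T))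
  calc _ ≤ _ := e4
    _ ≤ _ := add_le_add (e5.trans e6) e7
    _ = (2 * (S.M * S.Λ ^ (A + 3)) + 2 * S.Λ) * (S.θ * (S.n0 z * PT T)) := by ring
    _ ≤ _ := e10
    _ = _ := by ring

end Pool.Agent.MP_f3836a_nt.VE.F
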