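import Pool.Agent.MP_f3836a_nt.VE.FBase

/-! Part F: the deviation of the second marginals. -/

set_option autoImplicit false

namespace Pool.Agent.MP_f3836a_nt.VE.F

open Finset

variable {G H Cl : Type} [Fintype H] [Fintype Cl] {S : Sys G H Cl} {c : Option H}
  {Ta T : Multiset Pt} {ja : ℕ} {z z' : Pt}

theorem dvb_split (hS : S.Ok) (hp : z.p ≠ z'.p) (g : G) :
    S.N2 g z z' - S.n0 z * S.n0 z' * S.f2 z z' =
      S.σ * ∑ h, S.wz h z * S.wz h z' *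
          (S.Y (some h) (z' ::ₘ {z}) S.k g - S.fm (some h) (z' ::ₘ {z}) S.k) +
        S.f2 z z' * (S.σ * ∑ h, S.wz h z * S.wz h z' - S.n0 z * S.n0 z') := by
  have e : ∀ h, S.wz h z * S.wz h z' *
      (S.Y (some h) (z' ::ₘ {z}) S.k g - S.fm (some h) (z' ::ₘ {z}) S.k) =
      S.wz h z * S.wz h z' * S.Y (some h) (z' ::ₘ {z}) S.k g -
        S.f2 z z' * (S.wz h z * S.wz h z') := fun h => by
    by_cases a : S.wz h z * S.wz h z' = 0
    · simp only [a, zero_mul, mul_zero, sub_zero]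
    · rw [hS.fm2 h z z' (S.wz_mem (left_ne_zero_of_mul a)) (S.wz_mem (right_ne_zero_of_mul a)) hp]
      ring
  simp only [e, sum_sub_distrib, ← mul_sum, Sys.N2]
  ring

theorem dvb_gen {A : ℕ} (hV : VarS A) (hS : S.Ok) (hn : Nd T) (hT : S.Sm 4 T)
    (hc : S.Cf c Ta ja T) (hz : z ∈ S.P1) (hzT : z ∈ T) (hz' : z' ∈ S.P1) (hg : ¬S.Dg c T z') :
    S.E (fun g => S.I T g * S.Y c Ta ja g *
      (ind (S.zr g z') * |S.N2 g z z' - S.n0 z * S.n0 z' * S.f2 z z'|)) ≤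
      2 * S.Λ ^ (A + 3) * S.θ * PT T / z.p * (1 / (z'.p : ℝ) ^ 2) +
        2 * S.Λ * PT T * (ind (z'.p ≠ z.p) / z'.p *
          |S.σ * ∑ h, S.wz h z * S.wz h z' - S.n0 z * S.n0 z'|) := by
  have g1 : ∀ y ∈ T, y.p ≠ z'.p := fun y hy e => hg (Or.inl ⟨y, hy, e⟩)
  have hp := g1 z hzT
  have n' : Nd (z' ::ₘ T) := Nd_cons.2 ⟨g1, hn⟩
  have s' : S.Sm 8 (z' ::ₘ T) := hS.Sm_mono (by norm_num) (hS.Sm_cons hz' hT)
  have c' : S.Cf c Ta ja (z' ::ₘ T) := S.Cf_cons hc fun e => hg (Or.inr e)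
  have q := hS.p_pos (hS.p1 z hz).1
  have q' := hS.p_pos (hS.p1 z' hz').1
  have L := hS.lam_pos
  have θ0 := hS.th_pos
  have w0 : ∀ g ∈ S.Gs, 0 ≤ S.I (z' ::ₘ T) g * S.Y c Ta ja g := fun g _ =>
    mul_nonneg (S.I_nonneg _ _) (hS.Y_nonneg _ _ _ _)
  have e1 := hS.eq1_le n' s' c'
  have v := hV S hS c Ta (z' ::ₘ T) (z' ::ₘ {z}) ja S.k (fun h => S.wz h z * S.wz h z')
    (S.Λ ^ 2) n' s' c' (Multiset.cons_le_cons _ (Multiset.singleton_le.2 hzT))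
    (fun h => by
      rw [abs_of_nonneg (mul_nonneg (hS.wz_nonneg h z) (hS.wz_nonneg h z')), sq]
      exact mul_le_mul (hS.wz_le h z) (hS.wz_le h z') (hS.wz_nonneg h z') L.le)
    fun h a => hS.ad_pair (left_ne_zero_of_mul a) (right_ne_zero_of_mul a) hp
  have P0 := PT_nonneg (z' ::ₘ T)
  have t0 : 0 < S.Λ ^ (A + 2) * S.θ * PT (z' ::ₘ {z}) := by
    rw [PT_cons, PT_single]
    positivity
  have a1 := S.E_abs t0 w0 e1 (v.trans (by
    have b1 : S.Λ ^ (A + 4) ≤ S.Λ ^ (2 * A + 5) := hS.pow_mono (by omega)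
    have b2 : 0 ≤ S.θ ^ 2 * (PT (z' ::ₘ T) * PT (z' ::ₘ {z}) ^ 2) := by positivity
    have b3 : 0 ≤ S.Λ ^ (2 * A + 5) := by positivity
    calc _ = S.Λ ^ (A + 4) * (S.θ ^ 2 * (PT (z' ::ₘ T) * PT (z' ::ₘ {z}) ^ 2)) := by ring
      _ ≤ (2 * S.Λ ^ (2 * A + 5)) * (S.θ ^ 2 * (PT (z' ::ₘ T) * PT (z' ::ₘ {z}) ^ 2)) :=
          mul_le_mul_of_nonneg_right (by linarith) b2
      _ = _ := by ring))
  set D := |S.σ * ∑ h, S.wz h z * S.wz h z' - S.n0 z * S.n0 z'| with hD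
  have D0 : 0 ≤ D := abs_nonneg _
  have a2 := mul_le_mul_of_nonneg_left e1 D0
  rw [← S.E_mul] at a2
  refine le_trans (S.E_mono fun g hg' => ?_)
    (((S.E_add _ _).trans_le (add_le_add a1 a2)).trans_eq ?_)
  · rw [dvb_split hS hp, ← mul_assoc, mul_comm _ (ind _), ← mul_assoc, ← S.I_cons, mul_comm D,
      ← mul_add]
    refine mul_le_mul_of_nonneg_left ((abs_add_le _ _).trans (add_le_add le_rfl ?_)) (w0 g hg')
    rw [abs_mul, abs_of_nonneg (hS.f2_bd z z').1]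
    exact mul_le_of_le_one_left D0 (hS.f2_bd z z').2
  · rw [PT_cons, PT_cons, PT_single, ind_pos hp.symm]
    ring

theorem dvb_deg {A : ℕ} (hC : CruS A) (hS : S.Ok) (hc : S.Cf c Ta ja T) (hz : z ∈ S.P1)
    (hz' : z' ∈ S.P1) :
    S.E (fun g => S.I T g * S.Y c Ta ja g *
      (ind (S.zr g z') * |S.N2 g z z' - S.n0 z * S.n0 z' * S.f2 z z'|)) ≤
      S.Λ ^ A / z.p * (S.Ym ^ 3 / z'.p * S.E (S.I (z' ::ₘ T))) := by
  have q := hS.p_pos (hS.p1 z hz).1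
  have q' := hS.p_pos (hS.p1 z' hz').1
  have L := hS.lam_pos
  have y1 := hS.ym_one
  rw [← mul_assoc, ← S.E_mul]
  refine S.E_mono fun g hg => ?_
  rw [← mul_assoc, mul_comm _ (ind _), ← mul_assoc, ← S.I_cons, mul_assoc, mul_comm]
  refine mul_le_mul_of_nonneg_right ?_ (S.I_nonneg _ _)
  refine (mul_le_mul (hS.Y_le hg hc.1) ((hC S hS g hg z hz).1 z' hz') (abs_nonneg _)
    (by linarith)).trans ?_
  have b : S.Ym ^ 2 ≤ S.Ym ^ 3 := pow_le_pow_right₀ y1 (by norm_num)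
  calc _ = S.Λ ^ A / z.p * (S.Ym ^ 2 / z'.p) := by field_simp
    _ ≤ _ := by gcongr

theorem rDvb : OfDvb := by
  intro A1 A2 A3 hV hD hC
  refine ⟨A1 + A2 + A3 + 6, fun {G H Cl} _ _ S hS c Ta T ja hn hT hc z hz hzT => ?_⟩
  have q := hS.p_pos (hS.p1 z hz).1
  have L := hS.lam_pos
  have θ0 := hS.th_pos
  have y1 := hS.ym_one
  have P0 := PT_nonneg T
  have n0 := hS.n0_pos hz
  have k : ∀ z' ∈ S.P1, S.E (fun g => S.I T g * S.Y c Ta ja g *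
      (ind (S.zr g z') * |S.N2 g z z' - S.n0 z * S.n0 z' * S.f2 z z'|)) ≤
      2 * S.Λ ^ (A1 + 3) * S.θ * PT T / z.p * (1 / (z'.p : ℝ) ^ 2) +
        2 * S.Λ * PT T * (ind (z'.p ≠ z.p) / z'.p *
          |S.σ * ∑ h, S.wz h z * S.wz h z' - S.n0 z * S.n0 z'|) +
        S.Λ ^ A3 / z.p * (ind (S.Dg c T z') * (S.Ym ^ 3 / z'.p) * S.E (S.I (z' ::ₘ T))) := by
    intro z' hz'
    by_cases g : S.Dg c T z'
    · rw [ind_pos g, one_mul]
      refine (dvb_deg hC hS hc hz hz').trans (le_add_of_nonneg_left ?_)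
      have := ind_nonneg (z'.p ≠ z.p)
      positivity
    · rw [ind_neg g, zero_mul, zero_mul, mul_zero, add_zero]
      exact dvb_gen hV hS hn hT hc hz hzT hz' g
  have k2 := sum_le_sum k
  rw [← S.E_sum, sum_add_distrib, sum_add_distrib, ← mul_sum, ← mul_sum, ← mul_sum] at k2
  simp only [← mul_sum] at k2
  refine le_trans k2 ?_
  have a0 := (hS.p1 z hz).2.2.2.1
  have m : ∀ a, a ≤ A1 + A2 + A3 + 5 → S.Λ ^ a * (S.θ * (S.n0 z * PT T)) ≤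
      S.Λ ^ (A1 + A2 + A3 + 5) * (S.θ * (S.n0 z * PT T)) := fun a ha =>
    mul_le_mul_of_nonneg_right (hS.pow_mono ha) (by positivity)
  have b1 : 2 * S.Λ ^ (A1 + 3) * S.θ * PT T / z.p * ∑ z' ∈ S.P1, 1 / (z'.p : ℝ) ^ 2 ≤
      4 * (S.Λ ^ (A1 + 5) * (S.θ * (S.n0 z * PT T))) := by
    have s := hS.sum_q2
    calc _ ≤ 2 * S.Λ ^ (A1 + 3) * S.θ * PT T * (S.Λ * S.n0 z) * (2 * S.Λ) := by
          rw [div_eq_mul_one_div]
          gcongr
      _ = _ := by ring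
  have b2 : 2 * S.Λ * PT T * ∑ z' ∈ S.P1, ind (z'.p ≠ z.p) / z'.p *
      |S.σ * ∑ h, S.wz h z * S.wz h z' - S.n0 z * S.n0 z'| ≤
      2 * (S.Λ ^ 1 * (S.θ * (S.n0 z * PT T))) := by
    have s := (hS.r2 z hz).trans (mul_le_mul_of_nonneg_right hS.th_sq n0.le)
    exact (mul_le_mul_of_nonneg_left s (by positivity)).trans_eq (by ring)
  have b3 : S.Λ ^ A3 / z.p * ∑ z' ∈ S.P1,
      ind (S.Dg c T z') * (S.Ym ^ 3 / z'.p) * S.E (S.I (z' ::ₘ T)) ≤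
      S.Λ ^ (A2 + A3 + 1) * (S.θ * (S.n0 z * PT T)) := by
    have s := (hD S hS c T hn (hS.Sm_mono (by norm_num) hT)).1
    have t := hS.th_sq
    calc _ ≤ S.Λ ^ A3 / z.p * (S.Λ ^ A2 * S.θ ^ 2 * PT T) :=
          mul_le_mul_of_nonneg_left s (by positivity)
      _ ≤ S.Λ ^ A3 * (S.Λ * S.n0 z) * (S.Λ ^ A2 * S.θ * PT T) := by
          rw [div_eq_mul_one_div]
          gcongr
      _ = _ := by ring
  have b4 : 100 * (S.Λ ^ (A1 + A2 + A3 + 5) * (S.θ * (S.n0 z * PT T))) ≤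
      S.Λ ^ (A1 + A2 + A3 + 6) * S.θ * (S.n0 z * PT T) :=
    (mul_le_mul_of_nonneg_right hS.num.1 (by positivity)).trans_eq (by ring)
  have b5 : 0 ≤ S.Λ ^ (A1 + A2 + A3 + 5) * (S.θ * (S.n0 z * PT T)) := by positivity
  linarith [m (A1 + 5) (by omega), m 1 (by omega), m (A2 + A3 + 1) (by omega)]

end Pool.Agent.MP_f3836a_nt.VE.F
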