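import Pool.Agent.MP_f3836a_nt.VE.SpecFA

/-! Row Fr: the frame inequality. -/

set_option autoImplicit false

namespace Pool.Agent.MP_f3836a_nt.VE.F

open Finset

theorem fr_mass {ι : Type} {ZZ : Finset ι} {n : ι → ℝ} {d : ι → ℕ} {K : ℕ} {lq : ι → ℝ}
    {L lam η : ℝ} (h : Pd ZZ n d K lq L lam η) (hK : 0 < K) : |∑ z ∈ ZZ, n z - 1| ≤ η := by
  have hK' : (K : ℝ) ≠ 0 := by exact_mod_cast hK.ne'
  have e1 : ∑ z ∈ ZZ, n z = ∑ i ∈ range K, ∑ z ∈ ZZ, ind (d z = i) * n z := by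
    rw [sum_comm]
    refine sum_congr rfl fun z hz => ?_
    rw [← sum_mul, sum_eq_single_of_mem (d z) (mem_range.2 (h.lt z hz))]
    · simp [ind]
    · intro i _ hi
      simp [ind, hi.symm]
  have e2 : ∀ c : ℝ, ∑ _i ∈ range K, c / K = c := fun c => by
    rw [sum_const, card_range, nsmul_eq_mul, mul_div_cancel₀ _ hK']
  rw [e1, ← e2 1, ← sum_sub_distrib, ← e2 η]
  exact (abs_sum_le_sum_abs _ _).trans (sum_le_sum fun i hi => h.eq i (mem_range.1 hi))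

theorem fr_mean {Cl : Type} [Fintype Cl] {mc V : Cl → ℝ} {S : ℝ} (h0 : ∀ c, 0 ≤ mc c)
    (h1 : ∑ c, mc c = 1) (hS : ∀ c c', |V c - V c'| ≤ S) (c : Cl) :
    (V c - ∑ c', mc c' * V c') ^ 2 ≤ S ^ 2 := by
  have e : V c - ∑ c', mc c' * V c' = ∑ c', mc c' * (V c - V c') := by
    simp only [mul_sub, sum_sub_distrib, ← sum_mul, h1, one_mul]
  have k : |V c - ∑ c', mc c' * V c'| ≤ S := by
    rw [e]
    refine (abs_sum_le_sum_abs _ _).trans ?_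
    have : ∑ c', |mc c' * (V c - V c')| ≤ ∑ c', mc c' * S := sum_le_sum fun c' _ => by
      rw [abs_mul, abs_of_nonneg (h0 c')]
      exact mul_le_mul_of_nonneg_left (hS c c') (h0 c')
    rwa [← sum_mul, h1, one_mul] at this
  rw [← sq_abs]
  exact pow_le_pow_left₀ (abs_nonneg _) k 2

theorem fr_abs {Λ P η X W S Q Var Qn N N1 Mm : ℝ} (hΛ : 100 ≤ Λ) (hP : 1 ≤ P) (hη : 0 ≤ η)
    (hs : η * (P ^ 2 * Λ ^ 8) ≤ 1) (hl : η * Λ ≤ 1 / 2) (hX : 0 ≤ X) (hW : 0 ≤ W) (hS : 0 ≤ S)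
    (hQ : 0 ≤ Q) (hV : 0 ≤ Var) (n0 : 1 / 2 ≤ N) (n2 : N ≤ Λ * N1)
    (m0 : N1 - η * N ≤ Mm) (qc : X ≤ P * (Qn + P * η * (X + W)))
    (qx : Qn + Var * N1 ≤ Q + 9 * Λ ^ 2 * η * (X + W + S)) (sv : S ≤ Λ * Var)
    (vb : W * Mm ≤ 3 * Q + 6 * Λ ^ 3 * X + 3 * S * Mm) :
    2 * (X + W + S) ≤ P ^ 2 * Λ ^ 8 * Q := by
  have l0 : 0 < Λ := by linarith
  have p0 : 0 < P := by linarith
  have l1 : 1 ≤ Λ := by linarith
  have n3 : 0 ≤ N1 := nonneg_of_mul_nonneg_right (by linarith : 0 ≤ Λ * N1) l0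
  have t0 : 0 ≤ X + W + S := by linarith
  obtain ⟨Y, hY⟩ : ∃ Y, Y = Q + (9 * Λ ^ 2 + P) * η * (X + W + S) := ⟨_, rfl⟩
  have y0 : Q ≤ Y := by
    have : 0 ≤ (9 * Λ ^ 2 + P) * η * (X + W + S) := by positivity
    linarith
  have y1 : 0 ≤ Y := hQ.trans y0
  have b0 : 0 ≤ Qn + P * η * (X + W) := nonneg_of_mul_nonneg_right (hX.trans qc) p0
  have b1 : Qn + P * η * (X + W) + Var * N1 ≤ Y := by
    have : 0 ≤ P * η * S := by positivity
    linarith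
  have b2 : 0 ≤ Var * N1 := mul_nonneg hV n3
  have x1 : X ≤ P * Y := qc.trans (mul_le_mul_of_nonneg_left (by linarith) p0.le)
  have s1 : S ≤ 2 * Λ ^ 2 * Y := by
    have a : Var * (1 / 2) ≤ Var * (Λ * N1) := mul_le_mul_of_nonneg_left (by linarith) hV
    have b : Λ * (Var * N1) ≤ Λ * Y := mul_le_mul_of_nonneg_left (by linarith) l0.le
    have c : Λ * Var ≤ Λ * (2 * Λ * Y) := mul_le_mul_of_nonneg_left (by linarith) l0.le
    linarith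
  have m1 : 1 / 4 ≤ Λ * Mm := by
    have a := mul_le_mul_of_nonneg_left m0 l0.le
    have b : η * Λ * N ≤ 1 / 2 * N := mul_le_mul_of_nonneg_right hl (by linarith)
    linarith
  have w1 : W ≤ 3 * S + 12 * Λ * Q + 24 * Λ ^ 4 * X := by
    have a := mul_le_mul_of_nonneg_left vb l0.le
    rcases le_total W (3 * S) with b | b
    · have : 0 ≤ 12 * Λ * Q + 24 * Λ ^ 4 * X := by positivity
      linarith
    · have c : (W - 3 * S) * (1 / 4) ≤ (W - 3 * S) * (Λ * Mm) :=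
        mul_le_mul_of_nonneg_left m1 (by linarith)
      linarith
  have k1 : Λ ≤ Λ ^ 4 := le_self_pow₀ l1 (by norm_num)
  have k2 : Λ ^ 2 ≤ Λ ^ 4 := pow_le_pow_right₀ l1 (by norm_num)
  have k3 : Λ ^ 4 * 1 ≤ Λ ^ 4 * P := mul_le_mul_of_nonneg_left hP (by positivity)
  have k4 : 1 * P ≤ Λ ^ 4 * P := mul_le_mul_of_nonneg_right (l1.trans k1) p0.le
  have k5 : 100 * (Λ ^ 4 * P) ≤ Λ * (Λ ^ 4 * P) := mul_le_mul_of_nonneg_right hΛ (by positivity)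
  have t1 : X + W + S ≤ Λ ^ 5 * P * Y := by
    have a : Λ ^ 4 * X ≤ Λ ^ 4 * (P * Y) := mul_le_mul_of_nonneg_left x1 (by positivity)
    have b : Λ * Q ≤ Λ * Y := mul_le_mul_of_nonneg_left y0 l0.le
    have c : (P + 8 * Λ ^ 2 + 12 * Λ + 24 * Λ ^ 4 * P) * Y ≤ Λ ^ 5 * P * Y :=
      mul_le_mul_of_nonneg_right (by linarith) y1
    linarith
  have e1 : Λ ^ 5 * P * ((9 * Λ ^ 2 + P) * η) ≤ 1 / 2 := by
    have a : Λ ^ 2 * 1 ≤ Λ ^ 2 * P := mul_le_mul_of_nonneg_left hP (by positivity)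
    have b : 1 * P ≤ Λ ^ 2 * P := mul_le_mul_of_nonneg_right (one_le_pow₀ l1) p0.le
    have c : (9 * Λ ^ 2 + P) * (Λ ^ 5 * P * η) ≤ 10 * Λ ^ 2 * P * (Λ ^ 5 * P * η) :=
      mul_le_mul_of_nonneg_right (by linarith) (by positivity)
    have d : 100 * (Λ ^ 7 * P ^ 2 * η) ≤ Λ * (Λ ^ 7 * P ^ 2 * η) :=
      mul_le_mul_of_nonneg_right hΛ (by positivity)
    linarith
  have e2 := mul_le_mul_of_nonneg_right e1 t0
  have e3 : 4 * (Λ ^ 5 * P) ≤ P ^ 2 * Λ ^ 8 := by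
    have a : 4 ≤ P * Λ ^ 3 := by
      have b : Λ ≤ Λ ^ 3 := le_self_pow₀ l1 (by norm_num)
      have c : 1 * Λ ^ 3 ≤ P * Λ ^ 3 := mul_le_mul_of_nonneg_right hP (by positivity)
      linarith
    have := mul_le_mul_of_nonneg_right a (by positivity : 0 ≤ Λ ^ 5 * P)
    linarith
  have e4 := mul_le_mul_of_nonneg_right e3 hQ
  rw [hY] at t1
  linarith

theorem rFr : OfFr := by
  intro hx A hc
  refine ⟨A * 2 + 8, ?_⟩
  intro Ω ι Cl _ _ κ m Z cl ZZ n b lq d K F1 F2 mc V Λ L lam η S md pd tp mn h0 h1 dm hS hV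
  have hΛ := md.big
  have l1 : 1 ≤ Λ := by linarith
  have l0 : 0 < Λ := by linarith
  rw [pow_add, pow_mul] at h1 ⊢
  have hP : 1 ≤ Λ ^ A := one_le_pow₀ l1
  have hl : η * Λ ≤ 1 / 2 := by
    have a : Λ ^ 2 ≤ (Λ ^ A) ^ 2 * Λ ^ 8 :=
      (pow_le_pow_right₀ l1 (by norm_num)).trans (le_mul_of_one_le_left (by positivity) (one_le_pow₀ hP))
    have b := mul_le_mul_of_nonneg_left a h0
    have c : 100 * (η * Λ) ≤ Λ * (η * Λ) := mul_le_mul_of_nonneg_right hΛ (by positivity)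
    linarith
  have hη : η ≤ 1 / 2 := (le_mul_of_one_le_right h0 l1).trans hl
  have sv := fr_mean tp.mc0 tp.mc1 hS
  have hR : ∀ c, V c ^ 2 ≤ 2 * (∑ c, mc c * V c) ^ 2 + 2 * S ^ 2 := fun c => by
    nlinarith [sv c, sq_nonneg (V c - 2 * ∑ c, mc c * V c)]
  obtain ⟨q1, q2, q3⟩ := hx m Z cl ZZ n b d F1 F2 mc V η _ md.kap.1 tp pd.nn
    (fun d d' => (md.f2 d d').2.2) h0 hR dm
  have qc := hc ZZ n b lq d κ K F1 F2 Λ L lam η (∑ c, mc c * V c) md pd hη mn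
  have nn := abs_le.1 (fr_mass pd md.pos)
  have hX : 0 ≤ ∑ z ∈ ZZ, n z * b z ^ 2 :=
    sum_nonneg fun z hz => mul_nonneg (pd.nn z hz) (sq_nonneg _)
  have hQ : 0 ≤ Qt m Z cl b V := sum_nonneg fun ω _ => mul_nonneg (tp.nn ω) (sq_nonneg _)
  have hk : (κ : ℝ) ^ 2 ≤ Λ ^ 2 := pow_le_pow_left₀ (Nat.cast_nonneg _) md.kap.2 2
  have n2 : ∑ z ∈ ZZ, n z ≤ Λ * ∑ z ∈ ZZ, n z * F1 (d z) := by
    rw [mul_sum]
    refine sum_le_sum fun z hz => ?_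
    have a := (div_le_iff₀ l0).1 (md.f1 _ (pd.lt z hz)).1
    have := mul_le_mul_of_nonneg_left a (pd.nn z hz)
    linarith
  have q4 : ∑ ω, m ω * (∑ i, b (Z ω i)) ^ 2 ≤ Λ ^ 2 * (2 * Λ * ∑ z ∈ ZZ, n z * b z ^ 2) := by
    have a : ∑ z ∈ ZZ, n z * (F1 (d z) + η) * b z ^ 2 ≤ 2 * Λ * ∑ z ∈ ZZ, n z * b z ^ 2 := by
      rw [mul_sum]
      refine sum_le_sum fun z hz => ?_
      have := mul_le_mul_of_nonneg_right
        (show F1 (d z) + η ≤ 2 * Λ by linarith [(md.f1 _ (pd.lt z hz)).2])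
        (mul_nonneg (pd.nn z hz) (sq_nonneg (b z)))
      linarith
    exact q3.trans ((mul_le_mul_of_nonneg_left a (sq_nonneg _)).trans
      (mul_le_mul_of_nonneg_right hk (by positivity)))
  have vb : (∑ c, mc c * V c) ^ 2 * ∑ ω, m ω ≤ 3 * Qt m Z cl b V +
      3 * ∑ ω, m ω * (∑ i, b (Z ω i)) ^ 2 + 3 * S ^ 2 * ∑ ω, m ω := by
    unfold Qt
    rw [mul_sum, mul_sum, mul_sum, mul_sum, ← sum_add_distrib, ← sum_add_distrib]
    refine sum_le_sum fun ω _ => ?_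
    have a := sv (cl ω)
    generalize ∑ c, mc c * V c = w at a ⊢
    generalize ∑ i, b (Z ω i) = u
    generalize V (cl ω) = v at a ⊢
    have c : w ^ 2 ≤ 3 * (u + v) ^ 2 + 3 * u ^ 2 + 3 * S ^ 2 := by
      nlinarith [sq_nonneg (u + v + u), sq_nonneg (u + v + (v - w)), sq_nonneg (u - (v - w))]
    have := mul_le_mul_of_nonneg_left c (tp.nn ω)
    linarith
  have hVar : 0 ≤ ∑ c, mc c * (V c - ∑ c', mc c' * V c') ^ 2 :=
    sum_nonneg fun c _ => mul_nonneg (tp.mc0 c) (sq_nonneg _)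
  have sv' := hV (∑ c, mc c * V c)
  have q5 := (abs_le.1 q1).1
  have q6 := (abs_le.1 q2).1
  generalize Qn ZZ n d κ F1 F2 b (∑ c, mc c * V c) = qn at *
  generalize ∑ c, mc c * (V c - ∑ c', mc c' * V c') ^ 2 = Var at *
  generalize ∑ c, mc c * V c = w at *
  generalize ∑ z ∈ ZZ, n z * b z ^ 2 = X at *
  generalize Qt m Z cl b V = Q at *
  generalize ∑ z ∈ ZZ, n z * F1 (d z) = N1 at *
  generalize ∑ z ∈ ZZ, n z = N at *
  have w0 := sq_nonneg w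
  have s0 := sq_nonneg S
  have qx : qn + Var * N1 ≤ Q + 9 * Λ ^ 2 * η * (X + w ^ 2 + S ^ 2) := by
    have a : (2 * w ^ 2 + 2 * S ^ 2) * N ≤ (2 * w ^ 2 + 2 * S ^ 2) * (3 / 2) :=
      mul_le_mul_of_nonneg_left (by linarith [nn.2]) (by positivity)
    have a' : 0 ≤ (2 * w ^ 2 + 2 * S ^ 2) * N := mul_nonneg (by positivity) (by linarith [nn.1])
    have c : 3 * (κ : ℝ) ^ 2 * η * (X + (2 * w ^ 2 + 2 * S ^ 2) * N) ≤
        3 * Λ ^ 2 * η * (3 * (X + w ^ 2 + S ^ 2)) :=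
      mul_le_mul (mul_le_mul_of_nonneg_right (by linarith) h0) (by linarith) (by linarith)
        (by positivity)
    linarith
  have fin := fr_abs hΛ hP h0 h1 hl hX w0 s0 hQ hVar (by linarith [nn.1]) n2 (by linarith) qc qx sv'
    (Mm := ∑ ω, m ω) (by linarith)
  exact ⟨by linarith, by linarith, fun c => by linarith [hR c]⟩

end Pool.Agent.MP_f3836a_nt.VE.F
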