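import Pool.Agent.MP_f3836a_nt.VE.SpecFA

/-! Least squares with two parameters. -/

set_option autoImplicit false

namespace Pool.Agent.MP_f3836a_nt.VE.F

open Finset

lemma lsq_one {ι : Type} (ZZ : Finset ι) (n x y : ι → ℝ) (hn : ∀ z ∈ ZZ, 0 ≤ n z) :
    ∃ c : ℝ, ∑ z ∈ ZZ, n z * (x z - c * y z) * y z = 0 := by
  by_cases h : ∑ z ∈ ZZ, n z * y z ^ 2 = 0
  · refine ⟨0, sum_eq_zero fun z hz => ?_⟩
    have h1 := (sum_eq_zero_iff_of_nonneg fun z hz => mul_nonneg (hn z hz) (sq_nonneg (y z))).1 h z hz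
    rcases mul_eq_zero.1 h1 with h2 | h2
    · rw [h2]; ring
    · rw [pow_eq_zero_iff two_ne_zero] at h2
      rw [h2]; ring
  · refine ⟨(∑ z ∈ ZZ, n z * x z * y z) / ∑ z ∈ ZZ, n z * y z ^ 2, ?_⟩
    generalize hc : (∑ z ∈ ZZ, n z * x z * y z) / ∑ z ∈ ZZ, n z * y z ^ 2 = c
    rw [div_eq_iff h, mul_sum, ← sub_eq_zero, ← sum_sub_distrib] at hc
    rw [← hc]
    exact sum_congr rfl fun z _ => by ring

theorem rLsq : LsqS := by
  intro ι ZZ n b lq hn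
  obtain ⟨μ, h1⟩ := lsq_one ZZ n lq (fun _ => 1) hn
  obtain ⟨s, h2⟩ := lsq_one ZZ n b (fun z => lq z - μ) hn
  obtain ⟨e, h3⟩ := lsq_one ZZ n (fun z => b z - s * (lq z - μ)) (fun _ => 1) hn
  refine ⟨e - s * μ, s, fun e' s' => ?_⟩
  have key : ∑ z ∈ ZZ, n z * (b z - (e - s * μ) - s * lq z - e' - s' * lq z) ^ 2 =
      ∑ z ∈ ZZ, n z * (b z - (e - s * μ) - s * lq z) ^ 2 + ∑ z ∈ ZZ, n z * (e' + s' * lq z) ^ 2
        - 2 * (e' + s' * μ) * ∑ z ∈ ZZ, n z * (b z - s * (lq z - μ) - e * 1) * 1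
        - 2 * s' * ∑ z ∈ ZZ, n z * (b z - s * (lq z - μ)) * (lq z - μ)
        + 2 * s' * e * ∑ z ∈ ZZ, n z * (lq z - μ * 1) * 1 := by
    simp only [mul_sum, ← sum_add_distrib, ← sum_sub_distrib]
    exact sum_congr rfl fun z _ => by ring
  rw [key, h1, h2, h3]
  have := sum_nonneg fun z hz => mul_nonneg (hn z hz) (sq_nonneg (e' + s' * lq z))
  linarith

end Pool.Agent.MP_f3836a_nt.VE.F
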