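import Pool.Agent.MP_f3836a_nt.VE.SpecE0

/-! Upper bounds for the uniform model. -/

set_option autoImplicit false

namespace Pool.Agent.MP_f3836a_nt.VE

open Finset

namespace EFuU

theorem cv_succ {ι : Type} (St : Finset ι) (μ : ι → ℝ) (u : ι → ℕ) (J j : ℕ) (v : ℤ) :
    cv St μ u J (j + 1) v =
      ∑ x : St × Fin J, μ x.1 / J * cv St μ u J j (v - ((u x.1 + x.2 : ℕ) : ℤ)) := by
  unfold cv
  rw [← Equiv.sum_comp (Fin.consEquiv fun _ : Fin (j + 1) => St × Fin J), Fintype.sum_prod_type]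
  refine sum_congr rfl fun x _ => ?_
  rw [mul_sum]
  refine sum_congr rfl fun s _ => ?_
  simp only [Fin.consEquiv_apply, Fin.prod_univ_succ, Fin.sum_univ_succ, Fin.cons_zero,
    Fin.cons_succ]
  rw [mul_assoc]
  congr 2
  refine if_congr ?_ rfl rfl
  rw [Nat.cast_add, eq_sub_iff_add_eq, add_comm]

theorem fu_succ {U : ℕ} (hU : 0 < U) (j : ℕ) (v : ℤ) :
    Fu U (j + 1) v = (∑ u ∈ range U, Fu U j (v - u)) / U := by
  have h : (U : ℝ) ≠ 0 := by positivity
  unfold Fu
  rw [cv_succ, Fintype.sum_prod_type, ← mul_sum, mul_div_cancel_left₀ _ h, mul_sum,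
    ← sum_coe_sort (range U)]
  refine sum_congr rfl fun x _ => ?_
  simp only [Fin.sum_univ_one, Fin.val_zero, add_zero, id, Nat.cast_one, div_one]
  field_simp

theorem fu_zero (U : ℕ) (v : ℤ) : Fu U 0 v = U * if 0 = v then 1 else 0 := by
  simp [Fu, cv]

theorem fu_nonneg {U : ℕ} (hU : 0 < U) (j : ℕ) : ∀ v, 0 ≤ Fu U j v := by
  induction j with
  | zero =>
    intro v
    rw [fu_zero]
    split_ifs <;> positivity
  | succ j ih =>
    intro v
    rw [fu_succ hU]
    exact div_nonneg (sum_nonneg fun _ _ => ih _) (Nat.cast_nonneg U)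

theorem fu_le {U : ℕ} (hU : 0 < U) (j : ℕ) : ∀ v, Fu U (j + 1) v ≤ 1 := by
  have h : (0 : ℝ) < U := by positivity
  induction j with
  | zero =>
    intro v
    rw [fu_succ hU, div_le_one h]
    simp only [fu_zero]
    rw [← mul_sum]
    refine mul_le_of_le_one_right h.le ?_
    calc ∑ u ∈ range U, (if (0 : ℤ) = v - u then (1 : ℝ) else 0)
        ≤ ∑ u ∈ range U, if u = v.toNat then (1 : ℝ) else 0 := by
          refine sum_le_sum fun u _ => ?_
          by_cases e : (0 : ℤ) = v - u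
          · rw [if_pos e, if_pos (by omega)]
          · rw [if_neg e]
            split_ifs <;> norm_num
      _ ≤ 1 := by
          rw [sum_ite_eq']
          split_ifs <;> norm_num
  | succ j ih =>
    intro v
    rw [fu_succ hU, div_le_one h]
    refine (sum_le_sum fun (u : ℕ) _ => ih (v - u)).trans ?_
    simp

theorem fu_step {U : ℕ} (hU : 0 < U) (j : ℕ) (x : ℤ) :
    |Fu U (j + 2) (x + 1) - Fu U (j + 2) x| ≤ 1 / U := by
  have h : (0 : ℝ) < U := by positivity
  have e := sum_range_sub' (fun i : ℕ => Fu U (j + 1) (x + 1 - i)) U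
  have e' : ∀ i : ℕ, x + 1 - ((i + 1 : ℕ) : ℤ) = x - i := fun i => by
    push_cast
    ring
  simp only [e'] at e
  rw [fu_succ hU (j + 1), fu_succ hU (j + 1), ← sub_div, ← sum_sub_distrib, e, abs_div,
    abs_of_pos h]
  refine div_le_div_of_nonneg_right (abs_le.2 ⟨?_, ?_⟩) h.le
  · linarith [fu_nonneg hU (j + 1) (x + 1 - ((0 : ℕ) : ℤ)), fu_le hU j (x + 1 - U)]
  · linarith [fu_nonneg hU (j + 1) (x + 1 - U), fu_le hU j (x + 1 - ((0 : ℕ) : ℤ))]

theorem lip_nat {g : ℤ → ℝ} {L : ℝ} (h : ∀ x, |g (x + 1) - g x| ≤ L) (x : ℤ) (n : ℕ) :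
    |g (x + n) - g x| ≤ n * L := by
  induction n with
  | zero => simp
  | succ n ih =>
    have a := h (x + n)
    have b := abs_sub_le (g (x + n + 1)) (g (x + n)) (g x)
    push_cast
    rw [← add_assoc]
    linarith

theorem lip {g : ℤ → ℝ} {L : ℝ} (h : ∀ x, |g (x + 1) - g x| ≤ L) (v v' : ℤ) :
    |g v - g v'| ≤ |(v : ℝ) - v'| * L := by
  have k : ∀ a b : ℤ, b ≤ a → |g a - g b| ≤ |(a : ℝ) - b| * L := fun a b hab => by
    obtain ⟨n, rfl⟩ := Int.le.dest hab
    refine (lip_nat h b n).trans_eq ?_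
    push_cast
    rw [add_sub_cancel_left, Nat.abs_cast]
  rcases le_total v' v with a | a
  · exact k v v' a
  · rw [abs_sub_comm, abs_sub_comm (v : ℝ)]
    exact k v' v a

end EFuU

open EFuU

theorem rFuU : FuUS := by
  intro U j v v' hU
  refine ⟨fu_nonneg hU j v, fun hj => ?_, fun hj => ?_, fu_succ hU j v⟩
  · obtain ⟨i, rfl⟩ := Nat.exists_eq_add_of_le' hj
    exact fu_le hU i v
  · obtain ⟨i, rfl⟩ := Nat.exists_eq_add_of_le' hj
    rw [div_eq_mul_one_div]
    exact lip (fu_step hU i) v v'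

end Pool.Agent.MP_f3836a_nt.VE
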