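import Pool.Agent.MP_f3836a_nt.VE.SpecFA
import Pool.Agent.MP_f3836a_nt.VE.EFuU

/-! The uniform model is rigid on cells. -/

set_option autoImplicit false

namespace Pool.Agent.MP_f3836a_nt.VE.F

open Finset

theorem modA_split (K r : ℕ) (f : ℕ → ℝ) :
    ∑ u ∈ range (K * r), f u = ∑ d ∈ range K, ∑ i ∈ range r, f (d * r + i) := by
  induction K with
  | zero => simp
  | succ K ih => rw [Nat.succ_mul, sum_range_add, ih, sum_range_succ]

theorem modA_cell (K r : ℕ) (f : ℕ → ℕ → ℝ) :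
    ∑ u ∈ range (K * r), f u (u / r) = ∑ d ∈ range K, ∑ i ∈ range r, f (d * r + i) d := by
  rw [modA_split]
  refine sum_congr rfl fun d _ => sum_congr rfl fun i hi => ?_
  have hi' := mem_range.1 hi
  rw [add_comm, Nat.add_mul_div_right _ _ (by omega), Nat.div_eq_of_lt hi', zero_add]

theorem modA_var (r : ℕ) (x s : ℝ) : ∑ i ∈ range r, (x - s * i) ^ 2 =
    r * (x - s * (r - 1) / 2) ^ 2 + s ^ 2 * r * (r ^ 2 - 1) / 12 := by
  induction r with
  | zero => simp
  | succ r ih => rw [sum_range_succ, ih]; push_cast; ring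

theorem modA_avg {r : ℕ} (hr : 0 < r) {f : ℕ → ℝ} {a b : ℝ} (h : ∀ i < r, a ≤ f i ∧ f i ≤ b) :
    a ≤ (∑ i ∈ range r, f i) / r ∧ (∑ i ∈ range r, f i) / r ≤ b := by
  have h0 : (0 : ℝ) < r := by positivity
  have h1 := card_nsmul_le_sum (range r) f a fun i hi => (h i (mem_range.1 hi)).1
  have h2 := sum_le_card_nsmul (range r) f b fun i hi => (h i (mem_range.1 hi)).2
  rw [card_range, nsmul_eq_mul] at h1 h2
  rw [le_div_iff₀ h0, div_le_iff₀ h0]
  constructor <;> linarith

theorem modA_Qm (K r k : ℕ) (v : ℤ) (β : ℕ → ℝ) (V : ℝ) :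
    Qm (k + 2) (K * r) (fun u => Fu (K * r) (k + 1) (v - u))
      (fun u u' => Fu (K * r) k (v - u - u')) (fun u => β (u / r)) V =
    Qm (k + 2) K (G1 K r k v) (G2 K r k v) β V := by
  have e1 : ∀ g : ℕ → ℝ, (∑ u ∈ range (K * r), Fu (K * r) (k + 1) (v - u) * g (u / r)) /
      ((K * r : ℕ) : ℝ) = (∑ d ∈ range K, G1 K r k v d * g d) / K := fun g => by
    rw [modA_cell K r fun u d => Fu (K * r) (k + 1) (v - u) * g d, Nat.cast_mul, mul_comm (K : ℝ),
      ← div_div, sum_div]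
    congr 1
    exact sum_congr rfl fun d _ => by rw [G1, ← sum_mul]; ring
  have e2 : (∑ u ∈ range (K * r), ∑ u' ∈ range (K * r),
      Fu (K * r) k (v - u - u') * β (u / r) * β (u' / r)) / ((K * r : ℕ) : ℝ) ^ 2 =
      (∑ d ∈ range K, ∑ d' ∈ range K, G2 K r k v d d' * β d * β d') / (K : ℝ) ^ 2 := by
    rw [modA_cell K r fun u d => ∑ u' ∈ range (K * r),
      Fu (K * r) k (v - u - u') * β d * β (u' / r), Nat.cast_mul, mul_comm (K : ℝ), mul_pow,
      ← div_div, sum_div]
    congr 1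
    refine sum_congr rfl fun d _ => ?_
    simp only [fun u : ℕ => modA_cell K r fun u' d' => Fu (K * r) k (v - u - u') * β d * β d']
    rw [sum_comm, sum_div]
    refine sum_congr rfl fun d' _ => ?_
    simp only [G2, ← sum_mul]
    ring
  have e3 := e1 fun _ => 1
  simp only [mul_one] at e3
  simp only [Qm, mul_div_assoc, e1 fun d => β d ^ 2, e1 β, e2, e3]

theorem rModA : OfModA := fun hX C hP => by
  obtain ⟨a, ha⟩ := pow_unbounded_of_one_lt |C| (show (1 : ℝ) < 100 by norm_num)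
  refine ⟨a + 2, fun K r k v Λ hΛ hK hr hk hkΛ hlow => ?_⟩
  have hU : 0 < K * r := by positivity
  have h0 : 0 < Λ := by linarith
  have h1 : (1 : ℝ) ≤ Λ := by linarith
  have hp : Λ ≤ Λ ^ (a + 2) := le_self_pow₀ h1 (by omega)
  have hf := fun j x => rFuU (K * r) j x x hU
  have hl : ∀ u < K * r, ∀ u' < K * r, 1 / Λ ≤ Fu (K * r) k (v - u - u') := fun u hu u' hu' => by
    have := hlow (u + u') (by omega)
    rwa [Nat.cast_add, ← sub_sub] at this
  refine ⟨hΛ.trans hp, ⟨by omega, by push_cast; linarith⟩, hK, fun d hd => ?_, fun d d' => ?_,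
    fun β V => ?_⟩
  · have := modA_avg (r := r) (by omega) (a := 1 / Λ) (b := 1)
      (f := fun i => Fu (K * r) (k + 1) (v - (d * r + i : ℕ))) fun i hi => by
        refine ⟨?_, (hf _ _).2.1 (by omega)⟩
        rw [(hf k _).2.2.2]
        refine (modA_avg hU (b := 1) fun u hu => ⟨hl _ ?_ u hu, (hf _ _).2.1 (by omega)⟩).1
        nlinarith
    exact ⟨(one_div_le_one_div_of_le h0 hp).trans this.1, this.2.trans (h1.trans hp)⟩
  · have := modA_avg (r := r) (by omega) (a := 0) (b := 1) (f := fun i => (∑ i' ∈ range r,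
      Fu (K * r) k (v - (d * r + i : ℕ) - (d' * r + i' : ℕ))) / r) fun i _ =>
        modA_avg (by omega) fun i' _ => ⟨(hf _ _).1, (hf _ _).2.1 (by omega)⟩
    rw [← sum_div, div_div, ← sq] at this
    refine ⟨this.1, this.2.trans (h1.trans hp), ?_⟩
    rw [G2, G2, sum_comm]
    simp only [sub_right_comm v]
  · obtain ⟨W, hW⟩ := hX (K * r) k v (fun u => β (u / r)) V hU
    obtain ⟨e, s, hs⟩ := hP (K * r) (fun u => β (u / r)) W hU
    rw [modA_Qm] at hW
    set Q := Qm (k + 2) K (G1 K r k v) (G2 K r k v) β V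
    set P := (∑ u ∈ range (K * r), ∑ u' ∈ range (K * r),
      (β (u / r) + β (u' / r) - W (u + u')) ^ 2) / ((K * r : ℕ) : ℝ) ^ 2 with hPd
    have hP0 : 0 ≤ P := by positivity
    have hPQ : 1 / Λ * P ≤ Q := by
      refine le_trans ?_ hW
      rw [hPd, ← mul_div_assoc, mul_sum]
      refine div_le_div_of_nonneg_right (sum_le_sum fun u hu => ?_) (by positivity)
      rw [mul_sum]
      exact sum_le_sum fun u' hu' => mul_le_mul_of_nonneg_right
        (hl u (mem_range.1 hu) u' (mem_range.1 hu')) (sq_nonneg _)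
    have hQ : P ≤ Λ * Q := by rwa [one_div, inv_mul_le_iff₀ h0] at hPQ
    have hQ0 : 0 ≤ Λ * Q := hP0.trans hQ
    have hr' : (2 : ℝ) ≤ r := by exact_mod_cast hr
    have hK' : (0 : ℝ) < K := by positivity
    have e1 : (∑ u ∈ range (K * r), (β (u / r) - e - s * u) ^ 2) / ((K * r : ℕ) : ℝ) =
        (∑ d ∈ range K, (β d - (e + s * (r - 1) / 2) - s * r * d) ^ 2) / K +
          s ^ 2 * (r ^ 2 - 1) / 12 := by
      rw [modA_cell K r fun u d => (β d - e - s * u) ^ 2]
      have : ∀ d : ℕ, ∑ i ∈ range r, (β d - e - s * ((d * r + i : ℕ) : ℝ)) ^ 2 =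
          r * (β d - (e + s * (r - 1) / 2) - s * r * d) ^ 2 + s ^ 2 * r * (r ^ 2 - 1) / 12 :=
        fun d => by
          have := modA_var r (β d - e - s * r * d) s
          push_cast
          convert this using 2
          · ring
          · ring
      simp only [this, sum_add_distrib, ← mul_sum, sum_const, card_range, nsmul_eq_mul]
      generalize ∑ d ∈ range K, (β d - (e + s * (r - 1) / 2) - s * r * d) ^ 2 = T
      push_cast
      field_simp
    refine ⟨e + s * ((r : ℝ) - 1) / 2, s * r, ?_⟩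
    rw [e1] at hs
    have hT : (0 : ℝ) ≤ (∑ d ∈ range K, (β d - (e + s * (r - 1) / 2) - s * r * d) ^ 2) / K := by
      positivity
    have h3 : C * P ≤ Λ ^ a * (Λ * Q) :=
      (mul_le_mul_of_nonneg_right (le_abs_self C) hP0).trans
        (mul_le_mul (ha.le.trans (pow_le_pow_left₀ (by norm_num) hΛ a)) hQ hP0 (by positivity))
    have h4 : 0 ≤ Λ ^ a * (Λ * Q) := by positivity
    have h5 : (s * r) ^ 2 ≤ 16 * (s ^ 2 * (r ^ 2 - 1) / 12) := by
      nlinarith [mul_nonneg (sq_nonneg s) (show (0 : ℝ) ≤ r ^ 2 - 4 by nlinarith)]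
    have h6 : 16 * (Λ ^ a * (Λ * Q)) ≤ Λ ^ (a + 2) * Q := by
      rw [show Λ ^ (a + 2) * Q = Λ * (Λ ^ a * (Λ * Q)) by ring]
      exact mul_le_mul_of_nonneg_right (by linarith) h4
    linarith

end Pool.Agent.MP_f3836a_nt.VE.F
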