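import Pool.Agent.MP_f3836a_nt.VE.SpecFA
import Pool.Agent.MP_f3836a_nt.VE.EFuU

/-! Row FModB: the model is close to its cell averages. -/

set_option autoImplicit false

namespace Pool.Agent.MP_f3836a_nt.VE.F

open Finset

theorem modB_avg {r : ℕ} (hr : 0 < r) (x c : ℝ) (g : ℕ → ℝ) (h : ∀ i < r, |x - g i| ≤ c) :
    |x - (∑ i ∈ range r, g i) / r| ≤ c := by
  have hr' : (0 : ℝ) < r := Nat.cast_pos.2 hr
  have e : x - (∑ i ∈ range r, g i) / r = (∑ i ∈ range r, (x - g i)) / r := by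
    rw [sum_sub_distrib, sum_const, card_range, nsmul_eq_mul]
    field_simp
  rw [e, abs_div, abs_of_pos hr', div_le_iff₀ hr']
  refine (abs_sum_le_sum_abs _ _).trans ((sum_le_sum fun i hi => h i (mem_range.1 hi)).trans ?_)
  rw [sum_const, card_range, nsmul_eq_mul, mul_comm]

theorem modB_near {r i : ℕ} (hi : i < r) (u : ℕ) : |((u / r * r + i : ℕ) : ℝ) - u| ≤ r := by
  have h1 := Nat.div_add_mod' u r
  have h2 := Nat.mod_lt u (show 0 < r by omega)
  have h3 : ((u / r * r : ℕ) : ℝ) + (u % r : ℕ) = u := by exact_mod_cast h1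
  have h4 : ((u % r : ℕ) : ℝ) < r := by exact_mod_cast h2
  have h5 : (i : ℝ) < r := by exact_mod_cast hi
  have h6 : (0 : ℝ) ≤ (u % r : ℕ) := Nat.cast_nonneg _
  have h7 : (0 : ℝ) ≤ i := Nat.cast_nonneg _
  rw [Nat.cast_add, abs_le]
  constructor <;> linarith

theorem rModB : ModBS := by
  intro K r k v u u' hK hr hk
  have hK' : (0 : ℝ) < K := Nat.cast_pos.2 hK
  have hr' : (0 : ℝ) < r := Nat.cast_pos.2 hr
  have L : ∀ (j : ℕ) (w w' : ℤ) (c : ℝ), 2 ≤ j → |(w : ℝ) - w'| ≤ c * r →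
      |Fu (K * r) j w - Fu (K * r) j w'| ≤ c / K := fun j w w' c hj h => by
    refine ((rFuU (K * r) j w w' (Nat.mul_pos hK hr)).2.2.1 hj).trans ?_
    rw [Nat.cast_mul, div_le_div_iff₀ (mul_pos hK' hr') hK']
    nlinarith
  refine ⟨modB_avg hr _ _ _ fun i hi => L _ _ _ 1 (by omega) ?_, ?_⟩
  · have := modB_near hi u
    rw [one_mul]
    simp only [Int.cast_sub, Int.cast_natCast]
    convert this using 2
    ring
  · rw [G2, sq, ← div_div, sum_div]
    refine modB_avg hr _ _ _ fun i hi => modB_avg hr _ _ _ fun i' hi' => L _ _ _ 2 hk ?_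
    have h1 := abs_le.1 (modB_near hi u)
    have h2 := abs_le.1 (modB_near hi' u')
    simp only [Int.cast_sub, Int.cast_natCast]
    rw [abs_le]
    constructor <;> linarith [h1.1, h1.2, h2.1, h2.2]

end Pool.Agent.MP_f3836a_nt.VE.F
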