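import Pool.Agent.MP_f3836a_nt.VE.SpecFA
import Pool.Agent.MP_f3836a_nt.VE.EFuU

/-! The form of the uniform model dominates the two variable form. -/

set_option autoImplicit false

namespace Pool.Agent.MP_f3836a_nt.VE.F

open Finset

variable (U : ℕ) (b : ℕ → ℝ)

/-- weighted averaging -/
noncomputable def modXT (w : ℕ → ℝ) : (ℤ → ℝ) →ₗ[ℝ] ℤ → ℝ where
  toFun f x := (∑ u ∈ range U, w u * f (x - u)) / U
  map_add' f g := funext fun x => by simp [mul_add, sum_add_distrib, add_div]
  map_smul' c f := funext fun x => by simp [mul_left_comm _ c, ← mul_sum, mul_div_assoc]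

lemma modXT_apply (w : ℕ → ℝ) (f : ℤ → ℝ) (x : ℤ) :
    modXT U w f x = (∑ u ∈ range U, w u * f (x - u)) / U := rfl

lemma modXT_comm (w w' : ℕ → ℝ) (f : ℤ → ℝ) :
    modXT U w (modXT U w' f) = modXT U w' (modXT U w f) := funext fun x => by
  simp only [modXT_apply, ← mul_div_assoc, ← sum_div, mul_sum]
  rw [sum_comm]
  simp only [mul_left_comm (w _), sub_right_comm x]

/-- the linear coefficient -/
noncomputable def modXP : ℕ → ℤ → ℝ
  | 0 => 0
  | j + 1 => ((j : ℝ) + 1) • modXT U b (Fu U j)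

/-- the constant coefficient -/
noncomputable def modXR : ℕ → ℤ → ℝ
  | 0 => 0
  | j + 1 => ((j : ℝ) + 1) • (modXT U (b ^ 2) (Fu U j) + modXT U b (modXP U b j))

/-- the form -/
noncomputable def modXF (j : ℕ) (x : ℤ) (y : ℝ) : ℝ :=
  Fu U j x * y ^ 2 + 2 * modXP U b j x * y + modXR U b j x

variable {U} (hU : 0 < U)
include hU

lemma modXA (j : ℕ) : Fu U (j + 1) = modXT U 1 (Fu U j) := funext fun x => by
  simp [modXT_apply, EFuU.fu_succ hU]

lemma modXP_succ (j : ℕ) : modXP U b (j + 1) = modXT U 1 (modXP U b j) + modXT U b (Fu U j) := by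
  cases j with
  | zero => simp [modXP]
  | succ j =>
    simp only [modXP, map_smul, modXT_comm U 1, ← modXA hU]
    push_cast
    module

lemma modXR_succ (j : ℕ) : modXR U b (j + 1) =
    modXT U 1 (modXR U b j) + (2 : ℝ) • modXT U b (modXP U b j) + modXT U (b ^ 2) (Fu U j) := by
  cases j with
  | zero => simp [modXP, modXR]
  | succ j =>
    have e := congrArg (modXT U b) (modXP_succ b hU j)
    have e' : modXT U b (modXP U b (j + 1)) = _ := map_smul _ _ _
    rw [map_add] at e
    simp only [modXR, map_smul, map_add, modXT_comm U 1, ← modXA hU]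
    push_cast
    linear_combination (norm := module) ((j : ℝ) + 1) • e - e'

lemma modXF_succ (j : ℕ) (x : ℤ) (y : ℝ) :
    modXF U b (j + 1) x y = (∑ u ∈ range U, modXF U b j (x - u) (y + b u)) / U := by
  rw [modXF, modXA hU, modXP_succ b hU, modXR_succ b hU]
  simp only [modXF, modXT_apply, Pi.add_apply, Pi.smul_apply, smul_eq_mul, sum_div, sum_mul,
    mul_sum, ← sum_add_distrib, Pi.one_apply, Pi.pow_apply]
  exact sum_congr rfl fun u _ => by ring

lemma modXF_nonneg (j : ℕ) : ∀ x y, 0 ≤ modXF U b j x y := by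
  induction j with
  | zero =>
    intro x y
    simpa [modXF, modXP, modXR] using mul_nonneg (EFuU.fu_nonneg hU 0 x) (sq_nonneg y)
  | succ j ih =>
    intro x y
    rw [modXF_succ b hU]
    exact div_nonneg (sum_nonneg fun _ _ => ih _ _) (Nat.cast_nonneg U)

lemma modXF_ge (j : ℕ) (x : ℤ) (y : ℝ) :
    Fu U j x * (y + modXP U b j x / Fu U j x) ^ 2 ≤ modXF U b j x y := by
  by_cases e : Fu U j x = 0
  · simpa [e] using modXF_nonneg b hU j x y
  · refine (le_add_of_nonneg_right
      (modXF_nonneg b hU j x (-(modXP U b j x / Fu U j x)))).trans_eq ?_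
    unfold modXF
    field_simp
    ring

omit hU b U in
theorem rModX : ModXS := by
  intro U k v b V hU
  refine ⟨fun t => -V - modXP U b k (v - t) / Fu U k (v - t), le_trans ?_
    (le_of_eq (?_ : modXF U b (k + 2) v V = _))⟩
  · simp only [modXF_succ b hU, ← sum_div, div_div, ← sq]
    refine div_le_div_of_nonneg_right (sum_le_sum fun u _ => sum_le_sum fun u' _ => ?_)
      (sq_nonneg _)
    refine le_trans (le_of_eq ?_) (modXF_ge b hU k _ _)
    rw [Nat.cast_add, ← sub_sub]
    ring
  · simp only [Qm, modXF, modXR, modXP, EFuU.fu_succ hU (k + 1), modXT_apply, Pi.add_apply,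
      Pi.smul_apply, smul_eq_mul, Pi.pow_apply, sum_div, sum_mul, mul_sum, mul_add,
      ← mul_div_assoc, ← sum_add_distrib]
    refine sum_congr rfl fun u _ => ?_
    rw [sum_congr rfl fun u' _ => show _ = ((k + 2 : ℕ) : ℝ) * (((k + 2 : ℕ) : ℝ) - 1) *
      (Fu U k (v - u - (u' : ℕ)) * b u * b u') / (U : ℝ) ^ 2 by push_cast; ring]
    push_cast
    ring

end Pool.Agent.MP_f3836a_nt.VE.F
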