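import Pool.Agent.MP_f3836a_nt.VE.SpecFA

set_option autoImplicit false

namespace Pool.Agent.MP_f3836a_nt.VE.F

open Finset

/-- a shifted window of a nonnegative sum is at most the whole sum -/
theorem pex_shift (U M t : ℕ) (f : ℕ → ℝ) (hf : ∀ u, 0 ≤ f u) (h : M + t ≤ U) :
    ∑ u ∈ range M, f (u + t) ≤ ∑ u ∈ range U, f u := by
  have h1 : ∑ u ∈ range M, f (u + t) = ∑ u ∈ Ico t (t + M), f u := by
    rw [Finset.sum_Ico_eq_sum_range]
    simp only [Nat.add_sub_cancel_left]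
    exact Finset.sum_congr rfl fun u _ => by rw [Nat.add_comm]
  rw [h1]
  refine Finset.sum_le_sum_of_subset_of_nonneg ?_ fun u _ _ => hf u
  intro u hu
  rw [Finset.mem_Ico] at hu
  rw [Finset.mem_range]
  omega

/-- an anchor whose square deviation is at most the average -/
theorem pex_avg (M : ℕ) (hM : 0 < M) (g : ℕ → ℝ) :
    ∃ m : ℝ, (M : ℝ) * ∑ u ∈ range M, (g u - m) ^ 2
      ≤ ∑ u' ∈ range M, ∑ u ∈ range M, (g u - g u') ^ 2 := by
  obtain ⟨u0, _, h0⟩ := Finset.exists_min_image (range M)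
    (fun u' => ∑ u ∈ range M, (g u - g u') ^ 2) ⟨0, Finset.mem_range.2 hM⟩
  refine ⟨g u0, ?_⟩
  have h1 : (M : ℝ) * ∑ u ∈ range M, (g u - g u0) ^ 2
      = ∑ _u' ∈ range M, ∑ u ∈ range M, (g u - g u0) ^ 2 := by
    rw [Finset.sum_const, Finset.card_range, nsmul_eq_mul]
  rw [h1]
  exact Finset.sum_le_sum fun u' hu' => h0 u' hu'

/-- the differences at lag `t` vary little -/
theorem pex_pair (U M t : ℕ) (b V : ℕ → ℝ) (h : M + t ≤ U) :
    ∑ u' ∈ range M, ∑ u ∈ range M, ((b (u + t) - b u) - (b (u' + t) - b u')) ^ 2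
      ≤ 4 * ∑ u ∈ range U, ∑ u' ∈ range U, (b u + b u' - V (u + u')) ^ 2 := by
  set R : ℕ → ℕ → ℝ := fun u u' => (b u + b u' - V (u + u')) ^ 2 with hR
  have hR0 : ∀ u u', 0 ≤ R u u' := fun u u' => sq_nonneg _
  have h1 : ∀ u' u, ((b (u + t) - b u) - (b (u' + t) - b u')) ^ 2
      ≤ 2 * R (u + t) u' + 2 * R u (u' + t) := by
    intro u' u
    simp only [hR]
    have e : u + (u' + t) = u + t + u' := by ring
    rw [e]
    nlinarith [sq_nonneg ((b (u + t) + b u' - V (u + t + u')) + (b u + b (u' + t) - V (u + t + u')))]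
  have h2 : ∑ u' ∈ range M, ∑ u ∈ range M, R (u + t) u'
      ≤ ∑ u ∈ range U, ∑ u' ∈ range U, R u u' := by
    rw [Finset.sum_comm]
    calc ∑ u ∈ range M, ∑ u' ∈ range M, R (u + t) u'
        ≤ ∑ u ∈ range M, ∑ u' ∈ range U, R (u + t) u' := by
          refine Finset.sum_le_sum fun u _ => ?_
          have := pex_shift U M 0 (fun u' => R (u + t) u') (fun u' => hR0 _ _) (by omega)
          simpa using this
      _ ≤ _ := pex_shift U M t (fun u => ∑ u' ∈ range U, R u u')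
          (fun u => Finset.sum_nonneg fun u' _ => hR0 _ _) h
  have h3 : ∑ u' ∈ range M, ∑ u ∈ range M, R u (u' + t)
      ≤ ∑ u ∈ range U, ∑ u' ∈ range U, R u u' := by
    rw [Finset.sum_comm]
    calc ∑ u ∈ range M, ∑ u' ∈ range M, R u (u' + t)
        ≤ ∑ u ∈ range M, ∑ u' ∈ range U, R u u' :=
          Finset.sum_le_sum fun u _ => pex_shift U M t (fun u' => R u u') (fun u' => hR0 _ _) h
      _ ≤ _ := by
          have := pex_shift U M 0 (fun u => ∑ u' ∈ range U, R u u')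
            (fun u => Finset.sum_nonneg fun u' _ => hR0 _ _) (by omega)
          simpa using this
  calc _ ≤ ∑ u' ∈ range M, ∑ u ∈ range M, (2 * R (u + t) u' + 2 * R u (u' + t)) :=
        Finset.sum_le_sum fun u' _ => Finset.sum_le_sum fun u _ => h1 u' u
    _ = 2 * ∑ u' ∈ range M, ∑ u ∈ range M, R (u + t) u'
        + 2 * ∑ u' ∈ range M, ∑ u ∈ range M, R u (u' + t) := by
        simp only [Finset.sum_add_distrib, Finset.mul_sum]
    _ ≤ _ := by linarith

/-- the pair sum is controlled by the lag sums -/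
theorem pex_lags (U : ℕ) (g : ℕ → ℝ) :
    ∑ u' ∈ range U, ∑ u ∈ range U, (g u - g u') ^ 2
      ≤ 2 * ∑ t ∈ range U, ∑ u ∈ range (U - t), (g (u + t) - g u) ^ 2 := by
  have hA : ∑ u' ∈ range U, ∑ u ∈ Ico u' U, (g u - g u') ^ 2
      = ∑ t ∈ range U, ∑ u ∈ range (U - t), (g (u + t) - g u) ^ 2 := by
    have e : ∀ u' ∈ range U, ∑ u ∈ Ico u' U, (g u - g u') ^ 2
        = ∑ t ∈ range (U - u'), (g (u' + t) - g u') ^ 2 := fun u' _ => by
      rw [Finset.sum_Ico_eq_sum_range]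
    rw [Finset.sum_congr rfl e]
    refine Finset.sum_comm' ?_
    intro x y
    simp only [Finset.mem_range]
    omega
  have hB : ∑ u' ∈ range U, ∑ u ∈ range u', (g u - g u') ^ 2
      ≤ ∑ u' ∈ range U, ∑ u ∈ Ico u' U, (g u - g u') ^ 2 := by
    have e : ∑ u' ∈ range U, ∑ u ∈ range u', (g u - g u') ^ 2
        = ∑ u ∈ range U, ∑ u' ∈ Ico (u + 1) U, (g u - g u') ^ 2 := by
      refine Finset.sum_comm' ?_
      intro x y
      simp only [Finset.mem_range, Finset.mem_Ico]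
      omega
    rw [e]
    refine Finset.sum_le_sum fun u _ => ?_
    calc ∑ u' ∈ Ico (u + 1) U, (g u - g u') ^ 2
        = ∑ u' ∈ Ico (u + 1) U, (g u' - g u) ^ 2 :=
          Finset.sum_congr rfl fun u' _ => by ring
      _ ≤ _ := by
          refine Finset.sum_le_sum_of_subset_of_nonneg ?_ fun _ _ _ => sq_nonneg _
          intro x hx
          rw [Finset.mem_Ico] at hx ⊢
          omega
  have hC : ∑ u' ∈ range U, ∑ u ∈ range U, (g u - g u') ^ 2
      = ∑ u' ∈ range U, ∑ u ∈ range u', (g u - g u') ^ 2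
        + ∑ u' ∈ range U, ∑ u ∈ Ico u' U, (g u - g u') ^ 2 := by
    rw [← Finset.sum_add_distrib]
    refine Finset.sum_congr rfl fun u' hu' => ?_
    rw [Finset.sum_range_add_sum_Ico _ (Finset.mem_range.1 hu').le]
  linarith

/-- the lag means -/
theorem pex_means (U : ℕ) (hU : 0 < U) (b V : ℕ → ℝ) (δ : ℝ)
    (hδ : ∑ u ∈ range U, ∑ u' ∈ range U, (b u + b u' - V (u + u')) ^ 2 = δ * U) :
    ∃ l : ℕ → ℝ, ∀ t ≤ U / 2,
      ∑ u ∈ range (U - t), ((b (u + t) - b u) - l t) ^ 2 ≤ 8 * δ := by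
  have key : ∀ t, ∃ m : ℝ, t ≤ U / 2 →
      ∑ u ∈ range (U - t), ((b (u + t) - b u) - m) ^ 2 ≤ 8 * δ := by
    intro t
    by_cases ht : t ≤ U / 2
    · obtain ⟨m, hm⟩ := pex_avg (U - t) (by omega) (fun u => b (u + t) - b u)
      refine ⟨m, fun _ => ?_⟩
      have h1 := pex_pair U (U - t) t b V (by omega)
      rw [hδ] at h1
      have h2 : (U : ℝ) ≤ 2 * ((U - t : ℕ) : ℝ) := by
        have : U ≤ 2 * (U - t) := by omega
        exact_mod_cast this
      have hS : 0 ≤ ∑ u ∈ range (U - t), ((b (u + t) - b u) - m) ^ 2 :=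
        Finset.sum_nonneg fun _ _ => sq_nonneg _
      have hU' : (0 : ℝ) < U := by exact_mod_cast hU
      have h3 : (U : ℝ) * ∑ u ∈ range (U - t), ((b (u + t) - b u) - m) ^ 2 ≤ U * (8 * δ) := by
        nlinarith [mul_le_mul_of_nonneg_right h2 hS]
      exact le_of_mul_le_mul_left h3 hU'
    · exact ⟨0, fun h => absurd h ht⟩
  choose l hl using key
  exact ⟨l, hl⟩

/-- the lag means are almost additive -/
theorem pex_defect (U : ℕ) (b l : ℕ → ℝ) (δ : ℝ)
    (hl : ∀ t ≤ U / 2, ∑ u ∈ range (U - t), ((b (u + t) - b u) - l t) ^ 2 ≤ 8 * δ)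
    (t t' : ℕ) (h : t + t' ≤ U / 2) :
    (U : ℝ) * (l (t + t') - l t - l t') ^ 2 ≤ 144 * δ := by
  set M := U - (t + t') with hM
  have h1 : ∀ u, (l (t + t') - l t - l t') ^ 2
      ≤ 3 * ((b (u + (t + t')) - b u) - l (t + t')) ^ 2
        + 3 * ((b (u + t' + t) - b (u + t')) - l t) ^ 2 + 3 * ((b (u + t') - b u) - l t') ^ 2 := by
    intro u
    have e : u + t' + t = u + (t + t') := by ring
    rw [e]
    set x := (b (u + (t + t')) - b u) - l (t + t') with hx
    set y := (b (u + (t + t')) - b (u + t')) - l t with hy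
    set z := (b (u + t') - b u) - l t' with hz
    have e2 : l (t + t') - l t - l t' = -x + y + z := by rw [hx, hy, hz]; ring
    rw [e2]
    nlinarith [sq_nonneg (x + y), sq_nonneg (x + z), sq_nonneg (y - z)]
  have h2 := hl (t + t') h
  have h3 : ∑ u ∈ range M, ((b (u + t' + t) - b (u + t')) - l t) ^ 2 ≤ 8 * δ :=
    (pex_shift (U - t) M t' (fun u => ((b (u + t) - b u) - l t) ^ 2) (fun _ => sq_nonneg _)
      (by omega)).trans (hl t (by omega))
  have h4 : ∑ u ∈ range M, ((b (u + t') - b u) - l t') ^ 2 ≤ 8 * δ := by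
    have := pex_shift (U - t') M 0 (fun u => ((b (u + t') - b u) - l t') ^ 2) (fun _ => sq_nonneg _)
      (by omega)
    simp only [Nat.add_zero] at this
    exact this.trans (hl t' (by omega))
  have h5 : (M : ℝ) * (l (t + t') - l t - l t') ^ 2 ≤ 72 * δ := by
    have e : (M : ℝ) * (l (t + t') - l t - l t') ^ 2
        = ∑ _u ∈ range M, (l (t + t') - l t - l t') ^ 2 := by
      rw [Finset.sum_const, Finset.card_range, nsmul_eq_mul]
    rw [e]
    calc _ ≤ ∑ u ∈ range M, (3 * ((b (u + (t + t')) - b u) - l (t + t')) ^ 2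
        + 3 * ((b (u + t' + t) - b (u + t')) - l t) ^ 2 + 3 * ((b (u + t') - b u) - l t') ^ 2) :=
          Finset.sum_le_sum fun u _ => h1 u
      _ = 3 * ∑ u ∈ range M, ((b (u + (t + t')) - b u) - l (t + t')) ^ 2
        + 3 * ∑ u ∈ range M, ((b (u + t' + t) - b (u + t')) - l t) ^ 2
        + 3 * ∑ u ∈ range M, ((b (u + t') - b u) - l t') ^ 2 := by
          simp only [Finset.sum_add_distrib, Finset.mul_sum]
      _ ≤ _ := by linarith
  have h6 : (U : ℝ) ≤ 2 * (M : ℝ) := by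
    have : U ≤ 2 * M := by omega
    exact_mod_cast this
  nlinarith [mul_le_mul_of_nonneg_right h6 (sq_nonneg (l (t + t') - l t - l t'))]

/-- short lags of the corrected sequence -/
theorem pex_short (U : ℕ) (b l : ℕ → ℝ) (δ s : ℝ)
    (hl : ∀ t ≤ U / 2, ∑ u ∈ range (U - t), ((b (u + t) - b u) - l t) ^ 2 ≤ 8 * δ)
    (hs : ∀ t ≤ U / 2, (U : ℝ) * (l t - s * t) ^ 2 ≤ 1296 * δ) (t : ℕ) (ht : t ≤ U / 2) :
    ∑ u ∈ range (U - t), ((b (u + t) - s * ((u + t : ℕ) : ℝ)) - (b u - s * u)) ^ 2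
      ≤ 2608 * δ := by
  have h1 : ∀ u : ℕ, ((b (u + t) - s * ((u + t : ℕ) : ℝ)) - (b u - s * u)) ^ 2
      ≤ 2 * ((b (u + t) - b u) - l t) ^ 2 + 2 * (l t - s * t) ^ 2 := by
    intro u
    push_cast
    nlinarith [sq_nonneg (((b (u + t) - b u) - l t) - (l t - s * t))]
  have h2 : ((U - t : ℕ) : ℝ) ≤ U := by exact_mod_cast Nat.sub_le U t
  calc _ ≤ ∑ u ∈ range (U - t), (2 * ((b (u + t) - b u) - l t) ^ 2 + 2 * (l t - s * t) ^ 2) :=
        Finset.sum_le_sum fun u _ => h1 u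
    _ = 2 * ∑ u ∈ range (U - t), ((b (u + t) - b u) - l t) ^ 2
        + 2 * (((U - t : ℕ) : ℝ) * (l t - s * t) ^ 2) := by
        rw [Finset.sum_add_distrib, Finset.mul_sum, Finset.sum_const, Finset.card_range,
          nsmul_eq_mul]
        ring
    _ ≤ _ := by
        have := mul_le_mul_of_nonneg_right h2 (sq_nonneg (l t - s * t))
        linarith [hl t ht, hs t ht]

/-- every lag from the short lags -/
theorem pex_long (U : ℕ) (g : ℕ → ℝ) (B : ℝ)
    (hg : ∀ t ≤ U / 2, ∑ u ∈ range (U - t), (g (u + t) - g u) ^ 2 ≤ B) (t : ℕ) (ht : t < U) :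
    ∑ u ∈ range (U - t), (g (u + t) - g u) ^ 2 ≤ 4 * B := by
  obtain ⟨t1, t2, h1, h2, rfl⟩ : ∃ t1 t2, t1 ≤ U / 2 ∧ t2 ≤ U / 2 ∧ t = t2 + t1 :=
    ⟨t / 2, t - t / 2, by omega, by omega, by omega⟩
  set M := U - (t2 + t1) with hM
  have h3 : ∑ u ∈ range M, (g (u + t2 + t1) - g (u + t2)) ^ 2 ≤ B :=
    (pex_shift (U - t1) M t2 (fun u => (g (u + t1) - g u) ^ 2) (fun _ => sq_nonneg _)
      (by omega)).trans (hg t1 h1)
  have h4 : ∑ u ∈ range M, (g (u + t2) - g u) ^ 2 ≤ B := by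
    have := pex_shift (U - t2) M 0 (fun u => (g (u + t2) - g u) ^ 2) (fun _ => sq_nonneg _)
      (by omega)
    simp only [Nat.add_zero] at this
    exact this.trans (hg t2 h2)
  calc _ ≤ ∑ u ∈ range M, (2 * (g (u + t2 + t1) - g (u + t2)) ^ 2 + 2 * (g (u + t2) - g u) ^ 2) := by
        refine Finset.sum_le_sum fun u _ => ?_
        rw [← Nat.add_assoc]
        nlinarith [sq_nonneg ((g (u + t2 + t1) - g (u + t2)) - (g (u + t2) - g u))]
    _ = 2 * ∑ u ∈ range M, (g (u + t2 + t1) - g (u + t2)) ^ 2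
        + 2 * ∑ u ∈ range M, (g (u + t2) - g u) ^ 2 := by
        simp only [Finset.sum_add_distrib, Finset.mul_sum]
    _ ≤ _ := by linarith

theorem rPex : OfPex := by
  intro hHu
  refine ⟨20864, ?_⟩
  intro U b V hU
  have hU' : (0 : ℝ) < U := by exact_mod_cast hU
  set Del := ∑ u ∈ range U, ∑ u' ∈ range U, (b u + b u' - V (u + u')) ^ 2 with hDel
  have hDel0 : 0 ≤ Del := Finset.sum_nonneg fun _ _ => Finset.sum_nonneg fun _ _ => sq_nonneg _
  set δ := Del / U with hδ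
  have hδ0 : 0 ≤ δ := div_nonneg hDel0 hU'.le
  have hδU : Del = δ * U := by rw [hδ]; field_simp
  obtain ⟨l, hl⟩ := pex_means U hU b V δ hδU
  set c := 12 * Real.sqrt (δ / U) with hc
  have hc0 : 0 ≤ c := by positivity
  have hc2 : (U : ℝ) * c ^ 2 = 144 * δ := by
    rw [hc, mul_pow, Real.sq_sqrt (div_nonneg hδ0 hU'.le)]
    field_simp
    ring
  obtain ⟨s, hs⟩ := hHu (U / 2) l c (by
    intro t t' h
    have h1 := pex_defect U b l δ hl t t' h
    rw [← hc2] at h1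
    exact abs_le_of_sq_le_sq (le_of_mul_le_mul_left h1 hU') hc0)
  have hs2 : ∀ t ≤ U / 2, (U : ℝ) * (l t - s * t) ^ 2 ≤ 1296 * δ := by
    intro t ht
    have h1 : (l t - s * t) ^ 2 ≤ (3 * c) ^ 2 := by
      rw [← sq_abs]
      exact pow_le_pow_left₀ (abs_nonneg _) (hs t ht) 2
    nlinarith [mul_le_mul_of_nonneg_left h1 hU'.le]
  set g : ℕ → ℝ := fun u => b u - s * u with hg
  have hshort : ∀ t ≤ U / 2, ∑ u ∈ range (U - t), (g (u + t) - g u) ^ 2 ≤ 2608 * δ :=
    fun t ht => pex_short U b l δ s hl hs2 t ht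
  have hall : ∑ t ∈ range U, ∑ u ∈ range (U - t), (g (u + t) - g u) ^ 2
      ≤ U * (4 * (2608 * δ)) := by
    calc _ ≤ ∑ _t ∈ range U, 4 * (2608 * δ) :=
          Finset.sum_le_sum fun t ht => pex_long U g _ hshort t (Finset.mem_range.1 ht)
      _ = _ := by rw [Finset.sum_const, Finset.card_range, nsmul_eq_mul]
  obtain ⟨e, he⟩ := pex_avg U hU g
  refine ⟨e, s, ?_⟩
  have h1 := pex_lags U g
  have h2 : ∑ u ∈ range U, (b u - e - s * u) ^ 2 = ∑ u ∈ range U, (g u - e) ^ 2 :=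
    Finset.sum_congr rfl fun u _ => by simp only [hg]; ring
  have h3 : (U : ℝ) * ∑ u ∈ range U, (g u - e) ^ 2 ≤ U * (20864 * δ) := by linarith
  have h4 := le_of_mul_le_mul_left h3 hU'
  rw [h2, div_le_iff₀ hU']
  have h5 : 20864 * (Del / (U : ℝ) ^ 2) * U = 20864 * δ := by rw [hδ]; field_simp
  rw [h5]
  exact h4

end Pool.Agent.MP_f3836a_nt.VE.F
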