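import Pool.Agent.MP_f3836a_nt.VE.SpecFA

/-! Row Pru: pruning of the points with a large deviation. -/

set_option autoImplicit false

namespace Pool.Agent.MP_f3836a_nt.VE.F

open Finset

theorem pru_ind0 (p : Prop) : 0 ≤ ind p := by
  by_cases h : p <;> simp [ind, h]

theorem pru_ind1 (p : Prop) : ind p ≤ 1 := by
  by_cases h : p <;> simp [ind, h]

theorem pru_sum {α : Type} (s : Finset α) (p : Prop) (a : α) :
    ∑ x ∈ s, ind (p ∧ a = x) ≤ ind p ∧ (a ∈ s → ∑ x ∈ s, ind (p ∧ a = x) = ind p) := by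
  classical
  by_cases h : p <;> by_cases k : a ∈ s <;> simp [ind, h, k]

theorem pru_tri (a a' b b' r t : ℝ) (h1 : a - a' = r) (h2 : 0 ≤ r) (h3 : |b - b'| ≤ t) :
    |a' - b'| ≤ |a - b| + r + t := by
  have := abs_le.1 h3
  have := le_abs_self (a - b)
  have := neg_abs_le (a - b)
  exact abs_le.2 ⟨by linarith, by linarith⟩

theorem rPru : PruS := by
  intro Ω ι Cl _ _ κ m Z cl ZZ n f1 f2 d K F1 F2 mc D Λ η e G
  obtain ⟨e0, e1, η0⟩ := G.sm
  have hΛ := G.md.big
  obtain ⟨k2, kΛ⟩ := G.md.kap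
  have : Nontrivial (Fin κ) := Fin.nontrivial_iff_two_le.2 k2
  have m0 := G.tp.nn
  have n0 : ∀ z ∈ ZZ, 0 ≤ n z := fun z h => (G.pos z h).le
  have s1 : ∀ i z, 0 ≤ ∑ c, |M1 m Z cl i z c - n z * f1 z * mc c| := fun _ _ =>
    sum_nonneg fun _ _ => abs_nonneg _
  have s2 : ∀ i j z, 0 ≤ ∑ z' ∈ ZZ, |M2 m Z i j z z' - n z * n z' * f2 z z'| := fun _ _ _ =>
    sum_nonneg fun _ _ => abs_nonneg _
  have D0 : ∀ z ∈ ZZ, 0 ≤ D z := fun z h => by
    obtain ⟨i, j, k⟩ := exists_pair_ne (Fin κ)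
    exact (add_nonneg (s1 i z) (s2 i j z)).trans (G.dv i j k z h)
  have hB : ∑ z ∈ ZZ.filter fun z => ¬D z ≤ e * n z, n z ≤ e := by
    refine le_of_mul_le_mul_left ?_ e0
    rw [mul_sum, ← sq]
    exact ((sum_le_sum fun z h => (not_le.1 (mem_filter.1 h).2).le).trans
      (sum_le_sum_of_subset_of_nonneg (filter_subset _ _) fun z h _ => D0 z h)).trans G.tot
  have hN : ∑ z ∈ ZZ, n z ≤ 2 := by
    have a : ∑ z ∈ ZZ, n z = ∑ i ∈ range K, ∑ z ∈ ZZ, ind (d z = i) * n z := by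
      rw [sum_comm]
      refine sum_congr rfl fun z h => ?_
      have := (pru_sum (range K) True (d z)).2 (mem_range.2 (G.lt z h))
      simp only [true_and] at this
      rw [← sum_mul, this]
      simp [ind]
    have b : ∑ i ∈ range K, (1 / K : ℝ) = 1 := by
      have : (K : ℝ) ≠ 0 := by exact_mod_cast G.md.pos.ne'
      simp [this]
    have c := (sum_le_sum fun i _ => le_abs_self _).trans G.eq
    rw [sum_sub_distrib, b, ← a] at c
    linarith
  have hP : ∀ i, ∀ z ∈ ZZ, ∑ ω, m ω * ind (Z ω i = z) ≤ n z * Λ + D z := fun i z h => by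
    obtain ⟨j, k⟩ := exists_ne i
    have a : ∑ c, M1 m Z cl i z c = ∑ ω, m ω * ind (Z ω i = z) := by
      simp only [M1]
      rw [sum_comm]
      exact sum_congr rfl fun ω _ => by rw [← mul_sum, (pru_sum _ _ _).2 (mem_univ _)]
    have b := (sum_le_sum fun c _ => le_abs_self _).trans
      ((le_add_of_nonneg_right (s2 i j z)).trans (G.dv i j k.symm z h))
    rw [sum_sub_distrib, ← mul_sum, G.tp.mc1, a] at b
    nlinarith [(G.c1 z h).2.1, n0 z h]
  refine ⟨fun i j hij z hz => ?_, fun i hi => ?_, ?_, fun i z h k => ?_⟩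
  · obtain ⟨hz, gz⟩ := mem_filter.1 hz
    have nz := n0 z hz
    obtain ⟨r, hr⟩ : ∃ r : Ω → ℝ, ∀ ω, r ω = m ω * (1 - ind (∀ i, D (Z ω i) ≤ e * n (Z ω i))) :=
      ⟨_, fun _ => rfl⟩
    have r0 : ∀ ω, 0 ≤ r ω := fun ω => hr ω ▸ mul_nonneg (m0 ω) (sub_nonneg.2 (pru_ind1 _))
    have rem : ∑ ω, r ω * ind (Z ω i = z) ≤ Λ * ((1 + Λ) * e * n z) := by
      have a : ∀ ω, r ω * ind (Z ω i = z) ≤ ∑ j ∈ univ.erase i,
          ∑ z' ∈ ZZ.filter fun z => ¬D z ≤ e * n z, m ω * ind (Z ω i = z ∧ Z ω j = z') := by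
        intro ω
        have p : ∀ j z', 0 ≤ m ω * ind (Z ω i = z ∧ Z ω j = z') := fun _ _ =>
          mul_nonneg (m0 ω) (pru_ind0 _)
        by_cases c : m ω ≠ 0 ∧ Z ω i = z ∧ ¬∀ i, D (Z ω i) ≤ e * n (Z ω i)
        · obtain ⟨j, c3⟩ := not_forall.1 c.2.2
          refine le_trans ?_ (single_le_sum (f := fun j => ∑ z' ∈ _, _)
            (fun j _ => sum_nonneg fun _ _ => p j _) (mem_erase.2
              ⟨fun k : j = i => c3 (by rw [k, c.2.1]; exact gz), mem_univ j⟩))
          rw [← mul_sum, (pru_sum _ _ _).2 (mem_filter.2 ⟨G.tp.sup ω c.1 j, c3⟩), hr]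
          simp [ind, c.2.2]
        · refine le_trans (le_of_eq ?_) (sum_nonneg fun j _ => sum_nonneg fun _ _ => p j _)
          rw [hr]
          simp only [not_and_or, not_not] at c
          rcases c with c | c | c <;> simp [ind, c]
      have b : ∀ j ∈ univ.erase i, ∑ ω, ∑ z' ∈ ZZ.filter fun z => ¬D z ≤ e * n z,
          m ω * ind (Z ω i = z ∧ Z ω j = z') ≤ (1 + Λ) * e * n z := fun j hj => by
        rw [sum_comm]
        have c : ∀ z' ∈ ZZ.filter fun z => ¬D z ≤ e * n z, M2 m Z i j z z' ≤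
            |M2 m Z i j z z' - n z * n z' * f2 z z'| + n z * Λ * n z' := fun z' h => by
          have h' := (mem_filter.1 h).1
          have := mul_le_mul_of_nonneg_left (G.c2 z hz z' h').2.1 (mul_nonneg nz (n0 z' h'))
          linarith [le_abs_self (M2 m Z i j z z' - n z * n z' * f2 z z')]
        refine (sum_le_sum c).trans ?_
        rw [sum_add_distrib, ← mul_sum]
        have c1 := (sum_le_sum_of_subset_of_nonneg (filter_subset (fun z => ¬D z ≤ e * n z) ZZ)
          fun z' _ _ => abs_nonneg _).trans ((le_add_of_nonneg_left (s1 i z)).trans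
            (G.dv i j (ne_of_mem_erase hj).symm z hz))
        have c2 := mul_le_mul_of_nonneg_left hB (mul_nonneg nz (by linarith : 0 ≤ Λ))
        linarith
      refine (sum_le_sum fun ω _ => a ω).trans ?_
      rw [sum_comm]
      refine (sum_le_card_nsmul _ _ _ b).trans ?_
      rw [nsmul_eq_mul]
      refine mul_le_mul_of_nonneg_right (le_trans ?_ kΛ) (by positivity)
      exact_mod_cast card_erase_le.trans (by simp)
    have a1 : ∑ c, |M1 (fun ω => m ω * ind (∀ i, D (Z ω i) ≤ e * n (Z ω i))) Z cl i z c -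
        n z * F1 (d z) * mc c| ≤ ∑ c, (|M1 m Z cl i z c - n z * f1 z * mc c| +
          ∑ ω, r ω * ind (Z ω i = z ∧ cl ω = c) + η * n z * mc c) :=
      sum_le_sum fun c _ => pru_tri _ _ _ _ _ _ (by
        simp only [M1, ← sum_sub_distrib, hr]
        exact sum_congr rfl fun _ _ => by ring)
        (sum_nonneg fun ω _ => mul_nonneg (r0 ω) (pru_ind0 _)) (by
        rw [← sub_mul, ← mul_sub, abs_mul, abs_mul, abs_of_nonneg nz, abs_of_nonneg (G.tp.mc0 c),
          mul_comm η]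
        exact mul_le_mul_of_nonneg_right (mul_le_mul_of_nonneg_left (G.c1 z hz).2.2 nz)
          (G.tp.mc0 c))
    have a2 : ∑ z' ∈ ZZ.filter fun z => D z ≤ e * n z,
        |M2 (fun ω => m ω * ind (∀ i, D (Z ω i) ≤ e * n (Z ω i))) Z i j z z' -
          n z * n z' * F2 (d z) (d z')| ≤ ∑ z' ∈ ZZ, (|M2 m Z i j z z' - n z * n z' * f2 z z'| +
          ∑ ω, r ω * ind (Z ω i = z ∧ Z ω j = z') + η * n z * n z') :=
      (sum_le_sum_of_subset_of_nonneg (filter_subset _ _) fun _ _ _ => abs_nonneg _).trans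
        (sum_le_sum fun z' h => pru_tri _ _ _ _ _ _ (by
        simp only [M2, ← sum_sub_distrib, hr]
        exact sum_congr rfl fun _ _ => by ring)
        (sum_nonneg fun ω _ => mul_nonneg (r0 ω) (pru_ind0 _)) (by
        rw [← mul_sub, abs_mul, abs_of_nonneg (mul_nonneg nz (n0 z' h)), mul_assoc η, mul_comm η]
        exact mul_le_mul_of_nonneg_left (G.c2 z hz z' h).2.2 (mul_nonneg nz (n0 z' h))))
    have t : ∀ {α : Type} (s : Finset α) (g : Ω → α),
        ∑ x ∈ s, ∑ ω, r ω * ind (Z ω i = z ∧ g ω = x) ≤ Λ * ((1 + Λ) * e * n z) := fun s g => by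
      rw [sum_comm]
      refine (sum_le_sum fun ω _ => ?_).trans rem
      rw [← mul_sum]
      exact mul_le_mul_of_nonneg_left (pru_sum _ _ _).1 (r0 ω)
    rw [sum_add_distrib, sum_add_distrib, ← mul_sum] at a1 a2
    rw [G.tp.mc1] at a1
    have b1 := t univ cl
    have b2 := t ZZ fun ω => Z ω j
    have b3 := (G.dv i j hij z hz).trans gz
    have b4 := mul_le_mul_of_nonneg_left hN (mul_nonneg η0 nz)
    have b5 : (1 + 2 * Λ * (1 + Λ)) * (e * n z) ≤ Λ ^ 3 * (e * n z) :=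
      mul_le_mul_of_nonneg_right (by nlinarith [sq_nonneg Λ]) (mul_nonneg e0.le nz)
    simp only [Dm] at b3 ⊢
    linarith
  · have a := (single_le_sum (f := fun i => |∑ z ∈ ZZ, ind (d z = i) * n z - 1 / (K : ℝ)|)
      (fun _ _ => abs_nonneg _) (mem_range.2 hi)).trans G.eq
    rw [← sum_filter_add_sum_filter_not ZZ fun z => D z ≤ e * n z, abs_le] at a
    have b : 0 ≤ ∑ z ∈ ZZ.filter fun z => ¬D z ≤ e * n z, ind (d z = i) * n z :=
      sum_nonneg fun z h => mul_nonneg (pru_ind0 _) (n0 z (mem_filter.1 h).1)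
    have c := (sum_le_sum fun z h => mul_le_of_le_one_left (n0 z (mem_filter.1 h).1)
      (pru_ind1 (d z = i))).trans hB
    exact abs_le.2 ⟨by linarith [a.1], by linarith [a.2]⟩
  · obtain ⟨i⟩ : Nonempty (Fin κ) := inferInstance
    have a : ∑ ω, m ω = ∑ z ∈ ZZ, ∑ ω, m ω * ind (Z ω i = z) := by
      rw [sum_comm]
      refine sum_congr rfl fun ω _ => ?_
      by_cases c : m ω = 0
      · simp [c]
      · have := (pru_sum ZZ True (Z ω i)).2 (G.tp.sup ω c i)
        simp only [true_and] at this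
        rw [← mul_sum, this]
        simp [ind]
    have b := sum_le_sum (hP i)
    rw [← a, sum_add_distrib, ← sum_mul] at b
    nlinarith [G.tot]
  · nlinarith [hP i z h, n0 z h]

end Pool.Agent.MP_f3836a_nt.VE.F
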