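import Pool.Agent.MP_f3836a_nt.VE.SpecFA

/-! The ideal form on points against the form on cells. -/

set_option autoImplicit false

namespace Pool.Agent.MP_f3836a_nt.VE.F

open Finset

theorem qc_fib {ι : Type} {ZZ : Finset ι} {d : ι → ℕ} {K : ℕ} (h : ∀ z ∈ ZZ, d z < K) (w : ι → ℝ)
    (g : ℕ → ℝ) :
    ∑ z ∈ ZZ, w z * g (d z) = ∑ i ∈ range K, (∑ z ∈ ZZ, ind (d z = i) * w z) * g i := by
  simp only [sum_mul]
  rw [sum_comm]
  refine sum_congr rfl fun z hz => ?_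
  simp [ind, h z hz]

theorem qc_dev {K : ℕ} {ν h : ℕ → ℝ} {η : ℝ} (h1 : ∀ i < K, |ν i - 1 / K| ≤ η / K)
    (h0 : ∀ i < K, 0 ≤ h i) :
    |∑ i ∈ range K, ν i * h i - (∑ i ∈ range K, h i) / K| ≤ η * ((∑ i ∈ range K, h i) / K) := by
  rw [sum_div, ← sum_sub_distrib, mul_sum]
  refine (abs_sum_le_sum_abs _ _).trans (sum_le_sum fun i hi => ?_)
  rw [show ν i * h i - h i / K = (ν i - 1 / K) * h i by ring, abs_mul,
    abs_of_nonneg (h0 i (mem_range.1 hi))]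
  exact (mul_le_mul_of_nonneg_right (h1 i (mem_range.1 hi)) (h0 i (mem_range.1 hi))).trans_eq
    (by ring)

theorem qc_fin {Λ κ η X Q Y Z W W' T T' A A' B B' V : ℝ} (Λ0 : 100 ≤ Λ) (κ1 : 2 ≤ κ) (κ2 : κ ≤ Λ)
    (η0 : 0 ≤ η) (η1 : η ≤ 1 / 2) (a1 : X ≤ 3 * Z + 3 * W') (a2 : W' - W ≤ η * W) (hs : W ≤ Λ * Q)
    (a3 : Z ≤ Λ * Y) (a5 : 0 ≤ Y) (a6 : 0 ≤ X - 2 * T + T') (a8 : T' - T ≤ η * T)
    (a9 : A' - A ≤ η * A) (b1 : -(η * B) ≤ B' - B) (b2 : A ≤ Λ * T) (b3 : B ≤ Λ) (b4 : 0 ≤ T)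
    (b5 : 0 ≤ W) (b6 : 0 ≤ X) :
    X ≤ Λ ^ 3 * (κ * Y + Q - κ * (A' - A) + V ^ 2 * (B' - B) + Λ ^ 3 * η * (X + V ^ 2)) := by
  have Λ1 : 0 < Λ := by linarith
  have Q0 : 0 ≤ Q := nonneg_of_mul_nonneg_right (b5.trans hs) Λ1
  have h3 : 5 * Λ ≤ Λ ^ 3 := by nlinarith [mul_pos Λ1 Λ1]
  have d1 : T ≤ 2 * X := by linarith [mul_le_mul_of_nonneg_right η1 b4]
  have d2 : κ * (A' - A) ≤ Λ ^ 3 * η * X :=
    calc κ * (A' - A) ≤ κ * (η * (Λ * (2 * X))) := by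
          refine mul_le_mul_of_nonneg_left (a9.trans ?_) (by linarith)
          gcongr
          exact b2.trans (by gcongr)
      _ ≤ Λ * (η * (Λ * (Λ * X))) := by gcongr; linarith
      _ = _ := by ring
  have d3 : V ^ 2 * (η * B) ≤ V ^ 2 * (η * Λ ^ 3) := by gcongr; linarith
  have d4 : X ≤ 5 * Λ * (κ * Y + Q) := by
    have := mul_le_mul_of_nonneg_right κ1 (mul_nonneg Λ1.le a5)
    linarith [mul_le_mul_of_nonneg_right η1 b5, mul_nonneg Λ1.le a5, mul_nonneg Λ1.le Q0]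
  refine d4.trans (mul_le_mul h3 ?_ (by positivity) (by positivity))
  linarith [mul_le_mul_of_nonneg_left b1 (sq_nonneg V)]

theorem rQc : OfQc := ⟨3, fun {ι} ZZ n b lq d κ K F1 F2 Λ L lam η V hM hP hη hb => by
  have K0 : (0 : ℝ) < K := by exact_mod_cast hM.pos
  have η0 : 0 ≤ η := by
    simpa using mul_nonneg ((abs_nonneg _).trans (hP.eq 0 hM.pos)) K0.le |>.trans_eq
      (div_mul_cancel₀ _ K0.ne')
  have Λ0 := hM.big
  have κ1 : (2 : ℝ) ≤ κ := by exact_mod_cast hM.kap.1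
  obtain ⟨ν, hν⟩ : ∃ ν : ℕ → ℝ, ∀ i, ∑ z ∈ ZZ, ind (d z = i) * n z = ν i := ⟨_, fun _ => rfl⟩
  obtain ⟨β, hβ⟩ : ∃ β : ℕ → ℝ, ∀ i, ∑ z ∈ ZZ, ind (d z = i) * (n z * b z) = β i / K :=
    ⟨fun i => _ * K, fun _ => (mul_div_cancel_right₀ _ K0.ne').symm⟩
  have f0 : ∀ g : ℕ → ℝ, ∑ z ∈ ZZ, n z * g (d z) = ∑ i ∈ range K, ν i * g i := fun g => by
    simp only [qc_fib hP.lt n g, hν]
  have f1 : ∀ g : ℕ → ℝ, ∑ z ∈ ZZ, n z * b z * g (d z) = (∑ i ∈ range K, g i * β i) / K :=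
    fun g => by
      rw [qc_fib hP.lt (fun z => n z * b z) g, sum_div]
      exact sum_congr rfl fun i _ => by rw [hβ]; ring
  have dv := fun h => qc_dev (ν := ν) (h := h) fun i hi => hν i ▸ hP.eq i hi
  have f2 : ∀ g : ℕ → ℝ, ∑ z ∈ ZZ, n z * g (d z) * (b z - β (d z)) ^ 2 =
      ∑ z ∈ ZZ, n z * g (d z) * b z ^ 2 - 2 * ((∑ i ∈ range K, g i * β i ^ 2) / K) +
        ∑ i ∈ range K, ν i * (g i * β i ^ 2) := fun g => by
    simp only [sq (β _), ← mul_assoc (g _)]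
    rw [← f1 fun i => g i * β i, ← f0 fun i => g i * β i * β i, mul_sum, ← sum_sub_distrib,
      ← sum_add_distrib]
    exact sum_congr rfl fun z _ => by ring
  have F0 : ∀ i < K, 0 ≤ F1 i := fun i hi => le_trans (by positivity) (hM.f1 i hi).1
  have e1 : ∑ z ∈ ZZ, n z * F1 (d z) * b z = (∑ i ∈ range K, F1 i * β i) / K := by
    simp only [← f1, mul_right_comm]
  have e2 : ∑ z ∈ ZZ, ∑ z' ∈ ZZ, n z * n z' * F2 (d z) (d z') * b z * b z' =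
      (∑ i ∈ range K, ∑ j ∈ range K, F2 i j * β i * β j) / (K : ℝ) ^ 2 := by
    have := f1 fun i => (∑ j ∈ range K, F2 i j * β j) / K
    simp only [← f1 (F2 (d _)), mul_sum, sum_div, sum_mul] at this ⊢
    exact (sum_congr rfl fun _ _ => sum_congr rfl fun _ _ => by ring).trans
      (this.trans (sum_congr rfl fun _ _ => sum_congr rfl fun _ _ => by ring))
  obtain ⟨e, s, hs⟩ := hM.low β V
  have a1 : ∑ z ∈ ZZ, n z * b z ^ 2 ≤ 3 * ∑ z ∈ ZZ, n z * 1 * (b z - β (d z)) ^ 2 +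
      3 * ∑ z ∈ ZZ, n z * ((β (d z) - e - s * d z) ^ 2 + s ^ 2) := by
    rw [mul_sum, mul_sum, ← sum_add_distrib]
    refine (hb (e - s / lam * L) (s / lam)).trans (sum_le_sum fun z hz => ?_)
    have h1 : (s / lam * (lq z - L - lam * d z)) ^ 2 ≤ s ^ 2 := by
      rw [mul_pow, div_pow, div_mul_eq_mul_div, div_le_iff₀ (pow_pos hP.lam_pos 2)]
      exact mul_le_mul_of_nonneg_left (sq_le_sq' (abs_le.1 (hP.lg z hz)).1
        (abs_le.1 (hP.lg z hz)).2) (sq_nonneg _)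
    have h2 : b z - (e - s / lam * L) - s / lam * lq z = (b z - β (d z)) +
        (β (d z) - e - s * d z) - s / lam * (lq z - L - lam * d z) := by
      have := hP.lam_pos.ne'
      field_simp
      ring
    rw [h2]
    generalize b z - β (d z) = x, β (d z) - e - s * d z = y, s / lam * _ = w at h1 ⊢
    have : (x + y - w) ^ 2 ≤ 3 * x ^ 2 + 3 * (y ^ 2 + s ^ 2) := by
      nlinarith [sq_nonneg (x - y), sq_nonneg (x + w), sq_nonneg (y + w)]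
    nlinarith [mul_le_mul_of_nonneg_left this (hP.nn z hz)]
  have a2 := (abs_le.1 (dv (fun i => (β i - e - s * i) ^ 2 + s ^ 2) fun _ _ => by positivity)).2
  rw [f0 fun i => (β i - e - s * i) ^ 2 + s ^ 2] at a1
  rw [sum_add_distrib (s := range K) (g := fun _ => s ^ 2), add_div, sum_const, card_range,
    nsmul_eq_mul, mul_div_cancel_left₀ _ K0.ne'] at a2
  have a3 : ∑ z ∈ ZZ, n z * 1 * (b z - β (d z)) ^ 2 ≤
      Λ * ∑ z ∈ ZZ, n z * F1 (d z) * (b z - β (d z)) ^ 2 := by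
    rw [mul_sum]
    refine sum_le_sum fun z hz => ?_
    have := (div_le_iff₀ (by linarith)).1 (hM.f1 _ (hP.lt z hz)).1
    nlinarith [mul_le_mul_of_nonneg_left this (mul_nonneg (hP.nn z hz) (sq_nonneg (b z - β (d z))))]
  have a4 : 0 ≤ ∑ z ∈ ZZ, n z * 1 * (b z - β (d z)) ^ 2 :=
    sum_nonneg fun z hz => by have := hP.nn z hz; positivity
  have a5 : 0 ≤ ∑ z ∈ ZZ, n z * F1 (d z) * (b z - β (d z)) ^ 2 :=
    sum_nonneg fun z hz => by have := hP.nn z hz; have := F0 _ (hP.lt z hz); positivity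
  have a6 := f2 fun _ => 1
  have a7 := f2 F1
  have a8 := (abs_le.1 (dv (fun i => 1 * β i ^ 2) fun _ _ => by positivity)).2
  have a9 := (abs_le.1 (dv (fun i => F1 i * β i ^ 2) fun i hi => by have := F0 i hi; positivity)).2
  have b1 := (abs_le.1 (dv F1 F0)).1
  have b2 : (∑ i ∈ range K, F1 i * β i ^ 2) / K ≤ Λ * ((∑ i ∈ range K, 1 * β i ^ 2) / K) := by
    simp only [← mul_div_assoc, mul_sum, one_mul]
    gcongr with i hi
    exact (hM.f1 i (mem_range.1 hi)).2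
  have b3 : (∑ i ∈ range K, F1 i) / K ≤ Λ := by
    rw [div_le_iff₀' K0]
    simpa using sum_le_card_nsmul _ _ Λ fun i hi => (hM.f1 i (mem_range.1 hi)).2
  have c1 : Qn ZZ n d κ F1 F2 b V = κ * ∑ z ∈ ZZ, n z * F1 (d z) * (b z - β (d z)) ^ 2 +
      Qm κ K F1 F2 β V - κ * (∑ i ∈ range K, ν i * (F1 i * β i ^ 2) -
        (∑ i ∈ range K, F1 i * β i ^ 2) / K) +
      V ^ 2 * (∑ i ∈ range K, ν i * F1 i - (∑ i ∈ range K, F1 i) / K) := by
    rw [Qn, Qm, e1, e2, f0 F1, a7]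
    ring
  simp only [mul_one] at a6 a1 a3 a4
  rw [c1]
  exact qc_fin Λ0 κ1 hM.kap.2 η0 hη a1 a2 hs a3 a5 (a6 ▸ a4) a8 a9 b1 b2 b3 (by positivity)
    (by positivity) (sum_nonneg fun z hz => mul_nonneg (hP.nn z hz) (sq_nonneg _))⟩

end Pool.Agent.MP_f3836a_nt.VE.F
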