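import Pool.Agent.MP_f3836a_nt.VE.SpecFA

/-! Comparison of the true and the ideal quadratic form. -/

set_option autoImplicit false

namespace Pool.Agent.MP_f3836a_nt.VE.F

open Finset

section

variable {Ω ι Cl : Type} [Fintype Ω] [Fintype Cl] {κ : ℕ} {m : Ω → ℝ} {Z : Ω → Fin κ → ι}
  {cl : Ω → Cl} {ZZ : Finset ι} {n : ι → ℝ} {mc : Cl → ℝ} {δ : ℝ}

theorem qx_m1 (h : Tp m Z ZZ mc) (cl : Ω → Cl) (g : ι → Cl → ℝ) (i : Fin κ) :
    ∑ ω, m ω * g (Z ω i) (cl ω) = ∑ z ∈ ZZ, ∑ c, M1 m Z cl i z c * g z c := by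
  classical
  simp only [M1, sum_mul]
  rw [sum_congr rfl fun z _ => sum_comm, sum_comm]
  refine sum_congr rfl fun ω _ => ?_
  by_cases e : m ω = 0
  · simp [e]
  · simp [ind, ite_and, h.sup ω e i]

theorem qx_m2 (h : Tp m Z ZZ mc) (g : ι → ι → ℝ) (i j : Fin κ) :
    ∑ ω, m ω * g (Z ω i) (Z ω j) = ∑ z ∈ ZZ, ∑ z' ∈ ZZ, M2 m Z i j z z' * g z z' := by
  classical
  simp only [M2, sum_mul]
  rw [sum_congr rfl fun z _ => sum_comm, sum_comm]
  refine sum_congr rfl fun ω _ => ?_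
  by_cases e : m ω = 0
  · simp [e]
  · simp [ind, ite_and, h.sup ω e i, h.sup ω e j]

theorem qx_e1 (h : Tp m Z ZZ mc) {f : ι → ℝ} {i : Fin κ}
    (hD : ∀ z ∈ ZZ, ∑ c, |M1 m Z cl i z c - n z * f z * mc c| ≤ δ * n z) (g : ι → Cl → ℝ)
    (G : ι → ℝ) (G0 : ∀ z, 0 ≤ G z) (hG : ∀ z c, |g z c| ≤ G z) :
    |∑ ω, m ω * g (Z ω i) (cl ω) - ∑ z ∈ ZZ, n z * f z * ∑ c, mc c * g z c|
      ≤ δ * ∑ z ∈ ZZ, n z * G z := by
  rw [qx_m1 h, ← sum_sub_distrib, mul_sum]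
  refine (abs_sum_le_sum_abs _ _).trans (sum_le_sum fun z hz => ?_)
  rw [mul_sum, ← sum_sub_distrib, ← mul_assoc]
  refine le_trans ((abs_sum_le_sum_abs _ _).trans ?_) (mul_le_mul_of_nonneg_right (hD z hz) (G0 z))
  rw [sum_mul]
  refine sum_le_sum fun c _ => ?_
  rw [← mul_assoc, ← sub_mul, abs_mul]
  exact mul_le_mul_of_nonneg_left (hG z c) (abs_nonneg _)

theorem qx_e2 (h : Tp m Z ZZ mc) {f : ι → ι → ℝ} (hf : ∀ z z', f z z' = f z' z) {i j : Fin κ}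
    (h1 : ∀ z ∈ ZZ, ∑ z' ∈ ZZ, |M2 m Z i j z z' - n z * n z' * f z z'| ≤ δ * n z)
    (h2 : ∀ z ∈ ZZ, ∑ z' ∈ ZZ, |M2 m Z j i z z' - n z * n z' * f z z'| ≤ δ * n z) (b : ι → ℝ) :
    |∑ ω, m ω * (b (Z ω i) * b (Z ω j)) - ∑ z ∈ ZZ, ∑ z' ∈ ZZ, n z * n z' * f z z' * b z * b z'|
      ≤ δ * ∑ z ∈ ZZ, n z * b z ^ 2 := by
  have key : ∀ D : ι → ι → ℝ, (∀ z ∈ ZZ, ∑ z' ∈ ZZ, D z z' ≤ δ * n z) →
      ∑ z ∈ ZZ, ∑ z' ∈ ZZ, D z z' * b z ^ 2 ≤ δ * ∑ z ∈ ZZ, n z * b z ^ 2 := fun D hD => by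
    rw [mul_sum]
    refine sum_le_sum fun z hz => ?_
    rw [← sum_mul, ← mul_assoc]
    exact mul_le_mul_of_nonneg_right (hD z hz) (sq_nonneg _)
  have a1 := key _ h1
  have a2 := key _ h2
  rw [sum_comm] at a2
  rw [qx_m2 h (fun z z' => b z * b z'), ← sum_sub_distrib]
  refine (abs_sum_le_sum_abs _ _).trans (le_trans ?_ ((add_le_add (mul_le_mul_of_nonneg_left a1
    one_half_pos.le) (mul_le_mul_of_nonneg_left a2 one_half_pos.le)).trans_eq (by ring)))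
  rw [mul_sum, mul_sum, ← sum_add_distrib]
  refine sum_le_sum fun z _ => ?_
  rw [mul_sum, mul_sum, ← sum_add_distrib, ← sum_sub_distrib]
  refine (abs_sum_le_sum_abs _ _).trans (sum_le_sum fun z' _ => ?_)
  have e : M2 m Z j i z' z = M2 m Z i j z z' := by simp only [M2, and_comm]
  rw [e, hf z' z, mul_comm (n z'), mul_assoc _ (b z), ← sub_mul, abs_mul]
  have : |b z * b z'| ≤ (b z ^ 2 + b z' ^ 2) / 2 :=
    abs_le.2 ⟨by nlinarith [sq_nonneg (b z + b z')], by nlinarith [sq_nonneg (b z - b z')]⟩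
  exact (mul_le_mul_of_nonneg_left this (abs_nonneg _)).trans_eq (by ring)

end

theorem rQx : QxS := by
  intro Ω ι Cl _ _ κ m Z cl ZZ n b d F1 F2 mc V δ R hκ h hn hF hδ hR hD
  have : Nontrivial (Fin κ) := Fin.nontrivial_iff_two_le.2 hκ
  have d1 : ∀ i, ∀ z ∈ ZZ, ∑ c, |M1 m Z cl i z c - n z * F1 (d z) * mc c| ≤ δ * n z :=
    fun i z hz => by
      obtain ⟨j, hj⟩ := exists_ne i
      exact le_trans (le_add_of_nonneg_right (sum_nonneg fun _ _ => abs_nonneg _))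
        (hD i j hj.symm z hz)
  have d2 : ∀ i j, i ≠ j → ∀ z ∈ ZZ,
      ∑ z' ∈ ZZ, |M2 m Z i j z z' - n z * n z' * F2 (d z) (d z')| ≤ δ * n z := fun i j e z hz =>
    le_trans (le_add_of_nonneg_left (sum_nonneg fun _ _ => abs_nonneg _)) (hD i j e z hz)
  have R0 : 0 ≤ R := by
    obtain ⟨c, -⟩ := nonempty_of_sum_ne_zero (h.mc1.trans_ne one_ne_zero)
    exact (sq_nonneg _).trans (hR c)
  have i0 : Fin κ := ⟨0, by omega⟩
  have e1 : ∀ i, |∑ ω, m ω * b (Z ω i) ^ 2 - ∑ z ∈ ZZ, n z * F1 (d z) * b z ^ 2|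
      ≤ δ * ∑ z ∈ ZZ, n z * b z ^ 2 := fun i => by
    simpa only [← sum_mul, h.mc1, one_mul] using qx_e1 h (d1 i) (fun z _ => b z ^ 2)
      (fun z => b z ^ 2) (fun _ => sq_nonneg _) fun _ _ => (abs_sq _).le
  refine ⟨?_, ?_, ?_⟩
  · set X := ∑ z ∈ ZZ, n z * b z ^ 2 with hX
    set N := ∑ z ∈ ZZ, n z with hN
    set A := ∑ z ∈ ZZ, n z * F1 (d z) * b z ^ 2
    set W := ∑ c, mc c * V c with hW
    have X0 : 0 ≤ δ * X := mul_nonneg hδ (sum_nonneg fun z hz => mul_nonneg (hn z hz) (sq_nonneg _))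
    have N0 : 0 ≤ δ * (R * N) := mul_nonneg hδ (mul_nonneg R0 (sum_nonneg hn))
    have a1 : |∑ i, ∑ j, (∑ ω, m ω * (b (Z ω i) * b (Z ω j)) - if i = j then A else
        ∑ z ∈ ZZ, ∑ z' ∈ ZZ, n z * n z' * F2 (d z) (d z') * b z * b z')| ≤ κ * (κ * (δ * X)) := by
      refine (abs_sum_le_sum_abs _ _).trans ((sum_le_card_nsmul _ _ (κ * (δ * X)) fun i _ =>
        (abs_sum_le_sum_abs _ _).trans ((sum_le_card_nsmul _ _ (δ * X) fun j _ => ?_).trans_eq
          (by simp))).trans_eq (by simp))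
      split_ifs with e
      · subst e
        simpa only [sq] using e1 i
      · exact qx_e2 h (fun _ _ => hF _ _) (d2 i j e) (d2 j i (Ne.symm e)) b
    have a2 : |∑ i : Fin κ, (∑ ω, m ω * (2 * b (Z ω i) * V (cl ω)) -
        2 * W * ∑ z ∈ ZZ, n z * F1 (d z) * b z)| ≤ κ * (δ * X + δ * (R * N)) := by
      refine (abs_sum_le_sum_abs _ _).trans ((sum_le_card_nsmul _ _ (δ * X + δ * (R * N))
        fun i _ => ?_).trans_eq (by simp [mul_add]))
      have := qx_e1 h (d1 i) (fun z c => 2 * b z * V c) (fun z => b z ^ 2 + R)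
        (fun _ => by positivity) fun z c => abs_le.2
          ⟨by nlinarith [sq_nonneg (b z + V c), hR c], by nlinarith [sq_nonneg (b z - V c), hR c]⟩
      simp only [mul_left_comm (mc _), ← mul_sum, ← hW] at this
      simp only [mul_add, sum_add_distrib, ← sum_mul, ← hX, ← hN, mul_comm N] at this
      rwa [mul_sum, sum_congr rfl fun z _ =>
        show 2 * W * (n z * F1 (d z) * b z) = n z * F1 (d z) * (2 * b z * W) by ring]
    have a3 := qx_e1 h (d1 i0) (fun _ c => V c ^ 2) (fun _ => R) (fun _ => R0)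
      fun _ c => (abs_sq _).trans_le (hR c)
    simp only [← sum_mul, ← hN, mul_comm N] at a3
    have e2 : ∑ c, mc c * (V c - W) ^ 2 = ∑ c, mc c * V c ^ 2 - W ^ 2 := by
      rw [sum_congr rfl fun c _ => show mc c * (V c - W) ^ 2 =
        mc c * V c ^ 2 - 2 * W * (mc c * V c) + W ^ 2 * mc c by ring, sum_add_distrib,
        sum_sub_distrib, ← mul_sum, ← mul_sum, h.mc1, ← hW]
      ring
    have e3 : Qt m Z cl b V = ∑ i, ∑ j, ∑ ω, m ω * (b (Z ω i) * b (Z ω j)) +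
        ∑ i, ∑ ω, m ω * (2 * b (Z ω i) * V (cl ω)) + ∑ ω, m ω * V (cl ω) ^ 2 := by
      rw [sum_congr rfl fun i _ => sum_comm, sum_comm, sum_comm (s := univ (α := Fin κ)),
        ← sum_add_distrib, ← sum_add_distrib]
      refine sum_congr rfl fun ω _ => ?_
      simp only [← mul_sum, ← sum_mul]
      ring
    have e4 : ∀ B : ℝ, ∑ i : Fin κ, ∑ j : Fin κ, (if i = j then A else B) =
        κ * A + κ * (κ - 1) * B := fun B => by
      have : ∀ i j : Fin κ, (if i = j then A else B) = (if i = j then A - B else 0) + B :=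
        fun i j => by split_ifs <;> ring
      simp [this, sum_add_distrib]
      ring
    simp only [sum_sub_distrib, e4, sum_const, card_univ, Fintype.card_fin, nsmul_eq_mul] at a1 a2
    have k1 : (2 : ℝ) ≤ κ := by exact_mod_cast hκ
    have k2 : κ * (κ * (δ * X)) + κ * (δ * X + δ * (R * N)) + δ * (R * N) ≤
        3 * (κ : ℝ) ^ 2 * δ * (X + R * N) := by
      have p1 : (κ : ℝ) ≤ κ * κ := by nlinarith
      nlinarith [mul_le_mul_of_nonneg_right p1 X0, mul_le_mul_of_nonneg_right p1 N0,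
        mul_le_mul_of_nonneg_right k1 X0, mul_le_mul_of_nonneg_right k1 N0]
    rw [abs_le] at a1 a2 a3
    rw [e2, e3, Qn]
    exact abs_le.2 ⟨by linarith [a1.1, a2.1, a3.1], by linarith [a1.2, a2.2, a3.2]⟩
  · simpa only [mul_one, h.mc1] using qx_e1 h (d1 i0) (fun _ _ => 1) (fun _ => 1)
      (fun _ => zero_le_one) fun _ _ => abs_one.le
  · calc _ ≤ ∑ ω, m ω * (κ * ∑ i, b (Z ω i) ^ 2) := sum_le_sum fun ω _ =>
          mul_le_mul_of_nonneg_left (by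
            simpa using sq_sum_le_card_mul_sum_sq (s := univ) (f := fun i => b (Z ω i))) (h.nn ω)
      _ = κ * ∑ i, ∑ ω, m ω * b (Z ω i) ^ 2 := by
          rw [sum_comm, mul_sum]
          exact sum_congr rfl fun ω _ => by rw [← mul_sum, mul_left_comm]
      _ ≤ κ * ∑ _i : Fin κ, ∑ z ∈ ZZ, n z * (F1 (d z) + δ) * b z ^ 2 := by
          refine mul_le_mul_of_nonneg_left (sum_le_sum fun i _ => ?_) (Nat.cast_nonneg _)
          have := (abs_le.1 (e1 i)).2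
          rw [sub_le_iff_le_add', mul_sum, ← sum_add_distrib] at this
          exact this.trans_eq (sum_congr rfl fun z _ => by ring)
      _ = _ := by simp [sq, mul_assoc]

end Pool.Agent.MP_f3836a_nt.VE.F
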