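import Pool.Agent.MP_f3836a_nt.VE.FBase

/-! Part F: removal of bad tuples. -/

set_option autoImplicit false

namespace Pool.Agent.MP_f3836a_nt.VE.F

open Finset

theorem Rem_pt {n : ℕ} (p : Fin n → Prop) (x0 : ℝ) (a : Fin n → ℝ) :
    ind (∃ i, p i) * (x0 + ∑ i, a i) ^ 2
      ≤ ∑ i, (2 * x0 ^ 2 * ind (p i) + ∑ i', 2 * n * (ind (p i) * a i' ^ 2)) := by
  have h1 : (∑ i, a i) ^ 2 ≤ n * ∑ i, a i ^ 2 := by
    simpa using sq_sum_le_card_mul_sum_sq (s := (univ : Finset (Fin n))) (f := a)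
  have h2 : (x0 + ∑ i, a i) ^ 2 ≤ 2 * x0 ^ 2 + 2 * (n * ∑ i, a i ^ 2) := by
    nlinarith [sq_nonneg (x0 - ∑ i, a i)]
  refine (mul_le_mul (ind_exists_le p) h2 (sq_nonneg _)
    (sum_nonneg fun i _ => ind_nonneg _)).trans (le_of_eq ?_)
  rw [sum_mul]
  refine sum_congr rfl fun i _ => ?_
  rw [← mul_sum, ← mul_sum]
  ring

theorem rRem : RemS := by
  intro G H Cl _ _ S hS c x0 e a bd he h1 h2
  have hw : ∀ x ∈ S.St c, 0 ≤ S.w c x := fun x hx => (hS.st c x hx).2.2.1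
  have one : ∀ (i : Fin (S.kk c + 2)) (b : Multiset Pt → ℝ), (∀ x, 0 ≤ b x) →
      (S.E fun g => S.TY c 0 (S.kk c + 2) g fun s => ind (bd g (s i)) * b (s i))
        ≤ e * ∑ x ∈ S.St c, S.w c x * PT x * b x := by
    intro i b hb
    have e1 : ∀ g ∈ S.Gs, (S.TY c 0 (S.kk c + 2) g fun s => ind (bd g (s i)) * b (s i))
        = ∑ x ∈ S.St c, S.w c x * b x * (S.Y c x (S.kk c + 1) g * ind (bd g x)) := by
      intro g _
      rw [S.TC1 c 0 (S.kk c + 1) g i fun x => ind (bd g x) * b x]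
      refine sum_congr rfl fun x _ => ?_
      rw [zero_add]
      ring
    rw [S.E_congr e1, S.E_sum, mul_sum]
    refine sum_le_sum fun x hx => ?_
    rw [S.E_mul]
    refine (mul_le_mul_of_nonneg_left (h1 x hx) (mul_nonneg (hw x hx) (hb x))).trans (le_of_eq ?_)
    ring
  have two : ∀ i i' : Fin (S.kk c + 2),
      (S.E fun g => S.TY c 0 (S.kk c + 2) g fun s => ind (bd g (s i)) * a (s i') ^ 2)
        ≤ e * ∑ x ∈ S.St c, S.w c x * PT x * a x ^ 2 := by
    intro i i'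
    by_cases hi : i' = i
    · subst hi
      exact one i' (fun x => a x ^ 2) fun x => sq_nonneg _
    have e1 : ∀ g ∈ S.Gs, (S.TY c 0 (S.kk c + 2) g fun s => ind (bd g (s i)) * a (s i') ^ 2)
        = ∑ x ∈ S.St c, ∑ x' ∈ S.St c, S.w c x * S.w c x' * a x ^ 2
          * (S.Y c (x + x') (S.kk c) g * ind (bd g x')) := by
      intro g _
      rw [S.TC2 c 0 (S.kk c) g hi fun x x' => ind (bd g x') * a x ^ 2]
      refine sum_congr rfl fun x _ => sum_congr rfl fun x' _ => ?_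
      rw [zero_add]
      ring
    rw [S.E_congr e1, S.E_sum, mul_sum]
    refine sum_le_sum fun x hx => ?_
    rw [S.E_sum]
    have e2 : e * (S.w c x * PT x * a x ^ 2)
        = ∑ x' ∈ S.St c, S.w c x * S.w c x' * a x ^ 2 * (e * PT (x + x')) := by
      rw [← mul_one (e * _), ← hS.nrm c, mul_sum]
      refine sum_congr rfl fun x' _ => ?_
      rw [PT_add]
      ring
    rw [e2]
    refine sum_le_sum fun x' hx' => ?_
    rw [S.E_mul]
    refine mul_le_mul_of_nonneg_left ?_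
      (mul_nonneg (mul_nonneg (hw x hx) (hw x' hx')) (sq_nonneg _))
    by_cases hn : Nd (x + x')
    · exact h2 x hx x' hx' hn
    · have e3 : ∀ g ∈ S.Gs, S.Y c (x + x') (S.kk c) g * ind (bd g x') = 0 := by
        intro g _
        have : S.Y c (x + x') (S.kk c) g = 0 := by
          by_contra h
          exact hn (hS.Y_nd h)
        rw [this, zero_mul]
      rw [S.E_congr e3, S.E_zero]
      exact mul_nonneg he (PT_nonneg _)
  have zero : ∀ i : Fin (S.kk c + 2),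
      (S.E fun g => S.TY c 0 (S.kk c + 2) g fun s => ind (bd g (s i))) ≤ e := by
    intro i
    have := one i (fun _ => 1) fun _ => zero_le_one
    simp only [mul_one] at this
    rwa [hS.nrm c, mul_one] at this
  generalize hQ : ∑ x ∈ S.St c, S.w c x * PT x * a x ^ 2 = Q at two ⊢
  have hQ0 : 0 ≤ Q := hQ ▸ sum_nonneg fun x hx =>
    mul_nonneg (mul_nonneg (hw x hx) (PT_nonneg x)) (sq_nonneg _)
  have hk : ((S.kk c + 2 : ℕ) : ℝ) ≤ S.Λ := by
    push_cast
    exact hS.kk_le c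
  have h3 : (S.E fun g => S.TY c 0 (S.kk c + 2) g
      fun s => ind (∃ i, bd g (s i)) * (x0 + ∑ i, a (s i)) ^ 2)
      ≤ S.E fun g => ∑ i : Fin (S.kk c + 2),
        (2 * x0 ^ 2 * (S.TY c 0 (S.kk c + 2) g fun s => ind (bd g (s i)))
          + ∑ i' : Fin (S.kk c + 2), 2 * ((S.kk c + 2 : ℕ) : ℝ)
            * S.TY c 0 (S.kk c + 2) g fun s => ind (bd g (s i)) * a (s i') ^ 2) := by
    refine S.E_mono fun g _ => ?_
    refine (hS.TY_mono fun s _ => Rem_pt (fun i => bd g (s i)) x0 fun i => a (s i)).trans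
      (le_of_eq ?_)
    rw [S.TY_sum]
    refine sum_congr rfl fun i _ => ?_
    rw [S.TY_add, S.TY_mul, S.TY_sum]
    refine congrArg _ (sum_congr rfl fun i' _ => ?_)
    rw [S.TY_mul]
  refine h3.trans ?_
  rw [S.E_sum]
  have hk0 : (0 : ℝ) ≤ ((S.kk c + 2 : ℕ) : ℝ) := Nat.cast_nonneg _
  have h4 : ∀ i ∈ (univ : Finset (Fin (S.kk c + 2))), (S.E fun g =>
      2 * x0 ^ 2 * (S.TY c 0 (S.kk c + 2) g fun s => ind (bd g (s i)))
        + ∑ i' : Fin (S.kk c + 2), 2 * ((S.kk c + 2 : ℕ) : ℝ)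
          * S.TY c 0 (S.kk c + 2) g fun s => ind (bd g (s i)) * a (s i') ^ 2)
      ≤ 2 * x0 ^ 2 * e + ((S.kk c + 2 : ℕ) : ℝ) * (2 * ((S.kk c + 2 : ℕ) : ℝ) * (e * Q)) := by
    intro i _
    rw [S.E_add, S.E_mul, S.E_sum]
    refine add_le_add (mul_le_mul_of_nonneg_left (zero i) (by positivity)) ?_
    refine (sum_le_card_nsmul _ _ (2 * ((S.kk c + 2 : ℕ) : ℝ) * (e * Q)) fun i' _ => ?_).trans
      (le_of_eq ?_)
    · rw [S.E_mul]
      exact mul_le_mul_of_nonneg_left (two i i') (by positivity)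
    · rw [card_univ, Fintype.card_fin, nsmul_eq_mul]
  refine (sum_le_card_nsmul _ _ _ h4).trans ?_
  rw [card_univ, Fintype.card_fin, nsmul_eq_mul]
  generalize ((S.kk c + 2 : ℕ) : ℝ) = κ at hk hk0
  have h5 : κ ^ 3 ≤ S.Λ ^ 3 := pow_le_pow_left₀ hk0 hk 3
  have h6 : κ ≤ S.Λ ^ 3 := hk.trans (le_self_pow₀ hS.one_le (by norm_num))
  have h7 := mul_le_mul_of_nonneg_right h5 (mul_nonneg he hQ0)
  have h8 := mul_le_mul_of_nonneg_right h6 (mul_nonneg he (sq_nonneg x0))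
  nlinarith

end Pool.Agent.MP_f3836a_nt.VE.F
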