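import Pool.Agent.MP_f3836a_nt.VE.SpecE2

/-! Links in the concrete system. -/

set_option autoImplicit false

namespace Pool.Agent.MP_f3836a_nt.VE

open Finset

namespace SLk

theorem sum_sub (H : Finset ℤ) (p : ℤ → Prop) [DecidablePred p] (g : ℤ → ℝ) :
    ∑ h : H, ind (p h) * g h = ∑ a ∈ H.filter p, g a := by
  rw [sum_coe_sort H fun a => ind (p a) * g a, sum_filter]
  exact sum_congr rfl fun a _ => by simp [ind]

theorem card_sub (H : Finset ℤ) (p : ℤ → Prop) [DecidablePred p] :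
    ∑ h : H, ind (p h) = (H.filter p).card := by
  simpa using sum_sub H p 1

end SLk

open SLk Classical in
theorem sLk : SLk := by
  intro hS hL hC D R
  obtain ⟨y2, -, l1, -⟩ := hS _ _ _ R.sc
  obtain ⟨n1, -, -, -, -, n2, n3, -⟩ := R.num
  have W0 := R.gok.pos.1
  have L0 : 0 < Lc D.Γ.W D.k0 := lt_of_lt_of_le (by positivity) l1
  have h1 := R.hh.2
  have h0 : (0 : ℝ) < D.HH.card := pos_of_mul_pos_right (L0.trans_le h1) (by linarith)
  have h2 : (D.HH.card : ℝ) ≤ Lc D.Γ.W D.k0 := by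
    rw [← (hC.1 D.t0 _ _ W0 R.sc.dvd).1]
    exact_mod_cast card_le_card R.hh.1
  have p0 : ∀ T, 0 ≤ PT T := fun T => by unfold PT; positivity
  have sm : ∀ T, D.sys.Sm 8 T → (∀ z ∈ T, z.p.Prime ∧ ¬z.p ∣ D.Γ.W ∧ D.Y0 ≤ z.p) ∧
      (nT T : ℝ) ≤ D.Y ^ 16 := fun T h => by
    refine ⟨fun z hz => ?_, h.2.1.trans_eq (by show (D.Y ^ 2) ^ 8 = _; ring)⟩
    obtain ⟨a, b, -⟩ := mem_Pts.1 (h.2.2 z hz)
    refine ⟨a.1, fun k => ?_, b⟩
    have : (z.p : ℝ) ≤ D.Γ.W := by exact_mod_cast Nat.le_of_dvd W0 k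
    linarith [R.win.1]
  refine ⟨fun T hT h => ?_, fun c Ta j T ha hT h hz => ?_, fun T hT => ?_⟩
  · obtain ⟨a, b⟩ := sm T h
    have e := (hL D.t0 ((D.k0 : ℤ) ^ 2) _ _ _ T R.sc hT (fun z k => ⟨(a z k).1, (a z k).2.1⟩) b).2
    have e' : ((lk D.HH ((D.k0 : ℤ) ^ 2) T).card : ℝ) ≤ _ :=
      Nat.cast_le.2 (card_le_card (filter_subset_filter _ R.hh.1))
    show 1 / (D.HH.card : ℝ) * ∑ x : D.HH, ind (∀ z ∈ T, On x ((D.k0 : ℤ) ^ 2) z) ≤ D.Λ * PT T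
    rw [card_sub D.HH fun x => ∀ z ∈ T, On x ((D.k0 : ℤ) ^ 2) z, one_div, inv_mul_le_iff₀ h0]
    refine (e'.trans e).trans ?_
    nlinarith [mul_le_mul_of_nonneg_right h1 (p0 T), mul_nonneg (mul_nonneg h0.le (p0 T))
      (sub_nonneg.2 n3)]
  · obtain ⟨a, b⟩ := sm T h
    obtain ⟨c1, c2, c3, -⟩ := R.fam.cu c
    have e := R.eta (D.Φ.cu c).a ((D.Φ.cu c).k ^ 2) T (D.HH.filter fun x =>
      (∀ z ∈ T, On x ((D.k0 : ℤ) ^ 2) z) ∧ some x ≠ c.map Subtype.val)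
      (fun l k d => c1.rad l k ((Nat.prime_iff_prime_int.1 k).dvd_of_dvd_pow d)) hT h.1 a b
      (fun x k => mem_filter.2 ⟨R.hh.1 (mem_filter.1 k).1, (mem_filter.1 k).2.1⟩)
      (fun x k => ?_) (D.Φ.LL c) (R.llc _) (R.fam.ll c) fun z k d =>
        (hz z k).resolve_left fun k' => ((R.fam.ad c Ta j ha).1 z k').2 d
    · rw [← sum_sub] at e
      have e' : ∑ x : D.HH, ind (D.sys.Lk T x ∧ some x ≠ c) *
          ((1 + D.sys.et c (some x)) ^ 3 - 1) ≤ _ := (sum_congr rfl fun x _ => ?_).trans_le e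
      · show 1 / (D.HH.card : ℝ) * _ ≤ D.θ ^ 2 * PT T
        rw [one_div, inv_mul_le_iff₀ h0]
        refine e'.trans ?_
        rw [div_mul_eq_mul_div, div_le_iff₀ (by linarith)]
        nlinarith [mul_le_mul_of_nonneg_right h1 (mul_nonneg (p0 T) (sq_nonneg D.θ))]
      · congr 2
        · exact propext (and_congr Iff.rfl
            (Option.map_injective Subtype.val_injective).ne_iff.symm)
        · exact congrArg (· ^ 3) (eta_eq D.Φ D.Γ D.Kx c (some x))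
    · obtain ⟨k1, -, k2⟩ := mem_filter.1 k
      obtain ⟨-, d2, d3, -⟩ := R.fam.cu (some ⟨x, k1⟩)
      refine ⟨R.fam.res c (some ⟨x, k1⟩) fun k => k2 (k ▸ rfl), ?_⟩
      change |(x : ℝ)| ≤ _ at d2
      change ((D.k0 : ℤ) : ℝ) ^ 2 ≤ _ at d3
      have q : (0 : ℝ) ≤ D.Y ^ 21 := by positivity
      push_cast at d3 ⊢
      refine (abs_sub _ _).trans ?_
      rw [abs_mul, abs_mul, abs_sq, abs_sq]
      have := mul_le_mul c2 d3 (sq_nonneg _) q
      have := mul_le_mul d2 c3 (sq_nonneg _) q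
      have : D.Y ^ 42 * 2 ≤ D.Y ^ 42 * D.Y ^ 3 :=
        mul_le_mul_of_nonneg_left (by nlinarith [sq_nonneg D.Y]) (by positivity)
      nlinarith
  · have e := (R.tt T hT).2.2.2.2.2
    show PT T ≤ D.Λ * (1 / (D.HH.card : ℝ) * ∑ x : D.HH, ind (D.adm x T))
    rw [card_sub D.HH fun x => D.adm x T, one_div, mul_left_comm, le_inv_mul_iff₀ h0]
    exact (mul_le_mul_of_nonneg_right h2 (p0 T)).trans e

end Pool.Agent.MP_f3836a_nt.VE
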