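import Pool.Agent.MP_f3836a_nt.VE.SpecE2

/-! Lines, fibres, zeros and cell masses of the concrete system. -/

set_option autoImplicit false

namespace Pool.Agent.MP_f3836a_nt.VE

open Polynomial Finset
open scoped Classical

namespace SLn

theorem ind_sum (S : Finset Pt) (P : Pt → Prop) [DecidablePred P] (g : Pt → ℝ) :
    ∑ z ∈ S, ind (P z) * g z = ∑ z ∈ S.filter P, g z := by
  rw [sum_filter]
  refine sum_congr rfl fun z _ => ?_
  unfold ind
  by_cases h : P z <;> simp [h]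

theorem ind_div (S : Finset Pt) (P : Pt → Prop) [DecidablePred P] :
    ∑ z ∈ S, ind (P z) / (z.p : ℝ) = ∑ z ∈ S.filter P, 1 / (z.p : ℝ) := by
  rw [← ind_sum]
  exact sum_congr rfl fun z _ => by ring

theorem fib_sum (S : Finset Pt) (n : ℕ) (h : ∀ p, (S.filter fun z => z.p = p).card ≤ n) :
    ∑ z ∈ S, 1 / (z.p : ℝ) ≤ n * ∑ p ∈ S.image Pt.p, 1 / (p : ℝ) := by
  rw [sum_comp (fun p : ℕ => 1 / (p : ℝ)) Pt.p, mul_sum]
  refine sum_le_sum fun p _ => ?_
  rw [nsmul_eq_mul]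
  exact mul_le_mul_of_nonneg_right (by exact_mod_cast h p) (by positivity)

theorem win_sum {D : Dat} (R : D.Raw) (S : Finset Pt) (hS : S ⊆ D.P1) (n : ℕ)
    (h : ∀ p, (S.filter fun z => z.p = p).card ≤ n) : ∑ z ∈ S, 1 / (z.p : ℝ) ≤ 2 * n := by
  have h1 := R.mer (S.image Pt.p) fun p hp => by
    obtain ⟨z, hz, rfl⟩ := mem_image.1 hp
    have := mem_Pts.1 (R.p1.1 (hS hz))
    exact ⟨this.1.1, this.2⟩
  have h2 := mul_le_mul_of_nonneg_left h1 (Nat.cast_nonneg (α := ℝ) n)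
  linarith [fib_sum S n h]

end SLn

open SLn in
theorem sLn : SLn := by
  intro api scs pcs zer D R
  obtain ⟨hY, -, hL, -, -, hp, -⟩ := scs _ _ _ R.sc
  obtain ⟨n1, -, -, -, n5, -, -, n8⟩ := R.num
  have pt : ∀ z ∈ D.P1, IsPt D.Γ.f z ∧ D.Y ≤ z.p := fun z hz =>
    ⟨(mem_Pts.1 (R.p1.1 hz)).1, (mem_Pts.1 (R.p1.1 hz)).2.1⟩
  refine ⟨fun c => ?_, fun p => ?_, fun g _ => ?_, ⟨fun c => ?_, ?_⟩, ?_⟩
  · change ∑ z ∈ D.P1, ind ((D.Φ.cu c).on z) / (z.p : ℝ) ≤ D.Λ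
    rw [ind_div]
    have h := (pcs D.Γ.f (D.P1.filter (D.Φ.cu c).on) fun z hz => (pt z (mem_filter.1 hz).1).1).2.2
      (D.Φ.cu c).a ((D.Φ.cu c).k ^ 2) fun z hz => ⟨(mem_filter.1 hz).2, fun hd => by
        obtain ⟨h1, h2⟩ := pt z (mem_filter.1 hz).1
        exact (hp _ h1.1 h2).1 ((R.fam.cu c).1.rad _ h1.1
          ((Nat.prime_iff_prime_int.1 h1.1).dvd_of_dvd_pow hd))⟩
    have h2 := win_sum R _ (filter_subset _ _) 2 h.1
    push_cast at h2
    linarith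
  · change ∑ z ∈ D.P1, ind (z.p = p) / (z.p : ℝ) ≤ D.Λ
    rw [ind_div, sum_congr rfl (g := fun _ => 1 / (p : ℝ)) fun z hz => by rw [(mem_filter.1 hz).2],
      sum_const, nsmul_eq_mul]
    have h : ((D.P1.filter fun z => z.p = p).card : ℝ) ≤ 2 * p := by
      exact_mod_cast (pcs D.Γ.f D.P1 fun z hz => (pt z hz).1).1 p
    have h2 : (2 * p : ℝ) * (1 / p) ≤ 2 := by
      rw [mul_assoc, mul_one_div]; linarith [div_self_le_one (p : ℝ)]
    exact (mul_le_mul_of_nonneg_right h (by positivity)).trans (h2.trans (by linarith))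
  · change ∑ z ∈ D.P1, ind (D.Γ.zr g z) / (z.p : ℝ) ≤ D.Λ
    rw [ind_div]
    have h2 := win_sum R _ (filter_subset (D.Γ.zr g) D.P1) (4 * D.Γ.m) fun p =>
      zer D.Γ.f _ _ D.Γ.m p _ R.gok.deg (le_trans (by norm_num) R.gok.five)
        (api D.Γ _ R.gok (R.fam.cu none).1 g).1 fun z hz =>
        ⟨(pt z (mem_filter.1 (mem_filter.1 hz).1).1).1, (mem_filter.1 hz).2,
          (mem_filter.1 (mem_filter.1 hz).1).2⟩
    push_cast at h2
    linarith
  · change (0 : ℝ) ≤ ((D.HH.filter fun a => D.cell a = c).card : ℝ) / D.HH.card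
    positivity
  · change ∑ c, ((D.HH.filter fun a => D.cell a = c).card : ℝ) / D.HH.card = 1
    have h0 : (D.HH.card : ℝ) ≠ 0 := fun h => by
      have h1 := R.hh.2
      rw [h, mul_zero] at h1
      have : (0 : ℝ) < D.Y ^ 19 := by positivity
      linarith
    rw [← sum_div, div_eq_one_iff_eq h0]
    exact_mod_cast (card_eq_sum_card_fiberwise (f := D.cell) (s := D.HH) (t := univ)
      fun _ _ => mem_coe.2 (mem_univ _)).symm
  · have hK : 0 < D.K := Nat.pos_of_ne_zero fun h => by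
      have h1 := R.cel.2.1
      rw [h, Nat.cast_zero, mul_zero] at h1
      linarith
    refine le_trans (le_of_eq (sum_congr rfl fun i _ => ?_)) R.r0
    rw [← ind_sum]
    refine congrArg (fun x : ℝ => |x - 1 / (D.K : ℝ)|) (sum_congr rfl fun z _ => ?_)
    rw [show cz D.Y (D.K * D.r) D.K z = D.sys.d z from Nat.mul_div_mul_left _ _ hK, mul_div_assoc]
    rfl

end Pool.Agent.MP_f3836a_nt.VE
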