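import Pool.Agent.MP_f3836a_nt.VE.SpecE2

/-! The one point regularity of the concrete system. -/

set_option autoImplicit false

namespace Pool.Agent.MP_f3836a_nt.VE

open Finset

namespace SR1

theorem mem_sing {S : Finset Pt} {z : Pt} : ({z} : Multiset Pt) ∈ sing S ↔ z ∈ S := by
  simp [sing]

open Classical in
theorem wz_eq (D : Dat) (h : D.HH) {z : Pt} (hz : z ∈ D.P1) :
    D.sys.wz h z = if On h ((D.k0 : ℤ) ^ 2) z ∧ D.G h z then lg z / Zm (D.Z h) else 0 := by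
  have e1 : D.sys.St (some h) = sing (D.Z h) := rfl
  have e2 : D.sys.w (some h) {z} = lg z / Zm (D.Z h) := by
    show Real.log (nT {z}) / _ = _
    simp [nT, lg]
  have e3 : z ∈ D.Z h ↔ On h ((D.k0 : ℤ) ^ 2) z ∧ D.G h z := by simp [Dat.Z, hz]
  rw [F.Sys.wz, e1, e2]
  simp only [mem_sing, e3]

theorem quo {l Z e x : ℝ} (hl : 0 < l) (he : 0 ≤ e) (he' : e ≤ 1 / 80) (hx : 0 ≤ x)
    (h : |Z - l| ≤ 3 * e * l) : |x * l / Z - x| ≤ 6 * e * x := by
  have h1 := (abs_le.1 h).1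
  have hZ : l / 2 ≤ Z := by nlinarith
  have hZ0 : 0 < Z := by linarith
  rw [show x * l / Z - x = x * ((l - Z) / Z) by field_simp, abs_mul, abs_of_nonneg hx, mul_comm,
    abs_div, abs_of_pos hZ0, abs_sub_comm]
  gcongr
  rw [div_le_iff₀ hZ0]
  nlinarith

theorem cel {ι : Type} (A : Finset ι) (g : ι → ℝ) {σ n p e B : ℝ} (hσ : 0 ≤ σ) (hn : 0 ≤ n)
    (h : ∀ a ∈ A, |g a - n * p| ≤ 6 * e * (n * p)) :
    |σ * ∑ a ∈ A, g a - n * (B * σ)| ≤ σ * n * (6 * e * (p * A.card) + |p * A.card - B|) := by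
  have h1 : |∑ a ∈ A, (g a - n * p)| ≤ A.card * (6 * e * (n * p)) := by
    rw [← nsmul_eq_mul]
    exact (abs_sum_le_sum_abs _ _).trans (sum_le_card_nsmul _ _ _ h)
  rw [show σ * ∑ a ∈ A, g a - n * (B * σ) = σ * (∑ a ∈ A, (g a - n * p) + n * (p * A.card - B)) by
    rw [sum_sub_distrib, sum_const, nsmul_eq_mul]; ring, abs_mul, abs_of_nonneg hσ, mul_assoc]
  gcongr
  refine (abs_add_le _ _).trans ?_
  rw [abs_mul, abs_of_nonneg hn]
  linarith

end SR1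

open SR1 in
theorem sR1 : SR1 := by
  classical
  intro hSc hLk hCel D R z hz
  have hz : z ∈ D.P1 := hz
  obtain ⟨hY, -, hL, -, -, hpr, -, -, hn0, -⟩ := hSc _ _ _ R.sc
  have hzP := R.p1.1 hz
  obtain ⟨hpt, hlo, hhi⟩ := mem_Pts.1 hzP
  have hn := (hn0 _ z hzP).1
  have hp0 : (0 : ℝ) < z.p := by linarith
  have hl : 0 < Real.log D.Y := Real.log_pos (by linarith)
  have hL0 : 0 < Lc D.Γ.W D.k0 := lt_of_lt_of_le (by positivity) hL
  obtain ⟨-, -, hθ, hθ1, -, hΛ, -, -⟩ := R.num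
  obtain ⟨he, he1⟩ := R.ed
  have hJ : (0 : ℝ) ≤ D.J1 := Nat.cast_nonneg _
  have he2 : D.ed ≤ 1 / 80 := by
    have : 1 * 80 * D.ed ≤ D.Λ1 * (2 * (D.J1 + 1) + 80) * D.ed := by gcongr; linarith
    nlinarith
  have hH : (0 : ℝ) < D.HH.card := by
    have := R.hh.2
    by_contra hc
    nlinarith [Nat.cast_nonneg (α := ℝ) D.HH.card]
  have hce : ∀ a ∈ D.HH, ∀ c : Fin (D.J1 + 1),
      D.cell a = c ↔ cellOf D.t0 D.k0 (D.J1 + 1) a = c := fun a ha c => by
    have := ((hCel D.t0 _ _ (D.J1 + 1) (by linarith [R.sc.two]) R.sc.dvd (by omega)).2 a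
      (R.hh.1 ha)).1
    rw [Fin.ext_iff]
    show min _ _ = _ ↔ _
    rw [min_eq_left (by omega)]
  set b : ℤ := (D.k0 : ℤ) ^ 2 with hb
  set A : ℕ → Finset ℤ := fun c => D.HH.filter fun a =>
    cellOf D.t0 D.k0 (D.J1 + 1) a = c ∧ On a b z ∧ D.G a z with hA
  set B : ℕ → ℝ := fun c => (D.HH.filter fun a => cellOf D.t0 D.k0 (D.J1 + 1) a = c).card with hB
  set n := n0 D.Y z with hnd
  have h13 : ∑ c ∈ range (D.J1 + 1), |z.p * ((A c).card : ℝ) - B c|
      ≤ ((D.J1 + 1 : ℕ) + 3) * D.ed * Lc D.Γ.W D.k0 := by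
    convert R.del.r13 z hz
  have hlk : ∑ c ∈ range (D.J1 + 1), z.p * ((A c).card : ℝ) ≤ 2 * Lc D.Γ.W D.k0 := by
    have h1 := (hLk D.t0 b _ _ D.Y {z} R.sc (by simp [Nd])
      (by simpa using ⟨hpt.1, (hpr _ hpt.1 hlo).1⟩) (by
        simp only [nT, Multiset.map_singleton, Multiset.prod_singleton]
        exact hhi.le.trans (pow_le_pow_right₀ (by linarith) (by norm_num)))).2
    have h2 : ∑ c ∈ range (D.J1 + 1), (A c).card ≤ (lk (HH0 D.t0 D.Γ.W D.k0) b {z}).card := by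
      rw [← card_biUnion]
      · refine card_le_card fun a ha => ?_
        obtain ⟨c, -, hc⟩ := mem_biUnion.1 ha
        obtain ⟨h3, -, h4, -⟩ := mem_filter.1 hc
        simpa [lk] using ⟨R.hh.1 h3, h4⟩
      · intro c _ c' _ hne
        refine disjoint_left.2 fun a h3 h4 => hne ?_
        rw [← (mem_filter.1 h3).2.1, ← (mem_filter.1 h4).2.1]
    have h3 : ((∑ c ∈ range (D.J1 + 1), (A c).card : ℕ) : ℝ) ≤ _ := (Nat.cast_le.2 h2).trans h1
    rw [← mul_sum, ← Nat.cast_sum]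
    refine (mul_le_mul_of_nonneg_left h3 hp0.le).trans (le_of_eq ?_)
    simp only [PT, nT, Multiset.map_singleton, Multiset.prod_singleton]
    field_simp
  have key : ∀ c : Fin (D.J1 + 1),
      |D.sys.σ * ∑ h : D.HH, ind (D.sys.cell h = c) * D.sys.wz h z - D.sys.n0 z * D.sys.mc c|
      ≤ 1 / D.HH.card * n * (6 * D.ed * (z.p * (A c).card) + |z.p * ((A c).card : ℝ) - B c|) := by
    intro c
    have e1 : ∑ h : D.HH, ind (D.sys.cell h = c) * D.sys.wz h z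
        = ∑ a ∈ A c, lg z / Zm (D.Z a) := by
      rw [hA, sum_filter, ← sum_coe_sort D.HH]
      refine sum_congr rfl fun h _ => ?_
      have : D.sys.cell h = c ↔ _ := hce h h.2 c
      rw [wz_eq D h hz, ind]
      simp only [this]
      by_cases h1 : cellOf D.t0 D.k0 (D.J1 + 1) h = c <;>
        by_cases h2 : On h b z ∧ D.G h z <;> simp [h1, h2, ← hb]
    have e2 : D.sys.mc c = B c * (1 / D.HH.card) := by
      rw [mul_one_div, hB]
      show ((D.HH.filter fun a => D.cell a = c).card : ℝ) / D.HH.card = _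
      rw [filter_congr fun a ha => hce a ha c]
    rw [e1, e2]
    refine cel _ _ (one_div_pos.2 hH).le hn.le fun a ha => ?_
    have e3 : lg z = n * z.p * Real.log D.Y := by rw [hnd, n0]; field_simp
    rw [e3]
    exact quo hl he he2 (by positivity) (R.zm a (mem_filter.1 ha).1)
  refine (sum_le_sum fun c _ => key c).trans ?_
  rw [Fin.sum_univ_eq_sum_range (fun c => 1 / (D.HH.card : ℝ) * n *
    (6 * D.ed * (z.p * (A c).card) + |z.p * ((A c).card : ℝ) - B c|)), ← mul_sum, sum_add_distrib,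
    ← mul_sum]
  show _ ≤ D.θ ^ 2 * n
  have h1 : 1 / (D.HH.card : ℝ) * Lc D.Γ.W D.k0 ≤ D.Λ1 := by
    rw [one_div_mul_eq_div, div_le_iff₀ hH]; exact R.hh.2
  calc _ ≤ 1 / (D.HH.card : ℝ) * n * (6 * D.ed * (2 * Lc D.Γ.W D.k0) +
        ((D.J1 + 1 : ℕ) + 3) * D.ed * Lc D.Γ.W D.k0) := by gcongr
    _ = 1 / (D.HH.card : ℝ) * Lc D.Γ.W D.k0 * (D.J1 + 16) * D.ed * n := by push_cast; ring
    _ ≤ D.Λ1 * (2 * (D.J1 + 1) + 80) * D.ed * n := by
        have : (D.J1 : ℝ) + 16 ≤ 2 * (D.J1 + 1) + 80 := by linarith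
        gcongr
    _ ≤ _ := by gcongr

end Pool.Agent.MP_f3836a_nt.VE
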