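import Pool.Agent.MP_f3836a_nt.VE.SpecE2

/-! Regularity of pairs of points in the concrete system. -/

set_option autoImplicit false

namespace Pool.Agent.MP_f3836a_nt.VE

open Finset

namespace SR2

lemma kap {l Z e : ℝ} (hl : 0 < l) (he : 0 ≤ e) (he' : 80 * e ≤ 1) (h : |Z - l| ≤ 3 * e * l) :
    |(l / Z) ^ 2 - 1| ≤ 18 * e := by
  obtain ⟨h1, h2⟩ := abs_le.1 h
  have hZ : 0 < Z := by nlinarith
  obtain ⟨y, hy⟩ : ∃ y, y = l / Z := ⟨_, rfl⟩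
  have hy0 : 0 < y := hy ▸ div_pos hl hZ
  have hl' : l = y * Z := by rw [hy]; field_simp
  rw [← hy]
  have a1 : y - 1 ≤ 3 * e * y := le_of_mul_le_mul_right (by rw [hl'] at h1; linarith) hZ
  have a2 : 1 - y ≤ 3 * e * y := le_of_mul_le_mul_right (by rw [hl'] at h2; linarith) hZ
  have a3 : y ≤ 2 := by nlinarith
  have a4 : e * y ≤ e * 2 := mul_le_mul_of_nonneg_left a3 he
  have a5 : |y - 1| ≤ 6 * e := abs_le.2 ⟨by linarith, by linarith⟩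
  rw [show y ^ 2 - 1 = (y - 1) * (y + 1) by ring, abs_mul, abs_of_pos (by linarith : 0 < y + 1)]
  calc _ ≤ 6 * e * 3 := mul_le_mul a5 (by linarith) (by linarith) (by linarith)
    _ = _ := by ring

open Classical in
lemma wz_eq (D : Dat) (h : D.HH) {z : Pt} (hz : z ∈ D.P1) : D.sys.wz h z =
    if On h ((D.k0 : ℤ) ^ 2) z ∧ D.G h z then Real.log z.p / Zm (D.Z h) else 0 := by
  have e : ({z} : Multiset Pt) ∈ D.sys.St (some h) ↔ On h ((D.k0 : ℤ) ^ 2) z ∧ D.G h z := by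
    change ({z} : Multiset Pt) ∈ sing (D.Z h) ↔ _
    simp [sing, Dat.Z, hz]
  have e' : D.sys.w (some h) {z} = Real.log z.p / Zm (D.Z h) := by
    change w1 (D.Z h) {z} = _
    simp [w1, nT]
  unfold F.Sys.wz
  by_cases hc : On h ((D.k0 : ℤ) ^ 2) z ∧ D.G h z
  · rw [if_pos (e.2 hc), if_pos hc, e']
  · rw [if_neg fun h => hc (e.1 h), if_neg hc]

lemma est (S : Finset ℤ) (κ : ℤ → ℝ) {N q n δ B : ℝ} (hN : 0 < N) (hq : 0 ≤ q) (hn : 0 ≤ n)
    (hδ : 0 ≤ δ) (hκ : ∀ a ∈ S, |κ a - 1| ≤ δ) (hB : q * S.card ≤ B) :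
    |1 / N * ∑ a ∈ S, q * n * κ a - n| ≤ 1 / N * n * (δ * B + |q * S.card - N|) := by
  have e : 1 / N * ∑ a ∈ S, q * n * κ a - n =
      1 / N * n * (q * ∑ a ∈ S, (κ a - 1) + (q * S.card - N)) := by
    rw [← mul_sum, sum_sub_distrib, sum_const, nsmul_eq_mul]
    field_simp
    ring
  have h1 : |∑ a ∈ S, (κ a - 1)| ≤ S.card * δ :=
    (abs_sum_le_sum_abs _ _).trans ((sum_le_card_nsmul _ _ _ hκ).trans (by simp))
  rw [e, abs_mul, abs_of_nonneg (by positivity : 0 ≤ 1 / N * n)]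
  refine mul_le_mul_of_nonneg_left ((abs_add_le _ _).trans (add_le_add_left ?_ _)) (by positivity)
  rw [abs_mul, abs_of_nonneg hq]
  calc _ ≤ q * (S.card * δ) := mul_le_mul_of_nonneg_left h1 hq
    _ = δ * (q * S.card) := by ring
    _ ≤ _ := mul_le_mul_of_nonneg_left hB hδ

end SR2

open SR2 in
theorem sR2 : SR2 := by
  intro hS hL D hD z hz
  classical
  obtain ⟨hY, -, hL1, -, -, hpW, -, -, hn0, -⟩ := hS _ _ _ hD.sc
  obtain ⟨-, -, hθ, hθ1, -, hΛ1, -⟩ := hD.num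
  obtain ⟨he, he'⟩ := hD.ed
  have hl : 0 < Real.log D.Y := Real.log_pos (by linarith)
  have hL0 : 0 < Lc D.Γ.W D.k0 := lt_of_lt_of_le (by positivity) hL1
  have hN : (0 : ℝ) < D.HH.card :=
    (mul_pos_iff_of_pos_left (by linarith)).1 (hL0.trans_le hD.hh.2)
  have h80 : 80 * D.ed ≤ 1 := by
    have h1 : 1 * 80 * D.ed ≤ D.Λ1 * (2 * (D.J1 + 1) + 80) * D.ed := by
      gcongr
      have : (0 : ℝ) ≤ D.J1 := Nat.cast_nonneg _
      linarith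
    nlinarith
  have hP : ∀ z ∈ D.P1, z.p.Prime ∧ ¬z.p ∣ D.Γ.W ∧ (z.p : ℝ) ≤ D.Y ^ 2 ∧ 0 < n0 D.Y z ∧
      Real.log z.p = z.p * n0 D.Y z * Real.log D.Y := by
    intro z hz
    have h0 := hD.p1.1 hz
    obtain ⟨h1, h2, h3⟩ := mem_Pts.1 h0
    refine ⟨h1.1, (hpW _ h1.1 h2).1, h3.le, (hn0 _ z h0).1, ?_⟩
    have : (z.p : ℝ) ≠ 0 := by exact_mod_cast h1.1.ne_zero
    unfold n0 lg
    field_simp
  obtain ⟨a1, a2, a3, a4, a5⟩ := hP z hz
  have key : ∀ z' ∈ D.P1.filter fun z' => z'.p ≠ z.p,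
      1 / (z'.p : ℝ) * |D.sys.σ * ∑ h, D.sys.wz h z * D.sys.wz h z' - D.sys.n0 z * D.sys.n0 z'| ≤
      1 / D.HH.card * n0 D.Y z * (36 * D.ed * Lc D.Γ.W D.k0 * sg D.Y z' + n0 D.Y z' / z'.p *
        |z.p * z'.p * ((D.HH.filter fun a => (On a ((D.k0 : ℤ) ^ 2) z ∧ D.G a z) ∧
          On a ((D.k0 : ℤ) ^ 2) z' ∧ D.G a z').card : ℝ) - D.HH.card|) := by
    intro z' hz'
    obtain ⟨hz', hne⟩ := mem_filter.1 hz'
    obtain ⟨b1, b2, b3, b4, b5⟩ := hP z' hz'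
    set S := D.HH.filter fun a => (On a ((D.k0 : ℤ) ^ 2) z ∧ D.G a z) ∧
      On a ((D.k0 : ℤ) ^ 2) z' ∧ D.G a z' with hSd
    have e1 : ∑ h, D.sys.wz h z * D.sys.wz h z' = ∑ a ∈ S, (z.p * z'.p : ℝ) *
        (n0 D.Y z * n0 D.Y z') * (Real.log D.Y / Zm (D.Z a)) ^ 2 := by
      rw [hSd, sum_filter, ← sum_coe_sort D.HH]
      refine sum_congr rfl fun h _ => ?_
      rw [wz_eq D h hz, wz_eq D h hz', ite_zero_mul_ite_zero, a5, b5]
      split_ifs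
      · ring
      · rfl
    have p1 : (0 : ℝ) < z.p := by exact_mod_cast a1.pos
    have p2 : (0 : ℝ) < z'.p := by exact_mod_cast b1.pos
    have e2 : (z.p * z'.p : ℝ) * S.card ≤ 2 * Lc D.Γ.W D.k0 := by
      have h1 := (hL D.t0 ((D.k0 : ℤ) ^ 2) _ _ _ (z' ::ₘ {z}) hD.sc (by simpa [Nd] using hne)
        (by simp [a1, a2, b1, b2]) (by
          simp only [nT, Multiset.map_cons, Multiset.map_singleton, Multiset.prod_cons,
            Multiset.prod_singleton, Nat.cast_mul]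
          calc _ ≤ D.Y ^ 2 * D.Y ^ 2 := mul_le_mul b3 a3 p1.le (by positivity)
            _ = D.Y ^ 4 := by ring
            _ ≤ _ := pow_le_pow_right₀ (by linarith) (by norm_num))).2
      have h2 : S ⊆ lk (HH0 D.t0 D.Γ.W D.k0) ((D.k0 : ℤ) ^ 2) (z' ::ₘ {z}) := by
        intro a ha
        obtain ⟨c1, c2, c3⟩ := mem_filter.1 ha
        unfold lk
        exact mem_filter.2 ⟨hD.hh.1 c1, by simp [c2.1, c3.1]⟩
      have h3 : (S.card : ℝ) ≤ 2 * (Lc D.Γ.W D.k0 * (1 / (z'.p * z.p))) := by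
        refine le_trans (by exact_mod_cast card_le_card h2) (h1.trans (le_of_eq ?_))
        simp [PT, nT]
      refine (mul_le_mul_of_nonneg_left h3 (by positivity)).trans (le_of_eq ?_)
      field_simp
    have e3 := est S (fun a => (Real.log D.Y / Zm (D.Z a)) ^ 2) hN (by positivity)
      (mul_pos a4 b4).le (by positivity : 0 ≤ 18 * D.ed)
      (fun a ha => kap hl he h80 (hD.zm a (mem_filter.1 ha).1)) e2
    rw [e1]
    refine (mul_le_mul_of_nonneg_left e3 (by positivity)).trans (le_of_eq ?_)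
    unfold sg
    ring
  have e4 : ∑ z' ∈ D.sys.P1, ind (z'.p ≠ z.p) / z'.p *
      |D.sys.σ * ∑ h, D.sys.wz h z * D.sys.wz h z' - D.sys.n0 z * D.sys.n0 z'| =
      ∑ z' ∈ D.P1.filter fun z' => z'.p ≠ z.p, 1 / (z'.p : ℝ) *
      |D.sys.σ * ∑ h, D.sys.wz h z * D.sys.wz h z' - D.sys.n0 z * D.sys.n0 z'| := by
    rw [sum_filter]
    refine sum_congr rfl fun z' _ => ?_
    by_cases h : z'.p ≠ z.p
    · rw [if_pos h, ind, if_pos h]
    · rw [if_neg h, ind, if_neg h, zero_div, zero_mul]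
  have e5 := hD.del.r2 z hz
  have e6 : ∑ z' ∈ D.P1.filter fun z' => z'.p ≠ z.p, sg D.Y z' ≤ 2 :=
    (sum_le_sum_of_subset_of_nonneg (filter_subset _ _) fun z' hz' _ =>
      (hn0 _ z' (hD.p1.1 hz')).2.2.2.1.le).trans hD.p1.2.2
  rw [e4]
  refine (sum_le_sum key).trans ?_
  rw [← mul_sum, sum_add_distrib, ← mul_sum]
  push_cast at e5
  have e7 : 1 / (D.HH.card : ℝ) * Lc D.Γ.W D.k0 ≤ D.Λ1 := by
    rw [one_div_mul_eq_div, div_le_iff₀ hN]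
    exact hD.hh.2
  calc _ ≤ 1 / D.HH.card * n0 D.Y z * (36 * D.ed * Lc D.Γ.W D.k0 * 2 +
        (2 * (D.J1 + 1) + 8) * D.ed * Lc D.Γ.W D.k0) := by gcongr
    _ = 1 / D.HH.card * Lc D.Γ.W D.k0 * (2 * (D.J1 + 1) + 80) * D.ed * n0 D.Y z := by ring
    _ ≤ D.Λ1 * (2 * (D.J1 + 1) + 80) * D.ed * n0 D.Y z := by gcongr
    _ ≤ D.θ ^ 2 * n0 D.Y z := by gcongr

end Pool.Agent.MP_f3836a_nt.VE
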