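import Pool.Agent.MP_f3836a_nt.VE.SpecE2

/-! Part E: the concrete system satisfies the hypotheses of part F. -/

set_option autoImplicit false

namespace Pool.Agent.MP_f3836a_nt.VE

open Polynomial Finset

namespace SOk

theorem box_ne (m H H1 : ℕ) (h1 : 0 < H1) (h2 : H1 ≤ H) : (box m H H1).Nonempty := by
  unfold box
  rw [Fintype.piFinset_nonempty]
  intro i
  rcases i with i | i
  · simp only [Sum.elim_inl]
    split_ifs
    · exact nonempty_Ico.2 (by omega)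
    · exact nonempty_Ico.2 (by omega)
  · simp only [Sum.elim_inr]
    exact nonempty_Ico.2 (by omega)

theorem tot_congr (Y : ℝ) (U : ℕ) {T T' : Multiset Pt} (h : T.map Pt.p = T'.map Pt.p) :
    tot Y U T = tot Y U T' := by
  unfold tot
  have e : ∀ S : Multiset Pt, (S.map fun z => ut Y U z.p) = (S.map Pt.p).map (ut Y U) := by
    intro S
    rw [Multiset.map_map]
    rfl
  rw [e, e, h]

theorem mem_sing {S : Finset Pt} {z : Pt} (h : ({z} : Multiset Pt) ∈ sing S) : z ∈ S := by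
  unfold sing at h
  obtain ⟨z', hz', e⟩ := mem_image.1 h
  rwa [← Multiset.singleton_inj.1 e]

theorem ut_eq (D : Dat) (hR : D.Raw) {a : ℤ} {z : Pt} (h : ({z} : Multiset Pt) ∈ sing (D.Z a)) :
    ut D.Y (D.K * D.r) z.p = D.sys.u z := by
  classical
  have h1 : z ∈ D.P1 := by
    have := mem_sing h
    unfold Dat.Z at this
    exact (mem_filter.1 this).1
  have h2 : D.Y ≤ z.p := (mem_Pts.1 (hR.p1.1 h1)).2.1
  unfold ut
  rw [if_pos h2]
  rfl

end SOk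

open SOk in
theorem sOk : SOk := by
  intro hSc D hR hEq hLk hLn hR1 hR2 hAr hId hSt
  obtain ⟨hY, -, hL, -⟩ := hSc _ _ _ hR.sc
  obtain ⟨n1, n2, n3, n4, n5, n6, n7, -⟩ := hR.num
  obtain ⟨c1, c2, c3, c4, -, -⟩ := hR.cel
  obtain ⟨-, w2, -, w4⟩ := hR.win
  have hY0 : 0 < D.Y := by linarith
  have hL0 : 0 < Lc D.Γ.W D.k0 := lt_of_lt_of_le (pow_pos hY0 19) hL
  have hc : (0 : ℝ) < D.HH.card := by
    have := hR.hh.2
    by_contra hn
    have h0 : (D.HH.card : ℝ) = 0 := le_antisymm (not_lt.1 hn) (Nat.cast_nonneg _)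
    rw [h0, mul_zero] at this
    linarith
  have hK : 0 < D.K := by
    rcases Nat.eq_zero_or_pos D.K with h | h
    · rw [h] at c2
      norm_num at c2
    · exact h
  refine
    { num := ⟨n1, n2, ?_, ?_, n3, n4, n5, ?_⟩
      nat := hR.nat
      cel := ⟨c1, c2, c3, ?_⟩
      gs := box_ne _ _ _ hR.gok.side.1 hR.gok.side.2
      sig := ?_
      atom := ?_
      rho := hR.fam.rho
      okp := hId.2.2.2.2
      p1 := hSt.1
      st := hSt.2.1
      st1 := hSt.2.2.1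
      nrm := hSt.2.2.2.1
      win := hSt.2.2.2.2
      evn := fun _ _ _ h => h.1
      evz := hId.1
      evl := hId.2.1
      idh := hId.2.2.1
      id0 := hId.2.2.2.1
      ad0 := hEq.2.2.1
      ad1 := ?_
      ad2 := ?_
      ad3 := ?_
      fmp := ?_
      fm1 := ?_
      fm2 := ?_
      mdl := hR.mdl
      eta := hEq.2.2.2
      eq := hEq.1
      tb := hEq.2.1
      lk := hLk.1
      row := hLk.2.1
      line := hLn.1
      fib := hLn.2.1
      zer := hLn.2.2.1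
      mc0 := hLn.2.2.2.1
      r0 := hLn.2.2.2.2
      r1 := hR1
      r2 := hR2
      r5 := hLk.2.2
      arh := hAr }
  · show 1 ≤ D.M
    have : (0 : ℝ) ≤ D.J1 := Nat.cast_nonneg _
    linarith
  · show 1 ≤ D.Y ^ 2
    nlinarith
  · show 0 < Real.log D.Y / (D.K * D.r : ℕ)
    have : 0 < D.K * D.r := Nat.mul_pos hK (by omega)
    exact div_pos (Real.log_pos (by linarith)) (by exact_mod_cast this)
  · show ((Fintype.card (Fin (D.J1 + 1)) : ℕ) : ℝ) ≤ D.M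
    rw [Fintype.card_fin]
    push_cast
    exact c4
  · show 1 / (D.HH.card : ℝ) * (Fintype.card D.HH : ℕ) = 1
    rw [Fintype.card_coe]
    field_simp
  · show 1 / (D.HH.card : ℝ) * D.Ym ^ 3 * (D.Y ^ 2) ^ 8 ≤ D.θ ^ 2
    have hm : 0 ≤ D.Ym ^ 3 := pow_nonneg (by linarith) 3
    have ht : 0 ≤ D.θ ^ 2 := sq_nonneg _
    have h1 : D.Λ1 * D.Ym ^ 3 ≤ D.θ ^ 2 * D.Y ^ 3 := by
      have a1 : D.Λ1 * D.Ym ^ 3 ≤ D.Λ * D.Ym ^ 3 := mul_le_mul_of_nonneg_right (by linarith) hm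
      have a2 : D.Y0 ≤ D.Y ^ 3 := by
        have : D.Y ≤ D.Y ^ 3 := by
          have b : 1 ≤ D.Y ^ 2 := by nlinarith
          nlinarith
        linarith
      have a3 : D.θ ^ 2 * D.Y0 ≤ D.θ ^ 2 * D.Y ^ 3 := mul_le_mul_of_nonneg_left a2 ht
      linarith
    have h2 : D.Y ^ 19 ≤ D.Λ1 * D.HH.card := hL.trans hR.hh.2
    have hΛ : 0 < D.Λ1 := by linarith
    have h3 : D.Ym ^ 3 * (D.Y ^ 2) ^ 8 ≤ D.θ ^ 2 * D.HH.card := by
      refine le_of_mul_le_mul_left ?_ hΛ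
      have h16 : 0 ≤ (D.Y ^ 2) ^ 8 := by positivity
      calc D.Λ1 * (D.Ym ^ 3 * (D.Y ^ 2) ^ 8) = D.Λ1 * D.Ym ^ 3 * (D.Y ^ 2) ^ 8 := by ring
        _ ≤ D.θ ^ 2 * D.Y ^ 3 * (D.Y ^ 2) ^ 8 := mul_le_mul_of_nonneg_right h1 h16
        _ = D.θ ^ 2 * D.Y ^ 19 := by ring
        _ ≤ D.θ ^ 2 * (D.Λ1 * D.HH.card) := mul_le_mul_of_nonneg_left h2 ht
        _ = D.Λ1 * (D.θ ^ 2 * D.HH.card) := by ring
    rw [mul_assoc, one_div, inv_mul_le_iff₀ hc, mul_comm (D.HH.card : ℝ)]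
    exact h3
  · intro c x hx
    rcases c with _ | h
    · exact Or.inl ⟨hx, rfl⟩
    · exact Or.inl (Or.inl ⟨hx, rfl⟩)
  · intro c x hx x' hx' hn
    rcases c with _ | h
    · exact Or.inr ⟨x, hx, x', hx', rfl, hn, rfl⟩
    · exact Or.inl (Or.inr ⟨x, hx, x', hx', rfl, hn, rfl⟩)
  · intro h T hT ha
    refine ⟨(hR.tt T hT).2.2.2.2.1 _ ha, Or.inr ⟨T, hT, ha, Or.inl ⟨rfl, rfl⟩⟩, fun x hx => ?_⟩
    exact Or.inr ⟨T, hT, ha, Or.inr ⟨x, hx, rfl, rfl⟩⟩
  · intro c T T' j e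
    rcases c with _ | h
    · show D.f0 (T.map Pt.p) j = D.f0 (T'.map Pt.p) j
      rw [e]
    · show Fu (D.K * D.r) j (D.v - tot D.Y (D.K * D.r) T)
        = Fu (D.K * D.r) j (D.v - tot D.Y (D.K * D.r) T')
      rw [tot_congr _ _ e]
  · intro h z hz
    show Fu (D.K * D.r) (D.k + 1) (D.v - tot D.Y (D.K * D.r) {z})
      = Fu (D.K * D.r) (D.k + 1) (D.v - D.sys.u z)
    rw [← ut_eq D hR hz]
    simp [tot]
  · intro h z z' hz hz' _
    show Fu (D.K * D.r) D.k (D.v - tot D.Y (D.K * D.r) (z' ::ₘ {z}))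
      = Fu (D.K * D.r) D.k (D.v - D.sys.u z - D.sys.u z')
    rw [← ut_eq D hR hz, ← ut_eq D hR hz']
    congr 1
    simp only [tot, Multiset.map_cons, Multiset.map_singleton, Multiset.sum_cons,
      Multiset.sum_singleton]
    push_cast
    ring

end Pool.Agent.MP_f3836a_nt.VE
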