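import Pool.Agent.MP_f3836a_nt.VE.SpecE2

/-! The steps of the concrete system. -/

set_option autoImplicit false

namespace Pool.Agent.MP_f3836a_nt.VE

open Polynomial Finset

namespace SSt

theorem nT_one (z : Pt) : nT {z} = z.p := by simp [nT]

theorem mem_sing {S : Finset Pt} {x : Multiset Pt} : x ∈ sing S ↔ ∃ z ∈ S, x = {z} := by
  simp only [sing, mem_image, eq_comm]

theorem sum_sing (S : Finset Pt) (h : Zm S ≠ 0) : ∑ x ∈ sing S, w1 S x * PT x = 1 := by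
  rw [sing, sum_image fun a _ b _ h => Multiset.singleton_inj.1 h]
  simp only [w1, PT, nT_one]
  refine Eq.trans ?_ (div_self h)
  rw [show Zm S / Zm S = (∑ z ∈ S, lg z / z.p) / Zm S from rfl, sum_div]
  refine sum_congr rfl fun z _ => ?_
  rw [lg]
  ring

theorem pos_bd {Y : ℝ} {U p : ℕ} (hY : 2 < Y) (hU : 0 < U) (h1 : Y ≤ p) (h2 : (p : ℝ) < Y ^ 2) :
    pos (Real.log Y) (Real.log Y / U) p < U ∧
    |Real.log p - Real.log Y - Real.log Y / U * pos (Real.log Y) (Real.log Y / U) p|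
      ≤ Real.log Y / U := by
  have l0 : 0 < Real.log Y := Real.log_pos (by linarith)
  have u0 : (0 : ℝ) < U := by exact_mod_cast hU
  have e0 : 0 < Real.log Y / U := by positivity
  have a1 : Real.log Y ≤ Real.log p := Real.log_le_log (by linarith) h1
  have a2 : Real.log p < 2 * Real.log Y := by
    have := Real.log_lt_log (by linarith) h2
    rwa [Real.log_pow, Nat.cast_ofNat] at this
  have q0 : 0 ≤ (Real.log p - Real.log Y) / (Real.log Y / U) := div_nonneg (by linarith) e0.le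
  have f1 := (le_div_iff₀ e0).1 (Nat.floor_le q0)
  have f2 := (div_lt_iff₀ e0).1 (Nat.lt_floor_add_one ((Real.log p - Real.log Y) / (Real.log Y / U)))
  unfold pos
  refine ⟨(Nat.floor_lt q0).2 ((div_lt_iff₀ e0).2 ?_), abs_le.2 ⟨by linarith, by linarith⟩⟩
  rw [mul_div_cancel₀ _ u0.ne']
  linarith

end SSt

open SSt in
theorem sSt : SSt := by
  intro hP hS hB D R
  obtain ⟨hY, -, -, -, -, -, -, -, hn, -⟩ := hS _ _ _ R.sc
  obtain ⟨n1, -, n3, n4, n5, n6, -, -⟩ := R.num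
  obtain ⟨-, -, -, hN, -⟩ := R.nat
  obtain ⟨c1, c2, -⟩ := R.cel
  obtain ⟨-, w2, w3, -⟩ := R.win
  obtain ⟨p1, p2, -⟩ := R.p1
  have l0 : 0 < Real.log D.Y := Real.log_pos (by linarith)
  have hU : 0 < D.K * D.r := Nat.mul_pos (Nat.pos_of_ne_zero fun h => by
    rw [h] at c2; norm_num at c2) (by omega)
  have ok1 : ∀ z ∈ D.P1, z ∈ Pts D.Γ.f D.Y0 (D.Y ^ 2) := fun z hz =>
    have h := mem_Pts.1 (p1 hz)
    mem_Pts.2 ⟨h.1, w2.trans h.2.1, h.2.2⟩
  have zm : ∀ a ∈ D.HH, Real.log D.Y / 2 ≤ Zm (D.Z a) := fun a ha => by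
    obtain ⟨e0, e1⟩ := R.ed
    have e2 : 6 * D.ed ≤ 1 := by
      have : 0 ≤ (2 * ((D.J1 : ℝ) + 1) + 80) * D.ed := by positivity
      have : 0 ≤ (D.J1 : ℝ) * D.ed := by positivity
      nlinarith
    nlinarith [(abs_le.1 (R.zm a ha)).1]
  have hZ : ∀ a z, z ∈ D.Z a ↔ z ∈ D.P1 ∧ On a ((D.k0 : ℤ) ^ 2) z ∧ D.G a z := fun a z => by
    simp only [Dat.Z, mem_filter]
  have hT : ∀ T ∈ D.TT, Nd T ∧ T.card = D.N ∧
      ∀ z ∈ T, IsPt D.Γ.f z ∧ D.Y0 ≤ z.p ∧ (z.p : ℝ) < D.hi := fun T h => by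
    obtain ⟨a1, a2, a3⟩ := ((hB _ _).1 T).1 (R.tt T h).1
    refine ⟨a1, a2, fun z hz => mem_Pts.1 ?_⟩
    have := a3 z hz
    simp only [PtsOn, mem_filter] at this
    exact this.1
  refine ⟨fun z hz => ?_, fun c x hx => ?_, fun h x hx => ?_, fun c => ?_, fun T h z hz z' hz' e => ?_⟩
  · have hz' : z ∈ D.P1 := hz
    obtain ⟨a0, a1, a2⟩ := mem_Pts.1 (p1 hz')
    obtain ⟨b1, b2, b3, -⟩ := hn _ z (p1 hz')
    obtain ⟨d1, d2⟩ := pos_bd hY hU a1 a2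
    refine ⟨ok1 z hz', a2.le, (p2 z hz').1, ?_, ?_, d1, d2⟩
    · show _ ≤ D.Λ * n0 D.Y z
      nlinarith
    · exact b3.trans (div_le_div_of_nonneg_right (show (2 : ℝ) ≤ D.Λ by linarith) (Nat.cast_nonneg _))
  · have w0 : 0 ≤ D.sys.w c x := (R.fam.st c x hx).1
    rcases c with _ | h
    · have hx' : x ∈ D.TT := hx
      obtain ⟨a1, a2, a3⟩ := hT x hx'
      obtain ⟨-, b1, b2, b3, -⟩ := R.tt x hx'
      refine ⟨a1, ⟨(a2.trans (one_mul _).symm).le, b1.trans_eq (pow_one _).symm, fun z hz => ?_⟩,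
        w0, b2, b3⟩
      obtain ⟨d1, d2, d3⟩ := a3 z hz
      exact mem_Pts.2 ⟨d1, d2, by nlinarith⟩
    · obtain ⟨z, hz, rfl⟩ := mem_sing.1 (show x ∈ sing (D.Z h) from hx)
      obtain ⟨a1, a2, a3⟩ := (hZ _ _).1 hz
      obtain ⟨b1, -, b3⟩ := mem_Pts.1 (p1 a1)
      refine ⟨by simp [Nd], ⟨hN.trans_eq (one_mul _).symm, ?_, fun z' hz' => ?_⟩, w0, ?_, ?_⟩
      · rw [nT_one]
        exact b3.le.trans_eq (pow_one _).symm
      · rw [Multiset.mem_singleton.1 hz']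
        exact ok1 z a1
      · exact mem_sing.2 ⟨z.cj, (hZ _ _).2 ⟨(p2 z a1).1, ((hP _ z b1).2.2.2.1 _ _).2 a2,
          (p2 z a1).2 _ a3⟩, rfl⟩
      · show w1 (D.Z h) {z.cj} = w1 (D.Z h) {z}
        simp only [w1, nT_one]
        rfl
  · obtain ⟨z, hz, rfl⟩ := mem_sing.1 (show x ∈ sing (D.Z h) from hx)
    have a1 := ((hZ _ _).1 hz).1
    obtain ⟨-, b2, b3⟩ := mem_Pts.1 (p1 a1)
    refine ⟨?_, z, a1, rfl⟩
    show w1 (D.Z h) {z} ≤ D.Λ
    have a2 := Real.log_lt_log (by linarith) b3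
    have a3 := zm h h.2
    rw [Real.log_pow, Nat.cast_ofNat] at a2
    rw [w1, nT_one, div_le_iff₀ (by linarith)]
    nlinarith
  · rcases c with _ | h
    · exact R.nrm
    · exact sum_sing (D.Z h) (by linarith [zm h h.2] : 0 < Zm (D.Z h)).ne'
  · have a1 := ((hT T h).2.2 z' hz').2.2
    have a2 := (mem_Pts.1 (p1 hz)).2.1
    rw [e] at a1
    linarith

end Pool.Agent.MP_f3836a_nt.VE
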