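import Pool.Agent.MP_f3836a_nt.VE.SpecE1

/-! Rows Sc, Lk, Cel: scales, links and cells. -/

set_option autoImplicit false

namespace Pool.Agent.MP_f3836a_nt.VE

open Polynomial Finset

namespace ESc

theorem mem_HH0 {t0 a : ℤ} {W k : ℕ} : a ∈ HH0 t0 W k ↔
    (t0 * (k : ℤ) ^ 2 ≤ a ∧ a < (t0 + 1) * (k : ℤ) ^ 2) ∧ (W : ℤ) ∣ a - 1 := by
  rw [HH0, mem_filter, mem_Ico]

theorem nT_pos (T : Multiset Pt) (h : ∀ z ∈ T, z.p.Prime) : 0 < nT T :=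
  Multiset.prod_pos fun p hp => by
    obtain ⟨z, hz, rfl⟩ := Multiset.mem_map.1 hp
    exact (h z hz).pos

theorem prog (S : Finset ℤ) (W : ℕ) (x l : ℝ) (hW : 0 < W) (hl : 0 ≤ l)
    (h : ∀ a ∈ S, (W : ℤ) ∣ a - 1 ∧ x ≤ a ∧ (a : ℝ) < x + l) : (S.card : ℝ) ≤ l / W + 1 := by
  have Wp : (0 : ℝ) < W := by exact_mod_cast hW
  have sub : S ⊆ (Ico ⌈(x - 1) / W⌉ ⌈(x - 1) / W + l / W⌉).image fun n => 1 + (W : ℤ) * n := by
    intro a ha
    obtain ⟨⟨n, hn⟩, h1, h2⟩ := h a ha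
    have e : (a : ℝ) = 1 + W * n := by
      have : a = 1 + W * n := by linarith
      exact_mod_cast this
    refine mem_image.2 ⟨n, mem_Ico.2 ⟨Int.ceil_le.2 ?_, Int.lt_ceil.2 ?_⟩, by linarith⟩
    · rw [div_le_iff₀ Wp]
      linarith
    · rw [← add_div, lt_div_iff₀ Wp]
      linarith
  have c1 := (card_le_card sub).trans card_image_le
  have l0 : 0 ≤ l / W := by positivity
  have c2 := Int.card_Ico_of_le ⌈(x - 1) / W⌉ ⌈(x - 1) / W + l / W⌉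
    (Int.ceil_mono (le_add_of_nonneg_right l0))
  have c3 : ((Ico ⌈(x - 1) / W⌉ ⌈(x - 1) / W + l / W⌉).card : ℝ) =
      ⌈(x - 1) / W + l / W⌉ - ⌈(x - 1) / W⌉ := by exact_mod_cast c2
  have c4 : (S.card : ℝ) ≤ (Ico ⌈(x - 1) / W⌉ ⌈(x - 1) / W + l / W⌉).card := by exact_mod_cast c1
  linarith [Int.le_ceil ((x - 1) / W), Int.ceil_lt_add_one ((x - 1) / W + l / W)]

end ESc

open ESc

theorem rSc : ScS := by
  intro W k Y h
  have W2 : (2 : ℝ) ≤ W := by exact_mod_cast h.two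
  have Y2 : 2 < Y := W2.trans_lt h.big
  have Y0 : 0 < Y := by linarith
  have k0 : 0 < k := by
    have : (0 : ℝ) < k := h.pow ▸ pow_pos Y0 10
    exact_mod_cast this
  have k2 : (k : ℝ) ^ 2 = Y ^ 20 := by rw [← h.pow, ← pow_mul]
  have L1 : Y ^ 19 ≤ Lc W k := by
    rw [Lc, k2, le_div_iff₀ (by linarith), pow_succ Y 19]
    exact mul_le_mul_of_nonneg_left h.big.le (by positivity)
  have np : ∀ p : ℕ, p.Prime → ¬p ∣ W → ¬(p : ℤ) ∣ (k : ℤ) ^ 2 := fun p hp a b =>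
    a (h.rad p hp (hp.dvd_of_dvd_pow (n := 2) (by exact_mod_cast b)))
  refine ⟨Y2, k0, L1, ?_, k2, fun p hp hY => ?_, np, fun t0 a ha => ?_, fun f z hz => ?_,
    fun T hT hn => ?_⟩
  · rw [Lc, k2]
    exact div_le_self (by positivity) (by linarith)
  · have a : ¬p ∣ W := fun d => by
      have : (p : ℝ) ≤ W := by exact_mod_cast Nat.le_of_dvd (by have := h.two; omega) d
      linarith [h.big]
    exact ⟨a, np p hp a, (Nat.Prime.coprime_iff_not_dvd hp).2 a⟩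
  · obtain ⟨⟨a1, a2⟩, a3⟩ := mem_HH0.1 ha
    refine ⟨lt_of_le_of_ne a1 fun e => ?_, a2⟩
    have b1 : (W : ℤ) ∣ a := e ▸ Dvd.dvd.mul_left
      (dvd_pow (Int.natCast_dvd_natCast.2 h.dvd) two_ne_zero) t0
    have b2 : (W : ℤ) ∣ 1 := by simpa using dvd_sub b1 a3
    have := Int.le_of_dvd one_pos b2
    have := h.two
    omega
  · obtain ⟨-, a1, a2⟩ := mem_Pts.1 hz
    have p0 : (0 : ℝ) < z.p := by linarith
    have l0 : 0 < Real.log Y := Real.log_pos (by linarith)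
    have l1 : Real.log Y ≤ lg z := Real.log_le_log Y0 a1
    have l2 : lg z ≤ 2 * Real.log Y := by
      have := Real.log_le_log p0 a2.le
      rwa [Real.log_pow, Nat.cast_ofNat] at this
    have n1 : 1 / (z.p : ℝ) ≤ n0 Y z := by
      rw [n0, div_le_div_iff₀ p0 (by positivity)]
      nlinarith
    have n2 : n0 Y z ≤ 2 / z.p := by
      rw [n0, div_le_div_iff₀ (by positivity) p0]
      nlinarith
    have n3 : 0 < n0 Y z := lt_of_lt_of_le (by positivity) n1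
    refine ⟨n3, n1, n2, div_pos n3 p0, ?_⟩
    rw [sg, sq, ← div_div]
    exact div_le_div_of_nonneg_right n2 p0.le
  · have n0 : (0 : ℝ) < nT T := by exact_mod_cast nT_pos T hT
    rw [PT, mul_one_div, le_div_iff₀ n0]
    calc Y ^ 3 * nT T ≤ Y ^ 3 * Y ^ 16 := mul_le_mul_of_nonneg_left hn (by positivity)
      _ = Y ^ 19 := by ring
      _ ≤ _ := L1

theorem rLk : OfLk := by
  intro hC hS t0 b W k Y T h hN hT hn
  obtain ⟨Y2, -, -, -, -, -, -, -, -, a⟩ := hS W k Y h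
  have a1 := a T (fun z hz => (hT z hz).1) hn
  have a2 := abs_le.1 (hC.2.2.2 t0 b W k T (by have := h.two; omega) h.dvd hN hT)
  have a3 : (2 : ℝ) ^ 3 ≤ Y ^ 3 := pow_le_pow_left₀ (by norm_num) Y2.le 3
  constructor <;> linarith [a2.1, a2.2]

theorem rCel : CelS := by
  intro t0 W k Jc hW _ hJ
  have J0 : (0 : ℝ) < Jc := by exact_mod_cast hJ
  have key : ∀ a ∈ HH0 t0 W k, (0 : ℝ) < (k : ℝ) ^ 2 ∧ cellOf t0 k Jc a < Jc ∧
      (t0 : ℝ) + (cellOf t0 k Jc a : ℝ) / Jc ≤ (a : ℝ) / (k : ℝ) ^ 2 ∧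
      (a : ℝ) / (k : ℝ) ^ 2 < t0 + ((cellOf t0 k Jc a : ℝ) + 1) / Jc := fun a ha => by
    obtain ⟨⟨a1, a2⟩, -⟩ := mem_HH0.1 ha
    have b1 : (t0 : ℝ) * (k : ℝ) ^ 2 ≤ a := by exact_mod_cast a1
    have b2 : (a : ℝ) < (t0 + 1) * (k : ℝ) ^ 2 := by exact_mod_cast a2
    have k0 : (0 : ℝ) < (k : ℝ) ^ 2 := by linarith
    have c1 : (t0 : ℝ) ≤ a / (k : ℝ) ^ 2 := (le_div_iff₀ k0).2 b1
    have c2 : (a : ℝ) / (k : ℝ) ^ 2 < t0 + 1 := (div_lt_iff₀ k0).2 b2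
    have d0 : 0 ≤ (Jc : ℝ) * ((a : ℝ) / (k : ℝ) ^ 2 - t0) := mul_nonneg J0.le (by linarith)
    have d1 : (cellOf t0 k Jc a : ℝ) ≤ _ := Nat.floor_le d0
    have d2 : _ < (cellOf t0 k Jc a : ℝ) + 1 :=
      Nat.lt_floor_add_one ((Jc : ℝ) * ((a : ℝ) / (k : ℝ) ^ 2 - t0))
    refine ⟨k0, (Nat.floor_lt d0).2 (by nlinarith), ?_, ?_⟩
    · rw [← le_sub_iff_add_le', div_le_iff₀' J0]
      exact d1
    · rw [← sub_lt_iff_lt_add', lt_div_iff₀' J0]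
      exact d2
  refine ⟨fun c => ?_, fun a ha => ⟨(key a ha).2.1, (key a ha).2.2.1, (key a ha).2.2.2.le⟩⟩
  have := prog ((HH0 t0 W k).filter fun a => cellOf t0 k Jc a = c) W
    ((t0 + (c : ℝ) / Jc) * (k : ℝ) ^ 2) ((k : ℝ) ^ 2 / Jc) hW (by positivity) fun a ha => by
      obtain ⟨a1, a2⟩ := mem_filter.1 ha
      obtain ⟨k0, -, b1, b2⟩ := key a a1
      rw [a2] at b1 b2
      refine ⟨(mem_HH0.1 a1).2, (le_div_iff₀ k0).1 b1, ((div_lt_iff₀ k0).1 b2).trans_eq ?_⟩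
      ring
  rwa [div_right_comm] at this

end Pool.Agent.MP_f3836a_nt.VE
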