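import Pool.Agent.MP_f3836a_nt.VE.SpecE3

/-! Part E: the base hypotheses for a small curve. -/

set_option autoImplicit false

namespace Pool.Agent.MP_f3836a_nt.VE

open Polynomial Finset

namespace XBH1

theorem mem_sing {S : Finset Pt} {x : Multiset Pt} : x ∈ sing S ↔ ∃ z ∈ S, {z} = x := by
  unfold sing
  exact mem_image

theorem mu1_one (S : Finset Pt) (z : Pt) : mu1 S {z} = Real.log z.p / Zm S / z.p := by
  simp [mu1, w1, PT, nT, div_eq_mul_inv]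

theorem sum_sing (S : Finset Pt) (F : Multiset Pt → ℝ) : ∑ x ∈ sing S, F x = ∑ z ∈ S, F {z} := by
  unfold sing
  exact sum_image fun z _ z' _ e => Multiset.singleton_inj.1 e

open Classical in
theorem mem_on {f : ℤ[X]} {lo hi : ℝ} {a b : ℤ} {z : Pt} :
    z ∈ PtsOn f lo hi a b ↔ (IsPt f z ∧ lo ≤ z.p ∧ (z.p : ℝ) < hi) ∧ On a b z := by
  unfold PtsOn
  rw [← mem_Pts]
  exact mem_filter

end XBH1

open XBH1 in
theorem xBH1 : OfBH1 := by
  intro hA hC hH hP hc hS hF f t0 A0 cv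
  obtain ⟨Cf, -, h1⟩ := hH f t0 A0 cv
  obtain ⟨C1, Y1, h2⟩ := hF 200 2
  refine ⟨max 4 C1, max (max 64 Cf) Y1, fun W k Y a h6 sc hY ha hs hZ => ?_⟩
  have y1 : 64 ≤ Y := (le_max_left _ _).trans ((le_max_left _ _).trans hY)
  have y2 : Cf ≤ Y := (le_max_right _ _).trans ((le_max_left _ _).trans hY)
  have Y0 : 0 < Y := by linarith
  obtain ⟨-, k0, -, -, -, s1, s2, -⟩ := hS W k Y sc
  obtain ⟨-, a1, a2⟩ := h1 W k a k0 ha
  rw [← sc.pow, ← pow_mul] at a1 a2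
  have a3 : (AA f k a : ℝ) ≤ Y ^ 200 :=
    a1.trans ((mul_le_mul_of_nonneg_right y2 (by positivity)).trans (by
      rw [← pow_succ']; exact pow_le_pow_right₀ (by linarith) (by norm_num)))
  have a4 : Y ≤ AA f k a := le_of_mul_le_mul_left (by
    refine le_trans ?_ (a2.trans (mul_le_mul_of_nonneg_right y2 (Nat.cast_nonneg _)))
    rw [← sq]; exact pow_le_pow_right₀ (by linarith) (by norm_num)) Y0
  let Γ : Gf := ⟨f, 2, 5, W, 1, X ^ 5, 0, 1, 1⟩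
  have w2 : 2 ∣ W := Dvd.dvd.trans (by norm_num) h6
  have gk : Γ.Ok := ⟨cv.monic, cv.deg, le_rfl, ⟨monic_X_pow 5, natDegree_X_pow 5, by simp [Γ]⟩,
    ⟨Nat.prime_two, w2⟩, ⟨by have := sc.two; show 0 < W; omega, one_pos⟩,
    fun l hl h => absurd (Nat.dvd_one.1 h) hl.ne_one, ⟨w2, Dvd.dvd.trans (by norm_num) h6⟩,
    one_pos, le_rfl⟩
  have ck := hC Γ t0 A0 k a cv gk sc.dvd k0 sc.rad ha
  have api := (hA Γ _ gk ck 0).2.2.2.2.1
  set S := PtsOn f Y (Y ^ 2) a ((k : ℤ) ^ 2)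
  have L0 : 0 < Real.log Y := Real.log_pos (by linarith)
  have z1 : Real.log Y / 2 ≤ Zm S := by linarith [(abs_le.1 hZ).1]
  have z0 : 0 < Zm S := by linarith
  have wt : ∀ z ∈ S, Real.log z.p / Zm S ≤ 4 := fun z hz => by
    obtain ⟨⟨-, b1, b2⟩, -⟩ := mem_on.1 hz
    have := Real.log_le_log (Y0.trans_le b1) b2.le
    rw [Real.log_pow] at this
    rw [div_le_iff₀ z0]
    push_cast at this
    linarith
  refine ⟨ck.one, fun z hz => ?_, fun z z' hz hz' e => ?_, fun x hx => ?_, fun x hx => ?_, ?_,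
    fun x hx => ?_, fun x hx => ?_, fun p => ?_, a3, ?_⟩
  · obtain ⟨b1, b2⟩ := api z ⟨hz.1, hz.2.1⟩ hz.2.2
    exact ⟨⟨hz.1.1, b2, b1⟩, (hP f z hz.1).2.1, (hP f z hz.1).2.2.2.2.1 k⟩
  · exact (hP f z hz.1).2.2.2.2.2 a _ z' hz'.1 e.symm (s2 _ hz.1.1 hz.2.1) hz.2.2 hz'.2.2
  · obtain ⟨z, hz, rfl⟩ := mem_sing.1 hx
    obtain ⟨⟨b1, b2, b3⟩, b4⟩ := mem_on.1 hz
    refine ⟨rfl, by simp [Nd], fun z' hz' => ?_⟩
    rw [Multiset.mem_singleton.1 hz']
    exact ⟨⟨b1, (s1 _ b1.1 b2).1, b4⟩, b2, b3⟩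
  · obtain ⟨z, -, rfl⟩ := mem_sing.1 hx
    rw [mu1_one]
    exact div_nonneg (div_nonneg (Real.log_natCast_nonneg _) z0.le) (Nat.cast_nonneg _)
  · rw [sum_sing]
    simp only [mu1_one, div_right_comm _ (Zm S)]
    rw [← sum_div]
    exact div_self z0.ne'
  · obtain ⟨z, hz, rfl⟩ := mem_sing.1 hx
    obtain ⟨⟨b1, b2, b3⟩, b4⟩ := mem_on.1 hz
    rw [Multiset.map_singleton, mu1_one, mu1_one]
    exact ⟨mem_sing.2 ⟨_, mem_on.2 ⟨⟨(hP f z b1).1, b2, b3⟩, ((hP f z b1).2.2.2.1 _ _).2 b4⟩, rfl⟩,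
      rfl⟩
  · obtain ⟨z, hz, rfl⟩ := mem_sing.1 hx
    have : (z.p : ℝ) ≠ 0 := (Y0.trans_le (mem_on.1 hz).1.2.1).ne'
    rw [mu1_one, show nT {z} = z.p by simp [nT], div_mul_cancel₀ _ this]
    exact (wt z hz).trans (le_max_left _ _)
  · have c2 := ((hc f S fun z hz => (mem_on.1 hz).1.1).2.2 a ((k : ℤ) ^ 2) fun z hz =>
      ⟨(mem_on.1 hz).2, (s1 _ (mem_on.1 hz).1.1.1 (mem_on.1 hz).1.2.1).2.1⟩).1 p
    have r8 : 8 ≤ √Y := Real.le_sqrt_of_sq_le (by linarith)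
    rw [sum_filter, sum_sing]
    calc _ = ∑ z ∈ S.filter fun z => z.p = p, mu1 S {z} := by
          rw [sum_filter]
          exact sum_congr rfl fun z _ => by simp [eq_comm]
      _ ≤ (S.filter fun z => z.p = p).card • (4 / Y) := sum_le_card_nsmul _ _ _ fun z hz => by
          have hz' := (mem_filter.1 hz).1
          rw [mu1_one]
          exact div_le_div₀ (by norm_num) (wt z hz') Y0 (mem_on.1 hz').1.2.1
      _ ≤ 2 * (4 / Y) := by
          rw [nsmul_eq_mul]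
          exact mul_le_mul_of_nonneg_right (by exact_mod_cast c2) (by positivity)
      _ ≤ _ := by
          rw [← mul_div_assoc, div_le_div_iff₀ Y0 (by linarith)]
          nlinarith [Real.mul_self_sqrt Y0.le]
  · exact (h2 _ Y ((le_max_right _ _).trans hY) a4 a3 hs).trans
      (mul_le_mul_of_nonneg_right (le_max_right _ _) (Real.sqrt_nonneg _))

end Pool.Agent.MP_f3836a_nt.VE
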