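import Pool.Agent.MP_f3836a_nt.VE.SpecE4

/-! The order of the constants. -/

set_option autoImplicit false

namespace Pool.Agent.MP_f3836a_nt.VE

open Polynomial Finset

namespace XCore

theorem ub (M : ℕ) (g : ℕ → ℝ) : ∃ B : ℝ, ∀ i ≤ M, g i ≤ B :=
  ⟨∑ i ∈ range (M + 1), |g i|, fun i hi => (le_abs_self _).trans
    (single_le_sum (f := fun i => |g i|) (fun _ _ => abs_nonneg _) (mem_range.2 (by omega)))⟩

theorem ubN (M : ℕ) (g : ℕ → ℕ) : ∃ B : ℕ, ∀ i ≤ M, g i ≤ B :=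
  ⟨∑ i ∈ range (M + 1), g i, fun i hi =>
    single_le_sum (f := g) (fun _ _ => Nat.zero_le _) (mem_range.2 (by omega))⟩

theorem lb (M : ℕ) (g : ℕ → ℝ) (x : ℝ) (hx : 0 < x) (h : ∀ i, 0 < g i) :
    ∃ b : ℝ, 0 < b ∧ b * x ≤ 1 ∧ ∀ i ≤ M, b ≤ g i := by
  induction M with
  | zero =>
    refine ⟨min (g 0) (1 / x), lt_min (h 0) (by positivity), ?_, fun i hi => ?_⟩
    · exact (le_div_iff₀ hx).1 (min_le_right _ _)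
    · obtain rfl : i = 0 := by omega
      exact min_le_left _ _
  | succ M ih =>
    obtain ⟨b, h0, h1, h2⟩ := ih
    refine ⟨min b (g (M + 1)), lt_min h0 (h _),
      (mul_le_mul_of_nonneg_right (min_le_left _ _) hx.le).trans h1, fun i hi => ?_⟩
    rcases hi.lt_or_eq with c | rfl
    · exact (min_le_left _ _).trans (h2 i (by omega))
    · exact min_le_right _ _

theorem levels (P : ℝ → Lv → Prop) (d0 : ℝ) (h0 : 0 < d0)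
    (h : ∀ x, 0 < x → x ≤ 1 → ∃ l, P x l ∧ 0 < l.d' ∧ l.d' ≤ x) :
    ∃ (d : ℕ → ℝ) (l : ℕ → Lv), Antitone d ∧ d 0 ≤ d0 ∧
      ∀ i, 0 < d i ∧ d i ≤ 1 ∧ P (d i) (l i) ∧ d (i + 1) = (l i).d' := by
  have h' : ∀ x : {x : ℝ // 0 < x ∧ x ≤ 1}, ∃ l, P x l ∧ 0 < l.d' ∧ l.d' ≤ x :=
    fun x => h x x.2.1 x.2.2
  choose lv hlv using h'
  let ds : ℕ → {x : ℝ // 0 < x ∧ x ≤ 1} := fun i =>
    Nat.rec ⟨min d0 1, lt_min h0 one_pos, min_le_right _ _⟩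
      (fun _ x => ⟨(lv x).d', (hlv x).2.1, (hlv x).2.2.trans x.2.2⟩) i
  exact ⟨fun i => (ds i).1, fun i => lv (ds i), antitone_nat_of_succ_le fun i => (hlv (ds i)).2.2,
    min_le_left _ _, fun i => ⟨(ds i).2.1, (ds i).2.2, (hlv (ds i)).1, rfl⟩⟩

end XCore

open XCore Classical in
theorem xCore : OfCore := by
  rintro ⟨AF, hAF⟩ hTop hMain hBase hLev hLv hW hScl hS2 hRich hGood hSig hEta hAr hSc
    f t0 A0 p0 hC hp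
  obtain ⟨N, M0, M1, Mx, d0, hN, hd0, hM⟩ := hMain f t0 A0 hC
  obtain ⟨E1, hE1, hS2'⟩ := hS2 f t0 A0 hC
  obtain ⟨Ys, hYs⟩ := hS2' E1 le_rfl
  obtain ⟨R, hR⟩ : ∃ R, R = N * Mx + M1 := ⟨_, rfl⟩
  obtain ⟨A', hA'⟩ : ∃ A', A' = E1 * (R + N) := ⟨_, rfl⟩
  have A0' : 0 < A' := by rw [hA']; positivity
  have A1 : (1 : ℝ) ≤ A' := by exact_mod_cast A0'
  obtain ⟨Λ2, hΛ2⟩ : ∃ Λ2 : ℝ, Λ2 = 2 * R.factorial * (40 * A') ^ R := ⟨_, rfl⟩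
  have L2 : 2 ≤ Λ2 := by
    have a : (1 : ℝ) ≤ R.factorial := by exact_mod_cast R.factorial_pos
    have b : (1 : ℝ) ≤ (40 * A') ^ R := one_le_pow₀ (by linarith)
    rw [hΛ2]
    nlinarith
  obtain ⟨Λ3, hΛ3⟩ : ∃ Λ3 : ℝ, Λ3 = 2 * Λ2 * (M0 + 1) := ⟨_, rfl⟩
  have L3 : 1 ≤ Λ3 := by
    have : (0 : ℝ) ≤ M0 := M0.cast_nonneg
    rw [hΛ3]
    nlinarith
  have E0 : (0 : ℝ) < E1 := by positivity
  obtain ⟨N', M1', hN', hB⟩ := hBase f t0 A0 hC N E1 (200 * A') (1 / (4 * (2 * E1) ^ N * (2 * Λ3)))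
    hN hE1 (by omega) (by positivity)
  obtain ⟨J', hJ'⟩ := hW N N' p0 hN hN' hp
  refine ⟨J', fun m J e e' As Bs ϖ hPA ψ ψ0 φ c c0 hId => ?_⟩
  obtain ⟨k1, Cb1, hCb1, hM⟩ := hM (84 * m + 703)
  obtain ⟨k1', Cb2, hCb2, hB⟩ := hB ((84 * m + 703) * A')
  obtain ⟨J0, Λa, hΛa, hA⟩ := hAr (2 * m) (4 * Λ3)
  obtain ⟨Cb, hCb⟩ : ∃ Cb : ℝ, Cb = Cb1 + Cb2 + 2 * (M0 : ℝ) ^ 3 + 4 * Λ3 + (400 * (m : ℝ) + 100)
    + N + Λa + 4 * (2 * (E1 : ℝ)) ^ N * Λ3 := ⟨_, rfl⟩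
  have c1 : (0 : ℝ) ≤ 2 * (M0 : ℝ) ^ 3 := by positivity
  have c2 : (0 : ℝ) ≤ 400 * (m : ℝ) + 100 := by positivity
  have c3 : (0 : ℝ) ≤ N := by positivity
  have c4 : (0 : ℝ) ≤ 4 * (2 * (E1 : ℝ)) ^ N * Λ3 := by positivity
  have C1 : 1 ≤ Cb := by linarith
  obtain ⟨κ0, hκ0⟩ : ∃ κ0, κ0 = k1' + 2 * A' * (22 * m + 760)
    + 2 * A' * (N + k1 + 400 * (2 * N + 5) ^ 2 + 2) := ⟨_, rfl⟩
  obtain ⟨d, l, hd, hd1, hl⟩ := levels (LvOk Cb AF N' κ0 J0 A' N (max k1 k1')) d0 hd0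
    fun x h0 h1 => by
      obtain ⟨l, h⟩ := hLv Cb AF N' κ0 J0 A' N (max k1 k1') x C1 hN' A0' h0 h1
      exact ⟨l, h, h.nxt.1, h.nxt.2.1⟩
  obtain ⟨ε0, he0, he1, he2⟩ := lb M0 (fun i => (l i).e0) (10 * A') (by positivity)
    fun i => (hl i).2.2.1.e0.1
  obtain ⟨kM, hkM⟩ := ubN M0 fun i => 40 * m + 2 * (l i).κ
  have hδ : 0 < 1 / (4 * Λ2) := by positivity
  obtain ⟨w1, Yσ, hσ⟩ := hSig f t0 A0 hC _ hδ
  obtain ⟨Yg, hg⟩ := hGood f t0 A0 hC 1 _ one_pos hδ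
  have hE : ∀ i, ∃ (w0 : ℕ) (q0 Y1 : ℝ), ∀ (W k0 : ℕ) (Y : ℝ), Y1 ≤ Y → Sc W k0 Y →
      (∀ l : ℕ, l.Prime → l ≤ w0 → l ∣ W) →
      EtaC t0 W k0 Y ((l i).θ ^ 2 / (2 * Λ3)) (Cb * (l i).Λ) q0 (max M1 M1') (8 * N) := by
    intro i
    have h := (hl i).2.2.1
    have t1 := h.th.1
    have k0 : 1 ≤ (l i).κ := le_trans (by
      have : 0 < 2 * A' * (22 * m + 760) := by positivity
      omega) h.len.2.1
    have k1 : (1 : ℝ) ≤ (l i).κ := by exact_mod_cast k0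
    have k2 : 1 ≤ (l i).Λ := le_trans (by nlinarith) h.len.2.2
    obtain ⟨w0, q0, Y1, h'⟩ := hEta ((l i).θ ^ 2 / (2 * Λ3)) (Cb * (l i).Λ) (max M1 M1') 3 (8 * N)
      (by positivity) (by nlinarith)
    exact ⟨w0, q0, Y1, fun W k0 Y h1 h2 h3 a1 b1 T S g1 g2 g3 g4 g5 g6 g7 =>
      (h' t0 W k0 Y h1 h2 h3 a1 b1 T S g1 g2 g3 g4 g5 g6 g7).2⟩
  choose w q0 Ye hE using hE
  obtain ⟨w2, hw2⟩ := ubN M0 w
  obtain ⟨W, hW1, hW2, hW6, hWp, hWJ, hWw⟩ := hJ' (w1 + w2)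
  have W3 : 3 ≤ W := hW1.1
  obtain ⟨Y1, hM⟩ := hM d W kM ε0 hd (fun i => (hl i).1) hd1 hW1 hW6 he0
  obtain ⟨Y2, hB⟩ := hB W kM ε0 hW2 hW6 he0
  have hT : ∀ i, ∃ Yl : ℝ, i ≤ M0 → ∀ (k0 : ℕ) (Y Y0 Ym : ℝ) (o : ℤ → MO) (H2 : Finset ℤ), Yl ≤ Ym →
      SclC W A' k0 Y Y0 Ym ε0 → 2 * Real.log Y0 ≤ Zm (PtsOn f Y0 (Y0 ^ E1) t0 1) →
      Zm (PtsOn f Y0 (Y0 ^ E1) t0 1) ≤ 2 * E1 * Real.log Y0 →
      (∀ TT0, TOk f t0 W Y0 N E1 (1 / (4 * (2 * E1) ^ N * (2 * Λ3))) TT0 → ∃ ob : BO,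
        BOk f t0 A0 W Y0 N E1 (200 * A') N' M1' ((84 * m + 703) * A') k1' kM Cb2 ε0 TT0 ob) →
      H2 ⊆ HH0 t0 W k0 → Lc W k0 ≤ Λ3 * H2.card →
      (∀ a ∈ H2, MOk f W k0 Y N M0 M1 Mx (84 * m + 703) k1 kM Cb1 ε0 d a (o a) ∧ (o a).i = i ∧
        ∃ T ∈ Blk (PtsOn f Y0 (Y0 ^ E1) t0 1) N, (o a).adm a ((k0 : ℤ) ^ 2) T) → c0 = 0 := by
    intro i
    by_cases hi : i ≤ M0
    swap
    · exact ⟨0, fun h => absurd h hi⟩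
    obtain ⟨Yl, h⟩ := hTop f t0 A0 p0 J' m J e e' As Bs ϖ ψ ψ0 φ c c0 AF N M0 M1 Mx E1 A' N' M1' k1
      k1' kM W κ0 J0 Cb1 Cb2 Cb Λ3 Λa ε0 (d i) (l i) hC hp hPA hId hAF
      { nat := ⟨hN, hE1, by rw [hA']; exact Nat.mul_le_mul_left _ (by omega)⟩
        w := ⟨by omega, hW6, hWp, hWJ⟩
        cb := ⟨hCb1, by linarith, hCb2, by linarith, by linarith, L3, by linarith, by linarith,
          by linarith, hΛa, by linarith, by linarith⟩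
        len := ⟨by omega, by omega, by omega, hkM i hi⟩
        lv := (hl i).2.2.1
        d := ⟨(hl i).1, (hl i).2.1, he0, he2 i hi⟩
        ar := fun J hJ t0 H s N c => hA J t0 H s N c hJ
        eta := ⟨q0 i, Ye i, fun k0 Y h1 h2 => hE i W k0 Y h1 h2 fun l hl hl' =>
          hWw l hl (by have := hw2 i hi; omega)⟩ }
    exact ⟨Yl, fun _ k0 Y Y0 Ym o H2 g1 g2 g3 g4 g5 => h k0 Y Y0 Ym d i o H2 g1 g2 g3 g4 g5 rfl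
      (hl i).2.2.2⟩
  choose Yl hT using hT
  obtain ⟨Y3, hY3⟩ := ub M0 Yl
  obtain ⟨k0, Y, Y0, Ym, sc, e1, e2, big, m1, m2, m3, m4, m5, m6⟩ := hScl W A'
    (|Y1| + |Y2| + |Y3| + |Ys| + |Yσ| + |Yg| + W + 2 * R + 1) (by omega) A0'
  have b1 := le_abs_self Y1
  have b2 := le_abs_self Y2
  have b3 := le_abs_self Y3
  have b4 := le_abs_self Ys
  have b5 := le_abs_self Yσ
  have b6 := le_abs_self Yg
  have n1 := abs_nonneg Y1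
  have n2 := abs_nonneg Y2
  have n3 := abs_nonneg Y3
  have n4 := abs_nonneg Ys
  have n5 := abs_nonneg Yσ
  have n6 := abs_nonneg Yg
  have n7 : (0 : ℝ) ≤ W := W.cast_nonneg
  have n8 : (0 : ℝ) ≤ R := R.cast_nonneg
  obtain ⟨s1, -, s3, s4⟩ := hYs Y0 (by linarith)
  have g1 := hσ W k0 Y (by linarith) sc fun l hl hl' => hWw l hl (by omega)
  have g2 := hg W k0 Y ⌈Y⌉₊ (by linarith) sc (Nat.le_ceil Y)
  have lY : 0 ≤ Real.log Y := Real.log_nonneg (by linarith)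
  obtain ⟨H1, hH1⟩ : ∃ H1 : Finset ℤ, ∀ a, a ∈ H1 ↔ a ∈ HH0 t0 W k0 ∧
      ∑ l ∈ (2 * AA f k0 a).primeFactors, (1 : ℝ) / l ≤ 2 ∧ Eqd f k0 Y ⌈Y⌉₊ 1 (1 / (4 * Λ2)) a :=
    ⟨_, fun a => mem_filter⟩
  have ho : ∀ a, ∃ o : MO, a ∈ H1 → MOk f W k0 Y N M0 M1 Mx (84 * m + 703) k1 kM Cb1 ε0 d a o := by
    intro a
    by_cases ha : a ∈ H1
    swap
    · exact ⟨⟨0, fun _ => True, ∅, fun _ => 0, fun _ => True, 1⟩, fun h => absurd h ha⟩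
    obtain ⟨h1, h2, h3⟩ := (hH1 a).1 ha
    obtain ⟨o, h⟩ := hM k0 Y a sc (by linarith) h1 h2 (h3.2.1.trans (by
      have : 1 / (4 * Λ2) ≤ 1 / 2 := one_div_le_one_div_of_le two_pos (by linarith)
      nlinarith))
    exact ⟨o, fun _ => h⟩
  choose o ho using ho
  have r1 := hRich f t0 W k0 A' E1 R Y Y0 sc (by linarith) e1 (by linarith)
    (by rw [hA']; exact Nat.mul_le_mul_left _ (by omega)) (by linarith) s1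
  rw [← hΛ2, div_le_iff₀' (by linarith)] at r1
  have r2 : 2 * Λ2 * ((HH0 t0 W k0 \ H1).card : ℝ) ≤ Lc W k0 := by
    have : HH0 t0 W k0 \ H1 ⊆ ((HH0 t0 W k0).filter fun a =>
        2 < ∑ l ∈ (2 * AA f k0 a).primeFactors, (1 : ℝ) / l) ∪
        (HH0 t0 W k0).filter fun a => ¬Eqd f k0 Y ⌈Y⌉₊ 1 (1 / (4 * Λ2)) a := by
      intro a ha
      obtain ⟨h1, h2⟩ := mem_sdiff.1 ha
      rw [hH1] at h2
      rw [mem_union, mem_filter, mem_filter]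
      by_cases c : 2 < ∑ l ∈ (2 * AA f k0 a).primeFactors, (1 : ℝ) / l
      · exact Or.inl ⟨h1, c⟩
      · exact Or.inr ⟨h1, fun c' => h2 ⟨h1, not_lt.1 c, c'⟩⟩
    have h := (Nat.cast_le (α := ℝ)).2 ((card_le_card this).trans (card_union_le _ _))
    rw [Nat.cast_add] at h
    calc _ ≤ 2 * Λ2 * (1 / (4 * Λ2) * Lc W k0 + 1 / (4 * Λ2) * Lc W k0) :=
          mul_le_mul_of_nonneg_left (h.trans (add_le_add g1 g2)) (by linarith)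
      _ = _ := by field_simp; ring
  obtain ⟨i, hi, H2, hH2, u1, u2⟩ := hLev (HH0 t0 W k0) H1 (PtsOn f Y0 (Y0 ^ E1) t0 1)
    ((k0 : ℤ) ^ 2) o N M0 M1 Mx (Lc W k0) Λ2 (by linarith) (fun a ha => ((hH1 a).1 ha).1) r2
    (by rw [← hR]; exact r1)
    fun a ha => ⟨(ho a ha).lev, (ho a ha).ll.1, (ho a ha).lab, (ho a ha).z0⟩
  exact hT i hi k0 Y Y0 Ym o H2 ((hY3 i hi).trans (by linarith))
    ⟨sc, ⟨e1, e2⟩, ⟨m1, m2, m3, m4, (m5 ε0 he1).1, (m5 ε0 he1).2⟩, m6⟩ s3 s4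
    (fun TT0 h => hB Y0 TT0 (by linarith) h) (fun a ha => ((hH1 a).1 (hH2 ha)).1)
    (by rw [hΛ3]; exact u1) fun a ha => ⟨ho a (hH2 ha), u2 a ha⟩

end Pool.Agent.MP_f3836a_nt.VE
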