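import Pool.Agent.MP_f3836a_nt.VE.SpecE3

/-! Part E: deletion in the concrete family. -/

set_option autoImplicit false

namespace Pool.Agent.MP_f3836a_nt.VE

open Polynomial Finset

namespace XDel

theorem zm_eq (S : Finset Pt) (Y : ℝ) (hY : Real.log Y ≠ 0) :
    Zm S = Real.log Y * ∑ z ∈ S, n0 Y z := by
  unfold Zm n0
  rw [mul_sum]
  refine sum_congr rfl fun z _ => ?_
  by_cases hp : (z.p : ℝ) = 0
  · simp [hp]
  · field_simp

theorem eqd_mono {f : ℤ[X]} {k : ℕ} {Y : ℝ} {U K' : ℕ} {δ δ' : ℝ} {a : ℤ}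
    (hY : 0 ≤ Real.log Y) (h : δ ≤ δ') (hE : Eqd f k Y U K' δ a) : Eqd f k Y U K' δ' a :=
  ⟨hE.1.trans h, hE.2.1.trans (mul_le_mul_of_nonneg_right h hY), hE.2.2.trans h⟩

open Classical in
theorem miss (P P1 : Finset Pt) (n : Pt → ℝ) (A G : Pt → Prop) (hn : ∀ z ∈ P, 0 ≤ n z) :
    ∑ z ∈ P.filter A \ P1.filter fun z => A z ∧ G z, n z ≤
      ∑ z ∈ P.filter fun z => A z ∧ ¬G z, n z + ∑ z ∈ (P \ P1).filter A, n z := by
  have h1 : P.filter A \ P1.filter (fun z => A z ∧ G z) ⊆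
      P.filter (fun z => A z ∧ ¬G z) ∪ (P \ P1).filter A := by
    intro z hz
    simp only [mem_sdiff, mem_filter, mem_union] at hz ⊢
    tauto
  have h2 : ∀ z ∈ P.filter (fun z => A z ∧ ¬G z) ∪ (P \ P1).filter A, 0 ≤ n z := by
    intro z hz
    simp only [mem_sdiff, mem_filter, mem_union] at hz
    exact hn z (by tauto)
  refine (sum_le_sum_of_subset_of_nonneg h1 fun z hz _ => h2 z hz).trans ?_
  rw [← sum_union_inter]
  exact le_add_of_nonneg_right
    (sum_nonneg fun z hz => h2 z (mem_union_left _ (mem_inter.1 hz).1))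

end XDel

open XDel in
theorem xDel : OfXDel := by
  classical
  intro hPt hSc hCel hLsv hMass hGood hNorm hA hB f t0 A0 hcrv Km K J e Λ3 hKm hK hJ he he1 hΛ hΛe
  obtain ⟨Ya, hYa⟩ := hGood f t0 A0 hcrv Km e hKm he
  obtain ⟨Yb, hYb⟩ := hMass f t0 A0 hcrv K e hK he
  refine ⟨max (max Ya Yb) (max 10 (320 * (J + 4) / e ^ 4)), ?_⟩
  intro W k0 U Y G H2 hsc hY hU hH2 hL hG hmis
  have hY1 : Ya ≤ Y := (le_max_left _ _).trans ((le_max_left _ _).trans hY)
  have hY2 : Yb ≤ Y := (le_max_right _ _).trans ((le_max_left _ _).trans hY)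
  have hY3 : 10 ≤ Y := (le_max_left _ _).trans ((le_max_right _ _).trans hY)
  have hY4 : 320 * ((J : ℝ) + 4) / e ^ 4 ≤ Y :=
    (le_max_right _ _).trans ((le_max_right _ _).trans hY)
  obtain ⟨-, -, hL19, -, -, -, -, -, hn, -⟩ := hSc W k0 Y hsc
  have hY0 : 0 < Y := by linarith
  have hL0 : 0 < Lc W k0 := lt_of_lt_of_le (by positivity) hL19
  have hlog : 0 < Real.log Y := Real.log_pos (by linarith)
  have hW : 0 < W := by have := hsc.two; omega
  obtain ⟨hcz, htot, hcell⟩ := hYb Y U hY2 hU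
  have hbad := hYa W k0 Y U hY1 hsc hU
  set H3 := H2.filter (Eqd f k0 Y U Km e) with hH3
  have hsub3 : H3 ⊆ H2 := filter_subset _ _
  have hmis' : ∀ a ∈ H2, ∑ z ∈ (Pts f Y (Y ^ 2)).filter fun z =>
      On a ((k0 : ℤ) ^ 2) z ∧ ¬G a z, n0 Y z ≤ e ^ 3 / 8 := by
    intro a ha
    have := hmis a ha
    unfold PtsOn at this
    rw [filter_filter] at this
    convert this
  have hD : DelH (Pts f Y (Y ^ 2)) (HH0 t0 W k0) H3 ((k0 : ℤ) ^ 2) (n0 Y) G (cellOf t0 k0 J) J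
      (Lc W k0) (40 / Y) e (e ^ 3 / 8) := by
    refine ⟨(hLsv f t0 W k0 Y hsc hY3).1, hsub3.trans hH2,
      ⟨hL0, he, he1, by positivity, le_rfl, ?_⟩, fun z hz => ⟨(mem_Pts.1 hz).1.1.pos, (hn f z hz).1.le⟩,
      htot, fun z hz => ?_, fun a ha => ?_, fun a ha => ?_⟩
    · have he4 : 0 < e ^ 4 := by positivity
      rw [div_le_iff₀ he4] at hY4
      rw [← mul_div_assoc, div_le_iff₀ hY0]
      linarith
    · obtain ⟨h1, h2, -, h4, -⟩ := hPt f z (mem_Pts.1 hz).1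
      refine ⟨mem_Pts.2 ⟨h1, (mem_Pts.1 hz).2⟩, fun a => ⟨h4 a _, fun h => ?_, hG a z⟩⟩
      have := hG a _ h
      rwa [h2] at this
    · exact ((hCel t0 W k0 J hW hsc.dvd hJ).2 a (hH2 (hsub3 ha))).1
    · convert hmis' a (hsub3 ha)
  obtain ⟨HH, P1, hM⟩ := hA _ _ _ _ _ _ _ _ _ _ _ _ hD
  have hC := hB _ _ _ _ _ _ _ _ _ _ _ _ _ _ hD hM
  refine ⟨HH, P1, ⟨hM.subH.trans hsub3, ?_⟩, ⟨hM.subP, hM.cj, ?_⟩, hC, ?_, fun a ha => ?_⟩
  · have h1 : H2.card ≤ HH.card + (H3 \ HH).card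
        + ((HH0 t0 W k0).filter fun a => ¬Eqd f k0 Y U Km e a).card := by
      refine le_trans (card_le_card (t := HH ∪ (H3 \ HH) ∪
        (HH0 t0 W k0).filter fun a => ¬Eqd f k0 Y U Km e a) ?_)
        ((card_union_le _ _).trans (Nat.add_le_add_right (card_union_le _ _) _))
      intro a ha
      have := hH2 ha
      simp only [hH3, mem_union, mem_sdiff, mem_filter]
      tauto
    have h2 : (H2.card : ℝ) ≤ HH.card + (H3 \ HH).card
        + ((HH0 t0 W k0).filter fun a => ¬Eqd f k0 Y U Km e a).card := by exact_mod_cast h1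
    have h3 := hM.card
    have h4 : (H2.card : ℝ) ≤ HH.card + 3 / 2 * (e * Lc W k0) := by
      have h5 : (((HH0 t0 W k0).filter fun a => ¬Eqd f k0 Y U Km e a).card : ℝ) ≤ e * Lc W k0 := by
        convert hbad
      linarith
    have h6 := mul_le_mul_of_nonneg_left h4 hΛ.le
    have h7 := mul_le_mul_of_nonneg_right hΛe hL0.le
    nlinarith
  · exact (sum_le_sum_of_subset_of_nonneg hM.subP fun z hz _ => (hn f z hz).2.2.2.1.le).trans htot
  · have := (hNorm (Pts f Y (Y ^ 2)) P1 (sg Y) (cz Y U K) K e e hM.subP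
      (fun z hz => ⟨(hn f z hz).2.2.2.1.le, (hcz z hz).2⟩) hM.mass hcell hK).1
    linarith
  · have hE : Eqd f k0 Y U Km e a := (mem_filter.1 (hM.subH ha)).2
    have he3 : e ^ 3 ≤ e := by
      have : e ^ 3 ≤ e ^ 1 := pow_le_pow_of_le_one he.le he1 (by norm_num)
      simpa using this
    have h1 : ∑ z ∈ PtsOn f Y (Y ^ 2) a ((k0 : ℤ) ^ 2) \
        P1.filter fun z => On a ((k0 : ℤ) ^ 2) z ∧ G a z, n0 Y z ≤ 2 * e := by
      have h2 := miss (Pts f Y (Y ^ 2)) P1 (n0 Y) (On a ((k0 : ℤ) ^ 2)) (G a)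
        fun z hz => (hn f z hz).1.le
      have h3 := hmis' a (hsub3 (hM.subH ha))
      have h4 := hM.lose a ha
      have h5 : ∑ z ∈ PtsOn f Y (Y ^ 2) a ((k0 : ℤ) ^ 2) \
          P1.filter fun z => On a ((k0 : ℤ) ^ 2) z ∧ G a z, n0 Y z ≤ e ^ 3 / 8 + e := by
        exact h2.trans (add_le_add h3 h4)
      linarith
    have hZ : P1.filter (fun z => On a ((k0 : ℤ) ^ 2) z ∧ G a z)
        ⊆ PtsOn f Y (Y ^ 2) a ((k0 : ℤ) ^ 2) := by
      intro z hz
      rw [mem_filter] at hz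
      unfold PtsOn
      rw [mem_filter]
      exact ⟨hM.subP hz.1, hz.2.1⟩
    have h0 : 0 ≤ ∑ z ∈ PtsOn f Y (Y ^ 2) a ((k0 : ℤ) ^ 2) \
        P1.filter fun z => On a ((k0 : ℤ) ^ 2) z ∧ G a z, n0 Y z := by
      refine sum_nonneg fun z hz => (hn f z ?_).1.le
      have := (mem_sdiff.1 hz).1
      unfold PtsOn at this
      exact (mem_filter.1 this).1
    have h6 := sum_sdiff (f := n0 Y) hZ
    have h7 := hE.2.1
    rw [zm_eq _ Y hlog.ne', ← h6, abs_le] at h7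
    refine ⟨eqd_mono hlog.le (by linarith) hE, by convert h1, ?_⟩
    rw [zm_eq _ Y hlog.ne', abs_le]
    have h8 := mul_le_mul_of_nonneg_left h1 hlog.le
    have h9 := mul_nonneg hlog.le h0
    have h10 := mul_pos he hlog
    constructor <;> nlinarith [h7.1, h7.2]

end Pool.Agent.MP_f3836a_nt.VE
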