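import Pool.Agent.MP_f3836a_nt.VE.SpecE3

/-! The concrete family satisfies the hypotheses of the equidistribution theorem. -/

set_option autoImplicit false

namespace Pool.Agent.MP_f3836a_nt.VE

open Finset

namespace XFam

theorem mem_sing {S : Finset Pt} {x : Multiset Pt} (h : x ∈ sing S) : ∃ z ∈ S, x = {z} := by
  obtain ⟨z, hz, rfl⟩ := mem_image.1 h
  exact ⟨z, hz, rfl⟩

theorem tot_add (Y : ℝ) (U : ℕ) (T T' : Multiset Pt) :
    tot Y U (T + T') = tot Y U T + tot Y U T' := by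
  simp [tot]

theorem tot_hi {Y : ℝ} (hY : 1 < Y) (U : ℕ) (T : Multiset Pt)
    (h : ∀ z ∈ T, Y ≤ z.p ∧ (z.p : ℝ) < Y ^ 2) : tot Y U T ≤ T.card * U := by
  have hl := Real.log_pos hY
  refine (Multiset.sum_le_card_nsmul _ U fun x hx => ?_).trans (by simp)
  obtain ⟨z, hz, rfl⟩ := Multiset.mem_map.1 hx
  obtain ⟨h1, h2⟩ := h z hz
  rw [ut, if_pos h1, pos]
  refine Nat.floor_le_of_le ?_
  have h3 := Real.log_le_log (by linarith) h2.le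
  rw [Real.log_pow, Nat.cast_ofNat] at h3
  rw [div_div_eq_mul_div, div_le_iff₀ hl, mul_comm]
  exact mul_le_mul_of_nonneg_left (by linarith) U.cast_nonneg

theorem tot_lo {Y : ℝ} (hY : 1 < Y) (U : ℕ) (T : Multiset Pt)
    (h : ∀ z ∈ T, z.p.Prime ∧ (z.p : ℝ) < Y) :
    0 < nT T ∧ (tot Y U T : ℝ) * Real.log Y ≤ U * Real.log (nT T) := by
  have hl := Real.log_pos hY
  induction T using Multiset.induction_on with
  | empty => simp [nT, tot]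
  | cons z T ih =>
    obtain ⟨h1, h2⟩ := ih fun w hw => h w (Multiset.mem_cons_of_mem hw)
    obtain ⟨h3, h4⟩ := h z (Multiset.mem_cons_self _ _)
    have e1 : nT (z ::ₘ T) = z.p * nT T := by simp [nT]
    have e2 : tot Y U (z ::ₘ T) = ut Y U z.p + tot Y U T := by simp [tot]
    have h5 : (ut Y U z.p : ℝ) * Real.log Y ≤ U * Real.log z.p := by
      rw [ut, if_neg h4.not_ge, pos, sub_zero, ← le_div_iff₀ hl, div_div_eq_mul_div, mul_comm]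
      exact Nat.floor_le (by have := Real.log_natCast_nonneg z.p; positivity)
    refine ⟨e1 ▸ Nat.mul_pos h3.pos h1, ?_⟩
    rw [e1, e2, Nat.cast_mul, Real.log_mul (by exact_mod_cast h3.ne_zero)
      (by exact_mod_cast h1.ne'), Nat.cast_add]
    linarith

variable {D : Dat} {Z0 : ℤ → Multiset Pt → Prop}

theorem low (hL : FuLS) (h : D.Pre Z0) {j t : ℕ} (h1 : D.k ≤ j) (h2 : j ≤ D.k + 2)
    (ht : t ≤ 4 * (D.K * D.r)) : 1 / D.Λ ≤ Fu (D.K * D.r) j (D.v - t) := by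
  obtain ⟨f1, f2, f3, f4, f5, f6⟩ := h.fu
  have hj : 1 ≤ j := by
    have : 0 < 400 * (2 * D.N + 5) ^ 2 := by positivity
    omega
  have g1 : (D.k : ℝ) ≤ j := by exact_mod_cast h1
  have g2 : (j : ℝ) ≤ D.k + 2 := by exact_mod_cast h2
  have g3 : (1 : ℝ) ≤ j := by exact_mod_cast hj
  refine le_trans ?_ (hL _ j (2 * D.N + 4) _ f1 (f2.mul_left _) (h2.trans f4) (by positivity) ?_ ?_)
  · refine one_div_le_one_div_of_le (by positivity) ?_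
    have : √(j : ℝ) ≤ j := Real.sqrt_le_iff.2 ⟨by positivity, by nlinarith⟩
    linarith
  · have : ((400 * (2 * D.N + 5) ^ 2 : ℕ) : ℝ) ≤ j := by exact_mod_cast f3.trans h1
    push_cast at this
    linarith [show (2 * (D.N : ℝ) + 4 + 1) ^ 2 = (2 * D.N + 5) ^ 2 by ring]
  · have g4 : (t : ℝ) ≤ 4 * (D.K * D.r : ℕ) := by exact_mod_cast ht
    generalize D.K * D.r = U at *
    have g5 : (0 : ℝ) ≤ U := U.cast_nonneg
    have g6 : (0 : ℝ) ≤ t := t.cast_nonneg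
    have g7 := mul_le_mul_of_nonneg_right g1 g5
    have g8 := mul_le_mul_of_nonneg_right g2 g5
    rw [abs_le] at f6 ⊢
    push_cast at f6 ⊢
    constructor <;> nlinarith [f6.1, f6.2]

theorem memZ (h : D.Pre Z0) {a : ℤ} {z : Pt} (hz : z ∈ D.Z a) :
    IsPt D.Γ.f z ∧ D.Y ≤ z.p ∧ (z.p : ℝ) < D.Y ^ 2 ∧ On a ((D.k0 : ℤ) ^ 2) z ∧ D.G a z := by
  classical
  obtain ⟨h1, h2⟩ := mem_filter.1 hz
  obtain ⟨h3, h4, h5⟩ := mem_Pts.1 (h.p1 h1)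
  exact ⟨h3, h4, h5, h2⟩

theorem memT (hB : BlkS) (h : D.Pre Z0) {T : Multiset Pt} (hT : T ∈ D.TT) :
    Nd T ∧ T.card = D.N ∧
      ∀ z ∈ T, IsPt D.Γ.f z ∧ D.Y0 ≤ z.p ∧ (z.p : ℝ) < D.Y ∧ On D.t0 1 z := by
  classical
  obtain ⟨h1, h2, h3⟩ := ((hB _ _).1 T).1 (h.tt T hT).1
  refine ⟨h1, h2, fun z hz => ?_⟩
  obtain ⟨h4, h5⟩ := mem_filter.1 (h3 z hz)
  obtain ⟨h6, h7, h8⟩ := mem_Pts.1 h4
  exact ⟨h6, h7, h8.trans_le h.win.2.2, h5⟩

theorem ndvd (h : D.Pre Z0) {p : ℕ} (hp : D.Y0 ≤ p) : ¬p ∣ D.Γ.W := fun hd => by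
  have : (p : ℝ) ≤ D.Γ.W := by exact_mod_cast Nat.le_of_dvd h.gok.pos.1 hd
  linarith [h.win.1]

theorem dec (hB : BlkS) (h : D.Pre Z0) {a : ℤ} {T : Multiset Pt} {j : ℕ}
    (hT : D.ad (some a) T j) : Nd T ∧ ∃ T0 xs : Multiset Pt, T = xs + T0 ∧
      (T0 = 0 ∨ (T0 ∈ D.TT ∧ D.adm a T0)) ∧ (∀ z ∈ xs, z ∈ D.Z a) ∧ xs.card ≤ 2 ∧
      xs.card + j = D.k + 2 := by
  rcases hT with (⟨h1, rfl⟩ | ⟨x, hx, x', hx', rfl, h1, rfl⟩) |
    ⟨T0, h0, h1, ⟨rfl, rfl⟩ | ⟨x, hx, rfl, rfl⟩⟩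
  · obtain ⟨z, hz, rfl⟩ := mem_sing h1
    exact ⟨by simp [Nd], 0, {z}, by simp, Or.inl rfl, by simpa using hz, by simp,
      by rw [Multiset.card_singleton]; omega⟩
  · obtain ⟨z, hz, rfl⟩ := mem_sing hx
    obtain ⟨z', hz', rfl⟩ := mem_sing hx'
    refine ⟨h1, 0, {z} + {z'}, by simp, Or.inl rfl, fun w hw => ?_, by simp,
      by rw [Multiset.card_add, Multiset.card_singleton, Multiset.card_singleton]; omega⟩
    rcases Multiset.mem_add.1 hw with hw | hw <;> rwa [Multiset.mem_singleton.1 hw]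
  · exact ⟨(memT hB h h0).1, T, 0, by simp, Or.inr ⟨h0, h1⟩, by simp, by simp, by simp⟩
  · obtain ⟨z, hz, rfl⟩ := mem_sing hx
    refine ⟨?_, T0, {z}, rfl, Or.inr ⟨h0, h1⟩, by simpa using hz, by simp,
      by rw [Multiset.card_singleton]; omega⟩
    obtain ⟨h2, -, h3⟩ := memT hB h h0
    rw [Nd, Multiset.singleton_add, Multiset.map_cons, Multiset.nodup_cons]
    refine ⟨fun hm => ?_, h2⟩
    obtain ⟨w, hw, e⟩ := Multiset.mem_map.1 hm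
    have h4 := (h3 w hw).2.2.1
    rw [e] at h4
    exact h4.not_ge (memZ h hz).2.1

theorem shp (hL : FuLS) (hB : BlkS) (h : D.Pre Z0) (hY : 1 < D.Y) {a : ℤ} (ha : a ∈ D.HH) :
    Shp D.Γ.f D.Γ.W D.k0 D.N (D.K * D.r) (D.k + 2) D.Y D.Λ a D.v (D.Z a) (Z0 a) (D.ad (some a)) ∧
      ∀ T j, D.ad (some a) T j → (∀ z ∈ T, z.p ∉ D.LL (some a)) ∧ D.k ≤ j ∧ j ≤ D.k + 2 := by
  obtain ⟨a1, a2⟩ := h.adm a ha
  refine ⟨fun T j hT => ?_, fun T j hT => ?_⟩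
  · obtain ⟨h1, T0, xs, rfl, h2, h3, h4, h5⟩ := dec hB h hT
    have h6 : ∀ z ∈ T0, IsPt D.Γ.f z ∧ D.Y0 ≤ z.p ∧ (z.p : ℝ) < D.Y ∧
        On a ((D.k0 : ℤ) ^ 2) z := by
      intro z hz
      rcases h2 with rfl | ⟨h2, h2'⟩
      · simp at hz
      · obtain ⟨b1, b2, b3, -⟩ := (memT hB h h2).2.2 z hz
        exact ⟨b1, b2, b3, ((a1 _ h2').1 z hz).1⟩
    refine ⟨h1, fun z hz => ?_, low hL h (by omega) (by omega) ?_, T0, xs, rfl,
      h2.imp id fun h2 => ⟨(a1 _ h2.2).2, (memT hB h h2.1).2.1⟩, fun z hz => (h6 z hz).2.2.1,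
      h3, h4, h5⟩
    · rcases Multiset.mem_add.1 hz with hz | hz
      · obtain ⟨b1, b2, -, b3, -⟩ := memZ h (h3 z hz)
        exact ⟨b1, ndvd h (h.win.2.1.trans b2), b3⟩
      · obtain ⟨b1, b2, -, b3⟩ := h6 z hz
        exact ⟨b1, ndvd h b2, b3⟩
    · have b1 := tot_hi hY (D.K * D.r) xs fun z hz =>
        ⟨(memZ h (h3 z hz)).2.1, (memZ h (h3 z hz)).2.2.1⟩
      have b2 : tot D.Y (D.K * D.r) T0 ≤ 2 * (D.K * D.r) := by
        rcases h2 with rfl | ⟨h2, -⟩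
        · simp [tot]
        obtain ⟨b3, b4⟩ := tot_lo hY (D.K * D.r) T0 fun z hz => ⟨(h6 z hz).1.1, (h6 z hz).2.2.1⟩
        have b5 := Real.log_le_log (by exact_mod_cast b3) (h.tt _ h2).2.1
        rw [Real.log_pow, Nat.cast_ofNat] at b5
        have b6 := b4.trans (mul_le_mul_of_nonneg_left b5 (Nat.cast_nonneg _))
        rw [← mul_assoc, mul_comm _ (2 : ℝ)] at b6
        exact_mod_cast le_of_mul_le_mul_right b6 (Real.log_pos hY)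
      have b7 := Nat.mul_le_mul_right (D.K * D.r) h4
      rw [tot_add]
      omega
  · obtain ⟨-, T0, xs, rfl, h2, h3, h4, h5⟩ := dec hB h hT
    refine ⟨fun z hz => ?_, by omega, by omega⟩
    rcases Multiset.mem_add.1 hz with hz | hz
    · exact a2 z (memZ h (h3 z hz)).2.2.2.2
    · rcases h2 with rfl | ⟨-, h2⟩
      · simp at hz
      · exact ((a1 _ h2).1 z hz).2

theorem dec0 {St : Finset (Multiset Pt)} {κ j : ℕ} {T : Multiset Pt} (h : adS St κ T j) :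
    j ≤ κ + 2 ∧ ∀ z ∈ T, ∃ x ∈ St, z ∈ x := by
  rcases h with ⟨h1, rfl⟩ | ⟨x, hx, x', hx', rfl, -, rfl⟩
  · exact ⟨by omega, fun z hz => ⟨T, h1, hz⟩⟩
  · exact ⟨by omega, fun z hz => (Multiset.mem_add.1 hz).elim (fun h => ⟨x, hx, h⟩)
      fun h => ⟨x', hx', h⟩⟩

end XFam

open XFam in
theorem xFam : OfXFam := by
  intro hU hL hC hN hS hB D Z0 h
  obtain ⟨s1, s2, -, -, -, -, -, s3, -⟩ := hS _ _ _ h.sc
  have hY : 1 < D.Y := by linarith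
  obtain ⟨n1, n2, n3, n4, n5, n6, n7⟩ := h.num
  have hcu : ∀ c, (D.Φ.cu c).Ok D.Γ := by
    rintro (_ | a)
    · exact h.c0
    · exact hC _ _ _ _ _ h.crv h.gok h.sc.dvd s2 h.sc.rad (h.hh a.2)
  have hst : ∀ c, ∀ s ∈ D.Φ.St c, 0 ≤ D.Φ.w c s ∧ ∀ z ∈ s, D.Y0 ≤ z.p ∧ z.p.Prime := by
    rintro (_ | a) s hs
    · exact ⟨(h.tt s hs).2.2.1, fun z hz =>
        ⟨((memT hB h hs).2.2 z hz).2.1, ((memT hB h hs).2.2 z hz).1.1⟩⟩
    · refine ⟨div_nonneg (Real.log_natCast_nonneg _) (sum_nonneg fun z _ =>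
        div_nonneg (Real.log_natCast_nonneg _) (Nat.cast_nonneg _)), fun z hz => ?_⟩
      obtain ⟨w, hw, rfl⟩ := mem_sing hs
      rw [Multiset.mem_singleton.1 hz]
      exact ⟨h.win.2.1.trans (memZ h hw).2.1, (memZ h hw).1.1⟩
  refine ⟨⟨fun c => ⟨hcu c, ?_⟩, ?_, fun c s hs => ⟨(hst c s hs).1, fun z hz =>
    ((hst c s hs).2 z hz).1⟩, ?_, ?_, ?_, ?_, fun c x hx => (hN _ D.t0 _ h.gok (hcu c) h.ngr ?_ ?_
    x hx).2.1, ⟨?_, n1, n2, n3, n4, one_le_pow₀ hY.le, by positivity, by nlinarith, n7⟩, h.deg,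
    h.bdy, fun c s hs z hz => ((hst c s hs).2 z hz).2⟩,
    fun t ht => low hL h le_rfl (by omega) (by omega)⟩
  · rcases c with _ | a
    · exact h.ht.1
    · exact h.ht.2 a a.2
  · rintro (_ | a) (_ | a') hne
    · exact absurd rfl hne
    · have := (s3 _ _ (h.hh a'.2)).1
      change D.t0 * (D.k0 : ℤ) ^ 2 - a' * 1 ^ 2 ≠ 0
      omega
    · have := (s3 _ _ (h.hh a.2)).1
      change (a : ℤ) * 1 ^ 2 - D.t0 * (D.k0 : ℤ) ^ 2 ≠ 0
      omega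
    · change (a : ℤ) * (D.k0 : ℤ) ^ 2 - a' * (D.k0 : ℤ) ^ 2 ≠ 0
      rw [← sub_mul]
      exact mul_ne_zero (sub_ne_zero.2 fun e => hne (congrArg some (Subtype.ext e)))
        (by positivity)
  · rintro (_ | a)
    · exact h.rho.1
    · exact h.rho.2 a a.2
  · rintro (_ | a)
    · exact h.ll.1
    · exact h.ll.2 a a.2
  · rintro (_ | a) T j hT
    · obtain ⟨d1, d2⟩ := dec0 hT
      refine ⟨fun z hz => ?_, (h.f0 T j hT).1, (h.f0 T j hT).2, fun x =>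
        (div_le_iff₀ h.rho.1).2 (h.rw0 T j _ d1 fun z hz => ?_)⟩
      · obtain ⟨x, hx, hz⟩ := d2 z hz
        exact ⟨((memT hB h hx).2.2 z hz).2.2.2, (h.tt x hx).2.2.2 z hz⟩
      · obtain ⟨x, hx, hz⟩ := d2 z hz
        obtain ⟨b1, b2, -, b3⟩ := (memT hB h hx).2.2 z hz
        exact ⟨b1, ndvd h b2, b3⟩
    · obtain ⟨d1, d2⟩ := shp hL hB h hY a.2
      obtain ⟨-, b1, b2, -⟩ := d1 T j hT
      obtain ⟨b3, b4, b5⟩ := d2 T j hT
      have hj : 1 ≤ j := by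
        have : 0 < 400 * (2 * D.N + 5) ^ 2 := by positivity
        have := h.fu.2.2.1
        omega
      exact ⟨fun z hz => ⟨(b1 z hz).2.2, b3 z hz⟩, b2, ((hU _ j _ 0 h.fu.1).2.1 hj).trans n2,
        fun x => (div_le_iff₀ (h.rho.2 a a.2)).2 (h.rw1 a a.2 T j _ b5 b1)⟩
  · rintro (_ | a)
    · exact h.sfe0
    · exact h.sfe1 a a.2 _ (shp hL hB h hY a.2).1
  · rcases c with _ | a
    · change D.t0 * 1 ^ 2 ≤ D.t0
      omega
    · exact (s3 _ _ (h.hh a.2)).1.le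
  · rcases c with _ | a
    · change D.t0 ≤ (D.t0 + 1) * 1 ^ 2
      omega
    · exact (s3 _ _ (h.hh a.2)).2.le
  · exact s1.le.trans (le_self_pow₀ hY.le (by norm_num))

end Pool.Agent.MP_f3836a_nt.VE
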