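import Pool.Agent.MP_f3836a_nt.VE.SpecE3

/-! Part E: the size of the box and the length of the tuples. -/

set_option autoImplicit false

namespace Pool.Agent.MP_f3836a_nt.VE

namespace XH

open Real

theorem side {R W : ℝ} (hW : 0 < W) (h : 2 * W ≤ R) : ∃ H : ℕ, R ≤ W * H ∧
    log R ≤ log (W * H) ∧ 2 * log (W * H) ≤ 2 * log R + 1 := by
  have R0 : 0 < R := by linarith
  have h1 : R ≤ W * ⌈R / W⌉₊ := (div_le_iff₀' hW).1 (Nat.le_ceil _)
  have h2 : (⌈R / W⌉₊ : ℝ) ≤ R / W + 1 := (Nat.ceil_lt_add_one (by positivity)).le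
  refine ⟨_, h1, log_le_log R0 h1, ?_⟩
  have h3 : W * ⌈R / W⌉₊ ≤ R * (3 / 2) := by
    have := mul_le_mul_of_nonneg_left h2 hW.le
    rw [mul_add, mul_div_cancel₀ _ hW.ne'] at this
    linarith
  have h4 := log_le_log (R0.trans_le h1) h3
  rw [log_mul R0.ne' (by norm_num)] at h4
  linarith [log_le_sub_one_of_pos (show (0 : ℝ) < 3 / 2 by norm_num)]

theorem len {l X : ℝ} {N U : ℕ} (hl : 0 < l) (hX : 0 ≤ X) (hN : 1 ≤ N) (hU : l ≤ U) :
    ∃ (kk : ℕ) (v : ℤ), N ∣ kk ∧ 3 / 2 * kk * l ≤ X ∧ X ≤ 3 / 2 * (kk + N) * l ∧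
      |l / U * v - (X - kk * l)| ≤ 1 ∧ |(v : ℝ) - kk * U / 2| ≤ 2 * N * U := by
  have N1 : (1 : ℝ) ≤ N := by exact_mod_cast hN
  have U0 : (0 : ℝ) < U := hl.trans_le hU
  have U1 : (1 : ℝ) ≤ U := by exact_mod_cast Nat.cast_pos.1 U0
  have d0 : 0 < 3 / 2 * N * l := by positivity
  obtain ⟨n, n1, n2⟩ : ∃ n : ℕ, n * (3 / 2 * N * l) ≤ X ∧ X ≤ (n + 1) * (3 / 2 * N * l) :=
    ⟨⌊X / (3 / 2 * N * l)⌋₊, (le_div_iff₀ d0).1 (Nat.floor_le (by positivity)),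
      (div_le_iff₀ d0).1 (Nat.lt_floor_add_one _).le⟩
  obtain ⟨y, hy⟩ : ∃ y : ℝ, X - N * n * l = l / U * y :=
    ⟨(X - N * n * l) * U / l, by field_simp⟩
  have y1 := Int.floor_le y
  have y2 := (Int.lt_floor_add_one y).le
  have q0 : 0 < l / U := by positivity
  have q1 : l / U ≤ 1 := (div_le_one U0).2 hU
  have e : l / U * (N * n * U / 2) = N * n * l / 2 := by field_simp
  have e' : l / U * (N * n * U / 2 + 3 / 2 * N * U) = N * n * l / 2 + 3 / 2 * N * l := by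
    field_simp
  have y3 : N * n * U / 2 ≤ y := le_of_mul_le_mul_left (by rw [e, ← hy]; linarith) q0
  have y4 : y ≤ N * n * U / 2 + 3 / 2 * N * U :=
    le_of_mul_le_mul_left (by rw [e', ← hy]; linarith) q0
  have NU : (1 : ℝ) ≤ N * U := one_le_mul_of_one_le_of_one_le N1 U1
  refine ⟨N * n, ⌊y⌋, dvd_mul_right _ _, ?_, ?_, ?_, ?_⟩ <;> push_cast
  · linarith
  · linarith
  · rw [hy, ← mul_sub, abs_mul, abs_of_pos q0]
    exact mul_le_one₀ q1 (abs_nonneg _) (abs_le.2 ⟨by linarith, by linarith⟩)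
  · exact abs_le.2 ⟨by linarith, by linarith⟩

theorem ex1 {Y Z : ℝ} (m : ℕ) (hY : 0 < Y) (hZ : 0 < Z) :
    exp ((40 * m * log Y + 2 * log Z) / 2) = Y ^ (20 * m) * Z := by
  rw [show (40 * m * log Y + 2 * log Z) / 2 = (20 * m : ℕ) * log Y + log Z by push_cast; ring,
    exp_add, exp_nat_mul, exp_log hY, exp_log hZ]

theorem ex2 {Z : ℝ} (c : ℝ) (hZ : 0 < Z) : exp ((2 * log Z + c) / 2) = Z * exp (c / 2) := by
  rw [show (2 * log Z + c) / 2 = log Z + c / 2 by ring, exp_add, exp_log hZ]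

theorem ex3 (x : ℝ) : exp x = exp (x / 2) ^ 2 := by rw [sq, ← exp_add, add_halves]

theorem vol {Y W H U c : ℝ} (m n : ℕ) (hn : n ≤ 20 * m) (hY : 1 ≤ Y)
    (hc : (W * c) ^ 2 ≤ Y) (hU : Y ^ (84 * m + 702) ≤ U) :
    (Y ^ n * (W * H * c)) ^ 2 * Y ≤ (H / Y ^ (22 * m + 350)) ^ 2 * U := by
  have Y0 : 0 < Y := by linarith
  rw [div_pow, div_mul_eq_mul_div, le_div_iff₀ (by positivity)]
  calc _ = H ^ 2 * ((W * c) ^ 2 * Y ^ (2 * n + 44 * m + 701)) := by ring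
    _ ≤ H ^ 2 * (Y * Y ^ (84 * m + 701)) := by
      gcongr
      omega
    _ ≤ _ := by
      rw [← pow_succ']
      gcongr

theorem bdy {Y H C H1 : ℝ} (m : ℕ) (hY : 2 ≤ Y) (hC : 4 * |C| ≤ Y) (hH : Y ^ (22 * m + 750) ≤ H)
    (h1 : H / Y ≤ H1 + 1) :
    C * Y * (H / Y ^ (22 * m + 350) + 1) * (Y ^ 16) ^ 5 * (2 * Y ^ 21) ^ (m + 12) ≤ H1 := by
  have Y0 : 0 < Y := by linarith
  have Y1 : 1 ≤ Y := by linarith
  have H0 : 0 < H := lt_of_lt_of_le (by positivity) hH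
  have a1 : 1 ≤ H / Y ^ (22 * m + 350) :=
    (one_le_div (by positivity)).2 ((pow_le_pow_right₀ Y1 (by omega)).trans hH)
  have a2 : 2 ≤ H / Y := by
    rw [le_div_iff₀ Y0]
    refine le_trans ?_ ((pow_le_pow_right₀ Y1 (show 2 ≤ _ by omega)).trans hH)
    nlinarith
  have a3 : 2 * Y ^ 21 ≤ Y ^ 22 := by
    rw [pow_succ' Y 21]
    gcongr
  have a4 : C ≤ Y / 4 := by linarith [le_abs_self C]
  calc _ ≤ Y / 4 * Y * (H / Y ^ (22 * m + 350) + H / Y ^ (22 * m + 350)) * (Y ^ 16) ^ 5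
        * (Y ^ 22) ^ (m + 12) := by gcongr
    _ = H / Y / 2 / Y ^ 3 := by field_simp; ring
    _ ≤ H / Y / 2 := div_le_self (by positivity) (one_le_pow₀ Y1)
    _ ≤ _ := by linarith

end XH

open XH Real in
theorem xH : XHS := by
  intro m W N A E1 κ cp Cn Cq hW hN hE hA hκ
  refine ⟨2 + |Cn| + 4 * |Cq| + W ^ 2 * exp |cp| + exp (|cp| + 1),
    fun Y Y0 X1 U hY h0 hA' hU x1 x2 => ?_⟩
  have W1 : (1 : ℝ) ≤ W := by exact_mod_cast hW
  have N1 : (1 : ℝ) ≤ N := by exact_mod_cast hN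
  have A1 : 1 ≤ A := le_trans (Nat.mul_pos hE hN) hA
  have p1 := abs_nonneg Cn
  have p2 := abs_nonneg Cq
  have p3 : 0 ≤ (W : ℝ) ^ 2 * exp |cp| := by positivity
  have p4 := (exp_pos (|cp| + 1)).le
  have p5 := le_abs_self cp
  have p6 := neg_abs_le cp
  have p7 := abs_nonneg cp
  have Y2 : 2 ≤ Y := by linarith
  have Y1 : 1 ≤ Y := by linarith
  have Yp : 0 < Y := by linarith
  have hw : (W : ℝ) ^ 2 * exp |cp| ≤ Y := by linarith
  have hl : |cp| + 1 ≤ log Y := (le_log_iff_exp_le Yp).2 (by linarith)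
  have l0 : 0 < log Y0 := log_pos h0
  have ll : log Y = A * log Y0 := by rw [← hA', log_pow]
  have YY : Y0 ≤ Y := hA' ▸ le_self_pow₀ h0.le (by omega)
  have k1 : 2 * (A : ℝ) * (22 * m + 760) ≤ κ := by exact_mod_cast hκ
  have k2 : (E1 : ℝ) * N ≤ A := by exact_mod_cast hA
  have m0 : (0 : ℝ) ≤ m := Nat.cast_nonneg m
  have κ0 : (0 : ℝ) ≤ κ := Nat.cast_nonneg κ
  have x3 : κ * log Y0 ≤ X1 := le_trans (by gcongr; exact le_mul_of_one_le_right κ0 N1) x1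
  have x4 : 2 * (22 * m + 760) * log Y ≤ κ * log Y0 := by
    rw [ll]
    linarith [mul_le_mul_of_nonneg_right k1 l0.le]
  have x5 : X1 ≤ 2 * κ * log Y := by
    rw [ll]
    linarith [mul_le_mul_of_nonneg_left k2 (mul_nonneg κ0 l0.le)]
  have ml : 0 ≤ m * log Y := mul_nonneg m0 (by linarith)
  have e1 : 1 ≤ exp |cp| := one_le_exp p7
  have W2 : (W : ℝ) ^ 2 ≤ Y := (le_mul_of_one_le_right (by positivity) e1).trans hw
  have WY : (W : ℝ) ≤ Y := (le_self_pow₀ W1 two_ne_zero).trans W2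
  have hR : W * Y ^ (22 * m + 750) ≤ exp ((X1 - cp) / 2) := by
    calc _ ≤ Y * Y ^ (22 * m + 750) := by gcongr
      _ = exp ((22 * m + 751 : ℕ) * log Y) := by rw [exp_nat_mul, exp_log Yp]; ring
      _ ≤ _ := exp_le_exp.2 (by push_cast; linarith)
  have P2 : 2 ≤ Y ^ (22 * m + 750) := Y2.trans (le_self_pow₀ Y1 (by omega))
  obtain ⟨H, H1, H2, H3⟩ := side (R := exp ((X1 - cp) / 2)) (W := W) (by linarith)
    (le_trans (by rw [mul_comm]; gcongr) hR)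
  rw [log_exp] at H2 H3
  have hH : Y ^ (22 * m + 750) ≤ H := le_of_mul_le_mul_left (hR.trans H1) (by linarith)
  have H0 : (0 : ℝ) < H := by linarith
  have HY : Y ≤ H := (le_self_pow₀ Y1 (by omega)).trans hH
  have WH : (0 : ℝ) < W * H := by positivity
  have lU : log Y ≤ U := by
    linarith [log_le_sub_one_of_pos Yp, le_self_pow₀ Y1 (show 84 * m + 702 ≠ 0 by omega)]
  obtain ⟨kk, v, d1, d2, d3, d4, d5⟩ := len (l := log Y) (X := 40 * m * log Y + 2 * log (W * H))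
    (by linarith) (by linarith) hN lU
  have f1 : (⌊H / Y⌋₊ : ℝ) ≤ H / Y := Nat.floor_le (by positivity)
  have VY : H / Y ^ (22 * m + 350) * Y ≤ H / Y := by
    rw [le_div_iff₀ Yp, mul_assoc, div_mul_eq_mul_div, div_le_iff₀ (by positivity), ← sq]
    exact mul_le_mul_of_nonneg_left (pow_le_pow_right₀ Y1 (by omega)) H0.le
  have HH : H / Y ≤ H := div_le_self H0.le Y1
  refine ⟨H, ⌊H / Y⌋₊, kk, v, H / Y ^ (22 * m + 350), ⟨Nat.floor_pos.2 ((one_le_div Yp).2 HY),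
    Nat.cast_le.1 (f1.trans HH), ?_⟩, abs_le.2 ⟨by linarith, by linarith⟩, ⟨d1, ?_, ?_⟩,
    ⟨d4, d5⟩, ⟨?_, ?_, ?_⟩, ⟨?_, ?_⟩,
    bdy m Y2 (by linarith) hH (Nat.lt_floor_add_one _).le⟩
  · calc _ ≤ Y * (⌊H / Y⌋₊ : ℝ) := by gcongr; linarith [le_abs_self Cn]
      _ ≤ _ := (le_div_iff₀' Yp).1 f1
  · have : (κ : ℝ) * log Y0 ≤ 2 * A * (kk + N) * log Y0 := by
      have : 2 * A * (kk + N) * log Y0 = 4 / 3 * (3 / 2 * (kk + N) * log Y) := by rw [ll]; ring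
      linarith
    exact_mod_cast le_of_mul_le_mul_right this l0
  · have A2 : (1 : ℝ) ≤ A := by exact_mod_cast A1
    have k3 : 1 * log Y ≤ κ * log Y :=
      mul_le_mul_of_nonneg_right (by linarith [mul_nonneg (zero_le_one.trans A2) m0]) (by linarith)
    have : (kk : ℝ) * log Y ≤ (40 * m + 2 * κ) * log Y := by linarith
    exact_mod_cast le_of_mul_le_mul_right this (by linarith)
  · rw [le_div_iff₀ (by positivity), ← pow_add]
    rwa [show 400 + (22 * m + 350) = 22 * m + 750 by omega]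
  · rw [ex1 m Yp WH]
    refine (VY.trans HH).trans ?_
    exact (le_mul_of_one_le_left H0.le W1).trans (le_mul_of_one_le_left WH.le (one_le_pow₀ Y1))
  · rw [ex3, ex1 m Yp WH]
    simpa using vol (W := W) (c := 1) (H := H) m _ le_rfl Y1 (by rwa [mul_one]) hU
  · rw [ex2 cp WH]
    have h1 : 1 / Y ≤ exp (cp / 2) := by
      rw [one_div, ← exp_log Yp, ← exp_neg]
      exact exp_le_exp.2 (by linarith)
    calc _ ≤ H / Y ^ (22 * m + 350) * Y := by gcongr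
      _ ≤ 1 * H * (1 / Y) := VY.trans_eq (by ring)
      _ ≤ _ := by gcongr
  · rw [ex3, ex2 cp WH]
    have := vol (W := W) (c := exp (cp / 2)) (H := H) m 0 (by omega) Y1 (by
      rw [mul_pow, ← ex3]
      exact le_trans (by gcongr) hw) hU
    rw [pow_zero, one_mul] at this
    exact le_trans (by gcongr) this

end Pool.Agent.MP_f3836a_nt.VE
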