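import Pool.Agent.MP_f3836a_nt.VE.SpecE3

/-! Parts B and C for a small curve. -/

set_option autoImplicit false

namespace Pool.Agent.MP_f3836a_nt.VE

open Polynomial Finset

namespace XMainC

theorem nT_one (z : Pt) : nT {z} = z.p := by simp [nT]

theorem sum_sing (S : Finset Pt) (g : Multiset Pt → ℝ) : ∑ x ∈ sing S, g x = ∑ z ∈ S, g {z} :=
  sum_image fun _ _ _ _ h => Multiset.singleton_inj.1 h

theorem mem_sing {S : Finset Pt} {x : Multiset Pt} : x ∈ sing S ↔ ∃ z ∈ S, {z} = x := mem_image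

theorem mu1_one (P : Finset Pt) (z : Pt) : mu1 P {z} = lg z / z.p / Zm P := by
  simp only [mu1, w1, PT, nT_one, lg]
  ring

theorem sum_mu1 (P Z : Finset Pt) : ∑ x ∈ sing Z, mu1 P x = Zm Z / Zm P := by
  simp only [sum_sing, mu1_one, ← sum_div]
  rfl

theorem wt_eq {P : Finset Pt} (Z : Finset Pt) (h : Zm P ≠ 0) : BC.wt (sing Z) (mu1 P) = w1 Z := by
  funext x
  rw [BC.wt, BC.nz, sum_mu1, mu1, w1, w1, PT]
  rcases eq_or_ne (nT x : ℝ) 0 with h0 | h0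
  · simp [h0]
  rcases eq_or_ne (Zm Z) 0 with h1 | h1
  · simp [h1]
  field_simp

theorem nz_eq {P : Finset Pt} (Z : Finset Pt) {Y : ℝ} (h : Zm P ≠ 0) (hL : Real.log Y ≠ 0) (z : Pt) :
    BC.nz (sing Z) (mu1 P) {z} = n0 Y z / ∑ z' ∈ Z, n0 Y z' := by
  have e : ∑ z' ∈ Z, n0 Y z' = Zm Z / Real.log Y := by
    simp only [n0, ← div_div, ← sum_div]
    rfl
  rw [BC.nz, sum_mu1, mu1_one, e, n0, ← div_div, div_div_div_cancel_right₀ h,
    div_div_div_cancel_right₀ hL]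

/-- the two weights are comparable -/
theorem cmp {P : Finset Pt} {Y : ℝ} (hL : 0 < Real.log Y)
    (h : |Zm P - Real.log Y| ≤ Real.log Y / 2) {z : Pt} (h0 : 0 ≤ n0 Y z) :
    n0 Y z ≤ 2 * mu1 P {z} ∧ mu1 P {z} ≤ 2 * n0 Y z := by
  obtain ⟨h1, h2⟩ := abs_le.1 h
  have hZ : 0 < Zm P := by linarith
  rw [n0, ← div_div] at h0 ⊢
  rw [mu1_one]
  have h3 : 0 ≤ lg z / z.p := by simpa [hL.ne'] using mul_nonneg h0 hL.le
  generalize lg z / z.p = t at h3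
  rw [← mul_div_assoc, ← mul_div_assoc, div_le_div_iff₀ hL hZ, div_le_div_iff₀ hZ hL]
  constructor <;> nlinarith

theorem eta_one (Y : ℝ) (U : ℕ) : BC.eta 1 2 Y U = Real.log Y / U := by
  rw [BC.eta]
  norm_num

theorem uu_eq (Y : ℝ) (U : ℕ) (z : Pt) :
    BC.uu 1 2 Y U {z} = pos (Real.log Y) (Real.log Y / U) z.p := by
  rw [BC.uu, eta_one, nT_one, pos, Nat.cast_one, one_mul]

theorem pos_le {L η : ℝ} {n : ℕ} (hη : 0 < η) (h : L ≤ Real.log n) :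
    |η * pos L η n - (Real.log n - L)| ≤ η := by
  have h1 := Nat.floor_le (div_nonneg (sub_nonneg.2 h) hη.le)
  have h2 := Nat.lt_floor_add_one ((Real.log n - L) / η)
  rw [le_div_iff₀ hη] at h1
  rw [div_lt_iff₀ hη] at h2
  rw [pos, abs_le]
  constructor <;> linarith

theorem tot_le {Y L η : ℝ} {U : ℕ} (T : Multiset Pt)
    (h : ∀ z ∈ T, z.p ≠ 0 ∧ |η * ut Y U z.p - (Real.log z.p - L)| ≤ η) :
    nT T ≠ 0 ∧ |η * tot Y U T - (Real.log (nT T) - T.card * L)| ≤ T.card * η := by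
  induction T using Multiset.induction_on with
  | empty => simp [nT, tot]
  | cons z T ih =>
    obtain ⟨h1, h2⟩ := ih fun z' hz => h z' (Multiset.mem_cons_of_mem hz)
    obtain ⟨h3, h4⟩ := h z (Multiset.mem_cons_self _ _)
    have e1 : nT (z ::ₘ T) = z.p * nT T := by simp [nT]
    have e2 : tot Y U (z ::ₘ T) = ut Y U z.p + tot Y U T := by simp [tot]
    refine ⟨e1 ▸ mul_ne_zero h3 h1, ?_⟩
    rw [e1, e2, Multiset.card_cons]
    push_cast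
    rw [Real.log_mul (Nat.cast_ne_zero.2 h3) (Nat.cast_ne_zero.2 h1)]
    rw [abs_le] at *
    constructor <;> linarith [h2.1, h2.2, h4.1, h4.2]

/-- the shift of the argument is small -/
theorem shift {Y X : ℝ} {U N j κ : ℕ} {v v' : ℤ} {xs T0 : Multiset Pt} (hY : 1 < Y) (hU : 0 < U)
    (h1 : ∀ z ∈ xs, Y ≤ z.p) (h2 : ∀ z ∈ T0, z.p ≠ 0 ∧ (z.p : ℝ) < Y) (h3 : xs.card ≤ 2)
    (h4 : T0.card ≤ N) (h5 : xs.card + j = κ)
    (hv : |Real.log Y / U * v - (X - κ * Real.log Y)| ≤ 1)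
    (hv' : |Real.log Y / U * v' - (X - Real.log (nT (xs + T0)) - j * Real.log Y)| ≤ 3) :
    |(v' : ℝ) - ((v - tot Y U (xs + T0) : ℤ) : ℝ)| / U ≤ 4 / Real.log Y + (N + 2) / U := by
  have hL := Real.log_pos hY
  have hU' : (0 : ℝ) < U := by exact_mod_cast hU
  have hη : 0 < Real.log Y / U := by positivity
  obtain ⟨a1, a2⟩ := tot_le (Y := Y) (U := U) (L := Real.log Y) (η := Real.log Y / U) xs
    fun z hz => ⟨by have := h1 z hz; rintro e; rw [e] at this; norm_num at this; linarith, by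
      rw [ut, if_pos (h1 z hz)]
      exact pos_le hη (Real.log_le_log (by linarith) (h1 z hz))⟩
  obtain ⟨b1, b2⟩ := tot_le (Y := Y) (U := U) (L := 0) (η := Real.log Y / U) T0
    fun z hz => ⟨(h2 z hz).1, by
      rw [ut, if_neg (h2 z hz).2.not_ge]
      exact pos_le hη (Real.log_natCast_nonneg _)⟩
  have e1 : nT (xs + T0) = nT xs * nT T0 := by simp [nT]
  have e2 : tot Y U (xs + T0) = tot Y U xs + tot Y U T0 := by simp [tot]
  rw [e1, Nat.cast_mul, Real.log_mul (Nat.cast_ne_zero.2 a1) (Nat.cast_ne_zero.2 b1)] at hv'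
  rw [← h5] at hv
  rw [e2]
  push_cast at hv ⊢
  have c1 : (xs.card : ℝ) * (Real.log Y / U) ≤ 2 * (Real.log Y / U) := by
    gcongr
    exact_mod_cast h3
  have c2 : (T0.card : ℝ) * (Real.log Y / U) ≤ N * (Real.log Y / U) := by gcongr
  have key : Real.log Y / U * |(v' : ℝ) - (v - (tot Y U xs + tot Y U T0))|
      ≤ 4 + (N + 2) * (Real.log Y / U) := by
    rw [← abs_of_pos hη, ← abs_mul, abs_of_pos hη]
    rw [abs_le] at *
    constructor <;> linarith [hv.1, hv.2, hv'.1, hv'.2, a2.1, a2.2, b2.1, b2.2]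
  calc _ = Real.log Y / U * |(v' : ℝ) - (v - (tot Y U xs + tot Y U T0))| / Real.log Y := by
        field_simp
    _ ≤ (4 + (N + 2) * (Real.log Y / U)) / Real.log Y := by gcongr
    _ = _ := by field_simp

/-- the missing mass -/
theorem mis {P : Finset Pt} {μ : Multiset Pt → ℝ} {St1 : Finset (Multiset Pt)} {LL : Finset ℕ}
    {t s : ℝ} (h0 : ∀ x ∈ sing P, 0 ≤ μ x) (h1 : ∑ x ∈ sing P, μ x = 1) (h2 : St1 ⊆ sing P)
    (h3 : 1 - t ≤ ∑ x ∈ St1, μ x)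
    (h4 : ∀ p : ℕ, ∑ x ∈ (sing P).filter fun x => p ∈ x.map Pt.p, μ x ≤ s)
    {q : Pt → Prop} {_ : DecidablePred q} (hq : ∀ z, q z → ¬({z} ∈ St1 ∧ z.p ∉ LL)) {g : Pt → ℝ}
    (hg : ∀ z ∈ P, g z ≤ 2 * μ {z}) : ∑ z ∈ P.filter q, g z ≤ 2 * (t + LL.card * s) := by
  refine (sum_le_sum fun z hz => hg z (mem_filter.1 hz).1).trans ?_
  rw [← mul_sum]
  have a1 : ∑ z ∈ P, (if {z} ∈ St1 then μ {z} else 0) = ∑ x ∈ St1, μ x := by
    rw [← sum_sing P fun x => if x ∈ St1 then μ x else 0, sum_ite_mem, inter_eq_right.2 h2]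
  have a2 : ∑ z ∈ P, ∑ l ∈ LL, (if l = z.p then μ {z} else 0) ≤ LL.card * s := by
    rw [sum_comm, ← nsmul_eq_mul]
    refine sum_le_card_nsmul _ _ _ fun l _ => ?_
    have := h4 l
    rw [sum_filter, sum_sing] at this
    simpa using this
  rw [sum_sing] at h1
  have a3 : ∑ z ∈ P.filter q, μ {z} ≤ ∑ z ∈ P, (μ {z} - (if {z} ∈ St1 then μ {z} else 0) +
      ∑ l ∈ LL, (if l = z.p then μ {z} else 0)) := by
    rw [sum_filter]
    refine sum_le_sum fun z hz => ?_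
    have := h0 _ (mem_sing.2 ⟨z, hz, rfl⟩)
    have := hq z
    rw [sum_ite_eq']
    split_ifs <;> simp_all
  rw [sum_add_distrib, sum_sub_distrib, a1] at a3
  linarith

theorem decay {c d Cb : ℝ} {a b : ℕ} (hc : c ≤ 1) (hd0 : 0 < d) (hd : d ≤ 1) (hC : 1 / Cb ≤ c)
    (hC1 : 1 ≤ Cb) (hab : a ≤ b) : (1 - c * d ^ 2) ^ b ≤ (1 - d ^ 2 / Cb) ^ a ∧
      (1 - c) ^ b ≤ (1 - d ^ 2 / Cb) ^ a := by
  have h0 : 0 < 1 / Cb := by positivity
  have h1 : d ^ 2 ≤ 1 := pow_le_one₀ hd0.le hd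
  have h2 : d ^ 2 / Cb ≤ c * d ^ 2 := by
    rw [div_eq_mul_one_div, mul_comm]
    gcongr
  have h3 : c * d ^ 2 ≤ c := mul_le_of_le_one_right (by linarith) h1
  have h4 : 0 ≤ d ^ 2 / Cb := by positivity
  have h5 : (1 - c * d ^ 2) ^ b ≤ (1 - d ^ 2 / Cb) ^ a :=
    (pow_le_pow_left₀ (by linarith) (by linarith) b).trans
      (pow_le_pow_of_le_one (by linarith) (by linarith) hab)
  exact ⟨h5, (pow_le_pow_left₀ (by linarith) (by linarith) b).trans h5⟩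

theorem num {j κ kM J Km N U Y L δ C Cb θ θ' ε ε0 Λ F : ℝ} (hj0 : 0 ≤ j) (hj : j ≤ κ) (hκ : κ ≤ kM)
    (hJ : 0 ≤ J) (hN : 0 ≤ N) (hδ : 0 ≤ δ) (hK : 0 < Km) (hK' : Km * ε0 ≤ 1) (hY : 0 < Y)
    (hU : Y ≤ U) (hL : 0 < L) (h240 : 240 ≤ Cb) (h8 : 8 * C ≤ Cb) (hθ0 : 0 ≤ θ)
    (hθ : θ ≤ θ') (h1 : Cb * Λ * θ' ≤ ε) (h2 : Cb * Λ * κ * (δ + 1 / Km) ≤ ε) (hF : 1 / Λ ≤ F)
    (hε0 : 0 < ε0) (hε : ε0 ≤ ε) (hΛ : Λ * ε0 ≤ 1) (hΛ1 : 1 ≤ Λ) (s1 : 16 / ε0 ^ 2 ≤ L)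
    (s2 : 4 * (60 * kM * (J + 1 / ε0) + N + 2) / ε0 ^ 2 ≤ Y) :
    3 * j * (2 * (δ + δ) + 20 / Km + 20 * (J + Km) / U) + 2 * C * θ + (4 / L + (N + 2) / U)
      ≤ ε * F := by
  have hΛ0 : 0 < Λ := by linarith
  have e1 : ε / Λ ≤ ε * F := by
    rw [div_eq_mul_one_div]
    exact mul_le_mul_of_nonneg_left hF (by linarith)
  have e2 : ε0 ^ 2 ≤ ε / Λ := by
    rw [le_div_iff₀ hΛ0]
    nlinarith
  have hK1 : 0 < 1 / Km := by positivity
  have t1 : 240 * (κ * (δ + 1 / Km)) ≤ ε / Λ := by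
    rw [le_div_iff₀ hΛ0]
    have : 0 ≤ Λ * κ * (δ + 1 / Km) := by have : 0 ≤ κ := hj0.trans hj; positivity
    nlinarith
  have t1' : j * (δ + 1 / Km) ≤ κ * (δ + 1 / Km) := by gcongr
  have t2 : 8 * C * θ ≤ ε / Λ := by
    rw [le_div_iff₀ hΛ0]
    calc 8 * C * θ * Λ = 8 * C * Λ * θ := by ring
      _ ≤ Cb * Λ * θ' := by gcongr
      _ ≤ ε := h1
  have t3 : 16 / L ≤ ε0 ^ 2 := by
    rw [div_le_iff₀ (by positivity)] at s1 ⊢
    linarith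
  have t4 : 4 * (60 * j * (J + Km) + N + 2) / U ≤ ε0 ^ 2 := by
    have : Km ≤ 1 / ε0 := by rwa [le_div_iff₀ hε0]
    calc _ ≤ 4 * (60 * kM * (J + 1 / ε0) + N + 2) / Y := by
          have : 0 ≤ kM := hj0.trans (hj.trans hκ)
          gcongr
          linarith
      _ ≤ _ := by
          rw [div_le_iff₀ (by positivity)] at s2 ⊢
          linarith
  have t5 : 0 ≤ j * δ := by positivity
  have e : 3 * j * (2 * (δ + δ) + 20 / Km + 20 * (J + Km) / U) + 2 * C * θ + (4 / L + (N + 2) / U)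
      = 60 * (j * (δ + 1 / Km)) - 48 * (j * δ) + 8 * C * θ / 4 + 16 / L / 4
        + 4 * (60 * j * (J + Km) + N + 2) / U / 4 := by ring
  rw [e]
  linarith

end XMainC

set_option maxHeartbeats 1000000 in
open XMainC in
theorem xMainC : OfMainC := by
  intro hC hB hH hN hF hS f t0 A0 hcrv
  obtain ⟨C1, Ya, hH⟩ := hH f t0 A0 hcrv
  obtain ⟨N, M0, M1, Mx, d0, hN0, hd0, hC⟩ := hC 1 200 2 C1 le_rfl (by norm_num) le_rfl
  refine ⟨N, M0, M1, Mx, min d0 1, hN0, lt_min hd0 one_pos, fun E => ?_⟩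
  obtain ⟨k', J0, C, c, hk', hC1, hc0, hc1, hC⟩ := hC E
  obtain ⟨J1, k2, cb, C', hb0, hb1, -, hJ1, -, -, hB⟩ := hB k' C hk' hC1
  have p1 : 0 < 1 / c := by positivity
  have p2 : 0 < 1 / cb := by positivity
  obtain ⟨Cb, q1, q2, q3, q4⟩ : ∃ Cb : ℝ, 240 ≤ Cb ∧ 8 * C ≤ Cb ∧ 1 / Cb ≤ c ∧ 1 / Cb ≤ cb :=
    ⟨240 + 8 * C + 1 / c + 1 / cb, by linarith, by linarith,
      (one_div_le (by linarith) hc0).2 (by linarith), (one_div_le (by linarith) hb0).2 (by linarith)⟩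
  refine ⟨2 * k' + 4, Cb, by linarith, fun d W kM ε0 hd hd' hdd hW h6 hε0 => ?_⟩
  obtain ⟨J, hJ0, hJ⟩ : ∃ J, J0 ≤ J ∧ J1 ≤ J := ⟨max J0 J1, le_max_left _ _, le_max_right _ _⟩
  obtain ⟨Yb, hC⟩ := hC d W J kM 2 ε0 hd hd' (hdd.trans (min_le_left _ _)) hW hJ0 hε0
  refine ⟨max (max (max Ya Yb) (max J (1 / ε0))) (max ((2 * M1 / ε0) ^ 2)
    (max (Real.exp (16 / ε0 ^ 2)) (4 * (60 * kM * (J + 1 / ε0) + N + 2) / ε0 ^ 2))),
    fun k0 Y a hSc hY ha hsig hZm => ?_⟩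
  simp only [max_le_iff] at hY
  obtain ⟨⟨⟨y1, y2⟩, y3, y4⟩, y5, y6, y7⟩ := hY
  have hBH := hH W k0 Y a h6 hSc y1 ha hsig hZm
  obtain ⟨hY2, -, -, -, -, -, -, -, hn0, -⟩ := hS W k0 Y hSc
  obtain ⟨i, St1, LL, lab, Z0, ρ, hi, hSt, hcj, hm, hLL, hLL', z0, -, zl, hρ, hC⟩ :=
    hC Y _ _ _ _ _ y2 hBH
  generalize hP : PtsOn f Y (Y ^ 2) a ((k0 : ℤ) ^ 2) = P at *
  have hPt : ∀ z ∈ P, z ∈ Pts f Y (Y ^ 2) := fun z hz => by
    classical
    rw [← hP, PtsOn] at hz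
    exact (mem_filter.1 hz).1
  have hL : 0 < Real.log Y := Real.log_pos (by linarith)
  have hZP : Zm P ≠ 0 := fun e => by
    have := (abs_le.1 hZm).1
    rw [e] at this
    linarith
  have hcm := fun z (hz : z ∈ P) => cmp hL hZm (hn0 f z (hPt z hz)).1.le
  have hdi : d i ≤ 1 := (hd (Nat.zero_le i)).trans (hdd.trans (min_le_right _ _))
  refine ⟨⟨i, fun z => {z} ∈ St1 ∧ z.p ∉ LL, LL, fun z => lab z, Z0, ρ⟩, hi,
    fun z hz => ⟨⟨by simpa using hcj _ hz.1, hz.2⟩, hz.2⟩, ?_, ⟨hLL, hLL'⟩, fun z => (lab z).2,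
    fun T hT h => ?_, hρ, ?_⟩
  · rw [hP]
    refine (mis (LL := LL) hBH.pos hBH.tot hSt hm hBH.sml (fun _ h => h)
      fun z hz => (hcm z hz).1).trans ?_
    have h2 : 2 * M1 / ε0 ≤ √Y := Real.le_sqrt_of_sq_le y5
    have h3 : 0 < √Y := Real.sqrt_pos.2 (by linarith)
    have h4 : (LL.card : ℝ) * (1 / √Y) ≤ ε0 / 2 := by
      have : (LL.card : ℝ) ≤ M1 := by exact_mod_cast hLL
      rw [div_le_iff₀ hε0] at h2
      rw [mul_one_div, div_le_iff₀ h3]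
      linarith
    linarith
  · obtain ⟨z, hz⟩ := Multiset.card_pos_iff_exists_mem.1 (hT ▸ hN0 : 0 < T.card)
    exact zl T (lab z) hT fun z' hz' => Fin.ext (h z' hz' z hz)
  intro Z U Km δ hZ hδ hE h32 hYU hUE hKm hKε
  rw [hP] at hZ hδ
  obtain ⟨hE0, -, hE⟩ := hE
  rw [hP] at hE
  have hδ0 : 0 ≤ δ := (abs_nonneg _).trans hE0
  have hZP' : Z ⊆ P := fun z hz => (hZ z hz).1
  have hs1 : sing Z ⊆ St1 := fun x hx => by
    obtain ⟨z, hz, rfl⟩ := mem_sing.1 hx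
    exact (hZ z hz).2.1
  have hs2 : 1 - d i / 8 ≤ ∑ x ∈ sing Z, mu1 P x := by
    have h1 := hBH.tot
    rw [sum_sing, ← sum_sdiff hZP'] at h1
    have h2 : ∑ z ∈ P \ Z, mu1 P {z} ≤ ∑ z ∈ P \ Z, 2 * n0 Y z :=
      sum_le_sum fun z hz => (hcm z (mem_sdiff.1 hz).1).2
    rw [← mul_sum] at h2
    rw [sum_sing]
    change 32 * δ ≤ d i at h32
    linarith
  obtain ⟨hR, hC⟩ := hC (sing Z) hs1 hs2
  rw [wt_eq Z hZP] at hR hC
  refine ⟨hR, fun ad κ v X V Qm ε Λ ε' K hNm hNκ hκ hκ' hdec hdel hcen hshp => ?_⟩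
  obtain ⟨hu, hcv, hC⟩ := hC U hYU hUE
  obtain ⟨⟨n1, n2, n3, n4⟩, ⟨n5, n6, n7, n8⟩, n9, n10⟩ := hNm
  have hU2 : 2 ≤ U := by exact_mod_cast hY2.le.trans hYU
  have hKU : Km ≤ U := by
    have : (Km : ℝ) ≤ 1 / ε0 := by rwa [le_div_iff₀ hε0]
    exact_mod_cast this.trans (y4.trans hYU)
  have hcz : ∀ z, Km * BC.uu 1 2 Y U {z} / U = cz Y U Km z := fun z => by rw [uu_eq, cz]
  have hco := (hN P Z (n0 Y) (cz Y U Km) Km δ δ hZP' (fun z hz => ⟨(hn0 f z (hPt z hz)).1.le, by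
    rw [← hcz]
    exact Nat.div_lt_of_lt_mul (by
      rw [mul_comm U]; exact Nat.mul_lt_mul_of_pos_left (hu _ (mem_sing.2 ⟨z, hz, rfl⟩)) hKm)⟩)
    hδ hE hKm).2.2 (by change 32 * δ ≤ d i at h32; linarith)
  have hsum : 0 < ∑ x ∈ sing Z, mu1 P x := by linarith
  refine hC ad _ X V Qm ε Λ ε' K n1 n2 n3 n4 n5 n6 n7 n8
    (le_trans (mul_le_mul_of_nonneg_right (by linarith) (by linarith)) n9)
    (le_trans (mul_le_mul_of_nonneg_right (by linarith) (by linarith)) n10) fun T j hT => ?_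
  obtain ⟨s1, s2, s3, T0, xs, rfl, s4, s5, s6, s7, s8⟩ := hshp T j hT
  have hdc := fun {c : ℝ} (h : c ≤ 1) (h' : 1 / Cb ≤ c) => decay (a := κ - (2 * k' + 4))
    (b := j - 2 * k') h (hd' i) hdi h' (by linarith) (by omega)
  have hθ : 0 ≤ (1 - c * d i ^ 2) ^ (j - 2 * k') := pow_nonneg (by
    have : d i ^ 2 ≤ 1 := pow_le_one₀ (hd' i).le hdi
    nlinarith) _
  refine ⟨s1, s2, by omega, by omega, s3, le_trans ?_ hdec,
    ⟨T0, xs.map fun z => {z}, ?_, ?_, ?_, by simpa [s8] using hNκ⟩, fun v' hv' => ?_⟩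
  · exact mul_le_mul (le_mul_of_one_le_left (by linarith) (by linarith)) (hdc hc1 q3).1 hθ
      (by positivity)
  · rw [Multiset.sum_map_singleton, add_comm]
  · rcases s4 with rfl | h
    · exact z0
    · exact h.1
  · intro x hx
    obtain ⟨z, hz, rfl⟩ := Multiset.mem_map.1 hx
    exact (hZ z (s6 z hz)).2.1
  have b1 := (hB _ (sing Z) (BC.nz (sing Z) (mu1 P)) (BC.uu 1 2 Y U) U J j hJ
    (by exact_mod_cast y3.trans hYU) hU2
    (fun x hx => ⟨div_nonneg (hBH.pos x (hSt (hs1 hx))) hsum.le, hu x (hSt (hs1 hx))⟩)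
    (by simp only [BC.nz, ← sum_div]; exact div_self hsum.ne') hcv (by omega)).2.2.2 Km _ hKm hKU
    (le_of_eq_of_le (sum_congr rfl fun r _ => by
      rw [sum_filter, sum_sing, sum_filter]
      simp only [hcz, nz_eq Z hZP hL.ne']) hco) v'
  rw [eta_one, Nat.cast_one, one_mul] at hv'
  have b2 := ((hF U j v' (v - tot Y U (xs + T0)) (by omega)).2.2.1 (by omega)).trans
    (shift (N := N) (by linarith) (by omega)
      (fun z hz => (mem_Pts.1 (hPt z (hZP' (s6 z hz)))).2.1)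
      (fun z hz => ⟨(s2 z (Multiset.mem_add.2 (Or.inr hz))).1.1.ne_zero, s5 z hz⟩) s7
      (by rcases s4 with rfl | h; exacts [Nat.zero_le _, h.2.le]) s8 hcen (by linarith))
  refine (abs_sub_le _ _ _).trans ((add_le_add b1 b2).trans ?_)
  exact num (Nat.cast_nonneg j) (by exact_mod_cast (by omega : j ≤ κ)) (by exact_mod_cast hκ)
    (Nat.cast_nonneg J) (Nat.cast_nonneg N) hδ0 (by exact_mod_cast hKm) hKε (by linarith) hYU hL
    q1 q2 (pow_nonneg (by linarith) _) (hdc hb1 q4).2 hdec hdel s3 hε0 n1 n3 n4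
    ((Real.le_log_iff_exp_le (by linarith)).2 y6) y7

end Pool.Agent.MP_f3836a_nt.VE
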