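import Pool.Agent.MP_f3836a_nt.VE.SpecE4

/-! The construction of the system at one level. -/

set_option autoImplicit false

namespace Pool.Agent.MP_f3836a_nt.VE

open Polynomial Finset

namespace XTopL

theorem exl (L : List ℝ) : ∃ B : ℝ, ∀ x ∈ L, x ≤ B := by
  induction L with
  | nil => exact ⟨0, by simp⟩
  | cons a L ih =>
    obtain ⟨B, hB⟩ := ih
    refine ⟨max a B, fun x hx => ?_⟩
    rcases List.mem_cons.1 hx with rfl | hx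
    · exact le_max_left _ _
    · exact (hB x hx).trans (le_max_right _ _)

theorem mer (hM : MertS) : ∃ Y1 : ℝ, ∀ Y : ℝ, Y1 ≤ Y → ∀ P : Finset ℕ,
    (∀ p ∈ P, p.Prime ∧ Y ≤ p ∧ (p : ℝ) < Y ^ 2) → ∑ p ∈ P, (1 : ℝ) / p ≤ 2 := by
  classical
  obtain ⟨K, hK, h⟩ := hM
  refine ⟨max 2 (Real.exp K), fun Y hY P hP => ?_⟩
  have h2 : (2 : ℝ) ≤ Y := (le_max_left _ _).trans hY
  have hl : 0 < Real.log Y := Real.log_pos (by linarith)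
  have hKl : K ≤ Real.log Y := by
    rw [Real.le_log_iff_exp_le (by linarith)]
    exact (le_max_right _ _).trans hY
  set P' := (range ⌈Y ^ 2⌉₊).filter fun p : ℕ => p.Prime ∧ Y ≤ p ∧ (p : ℝ) < Y ^ 2 with hP'
  have hm : ∀ p : ℕ, p ∈ P' ↔ p.Prime ∧ Y ≤ p ∧ (p : ℝ) < Y ^ 2 := fun p => by
    rw [hP', mem_filter, mem_range]
    exact ⟨fun h => h.2, fun h => ⟨Nat.lt_ceil.2 h.2.2, h⟩⟩
  have h1 := (abs_le.1 (h Y (Y ^ 2) P' (by linarith) (by nlinarith) hm)).2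
  rw [Real.log_pow] at h1
  have h3 : (∑ p ∈ P, (1 : ℝ) / p) * Real.log Y ≤ ∑ p ∈ P', Real.log p / p := by
    rw [sum_mul]
    refine le_trans (sum_le_sum fun p hp => ?_) (sum_le_sum_of_subset_of_nonneg
      (fun p hp => (hm p).2 (hP p hp)) fun p _ _ =>
        div_nonneg (Real.log_natCast_nonneg p) (Nat.cast_nonneg p))
    rw [one_div_mul_eq_div]
    exact div_le_div_of_nonneg_right (Real.log_le_log (by linarith) (hP p hp).2.1)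
      (Nat.cast_nonneg p)
  refine le_of_mul_le_mul_right (h3.trans ?_) hl
  push_cast at h1
  linarith

theorem dec {a b x Λ : ℝ} {n n' : ℕ} (h1 : 1 ≤ a) (h2 : a ≤ b) (h3 : 0 ≤ x) (h4 : x ≤ 1)
    (h5 : 0 ≤ Λ) (h6 : n' ≤ n) : a * Λ * (1 - x / a) ^ n ≤ b * Λ * (1 - x / b) ^ n' := by
  have e1 : x / a ≤ 1 := by rw [div_le_one (by linarith)]; linarith
  have e2 : x / b ≤ x / a := div_le_div_of_nonneg_left h3 (by linarith) h2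
  have e3 : 0 ≤ x / b := div_nonneg h3 (by linarith)
  have e4 : (1 - x / a) ^ n ≤ (1 - x / b) ^ n' :=
    (pow_le_pow_left₀ (by linarith) (by linarith) n).trans
      (pow_le_pow_of_le_one (by linarith) (by linarith) h6)
  exact mul_le_mul (mul_le_mul_of_nonneg_right h2 h5) e4 (pow_nonneg (by linarith) _)
    (mul_nonneg (by linarith) h5)

theorem arC_mono {n J : ℕ} {D Λ Λ' : ℝ} (h : ArC n J D Λ) (h1 : Λ ≤ Λ') :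
    ArC n J D Λ' := by
  intro t0 H s N c a1 a2 a3 a4 a5 a6
  obtain ⟨S, b1, b2, b3, b4⟩ := h t0 H s N c a1 a2 a3 a4 a5 a6
  refine ⟨S, b1, b2, fun m tc e c1 c2 c3 => (b3 m tc e c1 c2 c3).trans ?_, b4⟩
  exact mul_le_mul_of_nonneg_right h1 (sum_nonneg fun a _ => mul_nonneg (c1 a).1 (sq_nonneg _))

theorem qm {W W' Y : ℝ} (h2 : 2 ≤ Y) (h1 : W * W' ≤ Y) :
    W * W' * (2 * Y ^ 21) ^ 6 * (Y ^ 16) ^ 2 ≤ Y ^ 200 := by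
  have hY : 0 ≤ Y := by linarith
  have e1 : 2 * Y ^ 21 ≤ Y ^ 22 := by
    rw [pow_succ' Y 21]; exact mul_le_mul_of_nonneg_right h2 (by positivity)
  calc W * W' * (2 * Y ^ 21) ^ 6 * (Y ^ 16) ^ 2 ≤ Y * (Y ^ 22) ^ 6 * (Y ^ 16) ^ 2 := by gcongr
    _ = Y ^ 165 := by ring
    _ ≤ Y ^ 200 := pow_le_pow_right₀ (by linarith) (by norm_num)

theorem ht1 {f : ℤ[X]} {Γ : Gf} {k0 : ℕ} {a : ℤ} {Cf Y : ℝ} (h2 : 2 ≤ Y) (hk : Y ^ 10 = k0)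
    (hC : Cf ≤ Y) (h1 : |(a : ℝ)| ≤ Cf * (k0 : ℝ) ^ 2) (h3 : (AA f k0 a : ℝ) ≤ Cf * (k0 : ℝ) ^ 6) :
    Ht (Y ^ 21) (cuH f k0 a) Γ := by
  have hY : 1 ≤ Y := by linarith
  rw [← hk] at h1 h3
  refine ⟨?_, ?_, ?_, ?_⟩
  · refine h1.trans ?_
    calc Cf * (Y ^ 10) ^ 2 ≤ Y * (Y ^ 10) ^ 2 := by gcongr
      _ = Y ^ 21 := by ring
  · show (((k0 : ℤ) : ℝ)) ^ 2 ≤ Y ^ 21
    rw [Int.cast_natCast, ← hk, ← pow_mul]
    exact pow_le_pow_right₀ hY (by norm_num)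
  · refine h3.trans ?_
    calc Cf * (Y ^ 10) ^ 6 ≤ Y * (Y ^ 10) ^ 6 := by gcongr
      _ = Y ^ 61 := by ring
      _ ≤ Y ^ 84 := pow_le_pow_right₀ hY (by norm_num)
      _ = (Y ^ 21) ^ 4 := by ring
  · show (Γ.p0 : ℝ) ^ (0 + 0) ≤ Y ^ 21
    rw [pow_zero]
    exact one_le_pow₀ hY

theorem ht0 {Γ : Gf} {t0 : ℤ} {A0 e e' : ℕ} {ϖ : ℤ√(-(A0 : ℤ))} {Y : ℝ} (hY : 1 ≤ Y)
    (h1 : |(t0 : ℝ)| ≤ Y) (h2 : (A0 : ℝ) ≤ Y) (h3 : (Γ.p0 : ℝ) ^ (e + e') ≤ Y) :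
    Ht (Y ^ 21) (cu0 t0 A0 ϖ e e') Γ := by
  have e1 : Y ≤ Y ^ 21 := le_self_pow₀ hY (by norm_num)
  refine ⟨h1.trans e1, ?_, h2.trans (e1.trans (le_self_pow₀ (hY.trans e1) (by norm_num))),
    h3.trans e1⟩
  show (((1 : ℤ) : ℝ)) ^ 2 ≤ Y ^ 21
  rw [Int.cast_one, one_pow]
  exact hY.trans e1

theorem xc1 (Γ : Gf) (f : ℤ[X]) {k0 : ℕ} (a : ℤ) {Y : ℝ} (hk : Y ^ 10 = k0) :
    Xc Γ (cuH f k0 a) = 40 * Γ.m * Real.log Y + 2 * Real.log ((Γ.W' : ℝ) * Γ.H) := by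
  show 2 * (Γ.m : ℝ) * Real.log ((((k0 : ℤ) : ℝ)) ^ 2) + _ + (((0 : ℕ) : ℝ) - 2 * (0 : ℕ)) * _ = _
  rw [Int.cast_natCast, ← hk, ← pow_mul, Real.log_pow]
  push_cast
  ring

theorem xc0 (Γ : Gf) (t0 : ℤ) (A0 e e' : ℕ) (ϖ : ℤ√(-(A0 : ℤ))) :
    Xc Γ (cu0 t0 A0 ϖ e e')
      = 2 * Real.log ((Γ.W' : ℝ) * Γ.H) + ((e' : ℝ) - 2 * e) * Real.log Γ.p0 := by
  show 2 * (Γ.m : ℝ) * Real.log ((((1 : ℤ) : ℝ)) ^ 2) + _ + _ = _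
  rw [Int.cast_one, one_pow, Real.log_one, mul_zero, zero_add]
  rfl

end XTopL

open XTopL in
theorem xTopL : OfTopL := by
  classical
  intro hDel hTT hH hFam hBase hNg hHt hSc hMert f t0 A0 p0 J' m J e e' As Bs ϖ ψ ψ0 φ c c0
    AF N M0 M1 Mx E1 A' N' M1' k1 k1' kM W κ0 J0
    Cb1 Cb2 Cb Λ3 Λa ε0 di l hc hp hPA hId hR ct
  obtain ⟨⟨n1, n2, n3⟩, ⟨w1', w2, w3, w4⟩, ⟨b1, b2, b3, b4, b5, b6, b7, b8, b9, b10, b11, b12⟩,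
    ⟨l1, l2, l3, l4⟩, lv, ⟨d1, d2, d3, d4⟩, har, q0, Ye, hEta⟩ := ct
  obtain ⟨⟨v1, v2, v3⟩, ⟨c1, c2, c3, c4, c5, c6, c7⟩, ⟨t1, t2, t3⟩, ⟨e1, e2, e3⟩, ⟨x1, x2⟩,
    ⟨g1, g2, g3, g4, g5⟩, ⟨y1, y2, y3⟩, ⟨z1, z2, z3, z4, z5⟩⟩ := lv
  have hA' : 0 < A' := lt_of_lt_of_le (Nat.mul_pos (by omega) n1) n3
  have hκ2 : 2 ≤ l.κ := le_trans (Nat.mul_le_mul (Nat.mul_le_mul_left 2 hA')
    (Nat.succ_pos (22 * m + 759))) (l2.trans v2)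
  obtain ⟨κ3, hκ⟩ : ∃ κ3, l.κ = κ3 + 2 := ⟨l.κ - 2, by omega⟩
  have hm0 : (0 : ℝ) ≤ m := Nat.cast_nonneg _
  have hCb : (100 : ℝ) ≤ Cb := by linarith only [hm0, b8]
  have hκr : (2 : ℝ) ≤ l.κ := by exact_mod_cast hκ2
  have hΛ : 2 * Cb ≤ l.Λ := by nlinarith only [hCb, hκr, v3]
  have hK : 0 < l.K := by
    rcases Nat.eq_zero_or_pos l.K with h | h
    · rw [h] at c3; norm_num at c3
    · exact h
  have hθ2 : l.θ ^ 2 ≤ 1 := pow_le_one₀ t1.le (by linarith only [t2])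
  have hJ : (0 : ℝ) ≤ l.J1 := Nat.cast_nonneg _
  have hCe : 80 * Cb * l.e ≤ l.θ ^ 2 := by
    refine le_trans ?_ g5
    have : 0 ≤ Cb * l.e := mul_nonneg (by linarith only [hCb]) g1.le
    linarith only [mul_nonneg this hJ, this]
  have hΛ0 : 0 ≤ l.Λ := by linarith only [hΛ, hCb]
  have hΛ1 : 1 ≤ l.Λ := by linarith only [hΛ, hCb]
  have hCΛ : 2 ≤ Cb * l.Λ := by nlinarith only [hCb, hΛ]
  have hε1 : Cb1 * l.ε ≤ l.θ ^ 2 / 40 := (mul_le_mul_of_nonneg_right b2 e1.le).trans e3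
  have hε2 : Cb2 * l.ε ≤ l.θ ^ 2 / 40 := (mul_le_mul_of_nonneg_right b4 e1.le).trans e3
  have hK1 : Cb1 * l.Λ ≤ Cb * l.Λ := mul_le_mul_of_nonneg_right b2 hΛ0
  have hK2 : Cb2 * l.Λ ≤ Cb * l.Λ := mul_le_mul_of_nonneg_right b4 hΛ0
  have hκΛ : Cb2 * l.κ ≤ l.Λ := (mul_le_mul_of_nonneg_right b4 (Nat.cast_nonneg _)).trans v3
  have hκΛ' : (l.κ : ℝ) ≤ l.Λ := by nlinarith only [hCb, hκr, v3]
  have hdi : di ^ 2 ≤ 1 := pow_le_one₀ d1.le d2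
  have h2e : 2 * l.e ≤ l.θ ^ 2 := by nlinarith only [hCe, hCb, g1]
  have hmis : 2 * (M0 : ℝ) ^ 3 * l.d' + ε0 ≤ l.e ^ 3 / 8 := by
    have := mul_le_mul_of_nonneg_right b5 y1.le
    linarith only [this, y3, d4, z2]
  have hlen : ∀ x : ℝ, x ≤ 40 * m + 2 * l.κ → 10 * x ≤ l.Λ := fun x hx => by
    linarith only [hx, v3, hκr, hm0, mul_le_mul_of_nonneg_right b8 (Nat.cast_nonneg l.κ),
      mul_le_mul_of_nonneg_left hκr hm0]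
  obtain ⟨A1, B1, hA1, hB1, hBs⟩ := hBase f t0 A0 p0 J' m J e e' As Bs ϖ W hc hp hPA w1' w3 w2 w4
  obtain ⟨Cn, hCn⟩ := hNg ⟨f, p0, m, W, p0 ^ J * W, A1, B1, 1, 1⟩ t0 A0 hc
  obtain ⟨Cf, -, hCf⟩ := hHt f t0 A0 hc
  obtain ⟨Ym1, hmer⟩ := mer hMert
  obtain ⟨Yd, hDel⟩ := hDel f t0 A0 hc l.Km l.K (l.J1 + 1) l.e Λ3 g2 hK (Nat.succ_pos _) g1
    (by linarith only [h2e, hθ2, g1]) (by linarith only [b6])
    (by linarith only [mul_le_mul_of_nonneg_right b7 g1.le, hCe, hθ2,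
      mul_nonneg (zero_le_one.trans (b1.trans b2)) g1.le])
  obtain ⟨Yh, hH⟩ := hH m (p0 ^ J * W) N A' E1 l.κ (((e' : ℝ) - 2 * e) * Real.log p0) Cn
    (1000 * m * ((8 * N : ℕ) + 1) ^ 2 * W * 40 / l.θ ^ 2) (Nat.mul_pos (pow_pos hp.pos _) w1') n1
    (one_le_two.trans n2) n3 (l2.trans v2)
  obtain ⟨B, hB⟩ := exl [Yd, Yh, Ye, Ym1, q0, Cf, (W : ℝ) + 1, (W : ℝ) * (p0 ^ J * W : ℕ), l.Λ,
    4 * (l.K : ℝ), (l.J1 : ℝ) + 1, |(t0 : ℝ)|, (A0 : ℝ), (p0 : ℝ) ^ (e + e'), 5, (kM : ℝ),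
    100 * (((8 * N : ℕ) : ℝ) + 1) * 40 / l.θ ^ 2, l.Λ / l.θ ^ 2]
  simp only [List.forall_mem_cons, List.not_mem_nil, false_imp_iff, implies_true, and_true] at hB
  obtain ⟨B1', B2, B3, B4, B5, B6, B7, B8, B9, B10, B11, B12, B13, B14, B15, B16, B17, B18⟩ := hB
  refine ⟨B, ?_⟩
  intro k0 Y Y0 Ym d i o H2 hYm ⟨sc, ⟨pw1, pw2⟩, ⟨s1, s2, s3, s4, s5, s6⟩, hr⟩ hZ1 hZ2 hBC hd1 hd2
    hH2 hL hMO
  have hY0 : B ≤ Y0 := hYm.trans s2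
  have hY : B ≤ Y := hY0.trans s3
  have hY5 : 5 ≤ Y0 := B15.trans hY0
  have hY2 : 2 ≤ Y := by linarith only [hY5, s3]
  have hY1 : 1 ≤ Y := one_le_two.trans hY2
  have hWY : (W : ℝ) < Y0 := by linarith only [B7, hY0]
  have hYm0 : 0 ≤ Ym := zero_le_one.trans s1.le
  obtain ⟨r, r1, r2, r3, r4⟩ := hr l.K (84 * m + 702) hK (Nat.succ_pos _) (B10.trans hY)
  have hYU : Y ≤ (l.K * r : ℕ) := (le_self_pow₀ hY1 (Nat.succ_ne_zero _)).trans r3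
  obtain ⟨HH, P1, hF⟩ := hDel W k0 (l.K * r) Y (fun a z => a ∈ H2 ∧ (o a).G z) H2 sc (B1'.trans hY)
    hYU hH2 hL (fun a z h => ⟨h.1, ((hMO a h.1).1.cj z h.2).1⟩) (fun a ha => by
      have := (hMO a ha).1.mis
      rw [(hMO a ha).2.1, hd2] at this
      refine le_trans (le_of_eq (sum_congr ?_ fun _ _ => rfl)) (this.trans hmis)
      ext z
      simp [ha])
  have hHH : HH ⊆ HH0 t0 W k0 := hF.hh.1.trans hH2
  obtain ⟨TT0, hT, hTT⟩ := hTT f t0 W k0 N E1 A' Y Y0 (2 * Λ3) HH o sc hWY pw1 (one_le_two.trans n2)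
    n3 (by linarith only [b6]) hZ1 hZ2 hHH hF.hh.2 fun a ha => (hMO a (hF.hh.1 ha)).2.2
  obtain ⟨ob, hob⟩ := hBC TT0 hT
  have pw3 : ∀ n : ℕ, Y0 ^ (n * A') = Y ^ n := fun n => by rw [mul_comm, pow_mul, pw1]
  obtain ⟨X1, f0, hX1, hX2, hf0, hS0⟩ := hob.main (l.K * r) κ3 (s3.trans hYU)
    (by rw [pw3]; exact r4) (hκ ▸ v1) (hκ ▸ l1.trans v2) (by clear * - hκ l4; omega)
  rw [← hκ] at hX1 hX2 hf0 hS0
  obtain ⟨H, H1, kk, v, V, ⟨a1, a2, a3⟩, a4, ⟨a5, a6, a7⟩, ⟨a8, a9⟩, ⟨a10, a11, a12⟩, ⟨a13, a14⟩,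
    a15⟩ := hH Y Y0 X1 (l.K * r) (B2.trans hY) (s1.trans_le s2) pw1 r3 hX1 hX2
  have hkk : k1 + 400 * (2 * N + 5) ^ 2 + 2 ≤ kk := by
    have := Nat.le_of_mul_le_mul_left ((l3.trans v2).trans a6) (Nat.mul_pos two_pos hA')
    clear * - this
    omega
  obtain ⟨k, rfl⟩ : ∃ k, kk = k + 2 := ⟨kk - 2, by clear * - hkk; omega⟩
  have hkΛ : 10 * ((k : ℝ) + 2) ≤ l.Λ := hlen _ (by exact_mod_cast a7)
  have hk1 : 400 * (2 * N + 5) ^ 2 ≤ k := by clear * - hkk; omega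
  have hk2 : 2 ≤ k := le_trans (le_trans (by norm_num) (Nat.le_mul_of_pos_right 400
    (pow_pos (Nat.succ_pos _) 2))) hk1
  have hk0 : (0 : ℝ) ≤ k := Nat.cast_nonneg _
  obtain ⟨gok, c0ok⟩ := hBs H H1 a1 a2
  have hV : 0 ≤ V := le_trans (pow_nonneg (zero_le_one.trans hY1) _) a10
  have hQ := qm (W := W) (W' := (p0 ^ J * W : ℕ)) (Y := Y) hY2 (B8.trans hY)
  have hΛε : l.Λ * ε0 ≤ 1 := le_trans (mul_le_mul_of_nonneg_left d4 hΛ0) z4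
  have hmain : ∀ a ∈ HH, _ := fun a ha => (hMO a (hF.hh.1 ha)).1.main
    (P1.filter fun z => On a ((k0 : ℤ) ^ 2) z ∧ a ∈ H2 ∧ (o a).G z) (l.K * r) l.Km (2 * l.e)
    (fun z hz => by
      obtain ⟨h1, h2, -, h3⟩ := mem_filter.1 hz
      exact ⟨mem_filter.2 ⟨hF.p1.1 h1, h2⟩, h3⟩) (by convert (hF.cur a ha).2.1) (hF.cur a ha).1
    (by rw [(hMO a (hF.hh.1 ha)).2.1, hd1]; linarith only [g4]) hYU r4 g2
    (le_trans (mul_le_mul_of_nonneg_left d4 (Nat.cast_nonneg _)) z5)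
  let D : Dat := ⟨⟨f, p0, m, W, p0 ^ J * W, A1, B1, H, H1⟩, t0, A0, ϖ, e, e', ψ, ψ0, φ, c, c0, k0,
    Y, Y0, Y0 ^ E1, HH, P1, fun a z => a ∈ H2 ∧ (o a).G z, ob.TT, ob.w0, f0,
    fun c => c.elim ob.ρ fun a => (o a).ρ,
    fun c => c.elim ob.LL fun a => if a ∈ H2 then (o a).LL else ∅,
    fun a T => (o a).adm a ((k0 : ℤ) ^ 2) T, k, κ3, N, l.K, r, l.J1, max M1 M1', v, l.Λ, 2 * Λ3,
    l.M, Ym, l.θ, l.η, Cb * l.Λ, V, l.e⟩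
  have hLL : ∀ a ∈ H2, D.LL (some a) = (o a).LL := fun a ha => if_pos ha
  have hZ : ∀ a, D.Z a = P1.filter fun z => On a ((k0 : ℤ) ^ 2) z ∧ a ∈ H2 ∧ (o a).G z :=
    fun a => by unfold Dat.Z; congr
  have hhi : Y0 ^ E1 ≤ Y := by
    rw [← pw1]
    exact pow_le_pow_right₀ (s1.le.trans s2) (le_trans (Nat.le_mul_of_pos_right _ n1) n3)
  have ngr : NgR D.Γ t0 := hCn H H1 gok a3
  have hθ0 : 0 < l.θ ^ 2 := pow_pos t1 2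
  have hYm6 : (Ym * l.Λ) ^ 3 ≤ Ym ^ 6 := by
    calc (Ym * l.Λ) ^ 3 ≤ (Ym * Ym) ^ 3 :=
          pow_le_pow_left₀ (mul_nonneg hYm0 hΛ0)
            (mul_le_mul_of_nonneg_left (B9.trans hYm) hYm0) 3
      _ = Ym ^ 6 := by ring
  have pre : D.Pre fun a => (o a).Z0 := by
    refine ⟨hc, gok, c0ok, sc, ngr, ⟨hWY, s3, hhi⟩, hHH, hF.p1.1,
      fun T hT' => ⟨hT.sub (hob.sub hT'), (hTT T (hob.sub hT')).1, (hob.cj T hT').2.2.1,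
        (hob.cj T hT').2.2.2⟩, ⟨ht0 hY1 (B12.trans hY) (B13.trans hY) (B14.trans hY),
        fun a ha => ht1 hY2 sc.pow (B6.trans hY)
          (hCf W k0 a (hSc W k0 Y sc).2.1 (hHH ha)).1 (hCf W k0 a (hSc W k0 Y sc).2.1 (hHH ha)).2.1⟩,
      fun a ha => ?_, ⟨hob.rho, fun a ha => (hMO a (hF.hh.1 ha)).1.rho⟩,
      ⟨hob.ll.2, fun a ha => ?_⟩, fun T j β hj hT' => ?_, fun a ha T j β hj hT' => ?_,
      fun T j hT' => ?_, ⟨Nat.mul_pos hK (two_pos.trans_le r1), r2, hk1, ?_, hkΛ, a9⟩, ?_,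
      fun a ha ad had => ?_, ⟨hV, hΛ1, s1.le, hY5, t1, t2,
        hCΛ⟩, ?_, ?_⟩
    · rw [hLL a (hF.hh.1 ha)]
      exact ⟨fun T hT' => ⟨hT'.1, hT'.2.1⟩, fun z hz => ((hMO a hz.1).1.cj z hz.2).2⟩
    · rw [hLL a (hF.hh.1 ha)]
      exact (hMO a (hF.hh.1 ha)).1.ll.2
    · exact (hob.rw T j β (by change j ≤ κ3 + 2 at hj; clear * - hj hκ l4; omega) hT').trans
        (mul_le_mul_of_nonneg_right s6 hob.rho.le)
    · rw [hZ]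
      exact ((hmain a ha).1 T j β (le_trans hj (a7.trans l4)) hT').trans
        (mul_le_mul_of_nonneg_right s5 (hMO a (hF.hh.1 ha)).1.rho.le)
    · refine ⟨le_trans ?_ (hf0 T j hT').1, (hf0 T j hT').2.trans (by show Cb2 ≤ l.Λ; linarith only [b4, hΛ, hCb])⟩
      exact one_div_le_one_div_of_le (mul_pos (one_pos.trans_le b3) (two_pos.trans_le hκr)) hκΛ
    · have : ((k + 2 : ℕ) : ℝ) ≤ (l.K * r : ℕ) := by
        have : ((k + 2 : ℕ) : ℝ) ≤ kM := by exact_mod_cast a7.trans l4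
        exact this.trans (B16.trans (hY.trans hYU))
      exact_mod_cast this
    · rw [xc0]
      refine hS0 _ V _ l.ε l.Λ _ _ ⟨⟨d4.trans z3, e2, hΛε, hΛ1⟩, ⟨by rw [pw3]; exact hQ,
        by rw [← mul_assoc, pw3]; exact a10, a13, a14⟩, ⟨hε2, hK2⟩⟩ a4 hκΛ ?_
      exact (dec b3 b4 zero_le_one le_rfl hΛ0
        (Nat.sub_le_sub_left (le_max_right _ _) _)).trans x2
    · rw [hZ] at had
      rw [hZ, hLL a (hF.hh.1 ha), xc1 _ _ _ sc.pow]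
      refine (hmain a ha).2 ad (k + 2) v _ V _ l.ε l.Λ _ _ ⟨⟨d4.trans z3, e2, hΛε, hΛ1⟩,
        ⟨hQ, a10, a11, a12⟩, ⟨hε1, hK1⟩⟩ a5
        (a7.trans l4) (by clear * - hkk; omega) ?_ ?_ a8 had
      · rw [(hMO a (hF.hh.1 ha)).2.1, hd1]
        exact (dec b1 b2 (sq_nonneg _) hdi hΛ0 (Nat.sub_le_sub_left (le_max_left _ _) _)).trans
          (x1 (k + 2) a6)
      · refine le_trans ?_ g3
        have : ((k + 2 : ℕ) : ℝ) ≤ l.Λ := by push_cast; linarith only [hkΛ, hk0]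
        have h0 : 0 ≤ 2 * l.e + 1 / (l.Km : ℝ) := by positivity
        exact mul_le_mul_of_nonneg_right (mul_le_mul hK1 this (Nat.cast_nonneg _)
          (zero_le_two.trans hCΛ)) h0
    · show 100 * (((8 * N : ℕ) : ℝ) + 1) * Real.log (2 * Y ^ 21) * (Ym * l.Λ) ^ 3
        ≤ l.θ ^ 2 / 40 * Y0
      have h1 : 100 * (((8 * N : ℕ) : ℝ) + 1) ≤ l.θ ^ 2 / 40 * Ym := by
        have := B17.trans hYm
        rw [div_le_iff₀ hθ0] at this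
        linarith only [this]
      have h2 : 0 ≤ Real.log (2 * Y ^ 21) :=
        Real.log_nonneg (by linarith only [one_le_pow₀ (n := 21) hY1])
      calc _ ≤ l.θ ^ 2 / 40 * Ym * Ym * Ym ^ 6 := by
            clear * - h1 h2 s4 hYm6 hYm0 hΛ0
            gcongr
        _ = l.θ ^ 2 / 40 * Ym ^ 8 := by ring
        _ ≤ l.θ ^ 2 / 40 * Ym ^ 10 := mul_le_mul_of_nonneg_left
            (pow_le_pow_right₀ s1.le (by norm_num)) (div_nonneg hθ0.le (by norm_num))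
        _ = _ := by rw [pw2]
    · show 1000 * (m : ℝ) * (((8 * N : ℕ) : ℝ) + 1) ^ 2 * (Ym * l.Λ) ^ 3 * W * (V + 1)
        * (Y ^ 16) ^ 5 * (2 * Y ^ 21) ^ (m + 12) ≤ l.θ ^ 2 / 40 * H1
      have h1 : (Ym * l.Λ) ^ 3 ≤ Y :=
        hYm6.trans (((pow_le_pow_right₀ s1.le (by norm_num)).trans pw2.le).trans s3)
      calc _ ≤ 1000 * (m : ℝ) * (((8 * N : ℕ) : ℝ) + 1) ^ 2 * Y * W * (V + 1)
            * (Y ^ 16) ^ 5 * (2 * Y ^ 21) ^ (m + 12) := by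
            clear * - h1 hV hY1
            gcongr
        _ = l.θ ^ 2 / 40 * (1000 * m * (((8 * N : ℕ) : ℝ) + 1) ^ 2 * W * 40 / l.θ ^ 2 * Y * (V + 1)
            * (Y ^ 16) ^ 5 * (2 * Y ^ 21) ^ (m + 12)) := by
            clear * - hθ0 t1
            field_simp
        _ ≤ _ := mul_le_mul_of_nonneg_left a15 (div_nonneg hθ0.le (by norm_num))
  obtain ⟨fam, mdl⟩ := hFam D _ pre
  refine hR D ⟨hc, gok, sc, ngr, ⟨J, As, Bs, hId, hA1, hB1, Dvd.intro _ rfl⟩, fam,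
    ⟨by show 100 ≤ l.Λ; linarith only [hΛ, hCb], B9.trans hYm, t1,
      by show l.θ ≤ 1; linarith only [t2], c1, by show 1 ≤ 2 * Λ3; linarith only [b6],
      by show 2 * (2 * Λ3) ≤ l.Λ; linarith only [b7, hΛ, hCb],
      by show 8 * (m : ℝ) ≤ l.Λ; linarith only [hm0, b8, hΛ]⟩,
    ⟨hk2, by show (k : ℝ) + 2 ≤ l.Λ; linarith only [hkΛ, hk0], ?_, n1,
      by show (N : ℝ) ≤ l.Λ; linarith only [b9, hΛ, hCb]⟩,
    ⟨r1, c3, c6, c7, c4, B11.trans hY⟩, ⟨pre.win.1, s3, hhi, ?_⟩, ⟨hHH, hF.hh.2⟩,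
    ⟨hF.p1.1, fun z hz => ⟨hF.p1.2.1 z hz, fun a h => ⟨h.1, ((hMO a h.1).1.cj z h.2).1⟩⟩,
      hF.p1.2.2⟩, fun a ha => ?_, ⟨g1.le, ?_⟩, hF.del, hF.r0.trans ?_, fun T hT' => ?_, hob.nrm, mdl,
    fun c => ?_, ?_, ?_, hmer Y (B4.trans hY)⟩ c2 t3
  · have : ((κ3 : ℝ) + 2) = l.κ := by rw [hκ]; push_cast; ring
    show (κ3 : ℝ) + 2 ≤ l.Λ
    exact this ▸ hκΛ'
  · show l.Λ * Ym ^ 3 ≤ l.θ ^ 2 * Y0
    have := B18.trans hYm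
    rw [div_le_iff₀ hθ0] at this
    calc l.Λ * Ym ^ 3 ≤ Ym * l.θ ^ 2 * Ym ^ 3 :=
          mul_le_mul_of_nonneg_right this (pow_nonneg hYm0 _)
      _ = l.θ ^ 2 * Ym ^ 4 := by ring
      _ ≤ l.θ ^ 2 * Ym ^ 10 :=
          mul_le_mul_of_nonneg_left (pow_le_pow_right₀ s1.le (by norm_num)) hθ0.le
      _ = _ := by rw [pw2]
  · rw [hZ]
    convert (hF.cur a ha).2.2
  · refine le_trans ?_ g5
    show 2 * Λ3 * (2 * ((l.J1 : ℝ) + 1) + 80) * l.e ≤ _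
    exact mul_le_mul_of_nonneg_right (mul_le_mul_of_nonneg_right (by linarith only [b6, b7])
      (by linarith only [hJ])) g1.le
  · exact h2e
  · obtain ⟨h1, h2, h3⟩ := hTT T (hob.sub hT')
    refine ⟨hT.sub (hob.sub hT'), h1, (hob.cj T hT').1, (hob.cj T hT').2.1, h2, h3.trans ?_⟩
    exact mul_le_mul_of_nonneg_right (by show _ ≤ l.Λ; linarith only [b12, hΛ, hCb])
      (Nat.cast_nonneg _)
  · rcases c with _ | a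
    · exact hob.ll.1.trans (le_max_right _ _)
    · by_cases ha : a ∈ H2
      · rw [hLL a ha]
        exact (hMO a ha).1.ll.1.trans (le_max_left _ _)
      · rw [show D.LL (some a) = ∅ from if_neg ha]
        exact Nat.zero_le _
  · intro a1 b1 T S h1 h2 h3 h4
    exact hEta k0 Y (B3.trans hY) sc a1 b1 T S h1 h2 h3 fun z hz =>
      ⟨(h4 z hz).1, (h4 z hz).2.1, (B5.trans hY0).trans (h4 z hz).2.2⟩
  · have := arC_mono (har (l.J1 + 1) c5) (show Λa ≤ l.Λ by linarith only [b11, hΛ, hCb])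
    rwa [show 4 * Λ3 = 2 * (2 * Λ3) by ring] at this

end Pool.Agent.MP_f3836a_nt.VE
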