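import Pool.Agent.MP_f3836a_nt.VE.SpecE1

/-! Part E: regularity of the family which remains after the deletion. -/

set_option autoImplicit false

namespace Pool.Agent.MP_f3836a_nt.VE

open Polynomial Finset

namespace EDelB

theorem ind_pos {p : Prop} (h : p) : ind p = 1 := if_pos h

theorem ind_neg {p : Prop} (h : ¬p) : ind p = 0 := if_neg h

theorem ind_nonneg (p : Prop) : 0 ≤ ind p := by
  by_cases h : p
  · rw [ind_pos h]; exact zero_le_one
  · rw [ind_neg h]

theorem ind_and (p q : Prop) : ind (p ∧ q) = ind p * ind q := by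
  by_cases h : p <;> by_cases h' : q <;> simp [ind, h, h']

theorem ind_not (p : Prop) : ind (¬p) = 1 - ind p := by
  by_cases h : p <;> simp [ind, h]

theorem sum_flt {ι : Type} (S : Finset ι) (Q : ι → Prop) [DecidablePred Q] (F : ι → ℝ) :
    ∑ a ∈ S.filter Q, F a = ∑ a ∈ S, ind (Q a) * F a := by
  rw [sum_filter]
  refine sum_congr rfl fun a _ => ?_
  by_cases h : Q a
  · rw [if_pos h, ind_pos h, one_mul]
  · rw [if_neg h, ind_neg h, zero_mul]

theorem card_flt {ι : Type} (S : Finset ι) (Q : ι → Prop) [DecidablePred Q] :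
    ((S.filter Q).card : ℝ) = ∑ a ∈ S, ind (Q a) := by
  rw [card_eq_sum_ones, Nat.cast_sum, sum_flt]
  simp

theorem card_lk (S : Finset ℤ) (b : ℤ) (z : Pt) :
    ((lk S b {z}).card : ℝ) = ∑ a ∈ S, ind (On a b z) := by
  unfold lk
  rw [card_flt]
  simp

theorem sum_cell_le (m J : ℕ) : ∑ c ∈ range J, ind (m = c) ≤ 1 := by
  by_cases h : m < J
  · rw [sum_eq_single m (fun c _ hc => ind_neg (Ne.symm hc)) (fun h' => absurd (mem_range.2 h) h'),
      ind_pos rfl]
  · rw [sum_eq_zero fun c hc => ind_neg (by rw [mem_range] at hc; omega)]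
    exact zero_le_one

theorem sum_cell_eq {m J : ℕ} (h : m < J) : ∑ c ∈ range J, ind (m = c) = 1 := by
  rw [sum_eq_single m (fun c _ hc => ind_neg (Ne.symm hc)) (fun h' => absurd (mem_range.2 h) h'),
    ind_pos rfl]

theorem fib_le (S : Finset ℤ) (cell : ℤ → ℕ) (J : ℕ) (F : ℤ → ℝ) (hF : ∀ a, 0 ≤ F a) :
    ∑ c ∈ range J, ∑ a ∈ S, ind (cell a = c) * F a ≤ ∑ a ∈ S, F a := by
  rw [sum_comm]
  refine sum_le_sum fun a _ => ?_
  rw [← sum_mul]
  exact mul_le_of_le_one_left (hF a) (sum_cell_le _ _)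

theorem fib_eq (S : Finset ℤ) (cell : ℤ → ℕ) (J : ℕ) (F : ℤ → ℝ) (hS : ∀ a ∈ S, cell a < J) :
    ∑ c ∈ range J, ∑ a ∈ S, ind (cell a = c) * F a = ∑ a ∈ S, F a := by
  rw [sum_comm]
  refine sum_congr rfl fun a ha => ?_
  rw [← sum_mul, sum_cell_eq (hS a ha), one_mul]

/-- the first estimate, with indicators -/
theorem first (H2 HH : Finset ℤ) (hs : HH ⊆ H2) (cell : ℤ → ℕ) (J : ℕ) (u g : ℤ → Prop) (p E : ℝ)
    (hp : 0 ≤ p) (hE : 0 ≤ E) (h1 : ∑ _a ∈ H2 \ HH, (1 : ℝ) ≤ E / 2)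
    (h2 : p * ∑ a ∈ H2 \ HH, ind (u a) ≤ E) (h3 : p * ∑ a ∈ H2, ind (u a) * (1 - ind (g a)) ≤ E)
    (h4 : ∀ c < J, |p * ∑ a ∈ H2, ind (cell a = c) * ind (u a) - ∑ a ∈ H2, ind (cell a = c) * 1| ≤ E) :
    ∑ c ∈ range J, |p * ∑ a ∈ HH, ind (cell a = c) * (ind (u a) * ind (g a))
      - ∑ a ∈ HH, ind (cell a = c) * 1| ≤ (J + 3) * E := by
  have hn : ∀ a, 0 ≤ ind (u a) * (1 - ind (g a)) := fun a =>
    mul_nonneg (ind_nonneg _) (by rw [← ind_not]; exact ind_nonneg _)
  have key : ∀ c ∈ range J, |p * ∑ a ∈ HH, ind (cell a = c) * (ind (u a) * ind (g a))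
      - ∑ a ∈ HH, ind (cell a = c) * 1| ≤ E
        + p * ∑ a ∈ HH, ind (cell a = c) * (ind (u a) * (1 - ind (g a)))
        + p * ∑ a ∈ H2 \ HH, ind (cell a = c) * ind (u a) + ∑ a ∈ H2 \ HH, ind (cell a = c) * 1 := by
    intro c hc
    have h := h4 c (mem_range.1 hc)
    rw [← sum_sdiff hs, ← sum_sdiff hs] at h
    have e1 : ∑ a ∈ HH, ind (cell a = c) * ind (u a)
        = ∑ a ∈ HH, ind (cell a = c) * (ind (u a) * ind (g a))
          + ∑ a ∈ HH, ind (cell a = c) * (ind (u a) * (1 - ind (g a))) := by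
      rw [← sum_add_distrib]
      exact sum_congr rfl fun a _ => by ring
    rw [e1] at h
    have n1 : 0 ≤ p * ∑ a ∈ HH, ind (cell a = c) * (ind (u a) * (1 - ind (g a))) :=
      mul_nonneg hp (sum_nonneg fun a _ => mul_nonneg (ind_nonneg _) (hn a))
    have n2 : 0 ≤ p * ∑ a ∈ H2 \ HH, ind (cell a = c) * ind (u a) :=
      mul_nonneg hp (sum_nonneg fun a _ => mul_nonneg (ind_nonneg _) (ind_nonneg _))
    have n3 : 0 ≤ ∑ a ∈ H2 \ HH, ind (cell a = c) * 1 :=
      sum_nonneg fun a _ => mul_nonneg (ind_nonneg _) zero_le_one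
    rw [abs_le] at h ⊢
    rw [mul_add, mul_add] at h
    constructor <;> linarith [h.1, h.2]
  refine (sum_le_sum key).trans ?_
  rw [sum_add_distrib, sum_add_distrib, sum_add_distrib, ← mul_sum, ← mul_sum, sum_const, card_range,
    nsmul_eq_mul]
  have a1 := mul_le_mul_of_nonneg_left ((fib_le HH cell J _ hn).trans
    (sum_le_sum_of_subset_of_nonneg hs fun a _ _ => hn a)) hp
  have a2 := mul_le_mul_of_nonneg_left (fib_le (H2 \ HH) cell J _ fun a => ind_nonneg (u a)) hp
  have a3 := fib_le (H2 \ HH) cell J (fun _ => 1) fun _ => zero_le_one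
  linarith

theorem abs_le_sq {x e : ℝ} (he : 0 < e) : |x| ≤ x ^ 2 / e + e / 4 := by
  rw [← sq_abs, div_add' _ _ _ he.ne', le_div_iff₀ he]
  nlinarith [sq_nonneg (|x| - e / 2)]

end EDelB

open EDelB

theorem rDelB : DelBS := by
  classical
  intro P H0 H2 b n G cell J L γ e δm HH P1 hH hM
  obtain ⟨hL, he, he1, hδ, hδe, hγ⟩ := hH.num
  have hE : 0 ≤ e * L := by positivity
  have r13 : ∀ z ∈ P1, ∑ c ∈ range J,
      |(z.p : ℝ) * ∑ a ∈ HH, ind (cell a = c) * (ind (On a b z) * ind (G a z))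
        - ∑ a ∈ HH, ind (cell a = c) * 1| ≤ (J + 3) * (e * L) := by
    intro z hz
    refine first H2 HH hM.subH cell J (fun a => On a b z) (fun a => G a z) z.p (e * L)
      (Nat.cast_nonneg _) hE ?_ ?_ ?_ fun c hc => ?_
    · simpa using hM.card
    · have := hM.shD z hz
      rwa [card_lk] at this
    · have := hM.shG z hz
      simpa only [card_flt, ind_and, ind_not] using this
    · have := hM.shC z hz c hc
      rw [card_lk, sum_flt, card_flt] at this
      simpa only [mul_one] using this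
  refine ⟨fun z hz => ?_, fun z hz => ?_⟩
  · have := r13 z hz
    simp only [card_flt, ind_and]
    simp only [mul_one] at this
    rwa [mul_assoc ((J : ℝ) + 3)]
  · have hzP := hM.subP hz
    set Sz := HH.filter fun a => On a b z ∧ G a z with hSz
    have hS2 : Sz ⊆ H2 := (filter_subset _ _).trans hM.subH
    have hS0 : Sz ⊆ H0 := hS2.trans hH.sub
    have hon : ∀ a ∈ Sz, On a b z := fun a ha => (mem_filter.1 ha).2.1
    have hp : (0 : ℝ) ≤ z.p := Nat.cast_nonneg _
    have hσ : ∀ z' ∈ P, 0 ≤ n z' / z'.p := fun z' h => div_nonneg (hH.pos z' h).2 (Nat.cast_nonneg _)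
    have hsub : P1.filter (fun z' => z'.p ≠ z.p) ⊆ P.filter fun z' => z'.p ≠ z.p :=
      filter_subset_filter _ hM.subP
    have hsub' : P1.filter (fun z' => z'.p ≠ z.p) ⊆ P := (filter_subset _ _).trans hM.subP
    have htot : ∑ z' ∈ P1.filter fun z' => z'.p ≠ z.p, n z' / z'.p ≤ 2 :=
      (sum_le_sum_of_subset_of_nonneg hsub' fun z' h _ => hσ z' h).trans hH.tot
    have h3 : |(z.p : ℝ) * Sz.card - HH.card| ≤ (J + 3) * (e * L) := by
      refine le_trans ?_ ((abs_sum_le_sum_abs _ _).trans (r13 z hz))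
      have hc : ∀ a ∈ HH, cell a < J := fun a ha => hH.cel a (hM.subH ha)
      rw [sum_sub_distrib, ← mul_sum, fib_eq HH cell J _ hc, fib_eq HH cell J _ hc, hSz, card_flt]
      simp [ind_and]
    have h1 : ∑ z' ∈ P1.filter fun z' => z'.p ≠ z.p, n z' / z'.p *
        |(z.p : ℝ) * (z'.p * ((lk Sz b {z'}).card : ℝ) - Sz.card)| ≤ e * L := by
      have h := (sum_le_sum_of_subset_of_nonneg hsub fun z' h _ =>
        mul_nonneg (hσ z' (mem_filter.1 h).1) (sq_nonneg _)).trans (hH.lsv.two z hzP Sz hS0 hon)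
      have k : ∀ z' ∈ P1.filter fun z' => z'.p ≠ z.p, n z' / z'.p *
          |(z.p : ℝ) * (z'.p * ((lk Sz b {z'}).card : ℝ) - Sz.card)| ≤ L / e * (n z' / z'.p *
            (z.p * (z'.p * ((lk Sz b {z'}).card : ℝ) - Sz.card) / L) ^ 2) + L * e / 4 * (n z' / z'.p) := by
        intro z' h'
        have h0 := hσ z' (hsub' h')
        generalize (z.p : ℝ) * (z'.p * ((lk Sz b {z'}).card : ℝ) - Sz.card) = x
        generalize n z' / (z'.p : ℝ) = s at h0
        have a := abs_le_sq (x := x / L) he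
        rw [abs_div, abs_of_pos hL, div_le_iff₀ hL] at a
        calc s * |x| ≤ s * (((x / L) ^ 2 / e + e / 4) * L) := mul_le_mul_of_nonneg_left a h0
          _ = _ := by ring
      refine (sum_le_sum k).trans ?_
      rw [sum_add_distrib, ← mul_sum, ← mul_sum]
      have g1 : γ ≤ e ^ 2 / 2 := by
        have e4 : e ^ 4 ≤ e ^ 2 := pow_le_pow_of_le_one he.le he1 (by norm_num)
        have : (0 : ℝ) ≤ J := Nat.cast_nonneg _
        by_cases hg : 0 ≤ γ
        · nlinarith [mul_nonneg this hg, sq_nonneg e]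
        · nlinarith [sq_nonneg e]
      have b1 := mul_le_mul_of_nonneg_left (h.trans g1) (div_pos hL he).le
      have b2 := mul_le_mul_of_nonneg_left htot (by positivity : 0 ≤ L * e / 4)
      have b3 : L / e * (e ^ 2 / 2) = e * L / 2 := by field_simp
      linarith
    have h2 : ∑ z' ∈ P1.filter fun z' => z'.p ≠ z.p,
        (z.p : ℝ) * ∑ a ∈ Sz, ind (On a b z' ∧ ¬G a z') * n z' ≤ e * L := by
      rw [← mul_sum, sum_comm]
      have k : ∀ a ∈ Sz, ∑ z' ∈ P1.filter fun z' => z'.p ≠ z.p, ind (On a b z' ∧ ¬G a z') * n z'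
          ≤ δm := by
        intro a ha
        have := hH.mis a (hS2 ha)
        rw [sum_flt] at this
        exact (sum_le_sum_of_subset_of_nonneg hsub' fun z' h _ =>
          mul_nonneg (ind_nonneg _) (hH.pos z' h).2).trans this
      have k2 : (Sz.card : ℝ) ≤ (lk H0 b {z}).card := by
        refine Nat.cast_le.2 (card_le_card fun a ha => ?_)
        unfold lk
        rw [mem_filter]
        exact ⟨hS0 ha, fun z' h => by rw [Multiset.mem_singleton.1 h]; exact hon a ha⟩
      have k3 := (mul_le_mul_of_nonneg_left k2 hp).trans (hH.lsv.link z hzP)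
      have k4 := sum_le_sum k
      rw [sum_const, nsmul_eq_mul] at k4
      have e3 : e ^ 3 ≤ e ^ 1 := pow_le_pow_of_le_one he.le he1 (by norm_num)
      calc _ ≤ (z.p : ℝ) * (Sz.card * δm) := mul_le_mul_of_nonneg_left k4 hp
        _ = z.p * Sz.card * δm := by ring
        _ ≤ 2 * L * δm := mul_le_mul_of_nonneg_right k3 hδ
        _ ≤ 2 * L * (e / 2) := mul_le_mul_of_nonneg_left (by linarith) (by positivity)
        _ = e * L := by ring
    have k : ∀ z' ∈ P1.filter fun z' => z'.p ≠ z.p, n z' / z'.p *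
        |z.p * z'.p * ((HH.filter fun a => (On a b z ∧ G a z) ∧ On a b z' ∧ G a z').card : ℝ)
          - HH.card| ≤ n z' / z'.p * |(z.p : ℝ) * (z'.p * ((lk Sz b {z'}).card : ℝ) - Sz.card)|
            + (z.p : ℝ) * ∑ a ∈ Sz, ind (On a b z' ∧ ¬G a z') * n z'
            + (J + 3) * (e * L) * (n z' / z'.p) := by
      intro z' h'
      have h0 := hσ z' (hsub' h')
      have hp' : (0 : ℝ) < z'.p := Nat.cast_pos.2 (hH.pos z' (hsub' h')).1
      have e1 : ((HH.filter fun a => (On a b z ∧ G a z) ∧ On a b z' ∧ G a z').card : ℝ)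
          = (lk Sz b {z'}).card - ∑ a ∈ Sz, ind (On a b z' ∧ ¬G a z') := by
        rw [card_lk, ← sum_sub_distrib, hSz, sum_flt, card_flt]
        refine sum_congr rfl fun a _ => ?_
        simp only [ind_and, ind_not]
        ring
      have n1 : 0 ≤ ∑ a ∈ Sz, ind (On a b z' ∧ ¬G a z') := sum_nonneg fun a _ => ind_nonneg _
      rw [e1, ← sum_mul]
      generalize ∑ a ∈ Sz, ind (On a b z' ∧ ¬G a z') = m at n1
      generalize ((lk Sz b {z'}).card : ℝ) = l
      have e2 : (z.p : ℝ) * (m * n z') = n z' / z'.p * (z.p * z'.p * m) := by field_simp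
      rw [e2, mul_comm _ (n z' / z'.p), ← mul_add, ← mul_add]
      refine mul_le_mul_of_nonneg_left ?_ h0
      have n2 : 0 ≤ (z.p : ℝ) * z'.p * m := by positivity
      have a1 := le_abs_self ((z.p : ℝ) * (z'.p * l - Sz.card))
      have a2 := neg_abs_le ((z.p : ℝ) * (z'.p * l - Sz.card))
      rw [abs_le] at h3 ⊢
      constructor <;> nlinarith [h3.1, h3.2]
    refine le_trans (sum_le_sum ?_) ((sum_le_sum k).trans ?_)
    · intro z' _
      apply le_of_eq
      congr
    rw [sum_add_distrib, sum_add_distrib, ← mul_sum _ _ (((J : ℝ) + 3) * (e * L))]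
    have := mul_le_mul_of_nonneg_left htot (by positivity : 0 ≤ ((J : ℝ) + 3) * (e * L))
    linarith

end Pool.Agent.MP_f3836a_nt.VE
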