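import Pool.Agent.MP_f3836a_nt.VE.SpecE1

/-! Four elementary lemmas. -/

set_option autoImplicit false

namespace Pool.Agent.MP_f3836a_nt.VE

open Finset

theorem rPig : PigS := by
  classical
  intro κ lab Kl LL N Mx M1 T hT hM hK hL hc hl
  rcases Nat.eq_zero_or_pos N with rfl | hN
  · exact ⟨0, Multiset.zero_le _, rfl, by simp, by simp⟩
  let S : Finset Pt := ⟨T, Multiset.Nodup.of_map _ hT⟩
  have h1 : (S.filter fun z => z.p ∈ LL).card ≤ LL.card :=
    card_le_card_of_injOn Pt.p (fun z hz => (mem_filter.1 hz).2) fun z hz z' hz' e =>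
      Multiset.inj_on_of_nodup_map hT z (mem_filter.1 hz).1 z' (mem_filter.1 hz').1 e
  have h2 := card_filter_add_card_filter_not (s := S) fun z => z.p ∈ LL
  have h3 : S.card = T.card := rfl
  have h4 : N * Mx ≤ (S.filter fun z => z.p ∉ LL).card := by omega
  have h5 : ∀ z ∈ S.filter fun z => z.p ∉ LL, lab z ∈ Kl := fun z hz => hl z (mem_filter.1 hz).1
  obtain ⟨z0, hz0⟩ := card_pos.1 ((Nat.mul_pos hN hM).trans_le h4)
  obtain ⟨a, -, ha⟩ := exists_le_card_fiber_of_mul_le_card_of_maps_to h5 ⟨_, h5 z0 hz0⟩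
    (n := N) (((Nat.mul_le_mul_right N hK).trans_eq (mul_comm _ _)).trans h4)
  obtain ⟨S', hS, hS'⟩ := exists_subset_card_eq ha
  refine ⟨S'.1, val_le_iff.2 (hS.trans ((filter_subset _ _).trans (filter_subset _ _))), hS',
    fun z hz => (mem_filter.1 (mem_filter.1 (hS hz)).1).2, fun z hz z' hz' => ?_⟩
  rw [(mem_filter.1 (hS hz)).2, (mem_filter.1 (hS hz')).2]

theorem rTT : TTS := by
  classical
  intro ι Bk w P n c L hL hc h h1 h2
  rw [← sum_filter_add_sum_filter_not Bk fun T => c / 2 * (L * P T) ≤ n T] at h1 h2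
  have h3 : ∑ T ∈ Bk.filter fun T => c / 2 * (L * P T) ≤ n T, w T * n T ≤
      2 * L * ∑ T ∈ Bk.filter fun T => c / 2 * (L * P T) ≤ n T, w T * P T := by
    rw [mul_sum]
    refine sum_le_sum fun T hT => ?_
    obtain ⟨a, -, b⟩ := h T (mem_filter.1 hT).1
    nlinarith [mul_le_mul_of_nonneg_left b a]
  have h4 : ∑ T ∈ Bk.filter fun T => ¬c / 2 * (L * P T) ≤ n T, w T * n T ≤
      c / 2 * L * ∑ T ∈ Bk.filter fun T => ¬c / 2 * (L * P T) ≤ n T, w T * P T := by
    rw [mul_sum]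
    refine sum_le_sum fun T hT => ?_
    have a := (h T (mem_filter.1 hT).1).1
    nlinarith [mul_le_mul_of_nonneg_left (not_le.1 (mem_filter.1 hT).2).le a]
  have h5 : 0 ≤ ∑ T ∈ Bk.filter fun T => c / 2 * (L * P T) ≤ n T, w T * P T :=
    sum_nonneg fun T hT => mul_nonneg (h T (mem_filter.1 hT).1).1 (h T (mem_filter.1 hT).1).2.1
  have h6 := mul_le_mul_of_nonneg_left (le_trans (le_add_of_nonneg_left h5) h1)
    (show 0 ≤ c / 2 * L by positivity)
  refine le_of_mul_le_mul_left (a := 2 * L) ?_ (by positivity)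
  linarith

theorem EEasy.tri {a b c : ℝ} (h : 0 ≤ a) : |b - c| ≤ |a + b - c| + a :=
  abs_le.2 ⟨by linarith [neg_abs_le (a + b - c)], by linarith [le_abs_self (a + b - c)]⟩

theorem EEasy.nrm {x Z t : ℝ} (hx : 0 ≤ x) (hZ : 0 < Z) :
    |x / Z - t| ≤ x * (|Z - 1| / Z) + |x - t| := by
  refine (abs_sub_le _ x _).trans (add_le_add (le_of_eq ?_) le_rfl)
  rw [show x / Z - x = x * ((1 - Z) / Z) by field_simp, abs_mul, abs_div, abs_of_nonneg hx,
    abs_of_pos hZ, abs_sub_comm]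

theorem rNorm : NormS := by
  intro ι _ S S' w c K' δ r hs hw hr hd hK
  have hK' : (0 : ℝ) < K' := Nat.cast_pos.2 hK
  have f1 : ∀ A ⊆ S, ∑ d ∈ range K', ∑ z ∈ A.filter fun z => c z = d, w z = ∑ z ∈ A, w z :=
    fun A hA => sum_fiberwise_of_maps_to (fun z hz => mem_range.2 (hw z (hA hz)).2) w
  have f2 : ∀ A ⊆ S, ∀ d, 0 ≤ ∑ z ∈ A.filter fun z => c z = d, w z := fun A hA d =>
    sum_nonneg fun z hz => (hw z (hA (mem_filter.1 hz).1)).1
  have a1 : ∑ d ∈ range K', |∑ z ∈ S'.filter fun z => c z = d, w z - 1 / K'| ≤ δ + r := by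
    refine le_trans (sum_le_sum fun d _ => ?_)
      ((sum_add_distrib.trans_le (add_le_add hd ((f1 _ sdiff_subset).trans_le hr))))
    have e : ∑ z ∈ (S \ S').filter fun z => c z = d, w z + ∑ z ∈ S'.filter fun z => c z = d, w z
        = ∑ z ∈ S.filter fun z => c z = d, w z := by
      simp only [sum_filter]
      exact sum_sdiff hs
    rw [← e]
    exact EEasy.tri (f2 _ sdiff_subset d)
  have a2 : |∑ z ∈ S', w z - 1| ≤ δ + r := by
    refine le_trans (le_of_eq ?_) ((abs_sum_le_sum_abs _ _).trans a1)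
    rw [sum_sub_distrib, f1 _ hs, sum_const, card_range, nsmul_eq_mul, mul_one_div_cancel hK'.ne']
  refine ⟨a1, a2, fun h => ?_⟩
  have hZ : 0 < ∑ z ∈ S', w z := by linarith [(abs_le.1 a2).1]
  have a3 : ∑ d ∈ range K', (∑ z ∈ S'.filter fun z => c z = d, w z) *
      (|∑ z ∈ S', w z - 1| / ∑ z ∈ S', w z) ≤ δ + r := by
    rwa [← sum_mul, f1 _ hs, mul_div_cancel₀ _ hZ.ne']
  rw [two_mul]
  refine le_trans (sum_le_sum fun d _ => ?_) (sum_add_distrib.trans_le (add_le_add a3 a1))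
  rw [← sum_div]
  exact EEasy.nrm (f2 _ hs d) hZ

theorem rFix : FixS := by
  classical
  intro κ H Ψ B hB h1 h2 h3
  obtain ⟨D, hD, hm⟩ := exists_max_image
    (H.powerset.filter fun D => (D.card : ℝ) ≤ B ∧ D ⊆ Ψ D) card ⟨∅, by simpa using hB⟩
  obtain ⟨a, b, c⟩ := mem_filter.1 hD
  rw [mem_powerset] at a
  exact ⟨D, a, b, (eq_of_subset_of_card_le c (hm _ (mem_filter.2
    ⟨mem_powerset.2 (h1 D), h3 D a b, h2 _ _ c⟩))).symm⟩

end Pool.Agent.MP_f3836a_nt.VE
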