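import Pool.Agent.MP_f3836a_nt.VE.SpecE1

/-! Part E: moments of the correlation defect. -/

set_option autoImplicit false

namespace Pool.Agent.MP_f3836a_nt.VE

open Polynomial Finset

namespace EEta

theorem exp_div_le {x : ℝ} (hx : 0 ≤ x) {l : ℕ} (hl : 1 ≤ l) :
    Real.exp (x * (1 / l)) ≤ 1 + x * Real.exp x / l := by
  have h1 : (1 : ℝ) ≤ l := by exact_mod_cast hl
  have h2 : x * (1 / l) ≤ x := mul_le_of_le_one_right hx (by rw [div_le_one (by linarith)]; exact h1)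
  have h3 := Real.one_sub_le_exp_neg (x * (1 / l))
  have h4 := Real.exp_pos (x * (1 / l))
  have h5 : Real.exp (x * (1 / l)) * Real.exp (-(x * (1 / l))) = 1 := by
    rw [← Real.exp_add, add_neg_cancel, Real.exp_zero]
  have h6 : x * (1 / l) * Real.exp (x * (1 / l)) ≤ x * (1 / l) * Real.exp x :=
    mul_le_mul_of_nonneg_left (Real.exp_le_exp.2 h2) (by positivity)
  have h7 : x * Real.exp x / l = x * (1 / l) * Real.exp x := by ring
  nlinarith [mul_le_mul_of_nonneg_left h3 h4.le]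

theorem dvd_nT {T : Multiset Pt} (hT : ∀ z ∈ T, z.p.Prime) {l : ℕ} (hl : l.Prime)
    (h : l ∣ nT T) : ∃ z ∈ T, z.p = l := by
  obtain ⟨z, hz, e⟩ := hl.prime.exists_mem_multiset_map_dvd h
  exact ⟨z, hz, ((Nat.prime_dvd_prime_iff_eq hl (hT z hz)).1 e).symm⟩

theorem split {T : Multiset Pt} {W Tm : ℕ} {q0 x : ℝ} (hx : 0 ≤ x) (h0 : 0 < q0)
    (hc : T.card ≤ Tm) (hT : ∀ z ∈ T, z.p.Prime ∧ q0 ≤ z.p) (n : ℤ) :
    Real.exp (x * sig W n) ≤ Real.exp (x * Tm / q0) *
      ∏ l ∈ n.natAbs.primeFactors.filter fun l => ¬l ∣ W ∧ ¬l ∣ nT T, (1 + x * Real.exp x / l) := by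
  unfold sig
  rw [← sum_filter_add_sum_filter_not _ fun l => l ∣ nT T, mul_add, Real.exp_add, filter_filter,
    filter_filter]
  refine mul_le_mul (Real.exp_le_exp.2 ?_) ?_ (Real.exp_pos _).le (Real.exp_pos _).le
  · rw [mul_div_assoc]
    refine mul_le_mul_of_nonneg_left ?_ hx
    have hm : ∀ l ∈ n.natAbs.primeFactors.filter fun l => ¬l ∣ W ∧ l ∣ nT T, ∃ z ∈ T, z.p = l :=
      fun l hl => dvd_nT (fun z hz => (hT z hz).1)
        (Nat.prime_of_mem_primeFactors (mem_filter.1 hl).1) (mem_filter.1 hl).2.2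
    refine (sum_le_card_nsmul _ _ (1 / q0) fun l hl => ?_).trans ?_
    · obtain ⟨z, hz, rfl⟩ := hm l hl
      exact one_div_le_one_div_of_le h0 (hT z hz).2
    · rw [nsmul_eq_mul, mul_one_div]
      refine div_le_div_of_nonneg_right (Nat.cast_le.2 ?_) h0.le
      refine (card_le_card (t := (T.map Pt.p).toFinset) fun l hl => ?_).trans
        ((Multiset.toFinset_card_le _).trans ((Multiset.card_map _ _).trans_le hc))
      exact Multiset.mem_toFinset.2 (Multiset.mem_map.2 (hm l hl))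
  · rw [mul_sum, Real.exp_sum]
    exact prod_le_prod (fun _ _ => (Real.exp_pos _).le) fun l hl =>
      exp_div_le hx (Nat.prime_of_mem_primeFactors (mem_filter.1 hl).1).one_le

theorem exp_small {x η w : ℝ} (hη : 0 < η) (hw : 0 < w) (h : x / Real.log (1 + η) ≤ w) :
    Real.exp (x / w) ≤ 1 + η := by
  have h1 := Real.log_pos (show 1 < 1 + η by linarith)
  rw [← Real.le_log_iff_exp_le (by linarith), div_le_iff₀ hw, mul_comm]
  exact (div_le_iff₀ h1).1 h

end EEta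

theorem rEta : OfEta := by
  classical
  intro cnt sc lks prec mom ε K M1 r Tm hε hK
  have hK1 : 1 ≤ K ^ r := one_le_pow₀ hK
  obtain ⟨η, η0, η1, η2⟩ : ∃ η : ℝ, 0 < η ∧ η ≤ 1 ∧ 2 * K ^ r * η ≤ ε :=
    ⟨min 1 (ε / (2 * K ^ r)), by positivity, min_le_left _ _, by
      rw [mul_comm, ← le_div_iff₀ (by positivity)]; exact min_le_right _ _⟩
  set x : ℝ := 4 * r with hx
  have x0 : 0 ≤ x := by positivity
  set c : ℝ := x * Real.exp x with hc
  have c0 : 0 ≤ c := by positivity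
  have l0 := Real.log_pos (show 1 < 1 + η / 8 by linarith)
  obtain ⟨Yp, hp⟩ := prec c 45
  obtain ⟨w0, hw⟩ := exists_nat_gt (c / Real.log (1 + η / 8) + 2 * M1 / η)
  have a1 : 0 ≤ c / Real.log (1 + η / 8) := by positivity
  have a2 : 0 ≤ 2 * M1 / η := by positivity
  have w1 : (0 : ℝ) < w0 := by linarith
  have a3 : 0 ≤ x * Tm / Real.log (1 + η / 8) := by positivity
  refine ⟨w0, x * Tm / Real.log (1 + η / 8) + 1, max Yp (8 / η + 2 * M1 / η), ?_⟩
  intro t0 W k Y hY hS hW a1 b1 T S hb hnd hTc hT hn hsub hres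
  obtain ⟨y2, -, -, -, -, -, s1, -, -, s2⟩ := sc W k Y hS
  have hM := s2 T (fun z hz => (hT z hz).1) hn
  have hl := (lks t0 ((k : ℤ) ^ 2) W k Y T hS hnd (fun z hz => ⟨(hT z hz).1, (hT z hz).2.1⟩) hn).2
  have W0 : 0 < W := by have := hS.two; omega
  have q0 : 0 < nT T := Multiset.prod_pos fun p hp => by
    obtain ⟨z, hz, rfl⟩ := Multiset.mem_map.1 hp
    exact (hT z hz).1.pos
  have qW : (nT T).Coprime W := Nat.coprime_of_dvd fun l hl h => by
    obtain ⟨z, hz, rfl⟩ := EEta.dvd_nT (fun z hz => (hT z hz).1) hl h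
    exact (hT z hz).2.1
  obtain ⟨ρ, hρ⟩ := cnt.2.2.1 ((k : ℤ) ^ 2) T hnd fun z hz => (hT z hz).1
  have hS1 : ∀ a ∈ S, a ∈ HH0 t0 W k ∧ ∀ z ∈ T, On a ((k : ℤ) ^ 2) z := fun a ha =>
    mem_filter.1 (hsub ha)
  have eM : Lc W k * PT T = Lc W k / nT T := mul_one_div _ _
  set M := Lc W k * PT T
  have hc2 : (S.card : ℝ) ≤ 2 * M := (Nat.cast_le.2 (card_le_card hsub)).trans hl
  have y3 : 8 / η + 2 * M1 / η ≤ Y := (le_max_right _ _).trans hY
  have y0 : 0 < Y := by linarith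
  have y4 : Y * Y ≤ M := by
    linarith [mul_le_mul_of_nonneg_left (show 1 ≤ Y by linarith) (mul_pos y0 y0).le]
  have y7 : Y ≤ M := by linarith [mul_le_mul_of_nonneg_left y2.le y0.le]
  have a4 : 0 < 8 / η := by positivity
  have y5 : 8 ≤ Y * η := (div_le_iff₀ η0).1 (by linarith)
  have y6 : 2 * M1 ≤ Y * η := (div_le_iff₀ η0).1 (by linarith)
  have M0 : 0 < M := by linarith
  have h1 := mom t0 (a1 * (k : ℤ) ^ 2) b1 ρ W k (nT T) w0 c S
    (S.biUnion fun a => (a1 * (k : ℤ) ^ 2 - a * b1).natAbs.primeFactors) W0 hS.dvd q0 qW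
    (by exact_mod_cast w1) c0 hW hb (fun a ha => (hS1 a ha).1)
    (fun a ha => ⟨(hρ a).1 (hS1 a ha).2, subset_biUnion_of_mem
      (fun a => (a1 * (k : ℤ) ^ 2 - a * b1).natAbs.primeFactors) ha⟩) fun l hl => by
      obtain ⟨a, -, h⟩ := mem_biUnion.1 hl
      exact Nat.prime_of_mem_primeFactors h
  have h2 := hp Y (S.biUnion fun a => (a1 * (k : ℤ) ^ 2 - a * b1).natAbs.primeFactors)
    ((le_max_left _ _).trans hY) fun l hl => by
      obtain ⟨a, ha, h⟩ := mem_biUnion.1 hl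
      refine ⟨Nat.prime_of_mem_primeFactors h, le_trans ?_ (hres a ha).2⟩
      rw [← Int.cast_abs, ← Nat.cast_natAbs]
      exact Nat.cast_le.2 (Nat.le_of_mem_primeFactors h)
  have h3 := EEta.exp_small (x := c) (by positivity : 0 < η / 8) w1 (by linarith)
  have h4 := EEta.exp_small (x := x * Tm) (w := x * Tm / Real.log (1 + η / 8) + 1)
    (by positivity : 0 < η / 8) (by linarith) (by linarith)
  rw [← eM, sum_sub_distrib] at h1
  have key : ∑ a ∈ S, Real.exp (x * sig W (a1 * (k : ℤ) ^ 2 - a * b1)) ≤ η * M + S.card := by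
    refine (sum_le_sum fun a _ => (EEta.split x0 (by linarith) hTc
      (fun z hz => ⟨(hT z hz).1, (hT z hz).2.2⟩) _).trans (mul_le_mul_of_nonneg_right h4
      (prod_nonneg fun _ _ => by positivity))).trans ?_
    rw [← mul_sum]
    simp only [sum_const, nsmul_eq_mul, mul_one] at h1
    have h5 : M * (Real.exp (c / w0) - 1) ≤ M * (η / 8) :=
      mul_le_mul_of_nonneg_left (by linarith) M0.le
    have h6 : Y ≤ M * (η / 8) := by
      linarith [mul_le_mul_of_nonneg_left y5 y0.le, mul_le_mul_of_nonneg_right y4 η0.le]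
    refine (mul_le_mul_of_nonneg_left (b := _) (c := M * (η / 4) + S.card) (by linarith)
      (by positivity)).trans ?_
    linarith [mul_le_mul_of_nonneg_left hc2 η0.le, mul_pos M0 η0,
      mul_le_mul_of_nonneg_left η1 (mul_pos M0 η0).le]
  have e1 : ∀ n : ℤ, Real.exp (4 * sig W n) ^ r = Real.exp (x * sig W n) := fun n => by
    rw [← Real.exp_nat_mul, hx]
    ring_nf
  refine ⟨fun LL => ?_, fun LL hL1 hL2 hL3 => ?_⟩
  · refine (sum_le_sum (g := fun a => K ^ r * Real.exp (x * sig W (a1 * (k : ℤ) ^ 2 - a * b1)))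
      fun a _ => ?_).trans ?_
    · rw [et1, mul_pow, e1, mul_comm, ← neg_sub, sig, Int.natAbs_neg]
      refine mul_le_mul_of_nonneg_right ?_ (Real.exp_pos _).le
      split_ifs
      · rfl
      · rwa [one_pow]
    · rw [← mul_sum]
      linarith [mul_le_mul_of_nonneg_left key (by positivity : 0 ≤ K ^ r),
        mul_le_mul_of_nonneg_left hc2 (by positivity : 0 ≤ K ^ r),
        mul_le_mul_of_nonneg_left η1 (by positivity : 0 ≤ K ^ r * M)]
  have hit : ∀ l ∈ LL, ((S.filter fun a => (l : ℤ) ∣ a1 * (k : ℤ) ^ 2 - a * b1).card : ℝ)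
      ≤ M / w0 + 1 := fun l hl => by
    rcases (S.filter fun a => (l : ℤ) ∣ a1 * (k : ℤ) ^ 2 - a * b1).eq_empty_or_nonempty with
      e | ⟨a0, h0⟩
    · rw [e, card_empty, Nat.cast_zero]
      positivity
    obtain ⟨lp, lW⟩ := hL2 l hl
    have lp' := Nat.prime_iff_prime_int.1 lp
    obtain ⟨g1, g2⟩ := mem_filter.1 h0
    have ql : (nT T).Coprime l := ((Nat.Prime.coprime_iff_not_dvd lp).2 fun h => by
      obtain ⟨z, hz, rfl⟩ := EEta.dvd_nT (fun z hz => (hT z hz).1) lp h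
      refine hL3 z hz hl ((lp'.dvd_or_dvd (a := (k : ℤ) ^ 2) ?_).resolve_left (s1 _ lp lW))
      have := (Dvd.dvd.mul_right ((hS1 a0 g1).2 z hz) b1).sub g2
      rwa [show ((k : ℤ) ^ 2 * z.t - a0) * b1 - (a1 * (k : ℤ) ^ 2 - a0 * b1) =
        (k : ℤ) ^ 2 * (b1 * z.t - a1) by ring] at this).symm
    obtain ⟨s, hs⟩ := cnt.2.1 _ _ ρ a0 ql
    have g3 := (abs_le.1 ((cnt.1 t0 W k W0 hS.dvd).2 (nT T * l) s (mul_pos q0 lp.pos)
      (Nat.Coprime.mul_left qW ((Nat.Prime.coprime_iff_not_dvd lp).2 lW)))).2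
    have g4 : (w0 : ℝ) ≤ l := Nat.cast_le.2 (not_le.1 fun h => lW (hW l lp h)).le
    have g5 : Lc W k / (nT T * l : ℕ) ≤ M / w0 := by
      rw [Nat.cast_mul, ← div_div, ← eM]
      exact div_le_div_of_nonneg_left M0.le w1 g4
    refine (Nat.cast_le.2 (card_le_card fun a ha => ?_)).trans (by linarith)
    obtain ⟨g6, g7⟩ := mem_filter.1 ha
    refine mem_filter.2 ⟨(hS1 a g6).1, (hs a).1 ⟨(hρ a).1 (hS1 a g6).2,
      (lp'.dvd_or_dvd (b := b1) ?_).resolve_right fun h => lW (hb l lp h)⟩⟩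
    have := g2.sub g7
    rwa [show a1 * (k : ℤ) ^ 2 - a0 * b1 - (a1 * (k : ℤ) ^ 2 - a * b1) = (a - a0) * b1 by ring]
      at this
  have hits : ((S.filter fun a => ∃ l ∈ LL, (l : ℤ) ∣ a1 * (k : ℤ) ^ 2 - a * b1).card : ℝ)
      ≤ η * M := by
    refine (Nat.cast_le.2 ((card_le_card (t := LL.biUnion fun l => S.filter fun a =>
      (l : ℤ) ∣ a1 * (k : ℤ) ^ 2 - a * b1) fun a ha => ?_).trans card_biUnion_le)).trans ?_
    · obtain ⟨g1, l, g2, g3⟩ := mem_filter.1 ha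
      exact mem_biUnion.2 ⟨l, g2, mem_filter.2 ⟨g1, g3⟩⟩
    rw [Nat.cast_sum]
    refine (sum_le_card_nsmul _ _ _ hit).trans ?_
    rw [nsmul_eq_mul]
    refine (mul_le_mul_of_nonneg_right (Nat.cast_le.2 hL1) (by positivity)).trans ?_
    have g1 : 2 * M1 ≤ w0 * η := (div_le_iff₀ η0).1 (by linarith)
    have g2 : M1 * (M / w0) ≤ η / 2 * M := by
      rw [← mul_div_assoc, div_le_iff₀ w1]
      linarith [mul_le_mul_of_nonneg_left g1 M0.le]
    linarith [mul_le_mul_of_nonneg_left y7 η0.le]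
  refine (sum_le_sum (g := fun a => K ^ r * (Real.exp (x * sig W (a1 * (k : ℤ) ^ 2 - a * b1)) - 1 +
    if ∃ l ∈ LL, (l : ℤ) ∣ a1 * (k : ℤ) ^ 2 - a * b1 then 1 else 0)) fun a _ => ?_).trans ?_
  · rw [et1, mul_pow, e1]
    have : 1 ≤ Real.exp (x * sig W (a1 * (k : ℤ) ^ 2 - a * b1)) :=
      Real.one_le_exp (mul_nonneg x0 (sum_nonneg fun _ _ => by positivity))
    split_ifs
    · linarith
    · rw [one_pow]
      linarith [mul_le_mul_of_nonneg_right hK1 (sub_nonneg.2 this)]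
  · rw [← mul_sum, sum_add_distrib, sum_sub_distrib, sum_boole]
    simp only [sum_const, nsmul_eq_mul, mul_one]
    refine (mul_le_mul_of_nonneg_left (c := 2 * η * M) (by linarith) (by positivity)).trans ?_
    linarith [mul_le_mul_of_nonneg_right η2 M0.le]

end Pool.Agent.MP_f3836a_nt.VE
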