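import Pool.Agent.MP_f3836a_nt.VE.SpecE0

/-! Lower bound for the law of a sum of uniform variables near the centre. -/

set_option autoImplicit false

namespace Pool.Agent.MP_f3836a_nt.VE

open Finset

namespace EFuL

theorem Fu_zero (U : ℕ) (v : ℤ) : Fu U 0 v = if v = 0 then (U : ℝ) else 0 := by
  simp [Fu, cv, eq_comm]

/-- symmetric and decreasing away from `n / 2` -/
theorem uni_of {F : ℤ → ℝ} {n : ℤ} (h1 : ∀ x, F (n - x) = F x)
    (h2 : ∀ x, n ≤ 2 * x + 1 → F (x + 1) ≤ F x) (x y : ℤ) (h : |2 * x - n| ≤ |2 * y - n|) :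
    F y ≤ F x := by
  have key : ∀ x, n ≤ 2 * x → ∀ y, x ≤ y → F y ≤ F x := fun x hx y hy => by
    induction y, hy using Int.leInduction with
    | base => exact le_rfl
    | succ y hy ih => exact (h2 y (by omega)).trans ih
  rcases abs_cases (2 * x - n) with h3 | h3 <;> rcases abs_cases (2 * y - n) with h4 | h4
  · exact key x (by omega) y (by omega)
  · rw [← h1 y]
    exact key x (by omega) _ (by omega)
  · rw [← h1 x]
    exact key _ (by omega) y (by omega)
  · rw [← h1 x, ← h1 y]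
    exact key _ (by omega) _ (by omega)

theorem uni (hF : FuUS) {U : ℕ} (hU : 0 < U) (j : ℕ) : ∀ x y : ℤ,
    |2 * x - j * (U - 1)| ≤ |2 * y - j * (U - 1)| → Fu U j y ≤ Fu U j x := by
  induction j with
  | zero =>
    intro x y h
    rw [Fu_zero U y]
    split_ifs with hy
    · obtain rfl : x = 0 := by
        simp only [hy, Nat.cast_zero, zero_mul, mul_zero, sub_zero, abs_zero, abs_nonpos_iff] at h
        omega
      simp [Fu_zero]
    · exact (hF U 0 x x hU).1
  | succ j ih =>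
    have hr := fun x => (hF U j x x hU).2.2.2
    refine uni_of (fun x => ?_) fun x hx => ?_
    · rw [hr, hr, ← sum_range_reflect]
      congr 1
      refine sum_congr rfl fun u hu => ?_
      have e : ((U - 1 - u : ℕ) : ℤ) = U - 1 - u := by
        have := mem_range.1 hu
        omega
      have e2 : |2 * (((j + 1 : ℕ) : ℤ) * (U - 1) - x - (U - 1 - u : ℕ)) - j * (U - 1)| =
          |2 * (x - u) - j * (U - 1)| := by
        rw [e, ← abs_neg]
        congr 1
        push_cast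
        ring
      exact le_antisymm (ih _ _ e2.ge) (ih _ _ e2.le)
    · rw [hr, hr]
      refine div_le_div_of_nonneg_right ?_ (Nat.cast_nonneg _)
      have e := (sum_range_succ (fun u : ℕ => Fu U j (x + 1 - u)) U).symm.trans
        (sum_range_succ' _ U)
      simp only [Nat.cast_add, Nat.cast_one, add_sub_add_right_eq_sub, Nat.cast_zero,
        sub_zero] at e
      have := ih (x + 1 - U) (x + 1) (by
        rw [Nat.cast_succ, add_mul] at hx
        generalize (j : ℤ) * (U - 1) = n at hx ⊢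
        exact abs_le.2 ⟨by have := le_abs_self (2 * (x + 1) - n); omega,
          by have := le_abs_self (2 * (x + 1) - n); omega⟩)
      linarith

/-- one averaging step -/
noncomputable def T (U : ℕ) : (ℤ → ℝ) →ₗ[ℝ] ℤ → ℝ :=
  (1 / U : ℝ) • ∑ u ∈ range U, LinearMap.funLeft ℝ ℝ fun x : ℤ => x + u

theorem T_apply (U : ℕ) (φ : ℤ → ℝ) (x : ℤ) : T U φ x = (∑ u ∈ range U, φ (x + u)) / U := by
  simp [T, LinearMap.funLeft_apply, inv_mul_eq_div]

/-- the expectation -/
noncomputable def L (U : ℕ) : ℕ → (ℤ → ℝ) →ₗ[ℝ] ℝ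
  | 0 => LinearMap.proj 0
  | j + 1 => L U j ∘ₗ T U

theorem L_mono (U j : ℕ) : ∀ φ ψ : ℤ → ℝ, (∀ x, φ x ≤ ψ x) → L U j φ ≤ L U j ψ := by
  induction j with
  | zero => exact fun φ ψ h => h 0
  | succ j ih =>
    refine fun φ ψ h => ih _ _ fun x => ?_
    rw [T_apply, T_apply]
    exact div_le_div_of_nonneg_right (sum_le_sum fun u _ => h _) (Nat.cast_nonneg _)

theorem L_pt (hF : FuUS) {U : ℕ} (hU : 0 < U) (j : ℕ) : ∀ z : ℤ,
    L U j (fun x => if z = x then (U : ℝ) else 0) = Fu U j z := by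
  induction j with
  | zero => exact fun z => (Fu_zero U z).symm
  | succ j ih =>
    intro z
    have e : T U (fun x => if z = x then (U : ℝ) else 0) =
        (1 / U : ℝ) • ∑ u ∈ range U, fun x => if z - u = x then (U : ℝ) else 0 := by
      funext x
      simp only [T_apply, Pi.smul_apply, Finset.sum_apply, sub_eq_iff_eq_add, smul_eq_mul,
        one_div_mul_eq_div]
    rw [L, LinearMap.comp_apply, e, map_smul, map_sum, (hF U j z z hU).2.2.2, smul_eq_mul,
      one_div_mul_eq_div]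
    simp only [ih]

theorem pw (n : ℕ) (z α β γ : ℝ) : ∑ u ∈ range n, (α * (z + u) ^ 4 + β * (z + u) ^ 2 + γ) =
    n * (α * (z + (n - 1) / 2) ^ 4 + (α * (n ^ 2 - 1) / 2 + β) * (z + (n - 1) / 2) ^ 2 +
      (α * ((n ^ 2 - 1) * (3 * n ^ 2 - 7) / 240) + β * ((n ^ 2 - 1) / 12) + γ)) := by
  induction n with
  | zero => simp
  | succ n ih =>
    rw [sum_range_succ, ih]
    push_cast
    ring

theorem mom {U : ℕ} (hU : 0 < U) (j : ℕ) : ∀ α β γ : ℝ,
    L U j (fun x => α * (x - j * ((U - 1) / 2)) ^ 4 + β * (x - j * ((U - 1) / 2)) ^ 2 + γ) =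
      α * (3 * j * (j - 1) * ((U ^ 2 - 1) / 12) ^ 2 + j * ((U ^ 2 - 1) * (3 * U ^ 2 - 7) / 240)) +
        β * (j * ((U ^ 2 - 1) / 12)) + γ := by
  have U0 : (U : ℝ) ≠ 0 := by positivity
  induction j with
  | zero => simp [L]
  | succ j ih =>
    intro α β γ
    have e : T U (fun x => α * (x - (j + 1 : ℕ) * ((U - 1) / 2)) ^ 4 +
        β * (x - (j + 1 : ℕ) * ((U - 1) / 2)) ^ 2 + γ) = fun x : ℤ =>
        α * (x - j * ((U - 1) / 2)) ^ 4 + (α * (U ^ 2 - 1) / 2 + β) * (x - j * ((U - 1) / 2)) ^ 2 +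
          (α * ((U ^ 2 - 1) * (3 * U ^ 2 - 7) / 240) + β * ((U ^ 2 - 1) / 12) + γ) := by
      funext x
      rw [T_apply, div_eq_iff U0]
      simp only [Int.cast_add, Int.cast_natCast, add_sub_right_comm]
      rw [pw]
      push_cast
      ring
    rw [L, LinearMap.comp_apply, e, ih]
    push_cast
    ring

end EFuL

open EFuL in
theorem rFuL : OfFuL := by
  intro hF U j R v hU _ hj hR h4 hv
  have j4 : (400 : ℝ) ≤ j := by nlinarith
  have jU : (j : ℝ) ≤ U := by exact_mod_cast hj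
  obtain ⟨r, hr⟩ : ∃ r, r = √(j : ℝ) := ⟨_, rfl⟩
  have r2 : r ^ 2 = j := by rw [hr, Real.sq_sqrt (Nat.cast_nonneg _)]
  have r1 : 1 ≤ r := by rw [hr]; exact Real.one_le_sqrt.2 (by linarith)
  obtain ⟨c, hc⟩ : ∃ c : ℝ, c = j * ((U - 1) / 2) := ⟨_, rfl⟩
  obtain ⟨K, hK⟩ : ∃ K, K = r * U := ⟨_, rfl⟩
  have K0 : 0 ≤ K := by rw [hK]; positivity
  have K2 : K ^ 2 = j * U ^ 2 := by rw [hK, mul_pow, r2]
  have hD : (v - c) ^ 2 ≤ K ^ 2 / 400 := by
    have h1 : |v - c| ≤ (R + 1) * U := by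
      rw [abs_le] at hv ⊢
      constructor <;> linarith [hv.1, hv.2]
    have h2 := pow_le_pow_left₀ (abs_nonneg _) h1 2
    have h3 := mul_le_mul_of_nonneg_right h4 (sq_nonneg (U : ℝ))
    rw [sq_abs] at h2
    linarith
  let S := (Icc ⌈c - K⌉ ⌊c + K⌋).filter fun y : ℤ => |2 * v - j * (U - 1)| ≤ |2 * y - j * (U - 1)|
  have hS : (S.card : ℝ) ≤ 2 * K + 1 := by
    have h1 : S.card ≤ (⌊c + K⌋ + 1 - ⌈c - K⌉).toNat :=
      (card_filter_le _ _).trans_eq (Int.card_Icc _ _)
    have h2 := Int.floor_le (c + K)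
    have h3 := Int.le_ceil (c - K)
    rcases le_total 0 (⌊c + K⌋ + 1 - ⌈c - K⌉) with h | h
    · have h5 : ((S.card : ℤ) : ℝ) ≤ (⌊c + K⌋ + 1 - ⌈c - K⌉ : ℤ) := Int.cast_le.2 (by omega)
      push_cast at h5
      linarith
    · rw [show S.card = 0 by omega, Nat.cast_zero]
      linarith
  have U0 : (0 : ℝ) < U := by linarith
  have h1 := L_mono U j (fun x => -1 * (x - c) ^ 4 + K ^ 2 * (x - c) ^ 2 + -(K ^ 4 / 400))
    ((K ^ 4 / 4 / U) • ∑ z ∈ S, fun x => if z = x then (U : ℝ) else 0) fun x => by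
      simp only [Pi.smul_apply, Finset.sum_apply, sum_ite_eq', smul_eq_mul]
      split_ifs with hx
      · rw [div_mul_cancel₀ _ U0.ne']
        nlinarith [sq_nonneg ((x - c) ^ 2 - K ^ 2 / 2), sq_nonneg (K ^ 2)]
      · rw [mul_zero]
        rcases not_and_or.1 (mem_filter.not.1 hx) with h | h
        · have h2 : K ^ 2 ≤ (x - c) ^ 2 := by
            rw [mem_Icc, Int.ceil_le, Int.le_floor, not_and_or, not_le, not_le] at h
            rcases h with h | h <;> nlinarith
          nlinarith [mul_le_mul_of_nonneg_left h2 (sq_nonneg (x - c)), sq_nonneg (K ^ 2)]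
        · have h2 : (x - c) ^ 2 ≤ (v - c) ^ 2 := by
            have h3 : ((2 * x - j * (U - 1) : ℤ) : ℝ) ^ 2 ≤ ((2 * v - j * (U - 1) : ℤ) : ℝ) ^ 2 := by
              exact_mod_cast sq_le_sq.2 (not_le.1 h).le
            push_cast at h3
            rw [hc]
            linarith
          nlinarith [mul_le_mul_of_nonneg_left (h2.trans hD) (sq_nonneg K), sq_nonneg ((x - c) ^ 2)]
  rw [hc, mom hU, map_smul, map_sum, smul_eq_mul] at h1
  simp only [L_pt hF hU] at h1
  have h0 := (hF U j v v hU).1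
  have h2 : ∑ z ∈ S, Fu U j z ≤ (2 * K + 1) * Fu U j v :=
    (sum_le_card_nsmul _ _ _ fun z hz => uni hF hU j _ _ (mem_filter.1 hz).2).trans
      (by rw [nsmul_eq_mul]; exact mul_le_mul_of_nonneg_right hS h0)
  rw [← hr, div_le_iff₀ (by positivity)]
  by_contra hn
  have h3 : (2 * K + 1) * Fu U j v ≤ 21 / 100 * U := by
    have h5 : 2 * K + 1 ≤ 21 / 10 * r * U := by nlinarith
    have h6 := mul_le_mul_of_nonneg_right h5 h0
    have h7 := mul_le_mul_of_nonneg_right (not_le.1 hn).le U0.le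
    linarith
  have h5 := h1.trans (mul_le_mul_of_nonneg_left (h2.trans h3) (by positivity))
  rw [mul_comm (21 / 100 : ℝ), ← mul_assoc (_ / _), div_mul_cancel₀ _ U0.ne',
    show K ^ 4 = (K ^ 2) ^ 2 by ring, K2] at h5
  have W : (160000 : ℝ) ≤ U ^ 2 := by nlinarith
  generalize (U : ℝ) ^ 2 = w at h5 W
  have j0 : (0 : ℝ) < j := by linarith
  have h6 : 0 < (j : ℝ) * (w * w) := by positivity
  have h7 : 0 ≤ (j : ℝ) * j * (w * (w - 160000)) := by
    have := sub_nonneg.2 W
    positivity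
  have h8 : 0 ≤ (j : ℝ) * (w * (w - 160000)) := by
    have := sub_nonneg.2 W
    positivity
  have h9 : 0 ≤ (j : ℝ) * j * (w - 160000) := by
    have := sub_nonneg.2 W
    positivity
  have h10 : 0 < (j : ℝ) * j * (w * w) := by positivity
  have h11 : 0 ≤ (j : ℝ) * (w - 160000) := by
    have := sub_nonneg.2 W
    positivity
  have h12 : 0 ≤ (j : ℝ) * j := by positivity
  linarith

end Pool.Agent.MP_f3836a_nt.VE
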