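import Pool.Agent.MP_f3836a_nt.VE.SpecE1

/-! The first theorem of Mertens in windows. -/

set_option autoImplicit false

namespace Pool.Agent.MP_f3836a_nt.VE

open Finset

namespace EMert

open ArithmeticFunction

lemma low {N : ℕ} (hN : 1 ≤ N) : Real.log N - 1 ≤ ∑ d ∈ Icc 1 N, vonMangoldt d / d := by
  have hN0 : (0 : ℝ) < N := by exact_mod_cast hN
  have h1 : Real.log N.factorial = ∑ n ∈ Icc 1 N, Real.log n := by
    rw [← Finset.prod_Ico_id_eq_factorial, Nat.cast_prod, Real.log_prod]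
    · rfl
    · intro x hx
      have := (mem_Ico.1 hx).1
      positivity
  have h2 : ∑ n ∈ Icc 1 N, Real.log n =
      ∑ d ∈ Icc 1 N, vonMangoldt d * (((Ioc 0 N).filter fun n => d ∣ n).card : ℝ) := by
    have : ∀ n ∈ Icc 1 N, Real.log n = ∑ d ∈ Icc 1 N, if d ∣ n then vonMangoldt d else 0 := by
      intro n hn
      rw [mem_Icc] at hn
      rw [← vonMangoldt_sum, ← sum_filter]
      congr 1
      ext d
      simp only [Nat.mem_divisors, mem_filter, mem_Icc]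
      constructor
      · rintro ⟨h, h0⟩
        exact ⟨⟨Nat.pos_of_dvd_of_pos h hn.1, (Nat.le_of_dvd hn.1 h).trans hn.2⟩, h⟩
      · rintro ⟨_, h⟩
        exact ⟨h, by omega⟩
    rw [sum_congr rfl this, sum_comm]
    refine sum_congr rfl fun d _ => ?_
    rw [← sum_filter, sum_const, nsmul_eq_mul, mul_comm]
    rfl
  have h3 : ∑ d ∈ Icc 1 N, vonMangoldt d * (((Ioc 0 N).filter fun n => d ∣ n).card : ℝ) ≤
      N * ∑ d ∈ Icc 1 N, vonMangoldt d / d := by
    rw [mul_sum]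
    refine sum_le_sum fun d _ => ?_
    rw [Nat.Ioc_filter_dvd_card_eq_div]
    calc vonMangoldt d * ((N / d : ℕ) : ℝ) ≤ vonMangoldt d * ((N : ℝ) / d) :=
          mul_le_mul_of_nonneg_left Nat.cast_div_le vonMangoldt_nonneg
      _ = _ := by ring
  have h4 : N * Real.log N - N ≤ Real.log N.factorial := by
    have h5 := Real.pow_div_factorial_le_exp (N : ℝ) hN0.le N
    have h6 : (0 : ℝ) < N.factorial := by exact_mod_cast N.factorial_pos
    have h7 := Real.log_le_log (by positivity) h5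
    rw [Real.log_exp, Real.log_div (by positivity) h6.ne', Real.log_pow] at h7
    linarith
  have : N * (Real.log N - 1) ≤ N * ∑ d ∈ Icc 1 N, vonMangoldt d / d := by linarith
  exact le_of_mul_le_mul_left this hN0

lemma pp : ∃ C₀ : ℝ, 0 ≤ C₀ ∧ ∀ N : ℕ,
    ∑ d ∈ (Icc 1 N).filter (fun d => ¬ d.Prime), vonMangoldt d / d ≤ C₀ := by
  have hs : Summable fun m : ℕ => 4 * (1 / (m : ℝ) ^ (3 / 2 : ℝ)) :=
    (Real.summable_one_div_nat_rpow.2 (by norm_num)).mul_left 4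
  refine ⟨∑' m : ℕ, 4 * (1 / (m : ℝ) ^ (3 / 2 : ℝ)), tsum_nonneg fun m => by positivity,
    fun N => ?_⟩
  let P := (Icc 1 N).filter Nat.Prime
  have h1 : ∑ d ∈ (Icc 1 N).filter (fun d => ¬ d.Prime), vonMangoldt d / d ≤
      ∑ d ∈ (P ×ˢ range N).image (fun q => q.1 ^ (q.2 + 2)), vonMangoldt d / (d : ℝ) := by
    rw [← sum_filter_ne_zero]
    refine sum_le_sum_of_subset_of_nonneg (fun d hd => ?_)
      fun p _ _ => div_nonneg vonMangoldt_nonneg (Nat.cast_nonneg _)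
    rw [mem_filter] at hd
    obtain ⟨hd, hne⟩ := hd
    rw [mem_filter, mem_Icc] at hd
    have hpp : IsPrimePow d := by
      by_contra hc
      exact hne (by rw [vonMangoldt_eq_zero_iff.2 hc, zero_div])
    obtain ⟨p, k, hp, hk, rfl⟩ := (isPrimePow_nat_iff _).1 hpp
    have hk2 : 2 ≤ k := by
      by_contra hc
      have : k = 1 := by omega
      subst this
      exact hd.2 (by simpa using hp)
    have hk3 : k < p ^ k := Nat.lt_pow_self hp.one_lt
    have hp2 : p ≤ p ^ k := Nat.le_self_pow (by omega) p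
    refine mem_image.2 ⟨(p, k - 2), ?_, by simp only; congr 1; omega⟩
    simp only [P, mem_product, mem_filter, mem_Icc, mem_range]
    exact ⟨⟨⟨hp.one_le, by omega⟩, hp⟩, by omega⟩
  refine h1.trans ((sum_image_le_of_nonneg fun d _ => div_nonneg vonMangoldt_nonneg
    (Nat.cast_nonneg _)).trans ?_)
  rw [sum_product]
  refine le_trans (sum_le_sum fun p hp => ?_) (hs.sum_le_tsum P fun m _ => by positivity)
  have hpr : p.Prime := (mem_filter.1 hp).2
  have hp2 : (2 : ℝ) ≤ p := by exact_mod_cast hpr.two_le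
  have hp0 : (0 : ℝ) < p := by linarith
  have h2 : ∀ k ∈ range N, vonMangoldt (p ^ (k + 2)) / ((p ^ (k + 2) : ℕ) : ℝ) ≤
      Real.log p / p ^ 2 * (1 / 2) ^ k := by
    intro k _
    rw [vonMangoldt_apply_pow (by omega), vonMangoldt_apply_prime hpr]
    have hl : 0 ≤ Real.log p := Real.log_nonneg (by linarith)
    push_cast
    rw [one_div, inv_pow, ← div_eq_mul_inv, div_div, pow_add, mul_comm ((p : ℝ) ^ k)]
    gcongr
  refine (sum_le_sum h2).trans ?_
  rw [← mul_sum]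
  have h3 := sum_geometric_two_le N
  have h4 : Real.log p ≤ (p : ℝ) ^ (1 / 2 : ℝ) / (1 / 2) := Real.log_le_rpow_div hp0.le (by norm_num)
  have h5 : (p : ℝ) ^ (1 / 2 : ℝ) * (p : ℝ) ^ (3 / 2 : ℝ) = p ^ 2 := by
    rw [← Real.rpow_add hp0]; norm_num
  have h6 : 0 < (p : ℝ) ^ (3 / 2 : ℝ) := by positivity
  have h7 : 0 < (p : ℝ) ^ (1 / 2 : ℝ) := by positivity
  calc Real.log p / p ^ 2 * ∑ k ∈ range N, (1 / 2 : ℝ) ^ k
      ≤ ((p : ℝ) ^ (1 / 2 : ℝ) / (1 / 2)) / p ^ 2 * 2 := by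
        gcongr
    _ = _ := by rw [← h5]; field_simp; norm_num

lemma upp {N : ℕ} (hN : 1 ≤ N) : ∑ d ∈ Icc 1 N, vonMangoldt d / d ≤ Real.log N + 6 := by
  have hN0 : (0 : ℝ) < N := by exact_mod_cast hN
  have h2 : ∑ n ∈ Icc 1 N, Real.log n =
      ∑ d ∈ Icc 1 N, vonMangoldt d * (((Ioc 0 N).filter fun n => d ∣ n).card : ℝ) := by
    have : ∀ n ∈ Icc 1 N, Real.log n = ∑ d ∈ Icc 1 N, if d ∣ n then vonMangoldt d else 0 := by
      intro n hn
      rw [mem_Icc] at hn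
      rw [← vonMangoldt_sum, ← sum_filter]
      congr 1
      ext d
      simp only [Nat.mem_divisors, mem_filter, mem_Icc]
      constructor
      · rintro ⟨h, h0⟩
        exact ⟨⟨Nat.pos_of_dvd_of_pos h hn.1, (Nat.le_of_dvd hn.1 h).trans hn.2⟩, h⟩
      · rintro ⟨_, h⟩
        exact ⟨h, by omega⟩
    rw [sum_congr rfl this, sum_comm]
    refine sum_congr rfl fun d _ => ?_
    rw [← sum_filter, sum_const, nsmul_eq_mul, mul_comm]
    rfl
  have h3 : N * ∑ d ∈ Icc 1 N, vonMangoldt d / d - ∑ d ∈ Icc 1 N, vonMangoldt d ≤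
      ∑ d ∈ Icc 1 N, vonMangoldt d * (((Ioc 0 N).filter fun n => d ∣ n).card : ℝ) := by
    rw [mul_sum, ← sum_sub_distrib]
    refine sum_le_sum fun d hd => ?_
    rw [Nat.Ioc_filter_dvd_card_eq_div]
    have hd0 : (0 : ℝ) < d := by exact_mod_cast (mem_Icc.1 hd).1
    have h5 : (N : ℝ) / d - 1 ≤ ((N / d : ℕ) : ℝ) := by
      have := Nat.lt_floor_add_one ((N : ℝ) / d)
      rw [Nat.floor_div_eq_div] at this
      linarith
    calc N * (vonMangoldt d / d) - vonMangoldt d = vonMangoldt d * ((N : ℝ) / d - 1) := by ring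
      _ ≤ _ := mul_le_mul_of_nonneg_left h5 vonMangoldt_nonneg
  have h4 : ∑ n ∈ Icc 1 N, Real.log n ≤ N * Real.log N := by
    calc ∑ n ∈ Icc 1 N, Real.log n ≤ ∑ _n ∈ Icc 1 N, Real.log N := by
          refine sum_le_sum fun n hn => ?_
          rw [mem_Icc] at hn
          exact Real.log_le_log (by exact_mod_cast hn.1) (by exact_mod_cast hn.2)
      _ = _ := by simp
  have h5 : ∑ d ∈ Icc 1 N, vonMangoldt d ≤ 6 * N := by
    have h6 := Chebyshev.psi_le_const_mul_self hN0.le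
    have h7 : Chebyshev.psi N = ∑ d ∈ Icc 1 N, vonMangoldt d := by
      simp [Chebyshev.psi, ← Icc_add_one_left_eq_Ioc]
    have h8 : Real.log 4 ≤ 2 := by
      rw [show (4 : ℝ) = 2 ^ 2 by norm_num, Real.log_pow]
      push_cast
      linarith [Real.log_two_lt_d9]
    rw [← h7]
    nlinarith
  have : N * ∑ d ∈ Icc 1 N, vonMangoldt d / d ≤ N * (Real.log N + 6) := by linarith
  exact le_of_mul_le_mul_left this hN0

/-- The sum of `log p / p` over primes up to `x`. -/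
noncomputable def Ms (x : ℝ) : ℝ := ∑ p ∈ (Icc 1 ⌊x⌋₊).filter Nat.Prime, Real.log p / p

lemma mertens : ∃ K : ℝ, 0 ≤ K ∧ ∀ x : ℝ, 1 ≤ x → |Ms x - Real.log x| ≤ K := by
  obtain ⟨C₀, hC0, hC⟩ := pp
  refine ⟨C₀ + 6, by linarith, fun x hx => ?_⟩
  have hN : 1 ≤ ⌊x⌋₊ := Nat.le_floor (by simpa using hx)
  have hN0 : (1 : ℝ) ≤ ⌊x⌋₊ := by exact_mod_cast hN
  have h1 := upp hN
  have h2 := low hN
  have h3 := hC ⌊x⌋₊
  have h4 : Ms x + ∑ d ∈ (Icc 1 ⌊x⌋₊).filter (fun d => ¬ d.Prime), vonMangoldt d / d =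
      ∑ d ∈ Icc 1 ⌊x⌋₊, vonMangoldt d / d := by
    rw [← sum_filter_add_sum_filter_not (Icc 1 ⌊x⌋₊) Nat.Prime]
    congr 1
    refine sum_congr rfl fun p hp => ?_
    rw [vonMangoldt_apply_prime (mem_filter.1 hp).2]
  have h5 : 0 ≤ ∑ d ∈ (Icc 1 ⌊x⌋₊).filter (fun d => ¬ d.Prime), vonMangoldt d / (d : ℝ) :=
    sum_nonneg fun d _ => div_nonneg vonMangoldt_nonneg (Nat.cast_nonneg _)
  have h6 : Real.log ⌊x⌋₊ ≤ Real.log x := Real.log_le_log (by linarith) (Nat.floor_le (by linarith))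
  have h7 : Real.log x ≤ Real.log ⌊x⌋₊ + 1 := by
    have h8 : x ≤ 2 * (⌊x⌋₊ : ℝ) := by
      have := Nat.lt_floor_add_one x
      linarith
    have h9 := Real.log_le_log (by linarith) h8
    rw [Real.log_mul (by norm_num) (by linarith)] at h9
    linarith [Real.log_two_lt_d9]
  rw [abs_le]
  constructor <;> linarith

/-- The sum of `log p / p` over primes below `x`. -/
noncomputable def Mt (x : ℝ) : ℝ := ∑ p ∈ (range ⌈x⌉₊).filter Nat.Prime, Real.log p / p

lemma nn (p : ℕ) : 0 ≤ Real.log p / p := div_nonneg (Real.log_natCast_nonneg p) (Nat.cast_nonneg p)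

lemma cmp {x : ℝ} (hx : 1 ≤ x) : Mt x ≤ Ms x ∧ Ms x ≤ Mt x + 1 := by
  constructor
  · refine sum_le_sum_of_subset_of_nonneg (fun p hp => ?_) fun p _ _ => nn p
    rw [mem_filter, mem_range, Nat.lt_ceil] at hp
    exact mem_filter.2 ⟨mem_Icc.2 ⟨hp.2.one_le, Nat.le_floor hp.1.le⟩, hp.2⟩
  · have h1 : Ms x ≤ ∑ p ∈ insert ⌊x⌋₊ ((range ⌈x⌉₊).filter Nat.Prime), Real.log p / p := by
      refine sum_le_sum_of_subset_of_nonneg (fun p hp => ?_) fun p _ _ => nn p
      rw [mem_filter, mem_Icc] at hp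
      rcases hp.1.2.eq_or_lt with e | e
      · exact mem_insert.2 (Or.inl e)
      · exact mem_insert_of_mem (mem_filter.2 ⟨mem_range.2 (e.trans_le (Nat.floor_le_ceil x)), hp.2⟩)
    have hN : (1 : ℝ) ≤ ⌊x⌋₊ := by exact_mod_cast (Nat.le_floor (by simpa using hx) : 1 ≤ ⌊x⌋₊)
    have h2 : Real.log ⌊x⌋₊ / ⌊x⌋₊ ≤ 1 := by
      rw [div_le_one (by linarith)]
      linarith [Real.log_le_sub_one_of_pos (show (0 : ℝ) < ⌊x⌋₊ by linarith)]
    by_cases h : ⌊x⌋₊ ∈ (range ⌈x⌉₊).filter Nat.Prime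
    · rw [insert_eq_of_mem h] at h1
      exact h1.trans (le_add_of_nonneg_right zero_le_one)
    · rw [sum_insert h] at h1
      rw [Mt]
      linarith

end EMert

open EMert in
theorem rMert : MertS := by
  obtain ⟨K, hK, h⟩ := mertens
  refine ⟨2 * K + 2, by linarith, fun lo hi P h1 h2 hP => ?_⟩
  have e : P = (range ⌈hi⌉₊).filter Nat.Prime \ (range ⌈lo⌉₊).filter Nat.Prime := by
    ext p
    simp only [hP, mem_sdiff, mem_filter, mem_range, Nat.lt_ceil, not_and', not_lt]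
    exact ⟨fun a => ⟨⟨a.2.2, a.1⟩, fun _ => a.2.1⟩, fun a => ⟨a.1.2, a.2 a.1.2, a.1.1⟩⟩
  rw [e, sum_sdiff_eq_sub (filter_subset_filter _ (range_subset_range.2 (Nat.ceil_mono h2)))]
  have a1 := abs_le.1 (h lo h1)
  have a2 := abs_le.1 (h hi (h1.trans h2))
  have a3 := cmp h1
  have a4 := cmp (h1.trans h2)
  unfold Mt at a3 a4
  rw [abs_le]
  constructor <;> linarith [a1.1, a1.2, a2.1, a2.2, a3.1, a3.2, a4.1, a4.2]

theorem rPrec : OfPrec := by
  rintro ⟨K, hK, h⟩ c E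
  obtain ⟨w, hw⟩ : ∃ w : ℝ, w = 2 * |c| * E + 1 := ⟨_, rfl⟩
  have hw1 : 1 ≤ w := by rw [hw]; linarith [show 0 ≤ 2 * |c| * E by positivity]
  refine ⟨max 1 (Real.exp (2 * |c| * (⌈Real.exp w⌉₊ + K + 1))), fun Y P hY hP => ?_⟩
  have hY1 : 1 ≤ Y := (le_max_left _ _).trans hY
  have hl : 2 * |c| * (⌈Real.exp w⌉₊ + K + 1) ≤ Real.log Y :=
    (Real.le_log_iff_exp_le (by linarith)).2 ((le_max_right _ _).trans hY)
  have hl0 : 0 ≤ Real.log Y := Real.log_nonneg hY1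
  have hE : 1 ≤ Y ^ E := one_le_pow₀ hY1
  have h1 := (abs_le.1 (h 1 (2 * Y ^ E) ((range ⌈2 * Y ^ E⌉₊).filter Nat.Prime) le_rfl (by linarith)
    fun p => by
      rw [mem_filter, mem_range, Nat.lt_ceil]
      exact ⟨fun a => ⟨a.2, by exact_mod_cast a.2.one_le, a.1⟩, fun a => ⟨a.2.2, a.1⟩⟩)).2
  rw [Real.log_one, Real.log_mul two_ne_zero (by linarith), Real.log_pow] at h1
  have h2 : ∑ p ∈ P.filter (fun p : ℕ => (p : ℝ) < Real.exp w), (1 : ℝ) / p ≤ ⌈Real.exp w⌉₊ := by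
    refine (sum_le_card_nsmul _ _ 1 fun p hp => ?_).trans ?_
    · rw [div_le_one (by exact_mod_cast (hP p (mem_filter.1 hp).1).1.pos)]
      exact_mod_cast (hP p (mem_filter.1 hp).1).1.one_le
    · rw [nsmul_eq_mul, mul_one, Nat.cast_le]
      refine (card_le_card (t := range ⌈Real.exp w⌉₊) fun p hp => ?_).trans (card_range _).le
      exact mem_range.2 (Nat.lt_ceil.2 (mem_filter.1 hp).2)
  have h3 : w * ∑ p ∈ P.filter (fun p : ℕ => ¬(p : ℝ) < Real.exp w), (1 : ℝ) / p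
      ≤ ∑ p ∈ (range ⌈2 * Y ^ E⌉₊).filter Nat.Prime, Real.log p / p := by
    rw [mul_sum]
    refine (sum_le_sum fun p hp => ?_).trans
      (sum_le_sum_of_subset_of_nonneg (fun p hp => ?_) fun p _ _ => EMert.nn p)
    · rw [mem_filter, not_lt] at hp
      have hp0 : (0 : ℝ) < p := by exact_mod_cast (hP p hp.1).1.pos
      rw [mul_one_div]
      exact div_le_div_of_nonneg_right ((Real.le_log_iff_exp_le hp0).2 hp.2) hp0.le
    · have := hP p (mem_filter.1 hp).1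
      exact mem_filter.2 ⟨mem_range.2 (Nat.lt_ceil.2 (by linarith [this.2])), this.1⟩
  obtain ⟨b, hb⟩ : ∃ b : ℝ, b = ∑ p ∈ P.filter (fun p : ℕ => ¬(p : ℝ) < Real.exp w), (1 : ℝ) / p :=
    ⟨_, rfl⟩
  have hb0 : 0 ≤ b := hb ▸ sum_nonneg fun p _ => by positivity
  rw [← hb] at h3
  have h4 : w * b ≤ E * Real.log Y + K + 1 := by linarith [Real.log_two_lt_d9]
  have hc := abs_nonneg c
  have h5 : |c| * b ≤ Real.log Y / 2 + |c| * (K + 1) := by
    refine le_of_mul_le_mul_left ?_ (show 0 < w by linarith)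
    have a1 : |c| * (w * b) ≤ |c| * (E * Real.log Y + K + 1) := mul_le_mul_of_nonneg_left h4 hc
    have a2 : |c| * (K + 1) ≤ w * (|c| * (K + 1)) := le_mul_of_one_le_left (by positivity) hw1
    have a3 : |c| * E * Real.log Y ≤ w * (Real.log Y / 2) := by rw [hw]; nlinarith
    nlinarith
  rw [← Real.le_log_iff_exp_le (by linarith), ← sum_filter_add_sum_filter_not P
    (fun p : ℕ => (p : ℝ) < Real.exp w), ← hb]
  have h6 : 0 ≤ ∑ p ∈ P.filter (fun p : ℕ => (p : ℝ) < Real.exp w), (1 : ℝ) / p :=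
    sum_nonneg fun p _ => by positivity
  have h7 := mul_le_mul_of_nonneg_right (le_abs_self c) (add_nonneg h6 hb0)
  have h8 := mul_le_mul_of_nonneg_left h2 hc
  nlinarith

end Pool.Agent.MP_f3836a_nt.VE
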