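import Pool.Agent.MP_f3836a_nt.VE.SpecE1

/-! A moment bound. -/

set_option autoImplicit false

namespace Pool.Agent.MP_f3836a_nt.VE

open Finset

namespace EMom

theorem exp1 (s : Finset ℕ) (f : ℕ → ℝ) :
    ∏ i ∈ s, (1 + f i) - 1 = ∑ t ∈ s.powerset.erase ∅, ∏ i ∈ t, f i := by
  rw [prod_one_add, ← add_sum_erase _ _ (empty_mem_powerset s), prod_empty, add_sub_cancel_left]

theorem cnt (hC : CntS) {t0 u v r : ℤ} {W k q : ℕ} {S : Finset ℤ} {D : Finset ℕ} (hW : 0 < W)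
    (hk : W ∣ k) (hq : 0 < q) (hqW : q.Coprime W) (hv : ∀ l : ℕ, l.Prime → (l : ℤ) ∣ v → l ∣ W)
    (hS : S ⊆ HH0 t0 W k) (hr : ∀ a ∈ S, (q : ℤ) ∣ a - r)
    (hD : ∀ l ∈ D, l.Prime ∧ ¬l ∣ W ∧ ¬l ∣ q) :
    ((S.filter fun a => ∀ l ∈ D, (l : ℤ) ∣ u - a * v).card : ℝ) ≤
      Lc W k / q * ∏ l ∈ D, (l : ℝ)⁻¹ + 1 := by
  obtain e | ⟨b, hb⟩ := (S.filter fun a => ∀ l ∈ D, (l : ℤ) ∣ u - a * v).eq_empty_or_nonempty
  · rw [e, card_empty, Nat.cast_zero]
    unfold Lc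
    positivity
  obtain ⟨b1, b2⟩ := mem_filter.1 hb
  have h1 := (abs_le.1 ((hC.1 t0 W k hW hk).2 (q * ∏ l ∈ D, l) b
    (mul_pos hq (prod_pos fun l hl => (hD l hl).1.pos)) (hqW.mul_left (Nat.Coprime.prod_left
      fun l hl => (hD l hl).1.coprime_iff_not_dvd.2 (hD l hl).2.1)))).2
  have h2 : (S.filter fun a => ∀ l ∈ D, (l : ℤ) ∣ u - a * v) ⊆
      (HH0 t0 W k).filter fun a => ((q * ∏ l ∈ D, l : ℕ) : ℤ) ∣ a - b := fun a ha => by
    obtain ⟨a1, a2⟩ := mem_filter.1 ha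
    refine mem_filter.2 ⟨hS a1, Int.natCast_dvd.2 (Nat.Coprime.mul_dvd_of_dvd_of_dvd
      (Nat.Coprime.prod_right fun l hl => ((hD l hl).1.coprime_iff_not_dvd.2 (hD l hl).2.2).symm)
      (Int.natCast_dvd.1 ?_) (prod_primes_dvd _ (fun l hl => (hD l hl).1.prime) fun l hl =>
        Int.natCast_dvd.1 ?_))⟩
    · simpa using dvd_sub (hr a a1) (hr b b1)
    · have h3 : (l : ℤ) ∣ (a - b) * v := by
        rw [show (a - b) * v = u - b * v - (u - a * v) by ring]
        exact dvd_sub (b2 l hl) (a2 l hl)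
      exact ((Nat.prime_iff_prime_int.1 (hD l hl).1).dvd_or_dvd h3).resolve_right
        fun e => (hD l hl).2.1 (hv l (hD l hl).1 e)
  have h3 : (_ : ℝ) ≤ _ := Nat.cast_le.2 (card_le_card h2)
  rw [prod_inv_distrib, ← div_eq_mul_inv, div_div]
  push_cast at h1 h3
  linarith

end EMom

open EMom in
theorem rMom : OfMom := by
  intro hC t0 u v r W k q w c S R hW hk hq hqW hw hc hsm hv hS hr hR
  set R' := R.filter fun l => ¬l ∣ W ∧ ¬l ∣ q with hR'
  have L0 : 0 ≤ Lc W k / q := by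
    unfold Lc
    positivity
  have h1 : ∀ a ∈ S, ∏ l ∈ (u - a * v).natAbs.primeFactors.filter fun l => ¬l ∣ W ∧ ¬l ∣ q,
      (1 + c / l) - 1 ≤ ∑ D ∈ R'.powerset.erase ∅,
        if ∀ l ∈ D, (l : ℤ) ∣ u - a * v then ∏ l ∈ D, c / l else 0 := fun a ha => by
    have e := exp1 R' fun l => if (l : ℤ) ∣ u - a * v then c / l else 0
    simp only [prod_ite_zero] at e
    rw [← e]
    refine sub_le_sub_right (le_trans (le_of_eq (prod_congr rfl fun l hl => ?_))
      (prod_le_prod_of_subset_of_one_le (filter_subset_filter _ (hr a ha).2)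
        (fun l _ => by positivity) fun l _ _ => le_add_of_nonneg_right (by positivity))) 1
    rw [if_pos (Int.natCast_dvd.2 (Nat.dvd_of_mem_primeFactors (mem_filter.1 hl).1))]
  refine (sum_le_sum h1).trans ?_
  rw [sum_comm]
  refine le_trans (sum_le_sum (g := fun D : Finset ℕ =>
    Lc W k / q * ∏ l ∈ D, c * ((l : ℝ) ^ 2)⁻¹ + ∏ l ∈ D, c / l) fun D hD => ?_) ?_
  · rw [← sum_filter, sum_const, nsmul_eq_mul]
    refine (mul_le_mul_of_nonneg_right (cnt hC hW hk hq hqW hv hS (fun a ha => (hr a ha).1)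
      fun l hl => ?_) (prod_nonneg fun l _ => by positivity)).trans_eq ?_
    · have := mem_filter.1 (mem_powerset.1 (mem_of_mem_erase hD) hl)
      exact ⟨hR l this.1, this.2⟩
    · rw [add_mul, one_mul, mul_assoc, ← prod_mul_distrib]
      congr 2
      exact prod_congr rfl fun l _ => by ring
  rw [sum_add_distrib, ← mul_sum, ← exp1, ← exp1]
  have h2 : ∑ l ∈ R', ((l : ℝ) ^ 2)⁻¹ ≤ (w : ℝ)⁻¹ := by
    refine (sum_le_sum_of_subset_of_nonneg (t := Ioc w (w + R.sup id)) (fun l hl => ?_)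
      fun _ _ _ => by positivity).trans ((sum_Ioc_inv_sq_le_sub hw.ne' (Nat.le_add_right _ _)).trans
        (sub_le_self _ (by positivity)))
    obtain ⟨a1, a2, -⟩ := mem_filter.1 hl
    exact mem_Ioc.2 ⟨not_le.1 fun e => a2 (hsm l (hR l a1) e),
      le_add_left (le_sup (f := id) a1)⟩
  have h3 := (Real.prod_one_add_le_exp_sum R' (f := fun l => c * ((l : ℝ) ^ 2)⁻¹)
    fun l => by positivity).trans (Real.exp_le_exp.2 (show _ ≤ c / w by
      rw [← mul_sum]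
      exact mul_le_mul_of_nonneg_left h2 hc))
  have h4 := (Real.prod_one_add_le_exp_sum R' (f := fun l => c / l)
    fun l => by positivity).trans (Real.exp_le_exp.2 (show _ ≤ c * ∑ l ∈ R, (1 : ℝ) / l by
      simp only [mul_sum, mul_one_div]
      exact sum_le_sum_of_subset_of_nonneg (filter_subset _ _) fun _ _ _ => by positivity))
  have h5 := mul_le_mul_of_nonneg_left (sub_le_sub_right h3 1) L0
  linarith

end Pool.Agent.MP_f3836a_nt.VE
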