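import Pool.Agent.MP_f3836a_nt.VE.SpecE3

/-! Existence of the parameters of a level. -/

set_option autoImplicit false

namespace Pool.Agent.MP_f3836a_nt.VE

open Filter Topology

namespace XLv

theorem ev (C q : ℝ) (k m0 : ℕ) (h0 : 0 ≤ q) (h1 : q < 1) :
    ∃ m : ℕ, m0 ≤ m ∧ C * ((m : ℝ) ^ k * q ^ m) ≤ 1 := by
  have ht : Tendsto (fun n : ℕ => C * ((n : ℝ) ^ k * q ^ n)) atTop (𝓝 (C * 0)) :=
    (tendsto_pow_const_mul_const_pow_of_abs_lt_one k (by rwa [abs_of_nonneg h0])).const_mul C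
  rw [mul_zero] at ht
  have h2 : ∀ᶠ n : ℕ in atTop, C * ((n : ℝ) ^ k * q ^ n) ≤ 1 :=
    ht.eventually (ge_mem_nhds one_pos)
  obtain ⟨m, hm1, hm2⟩ := ((eventually_ge_atTop m0).and h2).exists
  exact ⟨m, hm1, hm2⟩

/-- the small parameters -/
theorem small (Cb Λ ε θ d B : ℝ) (hCb : 1 ≤ Cb) (hΛ : 1 ≤ Λ) (hε : 0 < ε) (hθ : 0 < θ)
    (hd : 0 < d) (hB : 0 < B) :
    ∃ (Km : ℕ) (e e0 d' : ℝ),
      (0 < e ∧ 0 < Km ∧ Cb * Λ * Λ * (2 * e + 1 / Km) ≤ ε ∧ 64 * e ≤ d ∧ B * e ≤ θ ^ 2) ∧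
      (0 < d' ∧ d' ≤ d ∧ Cb * d' ≤ e ^ 3 / 16) ∧
      (0 < e0 ∧ e0 ≤ e ^ 3 / 16 ∧ e0 ≤ ε ∧ Λ * e0 ≤ 1 ∧ Km * e0 ≤ 1) := by
  have hC0 : 0 < Cb := by linarith
  have hΛ0 : 0 < Λ := by linarith
  obtain ⟨P, hP⟩ : ∃ P : ℝ, P = Cb * Λ * Λ := ⟨_, rfl⟩
  have hP0 : 0 < P := by rw [hP]; positivity
  obtain ⟨Km, hKm⟩ : ∃ Km : ℕ, Km = ⌈2 * P / ε⌉₊ + 1 := ⟨_, rfl⟩
  have hKm0 : 0 < Km := by omega
  have hKm0' : (0 : ℝ) < Km := by exact_mod_cast hKm0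
  have hKm1 : 2 * P / ε ≤ Km := by
    rw [hKm]; push_cast
    have := Nat.le_ceil (2 * P / ε)
    linarith
  have hKm2 : P * (1 / Km) ≤ ε / 2 := by
    rw [div_le_iff₀ hε] at hKm1
    rw [mul_one_div, div_le_iff₀ hKm0']
    linarith
  obtain ⟨e, he⟩ : ∃ e : ℝ, e = min (min (ε / (4 * P)) (d / 64)) (θ ^ 2 / B) := ⟨_, rfl⟩
  have he0 : 0 < e := by
    rw [he]
    exact lt_min (lt_min (by positivity) (by positivity)) (by positivity)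
  have he1 : e ≤ ε / (4 * P) := by rw [he]; exact (min_le_left _ _).trans (min_le_left _ _)
  have he2 : e ≤ d / 64 := by rw [he]; exact (min_le_left _ _).trans (min_le_right _ _)
  have he3 : e ≤ θ ^ 2 / B := by rw [he]; exact min_le_right _ _
  refine ⟨Km, e, min (min (e ^ 3 / 16) ε) (min (1 / Λ) (1 / Km)), min d (e ^ 3 / (16 * Cb)),
    ⟨he0, hKm0, ?_, by linarith, ?_⟩, ⟨lt_min hd (by positivity), min_le_left _ _, ?_⟩,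
    ⟨lt_min (lt_min (by positivity) hε) (lt_min (by positivity) (by positivity)),
      (min_le_left _ _).trans (min_le_left _ _), (min_le_left _ _).trans (min_le_right _ _),
      ?_, ?_⟩⟩
  · rw [← hP]
    rw [le_div_iff₀ (by positivity)] at he1
    rw [mul_add]
    linarith
  · rw [le_div_iff₀ hB] at he3
    linarith
  · have h : min d (e ^ 3 / (16 * Cb)) ≤ e ^ 3 / (16 * Cb) := min_le_right _ _
    rw [le_div_iff₀ (by positivity)] at h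
    linarith
  · have h : min (min (e ^ 3 / 16) ε) (min (1 / Λ) (1 / Km)) ≤ 1 / Λ :=
      (min_le_right _ _).trans (min_le_left _ _)
    rw [le_div_iff₀ hΛ0] at h
    linarith
  · have h : min (min (e ^ 3 / 16) ε) (min (1 / Λ) (1 / Km)) ≤ 1 / Km :=
      (min_le_right _ _).trans (min_le_right _ _)
    rw [le_div_iff₀ hKm0'] at h
    linarith

end XLv

theorem xLv : LvS := by
  intro Cb AF N' κ0 J0 A' N k1 d hCb hN' hA' hd hd1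
  have hC0 : 0 < Cb := by linarith
  obtain ⟨q, hq⟩ : ∃ q : ℝ, q = 1 - d ^ 2 / Cb := ⟨_, rfl⟩
  have hd2 : d ^ 2 ≤ 1 := by nlinarith
  have hq0 : 0 ≤ q := by
    have : d ^ 2 / Cb ≤ 1 := by rw [div_le_one hC0]; linarith
    linarith
  have hq1 : q < 1 := by
    have : 0 < d ^ 2 / Cb := by positivity
    linarith
  have hq2 : 1 - 1 / Cb ≤ q := by
    have : d ^ 2 / Cb ≤ 1 / Cb := div_le_div_of_nonneg_right hd2 hC0.le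
    linarith
  have hq3 : 0 ≤ 1 - 1 / Cb := by
    have : 1 / Cb ≤ 1 := by rw [div_le_one hC0]; linarith
    linarith
  obtain ⟨c, hc⟩ : ∃ c : ℝ, c = Cb * (N' * (2 * A') * (1 + N + k1)) := ⟨_, rfl⟩
  obtain ⟨m, hm0, hm⟩ := XLv.ev (40 * Cb ^ 2 * ((J0 : ℝ) + 4) ^ 6 * c ^ (12 * AF + 1)) q
    (12 * AF + 1) (κ0 + 1) hq0 hq1
  have hm1 : (1 : ℝ) ≤ m := by exact_mod_cast (by omega : 1 ≤ m)
  obtain ⟨κ, hκ⟩ : ∃ κ : ℕ, κ = N' * (2 * A') * (m + N + k1) := ⟨_, rfl⟩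
  have hκ1 : m + N + k1 ≤ κ := by
    rw [hκ]
    exact Nat.le_mul_of_pos_left _ (by positivity)
  obtain ⟨Λ, hΛ⟩ : ∃ Λ : ℝ, Λ = Cb * κ := ⟨_, rfl⟩
  have hκ2 : (1 : ℝ) ≤ κ := by exact_mod_cast (by omega : 1 ≤ κ)
  have hΛ1 : 1 ≤ Λ := by rw [hΛ]; nlinarith
  have hΛ0 : 0 < Λ := by linarith
  have hΛc : Λ ≤ c * m := by
    rw [hΛ, hc, hκ, mul_assoc Cb]
    refine mul_le_mul_of_nonneg_left ?_ hC0.le
    push_cast
    rw [mul_assoc ((N' : ℝ) * (2 * A'))]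
    refine mul_le_mul_of_nonneg_left ?_ (by positivity)
    have h1 : (0 : ℝ) ≤ N := by positivity
    have h2 : (0 : ℝ) ≤ k1 := by positivity
    nlinarith
  obtain ⟨L, hL⟩ : ∃ L : ℝ, L = Λ ^ AF := ⟨_, rfl⟩
  have hL1 : 1 ≤ L := by rw [hL]; exact one_le_pow₀ hΛ1
  have hL0 : 0 < L := by linarith
  obtain ⟨J1, hJ1⟩ : ∃ J1 : ℕ, J1 = ⌈2 * L⌉₊ + J0 := ⟨_, rfl⟩
  obtain ⟨M, hM⟩ : ∃ M : ℝ, M = (J1 : ℝ) + 1 := ⟨_, rfl⟩
  have hJ0 : (0 : ℝ) ≤ J0 := by positivity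
  have hM1 : 2 * L ≤ M := by
    rw [hM, hJ1]; push_cast
    have := Nat.le_ceil (2 * L)
    linarith
  have hM2 : M ≤ (J0 + 4) * L := by
    rw [hM, hJ1]; push_cast
    have := (Nat.ceil_lt_add_one (by positivity : (0 : ℝ) ≤ 2 * L)).le
    nlinarith
  have hM0 : 0 < M := by linarith
  obtain ⟨θ, hθ⟩ : ∃ θ : ℝ, θ = 1 / (M * L) ^ 3 := ⟨_, rfl⟩
  have hθ0 : 0 < θ := by rw [hθ]; positivity
  have hML : 2 ≤ M * L := by nlinarith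
  have hθ1 : θ ≤ 1 / 2 := by
    rw [hθ]
    refine one_div_le_one_div_of_le (by norm_num) ?_
    calc (2 : ℝ) ≤ 2 ^ 3 := by norm_num
      _ ≤ (M * L) ^ 3 := pow_le_pow_left₀ (by norm_num) hML 3
  obtain ⟨ε, hε⟩ : ∃ ε : ℝ, ε = θ ^ 2 / (40 * Cb) := ⟨_, rfl⟩
  have hε0 : 0 < ε := by rw [hε]; positivity
  have hε1 : ε ≤ 1 := by
    rw [hε, div_le_one (by positivity)]
    nlinarith
  have key : Cb * Λ * q ^ m ≤ ε := by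
    have h1 : (M * L) ^ 6 ≤ ((J0 : ℝ) + 4) ^ 6 * Λ ^ (12 * AF) := by
      have h2 : M * L ≤ (J0 + 4) * L ^ 2 := by nlinarith
      calc (M * L) ^ 6 ≤ ((J0 + 4) * L ^ 2) ^ 6 := pow_le_pow_left₀ (by positivity) h2 6
        _ = ((J0 : ℝ) + 4) ^ 6 * Λ ^ (12 * AF) := by rw [hL]; ring
    have h3 : Λ ^ (12 * AF + 1) ≤ c ^ (12 * AF + 1) * (m : ℝ) ^ (12 * AF + 1) := by
      rw [← mul_pow]
      exact pow_le_pow_left₀ hΛ0.le hΛc _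
    have h4 : ε = 1 / (40 * Cb * (M * L) ^ 6) := by
      rw [hε, hθ]; field_simp
    have hqm : 0 ≤ q ^ m := pow_nonneg hq0 m
    rw [h4, le_div_iff₀ (by positivity)]
    calc Cb * Λ * q ^ m * (40 * Cb * (M * L) ^ 6)
        ≤ Cb * Λ * q ^ m * (40 * Cb * (((J0 : ℝ) + 4) ^ 6 * Λ ^ (12 * AF))) := by
          gcongr
      _ = 40 * Cb ^ 2 * ((J0 : ℝ) + 4) ^ 6 * q ^ m * Λ ^ (12 * AF + 1) := by ring
      _ ≤ 40 * Cb ^ 2 * ((J0 : ℝ) + 4) ^ 6 * q ^ m *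
          (c ^ (12 * AF + 1) * (m : ℝ) ^ (12 * AF + 1)) := by
          gcongr
      _ = 40 * Cb ^ 2 * ((J0 : ℝ) + 4) ^ 6 * c ^ (12 * AF + 1) *
          ((m : ℝ) ^ (12 * AF + 1) * q ^ m) := by ring
      _ ≤ 1 := hm
  have key2 : ∀ (r : ℝ) (j : ℕ), 0 ≤ r → r ≤ q → m ≤ j → Cb * Λ * r ^ j ≤ ε := by
    intro r j hr0 hr hj
    refine le_trans ?_ key
    refine mul_le_mul_of_nonneg_left ?_ (by positivity)
    calc r ^ j ≤ q ^ j := pow_le_pow_left₀ hr0 hr j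
      _ ≤ q ^ m := pow_le_pow_of_le_one hq0 hq1.le hj
  obtain ⟨Km, e, e0, d', h1, h2, h3⟩ := XLv.small Cb Λ ε θ d (Cb * (2 * (J1 + 1) + 80)) hCb hΛ1 hε0
    hθ0 hd (by positivity)
  refine ⟨⟨κ, J1 + 1, J1, Km, Λ, M, 1 / L, θ, ε, e, e0, d'⟩, ⟨⟨?_, ?_, ?_⟩,
    ⟨?_, ?_, ?_, ?_, ?_, ?_, ?_⟩, ⟨hθ0, hθ1, ?_⟩, ⟨hε0, hε1, ?_⟩, ⟨?_, ?_⟩, h1, h2, h3⟩⟩
  · show N' ∣ κ
    rw [hκ, mul_assoc]; exact Dvd.intro _ rfl
  · show κ0 ≤ κ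
    omega
  · exact hΛ.ge
  · show 0 < 1 / L
    positivity
  · show 1 / L * Λ ^ AF ≤ 1
    rw [← hL, one_div_mul_cancel hL0.ne']
  · show 2 ≤ 1 / L * ((J1 + 1 : ℕ) : ℝ)
    push_cast
    rw [← hM, one_div_mul_eq_div, le_div_iff₀ hL0]
    exact hM1
  · show 1 ≤ 1 / L * ((J1 : ℝ) + 1)
    rw [← hM, one_div_mul_eq_div, le_div_iff₀ hL0]
    linarith
  · show J0 ≤ J1 + 1
    omega
  · show ((J1 + 1 : ℕ) : ℝ) ≤ M
    push_cast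
    exact hM.ge
  · exact hM.ge
  · show θ * M ^ 3 * Λ ^ AF ≤ (1 / L) ^ 2
    rw [← hL, hθ]
    apply le_of_eq
    field_simp
  · show Cb * ε ≤ θ ^ 2 / 40
    rw [hε]
    apply le_of_eq
    field_simp
  · intro kk hkk
    change κ ≤ 2 * A' * (kk + N) at hkk
    show Cb * Λ * (1 - d ^ 2 / Cb) ^ (kk - k1) ≤ ε
    rw [← hq]
    refine key2 q _ hq0 le_rfl ?_
    have h5 : 2 * A' * (m + N + k1) ≤ κ := by
      rw [hκ, mul_assoc N']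
      exact Nat.le_mul_of_pos_left _ hN'
    have h6 : m + N + k1 ≤ kk + N :=
      Nat.le_of_mul_le_mul_left (h5.trans hkk) (by omega)
    omega
  · show Cb * Λ * (1 - 1 / Cb) ^ (κ - k1) ≤ ε
    exact key2 _ _ hq3 hq2 (by omega)

end Pool.Agent.MP_f3836a_nt.VE
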