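import Pool.Agent.MP_f3836a_nt.VE.SpecA

/-! The finite part of a homomorphism. -/

set_option autoImplicit false

namespace Pool.Agent.MP_f3836a_nt.VE.A

open NumberField IsDedekindDomain Finset

theorem nfb_pow {M : Type} [CommMonoidWithZero M] [NoZeroDivisors M] [Nontrivial M] {l : M → ℝ}
    (h : ∀ u u', u ≠ 0 → u' ≠ 0 → l (u * u') = l u + l u') {ι : Type} (s : Finset ι) (u : ι → M)
    (n : ι → ℕ) (hu : ∀ i, u i ≠ 0) : l (∏ i ∈ s, u i ^ n i) = ∑ i ∈ s, l (u i) * n i := by
  classical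
  have h1 : l 1 = 0 := by simpa using h 1 1 one_ne_zero one_ne_zero
  have hp : ∀ i (n : ℕ), l (u i ^ n) = l (u i) * n := fun i n => by
    induction n with
    | zero => simpa using h1
    | succ n ih => rw [pow_succ, h _ _ (pow_ne_zero _ (hu i)) (hu i), ih, Nat.cast_succ, mul_add_one]
  induction s using Finset.induction_on with
  | empty => simpa using h1
  | insert i s hi ih =>
    rw [prod_insert hi, sum_insert hi, h _ _ (pow_ne_zero _ (hu i))
      (prod_ne_zero_iff.2 fun j _ => pow_ne_zero _ (hu j)), ih, hp]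

theorem nfb_gen (k : Type) [Field k] [NumberField k] : ∃ h : ℕ, h ≠ 0 ∧
    ∀ I : Ideal (𝓞 k), ∃ g, I ≠ 0 → Ideal.span {g} = I ^ h := by
  refine ⟨Fintype.card (ClassGroup (𝓞 k)), Fintype.card_ne_zero, fun I => ?_⟩
  by_cases e : I = 0
  · exact ⟨0, fun a => absurd e a⟩
  have m := mem_nonZeroDivisors_of_ne_zero e
  have p := pow_card_eq_one (x := ClassGroup.mk0 ⟨I, m⟩)
  rw [← map_pow] at p
  obtain ⟨g, hg⟩ := (ClassGroup.mk0_eq_one_iff (pow_mem m _)).1 p
  exact ⟨g, fun _ => hg.symm⟩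

theorem nfb_fac {R : Type} [CommRing R] [IsDedekindDomain R] {I : Ideal R} (h : I ≠ 0) :
    ∃ s : Finset (HeightOneSpectrum R),
      ∏ q ∈ s, q.asIdeal ^ (Associates.mk q.asIdeal).count (Associates.mk I).factors = I ∧
      ∀ q, (Associates.mk q.asIdeal).count (Associates.mk I).factors ≠ 0 → q ∈ s := by
  have f : {q : HeightOneSpectrum R |
      (Associates.mk q.asIdeal).count (Associates.mk I).factors ≠ 0}.Finite :=
    (Filter.eventually_cofinite.1 (Associates.finite_factors h)).subset fun q a =>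
      Int.natCast_ne_zero.2 a
  refine ⟨f.toFinset, (finprod_eq_prod_of_mulSupport_subset _ fun q a => ?_).symm.trans
    (Ideal.finprod_heightOneSpectrum_factorization h), fun q a => f.mem_toFinset.2 a⟩
  exact f.mem_toFinset.2 fun b => a (by simp only [b, pow_zero])

theorem aNfb : NfbS := by
  intro k _ _ l hm h1
  obtain ⟨h, h0, hg⟩ := nfb_gen k
  choose g hg using hg
  have h0 : (h : ℝ) ≠ 0 := Nat.cast_ne_zero.2 h0
  have g0 : ∀ I, I ≠ 0 → g I ≠ 0 := fun I e a =>
    pow_ne_zero h e (by rw [← hg I e, a]; simp)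
  have as : ∀ a b : 𝓞 k, a ≠ 0 → Ideal.span {a} = Ideal.span {b} → l b = l a := fun a b e s => by
    obtain ⟨u, rfl⟩ := Ideal.span_singleton_eq_span_singleton.1 s
    rw [hm _ _ e u.ne_zero, h1, add_zero]
  have mul : ∀ I J, I ≠ 0 → J ≠ 0 → l (g (I * J)) = l (g I) + l (g J) := fun I J a b => by
    rw [← hm _ _ (g0 I a) (g0 J b)]
    refine as _ _ (mul_ne_zero (g0 I a) (g0 J b)) ?_
    rw [← Ideal.span_singleton_mul_span_singleton, hg I a, hg J b, hg _ (mul_ne_zero a b), mul_pow]
  refine ⟨fun q => l (g q.asIdeal) / h, fun u hu => ?_⟩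
  have s0 : Ideal.span {u} ≠ 0 := by simpa using hu
  obtain ⟨s, e, f⟩ := nfb_fac s0
  have e2 := nfb_pow (l := fun I => l (g I)) mul s (fun q => q.asIdeal)
    (fun q => (Associates.mk q.asIdeal).count (Associates.mk (Ideal.span {u})).factors)
    fun q => q.ne_bot
  have e3 := nfb_pow hm {()} (fun _ => u) (fun _ => h) fun _ => hu
  simp only [prod_singleton, sum_singleton] at e3
  rw [e, as (u ^ h) _ (pow_ne_zero h hu) (by rw [hg _ s0, Ideal.span_singleton_pow]), e3,
    ← eq_div_iff h0, sum_div] at e2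
  simp only [od, HeightOneSpectrum.intValuation_if_neg _ hu, WithZero.log_exp, neg_neg,
    Int.cast_natCast]
  refine e2.trans (.trans (sum_congr rfl fun q _ => mul_div_right_comm _ _ _)
    (finsum_eq_sum_of_support_subset _ fun q a => ?_).symm)
  exact f q (Nat.cast_ne_zero.1 (right_ne_zero_of_mul a))

end Pool.Agent.MP_f3836a_nt.VE.A
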