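import Pool.Agent.MP_f3836a_nt.VE.SpecA

/-! The orders of the linear forms `b θ - a` at the primes of a number field. -/

set_option autoImplicit false

namespace Pool.Agent.MP_f3836a_nt.VE.A

open Polynomial NumberField IsDedekindDomain Finset

theorem gsa_dvd {R : Type} [CommRing R] {θ : R} {N : ℤ[X]} {n : ℕ} (hn : N.natDegree = n)
    (h : aeval θ N = 0) (a b : ℤ) : (b : R) * θ - a ∣ (hv N n a b : ℤ) := by
  have e : ((hv N n a b : ℤ) : R) = -∑ i ∈ range (n + 1),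
      ((b * θ) ^ i - (a : R) ^ i) * (N.coeff i * (b : R) ^ (n - i)) := by
    have h1 : ∑ i ∈ range (n + 1), ((b : R) * θ) ^ i * (N.coeff i * (b : R) ^ (n - i)) = 0 := by
      rw [aeval_eq_sum_range, hn] at h
      rw [← mul_zero ((b : R) ^ n), ← h, mul_sum]
      refine sum_congr rfl fun i hi => ?_
      obtain ⟨j, rfl⟩ := Nat.exists_eq_add_of_le (Nat.lt_succ_iff.1 (mem_range.1 hi))
      rw [Nat.add_sub_cancel_left, zsmul_eq_mul]
      ring
    simp only [sub_mul, sum_sub_distrib, h1, zero_sub, neg_neg, hv]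
    push_cast
    exact sum_congr rfl fun i _ => by ring
  rw [e]
  exact (dvd_sum fun i _ => (sub_dvd_pow_sub_pow _ _ i).mul_right _).neg_right

variable {k : Type} [Field k] [NumberField k]

theorem gsa_unit {q : HeightOneSpectrum (𝓞 k)} {p : ℕ} (hp : p.Prime) (hq : (p : 𝓞 k) ∈ q.asIdeal)
    {m : ℤ} (hm : ¬(p : ℤ) ∣ m) : (m : 𝓞 k) ∉ q.asIdeal := fun h => by
  obtain ⟨u, w, e⟩ := (Nat.prime_iff_prime_int.1 hp).irreducible.coprime_iff_not_dvd.2 hm
  have e' : (u : 𝓞 k) * p + w * m = 1 := by exact_mod_cast congrArg (Int.cast : ℤ → 𝓞 k) e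
  exact q.isPrime.ne_top ((Ideal.eq_top_iff_one _).2
    (e' ▸ add_mem (Ideal.mul_mem_left _ _ hq) (Ideal.mul_mem_left _ _ h)))

theorem gsa_ge {q : HeightOneSpectrum (𝓞 k)} {p : ℕ} (hp : p.Prime) (hq : (p : 𝓞 k) ∈ q.asIdeal)
    {m : ℤ} (hm : ¬(p : ℤ) ^ 2 ∣ m) {u : 𝓞 k} (hu : u ∣ m) :
    q.intValuation p ≤ q.intValuation u := by
  have h1 : q.intValuation p ≤ q.intValuation m := by
    by_cases h : (p : ℤ) ∣ m
    · obtain ⟨m, rfl⟩ := h
      have : ¬(p : ℤ) ∣ m := fun h => hm (by rw [sq]; exact mul_dvd_mul_left _ h)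
      rw [Int.cast_mul, map_mul, HeightOneSpectrum.intValuation_eq_one_iff.2 (gsa_unit hp hq this),
        mul_one, Int.cast_natCast]
    · rw [HeightOneSpectrum.intValuation_eq_one_iff.2 (gsa_unit hp hq h)]
      exact q.intValuation_le_one _
  obtain ⟨w, hw⟩ := hu
  rw [hw, map_mul] at h1
  exact h1.trans (mul_le_of_le_one_right' (q.intValuation_le_one w))

theorem gsa_le {q : HeightOneSpectrum (𝓞 k)} {p : ℕ} (hp : p.Prime) (hq : (p : 𝓞 k) ∈ q.asIdeal)
    {θ : 𝓞 k} {a b a' b' : ℤ} (hb : ¬(p : ℤ) ∣ b') (h : (p : ℤ) ∣ a * b' - a' * b)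
    (h' : q.intValuation p ≤ q.intValuation ((b' : 𝓞 k) * θ - a')) :
    q.intValuation ((b : 𝓞 k) * θ - a) ≤ q.intValuation ((b' : 𝓞 k) * θ - a') := by
  obtain ⟨c, hc⟩ := h
  have hc' : (a : 𝓞 k) * b' - a' * b = p * c := by exact_mod_cast congrArg (Int.cast : ℤ → 𝓞 k) hc
  have e : (b' : 𝓞 k) * (b * θ - a) = (b' * θ - a') * b - p * c := by linear_combination -hc'
  have h1 := congrArg q.intValuation e
  rw [map_mul, HeightOneSpectrum.intValuation_eq_one_iff.2 (gsa_unit hp hq hb), one_mul] at h1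
  rw [h1]
  refine q.intValuation.map_sub_le ?_ (le_trans ?_ h') <;> rw [map_mul] <;>
    exact mul_le_of_le_one_right' (q.intValuation_le_one _)

theorem gsa_od {q : HeightOneSpectrum (𝓞 k)} {u : 𝓞 k} (h : u ∉ q.asIdeal) : od q u = 0 := by
  simp [od, HeightOneSpectrum.intValuation_eq_one_iff.2 h]

theorem gsa_ex {q : HeightOneSpectrum (𝓞 k)} {m : ℕ} (h0 : m ≠ 0) (h : (m : 𝓞 k) ∈ q.asIdeal) :
    ∃ p ∈ m.primeFactors, (p : 𝓞 k) ∈ q.asIdeal := by
  have := q.isPrime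
  rw [← Nat.prod_factorization_pow_eq_self h0, Finsupp.prod, Nat.cast_prod,
    Ideal.IsPrime.prod_mem_iff] at h
  obtain ⟨p, hp, h⟩ := h
  exact ⟨p, hp, this.mem_of_pow_mem _ (by simpa using h)⟩

theorem gsa_sum (φ : HeightOneSpectrum (𝓞 k) → ℝ) {u : 𝓞 k} {m : ℤ} (h0 : m ≠ 0) (h : u ∣ m) :
    u ≠ 0 ∧ ∑ᶠ q, φ q * od q u = ∑ p ∈ m.natAbs.primeFactors, Fp φ p u := by
  classical
  have hu : u ≠ 0 := ne_zero_of_dvd_ne_zero (Int.cast_ne_zero.2 h0) h
  have hf : {q : HeightOneSpectrum (𝓞 k) | u ∈ q.asIdeal}.Finite := by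
    simpa [Ideal.dvd_span_singleton] using
      Ideal.finite_factors (I := Ideal.span {u}) (by simpa using hu)
  have key : ∀ g : HeightOneSpectrum (𝓞 k) → ℝ, (∀ q, u ∉ q.asIdeal → g q = 0) →
      ∑ᶠ q, g q = ∑ q ∈ hf.toFinset, g q := fun g hg =>
    finsum_eq_sum_of_support_subset _ fun q hq => by
      by_contra hn
      exact hq (hg q (by simpa using hn))
  refine ⟨hu, ?_⟩
  rw [key _ fun q hq => by rw [gsa_od hq, mul_zero], sum_congr rfl fun p _ =>
    (show Fp φ p u = _ from key _ fun q hq => by rw [gsa_od hq, mul_zero, ite_self]), sum_comm]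
  refine sum_congr rfl fun q hq => ?_
  have hm : (m.natAbs : 𝓞 k) ∈ q.asIdeal := by
    refine Ideal.mem_of_dvd _ (h.trans ?_) (by simpa using hq)
    simpa using Int.cast_dvd_cast (α := 𝓞 k) _ _ (Int.dvd_natAbs.2 (dvd_refl m))
  obtain ⟨p, hp, hpq⟩ := gsa_ex (Int.natAbs_ne_zero.2 h0) hm
  rw [sum_eq_single_of_mem p hp, if_pos hpq]
  intro p' hp' hne
  refine if_neg ?_
  simpa using gsa_unit (Nat.prime_of_mem_primeFactors hp) hpq (m := p') fun hd => hne
    ((Nat.prime_dvd_prime_iff_eq (Nat.prime_of_mem_primeFactors hp)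
      (Nat.prime_of_mem_primeFactors hp')).1 (Int.natCast_dvd_natCast.1 hd)).symm

theorem gsa_root {θ : 𝓞 k} {N M : ℤ[X]} {t0 c d : ℤ} (hc : c ≠ 0) (hd : d ≠ 0) (hM : M.Monic)
    (h : aeval θ N = 0) (e : N.comp (C t0 + C c * X) = C d * M) :
    ∃ η : 𝓞 k, θ - t0 = c * η ∧ η ∣ (M.coeff 0 : ℤ) := by
  have hc' : (c : k) ≠ 0 := Int.cast_ne_zero.2 hc
  have h1 : aeval (((θ : k) - t0) / c) M = 0 := by
    have := congrArg (aeval (((θ : k) - t0) / c)) e
    simp only [aeval_comp, map_add, map_mul, aeval_C, aeval_X, eq_intCast, map_intCast,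
      mul_div_cancel₀ _ hc', add_sub_cancel] at this
    rw [show (θ : k) = algebraMap (𝓞 k) k θ from rfl, aeval_algebraMap_apply, h, map_zero] at this
    exact (mul_eq_zero.1 this.symm).resolve_left (Int.cast_ne_zero.2 hd)
  let η : 𝓞 k := ⟨((θ : k) - t0) / c, M, hM, h1⟩
  have h2 : aeval η M = 0 := by
    refine (map_eq_zero_iff _ (RingOfIntegers.coe_injective (K := k))).1 ?_
    rw [← aeval_algebraMap_apply]
    exact h1
  refine ⟨η, RingOfIntegers.coe_injective ?_, -aeval η M.divX, ?_⟩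
  · simp only [map_sub, map_mul, map_intCast]
    exact (mul_div_cancel₀ _ hc').symm
  · rw [← M.X_mul_divX_add] at h2
    simp only [map_add, map_mul, aeval_X, aeval_C, eq_intCast, map_intCast] at h2
    linear_combination h2

theorem aGsa : GsaS := by
  intro k _ _ φ θ N n _ hn h
  refine ⟨fun a b h0 => gsa_sum φ h0 (gsa_dvd hn h a b), ?_, ?_⟩
  · rintro p a b a' b' ⟨hp, h1, h2, h3, h4, h5⟩
    refine finsum_congr fun q => ?_
    split_ifs with hq
    · rw [od, od, le_antisymm (gsa_le hp hq h4 h5 (gsa_ge hp hq h2 (gsa_dvd hn h a' b')))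
        (gsa_le hp hq h3 (dvd_sub_comm.1 h5) (gsa_ge hp hq h1 (gsa_dvd hn h a b)))]
    · rfl
  · rintro t0 p σ hp ⟨M, hM, h0, e⟩
    have hp0 : (p : ℤ) ≠ 0 := Int.natCast_ne_zero.2 hp.ne_zero
    obtain ⟨η, e1, e2⟩ := gsa_root (pow_ne_zero _ hp0) (pow_ne_zero _ hp0) hM h e
    rw [mul_finsum, Int.cast_one, one_mul, e1]
    refine finsum_congr fun q => ?_
    split_ifs with hq
    · have h1 : q.intValuation η = 1 := HeightOneSpectrum.intValuation_eq_one_iff.2 fun h =>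
        gsa_unit hp hq h0 (Ideal.mem_of_dvd _ e2 h)
      simp only [od, map_mul, h1, mul_one, Int.cast_pow, Int.cast_natCast, map_pow,
        WithZero.log_pow, nsmul_eq_mul]
      push_cast
      ring
    · rw [gsa_od hq, mul_zero, mul_zero]

end Pool.Agent.MP_f3836a_nt.VE.A
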