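import Pool.Agent.MP_f3836a_nt.VE.SpecA

/-! Row AGsk: the decomposition in one number field. -/

set_option autoImplicit false

namespace Pool.Agent.MP_f3836a_nt.VE.A

open Polynomial NumberField IsDedekindDomain

open Classical in
theorem aGsk : OfGsk := by
  intro hA hB hG k _ _ l θ N n hl hN hn h0
  obtain ⟨cw, c0, c1⟩ := hA k l hl
  obtain ⟨φ, hφ⟩ := hB k (fun u => l u - ∑ w, cw w * Real.log (w (u : k))) (fun u u' a a' => by
    have b : (u : k) ≠ 0 := RingOfIntegers.coe_ne_zero_iff.2 a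
    have b' : (u' : k) ≠ 0 := RingOfIntegers.coe_ne_zero_iff.2 a'
    have e : ∀ w : InfinitePlace k, Real.log (w ((u : k) * u')) =
        Real.log (w (u : k)) + Real.log (w (u' : k)) := fun w => by
      rw [map_mul, Real.log_mul ((map_ne_zero w).2 b) ((map_ne_zero w).2 b')]
    rw [show ((u * u' : 𝓞 k) : k) = u * u' from map_mul (algebraMap (𝓞 k) k) u u', hl _ _ b b']
    simp only [e, mul_add, Finset.sum_add_distrib]
    ring) fun u => sub_eq_zero.2 (c1 u)
  obtain ⟨Θ, rfl⟩ : ∃ Θ : 𝓞 k, (Θ : k) = θ := ⟨⟨θ, N, hN, h0⟩, rfl⟩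
  have h1 : aeval Θ N = 0 := by
    rwa [aeval_algebraMap_apply, RingOfIntegers.coe_eq_zero_iff] at h0
  obtain ⟨g1, g2, g3⟩ := hG k φ Θ N n hN hn h1
  have hr : ∀ w ∈ (Finset.univ : Finset (InfinitePlace k)), w.embedding (Θ : k) ∈ rts N := by
    intro w _
    rw [rts, Multiset.mem_toFinset, mem_aroots]
    refine ⟨hN.ne_zero, ?_⟩
    exact (aeval_algHom_apply w.embedding.toIntAlgHom _ N).trans (by rw [h0, map_zero])
  refine ⟨fun p a b => Fp φ p ((b : 𝓞 k) * Θ - a),
    fun z => ∑ w ∈ Finset.univ.filter fun w : InfinitePlace k => w.embedding (Θ : k) = z, cw w,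
    ?_, fun a b hb h => ?_, g2, fun t0 p σ hp h => ?_⟩
  · rw [Finset.sum_fiberwise_of_maps_to hr, c0]
  · obtain ⟨a1, a2⟩ := g1 a b h
    have hb' : (b : ℝ) ≠ 0 := by positivity
    have a3 := hφ _ a1
    have a4 : (((b : 𝓞 k) * Θ - a : 𝓞 k) : k) = b * (Θ : k) - a := by simp
    have a5 : ∀ w : InfinitePlace k, Real.log (w (b * (Θ : k) - a)) =
        Real.log b + Real.log ‖(((a : ℝ) / b : ℝ) : ℂ) - w.embedding (Θ : k)‖ := fun w => by
      have b1 : w (b * (Θ : k) - a) = b * ‖(((a : ℝ) / b : ℝ) : ℂ) - w.embedding (Θ : k)‖ := by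
        have : (b : ℂ) ≠ 0 := by exact_mod_cast hb.ne'
        have e : w.embedding (b * (Θ : k) - a) =
            -((b : ℂ) * ((((a : ℝ) / b : ℝ) : ℂ) - w.embedding (Θ : k))) := by
          simp only [map_sub, map_mul, map_intCast]
          push_cast
          field_simp
          ring
        rw [← w.norm_embedding_eq, e, norm_neg, norm_mul, Complex.norm_intCast,
          abs_of_pos (by positivity)]
      have b2 := (map_ne_zero w).2 (a4.symm.trans_ne (RingOfIntegers.coe_ne_zero_iff.2 a1))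
      rw [b1] at b2 ⊢
      exact Real.log_mul hb' (right_ne_zero_of_mul b2)
    rw [a2, a4] at a3
    simp only [a5, mul_add, Finset.sum_add_distrib, ← Finset.sum_mul, c0, zero_mul, zero_add] at a3
    rw [← a3, ug, ← Finset.sum_fiberwise_of_maps_to hr]
    simp only [Finset.sum_mul]
    rw [Finset.sum_congr rfl fun z _ => Finset.sum_congr rfl fun w hw => by
      rw [(Finset.mem_filter.1 hw).2], sub_add_cancel]
  · have a1 : ∀ w : InfinitePlace k, w (p : k) = p := fun w => by
      rw [← w.norm_embedding_eq, map_natCast, Complex.norm_natCast]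
    rw [g3 t0 p σ hp h, ← hφ p (Nat.cast_ne_zero.2 hp.ne_zero)]
    simp only [map_natCast, a1, ← Finset.sum_mul, c0, zero_mul, sub_zero]

end Pool.Agent.MP_f3836a_nt.VE.A
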