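import Pool.Agent.MP_f3836a_nt.VE.SpecA

/-! Row Nfa: a homomorphism on the units of a number field is a combination of the `log w`. -/

set_option autoImplicit false

namespace Pool.Agent.MP_f3836a_nt.VE.A

open NumberField NumberField.Units NumberField.Units.dirichletUnitTheorem NumberField.InfinitePlace

/-- an additive map on the units is a real linear form of the logarithmic embedding -/
theorem Nfa_form (k : Type) [Field k] [NumberField k] (φ : Additive (𝓞 k)ˣ →+ ℝ) :
    ∃ L : logSpace k →ₗ[ℝ] ℝ, ∀ u : (𝓞 k)ˣ,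
      φ (Additive.ofMul u) = L (logEmbedding k (Additive.ofMul u)) := by
  classical
  let B := (basisUnitLattice k).ofZLatticeBasis ℝ (unitLattice k)
  let L : logSpace k →ₗ[ℝ] ℝ := B.constr ℝ fun i => φ (Additive.ofMul (fundSystem k i))
  have hL : ∀ i, L (logEmbedding k (Additive.ofMul (fundSystem k i)))
      = φ (Additive.ofMul (fundSystem k i)) := fun i => by
    rw [logEmbedding_fundSystem, ← Module.Basis.ofZLatticeBasis_apply ℝ (unitLattice k)]
    exact B.constr_basis ℝ _ i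
  have hT : ∀ z : (𝓞 k)ˣ, z ∈ torsion k → φ (Additive.ofMul z) = 0 := fun z hz => by
    have h1 : IsOfFinOrder z := (CommGroup.mem_torsion _).1 hz
    obtain ⟨n, hn, e⟩ := isOfFinOrder_iff_pow_eq_one.1 h1
    have h2 : n • φ (Additive.ofMul z) = 0 := by
      rw [← map_nsmul, ← ofMul_pow, e, ofMul_one, map_zero]
    rw [nsmul_eq_mul] at h2
    exact (mul_eq_zero.1 h2).resolve_left (Nat.cast_ne_zero.2 hn.ne')
  refine ⟨L, fun u => ?_⟩
  obtain ⟨⟨z, e⟩, h, -⟩ := exist_unique_eq_mul_prod k u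
  have h' : Additive.ofMul u = Additive.ofMul (z : (𝓞 k)ˣ)
      + ∑ i, e i • Additive.ofMul (fundSystem k i) := by
    rw [h, ofMul_mul, ofMul_prod]
    simp only [ofMul_zpow]
  rw [h', map_add, map_add, hT _ z.2, logEmbedding_eq_zero_iff.2 z.2, zero_add, zero_add, map_sum,
    map_sum, map_sum]
  refine Finset.sum_congr rfl fun i _ => ?_
  rw [map_zsmul, map_zsmul, map_zsmul, hL]

theorem aNfa : NfaS := by
  intro k _ _ l hl
  classical
  have ne : ∀ u : (𝓞 k)ˣ, ((u : 𝓞 k) : k) ≠ 0 := fun u =>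
    RingOfIntegers.coe_ne_zero_iff.2 u.ne_zero
  let φ : Additive (𝓞 k)ˣ →+ ℝ := AddMonoidHom.mk'
    (fun x => l (((x.toMul : (𝓞 k)ˣ) : 𝓞 k) : k)) fun a b => by
      rw [← hl _ _ (ne _) (ne _), toMul_add, Units.val_mul]
      exact congrArg l (map_mul (algebraMap (𝓞 k) k) _ _)
  obtain ⟨L, hL⟩ := Nfa_form k φ
  let c₀ : InfinitePlace k → ℝ := fun w =>
    if h : w ≠ w₀ then L (Pi.single (⟨w, h⟩ : {w : InfinitePlace k // w ≠ w₀}) 1) * mult w else 0
  have h0 : ∀ u : (𝓞 k)ˣ, l ((u : 𝓞 k) : k) = ∑ w, c₀ w * Real.log (w ((u : 𝓞 k) : k)) := by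
    intro u
    have e1 : l ((u : 𝓞 k) : k) = L (logEmbedding k (Additive.ofMul u)) := hL u
    rw [e1, LinearMap.pi_apply_eq_sum_univ,
      ← Fintype.sum_subtype_add_sum_subtype (fun w : InfinitePlace k => w ≠ w₀)]
    have e2 : ∑ w : {w : InfinitePlace k // ¬ w ≠ w₀},
        c₀ w * Real.log ((w : InfinitePlace k) ((u : 𝓞 k) : k)) = 0 :=
      Finset.sum_eq_zero fun w _ => by simp only [c₀, dif_neg w.2, zero_mul]
    rw [e2, add_zero]
    refine Finset.sum_congr rfl fun w _ => ?_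
    have e3 : (fun j : {w : InfinitePlace k // w ≠ w₀} => if w = j then (1 : ℝ) else 0)
        = Pi.single w 1 := by
      funext j
      by_cases hj : w = j
      · subst hj; simp
      · rw [if_neg hj, Pi.single_eq_of_ne (Ne.symm hj)]
    have e4 : c₀ w = L (Pi.single w 1) * mult (w : InfinitePlace k) := dif_pos w.2
    rw [e3, e4, logEmbedding_component, smul_eq_mul]
    ring
  have hm : (∑ w : InfinitePlace k, (mult w : ℝ)) ≠ 0 := by
    rw [← Nat.cast_sum, sum_mult_eq]
    exact Nat.cast_ne_zero.2 Module.finrank_pos.ne'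
  refine ⟨fun w => c₀ w - (∑ v, c₀ v) / (∑ v : InfinitePlace k, (mult v : ℝ)) * mult w, ?_,
    fun u => ?_⟩
  · rw [Finset.sum_sub_distrib, ← Finset.mul_sum, div_mul_cancel₀ _ hm, sub_self]
  · have e := sum_mult_mul_log u
    simp only [sub_mul, mul_assoc, Finset.sum_sub_distrib, ← Finset.mul_sum]
    rw [h0 u]
    have e' : ∑ w : InfinitePlace k, (mult w : ℝ) * Real.log (w ((u : 𝓞 k) : k)) = 0 := e
    rw [e', mul_zero, sub_zero]

end Pool.Agent.MP_f3836a_nt.VE.A
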