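import Pool.Agent.MP_f3836a_nt.VE.SpecA

/-! Part A: the decomposition on one big curve. -/

set_option autoImplicit false

namespace Pool.Agent.MP_f3836a_nt.VE.A

open Polynomial

theorem gs_ft {R : Type} [CommRing R] [Algebra ℚ R] {x y : R} {f : ℚ[X]} (h : Model x y f) :
    Algebra.FiniteType ℚ R := by
  classical
  refine ⟨⟨{x, y}, eq_top_iff.2 fun r _ => ?_⟩⟩
  obtain ⟨A, B, rfl⟩ := h.gen r
  have hx : ∀ P : ℚ[X], aeval x P ∈ Algebra.adjoin ℚ (({x, y} : Finset R) : Set R) := fun P =>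
    Algebra.adjoin_mono (by simp) (aeval_mem_adjoin_singleton ℚ x)
  exact add_mem (hx A) (mul_mem (hx B) (Algebra.subset_adjoin (by simp)))

theorem gs_one (hG : GskS) {R ι : Type} [CommRing R] [Algebra ℚ R] [Algebra.FiniteType ℚ R] (x : R)
    {S : Sy R ι} (hS : S.Ok) {N : ℤ[X]} {n : ℕ} (hN : N.Monic) (hn : N.natDegree = n) (v : ι)
    (hv : aeval x N ∈ S.P v) :
    ∃ Φ c, Dec N n (fun a b => S.lam v ((b : R) * x - a)) (fun p => S.lam v p) Φ c := by
  have := hS.max v
  let _ : Field (R ⧸ S.P v) := Ideal.Quotient.field _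
  have : Algebra.FiniteType ℚ (R ⧸ S.P v) :=
    Algebra.FiniteType.of_surjective (Ideal.Quotient.mkₐ ℚ (S.P v))
      (Ideal.Quotient.mkₐ_surjective ℚ _)
  have : Module.Finite ℚ (R ⧸ S.P v) := finite_of_finite_type_of_isJacobsonRing ℚ _
  have : NumberField (R ⧸ S.P v) := NumberField.of_module_finite ℚ _
  have hs := Ideal.Quotient.mk_surjective (I := S.P v)
  have hl : ∀ u : R, S.lam v (Function.surjInv hs (Ideal.Quotient.mk _ u)) = S.lam v u := fun u =>
    hS.lamc v _ _ (Ideal.Quotient.eq.1 (Function.surjInv_eq hs _))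
  obtain ⟨Φ, c, h⟩ := hG (R ⧸ S.P v) (fun u => S.lam v (Function.surjInv hs u))
    (Ideal.Quotient.mk _ x) N n (fun u u' hu hu' => by
      obtain ⟨w, rfl⟩ := hs u
      obtain ⟨w', rfl⟩ := hs u'
      rw [← map_mul, hl, hl, hl]
      exact hS.lamm v w w' (fun e => hu (Ideal.Quotient.eq_zero_iff_mem.2 e))
        fun e => hu' (Ideal.Quotient.eq_zero_iff_mem.2 e)) hN hn
    ((aeval_algHom_apply (Ideal.Quotient.mk (S.P v)).toIntAlgHom x N).trans
      (Ideal.Quotient.eq_zero_iff_mem.2 hv))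
  refine ⟨Φ, c, h.sum, fun a b hb hab => ?_, h.sim, fun t0 p σ hp hs' => ?_⟩
  · rw [← h.val a b hb hab, ← hl, map_sub, map_mul, map_intCast, map_intCast]
  · rw [h.slo t0 p σ hp hs', ← hl p, map_natCast]

theorem aGs : OfGs := by
  intro hE hG R ι _ _ _ x y f S m A B hM hS hm
  have hf : f.natDegree = 3 := by
    rw [← hM.deg, natDegree_map_eq_of_injective (Int.castRingHom ℚ).injective_int]
  obtain ⟨hN, hn⟩ := hE.1 f A B m hf hm
  have ha : ∀ P : ℤ[X], aeval x (P.map (Int.castRingHom ℚ)) = aeval x P := fun P =>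
    aeval_map_algebraMap ℚ x P
  have hg : gv x y A B ≠ 0 := fun e => by
    have := (hM.ind (A.map (Int.castRingHom ℚ)) (B.map (Int.castRingHom ℚ))
      (by rw [ha, ha]; exact e)).1
    exact (hm.1.map _).ne_zero this
  have hd : aeval x (Ng f A B) = gv x y A B * (aeval x A - aeval x B * y) := by
    have := hM.eq
    rw [ha] at this
    simp only [Ng, gv, map_sub, map_mul, map_pow, ← this]
    ring
  have := gs_ft hM
  have key : ∀ v : ι, ∃ Φ c, gv x y A B ∈ S.P v → Dec (Ng f A B) (2 * m)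
      (fun a b => S.lam v ((b : R) * x - a)) (fun p => S.lam v p) Φ c := fun v => by
    by_cases hv : gv x y A B ∈ S.P v
    · obtain ⟨Φ, c, h⟩ := gs_one hG x hS hN hn v (hd ▸ Ideal.mul_mem_right _ _ hv)
      exact ⟨Φ, c, fun _ => h⟩
    · exact ⟨0, 0, fun h => absurd h hv⟩
  choose Φ c h using key
  have h' : ∀ v ∈ (hS.fin _ hg).toFinset, _ := fun v hv => h v (by simpa using hv)
  refine ⟨fun p a b => ∑ v ∈ (hS.fin _ hg).toFinset, (S.ord v (gv x y A B) : ℝ) * Φ v p a b,
    fun θ => ∑ v ∈ (hS.fin _ hg).toFinset, (S.ord v (gv x y A B) : ℝ) * c v θ, ?_,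
    fun a b hb hab => ?_, fun p a b a' b' hs => ?_, fun t0 p σ hp hs => ?_⟩
  · rw [Finset.sum_comm]
    exact Finset.sum_eq_zero fun v hv => by rw [← Finset.mul_sum, (h' v hv).sum, mul_zero]
  · rw [hS.L_eq hg, Finset.sum_comm]
    unfold ug
    simp only [Finset.sum_mul]
    rw [Finset.sum_comm (s := rts _), ← Finset.sum_add_distrib]
    refine Finset.sum_congr rfl fun v hv => ?_
    have := (h' v hv).val a b hb hab
    simp only [ug] at this
    rw [this, mul_add, Finset.mul_sum, Finset.mul_sum]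
    simp only [mul_assoc]
  · exact Finset.sum_congr rfl fun v hv => by rw [(h' v hv).sim p a b a' b' hs]
  · have hu : IsUnit (p : R) := by
      simpa using (IsUnit.mk0 (p : ℚ) (Nat.cast_ne_zero.2 hp.ne_zero)).map (algebraMap ℚ R)
    have h0 := hS.L_unit hg hu
    rw [hS.L_eq hg] at h0
    rw [← h0, Finset.mul_sum]
    exact Finset.sum_congr rfl fun v hv => by rw [(h' v hv).slo t0 p σ hp hs]; ring

end Pool.Agent.MP_f3836a_nt.VE.A
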