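import Pool.Agent.MP_f3836a_nt.VE.SpecA

/-! The function on points attached to a decomposition. -/

set_option autoImplicit false

namespace Pool.Agent.MP_f3836a_nt.VE.A

open Polynomial

open Classical in
/-- the value at a point, read from any admissible pair -/
noncomputable def phiF (N : ℤ[X]) (n : ℕ) (Φ : ℕ → ℤ → ℤ → ℝ) (z : Pt) : ℝ :=
  if h : ∃ w : ℤ × ℤ, ¬(z.p : ℤ) ^ 2 ∣ hv N n w.1 w.2 ∧ ¬(z.p : ℤ) ∣ w.2 ∧ On w.1 w.2 z then
    Φ z.p h.choose.1 h.choose.2 else 0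

variable {N : ℤ[X]} {n : ℕ} {l : ℤ → ℤ → ℝ} {κ : ℕ → ℝ} {Φ : ℕ → ℤ → ℤ → ℝ} {c : ℂ → ℝ}

theorem phi_eq (D : Dec N n l κ Φ c) {a b : ℤ} {z : Pt} (hp : z.p.Prime)
    (h1 : ¬(z.p : ℤ) ^ 2 ∣ hv N n a b) (h2 : ¬(z.p : ℤ) ∣ b) (h3 : On a b z) :
    phiF N n Φ z = Φ z.p a b := by
  have h : ∃ w : ℤ × ℤ, ¬(z.p : ℤ) ^ 2 ∣ hv N n w.1 w.2 ∧ ¬(z.p : ℤ) ∣ w.2 ∧ On w.1 w.2 z :=
    ⟨(a, b), h1, h2, h3⟩
  obtain ⟨k1, k2, k3⟩ := h.choose_spec
  rw [phiF, dif_pos h]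
  refine D.sim _ _ _ _ _ ⟨hp, k1, h1, k2, h2, ?_⟩
  have e : h.choose.1 * b - a * h.choose.2 =
      (b * z.t - a) * h.choose.2 - (h.choose.2 * z.t - h.choose.1) * b := by ring
  rw [e]
  exact dvd_sub (Dvd.dvd.mul_right h3 _) (Dvd.dvd.mul_right k3 _)

theorem phi_sq {s : Finset ℕ} (hs : ∀ p ∈ s, p.Prime) {p : ℕ} (hp : p ∈ s) :
    ¬p ^ 2 ∣ ∏ q ∈ s, q := by
  intro h
  rw [← Finset.mul_prod_erase s _ hp, sq, Nat.mul_dvd_mul_iff_left (hs p hp).pos,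
    (hs p hp).prime.dvd_finsetProd_iff] at h
  obtain ⟨q, hq, h⟩ := h
  exact (Finset.mem_erase.1 hq).1
    ((Nat.prime_dvd_prime_iff_eq (hs p hp) (hs q (Finset.mem_of_mem_erase hq))).1 h).symm

theorem phi_main (D : Dec N n l κ Φ c) {a b : ℤ} {T : Multiset Pt} {m m' : ℕ} (hb : 0 < b)
    (hT : Nd T) (hm : m ≠ 0) (h0 : ∀ p : ℕ, p.Prime → p ∣ m → Φ p a b = 0)
    (hz : ∀ z ∈ T, z.p.Prime ∧ On a b z ∧ ¬(z.p : ℤ) ∣ b ∧ z.p.Coprime m ∧ z.p.Coprime m')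
    (he : nT T * m = (hv N n a b).natAbs * m') :
    l a b = (T.map (phiF N n Φ)).sum + ug N c ((a : ℝ) / b) := by
  let s : Finset ℕ := ⟨T.map Pt.p, hT⟩
  have hs : ∀ p ∈ s, ∃ z ∈ T, z.p = p := fun p hp => Multiset.mem_map.1 hp
  have hs' : ∀ p ∈ s, p.Prime := fun p hp => by
    obtain ⟨z, h, rfl⟩ := hs p hp
    exact (hz z h).1
  have e1 : nT T = ∏ q ∈ s, q := congrArg Multiset.prod (Multiset.map_id' _).symm
  have hn : nT T ≠ 0 := e1 ▸ Finset.prod_ne_zero_iff.2 fun p hp => (hs' p hp).ne_zero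
  have hH : (hv N n a b).natAbs ≠ 0 := fun h =>
    mul_ne_zero hn hm (by rw [he, h, zero_mul])
  rw [D.val a b hb (Int.natAbs_ne_zero.1 hH)]
  congr 1
  have e2 : ∑ p ∈ s, Φ p a b = ∑ p ∈ (hv N n a b).natAbs.primeFactors, Φ p a b := by
    refine Finset.sum_subset (fun p hp => ?_) fun p hp hp' => ?_
    · obtain ⟨z, h, rfl⟩ := hs p hp
      refine Nat.mem_primeFactors.2 ⟨(hz z h).1, (hz z h).2.2.2.2.dvd_of_dvd_mul_right ?_, hH⟩
      rw [← he, e1]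
      exact (Finset.dvd_prod_of_mem (fun q => q) hp).mul_right _
    · have hq := Nat.prime_of_mem_primeFactors hp
      have hd : p ∣ nT T * m := he ▸ (Nat.dvd_of_mem_primeFactors hp).mul_right _
      refine h0 p hq (((Nat.Prime.dvd_mul hq).1 hd).resolve_left fun h => hp' ?_)
      rw [← Nat.primeFactors_prod hs', ← e1]
      exact Nat.mem_primeFactors.2 ⟨hq, h, hn⟩
  rw [← e2]
  change ((T.map Pt.p).map fun p => Φ p a b).sum = _
  rw [Multiset.map_map]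
  refine congrArg _ (Multiset.map_congr rfl fun z h => ?_)
  obtain ⟨k1, k2, k3, k4, -⟩ := hz z h
  refine (phi_eq D k1 (fun k => ?_) k3 k2).symm
  rw [← Nat.cast_pow, Int.natCast_dvd] at k
  refine phi_sq hs' (Multiset.mem_map_of_mem Pt.p h : z.p ∈ s) ?_
  rw [← e1]
  exact (k4.pow_left 2).dvd_of_dvd_mul_right (he ▸ k.mul_right _)

theorem aPhi : PhiS := by
  intro N n l Φ c D
  refine ⟨phiF N n Φ, fun a b T hb hT hz he => ?_, fun t0 p0 σ e e' T hp hS hT hz he => ?_⟩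
  · refine phi_main (m := 1) (m' := 1) D hb hT one_ne_zero
      (fun p hp h => absurd (Nat.dvd_one.1 h) hp.ne_one)
      (fun z h => ⟨(hz z h).1, (hz z h).2.1, (hz z h).2.2, by simp, by simp⟩) ?_
    rw [← he, Int.natAbs_natCast]
  · have k := phi_main (m := p0 ^ e) (m' := p0 ^ e') D one_pos hT (pow_ne_zero _ hp.ne_zero)
      (fun p hq h => by
        rw [(Nat.prime_dvd_prime_iff_eq hq hp).1 (hq.dvd_of_dvd_pow h), D.slo t0 p0 σ hp hS,
          mul_zero])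
      (fun z h => by
        obtain ⟨k1, k2, k3⟩ := hz z h
        have k4 := (Nat.coprime_primes k1 hp).2 k3
        exact ⟨k1, k2, fun k => k1.ne_one (by simpa using Int.natCast_dvd.1 k), k4.pow_right _,
          k4.pow_right _⟩)
      (by simpa [Int.natAbs_mul, Int.natAbs_pow] using congrArg Int.natAbs he)
    rwa [Int.cast_one, div_one] at k

end Pool.Agent.MP_f3836a_nt.VE.A
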