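import Pool.Agent.MP_f3836a_nt.VE.SpecW1
import Pool.Agent.MP_f3836a_nt.VE.AGs
import Pool.Agent.MP_f3836a_nt.VE.APhi

/-! Part W1: the decomposition without reciprocity. -/

set_option autoImplicit false

namespace Pool.Agent.MP_f3836a_nt.VE.W

open Polynomial VE.A

theorem WGs.one (hG : GskS) {R ι : Type} [CommRing R] [Algebra ℚ R] [Algebra.FiniteType ℚ R] (x : R)
    {S : Sy R ι} (hS : Ok0 S) {N : ℤ[X]} {n : ℕ} (hN : N.Monic) (hn : N.natDegree = n) (v : ι)
    (hv : aeval x N ∈ S.P v) :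
    ∃ Φ c, Dec N n (fun a b => S.lam v ((b : R) * x - a)) (fun p => S.lam v p) Φ c := by
  have := hS.max v
  let _ : Field (R ⧸ S.P v) := Ideal.Quotient.field _
  have : Algebra.FiniteType ℚ (R ⧸ S.P v) :=
    Algebra.FiniteType.of_surjective (Ideal.Quotient.mkₐ ℚ (S.P v))
      (Ideal.Quotient.mkₐ_surjective ℚ _)
  have : Module.Finite ℚ (R ⧸ S.P v) := finite_of_finite_type_of_isJacobsonRing ℚ _
  have : NumberField (R ⧸ S.P v) := NumberField.of_module_finite ℚ _
  have hs := Ideal.Quotient.mk_surjective (I := S.P v)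
  have hl : ∀ u : R, S.lam v (Function.surjInv hs (Ideal.Quotient.mk _ u)) = S.lam v u := fun u =>
    hS.lamc v _ _ (Ideal.Quotient.eq.1 (Function.surjInv_eq hs _))
  obtain ⟨Φ, c, h⟩ := hG (R ⧸ S.P v) (fun u => S.lam v (Function.surjInv hs u))
    (Ideal.Quotient.mk _ x) N n (fun u u' hu hu' => by
      obtain ⟨w, rfl⟩ := hs u
      obtain ⟨w', rfl⟩ := hs u'
      rw [← map_mul, hl, hl, hl]
      exact hS.lamm v w w' (fun e => hu (Ideal.Quotient.eq_zero_iff_mem.2 e))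
        fun e => hu' (Ideal.Quotient.eq_zero_iff_mem.2 e)) hN hn
    ((aeval_algHom_apply (Ideal.Quotient.mk (S.P v)).toIntAlgHom x N).trans
      (Ideal.Quotient.eq_zero_iff_mem.2 hv))
  refine ⟨Φ, c, h.sum, fun a b hb hab => ?_, h.sim, fun t0 p σ hp hs' => ?_⟩
  · rw [← h.val a b hb hab, ← hl, map_sub, map_mul, map_intCast, map_intCast]
  · rw [h.slo t0 p σ hp hs', ← hl p, map_natCast]

theorem wGs : OfGsT := by
  intro hE hG R ι _ _ _ x y f S m A B hM hS hm
  have hf : f.natDegree = 3 := by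
    rw [← hM.deg, natDegree_map_eq_of_injective (Int.castRingHom ℚ).injective_int]
  obtain ⟨hN, hn⟩ := hE.1 f A B m hf hm
  have ha : ∀ P : ℤ[X], aeval x (P.map (Int.castRingHom ℚ)) = aeval x P := fun P =>
    aeval_map_algebraMap ℚ x P
  have hg : gv x y A B ≠ 0 := fun e => by
    have := (hM.ind (A.map (Int.castRingHom ℚ)) (B.map (Int.castRingHom ℚ))
      (by rw [ha, ha]; exact e)).1
    exact (hm.1.map _).ne_zero this
  have hd : aeval x (Ng f A B) = gv x y A B * (aeval x A - aeval x B * y) := by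
    have := hM.eq
    rw [ha] at this
    simp only [Ng, gv, map_sub, map_mul, map_pow, ← this]
    ring
  have := gs_ft hM
  have key : ∀ v : ι, ∃ Φ c, gv x y A B ∈ S.P v → Dec (Ng f A B) (2 * m)
      (fun a b => S.lam v ((b : R) * x - a)) (fun p => S.lam v p) Φ c := fun v => by
    by_cases hv : gv x y A B ∈ S.P v
    · obtain ⟨Φ, c, h⟩ := WGs.one hG x hS hN hn v (hd ▸ Ideal.mul_mem_right _ _ hv)
      exact ⟨Φ, c, fun _ => h⟩
    · exact ⟨0, 0, fun h => absurd h hv⟩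
  choose Φ c h using key
  have h' : ∀ v ∈ (hS.fin _ hg).toFinset, _ := fun v hv => h v (by simpa using hv)
  refine ⟨fun p a b => ∑ v ∈ (hS.fin _ hg).toFinset, (S.ord v (gv x y A B) : ℝ) * Φ v p a b,
    fun θ => ∑ v ∈ (hS.fin _ hg).toFinset, (S.ord v (gv x y A B) : ℝ) * c v θ, ?_,
    fun a b hb hab => ?_, fun p a b a' b' hs => ?_, fun t0 p σ hp hs => ?_⟩
  · rw [Finset.sum_comm]
    exact Finset.sum_eq_zero fun v hv => by rw [← Finset.mul_sum, (h' v hv).sum, mul_zero]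
  · rw [hS.L_eq hg, Finset.sum_comm]
    unfold ug
    simp only [Finset.sum_mul]
    rw [Finset.sum_comm (s := rts _), ← Finset.sum_add_distrib]
    refine Finset.sum_congr rfl fun v hv => ?_
    have := (h' v hv).val a b hb hab
    simp only [ug] at this
    rw [this, mul_add, Finset.mul_sum, Finset.mul_sum]
    simp only [mul_assoc]
  · exact Finset.sum_congr rfl fun v hv => by rw [(h' v hv).sim p a b a' b' hs]
  · rw [hS.L_eq hg, Finset.mul_sum]
    exact Finset.sum_congr rfl fun v hv => by rw [(h' v hv).slo t0 p σ hp hs]; ring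

theorem wPhi : PhiT := by
  intro N n l κ Φ c D
  refine ⟨phiF N n Φ, fun a b T hb hT hz he => ?_, fun t0 p0 σ e e' T hp hκ hS hT hz he => ?_⟩
  · refine phi_main (m := 1) (m' := 1) D hb hT one_ne_zero
      (fun p hp h => absurd (Nat.dvd_one.1 h) hp.ne_one)
      (fun z h => ⟨(hz z h).1, (hz z h).2.1, (hz z h).2.2, by simp, by simp⟩) ?_
    rw [← he, Int.natAbs_natCast]
  · have k := phi_main (m := p0 ^ e) (m' := p0 ^ e') D one_pos hT (pow_ne_zero _ hp.ne_zero)
      (fun p hq h => by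
        rw [(Nat.prime_dvd_prime_iff_eq hq hp).1 (hq.dvd_of_dvd_pow h), D.slo t0 p0 σ hp hS,
          hκ, mul_zero])
      (fun z h => by
        obtain ⟨k1, k2, k3⟩ := hz z h
        have k4 := (Nat.coprime_primes k1 hp).2 k3
        exact ⟨k1, k2, fun k => k1.ne_one (by simpa using Int.natCast_dvd.1 k), k4.pow_right _,
          k4.pow_right _⟩)
      (by simpa [Int.natAbs_mul, Int.natAbs_pow] using congrArg Int.natAbs he)
    rwa [Int.cast_one, div_one] at k

theorem wEv : EvT := by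
  intro f A B m p a k c c' T _ _ hp h0 hc hk hT he
  by_contra hn
  obtain ⟨ha, hA⟩ : (p : ℤ) ∣ a ∧ (p : ℤ) ∣ A.eval 0 := by tauto
  have hq := Nat.prime_iff_prime_int.1 hp
  have h1 : (p : ℤ) ∣ hv (Ng f A B) (2 * m) a (k ^ 2) := Finset.dvd_sum fun i _ => by
    rcases i with _ | i
    · refine Dvd.dvd.mul_right (Dvd.dvd.mul_right ?_ _) _
      rw [coeff_zero_eq_eval_zero, Ng, eval_sub, eval_mul, eval_pow]
      exact dvd_sub (dvd_pow hA two_ne_zero) (h0.mul_right _)
    · exact ((dvd_pow ha i.succ_ne_zero).mul_left _).mul_right _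
  have h2 := (hq.dvd_or_dvd (he ▸ h1.mul_right c')).resolve_right hc
  obtain ⟨q, hq', h3⟩ := hp.prime.exists_mem_multiset_dvd (Int.natCast_dvd_natCast.1 h2)
  obtain ⟨z, hz, rfl⟩ := Multiset.mem_map.1 hq'
  obtain ⟨⟨z1, -, z2, z3, z4, z5⟩, z6⟩ := hT z hz
  obtain rfl := (Nat.prime_dvd_prime_iff_eq hp z1).1 h3
  have h4 : (z.p : ℤ) ∣ z.t := (hq.dvd_or_dvd (by simpa using dvd_add z6 ha)).resolve_left
    fun e => hk ha (hq.dvd_of_dvd_pow e)
  rw [Nat.eq_zero_of_dvd_of_lt (Int.natCast_dvd_natCast.1 h4) z2, Nat.cast_zero] at z5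
  have h5 : (z.p : ℤ) ∣ z.y := hq.dvd_of_dvd_pow (n := 2) (by simpa using dvd_add z5 h0)
  exact z3.ne' (Nat.eq_zero_of_dvd_of_lt (Int.natCast_dvd_natCast.1 h5) z4)

end Pool.Agent.MP_f3836a_nt.VE.W
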