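import Pool.Agent.MP_f3836a_nt.VE.CGb

/-! Equidistribution in one field from the analytic core. -/

set_option autoImplicit false

namespace Pool.Agent.MP_f3836a_nt.VE.BC.CG

open Finset Pool.Agent.MP_c481b3_nt.H28.W

/-- the conclusion of the analytic core -/
def AnI (cτ : ℝ) (k' : ℕ) (C c C' : ℝ) (J k : ℕ) (δ1 : ℝ) : Prop :=
  ∀ (ι G : Type) [Fintype ι] [AddCommGroup G] [Finite G] (μ : ι → ℝ) (x : ι → G) (lam : ι → ℂ)
    (u : ι → ℕ) (U : ℕ) (L η : ℝ), Sb μ → J ≤ U → (∀ i, u i < U) → 0 < η → η ≤ δ1 → Cel lam u L η →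
  DH μ x lam k' η (C / (Nat.card G * (U * η))) →
  (∀ v, law (sm μ J) (su u J) k' v ≤ C' / U) ∧
  ∀ (B : Finset (AddChar G ℂ)) (cc : AddChar G ℂ → ℂ) (j : ℕ) (g : G) (κ β : ℂ) (d r fm ε : ℝ),
    0 < d → d ≤ 1 → (∀ χ ∈ B, ∀ i, χ (x i) = cc χ) → (∀ χ ∉ B, ‖ex μ fun i => χ (x i)‖ ≤ 1 - d) →
    2 * k' ≤ j → j ≤ k → (∀ χ ∈ B, χ g = cc χ ^ j) → κ ≠ 0 → 0 < r → r ≤ δ1 * ‖β‖ →
    η ≤ (r / ‖β‖) ^ 2 → 0 ≤ fm → 0 ≤ ε →
    (∀ v : ℤ, |η * v - (Real.log (‖β‖ ^ 2) - Real.log (‖κ‖ ^ 2) - j * L)| ≤ 1 →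
      |U * law (sm μ J) (su u J) j v - fm| ≤ ε * fm) →
    |Sl μ x lam j g κ β r - B.card * fm * cτ / Real.pi * ((r / ‖β‖) ^ 2 / (Nat.card G * (U * η)))|
      ≤ C' * (B.card * fm * (ε + r / ‖β‖) + (1 - c * d ^ 2) ^ (j - 2 * k') + k * J * (r / ‖β‖)) *
        ((r / ‖β‖) ^ 2 / (Nat.card G * (U * η)))

variable {A : ℕ} {ss : Pt → ℤ} {Val : Pt → Prop} {St : Finset (Multiset Pt)}
  {μ : Multiset Pt → ℝ} {L0 E0 E1 : ℕ} {C1 Y : ℝ}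

theorem cel (hB : BasS) (h : BH A ss Val St μ L0 E0 E1 C1 Y) (hY : 1 < Y) (hL : 1 ≤ L0)
    (hE : 2 ≤ E1) {U Q : ℕ} (hU : 0 < U) {lam : Ideal (O A) → ℂ} (hl : Lam A Q lam)
    {S : Finset (Multiset Pt)} (hS : S ⊆ St) :
    Cel (fun x : cop S Q => lam (IM A ss x)) (fun x : cop S Q => uu L0 E1 Y U x)
      (L0 * Real.log Y) (eta L0 E1 Y U) := fun x => by
  obtain ⟨h1, h2⟩ := mem_filter.1 x.2
  obtain ⟨h3, h4, h5, -⟩ := (hB A Q ss h.one).2.2.2.2.2.2.2 x fun z hz => gd h (hS h1) hz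
  have e := hl.nrm _ (h5 h2).1 _ h3
  refine ⟨fun c => h4 ?_, ?_⟩
  · simp only at c
    rw [c] at e
    simpa using e.symm
  · simp only [e]
    exact (uu_spec h hY hL hE hU (hS h1)).2

theorem shift_size (h : BH A ss Val St μ L0 E0 E1 C1 Y) (hY : 1 ≤ Y) (hE : 1 ≤ E0) {Q V : ℝ}
    (hQ : Q ≤ Y ^ E0) (hV : Y ^ (2 * E0) ≤ V) : Q * √A * √Y ≤ V := by
  have h1 : 1 ≤ √Y := Real.one_le_sqrt.2 hY
  have e : Y = √Y ^ 2 := (Real.sq_sqrt (by linarith)).symm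
  have h2 : √(A : ℝ) ≤ √Y ^ E0 := Real.sqrt_le_iff.2 ⟨by positivity, by
    rw [← pow_mul, mul_comm, pow_mul, ← e]; exact h.size⟩
  have h3 : √Y ≤ √Y ^ E0 := le_self_pow₀ h1 (by omega)
  calc Q * √A * √Y ≤ Y ^ E0 * √Y ^ E0 * √Y ^ E0 := by gcongr
    _ = Y ^ (2 * E0) := by rw [mul_assoc, ← mul_pow, Real.mul_self_sqrt (by linarith)]; ring
    _ ≤ V := hV

theorem small {a e e0 f s Λ : ℝ} (hs : 0 < s) (h : a ≤ e0 ^ 2 * s) (h0 : 0 < e0) (h1 : e0 ≤ e)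
    (h2 : Λ * e0 ≤ 1) (h3 : 1 ≤ Λ) (h4 : 1 / Λ ≤ f) : a / s ≤ f * e := by
  have h5 : e0 ≤ f := le_trans ((le_div_iff₀' (by linarith)).2 h2) h4
  rw [div_le_iff₀ hs]
  exact h.trans (mul_le_mul_of_nonneg_right (by nlinarith) hs.le)

theorem near {U x y f e t : ℝ} (h1 : |U * x - f| ≤ e * f) (h2 : U * y ≤ U * x)
    (h3 : U * x ≤ U * (y + t)) (h4 : U * t ≤ f * e) : |U * y - f| ≤ 2 * e * f := by
  obtain ⟨h5, h6⟩ := abs_le.1 h1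
  rw [abs_le]
  constructor <;> linarith [abs_nonneg (U * x - f)]

theorem total {b f e δ θ a t C C' Λ : ℝ} (hb : 1 ≤ b) (hf : 0 < f) (he : 0 < e) (hδ : δ ≤ e)
    (hΛ : 1 ≤ Λ) (h1 : 1 / Λ ≤ f) (h2 : Λ * θ ≤ e) (h3 : a ≤ f * e) (h4 : t ≤ f * e) (hC : 0 ≤ C)
    (hC' : 1 ≤ C') : C' * (b * f * (2 * e + δ) + θ + a) + t * C ≤ (5 * C' + C) * (b * f * e) := by
  have y0 : f * e ≤ b * f * e := by
    rw [mul_assoc]; exact le_mul_of_one_le_left (by positivity) hb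
  have y1 : b * f * (2 * e + δ) ≤ b * f * (3 * e) :=
    mul_le_mul_of_nonneg_left (by linarith) (by positivity)
  have y2 : θ ≤ f * e := by
    rw [div_le_iff₀' (by linarith)] at h1
    refine le_of_mul_le_mul_left (h2.trans ?_) (show 0 < Λ by linarith)
    nlinarith
  nlinarith [mul_le_mul_of_nonneg_left (h4.trans y0) hC, mul_le_mul_of_nonneg_left
    (add_le_add (add_le_add y1 (y2.trans y0)) (h3.trans y0)) (show 0 ≤ C' by linarith)]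

theorem tiny {x s C c e e0 : ℝ} (hs : 0 < s) (hC : 0 ≤ C) (hc : 0 < c) (h : x ≤ 1 / s) (h1 : e0 ≤ e)
    (n : 4 * C ≤ c * e0 * s) : 2 * C * x ≤ c * e / 2 := by
  refine (mul_le_mul_of_nonneg_left h (by positivity)).trans ?_
  rw [mul_one_div, div_le_iff₀ hs]
  nlinarith [mul_le_mul_of_nonneg_left h1 (mul_pos hc hs).le]

theorem sfe_all (hB : BasS) (hPar : ParS) (hSum : SumS) (hLoc : LocS) (hOm : OmS) (hMg : MgS)
    (hPi : PiS) (hCard : CardS) (hLam : LamS) {cτ Cτ Cd c C' δ1 d X V Qm ε ε0 Λ Λ0 : ℝ}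
    {k' J k W U : ℕ} (hc : 0 < cτ) (hC : 0 ≤ Cτ) (hRS : RS cτ Cτ) (hCd : 0 ≤ Cd) (hC' : 1 ≤ C')
    (hAn : AnI cτ k' Cd c C' J k δ1) (h : BH A ss Val St μ L0 E0 E1 C1 Y) (hL : 1 ≤ L0)
    (hE0 : 1 ≤ E0) (hE1 : 2 ≤ E1) {S : Finset (Multiset Pt)} (hS : S ⊆ St)
    (hm : 1 / 2 ≤ ∑ x ∈ S, μ x) (hW : 3 ≤ W) (hJ : 1 ≤ J) (hJU : J ≤ U) (hη : eta L0 E1 Y U ≤ δ1)
    (hDH : ∀ (Q : ℕ) (lam : Ideal (O A) → ℂ), 3 ≤ Q → (Q : ℝ) ≤ Y ^ E0 → Lam A Q lam →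
      DH (fun x : cop S Q => nz S μ x) (fun x : cop S Q => cM A Q ss x)
        (fun x : cop S Q => lam (IM A ss x)) k' (eta L0 E1 Y U)
        (Cd / (Nat.card (RC A Q) * (U * eta L0 E1 Y U))))
    (hcv : ∀ v, cv S (nz S μ) (uu L0 E1 Y U) J k' v ≤ C' / U)
    {B : Finset (AddChar (RC A W) ℂ)} {cc : AddChar (RC A W) ℂ → ℂ} {LL : Finset ℕ}
    (hB1 : 1 ≤ B.card) (hd : 0 < d) (hd1 : d ≤ 1)
    (hDi : ∀ (Q : ℕ) (π : RC A Q →+ RC A W), W ∣ Q → 0 < Q → (Q : ℝ) ≤ Y ^ E0 → IsPr A W Q π →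
      (∀ l ∈ LL, ¬l ∣ Q) → ∃ BQ : Finset (AddChar (RC A Q) ℂ), BQ.card = B.card ∧
      (∀ χ ∈ BQ, ∃ χ' ∈ B, ∀ g, χ g = χ' (π g)) ∧ ∀ χ ∉ BQ, ‖mch Q ss S (nz S μ) χ‖ ≤ 1 - d)
    (hcc : ∀ χ ∈ B, ∀ x ∈ S, χ (cM A W ss x) = cc χ)
    {ad : Multiset Pt → ℕ → Prop} {fm : Multiset Pt → ℕ → ℝ}
    (had : ∀ T j, ad T j → Nd T ∧ (∀ z ∈ T, Val z) ∧ 2 * k' + 2 ≤ j ∧ j ≤ k ∧ 1 / Λ ≤ fm T j ∧
      Λ * (1 - c * d ^ 2) ^ (j - 2 * k') ≤ ε ∧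
      (∀ χ ∈ B, ∀ g, g + cM A W ss T = 0 → χ g = cc χ ^ j) ∧
      ∀ v : ℤ, |eta L0 E1 Y U * v - (X - Real.log (nT T) - j * (L0 * Real.log Y))| ≤ Λ0 + 1 →
        |U * cv S (nz S μ) (uu L0 E1 Y U) J j v - fm T j| ≤ ε * fm T j)
    (h0 : 0 < ε0) (h1 : ε0 ≤ ε) (h2 : ε ≤ 1) (h3 : Λ * ε0 ≤ 1) (h4 : 1 ≤ Λ) (h5 : Qm ≤ Y ^ E0)
    (h6 : Y ^ (2 * E0) ≤ V) (h7 : V * Y ≤ Real.exp (X / 2)) (h8 : Real.exp X * Y ≤ V ^ 2 * U)
    (n1 : 2 ≤ √Y) (n2 : 1 ≤ δ1 * √Y) (n3 : Real.exp Λ0 ≤ √Y)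
    (n4 : L0 * (E1 - 1) * Real.log Y * Real.exp Λ0 ≤ Y)
    (n5 : 1 + k * J + (3 + 8 * k ^ 2 * L0) + k * (2 * E0) * C' ≤ ε0 ^ 2 * √Y)
    (n6 : 4 * Cτ ≤ cτ * ε0 * √Y) :
    SFE A ss W S (wt S μ) (√A * W ^ 2 * B.card / (Real.pi * (U * eta L0 E1 Y U) * Nat.card (RC A W)))
      LL ad fm X Λ0 Qm V ((1 + 8 * (5 * C' + Cd) / cτ) * ε) (32 * Cd / cτ * Λ) := by
  intro Q hWQ hQ hQm
  have hs : 0 < √Y := by linarith
  have eY : √Y ^ 2 = Y := Real.sq_sqrt (Real.sqrt_pos.1 hs).le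
  have hY : 1 < Y := eY ▸ one_lt_pow₀ (by linarith) two_ne_zero
  have hQ' := hQm.trans h5
  have hQ3 : 3 ≤ Q := hW.trans (Nat.le_of_dvd hQ hWQ)
  have hU : 0 < U := by omega
  have hU' : (0 : ℝ) < U := by exact_mod_cast hU
  have hη0 := eta_pos hY hL hE1 hU
  have hV : 0 < V := lt_of_lt_of_le (by positivity) h6
  have hA : (0 : ℝ) < √A := Real.sqrt_pos.2 (by exact_mod_cast h.one.le)
  have hQ0 : (0 : ℝ) < Q := by exact_mod_cast hQ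
  have s1 := shift_size h hY.le hE0 hQ' h6
  obtain ⟨Vs, v1, v2, v3⟩ := hOm cτ Cτ hC hRS A Q V h.one.le hQ 
    ((le_mul_of_one_le_right (mul_pos hQ0 hA).le (by linarith)).trans s1)
  obtain ⟨lam, hl⟩ := hLam A Q h.one hQ3
  obtain ⟨π, hπ⟩ := hPi A W Q h.one hWQ hQ
  obtain ⟨f1, -, f2⟩ := hCard A W Q h.one hWQ hQ
  have f3 := (hCard A W W h.one dvd_rfl (by omega)).1
  have g1 : (0 : ℝ) < Nat.card (RC A Q) := by exact_mod_cast Nat.card_pos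
  have g2 : (0 : ℝ) < Nat.card (RC A W) := by exact_mod_cast Nat.card_pos
  have hW0 : (0 : ℝ) < W := by exact_mod_cast (by omega : 0 < W)
  set Z := ∑ v ∈ Vs, tent (Q * emb v / V) with hZ
  set a := U * eta L0 E1 Y U with ha
  have ha0 : 0 < a := by positivity
  have v4 : |Q ^ 2 * √A / V ^ 2 * Z - cτ| ≤ cτ * ε / 2 := by
    refine v3.trans (tiny hs hC hc ?_ h1 n6)
    rw [div_le_div_iff₀ hV hs]; linarith
  have hb : (1 : ℝ) ≤ B.card := by exact_mod_cast hB1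
  have ar := fun (Sg f E : ℝ) (hf : 1 / Λ ≤ f) => arith (S := Sg) (f := f) (E := E)
    (R := V ^ 2 / (Nat.card (RC A Q) * a)) (C' := 5 * C' + Cd)
    (ρ := √A * W ^ 2 * B.card / (Real.pi * a * Nat.card (RC A W)) * rat A W Q) (by positivity)
    (by positivity) hb hc (by linarith) h2 h4 hf hCd (by linarith) v4 (by
      have := f2 hW
      field_simp
      linear_combination this)
  have hZ0 := (ar 0 _ 0 le_rfl).1
  refine ⟨Vs, fun v => tent (Q * emb v / V) / Z, fun v => div_nonneg (le_max_left _ _) hZ0.le,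
    by rw [← sum_div, div_self hZ0.ne'], v2, fun T j β n' hT t1 t2 t3 t4 t5 t6 => ?_⟩
  obtain ⟨a1, a2, a3, a4, a5, a6, a7, a8⟩ := had T j hT
  have b1 := ((hB A Q ss h.one).2.2.2.2.2.2.1 β β).2.2.1
  have hn : (0 : ℝ) < nT T := by
    exact_mod_cast Nat.pos_of_ne_zero (((hB A Q ss h.one).2.2.2.2.2.2.2 T
      fun z hz => (h.val z (a2 z hz)).1).2.1)
  have hn' : (0 : ℝ) < n' := by
    exact_mod_cast Nat.pos_of_ne_zero fun c => by rw [c, Nat.coprime_zero_left] at t5; omega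
  have hβ : 0 < ‖emb β‖ := by
    refine lt_of_le_of_ne (norm_nonneg _) fun c => ?_
    rw [← c, t4] at b1
    push_cast at b1
    linarith [mul_pos hn hn']
  rw [← b1] at t6
  obtain ⟨z1, z2⟩ := sizes hβ (by linarith) hV hU' t6 (by rwa [eY]) (by rwa [eY]) n3
    (n4.trans eY.ge)
  have z3 : V / ‖emb β‖ ≤ 1 / 2 := z1.trans (one_div_le_one_div_of_le two_pos n1)
  have z0 : 0 < V / ‖emb β‖ := by positivity
  obtain ⟨l1, l2⟩ := loc_sum hB hPar hSum hLoc h hS hm hW hWQ hQ hl hπ a1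
    (fun z hz => ⟨a2 z hz, t3 z hz⟩) t1 t2 t4 t5 v1 (hDH Q lam hQ3 hQ' hl) hV
    (by rw [div_le_iff₀ hβ] at z3; linarith) (le_trans z2 (pow_le_of_le_one z0.le (by linarith) two_ne_zero)) (show k' + 2 ≤ j by omega)
  simp only [div_mul_eq_mul_div, ← sum_div]
  refine ⟨((ar _ _ 0 a5).2.1 (l1.trans (le_of_eq (by ring)))).trans (le_of_eq (by ring)),
    fun hLL => ?_⟩
  obtain ⟨BQ, q1, q2, q3⟩ := hDi Q π hWQ hQ hQ' hπ hLL
  choose! χ' q4 q5 using q2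
  have hf0 : 0 < fm T j := lt_of_lt_of_le (by positivity) a5
  have hk : (j : ℝ) ≤ k := by exact_mod_cast a4
  have p1 : (0 : ℝ) ≤ k * J := by positivity
  have p2 : (0 : ℝ) ≤ 3 + 8 * k ^ 2 * L0 := by positivity
  have p3 : (0 : ℝ) ≤ k * (2 * E0) * C' := by positivity
  have m1 := small (a := k * (2 * E0) * C') hs (by linarith only [n5, p1, p2]) h0 h1 h3 h4 a5
  have m2 := small (a := k * J) hs (by linarith only [n5, p3, p2]) h0 h1 h3 h4 a5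
  have m3 := small (a := 3 + 8 * k ^ 2 * L0) hs (by linarith only [n5, p1, p3]) h0 h1 h3 h4 a5
  have m4 := small (a := 1) (f := 1) hs (by linarith only [n5, p1, p2, p3]) h0 h1 h3 h4
    ((div_le_one (by linarith only [h4])).2 h4)
  have l3 := l2 _ _ fun g κ k1 k2 => (hAn _ _ _ _ _ _ U _ _ (sb_cop h hS (filter_subset _ _) hm) hJU
    (fun x => (uu_spec h hY hL hE1 hU (hS (filter_subset _ _ x.2))).1) hη0 hη
    (cel hB h hY hL hE1 hU hl hS) (hDH Q lam hQ3 hQ' hl)).2 BQ (fun χ => cc (χ' χ)) j g κ (emb β) d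
    V (fm T j) (2 * ε) hd hd1 (fun χ hχ x => by
      obtain ⟨x1, x2⟩ := mem_filter.1 x.2
      rw [q5 χ hχ, pi_cM hB h.one hπ hWQ (fun z hz => gd h (hS x1) hz) x2, hcc _ (q4 χ hχ) _ x1])
    q3 (by omega) a4 (fun χ hχ => by rw [q5 χ hχ, a7 _ (q4 χ hχ) _ k2])
    (fun c => by rw [c] at k1; simp at k1; linarith) hV (by
      rw [← div_le_iff₀ hβ]
      exact z1.trans ((div_le_iff₀ hs).2 n2)) z2 hf0.le (by linarith) (fun v hv => by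
      rw [← cv_eq]
      rw [k1] at hv
      have w1 := a8 v (by
        rw [abs_le] at hv t6 ⊢
        constructor <;> linarith only [hv.1, hv.2, t6.1, t6.2])
      obtain ⟨w2, w3⟩ := hMg _ S (cop S Q) (nz S μ) (uu L0 E1 Y U) J k' j _ (2 * E0 / √Y)
        (filter_subset _ _) (fun x hx => (nz_le hm (h.pos x (hS hx))).1) (nz_sum hm).le (by
          refine le_trans (sum_le_sum fun x hx => (nz_le hm (h.pos x (hS (sdiff_subset hx)))).2) ?_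
          rw [← mul_sum, mul_div_assoc]
          exact mul_le_mul_of_nonneg_left (mass_cop h hY hQ hQ' hS) zero_le_two) hJ hcv (by omega) v
      refine near w1 (mul_le_mul_of_nonneg_left w2 hU'.le) (mul_le_mul_of_nonneg_left w3 hU'.le)
        (le_trans ?_ m1)
      rw [show U * (j * (2 * E0 / √Y) * (C' / U)) = j * (2 * E0) * C' / √Y by field_simp]
      gcongr)
  rw [q1, ← ha] at l3
  refine le_trans (le_of_eq (by congr 1; ring)) (((ar _ _ (C' * (B.card * fm T j *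
    (2 * ε + V / ‖emb β‖) + (1 - c * d ^ 2) ^ (j - 2 * k') + k * J * (V / ‖emb β‖)) +
    (3 * (V / ‖emb β‖) + 4 * j ^ 2 * (2 * L0 / √Y)) * Cd) a5).2.2
    (le_trans (le_of_eq ?_) (l3.trans (le_of_eq ?_))) ?_).trans (le_of_eq (by ring)))
  · congr 2; field_simp
  · field_simp
  · refine total hb hf0 (h0.trans_le h1) (z1.trans (m4.trans (one_mul _).le)) h4 a5 a6
      ((mul_le_mul_of_nonneg_left z1 p1).trans (by rwa [mul_one_div])) (le_trans ?_ m3) hCd hC'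
    rw [show (3 + 8 * k ^ 2 * L0) / √Y = 3 * (1 / √Y) + 4 * k ^ 2 * (2 * L0 / √Y) by ring]
    gcongr

end Pool.Agent.MP_f3836a_nt.VE.BC.CG
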