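import Pool.Agent.MP_f3836a_nt.VE.SpecE1

/-! The deletion lemma, first part. -/

set_option autoImplicit false

namespace Pool.Agent.MP_f3836a_nt.VE

open Finset

namespace EDelA

open Classical in
theorem lk_one (S : Finset ℤ) (b : ℤ) (z : Pt) : lk S b {z} = S.filter fun a => On a b z := by
  unfold lk
  exact filter_congr fun a _ => by simp

theorem swap (A : Finset ℤ) (Z : Finset Pt) (R : ℤ → Pt → Prop) [∀ a z, Decidable (R a z)]
    (n : Pt → ℝ) :
    ∑ a ∈ A, ∑ z ∈ Z.filter fun z => R a z, n z =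
      ∑ z ∈ Z, n z * ((A.filter fun a => R a z).card : ℝ) := by
  simp only [sum_filter, card_filter, Nat.cast_sum, Nat.cast_ite, Nat.cast_one, Nat.cast_zero,
    mul_sum, mul_ite, mul_one, mul_zero]
  exact sum_comm

open Classical in
/-- the points to be removed -/
def Bad (H2 : Finset ℤ) (b : ℤ) (G : ℤ → Pt → Prop) (cell : ℤ → ℕ) (J : ℕ) (x : ℝ) (D : Finset ℤ)
    (z : Pt) : Prop :=
  x < z.p * ((lk D b {z}).card : ℝ) ∨
    x < z.p * ((H2.filter fun a => On a b z ∧ ¬G a z).card : ℝ) ∨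
    ∃ c < J, x < |z.p * ((lk (H2.filter fun a => cell a = c) b {z}).card : ℝ)
      - (H2.filter fun a => cell a = c).card|

variable {P : Finset Pt} {H0 H2 : Finset ℤ} {b : ℤ} {n : Pt → ℝ} {G : ℤ → Pt → Prop}
  {cell : ℤ → ℕ} {J : ℕ} {L γ e δm : ℝ}

theorem bad_mono {x : ℝ} {D D' : Finset ℤ} (h : D ⊆ D') {z : Pt} (k : Bad H2 b G cell J x D z) :
    Bad H2 b G cell J x D' z := by
  classical
  refine k.imp_left fun a => a.trans_le (mul_le_mul_of_nonneg_left ?_ (Nat.cast_nonneg _))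
  rw [lk_one, lk_one]
  exact_mod_cast card_le_card (filter_subset_filter _ h)

theorem bad_cj {x : ℝ} {D : Finset ℤ} {z : Pt}
    (h : ∀ a, (On a b z.cj ↔ On a b z) ∧ (G a z.cj ↔ G a z)) :
    Bad H2 b G cell J x D z.cj ↔ Bad H2 b G cell J x D z := by
  have e1 : z.cj.p = z.p := rfl
  classical
  have e2 : ∀ S, lk S b {z.cj} = lk S b {z} := fun S => by
    rw [lk_one, lk_one]
    exact filter_congr fun a _ => (h a).1
  have e3 : (H2.filter fun a => On a b z.cj ∧ ¬G a z.cj) = H2.filter fun a => On a b z ∧ ¬G a z :=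
    filter_congr fun a _ => by rw [(h a).1, (h a).2]
  simp only [Bad, e1, e2, e3]

theorem sq_ge {x y L e : ℝ} (hL : 0 < L) (he : 0 < e) (h : e * L ≤ x * |y|) :
    1 ≤ x ^ 2 / e ^ 2 * (y / L) ^ 2 := by
  have := pow_le_pow_left₀ (by positivity) h 2
  rw [mul_pow x, sq_abs, mul_pow] at this
  rw [div_pow, div_mul_div_comm, one_le_div (by positivity)]
  exact this

open Classical in
theorem mass (h : DelH P H0 H2 b n G cell J L γ e δm) {D : Finset ℤ} (hD : D ⊆ H2)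
    (hc : (D.card : ℝ) ≤ e * L / 2) :
    ∑ z ∈ P.filter (Bad H2 b G cell J (e * L) D), n z / z.p ≤ e ^ 2 / 4 := by
  obtain ⟨hL, he, -, hδ, hδ', hγ⟩ := h.num
  have s0 : ∀ z ∈ P, 0 ≤ n z / z.p := fun z hz => div_nonneg (h.pos z hz).2 (Nat.cast_nonneg _)
  let φ : Finset ℤ → Pt → ℝ := fun S z => ((z.p * ((lk S b {z}).card : ℝ) - S.card) / L) ^ 2
  let ψ : Pt → ℝ := fun z => z.p * ((H2.filter fun a => On a b z ∧ ¬G a z).card : ℝ) / (e * L)
  have p1 : ∀ z, 0 ≤ 2 ^ 2 / e ^ 2 * φ D z := fun z => by positivity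
  have p2 : ∀ z, 0 ≤ ψ z := fun z => by positivity
  have p3 : ∀ z c, 0 ≤ 1 ^ 2 / e ^ 2 * φ (H2.filter fun a => cell a = c) z := fun z c => by
    positivity
  have p4 : ∀ z, 0 ≤ ∑ c ∈ range J, 1 ^ 2 / e ^ 2 * φ (H2.filter fun a => cell a = c) z :=
    fun z => sum_nonneg fun c _ => p3 z c
  have k : ∀ z, Bad H2 b G cell J (e * L) D z → 1 ≤ 2 ^ 2 / e ^ 2 * φ D z + ψ z +
      ∑ c ∈ range J, 1 ^ 2 / e ^ 2 * φ (H2.filter fun a => cell a = c) z := by
    rintro z (a | a | ⟨c, hc', a⟩)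
    · have : 1 ≤ 2 ^ 2 / e ^ 2 * φ D z := sq_ge hL he (by
        linarith [le_abs_self (z.p * ((lk D b {z}).card : ℝ) - D.card)])
      linarith [p2 z, p4 z]
    · have : 1 ≤ ψ z := (one_le_div (by positivity)).2 a.le
      linarith [p1 z, p4 z]
    · have t : 1 ≤ 1 ^ 2 / e ^ 2 * φ (H2.filter fun a => cell a = c) z :=
        sq_ge hL he (by linarith)
      have := t.trans (single_le_sum (fun c _ => p3 z c) (mem_range.2 hc'))
      linarith [p1 z, p2 z]
  have b1 : ∀ (x : ℝ) (S : Finset ℤ), S ⊆ H2 →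
      ∑ z ∈ P, n z / z.p * (x ^ 2 / e ^ 2 * φ S z) ≤ x ^ 2 / e ^ 2 * γ := fun x S hS => by
    refine le_trans (le_of_eq ?_)
      (mul_le_mul_of_nonneg_left (h.lsv.one S (hS.trans h.sub)) (by positivity))
    rw [mul_sum]
    exact sum_congr rfl fun z _ => mul_left_comm _ _ _
  have b2 : ∑ z ∈ P, n z / z.p * ψ z ≤ e ^ 2 / 8 := by
    have c1 : ∑ z ∈ P, n z / z.p * ψ z =
        (∑ a ∈ H2, ∑ z ∈ P.filter fun z => On a b z ∧ ¬G a z, n z) / (e * L) := by
      rw [swap H2 P (fun a z => On a b z ∧ ¬G a z), sum_div]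
      refine sum_congr rfl fun z hz => ?_
      have : (z.p : ℝ) ≠ 0 := by exact_mod_cast (h.pos z hz).1.ne'
      simp only [ψ]
      field_simp
    have c2 : (H2.card : ℝ) ≤ L := le_trans (by exact_mod_cast card_le_card h.sub) h.lsv.card
    have c3 := sum_le_card_nsmul _ _ _ h.mis
    rw [nsmul_eq_mul] at c3
    rw [c1, div_le_iff₀ (by positivity)]
    have c4 : (H2.card : ℝ) * δm ≤ L * (e ^ 3 / 8) := mul_le_mul c2 hδ' hδ hL.le
    linarith
  have b3 : ∑ z ∈ P, n z / z.p * ∑ c ∈ range J,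
      1 ^ 2 / e ^ 2 * φ (H2.filter fun a => cell a = c) z ≤ J * (1 ^ 2 / e ^ 2 * γ) := by
    simp only [mul_sum]
    rw [sum_comm]
    refine (sum_le_card_nsmul _ _ _ fun c _ => b1 1 _ (filter_subset _ _)).trans_eq ?_
    rw [card_range, nsmul_eq_mul]
  have b4 : 2 ^ 2 / e ^ 2 * γ + J * (1 ^ 2 / e ^ 2 * γ) ≤ e ^ 2 / 8 := by
    rw [show 2 ^ 2 / e ^ 2 * γ + J * (1 ^ 2 / e ^ 2 * γ) = (J + 4) * γ / e ^ 2 by ring,
      div_le_iff₀ (by positivity)]
    linarith
  calc _ ≤ ∑ z ∈ P.filter (Bad H2 b G cell J (e * L) D), n z / z.p * (2 ^ 2 / e ^ 2 * φ D z + ψ z +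
        ∑ c ∈ range J, 1 ^ 2 / e ^ 2 * φ (H2.filter fun a => cell a = c) z) :=
        sum_le_sum fun z hz =>
          le_mul_of_one_le_right (s0 z (mem_filter.1 hz).1) (k z (mem_filter.1 hz).2)
    _ ≤ ∑ z ∈ P, n z / z.p * (2 ^ 2 / e ^ 2 * φ D z + ψ z +
        ∑ c ∈ range J, 1 ^ 2 / e ^ 2 * φ (H2.filter fun a => cell a = c) z) :=
        sum_le_sum_of_subset_of_nonneg (filter_subset _ _) fun z hz _ =>
          mul_nonneg (s0 z hz) (add_nonneg (add_nonneg (p1 z) (p2 z)) (p4 z))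
    _ ≤ e ^ 2 / 4 := by
        simp only [mul_add, sum_add_distrib]
        linarith [b1 2 D hD]

open Classical in
/-- the curves which lose too much -/
noncomputable def Psi (P : Finset Pt) (H2 : Finset ℤ) (b : ℤ) (n : Pt → ℝ) (G : ℤ → Pt → Prop)
    (cell : ℤ → ℕ) (J : ℕ) (L e : ℝ) (D : Finset ℤ) : Finset ℤ :=
  H2.filter fun a =>
    e < ∑ z ∈ (P.filter (Bad H2 b G cell J (e * L) D)).filter fun z => On a b z, n z

open Classical in
theorem psi_card (h : DelH P H0 H2 b n G cell J L γ e δm) {D : Finset ℤ} (hD : D ⊆ H2)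
    (hc : (D.card : ℝ) ≤ e * L / 2) : ((Psi P H2 b n G cell J L e D).card : ℝ) ≤ e * L / 2 := by
  obtain ⟨hL, he, -⟩ := h.num
  have a1 := card_nsmul_le_sum (Psi P H2 b n G cell J L e D) _ e
    fun a ha => (mem_filter.1 ha).2.le
  rw [nsmul_eq_mul, swap _ _ (fun a z => On a b z)] at a1
  have a2 : ∀ z ∈ P.filter (Bad H2 b G cell J (e * L) D),
      n z * (((Psi P H2 b n G cell J L e D).filter fun a => On a b z).card : ℝ) ≤
        n z / z.p * (2 * L) := fun z hz => by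
    obtain ⟨p0, n0⟩ := h.pos z (mem_filter.1 hz).1
    have p1 : (0 : ℝ) < z.p := by exact_mod_cast p0
    have c1 := h.lsv.link z (mem_filter.1 hz).1
    have c2 : (((Psi P H2 b n G cell J L e D).filter fun a => On a b z).card : ℝ) ≤
        (lk H0 b {z}).card := by
      rw [lk_one]
      exact_mod_cast card_le_card (filter_subset_filter _ ((filter_subset _ _).trans h.sub))
    rw [div_mul_eq_mul_div, le_div_iff₀ p1, mul_assoc]
    refine mul_le_mul_of_nonneg_left (le_trans ?_ c1) n0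
    rw [mul_comm]
    exact mul_le_mul_of_nonneg_left c2 p1.le
  have a3 := a1.trans (sum_le_sum a2)
  rw [← sum_mul] at a3
  have a4 := mul_le_mul_of_nonneg_right (mass h hD hc) (show 0 ≤ 2 * L by positivity)
  refine le_of_mul_le_mul_right ?_ he
  linarith

end EDelA

open EDelA

theorem rDelA : OfDelA := by
  classical
  intro hF P H0 H2 b n G cell J L γ e δm h
  obtain ⟨hL, he, he1, -⟩ := h.num
  obtain ⟨D, hD, hc, hfix⟩ := hF H2 (Psi P H2 b n G cell J L e) (e * L / 2) (by positivity)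
    (fun D => filter_subset _ _)
    (fun D D' hDD a ha => mem_filter.2 ⟨(mem_filter.1 ha).1, (mem_filter.1 ha).2.trans_le
      (sum_le_sum_of_subset_of_nonneg
        (filter_subset_filter _ fun z hz =>
          mem_filter.2 ⟨(mem_filter.1 hz).1, bad_mono hDD (mem_filter.1 hz).2⟩)
        fun z hz _ => (h.pos z (mem_filter.1 (mem_filter.1 hz).1).1).2)⟩)
    fun D hD hc => psi_card h hD hc
  have e1 : H2 \ (H2 \ D) = D := Finset.sdiff_sdiff_eq_self hD
  have e2 : P \ P.filter (fun z => ¬Bad H2 b G cell J (e * L) D z) =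
      P.filter (Bad H2 b G cell J (e * L) D) := by
    ext z
    simp only [mem_sdiff, mem_filter]
    exact ⟨fun a => ⟨a.1, not_not.1 fun k => a.2 ⟨a.1, k⟩⟩, fun a => ⟨a.1, fun k => k.2 a.2⟩⟩
  refine ⟨H2 \ D, P.filter fun z => ¬Bad H2 b G cell J (e * L) D z, sdiff_subset,
    filter_subset _ _, fun z hz => ?_, by rwa [e1], fun a ha => ?_, ?_, fun z hz => ?_,
    fun z hz => ?_, fun z hz c hc' => ?_⟩
  · obtain ⟨a1, a2⟩ := mem_filter.1 hz
    exact mem_filter.2 ⟨(h.cj z a1).1, fun k => a2 ((bad_cj (h.cj z a1).2).1 k)⟩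
  · obtain ⟨a1, a2⟩ := mem_sdiff.1 ha
    rw [e2]
    by_contra k
    exact a2 (hfix ▸ mem_filter.2 ⟨a1, not_le.1 k⟩)
  · rw [e2]
    refine (mass h hD hc).trans ?_
    nlinarith
  · rw [e1]
    exact not_lt.1 fun k => (mem_filter.1 hz).2 (Or.inl k)
  · exact not_lt.1 fun k => (mem_filter.1 hz).2 (Or.inr (Or.inl k))
  · exact not_lt.1 fun k => (mem_filter.1 hz).2 (Or.inr (Or.inr ⟨c, hc', k⟩))

end Pool.Agent.MP_f3836a_nt.VE
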