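import Pool.Agent.MP_f3836a_nt.VE.SpecE2

/-! Row SEq: equidistribution for the concrete system. -/

set_option autoImplicit false

namespace Pool.Agent.MP_f3836a_nt.VE

open Polynomial Finset

namespace SEq

theorem pow_le (a : ℝ) (ha : 0 ≤ a) (n : ℕ) (h : 2 * n * a ≤ 1) : (1 + a) ^ n ≤ 1 + 2 * n * a := by
  induction n with
  | zero => simp
  | succ n ih =>
    push_cast at h ⊢
    have h1 : 2 * (n : ℝ) * a ≤ 1 := by nlinarith
    have h2 := mul_le_mul_of_nonneg_right (ih h1) (show 0 ≤ 1 + a by linarith)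
    rw [pow_succ]
    nlinarith [mul_le_mul_of_nonneg_right h1 ha]

theorem eta_nonneg {C : Type} (Φ : Fam C) (Γ : Gf) (K : ℝ) (hK : 1 ≤ K) (c c' : C) :
    0 ≤ Φ.eta Γ K c c' := by
  unfold Fam.eta
  have h1 : 1 ≤ Real.exp (4 * sig Γ.W ((Φ.cu c).res (Φ.cu c'))) := by
    refine Real.one_le_exp (mul_nonneg (by norm_num) ?_)
    unfold sig
    exact sum_nonneg fun l _ => by positivity
  split_ifs <;> nlinarith

theorem pp_nonneg {C : Type} (η : C → C → ℝ) (h : ∀ c c', 0 ≤ η c c') (l : List C) : 0 ≤ pp η l := by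
  induction l with
  | nil => exact zero_le_one
  | cons c l ih =>
    refine mul_nonneg (List.prod_nonneg fun x hx => ?_) ih
    obtain ⟨c', -, rfl⟩ := List.mem_map.mp hx
    have := h c c'
    linarith

theorem vp (D : Dat) (h : D.Raw) (z : Pt) (hz : z ∈ Pts D.Γ.f D.Y0 (D.Y ^ 2)) :
    Vp D.Γ z ∧ D.Y0 ≤ z.p := by
  obtain ⟨h1, h2, -⟩ := mem_Pts.mp hz
  refine ⟨⟨h1, fun hd => ?_⟩, h2⟩
  have h3 : (z.p : ℝ) ≤ D.Γ.W := by exact_mod_cast Nat.le_of_dvd h.gok.pos.1 hd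
  linarith [h.win.1]

theorem size (D : Dat) (T : Multiset Pt) (hT : D.sys.Sm 8 T) : (nT T : ℝ) ≤ D.Y ^ 16 := by
  have h : (nT T : ℝ) ≤ (D.Y ^ 2) ^ 8 := hT.2.1
  rwa [← pow_mul] at h

end SEq

theorem sEq : SEq := by
  intro hEq hPc D h
  have hf := h.fam
  obtain ⟨hB, hV, hΛ, hYm, -, hPm, hε, hε1, hK⟩ := hf.num
  have heta : ∀ c c', 0 ≤ D.Φ.eta D.Γ D.Kx c c' := SEq.eta_nonneg D.Φ D.Γ D.Kx (by linarith)
  refine ⟨fun l T hl hn hd hT hc => ?_, fun T hn hcnt hT => ?_, fun c T j ha => ?_, heta⟩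
  · have key := hEq D.Φ D.Γ _ _ _ _ _ _ _ _ _ _ l T h.gok hf
      ⟨hl, hn, hd, hT.1, SEq.size D T hT, fun z hz => SEq.vp D h z (hT.2.2 z hz), hc⟩
    have hM : 0 ≤ D.Φ.MY l T := by
      refine mul_nonneg (by unfold PT; positivity) (List.prod_nonneg fun x hx => ?_)
      obtain ⟨a, ha, rfl⟩ := List.mem_map.mp hx
      exact le_trans (by positivity) (hf.ad _ _ _ (hc a ha).1).2.1
    have hθ : D.θ ^ 2 ≤ 1 := pow_le_one₀ h.num.2.2.1.le h.num.2.2.2.1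
    have h20 : (1 + D.θ ^ 2 / 40) ^ 20 ≤ 1 + D.θ ^ 2 := by
      have := SEq.pow_le (D.θ ^ 2 / 40) hε.le 20 (by push_cast; linarith)
      push_cast at this
      linarith
    show |D.Φ.EY D.Γ l T - D.Φ.MY l T| ≤
      ((1 + D.θ ^ 2) * pp (D.Φ.eta D.Γ D.Kx) (l.map Prod.fst) - 1) * D.Φ.MY l T
    refine key.trans (mul_le_mul_of_nonneg_right ?_ hM)
    have := mul_le_mul_of_nonneg_right h20 (SEq.pp_nonneg _ heta (l.map Prod.fst))
    linarith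
  · have key := hPc D.Γ T h.gok hn (fun z hz => (SEq.vp D h z (hT.2.2 z hz)).1) hcnt
    show D.Γ.E (fun x => ind (∀ z ∈ T, D.Γ.zr x z)) ≤ 2 * PT T
    have hpos : 0 < nT T := by
      unfold nT
      refine Multiset.prod_pos fun p hp => ?_
      obtain ⟨z, hz, rfl⟩ := Multiset.mem_map.mp hp
      exact (SEq.vp D h z (hT.2.2 z hz)).1.1.1.pos
    have hn0 : (0 : ℝ) < nT T := by exact_mod_cast hpos
    have hH : (0 : ℝ) < D.Γ.H1 := by exact_mod_cast h.gok.side.1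
    have hW : (1 : ℝ) ≤ D.Γ.W := by exact_mod_cast h.gok.pos.1
    have hm : (0 : ℝ) ≤ D.Γ.m := Nat.cast_nonneg _
    have hc : (T.card : ℝ) ≤ (((8 * D.N : ℕ) : ℝ) + 1) ^ 2 := by
      have h1 : (T.card : ℝ) ≤ ((8 * D.N : ℕ) : ℝ) := by exact_mod_cast hT.1
      have h2 : (0 : ℝ) ≤ ((8 * D.N : ℕ) : ℝ) := Nat.cast_nonneg _
      nlinarith
    have hs : (nT T : ℝ) ^ 3 ≤ (D.Y ^ 16) ^ 5 :=
      (pow_le_pow_left₀ hn0.le (SEq.size D T hT) 3).trans (pow_le_pow_right₀ hPm (by norm_num))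
    have h1 : (1 : ℝ) ≤ (D.Ym * D.Λ) ^ 3 := one_le_pow₀ (one_le_mul_of_one_le_of_one_le hYm hΛ)
    have h2 : (1 : ℝ) ≤ (2 * D.Y ^ 21) ^ (D.Γ.m + 12) := one_le_pow₀ (by linarith)
    have h3 : 16 * (D.Γ.m : ℝ) * T.card * (nT T : ℝ) ^ 3 ≤ D.Γ.H1 := by
      calc 16 * (D.Γ.m : ℝ) * T.card * (nT T : ℝ) ^ 3
          = 16 * D.Γ.m * T.card * 1 * 1 * 1 * (nT T : ℝ) ^ 3 * 1 := by ring
        _ ≤ 1000 * D.Γ.m * (((8 * D.N : ℕ) : ℝ) + 1) ^ 2 * (D.Ym * D.Λ) ^ 3 * D.Γ.W * (D.V + 1) *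
            (D.Y ^ 16) ^ 5 * (2 * D.Y ^ 21) ^ (D.Γ.m + 12) := by
          gcongr
          · norm_num
          · linarith
        _ ≤ D.θ ^ 2 / 40 * D.Γ.H1 := hf.bdy
        _ ≤ D.Γ.H1 := by nlinarith
    have h4 : 16 * (D.Γ.m : ℝ) * T.card * (nT T : ℝ) ^ 2 / D.Γ.H1 ≤ PT T := by
      unfold PT
      rw [div_le_div_iff₀ hH hn0]
      linarith
    linarith
  · obtain ⟨h1, h2, h3, h4⟩ := hf.ad c T j ha
    exact ⟨fun z hz => (h1 z hz).1, h2, h3, fun g _ => h4 g⟩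

end Pool.Agent.MP_f3836a_nt.VE
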