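import Pool.Agent.MP_f3836a_nt.VE.SpecB
import Pool.Agent.MP_c481b3_nt.H28.WIdeal
import Pool.Agent.MP_c481b3_nt.H63.Box

/-! Part C: one imaginary quadratic order. -/

set_option autoImplicit false

namespace Pool.Agent.MP_f3836a_nt.VE.BC

open Finset Pool.Agent.MP_c481b3_nt.H28.W Pool.Agent.MP_c481b3_nt.H63

/-! ### ray classes -/

/-- invertible ideals of norm prime to `Q` -/
def MQ (A Q : ℕ) : Submonoid (Ideal (O A)) where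
  carrier := {I | ∃ n : ℕ, n ≠ 0 ∧ n.Coprime Q ∧ HasN I n}
  mul_mem' := by
    rintro I J ⟨n, h0, hn, h⟩ ⟨k, h1, hk, h'⟩
    exact ⟨n * k, mul_ne_zero h0 h1, Nat.Coprime.mul_left hn hk, h.mul h'⟩
  one_mem' := ⟨1, one_ne_zero, by simp, by rw [Ideal.one_eq_top]; exact hasN_top⟩

/-- ray equivalence -/
def Eq1 {A : ℕ} (Q : ℕ) (I J : Ideal (O A)) : Prop := ∃ a b : O A, a.norm ≠ 0 ∧ b.norm ≠ 0 ∧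
  (Q : O A) ∣ a - 1 ∧ (Q : O A) ∣ b - 1 ∧ Ideal.span {a} * I = Ideal.span {b} * J

theorem dvd_mul_sub {R : Type} [CommRing R] {q a b : R} (h : q ∣ a - 1) (h' : q ∣ b - 1) :
    q ∣ a * b - 1 := by
  have := (h.mul_right b).add h'
  rwa [show (a - 1) * b + (b - 1) = a * b - 1 by ring] at this

/-- the congruence -/
def rcon (A Q : ℕ) : Con (MQ A Q) where
  r I J := Eq1 Q I.1 J.1
  iseqv := ⟨fun _ => ⟨1, 1, by simp, by simp, by simp, by simp, rfl⟩,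
    fun ⟨a, b, h1, h2, h3, h4, h⟩ => ⟨b, a, h2, h1, h4, h3, h.symm⟩,
    fun ⟨a, b, h1, h2, h3, h4, h⟩ ⟨c, d, h5, h6, h7, h8, h'⟩ =>
      ⟨c * a, b * d, by rw [Zsqrtd.norm_mul]; exact mul_ne_zero h5 h1,
        by rw [Zsqrtd.norm_mul]; exact mul_ne_zero h2 h6, dvd_mul_sub h7 h3, dvd_mul_sub h4 h8, by
        rw [← Ideal.span_singleton_mul_span_singleton, ← Ideal.span_singleton_mul_span_singleton,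
          mul_assoc, h, mul_left_comm, h', mul_assoc]⟩⟩
  mul' := fun ⟨a, b, h1, h2, h3, h4, h⟩ ⟨c, d, h5, h6, h7, h8, h'⟩ =>
    ⟨a * c, b * d, by rw [Zsqrtd.norm_mul]; exact mul_ne_zero h1 h5,
      by rw [Zsqrtd.norm_mul]; exact mul_ne_zero h2 h6, dvd_mul_sub h3 h7, dvd_mul_sub h4 h8, by
      rw [← Ideal.span_singleton_mul_span_singleton, ← Ideal.span_singleton_mul_span_singleton,
        Submonoid.coe_mul, Submonoid.coe_mul, mul_mul_mul_comm, h, h', mul_mul_mul_comm]⟩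

theorem rcon_unit (A Q : ℕ) (g : (rcon A Q).Quotient) : IsUnit g := by
  obtain ⟨⟨I, n, h0, hn, h⟩, rfl⟩ := (rcon A Q).mk'_surjective g
  obtain ⟨m, hm0, hm, e⟩ : ∃ m : ℕ, m ≠ 0 ∧ m.Coprime Q ∧ (Q : ℤ) ∣ (n * m : ℕ) - 1 := by
    rcases Nat.eq_zero_or_pos Q with rfl | hQ
    · exact ⟨1, one_ne_zero, by simp, by simp [(Nat.coprime_zero_right n).1 hn]⟩
    · refine ⟨n ^ (Q.totient - 1), pow_ne_zero _ h0, hn.pow_left _, ?_⟩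
      rw [← pow_succ', Nat.sub_add_cancel (Nat.totient_pos.2 hQ)]
      exact_mod_cast (Nat.ModEq.pow_totient hn).symm.dvd
  refine IsUnit.of_mul_eq_one ((rcon A Q).mk' ⟨cj I * Ideal.span {(m : O A)}, n * (m * m),
    mul_ne_zero h0 (mul_ne_zero hm0 hm0), hn.mul_left (hm.mul_left hm), h.conj.mul (hasN_nat m)⟩) ?_
  refine (Con.eq _).2 ⟨1, (n * m : ℕ), by simp, by simpa using ⟨h0, hm0⟩, by simp, ?_, ?_⟩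
  · have := map_dvd (Int.castRingHom (O A)) e
    simpa using this
  · have h' : I * cj I = _ := h
    simp only [Submonoid.coe_mul, OneMemClass.coe_one, Ideal.span_singleton_one, mul_one,
      Ideal.top_mul]
    rw [← mul_assoc, h', Ideal.span_singleton_mul_span_singleton, Nat.cast_mul]

/-- the ray class group -/
def RC (A Q : ℕ) : Type := Additive (rcon A Q).Quotient

noncomputable instance (A Q : ℕ) : AddCommGroup (RC A Q) :=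
  @Additive.addCommGroup _ (@commGroupOfIsUnit (rcon A Q).Quotient _ (rcon_unit A Q))

/-- the class of an element of the monoid -/
def cl0 {A Q : ℕ} (I : MQ A Q) : RC A Q := Additive.ofMul ((rcon A Q).mk' I)

open Classical in
/-- the class of an ideal -/
noncomputable def cI {A : ℕ} (Q : ℕ) (I : Ideal (O A)) : RC A Q :=
  if h : I ∈ MQ A Q then cl0 ⟨I, h⟩ else 0

theorem cI_mul {A Q : ℕ} {I J : Ideal (O A)} (h : I ∈ MQ A Q) (h' : J ∈ MQ A Q) :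
    cI Q (I * J) = cI Q I + cI Q J := by
  rw [cI, cI, cI, dif_pos h, dif_pos h', dif_pos (mul_mem h h')]
  rfl

theorem cI_top (A Q : ℕ) : cI Q (⊤ : Ideal (O A)) = 0 := by
  rw [← Ideal.one_eq_top, cI, dif_pos (one_mem _)]
  rfl

theorem cI_eq {A Q : ℕ} {I J : Ideal (O A)} (h : I ∈ MQ A Q) (h' : J ∈ MQ A Q) :
    cI Q I = cI Q J ↔ Eq1 Q I J := by
  rw [cI, cI, dif_pos h, dif_pos h']
  exact Con.eq (c := rcon A Q) (a := ⟨I, h⟩) (b := ⟨J, h'⟩)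

theorem cI_surj {A Q : ℕ} (g : RC A Q) : ∃ I ∈ MQ A Q, cI Q I = g := by
  obtain ⟨I, h⟩ := (rcon A Q).mk'_surjective (Additive.toMul g)
  exact ⟨I.1, I.2, by rw [cI, dif_pos I.2]; exact h⟩

/-- the class of a principal ideal -/
noncomputable def io {A : ℕ} (Q : ℕ) (c : O A) : RC A Q := cI Q (Ideal.span {c})

/-- the ideal of a multiset of points -/
def IM (A : ℕ) (ss : Pt → ℤ) (M : Multiset Pt) : Ideal (O A) := (M.map fun z => Jd z.p (ss z)).prod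

/-- the class of a multiset of points -/
noncomputable def cM (A Q : ℕ) (ss : Pt → ℤ) (M : Multiset Pt) : RC A Q :=
  (M.map fun z => cI Q (Jd z.p (ss z))).sum

/-- a point which gives a split prime -/
def Gd (A : ℕ) (ss : Pt → ℤ) (z : Pt) : Prop :=
  z.p.Prime ∧ ¬z.p ∣ 2 * A ∧ (z.p : ℤ) ∣ ss z ^ 2 + A

/-- the norm is prime to `Q` -/
def Cp {A : ℕ} (Q : ℕ) (c : O A) : Prop := c.norm.natAbs.Coprime Q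

/-- the complex embedding -/
noncomputable def emb {A : ℕ} (β : O A) : ℂ := ⟨β.re, β.im * √A⟩

open Classical in
/-- residues which are `1` modulo `W` and prime to `Q` -/
noncomputable def US (A W Q : ℕ) : Finset (O A) :=
  ((range Q ×ˢ range Q).image fun v : ℕ × ℕ => (⟨v.1, v.2⟩ : O A)).filter fun c =>
    (W : O A) ∣ c - 1 ∧ Cp Q c

/-- the projection to a lower level -/
structure IsPr (A W Q : ℕ) (π : RC A Q →+ RC A W) : Prop where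
  surj : Function.Surjective π
  cl : ∀ I ∈ MQ A Q, π (cI Q I) = cI W I
  ker : ∀ g, π g = 0 ↔ ∃ c ∈ US A W Q, g = io Q c

/-- a Hecke character of infinity type one -/
structure Lam (A Q : ℕ) (lam : Ideal (O A) → ℂ) : Prop where
  mul : ∀ I ∈ MQ A Q, ∀ J ∈ MQ A Q, lam (I * J) = lam I * lam J
  nrm : ∀ I ∈ MQ A Q, ∀ n : ℕ, HasN I n → ‖lam I‖ ^ 2 = n
  one : ∀ β : O A, (Q : O A) ∣ β - 1 → lam (Ideal.span {β}) = emb β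

/-- the level is divisible enough -/
def HW (N W : ℕ) : Prop :=
  3 ≤ W ∧ ∃ W1 : ℕ, W = N ^ 2 * W1 ∧ ∀ l : ℕ, l.Prime → l ∣ W → l ∣ W1

/-- the sieving primes -/
noncomputable def Pr (A : ℕ) (Y : ℝ) : Finset ℕ :=
  (range ⌈Y⌉₊).filter fun l => l.Prime ∧ ¬l ∣ 2 * A

/-- the sieve density -/
noncomputable def sd (A : ℕ) (P : Finset ℕ) : ℝ := ∏ l ∈ P, (1 - nuN A l)

/-- the class number is not too large -/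
def Hb (A : ℕ) (C1 Y : ℝ) : Prop := Nat.card (RC A 1) * Real.log Y * sd A (Pr A Y) ≤ C1 * √A

/-- number of roots of `b² + A` -/
def rr (A a : ℕ) : ℕ := ((range a).filter fun b => a ∣ b ^ 2 + A).card

/-- the base hypotheses -/
structure BH (A : ℕ) (ss : Pt → ℤ) (Val : Pt → Prop) (St : Finset (Multiset Pt))
    (μ : Multiset Pt → ℝ) (L0 E0 E1 : ℕ) (C1 Y : ℝ) : Prop where
  one : 1 < A
  val : ∀ z, Val z → Gd A ss z ∧ z.cj.cj = z ∧ (z.p : ℤ) ∣ ss z.cj + ss z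
  two : ∀ z z', Val z → Val z' → z.p = z'.p → z' = z ∨ z' = z.cj
  stp : ∀ x ∈ St, x.card = L0 ∧ Nd x ∧ ∀ z ∈ x, Val z ∧ Y ≤ z.p ∧ (z.p : ℝ) < Y ^ E1
  pos : ∀ x ∈ St, 0 ≤ μ x
  tot : ∑ x ∈ St, μ x = 1
  cj : ∀ x ∈ St, x.map Pt.cj ∈ St ∧ μ (x.map Pt.cj) = μ x
  wt : ∀ x ∈ St, μ x * nT x ≤ C1
  sml : ∀ p : ℕ, ∑ x ∈ St.filter fun x => p ∈ x.map Pt.p, μ x ≤ 1 / √Y
  size : (A : ℝ) ≤ Y ^ E0
  hb : Hb A C1 Y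

/-- the steps prime to `Q` -/
def cop (S : Finset (Multiset Pt)) (Q : ℕ) : Finset (Multiset Pt) :=
  S.filter fun x => (nT x).Coprime Q

/-- the width of a cell -/
noncomputable def eta (L0 E1 : ℕ) (Y : ℝ) (U : ℕ) : ℝ := L0 * (E1 - 1) * Real.log Y / U

/-- the cell of a step -/
noncomputable def uu (L0 E1 : ℕ) (Y : ℝ) (U : ℕ) (x : Multiset Pt) : ℕ :=
  ⌊(Real.log (nT x) - L0 * Real.log Y) / eta L0 E1 Y U⌋₊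

/-- the renormalised weights -/
noncomputable def nz (S : Finset (Multiset Pt)) (μ : Multiset Pt → ℝ) (x : Multiset Pt) : ℝ :=
  μ x / ∑ y ∈ S, μ y

/-- the weights of the steps -/
noncomputable def wt (S : Finset (Multiset Pt)) (μ : Multiset Pt → ℝ) (x : Multiset Pt) : ℝ :=
  nz S μ x * nT x

/-! ### exports -/

/-- the main statement of part C -/
def CMain : Prop := ∀ (L0 E0 E1 : ℕ) (C1 : ℝ), 1 ≤ L0 → 1 ≤ E0 → 2 ≤ E1 →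
  ∃ (N M0 M1 Mx : ℕ) (d0 : ℝ), 0 < N ∧ 0 < d0 ∧ ∀ E : ℕ,
  ∃ (k' J0 : ℕ) (C c : ℝ), 1 ≤ k' ∧ 1 ≤ C ∧ 0 < c ∧ c ≤ 1 ∧
  ∀ (d : ℕ → ℝ) (W J k : ℕ) (Λ0 ε0 : ℝ), Antitone d → (∀ i, 0 < d i) → d 0 ≤ d0 → HW N W →
    J0 ≤ J → 0 < ε0 → ∃ Y00 : ℝ, ∀ (Y : ℝ) (A : ℕ) (ss : Pt → ℤ) (Val : Pt → Prop)
    (St : Finset (Multiset Pt)) (μ : Multiset Pt → ℝ), Y00 ≤ Y → BH A ss Val St μ L0 E0 E1 C1 Y →
  ∃ (i : ℕ) (St1 : Finset (Multiset Pt)) (LL : Finset ℕ) (lab : Pt → Fin Mx)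
    (Z0 : Multiset Pt → Prop) (ρ : ℝ), i ≤ M0 ∧ St1 ⊆ St ∧ (∀ x ∈ St1, x.map Pt.cj ∈ St1) ∧
    1 - (M0 : ℝ) ^ 3 * d (i + 1) ≤ ∑ x ∈ St1, μ x ∧ LL.card ≤ M1 ∧
    (∀ l ∈ LL, l.Prime ∧ ¬l ∣ W) ∧ Z0 0 ∧ (∀ T T', Z0 T → Z0 T' → Z0 (T + T')) ∧
    (∀ (T : Multiset Pt) (a : Fin Mx), T.card = N → (∀ z ∈ T, lab z = a) →
      Z0 T ∧ Z0 (T.map Pt.cj)) ∧ 0 < ρ ∧
    ∀ St2 ⊆ St1, 1 - d i / 8 ≤ ∑ x ∈ St2, μ x →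
      (∀ T j β, j ≤ k → (∀ z ∈ T, Val z) → Rw A ss St2 (wt St2 μ) T j β ≤ Y ^ ε0 * ρ) ∧
      ∀ U : ℕ, Y ≤ U → (U : ℝ) ≤ Y ^ E → (∀ x ∈ St, uu L0 E1 Y U x < U) ∧
      (∀ v, cv St2 (nz St2 μ) (uu L0 E1 Y U) J k' v ≤ C / U) ∧
      ∀ (ad : Multiset Pt → ℕ → Prop) (fm : Multiset Pt → ℕ → ℝ) (X V Qm ε Λ ε' K : ℝ),
        ε0 ≤ ε → ε ≤ 1 → Λ * ε0 ≤ 1 → 1 ≤ Λ → Qm ≤ Y ^ E0 → Y ^ (2 * E0) ≤ V →
        V * Y ≤ Real.exp (X / 2) → Real.exp X * Y ≤ V ^ 2 * U → C * ε ≤ ε' → C * Λ ≤ K →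
        (∀ T j, ad T j → Nd T ∧ (∀ z ∈ T, Val z) ∧ 2 * k' + 2 ≤ j ∧ j ≤ k ∧ 1 / Λ ≤ fm T j ∧
          Λ * (1 - c * d i ^ 2) ^ (j - 2 * k') ≤ ε ∧
          (∃ (T0 : Multiset Pt) (xs : Multiset (Multiset Pt)), T = T0 + xs.sum ∧ Z0 T0 ∧
            (∀ x ∈ xs, x ∈ St1) ∧ N ∣ xs.card + j) ∧
          ∀ v : ℤ, |eta L0 E1 Y U * v - (X - Real.log (nT T) - j * (L0 * Real.log Y))| ≤ Λ0 + 1 →
            |U * cv St2 (nz St2 μ) (uu L0 E1 Y U) J j v - fm T j| ≤ ε * fm T j) →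
        SFE A ss W St2 (wt St2 μ) ρ LL ad fm X Λ0 Qm V ε' K

/-- the class number bound in the family -/
def HbFam : Prop := ∀ (E0 : ℕ) (σ : ℝ), ∃ C1 Y1 : ℝ, ∀ (A : ℕ) (Y : ℝ), Y1 ≤ Y → Y ≤ A →
  (A : ℝ) ≤ Y ^ E0 → ∑ l ∈ (2 * A).primeFactors, (1 : ℝ) / l ≤ σ → Hb A C1 Y

/-- the class number bound for a fixed order -/
def HbFix : Prop := ∀ A : ℕ, 1 < A → ∃ C1 : ℝ, ∀ Y : ℝ, 2 ≤ Y → Hb A C1 Y

/-! ### algebra rows -/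

/-- basic facts -/
def BasS : Prop := ∀ (A Q : ℕ) (ss : Pt → ℤ), 1 < A →
  (∀ c : O A, Ideal.span {c} ∈ MQ A Q ↔ c ≠ 0 ∧ Cp Q c) ∧
  (∀ c c' : O A, Cp Q c → (Q : O A) ∣ c' - c → Cp Q c' ∧ io Q c' = io Q c) ∧
  (∀ c c' : O A, Cp Q c → Cp Q c' → Cp Q (c * c') ∧ io Q (c * c') = io Q c + io Q c') ∧
  (∀ I ∈ MQ A Q, ∀ c : O A, Cp Q c →
    (cI Q I = io Q c ↔ ∃ β : O A, (Q : O A) ∣ β - c ∧ I = Ideal.span {β})) ∧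
  (∀ I ∈ MQ A Q, ∀ n : ℕ, HasN I n → cj I ∈ MQ A Q ∧ cI Q I + cI Q (cj I) = io Q n) ∧
  (∀ M M', IM A ss (M + M') = IM A ss M * IM A ss M' ∧ cM A Q ss (M + M') = cM A Q ss M + cM A Q ss M'
    ∧ nT (M + M') = nT M * nT M') ∧
  (∀ β γ : O A, emb (β + γ) = emb β + emb γ ∧ emb (β * γ) = emb β * emb γ ∧
    ‖emb β‖ ^ 2 = β.norm ∧ emb (star β) = (starRingEnd ℂ) (emb β) ∧ (emb β = emb γ → β = γ)) ∧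
  ∀ M : Multiset Pt, (∀ z ∈ M, Gd A ss z) → HasN (IM A ss M) (nT M) ∧ nT M ≠ 0 ∧
    ((nT M).Coprime Q → IM A ss M ∈ MQ A Q ∧ cM A Q ss M = cI Q (IM A ss M)) ∧
    (∀ β, EvF A ss β M ↔ Nd M ∧ Ideal.span {β} = IM A ss M) ∧
    ((∀ z ∈ M, (z.p : ℤ) ∣ ss z.cj + ss z) → IM A ss (M.map Pt.cj) = cj (IM A ss M))

/-- a reduced basis -/
def RedS : Prop := ∀ (A n : ℕ) (I : Ideal (O A)), 1 < A → n ≠ 0 → HasN I n →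
  ∃ (e1 e2 : O A) (a b c : ℤ), (∀ z, z ∈ I ↔ ∃ x y : ℤ, z = x * e1 + y * e2) ∧ e1.norm = n * a ∧
    star e1 * e2 = n * (⟨b, 1⟩ : O A) ∧ e2.norm = n * c ∧ a * c = b ^ 2 + A ∧ 2 * |b| ≤ a ∧ a ≤ c ∧
    ∀ l : ℕ, l.Prime → ∃ z ∈ I, ¬(n * l : ℤ) ∣ z.norm

/-- the class number -/
def ClnS : Prop := ∀ A : ℕ, 1 < A → Finite (RC A 1) ∧
  Nat.card (RC A 1) ≤ ∑ a ∈ Icc 1 (Nat.sqrt (4 * A)), rr A a

def PiS : Prop := ∀ A W Q : ℕ, 1 < A → W ∣ Q → 0 < Q → ∃ π, IsPr A W Q π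

def PhiS : Prop := ∀ A W Q : ℕ, W ∣ Q → 0 < Q →
  ((US A W Q).card : ℝ) * W ^ 2 = Q ^ 2 * sd A (Q.primeFactors.filter fun l => ¬l ∣ W)

/-- orders of the ray class groups -/
def CardS : Prop := ∀ A W Q : ℕ, 1 < A → W ∣ Q → 0 < Q → Finite (RC A Q) ∧
  (Nat.card (RC A Q) : ℝ) * W ^ 2
    ≤ Nat.card (RC A W) * Q ^ 2 * sd A (Q.primeFactors.filter fun l => ¬l ∣ W) ∧
  (3 ≤ W → (Nat.card (RC A Q) : ℝ) * rat A W Q * W ^ 2 = Nat.card (RC A W) * Q ^ 2)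

def LamS : Prop := ∀ A Q : ℕ, 1 < A → 3 ≤ Q → ∃ lam, Lam A Q lam

/-- parametrisation of the events in a residue class -/
def ParS : Prop := ∀ (A W Q n' : ℕ) (ss : Pt → ℤ) (lam : Ideal (O A) → ℂ) (π : RC A Q →+ RC A W)
  (T : Multiset Pt) (β : O A), 1 < A → 3 ≤ W → W ∣ Q → 0 < Q → Lam A Q lam → IsPr A W Q π → Nd T →
  (∀ z ∈ T, Gd A ss z ∧ In A ss β z) → nT T ^ 2 ∣ Q → (W : O A) ∣ β - 1 →
  β.norm = (nT T * n' : ℕ) → n'.Coprime Q →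
  ∃ (K : Finset ℕ) (g : ℕ → RC A Q) (κ : ℕ → ℂ), K.card = nT T ∧
    (∀ u ∈ K, ‖κ u‖ ^ 2 = nT T ∧ π (g u) + cM A W ss T = 0) ∧
    ∀ (M : Multiset Pt) (Vs : Finset (O A)) (Ω : ℂ → ℝ), (∀ z ∈ M, Gd A ss z) →
      (∀ v, Ω (emb (β + (Q : O A) * v)) ≠ 0 → v ∈ Vs) →
      ∑ v ∈ Vs, Ω (emb (β + (Q : O A) * v)) * ind (EvF A ss (β + (Q : O A) * v) (T + M))
        = ind (Nd M ∧ (nT M).Coprime Q) *
          ∑ u ∈ K, ind (cM A Q ss M = g u) * Ω (κ u * lam (IM A ss M))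

/-- characters which come from level `W` -/
def HensS : Prop := ∀ (A N W Q : ℕ) (π : RC A Q →+ RC A W) (χ : AddChar (RC A Q) ℂ), 1 < A →
  HW N W → W ∣ Q → 0 < Q → IsPr A W Q π → (∀ g, χ g ^ N = 1) →
  (∀ (l : ℕ) (c : O A), l.Prime → ¬l ∣ W → Cp Q c → ((ordCompl[l] Q : ℕ) : O A) ∣ c - 1 →
    χ (io Q c) = 1) → ∃ χ' : AddChar (RC A W) ℂ, ∀ g, χ g = χ' (π g)

/-! ### arithmetic rows -/

def NuS : Prop := ∀ A l : ℕ, l.Prime → nuN A l * (l : ℝ) ^ 2 = 1 + (l - 1) * rr A l ∧ 0 ≤ nuN A l ∧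
  (1 - 1 / (l : ℝ)) ^ 2 ≤ 1 - nuN A l ∧ 0 < 1 - nuN A l ∧ (1 - nuN A l)⁻¹ ≤ Real.exp (4 / l)

def RrS : Prop := ∀ A : ℕ, rr A 1 = 1 ∧ (∀ a b : ℕ, a.Coprime b → rr A (a * b) ≤ rr A a * rr A b) ∧
  ∀ l j : ℕ, l.Prime → rr A (l ^ j) ≤ 2 * l ^ (j / 2) ∧ (¬l ∣ 2 * A → 1 ≤ j → rr A (l ^ j) ≤ rr A l)

def CheS : Prop := ∃ C : ℝ, 1 ≤ C ∧ ∀ x : ℝ, 1 ≤ x →
  ∑ l ∈ (range (⌊x⌋₊ + 1)).filter Nat.Prime, Real.log l / l ≤ C * Real.log x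

def HtaS : Prop := ∃ C : ℝ, 0 ≤ C ∧ ∀ Z : ℕ, ∑ l ∈ (range (Z + 1)).filter Nat.Prime,
  ∑ j ∈ (Icc 1 Z).filter fun j => l ^ j ≤ Z, 2 * (l : ℝ) ^ (j / 2) * (j * Real.log l) ≤ C * Z

def HtbS : Prop := ∀ (r Ef : ℕ → ℝ) (X : ℕ), (∀ n, 0 ≤ r n) → r 1 = 1 →
  (∀ a b : ℕ, a.Coprime b → r (a * b) ≤ r a * r b) →
  (∀ l K : ℕ, l.Prime → l ≤ X → ∑ j ∈ range K, r (l ^ j) / (l : ℝ) ^ j ≤ Ef l) →
  ∑ n ∈ Icc 1 X, r n / n ≤ ∏ l ∈ (range (X + 1)).filter Nat.Prime, Ef l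

/-- the inequality of Hall and Tenenbaum -/
def HtS : Prop := ∃ C : ℝ, 0 ≤ C ∧ ∀ (r : ℕ → ℝ) (X : ℕ), 2 ≤ X → (∀ n, 0 ≤ r n) →
  (∀ a b : ℕ, a.Coprime b → r (a * b) ≤ r a * r b) →
  (∀ l j : ℕ, l.Prime → r (l ^ j) ≤ 2 * (l : ℝ) ^ (j / 2)) →
  (∑ n ∈ Icc 1 X, r n) * Real.log X ≤ C * X * ∑ n ∈ Icc 1 X, r n / n

/-- lower bound for the denominator of the sieve -/
def GlS : Prop := ∃ c : ℝ, 0 < c ∧ ∀ (Y : ℝ) (P : Finset ℕ) (g : ℕ → ℝ), 2 ≤ Y →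
  (∀ l ∈ P, l.Prime ∧ (l : ℝ) < Y ∧ 0 ≤ g l ∧ g l ≤ 6 / l) →
  c * ∏ l ∈ P, (1 + g l) ≤ Gs g P ⌊√Y⌋₊

open Classical in
/-- the local factor of the sieve weight -/
noncomputable def ph {A : ℕ} (l : ℕ) (β : O A) : ℝ :=
  if (l : ℤ) ∣ β.norm then -1 else nuN A l / (1 - nuN A l)

/-- the sieve weight -/
noncomputable def Lw {A : ℕ} (P : Finset ℕ) (z : ℕ) (β : O A) : ℝ :=
  ((∑ D ∈ Ds P z, ∏ l ∈ D, ph l β) / Gs (fun l => nuN A l / (1 - nuN A l)) P z) ^ 2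

/-- diagonal bound -/
def SwdS : Prop := ∃ C : ℝ, 0 ≤ C ∧ ∀ (A : ℕ) (Y : ℝ) (P : Finset ℕ), 2 ≤ Y → P ⊆ Pr A Y →
  (∀ β : O A, (∀ l ∈ P, ¬(l : ℤ) ∣ β.norm) → Lw P ⌊√Y⌋₊ β = 1) ∧
  ∀ (b e1 e2 : O A) (X1 X2 : ℕ), (∀ l ∈ P, ¬(l : ℤ) ∣ (star e1 * e2).im) → Y ^ 6 ≤ X1 → Y ^ 6 ≤ X2 →
  ∑ x ∈ range X1, ∑ y ∈ range X2, Lw P ⌊√Y⌋₊ (b + (x : O A) * e1 + (y : O A) * e2) ≤ C * (X1 * X2) * sd A P

/-- a function on the order which oscillates modulo `q` -/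
structure Osc (A q : ℕ) (P : Finset ℕ) (ψ : O A → ℂ) : Prop where
  pos : 0 < q
  per : ∀ β γ : O A, ψ (β + (q : O A) * γ) = ψ β
  le : ∀ β, ‖ψ β‖ ≤ 1
  osc : ∃ (c : O A) (w : ℂ), Cp q c ∧ (∀ l ∈ P, ¬(l : ℤ) ∣ c.norm) ∧ w ≠ 1 ∧ ∀ β, ψ (c * β) = w * ψ β

/-- off diagonal bound -/
def SwoS : Prop := ∀ (A q : ℕ) (Y : ℝ) (P : Finset ℕ) (ψ : O A → ℂ) (b : O A) (X1 X2 : ℕ), 2 ≤ Y →
  P ⊆ Pr A Y → Osc A q P ψ →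
  ‖∑ x ∈ range X1, ∑ y ∈ range X2, (Lw P ⌊√Y⌋₊ (b + ⟨x, y⟩) : ℂ) * ψ (b + ⟨x, y⟩)‖
    ≤ 4 * q * Y ^ 4 * (X1 + X2)

/-- rough elements of a lattice coset in a disc -/
def CntS : Prop := ∃ C : ℝ, 0 ≤ C ∧ ∀ (A Q n : ℕ) (Y ρ : ℝ) (P : Finset ℕ) (I : Ideal (O A)) (b : O A)
  (S : Finset (O A)), 1 < A → 2 ≤ Y → 0 < Q → n ≠ 0 → HasN I n → P ⊆ Pr A Y →
  (∀ l ∈ P, ¬l ∣ Q * n) → Y ^ 6 * Q * √(n * A) ≤ ρ →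
  (∀ β ∈ S, (∃ γ ∈ I, β = b + (Q : O A) * γ) ∧ ‖emb β - emb b‖ ≤ ρ ∧ ∀ l ∈ P, ¬(l : ℤ) ∣ β.norm) →
  (S.card : ℝ) * (Q ^ 2 * n * √A) ≤ C * ρ ^ 2 * sd A P

/-- tuples with a given norm -/
def MulS : Prop := ∀ (Val : Pt → Prop) (S : Finset (Multiset Pt)) (μ : Multiset Pt → ℝ) (L0 j n : ℕ)
  (C1 : ℝ), (∀ z z', Val z → Val z' → z.p = z'.p → z' = z ∨ z' = z.cj) →
  (∀ x ∈ S, x.card = L0 ∧ Nd x ∧ (∀ z ∈ x, Val z ∧ z.p.Prime) ∧ 0 ≤ μ x ∧ μ x * nT x ≤ C1) →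
  n * tm (fun x : S => μ x) j (fun s => ind (nT (∑ i, (s i).1) = n)) ≤ (4 ^ (L0 * j) * |C1|) ^ j

/-- small discs have small mass -/
def DH {ι G : Type} [Fintype ι] [AddCommGroup G] (μ : ι → ℝ) (x : ι → G) (lam : ι → ℂ) (k : ℕ)
    (δ0 D : ℝ) : Prop := ∀ (g : G) (ζ : ℂ) (R δ : ℝ), δ0 ≤ δ → δ ≤ 1 → 0 < R →
  tm μ k (fun s => ind (∑ i, x (s i) = g ∧ ‖∏ i, lam (s i) - ζ‖ ≤ δ * R ∧
    R ≤ 2 * ‖∏ i, lam (s i)‖ ∧ ‖∏ i, lam (s i)‖ ≤ 2 * R)) ≤ D * δ ^ 2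

/-- the density bound -/
def DensS : Prop := ∀ (L0 E0 E1 E : ℕ) (C1 : ℝ), 1 ≤ L0 → ∃ (k' : ℕ) (C : ℝ), 1 ≤ k' ∧ 0 ≤ C ∧
  ∀ (Y : ℝ) (A Q : ℕ) (ss : Pt → ℤ) (Val : Pt → Prop) (St S : Finset (Multiset Pt))
    (μ : Multiset Pt → ℝ) (lam : Ideal (O A) → ℂ), 2 ≤ Y → BH A ss Val St μ L0 E0 E1 C1 Y → 3 ≤ Q →
  (Q : ℝ) ≤ Y ^ E0 → Lam A Q lam → S ⊆ cop St Q →
  DH (fun x : S => μ x) (fun x : S => cM A Q ss x) (fun x : S => lam (IM A ss x)) k' (1 / Y ^ E)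
    (C / (Nat.card (RC A Q) * Real.log Y))

/-- the bound for classes -/
def MgzS : Prop := ∀ (L0 E0 E1 : ℕ) (C1 : ℝ), 1 ≤ L0 → 1 ≤ E0 → ∃ (k0 : ℕ) (C0 : ℝ), 1 ≤ k0 ∧
  1 ≤ C0 ∧ ∀ (Y : ℝ) (A Q : ℕ) (ss : Pt → ℤ) (Val : Pt → Prop) (St S : Finset (Multiset Pt))
    (μ : Multiset Pt → ℝ), 7 ≤ Y → BH A ss Val St μ L0 E0 E1 C1 Y → 0 < Q → (Q : ℝ) ≤ Y ^ E0 →
  S ⊆ cop St Q → ∀ g, law (fun x : S => μ x) (fun x : S => cM A Q ss x) k0 g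
    ≤ C0 / Nat.card (RC A Q)

/-- large sieve for rough elements -/
def LsaS : Prop := ∀ E0 a : ℕ, ∃ C Y1 : ℝ, 0 ≤ C ∧ ∀ (Y : ℝ) (A M : ℕ) (ψ : Fin M → O A → ℂ)
  (α : Fin M → ℂ) (S : Finset (O A)), Y1 ≤ Y → 1 < A → (A : ℝ) ≤ Y ^ E0 → (∀ i β, ‖ψ i β‖ ≤ 1) →
  (∀ i, ‖α i‖ ≤ 1) → (∀ i j, i < j → ∃ q : ℕ, (q : ℝ) ≤ Y ^ (2 * E0) ∧
    Osc A q (Pr A Y) fun β => ψ i β * (starRingEnd ℂ) (ψ j β)) →
  (∀ β ∈ S, Y ^ (6 * E0 + 20) ≤ β.norm ∧ (β.norm : ℝ) ≤ Y ^ a ∧ ∀ l ∈ Pr A Y, ¬(l : ℤ) ∣ β.norm) →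
  ∑ β ∈ S, ‖∑ i, α i * ψ i β‖ ^ 2 / β.norm
    ≤ C * M * Real.log Y * sd A (Pr A Y) / √A + M ^ 2 / Y ^ (E0 + 3)

open Classical in
/-- a character on the elements of the order -/
noncomputable def chO {A : ℕ} (Q : ℕ) (χ : AddChar (RC A Q) ℂ) (β : O A) : ℂ :=
  if Cp Q β then χ (io Q β) else 0

/-- the mean of a character over the steps prime to the level -/
noncomputable def mch {A : ℕ} (Q : ℕ) (ss : Pt → ℤ) (S : Finset (Multiset Pt)) (μ : Multiset Pt → ℝ)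
    (χ : AddChar (RC A Q) ℂ) : ℂ := ex (fun x : cop S Q => μ x) fun x => χ (cM A Q ss x)

/-- the mass of principal products -/
def LsmS : Prop := ∀ (L0 E0 E1 k0 k A : ℕ) (C0 C1 Y : ℝ) (ss : Pt → ℤ) (Val : Pt → Prop)
  (St : Finset (Multiset Pt)) (μ : Multiset Pt → ℝ), 2 ≤ Y → BH A ss Val St μ L0 E0 E1 C1 Y →
  k0 < k → (∀ g, law (fun x : St => μ x) (fun x : St => cM A 1 ss x) k0 g ≤ C0 / Nat.card (RC A 1)) →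
  ∃ (S : Finset (O A)) (m : O A → ℝ), 1 / (Nat.card (RC A 1) : ℝ) ≤ ∑ β ∈ S, m β ∧
    (∀ β ∈ S, 0 ≤ m β ∧ m β * β.norm ≤ (4 ^ (L0 * (2 * k)) * |C1|) ^ (2 * k) ∧
      Y ^ (2 * k * L0) ≤ β.norm ∧ (β.norm : ℝ) ≤ Y ^ (2 * k * L0 * E1) ∧
      ∀ l ∈ Pr A Y, ¬(l : ℤ) ∣ β.norm) ∧
    ∀ (Q : ℕ) (χ : AddChar (RC A Q) ℂ) (d : ℝ), 0 < Q → 1 - d ≤ ‖mch Q ss St μ χ‖ →
      ∃ α : ℂ, ‖α‖ = 1 ∧ ‖∑ β ∈ S, (m β : ℂ) * (α * chO Q χ β) - (∑ β ∈ S, m β : ℝ)‖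
        ≤ 2 * k * C0 * (√(2 * d) + d) / Nat.card (RC A 1)

/-- a large character which is not trivial on the component at `l` -/
structure Vio {A : ℕ} (ss : Pt → ℤ) (St : Finset (Multiset Pt)) (μ : Multiset Pt → ℝ) (B d : ℝ)
    (Q l : ℕ) (χ : AddChar (RC A Q) ℂ) : Prop where
  pos : 0 < Q
  le : (Q : ℝ) ≤ B
  prime : l.Prime
  big : 1 - d ≤ ‖mch Q ss St μ χ‖
  ne : ∃ c : O A, Cp Q c ∧ ((ordCompl[l] Q : ℕ) : O A) ∣ c - 1 ∧ χ (io Q c) ≠ 1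

/-- few independent large characters -/
def LsbS : Prop := ∀ (L0 E0 E1 : ℕ) (C1 : ℝ), 1 ≤ L0 → 1 ≤ E0 → ∃ (M1 : ℕ) (d4 Y1 : ℝ), 0 < d4 ∧
  ∀ (Y : ℝ) (A : ℕ) (ss : Pt → ℤ) (Val : Pt → Prop) (St : Finset (Multiset Pt))
    (μ : Multiset Pt → ℝ), Y1 ≤ Y → BH A ss Val St μ L0 E0 E1 C1 Y →
  ∀ (M : ℕ) (Q l : Fin M → ℕ) (χ : ∀ i, AddChar (RC A (Q i)) ℂ),
    (∀ i, Vio ss St μ (Y ^ E0) d4 (Q i) (l i) (χ i)) → (∀ i j, i < j → ¬l i ∣ Q j) → M ≤ M1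

/-- the exceptional primes -/
def LsgS : Prop := ∀ (A W M1 : ℕ) (ss : Pt → ℤ) (St : Finset (Multiset Pt)) (μ : Multiset Pt → ℝ)
  (B d : ℝ), (∀ (M : ℕ) (Q l : Fin M → ℕ) (χ : ∀ i, AddChar (RC A (Q i)) ℂ),
    (∀ i, Vio ss St μ B d (Q i) (l i) (χ i)) → (∀ i j, i < j → ¬l i ∣ Q j) → M ≤ M1) →
  ∃ LL : Finset ℕ, LL.card ≤ M1 ∧ (∀ l ∈ LL, l.Prime ∧ ¬l ∣ W) ∧
    ∀ (Q l : ℕ) (χ : AddChar (RC A Q) ℂ), (∀ l' ∈ LL, ¬l' ∣ Q) → ¬l ∣ W → ¬Vio ss St μ B d Q l χ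

/-- the dichotomy at level `Q` -/
def DichS : Prop := ∀ (A W Q M k0 : ℕ) (ss : Pt → ℤ) (St St2 : Finset (Multiset Pt))
  (μ : Multiset Pt → ℝ) (π : RC A Q →+ RC A W) (B : Finset (AddChar (RC A W) ℂ)) (D d d4 Bq : ℝ),
  1 < A → HW M.factorial W → W ∣ Q → 0 < Q → (Q : ℝ) ≤ Bq → IsPr A W Q π →
  (∀ x ∈ St, 0 ≤ μ x ∧ ∀ z ∈ x, Gd A ss z) → ∑ x ∈ St, μ x = 1 → 1 - d / 4 ≤ ∑ x ∈ cop St Q, μ x →
  1 ≤ k0 → (∀ g, law (fun x : cop St Q => μ x) (fun x : cop St Q => cM A Q ss x) k0 g ≤ D) →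
  2 * k0 * Nat.card (RC A Q) * D ≤ M → 0 < d → d ≤ 1 / (4 * k0 * (M + 1) ^ 2 : ℝ) → d ≤ d4 →
  (∀ (l : ℕ) (χ : AddChar (RC A Q) ℂ), ¬l ∣ W → ¬Vio ss St μ Bq d4 Q l χ) →
  (∀ χ ∉ B, ‖ex (fun x : St => μ x) fun x => χ (cM A W ss x)‖ ≤ 1 - d) → St2 ⊆ St →
  1 - d / 8 ≤ ∑ x ∈ St2, μ x → ∃ BQ : Finset (AddChar (RC A Q) ℂ), BQ.card = B.card ∧
    (∀ χ ∈ BQ, ∃ χ' ∈ B, ∀ g, χ g = χ' (π g)) ∧ ∀ χ ∉ BQ, ‖mch Q ss St2 (nz St2 μ) χ‖ ≤ 1 - d / 4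

/-- the order of the ray class group is not too large -/
def RhoS : Prop := ∀ C1 γ : ℝ, 0 < γ → ∃ Y1 : ℝ, ∀ (Y : ℝ) (A W : ℕ), Y1 ≤ Y → 1 < A → 0 < W →
  Hb A C1 Y → Nat.card (RC A W) * Real.log Y ≤ Y ^ γ * (√A * W ^ 2)

/-! ### analytic rows -/

/-- the local sum -/
noncomputable def Sl {ι G : Type} [Fintype ι] [AddCommGroup G] (μ : ι → ℝ) (x : ι → G) (lam : ι → ℂ)
    (j : ℕ) (g : G) (κ β : ℂ) (r : ℝ) : ℝ :=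
  tm μ j fun s => ind (∑ i, x (s i) = g) * tent ((κ * ∏ i, lam (s i) - β) / r)

/-- upper bounds for longer tuples -/
def UpS : Prop := ∀ (ι G : Type) [Fintype ι] [AddCommGroup G] (μ : ι → ℝ) (x : ι → G) (lam : ι → ℂ)
  (k j : ℕ) (δ0 D r : ℝ) (g : G) (κ β : ℂ), Sb μ → DH μ x lam k δ0 D → 0 < r → 2 * r ≤ ‖β‖ →
  δ0 ≤ r / ‖β‖ → (k ≤ j → tm μ j (fun s => ind (∑ i, x (s i) = g ∧ ‖κ * ∏ i, lam (s i) - β‖ ≤ r))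
    ≤ D * (r / ‖β‖) ^ 2) ∧
  ∀ (Bd : ι → ι → Prop) (t : ℝ), k + 2 ≤ j → 0 ≤ t → (∀ i, ∑ i', μ i' * ind (Bd i i') ≤ t) →
    tm μ j (fun s => ind ((∃ a b, a ≠ b ∧ Bd (s a) (s b)) ∧ ∑ i, x (s i) = g ∧
      ‖κ * ∏ i, lam (s i) - β‖ ≤ r)) ≤ j ^ 2 * t * (D * (r / ‖β‖) ^ 2)

/-- the weighted local sum without repetitions -/
def LocS : Prop := ∀ (ι G : Type) [Fintype ι] [AddCommGroup G] (μ : ι → ℝ) (x : ι → G) (lam : ι → ℂ)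
  (k j : ℕ) (δ0 D r t : ℝ) (g : G) (κ β : ℂ) (Bd : ι → ι → Prop) (N : (Fin j → ι) → Prop), Sb μ →
  DH μ x lam k δ0 D → 0 < r → 2 * r ≤ ‖β‖ → δ0 ≤ r / ‖β‖ → k + 2 ≤ j → 0 ≤ t →
  (∀ i, ∑ i', μ i' * ind (Bd i i') ≤ t) → (∀ s, ¬N s → ∃ a b, a ≠ b ∧ Bd (s a) (s b)) →
  ∀ S : ℝ, S = ‖κ‖ ^ 2 * tm μ j (fun s => ‖∏ i, lam (s i)‖ ^ 2 * ind (N s) *
    (ind (∑ i, x (s i) = g) * tent ((κ * ∏ i, lam (s i) - β) / r))) →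
  S ≤ 4 * D * r ^ 2 ∧
  |S - ‖β‖ ^ 2 * Sl μ x lam j g κ β r| ≤ (3 * (r / ‖β‖) + 4 * j ^ 2 * t) * (D * r ^ 2)

/-- cells -/
def Rp {ι : Type} (lam : ι → ℂ) (u : ι → ℕ) (th : ι → ℤ) (L η : ℝ) (N2 : ℕ) : Prop :=
  ∀ i, ∃ e : ℂ, ‖e‖ ≤ 7 * η ∧
    lam i = Complex.exp ((L + η * u i) / 2 + 2 * Real.pi * th i / N2 * Complex.I + e)

/-- the cell index is correct -/
def Cel {ι : Type} (lam : ι → ℂ) (u : ι → ℕ) (L η : ℝ) : Prop := ∀ i, lam i ≠ 0 ∧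
  η * u i ≤ Real.log (‖lam i‖ ^ 2) - L ∧ Real.log (‖lam i‖ ^ 2) - L ≤ η * (u i + 1)

def CellS : Prop := ∀ (ι G : Type) [Fintype ι] [AddCommGroup G] (μ : ι → ℝ) (x : ι → G)
  (lam : ι → ℂ) (u : ι → ℕ) (k J N2 : ℕ) (L η D : ℝ), Sb μ → 1 ≤ k → 1 ≤ J → 0 < η →
  28 * k * η ≤ 1 → 1 ≤ η * N2 → Cel lam u L η → DH μ x lam k η D →
  ∃ th : ι → ℤ, Rp lam u th L η N2 ∧
    ∀ y, law (sm μ J) (tri u J N2 th x) k y ≤ D * (14 * k * η) ^ 2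

/-- the tent at the corner of a cell -/
noncomputable def ct (η δ : ℝ) (N2 : ℕ) (w0 : ℂ) (v : ℤ) (t : ZMod N2) : ℝ :=
  tent ((Complex.exp (η * v / 2 + 2 * Real.pi * t.val / N2 * Complex.I - w0) - 1) / δ)

/-- discretisation -/
def RiaS : Prop := ∀ (ι G : Type) [Fintype ι] [AddCommGroup G] (μ : ι → ℝ) (x : ι → G)
  (lam : ι → ℂ) (u : ι → ℕ) (th : ι → ℤ) (k j J N2 : ℕ) (L η D r : ℝ) (g : G) (κ β w0 : ℂ), Sb μ →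
  1 ≤ J → 1 ≤ N2 → Rp lam u th L η N2 → DH μ x lam k η D → k ≤ j → 0 < r → 0 < η →
  η ≤ (r / ‖β‖) ^ 2 → 64 * (j + 1) * J * (r / ‖β‖) ≤ 1 →
  κ * Complex.exp (j * L / 2 + w0) = β →
  |Sl μ x lam j g κ β r - tm (sm μ J) j fun s => ind (∑ i, x (s i).1 = g) *
    ct η (r / ‖β‖) N2 w0 (∑ i, su u J (s i)) (∑ i, (th (s i).1 : ZMod N2))|
    ≤ 200 * j * J * (r / ‖β‖) * (D * (r / ‖β‖) ^ 2)

/-- the lattice sum -/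
def RibS : Prop := ∀ cτ Cτ : ℝ, 0 < cτ → 0 ≤ Cτ → RS cτ Cτ → ∃ C : ℝ, 0 ≤ C ∧
  ∀ (η δ : ℝ) (N2 : ℕ) (w0 : ℂ), 0 < η → 0 < δ → η ≤ δ ^ 2 → 8 * δ ≤ 1 → 1 ≤ η * N2 →
  ∃ S : Finset (ℤ × ZMod N2), (∀ p : ℤ × ZMod N2, ct η δ N2 w0 p.1 p.2 ≠ 0 → p ∈ S) ∧
    ∀ (P : ℤ × ZMod N2 → ℝ) (m e : ℝ), 0 ≤ m → 0 ≤ e →
    (∀ p : ℤ × ZMod N2, |η * p.1 - 2 * w0.re| ≤ 1 → |P p - m| ≤ e) →
    |∑ p ∈ S, P p * ct η δ N2 w0 p.1 p.2 - m * (cτ * δ ^ 2 * N2 / (Real.pi * η))|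
      ≤ C * (e + m * δ) * (δ ^ 2 * N2 / η)

/-- the analytic core -/
def AnS : Prop := ∀ cτ Cτ : ℝ, 0 < cτ → 0 ≤ Cτ → RS cτ Cτ → ∀ (k' : ℕ) (C : ℝ), 1 ≤ k' → 0 ≤ C →
  ∃ (J0 : ℕ) (c C' : ℝ), 1 ≤ J0 ∧ 0 < c ∧ c ≤ 1 ∧ 1 ≤ C' ∧ ∀ J k : ℕ, J0 ≤ J → ∃ δ1 : ℝ, 0 < δ1 ∧
  ∀ (ι G : Type) [Fintype ι] [AddCommGroup G] [Finite G] (μ : ι → ℝ) (x : ι → G) (lam : ι → ℂ)
    (u : ι → ℕ) (U : ℕ) (L η : ℝ), Sb μ → J ≤ U → (∀ i, u i < U) → 0 < η → η ≤ δ1 → Cel lam u L η →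
  DH μ x lam k' η (C / (Nat.card G * (U * η))) →
  (∀ v, law (sm μ J) (su u J) k' v ≤ C' / U) ∧
  ∀ (B : Finset (AddChar G ℂ)) (cc : AddChar G ℂ → ℂ) (j : ℕ) (g : G) (κ β : ℂ) (d r fm ε : ℝ),
    0 < d → d ≤ 1 → (∀ χ ∈ B, ∀ i, χ (x i) = cc χ) → (∀ χ ∉ B, ‖ex μ fun i => χ (x i)‖ ≤ 1 - d) →
    2 * k' ≤ j → j ≤ k → (∀ χ ∈ B, χ g = cc χ ^ j) → κ ≠ 0 → 0 < r → r ≤ δ1 * ‖β‖ →
    η ≤ (r / ‖β‖) ^ 2 → 0 ≤ fm → 0 ≤ ε →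
    (∀ v : ℤ, |η * v - (Real.log (‖β‖ ^ 2) - Real.log (‖κ‖ ^ 2) - j * L)| ≤ 1 →
      |U * law (sm μ J) (su u J) j v - fm| ≤ ε * fm) →
    |Sl μ x lam j g κ β r - B.card * fm * cτ / Real.pi * ((r / ‖β‖) ^ 2 / (Nat.card G * (U * η)))|
      ≤ C' * (B.card * fm * (ε + r / ‖β‖) + (1 - c * d ^ 2) ^ (j - 2 * k') + k * J * (r / ‖β‖)) *
        ((r / ‖β‖) ^ 2 / (Nat.card G * (U * η)))

/-- removing a few steps -/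
def MgS : Prop := ∀ (ι : Type) [DecidableEq ι] (S S' : Finset ι) (μ : ι → ℝ) (u : ι → ℕ)
  (J k j : ℕ) (D t : ℝ), S' ⊆ S → (∀ x ∈ S, 0 ≤ μ x) → ∑ x ∈ S, μ x ≤ 1 → ∑ x ∈ S \ S', μ x ≤ t →
  1 ≤ J → (∀ v, cv S μ u J k v ≤ D) → k + 1 ≤ j →
  ∀ v, cv S' μ u J j v ≤ cv S μ u J j v ∧ cv S μ u J j v ≤ cv S' μ u J j v + j * t * D

/-- the shifts -/
def OmS : Prop := ∀ cτ Cτ : ℝ, 0 ≤ Cτ → RS cτ Cτ → ∀ (A Q : ℕ) (V : ℝ), 1 ≤ A → 1 ≤ Q →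
  Q * √A ≤ V → ∃ Vs : Finset (O A), (∀ v : O A, tent (Q * emb v / V) ≠ 0 → v ∈ Vs) ∧
    (∀ v ∈ Vs, |(v.re : ℝ)| ≤ V ∧ |(v.im : ℝ)| ≤ V) ∧
    |Q ^ 2 * √A / V ^ 2 * ∑ v ∈ Vs, tent (Q * emb v / V) - cτ| ≤ 2 * Cτ * (Q * √A / V)

/-- bookkeeping -/
def SumS : Prop := ∀ (A Q j : ℕ) (ss : Pt → ℤ) (lam : Ideal (O A) → ℂ) (S : Finset (Multiset Pt))
  (μ : Multiset Pt → ℝ) (T : Multiset Pt) (β : O A) (K : Finset ℕ) (g : ℕ → RC A Q) (κ : ℕ → ℂ)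
  (Vs : Finset (O A)) (V : ℝ), 1 < A → Lam A Q lam → (∀ x ∈ S, ∀ z ∈ x, Gd A ss z) →
  (∀ v : O A, tent (Q * emb v / V) ≠ 0 → v ∈ Vs) →
  (∀ (M : Multiset Pt) (Vs : Finset (O A)) (Ω : ℂ → ℝ), (∀ z ∈ M, Gd A ss z) →
    (∀ v, Ω (emb (β + (Q : O A) * v)) ≠ 0 → v ∈ Vs) →
    ∑ v ∈ Vs, Ω (emb (β + (Q : O A) * v)) * ind (EvF A ss (β + (Q : O A) * v) (T + M))
      = ind (Nd M ∧ (nT M).Coprime Q) *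
        ∑ u ∈ K, ind (cM A Q ss M = g u) * Ω (κ u * lam (IM A ss M))) →
  ∑ v ∈ Vs, tent (Q * emb v / V) * Rw A ss S (fun x => μ x * nT x) T j (β + (Q : O A) * v)
    = ∑ u ∈ K, tm (fun x : cop S Q => μ x) j fun s => ‖∏ i, lam (IM A ss (s i))‖ ^ 2 *
      ind (Nd (∑ i, (s i).1)) * (ind (∑ i, cM A Q ss (s i) = g u) *
        tent ((κ u * ∏ i, lam (IM A ss (s i)) - emb β) / V))

def OfCln : Prop := BasS → RedS → ClnS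
def OfPi : Prop := BasS → RedS → PiS
def OfCard : Prop := BasS → ClnS → PiS → PhiS → NuS → CardS
def OfLam : Prop := BasS → CardS → LamS
def OfPar : Prop := BasS → ParS
def OfHens : Prop := BasS → HensS
def OfHt : Prop := HtaS → HtS
def OfHbFam : Prop := ClnS → NuS → RrS → CheS → HtbS → HtS → HbFam
def OfHbFix : Prop := NuS → HbFix
def OfGl : Prop := CheS → GlS
def OfSwd : Prop := NuS → GlS → SwdS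
def OfSwo : Prop := NuS → SwoS
def OfCnt : Prop := BasS → RedS → SwdS → CntS
def OfDens : Prop := TupS → BasS → CardS → NuS → CntS → MulS → DensS
def OfMgz : Prop := TupS → BasS → PiS → CardS → LamS → DensS → MgzS
def OfLsa : Prop := SwdS → SwoS → LsaS
def OfLsm : Prop := TupS → PowS → BasS → CardS → MulS → LsmS
def OfLsb : Prop := BasS → CardS → NuS → MgzS → LsaS → LsmS → LsbS
def OfDich : Prop := BesS → BasS → CardS → HensS → DichS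
def OfRho : Prop := CardS → NuS → CheS → RhoS
def OfUp : Prop := TupS → UpS
def OfLoc : Prop := TupS → UpS → LocS
def OfCell : Prop := TupS → SmS → CellS
def OfRia : Prop := TupS → SmS → UpS → RiaS
def OfAn : Prop := TupS → SmS → LltS → CellS → RiaS → RibS → AnS
def OfMg : Prop := TupS → SmS → MgS
def OfSum : Prop := BasS → SumS

end Pool.Agent.MP_f3836a_nt.VE.BC
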