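import Pool.Agent.MP_f3836a_nt.VE.SpecE2
import Pool.Agent.MP_f3836a_nt.VE.SpecC

/-! Part E: construction of the system. -/

set_option autoImplicit false

namespace Pool.Agent.MP_f3836a_nt.VE

open Polynomial Finset

/-- valid points of the curve `b x - a` -/
def Val (f : ℤ[X]) (W : ℕ) (a b : ℤ) (z : Pt) : Prop := IsPt f z ∧ ¬z.p ∣ W ∧ On a b z

/-- the root attached to a point of the base curve -/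
def ss0 (z : Pt) : ℤ := -(1 : ℤ) ^ 3 * z.y

/-- numerical conditions for averages over short shifts -/
structure Nm (Y : ℝ) (E0 U : ℕ) (X V Qm ε0 ε Λ ε' K Cb : ℝ) : Prop where
  e0 : ε0 ≤ ε ∧ ε ≤ 1 ∧ Λ * ε0 ≤ 1 ∧ 1 ≤ Λ
  q : Qm ≤ Y ^ E0 ∧ Y ^ (2 * E0) ≤ V ∧ V * Y ≤ Real.exp (X / 2) ∧ Real.exp X * Y ≤ V ^ 2 * U
  c : Cb * ε ≤ ε' ∧ Cb * Λ ≤ K

/-! ### one small curve -/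

/-- the output for a small curve -/
structure MO where
  i : ℕ
  G : Pt → Prop
  LL : Finset ℕ
  lab : Pt → ℕ
  Z0 : Multiset Pt → Prop
  ρ : ℝ

/-- the shape of the allowed pairs on a small curve -/
def Shp (f : ℤ[X]) (W k0 N U κ : ℕ) (Y Λ : ℝ) (a v : ℤ) (Z : Finset Pt) (Z0 : Multiset Pt → Prop)
    (ad : Multiset Pt → ℕ → Prop) : Prop :=
  ∀ T j, ad T j → Nd T ∧ (∀ z ∈ T, Val f W a ((k0 : ℤ) ^ 2) z) ∧ 1 / Λ ≤ Fu U j (v - tot Y U T) ∧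
    ∃ T0 xs : Multiset Pt, T = xs + T0 ∧ (T0 = 0 ∨ (Z0 T0 ∧ T0.card = N)) ∧
      (∀ z ∈ T0, (z.p : ℝ) < Y) ∧ (∀ z ∈ xs, z ∈ Z) ∧ xs.card ≤ 2 ∧ xs.card + j = κ

open Classical in
structure MOk (f : ℤ[X]) (W k0 : ℕ) (Y : ℝ) (N M0 M1 Mx E k1 kM : ℕ) (Cb ε0 : ℝ) (d : ℕ → ℝ)
    (a : ℤ) (o : MO) : Prop where
  lev : o.i ≤ M0
  cj : ∀ z, o.G z → o.G z.cj ∧ z.p ∉ o.LL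
  mis : ∑ z ∈ (PtsOn f Y (Y ^ 2) a ((k0 : ℤ) ^ 2)).filter fun z => ¬o.G z, n0 Y z
    ≤ 2 * (M0 : ℝ) ^ 3 * d (o.i + 1) + ε0
  ll : o.LL.card ≤ M1 ∧ ∀ l ∈ o.LL, l.Prime ∧ ¬l ∣ W
  lab : ∀ z, o.lab z < Mx
  z0 : ∀ T : Multiset Pt, T.card = N → (∀ z ∈ T, ∀ z' ∈ T, o.lab z = o.lab z') →
    o.Z0 T ∧ o.Z0 (T.map Pt.cj)
  rho : 0 < o.ρ
  main : ∀ (Z : Finset Pt) (U Km : ℕ) (δ : ℝ),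
    (∀ z ∈ Z, z ∈ PtsOn f Y (Y ^ 2) a ((k0 : ℤ) ^ 2) ∧ o.G z) →
    ∑ z ∈ PtsOn f Y (Y ^ 2) a ((k0 : ℤ) ^ 2) \ Z, n0 Y z ≤ δ → Eqd f k0 Y U Km δ a →
    32 * δ ≤ d o.i → Y ≤ U → (U : ℝ) ≤ Y ^ E → 0 < Km → Km * ε0 ≤ 1 →
    (∀ T j β, j ≤ kM → (∀ z ∈ T, Val f W a ((k0 : ℤ) ^ 2) z) →
      Rw (AA f k0 a) (cuH f k0 a).ss (sing Z) (w1 Z) T j β ≤ Y ^ ε0 * o.ρ) ∧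
    ∀ (ad : Multiset Pt → ℕ → Prop) (κ : ℕ) (v : ℤ) (X V Qm ε Λ ε' K : ℝ),
      Nm Y 200 U X V Qm ε0 ε Λ ε' K Cb → N ∣ κ → κ ≤ kM → k1 ≤ κ →
      Cb * Λ * (1 - d o.i ^ 2 / Cb) ^ (κ - k1) ≤ ε → Cb * Λ * κ * (δ + 1 / Km) ≤ ε →
      |Real.log Y / U * v - (X - κ * Real.log Y)| ≤ 1 → Shp f W k0 N U κ Y Λ a v Z o.Z0 ad →
      SFE (AA f k0 a) (cuH f k0 a).ss W (sing Z) (w1 Z) o.ρ o.LL ad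
        (fun T j => Fu U j (v - tot Y U T)) X 2 Qm V ε' K

/-- parts B and C for a small curve -/
def MainC : Prop := ∀ (f : ℤ[X]) (t0 : ℤ) (A0 : ℕ), Crv f t0 A0 →
  ∃ (N M0 M1 Mx : ℕ) (d0 : ℝ), 0 < N ∧ 0 < d0 ∧ ∀ E : ℕ, ∃ (k1 : ℕ) (Cb : ℝ), 1 ≤ Cb ∧
  ∀ (d : ℕ → ℝ) (W kM : ℕ) (ε0 : ℝ), Antitone d → (∀ i, 0 < d i) → d 0 ≤ d0 → BC.HW N W → 6 ∣ W →
    0 < ε0 → ∃ Y1 : ℝ, ∀ (k0 : ℕ) (Y : ℝ) (a : ℤ), Sc W k0 Y → Y1 ≤ Y → a ∈ HH0 t0 W k0 →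
    ∑ l ∈ (2 * AA f k0 a).primeFactors, (1 : ℝ) / l ≤ 2 →
    |Zm (PtsOn f Y (Y ^ 2) a ((k0 : ℤ) ^ 2)) - Real.log Y| ≤ Real.log Y / 2 →
    ∃ o : MO, MOk f W k0 Y N M0 M1 Mx E k1 kM Cb ε0 d a o

/-- weights of singletons before normalisation -/
noncomputable def mu1 (S : Finset Pt) (x : Multiset Pt) : ℝ := w1 S x * PT x

/-- the base hypotheses for a small curve -/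
def BH1S : Prop := ∀ (f : ℤ[X]) (t0 : ℤ) (A0 : ℕ), Crv f t0 A0 → ∃ C1 Y1 : ℝ,
  ∀ (W k0 : ℕ) (Y : ℝ) (a : ℤ), 6 ∣ W → Sc W k0 Y → Y1 ≤ Y → a ∈ HH0 t0 W k0 →
    ∑ l ∈ (2 * AA f k0 a).primeFactors, (1 : ℝ) / l ≤ 2 →
    |Zm (PtsOn f Y (Y ^ 2) a ((k0 : ℤ) ^ 2)) - Real.log Y| ≤ Real.log Y / 2 →
    BC.BH (AA f k0 a) (cuH f k0 a).ss (Val f W a ((k0 : ℤ) ^ 2))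
      (sing (PtsOn f Y (Y ^ 2) a ((k0 : ℤ) ^ 2))) (mu1 (PtsOn f Y (Y ^ 2) a ((k0 : ℤ) ^ 2)))
      1 200 2 C1 Y

/-! ### the base curve -/

/-- the output for the base curve -/
structure BO where
  TT : Finset (Multiset Pt)
  w0 : Multiset Pt → ℝ
  LL : Finset ℕ
  ρ : ℝ

structure BOk (f : ℤ[X]) (t0 : ℤ) (A0 W : ℕ) (Y0 : ℝ) (N E1 E0 N' M1 E k1 kM : ℕ) (Cb ε0 : ℝ)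
    (TT0 : Finset (Multiset Pt)) (o : BO) : Prop where
  sub : o.TT ⊆ TT0
  cj : ∀ T ∈ o.TT, T.map Pt.cj ∈ o.TT ∧ o.w0 (T.map Pt.cj) = o.w0 T ∧ 0 ≤ o.w0 T ∧
    ∀ z ∈ T, z.p ∉ o.LL
  nrm : ∑ T ∈ o.TT, o.w0 T * PT T = 1
  ll : o.LL.card ≤ M1 ∧ ∀ l ∈ o.LL, l.Prime ∧ ¬l ∣ W
  rho : 0 < o.ρ
  rw : ∀ T j β, j ≤ kM → (∀ z ∈ T, Val f W t0 1 z) → Rw A0 ss0 o.TT o.w0 T j β ≤ Y0 ^ ε0 * o.ρ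
  main : ∀ U κ : ℕ, Y0 ≤ U → (U : ℝ) ≤ Y0 ^ E → N' ∣ κ + 2 → k1 ≤ κ + 2 → κ + 2 ≤ kM →
    ∃ (X1 : ℝ) (f0 : Multiset ℕ → ℕ → ℝ), (κ + 2 : ℕ) * N * Real.log Y0 ≤ X1 ∧
      X1 ≤ 2 * (κ + 2 : ℕ) * N * E1 * Real.log Y0 ∧
      (∀ T j, adS o.TT κ T j → 1 / (Cb * (κ + 2 : ℕ)) ≤ f0 (T.map Pt.p) j ∧ f0 (T.map Pt.p) j ≤ Cb) ∧
      ∀ X V Qm ε Λ ε' K : ℝ, Nm Y0 E0 U X V Qm ε0 ε Λ ε' K Cb → |X - X1| ≤ 1 →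
        Cb * (κ + 2 : ℕ) ≤ Λ → Cb * Λ * (1 - 1 / Cb) ^ (κ + 2 - k1) ≤ ε →
        SFE A0 ss0 W o.TT o.w0 o.ρ o.LL (adS o.TT κ) (fun T j => f0 (T.map Pt.p) j) X 2 Qm V ε' K

/-- a set of blocks of positive mass -/
structure TOk (f : ℤ[X]) (t0 : ℤ) (W : ℕ) (Y0 : ℝ) (N E1 : ℕ) (c : ℝ)
    (TT0 : Finset (Multiset Pt)) : Prop where
  big : (W : ℝ) < Y0
  zm : 2 * Real.log Y0 ≤ Zm (PtsOn f Y0 (Y0 ^ E1) t0 1)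
  sub : TT0 ⊆ Blk (PtsOn f Y0 (Y0 ^ E1) t0 1) N
  cj : ∀ T ∈ TT0, T.map Pt.cj ∈ TT0
  mass : c ≤ ∑ T ∈ TT0, bw (Zm (PtsOn f Y0 (Y0 ^ E1) t0 1)) T * PT T

/-- parts B and C for the base curve -/
def BaseC : Prop := ∀ (f : ℤ[X]) (t0 : ℤ) (A0 : ℕ), Crv f t0 A0 → ∀ (N E1 E0 : ℕ) (c : ℝ), 1 ≤ N →
  2 ≤ E1 → 1 ≤ E0 → 0 < c → ∃ N' M1 : ℕ, 0 < N' ∧ ∀ E : ℕ, ∃ (k1 : ℕ) (Cb : ℝ), 1 ≤ Cb ∧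
  ∀ (W kM : ℕ) (ε0 : ℝ), BC.HW N' W → 6 ∣ W → 0 < ε0 → ∃ Y1 : ℝ,
    ∀ (Y0 : ℝ) (TT0 : Finset (Multiset Pt)), Y1 ≤ Y0 → TOk f t0 W Y0 N E1 c TT0 →
    ∃ o : BO, BOk f t0 A0 W Y0 N E1 E0 N' M1 E k1 kM Cb ε0 TT0 o

/-- the base hypotheses for the base curve -/
def BH0S : Prop := ∀ (f : ℤ[X]) (t0 : ℤ) (A0 : ℕ), Crv f t0 A0 → ∀ (N E1 E0 : ℕ) (c : ℝ), 1 ≤ N →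
  2 ≤ E1 → 1 ≤ E0 → 0 < c → ∃ C1 Y1 : ℝ, ∀ (W : ℕ) (Y0 : ℝ) (TT0 : Finset (Multiset Pt)), 6 ∣ W →
    0 < W → Y1 ≤ Y0 → TOk f t0 W Y0 N E1 c TT0 →
    BC.BH A0 ss0 (Val f W t0 1) TT0
      (BC.nz TT0 fun T => bw (Zm (PtsOn f Y0 (Y0 ^ E1) t0 1)) T * PT T) N E0 E1 C1 Y0

/-! ### the family -/

/-- admissible blocks -/
def MO.adm (o : MO) (a b : ℤ) (T : Multiset Pt) : Prop :=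
  (∀ z ∈ T, On a b z ∧ z.p ∉ o.LL) ∧ o.Z0 T ∧ o.Z0 (T.map Pt.cj)

open Classical in
/-- the choice of the level -/
def LevS : Prop := ∀ (H0 H1 : Finset ℤ) (S : Finset Pt) (b : ℤ) (o : ℤ → MO) (N M0 M1 Mx : ℕ)
  (L Λ2 : ℝ), 0 < Λ2 → H1 ⊆ H0 → 2 * Λ2 * (H0 \ H1).card ≤ L →
  L ≤ Λ2 * (H0.filter fun a => ∃ T ∈ Blk S (N * Mx + M1), ∀ z ∈ T, On a b z).card →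
  (∀ a ∈ H1, (o a).i ≤ M0 ∧ (o a).LL.card ≤ M1 ∧ (∀ z, (o a).lab z < Mx) ∧
    ∀ T : Multiset Pt, T.card = N → (∀ z ∈ T, ∀ z' ∈ T, (o a).lab z = (o a).lab z') →
      (o a).Z0 T ∧ (o a).Z0 (T.map Pt.cj)) →
  ∃ i ≤ M0, ∃ H2 ⊆ H1, L ≤ 2 * Λ2 * (M0 + 1) * H2.card ∧
    ∀ a ∈ H2, (o a).i = i ∧ ∃ T ∈ Blk S N, (o a).adm a b T

open Classical in
/-- the family after deletion -/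
structure Fin1 (f : ℤ[X]) (t0 : ℤ) (W k0 : ℕ) (Y : ℝ) (U Km K J : ℕ) (e Λ1 : ℝ) (G : ℤ → Pt → Prop)
    (H2 HH : Finset ℤ) (P1 : Finset Pt) : Prop where
  hh : HH ⊆ H2 ∧ Lc W k0 ≤ Λ1 * HH.card
  p1 : P1 ⊆ Pts f Y (Y ^ 2) ∧ (∀ z ∈ P1, z.cj ∈ P1) ∧ ∑ z ∈ P1, sg Y z ≤ 2
  del : DelC ((k0 : ℤ) ^ 2) (n0 Y) G (cellOf t0 k0 J) J (Lc W k0) e HH P1
  r0 : ∑ d ∈ range K, |∑ z ∈ P1.filter fun z => cz Y U K z = d, sg Y z - 1 / K| ≤ 2 * e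
  cur : ∀ a ∈ HH, Eqd f k0 Y U Km (2 * e) a ∧
    ∑ z ∈ PtsOn f Y (Y ^ 2) a ((k0 : ℤ) ^ 2) \ P1.filter fun z => On a ((k0 : ℤ) ^ 2) z ∧ G a z,
      n0 Y z ≤ 2 * e ∧
    |Zm (P1.filter fun z => On a ((k0 : ℤ) ^ 2) z ∧ G a z) - Real.log Y| ≤ 3 * e * Real.log Y

open Classical in
/-- deletion in the concrete family -/
def XDelS : Prop := ∀ (f : ℤ[X]) (t0 : ℤ) (A0 : ℕ), Crv f t0 A0 → ∀ (Km K J : ℕ) (e Λ3 : ℝ),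
  0 < Km → 0 < K → 0 < J → 0 < e → e ≤ 1 → 0 < Λ3 → 4 * Λ3 * e ≤ 1 → ∃ Y1 : ℝ,
  ∀ (W k0 U : ℕ) (Y : ℝ) (G : ℤ → Pt → Prop) (H2 : Finset ℤ), Sc W k0 Y → Y1 ≤ Y → Y ≤ U →
    H2 ⊆ HH0 t0 W k0 → Lc W k0 ≤ Λ3 * H2.card → (∀ a z, G a z → G a z.cj) →
    (∀ a ∈ H2, ∑ z ∈ (PtsOn f Y (Y ^ 2) a ((k0 : ℤ) ^ 2)).filter fun z => ¬G a z, n0 Y z
      ≤ e ^ 3 / 8) →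
    ∃ HH P1, Fin1 f t0 W k0 Y U Km K J e (2 * Λ3) G H2 HH P1

open Classical in
/-- blocks with many admissible curves -/
def XTTS : Prop := ∀ (f : ℤ[X]) (t0 : ℤ) (W k0 N E1 A' : ℕ) (Y Y0 Λ1 : ℝ) (HH : Finset ℤ)
  (o : ℤ → MO), Sc W k0 Y → (W : ℝ) < Y0 → Y0 ^ A' = Y → 1 ≤ E1 → E1 * N ≤ A' → 0 < Λ1 →
  2 * Real.log Y0 ≤ Zm (PtsOn f Y0 (Y0 ^ E1) t0 1) →
  Zm (PtsOn f Y0 (Y0 ^ E1) t0 1) ≤ 2 * E1 * Real.log Y0 → HH ⊆ HH0 t0 W k0 →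
  Lc W k0 ≤ Λ1 * HH.card →
  (∀ a ∈ HH, ∃ T ∈ Blk (PtsOn f Y0 (Y0 ^ E1) t0 1) N, (o a).adm a ((k0 : ℤ) ^ 2) T) →
  ∃ TT0, TOk f t0 W Y0 N E1 (1 / (4 * (2 * E1) ^ N * Λ1)) TT0 ∧ ∀ T ∈ TT0, (nT T : ℝ) ≤ Y ^ 2 ∧
    (∀ a, (o a).adm a ((k0 : ℤ) ^ 2) T → (o a).adm a ((k0 : ℤ) ^ 2) (T.map Pt.cj)) ∧
    Lc W k0 * PT T ≤ 2 * (2 * E1) ^ N * Λ1 *
      (HH.filter fun a => (o a).adm a ((k0 : ℤ) ^ 2) T).card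

/-! ### numbers -/

/-- the size of the box and the length of the tuples -/
structure HOk (m W' N A' κ U : ℕ) (cp Cn Cq Y Y0 X1 : ℝ) (H H1 kk : ℕ) (v : ℤ) (V : ℝ) : Prop where
  side : 0 < H1 ∧ H1 ≤ H ∧ Cn * H1 ≤ H
  x0 : |2 * Real.log ((W' : ℝ) * H) + cp - X1| ≤ 1
  len : N ∣ kk ∧ κ ≤ 2 * A' * (kk + N) ∧ kk ≤ 40 * m + 2 * κ
  cen : |Real.log Y / U * v - (40 * m * Real.log Y + 2 * Real.log ((W' : ℝ) * H)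
    - kk * Real.log Y)| ≤ 1 ∧ |(v : ℝ) - kk * U / 2| ≤ 2 * N * U
  v1 : Y ^ 400 ≤ V ∧ V * Y ≤ Real.exp ((40 * m * Real.log Y + 2 * Real.log ((W' : ℝ) * H)) / 2) ∧
    Real.exp (40 * m * Real.log Y + 2 * Real.log ((W' : ℝ) * H)) * Y ≤ V ^ 2 * U
  v0 : V * Y0 ≤ Real.exp ((2 * Real.log ((W' : ℝ) * H) + cp) / 2) ∧
    Real.exp (2 * Real.log ((W' : ℝ) * H) + cp) * Y0 ≤ V ^ 2 * U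
  bdy : Cq * Y * (V + 1) * (Y ^ 16) ^ 5 * (2 * Y ^ 21) ^ (m + 12) ≤ H1

def XHS : Prop := ∀ (m W' N A' E1 κ : ℕ) (cp Cn Cq : ℝ), 0 < W' → 1 ≤ N → 1 ≤ E1 → E1 * N ≤ A' →
  2 * A' * (22 * m + 760) ≤ κ → ∃ Y1 : ℝ, ∀ (Y Y0 X1 : ℝ) (U : ℕ), Y1 ≤ Y → 1 < Y0 → Y0 ^ A' = Y →
    Y ^ (84 * m + 702) ≤ U → κ * N * Real.log Y0 ≤ X1 → X1 ≤ 2 * κ * N * E1 * Real.log Y0 →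
    ∃ (H H1 kk : ℕ) (v : ℤ) (V : ℝ), HOk m W' N A' κ U cp Cn Cq Y Y0 X1 H H1 kk v V

/-- the parameters of a level -/
structure Lv where
  κ : ℕ
  K : ℕ
  J1 : ℕ
  Km : ℕ
  Λ : ℝ
  M : ℝ
  η : ℝ
  θ : ℝ
  ε : ℝ
  e : ℝ
  e0 : ℝ
  d' : ℝ

structure LvOk (Cb : ℝ) (AF N' κ0 J0 A' N k1 : ℕ) (d : ℝ) (l : Lv) : Prop where
  len : N' ∣ l.κ ∧ κ0 ≤ l.κ ∧ Cb * l.κ ≤ l.Λ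
  cel : 0 < l.η ∧ l.η * l.Λ ^ AF ≤ 1 ∧ 2 ≤ l.η * l.K ∧ 1 ≤ l.η * (l.J1 + 1) ∧ J0 ≤ l.J1 + 1 ∧
    (l.K : ℝ) ≤ l.M ∧ (l.J1 : ℝ) + 1 ≤ l.M
  th : 0 < l.θ ∧ l.θ ≤ 1 / 2 ∧ l.θ * l.M ^ 3 * l.Λ ^ AF ≤ l.η ^ 2
  ep : 0 < l.ε ∧ l.ε ≤ 1 ∧ Cb * l.ε ≤ l.θ ^ 2 / 40
  dec : (∀ kk : ℕ, l.κ ≤ 2 * A' * (kk + N) → Cb * l.Λ * (1 - d ^ 2 / Cb) ^ (kk - k1) ≤ l.ε) ∧
    Cb * l.Λ * (1 - 1 / Cb) ^ (l.κ - k1) ≤ l.ε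
  del : 0 < l.e ∧ 0 < l.Km ∧ Cb * l.Λ * l.Λ * (2 * l.e + 1 / l.Km) ≤ l.ε ∧ 64 * l.e ≤ d ∧
    Cb * (2 * (l.J1 + 1) + 80) * l.e ≤ l.θ ^ 2
  nxt : 0 < l.d' ∧ l.d' ≤ d ∧ Cb * l.d' ≤ l.e ^ 3 / 16
  e0 : 0 < l.e0 ∧ l.e0 ≤ l.e ^ 3 / 16 ∧ l.e0 ≤ l.ε ∧ l.Λ * l.e0 ≤ 1 ∧ l.Km * l.e0 ≤ 1

def LvS : Prop := ∀ (Cb : ℝ) (AF N' κ0 J0 A' N k1 : ℕ) (d : ℝ), 1 ≤ Cb → 0 < N' → 0 < A' → 0 < d →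
  d ≤ 1 → ∃ l : Lv, LvOk Cb AF N' κ0 J0 A' N k1 d l

/-- the level of the congruences -/
def WS : Prop := ∀ N N' p0 : ℕ, 0 < N → 0 < N' → p0.Prime → ∃ J' : ℕ, ∀ w : ℕ, ∃ W : ℕ,
  BC.HW N W ∧ BC.HW N' W ∧ 6 ∣ W ∧ p0 ∣ W ∧ ¬p0 ^ (J' + 1) ∣ W ∧ ∀ l : ℕ, l.Prime → l ≤ w → l ∣ W

/-- large scales exist -/
def SclS : Prop := ∀ (W A' : ℕ) (Y1 : ℝ), 2 ≤ W → 0 < A' → ∃ (k0 : ℕ) (Y Y0 Ym : ℝ), Sc W k0 Y ∧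
  Y0 ^ A' = Y ∧ Ym ^ 10 = Y0 ∧ Y1 ≤ Ym ∧ 1 < Ym ∧ Ym ≤ Y0 ∧ Y0 ≤ Y ∧
  Real.log (2 * Y ^ 21) ≤ Ym ∧
  (∀ ε0 : ℝ, ε0 * (10 * A') ≤ 1 → Y ^ ε0 ≤ Ym ∧ Y0 ^ ε0 ≤ Ym) ∧
  ∀ K E : ℕ, 0 < K → 1 ≤ E → 4 * (K : ℝ) ≤ Y → ∃ r : ℕ, 2 ≤ r ∧ 2 ∣ r ∧ Y ^ E ≤ (K * r : ℕ) ∧
    ((K * r : ℕ) : ℝ) ≤ Y ^ (E + 1)

/-! ### the hypotheses of the equidistribution theorem -/

open Classical in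
structure Dat.Pre (D : Dat) (Z0 : ℤ → Multiset Pt → Prop) : Prop where
  crv : Crv D.Γ.f D.t0 D.A0
  gok : D.Γ.Ok
  c0 : (cu0 D.t0 D.A0 D.ϖ D.e D.e').Ok D.Γ
  sc : Sc D.Γ.W D.k0 D.Y
  ngr : NgR D.Γ D.t0
  win : (D.Γ.W : ℝ) < D.Y0 ∧ D.Y0 ≤ D.Y ∧ D.hi ≤ D.Y
  hh : D.HH ⊆ HH0 D.t0 D.Γ.W D.k0
  p1 : D.P1 ⊆ Pts D.Γ.f D.Y (D.Y ^ 2)
  tt : ∀ T ∈ D.TT, T ∈ Blk (PtsOn D.Γ.f D.Y0 D.hi D.t0 1) D.N ∧ (nT T : ℝ) ≤ D.Y ^ 2 ∧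
    0 ≤ D.w0 T ∧ ∀ z ∈ T, z.p ∉ D.LL none
  ht : Ht (D.Y ^ 21) (cu0 D.t0 D.A0 D.ϖ D.e D.e') D.Γ ∧
    ∀ a ∈ D.HH, Ht (D.Y ^ 21) (cuH D.Γ.f D.k0 a) D.Γ
  adm : ∀ a ∈ D.HH, (∀ T, D.adm a T →
    (∀ z ∈ T, On a ((D.k0 : ℤ) ^ 2) z ∧ z.p ∉ D.LL (some a)) ∧ Z0 a T) ∧
    ∀ z, D.G a z → z.p ∉ D.LL (some a)
  rho : 0 < D.ρ none ∧ ∀ a ∈ D.HH, 0 < D.ρ (some a)
  ll : (∀ l ∈ D.LL none, l.Prime ∧ ¬l ∣ D.Γ.W) ∧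
    ∀ a ∈ D.HH, ∀ l ∈ D.LL (some a), l.Prime ∧ ¬l ∣ D.Γ.W
  rw0 : ∀ T j β, j ≤ D.k3 + 2 → (∀ z ∈ T, Val D.Γ.f D.Γ.W D.t0 1 z) →
    Rw D.A0 ss0 D.TT D.w0 T j β ≤ D.Ym * D.ρ none
  rw1 : ∀ a ∈ D.HH, ∀ T j β, j ≤ D.k + 2 → (∀ z ∈ T, Val D.Γ.f D.Γ.W a ((D.k0 : ℤ) ^ 2) z) →
    Rw (AA D.Γ.f D.k0 a) (cuH D.Γ.f D.k0 a).ss (sing (D.Z a)) (w1 (D.Z a)) T j β
      ≤ D.Ym * D.ρ (some a)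
  f0 : ∀ T j, adS D.TT D.k3 T j → 1 / D.Λ ≤ D.f0 (T.map Pt.p) j ∧ D.f0 (T.map Pt.p) j ≤ D.Λ
  fu : 0 < D.K * D.r ∧ 2 ∣ D.r ∧ 400 * (2 * D.N + 5) ^ 2 ≤ D.k ∧ D.k + 2 ≤ D.K * D.r ∧
    10 * ((D.k : ℝ) + 2) ≤ D.Λ ∧
    |(D.v : ℝ) - (D.k + 2 : ℕ) * (D.K * D.r : ℕ) / 2| ≤ 2 * D.N * (D.K * D.r : ℕ)
  sfe0 : SFE D.A0 ss0 D.Γ.W D.TT D.w0 (D.ρ none) (D.LL none) (adS D.TT D.k3)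
    (fun T j => D.f0 (T.map Pt.p) j) (Xc D.Γ (cu0 D.t0 D.A0 D.ϖ D.e D.e')) 2
    (D.Γ.W * D.Γ.W' * (2 * D.Y ^ 21) ^ 6 * (D.Y ^ 16) ^ 2) D.V (D.θ ^ 2 / 40) D.Kx
  sfe1 : ∀ a ∈ D.HH, ∀ ad : Multiset Pt → ℕ → Prop,
    Shp D.Γ.f D.Γ.W D.k0 D.N (D.K * D.r) (D.k + 2) D.Y D.Λ a D.v (D.Z a) (Z0 a) ad →
    SFE (AA D.Γ.f D.k0 a) (cuH D.Γ.f D.k0 a).ss D.Γ.W (sing (D.Z a)) (w1 (D.Z a)) (D.ρ (some a))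
      (D.LL (some a)) ad (fun T j => Fu (D.K * D.r) j (D.v - tot D.Y (D.K * D.r) T))
      (Xc D.Γ (cuH D.Γ.f D.k0 a)) 2 (D.Γ.W * D.Γ.W' * (2 * D.Y ^ 21) ^ 6 * (D.Y ^ 16) ^ 2) D.V
      (D.θ ^ 2 / 40) D.Kx
  num : 0 ≤ D.V ∧ 1 ≤ D.Λ ∧ 1 ≤ D.Ym ∧ 5 ≤ D.Y0 ∧ 0 < D.θ ∧ D.θ ≤ 1 / 2 ∧ 2 ≤ D.Kx
  deg : 100 * ((8 * D.N : ℕ) + 1) * Real.log (2 * D.Y ^ 21) * (D.Ym * D.Λ) ^ 3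
    ≤ D.θ ^ 2 / 40 * D.Y0
  bdy : 1000 * D.Γ.m * ((8 * D.N : ℕ) + 1) ^ 2 * (D.Ym * D.Λ) ^ 3 * D.Γ.W * (D.V + 1)
    * (D.Y ^ 16) ^ 5 * (2 * D.Y ^ 21) ^ (D.Γ.m + 12) ≤ D.θ ^ 2 / 40 * D.Γ.H1

def XFamS : Prop := ∀ (D : Dat) (Z0 : ℤ → Multiset Pt → Prop), D.Pre Z0 →
  D.Φ.Ok D.Γ (D.Y ^ 21) D.V D.Λ 2 D.Ym D.Y0 (D.Y ^ 16) (D.θ ^ 2 / 40) D.Kx (8 * D.N) ∧
  ∀ t : ℕ, t < 2 * (D.K * D.r) → 1 / D.Λ ≤ Fu (D.K * D.r) D.k (D.v - t)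

def OfBH1 : Prop := ApiS → CuHS → HtS → PtS → PcS → ScS → BC.HbFam → BH1S
def OfBH0 : Prop := PtS → PcS → BlkS → BC.HbFix → BH0S
def OfMainC : Prop := BC.CMain → BC.BMain → BH1S → NormS → FuUS → ScS → MainC
def OfBaseC : Prop := BC.CMain → BC.BMain → BH0S → BlkS → BaseC
def OfLev : Prop := PigS → BlkS → LevS
def OfXDel : Prop := PtS → ScS → CelS → LsvS → MassS → GoodS → NormS → DelAS → DelBS → XDelS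
def OfXTT : Prop := PtS → ScS → LkS → BlkS → TTS → XTTS
def OfXFam : Prop := FuUS → FuLS → CuHS → NrS → ScS → BlkS → XFamS

end Pool.Agent.MP_f3836a_nt.VE
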