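import Pool.Agent.MP_f3836a_nt.VE.SpecA

/-! Coprimality to a totally real cubic and density of the values. -/

set_option autoImplicit false

namespace Pool.Agent.MP_f3836a_nt.VE.A

open Polynomial

theorem aCop : CopS := by
  intro c μ T0 r h q
  have hinj : Function.Injective r := h.mono.injective
  refine ⟨⟨fun ⟨a, b, hab⟩ i h0 => ?_, fun hq => ?_⟩, fun x ε hε => ?_⟩
  · have := congrArg (aeval (r i)) hab
    simp [h.root i, h0] at this
  · rw [← isCoprime_map (algebraMap ℚ ℝ)]
    have h1 : (∏ i, (X - C (r i))) ∣ c.map (algebraMap ℚ ℝ) :=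
      Finset.prod_dvd_of_coprime (fun i _ j _ hij => pairwise_coprime_X_sub_C hinj hij)
        fun i _ => dvd_iff_isRoot.2 (by rw [IsRoot, eval_map_algebraMap]; exact h.root i)
    have h2 : c.map (algebraMap ℚ ℝ) = ∏ i, (X - C (r i)) :=
      eq_of_monic_of_dvd_of_natDegree_le (monic_prod_of_monic _ _ fun i _ => monic_X_sub_C _)
        (h.monic.map _) h1 (by
          rw [h.monic.natDegree_map, h.deg, natDegree_prod_of_monic _ _ fun i _ => monic_X_sub_C _]
          simp)
    rw [h2]
    refine IsCoprime.prod_left fun i _ => (irreducible_X_sub_C (r i)).coprime_iff_not_dvd.2 ?_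
    rw [dvd_iff_isRoot, IsRoot, eval_map_algebraMap]
    exact hq i
  · let F : (Fin 3 → ℝ) → Fin 3 → ℝ := fun a i => ∑ k : Fin 3, a k * r i ^ (k : ℕ)
    have hF : Continuous F := by fun_prop
    have hs : Function.Surjective F := fun y => by
      refine ⟨fun k => (Lagrange.interpolate Finset.univ r y).coeff k, funext fun i => ?_⟩
      have h3 : (Lagrange.interpolate Finset.univ r y).natDegree < 3 := by
        have := Lagrange.degree_interpolate_lt (s := Finset.univ) (v := r) y hinj.injOn
        by_cases h0 : Lagrange.interpolate Finset.univ r y = 0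
        · simp [h0]
        · rw [natDegree_lt_iff_degree_lt h0]
          simpa using this
      rw [← Lagrange.eval_interpolate_at_node y hinj.injOn (Finset.mem_univ i),
        eval_eq_sum_range' h3, Finset.sum_range]
    have hd : DenseRange fun (a : Fin 3 → ℚ) (k : Fin 3) => (a k : ℝ) :=
      DenseRange.piMap fun _ => Rat.denseRange_cast
    obtain ⟨a, ha⟩ := (hs.denseRange.comp hd hF).exists_dist_lt x hε
    refine ⟨∑ k : Fin 3, C (a k) * X ^ (k : ℕ), fun i => ?_⟩
    have := (dist_le_pi_dist x _ i).trans ha.le
    rw [dist_comm, Real.dist_eq] at this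
    simpa [F, map_sum] using this

end Pool.Agent.MP_f3836a_nt.VE.A
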