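import Pool.Agent.MP_f3836a_nt.VE.SpecA

/-! A homomorphism on the units of a totally real cubic algebra vanishes. -/

set_option autoImplicit false

namespace Pool.Agent.MP_f3836a_nt.VE.A

open Polynomial Filter Topology

theorem aCub_real (a : Fin 3 → ℝ) (ha : ∀ i, 0 < a i) {ε : ℝ} (hε : 0 < ε) :
    ∃ (N : ℕ) (x : Fin 3 → ℝ) (δ : ℝ), 0 < δ ∧ ∀ y : Fin 3 → ℝ, (∀ i, |y i - x i| ≤ δ) →
      ∀ i, |y i - 1| < min ε 1 ∧ |a i * y i ^ N - 1| < ε := by
  have h1 : ∀ i, ∀ᶠ N : ℕ in atTop, |Real.exp (-Real.log (a i) / N) - 1| < min ε 1 := fun i => by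
    have h := (Real.continuous_exp.tendsto 0).comp
      (tendsto_const_div_atTop_nhds_zero_nat (-Real.log (a i)))
    rw [Real.exp_zero] at h
    exact Metric.tendsto_nhds.1 h _ (lt_min hε one_pos)
  obtain ⟨N, hN, h0⟩ := ((eventually_all.2 h1).and (eventually_gt_atTop 0)).exists
  have h0' : (N : ℝ) ≠ 0 := by exact_mod_cast h0.ne'
  obtain ⟨x, hx⟩ : ∃ x : Fin 3 → ℝ, ∀ i, x i = Real.exp (-Real.log (a i) / N) := ⟨_, fun _ => rfl⟩
  have h2 : ∀ᶠ y : Fin 3 → ℝ in 𝓝 x, ∀ i, |y i - 1| < min ε 1 ∧ |a i * y i ^ N - 1| < ε := by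
    refine eventually_all.2 fun i => Eventually.and ?_ ?_
    · exact ContinuousAt.eventually_lt (f := fun y : Fin 3 → ℝ => |y i - 1|)
        (g := fun _ => min ε 1) (Continuous.continuousAt (by fun_prop)) continuousAt_const (by rw [hx]; exact hN i)
    · refine ContinuousAt.eventually_lt (f := fun y : Fin 3 → ℝ => |a i * y i ^ N - 1|)
        (g := fun _ => ε) (Continuous.continuousAt (by fun_prop)) continuousAt_const ?_
      rw [hx, ← Real.exp_nat_mul, mul_div_cancel₀ _ h0', Real.exp_neg, Real.exp_log (ha i),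
        mul_inv_cancel₀ (ha i).ne', sub_self, abs_zero]
      exact hε
  obtain ⟨δ, hδ, h3⟩ := Metric.eventually_nhds_iff.1 h2
  exact ⟨N, x, δ / 2, half_pos hδ, fun y hy => h3 ((dist_pi_lt_iff hδ).2 fun i =>
    (hy i).trans_lt (half_lt_self hδ))⟩

theorem aCub : OfCub := by
  intro hC hN c μ T0 r H q hq
  obtain ⟨ε, hε, h1⟩ := hN c μ T0 r H
  have h2 := ((hC c μ T0 r H q).1).1 hq
  obtain ⟨N, x, δ, hδ, h3⟩ := aCub_real (fun i => aeval (r i) (q * q))
    (fun i => by rw [map_mul]; exact mul_self_pos.2 (h2 i)) hε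
  obtain ⟨w, hw⟩ := (hC c μ T0 r H q).2 x δ hδ
  have h4 := h3 (fun i => aeval (r i) w) hw
  have h5 : IsCoprime c w := ((hC c μ T0 r H w).1).2 fun i h => by
    have := (h4 i).1.trans_le (min_le_right _ _)
    simp [h] at this
  have h6 : μ w = 0 := h1 w fun i => ((h4 i).1.trans_le (min_le_left _ _)).le
  have h7 : ∀ n : ℕ, μ (w ^ n) = 0 := fun n => by
    induction n with
    | zero => rw [pow_zero, ← C_1]; exact H.con 1 one_ne_zero
    | succ n ih => rw [pow_succ, H.mul _ _ h5.pow_right h5, ih, h6, add_zero]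
  have h8 : μ (q * q * w ^ N) = 0 := h1 _ fun i => by
    rw [map_mul, map_pow]
    exact (h4 i).2.le
  rw [H.mul _ _ (hq.mul_right hq) h5.pow_right, H.mul _ _ hq hq, h7] at h8
  linarith

end Pool.Agent.MP_f3836a_nt.VE.A
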