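import Pool.Agent.MP_f3836a_nt.VE.SpecA

/-! Row AEqv: equal absolute values at all conjugate primes force a root of unity. -/

set_option autoImplicit false

namespace Pool.Agent.MP_f3836a_nt.VE.A

open Polynomial

/-- division in the `p`-adic integers -/
theorem aEqv_div {p : ℕ} [Fact p.Prime] (n t : ℤ_[p]) (ht : t ≠ 0) (h : ‖n‖ ≤ ‖t‖) :
    ∃ c : ℤ_[p], n = c * t := by
  have ht' : (t : ℚ_[p]) ≠ 0 := fun h0 => ht (PadicInt.ext (by simpa using h0))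
  have hpos : 0 < ‖t‖ := norm_pos_iff.mpr ht
  refine ⟨⟨(n : ℚ_[p]) / t, ?_⟩, ?_⟩
  · rw [norm_div, PadicInt.padic_norm_e_of_padicInt, PadicInt.padic_norm_e_of_padicInt]
    exact (div_le_one hpos).mpr h
  · apply PadicInt.ext
    show (n : ℚ_[p]) = (n : ℚ_[p]) / t * t
    field_simp

theorem aEqv_sq {p : ℕ} [Fact p.Prime] (c : ℤ_[p]) (hc : ‖c‖ < 1) :
    ∃ w : ℤ_[p], w ^ 2 = 1 - 4 * c ^ 2 := by
  have h : ‖aeval (0 : ℤ_[p]) (X ^ 2 + X + C (c ^ 2) : ℤ_[p][X])‖ <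
      ‖aeval (0 : ℤ_[p]) (derivative (X ^ 2 + X + C (c ^ 2) : ℤ_[p][X]))‖ ^ 2 := by
    have h1 : aeval (0 : ℤ_[p]) (X ^ 2 + X + C (c ^ 2) : ℤ_[p][X]) = c ^ 2 := by simp
    have h2 : aeval (0 : ℤ_[p]) (derivative (X ^ 2 + X + C (c ^ 2) : ℤ_[p][X])) = 1 := by
      rw [derivative_add, derivative_add, derivative_C, derivative_X, derivative_X_pow]
      simp
    rw [h1, h2, norm_one, one_pow, norm_pow]
    have := norm_nonneg c
    nlinarith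
  obtain ⟨z, hz, -⟩ := hensels_lemma h
  have hz' : z ^ 2 + z + c ^ 2 = 0 := by simpa using hz
  exact ⟨1 + 2 * z, by linear_combination 4 * hz'⟩

/-- the local step -/
theorem aEqv_loc (A : ℕ) (a b : ℤ) (p : ℕ) [Fact p.Prime]
    (h : ∀ y0 : ℤ_[p], y0 ^ 2 = -(A : ℤ_[p]) →
      ‖(a : ℤ_[p]) + b * y0‖ = ‖(a : ℤ_[p]) + b * (-y0)‖) :
    ‖((2 * (a ^ 2 - A * b ^ 2) : ℤ) : ℤ_[p])‖ ≤ ‖((a ^ 2 + A * b ^ 2 : ℤ) : ℤ_[p])‖ := by
  by_contra hlt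
  push Not at hlt
  set t : ℤ_[p] := ((2 * (a ^ 2 - A * b ^ 2) : ℤ) : ℤ_[p]) with htd
  set n : ℤ_[p] := ((a ^ 2 + A * b ^ 2 : ℤ) : ℤ_[p]) with hnd
  have ht1 : t = 2 * ((a : ℤ_[p]) ^ 2 - A * b ^ 2) := by rw [htd]; push_cast; ring
  have hn1 : n = (a : ℤ_[p]) ^ 2 + A * b ^ 2 := by rw [hnd]; push_cast; ring
  have htpos : 0 < ‖t‖ := lt_of_le_of_lt (norm_nonneg _) hlt
  have ht0 : t ≠ 0 := norm_pos_iff.mp htpos
  obtain ⟨c, hc⟩ := aEqv_div n t ht0 hlt.le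
  have hc1 : ‖c‖ < 1 := by
    rw [hc, norm_mul] at hlt
    by_contra h1
    push Not at h1
    nlinarith
  obtain ⟨w, hw⟩ := aEqv_sq c hc1
  have h2 : ‖(2 : ℤ_[p])‖ ≤ 1 := PadicInt.norm_le_one _
  have hab : (4 * (a * b) : ℤ_[p]) ≠ 0 := by
    intro h0
    have h4 : (4 : ℤ_[p]) ≠ 0 := by norm_num
    have h5 : (a * b : ℤ_[p]) = 0 := (mul_eq_zero.mp h0).resolve_left h4
    have h6 : t ^ 2 = (2 * n) ^ 2 := by
      rw [ht1, hn1]
      linear_combination (-16 * (A : ℤ_[p]) * a * b) * h5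
    have h7 : ‖t‖ ^ 2 = (‖(2 : ℤ_[p])‖ * ‖n‖) ^ 2 := by
      rw [← norm_pow, h6, norm_pow, norm_mul]
    have h8 : ‖t‖ = ‖(2 : ℤ_[p])‖ * ‖n‖ :=
      (pow_left_inj₀ (norm_nonneg _) (by positivity) two_ne_zero).mp h7
    have := norm_nonneg n
    nlinarith
  have hkey : (t * w) ^ 2 = -(A : ℤ_[p]) * (4 * (a * b)) ^ 2 := by
    have : (t * w) ^ 2 = t ^ 2 - 4 * n ^ 2 := by rw [mul_pow, hw, hc]; ring
    rw [this, ht1, hn1]; ring
  have hle : ‖t * w‖ ≤ ‖(4 * (a * b) : ℤ_[p])‖ := by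
    have h7 : ‖t * w‖ ^ 2 ≤ ‖(4 * (a * b) : ℤ_[p])‖ ^ 2 := by
      rw [← norm_pow, hkey, norm_mul, norm_neg, norm_pow]
      have h9 : ‖(A : ℤ_[p])‖ ≤ 1 := PadicInt.norm_le_one _
      have := sq_nonneg ‖(4 * (a * b) : ℤ_[p])‖
      nlinarith
    exact (pow_le_pow_iff_left₀ (norm_nonneg _) (norm_nonneg _) two_ne_zero).mp h7
  obtain ⟨y, hy⟩ := aEqv_div (t * w) _ hab hle
  have hy2 : y ^ 2 = -(A : ℤ_[p]) := by
    rw [hy, mul_pow] at hkey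
    exact mul_right_cancel₀ (pow_ne_zero 2 hab) hkey
  have he := h y hy2
  have hn2 : n = ((a : ℤ_[p]) + b * y) * ((a : ℤ_[p]) + b * (-y)) := by
    rw [hn1]; linear_combination ((b : ℤ_[p]) ^ 2) * hy2
  have ht2 : t = ((a : ℤ_[p]) + b * y) ^ 2 + ((a : ℤ_[p]) + b * (-y)) ^ 2 := by
    rw [ht1]; linear_combination (-2 * (b : ℤ_[p]) ^ 2) * hy2
  have h10 := PadicInt.nonarchimedean (((a : ℤ_[p]) + (b : ℤ_[p]) * y) ^ 2)
    (((a : ℤ_[p]) + (b : ℤ_[p]) * (-y)) ^ 2)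
  rw [← ht2, norm_pow, norm_pow, ← he, max_self] at h10
  rw [hn2, norm_mul, ← he] at hlt
  nlinarith

theorem aEqv_dvd (n t : ℤ)
    (h : ∀ (p : ℕ) [Fact p.Prime], ‖(t : ℤ_[p])‖ ≤ ‖(n : ℤ_[p])‖) : n ∣ t := by
  rw [← Int.natAbs_dvd_natAbs, Nat.dvd_iff_prime_pow_dvd_dvd]
  intro p k hp hk
  have := Fact.mk hp
  have h1 : ((p : ℤ) ^ k) ∣ n := by
    have := Int.natCast_dvd.mpr hk
    simpa using this
  have h2 : ((p : ℤ) ^ k) ∣ t :=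
    PadicInt.norm_int_le_pow_iff_dvd.mp ((h p).trans (PadicInt.norm_int_le_pow_iff_dvd.mpr h1))
  have : ((p ^ k : ℕ) : ℤ) ∣ t := by simpa using h2
  exact Int.natCast_dvd.mp this

theorem aEqv : EqvS := by
  intro A β hA hβ h
  have hd : (-(A : ℤ)) < 0 := by omega
  have hN : β.norm = β.re ^ 2 + A * β.im ^ 2 := by rw [Zsqrtd.norm_def]; ring
  have hdv : β.norm ∣ 2 * (β.re ^ 2 - A * β.im ^ 2) := by
    rw [hN]
    apply aEqv_dvd
    intro p _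
    exact aEqv_loc A β.re β.im p (fun y0 hy => h p y0 hy)
  obtain ⟨T, hT⟩ := hdv
  have hN0 : β.norm ≠ 0 := fun h0 => hβ ((Zsqrtd.norm_eq_zero_iff hd β).mp h0)
  have hT2 : T ^ 2 ≤ 4 := by
    have h1 : (β.norm * T) ^ 2 ≤ 4 * β.norm ^ 2 := by
      rw [← hT, hN]
      have : (0 : ℤ) ≤ A * (β.re * β.im) ^ 2 := by positivity
      nlinarith
    have h2 : 0 < β.norm ^ 2 := by positivity
    by_contra h3
    push Not at h3
    nlinarith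
  have hq : (β ^ 2) ^ 2 - (T : ℤ√(-(A : ℤ))) * (β.norm : ℤ√(-(A : ℤ))) * β ^ 2 +
      (β.norm : ℤ√(-(A : ℤ))) ^ 2 = 0 := by
    have h1 : (T : ℤ√(-(A : ℤ))) * (β.norm : ℤ√(-(A : ℤ))) = β ^ 2 + (star β) ^ 2 := by
      have h2 : (T : ℤ√(-(A : ℤ))) * (β.norm : ℤ√(-(A : ℤ))) =
          ((2 * (β.re ^ 2 - A * β.im ^ 2) : ℤ) : ℤ√(-(A : ℤ))) := by
        rw [hT]; push_cast; ring
      rw [h2]
      apply Zsqrtd.ext
      · rw [Zsqrtd.re_intCast]; simp [pow_two]; ring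
      · rw [Zsqrtd.im_intCast]; simp [pow_two]; ring
    rw [h1, Zsqrtd.norm_eq_mul_conj]
    ring
  have hdom : ∀ z : ℤ√(-(A : ℤ)), z ^ 2 = 0 → z = 0 := by
    intro z hz
    have h1 : z.norm * z.norm = 0 := by rw [← Zsqrtd.norm_mul, ← pow_two, hz, Zsqrtd.norm_zero]
    exact (Zsqrtd.norm_eq_zero_iff hd z).mp (mul_self_eq_zero.mp h1)
  have hgoal : β ^ 24 = (β ^ 2) ^ 12 := by ring
  rw [hgoal, Int.cast_pow]
  generalize β ^ 2 = u at hq ⊢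
  generalize ((β.norm : ℤ) : ℤ√(-(A : ℤ))) = n at hq ⊢
  have hT3 : -2 ≤ T := by nlinarith
  have hT4 : T ≤ 2 := by nlinarith
  interval_cases T
  · have h1 : u + n = 0 := hdom _ (by push_cast at hq; linear_combination hq)
    have h2 : u = -n := by linear_combination h1
    rw [h2]; ring
  · have h1 : u ^ 3 = n ^ 3 := by push_cast at hq; linear_combination (u - n) * hq
    calc u ^ 12 = (u ^ 3) ^ 4 := by ring
      _ = n ^ 12 := by rw [h1]; ring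
  · have h1 : u ^ 2 = -n ^ 2 := by push_cast at hq; linear_combination hq
    calc u ^ 12 = (u ^ 2) ^ 6 := by ring
      _ = n ^ 12 := by rw [h1]; ring
  · have h1 : u ^ 3 = -n ^ 3 := by push_cast at hq; linear_combination (u + n) * hq
    calc u ^ 12 = (u ^ 3) ^ 4 := by ring
      _ = n ^ 12 := by rw [h1]; ring
  · have h1 : u - n = 0 := hdom _ (by push_cast at hq; linear_combination hq)
    have h2 : u = n := by linear_combination h1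
    rw [h2]

end Pool.Agent.MP_f3836a_nt.VE.A
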