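import Pool.Agent.MP_f3836a_nt.VE.SpecA

/-! Row Ev: arithmetic of the values on a fibre. -/

set_option autoImplicit false

namespace Pool.Agent.MP_f3836a_nt.VE.A

open Polynomial Finset

theorem ev_cast {R : Type} [CommRing R] (P : ℤ[X]) (d : ℕ) (a b : ℤ) (t : R) (hd : P.natDegree ≤ d)
    (ht : (a : R) = (b : R) * t) : ((hv P d a b : ℤ) : R) = (b : R) ^ d * aeval t P := by
  rw [aeval_eq_sum_range' (Nat.lt_succ_of_le hd), Finset.mul_sum]
  unfold hv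
  push_cast
  refine Finset.sum_congr rfl fun i hi => ?_
  have hi' : i ≤ d := Nat.lt_succ_iff.mp (Finset.mem_range.mp hi)
  obtain ⟨j, rfl⟩ := Nat.exists_eq_add_of_le hi'
  rw [ht, Nat.add_sub_cancel_left, zsmul_eq_mul]
  ring

theorem ev_int {R : Type} [CommRing R] (P : ℤ[X]) (t : ℤ) :
    aeval (t : R) P = ((P.eval t : ℤ) : R) := by
  have := aeval_algebraMap_apply_eq_algebraMap_eval (A := R) t P
  simpa using this

theorem ev_ng (f A B : ℤ[X]) (m : ℕ) (hf : f.natDegree = 3) (h : Mon m A B) :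
    (Ng f A B).Monic ∧ (Ng f A B).natDegree = 2 * m := by
  obtain ⟨hm, hA, hB⟩ := h
  have h1 : (A ^ 2).natDegree = 2 * m := by rw [hm.natDegree_pow, hA]
  have h2 : (f * B ^ 2).natDegree < (A ^ 2).natDegree := by
    have h3 : (B ^ 2).natDegree ≤ 2 * B.natDegree := natDegree_pow_le
    have h4 : (f * B ^ 2).natDegree ≤ f.natDegree + (B ^ 2).natDegree := natDegree_mul_le
    omega
  unfold Ng
  exact ⟨(hm.pow 2).sub_of_left (degree_lt_degree h2),
    (natDegree_sub_eq_left_of_natDegree_lt h2).trans h1⟩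

theorem ev_norm (f A1 B1 : ℤ[X]) (m : ℕ) (a k : ℤ) (A : ℕ) (hf : f.natDegree = 3) (hm : Mon m A1 B1)
    (hk0 : 0 < k) (hA : (A : ℤ) = -hv f 3 a (k ^ 2)) :
    (bt m A1 B1 a k A).norm = hv (Ng f A1 B1) (2 * m) a (k ^ 2) := by
  have hk : (k : ℚ) ≠ 0 := by exact_mod_cast hk0.ne'
  have ht : (a : ℚ) = ((k ^ 2 : ℤ) : ℚ) * ((a : ℚ) / (k : ℚ) ^ 2) := by
    push_cast
    field_simp
  have e1 := ev_cast A1 m a (k ^ 2) _ hm.2.1.le ht
  have e2 := ev_cast B1 (m - 2) a (k ^ 2) _ (by have := hm.2.2; omega) ht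
  have e3 := ev_cast f 3 a (k ^ 2) _ hf.le ht
  have e4 := ev_cast _ (2 * m) a (k ^ 2) _ (ev_ng f _ _ m hf hm).2.le ht
  have e5 : ((A : ℤ) : ℚ) = -((hv f 3 a (k ^ 2) : ℤ) : ℚ) := by
    rw [hA, Int.cast_neg]
  obtain ⟨n, hn⟩ : ∃ n, m = n + 2 := ⟨m - 2, by have := hm.2.2; omega⟩
  have hq : (((bt m A1 B1 a k A).norm : ℤ) : ℚ) =
      ((hv (Ng f A1 B1) (2 * m) a (k ^ 2) : ℤ) : ℚ) := by
    rw [e4, Zsqrtd.norm_def]
    simp only [bt, Int.cast_sub, Int.cast_mul, Int.cast_neg, e1, e2, e5, e3, Ng, map_sub, map_mul,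
      map_pow]
    generalize aeval ((a : ℚ) / (k : ℚ) ^ 2) A1 = u
    generalize aeval ((a : ℚ) / (k : ℚ) ^ 2) B1 = v
    rw [hn, Nat.add_sub_cancel]
    push_cast
    ring
  exact_mod_cast hq

theorem aEv : EvS := by
  refine ⟨ev_ng, fun P d a k hd => ⟨?_, fun hk => ?_⟩,
    fun f A1 B1 m a k A hf hm hk0 hA => ⟨ev_norm f A1 B1 m a k A hf hm hk0 hA, fun z hz ho hk => ?_⟩⟩
  · have := ev_cast P d a 1 a hd (by simp)
    simpa [ev_int] using this
  · have hk' : (k : ℝ) ≠ 0 := by exact_mod_cast hk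
    have := ev_cast P d a (k ^ 2) ((a : ℝ) / (k : ℝ) ^ 2) hd (by push_cast; field_simp)
    simpa using this
  · have hp := hz.1
    have : Fact z.p.Prime := ⟨hp⟩
    have hk' : (k : ZMod z.p) ≠ 0 := fun h0 => hk ((ZMod.intCast_zmod_eq_zero_iff_dvd _ _).mp h0)
    have hon : (a : ZMod z.p) = ((k ^ 2 : ℤ) : ZMod z.p) * (((z.t : ℕ) : ℤ) : ZMod z.p) := by
      have h1 := (ZMod.intCast_zmod_eq_zero_iff_dvd _ _).mpr ho
      rw [Int.cast_sub, Int.cast_mul, sub_eq_zero] at h1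
      exact h1.symm
    have hr : ((k : ZMod z.p) ^ 3 * (z.y : ZMod z.p)) * ((k : ZMod z.p) ^ 3 * (z.y : ZMod z.p)) =
        ((-(A : ℤ) : ℤ) : ZMod z.p) := by
      have e3 := ev_cast f 3 a (k ^ 2) _ hf.le hon
      have h1 := (ZMod.intCast_zmod_eq_zero_iff_dvd _ _).mpr hz.2.2.2.2.2
      rw [Int.cast_sub, sub_eq_zero] at h1
      rw [hA, neg_neg, e3, ev_int, ← h1]
      push_cast
      ring
    push_cast at hr
    refine ⟨⟨hp, fun hd => ?_, ?_⟩, fun h0 => ?_⟩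
    · rcases (Nat.Prime.dvd_mul hp).mp hd with h2 | hA'
      · exact hz.2.1 ((Nat.prime_dvd_prime_iff_eq hp Nat.prime_two).mp h2)
      · have hy : (z.y : ZMod z.p) ≠ 0 := by
          intro h0
          exact absurd (Nat.le_of_dvd hz.2.2.2.1 ((ZMod.natCast_eq_zero_iff _ _).mp h0))
            (not_le.mpr hz.2.2.2.2.1)
        rw [(ZMod.natCast_eq_zero_iff _ _).mpr hA', neg_zero] at hr
        exact mul_ne_zero (pow_ne_zero 3 hk') hy (mul_self_eq_zero.mp hr)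
    · rw [← ZMod.intCast_zmod_eq_zero_iff_dvd]
      push_cast
      linear_combination hr
    · have e1 := ev_cast A1 m a (k ^ 2) _ hm.2.1.le hon
      have e2 := ev_cast B1 (m - 2) a (k ^ 2) _ (by have := hm.2.2; omega) hon
      rw [ev_int] at e1 e2
      obtain ⟨n, hn⟩ : ∃ n, m = n + 2 := ⟨m - 2, by have := hm.2.2; omega⟩
      have h1 := (ZMod.intCast_zmod_eq_zero_iff_dvd _ _).mpr h0
      unfold In
      rw [← ZMod.intCast_zmod_eq_zero_iff_dvd]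
      simp only [bt, Int.cast_mul, Int.cast_sub, Int.cast_add, e1, e2] at h1 ⊢
      generalize ((A1.eval (z.t : ℤ) : ℤ) : ZMod z.p) = u at h1 ⊢
      generalize ((B1.eval (z.t : ℤ) : ℤ) : ZMod z.p) = v at h1 ⊢
      rw [hn, Nat.add_sub_cancel]
      push_cast at h1 ⊢
      linear_combination ((k : ZMod z.p) ^ 2) ^ (n + 2) * h1

end Pool.Agent.MP_f3836a_nt.VE.A
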