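import Pool.Agent.MP_f3836a_nt.VE.SpecA

/-! The pairing vanishes on all rational fibres. -/

set_option autoImplicit false

namespace Pool.Agent.MP_f3836a_nt.VE.A

open Polynomial

theorem fibres_unit {R ι : Type} [CommRing R] [IsDomain R] {S : Sy R ι} (hS : S.Ok) {c h : R}
    (hc : IsUnit c) (hz : S.Z (c * h)) : S.Z h := by
  by_cases h0 : h = 0
  · subst h0
    rwa [mul_zero] at hz
  intro u hu
  by_cases u0 : u = 0
  · subst u0
    exact hS.L_unit_left (isCoprime_zero_right.1 hu) _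
  have hcu : IsCoprime u c := by
    obtain ⟨w, rfl⟩ := hc
    exact ⟨0, (w⁻¹ : Rˣ), by simp⟩
  have h1 : IsCoprime (c * h) u := IsCoprime.mul_left hcu.symm hu
  have h2 := hz u h1
  rw [hS.L_symm (mul_ne_zero hc.ne_zero h0) u0 h1, hS.L_mul u0 hcu hu.symm, hS.L_unit u0 hc,
    zero_add] at h2
  rw [hS.L_symm h0 u0 hu, h2]

theorem aFibres : OfFibres := by
  intro hCore hPa hReal hScal hFib hEv hHs0 hIds R ι _ _ _ x y f S hM hS
  refine hReal x y f S hM hS fun t ht => ?_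
  obtain ⟨b, F, t0, A0, hb, hCrv, hneg, ht0, hM'⟩ := hScal x y f t hM ht
  have hA : (A0 : ℤ) = -hv F 3 t0 (1 ^ 2) := by
    rw [one_pow, (hEv.2.1 F 3 t0 1 hCrv.deg.le).1, hCrv.val, neg_neg]
  obtain ⟨hHom, -, hZ⟩ := hFib _ _ F S t0 1 A0 hM' hS one_pos (lt_trans one_pos hCrv.one) hA
  have hz := hZ (hHs0 A0 _ hCrv.one hHom fun p hp y0 hy => by
    obtain ⟨J', hJ⟩ := hCore F t0 A0 p hCrv hp.out
    obtain ⟨m, J, e, e', σ, As, Bs, ϖ, hP, hSS, hne⟩ := hPa F t0 A0 p y0 hCrv hy J'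
    obtain ⟨ψ, ψ0, φ, c, hI⟩ := hIds _ _ F S t0 A0 p J' m J e e' σ As Bs ϖ hM' hS hCrv hneg hp.out
      hP hSS
    exact ⟨ϖ, e', hP.nrm, hne, neg_eq_zero.1 (hJ m J e e' As Bs ϖ hP ψ ψ0 φ c _ hI)⟩)
  have he : ((1 : ℤ) : R) ^ 2 * (algebraMap ℚ R (b ^ 2) * x) - (t0 : R) =
      algebraMap ℚ R (b ^ 2) * (x - algebraMap ℚ R t) := by
    have h1 : (t0 : R) = algebraMap ℚ R (b ^ 2) * algebraMap ℚ R t := by
      rw [← map_mul, ← ht0, map_intCast]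
    rw [h1]
    push_cast
    ring
  rw [he] at hz
  exact fibres_unit hS ((IsUnit.mk0 _ (pow_ne_zero 2 hb)).map (algebraMap ℚ R)) hz

end Pool.Agent.MP_f3836a_nt.VE.A
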