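import Pool.Agent.MP_f3836a_nt.VE.SpecC

/-! Basic facts on ray classes of an imaginary quadratic order. -/

set_option autoImplicit false

namespace Pool.Agent.MP_f3836a_nt.VE.BC

open Finset Pool.Agent.MP_c481b3_nt.H28.W Pool.Agent.MP_c481b3_nt.H63

namespace CBas

variable {A Q : ℕ}

theorem nz [h : Fact (1 < A)] {c : O A} : c.norm ≠ 0 ↔ c ≠ 0 :=
  not_congr (Zsqrtd.norm_eq_zero_iff (by have := h.out; omega) c)

theorem mem [Fact (1 < A)] (c : O A) : Ideal.span {c} ∈ MQ A Q ↔ c ≠ 0 ∧ Cp Q c := by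
  constructor
  · rintro ⟨n, h0, hn, h⟩
    obtain rfl := h.unique (hasN_span c)
    exact ⟨nz.1 (Int.natAbs_ne_zero.1 h0), hn⟩
  · rintro ⟨h0, hn⟩
    exact ⟨_, Int.natAbs_ne_zero.2 (nz.2 h0), hn, hasN_span c⟩

theorem top_mem : (⊤ : Ideal (O A)) ∈ MQ A Q := by
  rw [← Ideal.one_eq_top]; exact one_mem _

theorem io_one [Fact (1 < A)] (c : O A) : io 1 c = 0 := by
  by_cases h : Ideal.span {c} ∈ MQ A 1
  · rw [← cI_top A 1, io, cI_eq h top_mem]
    exact ⟨1, c, by simp, nz.2 ((mem c).1 h).1, by simp, by simp, by simp⟩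
  · rw [io, cI, dif_neg h]

theorem ne0 {c : O A} (hQ : Q ≠ 1) (h : Cp Q c) : c ≠ 0 := by
  rintro rfl
  simp [Cp] at h
  exact hQ h

theorem inv [Fact (1 < A)] {c : O A} (h0 : c ≠ 0) (h : Cp Q c) :
    ∃ e : O A, e ≠ 0 ∧ (Q : O A) ∣ e * c - 1 := by
  have n0 : c.norm.natAbs ≠ 0 := Int.natAbs_ne_zero.2 (nz.2 h0)
  obtain ⟨m, hm0, e⟩ : ∃ m : ℕ, m ≠ 0 ∧ (Q : ℤ) ∣ (c.norm.natAbs * m : ℕ) - 1 := by
    rcases Nat.eq_zero_or_pos Q with rfl | hQ
    · exact ⟨1, one_ne_zero, by rw [(Nat.coprime_zero_right _).1 h]; simp⟩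
    · refine ⟨c.norm.natAbs ^ (Q.totient - 1), pow_ne_zero _ n0, ?_⟩
      rw [← pow_succ', Nat.sub_add_cancel (Nat.totient_pos.2 hQ)]
      exact_mod_cast (Nat.ModEq.pow_totient h).symm.dvd
  refine ⟨star c * m, mul_ne_zero (star_ne_zero.2 h0) (Nat.cast_ne_zero.2 hm0), ?_⟩
  rw [Nat.cast_mul, norm_nat] at e
  have := map_dvd (Int.castRingHom (O A)) e
  simp only [eq_intCast, Int.cast_natCast, Int.cast_sub, Int.cast_mul, Int.cast_one] at this
  rwa [Zsqrtd.norm_eq_mul_conj, show c * star c * m = star c * m * c by ring] at this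

theorem cp_congr {c c' : O A} (h : Cp Q c) (hd : (Q : O A) ∣ c' - c) : Cp Q c' := by
  obtain ⟨v, hv⟩ := hd
  obtain rfl : c' = c + Q * v := by rw [← hv]; ring
  unfold Cp at *
  rw [← Nat.isCoprime_iff_coprime, norm_nat] at *
  have : (c + Q * v).norm = c.norm + Q * (2 * c.re * v.re + Q * v.re ^ 2 +
      A * (2 * c.im * v.im + Q * v.im ^ 2)) := by
    simp only [norm_O]; simp; ring
  rw [this]
  exact h.add_mul_left_left _

theorem io_congr [Fact (1 < A)] {c c' : O A} (h : Cp Q c) (hd : (Q : O A) ∣ c' - c) :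
    io Q c' = io Q c := by
  by_cases hQ : Q = 1
  · subst hQ; rw [io_one, io_one]
  have h' := cp_congr h hd
  obtain ⟨e, e0, he⟩ := inv (ne0 hQ h) h
  rw [io, io, cI_eq ((mem _).2 ⟨ne0 hQ h', h'⟩) ((mem _).2 ⟨ne0 hQ h, h⟩)]
  refine ⟨e * c, e * c', nz.2 (mul_ne_zero e0 (ne0 hQ h)), nz.2 (mul_ne_zero e0 (ne0 hQ h')), he,
    ?_, ?_⟩
  · rw [show e * c' - 1 = e * c - 1 + e * (c' - c) by ring]
    exact he.add (hd.mul_left e)
  · rw [Ideal.span_singleton_mul_span_singleton, Ideal.span_singleton_mul_span_singleton,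
      mul_right_comm]

theorem four [Fact (1 < A)] {I : Ideal (O A)} (hI : I ∈ MQ A Q) {c : O A} (h0 : c ≠ 0)
    (h : Cp Q c) (e : cI Q I = io Q c) : ∃ β : O A, (Q : O A) ∣ β - c ∧ I = Ideal.span {β} := by
  obtain ⟨a, b, ha, -, h1, h2, e⟩ := (cI_eq hI ((mem c).2 ⟨h0, h⟩)).1 e
  rw [Ideal.span_singleton_mul_span_singleton] at e
  obtain ⟨β, -, hβ⟩ := Ideal.mem_span_singleton_mul.1 (e ▸ Ideal.mem_span_singleton_self (b * c))
  refine ⟨β, ?_, ?_⟩
  · rw [show β - c = (b - 1) * c - (a - 1) * β by linear_combination hβ]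
    exact (h2.mul_right c).sub (h1.mul_right β)
  · rw [← hβ, ← Ideal.span_singleton_mul_span_singleton] at e
    exact (Ideal.span_singleton_mul_right_inj (nz.1 ha)).1 e

variable {ss : Pt → ℤ}

theorem IM_cons (z : Pt) (M : Multiset Pt) : IM A ss (z ::ₘ M) = Jd z.p (ss z) * IM A ss M := by
  simp [IM]

theorem nT_cons (z : Pt) (M : Multiset Pt) : nT (z ::ₘ M) = z.p * nT M := by simp [nT]

theorem hJ {z : Pt} (h : Gd A ss z) : HasN (Jd z.p (ss z) : Ideal (O A)) z.p := by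
  refine hasN_Jd h.2.2 ((ZMod.isUnit_iff_coprime _ _).2 ?_)
  have := (Nat.Prime.coprime_iff_not_dvd h.1).2 h.2.1
  exact Nat.Coprime.coprime_dvd_right ⟨A, by ring⟩ (this.pow_right 2)

theorem hM (M : Multiset Pt) (h : ∀ z ∈ M, Gd A ss z) : HasN (IM A ss M) (nT M) ∧ nT M ≠ 0 := by
  induction M using Multiset.induction_on with
  | empty => simpa [IM, nT] using hasN_top
  | cons z M ih =>
    have h1 := h z (Multiset.mem_cons_self _ _)
    have h2 := ih fun y hy => h y (Multiset.mem_cons_of_mem hy)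
    rw [IM_cons, nT_cons]
    exact ⟨(hJ h1).mul h2.1, mul_ne_zero h1.1.ne_zero h2.2⟩

theorem hC (M : Multiset Pt) (h : ∀ z ∈ M, Gd A ss z) (hc : (nT M).Coprime Q) :
    cM A Q ss M = cI Q (IM A ss M) := by
  induction M using Multiset.induction_on with
  | empty => simp [IM, cM, cI_top]
  | cons z M ih =>
    have h1 := h z (Multiset.mem_cons_self _ _)
    have h2 : ∀ y ∈ M, Gd A ss y := fun y hy => h y (Multiset.mem_cons_of_mem hy)
    rw [nT_cons, Nat.coprime_mul_iff_left] at hc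
    rw [IM_cons, cI_mul ⟨_, h1.1.ne_zero, hc.1, hJ h1⟩ ⟨_, (hM M h2).2, hc.2, (hM M h2).1⟩,
      ← ih h2 hc.2]
    simp [cM]

theorem hIn (β : O A) (M : Multiset Pt) (h : ∀ z ∈ M, Gd A ss z) (hn : Nd M)
    (hβ : ∀ z ∈ M, In A ss β z) : β ∈ IM A ss M := by
  induction M using Multiset.induction_on with
  | empty => simp [IM]
  | cons z M ih =>
    have h1 := h z (Multiset.mem_cons_self _ _)
    have h2 : ∀ y ∈ M, Gd A ss y := fun y hy => h y (Multiset.mem_cons_of_mem hy)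
    rw [Nd, Multiset.map_cons, Multiset.nodup_cons] at hn
    have h3 : z.p.Coprime (nT M) := by
      refine Nat.coprime_multiset_prod_right_iff.2 fun q hq => ?_
      obtain ⟨y, hy, rfl⟩ := Multiset.mem_map.1 hq
      exact (Nat.coprime_primes h1.1 (h2 y hy).1).2 fun e => hn.1 (e ▸ hq)
    have h4 : Jd z.p (ss z) ⊔ IM A ss M = ⊤ := by
      obtain ⟨u, v, e⟩ := Nat.isCoprime_iff_coprime.2 h3
      have e' := congrArg (Int.cast : ℤ → O A) e
      push_cast at e'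
      rw [Ideal.eq_top_iff_one, ← e']
      exact Submodule.add_mem_sup (Ideal.mul_mem_left _ _ (hJ h1).mem)
        (Ideal.mul_mem_left _ _ (hM M h2).1.mem)
    rw [IM_cons, Ideal.mul_eq_inf_of_coprime h4]
    exact ⟨(mem_Jd h1.2.2).2 (hβ z (Multiset.mem_cons_self _ _)),
      ih h2 hn.2 fun y hy => hβ y (Multiset.mem_cons_of_mem hy)⟩

theorem hE [Fact (1 < A)] (M : Multiset Pt) (h : ∀ z ∈ M, Gd A ss z) (β : O A) :
    EvF A ss β M ↔ Nd M ∧ Ideal.span {β} = IM A ss M := by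
  obtain ⟨h1, h2⟩ := hM M h
  constructor
  · rintro ⟨a1, a2, a3⟩
    obtain ⟨J, e⟩ := h1.exists_mul h2 ((Ideal.span_singleton_le_iff_mem _).2 (hIn β M h a1 a2))
    have a4 := hasN_span β
    rw [← a3, Int.natAbs_natCast, e, ← mul_one (nT M)] at a4
    rw [(h1.of_mul h2 a4).eq_top, Ideal.mul_top] at e
    exact ⟨a1, e⟩
  · rintro ⟨a1, a2⟩
    refine ⟨a1, fun z hz => (mem_Jd (h z hz).2.2).1 ?_, ?_⟩
    · obtain ⟨M', rfl⟩ := Multiset.exists_cons_of_mem hz
      have a3 := Ideal.mem_span_singleton_self β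
      rw [a2, IM_cons] at a3
      exact Ideal.mul_le_left (I := Jd z.p (ss z)) (J := IM A ss M') a3
    · rw [h1.unique (a2 ▸ hasN_span β), norm_nat]

theorem hcj (M : Multiset Pt) (h : ∀ z ∈ M, Gd A ss z)
    (h' : ∀ z ∈ M, (z.p : ℤ) ∣ ss z.cj + ss z) : IM A ss (M.map Pt.cj) = cj (IM A ss M) := by
  induction M using Multiset.induction_on with
  | empty => simp [IM, cj, Ideal.map_top]
  | cons z M ih =>
    have h1 := (h z (Multiset.mem_cons_self _ _)).2.2
    obtain ⟨k, hk⟩ := h' z (Multiset.mem_cons_self _ _)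
    rw [Multiset.map_cons, IM_cons, IM_cons, cj_mul, cj_Jd h1,
      ih (fun y hy => h y (Multiset.mem_cons_of_mem hy))
        fun y hy => h' y (Multiset.mem_cons_of_mem hy)]
    congr 1
    have e : ss z.cj = z.p * k - ss z := by linarith
    have h2 : (z.p : ℤ) ∣ ss z.cj ^ 2 + A := by
      rw [e, show (z.p * k - ss z) ^ 2 + (A : ℤ) = ss z ^ 2 + A + z.p * (k * (z.p * k - 2 * ss z))
        by ring]
      exact h1.add (dvd_mul_right _ _)
    ext w
    change w ∈ Jd z.p (ss z.cj) ↔ _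
    rw [mem_Jd h2, mem_Jd (dvd_neg_b h1), e,
      show w.re - (z.p * k - ss z) * w.im = w.re - -ss z * w.im - z.p * (k * w.im) by ring]
    exact dvd_sub_left (dvd_mul_right _ _)

end CBas

open CBas in
theorem rBas : BasS := by
  intro A Q ss hA
  have : Fact (1 < A) := ⟨hA⟩
  refine ⟨mem, fun c c' h hd => ⟨cp_congr h hd, io_congr h hd⟩, fun c c' h h' => ⟨?_, ?_⟩,
    fun I hI c h => ⟨fun e => ?_, ?_⟩, fun I hI n h => ?_, fun M M' => by simp [IM, cM, nT],
    fun β γ => ?_, fun M h => ⟨(hM M h).1, (hM M h).2,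
      fun hc => ⟨⟨_, (hM M h).2, hc, (hM M h).1⟩, hC M h hc⟩, hE M h, hcj M h⟩⟩
  · rw [Cp, Zsqrtd.norm_mul, Int.natAbs_mul]
    exact Nat.Coprime.mul_left h h'
  · by_cases hQ : Q = 1
    · subst hQ; simp [io_one]
    · rw [io, ← Ideal.span_singleton_mul_span_singleton,
        cI_mul ((mem _).2 ⟨ne0 hQ h, h⟩) ((mem _).2 ⟨ne0 hQ h', h'⟩), io, io]
  · by_cases hQ : Q = 1
    · subst hQ
      obtain ⟨β, -, hβ⟩ := four hI one_ne_zero (by simp [Cp]) (by rw [e, io_one, io_one])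
      exact ⟨β, by simp, hβ⟩
    · exact four hI (ne0 hQ h) h e
  · rintro ⟨β, hβ, rfl⟩
    exact io_congr h hβ
  · have h' : cj I ∈ MQ A Q := by
      obtain ⟨m, a1, a2, a3⟩ := hI
      exact ⟨m, a1, a2, a3.conj⟩
    exact ⟨h', by rw [← cI_mul hI h', h, io]⟩
  · have s : √(A : ℝ) * √A = A := Real.mul_self_sqrt (Nat.cast_nonneg A)
    have s0 : √(A : ℝ) ≠ 0 := (Real.sqrt_pos.2 (by exact_mod_cast (by omega : 0 < A))).ne'
    refine ⟨?_, ?_, ?_, ?_, fun e => ?_⟩
    · apply Complex.ext <;> simp [emb, add_mul]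
    · apply Complex.ext <;> simp [emb]
      · linear_combination (β.im * γ.im : ℝ) * s
      · ring
    · rw [Complex.sq_norm, Complex.normSq_apply, norm_O]
      simp only [emb]
      push_cast
      linear_combination (β.im ^ 2 : ℝ) * s
    · apply Complex.ext <;> simp [emb]
    · have e1 := congrArg Complex.re e
      have e2 := congrArg Complex.im e
      simp only [emb, Int.cast_inj, mul_left_inj' s0] at e1 e2
      exact Zsqrtd.ext e1 e2

end Pool.Agent.MP_f3836a_nt.VE.BC
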