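import Pool.Agent.MP_f3836a_nt.VE.SpecC

/-! Part C: the class number. -/

set_option autoImplicit false

namespace Pool.Agent.MP_f3836a_nt.VE.BC

open Finset Pool.Agent.MP_c481b3_nt.H28.W

namespace CCln

theorem rep (hR : RedS) {A : ℕ} (hA : 1 < A) (g : RC A 1) : ∃ a ∈ Icc 1 (Nat.sqrt (4 * A)),
    ∃ r ∈ (range a).filter fun b => a ∣ b ^ 2 + A, cI 1 (Jd a r : Ideal (O A)) = g := by
  have : Fact (1 < A) := ⟨hA⟩
  obtain ⟨I, hI, rfl⟩ := cI_surj g
  obtain ⟨n, n0, -, hn⟩ := id hI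
  obtain ⟨e1, e2, a, b, c, h1, h2, h3, -, h4, h5, h6, -⟩ := hR A n I hA n0 hn
  have hA' : (1 : ℤ) < A := by exact_mod_cast hA
  have a0 : 0 < a := by
    rcases (show 0 ≤ a by have := abs_nonneg b; omega).eq_or_lt with e | e
    · rw [← e] at h4
      nlinarith [sq_nonneg b]
    · exact e
  lift a to ℕ using a0.le
  have a1 : 0 < a := by exact_mod_cast a0
  have hd : (a : ℤ) ∣ b ^ 2 + A := ⟨c, h4.symm⟩
  obtain ⟨r, hr⟩ : ∃ r : ℕ, (r : ℤ) = b % a := ⟨_, Int.toNat_of_nonneg (Int.emod_nonneg b a0.ne')⟩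
  have hb : (a : ℤ) ∣ b - r := hr ▸ Int.dvd_self_sub_emod
  have hd' : (a : ℤ) ∣ (r : ℤ) ^ 2 + A := by
    have := hd.sub (hb.mul_right (b + r))
    rwa [show b ^ 2 + A - (b - r) * (b + r) = (r : ℤ) ^ 2 + A by ring] at this
  have e : (Jd a r : Ideal (O A)) = Jd a b := by
    ext z
    rw [mem_Jd hd, mem_Jd hd', show z.re - r * z.im = z.re - b * z.im + (b - r) * z.im by ring]
    exact dvd_add_left (hb.mul_right _)
  have h7 : star e1 * e1 = n * (a : O A) := by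
    rw [mul_comm, ← Zsqrtd.norm_eq_mul_conj, h2]
    push_cast
    rfl
  have key : Ideal.span {star e1} * I = Ideal.span {(n : O A)} * Jd a b := by
    ext z
    simp only [Ideal.mem_span_singleton_mul, h1, Jd]
    constructor
    · rintro ⟨_, ⟨x, y, rfl⟩, rfl⟩
      exact ⟨_, Ideal.mem_span_pair.2 ⟨x, y, rfl⟩, by linear_combination -x * h7 - y * h3⟩
    · rintro ⟨w, hw, rfl⟩
      obtain ⟨x, hx⟩ := (mem_Jd hd).1 hw
      have hw' : w = x * (a : O A) + w.im * (⟨b, 1⟩ : O A) := by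
        ext
        · simp
          linear_combination hx
        · simp
      exact ⟨_, ⟨x, w.im, rfl⟩, by linear_combination x * h7 + w.im * h3 - n * hw'⟩
  have hJ : HasN (Jd a b : Ideal (O A)) a := by
    refine (hasN_nat n).of_mul (mul_ne_zero n0 n0) ?_
    have := (hasN_span (star e1)).mul hn
    rwa [key, Zsqrtd.norm_conj, h2, ← Nat.cast_mul, Int.natAbs_natCast, mul_right_comm] at this
  refine ⟨a, mem_Icc.2 ⟨a1, Nat.le_sqrt'.2 ?_⟩, r, mem_filter.2 ⟨mem_range.2 ?_, ?_⟩, ?_⟩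
  · have h8 : (2 * |b|) ^ 2 ≤ (a : ℤ) ^ 2 := pow_le_pow_left₀ (by positivity) h5 2
    rw [mul_pow, sq_abs] at h8
    have h9 : (a : ℤ) ^ 2 ≤ 4 * A := by nlinarith [mul_le_mul_of_nonneg_left h6 a0.le]
    exact_mod_cast h9
  · have := Int.emod_lt_of_pos b a0
    omega
  · exact_mod_cast hd'
  · rw [e]
    refine ((cI_eq hI ⟨a, a1.ne', by simp, hJ⟩).2 ⟨star e1, n, ?_, ?_, by simp, by simp, key⟩).symm
    · rw [Zsqrtd.norm_conj, h2]
      positivity
    · simpa using n0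

end CCln

theorem rCln : OfCln := by
  intro _ hR A hA
  let T := (Icc 1 (Nat.sqrt (4 * A))).sigma fun a => (range a).filter fun b => a ∣ b ^ 2 + A
  have hs : Function.Surjective fun p : T => cI 1 (Jd p.1.1 p.1.2 : Ideal (O A)) := fun g => by
    obtain ⟨a, ha, r, hr, e⟩ := CCln.rep hR hA g
    exact ⟨⟨⟨a, r⟩, mem_sigma.2 ⟨ha, hr⟩⟩, e⟩
  refine ⟨Finite.of_surjective _ hs, (Nat.card_le_card_of_surjective _ hs).trans_eq ?_⟩
  rw [Nat.card_eq_finsetCard, card_sigma]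
  rfl

end Pool.Agent.MP_f3836a_nt.VE.BC
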