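import Pool.Agent.MP_f3836a_nt.VE.SpecC

/-! A reduced basis of an invertible ideal. -/

set_option autoImplicit false

namespace Pool.Agent.MP_f3836a_nt.VE.BC

open Pool.Agent.MP_c481b3_nt.H28.W Ideal

namespace CRed

variable {A n : ℕ} {I : Ideal (O A)} {e1 e2 : O A}

/-- a pair of generators of the additive group -/
def Gn (I : Ideal (O A)) (e1 e2 : O A) : Prop := ∀ z, z ∈ I ↔ ∃ x y : ℤ, z = x * e1 + y * e2

theorem Gn.swap (h : Gn I e1 e2) : Gn I e2 e1 := fun z => (h z).trans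
  ⟨fun ⟨x, y, e⟩ => ⟨y, x, e.trans (add_comm _ _)⟩, fun ⟨x, y, e⟩ => ⟨y, x, e.trans (add_comm _ _)⟩⟩

theorem Gn.mem (h : Gn I e1 e2) : e1 ∈ I := (h _).2 ⟨1, 0, by simp⟩

theorem Gn.shift (h : Gn I e1 e2) {d : ℤ} (hd : d * d = 1) (t : ℤ) : Gn I e1 (d * e2 + t * e1) := by
  have e : (d : O A) * d = 1 := by exact_mod_cast congrArg (Int.cast : ℤ → O A) hd
  refine fun z => (h z).trans ⟨fun ⟨x, y, q⟩ => ⟨x - y * d * t, y * d, ?_⟩,
    fun ⟨x, y, q⟩ => ⟨x + y * t, y * d, ?_⟩⟩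
  · push_cast
    linear_combination q - y * e2 * e
  · push_cast
    linear_combination q

theorem gen (I : Ideal (O A)) : ∃ e1 e2, Gn I e1 e2 := by
  let T : Ideal ℤ :=
    { carrier := {y | ∃ z ∈ I, z.im = y}
      add_mem' := by
        rintro _ _ ⟨z, hz, rfl⟩ ⟨w, hw, rfl⟩
        exact ⟨z + w, I.add_mem hz hw, rfl⟩
      zero_mem' := ⟨0, I.zero_mem, rfl⟩
      smul_mem' := by
        rintro c _ ⟨z, hz, rfl⟩
        exact ⟨c * z, I.mul_mem_left _ hz, by simp⟩ }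
  obtain ⟨w, hw, hk⟩ := Submodule.IsPrincipal.generator_mem T
  have hm : ((Submodule.IsPrincipal.generator (I.comap (Int.castRingHom (O A))) : ℤ) : O A) ∈ I :=
    Submodule.IsPrincipal.generator_mem (I.comap (Int.castRingHom (O A)))
  refine ⟨_, w, fun z => ⟨fun hz => ?_, fun ⟨x, y, e⟩ =>
    e ▸ I.add_mem (I.mul_mem_left _ hm) (I.mul_mem_left _ hw)⟩⟩
  obtain ⟨y, hy⟩ := (Submodule.IsPrincipal.mem_iff_generator_dvd T).1 ⟨z, hz, rfl⟩
  have e : (((z - y * w).re : ℤ) : O A) = z - y * w := by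
    ext
    · rfl
    · simp [hy, hk, mul_comm]
  obtain ⟨x, hx⟩ := (Submodule.IsPrincipal.mem_iff_generator_dvd
    (I.comap (Int.castRingHom (O A))) (x := (z - y * w).re)).1
    (show (((z - y * w).re : ℤ) : O A) ∈ I from e.symm ▸ I.sub_mem hz (I.mul_mem_left _ hw))
  refine ⟨x, y, ?_⟩
  rw [hx, Int.cast_mul] at e
  linear_combination -e

theorem dat (hn : n ≠ 0) (hI : HasN I n) (h : Gn I e1 e2) : ∃ a b c d : ℤ, e1.norm = n * a ∧
    star e1 * e2 = n * (⟨b, d⟩ : O A) ∧ e2.norm = n * c ∧ d * d = 1 ∧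
    ∃ u v w : ℤ, u * a + v * c + w * (2 * b) = 1 := by
  have n0 : (n : ℤ) ≠ 0 := Int.natCast_ne_zero.2 hn
  have k : ∀ z ∈ I, ∀ w ∈ I, star z * w ∈ span {(n : O A)} := fun z hz w hw => by
    rw [← hI, mul_comm (star z)]
    exact mul_mem_mul hw (mem_cj.2 (by rwa [star_star]))
  have k1 : ∀ z ∈ I, (n : ℤ) ∣ z.norm := fun z hz => by
    have := (mem_nat.1 (k z hz z hz)).1
    rwa [mul_comm, ← Zsqrtd.norm_eq_mul_conj] at this
  obtain ⟨a, ha⟩ := k1 _ h.mem
  obtain ⟨c, hc⟩ := k1 _ h.swap.mem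
  obtain ⟨⟨b, d⟩, hb⟩ := mem_span_singleton.1 (k _ h.mem _ h.swap.mem)
  have key : ∀ z ∈ span {(n : O A)}, ∃ u v w w' : ℤ,
      z.re = n * (u * a + v * c + (w + w') * b) ∧ z.im = n * ((w - w') * d) := fun z hz => by
    rw [← hI] at hz
    refine Submodule.mul_induction_on hz (fun p hp q hq => ?_) ?_
    · obtain ⟨x, y, rfl⟩ := (h p).1 hp
      obtain ⟨x', y', e⟩ := (h _).1 (mem_cj.1 hq)
      have e' : (x * e1 + y * e2) * q = (x * x' : ℤ) * (e1 * star e1) + (y * y' : ℤ) * (e2 * star e2)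
          + (y * x' : ℤ) * (star e1 * e2) + (x * y' : ℤ) * star (star e1 * e2) := by
        rw [← star_star q, e]
        simp only [star_add, star_mul, star_intCast, star_star]
        push_cast
        ring
      rw [e', ← Zsqrtd.norm_eq_mul_conj, ← Zsqrtd.norm_eq_mul_conj, ha, hc, hb]
      exact ⟨x * x', y * y', y * x', x * y', by simp; ring, by simp; ring⟩
    · rintro p q ⟨u, v, w, w', p1, p2⟩ ⟨u1, v1, w1, w1', q1, q2⟩
      exact ⟨u + u1, v + v1, w + w1, w' + w1', by rw [Zsqrtd.re_add, p1, q1]; ring,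
        by rw [Zsqrtd.im_add, p2, q2]; ring⟩
  obtain ⟨-, -, w, w', -, e⟩ := key _ (mul_mem_right Zsqrtd.sqrtd _ (mem_span_singleton_self _))
  have hd : d * d = 1 := Int.isUnit_mul_self
    (IsUnit.of_mul_eq_one_right _ (mul_left_cancel₀ n0 (e.symm.trans (by simp))))
  obtain ⟨u, v, s, s', f1, f2⟩ := key _ (mem_span_singleton_self _)
  have f3 : (s - s') * d = 0 := mul_left_cancel₀ n0 (f2.symm.trans (by simp))
  have f4 : u * a + v * c + (s + s') * b = 1 := mul_left_cancel₀ n0 (f1.symm.trans (by simp))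
  exact ⟨a, b, c, d, ha, hb, hc, hd, u, v, s, by
    linear_combination f4 + b * d * f3 - b * (s - s') * hd⟩

theorem disc (hn : n ≠ 0) {a b c d : ℤ} (ha : e1.norm = n * a)
    (hb : star e1 * e2 = n * (⟨b, d⟩ : O A)) (hc : e2.norm = n * c) (hd : d * d = 1) :
    a * c = b ^ 2 + A := by
  have e := congrArg Zsqrtd.norm hb
  rw [Zsqrtd.norm_mul, Zsqrtd.norm_mul, Zsqrtd.norm_conj, ha, hc, Zsqrtd.norm_natCast, norm_O] at e
  refine mul_left_cancel₀ (mul_self_ne_zero.2 (Int.natCast_ne_zero.2 hn)) ?_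
  linear_combination e + n * n * A * hd

end CRed

open CRed in
theorem rRed : RedS := by
  intro A n I hA hn hI
  classical
  have n0 : (0 : ℤ) < n := by omega
  have ex : ∃ m : ℕ, ∃ e1 e2, Gn I e1 e2 ∧ e1.norm.natAbs = m :=
    let ⟨e1, e2, h⟩ := gen I; ⟨_, e1, e2, h, rfl⟩
  obtain ⟨e1, e0, h0, hm⟩ := Nat.find_spec ex
  obtain ⟨a, b0, c0, d0, ha, hb0, hc0, hd0, -⟩ := dat hn hI h0
  have a0 : 0 < a := by
    have h1 := norm_nat e1
    have h2 := disc hn ha hb0 hc0 hd0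
    have h3 : 0 ≤ a := nonneg_of_mul_nonneg_right (by omega) n0
    refine h3.lt_of_ne fun e => ?_
    rw [← e, zero_mul] at h2
    have := sq_nonneg b0
    omega
  have h := h0.shift hd0 (-((2 * (d0 * b0) + a) / (2 * a)))
  have hb : star e1 * (d0 * e0 + (-((2 * (d0 * b0) + a) / (2 * a)) : ℤ) * e1) =
      n * (⟨d0 * b0 - (2 * (d0 * b0) + a) / (2 * a) * a, 1⟩ : O A) := by
    rw [mul_add, mul_left_comm, hb0, mul_left_comm (star e1), mul_comm (star e1),
      ← Zsqrtd.norm_eq_mul_conj, ha]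
    ext
    · simp; ring
    · simp; linear_combination n * hd0
  have hr : 2 * |d0 * b0 - (2 * (d0 * b0) + a) / (2 * a) * a| ≤ a := by
    have r1 := Int.emod_nonneg (2 * (d0 * b0) + a) (show 2 * a ≠ 0 by omega)
    have r2 := Int.emod_lt_of_pos (2 * (d0 * b0) + a) (show 0 < 2 * a by omega)
    rw [Int.emod_def] at r1 r2
    rcases abs_cases (d0 * b0 - (2 * (d0 * b0) + a) / (2 * a) * a) with r | r <;> linarith [r.1]
  generalize d0 * b0 - (2 * (d0 * b0) + a) / (2 * a) * a = b at hb hr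
  generalize d0 * e0 + (-((2 * (d0 * b0) + a) / (2 * a)) : ℤ) * e1 = e2 at h hb
  obtain ⟨a', b', c, d, ha', hb', hc, -, u, v, w, e⟩ := dat hn hI h
  obtain rfl : a = a' := mul_left_cancel₀ n0.ne' (ha.symm.trans ha')
  obtain rfl : b = b' := mul_left_cancel₀ n0.ne' (by simpa using congrArg Zsqrtd.re (hb.symm.trans hb'))
  refine ⟨e1, e2, a, b, c, h, ha, hb, hc, disc hn ha hb hc rfl, hr, ?_, fun l hl => ?_⟩
  · have h1 := Nat.find_min' ex ⟨e2, e1, h.swap, rfl⟩
    have h2 := norm_nat e1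
    have h3 := norm_nat e2
    exact le_of_mul_le_mul_left (by omega) n0
  · by_contra k
    push Not at k
    have k1 := k _ h.mem
    have k2 := k _ h.swap.mem
    have k3 := k _ (I.add_mem h.mem h.swap.mem)
    have k4 : (e1 + e2).norm = n * (a + c + 2 * b) := by
      have := congrArg Zsqrtd.re hb
      simp only [norm_O, Zsqrtd.re_add, Zsqrtd.im_add] at ha hc ⊢
      simp at this
      linear_combination ha + hc + 2 * this
    rw [ha, mul_dvd_mul_iff_left n0.ne'] at k1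
    rw [hc, mul_dvd_mul_iff_left n0.ne'] at k2
    rw [k4, mul_dvd_mul_iff_left n0.ne', dvd_add_right (k1.add k2)] at k3
    exact (Nat.prime_iff_prime_int.1 hl).not_dvd_one
      (e ▸ ((k1.mul_left u).add (k2.mul_left v)).add (k3.mul_left w))

end Pool.Agent.MP_f3836a_nt.VE.BC
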