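import Pool.Agent.MP_f3836a_nt.VE.SpecA
import Pool.Agent.MP_f3836a_nt.VE.CBas
import Pool.Agent.MP_f3836a_nt.VE.CCln
import Pool.Agent.MP_f3836a_nt.VE.CRed

/-! A homomorphism on an order extends to the invertible ideals. -/

set_option autoImplicit false

namespace Pool.Agent.MP_f3836a_nt.VE.A

open Pool.Agent.MP_c481b3_nt.H28.W BC BC.CBas

theorem aHs_pow {A : ℕ} [hA : Fact (1 < A)] {I : Ideal (O A)} (hI : I ∈ MQ A 1) :
    ∃ π : O A, π ≠ 0 ∧ I ^ Nat.card (RC A 1) = Ideal.span {π} := by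
  have h1 : ∀ n : ℕ, cI 1 (I ^ n) = n • cI 1 I := fun n => by
    induction n with
    | zero => rw [pow_zero, Ideal.one_eq_top, cI_top, zero_smul]
    | succ n ih => rw [pow_succ, cI_mul (pow_mem hI n) hI, ih, succ_nsmul]
  obtain ⟨β, -, e⟩ := four (pow_mem hI (Nat.card (RC A 1))) one_ne_zero (by simp [Cp])
    (by rw [h1, io_one, card_nsmul_eq_zero'])
  exact ⟨β, ((mem β).1 (e ▸ pow_mem hI _)).1, e⟩

theorem aHs_ext {A : ℕ} [hA : Fact (1 < A)] {l : O A → ℝ} (hl : Hom l) :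
    ∃ L : Ideal (O A) → ℝ, (∀ I ∈ MQ A 1, ∀ J ∈ MQ A 1, L (I * J) = L I + L J) ∧
      ∀ β, β ≠ 0 → L (Ideal.span {β}) = l β := by
  have := (rCln rBas rRed A hA.out).1
  have h0 : (Nat.card (RC A 1) : ℝ) ≠ 0 := Nat.cast_ne_zero.2 Nat.card_pos.ne'
  have as : ∀ β γ : O A, β ≠ 0 → Ideal.span {β} = Ideal.span {γ} → l γ = l β := by
    intro β γ hβ e
    obtain ⟨u, rfl⟩ := Ideal.span_singleton_eq_span_singleton.1 e
    have h1 : l u = 0 := by
      rcases unit_O u.isUnit with e | e <;> rw [e]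
      · simpa using hl.int 1 one_ne_zero
      · simpa using hl.int (-1) (by simp)
    rw [hl.mul _ _ hβ u.ne_zero, h1, add_zero]
  have pw : ∀ β : O A, β ≠ 0 → ∀ n : ℕ, l (β ^ n) = n * l β := fun β hβ n => by
    induction n with
    | zero => simpa using hl.int 1 one_ne_zero
    | succ n ih =>
      rw [pow_succ, hl.mul _ _ (pow_ne_zero n hβ) hβ, ih]
      push_cast
      ring
  choose! π π0 hπ using fun I (hI : I ∈ MQ A 1) => aHs_pow hI
  refine ⟨fun I => l (π I) / Nat.card (RC A 1), fun I hI J hJ => ?_, fun β hβ => ?_⟩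
  · have e := hπ _ (mul_mem hI hJ)
    rw [mul_pow, hπ I hI, hπ J hJ, Ideal.span_singleton_mul_span_singleton] at e
    simp only
    rw [as _ _ (mul_ne_zero (π0 I hI) (π0 J hJ)) e, hl.mul _ _ (π0 I hI) (π0 J hJ), add_div]
  · have e := hπ _ ((mem β).2 ⟨hβ, by simp [Cp]⟩)
    rw [Ideal.span_singleton_pow] at e
    simp only
    rw [as _ _ (pow_ne_zero _ hβ) e, pw β hβ, mul_div_cancel_left₀ _ h0]

theorem aHs : HsS := by
  classical
  intro A l hA hl
  have : Fact (1 < A) := ⟨hA⟩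
  obtain ⟨L, L1, L2⟩ := aHs_ext hl
  have dv : ∀ (p : ℕ) (s s' : ℤ), (p : ℤ) ∣ s + s' → (p : ℤ) ∣ s ^ 2 + A → (p : ℤ) ∣ s' ^ 2 + A := by
    intro p s s' h h'
    rw [show s' ^ 2 + A = s ^ 2 + A + (s + s') * (s' - s) by ring]
    exact h'.add (h.mul_right _)
  refine ⟨fun p s => if p.Prime ∧ ¬p ∣ 2 * A ∧ (p : ℤ) ∣ s ^ 2 + A then L (Jd p s) else 0,
    fun p s s' h => ?_, fun ss β M hM hβ => ?_⟩
  · by_cases g : p.Prime ∧ ¬p ∣ 2 * A ∧ (p : ℤ) ∣ s ^ 2 + A
    · have g' := dv p s s' h g.2.2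
      have n : HasN (Jd p s : Ideal (O A)) p := hJ (z := ⟨p, 0, 0⟩) (ss := fun _ => s) g
      have e : (Jd p s' : Ideal (O A)) = cj (Jd p s) := by
        ext w
        rw [cj_Jd g.2.2, mem_Jd g', mem_Jd (dvd_neg_b g.2.2),
          show w.re - s' * w.im = w.re - -s * w.im - (s + s') * w.im by ring]
        exact dvd_sub_left (h.mul_right _)
      have h1 := L1 _ ⟨p, g.1.ne_zero, by simp, n⟩ _ ⟨p, g.1.ne_zero, by simp, n.conj⟩
      have h2 := hl.int p (by exact_mod_cast g.1.ne_zero)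
      rw [show Jd p s * cj (Jd p s) = _ from n, L2 _ (by exact_mod_cast g.1.ne_zero)] at h1
      rw [Int.cast_natCast] at h2
      simp only
      rw [if_pos g, if_pos ⟨g.1, g.2.1, g'⟩, e]
      linarith
    · simp only
      rw [if_neg g, if_neg fun g' => g ⟨g'.1, g'.2.1, dv p s' s (by rwa [add_comm]) g'.2.2⟩,
        neg_zero]
  · have e := ((hE M hM β).1 hβ).2
    have hm : ∀ M : Multiset Pt, (∀ z ∈ M, Gd A ss z) → IM A ss M ∈ MQ A 1 := fun M h =>
      ⟨_, (CBas.hM M h).2, by simp, (CBas.hM M h).1⟩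
    rw [← L2 β ((mem β).1 (e ▸ hm M hM)).1, e]
    clear e hβ
    induction M using Multiset.induction_on with
    | empty =>
      have h1 := L1 _ top_mem _ top_mem
      rw [Ideal.top_mul] at h1
      simp only [IM, Multiset.map_zero, Multiset.prod_zero, Multiset.sum_zero, Ideal.one_eq_top]
      linarith
    | cons z M ih =>
      have h1 := hM z (Multiset.mem_cons_self _ _)
      have h2 := fun y hy => hM y (Multiset.mem_cons_of_mem hy)
      rw [IM_cons, L1 _ ⟨_, h1.1.ne_zero, by simp, hJ h1⟩ _ (hm M h2), ih h2, Multiset.map_cons,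
        Multiset.sum_cons]
      exact congrArg (· + _) (if_pos h1).symm

end Pool.Agent.MP_f3836a_nt.VE.A
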