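import Pool.Agent.MP_f3836a_nt.VE.SpecA7

/-! Choice of the exponents. -/

set_option autoImplicit false

namespace Pool.Agent.MP_f3836a_nt.VE.A7

namespace PPwb

variable {p : ℕ} [Fact p.Prime]

theorem upow (J : ℕ) : ∃ E : ℕ, 5 ≤ E ∧ ∀ w : ℤ_[p]ˣ, (p : ℤ_[p]) ^ J ∣ (w : ℤ_[p]) ^ E - 1 := by
  have : NeZero (p ^ J) := ⟨pow_ne_zero _ (Fact.out : p.Prime).ne_zero⟩
  have hc : 0 < Fintype.card (ZMod (p ^ J))ˣ := Fintype.card_pos
  refine ⟨Fintype.card (ZMod (p ^ J))ˣ * 5, by omega, fun w => ?_⟩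
  rw [← Ideal.mem_span_singleton, ← PadicInt.ker_toZModPow, RingHom.mem_ker, map_sub, map_one, map_pow,
    pow_mul]
  have h : (Units.map (PadicInt.toZModPow J : ℤ_[p] →+* ZMod (p ^ J)).toMonoidHom w) ^
      Fintype.card (ZMod (p ^ J))ˣ = 1 := pow_card_eq_one
  have h2 := congrArg Units.val h
  rw [Units.val_pow_eq_pow_val, Units.coe_map, Units.val_one] at h2
  have h3 : (PadicInt.toZModPow J (w : ℤ_[p])) ^ Fintype.card (ZMod (p ^ J))ˣ = 1 := h2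
  rw [h3, one_pow, sub_self]

theorem close {J E : ℕ} (hE : ∀ w : ℤ_[p]ˣ, (p : ℤ_[p]) ^ J ∣ (w : ℤ_[p]) ^ E - 1) {x : ℤ_[p]}
    (hx : x ≠ 0) : (p : ℤ_[p]) ^ (x.valuation * E + J) ∣ x ^ E - (p : ℤ_[p]) ^ (x.valuation * E) := by
  obtain ⟨c, hc⟩ := hE (PadicInt.unitCoeff hx)
  refine ⟨c, ?_⟩
  have h := PadicInt.unitCoeff_spec hx
  generalize PadicInt.unitCoeff hx = w at hc h
  generalize x.valuation = n at h
  rw [h, mul_pow, ← pow_mul, pow_add]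
  linear_combination (p : ℤ_[p]) ^ (n * E) * hc

theorem vne {x y : ℤ_[p]} (hx : x ≠ 0) (hy : y ≠ 0) : ‖x‖ ≠ ‖y‖ ↔ x.valuation ≠ y.valuation := by
  rw [PadicInt.norm_eq_zpow_neg_valuation hx, PadicInt.norm_eq_zpow_neg_valuation hy]
  have h1 : (1 : ℝ) < p := by exact_mod_cast (Fact.out : p.Prime).one_lt
  rw [Ne, zpow_right_inj₀ (by linarith) h1.ne', neg_inj, Nat.cast_inj]

theorem sv_mul {A : ℕ} {y : ℤ_[p]} (hy : y ^ 2 = -(A : ℤ_[p])) (z w : ℤ√(-(A : ℤ))) :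
    sv y (z * w) = sv y z * sv y w := by
  simp only [sv, Zsqrtd.re_mul, Zsqrtd.im_mul]
  push_cast
  linear_combination (-(z.im : ℤ_[p]) * (w.im : ℤ_[p])) * hy

theorem sv_pow {A : ℕ} {y : ℤ_[p]} (hy : y ^ 2 = -(A : ℤ_[p])) (z : ℤ√(-(A : ℤ))) (n : ℕ) :
    sv y (z ^ n) = sv y z ^ n := by
  induction n with
  | zero => simp [sv]
  | succ n ih => rw [pow_succ, sv_mul hy, ih, pow_succ]

theorem sv_star {d : ℤ} (y : ℤ_[p]) (z : ℤ√d) : sv y (star z) = sv (-y) z := by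
  simp [sv]

theorem sv_norm {A : ℕ} {y : ℤ_[p]} (hy : y ^ 2 = -(A : ℤ_[p])) (z : ℤ√(-(A : ℤ))) :
    sv y z * sv (-y) z = (z.norm : ℤ_[p]) := by
  simp only [sv, Zsqrtd.norm_def]
  push_cast
  linear_combination (-(z.im : ℤ_[p]) ^ 2) * hy

theorem norm_pow' {d : ℤ} (z : ℤ√d) (n : ℕ) : (z ^ n).norm = z.norm ^ n :=
  map_pow Zsqrtd.normMonoidHom z n

theorem core {A : ℕ} {y0 u v : ℤ_[p]} (π : ℤ√(-(A : ℤ))) (a J k N : ℕ)
    (hy : y0 ^ 2 = -(A : ℤ_[p])) (hu : u ≠ 0) (hv : v ≠ 0) (hn : π.norm = (p : ℤ) ^ a)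
    (hs : sv y0 π ≠ 0) (ht : sv (-y0) π ≠ 0)
    (hst : (sv y0 π).valuation ≠ (sv (-y0) π).valuation) (hk : 1 ≤ k) (hN : 1 ≤ N)
    (he : k * u.valuation + N * (sv y0 π).valuation = k * v.valuation + N * (sv (-y0) π).valuation) :
    ∃ (k e e' : ℕ) (ϖ : ℤ√(-(A : ℤ))), 5 ≤ k ∧ ϖ.norm = (p : ℤ) ^ e' ∧
    ‖sv y0 ϖ‖ ≠ ‖sv (-y0) ϖ‖ ∧ (p : ℤ_[p]) ^ (e + J) ∣ u ^ k * sv y0 ϖ - (p : ℤ_[p]) ^ e ∧
    (p : ℤ_[p]) ^ (e + J) ∣ v ^ k * sv (-y0) ϖ - (p : ℤ_[p]) ^ e := by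
  obtain ⟨E, h5, hE⟩ := upow (p := p) J
  have hy' : (-y0) ^ 2 = -(A : ℤ_[p]) := by rw [neg_sq, hy]
  have h1 : u ^ k * sv y0 π ^ N ≠ 0 := mul_ne_zero (pow_ne_zero _ hu) (pow_ne_zero _ hs)
  have h2 : v ^ k * sv (-y0) π ^ N ≠ 0 := mul_ne_zero (pow_ne_zero _ hv) (pow_ne_zero _ ht)
  have c1 := close hE h1
  have c2 := close hE h2
  rw [PadicInt.valuation_mul (pow_ne_zero _ hu) (pow_ne_zero _ hs), PadicInt.valuation_pow,
    PadicInt.valuation_pow, mul_pow, ← pow_mul, ← pow_mul] at c1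
  rw [PadicInt.valuation_mul (pow_ne_zero _ hv) (pow_ne_zero _ ht), PadicInt.valuation_pow,
    PadicInt.valuation_pow, mul_pow, ← pow_mul, ← pow_mul, ← he] at c2
  refine ⟨k * E, (k * u.valuation + N * (sv y0 π).valuation) * E, a * (N * E), π ^ (N * E),
    by nlinarith, by rw [norm_pow', hn, ← pow_mul], ?_, ?_, ?_⟩
  · rw [sv_pow hy, sv_pow hy', vne (pow_ne_zero _ hs) (pow_ne_zero _ ht), PadicInt.valuation_pow,
      PadicInt.valuation_pow]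
    intro h
    exact hst (Nat.eq_of_mul_eq_mul_left (by nlinarith) h)
  · rw [sv_pow hy]; exact c1
  · rw [sv_pow hy']; exact c2

theorem arith {i i' j j' : ℕ} (hi : i ≠ i') (hj : j ≠ j') : ∃ k N : ℕ, 1 ≤ k ∧ 1 ≤ N ∧
    (k * i + N * j = k * i' + N * j' ∨ k * i + N * j' = k * i' + N * j) := by
  rcases lt_or_gt_of_ne hi with h | h <;> rcases lt_or_gt_of_ne hj with g | g <;>
    obtain ⟨b, rfl⟩ := Nat.exists_eq_add_of_lt h <;> obtain ⟨c, rfl⟩ := Nat.exists_eq_add_of_lt g <;>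
    refine ⟨c + 1, b + 1, by omega, by omega, ?_⟩
  · right; ring
  · left; ring
  · left; ring
  · right; ring

end PPwb

theorem rPwb : PwbS := by
  intro A p _ y0 u v π a J hy hu hv huv hn hst
  have hp : (p : ℤ_[p]) ≠ 0 := by exact_mod_cast (Fact.out : p.Prime).ne_zero
  have hm : sv y0 π * sv (-y0) π ≠ 0 := by
    rw [PPwb.sv_norm hy, hn]; push_cast; exact pow_ne_zero _ hp
  have hs := left_ne_zero_of_mul hm
  have ht := right_ne_zero_of_mul hm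
  rw [PPwb.vne hu hv] at huv
  rw [PPwb.vne hs ht] at hst
  obtain ⟨k, N, hk, hN, h | h⟩ := PPwb.arith huv hst
  · exact PPwb.core π a J k N hy hu hv hn hs ht hst hk hN h
  · have e1 : sv y0 (star π) = sv (-y0) π := PPwb.sv_star _ _
    have e2 : sv (-y0) (star π) = sv y0 π := by rw [PPwb.sv_star, neg_neg]
    refine PPwb.core (star π) a J k N hy hu hv (by rw [Zsqrtd.norm_conj, hn]) ?_ ?_ ?_ hk hN ?_
    · rw [e1]; exact ht
    · rw [e2]; exact hs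
    · rw [e1, e2]; exact hst.symm
    · rw [e1, e2]; exact h

end Pool.Agent.MP_f3836a_nt.VE.A7
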