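import Pool.Agent.MP_f3836a_nt.VE.SpecA
import Pool.Agent.MP_f3836a_nt.VE.PPwb

/-! A homomorphism which kills one separating element at each split prime vanishes. -/

set_option autoImplicit false

namespace Pool.Agent.MP_f3836a_nt.VE.A

open A7

theorem hs0_ne {A : ℕ} (hA : 1 < A) {β : ℤ√(-(A : ℤ))} : β ≠ 0 ↔ β.norm ≠ 0 :=
  (Zsqrtd.norm_eq_zero_iff (by omega) β).not.symm

theorem hs0_pow_ne {A : ℕ} (hA : 1 < A) {β : ℤ√(-(A : ℤ))} (h : β ≠ 0) (n : ℕ) : β ^ n ≠ 0 := by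
  rw [hs0_ne hA] at h ⊢
  rw [PPwb.norm_pow']
  exact pow_ne_zero _ h

theorem hs0_pow {A : ℕ} (hA : 1 < A) {l : ℤ√(-(A : ℤ)) → ℝ} (hl : Hom l) {β : ℤ√(-(A : ℤ))}
    (h : β ≠ 0) (n : ℕ) : l (β ^ n) = n * l β := by
  induction n with
  | zero => simpa using hl.int 1 one_ne_zero
  | succ n ih => rw [pow_succ, hl.mul _ _ (hs0_pow_ne hA h n) h, ih]; push_cast; ring

theorem hs0_unit {A q : ℕ} [Fact q.Prime] {y : ℤ_[q]} (hy : y ^ 2 = -(A : ℤ_[q]))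
    {β : ℤ√(-(A : ℤ))} (h : ¬(q : ℤ) ∣ β.norm) : ‖sv y β‖ = ‖sv (-y) β‖ := by
  have h1 : IsUnit (sv y β * sv (-y) β) := by
    rw [PPwb.sv_norm hy, PadicInt.isUnit_iff]
    exact le_antisymm (PadicInt.norm_le_one _)
      (not_lt.1 fun g => h (PadicInt.norm_int_lt_one_iff_dvd _ |>.1 g))
  rw [PadicInt.isUnit_iff.1 (isUnit_of_mul_isUnit_left h1),
    PadicInt.isUnit_iff.1 (isUnit_of_mul_isUnit_right h1)]

theorem hs0_sv {A q : ℕ} [Fact q.Prime] (hA : 1 < A) {y : ℤ_[q]} (hy : y ^ 2 = -(A : ℤ_[q]))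
    {β : ℤ√(-(A : ℤ))} (h : β ≠ 0) : sv y β ≠ 0 ∧ sv (-y) β ≠ 0 := by
  have hm : sv y β * sv (-y) β ≠ 0 := by
    rw [PPwb.sv_norm hy]; exact_mod_cast (hs0_ne hA).1 h
  exact ⟨left_ne_zero_of_mul hm, right_ne_zero_of_mul hm⟩

theorem hs0_step {A p : ℕ} [Fact p.Prime] (hA : 1 < A) {l : ℤ√(-(A : ℤ)) → ℝ} (hl : Hom l)
    {s : Finset ℕ} (ih : ∀ β : ℤ√(-(A : ℤ)), β ≠ 0 → (∀ (q : ℕ) [Fact q.Prime] (y : ℤ_[q]),
      y ^ 2 = -(A : ℤ_[q]) → q ∉ s → ‖sv y β‖ = ‖sv (-y) β‖) → l β = 0)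
    {β π : ℤ√(-(A : ℤ))} (hβ : β ≠ 0) (H : ∀ (q : ℕ) [Fact q.Prime] (y : ℤ_[q]),
      y ^ 2 = -(A : ℤ_[q]) → q ∉ insert p s → ‖sv y β‖ = ‖sv (-y) β‖)
    {y0 : ℤ_[p]} (hy : y0 ^ 2 = -(A : ℤ_[p])) {j k N : ℕ} (hn : π.norm = (p : ℤ) ^ j) (h0 : l π = 0)
    (hk : 1 ≤ k) (he : k * (sv y0 β).valuation + N * (sv y0 π).valuation =
      k * (sv (-y0) β).valuation + N * (sv (-y0) π).valuation) : l β = 0 := by
  have hp : p.Prime := Fact.out
  have hπ : π ≠ 0 := by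
    rw [hs0_ne hA, hn]; exact pow_ne_zero _ (by exact_mod_cast hp.ne_zero)
  have h1 := hs0_pow_ne hA hβ k
  have h2 := hs0_pow_ne hA hπ N
  have h3 : β ^ k * π ^ N ≠ 0 := by
    rw [hs0_ne hA] at h1 h2 ⊢
    rw [Zsqrtd.norm_mul]; exact mul_ne_zero h1 h2
  have h4 : l (β ^ k * π ^ N) = 0 := by
    refine ih _ h3 fun q _ y hq hs => ?_
    have hq' : (-y) ^ 2 = -(A : ℤ_[q]) := by rw [neg_sq, hq]
    by_cases e : q = p
    · subst e
      have hy' : (-y0) ^ 2 = -(A : ℤ_[q]) := by rw [neg_sq, hy]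
      have key : ‖sv y0 (β ^ k * π ^ N)‖ = ‖sv (-y0) (β ^ k * π ^ N)‖ := by
        by_contra g
        obtain ⟨a1, a2⟩ := hs0_sv hA hy h3
        obtain ⟨b1, b2⟩ := hs0_sv hA hy hβ
        obtain ⟨c1, c2⟩ := hs0_sv hA hy hπ
        refine (PPwb.vne a1 a2).1 g ?_
        rw [PPwb.sv_mul hy, PPwb.sv_mul hy', PPwb.sv_pow hy, PPwb.sv_pow hy, PPwb.sv_pow hy',
          PPwb.sv_pow hy', PadicInt.valuation_mul (pow_ne_zero _ b1) (pow_ne_zero _ c1),
          PadicInt.valuation_mul (pow_ne_zero _ b2) (pow_ne_zero _ c2)]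
        simpa only [PadicInt.valuation_pow] using he
      rcases sq_eq_sq_iff_eq_or_eq_neg.1 (hq.trans hy.symm) with g | g
      · rw [g]; exact key
      · rw [g, neg_neg]; exact key.symm
    · have hd : ¬(q : ℤ) ∣ π.norm := by
        rw [hn]
        intro g
        have g' : q ∣ p ^ j := by exact_mod_cast g
        exact e ((Nat.prime_dvd_prime_iff_eq Fact.out hp).1 ((Fact.out : q.Prime).dvd_of_dvd_pow g'))
      rw [PPwb.sv_mul hq, PPwb.sv_mul hq', PPwb.sv_pow hq, PPwb.sv_pow hq, PPwb.sv_pow hq',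
        PPwb.sv_pow hq', norm_mul, norm_mul, norm_pow, norm_pow, norm_pow, norm_pow,
        H q y hq (by simp [e, hs]), hs0_unit hq hd]
  rw [hl.mul _ _ h1 h2, hs0_pow hA hl hβ, hs0_pow hA hl hπ, h0, mul_zero, add_zero] at h4
  exact (mul_eq_zero.1 h4).resolve_left (by exact_mod_cast (by omega : k ≠ 0))

theorem aHs0 : OfHs0 := by
  intro hE A l hA hl hP
  have main : ∀ s : Finset ℕ, ∀ β : ℤ√(-(A : ℤ)), β ≠ 0 → (∀ (q : ℕ) [Fact q.Prime] (y : ℤ_[q]),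
      y ^ 2 = -(A : ℤ_[q]) → q ∉ s → ‖sv y β‖ = ‖sv (-y) β‖) → l β = 0 := by
    intro s
    induction s using Finset.induction_on with
    | empty =>
      intro β hβ H
      have h1 := hE A β hA hβ fun q _ y hq => H q y hq (Finset.notMem_empty q)
      have h2 := hs0_pow hA hl hβ 24
      rw [h1, hl.int _ (pow_ne_zero _ ((hs0_ne hA).1 hβ))] at h2
      exact (mul_eq_zero.1 h2.symm).resolve_left (by norm_num)
    | insert p s _ ih =>
      intro β hβ H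
      by_cases c : ∀ (q : ℕ) [Fact q.Prime] (y : ℤ_[q]),
        y ^ 2 = -(A : ℤ_[q]) → q ∉ s → ‖sv y β‖ = ‖sv (-y) β‖
      · exact ih β hβ c
      · push Not at c
        obtain ⟨q, _, y0, hy, hs, hne⟩ := c
        have e : q = p := by
          by_contra e
          exact hne (H q y0 hy (by simp [e, hs]))
        subst e
        obtain ⟨π, j, hn, hπn, h0⟩ := hP q y0 hy
        have hπ : π ≠ 0 := by
          rw [hs0_ne hA, hn]
          exact pow_ne_zero _ (by exact_mod_cast (Fact.out : q.Prime).ne_zero)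
        obtain ⟨b1, b2⟩ := hs0_sv hA hy hβ
        obtain ⟨c1, c2⟩ := hs0_sv hA hy hπ
        obtain ⟨k, N, hk, _, h | h⟩ :=
          PPwb.arith ((PPwb.vne b1 b2).1 hne) ((PPwb.vne c1 c2).1 hπn)
        · exact hs0_step hA hl ih hβ H hy hn h0 hk h
        · have hs' : star π ≠ 0 := by
            rw [hs0_ne hA, Zsqrtd.norm_conj]; exact (hs0_ne hA).1 hπ
          have h1 := hl.mul π (star π) hπ hs'
          rw [← Zsqrtd.norm_eq_mul_conj, hl.int _ ((hs0_ne hA).1 hπ), h0, zero_add] at h1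
          refine hs0_step (π := star π) (N := N) hA hl ih hβ H hy
            (by rw [Zsqrtd.norm_conj, hn]) h1.symm hk ?_
          rw [PPwb.sv_star, PPwb.sv_star, neg_neg]
          exact h
  intro β hβ
  refine main β.norm.natAbs.primeFactors β hβ fun q _ y hq hs => hs0_unit hq fun g => hs ?_
  exact Nat.mem_primeFactors.2 ⟨Fact.out, Int.natCast_dvd.1 g,
    Int.natAbs_ne_zero.2 ((hs0_ne hA).1 hβ)⟩

end Pool.Agent.MP_f3836a_nt.VE.A
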