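import Pool.Agent.MP_f3836a_nt.VE.SpecA

/-! The homomorphism vanishes near the identity. -/

set_option autoImplicit false

namespace Pool.Agent.MP_f3836a_nt.VE.A

open Polynomial Filter Topology

/-- coefficients of the interpolation polynomial -/
noncomputable def nearC (r v : Fin 3 → ℝ) : ℝ × ℝ × ℝ :=
  (v 0 / ((r 0 - r 1) * (r 0 - r 2)) + v 1 / ((r 1 - r 0) * (r 1 - r 2))
      + v 2 / ((r 2 - r 0) * (r 2 - r 1)),
    -(v 0 * (r 1 + r 2) / ((r 0 - r 1) * (r 0 - r 2)) + v 1 * (r 0 + r 2) / ((r 1 - r 0) * (r 1 - r 2))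
      + v 2 * (r 0 + r 1) / ((r 2 - r 0) * (r 2 - r 1))),
    v 0 * (r 1 * r 2) / ((r 0 - r 1) * (r 0 - r 2)) + v 1 * (r 0 * r 2) / ((r 1 - r 0) * (r 1 - r 2))
      + v 2 * (r 0 * r 1) / ((r 2 - r 0) * (r 2 - r 1)))

theorem near_coef {r v : Fin 3 → ℝ} (hr : StrictMono r) {a b c : ℝ}
    (h : ∀ i, v i = a * r i ^ 2 + b * r i + c) : nearC r v = (a, b, c) := by
  have hi := hr.injective
  have n (i j : Fin 3) (h : i ≠ j) : r i - r j ≠ 0 := sub_ne_zero.2 (hi.ne h)
  have h1 := n 0 1 (by decide)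
  have h2 := n 0 2 (by decide)
  have h3 := n 1 0 (by decide)
  have h4 := n 1 2 (by decide)
  have h5 := n 2 0 (by decide)
  have h6 := n 2 1 (by decide)
  simp only [nearC, h, Prod.mk.injEq]
  refine ⟨?_, ?_, ?_⟩ <;> field_simp <;> ring

theorem near_cont (r : Fin 3 → ℝ) : Continuous (nearC r) := by
  unfold nearC
  fun_prop

/-- the good region -/
def nearG (t T : ℝ) (a b : ℝ × ℝ × ℝ) : Prop :=
  a.1 * t ^ 2 + a.2.1 * t + a.2.2 ≠ 0 ∧ ∀ s, s = (b.1 * t ^ 2 + b.2.1 * t + b.2.2) /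
    (a.1 * t ^ 2 + a.2.1 * t + a.2.2) → s < T ∧ b.1 - s * a.1 ≠ 0 ∧
      -(b.2.1 - s * a.2.1) / (b.1 - s * a.1) - t < T

theorem near_ev {Z : Type} [TopologicalSpace Z] {a b : Z → ℝ × ℝ × ℝ} {z : Z} {t1 t T : ℝ}
    (ha : Continuous a) (hb : Continuous b) (h1 : t1 < t) (h2 : t < T) (ea : a z = (0, 1, -t1))
    (eb : b z = (1, -t1, 0)) : ∀ᶠ x in 𝓝 z, nearG t T (a x) (b x) := by
  have n : t - t1 ≠ 0 := sub_ne_zero.2 h1.ne'
  let d : Z → ℝ := fun x => (a x).1 * t ^ 2 + (a x).2.1 * t + (a x).2.2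
  let s : Z → ℝ := fun x => ((b x).1 * t ^ 2 + (b x).2.1 * t + (b x).2.2) / d x
  let k : Z → ℝ := fun x => (b x).1 - s x * (a x).1
  let u : Z → ℝ := fun x => -((b x).2.1 - s x * (a x).2.1) / k x - t
  have ed : d z = t - t1 := by
    simp only [d, ea]
    ring
  have es : s z = t := by
    simp only [s, ed, eb]
    field_simp
    ring
  have ek : k z = 1 := by simp only [k, ea, eb, mul_zero, sub_zero]
  have eu : u z = t1 := by
    simp only [u, ek, es, ea, eb]
    ring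
  have cd : ContinuousAt d z := by fun_prop
  have cs : ContinuousAt s z := ContinuousAt.div (by fun_prop) cd (ed ▸ n)
  have ck : ContinuousAt k z := by fun_prop
  have cu : ContinuousAt u z :=
    (ContinuousAt.div (by fun_prop) ck (ek ▸ one_ne_zero)).sub continuousAt_const
  filter_upwards [cd.eventually_ne (ed ▸ n), cs.eventually_lt_const (es ▸ h2),
    ck.eventually_ne (ek ▸ one_ne_zero), cu.eventually_lt_const (eu ▸ h1.trans h2)]
    with x x1 x2 x3 x4
  exact ⟨x1, fun _ h => h ▸ ⟨x2, x3, x4⟩⟩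

theorem near_red {c : ℚ[X]} {r : Fin 3 → ℝ} (hc : c.Monic) (h3 : c.natDegree = 3)
    (hr : StrictMono r) (h0 : ∀ i, aeval (r i) c = 0) (p : ℚ[X]) : ∃ a2 a1 a0 : ℚ,
    c ∣ p - (C a2 * X ^ 2 + C a1 * X + C a0) ∧
      nearC r (fun i => aeval (r i) p) = ((a2 : ℝ), (a1 : ℝ), (a0 : ℝ)) := by
  have h1 : (p %ₘ c).natDegree < 3 := h3 ▸ natDegree_modByMonic_lt p hc (by
    rintro rfl
    simp at h3)
  have h2 : c ∣ p - (C ((p %ₘ c).coeff 2) * X ^ 2 + C ((p %ₘ c).coeff 1) * X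
      + C ((p %ₘ c).coeff 0)) := by
    have e := (p %ₘ c).as_sum_range_C_mul_X_pow' h1
    simp only [Finset.sum_range_succ, Finset.range_zero, Finset.sum_empty] at e
    exact ⟨p /ₘ c, by linear_combination e - modByMonic_add_div p c⟩
  refine ⟨_, _, _, h2, near_coef hr fun i => ?_⟩
  obtain ⟨w, hw⟩ := h2
  have := congrArg (aeval (r i)) hw
  simp only [map_sub, map_add, map_mul, map_pow, aeval_C, aeval_X, h0, zero_mul, eq_ratCast] at this
  linarith

theorem aNear : OfNear := by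
  intro hC c μ T0 r h
  have hev := near_ev (z := (1 : Fin 3 → ℝ)) (t1 := ((T0 - 2 : ℚ) : ℝ)) (t := ((T0 - 1 : ℚ) : ℝ))
    (T := T0) (a := fun x => nearC r fun i => x i * (r i - (T0 - 2 : ℚ)))
    (b := fun x => nearC r fun i => x i * (r i - (T0 - 2 : ℚ)) * r i)
    ((near_cont r).comp (by fun_prop)) ((near_cont r).comp (by fun_prop))
    (by push_cast; linarith) (by push_cast; linarith)
    (near_coef h.mono fun i => by simp only [Pi.one_apply]; ring)
    (near_coef h.mono fun i => by simp only [Pi.one_apply]; ring)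
  obtain ⟨ε, hε, hev⟩ := Metric.eventually_nhds_iff.1 hev
  refine ⟨min (ε / 2) (1 / 2), by positivity, fun q hq => ?_⟩
  have hG := hev (y := fun i => aeval (r i) q) ((dist_pi_lt_iff hε).2 fun i =>
    ((hq i).trans (min_le_left _ _)).trans_lt (half_lt_self hε))
  have cq : IsCoprime c q := (hC c μ T0 r h q).1.2 fun i h0 => by
    have := (hq i).trans (min_le_right _ _)
    rw [h0] at this
    norm_num at this
  have cl : ∀ t < T0, IsCoprime c (X - C t) := fun t ht => (hC c μ T0 r h _).1.2 fun i => by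
    have h1 : (t : ℝ) < T0 := by exact_mod_cast ht
    have h2 := h.mono.monotone (Fin.zero_le i)
    simp only [map_sub, aeval_X, aeval_C, eq_ratCast]
    linarith [h.low]
  obtain ⟨a2, a1, a0, da, ea⟩ := near_red h.monic h.deg h.mono h.root (q * (X - C (T0 - 2)))
  obtain ⟨b2, b1, b0, db, eb⟩ := near_red h.monic h.deg h.mono h.root (q * (X - C (T0 - 2)) * X)
  simp only [map_mul, map_sub (aeval _), aeval_X, aeval_C, eq_ratCast] at ea eb
  rw [ea, eb] at hG
  generalize ht : T0 - 1 = t at hG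
  obtain ⟨g1, g2⟩ := hG
  obtain ⟨s, hs⟩ : ∃ s : ℚ, s = (b2 * t ^ 2 + b1 * t + b0) / (a2 * t ^ 2 + a1 * t + a0) := ⟨_, rfl⟩
  obtain ⟨g2, g3, g4⟩ := g2 s (by rw [hs]; push_cast; rfl)
  simp only at g1 g3 g4
  replace g1 : a2 * t ^ 2 + a1 * t + a0 ≠ 0 := by exact_mod_cast g1
  replace g2 : s < T0 := by exact_mod_cast g2
  replace g3 : b2 - s * a2 ≠ 0 := by exact_mod_cast g3
  replace g4 : -(b1 - s * a1) / (b2 - s * a2) - t < T0 := by exact_mod_cast g4
  rw [eq_div_iff g1] at hs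
  generalize hu : -(b1 - s * a1) / (b2 - s * a2) - t = u at g4
  rw [sub_eq_iff_eq_add, div_eq_iff g3] at hu
  have h1 : T0 - 2 < T0 := by linarith
  have h2 : t < T0 := by linarith
  have cc : IsCoprime c (C (b2 - s * a2)) := (hC c μ T0 r h _).1.2 fun i => by
    simpa only [aeval_C, eq_ratCast, Rat.cast_eq_zero, ne_eq] using g3
  have e := h.per (q * (X - C (T0 - 2)) * (X - C s)) (C (b2 - s * a2) * (X - C t) * (X - C u)) (by
    have hs' := congrArg (C : ℚ → ℚ[X]) hs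
    have hu' := congrArg (C : ℚ → ℚ[X]) hu
    simp only [map_mul, map_add, map_sub, map_pow, map_neg] at hs' hu'
    refine (dvd_sub db (da.mul_left (C s))).trans (Eq.dvd ?_)
    rw [map_sub C b2, map_mul]
    linear_combination hs' - (C t - X) * hu')
  rwa [h.mul _ _ (cq.mul_right (cl _ h1)) (cl _ g2), h.mul _ _ cq (cl _ h1),
    h.mul _ _ (cc.mul_right (cl _ h2)) (cl _ g4), h.mul _ _ cc (cl _ h2), h.con _ g3, h.lin _ h1,
    h.lin _ g2, h.lin _ h2, h.lin _ g4, add_zero, add_zero, add_zero, add_zero] at e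

end Pool.Agent.MP_f3836a_nt.VE.A

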