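import Pool.Agent.MP_f3836a_nt.VE.SpecA

/-! From the fibres with negative values to all rational fibres. -/

set_option autoImplicit false

namespace Pool.Agent.MP_f3836a_nt.VE.A

open Polynomial

theorem real_cop {c : ℚ[X]} {t : ℚ} (h : c.eval t ≠ 0) : IsCoprime c (X - C t) :=
  ((irreducible_X_sub_C t).coprime_iff_not_dvd.2 fun e => h (dvd_iff_isRoot.1 e)).symm

theorem real_const {R ι : Type} [CommRing R] [IsDomain R] [Algebra ℚ R] {S : Sy R ι} (hS : S.Ok)
    {g : R} (hg : g ≠ 0) (a : ℚ) : S.L g (algebraMap ℚ R a) = 0 := by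
  by_cases h : a = 0
  · rw [h, map_zero, hS.L_eq hg]
    exact Finset.sum_eq_zero fun v _ => by rw [hS.lam0 v 0 (zero_mem _), mul_zero]
  · exact hS.L_unit hg ((IsUnit.mk0 a h).map _)

theorem real_dvd {R : Type} [CommRing R] [Algebra ℚ R] (x : R) (A : ℚ[X]) (t : ℚ) :
    x - algebraMap ℚ R t ∣ aeval x A - algebraMap ℚ R (A.eval t) := by
  simpa using _root_.map_dvd (aeval x) (X_sub_C_dvd_sub_C_eval (p := A) (a := t))

theorem aReal : OfReal := by
  intro hC hR R ι _ _ _ x y f S hM hS hneg t u hu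
  have hne : ∀ t : ℚ, x - algebraMap ℚ R t ≠ 0 := fun t e =>
    X_sub_C_ne_zero t (hM.ind (X - C t) 0 (by simpa using e)).1
  obtain ⟨A, B, rfl⟩ := hM.gen u
  obtain ⟨a, ha⟩ := real_dvd x A t
  obtain ⟨b, hb⟩ := real_dvd x B t
  obtain ⟨d, hd⟩ := real_dvd x f t
  rcases lt_trichotomy (f.eval t) 0 with h | h | h
  · exact hneg t h _ hu
  · rw [← real_const hS (hne t) (A.eval t)]
    refine hS.L_congr' (hne t) fun v hv => ?_
    rw [h, map_zero, sub_zero, ← hM.eq] at hd
    have hy : y ∈ S.P v := (hS.max v).isPrime.mem_of_pow_mem 2 (hd ▸ Ideal.mul_mem_right _ _ hv)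
    rw [add_sub_right_comm, ha]
    exact add_mem (Ideal.mul_mem_right _ _ hv) (Ideal.mul_mem_left _ _ hy)
  by_cases h0 : B.eval t = 0
  · rw [← real_const hS (hne t) (A.eval t)]
    refine hS.L_congr (hne t) ⟨a + b * y, ?_⟩
    rw [h0, map_zero, sub_zero] at hb
    linear_combination ha + y * hb
  obtain ⟨w, hw⟩ : ∃ w : ℚ, A.eval t = -(B.eval t * w) := ⟨-(A.eval t / B.eval t), by field_simp⟩
  obtain ⟨s, T0, r, r1, r2, r3, r4⟩ := hR f t w hM.monic hM.deg h
  obtain ⟨l, hl⟩ : ∃ l, l = y - aeval x (C w + C s * (X - C t)) := ⟨_, rfl⟩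
  obtain ⟨c, hc⟩ : ∃ c, c = f - (C w + C s * (X - C t)) ^ 2 := ⟨_, rfl⟩
  have l0 : l ≠ 0 := fun e => one_ne_zero (hM.ind (-(C w + C s * (X - C t))) 1 (by
    rw [map_neg, map_one, one_mul, ← e, hl]
    ring)).2
  have lc : aeval x c = l * (y + aeval x (C w + C s * (X - C t))) := by
    rw [hc, map_sub, map_pow, ← hM.eq, hl]
    ring
  have cop : ∀ q, IsCoprime c q → IsCoprime l (aeval x q) := fun q hq =>
    (lc ▸ hq.map (aeval x).toRingHom : IsCoprime (l * _) (aeval x q)).of_mul_left_left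
  have lin : ∀ t : ℚ, aeval x (X - C t) = x - algebraMap ℚ R t := fun t => by simp
  have dg : ((C w + C s * (X - C t)) ^ 2).natDegree < f.natDegree := by
    rw [hM.deg]
    compute_degree!
  have cb : Cb c (fun q => S.L l (aeval x q)) T0 r :=
    ⟨hc ▸ hM.monic.sub_of_left (degree_lt_degree dg),
      by rw [hc, natDegree_sub_eq_left_of_natDegree_lt dg, hM.deg], r1, hc ▸ r2, r3,
      fun q q' h1 h2 => by rw [map_mul, hS.L_mul l0 (cop q h1) (cop q' h2)],
      fun q q' h1 => hS.L_congr l0 (by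
        rw [← map_sub]
        exact (lc ▸ dvd_mul_right l _ : l ∣ aeval x c).trans (_root_.map_dvd (aeval x) h1)),
      fun a _ => by rw [aeval_C, real_const hS l0], fun t' ht => by
        have := cop _ (real_cop (t := t') (by
          rw [hc, eval_sub, eval_pow]
          nlinarith [r4 t' ht, sq_nonneg (eval t' (C w + C s * (X - C t)))]))
        rw [lin] at this ⊢
        rw [hS.L_symm l0 (hne t') this, hneg t' (r4 t' ht) l this.symm]⟩
  have e : aeval x A + aeval x B * y = algebraMap ℚ R (B.eval t) * l +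
      (x - algebraMap ℚ R t) * (a + b * y + algebraMap ℚ R (B.eval t) * algebraMap ℚ R s) := by
    rw [hw, map_neg, map_mul] at ha
    rw [hl, map_add, map_mul, lin, aeval_C, aeval_C]
    linear_combination ha + y * hb
  have hu' : IsCoprime (x - algebraMap ℚ R t) (algebraMap ℚ R (B.eval t) * l) :=
    (e ▸ hu : IsCoprime _ (_ + _ * _)).of_add_mul_left_right
  have ct : c.eval t ≠ 0 := fun z => by
    have h1 := real_dvd x c t
    rw [z, map_zero, sub_zero, lc] at h1
    obtain ⟨g, hg⟩ := hu'.of_mul_right_right.dvd_of_dvd_mul_left h1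
    obtain ⟨A', B', rfl⟩ := hM.gen g
    have := (hM.ind (C w + C s * (X - C t) - (X - C t) * A') (1 - (X - C t) * B') (by
      rw [map_sub, map_sub, map_mul, map_mul, map_one, lin]
      linear_combination hg)).2
    simpa using congrArg (eval t) this
  have key := hC c _ T0 r cb _ (real_cop ct)
  rw [lin] at key
  rw [hS.L_congr (hne t) (u' := algebraMap ℚ R (B.eval t) * l) ⟨_, by rw [e, add_sub_cancel_left]⟩,
    hS.L_mul (hne t) hu'.of_mul_right_left hu'.of_mul_right_right, real_const hS (hne t), zero_add,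
    hS.L_symm (hne t) l0 hu'.of_mul_right_right, key]

end Pool.Agent.MP_f3836a_nt.VE.A
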