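import Pool.Agent.MP_f3836a_nt.VE.SpecA

/-! A line which cuts the curve in three real points. -/

set_option autoImplicit false

namespace Pool.Agent.MP_f3836a_nt.VE.A

open Polynomial

theorem root_pos (a b c : ℝ) : ∃ M : ℝ, ∀ x, M ≤ x → 0 < x ^ 3 + a * x ^ 2 + b * x + c := by
  refine ⟨1 + |a| + |b| + |c|, fun x hx => ?_⟩
  have ha := abs_nonneg a
  have hb := abs_nonneg b
  have hc := abs_nonneg c
  have h1 : 1 ≤ x := by linarith
  have h2 : x ≤ x ^ 2 := by nlinarith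
  have h3 := mul_le_mul_of_nonneg_right hx (sq_nonneg x)
  have h4 := mul_le_mul_of_nonneg_right (neg_abs_le a) (sq_nonneg x)
  have h5 := mul_le_mul_of_nonneg_right (neg_abs_le b) (zero_le_one.trans h1)
  have h6 := mul_le_mul_of_nonneg_left h2 hb
  have h7 := mul_le_mul_of_nonneg_left (h1.trans h2) hc
  nlinarith [neg_abs_le c]

theorem aRoot : RootS := by
  intro f t y hm hd ht
  obtain ⟨a, b, c, hf⟩ : ∃ a b c : ℝ, ∀ x : ℝ, aeval x f = x ^ 3 + a * x ^ 2 + b * x + c := by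
    refine ⟨f.coeff 2, f.coeff 1, f.coeff 0, fun x => ?_⟩
    have h3 : f.coeff 3 = 1 := hd ▸ hm.coeff_natDegree
    rw [aeval_eq_sum_range, hd]
    simp only [Finset.sum_range_succ, Finset.sum_range_zero, h3, Rat.smul_def]
    push_cast
    ring
  have hq : ∀ q : ℚ, ((f.eval q : ℚ) : ℝ) = aeval (q : ℝ) f := fun q =>
    (aeval_algebraMap_apply_eq_algebraMap_eval (A := ℝ) q f).symm
  have hc : Continuous fun x : ℝ => aeval x f := f.continuous_aeval
  have h0 : 0 < aeval (t : ℝ) f := by rw [← hq]; exact_mod_cast ht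
  obtain ⟨δ, hδ, hδ'⟩ := Metric.eventually_nhds_iff.1 (hc.continuousAt.eventually (lt_mem_nhds h0))
  obtain ⟨s, hs⟩ := exists_rat_gt
    (|(y : ℝ)| / δ + |(y : ℝ)| + |aeval ((t : ℝ) - 1) f| + |aeval ((t : ℝ) + 1) f| + 1)
  have p1 := abs_nonneg (y : ℝ)
  have p2 := abs_nonneg (aeval ((t : ℝ) - 1) f)
  have p3 := abs_nonneg (aeval ((t : ℝ) + 1) f)
  have p4 : 0 ≤ |(y : ℝ)| / δ := by positivity
  have hs0 : (0 : ℝ) < s := by linarith
  set g : ℝ → ℝ := fun x => aeval x f - (y + s * (x - t)) ^ 2 with hg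
  have hgc : Continuous g := by fun_prop
  have q1 : |(y : ℝ) / s| < 1 := by
    rw [abs_div, abs_of_pos hs0, div_lt_one hs0]; linarith
  have q2 : |(y : ℝ) / s| < δ := by
    rw [abs_div, abs_of_pos hs0, div_lt_iff₀ hs0, mul_comm, ← div_lt_iff₀ hδ]; linarith
  have g1 : g (t - 1) < 0 := by
    have := le_abs_self (aeval ((t : ℝ) - 1) f)
    have := le_abs_self (y : ℝ)
    simp only [hg]
    nlinarith
  have g2 : 0 < g (t - y / s) := by
    have e : (y : ℝ) + s * (t - y / s - t) = 0 := by field_simp; ring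
    simp only [hg, e]
    rw [zero_pow two_ne_zero, sub_zero]
    exact hδ' (by rwa [Real.dist_eq, sub_sub_cancel_left, abs_neg])
  have g3 : g (t + 1) < 0 := by
    have := le_abs_self (aeval ((t : ℝ) + 1) f)
    have := neg_abs_le (y : ℝ)
    simp only [hg]
    nlinarith
  obtain ⟨M, hM⟩ := root_pos (a - s ^ 2) (b - 2 * s * (y - s * t)) (c - (y - s * t) ^ 2)
  have g4 : 0 < g (max M (t + 1)) := by
    have := hM _ (le_max_left M (t + 1))
    simp only [hg, hf]
    linarith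
  rw [abs_lt] at q1
  obtain ⟨r0, a0, b0⟩ := intermediate_value_Ioo (show (t : ℝ) - 1 ≤ t - y / s by linarith)
    hgc.continuousOn ⟨g1, g2⟩
  obtain ⟨r1, a1, b1⟩ := intermediate_value_Ioo' (show (t : ℝ) - y / s ≤ t + 1 by linarith)
    hgc.continuousOn ⟨g3, g2⟩
  obtain ⟨r2, a2, b2⟩ := intermediate_value_Ioo (le_max_right M ((t : ℝ) + 1))
    hgc.continuousOn ⟨g3, g4⟩
  obtain ⟨N, hN⟩ := root_pos (-a) b (-c)
  obtain ⟨T0, hT⟩ := exists_rat_lt (min (-N) r0)
  rw [lt_min_iff] at hT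
  refine ⟨s, T0, ![r0, r1, r2], ?_, fun i => ?_, hT.2.le, fun t' ht' => ?_⟩
  · refine Fin.strictMono_iff_lt_succ.2 fun i => ?_
    fin_cases i
    · exact a0.2.trans a1.1
    · exact a1.2.trans a2.1
  · have e : ∀ x : ℝ, aeval x (f - (C y + C s * (X - C t)) ^ 2) = g x := fun x => by simp [hg]
    rw [e]
    fin_cases i
    exacts [b0, b1, b2]
  · have h1 : (t' : ℝ) < T0 := by exact_mod_cast ht'
    have h2 := hN (-t') (by linarith)
    have h3 := hq t'
    rw [hf] at h3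
    have : ((f.eval t' : ℚ) : ℝ) < 0 := by linarith
    exact_mod_cast this

end Pool.Agent.MP_f3836a_nt.VE.A
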