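import Pool.Agent.MP_f3836a_nt.VE.SpecA

/-! Part A: scaling of the cubic. -/

set_option autoImplicit false

namespace Pool.Agent.MP_f3836a_nt.VE.A

open Polynomial

theorem scal_form {f : ℚ[X]} (h1 : f.Monic) (h3 : f.natDegree = 3) :
    f = X ^ 3 + C (f.coeff 2) * X ^ 2 + C (f.coeff 1) * X + C (f.coeff 0) := by
  conv_lhs => rw [h1.as_sum, h3]
  simp only [Finset.sum_range_succ, Finset.sum_range_zero, pow_zero, pow_one]
  ring

theorem scal_aeval {A : Type} [CommRing A] [Algebra ℚ A] (P : ℚ[X]) {c : ℚ} (hc : c ≠ 0) (z : A) :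
    aeval (algebraMap ℚ A c * z) (P.comp (C c⁻¹ * X)) = aeval z P := by
  rw [aeval_comp, map_mul, aeval_C, aeval_X, ← mul_assoc, ← map_mul, inv_mul_cancel₀ hc, map_one,
    one_mul]

theorem scal_eq {f : ℚ[X]} (h1 : f.Monic) (h3 : f.natDegree = 3) {b : ℚ} (hb : b ≠ 0) :
    C (b ^ 6) * f.comp (C (b ^ 2)⁻¹ * X) = X ^ 3 + C (f.coeff 2 * b ^ 2) * X ^ 2 +
      C (f.coeff 1 * b ^ 4) * X + C (f.coeff 0 * b ^ 6) := by
  refine Polynomial.funext fun s => ?_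
  conv_lhs => rw [scal_form h1 h3]
  simp only [eval_mul, eval_add, eval_comp, eval_pow, eval_C, eval_X]
  field_simp

theorem scal_model {R : Type} [CommRing R] [Algebra ℚ R] {x y : R} {f : ℚ[X]} (h : Model x y f)
    {b : ℚ} (hb : b ≠ 0) : Model (algebraMap ℚ R (b ^ 2) * x) (algebraMap ℚ R (b ^ 3) * y)
      (C (b ^ 6) * f.comp (C (b ^ 2)⁻¹ * X)) := by
  have h2 : b ^ 2 ≠ 0 := pow_ne_zero _ hb
  have h3 : b ^ 3 ≠ 0 := pow_ne_zero _ hb
  have h6 : b ^ 6 ≠ 0 := pow_ne_zero _ hb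
  refine ⟨?_, ?_, ?_, ?_, fun r => ?_, fun A B e => ?_⟩
  · rw [scal_eq h.monic h.deg hb]; monicity!
  · rw [scal_eq h.monic h.deg hb]; compute_degree!
  · have h0 : IsCoprime (f.comp (C (b ^ 2)⁻¹ * X)) (f.derivative.comp (C (b ^ 2)⁻¹ * X)) :=
      IsCoprime.map h.sep (compRingHom (C (b ^ 2)⁻¹ * X))
    have u1 : IsUnit (C (b ^ 6) : ℚ[X]) := isUnit_C.2 h6.isUnit
    have u2 : IsUnit (C (b ^ 2)⁻¹ : ℚ[X]) := isUnit_C.2 (inv_ne_zero h2).isUnit
    rw [Separable, derivative_C_mul, derivative_comp, derivative_C_mul_X,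
      isCoprime_mul_unit_left u1, isCoprime_mul_unit_left_right u2]
    exact h0
  · rw [map_mul, aeval_C, scal_aeval _ h2, mul_pow, ← map_pow, h.eq, ← pow_mul]
  · obtain ⟨A, B, rfl⟩ := h.gen r
    refine ⟨A.comp (C (b ^ 2)⁻¹ * X), C (b ^ 3)⁻¹ * B.comp (C (b ^ 2)⁻¹ * X), ?_⟩
    rw [map_mul, aeval_C, scal_aeval _ h2, scal_aeval _ h2, mul_mul_mul_comm, ← map_mul,
      inv_mul_cancel₀ h3, map_one, one_mul]
  · have k : ∀ P : ℚ[X], aeval (algebraMap ℚ R (b ^ 2) * x) P = aeval x (P.comp (C (b ^ 2) * X)) :=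
      fun P => by rw [aeval_comp, map_mul, aeval_C, aeval_X]
    have e' := h.ind (A.comp (C (b ^ 2) * X)) (C (b ^ 3) * B.comp (C (b ^ 2) * X)) (by
      rw [map_mul, aeval_C, ← k, ← k, ← e]; ring)
    have hr : b ^ 2 ∈ nonZeroDivisors ℚ := mem_nonZeroDivisors_of_ne_zero h2
    refine ⟨(comp_C_mul_X_eq_zero_iff hr).1 e'.1, (comp_C_mul_X_eq_zero_iff hr).1 ?_⟩
    exact (mul_eq_zero.1 e'.2).resolve_left (C_ne_zero.2 h3)

theorem scal_int (q : ℚ) {n : ℕ} (h : q.den ∣ n) {k : ℕ} (hk : k ≠ 0) :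
    ∃ z : ℤ, (z : ℚ) = q * (n : ℚ) ^ k := by
  obtain ⟨m, hm⟩ := h.trans (dvd_pow_self n hk)
  refine ⟨q.num * m, ?_⟩
  rw [← Nat.cast_pow, hm]
  push_cast
  rw [← mul_assoc, Rat.mul_den_eq_num]

theorem aScal : ScalS := by
  intro R _ _ _ x y f t h ht
  have ht' : aeval (t : ℝ) f < 0 := by
    have e : aeval (t : ℝ) f = ((f.eval t : ℚ) : ℝ) := by
      rw [← eq_ratCast (algebraMap ℚ ℝ) t, aeval_algebraMap_apply, eq_ratCast, coe_aeval_eq_eval]
    rw [e]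
    exact_mod_cast ht
  set η : ℝ := -aeval (t : ℝ) f / 2 with hη
  have hη0 : 0 < η := by rw [hη]; linarith
  obtain ⟨δ, hδ, hc⟩ := Metric.continuous_iff.1 (f.continuous_aeval (A := ℝ)) t η hη0
  obtain ⟨N, hN⟩ := exists_nat_gt (max (1 / δ) (1 / η))
  have hN1 : 1 / δ < N := (le_max_left _ _).trans_lt hN
  have hN2 : 1 / η < N := (le_max_right _ _).trans_lt hN
  have hN0 : 0 < N := Nat.cast_pos.1 ((one_div_pos.2 hδ).trans hN1)
  set n : ℕ := (f.coeff 2).den * (f.coeff 1).den * (f.coeff 0).den * t.den * N with hn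
  have hn0 : 0 < n := by
    have := (f.coeff 2).den_pos
    have := (f.coeff 1).den_pos
    have := (f.coeff 0).den_pos
    have := t.den_pos
    positivity
  have hNn : N ≤ n := Nat.le_of_dvd hn0 (Dvd.intro_left _ rfl)
  obtain ⟨n2, e2⟩ := scal_int (f.coeff 2) (n := n) ⟨(f.coeff 1).den * (f.coeff 0).den * t.den * N,
    by rw [hn]; ring⟩ two_ne_zero
  obtain ⟨n1, e1⟩ := scal_int (f.coeff 1) (n := n) ⟨(f.coeff 2).den * (f.coeff 0).den * t.den * N,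
    by rw [hn]; ring⟩ four_ne_zero
  obtain ⟨n0, e0⟩ := scal_int (f.coeff 0) (n := n) (k := 6)
    ⟨(f.coeff 2).den * (f.coeff 1).den * t.den * N, by rw [hn]; ring⟩ (by norm_num)
  obtain ⟨t0, et⟩ := scal_int t (n := n) ⟨(f.coeff 2).den * (f.coeff 1).den * (f.coeff 0).den * N,
    by rw [hn]; ring⟩ two_ne_zero
  have hb : (n : ℚ) ≠ 0 := Nat.cast_ne_zero.2 hn0.ne'
  set F : ℤ[X] := X ^ 3 + C n2 * X ^ 2 + C n1 * X + C n0 with hF
  have hm : F.map (Int.castRingHom ℚ) = C ((n : ℚ) ^ 6) * f.comp (C ((n : ℚ) ^ 2)⁻¹ * X) := by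
    rw [scal_eq h.monic h.deg hb, ← e2, ← e1, ← e0, hF]
    simp
  have hM := scal_model h hb
  rw [← hm] at hM
  have hneg : ∀ s : ℝ, (t0 : ℝ) ≤ s → s ≤ t0 + 1 → aeval s F < -1 := by
    intro s s1 s2
    have hn1 : (1 : ℝ) ≤ n := by exact_mod_cast hn0
    have hn2 : (N : ℝ) ≤ n := by exact_mod_cast hNn
    have hp : (0 : ℝ) < (n : ℝ) ^ 2 := by positivity
    have et' : (t0 : ℝ) = t * (n : ℝ) ^ 2 := by exact_mod_cast congrArg (fun q : ℚ => (q : ℝ)) et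
    have e : aeval s F = (n : ℝ) ^ 6 * aeval (s / (n : ℝ) ^ 2) f := by
      have e3 : aeval s F = aeval s (F.map (Int.castRingHom ℚ)) :=
        (aeval_map_algebraMap ℚ s F).symm
      have e4 : s = algebraMap ℚ ℝ ((n : ℚ) ^ 2) * (s / (n : ℝ) ^ 2) := by
        simp only [eq_ratCast]; push_cast; field_simp
      rw [e3, hm, map_mul, aeval_C]
      conv_lhs => rw [e4]
      rw [scal_aeval _ (pow_ne_zero _ hb)]
      simp
    have h2 : (n : ℝ) ≤ (n : ℝ) ^ 2 := le_self_pow₀ hn1 two_ne_zero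
    have h6 : (n : ℝ) ≤ (n : ℝ) ^ 6 := le_self_pow₀ hn1 (by norm_num)
    have hd : dist (s / (n : ℝ) ^ 2) t < δ := by
      have e5 : s / (n : ℝ) ^ 2 - t = (s - t0) / (n : ℝ) ^ 2 := by rw [et']; field_simp
      rw [Real.dist_eq, e5, abs_of_nonneg (div_nonneg (by linarith) hp.le), div_lt_iff₀ hp]
      rw [div_lt_iff₀ hδ] at hN1
      nlinarith
    have h7 := hc _ hd
    rw [Real.dist_eq, abs_lt] at h7
    have h8 : aeval (s / (n : ℝ) ^ 2) f < -η := by linarith [h7.2]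
    rw [div_lt_iff₀ hη0] at hN2
    rw [e]
    nlinarith
  have hv : F.eval t0 < -1 := by
    have := hneg t0 le_rfl (by linarith)
    rw [← eq_intCast (algebraMap ℤ ℝ) t0, aeval_algebraMap_apply, eq_intCast, coe_aeval_eq_eval]
      at this
    exact_mod_cast this
  refine ⟨n, F, t0, (-F.eval t0).toNat, hb, ⟨?_, ?_, hM.sep,
    fun s s1 s2 => by linarith [hneg s s1 s2], by omega, by omega⟩, hneg, by rw [et, mul_comm], hM⟩
  · rw [hF]; monicity!
  · rw [hF]; compute_degree!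

end Pool.Agent.MP_f3836a_nt.VE.A
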