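import Pool.Agent.MP_f3836a_nt.VE.ECore
import Pool.Agent.MP_f3836a_nt.VE.XTopL

/-! The analytic core. -/

set_option autoImplicit false

namespace Pool.Agent.MP_f3836a_nt.VE

theorem core : Core := coreOf xTopL

end Pool.Agent.MP_f3836a_nt.VE
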