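import Pool.Agent.MP_f3836a_nt.VE.SpecA7

/-! A function with a given divisor. -/

set_option autoImplicit false

namespace Pool.Agent.MP_f3836a_nt.VE.A7

open Polynomial WeierstrassCurve.Affine.CoordinateRing
open WeierstrassCurve hiding mk
open WeierstrassCurve.Affine hiding map

namespace PFunX

variable {K : Type} [Field K] {a b c x y : K}

theorem poly (a b c : K) : (wc a b c).polynomial = X ^ 2 - C (cb a b c) := by
  simp [Affine.polynomial, wc, cb]

theorem root_sq (a b c : K) : mk (wc a b c) X ^ 2 = mk (wc a b c) (C (cb a b c)) := by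
  rw [← map_pow]
  exact AdjoinRoot.mk_eq_mk.mpr ⟨1, by rw [poly, mul_one]⟩

/-- the conjugation -/
noncomputable def cj (a b c : K) : (wc a b c).CoordinateRing →+* (wc a b c).CoordinateRing :=
  AdjoinRoot.lift (AdjoinRoot.of _) (-mk (wc a b c) X) (by
    conv_lhs => arg 3; rw [poly]
    rw [eval₂_sub, eval₂_X_pow, eval₂_C, neg_sq, root_sq, AdjoinRoot.mk_C, sub_self])

theorem cj_C (p : K[X]) : cj a b c (mk _ (C p)) = mk _ (C p) := by
  rw [cj, AdjoinRoot.lift_mk, eval₂_C, AdjoinRoot.mk_C]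

theorem cj_Y : cj a b c (mk _ X) = -mk _ X := by rw [cj, AdjoinRoot.lift_mk, eval₂_X]

theorem cj_map (x y : K) : (XYIdeal (wc a b c) x (C y)).map (cj a b c) =
    XYIdeal (wc a b c) x (C ((wc a b c).negY x y)) := by
  have e : cj a b c (YClass (wc a b c) (C y)) = -YClass (wc a b c) (C ((wc a b c).negY x y)) := by
    rw [YClass, YClass, map_sub, map_sub, cj_C, cj_Y, show (wc a b c).negY x y = -y by
      simp [wc, Affine.negY], map_sub, map_neg, map_neg, map_neg]
    ring
  rw [XYIdeal, XYIdeal, Ideal.map_span, Set.image_pair, e, XClass, cj_C, Ideal.span_insert,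
    Ideal.span_singleton_neg, ← Ideal.span_insert]

/-- evaluation at a point -/
noncomputable def ev (h : (wc a b c).Equation x y) : (wc a b c).CoordinateRing →+* K :=
  AdjoinRoot.lift (evalRingHom x) y (by
    rw [eval₂_evalRingHom]
    exact h)

theorem ev_C (h : (wc a b c).Equation x y) (p : K[X]) : ev h (mk _ (C p)) = p.eval x := by
  rw [ev, AdjoinRoot.lift_mk, eval₂_C, coe_evalRingHom]

theorem ev_Y (h : (wc a b c).Equation x y) : ev h (mk _ X) = y := by
  rw [ev, AdjoinRoot.lift_mk, eval₂_X]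

theorem le_ker (h : (wc a b c).Equation x y) (x' y' : K) :
    XYIdeal (wc a b c) x' (C y') ≤ RingHom.ker (ev h) ↔ x = x' ∧ y = y' := by
  rw [XYIdeal, Ideal.span_le, Set.insert_subset_iff, Set.singleton_subset_iff, SetLike.mem_coe,
    SetLike.mem_coe, RingHom.mem_ker, RingHom.mem_ker, XClass, YClass, ev_C, map_sub (mk _),
    map_sub (ev h), ev_Y, ev_C]
  simp [sub_eq_zero]

theorem dvd_of {p q : K[X]} (h : mk (wc a b c) (C p) ∣ mk (wc a b c) (C q)) : p ∣ q := by
  obtain ⟨g, e⟩ := h
  obtain ⟨r, s, rfl⟩ := exists_smul_basis_eq g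
  have := (smul_basis_eq_zero (W' := wc a b c) (p := p * r - q) (q := p * s) (by
    simp only [CoordinateRing.smul, map_sub, map_mul] at e ⊢
    linear_combination -e)).1
  exact ⟨r, (sub_eq_zero.1 this).symm⟩

end PFunX

open PFunX

theorem rFun : FunS := by
  classical
  intro K _ _ a b c y0 x y n h0 h hy hxy e
  have e1 := congrArg Affine.Point.toClass e
  rw [map_add, map_nsmul, Affine.Point.toClass_some, Affine.Point.toClass_some] at e1
  have e2 : ClassGroup.mk (wc a b c).FunctionField (XYIdeal' h0 ^ n * XYIdeal' h) = 1 := by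
    rw [map_mul, map_pow]
    exact e1
  obtain ⟨g, -, hg⟩ := (ClassGroup.mk_eq_one_of_coe_ideal
    (I' := XYIdeal (wc a b c) 0 (C y0) ^ n * XYIdeal (wc a b c) x (C y)) (by
      rw [Units.val_mul, Units.val_pow_eq_pow_val, XYIdeal'_eq, XYIdeal'_eq,
        FractionalIdeal.coeIdeal_mul, FractionalIdeal.coeIdeal_pow])).1 e2
  obtain ⟨A, B, rfl⟩ := exists_smul_basis_eq g
  simp only [CoordinateRing.smul, mul_one] at hg
  have e3 := congrArg (Ideal.map (cj a b c)) hg
  rw [Ideal.map_mul, Ideal.map_pow, cj_map, cj_map, Ideal.map_span, Set.image_singleton, map_add,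
    map_mul, cj_C, cj_C, cj_Y] at e3
  have e4 := congrArg₂ (· * ·) e3 hg
  simp only [Ideal.span_singleton_mul_span_singleton] at e4
  rw [mul_mul_mul_comm, ← mul_pow, XYIdeal_neg_mul h0, XYIdeal_neg_mul h, XIdeal, XIdeal,
    Ideal.span_singleton_pow, Ideal.span_singleton_mul_span_singleton,
    Ideal.span_singleton_eq_span_singleton] at e4
  have e5 : Associated (mk (wc a b c) (C (X ^ n * (X - C x))))
      (mk (wc a b c) (C (A ^ 2 - cb a b c * B ^ 2))) := by
    convert e4 using 1
    · simp only [XClass, map_mul, map_pow, map_zero, sub_zero]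
    · simp only [map_mul, map_pow, map_sub, ← root_sq]
      ring
  obtain ⟨u, hu⟩ := associated_of_dvd_dvd (dvd_of e5.dvd) (dvd_of e5.symm.dvd)
  obtain ⟨κ, hκ, e6⟩ := isUnit_iff.1 u.isUnit
  refine ⟨A, B, κ, hκ.ne_zero, by rw [e6, ← hu, mul_comm], ?_, fun z => ?_⟩
  · have := (hg.symm.le.trans (Ideal.mul_le_right.trans ((le_ker h.1 x y).2 ⟨rfl, rfl⟩)))
      (Ideal.mem_span_singleton_self _)
    rwa [RingHom.mem_ker, map_add, map_mul, ev_C, ev_C, ev_Y] at this
  · have h1 : (wc a b c).Equation 0 (-y0) := by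
      have := h0.1
      rw [Affine.equation_iff] at this ⊢
      simpa [wc] using this
    have k : XYIdeal (wc a b c) 0 (C y0) ^ n * XYIdeal (wc a b c) x (C y) ≤
        RingHom.ker (ev h1) := by
      rw [hg, Ideal.span_singleton_le_iff_mem, RingHom.mem_ker, map_add, map_mul, ev_C, ev_C, ev_Y]
      linear_combination z
    have pr := RingHom.ker_isPrime (ev h1)
    rcases pr.mul_le.1 k with k | k
    · exact hy (neg_eq_self.1 ((le_ker h1 _ _).1 (Ideal.IsPrime.le_of_pow_le k)).2)
    · exact hxy ⟨((le_ker h1 _ _).1 k).1.symm, ((le_ker h1 _ _).1 k).2.symm⟩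

end Pool.Agent.MP_f3836a_nt.VE.A7
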