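import Pool.Agent.MP_f3836a_nt.VE.SpecA7

/-! Integrality of a function whose norm is monic and integral. -/

set_option autoImplicit false

namespace Pool.Agent.MP_f3836a_nt.VE.A7

open Polynomial

namespace PInt

section
variable {R : Type} [CommRing R] [IsDomain R] {F A B M : R[X]}

theorem dg (hF : F.natDegree = 3) (hB : B ≠ 0) : (F * B ^ 2).natDegree = 3 + 2 * B.natDegree := by
  have h0 : F ≠ 0 := by
    rintro rfl
    simp at hF
  rw [natDegree_mul h0 (pow_ne_zero _ hB), hF, natDegree_pow]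

theorem zer (hF : F.natDegree = 3) (h : A ^ 2 = F * B ^ 2) : A = 0 ∧ B = 0 := by
  have hB : B = 0 := by
    by_contra hB
    have := dg hF hB
    rw [← h, natDegree_pow] at this
    omega
  rw [hB, zero_pow two_ne_zero, mul_zero] at h
  exact ⟨pow_eq_zero_iff two_ne_zero |>.1 h, hB⟩

theorem degs {κ : R} {m : ℕ} (hF : F.natDegree = 3) (hM : M.Monic) (hm : M.natDegree = 2 * m)
    (h2 : 2 ≤ m) (hκ : κ ≠ 0) (h : A ^ 2 - F * B ^ 2 = C κ * M) :
    A.natDegree = m ∧ B.natDegree + 2 ≤ m ∧ A.leadingCoeff ^ 2 = κ := by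
  have h1 : (A ^ 2 - F * B ^ 2).natDegree = 2 * m := by rw [h, natDegree_C_mul hκ, hm]
  have h3 : (A ^ 2 - F * B ^ 2).leadingCoeff = κ := by
    rw [h, leadingCoeff_mul, leadingCoeff_C, hM.leadingCoeff, mul_one]
  have h4 : (A ^ 2).natDegree = 2 * A.natDegree := natDegree_pow _ _
  by_cases hB : B = 0
  · rw [hB, zero_pow two_ne_zero, mul_zero, sub_zero] at h1 h3
    rw [leadingCoeff_pow] at h3
    exact ⟨by omega, by simpa [hB] using h2, h3⟩
  have h5 := dg hF hB
  rcases lt_or_gt_of_ne (show (F * B ^ 2).natDegree ≠ (A ^ 2).natDegree by omega) with h6 | h6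
  · rw [natDegree_sub_eq_left_of_natDegree_lt h6] at h1
    rw [leadingCoeff_sub_of_degree_lt (degree_lt_degree h6), leadingCoeff_pow] at h3
    exact ⟨by omega, by omega, h3⟩
  · rw [natDegree_sub_eq_right_of_natDegree_lt h6] at h1
    omega

theorem dv [UniqueFactorizationMonoid R] (hF : F.Monic) (hF3 : F.natDegree = 3) (b : R) :
    b ≠ 0 → ∀ A B : R[X], A ^ 2 - F * B ^ 2 = C b ^ 2 * M →
      ∃ A' B' : R[X], A = C b * A' ∧ B = C b * B' ∧ A' ^ 2 - F * B' ^ 2 = M := by
  induction b using UniqueFactorizationMonoid.induction_on_prime with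
  | h₁ => exact fun h => absurd rfl h
  | h₂ x hx =>
    intro _ A B h
    obtain ⟨y, hy⟩ := hx.exists_right_inv
    have e : C x * C y = (1 : R[X]) := by rw [← C_mul, hy, C_1]
    refine ⟨C y * A, C y * B, by rw [← mul_assoc, e, one_mul], by rw [← mul_assoc, e, one_mul], ?_⟩
    linear_combination C y ^ 2 * h + M * (C x * C y + 1) * e
  | h₃ a π ha hπ ih =>
    intro _ A B h
    have := (Ideal.span_singleton_prime hπ.ne_zero).2 hπ
    let φ := Ideal.Quotient.mk (Ideal.span {π})
    have h0 : φ π = 0 := Ideal.Quotient.eq_zero_iff_mem.2 (Ideal.mem_span_singleton_self π)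
    have h1 := congrArg (Polynomial.map φ) h
    simp only [Polynomial.map_sub, Polynomial.map_mul, Polynomial.map_pow, map_C, map_mul, h0,
      map_zero, zero_mul, zero_pow two_ne_zero, sub_eq_zero] at h1
    obtain ⟨h2, h3⟩ := zer (by rw [hF.natDegree_map, hF3]) h1
    have key : ∀ P : R[X], P.map φ = 0 → C π ∣ P := fun P hP => (C_dvd_iff_dvd_coeff _ _).2 fun i => by
      have := congrArg (coeff · i) hP
      simp only [coeff_map, coeff_zero] at this
      exact Ideal.mem_span_singleton.1 (Ideal.Quotient.eq_zero_iff_mem.1 this)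
    obtain ⟨A1, rfl⟩ := key A h2
    obtain ⟨B1, rfl⟩ := key B h3
    obtain ⟨A', B', rfl, rfl, h4⟩ := ih ha A1 B1
      (mul_left_cancel₀ (pow_ne_zero 2 (C_ne_zero.2 hπ.ne_zero)) (by
        rw [C_mul] at h
        linear_combination h))
    exact ⟨A', B', by rw [C_mul, mul_assoc], by rw [C_mul, mul_assoc], h4⟩

end

theorem den {R K : Type} [CommRing R] [IsDomain R] [Field K] [Algebra R K] [IsFractionRing R K]
    (P : K[X]) : ∃ b : R, b ≠ 0 ∧ ∃ Q : R[X], Q.map (algebraMap R K) = C (algebraMap R K b) * P := by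
  obtain ⟨b, hb, h⟩ := IsLocalization.integerNormalization_spec (nonZeroDivisors R) P
  exact ⟨b, nonZeroDivisors.ne_zero hb, _, by rw [h, ← smul_eq_C_mul, algebraMap_smul]⟩

theorem gen {R K : Type} [CommRing R] [IsDomain R] [UniqueFactorizationMonoid R] [Field K]
    [Algebra R K] [IsFractionRing R K] (F M : R[X]) (A B : K[X]) (κ : K) (m : ℕ) (hF : F.Monic)
    (hF3 : F.natDegree = 3) (hM : M.Monic) (hm : M.natDegree = 2 * m) (h2 : 2 ≤ m) (hκ : κ ≠ 0)
    (h : A ^ 2 - F.map (algebraMap R K) * B ^ 2 = C κ * M.map (algebraMap R K)) :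
    ∃ (A' B' : R[X]) (c : K), c ≠ 0 ∧ A = C c * A'.map (algebraMap R K) ∧
      B = C c * B'.map (algebraMap R K) ∧ A'.Monic ∧ A'.natDegree = m ∧ B'.natDegree + 2 ≤ m ∧
      A' ^ 2 - F * B' ^ 2 = M := by
  have hi := IsFractionRing.injective R K
  obtain ⟨h3, -, h5⟩ := degs (by rw [hF.natDegree_map, hF3]) (hM.map _)
    (by rw [hM.natDegree_map, hm]) h2 hκ h
  have hc : A.leadingCoeff ≠ 0 := fun e => hκ (by rw [← h5, e, zero_pow two_ne_zero])
  generalize hcc : A.leadingCoeff = c at h5 hc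
  have e : C c * C c⁻¹ = (1 : K[X]) := by rw [← C_mul, mul_inv_cancel₀ hc, C_1]
  obtain ⟨b1, hb1, A1, hA1⟩ := den (R := R) (C c⁻¹ * A)
  obtain ⟨b2, hb2, B1, hB1⟩ := den (R := R) (C c⁻¹ * B)
  obtain ⟨A', B', hA, hB, h6⟩ := dv (M := M) hF hF3 (b1 * b2) (mul_ne_zero hb1 hb2) (C b2 * A1)
    (C b1 * B1) (map_injective _ hi (by
      simp only [Polynomial.map_sub, Polynomial.map_mul, Polynomial.map_pow, map_C, map_mul, hA1,
        hB1]
      rw [← h5, C_pow] at h
      linear_combination (C (algebraMap R K b1) * C (algebraMap R K b2) * C c⁻¹) ^ 2 * h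
        + (C (algebraMap R K b1) * C (algebraMap R K b2)) ^ 2 * M.map (algebraMap R K)
          * (C c * C c⁻¹ + 1) * e))
  have hn : C (algebraMap R K b1) * C (algebraMap R K b2) ≠ 0 :=
    mul_ne_zero (C_ne_zero.2 ((map_ne_zero_iff _ hi).2 hb1))
      (C_ne_zero.2 ((map_ne_zero_iff _ hi).2 hb2))
  replace hA := congrArg (Polynomial.map (algebraMap R K)) hA
  replace hB := congrArg (Polynomial.map (algebraMap R K)) hB
  simp only [Polynomial.map_mul, map_C, map_mul, hA1, hB1] at hA hB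
  have hA' : A = C c * A'.map (algebraMap R K) := mul_left_cancel₀ hn (by
    linear_combination C c * hA - C (algebraMap R K b1) * C (algebraMap R K b2) * A * e)
  have hB' : B = C c * B'.map (algebraMap R K) := mul_left_cancel₀ hn (by
    linear_combination C c * hB - C (algebraMap R K b1) * C (algebraMap R K b2) * B * e)
  obtain ⟨h7, h8, -⟩ := degs hF3 hM hm h2 one_ne_zero (by rw [h6, C_1, one_mul])
  refine ⟨A', B', c, hc, hA', hB', monic_of_injective hi ?_, h7, h8, h6⟩
  rw [hA', leadingCoeff_mul, leadingCoeff_C] at hcc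
  exact mul_left_cancel₀ hc (hcc.trans (mul_one c).symm)

end PInt

theorem rInt : IntS := fun _ _ F M A B κ m hF hF3 hM hm h2 hκ h =>
  PInt.gen F M A B κ m hF hF3 hM hm h2 hκ h

end Pool.Agent.MP_f3836a_nt.VE.A7

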