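import Pool.Agent.MP_f3836a_nt.VE.SpecA7

/-! The bound for the coefficients from the two branches. -/

set_option autoImplicit false

namespace Pool.Agent.MP_f3836a_nt.VE.A7

open Polynomial

theorem rKl : OfKl := by
  intro hK p _ a b y0 hy
  have hp : (p : ℤ_[p]) ≠ 0 := Nat.cast_ne_zero.2 (Fact.out : p.Prime).ne_zero
  have h4 : (4 : ℤ_[p]) * y0 ^ 2 ≠ 0 := mul_ne_zero (by norm_num) (pow_ne_zero _ hy)
  have h0 := mul_ne_zero h4 hp
  obtain ⟨e, w, hw⟩ : ∃ (e : ℕ) (w : ℤ_[p]), (p : ℤ_[p]) ^ e = 4 * y0 ^ 2 * p * w :=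
    ⟨_, ((PadicInt.unitCoeff h0)⁻¹ : ℤ_[p]ˣ), by
      rw [eq_comm, Units.mul_inv_eq_iff_eq_mul, mul_comm (_ ^ _)]
      exact PadicInt.unitCoeff_spec h0⟩
  refine ⟨e, (p : ℝ) ^ (-((e + 1 : ℕ) : ℤ)), zpow_pos (by exact_mod_cast (Fact.out : p.Prime).pos) _,
    ?_⟩
  intro A B x y n hx hyy hF hAB hz h1 i hi
  rw [PadicInt.norm_le_pow_iff_mem_span_pow, Ideal.mem_span_singleton] at hx hyy
  obtain ⟨r, rfl⟩ := hx
  obtain ⟨s, hs⟩ := hyy
  set t : ℤ_[p] := (p : ℤ_[p]) ^ e with ht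
  have hx : t * (p * r) = (p : ℤ_[p]) ^ (e + 1) * r := by ring
  have hy' : y = y0 + 2 * y0 * (p * (2 * y0 * p * w * s)) := by
    rw [pow_succ, ← ht] at hs
    linear_combination hs + p * s * hw
  have hq : (cb a b (y0 ^ 2)).comp (C t * X) = C y0 ^ 2 * (1 + 4 * C (p : ℤ_[p]) *
      (C w * (C t ^ 2 * X ^ 3 + C a * C t * X ^ 2 + C b * X))) := by
    have h5 : C t = 4 * C y0 ^ 2 * C (p : ℤ_[p]) * C w := by
      rw [hw]
      simp only [map_mul, map_pow, map_ofNat]
    simp only [cb, add_comp, mul_comp, pow_comp, X_comp, C_comp, map_pow]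
    linear_combination (C t ^ 2 * X ^ 3 + C a * C t * X ^ 2 + C b * X) * h5
  have h6 := congrArg (comp · (C t * X)) hAB
  simp only [sub_comp, mul_comp, pow_comp, X_comp, C_comp, hq] at h6
  have h7 := congrArg (eval (p * r)) hq
  rw [eval_comp, eval_mul, eval_C, eval_X, hx, ← hF] at h7
  have h := hK p (A.comp (C t * X) + C y0 * B.comp (C t * X)) (2 * C y0 * B.comp (C t * X))
    (C w * (C t ^ 2 * X ^ 3 + C a * C t * X ^ 2 + C b * X)) (t ^ (n + 1)) (p * r)
    (p * (2 * y0 * p * w * s)) n (by simp) (dvd_mul_right _ _) (dvd_mul_right _ _)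
    (mul_left_cancel₀ h4 (by
      generalize C w * (C t ^ 2 * X ^ 3 + C a * C t * X ^ 2 + C b * X) = q at h7 ⊢
      simp only [eval_mul, eval_add, eval_pow, eval_C, eval_one, eval_ofNat] at h7
      rw [hy'] at h7
      linear_combination h7))
    (pow_ne_zero _ (pow_ne_zero _ hp))
    (by
      rw [← hx, map_mul] at h6
      rw [map_pow C t]
      linear_combination h6)
    (by
      simp only [eval_mul, eval_add, eval_C, eval_ofNat, eval_comp, eval_X, hx]
      rw [hy'] at hz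
      linear_combination hz)
    (by
      simp only [eval_mul, eval_add, eval_C, eval_ofNat, eval_comp, eval_X, mul_zero]
      intro h
      exact h1 (by linear_combination h)) i hi
  have h8 : 2 * (A.comp (C t * X) + C y0 * B.comp (C t * X)) - 2 * C y0 * B.comp (C t * X) =
      C 2 * A.comp (C t * X) := by
    rw [map_ofNat]
    ring
  rw [h8, coeff_C_mul, comp_C_mul_X_coeff] at h
  simp only [eval_mul, eval_add, eval_C, eval_ofNat, eval_comp, eval_X, mul_zero] at h
  rw [pow_mul, ← ht, mul_assoc]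
  convert h using 1
  ring

end Pool.Agent.MP_f3836a_nt.VE.A7
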