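import Pool.Agent.MP_f3836a_nt.VE.SpecA7

/-! The two branches, in the ring of power series. -/

set_option autoImplicit false

namespace Pool.Agent.MP_f3836a_nt.VE.A7

namespace PKlz

open PowerSeries

variable {p : ℕ} [Fact p.Prime]

theorem res_zero {x : ℤ_[p]} : IsLocalRing.residue ℤ_[p] x = 0 ↔ (p : ℤ_[p]) ∣ x := by
  rw [IsLocalRing.residue_eq_zero_iff, PadicInt.maximalIdeal_eq_span_p, Ideal.mem_span_singleton]

theorem dvd_iff {F : ℤ_[p]⟦X⟧} : C (p : ℤ_[p]) ∣ F ↔ F.map (IsLocalRing.residue ℤ_[p]) = 0 := by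
  constructor
  · rintro ⟨H, rfl⟩
    rw [map_mul, map_C, res_zero.2 dvd_rfl, map_zero, zero_mul]
  · intro h
    have : ∀ i, (p : ℤ_[p]) ∣ coeff i F := fun i => res_zero.1 (by
      simpa using congrArg (coeff i) h)
    choose c hc using this
    exact ⟨mk c, by ext i; rw [coeff_C_mul, coeff_mk, hc]⟩

theorem prime_C : Prime (C (p : ℤ_[p]) : ℤ_[p]⟦X⟧) := by
  refine ⟨fun h => PadicInt.prime_p.ne_zero (by simpa using congrArg constantCoeff h),
    fun h => PadicInt.prime_p.not_isUnit (by simpa using isUnit_constantCoeff _ h), fun a b h => ?_⟩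
  rwa [dvd_iff, map_mul, mul_eq_zero, ← dvd_iff, ← dvd_iff] at h

/-- divisors of a constant -/
theorem dvd_coeff {G : ℤ_[p]⟦X⟧} {κ : ℤ_[p]} (hκ : κ ≠ 0) (h : G ∣ C κ) (i : ℕ) :
    constantCoeff G ∣ coeff i G := by
  rw [PadicInt.unitCoeff_spec hκ, map_mul, ((PadicInt.unitCoeff hκ).isUnit.map C).dvd_mul_left,
    map_pow, dvd_prime_pow prime_C] at h
  obtain ⟨j, -, u, hu⟩ := h
  rw [← (Units.eq_mul_inv_iff_mul_eq u), ← map_pow] at hu
  rw [hu, coeff_C_mul, map_mul, constantCoeff_C, (isUnit_constantCoeff _ u⁻¹.isUnit).mul_right_dvd]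
  exact dvd_mul_right _ _

theorem const_zero {r d : ℤ_[p]} (hr : (p : ℤ_[p]) ∣ r) (h : (X - C r : ℤ_[p]⟦X⟧) ∣ C d) : d = 0 := by
  by_contra hd
  have := dvd_coeff hd h 1
  simp only [map_sub, constantCoeff_X, constantCoeff_C, zero_sub, coeff_one_X, coeff_C,
    one_ne_zero, if_false, sub_zero, neg_dvd] at this
  exact PadicInt.prime_p.not_dvd_one (hr.trans this)

theorem divide {r : ℤ_[p]} (hr : (p : ℤ_[p]) ∣ r) (Z : ℤ_[p]⟦X⟧) :
    ∃ (Q : ℤ_[p]⟦X⟧) (c : ℤ_[p]), Z = (X - C r) * Q + C c := by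
  have e : (X - C r : ℤ_[p]⟦X⟧).map (IsLocalRing.residue ℤ_[p]) = X := by
    rw [map_sub, map_X, map_C, res_zero.2 hr, map_zero, sub_zero]
  obtain ⟨Q, R, h1, h2⟩ := exists_isWeierstrassDivision Z (g := X - C r) (e ▸ X_ne_zero)
  have e' : ((X - C r : ℤ_[p]⟦X⟧).map
      (Ideal.Quotient.mk (IsLocalRing.maximalIdeal ℤ_[p]))).order.toNat = 1 :=
    (congrArg (fun F => F.order.toNat) e).trans (by rw [order_X]; rfl)
  rw [e', Nat.cast_one, Nat.WithBot.lt_one_iff_le_zero] at h1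
  exact ⟨Q, R.coeff 0, by
    rw [h2, ← Polynomial.coe_C (R.coeff 0), ← Polynomial.eq_C_of_degree_le_zero h1]⟩

theorem root {w : ℤ_[p]⟦X⟧} (hw : constantCoeff w = 0) :
    ∃ Z : ℤ_[p]⟦X⟧, constantCoeff Z = 0 ∧ Z + Z ^ 2 = w := by
  obtain ⟨Z, h1, h2⟩ := HenselianRing.is_henselian (I := Ideal.span {(X : ℤ_[p]⟦X⟧)})
    (Polynomial.X ^ 2 + Polynomial.X - Polynomial.C w) (by monicity!) 0
    (by simpa [Ideal.mem_span_singleton, X_dvd_iff] using hw) (by simp)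
  refine ⟨Z, by simpa [Ideal.mem_span_singleton, X_dvd_iff] using h2, ?_⟩
  simp only [Polynomial.IsRoot.def, Polynomial.eval_sub, Polynomial.eval_add, Polynomial.eval_pow,
    Polynomial.eval_X, Polynomial.eval_C] at h1
  linear_combination h1

theorem expand (a : Polynomial ℤ_[p]) (r : ℤ_[p]) :
    ∃ b : ℤ_[p]⟦X⟧, (a : ℤ_[p]⟦X⟧) = C (a.eval r) + (X - C r) * b := by
  obtain ⟨b, hb⟩ := Polynomial.X_sub_C_dvd_sub_C_eval (a := r) (p := a)
  refine ⟨b, ?_⟩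
  have := congrArg Polynomial.coeToPowerSeries.ringHom hb
  simp only [map_sub, map_mul, Polynomial.coeToPowerSeries.ringHom_apply, Polynomial.coe_C,
    Polynomial.coe_X] at this
  linear_combination this

end PKlz

open PowerSeries PKlz in
theorem rKlz : KlzS := by
  intro p _ α β q κ r z n hq hr hz hzq hκ hN h0 hγ i hi
  obtain ⟨Z, Z0, hZ⟩ := root (w := C (p : ℤ_[p]) * (q : ℤ_[p]⟦X⟧)) (by
    rw [map_mul, Polynomial.constantCoeff_coe, Polynomial.coeff_zero_eq_eval_zero, hq, mul_zero])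
  obtain ⟨Q, c, hQ⟩ := divide hr Z
  obtain ⟨a1, ha⟩ := expand α r
  obtain ⟨b1, hb⟩ := expand β r
  obtain ⟨q1, hq1⟩ := expand q r
  have hc : (p : ℤ_[p]) ∣ c := by
    have := congrArg constantCoeff hQ
    simp only [Z0, map_add, map_mul, map_sub, constantCoeff_X, constantCoeff_C] at this
    exact hr.trans ⟨constantCoeff Q, by linear_combination -this⟩
  have h1 : c + c ^ 2 - p * q.eval r = 0 := const_zero hr
    ⟨C (p : ℤ_[p]) * q1 - Q - 2 * Z * Q + (X - C r) * Q ^ 2, by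
      rw [map_sub, map_add, map_pow, map_mul]
      linear_combination hZ + C (p : ℤ_[p]) * hq1 - (1 + Z + C c - (X - C r) * Q) * hQ⟩
  have h2 : c = z := by
    have h3 : (c - z) * (1 + c + z) = 0 := by linear_combination h1 - hzq
    refine sub_eq_zero.1 ((mul_eq_zero.1 h3).resolve_right fun h => ?_)
    have : (1 : ℤ_[p]) = -(c + z) := by linear_combination h
    exact PadicInt.prime_p.not_dvd_one (this ▸ (dvd_add hc hz).neg_right)
  obtain ⟨H, hH⟩ : (X - C r : ℤ_[p]⟦X⟧) ∣ α + β * Z := ⟨a1 + C (β.eval r) * Q + b1 * Z, by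
    have := congrArg (C (R := ℤ_[p])) h0
    rw [map_add, map_mul, map_zero, ← h2] at this
    linear_combination ha + Z * hb + C (β.eval r) * hQ + this⟩
  have hN' := congrArg Polynomial.coeToPowerSeries.ringHom hN
  simp only [map_sub, map_mul, map_pow, Polynomial.coeToPowerSeries.ringHom_apply, Polynomial.coe_C,
    Polynomial.coe_X] at hN'
  obtain ⟨G, hG⟩ : ∃ G : ℤ_[p]⟦X⟧, G = α - β - β * Z := ⟨_, rfl⟩
  have G0 : constantCoeff G = α.eval 0 - β.eval 0 := by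
    simp [hG, Z0, Polynomial.coeff_zero_eq_eval_zero]
  have D0 : (X - C r : ℤ_[p]⟦X⟧) ≠ 0 := fun h => by simpa [coeff_C] using congrArg (coeff 1) h
  have h4 : H * G = C κ * X ^ n := mul_left_cancel₀ D0 (by
    rw [hG]
    linear_combination hN' - (β : ℤ_[p]⟦X⟧) ^ 2 * hZ - ((α : ℤ_[p]⟦X⟧) - β - β * Z) * hH)
  obtain ⟨H', rfl⟩ : (X : ℤ_[p]⟦X⟧) ^ n ∣ H := X_prime.pow_dvd_of_dvd_mul_right n
    (fun h => hγ (G0 ▸ X_dvd_iff.1 h)) (h4 ▸ dvd_mul_left _ _)
  have h5 : G ∣ C κ := ⟨H', mul_left_cancel₀ (pow_ne_zero n X_ne_zero) (by linear_combination -h4)⟩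
  have h6 : ((2 * α - β : Polynomial ℤ_[p]) : ℤ_[p]⟦X⟧) = X ^ n * ((X - C r) * H') + G := by
    rw [two_mul, Polynomial.coe_sub, Polynomial.coe_add, hG]
    linear_combination hH
  rw [← Polynomial.coeff_coe, h6, map_add, X_pow_dvd_iff.1 (dvd_mul_right _ _) i hi, zero_add, ← G0]
  exact dvd_coeff hκ h5 i

end Pool.Agent.MP_f3836a_nt.VE.A7
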