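import Pool.Agent.MP_f3836a_nt.VE.SpecA7

/-! Translation by a point close to the origin. -/

set_option autoImplicit false

namespace Pool.Agent.MP_f3836a_nt.VE.A7

open Polynomial WeierstrassCurve

namespace PNear

variable {p : ℕ} [Fact p.Prime]

theorem ad {u v : ℚ_[p]} {r : ℝ} (hu : ‖u‖ ≤ r) (hv : ‖v‖ ≤ r) : ‖u + v‖ ≤ r :=
  (IsUltrametricDist.norm_add_le_max u v).trans (max_le hu hv)

theorem sb {u v : ℚ_[p]} {r : ℝ} (hu : ‖u‖ ≤ r) (hv : ‖v‖ ≤ r) : ‖u - v‖ ≤ r := by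
  rw [sub_eq_add_neg]
  exact ad hu (by rwa [norm_neg])

theorem ml {c u : ℚ_[p]} {r : ℝ} (hc : ‖c‖ ≤ 1) (hu : ‖u‖ ≤ r) : ‖c * u‖ ≤ r := by
  rw [norm_mul]
  exact (mul_le_of_le_one_left (norm_nonneg _) hc).trans hu

theorem est {a b y0 x y : ℚ_[p]} {ε : ℝ} (ha : ‖a‖ ≤ 1) (hb : ‖b‖ ≤ 1) (h0 : ‖y0‖ ≤ 1)
    (hε : 0 < ε) (s1 : 1 ≤ ‖x‖) (s2 : 1 ≤ ε * ‖x‖) (s3 : 1 ≤ ε ^ 2 * ‖x‖)
    (he : y ^ 2 = x ^ 3 + a * x ^ 2 + b * x + y0 ^ 2) :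
    ‖((y0 - y) / (0 - x)) ^ 2 - a - x‖ ≤ ε ∧
      ‖-((y0 - y) / (0 - x) * (((y0 - y) / (0 - x)) ^ 2 - a - x) + y0) - y0‖ ≤ ε := by
  have s0 : 0 < ‖x‖ := by linarith
  have hx : x ≠ 0 := norm_pos_iff.1 s0
  have h2 : ‖(2 : ℚ_[p])‖ ≤ 1 := by
    simpa using IsUltrametricDist.norm_natCast_le_one ℚ_[p] 2
  have t2 : ‖x‖ ≤ ‖x‖ ^ 2 := by nlinarith
  have t3 : ‖x‖ ^ 2 ≤ ‖x‖ ^ 3 := by nlinarith
  have hy : ‖y‖ ^ 2 ≤ ‖x‖ ^ 3 := by
    rw [← norm_pow, he]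
    refine ad (ad (ad (norm_pow _ _).le (ml ha ?_)) (ml hb (t2.trans t3))) ?_
    · rw [norm_pow]; exact t3
    · rw [sq]; exact ml h0 (by linarith)
  have u1 : ‖y‖ ≤ ε * ‖x‖ ^ 2 := by
    refine (pow_le_pow_iff_left₀ (norm_nonneg _) (by positivity) two_ne_zero).1 (hy.trans ?_)
    nlinarith [mul_le_mul_of_nonneg_right s3 (pow_nonneg s0.le 3)]
  have u2 : ‖x‖ ≤ ε * ‖x‖ ^ 2 := by nlinarith
  have u3 : ε * ‖x‖ ^ 2 ≤ ε * ‖x‖ ^ 3 := mul_le_mul_of_nonneg_left t3 hε.le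
  have e1 : ((y0 - y) / (0 - x)) ^ 2 - a - x = (b * x + 2 * (y0 * y0) - 2 * (y0 * y)) / x ^ 2 := by
    rw [zero_sub]
    field_simp
    linear_combination he
  constructor
  · rw [e1, norm_div, norm_pow, div_le_iff₀ (by positivity)]
    exact sb (ad (ml hb u2) (ml h2 (ml h0 (by linarith)))) (ml h2 (ml h0 u1))
  · have e2 : -((y0 - y) / (0 - x) * (((y0 - y) / (0 - x)) ^ 2 - a - x) + y0) - y0 =
        (b * (y0 * x) + 2 * (b * (y0 * x)) + 2 * (2 * (y0 * (y0 * y0))) + 2 * (a * (y0 * x ^ 2)) -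
          b * (x * y) - 2 * (2 * (y0 * (y0 * y)))) / x ^ 3 := by
      rw [e1, zero_sub]
      field_simp
      linear_combination (2 * y0) * he
    rw [e2, norm_div, norm_pow, div_le_iff₀ (by positivity)]
    have v1 := ml hb (ml h0 (u2.trans u3))
    refine sb (sb (ad (ad (ad v1 (ml h2 v1)) (ml h2 (ml h2 (ml h0 (ml h0 (by linarith))))))
      (ml h2 (ml ha (ml h0 ?_)))) (ml hb ?_)) (ml h2 (ml h2 (ml h0 (ml h0 (u1.trans u3)))))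
    · rw [norm_pow]
      nlinarith [mul_le_mul_of_nonneg_right s2 (sq_nonneg ‖x‖)]
    · rw [norm_mul]
      nlinarith [mul_le_mul_of_nonneg_left u1 s0.le]

end PNear

open Classical in
theorem rNear : NearS := by
  intro p _ a b y0 h0 ε ha hb hy0 hε
  refine ⟨max 1 (max (1 / ε) (1 / ε ^ 2)), fun x y h hR => ?_⟩
  simp only [max_le_iff] at hR
  obtain ⟨s1, s2, s3⟩ := hR
  rw [div_le_iff₀' hε] at s2
  rw [div_le_iff₀' (by positivity)] at s3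
  have hx : (0 : ℚ_[p]) ≠ x := fun e => by
    rw [← e, norm_zero] at s1
    linarith
  have he := (Affine.equation_iff ..).1 h.1
  simp only [wc, zero_mul, add_zero] at he
  have := PNear.est ha hb hy0 hε s1 s2 s3 he
  refine ⟨_, _, _, Affine.Point.add_of_X_ne hx, ?_⟩
  rw [Affine.slope_of_X_ne hx]
  simpa only [Affine.addY, Affine.negY, Affine.negAddY, Affine.addX, wc, zero_mul, add_zero,
    sub_zero] using this

end Pool.Agent.MP_f3836a_nt.VE.A7
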