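import Pool.Agent.MP_f3836a_nt.VE.SpecA7

/-! Existence of one function with a single slope. -/

set_option autoImplicit false

namespace Pool.Agent.MP_f3836a_nt.VE.A7

open Polynomial WeierstrassCurve

namespace POne

theorem eqn {K : Type} [Field K] {a b c x y : K} :
    (wc a b c).Equation x y ↔ y ^ 2 = (cb a b c).eval x := by
  rw [Affine.equation_iff]
  simp [wc, cb]

theorem ns {K : Type} [Field K] [CharZero K] (a b : K) {y : K} (h : y ≠ 0) :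
    (wc a b (y ^ 2)).Nonsingular 0 y := by
  refine (Affine.nonsingular_iff _ _).2 ⟨eqn.2 (by simp [cb]), .inr fun e => h ?_⟩
  simp only [wc, zero_mul, sub_zero] at e
  linear_combination e / 2

open Classical in
theorem near (h1 : RecS) (h2 : NearS) {p : ℕ} [Fact p.Prime] {a b y0 : ℚ_[p]} (h0 : y0 ≠ 0)
    (ha : ‖a‖ ≤ 1) (hb : ‖b‖ ≤ 1) (hy : ‖y0‖ ≤ 1)
    (hc : IsCoprime (cb a b (y0 ^ 2)) (derivative (cb a b (y0 ^ 2)))) {ε : ℝ} (hε : 0 < ε) :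
    ∃ (m : ℕ) (x y : ℚ_[p]) (h : (wc a b (y0 ^ 2)).Nonsingular x y), 2 ≤ m ∧ ‖x‖ ≤ ε ∧
      ‖y - y0‖ ≤ ε ∧
      (2 * m - 1) • Affine.Point.some 0 y0 (ns a b h0) + Affine.Point.some x y h = 0 := by
  obtain ⟨R, hR⟩ := h2 p a b y0 (ns a b h0) ε ha hb hy hε
  obtain ⟨n, hn, h⟩ := h1 p a b _ (4 • Affine.Point.some 0 y0 (ns a b h0)) R ha hb
    (by rw [norm_pow]; exact pow_le_one₀ (norm_nonneg _) hy) hc
  rw [← mul_nsmul, show 4 * n = 2 * (2 * n) - 1 + 1 by omega, succ_nsmul] at h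
  rcases h with h | ⟨x, y, h, e, hx⟩
  · exact ⟨2 * n, 0, y0, _, by omega, by simpa using hε.le, by simpa using hε.le, h⟩
  · obtain ⟨x', y', h', e', h3, h4⟩ := hR x _ ((Affine.nonsingular_neg x y).2 h) hx
    refine ⟨2 * n, x', y', h', by omega, h3, h4, ?_⟩
    rw [← e', ← add_assoc, e, ← Affine.Point.neg_some h, add_neg_cancel]

end POne

open POne in
theorem rOne : OfOne := by
  intro h1 h2 h3 h4 h5 h6 p _ a b y0 h0 hc
  obtain ⟨e, ε, hε, h5⟩ := h5 p a b y0 h0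
  have h0' : (y0 : ℚ_[p]) ≠ 0 := PadicInt.coe_ne_zero.2 h0
  have hp : (0 : ℝ) < p := Nat.cast_pos.2 (Fact.out : p.Prime).pos
  have h2y : 0 < ‖2 * (y0 : ℚ_[p])‖ := norm_pos_iff.2 (mul_ne_zero two_ne_zero h0')
  obtain ⟨m, x, y, h, hm, hx, hy, e0⟩ := near h1 h2 h0' a.2 b.2 y0.2 hc
    (ε := min (min ε ((p : ℝ) ^ (-((e + 1 : ℕ) : ℤ)))) (min (‖2 * (y0 : ℚ_[p])‖ / 2) 1))
    (by positivity)
  simp only [le_min_iff] at hx hy
  obtain ⟨x, rfl⟩ : ∃ z : ℤ_[p], z = x := ⟨⟨x, hx.2.2⟩, rfl⟩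
  obtain ⟨y, rfl⟩ : ∃ z : ℤ_[p], z = y := ⟨⟨y, by
    simpa using (Padic.nonarchimedean (y - (y0 : ℚ_[p])) y0).trans (max_le hy.2.2 y0.2)⟩, rfl⟩
  obtain ⟨A, B, κ, hκ, e1, e2, e3⟩ := h3 _ _ _ _ _ _ _ _ _ h h0' (fun z => by
    have := hy.2.1
    rw [z.2, show -(y0 : ℚ_[p]) - y0 = -(2 * y0) by ring, norm_neg] at this
    linarith) e0
  have hF : (cb a b (y0 ^ 2)).map PadicInt.Coe.ringHom = cb (a : ℚ_[p]) b ((y0 : ℚ_[p]) ^ 2) := by
    simp [cb, Polynomial.map_pow]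
  have ev : ∀ (P : ℤ_[p][X]) (t : ℤ_[p]),
      (P.map PadicInt.Coe.ringHom).eval (t : ℚ_[p]) = (P.eval t : ℤ_[p]) := fun P t => by
    rw [eval_map]
    exact eval₂_at_apply PadicInt.Coe.ringHom t
  obtain ⟨A', B', c, hc0, rfl, rfl, f1, f2, f3, f4⟩ := h4 p (cb a b (y0 ^ 2))
    (X ^ (2 * m - 1) * (X - C x)) A B κ m (by unfold cb; monicity!) (by unfold cb; compute_degree!)
    ((monic_X_pow _).mul (monic_X_sub_C _))
    (by rw [(monic_X_pow _).natDegree_mul (monic_X_sub_C _), natDegree_X_pow, natDegree_X_sub_C]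
        omega) hm hκ (by rw [hF, e1]; simp [Polynomial.map_pow])
  rw [eval_mul, eval_mul, eval_C] at e2 e3
  rw [ev, ev] at e2
  rw [← PadicInt.coe_zero, ev, ev] at e3
  have g1 : A'.eval 0 - B'.eval 0 * y0 ≠ 0 := fun z => e3 (by
    rw [mul_assoc, ← mul_sub, ← PadicInt.coe_mul, ← PadicInt.coe_sub, z]
    simp)
  have g2 : A'.eval x + B'.eval x * y = 0 := by
    rw [mul_assoc, ← mul_add, ← PadicInt.coe_mul, ← PadicInt.coe_add] at e2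
    exact PadicInt.coe_eq_zero.1 ((mul_eq_zero.1 e2).resolve_left hc0)
  have g3 : y ^ 2 = (cb a b (y0 ^ 2)).eval x := Subtype.ext (by
    rw [← ev, hF, ← eqn.1 h.1, PadicInt.coe_pow])
  obtain ⟨A'', u, v, g4, g5⟩ := h6 p _ A' B' y0 x m e hm (by simp [cb]) f1 f2 f3 f4
    (Ideal.mem_span_singleton.1 ((PadicInt.norm_le_pow_iff_mem_span_pow x (e + 1)).1 hx.1.2)) g1
    (h5 A' B' x y _ hx.1.1 hy.1.1 g3 f4 g2 g1)
  exact ⟨m, e + 1, A'', B', u, v, g4, g5⟩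

end Pool.Agent.MP_f3836a_nt.VE.A7
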