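import Pool.Agent.MP_f3836a_nt.VE.SpecA7

/-! The local data at a split prime: assembly. -/

set_option autoImplicit false

namespace Pool.Agent.MP_f3836a_nt.VE.A7

open Polynomial

namespace PPa

theorem cb_map {R S : Type} [CommRing R] [CommRing S] (φ : R →+* S) (a b c : R) :
    (cb a b c).map φ = cb (φ a) (φ b) (φ c) := by
  simp [cb, Polynomial.map_add, Polynomial.map_mul, Polynomial.map_pow]

theorem shift {f : ℤ[X]} {t0 : ℤ} {A0 : ℕ} (h : Crv f t0 A0) :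
    ∃ a b : ℤ, f.comp (C t0 + X) = cb a b (-(A0 : ℤ)) := by
  have h1 : (C t0 + X : ℤ[X]).natDegree = 1 := by rw [add_comm, natDegree_X_add_C]
  have h2 : (f.comp (C t0 + X)).Monic :=
    h.monic.comp (by rw [add_comm]; exact monic_X_add_C _) (by rw [h1]; norm_num)
  have h3 : (f.comp (C t0 + X)).natDegree = 3 := by rw [natDegree_comp, h.deg, h1]
  have h4 : (f.comp (C t0 + X)).coeff 0 = -(A0 : ℤ) := by
    rw [coeff_zero_eq_eval_zero, eval_comp, ← h.val]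
    simp
  refine ⟨(f.comp (C t0 + X)).coeff 2, (f.comp (C t0 + X)).coeff 1, ?_⟩
  have h5 := h2.as_sum
  rw [h3] at h5
  conv_lhs => rw [h5]
  simp only [Finset.sum_range_succ, Finset.sum_range_zero, h4, cb]
  ring

theorem cop {f : ℤ[X]} {K : Type} [Field K] [CharZero K]
    (h : (f.map (Int.castRingHom ℚ)).Separable) (t0 : ℤ) :
    ((f.comp (C t0 + X)).map (Int.castRingHom K)).Separable := by
  have h1 : (f.map (Int.castRingHom K)).Separable := by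
    have := h.map (f := algebraMap ℚ K)
    rwa [Polynomial.map_map, RingHom.eq_intCast' ((algebraMap ℚ K).comp _)] at this
  have h2 := IsCoprime.map h1 (compRingHom (C (t0 : K) + X))
  rw [Polynomial.map_comp, separable_def, derivative_comp]
  simpa using h2

theorem sv_mul {d : ℤ} {p : ℕ} [Fact p.Prime] {y : ℤ_[p]} (hy : y ^ 2 = (d : ℤ_[p])) (z w : ℤ√d) :
    sv y (z * w) = sv y z * sv y w := by
  simp only [sv, Zsqrtd.re_mul, Zsqrtd.im_mul]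
  push_cast
  linear_combination (-(z.im * w.im : ℤ_[p])) * hy

theorem desc {d : ℤ} {p : ℕ} [Fact p.Prime] {y : ℤ_[p]} (hy : 2 * y ≠ 0) (ξ : ℤ√d) (e J : ℕ)
    (h1 : (p : ℤ_[p]) ^ (e + (J + (2 * y).valuation)) ∣ sv y ξ - (p : ℤ_[p]) ^ e)
    (h2 : (p : ℤ_[p]) ^ (e + (J + (2 * y).valuation)) ∣ sv (-y) ξ - (p : ℤ_[p]) ^ e) :
    ∃ γ : ℤ√d, ξ = (p : ℤ√d) ^ e * (1 + (p : ℤ√d) ^ J * γ) := by
  have hp : (p : ℤ_[p]) ≠ 0 := by exact_mod_cast (Fact.out : p.Prime).ne_zero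
  have h3 : (p : ℤ_[p]) ^ (e + J) ∣ (ξ.im : ℤ_[p]) := by
    have a := dvd_sub h1 h2
    have b : sv y ξ - (p : ℤ_[p]) ^ e - (sv (-y) ξ - (p : ℤ_[p]) ^ e)
        = ξ.im * PadicInt.unitCoeff hy * (p : ℤ_[p]) ^ (2 * y).valuation := by
      rw [mul_assoc, ← PadicInt.unitCoeff_spec hy]
      simp only [sv]
      ring
    rw [b, ← add_assoc, pow_add, mul_dvd_mul_iff_right (pow_ne_zero _ hp)] at a
    exact Units.dvd_mul_right.1 a
  have h4 : (p : ℤ_[p]) ^ (e + J) ∣ ((ξ.re - (p : ℤ) ^ e : ℤ) : ℤ_[p]) := by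
    have a := dvd_sub ((pow_dvd_pow _ (by omega)).trans h1) (h3.mul_right y)
    convert a using 1
    simp only [sv]
    push_cast
    ring
  obtain ⟨s, hs⟩ := (PadicInt.pow_p_dvd_int_iff _ _).1 h3
  obtain ⟨r, hr⟩ := (PadicInt.pow_p_dvd_int_iff _ _).1 h4
  refine ⟨⟨r, s⟩, ?_⟩
  have c : ∀ n : ℕ, (p : ℤ√d) ^ n = (((p : ℤ) ^ n : ℤ) : ℤ√d) := fun n => by push_cast; rfl
  rw [c, c]
  ext
  · simp only [Zsqrtd.re_mul, Zsqrtd.re_add, Zsqrtd.re_intCast, Zsqrtd.im_intCast, Zsqrtd.re_one]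
    linear_combination hr
  · simp only [Zsqrtd.im_mul, Zsqrtd.im_add, Zsqrtd.re_intCast, Zsqrtd.im_intCast, Zsqrtd.im_one]
    linear_combination hs

end PPa

open PPa in
theorem rPa : OfPa := by
  intro hOne hPa hSu hPb hPc f t0 A0 p _ y0 hC hy J'
  obtain ⟨a, b, hf⟩ := shift hC
  have hy0 : y0 ≠ 0 := by
    rintro rfl
    have h1 : (A0 : ℤ_[p]) = 0 := by simpa using hy
    have h2 : A0 = 0 := by exact_mod_cast h1
    have := hC.one
    omega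
  have hF : (f.comp (C t0 + X)).map (Int.castRingHom ℤ_[p]) = cb (a : ℤ_[p]) b (y0 ^ 2) := by
    rw [hf, cb_map, hy]
    simp
  have hQ : (f.comp (C t0 + X)).map (Int.castRingHom ℚ_[p])
      = cb ((a : ℤ_[p]) : ℚ_[p]) ((b : ℤ_[p]) : ℚ_[p]) ((y0 : ℚ_[p]) ^ 2) := by
    rw [hf, cb_map, ← PadicInt.coe_pow, hy]
    simp
  obtain ⟨m, σ, A, B, u, v, hS, huv⟩ := hOne p a b y0 hy0 (hQ ▸ cop hC.sep t0)
  have h3 : (cb (a : ℤ_[p]) b (y0 ^ 2)).natDegree = 3 := by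
    unfold cb
    compute_degree!
  have h0 : (cb (a : ℤ_[p]) b (y0 ^ 2)).eval 0 = y0 ^ 2 := by simp [cb]
  obtain ⟨hu, hv, -⟩ := hPa p _ A B y0 u v m σ 1 h3 h0 hS le_rfl
  obtain ⟨π, c, hπ, hπ'⟩ := hSu A0 p y0 hC.one hy
  obtain ⟨k, e, e', ϖ, hk, hϖ, hϖ', d1, d2⟩ :=
    hPb A0 p y0 u v π c (J' + (2 * y0).valuation) hy hu hv huv hπ hπ'
  obtain ⟨-, -, A', B', hS'⟩ := hPa p _ A B y0 u v m σ k h3 h0 hS (by omega)
  obtain ⟨As, Bs, hM, hSS, hc⟩ := hPc p f t0 A' B' y0 _ _ (m * k) σ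
    (2 * (m * k) * σ + 1 + (e + (J' + (2 * y0).valuation))) hC.deg (by omega) (hF ▸ hS')
  have hm := hS.degB
  refine ⟨_, _, e, e', σ, As, Bs, ϖ, ⟨by nlinarith, hM, hϖ, fun P Q _ c1 c2 => ?_⟩, hSS, hϖ'⟩
  obtain ⟨g1, g2⟩ := hc P Q c1 c2
  have hy' : y0 ^ 2 = ((-(A0 : ℤ) : ℤ) : ℤ_[p]) := by rw [hy]; simp
  refine desc (mul_ne_zero two_ne_zero hy0) _ e J' ?_ ?_
  · rw [sv_mul hy']
    convert dvd_add (((pow_dvd_pow _ (by omega)).trans g1).mul_right (sv y0 ϖ)) d1 using 1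
    simp only [sv]
    ring
  · rw [sv_mul ((neg_sq y0).trans hy')]
    convert dvd_add (((pow_dvd_pow _ (by omega)).trans g2).mul_right (sv (-y0) ϖ)) d2 using 1
    simp only [sv]
    ring

end Pool.Agent.MP_f3836a_nt.VE.A7
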