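import Pool.Agent.MP_f3836a_nt.VE.SpecA7

/-! Powers of a function with a single slope. -/

set_option autoImplicit false

namespace Pool.Agent.MP_f3836a_nt.VE.A7

open Polynomial

namespace PPwa

variable {p : ℕ} [Fact p.Prime] {F A B A' B' : ℤ_[p][X]} {y0 u v u' v' : ℤ_[p]} {m n σ : ℕ}

theorem mul (hF : F.natDegree = 3) (h0 : F.eval 0 = y0 ^ 2) (h : Sg F y0 m σ A B u v)
    (h' : Sg F y0 n σ A' B' u' v') :
    Sg F y0 (m + n) σ (A * A' + F * B * B') (A * B' + A' * B) (u * u') (v * v') := by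
  obtain ⟨a1, a2, a3, ⟨M, a4, a5, a6⟩, a7, a8⟩ := h
  obtain ⟨b1, b2, b3, ⟨N, b4, b5, b6⟩, b7, b8⟩ := h'
  have d1 : (A * A').natDegree = m + n := by rw [a1.natDegree_mul b1, a2, b2]
  have d2 : (F * B * B').natDegree < (A * A').natDegree := by
    have := natDegree_mul_le (p := F * B) (q := B')
    have := natDegree_mul_le (p := F) (q := B)
    omega
  refine ⟨(a1.mul b1).add_of_left (degree_lt_degree d2),
    (natDegree_add_eq_left_of_natDegree_lt d2).trans d1, ?_,
    ⟨M * N, a4.mul b4, by rw [mul_coeff_zero]; exact a5.mul b5, ?_⟩, ?_, ?_⟩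
  · have := natDegree_add_le (A * B') (A' * B)
    have := natDegree_mul_le (p := A) (q := B')
    have := natDegree_mul_le (p := A') (q := B)
    omega
  · rw [show (A * A' + F * B * B') ^ 2 - F * (A * B' + A' * B) ^ 2 =
      (A ^ 2 - F * B ^ 2) * (A' ^ 2 - F * B' ^ 2) by ring, mul_comp, a6, b6,
      show 2 * (m + n) * σ = 2 * m * σ + 2 * n * σ by ring, pow_add, C_mul]
    ring
  · simp only [eval_add, eval_mul, h0, ← a7, ← b7]
    ring
  · simp only [eval_add, eval_mul, h0, ← a8, ← b8]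
    ring

theorem ne (h0 : F.eval 0 = y0 ^ 2) (h : Sg F y0 m σ A B u v) : u * v ≠ 0 := by
  obtain ⟨M, -, a5, a6⟩ := h.slope
  have e := congrArg (eval 0) a6
  simp only [eval_comp, eval_mul, eval_C, eval_X, mul_zero, eval_sub, eval_pow, h0,
    ← coeff_zero_eq_eval_zero M] at e
  rw [← h.plus, ← h.minus, show (A.eval 0 + B.eval 0 * y0) * (A.eval 0 - B.eval 0 * y0) =
    A.eval 0 ^ 2 - y0 ^ 2 * B.eval 0 ^ 2 by ring, e]
  exact mul_ne_zero (pow_ne_zero _ (Nat.cast_ne_zero.2 (Fact.out : p.Prime).ne_zero)) a5.ne_zero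

end PPwa

theorem rPwa : PwaS := by
  intro p _ F A B y0 u v m σ k hF h0 h hk
  have e := mul_ne_zero_iff.1 (PPwa.ne h0 h)
  refine ⟨e.1, e.2, ?_⟩
  induction k, hk using Nat.le_induction with
  | base => exact ⟨A, B, by simpa using h⟩
  | succ k _ ih =>
    obtain ⟨A', B', h'⟩ := ih
    exact ⟨_, _, by simpa only [mul_add, mul_one, pow_succ] using PPwa.mul hF h0 h' h⟩

end Pool.Agent.MP_f3836a_nt.VE.A7
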