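import Pool.Agent.MP_f3836a_nt.VE.SpecA7

/-! Adding a constant produces a single slope. -/

set_option autoImplicit false

namespace Pool.Agent.MP_f3836a_nt.VE.A7

open Polynomial

namespace PSl

variable {p : ℕ} [hp : Fact p.Prime]

theorem two_dvd : (2 : ℤ_[p]) ∣ p := by
  by_cases h : p = 2
  · subst h
    exact dvd_of_eq (by norm_num)
  · refine IsUnit.dvd (PadicInt.isUnit_iff.2 ?_)
    exact_mod_cast PadicInt.norm_natCast_eq_one_iff.2 ((Nat.coprime_primes hp.out Nat.prime_two).2 h)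

theorem unit (d : ℤ_[p]) : IsUnit (1 + p * d) := by
  have : -(p * d) ∈ nonunits ℤ_[p] :=
    PadicInt.mem_nonunits.2 ((PadicInt.norm_lt_one_iff_dvd _).2 ⟨-d, by ring⟩)
  simpa using IsLocalRing.isUnit_one_sub_self_of_mem_nonunits _ this

end PSl

open PSl in
theorem rSl : SlS := by
  intro p _ F A B y0 x m e hm hF hA hd hB hN ⟨x', hx⟩ h0 hc
  obtain ⟨k, rfl⟩ : ∃ k, m = k + 2 := ⟨m - 2, by omega⟩
  rw [show 2 * (k + 2) - 1 = 2 * k + 3 by omega] at hN hc
  set γ := A.eval 0 - B.eval 0 * y0 with hγ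
  have p0 : (p : ℤ_[p]) ≠ 0 := by exact_mod_cast (Fact.out : p.Prime).ne_zero
  have h1 : A.eval 0 + B.eval 0 * y0 = 0 := by
    have := congrArg (eval 0) hN
    simp only [eval_sub, eval_mul, eval_pow, hF, eval_X, zero_pow (show 2 * k + 3 ≠ 0 by omega),
      zero_mul] at this
    exact (mul_eq_zero.1 (show γ * _ = 0 by rw [hγ]; linear_combination this)).resolve_left h0
  obtain ⟨δ, hδ⟩ : γ ∣ (p : ℤ_[p]) * p ^ (e * (k + 2)) := by
    have := hc (k + 2) (by omega)
    rw [← hd, hA.coeff_natDegree, mul_one, hd] at this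
    exact this.trans (mul_dvd_mul_right two_dvd _)
  obtain ⟨d, hd1⟩ : ∃ d : ℤ_[p], γ * (p * d) * γ = p ^ (2 * (k + 2) * (e + 1)) :=
    ⟨δ ^ 2 * p ^ (2 * k + 1), by
      calc _ = (γ * δ) ^ 2 * p ^ (2 * k + 2) := by ring
        _ = _ := by rw [← hδ]; ring⟩
  set c := γ * (p * d) with hcd
  set q : ℤ_[p] := p ^ (e + 1) with hq
  obtain ⟨D, hD⟩ : C ((p : ℤ_[p]) ^ (2 * (k + 2) * (e + 1))) ∣ C (2 * c) * A.comp (C q * X) := by
    refine (C_dvd_iff_dvd_coeff _ _).2 fun i => ?_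
    rw [coeff_C_mul, comp_C_mul_X_coeff, ← hd1]
    by_cases hi : i < 2 * k + 3
    · obtain ⟨g, hg⟩ := hc i hi
      exact ⟨g * p ^ i, by
        calc _ = c * (2 * A.coeff i * p ^ (e * i)) * p ^ i := by rw [hq]; ring
          _ = _ := by rw [hg]; ring⟩
    · rw [coeff_eq_zero_of_natDegree_lt (by omega)]
      simp
  have P0 : (p : ℤ_[p]) ^ (2 * (k + 2) * (e + 1)) ≠ 0 := pow_ne_zero _ p0
  have dD : D.natDegree ≤ k + 2 := by
    rw [← natDegree_C_mul P0, ← hD]
    refine (natDegree_C_mul_le _ _).trans (natDegree_comp_le.trans ?_)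
    rw [hd]
    exact mul_le_of_le_one_right' ((natDegree_C_mul_le _ _).trans natDegree_X_le)
  have D0 : D.coeff 0 = 1 := by
    have := congrArg (coeff · 0) hD
    simp only [coeff_C_mul, comp_C_mul_X_coeff, pow_zero, mul_one, coeff_zero_eq_eval_zero A] at this
    refine mul_left_cancel₀ P0 ?_
    rw [← this, mul_one, ← hd1]
    linear_combination c * h1 - c * hγ
  have mo : (X ^ (2 * k + 3) * (X - C x') : ℤ_[p][X]).Monic :=
    (monic_X_pow _).mul (monic_X_sub_C _)
  refine ⟨A + C c, c, γ + c, ⟨hA.add_of_left (degree_C_le.trans_lt ?_), by rw [natDegree_add_C, hd],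
    hB, ⟨X ^ (2 * k + 3) * (X - C x') + (D + C (p * d)), mo.add_of_left (degree_lt_degree ?_), ?_,
      ?_⟩, ?_, ?_⟩, ?_⟩
  · exact natDegree_pos_iff_degree_pos.1 (by omega)
  · rw [natDegree_add_C, (monic_X_pow _).natDegree_mul (monic_X_sub_C _), natDegree_X_pow]
    omega
  · simpa [D0, coeff_X_pow] using unit d
  · have e1 : (A + C c) ^ 2 - F * B ^ 2 = X ^ (2 * k + 3) * (X - C x) + C (2 * c) * A + C (c * c) := by
      rw [← hN]
      simp only [map_mul, map_ofNat]
      ring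
    have e2 : c * c = p ^ (2 * (k + 2) * (e + 1)) * (p * d) := by
      rw [← hd1]
      ring
    have e3 : (p : ℤ_[p]) ^ (2 * (k + 2) * (e + 1)) = q ^ (2 * k + 4) := by
      rw [hq]
      ring
    rw [← hq, e1, add_comp, add_comp, C_mul_comp, hD, C_comp, e2, hx, e3]
    simp only [mul_comp, sub_comp, pow_comp, X_comp, C_comp, map_mul, map_pow]
    ring
  · rw [eval_add, eval_C]
    linear_combination h1
  · rw [eval_add, eval_C]
    linear_combination -hγ
  · rw [show γ + c = γ * (1 + p * d) by rw [hcd]; ring, hcd, norm_mul, norm_mul γ,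
      PadicInt.isUnit_iff.1 (unit d)]
    exact (mul_lt_mul_of_pos_left ((PadicInt.norm_lt_one_iff_dvd _).2 (dvd_mul_right _ _))
      (norm_pos_iff.2 h0)).ne

end Pool.Agent.MP_f3836a_nt.VE.A7
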