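import Pool.Agent.MP_f3836a_nt.VE.SpecA7
import Pool.Agent.MP_c481b3_nt.H28.WIdeal

/-! An element of prime power norm which separates the two primes. -/

set_option autoImplicit false

namespace Pool.Agent.MP_f3836a_nt.VE.A7

open Pool.Agent.MP_c481b3_nt.H28.W

namespace PSu

variable {A p : ℕ} [Fact p.Prime] {y : ℤ_[p]}

theorem sv_mul (h : y ^ 2 = -(A : ℤ_[p])) (z w : O A) : sv y (z * w) = sv y z * sv y w := by
  simp only [sv, Zsqrtd.re_mul, Zsqrtd.im_mul]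
  push_cast
  linear_combination -(z.im * w.im : ℤ_[p]) * h

theorem sv_star (z : O A) : sv y (star z) = sv (-y) z := by simp [sv]

theorem sv_norm (h : y ^ 2 = -(A : ℤ_[p])) (z : O A) : sv y z * sv (-y) z = z.norm := by
  rw [norm_O, sv, sv]
  push_cast
  linear_combination -(z.im ^ 2 : ℤ_[p]) * h

theorem short (hA : 1 < A) (h : y ^ 2 = -(A : ℤ_[p])) (i : ℕ) : ∃ (z : O A) (n : ℕ), 0 < n ∧
    n < A + 2 ∧ z.norm = p ^ i * n ∧ (p : ℤ_[p]) ^ i ∣ sv y z := by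
  have hp := (Fact.out : p.Prime).pos
  have a := Ideal.mem_span_singleton.1 (PadicInt.appr_spec i y)
  have b : ((p ^ i : ℕ) : ℤ) ∣ (-(y.appr i : ℤ)) ^ 2 + A := by
    rw [Nat.cast_pow, ← PadicInt.pow_p_dvd_int_iff]
    convert a.mul_left (-y - y.appr i) using 1
    push_cast
    linear_combination h
  obtain ⟨z, z0, z1, z2⟩ := short_vec b (by positivity)
  have c : (p : ℤ_[p]) ^ i ∣ sv y z := by
    rw [mem_Jd b, Nat.cast_pow, ← PadicInt.pow_p_dvd_int_iff] at z1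
    convert z1.add (a.mul_left z.im) using 1
    rw [sv]
    push_cast
    ring
  obtain ⟨n, hn⟩ := (PadicInt.pow_p_dvd_int_iff i z.norm).1 (sv_norm h z ▸ c.mul_right _)
  have n0 : 0 < z.norm := (Zsqrtd.norm_nonneg (by omega) z).lt_of_ne' fun e =>
    z0 ((Zsqrtd.norm_eq_zero_iff (by omega) z).1 e)
  have q : (0 : ℤ) < p ^ i := by positivity
  rw [hn] at n0
  rw [hn, Nat.cast_pow, mul_comm] at z2
  have n1 := (mul_pos_iff_of_pos_left q).1 n0
  have n2 := le_of_mul_le_mul_right z2 q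
  lift n to ℕ using n1.le
  exact ⟨z, n, by omega, by omega, hn, c⟩

end PSu

open PSu in
theorem rSu : SuS := by
  intro A p hp y hA h
  choose z n n0 n1 zn zd using short hA h
  have : NeZero (A + 1).factorial := ⟨Nat.factorial_ne_zero _⟩
  obtain ⟨v, hv⟩ := Finite.exists_infinite_fiber fun i => ((⟨n i, n1 i⟩ : Fin (A + 2)),
    ((z i).re : ZMod (A + 1).factorial), ((z i).im : ZMod (A + 1).factorial))
  obtain ⟨i, hi⟩ := (Set.infinite_coe_iff.1 hv).nonempty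
  obtain ⟨j, hj, hij⟩ := (Set.infinite_coe_iff.1 hv).exists_gt (n i * (p ^ i * n i))
  have e := hi.trans hj.symm
  simp only [Prod.mk.injEq, Fin.mk.injEq, ZMod.intCast_eq_intCast_iff_dvd_sub] at e
  obtain ⟨e1, e2, e3⟩ := e
  have f : (n i : ℤ) ∣ ((A + 1).factorial : ℕ) :=
    Int.natCast_dvd_natCast.2 (Nat.dvd_factorial (n0 i) (Nat.le_of_lt_succ (n1 i)))
  obtain ⟨π, hπ⟩ : ((n i : ℤ) : O A) ∣ z j * star (z i) := by
    have := ((Zsqrtd.intCast_dvd (n i) (z j - z i)).2 ⟨f.trans e2, f.trans e3⟩).mul_right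
      (star (z i))
    rw [sub_mul, ← Zsqrtd.norm_eq_mul_conj, zn, Int.cast_mul] at this
    exact (dvd_sub_left (dvd_mul_left _ _)).1 this
  have N0 : (n i : ℤ) ≠ 0 := Nat.cast_ne_zero.2 (n0 i).ne'
  refine ⟨π, j + i, mul_left_cancel₀ (mul_ne_zero N0 N0) ?_, fun hn => ?_⟩
  · rw [← Zsqrtd.norm_intCast (d := -A), ← Zsqrtd.norm_mul, ← hπ, Zsqrtd.norm_mul,
      Zsqrtd.norm_conj, zn, zn, ← e1, Zsqrtd.norm_intCast]
    ring
  have h' : (-y) ^ 2 = -(A : ℤ_[p]) := by rwa [neg_sq]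
  have a : ‖sv (-y) (z j * star (z i))‖ = ‖sv y (z j * star (z i))‖ := by
    rw [hπ, sv_mul h, sv_mul h', norm_mul, norm_mul, hn]
    simp [sv]
  have b : (p : ℤ_[p]) ^ j ∣ sv (-y) (z j) * sv y (z i) := by
    rw [sv_mul h', sv_star, neg_neg, sv_mul h] at a
    rw [← Ideal.mem_span_singleton, ← PadicInt.norm_le_pow_iff_mem_span_pow, a,
      PadicInt.norm_le_pow_iff_mem_span_pow, Ideal.mem_span_singleton]
    exact (zd j).mul_right _
  obtain ⟨w, hw⟩ := zd j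
  have c : sv (-y) (z j) ∣ (n i : ℤ) := Dvd.intro_left w <|
    mul_left_cancel₀ (pow_ne_zero j (Nat.cast_ne_zero.2 hp.out.ne_zero : (p : ℤ_[p]) ≠ 0)) <| by
      rw [← mul_assoc, ← hw, sv_norm h, zn, e1]
      push_cast
      rfl
  have d := b.trans (mul_dvd_mul c (Dvd.intro _ (sv_norm h (z i))))
  rw [← Int.cast_mul, PadicInt.pow_p_dvd_int_iff, zn] at d
  have := Nat.le_of_dvd (mul_pos (n0 i) (mul_pos (pow_pos hp.out.pos i) (n0 i)))
    (show p ^ j ∣ _ by exact_mod_cast d)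
  have := Nat.lt_pow_self (n := j) hp.out.one_lt
  omega

end Pool.Agent.MP_f3836a_nt.VE.A7
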