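import Pool.Agent.MP_f3836a_nt.VE.PRec
import Pool.Agent.MP_f3836a_nt.VE.PNear
import Pool.Agent.MP_f3836a_nt.VE.PFun
import Pool.Agent.MP_f3836a_nt.VE.PInt
import Pool.Agent.MP_f3836a_nt.VE.PKlz
import Pool.Agent.MP_f3836a_nt.VE.PKl
import Pool.Agent.MP_f3836a_nt.VE.PSl
import Pool.Agent.MP_f3836a_nt.VE.POne
import Pool.Agent.MP_f3836a_nt.VE.PPwa
import Pool.Agent.MP_f3836a_nt.VE.PSu
import Pool.Agent.MP_f3836a_nt.VE.PPwb
import Pool.Agent.MP_f3836a_nt.VE.PPwc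
import Pool.Agent.MP_f3836a_nt.VE.PPa

/-! The local data at a split prime exist. -/

set_option autoImplicit false

namespace Pool.Agent.MP_f3836a_nt.VE.A7

theorem paS : PaS :=
  rPa (rOne rRec rNear rFun rInt (rKl rKlz) rSl) rPwa rSu rPwb rPwc

end Pool.Agent.MP_f3836a_nt.VE.A7
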