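import Pool.Agent.MP_f3836a_nt.VE.AIds
import Pool.Agent.MP_f3836a_nt.VE.AGsa
import Pool.Agent.MP_f3836a_nt.VE.ANear
import Pool.Agent.MP_f3836a_nt.VE.AEqv
import Pool.Agent.MP_f3836a_nt.VE.AHs0
import Pool.Agent.MP_f3836a_nt.VE.ANfa
import Pool.Agent.MP_f3836a_nt.VE.ANfb
import Pool.Agent.MP_f3836a_nt.VE.AReal
import Pool.Agent.MP_f3836a_nt.VE.AScal
import Pool.Agent.MP_f3836a_nt.VE.AFib
import Pool.Agent.MP_f3836a_nt.VE.AGs
import Pool.Agent.MP_f3836a_nt.VE.AGsk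
import Pool.Agent.MP_f3836a_nt.VE.AHs
import Pool.Agent.MP_f3836a_nt.VE.APhi
import Pool.Agent.MP_f3836a_nt.VE.AEv
import Pool.Agent.MP_f3836a_nt.VE.ACub
import Pool.Agent.MP_f3836a_nt.VE.ACop
import Pool.Agent.MP_f3836a_nt.VE.ARoot
import Pool.Agent.MP_f3836a_nt.VE.AFibres
import Pool.Agent.MP_f3836a_nt.VE.PAll
import Pool.Agent.MP_f3836a_nt.VE.CoreAll

/-! Part A: assembly. -/

set_option autoImplicit false

namespace Pool.Agent.MP_f3836a_nt.VE.A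

theorem fibres_of (hC : Core) (hP : A7.PaS) : Fibres :=
  aFibres hC hP (aReal (aCub aCop (aNear aCop)) aRoot) aScal aFib aEv (aHs0 aEqv)
    (aIds aFib aEv aHs (aGs aEv (aGsk aNfa aNfb aGsa)) aPhi)

/-- the pairing vanishes on all rational fibres -/
theorem fibres : Fibres := fibres_of core A7.paS

end Pool.Agent.MP_f3836a_nt.VE.A
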