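import Pool.Agent.MP_f3836a_nt.VE.SpecA

/-! The identities on events hold for the pairing. -/

set_option autoImplicit false

namespace Pool.Agent.MP_f3836a_nt.VE.A

open Polynomial

theorem aIds_pos {T : Multiset Pt} (h : ∀ z ∈ T, z.p.Prime) : (nT T : ℤ) ≠ 0 := by
  refine Nat.cast_ne_zero.2 (Multiset.prod_ne_zero fun e => ?_)
  obtain ⟨z, hz, e⟩ := Multiset.mem_map.1 e
  exact (h z hz).ne_zero e

theorem aIds_ne {d : ℤ} {β : ℤ√d} (h : β.norm ≠ 0) : β ≠ 0 := fun e => h (by simp [e])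

theorem aIds_cj {f : ℤ[X]} {z : Pt} (h : IsPt f z) (k : ℤ) :
    (z.p : ℤ) ∣ -k ^ 3 * z.y + -k ^ 3 * z.cj.y := by
  refine ⟨-k ^ 3, ?_⟩
  rw [Pt.cj, Nat.cast_sub h.2.2.2.2.1.le]
  ring

theorem aIds_in {A p q e : ℕ} {s : ℤ} {β ϖ γ : ℤ√(-(A : ℤ))} (hp : p.Prime) (hq : q.Prime)
    (hne : p ≠ q) (h1 : (p : ℤ) ∣ s ^ 2 + A) (h2 : (p : ℤ) ∣ β.re - s * β.im)
    (h3 : β * ϖ = (((q : ℤ) ^ e : ℤ) : ℤ√(-(A : ℤ))) * γ) : (p : ℤ) ∣ γ.re - s * γ.im := by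
  have a1 := congrArg Zsqrtd.re h3
  have a2 := congrArg Zsqrtd.im h3
  simp only [Zsqrtd.re_mul, Zsqrtd.im_mul, Zsqrtd.re_intCast, Zsqrtd.im_intCast] at a1 a2
  have h4 : (p : ℤ) ∣ (q : ℤ) ^ e * (γ.re - s * γ.im) := by
    have : (q : ℤ) ^ e * (γ.re - s * γ.im) =
        (β.re - s * β.im) * (ϖ.re - s * ϖ.im) - (s ^ 2 + A) * (β.im * ϖ.im) := by
      linear_combination s * a2 - a1
    rw [this]
    exact dvd_sub (h2.mul_right _) (h1.mul_right _)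
  refine ((Nat.prime_iff_prime_int.1 hp).dvd_or_dvd h4).resolve_left fun h => hne ?_
  exact (Nat.prime_dvd_prime_iff_eq hp hq).1
    (Int.natCast_dvd_natCast.1 ((Nat.prime_iff_prime_int.1 hp).dvd_of_dvd_pow h))

theorem aIds : OfIds := by
  intro Fib Ev Hs Gs Phi R ι _ _ _ x y f S t0 A0 p0 J' m J e e' σ As Bs ϖ hM hS hC hneg hp0 hP hσ
  obtain ⟨Ev1, Ev2, Ev3⟩ := Ev
  have hψ : ∀ (a k : ℤ) (A : ℕ), ∃ ψ : ℕ → ℤ → ℝ,
      (∀ (p : ℕ) (s s' : ℤ), (p : ℤ) ∣ s + s' → ψ p s' = -ψ p s) ∧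
      (0 < k ∧ 1 < A ∧ (A : ℤ) = -hv f 3 a (k ^ 2) →
        ∀ (ss : Pt → ℤ) (β : ℤ√(-(A : ℤ))) (M : Multiset Pt),
        (∀ z ∈ M, z.p.Prime ∧ ¬z.p ∣ 2 * A ∧ (z.p : ℤ) ∣ ss z ^ 2 + A) → EvF A ss β M →
        lf S x y a k A β = (M.map fun z => ψ z.p (ss z)).sum) := fun a k A => by
    by_cases h : 0 < k ∧ 1 < A ∧ (A : ℤ) = -hv f 3 a (k ^ 2)
    · obtain ⟨ψ, h1, h2⟩ := Hs A _ h.2.1 (Fib x y f S a k A hM hS h.1 (by omega) h.2.2).1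
      exact ⟨ψ, h1, fun _ => h2⟩
    · exact ⟨fun _ _ => 0, fun _ _ _ _ => neg_zero.symm, fun h' => absurd h' h⟩
  have hφ : ∀ A B : ℤ[X], ∃ (φ : Pt → ℝ) (c : ℂ → ℝ), Mon m A B →
      ∑ θ ∈ rts (Ng f A B), c θ = 0 ∧
      (∀ (a b : ℤ) (T : Multiset Pt), 0 < b → Nd T →
        (∀ z ∈ T, z.p.Prime ∧ On a b z ∧ ¬(z.p : ℤ) ∣ b) → (nT T : ℤ) = hv (Ng f A B) (2 * m) a b →
        S.L (gv x y A B) ((b : R) * x - a) = (T.map φ).sum + ug (Ng f A B) c ((a : ℝ) / b)) ∧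
      ∀ (t0 : ℤ) (p0 σ e e' : ℕ) (T : Multiset Pt), p0.Prime → SS (Ng f A B) t0 p0 (2 * m) σ →
        Nd T → (∀ z ∈ T, z.p.Prime ∧ On t0 1 z ∧ z.p ≠ p0) →
        (nT T : ℤ) * (p0 : ℤ) ^ e = hv (Ng f A B) (2 * m) t0 1 * (p0 : ℤ) ^ e' →
        S.L (gv x y A B) (((1 : ℤ) : R) * x - t0) = (T.map φ).sum + ug (Ng f A B) c t0 :=
    fun A B => by
      by_cases h : Mon m A B
      · obtain ⟨Φ, c, hD⟩ := Gs x y f S m A B hM hS h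
        obtain ⟨φ, h1, h2⟩ := Phi _ _ _ Φ c hD
        exact ⟨φ, c, fun _ => ⟨hD.sum, h1, h2⟩⟩
      · exact ⟨0, 0, fun h' => absurd h' h⟩
  choose ψ ψ1 ψ2 using hψ
  choose φ c hφ using hφ
  refine ⟨fun a k z => ψ a k (-hv f 3 a (k ^ 2)).toNat z.p (-k ^ 3 * z.y),
    fun z => ψ t0 1 A0 z.p (-1 ^ 3 * z.y), φ, c, fun a k z hz => ψ1 _ _ _ _ _ _ (aIds_cj hz k),
    fun z hz => ψ1 _ _ _ _ _ _ (aIds_cj hz 1), fun A B h => (hφ A B h).1, ?_, ?_⟩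
  · intro A B a k T hm hk _ h1 h2 hN hT hn
    have k1 : (1 : ℝ) ≤ k := by exact_mod_cast hk
    have k2 : (0 : ℝ) < (k : ℝ) ^ 2 := by positivity
    have b1 : hv f 3 a (k ^ 2) < -1 := by
      have b2 := hneg ((a : ℝ) / (k : ℝ) ^ 2) ((le_div_iff₀ k2).2 (by exact_mod_cast h1))
        ((div_le_iff₀ k2).2 (by exact_mod_cast h2))
      have b3 := (Ev2 f 3 a k hC.deg.le).2 hk.ne'
      have b4 : (1 : ℝ) ≤ ((k : ℝ) ^ 2) ^ 3 := one_le_pow₀ (one_le_pow₀ k1)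
      have b5 : (hv f 3 a (k ^ 2) : ℝ) < -1 := by nlinarith
      exact_mod_cast b5
    obtain ⟨D, hD⟩ : ∃ D, D = (-hv f 3 a (k ^ 2)).toNat := ⟨_, rfl⟩
    have d1 : (D : ℤ) = -hv f 3 a (k ^ 2) := by omega
    obtain ⟨n1, n2⟩ := Ev3 f A B m a k D hC.deg hm hk d1
    have pr : ∀ z ∈ T, z.p.Prime := fun z hz => (hT z hz).1.1
    have q1 := (Fib x y f S a k D hM hS hk (by omega) d1).2.1 m A B hm
      (aIds_ne (by rw [n1, ← hn]; exact aIds_pos pr))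
    have q2 := ψ2 a k D ⟨hk, by omega, d1⟩ (fun z => -k ^ 3 * z.y) (bt m A B a k D) T
      (fun z hz => (n2 z (hT z hz).1 (hT z hz).2.1 (hT z hz).2.2.2).1)
      ⟨hN, fun z hz => (n2 z (hT z hz).1 (hT z hz).2.1 (hT z hz).2.2.2).2 (hT z hz).2.2.1,
        hn.trans n1.symm⟩
    have q3 := (hφ A B hm).2.1 a (k ^ 2) T (by positivity) hN (fun z hz => ⟨pr z hz, (hT z hz).2.1,
      fun h => (hT z hz).2.2.2 ((Nat.prime_iff_prime_int.1 (pr z hz)).dvd_of_dvd_pow h)⟩) hn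
    rw [Int.cast_pow, Int.cast_pow] at q3
    rw [← hD, ← q2, ← q1, q3]
  · intro A B T hm c1 c2 hN hT hn
    have d1 : (A0 : ℤ) = -hv f 3 t0 (1 ^ 2) := by
      rw [one_pow, (Ev2 f 3 t0 1 hC.deg.le).1, hC.val, neg_neg]
    have one := hC.one
    obtain ⟨n1, n2⟩ := Ev3 f A B m t0 1 A0 hC.deg hm one_pos d1
    obtain ⟨hom, q1, -⟩ := Fib x y f S t0 1 A0 hM hS one_pos (by omega) d1
    have pr : ∀ z ∈ T, z.p.Prime := fun z hz => (hT z hz).1.1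
    have ev := (Ev2 (Ng f A B) (2 * m) t0 1 (Ev1 f A B m hC.deg hm).2.le).1
    obtain ⟨γ, hγ⟩ := hP.cong A B hm c1 c2
    obtain ⟨g, hg⟩ : ∃ g, g = 1 + (p0 : ℤ√(-(A0 : ℤ))) ^ J' * γ := ⟨_, rfl⟩
    have eb : bt m A B t0 1 A0 = ⟨A.eval t0, B.eval t0⟩ := by
      rw [bt, one_pow, one_mul, (Ev2 A m t0 1 hm.2.1.le).1,
        (Ev2 B (m - 2) t0 1 (by have := hm.2.2; omega)).1]
    rw [← hg, ← eb, ← Int.cast_natCast (R := ℤ√(-(A0 : ℤ))), ← Int.cast_pow] at hγ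
    have p1 : (p0 : ℤ) ≠ 0 := Nat.cast_ne_zero.2 hp0.ne_zero
    have t1 := aIds_pos pr
    rw [one_pow, ev] at n1
    have nγ : (nT T : ℤ) = g.norm := by
      have b := congrArg Zsqrtd.norm hγ
      rw [Zsqrtd.norm_mul, Zsqrtd.norm_mul, Zsqrtd.norm_intCast, n1, hP.nrm, ← hn] at b
      refine mul_right_cancel₀ (pow_ne_zero (2 * e) p1) (b.trans ?_)
      ring
    have b0 : bt m A B t0 1 A0 ≠ 0 := aIds_ne fun h => by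
      rw [← n1, h, zero_mul] at hn
      exact mul_ne_zero t1 (pow_ne_zero _ p1) hn
    have z1 : ∀ z ∈ T, _ := fun z hz => n2 z (hT z hz).1 (by rw [one_pow]; exact (hT z hz).2.1)
      fun h => (pr z hz).one_lt.ne' (by exact_mod_cast Int.eq_one_of_dvd_one (by positivity) h)
    have q2 := ψ2 t0 1 A0 ⟨one_pos, one, d1⟩ (fun z => -1 ^ 3 * z.y) g T (fun z hz => (z1 z hz).1)
      ⟨hN, fun z hz => aIds_in (pr z hz) hp0 (hT z hz).2.2.2 (z1 z hz).1.2.2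
        ((z1 z hz).2 (hT z hz).2.2.1) hγ, nγ⟩
    have q3 := (hφ A B hm).2.2 t0 p0 σ (2 * e) e' T hp0 (hσ A B hm c1 c2) hN
      (fun z hz => ⟨pr z hz, (hT z hz).2.1, (hT z hz).2.2.2⟩) (by rw [ev, hn])
    have q4 := hom.mul _ ϖ b0 (aIds_ne (by rw [hP.nrm]; exact pow_ne_zero _ p1))
    rw [hγ, hom.mul _ g (Int.cast_ne_zero.2 (pow_ne_zero _ p1)) (aIds_ne (nγ ▸ t1)),
      hom.int _ (pow_ne_zero _ p1), ← q1 m A B hm b0, q2] at q4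
    rw [← q3]
    simp only [Int.cast_one, one_pow] at q4 ⊢
    linarith

end Pool.Agent.MP_f3836a_nt.VE.A
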