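import Pool.Agent.MP_f3836a_nt.VE.SpecT

set_option autoImplicit false

/-! Row TCnt: the dimension count in a Dedekind domain. -/

namespace Pool.Agent.MP_f3836a_nt.VE.T

open IsLocalRing PK UniqueFactorizationMonoid Module

namespace TCnt

section ded
variable {R : Type} [CommRing R] [IsDedekindDomain R]

theorem step [Algebra ℚ R] (M J : Ideal R) (hm : M.IsMaximal) (hM : M ≠ ⊥) (hJ : J ≠ ⊥)
    [Module.Finite ℚ (R ⧸ M)] [Module.Finite ℚ (R ⧸ J)] :
    Module.Finite ℚ (R ⧸ M * J) ∧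
      finrank ℚ (R ⧸ M * J) = finrank ℚ (R ⧸ M) + finrank ℚ (R ⧸ J) := by
  obtain ⟨a, ha⟩ := IsDedekindDomain.exists_sup_span_eq (I := M * J) (J := J) Ideal.mul_le_right
    (mul_ne_zero hM hJ)
  have haJ : a ∈ J := ha ▸ Ideal.mem_sup_right (Ideal.mem_span_singleton_self a)
  let f : (R ⧸ M) →ₗ[R] (R ⧸ M * J) := Submodule.mapQ M (M * J) (LinearMap.mulRight R a)
    fun r hr => Ideal.mul_mem_mul hr haJ
  let g : (R ⧸ M * J) →ₗ[R] (R ⧸ J) := Submodule.mapQ (M * J) J LinearMap.id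
    fun r hr => Ideal.mul_le_right hr
  have ef : ∀ r, f (Ideal.Quotient.mk M r) = Ideal.Quotient.mk (M * J) (r * a) := fun r => rfl
  have eg : ∀ r, g (Ideal.Quotient.mk (M * J) r) = Ideal.Quotient.mk J r := fun r => rfl
  have hf : Function.Injective f := by
    rw [injective_iff_map_eq_zero]
    intro r hr
    obtain ⟨r, rfl⟩ := Ideal.Quotient.mk_surjective r
    rw [ef, Ideal.Quotient.eq_zero_iff_mem] at hr
    rw [Ideal.Quotient.eq_zero_iff_mem]
    by_contra hn
    obtain ⟨y, m, hm1, e⟩ := hm.exists_inv hn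
    have h1 : a ∈ M * J := by
      have : a = y * (r * a) + m * a := by linear_combination (-a) * e
      rw [this]
      exact add_mem (Ideal.mul_mem_left _ _ hr) (Ideal.mul_mem_mul hm1 haJ)
    rw [sup_eq_left.2 ((Ideal.span_singleton_le_iff_mem _).2 h1)] at ha
    exact hm.ne_top (by simpa using mul_right_cancel₀ hJ (ha.trans (one_mul J).symm))
  have hg : Function.Surjective g := fun r => by
    obtain ⟨r, rfl⟩ := Ideal.Quotient.mk_surjective r
    exact ⟨_, eg r⟩
  have he : Function.Exact f g := fun r => by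
    obtain ⟨r, rfl⟩ := Ideal.Quotient.mk_surjective r
    rw [eg, Ideal.Quotient.eq_zero_iff_mem]
    constructor
    · intro hr
      rw [← ha] at hr
      obtain ⟨u, hu, v, hv, rfl⟩ := Submodule.mem_sup.1 hr
      obtain ⟨t, rfl⟩ := Ideal.mem_span_singleton'.1 hv
      refine ⟨Ideal.Quotient.mk M t, ?_⟩
      rw [ef, map_add, Ideal.Quotient.eq_zero_iff_mem.2 hu, zero_add]
    · rintro ⟨t, ht⟩
      obtain ⟨t, rfl⟩ := Ideal.Quotient.mk_surjective t
      rw [ef, Ideal.Quotient.eq] at ht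
      have := sub_mem (J.mul_mem_left t haJ) (Ideal.mul_le_right ht)
      simpa using this
  have hfin : Module.Finite ℚ (R ⧸ M * J) :=
    Module.Finite.of_exact (f := f.restrictScalars ℚ) (g := g.restrictScalars ℚ) he hg
  refine ⟨hfin, ?_⟩
  have h1 := LinearMap.finrank_range_add_finrank_ker (g.restrictScalars ℚ)
  have h2 : LinearMap.ker (g.restrictScalars ℚ) = LinearMap.range (f.restrictScalars ℚ) :=
    LinearMap.exact_iff.1 he
  rw [(LinearMap.range_eq_top (f := g.restrictScalars ℚ)).2 hg, h2, finrank_top,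
    LinearMap.finrank_range_of_inj (f := f.restrictScalars ℚ) hf] at h1
  omega

theorem prod [Algebra ℚ R] (hfin : ∀ M : Ideal R, M.IsMaximal → Module.Finite ℚ (R ⧸ M))
    (s : Multiset (Ideal R)) (hs : ∀ M ∈ s, M.IsMaximal ∧ M ≠ ⊥) :
    s.prod ≠ ⊥ ∧ Module.Finite ℚ (R ⧸ s.prod) ∧
      finrank ℚ (R ⧸ s.prod) = (s.map fun M => finrank ℚ (R ⧸ M)).sum := by
  induction s using Multiset.induction_on with
  | empty =>
    rw [Multiset.prod_zero, Ideal.one_eq_top]
    exact ⟨top_ne_bot, inferInstance, by simpa using finrank_zero_of_subsingleton⟩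
  | cons M s ih =>
    obtain ⟨h1, h2, h3⟩ := ih fun N hN => hs N (Multiset.mem_cons_of_mem hN)
    obtain ⟨h4, h5⟩ := hs M (Multiset.mem_cons_self _ _)
    have := hfin M h4
    obtain ⟨h6, h7⟩ := step M s.prod h4 h5 h1
    rw [Multiset.prod_cons, Multiset.map_cons, Multiset.sum_cons, ← h3]
    exact ⟨mul_ne_zero h5 h1, h6, h7⟩

open Classical in
/-- the multiplicity -/
noncomputable def c (M : Ideal R) (a : R) : ℕ := (normalizedFactors (Ideal.span {a})).count M

theorem sp {a : R} (ha : a ≠ 0) : Ideal.span {a} ≠ ⊥ := mt Ideal.span_singleton_eq_bot.1 ha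

theorem c_mul (M : Ideal R) {a b : R} (ha : a ≠ 0) (hb : b ≠ 0) :
    c M (a * b) = c M a + c M b := by
  rw [c, ← Ideal.span_singleton_mul_span_singleton, normalizedFactors_mul (sp ha) (sp hb),
    Multiset.count_add]
  rfl

theorem mem_nf {M : Ideal R} {a : R} (ha : a ≠ 0) :
    M ∈ normalizedFactors (Ideal.span {a}) ↔ M.IsPrime ∧ a ∈ M := by
  rw [Ideal.mem_normalizedFactors_iff (sp ha), Ideal.span_singleton_le_iff_mem]

theorem c_zero {M : Ideal R} (hM : M.IsPrime) {a : R} (ha : a ≠ 0) : c M a = 0 ↔ a ∉ M := by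
  rw [c, Multiset.count_eq_zero, mem_nf ha, and_iff_right hM]

theorem lin (M : Ideal R) (hm : M.IsMaximal) (h0 : M ≠ ⊥) (o : R → ℤ)
    (hmul : ∀ a b, a ≠ 0 → b ≠ 0 → o (a * b) = o a + o b) (hu : ∀ a, a ∉ M → o a = 0) :
    ∃ p : R, p ≠ 0 ∧ ∀ g, g ≠ 0 → o g = c M g * o p := by
  classical
  obtain ⟨p, h1, h2⟩ := Ideal.exists_mem_pow_notMem_pow_succ M h0 hm.ne_top 1
  have p0 : p ≠ 0 := fun h => h2 (h ▸ zero_mem _)
  have hc : c M p = 1 := by
    unfold c
    convert Ideal.count_normalizedFactors_eq (p := M) (x := Ideal.span {p}) (n := 1)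
      ((Ideal.span_singleton_le_iff_mem _).2 h1) (mt (Ideal.span_singleton_le_iff_mem _).1 h2)
  obtain ⟨Q, hQ, e⟩ := Ideal.eq_prime_pow_mul_coprime (sp p0) M
  have hc' : Multiset.count M (normalizedFactors (Ideal.span {p})) = 1 := by
    convert hc using 1
    unfold c
    congr
  rw [hc', pow_one] at e
  obtain ⟨u, hu1, hu2⟩ : ∃ u ∈ Q, u ∉ M := by
    by_contra hn
    push Not at hn
    exact hm.ne_top (hQ ▸ (sup_eq_left.2 hn).symm)
  have u0 : u ≠ 0 := fun h => hu2 (h ▸ zero_mem _)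
  refine ⟨p, p0, fun g hg => ?_⟩
  obtain ⟨n, hn⟩ : ∃ n, c M g = n := ⟨_, rfl⟩
  induction n generalizing g with
  | zero => rw [hn, hu g ((c_zero hm.isPrime hg).1 hn)]; simp
  | succ n ih =>
    have hgM : g ∈ M := by
      by_contra h
      rw [(c_zero hm.isPrime hg).2 h] at hn
      omega
    obtain ⟨w, hw⟩ := Ideal.mem_span_singleton'.1 (e ▸ Ideal.mul_mem_mul hgM hu1)
    have w0 : w ≠ 0 := by
      rintro rfl
      exact mul_ne_zero hg u0 (by simpa using hw.symm)
    have e1 := congrArg (c M) hw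
    have e2 := congrArg o hw
    rw [c_mul M w0 p0, c_mul M hg u0, hc, hn, (c_zero hm.isPrime u0).2 hu2] at e1
    rw [hmul _ _ w0 p0, hmul _ _ hg u0, hu u hu2, ih w w0 (by omega), show c M w = n by omega] at e2
    rw [hn]
    push_cast
    linarith

end ded

section pl
variable {R F : Type} [CommRing R] [Field F] [Algebra ℚ F] [Algebra R F] {P : Place F}
  {M : Ideal R}

/-- the reduction map -/
noncomputable def red (h : P.Ct M) : R →+* ResidueField P.V :=
  (residue P.V).comp ((algebraMap R F).codRestrict P.V fun r => (h r).1)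

theorem mem_iff (h : P.Ct M) (r : R) :
    r ∈ M ↔ (⟨algebraMap R F r, (h r).1⟩ : P.V) ∈ maximalIdeal P.V :=
  (h r).2.trans (ValuationSubring.coe_mem_nonunits_iff (A := P.V) (a := ⟨_, (h r).1⟩))

theorem ker_red (h : P.Ct M) : RingHom.ker (red h) = M := by
  ext r
  rw [RingHom.mem_ker, mem_iff h]
  exact residue_eq_zero_iff _

theorem equiv [Algebra ℚ R] (h : P.Ct M) (hr : ∀ a, ∃ r : R, P.res (algebraMap R F r) = a) :
    Nonempty ((R ⧸ M) ≃ₗ[ℚ] ResidueField P.V) := by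
  have hs : Function.Surjective (red h) := fun a => by
    obtain ⟨r, e⟩ := hr a
    exact ⟨r, (P.res_mem (h r).1).symm.trans e⟩
  let e : (R ⧸ M) ≃+* ResidueField P.V :=
    (Ideal.quotEquivOfEq (ker_red h).symm).trans (RingHom.quotientKerEquivOfSurjective hs)
  exact ⟨(AlgEquiv.ofRingEquiv (f := e) fun q => DFunLike.congr_fun
    (Subsingleton.elim ((e : (R ⧸ M) →+* ResidueField P.V).comp (algebraMap ℚ _))
      (algebraMap ℚ _)) q).toLinearEquiv⟩

variable [IsDedekindDomain R] [IsFractionRing R F]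

theorem ord_eq (h : P.Ct M) (hm : M.IsMaximal) (h0 : M ≠ ⊥) (hd : IsDiscreteValuationRing P.V)
    (g : R) (hg : g ≠ 0) : P.ord (algebraMap R F g) = c M g := by
  have A := P.dva hd
  have ne : ∀ a : R, a ≠ 0 → algebraMap R F a ≠ 0 := fun a ha =>
    (map_ne_zero_iff _ (IsFractionRing.injective R F)).2 ha
  obtain ⟨p, p0, hp⟩ := lin M hm h0 (fun a => P.ord (algebraMap R F a))
    (fun a b ha hb => by rw [map_mul]; exact A.mul _ _ (ne a ha) (ne b hb))
    (fun a ha => (A.unit' ⟨_, (h a).1⟩ (by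
      rw [mem_iff h] at ha
      exact not_not.1 ha)).2)
  have h1 : 0 ≤ P.ord (algebraMap R F p) := (A.mem _ (ne p p0)).1 (h p).1
  obtain ⟨t, t0, ht⟩ := A.uni
  obtain ⟨a, b, hb, rfl⟩ := IsFractionRing.div_surjective (A := R) t
  have b0 : b ≠ 0 := nonZeroDivisors.ne_zero hb
  have a0 : a ≠ 0 := by rintro rfl; simp at t0
  have h2 := A.mul _ _ t0 (ne b b0)
  rw [div_mul_cancel₀ _ (ne b b0), ht] at h2
  have h3 : P.ord (algebraMap R F a) = 1 + P.ord (algebraMap R F b) := h2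
  rw [hp a a0, hp b b0] at h3
  have h4 : P.ord (algebraMap R F p) = 1 :=
    Int.eq_one_of_mul_eq_one_left h1 (a := (c M a : ℤ) - c M b) (by linarith)
  rw [hp g hg, h4, mul_one]

end pl

end TCnt

open TCnt in
theorem rCnt : RCnt := by
  classical
  intro R F _ _ _ _ _ _ _ x H g s hg hs
  have hfin : ∀ M : Ideal R, M.IsMaximal → Module.Finite ℚ (R ⧸ M) := fun M hM => by
    obtain ⟨P, hP⟩ := H.sur M hM
    obtain ⟨e⟩ := equiv hP (H.res P (hP x).1)
    have := H.fd P (hP x).1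
    exact Module.Finite.equiv e.symm
  have hmax : ∀ M ∈ normalizedFactors (Ideal.span {g}), M.IsMaximal ∧ M ≠ ⊥ := fun M hM => by
    have h1 : M ≠ ⊥ := (prime_of_normalized_factor M hM).ne_zero
    exact ⟨((mem_nf hg).1 hM).1.isMaximal h1, h1⟩
  obtain ⟨-, -, h3⟩ := prod hfin _ hmax
  rw [Ideal.prod_normalizedFactors_eq_self (sp hg), Finset.sum_multiset_map_count] at h3
  rw [h3]
  push_cast
  choose pl hpl using H.sur
  have hx : ∀ M ∈ (normalizedFactors (Ideal.span {g})).toFinset, M.IsMaximal ∧ M ≠ ⊥ :=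
    fun M hM => hmax M (Multiset.mem_toFinset.1 hM)
  symm
  refine Finset.sum_bij (fun M hM => pl M (hx M hM).1) (fun M hM => ?_) (fun M hM N hN e => ?_)
    (fun P hP => ?_) (fun M hM => ?_)
  · have := hpl M (hx M hM).1
    exact (hs _).2 ⟨(this x).1, (this g).2.1 ((mem_nf hg).1 (Multiset.mem_toFinset.1 hM)).2⟩
  · ext r
    have h1 := (hpl M (hx M hM).1 r).2
    have h2 := (hpl N (hx N hN).1 r).2
    rw [h1, h2, e]
  · obtain ⟨h1, h2⟩ := (hs P).1 hP
    obtain ⟨M, hM, hc⟩ := H.ctr P h1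
    exact ⟨M, Multiset.mem_toFinset.2 ((mem_nf hg).2 ⟨hM.isPrime, (hc g).2.2 h2⟩),
      H.inj _ _ M (hpl M hM) hc⟩
  · obtain ⟨h1, h2⟩ := hx M hM
    have hP := hpl M h1
    obtain ⟨e⟩ := equiv hP (H.res _ (hP x).1)
    rw [ord_eq hP h1 h2 (H.dvr _ (hP x).1) g hg, Place.deg, ← e.finrank_eq, nsmul_eq_mul]
    unfold c
    congr

end Pool.Agent.MP_f3836a_nt.VE.T
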