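import Pool.Agent.MP_f3836a_nt.VE.SpecT

set_option autoImplicit false

/-! The coordinate ring is a Dedekind domain; the number of zeros of a function. -/

namespace Pool.Agent.MP_f3836a_nt.VE.T

open Polynomial VE.A Module

namespace TDed

theorem dg {f : ℚ[X]} (hf : f.natDegree = 3) {A B : ℚ[X]} (h : A ≠ 0 ∨ B ≠ 0) :
    A ^ 2 - f * B ^ 2 ≠ 0 ∧ (A ^ 2 - f * B ^ 2).natDegree =
      max (2 * A.natDegree) (if B = 0 then 0 else 2 * B.natDegree + 3) := by
  by_cases hB : B = 0
  · subst hB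
    simpa using h
  · have f0 : f ≠ 0 := fun e => by simp [e] at hf
    have h1 : (f * B ^ 2).natDegree = 2 * B.natDegree + 3 := by
      rw [natDegree_mul f0 (pow_ne_zero 2 hB), natDegree_pow, hf, add_comm]
    have h2 : (A ^ 2).natDegree = 2 * A.natDegree := natDegree_pow _ _
    have h3 : (A ^ 2 - f * B ^ 2).natDegree = max (2 * A.natDegree) (2 * B.natDegree + 3) := by
      rcases lt_or_gt_of_ne (show (A ^ 2).natDegree ≠ (f * B ^ 2).natDegree by omega) with e | e
      · rw [natDegree_sub_eq_right_of_natDegree_lt e]; omega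
      · rw [natDegree_sub_eq_left_of_natDegree_lt e]; omega
    rw [if_neg hB]
    exact ⟨fun e => by rw [e, natDegree_zero] at h3; omega, h3⟩

theorem sq {f D B : ℚ[X]} (hf : Squarefree f) (hD : D ≠ 0) (h : D ^ 2 ∣ f * B ^ 2) : D ∣ B := by
  obtain ⟨d, b, c, hc, rfl, rfl⟩ := UniqueFactorizationMonoid.exists_reduced_factors D hD B
  rw [mul_pow, mul_pow, mul_left_comm,
    mul_dvd_mul_iff_left (pow_ne_zero 2 (left_ne_zero_of_mul hD))] at h
  have h1 : d ^ 2 ∣ f := (hc.pow (n := 2) (m := 2)).dvd_of_dvd_mul_right h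
  exact mul_dvd_mul_left c (hf d (by rwa [← pow_two])).dvd

theorem dv {K : Type} [Field K] [Algebra ℚ[X] K] (hi : Function.Injective (algebraMap ℚ[X] K))
    {w : K} (hw : IsIntegral ℚ[X] w) {D E : ℚ[X]} (hD : D ≠ 0)
    (h : w * algebraMap _ K D = algebraMap _ K E) : D ∣ E := by
  let φ : FractionRing ℚ[X] →ₐ[ℚ[X]] K :=
    IsFractionRing.liftAlgHom (g := Algebra.ofId ℚ[X] K) hi
  have d0 : algebraMap _ K D ≠ 0 := (map_ne_zero_iff _ hi).2 hD
  have e : w = φ (algebraMap ℚ[X] _ E / algebraMap ℚ[X] _ D) := by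
    rw [map_div₀, φ.commutes, φ.commutes, eq_div_iff d0, h]
  obtain ⟨c, hc⟩ := IsIntegrallyClosed.isIntegral_iff.1
    ((isIntegral_algHom_iff φ φ.injective).1 (e ▸ hw))
  refine ⟨c, hi ?_⟩
  rw [← h, e, ← hc, φ.commutes, map_mul, mul_comm]

variable {R : Type} [CommRing R] [Algebra ℚ[X] R] {y : R} {f : ℚ[X]}

/-- the data over the polynomial ring -/
structure Md (y : R) (f : ℚ[X]) : Prop where
  eq : y ^ 2 = algebraMap _ R f
  gen : ∀ r : R, ∃ A B : ℚ[X], r = algebraMap _ R A + algebraMap _ R B * y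
  ind : ∀ A B : ℚ[X], algebraMap _ R A + algebraMap _ R B * y = 0 → A = 0 ∧ B = 0

/-- the basis -/
noncomputable def Md.b (h : Md y f) : Basis (Fin 2) ℚ[X] R :=
  Basis.mk (v := ![1, y])
    (LinearIndependent.pair_iff.2 fun A B e => h.ind A B (by simpa [Algebra.smul_def] using e))
    fun r _ => by
      obtain ⟨A, B, rfl⟩ := h.gen r
      rw [Matrix.range_cons_cons_empty, Submodule.mem_span_pair]
      exact ⟨A, B, by simp [Algebra.smul_def]⟩

theorem Md.co (h : Md y f) (A B : ℚ[X]) :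
    algebraMap _ R A + algebraMap _ R B * y = A • h.b 0 + B • h.b 1 := by
  simp [Md.b, Algebra.smul_def]

theorem Md.mul (h : Md y f) (A B A' B' : ℚ[X]) :
    (algebraMap _ R A + algebraMap _ R B * y) * (algebraMap _ R A' + algebraMap _ R B' * y) =
      algebraMap _ R (A * A' + f * (B * B')) + algebraMap _ R (A * B' + B * A') * y := by
  simp only [map_add, map_mul, ← h.eq]
  ring

theorem Md.norm (h : Md y f) (A B : ℚ[X]) :
    Algebra.norm ℚ[X] (algebraMap _ R A + algebraMap _ R B * y) = A ^ 2 - f * B ^ 2 := by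
  have e0 : (algebraMap _ R A + algebraMap _ R B * y) * h.b 0 = A • h.b 0 + B • h.b 1 := by
    rw [← h.co]; simp [Md.b]
  have e1 : (algebraMap _ R A + algebraMap _ R B * y) * h.b 1 =
      (f * B) • h.b 0 + A • h.b 1 := by
    rw [← h.co]
    simpa [Md.b] using h.mul A B 0 1
  rw [Algebra.norm_eq_matrix_det h.b, Matrix.det_fin_two]
  simp only [Algebra.leftMulMatrix_eq_repr_mul, e0, e1]
  simp
  ring

theorem Md.cj (h : Md y f) : ∃ σ : R →ₐ[ℚ[X]] R, σ y = -y := by
  have e : ∀ A B : ℚ[X], h.b.constr ℚ[X] ![1, -y] (algebraMap _ R A + algebraMap _ R B * y) =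
      algebraMap _ R A + algebraMap _ R (-B) * y := fun A B => by
    rw [h.co, map_add, map_smul, map_smul, Basis.constr_basis, Basis.constr_basis]
    simp [Algebra.smul_def]
  refine ⟨AlgHom.ofLinearMap (h.b.constr ℚ[X] ![1, -y]) (by simpa using e 1 0) fun r s => ?_,
    by simpa using e 0 1⟩
  obtain ⟨A, B, rfl⟩ := h.gen r
  obtain ⟨A', B', rfl⟩ := h.gen s
  rw [h.mul, e, e, e, h.mul]
  congr 3 <;> ring

theorem Md.ded [IsDomain R] (h : Md y f) (hf : f.natDegree = 3) (hs : Squarefree f) :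
    IsDedekindDomain R := by
  have := Module.Finite.of_basis h.b
  refine (isDedekindDomain_iff R (FractionRing R)).2 ⟨inferInstance,
    IsNoetherianRing.of_finite ℚ[X] R, Ring.DimensionLEOne.of_isIntegral ℚ[X] R, fun {z} hz => ?_⟩
  obtain ⟨σ, hσ⟩ := h.cj
  have hj := IsFractionRing.injective R (FractionRing R)
  have e : ∀ A, algebraMap ℚ[X] (FractionRing R) A = algebraMap R _ (algebraMap _ R A) :=
    fun A => IsScalarTower.algebraMap_apply _ _ _ A
  have hi : Function.Injective (algebraMap ℚ[X] (FractionRing R)) :=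
    (injective_iff_map_eq_zero _).2 fun A hA =>
      (h.ind A 0 (by simpa using hj ((e A).symm.trans (hA.trans (map_zero _).symm)))).1
  have hσ' : ∀ A B : ℚ[X], σ (algebraMap _ R A + algebraMap _ R B * y) =
      algebraMap _ R A + algebraMap _ R (-B) * y := fun A B => by simp [hσ]
  let τ : FractionRing R →ₐ[ℚ[X]] FractionRing R :=
    IsFractionRing.liftAlgHom (g := (IsScalarTower.toAlgHom ℚ[X] R (FractionRing R)).comp σ)
      (hj.comp ((injective_iff_map_eq_zero σ).2 fun r hr => by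
        obtain ⟨A, B, rfl⟩ := h.gen r
        obtain ⟨h1, h2⟩ := h.ind _ _ ((hσ' A B).symm.trans hr)
        simp [h1, neg_eq_zero.1 h2]))
  have hτ : ∀ r, τ (algebraMap R _ r) = algebraMap R _ (σ r) := fun r =>
    (IsFractionRing.liftAlgHom_apply _ _).trans (IsFractionRing.lift_algebraMap _ r)
  obtain ⟨a, b, hb, rfl⟩ := IsFractionRing.div_surjective (A := R) z
  have b0 := nonZeroDivisors.ne_zero hb
  obtain ⟨P, Q, rfl⟩ := h.gen b
  obtain ⟨A, B, hAB⟩ := h.gen (a * (algebraMap _ R P + algebraMap _ R (-Q) * y))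
  have d0 := (dg hf (A := P) (B := Q) (by
    by_contra hn
    push Not at hn
    simp [hn.1, hn.2] at b0)).1
  set D := P ^ 2 - f * Q ^ 2 with hD
  set z := algebraMap R (FractionRing R) a / algebraMap R _ (algebraMap _ R P + algebraMap _ R Q * y)
  have e1 : z * algebraMap _ _ D = algebraMap R _ (algebraMap _ R A + algebraMap _ R B * y) := by
    have : algebraMap _ R D = (algebraMap _ R P + algebraMap _ R Q * y) *
        (algebraMap _ R P + algebraMap _ R (-Q) * y) := by
      rw [h.mul, show P * -Q + Q * P = 0 by ring, show P * P + f * (Q * -Q) = D by rw [hD]; ring]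
      simp
    rw [e, this, ← hAB, map_mul, map_mul, ← mul_assoc,
      div_mul_cancel₀ _ ((map_ne_zero_iff _ hj).2 b0)]
  have e2 : τ z * algebraMap _ _ D =
      algebraMap R _ (algebraMap _ R A + algebraMap _ R (-B) * y) := by
    rw [← hσ', ← hτ, ← e1, map_mul, τ.commutes]
  have i1 : IsIntegral ℚ[X] z := isIntegral_trans z hz
  have i2 : IsIntegral ℚ[X] (τ z) := i1.map τ
  have k1 : D ∣ 2 * A := dv hi (i1.add i2) d0 (by
    rw [add_mul, e1, e2, e, ← map_add]
    congr 1
    simp only [map_neg, two_mul, map_add]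
    ring)
  have k2 : D ^ 2 ∣ A ^ 2 - f * B ^ 2 := dv hi (i1.mul i2) (pow_ne_zero 2 d0) (by
    rw [map_pow, pow_two, mul_mul_mul_comm, e1, e2, e, ← map_mul, h.mul,
      show A * -B + B * A = 0 by ring, show A * A + f * (B * -B) = A ^ 2 - f * B ^ 2 by ring]
    simp)
  have k3 : D ∣ A := (IsUnit.dvd_mul_left (isUnit_C.2 (two_ne_zero (α := ℚ)).isUnit)).1 k1
  have k4 : D ∣ B := sq hs d0 ((dvd_sub_right (pow_dvd_pow_of_dvd k3 2)).1 k2)
  obtain ⟨A', rfl⟩ := k3
  obtain ⟨B', rfl⟩ := k4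
  refine ⟨algebraMap _ R A' + algebraMap _ R B' * y,
    mul_right_cancel₀ ((map_ne_zero_iff _ hi).2 d0) ?_⟩
  rw [e1, e, ← map_mul]
  congr 1
  simp only [map_mul]
  ring

end TDed

theorem rDed : RDed := by
  intro R _ _ _ x y f h
  let _ : Algebra ℚ[X] R := (aeval x : ℚ[X] →ₐ[ℚ] R).toRingHom.toAlgebra
  exact TDed.Md.ded (y := y) ⟨h.eq, h.gen, h.ind⟩ h.deg h.sep.squarefree

theorem rDim : RDim := by
  intro R _ _ _ x y f h A B h0
  let _ : Algebra ℚ[X] R := (aeval x : ℚ[X] →ₐ[ℚ] R).toRingHom.toAlgebra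
  have : IsScalarTower ℚ ℚ[X] R :=
    IsScalarTower.of_algebraMap_eq fun q => ((aeval x : ℚ[X] →ₐ[ℚ] R).commutes q).symm
  have m : TDed.Md y f := ⟨h.eq, h.gen, h.ind⟩
  have d := TDed.dg h.deg (A := A) (B := B) (by
    by_contra hn
    push Not at hn
    simp [hn.1, hn.2] at h0)
  refine ⟨d.1, d.2, Module.Finite.equiv (Ideal.quotientEquivDirectSum ℚ m.b
    (Ideal.span_singleton_eq_bot.not.2 h0)).symm, ?_⟩
  rw [finrank_quotient_span_eq_natDegree_norm m.b h0, ← m.norm A B]
  rfl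

end Pool.Agent.MP_f3836a_nt.VE.T
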