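import Pool.Agent.MP_f3836a_nt.VE.SpecT

set_option autoImplicit false

/-! The finite places of the function field. -/

namespace Pool.Agent.MP_f3836a_nt.VE.T

open Polynomial IsLocalRing PK VE.A IsDedekindDomain

namespace TFinP

variable {R F : Type} [CommRing R] [Field F] [Algebra ℚ F] [Algebra R F]

/-- the map into the valuation ring -/
def toV (P : Place F) (h : ∀ r : R, algebraMap R F r ∈ P.V) : R →+* P.V :=
  (algebraMap R F).codRestrict P.V h

theorem ct_comap (P : Place F) (h : ∀ r : R, algebraMap R F r ∈ P.V) :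
    P.Ct ((maximalIdeal P.V).comap (toV P h)) := fun r =>
  ⟨h r, (ValuationSubring.coe_mem_nonunits_iff (a := toV P h r)).symm⟩

theorem ct_eq {P : Place F} {M : Ideal R} (h : P.Ct M) :
    M = (maximalIdeal P.V).comap (toV P fun r => (h r).1) := by
  ext r
  rw [(h r).2, (ct_comap P (fun r => (h r).1) r).2]

theorem ct_prime {P : Place F} {M : Ideal R} (h : P.Ct M) : M.IsPrime := by
  rw [ct_eq h]
  infer_instance

theorem inv_mem {P : Place F} {M : Ideal R} (h : P.Ct M) {s : R} (hs : s ∉ M) :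
    (algebraMap R F s)⁻¹ ∈ P.V := by
  by_contra hn
  exact hs ((h s).2.2 (P.V.mem_nonunits_iff_or.2 (Or.inr hn)))

theorem tower [Algebra ℚ R] (q : ℚ) : algebraMap R F (algebraMap ℚ R q) = algebraMap ℚ F q :=
  DFunLike.congr_fun (Subsingleton.elim ((algebraMap R F).comp (algebraMap ℚ R)) _) q

theorem all_mem [Algebra ℚ R] {x y : R} {f : ℚ[X]} (m : Model x y f) (P : Place F)
    (hx : algebraMap R F x ∈ P.V) (r : R) : algebraMap R F r ∈ P.V := by
  have h1 : ∀ A : ℚ[X], algebraMap R F (aeval x A) ∈ P.V := fun A => by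
    induction A using Polynomial.induction_on' with
    | add p q hp hq => rw [map_add, map_add]; exact add_mem hp hq
    | monomial n a =>
      rw [aeval_monomial, map_mul, map_pow, tower]
      exact mul_mem (P.const a) (pow_mem hx n)
  have h2 : algebraMap R F y ∈ P.V := by
    rcases P.V.mem_or_inv_mem (algebraMap R F y) with h | h
    · exact h
    · by_cases h0 : algebraMap R F y = 0
      · rw [h0]; exact zero_mem _
      · have h3 := h1 f
        rw [← m.eq, map_pow] at h3
        have h4 := mul_mem h3 h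
        rwa [sq, mul_assoc, mul_inv_cancel₀ h0, mul_one] at h4
  obtain ⟨A, B, rfl⟩ := m.gen r
  rw [map_add, map_mul]
  exact add_mem (h1 A) (mul_mem (h1 B) h2)

theorem not_field [Algebra ℚ R] {x y : R} {f : ℚ[X]} (m : Model x y f) : ¬ IsField R := by
  intro h
  have hx : x ≠ 0 := fun e => by
    have := (m.ind X 0 (by simp [e])).1
    exact X_ne_zero this
  obtain ⟨r, hr⟩ := h.mul_inv_cancel hx
  obtain ⟨A, B, rfl⟩ := m.gen r
  have h1 := (m.ind (X * A - 1) (X * B) (by
    simp only [map_sub, map_mul, aeval_X, map_one]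
    linear_combination hr)).1
  have h2 := congrArg (eval 0) h1
  simp at h2

theorem ft [Algebra ℚ R] {x y : R} {f : ℚ[X]} (m : Model x y f) : Algebra.FiniteType ℚ R := by
  classical
  refine ⟨⟨{x, y}, eq_top_iff.2 fun r _ => ?_⟩⟩
  have h1 : ∀ A : ℚ[X], aeval x A ∈ Algebra.adjoin ℚ (({x, y} : Finset R) : Set R) := fun A =>
    Algebra.adjoin_mono (by simp) (aeval_mem_adjoin_singleton ℚ x)
  obtain ⟨A, B, rfl⟩ := m.gen r
  exact add_mem (h1 A) (mul_mem (h1 B) (Algebra.subset_adjoin (by simp)))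

variable [IsDedekindDomain R] [IsFractionRing R F]

theorem ct_ne {P : Place F} {M : Ideal R} (h : P.Ct M) : M ≠ ⊥ := by
  rintro rfl
  refine P.ne (eq_top_iff.2 fun z _ => ?_)
  obtain ⟨a, s, hs, rfl⟩ := IsFractionRing.div_surjective (A := R) z
  rw [div_eq_mul_inv]
  exact mul_mem (h a).1 (inv_mem h fun e => nonZeroDivisors.ne_zero hs (Ideal.mem_bot.1 e))

theorem ct_val {P : Place F} {v : HeightOneSpectrum R} (h : P.Ct v.asIdeal) :
    v.valuationSubringAtPrime F = P.V := by
  refine ValuationSubring.eq_of_le_of_ne_top _ ?_ P.ne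
  rintro z ⟨a, s, hs, rfl⟩
  exact mul_mem (h a).1 (inv_mem h hs)

theorem ct_inj {P Q : Place F} {M : Ideal R} (h : P.Ct M) (h' : Q.Ct M) : P = Q :=
  Place.ext ((ct_val (v := ⟨M, ct_prime h, ct_ne h⟩) h).symm.trans
    (ct_val (v := ⟨M, ct_prime h, ct_ne h⟩) h'))

theorem dvr_at (v : HeightOneSpectrum R) :
    IsDiscreteValuationRing (v.valuationSubringAtPrime F) :=
  IsLocalization.AtPrime.isDiscreteValuationRing_of_dedekind_domain R v.ne_bot _

theorem ct_dvr {P : Place F} {M : Ideal R} (h : P.Ct M) : IsDiscreteValuationRing P.V := by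
  rw [← ct_val (v := ⟨M, ct_prime h, ct_ne h⟩) h]
  exact dvr_at _

theorem ct_max {P : Place F} {M : Ideal R} (h : P.Ct M) : M.IsMaximal :=
  (ct_prime h).isMaximal (ct_ne h)

theorem ct_surj {P : Place F} {M : Ideal R} (h : P.Ct M) :
    Function.Surjective ((residue P.V).comp (toV P fun r => (h r).1)) := by
  intro a
  obtain ⟨z, rfl⟩ := residue_surjective a
  have hz : (z : F) ∈ (⟨M, ct_prime h, ct_ne h⟩ : HeightOneSpectrum R).valuationSubringAtPrime F := by
    rw [ct_val (v := ⟨M, ct_prime h, ct_ne h⟩) h]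
    exact z.2
  obtain ⟨a, s, hs, e⟩ := hz
  obtain ⟨t, i, hi, e2⟩ := (ct_max h).exists_inv hs
  have hs0 : algebraMap R F s ≠ 0 := fun e0 => hs ((h s).2.2 (e0 ▸ zero_mem _))
  have e3 : toV P (fun r => (h r).1) a = z * toV P (fun r => (h r).1) s := by
    apply Subtype.ext
    show algebraMap R F a = (z : F) * algebraMap R F s
    rw [e, mul_assoc, inv_mul_cancel₀ hs0, mul_one]
  have e4 : (residue P.V).comp (toV P fun r => (h r).1) i = 0 := by
    rw [RingHom.comp_apply, residue_eq_zero_iff]
    rwa [ct_eq h] at hi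
  have e5 := congrArg ((residue P.V).comp (toV P fun r => (h r).1)) e2
  rw [map_add, e4, add_zero, map_mul, map_one] at e5
  refine ⟨a * t, ?_⟩
  rw [map_mul, RingHom.comp_apply _ _ a, e3, map_mul, mul_assoc, mul_comm _ (RingHom.comp _ _ t)]
  exact (congrArg _ e5).trans (mul_one _)

/-- the place of a prime -/
noncomputable def plc [Algebra ℚ R] (v : HeightOneSpectrum R) : Place F where
  V := (v.valuation F).valuationSubring
  ne := by simp only [ne_eq, Valuation.valuationSubring_eq_top_iff, not_not]; infer_instance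
  const q := by
    rw [← tower (R := R)]
    exact v.valuation_le_one _

theorem plc_ct [Algebra ℚ R] (v : HeightOneSpectrum R) : (plc v : Place F).Ct v.asIdeal :=
  fun r => ⟨v.valuation_le_one _, by
    rw [ValuationSubring.mem_nonunits_iff, ← v.valuation_lt_one_iff_mem (K := F)]
    exact (Valuation.isEquiv_valuation_valuationSubring (v.valuation F)).lt_one_iff_lt_one⟩

end TFinP

open TFinP in
theorem rPFin : RPFin := by
  intro R F _ _ _ _ _ _ _ x y f m
  have hc : ∀ P : Place F, ∀ hx : algebraMap R F x ∈ P.V,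
      P.Ct ((maximalIdeal P.V).comap (toV P (all_mem m P hx))) := fun P hx => ct_comap P _
  refine ⟨fun P hx => ct_dvr (hc P hx), fun P hx => ⟨_, ct_max (hc P hx), hc P hx⟩,
    fun P Q M h h' => ct_inj h h', fun M hM => ?_, fun P hx a => ?_, fun P hx => ?_,
    fun g hg => ?_⟩
  · exact ⟨_, plc_ct ⟨M, hM.isPrime, Ring.ne_bot_of_isMaximal_of_not_isField hM (not_field m)⟩⟩
  · obtain ⟨r, hr⟩ := ct_surj (hc P hx) a
    exact ⟨r, (P.res_mem (all_mem m P hx r)).trans hr⟩
  · have := ft m
    have : Algebra.FiniteType ℚ (ResidueField P.V) := Algebra.FiniteType.of_surjective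
      ((residue P.V).comp (toV P (all_mem m P hx))).toRatAlgHom (ct_surj (hc P hx))
    exact finite_of_finite_type_of_isJacobsonRing ℚ (ResidueField P.V)
  · refine ((Ideal.finite_factors (I := Ideal.span {g}) (by simpa using hg)).image
      fun v => (plc v : Place F)).subset fun P hP => ?_
    have h := hc P hP.1
    exact ⟨⟨_, ct_prime h, ct_ne h⟩, Ideal.dvd_span_singleton.2 ((h g).2.2 hP.2),
      ct_inj (plc_ct _) h⟩

end Pool.Agent.MP_f3836a_nt.VE.T
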