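import Pool.Agent.MP_f3836a_nt.VE.SpecT

/-! Generation by rational fibres. -/

set_option autoImplicit false
set_option linter.unusedSectionVars false

namespace Pool.Agent.MP_f3836a_nt.VE.T

open Polynomial VE.A Module

namespace TGen

variable {R ι : Type} [CommRing R] [IsDomain R] [Algebra ℚ R] {x y : R} {f : ℚ[X]} {S : Sy R ι}

theorem lam_one (h : S.Ok) (v : ι) : S.lam v 1 = 0 := by
  have h1 : (1 : R) ∉ S.P v := fun c => (h.max v).ne_top ((Ideal.eq_top_iff_one _).2 c)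
  have := h.lamm v 1 1 h1 h1
  rw [mul_one] at this
  linarith

theorem cop (h : S.Ok) {v w : ι} (e : v ≠ w) : IsCoprime (S.P v) (S.P w) := by
  have := h.max v
  have := h.max w
  exact Ideal.isCoprime_of_isMaximal fun c => e (h.inj c)

theorem single (h : S.Ok) {g u : R} {v : ι} (hg : g ≠ 0) (hv : g ∈ S.P v)
    (h0 : ∀ w, w ≠ v → g ∈ S.P w → S.lam w u = 0) (hL : S.L g u = 0) : S.lam v u = 0 := by
  rw [h.L_eq hg, Finset.sum_eq_single v (fun w hw e => by rw [h0 w e (by simpa using hw), mul_zero])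
    (fun c => absurd (by simpa using hv) c)] at hL
  refine (mul_eq_zero.1 hL).resolve_left fun c => ?_
  exact (h.ord0 v g hg).1 (by exact_mod_cast c) hv

theorem ofZ (h : S.Ok) {g : R} {v : ι} (hg : g ≠ 0) (hZ : S.Z g) (hv : g ∈ S.P v) (u : R) :
    S.lam v u = 0 := by
  classical
  by_cases hu : u ∈ S.P v
  · exact h.lam0 v u hu
  have := (h.fin g hg).to_subtype
  obtain ⟨r, hr⟩ := Ideal.exists_forall_sub_mem_ideal (ι := {w | g ∈ S.P w})
    (I := fun w => S.P w.1) (fun a b e => cop h fun c => e (Subtype.ext c))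
    fun w => if w.1 = v then u else 1
  have e1 : r - u ∈ S.P v := by simpa using hr ⟨v, hv⟩
  have e2 : ∀ w, w ≠ v → g ∈ S.P w → r - 1 ∈ S.P w := fun w e hw => by simpa [e] using hr ⟨w, hw⟩
  rw [← h.lamc v r u e1]
  refine single h hg hv (fun w e hw => by rw [h.lamc w r 1 (e2 w e hw), lam_one h]) (hZ r ?_)
  refine h.cop.2 fun w hw c => ?_
  by_cases e : w = v
  · subst e
    exact hu (by simpa using sub_mem c e1)
  · exact (h.max w).ne_top ((Ideal.eq_top_iff_one _).2 (by simpa using sub_mem c (e2 w e hw)))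

/-- the element with coordinates `A`, `B` -/
noncomputable def el (x y : R) (a b : ℕ) : (degreeLT ℚ a × degreeLT ℚ b) →ₗ[ℚ] R where
  toFun p := aeval x p.1.1 + aeval x p.2.1 * y
  map_add' p q := by simp only [Prod.fst_add, Prod.snd_add, Submodule.coe_add, map_add]; ring
  map_smul' c p := by
    simp only [Prod.smul_fst, Prod.smul_snd, Submodule.coe_smul, map_smul, RingHom.id_apply,
      smul_add, smul_mul_assoc]

theorem el_ne (hM : Model x y f) {a b : ℕ} {p : degreeLT ℚ a × degreeLT ℚ b} (hp : p ≠ 0) :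
    el x y a b p ≠ 0 := fun c =>
  hp (Prod.ext (Subtype.ext (hM.ind _ _ c).1) (Subtype.ext (hM.ind _ _ c).2))

theorem rk (e : ℕ) (he : 1 ≤ e) :
    finrank ℚ (degreeLT ℚ (e / 2 + 1) × degreeLT ℚ ((e - 1) / 2)) = e := by
  rw [finrank_prod, finrank_eq_card_basis (degreeLT.basis ℚ _),
    finrank_eq_card_basis (degreeLT.basis ℚ _), Fintype.card_fin, Fintype.card_fin]
  omega

theorem fin_of (hD : RDim) (hM : Model x y f) {g : R} (hg : g ≠ 0) :
    Module.Finite ℚ (R ⧸ Ideal.span {g}) := by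
  obtain ⟨A, B, rfl⟩ := hM.gen g
  exact (hD R x y f hM A B hg).2.2.1

theorem nle (hD : RDim) (hM : Model x y f) {e : ℕ}
    {p : degreeLT ℚ (e / 2 + 1) × degreeLT ℚ ((e - 1) / 2)} (hp : p ≠ 0) :
    finrank ℚ (R ⧸ Ideal.span {el x y _ _ p}) ≤ e := by
  obtain ⟨-, h1, -, h2⟩ := hD R x y f hM p.1.1 p.2.1 (el_ne hM hp)
  refine h2.le.trans (h1.le.trans (max_le ?_ ?_))
  · have := natDegree_le_iff_degree_le.2 (Order.le_of_lt_succ
      (show p.1.1.degree < Order.succ ((e / 2 : ℕ) : WithBot ℕ) from mem_degreeLT.1 p.1.2))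
    omega
  · split_ifs with h
    · exact Nat.zero_le _
    · have := (natDegree_lt_iff_degree_lt h).2 (mem_degreeLT.1 p.2.2)
      omega

/-- the projection of quotients -/
noncomputable def pr {g : R} {I : Ideal R} (h : g ∈ I) : (R ⧸ Ideal.span {g}) →ₗ[ℚ] R ⧸ I :=
  (Ideal.Quotient.factorₐ ℚ ((Ideal.span_singleton_le_iff_mem I).2 h)).toLinearMap

theorem pr_mk {g : R} {I : Ideal R} (h : g ∈ I) (r : R) :
    pr h (Ideal.Quotient.mk _ r) = Ideal.Quotient.mk I r := rfl

theorem pr_surj {g : R} {I : Ideal R} (h : g ∈ I) : Function.Surjective (pr h) := fun a => by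
  obtain ⟨r, rfl⟩ := Ideal.Quotient.mk_surjective a
  exact ⟨_, pr_mk h r⟩

theorem x_sub_ne (hM : Model x y f) (t : ℚ) : x - algebraMap ℚ R t ≠ 0 := fun c =>
  X_sub_C_ne_zero t (hM.ind (X - C t) 0 (by simpa using c)).1

theorem finP (hD : RDim) (hM : Model x y f) (h : S.Ok) (v : ι) : Module.Finite ℚ (R ⧸ S.P v) := by
  obtain ⟨g, hg, g0⟩ : ∃ g ∈ S.P v, g ≠ 0 := by
    by_contra c
    push Not at c
    have x0 : x ≠ 0 := by simpa using x_sub_ne hM 0
    obtain ⟨r, i, hi, e⟩ := (h.max v).exists_inv (fun hx => x0 (c x hx))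
    rw [c i hi, add_zero] at e
    obtain ⟨A, B, rfl⟩ := hM.gen r
    have := (hM.ind (A * X - 1) (B * X) (by simp only [map_sub, map_mul, aeval_X, map_one]
                                            linear_combination e)).1
    simpa using congrArg (eval 0) this
  have := fin_of hD hM g0
  exact Module.Finite.of_surjective _ (pr_surj hg)

theorem deg1 (hD : RDim) (hM : Model x y f) {g : R} {I : Ideal R} (hg : g ≠ 0) (hv : g ∈ I) :
    finrank ℚ (R ⧸ I) ≤ finrank ℚ (R ⧸ Ideal.span {g}) := by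
  have := fin_of hD hM hg
  exact LinearMap.finrank_le_finrank_of_surjective (pr_surj hv)

theorem deg2 (hD : RDim) (hM : Model x y f) (h : S.Ok) {g : R} {v w : ι} (hg : g ≠ 0)
    (hv : g ∈ S.P v) (hw : g ∈ S.P w) (e : v ≠ w) :
    finrank ℚ (R ⧸ S.P v) + finrank ℚ (R ⧸ S.P w) ≤ finrank ℚ (R ⧸ Ideal.span {g}) := by
  have := fin_of hD hM hg
  have := finP hD hM h v
  have := finP hD hM h w
  rw [← finrank_prod]
  refine LinearMap.finrank_le_finrank_of_surjective (f := (pr hv).prod (pr hw)) fun ⟨a, b⟩ => ?_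
  obtain ⟨a, rfl⟩ := Ideal.Quotient.mk_surjective a
  obtain ⟨b, rfl⟩ := Ideal.Quotient.mk_surjective b
  obtain ⟨i, hi, j, hj, e⟩ := Ideal.isCoprime_iff_exists.1 (cop h e)
  refine ⟨Ideal.Quotient.mk _ (a * j + b * i), Prod.ext ?_ ?_⟩
  · refine Ideal.Quotient.eq.2 ?_
    rw [show a * j + b * i - a = (b - a) * i by linear_combination a * e]
    exact Ideal.mul_mem_left _ _ hi
  · refine Ideal.Quotient.eq.2 ?_
    rw [show a * j + b * i - b = (a - b) * j by linear_combination b * e]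
    exact Ideal.mul_mem_left _ _ hj

theorem ratP (hD : RDim) (hM : Model x y f) (h : S.Ok) {v : ι} (hv : finrank ℚ (R ⧸ S.P v) ≤ 1) :
    ∃ t : ℚ, x - algebraMap ℚ R t ∈ S.P v := by
  have := finP hD hM h v
  have : Nontrivial (R ⧸ S.P v) := Ideal.Quotient.nontrivial_iff.2 (h.max v).ne_top
  have e : finrank ℚ (R ⧸ S.P v) = 1 := le_antisymm hv finrank_pos
  obtain ⟨t, ht⟩ := (finrank_eq_one_iff_of_nonzero' (1 : R ⧸ S.P v) one_ne_zero).1 e
    (Ideal.Quotient.mk _ x)
  refine ⟨t, Ideal.Quotient.eq.1 ?_⟩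
  rw [← ht, Ideal.Quotient.mk_algebraMap, Algebra.algebraMap_eq_smul_one]

theorem ker {V W : Type} [AddCommGroup V] [Module ℚ V] [AddCommGroup W] [Module ℚ W]
    [Module.Finite ℚ V] [Module.Finite ℚ W] (φ : V →ₗ[ℚ] W) (h : finrank ℚ W < finrank ℚ V) :
    ∃ p, p ≠ 0 ∧ φ p = 0 := by
  obtain ⟨p, h1, h2⟩ := (Submodule.ne_bot_iff _).1 (LinearMap.ker_ne_bot_of_finrank_lt (f := φ) h)
  exact ⟨p, h2, h1⟩

end TGen

open TGen in
theorem rGen : RDim → RGen := by
  intro hD R ι _ _ _ x y f S hM h hZ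
  have fib : ∀ w (t : ℚ), x - algebraMap ℚ R t ∈ S.P w → ∀ u, S.lam w u = 0 := fun w t hw u =>
    ofZ h (x_sub_ne hM t) (hZ t) hw u
  suffices H : ∀ d v, finrank ℚ (R ⧸ S.P v) = d → ∀ u, S.lam v u = 0 from fun v => H _ v rfl
  intro d
  induction d using Nat.strong_induction_on with
  | _ d ih =>
  intro v hd u
  by_cases hx : ∃ t : ℚ, x - algebraMap ℚ R t ∈ S.P v
  · obtain ⟨t, ht⟩ := hx
    exact fib v t ht u
  have d2 : 2 ≤ d := by
    by_contra c
    exact hx (ratP hD hM h (by omega))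
  by_cases hu : u ∈ S.P v
  · exact h.lam0 v u hu
  have := finP hD hM h v
  have hpr := (h.max v).isPrime
  let q : R →ₗ[ℚ] R ⧸ S.P v := (Ideal.Quotient.mkₐ ℚ (S.P v)).toLinearMap
  have hq : ∀ r, q r = 0 ↔ r ∈ S.P v := fun r => Ideal.Quotient.eq_zero_iff_mem
  obtain ⟨p, p0, hp⟩ := ker (q ∘ₗ el x y ((d + 1) / 2 + 1) ((d + 1 - 1) / 2))
    (by rw [rk _ (by omega)]; omega)
  have hπ := (hq _).1 hp
  have key : ∀ g, g ≠ 0 → (∀ w, g ∈ S.P w → ∀ r, S.lam w r = 0) → S.lam v g = 0 := by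
    intro g g0 hg
    refine single h (el_ne hM p0) hπ (fun w e hw => ?_) ?_
    · have h1 := deg2 hD hM h (el_ne hM p0) hπ hw e.symm
      have h2 := nle hD hM (e := d + 1) p0
      obtain ⟨t, ht⟩ := ratP hD hM h (v := w) (by omega)
      exact fib w t ht g
    · rw [h.sym _ g (el_ne hM p0) g0 fun w _ hw => hg w hw, h.L_eq g0]
      exact Finset.sum_eq_zero fun w hw => by rw [hg w (by simpa using hw), mul_zero]
  obtain ⟨e, e1, e2, good⟩ : ∃ e, 1 ≤ e ∧ d < e + e ∧
      ∀ p : degreeLT ℚ (e / 2 + 1) × degreeLT ℚ ((e - 1) / 2), p ≠ 0 →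
        el x y _ _ p ∉ S.P v ∧ ∀ w, el x y _ _ p ∈ S.P w → ∀ r, S.lam w r = 0 := by
    by_cases d3 : d = 2
    · refine ⟨2, by omega, by omega, fun p p0 => ?_⟩
      have h1 : ∀ w, el x y _ _ p ∈ S.P w → ∃ t : ℚ, x - algebraMap ℚ R t ∈ S.P w := by
        intro w hw
        have hB : p.2.1 = 0 := by
          have : p.2.1.degree < 0 := mem_degreeLT.1 p.2.2
          exact degree_eq_bot.1 (Nat.WithBot.lt_zero_iff.1 this)
        have hA : p.1.1 = C (p.1.1.coeff 1) * X + C (p.1.1.coeff 0) :=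
          eq_X_add_C_of_degree_le_one (Order.le_of_lt_succ
            (show p.1.1.degree < Order.succ (1 : WithBot ℕ) from mem_degreeLT.1 p.1.2))
        have hE : el x y _ _ p = algebraMap ℚ R (p.1.1.coeff 1) * x
            + algebraMap ℚ R (p.1.1.coeff 0) := by
          show aeval x p.1.1 + aeval x p.2.1 * y = _
          rw [hB, map_zero, zero_mul, add_zero]
          conv_lhs => rw [hA]
          simp
        by_cases b0 : p.1.1.coeff 1 = 0
        · rw [b0, map_zero, zero_mul, zero_add] at hE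
          have a0 : p.1.1.coeff 0 ≠ 0 := fun c => el_ne hM p0 (by rw [hE, c, map_zero])
          rw [hE] at hw
          exact absurd (Ideal.eq_top_of_isUnit_mem _ hw ((Ne.isUnit a0).map _)) (h.max w).ne_top
        · refine ⟨-p.1.1.coeff 0 / p.1.1.coeff 1, ?_⟩
          have := Ideal.mul_mem_left _ (algebraMap ℚ R (p.1.1.coeff 1)⁻¹) hw
          rw [hE, mul_add, ← mul_assoc, ← map_mul, ← map_mul, inv_mul_cancel₀ b0, map_one,
            one_mul] at this
          rwa [neg_div, map_neg, sub_neg_eq_add, div_eq_inv_mul]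
      refine ⟨fun c => hx (h1 v c), fun w hw => ?_⟩
      obtain ⟨t, ht⟩ := h1 w hw
      exact fib w t ht
    · refine ⟨d - 1, by omega, by omega, fun p p0 => ?_⟩
      have h1 : ∀ w, el x y _ _ p ∈ S.P w → finrank ℚ (R ⧸ S.P w) < d := fun w hw => by
        have h2 := deg1 hD hM (el_ne hM p0) hw
        have h3 := nle hD hM (e := d - 1) p0
        omega
      exact ⟨fun c => by have := h1 v c; omega, fun w hw => ih _ (h1 w hw) w rfl⟩
  obtain ⟨⟨p1, p2⟩, p0, hp⟩ := ker (q ∘ₗ ((LinearMap.mulLeft ℚ u ∘ₗ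
    el x y (e / 2 + 1) ((e - 1) / 2)).coprod (-el x y (e / 2 + 1) ((e - 1) / 2))))
    (by rw [finrank_prod, rk _ e1]; omega)
  have hm : u * el x y _ _ p1 - el x y _ _ p2 ∈ S.P v := by
    rw [sub_eq_add_neg]
    exact (hq _).1 hp
  have h1 : p1 ≠ 0 := by
    rintro rfl
    rw [map_zero, mul_zero, zero_sub, neg_mem_iff] at hm
    exact (good p2 fun c => p0 (by rw [c]; rfl)).1 hm
  have h2 : p2 ≠ 0 := by
    rintro rfl
    rw [map_zero, sub_zero] at hm
    exact (hpr.mem_or_mem hm).elim hu (good p1 h1).1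
  have := h.lamc v _ _ hm
  rw [h.lamm v u _ hu (good p1 h1).1, key _ (el_ne hM h1) (good p1 h1).2,
    key _ (el_ne hM h2) (good p2 h2).2, add_zero] at this
  exact this

end Pool.Agent.MP_f3836a_nt.VE.T
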