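import Pool.Agent.MP_f3836a_nt.VE.SpecT

set_option autoImplicit false

/-! The place at infinity. -/

namespace Pool.Agent.MP_f3836a_nt.VE.T

open Polynomial IsLocalRing PK VE.A

namespace TInf

section
variable {F Γ : Type} [Field F] [LinearOrderedCommGroupWithZero Γ] {v : Valuation F Γ}
  {a b c d : F}

/-- equality up to terms of smaller size -/
def Ap (v : Valuation F Γ) (a b : F) : Prop := v (a - b) < v b

theorem Ap.eq (h : Ap v a b) : v a = v b := v.map_eq_of_sub_lt h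

theorem Ap.ne (h : Ap v a b) : b ≠ 0 := fun e => not_lt_zero (by rwa [Ap, e, v.map_zero] at h)

theorem Ap.refl (h : a ≠ 0) : Ap v a a := by
  rw [Ap, sub_self, v.map_zero]
  exact zero_lt_iff.2 (v.ne_zero_iff.2 h)

theorem Ap.symm (h : Ap v a b) : Ap v b a := by
  rw [Ap, v.map_sub_swap, h.eq]
  exact h

theorem Ap.trans (h : Ap v a b) (h' : Ap v b c) : Ap v a c := by
  rw [Ap, ← sub_add_sub_cancel a b c]
  exact v.map_add_lt (h'.eq ▸ h) h'

theorem Ap.add (h : Ap v a b) (h' : v c < v b) : Ap v (a + c) b := by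
  rw [Ap, add_sub_right_comm]
  exact v.map_add_lt h h'

theorem Ap.mulr (h : Ap v a b) (hc : c ≠ 0) : Ap v (a * c) (b * c) := by
  rw [Ap, ← sub_mul, v.map_mul, v.map_mul]
  exact mul_lt_mul_of_pos_right h (zero_lt_iff.2 (v.ne_zero_iff.2 hc))

theorem Ap.mul (h : Ap v a b) (h' : Ap v c d) : Ap v (a * c) (b * d) := by
  refine (h.mulr h'.symm.ne).trans ?_
  rw [mul_comm b, mul_comm b]
  exact h'.mulr h.ne

theorem Ap.pow (h : Ap v a b) (n : ℕ) : Ap v (a ^ n) (b ^ n) := by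
  induction n with
  | zero => simpa using Ap.refl (v := v) (one_ne_zero (α := F))
  | succ n ih => simpa only [pow_succ] using ih.mul h

theorem Ap.inv (h : Ap v a b) : Ap v a⁻¹ b⁻¹ := by
  have := h.symm.mulr (mul_ne_zero (inv_ne_zero h.ne) (inv_ne_zero h.symm.ne))
  rwa [mul_inv_cancel_left₀ h.ne, mul_comm b⁻¹, mul_inv_cancel_left₀ h.symm.ne] at this

end

variable {F : Type} [Field F] [Algebra ℚ F] (P : Place F) {x y : F} {f : ℚ[X]}

theorem v_const {c : ℚ} (hc : c ≠ 0) : P.V.valuation (algebraMap ℚ F c) = 1 :=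
  (P.V.valuation_eq_one_iff ⟨_, P.const c⟩).1
    ((IsUnit.mk0 c hc).map ((algebraMap ℚ F).codRestrict P.V P.const))

theorem poly (hx : 1 < P.V.valuation x) {A : ℚ[X]} (hA : A ≠ 0) :
    Ap P.V.valuation (aeval x A) (algebraMap ℚ F A.leadingCoeff * x ^ A.natDegree) := by
  have e : aeval x A - algebraMap ℚ F A.leadingCoeff * x ^ A.natDegree = aeval x A.eraseLead := by
    rw [← self_sub_C_mul_X_pow, map_sub, map_mul, aeval_C, map_pow, aeval_X]
  rw [Ap, e, map_mul, v_const P (leadingCoeff_ne_zero.2 hA), one_mul, map_pow, aeval_def,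
    eval₂_eq_sum, sum_def]
  refine Valuation.map_sum_lt _ (pow_ne_zero _ (zero_lt_one.trans hx).ne') fun i hi => ?_
  rw [map_mul, v_const P (mem_support_iff.1 hi), one_mul, map_pow]
  exact pow_lt_pow_right₀ hx (lt_natDegree_of_mem_eraseLead_support hi)

variable (hx : x ∉ P.V) (hm : f.Monic) (h3 : f.natDegree = 3) (e : y ^ 2 = aeval x f)

include hx hm h3 e

theorem base : 1 < P.V.valuation x ∧ Ap P.V.valuation x ((y / x) ^ 2) ∧
    1 < P.V.valuation (y / x) := by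
  have h1 : 1 < P.V.valuation x := not_le.1 fun h => hx (P.V.mem_of_valuation_le_one x h)
  have x0 : x ≠ 0 := fun h => hx (h ▸ P.V.zero_mem)
  have h := (poly P h1 hm.ne_zero).symm.mulr (inv_ne_zero (pow_ne_zero 2 x0))
  rw [hm.leadingCoeff, map_one, one_mul, h3, ← e, ← div_eq_mul_inv, ← div_eq_mul_inv, ← div_pow,
    show x ^ 3 / x ^ 2 = x by field_simp] at h
  refine ⟨h1, h, (one_lt_pow_iff_of_nonneg zero_le two_ne_zero).1 ?_⟩
  rwa [← map_pow, ← h.eq]

theorem key (A B : ℚ[X]) (h0 : A ≠ 0 ∨ B ≠ 0) : ∃ c : ℚ, c ≠ 0 ∧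
    Ap P.V.valuation (aeval x A + aeval x B * y) (algebraMap ℚ F c *
      (y / x) ^ max (2 * A.natDegree) (if B = 0 then 0 else 2 * B.natDegree + 3)) := by
  obtain ⟨h1, h2, h4⟩ := base P hx hm h3 e
  have x0 : x ≠ 0 := h2.symm.ne
  have u0 : y / x ≠ 0 := (pow_ne_zero_iff two_ne_zero).1 h2.ne
  have hA : ∀ A : ℚ[X], A ≠ 0 → Ap P.V.valuation (aeval x A)
      (algebraMap ℚ F A.leadingCoeff * (y / x) ^ (2 * A.natDegree)) := fun A hA => by
    rw [pow_mul]
    exact (poly P h1 hA).trans ((Ap.refl ((_root_.map_ne_zero _).2 (leadingCoeff_ne_zero.2 hA))).mul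
      (h2.pow _))
  have hB : B ≠ 0 → Ap P.V.valuation (aeval x B * y)
      (algebraMap ℚ F B.leadingCoeff * (y / x) ^ (2 * B.natDegree + 3)) := fun hB => by
    have := (hA B hB).mul (h2.mulr u0)
    rwa [mul_div_cancel₀ _ x0, ← pow_succ, mul_assoc, ← pow_add] at this
  have vv : ∀ (C : ℚ[X]) (n : ℕ), C ≠ 0 → P.V.valuation (algebraMap ℚ F C.leadingCoeff *
      (y / x) ^ n) = P.V.valuation (y / x) ^ n := fun C n h => by
    rw [map_mul, v_const P (leadingCoeff_ne_zero.2 h), one_mul, map_pow]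
  by_cases b : B = 0
  · have a := h0.resolve_right (not_not.2 b)
    exact ⟨_, leadingCoeff_ne_zero.2 a, by simpa [b] using hA A a⟩
  rw [if_neg b]
  by_cases a : A = 0
  · exact ⟨_, leadingCoeff_ne_zero.2 b, by simpa [a] using hB b⟩
  rcases lt_or_gt_of_ne (show 2 * A.natDegree ≠ 2 * B.natDegree + 3 by omega) with h | h
  · rw [max_eq_right h.le, add_comm]
    refine ⟨_, leadingCoeff_ne_zero.2 b, (hB b).add ?_⟩
    rw [(hA A a).eq, vv _ _ a, vv _ _ b]
    exact pow_lt_pow_right₀ h4 h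
  · rw [max_eq_left h.le]
    refine ⟨_, leadingCoeff_ne_zero.2 a, (hA A a).add ?_⟩
    rw [(hB b).eq, vv _ _ a, vv _ _ b]
    exact pow_lt_pow_right₀ h4 h

omit hx hm h3 e

variable {u : F} (hu : 1 < P.V.valuation u)
  (h : ∀ z : F, z ≠ 0 → ∃ n : ℤ, P.V.valuation z = P.V.valuation u ^ n)

include hu

theorem inv_mem : u⁻¹ ∈ P.V :=
  P.V.mem_of_valuation_le_one _ (by rw [map_inv₀]; exact inv_le_one_of_one_le₀ hu.le)

include h

theorem irr : Irreducible (⟨u⁻¹, inv_mem P hu⟩ : P.V) := by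
  have u0 := zero_lt_one.trans hu
  refine ⟨fun a => ?_, fun a b e => ?_⟩
  · have := (P.V.valuation_eq_one_iff _).1 a
    rw [map_inv₀, inv_eq_one] at this
    exact hu.ne' this
  · have e' : u⁻¹ = a * b := congrArg Subtype.val e
    obtain ⟨a0, b0⟩ := mul_ne_zero_iff.1 (e' ▸ inv_ne_zero (P.V.valuation.ne_zero_iff.1 u0.ne'))
    obtain ⟨n, hn⟩ := h _ a0
    obtain ⟨m, hm⟩ := h _ b0
    have a1 := P.V.valuation_le_one a
    have b1 := P.V.valuation_le_one b
    have e2 := congrArg P.V.valuation e'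
    rw [map_inv₀, map_mul, hn, hm, ← zpow_add₀ u0.ne', ← zpow_neg_one,
      zpow_right_inj₀ u0 hu.ne'] at e2
    rw [hn, zpow_le_one_iff_right₀ hu] at a1
    rw [hm, zpow_le_one_iff_right₀ hu] at b1
    rw [P.V.valuation_eq_one_iff, P.V.valuation_eq_one_iff, hn, hm]
    rcases (show n = 0 ∨ m = 0 by omega) with rfl | rfl <;> simp

theorem dvr : IsDiscreteValuationRing P.V := by
  refine IsDiscreteValuationRing.ofHasUnitMulPowIrreducibleFactorization
    ⟨_, irr P hu h, fun {a} ha => ?_⟩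
  obtain ⟨n, hn⟩ := h a fun e => ha (Subtype.ext e)
  have a1 := P.V.valuation_le_one a
  rw [hn, zpow_le_one_iff_right₀ hu] at a1
  obtain ⟨k, rfl⟩ := Int.exists_eq_neg_ofNat a1
  rw [zpow_neg, zpow_natCast, ← inv_pow, ← map_inv₀, ← map_pow, P.V.valuation_eq_iff] at hn
  obtain ⟨w, hw⟩ := hn
  exact ⟨k, w, Subtype.ext ((mul_comm _ _).trans hw)⟩

theorem ord_eq {z : F} {n : ℕ} (hz : P.V.valuation z = P.V.valuation u ^ n) : P.ord z = -n := by
  have hd := dvr P hu h
  have D := P.dva hd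
  have u0 : u ≠ 0 := P.V.valuation.ne_zero_iff.1 (zero_lt_one.trans hu).ne'
  have h1 : ordR P.V.toSubring u⁻¹ = 1 :=
    (@rOrdD F _ P.V.toSubring hd (P.dv hd).frac).2.2.2.2.1 _ (irr P hu h)
  rw [← map_pow, P.V.valuation_eq_iff] at hz
  obtain ⟨w, rfl⟩ := hz
  obtain ⟨w0, w1⟩ := D.unit' _ w.isUnit
  have h2 := D.zpow u⁻¹ (-n) (inv_ne_zero u0)
  rw [inv_zpow', neg_neg, zpow_natCast, h1, mul_one] at h2
  exact (D.mul _ _ w0 (pow_ne_zero n u0)).trans (by rw [w1, h2, zero_add])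

end TInf

open TInf in
theorem rPInf : RDim → RPInf := by
  intro hD R F _ _ _ _ _ _ _ x y f M
  have ev : ∀ A B : ℚ[X], algebraMap R F (aeval x A + aeval x B * y) =
      aeval (algebraMap R F x) A + aeval (algebraMap R F x) B * algebraMap R F y := fun A B => by
    rw [map_add, map_mul, aeval_algebraMap_apply, aeval_algebraMap_apply]
  have e : algebraMap R F y ^ 2 = aeval (algebraMap R F x) f := by
    rw [← map_pow, M.eq, aeval_algebraMap_apply]
  set u := algebraMap R F y / algebraMap R F x with hu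
  have k1 : ∀ A B : ℚ[X], aeval x A + aeval x B * y ≠ 0 → ∀ P : Place F,
      algebraMap R F x ∉ P.V → ∃ c : ℚ, c ≠ 0 ∧ Ap P.V.valuation
        (algebraMap R F (aeval x A + aeval x B * y))
        (algebraMap ℚ F c * u ^ (A ^ 2 - f * B ^ 2).natDegree) := fun A B h P hx => by
    rw [ev, (hD R x y f M A B h).2.1]
    refine key P hx M.monic M.deg e A B ?_
    by_contra! h'
    simp [h'.1, h'.2] at h
  have k2 : ∀ z : F, z ≠ 0 → ∃ n : ℤ, ∀ P : Place F, algebraMap R F x ∉ P.V →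
      ∃ c : ℚ, c ≠ 0 ∧ Ap P.V.valuation z (algebraMap ℚ F c * u ^ n) := fun z hz => by
    obtain ⟨g, h, hh, rfl⟩ := IsFractionRing.div_surjective (A := R) z
    obtain ⟨A, B, rfl⟩ := M.gen g
    obtain ⟨C, D, rfl⟩ := M.gen h
    refine ⟨(A ^ 2 - f * B ^ 2).natDegree - (C ^ 2 - f * D ^ 2).natDegree, fun P hx => ?_⟩
    obtain ⟨c, c0, hc⟩ := k1 A B (fun e => hz (by rw [e, map_zero, zero_div])) P hx
    obtain ⟨d, d0, hd⟩ := k1 C D (nonZeroDivisors.ne_zero hh) P hx
    refine ⟨c / d, div_ne_zero c0 d0, ?_⟩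
    have u0 : u ≠ 0 := P.V.valuation.ne_zero_iff.1
      (zero_lt_one.trans (base P hx M.monic M.deg e).2.2).ne'
    rw [zpow_sub₀ u0, zpow_natCast, zpow_natCast, map_div₀, div_mul_div_comm, div_eq_mul_inv,
      div_eq_mul_inv]
    exact hc.mul hd.inv
  have k3 : ∀ z : F, z ≠ 0 → ∃ n : ℤ, ∀ P : Place F, algebraMap R F x ∉ P.V →
      P.V.valuation z = P.V.valuation u ^ n := fun z hz => by
    obtain ⟨n, hn⟩ := k2 z hz
    refine ⟨n, fun P hx => ?_⟩
    obtain ⟨c, c0, hc⟩ := hn P hx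
    rw [hc.eq, map_mul, v_const P c0, one_mul, map_zpow₀]
  obtain ⟨V, hV, hx⟩ := Subring.exists_le_valuationSubring_of_isIntegrallyClosedIn
    (x := algebraMap R F x) (R := (integralClosure ℚ F).toSubring) (by
      rintro ⟨A, hA, h⟩
      rw [← aeval_def, aeval_algebraMap_apply, map_eq_zero_iff _ (IsFractionRing.injective R F)] at h
      exact hA.ne_zero (M.ind A 0 (by simp [h])).1)
  let O : Place F := ⟨V, fun h => hx (h ▸ trivial), fun q => hV (Subalgebra.algebraMap_mem _ q)⟩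
  have o1 := (base O hx M.monic M.deg e).2.2
  have o2 := fun z hz => (k3 z hz).imp fun _ h => h O hx
  refine ⟨O, dvr O o1 o2, fun P => ⟨fun h => ?_, fun h => h ▸ hx⟩, fun A B h => ?_, fun a => ?_⟩
  · refine Place.ext (SetLike.ext fun z => ?_)
    by_cases hz : z = 0
    · simp [hz]
    obtain ⟨n, hn⟩ := k3 z hz
    rw [← P.V.valuation_le_one_iff, ← O.V.valuation_le_one_iff, hn P h, hn O hx,
      zpow_le_one_iff_right₀ o1, zpow_le_one_iff_right₀ (base P h M.monic M.deg e).2.2]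
  · obtain ⟨c, c0, hc⟩ := k1 A B h O hx
    exact ord_eq O o1 o2 (by rw [hc.eq, map_mul, v_const O c0, one_mul, map_pow])
  · obtain ⟨a, rfl⟩ := residue_surjective a
    obtain ⟨q, hq⟩ : ∃ q : ℚ, O.V.valuation (a - algebraMap ℚ F q) < 1 := by
      rcases (O.V.valuation_le_one a).lt_or_eq with h | h
      · exact ⟨0, by simpa using h⟩
      obtain ⟨n, hn⟩ := k2 a fun e => by simp [e] at h
      obtain ⟨c, c0, hc⟩ := hn O hx
      have := hc.eq
      rw [h, map_mul, v_const O c0, one_mul, map_zpow₀, eq_comm,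
        zpow_eq_one_iff_right₀ zero_le o1.ne'] at this
      rw [this, zpow_zero, mul_one, Ap, v_const O c0] at hc
      exact ⟨c, hc⟩
    refine ⟨q, (Ideal.Quotient.eq.2 ((O.V.valuation_lt_one_iff _).2 hq)).symm⟩

end Pool.Agent.MP_f3836a_nt.VE.T
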