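import Pool.Agent.MP_f3836a_nt.VE.SpecT

set_option autoImplicit false

/-! The coordinate ring of an elliptic curve is a model; conjugation. -/

namespace Pool.Agent.MP_f3836a_nt.VE.T

open Polynomial IsLocalRing PK VE.A

namespace TMod

theorem sep_cubic (a b c : ℚ)
    (h : 4 * (3 * b - a ^ 2) ^ 3 + (27 * c - 9 * a * b + 2 * a ^ 3) ^ 2 ≠ 0) :
    (X ^ 3 + C a * X ^ 2 + C b * X + C c : ℚ[X]).Separable := by
  have hd : derivative (X ^ 3 + C a * X ^ 2 + C b * X + C c : ℚ[X]) =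
      3 * X ^ 2 + 2 * C a * X + C b := by
    simp only [derivative_add, derivative_mul, derivative_C, derivative_X, derivative_X_pow,
      Nat.cast_ofNat, map_ofNat]
    ring
  set d : ℚ := 4 * (3 * b - a ^ 2) ^ 3 + (27 * c - 9 * a * b + 2 * a ^ 3) ^ 2 with hdd
  have e1 : (C d⁻¹ * C d : ℚ[X]) = 1 := by rw [← C_mul, inv_mul_cancel₀ h, C_1]
  have e2 : (C d : ℚ[X]) = 4 * (3 * C b - C a ^ 2) ^ 3 +
      (27 * C c - 9 * C a * C b + 2 * C a ^ 3) ^ 2 := by
    simp only [hdd, map_add, map_mul, map_sub, map_pow, map_ofNat]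
  refine ⟨C d⁻¹ * (27 * (-2 * (3 * C b - C a ^ 2) * (3 * X + C a) +
      (27 * C c - 9 * C a * C b + 2 * C a ^ 3))),
    C d⁻¹ * (6 * (3 * C b - C a ^ 2) * (3 * X + C a) ^ 2 -
      3 * (27 * C c - 9 * C a * C b + 2 * C a ^ 3) * (3 * X + C a) +
      12 * (3 * C b - C a ^ 2) ^ 2), ?_⟩
  rw [hd, ← e1, e2]
  ring

/-- completing the square -/
theorem model {R : Type} [CommRing R] [Algebra ℚ R] [Algebra ℚ[X] R] [IsScalarTower ℚ ℚ[X] R]
    (Y : R) (g L f : ℚ[X]) (h1 : f.Monic) (h2 : f.natDegree = 3) (h3 : f.Separable)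
    (hf : f = g + L ^ 2)
    (hY : Y * Y = g • (1 : R) + (0 - 2 * L) • Y)
    (gen : ∀ r : R, ∃ p q : ℚ[X], p • (1 : R) + q • Y = r)
    (ind : ∀ p q : ℚ[X], p • (1 : R) + q • Y = 0 → p = 0 ∧ q = 0) :
    Model (algebraMap ℚ[X] R X) (Y + algebraMap ℚ[X] R L) f := by
  have ae : ∀ A : ℚ[X], aeval (algebraMap ℚ[X] R X) A = algebraMap ℚ[X] R A := fun A => by
    rw [aeval_algebraMap_apply, aeval_X_left_apply]
  simp only [Algebra.smul_def, mul_one] at hY gen ind
  refine ⟨h1, h2, h3, ?_, fun r => ?_, fun A B h => ?_⟩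
  · rw [ae, hf]
    simp only [map_add, map_sub, map_mul, map_pow, map_zero, map_ofNat] at hY ⊢
    linear_combination hY
  · obtain ⟨p, q, e⟩ := gen r
    refine ⟨p - q * L, q, ?_⟩
    rw [ae, ae, ← e, map_sub, map_mul]
    ring
  · rw [ae, ae] at h
    obtain ⟨e1, e2⟩ := ind (A + B * L) B (by rw [← h, map_add, map_mul]; ring)
    rw [e2, zero_mul, add_zero] at e1
    exact ⟨e1, e2⟩

theorem ex_conj {R : Type} [CommRing R] [Algebra ℚ R] {x y : R} {f : ℚ[X]} (h : Model x y f) :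
    ∃ s : R ≃+* R, ∀ A B : ℚ[X], s (aeval x A + aeval x B * y) = aeval x A - aeval x B * y := by
  choose a b hab using h.gen
  have key : ∀ A B : ℚ[X], aeval x (a (aeval x A + aeval x B * y)) -
      aeval x (b (aeval x A + aeval x B * y)) * y = aeval x A - aeval x B * y := fun A B => by
    obtain ⟨e1, e2⟩ := h.ind (a (aeval x A + aeval x B * y) - A) (b (aeval x A + aeval x B * y) - B)
      (by rw [map_sub, map_sub]; linear_combination -hab (aeval x A + aeval x B * y))
    rw [sub_eq_zero.1 e1, sub_eq_zero.1 e2]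
  obtain ⟨s, hs⟩ : ∃ s : R → R, ∀ A B : ℚ[X],
      s (aeval x A + aeval x B * y) = aeval x A - aeval x B * y :=
    ⟨fun r => aeval x (a r) - aeval x (b r) * y, key⟩
  have inv : ∀ r, s (s r) = r := fun r => by
    obtain ⟨A, B, rfl⟩ := h.gen r
    have := hs A (-B)
    rw [map_neg, neg_mul, ← sub_eq_add_neg, sub_neg_eq_add] at this
    rw [hs, this]
  refine ⟨⟨⟨s, s, inv, inv⟩, fun r r' => ?_, fun r r' => ?_⟩, hs⟩
  · obtain ⟨A, B, rfl⟩ := h.gen r
    obtain ⟨A', B', rfl⟩ := h.gen r'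
    have e : (aeval x A + aeval x B * y) * (aeval x A' + aeval x B' * y) =
        aeval x (A * A' + f * (B * B')) + aeval x (A * B' + A' * B) * y := by
      simp only [map_add, map_mul, ← h.eq]
      ring
    change s _ = s _ * s _
    rw [e, hs, hs, hs]
    simp only [map_add, map_mul, ← h.eq]
    ring
  · obtain ⟨A, B, rfl⟩ := h.gen r
    obtain ⟨A', B', rfl⟩ := h.gen r'
    have e : (aeval x A + aeval x B * y) + (aeval x A' + aeval x B' * y) =
        aeval x (A + A') + aeval x (B + B') * y := by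
      simp only [map_add]
      ring
    change s _ = s _ + s _
    rw [e, hs, hs, hs]
    simp only [map_add]
    ring

end TMod

theorem rModE : RModE := by
  intro W _
  have hΔ : W.Δ ≠ 0 := W.isUnit_Δ.ne_zero
  refine ⟨_, _, X ^ 3 + C (W.a₂ + (W.a₁ / 2) ^ 2) * X ^ 2 + C (W.a₄ + 2 * (W.a₁ / 2) * (W.a₃ / 2)) * X +
    C (W.a₆ + (W.a₃ / 2) ^ 2), TMod.model
    (WeierstrassCurve.Affine.CoordinateRing.mk W.toAffine X)
    (X ^ 3 + C W.a₂ * X ^ 2 + C W.a₄ * X + C W.a₆) (C (W.a₁ / 2) * X + C (W.a₃ / 2)) _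
    (by monicity!) (by compute_degree!) (TMod.sep_cubic _ _ _ fun e => hΔ ?_) ?_ ?_
    WeierstrassCurve.Affine.CoordinateRing.exists_smul_basis_eq
    fun p q => WeierstrassCurve.Affine.CoordinateRing.smul_basis_eq_zero⟩
  · simp only [WeierstrassCurve.Δ, WeierstrassCurve.b₂, WeierstrassCurve.b₄, WeierstrassCurve.b₆,
      WeierstrassCurve.b₈]
    linear_combination (-16 / 27 : ℚ) * e
  · simp only [map_add, map_mul, map_pow, map_ofNat]
    ring
  · have := WeierstrassCurve.Affine.CoordinateRing.smul_basis_mul_Y (W' := W.toAffine) 0 1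
    have e : (2 * (C (W.a₁ / 2) * X + C (W.a₃ / 2)) : ℚ[X]) = C W.a₁ * X + C W.a₃ := by
      have e1 : (C W.a₁ : ℚ[X]) = 2 * C (W.a₁ / 2) := by
        rw [← map_ofNat C 2, ← C_mul]; congr 1; ring
      have e3 : (C W.a₃ : ℚ[X]) = 2 * C (W.a₃ / 2) := by
        rw [← map_ofNat C 2, ← C_mul]; congr 1; ring
      rw [e1, e3]
      ring
    rw [zero_smul, one_smul, zero_add, one_mul, one_mul] at this
    rw [e]
    exact this

theorem rCj : RCj := by
  intro R F _ _ _ _ _ _ _ x y f h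
  obtain ⟨s, hs⟩ := TMod.ex_conj h
  refine ⟨⟨IsFractionRing.ringEquivOfRingEquiv s, ?_, ?_⟩, fun z => ?_⟩
  · have := hs X 0
    simp only [aeval_X, map_zero, zero_mul, add_zero, sub_zero] at this
    rw [IsFractionRing.ringEquivOfRingEquiv_algebraMap, this]
  · have := hs 0 1
    simp only [map_one, map_zero, one_mul, zero_add, zero_sub] at this
    rw [IsFractionRing.ringEquivOfRingEquiv_algebraMap, this, map_neg]
  · obtain ⟨g, k, hk, rfl⟩ := IsFractionRing.div_surjective R z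
    have k0 : k ≠ 0 := nonZeroDivisors.ne_zero hk
    have k1 : algebraMap R F k ≠ 0 := fun e =>
      k0 (IsFractionRing.injective R F (e.trans (map_zero _).symm))
    obtain ⟨A, B, rfl⟩ := h.gen k
    obtain ⟨A', B', e'⟩ := h.gen (g * s (aeval x A + aeval x B * y))
    have e : aeval x (A ^ 2 - f * B ^ 2) =
        (aeval x A + aeval x B * y) * s (aeval x A + aeval x B * y) := by
      rw [hs]
      simp only [map_sub, map_mul, map_pow, ← h.eq]
      ring
    refine ⟨A', B', A ^ 2 - f * B ^ 2, fun e0 => ?_, ?_⟩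
    · rw [e0, map_zero] at e
      exact mul_ne_zero k0 (s.map_ne_zero_iff.2 k0) e.symm
    · rw [aeval_algebraMap_apply, aeval_algebraMap_apply, aeval_algebraMap_apply, ← map_mul,
        ← map_add, ← e', e, map_mul, map_mul, ← mul_assoc, div_mul_cancel₀ _ k1]

end Pool.Agent.MP_f3836a_nt.VE.T
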