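import Pool.Agent.MP_f3836a_nt.VE.SpecT

set_option autoImplicit false

namespace Pool.Agent.MP_f3836a_nt.VE.T

open Polynomial IsLocalRing PK VE.A

namespace TTop

theorem one {κ : Type} [Field κ] {l : κ → ℚ} (h : Addv l) : l 1 = 0 := by
  have := h 1 1 one_ne_zero one_ne_zero
  rw [mul_one] at this
  linarith

theorem prod {ι : Type} {l : ℚ → ℚ} (h : Addv l) (s : Finset ι) (a : ι → ℚ) (ha : ∀ i, a i ≠ 0) :
    l (∏ i ∈ s, a i) = ∑ i ∈ s, l (a i) := by
  classical
  induction s using Finset.induction_on with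
  | empty => simpa using one h
  | insert i s hi ih =>
    rw [Finset.prod_insert hi, Finset.sum_insert hi,
      h _ _ (ha i) (Finset.prod_ne_zero_iff.2 fun j _ => ha j), ih]

theorem main {F : Type} [Field F] [Algebra ℚ F] (O : Place F) (hO : Function.Surjective O.emb)
    (hT : FinT F) (hW : ∀ g h : F, g ≠ 0 → h ≠ 0 → Rec g h)
    (hB : ∀ lam : ∀ P : Place F, ResidueField P.V → ℚ, (∀ P, Addv (lam P)) →
      (∀ g h : F, g ≠ 0 → h ≠ 0 → ∑ᶠ P, lam P (P.tame g h) = 0) → (∀ a, a ≠ 0 → lam O a = 0) →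
      ∀ P a, a ≠ 0 → lam P a = 0)
    (u : ∀ P : Place F, ResidueField P.V) (h0 : ∀ P, u P ≠ 0) (hf : {P | u P ≠ 1}.Finite)
    (hN : ∏ᶠ P, Place.nm P (u P) = 1) :
    ∃ n : ℕ, 0 < n ∧ ∃ l : List (F × F), (∀ a ∈ l, a.1 ≠ 0 ∧ a.2 ≠ 0) ∧
      ∀ P, u P ^ n = (l.map fun a => PT.tameW P.V a.1 a.2).prod := by
  obtain ⟨hd, hfd, hfin⟩ := hT
  have sup : ∀ g h : F, {P : Place F | P.tame g h ≠ 1}.Finite := fun g h =>
    ((hfin g).union (hfin h)).subset fun P hP => by
      by_contra hn
      simp only [Set.mem_union, Set.mem_ofPred_eq, not_or, not_not] at hn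
      exact hP ((P.dva (hd P)).one g h hn.1 hn.2)
  have nm0 : ∀ (P : Place F) a, a ≠ 0 → P.nm a ≠ 0 := fun P a ha => by
    have := hfd P
    exact Algebra.norm_ne_zero_iff.2 ha
  have nm1 : ∀ P : Place F, P.nm 1 = 1 := fun P => map_one (Algebra.norm ℚ)
  obtain ⟨n, hn, l, hl⟩ := rDualA (Place F) {a : F × F // a.1 ≠ 0 ∧ a.2 ≠ 0}
    (fun P => ResidueField P.V) (fun s P => P.tame s.1.1 s.1.2)
    (fun s P => (P.dva (hd P)).ne _ _ s.2.1 s.2.2) (fun s => sup _ _)
    (fun s => ⟨⟨(s.1.2, s.1.1), s.2.2, s.2.1⟩, fun P => (P.dva (hd P)).swap _ _ s.2.1 s.2.2⟩)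
    u h0 hf (fun lam hA hK => by
      have hl : Addv fun q : ℚ => lam O (O.emb q) := fun a b ha hb => by
        simp only [map_mul]
        exact hA O _ _ ((_root_.map_ne_zero _).2 ha) ((_root_.map_ne_zero _).2 hb)
      have key := hB (fun P a => lam P a - lam O (O.emb (P.nm a))) (fun P a b ha hb => by
        have e : P.nm (a * b) = P.nm a * P.nm b := map_mul (Algebra.norm ℚ) a b
        have := hl _ _ (nm0 P a ha) (nm0 P b hb)
        simp only at this ⊢
        rw [hA P a b ha hb, e, this]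
        ring) (fun g h hg hh => by
          rw [finsum_sub_distrib, hK ⟨(g, h), hg, hh⟩, hW g h hg hh _ hl, sub_zero]
          · refine (sup g h).subset fun P hP e => hP ?_
            simp only [e, one (hA P)]
          · refine (sup g h).subset fun P hP e => hP ?_
            simp only [e, nm1, map_one, one (hA O)]) (fun a _ => by
          obtain ⟨q, rfl⟩ := hO a
          have e1 : Module.finrank ℚ (ResidueField O.V) = 1 :=
            (Module.finrank_of_bijective_algebraMap ⟨(algebraMap ℚ _).injective, hO⟩)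
          have e2 : O.nm (O.emb q) = q := by
            rw [O.nm_eq, ← O.alg_eq, Algebra.norm_algebraMap, e1, pow_one]
          simp only [e2, sub_self])
      have e3 : ∀ P, lam P (u P) = lam O (O.emb (P.nm (u P))) := fun P =>
        sub_eq_zero.1 (key P _ (h0 P))
      simp only [e3]
      rw [finprod_eq_prod_of_mulSupport_subset (s := hf.toFinset) _ fun P hP => by
        simpa using fun e : u P = 1 => hP (by simp only [e, nm1])] at hN
      rw [finsum_eq_sum_of_support_subset (s := hf.toFinset) _ fun P hP => by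
        simpa using fun e : u P = 1 => hP (by simp only [e, nm1, map_one, one (hA O)]),
        ← prod hl _ _ fun P => nm0 P _ (h0 P), hN]
      exact one hl)
  refine ⟨n, hn, l.map Subtype.val, ?_, fun P => ?_⟩
  · intro a ha
    obtain ⟨s, -, rfl⟩ := List.mem_map.1 ha
    exact s.2
  · rw [hl P, List.map_map]
    rfl

end TTop

theorem top (h1 : RModE) (h2 : RAll) (h3 : RWeil) (h4 : RBr) : Final := by
  intro W _ u h0 hf hN
  obtain ⟨x, y, f, hM⟩ := h1 W
  obtain ⟨O, a, b, -, d⟩ := h2 _ W.toAffine.FunctionField x y f hM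
  exact TTop.main O b.rat d (h3 _ _ x y f hM) (h4 _ _ x y f O hM a b d) u h0 hf hN

end Pool.Agent.MP_f3836a_nt.VE.T
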