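import Pool.Agent.MP_f3836a_nt.VE.SpecT

set_option autoImplicit false

/-! Local facts collected, and Weil reciprocity. -/

namespace Pool.Agent.MP_f3836a_nt.VE.T

open Polynomial IsLocalRing PK VE.A

namespace TWeil

variable {F : Type} [Field F] [Algebra ℚ F]

theorem ord_unit {P : Place F} (h : IsDiscreteValuationRing P.V) {a : F} (h1 : a ∈ P.V)
    (h2 : a ∉ P.V.nonunits) : P.ord a = 0 :=
  ((P.dva h).unit' ⟨a, h1⟩ (by
    by_contra e
    exact h2 ((ValuationSubring.coe_mem_nonunits_iff (a := ⟨a, h1⟩)).2 e))).2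

theorem l_one {l : ℚ → ℚ} (hl : Addv l) : l 1 = 0 := by
  simpa using hl 1 1 one_ne_zero one_ne_zero

theorem nm_ne (hT : FinT F) (P : Place F) {g h : F} (hg : g ≠ 0) (hh : h ≠ 0) :
    P.nm (P.tame g h) ≠ 0 :=
  have := hT.2.1 P
  Algebra.norm_ne_zero_iff.2 ((P.dva (hT.1 P)).ne g h hg hh)

theorem fin (hT : FinT F) {l : ℚ → ℚ} (hl : Addv l) (g h : F) :
    (Function.support fun P : Place F => l (P.nm (P.tame g h))).Finite := by
  refine ((hT.2.2 g).union (hT.2.2 h)).subset fun P hP => ?_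
  by_contra e
  simp only [Set.mem_union, Set.mem_ofPred_eq, not_or, not_not] at e
  refine hP (?_ : l _ = 0)
  rw [Place.tame, (P.dva (hT.1 P)).one g h e.1 e.2, Place.nm_eq, map_one, l_one hl]

end TWeil

open TWeil

theorem rAll : RDed → RDim → RPFin → RPInf → RCnt → RAll := by
  intro h1 h2 h3 h4 h5 R F _ _ _ _ _ _ _ x y f hM
  have := h1 R x y f hM
  have : IsScalarTower ℚ R F := .of_algebraMap_eq' (Subsingleton.elim _ _)
  have hF := h3 R F x y f hM
  obtain ⟨O, hO⟩ := h4 R F x y f hM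
  have hd : ∀ P : Place F, IsDiscreteValuationRing P.V := fun P => by
    by_cases h : algebraMap R F x ∈ P.V
    · exact hF.dvr P h
    · exact (hO.uniq P).1 h ▸ hO.dvr
  refine ⟨O, hF, hO, fun π s hπ _ hs => ?_, hd, fun P => ?_, fun g => ?_⟩
  · have h0 : aeval x π + aeval x (0 : ℚ[X]) * y ≠ 0 := fun e => hπ.ne_zero (hM.ind _ _ e).1
    obtain ⟨-, a, -, b⟩ := h2 R x y f hM π 0 h0
    rw [a] at b
    rw [map_zero, zero_mul, add_zero] at h0 b
    have := h5 R F x hF _ s h0 (by simpa only [aeval_algebraMap_apply] using hs)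
    simp only [aeval_algebraMap_apply]
    rw [this, b]
    simp
  · by_cases h : algebraMap R F x ∈ P.V
    · exact hF.fd P h
    · rw [(hO.uniq P).1 h]
      exact Module.Finite.of_surjective (Algebra.linearMap ℚ _) hO.rat
  · by_cases hg : g = 0
    · refine Set.finite_empty.subset fun P hP => hP ?_
      rw [hg, Place.ord, ordR, dif_neg fun e => e.1 rfl]
    obtain ⟨a, b, hb, rfl⟩ := IsFractionRing.div_surjective (A := R) g
    have b0 : b ≠ 0 := nonZeroDivisors.ne_zero hb
    have b1 : algebraMap R F b ≠ 0 := (map_ne_zero_iff _ (IsFractionRing.injective R F)).2 b0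
    have a0 : a ≠ 0 := fun e => hg (by rw [e, map_zero, zero_div])
    refine ((Set.finite_singleton O).union ((hF.fin a a0).union (hF.fin b b0))).subset
      fun P hP => ?_
    by_contra e
    simp only [Set.mem_union, Set.mem_singleton_iff, Set.mem_ofPred_eq, not_or, not_and,
      ← hO.uniq P, not_not] at e
    obtain ⟨M, -, hC⟩ := hF.ctr P e.1
    have k := (P.dva (hd P)).mul _ _ hg b1
    rw [div_mul_cancel₀ _ b1] at k
    have k1 := ord_unit (hd P) (hC a).1 (e.2.1 e.1)
    have k2 := ord_unit (hd P) (hC b).1 (e.2.2 e.1)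
    exact hP (by simp only [Place.ord] at k1 k2 ⊢; omega)

theorem rWeil : RTameA → RPull → RCj → RAll → RWeil0 → RQuad → RWeil := by
  intro h1 h2 h3 h4 h5 h6 R F _ _ _ _ _ _ _ x y f hM g h hg hh l hl
  have : IsScalarTower ℚ R F := .of_algebraMap_eq' (Subsingleton.elim _ _)
  obtain ⟨⟨σ, s1, s2⟩, hz⟩ := h3 R F x y f hM
  obtain ⟨O, hF, hO, hS, hT⟩ := h4 R F x y f hM
  obtain ⟨w1, w2⟩ := h5 R F x y f O hM hF hO hS hT
  refine h6 F (algebraMap R F x) (algebraMap R F y) f σ
    (fun g h => ∑ᶠ P : Place F, l (P.nm (P.tame g h))) ?_ s1 s2 (fun D hD => ?_) hz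
    (fun g g' h a b c => ?_) (fun g h a b => ?_) (fun g a b => ?_) (fun g h a b => ?_)
    (fun c c' a b => ?_) (fun c π a b d => w1 c π a b d l hl)
    (fun π π' a b c d e => w2 π π' a b c d e l hl) g h hg hh
  · rw [← map_pow, hM.eq, aeval_algebraMap_apply]
  · rw [aeval_algebraMap_apply, map_ne_zero_iff _ (IsFractionRing.injective R F)]
    exact fun e => hD (hM.ind D 0 (by simpa using e)).1
  · rw [← finsum_add_distrib (fin hT hl g h) (fin hT hl g' h)]
    refine finsum_congr fun P => ?_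
    rw [(h1 F P (hT.1 P)).mul g g' h a b c, ← hl _ _ (nm_ne hT P a c) (nm_ne hT P b c)]
    exact congrArg l (map_mul (Algebra.norm ℚ) _ _)
  · rw [eq_neg_iff_add_eq_zero, ← finsum_add_distrib (fin hT hl g h) (fin hT hl h g)]
    refine finsum_eq_zero_of_forall_eq_zero fun P => ?_
    rw [← hl _ _ (nm_ne hT P a b) (nm_ne hT P b a), Place.nm_eq, Place.nm_eq, ← map_mul,
      Place.tame, Place.tame, (P.dva (hT.1 P)).swap g h a b, map_one, l_one hl]
  · refine finsum_eq_zero_of_forall_eq_zero fun P => ?_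
    rw [(h1 F P (hT.1 P)).stein g a b, Place.nm_eq, map_one, l_one hl]
  · refine finsum_eq_of_bijective _ (h2 F σ).1 fun P => ?_
    rw [(h2 F σ).2 P g h (hT.1 P) a b]
  · refine finsum_eq_zero_of_forall_eq_zero fun P => ?_
    have k : ∀ c : ℚ, c ≠ 0 → P.ord (algebraMap ℚ F c) = 0 := fun c hc =>
      ((P.dva (hT.1 P)).unit' ⟨_, P.const c⟩ (IsUnit.of_mul_eq_one ⟨_, P.const c⁻¹⟩
        (Subtype.ext (by
          change algebraMap ℚ F c * algebraMap ℚ F c⁻¹ = 1
          rw [← map_mul, mul_inv_cancel₀ hc, map_one])))).2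
    rw [Place.tame, (P.dva (hT.1 P)).one _ _ (k c a) (k c' b), Place.nm_eq, map_one, l_one hl]

end Pool.Agent.MP_f3836a_nt.VE.T
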