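import Pool.Agent.MP_f3836a_nt.VE.AAll
import Pool.Agent.MP_f3836a_nt.VE.TBr
import Pool.Agent.MP_f3836a_nt.VE.TCnt
import Pool.Agent.MP_f3836a_nt.VE.TDed
import Pool.Agent.MP_f3836a_nt.VE.TFinP
import Pool.Agent.MP_f3836a_nt.VE.TGen
import Pool.Agent.MP_f3836a_nt.VE.TInf
import Pool.Agent.MP_f3836a_nt.VE.TMod
import Pool.Agent.MP_f3836a_nt.VE.TNR
import Pool.Agent.MP_f3836a_nt.VE.TTame
import Pool.Agent.MP_f3836a_nt.VE.TTop
import Pool.Agent.MP_f3836a_nt.VE.TW0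
import Pool.Agent.MP_f3836a_nt.VE.TWeil

set_option autoImplicit false

namespace Pool.Agent.MP_f3836a_nt.VE

theorem T.all : T.RAll := T.rAll T.rDed T.rDim T.rPFin (T.rPInf T.rDim) T.rCnt

theorem T.final : T.Final :=
  T.top T.rModE T.all
    (T.rWeil T.rTameA T.rPull T.rCj T.all (T.rWeil0 T.rTameA T.rNR) T.rQuad)
    (T.rBr A.fibres (T.rGen T.rDim) T.rTameA)

end Pool.Agent.MP_f3836a_nt.VE
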