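import Pool.Agent.MP_f3836a_nt.VE.SpecB

/-! Archimedean rigidity. -/

set_option autoImplicit false

namespace Pool.Agent.MP_f3836a_nt.VE.BC

open Finset Polynomial

theorem rAr : OfAr := by
  intro hD hL n D
  obtain ⟨J0, Λ, hΛ, h⟩ := hL n D
  refine ⟨J0, Λ, hΛ, fun J t0 H s N c hJ hN hn h0 hH hb hc => ?_⟩
  obtain ⟨P, p1, p2, p3⟩ := hD N c s hN (hn ▸ h0)
  obtain ⟨x, x1, x2⟩ := isCompact_Icc.exists_isMaxOn (Set.nonempty_Icc.2 (by linarith : t0 ≤ t0 + 1))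
    (f := fun t => |P.eval t|) P.continuous.abs.continuousOn
  have hd : ∀ t ∈ Set.Icc t0 (t0 + 1), HasDerivAt (va N c s) (P.eval t / aeval t N) t :=
    fun t ht => p2 t (hH.trans_le (hb t ht).1)
  have he : ∀ t, |(C H⁻¹ * P).eval t| = |P.eval t| / H := fun t => by
    rw [eval_mul, eval_C, abs_mul, abs_of_pos (inv_pos.2 hH), div_eq_inv_mul]
  refine ⟨|P.eval x| / H, by positivity, fun t ht t' ht' => ?_,
    h J t0 _ _ _ (C H⁻¹ * P) hJ ((natDegree_C_mul_le _ _).trans_lt (hn ▸ p1))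
      (fun t ht => ⟨hd t ht, ?_⟩) ⟨x, x1, (he x).ge⟩ (by positivity), fun e => p3 ?_ hc⟩
  · refine (convex_Icc t0 (t0 + 1)).norm_image_sub_le_of_norm_hasDerivWithin_le
      (fun y hy => (hd y hy).hasDerivWithinAt) (fun y hy => ?_) ht' ht
    rw [Real.norm_eq_abs, abs_div, abs_of_pos (hH.trans_le (hb y hy).1)]
    exact div_le_div₀ (abs_nonneg _) (x2 hy) hH (hb y hy).1
  · have a := hH.trans_le (hb t ht).1
    rw [he, abs_div, abs_of_pos a, ← mul_div_assoc, div_le_div_iff₀ hH a]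
    nlinarith [mul_le_mul_of_nonneg_left (hb t ht).2 (abs_nonneg (P.eval t))]
  · refine eq_zero_of_infinite_isRoot P ((Set.Icc_infinite (by linarith : t0 < t0 + 1)).mono
      fun t ht => abs_nonpos_iff.1 ((x2 ht).trans_eq ?_))
    exact (div_eq_zero_iff.1 e).resolve_right hH.ne'

end Pool.Agent.MP_f3836a_nt.VE.BC
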