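import Pool.Agent.MP_f3836a_nt.VE.SpecB

/-! Row BArL: a function whose derivative dominates a polynomial of bounded degree. -/

set_option autoImplicit false

namespace Pool.Agent.MP_f3836a_nt.VE.BC

open Finset Polynomial

namespace BArL

theorem mono_add {N J : ℕ} (f : Fin N → Fin J) (hf : StrictMono f) (i : ℕ) :
    ∀ (r : ℕ) (h : i + r < N), (f ⟨i, by omega⟩ : ℕ) + r ≤ f ⟨i + r, h⟩ := by
  intro r
  induction r with
  | zero => intro h; simp
  | succ r ih =>
    intro h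
    have h1 := ih (by omega)
    have h2 : f ⟨i + r, by omega⟩ < f ⟨i + (r + 1), h⟩ := hf (by simp [Fin.lt_def])
    rw [Fin.lt_def] at h2
    omega

theorem sep {J : ℕ} (G : Finset (Fin J)) (K g : ℕ) (hg : 0 < g) (h : K * g ≤ G.card) :
    ∃ a : Fin K → Fin J, (∀ k, a k ∈ G) ∧ ∀ k l : Fin K, k < l → (a k : ℕ) + g ≤ a l := by
  have hb : ∀ k : Fin K, (k : ℕ) * g < G.card := fun k =>
    lt_of_lt_of_le (Nat.mul_lt_mul_of_pos_right k.2 hg) h
  refine ⟨fun k => G.orderEmbOfFin rfl ⟨k * g, hb k⟩, fun k => G.orderEmbOfFin_mem rfl _, ?_⟩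
  intro k l hkl
  have hkl' : (k : ℕ) + 1 ≤ l := hkl
  have h1 : (k : ℕ) * g + g ≤ l * g := by
    calc (k : ℕ) * g + g = (k + 1) * g := by ring
      _ ≤ l * g := Nat.mul_le_mul_right g hkl'
  have h2 := mono_add _ (G.orderEmbOfFin rfl).strictMono (k * g) g (lt_of_le_of_lt h1 (hb l))
  have h3 : G.orderEmbOfFin rfl ⟨k * g + g, lt_of_le_of_lt h1 (hb l)⟩
      ≤ G.orderEmbOfFin rfl ⟨l * g, hb l⟩ := (G.orderEmbOfFin rfl).monotone h1
  rw [Fin.le_def] at h3
  exact h2.trans h3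

theorem lag (n : ℕ) (P : ℝ[X]) (hP : P.natDegree < n) (ξ : Fin n → ℝ) (L B t : ℝ) (hL : 1 ≤ L)
    (hsep : ∀ i j, i ≠ j → 1 / L ≤ |ξ i - ξ j|) (ht : ∀ j, |t - ξ j| ≤ 1)
    (hB : ∀ i, |P.eval (ξ i)| ≤ B) : |P.eval t| ≤ n * (B * L ^ n) := by
  have hL0 : 0 < L := by linarith
  have hinj : Set.InjOn ξ (univ : Finset (Fin n)) := by
    intro i _ j _ hij
    by_contra hne
    have := hsep i j hne
    rw [hij, sub_self, abs_zero] at this
    have h2 : 0 < 1 / L := by positivity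
    linarith
  have hdeg : P.degree < (univ : Finset (Fin n)).card := by
    rw [card_univ, Fintype.card_fin]
    exact lt_of_le_of_lt degree_le_natDegree (by exact_mod_cast hP)
  have hPe := Lagrange.eq_interpolate hinj hdeg
  have hterm : ∀ i : Fin n,
      |(C (P.eval (ξ i)) * Lagrange.basis univ ξ i).eval t| ≤ B * L ^ n := by
    intro i
    rw [eval_mul, eval_C, abs_mul, Lagrange.basis, eval_prod, abs_prod]
    have hB0 : 0 ≤ B := (abs_nonneg _).trans (hB i)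
    refine mul_le_mul (hB i) ?_ (prod_nonneg fun _ _ => abs_nonneg _) hB0
    calc ∏ j ∈ univ.erase i, |(Lagrange.basisDivisor (ξ i) (ξ j)).eval t|
        ≤ ∏ _j ∈ univ.erase i, L := by
          refine prod_le_prod (fun _ _ => abs_nonneg _) fun j hj => ?_
          have hne : i ≠ j := (ne_of_mem_erase hj).symm
          have h1 := hsep i j hne
          have h2 : 0 < |ξ i - ξ j| := lt_of_lt_of_le (by positivity) h1
          rw [Lagrange.basisDivisor, eval_mul, eval_C, eval_sub, eval_X, eval_C, abs_mul, abs_inv]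
          have h3 : |ξ i - ξ j|⁻¹ ≤ L := by
            rw [inv_le_comm₀ h2 hL0, ← one_div]; exact h1
          calc |ξ i - ξ j|⁻¹ * |t - ξ j| ≤ L * 1 :=
                mul_le_mul h3 (ht j) (abs_nonneg _) hL0.le
            _ = L := mul_one L
      _ = L ^ (univ.erase i).card := prod_const L
      _ ≤ L ^ n := by
          refine pow_le_pow_right₀ hL ?_
          exact (card_erase_le).trans (by simp)
  have he : P.eval t = ∑ i : Fin n, (C (P.eval (ξ i)) * Lagrange.basis univ ξ i).eval t := by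
    rw [← eval_finsetSum, ← Lagrange.interpolate_apply, ← hPe]
  rw [he]
  refine (abs_sum_le_sum_abs _ _).trans ?_
  refine (sum_le_sum fun i _ => hterm i).trans ?_
  simp

theorem half {J : ℕ} (m w : Fin J → ℝ) (hm : ∀ a, 0 ≤ m a) (h1 : ∑ a, m a = 1)
    (hw : ∀ a, 0 ≤ w a) :
    1 / 2 ≤ ∑ a ∈ univ.filter fun a => w a ≤ 2 * ∑ b, m b * w b, m a := by
  set E := ∑ b, m b * w b with hE
  have hE0 : 0 ≤ E := sum_nonneg fun b _ => mul_nonneg (hm b) (hw b)
  have hsplit := sum_filter_add_sum_filter_not univ (fun a => w a ≤ 2 * E) m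
  rw [h1] at hsplit
  by_contra hlt
  push Not at hlt
  have hbad : 1 / 2 < ∑ a ∈ univ.filter fun a => ¬ w a ≤ 2 * E, m a := by linarith
  obtain ⟨a0, ha0, hpos⟩ : ∃ a ∈ univ.filter fun a => ¬ w a ≤ 2 * E, 0 < m a := by
    by_contra hno
    have : ∑ a ∈ univ.filter fun a => ¬ w a ≤ 2 * E, m a ≤ 0 :=
      sum_nonpos fun a ha => not_lt.1 fun h => hno ⟨a, ha, h⟩
    linarith
  have h2 : ∑ a ∈ univ.filter fun a => ¬ w a ≤ 2 * E, m a * (2 * E)
      < ∑ a ∈ univ.filter fun a => ¬ w a ≤ 2 * E, m a * w a := by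
    refine sum_lt_sum (fun a ha => ?_) ⟨a0, ha0, ?_⟩
    · exact mul_le_mul_of_nonneg_left (le_of_lt (not_le.1 (mem_filter.1 ha).2)) (hm a)
    · exact mul_lt_mul_of_pos_left (not_le.1 (mem_filter.1 ha0).2) hpos
  have h3 : ∑ a ∈ univ.filter fun a => ¬ w a ≤ 2 * E, m a * w a ≤ E :=
    sum_le_sum_of_subset_of_nonneg (filter_subset _ _) fun a _ _ => mul_nonneg (hm a) (hw a)
  rw [← sum_mul] at h2
  nlinarith

theorem nodes (n : ℕ) (t0 L ε e : ℝ) (V V' : ℝ → ℝ) (hL : 1 ≤ L)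
    (hV : ∀ t ∈ Set.Icc t0 (t0 + 1), HasDerivAt V (V' t) t) (x : Fin (2 * n) → ℝ)
    (hx : ∀ k, x k ∈ Set.Icc t0 (t0 + 1)) (hs : ∀ k l, k < l → x k + 1 / L ≤ x l)
    (he : ∀ k, |V (x k) - e| ≤ ε) :
    ∃ ξ : Fin n → ℝ, (∀ i, ξ i ∈ Set.Icc t0 (t0 + 1)) ∧ (∀ i j, i < j → ξ i + 1 / L ≤ ξ j) ∧
      ∀ i, |V' (ξ i)| ≤ 2 * ε * L := by
  have hL0 : 0 < L := by linarith
  have hγ : 0 < 1 / L := by positivity
  have key : ∀ i : Fin n, ∃ c, x ⟨2 * i, by omega⟩ < c ∧ c < x ⟨2 * i + 1, by omega⟩ ∧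
      |V' c| ≤ 2 * ε * L := by
    intro i
    set p := x ⟨2 * i, by omega⟩ with hp
    set q := x ⟨2 * i + 1, by omega⟩ with hq
    have hpq : p + 1 / L ≤ q := hs _ _ (by simp [Fin.lt_def])
    have hpI : p ∈ Set.Icc t0 (t0 + 1) := hx _
    have hqI : q ∈ Set.Icc t0 (t0 + 1) := hx _
    have hsub : Set.Icc p q ⊆ Set.Icc t0 (t0 + 1) := Set.Icc_subset_Icc hpI.1 hqI.2
    obtain ⟨c, hc, hc'⟩ := exists_hasDerivAt_eq_slope V V' (show p < q by linarith)
      (fun t ht => (hV t (hsub ht)).continuousAt.continuousWithinAt)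
      (fun t ht => hV t (hsub (Set.Ioo_subset_Icc_self ht)))
    refine ⟨c, hc.1, hc.2, ?_⟩
    have h1 : |V p - e| ≤ ε := he _
    have h2 : |V q - e| ≤ ε := he _
    have h3 : |V q - V p| ≤ 2 * ε := by
      rw [abs_le] at h1 h2 ⊢
      constructor <;> linarith [h1.1, h1.2, h2.1, h2.2]
    have hε : 0 ≤ ε := (abs_nonneg _).trans h1
    have h4 : 0 < q - p := by linarith
    rw [hc', abs_div, abs_of_pos h4, div_le_iff₀ h4]
    have h5 : 1 ≤ L * (q - p) := by
      have : L * (1 / L) ≤ L * (q - p) := mul_le_mul_of_nonneg_left (by linarith) hL0.le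
      rwa [mul_one_div_cancel hL0.ne'] at this
    nlinarith
  choose ξ h1 h2 h3 using key
  refine ⟨ξ, fun i => ⟨(hx _).1.trans (h1 i).le, (h2 i).le.trans (hx _).2⟩, fun i j hij => ?_, h3⟩
  have hij' : (i : ℕ) < j := hij
  have := hs ⟨2 * i + 1, by omega⟩ ⟨2 * j, by omega⟩ (by simp only [Fin.lt_def]; omega)
  linarith [h1 j, h2 i]

end BArL

open BArL in
theorem rArL : ArLS := by
  intro n D
  set d : ℕ := ⌈D⌉₊ + 1 with hd
  set L : ℝ := 16 * d * n + 1 with hLdef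
  have hL : 1 ≤ L := by
    have : (0 : ℝ) ≤ 16 * d * n := by positivity
    linarith
  have hL0 : 0 < L := by linarith
  refine ⟨8 * d * n, 2 * (n * (24 * L * L ^ n)) ^ 2 + 1, by positivity, ?_⟩
  intro J t0 S V V' P hJ hP hV ⟨t, htI, hSt⟩ hS m tc e hm h1 htc
  have hn : 0 < n := by omega
  have hd0 : 0 < d := by omega
  have hdn : 0 < 4 * d * n := by positivity
  have hJ0 : 0 < J := lt_of_lt_of_le (by positivity) hJ
  have hJr : (0 : ℝ) < J := by exact_mod_cast hJ0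
  set E := ∑ a, m a * (V (tc a) - e) ^ 2 with hE
  have hE0 : 0 ≤ E := sum_nonneg fun a _ => mul_nonneg (hm a).1 (sq_nonneg _)
  have hh := half m (fun a => (V (tc a) - e) ^ 2) (fun a => (hm a).1) h1 fun a => sq_nonneg _
  simp only [← hE] at hh
  set G := univ.filter fun a : Fin J => (V (tc a) - e) ^ 2 ≤ 2 * E with hG
  have hDd : D ≤ d := by
    have := Nat.le_ceil D
    push_cast [hd]
    linarith
  have hcard : J ≤ 2 * d * G.card := by
    have h2 : ∑ a ∈ G, m a ≤ G.card • ((d : ℝ) / J) :=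
      sum_le_card_nsmul _ _ _ fun a _ => (hm a).2.trans (div_le_div_of_nonneg_right hDd hJr.le)
    rw [nsmul_eq_mul, ← mul_div_assoc, le_div_iff₀ hJr] at h2
    have h3 : (J : ℝ) ≤ 2 * d * G.card := by nlinarith
    exact_mod_cast h3
  set g := J / (4 * d * n) with hg
  have hg1 : 4 * d * n * g ≤ J := Nat.mul_div_le J _
  have hg2 : 2 ≤ g := by
    rw [hg, Nat.le_div_iff_mul_le hdn]
    calc 2 * (4 * d * n) = 8 * d * n := by ring
      _ ≤ J := hJ
  have hg3 : J < 4 * d * n * (g + 1) := Nat.lt_mul_div_succ J hdn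
  have hK : 2 * n * g ≤ G.card := by
    have h2 : 2 * d * (2 * n * g) ≤ 2 * d * G.card := by
      calc 2 * d * (2 * n * g) = 4 * d * n * g := by ring
        _ ≤ 2 * d * G.card := hg1.trans hcard
    exact Nat.le_of_mul_le_mul_left h2 (by omega)
  obtain ⟨a, haG, has⟩ := sep G (2 * n) g (by omega) hK
  have hI : ∀ b : Fin J, tc b ∈ Set.Icc t0 (t0 + 1) := by
    intro b
    have hb : ((b : ℕ) : ℝ) + 1 ≤ J := by exact_mod_cast b.2
    have h2 : (0 : ℝ) ≤ (b : ℕ) / J := by positivity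
    have h3 : (((b : ℕ) : ℝ) + 1) / J ≤ 1 := (div_le_one hJr).2 hb
    exact ⟨by linarith [(htc b).1], by linarith [(htc b).2]⟩
  have hgap : 1 / L ≤ ((g : ℝ) - 1) / J := by
    rw [div_le_div_iff₀ hL0 hJr]
    have h2 : (J : ℝ) ≤ 4 * d * n * (g + 1) := by exact_mod_cast hg3.le
    have h3 : (2 : ℝ) ≤ g := by exact_mod_cast hg2
    have h4 : (0 : ℝ) ≤ 4 * d * n := by positivity
    have h5 : 4 * (d : ℝ) * n * (g + 1) ≤ 4 * d * n * (4 * (g - 1)) :=
      mul_le_mul_of_nonneg_left (by linarith) h4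
    rw [hLdef]
    nlinarith
  obtain ⟨ξ, hξI, hξs, hξV⟩ := nodes n t0 L (√(2 * E)) e V V' hL (fun t ht => (hV t ht).1)
    (fun k => tc (a k)) (fun k => hI _) (fun k l hkl => by
      have h2 : ((a k : ℕ) : ℝ) + g ≤ (a l : ℕ) := by exact_mod_cast has k l hkl
      have h3 : (((a k : ℕ) : ℝ) + 1) / J + ((g : ℝ) - 1) / J ≤ ((a l : ℕ) : ℝ) / J := by
        rw [← add_div]
        exact div_le_div_of_nonneg_right (by linarith) hJr.le
      linarith [(htc (a k)).2, (htc (a l)).1])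
    (fun k => Real.abs_le_sqrt (mem_filter.1 (haG k)).2)
  have hlag := lag n P hP ξ L (12 * (2 * √(2 * E) * L)) t hL (fun i j hij => by
      rcases lt_or_gt_of_ne hij with h | h
      · rw [abs_sub_comm]
        exact le_trans (by linarith [hξs i j h]) (le_abs_self _)
      · exact le_trans (by linarith [hξs j i h]) (le_abs_self _))
    (fun j => by
      rw [abs_le]
      constructor <;> linarith [(hξI j).1, (hξI j).2, htI.1, htI.2])
    (fun i => (hV _ (hξI i)).2.trans (by linarith [hξV i]))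
  have h5 : S ≤ n * (24 * L * L ^ n) * √(2 * E) := by
    refine (hSt.trans hlag).trans (le_of_eq ?_)
    ring
  have h6 : S ^ 2 ≤ (n * (24 * L * L ^ n) * √(2 * E)) ^ 2 := pow_le_pow_left₀ hS h5 2
  rw [mul_pow, Real.sq_sqrt (by linarith)] at h6
  nlinarith

end Pool.Agent.MP_f3836a_nt.VE.BC
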