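import Pool.Agent.MP_f3836a_nt.VE.SpecB

/-! A value of large probability near the mean. -/

set_option autoImplicit false

namespace Pool.Agent.MP_f3836a_nt.VE.BC

open Finset

namespace BCheb

variable {ι : Type} [Fintype ι] (μ : ι → ℝ)

theorem tm_succ (j : ℕ) (F : (Fin (j + 1) → ι) → ℝ) :
    tm μ (j + 1) F = ∑ i, μ i * tm μ j fun s => F (Fin.cons i s) := by
  unfold tm
  rw [← (Fin.consEquiv fun _ : Fin (j + 1) => ι).sum_comp, Fintype.sum_prod_type]
  refine sum_congr rfl fun i _ => ?_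
  rw [mul_sum]
  refine sum_congr rfl fun s _ => ?_
  simp [Fin.prod_univ_succ, mul_assoc, Fin.consEquiv]

theorem mom (Y : ι → ℝ) (h1 : ∑ i, μ i = 1) (h0 : ∑ i, μ i * Y i = 0) (j : ℕ) (a : ℝ) :
    tm μ j (fun s => (a + ∑ i, Y (s i)) ^ 2) = a ^ 2 + j * ∑ i, μ i * Y i ^ 2 := by
  induction j generalizing a with
  | zero => simp [tm]
  | succ j ih =>
    rw [tm_succ]
    simp only [Fin.sum_univ_succ, Fin.cons_zero, Fin.cons_succ, ← add_assoc, ih]
    generalize hV : ∑ i, μ i * Y i ^ 2 = V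
    have e : ∀ i, μ i * ((a + Y i) ^ 2 + j * V) =
        (a ^ 2 + j * V) * μ i + 2 * a * (μ i * Y i) + μ i * Y i ^ 2 := fun i => by ring
    simp only [e, sum_add_distrib, ← mul_sum, h1, h0, hV]
    push_cast
    ring

end BCheb

open BCheb in
theorem rCheb : OfCheb := by
  intro hT ι _ μ X U j hU hj h0 h1 hX
  classical
  obtain ⟨-, -, -, t4, t5, t6⟩ := hT ι μ
  set m : ℝ := ∑ i, μ i * X i with hm
  have U1 : (1 : ℝ) ≤ U := by exact_mod_cast hU
  have j1 : (1 : ℝ) ≤ √j := Real.one_le_sqrt.2 (by exact_mod_cast hj)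
  have js : √(j : ℝ) ^ 2 = j := Real.sq_sqrt (Nat.cast_nonneg j)
  have r1 : 1 ≤ √(j : ℝ) * U := one_le_mul_of_one_le_of_one_le j1 U1
  have c0 : ∑ i, μ i * (X i - m) = 0 := by
    simp only [mul_sub, sum_sub_distrib, ← sum_mul, h1, ← hm, one_mul, sub_self]
  have var : ∑ i, μ i * (X i - m) ^ 2 ≤ (U : ℝ) ^ 2 := by
    have e : ∀ i, μ i * (X i - m) ^ 2 ≤
        (U ^ 2 - (m - U) ^ 2) * μ i - 2 * (m - U) * (μ i * (X i - m)) := fun i => by
      have a : (0 : ℝ) ≤ X i := by exact_mod_cast (hX i).1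
      have b : (X i : ℝ) ≤ 2 * U := by exact_mod_cast (hX i).2.le
      nlinarith [mul_nonneg (h0 i) (mul_nonneg a (sub_nonneg.2 b))]
    refine (sum_le_sum fun i _ => e i).trans ?_
    rw [sum_sub_distrib, ← mul_sum, ← mul_sum, h1, c0]
    nlinarith [sq_nonneg (m - U)]
  set R : ℝ := 2 * √j * U with hR
  have R0 : 0 < R := by positivity
  set S : Finset ℤ := Icc ⌈j * m - R⌉ ⌊j * m + R⌋
  have mS : ∀ v : ℤ, v ∈ S ↔ |(v : ℝ) - j * m| ≤ R := fun v => by
    rw [mem_Icc, Int.ceil_le, Int.le_floor, abs_le]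
    constructor <;> rintro ⟨a, b⟩ <;> constructor <;> linarith
  have cS : (S.card : ℝ) ≤ 2 * R + 1 := by
    have a : ((S.card : ℤ) : ℝ) ≤ ((max (⌊j * m + R⌋ + 1 - ⌈j * m - R⌉) 0 : ℤ) : ℝ) := by
      rw [Int.card_Icc, Int.toNat_eq_max]
    rw [Int.cast_natCast, Int.cast_max] at a
    refine a.trans (max_le ?_ (by rw [Int.cast_zero]; positivity))
    push_cast
    linarith [Int.floor_le (j * m + R), Int.le_ceil (j * m - R)]
  have k1 := (t6 ℤ X).2.1 j S (fun y => if y ∈ S then 1 else 0) fun s hs => by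
    by_contra h
    exact hs (if_neg h)
  have k2 := t5 h0 j (fun s => 1 - (0 + ∑ i, ((X (s i) : ℝ) - m)) ^ 2 / R ^ 2)
    (fun s => if ∑ i, X (s i) ∈ S then 1 else 0) fun s => by
      split_ifs with h
      · exact sub_le_self _ (by positivity)
      · rw [mS, not_le] at h
        rw [sub_nonpos, one_le_div (by positivity), zero_add, sum_sub_distrib, ← sq_abs (_ - _)]
        simp only [sum_const, card_univ, Fintype.card_fin, nsmul_eq_mul]
        push_cast at h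
        gcongr
  have k3 : tm μ j (fun s => 1 - (0 + ∑ i, ((X (s i) : ℝ) - m)) ^ 2 / R ^ 2) =
      tm μ j (fun _ => 1) - tm μ j (fun s => (0 + ∑ i, ((X (s i) : ℝ) - m)) ^ 2) / R ^ 2 := by
    simp only [tm, mul_sub, sum_sub_distrib, sum_div, mul_div_assoc]
  rw [k3, t4, h1, mom μ (fun i => (X i : ℝ) - m) h1 c0, k1] at k2
  have k4 : (0 ^ 2 + j * ∑ i, μ i * ((X i : ℝ) - m) ^ 2) / R ^ 2 ≤ 1 / 4 := by
    rw [div_le_iff₀ (by positivity), hR, mul_pow, mul_pow, js]
    nlinarith [mul_le_mul_of_nonneg_left var (Nat.cast_nonneg j : (0 : ℝ) ≤ j)]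
  by_contra hn
  push Not at hn
  have k5 : ∑ y ∈ S, law μ X j y * (if y ∈ S then (1 : ℝ) else 0) ≤
      S.card • (1 / (20 * (√j * U))) :=
    sum_le_card_nsmul _ _ _ fun y hy => by
      have := hn y ((mS y).1 hy)
      rw [if_pos hy, mul_one, le_div_iff₀ (by positivity)]
      rw [lt_div_iff₀ (by positivity)] at this
      linarith
  have k6 : S.card • (1 / (20 * (√j * U)) : ℝ) ≤ 1 / 4 := by
    rw [nsmul_eq_mul, mul_one_div, div_le_iff₀ (by positivity)]
    linarith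
  rw [one_pow] at k2
  linarith

end Pool.Agent.MP_f3836a_nt.VE.BC
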