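import Pool.Agent.MP_f3836a_nt.VE.SpecB

/-! Comparison of two laws. -/

set_option autoImplicit false

namespace Pool.Agent.MP_f3836a_nt.VE.BC

open Finset

namespace BCmp

theorem chr (N : ℕ) [NeZero N] : ∃ n : AddChar (ZMod N) ℂ → ℤ, Function.Injective n ∧
    ∀ ξ, |(n ξ : ℝ) / N| ≤ 1 / 2 ∧ ∀ x : ℤ, ξ x = ee ((n ξ : ℝ) / N * x) := by
  refine ⟨fun ξ => (AddChar.zmodAddEquiv.symm ξ).valMinAbs,
    ZMod.injective_valMinAbs.comp AddChar.zmodAddEquiv.symm.injective, fun ξ => ?_⟩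
  obtain ⟨a, rfl⟩ := AddChar.zmodAddEquiv.surjective ξ
  have h0 : (0 : ℝ) < N := Nat.cast_pos.2 (NeZero.pos N)
  simp only [AddEquiv.symm_apply_apply]
  refine ⟨?_, fun x => ?_⟩
  · obtain ⟨h1, h2⟩ := a.valMinAbs_mem_Ioc
    have h3 : -(N : ℝ) < a.valMinAbs * 2 := by exact_mod_cast h1
    have h4 : (a.valMinAbs : ℝ) * 2 ≤ N := by exact_mod_cast h2
    rw [abs_div, abs_of_pos h0, div_le_iff₀ h0, abs_le]
    constructor <;> linarith
  · have h := AddChar.zmod_intCast N a.valMinAbs x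
    rw [ZMod.coe_valMinAbs] at h
    change ((AddChar.zmod N a x : Circle) : ℂ) = _
    rw [h, Circle.coe_exp, ee]
    congr 1
    push_cast
    ring

theorem pw {a b : ℂ} (ha : ‖a‖ ≤ 1) (hb : ‖b‖ ≤ 1) (j : ℕ) : ‖a ^ j - b ^ j‖ ≤ j * ‖a - b‖ := by
  induction j with
  | zero => simp
  | succ j ih =>
    have h1 : ‖b ^ j‖ ≤ 1 := by rw [norm_pow]; exact pow_le_one₀ (norm_nonneg _) hb
    rw [show a ^ (j + 1) - b ^ (j + 1) = a * (a ^ j - b ^ j) + b ^ j * (a - b) by ring]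
    refine (norm_add_le _ _).trans ?_
    rw [norm_mul, norm_mul]
    push_cast
    nlinarith [norm_nonneg (a ^ j - b ^ j), norm_nonneg (a - b)]

theorem lawm {ι : Type} [Fintype ι] (μ : ι → ℝ) {X : ι → ℤ} {U : ℕ}
    (hX : ∀ i, 0 ≤ X i ∧ X i < 2 * U) (k N : ℕ) (w : ℤ)
    (hw : ∀ S : ℤ, 0 ≤ S → S ≤ k * (2 * U) → |S - w| < N) :
    law μ (fun i => (X i : ZMod N)) k w = law μ X k w := by
  unfold law tm
  refine sum_congr rfl fun s _ => congrArg _ (congrArg ind ?_)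
  have h := hw (∑ i, X (s i)) (sum_nonneg fun i _ => (hX _).1)
    ((sum_le_card_nsmul _ _ _ fun i _ => (hX _).2.le).trans (by simp))
  rw [← Int.cast_sum, ZMod.intCast_eq_intCast_iff_dvd_sub]
  refine propext ⟨fun a => ?_, fun a => by simp [a]⟩
  have := Int.eq_zero_of_abs_lt_dvd a (by rwa [abs_sub_comm])
  omega

theorem one (hI : InvS) {k' U j N : ℕ} [NeZero N] {C c : ℝ} (hc : 0 < c) (hc1 : c ≤ 1) {ι : Type}
    [Fintype ι] {μ : ι → ℝ} {X : ι → ℤ} (h : Nice μ X U k' C c) (hj : 2 * k' ≤ j) {v : ℤ}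
    (hN : j * (2 * U) + |v| < N) {n : AddChar (ZMod N) ℂ → ℤ}
    (hn : ∀ ξ, |(n ξ : ℝ) / N| ≤ 1 / 2 ∧ ∀ x : ℤ, ξ x = ee ((n ξ : ℝ) / N * x)) :
    (∀ ξ, ‖ex μ fun i => ee ((n ξ : ℝ) / N * X i)‖ ≤ 1) ∧
    ‖(law μ X j v : ℂ) - (∑ ξ ∈ univ.filter fun ξ => |(n ξ : ℝ) / N| * U ≤ 1,
      (ex μ fun i => ee ((n ξ : ℝ) / N * X i)) ^ j * ξ (-v)) / N‖ ≤
      (1 - c) ^ (j - 2 * k') * (C / U) := by
  refine ⟨fun ξ => (h.dec _ (hn ξ).1).trans (sub_le_self _ (by positivity)), ?_⟩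
  have h1 := hI ι (ZMod N) μ (fun i => X i) k' j (C / U) (1 - c)
    (univ.filter fun ξ => |(n ξ : ℝ) / N| * U ≤ 1) ⟨h.pos, h.tot.le⟩ (fun y => ?_) (by linarith)
    (fun ξ hξ => ?_) hj v
  · rw [lawm μ h.rng j N v fun S a b => (abs_sub _ _).trans_lt (by rw [abs_of_nonneg a]; omega),
      Nat.card_zmod] at h1
    simpa only [(hn _).2] using h1
  · have h2 : (y.val : ℤ) < N := by exact_mod_cast y.val_lt
    have h3 : (k' : ℤ) * (2 * U) ≤ j * (2 * U) := by gcongr; omega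
    have h4 := abs_nonneg v
    rw [show y = ((y.val : ℤ) : ZMod N) by simp,
      lawm μ h.rng k' N _ fun S a b => abs_lt.2 ⟨by omega, by omega⟩]
    exact h.sup _
  · have h2 : 1 < |(n ξ : ℝ) / N| * U := by simpa using hξ
    have h3 := h.dec _ (hn ξ).1
    rw [min_eq_left, mul_one] at h3
    · simpa only [(hn _).2] using h3
    · rw [← sq_abs, abs_mul, Nat.abs_cast]
      exact one_le_pow₀ h2.le

theorem cnt {U N : ℕ} [NeZero N] (hU : 1 ≤ U) (hN : U ≤ N) {n : AddChar (ZMod N) ℂ → ℤ}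
    (hn : Function.Injective n) :
    (univ.filter fun ξ => |(n ξ : ℝ) / N| * U ≤ 1).card * U ≤ 3 * N := by
  have h0 : (0 : ℝ) < N := Nat.cast_pos.2 (NeZero.pos N)
  have h1 := card_le_card_of_injOn (s := univ.filter fun ξ => |(n ξ : ℝ) / N| * U ≤ 1)
    (t := Icc (-(N / U : ℕ) : ℤ) (N / U : ℕ)) n (fun ξ hξ => by
      have h2 := (mem_filter.1 hξ).2
      rw [abs_div, abs_of_pos h0, div_mul_eq_mul_div, div_le_one h0] at h2
      have h3 : (n ξ).natAbs * U ≤ N := by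
        rw [← Int.cast_abs, Int.abs_eq_natAbs] at h2
        exact_mod_cast h2
      have h4 := (Nat.le_div_iff_mul_le hU).2 h3
      exact mem_coe.2 (mem_Icc.2 ⟨by omega, by omega⟩)) hn.injOn
  have h2 : (Icc (-(N / U : ℕ) : ℤ) (N / U : ℕ)).card = 2 * (N / U) + 1 := by
    rw [Int.card_Icc]
    omega
  have h3 := Nat.div_mul_le_self N U
  nlinarith

end BCmp

open BCmp in
theorem rCmp : OfCmp := by
  intro _ hI k' C c _ hc hc1 ι ι' _ _ μ X μ' X' U j e hU h h' hj he v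
  obtain ⟨N, hN, hUN⟩ : ∃ N : ℕ, j * (2 * U) + |v| < N ∧ U ≤ N :=
    ⟨j * (2 * U) + v.natAbs + U, by push_cast; omega, by omega⟩
  have : NeZero N := ⟨by omega⟩
  have h0 : (0 : ℝ) < N := Nat.cast_pos.2 (NeZero.pos N)
  have hU0 : (0 : ℝ) < U := Nat.cast_pos.2 hU
  have e0 : 0 ≤ e := (norm_nonneg _).trans (he 0 (by simp))
  obtain ⟨n, n1, n2⟩ := chr N
  obtain ⟨a1, a2⟩ := one hI hc hc1 h hj hN n2
  obtain ⟨b1, b2⟩ := one hI hc hc1 h' hj hN n2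
  have h1 : (_ : ℝ) ≤ ((3 * N : ℕ) : ℝ) := Nat.cast_le.2 (cnt hU hUN n1)
  push_cast at h1
  set S := univ.filter fun ξ => |(n ξ : ℝ) / N| * U ≤ 1 with hS
  have h2 : ‖(∑ ξ ∈ S, (ex μ fun i => ee ((n ξ : ℝ) / N * X i)) ^ j * ξ (-v)) / N -
      (∑ ξ ∈ S, (ex μ' fun i => ee ((n ξ : ℝ) / N * X' i)) ^ j * ξ (-v)) / N‖ ≤ 3 * j * e / U := by
    rw [← sub_div, ← sum_sub_distrib, norm_div, Complex.norm_natCast, div_le_div_iff₀ h0 hU0]
    have h3 := (norm_sum_le S _).trans (sum_le_card_nsmul S (fun ξ =>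
      ‖(ex μ fun i => ee ((n ξ : ℝ) / N * X i)) ^ j * ξ (-v) -
        (ex μ' fun i => ee ((n ξ : ℝ) / N * X' i)) ^ j * ξ (-v)‖) (j * e) fun ξ hξ => by
      rw [← sub_mul, norm_mul, AddChar.norm_apply, mul_one]
      exact (pw (a1 ξ) (b1 ξ) j).trans
        (mul_le_mul_of_nonneg_left (he _ (mem_filter.1 hξ).2) (Nat.cast_nonneg j)))
    rw [nsmul_eq_mul] at h3
    have h4 := mul_le_mul_of_nonneg_right h1 (show 0 ≤ j * e by positivity)
    nlinarith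
  have h3 := ((norm_sub_le_norm_sub_add_norm_sub _ _ _).trans (add_le_add a2
    ((norm_sub_le_norm_sub_add_norm_sub _ _ _).trans (add_le_add h2 ((norm_sub_rev _ _).trans_le b2)))))
  rw [← Complex.ofReal_sub, Complex.norm_real, Real.norm_eq_abs] at h3
  rw [← mul_sub, abs_mul, abs_of_pos hU0]
  refine (mul_le_mul_of_nonneg_left h3 hU0.le).trans_eq ?_
  field_simp
  ring

end Pool.Agent.MP_f3836a_nt.VE.BC
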