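import Pool.Agent.MP_f3836a_nt.VE.SpecB

/-! Coarse equidistribution gives closeness at low frequency. -/

set_option autoImplicit false

namespace Pool.Agent.MP_f3836a_nt.VE.BC

open Finset

namespace BCo

theorem norm_ee (x : ℝ) : ‖ee x‖ = 1 := by
  simpa [ee] using Complex.norm_exp_ofReal_mul_I (2 * Real.pi * x)

theorem ee_lip {α x y d U : ℝ} (hU : 0 < U) (hα : |α| * U ≤ 1) (h : |x - y| ≤ d) :
    ‖ee (α * x) - ee (α * y)‖ ≤ 7 * (d / U) := by
  have e : ee (α * x) - ee (α * y) =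
      ee (α * y) * (Complex.exp (Complex.I * (2 * Real.pi * (α * (x - y)) : ℝ)) - 1) := by
    rw [mul_sub, mul_one, ee, ee, ← Complex.exp_add]
    congr 2
    push_cast
    ring
  rw [e, norm_mul, norm_ee, one_mul]
  refine Real.norm_exp_I_mul_ofReal_sub_one_le.trans ?_
  rw [Real.norm_eq_abs, abs_mul, abs_mul α, abs_of_pos Real.two_pi_pos, div_eq_inv_mul]
  have h1 : |α| ≤ U⁻¹ := by rwa [← one_div, le_div_iff₀ hU]
  gcongr
  linarith [Real.pi_lt_d2]

theorem sum_div (f : ℕ → ℂ) {K : ℕ} (hK : 0 < K) (U : ℕ) :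
    ∑ y ∈ range (K * U), f (y / K) = K * ∑ x ∈ range U, f x := by
  induction U with
  | zero => simp
  | succ U ih =>
    rw [Nat.mul_succ, sum_range_add, ih, sum_range_succ, mul_add,
      sum_congr (s₁ := range K) (g := fun _ => f U) rfl fun r hr => by
        rw [Nat.mul_add_div hK, Nat.div_eq_of_lt (mem_range.1 hr), add_zero]]
    simp

theorem div_bd (y : ℕ) {K : ℕ} (hK : 0 < K) :
    ((y / K : ℕ) : ℝ) * K ≤ y ∧ (y : ℝ) ≤ (y / K : ℕ) * K + K :=
  ⟨by exact_mod_cast Nat.div_mul_le_self y K, by exact_mod_cast (Nat.lt_div_mul_add hK).le⟩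

end BCo

open BCo in
theorem rCo : CoS := by
  intro ι _ μ u U J K e hJ hK hKU h0 h1 hu he α hα
  have K0 : (0 : ℝ) < K := by exact_mod_cast hK
  have J0 : (0 : ℝ) < J := by exact_mod_cast hJ
  have KU : (K : ℝ) ≤ U := by exact_mod_cast hKU
  have U0 : (0 : ℝ) < U := K0.trans_le KU
  have K1 : (K : ℂ) ≠ 0 := by exact_mod_cast K0.ne'
  have J1 : (J : ℂ) ≠ 0 := by exact_mod_cast J0.ne'
  have U1 : (U : ℂ) ≠ 0 := by exact_mod_cast U0.ne'
  let z : ℕ → ℂ := fun a => ee (α * (a * U / K))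
  have a1 : ‖(ex (sm μ J) fun p => ee (α * su u J p)) - ∑ i, μ i * z (K * u i / U)‖ ≤
      7 * ((J + U / K) / U) := by
    have e1 : ∑ i, μ i * z (K * u i / U) = ∑ p : ι × Fin J, sm μ J p * z (K * u p.1 / U) := by
      rw [Fintype.sum_prod_type]
      refine sum_congr rfl fun i _ => ?_
      simp [sm]
      field_simp
    have e2 : ∑ p : ι × Fin J, sm μ J p = 1 := by
      rw [Fintype.sum_prod_type, ← h1]
      refine sum_congr rfl fun i _ => ?_
      simp [sm]
      field_simp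
    rw [e1, ex, ← sum_sub_distrib, ← one_mul (7 * _), ← e2, sum_mul]
    refine norm_sum_le_of_le _ fun p _ => ?_
    have s0 : 0 ≤ sm μ J p := div_nonneg (h0 _) J0.le
    rw [← mul_sub, norm_mul, Complex.norm_real, Real.norm_of_nonneg s0]
    refine mul_le_mul_of_nonneg_left (ee_lip U0 hα ?_) s0
    obtain ⟨b1, b2⟩ := div_bd (K * u p.1) (hK.trans hKU)
    have b3 : ((p.2 : ℕ) : ℝ) ≤ J := by exact_mod_cast p.2.2.le
    have b4 : (0 : ℝ) ≤ (p.2 : ℕ) := Nat.cast_nonneg _
    rw [Nat.cast_mul, ← div_le_iff₀' K0] at b1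
    rw [Nat.cast_mul, ← le_div_iff₀' K0, add_div] at b2
    rw [su, Int.cast_add, Int.cast_natCast, Int.cast_natCast]
    exact abs_le.2 ⟨by linarith [div_pos U0 K0], by linarith⟩
  have a2 : ‖∑ i, μ i * z (K * u i / U) - ∑ a ∈ range K, (1 / K : ℝ) * z a‖ ≤ e := by
    rw [← sum_fiberwise_of_maps_to (s := univ) (t := range K) (g := fun i => K * u i / U)
      fun i _ => mem_range.2 (Nat.div_lt_of_lt_mul (by
        rw [mul_comm U]; exact Nat.mul_lt_mul_of_pos_left (hu i) hK)), ← sum_sub_distrib]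
    refine (norm_sum_le_of_le _ fun a _ => le_of_eq ?_).trans he
    rw [sum_congr rfl fun i hi => by rw [(mem_filter.1 hi).2], ← sum_mul, ← sub_mul, norm_mul,
      norm_ee, mul_one, ← Complex.ofReal_sum, ← Complex.ofReal_sub, Complex.norm_real,
      Real.norm_eq_abs]
  have a3 : ‖∑ a ∈ range K, (1 / K : ℝ) * z a - ex (sm (fun _ : range U => (1 : ℝ) / U) 1)
      fun p => ee (α * su (fun a : range U => id a.1) 1 p)‖ ≤ 7 * (U / K / U) := by
    have e1 : (ex (sm (fun _ : range U => (1 : ℝ) / U) 1)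
        fun p => ee (α * su (fun a : range U => id a.1) 1 p)) =
        (∑ y ∈ range (K * U), ee (α * (y / K : ℕ))) / (K * U : ℕ) := by
      rw [sum_div (fun x => ee (α * x)) hK, ← sum_coe_sort, ex, Fintype.sum_prod_type]
      simp [sm, su, ← mul_sum]
      field_simp
    have e2 : ∑ a ∈ range K, (1 / K : ℝ) * z a = (∑ y ∈ range (K * U), z (y / U)) / (K * U : ℕ) := by
      rw [mul_comm K, sum_div z (hK.trans hKU), ← mul_sum]
      push_cast
      field_simp
    rw [e1, e2, ← sub_div, ← sum_sub_distrib, norm_div, Complex.norm_natCast,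
      div_le_iff₀' (by rw [Nat.cast_mul]; positivity)]
    refine (norm_sum_le_of_le _ (n := fun _ => 7 * (U / K / U : ℝ)) fun y _ =>
      ee_lip U0 hα ?_).trans (by simp)
    obtain ⟨b1, b2⟩ := div_bd y (hK.trans hKU)
    obtain ⟨b3, b4⟩ := div_bd y hK
    have b5 := div_le_div_of_nonneg_right b1 K0.le
    have b6 := div_le_div_of_nonneg_right b2 K0.le
    rw [← le_div_iff₀ K0] at b3
    rw [← add_one_mul, ← div_le_iff₀ K0] at b4
    rw [add_div] at b6
    exact abs_le.2 ⟨by linarith, by linarith [(one_le_div K0).2 KU]⟩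
  have a4 := (norm_add_le _ _).trans (add_le_add ((norm_add_le _ _).trans (add_le_add a1 a2)) a3)
  rw [sub_add_sub_cancel, sub_add_sub_cancel] at a4
  refine a4.trans ?_
  have e1 : (U : ℝ) / K / U = 1 / K := by field_simp
  rw [add_div, e1, mul_div_assoc, add_div, div_eq_mul_one_div 20]
  linarith [div_pos J0 U0, div_pos K0 U0, one_div_pos.2 K0]

end Pool.Agent.MP_f3836a_nt.VE.BC
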