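import Pool.Agent.MP_f3836a_nt.VE.SpecB

/-! Row BGlue: the exports of part B. -/

set_option autoImplicit false

namespace Pool.Agent.MP_f3836a_nt.VE.BC

open Finset

namespace BGlue

variable {ι : Type} [Fintype ι] {μ : ι → ℝ} {X : ι → ℤ} {U k' : ℕ} {C C' c c' : ℝ}

theorem dec_mono (h : Dec μ X U c) (hc : c' ≤ c) : Dec μ X U c' := fun α hα =>
  (h α hα).trans (sub_le_sub_left
    (mul_le_mul_of_nonneg_right hc (le_min zero_le_one (sq_nonneg _))) 1)

theorem nice_mono (h : Nice μ X U k' C c) (hC : C ≤ C') (hc : c' ≤ c) : Nice μ X U k' C' c' :=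
  ⟨h.pos, h.tot, h.rng, fun v => (h.sup v).trans (by gcongr), dec_mono h.dec hc⟩

theorem law_nonneg (h : ∀ i, 0 ≤ μ i) (j : ℕ) (v : ℤ) : 0 ≤ law μ X j v :=
  sum_nonneg fun s _ => mul_nonneg (prod_nonneg fun i _ => h _) (by unfold ind; positivity)

theorem law_le (hT : TupS) (h : Nice μ X U k' C c) {j : ℕ} (hj : k' ≤ j) (v : ℤ) :
    law μ X j v ≤ C / U :=
  ((hT ι μ).2.2.2.2.2 ℤ X).2.2 ⟨h.pos, h.tot.le⟩ k' j _ hj h.sup v

theorem bd (hT : TupS) (h : Nice μ X U k' C c) (hU : 2 ≤ U) {j : ℕ} (hj : k' ≤ j) (v : ℤ) :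
    U * law μ X j v ≤ C := by
  have : (0 : ℝ) < U := by positivity
  rw [mul_comm, ← le_div_iff₀ this]
  exact law_le hT h hj v

theorem lip1 {F : ℤ → ℝ} {D : ℝ} (h : ∀ v, |F (v + 1) - F v| ≤ D) (v v' : ℤ) :
    |F v - F v'| ≤ |(v : ℝ) - v'| * D := by
  have key : ∀ (n : ℕ) (v : ℤ), |F (v + n) - F v| ≤ n * D := fun n v => by
    induction n with
    | zero => simp
    | succ n ih =>
      have := abs_sub_le (F (v + n + 1)) (F (v + n)) (F v)
      have h1 := h (v + n)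
      push_cast
      rw [← add_assoc]
      linarith
  rcases le_total v' v with e | e
  · obtain ⟨n, rfl⟩ := Int.le.dest e
    simpa using key n v'
  · obtain ⟨n, rfl⟩ := Int.le.dest e
    rw [abs_sub_comm]
    simpa using key n v

theorem uni_sum (U : ℕ) (g : ℤ → ℝ) :
    ∑ p, sm (fun _ : range U => (1 : ℝ) / U) 1 p * g (su (fun a : range U => id a.1) 1 p) =
      1 / U * ∑ a ∈ range U, g a := by
  rw [mul_sum, ← sum_coe_sort (range U), Fintype.sum_prod_type]
  simp [sm, su]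

theorem gauss (U : ℕ) : ∑ a ∈ range U, (((a : ℕ) : ℤ) : ℝ) = U * (U - 1) / 2 := by
  induction U with
  | zero => simp
  | succ n ih =>
    rw [sum_range_succ, ih]
    push_cast
    ring

theorem mean {u : ι → ℕ} {J : ℕ} (hJ : 1 ≤ J) (h : ∀ i, 0 ≤ μ i) (h1 : ∑ i, μ i = 1) :
    |∑ p, sm μ J p * (su u J p : ℝ) - ∑ i, μ i * u i| ≤ J := by
  have J0 : (0 : ℝ) < J := by positivity
  have e : ∀ f : ι → ℝ, ∑ p, sm μ J p * f p.1 = ∑ i, μ i * f i := fun f => by
    rw [Fintype.sum_prod_type]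
    refine sum_congr rfl fun i _ => ?_
    simp only [sm, sum_const, card_univ, Fintype.card_fin, nsmul_eq_mul]
    field_simp
  have p0 : ∀ p, 0 ≤ sm μ J p := fun p => div_nonneg (h _) J0.le
  rw [← e fun i => u i, ← sum_sub_distrib]
  refine (abs_sum_le_sum_abs _ _).trans ((sum_le_sum (g := fun p => sm μ J p * J)
    fun p _ => ?_).trans_eq ((e fun _ => J).trans (by rw [← sum_mul, h1, one_mul])))
  have : ((p.2 : ℕ) : ℝ) ≤ J := by exact_mod_cast p.2.2.le
  simp only [su]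
  push_cast
  rw [← mul_sub, add_sub_cancel_left, abs_of_nonneg (mul_nonneg (p0 p) (by positivity))]
  exact mul_le_mul_of_nonneg_left this (p0 p)

end BGlue

open BGlue in
theorem rBMain : OfBMain := by
  intro hT hSm hAc hLip hLow hCmp hUni hCo k' C hk hC
  obtain ⟨J0, ca, a0, a1, hA⟩ := hAc k' C hk
  obtain ⟨cu, u0, -, hU⟩ := hUni
  have c0 : 0 < min ca cu := lt_min a0 u0
  have c1 : min ca cu ≤ 1 := (min_le_left _ _).trans a1
  obtain ⟨CL, L0, hL⟩ := hLip k' C _ hk c0 c1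
  obtain ⟨k1, c2, w0, hW⟩ := hLow k' C _ hk c0 c1
  have hM := hCmp k' C _ hk c0 c1
  have nU := fun U (h : 2 ≤ U) => nice_mono (hU U k' h hk) hC (min_le_right ca cu)
  have hm := min_le_left ca cu
  generalize min ca cu = c at *
  have pw : ∀ n : ℕ, (1 - c) ^ n ≤ (1 - min c c2) ^ n := fun n =>
    pow_le_pow_left₀ (sub_nonneg.2 c1) (sub_le_sub_left (min_le_left _ _) 1) n
  have lip : ∀ (ι : Type) [Fintype ι] (μ : ι → ℝ) (X : ι → ℤ) (U j : ℕ), 2 ≤ U →
      Nice μ X U k' C c → 2 * k' ≤ j → ∀ v v' : ℤ, |U * law μ X j v - U * law μ X j v'| ≤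
        max 1 CL * (|(v : ℝ) - v'| / (j * U) + (1 - min c c2) ^ (j - 2 * k')) :=
    fun ι _ μ X U j h1 h2 h3 v v' => (hL ι μ X U j (by omega) h2 h3 v v').trans (mul_le_mul
      (le_max_right _ _) (add_le_add le_rfl (pw _))
      (add_nonneg (by positivity) (pow_nonneg (sub_nonneg.2 c1) _)) (by positivity))
  have low : ∀ (ι : Type) [Fintype ι] (μ : ι → ℝ) (X : ι → ℤ) (U j : ℕ), 2 ≤ U →
      Nice μ X U k' C c → max k1 (2 * k' + 2) ≤ j → ∃ v : ℤ,
      |(v : ℝ) - j * ∑ i, μ i * X i| ≤ 2 * √j * U ∧ ∀ a : ℕ, a ≤ 2 → ∀ v' : ℤ,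
      |(v' : ℝ) - v| ≤ min c c2 * √j * U → min c c2 / √j ≤ U * law μ X (j - a) v' :=
    fun ι _ μ X U j h1 h2 h3 => by
      obtain ⟨v, h4, h5⟩ := hW ι μ X U j (by omega) h2 (le_of_max_le_left h3)
      have := min_le_right c c2
      exact ⟨v, h4, fun a ha v' h => le_trans (by gcongr) (h5 a ha v' (h.trans (by gcongr)))⟩
  refine ⟨max J0 1, max k1 (2 * k' + 2), min c c2, max 1 CL, lt_min c0 w0,
    (min_le_left _ _).trans c1, le_max_left _ _, le_max_right _ _, le_max_right _ _,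
    fun U j h2 hj => ?_, fun ι St μ u U J j hJ hJU h2 hμ h1 hs hj => ?_⟩
  · have n1 := hU U k' h2 hk
    have U0 : (U : ℝ) ≠ 0 := by positivity
    simp only [Fu, cv_eq]
    refine ⟨fun v => ⟨mul_nonneg (by positivity) (law_nonneg n1.pos _ _),
      bd hT n1 h2 (by omega) v⟩, lip _ _ _ U j h2 (nU U h2) hj, fun v v' => ?_, fun h => ?_⟩
    · obtain ⟨i, rfl⟩ : ∃ i, j = i + 1 := ⟨j - 1, by omega⟩
      have l0 := law_nonneg (X := su (fun a : range U => id a.1) 1) n1.pos i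
      have l1 := law_le hT n1 (j := i) (by omega)
      simp only [((hT _ _).2.2.2.2.2 ℤ _).1]
      generalize law (sm (fun _ : range U => (1 : ℝ) / U) 1) (su (fun a : range U => id a.1) 1) i = L
        at *
      rw [div_eq_mul_one_div |_|]
      refine lip1 (F := fun v => U * ∑ p, sm (fun _ : range U => (1 : ℝ) / U) 1 p *
        L (v - su (fun a : range U => id a.1) 1 p)) (fun v => ?_) v v'
      rw [uni_sum U fun a => L (v + 1 - a), uni_sum U fun a => L (v - a), ← mul_assoc, ← mul_assoc,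
        mul_one_div_cancel U0, one_mul, one_mul, ← sum_sub_distrib]
      have e := sum_range_sub' (fun a : ℕ => L (v + 1 - a)) U
      simp only [Nat.cast_succ, add_sub_add_right_eq_sub, Nat.cast_zero, sub_zero] at e
      rw [e, abs_le]
      constructor <;> linarith [l0 (v + 1), l1 (v + 1), l0 (v + 1 - U), l1 (v + 1 - U)]
    · obtain ⟨v, h4, h5⟩ := low _ _ _ U j h2 (nU U h2) h
      refine ⟨v, ?_, h5⟩
      rw [uni_sum U fun a => (a : ℝ), gauss] at h4
      convert h4 using 3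
      field_simp
  · have J1 : 1 ≤ J := le_of_max_le_right hJ
    have t1 : ∑ x : St, μ x = 1 := (sum_coe_sort St μ).trans h1
    have p1 : ∀ x : St, 0 ≤ μ x := fun x => (hμ x x.2).1
    have q1 : ∀ x : St, u x < U := fun x => (hμ x x.2).2
    obtain ⟨s1, s2, -⟩ := hSm St (fun x => μ x) (fun x => u x) J 0 0 ⟨p1, t1.le⟩ J1
    simp only [Fu, cv_eq] at hs ⊢
    have n1 : Nice (sm (fun x : St => μ x) J) (su (fun x : St => u x) J) U k' C c :=
      ⟨s1.1, s2.trans t1, fun p => by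
        have := q1 p.1
        have := p.2.2
        simp only [su]
        omega, hs, dec_mono (hA _ _ _ U J (le_of_max_le_left hJ) hJU ⟨p1, t1.le⟩ q1 hs) hm⟩
    refine ⟨fun v => ⟨law_nonneg n1.pos _ _, bd hT n1 h2 (by omega) v⟩, lip _ _ _ U j h2 n1 hj,
      fun h => ?_, fun K e K1 K2 he v => ?_⟩
    · obtain ⟨v, h4, h5⟩ := low _ _ _ U j h2 n1 h
      refine ⟨v, (abs_sub_le _ _ _).trans (add_le_add h4 ?_), h5⟩
      rw [← mul_sub, abs_mul, Nat.abs_cast, ← sum_coe_sort St fun x => μ x * u x]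
      exact mul_le_mul_of_nonneg_left (mean J1 p1 t1) (by positivity)
    · refine (hM _ _ _ _ _ _ U j _ (by omega) n1 (nU U h2) hj
        (hCo St (fun x => μ x) (fun x => u x) U J K e J1 K1 K2 p1 t1 q1 ?_) v).trans
        (add_le_add le_rfl (mul_le_mul_of_nonneg_left (pw _) (by positivity)))
      refine le_of_eq_of_le (sum_congr rfl fun a _ => ?_) he
      rw [sum_filter, sum_filter, ← sum_coe_sort St]

end Pool.Agent.MP_f3836a_nt.VE.BC
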