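import Pool.Agent.MP_f3836a_nt.VE.SpecB

/-! The Lipschitz bound for the law of a sum of independent steps. -/

set_option autoImplicit false

namespace Pool.Agent.MP_f3836a_nt.VE.BC

open Finset

namespace BLip

/-- the majorant -/
noncomputable def G (h a : ℝ) (m : ℕ) : ℝ := h * (m * h) / (1 + a * (m * h) ^ 2) ^ 2

theorem G_pos {h a : ℝ} (hh : 0 ≤ h) (m : ℕ) : 0 ≤ G h a m := by unfold G; positivity

theorem tele {h a : ℝ} (ha : 0 < a) (M : ℕ) :
    ∑ m ∈ range (M + 1), G h a m ≤ 1 / a - 1 / (a * (1 + a * (M * h) ^ 2)) := by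
  induction M with
  | zero => simp [G]
  | succ M ih =>
    rw [sum_range_succ]
    refine (add_le_add_left ih _).trans ?_
    unfold G
    push_cast
    set p := 1 + a * (M * h) ^ 2 with hp
    set q := 1 + a * ((M + 1) * h) ^ 2 with hq
    have p0 : 0 < p := by positivity
    have e : q - p = a * ((2 * M + 1) * h ^ 2) := by rw [hp, hq]; ring
    have pq : p ≤ q := by
      have : 0 ≤ a * ((2 * M + 1) * h ^ 2) := by positivity
      linarith
    have q0 : 0 < q := p0.trans_le pq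
    have e1 : h * ((M + 1) * h) / q ^ 2 ≤ (2 * M + 1) * h ^ 2 / (p * q) :=
      div_le_div₀ (by positivity) (by nlinarith [mul_nonneg (Nat.cast_nonneg M) (sq_nonneg h)])
        (by positivity) (by nlinarith)
    have e2 : (2 * M + 1) * h ^ 2 / (p * q) = 1 / (a * p) - 1 / (a * q) := by
      field_simp
      linarith
    linarith

theorem inj {κ : Type} {h a : ℝ} (hh : 0 ≤ h) (ha : 0 < a) (T : Finset κ) (f : κ → ℕ)
    (hf : Set.InjOn f T) : ∑ x ∈ T, G h a (f x) ≤ 1 / a := by
  obtain ⟨M, hM⟩ := (T.image f).exists_nat_subset_range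
  rw [← sum_image hf]
  refine (sum_le_sum_of_subset_of_nonneg (hM.trans (range_subset_range.2 M.le_succ))
    fun m _ _ => G_pos hh m).trans ((tele ha M).trans (sub_le_self _ (by positivity)))

theorem two {h a : ℝ} (hh : 0 ≤ h) (ha : 0 < a) (N : ℕ) [NeZero N] :
    ∑ x : ZMod N, G h a x.valMinAbs.natAbs ≤ 2 / a := by
  have b : ∀ x : ZMod N, G h a x.valMinAbs.natAbs ≤ G h a x.val + G h a (N - x.val) := fun x => by
    rw [ZMod.valMinAbs_natAbs_eq_min]
    rcases min_choice x.val (N - x.val) with e | e <;> rw [e] <;>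
      linarith [G_pos (a := a) hh x.val, G_pos (a := a) hh (N - x.val)]
  refine (sum_le_sum fun x _ => b x).trans ?_
  have c := inj hh ha univ (fun x : ZMod N => x.val) (ZMod.val_injective N).injOn
  have d := inj hh ha univ (fun x : ZMod N => N - x.val) fun x _ y _ e =>
    ZMod.val_injective N (by have := x.val_lt; have := y.val_lt; simp only at e; omega)
  rw [sum_add_distrib]
  linarith [show 2 / a = 1 / a + 1 / a by ring]

theorem pw {y : ℝ} (h0 : 0 ≤ y) (h1 : y ≤ 1) (j : ℕ) : (1 - y) ^ j ≤ 1 / (1 + j / 2 * y) ^ 2 := by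
  have a : (1 - y) ^ j ≤ Real.exp (-y) ^ j :=
    pow_le_pow_left₀ (by linarith) (Real.one_sub_le_exp_neg y) j
  have b : (1 + j / 2 * y) ^ 2 ≤ Real.exp (j / 2 * y) ^ 2 :=
    pow_le_pow_left₀ (by positivity) (by linarith [Real.add_one_le_exp (j / 2 * y)]) 2
  rw [le_div_iff₀ (by positivity)]
  refine (mul_le_mul a b (by positivity) (by positivity)).trans_eq ?_
  rw [← Real.exp_nat_mul, ← Real.exp_nat_mul, ← Real.exp_add, ← Real.exp_zero]
  congr 1
  push_cast
  ring

theorem ee_sub (x y : ℝ) : ‖ee x - ee y‖ ≤ 2 * Real.pi * |x - y| := by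
  have e : ee x - ee y = ee y * (Complex.exp (Complex.I * (2 * Real.pi * (x - y) : ℝ)) - 1) := by
    rw [mul_sub, mul_one, ee, ee, ← Complex.exp_add]
    congr 2
    push_cast
    ring
  have n : ‖ee y‖ = 1 := by
    rw [ee, ← Complex.norm_exp_ofReal_mul_I (2 * Real.pi * y)]
    push_cast
    rfl
  rw [e, norm_mul, n, one_mul]
  refine Real.norm_exp_I_mul_ofReal_sub_one_le.trans_eq ?_
  rw [Real.norm_eq_abs, abs_mul, abs_of_pos (by positivity)]

theorem chr (N : ℕ) [NeZero N] (a : ZMod N) (x : ℤ) :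
    AddChar.zmodAddEquiv a (x : ZMod N) = ee (a.valMinAbs / N * x) := by
  conv_lhs => rw [← a.coe_valMinAbs]
  rw [AddChar.zmodAddEquiv_apply]
  change ((AddChar.zmod N (a.valMinAbs : ZMod N) (x : ZMod N) : Circle) : ℂ) = _
  rw [AddChar.zmod_intCast, Circle.coe_exp, ee]
  congr 1
  push_cast
  ring

theorem red {ι : Type} [Fintype ι] (μ : ι → ℝ) {X : ι → ℤ} {U : ℕ} (N j : ℕ) (v : ℤ)
    (hX : ∀ i, 0 ≤ X i ∧ X i < 2 * U) (h : ∀ z : ℤ, 0 ≤ z → z ≤ j * (2 * U) → |z - v| < N) :
    law μ (fun i => (X i : ZMod N)) j v = law μ X j v := by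
  refine sum_congr rfl fun s _ => ?_
  have := h (∑ i, X (s i)) (sum_nonneg fun i _ => (hX _).1)
    ((sum_le_sum fun i _ => (hX (s i)).2.le).trans (by simp))
  have e : (∑ i, (X (s i) : ZMod N) = v) = (∑ i, X (s i) = v) := by
    rw [← Int.cast_sum, eq_comm (b := (v : ZMod N)), ZMod.intCast_eq_intCast_iff_dvd_sub]
    exact propext ⟨fun e => sub_eq_zero.1 (Int.eq_zero_of_abs_lt_dvd e this), fun e => by simp [e]⟩
  simp only [e]

end BLip

open BLip in
theorem rLip : OfLip := by
  intro _ hI k' C c hk c0 c1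
  refine ⟨8 * Real.pi / c + 2 * |C|, by positivity, fun ι _ μ X U j hU h hj v v' => ?_⟩
  obtain ⟨N, hN⟩ : ∃ N : ℕ, (N : ℤ) = j * (2 * U) + |v| + |v'| + 1 :=
    ⟨_, Int.toNat_of_nonneg (by positivity)⟩
  have N0 : 0 < N := by
    have : (0 : ℤ) ≤ j * (2 * U) + |v| + |v'| := by positivity
    omega
  have : NeZero N := ⟨N0.ne'⟩
  have N1 : (0 : ℝ) < N := Nat.cast_pos.2 N0
  have U0 : (0 : ℝ) < U := Nat.cast_pos.2 hU
  have j0 : (0 : ℝ) < j := Nat.cast_pos.2 (by omega)
  have a1 := abs_nonneg v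
  have a2 := abs_nonneg v'
  let φ : ZMod N → ℂ := fun a => ex μ fun i => AddChar.zmodAddEquiv a (X i : ZMod N)
  have dec : ∀ a : ZMod N, ‖φ a‖ ≤ 1 - c * min 1 (((a.valMinAbs.natAbs : ℝ) * (U / N)) ^ 2) := by
    intro a
    have b : (a.valMinAbs.natAbs : ℝ) * 2 ≤ N := by
      exact_mod_cast (Nat.le_div_iff_mul_le two_pos).1 a.natAbs_valMinAbs_le
    rw [Nat.cast_natAbs, Int.cast_abs] at b ⊢
    have := h.dec (a.valMinAbs / N) (by
      rw [abs_div, abs_of_pos N1, div_le_div_iff₀ N1 two_pos]; linarith)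
    simp only [φ, chr]
    convert this using 3
    rw [mul_pow, sq_abs]
    ring_nf
  let T := univ.filter fun a : ZMod N => ((a.valMinAbs.natAbs : ℝ) * (U / N)) ^ 2 ≤ 1
  have key := hI ι (ZMod N) μ (fun i => (X i : ZMod N)) k' j (C / U) (1 - c)
    (T.map AddChar.zmodAddEquiv.toEquiv.toEmbedding) ⟨h.pos, h.tot.le⟩ (fun y => by
      rw [← y.natCast_zmod_val, ← Int.cast_natCast, red μ N k' _ h.rng fun z z0 z1 => ?_]
      · exact h.sup _
      have := y.val_lt
      have : (k' : ℤ) * (2 * U) ≤ j * (2 * U) := by gcongr; omega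
      rw [abs_lt]
      omega) (by linarith) (fun ξ hξ => by
      obtain ⟨a, rfl⟩ := AddChar.zmodAddEquiv.surjective ξ
      have := dec a
      rwa [min_eq_left (le_of_not_ge fun q => hξ (mem_map.2 ⟨a, by simpa [T] using q, rfl⟩)),
        mul_one] at this) hj
  have k1 := key v
  have k2 := key v'
  rw [red μ N j v h.rng fun z z0 z1 => by rw [abs_lt]; cases abs_cases v <;> omega,
    sum_map, Nat.card_zmod] at k1
  rw [red μ N j v' h.rng fun z z0 z1 => by rw [abs_lt]; cases abs_cases v' <;> omega,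
    sum_map, Nat.card_zmod] at k2
  have low : ‖∑ a ∈ T, φ a ^ j * AddChar.zmodAddEquiv a (-(v : ZMod N)) -
      ∑ a ∈ T, φ a ^ j * AddChar.zmodAddEquiv a (-(v' : ZMod N))‖ ≤
      2 * Real.pi * |(v : ℝ) - v'| * N / U ^ 2 * (2 / (j / 2 * c)) := by
    rw [← sum_sub_distrib]
    refine (norm_sum_le_of_le T (n := fun a => 2 * Real.pi * |(v : ℝ) - v'| * N / U ^ 2 *
      G (U / N) (j / 2 * c) a.valMinAbs.natAbs) fun a ha => ?_).trans ?_
    · have d := dec a
      have t := (mem_filter.1 ha).2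
      rw [min_eq_right t] at d
      have p := (pow_le_pow_left₀ (norm_nonneg _) d j).trans
        (pw (by positivity) (by nlinarith) j)
      rw [← mul_sub, norm_mul, norm_pow, ← Int.cast_neg, ← Int.cast_neg, chr, chr]
      refine (mul_le_mul p (ee_sub _ _) (norm_nonneg _) (by positivity)).trans_eq ?_
      rw [← mul_sub, abs_mul, abs_div, abs_of_pos N1, Int.cast_neg, Int.cast_neg, neg_sub_neg,
        abs_sub_comm, G, Nat.cast_natAbs, Int.cast_abs, ← mul_assoc _ c]
      field_simp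
    · rw [← mul_sum]
      refine mul_le_mul_of_nonneg_left ((sum_le_sum_of_subset_of_nonneg (subset_univ _)
        fun a _ _ => G_pos (by positivity) _).trans (two (by positivity) (by positivity) N))
        (by positivity)
  have tri : ∀ a b p q : ℂ, ‖a - b‖ ≤ ‖a - p / N‖ + ‖b - q / N‖ + ‖p - q‖ / N := fun a b p q => by
    have : a - b = (a - p / N) - (b - q / N) + (p - q) / N := by ring
    rw [this]
    refine (norm_add_le _ _).trans (add_le_add (norm_sub_le _ _) ?_)
    rw [norm_div, Complex.norm_natCast]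
  have t := (tri _ _ _ _).trans
    (add_le_add (add_le_add k1 k2) (div_le_div_of_nonneg_right low N1.le))
  rw [← Complex.ofReal_sub, Complex.norm_real, Real.norm_eq_abs] at t
  rw [← mul_sub, abs_mul, abs_of_pos U0]
  refine (mul_le_mul_of_nonneg_left t U0.le).trans ?_
  have w0 : 0 ≤ (1 - c) ^ (j - 2 * k') := pow_nonneg (by linarith) _
  generalize (1 - c) ^ (j - 2 * k') = w at *
  have e : U * (w * (C / U) + w * (C / U) +
      2 * Real.pi * |(v : ℝ) - v'| * N / U ^ 2 * (2 / (j / 2 * c)) / N) =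
      8 * Real.pi / c * (|(v : ℝ) - v'| / (j * U)) + 2 * C * w := by
    field_simp
    ring
  have b1 : 0 ≤ 8 * Real.pi / c * w := by positivity
  have b2 : 0 ≤ |C| * (|(v : ℝ) - v'| / (j * U)) := by positivity
  have b3 := mul_le_mul_of_nonneg_right (le_abs_self C) w0
  rw [e]
  nlinarith

end Pool.Agent.MP_f3836a_nt.VE.BC
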