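import Pool.Agent.MP_f3836a_nt.VE.SpecB

/-! A lower bound for the law of a sum on a window. -/

set_option autoImplicit false

namespace Pool.Agent.MP_f3836a_nt.VE.BC

open Finset Filter Topology

namespace BLow

theorem back (hT : TupS) {ι : Type} [Fintype ι] {μ : ι → ℝ} {X : ι → ℤ} {U j : ℕ} {v : ℤ} {b : ℝ}
    (h0 : ∀ i, 0 ≤ μ i) (h1 : ∑ i, μ i = 1) (hX : ∀ i, 0 ≤ X i ∧ X i < 2 * U)
    (hb : b ≤ U * law μ X j v) :
    ∀ a : ℕ, a ≤ j → ∃ y : ℤ, |(y : ℝ) - v| ≤ 2 * a * U ∧ b ≤ U * law μ X (j - a) y := by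
  intro a
  induction a with
  | zero => exact fun _ => ⟨v, by simp, hb⟩
  | succ a ih =>
    intro ha
    obtain ⟨y, hy, hl⟩ := ih (by omega)
    rw [show j - a = j - (a + 1) + 1 by omega, ((hT ι μ).2.2.2.2.2 ℤ X).1] at hl
    have ne : (univ : Finset ι).Nonempty := nonempty_of_sum_ne_zero (h1.trans_ne one_ne_zero)
    obtain ⟨i, -, hi⟩ := exists_max_image univ (fun i => law μ X (j - (a + 1)) (y - X i)) ne
    refine ⟨y - X i, ?_, hl.trans (mul_le_mul_of_nonneg_left ?_ (Nat.cast_nonneg _))⟩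
    · have e0 : (0 : ℝ) ≤ X i := by exact_mod_cast (hX i).1
      have e1 : (X i : ℝ) < 2 * U := by exact_mod_cast (hX i).2
      rw [abs_le] at hy ⊢
      push_cast
      constructor <;> linarith [hy.1, hy.2]
    · refine (sum_le_sum fun l _ => mul_le_mul_of_nonneg_left (hi l (mem_univ l)) (h0 l)).trans_eq ?_
      rw [← sum_mul, h1, one_mul]

theorem lim {r : ℝ} (h0 : 0 ≤ r) (h1 : r < 1) (C : ℝ) (K : ℕ) :
    ∃ N : ℕ, ∀ n ≥ N, C * ((n + K) * r ^ n) ≤ 1 / 80 := by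
  have h := ((tendsto_self_mul_const_pow_of_lt_one h0 h1).add
    ((tendsto_pow_atTop_nhds_zero_of_lt_one h0 h1).const_mul (K : ℝ))).const_mul C
  simp only [mul_zero, add_zero, ← add_mul] at h
  exact eventually_atTop.1 (h.eventually (ge_mem_nhds (by norm_num)))

end BLow

open BLow in
theorem rLow : OfLow := by
  intro hT hL hC k' C c hk c0 c1
  obtain ⟨C', C0, hL⟩ := hL k' C c hk c0 c1
  obtain ⟨N, hN⟩ := lim (sub_nonneg.2 c1) (sub_lt_self 1 c0) C' (2 * k' + 2)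
  obtain ⟨M, hM⟩ := exists_nat_ge ((640 * C') ^ 2)
  obtain ⟨c', p0, p1⟩ : ∃ c' : ℝ, 0 < c' ∧ c' * (1 + 2 * C') = 1 / 40 :=
    ⟨1 / 40 / (1 + 2 * C'), by positivity, div_mul_cancel₀ _ (by positivity)⟩
  refine ⟨N + M + (2 * k' + 2), c', p0, fun ι _ μ X U j hU hn hj => ?_⟩
  obtain ⟨v, hv, hb⟩ := hC ι μ X U j hU (by omega) hn.pos hn.tot hn.rng
  refine ⟨v, hv, fun a ha v' hv' => ?_⟩
  obtain ⟨y, hy, hl⟩ := back hT hn.pos hn.tot hn.rng hb a (by omega)
  have key := (abs_le.1 (hL ι μ X U (j - a) hU hn (by omega) v' y)).1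
  have U0 : (0 : ℝ) < U := by exact_mod_cast hU
  have a2 : (a : ℝ) ≤ 2 := by exact_mod_cast ha
  have j4 : (4 : ℝ) ≤ j := by exact_mod_cast (by omega : 4 ≤ j)
  have jM : (M : ℝ) ≤ j := by exact_mod_cast (by omega : M ≤ j)
  have ss : √j * √j = (j : ℝ) := Real.mul_self_sqrt (by linarith)
  have s1 : 1 ≤ √(j : ℝ) := Real.one_le_sqrt.2 (by linarith)
  have sM : 640 * C' ≤ √(j : ℝ) := Real.le_sqrt_of_sq_le (hM.trans jM)
  have hp := hN (j - (2 * k' + 2)) (by omega)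
  rw [← Nat.cast_add, Nat.sub_add_cancel (by omega)] at hp
  have hq : (1 - c) ^ (j - a - 2 * k') ≤ (1 - c) ^ (j - (2 * k' + 2)) :=
    pow_le_pow_of_le_one (sub_nonneg.2 c1) (sub_le_self 1 c0.le) (by omega)
  have q0 : 0 ≤ (1 - c) ^ (j - (2 * k' + 2)) := pow_nonneg (sub_nonneg.2 c1) _
  rw [Nat.cast_sub (by omega)] at key
  generalize √(j : ℝ) = s at *
  generalize (1 - c) ^ (j - (2 * k' + 2)) = q at *
  generalize (1 - c) ^ (j - a - 2 * k') = q' at *
  have s0 : 0 < s := by linarith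
  have e1 : |(v' : ℝ) - y| / ((j - a) * U) ≤ (2 * c' + 8 / s) / s := by
    have u : |(v' : ℝ) - y| ≤ (c' * s + 4) * U := by
      rw [abs_sub_comm] at hy
      nlinarith [abs_sub_le (v' : ℝ) v y]
    rw [div_le_iff₀ (mul_pos (by linarith) U0), ← mul_assoc]
    refine u.trans (mul_le_mul_of_nonneg_right ?_ U0.le)
    have : (2 * c' + 8 / s) / s * (s * s / 2) = c' * s + 4 := by
      field_simp
      ring
    rw [← this]
    exact mul_le_mul_of_nonneg_left (by linarith) (by positivity)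
  have e2 : C' * q' ≤ 1 / 80 / s := by
    rw [le_div_iff₀ s0]
    have : q' * s ≤ j * q := by
      rw [← ss]
      linarith [mul_le_mul_of_nonneg_right hq s0.le,
        mul_le_mul_of_nonneg_left s1 (mul_nonneg q0 s0.le)]
    linarith [mul_le_mul_of_nonneg_left this C0]
  have e3 : C' * ((2 * c' + 8 / s) / s) ≤ (2 * C' * c' + 1 / 80) / s := by
    rw [← mul_div_assoc]
    refine div_le_div_of_nonneg_right ?_ s0.le
    have : C' * (8 / s) ≤ 1 / 80 := by
      rw [← mul_div_assoc, div_le_iff₀ s0]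
      linarith
    linarith
  have e4 : c' / s = 1 / (20 * s) - (2 * C' * c' + 1 / 80) / s - 1 / 80 / s := by
    field_simp
    linarith
  linarith [mul_le_mul_of_nonneg_left e1 C0]

end Pool.Agent.MP_f3836a_nt.VE.BC
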