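import Pool.Agent.MP_f3836a_nt.VE.SpecB

/-! The uniform law is spread out. -/

set_option autoImplicit false

namespace Pool.Agent.MP_f3836a_nt.VE.BC

open Finset

namespace BUni

theorem ee_eq (x : ℝ) : ee x = Complex.exp ((2 * Real.pi * x : ℝ) * Complex.I) := by
  rw [ee]; push_cast; rfl

theorem ee_norm (x : ℝ) : ‖ee x‖ = 1 := by rw [ee_eq, Complex.norm_exp_ofReal_mul_I]

theorem ee_add (x y : ℝ) : ee (x + y) = ee x * ee y := by
  rw [ee, ee, ee, ← Complex.exp_add]; push_cast; ring_nf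

theorem one_add {y : ℝ} (hy : |y| ≤ 1 / 2) : ‖1 + ee y‖ ≤ 2 - 4 * y ^ 2 := by
  have hp := Real.pi_pos
  have h2 : y ^ 2 ≤ 1 / 4 := by rw [← sq_abs]; nlinarith [abs_nonneg y]
  have h1 := Real.cos_le_one_sub_mul_cos_sq (x := 2 * Real.pi * y) (by
    rw [abs_mul, abs_of_pos (by positivity)]; nlinarith)
  have h3 : 2 / Real.pi ^ 2 * (2 * Real.pi * y) ^ 2 = 8 * y ^ 2 := by field_simp; ring
  refine (sq_le_sq₀ (norm_nonneg _) (by linarith)).1 ?_
  have h4 : Complex.normSq (ee y) = 1 := by rw [← Complex.sq_norm, ee_norm]; norm_num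
  rw [Complex.sq_norm, Complex.normSq_add, h4, one_mul, Complex.conj_re, ee_eq,
    Complex.exp_ofReal_mul_I_re, map_one]
  nlinarith [sq_nonneg (y ^ 2)]

theorem nsum (f : ℕ → ℂ) (M : ℝ) (h : ∀ a, ‖f a‖ ≤ M) (n : ℕ) : ‖∑ a ∈ range n, f a‖ ≤ n * M :=
  (norm_sum_le _ _).trans ((sum_le_card_nsmul _ _ M fun a _ => h a).trans (by simp))

theorem pair {α : ℝ} {h n : ℕ} (hh : h ≤ n) (hy : |α| * h ≤ 1 / 2) :
    ‖∑ a ∈ range (h + n), ee (α * a)‖ ≤ (h + n : ℝ) * (1 - (α * h) ^ 2) := by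
  have e : 2 * ∑ a ∈ range (h + n), ee (α * a) = ∑ a ∈ range n, ee (α * a) * (1 + ee (α * h))
      + ∑ a ∈ range h, ee (α * a) + ∑ a ∈ range h, ee (α * (n + a : ℕ)) := by
    rw [two_mul]
    conv_lhs => enter [2]; rw [add_comm h n]
    simp only [sum_range_add, mul_add, mul_one, sum_add_distrib, ← ee_add, Nat.cast_add,
      add_comm (α * h)]
    ring
  have h1 := nsum (fun a => ee (α * a) * (1 + ee (α * h))) (2 - 4 * (α * h) ^ 2) (fun a => by
    rw [norm_mul, ee_norm, one_mul]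
    exact one_add (by rwa [abs_mul, Nat.abs_cast])) n
  have h2 := nsum (fun a => ee (α * a)) 1 (fun a => (ee_norm _).le) h
  have h3 := nsum (fun a => ee (α * (n + a : ℕ))) 1 (fun a => (ee_norm _).le) h
  have h4 := norm_add₃_le.trans (add_le_add (add_le_add h1 h2) h3)
  rw [← e, norm_mul, Complex.norm_two] at h4
  have h5 : (h : ℝ) ≤ n := Nat.cast_le.2 hh
  nlinarith [mul_le_mul_of_nonneg_right h5 (sq_nonneg (α * h))]

theorem pick {α : ℝ} {U : ℕ} (hU : 2 ≤ U) (hα : |α| ≤ 1 / 2) : ∃ h : ℕ, 2 * h ≤ U ∧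
    |α| * h ≤ 1 / 2 ∧ min 1 ((α * U) ^ 2) ≤ 16 * (α * h) ^ 2 := by
  have a0 := abs_nonneg α
  have sq : ∀ n : ℕ, (α * n) ^ 2 = (|α| * n) ^ 2 := fun n => by rw [mul_pow, mul_pow, sq_abs]
  rcases le_or_gt (|α| * U) 1 with h | h
  · have h1 : 2 * ((U / 2 : ℕ) : ℝ) ≤ U := by exact_mod_cast (by omega : 2 * (U / 2) ≤ U)
    have h2 : (U : ℝ) ≤ 4 * ((U / 2 : ℕ) : ℝ) := by exact_mod_cast (by omega : U ≤ 4 * (U / 2))
    refine ⟨U / 2, by omega, by nlinarith, (min_le_right _ _).trans ?_⟩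
    rw [sq, sq]
    exact (pow_le_pow_left₀ (by positivity) (mul_le_mul_of_nonneg_left h2 a0) 2).trans_eq (by ring)
  · have a1 : 0 < 2 * |α| := by
      by_contra hc
      rw [show |α| = 0 by linarith] at h
      norm_num at h
    have h1 := Nat.floor_le (one_div_pos.2 a1).le
    have h2 := Nat.lt_floor_add_one (1 / (2 * |α|))
    have h3 : (1 : ℝ) ≤ ⌊1 / (2 * |α|)⌋₊ :=
      Nat.one_le_cast.2 (Nat.le_floor (by rw [le_div_iff₀ a1]; push_cast; linarith))
    generalize ⌊1 / (2 * |α|)⌋₊ = k at h1 h2 h3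
    rw [le_div_iff₀ a1] at h1
    rw [div_lt_iff₀ a1] at h2
    refine ⟨k, ?_, by linarith, (min_le_left _ _).trans ?_⟩
    · have : (2 * k : ℝ) ≤ U := by nlinarith
      exact_mod_cast this
    · have : 1 / 4 ≤ |α| * k := by nlinarith
      rw [sq]
      nlinarith

end BUni

open BUni in
theorem rUni : OfUni := by
  intro hT
  refine ⟨1 / 16, by norm_num, by norm_num, fun U k' hU hk => ?_⟩
  have U0 : (0 : ℝ) < U := Nat.cast_pos.2 (by omega)
  have pos : ∀ i, 0 ≤ sm (fun _ : range U => (1 : ℝ) / U) 1 i := fun i => by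
    unfold sm; positivity
  have tot : ∑ i, sm (fun _ : range U => (1 : ℝ) / U) 1 i = 1 := by simp [sm, U0.ne']
  obtain ⟨h1, -, h2⟩ := (hT _ (sm (fun _ : range U => (1 : ℝ) / U) 1)).2.2.2.2.2 ℤ
    (su (fun a : range U => id a.1) 1)
  refine ⟨pos, tot, fun i => ?_, h2 ⟨pos, tot.le⟩ 1 k' _ hk fun y => ?_, fun α hα => ?_⟩
  · have := mem_range.1 i.1.2
    simp only [su, id, Fin.val_eq_zero]
    omega
  · rw [h1 0]
    simp only [law, tm, univ_unique, sum_singleton, univ_eq_empty, prod_empty, sum_empty, one_mul]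
    simp only [ind, sm, su, id, Nat.cast_one, div_one, ← mul_sum, sum_boole, Fin.val_eq_zero]
    refine mul_le_of_le_one_right (by positivity) (Nat.cast_le_one.2 (card_le_one.2 ?_))
    intro a ha b hb
    have := (mem_filter.1 ha).2
    have := (mem_filter.1 hb).2
    exact Prod.ext (Subtype.ext (by omega)) (Subsingleton.elim _ _)
  · obtain ⟨h, hh, hy, hm⟩ := pick hU hα
    obtain ⟨n, rfl⟩ := Nat.exists_eq_add_of_le (by omega : h ≤ U)
    have hp := pair (by omega : h ≤ n) hy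
    have e : (ex (sm (fun _ : range (h + n) => (1 : ℝ) / (h + n : ℕ)) 1) fun i =>
        ee (α * su (fun a : range (h + n) => id a.1) 1 i)) =
        ((1 / (h + n : ℕ) : ℝ) : ℂ) * ∑ a ∈ range (h + n), ee (α * a) := by
      rw [← sum_coe_sort, mul_sum, ex, Fintype.sum_prod_type]
      simp [sm, su]
    rw [e, norm_mul, Complex.norm_real, Real.norm_of_nonneg (by positivity), one_div,
      inv_mul_le_iff₀ U0]
    push_cast at U0 hm ⊢
    exact hp.trans (mul_le_mul_of_nonneg_left (by linarith) U0.le)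

end Pool.Agent.MP_f3836a_nt.VE.BC
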