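import Pool.Agent.MP_f3836a_nt.VE.BTup
import Pool.Agent.MP_f3836a_nt.VE.BSm
import Pool.Agent.MP_f3836a_nt.VE.BAc
import Pool.Agent.MP_f3836a_nt.VE.BInv
import Pool.Agent.MP_f3836a_nt.VE.BLip
import Pool.Agent.MP_f3836a_nt.VE.BCheb
import Pool.Agent.MP_f3836a_nt.VE.BLow
import Pool.Agent.MP_f3836a_nt.VE.BCmp
import Pool.Agent.MP_f3836a_nt.VE.BUni
import Pool.Agent.MP_f3836a_nt.VE.BCo
import Pool.Agent.MP_f3836a_nt.VE.BGlue
import Pool.Agent.MP_f3836a_nt.VE.BArD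
import Pool.Agent.MP_f3836a_nt.VE.BArL
import Pool.Agent.MP_f3836a_nt.VE.BAr

/-! The exports of part B. -/

namespace Pool.Agent.MP_f3836a_nt.VE.BC

theorem bMain : BMain :=
  rBMain rTup rSm (rAc rTup rSm) (rLip rTup (rInv rTup))
    (rLow rTup (rLip rTup (rInv rTup)) (rCheb rTup)) (rCmp rTup (rInv rTup)) (rUni rTup) rCo

theorem arS : ArS := rAr rArD rArL

end Pool.Agent.MP_f3836a_nt.VE.BC
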