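import Pool.Agent.MP_f3836a_nt.VE.SpecB

/-! The logarithmic derivative of the archimedean term. -/

set_option autoImplicit false

namespace Pool.Agent.MP_f3836a_nt.VE.BC

open Finset Polynomial
open scoped ComplexConjugate

namespace BArD

/-- coefficientwise real part -/
noncomputable def rp (n : ℕ) (q : ℂ[X]) : ℝ[X] := ∑ i ∈ range n, monomial i (q.coeff i).re

theorem rp_coeff (n : ℕ) (q : ℂ[X]) (k : ℕ) :
    (rp n q).coeff k = if k < n then (q.coeff k).re else 0 := by
  simp [rp, coeff_monomial]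

theorem rp_eval (n : ℕ) (q : ℂ[X]) (h : q.natDegree < n) (t : ℝ) :
    (rp n q).eval t = (q.eval (t : ℂ)).re := by
  rw [eval_eq_sum_range' h, rp, eval_finsetSum, Complex.re_sum]
  refine sum_congr rfl fun i _ => ?_
  rw [eval_monomial, ← Complex.ofReal_pow, Complex.re_mul_ofReal]

theorem deriv_log (θ : ℂ) (t : ℝ) (h : (t : ℂ) - θ ≠ 0) :
    HasDerivAt (fun u : ℝ => Real.log ‖(u : ℂ) - θ‖) (((t : ℂ) - θ)⁻¹).re t := by
  have e : ∀ u : ℝ, Complex.normSq ((u : ℂ) - θ) = (u - θ.re) ^ 2 + θ.im ^ 2 := fun u => by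
    simp [Complex.normSq_apply, sq]
  have e2 : (fun u : ℝ => Real.log ‖(u : ℂ) - θ‖)
      = fun u => Real.log ((u - θ.re) ^ 2 + θ.im ^ 2) / 2 := by
    funext u
    rw [← e, Complex.normSq_eq_norm_sq, Real.log_pow]
    push_cast
    ring
  have h0 : (t - θ.re) ^ 2 + θ.im ^ 2 ≠ 0 := by
    rw [← e]
    exact fun a => h (Complex.normSq_eq_zero.1 a)
  have h1 : HasDerivAt (fun u : ℝ => (u - θ.re) ^ 2 + θ.im ^ 2) (2 * (t - θ.re)) t := by
    simpa using (((hasDerivAt_id t).sub_const θ.re).pow 2).add_const (θ.im ^ 2)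
  rw [e2, Complex.inv_re, e]
  refine ((h1.log h0).div_const 2).congr_deriv ?_
  rw [Complex.sub_re, Complex.ofReal_re]
  field_simp

theorem mem_rts {N : ℤ[X]} (hN : N.Monic) {θ : ℂ} : θ ∈ rts N ↔ aeval θ N = 0 := by
  rw [rts, Multiset.mem_toFinset, mem_aroots']
  exact and_iff_right (hN.map _).ne_zero

theorem conj_mem {N : ℤ[X]} (hN : N.Monic) {θ : ℂ} (h : θ ∈ rts N) : conj θ ∈ rts N := by
  rw [mem_rts hN] at h ⊢
  have := aeval_algHom_apply (starRingEnd ℂ).toIntAlgHom θ N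
  simpa [h] using this

theorem sum_conj {N : ℤ[X]} (hN : N.Monic) {M : Type} [AddCommMonoid M] (f : ℂ → M) :
    ∑ θ ∈ rts N, f (conj θ) = ∑ θ ∈ rts N, f θ :=
  sum_nbij' conj conj (fun _ h => conj_mem hN h) (fun _ h => conj_mem hN h) (by simp) (by simp)
    (by simp)

theorem cast_aeval (N : ℤ[X]) (t : ℝ) : ((aeval t N : ℝ) : ℂ) = aeval (t : ℂ) N :=
  (aeval_algHom_apply Complex.ofRealHom.toIntAlgHom t N).symm

/-- simple fractions are independent -/
theorem indep (R : Finset ℂ) (d : ℂ → ℂ)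
    (h : ∀ t : ℝ, (t : ℂ) ∉ R → ∑ θ ∈ R, d θ * ((t : ℂ) - θ)⁻¹ = 0) : ∀ θ ∈ R, d θ = 0 := by
  let S : ℂ[X] := ∑ θ ∈ R, C (d θ) * ∏ η ∈ R.erase θ, (X - C η)
  have hS : S = 0 := by
    refine eq_zero_of_infinite_isRoot S (Set.Infinite.mono ?_
      ((Set.infinite_range_of_injective Complex.ofReal_injective).sdiff R.finite_toSet))
    rintro _ ⟨⟨t, rfl⟩, ht⟩
    have h1 := congrArg (· * ∏ η ∈ R, ((t : ℂ) - η)) (h t ht)
    simp only [zero_mul, sum_mul] at h1
    simp only [Set.mem_ofPred_eq, IsRoot, S, eval_finsetSum, eval_mul, eval_C, eval_prod, eval_sub,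
      eval_X]
    rw [← h1]
    refine sum_congr rfl fun θ hθ => ?_
    have h2 : (t : ℂ) - θ ≠ 0 := sub_ne_zero.2 fun e => ht (e ▸ hθ)
    rw [← mul_prod_erase R _ hθ]
    field_simp
  intro θ hθ
  have h1 := congrArg (eval θ) hS
  simp only [S, eval_finsetSum, eval_mul, eval_C, eval_prod, eval_sub, eval_X, eval_zero] at h1
  rw [sum_eq_single θ (fun η _ hη => ?_) (fun a => absurd hθ a)] at h1
  · exact (mul_eq_zero.1 h1).resolve_right
      (prod_ne_zero_iff.2 fun η hη => sub_ne_zero.2 (ne_of_mem_erase hη).symm)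
  · rw [prod_eq_zero (mem_erase.2 ⟨hη.symm, hθ⟩) (sub_self θ), mul_zero]

end BArD

open BArD in
theorem rArD : ArDS := by
  intro N c s hN hn
  set n := N.natDegree with hnd
  let Nc : ℂ[X] := N.map (algebraMap ℤ ℂ)
  let Nr : ℝ[X] := N.map (algebraMap ℤ ℝ)
  have hNc : Nc.Monic := hN.map _
  have hNr : Nr.Monic := hN.map _
  have dc : Nc.natDegree = n := hN.natDegree_map _
  have dr : Nr.natDegree = n := hN.natDegree_map _
  have er : ∀ t : ℝ, Nr.eval t = aeval t N := fun t => eval_map_algebraMap N t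
  let q : ℂ → ℂ[X] := fun θ => Nc /ₘ (X - C θ)
  have hq : ∀ θ ∈ rts N, (X - C θ) * q θ = Nc := fun θ h =>
    mul_divByMonic_eq_iff_isRoot.2 ((eval_map_algebraMap N θ).trans ((mem_rts hN).1 h))
  have dq : ∀ θ, (q θ).natDegree = n - 1 := fun θ => by
    rw [natDegree_divByMonic _ (monic_X_sub_C θ), dc, natDegree_X_sub_C]
  have mq : ∀ θ ∈ rts N, (q θ).coeff (n - 1) = 1 := fun θ h => by
    rw [← dq θ]
    exact (monic_X_sub_C θ).of_mul_monic_left ((hq θ h).symm ▸ hNc)
  have nr : ∀ t : ℝ, aeval t N ≠ 0 → ∀ θ ∈ rts N, (t : ℂ) - θ ≠ 0 := fun t ht θ h e => by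
    rw [sub_eq_zero] at e
    rw [← e, mem_rts hN, ← cast_aeval] at h
    exact ht (Complex.ofReal_eq_zero.1 h)
  let P : ℝ[X] := ∑ θ ∈ rts N, C (c θ) * rp n (q θ) + C s * derivative Nr
  have key : ∀ t : ℝ, aeval t N ≠ 0 → P.eval t / aeval t N
      = ∑ θ ∈ rts N, c θ * (((t : ℂ) - θ)⁻¹).re + s * ((derivative Nr).eval t / aeval t N) := by
    intro t ht
    simp only [P, eval_add, eval_finsetSum, eval_mul, eval_C, add_div, sum_div, mul_div_assoc]
    congr 1
    refine sum_congr rfl fun θ h => ?_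
    have h1 := congrArg (eval (t : ℂ)) (hq θ h)
    rw [eval_mul, eval_sub, eval_X, eval_C, eval_map_algebraMap, ← cast_aeval] at h1
    rw [rp_eval n _ (by rw [dq]; omega), div_eq_mul_inv, ← Complex.re_mul_ofReal,
      Complex.ofReal_inv, ← h1]
    have h2 := nr t ht θ h
    have h3 : eval (t : ℂ) (q θ) ≠ 0 := fun e => ht (by
      rw [e, mul_zero] at h1
      exact Complex.ofReal_eq_zero.1 h1.symm)
    congr 2
    field_simp
  refine ⟨P, ?_, fun t ht => ?_, fun hP hc => ?_⟩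
  · refine lt_of_le_of_lt (natDegree_le_iff_coeff_eq_zero.2 fun k hk => ?_) (by omega : n - 1 < n)
    have h1 : Nr.coeff (k + 1) = 0 := coeff_eq_zero_of_natDegree_lt (by omega)
    have h2 : ¬k < n := by omega
    simp [P, rp_coeff, coeff_derivative, h1, h2]
  · rw [key t ht.ne']
    refine HasDerivAt.add (HasDerivAt.fun_sum fun θ h =>
      (deriv_log θ t (nr t ht.ne' θ h)).const_mul (c θ)) (HasDerivAt.const_mul s ?_)
    have h1 := (Nr.hasDerivAt t).log (by rw [er]; exact ht.ne')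
    simpa only [er] using h1
  · have hs : s = 0 := by
      have h1 := congrArg (coeff · (n - 1)) hP
      have h2 : Nr.coeff (n - 1 + 1) = 1 := by
        rw [Nat.sub_add_cancel hn, ← dr]
        exact hNr
      have h3 : n - 1 < n := by omega
      simp only [P, coeff_add, finsetSum_coeff, coeff_C_mul, rp_coeff, if_pos h3, coeff_derivative,
        h2, coeff_zero] at h1
      rw [sum_congr rfl fun θ h => by rw [mq θ h, Complex.one_re, mul_one], hc] at h1
      have h4 : ((n - 1 : ℕ) : ℝ) + 1 ≠ 0 := by positivity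
      simpa [h4] using h1
    have hd := indep (rts N) (fun θ => ((c θ + c (conj θ) : ℝ) : ℂ)) fun t ht => by
      have ht' : aeval t N ≠ 0 := fun e => ht (by rw [mem_rts hN, ← cast_aeval, e]; simp)
      have h1 := key t ht'
      rw [hP, hs, eval_zero, zero_div, zero_mul, add_zero] at h1
      have h2 := sum_conj hN fun θ => (c (conj θ) : ℂ) * ((t : ℂ) - θ)⁻¹
      simp only [Complex.ofReal_add, add_mul, sum_add_distrib, ← h2, Complex.conj_conj]
      rw [← sum_add_distrib]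
      have h3 := congrArg (fun x : ℝ => ((2 * x : ℝ) : ℂ)) h1
      simp only [mul_zero, Complex.ofReal_zero, mul_sum, Complex.ofReal_sum] at h3
      rw [h3]
      refine sum_congr rfl fun θ _ => ?_
      have h4 : ((t : ℂ) - conj θ)⁻¹ = conj (((t : ℂ) - θ)⁻¹) := by simp
      rw [h4, ← mul_add, Complex.add_conj]
      push_cast
      ring
    refine ⟨hs, fun t => ?_⟩
    have h2 := sum_conj hN fun θ => c (conj θ) * Real.log ‖(t : ℂ) - θ‖
    have h3 : ∀ θ : ℂ, ‖(t : ℂ) - conj θ‖ = ‖(t : ℂ) - θ‖ := fun θ => by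
      rw [← Complex.norm_conj ((t : ℂ) - θ)]
      simp
    simp only [Complex.conj_conj, h3] at h2
    have h4 : ug N c t + ug N c t = 0 := by
      unfold ug
      nth_rewrite 2 [h2]
      rw [← sum_add_distrib]
      refine sum_eq_zero fun θ h => ?_
      rw [← add_mul, Complex.ofReal_eq_zero.1 (hd θ h), zero_mul]
    linarith

end Pool.Agent.MP_f3836a_nt.VE.BC
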