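import Pool.Agent.MP_f3836a_nt.VE.SpecB

/-! Riemann sums of the tent function. -/

set_option autoImplicit false

namespace Pool.Agent.MP_f3836a_nt.VE.BC

open MeasureTheory Set Metric

namespace BRs

theorem lip (a b : ℂ) : |tent a - tent b| ≤ |a.re - b.re| + |a.im - b.im| := by
  unfold tent
  rw [max_comm 0, max_comm 0]
  refine (abs_max_sub_max_le_abs _ _ _).trans ?_
  rw [sub_sub_sub_cancel_left, abs_sub_comm]
  exact (abs_norm_sub_norm_le a b).trans (Complex.norm_le_abs_re_add_abs_im (a - b))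

theorem zero {a : ℂ} (h : 1 ≤ |a.re| ∨ 1 ≤ |a.im|) : tent a = 0 :=
  max_eq_left (by
    rcases h with h | h
    exacts [by linarith [Complex.abs_re_le_norm a], by linarith [Complex.abs_im_le_norm a]])

theorem far {z : ℝ × ℝ} (h : z ∉ closedBall (0 : ℝ × ℝ) 2) : 2 < |z.1| ∨ 2 < |z.2| := by
  simpa [Prod.norm_def, not_and_or, -not_and] using h

theorem cont : Continuous fun z : ℝ × ℝ => tent ⟨z.1, z.2⟩ := by
  have : Continuous fun z : ℝ × ℝ => (⟨z.1, z.2⟩ : ℂ) := Complex.equivRealProdCLM.symm.continuous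
  unfold tent
  fun_prop

theorem supp : HasCompactSupport fun z : ℝ × ℝ => tent ⟨z.1, z.2⟩ :=
  HasCompactSupport.intro (isCompact_closedBall 0 2) fun _ hz =>
    zero ((far hz).imp (fun h => by linarith) fun h => by linarith)

theorem fl {d x0 x : ℝ} (hd : 0 < d) (n : ℤ) :
    x ∈ Ico (x0 + n * d) (x0 + n * d + d) ↔ n = ⌊(x - x0) / d⌋ := by
  rw [eq_comm, Int.floor_eq_iff, le_div_iff₀ hd, div_lt_iff₀ hd, mem_Ico]
  constructor <;> rintro ⟨a, b⟩ <;> constructor <;> linarith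

theorem near {d x0 x : ℝ} (hd : 0 < d) : |x0 + ⌊(x - x0) / d⌋ * d - x| ≤ d := by
  obtain ⟨a, b⟩ := (fl (x0 := x0) (x := x) hd _).2 rfl
  exact abs_le.2 ⟨by linarith, by linarith⟩

end BRs

open BRs in
theorem rRs : RsS := by
  refine ⟨∫ z : ℝ × ℝ, tent ⟨z.1, z.2⟩, volume.real (closedBall (0 : ℝ × ℝ) 2),
    cont.integral_pos_of_hasCompactSupport_nonneg_nonzero (x := 0) supp
      (fun _ => le_max_left _ _) (by simp [tent, show (⟨0, 0⟩ : ℂ) = 0 from rfl]),
    measureReal_nonneg, fun d1 d2 x0 y0 S h1 k1 h2 k2 hS => ?_⟩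
  set T : ℤ × ℤ → Set (ℝ × ℝ) := fun p =>
    Ico (x0 + p.1 * d1) (x0 + p.1 * d1 + d1) ×ˢ Ico (y0 + p.2 * d2) (y0 + p.2 * d2 + d2) with hT
  have mT : ∀ p, MeasurableSet (T p) := fun p => measurableSet_Ico.prod measurableSet_Ico
  have vT : ∀ p, volume (T p) = ENNReal.ofReal (d1 * d2) := fun p => by
    rw [hT, Measure.volume_eq_prod, Measure.prod_prod, Real.volume_Ico, Real.volume_Ico,
      add_sub_cancel_left, add_sub_cancel_left, ENNReal.ofReal_mul h1.le]
  have iT : ∀ p ∈ S, Integrable ((T p).indicator fun _ => tent ⟨x0 + p.1 * d1, y0 + p.2 * d2⟩) :=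
    fun p _ => (integrable_indicator_iff (mT p)).2 (integrableOn_const (by simp [vT]))
  have e : d1 * d2 * ∑ p ∈ S, tent ⟨x0 + p.1 * d1, y0 + p.2 * d2⟩ =
      ∫ z, ∑ p ∈ S, (T p).indicator (fun _ => tent ⟨x0 + p.1 * d1, y0 + p.2 * d2⟩) z := by
    rw [integral_finsetSum _ iT, Finset.mul_sum]
    refine Finset.sum_congr rfl fun p _ => ?_
    rw [integral_indicator_const _ (mT p), Measure.real, vT, ENNReal.toReal_ofReal (by positivity),
      smul_eq_mul]
  have g : ∀ z : ℝ × ℝ, ∑ p ∈ S, (T p).indicator (fun _ => tent ⟨x0 + p.1 * d1, y0 + p.2 * d2⟩) z =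
      tent ⟨x0 + ⌊(z.1 - x0) / d1⌋ * d1, y0 + ⌊(z.2 - y0) / d2⌋ * d2⟩ := fun z => by
    rw [Finset.sum_eq_single (⌊(z.1 - x0) / d1⌋, ⌊(z.2 - y0) / d2⌋)]
    · exact indicator_of_mem (show z ∈ T _ from ⟨(fl h1 _).2 rfl, (fl h2 _).2 rfl⟩) _
    · exact fun p _ hp => indicator_of_notMem
        (fun a => hp (Prod.ext ((fl h1 _).1 a.1) ((fl h2 _).1 a.2))) _
    · refine fun a => indicator_apply_eq_zero.2 fun _ => max_eq_left ?_
      linarith [not_lt.1 (mt (hS _) a)]
  have mB : MeasurableSet (closedBall (0 : ℝ × ℝ) 2) := measurableSet_closedBall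
  rw [e, ← integral_sub (integrable_finsetSum _ iT) (cont.integrable_of_hasCompactSupport supp),
    ← smul_eq_mul, ← integral_indicator_const _ mB, ← Real.norm_eq_abs]
  refine norm_integral_le_of_norm_le ((integrable_indicator_iff mB).2
    (integrableOn_const measure_closedBall_lt_top.ne)) (ae_of_all _ fun z => ?_)
  have n1 := near (x0 := x0) (x := z.1) h1
  have n2 := near (x0 := y0) (x := z.2) h2
  rw [g, Real.norm_eq_abs]
  by_cases hz : z ∈ closedBall (0 : ℝ × ℝ) 2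
  · rw [indicator_of_mem hz]
    exact (lip _ _).trans (add_le_add n1 n2)
  · have a1 := abs_sub_abs_le_abs_sub z.1 (x0 + ⌊(z.1 - x0) / d1⌋ * d1)
    have a2 := abs_sub_abs_le_abs_sub z.2 (y0 + ⌊(z.2 - y0) / d2⌋ * d2)
    rw [abs_sub_comm] at n1 n2
    rw [indicator_of_notMem hz, zero ((far hz).imp (fun h => by linarith) fun h => by linarith),
      zero ((far hz).imp (fun h => by linarith) fun h => by linarith)]
    simp

end Pool.Agent.MP_f3836a_nt.VE.BC
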