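import Pool.Agent.MP_f3836a_nt.VE.SpecB

/-! Calculus of weighted tuples. -/

set_option autoImplicit false

namespace Pool.Agent.MP_f3836a_nt.VE.BC

open Finset

namespace BTup

variable {ι : Type} [Fintype ι] (μ : ι → ℝ)

theorem ind_nonneg (p : Prop) : 0 ≤ ind p := by
  unfold ind
  split_ifs <;> norm_num

theorem t1 (j : ℕ) (f : ι → ℂ) :
    ∑ s : Fin j → ι, ((∏ i, μ (s i) : ℝ) : ℂ) * ∏ i, f (s i) = ex μ f ^ j := by
  unfold ex
  rw [Fintype.sum_pow]
  refine sum_congr rfl fun s _ => ?_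
  rw [prod_mul_distrib]
  push_cast
  rfl

theorem t2 (a b : ℕ) (F : (Fin (a + b) → ι) → ℝ) :
    tm μ (a + b) F = tm μ a fun s => tm μ b fun t => F (Fin.append s t) := by
  unfold tm
  rw [← (Fin.appendEquiv a b).sum_comp, Fintype.sum_prod_type]
  refine sum_congr rfl fun s _ => ?_
  rw [mul_sum]
  refine sum_congr rfl fun t _ => ?_
  have h : (Fin.appendEquiv a b) (s, t) = Fin.append s t := rfl
  rw [h, Fin.prod_univ_add]
  simp only [Fin.append_left, Fin.append_right]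
  ring

theorem t3 (j : ℕ) (σ : Equiv.Perm (Fin j)) (F : (Fin j → ι) → ℝ) :
    tm μ j (fun s => F (s ∘ σ)) = tm μ j F := by
  unfold tm
  refine Fintype.sum_equiv (Equiv.arrowCongr σ.symm (Equiv.refl ι)) _ _ fun s => ?_
  have h : (Equiv.arrowCongr σ.symm (Equiv.refl ι)) s = s ∘ σ := by
    ext i
    simp
  rw [h]
  congr 1
  exact (Equiv.prod_comp σ fun i => μ (s i)).symm

theorem t4 (j : ℕ) (c : ℝ) : tm μ j (fun _ => c) = (∑ i, μ i) ^ j * c := by
  unfold tm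
  rw [Fintype.sum_pow, sum_mul]

theorem t5 (h : ∀ i, 0 ≤ μ i) (j : ℕ) (F F' : (Fin j → ι) → ℝ) (hF : ∀ s, F s ≤ F' s) :
    tm μ j F ≤ tm μ j F' :=
  sum_le_sum fun s _ => mul_le_mul_of_nonneg_left (hF s) (prod_nonneg fun i _ => h (s i))

variable {Γ : Type} [AddCommGroup Γ] (X : ι → Γ)

theorem t6 (j : ℕ) (y : Γ) : law μ X (j + 1) y = ∑ i, μ i * law μ X j (y - X i) := by
  unfold law tm
  rw [← (Fin.consEquiv fun _ : Fin (j + 1) => ι).sum_comp, Fintype.sum_prod_type]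
  refine sum_congr rfl fun x _ => ?_
  rw [mul_sum]
  refine sum_congr rfl fun s _ => ?_
  have h : (Fin.consEquiv fun _ : Fin (j + 1) => ι) (x, s) = Fin.cons x s := rfl
  rw [h, Fin.prod_univ_succ]
  simp only [Fin.sum_univ_succ, Fin.cons_zero, Fin.cons_succ]
  have e : (X x + ∑ i, X (s i) = y) = (∑ i, X (s i) = y - X x) :=
    propext ⟨fun h => by rw [← h]; abel, fun h => by rw [h]; abel⟩
  rw [e]
  ring

theorem t7 (j : ℕ) (S : Finset Γ) (F : Γ → ℝ)
    (hS : ∀ s : Fin j → ι, F (∑ i, X (s i)) ≠ 0 → ∑ i, X (s i) ∈ S) :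
    tm μ j (fun s => F (∑ i, X (s i))) = ∑ y ∈ S, law μ X j y * F y := by
  classical
  unfold law tm
  simp only [sum_mul]
  rw [sum_comm]
  refine sum_congr rfl fun s _ => ?_
  simp only [mul_assoc]
  rw [← mul_sum]
  congr 1
  by_cases hm : ∑ i, X (s i) ∈ S
  · rw [sum_eq_single_of_mem _ hm]
    · simp [ind]
    · intro y _ hy
      simp [ind, hy.symm]
  · have h0 : F (∑ i, X (s i)) = 0 := by
      by_contra h
      exact hm (hS s h)
    rw [h0]
    refine (sum_eq_zero fun y hy => ?_).symm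
    have : ∑ i, X (s i) ≠ y := fun h => hm (h ▸ hy)
    simp [ind, this]

theorem law_nonneg (h : ∀ i, 0 ≤ μ i) (j : ℕ) (y : Γ) : 0 ≤ law μ X j y :=
  sum_nonneg fun s _ => mul_nonneg (prod_nonneg fun i _ => h (s i)) (ind_nonneg _)

theorem t8 (h : Sb μ) (k j : ℕ) (D : ℝ) (hkj : k ≤ j) (hD : ∀ y, law μ X k y ≤ D) :
    ∀ y, law μ X j y ≤ D := by
  have hD0 : 0 ≤ D := (law_nonneg μ X h.1 k 0).trans (hD 0)
  induction j, hkj using Nat.le_induction with
  | base => exact hD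
  | succ j _ ih =>
    intro y
    rw [t6]
    calc ∑ i, μ i * law μ X j (y - X i) ≤ ∑ i, μ i * D :=
          sum_le_sum fun i _ => mul_le_mul_of_nonneg_left (ih _) (h.1 i)
      _ = (∑ i, μ i) * D := by rw [sum_mul]
      _ ≤ 1 * D := mul_le_mul_of_nonneg_right h.2 hD0
      _ = D := one_mul D

end BTup

theorem rTup : TupS := fun _ _ μ =>
  ⟨BTup.t1 μ, BTup.t2 μ, BTup.t3 μ, BTup.t4 μ, BTup.t5 μ, fun _ _ X =>
    ⟨BTup.t6 μ X, BTup.t7 μ X, BTup.t8 μ X⟩⟩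

end Pool.Agent.MP_f3836a_nt.VE.BC
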