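import Pool.Agent.MP_f3836a_nt.VE.SpecC

/-! The analytic core. -/

set_option autoImplicit false

namespace Pool.Agent.MP_f3836a_nt.VE.BC

open Finset

namespace CAn

theorem prime {η : ℝ} (h0 : 0 < η) (h1 : η ≤ 1) :
    ∃ N : ℕ, N.Prime ∧ 1 ≤ η * N ∧ η * N ≤ 4 := by
  have hp : 0 < 1 / η := by positivity
  obtain ⟨N, hN, a, b⟩ := Nat.exists_prime_lt_and_le_two_mul ⌈1 / η⌉₊ (Nat.ceil_pos.2 hp).ne'
  have e : η * (1 / η) = 1 := by field_simp
  have a' : 1 / η ≤ N := (Nat.le_ceil _).trans (by exact_mod_cast a.le)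
  have b1 : (N : ℝ) ≤ 2 * ⌈1 / η⌉₊ := by exact_mod_cast b
  have b' : (N : ℝ) ≤ 2 * (1 / η + 1) := by linarith [Nat.ceil_lt_add_one hp.le]
  exact ⟨N, hN, by nlinarith, by nlinarith⟩

variable {ι G : Type} [Fintype ι] [AddCommGroup G]

omit [Fintype ι] in
theorem sum_tri (u : ι → ℕ) (J N : ℕ) (th : ι → ℤ) (x : ι → G) {j : ℕ} (s : Fin j → ι × Fin J) :
    ∑ i, tri u J N th x (s i) =
      (∑ i, su u J (s i), ∑ i, (th (s i).1 : ZMod N), ∑ i, x (s i).1) := by
  ext <;> simp [tri, Prod.fst_sum, Prod.snd_sum]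

theorem marg (hT : TupS) [Finite G] (μ : ι → ℝ) (u : ι → ℕ) (J N : ℕ) [NeZero N] (th : ι → ℤ)
    (x : ι → G) (j : ℕ) (D : ℝ) (h : ∀ y, law (sm μ J) (tri u J N th x) j y ≤ D) (v : ℤ) :
    law (sm μ J) (su u J) j v ≤ N * Nat.card G * D := by
  classical
  have := Fintype.ofFinite G
  have e := ((hT _ (sm μ J)).2.2.2.2.2 _ (tri u J N th x)).2.1 j ({v} ×ˢ univ)
    (fun y => ind (y.1 = v)) fun s hs => by
      by_contra hn
      exact hs (if_neg fun e => hn (mem_product.2 ⟨mem_singleton.2 e, mem_univ _⟩))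
  simp only [sum_tri] at e
  refine le_of_eq_of_le e ((sum_le_card_nsmul _ _ D fun y hy => ?_).trans_eq ?_)
  · have : y.1 = v := mem_singleton.1 (mem_product.1 hy).1
    simpa [ind, this] using h y
  · simp [Nat.card_eq_fintype_card, ZMod.card]

theorem conv (hT : TupS) (μ : ι → ℝ) (u : ι → ℕ) (J N : ℕ) (th : ι → ℤ) (x : ι → G) (j : ℕ)
    (g : G) (f : ℤ → ZMod N → ℝ) (S : Finset (ℤ × ZMod N)) (hS : ∀ p : ℤ × ZMod N, f p.1 p.2 ≠ 0 → p ∈ S) :
    (tm (sm μ J) j fun s => ind (∑ i, x (s i).1 = g) *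
      f (∑ i, su u J (s i)) (∑ i, (th (s i).1 : ZMod N))) =
    ∑ p ∈ S, law (sm μ J) (tri u J N th x) j (p.1, p.2, g) * f p.1 p.2 := by
  have e := ((hT _ (sm μ J)).2.2.2.2.2 _ (tri u J N th x)).2.1 j
    (S.map ⟨fun p => (p.1, p.2, g), fun p q h => by
      simp only [Prod.mk.injEq] at h
      exact Prod.ext h.1 h.2.1⟩)
    (fun y => ind (y.2.2 = g) * f y.1 y.2.1) fun s hs => by
      generalize ∑ i, tri u J N th x (s i) = y at hs ⊢
      have h1 : y.2.2 = g := by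
        by_contra hn
        exact hs (by simp [ind, hn])
      exact mem_map.2 ⟨(y.1, y.2.1), hS _ (right_ne_zero_of_mul hs), by simp [← h1]⟩
  simp only [sum_tri, sum_map] at e
  simpa [ind] using e

end CAn

open CAn

theorem rAn : OfAn := fun hT _ hL hC hA hB cτ Cτ h1 h2 hR k' C hk' hC0 => by
  obtain ⟨J0, c, hc0, hc1, hL⟩ := hL k' (784 * k' ^ 2 * C) hk'
  obtain ⟨CB, hCB, hB⟩ := hB cτ Cτ h1 h2 hR
  set C2 : ℝ := 784 * k' ^ 2 * C with hC2
  have hC20 : 0 ≤ C2 := by positivity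
  have hCC : 0 ≤ CB * C2 := by positivity
  refine ⟨J0 + 1, c, 1 + C2 + 200 * C + CB * C2 + CB, by omega, hc0, hc1, by linarith,
    fun J k hJ => ?_⟩
  have hJ1 : (1 : ℝ) ≤ J := by exact_mod_cast (show 1 ≤ J by omega)
  have hk1 : (1 : ℝ) ≤ k' := by exact_mod_cast hk'
  have hM : (0 : ℝ) < 64 * (k + 1) * J * (k' * J) := by positivity
  refine ⟨1 / (64 * (k + 1) * J * (k' * J)), by positivity,
    fun ι G _ _ _ μ x lam u U L η hμ hJU hu hη hη1 hcel hD => ?_⟩
  have key : ∀ y : ℝ, 0 < y → y ≤ 1 / (64 * (k + 1) * J * (k' * J)) →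
      64 * (k + 1) * J * y ≤ 1 ∧ 28 * k' * y ≤ 1 ∧ J * y ≤ 1 := fun y h0 h => by
    rw [le_div_iff₀ hM] at h
    have a1 : (1 : ℝ) ≤ k' * J := one_le_mul_of_one_le_of_one_le hk1 hJ1
    have a2 : (1 : ℝ) ≤ (k + 1) * J := one_le_mul_of_one_le_of_one_le (by linarith [k.cast_nonneg (α := ℝ)]) hJ1
    have a3 : 64 * (k' * J * y) ≤ 1 := by nlinarith [mul_pos (zero_lt_one.trans_le a1) h0]
    refine ⟨by nlinarith [mul_pos (zero_lt_one.trans_le a2) h0], ?_, ?_⟩
    · nlinarith [mul_pos (zero_lt_one.trans_le hk1) h0]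
    · nlinarith [mul_pos (zero_lt_one.trans_le hJ1) h0]
  obtain ⟨-, e2, e3⟩ := key η hη hη1
  obtain ⟨N, hN, n1, n4⟩ := prime hη (by nlinarith)
  have hN0 : (0 : ℝ) < N := by exact_mod_cast hN.pos
  have : NeZero N := ⟨hN.ne_zero⟩
  have hU0 : (0 : ℝ) < U := by exact_mod_cast (show 0 < U by omega)
  have hG : (0 : ℝ) < Nat.card G := by exact_mod_cast Nat.card_pos
  have hJN : J0 ≤ N := by
    have : (J : ℝ) ≤ N := by nlinarith
    have : J ≤ N := by exact_mod_cast this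
    omega
  obtain ⟨th, hRp, hlaw⟩ := hC ι G μ x lam u k' J N L η _ hμ hk' (by omega) hη e2 n1 hcel hD
  have hlaw' : ∀ y, law (sm μ J) (tri u J N th x) k' y ≤ C2 / (U * N * Nat.card G) := fun y => by
    refine (hlaw y).trans ?_
    rw [show C / (Nat.card G * (U * η)) * (14 * k' * η) ^ 2 =
      196 * k' ^ 2 * C * (η * N) / (U * N * Nat.card G) by field_simp; ring]
    refine div_le_div_of_nonneg_right ?_ (by positivity)
    nlinarith [mul_nonneg (sq_nonneg (k' : ℝ)) hC0]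
  refine ⟨fun v => (marg hT μ u J N th x k' _ hlaw' v).trans ?_,
    fun B cc j g κ β d r fm ε hd0 hd1 hB1 hB2 hj hjk hg hκ hr hrβ hηr hfm hε hv => ?_⟩
  · rw [show (N : ℝ) * Nat.card G * (C2 / (U * N * Nat.card G)) = C2 / U by field_simp]
    exact div_le_div_of_nonneg_right (by linarith) hU0.le
  have hβ : 0 < ‖β‖ := by
    by_contra hn
    rw [le_antisymm (not_lt.1 hn) (norm_nonneg β)] at hrβ
    linarith
  have hβ' : β ≠ 0 := norm_pos_iff.1 hβ
  set δ := r / ‖β‖ with hδ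
  have hδ0 : 0 < δ := by positivity
  obtain ⟨f1, -, -⟩ := key δ hδ0 (by rwa [hδ, div_le_iff₀ hβ])
  have hjk' : (j : ℝ) ≤ k := by exact_mod_cast hjk
  have hJδ : 0 < J * δ := by positivity
  have f2 : 64 * (j + 1) * J * δ ≤ 1 := by nlinarith
  have f3 : 8 * δ ≤ 1 := by nlinarith [mul_nonneg (j.cast_nonneg (α := ℝ)) hJδ.le]
  have hx : κ * Complex.exp (j * L / 2) ≠ 0 := mul_ne_zero hκ (Complex.exp_ne_zero _)
  set w0 := Complex.log (β / (κ * Complex.exp (j * L / 2))) with hw0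
  have hw : κ * Complex.exp (j * L / 2 + w0) = β := by
    rw [Complex.exp_add, hw0, Complex.exp_log (div_ne_zero hβ' hx), ← mul_assoc,
      mul_div_cancel₀ _ hx]
  have hre : 2 * w0.re = Real.log (‖β‖ ^ 2) - Real.log (‖κ‖ ^ 2) - j * L := by
    have hκ' : ‖κ‖ ≠ 0 := norm_ne_zero_iff.2 hκ
    have : ‖β‖ = ‖κ‖ * Real.exp (j * L / 2 + w0.re) := by
      rw [← hw, norm_mul, Complex.norm_exp]
      simp
    rw [Real.log_pow, Real.log_pow, this, Real.log_mul hκ' (Real.exp_ne_zero _), Real.log_exp]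
    push_cast
    ring
  have r1 := hA ι G μ x lam u th k' j J N L η _ r g κ β w0 hμ (by omega) hN.pos hRp hD (by omega)
    hr hη hηr f2 hw
  obtain ⟨S, hS, r2⟩ := hB η δ N w0 hη hδ0 hηr f3 n1
  set θ := (1 - c * d ^ 2) ^ (j - 2 * k') with hθ
  have hθ0 : 0 ≤ θ := pow_nonneg (by nlinarith [mul_le_one₀ hc1 (sq_nonneg d) (pow_le_one₀ hd0.le hd1)]) _
  have r3 := r2 (fun p => law (sm μ J) (tri u J N th x) j (p.1, p.2, g))
    (B.card * fm / (U * N * Nat.card G)) ((θ * C2 + B.card * fm * ε) / (U * N * Nat.card G))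
    (by positivity) (by positivity) fun p hp => by
      have l1 := hL ι G μ u th x U J N d (by omega) hJU hN hJN hμ hu hlaw' hd0 hd1 B cc j g hB1 hB2
        hj hg p.1 p.2
      have l2 := hv p.1 (by rwa [← hre])
      refine (abs_sub_le _ (B.card / (N * Nat.card G) * law (sm μ J) (su u J) j p.1) _).trans ?_
      rw [add_div]
      refine add_le_add (l1.trans_eq (by ring)) ?_
      rw [show B.card / ((N : ℝ) * Nat.card G) * law (sm μ J) (su u J) j p.1 -
        B.card * fm / (U * N * Nat.card G) =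
          B.card / (U * N * Nat.card G) * (U * law (sm μ J) (su u J) j p.1 - fm) by field_simp,
        abs_mul, abs_of_nonneg (by positivity)]
      exact (mul_le_mul_of_nonneg_left l2 (by positivity)).trans_eq (by ring)
  rw [← conv hT μ u J N th x j g _ S hS] at r3
  set Z := δ ^ 2 / (Nat.card G * (U * η)) with hZ
  have hZ0 : 0 ≤ Z := by positivity
  rw [show C / (Nat.card G * (U * η)) * δ ^ 2 = C * Z by rw [hZ]; ring] at r1
  rw [show B.card * fm / ((U : ℝ) * N * Nat.card G) * (cτ * δ ^ 2 * N / (Real.pi * η)) =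
      B.card * fm * cτ / Real.pi * Z by rw [hZ]; field_simp,
    show CB * ((θ * C2 + B.card * fm * ε) / ((U : ℝ) * N * Nat.card G) +
      B.card * fm / (U * N * Nat.card G) * δ) * (δ ^ 2 * N / η) =
      (CB * C2 * θ + CB * (B.card * fm * (ε + δ))) * Z by rw [hZ]; field_simp; ring] at r3
  refine ((abs_sub_le _ _ _).trans (add_le_add r1 r3)).trans ?_
  rw [show 200 * j * J * δ * (C * Z) = 200 * C * (j * (J * δ)) * Z by ring, ← add_mul]
  refine mul_le_mul_of_nonneg_right ?_ hZ0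
  have p1 : 0 ≤ B.card * fm * (ε + δ) := by positivity
  have p2 : j * (J * δ) ≤ k * J * δ := by nlinarith
  have p3 : 0 ≤ j * (J * δ) := by positivity
  generalize B.card * fm * (ε + δ) = a at p1 ⊢
  generalize j * (J * δ) = b at p2 p3 ⊢
  generalize k * J * δ = b' at p2 ⊢
  have q1 : CB * a ≤ (1 + C2 + 200 * C + CB * C2 + CB) * a :=
    mul_le_mul_of_nonneg_right (by linarith) p1
  have q2 : CB * C2 * θ ≤ (1 + C2 + 200 * C + CB * C2 + CB) * θ :=
    mul_le_mul_of_nonneg_right (by linarith) hθ0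
  have q3 : 200 * C * b ≤ (1 + C2 + 200 * C + CB * C2 + CB) * b' :=
    mul_le_mul (by linarith) p2 p3 (by linarith)
  linarith

end Pool.Agent.MP_f3836a_nt.VE.BC
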