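import Pool.Agent.MP_f3836a_nt.VE.SpecC

/-! Orders of the ray class groups. -/

set_option autoImplicit false

namespace Pool.Agent.MP_f3836a_nt.VE.BC

open Finset Pool.Agent.MP_c481b3_nt.H28.W

namespace CCard

open Classical in
theorem key {A W Q : ℕ} {π : RC A Q →+ RC A W} (h : IsPr A W Q π) :
    Nat.card (RC A Q) = Nat.card (RC A W) * ((US A W Q).image (io Q)).card ∧
      ((US A W Q).image (io Q)).card ≠ 0 := by
  have hk : ∀ g, g ∈ (US A W Q).image (io Q) ↔ g ∈ π.ker := by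
    intro g
    rw [AddMonoidHom.mem_ker, h.ker, mem_image]
    exact ⟨fun ⟨c, h1, h2⟩ => ⟨c, h1, h2.symm⟩, fun ⟨c, h1, h2⟩ => ⟨c, h1, h2.symm⟩⟩
  refine ⟨?_, card_ne_zero.2 ⟨0, (hk 0).2 π.ker.zero_mem⟩⟩
  rw [AddSubgroup.card_eq_card_quotient_mul_card_addSubgroup π.ker,
    Nat.card_congr (QuotientAddGroup.quotientKerEquivOfSurjective π h.surj).toEquiv,
    ← Nat.card_eq_finsetCard]
  congr 1
  exact Nat.card_congr (Equiv.subtypeEquivRight fun g => (hk g).symm)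

theorem not_dvd {A W : ℕ} (hW : 3 ≤ W) {k : ℕ} (h0 : 0 < k) (h2 : k ≤ 2) :
    ¬(W : O A) ∣ (k : O A) := by
  intro h
  have h' : ((W : ℤ) : O A) ∣ ((k : ℤ) : O A) := by simpa using h
  rw [Zsqrtd.intCast_dvd_intCast, Int.natCast_dvd_natCast] at h'
  have := Nat.le_of_dvd h0 h'
  omega

theorem inj (hB : BasS) {A W Q : ℕ} (hA : 1 < A) (hW : 3 ≤ W) (hWQ : W ∣ Q) :
    Set.InjOn (io Q) (US A W Q : Set (O A)) := by
  classical
  haveI : Fact (1 < A) := ⟨hA⟩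
  obtain ⟨h1, -, -, h4, -⟩ := hB A Q (fun _ => 0) hA
  intro c hc c' hc' e
  rw [mem_coe, US, mem_filter, mem_image] at hc hc'
  obtain ⟨⟨v, hv, rfl⟩, hc1, hc2⟩ := hc
  obtain ⟨⟨v', hv', rfl⟩, hc1', hc2'⟩ := hc'
  have h0 : (⟨v.1, v.2⟩ : O A) ≠ 0 := by
    intro h0
    rw [h0, zero_sub, dvd_neg] at hc1
    exact not_dvd hW one_pos one_le_two (by simpa using hc1)
  obtain ⟨β, hβ, hs⟩ := (h4 _ ((h1 _).2 ⟨h0, hc2⟩) _ hc2').1 e
  obtain ⟨u, hu⟩ := Ideal.span_singleton_eq_span_singleton.1 hs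
  rcases unit_O u.isUnit with h | h
  · rw [h, mul_one] at hu
    rw [← hu] at hβ
    have h' : ((Q : ℤ) : O A) ∣ (⟨v.1, v.2⟩ : O A) - ⟨v'.1, v'.2⟩ := by simpa using hβ
    rw [Zsqrtd.intCast_dvd] at h'
    simp only [mem_product, mem_range] at hv hv'
    have e1 : v'.1 ≡ v.1 [MOD Q] := Nat.modEq_iff_dvd.2 (by simpa using h'.1)
    have e2 : v'.2 ≡ v.2 [MOD Q] := Nat.modEq_iff_dvd.2 (by simpa using h'.2)
    rw [Nat.ModEq.eq_of_lt_of_lt e1 hv'.1 hv.1, Nat.ModEq.eq_of_lt_of_lt e2 hv'.2 hv.2]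
  · exfalso
    rw [h] at hu
    rw [← hu] at hβ
    have h3 := ((Nat.cast_dvd_cast hWQ).trans hβ).add (hc1.add hc1')
    refine not_dvd (A := A) hW two_pos le_rfl (dvd_neg.1 ?_)
    rwa [show (⟨v.1, v.2⟩ : O A) * -1 - ⟨v'.1, v'.2⟩ + (⟨v.1, v.2⟩ - 1 + (⟨v'.1, v'.2⟩ - 1))
      = -((2 : ℕ) : O A) by push_cast; ring] at h3

end CCard

theorem rCard : OfCard := by
  classical
  intro hB hC hP hF hN A W Q hA hWQ hQ
  obtain ⟨π, hπ⟩ := hP A W Q hA hWQ hQ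
  obtain ⟨π1, hπ1⟩ := hP A 1 Q hA (one_dvd Q) hQ
  have hf := hF A W Q hWQ hQ
  have hk := (CCard.key hπ).1
  refine ⟨?_, ?_, fun hW => ?_⟩
  · have := (hC A hA).1
    refine Nat.finite_of_card_ne_zero ?_
    rw [(CCard.key hπ1).1]
    exact mul_ne_zero Nat.card_pos.ne' (CCard.key hπ1).2
  · rw [hk, mul_assoc (Nat.card (RC A W) : ℝ), ← hf, Nat.cast_mul, mul_assoc]
    have : (((US A W Q).image (io Q)).card : ℝ) ≤ (US A W Q).card := by
      exact_mod_cast card_image_le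
    gcongr
  · rw [card_image_of_injOn (CCard.inj hB hA hW hWQ)] at hk
    have e : sd A (Q.primeFactors.filter fun l => ¬l ∣ W) * rat A W Q = 1 := by
      rw [sd, rat, ← prod_mul_distrib]
      refine prod_eq_one fun l hl => mul_inv_cancel₀ ?_
      exact (hN A l (Nat.prime_of_mem_primeFactors (mem_filter.1 hl).1)).2.2.2.1.ne'
    rw [hk, Nat.cast_mul]
    linear_combination (Nat.card (RC A W) : ℝ) * rat A W Q * hf
      + (Nat.card (RC A W) : ℝ) * (Q : ℝ) ^ 2 * e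

end Pool.Agent.MP_f3836a_nt.VE.BC
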