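import Pool.Agent.MP_f3836a_nt.VE.SpecC

/-! Rough elements of a lattice coset in a disc. -/

set_option autoImplicit false

namespace Pool.Agent.MP_f3836a_nt.VE.BC

open Finset Pool.Agent.MP_c481b3_nt.H28.W Pool.Agent.MP_c481b3_nt.H63

namespace CCnt

theorem norm_comb {A : ℕ} (e1 e2 : O A) (q : ℕ) (x y : ℤ) :
    ((q : O A) * (x * e1 + y * e2)).norm =
      q ^ 2 * (x ^ 2 * e1.norm + 2 * x * y * (star e1 * e2).re + y ^ 2 * e2.norm) := by
  simp [norm_O]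
  ring

theorem half {a b c x y : ℤ} (h : 2 * |b| ≤ a) (h' : a ≤ c) :
    a * x ^ 2 + c * y ^ 2 ≤ 2 * (a * x ^ 2 + 2 * b * x * y + c * y ^ 2) := by
  have h1 := neg_abs_le b
  have h2 := le_abs_self b
  nlinarith [mul_nonneg (show 0 ≤ a + 2 * b by linarith) (sq_nonneg (x + y)),
    mul_nonneg (show 0 ≤ a - 2 * b by linarith) (sq_nonneg (x - y)),
    mul_nonneg (show 0 ≤ c - a by linarith) (sq_nonneg y)]

/-- one side of the rectangle -/
theorem side {Y ρ D m : ℝ} (hY : 2 ≤ Y) (hm : 0 < m) (hD : Y ^ 6 * D ≤ ρ) (h : m ≤ 2 * D) :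
    ∃ K : ℕ, Y ^ 6 ≤ (2 * K + 1 : ℕ) ∧ (2 * K + 1 : ℕ) * m ≤ 5 * ρ ∧
      ∀ x : ℤ, (m * x) ^ 2 ≤ 2 * ρ ^ 2 → ∃ i ∈ range (2 * K + 1), x = i - K := by
  have h6 : (2 : ℝ) ≤ Y ^ 6 := hY.trans (le_self_pow₀ (by linarith) (by norm_num))
  have h1 : Y ^ 6 ≤ 2 * ρ / m := by
    rw [le_div_iff₀ hm]
    nlinarith
  have h2 := Nat.floor_le (show 0 ≤ 2 * ρ / m by linarith)
  have h3 := Nat.lt_floor_add_one (2 * ρ / m)
  refine ⟨⌊2 * ρ / m⌋₊, by push_cast; linarith, ?_, fun x hx => ?_⟩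
  · rw [le_div_iff₀ hm] at h1 h2
    push_cast
    nlinarith
  · have h4 : |(x : ℝ)| ≤ 2 * ρ / m := by
      rw [le_div_iff₀ hm] at h1 ⊢
      refine abs_le_of_sq_le_sq' ?_ (by nlinarith) |>.2
      rw [mul_pow, sq_abs]
      nlinarith [sq_nonneg ρ]
    have h5 : |x| < ⌊2 * ρ / m⌋₊ + 1 := by exact_mod_cast h4.trans_lt h3
    rw [abs_lt] at h5
    exact ⟨(x + ⌊2 * ρ / m⌋₊).toNat, mem_range.2 (by omega), by omega⟩

end CCnt

open CCnt in
theorem rCnt : OfCnt := by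
  rintro hB hR ⟨C, hC, hS⟩
  refine ⟨25 * C, by positivity, fun A Q n Y ρ P I b S hA hY hQ hn hI hP hl hρ h => ?_⟩
  obtain ⟨e1, e2, a, b', c, r1, r2, r3, r4, r5, r6, r7, -⟩ := hR A n I hA hn hI
  obtain ⟨-, -, -, -, -, -, hE, -⟩ := hB A Q (fun _ => 0) hA
  obtain ⟨s1, s2⟩ := hS A Y P hY hP
  have hb := abs_nonneg b'
  have hb2 : 4 * b' ^ 2 ≤ a * c := by nlinarith [sq_abs b']
  have ha : 1 ≤ a := by
    by_contra h0
    obtain rfl : a = 0 := by omega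
    nlinarith [sq_nonneg b']
  have hc : c ≤ 4 * A := by nlinarith
  have hn' : (0 : ℝ) < n := by positivity
  have hQ' : (0 : ℝ) < Q := by positivity
  have key : ∀ t : ℤ, 1 ≤ t → t ≤ 4 * A → 0 < Q * √(n * t) ∧ Q * √(n * t) ≤ 2 * (Q * √(n * A)) ∧
      (Q * √(n * t)) ^ 2 = Q ^ 2 * (n * t) := fun t h1 h2 => by
    have h3 : (0 : ℝ) < t := by exact_mod_cast h1
    have h4 : (t : ℝ) ≤ 4 * A := by exact_mod_cast h2
    refine ⟨by positivity, ?_, by rw [mul_pow, Real.sq_sqrt (by positivity)]⟩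
    rw [mul_left_comm]
    refine mul_le_mul_of_nonneg_left (Real.sqrt_le_iff.2 ⟨by positivity, ?_⟩) hQ'.le
    rw [mul_pow, Real.sq_sqrt (by positivity)]
    nlinarith
  obtain ⟨a1, a2, a3⟩ := key a ha (r7.trans hc)
  obtain ⟨c1, c2, c3⟩ := key c (ha.trans r7) hc
  rw [mul_assoc] at hρ
  obtain ⟨K1, k1, k2, k3⟩ := side hY a1 hρ a2
  obtain ⟨K2, l1, l2, l3⟩ := side hY c1 hρ c2
  have s3 := s2 (b - K1 * (Q * e1) - K2 * (Q * e2)) (Q * e1) (Q * e2) _ _ (fun l hl' hd => by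
    have hp : l.Prime := (mem_filter.1 (hP hl')).2.1
    have e : (star ((Q : O A) * e1) * (Q * e2)).im = (Q * (Q * n) : ℕ) := by
      rw [star_mul', star_natCast, mul_mul_mul_comm, r3]
      simp [mul_assoc]
    rw [e, Int.natCast_dvd_natCast, hp.dvd_mul] at hd
    exact hl l hl' (hd.elim (fun h => h.mul_right n) id)) k1 l1
  rw [← sum_product'] at s3
  have s4 : (S.card : ℝ) ≤ C * ((2 * K1 + 1 : ℕ) * (2 * K2 + 1 : ℕ)) * sd A P := by
    classical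
    refine le_trans ?_ ((sum_image_le_of_nonneg (f := Lw P ⌊√Y⌋₊)
      fun _ _ => sq_nonneg _).trans s3)
    rw [card_eq_sum_ones, Nat.cast_sum, Nat.cast_one,
      ← sum_congr rfl fun β hβ => s1 β (h β hβ).2.2]
    refine sum_le_sum_of_subset_of_nonneg (fun β hβ => ?_) fun _ _ _ => sq_nonneg _
    obtain ⟨⟨γ, hγ, rfl⟩, h2, -⟩ := h β hβ
    obtain ⟨x, y, rfl⟩ := (r1 γ).1 hγ
    rw [(hE _ _).1, add_sub_cancel_left] at h2
    have h3 := pow_le_pow_left₀ (norm_nonneg _) h2 2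
    rw [(hE _ 0).2.2.1, norm_comb, r2, r3, r4] at h3
    have h4 : ((a * x ^ 2 + c * y ^ 2 : ℤ) : ℝ) ≤ _ := Int.cast_le.2 (half (x := x) (y := y) r6 r7)
    have h5 : (0 : ℝ) ≤ Q ^ 2 * n * (a * x ^ 2) := by
      have : (0 : ℝ) ≤ a := by exact_mod_cast (by omega)
      positivity
    have h6 : (0 : ℝ) ≤ Q ^ 2 * n * (c * y ^ 2) := by
      have : (0 : ℝ) ≤ c := by exact_mod_cast (by omega)
      positivity
    have h7 := mul_le_mul_of_nonneg_left h4 (show (0 : ℝ) ≤ Q ^ 2 * n by positivity)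
    simp at h3
    push_cast at h7
    obtain ⟨i, hi, rfl⟩ := k3 x (by rw [mul_pow, a3]; linarith)
    obtain ⟨j, hj, rfl⟩ := l3 y (by rw [mul_pow, c3]; linarith)
    refine mem_image.2 ⟨(i, j), mem_product.2 ⟨hi, hj⟩, ?_⟩
    push_cast
    ring
  have hX : (0 : ℝ) < (2 * K1 + 1 : ℕ) * (2 * K2 + 1 : ℕ) := by positivity
  have s5 : 0 ≤ C * sd A P := by
    refine nonneg_of_mul_nonneg_left ?_ hX
    linarith [Nat.cast_nonneg (α := ℝ) S.card]
  have s6 : (Q : ℝ) ^ 2 * n * √A ≤ Q * √(n * a) * (Q * √(n * c)) := by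
    rw [mul_mul_mul_comm, ← Real.sqrt_mul (by positivity), ← sq, mul_assoc]
    refine mul_le_mul_of_nonneg_left (Real.le_sqrt_of_sq_le ?_) (by positivity)
    have h1 : (a : ℝ) * c = b' ^ 2 + A := by exact_mod_cast r5
    rw [mul_pow, Real.sq_sqrt (by positivity), mul_mul_mul_comm, h1]
    nlinarith [mul_nonneg (sq_nonneg (n : ℝ)) (sq_nonneg (b' : ℝ))]
  have s7 := mul_le_mul k2 l2 (by positivity) (le_trans (by positivity) k2)
  calc (S.card : ℝ) * (Q ^ 2 * n * √A)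
      ≤ C * ((2 * K1 + 1 : ℕ) * (2 * K2 + 1 : ℕ)) * sd A P * (Q * √(n * a) * (Q * √(n * c))) :=
        mul_le_mul s4 s6 (by positivity) (le_trans (by positivity) s4)
    _ = C * sd A P * ((2 * K1 + 1 : ℕ) * (Q * √(n * a)) * ((2 * K2 + 1 : ℕ) * (Q * √(n * c)))) := by
        ring
    _ ≤ C * sd A P * (5 * ρ * (5 * ρ)) := mul_le_mul_of_nonneg_left s7 s5
    _ = _ := by ring

end Pool.Agent.MP_f3836a_nt.VE.BC
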