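import Pool.Agent.MP_f3836a_nt.VE.SpecC

/-! The density bound. -/

set_option autoImplicit false

namespace Pool.Agent.MP_f3836a_nt.VE.BC

open Finset Pool.Agent.MP_c481b3_nt.H28.W

namespace CDens

variable {A Q : ℕ} {ss : Pt → ℤ} {lam : Ideal (O A) → ℂ} {Y : ℝ}

lemma pow_le (hY : 0 ≤ Y) (M : Multiset Pt) (h : ∀ z ∈ M, Y ≤ z.p) : Y ^ M.card ≤ nT M := by
  induction M using Multiset.induction_on with
  | empty => simp [nT]
  | cons z M ih =>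
    rw [Multiset.card_cons, pow_succ', nT, Multiset.map_cons, Multiset.prod_cons, Nat.cast_mul]
    exact mul_le_mul (h z (Multiset.mem_cons_self _ _))
      (ih fun w hw => h w (Multiset.mem_cons_of_mem hw)) (pow_nonneg hY _) (Nat.cast_nonneg _)

lemma rough {l : ℕ} (hl : l ∈ Pr A Y) (M : Multiset Pt) (h : ∀ z ∈ M, z.p.Prime ∧ Y ≤ z.p) :
    ¬l ∣ nT M := fun e => by
  obtain ⟨h1, h2, -⟩ := mem_filter.1 hl
  obtain ⟨z, hz, e'⟩ := h2.prime.exists_mem_multiset_map_dvd e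
  have := Nat.lt_ceil.1 (mem_range.1 h1)
  rw [(Nat.prime_dvd_prime_iff_eq h2 (h z hz).1).1 e'] at this
  exact this.not_ge (h z hz).2

lemma emb_nat (n : ℕ) : emb (n : O A) = n := by
  apply Complex.ext <;> simp [emb]

lemma tup (hB : BasS) (hA : 1 < A) (hL : Lam A Q lam) {ι : Type} (t : Finset ι) (x : ι → Multiset Pt)
    (h : ∀ i, (∀ z ∈ x i, Gd A ss z) ∧ (nT (x i)).Coprime Q) :
    (∀ z ∈ ∑ i ∈ t, x i, Gd A ss z) ∧ (nT (∑ i ∈ t, x i)).Coprime Q ∧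
      cM A Q ss (∑ i ∈ t, x i) = ∑ i ∈ t, cM A Q ss (x i) ∧
      lam (IM A ss (∑ i ∈ t, x i)) = ∏ i ∈ t, lam (IM A ss (x i)) := by
  classical
  obtain ⟨-, -, -, -, -, b6, -, b8⟩ := hB A Q ss hA
  induction t using Finset.induction_on with
  | empty =>
    have := hL.one ((1 : ℕ) : O A) (by simp)
    rw [emb_nat] at this
    simpa [nT, cM, IM] using this
  | insert i t hi ih =>
    obtain ⟨i1, i2, i3, i4⟩ := ih
    rw [sum_insert hi, sum_insert hi, prod_insert hi, (b6 _ _).1, (b6 _ _).2.1, (b6 _ _).2.2, i3,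
      hL.mul _ ((b8 _ (h i).1).2.2.1 (h i).2).1 _ ((b8 _ i1).2.2.1 i2).1, i4]
    exact ⟨fun z hz => (Multiset.mem_add.1 hz).elim ((h i).1 z) (i1 z), (h i).2.mul_left i2, rfl, rfl⟩

lemma key (hB : BasS) (hA : 1 < A) (hQ : 0 < Q) (hL : Lam A Q lam) {I J : Ideal (O A)} {n m : ℕ}
    (hI : HasN I n) (hJ : HasN J m) (n0 : n ≠ 0) (m0 : m ≠ 0) (cn : n.Coprime Q) (cm : m.Coprime Q)
    (e : cI Q I = cI Q J) : ∃ β : O A, (∃ γ ∈ cj J, β = m + (Q : O A) * γ) ∧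
      emb β * lam J = lam I * m ∧ β.norm.natAbs = n * m := by
  obtain ⟨-, -, -, b4, b5, -, b7, -⟩ := hB A Q (fun _ => 0) hA
  have mI : I ∈ MQ A Q := ⟨n, n0, cn, hI⟩
  have mJ : J ∈ MQ A Q := ⟨m, m0, cm, hJ⟩
  obtain ⟨mC, e1⟩ := b5 J mJ m hJ
  have mN : ∀ k : ℕ, k ≠ 0 → k.Coprime Q → Ideal.span {(k : O A)} ∈ MQ A Q := fun k a b =>
    ⟨k * k, mul_ne_zero a a, b.mul_left b, hasN_nat k⟩
  obtain ⟨β, ⟨γ, hγ⟩, e2⟩ := (b4 _ (mul_mem mI mC) m (by simpa [Cp, Int.natAbs_mul] using cm.mul_left cm)).1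
    (by rw [cI_mul mI mC, e, e1])
  obtain ⟨k, k0, ck, w, hw⟩ : ∃ k : ℕ, k ≠ 0 ∧ k.Coprime Q ∧ (Q : O A) ∣ m * k - 1 := by
    refine ⟨m ^ (Q.totient - 1), pow_ne_zero _ m0, cm.pow_left _, ?_⟩
    have := map_dvd (Int.castRingHom (O A)) (Nat.ModEq.pow_totient cm).symm.dvd
    rw [Nat.cast_pow, ← pow_succ', Nat.sub_add_cancel (Nat.totient_pos.2 hQ)]
    simpa using this
  have βm : β ∈ cj J := Ideal.mul_le_right (I := I) (e2.ge (Ideal.mem_span_singleton_self β))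
  have l1 := hL.one (β * k) ⟨γ * k + w, by linear_combination k * hγ + hw⟩
  have l2 := hL.one (m * k) ⟨w, hw⟩
  have hJ' : J * cj J = _ := hJ
  rw [← Ideal.span_singleton_mul_span_singleton, (b7 _ _).2.1, emb_nat] at l1 l2
  rw [← e2, hL.mul _ (mul_mem mI mC) _ (mN k k0 ck), hL.mul _ mI _ mC] at l1
  rw [← hJ', hL.mul _ (mul_mem mJ mC) _ (mN k k0 ck), hL.mul _ mJ _ mC, emb_nat] at l2
  refine ⟨β, ⟨γ, ?_, by linear_combination hγ⟩, ?_, (hasN_span β).unique (by rw [← e2]; exact hI.mul hJ.conj)⟩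
  · rw [show γ = k * γ * m - w * (β - m) by linear_combination w * hγ - γ * hw]
    exact sub_mem (Ideal.mul_mem_left _ _ hJ.conj.mem)
      (Ideal.mul_mem_left _ _ (sub_mem βm hJ.conj.mem))
  · apply mul_right_cancel₀ (Nat.cast_ne_zero.2 k0 : (k : ℂ) ≠ 0)
    linear_combination lam I * l2 - lam J * l1

lemma sd_nonneg (hN : NuS) {P : Finset ℕ} (h : ∀ l ∈ P, l.Prime) : 0 ≤ sd A P :=
  prod_nonneg fun l hl => (hN A l (h l hl)).2.2.2.1.le

lemma sd_le (hN : NuS) (hQ : 0 < Q) : sd A (Q.primeFactors.filter fun l => ¬l ∣ 1) *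
    sd A ((Pr A Y).filter fun l => ¬l ∣ Q) ≤ sd A (Pr A Y) := by
  have p : ∀ l ∈ Pr A Y, l.Prime := fun l hl => (mem_filter.1 hl).2.1
  have q : ∀ l ∈ Q.primeFactors.filter fun l => ¬l ∣ 1, l.Prime := fun l hl =>
    Nat.prime_of_mem_primeFactors (mem_filter.1 hl).1
  conv_rhs => rw [sd, ← prod_filter_mul_prod_filter_not (Pr A Y) fun l => l ∣ Q]
  refine mul_le_mul_of_nonneg_right (prod_le_prod_of_subset_of_le_one (fun l hl => ?_)
    (fun l hl => (hN A l (q l hl)).2.2.2.1.le) fun l hl _ => ?_)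
    (sd_nonneg hN fun l hl => p l (mem_filter.1 hl).1)
  · obtain ⟨a, b⟩ := mem_filter.1 hl
    exact mem_filter.2 ⟨Nat.mem_primeFactors.2 ⟨p l a, b, hQ.ne'⟩, (p l a).not_dvd_one⟩
  · linarith [(hN A l (q l hl)).2.1]

lemma ind_nonneg (p : Prop) : 0 ≤ ind p := by
  unfold ind
  split_ifs <;> norm_num

lemma dist_le {b l l0 ζ : ℂ} {n : ℕ} {δ R : ℝ} (h : b * l0 = l * n) (hn : ‖l0‖ ^ 2 = n) (n0 : n ≠ 0)
    (h1 : ‖l - ζ‖ ≤ δ * R) (h2 : ‖l0 - ζ‖ ≤ δ * R) (h3 : ‖l0‖ ≤ 2 * R) : ‖b - n‖ ≤ 4 * δ * R ^ 2 := by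
  have p : 0 < ‖l0‖ := lt_of_le_of_ne (norm_nonneg _) fun e => n0 (by
    rw [← e, zero_pow two_ne_zero] at hn
    exact_mod_cast hn.symm)
  have a : ‖b - n‖ * ‖l0‖ = ‖l - l0‖ * ‖l0‖ * ‖l0‖ := by
    rw [← norm_mul, sub_mul, h, mul_comm (n : ℂ), ← sub_mul, norm_mul, Complex.norm_natCast, ← hn]
    ring
  have c : ‖l - l0‖ ≤ 2 * (δ * R) := by
    have := norm_sub_le (l - ζ) (l0 - ζ)
    rw [sub_sub_sub_cancel_right] at this
    linarith
  rw [mul_right_cancel₀ p.ne' a]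
  exact (mul_le_mul c h3 p.le ((norm_nonneg _).trans c)).trans_eq (by ring)

lemma big {E0 E n : ℕ} {δ R : ℝ} (hY : 2 ≤ Y) (hA : (A : ℝ) ≤ Y ^ E0) (hQ : (Q : ℝ) ≤ Y ^ E0)
    (hn : Y ^ (12 + 3 * E0 + 2 * E) ≤ n) (hδ : 1 / Y ^ E ≤ δ) (hR : (n : ℝ) ≤ 4 * R ^ 2) :
    Y ^ 6 * Q * √(n * A) ≤ 4 * δ * R ^ 2 := by
  have y0 : 0 < Y := by linarith
  have p : 0 < Y ^ E := pow_pos y0 _
  have d0 : 0 ≤ δ := le_trans (by positivity) hδ
  have a : Y ^ 6 * Q * √(n * A) * Y ^ E ≤ n := by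
    refine le_of_sq_le_sq ?_ (Nat.cast_nonneg _)
    rw [mul_pow, mul_pow, Real.sq_sqrt (by positivity)]
    calc (Y ^ 6 * Q) ^ 2 * (n * A) * (Y ^ E) ^ 2 ≤ (Y ^ 6 * Y ^ E0) ^ 2 * (n * Y ^ E0) * (Y ^ E) ^ 2 := by
          gcongr
      _ = n * Y ^ (12 + 3 * E0 + 2 * E) := by ring
      _ ≤ n * n := by gcongr
      _ = n ^ 2 := by ring
  calc Y ^ 6 * Q * √(n * A) ≤ n * (1 / Y ^ E) := by rwa [mul_one_div, le_div_iff₀ p]
    _ ≤ 4 * R ^ 2 * δ := by gcongr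
    _ = 4 * δ * R ^ 2 := by ring

lemma fin {m b C Cm C1 h h1 L s s1 s2 q n a δ R : ℝ} (hR : 0 < R) (hq : 0 < q) (ha : 0 < a)
    (hb : 0 ≤ b) (hC : 0 ≤ C) (hCm : 0 ≤ Cm) (hh : 0 < h) (hh1 : 0 ≤ h1) (hL : 0 < L) (hs : 0 ≤ s)
    (e1 : m ≤ b * (4 * Cm / R ^ 2)) (e2 : b * (q * n * a) ≤ C * (4 * δ * R ^ 2) ^ 2 * s)
    (e3 : R ^ 2 ≤ 4 * n) (e4 : h ≤ h1 * q * s1) (e5 : s1 * s ≤ s2) (e6 : h1 * L * s2 ≤ C1 * a) :
    m ≤ 256 * C * Cm * |C1| / (h * L) * δ ^ 2 := by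
  have p : 0 < R ^ 2 := by positivity
  have f1 : b * (q * a) ≤ 64 * C * δ ^ 2 * R ^ 2 * s := le_of_mul_le_mul_right (by
    calc b * (q * a) * R ^ 2 ≤ b * (q * a) * (4 * n) := by gcongr
      _ = 4 * (b * (q * n * a)) := by ring
      _ ≤ 4 * (C * (4 * δ * R ^ 2) ^ 2 * s) := by gcongr
      _ = _ := by ring) p
  have f2 : h * L * s ≤ |C1| * (q * a) := by
    calc h * L * s ≤ h1 * q * s1 * L * s := by gcongr
      _ = q * (h1 * L * (s1 * s)) := by ring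
      _ ≤ q * (h1 * L * s2) := by gcongr
      _ ≤ q * (|C1| * a) := mul_le_mul_of_nonneg_left
          (e6.trans (mul_le_mul_of_nonneg_right (le_abs_self _) ha.le)) hq.le
      _ = _ := by ring
  have f3 : b * (h * L) ≤ 64 * C * δ ^ 2 * R ^ 2 * |C1| := le_of_mul_le_mul_right (by
    calc b * (h * L) * (q * a) = b * (q * a) * (h * L) := by ring
      _ ≤ 64 * C * δ ^ 2 * R ^ 2 * s * (h * L) := by gcongr
      _ = 64 * C * δ ^ 2 * R ^ 2 * (h * L * s) := by ring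
      _ ≤ 64 * C * δ ^ 2 * R ^ 2 * (|C1| * (q * a)) := by gcongr
      _ = _ := by ring) (mul_pos hq ha)
  rw [div_mul_eq_mul_div, le_div_iff₀ (mul_pos hh hL)]
  calc m * (h * L) ≤ b * (4 * Cm / R ^ 2) * (h * L) := by gcongr
    _ = b * (h * L) * (4 * Cm / R ^ 2) := by ring
    _ ≤ 64 * C * δ ^ 2 * R ^ 2 * |C1| * (4 * Cm / R ^ 2) := by gcongr
    _ = _ := by field_simp; ring

end CDens

open CDens in
theorem rDens : OfDens := by
  classical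
  rintro hT hB hCa hN ⟨C, C0, hC⟩ hM L0 E0 E1 E C1 hL0
  set k := 12 + 3 * E0 + 2 * E with hk
  set Cm := (4 ^ (L0 * k) * |C1|) ^ k with hCm
  have Cm0 : 0 ≤ Cm := by positivity
  refine ⟨k, 256 * C * Cm * |C1|, by omega, by positivity, ?_⟩
  intro Y A Q ss Val St S μ lam hY hH hQ hQY hL hS g ζ R δ hδ _ hR
  have hA := hH.one
  have Q0 : 0 < Q := by omega
  have lg : 0 < Real.log Y := Real.log_pos (by linarith)
  have st : ∀ x ∈ S, x ∈ St ∧ (nT x).Coprime Q := fun x hx => mem_filter.1 (hS hx)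
  have tp := fun s : Fin k → S => tup (ss := ss) hB hA hL univ (fun i => (s i).1) fun i =>
    ⟨fun z hz => (hH.val z ((hH.stp _ (st _ (s i).2).1).2.2 z hz).1).1, (st _ (s i).2).2⟩
  obtain ⟨-, -, -, -, -, -, b7, b8⟩ := hB A Q ss hA
  have nr : ∀ s : Fin k → S, ‖∏ i, lam (IM A ss (s i))‖ ^ 2 = nT (∑ i, (s i).1) := fun s => by
    rw [← (tp s).2.2.2]
    exact hL.nrm _ ((b8 _ (tp s).1).2.2.1 (tp s).2.1).1 _ (b8 _ (tp s).1).1
  have lo : ∀ s : Fin k → S, ∀ z ∈ ∑ i, (s i).1, z.p.Prime ∧ Y ≤ z.p := fun s z hz => by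
    obtain ⟨i, -, hi⟩ := Multiset.mem_sum.1 hz
    exact ⟨((tp s).1 z hz).1, ((hH.stp _ (st _ (s i).2).1).2.2 z hi).2.1⟩
  have mono := (hT S fun x => μ x).2.2.2.2.1 (fun x => hH.pos _ (st _ x.2).1) k
  set Ev : (Fin k → S) → Prop := fun s => ∑ i, cM A Q ss (s i) = g ∧
    ‖∏ i, lam (IM A ss (s i)) - ζ‖ ≤ δ * R ∧ R ≤ 2 * ‖∏ i, lam (IM A ss (s i))‖ ∧
    ‖∏ i, lam (IM A ss (s i))‖ ≤ 2 * R with hEv
  change tm _ k (fun s => ind (Ev s)) ≤ _
  by_cases ex : ∃ s, Ev s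
  swap
  · refine le_trans (le_of_eq (sum_eq_zero fun s _ => ?_)) (by positivity)
    simp only [ind, if_neg fun e => ex ⟨s, e⟩, mul_zero]
  obtain ⟨s0, e0⟩ := ex
  have sq : ∀ s, Ev s → R ^ 2 ≤ 4 * nT (∑ i, (s i).1) ∧ (nT (∑ i, (s i).1) : ℝ) ≤ 4 * R ^ 2 :=
    fun s e => by
      rw [← nr]
      exact ⟨(pow_le_pow_left₀ hR.le e.2.2.1 2).trans_eq (by ring),
        (pow_le_pow_left₀ (norm_nonneg _) e.2.2.2 2).trans_eq (by ring)⟩
  obtain ⟨N0, n0, -⟩ := b8 _ (tp s0).1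
  have ky := fun s (e : Ev s) => key hB hA Q0 hL (b8 _ (tp s).1).1 N0 (b8 _ (tp s).1).2.1 n0
    (tp s).2.1 (tp s0).2.1 (by
      rw [← ((b8 _ (tp s).1).2.2.1 (tp s).2.1).2, ← ((b8 _ (tp s0).1).2.2.1 (tp s0).2.1).2,
        (tp s).2.2.1, (tp s0).2.2.1, e.1, e0.1])
  choose! β hβ using ky
  set n := nT (∑ i, (s0 i).1) with hn
  set B := (univ.filter Ev).image β with hBd
  have dv : ∀ s, Ev s → (β s).norm.natAbs / n = nT (∑ i, (s i).1) := fun s e => by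
    rw [(hβ s e).2.2, Nat.mul_div_cancel _ (Nat.pos_of_ne_zero n0)]
  have m1 : tm (fun x : S => μ x) k (fun s => ind (Ev s)) ≤ B.card * (4 * Cm / R ^ 2) := by
    calc _ ≤ tm (fun x : S => μ x) k
          (fun s => ∑ b ∈ B, ind (nT (∑ i, (s i).1) = b.norm.natAbs / n)) := mono _ _ fun s => by
          by_cases e : Ev s
          · refine le_trans ?_ (single_le_sum (fun b _ => ind_nonneg _)
              (mem_image_of_mem β (mem_filter.2 ⟨mem_univ s, e⟩)))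
            rw [ind, ind, if_pos e, if_pos (dv s e).symm]
          · rw [ind, if_neg e]
            exact sum_nonneg fun b _ => ind_nonneg _
      _ = ∑ b ∈ B, tm (fun x : S => μ x) k
          (fun s => ind (nT (∑ i, (s i).1) = b.norm.natAbs / n)) := by
          simp only [tm, mul_sum]
          exact sum_comm
      _ ≤ _ := by
          rw [← nsmul_eq_mul]
          refine sum_le_card_nsmul _ _ _ fun b hb => ?_
          obtain ⟨s, hs, rfl⟩ := mem_image.1 hb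
          have e := (mem_filter.1 hs).2
          have a := hM Val S μ L0 k (nT (∑ i, (s i).1)) C1 hH.two fun x hx =>
            ⟨(hH.stp x (st x hx).1).1, (hH.stp x (st x hx).1).2.1, fun z hz =>
              ⟨((hH.stp x (st x hx).1).2.2 z hz).1, (hH.val z ((hH.stp x (st x hx).1).2.2 z hz).1).1.1⟩,
              hH.pos x (st x hx).1, hH.wt x (st x hx).1⟩
          have z := mono (fun _ => 0) _ fun s' => ind_nonneg (nT (∑ i, (s' i).1) = nT (∑ i, (s i).1))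
          rw [(hT S fun x => μ x).2.2.2.1, mul_zero] at z
          rw [dv s e, le_div_iff₀ (by positivity)]
          nlinarith [mul_le_mul_of_nonneg_left (sq s e).1 z]
  have nb : Y ^ k ≤ n := by
    refine le_trans (pow_le_pow_right₀ (by linarith) ?_) (pow_le (by linarith) _ fun z hz => (lo s0 z hz).2)
    rw [Multiset.card_sum, sum_congr rfl fun i _ => (hH.stp _ (st _ (s0 i).2).1).1]
    simpa using Nat.le_mul_of_pos_right k hL0
  have m2 := hC A Q n Y (4 * δ * R ^ 2) ((Pr A Y).filter fun l => ¬l ∣ Q) _ n B hA hY Q0 n0 N0.conj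
    (filter_subset _ _) (fun l hl e => by
      obtain ⟨l1, l2⟩ := mem_filter.1 hl
      exact ((mem_filter.1 l1).2.1.dvd_mul.1 e).elim l2 (rough l1 _ (lo s0)))
    (big hY hH.size hQY nb hδ (sq s0 e0).2) fun b hb => by
      obtain ⟨s, hs, rfl⟩ := mem_image.1 hb
      have e := (mem_filter.1 hs).2
      obtain ⟨a1, a2, a3⟩ := hβ s e
      rw [(tp s).2.2.2, (tp s0).2.2.2] at a2
      refine ⟨a1, ?_, fun l hl d => ?_⟩
      · rw [emb_nat]
        exact dist_le a2 (nr s0) n0 e.2.1 e0.2.1 e0.2.2.2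
      · have l1 := (mem_filter.1 hl).1
        rw [← norm_nat, a3, Int.natCast_dvd_natCast] at d
        exact ((mem_filter.1 l1).2.1.dvd_mul.1 d).elim (rough l1 _ (lo s)) (rough l1 _ (lo s0))
  obtain ⟨fi, m3, -⟩ := hCa A 1 Q hA (one_dvd _) Q0
  rw [Nat.cast_one, one_pow, mul_one] at m3
  exact fin hR (by positivity) (Real.sqrt_pos.2 (by positivity)) (Nat.cast_nonneg _) C0 Cm0
    (Nat.cast_pos.2 Nat.card_pos) (Nat.cast_nonneg _) lg
    (sd_nonneg hN fun l hl => (mem_filter.1 (mem_filter.1 hl).1).2.1) m1 m2 (sq s0 e0).1 m3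
    (sd_le hN Q0) hH.hb

end Pool.Agent.MP_f3836a_nt.VE.BC
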