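import Pool.Agent.MP_f3836a_nt.VE.SpecC

/-! Small facts for the assembly of part C. -/

set_option autoImplicit false

namespace Pool.Agent.MP_f3836a_nt.VE.BC.CG

open Finset Pool.Agent.MP_c481b3_nt.H28.W

theorem ind_nonneg (p : Prop) : 0 ≤ ind p := by unfold ind; split_ifs <;> norm_num

theorem ind_pos {p : Prop} (h : p) : ind p = 1 := if_pos h

theorem ind_neg {p : Prop} (h : ¬p) : ind p = 0 := if_neg h

theorem ind_mono {p q : Prop} (h : p → q) : ind p ≤ ind q := by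
  by_cases hp : p
  · rw [ind_pos hp, ind_pos (h hp)]
  · rw [ind_neg hp]; exact ind_nonneg _

theorem nT_add (M M' : Multiset Pt) : nT (M + M') = nT M * nT M' := by simp [nT]

theorem cM_add (A Q : ℕ) (ss : Pt → ℤ) (M M' : Multiset Pt) :
    cM A Q ss (M + M') = cM A Q ss M + cM A Q ss M' := by simp [cM]

theorem dvd_nT {p : ℕ} (hp : p.Prime) {x : Multiset Pt} (hx : ∀ z ∈ x, z.p.Prime) (h : p ∣ nT x) :
    p ∈ x.map Pt.p := by
  obtain ⟨q, hq, h1⟩ := (Nat.Prime.prime hp).exists_mem_multiset_dvd h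
  obtain ⟨z, hz, rfl⟩ := Multiset.mem_map.1 hq
  exact (Nat.prime_dvd_prime_iff_eq hp (hx z hz)).1 h1 ▸ hq

variable {A : ℕ} {ss : Pt → ℤ} {Val : Pt → Prop} {St : Finset (Multiset Pt)}
  {μ : Multiset Pt → ℝ} {L0 E0 E1 : ℕ} {C1 Y : ℝ}

theorem gd (h : BH A ss Val St μ L0 E0 E1 C1 Y) {x : Multiset Pt} (hx : x ∈ St) {z : Pt}
    (hz : z ∈ x) : Gd A ss z := (h.val z ((h.stp x hx).2.2 z hz).1).1

theorem union_le (h : BH A ss Val St μ L0 E0 E1 C1 Y) (P : Finset ℕ) (S : Finset (Multiset Pt))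
    (hS : S ⊆ St) (hP : ∀ x ∈ S, ∃ p ∈ P, p ∈ x.map Pt.p) : ∑ x ∈ S, μ x ≤ P.card / √Y := by
  calc ∑ x ∈ S, μ x ≤ ∑ x ∈ St, ∑ p ∈ P, if p ∈ x.map Pt.p then μ x else 0 := by
        refine le_trans (sum_le_sum fun x hx => ?_) (sum_le_sum_of_subset_of_nonneg hS
          fun x hx _ => sum_nonneg fun p _ => by split_ifs; exacts [h.pos x hx, le_rfl])
        obtain ⟨p, hp, h1⟩ := hP x hx
        refine le_trans (le_of_eq (if_pos h1).symm) (single_le_sum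
          (f := fun p => if p ∈ x.map Pt.p then μ x else 0) (fun p _ => ?_) hp)
        split_ifs; exacts [h.pos x (hS hx), le_rfl]
    _ ≤ ∑ _p ∈ P, 1 / √Y := by
        rw [sum_comm]
        exact sum_le_sum fun p _ => by rw [← sum_filter]; exact h.sml p
    _ = _ := by rw [sum_const, nsmul_eq_mul, mul_one_div]

theorem mass_cop (h : BH A ss Val St μ L0 E0 E1 C1 Y) (hY : 1 < Y) {Q : ℕ} (hQ : 0 < Q)
    (hQ' : (Q : ℝ) ≤ Y ^ E0) {S : Finset (Multiset Pt)} (hS : S ⊆ St) :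
    ∑ x ∈ S \ cop S Q, μ x ≤ E0 / √Y := by
  set P := Q.primeFactors.filter fun p : ℕ => Y ≤ p with hP
  have h1 : P.card ≤ E0 := by
    have h2 : ((∏ p ∈ P, p : ℕ) : ℝ) ≤ Q := by
      exact_mod_cast Nat.le_of_dvd hQ ((prod_dvd_prod_of_subset _ _ _ (filter_subset _ _)).trans
        (Nat.prod_primeFactors_dvd Q))
    have h3 : Y ^ P.card ≤ ((∏ p ∈ P, p : ℕ) : ℝ) := by
      rw [Nat.cast_prod, ← prod_const]
      exact prod_le_prod (fun _ _ => by linarith) fun p hp => (mem_filter.1 hp).2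
    exact (pow_le_pow_iff_right₀ hY).1 (h3.trans (h2.trans hQ'))
  refine (union_le h P _ (sdiff_subset.trans hS) fun x hx => ?_).trans
    (div_le_div_of_nonneg_right (by exact_mod_cast h1) (Real.sqrt_nonneg _))
  obtain ⟨hx, h2⟩ := mem_sdiff.1 hx
  obtain ⟨p, hp, h3, h4⟩ := Nat.Prime.not_coprime_iff_dvd.1 fun c => h2 (mem_filter.2 ⟨hx, c⟩)
  have h5 := dvd_nT hp (fun z hz => (gd h (hS hx) hz).1) h3
  obtain ⟨z, hz, rfl⟩ := Multiset.mem_map.1 h5
  exact ⟨_, mem_filter.2 ⟨Nat.mem_primeFactors.2 ⟨hp, h4, hQ.ne'⟩,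
    ((h.stp x (hS hx)).2.2 z hz).2.1⟩, h5⟩

theorem cop_small (h : BH A ss Val St μ L0 E0 E1 C1 Y) {W : ℕ} (hW : 0 < W) (hY : (W : ℝ) < Y) :
    St ⊆ cop St W := fun x hx => by
  refine mem_filter.2 ⟨hx, by_contra fun c => ?_⟩
  obtain ⟨p, hp, h3, h4⟩ := Nat.Prime.not_coprime_iff_dvd.1 c
  obtain ⟨z, hz, rfl⟩ := Multiset.mem_map.1 (dvd_nT hp (fun z hz => (gd h hx hz).1) h3)
  have h5 : (z.p : ℝ) ≤ W := by exact_mod_cast Nat.le_of_dvd hW h4
  linarith [((h.stp x hx).2.2 z hz).2.1]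

theorem tm_le {ι : Type} [Fintype ι] {μ μ' : ι → ℝ} {a : ℝ} (h0 : ∀ i, 0 ≤ μ' i)
    (h : ∀ i, μ' i ≤ a * μ i) (k : ℕ) {F : (Fin k → ι) → ℝ} (hF : ∀ s, 0 ≤ F s) :
    tm μ' k F ≤ a ^ k * tm μ k F := by
  rw [tm, tm, mul_sum]
  refine sum_le_sum fun s _ => ?_
  rw [← mul_assoc]
  refine mul_le_mul_of_nonneg_right ?_ (hF s)
  refine (prod_le_prod (fun i _ => h0 _) fun i _ => h _).trans (le_of_eq ?_)
  rw [prod_mul_distrib, prod_const, card_univ, Fintype.card_fin]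

theorem dh_scale {ι G : Type} [Fintype ι] [AddCommGroup G] {μ μ' : ι → ℝ} {x : ι → G} {lam : ι → ℂ}
    {k : ℕ} {δ0 δ1 D : ℝ} (h0 : ∀ i, 0 ≤ μ' i) (h : ∀ i, μ' i ≤ 2 * μ i) (hδ : δ0 ≤ δ1)
    (H : DH μ x lam k δ0 D) : DH μ' x lam k δ1 (2 ^ k * D) := fun g ζ R δ h1 h2 h3 => by
  refine (tm_le h0 h k fun s => ind_nonneg _).trans ?_
  rw [mul_assoc]
  exact mul_le_mul_of_nonneg_left (H g ζ R δ (hδ.trans h1) h2 h3) (by positivity)

theorem log_nT (h : BH A ss Val St μ L0 E0 E1 C1 Y) (hY : 1 < Y) (hL : 1 ≤ L0) {x : Multiset Pt}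
    (hx : x ∈ St) : L0 * Real.log Y ≤ Real.log (nT x) ∧ Real.log (nT x) < L0 * E1 * Real.log Y := by
  obtain ⟨h1, -, h2⟩ := h.stp x hx
  have e : (nT x : ℝ) = (x.map fun z => (z.p : ℝ)).prod := by
    rw [nT, Nat.cast_multiset_prod, Multiset.map_map]; rfl
  have h3 : Y ^ L0 ≤ nT x := by
    rw [e, ← h1, ← Multiset.prod_replicate, ← Multiset.map_const']
    exact Multiset.prod_map_le_prod_map₀ _ _ (fun _ _ => by linarith) fun z hz => (h2 z hz).2.1
  have h4 : (nT x : ℝ) < (Y ^ E1) ^ L0 := by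
    rw [e, ← h1, ← Multiset.prod_replicate, ← Multiset.map_const']
    refine Multiset.prod_map_lt_prod_map (fun c => ?_) _ _ (fun z hz => ?_) fun z hz => (h2 z hz).2.2
    · rw [c] at h1; simp at h1; omega
    · linarith [(h2 z hz).2.1]
  have h5 : 0 < Y ^ L0 := by positivity
  refine ⟨by rw [← Real.log_pow]; exact Real.log_le_log h5 h3, ?_⟩
  have := Real.log_lt_log (h5.trans_le h3) h4
  rw [Real.log_pow, Real.log_pow] at this
  linarith

theorem eta_pos (hY : 1 < Y) (hL : 1 ≤ L0) (hE : 2 ≤ E1) {U : ℕ} (hU : 0 < U) :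
    0 < eta L0 E1 Y U := by
  have h1 : (2 : ℝ) ≤ E1 := by exact_mod_cast hE
  have := Real.log_pos hY
  have : (0 : ℝ) < E1 - 1 := by linarith
  unfold eta; positivity

theorem uu_spec (h : BH A ss Val St μ L0 E0 E1 C1 Y) (hY : 1 < Y) (hL : 1 ≤ L0) (hE : 2 ≤ E1)
    {U : ℕ} (hU : 0 < U) {x : Multiset Pt} (hx : x ∈ St) : uu L0 E1 Y U x < U ∧
    eta L0 E1 Y U * uu L0 E1 Y U x ≤ Real.log (nT x) - L0 * Real.log Y ∧
    Real.log (nT x) - L0 * Real.log Y ≤ eta L0 E1 Y U * (uu L0 E1 Y U x + 1) := by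
  obtain ⟨h1, h2⟩ := log_nT h hY hL hx
  have h3 := eta_pos hY hL hE hU
  have h4 : 0 ≤ (Real.log (nT x) - L0 * Real.log Y) / eta L0 E1 Y U := div_nonneg (by linarith) h3.le
  have hU' : (0 : ℝ) < U := by exact_mod_cast hU
  refine ⟨(Nat.floor_lt h4).2 ((div_lt_iff₀ h3).2 ?_), ?_, ?_⟩
  · rw [eta, mul_div_cancel₀ _ hU'.ne']; linarith
  · rw [mul_comm, ← le_div_iff₀ h3]; exact Nat.floor_le h4
  · rw [mul_comm (eta _ _ _ _), ← div_le_iff₀ h3]; exact (Nat.lt_floor_add_one _).le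

theorem nz_le {S : Finset (Multiset Pt)} (hm : 1 / 2 ≤ ∑ x ∈ S, μ x) {x : Multiset Pt}
    (hx : 0 ≤ μ x) : 0 ≤ nz S μ x ∧ nz S μ x ≤ 2 * μ x :=
  ⟨div_nonneg hx (by linarith), by rw [nz, div_le_iff₀ (by linarith)]; nlinarith⟩

theorem nz_sum {S : Finset (Multiset Pt)} (hm : 1 / 2 ≤ ∑ x ∈ S, μ x) : ∑ x ∈ S, nz S μ x = 1 := by
  unfold nz
  rw [← sum_div, div_self (by linarith)]

theorem sb_cop (h : BH A ss Val St μ L0 E0 E1 C1 Y) {S S' : Finset (Multiset Pt)} (hS : S ⊆ St)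
    (hS' : S' ⊆ S) (hm : 1 / 2 ≤ ∑ x ∈ S, μ x) : Sb fun x : S' => nz S μ x := by
  refine ⟨fun x => (nz_le hm (h.pos _ (hS (hS' x.2)))).1, ?_⟩
  rw [sum_coe_sort S' (nz S μ), ← nz_sum hm]
  exact sum_le_sum_of_subset_of_nonneg hS' fun x hx _ => (nz_le hm (h.pos _ (hS hx))).1

/-- two steps share a prime -/
def Sh (x x' : Multiset Pt) : Prop := ∃ p ∈ x.map Pt.p, p ∈ x'.map Pt.p

theorem sh_le (h : BH A ss Val St μ L0 E0 E1 C1 Y) {S S' : Finset (Multiset Pt)} (hS : S ⊆ St)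
    (hS' : S' ⊆ S) (hm : 1 / 2 ≤ ∑ x ∈ S, μ x) (x : S') :
    ∑ x' : S', nz S μ x' * ind (Sh x x') ≤ 2 * L0 / √Y := by
  classical
  have h1 := union_le h ((x.1.map Pt.p).toFinset) (S'.filter fun x' => Sh x x')
    ((filter_subset _ _).trans (hS'.trans hS)) fun x' hx' => by
      obtain ⟨p, h2, h3⟩ := (mem_filter.1 hx').2
      exact ⟨p, Multiset.mem_toFinset.2 h2, h3⟩
  have h2 : ((x.1.map Pt.p).toFinset.card : ℝ) ≤ L0 := by
    have := (x.1.map Pt.p).toFinset_card_le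
    rw [Multiset.card_map, (h.stp _ (hS (hS' x.2))).1] at this
    exact_mod_cast this
  rw [sum_coe_sort S' fun x' => nz S μ x' * ind (Sh x x'), mul_div_assoc]
  refine le_trans ?_ (mul_le_mul_of_nonneg_left (h1.trans
    (div_le_div_of_nonneg_right h2 (Real.sqrt_nonneg _))) zero_le_two)
  rw [sum_filter, mul_sum]
  refine sum_le_sum fun x' hx' => ?_
  split_ifs with c
  · rw [ind_pos c, mul_one]; exact (nz_le hm (h.pos _ (hS (hS' hx')))).2
  · rw [ind_neg c]; simp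

theorem nd_sum {ι : Type} [DecidableEq ι] (s : Finset ι) (x : ι → Multiset Pt) (h : ∀ i, Nd (x i))
    (h' : ∀ a b, a ≠ b → ¬Sh (x a) (x b)) : Nd (∑ i ∈ s, x i) := by
  induction s using Finset.induction_on with
  | empty => simp [Nd]
  | insert a s ha ih =>
    rw [sum_insert ha, Nd, Multiset.map_add, Multiset.nodup_add]
    refine ⟨h a, ih, Multiset.disjoint_left.2 fun {p} h1 h2 => ?_⟩
    obtain ⟨z, hz, rfl⟩ := Multiset.mem_map.1 h2
    obtain ⟨b, hb, h3⟩ := Multiset.mem_sum.1 hz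
    exact h' a b (fun c => ha (c ▸ hb)) ⟨_, h1, Multiset.mem_map_of_mem _ h3⟩

theorem rw_eq (S : Finset (Multiset Pt)) (w : Multiset Pt → ℝ) (T : Multiset Pt) (j : ℕ) (β : O A) :
    Rw A ss S w T j β = tm (fun x : S => w x) j fun s => ind (EvF A ss β (T + ∑ i, (s i).1)) := rfl

theorem nT_sum {ι : Type} (s : Finset ι) (x : ι → Multiset Pt) :
    nT (∑ i ∈ s, x i) = ∏ i ∈ s, nT (x i) := by
  classical
  induction s using Finset.induction_on with
  | empty => simp [nT]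
  | insert a s ha ih => rw [sum_insert ha, prod_insert ha, nT_add, ih]

theorem rw_le (hM : MulS) (h : BH A ss Val St μ L0 E0 E1 C1 Y) {S : Finset (Multiset Pt)}
    (hS : S ⊆ St) (hm : 1 / 2 ≤ ∑ x ∈ S, μ x) {T : Multiset Pt} (hT : ∀ z ∈ T, Val z) (j : ℕ)
    (β : O A) : Rw A ss S (wt S μ) T j β ≤ (4 ^ (L0 * j) * |2 * C1|) ^ j := by
  have hT0 : 0 < nT T := Multiset.prod_pos fun p hp => by
    obtain ⟨z, hz, rfl⟩ := Multiset.mem_map.1 hp
    exact (h.val z (hT z hz)).1.1.pos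
  refine le_trans ?_ (hM Val S (nz S μ) L0 j (β.norm.natAbs / nT T) (2 * C1) h.two fun x hx => ?_)
  · rw [rw_eq, tm, tm, mul_sum]
    refine sum_le_sum fun s _ => ?_
    have h0 : 0 ≤ ∏ i, nz S μ (s i) := prod_nonneg fun i _ => (nz_le hm (h.pos _ (hS (s i).2))).1
    by_cases c : EvF A ss β (T + ∑ i, (s i).1)
    · have e : nT (∑ i, (s i).1) = β.norm.natAbs / nT T := by
        rw [← c.2.2, Int.natAbs_natCast, nT_add, Nat.mul_div_cancel_left _ hT0]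
      rw [ind_pos c, ind_pos e, ← e, nT_sum]
      simp only [wt, prod_mul_distrib, Nat.cast_prod]
      exact le_of_eq (by ring)
    · rw [ind_neg c, mul_zero]
      exact mul_nonneg (by positivity) (mul_nonneg h0 (ind_nonneg _))
  · obtain ⟨h1, h2, h3⟩ := h.stp x (hS hx)
    obtain ⟨h4, h5⟩ := nz_le hm (h.pos x (hS hx))
    refine ⟨h1, h2, fun z hz => ⟨(h3 z hz).1, (gd h (hS hx) hz).1⟩, h4, ?_⟩
    have := mul_le_mul_of_nonneg_right h5 (Nat.cast_nonneg (α := ℝ) (nT x))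
    linarith [h.wt x (hS hx)]

theorem ch_sum {G : Type} [AddCommGroup G] (χ : AddChar G ℂ) (f : Multiset Pt → G)
    (h0 : f 0 = 0) (hf : ∀ x y, f (x + y) = f x + f y) (c : ℂ) (xs : Multiset (Multiset Pt))
    (h : ∀ x ∈ xs, χ (f x) = c) : χ (f xs.sum) = c ^ xs.card := by
  induction xs using Multiset.induction_on with
  | empty => simp [h0]
  | cons a s ih =>
    rw [Multiset.sum_cons, hf, AddChar.map_add_eq_mul, h a (Multiset.mem_cons_self _ _),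
      ih fun x hx => h x (Multiset.mem_cons_of_mem hx), Multiset.card_cons, pow_succ']

theorem ch_pts {G : Type} [AddCommGroup G] (χ : AddChar G ℂ) (f : Pt → G) (c : ℂ) (T : Multiset Pt)
    (h : ∀ z ∈ T, χ (f z) = c) : χ (T.map f).sum = c ^ T.card := by
  induction T using Multiset.induction_on with
  | empty => simp
  | cons a s ih =>
    rw [Multiset.map_cons, Multiset.sum_cons, AddChar.map_add_eq_mul, h a (Multiset.mem_cons_self _ _),
      ih fun x hx => h x (Multiset.mem_cons_of_mem hx), Multiset.card_cons, pow_succ']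

theorem label {G : Type} [AddCommGroup G] (B : Finset (AddChar G ℂ)) {N M : ℕ} (hN : 0 < N)
    (hB : B.card ≤ M) (h : ∀ χ ∈ B, ∀ g, χ g ^ N = 1) (f : Pt → G) :
    ∃ lab : Pt → Fin (N ^ M * N ^ M), ∀ (T : Multiset Pt) (a : Fin (N ^ M * N ^ M)), T.card = N →
      (∀ z ∈ T, lab z = a) → ∀ χ ∈ B, χ (T.map f).sum = 1 ∧ χ ((T.map Pt.cj).map f).sum = 1 := by
  classical
  set R := Polynomial.nthRootsFinset N (1 : ℂ)
  have h1 : Fintype.card (B → R) ≤ N ^ M := by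
    rw [Fintype.card_fun, Fintype.card_coe, Fintype.card_coe]
    exact (Nat.pow_le_pow_left ((Multiset.toFinset_card_le _).trans
      (Polynomial.card_nthRoots N 1)) _).trans (Nat.pow_le_pow_right hN hB)
  obtain ⟨e⟩ := Function.Embedding.nonempty_of_card_le (α := (B → R) × (B → R))
    (β := Fin (N ^ M * N ^ M)) (by rw [Fintype.card_prod, Fintype.card_fin]; gcongr)
  let v : G → B → R := fun g χ => ⟨χ.1 g, (Polynomial.mem_nthRootsFinset hN _).2 (h _ χ.2 g)⟩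
  refine ⟨fun z => e (v (f z), v (f z.cj)), fun T a hT ha χ hχ => ?_⟩
  obtain ⟨z0, hz0⟩ := Multiset.card_pos_iff_exists_mem.1 (hT ▸ hN)
  have h2 : ∀ z ∈ T, χ (f z) = χ (f z0) ∧ χ (f z.cj) = χ (f z0.cj) := fun z hz => by
    obtain ⟨h3, h4⟩ := Prod.mk.inj (e.injective ((ha z hz).trans (ha z0 hz0).symm))
    exact ⟨congrArg Subtype.val (congrFun h3 ⟨χ, hχ⟩), congrArg Subtype.val (congrFun h4 ⟨χ, hχ⟩)⟩
  refine ⟨by rw [ch_pts χ f _ T fun z hz => (h2 z hz).1, hT, h χ hχ], ?_⟩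
  rw [Multiset.map_map, ch_pts χ (f ∘ Pt.cj) _ T fun z hz => (h2 z hz).2, hT, h χ hχ]

/-- conjugation of steps -/
def sigma (h : BH A ss Val St μ L0 E0 E1 C1 Y) : St ≃ St :=
  Function.Involutive.toPerm (fun x => ⟨x.1.map Pt.cj, (h.cj _ x.2).1⟩) fun x => Subtype.ext (by
    simp only [Multiset.map_map]
    exact (Multiset.map_congr rfl fun z hz =>
      (h.val z ((h.stp _ x.2).2.2 z hz).1).2.1).trans (Multiset.map_id' _))

end Pool.Agent.MP_f3836a_nt.VE.BC.CG
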