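import Pool.Agent.MP_f3836a_nt.VE.CGa

/-! The average over short shifts at one level. -/

set_option autoImplicit false

namespace Pool.Agent.MP_f3836a_nt.VE.BC.CG

open Finset Pool.Agent.MP_c481b3_nt.H28.W

variable {A : ℕ} {ss : Pt → ℤ} {Val : Pt → Prop} {St : Finset (Multiset Pt)}
  {μ : Multiset Pt → ℝ} {L0 E0 E1 : ℕ} {C1 Y : ℝ}

theorem loc_sum (hB : BasS) (hPar : ParS) (hSum : SumS) (hLoc : LocS)
    (h : BH A ss Val St μ L0 E0 E1 C1 Y) {S : Finset (Multiset Pt)} (hS : S ⊆ St)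
    (hm : 1 / 2 ≤ ∑ x ∈ S, μ x) {W Q n' k' j : ℕ} {lam : Ideal (O A) → ℂ} {π : RC A Q →+ RC A W}
    {T : Multiset Pt} {β : O A} {Vs : Finset (O A)} {V η D : ℝ} (hW : 3 ≤ W) (hWQ : W ∣ Q)
    (hQ : 0 < Q) (hl : Lam A Q lam) (hπ : IsPr A W Q π) (hT : Nd T)
    (hT' : ∀ z ∈ T, Val z ∧ In A ss β z) (h1 : nT T ^ 2 ∣ Q) (h2 : (W : O A) ∣ β - 1)
    (h3 : β.norm = (nT T * n' : ℕ)) (h4 : n'.Coprime Q)
    (hVs : ∀ v : O A, tent (Q * emb v / V) ≠ 0 → v ∈ Vs)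
    (hD : DH (fun x : cop S Q => nz S μ x) (fun x : cop S Q => cM A Q ss x)
      (fun x : cop S Q => lam (IM A ss x)) k' η D) (hV : 0 < V) (hV' : 2 * V ≤ ‖emb β‖)
    (hη : η ≤ V / ‖emb β‖) (hj : k' + 2 ≤ j) :
    ∑ v ∈ Vs, tent (Q * emb v / V) * Rw A ss S (wt S μ) T j (β + (Q : O A) * v) ≤ 4 * D * V ^ 2 ∧
    ∀ m E : ℝ, (∀ (g : RC A Q) (κ : ℂ), ‖κ‖ ^ 2 = nT T → π g + cM A W ss T = 0 →
      |Sl (fun x : cop S Q => nz S μ x) (fun x : cop S Q => cM A Q ss x)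
        (fun x : cop S Q => lam (IM A ss x)) j g κ (emb β) V - m| ≤ E) →
      |∑ v ∈ Vs, tent (Q * emb v / V) * Rw A ss S (wt S μ) T j (β + (Q : O A) * v)
        - ‖emb β‖ ^ 2 * m| ≤ ‖emb β‖ ^ 2 * E +
          (3 * (V / ‖emb β‖) + 4 * j ^ 2 * (2 * L0 / √Y)) * (D * V ^ 2) := by
  have hG : ∀ z ∈ T, Gd A ss z := fun z hz => (h.val z (hT' z hz).1).1
  obtain ⟨K, g, κ, hK, hκ, hP⟩ := hPar A W Q n' ss lam π T β h.one hW hWQ hQ hl hπ hT
    (fun z hz => ⟨hG z hz, (hT' z hz).2⟩) h1 h2 h3 h4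
  have e := hSum A Q j ss lam S (nz S μ) T β K g κ Vs V h.one hl
    (fun x hx z hz => gd h (hS hx) hz) hVs hP
  have hn : (0 : ℝ) < nT T := by
    exact_mod_cast Nat.pos_of_ne_zero (((hB A Q ss h.one).2.2.2.2.2.2.2 T hG).2.1)
  have hL := fun u => hLoc _ _ (fun x : cop S Q => nz S μ x) (fun x : cop S Q => cM A Q ss x)
    (fun x : cop S Q => lam (IM A ss x)) k' j η D V (2 * L0 / √Y) (g u) (κ u) (emb β)
    (fun x x' => Sh x x') (fun s => Nd (∑ i, (s i).1)) (sb_cop h hS (filter_subset _ _) hm) hD hV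
    hV' hη hj (by positivity) (sh_le h hS (filter_subset _ _) hm) (fun s hs => by
      by_contra c
      exact hs (nd_sum _ _ (fun i => (h.stp _ (hS (filter_subset _ _ (s i).2))).2.1)
        fun a b hab c' => c ⟨a, b, hab, c'⟩)) _ rfl
  rw [show wt S μ = fun x => nz S μ x * nT x from rfl, e]
  refine ⟨le_of_mul_le_mul_left ?_ hn, fun m E hE => le_of_mul_le_mul_left ?_ hn⟩
  · rw [mul_sum, ← hK, ← nsmul_eq_mul]
    refine sum_le_card_nsmul _ _ _ fun u hu => ?_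
    rw [hK, ← (hκ u hu).1]
    exact (hL u).1
  · rw [← abs_of_pos hn, ← abs_mul, abs_of_pos hn, mul_sub, mul_sum]
    conv_lhs => rw [← hK, ← nsmul_eq_mul _ (_ * m), ← sum_const, ← sum_sub_distrib]
    conv_rhs => rw [← hK, ← nsmul_eq_mul]
    refine (abs_sum_le_sum_abs _ _).trans (sum_le_card_nsmul _ _ _ fun u hu => ?_)
    rw [hK, ← (hκ u hu).1]
    have h5 := mul_le_mul_of_nonneg_left (hE _ _ (hκ u hu).1 (hκ u hu).2) (sq_nonneg ‖emb β‖)
    conv_lhs at h5 => rw [← abs_of_nonneg (sq_nonneg ‖emb β‖), ← abs_mul, mul_sub]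
    linarith [abs_sub_le _ _ (‖emb β‖ ^ 2 * m) |>.trans (add_le_add (hL u).2 h5)]

theorem arith {S Z P R b f c ε Cd C' E Λ ρ : ℝ} (hP : 0 < P) (hR : 0 < R) (hb : 1 ≤ b) (hc : 0 < c)
    (hε : 0 < ε) (hε1 : ε ≤ 1) (hΛ : 1 ≤ Λ) (hf : 1 / Λ ≤ f) (hCd : 0 ≤ Cd) (hC' : 0 ≤ C')
    (hZ : |P * Z - c| ≤ c * ε / 2) (hρ : ρ = b * (P * R) / Real.pi) :
    0 < Z ∧ (S ≤ 4 * Cd * R → S / Z ≤ 32 * Cd / c * Λ * (ρ * f)) ∧
    (|S - b * f * c / Real.pi * R| ≤ E * R → E ≤ C' * (b * f * ε) →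
      |S / Z - ρ * f| ≤ (1 + 8 * C' / c) * ε * (ρ * f)) := by
  have hπ := Real.pi_pos
  have hπ4 := Real.pi_le_four
  obtain ⟨h1, h2⟩ := abs_le.1 hZ
  have h3 : c / 2 ≤ P * Z := by nlinarith
  have hZ0 : 0 < Z := (mul_pos_iff_of_pos_left hP).1 (by linarith)
  have hf1 : 1 ≤ Λ * f := by rwa [div_le_iff₀' (by linarith)] at hf
  have hf0 : 0 < f := lt_of_lt_of_le (by positivity) hf
  have hbf : 0 < b * f := by positivity
  refine ⟨hZ0, fun h => ?_, fun h h' => ?_⟩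
  · rw [div_le_iff₀ hZ0, hρ]
    refine h.trans ?_
    have e : 32 * Cd / c * Λ * (b * (P * R) / Real.pi * f) * Z
        = 4 * Cd * R * (b * (Λ * f) * ((4 / Real.pi) * (P * Z / (c / 2)))) := by field_simp; ring
    rw [e]
    exact le_mul_of_one_le_right (by positivity) (one_le_mul_of_one_le_of_one_le
      (one_le_mul_of_one_le_of_one_le hb hf1) (one_le_mul_of_one_le_of_one_le
        ((one_le_div hπ).2 hπ4) ((one_le_div (by positivity)).2 h3)))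
  · have e : S / Z - ρ * f = ((S - b * f * c / Real.pi * R)
        - b * f / Real.pi * R * (P * Z - c)) / Z := by rw [hρ]; field_simp; ring
    rw [e, abs_div, abs_of_pos hZ0, div_le_iff₀ hZ0]
    refine (abs_sub _ _).trans ?_
    rw [abs_mul, abs_of_pos (by positivity : 0 < b * f / Real.pi * R)]
    have h4 := mul_le_mul_of_nonneg_left hZ (by positivity : 0 ≤ b * f / Real.pi * R)
    have h5 := mul_le_mul_of_nonneg_right h' hR.le
    have e2 : (1 + 8 * C' / c) * ε * (ρ * f) * Z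
        = (1 + 8 * C' / c) * ε * (b * f / Real.pi * R) * (P * Z) := by rw [hρ]; ring
    have h6 := mul_le_mul_of_nonneg_left h3
      (by positivity : 0 ≤ (1 + 8 * C' / c) * ε * (b * f / Real.pi * R))
    have e3 : (1 + 8 * C' / c) * ε * (b * f / Real.pi * R) * (c / 2)
        = b * f / Real.pi * R * (c * ε / 2) + C' * (b * f * ε) * R * (4 / Real.pi) := by
      field_simp; ring
    have h7 := le_mul_of_one_le_right (by positivity : 0 ≤ C' * (b * f * ε) * R)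
      ((one_le_div hπ).2 hπ4)
    linarith

theorem ch_target {G : Type} [AddCommGroup G] (χ : AddChar G ℂ) {g t : G} {c : ℂ} {N a j : ℕ}
    (h : g + t = 0) (ht : χ t = c ^ a) (hc : c ^ N = 1) (hN : N ∣ a + j) : χ g = c ^ j := by
  obtain ⟨m, hm⟩ := hN
  have h1 : χ g * c ^ a = 1 := by rw [← ht, ← AddChar.map_add_eq_mul, h, AddChar.map_zero_eq_one]
  have h2 : c ^ a * c ^ j = 1 := by rw [← pow_add, hm, pow_mul, hc, one_pow]
  rw [← mul_one (χ g), ← h2, ← mul_assoc, h1, one_mul]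

theorem pi_cM (hB : BasS) (hA : 1 < A) {W Q : ℕ} {π : RC A Q →+ RC A W} (hπ : IsPr A W Q π)
    (hWQ : W ∣ Q) {x : Multiset Pt} (hx : ∀ z ∈ x, Gd A ss z) (hc : (nT x).Coprime Q) :
    π (cM A Q ss x) = cM A W ss x := by
  obtain ⟨h1, h2⟩ := ((hB A Q ss hA).2.2.2.2.2.2.2 x hx).2.2.1 hc
  rw [h2, hπ.cl _ h1,
    (((hB A W ss hA).2.2.2.2.2.2.2 x hx).2.2.1 (hc.coprime_dvd_right hWQ)).2]

theorem sizes {X V Λ0 U n s c : ℝ} (hn : 0 < n) (hs : 1 ≤ s) (hV : 0 < V) (hU : 0 < U)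
    (h : |Real.log (n ^ 2) - X| ≤ Λ0) (h1 : V * s ^ 2 ≤ Real.exp (X / 2))
    (h2 : Real.exp X * s ^ 2 ≤ V ^ 2 * U) (h3 : Real.exp Λ0 ≤ s) (h4 : c * Real.exp Λ0 ≤ s ^ 2) :
    V / n ≤ 1 / s ∧ c / U ≤ (V / n) ^ 2 := by
  obtain ⟨h5, h6⟩ := abs_le.1 h
  have hΛ : 0 ≤ Λ0 := (abs_nonneg _).trans h
  have e := Real.exp_log (show 0 < n ^ 2 by positivity)
  have h7 : Real.exp (X / 2) ≤ n * Real.exp Λ0 := by
    rw [← Real.exp_log hn, ← Real.exp_add, Real.exp_le_exp]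
    rw [Real.log_pow] at h5
    push_cast at h5
    linarith
  have h8 : n ^ 2 ≤ Real.exp X * Real.exp Λ0 := by
    rw [← e, ← Real.exp_add, Real.exp_le_exp]; linarith
  constructor
  · rw [div_le_div_iff₀ hn (by linarith)]
    refine le_of_mul_le_mul_right ?_ (show 0 < s by linarith)
    nlinarith [mul_le_mul_of_nonneg_left h3 hn.le]
  · rw [div_pow, div_le_div_iff₀ hU (by positivity)]
    rcases le_total c 0 with c0 | c0
    · exact (mul_nonpos_of_nonpos_of_nonneg c0 (sq_nonneg _)).trans (by positivity)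
    · have h9 := mul_le_mul_of_nonneg_left h8 c0
      have h10 := mul_le_mul_of_nonneg_left h4 (Real.exp_pos X).le
      nlinarith

end Pool.Agent.MP_f3836a_nt.VE.BC.CG
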