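import Pool.Agent.MP_f3836a_nt.VE.SpecC

/-! Row CHbFam: the class number bound in the family. -/

set_option autoImplicit false

namespace Pool.Agent.MP_f3836a_nt.VE.BC

open Finset

namespace CHbFam

theorem geo {S : ℕ → ℝ} {l r : ℝ} (hl : 1 < l) (hr : 0 ≤ r) (h0 : S 0 ≤ 1)
    (h : ∀ n, S (n + 1) ≤ S n + r / l ^ (n + 1)) (n : ℕ) : S n ≤ 1 + r / (l - 1) := by
  have l1 : 0 < l - 1 := sub_pos.2 hl
  have key : S n + r / (l - 1) / l ^ n ≤ 1 + r / (l - 1) := by
    induction n with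
    | zero => simpa using h0
    | succ n ih =>
      have e : r / l ^ (n + 1) + r / (l - 1) / l ^ (n + 1) = r / (l - 1) / l ^ n := by
        field_simp
        ring
      linarith [h n]
  have : 0 ≤ r / (l - 1) / l ^ n := by positivity
  linarith

variable {A l : ℕ}

theorem good (hN : NuS) (hR : RrS) (hl : l.Prime) (h : ¬l ∣ 2 * A) (K : ℕ) :
    ∑ j ∈ range K, (rr A (l ^ j) : ℝ) / (l : ℝ) ^ j ≤ (1 - nuN A l)⁻¹ := by
  have l1 : (1 : ℝ) < l := by exact_mod_cast hl.one_lt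
  obtain ⟨n1, -, -, n2, -⟩ := hN A l hl
  refine (sum_le_sum_of_subset_of_nonneg (range_subset_range.2 K.le_succ)
    fun _ _ _ => by positivity).trans ((geo (S := fun n => ∑ j ∈ range (n + 1),
      (rr A (l ^ j) : ℝ) / (l : ℝ) ^ j) (r := rr A l) l1 (by positivity) (by simp [(hR A).1])
      (fun n => ?_) K).trans ?_)
  · rw [sum_range_succ _ (n + 1)]
    gcongr
    exact ((hR A).2.2 l _ hl).2 h (by omega)
  · have l2 : 0 < (l : ℝ) - 1 := sub_pos.2 l1
    rw [← one_div, le_div_iff₀ n2, one_add_div l2.ne', div_mul_eq_mul_div, div_le_one l2]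
    refine le_of_mul_le_mul_right ?_ (show (0 : ℝ) < l ^ 2 by positivity)
    rw [mul_assoc, sub_mul 1, n1]
    nlinarith [mul_nonneg l2.le (sq_nonneg ((rr A l : ℝ) - 1))]

theorem bad (hR : RrS) (hl : l.Prime) (K : ℕ) :
    ∑ j ∈ range K, (rr A (l ^ j) : ℝ) / (l : ℝ) ^ j ≤ Real.exp (8 / l) := by
  have l1 : (2 : ℝ) ≤ l := by exact_mod_cast hl.two_le
  have b : ∀ j, (rr A (l ^ j) : ℝ) ≤ 2 * (l : ℝ) ^ (j / 2) := fun j => by
    exact_mod_cast ((hR A).2.2 l j hl).1
  refine (sum_le_sum_of_subset_of_nonneg (range_subset_range.2 (show K ≤ 2 * K + 1 by omega))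
    fun _ _ _ => by positivity).trans ((geo (S := fun n => ∑ j ∈ range (2 * n + 1),
      (rr A (l ^ j) : ℝ) / (l : ℝ) ^ j) (r := 4) (l := l) (by linarith) (by norm_num)
      (by simp [(hR A).1]) (fun n => ?_) K).trans ?_)
  · have b1 := div_le_div_of_nonneg_right (b (2 * n + 1)) (show (0 : ℝ) ≤ l ^ (2 * n + 1) by
      positivity)
    have b2 := div_le_div_of_nonneg_right (b (2 * n + 1 + 1)) (show (0 : ℝ) ≤ l ^ (2 * n + 1 + 1) by
      positivity)
    rw [show (2 * n + 1) / 2 = n by omega] at b1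
    rw [show (2 * n + 1 + 1) / 2 = n + 1 by omega] at b2
    have e : 2 * (l : ℝ) ^ n / l ^ (2 * n + 1) + 2 * (l : ℝ) ^ (n + 1) / l ^ (2 * n + 1 + 1) =
        4 / l ^ (n + 1) := by
      field_simp
      ring
    rw [show 2 * (n + 1) + 1 = 2 * n + 1 + 1 + 1 by ring, sum_range_succ _ (2 * n + 1 + 1),
      sum_range_succ _ (2 * n + 1)]
    linarith
  · have : 4 / ((l : ℝ) - 1) ≤ 8 / l := by
      rw [div_le_div_iff₀ (by linarith) (by linarith)]
      linarith
    linarith [Real.add_one_le_exp (8 / (l : ℝ))]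

end CHbFam

open CHbFam in
theorem rHbFam : OfHbFam := by
  intro hCl hN hR hChe hB hH E0 σ
  obtain ⟨C, C1, hC⟩ := hChe
  obtain ⟨H, H0, hH⟩ := hH
  refine ⟨4 * H * Real.exp (8 * σ + 4 * (C * (E0 + 2))), 2, fun A Y y2 yA aY hσ => ?_⟩
  have a2 : 2 ≤ A := by exact_mod_cast y2.trans yA
  have h1 := (hCl A a2).2
  have x1 := Nat.sqrt_le (4 * A)
  have x2 := Nat.lt_succ_sqrt (4 * A)
  generalize Nat.sqrt (4 * A) = X at *
  have x3 : 2 ≤ X := by nlinarith
  have x4 : (A : ℝ) ≤ X ^ 2 := by exact_mod_cast (by nlinarith : A ≤ X ^ 2)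
  have x5 : (X : ℝ) ≤ 2 * √A := by
    refine abs_le_of_sq_le_sq' ?_ (by positivity) |>.2
    rw [mul_pow, Real.sq_sqrt (by positivity)]
    exact_mod_cast (by nlinarith : X ^ 2 ≤ 2 ^ 2 * A)
  have x6 : (X : ℝ) ≤ Y ^ (E0 + 2) := by
    have : (X : ℝ) ≤ 4 * A := by exact_mod_cast (by nlinarith : X ≤ 4 * A)
    rw [pow_add, mul_comm]
    exact this.trans (mul_le_mul (by nlinarith) aY (by positivity) (by positivity))
  have x7 : (1 : ℝ) ≤ X := by exact_mod_cast (by omega : 1 ≤ X)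
  have ly : 0 < Real.log Y := Real.log_pos (by linarith)
  have l1 : Real.log Y ≤ 2 * Real.log X := by
    have := Real.log_le_log (by linarith) (yA.trans x4)
    rwa [Real.log_pow] at this
  have l2 : Real.log X ≤ (E0 + 2) * Real.log Y := by
    have := Real.log_le_log (by linarith) x6
    rwa [Real.log_pow, Nat.cast_add] at this
  have m1 : ∀ a b : ℕ, a.Coprime b → (rr A (a * b) : ℝ) ≤ rr A a * rr A b := fun a b h => by
    exact_mod_cast (hR A).2.1 a b h
  have h2 := hH (fun n => rr A n) X x3 (fun _ => by positivity) m1 fun l j hl => by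
    exact_mod_cast ((hR A).2.2 l j hl).1
  have pP : ∀ l ∈ Pr A Y, l.Prime := fun l hl => (mem_filter.1 hl).2.1
  have s0 : 0 < sd A (Pr A Y) := prod_pos fun l hl => (hN A l (pP l hl)).2.2.2.1
  have t0 : ∀ l : ℕ, 0 ≤ Real.log l / l := fun l => div_nonneg (Real.log_natCast_nonneg l) l.cast_nonneg
  have h3 := hB (fun n => rr A n) (fun l => Real.exp (8 * (if l ∣ 2 * A then (1 : ℝ) / l else 0) +
    4 * (Real.log l / l / Real.log Y)) * if l ∈ Pr A Y then (1 - nuN A l)⁻¹ else 1) X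
    (fun _ => by positivity) (by simp [(hR A).1]) m1 fun l K hl _ => by
      have t1 := div_nonneg (t0 l) ly.le
      by_cases p : l ∈ Pr A Y
      · have q := (mem_filter.1 p).2.2
        rw [if_pos p, if_neg q]
        exact (good hN hR hl q K).trans (le_mul_of_one_le_left (inv_pos.2 (hN A l hl).2.2.2.1).le
          (Real.one_le_exp (by linarith)))
      rw [if_neg p, mul_one]
      by_cases q : l ∣ 2 * A
      · rw [if_pos q, mul_one_div]
        exact (bad hR hl K).trans (Real.exp_le_exp.2 (by linarith))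
      · have t2 : Y ≤ l := Nat.ceil_le.1 (not_lt.1 fun e => p (mem_filter.2 ⟨mem_range.2 e, hl, q⟩))
        refine (good hN hR hl q K).trans ((hN A l hl).2.2.2.2.trans (Real.exp_le_exp.2 ?_))
        rw [if_neg q, mul_zero, zero_add, div_right_comm, ← mul_div_assoc]
        have := (one_le_div ly).2 (Real.log_le_log (by linarith) t2)
        gcongr
        linarith
  rw [prod_mul_distrib, ← Real.exp_sum, sum_add_distrib, ← mul_sum, ← mul_sum, ← sum_div,
    ← sum_filter, ← prod_filter] at h3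
  have h4 : ∏ l ∈ ((range (X + 1)).filter Nat.Prime).filter (· ∈ Pr A Y), (1 - nuN A l)⁻¹ ≤
      (sd A (Pr A Y))⁻¹ := by
    rw [sd, ← prod_inv_distrib]
    exact prod_le_prod_of_subset_of_one_le (fun l hl => (mem_filter.1 hl).2)
      (fun l hl => (inv_pos.2 (hN A l (pP l (mem_filter.1 hl).2)).2.2.2.1).le) fun l hl _ =>
      (one_le_inv₀ (hN A l (pP l hl)).2.2.2.1).2 (sub_le_self _ (hN A l (pP l hl)).2.1)
  have h5 : ∑ l ∈ ((range (X + 1)).filter Nat.Prime).filter (· ∣ 2 * A), (1 : ℝ) / l ≤ σ :=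
    (sum_le_sum_of_subset_of_nonneg (fun l hl => Nat.mem_primeFactors.2
      ⟨(mem_filter.1 (mem_filter.1 hl).1).2, (mem_filter.1 hl).2, by omega⟩)
      fun _ _ _ => by positivity).trans hσ
  have h6 := hC X x7
  rw [Nat.floor_natCast] at h6
  have h7 := (div_le_iff₀ ly).2 (h6.trans ((mul_le_mul_of_nonneg_left l2 (by linarith)).trans_eq
    (mul_assoc _ _ _).symm))
  have h8 := h3.trans (mul_le_mul (Real.exp_le_exp.2 (add_le_add
    (mul_le_mul_of_nonneg_left h5 (by norm_num)) (mul_le_mul_of_nonneg_left h7 (by norm_num)))) h4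
    (prod_nonneg fun l hl => (inv_pos.2 (hN A l (pP l (mem_filter.1 hl).2)).2.2.2.1).le)
    (Real.exp_pos _).le)
  have h9 : (Nat.card (RC A 1) : ℝ) ≤ ∑ n ∈ Icc 1 X, (rr A n : ℝ) := by exact_mod_cast h1
  rw [Hb, ← le_div_iff₀ s0]
  calc _ ≤ (∑ n ∈ Icc 1 X, (rr A n : ℝ)) * (2 * Real.log X) := by gcongr
    _ ≤ 2 * (H * X * ∑ n ∈ Icc 1 X, (rr A n : ℝ) / n) := by linarith
    _ ≤ 2 * (H * (2 * √A) * (Real.exp (8 * σ + 4 * (C * (E0 + 2))) * (sd A (Pr A Y))⁻¹)) := by gcongr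
    _ = _ := by ring

end Pool.Agent.MP_f3836a_nt.VE.BC
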