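import Pool.Agent.MP_f3836a_nt.VE.SpecC
import Pool.Agent.MP_c5bf7b_nt.H98.MRoot

/-! The class number bound for a fixed order. -/

set_option autoImplicit false

namespace Pool.Agent.MP_f3836a_nt.VE.BC

open Finset

namespace CHbFix

open Polynomial Pool.Agent.MP_c5bf7b_nt.H98

theorem mer {A : ℕ} (hA : 1 < A) : ∃ C0 : ℝ, MLow (rr A) C0 := by
  have e : nroots (X ^ 2 + C (A : ℤ)) = rr A := by
    funext p
    unfold nroots rr
    congr 1
    ext x
    simp only [mem_filter, eval_add, eval_pow, eval_X, eval_C]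
    exact and_congr_right fun _ => by exact_mod_cast Iff.rfl
  rw [← e]
  refine mertRoot _ ?_
  have h1 : (X ^ 2 + C (A : ℤ) : ℤ[X]).map (Int.castRingHom ℚ) = X ^ 2 + C (A : ℚ) := by simp
  rw [h1]
  refine irreducible_of_degree_le_three_of_not_isRoot ?_ fun x hx => ?_
  · rw [natDegree_X_pow_add_C]
    decide
  · simp only [IsRoot.def, eval_add, eval_pow, eval_X, eval_C] at hx
    have : (0 : ℚ) < A := by exact_mod_cast (by omega : 0 < A)
    nlinarith [sq_nonneg x]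

theorem nu_ge (h : NuS) (A : ℕ) {l : ℕ} (hl : l.Prime) :
    (rr A l : ℝ) / l - 1 / (l : ℝ) ^ 2 ≤ nuN A l := by
  obtain ⟨h1, -, h2, -⟩ := h A l hl
  have l2 : (2 : ℝ) ≤ l := by exact_mod_cast hl.two_le
  have l0 : (0 : ℝ) < l := by linarith
  have h3 : ((l : ℝ) - 1) ^ 2 ≤ l ^ 2 - nuN A l * l ^ 2 := by
    have := mul_le_mul_of_nonneg_right h2 (sq_nonneg (l : ℝ))
    rwa [← mul_pow, sub_mul, one_div_mul_cancel l0.ne', one_mul, sub_mul, one_mul] at this
  have h4 : (rr A l : ℝ) ≤ 2 := le_of_mul_le_mul_left (a := (l : ℝ) - 1) (by nlinarith) (by linarith)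
  refine le_of_mul_le_mul_right ?_ (pow_pos l0 2)
  have e : ((rr A l : ℝ) / l - 1 / (l : ℝ) ^ 2) * l ^ 2 = rr A l * l - 1 := by field_simp
  rw [e, h1]
  linarith

end CHbFix

open CHbFix in
theorem rHbFix : OfHbFix := by
  intro h A hA
  obtain ⟨C0, hC⟩ := mer hA
  have hs : Summable fun n : ℕ => 1 / (n : ℝ) ^ 2 := Real.summable_one_div_nat_pow.2 one_lt_two
  set K : ℝ := C0 + ∑ l ∈ (2 * A).primeFactors, (rr A l : ℝ) / l + ∑' n : ℕ, 1 / (n : ℝ) ^ 2
    with hK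
  have sA : 0 < √(A : ℝ) := Real.sqrt_pos.2 (by exact_mod_cast (by omega : 0 < A))
  refine ⟨Nat.card (RC A 1) * (2 * Real.log 2 * Real.exp K) / √A, fun Y hY => ?_⟩
  rw [Hb, div_mul_cancel₀ _ sA.ne', mul_assoc]
  refine mul_le_mul_of_nonneg_left ?_ (Nat.cast_nonneg _)
  obtain ⟨b, b2, b3, b4⟩ : ∃ b : ℕ, 2 ≤ b ∧ ⌈Y⌉₊ ≤ b + 1 ∧ ∀ p, 2 < p → p ≤ b → p < ⌈Y⌉₊ :=
    ⟨max 2 (⌈Y⌉₊ - 1), by omega, by omega, by omega⟩
  have b5 : (2 : ℝ) ≤ b := by exact_mod_cast b2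
  have l2 : 0 < Real.log 2 := Real.log_pos one_lt_two
  have lb : 0 < Real.log b := Real.log_pos (by linarith)
  have h1 := hC 2 b le_rfl b5
  rw [Nat.floor_natCast, Nat.floor_ofNat] at h1
  have h2 : ∑ p ∈ (Ioc 2 b).filter Nat.Prime, (rr A p : ℝ) / p ≤
      ∑ p ∈ Pr A Y, (rr A p : ℝ) / p + ∑ l ∈ (2 * A).primeFactors, (rr A l : ℝ) / l := by
    rw [← sum_union_inter]
    refine le_add_of_le_of_nonneg (sum_le_sum_of_subset_of_nonneg (fun p hp => ?_)
      fun _ _ _ => by positivity) (sum_nonneg fun _ _ => by positivity)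
    simp only [mem_filter, mem_Ioc, mem_union, Pr, mem_range, Nat.mem_primeFactors] at hp ⊢
    by_cases c : p ∣ 2 * A
    · exact Or.inr ⟨hp.2, c, by omega⟩
    · exact Or.inl ⟨b4 p hp.1.1 hp.1.2, hp.2, c⟩
  have pr : ∀ l ∈ Pr A Y, l.Prime := fun l hl => (mem_filter.1 hl).2.1
  have h3 := sum_le_sum fun l hl => nu_ge h A (pr l hl)
  rw [sum_sub_distrib] at h3
  have h4 := hs.sum_le_tsum (Pr A Y) fun _ _ => by positivity
  have h5 : sd A (Pr A Y) ≤ Real.exp (K - Real.log (Real.log b / Real.log 2)) := by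
    refine (prod_le_prod (fun l hl => (h A l (pr l hl)).2.2.2.1.le)
      fun l _ => Real.one_sub_le_exp_neg _).trans ?_
    rw [← Real.exp_sum, sum_neg_distrib]
    exact Real.exp_le_exp.2 (by linarith)
  rw [Real.exp_sub, Real.exp_log (by positivity)] at h5
  have h6 : Real.log Y ≤ 2 * Real.log b := by
    have h7 : (⌈Y⌉₊ : ℝ) ≤ b + 1 := by exact_mod_cast b3
    have h8 := Nat.le_ceil Y
    rw [← Nat.cast_ofNat (n := 2), ← Real.log_pow]
    exact Real.log_le_log (by linarith) (by nlinarith)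
  refine (mul_le_mul h6 h5 (prod_nonneg fun l hl => (h A l (pr l hl)).2.2.2.1.le)
    (by positivity)).trans (le_of_eq ?_)
  field_simp

end Pool.Agent.MP_f3836a_nt.VE.BC
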