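import Pool.Agent.MP_f3836a_nt.VE.SpecC

/-! The inequality of Hall and Tenenbaum. -/

set_option autoImplicit false

namespace Pool.Agent.MP_f3836a_nt.VE.BC

open Finset

theorem rHt : OfHt := by
  rintro ⟨C, C0, hC⟩
  refine ⟨C + 1, by positivity, fun r X hX r0 hm hp => ?_⟩
  let w : ℕ → ℕ → ℝ := fun l j => 2 * (l : ℝ) ^ (j / 2) * (j * Real.log l)
  let T : Finset (Σ _ : ℕ, Σ _ : ℕ, ℕ) := (Icc 1 X).sigma fun m =>
    ((range (X / m + 1)).filter Nat.Prime).sigma fun l =>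
      (Icc 1 (X / m)).filter fun j => l ^ j ≤ X / m
  let φ : (Σ _ : ℕ, ℕ) → Σ _ : ℕ, Σ _ : ℕ, ℕ := fun p =>
    ⟨ordCompl[p.2] p.1, p.2, p.1.factorization p.2⟩
  have inj : Function.Injective φ := by
    rintro ⟨n, l⟩ ⟨n', l'⟩ h
    simp only [φ, Sigma.mk.injEq, heq_eq_eq] at h
    obtain ⟨h1, rfl, h2⟩ := h
    rw [← Nat.ordProj_mul_ordCompl_eq_self n l, h1, h2, Nat.ordProj_mul_ordCompl_eq_self]
  have h1 : ∑ n ∈ Icc 1 X, r n * Real.log n ≤
      ∑ p ∈ (Icc 1 X).sigma Nat.primeFactors, r (φ p).1 * w (φ p).2.1 (φ p).2.2 := by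
    rw [sum_sigma]
    refine sum_le_sum fun n hn => ?_
    rw [Real.log_nat_eq_sum_factorization, Finsupp.sum, Nat.support_factorization, mul_sum]
    refine sum_le_sum fun l hl => ?_
    have pl := Nat.prime_of_mem_primeFactors hl
    have a := hm _ _ ((Nat.coprime_ordCompl pl (Nat.one_le_iff_ne_zero.1 (mem_Icc.1 hn).1)).pow_left
      (n.factorization l))
    rw [Nat.ordProj_mul_ordCompl_eq_self] at a
    have b := a.trans (mul_le_mul_of_nonneg_right (hp l _ pl) (r0 _))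
    have c : 0 ≤ (n.factorization l : ℝ) * Real.log l := by positivity
    simp only [φ, w]
    nlinarith [mul_le_mul_of_nonneg_right b c]
  have h2 : ∑ p ∈ (Icc 1 X).sigma Nat.primeFactors, r (φ p).1 * w (φ p).2.1 (φ p).2.2 ≤
      ∑ q ∈ T, r q.1 * w q.2.1 q.2.2 := by
    rw [← sum_image (f := fun q : Σ _ : ℕ, Σ _ : ℕ, ℕ => r q.1 * w q.2.1 q.2.2) inj.injOn]
    refine sum_le_sum_of_subset_of_nonneg (fun q hq => ?_) fun q _ _ =>
      mul_nonneg (r0 _) (by positivity)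
    obtain ⟨⟨n, l⟩, hp, rfl⟩ := mem_image.1 hq
    simp only [mem_sigma, mem_Icc, Nat.mem_primeFactors] at hp
    obtain ⟨⟨n1, n2⟩, pl, dl, n0⟩ := hp
    have m0 := Nat.ordCompl_pos l n0
    have j0 := pl.factorization_pos_of_dvd n0 dl
    have k : l ^ n.factorization l ≤ X / ordCompl[l] n := by
      rw [Nat.le_div_iff_mul_le m0, Nat.ordProj_mul_ordCompl_eq_self]
      exact n2
    simp only [T, φ, mem_sigma, mem_Icc, mem_filter, mem_range]
    exact ⟨⟨m0, (Nat.ordCompl_le n l).trans n2⟩,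
      ⟨Nat.lt_succ_of_le ((Nat.le_self_pow j0.ne' l).trans k), pl⟩,
      ⟨j0, (Nat.lt_pow_self pl.one_lt).le.trans k⟩, k⟩
  have h3 : ∑ q ∈ T, r q.1 * w q.2.1 q.2.2 ≤ C * X * ∑ n ∈ Icc 1 X, r n / n := by
    rw [sum_sigma, mul_sum]
    refine sum_le_sum fun m _ => ?_
    simp only [← mul_sum]
    rw [sum_sigma]
    have a := (hC (X / m)).trans (mul_le_mul_of_nonneg_left Nat.cast_div_le C0)
    refine (mul_le_mul_of_nonneg_left a (r0 m)).trans_eq ?_
    ring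
  have h4 : (∑ n ∈ Icc 1 X, r n) * Real.log X ≤
      ∑ n ∈ Icc 1 X, r n * Real.log n + X * ∑ n ∈ Icc 1 X, r n / n := by
    rw [sum_mul, mul_sum, ← sum_add_distrib]
    refine sum_le_sum fun n hn => ?_
    have n0 : (0 : ℝ) < n := Nat.cast_pos.2 (mem_Icc.1 hn).1
    have X0 : (0 : ℝ) < X := Nat.cast_pos.2 (by omega)
    have a := Real.log_le_self (div_pos X0 n0).le
    rw [Real.log_div X0.ne' n0.ne'] at a
    have b := mul_le_mul_of_nonneg_left a (r0 n)
    rw [mul_div_left_comm]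
    linarith
  linarith

end Pool.Agent.MP_f3836a_nt.VE.BC
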