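import Pool.Agent.MP_f3836a_nt.VE.SpecC

/-! Existence of a Hecke character of infinity type one. -/

set_option autoImplicit false

namespace Pool.Agent.MP_f3836a_nt.VE.BC

open Pool.Agent.MP_c481b3_nt.H28.W Algebra.GrothendieckGroup

namespace CLam

theorem extG {G H : Type} [CommGroup G] [CommGroup H] (i : G →* H) (f : G →* ℂˣ)
    (hi : Function.Injective i) : ∃ g : H →* ℂˣ, ∀ a, g (i a) = f a := by
  have : DivisibleBy (Additive ℂˣ) ℕ := divisibleByOfSMulRightSurj _ _ fun {n} hn a => by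
    obtain ⟨z, hz⟩ := IsAlgClosed.exists_pow_nat_eq (a.toMul : ℂ) (Nat.pos_of_ne_zero hn)
    have z0 : z ≠ 0 := by
      rintro rfl
      exact a.toMul.ne_zero (by rw [← hz, zero_pow hn])
    exact ⟨.ofMul (Units.mk0 z z0), Additive.toMul.injective (Units.ext hz)⟩
  have := AddGroup.divisibleByIntOfDivisibleByNat (Additive ℂˣ)
  obtain ⟨g, hg⟩ := (Module.Baer.of_divisible (Additive ℂˣ)).extension_property_addMonoidHom
    (MonoidHom.toAdditive i) hi (MonoidHom.toAdditive f)
  exact ⟨MonoidHom.toAdditive.symm g, fun a => DFunLike.congr_fun hg (.ofMul a)⟩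

theorem ext {P M : Type} [CommMonoid P] [CommMonoid M] (i : P →* M) (f : P →* ℂˣ)
    (hi : ∀ a b c, c * i a = c * i b → a = b) : ∃ g : M →* ℂˣ, ∀ a, g (i a) = f a := by
  obtain ⟨g, hg⟩ := extG (lift (of.comp i)) (lift f) <|
    (injective_iff_map_eq_one _).2 fun x hx => by
      rw [lift_apply, div_eq_one] at hx
      obtain ⟨c, hc⟩ := ((Localization.monoidOf ⊤).eq_iff_exists).1 hx
      rw [← (Localization.monoidOf ⊤).mk'_sec x, hi _ _ _ hc, Submonoid.LocalizationMap.mk'_self']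
  have e : ∀ {G : Type} [CommGroup G] (φ : P →* G) (a : P), lift φ (of a) = φ a := fun φ =>
    DFunLike.congr_fun (lift.symm_apply_apply φ)
  exact ⟨g.comp of, fun a => by rw [← e f, ← hg, e]; rfl⟩

/-- elements which are one modulo `Q` -/
def PQ (A Q : ℕ) : Submonoid (O A) where
  carrier := {β | (Q : O A) ∣ β - 1}
  mul_mem' := dvd_mul_sub
  one_mem' := by simp

end CLam

open CLam in
theorem rLam : OfLam := by
  intro hB hC A Q hA hQ
  have : Fact (1 < A) := ⟨hA⟩
  obtain ⟨b1, b2, -, b4, -, -, b7, -⟩ := hB A Q (fun _ => 0) hA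
  have c1 : Cp Q (1 : O A) := by simp [Cp]
  have n0 : ∀ β : PQ A Q, β.1 ≠ 0 := fun β e => by
    have := (b2 1 β c1 β.2).1
    simp [Cp, e] at this
    omega
  have e1 : emb (1 : O A) = 1 := by simp [emb, Complex.ext_iff]
  have e0 : ∀ β : PQ A Q, emb β.1 ≠ 0 := fun β e =>
    n0 β ((b7 β 0).2.2.2.2 (by rw [e]; simp [emb, Complex.ext_iff]))
  let i : PQ A Q →* MQ A Q :=
    { toFun := fun β => ⟨Ideal.span {β.1}, (b1 _).2 ⟨n0 β, (b2 1 β c1 β.2).1⟩⟩
      map_one' := Subtype.ext (by simp)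
      map_mul' := fun β γ => Subtype.ext (Ideal.span_singleton_mul_span_singleton _ _).symm }
  let f : PQ A Q →* ℂˣ :=
    { toFun := fun β => Units.mk0 _ (e0 β)
      map_one' := Units.ext e1
      map_mul' := fun β γ => Units.ext (b7 β γ).2.1 }
  obtain ⟨g, hg⟩ := ext i f fun β γ ⟨I, n, h0, _, h⟩ e => by
    obtain ⟨u, hu⟩ := Ideal.span_singleton_eq_span_singleton.1
      (h.cancel h0 (congrArg Subtype.val e))
    rcases unit_O u.isUnit with r | r <;> rw [r] at hu
    · exact Subtype.ext (by simpa using hu)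
    · have d : ((Q : ℤ) : O A) ∣ (2 : ℤ) := by
        have := (dvd_add β.2 γ.2).neg_right
        rw [← hu] at this
        rwa [show -(β.1 - 1 + (β.1 * -1 - 1)) = 2 by ring] at this
      have := Int.le_of_dvd two_pos ((Zsqrtd.intCast_dvd_intCast _ _).1 d)
      omega
  classical
  refine ⟨fun I => if h : I ∈ MQ A Q then g ⟨I, h⟩ else 0, fun I h J h' => ?_,
    fun I h n hn => ?_, fun β h => ?_⟩
  · rw [dif_pos h, dif_pos h', dif_pos (mul_mem h h'), ← Units.val_mul, ← map_mul]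
    rfl
  · have := (hC A Q Q hA dvd_rfl (by omega)).1
    have p : ∀ k : ℕ, cI Q (I ^ k) = k • cI Q I ∧ HasN (I ^ k) (n ^ k) := fun k => by
      induction k with
      | zero => simp [cI_top, hasN_top]
      | succ k ih =>
        rw [pow_succ, cI_mul (pow_mem h k) h, ih.1, succ_nsmul, pow_succ]
        exact ⟨rfl, ih.2.mul hn⟩
    obtain ⟨p1, p2⟩ := p (Nat.card (RC A Q))
    obtain ⟨β, hβ, e⟩ := (b4 _ (pow_mem h _) 1 c1).1
      (by rw [p1, card_nsmul_eq_zero', io, Ideal.span_singleton_one, cI_top])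
    have q : g ⟨I, h⟩ ^ Nat.card (RC A Q) = f ⟨β, hβ⟩ := by
      rw [← hg, ← map_pow]
      exact congrArg g (Subtype.ext e)
    rw [dif_pos h]
    refine (pow_left_inj₀ (by positivity) (by positivity) (Nat.card_pos (α := RC A Q)).ne').1 ?_
    rw [← pow_mul, mul_comm, pow_mul, ← norm_pow, ← Units.val_pow_eq_pow_val, q, ← Nat.cast_pow,
      p2.unique (e ▸ hasN_span β), ← Int.cast_natCast β.norm.natAbs, norm_nat]
    exact (b7 β β).2.2.1
  · exact (dif_pos (i ⟨β, h⟩).2).trans (congrArg Units.val (hg ⟨β, h⟩))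

end Pool.Agent.MP_f3836a_nt.VE.BC
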