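import Pool.Agent.MP_f3836a_nt.VE.SpecC

/-! The weighted local sum without repetitions. -/

set_option autoImplicit false

namespace Pool.Agent.MP_f3836a_nt.VE.BC

open Finset

namespace CLoc

theorem tm_lin {ι : Type} [Fintype ι] (μ : ι → ℝ) (j : ℕ) (a b : ℝ) (F G : (Fin j → ι) → ℝ) :
    tm μ j (fun s => a * F s + b * G s) = a * tm μ j F + b * tm μ j G := by
  simp only [tm, mul_sum, ← sum_add_distrib]
  exact sum_congr rfl fun s _ => by ring

theorem tm_mul {ι : Type} [Fintype ι] (μ : ι → ℝ) (j : ℕ) (a : ℝ) (F : (Fin j → ι) → ℝ) :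
    tm μ j (fun s => a * F s) = a * tm μ j F := by
  simp only [tm, mul_sum]
  exact sum_congr rfl fun s _ => by ring

theorem ind_nn (p : Prop) : 0 ≤ ind p := by
  unfold ind
  split_ifs <;> norm_num

theorem pt (z β : ℂ) (r : ℝ) (p n bd : Prop) (hr : 0 < r) (hb : 2 * r ≤ ‖β‖) (hn : ¬n → bd) :
    ‖z‖ ^ 2 * ind n * (ind p * tent ((z - β) / r)) ≤ 4 * ‖β‖ ^ 2 * ind (p ∧ ‖z - β‖ ≤ r) ∧
    |‖z‖ ^ 2 * ind n * (ind p * tent ((z - β) / r)) - ‖β‖ ^ 2 * (ind p * tent ((z - β) / r))|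
      ≤ 3 * r * ‖β‖ * ind (p ∧ ‖z - β‖ ≤ r) + 4 * ‖β‖ ^ 2 * ind (bd ∧ p ∧ ‖z - β‖ ≤ r) := by
  have h1 := ind_nn (p ∧ ‖z - β‖ ≤ r)
  have h2 := ind_nn (bd ∧ p ∧ ‖z - β‖ ≤ r)
  by_cases h : p ∧ ‖z - β‖ ≤ r
  · have t0 : 0 ≤ tent ((z - β) / r) := le_max_left _ _
    have t1 : tent ((z - β) / r) ≤ 1 := max_le zero_le_one (by linarith [norm_nonneg ((z - β) / r)])
    have e := abs_le.1 ((abs_norm_sub_norm_le z β).trans h.2)
    have z0 := norm_nonneg z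
    have a1 : ind (p ∧ ‖z - β‖ ≤ r) = 1 := if_pos h
    have a2 : ind p = 1 := if_pos h.1
    rw [a1, a2, one_mul]
    generalize tent ((z - β) / r) = τ at *
    have w1 : ‖z‖ ^ 2 ≤ 4 * ‖β‖ ^ 2 := by nlinarith
    by_cases hN : n
    · have a3 : ind n = 1 := if_pos hN
      have w2 : |‖z‖ ^ 2 - ‖β‖ ^ 2| ≤ 3 * r * ‖β‖ := abs_le.2 ⟨by nlinarith, by nlinarith⟩
      rw [a3, mul_one, ← sub_mul, abs_mul, abs_of_nonneg t0]
      refine ⟨by nlinarith [sq_nonneg ‖z‖], ?_⟩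
      nlinarith [abs_nonneg (‖z‖ ^ 2 - ‖β‖ ^ 2), mul_nonneg (sq_nonneg ‖β‖) h2]
    · have a3 : ind n = 0 := if_neg hN
      have a4 : ind (bd ∧ p ∧ ‖z - β‖ ≤ r) = 1 := if_pos ⟨hn hN, h⟩
      rw [a3, a4, mul_zero, zero_mul, zero_sub, abs_neg, abs_of_nonneg (by positivity)]
      refine ⟨by positivity, ?_⟩
      nlinarith [sq_nonneg ‖β‖, mul_nonneg hr.le (norm_nonneg β)]
  · have e : ind p * tent ((z - β) / r) = 0 := by
      by_cases hp : p
      · have : 1 ≤ ‖(z - β) / r‖ := by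
          rw [norm_div, Complex.norm_real, Real.norm_of_nonneg hr.le, one_le_div hr]
          exact (not_le.1 fun h' => h ⟨hp, h'⟩).le
        rw [tent, max_eq_left (by linarith), mul_zero]
      · rw [show ind p = 0 from if_neg hp, zero_mul]
    rw [e, mul_zero, mul_zero, sub_zero, abs_zero]
    exact ⟨by positivity, by positivity⟩

end CLoc

open CLoc in
theorem rLoc : OfLoc := by
  intro hT hU ι G _ _ μ x lam k j δ0 D r t g κ β Bd N hS hD hr hb hδ hj ht hB hN S e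
  obtain ⟨u1, u2⟩ := hU ι G μ x lam k j δ0 D r g κ β hS hD hr hb hδ
  replace u1 := u1 (by omega)
  replace u2 := u2 Bd t hj ht hB
  have mono := (hT ι μ).2.2.2.2.1 hS.1 j
  have b0 : 0 < ‖β‖ := by linarith
  have hp := fun s => pt (κ * ∏ i, lam (s i)) β r (∑ i, x (s i) = g) (N s) _ hr hb (hN s)
  have e' : ∀ c : ℝ, S - c * Sl μ x lam j g κ β r = tm μ j fun s =>
      ‖κ * ∏ i, lam (s i)‖ ^ 2 * ind (N s) *
        (ind (∑ i, x (s i) = g) * tent ((κ * ∏ i, lam (s i) - β) / r)) -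
        c * (ind (∑ i, x (s i) = g) * tent ((κ * ∏ i, lam (s i) - β) / r)) := fun c => by
    rw [e, Sl, sub_eq_add_neg, ← neg_mul, ← tm_lin]
    congr 1
    funext s
    rw [norm_mul]
    ring
  have v1 := mul_le_mul_of_nonneg_left u1 (by positivity : 0 ≤ 4 * ‖β‖ ^ 2)
  have v2 := add_le_add (mul_le_mul_of_nonneg_left u1 (by positivity : 0 ≤ 3 * r * ‖β‖))
    (mul_le_mul_of_nonneg_left u2 (by positivity : 0 ≤ 4 * ‖β‖ ^ 2))
  rw [← tm_mul] at v1
  rw [← tm_lin] at v2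
  replace v2 := v2.trans_eq (show _ = (3 * (r / ‖β‖) + 4 * j ^ 2 * t) * (D * r ^ 2) by field_simp)
  refine ⟨?_, abs_le.2 ⟨?_, ?_⟩⟩
  · have := e' 0
    rw [zero_mul, sub_zero] at this
    rw [this]
    refine le_trans (mono _ _ fun s => ?_) (v1.trans_eq (by field_simp))
    simpa only [zero_mul, sub_zero] using (hp s).1
  · have := mul_le_mul_of_nonpos_left v2 (by norm_num : (-1 : ℝ) ≤ 0)
    rw [← tm_mul, neg_one_mul] at this
    rw [e']
    exact this.trans (mono _ _ fun s => by linarith [(abs_le.1 (hp s).2).1])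
  · rw [e']
    exact (mono _ _ fun s => (abs_le.1 (hp s).2).2).trans v2

end Pool.Agent.MP_f3836a_nt.VE.BC
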