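import Pool.Agent.MP_f3836a_nt.VE.SpecC

/-! The large sieve for rough elements. -/

set_option autoImplicit false

namespace Pool.Agent.MP_f3836a_nt.VE.BC

open Finset Pool.Agent.MP_c481b3_nt.H28.W

namespace CLsa

theorem sd_nonneg (A : ℕ) (P : Finset ℕ) : 0 ≤ sd A P := prod_nonneg fun l _ => by
  rw [sub_nonneg, nuN]
  refine div_le_one_of_le₀ ?_ (by positivity)
  have := card_filter_le (range l ×ˢ range l) fun v : ℕ × ℕ => l ∣ v.1 ^ 2 + A * v.2 ^ 2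
  rw [card_product, card_range, ← sq] at this
  exact_mod_cast this

/-- expansion of the square -/
theorem expand {ι : Type} (T : Finset ι) {M : ℕ} (L : ι → ℝ) (ψ : Fin M → ι → ℂ) (α : Fin M → ℂ)
    (D E : ℝ) (hL : ∀ v, 0 ≤ L v) (hψ : ∀ i v, ‖ψ i v‖ ≤ 1) (hα : ∀ i, ‖α i‖ ≤ 1)
    (hD : ∑ v ∈ T, L v ≤ D) (hE0 : 0 ≤ E)
    (hE : ∀ i j, i < j → ‖∑ v ∈ T, (L v : ℂ) * (ψ i v * (starRingEnd ℂ) (ψ j v))‖ ≤ E) :
    ∑ v ∈ T, L v * ‖∑ i, α i * ψ i v‖ ^ 2 ≤ M * D + M ^ 2 * E := by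
  have e : ((∑ v ∈ T, L v * ‖∑ i, α i * ψ i v‖ ^ 2 : ℝ) : ℂ) = ∑ i, ∑ j,
      α i * (starRingEnd ℂ) (α j) * ∑ v ∈ T, (L v : ℂ) * (ψ i v * (starRingEnd ℂ) (ψ j v)) := by
    simp only [mul_sum]
    rw [sum_congr rfl fun i _ => sum_comm, sum_comm]
    push_cast
    refine sum_congr rfl fun v _ => ?_
    rw [← Complex.mul_conj', map_sum, sum_mul_sum, mul_sum]
    refine sum_congr rfl fun i _ => ?_
    rw [mul_sum]
    exact sum_congr rfl fun j _ => by rw [map_mul]; ring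
  have b : ∀ i j, ‖∑ v ∈ T, (L v : ℂ) * (ψ i v * (starRingEnd ℂ) (ψ j v))‖ ≤
      (if i = j then D else 0) + E := fun i j => by
    rcases lt_trichotomy i j with h | rfl | h
    · rw [if_neg h.ne, zero_add]; exact hE i j h
    · rw [if_pos rfl]
      refine (norm_sum_le _ _).trans ((sum_le_sum fun v _ => ?_).trans (hD.trans (by linarith)))
      rw [norm_mul, norm_mul, Complex.norm_conj, Complex.norm_real, Real.norm_of_nonneg (hL v)]
      exact mul_le_of_le_one_right (hL v) (mul_le_one₀ (hψ i v) (norm_nonneg _) (hψ i v))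
    · rw [if_neg h.ne', zero_add, ← Complex.norm_conj, map_sum]
      refine le_of_eq_of_le (congrArg _ (sum_congr rfl fun v _ => ?_)) (hE j i h)
      simp [mul_comm]
  refine (le_abs_self _).trans ?_
  rw [← Real.norm_eq_abs, ← Complex.norm_real, e]
  refine (norm_sum_le _ _).trans ((sum_le_sum fun i _ => (norm_sum_le _ _).trans
    (sum_le_sum fun j _ => (?_ : _ ≤ (if i = j then D else 0) + E))).trans (le_of_eq ?_))
  · rw [norm_mul, norm_mul, Complex.norm_conj]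
    exact (mul_le_of_le_one_left (norm_nonneg _)
      (mul_le_one₀ (hα i) (norm_nonneg _) (hα j))).trans (b i j)
  · simp [sum_add_distrib]
    ring

/-- a set inside a box -/
theorem inbox {A : ℕ} (S : Finset (O A)) (g : O A → ℝ) (hg : ∀ β, 0 ≤ g β) (R R' : ℕ)
    (h : ∀ β ∈ S, |β.re| ≤ R ∧ |β.im| ≤ R') :
    ∑ β ∈ S, g β ≤ ∑ v ∈ range (2 * R + 1) ×ˢ range (2 * R' + 1), g (⟨-R, -R'⟩ + ⟨v.1, v.2⟩) := by
  classical
  rw [← sum_image (g := fun v : ℕ × ℕ => (⟨-R, -R'⟩ + ⟨v.1, v.2⟩ : O A)) (f := g) fun v _ v' _ e => by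
    simpa [Zsqrtd.ext_iff, Prod.ext_iff] using e]
  refine sum_le_sum_of_subset_of_nonneg (fun β hβ => ?_) fun _ _ _ => hg _
  obtain ⟨h1, h2⟩ := h β hβ
  rw [abs_le] at h1 h2
  refine mem_image.2 ⟨((β.re + R).toNat, (β.im + R').toNat), ?_, ?_⟩
  · simp only [mem_product, mem_range]; omega
  · ext <;> simp only [Zsqrtd.re_add, Zsqrtd.im_add] <;> omega

end CLsa

open CLsa in
theorem rLsa : OfLsa := by
  rintro ⟨C, hC, hd⟩ ho E0 a
  refine ⟨36 * C * (a + 1), 96 * (a + 1), by positivity, ?_⟩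
  intro Y A M ψ α S hY hA hAY hψ hα hosc hS
  classical
  have a0 : (0 : ℝ) ≤ a := Nat.cast_nonneg a
  have Y1 : (1 : ℝ) ≤ Y := by linarith
  have Y0 : (0 : ℝ) < Y := by linarith
  have A1 : (1 : ℝ) ≤ A := by exact_mod_cast hA.le
  have s1 : 1 ≤ √(A : ℝ) := Real.one_le_sqrt.2 A1
  have s0 : 0 < √(A : ℝ) := by linarith
  have s2 : √(A : ℝ) ≤ Y ^ E0 := (Real.sqrt_le_self_iff.2 (Or.inr A1)).trans hAY
  have ss : √(A : ℝ) ^ 2 = A := Real.sq_sqrt (by linarith)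
  have l4 : ∀ x : ℝ, 4 ≤ x → 1 ≤ Real.log x := fun x hx => by
    rw [Real.le_log_iff_exp_le (by linarith)]
    linarith [Real.exp_one_lt_d9]
  have lY := l4 Y (by linarith)
  have sd0 := sd_nonneg A (Pr A Y)
  obtain ⟨hd1, hd2⟩ := hd A Y (Pr A Y) (by linarith) subset_rfl
  have n0 : ∀ β ∈ S, β.norm.natAbs ≠ 0 ∧ ((β.norm.natAbs : ℕ) : ℝ) = β.norm := fun β hβ => by
    have : (0 : ℝ) < β.norm := (pow_pos Y0 _).trans_le (hS β hβ).1
    have : 0 < β.norm := by exact_mod_cast this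
    exact ⟨by omega, by rw [← Int.cast_natCast, Int.natAbs_of_nonneg this.le]⟩
  have shell : ∀ t : ℕ, ∑ β ∈ S.filter fun β => Nat.log 4 β.norm.natAbs = t,
      ‖∑ i, α i * ψ i β‖ ^ 2 / β.norm ≤
      36 * C * M * sd A (Pr A Y) / √A + 96 * M ^ 2 / Y ^ (E0 + 6) := fun t => by
    obtain ⟨R, hR⟩ : ∃ R : ℕ, R = 2 ^ (t + 1) := ⟨_, rfl⟩
    have R2 : (R : ℝ) ^ 2 = 4 ^ (t + 1) := by
      rw [hR]; push_cast; rw [← pow_mul, mul_comm, pow_mul]; norm_num
    have R0 : (0 : ℝ) < R := by rw [hR]; positivity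
    have hN : ∀ β ∈ S.filter fun β => Nat.log 4 β.norm.natAbs = t,
        (R : ℝ) ^ 2 ≤ 4 * β.norm ∧ (β.norm : ℝ) ≤ R ^ 2 := fun β hβ => by
      obtain ⟨h1, rfl⟩ := mem_filter.1 hβ
      rw [R2, ← (n0 β h1).2, pow_succ']
      exact ⟨by exact_mod_cast Nat.mul_le_mul_left 4 (Nat.pow_log_le_self 4 (n0 β h1).1),
        by rw [← pow_succ']; exact_mod_cast (Nat.lt_pow_succ_log_self (by norm_num) _).le⟩
    rcases (S.filter fun β => Nat.log 4 β.norm.natAbs = t).eq_empty_or_nonempty with e | ⟨β₀, h₀⟩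
    · rw [e, sum_empty]; positivity
    have RY : Y ^ (3 * E0 + 10) ≤ R := by
      refine le_of_sq_le_sq ?_ R0.le
      rw [← pow_mul, show (3 * E0 + 10) * 2 = 6 * E0 + 20 by ring]
      exact (hS β₀ (mem_filter.1 h₀).1).1.trans (hN β₀ h₀).2
    obtain ⟨r, hr⟩ : ∃ r : ℝ, r = R / √A := ⟨_, rfl⟩
    have r6 : Y ^ 6 ≤ r := by
      rw [hr, le_div_iff₀ s0]
      refine le_trans ?_ RY
      refine (mul_le_mul_of_nonneg_left s2 (by positivity)).trans ?_
      rw [← pow_add]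
      exact pow_le_pow_right₀ Y1 (by omega)
    have r1 : 1 ≤ r := (one_le_pow₀ Y1).trans r6
    have rR : r ≤ R := hr ▸ div_le_self R0.le s1
    have f1 := Nat.floor_le (zero_le_one.trans r1)
    have f2 := Nat.lt_floor_add_one r
    have f3 : (0 : ℝ) ≤ ⌊r⌋₊ := Nat.cast_nonneg _
    have x1 : ((2 * R + 1 : ℕ) : ℝ) ≤ 3 * R := by push_cast; linarith
    have x2 : ((2 * ⌊r⌋₊ + 1 : ℕ) : ℝ) ≤ 3 * r := by push_cast; linarith
    have d1 := hd2 ⟨-R, -⌊r⌋₊⟩ 1 Zsqrtd.sqrtd (2 * R + 1) (2 * ⌊r⌋₊ + 1) (fun l hl h => by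
      have := (mem_filter.1 hl).2.1.one_lt
      have := Int.le_of_dvd one_pos (by simpa using h)
      omega) (by push_cast; linarith) (by push_cast; linarith)
    have ee : ∀ (b : O A) (x y : ℕ), b + (x : O A) * 1 + (y : O A) * Zsqrtd.sqrtd = b + ⟨x, y⟩ :=
      fun b x y => by ext <;> simp
    simp only [ee, ← sum_product'] at d1
    have L0 : ∀ β : O A, 0 ≤ Lw (Pr A Y) ⌊√Y⌋₊ β := fun β => sq_nonneg _
    have k1 : ∀ β ∈ S.filter fun β => Nat.log 4 β.norm.natAbs = t,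
        |β.re| ≤ R ∧ |β.im| ≤ ⌊r⌋₊ := fun β hβ => by
      have h := (hN β hβ).2
      rw [Zsqrtd.norm_def] at h
      push_cast at h
      constructor
      · have : |(β.re : ℝ)| ≤ R := abs_le_of_sq_le_sq (by nlinarith [sq_nonneg (β.im : ℝ)]) R0.le
        exact_mod_cast this
      · have : |(β.im : ℝ)| ≤ r := by
          rw [hr, le_div_iff₀ s0, ← abs_of_pos s0, ← abs_mul]
          refine abs_le_of_sq_le_sq ?_ R0.le
          rw [mul_pow, ss]
          nlinarith [sq_nonneg (β.re : ℝ)]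
        rw [← Int.natCast_natAbs, Nat.cast_le]
        refine Nat.le_floor ?_
        rwa [← Int.cast_natCast, Int.natCast_natAbs, Int.cast_abs]
    have key := (inbox _ (fun β => Lw (Pr A Y) ⌊√Y⌋₊ β * ‖∑ i, α i * ψ i β‖ ^ 2)
      (fun β => mul_nonneg (L0 β) (sq_nonneg _)) R ⌊r⌋₊ k1).trans
      (expand _ (fun v : ℕ × ℕ => Lw (Pr A Y) ⌊√Y⌋₊ (⟨-R, -⌊r⌋₊⟩ + ⟨v.1, v.2⟩ : O A))
        (fun i v => ψ i (⟨-R, -⌊r⌋₊⟩ + ⟨v.1, v.2⟩)) α (C * (3 * R * (3 * r)) * sd A (Pr A Y))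
        (4 * Y ^ (2 * E0) * Y ^ 4 * (6 * R)) (fun _ => L0 _) (fun _ _ => hψ _ _) hα
        (d1.trans (by gcongr)) (by positivity) fun i j hij => by
          obtain ⟨q, hq, hO⟩ := hosc i j hij
          have := ho A q Y (Pr A Y) _ ⟨-R, -⌊r⌋₊⟩ (2 * R + 1) (2 * ⌊r⌋₊ + 1) (by linarith)
            subset_rfl hO
          rw [← sum_product'] at this
          refine this.trans ?_
          gcongr
          linarith)
    refine le_trans (sum_le_sum fun β hβ => (?_ : _ ≤ 4 / (R : ℝ) ^ 2 *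
      (Lw (Pr A Y) ⌊√Y⌋₊ β * ‖∑ i, α i * ψ i β‖ ^ 2))) ?_
    · have := (hN β hβ).1
      have p : (0 : ℝ) < β.norm := by nlinarith [pow_pos R0 2]
      rw [hd1 β (hS β (mem_filter.1 hβ).1).2.2, one_mul, div_eq_inv_mul]
      refine mul_le_mul_of_nonneg_right ?_ (sq_nonneg _)
      rw [le_div_iff₀ (pow_pos R0 2), inv_mul_le_iff₀ p]
      linarith
    · rw [← mul_sum]
      refine (mul_le_mul_of_nonneg_left key (by positivity)).trans ?_
      rw [mul_add, hr]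
      refine add_le_add (le_of_eq (by field_simp; ring)) ?_
      rw [show 4 / (R : ℝ) ^ 2 * (M ^ 2 * (4 * Y ^ (2 * E0) * Y ^ 4 * (6 * R))) =
        96 * M ^ 2 * Y ^ (2 * E0 + 4) / R by field_simp; ring, div_le_div_iff₀ R0 (by positivity),
        mul_assoc, ← pow_add, show 2 * E0 + 4 + (E0 + 6) = 3 * E0 + 10 by ring]
      gcongr
  rw [← sum_fiberwise_of_maps_to (t := range (⌊a * Real.log Y⌋₊ + 1))
    (g := fun β : O A => Nat.log 4 β.norm.natAbs) fun β hβ => ?_]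
  · refine (sum_le_card_nsmul _ _ _ fun t _ => shell t).trans ?_
    have c1 : ((⌊a * Real.log Y⌋₊ + 1 : ℕ) : ℝ) ≤ (a + 1) * Real.log Y := by
      have := Nat.floor_le (show 0 ≤ a * Real.log Y by positivity)
      push_cast
      linarith
    rw [card_range, nsmul_eq_mul]
    refine (mul_le_mul_of_nonneg_right c1 (by positivity)).trans ?_
    rw [mul_add]
    refine add_le_add (le_of_eq (by ring)) ?_
    rw [← mul_div_assoc, div_le_div_iff₀ (by positivity) (by positivity),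
      show (a + 1) * Real.log Y * (96 * M ^ 2) * Y ^ (E0 + 3) =
        M ^ 2 * (Y ^ (E0 + 3) * (96 * (a + 1) * Real.log Y * 1)) by ring,
      show Y ^ (E0 + 6) = Y ^ (E0 + 3) * (Y * Y * Y) by ring]
    gcongr
    exact (Real.log_le_sub_one_of_pos Y0).trans (by linarith)
  · rw [mem_range, Nat.lt_add_one_iff]
    refine Nat.le_floor ?_
    have h1 : (4 : ℝ) ^ Nat.log 4 β.norm.natAbs ≤ Y ^ a := by
      refine le_trans ?_ (hS β hβ).2.1
      rw [← (n0 β hβ).2]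
      exact_mod_cast Nat.pow_log_le_self 4 (n0 β hβ).1
    have h2 := Real.log_le_log (by positivity) h1
    rw [Real.log_pow, Real.log_pow] at h2
    exact (le_mul_of_one_le_right (Nat.cast_nonneg _) (l4 4 le_rfl)).trans h2

end Pool.Agent.MP_f3836a_nt.VE.BC
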