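import Pool.Agent.MP_f3836a_nt.VE.SpecC

/-! Few independent large characters. -/

set_option autoImplicit false

namespace Pool.Agent.MP_f3836a_nt.VE.BC

open Finset Pool.Agent.MP_c481b3_nt.H28.W

namespace CLsb

variable {A Q : ℕ}

theorem cp_one : Cp Q (1 : O A) := by simp [Cp]

theorem io_one : io Q (1 : O A) = 0 := by rw [io, Ideal.span_singleton_one, cI_top]

theorem per (hB : BasS) (hA : 1 < A) (χ : AddChar (RC A Q) ℂ) {c c' : O A}
    (h : (Q : O A) ∣ c' - c) : chO Q χ c' = chO Q χ c := by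
  have b := (hB A Q (fun _ => 0) hA).2.1
  unfold chO
  by_cases e : Cp Q c
  · rw [if_pos e, if_pos (b c c' e h).1, (b c c' e h).2]
  · rw [if_neg e, if_neg fun e' => e (b c' c e' (dvd_sub_comm.1 h)).1]

theorem mul (hB : BasS) (hA : 1 < A) (χ : AddChar (RC A Q) ℂ) {c : O A} (h : Cp Q c) (β : O A) :
    chO Q χ (c * β) = χ (io Q c) * chO Q χ β := by
  have b := (hB A Q (fun _ => 0) hA).2.2.1
  unfold chO
  by_cases e : Cp Q β
  · rw [if_pos e, if_pos (b c β h e).1, (b c β h e).2, AddChar.map_add_eq_mul]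
  · rw [if_neg e, if_neg, mul_zero]
    intro e'
    unfold Cp at e e'
    rw [Zsqrtd.norm_mul, Int.natAbs_mul] at e'
    exact e (Nat.Coprime.coprime_mul_left e')

theorem le_one (hC : CardS) (hA : 1 < A) (hQ : 0 < Q) (χ : AddChar (RC A Q) ℂ) (β : O A) :
    ‖chO Q χ β‖ ≤ 1 := by
  have := (hC A 1 Q hA (one_dvd _) hQ).1
  unfold chO
  split_ifs
  · rw [AddChar.norm_apply]
  · simp

theorem not_dvd {l : ℕ} (hl : l.Prime) (h : l ∣ Q) {c : O A} (hc : Cp Q c) : ¬(l : ℤ) ∣ c.norm :=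
  fun e => hl.one_lt.ne' (Nat.eq_one_of_dvd_coprimes hc (Int.natCast_dvd.1 e) h)

theorem osc (hB : BasS) (hC : CardS) (hA : 1 < A) {Q' l : ℕ} (hQ : 0 < Q) (hQ' : 0 < Q')
    (hl : l.Prime) (hn : ¬l ∣ Q') (χ : AddChar (RC A Q) ℂ) (χ' : AddChar (RC A Q') ℂ)
    (h : ∃ c : O A, Cp Q c ∧ ((ordCompl[l] Q : ℕ) : O A) ∣ c - 1 ∧ χ (io Q c) ≠ 1)
    {P : Finset ℕ} (hP : ∀ p ∈ P, p.Prime) :
    Osc A (Q * Q') P fun β => chO Q χ β * (starRingEnd ℂ) (chO Q' χ' β) := by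
  have b := fun Q => (hB A Q (fun _ => 0) hA).2.1
  refine ⟨Nat.mul_pos hQ hQ', fun β γ => ?_, fun β => ?_, ?_⟩
  · rw [per hB hA χ (c := β) ⟨Q' * γ, by push_cast; ring⟩,
      per hB hA χ' (c := β) ⟨Q * γ, by push_cast; ring⟩]
  · rw [norm_mul, Complex.norm_conj]
    exact mul_le_one₀ (le_one hC hA hQ _ _) (norm_nonneg _) (le_one hC hA hQ' _ _)
  obtain ⟨c, h1, ⟨u, h2⟩, h3⟩ := h
  have lQ : l ∣ Q := by
    by_contra e
    rw [(Nat.ordCompl_eq_self_iff_zero_or_not_dvd Q hl).2 (Or.inr e)] at h2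
    exact h3 (by rw [(b Q 1 c cp_one ⟨u, h2⟩).2, io_one, AddChar.map_zero_eq_one])
  have co : Nat.Coprime (ordProj[l] Q) (Q' * ∏ p ∈ P.erase l, p) :=
    Nat.Coprime.pow_left _ (((Nat.Prime.coprime_iff_not_dvd hl).2 hn).mul_right
      (Nat.Coprime.prod_right fun p hp => (Nat.coprime_primes hl (hP p (mem_of_mem_erase hp))).2
        (ne_of_mem_erase hp).symm))
  obtain ⟨x, y, e⟩ := Nat.Coprime.cast (R := O A) co
  have eQ : (Q : O A) = (ordProj[l] Q : ℕ) * (ordCompl[l] Q : ℕ) := by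
    rw [← Nat.cast_mul, Nat.ordProj_mul_ordCompl_eq_self]
  generalize ((ordProj[l] Q : ℕ) : O A) = n1 at e eQ
  generalize ((ordCompl[l] Q : ℕ) : O A) = n3 at h2 eQ
  have d1 : (Q : O A) ∣ c - x * n1 * (c - 1) - c := ⟨-(x * u), by rw [h2, eQ]; ring⟩
  have d2 : ∀ n : ℕ, n ∣ Q' * ∏ p ∈ P.erase l, p → (n : O A) ∣ c - x * n1 * (c - 1) - 1 :=
    fun n hn => (Nat.cast_dvd_cast hn).trans ⟨y * (c - 1), by linear_combination (1 - c) * e⟩
  obtain ⟨a1, a2⟩ := b Q c _ h1 d1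
  obtain ⟨a3, a4⟩ := b Q' 1 _ cp_one (d2 _ (dvd_mul_right _ _))
  refine ⟨_, χ (io Q c), Nat.Coprime.mul_right a1 a3, fun p hp => ?_, h3, fun β => ?_⟩
  · by_cases e : p = l
    · exact e ▸ not_dvd hl lQ a1
    · exact not_dvd (hP p hp) dvd_rfl (b p 1 _ cp_one
        (d2 _ ((dvd_prod_of_mem _ (mem_erase.2 ⟨e, hp⟩)).mul_left _))).1
  · rw [mul hB hA χ a1, mul hB hA χ' a3, a2, a4, io_one, AddChar.map_zero_eq_one, one_mul,
      mul_assoc]

theorem tel (N : ℕ) : ∏ n ∈ Ico 2 (N + 2), (1 - 1 / (n : ℝ)) = 1 / (N + 1) := by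
  induction N with
  | zero => simp
  | succ N ih =>
    rw [show N + 1 + 2 = N + 2 + 1 from rfl, prod_Ico_succ_top (by omega), ih]
    push_cast
    field_simp
    ring

theorem sd_ge (hN : NuS) (A : ℕ) {Y : ℝ} (hY : 2 ≤ Y) : 1 ≤ sd A (Pr A Y) * Y ^ 2 := by
  obtain ⟨N, hn⟩ : ∃ N, ⌈Y⌉₊ = N + 2 :=
    Nat.exists_eq_add_of_le' (by exact_mod_cast hY.trans (Nat.le_ceil Y))
  have h1 : (N : ℝ) + 1 ≤ Y := by
    have := Nat.ceil_lt_add_one (a := Y) (by linarith)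
    rw [hn] at this; push_cast at this; linarith
  have h0 : ∀ n ∈ Ico 2 (N + 2), 0 ≤ 1 - 1 / (n : ℝ) := fun n h => by
    have : (2 : ℝ) ≤ n := by exact_mod_cast (mem_Ico.1 h).1
    rw [sub_nonneg, div_le_one (by linarith)]; linarith
  have sub : Pr A Y ⊆ Ico 2 (N + 2) := fun p hp => by
    simp only [Pr, mem_filter, mem_range, hn] at hp
    exact mem_Ico.2 ⟨hp.2.1.two_le, hp.1⟩
  have h2 : 1 / ((N : ℝ) + 1) ≤ ∏ n ∈ Pr A Y, (1 - 1 / (n : ℝ)) := by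
    rw [← tel]
    exact prod_le_prod_of_subset_of_le_one sub h0 fun n _ _ => by
      have : 0 ≤ 1 / (n : ℝ) := by positivity
      linarith
  have h3 : (∏ n ∈ Pr A Y, (1 - 1 / (n : ℝ))) ^ 2 ≤ sd A (Pr A Y) := by
    rw [← prod_pow]
    exact prod_le_prod (fun _ _ => sq_nonneg _) fun p hp => (hN A p (mem_filter.1 hp).2.1).2.2.1
  calc (1 : ℝ) = (1 / ((N : ℝ) + 1)) ^ 2 * (N + 1) ^ 2 := by field_simp
    _ ≤ _ := by gcongr; exacts [(sq_nonneg _).trans h3, (pow_le_pow_left₀ (by positivity) h2 2).trans h3]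

theorem cs {ι : Type} (S : Finset ι) (m n : ι → ℝ) (F : ι → ℂ) (K : ℝ)
    (h : ∀ β ∈ S, 0 ≤ m β ∧ m β * n β ≤ K ∧ 0 < n β) :
    ‖∑ β ∈ S, (m β : ℂ) * F β‖ ^ 2 ≤ (∑ β ∈ S, m β) * (K * ∑ β ∈ S, ‖F β‖ ^ 2 / n β) := by
  refine (pow_le_pow_left₀ (norm_nonneg _) (norm_sum_le _ _) 2).trans ?_
  rw [mul_sum]
  refine sum_sq_le_sum_mul_sum_of_sq_le_mul _ (fun β hβ => (h β hβ).1) (fun β hβ => ?_)
    fun β hβ => ?_
  · obtain ⟨a, b, c⟩ := h β hβ
    exact mul_nonneg ((mul_nonneg a c.le).trans b) (div_nonneg (sq_nonneg _) c.le)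
  · obtain ⟨a, b, c⟩ := h β hβ
    rw [norm_mul, Complex.norm_real, Real.norm_of_nonneg a, mul_pow, sq, mul_assoc]
    refine mul_le_mul_of_nonneg_left ?_ a
    rw [← mul_div_assoc, le_div_iff₀ c, mul_right_comm]
    exact mul_le_mul_of_nonneg_right b (sq_nonneg _)

end CLsb

open CLsb in
theorem rLsb : OfLsb := by
  intro hB hC hN hM hA hL L0 E0 E1 C1 hL0 hE0
  obtain ⟨k0, C0, -, hC0, HM⟩ := hM L0 E0 E1 C1 hL0 hE0
  obtain ⟨k, hk⟩ : ∃ k, k = k0 + 3 * E0 + 10 := ⟨_, rfl⟩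
  obtain ⟨C, Y1, c0, HA⟩ := hA E0 (2 * k * L0 * E1)
  obtain ⟨K, hK⟩ : ∃ K : ℝ, K = (4 ^ (L0 * (2 * k)) * |C1|) ^ (2 * k) := ⟨_, rfl⟩
  have K0 : 0 ≤ K := by rw [hK]; positivity
  have k1 : (1 : ℝ) ≤ k := by exact_mod_cast (by omega : 1 ≤ k)
  obtain ⟨τ, hτ⟩ : ∃ τ : ℝ, τ = 1 / (8 * k * C0) := ⟨_, rfl⟩
  have t0 : 0 < τ := by rw [hτ]; positivity
  have t1 : 8 * k * C0 * τ = 1 := by rw [hτ]; field_simp
  have kC : 1 ≤ k * C0 := one_le_mul_of_one_le_of_one_le k1 hC0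
  have t2 : τ ≤ 1 := by nlinarith
  refine ⟨⌈8 * K * C * |C1|⌉₊, τ ^ 2 / 2, max Y1 (max 7 (8 * K * |C1|)), by positivity,
    fun Y A ss Val St μ hY bh M Q l χ hV hij => ?_⟩
  simp only [max_le_iff] at hY
  obtain ⟨y1, y7, y8⟩ := hY
  have Y1' : 1 ≤ Y := by linarith
  have := (hC A 1 1 bh.one dvd_rfl one_pos).1
  have h0 : (0 : ℝ) < Nat.card (RC A 1) := by exact_mod_cast Nat.card_pos
  obtain ⟨S, m, s1, s2, s3⟩ := hL L0 E0 E1 k0 k A C0 C1 Y ss Val St μ (by linarith) bh (by omega)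
    (HM Y A 1 ss Val St St μ y7 bh one_pos (by simpa using one_le_pow₀ Y1')
      fun x hx => mem_filter.2 ⟨hx, by simp⟩)
  choose α a1 a2 using fun i => s3 (Q i) (χ i) _ (hV i).pos (hV i).big
  have hb := bh.hb
  unfold Hb at hb
  have sg := sd_ge hN A (Y := Y) (by linarith)
  have la := HA Y A M (fun i => chO (Q i) (χ i)) α S y1 bh.one bh.size
    (fun i => le_one hC bh.one (hV i).pos _) (fun i => (a1 i).le)
    (fun i j h => ⟨Q i * Q j, by
      rw [two_mul, pow_add, Nat.cast_mul]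
      exact mul_le_mul (hV i).le (hV j).le (by positivity) (by positivity),
      osc hB hC bh.one (hV i).pos (hV j).pos (hV i).prime (hij i j h) _ _ (hV i).ne
        fun p hp => (mem_filter.1 hp).2.1⟩)
    fun β hβ => ⟨(pow_le_pow_right₀ Y1' (by nlinarith)).trans (s2 β hβ).2.2.1, (s2 β hβ).2.2.2⟩
  have c1 := cs S m (fun β => β.norm) (fun β => ∑ i, α i * chO (Q i) (χ i) β) K fun β hβ =>
    ⟨(s2 β hβ).1, hK ▸ (s2 β hβ).2.1, (pow_pos (by linarith) _).trans_le (s2 β hβ).2.2.1⟩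
  generalize (Nat.card (RC A 1) : ℝ) = h at *
  generalize sd A (Pr A Y) = σ at *
  generalize hT : ∑ β ∈ S, m β = T at *
  have T0 : 0 < T := (by positivity : 0 < 1 / h).trans_le s1
  have a3 : ∀ i, ‖∑ β ∈ S, (m β : ℂ) * (α i * chO (Q i) (χ i) β) - T‖ ≤ T / 2 := fun i => by
    refine (a2 i).trans ?_
    rw [show 2 * (τ ^ 2 / 2) = τ ^ 2 by ring, Real.sqrt_sq t0.le]
    calc _ ≤ (1 / 2) / h := by gcongr; nlinarith [mul_pos (one_pos.trans_le kC) t0]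
      _ = (1 / h) / 2 := by ring
      _ ≤ _ := by gcongr
  have a4 : M * T / 2 ≤ ‖∑ β ∈ S, (m β : ℂ) * ∑ i, α i * chO (Q i) (χ i) β‖ := by
    have e : (M * T : ℝ) = (∑ β ∈ S, (m β : ℂ) * ∑ i, α i * chO (Q i) (χ i) β) -
        ∑ i, (∑ β ∈ S, (m β : ℂ) * (α i * chO (Q i) (χ i) β) - T) := by
      simp only [sum_sub_distrib, mul_sum]
      rw [sum_comm]
      simp
    have n1 := (norm_sum_le _ _).trans (sum_le_sum fun i (_ : i ∈ univ) => a3 i)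
    have n2 := (congrArg norm e).trans_le (norm_sub_le _ _)
    rw [Complex.norm_real, Real.norm_of_nonneg (by positivity)] at n2
    simp only [sum_const, card_univ, Fintype.card_fin, nsmul_eq_mul] at n1
    linarith
  have A1 : (1 : ℝ) ≤ A := by exact_mod_cast bh.one.le
  have sA : 0 < √(A : ℝ) := Real.sqrt_pos.2 (by linarith)
  have σ0 : 0 < σ := (mul_pos_iff_of_pos_right (by positivity)).1 (one_pos.trans_le sg)
  have lg : 1 ≤ Real.log Y := by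
    rw [Real.le_log_iff_exp_le (by linarith)]
    linarith [Real.exp_one_lt_three]
  have b1 : Real.log Y * σ / √A ≤ |C1| / h := by
    rw [div_le_div_iff₀ sA h0]
    nlinarith [le_abs_self C1]
  have b2 : h ≤ |C1| * Y ^ (E0 + 2) := by
    have q1 : √(A : ℝ) ≤ Y ^ E0 := (Real.sqrt_le_iff.2 ⟨by linarith, by nlinarith⟩).trans bh.size
    calc h ≤ h * Real.log Y * (σ * Y ^ 2) := by nlinarith [mul_le_mul lg sg zero_le_one (by linarith)]
      _ = h * Real.log Y * σ * Y ^ 2 := by ring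
      _ ≤ |C1| * Y ^ E0 * Y ^ 2 := mul_le_mul_of_nonneg_right
        (hb.trans (mul_le_mul (le_abs_self _) q1 sA.le (abs_nonneg _))) (sq_nonneg _)
      _ = _ := by ring
  have b3 : K / Y ^ (E0 + 3) ≤ 1 / (8 * h) := by
    rw [div_le_div_iff₀ (by positivity) (by positivity)]
    calc K * (8 * h) ≤ K * (8 * (|C1| * Y ^ (E0 + 2))) := by gcongr
      _ = 8 * K * |C1| * Y ^ (E0 + 2) := by ring
      _ ≤ Y * Y ^ (E0 + 2) := by gcongr
      _ = _ := by ring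
  have b4 : (M * T / 2) ^ 2 ≤ T * (K * C * M * (|C1| / h) + M ^ 2 * (1 / (8 * h))) := by
    refine (pow_le_pow_left₀ (by positivity) a4 2).trans (c1.trans ?_)
    refine mul_le_mul_of_nonneg_left ((mul_le_mul_of_nonneg_left la K0).trans ?_) T0.le
    calc _ = K * C * M * (Real.log Y * σ / √A) + M ^ 2 * (K / Y ^ (E0 + 3)) := by ring
      _ ≤ _ := by gcongr
  have b5 : (M : ℝ) ^ 2 / 4 * (1 / h) ≤ K * C * M * (|C1| / h) + M ^ 2 * (1 / (8 * h)) :=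
    (mul_le_mul_of_nonneg_left s1 (by positivity)).trans
      (le_of_mul_le_mul_left (by linarith) T0)
  have b6 : (M : ℝ) * M ≤ M * (8 * K * C * |C1|) := by
    have := mul_le_mul_of_nonneg_right b5 h0.le
    field_simp at this
    linarith
  rcases Nat.eq_zero_or_pos M with e | e
  · omega
  · exact_mod_cast (le_of_mul_le_mul_left b6 (by exact_mod_cast e)).trans (Nat.le_ceil _)

end Pool.Agent.MP_f3836a_nt.VE.BC
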