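import Pool.Agent.MP_f3836a_nt.VE.SpecC

/-! Row Lsm: the mass of principal products. -/

set_option autoImplicit false

namespace Pool.Agent.MP_f3836a_nt.VE.BC

open Finset Pool.Agent.MP_c481b3_nt.H28.W

namespace CLsm

section abs
variable {ι G : Type} [Fintype ι] [AddCommGroup G] {μ : ι → ℝ} {X : ι → G}

theorem ind_nn (p : Prop) : 0 ≤ ind p := by
  unfold ind
  split_ifs <;> norm_num

theorem filt {n : ℕ} (P : (Fin n → ι) → Prop) [DecidablePred P] (F : (Fin n → ι) → ℝ) :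
    ∑ s ∈ univ.filter P, (∏ i, μ (s i)) * F s = tm μ n fun s => ind (P s) * F s := by
  rw [sum_filter]
  refine sum_congr rfl fun s _ => ?_
  by_cases h : P s <;> simp [ind, h]

theorem lower (tup : TupS) [Finite G] (h1 : ∑ i, μ i = 1) (σ : ι ≃ ι) (hμ : ∀ i, μ (σ i) = μ i)
    (hX : ∀ i, X (σ i) = -X i) (k : ℕ) : 1 / (Nat.card G : ℝ) ≤ law μ X (2 * k) 0 := by
  have := Fintype.ofFinite G
  obtain ⟨-, t2, -, t4, -, t6⟩ := tup ι μ
  have t7 := fun F : G → ℝ => (t6 G X).2.1 k univ F fun _ _ => mem_univ _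
  have a1 : ∀ g, law μ X k (-g) = law μ X k g := fun g =>
    Fintype.sum_equiv (Equiv.piCongrRight fun _ => σ) _ _ fun s => by
      simp only [Equiv.piCongrRight_apply, Pi.map_apply, hμ, hX, sum_neg_distrib,
        neg_eq_iff_eq_neg]
  have a2 : ∑ g, law μ X k g = 1 := by
    have := t7 fun _ => 1
    rw [t4, h1] at this
    simpa using this.symm
  have a3 : law μ X (2 * k) 0 = ∑ g, law μ X k g ^ 2 := by
    have := t7 fun g => law μ X k g
    simp only [← sq] at this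
    rw [two_mul, ← this]
    refine (t2 k k _).trans (congrArg (tm μ k) (funext fun s => ?_))
    rw [← a1]
    refine congrArg (tm μ k) (funext fun t => ?_)
    simp only [Fin.sum_univ_add, Fin.append_left, Fin.append_right, add_eq_zero_iff_eq_neg']
  have a4 := sq_sum_le_card_mul_sum_sq (s := univ) (f := fun g => law μ X k g)
  rw [a2, card_univ, ← Nat.card_eq_fintype_card, ← a3] at a4
  rw [div_le_iff₀' (by exact_mod_cast Nat.card_pos)]
  linarith

theorem fix {n : ℕ} (h0 : ∀ i, 0 ≤ μ i) {D : ℝ} (hD : ∀ y, law μ X (n - 1) y ≤ D) (t : Fin n)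
    (g : ι → ℝ) (hg : ∀ i, 0 ≤ g i) :
    (tm μ n fun s => ind (∑ i, X (s i) = 0) * g (s t)) ≤ (∑ i, μ i * g i) * D := by
  obtain _ | n := n
  · exact t.elim0
  replace hD : ∀ y, law μ X n y ≤ D := hD
  unfold tm
  rw [← (Fin.insertNthEquiv (fun _ => ι) t).sum_comp, Fintype.sum_prod_type, sum_mul]
  refine sum_le_sum fun x _ => ?_
  refine le_trans (le_of_eq ?_) (mul_le_mul_of_nonneg_left (hD (-X x)) (mul_nonneg (h0 x) (hg x)))
  unfold law tm
  rw [mul_sum]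
  refine sum_congr rfl fun r _ => ?_
  beta_reduce
  rw [Fin.prod_univ_succAbove _ t, Fin.sum_univ_succAbove _ t]
  simp only [Fin.insertNthEquiv_apply, Fin.insertNth_apply_same, Fin.insertNth_apply_succAbove,
    add_eq_zero_iff_eq_neg']
  ring

theorem prod_sub {κ : Type} (s : Finset κ) (f : κ → ℂ) (c : ℂ) (hf : ∀ i, ‖f i‖ ≤ 1)
    (hc : ‖c‖ = 1) : ‖∏ i ∈ s, f i - c ^ s.card‖ ≤ ∑ i ∈ s, ‖f i - c‖ := by
  induction s using Finset.cons_induction with
  | empty => simp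
  | cons a s ha ih =>
    rw [prod_cons, sum_cons, card_cons, show f a * ∏ i ∈ s, f i - c ^ (s.card + 1) =
      (f a - c) * c ^ s.card + f a * (∏ i ∈ s, f i - c ^ s.card) by ring]
    refine (norm_add_le _ _).trans (add_le_add (by simp [hc]) ?_)
    rw [norm_mul]
    exact (mul_le_of_le_one_left (norm_nonneg _) (hf a)).trans ih

theorem dev {n : ℕ} [DecidablePred fun s : Fin n → ι => ∑ i, X (s i) = 0] (h0 : ∀ i, 0 ≤ μ i)
    {D e : ℝ} (hD : ∀ y, law μ X (n - 1) y ≤ D) (f : ι → ℂ) (c : ℂ) (hf : ∀ i, ‖f i‖ ≤ 1)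
    (hc : ‖c‖ = 1) (he : ∑ i, μ i * ‖f i - c‖ ≤ e) :
    ‖∑ s ∈ univ.filter fun s : Fin n → ι => ∑ i, X (s i) = 0,
      ((∏ i, μ (s i) : ℝ) : ℂ) * ((c⁻¹ ^ n * ∏ i, f (s i)) - 1)‖ ≤ n * (e * D) := by
  have w0 : ∀ s : Fin n → ι, 0 ≤ ∏ i, μ (s i) := fun s => prod_nonneg fun i _ => h0 _
  have c0 : c ≠ 0 := norm_ne_zero_iff.1 (by rw [hc]; exact one_ne_zero)
  have d0 : 0 ≤ D := (sum_nonneg fun s _ =>
    mul_nonneg (prod_nonneg fun i _ => h0 _) (ind_nn _)).trans (hD 0)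
  refine (norm_sum_le _ _).trans ((sum_le_sum (g := fun s => ∑ t, (∏ i, μ (s i)) * ‖f (s t) - c‖)
    fun s _ => ?_).trans ?_)
  · have a := prod_sub univ (fun i => f (s i)) c (fun i => hf _) hc
    rw [card_univ, Fintype.card_fin] at a
    have b : c⁻¹ ^ n * ∏ i, f (s i) - 1 = c⁻¹ ^ n * (∏ i, f (s i) - c ^ n) := by
      rw [mul_sub, ← mul_pow, inv_mul_cancel₀ c0, one_pow]
    rw [b, norm_mul, norm_mul, norm_pow, norm_inv, hc, inv_one, one_pow, one_mul, Complex.norm_real,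
      Real.norm_of_nonneg (w0 s), ← mul_sum]
    exact mul_le_mul_of_nonneg_left a (w0 s)
  · rw [sum_comm]
    refine (sum_le_card_nsmul _ _ (e * D) fun t _ => ?_).trans (by simp)
    rw [filt]
    exact (fix h0 hD t (fun x => ‖f x - c‖) fun _ => norm_nonneg _).trans
      (mul_le_mul_of_nonneg_right he d0)

end abs

theorem cM_sum {κ : Type} (A Q : ℕ) (ss : Pt → ℤ) (s : Finset κ) (f : κ → Multiset Pt) :
    cM A Q ss (∑ i ∈ s, f i) = ∑ i ∈ s, cM A Q ss (f i) ∧ nT (∑ i ∈ s, f i) = ∏ i ∈ s, nT (f i) := by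
  induction s using Finset.cons_induction with
  | empty => simp [cM, nT]
  | cons a s ha ih =>
    rw [sum_cons, sum_cons, prod_cons, ← ih.1, ← ih.2]
    simp [cM, nT]

theorem chi_sum {κ G : Type} [AddCommGroup G] (χ : AddChar G ℂ) (s : Finset κ) (f : κ → G) :
    χ (∑ i ∈ s, f i) = ∏ i ∈ s, χ (f i) := by
  induction s using Finset.cons_induction with
  | empty => simp
  | cons a s ha ih => rw [sum_cons, prod_cons, AddChar.map_add_eq_mul, ih]

theorem size {a b : ℝ} (ha : 0 ≤ a) (M : Multiset Pt) (h : ∀ z ∈ M, a ≤ z.p ∧ (z.p : ℝ) ≤ b) :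
    a ^ M.card ≤ nT M ∧ (nT M : ℝ) ≤ b ^ M.card := by
  induction M using Multiset.induction_on with
  | empty => simp [nT]
  | cons z M ih =>
    obtain ⟨i1, i2⟩ := ih fun y hy => h y (Multiset.mem_cons_of_mem hy)
    obtain ⟨z1, z2⟩ := h z (Multiset.mem_cons_self _ _)
    have e : (nT (z ::ₘ M) : ℝ) = z.p * nT M := by simp [nT]
    rw [e, Multiset.card_cons, pow_succ', pow_succ']
    exact ⟨mul_le_mul z1 i1 (pow_nonneg ha _) (ha.trans z1),
      mul_le_mul z2 i2 (Nat.cast_nonneg _) (ha.trans (z1.trans z2))⟩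

open Classical in
theorem near (pw : PowS) {A Q : ℕ} [Finite (RC A Q)] (ss : Pt → ℤ) {St : Finset (Multiset Pt)}
    {μ : Multiset Pt → ℝ} (h0 : ∀ x ∈ St, 0 ≤ μ x) (h1 : ∑ x ∈ St, μ x = 1)
    (χ : AddChar (RC A Q) ℂ) {d : ℝ} (hd : 1 - d ≤ ‖mch Q ss St μ χ‖) : ∃ c : ℂ, ‖c‖ = 1 ∧
    ∑ x : St, μ x * ‖(if (nT x.1).Coprime Q then χ (cM A Q ss x) else 0) - c‖ ≤ √(2 * d) + d := by
  have s0 : ∀ x : cop St Q, 0 ≤ μ x := fun x => h0 _ (mem_filter.1 x.2).1
  have s1 := sum_filter_add_sum_filter_not St (fun x => (nT x).Coprime Q) μ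
  have s2 : 0 ≤ ∑ x ∈ St with ¬(nT x).Coprime Q, μ x := sum_nonneg fun x hx => h0 x (mem_filter.1 hx).1
  have s3 : ∑ x : cop St Q, μ x = ∑ x ∈ St with (nT x).Coprime Q, μ x := sum_coe_sort (cop St Q) μ
  have s4 : ‖mch Q ss St μ χ‖ ≤ ∑ x : cop St Q, μ x :=
    (norm_sum_le _ _).trans (sum_le_sum fun x _ => by simp [abs_of_nonneg (s0 x)])
  obtain ⟨⟨c, c1, -, c2⟩, -⟩ := pw (cop St Q) (fun x => μ x) (fun x => χ (cM A Q ss x)) d
    ⟨s0, by linarith⟩ (fun x => χ.norm_apply _) hd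
  refine ⟨c, c1, ?_⟩
  rw [sum_coe_sort St fun x => μ x * ‖(if (nT x).Coprime Q then χ (cM A Q ss x) else 0) - c‖,
    ← sum_filter_add_sum_filter_not St fun x => (nT x).Coprime Q]
  rw [sum_coe_sort (cop St Q) fun x => μ x * ‖χ (cM A Q ss x) - c‖] at c2
  refine add_le_add (le_trans (le_of_eq (sum_congr rfl fun x hx => ?_)) c2)
    (le_trans (le_of_eq (sum_congr rfl fun x hx => ?_)) (by linarith : ∑ x ∈ St with _, μ x ≤ d))
  · rw [if_pos (mem_filter.1 hx).2]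
  · rw [if_neg (mem_filter.1 hx).2, zero_sub, norm_neg, c1, mul_one]

end CLsm

open CLsm in
theorem rLsm : OfLsm := by
  classical
  intro tup pw bas card mul L0 E0 E1 k0 k A C0 C1 Y ss Val St μ hY h hk hC
  have fin : ∀ Q, 0 < Q → Finite (RC A Q) := fun Q hQ => (card A 1 Q h.one (one_dvd _) hQ).1
  have := fin 1 one_pos
  have gd : ∀ x ∈ St, ∀ z ∈ x, Gd A ss z := fun x hx z hz => (h.val z ((h.stp x hx).2.2 z hz).1).1
  obtain ⟨-, b2, -, b4, b5, -, -, b8⟩ := bas A 1 ss h.one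
  have cp : ∀ c : O A, Cp 1 c := fun c => Nat.coprime_one_right _
  have io1 : ∀ c : O A, io 1 c = 0 := fun c => by
    rw [(b2 1 c (cp 1) (by simp)).2, io, Ideal.span_singleton_one, cI_top]
  have m0 : ∀ x : St, 0 ≤ μ x := fun x => h.pos x x.2
  have m1 : ∑ x : St, μ x = 1 := (sum_coe_sort St μ).trans h.tot
  have inv : Function.Involutive fun x : St => (⟨x.1.map Pt.cj, (h.cj x x.2).1⟩ : St) := fun x =>
    Subtype.ext ((Multiset.map_map _ _ _).trans ((Multiset.map_congr rfl fun z hz =>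
      (h.val z ((h.stp x x.2).2.2 z hz).1).2.1).trans (Multiset.map_id' _)))
  have low := lower (μ := fun x : St => μ x) (X := fun x : St => cM A 1 ss x) tup m1 inv.toPerm
    (fun x => (h.cj x x.2).2) (fun x => by
      obtain ⟨a1, -, a2, -, a3⟩ := b8 x.1 (gd x x.2)
      obtain ⟨a4, a5⟩ := a2 (Nat.coprime_one_right _)
      have a6 := ((b8 _ (gd _ (h.cj x x.2).1)).2.2.1 (Nat.coprime_one_right _)).2
      have a7 := (b5 _ a4 _ a1).2
      rw [io1, ← a5, ← a3 fun z hz => (h.val z ((h.stp x x.2).2.2 z hz).1).2.2, ← a6] at a7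
      exact eq_neg_of_add_eq_zero_right a7) k
  let M : (Fin (2 * k) → St) → Multiset Pt := fun s => ∑ i, (s i).1
  have hM : ∀ s, ∀ z ∈ M s, ∃ x ∈ St, z ∈ x := fun s z hz => by
    obtain ⟨i, -, hi⟩ := Multiset.mem_sum.1 hz
    exact ⟨_, (s i).2, hi⟩
  have gM : ∀ s, ∀ z ∈ M s, Gd A ss z := fun s z hz => let ⟨x, a, b⟩ := hM s z hz; gd x a z b
  let T := univ.filter fun s : Fin (2 * k) → St => ∑ i, cM A 1 ss (s i) = 0
  have ex : ∀ s, ∃ β : O A, s ∈ T → IM A ss (M s) = Ideal.span {β} := fun s => by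
    by_cases hs : s ∈ T
    · obtain ⟨a4, a5⟩ := (b8 _ (gM s)).2.2.1 (Nat.coprime_one_right _)
      obtain ⟨β, -, e⟩ := (b4 _ a4 1 (cp 1)).1 (by
        rw [io1, ← a5, (cM_sum A 1 ss _ _).1, (mem_filter.1 hs).2])
      exact ⟨β, fun _ => e⟩
    · exact ⟨0, fun a => absurd a hs⟩
  choose gen hg using ex
  have nrm : ∀ s ∈ T, (gen s).norm.natAbs = nT (M s) := fun s hs =>
    (hasN_span _).unique (hg s hs ▸ (b8 _ (gM s)).1)
  have nr : ∀ s ∈ T, (gen s).norm = nT (M s) := fun s hs => by rw [← nrm s hs, norm_nat]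
  have tot : ∑ β ∈ T.image gen, ∑ s ∈ T with gen s = β, ∏ i, μ (s i) = ∑ s ∈ T, ∏ i, μ (s i) :=
    sum_fiberwise_of_maps_to (fun _ => mem_image_of_mem gen) _
  have w0 : ∀ s : Fin (2 * k) → St, 0 ≤ ∏ i, μ (s i) := fun s => prod_nonneg fun i _ => m0 _
  refine ⟨T.image gen, fun β => ∑ s ∈ T with gen s = β, ∏ i, μ (s i), ?_, fun β hβ => ?_,
    fun Q χ d hQ hd => ?_⟩
  · have := filt (μ := fun x : St => μ x) (fun s : Fin (2 * k) → St => ∑ i, cM A 1 ss (s i) = 0)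
      fun _ => 1
    simp only [mul_one] at this
    rw [tot]
    exact low.trans this.ge
  · obtain ⟨s, hs, rfl⟩ := mem_image.1 hβ
    have cd : (M s).card = 2 * k * L0 := by
      rw [Multiset.card_sum, sum_congr rfl fun i _ => (h.stp _ (s i).2).1]
      simp
    have sz := size (a := Y) (b := Y ^ E1) (by linarith) (M s) fun z hz =>
      let ⟨x, a, b⟩ := hM s z hz; ⟨((h.stp x a).2.2 z b).2.1, ((h.stp x a).2.2 z b).2.2.le⟩
    rw [cd, ← pow_mul, mul_comm E1] at sz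
    rw [nr s hs, Int.cast_natCast]
    refine ⟨sum_nonneg fun s _ => w0 s, le_trans ?_ (mul Val St μ L0 (2 * k) (nT (M s)) C1 h.two
      fun x hx => ⟨(h.stp x hx).1, (h.stp x hx).2.1, fun z hz => ⟨((h.stp x hx).2.2 z hz).1,
        (gd x hx z hz).1⟩, h.pos x hx, h.wt x hx⟩), sz.1, sz.2, fun l hl hd => ?_⟩
    · have := filt (μ := fun x : St => μ x) (fun r : Fin (2 * k) → St => nT (M r) = nT (M s))
        fun _ => 1
      simp only [mul_one] at this
      rw [mul_comm]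
      refine mul_le_mul_of_nonneg_left (le_trans ?_ this.le) (Nat.cast_nonneg _)
      refine sum_le_sum_of_subset_of_nonneg (fun r hr => ?_) fun r _ _ => w0 r
      obtain ⟨r1, r2⟩ := mem_filter.1 hr
      exact mem_filter.2 ⟨mem_univ _, by rw [← nrm r r1, r2, nrm s hs]⟩
    · obtain ⟨l1, l2, -⟩ := mem_filter.1 hl
      obtain ⟨z, z1, z2⟩ := l2.prime.exists_mem_multiset_map_dvd (Int.natCast_dvd_natCast.1 hd)
      obtain ⟨x, a, b⟩ := hM s z z1
      rw [(Nat.prime_dvd_prime_iff_eq l2 (gd x a z b).1).1 z2, mem_range, Nat.lt_ceil] at l1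
      exact absurd ((h.stp x a).2.2 z b).2.1 (not_le.2 l1)
  · have := fin Q hQ
    obtain ⟨c, c1, c2⟩ := near pw ss h.pos h.tot χ hd
    have key := dev (μ := fun x : St => μ x) (X := fun x : St => cM A 1 ss x) (n := 2 * k) m0
      (((tup St _).2.2.2.2.2 _ _).2.2 ⟨m0, m1.le⟩ k0 _ _ (by omega) hC) _ c
      (fun x => by split_ifs <;> simp) c1 c2
    have ch : ∀ s ∈ T, chO Q χ (gen s) =
        ∏ i, if (nT (s i).1).Coprime Q then χ (cM A Q ss (s i)) else 0 := fun s hs => by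
      have e : Cp Q (gen s) ↔ ∀ i, (nT (s i).1).Coprime Q := by
        rw [Cp, nrm s hs, (cM_sum A Q ss _ _).2, Nat.coprime_fintype_prod_left_iff]
      unfold chO
      split_ifs with a
      · rw [io, ← hg s hs, ← (((bas A Q ss h.one).2.2.2.2.2.2.2 _ (gM s)).2.2.1 (nrm s hs ▸ a)).2,
          (cM_sum A Q ss _ _).1, chi_sum]
        exact prod_congr rfl fun i _ => (if_pos (e.1 a i)).symm
      · obtain ⟨i, hi⟩ := not_forall.1 (mt e.2 a)
        exact (prod_eq_zero (mem_univ i) (if_neg hi)).symm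
    refine ⟨c⁻¹ ^ (2 * k), by simp [c1], le_trans (le_of_eq (congrArg norm ?_))
      (key.trans (le_of_eq (by push_cast; ring)))⟩
    rw [← sum_fiberwise_of_maps_to (fun _ => mem_image_of_mem gen), Complex.ofReal_sum,
      ← sum_sub_distrib]
    refine sum_congr rfl fun β _ => ?_
    rw [Complex.ofReal_sum, sum_mul, ← sum_sub_distrib]
    refine sum_congr rfl fun s hs => ?_
    obtain ⟨s1, s2⟩ := mem_filter.1 hs
    rw [← s2, ch s s1, mul_sub, mul_one]

end Pool.Agent.MP_f3836a_nt.VE.BC
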