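import Pool.Agent.MP_f3836a_nt.VE.SpecC

/-! The bound for classes. -/

set_option autoImplicit false

namespace Pool.Agent.MP_f3836a_nt.VE.BC

open Finset

namespace CMgz

theorem push (hT : TupS) {ι G H : Type} [Fintype ι] [AddCommGroup G] [AddCommGroup H] [Finite G]
    {μ : ι → ℝ} {X : ι → G} (π : G →+ H) (hπ : Function.Surjective π) {k : ℕ} {D : ℝ}
    (h : ∀ g, law μ X k g ≤ D / Nat.card G) (y : H) :
    law μ (fun i => π (X i)) k y ≤ D / Nat.card H := by
  classical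
  have := Fintype.ofFinite G
  have := Fintype.ofSurjective π hπ
  have e := ((hT ι μ).2.2.2.2.2 G X).2.1 k univ (fun g => ind (π g = y)) fun _ _ => mem_univ _
  have c : Nat.card G = Nat.card H * #{g | π g = y} := by
    rw [Nat.card_eq_fintype_card, Nat.card_eq_fintype_card, ← card_univ,
      card_eq_sum_card_fiberwise (f := π) (t := univ) fun _ _ => mem_univ _, ← card_univ,
      ← smul_eq_mul, ← sum_const]
    exact sum_congr rfl fun z _ => AddMonoidHom.card_fiber_eq_of_mem_range π (hπ z) (hπ y)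
  have c0 : (#{g | π g = y} : ℝ) ≠ 0 :=
    Nat.cast_ne_zero.2 (right_ne_zero_of_mul (c ▸ Nat.card_pos.ne'))
  simp only [map_sum] at e
  refine e.le.trans ((sum_le_sum fun g _ => mul_le_mul_of_nonneg_right (h g) ?_).trans_eq ?_)
  · unfold ind
    split_ifs <;> norm_num
  · rw [← mul_sum, c, Nat.cast_mul]
    simp only [ind]
    rw [sum_boole, ← div_div, div_mul_cancel₀ _ c0]

theorem shell {ι G : Type} [Fintype ι] [AddCommGroup G] {μ : ι → ℝ} {x : ι → G} {lam : ι → ℂ}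
    {k m : ℕ} {D Y : ℝ} (h0 : ∀ i, 0 ≤ μ i) (hY : 7 ≤ Y) (hD : 0 ≤ D) (h : DH μ x lam k 1 D)
    (hl : ∀ i, 1 ≤ ‖lam i‖ ∧ ‖lam i‖ ≤ Y ^ m) (g : G) :
    law μ x k g ≤ (2 * (m * k : ℕ) + 1) * Real.log Y * D := by
  have l1 : 1 ≤ Real.log Y := by
    rw [Real.le_log_iff_exp_le (by linarith)]
    linarith [Real.exp_one_lt_d9]
  set T := ⌊2 * (m * k : ℕ) * Real.log Y⌋₊ + 1 with hT
  have T1 : (T : ℝ) ≤ (2 * (m * k : ℕ) + 1) * Real.log Y := by
    have := Nat.floor_le (show 0 ≤ 2 * (m * k : ℕ) * Real.log Y by positivity)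
    rw [hT, Nat.cast_add_one]
    linarith
  have s := sum_le_card_nsmul (range T) _ D fun n _ =>
    (h g 0 (2 ^ (n + 1)) 1 le_rfl le_rfl (by positivity)).trans_eq (by ring)
  rw [card_range, nsmul_eq_mul] at s
  refine le_trans ?_ (s.trans (mul_le_mul_of_nonneg_right T1 hD))
  simp only [law, tm]
  rw [sum_comm]
  refine sum_le_sum fun s _ => ?_
  rw [← mul_sum]
  refine mul_le_mul_of_nonneg_left ?_ (prod_nonneg fun i _ => h0 _)
  have p : ∀ q, 0 ≤ ind q := fun q => by unfold ind; split_ifs <;> norm_num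
  by_cases e : ∑ i, x (s i) = g
  swap
  · simp [ind, e]
  have a : 1 ≤ ‖∏ i, lam (s i)‖ := by
    rw [norm_prod]
    exact Finset.one_le_prod fun i _ => (hl _).1
  have b : ‖∏ i, lam (s i)‖ ≤ Y ^ (m * k) := by
    rw [norm_prod, pow_mul]
    exact (prod_le_prod (fun i _ => norm_nonneg _) fun i _ => (hl _).2).trans_eq (by simp)
  obtain ⟨n, n1, n2⟩ := exists_nat_pow_near a one_lt_two
  have n3 : n ∈ range T := by
    have := Real.log_le_log (by positivity) (n1.trans b)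
    rw [Real.log_pow, Real.log_pow] at this
    refine mem_range.2 (Nat.lt_succ_of_le (Nat.le_floor ?_))
    nlinarith [Real.log_two_gt_d9, (Nat.cast_nonneg n : (0 : ℝ) ≤ n)]
  refine le_trans (le_of_eq ?_) (single_le_sum (fun n _ => p _) n3)
  unfold ind
  rw [if_pos e, if_pos ⟨e, by simpa using n2.le, by rw [pow_succ]; linarith, by linarith⟩]

end CMgz

theorem rMgz : OfMgz := by
  intro hT hB hP hC hL hD L0 E0 E1 C1 h1 h2
  obtain ⟨k, C, k1, C0, H⟩ := hD L0 E0 E1 0 C1 h1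
  refine ⟨k, (2 * (E1 * L0 * k : ℕ) + 1) * C + 1, k1, by
    have : 0 ≤ (2 * (E1 * L0 * k : ℕ) + 1) * C := by positivity
    linarith, fun Y A Q ss Val St S μ hY b Q0 QY hS => ?_⟩
  have gd : ∀ x ∈ St, ∀ z ∈ x, Gd A ss z := fun x m z n => (b.val z ((b.stp x m).2.2 z n).1).1
  have big : ∀ Q : ℕ, 3 ≤ Q → (Q : ℝ) ≤ Y ^ E0 → S ⊆ cop St Q → ∀ g,
      law (fun x : S => μ x) (fun x : S => cM A Q ss x) k g
        ≤ ((2 * (E1 * L0 * k : ℕ) + 1) * C + 1) / Nat.card (RC A Q) := fun Q Q3 QY hS g => by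
    obtain ⟨lam, hl⟩ := hL A Q b.one Q3
    have d := H Y A Q ss Val St S μ lam (by linarith) b Q3 QY hl hS
    rw [pow_zero, div_one] at d
    have l0 : 0 < Real.log Y := Real.log_pos (by linarith)
    refine (CMgz.shell (m := E1 * L0) (fun x => b.pos _ (mem_filter.1 (hS x.2)).1) hY
      (by positivity) d (fun x => ?_) g).trans ?_
    · obtain ⟨m, c⟩ := mem_filter.1 (hS x.2)
      obtain ⟨p1, p2, p3, -⟩ := (hB A Q ss b.one).2.2.2.2.2.2.2 x (gd x m)
      have e := hl.nrm _ (p3 c).1 _ p1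
      have a : (1 : ℝ) ≤ nT x := Nat.one_le_cast.2 (Nat.pos_of_ne_zero p2)
      have a' : (nT x : ℝ) ≤ Y ^ (E1 * L0) := by
        rw [nT, Nat.cast_multiset_prod, Multiset.map_map, pow_mul, ← (b.stp x m).1]
        exact (Multiset.prod_map_le_prod_map₀ _ (fun _ => Y ^ E1) (fun _ _ => Nat.cast_nonneg _)
          fun z n => ((b.stp x m).2.2 z n).2.2.le).trans_eq (by simp)
      have a1 : 1 ≤ ‖lam (IM A ss x)‖ := by
        rwa [← e, one_le_sq_iff₀ (norm_nonneg _)] at a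
      exact ⟨a1, by nlinarith⟩
    · rw [mul_assoc, mul_comm (Nat.card _ : ℝ), ← div_div, ← mul_div_assoc, mul_div_cancel₀ _ l0.ne',
        ← mul_div_assoc]
      gcongr
      linarith
  rcases le_or_gt 3 Q with Q3 | Q3
  · exact big Q Q3 QY hS
  have Q4 : Q ∣ 4 := by interval_cases Q <;> norm_num
  obtain ⟨π, hπ⟩ := hP A Q 4 b.one Q4 four_pos
  have := (hC A Q 4 b.one Q4 four_pos).1
  have S4 : S ⊆ cop St 4 := fun x m => by
    have m := (mem_filter.1 (hS m)).1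
    refine mem_filter.2 ⟨m, Nat.coprime_multiset_prod_left_iff.2 fun n e => ?_⟩
    obtain ⟨z, hz, rfl⟩ := Multiset.mem_map.1 e
    exact Nat.Coprime.pow_right 2 ((Nat.Prime.coprime_iff_not_dvd (gd x m z hz).1).2 fun d =>
      (gd x m z hz).2.1 (d.mul_right A))
  intro g
  convert CMgz.push hT π hπ.surj (big 4 (by norm_num) (by
    have := le_self_pow₀ (show 1 ≤ Y by linarith) (Nat.one_le_iff_ne_zero.1 h2)
    push_cast
    linarith) S4) g with x
  obtain ⟨m, c⟩ := mem_filter.1 (S4 x.2)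
  have p := ((hB A 4 ss b.one).2.2.2.2.2.2.2 x (gd x m)).2.2.1 c
  rw [p.2, hπ.cl _ p.1]
  exact (((hB A Q ss b.one).2.2.2.2.2.2.2 x (gd x m)).2.2.1 (mem_filter.1 (hS x.2)).2).2

end Pool.Agent.MP_f3836a_nt.VE.BC
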