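import Pool.Agent.MP_f3836a_nt.VE.SpecD

/-! Bounds for the unit correction. -/

set_option autoImplicit false

namespace Pool.Agent.MP_f3836a_nt.VE

open Polynomial Finset

namespace DRat

theorem fib (c l : ℕ) (hl : l.Prime) : ((range l).filter fun x => l ∣ x ^ 2 + c).card ≤ 2 := by
  classical
  haveI := Fact.mk hl
  refine le_trans (card_le_card_of_injOn (t := (nthRoots 2 (-(c : ZMod l))).toFinset)
    (fun x : ℕ => (x : ZMod l)) (fun x hx => ?_) fun x hx y hy e => ?_)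
    ((Multiset.toFinset_card_le _).trans (card_nthRoots 2 _))
  · have h := (ZMod.natCast_eq_zero_iff _ _).2 (mem_filter.1 hx).2
    push_cast at h
    simpa using eq_neg_of_add_eq_zero_left h
  · exact Nat.ModEq.eq_of_lt_of_lt ((ZMod.natCast_eq_natCast_iff _ _ _).1 e)
      (mem_range.1 (mem_filter.1 hx).1) (mem_range.1 (mem_filter.1 hy).1)

theorem nu_le (A l : ℕ) (hl : l.Prime) : 0 ≤ nuN A l ∧ nuN A l ≤ 2 / l := by
  have h0 : (0 : ℝ) < l := Nat.cast_pos.2 hl.pos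
  have h1 : ((range l ×ˢ range l).filter fun v : ℕ × ℕ => l ∣ v.1 ^ 2 + A * v.2 ^ 2).card ≤
      2 * l := by
    rw [card_filter, sum_product_right]
    refine (sum_le_card_nsmul _ _ 2 fun y _ => ?_).trans (by simp [mul_comm])
    rw [← card_filter]
    exact fib (A * y ^ 2) l hl
  refine ⟨by unfold nuN; positivity, ?_⟩
  rw [nuN, div_le_div_iff₀ (by positivity) h0]
  have h2 : (_ : ℝ) ≤ ((2 * l : ℕ) : ℝ) := Nat.cast_le.2 h1
  push_cast at h2
  nlinarith

theorem one (A l : ℕ) (hl : l.Prime) (h5 : 4 ≤ l) :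
    1 ≤ (1 - nuN A l)⁻¹ ∧ (1 - nuN A l)⁻¹ ≤ Real.exp (4 * (1 / l)) := by
  obtain ⟨h1, h2⟩ := nu_le A l hl
  have h3 : (4 : ℝ) ≤ l := by exact_mod_cast h5
  have h4 : (1 : ℝ) / l ≤ 1 / 4 := one_div_le_one_div_of_le (by norm_num) h3
  have h6 : (0 : ℝ) ≤ 1 / l := by positivity
  rw [show (2 : ℝ) / l = 2 * (1 / l) by ring] at h2
  have h7 : 0 < 1 - nuN A l := by linarith
  refine ⟨(one_le_inv₀ h7).2 (by linarith), le_trans ?_ (Real.add_one_le_exp _)⟩
  rw [inv_eq_one_div, div_le_iff₀ h7]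
  nlinarith

end DRat

theorem rRat : RatS := by
  intro A W Q h2 h3
  have h : ∀ l ∈ Q.primeFactors.filter fun l => ¬l ∣ W,
      1 ≤ (1 - nuN A l)⁻¹ ∧ (1 - nuN A l)⁻¹ ≤ Real.exp (4 * (1 / l)) := fun l hl => by
    have h4 := Nat.prime_of_mem_primeFactors (mem_filter.1 hl).1
    have h5 := (mem_filter.1 hl).2
    have h6 := h4.two_le
    have h7 : l ≠ 2 := fun e => h5 (e ▸ h2)
    have h8 : l ≠ 3 := fun e => h5 (e ▸ h3)
    exact DRat.one A l h4 (by omega)
  refine ⟨prod_const_one.symm.trans_le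
    (prod_le_prod (fun _ _ => zero_le_one) fun l hl => (h l hl).1), ?_⟩
  rw [rat, sig, Int.natAbs_natCast, mul_sum, Real.exp_sum]
  exact prod_le_prod (fun l hl => zero_le_one.trans (h l hl).1) fun l hl => (h l hl).2

end Pool.Agent.MP_f3836a_nt.VE
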