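import Pool.Agent.MP_f3836a_nt.VE.SpecC
import Pool.Agent.MP_f3836a_nt.VE.DRat

/-! The density of the zeros of the norm form. -/

set_option autoImplicit false

namespace Pool.Agent.MP_f3836a_nt.VE.BC

open Finset

namespace CNu

theorem red (c l : ℕ) [NeZero l] : ((range l).filter fun x => l ∣ x ^ 2 + c).card =
    (univ.filter fun x : ZMod l => x ^ 2 + (c : ZMod l) = 0).card := by
  refine card_bij (fun x _ => (x : ZMod l)) (fun x hx => ?_) (fun x hx y hy e => ?_) fun z hz => ?_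
  · have h := (ZMod.natCast_eq_zero_iff _ _).2 (mem_filter.1 hx).2
    push_cast at h
    simpa using h
  · exact Nat.ModEq.eq_of_lt_of_lt ((ZMod.natCast_eq_natCast_iff _ _ _).1 e)
      (mem_range.1 (mem_filter.1 hx).1) (mem_range.1 (mem_filter.1 hy).1)
  · refine ⟨z.val, mem_filter.2 ⟨mem_range.2 (ZMod.val_lt z), ?_⟩, ZMod.natCast_zmod_val z⟩
    rw [← ZMod.natCast_eq_zero_iff]
    push_cast
    rw [ZMod.natCast_zmod_val]
    exact (mem_filter.1 hz).2

theorem row (A l y : ℕ) (hl : l.Prime) (h0 : 0 < y) (h1 : y < l) :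
    ((range l).filter fun x => l ∣ x ^ 2 + A * y ^ 2).card = rr A l := by
  haveI := Fact.mk hl
  have hy : (y : ZMod l) ≠ 0 := fun h =>
    Nat.not_dvd_of_pos_of_lt h0 h1 ((ZMod.natCast_eq_zero_iff _ _).1 h)
  rw [rr, red, red]
  symm
  refine card_bij (fun b _ => b * (y : ZMod l)) (fun b hb => ?_) (fun a _ b _ e => ?_) fun z hz => ?_
  · have h := (mem_filter.1 hb).2
    simp only [mem_filter, mem_univ, true_and]
    push_cast
    linear_combination (y : ZMod l) ^ 2 * h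
  · exact mul_right_cancel₀ hy e
  · have h := (mem_filter.1 hz).2
    push_cast at h
    refine ⟨z / y, mem_filter.2 ⟨mem_univ _, ?_⟩, div_mul_cancel₀ z hy⟩
    field_simp
    linear_combination h

theorem row0 (l : ℕ) (hl : l.Prime) : ((range l).filter fun x => l ∣ x ^ 2).card = 1 := by
  refine card_eq_one.2 ⟨0, eq_singleton_iff_unique_mem.2 ⟨by simp [hl.pos], fun x hx => ?_⟩⟩
  exact Nat.eq_zero_of_dvd_of_lt (hl.dvd_of_dvd_pow (mem_filter.1 hx).2)
    (mem_range.1 (mem_filter.1 hx).1)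

theorem cnt (A l : ℕ) (hl : l.Prime) :
    ((range l ×ˢ range l).filter fun v : ℕ × ℕ => l ∣ v.1 ^ 2 + A * v.2 ^ 2).card =
      1 + (l - 1) * rr A l := by
  rw [card_filter, sum_product_right]
  simp only [← card_filter]
  obtain ⟨m, rfl⟩ : ∃ m, l = m + 1 := ⟨l - 1, by have := hl.pos; omega⟩
  rw [sum_range_succ', sum_congr rfl fun y hy =>
    row A (m + 1) (y + 1) hl (Nat.succ_pos y) (by have := mem_range.1 hy; omega)]
  have := row0 (m + 1) hl
  simp only [ne_eq, OfNat.ofNat_ne_zero, not_false_eq_true, zero_pow, mul_zero, add_zero, this]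
  simp [add_comm]

end CNu

theorem rNu : NuS := by
  intro A l hl
  have h2 : (2 : ℝ) ≤ l := by exact_mod_cast hl.two_le
  have h0 : (0 : ℝ) < l := by linarith
  have e : nuN A l * (l : ℝ) ^ 2 = 1 + (l - 1) * rr A l := by
    rw [nuN, div_mul_cancel₀ _ (by positivity), CNu.cnt A l hl]
    push_cast [Nat.cast_sub hl.one_le]
    ring
  have hr : (rr A l : ℝ) ≤ 2 := by exact_mod_cast DRat.fib A l hl
  have hx : (1 : ℝ) / l ≤ 1 / 2 := one_div_le_one_div_of_le (by norm_num) h2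
  have hx0 : (0 : ℝ) < 1 / l := by positivity
  have h3 : (1 - 1 / (l : ℝ)) ^ 2 ≤ 1 - nuN A l := by
    have : (1 - 1 / (l : ℝ)) ^ 2 * l ^ 2 ≤ (1 - nuN A l) * l ^ 2 := by
      rw [sub_mul 1 (nuN A l), e, show (1 - 1 / (l : ℝ)) ^ 2 * l ^ 2 = (l - 1) ^ 2 by field_simp]
      nlinarith
    exact le_of_mul_le_mul_right this (by positivity)
  have h4 : (0 : ℝ) < (1 - 1 / (l : ℝ)) ^ 2 := pow_pos (by linarith) 2
  refine ⟨e, by unfold nuN; positivity, h3, h4.trans_le h3, (inv_anti₀ h4 h3).trans ?_⟩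
  rw [← inv_pow, show (4 : ℝ) / l = (2 : ℕ) * (2 * (1 / l)) by push_cast; ring, Real.exp_nat_mul]
  refine pow_le_pow_left₀ (inv_nonneg.2 (by linarith)) (le_trans ?_ (Real.add_one_le_exp _)) 2
  rw [inv_eq_one_div, div_le_iff₀ (by linarith)]
  nlinarith

end Pool.Agent.MP_f3836a_nt.VE.BC
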