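import Pool.Agent.MP_f3836a_nt.VE.SpecC

/-! Parametrisation of the events in a residue class. -/

set_option autoImplicit false

namespace Pool.Agent.MP_f3836a_nt.VE.BC

open Finset Pool.Agent.MP_c481b3_nt.H28.W Pool.Agent.MP_c481b3_nt.H63

namespace CPar

variable {A : ℕ}

lemma mem_mul {I J : Ideal (O A)} {a b : ℕ} (h : a.Coprime b) (ha : (a : O A) ∈ I)
    (hb : (b : O A) ∈ J) {x : O A} (hI : x ∈ I) (hJ : x ∈ J) : x ∈ I * J := by
  obtain ⟨u, v, e⟩ : IsCoprime (a : O A) (b : O A) := h.cast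
  have : x = u * (a * x) + v * (x * b) := by linear_combination -x * e
  rw [this]
  exact add_mem (Ideal.mul_mem_left _ _ (Ideal.mul_mem_mul ha hJ))
    (Ideal.mul_mem_left _ _ (Ideal.mul_mem_mul hI hb))

lemma facts (hB : BasS) (hA : 1 < A) (ss : Pt → ℤ) (T : Multiset Pt) (hT : Nd T)
    (hG : ∀ z ∈ T, Gd A ss z) : (∀ β, (∀ z ∈ T, In A ss β z) → β ∈ IM A ss T) ∧
    (∀ v : O A, ∃ t : ℤ, v - t ∈ IM A ss T) ∧
    ∀ t : ℤ, (t : O A) ∈ IM A ss T → (nT T : ℤ) ∣ t := by
  induction T using Multiset.induction_on with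
  | empty => simp [IM, nT]
  | cons z T ih =>
    have e1 : IM A ss (z ::ₘ T) = Jd z.p (ss z) * IM A ss T := by simp [IM]
    have e2 : nT (z ::ₘ T) = z.p * nT T := by simp [nT]
    unfold Nd at hT
    rw [Multiset.map_cons, Multiset.nodup_cons] at hT
    have hG' : ∀ y ∈ T, Gd A ss y := fun y hy => hG y (Multiset.mem_cons_of_mem hy)
    obtain ⟨hp, -, hd⟩ := hG z (Multiset.mem_cons_self _ _)
    obtain ⟨i1, i2, i3⟩ := ih hT.2 hG'
    have hc : z.p.Coprime (nT T) := by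
      refine Nat.coprime_multiset_prod_right_iff.2 fun q hq => ?_
      obtain ⟨y, hy, rfl⟩ := Multiset.mem_map.1 hq
      exact (Nat.coprime_primes hp (hG' y hy).1).2 fun e => hT.1 (e ▸ hq)
    have hn : (nT T : O A) ∈ IM A ss T := ((hB A 1 ss hA).2.2.2.2.2.2.2 T hG').1.mem
    have hz : (z.p : O A) ∈ (Jd z.p (ss z) : Ideal (O A)) := Ideal.subset_span (by simp)
    rw [e1, e2]
    refine ⟨fun β h => mem_mul hc hz hn ((mem_Jd hd).2 (h z (Multiset.mem_cons_self _ _)))
      (i1 β fun y hy => h y (Multiset.mem_cons_of_mem hy)), fun v => ?_, fun t ht => ?_⟩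
    · obtain ⟨t2, h2⟩ := i2 v
      obtain ⟨a, b, e⟩ : IsCoprime (z.p : ℤ) (nT T : ℤ) := hc.cast
      refine ⟨(v.re - ss z * v.im) * (b * nT T) + t2 * (a * z.p), mem_mul hc hz hn ?_ ?_⟩
      · refine (mem_Jd hd).2 ⟨a * (v.re - ss z * v.im - t2), ?_⟩
        simp only [Zsqrtd.re_sub, Zsqrtd.im_sub, Zsqrtd.re_intCast, Zsqrtd.im_intCast]
        linear_combination -(v.re - ss z * v.im) * e
      · have e' : ((a * z.p + b * nT T : ℤ) : O A) = 1 := by rw [e]; rfl
        have : v - (((v.re - ss z * v.im) * (b * nT T) + t2 * (a * z.p) : ℤ) : O A)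
            = (v - t2) + ((b * (t2 - (v.re - ss z * v.im)) : ℤ) : O A) * nT T := by
          push_cast at e' ⊢
          linear_combination -(t2 : O A) * e'
        rw [this]
        exact add_mem h2 (Ideal.mul_mem_left _ _ hn)
    · have h1 := (mem_Jd hd).1 (Ideal.mul_le_left ht)
      rw [Nat.cast_mul]
      exact (hc.cast : IsCoprime (z.p : ℤ) (nT T : ℤ)).mul_dvd (by simpa using h1)
        (i3 t (Ideal.mul_le_right ht))

lemma sgn [Fact (1 < A)] {x y : O A} (h : Ideal.span {x} = Ideal.span {y}) : x = y ∨ x = -y := by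
  obtain ⟨u, rfl⟩ := Ideal.span_singleton_eq_span_singleton.1 h
  rcases unit_O u.isUnit with e | e <;> simp [e]

lemma no2 {W k : ℕ} (hW : 3 ≤ W) (hk : k.Coprime W) : ¬(W : O A) ∣ 2 * k := by
  intro h
  have h1 : ((W : ℤ) : O A) ∣ ((2 * k : ℕ) : ℤ) := by simpa using h
  rw [Zsqrtd.intCast_dvd_intCast, Int.natCast_dvd_natCast] at h1
  have := Nat.le_of_dvd two_pos (hk.symm.dvd_of_dvd_mul_right h1)
  omega

lemma ne0 {Q : ℕ} (hQ : 3 ≤ Q) {c : O A} (h : Cp Q c) : c ≠ 0 := by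
  rintro rfl
  simp [Cp] at h
  omega

lemma cp_nat {Q k : ℕ} (h : k.Coprime Q) : Cp Q (k : O A) := by
  unfold Cp
  rw [Zsqrtd.norm_natCast, Int.natAbs_mul, Int.natAbs_natCast]
  exact h.mul_left h

lemma lam0 {Q : ℕ} {lam : Ideal (O A) → ℂ} (hl : Lam A Q lam) {I : Ideal (O A)}
    (h : I ∈ MQ A Q) : lam I ≠ 0 := by
  obtain ⟨n, h0, -, hn⟩ := id h
  intro e
  have := hl.nrm I h n hn
  rw [e, norm_zero, zero_pow two_ne_zero] at this
  exact h0 (by exact_mod_cast this.symm)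

lemma lamq (hB : BasS) (hA : 1 < A) {Q : ℕ} (hQ : 3 ≤ Q) {lam : Ideal (O A) → ℂ}
    (hl : Lam A Q lam) {c c' : O A} (h : Cp Q c) (e : (Q : O A) ∣ c' - c) :
    lam (Ideal.span {c'}) * emb c = lam (Ideal.span {c}) * emb c' := by
  obtain ⟨b1, b2, -, -, -, -, b7, -⟩ := hB A Q (fun _ => 0) hA
  obtain ⟨u, w, e1⟩ : IsCoprime (c.norm.natAbs : ℤ) (Q : ℤ) := Nat.Coprime.cast h
  rw [norm_nat] at e1
  have e2 : ((u * c.norm + w * Q : ℤ) : O A) = 1 := by rw [e1]; rfl
  push_cast at e2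
  rw [Zsqrtd.norm_eq_mul_conj] at e2
  have h1 : (Q : O A) ∣ c * (u * star c) - 1 := ⟨-w, by linear_combination e2⟩
  have h2 : (Q : O A) ∣ c' * (u * star c) - 1 := by
    have := h1.add (e.mul_right (u * star c))
    rwa [show c * (u * star c) - 1 + (c' - c) * (u * star c) = c' * (u * star c) - 1 by ring] at this
  have h3 : Cp Q ((u : O A) * star c) := by
    have := (b2 1 _ (by simp [Cp]) h1).1
    unfold Cp at this ⊢
    rw [Zsqrtd.norm_mul, Int.natAbs_mul] at this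
    exact Nat.Coprime.coprime_mul_left this
  have m1 := (b1 c).2 ⟨ne0 hQ h, h⟩
  have h' := (b2 c c' h e).1
  have m2 := (b1 c').2 ⟨ne0 hQ h', h'⟩
  have m3 := (b1 _).2 ⟨ne0 hQ h3, h3⟩
  have a1 := hl.one _ h1
  have a2 := hl.one _ h2
  rw [← Ideal.span_singleton_mul_span_singleton, hl.mul _ m1 _ m3, (b7 _ _).2.1] at a1
  rw [← Ideal.span_singleton_mul_span_singleton, hl.mul _ m2 _ m3, (b7 _ _).2.1] at a2
  apply mul_right_cancel₀ (lam0 hl m3)
  linear_combination emb c * a2 - emb c' * a1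

end CPar

open CPar in
theorem rPar : OfPar := by
  intro hB A W Q n' ss lam π T β hA hW hWQ hQ hl hπ hT hG hn2 hβ hN hc
  haveI : Fact (1 < A) := ⟨hA⟩
  obtain ⟨b1, b2, -, b4, b5, b6, b7, b8⟩ := hB A Q ss hA
  obtain ⟨w1, w2, -, -, w5, -, -, w8⟩ := hB A W ss hA
  have hG' : ∀ z ∈ T, Gd A ss z := fun z hz => (hG z hz).1
  obtain ⟨f1, f2, f3⟩ := facts hB hA ss T hT hG'
  obtain ⟨hI, hn0, -, -, -⟩ := b8 T hG'
  have hβI := f1 β fun z hz => (hG z hz).2
  generalize hn : nT T = n at *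
  generalize hIe : IM A ss T = I at *
  have hQ3 : 3 ≤ Q := hW.trans (Nat.le_of_dvd hQ hWQ)
  obtain ⟨m, hm⟩ : n ∣ Q := (dvd_pow_self n two_ne_zero).trans hn2
  have hnm : n ∣ m := Nat.dvd_of_mul_dvd_mul_left (Nat.pos_of_ne_zero hn0) (by
    rw [← hm, ← sq]; exact hn2)
  have hNa : β.norm.natAbs = n * n' := by rw [hN, Int.natAbs_natCast]
  have hβW : Cp W β := (w2 1 β (by simp [Cp]) hβ).1
  have hnW : (n * n').Coprime W := hNa ▸ hβW
  have hn'W : n'.Coprime W := hc.coprime_dvd_right hWQ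
  have hWm : W ∣ m := (Nat.Coprime.coprime_mul_right hnW).symm.dvd_of_dvd_mul_left (hm ▸ hWQ)
  have hn'0 : n' ≠ 0 := by
    rintro rfl
    rw [Nat.coprime_zero_left] at hc
    omega
  have hQO : (Q : O A) = n * m := by rw [hm, Nat.cast_mul]
  have hbb : β * star β = n * n' := by
    rw [← Zsqrtd.norm_eq_mul_conj, hN, Int.cast_natCast, Nat.cast_mul]
  obtain ⟨c, hcc⟩ := hI.exists_mul hn0 ((Ideal.span_singleton_le_iff_mem _).2 hβI)
  have hcN : HasN c n' := hI.of_mul hn0 (by rw [← hcc, ← hNa]; exact hasN_span β)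
  have hcQ : c ∈ MQ A Q := ⟨n', hn'0, hc, hcN⟩
  have hcQ' : cj c ∈ MQ A Q := (b5 c hcQ n' hcN).1
  have hcW : c ∈ MQ A W := ⟨n', hn'0, hn'W, hcN⟩
  have hsb : Ideal.span {star β} = cj I * cj c := by rw [← cj_span, hcc, cj_mul]
  have nO : (n : O A) ≠ 0 := Nat.cast_ne_zero.2 hn0
  have nO' : (n' : O A) ≠ 0 := Nat.cast_ne_zero.2 hn'0
  obtain ⟨γ, hγ⟩ : ∃ γ : O A → O A, ∀ v, γ v = n' + m * v * star β := ⟨_, fun _ => rfl⟩
  have gm : ∀ v, (m : O A) ∣ γ v - n' := fun v => ⟨v * star β, by rw [hγ]; ring⟩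
  have gW : ∀ v, (W : O A) ∣ γ v - n' := fun v => (Nat.cast_dvd_cast hWm).trans (gm v)
  have gC : ∀ v, Cp Q (γ v) := fun v => by
    have h1 : Cp m (γ v) := ((hB A m ss hA).2.1 _ _
      (cp_nat (hc.coprime_dvd_right ⟨n, by rw [hm, mul_comm]⟩)) (gm v)).1
    unfold Cp at h1 ⊢
    rw [hm]
    exact (h1.coprime_dvd_right hnm).mul_right h1
  have gM : ∀ v, Ideal.span {γ v} ∈ MQ A Q := fun v => (b1 _).2 ⟨ne0 hQ3 (gC v), gC v⟩
  have gI : ∀ v v', v - v' ∈ I → (Q : O A) ∣ γ v - γ v' := fun v v' h => by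
    have h1 : (v - v') * star β ∈ I * cj I := Ideal.mul_mem_mul h (mem_cj.2 (by simpa using hβI))
    rw [hI] at h1
    obtain ⟨y, hy⟩ := Ideal.mem_span_singleton.1 h1
    exact ⟨y, by rw [hγ, hγ, hQO]; linear_combination (m : O A) * hy⟩
  have inj : ∀ u ∈ range n, ∀ u' ∈ range n, io Q (γ u) = io Q (γ u') → u = u' := by
    intro u hu u' hu' e
    obtain ⟨y, h1, h2⟩ := (b4 _ (gM u) _ (gC u')).1 e
    rcases sgn h2 with h | h
    · rw [← h] at h1
      obtain ⟨y', hy⟩ := h1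
      have m0 : (m : O A) ≠ 0 := Nat.cast_ne_zero.2 (by rintro rfl; omega)
      have h3 : ((u : O A) - u') * star β = n * y' := mul_left_cancel₀ m0 (by
        rw [hγ, hγ, hQO] at hy; linear_combination hy)
      have h4 : Ideal.span {(u : O A) - u'} * (cj I * cj c) ≤ I * cj I := by
        rw [← hsb, Ideal.span_singleton_mul_span_singleton, hI, h3,
          Ideal.span_singleton_le_iff_mem]
        exact Ideal.mem_span_singleton.2 ⟨y', rfl⟩
      have h5 : Ideal.span {(n : O A)} * (Ideal.span {(u : O A) - u'} * Ideal.span {(n' : O A)})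
          ≤ Ideal.span {(n : O A)} * I := by
        calc _ = Ideal.span {(u : O A) - u'} * (cj I * cj c) * (I * c) := by
              rw [← hI, ← hcN]; ring
          _ ≤ I * cj I * I := Ideal.mul_mono h4 Ideal.mul_le_left
          _ = _ := by rw [hI]
      rw [Ideal.span_singleton_mul_right_mono nO, Ideal.span_singleton_mul_span_singleton,
        Ideal.span_singleton_le_iff_mem] at h5
      have h6 := f3 ((u - u') * n') (by simpa using h5)
      have h7 : IsCoprime (n : ℤ) n' := (hc.coprime_dvd_right ⟨m, hm⟩).symm.cast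
      have h8 := Int.eq_zero_of_abs_lt_dvd (h7.dvd_of_dvd_mul_right h6) (by
        rw [mem_range] at hu hu'; rw [abs_lt]; omega)
      omega
    · refine absurd ?_ (no2 (A := A) hW hn'W)
      have := (((Nat.cast_dvd_cast hWQ).trans h1).add (gW u)).add (gW u')
      rw [show y - γ u' + (γ u - n') + (γ u' - n') = -(2 * n') by rw [h]; ring] at this
      exact dvd_neg.1 this
  have uni : ∀ v v', Ideal.span {β + Q * v} = Ideal.span {β + Q * v'} → v = v' := fun v v' e => by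
    rcases sgn e with h | h
    · exact mul_left_cancel₀ (Nat.cast_ne_zero.2 hQ.ne' : (Q : O A) ≠ 0) (add_left_cancel h)
    · refine absurd ?_ (no2 (A := A) hW (Nat.coprime_one_left W))
      have := (hβ.mul_left 2).add ((Nat.cast_dvd_cast hWQ).mul_right (v + v'))
      rw [show 2 * (β - 1) + Q * (v + v') = -(2 * (1 : ℕ)) by push_cast; linear_combination h]
        at this
      exact dvd_neg.1 this
  have embn : emb (n' : O A) = n' := by simp [emb, Complex.ext_iff]
  have n'C : (n' : ℂ) ≠ 0 := Nat.cast_ne_zero.2 hn'0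
  refine ⟨range n, fun u => io Q (γ u) - cI Q (cj c),
    fun u => lam (cj c) * (emb (γ u) / lam (Ideal.span {γ u})) * emb β / n', card_range n,
    fun u _ => ⟨?_, ?_⟩, fun M Vs Ω hM hV => ?_⟩
  · have h1 := hl.nrm _ (gM u) _ (hasN_span (γ u))
    have h2 : ‖emb (γ u)‖ ^ 2 = ‖lam (Ideal.span {γ u})‖ ^ 2 := by
      rw [h1, (b7 _ 0).2.2.1, ← norm_nat (γ u), Int.cast_natCast, Int.natAbs_natCast]
    have h3 := pow_ne_zero 2 (norm_ne_zero_iff.2 (lam0 hl (gM u)))
    have h4 : (n' : ℝ) ≠ 0 := Nat.cast_ne_zero.2 hn'0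
    simp only [norm_div, norm_mul, div_pow, mul_pow, h2, div_self h3, (b7 β 0).2.2.1, hN,
      hl.nrm _ hcQ' _ hcN.conj, Complex.norm_natCast]
    push_cast
    field_simp
  · have h1 : π (io Q (γ u)) = io W n' :=
      (hπ.cl _ (gM u)).trans (w2 _ _ (cp_nat hn'W) (gW u)).2
    obtain ⟨h2, h3⟩ := (w8 T hG').2.2.1 (hn ▸ Nat.Coprime.coprime_mul_right hnW)
    rw [hIe] at h2 h3
    have h4 : cI W I + cI W c = 0 := by
      rw [← cI_mul h2 hcW, ← hcc, ← cI_top A W, ← Ideal.span_singleton_one]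
      exact (w2 1 β (by simp [Cp]) hβ).2
    rw [map_sub, h1, hπ.cl _ hcQ', h3, ← (w5 c hcW n' hcN).2, ← h4]
    abel
  obtain ⟨m1, m2, m3, -, -⟩ := b8 M hM
  have hTM : ∀ z ∈ T + M, Gd A ss z := fun z hz =>
    (Multiset.mem_add.1 hz).elim (hG' z) (hM z)
  have ev : ∀ y, EvF A ss y (T + M) ↔ Nd (T + M) ∧ Ideal.span {y} = I * IM A ss M := fun y => by
    rw [(b8 _ hTM).2.2.2.1, (b6 T M).1, hIe]
  have nd : Nd (T + M) ↔ Nd M ∧ Disjoint (T.map Pt.p) (M.map Pt.p) := by
    unfold Nd at hT ⊢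
    rw [Multiset.map_add, Multiset.nodup_add]
    exact ⟨fun h => h.2, fun h => ⟨hT, h⟩⟩
  by_cases hex : ∃ v, EvF A ss (β + Q * v) (T + M)
  · obtain ⟨v, hv⟩ := hex
    obtain ⟨h1, h2⟩ := (ev _).1 hv
    have h3 : Ideal.span {γ v} = IM A ss M * cj c := by
      rw [← Ideal.span_singleton_mul_right_inj nO, Ideal.span_singleton_mul_span_singleton,
        show n * γ v = (β + Q * v) * star β by rw [hγ, hQO]; linear_combination -hbb,
        ← Ideal.span_singleton_mul_span_singleton, h2, hsb, ← hI]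
      ring
    have h4 : (nT M).Coprime Q := by
      have := gC v
      unfold Cp at this
      rw [(hasN_span (γ v)).unique (h3 ▸ m1.mul hcN.conj)] at this
      exact Nat.Coprime.coprime_mul_right this
    obtain ⟨m4, m5⟩ := m3 h4
    obtain ⟨t, ht⟩ := f2 v
    have nZ : (n : ℤ) ≠ 0 := Nat.cast_ne_zero.2 hn0
    obtain ⟨u, hu⟩ := Int.eq_ofNat_of_zero_le (Int.emod_nonneg t nZ)
    have hu1 : u ∈ range n := by
      have := Int.emod_lt_of_pos t (show (0 : ℤ) < n by omega)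
      rw [mem_range]; omega
    have hu2 : (Q : O A) ∣ γ v - γ u := by
      refine gI _ _ ?_
      have e : ((n * (t / n) + u : ℤ) : O A) = t := by rw [← hu, Int.mul_ediv_add_emod]
      have := add_mem ht (I.mul_mem_right ((t / n : ℤ) : O A) hI.mem)
      push_cast at e
      rwa [show v - (t : O A) + (n : O A) * ((t / n : ℤ) : O A) = v - (u : O A) by linear_combination e] at this
    have h5 : cM A Q ss M = io Q (γ u) - cI Q (cj c) := by
      rw [← (b2 _ _ (gC u) hu2).2, io, h3, cI_mul m4 hcQ', m5, add_sub_cancel_right]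
    have h6 : lam (cj c) * (emb (γ u) / lam (Ideal.span {γ u})) * emb β / n' * lam (IM A ss M)
        = emb (β + (Q : O A) * v) := by
      have a1 := lamq hB hA hQ3 hl (gC u) hu2
      rw [h3, hl.mul _ m4 _ hcQ'] at a1
      have a2 : emb (γ v) * emb β = emb (β + (Q : O A) * v) * n' := by
        rw [← embn, ← (b7 _ _).2.1, ← (b7 _ _).2.1, hγ, hQO]
        congr 1
        linear_combination (m : O A) * v * hbb
      have a3 := lam0 hl (gM u)
      field_simp
      linear_combination emb β * a1 + lam (Ideal.span {γ u}) * a2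
    rw [sum_eq_single u, sum_eq_single v, h6, ind, ind, ind, if_pos hv, if_pos ⟨(nd.1 h1).1, h4⟩,
      if_pos h5]
    · ring
    · intro v' _ hv'
      rw [ind, if_neg fun h => hv' (uni _ _ (((ev _).1 h).2.trans h2.symm)), mul_zero]
    · intro h
      rw [not_not.1 fun h' => h (hV v h'), zero_mul]
    · intro u' hu' hne
      rw [ind, if_neg fun h => hne (inj _ hu' _ hu1 (sub_left_inj.1 (h.symm.trans h5))), zero_mul]
    · exact fun h => absurd hu1 h
  · rw [sum_eq_zero fun v _ => by rw [ind, if_neg fun h => hex ⟨v, h⟩, mul_zero]]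
    by_cases h0 : Nd M ∧ (nT M).Coprime Q
    · rw [sum_eq_zero, mul_zero]
      intro u _
      rw [ind, if_neg, zero_mul]
      intro h5
      obtain ⟨m4, m5⟩ := m3 h0.2
      obtain ⟨y, h1, h2⟩ := (b4 _ (mul_mem m4 hcQ') _ (gC u)).1 (by
        rw [cI_mul m4 hcQ', ← m5, h5, sub_add_cancel])
      have h3 : Ideal.span {y * β} = Ideal.span {(n' : O A)} * (I * IM A ss M) := by
        rw [← Ideal.span_singleton_mul_span_singleton, ← h2, hcc, ← hcN]
        ring
      obtain ⟨y', hy⟩ := Ideal.mem_span_singleton.1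
        (Ideal.mul_le_left (h3.le (Ideal.mem_span_singleton_self (y * β))))
      rw [hy, ← Ideal.span_singleton_mul_span_singleton, Ideal.span_singleton_mul_right_inj nO']
        at h3
      obtain ⟨a, ha⟩ := h1
      obtain ⟨v, hv⟩ : (Q : O A) ∣ y' - β := by
        refine (hc.symm.cast : IsCoprime (Q : O A) n').dvd_of_dvd_mul_left ⟨a * β + u * n', ?_⟩
        rw [hγ, hQO] at ha
        rw [hQO]
        linear_combination -hy + β * ha + (m : O A) * u * hbb
      refine hex ⟨v, (ev _).2 ⟨nd.2 ⟨h0.1, Multiset.disjoint_left.2 fun {p} hp hp' => ?_⟩, ?_⟩⟩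
      · obtain ⟨z, hz, rfl⟩ := Multiset.mem_map.1 hp
        have d1 : z.p ∣ Q := (hn ▸ Multiset.dvd_prod hp : z.p ∣ n).trans ⟨m, hm⟩
        exact (hG' z hz).1.one_lt.ne' (Nat.eq_one_of_dvd_coprimes h0.2 (Multiset.dvd_prod hp') d1)
      · rw [← h3, ← hv, add_sub_cancel]
    · rw [ind, if_neg h0, zero_mul]

end Pool.Agent.MP_f3836a_nt.VE.BC
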