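import Pool.Agent.MP_f3836a_nt.VE.SpecC

/-! The number of unit residues which are one modulo `W`. -/

set_option autoImplicit false

namespace Pool.Agent.MP_f3836a_nt.VE.BC

open Finset Pool.Agent.MP_c481b3_nt.H28.W Pool.Agent.MP_c481b3_nt.H63

namespace CPhi

theorem rep {M : ℕ} (F : ℕ → ℝ) (hF : ∀ x x', x ≡ x' [MOD M] → F x = F x') (k : ℕ) :
    ∑ x ∈ range (M * k), F x = k * ∑ x ∈ range M, F x := by
  induction k with
  | zero => simp
  | succ k ih =>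
    rw [Nat.mul_succ, sum_range_add, ih,
      sum_congr rfl fun x _ => hF (M * k + x) x (by simp [Nat.ModEq])]
    push_cast
    ring

theorem rep2 {M : ℕ} {f : ℕ → ℕ → ℝ} (hf : Per M f) (k : ℕ) :
    MP_c481b3_nt.H63.sm (M * k) f = (k : ℝ) ^ 2 * MP_c481b3_nt.H63.sm M f := by
  unfold MP_c481b3_nt.H63.sm
  rw [rep (fun x => ∑ y ∈ range (M * k), f x y) fun x x' hx =>
      sum_congr rfl fun y _ => hf _ _ _ _ hx rfl,
    sum_congr rfl fun x _ => rep (f x) (fun y y' hy => hf _ _ _ _ rfl hy) k, ← mul_sum]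
  ring

theorem one {W : ℕ} (hW : 0 < W) (a : ℕ) :
    ∑ x ∈ range W, (if x ≡ a [MOD W] then (1 : ℝ) else 0) = 1 := by
  rw [sum_eq_single (a % W) (fun x hx h => if_neg fun e : x ≡ a [MOD W] => h
    ((Nat.mod_eq_of_lt (mem_range.1 hx)).symm.trans e))
    fun h => absurd (mem_range.2 (Nat.mod_lt _ hW)) h, if_pos (Nat.mod_modEq _ _)]

theorem loc {l : ℕ} (hl : 0 < l) (A : ℕ) :
    av l (fun x y => if l ∣ x ^ 2 + A * y ^ 2 then 0 else 1) = 1 - nuN A l := by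
  have : (l : ℝ) ≠ 0 := Nat.cast_ne_zero.2 hl.ne'
  rw [av, MP_c481b3_nt.H63.sm, nuN, ← sum_product', ← sum_boole, eq_sub_iff_add_eq, ← add_div,
    ← sum_add_distrib, sum_congr rfl (g := fun _ => (1 : ℝ)) fun v _ => by split_ifs <;> simp]
  simp [sq, this]

end CPhi

open CPhi in
theorem rPhi : PhiS := by
  intro A W Q hWQ hQ
  set P := Q.primeFactors.filter fun l => ¬l ∣ W
  have hP : ∀ l ∈ P, l.Prime := fun l h => Nat.prime_of_mem_primeFactors (mem_filter.1 h).1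
  have hW := Nat.pos_of_dvd_of_pos hWQ hQ
  have hR : 0 < ∏ l ∈ P, l := prod_pos fun l h => (hP l h).pos
  have hc : W.Coprime (∏ l ∈ P, l) := Nat.Coprime.prod_right fun l h =>
    ((hP l h).coprime_iff_not_dvd.2 (mem_filter.1 h).2).symm
  obtain ⟨k, hk⟩ := hc.mul_dvd_of_dvd_of_dvd hWQ
    ((prod_dvd_prod_of_subset _ _ _ (filter_subset _ _)).trans (Nat.prod_primeFactors_dvd Q))
  let f : ℕ → ℕ → ℝ := fun x y =>
    (if x ≡ 1 [MOD W] then 1 else 0) * if y ≡ 0 [MOD W] then 1 else 0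
  let u : ℕ → ℕ → ℕ → ℝ := fun l x y => if l ∣ x ^ 2 + A * y ^ 2 then 0 else 1
  have hf : Per W f := fun x y x' y' hx hy =>
    congrArg₂ (· * ·) (if_congr ⟨hx.symm.trans, hx.trans⟩ rfl rfl)
      (if_congr ⟨hy.symm.trans, hy.trans⟩ rfl rfl)
  have hu : ∀ l ∈ P, Per l (u l) := fun l _ x y x' y' hx hy => by
    simp only [u, ((hx.pow 2).add ((hy.pow 2).mul_left A)).dvd_iff dvd_rfl]
  have h1 : MP_c481b3_nt.H63.sm W f = 1 := by
    simp only [MP_c481b3_nt.H63.sm, f, ← mul_sum, one hW, mul_one]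
  have h2 := av_prod P hP u hu
  rw [prod_congr rfl fun l h => loc (hP l h).pos A, av, div_eq_iff (by positivity)] at h2
  have h3 : ((US A W Q).card : ℝ) = MP_c481b3_nt.H63.sm Q fun x y => f x y * ∏ l ∈ P, u l x y := by
    rw [US, ← sum_boole, sum_image fun v _ w _ h => Prod.ext
      (Nat.cast_injective (R := ℤ) (congrArg Zsqrtd.re h))
      (Nat.cast_injective (R := ℤ) (congrArg Zsqrtd.im h)), MP_c481b3_nt.H63.sm, ← sum_product']
    refine sum_congr rfl fun ⟨x, y⟩ _ => ?_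
    have e1 : (W : O A) ∣ ⟨x, y⟩ - 1 ↔ x ≡ 1 [MOD W] ∧ y ≡ 0 [MOD W] := by
      rw [← Int.cast_natCast W, Zsqrtd.intCast_dvd, Nat.modEq_iff_dvd, Nat.modEq_iff_dvd,
        dvd_sub_comm (b := ((1 : ℕ) : ℤ))]
      simp
    have e2 : (⟨x, y⟩ : O A).norm.natAbs = x ^ 2 + A * y ^ 2 := by
      rw [norm_O]
      exact Int.natAbs_natCast (x ^ 2 + A * y ^ 2)
    simp only [e1, Cp, e2, f, u, ← ite_not (_ ∣ _), prod_boole, ite_zero_mul_ite_zero, mul_one]
    refine if_congr (and_congr_right fun h => ⟨fun g l hl d => (hP l hl).one_lt.ne' ?_,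
      fun g => Nat.coprime_of_dvd fun l hl d q => ?_⟩) rfl rfl
    · exact Nat.eq_one_of_dvd_coprimes g d (Nat.dvd_of_mem_primeFactors (mem_filter.1 hl).1)
    · refine g l (mem_filter.2 ⟨Nat.mem_primeFactors.2 ⟨hl, q, hQ.ne'⟩, fun w => ?_⟩) d
      have := (((h.1.pow 2).add ((h.2.pow 2).mul_left A)).dvd_iff w).1 d
      exact hl.one_lt.ne' (by simpa using this)
  have h4 : Per (W * ∏ l ∈ P, l) fun x y => f x y * ∏ l ∈ P, u l x y :=
    fun _ _ _ _ hx hy => congrArg₂ (· * ·) (hf _ _ _ _ (hx.of_mul_right _) (hy.of_mul_right _))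
      (per_prod P u hu _ _ _ _ (hx.of_mul_left _) (hy.of_mul_left _))
  have h5 := rep2 h4 k
  rw [← hk, crt2 hc hW hR hf (per_prod P u hu), h1, h2] at h5
  have h6 : (Q : ℝ) = W * (∏ l ∈ P, l : ℕ) * k := by exact_mod_cast hk
  rw [h3, h5, h6, sd]
  ring

end Pool.Agent.MP_f3836a_nt.VE.BC
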