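import Pool.Agent.MP_f3836a_nt.VE.SpecC

/-! The projection of ray class groups to a lower level. -/

set_option autoImplicit false

namespace Pool.Agent.MP_f3836a_nt.VE.BC

open Finset Pool.Agent.MP_c481b3_nt.H28.W Pool.Agent.MP_c481b3_nt.H63

namespace CPi

theorem crt (f : ℤ → ℤ → ℤ) (hf : ∀ l x y s t : ℤ, l ∣ f (x + l * s) (y + l * t) - f x y)
    (P : Finset ℕ) (hP : ∀ l ∈ P, l.Prime ∧ ∃ x y, ¬(l : ℤ) ∣ f x y) :
    ∃ x y, ∀ l ∈ P, ¬(l : ℤ) ∣ f x y := by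
  induction P using Finset.induction_on with
  | empty => exact ⟨0, 0, by simp⟩
  | insert l P hl ih =>
    obtain ⟨x, y, h⟩ := ih fun l' hl' => hP l' (mem_insert_of_mem hl')
    obtain ⟨hp, x0, y0, h0⟩ := hP l (mem_insert_self _ _)
    have hc : (∏ q ∈ P, q).Coprime l := Nat.Coprime.prod_left fun q hq =>
      (Nat.coprime_primes (hP q (mem_insert_of_mem hq)).1 hp).2 (by rintro rfl; exact hl hq)
    obtain ⟨u, v, huv⟩ := Nat.isCoprime_iff_coprime.2 hc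
    refine ⟨x0 + l * (v * (x - x0)), y0 + l * (v * (y - y0)), fun q hq hd => ?_⟩
    rcases mem_insert.1 hq with rfl | hq
    · exact h0 (by simpa using hd.sub (hf q x0 y0 (v * (x - x0)) (v * (y - y0))))
    · obtain ⟨w, hw⟩ := Finset.dvd_prod_of_mem (fun q : ℕ => q) hq
      rw [hw, Nat.cast_mul] at huv
      have e1 : x0 + l * (v * (x - x0)) = x + q * (u * w * (x0 - x)) := by
        linear_combination (x - x0) * huv
      have e2 : y0 + l * (v * (y - y0)) = y + q * (u * w * (y0 - y)) := by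
        linear_combination (y - y0) * huv
      rw [e1, e2] at hd
      exact h q hq (by simpa using hd.sub (hf q x y (u * w * (x0 - x)) (u * w * (y0 - y))))

theorem mq_le {A W Q : ℕ} (h : W ∣ Q) {I : Ideal (O A)} (hI : I ∈ MQ A Q) : I ∈ MQ A W := by
  obtain ⟨n, h0, hn, h'⟩ := hI
  exact ⟨n, h0, hn.coprime_dvd_right h, h'⟩

theorem wd {A W Q : ℕ} (h : W ∣ Q) {I J : Ideal (O A)} (hI : I ∈ MQ A Q) (hJ : J ∈ MQ A Q)
    (e : cI Q I = cI Q J) : cI W I = cI W J := by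
  obtain ⟨a, b, h1, h2, h3, h4, h5⟩ := (cI_eq hI hJ).1 e
  exact (cI_eq (mq_le h hI) (mq_le h hJ)).2
    ⟨a, b, h1, h2, (Nat.cast_dvd_cast h).trans h3, (Nat.cast_dvd_cast h).trans h4, h5⟩

theorem exists_pi {A W Q : ℕ} (h : W ∣ Q) :
    ∃ π : RC A Q →+ RC A W, ∀ I ∈ MQ A Q, π (cI Q I) = cI W I := by
  choose r hr hr' using fun g : RC A Q => cI_surj g
  refine ⟨AddMonoidHom.mk' (fun g => cI W (r g)) fun g g' => ?_, fun I hI => ?_⟩
  · rw [← cI_mul (mq_le h (hr g)) (mq_le h (hr g'))]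
    exact wd h (hr _) (mul_mem (hr g) (hr g')) (by rw [cI_mul (hr g) (hr g'), hr', hr', hr'])
  · exact wd h (hr _) hI (hr' _)

theorem cp_one (A W : ℕ) : Cp W (1 : O A) := by simp [Cp]

theorem io_one (A W : ℕ) : io W (1 : O A) = 0 := by
  rw [io, Ideal.span_singleton_one, cI_top]

/-- an element of `I` which is `1` modulo `W` and whose cofactor is prime to `Q` -/
theorem elt (hR : RedS) {A W Q n : ℕ} {I : Ideal (O A)} (hA : 1 < A) (hQ : 0 < Q) (h0 : n ≠ 0)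
    (hn : n.Coprime W) (h : HasN I n) : ∃ z ∈ I, ∃ m : ℕ, m ≠ 0 ∧ m.Coprime Q ∧
      z.norm.natAbs = n * m ∧ (W : O A) ∣ z - 1 := by
  obtain ⟨e1, e2, a, b, c, hm, h1, h2, h3, -, -, -, hl⟩ := hR A n I hA h0 h
  have hq : ∀ x y : ℤ, ((x : O A) * e1 + y * e2).norm = n * (a * x ^ 2 + 2 * b * x * y + c * y ^ 2) := by
    intro x y
    have h4 := congrArg Zsqrtd.re h2
    rw [norm_O] at h1 h3 ⊢
    simp at h4 ⊢
    linear_combination x ^ 2 * h1 + y ^ 2 * h3 + 2 * x * y * h4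
  obtain ⟨t, s, hts⟩ := Nat.isCoprime_iff_coprime.2 hn
  obtain ⟨x0, y0, hxy⟩ := (hm ((t : O A) * n)).1 (I.mul_mem_left _ h.mem)
  have h5 : a * x0 ^ 2 + 2 * b * x0 * y0 + c * y0 ^ 2 = t ^ 2 * n := by
    have := hq x0 y0
    rw [← hxy, Zsqrtd.norm_mul, Zsqrtd.norm_intCast, Zsqrtd.norm_natCast] at this
    exact mul_left_cancel₀ (Int.natCast_ne_zero.2 h0) (by linear_combination -this)
  obtain ⟨x, y, hxy'⟩ := crt (fun x y => a * (x0 + W * x) ^ 2 + 2 * b * (x0 + W * x) * (y0 + W * y)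
    + c * (y0 + W * y) ^ 2) (fun l x y s t => ⟨W * (a * s * (2 * x0 + W * (2 * x + l * s))
      + 2 * b * (s * (y0 + W * y) + t * (x0 + W * x) + W * l * s * t)
      + c * t * (2 * y0 + W * (2 * y + l * t))), by ring⟩) (2 * Q).primeFactors fun l hl' => by
    have hp := Nat.prime_of_mem_primeFactors hl'
    have hp' : Prime (l : ℤ) := Nat.prime_iff_prime_int.1 hp
    refine ⟨hp, ?_⟩
    by_cases hW : l ∣ W
    · refine ⟨0, 0, fun hd => hp'.not_dvd_one ?_⟩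
      simp only [mul_zero, add_zero, h5] at hd
      rw [← hts]
      refine dvd_add ?_ ((Int.natCast_dvd_natCast.2 hW).mul_left _)
      rcases hp'.dvd_or_dvd hd with hd | hd
      · exact (hp'.dvd_of_dvd_pow hd).mul_right _
      · exact hd.mul_left _
    · obtain ⟨z, hz, hz'⟩ := hl l hp
      obtain ⟨x1, y1, rfl⟩ := (hm z).1 hz
      obtain ⟨u, v, huv⟩ := Nat.isCoprime_iff_coprime.2 ((Nat.Prime.coprime_iff_not_dvd hp).2 hW)
      refine ⟨v * (x1 - x0), v * (y1 - y0), fun hd => hz' ?_⟩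
      have e1 : x0 + W * (v * (x1 - x0)) = x1 + l * (u * (x0 - x1)) := by
        linear_combination (x1 - x0) * huv
      have e2 : y0 + W * (v * (y1 - y0)) = y1 + l * (u * (y0 - y1)) := by
        linear_combination (y1 - y0) * huv
      simp only [e1, e2] at hd
      rw [hq]
      refine mul_dvd_mul_left _ ?_
      generalize u * (x0 - x1) = p, u * (y0 - y1) = q at hd
      have := hd.sub (dvd_mul_right (l : ℤ) (a * p * (2 * x1 + l * p)
        + 2 * b * (p * y1 + q * x1 + l * p * q) + c * q * (2 * y1 + l * q)))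
      convert this using 1
      ring
  set F := a * (x0 + W * x) ^ 2 + 2 * b * (x0 + W * x) * (y0 + W * y) + c * (y0 + W * y) ^ 2
  have hc : F.natAbs.Coprime (2 * Q) := Nat.coprime_of_dvd fun l hp hd hd' =>
    hxy' l (Nat.mem_primeFactors.2 ⟨hp, hd', by omega⟩) (Int.natCast_dvd.2 hd)
  refine ⟨((x0 + W * x : ℤ) : O A) * e1 + ((y0 + W * y : ℤ) : O A) * e2, (hm _).2 ⟨_, _, rfl⟩,
    F.natAbs, fun e => ?_, hc.coprime_mul_left_right, by rw [hq, Int.natAbs_mul, Int.natAbs_natCast],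
    (x : O A) * e1 + y * e2 - s, ?_⟩
  · rw [e, Nat.coprime_zero_left] at hc
    omega
  · have h6 : (t : O A) * n + s * W = 1 := by exact_mod_cast congrArg (Int.cast : ℤ → O A) hts
    push_cast
    linear_combination h6 - hxy

end CPi

open CPi in
theorem rPi : OfPi := by
  intro hB hR A W Q hA hWQ hQ
  have : Fact (1 < A) := ⟨hA⟩
  obtain ⟨π, hπ⟩ := exists_pi (A := A) hWQ
  obtain ⟨q1, q2, -⟩ := hB A Q (fun _ => 0) hA
  obtain ⟨-, w2, -, w4, -⟩ := hB A W (fun _ => 0) hA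
  refine ⟨π, fun g => ?_, hπ, fun g => ⟨fun hg => ?_, ?_⟩⟩
  · obtain ⟨I, ⟨n, h0, hn, h⟩, rfl⟩ := cI_surj g
    obtain ⟨z, hz, m, hm0, hm, e, hz1⟩ := elt hR hA hQ h0 hn h
    obtain ⟨J, hJ⟩ := h.exists_mul h0 ((Ideal.span_singleton_le_iff_mem I).2 hz)
    have hJQ : J ∈ MQ A Q := ⟨m, hm0, hm, h.of_mul h0 (by rw [← hJ, ← e]; exact hasN_span z)⟩
    refine ⟨-cI Q J, ?_⟩
    rw [map_neg, hπ J hJQ, neg_eq_iff_add_eq_zero, add_comm,
      ← cI_mul ⟨n, h0, hn, h⟩ (mq_le hWQ hJQ), ← hJ]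
    exact (w2 1 z (cp_one A W) hz1).2.trans (io_one A W)
  · obtain ⟨I, hI, rfl⟩ := cI_surj g
    rw [hπ I hI, ← io_one] at hg
    obtain ⟨β, hβ, rfl⟩ := (w4 I (mq_le hWQ hI) 1 (cp_one A W)).1 hg
    have hQ' : (Q : ℤ) ≠ 0 := by omega
    have hd : (Q : O A) ∣ (⟨(β.re % Q).toNat, (β.im % Q).toNat⟩ : O A) - β := by
      rw [← Int.cast_natCast Q, Zsqrtd.intCast_dvd]
      simp only [Zsqrtd.re_sub, Zsqrtd.im_sub, Int.toNat_of_nonneg (Int.emod_nonneg _ hQ')]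
      exact ⟨(Int.mod_modEq β.re Q).symm.dvd, (Int.mod_modEq β.im Q).symm.dvd⟩
    obtain ⟨h1, h2⟩ := q2 β _ ((q1 β).1 hI).2 hd
    refine ⟨_, ?_, h2.symm⟩
    have hlt : ∀ x : ℤ, (x % Q).toNat < Q := fun x => by
      have := Int.emod_lt_of_pos x (show (0 : ℤ) < Q by omega)
      omega
    simp only [US, mem_filter, mem_image, mem_product, mem_range]
    refine ⟨⟨((β.re % Q).toNat, (β.im % Q).toNat), ⟨hlt _, hlt _⟩, rfl⟩, ?_, h1⟩
    simpa using ((Nat.cast_dvd_cast hWQ).trans hd).add hβ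
  · rintro ⟨c, hc, rfl⟩
    simp only [US, mem_filter] at hc
    by_cases h0 : c = 0
    · rw [io, cI, dif_neg fun h => ((q1 c).1 h).1 h0, map_zero]
    · rw [io, hπ _ ((q1 c).2 ⟨h0, hc.2.2⟩)]
      exact (w2 1 c (cp_one A W) hc.2.1).2.trans (io_one A W)

end Pool.Agent.MP_f3836a_nt.VE.BC
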