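import Pool.Agent.MP_f3836a_nt.VE.SpecC

/-! The lattice sum of the tent at the corners of the cells. -/

set_option autoImplicit false

namespace Pool.Agent.MP_f3836a_nt.VE.BC

open Finset

namespace CRib

/-- the integers `n` with `|x + n d| ≤ 2` -/
noncomputable def bx (d x : ℝ) : Finset ℤ := Icc ⌈(-2 - x) / d⌉ ⌊(2 - x) / d⌋

theorem mem_bx {d x : ℝ} (hd : 0 < d) (n : ℤ) : n ∈ bx d x ↔ |x + n * d| ≤ 2 := by
  rw [bx, mem_Icc, Int.ceil_le, Int.le_floor, div_le_iff₀ hd, le_div_iff₀ hd, abs_le]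
  constructor <;> rintro ⟨h1, h2⟩ <;> constructor <;> linarith

theorem card_bx {d x : ℝ} (hd : 0 < d) (hd1 : d ≤ 1) : ((bx d x).card : ℝ) ≤ 5 / d := by
  have h1 := Int.floor_le ((2 - x) / d)
  have h2 := Int.le_ceil ((-2 - x) / d)
  have h3 : (2 - x) / d - (-2 - x) / d = 4 / d := by ring
  have h4 : 1 ≤ 1 / d := by rw [le_div_iff₀ hd]; linarith
  have h5 : 5 / d = 4 / d + 1 / d := by ring
  rw [bx, Int.card_Icc]
  rcases le_total (⌊(2 - x) / d⌋ + 1 - ⌈(-2 - x) / d⌉) 0 with h | h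
  · rw [Int.toNat_eq_zero.2 h, Nat.cast_zero]; positivity
  · have : ((⌊(2 - x) / d⌋ + 1 - ⌈(-2 - x) / d⌉).toNat : ℝ) =
        ((⌊(2 - x) / d⌋ + 1 - ⌈(-2 - x) / d⌉ : ℤ) : ℝ) := by
      rw [← Int.cast_natCast, Int.toNat_of_nonneg h]
    rw [this]; push_cast; linarith

theorem tent_nn (z : ℂ) : 0 ≤ tent z := le_max_left _ _

theorem tent_le (z : ℂ) : tent z ≤ 1 := max_le zero_le_one (by linarith [norm_nonneg z])

theorem tent_lip (a b : ℂ) : |tent a - tent b| ≤ ‖a - b‖ := by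
  have h := abs_norm_sub_norm_le b a
  rw [norm_sub_rev] at h
  refine (abs_max_sub_max_le_max _ _ _ _).trans (max_le (by simp) ?_)
  rwa [show 1 - ‖a‖ - (1 - ‖b‖) = ‖b‖ - ‖a‖ by ring]

/-- the exponent -/
noncomputable def ww (η : ℝ) (N2 : ℕ) (w0 : ℂ) (v n : ℤ) : ℂ :=
  η * v / 2 + 2 * Real.pi * n / N2 * Complex.I - w0

theorem ww_add (η : ℝ) {N2 : ℕ} (hN : N2 ≠ 0) (w0 : ℂ) (v n k : ℤ) :
    ww η N2 w0 v (n + k * N2) = ww η N2 w0 v n + k * (2 * Real.pi * Complex.I) := by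
  have : (N2 : ℂ) ≠ 0 := by exact_mod_cast hN
  simp only [ww]; push_cast; field_simp; ring

theorem ct_val (η δ : ℝ) (N2 : ℕ) (w0 : ℂ) (v : ℤ) (t : ZMod N2) :
    ct η δ N2 w0 v t = tent ((Complex.exp (ww η N2 w0 v t.val) - 1) / δ) := by
  simp [ct, ww]

theorem ct_cast (η δ : ℝ) {N2 : ℕ} (hN : N2 ≠ 0) (w0 : ℂ) (v n : ℤ) :
    ct η δ N2 w0 v (n : ZMod N2) = tent ((Complex.exp (ww η N2 w0 v n) - 1) / δ) := by
  have : NeZero N2 := ⟨hN⟩
  have e : n = ((n : ZMod N2).val : ℤ) + n / N2 * N2 := by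
    rw [ZMod.val_intCast]; linarith [Int.emod_add_ediv_mul n N2]
  rw [ct_val]
  conv_rhs => rw [e, ww_add η hN, Complex.exp_add, Complex.exp_int_mul_two_pi_mul_I, mul_one]

theorem ww_eq (η : ℝ) {δ : ℝ} (hδ : 0 < δ) {N2 : ℕ} (hN : N2 ≠ 0) (w0 : ℂ) (v n : ℤ) :
    ww η N2 w0 v n = δ * (⟨-w0.re / δ + v * (η / (2 * δ)),
      -w0.im / δ + n * (2 * Real.pi / (N2 * δ))⟩ : ℂ) := by
  have : (N2 : ℝ) ≠ 0 := by exact_mod_cast hN
  have e : ww η N2 w0 v n = ((η * v / 2 : ℝ) : ℂ) + ((2 * Real.pi * n / N2 : ℝ) : ℂ) * Complex.I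
      - w0 := by simp [ww]
  rw [e]
  apply Complex.ext
  · simp only [Complex.sub_re, Complex.add_re, Complex.ofReal_re, Complex.mul_re,
      Complex.ofReal_im, Complex.I_re, Complex.I_im]
    field_simp; ring
  · simp only [Complex.sub_im, Complex.add_im, Complex.ofReal_re, Complex.mul_im,
      Complex.ofReal_im, Complex.I_re, Complex.I_im]
    field_simp; ring

theorem supp (η : ℝ) {δ : ℝ} (hδ : 0 < δ) (h8 : 8 * δ ≤ 1) {N2 : ℕ} (hN : N2 ≠ 0) (w0 : ℂ) (v : ℤ)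
    (t : ZMod N2) (h : ct η δ N2 w0 v t ≠ 0) :
    ∃ n : ℤ, (n : ZMod N2) = t ∧ ‖ww η N2 w0 v n‖ ≤ 2 * δ := by
  have : NeZero N2 := ⟨hN⟩
  rw [ct_val] at h
  set w := ww η N2 w0 v t.val with hw
  have h1 : ‖Complex.exp w - 1‖ < δ := by
    by_contra hc
    refine h (max_eq_left ?_)
    rw [norm_div, Complex.norm_real, Real.norm_of_nonneg hδ.le, sub_nonpos, le_div_iff₀ hδ]
    linarith [not_lt.1 hc]
  have h2 := Complex.norm_log_one_add_half_le_self (z := Complex.exp w - 1) (by linarith)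
  rw [add_sub_cancel] at h2
  obtain ⟨k, hk⟩ := Complex.exp_eq_exp_iff_exists_int.1 (Complex.exp_log (Complex.exp_ne_zero w))
  refine ⟨t.val + k * N2, by simp, ?_⟩
  rw [ww_add η hN, ← hw, ← hk]
  linarith

theorem close {δ : ℝ} (hδ : 0 < δ) (h8 : 8 * δ ≤ 1) (z : ℂ) (h1 : |z.re| ≤ 2) (h2 : |z.im| ≤ 2) :
    |tent ((Complex.exp (δ * z) - 1) / δ) - tent z| ≤ 16 * δ := by
  have hz : ‖z‖ ≤ 4 := by linarith [Complex.norm_le_abs_re_add_abs_im z]
  have hw : ‖(δ : ℂ) * z‖ ≤ 4 * δ := by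
    rw [norm_mul, Complex.norm_real, Real.norm_of_nonneg hδ.le]; nlinarith
  have h3 := Complex.norm_exp_sub_one_sub_id_le (x := δ * z) (by linarith)
  have hδ' : (δ : ℂ) ≠ 0 := by exact_mod_cast hδ.ne'
  refine (tent_lip _ _).trans ?_
  rw [show (Complex.exp (δ * z) - 1) / δ - z = (Complex.exp (δ * z) - 1 - δ * z) / δ by
    field_simp, norm_div, Complex.norm_real, Real.norm_of_nonneg hδ.le, div_le_iff₀ hδ]
  nlinarith [norm_nonneg ((δ : ℂ) * z)]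

end CRib

open CRib in
theorem rRib : RibS := by
  intro cτ Cτ _ hC hRS
  refine ⟨400 + 8 * Cτ, by positivity, fun η δ N2 w0 hη hδ hηδ h8 hN2 => ?_⟩
  have hN : N2 ≠ 0 := by rintro rfl; norm_num at hN2
  have hN' : (0 : ℝ) < N2 := by exact_mod_cast Nat.pos_of_ne_zero hN
  have hp3 := Real.pi_gt_three
  have hp4 := Real.pi_lt_d2
  set d1 := η / (2 * δ) with hd1
  set d2 := 2 * Real.pi / (N2 * δ) with hd2
  set x0 := -w0.re / δ with hx0
  set y0 := -w0.im / δ with hy0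
  have p1 : 0 < d1 := by positivity
  have p2 : 0 < d2 := by positivity
  have q1 : d1 ≤ δ := by rw [hd1, div_le_iff₀ (by positivity)]; nlinarith
  have q2 : d2 ≤ 7 * δ := by
    have : 1 ≤ δ ^ 2 * N2 := hN2.trans (by gcongr)
    rw [hd2, div_le_iff₀ (by positivity)]; nlinarith
  have hww : ∀ v n : ℤ, ww η N2 w0 v n = δ * (⟨x0 + v * d1, y0 + n * d2⟩ : ℂ) := ww_eq η hδ hN w0
  set B := bx d1 x0 ×ˢ bx d2 y0 with hB
  have mB : ∀ q : ℤ × ℤ, q ∈ B ↔ |x0 + q.1 * d1| ≤ 2 ∧ |y0 + q.2 * d2| ≤ 2 := fun q => by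
    rw [hB, mem_product, mem_bx p1, mem_bx p2]
  have mB' : ∀ q : ℤ × ℤ, ‖(⟨x0 + q.1 * d1, y0 + q.2 * d2⟩ : ℂ)‖ ≤ 2 → q ∈ B := fun q h =>
    (mB q).2 ⟨(Complex.abs_re_le_norm ⟨_, y0 + q.2 * d2⟩).trans h,
      (Complex.abs_im_le_norm ⟨x0 + q.1 * d1, _⟩).trans h⟩
  classical
  refine ⟨B.image fun q => (q.1, (q.2 : ZMod N2)), fun p hp => ?_, fun P m e hm he hP => ?_⟩
  · obtain ⟨n, hn, h⟩ := supp η hδ h8 hN w0 p.1 p.2 hp
    refine mem_image.2 ⟨(p.1, n), mB' _ ?_, by simp [hn]⟩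
    rw [hww, norm_mul, Complex.norm_real, Real.norm_of_nonneg hδ.le] at h
    exact le_of_mul_le_mul_left (by linarith) hδ
  have inj : Set.InjOn (fun q : ℤ × ℤ => (q.1, (q.2 : ZMod N2))) B := by
    intro q hq q' hq' h
    obtain ⟨h1, h2⟩ := Prod.mk.inj h
    refine Prod.ext h1 ?_
    have a1 := abs_le.1 ((mB q).1 hq).2
    have a2 := abs_le.1 ((mB q').1 hq').2
    have a3 : |((q'.2 - q.2 : ℤ) : ℝ)| * d2 ≤ 4 := by
      rw [← abs_of_pos p2, ← abs_mul, abs_le]; push_cast; constructor <;> nlinarith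
    have a4 : |((q'.2 - q.2 : ℤ) : ℝ)| < N2 := by
      rw [hd2, ← mul_div_assoc, div_le_iff₀ (by positivity)] at a3
      nlinarith [abs_nonneg ((q'.2 - q.2 : ℤ) : ℝ)]
    have a5 : |q'.2 - q.2| < (N2 : ℤ) := by exact_mod_cast a4
    have := Int.eq_zero_of_abs_lt_dvd ((ZMod.intCast_eq_intCast_iff_dvd_sub _ _ _).1 h2) a5
    omega
  rw [sum_image inj]
  set K := δ ^ 2 * N2 / (Real.pi * η) with hK
  have hK0 : 0 ≤ K := by positivity
  have hK1 : K * (d1 * d2) = 1 := by rw [hK, hd1, hd2]; field_simp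
  have hK2 : K ≤ δ ^ 2 * N2 / η := by rw [hK]; gcongr; nlinarith
  have cB : (B.card : ℝ) ≤ 25 * K := by
    have : 25 * K = 5 / d1 * (5 / d2) := by field_simp; linarith
    rw [hB, card_product, Nat.cast_mul, this]
    gcongr <;> exact card_bx ‹_› (by linarith)
  have h1 := hRS d1 d2 x0 y0 B p1 (by linarith) p2 (by linarith) fun p h => mB' p (by linarith)
  set T := ∑ p ∈ B, tent ⟨x0 + p.1 * d1, y0 + p.2 * d2⟩ with hT
  have h2 : |∑ q ∈ B, P (q.1, (q.2 : ZMod N2)) * ct η δ N2 w0 q.1 (q.2 : ZMod N2) - m * T|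
      ≤ B.card * (e + m * (16 * δ)) := by
    rw [hT, mul_sum, ← sum_sub_distrib, ← nsmul_eq_mul]
    refine (abs_sum_le_sum_abs _ _).trans (sum_le_card_nsmul _ _ _ fun q hq => ?_)
    obtain ⟨b1, b2⟩ := (mB q).1 hq
    have b3 := close hδ h8 ⟨_, _⟩ b1 b2
    have b4 : |P (q.1, (q.2 : ZMod N2)) - m| ≤ e := by
      refine hP _ ?_
      rw [show η * ((q.1, (q.2 : ZMod N2)).1 : ℝ) - 2 * w0.re = 2 * δ * (x0 + q.1 * d1) by
        rw [hx0, hd1]; field_simp; ring, abs_mul, abs_of_pos (by positivity)]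
      nlinarith
    rw [ct_cast η δ hN, hww]
    set c := tent ((Complex.exp (δ * (⟨x0 + q.1 * d1, y0 + q.2 * d2⟩ : ℂ)) - 1) / δ)
    have c0 : 0 ≤ c := tent_nn _
    have c1 : c ≤ 1 := tent_le _
    rw [show ∀ a b : ℝ, a * c - m * b = (a - m) * c + m * (c - b) from fun a b => by ring]
    refine (abs_add_le _ _).trans (add_le_add ?_ ?_)
    · rw [abs_mul, abs_of_nonneg c0]; nlinarith [abs_nonneg (P (q.1, (q.2 : ZMod N2)) - m)]
    · rw [abs_mul, abs_of_nonneg hm]; gcongr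
  have h3 : |m * T - m * (cτ * δ ^ 2 * N2 / (Real.pi * η))| ≤ m * K * (Cτ * (8 * δ)) := by
    rw [show m * T - m * (cτ * δ ^ 2 * N2 / (Real.pi * η)) = m * K * (d1 * d2 * T - cτ) by
      rw [mul_sub, show m * K * (d1 * d2 * T) = m * (K * (d1 * d2)) * T by ring, hK1, hK]; ring,
      abs_mul, abs_of_nonneg (by positivity)]
    gcongr
    exact h1.trans (by gcongr; linarith)
  have h4 : (B.card : ℝ) * (e + m * (16 * δ)) ≤ 25 * K * (e + m * (16 * δ)) := by gcongr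
  have h5 : 25 * K * (e + m * (16 * δ)) + m * K * (Cτ * (8 * δ))
      ≤ (400 + 8 * Cτ) * (e + m * δ) * K := by
    have : 0 ≤ K * e := by positivity
    have : 0 ≤ K * e * Cτ := by positivity
    nlinarith
  have h6 : (400 + 8 * Cτ) * (e + m * δ) * K ≤ (400 + 8 * Cτ) * (e + m * δ) * (δ ^ 2 * N2 / η) := by
    gcongr
  refine (abs_sub_le _ (m * T) _).trans ?_
  linarith

end Pool.Agent.MP_f3836a_nt.VE.BC
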