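import Pool.Agent.MP_f3836a_nt.VE.SpecC

/-! The number of roots of `b ^ 2 + A` modulo an integer. -/

set_option autoImplicit false

namespace Pool.Agent.MP_f3836a_nt.VE.BC

open Finset

namespace CRr

theorem root_mod {A a n b : ℕ} (h : a ∣ n) (hb : n ∣ b ^ 2 + A) : a ∣ (b % a) ^ 2 + A :=
  ((((Nat.mod_modEq b a).pow 2).add_right A).dvd_iff dvd_rfl).2 (h.trans hb)

theorem two_roots {A n b c : ℕ} (hb : n ∣ b ^ 2 + A) (hc : n ∣ c ^ 2 + A) :
    (n : ℤ) ∣ ((b : ℤ) - c) * (b + c) := by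
  have := dvd_sub (Int.natCast_dvd_natCast.2 hb) (Int.natCast_dvd_natCast.2 hc)
  push_cast at this
  rwa [show (b : ℤ) ^ 2 + A - (c ^ 2 + A) = (b - c) * (b + c) by ring] at this

theorem half {p x y : ℤ} (hp : Prime p) {j m : ℕ} (hm : 2 * m ≤ j + 1) (h : p ^ j ∣ x * y) :
    p ^ m ∣ x ∨ p ^ m ∣ y := by
  by_contra hn
  rw [not_or, ← emultiplicity_lt_iff_not_dvd, ← emultiplicity_lt_iff_not_dvd] at hn
  rw [pow_dvd_iff_le_emultiplicity, emultiplicity_mul hp] at h
  obtain ⟨h1, h2⟩ := hn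
  lift emultiplicity p x to ℕ using h1.ne_top with a
  lift emultiplicity p y to ℕ using h2.ne_top with b
  norm_cast at h h1 h2
  omega

end CRr

open CRr in
theorem rRr : RrS := by
  intro A
  refine ⟨by simp [rr], fun a b hab => ?_, fun l j hl => ⟨?_, fun hA hj => ?_⟩⟩
  · rw [rr, rr, rr, ← card_product]
    refine card_le_card_of_injOn (fun x => (x % a, x % b)) (fun x hx => ?_) fun x hx y hy e => ?_
    · simp only [coe_filter, mem_range, Set.mem_ofPred_eq] at hx
      have h0 : a * b ≠ 0 := by omega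
      simp only [coe_product, coe_filter, mem_range, Set.mem_prod, Set.mem_ofPred_eq]
      exact ⟨⟨Nat.mod_lt _ (Nat.pos_of_ne_zero (left_ne_zero_of_mul h0)),
        root_mod (dvd_mul_right _ _) hx.2⟩, Nat.mod_lt _ (Nat.pos_of_ne_zero (right_ne_zero_of_mul h0)),
        root_mod (dvd_mul_left _ _) hx.2⟩
    · simp only [coe_filter, mem_range, Set.mem_ofPred_eq] at hx hy
      exact ((Nat.modEq_and_modEq_iff_modEq_mul hab).1 (Prod.ext_iff.1 e)).eq_of_lt_of_lt hx.1 hy.1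
  · rw [rr]
    rcases ((range (l ^ j)).filter fun b => l ^ j ∣ b ^ 2 + A).eq_empty_or_nonempty with h | ⟨c, hc⟩
    · simp [h]
    obtain ⟨m, hm⟩ : ∃ m, m + j / 2 = j := ⟨j - j / 2, by omega⟩
    have e0 : 2 * l ^ (j / 2) = ((univ : Finset Bool) ×ˢ range (l ^ (j / 2))).card := by simp
    rw [e0]
    refine card_le_card_of_injOn (fun x => (decide ((l : ℤ) ^ m ∣ (x : ℤ) - c), x / l ^ m))
      (fun x hx => ?_) fun x hx y hy e => ?_
    · simp only [coe_filter, mem_range, Set.mem_ofPred_eq] at hx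
      simp only [coe_product, coe_univ, coe_range, Set.mem_prod, Set.mem_univ, true_and, Set.mem_Iio]
      exact Nat.div_lt_of_lt_mul (by rw [← pow_add, hm]; exact hx.1)
    · simp only [coe_filter, mem_range, Set.mem_ofPred_eq] at hx hy
      obtain ⟨e1, e2⟩ := Prod.ext_iff.1 e
      have e3 : ((l : ℤ) ^ m ∣ (x : ℤ) - c) ↔ (l : ℤ) ^ m ∣ (y : ℤ) - c := decide_eq_decide.1 e1
      have k : ∀ z : ℕ, l ^ j ∣ z ^ 2 + A → (l : ℤ) ^ m ∣ (z : ℤ) - c ∨ (l : ℤ) ^ m ∣ (z : ℤ) + c :=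
        fun z hz => half (Nat.prime_iff_prime_int.1 hl) (j := j) (by omega)
          (by exact_mod_cast two_roots hz (mem_filter.1 hc).2)
      have e4 : x ≡ y [MOD l ^ m] := by
        rw [Nat.modEq_iff_dvd]
        push_cast
        by_cases h : (l : ℤ) ^ m ∣ (x : ℤ) - c
        · simpa using dvd_sub (e3.1 h) h
        · simpa using dvd_sub ((k y hy.2).resolve_left (mt e3.2 h)) ((k x hx.2).resolve_left h)
      rw [← Nat.div_add_mod x (l ^ m), ← Nat.div_add_mod y (l ^ m), show x / l ^ m = y / l ^ m from e2,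
        show x % l ^ m = y % l ^ m from e4]
  · rw [rr, rr]
    have hd : l ∣ l ^ j := dvd_pow_self l (by omega)
    refine card_le_card_of_injOn (fun x => x % l) (fun x hx => ?_) fun x hx y hy e => ?_
    · simp only [coe_filter, mem_range, Set.mem_ofPred_eq] at hx ⊢
      exact ⟨Nat.mod_lt _ hl.pos, root_mod hd hx.2⟩
    · simp only [coe_filter, mem_range, Set.mem_ofPred_eq] at hx hy
      have e1 : (l : ℤ) ∣ (y : ℤ) - x := Nat.modEq_iff_dvd.1 e
      have e2 : ¬(l : ℤ) ∣ (y : ℤ) + x := fun h => hA (by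
        have a1 : (l : ℤ) ∣ (y : ℤ) ^ 2 + A := by exact_mod_cast hd.trans hy.2
        have a2 := dvd_sub (a1.mul_left 2) ((dvd_add e1 h).mul_right y)
        rw [show 2 * ((y : ℤ) ^ 2 + A) - (y - x + (y + x)) * y = 2 * A by ring] at a2
        exact_mod_cast a2)
      refine Nat.ModEq.eq_of_lt_of_lt (Nat.modEq_iff_dvd.2 ?_) hx.1 hy.1
      have e3 := two_roots hy.2 hx.2
      push_cast at e3 ⊢
      exact (Nat.prime_iff_prime_int.1 hl).pow_dvd_of_dvd_mul_right j e2 e3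

end Pool.Agent.MP_f3836a_nt.VE.BC
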