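import Pool.Agent.MP_f3836a_nt.VE.SpecC

/-! Row CSum: bookkeeping for the average of the weighted number of decompositions. -/

set_option autoImplicit false

namespace Pool.Agent.MP_f3836a_nt.VE.BC

open Finset Pool.Agent.MP_c481b3_nt.H28.W

namespace CSum

theorem restrict {α : Type} {S S' : Finset α} (h : S' ⊆ S) {j : ℕ} (F : (Fin j → α) → ℝ)
    (h0 : ∀ s : Fin j → α, ∀ i, s i ∈ S → s i ∉ S' → F s = 0) :
    ∑ s : Fin j → S, F (fun i => s i) = ∑ s : Fin j → S', F fun i => s i := by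
  classical
  refine (Fintype.sum_of_injective (fun (s : Fin j → S') i => (⟨s i, h (s i).2⟩ : S))
    (fun s s' e => funext fun i => Subtype.ext (Subtype.mk.inj (congrFun e i))) _ _
    (fun s hs => ?_) fun _ => rfl).symm
  by_contra hF
  have h1 : ∀ i, (s i).1 ∈ S' := fun i => by
    by_contra hi
    exact hF (h0 _ i (s i).2 hi)
  exact hs ⟨fun i => ⟨s i, h1 i⟩, rfl⟩

theorem nT_sum {ι : Type} (t : Finset ι) (M : ι → Multiset Pt) :
    nT (∑ i ∈ t, M i) = ∏ i ∈ t, nT (M i) := by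
  classical
  induction t using Finset.induction_on with
  | empty => simp [nT]
  | insert a t ha ih =>
    rw [sum_insert ha, prod_insert ha, ← ih, nT, Multiset.map_add, Multiset.prod_add]
    rfl

theorem tup (hB : BasS) {A Q : ℕ} (hA : 1 < A) {ss : Pt → ℤ} {lam : Ideal (O A) → ℂ}
    (hL : Lam A Q lam) {ι : Type} (t : Finset ι) (M : ι → Multiset Pt)
    (h : ∀ i, IM A ss (M i) ∈ MQ A Q) :
    IM A ss (∑ i ∈ t, M i) ∈ MQ A Q ∧ cM A Q ss (∑ i ∈ t, M i) = ∑ i ∈ t, cM A Q ss (M i) ∧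
      lam (IM A ss (∑ i ∈ t, M i)) = ∏ i ∈ t, lam (IM A ss (M i)) := by
  classical
  induction t using Finset.induction_on with
  | empty =>
    have e : IM A ss 0 = 1 := by simp [IM]
    refine ⟨by rw [sum_empty, e]; exact one_mem _, by simp [cM], ?_⟩
    rw [sum_empty, prod_empty, e, Ideal.one_eq_top, ← Ideal.span_singleton_one,
      hL.one 1 (by simp)]
    exact Complex.ext (by simp [emb]) (by simp [emb])
  | insert a t ha ih =>
    obtain ⟨e1, e2, -⟩ := (hB A Q ss hA).2.2.2.2.2.1 (M a) (∑ i ∈ t, M i)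
    rw [sum_insert ha, sum_insert ha, prod_insert ha, e1, e2, hL.mul _ (h a) _ ih.1, ih.2.1, ih.2.2]
    exact ⟨mul_mem (h a) ih.1, rfl, rfl⟩

end CSum

open CSum in
theorem rSum : OfSum := by
  intro hB A Q j ss lam S μ T β K g κ Vs V hA hL hS hV H
  obtain ⟨-, -, -, -, -, -, hE, hM⟩ := hB A Q ss hA
  have e0 : ∀ v : O A, emb (β + (Q : O A) * v) - emb β = Q * emb v := fun v => by
    rw [(hE β _).1, add_sub_cancel_left, (hE _ v).2.1]
    congr 1
    exact Complex.ext (by simp [emb]) (by simp [emb])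
  have hG : ∀ s : Fin j → Multiset Pt, (∀ i, s i ∈ S) → ∀ z ∈ ∑ i, s i, Gd A ss z :=
    fun s hs z hz => by
      obtain ⟨i, -, hi⟩ := Multiset.mem_sum.1 hz
      exact hS _ (hs i) z hi
  let F : (Fin j → Multiset Pt) → ℝ := fun s => (∏ i, μ (s i) * nT (s i)) *
    (ind (Nd (∑ i, s i) ∧ (nT (∑ i, s i)).Coprime Q) * ∑ u ∈ K, ind (cM A Q ss (∑ i, s i) = g u) *
      tent ((κ u * lam (IM A ss (∑ i, s i)) - emb β) / V))
  have e1 : ∑ v ∈ Vs, tent (Q * emb v / V) *
      Rw A ss S (fun x => μ x * nT x) T j (β + (Q : O A) * v) =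
      ∑ s : Fin j → S, F fun i => s i := by
    simp only [Rw, mul_sum]
    rw [sum_comm]
    refine sum_congr rfl fun s _ => ?_
    have h1 := H (∑ i, (s i).1) Vs (fun z => tent ((z - emb β) / V))
      (hG _ fun i => (s i).2) fun v hv => hV v (by rwa [e0] at hv)
    simp only [F]
    rw [← h1, mul_sum]
    refine sum_congr rfl fun v _ => ?_
    rw [e0, ind, mul_left_comm]
  rw [e1, restrict (filter_subset (fun x => (nT x).Coprime Q) S) F fun s i h1 h2 => ?_]
  · simp only [tm]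
    rw [sum_comm]
    refine sum_congr rfl fun s _ => ?_
    have h1 := fun i => mem_filter.1 (s i).2
    obtain ⟨t1, t2, t3⟩ := tup hB hA hL univ (fun i => (s i).1) fun i =>
      ((hM _ (hS _ (h1 i).1)).2.2.1 (h1 i).2).1
    have t4 := hL.nrm _ t1 _ (hM _ (hG _ fun i => (h1 i).1)).1
    have t5 : (nT (∑ i, (s i).1)).Coprime Q := by
      rw [nT_sum]
      exact Nat.Coprime.prod_left fun i _ => (h1 i).2
    rw [t3, nT_sum, Nat.cast_prod] at t4
    simp only [F]
    rw [and_iff_left t5, t2, t3, prod_mul_distrib, ← t4, mul_sum, mul_sum]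
    exact sum_congr rfl fun u _ => by ring
  · have h3 : ¬(Nd (∑ i, s i) ∧ (nT (∑ i, s i)).Coprime Q) := fun h => h2 (mem_filter.2 ⟨h1,
      h.2.coprime_dvd_left (by rw [nT_sum]; exact dvd_prod_of_mem _ (mem_univ i))⟩)
    simp only [F]
    rw [ind, if_neg h3, zero_mul, mul_zero]

end Pool.Agent.MP_f3836a_nt.VE.BC
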