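import Pool.Agent.MP_f3836a_nt.VE.SpecC

/-! The diagonal bound for the sieve weight. -/

set_option autoImplicit false

namespace Pool.Agent.MP_f3836a_nt.VE.BC

open Finset Pool.Agent.MP_c481b3_nt.H28.W Pool.Agent.MP_c481b3_nt.H63

namespace CSwd

theorem sq_sum (P : Finset ℕ) (hP : ∀ r ∈ P, r.Prime) (φ : ℕ → ℕ → ℕ → ℝ) (g : ℕ → ℝ)
    (hφ : ∀ r ∈ P, Per r (φ r) ∧ (∀ x y, |φ r x y| ≤ (r : ℝ) ^ 2) ∧ av r (φ r) = 0 ∧
      av r (fun x y => φ r x y * φ r x y) = g r) (z X Y : ℕ) :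
    ∑ x ∈ range X, ∑ y ∈ range Y, (∑ D ∈ Ds P z, ∏ r ∈ D, φ r x y) ^ 2 ≤
      X * Y * Gs g P z + 2 * (z : ℝ) ^ 8 * (X + Y) := by
  have key : ∀ D ∈ Ds P z, ∀ E ∈ Ds P z,
      ∑ x ∈ range X, ∑ y ∈ range Y, (∏ r ∈ D, φ r x y) * (∏ r ∈ E, φ r x y) ≤
      X * Y * (if D = E then ∏ r ∈ D, g r else 0) + 2 * (z : ℝ) ^ 6 * (X + Y) := by
    intro D hD E hE
    obtain ⟨hD1, hD2⟩ := mem_Ds.1 hD
    obtain ⟨hE1, hE2⟩ := mem_Ds.1 hE
    set u : ℕ → ℕ → ℕ → ℝ := fun r x y => (if r ∈ D then φ r x y else 1) *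
      (if r ∈ E then φ r x y else 1) with hu
    have hTp : ∀ r ∈ D ∪ E, r ∈ P := fun r hr => (mem_union.1 hr).elim (@hD1 r) (@hE1 r)
    have hup : ∀ r ∈ D ∪ E, Per r (u r) := by
      intro r hr x y x' y' hx hy
      simp only [hu, (hφ r (hTp r hr)).1 _ _ _ _ hx hy]
    have he : ∀ x y, ∏ r ∈ D ∪ E, u r x y = (∏ r ∈ D, φ r x y) * (∏ r ∈ E, φ r x y) := by
      intro x y
      simp only [hu, prod_mul_distrib, prod_ite_mem]
      rw [inter_eq_right.2 subset_union_left, inter_eq_right.2 subset_union_right]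
    have hb : ∀ F : Finset ℕ, F ⊆ P → ∏ r ∈ F, r ≤ z → ∀ x y,
        |∏ r ∈ F, φ r x y| ≤ (z : ℝ) ^ 2 := by
      intro F h1 h2 x y
      rw [abs_prod]
      refine (prod_le_prod (fun _ _ => abs_nonneg _) fun r hr => (hφ r (h1 hr)).2.1 x y).trans ?_
      rw [prod_pow, ← Nat.cast_prod]
      exact pow_le_pow_left₀ (by positivity) (by exact_mod_cast h2) 2
    have hbd : ∀ x y, |∏ r ∈ D ∪ E, u r x y| ≤ (z : ℝ) ^ 2 * (z : ℝ) ^ 2 := by
      intro x y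
      rw [he, abs_mul]
      exact mul_le_mul (hb D hD1 hD2 x y) (hb E hE1 hE2 x y) (abs_nonneg _) (by positivity)
    have hM : ∏ r ∈ D ∪ E, r ≤ z * z := by
      refine le_trans ?_ (Nat.mul_le_mul hD2 hE2)
      rw [← prod_union_inter]
      exact Nat.le_mul_of_pos_right _ (prod_pos fun r hr => (hP r (hE1 (mem_inter.1 hr).2)).pos)
    have h1 := (abs_le.1 (box2 (prod_pos fun r hr => (hP r (hTp r hr)).pos)
      (per_prod _ u hup) hbd X Y)).2
    rw [av_prod _ (fun r hr => hP r (hTp r hr)) u hup] at h1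
    simp only [he] at h1
    have h2 : ∏ r ∈ D ∪ E, av r (u r) = if D = E then ∏ r ∈ D, g r else 0 := by
      split_ifs with h
      · subst h
        rw [union_self]
        refine prod_congr rfl fun r hr => ?_
        rw [← (hφ r (hD1 hr)).2.2.2]
        simp only [hu, if_pos hr]
      · have h3 : ∃ r, (r ∈ D ∧ r ∉ E) ∨ (r ∉ D ∧ r ∈ E) := by
          by_contra h4
          refine h (Finset.ext fun r => ?_)
          have := not_exists.1 h4 r
          tauto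
        obtain ⟨r, h4 | h4⟩ := h3
        · refine prod_eq_zero (mem_union_left _ h4.1) ?_
          rw [← (hφ r (hD1 h4.1)).2.2.1]
          simp only [hu, if_pos h4.1, if_neg h4.2, mul_one]
        · refine prod_eq_zero (mem_union_right _ h4.2) ?_
          rw [← (hφ r (hE1 h4.2)).2.2.1]
          simp only [hu, if_pos h4.2, if_neg h4.1, one_mul]
    rw [h2] at h1
    have h3 : 2 * ((∏ r ∈ D ∪ E, r : ℕ) : ℝ) * ((z : ℝ) ^ 2 * (z : ℝ) ^ 2) * (X + Y) ≤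
        2 * (z : ℝ) ^ 6 * (X + Y) := by
      have : ((∏ r ∈ D ∪ E, r : ℕ) : ℝ) ≤ z * z := by exact_mod_cast hM
      calc _ ≤ 2 * ((z : ℝ) * z) * ((z : ℝ) ^ 2 * (z : ℝ) ^ 2) * (X + Y) := by gcongr
        _ = _ := by ring
    linarith
  have h2 : ∑ x ∈ range X, ∑ y ∈ range Y, (∑ D ∈ Ds P z, ∏ r ∈ D, φ r x y) ^ 2 =
      ∑ D ∈ Ds P z, ∑ E ∈ Ds P z, ∑ x ∈ range X, ∑ y ∈ range Y,
        (∏ r ∈ D, φ r x y) * (∏ r ∈ E, φ r x y) := by
    simp only [← sum_product' (range X) (range Y)]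
    rw [sum_comm]
    simp only [sum_comm (t := range X ×ˢ range Y)]
    refine sum_congr rfl fun v _ => ?_
    rw [sq, sum_mul_sum, sum_comm]
  have hc : ((Ds P z).card : ℝ) ≤ z := by exact_mod_cast card_Ds hP z
  refine (h2.le.trans (sum_le_sum fun D hD => sum_le_sum fun E hE => key D hD E hE)).trans ?_
  simp only [sum_add_distrib, ← mul_sum, sum_ite_eq, sum_const, nsmul_eq_mul]
  rw [sum_congr rfl fun D hD => if_pos hD]
  have : ((Ds P z).card : ℝ) * ((Ds P z).card * (2 * (z : ℝ) ^ 6 * (X + Y))) ≤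
      2 * (z : ℝ) ^ 8 * (X + Y) :=
    calc _ ≤ (z : ℝ) * (z * (2 * (z : ℝ) ^ 6 * (X + Y))) := by gcongr
      _ = _ := by ring
  rw [Gs]
  linarith

/-- the affine map modulo `l` -/
def Tm {A : ℕ} (l : ℕ) (b e1 e2 : O A) (p : ZMod l × ZMod l) : ZMod l × ZMod l :=
  (b.re + p.1 * e1.re + p.2 * e2.re, b.im + p.1 * e1.im + p.2 * e2.im)

/-- the norm form modulo `l` -/
def Nm (A l : ℕ) (p : ZMod l × ZMod l) : ZMod l := p.1 ^ 2 + A * p.2 ^ 2

lemma dvd_iff {A : ℕ} (l : ℕ) (b e1 e2 : O A) (x y : ℕ) :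
    (l : ℤ) ∣ (b + (x : O A) * e1 + (y : O A) * e2).norm ↔ Nm A l (Tm l b e1 e2 (x, y)) = 0 := by
  rw [← ZMod.intCast_zmod_eq_zero_iff_dvd, Zsqrtd.norm_def]
  refine iff_of_eq (congrArg (· = 0) ?_)
  simp [Nm, Tm]
  ring

lemma sum_zmod (l : ℕ) [NeZero l] (F : ZMod l → ℝ) : ∑ x ∈ range l, F x = ∑ u, F u :=
  sum_nbij' (fun x => (x : ZMod l)) ZMod.val (fun _ _ => mem_univ _)
    (fun u _ => mem_range.2 (ZMod.val_lt u)) (fun _ hx => ZMod.val_cast_of_lt (mem_range.1 hx))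
    (fun u _ => ZMod.natCast_zmod_val u) fun _ _ => rfl

lemma sum_zmod2 (l : ℕ) [NeZero l] (F : ZMod l × ZMod l → ℝ) :
    ∑ x ∈ range l, ∑ y ∈ range l, F (x, y) = ∑ p, F p := by
  rw [Fintype.sum_prod_type, ← sum_zmod]
  exact sum_congr rfl fun x _ => sum_zmod l fun v => F (x, v)

open Classical in
lemma av_ite {A l : ℕ} (hl : l.Prime) (b e1 e2 : O A) (h : ¬(l : ℤ) ∣ (star e1 * e2).im) (α β : ℝ) :
    av l (fun x y => if (l : ℤ) ∣ (b + (x : O A) * e1 + (y : O A) * e2).norm then α else β) =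
      nuN A l * α + (1 - nuN A l) * β := by
  have : Fact l.Prime := ⟨hl⟩
  have hd : (e1.re : ZMod l) * e2.im - e1.im * e2.re ≠ 0 := by
    intro e
    refine h ((ZMod.intCast_zmod_eq_zero_iff_dvd _ _).1 ?_)
    rw [← e]
    simp
    ring
  have hT : Function.Bijective (Tm l b e1 e2) := by
    refine Finite.injective_iff_bijective.1 fun p q e => ?_
    obtain ⟨a1, a2⟩ := Prod.mk.inj e
    refine Prod.ext (mul_left_cancel₀ hd ?_) (mul_left_cancel₀ hd ?_)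
    · linear_combination (e2.im : ZMod l) * a1 - (e2.re : ZMod l) * a2
    · linear_combination (e1.re : ZMod l) * a2 - (e1.im : ZMod l) * a1
  have h1 := sum_zmod2 l fun p => if Nm A l (Tm l b e1 e2 p) = 0 then α else β
  have h2 := hT.sum_comp fun p => if Nm A l p = 0 then α else β
  have h3 := sum_zmod2 l fun p => if Nm A l p = 0 then α else β
  have h4 : ∀ x y : ℕ, Nm A l (x, y) = 0 ↔ l ∣ x ^ 2 + A * y ^ 2 := by
    intro x y
    rw [← ZMod.natCast_eq_zero_iff]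
    simp [Nm]
  have h5 := card_filter_add_card_filter_not (s := range l ×ˢ range l)
    fun v : ℕ × ℕ => l ∣ v.1 ^ 2 + A * v.2 ^ 2
  have h6 : (l : ℝ) ≠ 0 := by exact_mod_cast hl.ne_zero
  simp only [h4] at h3
  rw [← sum_product' (f := fun x y : ℕ => if l ∣ x ^ 2 + A * y ^ 2 then α else β), sum_ite,
    sum_const, sum_const, nsmul_eq_mul, nsmul_eq_mul] at h3
  rw [card_product, card_range] at h5
  have h7 := congrArg (Nat.cast : ℕ → ℝ) h5
  push_cast at h7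
  unfold av MP_c481b3_nt.H63.sm nuN
  simp only [dvd_iff]
  rw [h1, h2, ← h3, eq_sub_of_add_eq' h7]
  field_simp

lemma prod_ge (n : ℕ) : 1 / ((n : ℝ) + 1) ≤ ∏ k ∈ Ico 2 (n + 2), (1 - 1 / (k : ℝ)) := by
  induction n with
  | zero => simp
  | succ n ih =>
    rw [prod_Ico_succ_top (by omega)]
    refine le_trans (le_of_eq ?_) (mul_le_mul_of_nonneg_right ih ?_)
    · push_cast
      field_simp
      ring
    · rw [sub_nonneg, div_le_one (by positivity)]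
      exact_mod_cast (by omega : 1 ≤ n + 2)

lemma sd_ge (hN : NuS) {A : ℕ} {Y : ℝ} {P : Finset ℕ} (hY : 2 ≤ Y) (hP : P ⊆ Pr A Y) :
    1 / Y ^ 2 ≤ sd A P := by
  obtain ⟨n, hn⟩ : ∃ n, ⌈Y⌉₊ = n + 2 :=
    Nat.exists_eq_add_of_le' (by exact_mod_cast hY.trans (Nat.le_ceil Y))
  have h1 : (n : ℝ) + 1 < Y := by exact_mod_cast Nat.lt_ceil.1 (by omega : n + 1 < ⌈Y⌉₊)
  have h0 : ∀ k : ℕ, 2 ≤ k → 0 ≤ 1 - 1 / (k : ℝ) := fun k hk => by
    rw [sub_nonneg, div_le_one (by positivity)]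
    exact_mod_cast (by omega : 1 ≤ k)
  have h2 : P ⊆ Ico 2 (n + 2) := fun l hl => by
    obtain ⟨a1, a2, -⟩ := mem_filter.1 (hP hl)
    exact mem_Ico.2 ⟨a2.two_le, hn ▸ mem_range.1 a1⟩
  have h3 : 1 / Y ≤ ∏ l ∈ P, (1 - 1 / (l : ℝ)) :=
    ((one_div_le_one_div_of_le (by positivity) h1.le).trans (prod_ge n)).trans
      (prod_le_prod_of_subset_of_le_one h2 (fun k hk => h0 k (mem_Ico.1 hk).1)
        fun k _ _ => sub_le_self _ (by positivity))
  calc 1 / Y ^ 2 = (1 / Y) ^ 2 := by rw [one_div_pow]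
    _ ≤ (∏ l ∈ P, (1 - 1 / (l : ℝ))) ^ 2 := pow_le_pow_left₀ (by positivity) h3 2
    _ = ∏ l ∈ P, (1 - 1 / (l : ℝ)) ^ 2 := (prod_pow _ _ _).symm
    _ ≤ sd A P := prod_le_prod (fun _ _ => sq_nonneg _) fun l hl =>
        (hN A l (mem_filter.1 (hP hl)).2.1).2.2.1

lemma g_le (hN : NuS) (A : ℕ) {l : ℕ} (hl : l.Prime) :
    0 ≤ nuN A l / (1 - nuN A l) ∧ nuN A l / (1 - nuN A l) ≤ 6 / l := by
  obtain ⟨-, h1, h2, h3, -⟩ := hN A l hl
  refine ⟨div_nonneg h1 h3.le, ?_⟩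
  have h4 : (2 : ℝ) ≤ l := by exact_mod_cast hl.two_le
  have h5 : ((l : ℝ) - 1) ^ 2 ≤ (1 - nuN A l) * l ^ 2 := by
    refine le_trans (le_of_eq ?_) (mul_le_mul_of_nonneg_right h2 (sq_nonneg _))
    field_simp
  rw [div_le_div_iff₀ h3 (by linarith)]
  refine le_of_mul_le_mul_right ?_ (show (0 : ℝ) < l ^ 2 by positivity)
  have h6 := mul_le_mul_of_nonneg_left h5 (show (0 : ℝ) ≤ l + 6 by linarith)
  nlinarith [mul_nonneg (show (0 : ℝ) ≤ 4 * l - 3 by linarith) (show (0 : ℝ) ≤ l - 2 by linarith)]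

end CSwd

open CSwd in
theorem rSwd : OfSwd := by
  rintro hN ⟨c, hc, hG⟩
  refine ⟨1 / c + 4, by positivity, fun A Y P hY hP => ?_⟩
  have hp : ∀ l ∈ P, l.Prime := fun l hl => (mem_filter.1 (hP hl)).2.1
  have hz : 1 ≤ ⌊√Y⌋₊ := Nat.le_floor (by simpa using Real.one_le_sqrt.2 (by linarith))
  have hG1 := one_le_Gs (fun l hl => (g_le hN A (hp l hl)).1) hz
  have hG2 := hG Y P (fun l => nuN A l / (1 - nuN A l)) hY fun l hl => ⟨hp l hl,
    Nat.lt_ceil.1 (mem_range.1 (mem_filter.1 (hP hl)).1), g_le hN A (hp l hl)⟩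
  unfold Lw
  set G := Gs (fun l => nuN A l / (1 - nuN A l)) P ⌊√Y⌋₊ with hGd
  refine ⟨fun β hβ => ?_, fun b e1 e2 X1 X2 he h1 h2 => ?_⟩
  · have : ∑ D ∈ Ds P ⌊√Y⌋₊, ∏ l ∈ D, ph l β = G :=
      sum_congr rfl fun D hD => prod_congr rfl fun l hl => if_neg (hβ l ((mem_Ds.1 hD).1 hl))
    rw [this, div_self (by linarith), one_pow]
  have h3 := sq_sum P hp (fun l x y => ph l (b + (x : O A) * e1 + (y : O A) * e2))
    (fun l => nuN A l / (1 - nuN A l)) (fun l hl => by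
      have a0 := (hN A l (hp l hl)).2.2.2.1
      have a1 := g_le hN A (hp l hl)
      have a2 : (2 : ℝ) ≤ l := by exact_mod_cast (hp l hl).two_le
      refine ⟨fun x y x' y' hx hy => ?_, fun x y => ?_, ?_, ?_⟩
      · simp only [ph, dvd_iff, (ZMod.natCast_eq_natCast_iff _ _ _).2 hx,
          (ZMod.natCast_eq_natCast_iff _ _ _).2 hy]
      · unfold ph
        split_ifs
        · rw [abs_neg, abs_one]; nlinarith
        · rw [abs_of_nonneg a1.1]
          refine a1.2.trans ((div_le_iff₀ (by linarith)).2 ?_)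
          nlinarith
      · unfold ph
        rw [av_ite (hp l hl) b e1 e2 (he l hl)]
        field_simp
        ring
      · simp only [ph, ite_mul, mul_ite]
        refine Eq.trans (congrArg (av l) ?_) ((av_ite (hp l hl) b e1 e2 (he l hl) 1
          ((nuN A l / (1 - nuN A l)) ^ 2)).trans ?_)
        · funext x y
          split_ifs <;> ring
        · field_simp
          ring) ⌊√Y⌋₊ X1 X2
  simp only [div_pow, ← sum_div]
  rw [← hGd] at h3
  have hs := sd_ge hN hY hP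
  have hY0 : 0 < Y := by linarith
  have hs0 : 0 < sd A P := lt_of_lt_of_le (by positivity) hs
  have h4 : ∏ l ∈ P, (1 + nuN A l / (1 - nuN A l)) = 1 / sd A P := by
    rw [sd, one_div, ← prod_inv_distrib]
    refine prod_congr rfl fun l hl => ?_
    have a0 := (hN A l (hp l hl)).2.2.2.1
    field_simp
    ring
  rw [h4, mul_one_div, div_le_iff₀ hs0] at hG2
  have h5 : (⌊√Y⌋₊ : ℝ) ^ 8 ≤ Y ^ 4 := by
    calc (⌊√Y⌋₊ : ℝ) ^ 8 ≤ √Y ^ 8 :=
          pow_le_pow_left₀ (Nat.cast_nonneg _) (Nat.floor_le (Real.sqrt_nonneg _)) 8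
      _ = (√Y ^ 2) ^ 4 := by ring
      _ = _ := by rw [Real.sq_sqrt hY0.le]
  have hX1 : (0 : ℝ) ≤ X1 := Nat.cast_nonneg _
  have hX2 : (0 : ℝ) ≤ X2 := Nat.cast_nonneg _
  have h6 : 2 * (⌊√Y⌋₊ : ℝ) ^ 8 * (X1 + X2) ≤ 4 * (X1 * X2) * sd A P * G ^ 2 := by
    have a1 : Y ^ 6 * (X1 + X2) ≤ 2 * (X1 * X2) := by nlinarith
    calc _ ≤ 2 * Y ^ 4 * (X1 + X2) := by gcongr
      _ = 2 * (Y ^ 6 * (X1 + X2)) * (1 / Y ^ 2) * 1 := by field_simp
      _ ≤ 2 * (2 * (X1 * X2)) * sd A P * G ^ 2 := by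
          gcongr
          exact one_le_pow₀ hG1
      _ = _ := by ring
  have h7 : X1 * X2 * G ≤ 1 / c * (X1 * X2) * sd A P * G ^ 2 := by
    calc _ = 1 / c * (X1 * X2) * G * c := by field_simp
      _ ≤ 1 / c * (X1 * X2) * G * (G * sd A P) := by gcongr
      _ = _ := by ring
  rw [div_le_iff₀ (by positivity)]
  linarith

end Pool.Agent.MP_f3836a_nt.VE.BC
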