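import Pool.Agent.MP_f3836a_nt.VE.SpecC

/-! Row CSwo: the off diagonal bound for the sieve weight. -/

set_option autoImplicit false

namespace Pool.Agent.MP_f3836a_nt.VE.BC

open Finset Pool.Agent.MP_c481b3_nt.H28.W Pool.Agent.MP_c481b3_nt.H63

namespace CSwo

variable {A : ℕ}

theorem zero_sum {M : ℕ} (hM : 0 < M) {F : O A → ℂ}
    (hF : ∀ β γ : O A, F (β + (M : O A) * γ) = F β) {c : O A} {w : ℂ}
    (hc : IsCoprime (M : ℤ) c.norm) (hw : w ≠ 1) (h : ∀ β, F (c * β) = w * F β) (b : O A) :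
    ∑ x ∈ range M, ∑ y ∈ range M, F (b + ⟨x, y⟩) = 0 := by
  have hM' : (0 : ℤ) < M := Int.natCast_pos.2 hM
  rw [← sum_product']
  obtain ⟨T, hT⟩ : ∃ T : ℕ × ℕ → ℕ × ℕ, ∀ v, T v ∈ range M ×ˢ range M ∧
      ∃ γ : O A, c * (b + ⟨v.1, v.2⟩) = b + ⟨(T v).1, (T v).2⟩ + (M : O A) * γ := by
    refine ⟨fun v => (((c * (b + ⟨v.1, v.2⟩) - b).re % M).toNat,
      ((c * (b + ⟨v.1, v.2⟩) - b).im % M).toNat), fun v => ?_⟩
    dsimp only
    generalize c * (b + ⟨v.1, v.2⟩) = u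
    have h1 := Int.emod_nonneg (u - b).re hM'.ne'
    have h2 := Int.emod_nonneg (u - b).im hM'.ne'
    have h3 := Int.emod_lt_of_pos (u - b).re hM'
    have h4 := Int.emod_lt_of_pos (u - b).im hM'
    refine ⟨by simp only [mem_product, mem_range]; omega, ⟨(u - b).re / M, (u - b).im / M⟩, ?_⟩
    have h5 := Int.emod_add_mul_ediv (u - b).re M
    have h6 := Int.emod_add_mul_ediv (u - b).im M
    rw [Int.toNat_of_nonneg h1, Int.toNat_of_nonneg h2]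
    generalize (u - b).re % M = r1, (u - b).im % M = r2, (u - b).re / M = s1,
      (u - b).im / M = s2 at h5 h6
    ext <;> simp at h5 h6 ⊢ <;> linarith
  have hi : Set.InjOn T (range M ×ˢ range M : Finset (ℕ × ℕ)) := by
    intro v hv v' hv' e
    obtain ⟨γ, h1⟩ := (hT v).2
    obtain ⟨γ', h2⟩ := (hT v').2
    have h3 : ((M : ℤ) : O A) ∣ (c.norm : O A) * (⟨v.1, v.2⟩ - ⟨v'.1, v'.2⟩) := by
      refine ⟨star c * (γ - γ'), ?_⟩
      rw [Zsqrtd.norm_eq_mul_conj, Int.cast_natCast]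
      rw [e] at h1
      linear_combination star c * (h1 - h2)
    obtain ⟨h4, h5⟩ := (Zsqrtd.intCast_dvd _ _).1 h3
    simp only [Zsqrtd.re_smul, Zsqrtd.im_smul, Zsqrtd.re_sub, Zsqrtd.im_sub] at h4 h5
    simp only [coe_product, coe_range, Set.mem_prod, Set.mem_Iio] at hv hv'
    have h6 := Int.eq_zero_of_abs_lt_dvd (hc.dvd_of_dvd_mul_left h4) (by rw [abs_lt]; omega)
    have h7 := Int.eq_zero_of_abs_lt_dvd (hc.dvd_of_dvd_mul_left h5) (by rw [abs_lt]; omega)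
    exact Prod.ext (by omega) (by omega)
  have he : (range M ×ˢ range M).image T = range M ×ˢ range M :=
    eq_of_subset_of_card_le (image_subset_iff.2 fun v _ => (hT v).1) (card_image_of_injOn hi).ge
  have hs : ∑ v ∈ range M ×ˢ range M, F (b + ⟨v.1, v.2⟩)
      = w * ∑ v ∈ range M ×ˢ range M, F (b + ⟨v.1, v.2⟩) := by
    conv_lhs => rw [← he, sum_image hi]
    rw [mul_sum]
    refine sum_congr rfl fun v _ => ?_
    obtain ⟨γ, h1⟩ := (hT v).2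
    rw [← h, h1, hF]
  exact (mul_eq_zero.1 (show (1 - w) * _ = 0 by linear_combination hs)).resolve_left
    (sub_ne_zero.2 hw.symm)

theorem boxC {M : ℕ} (hM : 0 < M) {F : O A → ℂ}
    (hF : ∀ β γ : O A, F (β + (M : O A) * γ) = F β) {B : ℝ} (hB : ∀ β, ‖F β‖ ≤ B) (b : O A)
    (h0 : ∑ x ∈ range M, ∑ y ∈ range M, F (b + ⟨x, y⟩) = 0) (X1 X2 : ℕ) :
    ‖∑ x ∈ range X1, ∑ y ∈ range X2, F (b + ⟨x, y⟩)‖ ≤ 4 * M * B * (X1 + X2) := by
  have key : ∀ L : ℂ →+ ℝ, (∀ u, |L u| ≤ ‖u‖) →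
      |L (∑ x ∈ range X1, ∑ y ∈ range X2, F (b + ⟨x, y⟩))| ≤ 2 * M * B * (X1 + X2) := by
    intro L hL
    have h1 := box2 hM (f := fun x y => L (F (b + ⟨x, y⟩))) (B := B) (fun x y x' y' hx hy => by
      obtain ⟨s, hs⟩ := Nat.modEq_iff_dvd.1 hx
      obtain ⟨t, ht⟩ := Nat.modEq_iff_dvd.1 hy
      beta_reduce
      rw [← hF (b + ⟨x, y⟩) ⟨s, t⟩]
      congr 2
      ext <;> simp <;> linarith) (fun x y => (hL _).trans (hB _)) X1 X2
    have h2 : av M (fun x y => L (F (b + ⟨x, y⟩))) = 0 := by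
      have h3 := congrArg L h0
      simp only [map_sum, map_zero] at h3
      rw [av, Pool.Agent.MP_c481b3_nt.H63.sm, h3, zero_div]
    rw [h2, mul_zero, sub_zero] at h1
    simpa only [map_sum] using h1
  have h1 := key Complex.reAddGroupHom Complex.abs_re_le_norm
  have h2 := key Complex.imAddGroupHom Complex.abs_im_le_norm
  refine (Complex.norm_le_abs_re_add_abs_im _).trans ?_
  rw [Complex.coe_reAddGroupHom] at h1
  rw [Complex.coe_imAddGroupHom] at h2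
  linarith

theorem ph_per {l M : ℕ} (h : l ∣ M) (β γ : O A) : ph l (β + (M : O A) * γ) = ph l β := by
  have h1 : (l : ℤ) ∣ (β + (M : O A) * γ).norm - β.norm := by
    refine (Int.natCast_dvd_natCast.2 h).trans
      ⟨2 * (β.re * γ.re + A * β.im * γ.im) + M * γ.norm, ?_⟩
    simp [Zsqrtd.norm_def]
    ring
  simp only [ph, (dvd_iff_dvd_of_dvd_sub h1)]

theorem ph_mul {l : ℕ} (hl : l.Prime) {c : O A} (h : ¬(l : ℤ) ∣ c.norm) (β : O A) :
    ph l (c * β) = ph l β := by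
  simp only [ph, Zsqrtd.norm_mul, (Nat.prime_iff_prime_int.1 hl).dvd_mul, h, false_or]

theorem ph_le (hN : NuS) {l : ℕ} (hl : l.Prime) (β : O A) : |ph l β| ≤ (l : ℝ) ^ 2 := by
  obtain ⟨-, h1, h2, h3, -⟩ := hN A l hl
  have h4 : (2 : ℝ) ≤ l := by exact_mod_cast hl.two_le
  have h5 : 1 / (l : ℝ) ≤ 1 / 2 := one_div_le_one_div_of_le two_pos h4
  rw [ph]
  split_ifs
  · rw [abs_neg, abs_one]
    nlinarith
  · rw [abs_of_nonneg (div_nonneg h1 h3.le), div_le_iff₀ h3]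
    have h6 : 1 / 4 ≤ 1 - nuN A l := by nlinarith
    nlinarith

end CSwo

open CSwo

theorem rSwo : OfSwo := by
  intro hN A q Y P ψ b X1 X2 hY hP ⟨hq, hper, hle, c, w, hc1, hc2, hw, hc⟩
  have hp : ∀ l ∈ P, l.Prime := fun l hl => (mem_filter.1 (hP hl)).2.1
  have hz1 : 1 ≤ ⌊√Y⌋₊ := Nat.le_floor (by rw [Nat.cast_one, Real.one_le_sqrt]; linarith)
  have hz2 : (⌊√Y⌋₊ : ℝ) ^ 2 ≤ Y :=
    (pow_le_pow_left₀ (by positivity) (Nat.floor_le (Real.sqrt_nonneg Y)) 2).trans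
      (Real.sq_sqrt (by linarith)).le
  generalize ⌊√Y⌋₊ = z at hz1 hz2
  have hG := one_le_Gs (g := fun l => nuN A l / (1 - nuN A l)) (P := P)
    (fun l hl => div_nonneg (hN A l (hp l hl)).2.1 (hN A l (hp l hl)).2.2.2.1.le) hz1
  have hb : ∀ D ∈ Ds P z, ∀ β : O A, |∏ l ∈ D, ph l β| ≤ (z : ℝ) ^ 2 := by
    intro D hD β
    obtain ⟨h1, h2⟩ := mem_Ds.1 hD
    rw [abs_prod]
    refine (prod_le_prod (fun _ _ => abs_nonneg _) fun r hr => ph_le hN (hp r (h1 hr)) β).trans ?_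
    rw [prod_pow, ← Nat.cast_prod]
    exact pow_le_pow_left₀ (by positivity) (by exact_mod_cast h2) 2
  have hco : ∀ D ∈ Ds P z, IsCoprime ((∏ l ∈ D, l : ℕ) : ℤ) c.norm := fun D hD => by
    rw [Nat.cast_prod]
    exact IsCoprime.prod_left fun l hl =>
      (Nat.prime_iff_prime_int.1 (hp l ((mem_Ds.1 hD).1 hl))).irreducible.coprime_iff_not_dvd.2
        (hc2 l ((mem_Ds.1 hD).1 hl))
  have key : ∀ D ∈ Ds P z, ∀ E ∈ Ds P z, ‖∑ x ∈ range X1, ∑ y ∈ range X2,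
      (((∏ l ∈ D, ph l (b + ⟨x, y⟩)) * ∏ l ∈ E, ph l (b + ⟨x, y⟩) : ℝ) : ℂ) * ψ (b + ⟨x, y⟩)‖
      ≤ 4 * q * (z : ℝ) ^ 6 * (X1 + X2) := by
    intro D hD E hE
    obtain ⟨d1, d2⟩ := mem_Ds.1 hD
    obtain ⟨e1, e2⟩ := mem_Ds.1 hE
    have hM : 0 < q * ((∏ l ∈ D, l) * ∏ l ∈ E, l) := Nat.mul_pos hq (Nat.mul_pos
      (prod_pos fun l hl => (hp l (d1 hl)).pos) (prod_pos fun l hl => (hp l (e1 hl)).pos))
    let F : O A → ℂ := fun β => (((∏ l ∈ D, ph l β) * ∏ l ∈ E, ph l β : ℝ) : ℂ) * ψ β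
    have hF : ∀ β γ : O A, F (β + ((q * ((∏ l ∈ D, l) * ∏ l ∈ E, l) : ℕ) : O A) * γ) = F β := by
      intro β γ
      simp only [F]
      rw [prod_congr rfl fun l hl => ph_per (((dvd_prod_of_mem _ hl).mul_right _).mul_left q) β γ,
        prod_congr rfl fun l hl => ph_per (((dvd_prod_of_mem _ hl).mul_left _).mul_left q) β γ,
        Nat.cast_mul, mul_assoc (q : O A), hper]
    refine (boxC (F := F) hM hF (B := (z : ℝ) ^ 2 * (z : ℝ) ^ 2 * 1) (fun β => ?_) b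
      (zero_sum (F := F) hM hF (c := c) ?_ hw (fun β => ?_) b) X1 X2).trans ?_
    · rw [norm_mul, Complex.norm_real, Real.norm_eq_abs, abs_mul]
      exact mul_le_mul (mul_le_mul (hb D hD β) (hb E hE β) (abs_nonneg _) (by positivity)) (hle β)
        (norm_nonneg _) (by positivity)
    · rw [Nat.cast_mul, Nat.cast_mul]
      refine IsCoprime.mul_left ?_ ((hco D hD).mul_left (hco E hE))
      rw [Int.isCoprime_iff_gcd_eq_one]
      exact Nat.Coprime.symm hc1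
    · simp only [F]
      rw [prod_congr rfl fun l hl => ph_mul (hp l (d1 hl)) (hc2 l (d1 hl)) β,
        prod_congr rfl fun l hl => ph_mul (hp l (e1 hl)) (hc2 l (e1 hl)) β, hc, mul_left_comm]
    · have : ((q * ((∏ l ∈ D, l) * ∏ l ∈ E, l) : ℕ) : ℝ) ≤ q * (z * z) := by
        exact_mod_cast Nat.mul_le_mul_left q (Nat.mul_le_mul d2 e2)
      calc _ ≤ 4 * (q * ((z : ℝ) * z)) * ((z : ℝ) ^ 2 * (z : ℝ) ^ 2 * 1) * (X1 + X2) := by gcongr
        _ = _ := by ring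
  have e : ∑ x ∈ range X1, ∑ y ∈ range X2, (Lw P z (b + ⟨x, y⟩) : ℂ) * ψ (b + ⟨x, y⟩)
      = (∑ D ∈ Ds P z, ∑ E ∈ Ds P z, ∑ x ∈ range X1, ∑ y ∈ range X2,
      (((∏ l ∈ D, ph l (b + ⟨x, y⟩)) * ∏ l ∈ E, ph l (b + ⟨x, y⟩) : ℝ) : ℂ) * ψ (b + ⟨x, y⟩))
        / (Gs (fun l => nuN A l / (1 - nuN A l)) P z ^ 2 : ℝ) := by
    simp only [← sum_product' (range X1) (range X2), sum_comm (t := range X1 ×ˢ range X2)]
    rw [sum_div]
    refine sum_congr rfl fun v _ => ?_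
    rw [Lw, div_pow, sq (∑ D ∈ Ds P z, _), sum_mul_sum, Complex.ofReal_div, div_mul_eq_mul_div]
    simp only [Complex.ofReal_sum, sum_mul]
  have hcd : ((Ds P z).card : ℝ) ≤ z := by exact_mod_cast card_Ds hp z
  rw [e, norm_div, Complex.norm_real, Real.norm_of_nonneg (sq_nonneg _)]
  refine (div_le_self (norm_nonneg _) (one_le_pow₀ hG)).trans ((norm_sum_le_of_le _ fun D hD =>
    norm_sum_le_of_le _ fun E hE => key D hD E hE).trans ?_)
  simp only [sum_const, nsmul_eq_mul]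
  calc _ ≤ (z : ℝ) * (z * (4 * q * (z : ℝ) ^ 6 * (X1 + X2))) := by gcongr
    _ = 4 * q * ((z : ℝ) ^ 2) ^ 4 * (X1 + X2) := by ring
    _ ≤ _ := by gcongr

end Pool.Agent.MP_f3836a_nt.VE.BC
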