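import Pool.Agent.MP_f3836a_nt.VE.BTup
import Pool.Agent.MP_f3836a_nt.VE.BSm
import Pool.Agent.MP_f3836a_nt.VE.BAc
import Pool.Agent.MP_f3836a_nt.VE.BInv
import Pool.Agent.MP_f3836a_nt.VE.BPow
import Pool.Agent.MP_f3836a_nt.VE.BBes
import Pool.Agent.MP_f3836a_nt.VE.BCls
import Pool.Agent.MP_f3836a_nt.VE.BLlt
import Pool.Agent.MP_f3836a_nt.VE.BReg
import Pool.Agent.MP_f3836a_nt.VE.BRs
import Pool.Agent.MP_f3836a_nt.VE.CBas
import Pool.Agent.MP_f3836a_nt.VE.CRed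
import Pool.Agent.MP_f3836a_nt.VE.CCln
import Pool.Agent.MP_f3836a_nt.VE.CPi
import Pool.Agent.MP_f3836a_nt.VE.CPhi
import Pool.Agent.MP_f3836a_nt.VE.CCard
import Pool.Agent.MP_f3836a_nt.VE.CLam
import Pool.Agent.MP_f3836a_nt.VE.CPar
import Pool.Agent.MP_f3836a_nt.VE.CHens
import Pool.Agent.MP_f3836a_nt.VE.CNu
import Pool.Agent.MP_f3836a_nt.VE.CRr
import Pool.Agent.MP_f3836a_nt.VE.CChe
import Pool.Agent.MP_f3836a_nt.VE.CHta
import Pool.Agent.MP_f3836a_nt.VE.CHtb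
import Pool.Agent.MP_f3836a_nt.VE.CHt
import Pool.Agent.MP_f3836a_nt.VE.CHbFam
import Pool.Agent.MP_f3836a_nt.VE.CHbFix
import Pool.Agent.MP_f3836a_nt.VE.CGl
import Pool.Agent.MP_f3836a_nt.VE.CSwd
import Pool.Agent.MP_f3836a_nt.VE.CSwo
import Pool.Agent.MP_f3836a_nt.VE.CCnt
import Pool.Agent.MP_f3836a_nt.VE.CMul
import Pool.Agent.MP_f3836a_nt.VE.CDens
import Pool.Agent.MP_f3836a_nt.VE.CMgz
import Pool.Agent.MP_f3836a_nt.VE.CLsa
import Pool.Agent.MP_f3836a_nt.VE.CLsm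
import Pool.Agent.MP_f3836a_nt.VE.CLsb
import Pool.Agent.MP_f3836a_nt.VE.CLsg
import Pool.Agent.MP_f3836a_nt.VE.CDich
import Pool.Agent.MP_f3836a_nt.VE.CRho
import Pool.Agent.MP_f3836a_nt.VE.CUp
import Pool.Agent.MP_f3836a_nt.VE.CLoc
import Pool.Agent.MP_f3836a_nt.VE.CCell
import Pool.Agent.MP_f3836a_nt.VE.CRia
import Pool.Agent.MP_f3836a_nt.VE.CRib
import Pool.Agent.MP_f3836a_nt.VE.CAn
import Pool.Agent.MP_f3836a_nt.VE.CMg
import Pool.Agent.MP_f3836a_nt.VE.COm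
import Pool.Agent.MP_f3836a_nt.VE.CSum
import Pool.Agent.MP_f3836a_nt.VE.CGd

/-! The exports of part C. -/

namespace Pool.Agent.MP_f3836a_nt.VE.BC

theorem piS : PiS := rPi rBas rRed

theorem cardS : CardS := rCard rBas (rCln rBas rRed) piS rPhi rNu

theorem lamS : LamS := rLam rBas cardS

theorem swdS : SwdS := rSwd rNu (rGl rChe)

theorem besS : BesS := rBes rTup rPow

theorem densS : DensS := rDens rTup rBas cardS rNu (rCnt rBas rRed swdS) rMul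

theorem mgzS : MgzS := rMgz rTup rBas piS cardS lamS densS

theorem cMain : CMain :=
  CG.cMain_of rBas (rPar rBas) (rSum rBas) (rLoc rTup (rUp rTup)) rOm (rMg rTup rSm) piS cardS lamS
    rNu rMul densS mgzS
    (rLsb rBas cardS rNu mgzS (rLsa swdS (rSwo rNu)) (rLsm rTup rPow rBas cardS rMul)) rLsg
    (rDich besS rBas cardS (rHens rBas)) (rRho cardS rNu rChe)
    (rAn rTup rSm (rLlt rTup rSm (rInv rTup) (rCls rTup rPow besS rSm (rAc rTup rSm)))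
      (rCell rTup rSm) (rRia rTup rSm (rUp rTup)) rRib) (rReg rPow besS) rRs

theorem hbFam : HbFam := rHbFam (rCln rBas rRed) rNu rRr rChe rHtb (rHt rHta)

theorem hbFix : HbFix := rHbFix rNu

end Pool.Agent.MP_f3836a_nt.VE.BC
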