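import Pool.Agent.MP_f3836a_nt.VE.SpecC

/-! The shifts. -/

set_option autoImplicit false

namespace Pool.Agent.MP_f3836a_nt.VE.BC

open Finset Pool.Agent.MP_c481b3_nt.H28.W

theorem rOm : OmS := by
  classical
  intro cτ Cτ hC h A Q V hA hQ hV
  have hA1 : (1 : ℝ) ≤ √A := Real.one_le_sqrt.2 (by exact_mod_cast hA)
  have hQ1 : (1 : ℝ) ≤ Q := by exact_mod_cast hQ
  have hQV : (Q : ℝ) ≤ V := (le_mul_of_one_le_right (by linarith) hA1).trans hV
  have hV0 : 0 < V := by linarith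
  have e : ∀ v : O A, (Q * emb v / V : ℂ) =
      ⟨0 + v.re * (Q / V), 0 + v.im * (Q * √A / V)⟩ := fun v => by
    apply Complex.ext
    · simp [emb, Complex.div_ofReal_re]; ring
    · simp [emb, Complex.div_ofReal_im]; ring
  let S : Finset (ℤ × ℤ) := Icc (-⌊V⌋) ⌊V⌋ ×ˢ Icc (-⌊V⌋) ⌊V⌋
  have aux : ∀ (m : ℤ) (d : ℝ), 1 ≤ d → |0 + m * (d / V)| < 1 → m ∈ Icc (-⌊V⌋) ⌊V⌋ := by
    intro m d hd hm
    rw [zero_add, abs_mul, abs_of_pos (by positivity : 0 < d / V), ← mul_div_assoc,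
      div_lt_one hV0] at hm
    rw [mem_Icc, ← abs_le, Int.le_floor, Int.cast_abs]
    exact ((le_mul_of_one_le_right (abs_nonneg _) hd).trans hm.le)
  have hS : ∀ p : ℤ × ℤ, ‖(⟨0 + p.1 * (Q / V), 0 + p.2 * (Q * √A / V)⟩ : ℂ)‖ < 1 → p ∈ S :=
    fun p hp => mem_product.2 ⟨aux _ _ hQ1 ((Complex.abs_re_le_norm _).trans_lt hp),
      aux _ _ (one_le_mul_of_one_le_of_one_le hQ1 hA1) ((Complex.abs_im_le_norm _).trans_lt hp)⟩
  have bd : ∀ m ∈ Icc (-⌊V⌋) ⌊V⌋, |(m : ℝ)| ≤ V := fun m hm => by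
    rwa [mem_Icc, ← abs_le, Int.le_floor, Int.cast_abs] at hm
  refine ⟨S.image fun p => (⟨p.1, p.2⟩ : O A), fun v hv => ?_, fun v hv => ?_, ?_⟩
  · refine mem_image.2 ⟨(v.re, v.im), hS _ ?_, rfl⟩
    rw [← e]
    by_contra hc
    exact hv (max_eq_left (by linarith [not_lt.1 hc]))
  · obtain ⟨p, hp, rfl⟩ := mem_image.1 hv
    exact ⟨bd _ (mem_product.1 hp).1, bd _ (mem_product.1 hp).2⟩
  · rw [sum_image fun p _ q _ hpq => Prod.ext (congrArg Zsqrtd.re hpq) (congrArg Zsqrtd.im hpq)]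
    simp only [e]
    have := h (Q / V) (Q * √A / V) 0 0 S (by positivity) ((div_le_one hV0).2 hQV) (by positivity)
      ((div_le_one hV0).2 hV) hS
    rw [show (Q : ℝ) ^ 2 * √A / V ^ 2 = Q / V * (Q * √A / V) by ring]
    refine this.trans ?_
    have : (Q : ℝ) / V ≤ Q * √A / V := by gcongr; exact le_mul_of_one_le_right (by linarith) hA1
    nlinarith

end Pool.Agent.MP_f3836a_nt.VE.BC
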