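import Pool.Agent.MP_f3836a_nt.VE.DApi
import Pool.Agent.MP_f3836a_nt.VE.DBad
import Pool.Agent.MP_f3836a_nt.VE.DEq
import Pool.Agent.MP_f3836a_nt.VE.DLag
import Pool.Agent.MP_f3836a_nt.VE.DMvC
import Pool.Agent.MP_f3836a_nt.VE.DMvP
import Pool.Agent.MP_f3836a_nt.VE.DPcA
import Pool.Agent.MP_f3836a_nt.VE.DPcB
import Pool.Agent.MP_f3836a_nt.VE.DRat
import Pool.Agent.MP_f3836a_nt.VE.DShift

/-! Part D assembled. -/

set_option autoImplicit false

namespace Pool.Agent.MP_f3836a_nt.VE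

theorem pcA : PcAS := rPcA rShift

theorem eqS : EqS :=
  rEq rApi (rMvP rShift) (rMvC rApi rShift (rLag rApi) (rBad (rPcB rApi rShift pcA)) rRat)

end Pool.Agent.MP_f3836a_nt.VE
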