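import Mathlib

/-! Shared definitions for the torsion of `V(E)`. -/

set_option autoImplicit false

namespace Pool.Agent.MP_f3836a_nt.VE

open Polynomial

/-- a prime and two residues -/
structure Pt where
  p : ℕ
  t : ℕ
  y : ℕ
  deriving DecidableEq

/-- the conjugate point -/
def Pt.cj (z : Pt) : Pt := ⟨z.p, z.t, z.p - z.y⟩

/-- a point of `y² = f` over an odd prime, with `y ≠ 0` -/
def IsPt (f : ℤ[X]) (z : Pt) : Prop :=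
  z.p.Prime ∧ z.p ≠ 2 ∧ z.t < z.p ∧ 0 < z.y ∧ z.y < z.p ∧ (z.p : ℤ) ∣ (z.y : ℤ) ^ 2 - f.eval (z.t : ℤ)

/-- `A + B y` vanishes at the point -/
def Zr (A B : ℤ[X]) (z : Pt) : Prop := (z.p : ℤ) ∣ A.eval (z.t : ℤ) + B.eval (z.t : ℤ) * z.y

/-- the point lies on `b x - a` -/
def On (a b : ℤ) (z : Pt) : Prop := (z.p : ℤ) ∣ b * z.t - a

/-- `A + B y` is monic with pole order `2 m` -/
def Mon (m : ℕ) (A B : ℤ[X]) : Prop := A.Monic ∧ A.natDegree = m ∧ B.natDegree + 2 ≤ m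

/-- the norm of `A + B y` -/
noncomputable def Ng (f A B : ℤ[X]) : ℤ[X] := A ^ 2 - f * B ^ 2

/-- the value of the form of degree `d` attached to `P` -/
def hv (P : ℤ[X]) (d : ℕ) (a b : ℤ) : ℤ :=
  ∑ i ∈ Finset.range (d + 1), P.coeff i * a ^ i * b ^ (d - i)

/-- congruence of polynomials -/
def Cg (q : ℤ) (P P' : ℤ[X]) : Prop := ∀ i, q ∣ P.coeff i - P'.coeff i

/-- the product of the primes -/
def nT (T : Multiset Pt) : ℕ := (T.map Pt.p).prod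

/-- distinct primes -/
def Nd (T : Multiset Pt) : Prop := (T.map Pt.p).Nodup

open Classical in
/-- the complex roots -/
noncomputable def rts (N : ℤ[X]) : Finset ℂ := (N.aroots ℂ).toFinset

/-- the archimedean term -/
noncomputable def ug (N : ℤ[X]) (c : ℂ → ℝ) (t : ℝ) : ℝ :=
  ∑ θ ∈ rts N, c θ * Real.log ‖(t : ℂ) - θ‖

/-- the curve and the base fibre -/
structure Crv (f : ℤ[X]) (t0 : ℤ) (A0 : ℕ) : Prop where
  monic : f.Monic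
  deg : f.natDegree = 3
  sep : (f.map (Int.castRingHom ℚ)).Separable
  neg : ∀ t : ℝ, (t0 : ℝ) ≤ t → t ≤ t0 + 1 → aeval t f < 0
  val : f.eval t0 = -(A0 : ℤ)
  one : 1 < A0

/-- the congruence part of the local data at `p0` -/
structure PAc (t0 : ℤ) (A0 p0 J' m J e e' : ℕ) (As Bs : ℤ[X]) (ϖ : ℤ√(-(A0 : ℤ))) : Prop where
  five : 5 ≤ m
  mon : Mon m As Bs
  nrm : ϖ.norm = (p0 : ℤ) ^ e'
  cong : ∀ A B : ℤ[X], Mon m A B → Cg ((p0 : ℤ) ^ J) A As → Cg ((p0 : ℤ) ^ J) B Bs →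
    ∃ γ : ℤ√(-(A0 : ℤ)), (⟨A.eval t0, B.eval t0⟩ : ℤ√(-(A0 : ℤ))) * ϖ
      = (p0 : ℤ√(-(A0 : ℤ))) ^ e * (1 + (p0 : ℤ√(-(A0 : ℤ))) ^ J' * γ)

/-- the identities on events -/
structure Ids (f : ℤ[X]) (t0 : ℤ) (p0 m J e e' : ℕ) (As Bs : ℤ[X]) (ψ : ℤ → ℤ → Pt → ℝ)
    (ψ0 : Pt → ℝ) (φ : ℤ[X] → ℤ[X] → Pt → ℝ) (c : ℤ[X] → ℤ[X] → ℂ → ℝ) (c0 : ℝ) : Prop where
  anti : ∀ a k z, IsPt f z → ψ a k z.cj = -ψ a k z
  anti0 : ∀ z, IsPt f z → ψ0 z.cj = -ψ0 z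
  sum : ∀ A B, Mon m A B → ∑ θ ∈ rts (Ng f A B), c A B θ = 0
  idh : ∀ (A B : ℤ[X]) (a k : ℤ) (T : Multiset Pt), Mon m A B → 0 < k → IsCoprime a k →
    t0 * k ^ 2 ≤ a → a ≤ (t0 + 1) * k ^ 2 → Nd T →
    (∀ z ∈ T, IsPt f z ∧ On a (k ^ 2) z ∧ Zr A B z ∧ ¬(z.p : ℤ) ∣ k) →
    (nT T : ℤ) = hv (Ng f A B) (2 * m) a (k ^ 2) →
    (T.map (ψ a k)).sum = (T.map (φ A B)).sum + ug (Ng f A B) (c A B) ((a : ℝ) / (k : ℝ) ^ 2)
  id0 : ∀ (A B : ℤ[X]) (T : Multiset Pt), Mon m A B → Cg ((p0 : ℤ) ^ J) A As →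
    Cg ((p0 : ℤ) ^ J) B Bs → Nd T → (∀ z ∈ T, IsPt f z ∧ On t0 1 z ∧ Zr A B z ∧ z.p ≠ p0) →
    (nT T : ℤ) * (p0 : ℤ) ^ (2 * e) = (Ng f A B).eval t0 * (p0 : ℤ) ^ e' →
    c0 + (T.map ψ0).sum = (T.map (φ A B)).sum + ug (Ng f A B) (c A B) t0

/-- the analytic core -/
def Core : Prop := ∀ (f : ℤ[X]) (t0 : ℤ) (A0 p0 : ℕ), Crv f t0 A0 → p0.Prime → ∃ J' : ℕ,
  ∀ (m J e e' : ℕ) (As Bs : ℤ[X]) (ϖ : ℤ√(-(A0 : ℤ))), PAc t0 A0 p0 J' m J e e' As Bs ϖ →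
  ∀ ψ ψ0 φ c c0, Ids f t0 p0 m J e e' As Bs ψ ψ0 φ c c0 → c0 = 0

/-! ### one field -/

/-- `β` lies in the prime of the point -/
def In (A : ℕ) (ss : Pt → ℤ) (β : ℤ√(-(A : ℤ))) (z : Pt) : Prop := (z.p : ℤ) ∣ β.re - ss z * β.im

/-- `β` generates the product of the primes of `M` -/
def EvF (A : ℕ) (ss : Pt → ℤ) (β : ℤ√(-(A : ℤ))) (M : Multiset Pt) : Prop :=
  Nd M ∧ (∀ z ∈ M, In A ss β z) ∧ (nT M : ℤ) = β.norm

open Classical in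
/-- weighted number of decompositions into `T` and `j` steps -/
noncomputable def Rw (A : ℕ) (ss : Pt → ℤ) (St : Finset (Multiset Pt)) (w : Multiset Pt → ℝ)
    (T : Multiset Pt) (j : ℕ) (β : ℤ√(-(A : ℤ))) : ℝ :=
  ∑ s : Fin j → St, (∏ i, w (s i)) * if EvF A ss β (T + ∑ i, (s i).1) then 1 else 0

/-- density of the zeros of the norm form -/
noncomputable def nuN (A l : ℕ) : ℝ :=
  (((Finset.range l ×ˢ Finset.range l).filter fun v : ℕ × ℕ =>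
    l ∣ v.1 ^ 2 + A * v.2 ^ 2).card : ℝ) / (l : ℝ) ^ 2

/-- the unit correction -/
noncomputable def rat (A W Q : ℕ) : ℝ :=
  ∏ l ∈ Q.primeFactors.filter fun l => ¬l ∣ W, (1 - nuN A l)⁻¹

/-- sum of reciprocals of the primes of `r` which do not divide `W` -/
noncomputable def sig (W : ℕ) (r : ℤ) : ℝ :=
  ∑ l ∈ r.natAbs.primeFactors.filter fun l => ¬l ∣ W, (1 : ℝ) / l

/-- equidistribution in one field: averages over short shifts -/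
def SFE (A : ℕ) (ss : Pt → ℤ) (W : ℕ) (St : Finset (Multiset Pt)) (w : Multiset Pt → ℝ) (ρ : ℝ)
    (LL : Finset ℕ) (ad : Multiset Pt → ℕ → Prop) (fm : Multiset Pt → ℕ → ℝ)
    (X Λ0 Qm V ε K : ℝ) : Prop :=
  ∀ Q : ℕ, W ∣ Q → 0 < Q → (Q : ℝ) ≤ Qm →
    ∃ (Vs : Finset (ℤ√(-(A : ℤ)))) (ω : ℤ√(-(A : ℤ)) → ℝ), (∀ v, 0 ≤ ω v) ∧ ∑ v ∈ Vs, ω v = 1 ∧
    (∀ v ∈ Vs, |(v.re : ℝ)| ≤ V ∧ |(v.im : ℝ)| ≤ V) ∧
    ∀ (T : Multiset Pt) (j : ℕ) (β : ℤ√(-(A : ℤ))) (n' : ℕ), ad T j → nT T ^ 2 ∣ Q →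
      (W : ℤ√(-(A : ℤ))) ∣ β - 1 → (∀ z ∈ T, In A ss β z) → β.norm = (nT T * n' : ℕ) →
      n'.Coprime Q → |Real.log β.norm - X| ≤ Λ0 →
      ∑ v ∈ Vs, ω v * Rw A ss St w T j (β + Q * v) ≤ K * (ρ * fm T j * rat A W Q) ∧
      ((∀ l ∈ LL, ¬l ∣ Q) → |∑ v ∈ Vs, ω v * Rw A ss St w T j (β + Q * v)
        - ρ * fm T j * rat A W Q| ≤ ε * (ρ * fm T j * rat A W Q))

open Classical in
/-- the law of the sum of `j` smoothed positions -/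
noncomputable def cv {ι : Type} (St : Finset ι) (μ : ι → ℝ) (u : ι → ℕ) (J j : ℕ) (v : ℤ) : ℝ :=
  ∑ s : Fin j → St × Fin J,
    (∏ i, μ (s i).1 / J) * if ((∑ i, (u (s i).1 + (s i).2) : ℕ) : ℤ) = v then 1 else 0

/-- the ideal model: `U` times the law of a sum of `j` uniform variables -/
noncomputable def Fu (U j : ℕ) (v : ℤ) : ℝ := U * cv (Finset.range U) (fun _ => 1 / U) id 1 j v

end Pool.Agent.MP_f3836a_nt.VE
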