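import Pool.Agent.MP_f3836a_nt.VE.SpecD

/-! Part E: the concrete family. -/

set_option autoImplicit false

namespace Pool.Agent.MP_f3836a_nt.VE

open Polynomial Finset

/-- numerators of the small curves `k² x - a` -/
noncomputable def HH0 (t0 : ℤ) (W k : ℕ) : Finset ℤ :=
  (Ico (t0 * (k : ℤ) ^ 2) ((t0 + 1) * (k : ℤ) ^ 2)).filter fun a => (W : ℤ) ∣ a - 1

/-- minus the discriminant of the order of a small curve -/
noncomputable def AA (f : ℤ[X]) (k : ℕ) (a : ℤ) : ℕ := (-hv f 3 a ((k : ℤ) ^ 2)).toNat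

/-- a small curve -/
noncomputable def cuH (f : ℤ[X]) (k : ℕ) (a : ℤ) : Cu := ⟨a, k, AA f k a, 1, 0, 0⟩

/-- the base curve -/
def cu0 (t0 : ℤ) (A0 : ℕ) (ϖ : ℤ√(-(A0 : ℤ))) (e e' : ℕ) : Cu := ⟨t0, 1, A0, ϖ, e, e'⟩

open Classical in
/-- points over the primes of a window -/
noncomputable def Pts (f : ℤ[X]) (lo hi : ℝ) : Finset Pt :=
  ((range ⌈hi⌉₊ ×ˢ range ⌈hi⌉₊ ×ˢ range ⌈hi⌉₊).image fun v => (⟨v.1, v.2.1, v.2.2⟩ : Pt)).filter
    fun z => IsPt f z ∧ lo ≤ z.p ∧ (z.p : ℝ) < hi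

open Classical in
theorem mem_Pts {f : ℤ[X]} {lo hi : ℝ} {z : Pt} :
    z ∈ Pts f lo hi ↔ IsPt f z ∧ lo ≤ z.p ∧ (z.p : ℝ) < hi := by
  unfold Pts
  rw [mem_filter]
  refine ⟨fun h => h.2, fun h => ⟨?_, h⟩⟩
  have h1 : z.p < ⌈hi⌉₊ := Nat.lt_ceil.2 h.2.2
  obtain ⟨-, -, h2, -, h3, -⟩ := h.1
  exact mem_image.2 ⟨(z.p, z.t, z.y), by simp only [mem_product, mem_range]; omega, rfl⟩

open Classical in
/-- points of a window on the curve `b x - a` -/
noncomputable def PtsOn (f : ℤ[X]) (lo hi : ℝ) (a b : ℤ) : Finset Pt :=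
  (Pts f lo hi).filter (On a b)

/-- the logarithmic weight of a point -/
noncomputable def lg (z : Pt) : ℝ := Real.log z.p

/-- total logarithmic mass of a set of points -/
noncomputable def Zm (S : Finset Pt) : ℝ := ∑ z ∈ S, lg z / z.p

/-- position in a window: `⌊(log n - L) / η⌋` -/
noncomputable def pos (L η : ℝ) (n : ℕ) : ℕ := ⌊(Real.log n - L) / η⌋₊

open Classical in
/-- sets of `N` points of `S` with distinct primes -/
noncomputable def Blk (S : Finset Pt) (N : ℕ) : Finset (Multiset Pt) :=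
  ((S.powersetCard N).image Finset.val).filter Nd

/-- weight of a block, without the factor `1 / n_T` -/
noncomputable def bw (Z : ℝ) (T : Multiset Pt) : ℝ := (T.map fun z => lg z / Z).prod

open Classical in
/-- the link of a set of points -/
noncomputable def lk (S : Finset ℤ) (b : ℤ) (T : Multiset Pt) : Finset ℤ :=
  S.filter fun a => ∀ z ∈ T, On a b z

/-- the cell of a small curve -/
noncomputable def cellOf (t0 : ℤ) (k Jc : ℕ) (a : ℤ) : ℕ :=
  ⌊(Jc : ℝ) * ((a : ℝ) / (k : ℝ) ^ 2 - t0)⌋₊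

end Pool.Agent.MP_f3836a_nt.VE
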