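import Pool.Agent.MP_f3836a_nt.PK.DefsT

set_option autoImplicit false

namespace Pool.Agent.MP_f3836a_nt.PT

/-- The homogeneous prime ideal of `ℤ[x_0, ..., x_N]` that is the point `q` of projective space. -/
noncomputable def prm {N : ℕ} (q : PN N) : Ideal (MvPolynomial (Fin (N + 1)) ℤ) :=
  letI := MvPolynomial.gradedAlgebra (σ := Fin (N + 1)) (R := ℤ)
  (ProjectiveSpectrum.asHomogeneousIdeal
    (𝒜 := MvPolynomial.homogeneousSubmodule (Fin (N + 1)) ℤ) q).toIdeal

end Pool.Agent.MP_f3836a_nt.PT
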