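import Pool.Agent.MP_f3836a_nt.VE.SpecZ1

/-! Part Z: the points of a regular projective model inside its function field. -/

set_option autoImplicit false

namespace Pool.Agent.MP_f3836a_nt.VE.Z

open IsLocalRing PK VE.A VE.T VE.W

/-- the points of a regular proper model with their local rings and residue fields -/
structure GeoY {K ι : Type} [Field K] (ξ : ι → K) {Pt : Type} [Preorder Pt] (O : Pt → Subring K)
    {κ : Pt → Type} [∀ z, Field (κ z)] (r : ∀ z, O z →+* κ z) : Prop where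
  ex : ∃ i, ξ i ≠ 0
  inj : Function.Injective O
  tri : ∀ z, Order.height z = 0 ∨ Order.height z = 1 ∨ O z = ⊤
  cl : ∀ z, Order.height z = 0 → Rg (O z)
  dv : ∀ C, Order.height C = 1 → DV (O C) (r C)
  cen : ∀ S : Subring K, IsLocalRing S → Cht ξ S → ∃ z, Dom (O z) S
  val : ∀ V : Subring K, Dvr V → Cht ξ V
  mono : ∀ (z z' : Pt) (S S' : Subring K), Dom (O z) S → Dom (O z') S' → S ≤ S' → O z ≤ O z'
  cur : ∀ z S, Order.height z = 0 → (H1 (O z) S ↔ ∃ C, Order.height C = 1 ∧ O C = S ∧ O z ≤ S)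
  min : ∀ z z', Order.height z' = 0 → O z ≤ O z' → z = z'
  alg : ∀ z, Alg (O z) → Order.height z = 0
  fin : ∀ f : K, {C | Order.height C = 1 ∧ ordR (O C) f ≠ 0}.Finite

/-- the theorem on the level of rings -/
def MainY : Prop := ∀ (W : WeierstrassCurve ℤ) (K ι : Type) [Field K] [CharZero K] [Fintype ι]
  (x y : K) (ξ : ι → K) (Pt : Type) [Preorder Pt] (O : Pt → Subring K) (κ : Pt → Type)
  [∀ z, Field (κ z)] (r : ∀ z, O z →+* κ z), W.Δ ≠ 0 → Gn W x y → GeoY ξ O r →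
  ∀ φ : ∀ C, κ C, (∀ C, φ C ≠ 0) → {C | φ C ≠ 1}.Finite → (∀ C, φ C ≠ 1 → Order.height C = 1) →
    (∀ z, Order.height z = 0 → ∑ᶠ C, od (O C) (r C) (O z) (φ C) = 0) →
    ∃ n : ℕ, 0 < n ∧ ∃ l : List (K × K), NZ l ∧ ∀ C, Order.height C = 1 →
      φ C ^ n = (l.map fun s => tameR (O C) (r C) s.1 s.2).prod

end Pool.Agent.MP_f3836a_nt.VE.Z
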