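import Pool.Agent.MP_f3836a_nt.VE.SpecE0
import Pool.Agent.MP_f3836a_nt.VE.DApi

/-! Row ECu: points and small curves. -/

set_option autoImplicit false

namespace Pool.Agent.MP_f3836a_nt.VE

open Polynomial Finset

namespace ECu

theorem hv_monic {P : ℤ[X]} {d : ℕ} (h : P.Monic) (hd : P.natDegree = d) (a b : ℤ) :
    b ∣ hv P d a b - a ^ d := by
  rw [hv, sum_range_succ, ← hd, h.coeff_natDegree, Nat.sub_self, pow_zero, one_mul, mul_one,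
    add_sub_cancel_right]
  refine dvd_sum fun i hi => Dvd.dvd.mul_left (dvd_pow_self b ?_) _
  have := mem_range.1 hi
  omega

theorem mem_HH {t0 : ℤ} {W k : ℕ} {a : ℤ} (hk : 0 < k) (h : a ∈ HH0 t0 W k) :
    (t0 : ℝ) ≤ (a : ℝ) / (k : ℝ) ^ 2 ∧ (a : ℝ) / (k : ℝ) ^ 2 ≤ t0 + 1 ∧ (W : ℤ) ∣ a - 1 := by
  obtain ⟨h1, h2⟩ := mem_filter.1 h
  obtain ⟨h3, h4⟩ := mem_Ico.1 h1
  have hk' : (0 : ℝ) < (k : ℝ) ^ 2 := by positivity
  refine ⟨(le_div_iff₀ hk').2 (by exact_mod_cast h3), (div_le_iff₀ hk').2 ?_, h2⟩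
  exact_mod_cast h4.le

theorem hv_real {f : ℤ[X]} (hf : f.natDegree = 3) {k : ℕ} (hk : 0 < k) (a : ℤ) :
    ((hv f 3 a ((k : ℤ) ^ 2) : ℤ) : ℝ) = (k : ℝ) ^ 6 * aeval ((a : ℝ) / (k : ℝ) ^ 2) f := by
  have hk' : (k : ℝ) ≠ 0 := by positivity
  rw [DApi.hv_cast f 3 a _ ((a : ℝ) / (k : ℝ) ^ 2) hf.le (by push_cast; field_simp)]
  push_cast
  ring

theorem hv_neg {f : ℤ[X]} {t0 : ℤ} {A0 W k : ℕ} {a : ℤ} (hc : Crv f t0 A0) (hk : 0 < k)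
    (h : a ∈ HH0 t0 W k) : hv f 3 a ((k : ℤ) ^ 2) < 0 := by
  obtain ⟨h1, h2, -⟩ := mem_HH hk h
  have h3 : ((hv f 3 a ((k : ℤ) ^ 2) : ℤ) : ℝ) < 0 := by
    rw [hv_real hc.deg hk]
    exact mul_neg_of_pos_of_neg (by positivity) (hc.neg _ h1 h2)
  exact_mod_cast h3

theorem eq_of_dvd {p s t : ℕ} (hs : s < p) (ht : t < p) (h : (p : ℤ) ∣ (s : ℤ) - t) : s = t := by
  have := Int.eq_zero_of_abs_lt_dvd h (by rw [abs_lt]; omega)
  omega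

end ECu

open ECu

theorem rPt : PtS := by
  rintro f ⟨p, t, y⟩ ⟨h1, h2, h3, h4, h5, h6⟩
  dsimp only at h1 h2 h3 h4 h5 h6
  have e : ((p - y : ℕ) : ℤ) = p - y := Nat.cast_sub h5.le
  refine ⟨⟨h1, h2, h3, Nat.sub_pos_of_lt h5, Nat.sub_lt h1.pos h4, ?_⟩, ?_, ?_, fun _ _ => Iff.rfl,
    fun k => ?_, ?_⟩
  · simp only [Pt.cj, e]
    have : ((p : ℤ) - y) ^ 2 - f.eval (t : ℤ) = (y ^ 2 - f.eval (t : ℤ)) + p * (p - 2 * y) := by
      ring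
    rw [this]
    exact dvd_add h6 (dvd_mul_right _ _)
  · simp only [Pt.cj, Nat.sub_sub_self h5.le]
  · intro h
    have h7 : p - y = y := congrArg Pt.y h
    exact h2 ((Nat.prime_dvd_prime_iff_eq Nat.prime_two h1).1 ⟨y, by omega⟩).symm
  · simp only [Pt.cj, e]
    exact ⟨-k ^ 3, by ring⟩
  · rintro a b ⟨p', t', y'⟩ ⟨-, -, g3, g4, g5, g6⟩ hp hb o1 o2
    dsimp only at hp
    subst hp
    dsimp only [On] at g3 g4 g5 g6 hb o1 o2
    have hP : Prime (p' : ℤ) := Nat.prime_iff_prime_int.1 h1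
    have e1 : t' = t := by
      have : (p' : ℤ) ∣ b * ((t' : ℤ) - t) := by
        have := dvd_sub o2 o1
        rwa [show b * (t' : ℤ) - a - (b * t - a) = b * (t' - t) by ring] at this
      exact eq_of_dvd g3 h3 ((hP.dvd_or_dvd this).resolve_left hb)
    subst e1
    have h7 : (p' : ℤ) ∣ ((y' : ℤ) - y) * (y' - (p' - y : ℕ)) := by
      have := dvd_sub (dvd_sub g6 h6) (dvd_mul_right (p' : ℤ) ((y' : ℤ) - y))
      rwa [e, show ((y' : ℤ) - y) * (y' - (p' - y)) = (y' ^ 2 - f.eval (t' : ℤ)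
        - (y ^ 2 - f.eval (t' : ℤ))) - p' * ((y' : ℤ) - y) by ring]
    rcases hP.dvd_or_dvd h7 with k | k
    · exact Or.inl (by rw [eq_of_dvd g5 h5 k])
    · exact Or.inr (by rw [eq_of_dvd g5 (Nat.sub_lt h1.pos h4) k]; rfl)

theorem rCuH : CuHS := by
  intro Γ t0 A0 k a hc hΓ hW hk hl ha
  have hn := hv_neg hc hk ha
  obtain ⟨-, -, h1⟩ := mem_HH hk ha
  have hWk : (Γ.W : ℤ) ∣ (k : ℤ) := Int.natCast_dvd_natCast.2 hW
  have key : ∀ (P : ℤ[X]) (d : ℕ), P.Monic → P.natDegree = d →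
      (Γ.W : ℤ) ∣ hv P d a ((k : ℤ) ^ 2) - 1 := fun P d p1 p2 => by
    have := dvd_add ((hWk.trans (dvd_pow_self _ two_ne_zero)).trans (hv_monic p1 p2 a _))
      (h1.trans (sub_one_dvd_pow_sub_one a d))
    rwa [sub_add_sub_cancel] at this
  have hd : ((AA Γ.f k a : ℕ) : ℤ) = -hv Γ.f 3 a ((k : ℤ) ^ 2) := Int.toNat_of_nonneg (by omega)
  have hu : (cuH Γ.f k a).ϖ = 1 := rfl
  have he : (cuH Γ.f k a).e = 0 := rfl
  have hg : ∀ x, (cuH Γ.f k a).gam Γ x = (cuH Γ.f k a).bet Γ x := fun x => by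
    rw [Cu.gam, hu, he, mul_one, pow_zero, Int.ediv_one, Int.ediv_one]
  refine ⟨hd, ?_, Int.natCast_pos.2 hk, ?_, fun l p1 p2 => hl l p1 (Int.natCast_dvd_natCast.1 p2),
    by simp [cuH], fun x => by rw [hg, hu, he, mul_one, pow_zero, one_mul], fun x => ?_⟩
  · have h3 := (Int.natCast_dvd_natCast.2 hΓ.two.2).trans (key Γ.f 3 hΓ.monic hΓ.deg)
    show 1 < AA Γ.f k a
    omega
  · show IsCoprime a (k : ℤ)
    rw [Int.isCoprime_iff_gcd_eq_one]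
    refine Nat.coprime_of_dvd fun l p1 p2 p3 => p1.one_lt.ne' ?_
    have h3 : (l : ℤ) ∣ a := Int.natCast_dvd.2 p2
    have h4 := dvd_sub h3 ((Int.natCast_dvd_natCast.2 (hl l p1 p3)).trans h1)
    rw [sub_sub_cancel] at h4
    exact_mod_cast Int.eq_one_of_dvd_one (by positivity) h4
  · obtain ⟨m1, m2, -⟩ := DApi.mon Γ hΓ x
    have h5 := (Zsqrtd.intCast_dvd (Γ.W : ℤ) ((cuH Γ.f k a).bet Γ x - 1)).2 ⟨key _ _ m1 m2, by
      rw [Zsqrtd.im_sub, Zsqrtd.im_one, sub_zero]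
      exact hWk.mul_right _⟩
    rwa [Int.cast_natCast, ← hg] at h5

theorem rHt : HtS := by
  intro f t0 A0 hc
  have hne : (Set.Icc (t0 : ℝ) (t0 + 1)).Nonempty := Set.nonempty_Icc.2 (by linarith)
  have hco : ContinuousOn (fun t : ℝ => aeval t f) (Set.Icc (t0 : ℝ) (t0 + 1)) :=
    f.continuous_aeval.continuousOn
  obtain ⟨u, hu, h1⟩ := isCompact_Icc.exists_isMinOn hne hco
  obtain ⟨v, hv', h2⟩ := isCompact_Icc.exists_isMaxOn hne hco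
  have p1 : 0 < -aeval u f := neg_pos.2 (hc.neg u hu.1 hu.2)
  have p2 : 0 < -aeval v f := neg_pos.2 (hc.neg v hv'.1 hv'.2)
  have p3 : 0 < (-aeval v f)⁻¹ := inv_pos.2 p2
  have p4 : 0 ≤ |(t0 : ℝ)| := abs_nonneg _
  refine ⟨|(t0 : ℝ)| + 1 + -aeval u f + (-aeval v f)⁻¹, by linarith, fun W k a hk ha => ?_⟩
  obtain ⟨a1, a2, -⟩ := mem_HH hk ha
  have hn := hv_neg hc hk ha
  have hd : ((AA f k a : ℕ) : ℤ) = -hv f 3 a ((k : ℤ) ^ 2) := Int.toNat_of_nonneg (by omega)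
  have e : (AA f k a : ℝ) = -aeval ((a : ℝ) / (k : ℝ) ^ 2) f * (k : ℝ) ^ 6 := by
    rw [← Int.cast_natCast, hd, Int.cast_neg, hv_real hc.deg hk]
    ring
  have k2 : (0 : ℝ) < (k : ℝ) ^ 2 := by positivity
  have k6 : (0 : ℝ) < (k : ℝ) ^ 6 := by positivity
  have b1 : aeval u f ≤ aeval ((a : ℝ) / (k : ℝ) ^ 2) f := h1 ⟨a1, a2⟩
  have b2 : aeval ((a : ℝ) / (k : ℝ) ^ 2) f ≤ aeval v f := h2 ⟨a1, a2⟩
  refine ⟨?_, ?_, ?_⟩
  · rw [← div_le_iff₀ k2, ← abs_of_pos k2, ← abs_div, abs_le]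
    constructor <;> linarith [le_abs_self (t0 : ℝ), neg_abs_le (t0 : ℝ)]
  · rw [e]
    exact mul_le_mul_of_nonneg_right (by linarith) k6.le
  · rw [e, ← mul_assoc]
    refine le_mul_of_one_le_left k6.le ?_
    exact (inv_mul_cancel₀ p2.ne').ge.trans
      (mul_le_mul (by linarith) (by linarith) p2.le (by linarith))

end Pool.Agent.MP_f3836a_nt.VE
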