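import Pool.Agent.MP_f3836a_nt.VE.SpecE1

/-! Most small curves are equidistributed in the coarse cells. -/

set_option autoImplicit false

namespace Pool.Agent.MP_f3836a_nt.VE

open Polynomial Finset

namespace EGood

theorem eqd {f : ℤ[X]} {k U K' : ℕ} {Y δ : ℝ} {a : ℤ} (hY : 1 < Y) (hK : 0 < K')
    (hc : ∀ z ∈ Pts f Y (Y ^ 2), cz Y U K' z < K')
    (h : ∑ d ∈ range K', |∑ z ∈ (PtsOn f Y (Y ^ 2) a ((k : ℤ) ^ 2)).filter fun z =>
      cz Y U K' z = d, n0 Y z - 1 / K'| ≤ δ) : Eqd f k Y U K' δ a := by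
  classical
  have l0 := Real.log_pos hY
  have h1 : |∑ z ∈ PtsOn f Y (Y ^ 2) a ((k : ℤ) ^ 2), n0 Y z - 1| ≤ δ := by
    refine le_trans (le_of_eq ?_) ((abs_sum_le_sum_abs _ _).trans h)
    have m : ∀ z ∈ PtsOn f Y (Y ^ 2) a ((k : ℤ) ^ 2), cz Y U K' z ∈ range K' := fun z hz =>
      mem_range.2 (hc z (mem_filter.1 hz).1)
    rw [sum_sub_distrib, sum_fiberwise_of_maps_to m,
      sum_const, card_range, nsmul_eq_mul, mul_one_div_cancel (Nat.cast_ne_zero.2 hK.ne')]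
  refine ⟨h1, ?_, h⟩
  have e : Zm (PtsOn f Y (Y ^ 2) a ((k : ℤ) ^ 2)) =
      (∑ z ∈ PtsOn f Y (Y ^ 2) a ((k : ℤ) ^ 2), n0 Y z) * Real.log Y := by
    rw [Zm, sum_mul]
    refine sum_congr rfl fun z _ => ?_
    rw [n0, ← div_div, div_mul_cancel₀ _ l0.ne']
  rw [e, ← sub_one_mul, abs_mul, abs_of_pos l0]
  exact mul_le_mul_of_nonneg_right h1 l0.le

theorem dev_eq (f : ℤ[X]) (U K' d : ℕ) {Y : ℝ} (hY : 0 < Y) (a b : ℤ) :
    ∑ z ∈ Pts f Y (Y ^ 2), (if cz Y U K' z = d then sg Y z else 0) * Xz b z a =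
      ∑ z ∈ (PtsOn f Y (Y ^ 2) a b).filter fun z => cz Y U K' z = d, n0 Y z -
        ∑ z ∈ (Pts f Y (Y ^ 2)).filter fun z => cz Y U K' z = d, sg Y z := by
  rw [PtsOn, sum_filter, sum_filter, sum_filter, ← sum_sub_distrib]
  refine sum_congr rfl fun z hz => ?_
  have p0 : (z.p : ℝ) ≠ 0 := (hY.trans_le (mem_Pts.1 hz).2.1).ne'
  have e : sg Y z * z.p = n0 Y z := div_mul_cancel₀ _ p0
  unfold Xz ind
  split_ifs <;> simp [mul_sub, e]

end EGood

open EGood in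
theorem rGood : OfGood := by
  intro sc lsv mass f t0 A0 crv K' δ hK hδ
  classical
  obtain ⟨Y1, hM⟩ := mass f t0 A0 crv K' (δ / 2) hK (half_pos hδ)
  refine ⟨max Y1 (max 10 (160 * K' ^ 3 / δ ^ 3)), fun W k Y U hY s hU => ?_⟩
  rw [max_le_iff, max_le_iff] at hY
  obtain ⟨y1, y2, y3⟩ := hY
  obtain ⟨m1, m2, m3⟩ := hM Y U y1 hU
  obtain ⟨-, -, l1, -, -, -, -, -, w, -⟩ := sc W k Y s
  have Y0 : 0 < Y := by linarith
  have K0 : (0 : ℝ) < K' := Nat.cast_pos.2 hK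
  have L0 : 0 ≤ Lc W k := (pow_nonneg Y0.le _).trans l1
  obtain ⟨dev, hd⟩ : ∃ dev : ℕ → ℤ → ℝ, ∀ d a, dev d a =
      ∑ z ∈ (PtsOn f Y (Y ^ 2) a ((k : ℤ) ^ 2)).filter fun z => cz Y U K' z = d, n0 Y z -
        ∑ z ∈ (Pts f Y (Y ^ 2)).filter fun z => cz Y U K' z = d, sg Y z := ⟨_, fun _ _ => rfl⟩
  have v : ∀ d, ∑ a ∈ HH0 t0 W k, dev d a ^ 2 ≤ 20 * Lc W k / Y * 2 := fun d => by
    have b : ∀ z ∈ Pts f Y (Y ^ 2), |if cz Y U K' z = d then sg Y z else 0| ≤ sg Y z := fun z hz => by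
      have := (w f z hz).2.2.2.1
      split_ifs
      · exact (abs_of_pos this).le
      · simpa using this.le
    have := (lsv f t0 W k Y s y2).2 _ b
    simp only [dev_eq f U K' d Y0, ← hd] at this
    exact this.trans (mul_le_mul_of_nonneg_left ((sum_le_sum b).trans m2) (by positivity))
  have bad : ∀ a, ¬Eqd f k Y U K' δ a → (δ / (2 * K')) ^ 2 ≤ ∑ d ∈ range K', dev d a ^ 2 :=
    fun a ha => by
      by_contra hn
      refine ha (eqd (by linarith) hK (fun z hz => (m1 z hz).2) ?_)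
      have t : ∀ d ∈ range K', |dev d a| ≤ δ / (2 * K') := fun d hd' =>
        abs_le_of_sq_le_sq' ((single_le_sum (f := fun d => dev d a ^ 2) (fun _ _ => sq_nonneg _)
          hd').trans (not_le.1 hn).le) (by positivity) |> abs_le.2
      refine (sum_le_sum fun d hd' => (abs_sub_le _ _ _).trans
        (add_le_add_left (hd d a ▸ t d hd') _)).trans ?_
      rw [sum_add_distrib, sum_const, card_range, nsmul_eq_mul]
      have : (K' : ℝ) * (δ / (2 * K')) = δ / 2 := by field_simp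
      linarith
  have c1 : (((HH0 t0 W k).filter fun a => ¬Eqd f k Y U K' δ a).card : ℝ) * (δ / (2 * K')) ^ 2 ≤
      K' * (20 * Lc W k / Y * 2) := by
    rw [← nsmul_eq_mul]
    refine (card_nsmul_le_sum _ _ _ fun a ha => bad a (mem_filter.1 ha).2).trans
      ((sum_le_sum_of_subset_of_nonneg (filter_subset _ _) fun a _ _ =>
        sum_nonneg fun _ _ => sq_nonneg _).trans ?_)
    rw [sum_comm]
    refine (sum_le_sum fun d _ => v d).trans ?_
    rw [sum_const, card_range, nsmul_eq_mul]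
  refine le_of_mul_le_mul_right (c1.trans ?_) (show 0 < (δ / (2 * K')) ^ 2 by positivity)
  rw [div_le_iff₀ (by positivity)] at y3
  have e1 : (K' : ℝ) * (20 * Lc W k / Y * 2) = Lc W k / (4 * K' ^ 2 * Y) * (160 * K' ^ 3) := by
    field_simp
    ring
  have e2 : δ * Lc W k * (δ / (2 * K')) ^ 2 = Lc W k / (4 * K' ^ 2 * Y) * (Y * δ ^ 3) := by
    field_simp
    ring
  rw [e1, e2]
  exact mul_le_mul_of_nonneg_left y3 (by positivity)

end Pool.Agent.MP_f3836a_nt.VE
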