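import Pool.Agent.MP_f3836a_nt.VE.SpecE1

/-! Points over one prime. -/

set_option autoImplicit false

namespace Pool.Agent.MP_f3836a_nt.VE

open Polynomial Finset

namespace EPc

theorem two {f : ℤ[X]} {T : Finset Pt} (h : ∀ z ∈ T, IsPt f z)
    (h' : ∀ z ∈ T, ∀ z' ∈ T, z.p = z'.p ∧ z.t = z'.t) : T.card ≤ 2 := by
  rcases T.eq_empty_or_nonempty with rfl | ⟨⟨p, t, y⟩, hz⟩
  · simp
  refine (card_le_card fun ⟨p', t', y'⟩ hz' => ?_).trans (card_le_two (a := ⟨p, t, y⟩)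
    (b := ⟨p, t, p - y⟩))
  obtain ⟨rfl, rfl⟩ : p = p' ∧ t = t' := h' _ hz _ hz'
  obtain ⟨a1, -, -, a2, a3, a4⟩ := h _ hz
  obtain ⟨-, -, -, b2, b3, b4⟩ := h _ hz'
  dsimp only at a1 a2 a3 a4 b2 b3 b4
  have h1 : (p : ℤ) ∣ (y' - y) * (y' + y - p) :=
    ((b4.sub a4).sub (dvd_mul_right (p : ℤ) (y' - y))).trans (dvd_of_eq (by ring))
  simp only [mem_insert, mem_singleton, Pt.mk.injEq, true_and]
  exact ((Nat.prime_iff_prime_int.1 a1).dvd_or_dvd h1).imp
    (fun e => by have := Int.eq_zero_of_abs_lt_dvd e (abs_lt.2 ⟨by omega, by omega⟩); omega)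
    fun e => by have := Int.eq_zero_of_abs_lt_dvd e (abs_lt.2 ⟨by omega, by omega⟩); omega

end EPc

open EPc in
theorem rPc : PcS := fun f S hS => by
  have h2 : ∀ p t : ℕ, (S.filter fun z => z.p = p ∧ z.t = t).card ≤ 2 := fun p t =>
    two (fun z hz => hS z (mem_filter.1 hz).1) fun z hz z' hz' =>
      ⟨(mem_filter.1 hz).2.1.trans (mem_filter.1 hz').2.1.symm,
        (mem_filter.1 hz).2.2.trans (mem_filter.1 hz').2.2.symm⟩
  refine ⟨fun p => ?_, h2, fun a b hO => ?_⟩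
  · simpa using card_le_mul_card_image_of_maps_to (f := Pt.t) (s := S.filter fun z => z.p = p)
      (t := range p) (fun z hz => mem_range.2 ((mem_filter.1 hz).2 ▸ (hS z (mem_filter.1 hz).1).2.2.1))
      2 fun t _ => by simpa only [filter_filter] using h2 p t
  have h3 : ∀ p : ℕ, (S.filter fun z => z.p = p).card ≤ 2 := fun p =>
    two (fun z hz => hS z (mem_filter.1 hz).1) fun z hz z' hz' => by
      obtain ⟨a1, a2⟩ := mem_filter.1 hz
      obtain ⟨b1, b2⟩ := mem_filter.1 hz'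
      have e := a2.trans b2.symm
      have h1 : (z.p : ℤ) ∣ b * (z.t - z'.t) := (Dvd.dvd.sub (hO z a1).1
        (e ▸ (hO z' b1).1 : (z.p : ℤ) ∣ b * z'.t - a)).trans (dvd_of_eq (by ring))
      have h4 := (hS z a1).2.2.1
      have h5 := (hS z' b1).2.2.1
      have := Int.eq_zero_of_abs_lt_dvd (((Nat.prime_iff_prime_int.1 (hS z a1).1).dvd_or_dvd
        h1).resolve_left (hO z a1).2) (abs_lt.2 ⟨by omega, by omega⟩)
      exact ⟨e, by omega⟩
  have h4 : ∀ (g : ℕ → ℝ) (P : Finset ℕ), (∀ p, 0 ≤ g p) → (∀ z ∈ S, z.p ∈ P) →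
      ∑ z ∈ S, g z.p ≤ 2 * ∑ p ∈ P, g p := fun g P hg hP => by
    rw [← sum_fiberwise_of_maps_to hP, mul_sum]
    refine sum_le_sum fun p _ => ?_
    rw [sum_congr rfl fun z hz => congrArg g (mem_filter.1 hz).2, sum_const, nsmul_eq_mul]
    exact mul_le_mul_of_nonneg_right (by exact_mod_cast h3 p) (hg p)
  refine ⟨h3, fun q hq h => ?_, h4, fun r hr h => ?_⟩
  · have h5 := Nat.ceil_pos.2 hq
    have h6 := h4 (fun p => ((p : ℝ) ^ 2)⁻¹) (Ioo (⌈q⌉₊ - 1) (S.sup Pt.p + 1)) (fun _ => by positivity)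
      fun z hz => mem_Ioo.2 ⟨by have := Nat.ceil_le.2 (h z hz); omega, Nat.lt_succ_of_le (le_sup hz)⟩
    have h7 := sum_Ioo_inv_sq_le (α := ℝ) (⌈q⌉₊ - 1) (S.sup Pt.p + 1)
    rw [Nat.cast_pred h5, sub_add_cancel] at h7
    have h8 : 2 / (⌈q⌉₊ : ℝ) ≤ 2 / q := div_le_div_of_nonneg_left zero_le_two hq (Nat.le_ceil q)
    simp only [one_div]
    linarith [show 4 / q = 2 * (2 / q) by ring]
  · have r0 := Int.natAbs_ne_zero.2 hr
    refine (h4 (fun p => Real.log p) r.natAbs.primeFactors Real.log_natCast_nonneg fun z hz =>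
      Nat.mem_primeFactors.2 ⟨(hS z hz).1, Int.natCast_dvd.1 (h z hz), r0⟩).trans ?_
    have h5 : ∀ p ∈ r.natAbs.primeFactors, (0 : ℝ) < p := fun p hp => by
      exact_mod_cast (Nat.prime_of_mem_primeFactors hp).pos
    rw [← Real.log_prod fun p hp => (h5 p hp).ne', ← Int.cast_abs, ← Nat.cast_natAbs]
    gcongr
    · exact prod_pos h5
    · exact (Nat.cast_prod _ _).ge.trans
        (Nat.cast_le.2 (Nat.le_of_dvd (Nat.pos_of_ne_zero r0) (Nat.prod_primeFactors_dvd _)))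

end Pool.Agent.MP_f3836a_nt.VE
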