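import Pool.Agent.MP_f3836a_nt.VE.SpecE1

/-! Part E: blocks of the second window on the small curves. -/

set_option autoImplicit false

namespace Pool.Agent.MP_f3836a_nt.VE

open Polynomial Finset

namespace ERich

open Classical in
theorem mem_on {f : ℤ[X]} {lo hi : ℝ} {a b : ℤ} {z : Pt} :
    z ∈ PtsOn f lo hi a b ↔ (IsPt f z ∧ lo ≤ z.p ∧ (z.p : ℝ) < hi) ∧ On a b z := by
  unfold PtsOn
  rw [mem_filter, mem_Pts]

theorem cardR {α : Type} (s : Finset α) (p : α → Prop) [DecidablePred p] :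
    ((s.filter p).card : ℝ) = ∑ x ∈ s, ind (p x) := by
  rw [card_filter]
  push_cast
  refine sum_congr rfl fun x _ => ?_
  unfold ind
  by_cases h : p x <;> simp [h]

theorem nT_le (T : Multiset Pt) (x : ℝ) (hx : 0 ≤ x) (h : ∀ z ∈ T, (z.p : ℝ) ≤ x) :
    (nT T : ℝ) ≤ x ^ T.card := by
  unfold nT
  induction T using Multiset.induction_on with
  | empty => simp
  | cons z T ih =>
    simp only [Multiset.map_cons, Multiset.prod_cons, Multiset.card_cons, Nat.cast_mul, pow_succ']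
    exact mul_le_mul (h z (Multiset.mem_cons_self _ _))
      (ih fun w hw => h w (Multiset.mem_cons_of_mem hw)) (Nat.cast_nonneg _) hx

theorem not_dvd_one {f : ℤ[X]} {z : Pt} (h : IsPt f z) : ¬(z.p : ℤ) ∣ 1 := by
  intro hd
  exact h.1.one_lt.ne' (Nat.dvd_one.1 (Int.natCast_dvd_natCast.1 (by simpa using hd)))

theorem lg_nonneg (z : Pt) : 0 ≤ lg z := Real.log_natCast_nonneg _

end ERich

open ERich

open Classical in
theorem rAm : OfAm := by
  intro hSc hPc hBlk f t0 W k A' N Y Y0 hi Z sc hY0 hA hZ a ha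
  obtain ⟨hY, -, -, -, hk2, -, -, hH, -⟩ := hSc W k Y sc
  obtain ⟨ha1, ha2⟩ := hH t0 a ha
  have hl0 : 0 < Real.log Y0 := Real.log_pos hY0
  have key : ∀ S' : Finset Pt, (∀ z, z ∈ S' ↔ z ∈ PtsOn f Y0 hi t0 1 ∧ On a ((k : ℤ) ^ 2) z) →
      (S'.card : ℝ) ≤ 40 * A' ∧ ∀ B : Finset (Multiset Pt),
        (∀ T, T ∈ B ↔ T ∈ Blk (PtsOn f Y0 hi t0 1) N ∧ ∀ z ∈ T, On a ((k : ℤ) ^ 2) z) →
        (B.card : ℝ) ≤ (40 * A') ^ N ∧ ∑ T ∈ B, bw Z T ≤ (40 * A') ^ N := by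
    intro S' hS'
    have hm : ∀ z ∈ S', (IsPt f z ∧ Y0 ≤ z.p) ∧ On t0 1 z ∧ On a ((k : ℤ) ^ 2) z := by
      intro z hz
      obtain ⟨h1, h2⟩ := (hS' z).1 hz
      obtain ⟨h3, h4⟩ := mem_on.1 h1
      exact ⟨⟨h3.1, h3.2.1⟩, h4, h2⟩
    have hr : t0 * (k : ℤ) ^ 2 - a ≠ 0 := by omega
    have hsum := ((hPc f S' fun z hz => (hm z hz).1.1).2.2 t0 1
      fun z hz => ⟨(hm z hz).2.1, not_dvd_one (hm z hz).1.1⟩).2.2.2 _ hr (by
        intro z hz
        obtain ⟨-, h1, h2⟩ := hm z hz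
        unfold On at h1 h2
        have e : t0 * (k : ℤ) ^ 2 - a
            = ((k : ℤ) ^ 2 * z.t - a) - (k : ℤ) ^ 2 * (1 * z.t - t0) := by ring
        rw [e]
        exact dvd_sub h2 (h1.mul_left _))
    have hlog : Real.log |((t0 * (k : ℤ) ^ 2 - a : ℤ) : ℝ)| ≤ 20 * (A' * Real.log Y0) := by
      have h1 : |t0 * (k : ℤ) ^ 2 - a| ≤ (k : ℤ) ^ 2 := by
        rw [abs_le]
        constructor <;> nlinarith
      have h2 : |((t0 * (k : ℤ) ^ 2 - a : ℤ) : ℝ)| ≤ Y ^ 20 := by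
        rw [← hk2]
        exact_mod_cast h1
      have h3 : 0 < |((t0 * (k : ℤ) ^ 2 - a : ℤ) : ℝ)| := abs_pos.2 (by exact_mod_cast hr)
      refine (Real.log_le_log h3 h2).trans (le_of_eq ?_)
      rw [Real.log_pow, ← hA, Real.log_pow]
      norm_num
    have hs : ∑ z ∈ S', lg z ≤ 40 * A' * Real.log Y0 := by linarith
    have hc : (S'.card : ℝ) ≤ 40 * A' := by
      refine le_of_mul_le_mul_right (le_trans ?_ hs) hl0
      rw [← nsmul_eq_mul]
      refine card_nsmul_le_sum _ _ _ fun z hz => ?_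
      exact Real.log_le_log (by linarith) (hm z hz).1.2
    refine ⟨hc, fun B hB => ?_⟩
    have e : B = Blk S' N := by
      ext T
      rw [hB, (hBlk _ N).1, (hBlk S' N).1]
      constructor
      · rintro ⟨⟨h1, h2, h3⟩, h4⟩
        exact ⟨h1, h2, fun z hz => (hS' z).2 ⟨h3 z hz, h4 z hz⟩⟩
      · rintro ⟨h1, h2, h3⟩
        exact ⟨⟨h1, h2, fun z hz => ((hS' z).1 (h3 z hz)).1⟩, fun z hz => ((hS' z).1 (h3 z hz)).2⟩
    rw [e]
    constructor
    · have h1 := ((hBlk S' N).2 (fun _ => 1) 1 zero_le_one fun _ _ => ⟨zero_le_one, le_rfl⟩).1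
      have h2 : ∀ T, pw (fun _ => (1 : ℝ)) T = 1 := fun T => by simp [pw]
      simp only [h2, sum_const, nsmul_eq_mul, mul_one] at h1
      exact h1.trans (pow_le_pow_left₀ (Nat.cast_nonneg _) hc N)
    · have hZ0 : 0 < Z := hl0.trans_le hZ
      have hg : ∀ z ∈ S', 0 ≤ lg z / Z := fun z _ => div_nonneg (lg_nonneg z) hZ0.le
      have h1 := ((hBlk S' N).2 (fun z => lg z / Z) (∑ z ∈ S', lg z / Z) (sum_nonneg hg)
        fun z hz => ⟨hg z hz, single_le_sum hg hz⟩).1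
      refine le_trans h1 (pow_le_pow_left₀ (sum_nonneg hg) ?_ N)
      rw [← sum_div, div_le_iff₀ hZ0]
      exact hs.trans (mul_le_mul_of_nonneg_left hZ (by positivity))
  obtain ⟨h1, h2⟩ := key _ fun z => mem_filter
  exact ⟨h1, h2 _ fun T => mem_filter⟩

theorem rRich : OfRich := by
  intro hSc hLk hPc hBlk hAm f t0 W k A' E1 N Y Y0 sc hY0 hA hW hE hN hS
  obtain ⟨hY, -, hL, -⟩ := hSc W k Y sc
  have hL0 : 0 ≤ Lc W k := le_trans (by positivity) hL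
  have hY0' : 0 < Y0 := by linarith
  have hA0 : 0 < A' := by
    rcases Nat.eq_zero_or_pos A' with h | h
    · rw [h, pow_zero] at hA
      linarith
    · exact h
  have hM : (0 : ℝ) < (40 * A') ^ N := by positivity
  have hF : (0 : ℝ) < N.factorial := by exact_mod_cast N.factorial_pos
  generalize hSd : PtsOn f Y0 (Y0 ^ E1) t0 1 = S at hS ⊢
  have hm : ∀ z ∈ S, (IsPt f z ∧ Y0 ≤ z.p ∧ (z.p : ℝ) < Y0 ^ E1) ∧ On t0 1 z :=
    fun z hz => mem_on.1 (hSd ▸ hz)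
  have h2 := ((hPc f S fun z hz => (hm z hz).1.1).2.2 t0 1
    fun z hz => ⟨(hm z hz).2, not_dvd_one (hm z hz).1.1⟩).1
  have hg0 : 2 * (N : ℝ) * (1 / Y0) ≤ 1 := by
    rw [mul_one_div, div_le_one hY0']
    exact hN
  have hlow := (((hBlk S N).2 (fun z => 1 / (z.p : ℝ)) (1 / Y0) (by positivity) fun z hz =>
    ⟨by positivity, one_div_le_one_div_of_le hY0' (hm z hz).1.2.1⟩).2 h2).1 (by linarith)
  simp only [pw_PT] at hlow
  have hPT : 1 / (N.factorial : ℝ) ≤ ∑ T ∈ Blk S N, PT T :=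
    le_trans (div_le_div_of_nonneg_right (one_le_pow₀ (by linarith)) hF.le) hlow
  have hlk : ∀ T ∈ Blk S N, Lc W k * PT T / 2
      ≤ ∑ a ∈ HH0 t0 W k, ind (∀ z ∈ T, On a ((k : ℤ) ^ 2) z) := by
    intro T hT
    obtain ⟨h1, h3, h4⟩ := ((hBlk S N).1 T).1 hT
    have hn : (nT T : ℝ) ≤ Y ^ 16 := by
      refine (nT_le T (Y0 ^ E1) (by positivity) fun z hz => (hm z (h4 z hz)).1.2.2.le).trans ?_
      rw [h3, ← pow_mul]
      refine (pow_le_pow_right₀ hY0.le hE).trans ?_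
      rw [hA]
      exact le_self_pow₀ (by linarith) (by norm_num)
    have := (hLk t0 ((k : ℤ) ^ 2) W k Y T sc h1 (fun z hz => ⟨(hm z (h4 z hz)).1.1.1, fun hd => by
      have h5 : z.p ≤ W := Nat.le_of_dvd (lt_of_lt_of_le (by norm_num) sc.two) hd
      have h6 : (z.p : ℝ) ≤ W := by exact_mod_cast h5
      linarith [(hm z (h4 z hz)).1.2.1]⟩) hn).1
    unfold lk at this
    rwa [cardR] at this
  have hup : ∀ a ∈ HH0 t0 W k, ∑ T ∈ Blk S N, ind (∀ z ∈ T, On a ((k : ℤ) ^ 2) z)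
      ≤ (40 * A') ^ N * ind (∃ T ∈ Blk S N, ∀ z ∈ T, On a ((k : ℤ) ^ 2) z) := by
    intro a ha
    by_cases h : ∃ T ∈ Blk S N, ∀ z ∈ T, On a ((k : ℤ) ^ 2) z
    · have h1 := (hAm f t0 W k A' N Y Y0 (Y0 ^ E1) (Real.log Y0) sc hY0 hA le_rfl a ha).2.1
      rw [cardR, hSd] at h1
      have e : ind (∃ T ∈ Blk S N, ∀ z ∈ T, On a ((k : ℤ) ^ 2) z) = 1 := if_pos h
      rw [e, mul_one]
      exact h1
    · have e : ind (∃ T ∈ Blk S N, ∀ z ∈ T, On a ((k : ℤ) ^ 2) z) = 0 := if_neg h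
      rw [e, mul_zero]
      refine le_of_eq (sum_eq_zero fun T hT => ?_)
      exact if_neg fun h' => h ⟨T, hT, h'⟩
  have h3 := sum_le_sum hlk
  rw [sum_comm, ← sum_div, ← mul_sum] at h3
  have h4 := h3.trans (sum_le_sum hup)
  rw [← mul_sum] at h4
  rw [cardR, div_le_iff₀ (by positivity)]
  have h5 : Lc W k * (1 / (N.factorial : ℝ)) / 2 ≤ Lc W k * (∑ T ∈ Blk S N, PT T) / 2 := by
    gcongr
  have h6 := mul_le_mul_of_nonneg_left (h5.trans h4) (by positivity : (0 : ℝ) ≤ 2 * N.factorial)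
  have e : 2 * (N.factorial : ℝ) * (Lc W k * (1 / (N.factorial : ℝ)) / 2) = Lc W k := by
    field_simp
  rw [e] at h6
  refine h6.trans (le_of_eq ?_)
  ring

end Pool.Agent.MP_f3836a_nt.VE
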