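import Pool.Agent.MP_f3836a_nt.VE.SpecE1
import Pool.Agent.MP_c5bf7b_nt.H98.MRoot

set_option autoImplicit false

namespace Pool.Agent.MP_f3836a_nt.VE

open Polynomial Finset

namespace ES2

theorem irr (A0 : ℕ) (hA : 0 < A0) :
    Irreducible ((X ^ 2 + C (A0 : ℤ) : ℤ[X]).map (Int.castRingHom ℚ)) := by
  have e : (X ^ 2 + C (A0 : ℤ) : ℤ[X]).map (Int.castRingHom ℚ) = X ^ 2 + C (A0 : ℚ) := by
    simp
  rw [e]
  refine Polynomial.irreducible_of_degree_le_three_of_not_isRoot ?_ ?_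
  · rw [natDegree_X_pow_add_C]; simp
  · intro x hx
    have h1 : x ^ 2 + (A0 : ℚ) = 0 := by simpa using hx
    have h2 : (0 : ℚ) < A0 := by exact_mod_cast hA
    nlinarith [sq_nonneg x]

/-- a root of `y² + A0` gives a point on the base curve -/
theorem pt_mem (f : ℤ[X]) (t0 : ℤ) (A0 : ℕ) (hc : Crv f t0 A0) (lo hi : ℝ) (p y : ℕ)
    (hp : p.Prime) (hA : A0 < p) (h1 : lo ≤ p) (h2 : (p : ℝ) < hi) (hy : y < p)
    (hd : (p : ℤ) ∣ (X ^ 2 + C (A0 : ℤ) : ℤ[X]).eval (y : ℤ)) :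
    (⟨p, (t0 % p).toNat, y⟩ : Pt) ∈ PtsOn f lo hi t0 1 := by
  classical
  have hA1 := hc.one
  have hp0 : (0 : ℤ) < p := by exact_mod_cast hp.pos
  have ht : (((t0 % p).toNat : ℕ) : ℤ) = t0 % p := Int.toNat_of_nonneg (Int.emod_nonneg _ hp0.ne')
  have htd : (p : ℤ) ∣ t0 % p - t0 := by
    rw [Int.emod_def]
    exact ⟨-(t0 / p), by ring⟩
  have hd' : (p : ℤ) ∣ (y : ℤ) ^ 2 + A0 := by simpa using hd
  unfold PtsOn
  rw [mem_filter, mem_Pts]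
  refine ⟨⟨⟨hp, ?_, ?_, ?_, hy, ?_⟩, h1, h2⟩, ?_⟩
  · show p ≠ 2
    omega
  · show (t0 % p).toNat < p
    have := Int.emod_lt_of_pos t0 hp0
    omega
  · show 0 < y
    rcases Nat.eq_zero_or_pos y with h0 | h0
    · subst h0
      have h3 : (p : ℤ) ∣ (A0 : ℤ) := by simpa using hd'
      have h4 := Nat.le_of_dvd (by omega) (Int.natCast_dvd_natCast.1 h3)
      omega
    · exact h0
  · show (p : ℤ) ∣ (y : ℤ) ^ 2 - f.eval (((t0 % p).toNat : ℕ) : ℤ)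
    rw [ht]
    have h3 := htd.trans (Polynomial.sub_dvd_eval_sub (t0 % p) t0 f)
    rw [hc.val] at h3
    have e : (y : ℤ) ^ 2 - f.eval (t0 % p) = ((y : ℤ) ^ 2 + A0) - (f.eval (t0 % p) - -(A0 : ℤ)) := by
      ring
    rw [e]
    exact dvd_sub hd' h3
  · show (p : ℤ) ∣ 1 * (((t0 % p).toNat : ℕ) : ℤ) - t0
    rw [ht, one_mul]
    exact htd

/-- the roots inject into the points -/
theorem low (f : ℤ[X]) (t0 : ℤ) (A0 : ℕ) (hc : Crv f t0 A0) (lo hi : ℝ) (P : Finset ℕ)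
    (hP : ∀ p ∈ P, p.Prime ∧ A0 < p ∧ lo ≤ p ∧ (p : ℝ) < hi) :
    ∑ p ∈ P, (Pool.Agent.MP_c5bf7b_nt.H98.nroots (X ^ 2 + C (A0 : ℤ)) p : ℝ) / p
      ≤ ∑ z ∈ PtsOn f lo hi t0 1, 1 / (z.p : ℝ) := by
  classical
  set R : ℕ → Finset ℕ := fun p =>
    (range p).filter fun x : ℕ => (p : ℤ) ∣ (X ^ 2 + C (A0 : ℤ) : ℤ[X]).eval (x : ℤ) with hR
  have h1 : ∑ p ∈ P, (Pool.Agent.MP_c5bf7b_nt.H98.nroots (X ^ 2 + C (A0 : ℤ)) p : ℝ) / p
      = ∑ x ∈ P.sigma R, 1 / (x.1 : ℝ) := by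
    rw [Finset.sum_sigma]
    refine Finset.sum_congr rfl fun p _ => ?_
    simp only [Finset.sum_const, nsmul_eq_mul]
    unfold Pool.Agent.MP_c5bf7b_nt.H98.nroots
    ring
  set F : (Σ _ : ℕ, ℕ) → Pt := fun x => ⟨x.1, (t0 % x.1).toNat, x.2⟩ with hF
  have hinj : Set.InjOn F (P.sigma R : Finset (Σ _ : ℕ, ℕ)) := by
    rintro ⟨p, y⟩ _ ⟨p', y'⟩ _ h
    simp only [hF, Pt.mk.injEq] at h
    obtain ⟨h1, -, h2⟩ := h
    subst h1
    subst h2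
    rfl
  have h2 : ∑ x ∈ P.sigma R, 1 / (x.1 : ℝ) = ∑ z ∈ (P.sigma R).image F, 1 / (z.p : ℝ) := by
    rw [Finset.sum_image hinj]
  rw [h1, h2]
  refine Finset.sum_le_sum_of_subset_of_nonneg ?_ fun z _ _ => by positivity
  intro z hz
  obtain ⟨⟨p, y⟩, hx, rfl⟩ := Finset.mem_image.1 hz
  rw [Finset.mem_sigma] at hx
  obtain ⟨hp, hy⟩ := hx
  obtain ⟨a1, a2, a3, a4⟩ := hP p hp
  simp only [hR, Finset.mem_filter, Finset.mem_range] at hy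
  exact pt_mem f t0 A0 hc lo hi p y a1 a2 a3 a4 hy.1 hy.2

end ES2

theorem rS2 : OfS2 := by
  intro hPc hM f t0 A0 hc
  classical
  obtain ⟨C0, hC0⟩ := Pool.Agent.MP_c5bf7b_nt.H98.mertRoot _
    (ES2.irr A0 (by have := hc.one; omega))
  obtain ⟨K, hK0, hK⟩ := hM
  refine ⟨⌈Real.exp (C0 + 2)⌉₊ + 2, by omega, fun E1 hE => ?_⟩
  refine ⟨max (Real.exp K) ((A0 : ℝ) + 2), fun Y0 hY => ?_⟩
  have hY1 : Real.exp K ≤ Y0 := (le_max_left _ _).trans hY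
  have hY2 : (A0 : ℝ) + 2 ≤ Y0 := (le_max_right _ _).trans hY
  have hA0 : (0 : ℝ) ≤ A0 := Nat.cast_nonneg _
  have hY3 : 2 ≤ Y0 := by linarith
  have hY4 : 1 < Y0 := by linarith
  have hL : 0 < Real.log Y0 := Real.log_pos hY4
  have hKL : K ≤ Real.log Y0 := (Real.le_log_iff_exp_le (by linarith)).2 hY1
  obtain ⟨E, rfl⟩ : ∃ E, E1 = E + 1 := ⟨E1 - 1, by omega⟩
  have hE1 : 1 ≤ E := by omega
  have hE2 : Real.exp (C0 + 2) ≤ E := by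
    have h1 : ⌈Real.exp (C0 + 2)⌉₊ ≤ E := by omega
    exact Nat.ceil_le.1 h1
  have hEpos : (0 : ℝ) < E := by exact_mod_cast hE1
  set S := PtsOn f Y0 (Y0 ^ (E + 1)) t0 1 with hS
  have hmem : ∀ z ∈ S, IsPt f z ∧ Y0 ≤ z.p ∧ (z.p : ℝ) < Y0 ^ (E + 1) ∧ On t0 1 z := by
    intro z hz
    rw [hS] at hz
    unfold PtsOn at hz
    rw [mem_filter, mem_Pts] at hz
    exact ⟨hz.1.1, hz.1.2.1, hz.1.2.2, hz.2⟩
  have h1 : 2 ≤ ∑ z ∈ S, 1 / (z.p : ℝ) := by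
    have hab : Y0 ≤ Y0 ^ E := le_self_pow₀ hY4.le (by omega)
    have h2 := hC0 Y0 (Y0 ^ E) hY3 hab
    have h3 : Real.log (Y0 ^ E) / Real.log Y0 = E := by
      rw [Real.log_pow]; field_simp
    rw [h3] at h2
    have h4 : C0 + 2 ≤ Real.log E := (Real.le_log_iff_exp_le hEpos).2 hE2
    have h5 := ES2.low f t0 A0 hc Y0 (Y0 ^ (E + 1)) ((Ioc ⌊Y0⌋₊ ⌊Y0 ^ E⌋₊).filter Nat.Prime) (by
      intro p hp
      rw [mem_filter, mem_Ioc] at hp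
      have a1 : Y0 < p := Nat.lt_of_floor_lt hp.1.1
      have a2 : (p : ℝ) ≤ Y0 ^ E := (Nat.le_floor_iff (by positivity)).1 hp.1.2
      have a3 : Y0 ^ E < Y0 ^ (E + 1) := pow_lt_pow_right₀ hY4 (Nat.lt_succ_self E)
      refine ⟨hp.2, ?_, a1.le, by linarith⟩
      have a4 : (A0 : ℝ) < p := by linarith
      exact_mod_cast a4)
    linarith
  have h2 : Real.log Y0 * ∑ z ∈ S, 1 / (z.p : ℝ) ≤ Zm S := by
    unfold Zm lg
    rw [Finset.mul_sum]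
    refine Finset.sum_le_sum fun z hz => ?_
    have a1 := (hmem z hz).2.1
    rw [mul_one_div]
    exact div_le_div_of_nonneg_right (Real.log_le_log (by linarith) a1) (Nat.cast_nonneg _)
  have h3 : Zm S ≤ 2 * ((E + 1 : ℕ) : ℝ) * Real.log Y0 := by
    set P := (range ⌈Y0 ^ (E + 1)⌉₊).filter fun p : ℕ => p.Prime ∧ Y0 ≤ p with hP
    have hPm : ∀ p : ℕ, p ∈ P ↔ p.Prime ∧ Y0 ≤ p ∧ (p : ℝ) < Y0 ^ (E + 1) := by
      intro p
      rw [hP, mem_filter, mem_range, Nat.lt_ceil]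
      tauto
    have a1 := hK Y0 (Y0 ^ (E + 1)) P hY4.le (le_self_pow₀ hY4.le (by omega)) hPm
    have a2 := ((hPc f S fun z hz => (hmem z hz).1).2.2 t0 1 (by
      intro z hz
      refine ⟨(hmem z hz).2.2.2, fun h => ?_⟩
      have := (hmem z hz).1.1.one_lt
      have h' : z.p ∣ 1 := by exact_mod_cast h
      have := Nat.le_of_dvd one_pos h'
      omega)).2.2.1 (fun p => Real.log p / p) P
      (fun p => div_nonneg (Real.log_natCast_nonneg p) (Nat.cast_nonneg p))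
      (fun z hz => (hPm z.p).2 ⟨(hmem z hz).1.1, (hmem z hz).2.1, (hmem z hz).2.2.1⟩)
    rw [Real.log_pow] at a1
    have a3 := (abs_le.1 a1).2
    unfold Zm lg
    push_cast at a3 ⊢
    nlinarith
  refine ⟨h1, ?_, ?_, h3⟩
  · have h4 : Real.log Y0 * ∑ z ∈ S, 1 / (z.p : ℝ) ≤ Real.log Y0 * (2 * ((E + 1 : ℕ) : ℝ)) := by
      linarith
    exact le_of_mul_le_mul_left h4 hL
  · nlinarith

end Pool.Agent.MP_f3836a_nt.VE
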