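import Pool.Agent.MP_f3836a_nt.VE.SpecE1

/-! Few small primes divide the discriminant of most small curves. -/

set_option autoImplicit false

namespace Pool.Agent.MP_f3836a_nt.VE

open Polynomial Finset

namespace ESig

lemma one {f : ℤ[X]} (h1 : f.Monic) (h3 : f.natDegree = 3) {l : ℕ} (hl : l.Prime) {a k : ℤ}
    (ha : (l : ℤ) ∣ a - 1) (hk : (l : ℤ) ∣ k) : ¬(l : ℤ) ∣ hv f 3 a (k ^ 2) := by
  have := Fact.mk hl
  have c : f.coeff 3 = 1 := h3 ▸ h1.coeff_natDegree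
  rw [← ZMod.intCast_zmod_eq_zero_iff_dvd] at ha hk ⊢
  push_cast at ha
  simp [hv, sum_range_succ, c, hk, sub_eq_zero.1 ha]

lemma cls {f : ℤ[X]} (h1 : f.Monic) (h3 : f.natDegree = 3) {l : ℕ} (hl : l.Prime) (b : ℤ)
    (H : Finset ℤ) {B : ℝ} (hB : 0 ≤ B)
    (h : ∀ r : ℤ, ((H.filter fun a => (l : ℤ) ∣ a - r).card : ℝ) ≤ B) :
    ((H.filter fun a => (l : ℤ) ∣ hv f 3 a b).card : ℝ) ≤ 3 * B := by
  have := Fact.mk hl
  have m := ((monic_scaleRoots_iff b).2 h1).map (Int.castRingHom (ZMod l))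
  set q := (f.scaleRoots b).map (Int.castRingHom (ZMod l)) with hq
  have c : q.roots.toFinset.card ≤ 3 := (Multiset.toFinset_card_le _).trans ((card_roots' q).trans
    (natDegree_map_le.trans (by rw [natDegree_scaleRoots, h3])))
  have s : (H.filter fun a => (l : ℤ) ∣ hv f 3 a b) ⊆
      q.roots.toFinset.biUnion fun r => H.filter fun a => (l : ℤ) ∣ a - (r.val : ℤ) := by
    intro a ha
    obtain ⟨a1, a2⟩ := mem_filter.1 ha
    refine mem_biUnion.2 ⟨a, ?_, mem_filter.2 ⟨a1, ?_⟩⟩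
    · have e : hv f 3 a b = (f.scaleRoots b).eval a := by
        rw [eval_eq_sum_range, natDegree_scaleRoots, h3]
        exact sum_congr rfl fun i _ => by rw [coeff_scaleRoots, h3, mul_right_comm]
      rw [Multiset.mem_toFinset, mem_roots m.ne_zero, IsRoot, hq, eval_intCast_map, Int.cast_id, ← e]
      exact (ZMod.intCast_zmod_eq_zero_iff_dvd _ _).2 a2
    · rw [← ZMod.intCast_zmod_eq_zero_iff_dvd]
      simp
  calc _ ≤ ((∑ r ∈ q.roots.toFinset,
        (H.filter fun a => (l : ℤ) ∣ a - (r.val : ℤ)).card : ℕ) : ℝ) := by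
        exact_mod_cast (card_le_card s).trans card_biUnion_le
    _ ≤ q.roots.toFinset.card • B := by
        rw [Nat.cast_sum]; exact sum_le_card_nsmul _ _ _ fun r _ => h _
    _ ≤ 3 * B := by
        rw [nsmul_eq_mul]; exact mul_le_mul_of_nonneg_right (by exact_mod_cast c) hB

lemma big {A : ℕ} {Y : ℝ} (hA : 0 < A) (hY : 122 ≤ Y) (h : (A : ℝ) ≤ Y ^ 61) :
    ∑ l ∈ A.primeFactors.filter fun l : ℕ => ¬(l : ℝ) ≤ Y, (1 : ℝ) / l ≤ 1 / 2 := by
  set S := A.primeFactors.filter fun l : ℕ => ¬(l : ℝ) ≤ Y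
  have h1 : Y ^ S.card ≤ Y ^ 61 := by
    calc Y ^ S.card = ∏ _l ∈ S, Y := (prod_const Y).symm
      _ ≤ ∏ l ∈ S, (l : ℝ) :=
          prod_le_prod (fun _ _ => by linarith) fun l hl => (not_le.1 (mem_filter.1 hl).2).le
      _ ≤ A := by
          rw [← Nat.cast_prod]
          exact Nat.cast_le.2 (Nat.le_of_dvd hA
            ((prod_dvd_prod_of_subset _ _ _ (filter_subset _ _)).trans A.prod_primeFactors_dvd))
      _ ≤ _ := h
  have h2 : (S.card : ℝ) ≤ 61 := by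
    exact_mod_cast (pow_le_pow_iff_right₀ (by linarith)).1 h1
  refine (sum_le_card_nsmul S _ (1 / 122) fun l hl => one_div_le_one_div_of_le (by norm_num)
    (hY.trans (not_le.1 (mem_filter.1 hl).2).le)).trans ?_
  rw [nsmul_eq_mul]
  linarith

end ESig

open ESig in
theorem rSig : OfSig := by
  intro hC hS hH f t0 A0 cr δ hδ
  obtain ⟨Cf, c1, hf⟩ := hH f t0 A0 cr
  refine ⟨⌈6 / δ⌉₊, max Cf (max 122 (6 / δ)), fun W k Y hY sc hw => ?_⟩
  simp only [max_le_iff] at hY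
  obtain ⟨y1, y2, y3⟩ := hY
  obtain ⟨-, k0, l1, -⟩ := hS W k Y sc
  have W0 : 0 < W := by have := sc.two; omega
  have y0 : 0 < Y := by linarith
  have L0 : 0 < Lc W k := (pow_pos y0 _).trans_le l1
  have w1 : 6 / δ ≤ (⌈6 / δ⌉₊ : ℝ) := Nat.le_ceil _
  have w0 : 0 < 6 / δ := by positivity
  set w := ⌈6 / δ⌉₊
  set P := (Ioc w ⌊Y⌋₊).filter fun l => l.Prime ∧ ¬l ∣ W with hP
  set H := HH0 t0 W k
  have key : ∀ a ∈ H, 2 < ∑ l ∈ (2 * AA f k a).primeFactors, (1 : ℝ) / l →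
      1 ≤ ∑ l ∈ P, if (l : ℤ) ∣ hv f 3 a ((k : ℤ) ^ 2) then (1 : ℝ) / l else 0 := fun a ha h => by
    obtain ⟨-, a1, a2⟩ := hf W k a k0 ha
    have a0 : 0 < AA f k a := Nat.pos_of_ne_zero fun e => by
      rw [e, Nat.cast_zero, mul_zero] at a2
      exact absurd a2 (not_le.2 (by positivity))
    have a3 : (AA f k a : ℝ) ≤ Y ^ 61 := by
      rw [← sc.pow, ← pow_mul] at a1
      exact a1.trans (by rw [pow_succ' Y 60]; gcongr)
    have a4 : (AA f k a : ℤ) = -hv f 3 a ((k : ℤ) ^ 2) := by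
      unfold AA at a0 ⊢
      omega
    have a5 : ∑ l ∈ (2 * AA f k a).primeFactors, (1 : ℝ) / l ≤
        1 / 2 + ∑ l ∈ (AA f k a).primeFactors, (1 : ℝ) / l := by
      rw [Nat.primeFactors_mul two_ne_zero a0.ne', Nat.prime_two.primeFactors]
      have := sum_union_inter (s₁ := {2}) (s₂ := (AA f k a).primeFactors) (f := fun l => (1 : ℝ) / l)
      have h0 : 0 ≤ ∑ l ∈ {2} ∩ (AA f k a).primeFactors, (1 : ℝ) / l := by positivity
      rw [sum_singleton, Nat.cast_ofNat] at this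
      linarith
    rw [← sum_filter_add_sum_filter_not (AA f k a).primeFactors fun l : ℕ => (l : ℝ) ≤ Y] at a5
    have a6 := big a0 y2 a3
    rw [← sum_filter]
    refine le_trans (by linarith) (sum_le_sum_of_subset_of_nonneg
      (s := (AA f k a).primeFactors.filter fun l : ℕ => (l : ℝ) ≤ Y) (fun l hl => ?_)
      fun _ _ _ => by positivity)
    obtain ⟨b1, b2⟩ := mem_filter.1 hl
    have b3 := Nat.prime_of_mem_primeFactors b1
    have b4 : (l : ℤ) ∣ hv f 3 a ((k : ℤ) ^ 2) := by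
      rw [← dvd_neg, ← a4]; exact_mod_cast Nat.dvd_of_mem_primeFactors b1
    have b5 : ¬l ∣ W := fun e => one cr.monic cr.deg b3
      ((Int.natCast_dvd_natCast.2 e).trans (mem_filter.1 ha).2)
      (Int.natCast_dvd_natCast.2 (e.trans sc.dvd)) b4
    exact mem_filter.2 ⟨mem_filter.2 ⟨mem_Ioc.2 ⟨not_le.1 fun e => b5 (hw l b3 e),
      Nat.le_floor b2⟩, b3, b5⟩, b4⟩
  have s1 : ∑ l ∈ Ioc w ⌊Y⌋₊, ((l : ℝ) ^ 2)⁻¹ ≤ δ / 6 := by
    by_cases e : w ≤ ⌊Y⌋₊
    · refine (sum_Ioc_inv_sq_le_sub (Nat.ceil_pos.2 w0).ne' e).trans ?_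
      have : (w : ℝ)⁻¹ ≤ δ / 6 := by rw [← inv_div]; exact inv_anti₀ w0 w1
      have : (0 : ℝ) ≤ (⌊Y⌋₊ : ℝ)⁻¹ := by positivity
      linarith
    · rw [Ioc_eq_empty (by omega), sum_empty]; positivity
  have s2 : 6 * Y ≤ δ * Lc W k := by
    rw [div_le_iff₀ hδ] at y3
    have : Y ^ 2 ≤ Y ^ 19 := pow_le_pow_right₀ (by linarith) (by norm_num)
    nlinarith
  calc _ = ∑ _a ∈ H.filter fun a => 2 < ∑ l ∈ (2 * AA f k a).primeFactors, (1 : ℝ) / l,
        (1 : ℝ) := by simp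
    _ ≤ ∑ a ∈ H, ∑ l ∈ P, if (l : ℤ) ∣ hv f 3 a ((k : ℤ) ^ 2) then (1 : ℝ) / l else 0 :=
        (sum_le_sum fun a ha => key a (mem_filter.1 ha).1 (mem_filter.1 ha).2).trans
          (sum_le_sum_of_subset_of_nonneg (filter_subset _ _) fun _ _ _ => by positivity)
    _ ≤ ∑ l ∈ P, (3 * Lc W k * ((l : ℝ) ^ 2)⁻¹ + 3) := by
        rw [sum_comm]
        refine sum_le_sum fun l hl => ?_
        obtain ⟨-, b1, b2⟩ := mem_filter.1 hl
        have b3 : (1 : ℝ) ≤ l := by exact_mod_cast b1.one_le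
        have b4 := cls cr.monic cr.deg b1 ((k : ℤ) ^ 2) H (B := Lc W k / l + 1) (by positivity)
          fun r => by
            have := ((hC.1 t0 W k W0 sc.dvd).2 l r b1.pos (b1.coprime_iff_not_dvd.2 b2))
            linarith [(abs_le.1 this).2]
        rw [← sum_filter, sum_const, nsmul_eq_mul]
        refine (mul_le_mul_of_nonneg_right b4 (by positivity)).trans ?_
        have : 1 / (l : ℝ) ≤ 1 := by rw [div_le_one (by linarith)]; exact b3
        have e : 3 * (Lc W k / l + 1) * (1 / l) = 3 * Lc W k * ((l : ℝ) ^ 2)⁻¹ + 3 * (1 / l) := by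
          ring
        linarith
    _ ≤ ∑ l ∈ Ioc w ⌊Y⌋₊, (3 * Lc W k * ((l : ℝ) ^ 2)⁻¹ + 3) :=
        sum_le_sum_of_subset_of_nonneg (filter_subset _ _) fun _ _ _ => by positivity
    _ ≤ δ * Lc W k := by
        rw [sum_add_distrib, ← mul_sum, sum_const, nsmul_eq_mul, Nat.card_Ioc]
        have : ((⌊Y⌋₊ - w : ℕ) : ℝ) ≤ Y :=
          (Nat.cast_le.2 (Nat.sub_le _ _)).trans (Nat.floor_le y0.le)
        nlinarith

end Pool.Agent.MP_f3836a_nt.VE
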