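import Pool.Agent.MP_c481b3_nt.H81.Frob

/-! The bound of Hasse for a cubic over a prime field. -/

set_option autoImplicit false

namespace Pool.Agent.MP_f3836a_nt.VE

open Polynomial Finset

namespace HasseAux

open Pool.Agent.MP_c481b3_nt.H81

variable (p : ℕ) [Fact p.Prime]

theorem fixed {k : Type*} [Field k] [Algebra (ZMod p) k] {x : k} (h : x ^ p ^ 1 = x) :
    ∃ a : ZMod p, algebraMap (ZMod p) k a = x := by
  have : CharP k p := charP_of_injective_algebraMap (algebraMap (ZMod p) k).injective p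
  have h1 := (Subfield.mem_bot_iff_pow_eq_self k p).2 (pow_one p ▸ h)
  exact (bot_le : ⊥ ≤ (algebraMap (ZMod p) k).fieldRange) h1

theorem card_pairs (h2 : (2 : ZMod p) ≠ 0) (g : ZMod p → ZMod p) :
    ((univ.filter fun v : ZMod p × ZMod p => v.2 ^ 2 = g v.1).card : ℤ) =
      p + ∑ x, quadraticChar (ZMod p) (g x) := by
  have hr : ringChar (ZMod p) ≠ 2 := fun h => h2 (by
    have := ringChar.Nat.cast_ringChar (R := ZMod p)
    rwa [h, Nat.cast_ofNat] at this)
  rw [card_filter, Fintype.sum_prod_type]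
  have e : ∀ x : ZMod p, ((∑ y : ZMod p, if y ^ 2 = g x then 1 else 0 : ℕ) : ℤ) =
      quadraticChar (ZMod p) (g x) + 1 := fun x => by
    rw [← quadraticChar_card_sqrts hr, ← card_filter]
    congr 2
    ext y
    simp
  rw [Nat.cast_sum, sum_congr rfl fun x _ => e x, sum_add_distrib, add_comm]
  simp [ZMod.card]

theorem short (A B : ZMod p) (h2 : (2 : ZMod p) ≠ 0) (h3 : (3 : ZMod p) ≠ 0)
    (hD : 4 * A ^ 3 + 27 * B ^ 2 ≠ 0) :
    (∑ x, quadraticChar (ZMod p) (x ^ 3 + A * x + B)) ^ 2 ≤ 4 * (p : ℤ) + 4 := by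
  classical
  let k := AlgebraicClosure (ZMod p)
  let i := algebraMap (ZMod p) k
  have hi : Function.Injective i := i.injective
  have hG : Good (i A) (i B) := Good.map ⟨h2, hD⟩ i
  have fx : ∀ a : ZMod p, i a ^ p ^ 1 = i a := fun a => by rw [← map_pow, pow_one, ZMod.pow_card]
  have h3' : (3 : k) ≠ 0 := by rw [← map_ofNat i 3]; exact (map_ne_zero i).2 h3
  set S := ∑ x, quadraticChar (ZMod p) (x ^ 3 + A * x + B) with hS
  let T := univ.filter fun v : ZMod p × ZMod p => v.2 ^ 2 = v.1 ^ 3 + A * v.1 + B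
  have hT : (T.card : ℤ) = p + S := card_pairs p h2 fun x => x ^ 3 + A * x + B
  have eq : ∀ v ∈ T, i v.2 ^ 2 = i v.1 ^ 3 + i A * i v.1 + i B := fun v hv => by
    simpa using congrArg i (mem_filter.1 hv).2
  have hN : Nat.card {P : Pt (i A) (i B) // xc P ^ p ^ 1 = xc P ∧ yc P ^ p ^ 1 = yc P} =
      T.card + 1 := by
    have inj : Set.InjOn (fun v : ZMod p × ZMod p => pt (i A) (i B) (i v.1) (i v.2)) T :=
      fun v hv w hw e => Prod.ext
        (hi (by simpa [xc_pt hG (eq v hv), xc_pt hG (eq w hw)] using congrArg xc e))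
        (hi (by simpa [yc_pt hG (eq v hv), yc_pt hG (eq w hw)] using congrArg yc e))
    rw [← card_image_of_injOn inj, ← card_insert_of_notMem (a := 0) (by
      simp only [mem_image, not_exists, not_and]
      exact fun v hv => pt_ne hG (eq v hv))]
    refine Nat.subtype_card _ fun P => ?_
    simp only [mem_insert, mem_image]
    constructor
    · rintro (rfl | ⟨v, hv, rfl⟩)
      · simp [(Fact.out : p.Prime).ne_zero]
      · rw [xc_pt hG (eq v hv), yc_pt hG (eq v hv)]
        exact ⟨fx _, fx _⟩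
    · rintro ⟨hx, hy⟩
      by_cases hP : P = 0
      · exact Or.inl hP
      obtain ⟨a, ha⟩ := fixed p hx
      obtain ⟨b, hb⟩ := fixed p hy
      refine Or.inr ⟨(a, b), mem_filter.2 ⟨mem_univ _, hi ?_⟩, ?_⟩
      · simpa [i, ha, hb] using eqn hP
      · simp only [i, ha, hb]
        exact pt_self hP
  have key : ∀ t : ℤ, (t : k) ≠ 0 → 0 ≤ t ^ 2 + S * t + p := fun t ht => by
    obtain ⟨C, -, h, -⟩ := frob_kernel hG h3' p 1 one_ne_zero (fx A) (fx B) ht
    rw [hN] at h
    push_cast at h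
    have := Int.natCast_nonneg C.card
    rw [h, hT] at this
    linarith
  obtain ⟨m, hm⟩ : ∃ m : ℤ, -S = 2 * m ∨ -S = 2 * m + 1 := ⟨-S / 2, by omega⟩
  by_cases h : (m : k) = 0
  · have := key (m + 1) (by simp [h])
    rcases hm with hm | hm <;> rw [show S = -(-S) by ring, hm] at this ⊢ <;> nlinarith
  · have := key m h
    rcases hm with hm | hm <;> rw [show S = -(-S) by ring, hm] at this ⊢ <;> nlinarith

theorem coef (a b c : ZMod p) (h2 : (2 : ZMod p) ≠ 0) (h3 : (3 : ZMod p) ≠ 0)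
    (hn : ∀ x, x ^ 3 + a * x ^ 2 + b * x + c = 0 → 3 * x ^ 2 + 2 * a * x + b ≠ 0) :
    (∑ x, quadraticChar (ZMod p) (x ^ 3 + a * x ^ 2 + b * x + c)) ^ 2 ≤ 4 * (p : ℤ) + 4 := by
  obtain ⟨s, rfl⟩ : ∃ s, a = 3 * s := ⟨a / 3, by field_simp⟩
  have h := short p (b - 3 * s ^ 2) (c - s * b + 2 * s ^ 3) h2 h3 fun hD => by
    set A := b - 3 * s ^ 2 with hA
    set B := c - s * b + 2 * s ^ 3 with hB
    obtain ⟨x, x1, x2⟩ : ∃ x, x ^ 3 + A * x + B = 0 ∧ 3 * x ^ 2 + A = 0 := by
      by_cases h0 : A = 0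
      · have h27 : (27 : ZMod p) ≠ 0 := by
          rw [show (27 : ZMod p) = 3 ^ 3 by norm_num]; exact pow_ne_zero _ h3
        rw [h0] at hD
        refine ⟨0, ?_, by simp [h0]⟩
        simpa [h27] using hD
      · refine ⟨-3 * B / (2 * A), ?_, ?_⟩
        · field_simp
          linear_combination (-B) * hD
        · field_simp
          linear_combination hD
    exact hn (x - s) (by linear_combination x1) (by linear_combination x2)
  rw [← Equiv.sum_comp (Equiv.subRight s)]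
  convert h using 4 with x
  simp only [Equiv.subRight_apply]
  ring

omit [Fact p.Prime] in
theorem abs_bd {S : ℤ} (h : S ^ 2 ≤ 4 * (p : ℤ) + 4) : |(S : ℝ)| ≤ 2 * √(p : ℝ) + 2 := by
  have h1 : (S : ℝ) ^ 2 ≤ 4 * (p : ℝ) + 4 := by exact_mod_cast h
  have h2 := Real.sq_sqrt (Nat.cast_nonneg (α := ℝ) p)
  have h3 := Real.sqrt_nonneg (p : ℝ)
  exact abs_le.2 (abs_le_of_sq_le_sq' (by nlinarith) (by positivity))

end HasseAux

open HasseAux in
/-- The bound of Hasse, as a character sum and as a count of points with `y ≠ 0`. -/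
theorem hasse (f : ℤ[X]) (hm : f.Monic) (hd : f.natDegree = 3)
    (hs : Squarefree (f.map (Int.castRingHom ℚ))) : ∃ D : ℤ, D ≠ 0 ∧ 6 ∣ D ∧
    ∀ (p : ℕ) [Fact p.Prime], ¬(p : ℤ) ∣ D →
      (∀ x : ZMod p, aeval x f = 0 → aeval x (derivative f) ≠ 0) ∧
      |((∑ x : ZMod p, quadraticChar (ZMod p) (aeval x f) : ℤ) : ℝ)| ≤ 2 * √(p : ℝ) + 2 ∧
      |((univ.filter fun v : ZMod p × ZMod p => v.2 ^ 2 = aeval v.1 f ∧ v.2 ≠ 0).card : ℝ) - p| ≤
        2 * √(p : ℝ) + 5 := by
  obtain ⟨u, v, huv⟩ := PerfectField.separable_iff_squarefree.2 hs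
  obtain ⟨d1, h1, hu⟩ := IsLocalization.integerNormalization_spec (nonZeroDivisors ℤ) u
  obtain ⟨d2, h2, hv⟩ := IsLocalization.integerNormalization_spec (nonZeroDivisors ℤ) v
  set u' := IsLocalization.integerNormalization (nonZeroDivisors ℤ) u
  set v' := IsLocalization.integerNormalization (nonZeroDivisors ℤ) v
  have e : C d2 * u' * f + C d1 * v' * derivative f = C (d1 * d2) := by
    apply map_injective (algebraMap ℤ ℚ) (algebraMap ℤ ℚ).injective_int
    rw [derivative_map] at huv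
    simp only [Polynomial.map_add, Polynomial.map_mul, hu, hv, zsmul_eq_mul, map_mul,
      eq_intCast, Polynomial.map_intCast]
    rw [show algebraMap ℤ ℚ = Int.castRingHom ℚ from rfl]
    linear_combination (d1 * d2 : ℚ[X]) * huv
  refine ⟨6 * (d1 * d2), mul_ne_zero (by norm_num)
    (mul_ne_zero (nonZeroDivisors.ne_zero h1) (nonZeroDivisors.ne_zero h2)), dvd_mul_right _ _,
    fun p _ hp => ?_⟩
  rw [← ZMod.intCast_zmod_eq_zero_iff_dvd] at hp
  push_cast at hp
  have n2 : (2 : ZMod p) ≠ 0 := fun h => hp (by linear_combination 3 * (d1 * d2 : ZMod p) * h)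
  have n3 : (3 : ZMod p) ≠ 0 := fun h => hp (by linear_combination 2 * (d1 * d2 : ZMod p) * h)
  have ns : ∀ x : ZMod p, aeval x f = 0 → aeval x (derivative f) ≠ 0 := fun x a1 a2 => hp (by
    have := congrArg (aeval x) e
    simp only [map_add, map_mul, a1, a2, mul_zero, add_zero, eq_intCast, map_intCast] at this
    rw [← this, mul_zero])
  have hf : f = X ^ 3 + C (f.coeff 2) * X ^ 2 + C (f.coeff 1) * X + C (f.coeff 0) := by
    conv_lhs => rw [hm.as_sum, hd]
    simp only [sum_range_succ, range_zero, sum_empty]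
    ring
  have ev : ∀ x : ZMod p, aeval x f = x ^ 3 + (f.coeff 2 : ZMod p) * x ^ 2 +
      (f.coeff 1 : ZMod p) * x + (f.coeff 0 : ZMod p) := fun x => by
    conv_lhs => rw [hf]
    simp
  have ed : ∀ x : ZMod p, aeval x (derivative f) = 3 * x ^ 2 + 2 * (f.coeff 2 : ZMod p) * x +
      (f.coeff 1 : ZMod p) := fun x => by
    conv_lhs => rw [hf]
    simp [map_ofNat]
    ring
  have b1 : |((∑ x : ZMod p, quadraticChar (ZMod p) (aeval x f) : ℤ) : ℝ)| ≤ 2 * √(p : ℝ) + 2 := by
    simp only [ev]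
    exact abs_bd p (coef p _ _ _ n2 n3 fun x hx => ed x ▸ ns x (ev x ▸ hx))
  refine ⟨ns, b1, ?_⟩
  have c1 := card_pairs p n2 fun x => aeval x f
  have c2 := card_filter_add_card_filter_not (fun v : ZMod p × ZMod p => v.2 ≠ 0)
    (s := univ.filter fun v : ZMod p × ZMod p => v.2 ^ 2 = aeval v.1 f)
  rw [filter_filter, filter_filter] at c2
  have c3 : (univ.filter fun v : ZMod p × ZMod p =>
      v.2 ^ 2 = aeval v.1 f ∧ ¬v.2 ≠ 0).card ≤ 3 := by
    have m0 := (hm.map (Int.castRingHom (ZMod p))).ne_zero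
    refine le_trans (card_le_card_of_injOn (t := (f.map (Int.castRingHom (ZMod p))).roots.toFinset)
      Prod.fst (fun v hv => ?_) fun v hv w hw h => ?_)
      ((Multiset.toFinset_card_le _).trans ((card_roots' _).trans (natDegree_map_le.trans hd.le)))
    · obtain ⟨a1, a2⟩ := (mem_filter.1 (mem_coe.1 hv)).2
      rw [not_not.1 a2] at a1
      rw [mem_coe, Multiset.mem_toFinset, mem_roots m0, IsRoot, eval_map, ← algebraMap_int_eq,
        ← aeval_def, ← a1]
      simp
    · exact Prod.ext h ((not_not.1 (mem_filter.1 (mem_coe.1 hv)).2.2).trans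
        (not_not.1 (mem_filter.1 (mem_coe.1 hw)).2.2).symm)
  rw [← c2] at c1
  have c4 := congrArg (Int.cast : ℤ → ℝ) c1
  rw [Int.cast_add, Int.cast_natCast, Int.cast_natCast, Nat.cast_add] at c4
  have c5 : (((univ.filter fun v : ZMod p × ZMod p =>
      v.2 ^ 2 = aeval v.1 f ∧ ¬v.2 ≠ 0).card : ℕ) : ℝ) ≤ 3 := by exact_mod_cast c3
  have c6 := Nat.cast_nonneg (α := ℝ) (univ.filter fun v : ZMod p × ZMod p =>
      v.2 ^ 2 = aeval v.1 f ∧ ¬v.2 ≠ 0).card
  rw [abs_le] at b1 ⊢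
  constructor <;> linarith [b1.1, b1.2]

end Pool.Agent.MP_f3836a_nt.VE
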