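import Pool.Agent.MP_f3836a_nt.VE.SpecE1
import Pool.Agent.MP_f3836a_nt.VE.Hasse

/-! Part E1: the number of points over a prime and the mass of a window. -/

set_option autoImplicit false

namespace Pool.Agent.MP_f3836a_nt.VE

open Polynomial Finset

namespace EWin

theorem aeval_cast (f : ℤ[X]) (p t : ℕ) :
    aeval ((t : ℕ) : ZMod p) f = ((f.eval (t : ℤ) : ℤ) : ZMod p) := by
  have h := Polynomial.aeval_algebraMap_apply (ZMod p) (t : ℤ) f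
  rw [coe_aeval_eq_eval] at h
  simpa using h

theorem card_eq (f : ℤ[X]) (p : ℕ) [Fact p.Prime] (h2 : p ≠ 2) (S : Finset Pt)
    (hS : ∀ z, z ∈ S ↔ IsPt f z ∧ z.p = p) :
    S.card = (univ.filter fun v : ZMod p × ZMod p => v.2 ^ 2 = aeval v.1 f ∧ v.2 ≠ 0).card := by
  have hp : p.Prime := Fact.out
  refine card_nbij' (fun z => ((z.t : ZMod p), (z.y : ZMod p)))
    (fun v => (⟨p, v.1.val, v.2.val⟩ : Pt)) ?_ ?_ ?_ ?_
  · intro z hz
    obtain ⟨⟨-, -, h3, h4, h5, h6⟩, rfl⟩ := (hS z).1 (by simpa using hz)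
    simp only [coe_filter, mem_univ, true_and, Set.mem_ofPred_eq]
    refine ⟨?_, ?_⟩
    · rw [aeval_cast, ← sub_eq_zero]
      have := (ZMod.intCast_zmod_eq_zero_iff_dvd _ _).2 h6
      push_cast at this
      exact this
    · intro h
      have := (ZMod.natCast_eq_zero_iff _ _).1 h
      exact absurd (Nat.le_of_dvd h4 this) (by omega)
  · intro v hv
    simp only [coe_filter, mem_univ, true_and, Set.mem_ofPred_eq] at hv
    have : (⟨p, v.1.val, v.2.val⟩ : Pt) ∈ S := by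
      refine (hS _).2 ⟨⟨hp, h2, ZMod.val_lt _, ?_, ZMod.val_lt _, ?_⟩, rfl⟩
      · exact Nat.pos_of_ne_zero fun h => hv.2 ((ZMod.val_eq_zero _).1 h)
      · refine (ZMod.intCast_zmod_eq_zero_iff_dvd _ p).1 ?_
        push_cast
        rw [← aeval_cast, ZMod.natCast_zmod_val, ZMod.natCast_zmod_val, hv.1, sub_self]
    simpa using this
  · intro z hz
    obtain ⟨⟨-, -, h3, h4, h5, h6⟩, rfl⟩ := (hS z).1 (by simpa using hz)
    simp only [ZMod.val_natCast, Nat.mod_eq_of_lt h3, Nat.mod_eq_of_lt h5]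
  · intro v _
    simp only [ZMod.natCast_zmod_val]

theorem term_le (p : ℕ) (hp : 1 ≤ p) (N : ℝ) (h : |N - p| ≤ 2 * √(p : ℝ) + 5) :
    |N * (Real.log p / (p : ℝ) ^ 2) - Real.log p / p| ≤ 28 * (p : ℝ) ^ (-(5 / 4 : ℝ)) := by
  have p1 : (1 : ℝ) ≤ p := by exact_mod_cast hp
  have p0 : (0 : ℝ) < p := by linarith
  have l0 : 0 ≤ Real.log p := Real.log_nonneg p1
  have e : N * (Real.log p / (p : ℝ) ^ 2) - Real.log p / p
      = (N - p) * (Real.log p / (p : ℝ) ^ 2) := by field_simp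
  rw [e, abs_mul, abs_of_nonneg (div_nonneg l0 (by positivity))]
  have s1 : (1 : ℝ) ≤ √(p : ℝ) := Real.one_le_sqrt.2 p1
  have h1 : |N - p| ≤ 7 * (p : ℝ) ^ (1 / 2 : ℝ) := by
    rw [← Real.sqrt_eq_rpow]; linarith
  have h2 : Real.log p ≤ 4 * (p : ℝ) ^ (1 / 4 : ℝ) := by
    have := Real.log_le_rpow_div p0.le (show (0 : ℝ) < 1 / 4 by norm_num)
    linarith
  have h3 : (p : ℝ) ^ (1 / 2 : ℝ) * (p : ℝ) ^ (1 / 4 : ℝ) / (p : ℝ) ^ 2
      = (p : ℝ) ^ (-(5 / 4 : ℝ)) := by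
    rw [← Real.rpow_add p0, ← Real.rpow_natCast, ← Real.rpow_sub p0]
    norm_num
  calc |N - p| * (Real.log p / (p : ℝ) ^ 2)
      ≤ 7 * (p : ℝ) ^ (1 / 2 : ℝ) * (4 * (p : ℝ) ^ (1 / 4 : ℝ) / (p : ℝ) ^ 2) := by
        gcongr
    _ = 28 * ((p : ℝ) ^ (1 / 2 : ℝ) * (p : ℝ) ^ (1 / 4 : ℝ) / (p : ℝ) ^ 2) := by ring
    _ = _ := by rw [h3]

end EWin

open EWin

theorem rHas : HasS := by
  intro f t0 A0 h
  obtain ⟨D, hD, h6, H⟩ := hasse f h.monic h.deg h.sep.squarefree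
  refine ⟨D.natAbs, fun p S hp hlt hS => ?_⟩
  have : Fact p.Prime := ⟨hp⟩
  have hn : ¬(p : ℤ) ∣ D := fun hd => by
    have := Nat.le_of_dvd (Int.natAbs_pos.2 hD) (Int.natCast_dvd.1 hd)
    omega
  have h2 : p ≠ 2 := by
    rintro rfl
    exact hn (Dvd.dvd.trans (by norm_num) h6)
  rw [card_eq f p h2 S hS]
  exact (H p hn).2.2

theorem rWin : OfWin := by
  classical
  intro hH hM f t0 A0 h
  obtain ⟨D, hD⟩ := hH f t0 A0 h
  obtain ⟨K, -, hK⟩ := hM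
  have hs : Summable fun n : ℕ => 28 * (n : ℝ) ^ (-(5 / 4 : ℝ)) :=
    (Real.summable_nat_rpow.2 (by norm_num)).mul_left _
  refine ⟨K + ∑' n : ℕ, 28 * (n : ℝ) ^ (-(5 / 4 : ℝ)), D + 1, fun lo hi h1 h2 => ?_⟩
  set P : Finset ℕ := (range ⌈hi⌉₊).filter fun p => p.Prime ∧ lo ≤ p ∧ (p : ℝ) < hi with hP
  have mP : ∀ p : ℕ, p ∈ P ↔ p.Prime ∧ lo ≤ p ∧ (p : ℝ) < hi := by
    intro p
    rw [hP, mem_filter, mem_range]
    exact ⟨fun h => h.2, fun h => ⟨Nat.lt_ceil.2 h.2.2, h⟩⟩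
  have d0 : (0 : ℝ) ≤ D := Nat.cast_nonneg _
  have k1 := hK lo hi P (by linarith) h2 mP
  have e : ∑ z ∈ Pts f lo hi, lg z / (z.p : ℝ) ^ 2 = ∑ p ∈ P,
      (((Pts f lo hi).filter fun z => z.p = p).card : ℝ) * (Real.log p / (p : ℝ) ^ 2) := by
    rw [← sum_fiberwise_of_maps_to (s := Pts f lo hi) (t := P) (g := Pt.p)
      (fun z hz => (mP _).2 ⟨(mem_Pts.1 hz).1.1, (mem_Pts.1 hz).2⟩)]
    refine sum_congr rfl fun p _ => ?_
    rw [← nsmul_eq_mul, ← sum_const]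
    refine sum_congr rfl fun z hz => ?_
    rw [← (mem_filter.1 hz).2]
    rfl
  have k2 : |∑ z ∈ Pts f lo hi, lg z / (z.p : ℝ) ^ 2 - ∑ p ∈ P, Real.log p / p|
      ≤ ∑' n : ℕ, 28 * (n : ℝ) ^ (-(5 / 4 : ℝ)) := by
    rw [e, ← sum_sub_distrib]
    refine (abs_sum_le_sum_abs _ _).trans (le_trans (sum_le_sum fun p hp => ?_)
      (hs.sum_le_tsum P fun n _ => by positivity))
    obtain ⟨q1, q2, q3⟩ := (mP p).1 hp
    refine term_le p q1.one_le _ (hD p _ q1 ?_ fun z => ?_)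
    · have : (D : ℝ) < p := by linarith
      exact_mod_cast this
    · rw [mem_filter, mem_Pts]
      exact ⟨fun h => ⟨h.1.1, h.2⟩, fun h => ⟨⟨h.1, h.2 ▸ q2, h.2 ▸ q3⟩, h.2⟩⟩
  have := abs_sub_le (∑ z ∈ Pts f lo hi, lg z / (z.p : ℝ) ^ 2) (∑ p ∈ P, Real.log p / p)
    (Real.log hi - Real.log lo)
  linarith

end Pool.Agent.MP_f3836a_nt.VE
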