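import Pool.Agent.MP_f3836a_nt.VE.ECnt
import Pool.Agent.MP_f3836a_nt.VE.ESc
import Pool.Agent.MP_f3836a_nt.VE.EPc
import Pool.Agent.MP_f3836a_nt.VE.EMert
import Pool.Agent.MP_f3836a_nt.VE.ESchur
import Pool.Agent.MP_f3836a_nt.VE.EGram
import Pool.Agent.MP_f3836a_nt.VE.EWin
import Pool.Agent.MP_f3836a_nt.VE.EMass
import Pool.Agent.MP_f3836a_nt.VE.EGood
import Pool.Agent.MP_f3836a_nt.VE.ESig
import Pool.Agent.MP_f3836a_nt.VE.ES2
import Pool.Agent.MP_f3836a_nt.VE.EBlk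
import Pool.Agent.MP_f3836a_nt.VE.ERich
import Pool.Agent.MP_f3836a_nt.VE.EEasy
import Pool.Agent.MP_f3836a_nt.VE.EDelA
import Pool.Agent.MP_f3836a_nt.VE.EDelB
import Pool.Agent.MP_f3836a_nt.VE.EMom
import Pool.Agent.MP_f3836a_nt.VE.EEta
import Pool.Agent.MP_f3836a_nt.VE.ECu

/-! Part E1 assembled. -/

set_option autoImplicit false

namespace Pool.Agent.MP_f3836a_nt.VE

theorem lkS : LkS := rLk rCnt rSc

theorem precS : PrecS := rPrec rMert

theorem lsvS : LsvS := rLsv rCnt rSc lkS rSchur (rGram rCnt rSc rPc)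

theorem massS : MassS := rMass (rWin rHas rMert)

theorem goodS : GoodS := rGood rSc lsvS massS

theorem sigS : SigS := rSig rCnt rSc rHt

theorem s2S : S2S := rS2 rPc rMert

theorem amS : AmS := rAm rSc rPc rBlk

theorem richS : RichS := rRich rSc lkS rPc rBlk amS

theorem delAS : DelAS := rDelA rFix

theorem etaS : EtaS := rEta rCnt rSc lkS precS (rMom rCnt)

end Pool.Agent.MP_f3836a_nt.VE
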