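import Pool.Agent.MP_f3836a_nt.VE.SpecE0
import Pool.Agent.MP_f3836a_nt.VE.DApi

/-! Row EBase: the base point of the family of big curves. -/

set_option autoImplicit false

namespace Pool.Agent.MP_f3836a_nt.VE

open Polynomial Finset

namespace EBase

theorem hv_one {P : ℤ[X]} {d : ℕ} (h : P.natDegree ≤ d) (t : ℤ) : hv P d t (1 ^ 2) = P.eval t := by
  rw [hv, eval_eq_sum_range' (Nat.lt_succ_of_le h)]
  simp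

theorem cg_of {q : ℤ} {P P' : ℤ[X]} (h : C q ∣ P - P') : Cg q P P' := fun i => by
  rw [← coeff_sub]
  exact (C_dvd_iff_dvd_coeff _ _).1 h i

theorem sum_mon {m : ℕ} (w : ℤ) (x : Fin m → ℤ) :
    ∑ i : Fin m, monomial (i : ℕ) (w * x i) = C w * ∑ i : Fin m, monomial (i : ℕ) (x i) := by
  simp only [mul_sum, C_mul_monomial]

theorem gA_eq (Γ : Gf) (x : Ix Γ.m → ℤ) :
    Γ.gA x = Γ.As + C (Γ.W' : ℤ) * ∑ i : Fin Γ.m, monomial (i : ℕ) (x (Sum.inl i)) := by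
  rw [Gf.gA, sum_mon]

theorem gB_eq (Γ : Gf) (x : Ix Γ.m → ℤ) :
    Γ.gB x = Γ.Bs + C (Γ.W' : ℤ) * ∑ i : Fin (Γ.m - 1), monomial (i : ℕ) (x (Sum.inr i)) := by
  rw [Gf.gB, sum_mon]

theorem mon_add {m : ℕ} {A B : ℤ[X]} (h : Mon m A B) (a b : ℤ) : Mon m (A + C a) (B + C b) := by
  obtain ⟨h1, h2, h3⟩ := h
  refine ⟨h1.add_of_left (degree_C_le.trans_lt ?_), by rwa [natDegree_add_C],
    by rwa [natDegree_add_C]⟩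
  rw [← natDegree_pos_iff_degree_pos]
  omega

theorem mk_add {d : ℤ} (a b w s t : ℤ) :
    (⟨a + w * s, b + w * t⟩ : ℤ√d) = ⟨a, b⟩ + (w : ℤ√d) * ⟨s, t⟩ := by
  refine Zsqrtd.ext ?_ ?_
  · rw [Zsqrtd.re_add, Zsqrtd.re_smul]
  · rw [Zsqrtd.im_add, Zsqrtd.im_smul]

theorem gam_eq {c : Cu} {Γ : Gf} (hp : Γ.p0 ≠ 0) {x : Ix Γ.m → ℤ} {g : ℤ√(-(c.A : ℤ))}
    (h : c.bet Γ x * c.ϖ = (Γ.p0 : ℤ√(-(c.A : ℤ))) ^ c.e * g) : c.gam Γ x = g := by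
  have h0 : (Γ.p0 : ℤ) ^ c.e ≠ 0 := pow_ne_zero _ (by exact_mod_cast hp)
  have e : (Γ.p0 : ℤ√(-(c.A : ℤ))) ^ c.e = (((Γ.p0 : ℤ) ^ c.e : ℤ) : ℤ√(-(c.A : ℤ))) := by
    rw [Int.cast_pow, Int.cast_natCast]
  rw [Cu.gam, h, e, Zsqrtd.re_smul, Zsqrtd.im_smul, Int.mul_ediv_cancel_left _ h0,
    Int.mul_ediv_cancel_left _ h0]

end EBase

open EBase in
theorem rBase : BaseS := by
  intro f t0 A0 p J' m J e e' As Bs ϖ W hf hp hP hW hpW h6 hJ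
  obtain ⟨v, W1, hW1, rfl⟩ := Nat.exists_eq_pow_mul_and_not_dvd hW.ne' p hp.ne_one
  have hv' : v ≤ J' := by
    by_contra h
    exact hJ ((pow_dvd_pow p (by omega)).mul_right _)
  have hc : IsCoprime (p : ℤ√(-(A0 : ℤ))) (W1 : ℤ√(-(A0 : ℤ))) :=
    ((Nat.Prime.coprime_iff_not_dvd hp).2 hW1).cast
  obtain ⟨i, j, hij⟩ := hc.pow_left (m := J)
  obtain ⟨i', j', hij'⟩ := hc.pow_left (m := e')
  have hn : ϖ * star ϖ = (p : ℤ√(-(A0 : ℤ))) ^ e' := by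
    rw [← Zsqrtd.norm_eq_mul_conj, hP.nrm, Int.cast_pow, Int.cast_natCast]
  set β : ℤ√(-(A0 : ℤ)) := ⟨As.eval t0, Bs.eval t0⟩ with hβ
  set δ : ℤ√(-(A0 : ℤ)) := i * ((p : ℤ√(-(A0 : ℤ))) ^ e * i' * star ϖ - β) with hδ
  have hd : ∀ s : ℤ, C ((p : ℤ) ^ J) ∣ C ((p : ℤ) ^ J * s) := fun s => ⟨C s, C_mul⟩
  refine ⟨As + C ((p : ℤ) ^ J * δ.re), Bs + C ((p : ℤ) ^ J * δ.im),
    cg_of (by rw [add_sub_cancel_left]; exact hd _),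
    cg_of (by rw [add_sub_cancel_left]; exact hd _), fun H H1 h0 h1 => ?_⟩
  set Γ : Gf := ⟨f, p, m, p ^ v * W1, p ^ J * (p ^ v * W1), As + C ((p : ℤ) ^ J * δ.re),
    Bs + C ((p : ℤ) ^ J * δ.im), H, H1⟩ with hΓ
  have ok : Γ.Ok := ⟨hf.monic, hf.deg, hP.five, mon_add hP.mon _ _, ⟨hp, hpW⟩,
    ⟨hW, Nat.mul_pos (pow_pos hp.pos _) hW⟩, fun l hl h => ((hl.dvd_mul.1 h).elim
      (fun h' => (hl.dvd_of_dvd_pow h').trans hpW) id),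
    ⟨Dvd.dvd.trans (by norm_num) h6, Dvd.dvd.trans (by norm_num) h6⟩, h0, h1⟩
  have key : ∀ x : Ix Γ.m → ℤ, ∃ g : ℤ√(-(A0 : ℤ)),
      (⟨(Γ.gA x).eval t0, (Γ.gB x).eval t0⟩ : ℤ√(-(A0 : ℤ))) * ϖ = (p : ℤ√(-(A0 : ℤ))) ^ e * g ∧
        ((p ^ v * W1 : ℕ) : ℤ√(-(A0 : ℤ))) ∣ g - 1 := fun x => by
    have hm := DApi.mon Γ ok x
    obtain ⟨S, hS⟩ : ∃ S, Γ.gA x = As + C ((p : ℤ) ^ J * δ.re) +
        C ((p ^ J * (p ^ v * W1) : ℕ) : ℤ) * S := ⟨_, gA_eq Γ x⟩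
    obtain ⟨T, hT⟩ : ∃ T, Γ.gB x = Bs + C ((p : ℤ) ^ J * δ.im) +
        C ((p ^ J * (p ^ v * W1) : ℕ) : ℤ) * T := ⟨_, gB_eq Γ x⟩
    have hd' : ∀ U : ℤ[X], C ((p : ℤ) ^ J) ∣ C ((p ^ J * (p ^ v * W1) : ℕ) : ℤ) * U := fun U => by
      push_cast
      exact (hd _).mul_right _
    obtain ⟨γ, hγ⟩ := hP.cong _ _ hm
      (cg_of (by rw [hS, add_assoc, add_sub_cancel_left]; exact (hd _).add (hd' _)))
      (cg_of (by rw [hT, add_assoc, add_sub_cancel_left]; exact (hd _).add (hd' _)))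
    refine ⟨_, hγ, ?_⟩
    rw [add_sub_cancel_left, Nat.cast_mul, Nat.cast_pow]
    refine (hc.pow_left (m := v)).mul_dvd ((pow_dvd_pow _ hv').mul_right _)
      ((hc.pow_left (m := e)).symm.dvd_of_dvd_mul_left ?_)
    have e2 : (⟨(Γ.gA x).eval t0, (Γ.gB x).eval t0⟩ : ℤ√(-(A0 : ℤ))) =
        β + (p : ℤ√(-(A0 : ℤ))) ^ J * δ +
          (p : ℤ√(-(A0 : ℤ))) ^ J * ((p : ℤ√(-(A0 : ℤ))) ^ v * W1) * ⟨S.eval t0, T.eval t0⟩ := by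
      rw [hS, hT]
      simp only [eval_add, eval_mul, eval_C]
      rw [mk_add, mk_add]
      push_cast
      rfl
    rw [e2, hδ] at hγ
    refine ⟨(p : ℤ√(-(A0 : ℤ))) ^ J * (p : ℤ√(-(A0 : ℤ))) ^ v * ⟨S.eval t0, T.eval t0⟩ * ϖ -
      j * ((p : ℤ√(-(A0 : ℤ))) ^ e * i' * star ϖ - β) * ϖ - (p : ℤ√(-(A0 : ℤ))) ^ e * j', ?_⟩
    linear_combination -hγ + ((p : ℤ√(-(A0 : ℤ))) ^ e * i' * star ϖ - β) * ϖ * hij +
      (p : ℤ√(-(A0 : ℤ))) ^ e * hij' + (p : ℤ√(-(A0 : ℤ))) ^ e * i' * hn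
  have e1 : ∀ x, (cu0 t0 A0 ϖ e e').bet Γ x = ⟨(Γ.gA x).eval t0, (Γ.gB x).eval t0⟩ := fun x =>
    have hm := DApi.mon Γ ok x
    Zsqrtd.ext (hv_one hm.2.1.le t0) ((one_mul _).trans (hv_one (by have := hm.2.2; omega) t0))
  refine ⟨ok, ?_, hf.one, one_pos, isCoprime_one_right, fun l hl h => ?_, hP.nrm, fun x => ?_,
    fun x => ?_⟩
  · exact ((congrArg _ ((hv_one hf.deg.le t0).trans hf.val)).trans (neg_neg _)).symm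
  · exact absurd (Nat.dvd_one.1 (Int.natCast_dvd_natCast.1 h)) hl.ne_one
  · obtain ⟨g, h2, -⟩ := key x
    have h4 := (congrArg (· * (cu0 t0 A0 ϖ e e').ϖ) (e1 x)).trans h2
    rw [gam_eq (Γ := Γ) hp.ne_zero h4]
    exact h4
  · obtain ⟨g, h2, h3⟩ := key x
    have h4 := (congrArg (· * (cu0 t0 A0 ϖ e e').ϖ) (e1 x)).trans h2
    rw [gam_eq (Γ := Γ) hp.ne_zero h4]
    exact h3

end Pool.Agent.MP_f3836a_nt.VE
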