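import Pool.Agent.MP_f3836a_nt.VE.SpecE1

/-! Sums over blocks. -/

set_option autoImplicit false

namespace Pool.Agent.MP_f3836a_nt.VE

open Finset

namespace EBlk

theorem mem (S : Finset Pt) (N : ℕ) (T : Multiset Pt) :
    T ∈ Blk S N ↔ Nd T ∧ T.card = N ∧ ∀ z ∈ T, z ∈ S := by
  classical
  unfold Blk
  simp only [mem_filter, mem_image, mem_powersetCard]
  constructor
  · rintro ⟨⟨F, ⟨h1, h2⟩, rfl⟩, h3⟩
    exact ⟨h3, h2, fun z hz => h1 hz⟩
  · rintro ⟨h1, h2, h3⟩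
    exact ⟨⟨⟨T, Multiset.Nodup.of_map _ h1⟩, ⟨fun z hz => h3 z hz, h2⟩, rfl⟩, h1⟩

theorem nd_cons {z : Pt} {T : Multiset Pt} : Nd (z ::ₘ T) ↔ z.p ∉ T.map Pt.p ∧ Nd T := by
  unfold Nd
  rw [Multiset.map_cons, Multiset.nodup_cons]

theorem pw_cons (g : Pt → ℝ) (z : Pt) (T : Multiset Pt) : pw g (z ::ₘ T) = g z * pw g T := by
  unfold pw
  rw [Multiset.map_cons, Multiset.prod_cons]

theorem blk_zero (S : Finset Pt) : Blk S 0 = {0} := by
  ext T
  rw [mem, mem_singleton, Multiset.card_eq_zero]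
  exact ⟨fun h => h.2.1, by rintro rfl; simp [Nd]⟩

variable {S : Finset Pt} {g : Pt → ℝ}

theorem pw_nonneg (hg : ∀ z ∈ S, 0 ≤ g z) {N : ℕ} {T : Multiset Pt} (h : T ∈ Blk S N) :
    0 ≤ pw g T :=
  Multiset.prod_nonneg fun a ha => by
    obtain ⟨z, hz, rfl⟩ := Multiset.mem_map.1 ha
    exact hg z (((mem S N T).1 h).2.2 z hz)

theorem up (hg : ∀ z ∈ S, 0 ≤ g z) (n : ℕ) (S' : Finset Pt) (hS : S' ⊆ S)
    (B : Finset (Multiset Pt)) (hB : B ⊆ Blk S (n + 1)) (h : ∀ T ∈ B, ∃ z ∈ S', z ∈ T) :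
    ∑ T ∈ B, pw g T ≤ (∑ z ∈ S', g z) * ∑ T ∈ Blk S n, pw g T := by
  classical
  have hn : ∀ q ∈ S' ×ˢ Blk S n, 0 ≤ pw g (q.1 ::ₘ q.2) := fun q hq => by
    rw [pw_cons]
    exact mul_nonneg (hg _ (hS (mem_product.1 hq).1)) (pw_nonneg hg (mem_product.1 hq).2)
  have hn' : ∀ T ∈ (S' ×ˢ Blk S n).image fun q => q.1 ::ₘ q.2, 0 ≤ pw g T := fun T hT => by
    obtain ⟨q, hq, rfl⟩ := mem_image.1 hT
    exact hn q hq
  calc ∑ T ∈ B, pw g T ≤ ∑ T ∈ (S' ×ˢ Blk S n).image fun q => q.1 ::ₘ q.2, pw g T := by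
        refine sum_le_sum_of_subset_of_nonneg (fun T hT => ?_) fun T hT _ => hn' T hT
        obtain ⟨z, hz, hzT⟩ := h T hT
        obtain ⟨T', rfl⟩ := Multiset.exists_cons_of_mem hzT
        obtain ⟨h1, h2, h3⟩ := (mem _ _ _).1 (hB hT)
        refine mem_image.2 ⟨(z, T'), mem_product.2 ⟨hz, (mem _ _ _).2 ⟨(nd_cons.1 h1).2, ?_, ?_⟩⟩, rfl⟩
        · simpa using h2
        · exact fun w hw => h3 w (Multiset.mem_cons_of_mem hw)
    _ ≤ ∑ q ∈ S' ×ˢ Blk S n, pw g (q.1 ::ₘ q.2) := sum_image_le_of_nonneg hn'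
    _ = _ := by
        rw [sum_product, sum_mul_sum]
        simp only [pw_cons]

theorem upper (hg : ∀ z ∈ S, 0 ≤ g z) (n : ℕ) : ∑ T ∈ Blk S n, pw g T ≤ (∑ z ∈ S, g z) ^ n := by
  induction n with
  | zero => simp [blk_zero, pw]
  | succ n ih =>
    refine (up hg n S subset_rfl _ subset_rfl fun T hT => ?_).trans ?_
    · obtain ⟨-, h2, h3⟩ := (mem _ _ _).1 hT
      obtain ⟨z, hz⟩ := Multiset.card_pos_iff_exists_mem.1 (show 0 < T.card by omega)
      exact ⟨z, h3 z hz, hz⟩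
    · rw [pow_succ']
      exact mul_le_mul_of_nonneg_left ih (sum_nonneg hg)

theorem low (hg : ∀ z ∈ S, 0 ≤ g z) (n : ℕ) :
    ∑ T ∈ Blk S n, (∑ z ∈ S.filter fun z => z.p ∉ T.map Pt.p, g z) * pw g T
      ≤ (n + 1) * ∑ T ∈ Blk S (n + 1), pw g T := by
  classical
  set P := (Blk S n ×ˢ S).filter fun q : Multiset Pt × Pt => q.2.p ∉ q.1.map Pt.p with hP
  have hm : ∀ q ∈ P, q.2 ::ₘ q.1 ∈ Blk S (n + 1) := fun q hq => by
    rw [hP, mem_filter, mem_product, mem] at hq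
    obtain ⟨⟨⟨h1, h2, h3⟩, h4⟩, h5⟩ := hq
    refine (mem _ _ _).2 ⟨nd_cons.2 ⟨h5, h1⟩, by simpa using h2, fun w hw => ?_⟩
    rcases Multiset.mem_cons.1 hw with rfl | hw
    exacts [h4, h3 w hw]
  calc _ = ∑ q ∈ P, pw g (q.2 ::ₘ q.1) := by
        rw [hP, sum_filter, sum_product]
        refine sum_congr rfl fun T _ => ?_
        rw [sum_mul, sum_filter]
        simp only [pw_cons]
    _ = ∑ T ∈ Blk S (n + 1), ∑ q ∈ P.filter fun q => q.2 ::ₘ q.1 = T, pw g (q.2 ::ₘ q.1) :=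
        (sum_fiberwise_of_maps_to hm _).symm
    _ ≤ _ := by
        rw [mul_sum]
        refine sum_le_sum fun T hT => ?_
        rw [sum_congr rfl fun q hq => congrArg (pw g) (mem_filter.1 hq).2, sum_const, nsmul_eq_mul]
        refine mul_le_mul_of_nonneg_right ?_ (pw_nonneg hg hT)
        have h1 : (P.filter fun q => q.2 ::ₘ q.1 = T).card ≤ T.toFinset.card := by
          refine card_le_card_of_injOn Prod.snd (fun q hq => ?_) fun q hq q' hq' e => ?_
          · rw [mem_coe, Multiset.mem_toFinset, ← (mem_filter.1 hq).2]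
            exact Multiset.mem_cons_self _ _
          · have h := (mem_filter.1 hq).2.trans (mem_filter.1 hq').2.symm
            rw [e, Multiset.cons_inj_right] at h
            exact Prod.ext h e
        have h2 := (h1.trans T.toFinset_card_le).trans_eq ((mem _ _ _).1 hT).2.1
        exact_mod_cast h2

theorem old {g0 : ℝ} (h0 : 0 ≤ g0) (hg : ∀ z ∈ S, g z ≤ g0)
    (h2 : ∀ p : ℕ, (S.filter fun z => z.p = p).card ≤ 2) (M : Multiset ℕ) :
    ∑ z ∈ S.filter fun z => z.p ∈ M, g z ≤ 2 * M.card * g0 := by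
  classical
  have h1 : (S.filter fun z => z.p ∈ M).card ≤ 2 * M.card := by
    refine (card_le_mul_card_image_of_maps_to (f := Pt.p) (t := M.toFinset)
      (fun z hz => Multiset.mem_toFinset.2 (mem_filter.1 hz).2) 2 fun p _ => ?_).trans ?_
    · exact (card_le_card (filter_subset_filter _ (filter_subset _ _))).trans (h2 p)
    · exact Nat.mul_le_mul_left 2 M.toFinset_card_le
  refine (sum_le_card_nsmul _ _ g0 fun z hz => hg z (mem_filter.1 hz).1).trans ?_
  rw [nsmul_eq_mul]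
  exact mul_le_mul_of_nonneg_right (by exact_mod_cast h1) h0

end EBlk

open EBlk in
theorem rBlk : BlkS := by
  classical
  refine fun S N => ⟨mem S N, fun g g0 h0 hg => ?_⟩
  have hg1 : ∀ z ∈ S, 0 ≤ g z := fun z hz => (hg z hz).1
  have hg2 : ∀ z ∈ S, g z ≤ g0 := fun z hz => (hg z hz).2
  refine ⟨upper hg1 N, fun h2 => ⟨fun hN => ?_, fun l => ?_⟩⟩
  · have key : ∀ n ≤ N, (∑ z ∈ S, g z - 2 * N * g0) ^ n / n.factorial ≤ ∑ T ∈ Blk S n, pw g T := by
      intro n hn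
      induction n with
      | zero => simp [blk_zero, pw]
      | succ n ih =>
        have h3 : (∑ z ∈ S, g z - 2 * N * g0) * ∑ T ∈ Blk S n, pw g T
            ≤ (n + 1) * ∑ T ∈ Blk S (n + 1), pw g T := by
          refine le_trans ?_ (low hg1 n)
          rw [mul_sum]
          refine sum_le_sum fun T hT => mul_le_mul_of_nonneg_right ?_ (pw_nonneg hg1 hT)
          have h4 := old h0 hg2 h2 (T.map Pt.p)
          rw [Multiset.card_map, ((mem _ _ _).1 hT).2.1] at h4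
          have h5 := sum_filter_add_sum_filter_not S (fun z => z.p ∈ T.map Pt.p) g
          have h6 : (n : ℝ) * g0 ≤ N * g0 :=
            mul_le_mul_of_nonneg_right (by exact_mod_cast n.le_succ.trans hn) h0
          linarith
        have h7 := mul_le_mul_of_nonneg_left (ih (n.le_succ.trans hn)) (sub_nonneg.2 hN)
        rw [Nat.factorial_succ, Nat.cast_mul, pow_succ', mul_comm ((n + 1 : ℕ) : ℝ), ← div_div,
          div_le_iff₀ (by positivity), mul_div_assoc]
        push_cast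
        linarith
    exact key N le_rfl
  · rcases N with _ | n
    · simp [blk_zero, sum_filter, h0]
    · refine (up hg1 n (S.filter fun z => z.p ∈ ({l} : Multiset ℕ)) (filter_subset _ _) _
        (filter_subset _ _) fun T hT => ?_).trans ?_
      · obtain ⟨z, hz, rfl⟩ := Multiset.mem_map.1 (mem_filter.1 hT).2
        exact ⟨z, mem_filter.2 ⟨((mem _ _ _).1 (mem_filter.1 hT).1).2.2 z hz, by simp⟩, hz⟩
      · have h4 := old h0 hg2 h2 {l}
        rw [Multiset.card_singleton, Nat.cast_one, mul_one] at h4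
        exact mul_le_mul h4 (upper hg1 n) (sum_nonneg fun T hT => pw_nonneg hg1 hT) (by positivity)

end Pool.Agent.MP_f3836a_nt.VE
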