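import Pool.Agent.MP_f3836a_nt.VE.SpecE1

/-! Part E: residue classes and links. -/

set_option autoImplicit false

namespace Pool.Agent.MP_f3836a_nt.VE

open Finset

namespace ECnt

theorem card_eq (A B s : ℤ) (m : ℕ) (hm : 0 < m) (hAB : A ≤ B) :
    ((((Ico A B).filter fun a => (m : ℤ) ∣ a - s).card : ℤ)) =
      ⌈((B : ℚ) - s) / m⌉ - ⌈((A : ℚ) - s) / m⌉ := by
  have hm' : (0 : ℤ) < m := by exact_mod_cast hm
  have h := Int.Ico_filter_modEq_card A B hm' s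
  have e : ((Ico A B).filter fun a => (m : ℤ) ∣ a - s) =
      (Ico A B).filter fun x => x ≡ s [ZMOD (m : ℤ)] := by
    refine filter_congr fun x _ => ?_
    rw [Int.modEq_comm, Int.modEq_iff_dvd]
  rw [e, h]
  have hq : (0 : ℚ) < m := by exact_mod_cast hm
  have hle : ⌈((A : ℚ) - s) / m⌉ ≤ ⌈((B : ℚ) - s) / m⌉ := by
    refine Int.ceil_le_ceil (div_le_div_of_nonneg_right ?_ hq.le)
    have : (A : ℚ) ≤ B := by exact_mod_cast hAB
    linarith
  push_cast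
  exact max_eq_left (by omega)

theorem approx (A B s : ℤ) (m : ℕ) (hm : 0 < m) (hAB : A ≤ B) :
    |(((Ico A B).filter fun a => (m : ℤ) ∣ a - s).card : ℝ) - ((B : ℝ) - A) / m| ≤ 1 := by
  have h := card_eq A B s m hm hAB
  have h1 := Int.le_ceil (((B : ℚ) - s) / m)
  have h2 := Int.ceil_lt_add_one (((B : ℚ) - s) / m)
  have h3 := Int.le_ceil (((A : ℚ) - s) / m)
  have h4 := Int.ceil_lt_add_one (((A : ℚ) - s) / m)
  have e : ((B : ℚ) - A) / m = ((B : ℚ) - s) / m - ((A : ℚ) - s) / m := by ring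
  have hq : ((((Ico A B).filter fun a => (m : ℤ) ∣ a - s).card : ℚ)) =
      (⌈((B : ℚ) - s) / m⌉ : ℚ) - (⌈((A : ℚ) - s) / m⌉ : ℚ) := by exact_mod_cast h
  have key : |((((Ico A B).filter fun a => (m : ℤ) ∣ a - s).card : ℚ)) - ((B : ℚ) - A) / m| ≤ 1 := by
    rw [hq, e, abs_le]
    constructor <;> linarith
  exact_mod_cast key

theorem exact (A s d : ℤ) (m : ℕ) (hm : 0 < m) (hd : 0 ≤ d) :
    ((((Ico A (A + m * d)).filter fun a => (m : ℤ) ∣ a - s).card : ℤ)) = d := by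
  rw [card_eq A (A + m * d) s m hm (by nlinarith [Int.natCast_nonneg m])]
  have hq : (m : ℚ) ≠ 0 := by exact_mod_cast hm.ne'
  have e : (((A + m * d : ℤ) : ℚ) - s) / m = ((A : ℚ) - s) / m + (d : ℤ) := by
    push_cast
    field_simp
    ring
  rw [e, Int.ceil_add_intCast]
  ring

theorem crt (q q' : ℕ) (r r' : ℤ) (h : q.Coprime q') : ∃ s : ℤ, ∀ a : ℤ,
    ((q : ℤ) ∣ a - r ∧ (q' : ℤ) ∣ a - r') ↔ ((q * q' : ℕ) : ℤ) ∣ a - s := by
  have hc : IsCoprime (q : ℤ) (q' : ℤ) := Nat.isCoprime_iff_coprime.2 h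
  obtain ⟨u, v, huv⟩ := hc
  refine ⟨r + q * (u * (r' - r)), fun a => ?_⟩
  have e1 : a - (r + q * (u * (r' - r))) = (a - r) - q * (u * (r' - r)) := by ring
  have e2 : a - (r + q * (u * (r' - r))) = (a - r') + q' * (v * (r' - r)) := by
    linear_combination (r - r') * huv
  push_cast
  constructor
  · rintro ⟨h1, h2⟩
    refine IsCoprime.mul_dvd ⟨u, v, huv⟩ ?_ ?_
    · rw [e1]
      exact dvd_sub h1 (dvd_mul_right _ _)
    · rw [e2]
      exact dvd_add h2 (dvd_mul_right _ _)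
  · intro h3
    have h4 : (q : ℤ) ∣ a - (r + q * (u * (r' - r))) := (dvd_mul_right _ _).trans h3
    have h5 : (q' : ℤ) ∣ a - (r + q * (u * (r' - r))) := (dvd_mul_left _ _).trans h3
    rw [e1] at h4
    rw [e2] at h5
    exact ⟨(dvd_sub_left (dvd_mul_right _ _)).1 h4, (dvd_add_left (dvd_mul_right _ _)).1 h5⟩

theorem one (t0 : ℤ) (W k : ℕ) (hW : 0 < W) (hk : W ∣ k) : ((HH0 t0 W k).card : ℝ) = Lc W k ∧
    ∀ (q : ℕ) (r : ℤ), 0 < q → q.Coprime W →
      |(((HH0 t0 W k).filter fun a => (q : ℤ) ∣ a - r).card : ℝ) - Lc W k / q| ≤ 1 := by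
  have hW' : (W : ℝ) ≠ 0 := by exact_mod_cast hW.ne'
  constructor
  · obtain ⟨c, rfl⟩ := hk
    have e : (t0 + 1) * ((W * c : ℕ) : ℤ) ^ 2 =
        t0 * ((W * c : ℕ) : ℤ) ^ 2 + W * ((W : ℤ) * (c : ℤ) ^ 2) := by
      push_cast
      ring
    have h := exact (t0 * ((W * c : ℕ) : ℤ) ^ 2) 1 ((W : ℤ) * (c : ℤ) ^ 2) W hW (by positivity)
    unfold HH0 Lc
    rw [e]
    have h' : ((((Ico (t0 * ((W * c : ℕ) : ℤ) ^ 2)
        (t0 * ((W * c : ℕ) : ℤ) ^ 2 + W * ((W : ℤ) * (c : ℤ) ^ 2))).filter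
        fun a => (W : ℤ) ∣ a - 1).card : ℝ)) = (W : ℝ) * (c : ℝ) ^ 2 := by exact_mod_cast h
    rw [h']
    push_cast
    field_simp
  · intro q r hq hc
    obtain ⟨s, hs⟩ := crt W q 1 r hc.symm
    have e : ((HH0 t0 W k).filter fun a => (q : ℤ) ∣ a - r) =
        (Ico (t0 * (k : ℤ) ^ 2) ((t0 + 1) * (k : ℤ) ^ 2)).filter
          fun a => ((W * q : ℕ) : ℤ) ∣ a - s := by
      unfold HH0
      rw [filter_filter]
      exact filter_congr fun a _ => hs a
    have h := approx (t0 * (k : ℤ) ^ 2) ((t0 + 1) * (k : ℤ) ^ 2) s (W * q) (Nat.mul_pos hW hq)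
      (by nlinarith [sq_nonneg (k : ℤ)])
    have hq' : (q : ℝ) ≠ 0 := by exact_mod_cast hq.ne'
    have e2 : ((((t0 + 1) * (k : ℤ) ^ 2 : ℤ) : ℝ) - ((t0 * (k : ℤ) ^ 2 : ℤ) : ℝ)) /
        ((W * q : ℕ) : ℝ) = Lc W k / q := by
      unfold Lc
      push_cast
      field_simp
      ring
    rw [e, ← e2]
    exact h

theorem cop (n : ℕ) (T : Multiset Pt) (h : ∀ z ∈ T, z.p.Prime ∧ ¬z.p ∣ n) : (nT T).Coprime n := by
  unfold nT
  refine Nat.Coprime.symm (Multiset.prod_induction (fun m => n.Coprime m) _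
    (fun a b ha hb => Nat.Coprime.mul_right ha hb) (Nat.coprime_one_right n) ?_)
  intro m hm
  obtain ⟨z, hz, rfl⟩ := Multiset.mem_map.1 hm
  exact ((Nat.Prime.coprime_iff_not_dvd (h z hz).1).2 (h z hz).2).symm

theorem three (b : ℤ) (T : Multiset Pt) : Nd T → (∀ z ∈ T, z.p.Prime) → ∃ r : ℤ, ∀ a : ℤ,
    (∀ z ∈ T, On a b z) ↔ (nT T : ℤ) ∣ a - r := by
  induction T using Multiset.induction_on with
  | empty => exact fun _ _ => ⟨0, fun a => by simp [nT]⟩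
  | cons z T ih =>
    intro hN hP
    unfold Nd at hN
    rw [Multiset.map_cons, Multiset.nodup_cons] at hN
    obtain ⟨r, hr⟩ := ih hN.2 fun w hw => hP w (Multiset.mem_cons_of_mem hw)
    have hz := hP z (Multiset.mem_cons_self z T)
    have hc : (nT T).Coprime z.p := by
      refine cop z.p T fun w hw => ⟨hP w (Multiset.mem_cons_of_mem hw), fun hd => hN.1 ?_⟩
      have := (Nat.prime_dvd_prime_iff_eq (hP w (Multiset.mem_cons_of_mem hw)) hz).1 hd
      exact Multiset.mem_map.2 ⟨w, hw, this⟩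
    obtain ⟨s, hs⟩ := crt z.p (nT T) (b * z.t) r hc.symm
    refine ⟨s, fun a => ?_⟩
    have e : nT (z ::ₘ T) = z.p * nT T := by
      unfold nT
      rw [Multiset.map_cons, Multiset.prod_cons]
    rw [e, ← hs a, ← hr a, Multiset.forall_mem_cons]
    unfold On
    rw [dvd_sub_comm]

end ECnt

theorem rCnt : CntS := by
  refine ⟨ECnt.one, ECnt.crt, ECnt.three, ?_⟩
  intro t0 b W k T hW hk hN hP
  obtain ⟨r, hr⟩ := ECnt.three b T hN fun z hz => (hP z hz).1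
  have hpos : 0 < nT T := by
    unfold nT
    refine Multiset.prod_pos fun m hm => ?_
    obtain ⟨z, hz, rfl⟩ := Multiset.mem_map.1 hm
    exact (hP z hz).1.pos
  have h := (ECnt.one t0 W k hW hk).2 (nT T) r hpos (ECnt.cop W T hP)
  have e : lk (HH0 t0 W k) b T = (HH0 t0 W k).filter fun a => (nT T : ℤ) ∣ a - r := by
    unfold lk
    ext a
    simp only [mem_filter, hr a]
  rw [e, PT, mul_one_div]
  exact h

end Pool.Agent.MP_f3836a_nt.VE
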