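import Pool.Agent.MP_f3836a_nt.VE.SpecE0

/-! Part E: the identities on events and the zeros over one prime. -/

set_option autoImplicit false

namespace Pool.Agent.MP_f3836a_nt.VE

open Polynomial Finset

namespace EId

theorem ng_monic {f A B : ℤ[X]} {m : ℕ} (hf : f.natDegree = 3) (h : Mon m A B) :
    (Ng f A B).Monic ∧ (Ng f A B).natDegree = 2 * m := by
  obtain ⟨h1, h2, h3⟩ := h
  have hA : (A ^ 2).Monic := h1.pow 2
  have hd : (A ^ 2).natDegree = 2 * m := by rw [h1.natDegree_pow, h2]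
  have hl : (f * B ^ 2).natDegree < (A ^ 2).natDegree := by
    have h4 : (f * B ^ 2).natDegree ≤ f.natDegree + (B ^ 2).natDegree := natDegree_mul_le
    have h5 : (B ^ 2).natDegree ≤ 2 * B.natDegree := natDegree_pow_le
    omega
  refine ⟨hA.sub_of_left (degree_lt_degree hl), ?_⟩
  unfold Ng
  rw [natDegree_sub_eq_left_of_natDegree_lt hl, hd]

theorem hv_one {P : ℤ[X]} {d : ℕ} (h : P.natDegree ≤ d) (a : ℤ) :
    hv P d a (1 ^ 2) = P.eval a := by
  unfold hv
  rw [eval_eq_sum_range' (Nat.lt_succ_of_le h)]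
  simp

theorem cg_add {q w : ℤ} {P P' : ℤ[X]} {n : ℕ} (h : Cg q P P') (hw : q ∣ w) (x : Fin n → ℤ) :
    Cg q (P + ∑ i : Fin n, monomial i (w * x i)) P' := by
  intro j
  rw [coeff_add, add_sub_right_comm]
  refine dvd_add (h j) ?_
  rw [finsetSum_coeff]
  refine dvd_sum fun i _ => ?_
  rw [coeff_monomial]
  split_ifs
  · exact hw.mul_right _
  · exact dvd_zero _

theorem cast_inj {p a b : ℕ} (ha : a < p) (hb : b < p) (h : (a : ZMod p) = b) : a = b := by
  have := (ZMod.natCast_eq_natCast_iff' a b p).1 h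
  rwa [Nat.mod_eq_of_lt ha, Nat.mod_eq_of_lt hb] at this

end EId

theorem rId : OfId := by
  intro api Γ t0 A0 J e e' k As Bs ϖ ψ ψ0 φ c c0 hΓ hI hA hB hW x M hM
  refine ⟨?_, ?_⟩
  · intro a ha hc hon hE
    obtain ⟨h1, h2, h3, h4, -⟩ := api Γ _ hΓ hc x
    obtain ⟨hnd, hin, hn⟩ := hE
    have hI' := mem_Ico.1 (mem_filter.1 ha).1
    have key := hI.idh (Γ.gA x) (Γ.gB x) a k M h1 hc.kpos hc.cop hI'.1 hI'.2.le hnd
      (fun z hz => ⟨(hM z hz).1, hon z hz, (h4 z (hM z hz) (hon z hz)).1 (hin z hz),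
        fun hk => (hM z hz).2 (hc.rad z.p (hM z hz).1.1 hk)⟩) (by
        rw [hn]
        have h5 : ((cuH Γ.f k a).gam Γ x).norm = ((cuH Γ.f k a).bet Γ x).norm := by
          simpa [cuH] using h3
        rw [h5, h2]
        rfl)
    simpa using key
  · intro hc hon hE
    obtain ⟨h1, h2, h3, h4, -⟩ := api Γ _ hΓ hc x
    obtain ⟨hnd, hin, hn⟩ := hE
    have hW' : (Γ.p0 : ℤ) ^ J ∣ (Γ.W' : ℤ) := by exact_mod_cast hW
    refine hI.id0 (Γ.gA x) (Γ.gB x) M h1 (EId.cg_add hA hW' fun i => x (Sum.inl i))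
      (EId.cg_add hB hW' fun i => x (Sum.inr i)) hnd (fun z hz => ⟨(hM z hz).1, ?_,
        (h4 z (hM z hz) (hon z hz)).1 (hin z hz), fun hp => (hM z hz).2 (hp ▸ hΓ.p0W.2)⟩) ?_
    · have := hon z hz
      simpa [Cu.on, cu0] using this
    · rw [hn, ← EId.hv_one (EId.ng_monic hΓ.deg h1).2.le t0]
      have h5 := h3
      rw [h2] at h5
      exact h5

theorem rZer : ZerS := by
  classical
  intro f A B m p S hf _ hM hS
  rcases S.eq_empty_or_nonempty with rfl | ⟨z0, hz0⟩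
  · simp
  have hp : p.Prime := (hS z0 hz0).2.1 ▸ (hS z0 hz0).1.1
  have : Fact p.Prime := ⟨hp⟩
  obtain ⟨hmon, hdeg⟩ := EId.ng_monic hf hM
  set P : (ZMod p)[X] := (Ng f A B).map (Int.castRingHom (ZMod p)) with hP
  have hP0 : P ≠ 0 := (hmon.map _).ne_zero
  have hPd : P.natDegree = 2 * m := by rw [hP, hmon.natDegree_map, hdeg]
  have hy : ∀ z ∈ S, ((z.y : ℕ) : ZMod p) ^ 2 = ((f.eval (z.t : ℤ) : ℤ) : ZMod p) := by
    intro z hz
    obtain ⟨h1, h2, -⟩ := hS z hz
    have h3 := h1.2.2.2.2.2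
    rw [h2] at h3
    have h4 := (ZMod.intCast_zmod_eq_zero_iff_dvd _ p).2 h3
    push_cast at h4
    exact sub_eq_zero.1 h4
  have him : S.image (fun z => z.t) ⊆
      (range p).filter fun t : ℕ => (t : ZMod p) ∈ P.roots := by
    intro t ht
    obtain ⟨z, hz, rfl⟩ := mem_image.1 ht
    obtain ⟨h1, h2, h3⟩ := hS z hz
    refine mem_filter.2 ⟨mem_range.2 (h2 ▸ h1.2.2.1), (mem_roots hP0).2 ?_⟩
    have h4 : ((z.t : ℕ) : ZMod p) = Int.castRingHom (ZMod p) (z.t : ℤ) := by simp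
    rw [IsRoot.def, hP, h4, eval_map_apply]
    unfold Zr at h3
    rw [h2] at h3
    have h5 := (ZMod.intCast_zmod_eq_zero_iff_dvd _ p).2 h3
    have h6 := hy z hz
    simp only [Ng, eval_sub, eval_pow, eval_mul, eq_intCast]
    push_cast at h5 ⊢
    rw [← h6]
    linear_combination (((A.eval (z.t : ℤ) : ℤ) : ZMod p) -
      ((B.eval (z.t : ℤ) : ℤ) : ZMod p) * (z.y : ZMod p)) * h5
  have hc1 : (S.image fun z => z.t).card ≤ 2 * m := by
    refine (card_le_card him).trans ?_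
    refine le_trans ?_ ((Multiset.toFinset_card_le P.roots).trans ((card_roots' P).trans hPd.le))
    refine card_le_card_of_injOn (fun t : ℕ => (t : ZMod p)) ?_ ?_
    · intro t ht
      exact Multiset.mem_toFinset.2 (mem_filter.1 ht).2
    · intro t ht t' ht' h
      exact EId.cast_inj (mem_range.1 (mem_filter.1 ht).1) (mem_range.1 (mem_filter.1 ht').1) h
  have hc2 : ∀ t ∈ S.image (fun z => z.t), (S.filter fun z => z.t = t).card ≤ 2 := by
    intro t _
    refine le_trans ?_ ((Multiset.toFinset_card_le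
      (nthRoots 2 ((f.eval (t : ℤ) : ℤ) : ZMod p))).trans (card_nthRoots 2 _))
    refine card_le_card_of_injOn (fun z => ((z.y : ℕ) : ZMod p)) ?_ ?_
    · intro z hz
      obtain ⟨h1, h2⟩ := mem_filter.1 hz
      refine Multiset.mem_toFinset.2 ((mem_nthRoots (by norm_num)).2 ?_)
      rw [← h2]
      exact hy z h1
    · intro z hz z' hz' h
      obtain ⟨h1, h2⟩ := mem_filter.1 hz
      obtain ⟨h1', h2'⟩ := mem_filter.1 hz'
      obtain ⟨a1, a2, -⟩ := hS z h1
      obtain ⟨b1, b2, -⟩ := hS z' h1'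
      have h3 : z.y = z'.y := EId.cast_inj (a2 ▸ a1.2.2.2.2.1) (b2 ▸ b1.2.2.2.2.1) h
      cases z
      cases z'
      simp only at h2 h2' h3 a2 b2
      rw [h2, h2', h3, a2, b2]
  have := card_le_mul_card_image S 2 hc2
  omega

end Pool.Agent.MP_f3836a_nt.VE
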