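import Pool.Agent.MP_f3836a_nt.VE.SpecE0
import Pool.Agent.MP_f3836a_nt.VE.DApi

/-! Row ENg: the size of the norm polynomial on the interval. -/

set_option autoImplicit false

namespace Pool.Agent.MP_f3836a_nt.VE

open Polynomial Finset

namespace ENg

theorem sum_le {n m : ℕ} (hn : n ≤ m) (s : Finset (Fin n)) (y : Fin n → ℝ) (K t : ℝ) (hK : 0 ≤ K)
    (hy : ∀ i ∈ s, |y i| ≤ K) :
    |∑ i ∈ s, y i * t ^ (i : ℕ)| ≤ K * ∑ i ∈ range m, |t| ^ i := by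
  refine (abs_sum_le_sum_abs _ _).trans ?_
  have h1 : ∑ i ∈ s, |y i * t ^ (i : ℕ)| ≤ ∑ i ∈ s, K * |t| ^ (i : ℕ) :=
    sum_le_sum fun i hi => by
      rw [abs_mul, abs_pow]
      exact mul_le_mul_of_nonneg_right (hy i hi) (by positivity)
  have h2 : ∑ i ∈ s, K * |t| ^ (i : ℕ) ≤ ∑ i : Fin n, K * |t| ^ (i : ℕ) :=
    sum_le_sum_of_subset_of_nonneg (subset_univ s) fun i _ _ => by positivity
  have h3 : ∑ i : Fin n, K * |t| ^ (i : ℕ) = ∑ i ∈ range n, K * |t| ^ i :=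
    Fin.sum_univ_eq_sum_range (fun i => K * |t| ^ i) n
  have h4 : ∑ i ∈ range n, K * |t| ^ i ≤ ∑ i ∈ range m, K * |t| ^ i :=
    sum_le_sum_of_subset_of_nonneg (range_subset_range.2 hn) fun i _ _ => by positivity
  rw [mul_sum]
  linarith

theorem aeval_mon {n : ℕ} (w : ℕ) (y : Fin n → ℤ) (t : ℝ) :
    aeval t (∑ i : Fin n, monomial (i : ℕ) ((w : ℤ) * y i)) =
      (w : ℝ) * ∑ i : Fin n, (y i : ℝ) * t ^ (i : ℕ) := by
  rw [map_sum, mul_sum]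
  refine sum_congr rfl fun i _ => ?_
  rw [aeval_monomial, eq_intCast]
  push_cast
  ring

theorem abs_le_of_Ico {z : ℤ} {K : ℕ} (h : z ∈ Ico (0 : ℤ) K) : |(z : ℝ)| ≤ K := by
  obtain ⟨h0, h1⟩ := mem_Ico.1 h
  rw [abs_of_nonneg (by exact_mod_cast h0)]
  exact_mod_cast h1.le

theorem alg (w H H1 c a b f x0 u v : ℝ) (hw : 1 ≤ w) (h1 : 1 ≤ H1) (hc : 1 ≤ c)
    (hH : 8 * c ^ 2 * H1 ≤ H) (ha : |a| ≤ c) (hb : |b| ≤ c) (hf : |f| ≤ c) (hf0 : f < 0)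
    (hx : H ≤ x0) (hx' : x0 ≤ 2 * H) (hu : |u| ≤ H1 * c) (hv : |v| ≤ H1 * c) :
    (w * H) ^ 2 / 2 ≤ (a + w * (x0 + u)) ^ 2 - f * (b + w * v) ^ 2 ∧
      (a + w * (x0 + u)) ^ 2 - f * (b + w * v) ^ 2 ≤ 6 * (w * H) ^ 2 := by
  have hw0 : 0 ≤ w := by linarith
  have hwH : 1 ≤ w * H1 := one_le_mul_of_one_le_of_one_le hw h1
  have k : ∀ a u : ℝ, |a| ≤ c → |u| ≤ H1 * c → |a + w * u| ≤ 2 * c * (w * H1) := fun a u ha hu => by
    have e1 : |w * u| ≤ w * (H1 * c) := by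
      rw [abs_mul, abs_of_nonneg hw0]
      exact mul_le_mul_of_nonneg_left hu hw0
    have e2 : c * 1 ≤ c * (w * H1) := mul_le_mul_of_nonneg_left hwH (by linarith)
    have e3 := abs_add_le a (w * u)
    linarith
  have hP : 8 * c ^ 2 * (w * H1) ≤ w * H := by
    have := mul_le_mul_of_nonneg_left hH hw0
    linarith
  have hx1 : w * H ≤ w * x0 := mul_le_mul_of_nonneg_left hx hw0
  have hx2 : w * x0 ≤ 2 * (w * H) := by
    have := mul_le_mul_of_nonneg_left hx' hw0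
    linarith
  have k1 := abs_le.1 (k a u ha hu)
  have k2 := k b v hb hv
  have e : a + w * (x0 + u) = w * x0 + (a + w * u) := by ring
  rw [e]
  generalize a + w * u = p at k1 ⊢
  generalize b + w * v = q at k2 ⊢
  generalize w * x0 = X at hx1 hx2 ⊢
  generalize w * H = P at hP hx1 hx2 ⊢
  generalize w * H1 = Q at hP k1 k2 hwH
  have hQ : 0 ≤ c * Q := by positivity
  have hc2 : c * Q * 1 ≤ c * Q * c := mul_le_mul_of_nonneg_left hc hQ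
  have hp : 8 * (c * Q) ≤ P := by linarith
  have hP0 : 0 ≤ P := by linarith
  have l1 : 3 / 4 * P ≤ X + p := by linarith [k1.1]
  have l2 : X + p ≤ 9 / 4 * P := by linarith [k1.2]
  have l3 : (3 / 4 * P) ^ 2 ≤ (X + p) ^ 2 := pow_le_pow_left₀ (by linarith) l1 2
  have l4 : (X + p) ^ 2 ≤ (9 / 4 * P) ^ 2 := pow_le_pow_left₀ (by linarith) l2 2
  have l5 : q ^ 2 ≤ (2 * c * Q) ^ 2 := by
    rw [← sq_abs q]
    exact pow_le_pow_left₀ (abs_nonneg q) k2 2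
  have l6 : 0 ≤ -f * q ^ 2 := mul_nonneg (by linarith) (sq_nonneg q)
  have l7 : -f * q ^ 2 ≤ c * (2 * c * Q) ^ 2 :=
    mul_le_mul (by linarith [(abs_le.1 hf).1]) l5 (sq_nonneg q) (by linarith)
  have l8 : (8 * (c * Q)) * (8 * c ^ 2 * Q) ≤ P * P := mul_le_mul hp hP (by positivity) hP0
  have l9 := sq_nonneg P
  constructor
  · linarith
  · linarith

theorem ngR (Γ : Gf) (t0 : ℤ) (c : ℝ) (h : Γ.Ok) (hc : 1 ≤ c) (hH : 8 * c ^ 2 * Γ.H1 ≤ Γ.H)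
    (hb : ∀ t : ℝ, (t0 : ℝ) ≤ t → t ≤ t0 + 1 → aeval t Γ.f < 0 ∧ |aeval t Γ.As| ≤ c ∧
      |aeval t Γ.Bs| ≤ c ∧ |aeval t Γ.f| ≤ c ∧ ∑ i ∈ range Γ.m, |t| ^ i ≤ c) : NgR Γ t0 := by
  intro x hx t h0 h1
  obtain ⟨b0, b1, b2, b3, b4⟩ := hb t h0 h1
  have h5 := h.five
  have hx' := Fintype.mem_piFinset.1 hx
  let i0 : Fin Γ.m := ⟨0, by omega⟩
  have x0 : x (Sum.inl i0) ∈ Ico (Γ.H : ℤ) (2 * Γ.H) := hx' (Sum.inl i0)
  have x1 : ∀ i ∈ univ.erase i0, |(x (Sum.inl i) : ℝ)| ≤ Γ.H1 := fun i hi => by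
    have a := hx' (Sum.inl i)
    have ne : (i : ℕ) ≠ 0 := fun e => (mem_erase.1 hi).1 (Fin.ext e)
    rw [Sum.elim_inl, if_neg ne] at a
    exact abs_le_of_Ico a
  have x2 : ∀ i ∈ (univ : Finset (Fin (Γ.m - 1))), |(x (Sum.inr i) : ℝ)| ≤ Γ.H1 := fun i _ =>
    abs_le_of_Ico (hx' (Sum.inr i))
  have n1 : (0 : ℝ) ≤ Γ.H1 := Nat.cast_nonneg _
  have s1 := (sum_le le_rfl _ _ _ t n1 x1).trans (mul_le_mul_of_nonneg_left b4 n1)
  have s2 := (sum_le (Nat.sub_le Γ.m 1) _ _ _ t n1 x2).trans (mul_le_mul_of_nonneg_left b4 n1)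
  have eA : aeval t (Γ.gA x) = aeval t Γ.As + (Γ.W' : ℝ) * ((x (Sum.inl i0) : ℝ) +
      ∑ i ∈ univ.erase i0, (x (Sum.inl i) : ℝ) * t ^ (i : ℕ)) := by
    unfold Gf.gA
    rw [map_add, aeval_mon, ← add_sum_erase univ _ (mem_univ i0)]
    simp only [i0, pow_zero, mul_one]
  have eB : aeval t (Γ.gB x) = aeval t Γ.Bs + (Γ.W' : ℝ) *
      ∑ i : Fin (Γ.m - 1), (x (Sum.inr i) : ℝ) * t ^ (i : ℕ) := by
    unfold Gf.gB
    rw [map_add, aeval_mon]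
  obtain ⟨y0, y1⟩ := mem_Ico.1 x0
  unfold Ng
  rw [map_sub, map_mul, map_pow, map_pow, eA, eB]
  exact alg _ _ Γ.H1 c _ _ _ _ _ _ (by exact_mod_cast h.pos.2) (by exact_mod_cast h.side.1) hc hH
    b1 b2 b3 b0 (by exact_mod_cast y0) (by exact_mod_cast y1.le) s1 s2

theorem log_six : Real.log 6 ≤ 2 := by
  rw [Real.log_le_iff_le_exp (by norm_num)]
  have h1 := Real.exp_one_gt_d9
  have h2 : Real.exp 2 = Real.exp 1 * Real.exp 1 := by
    rw [← Real.exp_add]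
    norm_num
  rw [h2]
  nlinarith

theorem log_near {N P : ℝ} (hP : 0 < P) (h1 : P ^ 2 / 2 ≤ N) (h2 : N ≤ 6 * P ^ 2) :
    |Real.log N - 2 * Real.log P| ≤ 2 := by
  have h0 : 0 < P ^ 2 := by positivity
  have e : Real.log (P ^ 2) = 2 * Real.log P := by
    rw [Real.log_pow]
    norm_num
  have a := Real.log_le_log (by linarith) h2
  have b : Real.log (P ^ 2) ≤ Real.log (6 * N) := Real.log_le_log h0 (by linarith)
  rw [Real.log_mul (by norm_num) h0.ne', e] at a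
  rw [Real.log_mul (by norm_num) (by linarith), e] at b
  have := log_six
  rw [abs_le]
  constructor <;> linarith

end ENg

theorem rNg : NgS := by
  intro Γ t0 A0 hC
  have cont : Continuous fun t : ℝ => |aeval t Γ.As| + |aeval t Γ.Bs| + |aeval t Γ.f| +
      ∑ i ∈ range Γ.m, |t| ^ i :=
    ((Γ.As.continuous_aeval.abs.add Γ.Bs.continuous_aeval.abs).add Γ.f.continuous_aeval.abs).add
      (continuous_finsetSum _ fun i _ => continuous_abs.pow i)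
  obtain ⟨c, hc⟩ := (isCompact_Icc (a := (t0 : ℝ)) (b := t0 + 1)).bddAbove_image cont.continuousOn
  refine ⟨8 * max c 1 ^ 2, fun H H1 h hH => ENg.ngR _ t0 (max c 1) h (le_max_right _ _) hH ?_⟩
  intro t h0 h1
  have k : |aeval t Γ.As| + |aeval t Γ.Bs| + |aeval t Γ.f| + ∑ i ∈ range Γ.m, |t| ^ i ≤ c :=
    hc (Set.mem_image_of_mem _ ⟨h0, h1⟩)
  have a0 := le_max_left c 1
  have a1 := abs_nonneg (aeval t Γ.As)
  have a2 := abs_nonneg (aeval t Γ.Bs)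
  have a3 := abs_nonneg (aeval t Γ.f)
  have a4 : 0 ≤ ∑ i ∈ range Γ.m, |t| ^ i := sum_nonneg fun i _ => by positivity
  change aeval t Γ.f < 0 ∧ |aeval t Γ.As| ≤ _ ∧ |aeval t Γ.Bs| ≤ _ ∧ |aeval t Γ.f| ≤ _ ∧
    ∑ i ∈ range Γ.m, |t| ^ i ≤ _
  exact ⟨hC.neg t h0 h1, by linarith, by linarith, by linarith, by linarith⟩

theorem rNr : OfNr := by
  intro api Γ t0 c h hc hN a0 a1 x hx
  obtain ⟨hm, e1, e2, -⟩ := api Γ c h hc x
  have hk : (0 : ℝ) < (c.k : ℝ) ^ 2 := pow_pos (by exact_mod_cast hc.kpos) 2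
  have hp : (0 : ℝ) < Γ.p0 := by exact_mod_cast h.p0W.1.pos
  have hP : (0 : ℝ) < (Γ.W' : ℝ) * Γ.H :=
    mul_pos (by exact_mod_cast h.pos.2) (by exact_mod_cast h.side.1.trans_le h.side.2)
  have ht : (c.a : ℝ) = ((c.k ^ 2 : ℤ) : ℝ) * ((c.a : ℝ) / (c.k : ℝ) ^ 2) := by
    rw [Int.cast_pow, mul_div_cancel₀ _ hk.ne']
  have e4 := DApi.hv_cast _ (2 * Γ.m) c.a (c.k ^ 2) _ (DApi.ng_deg Γ.f _ _ Γ.m h.deg hm) ht
  obtain ⟨n1, n2⟩ := hN x hx ((c.a : ℝ) / (c.k : ℝ) ^ 2)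
    (by rw [le_div_iff₀ hk]; exact_mod_cast a0) (by rw [div_le_iff₀ hk]; exact_mod_cast a1)
  have e5 := congrArg (Int.cast : ℤ → ℝ) e2
  rw [e1, Int.cast_mul, Int.cast_mul, e4] at e5
  push_cast at e5
  have near := ENg.log_near hP n1 n2
  generalize aeval ((c.a : ℝ) / (c.k : ℝ) ^ 2) (Ng Γ.f (Γ.gA x) (Γ.gB x)) = N at *
  have hN0 : 0 < N := lt_of_lt_of_le (by positivity) n1
  have hg : (0 : ℝ) < ((c.gam Γ x).norm : ℝ) := by
    have : (0 : ℝ) < ((c.gam Γ x).norm : ℝ) * (Γ.p0 : ℝ) ^ (2 * c.e) := by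
      rw [e5]
      positivity
    exact pos_of_mul_pos_left this (by positivity)
  have e6 := congrArg Real.log e5
  rw [Real.log_mul hg.ne' (by positivity), Real.log_mul (by positivity) (by positivity),
    Real.log_mul (by positivity) hN0.ne', Real.log_pow (Γ.p0 : ℝ), Real.log_pow (Γ.p0 : ℝ),
    Real.log_pow ((c.k : ℝ) ^ 2)] at e6
  push_cast at e6
  refine ⟨by exact_mod_cast hg, ?_, by linarith⟩
  have e7 : Real.log (c.gam Γ x).norm - Xc Γ c = Real.log N - 2 * Real.log ((Γ.W' : ℝ) * Γ.H) := by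
    unfold Xc
    linarith
  rw [e7]
  exact near

end Pool.Agent.MP_f3836a_nt.VE
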