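import Pool.Agent.MP_f3836a_nt.VE.FBase

/-! Row FAex: the unpruned sums are small in mean square. -/

set_option autoImplicit false

namespace Pool.Agent.MP_f3836a_nt.VE.F

open Finset

section

variable {G H Cl : Type} [Fintype H] [Fintype Cl] {S : Sys G H Cl} {α : Pt → ℝ} {A : ℕ}

theorem Aex_aa (hS : S.Ok) (hα : ∀ z ∈ S.P1, α z.cj = -α z) (h : H) {z : Pt} (hz : z ∈ S.P1) :
    S.aa α h z.cj = -S.aa α h z := by
  rw [Sys.aa, Sys.aa, hα z hz, (hS.okp z (hS.p1 z hz).1).2.2]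
  ring

theorem Aex_nrm (hS : S.Ok) : 0 ≤ S.nrm2 α :=
  mul_nonneg hS.sig_pos.le (sum_nonneg fun h _ => sum_nonneg fun z _ =>
    mul_nonneg (div_nonneg (hS.wz_nonneg h z) (Nat.cast_nonneg _)) (sq_nonneg _))

theorem Aex_a (hB : Bil0S A) (hS : S.Ok) {z : Pt} (hz : z ∈ S.P1)
    (h0 : ∑ h, S.wz h z * S.aa α h z = 0) :
    S.E (fun g => (S.σ * ∑ h, S.wz h z * S.aa α h z * S.Y (some h) {z} (S.k + 1) g) ^ 2)
      ≤ S.Λ ^ (A + 1) * S.θ ^ 2 / z.p * (S.σ * ∑ h, S.wz h z / z.p * S.aa α h z ^ 2) := by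
  refine (hB S hS {z} (S.k + 1) (fun h => S.wz h z) (fun h => S.aa α h z) S.Λ (Nd_single z)
    (hS.Sm_mono (by norm_num) (hS.Sm_single hz)) (fun h => ⟨hS.wz_nonneg h z, hS.wz_le h z⟩)
    (fun h => hS.ad_single) ?_).trans (le_of_eq ?_)
  · rw [← zero_mul (S.f1 z), ← h0, sum_mul]
    refine sum_congr rfl fun h _ => ?_
    by_cases hw : S.wz h z = 0
    · simp [hw]
    · rw [hS.fm1 h z (S.wz_mem hw)]
  · simp only [PT_single, div_mul_eq_mul_div (S.wz _ z), ← sum_div]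
    ring

theorem Aex_b (hB : Bil1S A) (hS : S.Ok) (hα : ∀ z ∈ S.P1, α z.cj = -α z) {z : Pt}
    (hz : z ∈ S.P1) :
    S.E (fun g => (S.σ * ∑ h, ∑ z' ∈ S.P1,
        S.wz h z * S.wz h z' * S.aa α h z' * S.Y (some h) (z' ::ₘ {z}) S.k g) ^ 2)
      ≤ S.Λ ^ (A + 2) * S.θ ^ 2 / z.p *
        (S.σ * ∑ h, S.wz h z / z.p * ∑ z' ∈ S.P1, S.wz h z' / z'.p * S.aa α h z' ^ 2) := by
  have hl := hS.lam_pos
  have h1 := hB S hS {z} S.k (fun h z' => S.wz h z * S.wz h z' * ind (z.p ≠ z'.p)) (S.aa α)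
    (S.Λ ^ 2) (Nd_single z) (hS.Sm_mono (by norm_num) (hS.Sm_single hz)) (fun h z' => by
      have h2 := mul_nonneg (hS.wz_nonneg h z) (hS.wz_nonneg h z')
      refine ⟨mul_nonneg h2 (ind_nonneg _), (mul_le_of_le_one_right h2 (ind_le_one _)).trans ?_⟩
      rw [sq]
      exact mul_le_mul (hS.wz_le h z) (hS.wz_le h z') (hS.wz_nonneg h z') hl.le)
    (fun h z' _ h2 => by
      have h3 := ind_ne (right_ne_zero_of_mul h2)
      have h4 := left_ne_zero_of_mul h2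
      exact ⟨hS.ad_pair (left_ne_zero_of_mul h4) (right_ne_zero_of_mul h4) h3,
        Nd_cons.2 ⟨by simpa using h3, Nd_single z⟩⟩)
    (sum_eq_zero fun h _ => hS.sum_p1_anti _ fun z' hz' => by
      rw [hS.wz_cj h hz', Aex_aa hS hα h hz', cj_p,
        hS.fmp (some h) (z'.cj ::ₘ {z}) (z' ::ₘ {z}) S.k (by simp)]
      ring)
  refine le_trans (le_of_eq (S.E_congr fun g _ => ?_)) (h1.trans ?_)
  · congr 2
    refine sum_congr rfl fun h _ => sum_congr rfl fun z' _ => ?_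
    by_cases hY : S.Y (some h) (z' ::ₘ {z}) S.k g = 0
    · rw [hY, mul_zero, mul_zero]
    · rw [ind_pos ((Nd_cons.1 (hS.Y_nd hY)).1 z (by simp)), mul_one]
  · have h2 : ∑ h, ∑ z' ∈ S.P1, S.wz h z * S.wz h z' * ind (z.p ≠ z'.p) / z'.p * S.aa α h z' ^ 2
        ≤ ∑ h, S.wz h z * ∑ z' ∈ S.P1, S.wz h z' / z'.p * S.aa α h z' ^ 2 := by
      refine sum_le_sum fun h _ => ?_
      rw [mul_sum]
      refine sum_le_sum fun z' _ => ?_
      rw [← mul_assoc, ← mul_div_assoc]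
      exact mul_le_mul_of_nonneg_right (div_le_div_of_nonneg_right (mul_le_of_le_one_right
        (mul_nonneg (hS.wz_nonneg h z) (hS.wz_nonneg h z')) (ind_le_one _)) (Nat.cast_nonneg _))
        (sq_nonneg _)
    refine (mul_le_mul_of_nonneg_left (mul_le_mul_of_nonneg_left h2 hS.sig_pos.le)
      (by positivity)).trans (le_of_eq ?_)
    simp only [PT_single, div_mul_eq_mul_div (S.wz _ z), ← sum_div]
    ring

theorem Aex_c (hB : Bil1S A) (hS : S.Ok) (hα : ∀ z ∈ S.P1, α z.cj = -α z) (c : Cl) :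
    S.E (fun g => S.SC α g c ^ 2) ≤ S.Λ ^ (A + 3) * S.θ ^ 2 *
      (S.σ * ∑ h, ind (S.cell h = c) * ∑ z ∈ S.P1, S.wz h z / z.p * S.aa α h z ^ 2) := by
  have hl := hS.lam_pos
  have h1 := hB S hS 0 (S.k + 1) (fun h z => ind (S.cell h = c) * S.wz h z) (S.aa α) S.Λ Nd_zero
    (hS.Sm_mono (by norm_num) S.Sm_zero) (fun h z => ⟨mul_nonneg (ind_nonneg _) (hS.wz_nonneg h z),
      (mul_le_of_le_one_left (hS.wz_nonneg h z) (ind_le_one _)).trans (hS.wz_le h z)⟩)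
    (fun h z _ h2 => ⟨hS.ad_single (right_ne_zero_of_mul h2), Nd_single z⟩)
    (sum_eq_zero fun h _ => hS.sum_p1_anti _ fun z hz => by
      rw [hS.wz_cj h hz, Aex_aa hS hα h hz, cj_p,
        hS.fmp (some h) (z.cj ::ₘ 0) (z ::ₘ 0) (S.k + 1) (by simp)]
      ring)
  have h2 := le_trans (S.E_nonneg fun g _ => sq_nonneg _) h1
  simp only [Sys.SC, mul_pow ((S.k : ℝ) + 2)]
  rw [S.E_mul]
  refine (mul_le_mul (pow_le_pow_left₀ (by positivity) hS.nat.2.1 2) h1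
    (S.E_nonneg fun g _ => sq_nonneg _) (by positivity)).trans (le_of_eq ?_)
  simp only [PT_zero, mul_div_assoc, mul_assoc (ind _), ← mul_sum]
  ring

end

theorem rAex : OfAex := by
  refine fun A1 A2 h1 h2 => ⟨A1 + A2 + 6, fun {G H Cl} _ _ S hS α hα h0 => ?_⟩
  have hl := hS.lam_pos
  have hn := mul_nonneg (sq_nonneg S.θ) (Aex_nrm (α := α) hS)
  constructor
  · have h3 : ∀ z ∈ S.P1, S.E (fun g => S.SZ α g z ^ 2 / S.n0 z) ≤
        2 * S.Λ ^ (A1 + 2) * S.θ ^ 2 * (S.σ * ∑ h, S.wz h z / z.p * S.aa α h z ^ 2) +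
        2 * S.Λ ^ (A2 + 5) * S.θ ^ 2 * (S.σ * ∑ h, S.wz h z / z.p *
          ∑ z' ∈ S.P1, S.wz h z' / z'.p * S.aa α h z' ^ 2) := fun z hz => by
      have hp := hS.p_pos (hS.p1 z hz).1
      have h4 : 1 / S.n0 z ≤ S.Λ * z.p := by
        have := (hS.p1 z hz).2.2.2.1
        rw [div_le_iff₀ hp] at this
        rw [div_le_iff₀ (hS.n0_pos hz)]
        linarith
      have h5 : ((S.k : ℝ) + 1) ^ 2 ≤ S.Λ ^ 2 :=
        pow_le_pow_left₀ (by positivity) (by linarith [hS.nat.2.1]) 2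
      refine (S.E_mono fun g _ => ?_).trans (((S.E_add _ _).trans (congrArg₂ (· + ·)
        (S.E_mul (2 * S.Λ * z.p) _) (S.E_mul (2 * S.Λ ^ 3 * z.p) _))).le.trans
        ((add_le_add (mul_le_mul_of_nonneg_left (Aex_a h1 hS hz (h0 z hz)) (by positivity))
          (mul_le_mul_of_nonneg_left (Aex_b h2 hS hα hz) (by positivity))).trans (le_of_eq ?_)))
      · rw [Sys.SZ, div_eq_mul_one_div]
        generalize S.σ * ∑ h, S.wz h z * S.aa α h z * S.Y (some h) {z} (S.k + 1) g = a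
        generalize S.σ * ∑ h, ∑ z' ∈ S.P1,
          S.wz h z * S.wz h z' * S.aa α h z' * S.Y (some h) (z' ::ₘ {z}) S.k g = b
        have h6 : (a + (S.k + 1) * b) ^ 2 ≤ 2 * a ^ 2 + 2 * S.Λ ^ 2 * b ^ 2 := by
          nlinarith [sq_nonneg (a - (S.k + 1) * b), mul_le_mul_of_nonneg_right h5 (sq_nonneg b)]
        refine (mul_le_mul h6 h4 (one_div_pos.2 (hS.n0_pos hz)).le (by positivity)).trans
          (le_of_eq ?_)
        ring
      · field_simp
        ring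
    rw [S.E_sum]
    refine (sum_le_sum h3).trans ?_
    rw [sum_add_distrib, ← mul_sum, ← mul_sum, ← mul_sum, ← mul_sum, sum_comm,
      sum_comm (s := S.P1)]
    simp only [← sum_mul, hS.sum_wz, one_mul]
    have h4 := hS.pow_mono (show A1 + 2 ≤ A1 + A2 + 5 by omega)
    have h5 := hS.pow_mono (show A2 + 5 ≤ A1 + A2 + 5 by omega)
    have h6 : 4 * S.Λ ^ (A1 + A2 + 5) ≤ S.Λ ^ (A1 + A2 + 6) := by
      rw [pow_succ' _ (A1 + A2 + 5)]
      exact mul_le_mul_of_nonneg_right (by linarith [hS.num.1]) (by positivity)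
    change _ * S.nrm2 α + _ * S.nrm2 α ≤ _
    nlinarith
  · rw [S.E_sum]
    refine (sum_le_sum fun c _ => Aex_c h2 hS hα c).trans ?_
    have h3 : ∀ h, ∑ c, ind (S.cell h = c) = 1 := fun h => by
      rw [sum_eq_single (S.cell h) (fun c _ hc => ind_neg hc.symm) (by simp), ind_pos rfl]
    rw [← mul_sum, ← mul_sum, sum_comm]
    simp only [← sum_mul, h3, one_mul]
    rw [mul_assoc, mul_assoc]
    exact mul_le_mul_of_nonneg_right (hS.pow_mono (by omega)) hn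

end Pool.Agent.MP_f3836a_nt.VE.F
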