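import Pool.Agent.MP_f3836a_nt.VE.FBase

/-! Part F: mean number of good events of the second kind. -/

set_option autoImplicit false

namespace Pool.Agent.MP_f3836a_nt.VE.F

open Finset

theorem Be_rem {G H Cl : Type} [Fintype H] [Fintype Cl] {S : Sys G H Cl} (hS : S.Ok) (e : ℝ)
    (T : Multiset Pt) (g : G) (h : H) : S.Y (some h) T (S.k + 2) g ≤ S.Gm e T g h
      + (S.k + 2) * ∑ z ∈ S.P1, S.wz h z * (S.Y (some h) (z ::ₘ T) (S.k + 1) g * ind (S.b1 e g z)) := by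
  have h1 : S.Y (some h) T (S.k + 2) g ≤ S.Gm e T g h
      + ∑ i : Fin (S.k + 2), S.TY (some h) T (S.k + 2) g fun s => ind (S.b1 e g (pt (s i))) := by
    rw [← S.TY_one, Sys.Gm, ← S.TY_sum, ← S.TY_add]
    refine hS.TY_mono fun s _ => ?_
    have h2 := ind_exists_le fun i => S.b1 e g (pt (s i))
    by_cases h3 : ∃ i, S.b1 e g (pt (s i))
    · rw [ind_pos h3] at h2
      linarith [ind_nonneg (∀ i, ¬S.b1 e g (pt (s i)))]
    · rw [ind_neg h3] at h2
      linarith [ind_pos (not_exists.1 h3)]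
  refine h1.trans_eq ?_
  congr 1
  rw [sum_congr rfl fun i _ => S.TC1 (some h) T (S.k + 1) g i fun x => ind (S.b1 e g (pt x)),
    sum_const, card_univ, Fintype.card_fin, nsmul_eq_mul]
  simp only [mul_assoc]
  rw [hS.sum_st h fun x => ind (S.b1 e g (pt x)) * S.Y (some h) (T + x) (S.k + 1) g]
  refine congrArg₂ (· * ·) (by push_cast; ring) (sum_congr rfl fun z _ => ?_)
  rw [pt_single, add_comm T, Multiset.singleton_add, mul_comm (ind _)]

theorem rBe : OfBe := by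
  intro A hB
  refine ⟨A + 3, ?_⟩
  intro G H Cl _ _ S hS e he T hT h ha
  obtain ⟨-, e1, -, t1, d1⟩ := hS.par_small he
  obtain ⟨hn, hs, -⟩ := hS.st _ T hT
  have had := (hS.ad3 h T hT ha).2.1
  have hL := hS.num.1
  have hP := PT_nonneg T
  have hE := abs_le.1 (hS.eq1_self hn (hS.Sm_mono (by omega) hs) had)
  have f1 := (hS.ad0 _ _ _ had).2.1
  have f2 := hS.fm_le had
  have t2 : S.θ ^ 2 ≤ 1 / 2 := by
    have h1 : S.θ * S.Λ ^ 1 ≤ S.θ * S.Λ ^ (A + 3) :=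
      mul_le_mul_of_nonneg_left (hS.pow_mono (by omega)) hS.th_pos.le
    nlinarith [hS.th_sq, hS.th_pos]
  have t3 := mul_le_mul_of_nonneg_right t2 (mul_nonneg hP (hS.fm_pos had).le)
  refine ⟨by nlinarith [mul_le_mul_of_nonneg_left f2 hP, mul_nonneg hP hS.lam_pos.le], ?_⟩
  set δ := S.M * S.Λ ^ A * S.θ / e ^ 2 with hδ
  have δ0 : 0 ≤ δ := by
    have := hS.th_pos
    have := hS.num.2.2.1
    positivity
  have δ1 : δ * S.Λ ^ 3 ≤ 1 := le_trans (le_of_eq (by rw [hδ]; ring)) d1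
  have b2 := (hB S hS e (some h) T (S.k + 2) he.1 e1 ⟨had, hn, hS.Sm_mono (by omega) hs⟩).2 T hT le_rfl
  have b1 : S.E (fun g => ∑ z ∈ S.P1,
      S.wz h z * (S.Y (some h) (z ::ₘ T) (S.k + 1) g * ind (S.b1 e g z))) ≤ δ * PT T := by
    rw [S.E_sum, ← mul_one (δ * PT T), ← hS.sum_wz h, mul_sum]
    refine sum_le_sum fun z hz => ?_
    rw [S.E_mul]
    by_cases hw : S.wz h z = 0
    · simp [hw]
    have h1 := (hB S hS e (some h) (z ::ₘ T) (S.k + 1) he.1 e1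
      ⟨hS.ad_blk hT ha hw, hS.Nd_blk hT hz, hS.Sm_cons hz hs⟩).1 z hz (Multiset.mem_cons_self _ _)
    refine (mul_le_mul_of_nonneg_left h1 (hS.wz_nonneg h z)).trans_eq ?_
    rw [PT_cons]
    ring
  have h1 : S.E (fun g => S.Y (some h) T (S.k + 2) g) ≤ S.E fun g =>
      ind (¬S.b2 e g T) * S.Gm e T g h + (S.Y (some h) T (S.k + 2) g * ind (S.b2 e g T)
      + (S.k + 2) * ∑ z ∈ S.P1,
        S.wz h z * (S.Y (some h) (z ::ₘ T) (S.k + 1) g * ind (S.b1 e g z))) := by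
    refine S.E_mono fun g _ => ?_
    by_cases hb : S.b2 e g T
    · rw [ind_pos hb, ind_neg (not_not.2 hb), zero_mul, zero_add, mul_one]
      refine le_add_of_nonneg_right (mul_nonneg (by positivity) (sum_nonneg fun z _ => ?_))
      exact mul_nonneg (hS.wz_nonneg h z) (mul_nonneg (hS.Y_nonneg _ _ _ _) (ind_nonneg _))
    · rw [ind_pos hb, ind_neg hb, one_mul, mul_zero, zero_add]
      exact Be_rem hS e T g h
  rw [S.E_add, S.E_add, S.E_mul] at h1
  have h2 := (mul_le_mul_of_nonneg_left b1 (by positivity : (0 : ℝ) ≤ S.k + 2)).trans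
    (mul_le_mul_of_nonneg_right hS.nat.2.1 (mul_nonneg δ0 hP))
  have h3 : PT T / (4 * S.Λ) = PT T * (1 / S.Λ) / 4 := by field_simp
  have h4 : δ + S.Λ * δ ≤ 1 / S.Λ / 4 := by
    rw [div_div, le_div_iff₀ (by positivity)]
    have h5 : (1 + S.Λ) * (S.Λ * 4) ≤ S.Λ ^ 3 := by
      nlinarith [mul_nonneg (sub_nonneg.2 hL) (sq_nonneg S.Λ)]
    nlinarith [mul_le_mul_of_nonneg_left h5 δ0]
  have h6 := mul_le_mul_of_nonneg_left h4 hP
  have h7 := mul_le_mul_of_nonneg_left f1 hP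
  have h8 : S.E (fun g => S.Y (some h) T (S.k + 2) g) = S.E (S.Y (some h) T (S.k + 2)) := rfl
  nlinarith

end Pool.Agent.MP_f3836a_nt.VE.F
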