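import Pool.Agent.MP_f3836a_nt.VE.FBase

/-! Part F: events of the second kind all of whose points are good. -/

set_option autoImplicit false

namespace Pool.Agent.MP_f3836a_nt.VE.F

open Finset

variable {G H Cl : Type} [Fintype H] [Fintype Cl] {S : Sys G H Cl} {e : ℝ} {T : Multiset Pt} {g : G}

theorem Bg_id (hS : S.Ok) {α : Pt → ℝ} (hR : S.Rig e α) (hT : T ∈ S.St none) (hg : g ∈ S.Gs)
    (hd : S.good e g) {h : H} (ha : S.adm h T) (hG : S.Gm e T g h ≠ 0) :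
    (T.map (S.ψ (some h))).sum = (T.map (S.φ g)).sum := by
  obtain ⟨s, -, hs⟩ := exists_ne_zero_of_sum_ne_zero hG
  obtain ⟨hE, hw⟩ := Sys.Ok.mw_ne (left_ne_zero_of_mul hs)
  have hb := ind_ne (right_ne_zero_of_mul hs)
  have hM : ∀ z ∈ T + ∑ i, (s i).1, S.ok z ∧ S.on (some h) z := fun z hz => by
    rcases Multiset.mem_add.1 hz with hz | hz
    · exact ⟨(hS.st _ _ hT).2.1.2.2 z hz, (hS.ad0 _ _ _ (hS.ad3 h T hT ha).2.1).1 z hz⟩
    · obtain ⟨i, -, hi⟩ := Multiset.mem_sum.1 hz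
      exact hS.st_on (s i).2 z hi
  have h1 := hS.idh g hg h _ hE hM
  have h2 : (∑ i, (s i).1).map (S.ψ (some h)) = (∑ i, (s i).1).map (S.φ g) :=
    Multiset.map_congr rfl fun z hz => by
      have hz' : z ∈ T + ∑ i, (s i).1 := Multiset.mem_add.2 (Or.inr hz)
      obtain ⟨i, -, hi⟩ := Multiset.mem_sum.1 hz
      obtain ⟨z', hp, e1⟩ := (hS.st1 h _ (s i).2).2
      obtain rfl : z = z' := by simpa [e1] using hi
      have h3 := hb i
      have h4 := hw i
      rw [e1] at h3 h4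
      rw [hR.1 h z (by rwa [S.wz_eq (e1 ▸ (s i).2)]), (hR.2 g hg hd).2 z hp
        (hS.evz g hg _ _ hE z hz' (hM z hz').1 (hM z hz').2) (by simpa using h3)]
  simpa [(hR.2 g hg hd).1, h2] using h1

theorem Bg_tc (hS : S.Ok) (h : H) : S.Y (some h) T (S.k + 2) g - S.Gm e T g h ≤
    (S.k + 2) * ∑ z ∈ S.P1, S.wz h z * (ind (S.b1 e g z) * S.Y (some h) (z ::ₘ T) (S.k + 1) g) := by
  have h1 : S.TY (some h) T (S.k + 2) g (fun _ => 1) ≤ S.TY (some h) T (S.k + 2) g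
      fun s => ind (∀ i, ¬S.b1 e g (pt (s i))) + ∑ i, ind (S.b1 e g (pt (s i))) :=
    hS.TY_mono fun s _ => by
      have := ind_exists_le fun i => S.b1 e g (pt (s i))
      by_cases hb : ∃ i, S.b1 e g (pt (s i))
      · linarith [ind_pos hb, ind_nonneg (∀ i, ¬S.b1 e g (pt (s i)))]
      · linarith [ind_pos (not_exists.1 hb), ind_nonneg (∃ i, S.b1 e g (pt (s i)))]
  rw [S.TY_one, S.TY_add, S.TY_sum,
    sum_congr rfl fun i _ => S.TC1 (some h) T (S.k + 1) g i fun x => ind (S.b1 e g (pt x))] at h1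
  simp only [mul_assoc, hS.sum_st h, pt_single, add_comm T, Multiset.singleton_add, sum_const,
    card_univ, Fintype.card_fin, nsmul_eq_mul] at h1
  exact sub_le_iff_le_add'.2 (h1.trans_eq (by rw [Sys.Gm]; push_cast; ring))

theorem Bg_pt (hS : S.Ok) (he : 0 < e) (hT : T ∈ S.St none) (hg : g ∈ S.Gs) (hd : S.good e g)
    {z : Pt} (hz : z ∈ S.P1) : ind (S.b1 e g z) *
      (S.σ * ∑ h, ind (S.adm h T) * S.wz h z * S.Y (some h) (z ::ₘ T) (S.k + 1) g) ≤
    ind (S.zr g z) * |S.σ * ∑ h, ind (S.adm h T) * S.wz h z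
      * (S.Y (some h) (z ::ₘ T) (S.k + 1) g - S.fm (some h) (z ::ₘ T) (S.k + 1))|
      + S.Λ ^ 4 * PT T / e * (ind (S.zr g z) * S.dev1 g z) := by
  have hL := hS.lam_pos
  have hP := PT_nonneg T
  have hv : 0 ≤ S.dev1 g z := add_nonneg (sum_nonneg fun _ _ => abs_nonneg _)
    (sum_nonneg fun _ _ => mul_nonneg (ind_nonneg _) (abs_nonneg _))
  have hi := ind_nonneg (S.zr g z)
  by_cases hb : S.b1 e g z
  swap
  · rw [ind_neg hb, zero_mul]; positivity
  by_cases hr : S.zr g z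
  swap
  · rw [sum_eq_zero fun h _ => by
      by_contra h0
      exact hr (hS.Y_zr hg (right_ne_zero_of_mul h0) (Multiset.mem_cons_self _ _) (hS.p1 z hz).1
        (hS.wz_p1 (right_ne_zero_of_mul (left_ne_zero_of_mul h0))).2)]
    simp [ind_neg hr]
  have h1 : ∑ h, ind (S.adm h T) * S.wz h z * S.fm (some h) (z ::ₘ T) (S.k + 1)
      ≤ ∑ h, S.Λ ^ 2 * ind (S.Lk (z ::ₘ T) h) := sum_le_sum fun h _ => by
    by_cases h0 : ind (S.adm h T) * S.wz h z = 0
    · rw [h0, zero_mul]; exact mul_nonneg (sq_nonneg _) (ind_nonneg _)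
    have ha := ind_ne (left_ne_zero_of_mul h0)
    have := hS.ad_blk hT ha (right_ne_zero_of_mul h0)
    rw [ind_pos ha, ind_pos (p := S.Lk _ _) (hS.ad0 _ _ _ this).1, one_mul, mul_one, sq]
    exact mul_le_mul (hS.wz_le h z) (hS.fm_le this) (hS.fm_pos this).le hL.le
  have h2 := hS.lk _ (hS.Nd_blk hT hz) (hS.Sm_mono (by omega) (hS.Sm_cons hz (hS.st _ _ hT).2.1))
  have h3 : S.n0 z ≤ S.dev1 g z / e := by
    rw [le_div_iff₀' he]; exact (hb.resolve_left (not_not.2 hd)).le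
  have h4 : PT (z ::ₘ T) ≤ PT T * (S.Λ * (S.dev1 g z / e)) := by
    rw [PT_cons, div_eq_mul_one_div]
    exact mul_le_mul_of_nonneg_left
      ((hS.p1 z hz).2.2.2.1.trans (mul_le_mul_of_nonneg_left h3 hL.le)) hP
  rw [← mul_sum] at h1
  have h5 := mul_le_mul_of_nonneg_left h1 hS.sig_pos.le
  have h6 := mul_le_mul_of_nonneg_left (h2.trans (mul_le_mul_of_nonneg_left h4 hL.le))
    (sq_nonneg S.Λ)
  rw [ind_pos hb, ind_pos hr, one_mul, one_mul, one_mul]
  refine le_trans ?_ (add_le_add_left (le_abs_self _) _)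
  simp only [mul_sub, sum_sub_distrib]
  have h7 : S.Λ ^ 4 * PT T / e * S.dev1 g z
      = S.Λ ^ 2 * (S.Λ * (PT T * (S.Λ * (S.dev1 g z / e)))) := by ring
  linarith

theorem rBg : OfBg := by
  refine ⟨9, fun S hS e hP α hR T hT g hg hb => ?_⟩
  obtain ⟨hd, hv⟩ := not_or.1 hb
  rw [not_not] at hd
  rw [not_lt, Sys.dev2] at hv
  have he := hP.1
  have hL := hS.num.1
  have hσ := hS.sig_pos
  have hQ : 0 ≤ e * PT T := mul_nonneg he.le (PT_nonneg T)
  have h0 := abs_nonneg (S.σ * ∑ h, ind (S.adm h T)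
    * (S.Y (some h) T (S.k + 2) g - S.fm (some h) T (S.k + 2)))
  have h1 := sum_le_sum fun z hz => Bg_pt hS he hT hg hd (z := z) hz
  rw [sum_add_distrib, ← mul_sum] at h1
  have h2 : S.Λ ^ 4 * PT T / e * S.tot1 g ≤ S.Λ ^ 4 * (e * PT T) :=
    (mul_le_mul_of_nonneg_left hd.1 (by have := PT_nonneg T; positivity)).trans_eq (by field_simp)
  have h3 : S.σ * ∑ h, ind (S.adm h T) * (S.Y (some h) T (S.k + 2) g - S.Gm e T g h) ≤
      (S.k + 2) * ∑ z ∈ S.P1, ind (S.b1 e g z) *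
        (S.σ * ∑ h, ind (S.adm h T) * S.wz h z * S.Y (some h) (z ::ₘ T) (S.k + 1) g) := by
    refine (mul_le_mul_of_nonneg_left (sum_le_sum fun h _ =>
      mul_le_mul_of_nonneg_left (Bg_tc hS h) (ind_nonneg _)) hσ.le).trans_eq ?_
    simp only [mul_sum]
    rw [sum_comm]
    exact sum_congr rfl fun z _ => sum_congr rfl fun h _ => by ring
  have h4 : S.σ * ∑ h, ind (S.adm h T) * (S.Y (some h) T (S.k + 2) g - S.Gm e T g h) ≤
      S.Λ * (2 * S.Λ ^ 4 * (e * PT T)) := by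
    have := mul_le_mul_of_nonneg_right (one_le_pow₀ (n := 4) hS.one_le) hQ
    refine h3.trans ((mul_le_mul_of_nonneg_left (h1.trans ?_) (by positivity)).trans
      (mul_le_mul_of_nonneg_right hS.nat.2.1 (by positivity)))
    exact (add_le_add (le_trans (le_add_of_nonneg_left h0) hv) h2).trans (by linarith)
  have h5 : S.Λ * (2 * S.Λ ^ 4 * (e * PT T)) ≤ S.Λ ^ 6 * (e * PT T) := by
    nlinarith [mul_nonneg (pow_nonneg hS.lam_pos.le 5) hQ]
  refine ⟨fun h => Bg_id hS hR hT hg hd, (h4.trans h5).trans ?_, ?_⟩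
  · rw [mul_assoc]
    exact mul_le_mul_of_nonneg_right (hS.pow_mono (by omega)) hQ
  have h6 : ∑ h, ind (S.adm h T) ≤ ∑ h, S.Λ * (ind (S.adm h T) * S.fm (some h) T (S.k + 2)) :=
    sum_le_sum fun h _ => by
      by_cases ha : S.adm h T
      · rw [ind_pos ha, one_mul, ← div_le_iff₀' hS.lam_pos]
        exact (hS.ad0 _ _ _ (hS.ad3 h T hT ha).2.1).2.1
      · simp [ind_neg ha]
  rw [← mul_sum] at h6
  have h7 := (hS.r5 T hT).trans (mul_le_mul_of_nonneg_left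
    (mul_le_mul_of_nonneg_left h6 hσ.le) hS.lam_pos.le)
  have h8 := (neg_le_abs _).trans (le_trans (le_add_of_nonneg_right (sum_nonneg fun z _ =>
    mul_nonneg (ind_nonneg _) (abs_nonneg _))) hv)
  have h9 := h4.trans h5
  simp only [mul_sub, sum_sub_distrib] at h8 h9
  have a1 := mul_le_mul_of_nonneg_right (hS.par_small hP).1 (PT_nonneg T)
  have a2 := mul_le_mul_of_nonneg_right (hS.pow_mono (by omega : 2 ≤ 8)) hQ
  have a3 := mul_le_mul_of_nonneg_right hL (mul_nonneg (pow_nonneg hS.lam_pos.le 8) hQ)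
  have a4 := mul_le_mul_of_nonneg_left (add_le_add h8 h9) (sq_nonneg S.Λ)
  rw [div_le_iff₀ (by positivity)]
  nlinarith [mul_nonneg (pow_nonneg hS.lam_pos.le 8) hQ]

end Pool.Agent.MP_f3836a_nt.VE.F
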