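import Pool.Agent.MP_f3836a_nt.VE.SpecFA

/-! Connectivity of a weighted bipartite graph. -/

set_option autoImplicit false

namespace Pool.Agent.MP_f3836a_nt.VE.F

open Finset

theorem con_one {H : Type} [Fintype H] {ϱ a Y Gm : H → ℝ} {x Λ δ P : ℝ} (hΛ : 1 ≤ Λ)
    (h0 : ∀ h, 0 ≤ ϱ h) (hG : ∀ h, 0 ≤ Gm h ∧ Gm h ≤ Y h)
    (hx : ∀ h, ϱ h ≠ 0 → Gm h ≠ 0 → a h = x) (h1 : ∑ h, ϱ h * (Y h - Gm h) ≤ δ * P)
    (h2 : P / (2 * Λ ^ 2) ≤ ∑ h, ϱ h * Gm h) :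
    P * ∑ h, ϱ h * a h ^ 2 * Gm h
      ≤ 4 * Λ ^ 2 * ((∑ h, ϱ h * a h * Y h) ^ 2 + δ * P * ∑ h, ϱ h * a h ^ 2 * Y h) := by
  have e : ∀ h, ϱ h * a h * Gm h = x * (ϱ h * Gm h) := fun h => by
    by_cases p : ϱ h = 0
    · simp [p]
    by_cases q : Gm h = 0
    · simp [q]
    rw [hx h p q]
    ring
  have e2 : ∀ h, ϱ h * a h ^ 2 * Gm h = x ^ 2 * (ϱ h * Gm h) := fun h => by
    by_cases p : ϱ h = 0
    · simp [p]
    by_cases q : Gm h = 0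
    · simp [q]
    rw [hx h p q]
    ring
  have p1 : ∀ h, 0 ≤ ϱ h * (Y h - Gm h) := fun h => mul_nonneg (h0 h) (sub_nonneg.2 (hG h).2)
  have cs := sum_sq_le_sum_mul_sum_of_sq_le_mul univ (r := fun h => ϱ h * (Y h - Gm h) * a h)
    (f := fun h => ϱ h * (Y h - Gm h)) (g := fun h => ϱ h * a h ^ 2 * Y h) (fun h _ => p1 h)
    (fun h _ => mul_nonneg (mul_nonneg (h0 h) (sq_nonneg _)) ((hG h).1.trans (hG h).2))
    fun h _ => by
      nlinarith [mul_nonneg (mul_nonneg (p1 h) (mul_nonneg (h0 h) (hG h).1)) (sq_nonneg (a h))]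
  have B0 : 0 ≤ ∑ h, ϱ h * a h ^ 2 * Y h := sum_nonneg fun h _ =>
    mul_nonneg (mul_nonneg (h0 h) (sq_nonneg _)) ((hG h).1.trans (hG h).2)
  have N0 : 0 ≤ ∑ h, ϱ h * Gm h := sum_nonneg fun h _ => mul_nonneg (h0 h) (hG h).1
  have s : x * ∑ h, ϱ h * Gm h = ∑ h, ϱ h * a h * Y h - ∑ h, ϱ h * (Y h - Gm h) * a h := by
    rw [mul_sum, ← sum_sub_distrib]
    exact sum_congr rfl fun h _ => by rw [← e]; ring
  rw [div_le_iff₀ (by positivity)] at h2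
  simp only [e2, ← mul_sum]
  have c2 := cs.trans (mul_le_mul_of_nonneg_right h1 B0)
  generalize ∑ h, ϱ h * Gm h = N at *
  generalize ∑ h, ϱ h * a h * Y h = u at *
  generalize ∑ h, ϱ h * (Y h - Gm h) * a h = v at *
  generalize δ * P * ∑ h, ϱ h * a h ^ 2 * Y h = B at *
  have c3 : (x * N) ^ 2 ≤ 2 * (u ^ 2 + B) := by rw [s]; nlinarith [sq_nonneg (u + v)]
  calc P * (x ^ 2 * N) ≤ N * (2 * Λ ^ 2) * (x ^ 2 * N) := by gcongr
    _ = 2 * Λ ^ 2 * (x * N) ^ 2 := by ring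
    _ ≤ 2 * Λ ^ 2 * (2 * (u ^ 2 + B)) := by gcongr
    _ = _ := by ring

theorem rCon : ConS := by
  intro G H _ Gs ϱ f Ψ Y Gm gd Φ Λ δ P hne hΛ hP hδ hs h0 hf hG hg hv hY
  obtain ⟨β, hβ⟩ : ∃ β, ∑ h, ϱ h * (Ψ h - β) * f h = 0 := by
    by_cases e : ∑ h, ϱ h * f h = 0
    · rw [sum_eq_zero_iff_of_nonneg fun h _ => by
        by_cases p : ϱ h = 0
        · simp [p]
        · exact mul_nonneg (h0 h) (hf h p).le] at e
      exact ⟨0, sum_eq_zero fun h p => by rw [mul_right_comm, e h p, zero_mul]⟩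
    · refine ⟨(∑ h, ϱ h * Ψ h * f h) / ∑ h, ϱ h * f h, ?_⟩
      generalize hb : (∑ h, ϱ h * Ψ h * f h) / ∑ h, ϱ h * f h = b
      rw [div_eq_iff e, mul_sum, ← sub_eq_zero, ← sum_sub_distrib] at hb
      rw [← hb]
      exact sum_congr rfl fun h _ => by ring
  set a : H → ℝ := fun h => Ψ h - β with ha
  have c0 : (0 : ℝ) < Gs.card := Nat.cast_pos.2 hne.card_pos
  have v := hv a hβ
  have n0 : ∀ h, 0 ≤ ϱ h * a h ^ 2 := fun h => mul_nonneg (h0 h) (sq_nonneg _)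
  have k1 : ∑ g ∈ Gs, P * ∑ h, ϱ h * a h ^ 2 * (ind (gd g) * Gm g h) ≤ ∑ g ∈ Gs,
      4 * Λ ^ 2 * ((∑ h, ϱ h * a h * Y g h) ^ 2 + δ * P * ∑ h, ϱ h * a h ^ 2 * Y g h) :=
    sum_le_sum fun g m => by
      by_cases q : gd g
      · obtain ⟨p1, p2, p3⟩ := hg g m q
        simpa [ind, q] using con_one (x := Φ g - β) hΛ h0 (hG g)
          (fun h p p' => by rw [← p1 h p p']) p2 p3
      · have := sum_nonneg fun h (_ : h ∈ univ) => mul_nonneg (n0 h) ((hG g h).1.trans (hG g h).2)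
        simp only [ind, q, if_false, zero_mul, mul_zero, sum_const_zero]
        positivity
  rw [← mul_sum, ← mul_sum, sum_add_distrib, ← mul_sum, sum_comm,
    sum_comm (f := fun g h => ϱ h * a h ^ 2 * Y g h)] at k1
  simp only [← mul_sum] at k1
  have k2 : (∑ h, ϱ h * a h ^ 2) * (P / (4 * Λ) * Gs.card)
      ≤ ∑ h, ϱ h * a h ^ 2 * ∑ g ∈ Gs, ind (gd g) * Gm g h := by
    rw [sum_mul]
    refine sum_le_sum fun h _ => ?_
    by_cases p : ϱ h = 0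
    · simp [p]
    · exact mul_le_mul_of_nonneg_left ((le_div_iff₀ c0).1 (hY h p).2) (n0 h)
  have k3 : ∑ h, ϱ h * a h ^ 2 * ∑ g ∈ Gs, Y g h
      ≤ (∑ h, ϱ h * a h ^ 2) * (2 * Λ * P * Gs.card) := by
    rw [sum_mul]
    refine sum_le_sum fun h _ => ?_
    by_cases p : ϱ h = 0
    · simp [p]
    · exact mul_le_mul_of_nonneg_left ((div_le_iff₀ c0).1 (hY h p).1) (n0 h)
  rw [div_le_iff₀ c0] at v
  have A0 : ∑ h, ϱ h * a h ^ 2 = 0 := by
    refine le_antisymm (not_lt.1 fun A => ?_) (sum_nonneg fun h _ => n0 h)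
    have k4 := (mul_le_mul_of_nonneg_left k2 hP.le).trans (k1.trans (mul_le_mul_of_nonneg_left
      (add_le_add v (mul_le_mul_of_nonneg_left k3 (by positivity))) (by positivity)))
    generalize ∑ h, ϱ h * a h ^ 2 = A' at *
    have w : 0 < P ^ 2 * A' * Gs.card := by positivity
    have k5 : P ^ 2 * A' * Gs.card * 1 ≤ P ^ 2 * A' * Gs.card * (16 * Λ ^ 3 * δ * (1 + 2 * Λ)) := by
      have := mul_le_mul_of_nonneg_left k4 (show 0 ≤ 4 * Λ by positivity)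
      refine (le_of_eq ?_).trans (this.trans_eq (by ring))
      field_simp
    have k6 := le_of_mul_le_mul_left k5 w
    have : 0 ≤ Λ ^ 3 * δ * (Λ - 1) := by have := sub_nonneg.2 hΛ; positivity
    nlinarith
  rw [sum_eq_zero_iff_of_nonneg fun h _ => n0 h] at A0
  have r : ∀ h, ϱ h ≠ 0 → Ψ h = β := fun h p =>
    sub_eq_zero.1 (pow_eq_zero_iff two_ne_zero |>.1 ((mul_eq_zero.1 (A0 h (mem_univ h))).resolve_left p))
  refine ⟨β, r, fun g m q => ?_⟩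
  obtain ⟨p1, -, p3⟩ := hg g m q
  obtain ⟨h, -, e⟩ := exists_ne_zero_of_sum_ne_zero
    ((show 0 < P / (2 * Λ ^ 2) by positivity).trans_le p3).ne'
  rw [← p1 h (left_ne_zero_of_mul e) (right_ne_zero_of_mul e), r h (left_ne_zero_of_mul e)]

end Pool.Agent.MP_f3836a_nt.VE.F
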