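import Pool.Agent.MP_f3836a_nt.VE.FBase

/-! Part F: the choice of the threshold. -/

set_option autoImplicit false

namespace Pool.Agent.MP_f3836a_nt.VE.F

theorem rMain : OfMain := by
  intro A h
  refine ⟨3 * A, fun S hS h1 h2 => ?_⟩
  obtain ⟨a, -, b, -, -, -, c, -⟩ := hS.num
  have L0 : 0 < S.Λ ^ A := pow_pos (by linarith) A
  have M0 : 0 < S.M := by linarith
  refine h S hS (S.η / (S.M * S.Λ ^ A)) ⟨by positivity,
    (mul_le_mul_of_nonneg_left (hS.pow_mono (by omega)) c.le).trans h1, le_of_eq ?_, ?_⟩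
  · field_simp
  · rw [div_pow, le_div_iff₀ (by positivity)]
    exact le_of_eq_of_le (by ring) h2

end Pool.Agent.MP_f3836a_nt.VE.F
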