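import Pool.Agent.MP_f3836a_nt.VE.FBase

/-! Part F: the first stage. -/

set_option autoImplicit false

namespace Pool.Agent.MP_f3836a_nt.VE.F

open Finset

theorem rS1 : OfS1 := by
  intro A1 A2 A3 h1 h2 h3
  refine ⟨A1 + A2 + A3 + 2, fun {G H Cl} _ _ S hS e hP => ?_⟩
  let α : Pt → ℝ := fun z => (∑ h, S.wz h z * S.ψ (some h) z) / ∑ h, S.wz h z
  have a1 : ∀ z ∈ S.P1, α z.cj = -α z := fun z hz => by
    simp only [α, hS.wz_cj _ hz, (hS.okp z (hS.p1 z hz).1).2.2, mul_neg, sum_neg_distrib, neg_div]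
  have a2 : ∀ z ∈ S.P1, ∑ h, S.wz h z * S.aa α h z = 0 := fun z _ => by
    by_cases e0 : ∑ h, S.wz h z = 0
    · exact sum_eq_zero fun h hh => by
        rw [(sum_eq_zero_iff_of_nonneg fun h _ => hS.wz_nonneg h z).1 e0 h hh, zero_mul]
    · simp only [Sys.aa, mul_sub, sum_sub_distrib, ← sum_mul, α]
      rw [mul_div_cancel₀ _ e0, sub_self]
  have l1 := h1 S hS e (hS.par_mono (by omega) hP)
  obtain ⟨b1, b2⟩ := h2 S hS α a1 a2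
  obtain ⟨c1, c2⟩ := h3 S hS e (hS.par_mono (by omega) hP) α a1
  have M0 : 0 ≤ S.M := by linarith [hS.num.2.2.1]
  have L0 := hS.lam_pos
  have t0 : ∀ h, ∀ z ∈ S.P1, 0 ≤ S.wz h z / z.p * S.aa α h z ^ 2 := fun h z _ =>
    mul_nonneg (div_nonneg (hS.wz_nonneg h z) (Nat.cast_nonneg _)) (sq_nonneg _)
  have N0 : 0 ≤ S.nrm2 α :=
    mul_nonneg hS.sig_pos.le (sum_nonneg fun h _ => sum_nonneg (t0 h))
  have key := c1.trans (S.E_mono (F' := fun g => S.Λ ^ A1 * (∑ z ∈ S.P1, S.SZ α g z ^ 2 / S.n0 z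
      + S.M * ∑ c, S.SC α g c ^ 2
      + ∑ ω, S.mo g ω * ind (∃ i, S.b1 e g (S.Zo ω i)) * S.Fo α ω ^ 2)) fun g hg => by
    by_cases gd : S.good e g
    · exact (l1 g hg gd α).1
    · have e1 : ∀ ω : S.Om, ind (∃ i, S.b1 e g (S.Zo ω i)) = 1 :=
        fun ω => ind_pos ⟨0, Or.inl gd⟩
      simp only [e1, mul_one]
      have p1 : 0 ≤ ∑ ω, S.mo g ω * S.Fo α ω ^ 2 := sum_nonneg fun ω _ =>
        mul_nonneg (mul_nonneg hS.sig_pos.le (hS.mw_nonneg _ _ _ _)) (sq_nonneg _)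
      have p2 : 0 ≤ ∑ z ∈ S.P1, S.SZ α g z ^ 2 / S.n0 z :=
        sum_nonneg fun z hz => div_nonneg (sq_nonneg _) (hS.n0_pos hz).le
      have p3 : 0 ≤ S.M * ∑ c, S.SC α g c ^ 2 :=
        mul_nonneg M0 (sum_nonneg fun c _ => sq_nonneg _)
      exact le_trans (by linarith) (le_mul_of_one_le_left (by linarith) (one_le_pow₀ hS.one_le)))
  rw [S.E_mul, S.E_add, S.E_add, S.E_mul] at key
  obtain ⟨-, -, s1, s2, s3⟩ := hS.par_small hP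
  have q1 : S.Λ ^ A1 * S.Λ ^ A2 * S.Λ ^ 2 ≤ S.Λ ^ (A1 + A2 + A3 + 2) := by
    rw [← pow_add, ← pow_add]; exact hS.pow_mono (by omega)
  have q2 : S.Λ ^ A1 * S.Λ ^ A3 * S.Λ ^ 2 ≤ S.Λ ^ (A1 + A2 + A3 + 2) := by
    rw [← pow_add, ← pow_add]; exact hS.pow_mono (by omega)
  have T0 := hS.th_pos
  have r1 : S.Λ ^ A1 * (S.Λ ^ A2 * S.θ ^ 2) * S.Λ ^ 2 ≤ 1 :=
    calc _ = S.θ ^ 2 * (S.Λ ^ A1 * S.Λ ^ A2 * S.Λ ^ 2) := by ring
      _ ≤ S.θ * S.Λ ^ (A1 + A2 + A3 + 2) := mul_le_mul hS.th_sq q1 (by positivity) T0.le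
      _ ≤ 1 := s2
  have r2 : S.Λ ^ A1 * (S.M * (S.Λ ^ A2 * S.θ ^ 2)) * S.Λ ^ 2 ≤ 1 :=
    calc _ = S.θ ^ 2 * S.M * (S.Λ ^ A1 * S.Λ ^ A2 * S.Λ ^ 2) := by ring
      _ ≤ S.θ * S.M * S.Λ ^ (A1 + A2 + A3 + 2) :=
          mul_le_mul (mul_le_mul_of_nonneg_right hS.th_sq M0) q1 (by positivity) (by positivity)
      _ ≤ 1 := s1
  have r3 : S.Λ ^ A1 * (S.M * S.Λ ^ A3 * S.θ / e ^ 2) * S.Λ ^ 2 ≤ 1 :=
    calc _ = S.M * (S.Λ ^ A1 * S.Λ ^ A3 * S.Λ ^ 2) * S.θ / e ^ 2 := by ring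
      _ ≤ S.M * S.Λ ^ (A1 + A2 + A3 + 2) * S.θ / e ^ 2 := by gcongr
      _ ≤ 1 := s3
  have k2 : S.nrm2 α / (2 * S.Λ) * S.Λ ^ 2 ≤ 3 * S.nrm2 α := by
    refine (mul_le_mul_of_nonneg_right (key.trans (mul_le_mul_of_nonneg_left
      (add_le_add (add_le_add b1 (mul_le_mul_of_nonneg_left b2 M0)) c2) (by positivity)))
      (by positivity)).trans ?_
    nlinarith [mul_le_mul_of_nonneg_right r1 N0, mul_le_mul_of_nonneg_right r2 N0,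
      mul_le_mul_of_nonneg_right r3 N0]
  rw [show S.nrm2 α / (2 * S.Λ) * S.Λ ^ 2 = S.nrm2 α * S.Λ / 2 by field_simp] at k2
  have z0 : S.nrm2 α = 0 := le_antisymm (by nlinarith [hS.num.1]) N0
  have fin : ∀ h z, S.wz h z ≠ 0 → S.ψ (some h) z = α z := fun h z hw => by
    have hz := (hS.wz_p1 hw).1
    have u1 := (sum_eq_zero_iff_of_nonneg fun h _ => sum_nonneg (t0 h)).1
      ((mul_eq_zero.1 z0).resolve_left hS.sig_pos.ne') h (mem_univ h)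
    have u2 := (sum_eq_zero_iff_of_nonneg (t0 h)).1 u1 z hz
    exact sub_eq_zero.1 (pow_eq_zero_iff two_ne_zero |>.1 ((mul_eq_zero.1 u2).resolve_left
      (div_ne_zero hw (hS.p_pos (hS.p1 z hz).1).ne')))
  exact ⟨α, fin, fun g hg gd => (l1 g hg gd α).2 fin⟩

end Pool.Agent.MP_f3836a_nt.VE.F
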