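import Pool.Agent.MP_f3836a_nt.VE.FBase

/-! Part F: the second stage on the base curve. -/

set_option autoImplicit false

namespace Pool.Agent.MP_f3836a_nt.VE.F

open Finset

theorem rS2 : OfS2 := by
  intro hR A1 A2 A3 A4 h1 h2 h3 h4
  refine ⟨A1 + A3 + A4 + (A2 + 5), fun S hS e hP => ?_⟩
  obtain ⟨α, hα⟩ := h3 S hS e (hS.par_mono (by omega) hP)
  obtain ⟨β, hβ⟩ := h4 S hS e (hS.par_mono (by omega) hP) α hα
  obtain ⟨-, e1, -, -, e2⟩ := hS.par_small (hS.par_mono (A := A2 + 5) (by omega) hP)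
  have hL := hS.num.1
  have e0 : 0 ≤ S.M * S.Λ ^ A2 * S.θ / e ^ 2 := by
    have := hS.num.2.2.1
    have := hS.th_pos
    positivity
  have lo := h1 S hS (hS.par_small (hS.par_mono (A := A1) (by omega) hP)).2.2.2.1 none S.c0
    (fun x => (x.map (S.ψ none)).sum - β x) fun x hx => by
      rw [(hβ x hx).1, Multiset.map_map, Multiset.map_congr rfl (f := S.ψ none ∘ Pt.cj)
        (g := fun z => -S.ψ none z) fun z hz => (hS.okp z (hS.st_on hx z hz).1).2.2 none,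
        Multiset.sum_map_neg]
      ring
  have up := hR S hS none S.c0 _ (fun x => (x.map (S.ψ none)).sum - β x) (S.b2 e) e0
    (fun x hx => (h2 S hS e none x _ hP.1 e1 ⟨hS.ad1 _ x hx, (hS.st _ x hx).1,
      hS.Sm_mono one_le_two (hS.st _ x hx).2.1⟩).2 x hx le_rfl)
    fun x hx x' hx' hn => (h2 S hS e none _ _ hP.1 e1 ⟨hS.ad2 _ x hx x' hx' hn, hn,
      S.Sm_add (hS.st _ x hx).2.1 (hS.st _ x' hx').2.1⟩).2 x' hx' (Multiset.le_add_left _ _)
  have key := lo.trans ((S.E_mono fun g hg => hS.TY_mono fun s hs => ?_).trans up)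
  · have q0 : 0 ≤ ∑ x ∈ S.St none, S.w none x * PT x * ((x.map (S.ψ none)).sum - β x) ^ 2 :=
      sum_nonneg fun x hx =>
        mul_nonneg (mul_nonneg (hS.st _ x hx).2.2.1 (PT_nonneg x)) (sq_nonneg _)
    have e3 : S.Λ * (S.Λ ^ 4 * (S.M * S.Λ ^ A2 * S.θ / e ^ 2)) ≤ 1 := by
      refine le_of_eq_of_le ?_ e2
      ring
    have e4 : 0 ≤ S.Λ ^ 4 * (S.M * S.Λ ^ A2 * S.θ / e ^ 2) := by positivity
    rw [div_le_iff₀ (by linarith)] at key
    generalize ∑ x ∈ S.St none, S.w none x * PT x * ((x.map (S.ψ none)).sum - β x) ^ 2 = q at *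
    generalize S.M * S.Λ ^ A2 * S.θ / e ^ 2 = t at *
    have e5 : 4 * (S.Λ ^ 4 * t) ≤ 1 / 2 := by nlinarith
    have e6 := mul_le_mul_of_nonneg_right e5 (add_nonneg (sq_nonneg S.c0) q0)
    exact pow_eq_zero_iff two_ne_zero |>.1 (le_antisymm (by nlinarith) (sq_nonneg _))
  by_cases hb : ∃ i, S.b2 e g (s i)
  · rw [ind_pos hb, one_mul]
  have gd : S.good e g := not_not.1 fun a => hb ⟨0, Or.inl a⟩
  have id := hS.id0 g hg _ (Sys.Ok.mw_ne hs).1 fun z hz => by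
    obtain ⟨i, -, hi⟩ := Multiset.mem_sum.1 (zero_add (∑ i, (s i).1) ▸ hz)
    exact hS.st_on (s i).2 z hi
  have ms : ∀ f : Pt → ℝ, ((∑ i, (s i).1).map f).sum = ∑ i, ((s i).1.map f).sum := fun f =>
    map_sum (Multiset.sumAddMonoidHom.comp (Multiset.mapAddMonoidHom f)) _ _
  rw [(hα.2 g hg gd).1, zero_add, ms, ms,
    sum_congr rfl fun i _ => (hβ _ (s i).2).2 g hg fun a => hb ⟨i, a⟩] at id
  rw [ind_neg hb, zero_mul, sum_sub_distrib, add_sub, id]
  simp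

end Pool.Agent.MP_f3836a_nt.VE.F
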