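import Pool.Agent.MP_f3836a_nt.VE.FBase

/-! Part F: the variance bound. -/

set_option autoImplicit false

namespace Pool.Agent.MP_f3836a_nt.VE.F

open Finset

theorem var_sum {H : Type} [Fintype H] {σ u m α δ : ℝ} {l a : H → ℝ} {d X : H → H → ℝ} (hσ : 0 ≤ σ)
    (hu : 0 ≤ u) (hδ : 0 ≤ δ) (hl : ∀ h, 0 ≤ l h) (ha : ∀ h, 0 ≤ a h) (h1 : σ * ∑ h, l h ≤ m)
    (h2 : σ * ∑ h, a h ≤ α) (h3 : ∀ h, l h * (σ * ∑ h', d h h') ≤ l h * δ)
    (hX : ∀ h h', X h h' ≤ l h * l h' * u + a h * l h' + l h * a h' + l h * d h h') :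
    σ ^ 2 * ∑ h, ∑ h', X h h' ≤ u * m ^ 2 + 2 * α * m + m * δ := by
  have l0 : 0 ≤ σ * ∑ h, l h := mul_nonneg hσ (sum_nonneg fun h _ => hl h)
  have a0 : 0 ≤ σ * ∑ h, a h := mul_nonneg hσ (sum_nonneg fun h _ => ha h)
  have e : σ * ∑ h, l h * (σ * ∑ h', d h h') ≤ m * δ := by
    refine (mul_le_mul_of_nonneg_left (sum_le_sum fun h _ => h3 h) hσ).trans ?_
    rw [← sum_mul, ← mul_assoc]
    exact mul_le_mul_of_nonneg_right h1 hδ
  calc _ ≤ σ ^ 2 * ∑ h, ∑ h', (l h * l h' * u + a h * l h' + l h * a h' + l h * d h h') :=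
        mul_le_mul_of_nonneg_left (sum_le_sum fun h _ => sum_le_sum fun h' _ => hX h h') (sq_nonneg σ)
    _ = u * (σ * ∑ h, l h) ^ 2 + 2 * (σ * ∑ h, a h) * (σ * ∑ h, l h) +
        σ * ∑ h, l h * (σ * ∑ h', d h h') := by
        have e1 : ∑ h, l h * (σ * ∑ h', d h h') = σ * ∑ h, l h * ∑ h', d h h' := by
          rw [mul_sum]
          exact sum_congr rfl fun h _ => by ring
        simp only [e1, sum_add_distrib, ← mul_sum, ← sum_mul]
        ring
    _ ≤ _ := by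
        gcongr
        linarith [a0.trans h2]

theorem var_amgm {ε x y z : ℝ} (h0 : 0 ≤ ε) (h1 : ε ≤ 1) (hx : 1 ≤ x) (hy : 1 ≤ y) (hz : 1 ≤ z) :
    (1 + ε) * (x * y * z) - 1 ≤ ε + 2 * ((x ^ 3 - 1) + (y ^ 3 - 1) + (z ^ 3 - 1)) := by
  have a : 3 * (x * y * z) ≤ x ^ 3 + y ^ 3 + z ^ 3 := by
    nlinarith [mul_nonneg (by linarith : 0 ≤ x + y + z)
      (by positivity : 0 ≤ (x - y) ^ 2 + (y - z) ^ 2 + (z - x) ^ 2)]
  have b : 1 ≤ x * y * z := one_le_mul_of_one_le_of_one_le (one_le_mul_of_one_le_of_one_le hx hy) hz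
  nlinarith [mul_nonneg (sub_nonneg.2 h1) (sub_nonneg.2 b)]

theorem var_four {ε x y z P f f' f'' E1 E2 E2' E3 : ℝ} (h0 : 0 ≤ ε) (hx : 1 ≤ x) (hy : 1 ≤ y)
    (hz : 1 ≤ z) (hP : 0 ≤ P) (hf : 0 ≤ f) (hf' : 0 ≤ f') (hf'' : 0 ≤ f'')
    (e1 : |E1 - P * f| ≤ ε * (P * f)) (e2 : |E2 - P * (f * f')| ≤ ((1 + ε) * x - 1) * (P * (f * f')))
    (e2' : |E2' - P * (f * f'')| ≤ ((1 + ε) * y - 1) * (P * (f * f'')))
    (e3 : |E3 - P * (f * (f' * f''))| ≤ ((1 + ε) * (x * y * z) - 1) * (P * (f * (f' * f'')))) :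
    |E3 - f'' * E2 - f' * E2' + f' * f'' * E1| ≤
      4 * ((1 + ε) * (x * y * z) - 1) * (P * (f * (f' * f''))) := by
  have p : 0 ≤ P * (f * (f' * f'')) := by positivity
  have xy := one_le_mul_of_one_le_of_one_le hx hy
  have k : ∀ t, t ≤ x * y * z → ((1 + ε) * t - 1) * (P * (f * (f' * f''))) ≤
      ((1 + ε) * (x * y * z) - 1) * (P * (f * (f' * f''))) := fun t ht => by gcongr
  have k1 := k 1 (one_le_mul_of_one_le_of_one_le xy hz)
  have k2 := k x (by nlinarith [one_le_mul_of_one_le_of_one_le hy hz])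
  have k3 := k y (by nlinarith [one_le_mul_of_one_le_of_one_le hx hz])
  obtain ⟨a1, a2⟩ := abs_le.1 e1
  obtain ⟨b1, b2⟩ := abs_le.1 e2
  obtain ⟨c1, c2⟩ := abs_le.1 e2'
  obtain ⟨d1, d2⟩ := abs_le.1 e3
  have a3 := mul_le_mul_of_nonneg_left a1 (mul_nonneg hf' hf'')
  have a4 := mul_le_mul_of_nonneg_left a2 (mul_nonneg hf' hf'')
  have b3 := mul_le_mul_of_nonneg_left b1 hf''
  have b4 := mul_le_mul_of_nonneg_left b2 hf''
  have c3 := mul_le_mul_of_nonneg_left c1 hf'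
  have c4 := mul_le_mul_of_nonneg_left c2 hf'
  exact abs_le.2 ⟨by linarith, by linarith⟩

variable {G H Cl : Type} [Fintype H] [Fintype Cl] {S : Sys G H Cl} {c : Option H}
  {Ta T T' : Multiset Pt} {ja j : ℕ} {h h' : H}

/-- the kernel -/
noncomputable def varK (S : Sys G H Cl) (c : Option H) (Ta T T' : Multiset Pt) (ja j : ℕ) (h h' : H) :
    ℝ := S.E fun g => S.I T g * S.Y c Ta ja g * ((S.Y (some h) T' j g - S.fm (some h) T' j) *
      (S.Y (some h') T' j g - S.fm (some h') T' j))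

theorem var_crude (hS : S.Ok) (hn : Nd T) (hT : S.Sm 8 T) (hc : S.ad c Ta ja)
    (h1 : S.ad (some h) T' j) (h2 : S.ad (some h') T' j) :
    |varK S c Ta T T' ja j h h'| ≤ 2 * PT T * S.Ym ^ 3 := by
  have y0 : 0 ≤ S.Ym := by linarith [hS.ym_one]
  have k : ∀ x, S.ad (some x) T' j → ∀ g ∈ S.Gs, |S.Y (some x) T' j g - S.fm (some x) T' j| ≤ S.Ym :=
    fun x a g hg => abs_le.2 ⟨by linarith [hS.Y_nonneg (some x) T' j g, hS.fm_le a, hS.num.2.1],
      by linarith [hS.Y_le hg a, hS.fm_pos a]⟩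
  refine (S.abs_E_le _).trans ((S.E_mono (F' := fun g => S.Ym ^ 3 * S.I T g) fun g hg => ?_).trans ?_)
  · rw [abs_mul, abs_mul, abs_mul, abs_of_nonneg (S.I_nonneg T g), abs_of_nonneg (hS.Y_nonneg _ _ _ _)]
    have := S.I_nonneg T g
    calc _ ≤ S.I T g * S.Ym * (S.Ym * S.Ym) := by
          gcongr
          · exact hS.Y_le hg hc
          · exact k h h1 g hg
          · exact k h' h2 g hg
      _ = _ := by ring
  · rw [S.E_mul, mul_comm]
    exact mul_le_mul_of_nonneg_right (hS.tb1 hn hT) (pow_nonneg y0 3)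

theorem var_gen (hS : S.Ok) (hn : Nd T) (hT : S.Sm 8 T) (hc : S.Cf c Ta ja T)
    (h1 : S.Cf (some h) T' j T) (h2 : S.Cf (some h') T' j T) (n1 : c ≠ some h) (n2 : c ≠ some h')
    (n3 : h ≠ h') : |varK S c Ta T T' ja j h h'| ≤ 4 * S.Λ ^ 3 * PT T * (S.θ ^ 2 +
      2 * (((1 + S.et c (some h)) ^ 3 - 1) + ((1 + S.et c (some h')) ^ 3 - 1) +
        ((1 + S.et (some h) (some h')) ^ 3 - 1))) := by
  have e : ∀ a b, 1 ≤ 1 + S.et a b := fun a b => le_add_of_nonneg_right (hS.eta a b)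
  have k := var_four (sq_nonneg _) (e _ _) (e _ _) (e _ _) (PT_nonneg T) (hS.fm_pos hc.1).le
    (hS.fm_pos h1.1).le (hS.fm_pos h2.1).le (hS.eq1 hn hT hc) (hS.eq2 hn hT n1 hc h1)
    (hS.eq2 hn hT n2 hc h2) (hS.eq3 hn hT n1 n2 (fun x => n3 (Option.some.inj x)) hc h1 h2)
  have a := var_amgm (sq_nonneg S.θ) (hS.th_sq.trans hS.th_le) (e c (some h)) (e c (some h'))
    (e (some h) (some h'))
  rw [← S.E_mul, ← S.E_mul, ← S.E_mul, ← S.E_sub, ← S.E_sub, ← S.E_add] at k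
  have b : 0 ≤ (1 + S.θ ^ 2) * ((1 + S.et c (some h)) * (1 + S.et c (some h')) *
      (1 + S.et (some h) (some h'))) - 1 := sub_nonneg.2 (one_le_mul_of_one_le_of_one_le
    (le_add_of_nonneg_right (sq_nonneg _)) (one_le_mul_of_one_le_of_one_le
      (one_le_mul_of_one_le_of_one_le (e _ _) (e _ _)) (e _ _)))
  have p := PT_nonneg T
  have f0 := (hS.fm_pos hc.1).le
  have f1 := (hS.fm_pos h1.1).le
  have f2 := (hS.fm_pos h2.1).le
  have l := hS.lam_pos.le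
  have b' := b.trans a
  refine (le_of_eq (congrArg abs (S.E_congr fun g _ => by ring))).trans (k.trans ?_)
  calc _ ≤ 4 * (S.θ ^ 2 + 2 * (((1 + S.et c (some h)) ^ 3 - 1) + ((1 + S.et c (some h')) ^ 3 - 1) +
        ((1 + S.et (some h) (some h')) ^ 3 - 1))) * (PT T * (S.Λ * (S.Λ * S.Λ))) := by
        gcongr
        · exact hS.fm_le hc.1
        · exact hS.fm_le h1.1
        · exact hS.fm_le h2.1
    _ = _ := by ring

theorem var_one {ι : Type} [Fintype ι] (p : ι → Prop) (hp : ∀ a b, p a → p b → a = b) :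
    ∑ a, ind (p a) ≤ 1 := by
  by_cases e : ∃ a, p a
  · obtain ⟨a, ha⟩ := e
    rw [sum_eq_single a (fun b _ hb => ind_neg fun x => hb (hp b a x ha)) (by simp)]
    exact ind_le_one _
  · rw [sum_eq_zero fun a _ => ind_neg fun x => e ⟨a, x⟩]
    exact zero_le_one

theorem var_ng (hS : S.Ok) (hn : Nd T) (hT : S.Sm 8 T) (hl : T' ≤ T) :
    S.σ * ∑ x, S.Ym ^ 3 * ind (S.Lk T' x ∧ ¬(c ≠ some x ∧ ∀ z ∈ T, z ∈ T' ∨ ¬S.on (some x) z)) ≤
      (1 + 8 * S.Λ ^ 2) * (S.θ ^ 2 * PT T') := by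
  classical
  have y0 : 0 ≤ S.Ym ^ 3 := pow_nonneg (by linarith [hS.ym_one]) 3
  have s0 := hS.sig_pos.le
  have p := PT_nonneg T'
  have l := hS.lam_pos.le
  have a : ∀ x, ind (S.Lk T' x ∧ ¬(c ≠ some x ∧ ∀ z ∈ T, z ∈ T' ∨ ¬S.on (some x) z)) ≤
      ind (c = some x) + ∑ z ∈ T.toFinset.filter (· ∉ T'), ind (S.Lk (z ::ₘ T') x) := fun x => by
    have n1 := ind_nonneg (c = some x)
    have n2 : 0 ≤ ∑ z ∈ T.toFinset.filter (· ∉ T'), ind (S.Lk (z ::ₘ T') x) :=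
      sum_nonneg fun z _ => ind_nonneg _
    by_cases b : S.Lk T' x ∧ ¬(c ≠ some x ∧ ∀ z ∈ T, z ∈ T' ∨ ¬S.on (some x) z)
    swap
    · rw [ind_neg b]
      linarith
    rw [ind_pos b]
    by_cases e : c = some x
    · rw [ind_pos e]
      linarith
    have := b.2
    push Not at this
    obtain ⟨z, z1, z2, z3⟩ := this e
    have k := single_le_sum (f := fun z => ind (S.Lk (z ::ₘ T') x)) (fun z _ => ind_nonneg _)
      (mem_filter.2 ⟨Multiset.mem_toFinset.2 z1, z2⟩ : z ∈ T.toFinset.filter (· ∉ T'))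
    rw [ind_pos (show S.Lk (z ::ₘ T') x from fun w hw =>
      (Multiset.mem_cons.1 hw).elim (fun e => e ▸ z3) (b.1 w))] at k
    linarith
  have b1 : S.σ * S.Ym ^ 3 * ∑ x, ind (c = some x) ≤ S.θ ^ 2 * PT T' :=
    (mul_le_of_le_one_right (mul_nonneg s0 y0) (var_one _ fun a b x y =>
      Option.some.inj (x.symm.trans y))).trans (hS.atom' (hS.Sm_le hl hT))
  have b2 : ∑ z ∈ T.toFinset.filter (· ∉ T'), S.Ym ^ 3 * (S.σ * ∑ x, ind (S.Lk (z ::ₘ T') x)) ≤
      8 * S.Λ * (S.Λ * (S.θ ^ 2 * PT T')) := by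
    refine (sum_le_card_nsmul _ _ (S.Λ * (S.θ ^ 2 * PT T')) fun z hz => ?_).trans ?_
    · obtain ⟨z1, z2⟩ := mem_filter.1 hz
      have z3 := Multiset.mem_toFinset.1 z1
      have le := (Multiset.cons_le_of_notMem z2).2 ⟨z3, hl⟩
      refine (mul_le_mul_of_nonneg_left (hS.lk _ (Nd_of_le le hn) (hS.Sm_le le hT)) y0).trans ?_
      rw [PT_cons]
      calc _ = S.Λ * (S.Ym ^ 3 / z.p * PT T') := by ring
        _ ≤ _ := by
          gcongr
          exact hS.small (hT.2.2 z z3)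
    · rw [nsmul_eq_mul]
      gcongr
      refine le_trans ?_ (hS.Sm_card hT)
      exact_mod_cast (card_filter_le _ _).trans (Multiset.toFinset_card_le T)
  calc _ ≤ S.σ * ∑ x, S.Ym ^ 3 * (ind (c = some x) +
        ∑ z ∈ T.toFinset.filter (· ∉ T'), ind (S.Lk (z ::ₘ T') x)) := by
        gcongr with x
        exact a x
    _ = S.σ * S.Ym ^ 3 * ∑ x, ind (c = some x) +
        ∑ z ∈ T.toFinset.filter (· ∉ T'), S.Ym ^ 3 * (S.σ * ∑ x, ind (S.Lk (z ::ₘ T') x)) := by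
        rw [← mul_sum, sum_add_distrib, sum_comm, ← mul_sum, ← mul_sum]
        ring
    _ ≤ _ := by linarith

theorem rVar : OfVar := by
  refine ⟨6, fun {G H Cl} _ _ S hS c Ta T T' ja j cf B hn hT hc hl hB ha => ?_⟩
  have hn' := Nd_of_le hl hn
  have hT' := hS.Sm_le hl hT
  have y0 : 0 ≤ S.Ym ^ 3 := pow_nonneg (by linarith [hS.ym_one]) 3
  have s0 := hS.sig_pos.le
  have p := PT_nonneg T
  have p' := PT_nonneg T'
  have l := hS.lam_pos.le
  have lk : ∀ h, cf h ≠ 0 → S.Lk T' h := fun h e => (hS.ad0 _ _ _ (ha h e)).1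
  have cb : ∀ a b, 0 ≤ (1 + S.et a b) ^ 3 - 1 := fun a b =>
    sub_nonneg.2 (one_le_pow₀ (le_add_of_nonneg_right (hS.eta a b)))
  set a1 : H → ℝ := fun h => ind (S.Lk T' h ∧ some h ≠ c) * ((1 + S.et c (some h)) ^ 3 - 1) with ha1
  set a2 : H → H → ℝ := fun h x => ind (S.Lk T' x ∧ some x ≠ some h) *
    ((1 + S.et (some h) (some x)) ^ 3 - 1) with ha2
  set ng : H → ℝ := fun x => S.Ym ^ 3 *
    ind (S.Lk T' x ∧ ¬(c ≠ some x ∧ ∀ z ∈ T, z ∈ T' ∨ ¬S.on (some x) z)) with hng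
  have a10 : ∀ h, 0 ≤ a1 h := fun h => mul_nonneg (ind_nonneg _) (cb _ _)
  have a20 : ∀ h x, 0 ≤ a2 h x := fun h x => mul_nonneg (ind_nonneg _) (cb _ _)
  have ng0 : ∀ h, 0 ≤ ng h := fun h => mul_nonneg y0 (ind_nonneg _)
  have i0 := ind_nonneg
  have key := var_sum (σ := S.σ) (u := B ^ 2 * (4 * S.Λ ^ 3 * PT T * S.θ ^ 2)) (m := S.Λ * PT T')
    (α := B ^ 2 * PT T * ((8 * S.Λ ^ 3 + 2 * (1 + 8 * S.Λ ^ 2)) * (S.θ ^ 2 * PT T')))
    (δ := B ^ 2 * PT T * ((8 * S.Λ ^ 3 + 2) * (S.θ ^ 2 * PT T'))) (l := fun h => ind (cf h ≠ 0))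
    (a := fun h => B ^ 2 * PT T * (8 * S.Λ ^ 3 * a1 h + 2 * ng h))
    (d := fun h x => B ^ 2 * PT T * (8 * S.Λ ^ 3 * a2 h x + 2 * (S.Ym ^ 3 * ind (h = x))))
    (X := fun h x => cf h * cf x * varK S c Ta T T' ja j h x) s0 (by positivity) (by positivity)
    (fun _ => i0 _) (fun h => by have := a10 h; have := ng0 h; positivity)
    ((mul_le_mul_of_nonneg_left (sum_le_sum fun h _ => ind_mono (lk h)) s0).trans (hS.lk T' hn' hT'))
    (by
      have r := hS.row c Ta ja T' hc.1 hn' hT' fun z hz => hc.2.2 z (Multiset.mem_of_le hl hz)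
      have r' := var_ng (c := c) hS hn hT hl
      rw [← mul_sum, sum_add_distrib, ← mul_sum, ← mul_sum, mul_left_comm]
      refine mul_le_mul_of_nonneg_left ?_ (by positivity)
      have := mul_le_mul_of_nonneg_left r (by positivity : 0 ≤ 8 * S.Λ ^ 3)
      linarith)
    (fun h => by
      by_cases e : cf h = 0
      · simp [e, ind]
      refine mul_le_mul_of_nonneg_left ?_ (i0 _)
      have r := hS.row _ T' j T' (ha h e) hn' hT' fun z hz => Or.inl hz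
      have r' : S.σ * S.Ym ^ 3 * ∑ x, ind (h = x) ≤ S.θ ^ 2 * PT T' :=
        (mul_le_of_le_one_right (mul_nonneg s0 y0) (var_one _ fun a b x y => x.symm.trans y)).trans
          (hS.atom' hT')
      rw [← mul_sum, sum_add_distrib, ← mul_sum, ← mul_sum, ← mul_sum, mul_left_comm]
      refine mul_le_mul_of_nonneg_left ?_ (by positivity)
      have := mul_le_mul_of_nonneg_left r (by positivity : 0 ≤ 8 * S.Λ ^ 3)
      linarith)
    (fun h x => by
      have b1 := a10 h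
      have b2 := a10 x
      have b3 := a20 h x
      have b4 := ng0 h
      have b5 := ng0 x
      have b6 := i0 (h = x)
      have b7 := i0 (cf h ≠ 0)
      have b8 := i0 (cf x ≠ 0)
      by_cases e : cf h = 0 ∨ cf x = 0
      · rw [mul_eq_zero.2 e, zero_mul]
        positivity
      obtain ⟨e1, e2⟩ := not_or.1 e
      have k : |varK S c Ta T T' ja j h x| ≤ 4 * S.Λ ^ 3 * PT T * (S.θ ^ 2 + 2 * (a1 h + a1 x + a2 h x)) +
          2 * PT T * (ng h + ng x + S.Ym ^ 3 * ind (h = x)) := by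
        have cr := var_crude (c := c) hS hn hT hc.1 (ha h e1) (ha x e2)
        have q : ∀ t, S.Ym ^ 3 ≤ t → |varK S c Ta T T' ja j h x| ≤
            4 * S.Λ ^ 3 * PT T * (S.θ ^ 2 + 2 * (a1 h + a1 x + a2 h x)) + 2 * PT T * t := fun t ht =>
          (cr.trans (by gcongr)).trans (le_add_of_nonneg_left (by positivity))
        have b9 := mul_nonneg y0 b6
        by_cases g1 : c ≠ some h ∧ ∀ z ∈ T, z ∈ T' ∨ ¬S.on (some h) z
        swap
        · refine q _ ?_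
          have : ng h = S.Ym ^ 3 := by simp only [hng, ind_pos (And.intro (lk h e1) g1), mul_one]
          linarith
        by_cases g2 : c ≠ some x ∧ ∀ z ∈ T, z ∈ T' ∨ ¬S.on (some x) z
        swap
        · refine q _ ?_
          have : ng x = S.Ym ^ 3 := by simp only [hng, ind_pos (And.intro (lk x e2) g2), mul_one]
          linarith
        by_cases g3 : h = x
        · refine q _ ?_
          rw [ind_pos g3]
          linarith
        refine (var_gen hS hn hT hc ⟨ha h e1, hl, g1.2⟩ ⟨ha x e2, hl, g2.2⟩ g1.1 g2.1 g3).trans ?_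
        simp only [ha1, ha2, ind_pos (And.intro (lk h e1) g1.1.symm), ind_pos (And.intro (lk x e2) g2.1.symm),
          ind_pos (And.intro (lk x e2) fun y : some x = some h => g3 (Option.some.inj y).symm), one_mul]
        exact le_add_of_nonneg_right (by positivity)
      have B0 : 0 ≤ B := (abs_nonneg _).trans (hB h)
      rw [ind_pos e1, ind_pos e2]
      refine (le_abs_self _).trans ?_
      rw [abs_mul, abs_mul]
      exact (mul_le_mul (mul_le_mul (hB h) (hB x) (abs_nonneg _) B0) k (abs_nonneg _)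
        (mul_nonneg B0 B0)).trans_eq (by ring))
  have e : S.E (fun g => S.I T g * S.Y c Ta ja g
      * (S.σ * ∑ h, cf h * (S.Y (some h) T' j g - S.fm (some h) T' j)) ^ 2) =
      S.σ ^ 2 * ∑ h, ∑ x, cf h * cf x * varK S c Ta T T' ja j h x := by
    simp only [varK, ← S.E_mul, ← S.E_sum]
    refine S.E_congr fun g _ => ?_
    rw [mul_pow, sq (∑ _, _), sum_mul_sum, mul_left_comm, mul_sum]
    congr 1
    refine sum_congr rfl fun h _ => ?_
    rw [mul_sum]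
    exact sum_congr rfl fun x _ => by ring
  have L := hS.num.1
  have z : 4 * S.Λ ^ 5 + 24 * S.Λ ^ 4 + 32 * S.Λ ^ 3 + 6 * S.Λ ≤ S.Λ ^ 6 := by
    have c1 := hS.pow_mono (show 1 ≤ 5 by norm_num)
    have c3 := hS.pow_mono (show 3 ≤ 5 by norm_num)
    have c4 := hS.pow_mono (show 4 ≤ 5 by norm_num)
    nlinarith [mul_le_mul_of_nonneg_right L (pow_nonneg l 5), pow_nonneg l 5]
  have := mul_le_mul_of_nonneg_left z (by positivity : 0 ≤ B ^ 2 * S.θ ^ 2 * (PT T * PT T' ^ 2))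
  rw [e]
  linarith

end Pool.Agent.MP_f3836a_nt.VE.F
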