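import Pool.Agent.MP_f3836a_nt.VE.FHu
import Pool.Agent.MP_f3836a_nt.VE.FPex
import Pool.Agent.MP_f3836a_nt.VE.FModX
import Pool.Agent.MP_f3836a_nt.VE.FModA
import Pool.Agent.MP_f3836a_nt.VE.FModB
import Pool.Agent.MP_f3836a_nt.VE.FLsq
import Pool.Agent.MP_f3836a_nt.VE.FQc
import Pool.Agent.MP_f3836a_nt.VE.FQx
import Pool.Agent.MP_f3836a_nt.VE.FFr
import Pool.Agent.MP_f3836a_nt.VE.FPru
import Pool.Agent.MP_f3836a_nt.VE.FSg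
import Pool.Agent.MP_f3836a_nt.VE.FCon
import Pool.Agent.MP_f3836a_nt.VE.FVar
import Pool.Agent.MP_f3836a_nt.VE.FBil0
import Pool.Agent.MP_f3836a_nt.VE.FBil1
import Pool.Agent.MP_f3836a_nt.VE.FDeg
import Pool.Agent.MP_f3836a_nt.VE.FCru
import Pool.Agent.MP_f3836a_nt.VE.FDva
import Pool.Agent.MP_f3836a_nt.VE.FDvb
import Pool.Agent.MP_f3836a_nt.VE.FDv2
import Pool.Agent.MP_f3836a_nt.VE.FDg1
import Pool.Agent.MP_f3836a_nt.VE.FDg0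
import Pool.Agent.MP_f3836a_nt.VE.FBad
import Pool.Agent.MP_f3836a_nt.VE.FLow
import Pool.Agent.MP_f3836a_nt.VE.FRem
import Pool.Agent.MP_f3836a_nt.VE.FMar
import Pool.Agent.MP_f3836a_nt.VE.FLnk
import Pool.Agent.MP_f3836a_nt.VE.FAex
import Pool.Agent.MP_f3836a_nt.VE.FLr
import Pool.Agent.MP_f3836a_nt.VE.FS1
import Pool.Agent.MP_f3836a_nt.VE.FBg
import Pool.Agent.MP_f3836a_nt.VE.FBe
import Pool.Agent.MP_f3836a_nt.VE.FS1t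
import Pool.Agent.MP_f3836a_nt.VE.FS2
import Pool.Agent.MP_f3836a_nt.VE.FMain

/-! Part F: assembly. -/

set_option autoImplicit false

namespace Pool.Agent.MP_f3836a_nt.VE.F

/-- rigidity of finite systems -/
theorem fMain : FMain := by
  obtain ⟨C, hPex⟩ := rPex rHu
  obtain ⟨_, hModA⟩ := rModA rModX C hPex
  obtain ⟨_, hQc⟩ := rQc
  obtain ⟨_, hFr⟩ := rFr rQx _ hQc
  obtain ⟨_, hSg⟩ := rSg rLsq rPru _ hFr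
  obtain ⟨_, hVar⟩ := rVar
  obtain ⟨_, hB0⟩ := rBil0
  obtain ⟨_, hB1⟩ := rBil1
  obtain ⟨_, hDeg⟩ := rDeg
  obtain ⟨_, hCru⟩ := rCru
  obtain ⟨_, hDva⟩ := rDva _ hVar
  obtain ⟨_, hDvb⟩ := rDvb _ _ _ hVar hDeg hCru
  obtain ⟨_, hDv2⟩ := rDv2 _ _ hVar hDeg
  obtain ⟨_, hDg1⟩ := rDg1 _ _ _ _ hDva hDvb hDeg hCru
  obtain ⟨_, hDg0⟩ := rDg0 _ hDeg
  obtain ⟨_, hBad⟩ := rBad _ _ _ _ _ hDva hDvb hDv2 hDg1 hDg0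
  obtain ⟨_, hLow⟩ := rLow
  obtain ⟨_, hLnk⟩ := rLnk rMar rModB _ _ hModA hSg
  obtain ⟨_, hAex⟩ := rAex _ _ hB0 hB1
  obtain ⟨_, hLr⟩ := rLr rRem _ _ hLow hBad
  obtain ⟨_, hS1⟩ := rS1 _ _ _ hLnk hAex hLr
  obtain ⟨_, hBg⟩ := rBg
  obtain ⟨_, hBe⟩ := rBe _ hBad
  obtain ⟨_, hS1t⟩ := rS1t rCon _ _ _ hB0 hBg hBe
  obtain ⟨_, hS2⟩ := rS2 rRem _ _ _ _ hLow hBad hS1 hS1t
  exact rMain _ hS2

end Pool.Agent.MP_f3836a_nt.VE.F
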