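import Pool.Agent.MP_f3836a_nt.VE.SpecE2
import Pool.Agent.MP_f3836a_nt.VE.EId

/-! Part E: archimedean rigidity for the concrete system. -/

set_option autoImplicit false

namespace Pool.Agent.MP_f3836a_nt.VE

open Polynomial Finset

theorem sAr : SAr := by
  intro api nr sc cel D h g hg s
  obtain ⟨J, As, Bs, hI, -⟩ := h.ids
  obtain ⟨y2, k0, y19, -, -, -, -, hin, -⟩ := sc _ _ _ h.sc
  have mon := (api D.Γ _ h.gok (h.fam.cu none).1 g).1
  obtain ⟨hm, hd⟩ := EId.ng_monic h.gok.deg mon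
  obtain ⟨c1, c2⟩ := cel D.t0 D.Γ.W D.k0 (D.J1 + 1) h.gok.pos.1 h.sc.dvd D.J1.succ_pos
  have W0 : (0 : ℝ) < D.Γ.W' := Nat.cast_pos.2 h.gok.pos.2
  have H0 : (0 : ℝ) < D.Γ.H := Nat.cast_pos.2 (h.gok.side.1.trans_le h.gok.side.2)
  obtain ⟨S, S0, lip, var, zer⟩ := h.ar D.t0 (((D.Γ.W' : ℝ) * D.Γ.H) ^ 2 / 2) s _ _ hm hd
    (by have := h.gok.five; omega) (by positivity) (fun t ht => by
      have := h.ngr g hg t ht.1 ht.2
      exact ⟨this.1, by linarith [this.2]⟩) (hI.sum _ _ mon)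
  have J0 : (0 : ℝ) < (D.J1 + 1 : ℕ) := by positivity
  have mem : ∀ a : Fin (D.J1 + 1), (D.t0 : ℝ) + (a : ℕ) / (D.J1 + 1 : ℕ) ∈
      Set.Icc (D.t0 : ℝ) (D.t0 + 1) := fun a =>
    ⟨le_add_of_nonneg_right (by positivity),
      add_le_add_right ((div_le_one J0).2 (Nat.cast_le.2 a.2.le)) _⟩
  have ce : ∀ a ∈ D.HH, (D.cell a : ℕ) = cellOf D.t0 D.k0 (D.J1 + 1) a := fun a ha =>
    min_eq_left (Nat.le_of_lt_succ (c2 a (h.hh.1 ha)).1)
  refine ⟨S, fun a => BC.va (Ng D.Γ.f (D.Γ.gA g) (D.Γ.gB g)) (D.c (D.Γ.gA g) (D.Γ.gB g)) s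
    (D.t0 + (a : ℕ) / (D.J1 + 1 : ℕ)) + s * (2 * D.Γ.m * Real.log ((D.k0 : ℝ) ^ 2)), S0,
    fun a => ?_, fun a a' => ?_, fun x => ?_, fun e => ⟨(zer e).1, fun _ => (zer e).2 _⟩⟩
  · obtain ⟨-, a1, a2⟩ := c2 a (h.hh.1 a.2)
    obtain ⟨b1, b2⟩ := hin _ _ (h.hh.1 a.2)
    have K0 : (0 : ℝ) < (D.k0 : ℝ) ^ 2 := by positivity
    have e :=
      (nr D.Γ D.t0 (cuH D.Γ.f D.k0 a) h.gok (h.fam.cu (some a)).1 h.ngr b1.le b2.le g hg).2.2
    have l := lip ((a.1 : ℝ) / (D.k0 : ℝ) ^ 2) ⟨(le_div_iff₀ K0).2 (by exact_mod_cast b1.le),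
      (div_le_iff₀ K0).2 (by exact_mod_cast b2.le)⟩ _ (mem (D.cell a))
    rw [← ce a a.2] at a1 a2
    have u : |(a.1 : ℝ) / (D.k0 : ℝ) ^ 2 - (D.t0 + (D.cell a : ℕ) / (D.J1 + 1 : ℕ))| ≤ D.η := by
      have : 1 / ((D.J1 + 1 : ℕ) : ℝ) ≤ D.η := (div_le_iff₀ J0).2 (by simpa using h.cel.2.2.2.2.1)
      rw [abs_of_nonneg (by linarith)]
      rw [add_div] at a2
      linarith
    refine le_trans (le_of_eq ?_)
      (l.trans ((mul_le_mul_of_nonneg_left u S0).trans_eq (mul_comm _ _)))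
    congr 1
    change ug _ _ ((a.1 : ℝ) / ((D.k0 : ℤ) : ℝ) ^ 2) + s * Real.log _ - (_ + _) = _
    rw [e]
    simp only [BC.va, cuH, Int.cast_natCast, Dat.sys]
    push_cast
    ring
  · rw [add_sub_add_right_eq_sub]
    refine (lip _ (mem a) _ (mem a')).trans (mul_le_of_le_one_right S0 (abs_le.2 ⟨?_, ?_⟩)) <;>
      linarith [(mem a).1, (mem a).2, (mem a').1, (mem a').2]
  · have L : ((D.J1 + 1 : ℕ) : ℝ) ≤ Lc D.Γ.W D.k0 := by
      push_cast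
      exact h.cel.2.2.2.2.2.trans ((le_self_pow₀ (by linarith) (by norm_num)).trans y19)
    have l1 := h.num.2.2.2.2.2.1
    have hc := h.hh.2
    have C0 : (0 : ℝ) < D.HH.card :=
      (mul_pos_iff_of_pos_left (by linarith)).1 (J0.trans_le (L.trans hc))
    have := var D.sys.mc (fun a => D.t0 + (a : ℕ) / (D.J1 + 1 : ℕ))
      (x - s * (2 * D.Γ.m * Real.log ((D.k0 : ℝ) ^ 2)))
      (fun a => ⟨by simp only [Dat.sys]; positivity, ?_⟩) ?_ fun a => ⟨le_rfl, by gcongr; linarith⟩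
    · refine this.trans_eq ?_
      congr 1
      refine sum_congr rfl fun a _ => ?_
      ring
    · have q : ((D.HH.filter fun b => D.cell b = a).card : ℝ) ≤ _ :=
        le_trans (Nat.cast_le.2 (card_le_card fun b hb => mem_filter.2 ⟨h.hh.1 (mem_filter.1 hb).1,
          by rw [← ce b (mem_filter.1 hb).1, (mem_filter.1 hb).2]⟩)) (c1 a)
      refine (div_le_div_iff₀ C0 J0).2 ((mul_le_mul_of_nonneg_right q J0.le).trans ?_)
      rw [add_mul, div_mul_cancel₀ _ J0.ne']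
      linarith
    · simp only [Dat.sys]
      rw [← sum_div, ← Nat.cast_sum, ← card_eq_sum_card_fiberwise fun _ _ => mem_univ _,
        div_self C0.ne']

end Pool.Agent.MP_f3836a_nt.VE
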