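import Pool.Agent.MP_f3836a_nt.VE.SpecE2

/-! Part E: the identities for the concrete system. -/

set_option autoImplicit false

namespace Pool.Agent.MP_f3836a_nt.VE

open Polynomial Finset

theorem sId : SId := by
  intro api ids pts D R
  have vp : ∀ z, z ∈ Pts D.Γ.f D.Y0 (D.Y ^ 2) → Vp D.Γ z := fun z hz => by
    obtain ⟨h1, h2, -⟩ := mem_Pts.1 hz
    refine ⟨h1, fun h => ?_⟩
    have h3 : (z.p : ℝ) ≤ D.Γ.W := Nat.cast_le.2 (Nat.le_of_dvd R.gok.pos.1 h)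
    linarith [R.win.1]
  obtain ⟨J, As, Bs, hI, hA, hB, hW⟩ := R.ids
  have key := ids D.Γ D.t0 D.A0 J D.e D.e' D.k0 As Bs D.ϖ D.ψ D.ψ0 D.φ D.c D.c0 R.gok hI hA hB hW
  refine ⟨fun g _ c M hE z hz h1 h2 => ?_, fun g _ h M hE => ?_, fun g _ h M hE hM => ?_,
    fun g _ M hE hM => ?_, fun z hz => ?_⟩
  · exact ((api D.Γ _ R.gok (R.fam.cu c).1 g).2.2.2.1 z (vp z h1) h2).1 (hE.2.1 z hz)
  · have h1 : (nT M : ℤ) = ((cuH D.Γ.f D.k0 h).gam D.Γ g).norm := hE.2.2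
    change _ = Real.log ((cuH D.Γ.f D.k0 h).gam D.Γ g).norm
    rw [← h1, Int.cast_natCast]
  · have := (key g M fun z hz => vp z (hM z hz).1).1 h (R.hh.1 h.2) (R.fam.cu (some h)).1
      (fun z hz => (hM z hz).2) hE
    rw [← Int.cast_natCast (R := ℝ) D.k0] at this
    exact this
  · have := (key g M fun z hz => vp z (hM z hz).1).2 (R.fam.cu none).1
      (fun z hz => (hM z hz).2) hE
    rw [show (D.t0 : ℝ) = D.t0 / ((1 : ℤ) : ℝ) ^ 2 by simp] at this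
    exact this
  · obtain ⟨h1, h2, -⟩ := mem_Pts.1 hz
    obtain ⟨n1, n2, n3, -⟩ := R.num
    refine ⟨(pts _ z h1).2.1, ?_, ?_⟩
    · change D.Ym ^ 3 ≤ D.θ ^ 2 * z.p
      have h3 : 0 ≤ D.Ym ^ 3 := pow_nonneg (by linarith) 3
      linarith [R.win.2.2.2, mul_le_mul_of_nonneg_left h2 (sq_nonneg D.θ),
        mul_le_mul_of_nonneg_right n1 h3]
    · rintro (_ | h)
      · exact hI.anti0 z h1
      · exact hI.anti _ _ z h1

end Pool.Agent.MP_f3836a_nt.VE
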