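import Pool.Agent.MP_f3836a_nt.VE.SpecE3

/-! The base hypotheses for the base curve. -/

set_option autoImplicit false

namespace Pool.Agent.MP_f3836a_nt.VE

open Polynomial Finset

namespace XBH0

theorem gd {f : ℤ[X]} {t0 : ℤ} {A0 : ℕ} (h : Crv f t0 A0) {z : Pt} (hz : IsPt f z)
    (ho : On t0 1 z) : BC.Gd A0 ss0 z := by
  obtain ⟨hp, h2, -, hy, hy', hd⟩ := hz
  have a : (z.p : ℤ) ∣ f.eval (z.t : ℤ) - f.eval t0 := by
    refine Dvd.dvd.trans ?_ (sub_dvd_eval_sub _ _ f)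
    simpa [On] using ho
  have b : (z.p : ℤ) ∣ (z.y : ℤ) ^ 2 + A0 := by
    have := dvd_add hd a
    rwa [h.val, sub_add_sub_cancel, sub_neg_eq_add] at this
  refine ⟨hp, fun hA => ?_, ?_⟩
  · rcases (Nat.Prime.dvd_mul hp).1 hA with c | c
    · exact h2 ((Nat.prime_dvd_prime_iff_eq hp Nat.prime_two).1 c)
    · have d : (z.p : ℤ) ∣ (z.y : ℤ) ^ 2 := (dvd_add_left (Int.natCast_dvd_natCast.2 c)).1 b
      have e : z.p ∣ z.y ^ 2 := by exact_mod_cast d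
      exact absurd (Nat.le_of_dvd hy (hp.dvd_of_dvd_pow e)) (not_le.2 hy')
  · convert b using 2
    rw [ss0]
    ring

theorem pw_bd (g : Pt → ℝ) (b : ℝ) (T : Multiset Pt) (h : ∀ z ∈ T, 0 ≤ g z ∧ g z ≤ b) :
    0 ≤ pw g T ∧ pw g T ≤ b ^ T.card := by
  unfold pw
  induction T using Multiset.induction_on with
  | empty => simp
  | cons z T ih =>
    obtain ⟨a, c⟩ := ih fun w hw => h w (Multiset.mem_cons_of_mem hw)
    obtain ⟨d, e⟩ := h z (Multiset.mem_cons_self _ _)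
    rw [Multiset.map_cons, Multiset.prod_cons, Multiset.card_cons, pow_succ']
    exact ⟨mul_nonneg d a, mul_le_mul e c a (d.trans e)⟩

end XBH0

open XBH0 in
theorem xBH0 : OfBH0 := by
  classical
  intro hPt hPc hB hF f t0 A0 hc N E1 E0 c hN hE1 hE0 hc0
  obtain ⟨C, hC⟩ := hF A0 hc.one
  refine ⟨max C (((E1 : ℝ) / 2) ^ N / c), 2 + A0 + ((E1 : ℝ) / c) ^ 2, ?_⟩
  intro W Y0 TT0 _ hW hY hT
  obtain ⟨big, zm, sub, cj, mass⟩ := hT
  have hA : (0 : ℝ) ≤ A0 := Nat.cast_nonneg _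
  have hq := sq_nonneg ((E1 : ℝ) / c)
  have hY2 : 2 ≤ Y0 := by linarith
  have hl : 0 < Real.log Y0 := Real.log_pos (by linarith)
  have hS : ∀ z ∈ PtsOn f Y0 (Y0 ^ E1) t0 1,
      (IsPt f z ∧ Y0 ≤ z.p ∧ (z.p : ℝ) < Y0 ^ E1) ∧ On t0 1 z := fun z hz => by
    rw [PtsOn, mem_filter, mem_Pts] at hz
    exact hz
  have h2 := ((hPc f _ fun z hz => (hS z hz).1.1).2.2 t0 1 fun z hz =>
    ⟨(hS z hz).2, fun h => (hS z hz).1.1.1.one_lt.ne'
      (by exact_mod_cast Int.eq_one_of_dvd_one (Nat.cast_nonneg _) h)⟩).1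
  obtain ⟨b1, b2⟩ := hB (PtsOn f Y0 (Y0 ^ E1) t0 1) N
  have hs1 : ∑ z ∈ PtsOn f Y0 (Y0 ^ E1) t0 1,
      lg z / Zm (PtsOn f Y0 (Y0 ^ E1) t0 1) / z.p = 1 := by
    have : ∀ z : Pt, lg z / Zm (PtsOn f Y0 (Y0 ^ E1) t0 1) / z.p =
        lg z / z.p / Zm (PtsOn f Y0 (Y0 ^ E1) t0 1) := fun z => div_right_comm _ _ _
    simp only [this]
    rw [← sum_div]
    exact div_self (by linarith : Zm (PtsOn f Y0 (Y0 ^ E1) t0 1) ≠ 0)
  generalize Zm (PtsOn f Y0 (Y0 ^ E1) t0 1) = Z at *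
  generalize PtsOn f Y0 (Y0 ^ E1) t0 1 = S at *
  have hZ : 0 < Z := by linarith
  have hg : ∀ z ∈ S, 0 ≤ lg z / Z ∧ lg z / Z ≤ (E1 : ℝ) / 2 := fun z hz => by
    refine ⟨div_nonneg (Real.log_natCast_nonneg _) hZ.le, ?_⟩
    obtain ⟨⟨-, a, b⟩, -⟩ := hS z hz
    have d : lg z ≤ E1 * Real.log Y0 := by
      rw [← Real.log_pow]
      exact Real.log_le_log (by linarith) b.le
    rw [div_le_iff₀ hZ]
    have : (0 : ℝ) ≤ E1 := Nat.cast_nonneg _
    nlinarith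
  have hg' : ∀ z ∈ S, 0 ≤ lg z / Z / z.p ∧ lg z / Z / z.p ≤ (E1 : ℝ) / 2 / Y0 := fun z hz =>
    ⟨div_nonneg (hg z hz).1 (Nat.cast_nonneg _),
      div_le_div₀ (by positivity) (hg z hz).2 (by linarith) (hS z hz).1.2.1⟩
  have hnn : ∀ T ∈ Blk S N, 0 ≤ bw Z T * PT T := fun T hT => by
    rw [← pw_bw]
    exact (pw_bd _ _ T fun z hz => hg' z (((b1 T).1 hT).2.2 z hz)).1
  have hm : 0 < ∑ T ∈ TT0, bw Z T * PT T := hc0.trans_le mass
  refine ⟨hc.one, fun z hz => ?_, fun z z' hz hz' e => ?_, fun x hx => ?_, fun x hx => ?_, ?_,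
    fun x hx => ⟨cj x hx, ?_⟩, fun x hx => ?_, fun p => ?_, ?_, ?_⟩
  · obtain ⟨-, a, -, -, b, -⟩ := hPt f z hz.1
    exact ⟨gd hc hz.1 hz.2.2, a, b 1⟩
  · exact (hPt f z hz.1).2.2.2.2.2 t0 1 z' hz'.1 e.symm (fun h => hz.1.1.one_lt.ne'
      (by exact_mod_cast Int.eq_one_of_dvd_one (Nat.cast_nonneg _) h)) hz.2.2 hz'.2.2
  · obtain ⟨a, b, d⟩ := (b1 x).1 (sub hx)
    refine ⟨b, a, fun z hz => ?_⟩
    obtain ⟨⟨u, v, w⟩, o⟩ := hS z (d z hz)
    refine ⟨⟨u, fun h => ?_, o⟩, v, w⟩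
    have : (z.p : ℝ) ≤ W := by exact_mod_cast Nat.le_of_dvd hW h
    linarith
  · exact div_nonneg (hnn x (sub hx)) hm.le
  · unfold BC.nz
    rw [← sum_div]
    exact div_self hm.ne'
  · unfold BC.nz bw PT nT
    simp only [Multiset.map_map]
    rfl
  · obtain ⟨-, b, d⟩ := (b1 x).1 (sub hx)
    obtain ⟨u, v⟩ := pw_bd (fun z => lg z / Z) _ x fun z hz => hg z (d z hz)
    rw [b] at v
    refine le_trans ?_ (le_max_right _ _)
    have w : PT x * nT x ≤ 1 := by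
      rw [PT, one_div]
      exact inv_mul_le_one_of_le₀ le_rfl (Nat.cast_nonneg _)
    unfold BC.nz
    rw [div_mul_eq_mul_div, mul_assoc]
    refine div_le_div₀ (u.trans v) ?_ hc0 mass
    exact (mul_le_of_le_one_right u w).trans v
  · have a := ((b2 (fun z => lg z / Z / z.p) ((E1 : ℝ) / 2 / Y0) (by positivity) hg').2
      (by convert h2)).2 p
    simp only [pw_bw, hs1, one_pow, mul_one] at a
    unfold BC.nz
    rw [← sum_div]
    have b : ∑ x ∈ TT0.filter fun x => p ∈ x.map Pt.p, bw Z x * PT x ≤ 2 * ((E1 : ℝ) / 2 / Y0) := by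
      refine le_trans (sum_le_sum_of_subset_of_nonneg (fun x hx => ?_) fun x hx _ => ?_) a
      · rw [mem_filter] at hx ⊢
        exact ⟨sub hx.1, hx.2⟩
      · exact hnn x (mem_filter.1 hx).1
    refine (div_le_div₀ (by positivity) b hc0 mass).trans ?_
    have r : 0 < √Y0 := Real.sqrt_pos.2 (by linarith)
    have s : (E1 : ℝ) / c ≤ √Y0 := Real.le_sqrt_of_sq_le (by linarith)
    have t : √Y0 * √Y0 = Y0 := Real.mul_self_sqrt (by linarith)
    have u : 2 * ((E1 : ℝ) / 2 / Y0) / c = E1 / c / (√Y0 * √Y0) := by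
      rw [t]
      field_simp
    rw [u, ← div_div]
    exact div_le_div_of_nonneg_right ((div_le_one r).2 s) r.le
  · exact (by linarith : (A0 : ℝ) ≤ Y0).trans (le_self_pow₀ (by linarith) (by omega))
  · exact (hC Y0 hY2).trans (mul_le_mul_of_nonneg_right (le_max_left _ _) (Real.sqrt_nonneg _))

end Pool.Agent.MP_f3836a_nt.VE
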