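import Pool.Agent.MP_f3836a_nt.VE.SpecE3

/-! Part E: parts B and C for the base curve. -/

set_option autoImplicit false

namespace Pool.Agent.MP_f3836a_nt.VE

open Polynomial Finset

namespace XBaseC

theorem cv_rng {ι : Type} {St : Finset ι} {μ : ι → ℝ} {u : ι → ℕ} {J j U : ℕ} {v : ℤ}
    (hu : ∀ x ∈ St, u x < U) (hJ : J ≤ U) (h : cv St μ u J j v ≠ 0) :
    0 ≤ v ∧ (v : ℝ) ≤ 2 * j * U := by
  unfold cv at h
  obtain ⟨s, -, hs⟩ := exists_ne_zero_of_sum_ne_zero h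
  have h2 := right_ne_zero_of_mul hs
  have h3 : ((∑ i, (u (s i).1 + (s i).2) : ℕ) : ℤ) = v := by
    by_contra hc
    exact h2 (if_neg hc)
  have h4 : ∑ i, (u (s i).1 + (s i).2) ≤ j * (2 * U) := by
    have := sum_le_card_nsmul (univ : Finset (Fin j)) (fun i => u (s i).1 + (s i).2) (2 * U)
      fun i _ => by
        have a := hu _ (s i).1.2
        have b := (s i).2.2
        omega
    simpa using this
  refine ⟨h3 ▸ Int.natCast_nonneg _, ?_⟩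
  rw [← h3, Int.cast_natCast]
  calc ((∑ i, (u (s i).1 + (s i).2) : ℕ) : ℝ) ≤ (j * (2 * U) : ℕ) := by exact_mod_cast h4
    _ = 2 * j * U := by push_cast; ring

theorem log_rng {Y : ℝ} {E1 : ℕ} (hY : 0 < Y) (T : Multiset Pt)
    (h : ∀ z ∈ T, Y ≤ z.p ∧ (z.p : ℝ) < Y ^ E1) : nT T ≠ 0 ∧
    T.card * Real.log Y ≤ Real.log (nT T) ∧ Real.log (nT T) ≤ T.card * (E1 * Real.log Y) := by
  induction T using Multiset.induction_on with
  | empty => simp [nT]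
  | cons z T ih =>
    obtain ⟨h0, h1, h2⟩ := ih fun z' hz' => h z' (Multiset.mem_cons_of_mem hz')
    obtain ⟨h3, h4⟩ := h z (Multiset.mem_cons_self _ _)
    have hp : (0 : ℝ) < z.p := hY.trans_le h3
    have e : nT (z ::ₘ T) = z.p * nT T := by simp [nT]
    have h0' : (nT T : ℝ) ≠ 0 := by exact_mod_cast h0
    have h5 := Real.log_le_log hY h3
    have h6 := Real.log_le_log hp h4.le
    rw [Real.log_pow] at h6
    rw [e, Multiset.card_cons, Nat.cast_mul, Real.log_mul hp.ne' h0']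
    refine ⟨mul_ne_zero (by exact_mod_cast hp.ne') h0, ?_, ?_⟩
    · push_cast
      linarith
    · push_cast
      linarith

theorem p_cj (T : Multiset Pt) : (T.map Pt.cj).map Pt.p = T.map Pt.p := by
  rw [Multiset.map_map]
  rfl

theorem nT_cj (T : Multiset Pt) : nT (T.map Pt.cj) = nT T := by
  unfold nT
  rw [p_cj]

/-- the steps which avoid the exceptional primes -/
def cut (S : Finset (Multiset Pt)) (LL : Finset ℕ) : Finset (Multiset Pt) :=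
  S.filter fun x => ∀ l ∈ LL, l ∉ x.map Pt.p

theorem mass_cut {S St : Finset (Multiset Pt)} {μ : Multiset Pt → ℝ} {LL : Finset ℕ} {t : ℝ}
    (hS : S ⊆ St) (h0 : ∀ x ∈ St, 0 ≤ μ x)
    (h : ∀ p : ℕ, ∑ x ∈ St.filter fun x => p ∈ x.map Pt.p, μ x ≤ t) :
    ∑ x ∈ S, μ x ≤ ∑ x ∈ cut S LL, μ x + LL.card * t := by
  have h1 : ∑ l ∈ LL, ∑ x ∈ S, (if l ∈ x.map Pt.p then μ x else 0) ≤ LL.card * t := by
    rw [← nsmul_eq_mul]
    refine sum_le_card_nsmul _ _ _ fun l _ => le_trans ?_ (h l)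
    rw [← sum_filter]
    exact sum_le_sum_of_subset_of_nonneg (filter_subset_filter _ hS)
      fun x hx _ => h0 x (mem_filter.1 hx).1
  rw [sum_comm] at h1
  refine le_trans ?_ (add_le_add le_rfl h1)
  unfold cut
  rw [sum_filter, ← sum_add_distrib]
  refine sum_le_sum fun x hx => ?_
  have hx0 := h0 x (hS hx)
  have hn : ∀ l ∈ LL, 0 ≤ if l ∈ x.map Pt.p then μ x else 0 := fun l _ => by
    split_ifs
    · exact hx0
    · exact le_rfl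
  split_ifs with hc
  · linarith [sum_nonneg hn]
  · push Not at hc
    obtain ⟨l, hl, hl'⟩ := hc
    have := single_le_sum hn hl
    rw [if_pos hl'] at this
    linarith

theorem close {η X X1 L t : ℝ} {v v0 : ℤ} {a j : ℝ} (hη : 0 < η) (hX : |X - X1| ≤ 1)
    (hX1 : X1 = η * v0 + (j + a) * t) (h : |η * v - (X - L - j * t)| ≤ 2 + 1) :
    |(v : ℝ) - (v0 - ⌊(L - a * t) / η⌋ : ℤ)| ≤ 4 / η + 1 := by
  have h1 := Int.floor_le ((L - a * t) / η)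
  have h2 := Int.lt_floor_add_one ((L - a * t) / η)
  have h3 : |(v : ℝ) - v0 + (L - a * t) / η| ≤ 4 / η := by
    have e : (v : ℝ) - v0 + (L - a * t) / η = ((η * v - (X - L - j * t)) + (X - X1)) / η := by
      rw [hX1]
      field_simp
      ring
    rw [e, abs_div, abs_of_pos hη]
    exact div_le_div_of_nonneg_right ((abs_add_le _ _).trans (by linarith)) hη.le
  rw [abs_le] at h3 ⊢
  push_cast
  constructor <;> linarith [h3.1, h3.2]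

theorem fl_rng {η L t e : ℝ} {U a : ℝ} (hη : 0 < η) (he : η * U = (e - 1) * t)
    (h1 : a * t ≤ L) (h2 : L ≤ a * (e * t)) :
    (0 : ℝ) ≤ (⌊(L - a * t) / η⌋ : ℤ) ∧ ((⌊(L - a * t) / η⌋ : ℤ) : ℝ) ≤ a * U := by
  refine ⟨by exact_mod_cast Int.floor_nonneg.2 (div_nonneg (by linarith) hη.le),
    (Int.floor_le _).trans ?_⟩
  rw [div_le_iff₀ hη]
  have : a * U * η = a * (e * t) - a * t := by
    rw [mul_assoc, mul_comm U, he]
    ring
  linarith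

theorem pw_le {a b : ℝ} {m n : ℕ} (ha : a ≤ 1) (hb : 0 ≤ b) (hab : b ≤ a) (h : n ≤ m) :
    (1 - a) ^ m ≤ (1 - b) ^ n :=
  (pow_le_pow_left₀ (by linarith) (by linarith) m).trans
    (pow_le_pow_of_le_one (by linarith) (by linarith) h)

/-- the sequence of levels -/
noncomputable def dd (d0 : ℝ) (M0 i : ℕ) : ℝ := min d0 1 / (16 * (M0 : ℝ) ^ 3 + 16) ^ i

theorem dd_pos {d0 : ℝ} (h : 0 < d0) (M0 i : ℕ) : 0 < dd d0 M0 i := by
  unfold dd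
  have := lt_min h one_pos
  positivity

theorem dd_anti {d0 : ℝ} (h : 0 < d0) (M0 : ℕ) : Antitone (dd d0 M0) := fun i j hij => by
  unfold dd
  have h1 : (0 : ℝ) ≤ (M0 : ℝ) ^ 3 := by positivity
  exact div_le_div_of_nonneg_left (lt_min h one_pos).le (by positivity)
    (pow_le_pow_right₀ (by linarith) hij)

theorem dd_zero (d0 : ℝ) (M0 : ℕ) : dd d0 M0 0 = min d0 1 := by simp [dd]

theorem dd_succ {d0 : ℝ} (h : 0 < d0) (M0 i : ℕ) :
    (M0 : ℝ) ^ 3 * dd d0 M0 (i + 1) ≤ dd d0 M0 i / 16 := by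
  have h1 : (0 : ℝ) ≤ (M0 : ℝ) ^ 3 := by positivity
  have h2 := dd_pos h M0 (i + 1)
  have e : dd d0 M0 i = (16 * (M0 : ℝ) ^ 3 + 16) * dd d0 M0 (i + 1) := by
    unfold dd
    rw [pow_succ' _ i, ← mul_div_assoc, mul_div_mul_left _ _ (by positivity)]
  rw [e]
  linarith

theorem big (C' ε0 dm : ℝ) (M1 J : ℕ) (hε : 0 < ε0) (hd : 0 < dm) : ∃ Y2 : ℝ,
    ∀ Y : ℝ, Y2 ≤ Y → 2 ≤ Y ∧ (J : ℝ) ≤ Y ∧ M1 * (1 / √Y) ≤ dm / 16 ∧
      C' * (5 / Real.log Y) ≤ ε0 ^ 2 / 2 := by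
  refine ⟨max (max 2 J) (max ((16 * M1 / dm) ^ 2) (Real.exp (10 * C' / ε0 ^ 2))), fun Y hY => ?_⟩
  simp only [max_le_iff] at hY
  obtain ⟨⟨h1, h2⟩, h3, h4⟩ := hY
  have hY0 : 0 < Y := by linarith
  have hs : 0 < √Y := Real.sqrt_pos.2 hY0
  have hl : 0 < Real.log Y := Real.log_pos (by linarith)
  refine ⟨h1, h2, ?_, ?_⟩
  · have := Real.le_sqrt_of_sq_le h3
    rw [div_le_iff₀ hd] at this
    rw [mul_one_div, div_le_div_iff₀ hs (by norm_num)]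
    linarith
  · have := (Real.le_log_iff_exp_le hY0).2 h4
    rw [div_le_iff₀ (by positivity)] at this
    rw [mul_div_assoc', div_le_div_iff₀ hl (by norm_num)]
    linarith

theorem ad_data {TT : Finset (Multiset Pt)} {Q : Pt → Prop} {N κ j : ℕ} {T : Multiset Pt}
    (hT : ∀ x ∈ TT, x.card = N ∧ Nd x ∧ ∀ z ∈ x, Q z) (h : adS TT κ T j) :
    ∃ a : ℕ, 1 ≤ a ∧ a ≤ 2 ∧ j + a = κ + 2 ∧ T.card = a * N ∧ Nd T ∧ (∀ z ∈ T, Q z) ∧
      ∃ xs : Multiset (Multiset Pt), T = 0 + xs.sum ∧ (∀ x ∈ xs, x ∈ TT) ∧ xs.card = a := by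
  rcases h with ⟨h, rfl⟩ | ⟨x, hx, x', hx', rfl, hn, rfl⟩
  · obtain ⟨h1, h2, h3⟩ := hT T h
    exact ⟨1, le_rfl, one_le_two, rfl, by rw [h1, one_mul], h2, h3, {T}, by simp,
      by simpa using h, by simp⟩
  · obtain ⟨h1, -, h3⟩ := hT x hx
    obtain ⟨h1', -, h3'⟩ := hT x' hx'
    refine ⟨2, one_le_two, le_rfl, rfl, by rw [Multiset.card_add, h1, h1', two_mul], hn,
      fun z hz => (Multiset.mem_add.1 hz).elim (h3 z) (h3' z), x ::ₘ {x'}, by simp, ?_, by simp⟩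
    intro y hy
    rcases Multiset.mem_cons.1 hy with rfl | hy
    · exact hx
    · rwa [Multiset.mem_singleton.1 hy]

/-- the model values -/
noncomputable def ff (TT : Finset (Multiset Pt)) (μ : Multiset Pt → ℝ) (N E1 : ℕ) (Y : ℝ) (U J : ℕ)
    (v0 : ℤ) (P : Multiset ℕ) (j : ℕ) : ℝ :=
  U * cv TT (BC.nz TT μ) (BC.uu N E1 Y U) J j
    (v0 - ⌊(Real.log (P.prod : ℕ) - P.card * Real.log Y) / BC.eta N E1 Y U⌋)

theorem ff_eq (TT : Finset (Multiset Pt)) (μ : Multiset Pt → ℝ) (N E1 : ℕ) (Y : ℝ) (U J : ℕ)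
    (v0 : ℤ) (T : Multiset Pt) (j a : ℕ) (h : T.card = a * N) :
    ff TT μ N E1 Y U J v0 (T.map Pt.p) j = U * cv TT (BC.nz TT μ) (BC.uu N E1 Y U) J j
      (v0 - ⌊(Real.log (nT T) - a * (N * Real.log Y)) / BC.eta N E1 Y U⌋) := by
  unfold ff nT
  rw [Multiset.card_map, h, Nat.cast_mul, mul_assoc]

theorem eta_facts {N E1 U : ℕ} {Y : ℝ} (hN : 1 ≤ N) (hE : 2 ≤ E1) (hY : 2 ≤ Y) (hU : Y ≤ U) :
    0 < BC.eta N E1 Y U ∧ BC.eta N E1 Y U * U = ((E1 : ℝ) - 1) * (N * Real.log Y) ∧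
      (4 / BC.eta N E1 Y U + 1) / U ≤ 5 / Real.log Y := by
  have hl : 0 < Real.log Y := Real.log_pos (by linarith)
  have hU0 : (0 : ℝ) < U := by linarith
  have hN' : (1 : ℝ) ≤ N := by exact_mod_cast hN
  have hE' : (1 : ℝ) ≤ (E1 : ℝ) - 1 := by
    have : (2 : ℝ) ≤ E1 := by exact_mod_cast hE
    linarith
  have h1 : 0 < BC.eta N E1 Y U := by
    unfold BC.eta
    positivity
  have h2 : BC.eta N E1 Y U * U = ((E1 : ℝ) - 1) * (N * Real.log Y) := by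
    unfold BC.eta
    field_simp
  refine ⟨h1, h2, ?_⟩
  have h3 : Real.log Y ≤ BC.eta N E1 Y U * U := by
    rw [h2]
    exact (le_mul_of_one_le_left hl.le hN').trans (le_mul_of_one_le_left (by positivity) hE')
  have h4 : Real.log Y ≤ U := (Real.log_le_self (by linarith)).trans hU
  have h5 := div_le_div_of_nonneg_left (by norm_num : (0 : ℝ) ≤ 4) hl h3
  have h6 := div_le_div_of_nonneg_left (by norm_num : (0 : ℝ) ≤ 1) hl h4
  rw [add_div, div_div]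
  have e : 5 / Real.log Y = 4 / Real.log Y + 1 / Real.log Y := by ring
  linarith

theorem x1_rng {η t e j U v : ℝ} (hη : 0 < η) (ht : 0 ≤ t) (hj : 0 ≤ j) (he : η * U = (e - 1) * t)
    (h0 : 0 ≤ v) (h1 : v ≤ 2 * j * U) : j * t ≤ η * v + j * t ∧ η * v + j * t ≤ 2 * j * e * t := by
  have h2 := mul_le_mul_of_nonneg_left h1 hη.le
  have h3 : η * (2 * j * U) = 2 * j * e * t - 2 * (j * t) := by
    rw [show η * (2 * j * U) = 2 * j * (η * U) by ring, he]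
    ring
  have h4 := mul_nonneg hj ht
  have h5 := mul_nonneg hη.le h0
  constructor <;> linarith

theorem low {cb Cb : ℝ} {j : ℕ} (hcb : 0 < cb) (h : 1 / Cb ≤ cb) (hj : 1 ≤ j) :
    1 / (Cb * j) ≤ cb / √j := by
  have h1 : (1 : ℝ) ≤ j := by exact_mod_cast hj
  have h2 : √(j : ℝ) ≤ j := Real.sqrt_le_self_iff.2 (Or.inr h1)
  have h3 : 0 < √(j : ℝ) := Real.sqrt_pos.2 (by linarith)
  rw [← div_div]
  exact div_le_div₀ hcb.le h h3 h2

theorem win {cb a U : ℝ} {j : ℕ} (hcb : 0 < cb) (h : (2 / cb) ^ 2 ≤ j) (ha : a ≤ 2) (hU : 0 ≤ U) :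
    a * U ≤ cb * √j * U := by
  have h1 := Real.le_sqrt_of_sq_le h
  rw [div_le_iff₀' hcb] at h1
  exact mul_le_mul_of_nonneg_right (by linarith) hU

theorem lip {C' Cb r s t ε0 ε Λ fm : ℝ} (hC : 0 ≤ C') (hCb : 2 * C' ≤ Cb) (hε0 : 0 < ε0)
    (h1 : ε0 ≤ ε) (h2 : Λ * ε0 ≤ 1) (h3 : 1 ≤ Λ) (hr : C' * r ≤ ε0 ^ 2 / 2) (hs : s ≤ t)
    (ht : 0 ≤ t) (h4 : Cb * Λ * t ≤ ε) (hf : 1 / Λ ≤ fm) : C' * (r + s) ≤ ε * fm := by
  have hΛ : 0 < Λ := by linarith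
  have hε : 0 ≤ ε := by linarith
  have a1 : ε0 ≤ 1 / Λ := by
    rw [le_div_iff₀' hΛ]
    exact h2
  have a2 : ε0 ^ 2 ≤ ε * fm := by
    rw [sq]
    exact mul_le_mul h1 (a1.trans hf) hε0.le hε
  have a3 : Cb * t ≤ ε * fm := by
    refine le_trans ?_ (mul_le_mul_of_nonneg_left hf hε)
    rw [mul_one_div, le_div_iff₀ hΛ]
    linarith
  have a4 := mul_le_mul_of_nonneg_left hs hC
  have a5 := mul_le_mul_of_nonneg_right hCb ht
  linarith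

theorem consts (C C' : ℝ) {a b : ℝ} (ha : 0 < a) (hb : 0 < b) :
    ∃ Cb : ℝ, 1 ≤ Cb ∧ C ≤ Cb ∧ 2 * C' ≤ Cb ∧ 1 / Cb ≤ a ∧ 1 / Cb ≤ b := by
  obtain ⟨Cb, h⟩ : ∃ Cb : ℝ, max (max 1 C) (max (2 * C') (max (1 / a) (1 / b))) ≤ Cb := ⟨_, le_rfl⟩
  simp only [max_le_iff] at h
  obtain ⟨⟨h1, h2⟩, h3, h4, h5⟩ := h
  exact ⟨Cb, h1, h2, h3, (one_div_le (by linarith) ha).2 h4, (one_div_le (by linarith) hb).2 h5⟩

end XBaseC

open XBaseC in
theorem xBaseC : OfBaseC := by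
  intro hC hB hH _ f t0 A0 hcrv N E1 E0 c hN hE1 hE0 hc
  obtain ⟨C1, Y1h, hBH⟩ := hH f t0 A0 hcrv N E1 E0 c hN hE1 hE0 hc
  obtain ⟨N', M0, M1, Mx, d0, hN', hd0, hC⟩ := hC N E0 E1 C1 hN hE0 hE1
  refine ⟨N', M1, hN', fun E => ?_⟩
  obtain ⟨k', J0, C, cc, hk', hC1, hcc, hcc1, hC⟩ := hC E
  obtain ⟨J0b, k1b, cb, C', hcb, hcb1, hC', -, -, -, hB⟩ := hB k' C hk' hC1
  have hdm := dd_pos hd0 M0 M0
  obtain ⟨Cb, hCb1, hCbC, hCbC', hCbb, hCbc⟩ :=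
    consts C C' hcb (show 0 < cc * dd d0 M0 M0 ^ 2 by positivity)
  obtain ⟨k1, hk1a, hk1b, hk1c⟩ : ∃ k1 : ℕ, 2 * k' + 4 ≤ k1 ∧ k1b ≤ k1 ∧ (2 / cb) ^ 2 ≤ k1 :=
    ⟨2 * k' + 4 + k1b + ⌈(2 / cb) ^ 2⌉₊, by omega, by omega,
      (Nat.le_ceil _).trans (by exact_mod_cast Nat.le_add_left _ _)⟩
  refine ⟨k1, Cb, hCb1, fun W kM ε0 hW h6 hε0 => ?_⟩
  obtain ⟨J, hJ0, hJb⟩ : ∃ J : ℕ, J0 ≤ J ∧ J0b ≤ J := ⟨_, le_max_left _ _, le_max_right _ _⟩
  obtain ⟨Y00, hC⟩ := hC (dd d0 M0) W J kM 2 ε0 (dd_anti hd0 M0) (dd_pos hd0 M0)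
    (by rw [dd_zero]; exact min_le_left _ _) hW hJ0 hε0
  obtain ⟨Y2, hY2⟩ := big C' ε0 _ M1 J hε0 hdm
  refine ⟨max Y1h (max Y00 Y2), fun Y TT0 hY hT => ?_⟩
  simp only [max_le_iff] at hY
  obtain ⟨hY2, hJY, hsm, hlg⟩ := hY2 Y hY.2.2
  have hbh := hBH W Y TT0 h6 (by have := hW.1; omega) hY.1 hT
  generalize (BC.nz TT0 fun T => bw (Zm (PtsOn f Y (Y ^ E1) t0 1)) T * PT T) = μ at hbh
  obtain ⟨i, St1, LL, lab, Z0, ρ, hi, hS1, hcj1, hm1, hLL, hLL', hZ0, -, -, hρ, hC⟩ :=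
    hC Y A0 ss0 _ TT0 μ hY.2.1 hbh
  have hY0 : 0 < Y := by linarith
  have hdi : dd d0 M0 M0 ≤ dd d0 M0 i := dd_anti hd0 M0 hi
  have hd1 : dd d0 M0 i ≤ 1 := (dd_anti hd0 M0 (Nat.zero_le i)).trans
    (by rw [dd_zero]; exact min_le_right _ _)
  have hmass : 1 - dd d0 M0 i / 8 ≤ ∑ x ∈ cut St1 LL, μ x := by
    have h1 := mass_cut (LL := LL) hS1 hbh.pos hbh.sml
    have h2 := dd_succ hd0 M0 i
    have h3 : (LL.card : ℝ) * (1 / √Y) ≤ M1 * (1 / √Y) :=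
      mul_le_mul_of_nonneg_right (by exact_mod_cast hLL) (by positivity)
    linarith
  have hs1 : cut St1 LL ⊆ St1 := filter_subset _ _
  have hcut : ∀ T ∈ cut St1 LL, T.map Pt.cj ∈ cut St1 LL ∧ ∀ z ∈ T, z.p ∉ LL := fun T hT => by
    obtain ⟨h1, h2⟩ := mem_filter.1 hT
    exact ⟨mem_filter.2 ⟨hcj1 T h1, by rwa [p_cj]⟩,
      fun z hz hl => h2 _ hl (Multiset.mem_map_of_mem _ hz)⟩
  obtain ⟨hrw, hU⟩ := hC (cut St1 LL) hs1 hmass
  generalize cut St1 LL = TT at hmass hs1 hcut hrw hU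
  clear hC hBH
  have hs0 : TT ⊆ TT0 := hs1.trans hS1
  have hpos : 0 < ∑ x ∈ TT, μ x := by linarith
  have hnz : ∀ x ∈ TT, 0 ≤ BC.nz TT μ x := fun x hx => div_nonneg (hbh.pos x (hs0 hx)) hpos.le
  have hone : ∑ x ∈ TT, BC.nz TT μ x = 1 := by
    unfold BC.nz
    rw [← sum_div, div_self hpos.ne']
  refine ⟨⟨TT, BC.wt TT μ, LL, ρ⟩, hs0, fun T hT => ⟨(hcut T hT).1, ?_,
    mul_nonneg (hnz T hT) (Nat.cast_nonneg _), (hcut T hT).2⟩, ?_, ⟨hLL, hLL'⟩, hρ, hrw, ?_⟩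
  · simp only [BC.wt, BC.nz, nT_cj, (hbh.cj T (hs0 hT)).2]
  · rw [← hone]
    refine sum_congr rfl fun T hT => ?_
    have h0 : (nT T : ℝ) ≠ 0 := by
      exact_mod_cast (log_rng hY0 T fun z hz => ((hbh.stp T (hs0 hT)).2.2 z hz).2).1
    simp only [BC.wt, PT]
    field_simp
  intro U κ hYU hUE hdiv hk1 hkM
  obtain ⟨hu, hcv, hS⟩ := hU U hYU hUE
  have hJU : J ≤ U := by exact_mod_cast hJY.trans hYU
  have h2U : 2 ≤ U := by exact_mod_cast hY2.trans hYU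
  have hU0 : (0 : ℝ) < U := hY0.trans_le hYU
  have hl : 0 < Real.log Y := Real.log_pos (by linarith)
  have hB' := fun j : ℕ => hB _ TT (BC.nz TT μ) (BC.uu N E1 Y U) U J j hJb hJU h2U
    (fun x hx => ⟨hnz x hx, hu x (hs0 hx)⟩) hone hcv
  clear hB hU hrw
  obtain ⟨v0, -, hv0⟩ := (hB' (κ + 2) (by omega)).2.2.1 (by omega)
  obtain ⟨hη, hηU, hη5⟩ := eta_facts hN hE1 hY2 hYU
  have hlow := low hcb hCbb (show 1 ≤ κ + 2 by omega)
  have hv : 0 ≤ v0 ∧ (v0 : ℝ) ≤ 2 * (κ + 2 : ℕ) * U := by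
    refine cv_rng (μ := BC.nz TT μ) (fun x hx => hu x (hs0 hx)) hJU fun h => ?_
    have h1 := hv0 0 (by omega) v0 (by rw [sub_self, abs_zero]; positivity)
    rw [Nat.sub_zero, h, mul_zero] at h1
    exact absurd h1 (not_le.2 (by positivity))
  have hx := x1_rng hη (show 0 ≤ N * Real.log Y by positivity) (Nat.cast_nonneg (κ + 2)) hηU
    (show (0 : ℝ) ≤ v0 by exact_mod_cast hv.1) hv.2
  have hf : ∀ T j, adS TT κ T j → 1 / (Cb * (κ + 2 : ℕ)) ≤ ff TT μ N E1 Y U J v0 (T.map Pt.p) j ∧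
      ff TT μ N E1 Y U J v0 (T.map Pt.p) j ≤ Cb := fun T j hT => by
    obtain ⟨a, -, ha2, hja, hca, -, hz, -⟩ := ad_data (fun x hx => hbh.stp x (hs0 hx)) hT
    obtain ⟨-, h1, h2⟩ := log_rng hY0 T fun z hz' => (hz z hz').2
    rw [hca, Nat.cast_mul] at h1 h2
    obtain ⟨h3, h4⟩ := fl_rng hη hηU (a := a) (L := Real.log (nT T))
      (by linarith) (by linarith)
    rw [ff_eq _ _ _ _ _ _ _ _ _ _ a hca]
    refine ⟨hlow.trans ?_, ((hB' j (by omega)).1 _).2.trans hCbC⟩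
    have h5 := hv0 a ha2 (v0 - ⌊(Real.log (nT T) - a * (N * Real.log Y)) / BC.eta N E1 Y U⌋) (by
      rw [Int.cast_sub, sub_sub_cancel_left, abs_neg, abs_of_nonneg h3]
      exact h4.trans (win hcb (hk1c.trans (by exact_mod_cast hk1)) (by exact_mod_cast ha2) hU0.le))
    rwa [show κ + 2 - a = j by omega] at h5
  refine ⟨BC.eta N E1 Y U * v0 + (κ + 2 : ℕ) * (N * Real.log Y), ff TT μ N E1 Y U J v0,
    by linarith [hx.1], by linarith [hx.2], hf, ?_⟩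
  intro X V Qm ε Λ ε' K hNm hX hΛ hdec
  obtain ⟨⟨n1, n2, n3, n4⟩, ⟨n5, n6, n7, n8⟩, n9, n10⟩ := hNm
  have hCb0 : 0 ≤ 1 / Cb := by positivity
  have hCb' : 0 ≤ 1 - 1 / Cb := by linarith
  refine hS _ _ X V Qm ε Λ ε' K n1 n2 n3 n4 n5 n6 n7 n8
    ((mul_le_mul_of_nonneg_right hCbC (by linarith)).trans n9)
    ((mul_le_mul_of_nonneg_right hCbC (by linarith)).trans n10) fun T j hT => ?_
  obtain ⟨a, -, ha2, hja, hca, hnd, hz, xs, hxs, hxs', hxa⟩ :=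
    ad_data (fun x hx => hbh.stp x (hs0 hx)) hT
  have hfl : 1 / Λ ≤ ff TT μ N E1 Y U J v0 (T.map Pt.p) j :=
    (one_div_le_one_div_of_le (by positivity) hΛ).trans (hf T j hT).1
  refine ⟨hnd, fun z hz' => (hz z hz').1, by omega, by omega, hfl, le_trans ?_ hdec,
    ⟨0, xs, hxs, hZ0, fun x hx => hs1 (hxs' x hx), by rwa [hxa, add_comm, hja]⟩, fun v hv' => ?_⟩
  · have h1 : cc * dd d0 M0 i ^ 2 ≤ 1 :=
      mul_le_one₀ hcc1 (by positivity) (pow_le_one₀ (by linarith) hd1)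
    have h2 : cc * dd d0 M0 M0 ^ 2 ≤ cc * dd d0 M0 i ^ 2 :=
      mul_le_mul_of_nonneg_left (pow_le_pow_left₀ hdm.le hdi 2) hcc.le
    exact mul_le_mul (le_mul_of_one_le_left (by linarith) hCb1)
      (pw_le h1 hCb0 (hCbc.trans h2) (by omega)) (pow_nonneg (by linarith) _) (by positivity)
  · have h1 := close (v0 := v0) (a := a) hη hX (by rw [← hja, Nat.cast_add]) hv'
    have h2 := (hB' j (by omega)).2.1 v
      (v0 - ⌊(Real.log (nT T) - a * (N * Real.log Y)) / BC.eta N E1 Y U⌋)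
    have hj : (1 : ℝ) ≤ j := by exact_mod_cast (show 1 ≤ j by omega)
    have h3 := (div_le_div₀ (by positivity) h1 hU0 (le_mul_of_one_le_left hU0.le hj)).trans hη5
    rw [← ff_eq _ _ _ _ _ _ _ _ _ _ a hca] at h2
    exact h2.trans (lip (by linarith) hCbC' hε0 n1 n3 n4
      ((mul_le_mul_of_nonneg_left h3 (by linarith)).trans hlg)
      (pw_le hcb1 hCb0 hCbb (show κ + 2 - k1 ≤ j - 2 * k' by omega)) (pow_nonneg hCb' _) hdec hfl)

end Pool.Agent.MP_f3836a_nt.VE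

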