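import Pool.Agent.MP_f3836a_nt.VE.SpecE3

/-! Row XLev: the level, the modulus and the scales. -/

set_option autoImplicit false

namespace Pool.Agent.MP_f3836a_nt.VE

open Polynomial Finset

namespace XLev

theorem pig (s : Finset ℤ) (g : ℤ → ℕ) (M : ℕ) (h : ∀ a ∈ s, g a ≤ M) :
    ∃ i ≤ M, s.card ≤ (M + 1) * (s.filter fun a => g a = i).card := by
  obtain ⟨i, hi, h1⟩ := exists_max_image (range (M + 1))
    (fun i => (s.filter fun a => g a = i).card) nonempty_range_add_one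
  refine ⟨i, Nat.lt_succ_iff.1 (mem_range.1 hi), ?_⟩
  rw [card_eq_sum_card_fiberwise (t := range (M + 1)) (f := g) fun a ha =>
    mem_coe.2 (mem_range.2 (Nat.lt_succ_iff.2 (h a ha)))]
  exact (sum_le_card_nsmul _ _ _ h1).trans (by rw [card_range, smul_eq_mul])

theorem hw {N N' P : ℕ} (h : 0 < N * N') (h3 : 3 ≤ P)
    (hP : ∀ l : ℕ, l.Prime → l ≤ N * N' → l ∣ P) : BC.HW N ((N * N') ^ 2 * P) := by
  refine ⟨h3.trans (Nat.le_mul_of_pos_left _ (pow_pos h 2)), N' ^ 2 * P, by ring,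
    fun l hl e => Dvd.dvd.mul_left ?_ _⟩
  exact ((Nat.Prime.dvd_mul hl).1 e).elim
    (fun e => hP l hl (Nat.le_of_dvd h (hl.dvd_of_dvd_pow e))) id

end XLev

open XLev

open Classical in
theorem xLev : OfLev := by
  intro hP hB H0 H1 S b o N M0 M1 Mx L Λ2 hΛ hs h1 h2 h3
  set R := H1.filter fun a => ∃ T ∈ Blk S (N * Mx + M1), ∀ z ∈ T, On a b z with hR
  have h4 : (H0.filter fun a => ∃ T ∈ Blk S (N * Mx + M1), ∀ z ∈ T, On a b z).card
      ≤ R.card + (H0 \ H1).card := by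
    refine (card_le_card fun a ha => ?_).trans (card_union_le _ _)
    obtain ⟨a1, a2⟩ := mem_filter.1 ha
    by_cases a3 : a ∈ H1
    · exact mem_union_left _ (mem_filter.2 ⟨a3, a2⟩)
    · exact mem_union_right _ (mem_sdiff.2 ⟨a1, a3⟩)
  obtain ⟨i, hi, h5⟩ := pig R (fun a => (o a).i) M0 fun a ha => (h3 a (mem_filter.1 ha).1).1
  refine ⟨i, hi, R.filter fun a => (o a).i = i,
    (filter_subset _ _).trans (filter_subset _ _), ?_, fun a ha => ?_⟩
  · have h6 := mul_le_mul_of_nonneg_left ((Nat.cast_le (α := ℝ)).2 h4) hΛ.le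
    have h7 := mul_le_mul_of_nonneg_left ((Nat.cast_le (α := ℝ)).2 h5) hΛ.le
    push_cast at h6 h7
    linarith
  · obtain ⟨a1, a2⟩ := mem_filter.1 ha
    obtain ⟨a3, T, t1, t2⟩ := mem_filter.1 a1
    obtain ⟨-, b1, b2, b3⟩ := h3 a a3
    obtain ⟨t3, t4, t5⟩ := ((hB S _).1 T).1 t1
    obtain ⟨T', u1, u2, u3, u4⟩ := hP (o a).lab (range Mx) (o a).LL N Mx M1 T t3
      (Nat.zero_lt_of_lt (b2 ⟨0, 0, 0⟩)) (card_range _).le b1 t4.ge fun z _ => mem_range.2 (b2 z)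
    exact ⟨a2, T', ((hB S N).1 T').2 ⟨Multiset.nodup_of_le (Multiset.map_le_map u1) t3, u2,
      fun z hz => t5 z (Multiset.mem_of_le u1 hz)⟩,
      fun z hz => ⟨t2 z (Multiset.mem_of_le u1 hz), u3 z hz⟩, b3 T' u2 u4⟩

theorem xW : WS := by
  intro N N' p0 hN hN' hp
  have h : 0 < N * N' := Nat.mul_pos hN hN'
  refine ⟨(N * N') ^ 2, fun w => ?_⟩
  set s := (range (w + N * N' + p0 + 4)).filter Nat.Prime with hs
  have h1 : ∀ l : ℕ, l.Prime → l ≤ w + N * N' + p0 + 3 → l ∣ ∏ l ∈ s, l := fun l a b =>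
    dvd_prod_of_mem _ (mem_filter.2 ⟨mem_range.2 (by omega), a⟩)
  have h2 : 0 < ∏ l ∈ s, l := prod_pos fun l hl => (mem_filter.1 hl).2.pos
  have h3 := h1 3 Nat.prime_three (by omega)
  have h4 : ∀ l : ℕ, l.Prime → l ≤ N * N' → l ∣ ∏ l ∈ s, l := fun l a b => h1 l a (by omega)
  refine ⟨(N * N') ^ 2 * ∏ l ∈ s, l, hw h (Nat.le_of_dvd h2 h3) h4, ?_, Dvd.dvd.mul_left ?_ _,
    (h1 p0 hp (by omega)).mul_left _, fun e => ?_, fun l a b => (h1 l a (by omega)).mul_left _⟩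
  · rw [mul_comm N N'] at h h4 ⊢
    exact hw h (Nat.le_of_dvd h2 h3) h4
  · exact Nat.Coprime.mul_dvd_of_dvd_of_dvd (by norm_num : Nat.Coprime 2 3)
      (h1 2 Nat.prime_two (by omega)) h3
  · rw [← mul_prod_erase s _ (mem_filter.2 ⟨mem_range.2 (by omega), hp⟩ : p0 ∈ s), pow_succ',
      mul_left_comm, Nat.mul_dvd_mul_iff_left hp.pos] at e
    have h5 : (p0 ^ (N * N') ^ 2).Coprime (∏ l ∈ s.erase p0, l) :=
      Nat.Coprime.pow_left _ (Nat.Coprime.prod_right fun l hl =>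
        (Nat.coprime_primes hp (mem_filter.1 (mem_of_mem_erase hl)).2).2 (ne_of_mem_erase hl).symm)
    exact (Nat.lt_pow_self hp.one_lt).not_ge
      (Nat.le_of_dvd (pow_pos h 2) (h5.dvd_of_dvd_mul_right e))

theorem xScl : SclS := by
  intro W A' Y1 hW hA
  have hW' : (2 : ℝ) ≤ W := by exact_mod_cast hW
  have hA' : (1 : ℝ) ≤ A' := by exact_mod_cast hA
  obtain ⟨s, hs⟩ := pow_unbounded_of_one_lt (|Y1| + 1 + 420 * A') (show (1 : ℝ) < W by linarith)
  have h0 := abs_nonneg Y1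
  have hs0 : s ≠ 0 := by
    rintro rfl
    rw [pow_zero] at hs
    linarith
  have h1 : (W : ℝ) ≤ W ^ s := le_self_pow₀ (by linarith) hs0
  generalize ht : (W : ℝ) ^ s = t at hs h1
  have h2 : t < t ^ 2 := by nlinarith
  have h3 : 1 < t ^ 2 := by linarith
  have h4 : t ^ 2 ≤ (t ^ 2) ^ 10 := le_self_pow₀ h3.le (by norm_num)
  have h5 : (t ^ 2) ^ 10 ≤ ((t ^ 2) ^ 10) ^ A' := le_self_pow₀ (by linarith) hA.ne'
  refine ⟨W ^ (s * (200 * A')), _, _, t ^ 2, ⟨hW, dvd_pow_self _ (by positivity),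
    fun l a b => a.dvd_of_dvd_pow b, ?_, by linarith⟩, rfl, rfl, by linarith [le_abs_self Y1], h3,
    h4, h5, ?_, fun ε h => ⟨?_, ?_⟩, fun K E hK hE h => ?_⟩
  · rw [Nat.cast_pow, pow_mul, ht]
    ring
  · rw [Real.log_mul two_ne_zero (by positivity)]
    simp only [Real.log_pow]
    have a1 := Real.log_le_sub_one_of_pos two_pos
    have a2 := mul_le_mul_of_nonneg_left (Real.log_le_self (show 0 ≤ t by linarith))
      (show (0 : ℝ) ≤ A' by linarith)
    push_cast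
    nlinarith
  · rw [← pow_mul, ← Real.rpow_natCast_mul (by linarith)]
    refine (Real.rpow_le_rpow_of_exponent_le h3.le ?_).trans (Real.rpow_one _).le
    push_cast
    linarith
  · rw [← Real.rpow_natCast_mul (by linarith)]
    refine (Real.rpow_le_rpow_of_exponent_le h3.le ?_).trans (Real.rpow_one _).le
    push_cast
    rcases le_total ε 0 with a | a <;> nlinarith
  · generalize ((t ^ 2) ^ 10) ^ A' = Y at h h5
    have a1 : 1 ≤ Y ^ E := one_le_pow₀ (by linarith)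
    have a2 := Nat.le_ceil (Y ^ E)
    have a3 := (Nat.ceil_lt_add_one (show 0 ≤ Y ^ E by linarith)).le
    have a4 : 0 < ⌈Y ^ E⌉₊ := Nat.ceil_pos.2 (by linarith)
    have a5 : (1 : ℝ) ≤ K := by exact_mod_cast hK
    refine ⟨2 * ⌈Y ^ E⌉₊, by omega, dvd_mul_right _ _, ?_, ?_⟩ <;> push_cast
    · nlinarith
    · calc _ ≤ (K : ℝ) * (2 * (Y ^ E + Y ^ E)) := by gcongr; linarith
        _ = Y ^ E * (4 * K) := by ring
        _ ≤ _ := by rw [pow_succ]; gcongr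

end Pool.Agent.MP_f3836a_nt.VE
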