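import Pool.Agent.MP_f3836a_nt.VE.SpecE3

/-! Part E: blocks with many admissible curves. -/

set_option autoImplicit false

namespace Pool.Agent.MP_f3836a_nt.VE

open Polynomial Finset

theorem xTT : OfXTT := by
  classical
  intro pt sc lks blk tts f t0 W k0 N E1 A' Y Y0 Λ1 HH o hs hW hY hE hA hΛ z1 z2 hH hc hb
  obtain ⟨y2, -, y19, -⟩ := sc _ _ _ hs
  have W2 : (2 : ℝ) ≤ W := by exact_mod_cast hs.two
  have l0 : 0 < Real.log Y0 := Real.log_pos (by linarith)
  have E0 : (0 : ℝ) < E1 := Nat.cast_pos.2 hE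
  have L0 : 0 < Lc W k0 := lt_of_lt_of_le (by positivity) y19
  set S := PtsOn f Y0 (Y0 ^ E1) t0 1 with hS
  have Z0 : 0 < Zm S := by linarith
  have mS : ∀ z, z ∈ S ↔ (IsPt f z ∧ Y0 ≤ z.p ∧ (z.p : ℝ) < Y0 ^ E1) ∧ On t0 1 z := fun z => by
    rw [hS, PtsOn, mem_filter, mem_Pts]
  obtain ⟨mB, sB⟩ := blk S N
  have lg1 : ∀ z ∈ S, 1 / (2 * E1) ≤ lg z / Zm S := fun z hz => by
    have : Real.log Y0 ≤ lg z := Real.log_le_log (by linarith) ((mS z).1 hz).1.2.1
    rw [div_le_div_iff₀ (by positivity) Z0]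
    nlinarith
  have bw1 : ∀ T ∈ Blk S N, (1 / (2 * E1)) ^ N ≤ bw (Zm S) T := fun T hT => by
    obtain ⟨-, h2, h3⟩ := (mB T).1 hT
    simpa [h2, bw] using Multiset.prod_map_le_prod_map₀ (s := T) (fun _ => 1 / (2 * (E1 : ℝ))) _
      (fun _ _ => by positivity) fun z hz => lg1 z (h3 z hz)
  have nY : ∀ T ∈ Blk S N, ∀ j, j ≠ 0 → (nT T : ℝ) ≤ Y ^ j := fun T hT j hj => by
    obtain ⟨-, h2, h3⟩ := (mB T).1 hT
    have : (nT T : ℝ) ≤ (Y0 ^ E1) ^ N := by
      simpa [h2, nT] using Multiset.prod_map_le_prod_map₀ (s := T) (fun z => (z.p : ℝ)) _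
        (fun _ _ => by positivity) fun z hz => ((mS z).1 (h3 z hz)).1.2.2.le
    rw [← pow_mul] at this
    exact this.trans (((pow_le_pow_right₀ (by linarith) hA).trans_eq hY).trans
      (le_self_pow₀ (by linarith) hj))
  have mp : ∀ T : Multiset Pt, (T.map Pt.cj).map Pt.p = T.map Pt.p := fun T => by
    rw [Multiset.map_map]
    rfl
  have ad : ∀ T ∈ Blk S N, ∀ a, (o a).adm a ((k0 : ℤ) ^ 2) T →
      (o a).adm a ((k0 : ℤ) ^ 2) (T.map Pt.cj) := fun T hT a ⟨h1, h2, h3⟩ => by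
    refine ⟨fun z hz => ?_, h3, ?_⟩
    · obtain ⟨z, hz', rfl⟩ := Multiset.mem_map.1 hz
      exact h1 z hz'
    · rwa [Multiset.map_map, Multiset.map_congr (f := Pt.cj ∘ Pt.cj) (g := id) rfl fun z hz =>
        (pt f z ((mS z).1 (((mB T).1 hT).2.2 z hz)).1.1).2.1, Multiset.map_id]
  let n : Multiset Pt → ℝ := fun T => (HH.filter fun a => (o a).adm a ((k0 : ℤ) ^ 2) T).card
  have key := tts (Blk S N) (bw (Zm S)) PT n (1 / ((2 * E1) ^ N * Λ1)) _ L0 (by positivity)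
    (fun T hT => ⟨le_trans (by positivity) (bw1 T hT), by unfold PT; positivity, by
      obtain ⟨h1, -, h3⟩ := (mB T).1 hT
      refine le_trans (Nat.cast_le.2 (card_le_card fun a ha => ?_))
        (lks t0 ((k0 : ℤ) ^ 2) W k0 Y T hs h1
          (fun z hz => ⟨((mS z).1 (h3 z hz)).1.1.1, fun hd => ?_⟩) (nY T hT _ (by norm_num))).2
      · exact mem_filter.2 ⟨hH (mem_filter.1 ha).1, fun z hz => ((mem_filter.1 ha).2.1 z hz).1⟩
      · have : (z.p : ℝ) ≤ W := Nat.cast_le.2 (Nat.le_of_dvd (by have := hs.two; omega) hd)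
        linarith [((mS z).1 (h3 z hz)).1.2.1]⟩) (by
      have g0 : ∀ z ∈ S, 0 ≤ lg z / Zm S / z.p := fun z hz =>
        div_nonneg (le_trans (by positivity) (lg1 z hz)) (by positivity)
      have e : ∑ z ∈ S, lg z / Zm S / z.p = 1 := by
        simp only [div_right_comm _ (Zm S)]
        rw [← sum_div]
        exact div_self Z0.ne'
      simpa [pw_bw, e] using (sB _ _ (sum_nonneg g0) fun z hz => ⟨g0 z hz, single_le_sum g0 hz⟩).1)
    (by
      simp only [n, card_filter, Nat.cast_sum, mul_sum]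
      rw [sum_comm]
      refine le_trans ?_ (card_nsmul_le_sum HH _ ((1 / (2 * (E1 : ℝ))) ^ N) fun a ha => ?_)
      · rw [nsmul_eq_mul, one_div_pow, one_div_mul_eq_div, mul_one_div, div_le_div_iff₀
          (by positivity) (by positivity)]
        nlinarith [mul_le_mul_of_nonneg_right hc (show (0 : ℝ) ≤ (2 * E1) ^ N by positivity)]
      · obtain ⟨T, hT, h⟩ := hb a ha
        refine le_trans ?_ (single_le_sum (fun T hT => mul_nonneg
          (le_trans (by positivity) (bw1 T hT)) (by positivity)) hT)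
        simpa [h] using bw1 T hT)
  refine ⟨_, ⟨hW, z1, filter_subset _ _, fun T hT => ?_, le_trans (le_of_eq ?_) key⟩,
    fun T hT => ?_⟩
  · obtain ⟨hT, h⟩ := mem_filter.1 hT
    obtain ⟨h1, h2, h3⟩ := (mB T).1 hT
    refine mem_filter.2 ⟨(mB _).2 ⟨by rwa [Nd, mp], by simpa using h2, fun z hz => ?_⟩, ?_⟩
    · obtain ⟨z, hz', rfl⟩ := Multiset.mem_map.1 hz
      obtain ⟨⟨a1, a2⟩, a3⟩ := (mS z).1 (h3 z hz')
      exact (mS _).2 ⟨⟨(pt f z a1).1, a2⟩, a3⟩
    · rw [PT, nT, mp]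
      exact h.trans (Nat.cast_le.2 (card_le_card (monotone_filter_right _ fun a _ => ad T hT a)))
  · field_simp
  · obtain ⟨hT, h⟩ := mem_filter.1 hT
    refine ⟨nY T hT _ two_ne_zero, ad T hT, ?_⟩
    refine le_trans (le_of_eq ?_) (mul_le_mul_of_nonneg_left h (by positivity))
    field_simp

end Pool.Agent.MP_f3836a_nt.VE
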