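import Pool.Agent.MP_f3836a_nt.VE.E1Main
import Pool.Agent.MP_f3836a_nt.VE.DMain
import Pool.Agent.MP_f3836a_nt.VE.CMain
import Pool.Agent.MP_f3836a_nt.VE.BAll
import Pool.Agent.MP_f3836a_nt.VE.FAll
import Pool.Agent.MP_f3836a_nt.VE.EBase
import Pool.Agent.MP_f3836a_nt.VE.EFuL
import Pool.Agent.MP_f3836a_nt.VE.EFuU
import Pool.Agent.MP_f3836a_nt.VE.EId
import Pool.Agent.MP_f3836a_nt.VE.ENg
import Pool.Agent.MP_f3836a_nt.VE.SAr
import Pool.Agent.MP_f3836a_nt.VE.SEq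
import Pool.Agent.MP_f3836a_nt.VE.SId
import Pool.Agent.MP_f3836a_nt.VE.SLk
import Pool.Agent.MP_f3836a_nt.VE.SLn
import Pool.Agent.MP_f3836a_nt.VE.SOk
import Pool.Agent.MP_f3836a_nt.VE.SR1
import Pool.Agent.MP_f3836a_nt.VE.SR2
import Pool.Agent.MP_f3836a_nt.VE.SSt
import Pool.Agent.MP_f3836a_nt.VE.XBH0
import Pool.Agent.MP_f3836a_nt.VE.XBH1
import Pool.Agent.MP_f3836a_nt.VE.XBaseC
import Pool.Agent.MP_f3836a_nt.VE.XCore
import Pool.Agent.MP_f3836a_nt.VE.XDel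
import Pool.Agent.MP_f3836a_nt.VE.XFam
import Pool.Agent.MP_f3836a_nt.VE.XH
import Pool.Agent.MP_f3836a_nt.VE.XLev
import Pool.Agent.MP_f3836a_nt.VE.XLv
import Pool.Agent.MP_f3836a_nt.VE.XMainC
import Pool.Agent.MP_f3836a_nt.VE.XTT

/-! Parts B to F assembled. -/

set_option autoImplicit false

namespace Pool.Agent.MP_f3836a_nt.VE

theorem nrS : NrS := rNr rApi

theorem sysOk (D : Dat) (h : D.Raw) : D.sys.Ok :=
  sOk rSc D h (sEq eqS pcA D h) (sLk rSc lkS rCnt D h) (sLn rApi rSc rPc rZer D h)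
    (sR1 rSc lkS rCel D h) (sR2 rSc lkS D h) (sAr rApi nrS rSc rCel D h)
    (sId rApi (rId rApi) rPt D h) (sSt rPt rSc rBlk D h)

theorem rigC : ∃ AF, RigC AF := by
  obtain ⟨A, h⟩ := F.fMain
  exact ⟨A, fun D hD h1 h2 => h D.sys (sysOk D hD) h1 h2⟩

theorem mainC : MainC :=
  xMainC BC.cMain BC.bMain (xBH1 rApi rCuH rHt rPt rPc rSc BC.hbFam) rNorm rFuU rSc

theorem baseC : BaseC := xBaseC BC.cMain BC.bMain (xBH0 rPt rPc rBlk BC.hbFix) rBlk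

theorem coreOf (h : OfTopL) : Core :=
  xCore rigC (h (xDel rPt rSc rCel lsvS massS goodS rNorm delAS rDelB) (xTT rPt rSc lkS rBlk rTT) xH
    (xFam rFuU (rFuL rFuU) rCuH nrS rSc rBlk) rBase rNg rHt rSc rMert) mainC baseC (xLev rPig rBlk)
    xLv xW xScl s2S richS goodS sigS etaS BC.arS rSc

end Pool.Agent.MP_f3836a_nt.VE
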