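import Pool.Agent.MP_f3836a_nt.VE.SpecE1

/-! Regularity of the family in the shape used by the finite system. -/

set_option autoImplicit false

namespace Pool.Agent.MP_f3836a_nt.VE.EReg

open Finset

theorem ind_nonneg (p : Prop) : 0 ≤ ind p := by
  unfold ind; split_ifs <;> norm_num

theorem ind_pos {p : Prop} (h : p) : ind p = 1 := by unfold ind; rw [if_pos h]

theorem ind_neg {p : Prop} (h : ¬p) : ind p = 0 := by unfold ind; rw [if_neg h]

theorem ind_and (p q : Prop) : ind (p ∧ q) = ind p * ind q := by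
  by_cases hp : p <;> by_cases hq : q <;> simp [ind, hp, hq]

theorem sum_ind {α : Type} (S : Finset α) (R : α → Prop) [DecidablePred R] :
    ∑ a ∈ S, ind (R a) = ((S.filter R).card : ℝ) := by
  rw [card_filter, Nat.cast_sum]
  refine sum_congr rfl fun a _ => ?_
  by_cases h : R a <;> simp [ind, h]

theorem sum_ind_mul {α : Type} (S : Finset α) (R : α → Prop) [DecidablePred R] (F : α → ℝ) :
    ∑ a ∈ S, ind (R a) * F a = ∑ a ∈ S.filter R, F a := by
  rw [sum_filter]
  refine sum_congr rfl fun a _ => ?_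
  by_cases h : R a <;> simp [ind, h]

theorem sum_ind_sub {α : Type} (S : Finset α) (R : α → Prop) [DecidablePred R] :
    ∑ a : S, ind (R a) = ((S.filter R).card : ℝ) := by
  rw [sum_coe_sort S fun a => ind (R a), sum_ind]

/-- the weights of the points are close to the model -/
structure Wz (HH : Finset ℤ) (P1 : Finset Pt) (b : ℤ) (n : Pt → ℝ) (G : ℤ → Pt → Prop)
    (wz : HH → Pt → ℝ) (σ L c2 κ : ℝ) : Prop where
  sig : σ * HH.card = 1
  big : 0 < c2 ∧ 0 < L ∧ c2 * L ≤ HH.card
  kap : 0 ≤ κ ∧ κ ≤ 1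
  nn : ∀ z ∈ P1, 0 ≤ n z
  one : ∀ h : HH, ∀ z ∈ P1, On h b z ∧ G h z → |wz h z - z.p * n z| ≤ κ * (z.p * n z)
  zero : ∀ h : HH, ∀ z ∈ P1, ¬(On h b z ∧ G h z) → wz h z = 0

namespace Wz

variable {HH : Finset ℤ} {P1 : Finset Pt} {b : ℤ} {n : Pt → ℝ} {G : ℤ → Pt → Prop}
  {wz : HH → Pt → ℝ} {σ L c2 κ : ℝ}

theorem sig_pos (h : Wz HH P1 b n G wz σ L c2 κ) : 0 < σ := by
  have h1 : (0 : ℝ) < HH.card := (mul_pos h.big.1 h.big.2.1).trans_le h.big.2.2
  by_contra c
  have := h.sig
  nlinarith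

theorem sig_L (h : Wz HH P1 b n G wz σ L c2 κ) : σ * L ≤ 1 / c2 := by
  rw [le_div_iff₀ h.big.1]
  have := mul_le_mul_of_nonneg_left h.big.2.2 h.sig_pos.le
  rw [h.sig] at this
  linarith

theorem dev (h : Wz HH P1 b n G wz σ L c2 κ) (a : HH) {z : Pt} (hz : z ∈ P1) :
    |wz a z - ind (On a b z ∧ G a z) * (z.p * n z)| ≤ κ * (ind (On a b z ∧ G a z) * (z.p * n z)) := by
  by_cases c : On a b z ∧ G a z
  · rw [ind_pos c, one_mul]; exact h.one a z hz c
  · rw [ind_neg c, h.zero a z hz c]; simp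

open Classical in
theorem r1 (h : Wz HH P1 b n G wz σ L c2 κ) {cell : ℤ → ℕ} {J : ℕ} {e : ℝ}
    (hC : DelC b n G cell J L e HH P1) (cl : HH → Fin J) (hcl : ∀ a, (cl a : ℕ) = cell a)
    (mc : Fin J → ℝ) (hmc : ∀ c, mc c = σ * (HH.filter fun a => cell a = c).card)
    (hlk : ∀ z ∈ P1, z.p * ((lk HH b {z}).card : ℝ) ≤ 2 * L) (he : 0 ≤ e) :
    ∀ z ∈ P1, ∑ c, |σ * ∑ a, ind (cl a = c) * wz a z - n z * mc c|
      ≤ ((J + 3) * e + 2 * κ) / c2 * n z := by
  intro z hz
  have s0 := h.sig_pos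
  have n0 := h.nn z hz
  have key : ∀ c : Fin J, |σ * ∑ a, ind (cl a = c) * wz a z - n z * mc c| ≤
      σ * (κ * ∑ a : HH, ind (cl a = c) * (ind (On a b z ∧ G a z) * (z.p * n z))) +
      σ * n z * |z.p * ((HH.filter fun a => cell a = c ∧ On a b z ∧ G a z).card : ℝ)
        - (HH.filter fun a => cell a = c).card| := by
    intro c
    have e1 : ∑ a : HH, ind (cl a = c) * (ind (On a b z ∧ G a z) * (z.p * n z)) =
        ((HH.filter fun a => cell a = c ∧ On a b z ∧ G a z).card : ℝ) * (z.p * n z) := by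
      rw [← sum_ind_sub, sum_mul]
      refine sum_congr rfl fun a _ => ?_
      rw [ind_and (cell a = c), mul_assoc, ← hcl a]
      congr 2
      exact propext Fin.ext_iff
    have e2 : σ * ∑ a, ind (cl a = c) * wz a z - n z * mc c =
        σ * ∑ a : HH, ind (cl a = c) * (wz a z - ind (On a b z ∧ G a z) * (z.p * n z)) +
        σ * n z * (z.p * ((HH.filter fun a => cell a = c ∧ On a b z ∧ G a z).card : ℝ)
          - (HH.filter fun a => cell a = c).card) := by
      simp only [mul_sub, sum_sub_distrib]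
      rw [e1, hmc]
      ring
    rw [e2]
    refine (abs_add_le _ _).trans (add_le_add ?_ ?_)
    · rw [abs_mul, abs_of_pos s0, mul_sum]
      refine mul_le_mul_of_nonneg_left ((abs_sum_le_sum_abs _ _).trans (sum_le_sum fun a _ => ?_)) s0.le
      rw [abs_mul, abs_of_nonneg (ind_nonneg _), mul_left_comm κ]
      exact mul_le_mul_of_nonneg_left (h.dev a hz) (ind_nonneg _)
    · rw [abs_mul, abs_of_nonneg (mul_nonneg s0.le n0)]
  refine (sum_le_sum fun c _ => key c).trans ?_
  rw [sum_add_distrib, ← mul_sum, ← mul_sum, ← mul_sum, sum_comm]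
  have a1 : ∑ a : HH, ∑ c : Fin J, ind (cl a = c) * (ind (On a b z ∧ G a z) * (z.p * n z))
      ≤ 2 * L * n z := by
    have : ∀ a : HH, ∑ c : Fin J, ind (cl a = c) * (ind (On a b z ∧ G a z) * (z.p * n z))
        ≤ ind (∀ z' ∈ ({z} : Multiset Pt), On a b z') * (z.p * n z) := by
      intro a
      rw [← sum_mul, sum_eq_single (cl a) (fun c _ hc => ind_neg (Ne.symm hc)) (by simp),
        ind_pos rfl, one_mul]
      refine mul_le_mul_of_nonneg_right ?_ (by positivity)
      by_cases c : On a b z ∧ G a z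
      · rw [ind_pos c, ind_pos (by simpa using c.1)]
      · rw [ind_neg c]; exact ind_nonneg _
    refine (sum_le_sum fun a _ => this a).trans ?_
    rw [← sum_mul, sum_ind_sub HH fun a => ∀ z' ∈ ({z} : Multiset Pt), On a b z']
    have := mul_le_mul_of_nonneg_right (hlk z hz) n0
    unfold lk at this
    convert this using 1
    ring
  have a2 := hC.r13 z hz
  rw [← Fin.sum_univ_eq_sum_range (fun c => |z.p * ((HH.filter fun a => cell a = c ∧ On a b z ∧ G a z).card : ℝ)
      - (HH.filter fun a => cell a = c).card|) J] at a2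
  have a3 := h.sig_L
  have k0 := h.kap.1
  calc _ ≤ σ * (κ * (2 * L * n z)) + σ * n z * ((J + 3) * e * L) := by gcongr
    _ = σ * L * (((J + 3) * e + 2 * κ) * n z) := by ring
    _ ≤ 1 / c2 * (((J + 3) * e + 2 * κ) * n z) := by gcongr
    _ = _ := by ring

open Classical in
theorem r2 (h : Wz HH P1 b n G wz σ L c2 κ) {cell : ℤ → ℕ} {J : ℕ} {e : ℝ}
    (hC : DelC b n G cell J L e HH P1) (tot : ∑ z ∈ P1, n z / z.p ≤ 2) (he : 0 ≤ e) :
    ∀ z ∈ P1, ∑ z' ∈ P1, ind (z'.p ≠ z.p) / z'.p * |σ * ∑ a, wz a z * wz a z' - n z * n z'|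
      ≤ (4 * (2 * J + 8) * e / c2 + 6 * κ) * n z := by
  intro z hz
  have s0 := h.sig_pos
  have n0 := h.nn z hz
  obtain ⟨k0, k1⟩ := h.kap
  set D : Pt → ℝ := fun z' => |z.p * z'.p * ((HH.filter fun a =>
    (On a b z ∧ G a z) ∧ On a b z' ∧ G a z').card : ℝ) - HH.card| with hD
  have key : ∀ z' ∈ P1, |σ * ∑ a, wz a z * wz a z' - n z * n z'| ≤
      n z * n z' * (4 * σ * D z' + 3 * κ) := by
    intro z' hz'
    have n1 := h.nn z' hz'
    set m : ℝ := ((HH.filter fun a => (On a b z ∧ G a z) ∧ On a b z' ∧ G a z').card : ℝ) with hm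
    have e1 : ∑ a : HH, ind (On a b z ∧ G a z) * (z.p * n z) * (ind (On a b z' ∧ G a z') * (z'.p * n z'))
        = n z * n z' * (z.p * z'.p * m) := by
      rw [hm, ← sum_ind_sub, mul_sum, mul_sum]
      refine sum_congr rfl fun a _ => ?_
      rw [ind_and (On a b z ∧ G a z)]
      ring
    have e2 : σ * ∑ a, wz a z * wz a z' - n z * n z' =
        σ * ∑ a : HH, (wz a z * wz a z' - ind (On a b z ∧ G a z) * (z.p * n z) *
          (ind (On a b z' ∧ G a z') * (z'.p * n z'))) +
        σ * (n z * n z') * (z.p * z'.p * m - HH.card) := by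
      rw [sum_sub_distrib, e1]
      linear_combination (n z * n z') * h.sig
    have e3 : ∀ a : HH, |wz a z * wz a z' - ind (On a b z ∧ G a z) * (z.p * n z) *
          (ind (On a b z' ∧ G a z') * (z'.p * n z'))| ≤ 3 * κ * (ind (On a b z ∧ G a z) * (z.p * n z) *
          (ind (On a b z' ∧ G a z') * (z'.p * n z'))) := by
      intro a
      have d1 := h.dev a hz
      have d2 := h.dev a hz'
      have x0 : 0 ≤ ind (On a b z ∧ G a z) * (z.p * n z) := mul_nonneg (ind_nonneg _) (by positivity)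
      have y0 : 0 ≤ ind (On a b z' ∧ G a z') * (z'.p * n z') :=
        mul_nonneg (ind_nonneg _) (by positivity)
      generalize ind (On a b z ∧ G a z) * (z.p * n z) = x at *
      generalize ind (On a b z' ∧ G a z') * (z'.p * n z') = y at *
      have : wz a z * wz a z' - x * y = (wz a z - x) * (wz a z' - y) + (wz a z - x) * y
          + x * (wz a z' - y) := by ring
      rw [this]
      refine (abs_add_three _ _ _).trans ?_
      rw [abs_mul, abs_mul, abs_mul, abs_of_nonneg x0, abs_of_nonneg y0]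
      have b1 : |wz a z - x| * |wz a z' - y| ≤ κ * x * (1 * y) :=
        mul_le_mul d1 (d2.trans (by gcongr)) (abs_nonneg _) (by positivity)
      have b2 : |wz a z - x| * y ≤ κ * x * y := by gcongr
      have b3 : x * |wz a z' - y| ≤ x * (κ * y) := by gcongr
      linarith
    have e4 : z.p * z'.p * m ≤ D z' + HH.card := by
      have := le_abs_self (z.p * z'.p * m - HH.card)
      simp only [hD]
      linarith
    have D0 : 0 ≤ D z' := abs_nonneg _
    rw [e2]
    refine (abs_add_le _ _).trans ?_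
    rw [abs_mul, abs_of_pos s0, abs_mul, abs_of_nonneg (by positivity : 0 ≤ σ * (n z * n z'))]
    have e5 := (abs_sum_le_sum_abs _ _).trans (sum_le_sum fun a (_ : a ∈ univ) => e3 a)
    rw [← mul_sum, e1] at e5
    calc _ ≤ σ * (3 * κ * (n z * n z' * (D z' + HH.card))) + σ * (n z * n z') * D z' := by
          refine add_le_add (mul_le_mul_of_nonneg_left (e5.trans ?_) s0.le) le_rfl
          gcongr
      _ = n z * n z' * ((3 * κ + 1) * σ * D z' + 3 * κ * (σ * HH.card)) := by ring
      _ ≤ _ := by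
          rw [h.sig, mul_one]
          gcongr
          linarith
  have a2 := hC.r2 z hz
  have a3 := h.sig_L
  have c0 := h.big.1
  calc _ ≤ ∑ z' ∈ P1, (4 * σ * n z * (ind (z'.p ≠ z.p) * (n z' / z'.p * D z'))
        + 3 * κ * n z * (n z' / z'.p)) := by
        refine sum_le_sum fun z' hz' => ?_
        have n1 := h.nn z' hz'
        have D0 : 0 ≤ D z' := abs_nonneg _
        by_cases c : z'.p ≠ z.p
        · rw [ind_pos c]
          refine (mul_le_mul_of_nonneg_left (key z' hz') (by positivity)).trans (le_of_eq ?_)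
          ring
        · rw [ind_neg c]
          simp only [zero_div, zero_mul, mul_zero, zero_add]
          positivity
    _ = 4 * σ * n z * ∑ z' ∈ P1.filter fun z' => z'.p ≠ z.p, n z' / z'.p * D z'
        + 3 * κ * n z * ∑ z' ∈ P1, n z' / z'.p := by
        rw [sum_add_distrib, ← mul_sum, ← mul_sum, sum_ind_mul]
    _ ≤ 4 * σ * n z * ((2 * J + 8) * e * L) + 3 * κ * n z * 2 := by gcongr
    _ = σ * L * (4 * (2 * J + 8) * e * n z) + 6 * κ * n z := by ring
    _ ≤ 1 / c2 * (4 * (2 * J + 8) * e * n z) + 6 * κ * n z := by gcongr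
    _ = _ := by ring

end Wz

end Pool.Agent.MP_f3836a_nt.VE.EReg
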