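import Pool.Agent.MP_f3836a_nt.VE.SpecFR
import Pool.Agent.MP_f3836a_nt.VE.EFuU

/-! Part F: common tools. -/

set_option autoImplicit false

namespace Pool.Agent.MP_f3836a_nt.VE.F

open Finset

theorem ind_pos {p : Prop} (h : p) : ind p = 1 := by simp [ind, h]
theorem ind_neg {p : Prop} (h : ¬p) : ind p = 0 := by simp [ind, h]
theorem ind_nonneg (p : Prop) : 0 ≤ ind p := by by_cases h : p <;> simp [ind, h]
theorem ind_le_one (p : Prop) : ind p ≤ 1 := by by_cases h : p <;> simp [ind, h]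
theorem ind_and (p q : Prop) : ind (p ∧ q) = ind p * ind q := by
  by_cases h : p <;> by_cases h' : q <;> simp [ind, h, h']
theorem ind_mono {p q : Prop} (h : p → q) : ind p ≤ ind q := by
  by_cases hp : p
  · rw [ind_pos hp, ind_pos (h hp)]
  · rw [ind_neg hp]; exact ind_nonneg q
theorem ind_congr {p q : Prop} (h : p ↔ q) : ind p = ind q := by rw [propext h]
theorem ind_ne {p : Prop} (h : ind p ≠ 0) : p := by
  by_contra h'; exact h (ind_neg h')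
theorem ind_exists_le {ι : Type} [Fintype ι] (p : ι → Prop) : ind (∃ i, p i) ≤ ∑ i, ind (p i) := by
  by_cases h : ∃ i, p i
  · obtain ⟨i, hi⟩ := h
    rw [ind_pos ⟨i, hi⟩, ← ind_pos hi]
    exact single_le_sum (f := fun i => ind (p i)) (fun i _ => ind_nonneg _) (mem_univ i)
  · rw [ind_neg h]; exact sum_nonneg fun i _ => ind_nonneg _

@[simp] theorem pt_single (z : Pt) : pt {z} = z := by simp [pt]
@[simp] theorem cj_p (z : Pt) : z.cj.p = z.p := rfl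
theorem map_cj_p (x : Multiset Pt) : (x.map Pt.cj).map Pt.p = x.map Pt.p := by
  rw [Multiset.map_map]; rfl

theorem nT_add (T T' : Multiset Pt) : nT (T + T') = nT T * nT T' := by simp [nT]
theorem nT_cons (z : Pt) (T : Multiset Pt) : nT (z ::ₘ T) = z.p * nT T := by simp [nT]
theorem PT_add (T T' : Multiset Pt) : PT (T + T') = PT T * PT T' := by
  simp only [PT, nT_add, Nat.cast_mul, one_div, mul_inv]
theorem PT_cons (z : Pt) (T : Multiset Pt) : PT (z ::ₘ T) = PT T / z.p := by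
  simp only [PT, nT_cons, Nat.cast_mul, div_div, mul_comm]
theorem PT_zero : PT 0 = 1 := by simp [PT, nT]
theorem PT_single (z : Pt) : PT {z} = 1 / z.p := by simp [PT, nT]
theorem PT_nonneg (T : Multiset Pt) : 0 ≤ PT T := by unfold PT; positivity
theorem PT_cj (x : Multiset Pt) : PT (x.map Pt.cj) = PT x := by simp only [PT, nT, map_cj_p]

theorem Nd_of_le {T T' : Multiset Pt} (h : T' ≤ T) (hT : Nd T) : Nd T' :=
  Multiset.nodup_of_le (Multiset.map_le_map h) hT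
theorem Nd_nodup {T : Multiset Pt} (hT : Nd T) : T.Nodup := Multiset.Nodup.of_map _ hT
theorem Nd_cons {z : Pt} {T : Multiset Pt} : Nd (z ::ₘ T) ↔ (∀ z' ∈ T, z'.p ≠ z.p) ∧ Nd T := by
  simp [Nd]
theorem Nd_zero : Nd 0 := by simp [Nd]
theorem Nd_single (z : Pt) : Nd {z} := by simp [Nd]
theorem Nd_add_cj (x x' : Multiset Pt) : Nd (x + x'.map Pt.cj) ↔ Nd (x + x') := by
  simp only [Nd, Multiset.map_add, map_cj_p]

namespace Sys

variable {G H Cl : Type} (S : Sys G H Cl)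

theorem E_add (F F' : G → ℝ) : S.E (fun g => F g + F' g) = S.E F + S.E F' := by
  simp only [E, sum_add_distrib, add_div]
theorem E_sub (F F' : G → ℝ) : S.E (fun g => F g - F' g) = S.E F - S.E F' := by
  simp only [E, sum_sub_distrib, sub_div]
theorem E_mul (a : ℝ) (F : G → ℝ) : S.E (fun g => a * F g) = a * S.E F := by
  simp only [E, ← mul_sum, mul_div_assoc]
theorem E_sum {ι : Type*} (s : Finset ι) (F : ι → G → ℝ) :
    S.E (fun g => ∑ i ∈ s, F i g) = ∑ i ∈ s, S.E (F i) := by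
  simp only [E]; rw [sum_comm, sum_div]
theorem E_mono {F F' : G → ℝ} (h : ∀ g ∈ S.Gs, F g ≤ F' g) : S.E F ≤ S.E F' :=
  div_le_div_of_nonneg_right (sum_le_sum h) (Nat.cast_nonneg _)
theorem E_congr {F F' : G → ℝ} (h : ∀ g ∈ S.Gs, F g = F' g) : S.E F = S.E F' := by
  unfold E; rw [sum_congr rfl h]
theorem E_nonneg {F : G → ℝ} (h : ∀ g ∈ S.Gs, 0 ≤ F g) : 0 ≤ S.E F :=
  div_nonneg (sum_nonneg h) (Nat.cast_nonneg _)
theorem E_zero : S.E (fun _ => 0) = 0 := by simp [E]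
theorem abs_E_le (F : G → ℝ) : |S.E F| ≤ S.E fun g => |F g| := by
  unfold E
  rw [abs_div, Nat.abs_cast]
  exact div_le_div_of_nonneg_right (abs_sum_le_sum_abs _ _) (Nat.cast_nonneg _)

/-- first moment from second moment -/
theorem E_abs {W X : G → ℝ} {A t : ℝ} (ht : 0 < t) (hW : ∀ g ∈ S.Gs, 0 ≤ W g) (h1 : S.E W ≤ A)
    (h2 : S.E (fun g => W g * X g ^ 2) ≤ A * t ^ 2) : S.E (fun g => W g * |X g|) ≤ A * t := by
  have h : S.E (fun g => W g * |X g|)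
      ≤ S.E fun g => t / 2 * W g + 1 / (2 * t) * (W g * X g ^ 2) := by
    refine S.E_mono fun g hg => ?_
    have h3 : |X g| ≤ t / 2 + 1 / (2 * t) * X g ^ 2 := by
      rw [← sq_abs (X g), ← sub_nonneg]
      have : t / 2 + 1 / (2 * t) * |X g| ^ 2 - |X g| = (|X g| - t) ^ 2 / (2 * t) := by
        field_simp; ring
      rw [this]; positivity
    nlinarith [mul_le_mul_of_nonneg_left h3 (hW g hg)]
  rw [E_add, E_mul, E_mul] at h
  have h4 := mul_le_mul_of_nonneg_left h1 (by positivity : 0 ≤ t / 2)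
  have h5 := mul_le_mul_of_nonneg_left h2 (by positivity : 0 ≤ 1 / (2 * t))
  have h6 : 1 / (2 * t) * (A * t ^ 2) = t / 2 * A := by field_simp
  linarith

theorem I_cons (z : Pt) (T : Multiset Pt) (g : G) : S.I (z ::ₘ T) g = ind (S.zr g z) * S.I T g := by
  unfold I; rw [← ind_and]; exact ind_congr (by simp)
theorem I_nonneg (T : Multiset Pt) (g : G) : 0 ≤ S.I T g := ind_nonneg _
theorem I_le_one (T : Multiset Pt) (g : G) : S.I T g ≤ 1 := ind_le_one _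

theorem Y_eq (c : Option H) (T : Multiset Pt) (j : ℕ) (g : G) :
    S.Y c T j g = ∑ s : Fin j → S.St c, S.mw c T g s := by
  simp only [Y, mw, sum_div]

theorem TY_one (c : Option H) (T : Multiset Pt) (j : ℕ) (g : G) :
    S.TY c T j g (fun _ => 1) = S.Y c T j g := by simp [TY, Y_eq]
theorem TY_add (c : Option H) (T : Multiset Pt) (j : ℕ) (g : G) (F F' : (Fin j → S.St c) → ℝ) :
    S.TY c T j g (fun s => F s + F' s) = S.TY c T j g F + S.TY c T j g F' := by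
  simp only [TY, mul_add, sum_add_distrib]
theorem TY_mul (c : Option H) (T : Multiset Pt) (j : ℕ) (g : G) (a : ℝ)
    (F : (Fin j → S.St c) → ℝ) : S.TY c T j g (fun s => a * F s) = a * S.TY c T j g F := by
  simp only [TY, mul_sum]; exact sum_congr rfl fun s _ => by ring
theorem TY_sum {ι : Type*} (I : Finset ι) (c : Option H) (T : Multiset Pt) (j : ℕ) (g : G)
    (F : ι → (Fin j → S.St c) → ℝ) :
    S.TY c T j g (fun s => ∑ i ∈ I, F i s) = ∑ i ∈ I, S.TY c T j g (F i) := by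
  simp only [TY, mul_sum]; exact sum_comm

/-- splitting off the coordinate `i` -/
theorem TY_succ (c : Option H) (T : Multiset Pt) (j : ℕ) (g : G) (i : Fin (j + 1))
    (F : (Fin (j + 1) → S.St c) → ℝ) : S.TY c T (j + 1) g F
      = ∑ x : S.St c, S.w c x * S.TY c (T + x) j g fun s => F (Fin.insertNth i x s) := by
  unfold TY
  rw [← (Fin.insertNthEquiv (fun _ => S.St c) i).sum_comp, Fintype.sum_prod_type]
  refine sum_congr rfl fun x _ => ?_
  rw [mul_sum]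
  refine sum_congr rfl fun s _ => ?_
  simp only [mw, Fin.insertNthEquiv, Equiv.coe_fn_mk]
  rw [Fin.prod_univ_succAbove _ i, Fin.sum_univ_succAbove _ i]
  simp only [Fin.insertNth_apply_same, Fin.insertNth_apply_succAbove, add_assoc]
  ring

/-- tuple calculus, one index -/
theorem TC1 (c : Option H) (T : Multiset Pt) (j : ℕ) (g : G) (i : Fin (j + 1))
    (A : Multiset Pt → ℝ) : S.TY c T (j + 1) g (fun s => A (s i))
      = ∑ x ∈ S.St c, S.w c x * A x * S.Y c (T + x) j g := by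
  rw [S.TY_succ c T j g i, ← sum_coe_sort (S.St c)]
  refine sum_congr rfl fun x _ => ?_
  simp only [Fin.insertNth_apply_same]
  rw [← TY_one, mul_assoc, ← S.TY_mul c _ j g (A x)]; simp

/-- tuple calculus, two indices -/
theorem TC2 (c : Option H) (T : Multiset Pt) (j : ℕ) (g : G) {i i' : Fin (j + 2)} (h : i ≠ i')
    (A : Multiset Pt → Multiset Pt → ℝ) : S.TY c T (j + 2) g (fun s => A (s i) (s i'))
      = ∑ x ∈ S.St c, ∑ x' ∈ S.St c, S.w c x * S.w c x' * A x x' * S.Y c (T + x + x') j g := by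
  obtain ⟨m, rfl⟩ := Fin.exists_succAbove_eq h.symm
  rw [S.TY_succ c T (j + 1) g i, ← sum_coe_sort (S.St c)]
  refine sum_congr rfl fun x _ => ?_
  simp only [Fin.insertNth_apply_same, Fin.insertNth_apply_succAbove]
  rw [S.TC1 c (T + x) j g m (A x), mul_sum]
  exact sum_congr rfl fun x' _ => by ring

theorem Sm_add {i j : ℕ} {T T' : Multiset Pt} (h : S.Sm i T) (h' : S.Sm j T') :
    S.Sm (i + j) (T + T') := by
  refine ⟨?_, ?_, fun z hz => (Multiset.mem_add.1 hz).elim (h.2.2 z) (h'.2.2 z)⟩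
  · rw [Multiset.card_add, add_mul]; exact add_le_add h.1 h'.1
  · rw [nT_add, Nat.cast_mul, pow_add]
    exact mul_le_mul h.2.1 h'.2.1 (Nat.cast_nonneg _) ((Nat.cast_nonneg _).trans h.2.1)

theorem Sm_zero : S.Sm 0 0 := by simp [Sm, nT]

theorem Cf_self {c : Option H} {T : Multiset Pt} {j : ℕ} (h : S.ad c T j) : S.Cf c T j T :=
  ⟨h, le_rfl, fun _ hz => Or.inl hz⟩

theorem Cf_cons {c : Option H} {Ta T : Multiset Pt} {j : ℕ} {z : Pt} (h : S.Cf c Ta j T)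
    (hz : ¬S.on c z) : S.Cf c Ta j (z ::ₘ T) :=
  ⟨h.1, h.2.1.trans (Multiset.le_cons_self _ _), fun z' hz' =>
    (Multiset.mem_cons.1 hz').elim (fun e => Or.inr (e ▸ hz)) (h.2.2 z')⟩

theorem wz_mem {h : H} {z : Pt} (hw : S.wz h z ≠ 0) : ({z} : Multiset Pt) ∈ S.St (some h) := by
  by_contra h'; exact hw (by simp [wz, h'])

theorem wz_eq {h : H} {z : Pt} (hw : ({z} : Multiset Pt) ∈ S.St (some h)) :
    S.wz h z = S.w (some h) {z} := by simp [wz, hw]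

variable [Fintype H] [Fintype Cl] {S}

namespace Ok

variable (hS : S.Ok)
include hS

theorem lam_pos : 0 < S.Λ := by linarith [hS.num.1]
theorem one_le : 1 ≤ S.Λ := by linarith [hS.num.1]
theorem pow_mono {a b : ℕ} (h : a ≤ b) : S.Λ ^ a ≤ S.Λ ^ b := pow_le_pow_right₀ hS.one_le h
theorem ym_one : 1 ≤ S.Ym := hS.one_le.trans hS.num.2.1
theorem th_pos : 0 < S.θ := hS.num.2.2.2.2.1
theorem th_le : S.θ ≤ 1 := hS.num.2.2.2.2.2.1
theorem th_sq : S.θ ^ 2 ≤ S.θ := by nlinarith [hS.th_pos, hS.th_le]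
theorem sig_pos : 0 < S.σ := by
  by_contra h
  have := mul_nonpos_of_nonpos_of_nonneg (not_lt.1 h) (Nat.cast_nonneg (α := ℝ) (Fintype.card H))
  linarith [hS.sig]
theorem nonempty : Nonempty H := by
  by_contra h
  have := hS.sig
  rw [not_nonempty_iff] at h
  simp at this
theorem kk_le (c : Option H) : (S.kk c : ℝ) + 2 ≤ S.Λ := by
  cases c
  · exact hS.nat.2.2.1
  · exact hS.nat.2.1
theorem E_one : S.E (fun _ => 1) = 1 := by
  have : (S.Gs.card : ℝ) ≠ 0 := by exact_mod_cast hS.gs.card_pos.ne'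
  simp [E, this]

theorem p_pos {z : Pt} (hz : S.ok z) : (0 : ℝ) < z.p := by
  have h1 := (hS.okp z hz).2.1
  have h2 : 0 < S.Ym ^ 3 := pow_pos (by linarith [hS.ym_one]) 3
  by_contra h
  have := mul_nonpos_of_nonneg_of_nonpos (sq_nonneg S.θ) (not_lt.1 h)
  linarith
theorem small {z : Pt} (hz : S.ok z) : S.Ym ^ 3 / z.p ≤ S.θ ^ 2 :=
  (div_le_iff₀ (hS.p_pos hz)).2 (hS.okp z hz).2.1
theorem nT_pos {T : Multiset Pt} (h : ∀ z ∈ T, S.ok z) : 0 < nT T := by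
  refine Multiset.prod_pos fun n hn => ?_
  obtain ⟨z, hz, rfl⟩ := Multiset.mem_map.1 hn
  exact_mod_cast hS.p_pos (h z hz)
theorem PT_pos {i : ℕ} {T : Multiset Pt} (h : S.Sm i T) : 0 < PT T :=
  one_div_pos.2 (by exact_mod_cast hS.nT_pos h.2.2)
theorem Sm_mono {i j : ℕ} {T : Multiset Pt} (hij : i ≤ j) (h : S.Sm i T) : S.Sm j T :=
  ⟨h.1.trans (Nat.mul_le_mul_right _ hij), h.2.1.trans (pow_le_pow_right₀ hS.num.2.2.2.1 hij), h.2.2⟩
theorem Sm_le {i : ℕ} {T T' : Multiset Pt} (hT : T' ≤ T) (h : S.Sm i T) : S.Sm i T' := by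
  obtain ⟨R, rfl⟩ := Multiset.le_iff_exists_add.1 hT
  refine ⟨(Multiset.card_le_card hT).trans h.1, le_trans ?_ h.2.1,
    fun z hz => h.2.2 z (Multiset.mem_add.2 (Or.inl hz))⟩
  have := hS.nT_pos (T := R) fun z hz => h.2.2 z (Multiset.mem_add.2 (Or.inr hz))
  rw [nT_add]
  exact_mod_cast Nat.le_mul_of_pos_right _ this
theorem Sm_single {z : Pt} (hz : z ∈ S.P1) : S.Sm 1 {z} :=
  ⟨by simpa using hS.nat.2.2.2.1, by simpa [nT] using (hS.p1 z hz).2.1,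
    by simpa using (hS.p1 z hz).1⟩
theorem Sm_cons {i : ℕ} {z : Pt} {T : Multiset Pt} (hz : z ∈ S.P1) (h : S.Sm i T) :
    S.Sm (i + 1) (z ::ₘ T) := by
  rw [← Multiset.singleton_add, add_comm i]; exact S.Sm_add (hS.Sm_single hz) h
theorem Sm_card {T : Multiset Pt} (h : S.Sm 8 T) : (T.card : ℝ) ≤ 8 * S.Λ := by
  have h1 : (T.card : ℝ) ≤ 8 * S.N := by exact_mod_cast h.1
  linarith [hS.nat.2.2.2.2]
theorem atom' {T : Multiset Pt} (h : S.Sm 8 T) : S.σ * S.Ym ^ 3 ≤ S.θ ^ 2 * PT T := by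
  have h0 : (0 : ℝ) < nT T := by exact_mod_cast hS.nT_pos h.2.2
  rw [PT, mul_one_div, le_div_iff₀ h0]
  refine le_trans (mul_le_mul_of_nonneg_left h.2.1 ?_) hS.atom
  exact mul_nonneg hS.sig_pos.le (pow_nonneg (by linarith [hS.ym_one]) 3)
theorem n0_pos {z : Pt} (hz : z ∈ S.P1) : 0 < S.n0 z :=
  (mul_pos_iff_of_pos_left hS.lam_pos).1
    ((one_div_pos.2 (hS.p_pos (hS.p1 z hz).1)).trans_le (hS.p1 z hz).2.2.2.1)
theorem d_lt {z : Pt} (hz : z ∈ S.P1) : S.d z < S.K :=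
  Nat.div_lt_of_lt_mul (mul_comm S.K S.r ▸ (hS.p1 z hz).2.2.2.2.2.1)

theorem st_on {c : Option H} {x : Multiset Pt} (hx : x ∈ S.St c) : ∀ z ∈ x, S.ok z ∧ S.on c z :=
  fun z hz => ⟨(hS.st c x hx).2.1.2.2 z hz, (hS.ad0 _ _ _ (hS.ad1 c x hx)).1 z hz⟩
theorem cj_cj {c : Option H} {x : Multiset Pt} (hx : x ∈ S.St c) :
    (x.map Pt.cj).map Pt.cj = x := by
  rw [Multiset.map_map]
  conv_rhs => rw [← Multiset.map_id x]
  exact Multiset.map_congr rfl fun z hz => (hS.okp z (hS.st_on hx z hz).1).1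

/-- antisymmetric functions on the steps sum to zero -/
theorem sum_st_anti {c : Option H} (F : Multiset Pt → ℝ)
    (h : ∀ x ∈ S.St c, F (x.map Pt.cj) = -F x) : ∑ x ∈ S.St c, F x = 0 := by
  have h1 : ∑ x ∈ S.St c, F x = ∑ x ∈ S.St c, -F x := by
    refine sum_nbij' (fun x => x.map Pt.cj) (fun x => x.map Pt.cj) (fun x hx => (hS.st c x hx).2.2.2.1)
      (fun x hx => (hS.st c x hx).2.2.2.1) (fun x hx => hS.cj_cj hx) (fun x hx => hS.cj_cj hx)
      fun x hx => by rw [h x hx, neg_neg]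
  rw [sum_neg_distrib] at h1
  linarith

/-- antisymmetric functions on the points sum to zero -/
theorem sum_p1_anti (F : Pt → ℝ) (h : ∀ z ∈ S.P1, F z.cj = -F z) : ∑ z ∈ S.P1, F z = 0 := by
  have h1 : ∑ z ∈ S.P1, F z = ∑ z ∈ S.P1, -F z := by
    refine sum_nbij' Pt.cj Pt.cj (fun z hz => (hS.p1 z hz).2.2.1) (fun z hz => (hS.p1 z hz).2.2.1)
      (fun z hz => (hS.okp z (hS.p1 z hz).1).1) (fun z hz => (hS.okp z (hS.p1 z hz).1).1)
      fun z hz => by rw [h z hz, neg_neg]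
  rw [sum_neg_distrib] at h1
  linarith

theorem wz_nonneg (h : H) (z : Pt) : 0 ≤ S.wz h z := by
  by_cases hw : S.wz h z = 0
  · exact hw.ge
  · rw [S.wz_eq (S.wz_mem hw)]; exact (hS.st _ _ (S.wz_mem hw)).2.2.1
theorem wz_le (h : H) (z : Pt) : S.wz h z ≤ S.Λ := by
  by_cases hw : S.wz h z = 0
  · rw [hw]; exact hS.lam_pos.le
  · rw [S.wz_eq (S.wz_mem hw)]; exact (hS.st1 _ _ (S.wz_mem hw)).1
theorem wz_p1 {h : H} {z : Pt} (hw : S.wz h z ≠ 0) : z ∈ S.P1 ∧ S.on (some h) z := by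
  obtain ⟨z', hz', e⟩ := (hS.st1 _ _ (S.wz_mem hw)).2
  exact ⟨Multiset.singleton_inj.1 e ▸ hz', (hS.st_on (S.wz_mem hw) z (by simp)).2⟩
theorem wz_cj (h : H) {z : Pt} (hz : z ∈ S.P1) : S.wz h z.cj = S.wz h z := by
  by_cases hm : ({z} : Multiset Pt) ∈ S.St (some h)
  · have h1 := (hS.st _ _ hm).2.2.2
    rw [Multiset.map_singleton] at h1
    rw [S.wz_eq hm, S.wz_eq h1.1, h1.2]
  · have : ({z.cj} : Multiset Pt) ∉ S.St (some h) := fun h1 => hm (by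
      have h2 := (hS.st _ _ h1).2.2.2.1
      rwa [Multiset.map_singleton, (hS.okp z (hS.p1 z hz).1).1] at h2)
    simp [wz, hm, this]
theorem ad_single {h : H} {z : Pt} (hw : S.wz h z ≠ 0) : S.ad (some h) {z} (S.k + 1) :=
  hS.ad1 (some h) _ (S.wz_mem hw)
theorem ad_pair {h : H} {z z' : Pt} (hw : S.wz h z ≠ 0) (hw' : S.wz h z' ≠ 0) (hp : z.p ≠ z'.p) :
    S.ad (some h) (z' ::ₘ {z}) S.k := by
  have := hS.ad2 (some h) _ (S.wz_mem hw') _ (S.wz_mem hw)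
  rw [Multiset.singleton_add] at this
  exact this (Nd_cons.2 ⟨by simpa using hp, Nd_single z⟩)
theorem ad_blk {h : H} {z : Pt} {T : Multiset Pt} (hT : T ∈ S.St none) (ha : S.adm h T)
    (hw : S.wz h z ≠ 0) : S.ad (some h) (z ::ₘ T) (S.k + 1) := by
  simpa using (hS.ad3 h T hT ha).2.2 _ (S.wz_mem hw)
theorem Nd_blk {z : Pt} {T : Multiset Pt} (hT : T ∈ S.St none) (hz : z ∈ S.P1) : Nd (z ::ₘ T) :=
  Nd_cons.2 ⟨hS.win T hT z hz, (hS.st _ _ hT).1⟩

/-- sums over the steps of a small curve are sums over points -/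
theorem sum_st (h : H) (F : Multiset Pt → ℝ) :
    ∑ x ∈ S.St (some h), S.w (some h) x * F x = ∑ z ∈ S.P1, S.wz h z * F {z} := by
  classical
  rw [← sum_filter_add_sum_filter_not S.P1 fun z => ({z} : Multiset Pt) ∈ S.St (some h),
    sum_eq_zero (s := S.P1.filter fun z => ¬({z} : Multiset Pt) ∈ S.St (some h))
      fun z hz => by simp [wz, (mem_filter.1 hz).2], add_zero]
  symm
  refine sum_nbij (fun z => {z}) (fun z hz => (mem_filter.1 hz).2)
    (fun z _ z' _ e => Multiset.singleton_inj.1 e) (fun x hx => ?_)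
    fun z hz => by rw [S.wz_eq (mem_filter.1 hz).2]
  obtain ⟨z, hz, rfl⟩ := (hS.st1 h x hx).2
  exact ⟨z, mem_coe.2 (mem_filter.2 ⟨hz, hx⟩), rfl⟩
theorem sum_wz (h : H) : ∑ z ∈ S.P1, S.wz h z / z.p = 1 := by
  rw [← hS.nrm (some h), hS.sum_st h PT]
  exact sum_congr rfl fun z _ => by rw [PT_single, mul_one_div]

theorem mw_nonneg (c : Option H) (T : Multiset Pt) (g : G) {j : ℕ} (s : Fin j → S.St c) :
    0 ≤ S.mw c T g s :=
  div_nonneg (mul_nonneg (prod_nonneg fun i _ => (hS.st c _ (s i).2).2.2.1) (ind_nonneg _))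
    (hS.rho c).le
omit hS [Fintype H] [Fintype Cl] in
theorem mw_ne {c : Option H} {T : Multiset Pt} {g : G} {j : ℕ} {s : Fin j → S.St c}
    (h : S.mw c T g s ≠ 0) : S.Ev g c (T + ∑ i, (s i).1) ∧ ∀ i, S.w c (s i) ≠ 0 := by
  have h1 := (div_ne_zero_iff.1 h).1
  exact ⟨ind_ne (right_ne_zero_of_mul h1),
    fun i => prod_ne_zero_iff.1 (left_ne_zero_of_mul h1) i (mem_univ i)⟩
theorem TY_mono {c : Option H} {T : Multiset Pt} {j : ℕ} {g : G} {F F' : (Fin j → S.St c) → ℝ}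
    (h : ∀ s, S.mw c T g s ≠ 0 → F s ≤ F' s) : S.TY c T j g F ≤ S.TY c T j g F' := by
  refine sum_le_sum fun s _ => ?_
  by_cases h0 : S.mw c T g s = 0
  · simp [h0]
  · exact mul_le_mul_of_nonneg_left (h s h0) (hS.mw_nonneg c T g s)
theorem Y_nonneg (c : Option H) (T : Multiset Pt) (j : ℕ) (g : G) : 0 ≤ S.Y c T j g := by
  rw [Y_eq]; exact sum_nonneg fun s _ => hS.mw_nonneg c T g s
theorem Y_nd {c : Option H} {T : Multiset Pt} {j : ℕ} {g : G} (h : S.Y c T j g ≠ 0) : Nd T := by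
  rw [Y_eq] at h
  obtain ⟨s, -, hs⟩ := exists_ne_zero_of_sum_ne_zero h
  exact Nd_of_le (Multiset.le_add_right _ _) (hS.evn _ _ _ (mw_ne hs).1)
theorem Y_zr {c : Option H} {T : Multiset Pt} {j : ℕ} {g : G} (hg : g ∈ S.Gs)
    (h : S.Y c T j g ≠ 0) {z : Pt} (hz : z ∈ T) (h1 : S.ok z) (h2 : S.on c z) : S.zr g z := by
  rw [Y_eq] at h
  obtain ⟨s, -, hs⟩ := exists_ne_zero_of_sum_ne_zero h
  exact hS.evz g hg c _ (mw_ne hs).1 z (Multiset.mem_add.2 (Or.inl hz)) h1 h2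
theorem I_Y {c : Option H} {T : Multiset Pt} {i j : ℕ} {g : G} (hg : g ∈ S.Gs) (ha : S.ad c T j)
    (hT : S.Sm i T) : S.I T g * S.Y c T j g = S.Y c T j g := by
  by_cases h : S.Y c T j g = 0
  · simp [h]
  · rw [I, ind_pos fun z hz => hS.Y_zr hg h hz (hT.2.2 z hz) ((hS.ad0 _ _ _ ha).1 z hz), one_mul]
theorem Y_le {c : Option H} {T : Multiset Pt} {j : ℕ} {g : G} (hg : g ∈ S.Gs) (ha : S.ad c T j) :
    S.Y c T j g ≤ S.Ym := (hS.ad0 _ _ _ ha).2.2.2 g hg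
theorem fm_pos {c : Option H} {T : Multiset Pt} {j : ℕ} (ha : S.ad c T j) : 0 < S.fm c T j :=
  (one_div_pos.2 hS.lam_pos).trans_le (hS.ad0 _ _ _ ha).2.1
theorem fm_le {c : Option H} {T : Multiset Pt} {j : ℕ} (ha : S.ad c T j) : S.fm c T j ≤ S.Λ :=
  (hS.ad0 _ _ _ ha).2.2.1

theorem eq1 {c : Option H} {Ta T : Multiset Pt} {j : ℕ} (hn : Nd T) (hT : S.Sm 8 T)
    (h : S.Cf c Ta j T) : |S.E (fun g => S.I T g * S.Y c Ta j g) - PT T * S.fm c Ta j|
      ≤ S.θ ^ 2 * (PT T * S.fm c Ta j) := by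
  simpa [pp] using hS.eq [(c, Ta, j)] T (by simp) (by simp) hn hT (by simpa using h)
theorem eq1_le {c : Option H} {Ta T : Multiset Pt} {j : ℕ} (hn : Nd T) (hT : S.Sm 8 T)
    (h : S.Cf c Ta j T) : S.E (fun g => S.I T g * S.Y c Ta j g) ≤ 2 * S.Λ * PT T := by
  have h1 := (abs_le.1 (hS.eq1 hn hT h)).2
  have h2 := mul_le_mul_of_nonneg_left (hS.fm_le h.1) (PT_nonneg T)
  have h3 := mul_le_mul_of_nonneg_right (hS.th_sq.trans hS.th_le)
    (mul_nonneg (PT_nonneg T) (hS.fm_pos h.1).le)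
  linarith
theorem eq1_self {c : Option H} {T : Multiset Pt} {j : ℕ} (hn : Nd T) (hT : S.Sm 8 T)
    (h : S.ad c T j) : |S.E (S.Y c T j) - PT T * S.fm c T j| ≤ S.θ ^ 2 * (PT T * S.fm c T j) := by
  rw [← S.E_congr fun g hg => hS.I_Y hg h hT]
  exact hS.eq1 hn hT (S.Cf_self h)
theorem eq2 {c c' : Option H} {Ta Tb T : Multiset Pt} {j j' : ℕ} (hn : Nd T) (hT : S.Sm 8 T)
    (hc : c ≠ c') (h : S.Cf c Ta j T) (h' : S.Cf c' Tb j' T) :
    |S.E (fun g => S.I T g * (S.Y c Ta j g * S.Y c' Tb j' g))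
        - PT T * (S.fm c Ta j * S.fm c' Tb j')|
      ≤ ((1 + S.θ ^ 2) * (1 + S.et c c') - 1) * (PT T * (S.fm c Ta j * S.fm c' Tb j')) := by
  simpa [pp] using hS.eq [(c, Ta, j), (c', Tb, j')] T (by simp) (by simpa using hc) hn hT
    (by simpa using ⟨h, h'⟩)
theorem eq3 {c c' c'' : Option H} {Ta Tb Tc T : Multiset Pt} {j j' j'' : ℕ} (hn : Nd T)
    (hT : S.Sm 8 T) (h1 : c ≠ c') (h2 : c ≠ c'') (h3 : c' ≠ c'') (h : S.Cf c Ta j T)
    (h' : S.Cf c' Tb j' T) (h'' : S.Cf c'' Tc j'' T) :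
    |S.E (fun g => S.I T g * (S.Y c Ta j g * (S.Y c' Tb j' g * S.Y c'' Tc j'' g)))
        - PT T * (S.fm c Ta j * (S.fm c' Tb j' * S.fm c'' Tc j''))|
      ≤ ((1 + S.θ ^ 2) * ((1 + S.et c c') * (1 + S.et c c'') * (1 + S.et c' c'')) - 1)
        * (PT T * (S.fm c Ta j * (S.fm c' Tb j' * S.fm c'' Tc j''))) := by
  simpa [pp] using hS.eq [(c, Ta, j), (c', Tb, j'), (c'', Tc, j'')] T (by simp)
    (by simp [h1, h2, h3]) hn hT (by simpa using ⟨h, h', h''⟩)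

theorem tb1 {T : Multiset Pt} (hn : Nd T) (hT : S.Sm 8 T) : S.E (S.I T) ≤ 2 * PT T :=
  hS.tb T (Nd_nodup hn) (fun p => (Multiset.nodup_iff_count_le_one.1 hn p).trans one_le_two) hT
theorem tb2 {T : Multiset Pt} {z : Pt} (hn : Nd T) (hz : z ∉ T) (hT : S.Sm 8 (z ::ₘ T)) :
    S.E (S.I (z ::ₘ T)) ≤ 2 * (PT T / z.p) := by
  rw [← PT_cons]
  refine hS.tb _ (Multiset.nodup_cons.2 ⟨hz, Nd_nodup hn⟩) (fun p => ?_) hT
  have := Multiset.nodup_iff_count_le_one.1 hn p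
  rw [Multiset.map_cons, Multiset.count_cons]
  split_ifs <;> omega

theorem sum_n0 : ∑ z ∈ S.P1, S.n0 z / z.p ≤ 2 := by
  have h1 : ∑ z ∈ S.P1, S.n0 z / z.p
      = ∑ i ∈ range S.K, ∑ z ∈ S.P1, ind (S.d z = i) * S.n0 z / z.p := by
    rw [sum_comm]
    refine sum_congr rfl fun z hz => ?_
    rw [sum_eq_single (S.d z) (fun i _ hi => by rw [ind_neg hi.symm]; simp)
      fun h => absurd (mem_range.2 (hS.d_lt hz)) h, ind_pos rfl, one_mul]
  have h2 : ∑ _i ∈ range S.K, (1 : ℝ) / S.K ≤ 1 := by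
    rw [sum_const, card_range, nsmul_eq_mul, mul_one_div]; exact div_self_le_one _
  have h3 := (sum_le_sum fun i _ => le_abs_self _).trans hS.r0
  rw [sum_sub_distrib] at h3
  linarith [hS.th_sq, hS.th_le]
theorem sum_q2 : ∑ z ∈ S.P1, 1 / (z.p : ℝ) ^ 2 ≤ 2 * S.Λ := by
  have h1 : ∑ z ∈ S.P1, 1 / (z.p : ℝ) ^ 2 ≤ ∑ z ∈ S.P1, S.Λ * (S.n0 z / z.p) := by
    refine sum_le_sum fun z hz => ?_
    rw [sq, ← div_div, ← mul_div_assoc]
    exact div_le_div_of_nonneg_right (hS.p1 z hz).2.2.2.1 (Nat.cast_nonneg _)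
  rw [← mul_sum] at h1
  nlinarith [hS.sum_n0, hS.lam_pos]

theorem U_pos : 0 < S.K * S.r := by
  have h1 : S.K ≠ 0 := fun h => by have := hS.cel.2.1; rw [h] at this; norm_num at this
  have := hS.cel.1
  exact Nat.mul_pos (Nat.pos_of_ne_zero h1) (by omega)
theorem f1_bd (z : Pt) : 0 ≤ S.f1 z ∧ S.f1 z ≤ 1 :=
  ⟨(rFuU _ _ _ 0 hS.U_pos).1, (rFuU _ _ _ 0 hS.U_pos).2.1 (by omega)⟩
theorem f2_bd (z z' : Pt) : 0 ≤ S.f2 z z' ∧ S.f2 z z' ≤ 1 :=
  ⟨(rFuU _ _ _ 0 hS.U_pos).1, (rFuU _ _ _ 0 hS.U_pos).2.1 (by have := hS.nat.1; omega)⟩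

theorem par_mono {A B : ℕ} {e : ℝ} (hAB : A ≤ B) (h : S.Par B e) : S.Par A e := by
  have h1 := hS.pow_mono hAB
  have hM : 0 ≤ S.M := by linarith [hS.num.2.2.1]
  exact ⟨h.1, (mul_le_mul_of_nonneg_left h1 hS.num.2.2.2.2.2.2.1.le).trans h.2.1,
    (mul_le_mul_of_nonneg_left h1 (mul_nonneg h.1.le hM)).trans h.2.2.1,
    (mul_le_mul_of_nonneg_left h1 (mul_nonneg hS.th_pos.le hM)).trans h.2.2.2⟩
/-- consequences of `Par` -/
theorem par_small {A : ℕ} {e : ℝ} (h : S.Par A e) : e * S.Λ ^ A ≤ 1 ∧ e ≤ 1 ∧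
    S.θ * S.M * S.Λ ^ A ≤ 1 ∧ S.θ * S.Λ ^ A ≤ 1 ∧ S.M * S.Λ ^ A * S.θ / e ^ 2 ≤ 1 := by
  obtain ⟨h0, h1, h2, h3⟩ := h
  have hL : 1 ≤ S.Λ ^ A := one_le_pow₀ hS.one_le
  have hM := hS.num.2.2.1
  have hη := hS.num.2.2.2.2.2.2.1
  have a1 : e * S.Λ ^ A ≤ 1 := by
    nlinarith [mul_nonneg (mul_nonneg h0.le (sub_nonneg.2 hM)) (zero_le_one.trans hL)]
  have a2 : e ≤ 1 := by nlinarith
  have a3 : S.θ * S.M * S.Λ ^ A ≤ 1 := by nlinarith
  refine ⟨a1, a2, a3, ?_, (div_le_one (by positivity)).2 (by linarith)⟩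
  nlinarith [mul_nonneg (mul_nonneg hS.th_pos.le (sub_nonneg.2 hM)) (zero_le_one.trans hL)]

end Ok

end Sys

end Pool.Agent.MP_f3836a_nt.VE.F
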