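import Pool.Agent.MP_f3836a_nt.VE.SpecFA

/-! Almost additive functions on an interval are almost linear. -/

set_option autoImplicit false

namespace Pool.Agent.MP_f3836a_nt.VE.F

open Finset

theorem hu_zero (n : ℕ) (μ : ℕ → ℝ) (c : ℝ)
    (h : ∀ t t', t + t' ≤ n → |μ (t + t') - μ t - μ t'| ≤ c) (h0 : n = 0 ∨ μ n = 0) :
    ∀ t ≤ n, |μ t| ≤ 3 * c := by
  have hc : 0 ≤ c := (abs_nonneg _).trans (h 0 0 (by omega))
  obtain ⟨a, ha, hm⟩ := exists_max_image (range (n + 1)) (fun t => |μ t|) ⟨0, by simp⟩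
  have hm' : ∀ t ≤ n, |μ t| ≤ |μ a| := fun t ht => hm t (mem_range.2 (by omega))
  have ha' : a ≤ n := by
    have := mem_range.1 ha
    omega
  have key : ∀ t, t + t ≤ n → 2 * |μ t| ≤ |μ a| + c := fun t ht => by
    have h1 := abs_le.1 (h t t ht)
    have h2 := abs_le.1 (hm' _ ht)
    rcases abs_cases (μ t) with e | e <;> linarith [e.1]
  intro t ht
  refine (hm' t ht).trans ?_
  by_cases h2 : a + a ≤ n
  · linarith [key a h2]
  · have h3 := h a (n - a) (by omega)
    rw [Nat.add_sub_cancel' ha', h0.resolve_left (by omega)] at h3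
    have h4 := key (n - a) (by omega)
    have h5 := abs_le.1 h3
    rcases abs_cases (μ a) with e | e <;> rcases abs_cases (μ (n - a)) with e' | e' <;>
      linarith [e.1, e'.1, e.2, e'.2]

theorem rHu : HuS := by
  intro n l c h
  refine ⟨l n / n, hu_zero n (fun t => l t - l n / n * t) c (fun t t' ht => ?_) ?_⟩
  · convert h t t' ht using 2
    push_cast
    ring
  · rcases Nat.eq_zero_or_pos n with e | e
    · exact .inl e
    · have : (n : ℝ) ≠ 0 := by positivity
      exact .inr (by field_simp; ring)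

end Pool.Agent.MP_f3836a_nt.VE.F
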