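import Pool.Agent.MP_f3836a_nt.VE.FBase

/-! Row S1t: the sum over a block does not depend on the big curve. -/

set_option autoImplicit false

namespace Pool.Agent.MP_f3836a_nt.VE.F

open Finset

theorem S1t_small {L x : ℝ} {a A : ℕ} (hL : 100 ≤ L) (hx : 0 ≤ x) (h : x * L ^ A ≤ 1)
    (ha : a + 6 ≤ A) : 64 * L ^ 4 * (L ^ a * x) ≤ 1 / 2 := by
  have h1 : x * L ^ (a + 6) ≤ 1 :=
    (mul_le_mul_of_nonneg_left (pow_le_pow_right₀ (by linarith) ha) hx).trans h
  have h2 : 0 ≤ L ^ 4 * (L ^ a * x) := by positivity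
  have h3 : x * L ^ (a + 6) = L ^ 2 * (L ^ 4 * (L ^ a * x)) := by ring
  have h4 : 128 ≤ L ^ 2 := by nlinarith
  nlinarith

theorem rS1t : OfS1t := by
  intro hC A1 A2 A3 h1 h2 h3
  refine ⟨A1 + A2 + A3 + 6, fun {G H Cl} _ _ S hS e he α hα => ?_⟩
  obtain ⟨s1, -, -, s2, -⟩ := hS.par_small he
  have hσ := hS.sig_pos
  have hΛ := hS.lam_pos
  have d1 : 0 ≤ S.Λ ^ A2 * e := mul_nonneg (by positivity) he.1.le
  have d2 : 0 ≤ S.Λ ^ A1 * S.θ ^ 2 := by positivity
  have key : ∀ T ∈ S.St none, ∃ b : ℝ,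
      (∀ h, S.adm h T → (T.map (S.ψ (some h))).sum = b) ∧
        ∀ g ∈ S.Gs, ¬S.b2 e g T → (T.map (S.φ g)).sum = b := fun T hT => by
    obtain ⟨hn, hm, -⟩ := hS.st none T hT
    have hP := hS.PT_pos hm
    have ha : ∀ h, S.σ * ind (S.adm h T) ≠ 0 → S.adm h T := fun h hh =>
      ind_ne (right_ne_zero_of_mul hh)
    obtain ⟨b, hb1, hb2⟩ := hC S.Gs (fun h => S.σ * ind (S.adm h T))
      (fun h => S.fm (some h) T (S.k + 2)) (fun h => (T.map (S.ψ (some h))).sum)
      (fun g h => S.Y (some h) T (S.k + 2) g) (fun g h => S.Gm e T g h) (fun g => ¬S.b2 e g T)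
      (fun g => (T.map (S.φ g)).sum) S.Λ (S.Λ ^ A2 * e + S.Λ ^ A1 * S.θ ^ 2) (PT T) hS.gs
      hS.one_le hP (add_nonneg d1 d2)
      (by
        have a1 := S1t_small (a := A2) hS.num.1 he.1.le s1 (by omega)
        have a2 := S1t_small (a := A1) hS.num.1 (sq_nonneg S.θ)
          ((mul_le_mul_of_nonneg_right hS.th_sq (by positivity)).trans s2) (by omega)
        linarith)
      (fun h => mul_nonneg hσ.le (ind_nonneg _))
      (fun h hh => hS.fm_pos (hS.ad3 h T hT (ha h hh)).2.1)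
      (fun g h => ⟨sum_nonneg fun s _ => mul_nonneg (hS.mw_nonneg _ _ _ s) (ind_nonneg _),
        (hS.TY_mono fun _ _ => ind_le_one _).trans_eq (S.TY_one _ _ _ _)⟩)
      (fun g hg hgd => by
        obtain ⟨b1, b2, b3⟩ := h2 S hS e (hS.par_mono (by omega) he) α hα T hT g hg hgd
        simp only [mul_assoc S.σ, ← mul_sum]
        exact ⟨fun h hh => b1 h (ha h hh),
          b2.trans (mul_le_mul_of_nonneg_right (le_add_of_nonneg_right d2) hP.le), b3⟩)
      (fun a h0 => by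
        simp only [mul_assoc S.σ, ← mul_sum] at h0 ⊢
        refine (h1 S hS T (S.k + 2) (fun h => ind (S.adm h T)) a 1 hn (hS.Sm_mono (by omega) hm)
          (fun h => ⟨ind_nonneg _, ind_le_one _⟩)
          (fun h hh => (hS.ad3 h T hT (ind_ne hh)).2.1)
          ((mul_eq_zero.1 h0).resolve_left hσ.ne')).trans ?_
        rw [one_mul]
        exact mul_le_mul_of_nonneg_right
          (mul_le_mul_of_nonneg_right (le_add_of_nonneg_left d1) (sq_nonneg _))
          (mul_nonneg hσ.le (sum_nonneg fun h _ => mul_nonneg (ind_nonneg _) (sq_nonneg _))))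
      fun h hh => h3 S hS e (hS.par_mono (by omega) he) T hT h (ha h hh)
    exact ⟨b, fun h hh => hb1 h (by rw [ind_pos hh, mul_one]; exact hσ.ne'), hb2⟩
  choose! β hβ1 hβ2 using key
  refine ⟨β, fun T hT => ⟨?_, hβ2 T hT⟩⟩
  obtain ⟨h, hh⟩ : ∃ h, S.adm h T := by
    by_contra hn
    have h4 := hS.r5 T hT
    rw [sum_eq_zero fun h _ => ind_neg fun hh => hn ⟨h, hh⟩, mul_zero, mul_zero] at h4
    exact absurd (hS.PT_pos (hS.st none T hT).2.1) (not_lt.2 h4)
  rw [← hβ1 _ (hS.st none T hT).2.2.2.1 h (hS.ad3 h T hT hh).1, ← hβ1 T hT h hh, Multiset.map_map,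
    ← Multiset.sum_map_neg]
  exact congrArg Multiset.sum (Multiset.map_congr rfl fun z hz =>
    (hS.okp z (hS.st_on hT z hz).1).2.2 _)

end Pool.Agent.MP_f3836a_nt.VE.F
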