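import Pool.Agent.MP_f3836a_nt.VE.SpecA7

/-! Approximation by integral polynomials. -/

set_option autoImplicit false

namespace Pool.Agent.MP_f3836a_nt.VE.A7

open Polynomial

namespace PPwc

theorem ng_monic {f A B : ℤ[X]} {m : ℕ} (hf : f.natDegree = 3) (h : Mon m A B) :
    (Ng f A B).Monic ∧ (Ng f A B).natDegree = 2 * m := by
  obtain ⟨h1, h2, h3⟩ := h
  have hd : (A ^ 2).natDegree = 2 * m := by rw [h1.natDegree_pow, h2]
  have hl : (f * B ^ 2).natDegree < (A ^ 2).natDegree := by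
    have h4 : (f * B ^ 2).natDegree ≤ f.natDegree + (B ^ 2).natDegree := natDegree_mul_le
    have h5 : (B ^ 2).natDegree ≤ 2 * B.natDegree := natDegree_pow_le
    omega
  exact ⟨(h1.pow 2).sub_of_left (degree_lt_degree hl),
    (natDegree_sub_eq_left_of_natDegree_lt hl).trans hd⟩

variable {p : ℕ} [Fact p.Prime]

/-- move the fibre to the origin -/
noncomputable def ph (p : ℕ) [Fact p.Prime] (t0 : ℤ) : ℤ[X] →+* ℤ_[p][X] :=
  (mapRingHom (Int.castRingHom ℤ_[p])).comp (compRingHom (C t0 + X))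

theorem ph_taylor (t0 : ℤ) (Q : ℤ[X]) :
    ph p t0 (taylor (-t0) Q) = Q.map (Int.castRingHom ℤ_[p]) := by
  change ((taylor (-t0) Q).comp (C t0 + X)).map _ = _
  rw [add_comm, ← taylor_apply, taylor_taylor, add_neg_cancel, taylor_zero]

theorem appr (P : ℤ_[p][X]) (J : ℕ) : ∃ Q : ℤ[X], Q.degree ≤ P.degree ∧
    C ((p : ℤ_[p]) ^ J) ∣ Q.map (Int.castRingHom ℤ_[p]) - P := by
  refine ⟨∑ i ∈ P.support, monomial i ((P.coeff i).appr J : ℤ), (degree_sum_le _ _).trans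
    (Finset.sup_le fun i hi => (degree_monomial_le _ _).trans (le_degree_of_mem_supp i hi)), ?_⟩
  rw [Polynomial.map_sum]
  nth_rewrite 3 [P.as_sum_support]
  rw [← Finset.sum_sub_distrib]
  refine Finset.dvd_sum fun i _ => ?_
  obtain ⟨c, hc⟩ := Ideal.mem_span_singleton.1 (PadicInt.appr_spec J (P.coeff i))
  refine ⟨monomial i (-c), ?_⟩
  rw [map_monomial, ← map_sub, C_mul_monomial, mul_neg, ← hc]
  simp

theorem cg {t0 : ℤ} {J : ℕ} {P P' : ℤ[X]} {A : ℤ_[p][X]} (h : Cg ((p : ℤ) ^ J) P' P)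
    (h' : C ((p : ℤ_[p]) ^ J) ∣ ph p t0 P - A) : C ((p : ℤ_[p]) ^ J) ∣ ph p t0 P' - A := by
  have h1 := map_dvd (ph p t0) ((C_dvd_iff_dvd_coeff _ (P' - P)).2 fun i => by
    rw [coeff_sub]; exact h i)
  have h2 : ph p t0 (C ((p : ℤ) ^ J)) = C ((p : ℤ_[p]) ^ J) := by simp
  rw [h2, map_sub] at h1
  simpa using h1.add h'

theorem ev {t0 : ℤ} {q : ℤ_[p]} {P : ℤ[X]} {A : ℤ_[p][X]} (h : C q ∣ ph p t0 P - A) :
    q ∣ (P.eval t0 : ℤ) - A.eval 0 := by
  have := eval_dvd (x := 0) h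
  simpa [ph, eval_zero_map, eval_comp] using this

end PPwc

open PPwc in
theorem rPwc : PwcS := by
  intro p _ f t0 A B y0 u v m σ J hf hJ h
  obtain ⟨Q, q1, q2⟩ := appr (A - X ^ m) J
  obtain ⟨R, r1, r2⟩ := appr B J
  have d1 : Q.degree < (X ^ m : ℤ[X]).degree := by
    refine q1.trans_lt ?_
    rw [degree_X_pow, ← h.deg, ← degree_eq_natDegree h.monic.ne_zero]
    exact degree_sub_lt_left (by rw [degree_X_pow, degree_eq_natDegree h.monic.ne_zero])
      h.monic.ne_zero (by rw [h.monic.leadingCoeff, leadingCoeff_X_pow])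
  have a1 : C ((p : ℤ_[p]) ^ J) ∣ ph p t0 (taylor (-t0) (X ^ m + Q)) - A := by
    rw [ph_taylor, Polynomial.map_add, Polynomial.map_pow, map_X]
    rwa [show X ^ m + Q.map (Int.castRingHom ℤ_[p]) - A =
      Q.map (Int.castRingHom ℤ_[p]) - (A - X ^ m) by ring]
  have b1 : C ((p : ℤ_[p]) ^ J) ∣ ph p t0 (taylor (-t0) R) - B := by rwa [ph_taylor]
  refine ⟨taylor (-t0) (X ^ m + Q), taylor (-t0) R, ⟨?_, ?_, ?_⟩, fun A' B' hM hA hB => ?_,
    fun A' B' hA hB => ?_⟩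
  · rw [Monic, leadingCoeff_taylor]
    exact (monic_X_pow m).add_of_left d1
  · rw [natDegree_taylor, natDegree_add_eq_left_of_degree_lt d1, natDegree_X_pow]
  · rw [natDegree_taylor]
    exact (Nat.add_le_add_right (natDegree_le_natDegree r1) 2).trans h.degB
  · obtain ⟨M, -, m2, m3⟩ := h.slope
    obtain ⟨n1, n2⟩ := ng_monic hf hM
    obtain ⟨a, ha⟩ := cg hA a1
    obtain ⟨b, hb⟩ := cg hB b1
    obtain ⟨r, rfl⟩ := Nat.exists_eq_add_of_lt hJ
    have p0 : (p : ℤ) ≠ 0 := Nat.cast_ne_zero.2 (Fact.out : p.Prime).ne_zero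
    obtain ⟨G, hG⟩ : ∃ G, G = (Ng f A' B').comp (C t0 + C ((p : ℤ) ^ σ) * X) := ⟨_, rfl⟩
    obtain ⟨S, hS⟩ : ∃ S, G.map (Int.castRingHom ℤ_[p]) =
        C ((p : ℤ_[p]) ^ (2 * m * σ)) * (M + C (p : ℤ_[p]) * S) := by
      have e1 : G.map (Int.castRingHom ℤ_[p]) =
          (ph p t0 (Ng f A' B')).comp (C ((p : ℤ_[p]) ^ σ) * X) := by
        simp [hG, ph, map_comp, comp_assoc]
      have e2 : ph p t0 (Ng f A' B') = A ^ 2 - ph p t0 f * B ^ 2 + C ((p : ℤ_[p]) ^
          (2 * m * σ + r + 1)) * (a * (ph p t0 A' + A) - ph p t0 f * b * (ph p t0 B' + B)) := by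
        rw [Ng, map_sub, map_mul, map_pow, map_pow]
        linear_combination (ph p t0 A' + A) * ha - ph p t0 f * (ph p t0 B' + B) * hb
      refine ⟨C ((p : ℤ_[p]) ^ r) * (a * (ph p t0 A' + A) - ph p t0 f * b * (ph p t0 B' + B)).comp
        (C ((p : ℤ_[p]) ^ σ) * X), ?_⟩
      rw [e1, e2, add_comp, C_mul_comp]
      refine (congrArg (· + _) m3).trans ?_
      simp only [pow_add, pow_one, C_mul]
      ring
    obtain ⟨M', hM'⟩ : C ((p : ℤ) ^ (2 * m * σ)) ∣ G := (C_dvd_iff_dvd_coeff _ _).2 fun i =>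
      (PadicInt.pow_p_dvd_int_iff _ _).1 (by
        have := congrArg (coeff · i) hS
        simp only [coeff_map, coeff_C_mul, eq_intCast] at this
        exact ⟨_, this⟩)
    refine ⟨M', ?_, fun hd => ?_, hG ▸ hM'⟩
    · have l1 := leadingCoeff_comp (p := Ng f A' B') (q := C ((p : ℤ) ^ σ) * X + C t0)
        (by rw [natDegree_linear (pow_ne_zero _ p0)]; exact one_ne_zero)
      rw [leadingCoeff_linear (pow_ne_zero _ p0), add_comm, ← hG, hM', leadingCoeff_mul,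
        leadingCoeff_C, n1.leadingCoeff, n2, ← pow_mul, mul_comm σ, mul_comm 1] at l1
      exact mul_left_cancel₀ (pow_ne_zero _ p0) l1
    · have := congrArg (coeff · 0) hS
      beta_reduce at this
      rw [hM', coeff_map, coeff_C_mul, coeff_C_mul, coeff_add, coeff_C_mul] at this
      simp only [eq_intCast, Int.cast_mul, Int.cast_pow, Int.cast_natCast] at this
      have e := mul_left_cancel₀ (pow_ne_zero _ PadicInt.prime_p.ne_zero) this
      have d : (p : ℤ_[p]) ∣ (M'.coeff 0 : ℤ) := by simpa using map_dvd (Int.castRingHom ℤ_[p]) hd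
      rw [e, dvd_add_left (dvd_mul_right _ _)] at d
      exact PadicInt.prime_p.not_isUnit (isUnit_of_dvd_unit d m2)
  · have e1 := ev (cg hA a1)
    have e2 := (ev (cg hB b1)).mul_right y0
    rw [← h.plus, ← h.minus]
    exact ⟨by convert e1.add e2 using 1; ring, by convert e1.sub e2 using 1; ring⟩

end Pool.Agent.MP_f3836a_nt.VE.A7
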