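import Pool.Agent.MP_f3836a_nt.VE.SpecA7

/-! Multiples of a point come close to the origin. -/

set_option autoImplicit false

namespace Pool.Agent.MP_f3836a_nt.VE.A7

open Polynomial WeierstrassCurve Filter Topology

namespace PRec

theorem eqn {K : Type} [Field K] {a b c x y : K} (h : (wc a b c).Nonsingular x y) :
    y ^ 2 = x ^ 3 + a * x ^ 2 + b * x + c := by
  have := (Affine.equation_iff x y).1 h.1
  simpa [wc] using this

theorem key {K : Type} [Field K] [DecidableEq K] {a b c x1 y1 x2 y2 : K}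
    (h1 : (wc a b c).Nonsingular x1 y1) (h2 : (wc a b c).Nonsingular x2 y2)
    (hne : Affine.Point.some x1 y1 h1 - Affine.Point.some x2 y2 h2 ≠ 0) :
    ∃ l : K, l * (x1 - x2) = y1 + y2 ∧
      l * (y1 - y2) = x1 ^ 2 + x1 * x2 + x2 ^ 2 + a * (x1 + x2) + b ∧
      ∃ y h, Affine.Point.some x1 y1 h1 - Affine.Point.some x2 y2 h2 =
        Affine.Point.some (l ^ 2 - a - x1 - x2) y h := by
  have e1 := eqn h1
  have e2 := eqn h2
  rw [sub_eq_add_neg (Affine.Point.some x1 y1 h1), Affine.Point.neg_some] at hne ⊢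
  have hxy : ¬(x1 = x2 ∧ y1 = (wc a b c).negY x2 ((wc a b c).negY x2 y2)) := fun h =>
    hne (Affine.Point.add_of_Y_eq h.1 h.2)
  have hn : ∀ x y : K, (wc a b c).negY x y = -y := fun x y => by simp [wc]
  refine ⟨(wc a b c).slope x1 x2 y1 ((wc a b c).negY x2 y2), ?_⟩
  rw [← and_assoc]
  refine ⟨?_, ?_⟩
  · by_cases hx : x1 = x2
    · have hy : y1 ≠ (wc a b c).negY x2 ((wc a b c).negY x2 y2) := fun h => hxy ⟨hx, h⟩
      rw [Affine.slope_of_Y_ne hx hy]
      simp only [hn, neg_neg] at hy ⊢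
      subst hx
      have h0 : (y1 - y2) * (y1 + y2) = 0 := by linear_combination e1 - e2
      have h3 : y2 = -y1 := by
        have := (mul_eq_zero.1 h0).resolve_left (sub_ne_zero.2 hy)
        linear_combination this
      subst h3
      have h4 : y1 - -y1 ≠ 0 := sub_ne_zero.2 hy
      refine ⟨by ring, ?_⟩
      rw [div_mul_cancel₀ _ h4]
      simp only [wc]
      ring
    · rw [Affine.slope_of_X_ne hx, hn]
      have h4 : x1 - x2 ≠ 0 := sub_ne_zero.2 hx
      refine ⟨by rw [div_mul_cancel₀ _ h4]; ring, ?_⟩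
      field_simp
      linear_combination e1 - e2
  · rw [Affine.Point.add_some hxy]
    have hX : (wc a b c).addX x1 x2 ((wc a b c).slope x1 x2 y1 ((wc a b c).negY x2 y2)) =
        ((wc a b c).slope x1 x2 y1 ((wc a b c).negY x2 y2)) ^ 2 - a - x1 - x2 := by
      rw [Affine.addX]
      simp only [show (wc a b c).a₁ = 0 from rfl, show (wc a b c).a₂ = a from rfl]
      ring
    refine ⟨_, hX ▸ Affine.nonsingular_add h1 ((Affine.nonsingular_neg ..).mpr h2) hxy, ?_⟩
    simp only [Affine.Point.some.injEq, and_true]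
    exact hX

theorem bdd {K : Type} [NormedField K] {y : K} {T : ℝ} (h : ‖y ^ 2‖ ≤ T) : ‖y‖ ≤ T + 1 := by
  rw [norm_pow] at h
  nlinarith [norm_nonneg y, sq_nonneg (‖y‖ - 1)]

end PRec

open PRec Classical in
theorem rRec : RecS := by
  intro p _ a b c P R ha hb hc hco
  by_contra hcon
  have hall : ∀ n : ℕ, 1 ≤ n → n • P ≠ 0 ∧
      ∀ x y h, n • P = Affine.Point.some x y h → ‖x‖ < R := fun n hn =>
    ⟨fun h => hcon ⟨n, hn, Or.inl h⟩, fun x y h e => lt_of_not_ge fun hR =>
      hcon ⟨n, hn, Or.inr ⟨x, y, h, e, hR⟩⟩⟩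
  have hex : ∀ n : ℕ, ∃ x y h, (n + 1) • P = Affine.Point.some x y h := fun n => by
    have := (hall (n + 1) (by omega)).1
    rcases hP : (n + 1) • P with _ | ⟨x, y, h⟩
    · exact absurd hP this
    · exact ⟨x, y, h, rfl⟩
  choose X Y H hP using hex
  have hX : ∀ n, ‖X n‖ ≤ R := fun n => ((hall (n + 1) (by omega)).2 _ _ _ (hP n)).le
  have hR : 0 ≤ R := (norm_nonneg _).trans (hX 0)
  have hY : ∀ n, ‖Y n‖ ≤ R ^ 3 + R ^ 2 + R + 1 + 1 := fun n => bdd (by
    rw [eqn (H n)]
    have h0 := norm_nonneg (X n)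
    have h1 := hX n
    refine (norm_add_le _ _).trans (add_le_add ((norm_add_le _ _).trans (add_le_add
      ((norm_add_le _ _).trans (add_le_add ?_ ?_)) ?_)) hc)
    · rw [norm_pow]; gcongr
    · rw [norm_mul, norm_pow]
      calc ‖a‖ * ‖X n‖ ^ 2 ≤ 1 * R ^ 2 := by gcongr
        _ = _ := one_mul _
    · rw [norm_mul]
      calc ‖b‖ * ‖X n‖ ≤ 1 * R := by gcongr
        _ = _ := one_mul _)
  obtain ⟨⟨x, y⟩, -, φ, hφ, hlim⟩ := ((isCompact_closedBall (0 : ℚ_[p]) R).prod
    (isCompact_closedBall (0 : ℚ_[p]) (R ^ 3 + R ^ 2 + R + 1 + 1))).tendsto_subseq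
    (x := fun n => (X n, Y n)) fun n => ⟨by simpa using hX n, by simpa using hY n⟩
  have lx : Tendsto (fun n => X (φ n)) atTop (𝓝 x) := (continuous_fst.tendsto _).comp hlim
  have ly : Tendsto (fun n => Y (φ n)) atTop (𝓝 y) := (continuous_snd.tendsto _).comp hlim
  have lx' : Tendsto (fun n => X (φ (n + 1))) atTop (𝓝 x) := lx.comp (tendsto_add_atTop_nat 1)
  have ly' : Tendsto (fun n => Y (φ (n + 1))) atTop (𝓝 y) := ly.comp (tendsto_add_atTop_nat 1)
  have hl : ∀ n : ℕ, ∃ l : ℚ_[p], l * (X (φ (n + 1)) - X (φ n)) = Y (φ (n + 1)) + Y (φ n) ∧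
      l * (Y (φ (n + 1)) - Y (φ n)) = X (φ (n + 1)) ^ 2 + X (φ (n + 1)) * X (φ n) + X (φ n) ^ 2 +
        a * (X (φ (n + 1)) + X (φ n)) + b ∧ ‖l‖ ≤ R + 1 + R + R + 1 := fun n => by
    have hlt : φ n < φ (n + 1) := hφ (by omega)
    have hd : Affine.Point.some _ _ (H (φ (n + 1))) - Affine.Point.some _ _ (H (φ n)) =
        (φ (n + 1) - φ n) • P := by
      rw [← hP, ← hP, sub_eq_iff_eq_add, ← add_nsmul]
      congr 1
      omega
    have h1 := hall (φ (n + 1) - φ n) (by omega)
    rw [← hd] at h1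
    obtain ⟨l, e1, e2, y', h', e3⟩ := key _ _ h1.1
    refine ⟨l, e1, e2, bdd ?_⟩
    have h2 := (h1.2 _ _ _ e3).le
    rw [show l ^ 2 = l ^ 2 - a - X (φ (n + 1)) - X (φ n) + a + X (φ (n + 1)) + X (φ n) by ring]
    exact (norm_add_le _ _).trans (add_le_add ((norm_add_le _ _).trans (add_le_add
      ((norm_add_le _ _).trans (add_le_add h2 ha)) (hX _))) (hX _))
  choose L e1 e2 hL using hl
  have hz : ∀ u : ℕ → ℚ_[p], Tendsto u atTop (𝓝 0) → Tendsto (fun n => L n * u n) atTop (𝓝 0) :=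
    fun u hu => by
      rw [tendsto_zero_iff_norm_tendsto_zero] at hu ⊢
      refine squeeze_zero (fun n => norm_nonneg _) (fun n => ?_)
        (by simpa using hu.const_mul (R + 1 + R + R + 1))
      rw [norm_mul]
      exact mul_le_mul_of_nonneg_right (hL n) (norm_nonneg _)
  have f1 : y + y = 0 := by
    have := hz _ (by simpa using lx'.sub lx)
    simp only [e1] at this
    exact tendsto_nhds_unique (ly'.add ly) this
  have f2 : x ^ 2 + x * x + x ^ 2 + a * (x + x) + b = 0 := by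
    have := hz _ (by simpa using ly'.sub ly)
    simp only [e2] at this
    exact tendsto_nhds_unique (((((lx'.pow 2).add (lx'.mul lx)).add (lx.pow 2)).add
      ((lx'.add lx).const_mul a)).add_const b) this
  have f3 : y ^ 2 = x ^ 3 + a * x ^ 2 + b * x + c := by
    have := ly.pow 2
    simp only [eqn (H _)] at this
    exact tendsto_nhds_unique this ((((lx.pow 3).add ((lx.pow 2).const_mul a)).add
      (lx.const_mul b)).add_const c)
  have hy : y = 0 := by linear_combination (1 / 2 : ℚ_[p]) * f1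
  obtain ⟨u, w, huw⟩ := hco
  have h := congrArg (eval x) huw
  have g1 : (cb a b c).eval x = 0 := by
    simp only [cb, eval_add, eval_mul, eval_pow, eval_X, eval_C]
    rw [← f3, hy]; ring
  have g2 : (derivative (cb a b c)).eval x = 0 := by
    simp only [cb, derivative_add, derivative_mul, derivative_X_pow, derivative_C, derivative_X,
      eval_add, eval_mul, eval_pow, eval_X, eval_C, eval_zero, eval_one]
    push_cast
    linear_combination f2
  simp [g1, g2] at h

end Pool.Agent.MP_f3836a_nt.VE.A7
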