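import Pool.Agent.MP_f3836a_nt.VE.Defs

/-! The local data at a split prime. -/

set_option autoImplicit false

namespace Pool.Agent.MP_f3836a_nt.VE.A7

open Polynomial WeierstrassCurve

/-- the embedding which sends the square root to `y` -/
noncomputable def sv {d : ℤ} {p : ℕ} [Fact p.Prime] (y : ℤ_[p]) (z : ℤ√d) : ℤ_[p] := z.re + z.im * y

/-- all zeros of `g` are at the same distance from the fibre -/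
def SS (f : ℤ[X]) (t0 : ℤ) (p m J σ : ℕ) (As Bs : ℤ[X]) : Prop :=
  ∀ A B : ℤ[X], Mon m A B → Cg ((p : ℤ) ^ J) A As → Cg ((p : ℤ) ^ J) B Bs →
    ∃ M : ℤ[X], M.Monic ∧ ¬(p : ℤ) ∣ M.coeff 0 ∧
      (Ng f A B).comp (C t0 + C ((p : ℤ) ^ σ) * X) = C ((p : ℤ) ^ (2 * m * σ)) * M

/-- the export -/
def PaS : Prop := ∀ (f : ℤ[X]) (t0 : ℤ) (A0 p : ℕ) [Fact p.Prime] (y0 : ℤ_[p]), Crv f t0 A0 →
  y0 ^ 2 = -(A0 : ℤ_[p]) → ∀ J' : ℕ, ∃ (m J e e' σ : ℕ) (As Bs : ℤ[X]) (ϖ : ℤ√(-(A0 : ℤ))),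
    PAc t0 A0 p J' m J e e' As Bs ϖ ∧ SS f t0 p m J σ As Bs ∧ ‖sv y0 ϖ‖ ≠ ‖sv (-y0) ϖ‖

/-- the cubic -/
noncomputable def cb {R : Type} [CommRing R] (a b c : R) : R[X] := X ^ 3 + C a * X ^ 2 + C b * X + C c

/-- the curve -/
def wc {R : Type} [CommRing R] (a b c : R) : Affine R := ⟨0, a, 0, b, c⟩

open Classical in
/-- multiples of a point come close to the origin -/
def RecS : Prop := ∀ (p : ℕ) [Fact p.Prime] (a b c : ℚ_[p]) (P : (wc a b c).Point) (R : ℝ),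
  ‖a‖ ≤ 1 → ‖b‖ ≤ 1 → ‖c‖ ≤ 1 → IsCoprime (cb a b c) (derivative (cb a b c)) →
  ∃ n : ℕ, 1 ≤ n ∧ (n • P = 0 ∨ ∃ x y h, n • P = Affine.Point.some x y h ∧ R ≤ ‖x‖)

open Classical in
/-- translation by a point close to the origin -/
def NearS : Prop := ∀ (p : ℕ) [Fact p.Prime] (a b y0 : ℚ_[p]) (h0 : (wc a b (y0 ^ 2)).Nonsingular 0 y0)
  (ε : ℝ), ‖a‖ ≤ 1 → ‖b‖ ≤ 1 → ‖y0‖ ≤ 1 → 0 < ε → ∃ R : ℝ, ∀ x y h, R ≤ ‖x‖ →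
  ∃ x' y' h', Affine.Point.some 0 y0 h0 + Affine.Point.some x y h = Affine.Point.some x' y' h' ∧
    ‖x'‖ ≤ ε ∧ ‖y' - y0‖ ≤ ε

open Classical in
/-- a function with a given divisor -/
def FunS : Prop := ∀ (K : Type) [Field K] [CharZero K] (a b c y0 x y : K) (n : ℕ)
  (h0 : (wc a b c).Nonsingular 0 y0) (h : (wc a b c).Nonsingular x y), y0 ≠ 0 → ¬(x = 0 ∧ y = -y0) →
  n • Affine.Point.some 0 y0 h0 + Affine.Point.some x y h = 0 →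
  ∃ (A B : K[X]) (κ : K), κ ≠ 0 ∧ A ^ 2 - cb a b c * B ^ 2 = C κ * (X ^ n * (X - C x)) ∧
    A.eval x + B.eval x * y = 0 ∧ A.eval 0 - B.eval 0 * y0 ≠ 0

/-- integrality -/
def IntS : Prop := ∀ (p : ℕ) [Fact p.Prime] (F M : ℤ_[p][X]) (A B : ℚ_[p][X]) (κ : ℚ_[p]) (m : ℕ),
  F.Monic → F.natDegree = 3 → M.Monic → M.natDegree = 2 * m → 2 ≤ m → κ ≠ 0 →
  A ^ 2 - F.map PadicInt.Coe.ringHom * B ^ 2 = C κ * M.map PadicInt.Coe.ringHom →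
  ∃ (A' B' : ℤ_[p][X]) (c : ℚ_[p]), c ≠ 0 ∧ A = C c * A'.map PadicInt.Coe.ringHom ∧
    B = C c * B'.map PadicInt.Coe.ringHom ∧ A'.Monic ∧ A'.natDegree = m ∧ B'.natDegree + 2 ≤ m ∧
    A' ^ 2 - F * B' ^ 2 = M

/-- the two branches -/
def KlzS : Prop := ∀ (p : ℕ) [Fact p.Prime] (α β q : ℤ_[p][X]) (κ r z : ℤ_[p]) (n : ℕ),
  q.eval 0 = 0 → (p : ℤ_[p]) ∣ r → (p : ℤ_[p]) ∣ z → z + z ^ 2 = p * q.eval r → κ ≠ 0 →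
  α * (α - β) - C (p : ℤ_[p]) * q * β ^ 2 = C κ * (X ^ n * (X - C r)) →
  α.eval r + β.eval r * z = 0 → α.eval 0 - β.eval 0 ≠ 0 →
  ∀ i < n, α.eval 0 - β.eval 0 ∣ (2 * α - β).coeff i

/-- the bound for the coefficients -/
def KlS : Prop := ∀ (p : ℕ) [Fact p.Prime] (a b y0 : ℤ_[p]), y0 ≠ 0 → ∃ (e : ℕ) (ε : ℝ), 0 < ε ∧
  ∀ (A B : ℤ_[p][X]) (x y : ℤ_[p]) (n : ℕ), ‖x‖ ≤ ε → ‖y - y0‖ ≤ ε →
  y ^ 2 = (cb a b (y0 ^ 2)).eval x → A ^ 2 - cb a b (y0 ^ 2) * B ^ 2 = X ^ n * (X - C x) →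
  A.eval x + B.eval x * y = 0 → A.eval 0 - B.eval 0 * y0 ≠ 0 →
  ∀ i < n, A.eval 0 - B.eval 0 * y0 ∣ 2 * A.coeff i * (p : ℤ_[p]) ^ (e * i)

/-- a monic function of order `m` with a single slope and given values at the two points -/
structure Sg {p : ℕ} [Fact p.Prime] (F : ℤ_[p][X]) (y0 : ℤ_[p]) (m σ : ℕ) (A B : ℤ_[p][X])
    (u v : ℤ_[p]) : Prop where
  monic : A.Monic
  deg : A.natDegree = m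
  degB : B.natDegree + 2 ≤ m
  slope : ∃ M : ℤ_[p][X], M.Monic ∧ IsUnit (M.coeff 0) ∧
    (A ^ 2 - F * B ^ 2).comp (C ((p : ℤ_[p]) ^ σ) * X) = C ((p : ℤ_[p]) ^ (2 * m * σ)) * M
  plus : A.eval 0 + B.eval 0 * y0 = u
  minus : A.eval 0 - B.eval 0 * y0 = v

/-- adding a constant -/
def SlS : Prop := ∀ (p : ℕ) [Fact p.Prime] (F A B : ℤ_[p][X]) (y0 x : ℤ_[p]) (m e : ℕ), 2 ≤ m →
  F.eval 0 = y0 ^ 2 → A.Monic → A.natDegree = m → B.natDegree + 2 ≤ m →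
  A ^ 2 - F * B ^ 2 = X ^ (2 * m - 1) * (X - C x) → (p : ℤ_[p]) ^ (e + 1) ∣ x →
  A.eval 0 - B.eval 0 * y0 ≠ 0 →
  (∀ i < 2 * m - 1, A.eval 0 - B.eval 0 * y0 ∣ 2 * A.coeff i * (p : ℤ_[p]) ^ (e * i)) →
  ∃ (A' : ℤ_[p][X]) (u v : ℤ_[p]), Sg F y0 m (e + 1) A' B u v ∧ ‖u‖ ≠ ‖v‖

/-- existence of one function -/
def OneS : Prop := ∀ (p : ℕ) [Fact p.Prime] (a b y0 : ℤ_[p]), y0 ≠ 0 →
  IsCoprime (cb (a : ℚ_[p]) b ((y0 : ℚ_[p]) ^ 2)) (derivative (cb (a : ℚ_[p]) b ((y0 : ℚ_[p]) ^ 2))) →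
  ∃ (m σ : ℕ) (A B : ℤ_[p][X]) (u v : ℤ_[p]), Sg (cb a b (y0 ^ 2)) y0 m σ A B u v ∧ ‖u‖ ≠ ‖v‖

/-- powers -/
def PwaS : Prop := ∀ (p : ℕ) [Fact p.Prime] (F A B : ℤ_[p][X]) (y0 u v : ℤ_[p]) (m σ k : ℕ),
  F.natDegree = 3 → F.eval 0 = y0 ^ 2 → Sg F y0 m σ A B u v → 1 ≤ k → u ≠ 0 ∧ v ≠ 0 ∧
  ∃ A' B' : ℤ_[p][X], Sg F y0 (m * k) σ A' B' (u ^ k) (v ^ k)

/-- a unit away from `p` which separates the two primes -/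
def SuS : Prop := ∀ (A p : ℕ) [Fact p.Prime] (y0 : ℤ_[p]), 1 < A → y0 ^ 2 = -(A : ℤ_[p]) →
  ∃ (π : ℤ√(-(A : ℤ))) (a : ℕ), π.norm = (p : ℤ) ^ a ∧ ‖sv y0 π‖ ≠ ‖sv (-y0) π‖

/-- choice of the exponents -/
def PwbS : Prop := ∀ (A p : ℕ) [Fact p.Prime] (y0 u v : ℤ_[p]) (π : ℤ√(-(A : ℤ))) (a J : ℕ),
  y0 ^ 2 = -(A : ℤ_[p]) → u ≠ 0 → v ≠ 0 → ‖u‖ ≠ ‖v‖ → π.norm = (p : ℤ) ^ a →
  ‖sv y0 π‖ ≠ ‖sv (-y0) π‖ → ∃ (k e e' : ℕ) (ϖ : ℤ√(-(A : ℤ))), 5 ≤ k ∧ ϖ.norm = (p : ℤ) ^ e' ∧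
    ‖sv y0 ϖ‖ ≠ ‖sv (-y0) ϖ‖ ∧ (p : ℤ_[p]) ^ (e + J) ∣ u ^ k * sv y0 ϖ - (p : ℤ_[p]) ^ e ∧
    (p : ℤ_[p]) ^ (e + J) ∣ v ^ k * sv (-y0) ϖ - (p : ℤ_[p]) ^ e

/-- approximation by integral polynomials -/
def PwcS : Prop := ∀ (p : ℕ) [Fact p.Prime] (f : ℤ[X]) (t0 : ℤ) (A B : ℤ_[p][X]) (y0 u v : ℤ_[p])
  (m σ J : ℕ), f.natDegree = 3 → 2 * m * σ < J →
  Sg ((f.comp (C t0 + X)).map (Int.castRingHom ℤ_[p])) y0 m σ A B u v →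
  ∃ As Bs : ℤ[X], Mon m As Bs ∧ SS f t0 p m J σ As Bs ∧ ∀ A' B' : ℤ[X],
    Cg ((p : ℤ) ^ J) A' As → Cg ((p : ℤ) ^ J) B' Bs →
    (p : ℤ_[p]) ^ J ∣ (A'.eval t0 : ℤ) + (B'.eval t0 : ℤ) * y0 - u ∧
    (p : ℤ_[p]) ^ J ∣ (A'.eval t0 : ℤ) - (B'.eval t0 : ℤ) * y0 - v

def OfKl : Prop := KlzS → KlS
def OfOne : Prop := RecS → NearS → FunS → IntS → KlS → SlS → OneS
def OfPa : Prop := OneS → PwaS → SuS → PwbS → PwcS → PaS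

end Pool.Agent.MP_f3836a_nt.VE.A7
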