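import Pool.Agent.MP_f3836a_nt.VE.DefsA
import Pool.Agent.MP_f3836a_nt.VE.SpecA7

/-! Part A: from the analytic core to the vanishing on rational fibres. -/

set_option autoImplicit false

namespace Pool.Agent.MP_f3836a_nt.VE.A

open Polynomial NumberField IsDedekindDomain

/-! ### real fibres -/

/-- a homomorphism on the units of a totally real cubic algebra -/
structure Cb (c : ℚ[X]) (μ : ℚ[X] → ℝ) (T0 : ℚ) (r : Fin 3 → ℝ) : Prop where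
  monic : c.Monic
  deg : c.natDegree = 3
  mono : StrictMono r
  root : ∀ i, aeval (r i) c = 0
  low : (T0 : ℝ) ≤ r 0
  mul : ∀ q q', IsCoprime c q → IsCoprime c q' → μ (q * q') = μ q + μ q'
  per : ∀ q q', c ∣ q - q' → μ q = μ q'
  con : ∀ a, a ≠ 0 → μ (C a) = 0
  lin : ∀ t < T0, μ (X - C t) = 0

def CopS : Prop := ∀ c μ T0 r, Cb c μ T0 r → ∀ q : ℚ[X],
  (IsCoprime c q ↔ ∀ i, aeval (r i) q ≠ 0) ∧
  ∀ (x : Fin 3 → ℝ) (ε : ℝ), 0 < ε → ∃ w : ℚ[X], ∀ i, |aeval (r i) w - x i| ≤ ε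

def NearS : Prop := ∀ c μ T0 r, Cb c μ T0 r → ∃ ε : ℝ, 0 < ε ∧ ∀ q : ℚ[X],
  (∀ i, |aeval (r i) q - 1| ≤ ε) → μ q = 0

def CubS : Prop := ∀ c μ T0 r, Cb c μ T0 r → ∀ q, IsCoprime c q → μ q = 0

/-- a line which cuts the curve in three real points -/
def RootS : Prop := ∀ (f : ℚ[X]) (t y : ℚ), f.Monic → f.natDegree = 3 → 0 < f.eval t →
  ∃ (s T0 : ℚ) (r : Fin 3 → ℝ), StrictMono r ∧
    (∀ i, aeval (r i) (f - (C y + C s * (X - C t)) ^ 2) = 0) ∧ (T0 : ℝ) ≤ r 0 ∧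
    ∀ t' < T0, f.eval t' < 0

def RealS : Prop := ∀ {R ι : Type} [CommRing R] [IsDomain R] [Algebra ℚ R] (x y : R) (f : ℚ[X])
  (S : Sy R ι), Model x y f → S.Ok → (∀ t : ℚ, f.eval t < 0 → S.Z (x - algebraMap ℚ R t)) →
  ∀ t : ℚ, S.Z (x - algebraMap ℚ R t)

/-- scaling -/
def ScalS : Prop := ∀ {R : Type} [CommRing R] [IsDomain R] [Algebra ℚ R] (x y : R) (f : ℚ[X])
  (t : ℚ), Model x y f → f.eval t < 0 → ∃ (b : ℚ) (F : ℤ[X]) (t0 : ℤ) (A0 : ℕ), b ≠ 0 ∧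
  Crv F t0 A0 ∧ (∀ s : ℝ, (t0 : ℝ) ≤ s → s ≤ t0 + 1 → aeval s F < -1) ∧ (t0 : ℚ) = b ^ 2 * t ∧
  Model (algebraMap ℚ R (b ^ 2) * x) (algebraMap ℚ R (b ^ 3) * y) (F.map (Int.castRingHom ℚ))

/-! ### one fibre -/

/-- a homomorphism on an order which kills the integers -/
structure Hom {A : ℕ} (l : ℤ√(-(A : ℤ)) → ℝ) : Prop where
  mul : ∀ β β', β ≠ 0 → β' ≠ 0 → l (β * β') = l β + l β'
  int : ∀ n : ℤ, n ≠ 0 → l n = 0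

/-- the function `A + B y` -/
noncomputable def gv {R : Type} [CommRing R] (x y : R) (A B : ℤ[X]) : R := aeval x A + aeval x B * y

/-- the pairing with the fibre `k² x - a` -/
noncomputable def lf {R ι : Type} [CommRing R] (S : Sy R ι) (x y : R) (a k : ℤ) (A : ℕ)
    (β : ℤ√(-(A : ℤ))) : ℝ := S.L ((k : R) ^ 2 * x - a) (β.re + β.im * (k : R) ^ 3 * y)

/-- the value of `A + B y` on the fibre -/
def bt (m : ℕ) (A1 B1 : ℤ[X]) (a k : ℤ) (A : ℕ) : ℤ√(-(A : ℤ)) :=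
  ⟨hv A1 m a (k ^ 2), k * hv B1 (m - 2) a (k ^ 2)⟩

def FibS : Prop := ∀ {R ι : Type} [CommRing R] [IsDomain R] [Algebra ℚ R] (x y : R) (f : ℤ[X])
  (S : Sy R ι) (a k : ℤ) (A : ℕ), Model x y (f.map (Int.castRingHom ℚ)) → S.Ok → 0 < k → 0 < A →
  (A : ℤ) = -hv f 3 a (k ^ 2) → Hom (lf S x y a k A) ∧
  (∀ m A1 B1, Mon m A1 B1 → bt m A1 B1 a k A ≠ 0 →
    S.L (gv x y A1 B1) ((k : R) ^ 2 * x - a) = lf S x y a k A (bt m A1 B1 a k A)) ∧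
  ((∀ β, β ≠ 0 → lf S x y a k A β = 0) → S.Z ((k : R) ^ 2 * x - a))

/-- arithmetic of the values -/
def EvS : Prop :=
  (∀ (f A1 B1 : ℤ[X]) (m : ℕ), f.natDegree = 3 → Mon m A1 B1 →
    (Ng f A1 B1).Monic ∧ (Ng f A1 B1).natDegree = 2 * m) ∧
  (∀ (P : ℤ[X]) (d : ℕ) (a k : ℤ), P.natDegree ≤ d → hv P d a 1 = P.eval a ∧
    (k ≠ 0 → (hv P d a (k ^ 2) : ℝ) = ((k : ℝ) ^ 2) ^ d * aeval ((a : ℝ) / (k : ℝ) ^ 2) P)) ∧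
  ∀ (f A1 B1 : ℤ[X]) (m : ℕ) (a k : ℤ) (A : ℕ), f.natDegree = 3 → Mon m A1 B1 → 0 < k →
    (A : ℤ) = -hv f 3 a (k ^ 2) →
    (bt m A1 B1 a k A).norm = hv (Ng f A1 B1) (2 * m) a (k ^ 2) ∧
    ∀ z, IsPt f z → On a (k ^ 2) z → ¬(z.p : ℤ) ∣ k →
      (z.p.Prime ∧ ¬z.p ∣ 2 * A ∧ (z.p : ℤ) ∣ (-k ^ 3 * z.y) ^ 2 + A) ∧
      (Zr A1 B1 z → In A (fun z => -k ^ 3 * z.y) (bt m A1 B1 a k A) z)

/-- values on products of split primes -/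
def HsS : Prop := ∀ (A : ℕ) (l : ℤ√(-(A : ℤ)) → ℝ), 1 < A → Hom l → ∃ ψ : ℕ → ℤ → ℝ,
  (∀ (p : ℕ) (s s' : ℤ), (p : ℤ) ∣ s + s' → ψ p s' = -ψ p s) ∧
  ∀ (ss : Pt → ℤ) (β : ℤ√(-(A : ℤ))) (M : Multiset Pt),
    (∀ z ∈ M, z.p.Prime ∧ ¬z.p ∣ 2 * A ∧ (z.p : ℤ) ∣ ss z ^ 2 + A) → EvF A ss β M →
    l β = (M.map fun z => ψ z.p (ss z)).sum

/-- elements with equal absolute values at conjugate primes -/
def EqvS : Prop := ∀ (A : ℕ) (β : ℤ√(-(A : ℤ))), 1 < A → β ≠ 0 →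
  (∀ (p : ℕ) [Fact p.Prime] (y0 : ℤ_[p]), y0 ^ 2 = -(A : ℤ_[p]) →
    ‖A7.sv y0 β‖ = ‖A7.sv (-y0) β‖) → β ^ 24 = ((β.norm ^ 12 : ℤ) : ℤ√(-(A : ℤ)))

def Hs0S : Prop := ∀ (A : ℕ) (l : ℤ√(-(A : ℤ)) → ℝ), 1 < A → Hom l →
  (∀ (p : ℕ) [Fact p.Prime] (y0 : ℤ_[p]), y0 ^ 2 = -(A : ℤ_[p]) → ∃ (π : ℤ√(-(A : ℤ))) (j : ℕ),
    π.norm = (p : ℤ) ^ j ∧ ‖A7.sv y0 π‖ ≠ ‖A7.sv (-y0) π‖ ∧ l π = 0) → ∀ β, β ≠ 0 → l β = 0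

/-! ### number fields -/

/-- the order at a prime -/
noncomputable def od {k : Type} [Field k] [NumberField k] (q : HeightOneSpectrum (𝓞 k)) (u : 𝓞 k) :
    ℝ := ((-WithZero.log (q.intValuation u) : ℤ) : ℝ)

/-- archimedean part of a homomorphism -/
def NfaS : Prop := ∀ (k : Type) [Field k] [NumberField k] (l : k → ℝ),
  (∀ u u', u ≠ 0 → u' ≠ 0 → l (u * u') = l u + l u') → ∃ c : InfinitePlace k → ℝ, ∑ w, c w = 0 ∧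
  ∀ u : (𝓞 k)ˣ, l ((u : 𝓞 k) : k) = ∑ w, c w * Real.log (w ((u : 𝓞 k) : k))

/-- finite part of a homomorphism -/
def NfbS : Prop := ∀ (k : Type) [Field k] [NumberField k] (l : 𝓞 k → ℝ),
  (∀ u u', u ≠ 0 → u' ≠ 0 → l (u * u') = l u + l u') → (∀ u : (𝓞 k)ˣ, l u = 0) →
  ∃ φ : HeightOneSpectrum (𝓞 k) → ℝ, ∀ u, u ≠ 0 → l u = ∑ᶠ q, φ q * od q u

open Classical in
/-- the part above `p` -/
noncomputable def Fp {k : Type} [Field k] [NumberField k] (φ : HeightOneSpectrum (𝓞 k) → ℝ) (p : ℕ)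
    (u : 𝓞 k) : ℝ := ∑ᶠ q, if (p : 𝓞 k) ∈ q.asIdeal then φ q * od q u else 0

/-- two pairs which define the same class modulo `p` -/
def Sim (N : ℤ[X]) (n p : ℕ) (a b a' b' : ℤ) : Prop :=
  p.Prime ∧ ¬(p : ℤ) ^ 2 ∣ hv N n a b ∧ ¬(p : ℤ) ^ 2 ∣ hv N n a' b' ∧ ¬(p : ℤ) ∣ b ∧ ¬(p : ℤ) ∣ b' ∧
    (p : ℤ) ∣ a * b' - a' * b

def GsaS : Prop := ∀ (k : Type) [Field k] [NumberField k] (φ : HeightOneSpectrum (𝓞 k) → ℝ)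
  (θ : 𝓞 k) (N : ℤ[X]) (n : ℕ), N.Monic → N.natDegree = n → aeval θ N = 0 →
  (∀ a b : ℤ, hv N n a b ≠ 0 → (b : 𝓞 k) * θ - a ≠ 0 ∧ ∑ᶠ q, φ q * od q ((b : 𝓞 k) * θ - a)
    = ∑ p ∈ (hv N n a b).natAbs.primeFactors, Fp φ p ((b : 𝓞 k) * θ - a)) ∧
  (∀ p a b a' b', Sim N n p a b a' b' →
    Fp φ p ((b : 𝓞 k) * θ - a) = Fp φ p ((b' : 𝓞 k) * θ - a')) ∧
  ∀ (t0 : ℤ) (p σ : ℕ), p.Prime → SS N t0 p n σ →
    Fp φ p (((1 : ℤ) : 𝓞 k) * θ - t0) = σ * ∑ᶠ q, φ q * od q p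

/-- decomposition of a function of pairs -/
structure Dec (N : ℤ[X]) (n : ℕ) (l : ℤ → ℤ → ℝ) (κ : ℕ → ℝ) (Φ : ℕ → ℤ → ℤ → ℝ) (c : ℂ → ℝ) :
    Prop where
  sum : ∑ θ ∈ rts N, c θ = 0
  val : ∀ a b : ℤ, 0 < b → hv N n a b ≠ 0 →
    l a b = ∑ p ∈ (hv N n a b).natAbs.primeFactors, Φ p a b + ug N c ((a : ℝ) / b)
  sim : ∀ p a b a' b', Sim N n p a b a' b' → Φ p a b = Φ p a' b'
  slo : ∀ (t0 : ℤ) (p σ : ℕ), p.Prime → SS N t0 p n σ → Φ p t0 1 = σ * κ p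

/-- one number field -/
def GskS : Prop := ∀ (k : Type) [Field k] [NumberField k] (l : k → ℝ) (θ : k) (N : ℤ[X]) (n : ℕ),
  (∀ u u', u ≠ 0 → u' ≠ 0 → l (u * u') = l u + l u') → N.Monic → N.natDegree = n →
  aeval θ N = 0 → ∃ Φ c, Dec N n (fun a b => l (b * θ - a)) (fun p => l p) Φ c

/-- one big curve -/
def GsS : Prop := ∀ {R ι : Type} [CommRing R] [IsDomain R] [Algebra ℚ R] (x y : R) (f : ℤ[X])
  (S : Sy R ι) (m : ℕ) (A B : ℤ[X]), Model x y (f.map (Int.castRingHom ℚ)) → S.Ok → Mon m A B →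
  ∃ Φ c, Dec (Ng f A B) (2 * m) (fun a b => S.L (gv x y A B) ((b : R) * x - a)) (fun _ => 0) Φ c

/-- the function on points -/
def PhiS : Prop := ∀ (N : ℤ[X]) (n : ℕ) (l : ℤ → ℤ → ℝ) (Φ : ℕ → ℤ → ℤ → ℝ) (c : ℂ → ℝ),
  Dec N n l (fun _ => 0) Φ c → ∃ φ : Pt → ℝ,
  (∀ (a b : ℤ) (T : Multiset Pt), 0 < b → Nd T → (∀ z ∈ T, z.p.Prime ∧ On a b z ∧ ¬(z.p : ℤ) ∣ b) →
    (nT T : ℤ) = hv N n a b → l a b = (T.map φ).sum + ug N c ((a : ℝ) / b)) ∧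
  ∀ (t0 : ℤ) (p0 σ e e' : ℕ) (T : Multiset Pt), p0.Prime → SS N t0 p0 n σ → Nd T →
    (∀ z ∈ T, z.p.Prime ∧ On t0 1 z ∧ z.p ≠ p0) →
    (nT T : ℤ) * (p0 : ℤ) ^ e = hv N n t0 1 * (p0 : ℤ) ^ e' → l t0 1 = (T.map φ).sum + ug N c t0

/-- the identities hold -/
def IdsS : Prop := ∀ {R ι : Type} [CommRing R] [IsDomain R] [Algebra ℚ R] (x y : R) (f : ℤ[X])
  (S : Sy R ι) (t0 : ℤ) (A0 p0 J' m J e e' σ : ℕ) (As Bs : ℤ[X]) (ϖ : ℤ√(-(A0 : ℤ))),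
  Model x y (f.map (Int.castRingHom ℚ)) → S.Ok → Crv f t0 A0 →
  (∀ s : ℝ, (t0 : ℝ) ≤ s → s ≤ t0 + 1 → aeval s f < -1) → p0.Prime →
  PAc t0 A0 p0 J' m J e e' As Bs ϖ → A7.SS f t0 p0 m J σ As Bs →
  ∃ ψ ψ0 φ c, Ids f t0 p0 m J e e' As Bs ψ ψ0 φ c (-lf S x y t0 1 A0 ϖ)

def OfNear : Prop := CopS → NearS
def OfCub : Prop := CopS → NearS → CubS
def OfReal : Prop := CubS → RootS → RealS
def OfHs0 : Prop := EqvS → Hs0S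
def OfGsk : Prop := NfaS → NfbS → GsaS → GskS
def OfGs : Prop := EvS → GskS → GsS
def OfIds : Prop := FibS → EvS → HsS → GsS → PhiS → IdsS
def OfFibres : Prop := Core → A7.PaS → RealS → ScalS → FibS → EvS → Hs0S → IdsS → Fibres

end Pool.Agent.MP_f3836a_nt.VE.A
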