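import Pool.Agent.MP_f3836a_nt.VE.SpecD

/-! Part B: finite Fourier analysis. -/

set_option autoImplicit false

namespace Pool.Agent.MP_f3836a_nt.VE.BC

open Finset Polynomial

/-- weighted sum over `j`-tuples -/
noncomputable def tm {ι : Type} [Fintype ι] (μ : ι → ℝ) (j : ℕ) (F : (Fin j → ι) → ℝ) : ℝ :=
  ∑ s : Fin j → ι, (∏ i, μ (s i)) * F s

/-- law of the sum of `j` independent steps -/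
noncomputable def law {ι Γ : Type} [Fintype ι] [AddCommMonoid Γ] (μ : ι → ℝ) (X : ι → Γ) (j : ℕ)
    (y : Γ) : ℝ := tm μ j fun s => ind (∑ i, X (s i) = y)

/-- weights of total mass at most one -/
def Sb {ι : Type} [Fintype ι] (μ : ι → ℝ) : Prop := (∀ i, 0 ≤ μ i) ∧ ∑ i, μ i ≤ 1

/-- weighted sum -/
noncomputable def ex {ι : Type} [Fintype ι] (μ : ι → ℝ) (f : ι → ℂ) : ℂ := ∑ i, (μ i : ℂ) * f i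

/-- `exp (2 π i x)` -/
noncomputable def ee (x : ℝ) : ℂ := Complex.exp (2 * Real.pi * x * Complex.I)

/-- the smoothed weights -/
noncomputable def sm {ι : Type} (μ : ι → ℝ) (J : ℕ) (p : ι × Fin J) : ℝ := μ p.1 / J

/-- the smoothed position -/
def su {ι : Type} (u : ι → ℕ) (J : ℕ) (p : ι × Fin J) : ℤ := (u p.1 : ℤ) + (p.2 : ℕ)

/-- the smoothed position with angle and class -/
def tri {ι G : Type} (u : ι → ℕ) (J N2 : ℕ) (th : ι → ℤ) (x : ι → G) (p : ι × Fin J) :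
    ℤ × ZMod N2 × G := (su u J p, (th p.1 : ZMod N2), x p.1)

theorem cv_eq {ι : Type} (St : Finset ι) (μ : ι → ℝ) (u : ι → ℕ) (J j : ℕ) (v : ℤ) :
    cv St μ u J j v = law (sm (fun x : St => μ x) J) (su (fun x : St => u x) J) j v := by
  unfold cv law tm ind sm su
  refine sum_congr rfl fun s _ => ?_
  congr 1
  push_cast
  congr

/-- decay of the Fourier transform at scale `U` -/
def Dec {ι : Type} [Fintype ι] (μ : ι → ℝ) (X : ι → ℤ) (U : ℕ) (c : ℝ) : Prop :=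
  ∀ α : ℝ, |α| ≤ 1 / 2 → ‖ex μ fun i => ee (α * X i)‖ ≤ 1 - c * min 1 ((α * U) ^ 2)

/-- a spread out probability on `[0, 2U)` -/
structure Nice {ι : Type} [Fintype ι] (μ : ι → ℝ) (X : ι → ℤ) (U k' : ℕ) (C c : ℝ) : Prop where
  pos : ∀ i, 0 ≤ μ i
  tot : ∑ i, μ i = 1
  rng : ∀ i, 0 ≤ X i ∧ X i < 2 * U
  sup : ∀ v, law μ X k' v ≤ C / U
  dec : Dec μ X U c

/-- the tent function -/
noncomputable def tent (z : ℂ) : ℝ := max 0 (1 - ‖z‖)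

/-- Riemann sums of the tent function -/
def RS (cτ Cτ : ℝ) : Prop := ∀ (d1 d2 x0 y0 : ℝ) (S : Finset (ℤ × ℤ)), 0 < d1 → d1 ≤ 1 → 0 < d2 →
  d2 ≤ 1 → (∀ p : ℤ × ℤ, ‖(⟨x0 + p.1 * d1, y0 + p.2 * d2⟩ : ℂ)‖ < 1 → p ∈ S) →
  |d1 * d2 * ∑ p ∈ S, tent ⟨x0 + p.1 * d1, y0 + p.2 * d2⟩ - cτ| ≤ Cτ * (d1 + d2)

/-- calculus of tuples -/
def TupS : Prop := ∀ (ι : Type) [Fintype ι] (μ : ι → ℝ),
  (∀ (j : ℕ) (f : ι → ℂ),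
    ∑ s : Fin j → ι, ((∏ i, μ (s i) : ℝ) : ℂ) * ∏ i, f (s i) = ex μ f ^ j) ∧
  (∀ (a b : ℕ) (F : (Fin (a + b) → ι) → ℝ),
    tm μ (a + b) F = tm μ a fun s => tm μ b fun t => F (Fin.append s t)) ∧
  (∀ (j : ℕ) (σ : Equiv.Perm (Fin j)) (F : (Fin j → ι) → ℝ), tm μ j (fun s => F (s ∘ σ)) = tm μ j F) ∧
  (∀ (j : ℕ) (c : ℝ), tm μ j (fun _ => c) = (∑ i, μ i) ^ j * c) ∧
  ((∀ i, 0 ≤ μ i) → ∀ (j : ℕ) (F F' : (Fin j → ι) → ℝ), (∀ s, F s ≤ F' s) → tm μ j F ≤ tm μ j F') ∧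
  ∀ (Γ : Type) [AddCommGroup Γ] (X : ι → Γ),
    (∀ (j : ℕ) (y : Γ), law μ X (j + 1) y = ∑ i, μ i * law μ X j (y - X i)) ∧
    (∀ (j : ℕ) (S : Finset Γ) (F : Γ → ℝ), (∀ s : Fin j → ι, F (∑ i, X (s i)) ≠ 0 → ∑ i, X (s i) ∈ S) →
      tm μ j (fun s => F (∑ i, X (s i))) = ∑ y ∈ S, law μ X j y * F y) ∧
    (Sb μ → ∀ (k j : ℕ) (D : ℝ), k ≤ j → (∀ y, law μ X k y ≤ D) → ∀ y, law μ X j y ≤ D)

/-- large means and powers -/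
def PowS : Prop := ∀ (ι : Type) [Fintype ι] (μ : ι → ℝ) (f : ι → ℂ) (d : ℝ), Sb μ →
  (∀ i, ‖f i‖ = 1) → 1 - d ≤ ‖ex μ f‖ →
  (∃ c : ℂ, ‖c‖ = 1 ∧ ∑ i, μ i * ‖f i - c‖ ^ 2 ≤ 2 * d ∧ ∑ i, μ i * ‖f i - c‖ ≤ √(2 * d)) ∧
  ∀ j : ℕ, 1 ≤ j → 1 - (j : ℝ) ^ 2 * d ≤ ‖ex μ fun i => f i ^ j‖

/-- few large characters, and they have small order -/
def BesS : Prop := ∀ (ι Γ : Type) [Fintype ι] [AddCommGroup Γ] [Finite Γ] (μ : ι → ℝ) (u : ι → ℤ)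
  (x : ι → Γ) (k R M : ℕ) (D : ℝ), Sb μ → 1 ≤ k → 1 ≤ R → (∀ i, 0 ≤ u i ∧ u i < R) →
  (∀ y, law μ (fun i => (u i, x i)) k y ≤ D) → 2 * k * R * Nat.card Γ * D ≤ M →
  (∀ (S : Finset (AddChar Γ ℂ)) (α : AddChar Γ ℂ → ℝ),
    (∀ ψ ∈ S, 1 - 1 / (4 * k : ℝ) ≤ ‖ex μ fun i => ee (α ψ * u i) * ψ (x i)‖) → S.card ≤ M) ∧
  ∀ (ψ : AddChar Γ ℂ) (α : ℝ),
    1 - 1 / (4 * k * (M + 1) ^ 2 : ℝ) ≤ ‖ex μ fun i => ee (α * u i) * ψ (x i)‖ →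
    ∃ j : ℕ, 1 ≤ j ∧ j ≤ M ∧ ∀ g, ψ g ^ j = 1

/-- smoothing damps the high frequencies -/
def SmS : Prop := ∀ (ι : Type) [Fintype ι] (μ : ι → ℝ) (u : ι → ℕ) (J : ℕ) (f : ι → ℂ) (α : ℝ),
  Sb μ → 1 ≤ J → Sb (sm μ J) ∧ ∑ p, sm μ J p = ∑ i, μ i ∧ (ex (sm μ J) fun p => f p.1) = ex μ f ∧
  ((∀ i, ‖f i‖ ≤ 1) → |α| ≤ 1 / 2 → α ≠ 0 →
    ‖ex (sm μ J) fun p => ee (α * su u J p) * f p.1‖ ≤ 1 / (2 * J * |α|))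

/-- anti-concentration -/
def AcS : Prop := ∀ (k' : ℕ) (C : ℝ), 1 ≤ k' → ∃ (J0 : ℕ) (c : ℝ), 0 < c ∧ c ≤ 1 ∧
  ∀ (ι : Type) [Fintype ι] (μ : ι → ℝ) (u : ι → ℕ) (U J : ℕ), J0 ≤ J → J ≤ U → Sb μ →
  (∀ i, u i < U) → (∀ v, law (sm μ J) (su u J) k' v ≤ C / U) → Dec (sm μ J) (su u J) U c

/-- classification of the large characters -/
def ClsS : Prop := ∀ (k' : ℕ) (C : ℝ), 1 ≤ k' → ∃ (J0 : ℕ) (c : ℝ), 0 < c ∧ c ≤ 1 ∧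
  ∀ (ι G : Type) [Fintype ι] [AddCommGroup G] [Finite G] (μ : ι → ℝ) (u : ι → ℕ) (th : ι → ℤ)
    (x : ι → G) (U J N2 : ℕ) (d : ℝ), J0 ≤ J → J ≤ U → N2.Prime → J0 ≤ N2 → Sb μ → (∀ i, u i < U) →
  (∀ y, law (sm μ J) (tri u J N2 th x) k' y ≤ C / (U * N2 * Nat.card G)) → 0 < d → d ≤ 1 →
  ∀ (α : ℝ) (ψ : AddChar (ZMod N2 × G) ℂ), |α| ≤ 1 / 2 →
    1 - c * d ^ 2 < ‖ex (sm μ J) fun p => ee (α * su u J p) * ψ ((th p.1 : ZMod N2), x p.1)‖ →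
    ∃ χ : AddChar G ℂ, (∀ t g, ψ (t, g) = χ g) ∧ 1 - d < ‖ex μ fun i => χ (x i)‖

/-- Fourier inversion with a tail bound -/
def InvS : Prop := ∀ (ι Γ : Type) [Fintype ι] [AddCommGroup Γ] [Finite Γ] (μ : ι → ℝ) (X : ι → Γ)
  (k j : ℕ) (D θ : ℝ) (S : Finset (AddChar Γ ℂ)), Sb μ → (∀ y, law μ X k y ≤ D) → 0 ≤ θ →
  (∀ ξ ∉ S, ‖ex μ fun i => ξ (X i)‖ ≤ θ) → 2 * k ≤ j → ∀ y,
  ‖(law μ X j y : ℂ) - (∑ ξ ∈ S, (ex μ fun i => ξ (X i)) ^ j * ξ (-y)) / Nat.card Γ‖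
    ≤ θ ^ (j - 2 * k) * D

/-- the local limit theorem -/
def LltS : Prop := ∀ (k' : ℕ) (C : ℝ), 1 ≤ k' → ∃ (J0 : ℕ) (c : ℝ), 0 < c ∧ c ≤ 1 ∧
  ∀ (ι G : Type) [Fintype ι] [AddCommGroup G] [Finite G] (μ : ι → ℝ) (u : ι → ℕ) (th : ι → ℤ)
    (x : ι → G) (U J N2 : ℕ) (d : ℝ), J0 ≤ J → J ≤ U → N2.Prime → J0 ≤ N2 → Sb μ → (∀ i, u i < U) →
  (∀ y, law (sm μ J) (tri u J N2 th x) k' y ≤ C / (U * N2 * Nat.card G)) → 0 < d → d ≤ 1 →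
  ∀ (B : Finset (AddChar G ℂ)) (cc : AddChar G ℂ → ℂ) (j : ℕ) (g : G),
    (∀ χ ∈ B, ∀ i, χ (x i) = cc χ) → (∀ χ ∉ B, ‖ex μ fun i => χ (x i)‖ ≤ 1 - d) → 2 * k' ≤ j →
    (∀ χ ∈ B, χ g = cc χ ^ j) → ∀ (v : ℤ) (t : ZMod N2),
    |law (sm μ J) (tri u J N2 th x) j (v, t, g)
      - B.card / (N2 * Nat.card G) * law (sm μ J) (su u J) j v|
      ≤ (1 - c * d ^ 2) ^ (j - 2 * k') * (C / (U * N2 * Nat.card G))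

/-- regularisation -/
def RegS : Prop := ∀ (ι G : Type) [Fintype ι] [AddCommGroup G] [Finite G] (μ : ι → ℝ) (x : ι → G)
  (σ : ι ≃ ι) (k M : ℕ) (D : ℝ) (d : ℕ → ℝ), (∀ i, 0 ≤ μ i) → ∑ i, μ i = 1 → (∀ i, μ (σ i) = μ i) →
  1 ≤ k → (∀ g, law μ x k g ≤ D) → 2 * k * Nat.card G * D ≤ M → Antitone d → (∀ i, 0 < d i) →
  d 0 ≤ 1 / (4 * k * (M + 1) ^ 2 : ℝ) →
  ∃ (i : ℕ) (B : Finset (AddChar G ℂ)) (cc : AddChar G ℂ → ℂ) (S : Finset ι), i ≤ M ∧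
    1 ≤ B.card ∧ B.card ≤ M ∧ (∀ χ ∈ B, ∀ g, χ g ^ M.factorial = 1) ∧
    (∀ s, s ∈ S ↔ ∀ χ ∈ B, χ (x s) = cc χ ∧ χ (x (σ s)) = cc χ) ∧
    1 - (M : ℝ) ^ 3 * d (i + 1) ≤ ∑ s ∈ S, μ s ∧ ∀ χ ∉ B, ‖ex μ fun s => χ (x s)‖ ≤ 1 - d i

def RsS : Prop := ∃ cτ Cτ : ℝ, 0 < cτ ∧ 0 ≤ Cτ ∧ RS cτ Cτ

/-- Lipschitz bound with the gain `1 / j` -/
def LipS : Prop := ∀ (k' : ℕ) (C c : ℝ), 1 ≤ k' → 0 < c → c ≤ 1 → ∃ C' : ℝ, 0 ≤ C' ∧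
  ∀ (ι : Type) [Fintype ι] (μ : ι → ℝ) (X : ι → ℤ) (U j : ℕ), 1 ≤ U → Nice μ X U k' C c →
  2 * k' ≤ j → ∀ v v' : ℤ, |U * law μ X j v - U * law μ X j v'|
    ≤ C' * (|(v : ℝ) - v'| / (j * U) + (1 - c) ^ (j - 2 * k'))

/-- a value of large probability near the mean -/
def ChebS : Prop := ∀ (ι : Type) [Fintype ι] (μ : ι → ℝ) (X : ι → ℤ) (U j : ℕ), 1 ≤ U → 1 ≤ j →
  (∀ i, 0 ≤ μ i) → ∑ i, μ i = 1 → (∀ i, 0 ≤ X i ∧ X i < 2 * U) →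
  ∃ v : ℤ, |(v : ℝ) - j * ∑ i, μ i * X i| ≤ 2 * √j * U ∧ 1 / (20 * √j) ≤ U * law μ X j v

/-- a lower bound on a window -/
def LowS : Prop := ∀ (k' : ℕ) (C c : ℝ), 1 ≤ k' → 0 < c → c ≤ 1 → ∃ (k1 : ℕ) (c' : ℝ), 0 < c' ∧
  ∀ (ι : Type) [Fintype ι] (μ : ι → ℝ) (X : ι → ℤ) (U j : ℕ), 1 ≤ U → Nice μ X U k' C c → k1 ≤ j →
  ∃ v : ℤ, |(v : ℝ) - j * ∑ i, μ i * X i| ≤ 2 * √j * U ∧ ∀ a : ℕ, a ≤ 2 → ∀ v' : ℤ,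
    |(v' : ℝ) - v| ≤ c' * √j * U → c' / √j ≤ U * law μ X (j - a) v'

/-- comparison of two laws -/
def CmpS : Prop := ∀ (k' : ℕ) (C c : ℝ), 1 ≤ k' → 0 < c → c ≤ 1 →
  ∀ (ι ι' : Type) [Fintype ι] [Fintype ι'] (μ : ι → ℝ) (X : ι → ℤ) (μ' : ι' → ℝ) (X' : ι' → ℤ)
    (U j : ℕ) (e : ℝ), 1 ≤ U → Nice μ X U k' C c → Nice μ' X' U k' C c → 2 * k' ≤ j →
  (∀ α : ℝ, |α| * U ≤ 1 → ‖(ex μ fun i => ee (α * X i)) - ex μ' fun i => ee (α * X' i)‖ ≤ e) →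
  ∀ v, |U * law μ X j v - U * law μ' X' j v| ≤ 3 * j * e + 2 * C * (1 - c) ^ (j - 2 * k')

/-- the uniform law is spread out -/
def UniS : Prop := ∃ c : ℝ, 0 < c ∧ c ≤ 1 ∧ ∀ U k' : ℕ, 2 ≤ U → 1 ≤ k' →
  Nice (sm (fun _ : range U => (1 : ℝ) / U) 1) (su (fun a : range U => id a.1) 1) U k' 1 c

open Classical in
/-- coarse equidistribution gives closeness at low frequency -/
def CoS : Prop := ∀ (ι : Type) [Fintype ι] (μ : ι → ℝ) (u : ι → ℕ) (U J K : ℕ) (e : ℝ), 1 ≤ J →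
  1 ≤ K → K ≤ U → (∀ i, 0 ≤ μ i) → ∑ i, μ i = 1 → (∀ i, u i < U) →
  ∑ a ∈ range K, |∑ i ∈ univ.filter fun i => K * u i / U = a, μ i - 1 / K| ≤ e →
  ∀ α : ℝ, |α| * U ≤ 1 → ‖(ex (sm μ J) fun p => ee (α * su u J p))
    - ex (sm (fun _ : range U => (1 : ℝ) / U) 1) fun p => ee (α * su (fun a : range U => id a.1) 1 p)‖
    ≤ e + 20 / K + 20 * (J + K) / U

/-- exports for the smoothed laws and for the model -/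
def BMain : Prop := ∀ (k' : ℕ) (C : ℝ), 1 ≤ k' → 1 ≤ C → ∃ (J0 k1 : ℕ) (c C' : ℝ), 0 < c ∧ c ≤ 1 ∧
  1 ≤ C' ∧ 1 ≤ J0 ∧ 2 * k' + 2 ≤ k1 ∧
  (∀ U j : ℕ, 2 ≤ U → 2 * k' ≤ j → (∀ v, 0 ≤ Fu U j v ∧ Fu U j v ≤ 1) ∧
    (∀ v v' : ℤ, |Fu U j v - Fu U j v'| ≤ C' * (|(v : ℝ) - v'| / (j * U) + (1 - c) ^ (j - 2 * k'))) ∧
    (∀ v v' : ℤ, |Fu U j v - Fu U j v'| ≤ |(v : ℝ) - v'| / U) ∧
    (k1 ≤ j → ∃ v : ℤ, |(v : ℝ) - j * (U - 1) / 2| ≤ 2 * √j * U ∧ ∀ a : ℕ, a ≤ 2 → ∀ v' : ℤ,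
      |(v' : ℝ) - v| ≤ c * √j * U → c / √j ≤ Fu U (j - a) v')) ∧
  ∀ (ι : Type) (St : Finset ι) (μ : ι → ℝ) (u : ι → ℕ) (U J j : ℕ), J0 ≤ J → J ≤ U → 2 ≤ U →
    (∀ x ∈ St, 0 ≤ μ x ∧ u x < U) → ∑ x ∈ St, μ x = 1 → (∀ v, cv St μ u J k' v ≤ C / U) →
    2 * k' ≤ j → (∀ v, 0 ≤ cv St μ u J j v ∧ U * cv St μ u J j v ≤ C) ∧
    (∀ v v' : ℤ, |U * cv St μ u J j v - U * cv St μ u J j v'|
      ≤ C' * (|(v : ℝ) - v'| / (j * U) + (1 - c) ^ (j - 2 * k'))) ∧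
    (k1 ≤ j → ∃ v : ℤ, |(v : ℝ) - j * ∑ x ∈ St, μ x * u x| ≤ 2 * √j * U + j * J ∧
      ∀ a : ℕ, a ≤ 2 → ∀ v' : ℤ, |(v' : ℝ) - v| ≤ c * √j * U → c / √j ≤ U * cv St μ u J (j - a) v') ∧
    ∀ (K : ℕ) (e : ℝ), 1 ≤ K → K ≤ U →
      ∑ a ∈ range K, |∑ x ∈ St.filter fun x => K * u x / U = a, μ x - 1 / K| ≤ e →
      ∀ v, |U * cv St μ u J j v - Fu U j v|
        ≤ 3 * j * (e + 20 / K + 20 * (J + K) / U) + 2 * C * (1 - c) ^ (j - 2 * k')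

/-! ### archimedean rigidity -/

/-- the archimedean function -/
noncomputable def va (N : ℤ[X]) (c : ℂ → ℝ) (s t : ℝ) : ℝ := ug N c t + s * Real.log (aeval t N)

/-- the logarithmic derivative -/
def ArDS : Prop := ∀ (N : ℤ[X]) (c : ℂ → ℝ) (s : ℝ), N.Monic → 0 < N.natDegree →
  ∃ P : ℝ[X], P.natDegree < N.natDegree ∧
    (∀ t : ℝ, 0 < aeval t N → HasDerivAt (va N c s) (P.eval t / aeval t N) t) ∧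
    (P = 0 → ∑ θ ∈ rts N, c θ = 0 → s = 0 ∧ ∀ t : ℝ, ug N c t = 0)

/-- a function whose derivative is comparable to a polynomial of bounded degree -/
def ArLS : Prop := ∀ (n : ℕ) (D : ℝ), ∃ (J0 : ℕ) (Λ : ℝ), 0 < Λ ∧
  ∀ (J : ℕ) (t0 S : ℝ) (V V' : ℝ → ℝ) (P : ℝ[X]), J0 ≤ J → P.natDegree < n →
  (∀ t ∈ Set.Icc t0 (t0 + 1), HasDerivAt V (V' t) t ∧ |P.eval t| ≤ 12 * |V' t|) →
  (∃ t ∈ Set.Icc t0 (t0 + 1), S ≤ |P.eval t|) → 0 ≤ S →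
  ∀ (m tc : Fin J → ℝ) (e : ℝ), (∀ a, 0 ≤ m a ∧ m a ≤ D / J) → ∑ a, m a = 1 →
  (∀ a : Fin J, t0 + (a : ℕ) / J ≤ tc a ∧ tc a ≤ t0 + ((a : ℕ) + 1) / J) →
  S ^ 2 ≤ Λ * ∑ a, m a * (V (tc a) - e) ^ 2

/-- archimedean rigidity -/
def ArS : Prop := ∀ (n : ℕ) (D : ℝ), ∃ (J0 : ℕ) (Λ : ℝ), 0 < Λ ∧
  ∀ (J : ℕ) (t0 H s : ℝ) (N : ℤ[X]) (c : ℂ → ℝ), J0 ≤ J → N.Monic → N.natDegree = n → 0 < n →
  0 < H → (∀ t ∈ Set.Icc t0 (t0 + 1), H ≤ aeval t N ∧ aeval t N ≤ 12 * H) →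
  ∑ θ ∈ rts N, c θ = 0 → ∃ S : ℝ, 0 ≤ S ∧
    (∀ t ∈ Set.Icc t0 (t0 + 1), ∀ t' ∈ Set.Icc t0 (t0 + 1),
      |va N c s t - va N c s t'| ≤ S * |t - t'|) ∧
    (∀ (m tc : Fin J → ℝ) (e : ℝ), (∀ a, 0 ≤ m a ∧ m a ≤ D / J) → ∑ a, m a = 1 →
      (∀ a : Fin J, t0 + (a : ℕ) / J ≤ tc a ∧ tc a ≤ t0 + ((a : ℕ) + 1) / J) →
      S ^ 2 ≤ Λ * ∑ a, m a * (va N c s (tc a) - e) ^ 2) ∧
    (S = 0 → s = 0 ∧ ∀ t : ℝ, ug N c t = 0)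

def OfBes : Prop := TupS → PowS → BesS
def OfAc : Prop := TupS → SmS → AcS
def OfCls : Prop := TupS → PowS → BesS → SmS → AcS → ClsS
def OfInv : Prop := TupS → InvS
def OfLlt : Prop := TupS → SmS → InvS → ClsS → LltS
def OfReg : Prop := PowS → BesS → RegS
def OfLip : Prop := TupS → InvS → LipS
def OfCheb : Prop := TupS → ChebS
def OfLow : Prop := TupS → LipS → ChebS → LowS
def OfCmp : Prop := TupS → InvS → CmpS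
def OfUni : Prop := TupS → UniS
def OfBMain : Prop := TupS → SmS → AcS → LipS → LowS → CmpS → UniS → CoS → BMain
def OfAr : Prop := ArDS → ArLS → ArS

end Pool.Agent.MP_f3836a_nt.VE.BC
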