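import Pool.Agent.MP_f3836a_nt.VE.Defs

/-! Part D: equidistribution in the big curve `g`. -/

set_option autoImplicit false

namespace Pool.Agent.MP_f3836a_nt.VE

open Polynomial Finset

/-- coordinates of `g` -/
abbrev Ix (m : ℕ) := Fin m ⊕ Fin (m - 1)

/-- the box of coordinates -/
noncomputable def box (m H H1 : ℕ) : Finset (Ix m → ℤ) := Fintype.piFinset fun i =>
  Sum.elim (fun i : Fin m => if (i : ℕ) = 0 then Ico (H : ℤ) (2 * H) else Ico (0 : ℤ) H1)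
    (fun _ => Ico (0 : ℤ) H1) i

/-- mean over the box -/
noncomputable def Eb (m H H1 : ℕ) (F : (Ix m → ℤ) → ℝ) : ℝ :=
  (∑ x ∈ box m H H1, F x) / (box m H H1).card

/-- the family of big curves -/
structure Gf where
  f : ℤ[X]
  p0 : ℕ
  m : ℕ
  W : ℕ
  W' : ℕ
  As : ℤ[X]
  Bs : ℤ[X]
  H : ℕ
  H1 : ℕ

namespace Gf

variable (Γ : Gf)

noncomputable def gA (x : Ix Γ.m → ℤ) : ℤ[X] :=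
  Γ.As + ∑ i : Fin Γ.m, monomial i ((Γ.W' : ℤ) * x (Sum.inl i))

noncomputable def gB (x : Ix Γ.m → ℤ) : ℤ[X] :=
  Γ.Bs + ∑ i : Fin (Γ.m - 1), monomial i ((Γ.W' : ℤ) * x (Sum.inr i))

/-- the point is a zero of `g` -/
def zr (x : Ix Γ.m → ℤ) (z : Pt) : Prop := Zr (Γ.gA x) (Γ.gB x) z

noncomputable def E (F : (Ix Γ.m → ℤ) → ℝ) : ℝ := Eb Γ.m Γ.H Γ.H1 F

structure Ok : Prop where
  monic : Γ.f.Monic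
  deg : Γ.f.natDegree = 3
  five : 5 ≤ Γ.m
  mon : Mon Γ.m Γ.As Γ.Bs
  p0W : Γ.p0.Prime ∧ Γ.p0 ∣ Γ.W
  pos : 0 < Γ.W ∧ 0 < Γ.W'
  rad : ∀ l : ℕ, l.Prime → l ∣ Γ.W' → l ∣ Γ.W
  two : 2 ∣ Γ.W ∧ 3 ∣ Γ.W
  side : 0 < Γ.H1 ∧ Γ.H1 ≤ Γ.H

end Gf

/-- a small curve `k² x - a` with its order, multiplier and denominator -/
structure Cu where
  a : ℤ
  k : ℤ
  A : ℕ
  ϖ : ℤ√(-(A : ℤ))
  e : ℕ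
  e' : ℕ

namespace Cu

variable (c : Cu) (Γ : Gf)

/-- the value of `g` on the curve -/
noncomputable def bet (x : Ix Γ.m → ℤ) : ℤ√(-(c.A : ℤ)) :=
  ⟨hv (Γ.gA x) Γ.m c.a (c.k ^ 2), c.k * hv (Γ.gB x) (Γ.m - 2) c.a (c.k ^ 2)⟩

/-- the normalised value -/
noncomputable def gam (x : Ix Γ.m → ℤ) : ℤ√(-(c.A : ℤ)) :=
  ⟨(c.bet Γ x * c.ϖ).re / (Γ.p0 : ℤ) ^ c.e, (c.bet Γ x * c.ϖ).im / (Γ.p0 : ℤ) ^ c.e⟩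

def ss (z : Pt) : ℤ := -c.k ^ 3 * z.y

def on (z : Pt) : Prop := On c.a (c.k ^ 2) z

/-- the resultant of two curves -/
def res (c' : Cu) : ℤ := c.a * c'.k ^ 2 - c'.a * c.k ^ 2

structure Ok : Prop where
  disc : (c.A : ℤ) = -hv Γ.f 3 c.a (c.k ^ 2)
  one : 1 < c.A
  kpos : 0 < c.k
  cop : IsCoprime c.a c.k
  rad : ∀ l : ℕ, l.Prime → (l : ℤ) ∣ c.k → l ∣ Γ.W
  nrm : c.ϖ.norm = (Γ.p0 : ℤ) ^ c.e'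
  exact : ∀ x, c.bet Γ x * c.ϖ = (Γ.p0 : ℤ√(-(c.A : ℤ))) ^ c.e * c.gam Γ x
  cong : ∀ x, (Γ.W : ℤ√(-(c.A : ℤ))) ∣ c.gam Γ x - 1

end Cu

/-- a valid point for the family -/
def Vp (Γ : Gf) (z : Pt) : Prop := IsPt Γ.f z ∧ ¬z.p ∣ Γ.W

/-- `1 / n_T` -/
noncomputable def PT (T : Multiset Pt) : ℝ := 1 / (nT T : ℝ)

open Classical in
/-- indicator of a proposition -/
noncomputable def ind (p : Prop) : ℝ := if p then 1 else 0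

/-- product of `1 + η` over ordered pairs of a list -/
noncomputable def pp {C : Type} (η : C → C → ℝ) : List C → ℝ
  | [] => 1
  | c :: l => (l.map fun c' => 1 + η c c').prod * pp η l

/-- D0: dictionary between `g` and its values -/
def ApiS : Prop := ∀ (Γ : Gf) (c : Cu), Γ.Ok → c.Ok Γ → ∀ x : Ix Γ.m → ℤ,
  Mon Γ.m (Γ.gA x) (Γ.gB x) ∧
  (c.bet Γ x).norm = hv (Ng Γ.f (Γ.gA x) (Γ.gB x)) (2 * Γ.m) c.a (c.k ^ 2) ∧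
  (c.gam Γ x).norm * (Γ.p0 : ℤ) ^ (2 * c.e) = (c.bet Γ x).norm * (Γ.p0 : ℤ) ^ c.e' ∧
  (∀ z, Vp Γ z → c.on z → (In c.A c.ss (c.gam Γ x) z ↔ Γ.zr x z)) ∧
  (∀ z, Vp Γ z → c.on z → (z.p : ℤ) ∣ c.ss z ^ 2 + c.A ∧ ¬z.p ∣ 2 * c.A) ∧
  (∀ y, c.bet Γ y = c.bet Γ x → c.gam Γ y = c.gam Γ x) ∧
  ∀ (c' : Cu) (l : ℕ), c'.Ok Γ → l.Prime → ¬l ∣ Γ.W → (l : ℤ) ∣ c.res c' →
    ((l : ℤ) ∣ (c.gam Γ x).norm ↔ (l : ℤ) ∣ (c'.gam Γ x).norm)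

/-- D1: averaging over short shifts -/
def ShiftS : Prop := ∀ (m H H1 : ℕ) (F : (Ix m → ℤ) → ℝ) (M s : ℝ) {ι : Type} (Vs : Finset ι)
  (ω : ι → ℝ) (σ : ι → Ix m → ℤ), 0 < H1 → H1 ≤ H → (∀ x, |F x| ≤ M) → (∀ v, 0 ≤ ω v) →
  ∑ v ∈ Vs, ω v = 1 → 0 ≤ s → (∀ v ∈ Vs, ∀ i, |(σ v i : ℝ)| ≤ s) →
  |Eb m H H1 F - Eb m H H1 fun x => ∑ v ∈ Vs, ω v * F (x + σ v)| ≤ 8 * m * M * s / H1

/-- all heights are at most `B` -/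
def Ht (B : ℝ) (c : Cu) (Γ : Gf) : Prop :=
  |(c.a : ℝ)| ≤ B ∧ (c.k : ℝ) ^ 2 ≤ B ∧ (c.A : ℝ) ≤ B ^ 4 ∧ (Γ.p0 : ℝ) ^ (c.e + c.e') ≤ B

/-- the modulus used to move the first curve -/
def modQ (Γ : Gf) (c : Cu) (l : List Cu) (n : ℕ) : ℕ :=
  Γ.W * Γ.W' * (c.k ^ 2).natAbs * Γ.p0 ^ c.e' * (l.map fun c' => (c.res c').natAbs).prod * n ^ 2

/-- D2: Lagrange shifts -/
def LagS : Prop := ∀ (Γ : Gf) (c : Cu) (l : List Cu) (n : ℕ) (B V : ℝ), Γ.Ok → c.Ok Γ →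
  l.length ≤ 2 → (∀ c' ∈ l, c'.Ok Γ ∧ Ht B c' Γ) → Ht B c Γ → 2 ≤ B → 0 ≤ V →
  ∀ v : ℤ√(-(c.A : ℤ)), |(v.re : ℝ)| ≤ V → |(v.im : ℝ)| ≤ V → ∃ σ : Ix Γ.m → ℤ,
    (∀ i, |(σ i : ℝ)| ≤ Γ.W * (n : ℝ) ^ 2 * V * (2 * B) ^ (Γ.m + 8)) ∧ ∀ x,
      c.gam Γ (x + σ) = c.gam Γ x + (modQ Γ c l n : ℤ√(-(c.A : ℤ))) * v ∧
      ∀ c' ∈ l, c'.bet Γ (x + σ) = c'.bet Γ x

/-- D3: removing a point which lies on no curve -/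
def MvPS : Prop := ∀ (Γ : Gf) (l : List Cu) (T : Multiset Pt) (z : Pt) (B M : ℝ)
  (Ξ : (Ix Γ.m → ℤ) → ℝ), Γ.Ok → l.length ≤ 3 → (∀ c ∈ l, c.Ok Γ ∧ Ht B c Γ ∧ ¬c.on z) → 2 ≤ B →
  Nd (z ::ₘ T) → (∀ z' ∈ z ::ₘ T, Vp Γ z') → (∀ x, |Ξ x| ≤ M) →
  (∀ x y, (∀ c ∈ l, c.bet Γ x = c.bet Γ y) → Ξ x = Ξ y) →
  |Γ.E (fun x => ind (∀ z' ∈ z ::ₘ T, Γ.zr x z') * Ξ x)
    - (1 / (z.p : ℝ)) * Γ.E fun x => ind (∀ z' ∈ T, Γ.zr x z') * Ξ x|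
    ≤ 8 * Γ.m * M * ((nT (z ::ₘ T) : ℝ) * (2 * B) ^ 3) / Γ.H1

/-- D4a: probability of containing a set with at most two points over each prime -/
def PcAS : Prop := ∀ (Γ : Gf) (T : Multiset Pt), Γ.Ok → T.Nodup → (∀ z ∈ T, Vp Γ z) →
  (∀ p, (T.map Pt.p).count p ≤ 2) →
  Γ.E (fun x => ind (∀ z ∈ T, Γ.zr x z)) ≤ PT T + 16 * Γ.m * T.card * (nT T : ℝ) ^ 2 / Γ.H1

/-- D4b: degenerate classes -/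
def PcBS : Prop := ∀ (Γ : Gf) (c : Cu) (T : Multiset Pt), Γ.Ok → c.Ok Γ → Nd T →
  (∀ z ∈ T, Vp Γ z) →
  (∀ l : ℕ, l.Prime → ¬l ∣ Γ.W → (∀ z ∈ T, z.p = l → ¬c.on z) →
    Γ.E (fun x => ind ((∀ z ∈ T, Γ.zr x z) ∧ (l : ℤ) ∣ (c.gam Γ x).norm))
      ≤ 2 / l * PT T + 64 * Γ.m * (T.card + 1) * ((nT T : ℝ) * l) ^ 2 / Γ.H1) ∧
  ∀ z0 ∈ T, c.on z0 →
    Γ.E (fun x => ind ((∀ z ∈ T, Γ.zr x z) ∧ (z0.p : ℤ) ^ 2 ∣ (c.gam Γ x).norm))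
      ≤ 2 / z0.p * PT T + 64 * Γ.m * (T.card + 1) * (nT T : ℝ) ^ 4 / Γ.H1

/-- the data of a family of small curves -/
structure Fam (C : Type) where
  cu : C → Cu
  St : C → Finset (Multiset Pt)
  w : C → Multiset Pt → ℝ
  ρ : C → ℝ
  LL : C → Finset ℕ
  ad : C → Multiset Pt → ℕ → Prop
  fm : C → Multiset Pt → ℕ → ℝ
  X : C → ℝ

namespace Fam

variable {C : Type} (Φ : Fam C) (Γ : Gf)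

/-- the normalised weight of decompositions -/
noncomputable def Y (h : C) (T : Multiset Pt) (j : ℕ) (x : Ix Γ.m → ℤ) : ℝ :=
  Rw (Φ.cu h).A (Φ.cu h).ss (Φ.St h) (Φ.w h) T j ((Φ.cu h).gam Γ x) / Φ.ρ h

open Classical in
/-- the correlation defect of an ordered pair -/
noncomputable def eta (K : ℝ) (h h' : C) : ℝ :=
  Real.exp (4 * sig Γ.W ((Φ.cu h).res (Φ.cu h'))) *
    (if ∃ l ∈ Φ.LL h, (l : ℤ) ∣ (Φ.cu h).res (Φ.cu h') then K else 1) - 1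

/-- hypotheses of the equidistribution theorem; `q0 ≤ p`, `n_T ≤ Pm`, `card T ≤ Tm` -/
structure Ok (B V Λ Λ0 Ym q0 Pm ε K : ℝ) (Tm : ℕ) : Prop where
  cu : ∀ h, (Φ.cu h).Ok Γ ∧ Ht B (Φ.cu h) Γ
  res : ∀ h h', h ≠ h' → (Φ.cu h).res (Φ.cu h') ≠ 0
  st : ∀ h, ∀ s ∈ Φ.St h, 0 ≤ Φ.w h s ∧ ∀ z ∈ s, q0 ≤ z.p
  rho : ∀ h, 0 < Φ.ρ h
  ll : ∀ h, ∀ l ∈ Φ.LL h, l.Prime ∧ ¬l ∣ Γ.W
  ad : ∀ h T j, Φ.ad h T j → (∀ z ∈ T, (Φ.cu h).on z ∧ z.p ∉ Φ.LL h) ∧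
    1 / Λ ≤ Φ.fm h T j ∧ Φ.fm h T j ≤ Λ ∧ ∀ x, Φ.Y Γ h T j x ≤ Ym
  sfe : ∀ h, SFE (Φ.cu h).A (Φ.cu h).ss Γ.W (Φ.St h) (Φ.w h) (Φ.ρ h) (Φ.LL h) (Φ.ad h) (Φ.fm h)
    (Φ.X h) Λ0 (Γ.W * Γ.W' * (2 * B) ^ 6 * Pm ^ 2) V ε K
  nr : ∀ h, ∀ x ∈ box Γ.m Γ.H Γ.H1, |Real.log ((Φ.cu h).gam Γ x).norm - Φ.X h| ≤ Λ0
  num : 2 ≤ B ∧ 0 ≤ V ∧ 1 ≤ Λ ∧ 1 ≤ Ym ∧ 5 ≤ q0 ∧ 1 ≤ Pm ∧ 0 < ε ∧ ε ≤ 1 / 100 ∧ 2 ≤ K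
  deg : 100 * (Tm + 1) * Real.log (2 * B) * (Ym * Λ) ^ 3 ≤ ε * q0
  bdy : 1000 * Γ.m * (Tm + 1) ^ 2 * (Ym * Λ) ^ 3 * Γ.W * (V + 1) * Pm ^ 5 * (2 * B) ^ (Γ.m + 12)
    ≤ ε * Γ.H1
  stp : ∀ h, ∀ s ∈ Φ.St h, ∀ z ∈ s, z.p.Prime

/-- an allowed configuration -/
structure Cf (q0 Pm : ℝ) (Tm : ℕ) (l : List (C × Multiset Pt × ℕ)) (T : Multiset Pt) : Prop where
  len : l.length ≤ 3
  nodup : (l.map Prod.fst).Nodup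
  nd : Nd T
  card : T.card ≤ Tm
  size : (nT T : ℝ) ≤ Pm
  pt : ∀ z ∈ T, Vp Γ z ∧ q0 ≤ z.p
  ad : ∀ a ∈ l, Φ.ad a.1 a.2.1 a.2.2 ∧ a.2.1 ≤ T ∧ ∀ z ∈ T, z ∈ a.2.1 ∨ ¬(Φ.cu a.1).on z

/-- the mean of a configuration -/
noncomputable def EY (l : List (C × Multiset Pt × ℕ)) (T : Multiset Pt) : ℝ :=
  Γ.E fun x => ind (∀ z ∈ T, Γ.zr x z) * (l.map fun a => Φ.Y Γ a.1 a.2.1 a.2.2 x).prod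

/-- the model value -/
noncomputable def MY (l : List (C × Multiset Pt × ℕ)) (T : Multiset Pt) : ℝ :=
  PT T * (l.map fun a => Φ.fm a.1 a.2.1 a.2.2).prod

/-- the degenerate classes for the first curve -/
def Bad (q0 : ℝ) (a : C × Multiset Pt × ℕ) (l : List (C × Multiset Pt × ℕ)) (T : Multiset Pt)
    (x : Ix Γ.m → ℤ) : Prop :=
  (∀ z ∈ T, Γ.zr x z) ∧ ((∃ z ∈ a.2.1, (z.p : ℤ) ^ 2 ∣ ((Φ.cu a.1).gam Γ x).norm) ∨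
    ∃ b ∈ l, ∃ q : ℕ, q.Prime ∧ q0 ≤ q ∧ ¬q ∣ Γ.W ∧ (q : ℤ) ∣ (Φ.cu a.1).res (Φ.cu b.1) ∧
      (∀ z ∈ a.2.1, z.p ≠ q) ∧ (q : ℤ) ∣ ((Φ.cu a.1).gam Γ x).norm)

end Fam

/-- bounds for the unit correction -/
def RatS : Prop := ∀ (A W Q : ℕ), 2 ∣ W → 3 ∣ W → 1 ≤ rat A W Q ∧ rat A W Q ≤ Real.exp (4 * sig W Q)

/-- D5a: the degenerate classes are rare -/
def BadS : Prop := ∀ {C : Type} (Φ : Fam C) (Γ : Gf) (B V Λ Λ0 Ym q0 Pm ε K : ℝ) (Tm : ℕ)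
  (a : C × Multiset Pt × ℕ) (l : List (C × Multiset Pt × ℕ)) (T : Multiset Pt), Γ.Ok →
  Φ.Ok Γ B V Λ Λ0 Ym q0 Pm ε K Tm → Φ.Cf Γ q0 Pm Tm (a :: l) T →
  Γ.E (fun x => ind (Φ.Bad Γ q0 a l T x)) * (Ym * Λ) ^ 3 ≤ ε / 2 * PT T

/-- D5: removing the first curve when every point lies on one of the curves -/
def MvCS : Prop := ∀ {C : Type} (Φ : Fam C) (Γ : Gf) (B V Λ Λ0 Ym q0 Pm ε K : ℝ) (Tm : ℕ)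
  (a : C × Multiset Pt × ℕ) (l : List (C × Multiset Pt × ℕ)) (T : Multiset Pt), Γ.Ok →
  Φ.Ok Γ B V Λ Λ0 Ym q0 Pm ε K Tm → Φ.Cf Γ q0 Pm Tm (a :: l) T →
  (∀ z ∈ T, ∃ b ∈ a :: l, z ∈ b.2.1) →
  Φ.EY Γ (a :: l) T ≤ (1 + ε) ^ 2 * (l.map fun b => 1 + Φ.eta Γ K a.1 b.1).prod
      * (Φ.fm a.1 a.2.1 a.2.2 * Φ.EY Γ l T) + ε * Φ.MY (a :: l) T ∧
  ((∀ b ∈ l, ∀ q ∈ Φ.LL a.1, ¬(q : ℤ) ∣ (Φ.cu a.1).res (Φ.cu b.1)) →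
    (1 - ε) * (Φ.fm a.1 a.2.1 a.2.2 * Φ.EY Γ l T) - ε * Φ.MY (a :: l) T ≤ Φ.EY Γ (a :: l) T)

/-- D6: equidistribution -/
def EqS : Prop := ∀ {C : Type} (Φ : Fam C) (Γ : Gf) (B V Λ Λ0 Ym q0 Pm ε K : ℝ) (Tm : ℕ)
  (l : List (C × Multiset Pt × ℕ)) (T : Multiset Pt), Γ.Ok →
  Φ.Ok Γ B V Λ Λ0 Ym q0 Pm ε K Tm → Φ.Cf Γ q0 Pm Tm l T →
  |Φ.EY Γ l T - Φ.MY l T|
    ≤ ((1 + ε) ^ 20 * pp (Φ.eta Γ K) (l.map Prod.fst) - 1) * Φ.MY l T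

def OfLag : Prop := ApiS → LagS
def OfMvP : Prop := ShiftS → MvPS
def OfPcA : Prop := ShiftS → PcAS
def OfPcB : Prop := ApiS → ShiftS → PcAS → PcBS
def OfBad : Prop := PcBS → BadS
def OfMvC : Prop := ApiS → ShiftS → LagS → BadS → RatS → MvCS
def OfEq : Prop := ApiS → MvPS → MvCS → EqS

end Pool.Agent.MP_f3836a_nt.VE
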