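import Pool.Agent.MP_f3836a_nt.VE.DefsE

/-! Part E: elementary facts on the concrete family. -/

set_option autoImplicit false

namespace Pool.Agent.MP_f3836a_nt.VE

open Polynomial Finset

/-- change the sides of the box -/
def Gf.sz (Γ : Gf) (H H1 : ℕ) : Gf := { Γ with H := H, H1 := H1 }

/-- elementary properties of points -/
def PtS : Prop := ∀ (f : ℤ[X]) (z : Pt), IsPt f z →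
  IsPt f z.cj ∧ z.cj.cj = z ∧ z.cj ≠ z ∧ (∀ a b, On a b z.cj ↔ On a b z) ∧
  (∀ k : ℤ, (z.p : ℤ) ∣ -k ^ 3 * z.cj.y + -k ^ 3 * z.y) ∧
  ∀ (a b : ℤ) (z' : Pt), IsPt f z' → z'.p = z.p → ¬(z.p : ℤ) ∣ b → On a b z → On a b z' →
    z' = z ∨ z' = z.cj

/-- the small curves are admissible -/
def CuHS : Prop := ∀ (Γ : Gf) (t0 : ℤ) (A0 k : ℕ) (a : ℤ), Crv Γ.f t0 A0 → Γ.Ok → Γ.W ∣ k →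
  0 < k → (∀ l : ℕ, l.Prime → l ∣ k → l ∣ Γ.W) → a ∈ HH0 t0 Γ.W k → (cuH Γ.f k a).Ok Γ

/-- heights of the small curves -/
def HtS : Prop := ∀ (f : ℤ[X]) (t0 : ℤ) (A0 : ℕ), Crv f t0 A0 → ∃ Cf : ℝ, 1 ≤ Cf ∧
  ∀ (W k : ℕ) (a : ℤ), 0 < k → a ∈ HH0 t0 W k → |(a : ℝ)| ≤ Cf * (k : ℝ) ^ 2 ∧
    (AA f k a : ℝ) ≤ Cf * (k : ℝ) ^ 6 ∧ (k : ℝ) ^ 6 ≤ Cf * AA f k a

/-- the base point of the family of big curves -/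
def BaseS : Prop := ∀ (f : ℤ[X]) (t0 : ℤ) (A0 p0 J' m J e e' : ℕ) (As Bs : ℤ[X])
  (ϖ : ℤ√(-(A0 : ℤ))) (W : ℕ), Crv f t0 A0 → p0.Prime → PAc t0 A0 p0 J' m J e e' As Bs ϖ →
  0 < W → p0 ∣ W → 6 ∣ W → ¬p0 ^ (J' + 1) ∣ W → ∃ A' B' : ℤ[X],
    Cg ((p0 : ℤ) ^ J) A' As ∧ Cg ((p0 : ℤ) ^ J) B' Bs ∧ ∀ H H1 : ℕ, 0 < H1 → H1 ≤ H →
      (⟨f, p0, m, W, p0 ^ J * W, A', B', H, H1⟩ : Gf).Ok ∧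
      (cu0 t0 A0 ϖ e e').Ok ⟨f, p0, m, W, p0 ^ J * W, A', B', H, H1⟩

/-- the norm polynomial is almost constant on the interval -/
def NgR (Γ : Gf) (t0 : ℤ) : Prop := ∀ x ∈ box Γ.m Γ.H Γ.H1, ∀ t : ℝ, (t0 : ℝ) ≤ t → t ≤ t0 + 1 →
  ((Γ.W' : ℝ) * Γ.H) ^ 2 / 2 ≤ aeval t (Ng Γ.f (Γ.gA x) (Γ.gB x)) ∧
  aeval t (Ng Γ.f (Γ.gA x) (Γ.gB x)) ≤ 6 * ((Γ.W' : ℝ) * Γ.H) ^ 2

def NgS : Prop := ∀ (Γ : Gf) (t0 : ℤ) (A0 : ℕ), Crv Γ.f t0 A0 → ∃ Cn : ℝ, ∀ H H1 : ℕ,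
  (Γ.sz H H1).Ok → Cn * H1 ≤ H → NgR (Γ.sz H H1) t0

/-- the centre of the logarithm of the norm -/
noncomputable def Xc (Γ : Gf) (c : Cu) : ℝ :=
  2 * Γ.m * Real.log ((c.k : ℝ) ^ 2) + 2 * Real.log ((Γ.W' : ℝ) * Γ.H)
    + ((c.e' : ℝ) - 2 * c.e) * Real.log Γ.p0

def NrS : Prop := ∀ (Γ : Gf) (t0 : ℤ) (c : Cu), Γ.Ok → c.Ok Γ → NgR Γ t0 →
  t0 * c.k ^ 2 ≤ c.a → c.a ≤ (t0 + 1) * c.k ^ 2 → ∀ x ∈ box Γ.m Γ.H Γ.H1,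
    0 < (c.gam Γ x).norm ∧ |Real.log (c.gam Γ x).norm - Xc Γ c| ≤ 2 ∧
    Real.log (c.gam Γ x).norm = 2 * Γ.m * Real.log ((c.k : ℝ) ^ 2)
      + Real.log (aeval ((c.a : ℝ) / (c.k : ℝ) ^ 2) (Ng Γ.f (Γ.gA x) (Γ.gB x)))
      + ((c.e' : ℝ) - 2 * c.e) * Real.log Γ.p0

/-- the identities hold on events -/
def IdS : Prop := ∀ (Γ : Gf) (t0 : ℤ) (A0 J e e' k : ℕ) (As Bs : ℤ[X]) (ϖ : ℤ√(-(A0 : ℤ)))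
  (ψ : ℤ → ℤ → Pt → ℝ) (ψ0 : Pt → ℝ) (φ : ℤ[X] → ℤ[X] → Pt → ℝ) (c : ℤ[X] → ℤ[X] → ℂ → ℝ) (c0 : ℝ),
  Γ.Ok → Ids Γ.f t0 Γ.p0 Γ.m J e e' As Bs ψ ψ0 φ c c0 → Cg ((Γ.p0 : ℤ) ^ J) Γ.As As →
  Cg ((Γ.p0 : ℤ) ^ J) Γ.Bs Bs → Γ.p0 ^ J ∣ Γ.W' → ∀ (x : Ix Γ.m → ℤ) (M : Multiset Pt),
  (∀ z ∈ M, Vp Γ z) →
  (∀ a ∈ HH0 t0 Γ.W k, (cuH Γ.f k a).Ok Γ → (∀ z ∈ M, (cuH Γ.f k a).on z) →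
    EvF (cuH Γ.f k a).A (cuH Γ.f k a).ss ((cuH Γ.f k a).gam Γ x) M →
    (M.map (ψ a k)).sum = (M.map (φ (Γ.gA x) (Γ.gB x))).sum
      + ug (Ng Γ.f (Γ.gA x) (Γ.gB x)) (c (Γ.gA x) (Γ.gB x)) ((a : ℝ) / (k : ℝ) ^ 2)) ∧
  ((cu0 t0 A0 ϖ e e').Ok Γ → (∀ z ∈ M, (cu0 t0 A0 ϖ e e').on z) →
    EvF A0 (cu0 t0 A0 ϖ e e').ss ((cu0 t0 A0 ϖ e e').gam Γ x) M →
    c0 + (M.map ψ0).sum = (M.map (φ (Γ.gA x) (Γ.gB x))).sum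
      + ug (Ng Γ.f (Γ.gA x) (Γ.gB x)) (c (Γ.gA x) (Γ.gB x)) t0)

/-- zeros of `g` over one prime -/
def ZerS : Prop := ∀ (f A B : ℤ[X]) (m p : ℕ) (S : Finset Pt), f.natDegree = 3 → 2 ≤ m →
  Mon m A B → (∀ z ∈ S, IsPt f z ∧ z.p = p ∧ Zr A B z) → S.card ≤ 4 * m

/-- upper bounds for the uniform model -/
def FuUS : Prop := ∀ (U j : ℕ) (v v' : ℤ), 0 < U →
  0 ≤ Fu U j v ∧ (1 ≤ j → Fu U j v ≤ 1) ∧ (2 ≤ j → |Fu U j v - Fu U j v'| ≤ |(v : ℝ) - v'| / U) ∧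
  Fu U (j + 1) v = (∑ u ∈ range U, Fu U j (v - u)) / U

/-- lower bound for the uniform model near the centre -/
def FuLS : Prop := ∀ (U j : ℕ) (R : ℝ) (v : ℤ), 0 < U → 2 ∣ U → j ≤ U → 0 ≤ R →
  400 * (R + 1) ^ 2 ≤ j → |(v : ℝ) - j * U / 2| ≤ R * U → 1 / (10 * Real.sqrt j) ≤ Fu U j v

def OfNr : Prop := ApiS → NrS
def OfId : Prop := ApiS → IdS
def OfFuL : Prop := FuUS → FuLS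

end Pool.Agent.MP_f3836a_nt.VE
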