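import Pool.Agent.MP_f3836a_nt.VE.SpecE0

/-! Part E: counting and distribution in the concrete family. -/

set_option autoImplicit false

namespace Pool.Agent.MP_f3836a_nt.VE

open Polynomial Finset

/-- the scale of the family -/
structure Sc (W k : ℕ) (Y : ℝ) : Prop where
  two : 2 ≤ W
  dvd : W ∣ k
  rad : ∀ l : ℕ, l.Prime → l ∣ k → l ∣ W
  pow : Y ^ 10 = k
  big : (W : ℝ) < Y

/-- the number of small curves -/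
noncomputable def Lc (W k : ℕ) : ℝ := (k : ℝ) ^ 2 / W

/-- the weight of a point on a curve -/
noncomputable def n0 (Y : ℝ) (z : Pt) : ℝ := lg z / (z.p * Real.log Y)

/-- the weight of a point -/
noncomputable def sg (Y : ℝ) (z : Pt) : ℝ := n0 Y z / z.p

/-- the coarse cell of a point of the main window -/
noncomputable def cz (Y : ℝ) (U K' : ℕ) (z : Pt) : ℕ :=
  K' * pos (Real.log Y) (Real.log Y / U) z.p / U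

/-- the centred indicator of a class -/
noncomputable def Xz (b : ℤ) (z : Pt) (a : ℤ) : ℝ := z.p * ind (On a b z) - 1

/-- product of weights -/
noncomputable def pw (g : Pt → ℝ) (T : Multiset Pt) : ℝ := (T.map g).prod

open Classical in
/-- one plus the correlation defect -/
noncomputable def et1 (W : ℕ) (LL : Finset ℕ) (K : ℝ) (r : ℤ) : ℝ :=
  Real.exp (4 * sig W r) * (if ∃ l ∈ LL, (l : ℤ) ∣ r then K else 1)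

theorem eta_eq {C : Type} (Φ : Fam C) (Γ : Gf) (K : ℝ) (h h' : C) :
    1 + Φ.eta Γ K h h' = et1 Γ.W (Φ.LL h) K ((Φ.cu h).res (Φ.cu h')) := by
  unfold Fam.eta et1
  ring

theorem pw_PT (T : Multiset Pt) : pw (fun z => 1 / (z.p : ℝ)) T = PT T := by
  unfold pw PT nT
  induction T using Multiset.induction_on with
  | empty => simp
  | cons z T ih =>
    simp only [Multiset.map_cons, Multiset.prod_cons, ih, Nat.cast_mul]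
    rw [one_div_mul_one_div]

theorem pw_bw (Z : ℝ) (T : Multiset Pt) : pw (fun z => lg z / Z / z.p) T = bw Z T * PT T := by
  rw [← pw_PT]
  unfold pw bw
  rw [← Multiset.prod_map_mul]
  congr 2
  ext z
  ring

/-! ### counting -/

/-- residue classes and links -/
def CntS : Prop :=
  (∀ (t0 : ℤ) (W k : ℕ), 0 < W → W ∣ k → ((HH0 t0 W k).card : ℝ) = Lc W k ∧
    ∀ (q : ℕ) (r : ℤ), 0 < q → q.Coprime W →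
      |(((HH0 t0 W k).filter fun a => (q : ℤ) ∣ a - r).card : ℝ) - Lc W k / q| ≤ 1) ∧
  (∀ (q q' : ℕ) (r r' : ℤ), q.Coprime q' → ∃ s : ℤ, ∀ a : ℤ,
    ((q : ℤ) ∣ a - r ∧ (q' : ℤ) ∣ a - r') ↔ ((q * q' : ℕ) : ℤ) ∣ a - s) ∧
  (∀ (b : ℤ) (T : Multiset Pt), Nd T → (∀ z ∈ T, z.p.Prime) → ∃ r : ℤ, ∀ a : ℤ,
    (∀ z ∈ T, On a b z) ↔ (nT T : ℤ) ∣ a - r) ∧
  ∀ (t0 b : ℤ) (W k : ℕ) (T : Multiset Pt), 0 < W → W ∣ k → Nd T →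
    (∀ z ∈ T, z.p.Prime ∧ ¬z.p ∣ W) → |((lk (HH0 t0 W k) b T).card : ℝ) - Lc W k * PT T| ≤ 1

/-- numerical consequences of the scale -/
def ScS : Prop := ∀ (W k : ℕ) (Y : ℝ), Sc W k Y → 2 < Y ∧ 0 < k ∧ Y ^ 19 ≤ Lc W k ∧
  Lc W k ≤ Y ^ 20 ∧ (k : ℝ) ^ 2 = Y ^ 20 ∧
  (∀ p : ℕ, p.Prime → Y ≤ p → ¬p ∣ W ∧ ¬(p : ℤ) ∣ (k : ℤ) ^ 2 ∧ p.Coprime W) ∧
  (∀ p : ℕ, p.Prime → ¬p ∣ W → ¬(p : ℤ) ∣ (k : ℤ) ^ 2) ∧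
  (∀ (t0 a : ℤ), a ∈ HH0 t0 W k → t0 * (k : ℤ) ^ 2 < a ∧ a < (t0 + 1) * (k : ℤ) ^ 2) ∧
  (∀ (f : ℤ[X]) (z : Pt), z ∈ Pts f Y (Y ^ 2) → 0 < n0 Y z ∧ 1 / (z.p : ℝ) ≤ n0 Y z ∧
    n0 Y z ≤ 2 / z.p ∧ 0 < sg Y z ∧ sg Y z ≤ 2 / (z.p : ℝ) ^ 2) ∧
  ∀ T : Multiset Pt, (∀ z ∈ T, z.p.Prime) → (nT T : ℝ) ≤ Y ^ 16 → Y ^ 3 ≤ Lc W k * PT T

/-- sizes of links -/
def LkS : Prop := ∀ (t0 b : ℤ) (W k : ℕ) (Y : ℝ) (T : Multiset Pt), Sc W k Y → Nd T →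
  (∀ z ∈ T, z.p.Prime ∧ ¬z.p ∣ W) → (nT T : ℝ) ≤ Y ^ 16 →
  Lc W k * PT T / 2 ≤ (lk (HH0 t0 W k) b T).card ∧
    ((lk (HH0 t0 W k) b T).card : ℝ) ≤ 2 * (Lc W k * PT T)

/-- cells of small curves -/
def CelS : Prop := ∀ (t0 : ℤ) (W k Jc : ℕ), 0 < W → W ∣ k → 0 < Jc →
  (∀ c : ℕ, (((HH0 t0 W k).filter fun a => cellOf t0 k Jc a = c).card : ℝ) ≤ Lc W k / Jc + 1) ∧
  ∀ a ∈ HH0 t0 W k, cellOf t0 k Jc a < Jc ∧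
    (t0 : ℝ) + (cellOf t0 k Jc a : ℝ) / Jc ≤ (a : ℝ) / (k : ℝ) ^ 2 ∧
    (a : ℝ) / (k : ℝ) ^ 2 ≤ t0 + ((cellOf t0 k Jc a : ℝ) + 1) / Jc

/-- points over one prime -/
def PcS : Prop := ∀ (f : ℤ[X]) (S : Finset Pt), (∀ z ∈ S, IsPt f z) →
  (∀ p : ℕ, (S.filter fun z => z.p = p).card ≤ 2 * p) ∧
  (∀ p t : ℕ, (S.filter fun z => z.p = p ∧ z.t = t).card ≤ 2) ∧
  ∀ a b : ℤ, (∀ z ∈ S, On a b z ∧ ¬(z.p : ℤ) ∣ b) →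
    (∀ p : ℕ, (S.filter fun z => z.p = p).card ≤ 2) ∧
    (∀ q0 : ℝ, 0 < q0 → (∀ z ∈ S, q0 ≤ z.p) → ∑ z ∈ S, 1 / (z.p : ℝ) ^ 2 ≤ 4 / q0) ∧
    (∀ (g : ℕ → ℝ) (P : Finset ℕ), (∀ p, 0 ≤ g p) → (∀ z ∈ S, z.p ∈ P) →
      ∑ z ∈ S, g z.p ≤ 2 * ∑ p ∈ P, g p) ∧
    ∀ r : ℤ, r ≠ 0 → (∀ z ∈ S, (z.p : ℤ) ∣ r) → ∑ z ∈ S, lg z ≤ 2 * Real.log |(r : ℝ)|

/-- the first theorem of Mertens in windows -/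
def MertS : Prop := ∃ K : ℝ, 0 ≤ K ∧ ∀ (lo hi : ℝ) (P : Finset ℕ), 1 ≤ lo → lo ≤ hi →
  (∀ p : ℕ, p ∈ P ↔ p.Prime ∧ lo ≤ p ∧ (p : ℝ) < hi) →
  |∑ p ∈ P, Real.log p / p - (Real.log hi - Real.log lo)| ≤ K

/-- a weak upper bound for sums of reciprocals of primes -/
def PrecS : Prop := ∀ (c : ℝ) (E : ℕ), ∃ Y1 : ℝ, ∀ (Y : ℝ) (P : Finset ℕ), Y1 ≤ Y →
  (∀ p ∈ P, p.Prime ∧ (p : ℝ) ≤ Y ^ E) → Real.exp (c * ∑ p ∈ P, (1 : ℝ) / p) ≤ Y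

/-! ### the large sieve -/

/-- the test of Schur -/
def SchurS : Prop := ∀ {ι κ : Type} (I : Finset ι) (N : Finset κ) (X : ι → κ → ℝ) (μ : ι → ℝ)
  (δ : ℝ), 0 ≤ δ → (∀ i ∈ I, 0 ≤ μ i) →
  (∀ i ∈ I, ∑ i' ∈ I, μ i' * |∑ n ∈ N, X i n * X i' n| ≤ δ) →
  (∀ c : ι → ℝ, (∀ i ∈ I, |c i| ≤ μ i) →
    ∑ n ∈ N, (∑ i ∈ I, c i * X i n) ^ 2 ≤ δ * ∑ i ∈ I, |c i|) ∧
  ∀ S ⊆ N, ∑ i ∈ I, μ i * (∑ n ∈ S, X i n) ^ 2 ≤ δ * S.card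

/-- the rows of the Gram matrix inside a class -/
def GramS : Prop := ∀ (f : ℤ[X]) (t0 : ℤ) (W k : ℕ) (Y : ℝ) (q : ℕ) (r : ℤ), Sc W k Y → 10 ≤ Y →
  0 < q → q.Coprime W → (q : ℝ) ≤ Y ^ 2 → ∀ z ∈ Pts f Y (Y ^ 2), ¬z.p ∣ q →
  ∑ z' ∈ (Pts f Y (Y ^ 2)).filter fun z' => ¬z'.p ∣ q,
    sg Y z' * |∑ a ∈ (HH0 t0 W k).filter fun a => (q : ℤ) ∣ a - r,
      Xz ((k : ℤ) ^ 2) z a * Xz ((k : ℤ) ^ 2) z' a| ≤ 20 * Lc W k / (q * Y)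

/-- variance bounds for every set of curves, globally and inside a link -/
structure Lsv (P : Finset Pt) (H0 : Finset ℤ) (b : ℤ) (σ : Pt → ℝ) (L γ : ℝ) : Prop where
  one : ∀ S ⊆ H0, ∑ z ∈ P, σ z * ((z.p * ((lk S b {z}).card : ℝ) - S.card) / L) ^ 2 ≤ γ
  two : ∀ z0 ∈ P, ∀ S ⊆ H0, (∀ a ∈ S, On a b z0) → ∑ z ∈ P.filter fun z => z.p ≠ z0.p,
    σ z * (z0.p * (z.p * ((lk S b {z}).card : ℝ) - S.card) / L) ^ 2 ≤ γ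
  card : (H0.card : ℝ) ≤ L
  link : ∀ z ∈ P, z.p * ((lk H0 b {z}).card : ℝ) ≤ 2 * L

/-- the large sieve -/
def LsvS : Prop := ∀ (f : ℤ[X]) (t0 : ℤ) (W k : ℕ) (Y : ℝ), Sc W k Y → 10 ≤ Y →
  Lsv (Pts f Y (Y ^ 2)) (HH0 t0 W k) ((k : ℤ) ^ 2) (sg Y) (Lc W k) (40 / Y) ∧
  ∀ c : Pt → ℝ, (∀ z ∈ Pts f Y (Y ^ 2), |c z| ≤ sg Y z) →
    ∑ a ∈ HH0 t0 W k, (∑ z ∈ Pts f Y (Y ^ 2), c z * Xz ((k : ℤ) ^ 2) z a) ^ 2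
      ≤ 20 * Lc W k / Y * ∑ z ∈ Pts f Y (Y ^ 2), |c z|

/-! ### the main window -/

/-- the number of points over a prime -/
def HasS : Prop := ∀ (f : ℤ[X]) (t0 : ℤ) (A0 : ℕ), Crv f t0 A0 → ∃ D : ℕ, ∀ (p : ℕ) (S : Finset Pt),
  p.Prime → D < p → (∀ z, z ∈ S ↔ IsPt f z ∧ z.p = p) → |(S.card : ℝ) - p| ≤ 2 * √(p : ℝ) + 5

/-- the mass of a window -/
def WinS : Prop := ∀ (f : ℤ[X]) (t0 : ℤ) (A0 : ℕ), Crv f t0 A0 → ∃ K Y1 : ℝ, ∀ lo hi : ℝ,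
  Y1 ≤ lo → lo ≤ hi →
  |∑ z ∈ Pts f lo hi, lg z / (z.p : ℝ) ^ 2 - (Real.log hi - Real.log lo)| ≤ K

/-- the masses of the coarse cells -/
def MassS : Prop := ∀ (f : ℤ[X]) (t0 : ℤ) (A0 : ℕ), Crv f t0 A0 → ∀ (K' : ℕ) (δ : ℝ), 0 < K' →
  0 < δ → ∃ Y1 : ℝ, ∀ (Y : ℝ) (U : ℕ), Y1 ≤ Y → Y ≤ U →
    (∀ z ∈ Pts f Y (Y ^ 2), pos (Real.log Y) (Real.log Y / U) z.p < U ∧ cz Y U K' z < K') ∧
    ∑ z ∈ Pts f Y (Y ^ 2), sg Y z ≤ 2 ∧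
    ∑ d ∈ range K', |∑ z ∈ (Pts f Y (Y ^ 2)).filter fun z => cz Y U K' z = d, sg Y z - 1 / K'| ≤ δ

/-- the points of a small curve are equidistributed in the coarse cells -/
def Eqd (f : ℤ[X]) (k : ℕ) (Y : ℝ) (U K' : ℕ) (δ : ℝ) (a : ℤ) : Prop :=
  |∑ z ∈ PtsOn f Y (Y ^ 2) a ((k : ℤ) ^ 2), n0 Y z - 1| ≤ δ ∧
  |Zm (PtsOn f Y (Y ^ 2) a ((k : ℤ) ^ 2)) - Real.log Y| ≤ δ * Real.log Y ∧
  ∑ d ∈ range K', |∑ z ∈ (PtsOn f Y (Y ^ 2) a ((k : ℤ) ^ 2)).filter fun z => cz Y U K' z = d,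
    n0 Y z - 1 / K'| ≤ δ

open Classical in
def GoodS : Prop := ∀ (f : ℤ[X]) (t0 : ℤ) (A0 : ℕ), Crv f t0 A0 → ∀ (K' : ℕ) (δ : ℝ), 0 < K' →
  0 < δ → ∃ Y1 : ℝ, ∀ (W k : ℕ) (Y : ℝ) (U : ℕ), Y1 ≤ Y → Sc W k Y → Y ≤ U →
    (((HH0 t0 W k).filter fun a => ¬Eqd f k Y U K' δ a).card : ℝ) ≤ δ * Lc W k

/-- few small primes divide the discriminant -/
def SigS : Prop := ∀ (f : ℤ[X]) (t0 : ℤ) (A0 : ℕ), Crv f t0 A0 → ∀ δ : ℝ, 0 < δ →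
  ∃ (w0 : ℕ) (Y1 : ℝ), ∀ (W k : ℕ) (Y : ℝ), Y1 ≤ Y → Sc W k Y →
    (∀ l : ℕ, l.Prime → l ≤ w0 → l ∣ W) →
    (((HH0 t0 W k).filter fun a => 2 < ∑ l ∈ (2 * AA f k a).primeFactors, (1 : ℝ) / l).card : ℝ)
      ≤ δ * Lc W k

/-! ### the second window -/

def S2S : Prop := ∀ (f : ℤ[X]) (t0 : ℤ) (A0 : ℕ), Crv f t0 A0 → ∃ E0 : ℕ, 2 ≤ E0 ∧
  ∀ E1 : ℕ, E0 ≤ E1 → ∃ Y1 : ℝ, ∀ Y0 : ℝ, Y1 ≤ Y0 →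
    2 ≤ ∑ z ∈ PtsOn f Y0 (Y0 ^ E1) t0 1, 1 / (z.p : ℝ) ∧
    ∑ z ∈ PtsOn f Y0 (Y0 ^ E1) t0 1, 1 / (z.p : ℝ) ≤ 2 * E1 ∧
    2 * Real.log Y0 ≤ Zm (PtsOn f Y0 (Y0 ^ E1) t0 1) ∧
    Zm (PtsOn f Y0 (Y0 ^ E1) t0 1) ≤ 2 * E1 * Real.log Y0

open Classical in
/-- sums over blocks -/
def BlkS : Prop := ∀ (S : Finset Pt) (N : ℕ),
  (∀ T, T ∈ Blk S N ↔ Nd T ∧ T.card = N ∧ ∀ z ∈ T, z ∈ S) ∧
  ∀ (g : Pt → ℝ) (g0 : ℝ), 0 ≤ g0 → (∀ z ∈ S, 0 ≤ g z ∧ g z ≤ g0) →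
    ∑ T ∈ Blk S N, pw g T ≤ (∑ z ∈ S, g z) ^ N ∧
    ((∀ p : ℕ, (S.filter fun z => z.p = p).card ≤ 2) →
      (2 * N * g0 ≤ ∑ z ∈ S, g z →
        (∑ z ∈ S, g z - 2 * N * g0) ^ N / N.factorial ≤ ∑ T ∈ Blk S N, pw g T) ∧
      ∀ l : ℕ, ∑ T ∈ (Blk S N).filter fun T => l ∈ T.map Pt.p, pw g T
        ≤ 2 * g0 * (∑ z ∈ S, g z) ^ (N - 1))

open Classical in
/-- blocks of the second window on a small curve -/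
def AmS : Prop := ∀ (f : ℤ[X]) (t0 : ℤ) (W k A' N : ℕ) (Y Y0 hi Z : ℝ), Sc W k Y → 1 < Y0 →
  Y0 ^ A' = Y → Real.log Y0 ≤ Z → ∀ a ∈ HH0 t0 W k,
    (((PtsOn f Y0 hi t0 1).filter (On a ((k : ℤ) ^ 2))).card : ℝ) ≤ 40 * A' ∧
    (((Blk (PtsOn f Y0 hi t0 1) N).filter fun T => ∀ z ∈ T, On a ((k : ℤ) ^ 2) z).card : ℝ)
      ≤ (40 * A') ^ N ∧
    ∑ T ∈ (Blk (PtsOn f Y0 hi t0 1) N).filter fun T => ∀ z ∈ T, On a ((k : ℤ) ^ 2) z, bw Z T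
      ≤ (40 * A') ^ N

open Classical in
/-- many small curves contain a long block -/
def RichS : Prop := ∀ (f : ℤ[X]) (t0 : ℤ) (W k A' E1 N : ℕ) (Y Y0 : ℝ), Sc W k Y → 1 < Y0 →
  Y0 ^ A' = Y → (W : ℝ) < Y0 → E1 * N ≤ A' → 2 * (N : ℝ) ≤ Y0 →
  2 ≤ ∑ z ∈ PtsOn f Y0 (Y0 ^ E1) t0 1, 1 / (z.p : ℝ) →
  Lc W k / (2 * N.factorial * (40 * A') ^ N) ≤ (((HH0 t0 W k).filter fun a =>
    ∃ T ∈ Blk (PtsOn f Y0 (Y0 ^ E1) t0 1) N, ∀ z ∈ T, On a ((k : ℤ) ^ 2) z).card : ℝ)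

/-- pigeonhole on labels -/
def PigS : Prop := ∀ {κ : Type} (lab : Pt → κ) (Kl : Finset κ) (LL : Finset ℕ) (N Mx M1 : ℕ)
  (T : Multiset Pt), Nd T → 0 < Mx → Kl.card ≤ Mx → LL.card ≤ M1 → N * Mx + M1 ≤ T.card →
  (∀ z ∈ T, lab z ∈ Kl) → ∃ T' ≤ T, T'.card = N ∧ (∀ z ∈ T', z.p ∉ LL) ∧
    ∀ z ∈ T', ∀ z' ∈ T', lab z = lab z'

open Classical in
/-- blocks with many admissible curves -/
def TTS : Prop := ∀ {ι : Type} (Bk : Finset ι) (w P n : ι → ℝ) (c L : ℝ), 0 < L → 0 ≤ c →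
  (∀ T ∈ Bk, 0 ≤ w T ∧ 0 ≤ P T ∧ n T ≤ 2 * (L * P T)) → ∑ T ∈ Bk, w T * P T ≤ 1 →
  c * L ≤ ∑ T ∈ Bk, w T * n T →
  c / 4 ≤ ∑ T ∈ Bk.filter fun T => c / 2 * (L * P T) ≤ n T, w T * P T

/-- removal of mass and renormalisation -/
def NormS : Prop := ∀ {ι : Type} [DecidableEq ι] (S S' : Finset ι) (w : ι → ℝ) (c : ι → ℕ) (K' : ℕ)
  (δ r : ℝ), S' ⊆ S → (∀ z ∈ S, 0 ≤ w z ∧ c z < K') → ∑ z ∈ S \ S', w z ≤ r →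
  ∑ d ∈ range K', |∑ z ∈ S.filter fun z => c z = d, w z - 1 / K'| ≤ δ → 0 < K' →
  ∑ d ∈ range K', |∑ z ∈ S'.filter fun z => c z = d, w z - 1 / K'| ≤ δ + r ∧
  |∑ z ∈ S', w z - 1| ≤ δ + r ∧
  (δ + r < 1 → ∑ d ∈ range K', |∑ z ∈ S'.filter fun z => c z = d, w z / (∑ z' ∈ S', w z') - 1 / K'|
    ≤ 2 * (δ + r))

/-! ### deletion -/

/-- a small fixed point of a monotone map -/
def FixS : Prop := ∀ {κ : Type} (H : Finset κ) (Ψ : Finset κ → Finset κ) (B : ℝ), 0 ≤ B →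
  (∀ D, Ψ D ⊆ H) → (∀ D D', D ⊆ D' → Ψ D ⊆ Ψ D') →
  (∀ D ⊆ H, (D.card : ℝ) ≤ B → ((Ψ D).card : ℝ) ≤ B) →
  ∃ D ⊆ H, (D.card : ℝ) ≤ B ∧ Ψ D = D

open Classical in
/-- hypotheses of the deletion lemma -/
structure DelH (P : Finset Pt) (H0 H2 : Finset ℤ) (b : ℤ) (n : Pt → ℝ) (G : ℤ → Pt → Prop)
    (cell : ℤ → ℕ) (J : ℕ) (L γ e δm : ℝ) : Prop where
  lsv : Lsv P H0 b (fun z => n z / z.p) L γ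
  sub : H2 ⊆ H0
  num : 0 < L ∧ 0 < e ∧ e ≤ 1 ∧ 0 ≤ δm ∧ δm ≤ e ^ 3 / 8 ∧ 8 * (J + 4) * γ ≤ e ^ 4
  pos : ∀ z ∈ P, 0 < z.p ∧ 0 ≤ n z
  tot : ∑ z ∈ P, n z / z.p ≤ 2
  cj : ∀ z ∈ P, z.cj ∈ P ∧ ∀ a, (On a b z.cj ↔ On a b z) ∧ (G a z.cj ↔ G a z)
  cel : ∀ a ∈ H2, cell a < J
  mis : ∀ a ∈ H2, ∑ z ∈ P.filter fun z => On a b z ∧ ¬G a z, n z ≤ δm

open Classical in
/-- a small set of curves and a small set of points which control each other -/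
structure DelM (P : Finset Pt) (H2 : Finset ℤ) (b : ℤ) (n : Pt → ℝ) (G : ℤ → Pt → Prop)
    (cell : ℤ → ℕ) (J : ℕ) (L e : ℝ) (HH : Finset ℤ) (P1 : Finset Pt) : Prop where
  subH : HH ⊆ H2
  subP : P1 ⊆ P
  cj : ∀ z ∈ P1, z.cj ∈ P1
  card : ((H2 \ HH).card : ℝ) ≤ e * L / 2
  lose : ∀ a ∈ HH, ∑ z ∈ (P \ P1).filter (On a b), n z ≤ e
  mass : ∑ z ∈ P \ P1, n z / z.p ≤ e
  shD : ∀ z ∈ P1, z.p * ((lk (H2 \ HH) b {z}).card : ℝ) ≤ e * L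
  shG : ∀ z ∈ P1, z.p * ((H2.filter fun a => On a b z ∧ ¬G a z).card : ℝ) ≤ e * L
  shC : ∀ z ∈ P1, ∀ c < J, |z.p * ((lk (H2.filter fun a => cell a = c) b {z}).card : ℝ)
    - (H2.filter fun a => cell a = c).card| ≤ e * L

open Classical in
/-- regularity of the remaining family -/
structure DelC (b : ℤ) (n : Pt → ℝ) (G : ℤ → Pt → Prop) (cell : ℤ → ℕ) (J : ℕ) (L e : ℝ)
    (HH : Finset ℤ) (P1 : Finset Pt) : Prop where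
  r13 : ∀ z ∈ P1, ∑ c ∈ range J,
    |z.p * ((HH.filter fun a => cell a = c ∧ On a b z ∧ G a z).card : ℝ)
      - (HH.filter fun a => cell a = c).card| ≤ (J + 3) * e * L
  r2 : ∀ z ∈ P1, ∑ z' ∈ P1.filter fun z' => z'.p ≠ z.p, n z' / z'.p *
    |z.p * z'.p * ((HH.filter fun a => (On a b z ∧ G a z) ∧ On a b z' ∧ G a z').card : ℝ) - HH.card|
      ≤ (2 * J + 8) * e * L

def DelAS : Prop := ∀ P H0 H2 b n G cell J L γ e δm, DelH P H0 H2 b n G cell J L γ e δm →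
  ∃ HH P1, DelM P H2 b n G cell J L e HH P1

def DelBS : Prop := ∀ P H0 H2 b n G cell J L γ e δm HH P1, DelH P H0 H2 b n G cell J L γ e δm →
  DelM P H2 b n G cell J L e HH P1 → DelC b n G cell J L e HH P1

/-! ### moments of the correlation defect -/

def MomS : Prop := ∀ (t0 u v r : ℤ) (W k q w : ℕ) (c : ℝ) (S : Finset ℤ) (R : Finset ℕ), 0 < W →
  W ∣ k → 0 < q → q.Coprime W → 0 < w → 0 ≤ c → (∀ l : ℕ, l.Prime → l ≤ w → l ∣ W) →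
  (∀ l : ℕ, l.Prime → (l : ℤ) ∣ v → l ∣ W) → S ⊆ HH0 t0 W k →
  (∀ a ∈ S, (q : ℤ) ∣ a - r ∧ (u - a * v).natAbs.primeFactors ⊆ R) → (∀ l ∈ R, l.Prime) →
  ∑ a ∈ S, (∏ l ∈ (u - a * v).natAbs.primeFactors.filter fun l => ¬l ∣ W ∧ ¬l ∣ q, (1 + c / l) - 1)
    ≤ Lc W k / q * (Real.exp (c / w) - 1) + Real.exp (c * ∑ l ∈ R, (1 : ℝ) / l)

def EtaS : Prop := ∀ (ε K : ℝ) (M1 r Tm : ℕ), 0 < ε → 1 ≤ K → ∃ (w0 : ℕ) (q0 Y1 : ℝ),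
  ∀ (t0 : ℤ) (W k : ℕ) (Y : ℝ), Y1 ≤ Y → Sc W k Y → (∀ l : ℕ, l.Prime → l ≤ w0 → l ∣ W) →
  ∀ (a1 b1 : ℤ) (T : Multiset Pt) (S : Finset ℤ), (∀ l : ℕ, l.Prime → (l : ℤ) ∣ b1 → l ∣ W) →
    Nd T → T.card ≤ Tm → (∀ z ∈ T, z.p.Prime ∧ ¬z.p ∣ W ∧ q0 ≤ z.p) → (nT T : ℝ) ≤ Y ^ 16 →
    S ⊆ lk (HH0 t0 W k) ((k : ℤ) ^ 2) T →
    (∀ a ∈ S, a1 * (k : ℤ) ^ 2 - a * b1 ≠ 0 ∧ |((a1 * (k : ℤ) ^ 2 - a * b1 : ℤ) : ℝ)| ≤ Y ^ 45) →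
    (∀ LL : ℤ → Finset ℕ, ∑ a ∈ S, et1 W (LL a) K (a * b1 - a1 * (k : ℤ) ^ 2) ^ r
      ≤ 3 * K ^ r * (Lc W k * PT T)) ∧
    ∀ LL : Finset ℕ, LL.card ≤ M1 → (∀ l ∈ LL, l.Prime ∧ ¬l ∣ W) →
      (∀ z ∈ T, z.p ∈ LL → ¬On a1 b1 z) →
      ∑ a ∈ S, (et1 W LL K (a1 * (k : ℤ) ^ 2 - a * b1) ^ r - 1) ≤ ε * (Lc W k * PT T)

def OfLk : Prop := CntS → ScS → LkS
def OfPrec : Prop := MertS → PrecS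
def OfGram : Prop := CntS → ScS → PcS → GramS
def OfLsv : Prop := CntS → ScS → LkS → SchurS → GramS → LsvS
def OfWin : Prop := HasS → MertS → WinS
def OfMass : Prop := WinS → MassS
def OfGood : Prop := ScS → LsvS → MassS → GoodS
def OfSig : Prop := CntS → ScS → HtS → SigS
def OfS2 : Prop := PcS → MertS → S2S
def OfAm : Prop := ScS → PcS → BlkS → AmS
def OfRich : Prop := ScS → LkS → PcS → BlkS → AmS → RichS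
def OfDelA : Prop := FixS → DelAS
def OfMom : Prop := CntS → MomS
def OfEta : Prop := CntS → ScS → LkS → PrecS → MomS → EtaS

end Pool.Agent.MP_f3836a_nt.VE
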