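import Pool.Agent.MP_f3836a_nt.VE.SpecFA

/-! Part F: the finite system and its rigidity. -/

set_option autoImplicit false

namespace Pool.Agent.MP_f3836a_nt.VE.F

open Finset

/-- the data of a system; the curve `none` is the base curve -/
structure Sys (G H Cl : Type) where
  Gs : Finset G
  σ : ℝ
  on : Option H → Pt → Prop
  zr : G → Pt → Prop
  Ev : G → Option H → Multiset Pt → Prop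
  ok : Pt → Prop
  P1 : Finset Pt
  St : Option H → Finset (Multiset Pt)
  w : Option H → Multiset Pt → ℝ
  ρ : Option H → ℝ
  adm : H → Multiset Pt → Prop
  ad : Option H → Multiset Pt → ℕ → Prop
  fm : Option H → Multiset Pt → ℕ → ℝ
  et : Option H → Option H → ℝ
  k : ℕ
  k3 : ℕ
  N : ℕ
  K : ℕ
  r : ℕ
  v : ℤ
  u : Pt → ℕ
  n0 : Pt → ℝ
  cell : H → Cl
  mc : Cl → ℝ
  ψ : Option H → Pt → ℝ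
  φ : G → Pt → ℝ
  ua : G → Option H → ℝ
  la : G → H → ℝ
  c0 : ℝ
  L1 : ℝ
  lam : ℝ
  Λ : ℝ
  M : ℝ
  Sz : ℝ
  Ym : ℝ
  θ : ℝ
  η : ℝ

/-- the point of a singleton -/
def pt (x : Multiset Pt) : Pt := ⟨(x.map Pt.p).sum, (x.map Pt.t).sum, (x.map Pt.y).sum⟩

namespace Sys

variable {G H Cl : Type} (S : Sys G H Cl)

/-- mean over the big curves -/
noncomputable def E (F : G → ℝ) : ℝ := (∑ g ∈ S.Gs, F g) / S.Gs.card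

/-- normalised weight of decompositions -/
noncomputable def Y (c : Option H) (T : Multiset Pt) (j : ℕ) (g : G) : ℝ :=
  (∑ s : Fin j → S.St c, (∏ i, S.w c (s i)) * ind (S.Ev g c (T + ∑ i, (s i).1))) / S.ρ c

/-- all points of `T` are zeros of `g` -/
noncomputable def I (T : Multiset Pt) (g : G) : ℝ := ind (∀ z ∈ T, S.zr g z)

/-- size at most `i` -/
def Sm (i : ℕ) (T : Multiset Pt) : Prop :=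
  T.card ≤ i * S.N ∧ (nT T : ℝ) ≤ S.Sz ^ i ∧ ∀ z ∈ T, S.ok z

/-- the triple is allowed inside `T` -/
def Cf (c : Option H) (Ta : Multiset Pt) (j : ℕ) (T : Multiset Pt) : Prop :=
  S.ad c Ta j ∧ Ta ≤ T ∧ ∀ z ∈ T, z ∈ Ta ∨ ¬S.on c z

/-- number of steps minus two -/
def kk (c : Option H) : ℕ := c.elim S.k3 fun _ => S.k

open Classical in
/-- weight of a point on a small curve -/
noncomputable def wz (h : H) (z : Pt) : ℝ :=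
  if ({z} : Multiset Pt) ∈ S.St (some h) then S.w (some h) {z} else 0

/-- all points of `T` lie on `h` -/
def Lk (T : Multiset Pt) (h : H) : Prop := ∀ z ∈ T, S.on (some h) z

noncomputable def f1 (z : Pt) : ℝ := Fu (S.K * S.r) (S.k + 1) (S.v - S.u z)

noncomputable def f2 (z z' : Pt) : ℝ := Fu (S.K * S.r) S.k (S.v - S.u z - S.u z')

/-- coarse cell of a point -/
def d (z : Pt) : ℕ := S.u z / S.r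

variable [Fintype H] [Fintype Cl]

/-- the hypotheses -/
structure Ok : Prop where
  num : 100 ≤ S.Λ ∧ S.Λ ≤ S.Ym ∧ 1 ≤ S.M ∧ 1 ≤ S.Sz ∧ 0 < S.θ ∧ S.θ ≤ 1 ∧ 0 < S.η ∧ 0 < S.lam
  nat : 2 ≤ S.k ∧ (S.k : ℝ) + 2 ≤ S.Λ ∧ (S.k3 : ℝ) + 2 ≤ S.Λ ∧ 1 ≤ S.N ∧ (S.N : ℝ) ≤ S.Λ
  cel : 2 ≤ S.r ∧ 2 ≤ S.η * S.K ∧ (S.K : ℝ) ≤ S.M ∧ (Fintype.card Cl : ℝ) ≤ S.M
  gs : S.Gs.Nonempty
  sig : S.σ * Fintype.card H = 1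
  atom : S.σ * S.Ym ^ 3 * S.Sz ^ 8 ≤ S.θ ^ 2
  rho : ∀ c, 0 < S.ρ c
  okp : ∀ z, S.ok z → z.cj.cj = z ∧ S.Ym ^ 3 ≤ S.θ ^ 2 * z.p ∧ ∀ c, S.ψ c z.cj = -S.ψ c z
  p1 : ∀ z ∈ S.P1, S.ok z ∧ (z.p : ℝ) ≤ S.Sz ∧ z.cj ∈ S.P1 ∧ 1 / (z.p : ℝ) ≤ S.Λ * S.n0 z ∧
    S.n0 z ≤ S.Λ / z.p ∧ S.u z < S.K * S.r ∧ |Real.log z.p - S.L1 - S.lam * S.u z| ≤ S.lam
  st : ∀ c, ∀ x ∈ S.St c, Nd x ∧ S.Sm 1 x ∧ 0 ≤ S.w c x ∧ x.map Pt.cj ∈ S.St c ∧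
    S.w c (x.map Pt.cj) = S.w c x
  st1 : ∀ h, ∀ x ∈ S.St (some h), S.w (some h) x ≤ S.Λ ∧ ∃ z ∈ S.P1, x = {z}
  nrm : ∀ c, ∑ x ∈ S.St c, S.w c x * PT x = 1
  win : ∀ T ∈ S.St none, ∀ z ∈ S.P1, ∀ z' ∈ T, z'.p ≠ z.p
  evn : ∀ g c M, S.Ev g c M → Nd M
  evz : ∀ g ∈ S.Gs, ∀ c M, S.Ev g c M → ∀ z ∈ M, S.ok z → S.on c z → S.zr g z
  evl : ∀ g ∈ S.Gs, ∀ h M, S.Ev g (some h) M → Real.log (nT M) = S.la g h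
  idh : ∀ g ∈ S.Gs, ∀ h M, S.Ev g (some h) M → (∀ z ∈ M, S.ok z ∧ S.on (some h) z) →
    (M.map (S.ψ (some h))).sum = (M.map (S.φ g)).sum + S.ua g (some h)
  id0 : ∀ g ∈ S.Gs, ∀ M, S.Ev g none M → (∀ z ∈ M, S.ok z ∧ S.on none z) →
    S.c0 + (M.map (S.ψ none)).sum = (M.map (S.φ g)).sum + S.ua g none
  ad0 : ∀ c T j, S.ad c T j → (∀ z ∈ T, S.on c z) ∧ 1 / S.Λ ≤ S.fm c T j ∧ S.fm c T j ≤ S.Λ ∧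
    ∀ g ∈ S.Gs, S.Y c T j g ≤ S.Ym
  ad1 : ∀ c, ∀ x ∈ S.St c, S.ad c x (S.kk c + 1)
  ad2 : ∀ c, ∀ x ∈ S.St c, ∀ x' ∈ S.St c, Nd (x + x') → S.ad c (x + x') (S.kk c)
  ad3 : ∀ h, ∀ T ∈ S.St none, S.adm h T → S.adm h (T.map Pt.cj) ∧ S.ad (some h) T (S.k + 2) ∧
    ∀ x ∈ S.St (some h), S.ad (some h) (x + T) (S.k + 1)
  fmp : ∀ c T T' j, T.map Pt.p = T'.map Pt.p → S.fm c T j = S.fm c T' j
  fm1 : ∀ h z, {z} ∈ S.St (some h) → S.fm (some h) {z} (S.k + 1) = S.f1 z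
  fm2 : ∀ h z z', {z} ∈ S.St (some h) → {z'} ∈ S.St (some h) → z.p ≠ z'.p →
    S.fm (some h) (z' ::ₘ {z}) S.k = S.f2 z z'
  mdl : ∀ t : ℕ, t < 2 * (S.K * S.r) → 1 / S.Λ ≤ Fu (S.K * S.r) S.k (S.v - t)
  eta : ∀ c c', 0 ≤ S.et c c'
  eq : ∀ (l : List (Option H × Multiset Pt × ℕ)) (T : Multiset Pt), l.length ≤ 3 →
    (l.map Prod.fst).Nodup → Nd T → S.Sm 8 T → (∀ a ∈ l, S.Cf a.1 a.2.1 a.2.2 T) →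
    |S.E (fun g => S.I T g * (l.map fun a => S.Y a.1 a.2.1 a.2.2 g).prod)
        - PT T * (l.map fun a => S.fm a.1 a.2.1 a.2.2).prod|
      ≤ ((1 + S.θ ^ 2) * pp S.et (l.map Prod.fst) - 1)
        * (PT T * (l.map fun a => S.fm a.1 a.2.1 a.2.2).prod)
  tb : ∀ T : Multiset Pt, T.Nodup → (∀ p, (T.map Pt.p).count p ≤ 2) → S.Sm 8 T →
    S.E (S.I T) ≤ 2 * PT T
  lk : ∀ T, Nd T → S.Sm 8 T → S.σ * ∑ h, ind (S.Lk T h) ≤ S.Λ * PT T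
  row : ∀ c Ta j T, S.ad c Ta j → Nd T → S.Sm 8 T → (∀ z ∈ T, z ∈ Ta ∨ ¬S.on c z) →
    S.σ * ∑ h, ind (S.Lk T h ∧ some h ≠ c) * ((1 + S.et c (some h)) ^ 3 - 1) ≤ S.θ ^ 2 * PT T
  line : ∀ c, ∑ z ∈ S.P1, ind (S.on c z) / z.p ≤ S.Λ
  fib : ∀ p, ∑ z ∈ S.P1, ind (z.p = p) / z.p ≤ S.Λ
  zer : ∀ g ∈ S.Gs, ∑ z ∈ S.P1, ind (S.zr g z) / z.p ≤ S.Λ
  mc0 : (∀ c, 0 ≤ S.mc c) ∧ ∑ c, S.mc c = 1
  r0 : ∑ i ∈ range S.K, |∑ z ∈ S.P1, ind (S.d z = i) * S.n0 z / z.p - 1 / S.K| ≤ S.θ ^ 2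
  r1 : ∀ z ∈ S.P1, ∑ c, |S.σ * ∑ h, ind (S.cell h = c) * S.wz h z - S.n0 z * S.mc c|
    ≤ S.θ ^ 2 * S.n0 z
  r2 : ∀ z ∈ S.P1, ∑ z' ∈ S.P1, ind (z'.p ≠ z.p) / z'.p
    * |S.σ * ∑ h, S.wz h z * S.wz h z' - S.n0 z * S.n0 z'| ≤ S.θ ^ 2 * S.n0 z
  r5 : ∀ T ∈ S.St none, PT T ≤ S.Λ * (S.σ * ∑ h, ind (S.adm h T))
  arh : ∀ g ∈ S.Gs, ∀ s : ℝ, ∃ (R : ℝ) (U : Cl → ℝ), 0 ≤ R ∧
    (∀ h, |S.ua g (some h) + s * S.la g h - U (S.cell h)| ≤ S.η * R) ∧ (∀ c c', |U c - U c'| ≤ R) ∧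
    (∀ x, R ^ 2 ≤ S.Λ * ∑ c, S.mc c * (U c - x) ^ 2) ∧ (R = 0 → s = 0 ∧ ∀ c, S.ua g c = 0)

end Sys

/-- **the export of part F** -/
def FMain : Prop := ∃ A : ℕ, ∀ {G H Cl : Type} [Fintype H] [Fintype Cl] (S : Sys G H Cl), S.Ok →
  S.η * S.Λ ^ A ≤ 1 → S.θ * S.M ^ 3 * S.Λ ^ A ≤ S.η ^ 2 → S.c0 = 0

end Pool.Agent.MP_f3836a_nt.VE.F
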