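import Pool.Agent.MP_f3836a_nt.VE.SpecE1
import Pool.Agent.MP_f3836a_nt.VE.SpecB
import Pool.Agent.MP_f3836a_nt.VE.SpecF

/-! Part E: the concrete system. -/

set_option autoImplicit false

namespace Pool.Agent.MP_f3836a_nt.VE

open Polynomial Finset

/-- singletons -/
noncomputable def sing (S : Finset Pt) : Finset (Multiset Pt) := S.image fun z => {z}

/-- weights of singletons -/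
noncomputable def w1 (S : Finset Pt) (x : Multiset Pt) : ℝ := Real.log (nT x) / Zm S

/-- position of a prime, in both windows -/
noncomputable def ut (Y : ℝ) (U p : ℕ) : ℕ :=
  if Y ≤ p then pos (Real.log Y) (Real.log Y / U) p else pos 0 (Real.log Y / U) p

/-- total position -/
noncomputable def tot (Y : ℝ) (U : ℕ) (T : Multiset Pt) : ℕ := (T.map fun z => ut Y U z.p).sum

/-- one or two steps -/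
def adS (St : Finset (Multiset Pt)) (κ : ℕ) (T : Multiset Pt) (j : ℕ) : Prop :=
  (T ∈ St ∧ j = κ + 1) ∨ ∃ x ∈ St, ∃ x' ∈ St, T = x + x' ∧ Nd T ∧ j = κ

/-- an admissible block and at most one step -/
def adB (St TT : Finset (Multiset Pt)) (adm : Multiset Pt → Prop) (κ : ℕ) (T : Multiset Pt)
    (j : ℕ) : Prop :=
  ∃ T0 ∈ TT, adm T0 ∧ ((T = T0 ∧ j = κ + 2) ∨ ∃ x ∈ St, T = x + T0 ∧ j = κ + 1)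

/-- the rows of the correlation defect are small -/
def EtaC (t0 : ℤ) (W k : ℕ) (Y ε K q0 : ℝ) (M1 Tm : ℕ) : Prop :=
  ∀ (a1 b1 : ℤ) (T : Multiset Pt) (S : Finset ℤ), (∀ l : ℕ, l.Prime → (l : ℤ) ∣ b1 → l ∣ W) →
    Nd T → T.card ≤ Tm → (∀ z ∈ T, z.p.Prime ∧ ¬z.p ∣ W ∧ q0 ≤ z.p) → (nT T : ℝ) ≤ Y ^ 16 →
    S ⊆ lk (HH0 t0 W k) ((k : ℤ) ^ 2) T →
    (∀ a ∈ S, a1 * (k : ℤ) ^ 2 - a * b1 ≠ 0 ∧ |((a1 * (k : ℤ) ^ 2 - a * b1 : ℤ) : ℝ)| ≤ Y ^ 45) →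
    ∀ LL : Finset ℕ, LL.card ≤ M1 → (∀ l ∈ LL, l.Prime ∧ ¬l ∣ W) →
      (∀ z ∈ T, z.p ∈ LL → ¬On a1 b1 z) →
      ∑ a ∈ S, (et1 W LL K (a1 * (k : ℤ) ^ 2 - a * b1) ^ 3 - 1) ≤ ε * (Lc W k * PT T)

/-- archimedean rigidity with given constants -/
def ArC (n J : ℕ) (D Λ : ℝ) : Prop :=
  ∀ (t0 H s : ℝ) (N : ℤ[X]) (c : ℂ → ℝ), N.Monic → N.natDegree = n → 0 < n →
  0 < H → (∀ t ∈ Set.Icc t0 (t0 + 1), H ≤ aeval t N ∧ aeval t N ≤ 12 * H) →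
  ∑ θ ∈ rts N, c θ = 0 → ∃ S : ℝ, 0 ≤ S ∧
    (∀ t ∈ Set.Icc t0 (t0 + 1), ∀ t' ∈ Set.Icc t0 (t0 + 1),
      |BC.va N c s t - BC.va N c s t'| ≤ S * |t - t'|) ∧
    (∀ (m tc : Fin J → ℝ) (e : ℝ), (∀ a, 0 ≤ m a ∧ m a ≤ D / J) → ∑ a, m a = 1 →
      (∀ a : Fin J, t0 + (a : ℕ) / J ≤ tc a ∧ tc a ≤ t0 + ((a : ℕ) + 1) / J) →
      S ^ 2 ≤ Λ * ∑ a, m a * (BC.va N c s (tc a) - e) ^ 2) ∧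
    (S = 0 → s = 0 ∧ ∀ t : ℝ, ug N c t = 0)

/-- all the data at one scale -/
structure Dat where
  Γ : Gf
  t0 : ℤ
  A0 : ℕ
  ϖ : ℤ√(-(A0 : ℤ))
  e : ℕ
  e' : ℕ
  ψ : ℤ → ℤ → Pt → ℝ
  ψ0 : Pt → ℝ
  φ : ℤ[X] → ℤ[X] → Pt → ℝ
  c : ℤ[X] → ℤ[X] → ℂ → ℝ
  c0 : ℝ
  k0 : ℕ
  Y : ℝ
  Y0 : ℝ
  hi : ℝ
  HH : Finset ℤ
  P1 : Finset Pt
  G : ℤ → Pt → Prop
  TT : Finset (Multiset Pt)
  w0 : Multiset Pt → ℝ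
  f0 : Multiset ℕ → ℕ → ℝ
  ρ : Option ℤ → ℝ
  LL : Option ℤ → Finset ℕ
  adm : ℤ → Multiset Pt → Prop
  k : ℕ
  k3 : ℕ
  N : ℕ
  K : ℕ
  r : ℕ
  J1 : ℕ
  M1 : ℕ
  v : ℤ
  Λ : ℝ
  Λ1 : ℝ
  M : ℝ
  Ym : ℝ
  θ : ℝ
  η : ℝ
  Kx : ℝ
  V : ℝ
  ed : ℝ

namespace Dat

variable (D : Dat)

open Classical in
/-- the steps of a small curve -/
noncomputable def Z (a : ℤ) : Finset Pt :=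
  D.P1.filter fun z => On a ((D.k0 : ℤ) ^ 2) z ∧ D.G a z

noncomputable def cu : Option ℤ → Cu
  | none => cu0 D.t0 D.A0 D.ϖ D.e D.e'
  | some a => cuH D.Γ.f D.k0 a

noncomputable def St : Option ℤ → Finset (Multiset Pt)
  | none => D.TT
  | some a => sing (D.Z a)

noncomputable def w : Option ℤ → Multiset Pt → ℝ
  | none => D.w0
  | some a => w1 (D.Z a)

def ad : Option ℤ → Multiset Pt → ℕ → Prop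
  | none => adS D.TT D.k3
  | some a => fun T j => adS (sing (D.Z a)) D.k T j ∨ adB (sing (D.Z a)) D.TT (D.adm a) D.k T j

noncomputable def fm : Option ℤ → Multiset Pt → ℕ → ℝ
  | none => fun T j => D.f0 (T.map Pt.p) j
  | some _ => fun T j => Fu (D.K * D.r) j (D.v - tot D.Y (D.K * D.r) T)

/-- the family of small curves -/
noncomputable def Φ : Fam (Option D.HH) where
  cu c := D.cu (c.map Subtype.val)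
  St c := D.St (c.map Subtype.val)
  w c := D.w (c.map Subtype.val)
  ρ c := D.ρ (c.map Subtype.val)
  LL c := D.LL (c.map Subtype.val)
  ad c := D.ad (c.map Subtype.val)
  fm c := D.fm (c.map Subtype.val)
  X c := Xc D.Γ (D.cu (c.map Subtype.val))

/-- the cell of a small curve -/
noncomputable def cell (a : ℤ) : Fin (D.J1 + 1) :=
  ⟨min (cellOf D.t0 D.k0 (D.J1 + 1) a) D.J1, Nat.lt_succ_of_le (min_le_right _ _)⟩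

/-- the system -/
noncomputable def sys : F.Sys (Ix D.Γ.m → ℤ) D.HH (Fin (D.J1 + 1)) where
  Gs := box D.Γ.m D.Γ.H D.Γ.H1
  σ := 1 / (D.HH.card : ℝ)
  on c := (D.Φ.cu c).on
  zr := D.Γ.zr
  Ev x c M := EvF (D.Φ.cu c).A (D.Φ.cu c).ss ((D.Φ.cu c).gam D.Γ x) M
  ok z := z ∈ Pts D.Γ.f D.Y0 (D.Y ^ 2)
  P1 := D.P1
  St := D.Φ.St
  w := D.Φ.w
  ρ := D.Φ.ρ
  adm h := D.adm h
  ad := D.Φ.ad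
  fm := D.Φ.fm
  et := D.Φ.eta D.Γ D.Kx
  k := D.k
  k3 := D.k3
  N := D.N
  K := D.K
  r := D.r
  v := D.v
  u z := pos (Real.log D.Y) (Real.log D.Y / (D.K * D.r : ℕ)) z.p
  n0 := n0 D.Y
  cell h := D.cell h
  mc c := ((D.HH.filter fun a => D.cell a = c).card : ℝ) / D.HH.card
  ψ c := c.elim D.ψ0 fun h => D.ψ h D.k0
  φ x := D.φ (D.Γ.gA x) (D.Γ.gB x)
  ua x c := ug (Ng D.Γ.f (D.Γ.gA x) (D.Γ.gB x)) (D.c (D.Γ.gA x) (D.Γ.gB x))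
    (((D.Φ.cu c).a : ℝ) / ((D.Φ.cu c).k : ℝ) ^ 2)
  la x h := Real.log ((cuH D.Γ.f D.k0 h).gam D.Γ x).norm
  c0 := D.c0
  L1 := Real.log D.Y
  lam := Real.log D.Y / (D.K * D.r : ℕ)
  Λ := D.Λ
  M := D.M
  Sz := D.Y ^ 2
  Ym := D.Ym
  θ := D.θ
  η := D.η

open Classical in
/-- the facts which are established by the construction -/
structure Raw : Prop where
  crv : Crv D.Γ.f D.t0 D.A0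
  gok : D.Γ.Ok
  sc : Sc D.Γ.W D.k0 D.Y
  ngr : NgR D.Γ D.t0
  ids : ∃ (J : ℕ) (As Bs : ℤ[X]), Ids D.Γ.f D.t0 D.Γ.p0 D.Γ.m J D.e D.e' As Bs D.ψ D.ψ0 D.φ D.c D.c0 ∧
    Cg ((D.Γ.p0 : ℤ) ^ J) D.Γ.As As ∧ Cg ((D.Γ.p0 : ℤ) ^ J) D.Γ.Bs Bs ∧ D.Γ.p0 ^ J ∣ D.Γ.W'
  fam : D.Φ.Ok D.Γ (D.Y ^ 21) D.V D.Λ 2 D.Ym D.Y0 (D.Y ^ 16) (D.θ ^ 2 / 40) D.Kx (8 * D.N)
  num : 100 ≤ D.Λ ∧ D.Λ ≤ D.Ym ∧ 0 < D.θ ∧ D.θ ≤ 1 ∧ 0 < D.η ∧ 1 ≤ D.Λ1 ∧ 2 * D.Λ1 ≤ D.Λ ∧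
    8 * (D.Γ.m : ℝ) ≤ D.Λ
  nat : 2 ≤ D.k ∧ (D.k : ℝ) + 2 ≤ D.Λ ∧ (D.k3 : ℝ) + 2 ≤ D.Λ ∧ 1 ≤ D.N ∧ (D.N : ℝ) ≤ D.Λ
  cel : 2 ≤ D.r ∧ 2 ≤ D.η * D.K ∧ (D.K : ℝ) ≤ D.M ∧ (D.J1 : ℝ) + 1 ≤ D.M ∧ 1 ≤ D.η * (D.J1 + 1) ∧
    (D.J1 : ℝ) + 1 ≤ D.Y
  win : (D.Γ.W : ℝ) < D.Y0 ∧ D.Y0 ≤ D.Y ∧ D.hi ≤ D.Y ∧ D.Λ * D.Ym ^ 3 ≤ D.θ ^ 2 * D.Y0
  hh : D.HH ⊆ HH0 D.t0 D.Γ.W D.k0 ∧ Lc D.Γ.W D.k0 ≤ D.Λ1 * D.HH.card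
  p1 : D.P1 ⊆ Pts D.Γ.f D.Y (D.Y ^ 2) ∧ (∀ z ∈ D.P1, z.cj ∈ D.P1 ∧ ∀ a, D.G a z → D.G a z.cj) ∧
    ∑ z ∈ D.P1, sg D.Y z ≤ 2
  zm : ∀ a ∈ D.HH, |Zm (D.Z a) - Real.log D.Y| ≤ 3 * D.ed * Real.log D.Y
  ed : 0 ≤ D.ed ∧ D.Λ1 * (2 * (D.J1 + 1) + 80) * D.ed ≤ D.θ ^ 2
  del : DelC ((D.k0 : ℤ) ^ 2) (n0 D.Y) D.G (cellOf D.t0 D.k0 (D.J1 + 1)) (D.J1 + 1)
    (Lc D.Γ.W D.k0) D.ed D.HH D.P1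
  r0 : ∑ d ∈ range D.K, |∑ z ∈ D.P1.filter fun z => cz D.Y (D.K * D.r) D.K z = d, sg D.Y z
    - 1 / D.K| ≤ D.θ ^ 2
  tt : ∀ T ∈ D.TT, T ∈ Blk (PtsOn D.Γ.f D.Y0 D.hi D.t0 1) D.N ∧ (nT T : ℝ) ≤ D.Y ^ 2 ∧
    T.map Pt.cj ∈ D.TT ∧ D.w0 (T.map Pt.cj) = D.w0 T ∧
    (∀ a, D.adm a T → D.adm a (T.map Pt.cj)) ∧
    Lc D.Γ.W D.k0 * PT T ≤ D.Λ * (D.HH.filter fun a => D.adm a T).card
  nrm : ∑ T ∈ D.TT, D.w0 T * PT T = 1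
  mdl : ∀ t : ℕ, t < 2 * (D.K * D.r) → 1 / D.Λ ≤ Fu (D.K * D.r) D.k (D.v - t)
  llc : ∀ c, (D.LL c).card ≤ D.M1
  eta : EtaC D.t0 D.Γ.W D.k0 D.Y (D.θ ^ 2 / D.Λ1) D.Kx D.Y0 D.M1 (8 * D.N)
  ar : ArC (2 * D.Γ.m) (D.J1 + 1) (2 * D.Λ1) D.Λ
  mer : ∀ P : Finset ℕ, (∀ p ∈ P, p.Prime ∧ D.Y ≤ p ∧ (p : ℝ) < D.Y ^ 2) → ∑ p ∈ P, (1 : ℝ) / p ≤ 2

end Dat

section fields

variable {G H Cl : Type} [Fintype H] [Fintype Cl] (S : F.Sys G H Cl)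

def FEq : Prop :=
  (∀ (l : List (Option H × Multiset Pt × ℕ)) (T : Multiset Pt), l.length ≤ 3 →
    (l.map Prod.fst).Nodup → Nd T → S.Sm 8 T → (∀ a ∈ l, S.Cf a.1 a.2.1 a.2.2 T) →
    |S.E (fun g => S.I T g * (l.map fun a => S.Y a.1 a.2.1 a.2.2 g).prod)
        - PT T * (l.map fun a => S.fm a.1 a.2.1 a.2.2).prod|
      ≤ ((1 + S.θ ^ 2) * pp S.et (l.map Prod.fst) - 1)
        * (PT T * (l.map fun a => S.fm a.1 a.2.1 a.2.2).prod)) ∧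
  (∀ T : Multiset Pt, T.Nodup → (∀ p, (T.map Pt.p).count p ≤ 2) → S.Sm 8 T →
    S.E (S.I T) ≤ 2 * PT T) ∧
  (∀ c T j, S.ad c T j → (∀ z ∈ T, S.on c z) ∧ 1 / S.Λ ≤ S.fm c T j ∧ S.fm c T j ≤ S.Λ ∧
    ∀ g ∈ S.Gs, S.Y c T j g ≤ S.Ym) ∧ ∀ c c', 0 ≤ S.et c c'

def FLk : Prop :=
  (∀ T, Nd T → S.Sm 8 T → S.σ * ∑ h, ind (S.Lk T h) ≤ S.Λ * PT T) ∧
  (∀ c Ta j T, S.ad c Ta j → Nd T → S.Sm 8 T → (∀ z ∈ T, z ∈ Ta ∨ ¬S.on c z) →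
    S.σ * ∑ h, ind (S.Lk T h ∧ some h ≠ c) * ((1 + S.et c (some h)) ^ 3 - 1) ≤ S.θ ^ 2 * PT T) ∧
  ∀ T ∈ S.St none, PT T ≤ S.Λ * (S.σ * ∑ h, ind (S.adm h T))

def FLn : Prop :=
  (∀ c, ∑ z ∈ S.P1, ind (S.on c z) / z.p ≤ S.Λ) ∧ (∀ p, ∑ z ∈ S.P1, ind (z.p = p) / z.p ≤ S.Λ) ∧
  (∀ g ∈ S.Gs, ∑ z ∈ S.P1, ind (S.zr g z) / z.p ≤ S.Λ) ∧
  ((∀ c, 0 ≤ S.mc c) ∧ ∑ c, S.mc c = 1) ∧
  ∑ i ∈ range S.K, |∑ z ∈ S.P1, ind (S.d z = i) * S.n0 z / z.p - 1 / S.K| ≤ S.θ ^ 2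

def FR1 : Prop := ∀ z ∈ S.P1,
  ∑ c, |S.σ * ∑ h, ind (S.cell h = c) * S.wz h z - S.n0 z * S.mc c| ≤ S.θ ^ 2 * S.n0 z

def FR2 : Prop := ∀ z ∈ S.P1, ∑ z' ∈ S.P1, ind (z'.p ≠ z.p) / z'.p
  * |S.σ * ∑ h, S.wz h z * S.wz h z' - S.n0 z * S.n0 z'| ≤ S.θ ^ 2 * S.n0 z

def FAr : Prop := ∀ g ∈ S.Gs, ∀ s : ℝ, ∃ (R : ℝ) (U : Cl → ℝ), 0 ≤ R ∧
  (∀ h, |S.ua g (some h) + s * S.la g h - U (S.cell h)| ≤ S.η * R) ∧ (∀ c c', |U c - U c'| ≤ R) ∧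
  (∀ x, R ^ 2 ≤ S.Λ * ∑ c, S.mc c * (U c - x) ^ 2) ∧ (R = 0 → s = 0 ∧ ∀ c, S.ua g c = 0)

def FId : Prop :=
  (∀ g ∈ S.Gs, ∀ c M, S.Ev g c M → ∀ z ∈ M, S.ok z → S.on c z → S.zr g z) ∧
  (∀ g ∈ S.Gs, ∀ h M, S.Ev g (some h) M → Real.log (nT M) = S.la g h) ∧
  (∀ g ∈ S.Gs, ∀ h M, S.Ev g (some h) M → (∀ z ∈ M, S.ok z ∧ S.on (some h) z) →
    (M.map (S.ψ (some h))).sum = (M.map (S.φ g)).sum + S.ua g (some h)) ∧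
  (∀ g ∈ S.Gs, ∀ M, S.Ev g none M → (∀ z ∈ M, S.ok z ∧ S.on none z) →
    S.c0 + (M.map (S.ψ none)).sum = (M.map (S.φ g)).sum + S.ua g none) ∧
  ∀ z, S.ok z → z.cj.cj = z ∧ S.Ym ^ 3 ≤ S.θ ^ 2 * z.p ∧ ∀ c, S.ψ c z.cj = -S.ψ c z

def FSt : Prop :=
  (∀ z ∈ S.P1, S.ok z ∧ (z.p : ℝ) ≤ S.Sz ∧ z.cj ∈ S.P1 ∧ 1 / (z.p : ℝ) ≤ S.Λ * S.n0 z ∧
    S.n0 z ≤ S.Λ / z.p ∧ S.u z < S.K * S.r ∧ |Real.log z.p - S.L1 - S.lam * S.u z| ≤ S.lam) ∧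
  (∀ c, ∀ x ∈ S.St c, Nd x ∧ S.Sm 1 x ∧ 0 ≤ S.w c x ∧ x.map Pt.cj ∈ S.St c ∧
    S.w c (x.map Pt.cj) = S.w c x) ∧
  (∀ h, ∀ x ∈ S.St (some h), S.w (some h) x ≤ S.Λ ∧ ∃ z ∈ S.P1, x = {z}) ∧
  (∀ c, ∑ x ∈ S.St c, S.w c x * PT x = 1) ∧
  ∀ T ∈ S.St none, ∀ z ∈ S.P1, ∀ z' ∈ T, z'.p ≠ z.p

end fields

def SEq : Prop := EqS → PcAS → ∀ D : Dat, D.Raw → FEq D.sys
def SLk : Prop := ScS → LkS → CntS → ∀ D : Dat, D.Raw → FLk D.sys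
def SLn : Prop := ApiS → ScS → PcS → ZerS → ∀ D : Dat, D.Raw → FLn D.sys
def SR1 : Prop := ScS → LkS → CelS → ∀ D : Dat, D.Raw → FR1 D.sys
def SR2 : Prop := ScS → LkS → ∀ D : Dat, D.Raw → FR2 D.sys
def SAr : Prop := ApiS → NrS → ScS → CelS → ∀ D : Dat, D.Raw → FAr D.sys
def SId : Prop := ApiS → IdS → PtS → ∀ D : Dat, D.Raw → FId D.sys
def SSt : Prop := PtS → ScS → BlkS → ∀ D : Dat, D.Raw → FSt D.sys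
def SOk : Prop := ScS → ∀ D : Dat, D.Raw → FEq D.sys → FLk D.sys → FLn D.sys → FR1 D.sys →
  FR2 D.sys → FAr D.sys → FId D.sys → FSt D.sys → D.sys.Ok

end Pool.Agent.MP_f3836a_nt.VE
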