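import Pool.Agent.MP_f3836a_nt.VE.SpecE3

/-! Part E: the order of the constants. -/

set_option autoImplicit false

namespace Pool.Agent.MP_f3836a_nt.VE

open Polynomial Finset

/-- rigidity of the concrete system -/
def RigC (AF : ℕ) : Prop := ∀ D : Dat, D.Raw → D.η * D.Λ ^ AF ≤ 1 →
  D.θ * D.M ^ 3 * D.Λ ^ AF ≤ D.η ^ 2 → D.c0 = 0

/-- the constants at one level -/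
structure CtOk (t0 : ℤ) (p0 J' m AF N M0 M1 E1 A' N' M1' k1 k1' kM W κ0 J0 : ℕ)
    (Cb1 Cb2 Cb Λ3 Λa ε0 di : ℝ) (l : Lv) : Prop where
  nat : 1 ≤ N ∧ 2 ≤ E1 ∧ E1 * N ≤ A'
  w : 0 < W ∧ 6 ∣ W ∧ p0 ∣ W ∧ ¬p0 ^ (J' + 1) ∣ W
  cb : 1 ≤ Cb1 ∧ Cb1 ≤ Cb ∧ 1 ≤ Cb2 ∧ Cb2 ≤ Cb ∧ 2 * (M0 : ℝ) ^ 3 ≤ Cb ∧ 1 ≤ Λ3 ∧ 4 * Λ3 ≤ Cb ∧
    400 * (m : ℝ) + 100 ≤ Cb ∧ (N : ℝ) ≤ Cb ∧ 0 < Λa ∧ Λa ≤ Cb ∧ 4 * (2 * (E1 : ℝ)) ^ N * Λ3 ≤ Cb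
  len : k1' ≤ κ0 ∧ 2 * A' * (22 * m + 760) ≤ κ0 ∧
    2 * A' * (N + k1 + 400 * (2 * N + 5) ^ 2 + 2) ≤ κ0 ∧ 40 * m + 2 * l.κ ≤ kM
  lv : LvOk Cb AF N' κ0 J0 A' N (max k1 k1') di l
  d : 0 < di ∧ di ≤ 1 ∧ 0 < ε0 ∧ ε0 ≤ l.e0
  ar : ∀ J, J0 ≤ J → ArC (2 * m) J (4 * Λ3) Λa
  eta : ∃ q0 Y1 : ℝ, ∀ (k0 : ℕ) (Y : ℝ), Y1 ≤ Y → Sc W k0 Y →
    EtaC t0 W k0 Y (l.θ ^ 2 / (2 * Λ3)) (Cb * l.Λ) q0 (max M1 M1') (8 * N)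

/-- a scale -/
structure SclC (W A' k0 : ℕ) (Y Y0 Ym ε0 : ℝ) : Prop where
  sc : Sc W k0 Y
  pow : Y0 ^ A' = Y ∧ Ym ^ 10 = Y0
  le : 1 < Ym ∧ Ym ≤ Y0 ∧ Y0 ≤ Y ∧ Real.log (2 * Y ^ 21) ≤ Ym ∧ Y ^ ε0 ≤ Ym ∧ Y0 ^ ε0 ≤ Ym
  r : ∀ K E : ℕ, 0 < K → 1 ≤ E → 4 * (K : ℝ) ≤ Y → ∃ r : ℕ, 2 ≤ r ∧ 2 ∣ r ∧ Y ^ E ≤ (K * r : ℕ) ∧
    ((K * r : ℕ) : ℝ) ≤ Y ^ (E + 1)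

/-- the conclusion at one level -/
def TopL : Prop := ∀ (f : ℤ[X]) (t0 : ℤ) (A0 p0 J' m J e e' : ℕ) (As Bs : ℤ[X])
  (ϖ : ℤ√(-(A0 : ℤ))) (ψ : ℤ → ℤ → Pt → ℝ) (ψ0 : Pt → ℝ) (φ : ℤ[X] → ℤ[X] → Pt → ℝ)
  (c : ℤ[X] → ℤ[X] → ℂ → ℝ) (c0 : ℝ) (AF N M0 M1 Mx E1 A' N' M1' k1 k1' kM W κ0 J0 : ℕ)
  (Cb1 Cb2 Cb Λ3 Λa ε0 di : ℝ) (l : Lv), Crv f t0 A0 → p0.Prime →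
  PAc t0 A0 p0 J' m J e e' As Bs ϖ → Ids f t0 p0 m J e e' As Bs ψ ψ0 φ c c0 → RigC AF →
  CtOk t0 p0 J' m AF N M0 M1 E1 A' N' M1' k1 k1' kM W κ0 J0 Cb1 Cb2 Cb Λ3 Λa ε0 di l →
  ∃ Yl : ℝ, ∀ (k0 : ℕ) (Y Y0 Ym : ℝ) (d : ℕ → ℝ) (i : ℕ) (o : ℤ → MO) (H2 : Finset ℤ), Yl ≤ Ym →
    SclC W A' k0 Y Y0 Ym ε0 → 2 * Real.log Y0 ≤ Zm (PtsOn f Y0 (Y0 ^ E1) t0 1) →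
    Zm (PtsOn f Y0 (Y0 ^ E1) t0 1) ≤ 2 * E1 * Real.log Y0 →
    (∀ TT0, TOk f t0 W Y0 N E1 (1 / (4 * (2 * E1) ^ N * (2 * Λ3))) TT0 → ∃ ob : BO,
      BOk f t0 A0 W Y0 N E1 (200 * A') N' M1' ((84 * m + 703) * A') k1' kM Cb2 ε0 TT0 ob) →
    d i = di → d (i + 1) = l.d' → H2 ⊆ HH0 t0 W k0 → Lc W k0 ≤ Λ3 * H2.card →
    (∀ a ∈ H2, MOk f W k0 Y N M0 M1 Mx (84 * m + 703) k1 kM Cb1 ε0 d a (o a) ∧ (o a).i = i ∧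
      ∃ T ∈ Blk (PtsOn f Y0 (Y0 ^ E1) t0 1) N, (o a).adm a ((k0 : ℤ) ^ 2) T) → c0 = 0

def OfTopL : Prop := XDelS → XTTS → XHS → XFamS → BaseS → NgS → HtS → ScS → MertS → TopL

def OfCore : Prop := (∃ AF, RigC AF) → TopL → MainC → BaseC → LevS → LvS → WS → SclS → S2S →
  RichS → GoodS → SigS → EtaS → BC.ArS → ScS → Core

end Pool.Agent.MP_f3836a_nt.VE
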