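import Pool.Agent.MP_f3836a_nt.VE.SpecD

/-! Part F, first half: finite inequalities which do not mention curves. -/

set_option autoImplicit false

namespace Pool.Agent.MP_f3836a_nt.VE.F

open Finset

/-! ### the Pexider inequality and the model -/

/-- almost additive functions on an interval are almost linear -/
def HuS : Prop := ∀ (n : ℕ) (l : ℕ → ℝ) (c : ℝ),
  (∀ t t', t + t' ≤ n → |l (t + t') - l t - l t'| ≤ c) → ∃ s : ℝ, ∀ t ≤ n, |l t - s * t| ≤ 3 * c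

/-- the Pexider inequality -/
def PexS (C : ℝ) : Prop := ∀ (U : ℕ) (b V : ℕ → ℝ), 0 < U → ∃ e s : ℝ,
  (∑ u ∈ range U, (b u - e - s * u) ^ 2) / U
    ≤ C * ((∑ u ∈ range U, ∑ u' ∈ range U, (b u + b u' - V (u + u')) ^ 2) / (U : ℝ) ^ 2)

/-- the quadratic form of a random tuple on `K` cells -/
noncomputable def Qm (κ K : ℕ) (F1 : ℕ → ℝ) (F2 : ℕ → ℕ → ℝ) (β : ℕ → ℝ) (V : ℝ) : ℝ :=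
  κ * (∑ d ∈ range K, F1 d * β d ^ 2) / K
    + κ * ((κ : ℝ) - 1) * (∑ d ∈ range K, ∑ d' ∈ range K, F2 d d' * β d * β d') / (K : ℝ) ^ 2
    + 2 * κ * V * (∑ d ∈ range K, F1 d * β d) / K + V ^ 2 * (∑ d ∈ range K, F1 d) / K

/-- the form of the uniform model dominates the two variable form -/
def ModXS : Prop := ∀ (U k : ℕ) (v : ℤ) (b : ℕ → ℝ) (V : ℝ), 0 < U → ∃ W : ℕ → ℝ,
  (∑ u ∈ range U, ∑ u' ∈ range U, Fu U k (v - u - u') * (b u + b u' - W (u + u')) ^ 2) / (U : ℝ) ^ 2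
    ≤ Qm (k + 2) U (fun u => Fu U (k + 1) (v - u)) (fun u u' => Fu U k (v - u - u')) b V

/-- cell averages of the model -/
noncomputable def G1 (K r k : ℕ) (v : ℤ) (d : ℕ) : ℝ :=
  (∑ i ∈ range r, Fu (K * r) (k + 1) (v - (d * r + i : ℕ))) / r

noncomputable def G2 (K r k : ℕ) (v : ℤ) (d d' : ℕ) : ℝ :=
  (∑ i ∈ range r, ∑ i' ∈ range r,
    Fu (K * r) k (v - (d * r + i : ℕ) - (d' * r + i' : ℕ))) / (r : ℝ) ^ 2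

/-- the properties of the model on cells -/
structure Md (Λ : ℝ) (κ K : ℕ) (F1 : ℕ → ℝ) (F2 : ℕ → ℕ → ℝ) : Prop where
  big : 100 ≤ Λ
  kap : 2 ≤ κ ∧ (κ : ℝ) ≤ Λ
  pos : 0 < K
  f1 : ∀ d < K, 1 / Λ ≤ F1 d ∧ F1 d ≤ Λ
  f2 : ∀ d d', 0 ≤ F2 d d' ∧ F2 d d' ≤ Λ ∧ F2 d d' = F2 d' d
  low : ∀ (β : ℕ → ℝ) (V : ℝ), ∃ e s : ℝ,
    (∑ d ∈ range K, (β d - e - s * d) ^ 2) / K + s ^ 2 ≤ Λ * Qm κ K F1 F2 β V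

/-- the uniform model is rigid -/
def ModAS (A : ℕ) : Prop := ∀ (K r k : ℕ) (v : ℤ) (Λ : ℝ), 100 ≤ Λ → 0 < K → 2 ≤ r → 2 ≤ k →
  (k : ℝ) + 2 ≤ Λ → (∀ t : ℕ, t < 2 * (K * r) → 1 / Λ ≤ Fu (K * r) k (v - t)) →
  Md (Λ ^ A) (k + 2) K (G1 K r k v) (G2 K r k v)

/-- the model is close to its cell averages -/
def ModBS : Prop := ∀ (K r k : ℕ) (v : ℤ) (u u' : ℕ), 0 < K → 0 < r → 2 ≤ k →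
  |Fu (K * r) (k + 1) (v - u) - G1 K r k v (u / r)| ≤ 1 / K ∧
  |Fu (K * r) k (v - u - u') - G2 K r k v (u / r) (u' / r)| ≤ 2 / K

/-! ### the frame inequality -/

/-- least squares -/
def LsqS : Prop := ∀ {ι : Type} (ZZ : Finset ι) (n b lq : ι → ℝ), (∀ z ∈ ZZ, 0 ≤ n z) →
  ∃ e s : ℝ, ∀ e' s' : ℝ, ∑ z ∈ ZZ, n z * (b z - e - s * lq z) ^ 2
    ≤ ∑ z ∈ ZZ, n z * (b z - e - s * lq z - e' - s' * lq z) ^ 2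

/-- weighted points distributed in `K` cells, with logarithms -/
structure Pd {ι : Type} (ZZ : Finset ι) (n : ι → ℝ) (d : ι → ℕ) (K : ℕ) (lq : ι → ℝ)
    (L lam η : ℝ) : Prop where
  nn : ∀ z ∈ ZZ, 0 ≤ n z
  lt : ∀ z ∈ ZZ, d z < K
  eq : ∀ i < K, |∑ z ∈ ZZ, ind (d z = i) * n z - 1 / K| ≤ η / K
  lam_pos : 0 < lam
  lg : ∀ z ∈ ZZ, |lq z - L - lam * d z| ≤ lam

/-- `b` is orthogonal to the affine functions of the logarithm -/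
def Mn {ι : Type} (ZZ : Finset ι) (n b lq : ι → ℝ) : Prop :=
  ∀ e s : ℝ, ∑ z ∈ ZZ, n z * b z ^ 2 ≤ ∑ z ∈ ZZ, n z * (b z - e - s * lq z) ^ 2

/-- the ideal quadratic form on the points -/
noncomputable def Qn {ι : Type} (ZZ : Finset ι) (n : ι → ℝ) (d : ι → ℕ) (κ : ℕ) (F1 : ℕ → ℝ)
    (F2 : ℕ → ℕ → ℝ) (b : ι → ℝ) (V : ℝ) : ℝ :=
  κ * (∑ z ∈ ZZ, n z * F1 (d z) * b z ^ 2)
    + κ * ((κ : ℝ) - 1) * (∑ z ∈ ZZ, ∑ z' ∈ ZZ, n z * n z' * F2 (d z) (d z') * b z * b z')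
    + 2 * κ * V * (∑ z ∈ ZZ, n z * F1 (d z) * b z) + V ^ 2 * ∑ z ∈ ZZ, n z * F1 (d z)

def QcS (A : ℕ) : Prop := ∀ {ι : Type} (ZZ : Finset ι) (n b lq : ι → ℝ) (d : ι → ℕ) (κ K : ℕ)
  (F1 : ℕ → ℝ) (F2 : ℕ → ℕ → ℝ) (Λ L lam η V : ℝ), Md Λ κ K F1 F2 → Pd ZZ n d K lq L lam η →
  η ≤ 1 / 2 → Mn ZZ n b lq →
  ∑ z ∈ ZZ, n z * b z ^ 2
    ≤ Λ ^ A * (Qn ZZ n d κ F1 F2 b V + Λ ^ A * η * (∑ z ∈ ZZ, n z * b z ^ 2 + V ^ 2))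

section tuples

variable {Ω ι Cl : Type} [Fintype Ω] [Fintype Cl] {κ : ℕ}

/-- one point marginal of a random tuple -/
noncomputable def M1 (m : Ω → ℝ) (Z : Ω → Fin κ → ι) (cl : Ω → Cl) (i : Fin κ) (z : ι) (c : Cl) :
    ℝ := ∑ ω, m ω * ind (Z ω i = z ∧ cl ω = c)

/-- two point marginal of a random tuple -/
noncomputable def M2 (m : Ω → ℝ) (Z : Ω → Fin κ → ι) (i j : Fin κ) (z z' : ι) : ℝ :=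
  ∑ ω, m ω * ind (Z ω i = z ∧ Z ω j = z')

/-- deviation of the marginals from the model -/
noncomputable def Dm (m : Ω → ℝ) (Z : Ω → Fin κ → ι) (cl : Ω → Cl) (ZZ : Finset ι) (n f1 : ι → ℝ)
    (f2 : ι → ι → ℝ) (mc : Cl → ℝ) (i j : Fin κ) (z : ι) : ℝ :=
  ∑ c, |M1 m Z cl i z c - n z * f1 z * mc c| + ∑ z' ∈ ZZ, |M2 m Z i j z z' - n z * n z' * f2 z z'|

/-- a random tuple with values in `ZZ` -/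
structure Tp (m : Ω → ℝ) (Z : Ω → Fin κ → ι) (ZZ : Finset ι) (mc : Cl → ℝ) : Prop where
  nn : ∀ ω, 0 ≤ m ω
  sup : ∀ ω, m ω ≠ 0 → ∀ i, Z ω i ∈ ZZ
  mc0 : ∀ c, 0 ≤ mc c
  mc1 : ∑ c, mc c = 1

/-- the true quadratic form -/
noncomputable def Qt (m : Ω → ℝ) (Z : Ω → Fin κ → ι) (cl : Ω → Cl) (b : ι → ℝ) (V : Cl → ℝ) : ℝ :=
  ∑ ω, m ω * (∑ i, b (Z ω i) + V (cl ω)) ^ 2

end tuples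

/-- comparison of the true and the ideal form -/
def QxS : Prop := ∀ {Ω ι Cl : Type} [Fintype Ω] [Fintype Cl] {κ : ℕ} (m : Ω → ℝ)
  (Z : Ω → Fin κ → ι) (cl : Ω → Cl) (ZZ : Finset ι) (n b : ι → ℝ) (d : ι → ℕ) (F1 : ℕ → ℝ)
  (F2 : ℕ → ℕ → ℝ) (mc V : Cl → ℝ) (δ R : ℝ), 2 ≤ κ → Tp m Z ZZ mc → (∀ z ∈ ZZ, 0 ≤ n z) →
  (∀ d d', F2 d d' = F2 d' d) → 0 ≤ δ → (∀ c, V c ^ 2 ≤ R) →
  (∀ i j, i ≠ j → ∀ z ∈ ZZ,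
    Dm m Z cl ZZ n (fun z => F1 (d z)) (fun z z' => F2 (d z) (d z')) mc i j z ≤ δ * n z) →
  |Qt m Z cl b V - (Qn ZZ n d κ F1 F2 b (∑ c, mc c * V c)
      + (∑ c, mc c * (V c - ∑ c', mc c' * V c') ^ 2) * ∑ z ∈ ZZ, n z * F1 (d z))|
    ≤ 3 * (κ : ℝ) ^ 2 * δ * (∑ z ∈ ZZ, n z * b z ^ 2 + R * ∑ z ∈ ZZ, n z) ∧
  |∑ ω, m ω - ∑ z ∈ ZZ, n z * F1 (d z)| ≤ δ * ∑ z ∈ ZZ, n z ∧
  ∑ ω, m ω * (∑ i, b (Z ω i)) ^ 2 ≤ (κ : ℝ) ^ 2 * ∑ z ∈ ZZ, n z * (F1 (d z) + δ) * b z ^ 2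

/-- the frame inequality -/
def FrS (A : ℕ) : Prop := ∀ {Ω ι Cl : Type} [Fintype Ω] [Fintype Cl] {κ : ℕ} (m : Ω → ℝ)
  (Z : Ω → Fin κ → ι) (cl : Ω → Cl) (ZZ : Finset ι) (n b lq : ι → ℝ) (d : ι → ℕ) (K : ℕ)
  (F1 : ℕ → ℝ) (F2 : ℕ → ℕ → ℝ) (mc V : Cl → ℝ) (Λ L lam η S : ℝ), Md Λ κ K F1 F2 →
  Pd ZZ n d K lq L lam η → Tp m Z ZZ mc → Mn ZZ n b lq → 0 ≤ η → η * Λ ^ A ≤ 1 →
  (∀ i j, i ≠ j → ∀ z ∈ ZZ,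
    Dm m Z cl ZZ n (fun z => F1 (d z)) (fun z z' => F2 (d z) (d z')) mc i j z ≤ η * n z) →
  (∀ c c', |V c - V c'| ≤ S) → (∀ e, S ^ 2 ≤ Λ * ∑ c, mc c * (V c - e) ^ 2) →
  ∑ z ∈ ZZ, n z * b z ^ 2 ≤ Λ ^ A * Qt m Z cl b V ∧ S ^ 2 ≤ Λ ^ A * Qt m Z cl b V ∧
    ∀ c, V c ^ 2 ≤ Λ ^ A * Qt m Z cl b V

/-- a random tuple whose marginals deviate little from the model -/
structure Gt {Ω ι Cl : Type} [Fintype Ω] [Fintype Cl] {κ : ℕ} (m : Ω → ℝ) (Z : Ω → Fin κ → ι)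
    (cl : Ω → Cl) (ZZ : Finset ι) (n f1 : ι → ℝ) (f2 : ι → ι → ℝ) (d : ι → ℕ) (K : ℕ) (F1 : ℕ → ℝ)
    (F2 : ℕ → ℕ → ℝ) (mc : Cl → ℝ) (D : ι → ℝ) (Λ η e : ℝ) : Prop where
  md : Md Λ κ K F1 F2
  tp : Tp m Z ZZ mc
  pos : ∀ z ∈ ZZ, 0 < n z
  lt : ∀ z ∈ ZZ, d z < K
  c1 : ∀ z ∈ ZZ, 0 ≤ f1 z ∧ f1 z ≤ Λ ∧ |f1 z - F1 (d z)| ≤ η
  c2 : ∀ z ∈ ZZ, ∀ z' ∈ ZZ, 0 ≤ f2 z z' ∧ f2 z z' ≤ Λ ∧ |f2 z z' - F2 (d z) (d z')| ≤ η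
  dv : ∀ i j, i ≠ j → ∀ z ∈ ZZ, Dm m Z cl ZZ n f1 f2 mc i j z ≤ D z
  tot : ∑ z ∈ ZZ, D z ≤ e ^ 2
  eq : ∑ i ∈ range K, |∑ z ∈ ZZ, ind (d z = i) * n z - 1 / K| ≤ e
  sm : 0 < e ∧ e ≤ 1 ∧ 0 ≤ η

/-- pruning -/
def PruS : Prop := ∀ {Ω ι Cl : Type} [Fintype Ω] [Fintype Cl] {κ : ℕ} (m : Ω → ℝ)
  (Z : Ω → Fin κ → ι) (cl : Ω → Cl) (ZZ : Finset ι) (n f1 : ι → ℝ) (f2 : ι → ι → ℝ) (d : ι → ℕ)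
  (K : ℕ) (F1 : ℕ → ℝ) (F2 : ℕ → ℕ → ℝ) (mc : Cl → ℝ) (D : ι → ℝ) (Λ η e : ℝ),
  Gt m Z cl ZZ n f1 f2 d K F1 F2 mc D Λ η e →
  (∀ i j, i ≠ j → ∀ z ∈ ZZ.filter fun z => D z ≤ e * n z,
    Dm (fun ω => m ω * ind (∀ i, D (Z ω i) ≤ e * n (Z ω i))) Z cl
      (ZZ.filter fun z => D z ≤ e * n z) n (fun z => F1 (d z)) (fun z z' => F2 (d z) (d z')) mc i j z
      ≤ (Λ ^ 3 * e + 3 * η) * n z) ∧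
  (∀ i < K, |∑ z ∈ ZZ.filter fun z => D z ≤ e * n z, ind (d z = i) * n z - 1 / K| ≤ 2 * e) ∧
  ∑ ω, m ω ≤ 3 * Λ ∧
  ∀ i, ∀ z ∈ ZZ, D z ≤ e * n z → ∑ ω, m ω * ind (Z ω i = z) ≤ 2 * Λ * n z

/-- the main inequality for one big curve -/
def SgS (A : ℕ) : Prop := ∀ {Ω ι Cl : Type} [Fintype Ω] [Fintype Cl] {κ : ℕ} (m : Ω → ℝ)
  (Z : Ω → Fin κ → ι) (cl : Ω → Cl) (ZZ : Finset ι) (n f1 : ι → ℝ) (f2 : ι → ι → ℝ) (d : ι → ℕ)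
  (K : ℕ) (F1 : ℕ → ℝ) (F2 : ℕ → ℕ → ℝ) (mc : Cl → ℝ) (D : ι → ℝ) (Λ η e : ℝ)
  (b lq Sz : ι → ℝ) (Sc : Cl → ℝ) (F uu la : Ω → ℝ) (L lam M : ℝ) (P : Prop),
  Gt m Z cl ZZ n f1 f2 d K F1 F2 mc D Λ η e → (K : ℝ) ≤ M → (Fintype.card Cl : ℝ) ≤ M →
  η * Λ ^ A ≤ 1 → e * M * Λ ^ A ≤ η → 0 < lam → (∀ z ∈ ZZ, |lq z - L - lam * d z| ≤ lam) →
  (∀ ω, m ω ≠ 0 → F ω = ∑ i, b (Z ω i) + uu ω ∧ la ω = ∑ i, lq (Z ω i)) →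
  (∀ s : ℝ, ∃ (S : ℝ) (U : Cl → ℝ), 0 ≤ S ∧ (∀ ω, |uu ω + s * la ω - U (cl ω)| ≤ η * S) ∧
    (∀ c c', |U c - U c'| ≤ S) ∧ (∀ x, S ^ 2 ≤ Λ * ∑ c, mc c * (U c - x) ^ 2) ∧
    (S = 0 → s = 0 ∧ P ∧ ∃ c, U c = 0)) →
  (∀ i, ∀ z ∈ ZZ, ∑ ω, m ω * ind (Z ω i = z) * F ω = Sz z) →
  (∀ c, ∑ ω, m ω * ind (cl ω = c) * F ω = Sc c) →
  ∑ ω, m ω * F ω ^ 2 ≤ Λ ^ A * (∑ z ∈ ZZ, Sz z ^ 2 / n z + M * ∑ c, Sc c ^ 2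
    + ∑ ω, m ω * ind (∃ i, e * n (Z ω i) < D (Z ω i)) * F ω ^ 2) ∧
  ((∀ ω, m ω ≠ 0 → F ω = 0) → P ∧ ∀ z ∈ ZZ, D z ≤ e * n z → b z = 0)

/-- connectivity of a weighted bipartite graph -/
def ConS : Prop := ∀ {G H : Type} [Fintype H] (Gs : Finset G) (ϱ f Ψ : H → ℝ) (Y Gm : G → H → ℝ)
  (gd : G → Prop) (Φ : G → ℝ) (Λ δ P : ℝ), Gs.Nonempty → 1 ≤ Λ → 0 < P → 0 ≤ δ →
  64 * Λ ^ 4 * δ ≤ 1 → (∀ h, 0 ≤ ϱ h) → (∀ h, ϱ h ≠ 0 → 0 < f h) →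
  (∀ g h, 0 ≤ Gm g h ∧ Gm g h ≤ Y g h) →
  (∀ g ∈ Gs, gd g → (∀ h, ϱ h ≠ 0 → Gm g h ≠ 0 → Ψ h = Φ g) ∧
    ∑ h, ϱ h * (Y g h - Gm g h) ≤ δ * P ∧ P / (2 * Λ ^ 2) ≤ ∑ h, ϱ h * Gm g h) →
  (∀ a : H → ℝ, ∑ h, ϱ h * a h * f h = 0 →
    (∑ g ∈ Gs, (∑ h, ϱ h * a h * Y g h) ^ 2) / Gs.card ≤ δ * P ^ 2 * ∑ h, ϱ h * a h ^ 2) →
  (∀ h, ϱ h ≠ 0 → (∑ g ∈ Gs, Y g h) / Gs.card ≤ 2 * Λ * P ∧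
    P / (4 * Λ) ≤ (∑ g ∈ Gs, ind (gd g) * Gm g h) / Gs.card) →
  ∃ β : ℝ, (∀ h, ϱ h ≠ 0 → Ψ h = β) ∧ ∀ g ∈ Gs, gd g → Φ g = β

def OfPex : Prop := HuS → ∃ C, PexS C
def OfModA : Prop := ModXS → ∀ C, PexS C → ∃ A, ModAS A
def OfQc : Prop := ∃ A, QcS A
def OfFr : Prop := QxS → ∀ A, QcS A → ∃ A', FrS A'
def OfSg : Prop := LsqS → PruS → ∀ A, FrS A → ∃ A', SgS A'

end Pool.Agent.MP_f3836a_nt.VE.F
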