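import Pool.Agent.MP_f3836a_nt.VE.SpecF

/-! Part F: the intermediate statements on a system. -/

set_option autoImplicit false

namespace Pool.Agent.MP_f3836a_nt.VE.F

open Finset

namespace Sys

variable {G H Cl : Type} (S : Sys G H Cl)

/-- weight of a tuple -/
noncomputable def mw (c : Option H) (T : Multiset Pt) (g : G) {j : ℕ} (s : Fin j → S.St c) : ℝ :=
  (∏ i, S.w c (s i)) * ind (S.Ev g c (T + ∑ i, (s i).1)) / S.ρ c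

/-- weighted sum of a function of the tuple -/
noncomputable def TY (c : Option H) (T : Multiset Pt) (j : ℕ) (g : G)
    (F : (Fin j → S.St c) → ℝ) : ℝ := ∑ s, S.mw c T g s * F s

/-- degenerate points -/
def Dg (c : Option H) (T : Multiset Pt) (z : Pt) : Prop := (∃ z' ∈ T, z'.p = z.p) ∨ S.on c z

/-- an anchor -/
def An (c : Option H) (T : Multiset Pt) (j : ℕ) : Prop := S.ad c T j ∧ Nd T ∧ S.Sm 2 T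

/-- deviation of the zeros of `g` from equidistribution -/
noncomputable def dev0 (g : G) : ℝ :=
  ∑ i ∈ range S.K, |∑ z ∈ S.P1, ind (S.zr g z) * (ind (S.d z = i) * S.n0 z) - 1 / S.K|

variable [Fintype H] [Fintype Cl]

noncomputable def N1 (g : G) (z : Pt) (c : Cl) : ℝ :=
  S.σ * ∑ h, ind (S.cell h = c) * S.wz h z * S.Y (some h) {z} (S.k + 1) g

noncomputable def N2 (g : G) (z z' : Pt) : ℝ :=
  S.σ * ∑ h, S.wz h z * S.wz h z' * S.Y (some h) (z' ::ₘ {z}) S.k g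

noncomputable def dva (g : G) (z : Pt) : ℝ := ∑ c, |S.N1 g z c - S.n0 z * S.f1 z * S.mc c|

noncomputable def dvb (g : G) (z : Pt) : ℝ :=
  ∑ z' ∈ S.P1, ind (S.zr g z') * |S.N2 g z z' - S.n0 z * S.n0 z' * S.f2 z z'|

noncomputable def dev1 (g : G) (z : Pt) : ℝ := S.dva g z + S.dvb g z

noncomputable def tot1 (g : G) : ℝ := ∑ z ∈ S.P1, ind (S.zr g z) * S.dev1 g z

noncomputable def dev2 (g : G) (T : Multiset Pt) : ℝ :=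
  |S.σ * ∑ h, ind (S.adm h T) * (S.Y (some h) T (S.k + 2) g - S.fm (some h) T (S.k + 2))|
    + ∑ z ∈ S.P1, ind (S.zr g z) * |S.σ * ∑ h, ind (S.adm h T) * S.wz h z
      * (S.Y (some h) (z ::ₘ T) (S.k + 1) g - S.fm (some h) (z ::ₘ T) (S.k + 1))|

/-- good big curves -/
def good (e : ℝ) (g : G) : Prop := S.tot1 g ≤ e ^ 2 ∧ S.dev0 g ≤ e

/-- bad pairs of the first kind -/
def b1 (e : ℝ) (g : G) (z : Pt) : Prop := ¬S.good e g ∨ e * S.n0 z < S.dev1 g z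

/-- bad pairs of the second kind -/
def b2 (e : ℝ) (g : G) (T : Multiset Pt) : Prop := ¬S.good e g ∨ e * PT T < S.dev2 g T

/-- the order of the parameters -/
def Par (A : ℕ) (e : ℝ) : Prop := 0 < e ∧ S.η * S.Λ ^ A ≤ 1 ∧ e * S.M * S.Λ ^ A ≤ S.η ∧
  S.θ * S.M * S.Λ ^ A ≤ e ^ 2

/-- the defect of `ψ` -/
def aa (α : Pt → ℝ) (h : H) (z : Pt) : ℝ := S.ψ (some h) z - α z

/-- its square norm -/
noncomputable def nrm2 (α : Pt → ℝ) : ℝ :=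
  S.σ * ∑ h, ∑ z ∈ S.P1, S.wz h z / z.p * S.aa α h z ^ 2

noncomputable def SZ (α : Pt → ℝ) (g : G) (z : Pt) : ℝ :=
  S.σ * ∑ h, S.wz h z * S.aa α h z * S.Y (some h) {z} (S.k + 1) g
    + (S.k + 1) * (S.σ * ∑ h, ∑ z' ∈ S.P1,
      S.wz h z * S.wz h z' * S.aa α h z' * S.Y (some h) (z' ::ₘ {z}) S.k g)

noncomputable def SC (α : Pt → ℝ) (g : G) (c : Cl) : ℝ :=
  (S.k + 2) * (S.σ * ∑ h, ∑ z ∈ S.P1,
    ind (S.cell h = c) * S.wz h z * S.aa α h z * S.Y (some h) {z} (S.k + 1) g)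

/-- events of the first kind -/
abbrev Om : Type := Σ h : H, Fin (S.k + 2) → S.St (some h)

noncomputable def mo (g : G) (ω : S.Om) : ℝ := S.σ * S.mw (some ω.1) 0 g ω.2

def Zo (ω : S.Om) (i : Fin (S.k + 2)) : Pt := pt (ω.2 i)

noncomputable def Fo (α : Pt → ℝ) (ω : S.Om) : ℝ := ∑ i, S.aa α ω.1 (S.Zo ω i)

/-- the conclusion of the first stage -/
def Rig (e : ℝ) (α : Pt → ℝ) : Prop := (∀ h z, S.wz h z ≠ 0 → S.ψ (some h) z = α z) ∧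
  ∀ g ∈ S.Gs, S.good e g → (∀ c, S.ua g c = 0) ∧
    ∀ z ∈ S.P1, S.zr g z → ¬S.b1 e g z → S.φ g z = α z

/-- events of the second kind all of whose points are good -/
noncomputable def Gm (e : ℝ) (T : Multiset Pt) (g : G) (h : H) : ℝ :=
  S.TY (some h) T (S.k + 2) g fun s => ind (∀ i, ¬S.b1 e g (pt (s i)))

end Sys

/-! ### second moments -/

def VarS (A : ℕ) : Prop := ∀ {G H Cl : Type} [Fintype H] [Fintype Cl] (S : Sys G H Cl), S.Ok →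
  ∀ (c : Option H) (Ta T T' : Multiset Pt) (ja j : ℕ) (cf : H → ℝ) (B : ℝ), Nd T → S.Sm 8 T →
  S.Cf c Ta ja T → T' ≤ T → (∀ h, |cf h| ≤ B) → (∀ h, cf h ≠ 0 → S.ad (some h) T' j) →
  S.E (fun g => S.I T g * S.Y c Ta ja g
      * (S.σ * ∑ h, cf h * (S.Y (some h) T' j g - S.fm (some h) T' j)) ^ 2)
    ≤ B ^ 2 * S.Λ ^ A * S.θ ^ 2 * (PT T * PT T' ^ 2)

def Bil0S (A : ℕ) : Prop := ∀ {G H Cl : Type} [Fintype H] [Fintype Cl] (S : Sys G H Cl), S.Ok →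
  ∀ (T : Multiset Pt) (j : ℕ) (r a : H → ℝ) (B : ℝ), Nd T → S.Sm 8 T →
  (∀ h, 0 ≤ r h ∧ r h ≤ B) → (∀ h, r h ≠ 0 → S.ad (some h) T j) →
  ∑ h, r h * a h * S.fm (some h) T j = 0 →
  S.E (fun g => (S.σ * ∑ h, r h * a h * S.Y (some h) T j g) ^ 2)
    ≤ B * S.Λ ^ A * S.θ ^ 2 * PT T ^ 2 * (S.σ * ∑ h, r h * a h ^ 2)

def Bil1S (A : ℕ) : Prop := ∀ {G H Cl : Type} [Fintype H] [Fintype Cl] (S : Sys G H Cl), S.Ok →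
  ∀ (T : Multiset Pt) (j : ℕ) (r a : H → Pt → ℝ) (B : ℝ), Nd T → S.Sm 2 T →
  (∀ h z, 0 ≤ r h z ∧ r h z ≤ B) →
  (∀ h, ∀ z ∈ S.P1, r h z ≠ 0 → S.ad (some h) (z ::ₘ T) j ∧ Nd (z ::ₘ T)) →
  ∑ h, ∑ z ∈ S.P1, r h z * a h z * S.fm (some h) (z ::ₘ T) j / z.p = 0 →
  S.E (fun g => (S.σ * ∑ h, ∑ z ∈ S.P1, r h z * a h z * S.Y (some h) (z ::ₘ T) j g) ^ 2)
    ≤ B * S.Λ ^ A * S.θ ^ 2 * PT T ^ 2 * (S.σ * ∑ h, ∑ z ∈ S.P1, r h z / z.p * a h z ^ 2)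

def DegS (A : ℕ) : Prop := ∀ {G H Cl : Type} [Fintype H] [Fintype Cl] (S : Sys G H Cl), S.Ok →
  ∀ (c : Option H) (T : Multiset Pt), Nd T → S.Sm 6 T →
  ∑ z ∈ S.P1, ind (S.Dg c T z) * (S.Ym ^ 3 / z.p) * S.E (S.I (z ::ₘ T))
    ≤ S.Λ ^ A * S.θ ^ 2 * PT T ∧
  ∑ z ∈ S.P1, ind (S.Dg c T z) * (S.Ym ^ 3 / (z.p : ℝ) ^ 2) ≤ S.Λ ^ A * S.θ ^ 2

/-- crude bounds -/
def CruS (A : ℕ) : Prop := ∀ {G H Cl : Type} [Fintype H] [Fintype Cl] (S : Sys G H Cl), S.Ok →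
  ∀ g ∈ S.Gs, ∀ z ∈ S.P1,
  (∀ z' ∈ S.P1, |S.N2 g z z' - S.n0 z * S.n0 z' * S.f2 z z'| ≤ S.Λ ^ A * S.Ym / (z.p * z'.p)) ∧
  S.dev1 g z ≤ S.Λ ^ A * S.Ym / z.p

/-! ### deviations -/

def DvaS (A : ℕ) : Prop := ∀ {G H Cl : Type} [Fintype H] [Fintype Cl] (S : Sys G H Cl), S.Ok →
  ∀ (c : Option H) (Ta T : Multiset Pt) (ja : ℕ), Nd T → S.Sm 4 T → S.Cf c Ta ja T →
  ∀ z ∈ S.P1, z ∈ T → S.E (fun g => S.I T g * S.Y c Ta ja g * S.dva g z)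
    ≤ S.M * S.Λ ^ A * S.θ * (S.n0 z * PT T)

def DvbS (A : ℕ) : Prop := ∀ {G H Cl : Type} [Fintype H] [Fintype Cl] (S : Sys G H Cl), S.Ok →
  ∀ (c : Option H) (Ta T : Multiset Pt) (ja : ℕ), Nd T → S.Sm 4 T → S.Cf c Ta ja T →
  ∀ z ∈ S.P1, z ∈ T → S.E (fun g => S.I T g * S.Y c Ta ja g * S.dvb g z)
    ≤ S.Λ ^ A * S.θ * (S.n0 z * PT T)

def Dv2S (A : ℕ) : Prop := ∀ {G H Cl : Type} [Fintype H] [Fintype Cl] (S : Sys G H Cl), S.Ok →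
  ∀ (c : Option H) (Ta : Multiset Pt) (ja : ℕ), S.An c Ta ja → ∀ T ∈ S.St none, T ≤ Ta →
  S.E (fun g => S.Y c Ta ja g * S.dev2 g T) ≤ S.Λ ^ A * S.θ * (PT T * PT Ta)

def Dg1S (A : ℕ) : Prop := ∀ {G H Cl : Type} [Fintype H] [Fintype Cl] (S : Sys G H Cl), S.Ok →
  ∀ (c : Option H) (Ta : Multiset Pt) (ja : ℕ), S.An c Ta ja →
  S.E (fun g => S.Y c Ta ja g * S.tot1 g) ≤ S.M * S.Λ ^ A * S.θ * PT Ta

def Dg0S (A : ℕ) : Prop := ∀ {G H Cl : Type} [Fintype H] [Fintype Cl] (S : Sys G H Cl), S.Ok →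
  ∀ (c : Option H) (Ta : Multiset Pt) (ja : ℕ), S.An c Ta ja →
  S.E (fun g => S.Y c Ta ja g * S.dev0 g) ≤ S.M * S.Λ ^ A * S.θ * PT Ta

def BadS (A : ℕ) : Prop := ∀ {G H Cl : Type} [Fintype H] [Fintype Cl] (S : Sys G H Cl), S.Ok →
  ∀ (e : ℝ) (c : Option H) (Ta : Multiset Pt) (ja : ℕ), 0 < e → e ≤ 1 → S.An c Ta ja →
  (∀ z ∈ S.P1, z ∈ Ta → S.E (fun g => S.Y c Ta ja g * ind (S.b1 e g z))
    ≤ S.M * S.Λ ^ A * S.θ / e ^ 2 * PT Ta) ∧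
  ∀ T ∈ S.St none, T ≤ Ta → S.E (fun g => S.Y c Ta ja g * ind (S.b2 e g T))
    ≤ S.M * S.Λ ^ A * S.θ / e ^ 2 * PT Ta

/-! ### one curve -/

def LowS (A : ℕ) : Prop := ∀ {G H Cl : Type} [Fintype H] [Fintype Cl] (S : Sys G H Cl), S.Ok →
  S.θ * S.Λ ^ A ≤ 1 → ∀ (c : Option H) (x0 : ℝ) (a : Multiset Pt → ℝ),
  (∀ x ∈ S.St c, a (x.map Pt.cj) = -a x) →
  (x0 ^ 2 + ∑ x ∈ S.St c, S.w c x * PT x * a x ^ 2) / (2 * S.Λ)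
    ≤ S.E fun g => S.TY c 0 (S.kk c + 2) g fun s => (x0 + ∑ i, a (s i)) ^ 2

def RemS : Prop := ∀ {G H Cl : Type} [Fintype H] [Fintype Cl] (S : Sys G H Cl), S.Ok →
  ∀ (c : Option H) (x0 e : ℝ) (a : Multiset Pt → ℝ) (bd : G → Multiset Pt → Prop), 0 ≤ e →
  (∀ x ∈ S.St c, S.E (fun g => S.Y c x (S.kk c + 1) g * ind (bd g x)) ≤ e * PT x) →
  (∀ x ∈ S.St c, ∀ x' ∈ S.St c, Nd (x + x') →
    S.E (fun g => S.Y c (x + x') (S.kk c) g * ind (bd g x')) ≤ e * PT (x + x')) →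
  (S.E fun g => S.TY c 0 (S.kk c + 2) g fun s => ind (∃ i, bd g (s i)) * (x0 + ∑ i, a (s i)) ^ 2)
    ≤ 2 * S.Λ ^ 3 * e * (x0 ^ 2 + ∑ x ∈ S.St c, S.w c x * PT x * a x ^ 2)

/-! ### the first stage -/

/-- marginals of the events of the first kind -/
def MarS : Prop := ∀ {G H Cl : Type} [Fintype H] [Fintype Cl] (S : Sys G H Cl), S.Ok →
  ∀ g ∈ S.Gs, ∀ α : Pt → ℝ,
  (∀ i, ∀ z ∈ S.P1, ∀ c, M1 (S.mo g) S.Zo (fun ω => S.cell ω.1) i z c = S.N1 g z c) ∧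
  (∀ i j, i ≠ j → ∀ z ∈ S.P1, ∀ z' ∈ S.P1, M2 (S.mo g) S.Zo i j z z' = S.N2 g z z') ∧
  (∀ i, ∀ z ∈ S.P1, ∑ ω, S.mo g ω * ind (S.Zo ω i = z) * S.Fo α ω = S.SZ α g z) ∧
  (∀ c, ∑ ω, S.mo g ω * ind (S.cell ω.1 = c) * S.Fo α ω = S.SC α g c) ∧
  (∀ ω, 0 ≤ S.mo g ω) ∧ ∀ ω, S.mo g ω ≠ 0 →
    (∀ i, S.Zo ω i ∈ S.P1 ∧ S.zr g (S.Zo ω i) ∧ S.wz ω.1 (S.Zo ω i) ≠ 0) ∧
    S.Fo α ω = ∑ i, (S.φ g (S.Zo ω i) - α (S.Zo ω i)) + S.ua g (some ω.1) ∧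
    S.la g ω.1 = ∑ i, Real.log (S.Zo ω i).p

def LnkS (A : ℕ) : Prop := ∀ {G H Cl : Type} [Fintype H] [Fintype Cl] (S : Sys G H Cl), S.Ok →
  ∀ e, S.Par A e → ∀ g ∈ S.Gs, S.good e g → ∀ α : Pt → ℝ,
  ∑ ω, S.mo g ω * S.Fo α ω ^ 2 ≤ S.Λ ^ A * (∑ z ∈ S.P1, S.SZ α g z ^ 2 / S.n0 z
    + S.M * ∑ c, S.SC α g c ^ 2
    + ∑ ω, S.mo g ω * ind (∃ i, S.b1 e g (S.Zo ω i)) * S.Fo α ω ^ 2) ∧
  ((∀ h z, S.wz h z ≠ 0 → S.ψ (some h) z = α z) → (∀ c, S.ua g c = 0) ∧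
    ∀ z ∈ S.P1, S.zr g z → ¬S.b1 e g z → S.φ g z = α z)

def AexS (A : ℕ) : Prop := ∀ {G H Cl : Type} [Fintype H] [Fintype Cl] (S : Sys G H Cl), S.Ok →
  ∀ α : Pt → ℝ, (∀ z ∈ S.P1, α z.cj = -α z) → (∀ z ∈ S.P1, ∑ h, S.wz h z * S.aa α h z = 0) →
  S.E (fun g => ∑ z ∈ S.P1, S.SZ α g z ^ 2 / S.n0 z) ≤ S.Λ ^ A * S.θ ^ 2 * S.nrm2 α ∧
  S.E (fun g => ∑ c, S.SC α g c ^ 2) ≤ S.Λ ^ A * S.θ ^ 2 * S.nrm2 α

/-- lower bound and removed part, summed over the small curves -/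
def LrS (A : ℕ) : Prop := ∀ {G H Cl : Type} [Fintype H] [Fintype Cl] (S : Sys G H Cl), S.Ok →
  ∀ e, S.Par A e → ∀ α : Pt → ℝ, (∀ z ∈ S.P1, α z.cj = -α z) →
  S.nrm2 α / (2 * S.Λ) ≤ S.E (fun g => ∑ ω, S.mo g ω * S.Fo α ω ^ 2) ∧
  S.E (fun g => ∑ ω, S.mo g ω * ind (∃ i, S.b1 e g (S.Zo ω i)) * S.Fo α ω ^ 2)
    ≤ S.M * S.Λ ^ A * S.θ / e ^ 2 * S.nrm2 α

def S1S (A : ℕ) : Prop := ∀ {G H Cl : Type} [Fintype H] [Fintype Cl] (S : Sys G H Cl), S.Ok →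
  ∀ e, S.Par A e → ∃ α, S.Rig e α

/-! ### the second stage -/

def BgS (A : ℕ) : Prop := ∀ {G H Cl : Type} [Fintype H] [Fintype Cl] (S : Sys G H Cl), S.Ok →
  ∀ e, S.Par A e → ∀ α, S.Rig e α → ∀ T ∈ S.St none, ∀ g ∈ S.Gs, ¬S.b2 e g T →
  (∀ h, S.adm h T → S.Gm e T g h ≠ 0 → (T.map (S.ψ (some h))).sum = (T.map (S.φ g)).sum) ∧
  S.σ * ∑ h, ind (S.adm h T) * (S.Y (some h) T (S.k + 2) g - S.Gm e T g h) ≤ S.Λ ^ A * e * PT T ∧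
  PT T / (2 * S.Λ ^ 2) ≤ S.σ * ∑ h, ind (S.adm h T) * S.Gm e T g h

def BeS (A : ℕ) : Prop := ∀ {G H Cl : Type} [Fintype H] [Fintype Cl] (S : Sys G H Cl), S.Ok →
  ∀ e, S.Par A e → ∀ T ∈ S.St none, ∀ h, S.adm h T →
  S.E (S.Y (some h) T (S.k + 2)) ≤ 2 * S.Λ * PT T ∧
  PT T / (4 * S.Λ) ≤ S.E fun g => ind (¬S.b2 e g T) * S.Gm e T g h

def S1tS (A : ℕ) : Prop := ∀ {G H Cl : Type} [Fintype H] [Fintype Cl] (S : Sys G H Cl), S.Ok →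
  ∀ e, S.Par A e → ∀ α, S.Rig e α → ∃ β : Multiset Pt → ℝ, ∀ T ∈ S.St none,
  β (T.map Pt.cj) = -β T ∧ ∀ g ∈ S.Gs, ¬S.b2 e g T → (T.map (S.φ g)).sum = β T

def S2S (A : ℕ) : Prop := ∀ {G H Cl : Type} [Fintype H] [Fintype Cl] (S : Sys G H Cl), S.Ok →
  ∀ e, S.Par A e → S.c0 = 0

def OfVar : Prop := ∃ A, VarS A
def OfBil0 : Prop := ∃ A, Bil0S A
def OfBil1 : Prop := ∃ A, Bil1S A
def OfDeg : Prop := ∃ A, DegS A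
def OfCru : Prop := ∃ A, CruS A
def OfDva : Prop := ∀ A, VarS A → ∃ A', DvaS A'
def OfDvb : Prop := ∀ A1 A2 A3, VarS A1 → DegS A2 → CruS A3 → ∃ A', DvbS A'
def OfDv2 : Prop := ∀ A1 A2, VarS A1 → DegS A2 → ∃ A', Dv2S A'
def OfDg1 : Prop := ∀ A1 A2 A3 A4, DvaS A1 → DvbS A2 → DegS A3 → CruS A4 → ∃ A', Dg1S A'
def OfDg0 : Prop := ∀ A, DegS A → ∃ A', Dg0S A'
def OfBad : Prop := ∀ A1 A2 A3 A4 A5, DvaS A1 → DvbS A2 → Dv2S A3 → Dg1S A4 → Dg0S A5 →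
  ∃ A', BadS A'
def OfLow : Prop := ∃ A, LowS A
def OfLnk : Prop := MarS → ModBS → ∀ A1 A2, ModAS A1 → SgS A2 → ∃ A', LnkS A'
def OfAex : Prop := ∀ A1 A2, Bil0S A1 → Bil1S A2 → ∃ A', AexS A'
def OfLr : Prop := RemS → ∀ A1 A2, LowS A1 → BadS A2 → ∃ A', LrS A'
def OfS1 : Prop := ∀ A1 A2 A3, LnkS A1 → AexS A2 → LrS A3 → ∃ A', S1S A'
def OfBg : Prop := ∃ A, BgS A
def OfBe : Prop := ∀ A, BadS A → ∃ A', BeS A'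
def OfS1t : Prop := ConS → ∀ A1 A2 A3, Bil0S A1 → BgS A2 → BeS A3 → ∃ A', S1tS A'
def OfS2 : Prop := RemS → ∀ A1 A2 A3 A4, LowS A1 → BadS A2 → S1S A3 → S1tS A4 → ∃ A', S2S A'
def OfMain : Prop := ∀ A, S2S A → FMain

end Pool.Agent.MP_f3836a_nt.VE.F
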