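import Pool.Agent.MP_f3836a_nt.VE.SpecA

/-! Part W1: pairings with a twisted reciprocity law. -/

set_option autoImplicit false

namespace Pool.Agent.MP_f3836a_nt.VE.W

open Polynomial VE.A

/-- homomorphisms on the residue fields, no reciprocity -/
structure Ok0 {R ι : Type} [CommRing R] (S : Sy R ι) : Prop where
  max : ∀ v, (S.P v).IsMaximal
  sur : ∀ M : Ideal R, M.IsMaximal → ∃ v, S.P v = M
  fin : ∀ g, g ≠ 0 → {v | g ∈ S.P v}.Finite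
  ord0 : ∀ v g, g ≠ 0 → (S.ord v g = 0 ↔ g ∉ S.P v)
  ordu : ∀ v c g, IsUnit c → g ≠ 0 → S.ord v (c * g) = S.ord v g
  lam0 : ∀ v u, u ∈ S.P v → S.lam v u = 0
  lamm : ∀ v u u', u ∉ S.P v → u' ∉ S.P v → S.lam v (u * u') = S.lam v u + S.lam v u'
  lamc : ∀ v u u', u - u' ∈ S.P v → S.lam v u = S.lam v u'

namespace Ok0

variable {R ι : Type} [CommRing R] {S : Sy R ι}

theorem L_eq (h : Ok0 S) {g : R} (hg : g ≠ 0) (u : R) :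
    S.L g u = ∑ v ∈ (h.fin g hg).toFinset, (S.ord v g : ℝ) * S.lam v u := by
  refine finsum_eq_sum_of_support_subset _ fun v hv => ?_
  simp only [Set.Finite.coe_toFinset, Set.mem_ofPred_eq]
  by_contra hn
  exact hv (by simp [(h.ord0 v g hg).2 hn])

theorem cop (h : Ok0 S) {g u : R} (hc : IsCoprime g u) (v : ι) (h1 : g ∈ S.P v) : u ∉ S.P v := by
  obtain ⟨a, b, e⟩ := hc
  exact fun h2 => (h.max v).ne_top ((Ideal.eq_top_iff_one _).2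
    (e ▸ add_mem (Ideal.mul_mem_left _ _ h1) (Ideal.mul_mem_left _ _ h2)))

theorem L_mul (h : Ok0 S) {g u u' : R} (hg : g ≠ 0) (h1 : IsCoprime g u) (h2 : IsCoprime g u') :
    S.L g (u * u') = S.L g u + S.L g u' := by
  rw [h.L_eq hg, h.L_eq hg, h.L_eq hg, ← Finset.sum_add_distrib]
  refine Finset.sum_congr rfl fun v hv => ?_
  have hv' : g ∈ S.P v := by simpa using hv
  rw [h.lamm v u u' (h.cop h1 v hv') (h.cop h2 v hv'), mul_add]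

theorem L_congr (h : Ok0 S) {g u u' : R} (hg : g ≠ 0) (e : g ∣ u - u') : S.L g u = S.L g u' := by
  rw [h.L_eq hg, h.L_eq hg]
  exact Finset.sum_congr rfl fun v hv => by
    rw [h.lamc v u u' (Ideal.mem_of_dvd _ e (by simpa using hv))]

theorem L_unit_left (h : Ok0 S) [Nontrivial R] {c : R} (hc : IsUnit c) (u : R) : S.L c u = 0 := by
  rw [h.L_eq hc.ne_zero]
  refine Finset.sum_eq_zero fun v hv => ?_
  exact absurd (Ideal.eq_top_of_isUnit_mem _ (by simpa using hv) hc) (h.max v).ne_top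

theorem L_unit_mul (h : Ok0 S) {c g : R} (hc : IsUnit c) (hg : g ≠ 0) (u : R) :
    S.L (c * g) u = S.L g u := finsum_congr fun v => by rw [h.ordu v c g hc hg]

theorem Z_unit (h : Ok0 S) {c g : R} (hc : IsUnit c) (hg : g ≠ 0) (hz : S.Z (c * g)) : S.Z g :=
  fun u hu => (h.L_unit_mul hc hg u).symm.trans (hz u ((isCoprime_mul_unit_left_left hc _ _).2 hu))

end Ok0

/-! ### fibres whose field is not split at the primes of `s` -/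

/-- the instances of reciprocity which survive -/
structure OkT {R ι : Type} [CommRing R] [Algebra ℚ R] (S : Sy R ι) (x y : R) (s : Finset ℕ) : Prop
    extends Ok0 S where
  pr : ∀ p ∈ s, p.Prime
  con : ∀ (q : ℚ[X]) (c : ℚ), q ≠ 0 → c ≠ 0 → S.L (aeval x q) (algebraMap ℚ R c) = 0
  sym : ∀ (A B : ℤ[X]) (a k : ℤ), (∀ p ∈ s, ¬(p : ℤ) ∣ a ∨ ¬(p : ℤ) ∣ A.eval 0) → k ≠ 0 →
    gv x y A B ≠ 0 → IsCoprime ((k : R) ^ 2 * x - a) (gv x y A B) →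
    S.L (gv x y A B) ((k : R) ^ 2 * x - a) = S.L ((k : R) ^ 2 * x - a) (gv x y A B)
  out : ∀ (g : R) (p : ℕ), g ≠ 0 → p.Prime → p ∉ s → S.L g p = 0

def FibT : Prop := ∀ {R ι : Type} [CommRing R] [IsDomain R] [Algebra ℚ R] (x y : R) (f : ℤ[X])
  (S : Sy R ι) (s : Finset ℕ) (a k : ℤ) (A : ℕ), Model x y (f.map (Int.castRingHom ℚ)) →
  OkT S x y s → 0 < k → 0 < A → (A : ℤ) = -hv f 3 a (k ^ 2) → Hom (lf S x y a k A) ∧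
  (∀ m A1 B1, Mon m A1 B1 → bt m A1 B1 a k A ≠ 0 →
    (∀ p ∈ s, ¬(p : ℤ) ∣ a ∨ ¬(p : ℤ) ∣ A1.eval 0) →
    S.L (gv x y A1 B1) ((k : R) ^ 2 * x - a) = lf S x y a k A (bt m A1 B1 a k A)) ∧
  ((∀ β, β ≠ 0 → lf S x y a k A β = 0) → S.Z ((k : R) ^ 2 * x - a))

def GsT : Prop := ∀ {R ι : Type} [CommRing R] [IsDomain R] [Algebra ℚ R] (x y : R) (f : ℤ[X])
  (S : Sy R ι) (m : ℕ) (A B : ℤ[X]), Model x y (f.map (Int.castRingHom ℚ)) → Ok0 S → Mon m A B →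
  ∃ Φ c, Dec (Ng f A B) (2 * m) (fun a b => S.L (gv x y A B) ((b : R) * x - a))
    (fun p => S.L (gv x y A B) p) Φ c

def PhiT : Prop := ∀ (N : ℤ[X]) (n : ℕ) (l : ℤ → ℤ → ℝ) (κ : ℕ → ℝ) (Φ : ℕ → ℤ → ℤ → ℝ)
  (c : ℂ → ℝ), Dec N n l κ Φ c → ∃ φ : Pt → ℝ,
  (∀ (a b : ℤ) (T : Multiset Pt), 0 < b → Nd T → (∀ z ∈ T, z.p.Prime ∧ On a b z ∧ ¬(z.p : ℤ) ∣ b) →
    (nT T : ℤ) = hv N n a b → l a b = (T.map φ).sum + ug N c ((a : ℝ) / b)) ∧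
  ∀ (t0 : ℤ) (p0 σ e e' : ℕ) (T : Multiset Pt), p0.Prime → κ p0 = 0 → SS N t0 p0 n σ → Nd T →
    (∀ z ∈ T, z.p.Prime ∧ On t0 1 z ∧ z.p ≠ p0) →
    (nT T : ℤ) * (p0 : ℤ) ^ e = hv N n t0 1 * (p0 : ℤ) ^ e' → l t0 1 = (T.map φ).sum + ug N c t0

/-- on an event the function is a unit at the cusp -/
def EvT : Prop := ∀ (f A B : ℤ[X]) (m p : ℕ) (a k c c' : ℤ) (T : Multiset Pt), f.natDegree = 3 →
  Mon m A B → p.Prime → (p : ℤ) ∣ f.eval 0 → ¬(p : ℤ) ∣ c → ((p : ℤ) ∣ a → ¬(p : ℤ) ∣ k) →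
  (∀ z ∈ T, IsPt f z ∧ On a (k ^ 2) z) →
  (nT T : ℤ) * c = hv (Ng f A B) (2 * m) a (k ^ 2) * c' → ¬(p : ℤ) ∣ a ∨ ¬(p : ℤ) ∣ A.eval 0

def IdsT : Prop := ∀ {R ι : Type} [CommRing R] [IsDomain R] [Algebra ℚ R] (x y : R) (f : ℤ[X])
  (S : Sy R ι) (s : Finset ℕ) (t0 : ℤ) (A0 p0 J' m J e e' σ : ℕ) (As Bs : ℤ[X])
  (ϖ : ℤ√(-(A0 : ℤ))), Model x y (f.map (Int.castRingHom ℚ)) → OkT S x y s →
  (∀ p ∈ s, (p : ℤ) ∣ f.eval 0) → p0 ∉ s → Crv f t0 A0 →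
  (∀ s : ℝ, (t0 : ℝ) ≤ s → s ≤ t0 + 1 → aeval s f < -1) → p0.Prime →
  PAc t0 A0 p0 J' m J e e' As Bs ϖ → A7.SS f t0 p0 m J σ As Bs →
  ∃ ψ ψ0 φ c, Ids f t0 p0 m J e e' As Bs ψ ψ0 φ c (-lf S x y t0 1 A0 ϖ)

/-- scaling by an integer -/
def ScalT : Prop := ∀ {R ι : Type} [CommRing R] [IsDomain R] [Algebra ℚ R] (x y : R) (f : ℤ[X])
  (S : Sy R ι) (s : Finset ℕ) (t : ℚ), Model x y (f.map (Int.castRingHom ℚ)) → OkT S x y s →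
  aeval t f < 0 → ∃ (b : ℕ) (F : ℤ[X]) (t0 : ℤ) (A0 : ℕ), 0 < b ∧ Crv F t0 A0 ∧
  (∀ s : ℝ, (t0 : ℝ) ≤ s → s ≤ t0 + 1 → aeval s F < -1) ∧ (t0 : ℚ) = (b : ℚ) ^ 2 * t ∧
  Model ((b : R) ^ 2 * x) ((b : R) ^ 3 * y) (F.map (Int.castRingHom ℚ)) ∧
  OkT S ((b : R) ^ 2 * x) ((b : R) ^ 3 * y) s ∧ F.eval 0 = (b : ℤ) ^ 6 * f.eval 0 ∧
  -(A0 : ℚ) = (b : ℚ) ^ 6 * aeval t f

/-- `a` is not a square in the completions at the primes of `s` -/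
def Ns (s : Finset ℕ) (a : ℚ) : Prop :=
  ∀ p ∈ s, ∀ [Fact p.Prime] (z : ℚ_[p]), z ^ 2 ≠ (a : ℚ_[p])

def T1S : Prop := ∀ {R ι : Type} [CommRing R] [IsDomain R] [Algebra ℚ R] (x y : R) (f : ℤ[X])
  (S : Sy R ι) (s : Finset ℕ) (t : ℚ), Model x y (f.map (Int.castRingHom ℚ)) → OkT S x y s →
  (∀ p ∈ s, (p : ℤ) ∣ f.eval 0) → aeval t f < 0 → Ns s (aeval t f) → S.Z (x - algebraMap ℚ R t)

/-! ### Weierstrass equations over the integers -/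

/-- the cubic after completing the square -/
noncomputable def fW (W : WeierstrassCurve ℤ) : ℚ[X] :=
  X ^ 3 + C ((W.b₂ : ℚ) / 4) * X ^ 2 + C ((W.b₄ : ℚ) / 2) * X + C ((W.b₆ : ℚ) / 4)

/-- the coordinate after completing the square -/
noncomputable def yW (W : WeierstrassCurve ℤ) {R : Type} [CommRing R] [Algebra ℚ R] (x y : R) : R :=
  y + algebraMap ℚ R (1 / 2) * (W.a₁ * x + W.a₃)

/-- the cubic cut out by the line `y = s x + r` -/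
noncomputable def cW (W : WeierstrassCurve ℤ) (r s : ℤ) : ℤ[X] :=
  X ^ 3 + C W.a₂ * X ^ 2 + C W.a₄ * X + C W.a₆ - (C s * X + C r) ^ 2 -
    (C W.a₁ * X + C W.a₃) * (C s * X + C r)

/-- the equation and its two derivatives -/
def eW (W : WeierstrassCurve ℤ) {R : Type} [CommRing R] (x y : R) : R :=
  y ^ 2 + W.a₁ * x * y + W.a₃ * y - (x ^ 3 + W.a₂ * x ^ 2 + W.a₄ * x + W.a₆)

def eX (W : WeierstrassCurve ℤ) {R : Type} [CommRing R] (x y : R) : R :=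
  W.a₁ * y - (3 * x ^ 2 + 2 * W.a₂ * x + W.a₄)

def eY (W : WeierstrassCurve ℤ) {R : Type} [CommRing R] (x y : R) : R := 2 * y + W.a₁ * x + W.a₃

/-- a singular point modulo `p` -/
structure Sing (W : WeierstrassCurve ℤ) (p : ℕ) (x0 y0 : ℤ) : Prop where
  e : (p : ℤ) ∣ eW W x0 y0
  ex : (p : ℤ) ∣ eX W x0 y0
  ey : (p : ℤ) ∣ eY W x0 y0

/-- a node with rational tangents of slopes `α` and `β` -/
structure Spl (W : WeierstrassCurve ℤ) (p : ℕ) (x0 y0 α β : ℤ) : Prop extends Sing W p x0 y0 where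
  sum : (p : ℤ) ∣ α + β + W.a₁
  prod : (p : ℤ) ∣ α * β + (W.a₂ + 3 * x0)
  ne : ¬(p : ℤ) ∣ α - β

/-- the twisted reciprocity law -/
structure Tw {R ι : Type} [CommRing R] [Algebra ℚ R] (S : Sy R ι) (x y : R) (s : Finset ℕ)
    (v δ : ℕ → R → ℝ) : Prop extends Ok0 S where
  pr : ∀ p ∈ s, p.Prime
  sym : ∀ g u, g ≠ 0 → u ≠ 0 → IsCoprime g u →
    S.L g u = S.L u g + ∑ p ∈ s, (v p u * δ p g - v p g * δ p u)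
  vm : ∀ p ∈ s, ∀ g u, g ≠ 0 → u ≠ 0 → v p (g * u) = v p g + v p u
  vp : ∀ p ∈ s, v p p = 1
  v0 : ∀ p ∈ s, ∀ A B : ℤ[X], ¬(C (p : ℤ) ∣ A ∧ C (p : ℤ) ∣ B) → v p (gv x y A B) = 0
  dc : ∀ p ∈ s, ∀ A B A' B' : ℤ[X], ¬(C (p : ℤ) ∣ A ∧ C (p : ℤ) ∣ B) → C (p : ℤ) ∣ A - A' →
    C (p : ℤ) ∣ B - B' → δ p (gv x y A B) = δ p (gv x y A' B')
  dq : ∀ p ∈ s, ∀ q : ℚ[X], q ≠ 0 → δ p (aeval x q) = 0

/-- scaling into the primes of `s` -/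
def PreS : Prop := ∀ {R ι : Type} [CommRing R] [IsDomain R] [Algebra ℚ R] (W : WeierstrassCurve ℤ)
  (x y : R) (S : Sy R ι) (s : Finset ℕ) (v δ : ℕ → R → ℝ), Model x (yW W x y) (fW W) →
  Tw S x y s v δ → ∃ (m : ℕ) (F : ℤ[X]), 0 < m ∧
  Model ((m : R) ^ 2 * x) ((m : R) ^ 3 * yW W x y) (F.map (Int.castRingHom ℚ)) ∧
  OkT S ((m : R) ^ 2 * x) ((m : R) ^ 3 * yW W x y) s ∧ (∀ p ∈ s, (p : ℤ) ∣ F.eval 0) ∧
  ∀ t : ℚ, aeval ((m : ℚ) ^ 2 * t) F = (m : ℚ) ^ 6 * (fW W).eval t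

def ZS : Prop := ∀ {R ι : Type} [CommRing R] [IsDomain R] [Algebra ℚ R] (W : WeierstrassCurve ℤ)
  (x y : R) (S : Sy R ι) (s : Finset ℕ) (v δ : ℕ → R → ℝ) (t : ℚ), Model x (yW W x y) (fW W) →
  Tw S x y s v δ → (fW W).eval t < 0 → Ns s ((fW W).eval t) → S.Z (x - algebraMap ℚ R t)

/-! ### cubic algebras, several absolute values -/

/-- small at the primes of `s` -/
def Sm (s : Finset ℕ) (k : ℕ) (z : ℚ) : Prop := ∀ p ∈ s, padicNorm p z ≤ (p : ℚ) ^ (-(k : ℤ))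

/-- near to one modulo `c` at the primes of `s` -/
def Nr (s : Finset ℕ) (k : ℕ) (c : ℤ[X]) (q : ℚ[X]) : Prop :=
  ∃ e : ℚ[X], (∀ j, Sm s k (e.coeff j)) ∧ c.map (Int.castRingHom ℚ) ∣ q - 1 - e

def NearW : Prop := ∀ (ι : Type) [Fintype ι] [Nonempty ι] (w : ι → AbsoluteValue ℚ ℝ) (c : ℚ[X])
  (t1 t3 : ℚ) (η : ℝ), c.Monic → c.natDegree = 3 → t1 ≠ t3 → 0 < η → ∃ ε : ℝ, 0 < ε ∧
  ∀ e : ℚ[X], e.natDegree ≤ 2 → (∀ i j, w i (e.coeff j) ≤ ε) → ∃ t2 t4 k : ℚ, k ≠ 0 ∧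
    (∀ i, w i (t2 - t3) ≤ η ∧ w i (t4 - t1) ≤ η ∧ w i (k - 1) ≤ η) ∧
    c ∣ (1 + e) * (X - C t1) * (X - C t2) - C k * (X - C t3) * (X - C t4)

/-- weak approximation -/
def ApxS : Prop := ∀ (s : Finset ℕ) (k : ℕ), (∀ p ∈ s, p.Prime) →
  (∀ a ε : ℝ, 0 < ε → ∃ z : ℚ, |(z : ℝ) - a| ≤ ε ∧ Sm s k z) ∧
  (∀ a : ℕ → ℤ, ∃ z : ℤ, ∀ p ∈ s, (p : ℤ) ^ k ∣ z - a p) ∧
  (∀ z : ℤ, Sm s k z ↔ ∀ p ∈ s, (p : ℤ) ^ k ∣ z) ∧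
  ∀ (c : ℤ[X]) (q q' : ℚ[X]), c.Monic → Nr s k c q → (Nr s k c q' → Nr s k c (q * q')) ∧
    ∀ j, Sm s k (((q - 1) %ₘ c.map (Int.castRingHom ℚ)).coeff j)

/-- a homomorphism on the units of a totally real cubic algebra -/
structure Cw (s : Finset ℕ) (K : ℕ) (τ : ℤ) (c : ℤ[X]) (μ : ℚ[X] → ℝ) (T0 : ℚ) (r : Fin 3 → ℝ) :
    Prop where
  pr : ∀ p ∈ s, p.Prime
  monic : c.Monic
  deg : c.natDegree = 3
  mono : StrictMono r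
  root : ∀ i, aeval (r i) c = 0
  low : (T0 : ℝ) ≤ r 0
  mul : ∀ q q', IsCoprime (c.map (Int.castRingHom ℚ)) q → IsCoprime (c.map (Int.castRingHom ℚ)) q' →
    μ (q * q') = μ q + μ q'
  per : ∀ q q', c.map (Int.castRingHom ℚ) ∣ q - q' → μ q = μ q'
  con : ∀ a, a ≠ 0 → (∀ p ∈ s, padicNorm p a = 1) → μ (C a) = 0
  lin : ∀ t < T0, Sm s K (t - τ) → μ (X - C t) = 0

def Cw1S : Prop := ∀ s K τ c μ T0 r, Cw s K τ c μ T0 r → ∃ (ε : ℝ) (k : ℕ), 0 < ε ∧ ∀ q : ℚ[X],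
  (∀ i, |aeval (r i) q - 1| ≤ ε) → Nr s k c q → μ q = 0

def Cw2S : Prop := ∀ s K τ c μ T0 r, Cw s K τ c μ T0 r → ∃ k : ℕ, ∀ q : ℚ[X],
  IsCoprime (c.map (Int.castRingHom ℚ)) q → Nr s k c q → μ q = 0

/-- powers of a unit -/
def PowS : Prop := ∀ (s : Finset ℕ) (k : ℕ) (c P : ℤ[X]) (q : ℚ[X]), (∀ p ∈ s, p.Prime) →
  P.Monic → (∀ p ∈ s, ¬(p : ℤ) ∣ P.eval 0) →
  c.map (Int.castRingHom ℚ) ∣ (P.map (Int.castRingHom ℚ)).comp q → ∃ j : ℕ, 0 < j ∧ Nr s k c (q ^ j)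

/-- all roots of `c` have the same distance from `t` -/
def Eqd (c : ℤ[X]) (t : ℤ) (p n : ℕ) : Prop :=
  (p : ℤ) ^ n ∣ c.eval t ∧ ¬(p : ℤ) ^ (n + 1) ∣ c.eval t ∧
    (p : ℤ) ^ (2 * n) ∣ (derivative c).eval t ^ 3 ∧ (p : ℤ) ^ n ∣ (3 * t + c.coeff 2) ^ 3

/-- the equation of the cube -/
def GrfS : Prop := ∀ (c : ℤ[X]) (t : ℤ) (p n : ℕ), p.Prime → c.Monic → c.natDegree = 3 →
  Eqd c t p n → ∃ P : ℤ[X], P.Monic ∧ P.eval 0 * (p : ℤ) ^ (3 * n) = c.eval t ^ 3 ∧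
  c.map (Int.castRingHom ℚ) ∣
    (P.map (Int.castRingHom ℚ)).comp (C (1 / (p : ℚ) ^ n) * (X - C (t : ℚ)) ^ 3)

/-- the critical point near a node -/
def NodaS : Prop := ∀ (W : WeierstrassCurve ℤ) (p : ℕ) [Fact p.Prime] (x0 y0 α β : ℤ), W.Δ ≠ 0 →
  Spl W p x0 y0 α β → ∃ e1 e2 a b : ℤ_[p], (p : ℤ_[p]) ∣ e1 - x0 ∧ (p : ℤ_[p]) ∣ e2 - y0 ∧
  (p : ℤ_[p]) ∣ a - α ∧ IsUnit (a - b) ∧ eX W e1 e2 = 0 ∧ eY W e1 e2 = 0 ∧ a + b + W.a₁ = 0 ∧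
  a * b + (W.a₂ + 3 * e1) = 0 ∧ eW W e1 e2 ≠ 0 ∧ (p : ℤ_[p]) ∣ eW W e1 e2

/-- a fibre without points near the node -/
def NodbS : Prop := ∀ (p : ℕ) [Fact p.Prime] (γ d : ℤ_[p]), IsUnit γ → d ≠ 0 → (p : ℤ_[p]) ∣ d →
  ∃ (τ : ℤ_[p]) (ε : ℝ), p * d ∣ τ ^ 3 ∧ 0 < ε ∧ ∀ t : ℤ_[p], ‖t - τ‖ ≤ ε → ∀ z : ℚ_[p],
    z ^ 2 ≠ ((γ ^ 2 * t ^ 2 + 4 * t ^ 3 + 4 * d : ℤ_[p]) : ℚ_[p])

def NodeS : Prop := ∀ (W : WeierstrassCurve ℤ) (p : ℕ) (x0 y0 α β : ℤ), p.Prime → W.Δ ≠ 0 →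
  Spl W p x0 y0 α β → ∃ (n K : ℕ) (τ r s : ℤ), 0 < n ∧ 0 < K ∧ (p : ℤ) ∣ τ - x0 ∧
  (p : ℤ) ∣ s - α ∧ (p : ℤ) ∣ r - (y0 - α * x0) ∧
  (∀ t : ℚ, Sm {p} K (t - τ) → Ns {p} ((fW W).eval t)) ∧
  ∀ t r' s' : ℤ, (p : ℤ) ^ K ∣ t - τ → (p : ℤ) ^ K ∣ r' - r → (p : ℤ) ^ K ∣ s' - s →
    Eqd (cW W r' s') t p n

/-- a line in given residue classes with three real points -/
def LineS : Prop := ∀ (W : WeierstrassCurve ℤ) (M : ℕ) (r0 s0 : ℤ), 0 < M → ∃ r s : ℤ,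
  (M : ℤ) ∣ r - r0 ∧ (M : ℤ) ∣ s - s0 ∧ (cW W r s).Monic ∧ (cW W r s).natDegree = 3 ∧
  ∃ (T0 : ℚ) (ρ : Fin 3 → ℝ), StrictMono ρ ∧ (∀ i, aeval (ρ i) (cW W r s) = 0) ∧ (T0 : ℝ) ≤ ρ 0 ∧
    ∀ t < T0, (fW W).eval t < 0 ∧ aeval t (cW W r s) < 0

/-- the homomorphism attached to a line -/
def MuS : Prop := ∀ {R ι : Type} [CommRing R] [IsDomain R] [Algebra ℚ R] (W : WeierstrassCurve ℤ)
  (x y : R) (S : Sy R ι) (s : Finset ℕ) (v δ : ℕ → R → ℝ) (r0 s0 τ : ℤ) (K : ℕ) (T0 : ℚ)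
  (ρ : Fin 3 → ℝ), Model x (yW W x y) (fW W) → Tw S x y s v δ → (cW W r0 s0).Monic →
  (cW W r0 s0).natDegree = 3 → StrictMono ρ → (∀ i, aeval (ρ i) (cW W r0 s0) = 0) →
  (T0 : ℝ) ≤ ρ 0 → (∀ t < T0, Sm s K (t - τ) → S.Z (x - algebraMap ℚ R t)) →
  (∀ t < T0, aeval t (cW W r0 s0) < 0) →
  Cw s K τ (cW W r0 s0) (fun q => S.L (gv x y (-(C s0 * X + C r0)) 1) (aeval x q)) T0 ρ ∧
  ∀ p ∈ s, ∀ n : ℕ, S.L (gv x y (-(C s0 * X + C r0)) 1) (aeval x (C ((p : ℚ) ^ n))) =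
    n * δ p (gv x y (-(C s0 * X + C r0)) 1)

/-- the twist vanishes -/
def TwS : Prop := ∀ {R ι : Type} [CommRing R] [IsDomain R] [Algebra ℚ R] (W : WeierstrassCurve ℤ)
  (x y : R) (S : Sy R ι) (s : Finset ℕ) (v δ : ℕ → R → ℝ), W.Δ ≠ 0 → Model x (yW W x y) (fW W) →
  Tw S x y s v δ → (∀ p ∈ s, ∃ x0 y0 α β, Spl W p x0 y0 α β) → ∀ p ∈ s, ∀ x0 y0 α β : ℤ,
  Spl W p x0 y0 α β → δ p (gv x y (-(C α * X + C (y0 - α * x0))) 1) = 0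

def OfGsT : Prop := EvS → GskS → GsT
def OfIdsT : Prop := FibT → EvS → EvT → HsS → GsT → PhiT → IdsT
def OfT1 : Prop := Core → A7.PaS → ScalT → FibT → EvS → Hs0S → IdsT → T1S
def OfZ : Prop := PreS → T1S → ZS
def OfCw1 : Prop := CopS → ApxS → NearW → Cw1S
def OfCw2 : Prop := CopS → ApxS → Cw1S → Cw2S
def OfNode : Prop := NodaS → NodbS → NodeS
def OfMu : Prop := ApxS → MuS
def OfTw : Prop := ZS → ApxS → Cw2S → PowS → GrfS → NodeS → LineS → MuS → TwS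

end Pool.Agent.MP_f3836a_nt.VE.W
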