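import Pool.Agent.MP_f3836a_nt.VE.DefsW

/-! Part W2: local rings of dimension two and the key lemma. -/

set_option autoImplicit false

namespace Pool.Agent.MP_f3836a_nt.VE.W

open Polynomial IsLocalRing PK VE.A VE.T

section
variable {K : Type} [Field K]

/-- `K` is the field of fractions -/
def Fr (D : Subring K) : Prop := ∀ z : K, ∃ a b : D, (b : K) ≠ 0 ∧ z * b = a

/-- dimension at most two, regular in codimension one -/
structure Dim2 (D : Subring K) : Prop where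
  noeth : IsNoetherianRing D
  frac : Fr D
  dim : ∀ q q' : Ideal D, q.IsPrime → q'.IsPrime → q ≠ ⊥ → q < q' → q'.IsMaximal
  dvr : ∀ (q : Ideal D) [q.IsPrime], q ≠ ⊥ → ¬q.IsMaximal → IsDiscreteValuationRing (lc D q)

structure Loc2 (D : Subring K) : Prop extends Dim2 D where
  loc : IsLocalRing D

/-- `O` is the localization of `D` at a prime of height one -/
def H1 (D O : Subring K) : Prop :=
  ∃ (q : Ideal D) (_ : q.IsPrime), q ≠ ⊥ ∧ ¬q.IsMaximal ∧ O = lc D q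

/-- `S` is the localization of `B` at a maximal ideal -/
def Mx (B S : Subring K) : Prop := ∃ (m : Ideal B) (_ : m.IsPrime), m.IsMaximal ∧ S = lc B m

/-- the curves through a point -/
structure Thr (D : Subring K) {I : Type} (O : I → Subring K) {κ : I → Type} [∀ C, Field (κ C)]
    (r : ∀ C, O C →+* κ C) : Prop where
  inj : Function.Injective O
  dv : ∀ C, DV (O C) (r C)
  cen : ∀ C, D ≤ O C → H1 D (O C)
  ex : ∀ S, H1 D S → ∃ C, O C = S

/-- the divisor of a tame symbol at a point -/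
noncomputable def Kf (D : Subring K) {I : Type} (O : I → Subring K) {κ : I → Type}
    [∀ C, Field (κ C)] (r : ∀ C, O C →+* κ C) (f g : K) : ℤ :=
  ∑ᶠ C, od (O C) (r C) D (tameR (O C) (r C) f g)

/-- multiples of `g` in codimension one -/
def Sat (D : Subring K) (g : D) : Ideal D where
  carrier := {a | ∀ S, H1 D S → (a : K) / g ∈ S}
  add_mem' ha hb S h := by
    rw [Subring.coe_add, add_div]; exact S.add_mem (ha S h) (hb S h)
  zero_mem' S _ := by rw [Subring.coe_zero, zero_div]; exact S.zero_mem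
  smul_mem' c a ha S h := by
    rw [smul_eq_mul, Subring.coe_mul, mul_div_assoc]
    refine S.mul_mem ?_ (ha S h)
    obtain ⟨q, _, -, -, rfl⟩ := h
    exact le_lc D q c.2

/-- no common prime of height one -/
def Cop (D : Subring K) (g u : D) : Prop :=
  g ≠ 0 ∧ u ≠ 0 ∧ ∀ q : Ideal D, q.IsPrime → g ∈ q → u ∈ q → q.IsMaximal

/-- all primes of height one are principal -/
def Pri (D : Subring K) : Prop :=
  ∀ q : Ideal D, q.IsPrime → ¬q.IsMaximal → ∃ g, q = Ideal.span {g}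

/-- `q` is the contraction of `q'` -/
structure Lk (B : Subring K) (m : Ideal B) [m.IsPrime] (q : Ideal B) [q.IsPrime]
    (q' : Ideal (lc B m)) [q'.IsPrime] : Prop where
  le : q ≤ m
  eq : lc (lc B m) q' = lc B q
  bot : q' = ⊥ ↔ q = ⊥
  max : q'.IsMaximal ↔ q = m
  mem : ∀ a : B, a ∈ q ↔ Subring.inclusion (le_lc B m) a ∈ q'

/-- localizations -/
structure LcA (B : Subring K) : Prop where
  dn : ∀ (m : Ideal B) [m.IsPrime] (q' : Ideal (lc B m)) [q'.IsPrime],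
    ∃ (q : Ideal B) (_ : q.IsPrime), Lk B m q q'
  up : ∀ (m q : Ideal B) [m.IsPrime] [q.IsPrime], q ≤ m →
    ∃ (q' : Ideal (lc B m)) (_ : q'.IsPrime), Lk B m q q'
  le : ∀ (q q' : Ideal B) [q.IsPrime] [q'.IsPrime], lc B q ≤ lc B q' ↔ q' ≤ q
  unit : ∀ (q : Ideal B) [q.IsPrime] (a : B), IsUnit (Subring.inclusion (le_lc B q) a) ↔ a ∉ q
  inv : ∀ (q : Ideal B) [q.IsPrime] (a : B), a ≠ 0 → ((a : K)⁻¹ ∈ lc B q ↔ a ∉ q)
  noeth : ∀ (q : Ideal B) [q.IsPrime], IsNoetherianRing B → IsNoetherianRing (lc B q)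
  top : ∀ (q : Ideal B) [q.IsPrime], Fr B → (lc B q = ⊤ ↔ q = ⊥)
  max : ∀ (q : Ideal B) [q.IsPrime],
    maximalIdeal (lc B q) = q.map (Subring.inclusion (le_lc B q))
  cen : ∀ (S : Subring K) [IsLocalRing S] (h : B ≤ S), ∃ (q : Ideal B) (_ : q.IsPrime),
    lc B q ≤ S ∧ ∀ a : B, a ∈ q ↔ ¬IsUnit (Subring.inclusion h a)
  loc : Dim2 B → ∀ (m : Ideal B) [m.IsPrime], m.IsMaximal → Loc2 (lc B m)

/-- orders on a curve through a point -/
structure OdA (D : Subring K) (q : Ideal D) (O : Subring K) {κ : Type} [Field κ] (r : O →+* κ) :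
    Prop where
  mul : ∀ u u', u ≠ 0 → u' ≠ 0 → od O r D (u * u') = od O r D u + od O r D u'
  zero : ∀ a : D, resR O r a = 0 ↔ a ∈ q
  ord : ∀ a : D, a ≠ 0 → 0 ≤ ordR O (a : K) ∧ (ordR O (a : K) = 0 ↔ a ∉ q)
  len : ∀ a : D, a ∉ q → 0 ≤ od O r D (resR O r a) ∧
    Module.length D (D ⧸ (q ⊔ Ideal.span {a})) = ((od O r D (resR O r a)).toNat : ℕ) ∧
    (od O r D (resR O r a) = 0 ↔ IsUnit a)
  frac : ∀ u, u ≠ 0 → ∃ a b : D, a ∉ q ∧ b ∉ q ∧ u * resR O r b = resR O r a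
  im : IsNoetherianRing (im O r D) ∧ Ring.KrullDimLE 1 (im O r D) ∧ Fr (im O r D)

end

def LcS : Prop := ∀ (K : Type) [Field K] (B : Subring K), LcA B

def OdS : Prop := ∀ (K κ : Type) [Field K] [Field κ] (D O : Subring K) (q : Ideal D) [q.IsPrime]
  (r : O →+* κ), Loc2 D → q ≠ ⊥ → ¬q.IsMaximal → O = lc D q → DV O r → OdA D q O r

/-- regular points -/
def RegS : Prop := ∀ (K : Type) [Field K] (D : Subring K) [IsLocalRing D] (p π : D),
  IsNoetherianRing D → Fr D → p ≠ 0 → maximalIdeal D = Ideal.span {p, π} →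
  (Ideal.span {p}).IsPrime → π ∉ Ideal.span {p} → Loc2 D ∧ Pri D ∧
  ∀ a, a ∉ Ideal.span {p} → ∃ (k : ℕ) (w : D), IsUnit w ∧ a - w * π ^ k ∈ Ideal.span {p}

/-- change of the residue map and transport along an automorphism -/
def TrS : Prop := ∀ (K κ κ' : Type) [Field K] [Field κ] [Field κ'] (σ : K ≃+* K) (O O' : Subring K)
  (r : O →+* κ) (r' : O' →+* κ'), DV O r → DV O' r' → (∀ z, z ∈ O ↔ σ z ∈ O') →
  ∃ e : κ ≃+* κ', (∀ z, e (resR O r z) = resR O' r' (σ z)) ∧ (∀ z, ordR O z = ordR O' (σ z)) ∧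
    ∀ f g, e (tameR O r f g) = tameR O' r' (σ f) (σ g)

/-- the shape of the rows about one point -/
def AllK (Φ : ∀ (K : Type) [Field K] (_ : Subring K) (I : Type) (O : I → Subring K) (κ : I → Type)
    [∀ C, Field (κ C)] (_ : ∀ C, O C →+* κ C), Prop) : Prop :=
  ∀ (K : Type) [Field K] (D : Subring K) (I : Type) (O : I → Subring K) (κ : I → Type)
    [∀ C, Field (κ C)] (r : ∀ C, O C →+* κ C), Loc2 D → Thr D O r → Φ K D I O κ r

def KbS : Prop := AllK fun K _ D _ O _ _ r =>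
  (∀ f : K, {C | D ≤ O C ∧ ordR (O C) f ≠ 0}.Finite) ∧
  (∀ f f' g, f ≠ 0 → f' ≠ 0 → g ≠ 0 → Kf D O r (f * f') g = Kf D O r f g + Kf D O r f' g) ∧
  (∀ f g, f ≠ 0 → g ≠ 0 → Kf D O r f g = -Kf D O r g f) ∧
  ∀ f, f ≠ 0 → f ≠ 1 → Kf D O r f (1 - f) = 0

/-- lengths along the symbolic filtration -/
def FulA : Prop := AllK fun K _ D I O _ _ r => ∀ (g u : D) (s : Finset I), Cop D g u →
  (∀ C, C ∈ s ↔ D ≤ O C ∧ ordR (O C) (g : K) ≠ 0) →
  Module.length D (D ⧸ (Sat D g ⊔ Ideal.span {u})) =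
    (∑ C ∈ s, (ordR (O C) (g : K)).toNat * (od (O C) (r C) D (resR (O C) (r C) u)).toNat : ℕ)

/-- symmetry -/
def FulB : Prop := ∀ (K : Type) [Field K] (D : Subring K) (g u : D), Loc2 D → Cop D g u →
  Module.length D (D ⧸ (Sat D g ⊔ Ideal.span {u})) =
    Module.length D (D ⧸ (Sat D u ⊔ Ideal.span {g}))

def FulS : Prop := AllK fun _ _ D _ O _ _ r => ∀ g u : D, Cop D g u → Kf D O r g u = 0

def KeyU : Prop := AllK fun _ _ D _ O _ _ r => Pri D → ∀ f g, f ≠ 0 → g ≠ 0 → Kf D O r f g = 0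

def KsS : Prop := AllK fun K _ D _ O _ _ r => ∀ σ : K ≃+* K, (∀ z, z ∈ D ↔ σ z ∈ D) →
  ∀ f g, f ≠ 0 → g ≠ 0 → Kf D O r (σ f) (σ g) = Kf D O r f g

/-- finitely many zeros and poles in a chart -/
def FinC : Prop := ∀ (K κ : Type) [Field K] [Field κ] (B O : Subring K) (r : O →+* κ) (u : κ),
  IsNoetherianRing B → DV O r → u ≠ 0 →
  {S : Subring K | Mx B S ∧ Loc2 S ∧ H1 S O ∧ od O r S u ≠ 0}.Finite

/-- a function on points pairs to zero with cycles -/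
def CobS : Prop := ∀ (I Z : Type) (κ : I → Type) [∀ i, Field (κ i)] (o : ∀ i, Z → κ i → ℤ)
  (α : Z → ℚ), (∀ i z f g, f ≠ 0 → g ≠ 0 → o i z (f * g) = o i z f + o i z g) →
  (∀ i f, f ≠ 0 → {z | o i z f ≠ 0}.Finite) →
  (∀ i, Addv fun f => ∑ᶠ z, (o i z f : ℚ) * α z) ∧
  ∀ (φ : ∀ i, κ i) (lam : ∀ i, κ i → ℚ), (∀ i, φ i ≠ 0) → {i | φ i ≠ 1}.Finite →
    (∀ z, ∑ᶠ i, o i z (φ i) = 0) → (∀ i, Addv (lam i)) →
    ∑ᶠ i, (lam i (φ i) - ∑ᶠ z, (o i z (φ i) : ℚ) * α z) = ∑ᶠ i, lam i (φ i)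

/-- additive functions on a field in which the common kernel is torsion -/
def VaS : Prop := ∀ (κ Z : Type) [Field κ] (o : Z → κ → ℤ) (d : κ → ℤ) (μ : κ → ℚ),
  (∀ z f g, f ≠ 0 → g ≠ 0 → o z (f * g) = o z f + o z g) →
  (∀ f g, f ≠ 0 → g ≠ 0 → d (f * g) = d f + d g) → (∀ f, f ≠ 0 → {z | o z f ≠ 0}.Finite) →
  (∀ f, f ≠ 0 → (∀ z, o z f = 0) → d f = 0 → ∃ j : ℕ, 0 < j ∧ f ^ j = 1) → Addv μ →
  ∃ (α : Z → ℚ) (c : ℚ), ∀ f, f ≠ 0 → μ f = ∑ᶠ z, (o z f : ℚ) * α z + c * d f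

/-- heights -/
def HtS : Prop := ∀ (K Pt : Type) [Field K] [Preorder Pt] (O : Pt → Subring K) (cl dv : Pt → Prop),
  Function.Injective O → (∀ z z', z ≤ z' ↔ O z ≤ O z') → (∀ z, cl z ∨ dv z ∨ O z = ⊤) →
  (∀ z z', cl z → O z' ≤ O z → z' = z) → (∀ z z', dv z → O z ≤ O z' → z' = z ∨ O z' = ⊤) →
  (∀ z, dv z → O z ≠ ⊤ ∧ ∃ z', cl z' ∧ O z' ≤ O z ∧ z' ≠ z) → (∃ z, dv z) →
  ∀ z, (Order.height z = 0 ↔ cl z) ∧ (Order.height z = 1 ↔ dv z) ∧
    (O z = ⊤ → Order.height z = 2)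

/-- a twisted system from functionals on the places -/
def TwiS : Prop := ∀ (R F : Type) [CommRing R] [IsDomain R] [Algebra ℚ R] [Field F] [Algebra ℚ F]
  [Algebra R F] [IsFractionRing R F] (x : R) (lam : ∀ P : Place F, ResidueField P.V → ℚ)
  (E : F → F → ℝ), PFin R F x → (∀ P, Addv (lam P)) →
  (∀ (P : Place F) (g h : F), g ≠ 0 → h ≠ 0 → algebraMap R F x ∉ P.V → lam P (P.tame g h) = 0) →
  (∀ g h : F, g ≠ 0 → h ≠ 0 → ((∑ᶠ P, lam P (P.tame g h) : ℚ) : ℝ) + E g h = 0) →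
  ∃ (ι : Type) (S : Sy R ι), Ok0 S ∧ ∀ g u, g ≠ 0 → u ≠ 0 → IsCoprime g u →
    S.L g u = S.L u g + E (algebraMap R F g) (algebraMap R F u)

def OfOd : Prop := LcS → OdS
def OfReg : Prop := LcS → RegS
def OfKb : Prop := LcS → OdS → KbS
def OfFulA : Prop := LcS → OdS → FulA
def OfFulB : Prop := LcS → FulB
def OfFul : Prop := OdS → KbS → FulA → FulB → FulS
def OfKeyU : Prop := KbS → FulS → KeyU
def OfKs : Prop := LcS → OdS → TrS → KsS
def OfFinC : Prop := LcS → OdS → FinC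

end Pool.Agent.MP_f3836a_nt.VE.W
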