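import Pool.Agent.MP_f3836a_nt.VE.SpecW2

/-! Part W4: the two charts, the fibres and the main argument. -/

set_option autoImplicit false

namespace Pool.Agent.MP_f3836a_nt.VE.W

open Polynomial IsLocalRing PK VE.A VE.T

section
variable {K : Type} [Field K]

/-- the generators as elements of the chart -/
def xa (x y : K) : A1 x y := ⟨x, Subring.subset_closure (by simp)⟩

def ya (x y : K) : A1 x y := ⟨y, Subring.subset_closure (by simp)⟩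

/-- the second chart -/
abbrev A2 (x y : K) : Subring K := A1 (x / y) (1 / y)

/-- both polynomials are divisible by `p` -/
def Dv (p : ℕ) (A B : ℤ[X]) : Prop := C (p : ℤ) ∣ A ∧ C (p : ℤ) ∣ B

/-- the local ring of the fibre over `p` -/
def Ver (x y : K) (p : ℕ) (G : Subring K) : Prop := p.Prime ∧
  ∃ (q : Ideal (A1 x y)) (_ : q.IsPrime), q = Ideal.span {(p : A1 x y)} ∧ G = lc _ q

/-- an affine closed point over `p` -/
def Aff (x y : K) (p : ℕ) (S : Subring K) : Prop := p.Prime ∧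
  ∃ (m : Ideal (A1 x y)) (_ : m.IsPrime), m.IsMaximal ∧ (p : A1 x y) ∈ m ∧ S = lc _ m

/-- the point at infinity over `p` -/
def Ifp (x y : K) (p : ℕ) (S : Subring K) : Prop := p.Prime ∧
  ∃ (m : Ideal (A2 x y)) (_ : m.IsPrime), m.IsMaximal ∧ Inf m ∧ (p : A2 x y) ∈ m ∧ S = lc _ m

structure Ch1 (x y : K) : Prop where
  mem : ∀ z, z ∈ A1 x y ↔ ∃ A B : ℤ[X], z = gv x y A B
  noeth : IsNoetherianRing (A1 x y)
  frac : Fr (A1 x y)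
  pr : ∀ p : ℕ, p.Prime → (Ideal.span {(p : A1 x y)}).IsPrime ∧
    ¬(Ideal.span {(p : A1 x y)}).IsMaximal ∧ (p : A1 x y) ≠ 0
  memp : ∀ (p : ℕ) (a : A1 x y) (A B : ℤ[X]), (a : K) = gv x y A B →
    (a ∈ Ideal.span {(p : A1 x y)} ↔ Dv p A B)

structure Ch2 (x y : K) : Prop where
  dim : ∀ q q' : Ideal (A1 x y), q.IsPrime → q'.IsPrime → q ≠ ⊥ → q < q' → q'.IsMaximal
  mx : ∀ m : Ideal (A1 x y), m.IsMaximal →
    Finite (A1 x y ⧸ m) ∧ ∃ p : ℕ, p.Prime ∧ (p : A1 x y) ∈ m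
  cop : ∀ (π π' : ℤ[X]) (q : Ideal (A1 x y)), Prime π → Prime π' → ¬Associated π π' → q.IsPrime →
    aeval (xa x y) π ∈ q → aeval (xa x y) π' ∈ q → q.IsMaximal

/-- the affine chart -/
structure ChA (W : WeierstrassCurve ℤ) (x y : K) : Prop extends Ch1 x y, Ch2 x y where
  dim2 : Dim2 (A1 x y)
  sig : ∃ σ : K ≃+* K, σ x = x ∧ σ y = y - eY W x y

/-- the zero section -/
structure Zer (x y : K) (V : Subring K) : Prop where
  pt : ∃ (q : Ideal (A2 x y)) (_ : q.IsPrime), Inf q ∧ ¬q.IsMaximal ∧ V = lc _ q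
  nx : x ∉ V ∧ y ∉ V
  thr : ∀ p S, Ifp x y p S → ∃ (q : Ideal S) (_ : q.IsPrime), q ≠ ⊥ ∧ ¬q.IsMaximal ∧ V = lc S q ∧
    ∀ a : S, ¬IsUnit a ↔ a ∈ q ⊔ Ideal.span {(p : S)}
  rat : ∀ z : V, ∃ a b : ℤ, b ≠ 0 ∧ ¬IsUnit (z * b - a)
  int : ∀ n : ℤ, n ≠ 0 → IsUnit (n : V)

/-- the chart at infinity -/
structure ChI (x y : K) : Prop where
  noeth : IsNoetherianRing (A2 x y)
  ex : ∀ p : ℕ, p.Prime → ∃ S, Ifp x y p S
  uniq : ∀ p S S', Ifp x y p S → Ifp x y p S' → S = S'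
  mx : ∀ m : Ideal (A2 x y), m.IsMaximal → Inf m → ∃ p : ℕ, p.Prime ∧ (p : A2 x y) ∈ m
  reg : ∀ p S, Ifp x y p S → Loc2 S ∧ Pri S ∧ y ∉ S ∧ (∀ n : ℤ, ¬(p : ℤ) ∣ n → IsUnit (n : S)) ∧
    ¬IsUnit (p : S) ∧ ∀ G, Ver x y p G → ∃ (q : Ideal S) (_ : q.IsPrime),
      q = Ideal.span {(p : S)} ∧ q ≠ ⊥ ∧ ¬q.IsMaximal ∧ G = lc S q
  zer : ∃ V, Zer x y V ∧ ∀ (q : Ideal (A2 x y)) [q.IsPrime], Inf q → ¬q.IsMaximal → lc _ q = V

/-- the coordinate ring over the rationals -/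
noncomputable def Rq [CharZero K] (x y : K) : Subalgebra ℚ K := Algebra.adjoin ℚ {x, y}

noncomputable def xq [CharZero K] (x y : K) : Rq x y := ⟨x, Algebra.subset_adjoin (by simp)⟩

noncomputable def yq [CharZero K] (x y : K) : Rq x y := ⟨y, Algebra.subset_adjoin (by simp)⟩

/-- a generic point of the reduction -/
structure GnP (W : WeierstrassCurve ℤ) (p : ℕ) (x y : K) : Prop where
  pr : p.Prime
  ch : (p : K) = 0
  eq : eW W x y = 0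
  ind : ∀ A B : ℤ[X], gv x y A B = 0 → Dv p A B
  frac : ∀ u : K, ∃ A B A' B' : ℤ[X], gv x y A' B' ≠ 0 ∧ u * gv x y A' B' = gv x y A B

/-- a unit at `m` -/
def Un (x y : K) (m : Ideal (A1 x y)) (u : K) : Prop :=
  ∃ a b : A1 x y, a ∉ m ∧ b ∉ m ∧ u * b = a

/-- additive with integer values -/
def Adz (d : K → ℤ) : Prop := ∀ f g, f ≠ 0 → g ≠ 0 → d (f * g) = d f + d g

/-- what remains on a fibre -/
def Vn (W : WeierstrassCurve ℤ) (p : ℕ) (x y : K) (G : Subring K) {κ : Type} [Field κ]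
    (r : G →+* κ) (ν : κ → ℚ) : Prop :=
  (∀ u, u ≠ 0 → ν u = 0) ∨ ∃ x0 y0 α β : ℤ, Spl W p x0 y0 α β ∧
    (∀ q : ℤ[X], ¬C (p : ℤ) ∣ q → ν (resR G r (aeval x q)) = 0) ∧
    (ν (resR G r (gv x y (-(C α * X + C (y0 - α * x0))) 1)) = 0 → ∀ u, u ≠ 0 → ν u = 0)

/-- curves and closed points -/
abbrev Cv (Pt : Type) [Preorder Pt] : Type := {C : Pt // Order.height C = 1}

abbrev Cl (Pt : Type) [Preorder Pt] : Type := {z : Pt // Order.height z = 0}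

variable (x y : K) {Pt : Type} [Preorder Pt] (O : Pt → Subring K) {κ : Pt → Type}
  [∀ z, Field (κ z)] (r : ∀ z, O z →+* κ z)

structure Geo1 : Prop where
  inj : Function.Injective O
  cl : ∀ z, Order.height z = 0 ↔ ∃ p, Aff x y p (O z) ∨ Ifp x y p (O z)
  cle : ∀ p S, Aff x y p S ∨ Ifp x y p S → ∃ z, O z = S
  cv : ∀ C, Order.height C = 1 ↔ H1 (A1 x y) (O C) ∨ Zer x y (O C)
  cve : ∀ S, H1 (A1 x y) S ∨ Zer x y S → ∃ C, O C = S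
  top : ∀ z, O z = ⊤ → Order.height z = 2
  dv : ∀ C, Order.height C = 1 → DV (O C) (r C)

def Geo2 : Prop := ∀ z : Cl Pt,
  Loc2 (O z.1) ∧ Thr (O z.1) (fun C : Cv Pt => O C.1) (fun C => r C.1)

structure Geo3 [CharZero K] : Prop where
  plc : ∀ C : Cv Pt, (∃ P : Place K, O C.1 = P.V.toSubring) ∨ ∃ p, Ver x y p (O C.1)
  ple : ∀ P : Place K, ∃ C : Cv Pt, O C.1 = P.V.toSubring
  vee : ∀ p : ℕ, p.Prime → ∃ C : Cv Pt, Ver x y p (O C.1)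
  exc : ∀ p (P : Place K), ¬Ver x y p P.V.toSubring
  veq : ∀ p p' S S', Ver x y p S → Ver x y p' S' → (p = p' ↔ S = S')
  on : ∀ p p' S G, Aff x y p S ∨ Ifp x y p S → Ver x y p' G → (S ≤ G ↔ p' = p)
  ai : ∀ p p' S, Aff x y p S → ¬Ifp x y p' S
  zer : ∀ C : Cv Pt, x ∉ O C.1 → Zer x y (O C.1)

structure Geo [CharZero K] (W : WeierstrassCurve ℤ) : Prop
    extends Geo1 x y O r, Geo3 x y O where
  cha : ChA W x y
  chi : ChI x y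
  thr : Geo2 O r

/-- the coboundary of a function on closed points -/
noncomputable def cob (α : Cl Pt → ℚ) (C : Cv Pt) (u : κ C.1) : ℚ :=
  ∑ᶠ z : Cl Pt, (od (O C.1) (r C.1) (O z.1) u : ℚ) * α z

structure FinA : Prop where
  mul : ∀ (C : Cv Pt) (z : Cl Pt), Adz (od (O C.1) (r C.1) (O z.1))
  fin : ∀ (C : Cv Pt) u, u ≠ 0 → {z : Cl Pt | od (O C.1) (r C.1) (O z.1) u ≠ 0}.Finite
  ord : ∀ f : K, {C : Cv Pt | ordR (O C.1) f ≠ 0}.Finite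

end

/-- the shape of the rows about the function field -/
def AllG (Φ : ∀ (_ : WeierstrassCurve ℤ) (K : Type) [Field K] [CharZero K] (_ _ : K), Prop) : Prop :=
  ∀ (W : WeierstrassCurve ℤ) (K : Type) [Field K] [CharZero K] (x y : K), W.Δ ≠ 0 → Gn W x y →
    Φ W K x y

/-- the shape of the rows about all points -/
def AllP (Φ : ∀ (_ : WeierstrassCurve ℤ) (K : Type) [Field K] [CharZero K] (_ _ : K) (Pt : Type)
    [Preorder Pt] (O : Pt → Subring K) (κ : Pt → Type) [∀ z, Field (κ z)]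
    (_ : ∀ z, O z →+* κ z), Prop) : Prop :=
  ∀ (W : WeierstrassCurve ℤ) (K : Type) [Field K] [CharZero K] (x y : K) (Pt : Type) [Preorder Pt]
    (O : Pt → Subring K) (κ : Pt → Type) [∀ z, Field (κ z)] (r : ∀ z, O z →+* κ z),
    W.Δ ≠ 0 → Gn W x y → Φ W K x y Pt O κ r

def Ch1S : Prop := AllG fun _ _ _ _ x y => Ch1 x y

def Ch2S : Prop := AllG fun _ _ _ _ x y => Ch1 x y → Ch2 x y

def ModS : Prop := AllG fun W K _ _ x y =>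
  Model (xq x y) (yW W (xq x y) (yq x y)) (fW W) ∧ IsFractionRing (Rq x y) K

def ChAS : Prop := AllG fun W _ _ _ x y => ChA W x y

/-- the value at infinity -/
def InfA : Prop := AllG fun _ K _ _ x y => ∃ ε : A2 x y →+* ℤ,
  (∀ a : A2 x y, (a : K) = x / y ∨ (a : K) = 1 / y → ε a = 0) ∧
  ∀ (b : A2 x y) (p : ℕ), p.Prime → ¬(p : ℤ) ∣ ε b →
    ∃ (n : ℕ) (A B : ℤ[X]), y ^ n * b = gv x y A B ∧ ¬Dv p A B

def ChIS : Prop := AllG fun W _ _ _ x y => ChA W x y → ChI x y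

/-- two generators at a smooth point of a fibre -/
def SmS : Prop := AllG fun W _ _ _ x y => ∀ (m : Ideal (A1 x y)) (p : ℕ), m.IsMaximal →
  Finite (A1 x y ⧸ m) → p.Prime → (p : A1 x y) ∈ m →
  ¬(eX W (xa x y) (ya x y) ∈ m ∧ eY W (xa x y) (ya x y) ∈ m) →
  ∃ π ∈ m, ∀ a ∈ m, ∃ b c c', b ∉ m ∧ a * b = π * c + p * c'

def SmoS : Prop := AllG fun W K _ _ x y => ChA W x y → ∀ (m : Ideal (A1 x y)) [m.IsPrime] (p : ℕ),
  m.IsMaximal → p.Prime → (p : A1 x y) ∈ m →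
  ¬(eX W (xa x y) (ya x y) ∈ m ∧ eY W (xa x y) (ya x y) ∈ m) → Pri (lc _ m) ∧
  ∀ (G : Subring K) (κ : Type) [Field κ] (r : G →+* κ) (u : κ), Ver x y p G → DV G r → u ≠ 0 →
    od G r (lc _ m) u = 0 → ∃ a b : A1 x y, a ∉ m ∧ b ∉ m ∧ u * resR G r b = resR G r a

/-- singular points -/
def SingS : Prop := (∀ (W : WeierstrassCurve ℤ) (p : ℕ) (x0 y0 : ℤ), Sing W p x0 y0 → (p : ℤ) ∣ W.Δ) ∧
  ∀ (W : WeierstrassCurve ℤ) (B : Type) [CommRing B] (x y : B) (m : Ideal B) (p : ℕ), m.IsMaximal →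
    Finite (B ⧸ m) → p.Prime → (p : B) ∈ m → eW W x y = 0 → eX W x y ∈ m → eY W x y ∈ m →
    (∃ x0 y0 : ℤ, Sing W p x0 y0) ∧ ∀ x0 y0 : ℤ, Sing W p x0 y0 → x - x0 ∈ m

/-- the key lemma at a point fixed by the involution -/
def KeyS : Prop := AllG fun W K _ _ x y => ChA W x y → ∀ (m : Ideal (A1 x y)) [m.IsPrime]
  (I : Type) (O : I → Subring K) (κ : I → Type) [∀ C, Field (κ C)] (r : ∀ C, O C →+* κ C),
  m.IsMaximal → eY W (xa x y) (ya x y) ∈ m → Thr (lc _ m) O r →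
  ∀ f g, f ≠ 0 → g ≠ 0 → Kf (lc _ m) O r f g = 0

def VdB : Prop := ∀ (W : WeierstrassCurve ℤ) (p : ℕ) (κ : Type) [Field κ] (x y u : κ), GnP W p x y →
  u ≠ 0 → (∀ m : Ideal (A1 x y), m.IsMaximal → Un x y m u) → ∃ j : ℕ, 0 < j ∧ u ^ j = 1

/-- the slope as a parameter -/
def VdC1 : Prop := ∀ (W : WeierstrassCurve ℤ) (p : ℕ) [Fact p.Prime] (κ : Type) [Field κ]
  [Algebra (ZMod p) κ] (x y : κ) (x0 y0 : ℤ), GnP W p x y → Sing W p x0 y0 → ∃ z : κ,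
  x - x0 = z ^ 2 + W.a₁ * z - (W.a₂ + 3 * x0) ∧ y - y0 = z * (x - x0) ∧
  Transcendental (ZMod p) z ∧
  ∀ u : κ, ∃ g h : (ZMod p)[X], h ≠ 0 ∧ u * aeval z h = aeval z g

/-- rational functions with zeros and poles on a quadratic polynomial -/
def VdC2 : Prop := ∀ (k κ : Type) [Field k] [Finite k] [Field κ] [Algebra k κ] (z : κ) (Q : k[X]),
  Q.Monic → Q.natDegree = 2 → Transcendental k z →
  (∀ u : κ, ∃ g h : k[X], h ≠ 0 ∧ u * aeval z h = aeval z g) → ∃ d : κ → ℤ, Adz d ∧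
  ((∀ u, d u = 0) ∨ ∃ α β : k, α ≠ β ∧ Q = (X - C α) * (X - C β) ∧
    (∀ g : k[X], g ≠ 0 → d (aeval z (g.comp Q)) = 0) ∧ d (z - algebraMap k κ α) ≠ 0) ∧
  ∀ u, u ≠ 0 → (∀ π : k[X], Irreducible π → ¬π ∣ Q →
    ∃ g h : k[X], ¬π ∣ g ∧ ¬π ∣ h ∧ u * aeval z h = aeval z g) → d u = 0 →
    ∃ (i : ℤ) (j : ℕ), 0 < j ∧ u ^ j = aeval z Q ^ i

def VdC : Prop := ∀ (W : WeierstrassCurve ℤ) (p : ℕ) (κ : Type) [Field κ] (x y : κ) (x0 y0 : ℤ),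
  GnP W p x y → Sing W p x0 y0 → ∃ d : κ → ℤ, Adz d ∧
  ((∀ u, d u = 0) ∨ ∃ α β : ℤ, Spl W p x0 y0 α β ∧
    (∀ q : ℤ[X], ¬C (p : ℤ) ∣ q → d (aeval x q) = 0) ∧
    d (gv x y (-(C α * X + C (y0 - α * x0))) 1) ≠ 0) ∧
  ∀ u, u ≠ 0 → (∀ m : Ideal (A1 x y), m.IsMaximal → xa x y - x0 ∉ m → Un x y m u) → d u = 0 →
    ∃ (i : ℤ) (j : ℕ), 0 < j ∧ u ^ j = (x - x0) ^ i

/-- reduction modulo `p` -/
def RedP : Prop := AllG fun W K _ _ x y => ChA W x y → ∀ (p : ℕ) (G : Subring K) (κ : Type) [Field κ]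
  (r : G →+* κ), Ver x y p G → DV G r → GnP W p (resR G r x) (resR G r y) ∧
  (∀ A B : ℤ[X], resR G r (gv x y A B) = gv (resR G r x) (resR G r y) A B) ∧
  ∃ ρ : A1 x y →+* A1 (resR G r x) (resR G r y), Function.Surjective ρ ∧
    (∀ a, (ρ a : κ) = resR G r a) ∧ ∀ a, ρ a = 0 ↔ a ∈ Ideal.span {(p : A1 x y)}

/-- functions without zeros and poles on a fibre -/
def VdS : Prop := AllG fun W K _ _ x y => ChA W x y → ∀ (p : ℕ) (G : Subring K) (κ : Type) [Field κ]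
  (r : G →+* κ), Ver x y p G → DV G r → ∃ d : κ → ℤ, Adz d ∧
  ((∀ u, d u = 0) ∨ ∃ x0 y0 α β : ℤ, Spl W p x0 y0 α β ∧
    (∀ q : ℤ[X], ¬C (p : ℤ) ∣ q → d (resR G r (aeval x q)) = 0) ∧
    d (resR G r (gv x y (-(C α * X + C (y0 - α * x0))) 1)) ≠ 0) ∧
  ∀ u, u ≠ 0 → (∀ S, Aff x y p S → od G r S u = 0) → d u = 0 → ∃ j : ℕ, 0 < j ∧ u ^ j = 1

/-- the symbol on a fibre -/
def DelS : Prop := AllG fun W K _ _ x y => ChA W x y → ∀ (p : ℕ) (G : Subring K) (κ : Type) [Field κ]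
  (r : G →+* κ) (ν : κ → ℚ), Ver x y p G → DV G r → Addv ν → ∃ v δ : K → ℝ,
  (∀ g h, g ≠ 0 → h ≠ 0 → (ν (tameR G r g h) : ℝ) = v h * δ g - v g * δ h) ∧
  (∀ g h, g ≠ 0 → h ≠ 0 → v (g * h) = v g + v h) ∧ v p = 1 ∧
  (∀ A B : ℤ[X], ¬Dv p A B → v (gv x y A B) = 0 ∧ δ (gv x y A B) = ν (resR G r (gv x y A B))) ∧
  (∀ A B A' B' : ℤ[X], ¬Dv p A B → C (p : ℤ) ∣ A - A' → C (p : ℤ) ∣ B - B' →
    δ (gv x y A B) = δ (gv x y A' B')) ∧
  ((∀ q : ℤ[X], ¬C (p : ℤ) ∣ q → ν (resR G r (aeval x q)) = 0) →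
    ∀ q : ℚ[X], q ≠ 0 → δ (aeval x q) = 0)

def Geo1S : Prop := AllP fun W _ _ _ x y _ _ O _ _ r =>
  Dc x y O r → ChA W x y → ChI x y → Geo1 x y O r

def Geo2S : Prop := AllP fun W _ _ _ x y _ _ O _ _ r =>
  ChA W x y → ChI x y → Geo1 x y O r → Geo2 O r

def Geo3S : Prop := AllP fun W _ _ _ x y _ _ O _ _ r =>
  ChA W x y → ChI x y → Geo1 x y O r → Geo3 x y O

def FinX : Prop := AllP fun W _ _ _ x y _ _ O _ _ r => Geo x y O r W → FinA O r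

/-- the key lemma -/
def KeyA : Prop := AllP fun W _ _ _ x y Pt _ O _ _ r => Geo x y O r W → ∀ (z : Cl Pt) f g, f ≠ 0 →
  g ≠ 0 → Kf (O z.1) (fun C : Cv Pt => O C.1) (fun C => r C.1) f g = 0

/-- the zero section -/
def ZeroS : Prop := AllP fun W _ _ _ x y Pt _ O κ _ r => Geo x y O r W → FinA O r →
  ∀ (C : Cv Pt) (lam : κ C.1 → ℚ) (α : Cl Pt → ℚ), x ∉ O C.1 → Addv lam →
  (∀ (p : ℕ) (z : Cl Pt), Ifp x y p (O z.1) → α z = lam p) → ∀ u, u ≠ 0 → lam u = cob O r α C u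

/-- one fibre -/
def VerS : Prop := AllP fun W _ _ _ x y Pt _ O κ _ r => Geo x y O r W → FinA O r →
  ∀ (C : Cv Pt) (p : ℕ) (lam : κ C.1 → ℚ) (a : ℚ), Ver x y p (O C.1) → Addv lam →
  ∃ α : Cl Pt → ℚ, (∀ z : Cl Pt, Ifp x y p (O z.1) → α z = a) ∧
    Vn W p x y (O C.1) (r C.1) fun u => lam u - cob O r α C u

/-- horizontal curves are places -/
def HorS : Prop := AllP fun W K _ _ x y Pt _ O κ _ r => Geo x y O r W → FinA O r →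
  ∀ (lam : ∀ C : Cv Pt, κ C.1 → ℚ) (Cp : ℕ → Cv Pt) (s : Finset ℕ), (∀ C, Addv (lam C)) →
  (∀ p : ℕ, p.Prime → Ver x y p (O (Cp p).1)) → (∀ p ∈ s, p.Prime) →
  (∀ p : ℕ, p.Prime → p ∉ s → ∀ u, u ≠ 0 → lam (Cp p) u = 0) →
  (∀ C : Cv Pt, x ∉ O C.1 → ∀ u, u ≠ 0 → lam C u = 0) →
  ∃ μ : ∀ P : Place K, ResidueField P.V → ℚ, (∀ P, Addv (μ P)) ∧
    (∀ (P : Place K) a, a ≠ 0 → x ∉ P.V → μ P a = 0) ∧
    (∀ g h : K, g ≠ 0 → h ≠ 0 → ∑ᶠ C, lam C (tameR (O C.1) (r C.1) g h) =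
      ∑ᶠ P, μ P (P.tame g h) + ∑ p ∈ s, lam (Cp p) (tameR (O (Cp p).1) (r (Cp p).1) g h)) ∧
    ((∀ (P : Place K) a, a ≠ 0 → μ P a = 0) → ∀ (C : Cv Pt) (P : Place K),
      O C.1 = P.V.toSubring → ∀ u, u ≠ 0 → lam C u = 0)

/-- reduced functionals vanish -/
def RedS : Prop := AllP fun W K _ _ x y Pt _ O κ _ r => Geo x y O r W → FinA O r →
  ∀ lam : ∀ C : Cv Pt, κ C.1 → ℚ, (∀ C, Addv (lam C)) →
  (∀ g h : K, g ≠ 0 → h ≠ 0 → ∑ᶠ C, lam C (tameR (O C.1) (r C.1) g h) = 0) →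
  (∀ C : Cv Pt, x ∉ O C.1 → ∀ u, u ≠ 0 → lam C u = 0) →
  (∀ (C : Cv Pt) (p : ℕ), Ver x y p (O C.1) → Vn W p x y (O C.1) (r C.1) (lam C)) →
  ∀ C u, u ≠ 0 → lam C u = 0

def OfChA : Prop := LcS → RDed → RCj → Ch1S → Ch2S → ModS → ChAS
def OfChI : Prop := LcS → RegS → InfA → ChIS
def OfSmo : Prop := LcS → OdS → RegS → SmS → SmoS
def OfKeyS : Prop := LcS → RQuad → KbS → FulS → KsS → KeyS
def OfVdC : Prop := VdC1 → VdC2 → VdC
def OfRedP : Prop := LcS → RedP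
def OfVd : Prop := LcS → OdS → SmoS → SingS → VdB → VdC → RedP → VdS
def OfDel : Prop := LcS → DelS
def OfGeo1 : Prop := LcS → HtS → Geo1S
def OfGeo2 : Prop := LcS → Geo2S
def OfGeo3 : Prop := LcS → Geo3S
def OfFinX : Prop := LcS → OdS → FinC → FinX
def OfKeyA : Prop := SmoS → KeyU → KeyS → KeyA
def OfZero : Prop := LcS → OdS → CobS → ZeroS
def OfVer : Prop := VaS → RedP → VdS → VerS
def OfHor : Prop := TrS → HorS
def OfRed : Prop := TwS → RBr → RAll → ModS → SingS → TwiS → DelS → HorS → RedS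
def OfMain : Prop := ChAS → ChIS → Geo1S → Geo2S → Geo3S → FinX → KeyA → CobS → ZeroS → VerS →
  RedS → MainW

end Pool.Agent.MP_f3836a_nt.VE.W
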