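import Pool.Agent.MP_f3836a_nt.VE.SpecW4

/-! Part Z1: regular local rings of dimension two inside a field, blowing up. -/

set_option autoImplicit false

namespace Pool.Agent.MP_f3836a_nt.VE.Z

open Polynomial IsLocalRing PK VE.A VE.T VE.W

section
variable {K : Type} [Field K]

/-- a non-unit of `O` -/
def Nu (O : Subring K) (z : K) : Prop := z ∈ O ∧ (z = 0 ∨ z⁻¹ ∉ O)

/-- a unit of `O` -/
def Ut (O : Subring K) (z : K) : Prop := z ≠ 0 ∧ z ∈ O ∧ z⁻¹ ∈ O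

/-- the residue is a root of unity -/
def Tor (O : Subring K) (z : K) : Prop := ∃ j : ℕ, 0 < j ∧ Nu O (z ^ j - 1)

/-- `O` dominates `D` -/
def Dom (D O : Subring K) : Prop := D ≤ O ∧ ∀ z, Nu D z → Nu O z

variable {D O : Subring K} {a b c : K}

theorem ut_iff (z : D) : Ut D z ↔ IsUnit z :=
  ⟨fun h => IsUnit.of_mul_eq_one ⟨_, h.2.2⟩ (Subtype.ext (mul_inv_cancel₀ h.1)), fun h => by
    obtain ⟨w, e⟩ := h.exists_right_inv
    have e' : (z : K) * w = 1 := congrArg Subtype.val e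
    exact ⟨left_ne_zero_of_mul_eq_one e', z.2, eq_inv_of_mul_eq_one_right e' ▸ w.2⟩⟩

theorem nu_iff_not (h : a ∈ D) : Nu D a ↔ ¬Ut D a := by
  unfold Nu Ut; tauto

theorem nu_iff (z : D) : Nu D z ↔ ¬IsUnit z := by rw [nu_iff_not z.2, ut_iff]

theorem nu_or (h : a ∈ D) : Nu D a ∨ Ut D a := by rw [nu_iff_not h]; tauto

theorem Nu.not (h : Nu D a) : ¬Ut D a := (nu_iff_not h.1).1 h

theorem nu_zero : Nu D 0 := ⟨D.zero_mem, .inl rfl⟩

theorem ut_one : Ut D 1 := ⟨one_ne_zero, D.one_mem, by simp⟩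

theorem Nu.mul (h : Nu D a) (hc : c ∈ D) : Nu D (c * a) :=
  (nu_iff (⟨c, hc⟩ * ⟨a, h.1⟩ : D)).2 fun e => (nu_iff ⟨a, h.1⟩).1 h (isUnit_of_mul_isUnit_right e)

theorem Nu.neg (h : Nu D a) : Nu D (-a) := by simpa using h.mul (D.neg_mem D.one_mem)

theorem Nu.add [IsLocalRing D] (h : Nu D a) (h' : Nu D b) : Nu D (a + b) :=
  (nu_iff (⟨a, h.1⟩ + ⟨b, h'.1⟩ : D)).2 fun e =>
    (isUnit_or_isUnit_of_isUnit_add e).elim ((nu_iff ⟨a, h.1⟩).1 h) ((nu_iff ⟨b, h'.1⟩).1 h')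

theorem Nu.sub [IsLocalRing D] (h : Nu D a) (h' : Nu D b) : Nu D (a - b) := by
  rw [sub_eq_add_neg]; exact h.add h'.neg

theorem Ut.add [IsLocalRing D] (h : Ut D a) (h' : Nu D b) : Ut D (a + b) :=
  (nu_or (D.add_mem h.2.1 h'.1)).resolve_left fun e => (by simpa using e.sub h' : Nu D a).not h

theorem Ut.mul (h : Ut D a) (h' : Ut D b) : Ut D (a * b) :=
  ⟨mul_ne_zero h.1 h'.1, D.mul_mem h.2.1 h'.2.1, mul_inv a b ▸ D.mul_mem h.2.2 h'.2.2⟩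

theorem Ut.inv (h : Ut D a) : Ut D a⁻¹ := ⟨inv_ne_zero h.1, h.2.2, (inv_inv a).symm ▸ h.2.1⟩

theorem Ut.div (h : Ut D a) (h' : Ut D b) : Ut D (a / b) := div_eq_mul_inv a b ▸ h.mul h'.inv

theorem Ut.pow (h : Ut D a) (n : ℕ) : Ut D (a ^ n) :=
  ⟨pow_ne_zero n h.1, D.pow_mem h.2.1 n, inv_pow a n ▸ D.pow_mem h.2.2 n⟩

theorem Ut.zpow (h : Ut D a) (n : ℤ) : Ut D (a ^ n) := by
  obtain ⟨m, rfl | rfl⟩ := n.eq_nat_or_neg
  · rw [zpow_natCast]; exact h.pow m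
  · rw [zpow_neg, zpow_natCast]; exact (h.pow m).inv

theorem Ut.mono (h : Ut D a) (e : D ≤ O) : Ut O a := ⟨h.1, e h.2.1, e h.2.2⟩

theorem Dom.ut (h : Dom D O) (ha : a ∈ D) (u : Ut O a) : Ut D a :=
  (nu_or ha).resolve_left fun e => (h.2 a e).not u

theorem Dom.tor (h : Dom D O) (t : Tor D a) : Tor O a := t.imp fun _ e => ⟨e.1, h.2 _ e.2⟩

theorem Dom.trans {S : Subring K} (h : Dom D O) (h' : Dom O S) : Dom D S :=
  ⟨h.1.trans h'.1, fun z e => h'.2 z (h.2 z e)⟩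

theorem Nu.pow_sub (ha : a ∈ D) (hb : b ∈ D) (h : Nu D (a - b)) (n : ℕ) : Nu D (a ^ n - b ^ n) := by
  rw [← (Commute.all a b).geom_sum₂_mul n]
  exact h.mul (D.sum_mem fun i _ => D.mul_mem (D.pow_mem ha _) (D.pow_mem hb _))

theorem Nu.tor (h : Nu D (a - 1)) : Tor D a := ⟨1, one_pos, by rwa [pow_one]⟩

theorem Tor.of_pow {n : ℕ} (hn : 0 < n) (h : Tor D (a ^ n)) : Tor D a := by
  obtain ⟨j, hj, e⟩ := h
  exact ⟨n * j, mul_pos hn hj, by rwa [pow_mul]⟩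

theorem Tor.pow_mul {j : ℕ} (h : Nu D (a ^ j - 1)) (n : ℕ) : Nu D (a ^ (j * n) - 1) := by
  simpa [_root_.pow_mul] using
    Nu.pow_sub (by simpa using D.add_mem h.1 D.one_mem) D.one_mem h n

theorem Tor.mul [IsLocalRing D] (h : Tor D a) (h' : Tor D b) : Tor D (a * b) := by
  obtain ⟨i, hi, e⟩ := h
  obtain ⟨j, hj, e'⟩ := h'
  have h1 := Tor.pow_mul e j
  have h2 := Tor.pow_mul e' i
  refine ⟨i * j, mul_pos hi hj, ?_⟩
  have := (h1.mul (c := b ^ (j * i)) (by simpa using D.add_mem h2.1 D.one_mem)).add h2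
  convert this using 1
  rw [mul_pow, mul_comm j i]; ring

theorem Tor.pow (h : Tor D a) (n : ℕ) : Tor D (a ^ n) := h.imp fun j e =>
  ⟨e.1, by rw [← _root_.pow_mul, mul_comm]; exact Tor.pow_mul e.2 n⟩

theorem Tor.inv (u : Ut D a) (h : Tor D a) : Tor D a⁻¹ := h.imp fun j e => ⟨e.1, by
  have := (e.2.mul (u.pow j).2.2).neg
  convert this using 1
  rw [inv_pow, mul_sub, inv_mul_cancel₀ (pow_ne_zero j u.1)]
  ring⟩

theorem Tor.congr [IsLocalRing D] (ha : a ∈ D) (hb : b ∈ D) (e : Nu D (a - b)) (h : Tor D b) :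
    Tor D a := h.imp fun j t => ⟨t.1, by simpa using (Nu.pow_sub ha hb e j).add t.2⟩

/-- a discrete valuation ring of `K` -/
structure Dvr (O : Subring K) : Prop where
  dvr : IsDiscreteValuationRing O
  fr : Fr O

open Classical in
/-- the order at the point `D` of the residue of `z` on the curve `O` -/
noncomputable def oK (O D : Subring K) (z : K) : ℤ :=
  if h : IsLocalRing O then od O (@residue O _ h) D (resR O (@residue O _ h) z) else 0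

theorem oK_eq [h : IsLocalRing O] (z : K) :
    oK O D z = od O (residue O) D (resR O (residue O) z) := dif_pos h

/-- a lift of the boundary of a product of symbols -/
noncomputable def bdE (l : List (K × K)) (O : Subring K) : K := (l.map fun s => tameE O s.1 s.2).prod

def NZ (l : List (K × K)) : Prop := ∀ s ∈ l, s.1 ≠ 0 ∧ s.2 ≠ 0

/-- generators of the maximal ideal -/
def Gen (D : Subring K) (a b : K) : Prop :=
  a ∈ D ∧ b ∈ D ∧ ∀ z, Nu D z ↔ ∃ u ∈ D, ∃ v ∈ D, z = u * a + v * b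

theorem Gen.swap (h : Gen D a b) : Gen D b a := ⟨h.2.1, h.1, fun z => (h.2.2 z).trans
  ⟨fun ⟨u, hu, v, hv, e⟩ => ⟨v, hv, u, hu, by rw [e, add_comm]⟩,
    fun ⟨u, hu, v, hv, e⟩ => ⟨v, hv, u, hu, by rw [e, add_comm]⟩⟩⟩

/-- all units have torsion residue -/
def Alg (D : Subring K) : Prop := ∀ z, Ut D z → Tor D z

/-- a regular closed point -/
structure Rg (D : Subring K) : Prop where
  loc : IsLocalRing D
  noeth : IsNoetherianRing D
  fr : Fr D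
  alg : Alg D
  gen : ∃ a b, Gen D a b
  cur : ∃ q : Ideal D, q.IsPrime ∧ q ≠ ⊥ ∧ ¬q.IsMaximal

/-- units at all discrete valuation rings -/
def Us (ψ : Subring K → K) : Prop := ∀ O, Dvr O → Ut O (ψ O)

/-- finite support on the curves through `D` -/
def Fs (D : Subring K) (ψ : Subring K → K) : Prop := {O | H1 D O ∧ ¬Nu O (ψ O - 1)}.Finite

/-- a cycle at `D` -/
def Cyc (D : Subring K) (ψ : Subring K → K) : Prop :=
  Fs D ψ ∧ ∑ᶠ (O) (_ : H1 D O), oK O D (ψ O) = 0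

/-- a cycle at all regular points -/
def RZ (ψ : Subring K → K) : Prop := Us ψ ∧ ∀ D, Rg D → Cyc D ψ

/-- facts about a discrete valuation ring -/
structure DvA (O : Subring K) : Prop where
  loc : IsLocalRing O
  dv : ∀ [IsLocalRing O], DV O (residue O)
  ne : O ≠ ⊤
  max : ∀ S, O ≤ S → S = O ∨ S = ⊤
  val : ∀ z, z ∈ O ∨ z⁻¹ ∈ O
  mul : ∀ f g, f ≠ 0 → g ≠ 0 → ordR O (f * g) = ordR O f + ordR O g
  zpow : ∀ f (n : ℤ), f ≠ 0 → ordR O (f ^ n) = n * ordR O f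
  mem : ∀ f, f ≠ 0 → (f ∈ O ↔ 0 ≤ ordR O f)
  ut : ∀ f, Ut O f ↔ f ≠ 0 ∧ ordR O f = 0
  nu : ∀ f, Nu O f ↔ f = 0 ∨ 0 < ordR O f
  uni : ∃ π, π ≠ 0 ∧ ordR O π = 1
  res : ∀ (κ : Type) [Field κ] (r : O →+* κ), DV O r → ∀ a ∈ O, ∀ b ∈ O,
    (resR O r a = resR O r b ↔ Nu O (a - b))
  bd : ∀ l, NZ l → Ut O (bdE l O) ∧ Nu O (bdE l O * bdE (l.map Prod.swap) O - 1) ∧
    ∀ (κ : Type) [Field κ] (r : O →+* κ), DV O r →
      resR O r (bdE l O) = (l.map fun s => tameR O r s.1 s.2).prod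
  one : ∀ l : List (K × K), (∀ s ∈ l, ordR O s.1 = 0 ∧ ordR O s.2 = 0) → bdE l O = 1
  int : ∀ z (q : O[X]), q.Monic → aeval z q = 0 → z ∈ O

/-- `g` is an equation of the curve `O` -/
structure Eqn (D O : Subring K) (g : K) : Prop where
  mem : g ∈ D
  ne : g ≠ 0
  ord : ordR O g = 1
  oth : ∀ O', H1 D O' → O' ≠ O → Ut O' g
  div : ∀ z ∈ D, Nu O z ↔ z / g ∈ D

/-- `O` is the curve `a = 0` with parameter `b` -/
structure Ax (D : Subring K) (a b : K) (O : Subring K) : Prop extends Eqn D O a where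
  h1 : H1 D O
  ut : Ut O b
  one : oK O D b = 1
  nf : ∀ u, Ut O u → ∃ (w : K) (k : ℤ), Ut D w ∧ Nu O (u - w * b ^ k)

/-- facts about a regular point -/
structure RgA (D : Subring K) : Prop where
  loc2 : Loc2 D
  pri : Pri D
  dvr : ∀ O, H1 D O → Dvr O ∧ D ≤ O ∧ ¬Dom D O
  cen : ∀ V, Dvr V → D ≤ V → H1 D V ∨ Dom D V
  eqn : ∀ O, H1 D O → ∃ g, Eqn D O g
  ex : ∀ g, Nu D g → g ≠ 0 → ∃ O, H1 D O ∧ Nu O g
  fin : ∀ f, {O | H1 D O ∧ ordR O f ≠ 0}.Finite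
  mul : ∀ O u u', H1 D O → Ut O u → Ut O u' → oK O D (u * u') = oK O D u + oK O D u'
  zpow : ∀ O u (n : ℤ), H1 D O → Ut O u → oK O D (u ^ n) = n * oK O D u
  cg : ∀ O, H1 D O → ∀ u ∈ O, ∀ u' ∈ O, Nu O (u - u') → oK O D u = oK O D u'
  tor : ∀ O u, H1 D O → Ut O u → Tor O u → oK O D u = 0
  pos : ∀ O, H1 D O → ∀ a ∈ D, Ut O a → 0 ≤ oK O D a ∧ (oK O D a = 0 ↔ Ut D a)
  frac : ∀ O, H1 D O → ∀ u ∈ O, ∃ a ∈ D, ∃ b ∈ D, Ut O b ∧ u * b = a
  rad : ∀ O, H1 D O → ∀ f ∈ D, Ut O f → ∀ a, Nu D a → ∃ (n : ℕ), ∃ c ∈ D, Nu O (a ^ n - c * f)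

/-- cycles at a regular point -/
structure CyA (D : Subring K) : Prop where
  ax : ∀ a b, Gen D a b → ∃ O, Ax D a b O
  key : ∀ l, NZ l → Cyc D (bdE l)
  mul : ∀ ψ ψ', Us ψ → Us ψ' → Cyc D ψ → Cyc D ψ' → Cyc D fun O => ψ O * ψ' O
  cg : ∀ ψ ψ', Us ψ → Us ψ' → (∀ O, H1 D O → Nu O (ψ O - ψ' O)) → Cyc D ψ → Cyc D ψ'
  one : ∀ ψ O, Us ψ → Cyc D ψ → H1 D O → (∀ O', H1 D O' → O' ≠ O → Tor O' (ψ O')) →
    oK O D (ψ O) = 0
  two : ∀ ψ O O₁, Us ψ → Cyc D ψ → H1 D O → H1 D O₁ → O ≠ O₁ →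
    (∀ O', H1 D O' → O' ≠ O → O' ≠ O₁ → Tor O' (ψ O')) → oK O D (ψ O) + oK O₁ D (ψ O₁) = 0
  of : ∀ ψ O, Us ψ → H1 D O → (∀ O', H1 D O' → O' ≠ O → Nu O' (ψ O' - 1)) → oK O D (ψ O) = 0 →
    Cyc D ψ

/-- a closed point of `B` on `a = 0` -/
def Pp (B : Subring K) (a : K) (D : Subring K) : Prop :=
  ∃ (n : Ideal B) (_ : n.IsPrime), n.IsMaximal ∧ (∀ z : B, (z : K) = a → z ∈ n) ∧ D = lc B n

/-- `a = 0` is an integral curve all of whose points are regular -/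
structure Fb (B : Subring K) (a : K) : Prop where
  noeth : IsNoetherianRing B
  fr : Fr B
  mem : a ∈ B
  ne : a ≠ 0
  pr : ∀ z ∈ B, ∀ z' ∈ B, z * z' / a ∈ B → z / a ∈ B ∨ z' / a ∈ B
  nm : ∃ t ∈ B, t / a ∉ B ∧ ∀ s ∈ B, (t * s - 1) / a ∉ B
  gen : ∀ D, Pp B a D → (∃ w, Gen D a w) ∧ Alg D

/-- the local ring of this curve -/
structure Cu (B : Subring K) (a : K) (E : Subring K) : Prop where
  dvr : Dvr E
  le : B ≤ E
  mem : a ∈ B
  ne : a ≠ 0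
  ord : ordR E a = 1
  div : ∀ z ∈ B, Nu E z ↔ z / a ∈ B
  frac : ∀ u ∈ E, ∃ c ∈ B, ∃ d ∈ B, Ut E d ∧ u * d = c
  pt : ∀ D, Pp B a D → Rg D ∧ B ≤ D ∧ ∃ w, Gen D a w ∧ Ax D a w E
  con : ∀ u, Ut E u → (∀ D, Pp B a D → oK E D u = 0) →
    ∃ w ∈ B, ∃ w' ∈ B, Nu E (u - w) ∧ Nu E (w * w' - 1)
  cov : ∀ V, Dvr V → B ≤ V → Nu V a → V = E ∨ ∃ D, Pp B a D ∧ Dom D V

/-- a chart of the blow up -/
def Bl (D : Subring K) (t : K) : Subring K := Subring.closure (insert t (D : Set K))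

/-- the exceptional curve -/
structure Ex (D : Subring K) (a b : K) (E : Subring K) : Prop extends Cu (Bl D (b / a)) a E where
  dom : Dom D E
  ut : Ut E (b / a)
  ntor : ¬Tor E (b / a)
  pt' : ∀ D', Pp (Bl D (b / a)) a D' → Dom D D' ∧ ∀ O, H1 D' O → O = E ∨ (H1 D O ∧ Ut O a)
  con' : ∀ u, Ut E u → (∀ D', Pp (Bl D (b / a)) a D' → oK E D' u = 0) → Tor E u
  org : ∃ D', Pp (Bl D (b / a)) a D' ∧ Gen D' (b / a) a ∧ ∀ O, Ax D b a O → Ax D' (b / a) a O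

end

def DvS : Prop := ∀ (K : Type) [Field K] (O : Subring K), Dvr O → DvA O

def RgS : Prop := ∀ (K : Type) [Field K] (D : Subring K), Rg D → RgA D

def CyS : Prop := ∀ (K : Type) [Field K] (D : Subring K), Rg D → CyA D

/-- a criterion -/
def RgI : Prop := ∀ (K : Type) [Field K] (D V : Subring K) (a b : K), IsLocalRing D →
  IsNoetherianRing D → Fr D → Alg D → Gen D a b → Dvr V → D ≤ V → ¬Dom D V → Rg D

/-- one curve -/
def Lg1 : Prop := ∀ (K : Type) [Field K] (D A O : Subring K) (a b u : K), Rg D → Gen D a b →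
  Ax D a b A → H1 D O → O ≠ A → Ut O u → ∃ l, NZ l ∧ Nu O (u - bdE l O) ∧
    ∀ O', H1 D O' → O' ≠ O → O' ≠ A → Nu O' (bdE l O' - 1)

/-- all curves but one -/
def LgS : Prop := ∀ (K : Type) [Field K] (D A : Subring K) (a b : K) (ψ : Subring K → K), Rg D →
  Gen D a b → Ax D a b A → Us ψ → Fs D ψ →
  ∃ l, NZ l ∧ ∀ O, H1 D O → O ≠ A → Nu O (ψ O - bdE l O)

/-- cycles are boundaries at a regular point -/
def LgF : Prop := ∀ (K : Type) [Field K] (D : Subring K) (ψ : Subring K → K), Rg D → Us ψ →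
  Cyc D ψ → ∃ l, NZ l ∧ ∀ O, H1 D O → Nu O (ψ O - bdE l O)

def CuS : Prop := ∀ (K : Type) [Field K] (B : Subring K) (a : K), Fb B a → ∃ E, Cu B a E

def CuU : Prop := ∀ (K : Type) [Field K] (B E E' : Subring K) (a : K), Cu B a E → Cu B a E' → E = E'

/-- the chart modulo `a` is a polynomial ring -/
def BlA : Prop := ∀ (K : Type) [Field K] (D : Subring K) [IsLocalRing D] (a b : K), Rg D →
  Gen D a b → a ≠ 0 ∧ IsNoetherianRing (Bl D (b / a)) ∧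
  ∃ ρ : Bl D (b / a) →+* (ResidueField D)[X], Function.Surjective ρ ∧
    (∀ z : Bl D (b / a), (z : K) = b / a → ρ z = X) ∧
    (∀ (z : Bl D (b / a)) (d : D), (z : K) = d → ρ z = C (residue D d)) ∧
    ∀ z : Bl D (b / a), ρ z = 0 ↔ (z : K) / a ∈ Bl D (b / a)

def BlF : Prop := ∀ (K : Type) [Field K] (D : Subring K) (a b : K), Rg D → Gen D a b →
  Fb (Bl D (b / a)) a

def ExS : Prop := ∀ (K : Type) [Field K] (D : Subring K) (a b : K), Rg D → Gen D a b →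
  ∃ E, Ex D a b E

/-- descent along a blow up -/
def DeS : Prop := ∀ (K : Type) [Field K] (D : Subring K) (ψ : Subring K → K), Rg D → Us ψ →
  Fs D ψ → (∀ a b D', Gen D a b → Pp (Bl D (b / a)) a D' → Cyc D' ψ) → Cyc D ψ

/-- orders do not grow in a larger ring -/
def KaS : Prop := ∀ (K : Type) [Field K] (D D' O : Subring K) (f : K), Rg D → Rg D' → Dom D D' →
  H1 D O → H1 D' O → f ∈ D → Ut O f → oK O D' f ≤ oK O D f

/-- the measure of indeterminacy -/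
def MeS : Prop := ∀ (K : Type) [Field K], ∃ μ : Subring K → K → ℕ, ∀ (D D' : Subring K) (a b t : K),
  Rg D → Gen D a b → Pp (Bl D (b / a)) a D' →
  μ D' t ≤ μ D t ∧ (t ∉ D → t⁻¹ ∉ D → μ D' t < μ D t)

/-- `S` contains a chart -/
def Cht {K ι : Type} [Field K] (ξ : ι → K) (S : Subring K) : Prop := ∃ i, ξ i ≠ 0 ∧ ∀ j, ξ j / ξ i ∈ S

/-- elimination of indeterminacy -/
def ElS : Prop := ∀ (K ι : Type) [Field K] [Fintype ι] (ξ : ι → K) (ψ : Subring K → K),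
  (∃ i, ξ i ≠ 0) → Us ψ → (∀ D, Rg D → Fs D ψ) → (∀ D, Rg D → Cht ξ D → Cyc D ψ) → RZ ψ

/-- the tree above a regular point -/
def TrT : Prop := ∀ (K : Type) [Field K] (D V : Subring K) (ψ : Subring K → K), RZ ψ → Rg D →
  (∀ O, H1 D O → Tor O (ψ O)) → Dvr V → Dom D V → Tor V (ψ V)

/-- one curve and everything above it -/
def CuT : Prop := ∀ (K : Type) [Field K] (B E : Subring K) (a : K) (ψ : Subring K → K), RZ ψ →
  Cu B a E → (∀ V, Dvr V → B ≤ V → Ut V a → Tor V (ψ V)) →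
  (∃ w ∈ B, ∃ w' ∈ B, Nu E (ψ E - w) ∧ Nu E (w * w' - 1)) ∧
  (Tor E (ψ E) → ∀ V, Dvr V → B ≤ V → Tor V (ψ V))

def OfRg : Prop := LcS → OdS → RegS → KbS → DvS → RgS
def OfRgI : Prop := LcS → DvS → RgI
def OfCy : Prop := LcS → OdS → RegS → KeyU → DvS → RgS → CyS
def OfLg1 : Prop := DvS → RgS → CyS → Lg1
def OfLg : Prop := DvS → RgS → CyS → Lg1 → LgS ∧ LgF
def OfCu : Prop := LcS → DvS → RgS → CyS → CuS ∧ CuU
def OfBlA : Prop := DvS → RgS → CyS → BlA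
def OfBlF : Prop := LcS → BlA → BlF
def OfEx : Prop := LcS → DvS → RgS → CyS → BlA → BlF → CuS → ExS
def OfDe : Prop := DvS → RgS → CyS → LgS → ExS → DeS
def OfKa : Prop := LcS → OdS → DvS → RgS → KaS
def OfMe : Prop := DvS → RgS → CyS → ExS → KaS → MeS
def OfEl : Prop := ExS → DeS → MeS → ElS
def OfTr : Prop := DvS → RgS → CyS → ExS → TrT ∧ CuT

end Pool.Agent.MP_f3836a_nt.VE.Z
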