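import Pool.Agent.MP_f3836a_nt.VE.SpecZ1

/-! Part Z2: models over a discrete valuation ring. -/

set_option autoImplicit false

namespace Pool.Agent.MP_f3836a_nt.VE.Z

open Polynomial IsLocalRing PK VE.A VE.T VE.W

section
variable {K : Type} [Field K]

/-- the base ring -/
structure Bs (R : Subring K) (π : R) : Prop where
  dvr : IsDiscreteValuationRing R
  irr : Irreducible π
  fin : Finite (R ⧸ Ideal.span {π})

variable {R : Subring K}

theorem Bs.dvd {π c : R} (h : Bs R π) : π ∣ c ↔ ¬IsUnit c := by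
  have := h.dvr
  rw [← Ideal.mem_span_singleton, ← h.irr.maximalIdeal_eq, mem_maximalIdeal, mem_nonunits_iff]

theorem Bs.eq {π c : R} (h : Bs R π) (hc : c ≠ 0) : ∃ (n : ℕ) (u : Rˣ), c = u * π ^ n :=
  have := h.dvr
  IsDiscreteValuationRing.eq_unit_mul_pow_irreducible hc h.irr

theorem Bs.ne {π : R} (h : Bs R π) : (π : K) ≠ 0 := fun e => h.irr.ne_zero (Subtype.ext e)

theorem Bs.nu {π c : R} (h : Bs R π) {V : Subring K} (le : R ≤ V) (hV : Nu V π) (hc : ¬IsUnit c) :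
    Nu V c := by
  obtain ⟨d, rfl⟩ := h.dvd.2 hc
  rw [Subring.coe_mul, mul_comm]
  exact hV.mul (le d.2)

theorem Bs.tor {π c : R} (h : Bs R π) {V : Subring K} (le : R ≤ V) (hV : Nu V π) (hc : IsUnit c) :
    Tor V c := by
  have := h.fin
  obtain ⟨u, rfl⟩ := hc
  obtain ⟨j, hj, e⟩ := isOfFinOrder_iff_pow_eq_one.1
    (isOfFinOrder_of_finite (Units.map (Ideal.Quotient.mk (Ideal.span {π})).toMonoidHom u))
  obtain ⟨d, hd⟩ : π ∣ (u : R) ^ j - 1 := Ideal.mem_span_singleton.1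
    (Ideal.Quotient.eq.1 (by simpa using congrArg Units.val e))
  refine ⟨j, hj, ?_⟩
  have : ((u : R) : K) ^ j - 1 = d * π := by rw [mul_comm]; exact_mod_cast congrArg Subtype.val hd
  exact this ▸ hV.mul (le d.2)

theorem noeth_cl [IsNoetherianRing R] {s : Set K} (hs : s.Finite) :
    IsNoetherianRing (Subring.closure ((R : Set K) ∪ s)) := by
  have e : (Algebra.adjoin R s).toSubring = Subring.closure ((R : Set K) ∪ s) := by
    rw [Algebra.adjoin_eq_ring_closure]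
    congr 2
    exact Subtype.range_coe
  rw [← e]
  exact isNoetherianRing_of_fg (Subalgebra.fg_def.2 ⟨s, hs, rfl⟩)

/-- `A(x) + B(x) y` -/
noncomputable def gR (x y : K) (A B : R[X]) : K := aeval x A + aeval x B * y

/-- a chart in which `h` is inverted -/
def AL (R : Subring K) (x y h : K) : Subring K := Subring.closure ((R : Set K) ∪ {x, y, h⁻¹})

/-- a generic point of `y ^ 2 + a(x) y = f(x)` -/
structure QC (x y : K) (a f : R[X]) : Prop where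
  eq : y ^ 2 + aeval x a * y = aeval x f
  ind : ∀ A B : R[X], gR x y A B = 0 → A = 0 ∧ B = 0
  frac : ∀ z, ∃ A B D : R[X], D ≠ 0 ∧ z * aeval x D = gR x y A B

/-- facts about the charts -/
structure QcA (x y : K) (a f : R[X]) : Prop where
  mem : ∀ z, z ∈ AL R x y 1 ↔ ∃ A B : R[X], z = gR x y A B
  loc : ∀ h ∈ AL R x y 1, h ≠ 0 → AL R x y 1 ≤ AL R x y h ∧
    ∀ z ∈ AL R x y h, ∃ n : ℕ, h ^ n * z ∈ AL R x y 1
  noeth : ∀ h, IsNoetherianRing (AL R x y h)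
  fr : ∀ h, Fr (AL R x y h)
  lift : ∀ (S : Type) [CommRing S] (φ : R →+* S) (ξ η : S),
    η ^ 2 + eval₂ φ ξ a * η = eval₂ φ ξ f → ∃ ρ : AL R x y 1 →+* S,
    ∀ (z : AL R x y 1) (A B : R[X]), (z : K) = gR x y A B → ρ z = eval₂ φ ξ A + eval₂ φ ξ B * η

noncomputable def aW (W : WeierstrassCurve R) : R[X] := C W.a₁ * X + C W.a₃

noncomputable def cR (W : WeierstrassCurve R) : R[X] := X ^ 3 + C W.a₂ * X ^ 2 + C W.a₄ * X + C W.a₆

/-- a generic point of a Weierstrass equation -/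
def WC (W : WeierstrassCurve R) (x y : K) : Prop := QC x y (aW W) (cR W)

/-- the valuation ring of the special fibre -/
structure Gs (π : R) (x y : K) (G : Subring K) : Prop where
  dvr : Dvr G
  le : AL R x y 1 ≤ G
  ord : ordR G (π : K) = 1
  nu : ∀ A B : R[X], Nu G (gR x y A B) ↔ C π ∣ A ∧ C π ∣ B

/-- a power is a rational function of `x` -/
def Sym (π : R) (x : K) (G : Subring K) (u : K) : Prop := ∃ (j : ℕ) (q q' : R[X]), 0 < j ∧
  ¬C π ∣ q' ∧ Nu G (u ^ j * aeval x q' - aeval x q)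

/-- torsion on the horizontal curves through affine points -/
def Hz (π : R) (x : K) (ψ : Subring K → K) : Prop :=
  ∀ V, Dvr V → R ≤ V → Ut V π → x ∈ V → Tor V (ψ V)

/-- torsion above the affine chart -/
def AfT (R : Subring K) (x y : K) (ψ : Subring K → K) : Prop :=
  ∀ V, Dvr V → AL R x y 1 ≤ V → Tor V (ψ V)

/-- `y (y + x) = e x ^ 3 + c` -/
def Nd (e c : R) (x y : K) : Prop := QC x y (X : R[X]) (C e * X ^ 3 + C c)

/-- the component on which `y` is a coordinate -/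
structure Ln (π : R) (x y : K) (L : Subring K) : Prop extends Cu (AL R x y y) π L where
  red : ∀ z ∈ AL R x y y, ∃ (n : ℕ) (P : R[X]), Nu L (y ^ n * z - aeval y P)
  inj : ∀ P : R[X], Nu L (aeval y P) → C π ∣ P
  unit : ∀ w ∈ AL R x y y, ∀ w' ∈ AL R x y y, Nu L (w * w' - 1) → ∃ i : ℤ, Tor L (w / y ^ i)
  ntor : ∀ i : ℤ, Tor L (y ^ i) → i = 0

/-- the point at which two components meet -/
structure Xp (π : R) (x y : K) (P : Subring K) : Prop where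
  rg : Rg P
  gen : Gen P y (π / y)
  le : AL R x y 1 ≤ P
  nu : Nu P ((y + x) / y)
  cov : ∀ V, Dvr V → R ≤ V → Nu V y → Nu V (π / y) → (y + x) / y ∈ V → Dom P V

/-- `Γ` is the only component on which `y` is a coordinate -/
def Un1 (π : R) (x y : K) (Γ : Subring K) : Prop :=
  ∀ V, Dvr V → AL R x y 1 ≤ V → Nu V π → Ut V y → ¬Tor V y → V = Γ

/-- the slope -/
def Sl (Γ : Subring K) (u t : K) (i : ℤ) (j : ℕ) : Prop := Tor Γ (u ^ j / t ^ i)

/-- the nodal model -/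
def nW (γ : R) : WeierstrassCurve R := ⟨1, 0, 0, 0, γ ^ 2⟩

end

/-- the shape of the rows -/
def AllR (Φ : ∀ (K : Type) [Field K] (R : Subring K) (_ : R) (_ _ : K), Prop) : Prop :=
  ∀ (K : Type) [Field K] (R : Subring K) (π : R) (x y : K), Bs R π → Φ K R π x y

def QcS : Prop := AllR fun _ _ R _ x y => ∀ a f : R[X], QC x y a f → QcA x y a f

/-- smooth points of the fibre -/
def SmR : Prop := AllR fun _ _ R π x y => ∀ (a f : R[X]) h D,
  y ^ 2 + aeval x a * y = aeval x f → h ∈ AL R x y 1 → h ≠ 0 → Pp (AL R x y h) π D → Alg D ∧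
  (Ut D (2 * y + aeval x a) ∨ Ut D (aeval x (derivative a) * y - aeval x (derivative f)) →
    ∃ w, Gen D π w)

def GsS : Prop := AllR fun _ _ R π x y => ∀ W : WeierstrassCurve R, WC W x y →
  (∃ G, Gs π x y G) ∧ ∀ G, Gs π x y G → ∀ h, h = 1 ∨ h = x →
    (∀ z ∈ AL R x y h, Nu G z ↔ z / π ∈ AL R x y h) ∧ AL R x y h ≤ G ∧
    (∀ E, Cu (AL R x y h) π E → E = G) ∧
    ((∀ D, Pp (AL R x y h) π D → (∃ w, Gen D π w) ∧ Alg D) → Fb (AL R x y h) π)

/-- units on the fibre -/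
def VdR : Prop := AllR fun _ _ R π x y => ∀ (W : WeierstrassCurve R) G, WC W x y → Gs π x y G →
  (∀ w ∈ AL R x y 1, ∀ w' ∈ AL R x y 1, Nu G (w * w' - 1) → Tor G w) ∧
  (∀ w ∈ AL R x y x, ∀ w' ∈ AL R x y x, Nu G (w * w' - 1) → Sym π x G w →
    ∃ (i : ℤ) (j : ℕ), 0 < j ∧ Sl G w x i j)

/-- good reduction -/
def GoodT : Prop := AllR fun _ _ R π x y => ∀ (W : WeierstrassCurve R) ψ, WC W x y → IsUnit W.Δ →
  RZ ψ → Hz π x ψ → AfT R x y ψ

/-- change of level and of side -/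
def NdS : Prop := AllR fun _ _ R π x y => (∀ γ : R, WC (nW γ) x y → Nd 1 (γ ^ 2) x y) ∧
  ∀ e c : R, (Nd e (π ^ 2 * c) x y → Nd (e * π) c (x / π) (y / π)) ∧
    (Nd e c x y → Nd (-e) c (-x) (y + x) ∧ x ≠ 0 ∧ y ≠ 0 ∧ AL R (-x) (y + x) 1 = AL R x y 1)

def LnS : Prop := AllR fun _ _ R π x y => ∀ e c : R, Nd (e * π) c x y →
  ∃ L, Ln π x y L ∧ Un1 π x y L

def PtS : Prop := AllR fun _ _ R π x y => ∀ e c : R, Nd e (π ^ 2 * c) x y → ∃ P, Xp π x y P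

/-- the slope passes through a double point -/
def StepS : Prop := AllR fun _ _ R π x y => ∀ (e c : R) ψ P Γ L, Nd e (π ^ 2 * c) x y → RZ ψ →
  Hz π x ψ → Xp π x y P → Dvr Γ → Un1 π x y Γ → Ln π (x / π) (y / π) L →
  (∀ (i : ℤ) (j : ℕ), Sl Γ (ψ Γ) y i j ∨ Sl Γ (ψ Γ) x i j → Sl L (ψ L) (y / π) i j) ∧
  (Tor Γ (ψ Γ) → Tor L (ψ L) → ∀ V, Dvr V → Dom P V → Tor V (ψ V))

/-- one side of the chain -/
def SideS : Prop := AllR fun _ _ R π x y => ∀ (k : ℕ) (e c : R) ψ Γ L (i : ℤ) (j : ℕ),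
  Nd e (π ^ (2 * (k + 1)) * c) x y → RZ ψ → Hz π x ψ → Dvr Γ → Un1 π x y Γ →
  Sl Γ (ψ Γ) y i j ∨ Sl Γ (ψ Γ) x i j → Ln π (x / π ^ (k + 1)) (y / π ^ (k + 1)) L →
  Sl L (ψ L) (y / π ^ (k + 1)) i j

/-- the first level -/
def Lv0 : Prop := AllR fun _ _ R π x y => ∀ (γ : R) ψ G, ¬IsUnit γ → WC (nW γ) x y → RZ ψ →
  Hz π x ψ → Gs π x y G → Cu (AL R x y x) π G ∧ Un1 π x y G ∧ Un1 π (-x) (y + x) G ∧
  (Sym π x G (ψ G) → ∃ (i : ℤ) (j : ℕ), 0 < j ∧ Sl G (ψ G) x i j)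

/-- the slope is zero -/
def ChainS : Prop := AllR fun _ _ R π x y => ∀ (m : ℕ) (c : R) ψ G (i : ℤ) (j : ℕ), IsUnit c →
  Nd 1 (π ^ (2 * (m + 1)) * c) x y → RZ ψ → Hz π x ψ → Dvr G → x ∈ G → Un1 π x y G →
  Un1 π (-x) (y + x) G → 0 < j → Sl G (ψ G) x i j → i = 0

/-- everything above the double point -/
def UpS : Prop := AllR fun _ _ R π x y => ∀ (m : ℕ) (e c : R) ψ Γ Γ', IsUnit c →
  Nd e (π ^ (2 * (m + 1)) * c) x y → RZ ψ → Hz π x ψ → Dvr Γ → Dvr Γ' → Un1 π x y Γ →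
  Un1 π (-x) (y + x) Γ' → Tor Γ (ψ Γ) → Tor Γ' (ψ Γ') →
  ∀ V, Dvr V → R ≤ V → Nu V π → Nu V x → Nu V y → Tor V (ψ V)

/-- multiplicative reduction -/
def NodeT : Prop := AllR fun _ _ R π x y => ∀ (γ : R) ψ, γ ≠ 0 → ¬IsUnit γ → WC (nW γ) x y → RZ ψ →
  Hz π x ψ → (∀ G, Gs π x y G → Sym π x G (ψ G)) → AfT R x y ψ

/-- the point at infinity -/
def InfP : Prop := AllR fun _ _ R π x y => ∀ (W : WeierstrassCurve R) V₀, WC W x y → Dvr V₀ →
  R ≤ V₀ → Ut V₀ π → x ∉ V₀ → ∃ D, Rg D ∧ R ≤ D ∧ Nu D π ∧ H1 D V₀ ∧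
  (∀ O, H1 D O → O ≠ V₀ → AL R x y 1 ≤ O) ∧
  ∀ V, Dvr V → R ≤ V → (¬AL R x y 1 ≤ V → x ∉ V) ∧ (x ∉ V → Nu V π → Dom D V)

/-- the local theorem -/
def LocR : Prop := AllR fun K _ R π x y => ∀ (W : WeierstrassCurve R) ψ V₀, WC W x y → RZ ψ →
  AfT R x y ψ → Dvr V₀ → R ≤ V₀ → Ut V₀ π → x ∉ V₀ →
  (∀ (c : R) (i : ℤ), c ≠ 0 → ¬IsUnit c → Nu V₀ (ψ V₀ - (c : K) ^ i) → i = 0) ∧
  (Tor V₀ (ψ V₀) → ∀ V, Dvr V → R ≤ V → Nu V π → Tor V (ψ V))

def OfSm : Prop := LcS → SmR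
def OfGs : Prop := LcS → DvS → QcS → GsS
def OfVdR : Prop := DvS → QcS → VdR
def OfGood : Prop := DvS → QcS → SmR → GsS → VdR → CuS → CuT → GoodT
def OfLn : Prop := LcS → DvS → QcS → SmR → CuS → LnS
def OfPt : Prop := LcS → DvS → RgI → QcS → NdS → LnS → PtS
def OfStep : Prop := DvS → RgS → CyS → TrT → CuT → StepS
def OfSide : Prop := NdS → LnS → PtS → StepS → SideS
def OfLv0 : Prop := DvS → QcS → SmR → GsS → VdR → CuS → CuT → NdS → Lv0
def OfChain : Prop := DvS → NdS → LnS → SideS → ChainS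
def OfUp : Prop := DvS → CuT → NdS → LnS → PtS → StepS → UpS
def OfNode : Prop := DvS → CuT → GsS → NdS → Lv0 → ChainS → UpS → NodeT
def OfInf : Prop := LcS → DvS → RgI → RgS → CyS → InfP
def OfLocR : Prop := DvS → RgS → CyS → TrT → InfP → LocR

end Pool.Agent.MP_f3836a_nt.VE.Z
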