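import Pool.Agent.MP_f3836a_nt.VE.SpecZ2
import Pool.Agent.MP_f3836a_nt.VE.DefsY

/-! Part Z3: extension of the base, the global argument, the points of a regular model. -/

set_option autoImplicit false

namespace Pool.Agent.MP_f3836a_nt.VE.Z

open Polynomial IsLocalRing PK VE.A VE.T VE.W

section
variable {K : Type} [Field K]

/-- horizontal -/
def Ho (V : Subring K) : Prop := ∀ n : ℕ, n ≠ 0 → (n : K)⁻¹ ∈ V

/-- finite support on the horizontal curves -/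
def FinS (ψ : Subring K → K) : Prop := ∃ H : Set K, H.Finite ∧
  ∀ V, Dvr V → Ho V → (∀ h ∈ H, ordR V h = 0) → Nu V (ψ V - 1)

/-- a family which is locally a boundary -/
structure Co {ι : Type} (ξ : ι → K) (ψ : Subring K → K) : Prop where
  ne : ∃ i, ξ i ≠ 0
  us : Us ψ
  loc : ∀ S : Subring K, IsLocalRing S → Alg S → Cht ξ S →
    ∃ l, NZ l ∧ ∀ V, Dvr V → S ≤ V → Nu V (ψ V - bdE l V)
  fin : FinS ψ

/-- torsion at the finite places -/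
def HzK (x : K) (ψ : Subring K → K) : Prop := ∀ V, Dvr V → Ho V → x ∈ V → Tor V (ψ V)

/-- a power is a rational function of `x` -/
def SymZ (x : K) (p : ℕ) (G : Subring K) (u : K) : Prop := ∃ (j : ℕ) (q q' : ℤ[X]), 0 < j ∧
  ¬C (p : ℤ) ∣ q' ∧ Nu G (u ^ j * aeval x q' - aeval x q)

/-- the difference of the orders at the two branches of a split node, or zero -/
def Dch (W : WeierstrassCurve ℤ) (p : ℕ) (x y : K) (G : Subring K) {κ : Type} [Field κ]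
    (r : G →+* κ) (d : κ → ℤ) : Prop := Adz d ∧
  ((∀ u, d u = 0) ∨ ∃ x0 y0 α β : ℤ, Spl W p x0 y0 α β ∧
    (∀ q : ℤ[X], ¬C (p : ℤ) ∣ q → d (resR G r (aeval x q)) = 0) ∧
    d (resR G r (gv x y (-(C α * X + C (y0 - α * x0))) 1)) ≠ 0)

/-- integral invariant -/
def PG (W : WeierstrassCurve ℤ) (p : ℕ) : Prop :=
  ∃ a b : ℤ, ¬(p : ℤ) ∣ b ∧ W.c₄ ^ 3 * b = a * W.Δ

/-- a ramified twist -/
def Ram (W : WeierstrassCurve ℤ) (p : ℕ) : Prop := ∃ u d a b : ℤ, u ≠ 0 ∧ (p : ℤ) ∣ a ∧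
  ¬(p : ℤ) ∣ b ∧ W.a₁ = u ∧ 4 * W.a₂ = u ^ 2 * (d - 1) ∧ W.a₃ = 0 ∧
  b * W.a₄ = -36 * a * u ^ 4 * d ^ 2 ∧ b * W.a₆ = -a * u ^ 6 * d ^ 3 ∧
  ((p : ℤ) ∣ d ∧ ¬(p : ℤ) ^ 2 ∣ d ∨ p = 2 ∧ d % 4 = 3)

def Typ (W : WeierstrassCurve ℤ) : Prop :=
  ∀ p : ℕ, p.Prime → PG W p ∨ ¬(p : ℤ) ∣ W.c₄ ∨ Ram W p

/-- a semistable model after extension of the base -/
structure Pk (W : WeierstrassCurve ℤ) (p : ℕ) (x y : K) (R : Subring K) (π : R)
    (W' : WeierstrassCurve R) (c : WeierstrassCurve.VariableChange K) (x' y' : K) : Prop where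
  bs : Bs R π
  wc : WC W' x' y'
  np : ¬IsUnit (p : R)
  ex : x = (c.u : K) ^ 2 * x' + c.r
  ey : y = (c.u : K) ^ 3 * y' + (c.u : K) ^ 2 * c.s * x' + c.t
  vc : c • W.map (Int.castRingHom K) = W'.map R.subtype
  fr : ∀ z ∈ ({(c.u : K), (c.u : K)⁻¹, c.r, c.s, c.t} : Set K), ∃ n : ℕ, (π : K) ^ n * z ∈ R
  alg : ∀ z : R, IsAlgebraic ℤ (z : K)
  typ : IsUnit W'.Δ ∨ ¬PG W p ∧ ∃ γ : R, γ ≠ 0 ∧ ¬IsUnit γ ∧ W' = nW γ

end

/-- the shape of the rows about a finite extension -/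
def AllX (Φ : ∀ (K K' : Type) [Field K] [Field K'] [Algebra K K'], Prop) : Prop :=
  ∀ (K K' : Type) [Field K] [Field K'] [Algebra K K'] [FiniteDimensional K K'], Φ K K'

def ExA : Prop := AllX fun K K' _ _ _ => ∀ V : Subring K', Dvr V →
  Dvr (V.comap (algebraMap K K')) ∧ ∃ e : ℕ, 0 < e ∧
    ∀ z : K, z ≠ 0 → ordR V (algebraMap K K' z) = e * ordR (V.comap (algebraMap K K')) z

def ExB : Prop := AllX fun K K' _ _ _ =>
  (∀ V : ValuationSubring K', Dvr (V.toSubring.comap (algebraMap K K')) → Dvr V.toSubring) ∧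
  ∀ V : Subring K, Dvr V → ∃ V', Dvr V' ∧ V'.comap (algebraMap K K') = V

/-- a valuation ring above a discrete valuation ring -/
def ExC : Prop := ∀ (K Ω : Type) [Field K] [Field Ω] [Algebra K Ω] (V : Subring K), Dvr V →
  ∃ U : ValuationSubring Ω, U.toSubring.comap (algebraMap K Ω) = V

def CoE : Prop := AllX fun K K' _ _ _ => ∀ (ι : Type) (ξ : ι → K) (ψ : Subring K → K), Co ξ ψ →
  ∃ ψ', Co (fun i => algebraMap K K' (ξ i)) ψ' ∧ ∀ V, Dvr V → ∃ e : ℕ, 0 < e ∧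
    ψ' V = algebraMap K K' (ψ (V.comap (algebraMap K K'))) ^ e

def CoR : Prop := ∀ (K ι : Type) [Field K] [CharZero K] [Fintype ι] (ξ : ι → K) (ψ : Subring K → K),
  Co ξ ψ → RZ ψ ∧ ∀ (n : ℕ) l, NZ l → Co ξ fun V => ψ V ^ n * bdE l V

/-- the base ring in a number field -/
def BsN : Prop := ∀ (K : Type) [Field K] [CharZero K] (L : Subfield K) (V : Subring K) (p : ℕ),
  FiniteDimensional ℚ L → Dvr V → p.Prime → Nu V p →
  ∃ π : (V ⊓ L.toSubring : Subring K), Bs _ π ∧ Nu V π ∧ ∀ z ∈ L, ∃ n : ℕ, (π : K) ^ n * z ∈ V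

/-- semistable equations with given invariant -/
def FamS : Prop := ∀ (Ω : Type) [Field Ω] [IsAlgClosed Ω] [CharZero Ω] (U : ValuationSubring Ω)
  (p : ℕ) (j : Ω), p.Prime → Nu U.toSubring p →
  (j ∈ U → ∃ W : WeierstrassCurve Ω, W.a₁ ∈ U ∧ W.a₂ ∈ U ∧ W.a₃ ∈ U ∧ W.a₄ ∈ U ∧ W.a₆ ∈ U ∧
    Ut U.toSubring W.Δ ∧ W.c₄ ^ 3 = j * W.Δ) ∧
  (j ∉ U → ∃ γ, γ ≠ 0 ∧ Nu U.toSubring γ ∧ j * -(γ ^ 2 * (1 + 432 * γ ^ 2)) = 1)

def PackA : Prop := ∀ (K : Type) [Field K] [CharZero K] (W : WeierstrassCurve ℤ) (V : Subring K)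
  (p : ℕ), W.Δ ≠ 0 → Dvr V → p.Prime → Nu V p →
  ∃ (K' : Type) (_ : Field K') (_ : Algebra K K') (_ : FiniteDimensional K K') (_ : CharZero K')
    (L : Subfield K') (V' : Subring K') (W' : WeierstrassCurve K')
    (c : WeierstrassCurve.VariableChange K'), FiniteDimensional ℚ L ∧
    Subfield.closure (Set.range (algebraMap K K') ∪ L) = ⊤ ∧ Dvr V' ∧
    V'.comap (algebraMap K K') = V ∧ c • W.map (Int.castRingHom K') = W' ∧
    ((c.u : K') ∈ L ∧ c.r ∈ L ∧ c.s ∈ L ∧ c.t ∈ L) ∧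
    (W'.a₁ ∈ V' ∧ W'.a₂ ∈ V' ∧ W'.a₃ ∈ V' ∧ W'.a₄ ∈ V' ∧ W'.a₆ ∈ V') ∧
    (Ut V' W'.Δ ∨ ¬PG W p ∧ ∃ γ ∈ L, γ ≠ 0 ∧ Nu V' γ ∧ W' = ⟨1, 0, 0, 0, γ ^ 2⟩)

/-- the generic point after extension of the constants -/
def GenL : Prop := AllG fun W K _ _ x y => ∀ (K' : Type) [Field K'] [CharZero K'] [Algebra K K']
  (L : Subfield K') (R : Subring K') (π : R) (W' : WeierstrassCurve R)
  (c : WeierstrassCurve.VariableChange K') (x' y' : K'), FiniteDimensional ℚ L →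
  Subfield.closure (Set.range (algebraMap K K') ∪ L) = ⊤ → R ≤ L.toSubring → π ≠ 0 →
  (∀ z ∈ L, ∃ n : ℕ, (π : K') ^ n * z ∈ R) → c • W.map (Int.castRingHom K') = W'.map R.subtype →
  (c.u : K') ∈ L ∧ c.r ∈ L ∧ c.s ∈ L ∧ c.t ∈ L →
  algebraMap K K' x = (c.u : K') ^ 2 * x' + c.r →
  algebraMap K K' y = (c.u : K') ^ 3 * y' + (c.u : K') ^ 2 * c.s * x' + c.t → WC W' x' y'

def PackS : Prop := AllG fun W K _ _ x y => ∀ (V : Subring K) (p : ℕ), Dvr V → p.Prime → Nu V p →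
  ∃ (K' : Type) (_ : Field K') (_ : Algebra K K') (_ : FiniteDimensional K K') (R : Subring K')
    (π : R) (W' : WeierstrassCurve R) (c : WeierstrassCurve.VariableChange K') (x' y' : K')
    (V' : Subring K'), Pk W p (algebraMap K K' x) (algebraMap K K' y) R π W' c x' y' ∧ Dvr V' ∧
    V'.comap (algebraMap K K') = V ∧ R ≤ V' ∧ Nu V' π

/-- the shape of the two links -/
def AllL (Φ : ∀ (_ : WeierstrassCurve ℤ) (K K' : Type) [Field K] [Field K'] [Algebra K K'] (_ _ : K)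
    (_ : ℕ) (R : Subring K') (_ : R) (_ : K') (_ : Subring K'), Prop) : Prop :=
  AllG fun W K _ _ x y => ChA W x y → ∀ (K' : Type) [Field K'] [Algebra K K'] (p : ℕ)
    (R : Subring K') (π γ : R) (c : WeierstrassCurve.VariableChange K') (x' y' : K')
    (G : Subring K'), p.Prime → ¬IsUnit γ →
    Pk W p (algebraMap K K' x) (algebraMap K K' y) R π (nW γ) c x' y' → Gs π x' y' G →
    Φ W K K' x y p R π x' G

def LinkU : Prop := AllL fun W K K' _ _ _ x y p _ π x' G => ¬(p : ℤ) ∣ W.c₄ →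
  Ver x y p (G.comap (algebraMap K K')) ∧
  ∀ z, SymZ x p (G.comap (algebraMap K K')) z → Sym π x' G (algebraMap K K' z)

def LinkR : Prop := AllL fun W K K' _ _ _ _ _ p _ π x' G => Ram W p →
  ∀ z, Ut (G.comap (algebraMap K K')) z → Sym π x' G (algebraMap K K' z)

/-- affine change of coordinates -/
def GnT : Prop := AllG fun _ K _ _ x y => ∀ (W' : WeierstrassCurve ℤ) (x' y' : K) (a b c d e : ℚ),
  a ≠ 0 → c ≠ 0 → x' = a * x + b → y' = c * y + d * x + e → eW W' x' y' = 0 → Gn W' x' y'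

/-- the global model -/
def GlobS : Prop := AllG fun _ K _ _ _ _ => ∃ (W : WeierstrassCurve ℤ) (x y : K),
  W.Δ ≠ 0 ∧ Gn W x y ∧ Typ W

/-- independence of the residue map -/
def OkS : Prop := ∀ (K κ : Type) [Field K] [Field κ] (D O : Subring K) (r : O →+* κ) (z : K),
  Rg D → H1 D O → DV O r → od O r D (resR O r z) = oK O D z

def Vd2 : Prop := AllG fun W K _ _ x y => ChA W x y → ∀ (p : ℕ) (G : Subring K) (κ : Type) [Field κ]
  (r : G →+* κ), Ver x y p G → DV G r → ∃ d : κ → ℤ, Dch W p x y G r d ∧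
  ∀ ψ, RZ ψ → HzK x ψ → d (resR G r (ψ G)) = 0 → SymZ x p G (ψ G)

/-- the shape of the rows about all fibres -/
def AllV (Φ : ∀ (_ : WeierstrassCurve ℤ) (K : Type) [Field K] [CharZero K] (_ _ : K)
    (G : Nat.Primes → Subring K) (κ : Nat.Primes → Type) [∀ p, Field (κ p)]
    (_ : ∀ p, G p →+* κ p), Prop) : Prop :=
  AllG fun W K _ _ x y => ChA W x y → ∀ (G : Nat.Primes → Subring K) (κ : Nat.Primes → Type)
    [∀ p, Field (κ p)] (r : ∀ p, G p →+* κ p),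
    (∀ p : Nat.Primes, Ver x y p (G p) ∧ DV (G p) (r p)) →
    Φ W K x y G κ r

def Red2 : Prop := AllV fun W K _ _ x y G κ _ r => ∀ (s : Finset Nat.Primes) (ν : ∀ p, κ p → ℚ)
  (μ : ∀ P : Place K, ResidueField P.V → ℚ),
  (∀ p : Nat.Primes, Addv (ν p) ∧ Vn W p x y (G p) (r p) (ν p)) →
  (∀ P, Addv (μ P)) → (∀ (P : Place K) a, a ≠ 0 → x ∉ P.V → μ P a = 0) →
  (∀ g h : K, g ≠ 0 → h ≠ 0 →
    ∑ᶠ P, μ P (P.tame g h) + ∑ p ∈ s, ν p (tameR (G p) (r p) g h) = 0) →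
  (∀ (P : Place K) a, a ≠ 0 → μ P a = 0) ∧ ∀ p ∈ s, ∀ u, u ≠ 0 → ν p u = 0

def PrimS : Prop := AllV fun W K _ _ x y G κ _ r => ∀ (d : ∀ p, κ p → ℤ) (ψ : Subring K → K),
  (∀ p : Nat.Primes, Dch W p x y (G p) (r p) (d p)) → Us ψ → FinS ψ →
  ∃ n : ℕ, 0 < n ∧ ∃ l, NZ l ∧
  (∀ V, Dvr V → Ho V → x ∈ V → Nu V (ψ V ^ n * bdE l V - 1)) ∧
  ∀ p, d p (resR (G p) (r p) (ψ (G p) ^ n * bdE l (G p))) = 0

/-- the local theorem over the rationals -/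
def LocK : Prop := AllG fun W K _ _ x y => ChA W x y → Typ W → ∀ (ι : Type) [Fintype ι] (ξ : ι → K)
  (ψ : Subring K → K) (V₀ V : Subring K) (p : ℕ), Co ξ ψ → HzK x ψ →
  (∀ G, Ver x y p G → SymZ x p G (ψ G)) → Dvr V₀ → Ho V₀ → x ∉ V₀ → Dvr V → p.Prime → Nu V p →
  (∀ a b i : ℤ, a ≠ 0 → (p : ℤ) ∣ a → ¬(p : ℤ) ∣ b → Nu V₀ (ψ V₀ - ((a : K) / b) ^ i) → i = 0) ∧
  (Tor V₀ (ψ V₀) → Tor V (ψ V))

/-- every family which is locally a boundary is a boundary up to torsion -/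
def AllT : Prop := AllG fun _ K _ _ _ _ => ∀ (ι : Type) [Fintype ι] (ξ : ι → K) (ψ : Subring K → K),
  Co ξ ψ → ∃ n : ℕ, 0 < n ∧ ∃ l, NZ l ∧ ∀ V, Dvr V → Tor V (ψ V ^ n * bdE l V)

/-- the family attached to a cycle -/
def PsiS : Prop := ∀ (K ι : Type) [Field K] [CharZero K] (ξ : ι → K) (Pt : Type) [Preorder Pt]
  (O : Pt → Subring K) (κ : Pt → Type) [∀ z, Field (κ z)] (r : ∀ z, O z →+* κ z), GeoY ξ O r →
  ∀ φ : ∀ C, κ C, (∀ C, φ C ≠ 0) → {C | φ C ≠ 1}.Finite → (∀ C, φ C ≠ 1 → Order.height C = 1) →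
    (∀ z, Order.height z = 0 → ∑ᶠ C, od (O C) (r C) (O z) (φ C) = 0) → ∃ ψ, Co ξ ψ ∧
    ∀ C, Order.height C = 1 → resR (O C) (r C) (ψ (O C)) = φ C

def OfExA : Prop := DvS → ExA
def OfExB : Prop := DvS → ExB ∧ ExC
def OfCoE : Prop := DvS → ExA → CoE
def OfCoR : Prop := DvS → RgS → CyS → ElS → CoR
def OfBsN : Prop := DvS → BsN
def OfPackA : Prop := ExB → ExC → FamS → PackA
def OfPack : Prop := BsN → PackA → GenL → PackS
def OfLinkU : Prop := LcS → DvS → LinkU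
def OfLinkR : Prop := DvS → LinkR
def OfGlob : Prop := GnT → GlobS
def OfOk : Prop := OdS → TrS → DvS → RgS → OkS
def OfVd2 : Prop := LcS → SmS → SmoS → SingS → VdB → VdC → RedP → DvS → RgI → RgS → CyS → OkS → Vd2
def OfRed2 : Prop := TwS → RBr → RAll → ModS → TwiS → DelS → Red2
def OfPrim : Prop := RDualA.{0} → RAll → ModS → SingS → RedP → DvS → Red2 → PrimS
def OfLocK : Prop := DvS → ExA → ExB → CoE → CoR → PackS → LinkU → LinkR → GoodT → NodeT → LocR → LocK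
def OfAllT : Prop := LcS → RAll → ModS → ChAS → DvS → CoR → GlobS → Vd2 → PrimS → LocK → AllT
def OfPsi : Prop := DvS → RgS → LgF → OkS → PsiS
def OfMainY : Prop := DvS → PsiS → AllT → MainY

end Pool.Agent.MP_f3836a_nt.VE.Z
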