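import Pool.Agent.MP_f3836a_nt.VE.SpecT

set_option autoImplicit false

/-! Reciprocity for constants and irreducible polynomials. -/

namespace Pool.Agent.MP_f3836a_nt.VE.T

open Polynomial IsLocalRing PK VE.A

namespace TW0

section
variable {κ : Type} [Field κ] {l : κ → ℚ}

theorem l_one (h : Addv l) : l 1 = 0 := by
  have := h 1 1 one_ne_zero one_ne_zero
  rw [mul_one] at this
  linarith

theorem l_neg (h : Addv l) : l (-1) = 0 := by
  have := h (-1) (-1) (by simp) (by simp)
  rw [neg_mul_neg, mul_one, l_one h] at this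
  linarith

theorem l_pow (h : Addv l) {a : κ} (ha : a ≠ 0) (n : ℕ) : l (a ^ n) = n * l a := by
  induction n with
  | zero => simp [l_one h]
  | succ n ih =>
    rw [pow_succ, h _ _ (pow_ne_zero n ha) ha, ih]
    push_cast
    ring

theorem l_zpow (h : Addv l) {a : κ} (ha : a ≠ 0) (n : ℤ) : l (a ^ n) = n * l a := by
  obtain ⟨m, rfl | rfl⟩ := n.eq_nat_or_neg
  · rw [zpow_natCast, l_pow h ha, Int.cast_natCast]
  · have k := pow_ne_zero m ha
    have := h _ _ k (inv_ne_zero k)
    rw [mul_inv_cancel₀ k, l_one h, l_pow h ha] at this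
    rw [zpow_neg, zpow_natCast]
    push_cast
    linarith

end

variable {F : Type} [Field F] [Algebra ℚ F]

theorem l_nm {l : ℚ → ℚ} (h : Addv l) (P : Place F) [FiniteDimensional ℚ (ResidueField P.V)] :
    Addv fun a => l (P.nm a) := fun a b ha hb => by
  simp only [Place.nm_eq, map_mul]
  exact h _ _ (Algebra.norm_ne_zero_iff.2 ha) (Algebra.norm_ne_zero_iff.2 hb)

theorem ord_zero {P : Place F} (hd : IsDiscreteValuationRing P.V) (hT : TameA P) {g : F}
    (h1 : g ∈ P.V) (h2 : g ∉ P.V.nonunits) : P.ord g = 0 := by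
  have g0 : g ≠ 0 := fun e => h2 (e ▸ zero_mem _)
  exact le_antisymm (not_lt.1 fun k => h2 ((hT.pos g g0).2 k)) (((P.dva hd).mem g g0).1 h1)

theorem res_ne {P : Place F} (hT : TameA P) {ξ : F} (hξ : ξ ∈ P.V) {π a : ℚ[X]}
    (hc : IsCoprime π a) (h : aeval ξ π ∈ P.V.nonunits) :
    aeval (P.res ξ) π = 0 ∧ P.res (aeval ξ a) ≠ 0 := by
  have e : aeval (P.res ξ) π = 0 := by
    rw [← (hT.aev ξ π hξ).2]
    exact (hT.zero _ (hT.aev ξ π hξ).1).2 h
  refine ⟨e, fun k => ?_⟩
  obtain ⟨u, v, e1⟩ := hc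
  have := congrArg (aeval (P.res ξ)) e1
  rw [(hT.aev ξ a hξ).2] at k
  simp [e, k] at this

theorem half (hT : RTameA) (hN : RNR) (hF : FinT F) {l : ℚ → ℚ} (hl : Addv l) {ξ : F}
    {π a : ℚ[X]} (hm : π.Monic) (hi : Irreducible π) (hc : IsCoprime π a) {s : Finset (Place F)}
    (hs : ∀ P ∈ s, ξ ∈ P.V ∧ aeval ξ π ∈ P.V.nonunits)
    (h : ∑ P ∈ s, P.ord (aeval ξ π) * P.deg = 2 * π.natDegree) :
    ∑ P ∈ s, (P.ord (aeval ξ π) : ℚ) * l (P.nm (P.res (aeval ξ a))) = 2 * l (resultant π a) := by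
  have d0 : (π.natDegree : ℚ) ≠ 0 := by exact_mod_cast hi.natDegree_pos.ne'
  refine mul_left_cancel₀ d0 ?_
  have h' : ∑ P ∈ s, (P.ord (aeval ξ π) : ℚ) * P.deg = 2 * π.natDegree := by exact_mod_cast h
  rw [← mul_assoc, mul_comm _ (2 : ℚ), ← h', Finset.sum_mul, Finset.mul_sum]
  refine Finset.sum_congr rfl fun P hP => ?_
  have := hF.2.1 P
  have t := hT F P (hF.1 P)
  obtain ⟨e1, e2⟩ := res_ne t (hs P hP).1 hc (hs P hP).2
  have k := congrArg l (hN _ (P.res ξ) π a hm hi e1)
  rw [← (t.aev ξ a (hs P hP).1).2, l_pow hl (Algebra.norm_ne_zero_iff.2 e2),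
    l_pow hl (resultant_ne_zero _ _ hc)] at k
  rw [mul_left_comm, Place.nm_eq, k, mul_assoc, Place.deg]

theorem res_inf {O : Place F} (hd : IsDiscreteValuationRing O.V) (hT : TameA O) {ξ : F}
    (h : ∀ A : ℚ[X], A ≠ 0 → aeval ξ A ≠ 0 ∧ O.ord (aeval ξ A) = -(2 * A.natDegree : ℕ))
    {A B : ℚ[X]} (hA : A.Monic) (hB : B.Monic) (e : A.natDegree = B.natDegree) :
    O.ord (aeval ξ A / aeval ξ B) = 0 ∧ O.res (aeval ξ A / aeval ξ B) = 1 := by
  have D := O.dva hd
  obtain ⟨b0, b1⟩ := h B hB.ne_zero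
  have k : ∀ C : ℚ[X], C ≠ 0 → O.ord (aeval ξ C / aeval ξ B) =
      -(2 * C.natDegree : ℕ) + (2 * B.natDegree : ℕ) := fun C hC => by
    have a1 := D.mul _ _ (h C hC).1 (inv_ne_zero b0)
    have a2 := D.zpow _ (-1) b0
    rw [zpow_neg_one] at a2
    rw [div_eq_mul_inv, Place.ord, a1, a2, ← Place.ord, ← Place.ord, (h C hC).2, b1]
    ring
  refine ⟨by rw [k A hA.ne_zero, e, neg_add_cancel], ?_⟩
  have w : aeval ξ (A - B) / aeval ξ B ∈ O.V.nonunits := by
    by_cases c : A - B = 0
    · rw [c, map_zero, zero_div]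
      exact zero_mem _
    · rw [hT.pos _ (div_ne_zero (h _ c).1 b0), k _ c]
      have := natDegree_lt_natDegree c (degree_sub_lt_left (by
        rw [degree_eq_natDegree hA.ne_zero, degree_eq_natDegree hB.ne_zero, e]) hA.ne_zero
        (hA.leadingCoeff.trans hB.leadingCoeff.symm))
      omega
  have w' := O.V.nonunits_subset w
  rw [show aeval ξ A / aeval ξ B = 1 + aeval ξ (A - B) / aeval ξ B by
    rw [map_sub]; field_simp; ring, hT.add _ _ (one_mem _) w', (hT.zero _ w').2 w, add_zero,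
    ← map_one (algebraMap ℚ F), O.res_const, map_one]

theorem tame_inf {O : Place F} (hd : IsDiscreteValuationRing O.V) (hT : TameA O) {ξ : F}
    (h : ∀ A : ℚ[X], A ≠ 0 → aeval ξ A ≠ 0 ∧ O.ord (aeval ξ A) = -(2 * A.natDegree : ℕ))
    {A B : ℚ[X]} (hA : A.Monic) (hB : B.Monic) : O.tame (aeval ξ A) (aeval ξ B) = 1 := by
  obtain ⟨e1, e2⟩ := res_inf hd hT h (hA.pow B.natDegree) (hB.pow A.natDegree)
    (by rw [natDegree_pow, natDegree_pow, mul_comm])
  have e3 := (O.dva hd).rzpow _ (-2)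
    (div_ne_zero (h _ (hA.pow B.natDegree).ne_zero).1 (h _ (hB.pow A.natDegree).ne_zero).1) e1
  rw [← Place.res, ← Place.res, e2, one_zpow] at e3
  rw [← e3, Place.tame, tameR, tameE, ← Place.ord, ← Place.ord, (h A hA.ne_zero).2,
    (h B hB.ne_zero).2, Place.res]
  congr 1
  rw [Even.neg_one_zpow ⟨A.natDegree * (2 * B.natDegree), by push_cast; ring⟩, one_mul, div_zpow,
    map_pow, map_pow, ← zpow_natCast, ← zpow_natCast, ← zpow_mul, ← zpow_mul]
  congr 2 <;> push_cast <;> ring

end TW0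

open TW0

theorem rWeil0 (hT : RTameA) (hN : RNR) : RWeil0 := by
  classical
  intro R F _ _ _ _ _ _ _ x y f O hM hP hO hS hF
  have : IsScalarTower ℚ R F := IsScalarTower.of_algebraMap_eq' (Subsingleton.elim _ _)
  have t := fun P : Place F => hT F P (hF.1 P)
  have r0 : ∀ A : ℚ[X], A ≠ 0 → aeval x A ≠ 0 := fun A hA e =>
    hA (hM.ind A 0 (by simpa using e)).1
  have h : ∀ A : ℚ[X], A ≠ 0 → aeval (algebraMap R F x) A ≠ 0 ∧
      O.ord (aeval (algebraMap R F x) A) = -(2 * A.natDegree : ℕ) := fun A hA => by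
    rw [aeval_algebraMap_apply]
    refine ⟨(map_ne_zero_iff _ (IsFractionRing.injective R F)).2 (r0 A hA), ?_⟩
    simpa using hO.ord A 0 (by simpa using r0 A hA)
  have hs : ∀ A : ℚ[X], A ≠ 0 → ∃ s : Finset (Place F), ∀ P : Place F, P ∈ s ↔
      algebraMap R F x ∈ P.V ∧ aeval (algebraMap R F x) A ∈ P.V.nonunits := fun A hA =>
    ⟨(hP.fin _ (r0 A hA)).toFinset, fun P => by simp [aeval_algebraMap_apply]⟩
  have hx : ∀ P : Place F, P ≠ O → algebraMap R F x ∈ P.V := fun P e =>
    not_not.1 fun k => e ((hO.uniq P).1 k)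
  refine ⟨fun c π hc hm hi l hl => ?_, fun π π' hm hi hm' hi' hne l hl => ?_⟩
  · obtain ⟨s, es⟩ := hs π hm.ne_zero
    have c0 : ∀ P : Place F, P.res (algebraMap ℚ F c) ≠ 0 := fun P => by
      rw [P.res_const]
      exact (_root_.map_ne_zero _).2 hc
    have e : ∀ P : Place F, l (P.nm (P.tame (algebraMap ℚ F c) (aeval (algebraMap R F x) π))) =
        P.ord (aeval (algebraMap R F x) π) * l (P.nm (P.res (algebraMap ℚ F c))) := fun P => by
      have := hF.2.1 P
      rw [(t P).unit _ _ ((_root_.map_ne_zero _).2 hc) (ord_zero (hF.1 P) (t P) (P.const c)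
        fun k => c0 P (((t P).zero _ (P.const c)).2 k))]
      exact l_zpow (l_nm hl P) (c0 P) _
    have o : O ∉ s := fun k => (hO.uniq O).2 rfl ((es O).1 k).1
    have k := half hT hN hF hl (a := C c) hm hi
      ((isCoprime_mul_unit_left_right (isUnit_C.2 hc.isUnit) π 1).2 isCoprime_one_right |>
        fun k => by simpa using k) (fun P => (es P).1) (hS π s hm hi es)
    rw [aeval_C, natDegree_C, resultant_C_zero_right, l_pow hl hc] at k
    have d1 : Module.finrank ℚ (ResidueField O.V) = 1 :=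
      Algebra.finrank_eq_one_iff_bijective_algebraMap.2 ⟨O.emb.injective, hO.rat⟩
    simp only [e]
    rw [finsum_eq_sum_of_support_subset (s := insert O s), Finset.sum_insert o, k,
      (h π hm.ne_zero).2, O.res_const, Place.nm_eq, ← Place.alg_eq, Algebra.norm_algebraMap, d1,
      pow_one]
    · push_cast
      ring
    · intro P hP'
      by_contra k
      rw [Finset.coe_insert, Set.mem_insert_iff, not_or, Finset.mem_coe, es] at k
      have a := hx P k.1
      exact hP' (by simp [ord_zero (hF.1 P) (t P) ((t P).aev _ π a).1 fun b => k.2 ⟨a, b⟩])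
  · obtain ⟨s, es⟩ := hs π hm.ne_zero
    obtain ⟨s', es'⟩ := hs π' hm'.ne_zero
    have hc : IsCoprime π π' := (hi.coprime_iff_not_dvd).2 fun k =>
      hne (eq_of_monic_of_associated hm hm' (hi.associated_of_dvd hi' k))
    have k1 := half hT hN hF hl hm hi hc (fun P => (es P).1) (hS π s hm hi es)
    have k2 := half hT hN hF hl hm' hi' hc.symm (fun P => (es' P).1) (hS π' s' hm' hi' es')
    have z : ∀ {A B : ℚ[X]} {P : Place F}, IsCoprime A B → algebraMap R F x ∈ P.V →
        aeval (algebraMap R F x) A ∈ P.V.nonunits → aeval (algebraMap R F x) B ∉ P.V.nonunits :=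
      fun c a b k => (res_ne (t _) a c b).2 (((t _).zero _ ((t _).aev _ _ a).1).2 k)
    have dj : Disjoint s s' := Finset.disjoint_left.2 fun P a b =>
      z hc ((es P).1 a).1 ((es P).1 a).2 ((es' P).1 b).2
    have e1 : ∀ P ∈ s, l (P.nm (P.tame (aeval (algebraMap R F x) π)
        (aeval (algebraMap R F x) π'))) = -(P.ord (aeval (algebraMap R F x) π) *
          l (P.nm (P.res (aeval (algebraMap R F x) π')))) := fun P hP' => by
      have := hF.2.1 P
      obtain ⟨a, b⟩ := (es P).1 hP'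
      rw [(t P).unit' _ _ (h π' hm'.ne_zero).1
        (ord_zero (hF.1 P) (t P) ((t P).aev _ π' a).1 (z hc a b))]
      refine (l_zpow (l_nm hl P) (res_ne (t P) a hc b).2 _).trans ?_
      push_cast
      ring
    have e2 : ∀ P ∈ s', l (P.nm (P.tame (aeval (algebraMap R F x) π)
        (aeval (algebraMap R F x) π'))) = P.ord (aeval (algebraMap R F x) π') *
          l (P.nm (P.res (aeval (algebraMap R F x) π))) := fun P hP' => by
      have := hF.2.1 P
      obtain ⟨a, b⟩ := (es' P).1 hP'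
      rw [(t P).unit _ _ (h π hm.ne_zero).1
        (ord_zero (hF.1 P) (t P) ((t P).aev _ π a).1 (z hc.symm a b))]
      exact l_zpow (l_nm hl P) (res_ne (t P) a hc.symm b).2 _
    rw [finsum_eq_sum_of_support_subset (s := s ∪ s'), Finset.sum_union dj,
      Finset.sum_congr rfl e1, Finset.sum_congr rfl e2, Finset.sum_neg_distrib, k1, k2,
      resultant_comm π, hl _ _ (by simp) (resultant_ne_zero _ _ hc.symm), l_pow hl (by simp),
      l_neg hl]
    · ring
    · intro P hP'
      by_contra k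
      rw [Finset.coe_union, Set.mem_union, not_or, Finset.mem_coe, Finset.mem_coe, es, es'] at k
      have e : P.tame (aeval (algebraMap R F x) π) (aeval (algebraMap R F x) π') = 1 := by
        by_cases c : P = O
        · subst c
          exact tame_inf (hF.1 P) (t P) h hm hm'
        · have a := hx P c
          exact (P.dva (hF.1 P)).one _ _
            (ord_zero (hF.1 P) (t P) ((t P).aev _ π a).1 fun b => k.1 ⟨a, b⟩)
            (ord_zero (hF.1 P) (t P) ((t P).aev _ π' a).1 fun b => k.2 ⟨a, b⟩)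
      exact hP' (by simp only [e, Place.nm_eq, map_one, l_one hl])

end Pool.Agent.MP_f3836a_nt.VE.T
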