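import Pool.Agent.MP_f3836a_nt.VE.SpecW1

/-! Weak approximation at finitely many primes. -/

set_option autoImplicit false

namespace Pool.Agent.MP_f3836a_nt.VE.W

open Polynomial

namespace WApx

variable {s : Finset ℕ} {k : ℕ}

theorem sm_sum {α : Type} (hs : ∀ p ∈ s, p.Prime) (t : Finset α) (F : α → ℚ)
    (h : ∀ i ∈ t, Sm s k (F i)) : Sm s k (∑ i ∈ t, F i) := fun p hp => by
  have := Fact.mk (hs p hp)
  exact padicNorm.sum_le' (fun i hi => h i hi p hp) (by positivity)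

theorem sm_add (hs : ∀ p ∈ s, p.Prime) {a b : ℚ} (ha : Sm s k a) (hb : Sm s k b) :
    Sm s k (a + b) := fun p hp => by
  have := Fact.mk (hs p hp)
  exact padicNorm.nonarchimedean.trans (max_le (ha p hp) (hb p hp))

theorem sm_mul (hs : ∀ p ∈ s, p.Prime) {a b : ℚ} (ha : Sm s k a)
    (hb : ∀ p ∈ s, padicNorm p b ≤ 1) : Sm s k (a * b) := fun p hp => by
  have := Fact.mk (hs p hp)
  rw [padicNorm.mul]
  exact (mul_le_of_le_one_right (padicNorm.nonneg _) (hb p hp)).trans (ha p hp)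

theorem sm_one (hs : ∀ p ∈ s, p.Prime) {b : ℚ} (hb : Sm s k b) : ∀ p ∈ s, padicNorm p b ≤ 1 :=
  fun p hp => (hb p hp).trans (zpow_le_one_of_nonpos₀ (by exact_mod_cast (hs p hp).one_le)
    (by omega))

theorem sm_int (hs : ∀ p ∈ s, p.Prime) (z : ℤ) : Sm s k z ↔ ∀ p ∈ s, (p : ℤ) ^ k ∣ z := by
  refine forall₂_congr fun p hp => ?_
  have := Fact.mk (hs p hp)
  rw [← padicNorm.dvd_iff_norm_le, Nat.cast_pow]

theorem real (hs : ∀ p ∈ s, p.Prime) (a ε : ℝ) (hε : 0 < ε) :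
    ∃ z : ℚ, |(z : ℝ) - a| ≤ ε ∧ Sm s k z := by
  obtain ⟨N, hN0, hN⟩ : ∃ N : ℕ, 0 < N ∧ ∀ p ∈ s, p ∣ N :=
    ⟨∏ p ∈ s, p, Finset.prod_pos fun p hp => (hs p hp).pos, fun p hp => Finset.dvd_prod_of_mem _ hp⟩
  obtain ⟨j, hj⟩ := exists_nat_ge ((N : ℝ) ^ k / ε)
  have hN1 : (1 : ℝ) ≤ N := by exact_mod_cast hN0
  have hM : (0 : ℝ) < (N : ℝ) ^ k := by positivity
  have hL : (0 : ℝ) < 1 + N * j := by positivity
  have hML : (N : ℝ) ^ k / (1 + N * j) ≤ ε := by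
    rw [div_le_iff₀ hε] at hj
    rw [div_le_iff₀ hL]
    have h0 : (0 : ℝ) ≤ j := j.cast_nonneg
    nlinarith [mul_nonneg (mul_nonneg (sub_nonneg.2 hN1) h0) hε.le]
  refine ⟨(((N : ℤ) ^ k * ⌊a * (1 + N * j) / (N : ℝ) ^ k⌋ : ℤ) : ℚ) / ((1 + N * j : ℕ) : ℚ), ?_,
    fun p hp => ?_⟩
  · have e : a = (N : ℝ) ^ k / (1 + N * j) * (a * (1 + N * j) / (N : ℝ) ^ k) := by field_simp
    have h1 := Int.floor_le (a * (1 + N * j) / (N : ℝ) ^ k)
    have h2 := Int.lt_floor_add_one (a * (1 + N * j) / (N : ℝ) ^ k)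
    generalize ⌊a * (1 + N * j) / (N : ℝ) ^ k⌋ = b at h1 h2 ⊢
    generalize a * (1 + N * j) / (N : ℝ) ^ k = u at e h1 h2
    push_cast
    rw [e, mul_div_right_comm, ← mul_sub, abs_mul, abs_of_pos (div_pos hM hL)]
    refine (mul_le_of_le_one_right (div_pos hM hL).le ?_).trans hML
    rw [abs_le]
    constructor <;> linarith
  · have := Fact.mk (hs p hp)
    have h1 : padicNorm p ((1 + N * j : ℕ) : ℚ) = 1 := (padicNorm.nat_eq_one_iff _).2 fun h =>
      (hs p hp).one_lt.ne' (Nat.dvd_one.1 ((Nat.dvd_add_left ((hN p hp).mul_right j)).1 h))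
    rw [padicNorm.div, h1, div_one]
    refine (sm_int hs _).2 (fun q hq => Dvd.dvd.mul_right (pow_dvd_pow_of_dvd ?_ k) _) p hp
    exact_mod_cast hN q hq

theorem crt (hs : ∀ p ∈ s, p.Prime) (a : ℕ → ℤ) : ∃ z : ℤ, ∀ p ∈ s, (p : ℤ) ^ k ∣ z - a p := by
  induction s using Finset.induction_on with
  | empty => exact ⟨0, by simp⟩
  | insert p t hp ih =>
    obtain ⟨z, hz⟩ := ih fun q hq => hs q (Finset.mem_insert_of_mem hq)
    have hc : IsCoprime (∏ q ∈ t, (q : ℤ) ^ k) ((p : ℤ) ^ k) := by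
      refine IsCoprime.prod_left fun q hq => IsCoprime.pow (Nat.isCoprime_iff_coprime.2 ?_)
      exact (Nat.coprime_primes (hs q (Finset.mem_insert_of_mem hq))
        (hs p (Finset.mem_insert_self _ _))).2 fun h => hp (h ▸ hq)
    obtain ⟨u, v, huv⟩ := hc
    refine ⟨z + (a p - z) * u * ∏ q ∈ t, (q : ℤ) ^ k, fun q hq => ?_⟩
    rcases Finset.mem_insert.1 hq with rfl | hq
    · exact ⟨(z - a q) * v, by linear_combination (a q - z) * huv⟩
    · rw [add_sub_right_comm]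
      exact dvd_add (hz q hq) (Dvd.dvd.mul_left (Finset.dvd_prod_of_mem _ hq) _)

theorem nr_mul (hs : ∀ p ∈ s, p.Prime) {c : ℤ[X]} {q q' : ℚ[X]} (h : Nr s k c q)
    (h' : Nr s k c q') : Nr s k c (q * q') := by
  obtain ⟨e, he, hd⟩ := h
  obtain ⟨e', he', hd'⟩ := h'
  refine ⟨e + e' + e * e', fun j => ?_, ?_⟩
  · rw [coeff_add, coeff_add, coeff_mul]
    exact sm_add hs (sm_add hs (he j) (he' j))
      (sm_sum hs _ _ fun x _ => sm_mul hs (he _) (sm_one hs (he' _)))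
  · have e1 : q * q' - 1 - (e + e' + e * e') = (q - 1 - e) * q' + (1 + e) * (q' - 1 - e') := by
      ring
    rw [e1]
    exact dvd_add (hd.mul_right _) (hd'.mul_left _)

theorem nr_mod (hs : ∀ p ∈ s, p.Prime) {c : ℤ[X]} {q : ℚ[X]} (hc : c.Monic) (h : Nr s k c q)
    (j : ℕ) : Sm s k (((q - 1) %ₘ c.map (Int.castRingHom ℚ)).coeff j) := by
  obtain ⟨e, he, hd⟩ := h
  have e1 : (q - 1) %ₘ c.map (Int.castRingHom ℚ) =
      ∑ i ∈ e.support, e.coeff i • ((X ^ i %ₘ c).map (Int.castRingHom ℚ)) := by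
    have e2 : q - 1 = (q - 1 - e) + e := by ring
    rw [e2, add_modByMonic, (modByMonic_eq_zero_iff_dvd (hc.map _)).2 hd, zero_add]
    conv_lhs => rw [e.as_sum_support_C_mul_X_pow]
    rw [← modByMonicHom_apply, map_sum]
    refine Finset.sum_congr rfl fun i _ => ?_
    rw [← smul_eq_C_mul, map_smul, modByMonicHom_apply, map_modByMonic _ hc, Polynomial.map_pow,
      map_X]
  rw [e1, finsetSum_coeff]
  refine sm_sum hs _ _ fun i _ => ?_
  rw [coeff_smul, smul_eq_mul, coeff_map]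
  refine sm_mul hs (he i) fun p hp => ?_
  have := Fact.mk (hs p hp)
  exact padicNorm.of_int _

end WApx

theorem wApx : ApxS := fun _ _ hs => ⟨WApx.real hs, WApx.crt hs, WApx.sm_int hs,
  fun _ _ _ hc h => ⟨WApx.nr_mul hs h, WApx.nr_mod hs hc h⟩⟩

end Pool.Agent.MP_f3836a_nt.VE.W
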