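import Pool.Agent.MP_f3836a_nt.VE.SpecW1
import Pool.Agent.MP_f3836a_nt.VE.ANear

/-! The homomorphism vanishes near the identity, several absolute values. -/

set_option autoImplicit false

namespace Pool.Agent.MP_f3836a_nt.VE.W

open Polynomial VE.A

namespace WCw1

/-- small values at the roots give small coefficients -/
theorem small {r : Fin 3 → ℝ} (hr : StrictMono r) {ε : ℝ} (hε : 0 < ε) : ∃ δ : ℝ, 0 < δ ∧
    ∀ e : ℚ[X], e.natDegree ≤ 2 → (∀ i, |aeval (r i) e| ≤ δ) → ∀ j, |(e.coeff j : ℝ)| ≤ ε := by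
  have h0 : nearC r 0 = (0, 0, 0) := near_coef hr fun i => by simp
  obtain ⟨δ, hδ, h⟩ := Metric.continuousAt_iff.1 ((near_cont r).continuousAt (x := 0)) ε hε
  refine ⟨δ / 2, half_pos hδ, fun e he hv j => ?_⟩
  have h1 := h (x := fun i => aeval (r i) e) ((dist_pi_lt_iff hδ).2 fun i => by
    rw [Pi.zero_apply, Real.dist_eq, sub_zero]
    exact (hv i).trans_lt (half_lt_self hδ))
  rw [h0, near_coef hr (a := e.coeff 2) (b := e.coeff 1) (c := e.coeff 0) fun i => by
    rw [aeval_eq_sum_range' (Nat.lt_succ_of_le he)]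
    simp only [Finset.sum_range_succ, Finset.range_zero, Finset.sum_empty, Rat.smul_def]
    ring] at h1
  simp only [Prod.dist_eq, max_lt_iff, Real.dist_eq, sub_zero] at h1
  rcases j with _ | _ | _ | j
  · exact h1.2.2.le
  · exact h1.2.1.le
  · exact h1.1.le
  · rw [coeff_eq_zero_of_natDegree_lt (by omega)]
    simpa using hε.le

/-- the absolute values -/
noncomputable def av (s : Finset ℕ) (h : ∀ p ∈ s, p.Prime) : Option s → AbsoluteValue ℚ ℝ
  | none => Rat.AbsoluteValue.real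
  | some p => @Rat.AbsoluteValue.padic p ⟨h p p.2⟩

theorem cst {x : ℚ} {M : ℕ} (h : (x : ℝ) ≤ 1 / (2 * M)) : x ≤ 1 / (2 * M) :=
  (Rat.cast_le (K := ℝ)).1 (by push_cast; exact h)

end WCw1

open WCw1 in
theorem wCw1 : OfCw1 := by
  intro hC hA hN s K τ c μ T0 r h
  have hm : (c.map (Int.castRingHom ℚ)).Monic := h.monic.map _
  have hd : (c.map (Int.castRingHom ℚ)).natDegree = 3 := (h.monic.natDegree_map _).trans h.deg
  have hr : ∀ i, aeval (r i) (c.map (Int.castRingHom ℚ)) = 0 := fun i =>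
    (aeval_map_algebraMap ℚ (r i) c).trans (h.root i)
  have cop := fun q => (hC _ (fun _ => 0) T0 r ⟨hm, hd, h.mono, hr, h.low, fun _ _ _ _ => by simp,
    fun _ _ _ => rfl, fun _ _ => rfl, fun _ _ => rfl⟩ q).1.2
  obtain ⟨M, M1, hM⟩ : ∃ M : ℕ, 1 ≤ M ∧ ∀ p ∈ s, p ^ K ∣ M := ⟨∏ p ∈ s, p ^ K,
    Finset.prod_pos fun p hp => pow_pos (h.pr p hp).pos _,
    fun p hp => Finset.dvd_prod_of_mem (fun p => p ^ K) hp⟩
  have M2 : (1 : ℚ) ≤ M := by exact_mod_cast M1
  obtain ⟨n, hn⟩ := exists_nat_gt (|(τ : ℚ) - T0| + 1)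
  have n0 : (0 : ℚ) ≤ n := Nat.cast_nonneg n
  have ht : ∀ m : ℕ, n ≤ m → ∀ t : ℚ, (∀ i, av s h.pr i (t - (τ - M * m)) ≤ 1 / (2 * M)) →
      IsCoprime (c.map (Int.castRingHom ℚ)) (X - C t) ∧ μ (X - C t) = 0 := fun m hm t ht => by
    have a1 : t < T0 := by
      have b1 : |t - (τ - M * m)| ≤ 1 / (2 * M) := by
        have := ht none
        rw [av, Rat.AbsoluteValue.real_eq_abs] at this
        exact cst this
      have b2 : (1 : ℚ) / (2 * M) ≤ 1 := (div_le_one (by linarith)).2 (by linarith)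
      have b3 : (n : ℚ) ≤ m := by exact_mod_cast hm
      nlinarith [le_abs_self ((τ : ℚ) - T0), le_abs_self (t - (τ - M * m))]
    refine ⟨cop _ fun i => ?_, h.lin t a1 fun p hp => ?_⟩
    · have h1 : (t : ℝ) < T0 := by exact_mod_cast a1
      have h2 := h.mono.monotone (Fin.zero_le i)
      simp only [map_sub, aeval_X, aeval_C, eq_ratCast]
      linarith [h.low]
    · have := Fact.mk (h.pr p hp)
      have b1 : padicNorm p (t - (τ - M * m)) ≤ 1 / (2 * M) := cst (ht (some ⟨p, hp⟩))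
      have b2 := ((hA s K h.pr).2.2.1 (M * m)).2 (fun p hp =>
        Dvd.dvd.mul_right (by exact_mod_cast hM p hp) _) p hp
      have b3 : (p : ℚ) ^ K ≤ M := by exact_mod_cast Nat.le_of_dvd M1 (hM p hp)
      have e : t - τ = t - (τ - M * m) - ((M * m : ℤ) : ℚ) := by push_cast; ring
      rw [e]
      refine padicNorm.sub.trans (max_le (b1.trans ?_) b2)
      rw [zpow_neg, zpow_natCast, ← one_div]
      exact one_div_le_one_div_of_le (pow_pos (by exact_mod_cast (h.pr p hp).pos) _) (by linarith)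
  obtain ⟨ε, hε, hN⟩ := hN (Option s) (av s h.pr) _ (τ - M * n) (τ - M * (n + 1 : ℕ)) (1 / (2 * M))
    hm hd (by push_cast; linarith) (by positivity)
  obtain ⟨δ, hδ, hs⟩ := small h.mono hε
  obtain ⟨k, hk⟩ := exists_pow_lt_of_lt_one hε (by norm_num : (1 / 2 : ℝ) < 1)
  refine ⟨min δ (1 / 2), k, by positivity, fun q hq hq' => ?_⟩
  have cq : IsCoprime (c.map (Int.castRingHom ℚ)) q := cop q fun i h0 => by
    have := (hq i).trans (min_le_right _ _)
    rw [h0] at this
    norm_num at this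
  have e0 := modByMonic_add_div (q - 1) (c.map (Int.castRingHom ℚ))
  have e1 : ((q - 1) %ₘ c.map (Int.castRingHom ℚ)).natDegree ≤ 2 :=
    Nat.le_of_lt_succ ((natDegree_modByMonic_lt (q - 1) hm fun e => by simp [e] at hd).trans_eq hd)
  have e2 := ((hA s k h.pr).2.2.2 c q q h.monic hq').2
  generalize (q - 1) %ₘ c.map (Int.castRingHom ℚ) = e at e0 e1 e2
  obtain ⟨t2, t4, κ, k0, k1, k2⟩ := hN e e1 (by
    rintro (_ | ⟨p, hp⟩) j
    · rw [av, Rat.AbsoluteValue.real_eq_abs, Rat.cast_abs]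
      refine hs e e1 (fun i => ?_) j
      have := congrArg (aeval (r i)) e0
      rw [map_add, map_mul, hr, zero_mul, add_zero, map_sub, map_one] at this
      rw [this]
      exact (hq i).trans (min_le_left _ _)
    · rw [av, Rat.AbsoluteValue.padic_eq_padicNorm]
      have b1 : (padicNorm p (e.coeff j) : ℝ) ≤ (p : ℝ) ^ (-(k : ℤ)) := by
        simpa only [Rat.cast_zpow, Rat.cast_natCast] using (Rat.cast_le (K := ℝ)).2 (e2 j p hp)
      refine b1.trans (le_trans ?_ hk.le)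
      rw [zpow_neg, zpow_natCast, one_div, inv_pow]
      exact inv_anti₀ (by positivity)
        (pow_le_pow_left₀ zero_le_two (by exact_mod_cast (h.pr p hp).two_le) k))
  have z : ∀ (i) (x : ℚ), av s h.pr i (x - x) ≤ 1 / (2 * M) := fun i x => by
    rw [sub_self, map_zero]
    positivity
  obtain ⟨c1, m1⟩ := ht n le_rfl _ fun i => z i _
  obtain ⟨c2, m2⟩ := ht (n + 1) (by omega) t2 fun i => (k1 i).1
  obtain ⟨c3, m3⟩ := ht (n + 1) (by omega) _ fun i => z i _
  obtain ⟨c4, m4⟩ := ht n le_rfl t4 fun i => (k1 i).2.1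
  have cc : IsCoprime (c.map (Int.castRingHom ℚ)) (C κ) := cop _ fun i => by
    simpa only [aeval_C, eq_ratCast, Rat.cast_eq_zero, ne_eq] using k0
  have mc : μ (C κ) = 0 := h.con κ k0 fun p hp => by
    have := Fact.mk (h.pr p hp)
    have b1 : padicNorm p (κ - 1) ≤ 1 / (2 * M) := cst (k1 (some ⟨p, hp⟩)).2.2
    have b2 : padicNorm p (κ - 1) < 1 := b1.trans_lt ((div_lt_one (by linarith)).2 (by linarith))
    rw [← sub_add_cancel κ 1, padicNorm.add_eq_max_of_ne (by rw [padicNorm.one]; exact b2.ne),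
      padicNorm.one, max_eq_right b2.le]
  have e := h.per (q * (X - C ((τ : ℚ) - M * n)) * (X - C t2))
    (C κ * (X - C ((τ : ℚ) - M * (n + 1 : ℕ))) * (X - C t4)) (by
    refine (dvd_add k2 (Dvd.intro (((q - 1) /ₘ c.map (Int.castRingHom ℚ)) *
      ((X - C ((τ : ℚ) - M * n)) * (X - C t2))) rfl)).trans (Eq.dvd ?_)
    linear_combination ((X - C ((τ : ℚ) - M * n)) * (X - C t2)) * e0)
  rwa [h.mul _ _ (cq.mul_right c1) c2, h.mul _ _ cq c1, h.mul _ _ (cc.mul_right c3) c4,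
    h.mul _ _ cc c3, mc, m1, m2, m3, m4, add_zero, add_zero, add_zero, add_zero] at e

end Pool.Agent.MP_f3836a_nt.VE.W
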