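import Pool.Agent.MP_f3836a_nt.VE.SpecW1
import Pool.Agent.MP_f3836a_nt.VE.ACub

/-! From a neighbourhood of one at all places to a neighbourhood of one at the finite places. -/

set_option autoImplicit false

namespace Pool.Agent.MP_f3836a_nt.VE.W

open Polynomial VE.A

namespace WCw2

theorem sm_zero (s : Finset ℕ) (k : ℕ) : Sm s k 0 := fun p _ => by
  rw [padicNorm.zero]
  positivity

theorem sm_add {s : Finset ℕ} {k : ℕ} (hs : ∀ p ∈ s, p.Prime) {a b : ℚ} (ha : Sm s k a)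
    (hb : Sm s k b) : Sm s k (a + b) := fun p hp =>
  haveI : Fact p.Prime := ⟨hs p hp⟩
  padicNorm.nonarchimedean.trans (max_le (ha p hp) (hb p hp))

theorem apx {s : Finset ℕ} {k : ℕ} (hs : ∀ p ∈ s, p.Prime)
    (h : ∀ a ε : ℝ, 0 < ε → ∃ z : ℚ, |(z : ℝ) - a| ≤ ε ∧ Sm s k z) (r : Fin 3 → ℝ) (u : ℚ[X]) :
    ∀ δ : ℝ, 0 < δ → ∃ e : ℚ[X], (∀ j, Sm s k (e.coeff j)) ∧
      ∀ i, |aeval (r i) e - aeval (r i) u| ≤ δ := by
  induction u using Polynomial.induction_on' with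
  | add u u' ih ih' =>
    intro δ hδ
    obtain ⟨e, h1, h2⟩ := ih (δ / 2) (half_pos hδ)
    obtain ⟨e', h1', h2'⟩ := ih' (δ / 2) (half_pos hδ)
    refine ⟨e + e', fun j => by rw [coeff_add]; exact sm_add hs (h1 j) (h1' j), fun i => ?_⟩
    rw [map_add, map_add, add_sub_add_comm]
    exact (abs_add_le _ _).trans (by linarith [h2 i, h2' i])
  | monomial n a =>
    intro δ hδ
    have hM : 0 < 1 + ∑ i, |r i ^ n| := by positivity
    obtain ⟨z, h1, h2⟩ := h a (δ / (1 + ∑ i, |r i ^ n|)) (div_pos hδ hM)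
    refine ⟨monomial n z, fun j => ?_, fun i => ?_⟩
    · rw [coeff_monomial]
      split_ifs
      exacts [h2, sm_zero s k]
    · have h3 : |r i ^ n| ≤ ∑ i, |r i ^ n| :=
        Finset.single_le_sum (f := fun i => |r i ^ n|) (fun _ _ => abs_nonneg _) (Finset.mem_univ i)
      rw [aeval_monomial, aeval_monomial, ← sub_mul, abs_mul, eq_ratCast, eq_ratCast]
      calc _ ≤ δ / (1 + ∑ i, |r i ^ n|) * (1 + ∑ i, |r i ^ n|) :=
            mul_le_mul h1 (by linarith) (abs_nonneg _) (div_pos hδ hM).le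
        _ = δ := div_mul_cancel₀ _ hM.ne'

end WCw2

theorem wCw2 : OfCw2 := by
  intro hC hA hN s K τ c μ T0 r H
  obtain ⟨ε, k, hε, h1⟩ := hN s K τ c μ T0 r H
  refine ⟨k, fun q hq hn => ?_⟩
  have B : Cb (c.map (Int.castRingHom ℚ)) (fun _ => 0) T0 r :=
    ⟨H.monic.map _, by rw [H.monic.natDegree_map, H.deg], H.mono,
      fun i => by rw [← H.root i]; exact aeval_map_algebraMap ℚ (r i) c, H.low,
      fun _ _ _ _ => (add_zero _).symm, fun _ _ _ => rfl, fun _ _ => rfl, fun _ _ => rfl⟩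
  obtain ⟨a1, -, -, a4⟩ := hA s k H.pr
  have h2 := ((hC _ _ T0 r B q).1).1 hq
  obtain ⟨N, x, δ, hδ, h3⟩ := aCub_real (fun i => aeval (r i) (q * q))
    (fun i => by rw [map_mul]; exact mul_self_pos.2 (h2 i)) hε
  obtain ⟨w0, hw0⟩ := (hC _ _ T0 r B q).2 x (δ / 2) (half_pos hδ)
  obtain ⟨e, he, he'⟩ := WCw2.apx H.pr a1 r (w0 - 1) (δ / 2) (half_pos hδ)
  obtain ⟨w, hw⟩ : ∃ w : ℚ[X], w = 1 + e := ⟨_, rfl⟩
  have hwn : Nr s k c w := ⟨e, he, by rw [hw]; simp⟩
  have h4 := h3 (fun i => aeval (r i) w) fun i => by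
    have b1 := abs_le.1 (hw0 i)
    have b2 := abs_le.1 (he' i)
    rw [map_sub, map_one] at b2
    rw [hw, map_add, map_one, abs_le]
    constructor <;> linarith [b1.1, b1.2, b2.1, b2.2]
  have h5 : IsCoprime (c.map (Int.castRingHom ℚ)) w := ((hC _ _ T0 r B w).1).2 fun i h => by
    have := (h4 i).1.trans_le (min_le_right _ _)
    simp [h] at this
  have h6 : μ w = 0 := h1 w (fun i => ((h4 i).1.trans_le (min_le_left _ _)).le) hwn
  have h7 : ∀ n : ℕ, μ (w ^ n) = 0 ∧ Nr s k c (q * q * w ^ n) := fun n => by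
    induction n with
    | zero =>
      rw [pow_zero, mul_one, ← C_1]
      exact ⟨H.con 1 one_ne_zero fun p _ => padicNorm.one, (a4 c q q H.monic hn).1 hn⟩
    | succ n ih =>
      rw [pow_succ, H.mul _ _ h5.pow_right h5, ih.1, h6, add_zero, ← mul_assoc]
      exact ⟨rfl, (a4 c _ w H.monic ih.2).1 hwn⟩
  have h8 : μ (q * q * w ^ N) = 0 := h1 _ (fun i => by
    rw [map_mul, map_pow]
    exact (h4 i).2.le) (h7 N).2
  rw [H.mul _ _ (hq.mul_right hq) h5.pow_right, H.mul _ _ hq hq, (h7 N).1] at h8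
  linarith

end Pool.Agent.MP_f3836a_nt.VE.W
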