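import Pool.Agent.MP_f3836a_nt.VE.SpecW1
import Pool.Agent.MP_f3836a_nt.VE.AFib

/-! The pairing with one fibre under the twisted reciprocity law. -/

set_option autoImplicit false

namespace Pool.Agent.MP_f3836a_nt.VE.W

open Polynomial VE.A

theorem wFib : FibT := by
  intro R ι _ _ _ x y f S s a k A M hT hk hA hv3
  have hS := hT.toOk0
  have hk0 : k ≠ 0 := hk.ne'
  set h : R := (k : R) ^ 2 * x - a with hh
  have hq : aeval x (C ((k : ℚ) ^ 2) * X - C (a : ℚ)) = h := by
    simp only [map_sub, map_mul, aeval_X, map_pow, map_intCast, hh]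
  have hq0 : C ((k : ℚ) ^ 2) * X - C (a : ℚ) ≠ 0 := fun e1 => by
    have e2 := congrArg (fun P : ℚ[X] => P.coeff 1) e1
    simp only [coeff_sub, coeff_C_mul, coeff_X_one, mul_one, coeff_C, coeff_zero] at e2
    simp at e2
    exact hk0 e2
  have hh0 : h ≠ 0 := fun e => hq0 (M.ind _ 0 (by rw [hq, e, map_zero, zero_mul, add_zero])).1
  have hun0 : ∀ n : ℤ, n ≠ 0 → S.L h n = 0 := fun n hn => by
    rw [← hq, ← map_intCast (algebraMap ℚ R)]
    exact hT.con _ _ hq0 (by exact_mod_cast hn)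
  have hdv : ∀ (P : ℤ[X]) (d : ℕ), P.natDegree ≤ d →
      h ∣ ((k : R) ^ 2) ^ d * aeval x P - (hv P d a (k ^ 2) : ℤ) := fun P d hd => by
    have := fib_hv x P d a (k ^ 2) hd
    push_cast at this ⊢
    exact this
  have hf3 : f.natDegree ≤ 3 := by
    have := M.deg
    rw [natDegree_map_eq_of_injective (Int.castRingHom ℚ).injective_int] at this
    exact this.le
  have hy : h ∣ ((k : R) ^ 3 * y) ^ 2 + A := by
    have e := hdv f 3 hf3
    have e1 : ((A : ℤ) : R) = -((hv f 3 a (k ^ 2) : ℤ) : R) := by rw [hv3]; push_cast; rfl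
    have e2 : ((k : R) ^ 3 * y) ^ 2 + A = ((k : R) ^ 2) ^ 3 * aeval x f - (hv f 3 a (k ^ 2) : ℤ) := by
      rw [mul_pow, M.eq, fib_map, sub_eq_add_neg, ← e1]
      push_cast
      ring
    rw [e2]
    exact e
  let el : ℤ√(-(A : ℤ)) → R := fun β => β.re + β.im * (k : R) ^ 3 * y
  have hlf : ∀ β, lf S x y a k A β = S.L h (el β) := fun β => rfl
  have hmul : ∀ β β', h ∣ el (β * β') - el β * el β' := fun β β' => by
    have e : el (β * β') - el β * el β' = -(β.im * β'.im) * (((k : R) ^ 3 * y) ^ 2 + A) := by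
      simp only [el, Zsqrtd.re_mul, Zsqrtd.im_mul]
      push_cast
      ring
    rw [e]
    exact Dvd.dvd.mul_left hy _
  have hint : ∀ n : ℤ, el n = n := fun n => by simp [el]
  have hcop : ∀ β, β ≠ 0 → IsCoprime h (el β) := fun β hβ => by
    have hn : β.norm ≠ 0 := fun e =>
      hβ ((Zsqrtd.norm_eq_zero_iff (by omega) β).1 e)
    have e := hmul β (star β)
    rw [← Zsqrtd.norm_eq_mul_conj, hint] at e
    have c : IsCoprime h ((β.norm : ℤ) : R) := by
      obtain ⟨w, hw⟩ := fib_unit (R := R) _ hn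
      rw [← hw]
      exact ⟨0, (w⁻¹ : Rˣ), by simp⟩
    have e' : h ∣ el β * el (star β) - (β.norm : ℤ) := by
      rw [← neg_sub]; exact e.neg_right
    exact (fib_cop e' c).of_mul_right_left
  have hscal : ∀ (n : ℤ) (u : R), n ≠ 0 → IsCoprime h u → S.L h (n * u) = S.L h u :=
    fun n u hn hu => by
      obtain ⟨w, hw⟩ := fib_unit (R := R) n hn
      rw [hS.L_mul hh0 (hw ▸ ⟨0, (w⁻¹ : Rˣ), by simp⟩) hu, hun0 n hn, zero_add]
  refine ⟨⟨fun β β' h1 h2 => ?_, fun n hn => ?_⟩, fun m A1 B1 hm hb hs => ?_, fun H u hu => ?_⟩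
  · rw [hlf, hlf, hlf, hS.L_congr hh0 (hmul β β'), hS.L_mul hh0 (hcop β h1) (hcop β' h2)]
  · rw [hlf, hint, hun0 n hn]
  · obtain ⟨m1, m2, m3⟩ := hm
    have e1 := hdv A1 m m2.le
    have e2 := hdv B1 (m - 2) (by omega)
    have e : h ∣ ((k : R) ^ 2) ^ m * gv x y A1 B1 - el (bt m A1 B1 a k A) := by
      have e3 : ((k : R) ^ 2) ^ m = ((k : R) ^ 2) ^ (m - 2) * ((k : R) ^ 2) ^ 2 := by
        rw [← pow_add, Nat.sub_add_cancel (by omega)]
      have e4 : ((k : R) ^ 2) ^ m * gv x y A1 B1 - el (bt m A1 B1 a k A) =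
          (((k : R) ^ 2) ^ m * aeval x A1 - (hv A1 m a (k ^ 2) : ℤ)) + (k : R) ^ 4 * y *
            (((k : R) ^ 2) ^ (m - 2) * aeval x B1 - (hv B1 (m - 2) a (k ^ 2) : ℤ)) := by
        simp only [el, bt, gv]
        rw [e3]
        push_cast
        ring
      rw [e4]
      exact dvd_add e1 (Dvd.dvd.mul_left e2 _)
    have c := (fib_cop e (hcop _ hb)).of_mul_right_right
    have g0 : gv x y A1 B1 ≠ 0 := fun z => by
      have z1 := (M.ind (A1.map (Int.castRingHom ℚ)) (B1.map (Int.castRingHom ℚ)) (by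
        rw [fib_map, fib_map]; exact z)).1
      exact (m1.map (Int.castRingHom ℚ)).ne_zero z1
    rw [hT.sym A1 B1 a k hs hk0 g0 c, hlf, ← hS.L_congr hh0 e,
      ← hscal _ _ (pow_ne_zero m (pow_ne_zero 2 hk0)) c, Int.cast_pow, Int.cast_pow]
  · obtain ⟨P, Q, rfl⟩ := M.gen u
    have hkq : (k : ℚ) ≠ 0 := by exact_mod_cast hk0
    set t : ℚ := a / (k : ℚ) ^ 2 with ht
    have hx : h ∣ x - algebraMap ℚ R t := by
      refine ⟨algebraMap ℚ R (1 / (k : ℚ) ^ 2), ?_⟩
      have e1 : algebraMap ℚ R (1 / (k : ℚ) ^ 2) * (k : R) ^ 2 = 1 := by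
        rw [← map_intCast (algebraMap ℚ R), ← map_pow, ← map_mul, one_div_mul_cancel (pow_ne_zero 2 hkq),
          map_one]
      have e2 : algebraMap ℚ R t = algebraMap ℚ R (1 / (k : ℚ) ^ 2) * a := by
        rw [← map_intCast (algebraMap ℚ R), ← map_mul, ht]
        congr 1
        ring
      rw [hh, e2]
      linear_combination (-x) * e1
    have hev : ∀ T : ℚ[X], h ∣ aeval x T - algebraMap ℚ R (T.eval t) := fun T => by
      rw [← aeval_algebraMap_apply_eq_algebraMap_eval]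
      refine hx.trans ?_
      rw [aeval_def, aeval_def, eval₂_eq_eval_map, eval₂_eq_eval_map]
      exact sub_dvd_eval_sub x (algebraMap ℚ R t) (T.map (algebraMap ℚ R))
    set α : ℚ := P.eval t
    set γ : ℚ := Q.eval t / (k : ℚ) ^ 3 with hγ
    let β : ℤ√(-(A : ℤ)) := ⟨α.num * γ.den, γ.num * α.den⟩
    have hn : ((α.den : ℤ) * γ.den : ℤ) ≠ 0 :=
      mul_ne_zero (by exact_mod_cast α.den_nz) (by exact_mod_cast γ.den_nz)
    have hun := fib_unit (R := R) _ hn
    have a1 : algebraMap ℚ R α * (α.den : R) = (α.num : R) := by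
      rw [← map_natCast (algebraMap ℚ R), ← map_mul, Rat.mul_den_eq_num, map_intCast]
    have a2 : algebraMap ℚ R γ * (γ.den : R) = (γ.num : R) := by
      rw [← map_natCast (algebraMap ℚ R), ← map_mul, Rat.mul_den_eq_num, map_intCast]
    have a3 : algebraMap ℚ R (Q.eval t) = algebraMap ℚ R γ * (k : R) ^ 3 := by
      rw [← map_intCast (algebraMap ℚ R), ← map_pow, ← map_mul, hγ,
        div_mul_cancel₀ _ (pow_ne_zero 3 hkq)]
    have e : h ∣ (((α.den : ℤ) * γ.den : ℤ) : R) * (aeval x P + aeval x Q * y) - el β := by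
      have e4 : (((α.den : ℤ) * γ.den : ℤ) : R) * (aeval x P + aeval x Q * y) - el β =
          (((α.den : ℤ) * γ.den : ℤ) : R) * ((aeval x P - algebraMap ℚ R α) +
            (aeval x Q - algebraMap ℚ R (Q.eval t)) * y) := by
        simp only [el, β]
        rw [a3]
        push_cast
        rw [← a1, ← a2]
        ring
      rw [e4]
      exact Dvd.dvd.mul_left (dvd_add (hev P) (Dvd.dvd.mul_right (hev Q) _)) _
    by_cases hβ : β = 0
    · have e0 : el β = 0 := by rw [hβ]; simp [el]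
      rw [e0, sub_zero] at e
      exact hS.L_unit_left (hu.isUnit_of_dvd' dvd_rfl (hun.dvd_mul_left.1 e)) _
    · rw [← hscal _ _ hn hu, hS.L_congr hh0 e, ← hlf]
      exact H β hβ

end Pool.Agent.MP_f3836a_nt.VE.W
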