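import Pool.Agent.MP_f3836a_nt.VE.SpecW1
import Pool.Agent.MP_f3836a_nt.VE.ARoot

/-! The equation of the cube, and a line in given residue classes. -/

set_option autoImplicit false

namespace Pool.Agent.MP_f3836a_nt.VE.W

open Polynomial VE.A

theorem wGrf : GrfS := by
  rintro c t p n hp hm hd ⟨⟨a0, h0⟩, -, ⟨a1, h1⟩, a2, h2⟩
  obtain ⟨c0, c1, c2, rfl⟩ : ∃ c0 c1 c2 : ℤ, c = X ^ 3 + C c2 * X ^ 2 + C c1 * X + C c0 := by
    refine ⟨c.coeff 0, c.coeff 1, c.coeff 2, ?_⟩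
    have h3 : c.coeff 3 = 1 := hd ▸ hm.coeff_natDegree
    conv_lhs => rw [c.as_sum_range_C_mul_X_pow, hd]
    simp only [Finset.sum_range_succ, Finset.sum_range_zero, h3, C_1]
    ring
  have e2 : (X ^ 3 + C c2 * X ^ 2 + C c1 * X + C c0 : ℤ[X]).coeff 2 = c2 := by
    simp only [coeff_add, coeff_C_mul, coeff_X_pow, coeff_X, coeff_C]
    simp
  have e1 : (derivative (X ^ 3 + C c2 * X ^ 2 + C c1 * X + C c0 : ℤ[X])).eval t =
      3 * t ^ 2 + 2 * c2 * t + c1 := by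
    simp only [derivative_add, derivative_C_mul, derivative_X_pow, derivative_X, derivative_C]
    simp
    ring
  have e0 : (X ^ 3 + C c2 * X ^ 2 + C c1 * X + C c0 : ℤ[X]).eval t =
      t ^ 3 + c2 * t ^ 2 + c1 * t + c0 := by simp
  rw [e2] at h2
  rw [e1] at h1
  rw [e0] at h0 ⊢
  obtain ⟨a3, h3⟩ : (p : ℤ) ^ n ∣ (3 * t ^ 2 + 2 * c2 * t + c1) * (3 * t + c2) :=
    (Int.pow_dvd_pow_iff three_ne_zero).1 ⟨a1 * a2, by rw [mul_pow, h1, h2]; ring⟩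
  refine ⟨X ^ 3 + C (3 * a0 + a2 - 3 * a3) * X ^ 2 + C (3 * a0 ^ 2 + a1 - 3 * a0 * a3) * X +
    C (a0 ^ 3), by monicity!, by rw [h0]; simp; ring, ?_⟩
  have u : C (1 / (p : ℚ) ^ n) * (p : ℚ[X]) ^ n = 1 := by
    rw [← C_eq_natCast, ← C_pow, ← C_mul, one_div_mul_cancel (pow_ne_zero _
      (Nat.cast_ne_zero.2 hp.ne_zero)), C_1]
  generalize C (1 / (p : ℚ) ^ n) = U at *
  have k0 := congrArg (Int.cast : ℤ → ℚ[X]) h0
  have k1 := congrArg (Int.cast : ℤ → ℚ[X]) h1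
  have k2 := congrArg (Int.cast : ℤ → ℚ[X]) h2
  have k3 := congrArg (Int.cast : ℤ → ℚ[X]) h3
  push_cast at k0 k1 k2 k3
  rw [mul_comm 2 n, pow_mul] at k1
  generalize (p : ℚ[X]) ^ n = V at *
  have l0 : (a0 : ℚ[X]) = U * (t ^ 3 + c2 * t ^ 2 + c1 * t + c0) := by
    linear_combination -U * k0 - a0 * u
  have l1 : (a1 : ℚ[X]) = U ^ 2 * (3 * t ^ 2 + 2 * c2 * t + c1) ^ 3 := by
    linear_combination -U ^ 2 * k1 - a1 * (U * V + 1) * u
  have l2 : (a2 : ℚ[X]) = U * (3 * t + c2) ^ 3 := by linear_combination -U * k2 - a2 * u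
  have l3 : (a3 : ℚ[X]) = U * ((3 * t ^ 2 + 2 * c2 * t + c1) * (3 * t + c2)) := by
    linear_combination -U * k3 - a3 * u
  simp only [Polynomial.map_add, Polynomial.map_mul, Polynomial.map_pow, map_X, eq_intCast,
    Polynomial.map_intCast, add_comp, mul_comp, pow_comp, X_comp, intCast_comp, map_intCast]
  push_cast
  rw [l0, l1, l2, l3]
  obtain ⟨h, hh⟩ : ∃ h : ℚ[X], h = X - (t : ℚ[X]) := ⟨_, rfl⟩
  obtain ⟨a, ha⟩ : ∃ a : ℚ[X], a = h ^ 3 + (t ^ 3 + c2 * t ^ 2 + c1 * t + c0) := ⟨_, rfl⟩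
  obtain ⟨b, hb⟩ : ∃ b : ℚ[X], b = (3 * t + c2) * h ^ 2 := ⟨_, rfl⟩
  obtain ⟨d, hd⟩ : ∃ d : ℚ[X], d = (3 * t ^ 2 + 2 * c2 * t + c1) * h := ⟨_, rfl⟩
  exact ⟨U ^ 3 * (a ^ 2 + b ^ 2 + d ^ 2 - a * b - b * d - a * d), by rw [ha, hb, hd, hh]; ring⟩

theorem wLine : LineS := by
  intro W M r0 s0 hM
  have M0 : (0 : ℝ) < M := by exact_mod_cast hM
  obtain ⟨a, b, c, ha, hb, hc⟩ : ∃ a b c : ℝ, a = W.b₂ / 4 ∧ b = W.b₄ / 2 ∧ c = W.b₆ / 4 :=
    ⟨_, _, _, rfl, rfl, rfl⟩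
  have hg : ∀ (r s : ℤ) (x : ℝ), aeval x (cW W r s) = x ^ 3 + a * x ^ 2 + b * x + c -
      ((s + W.a₁ / 2) * x + (r + W.a₃ / 2)) ^ 2 := fun r s x => by
    simp [cW, ha, hb, hc, WeierstrassCurve.b₂, WeierstrassCurve.b₄, WeierstrassCurve.b₆]
    ring
  obtain ⟨T, hT⟩ := root_pos a b c
  obtain ⟨B, hB⟩ := (isCompact_Icc (a := T - 1) (b := T + 2)).exists_bound_of_continuousOn
    (f := fun x : ℝ => x ^ 3 + a * x ^ 2 + b * x + c) (by fun_prop)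
  obtain ⟨k, hk⟩ := exists_int_gt ((M + |B| + 1 - s0 - W.a₁ / 2 : ℝ) / M)
  rw [div_lt_iff₀ M0] at hk
  obtain ⟨s, hs⟩ : ∃ s : ℝ, s = (s0 + M * k : ℤ) + (W.a₁ : ℝ) / 2 := ⟨_, rfl⟩
  have B0 := abs_nonneg B
  have s1 : M + |B| + 1 < s := by rw [hs]; push_cast; linarith
  have s2 : 0 < s := by linarith
  obtain ⟨j, j1, j2⟩ : ∃ j : ℤ, T * s + r0 + W.a₃ / 2 ≤ j * M ∧
      j * M ≤ T * s + r0 + W.a₃ / 2 + M := by
    refine ⟨⌈(T * s + r0 + W.a₃ / 2) / M⌉, (div_le_iff₀ M0).1 (Int.le_ceil _), ?_⟩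
    have := mul_le_mul_of_nonneg_right (Int.ceil_lt_add_one ((T * s + r0 + W.a₃ / 2) / M)).le M0.le
    rwa [add_mul, div_mul_cancel₀ _ M0.ne', one_mul] at this
  obtain ⟨x, hx⟩ : ∃ x : ℝ, ((r0 - M * j : ℤ) + (W.a₃ : ℝ) / 2) = -(s * x) :=
    ⟨-((r0 - M * j : ℤ) + (W.a₃ : ℝ) / 2) / s, by field_simp⟩
  have hg' := hg (r0 - M * j) (s0 + M * k)
  rw [← hs, hx] at hg'
  push_cast at hx
  have x1 : T ≤ x := le_of_mul_le_mul_left (by linarith) s2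
  have x2 : x ≤ T + 1 := le_of_mul_le_mul_left (by linarith) s2
  have mo : (cW W (r0 - M * j) (s0 + M * k)).Monic := by unfold cW; monicity!
  have dg : (cW W (r0 - M * j) (s0 + M * k)).natDegree = 3 := by unfold cW; compute_degree!
  refine ⟨_, _, ⟨-j, by ring⟩, ⟨k, by ring⟩, mo, dg, ?_⟩
  have hq : ∀ t : ℚ, ((aeval t (cW W (r0 - M * j) (s0 + M * k)) : ℚ) : ℝ) =
      aeval (t : ℝ) (cW W (r0 - M * j) (s0 + M * k)) := fun t =>
    (aeval_algebraMap_apply ℝ t _).symm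
  generalize cW W (r0 - M * j) (s0 + M * k) = g at *
  have gc : Continuous fun x : ℝ => aeval x g := g.continuous_aeval
  have ng : ∀ e : ℝ, e ^ 2 = 1 → -1 ≤ e → e ≤ 1 → aeval (x + e) g < 0 := fun e e0 e1 e2 => by
    have := (le_abs_self _).trans ((hB (x + e) ⟨by linarith, by linarith⟩).trans (le_abs_self B))
    have e3 : (s * (x + e) + -(s * x)) ^ 2 = s ^ 2 := by linear_combination s ^ 2 * e0
    rw [hg', e3]
    nlinarith
  have g1 := ng (-1) (by norm_num) le_rfl (by norm_num)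
  have g3 := ng 1 (by norm_num) (by norm_num) le_rfl
  have g2 : 0 < aeval x g := by
    rw [hg']
    simpa using hT x x1
  obtain ⟨N, hN⟩ := root_pos (a - s ^ 2) (b + 2 * s ^ 2 * x) (c - s ^ 2 * x ^ 2)
  have g4 : 0 < aeval (max N (x + 1)) g := by
    have := hN _ (le_max_left N (x + 1))
    rw [hg']
    linarith
  obtain ⟨q0, a0, b0⟩ := intermediate_value_Ioo (show x + -1 ≤ x by linarith)
    gc.continuousOn ⟨g1, g2⟩
  obtain ⟨q1, a1, b1⟩ := intermediate_value_Ioo' (show x ≤ x + 1 by linarith)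
    gc.continuousOn ⟨g3, g2⟩
  obtain ⟨q2, a2, b2⟩ := intermediate_value_Ioo (le_max_right N (x + 1)) gc.continuousOn ⟨g3, g4⟩
  obtain ⟨N', hN'⟩ := root_pos (-a) b (-c)
  obtain ⟨T0, h0⟩ := exists_rat_lt (min (-N') q0)
  rw [lt_min_iff] at h0
  refine ⟨T0, ![q0, q1, q2], ?_, fun i => ?_, h0.2.le, fun t ht => ?_⟩
  · refine Fin.strictMono_iff_lt_succ.2 fun i => ?_
    fin_cases i
    · exact a0.2.trans a1.1
    · exact a1.2.trans a2.1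
  · fin_cases i
    exacts [b0, b1, b2]
  · have h1 : (t : ℝ) < T0 := by exact_mod_cast ht
    have h2 := hN' (-t) (by linarith)
    have h3 : (((fW W).eval t : ℚ) : ℝ) = t ^ 3 + a * t ^ 2 + b * t + c := by
      simp [fW, ha, hb, hc]
    have h4 := hq t
    rw [hg'] at h4
    have h5 : (((fW W).eval t : ℚ) : ℝ) < 0 := by linarith
    have h6 : ((aeval t g : ℚ) : ℝ) < 0 := by linarith [sq_nonneg (s * t + -(s * x))]
    exact ⟨by exact_mod_cast h5, by exact_mod_cast h6⟩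

end Pool.Agent.MP_f3836a_nt.VE.W
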