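import Pool.Agent.MP_f3836a_nt.VE.SpecW1
import Pool.Agent.MP_f3836a_nt.VE.AReal

/-! The homomorphism attached to a line. -/

set_option autoImplicit false

namespace Pool.Agent.MP_f3836a_nt.VE.W

open Polynomial VE.A

namespace WMu

theorem den {p : ℕ} (hp : p.Prime) {a : ℚ} (h : padicNorm p a ≤ 1) : ¬(p : ℤ) ∣ (a.den : ℤ) := by
  have := Fact.mk hp
  intro hd
  have h1 : ¬(p : ℤ) ∣ a.num := fun hn => hp.one_lt.ne' (Nat.eq_one_of_dvd_coprimes a.reduced
    (Int.natCast_dvd.1 hn) (Int.natCast_dvd_natCast.1 hd))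
  have h2 := congrArg (padicNorm p) (Rat.mul_den_eq_num a)
  rw [padicNorm.mul, (padicNorm.int_eq_one_iff _).2 h1, ← Int.cast_natCast] at h2
  have h3 := (padicNorm.int_lt_one_iff _).2 hd
  nlinarith [padicNorm.nonneg (p := p) a, padicNorm.nonneg (p := p) ((a.den : ℤ) : ℚ)]

theorem num {p : ℕ} (hp : p.Prime) {a : ℚ} (h : padicNorm p a = 1) : ¬(p : ℤ) ∣ a.num := by
  have := Fact.mk hp
  have h2 := congrArg (padicNorm p) (Rat.mul_den_eq_num a)
  rw [padicNorm.mul, h, one_mul, ← Int.cast_natCast,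
    (padicNorm.int_eq_one_iff _).2 (den hp h.le)] at h2
  exact (padicNorm.int_eq_one_iff _).1 h2.symm

variable {R ι : Type} [CommRing R] [IsDomain R] [Algebra ℚ R] {x y : R} {S : Sy R ι}
  {s : Finset ℕ} {v δ : ℕ → R → ℝ}

theorem ne {a : ℚ} (h : a ≠ 0) : algebraMap ℚ R a ≠ 0 := ((IsUnit.mk0 a h).map _).ne_zero

omit [IsDomain R] in
theorem v_int (h : Tw S x y s v δ) {p : ℕ} (hp : p ∈ s) {n : ℤ} (hn : ¬(p : ℤ) ∣ n) :
    v p n = 0 := by
  have := h.v0 p hp (C n) 0 fun e => hn (by simpa using (C_dvd_iff_dvd_coeff _ _).1 e.1 0)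
  simpa [gv] using this

theorem v_den (h : Tw S x y s v δ) {p : ℕ} (hp : p ∈ s) {a : ℚ} (ha : padicNorm p a ≤ 1) {g : R}
    (hg : g ≠ 0) : v p ((a.den : ℤ) * g) = v p g := by
  have h0 : ((a.den : ℤ) : R) ≠ 0 := by
    rw [← map_intCast (algebraMap ℚ R)]
    exact ne (by exact_mod_cast a.den_nz)
  rw [h.vm p hp _ _ h0 hg, v_int h hp (den (h.pr p hp) ha), zero_add]

omit [IsDomain R] in
theorem mul_den (a : ℚ) : ((a.den : ℤ) : R) * algebraMap ℚ R a = a.num := by
  rw [← map_intCast (algebraMap ℚ R), ← map_intCast (algebraMap ℚ R), ← map_mul, mul_comm,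
    Int.cast_natCast, Rat.mul_den_eq_num]

theorem v_rat (h : Tw S x y s v δ) {p : ℕ} (hp : p ∈ s) {a : ℚ} (h0 : a ≠ 0)
    (ha : padicNorm p a = 1) : v p (algebraMap ℚ R a) = 0 := by
  rw [← v_den h hp ha.le (ne h0), mul_den, v_int h hp (num (h.pr p hp) ha)]

theorem v_lin (h : Tw S x y s v δ) {p : ℕ} (hp : p ∈ s) {t : ℚ} (ht : padicNorm p t ≤ 1)
    (h0 : x - algebraMap ℚ R t ≠ 0) : v p (x - algebraMap ℚ R t) = 0 := by
  have := h.v0 p hp (C (t.den : ℤ) * X - C t.num) 0 fun e => den (h.pr p hp) ht (by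
    simpa only [coeff_sub, coeff_C_mul, coeff_X_one, mul_one, coeff_C_succ, sub_zero] using
      (C_dvd_iff_dvd_coeff _ _).1 e.1 1)
  rw [← v_den h hp ht h0, mul_sub, mul_den, ← this]
  simp [gv]

theorem v_pow (h : Tw S x y s v δ) {p : ℕ} (hp : p ∈ s) {g : R} (hg : g ≠ 0) (n : ℕ) :
    v p (g ^ n) = n * v p g := by
  induction n with
  | zero =>
    have := h.vm p hp 1 1 one_ne_zero one_ne_zero
    rw [one_mul] at this
    simpa using this
  | succ n ih =>
    rw [pow_succ, h.vm p hp _ _ (pow_ne_zero n hg) hg, ih]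
    push_cast
    ring

theorem con (h : Tw S x y s v δ) {g : R} (hg : g ≠ 0) {a : ℚ} (h0 : a ≠ 0) :
    S.L g (algebraMap ℚ R a) = ∑ p ∈ s, v p (algebraMap ℚ R a) * δ p g := by
  have u : IsUnit (algebraMap ℚ R a) := (IsUnit.mk0 a h0).map _
  obtain ⟨w, hw⟩ := u.exists_left_inv
  rw [h.sym g _ hg u.ne_zero ⟨0, w, by rw [zero_mul, zero_add, hw]⟩, h.L_unit_left u, zero_add]
  refine Finset.sum_congr rfl fun p hp => ?_
  have := h.dq p hp (C a) (C_ne_zero.2 h0)
  rw [aeval_C] at this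
  rw [this, mul_zero, sub_zero]

omit [IsDomain R] in
theorem eqn {W : WeierstrassCurve ℤ} (hM : Model x (yW W x y) (fW W)) : eW W x y = 0 := by
  obtain ⟨h, hh⟩ : ∃ h, h = algebraMap ℚ R (1 / 2) := ⟨_, rfl⟩
  have h2 : 2 * h = 1 := by
    rw [hh, ← map_ofNat (algebraMap ℚ R) 2, ← map_mul]
    norm_num
  have c4 : ∀ n : ℤ, algebraMap ℚ R ((n : ℚ) / 4) = h ^ 2 * n := fun n => by
    rw [hh, ← map_intCast (algebraMap ℚ R), ← map_pow, ← map_mul]
    congr 1
    ring
  have c2 : ∀ n : ℤ, algebraMap ℚ R ((n : ℚ) / 2) = h * n := fun n => by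
    rw [hh, ← map_intCast (algebraMap ℚ R), ← map_mul]
    congr 1
    ring
  have e := hM.eq
  rw [yW, ← hh, fW] at e
  simp only [map_add, map_mul, map_pow, aeval_X, aeval_C, c4, c2] at e
  simp only [WeierstrassCurve.b₂, WeierstrassCurve.b₄, WeierstrassCurve.b₆] at e
  push_cast at e
  rw [eW]
  linear_combination e + (-(W.a₁ * x + W.a₃) * y + (2 * h + 1) * (W.a₂ * x ^ 2 + W.a₆)
    + W.a₄ * x - h * W.a₁ * W.a₃ * x) * h2

end WMu

open WMu in
theorem wMu : OfMu := by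
  intro _ R ι _ _ _ W x y S s v δ r0 s0 τ K T0 ρ hM h c1 c2 r1 r2 r3 hZ hneg
  obtain ⟨l, hl⟩ : ∃ l, l = gv x y (-(C s0 * X + C r0)) 1 := ⟨_, rfl⟩
  rw [← hl]
  have hl' : l = y - (s0 * x + r0) := by
    rw [hl, gv]
    simp only [map_neg, map_add, map_mul, aeval_X, map_one, eq_intCast, map_intCast]
    ring
  have l0 : l ≠ 0 := fun e => one_ne_zero (hM.ind (-(C (s0 : ℚ) * X + C (r0 : ℚ) +
      C (1 / 2) * (C (W.a₁ : ℚ) * X + C (W.a₃ : ℚ)))) 1 (by
    simp only [map_neg, map_add, map_mul, aeval_X, aeval_C, map_one, map_intCast, yW]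
    linear_combination e - hl')).2
  have lc : aeval x ((cW W r0 s0).map (Int.castRingHom ℚ))
      = l * (y + (s0 * x + r0) + (W.a₁ * x + W.a₃)) := by
    have e := eqn hM
    rw [eW] at e
    rw [← algebraMap_int_eq, aeval_map_algebraMap, cW, hl']
    simp only [map_sub, map_add, map_mul, map_pow, aeval_X, eq_intCast, map_intCast]
    linear_combination -e
  have cop : ∀ q, IsCoprime ((cW W r0 s0).map (Int.castRingHom ℚ)) q → IsCoprime l (aeval x q) :=
    fun q hq => (lc ▸ hq.map (aeval x).toRingHom : IsCoprime (l * _) (aeval x q)).of_mul_left_left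
  refine ⟨⟨h.pr, c1, c2, r1, r2, r3,
    fun q q' h1 h2 => by rw [map_mul, h.L_mul l0 (cop q h1) (cop q' h2)],
    fun q q' h1 => h.L_congr l0 (by
      rw [← map_sub]
      exact (lc ▸ dvd_mul_right l _ : l ∣ aeval x _).trans (_root_.map_dvd (aeval x) h1)),
    fun a h0 ha => ?_, fun t ht hs => ?_⟩, fun p hp n => ?_⟩
  · rw [aeval_C, con h l0 h0]
    exact Finset.sum_eq_zero fun p hp => by rw [v_rat h hp h0 (ha p hp), zero_mul]
  · have lin : aeval x (X - C t) = x - algebraMap ℚ R t := by simp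
    have hne : x - algebraMap ℚ R t ≠ 0 := fun e =>
      X_sub_C_ne_zero t (hM.ind (X - C t) 0 (by simpa using e)).1
    have c := cop _ (real_cop (t := t) (by
      rw [← algebraMap_int_eq, eval_map_algebraMap]
      exact (hneg t ht).ne))
    have d := fun p hp => h.dq p hp _ (X_sub_C_ne_zero t)
    rw [lin] at c d ⊢
    rw [h.sym l _ l0 hne c, hZ t ht hs l c.symm, zero_add]
    refine Finset.sum_eq_zero fun p hp => ?_
    have := Fact.mk (h.pr p hp)
    have h1 : padicNorm p (t - τ) ≤ 1 := (hs p hp).trans (zpow_le_one_of_nonpos₀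
      (by exact_mod_cast (h.pr p hp).one_lt.le) (by simp))
    have h2 := padicNorm.nonarchimedean (p := p) (q := t - τ) (r := τ)
    rw [sub_add_cancel] at h2
    rw [d p hp, v_lin h hp (h2.trans (max_le h1 (padicNorm.of_int τ))) hne]
    simp
  · have p0 : (p : ℚ) ≠ 0 := by exact_mod_cast (h.pr p hp).ne_zero
    have p1 : (p : R) ≠ 0 := by
      rw [← map_natCast (algebraMap ℚ R)]
      exact ne p0
    rw [aeval_C, con h l0 (pow_ne_zero n p0), map_pow, map_natCast, Finset.sum_eq_single_of_mem p hp,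
      v_pow h hp p1, h.vp p hp, mul_one]
    intro q hq hne
    rw [v_pow h hq p1, ← Int.cast_natCast p, v_int h hq fun e => hne
      ((Nat.prime_dvd_prime_iff_eq (h.pr q hq) (h.pr p hp)).1 (Int.natCast_dvd_natCast.1 e))]
    simp

end Pool.Agent.MP_f3836a_nt.VE.W
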