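import Pool.Agent.MP_f3836a_nt.VE.SpecW1

/-! Perturbation of a relation in a cubic algebra, for several absolute values. -/

set_option autoImplicit false

namespace Pool.Agent.MP_f3836a_nt.VE.W

open Polynomial Filter Topology

namespace WNear

section
variable {K : Type} [Field K] (c0 c1 c2 t1 t3 : K) (e : K × K × K)

def a2 : K := e.2.1 - t1 * e.2.2 - c2 * e.2.2
def a1 : K := 1 + e.1 - t1 * e.2.1 - c1 * e.2.2
def a0 : K := -t1 - t1 * e.1 - c0 * e.2.2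
def dn : K := a2 c2 t1 e * t3 ^ 2 + a1 c1 t1 e * t3 + a0 c0 t1 e
def s2 : K := ((a1 c1 t1 e - c2 * a2 c2 t1 e) * t3 ^ 2 + (a0 c0 t1 e - c1 * a2 c2 t1 e) * t3 -
  c0 * a2 c2 t1 e) / dn c0 c1 c2 t1 t3 e
def kk : K := a1 c1 t1 e - c2 * a2 c2 t1 e - s2 c0 c1 c2 t1 t3 e * a2 c2 t1 e
def s4 : K := -(a0 c0 t1 e - c1 * a2 c2 t1 e - s2 c0 c1 c2 t1 t3 e * a1 c1 t1 e) /
  kk c0 c1 c2 t1 t3 e - t3

end

theorem gen {K : Type} [NormedField K] (c0 c1 c2 t1 t3 : K) (η : ℝ) (h : t1 ≠ t3) (hη : 0 < η) :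
    ∃ ε : ℝ, 0 < ε ∧ ∀ e : K × K × K, ‖e.1‖ ≤ ε → ‖e.2.1‖ ≤ ε → ‖e.2.2‖ ≤ ε →
      dn c0 c1 c2 t1 t3 e ≠ 0 ∧ kk c0 c1 c2 t1 t3 e ≠ 0 ∧ ‖s2 c0 c1 c2 t1 t3 e - t3‖ ≤ η ∧
      ‖s4 c0 c1 c2 t1 t3 e - t1‖ ≤ η ∧ ‖kk c0 c1 c2 t1 t3 e - 1‖ ≤ η := by
  have n : t3 - t1 ≠ 0 := sub_ne_zero.2 h.symm
  have e2 : a2 c2 t1 0 = 0 := by simp [a2]
  have e1 : a1 c1 t1 0 = 1 := by simp [a1]
  have e0 : a0 c0 t1 0 = -t1 := by simp [a0]
  have ed : dn c0 c1 c2 t1 t3 0 = t3 - t1 := by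
    rw [dn, e2, e1, e0]
    ring
  have es : s2 c0 c1 c2 t1 t3 0 = t3 := by
    rw [s2, ed, e2, e1, e0, div_eq_iff n]
    ring
  have ek : kk c0 c1 c2 t1 t3 0 = 1 := by
    rw [kk, e2, e1]
    ring
  have eu : s4 c0 c1 c2 t1 t3 0 = t1 := by
    rw [s4, ek, es, e2, e1, e0]
    ring
  have k2 : ContinuousAt (a2 c2 t1) 0 := by unfold a2; fun_prop
  have k1 : ContinuousAt (a1 c1 t1) 0 := by unfold a1; fun_prop
  have k0 : ContinuousAt (a0 c0 t1) 0 := by unfold a0; fun_prop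
  have cd : ContinuousAt (dn c0 c1 c2 t1 t3) 0 := by unfold dn; fun_prop
  have cs : ContinuousAt (s2 c0 c1 c2 t1 t3) 0 :=
    ContinuousAt.div (by fun_prop) cd (ed ▸ n)
  have ck : ContinuousAt (kk c0 c1 c2 t1 t3) 0 := by unfold kk; fun_prop
  have cu : ContinuousAt (s4 c0 c1 c2 t1 t3) 0 :=
    (ContinuousAt.div (by fun_prop) ck (ek ▸ one_ne_zero)).sub continuousAt_const
  have cl : ∀ (f : K × K × K → K) (a : K), ContinuousAt f 0 → f 0 = a →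
      ∀ᶠ e in 𝓝 (0 : K × K × K), ‖f e - a‖ ≤ η := fun f a hf ha => by
    filter_upwards [hf.tendsto.eventually (Metric.closedBall_mem_nhds _ hη)] with e he
    rwa [ha, dist_eq_norm] at he
  obtain ⟨ε, hε, hev⟩ := Metric.nhds_basis_closedBall.eventually_iff.1
    ((cd.eventually_ne (ed ▸ n)).and ((ck.eventually_ne (ek ▸ one_ne_zero)).and
      ((cl _ _ cs es).and ((cl _ _ cu eu).and (cl _ _ ck ek)))))
  refine ⟨ε, hε, fun e h0 h1 h2 => hev ?_⟩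
  rw [mem_closedBall_zero_iff, Prod.norm_def, Prod.norm_def]
  exact max_le h0 (max_le h1 h2)

theorem one {K : Type} [Field K] (w : AbsoluteValue K ℝ) (c0 c1 c2 t1 t3 : K) (η : ℝ)
    (h : t1 ≠ t3) (hη : 0 < η) :
    ∃ ε : ℝ, 0 < ε ∧ ∀ e : K × K × K, w e.1 ≤ ε → w e.2.1 ≤ ε → w e.2.2 ≤ ε →
      dn c0 c1 c2 t1 t3 e ≠ 0 ∧ kk c0 c1 c2 t1 t3 e ≠ 0 ∧ w (s2 c0 c1 c2 t1 t3 e - t3) ≤ η ∧
      w (s4 c0 c1 c2 t1 t3 e - t1) ≤ η ∧ w (kk c0 c1 c2 t1 t3 e - 1) ≤ η :=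
  @gen K w.toNormedField c0 c1 c2 t1 t3 η h hη

end WNear

open WNear in
theorem wNear : NearW := by
  intro ι _ _ w c t1 t3 η hc h3 ht hη
  choose ε hε H using fun i => one (w i) (c.coeff 0) (c.coeff 1) (c.coeff 2) t1 t3 η ht hη
  obtain ⟨i0, hi0⟩ := Finite.exists_min ε
  refine ⟨ε i0, hε i0, fun e he hw => ?_⟩
  have G := fun i => H i (e.coeff 0, e.coeff 1, e.coeff 2) ((hw i 0).trans (hi0 i))
    ((hw i 1).trans (hi0 i)) ((hw i 2).trans (hi0 i))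
  obtain ⟨g1, g2, -⟩ := G i0
  refine ⟨_, _, _, g2, fun i => (G i).2.2, ?_⟩
  have hc' := c.as_sum_range_C_mul_X_pow' (n := 4) (by omega)
  have he' := e.as_sum_range_C_mul_X_pow' (n := 3) (by omega)
  have hc3 : c.coeff 3 = 1 := by rw [← h3]; exact hc
  simp only [Finset.sum_range_succ, Finset.range_zero, Finset.sum_empty, hc3, C_1] at hc' he'
  obtain ⟨s, hs⟩ : ∃ s, s = s2 (c.coeff 0) (c.coeff 1) (c.coeff 2) t1 t3
    (e.coeff 0, e.coeff 1, e.coeff 2) := ⟨_, rfl⟩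
  obtain ⟨k, hk⟩ : ∃ k, k = kk (c.coeff 0) (c.coeff 1) (c.coeff 2) t1 t3
    (e.coeff 0, e.coeff 1, e.coeff 2) := ⟨_, rfl⟩
  obtain ⟨u, hu⟩ : ∃ u, u = s4 (c.coeff 0) (c.coeff 1) (c.coeff 2) t1 t3
    (e.coeff 0, e.coeff 1, e.coeff 2) := ⟨_, rfl⟩
  rw [← hs, ← hk, ← hu]
  rw [s4, ← hs, ← hk, eq_sub_iff_add_eq, eq_div_iff (hk ▸ g2)] at hu
  rw [kk, ← hs] at hk
  rw [s2, eq_div_iff g1, dn] at hs
  have hs' := congrArg (C : ℚ → ℚ[X]) hs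
  have hk' := congrArg (C : ℚ → ℚ[X]) hk
  have hu' := congrArg (C : ℚ → ℚ[X]) hu
  refine ⟨C (e.coeff 2) * (X - C s) + C (a2 (c.coeff 2) t1 (e.coeff 0, e.coeff 1, e.coeff 2)), ?_⟩
  simp only [a2, a1, a0, map_mul, map_add, map_sub, map_pow, map_neg, map_one] at hs' hk' hu' ⊢
  generalize C (c.coeff 0) = c0 at *
  generalize C (c.coeff 1) = c1 at *
  generalize C (c.coeff 2) = c2 at *
  generalize C (e.coeff 0) = e0 at *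
  generalize C (e.coeff 1) = e1 at *
  generalize C (e.coeff 2) = e2 at *
  rw [hc', he']
  linear_combination -hs' - (X ^ 2 - C t3 ^ 2) * hk' + (X - C t3) * hu'

end Pool.Agent.MP_f3836a_nt.VE.W
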