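import Pool.Agent.MP_f3836a_nt.VE.SpecW1

/-! The critical point near a node. -/

set_option autoImplicit false

namespace Pool.Agent.MP_f3836a_nt.VE.W

open Polynomial PadicInt

namespace WNoda

variable {p : ℕ} [Fact p.Prime]

theorem dv {z : ℤ_[p]} : (p : ℤ_[p]) ∣ z ↔ toZMod z = 0 := by
  rw [← RingHom.mem_ker, ker_toZMod, maximalIdeal_eq_span_p, Ideal.mem_span_singleton]

theorem un {z : ℤ_[p]} (h : toZMod z ≠ 0) : ‖z‖ = 1 :=
  le_antisymm z.norm_le_one (not_lt.1 fun e => h (dv.1 ((norm_lt_one_iff_dvd z).1 e)))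

theorem hen (u b c x : ℤ_[p]) (h0 : toZMod (u * x ^ 2 + b * x + c) = 0)
    (h1 : toZMod (2 * u * x + b) ≠ 0) : ∃ z, u * z ^ 2 + b * z + c = 0 ∧ toZMod z = toZMod x := by
  have e0 : ∀ z : ℤ_[p], aeval z (C u * X ^ 2 + C b * X + C c) = u * z ^ 2 + b * z + c := by simp
  have e1 : ‖aeval x (derivative (C u * X ^ 2 + C b * X + C c))‖ = 1 := by
    rw [← un h1]
    congr 1
    simp
    ring
  obtain ⟨z, a0, a1, -⟩ := hensels_lemma (F := C u * X ^ 2 + C b * X + C c) (a := x) (by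
    rw [e0, e1, one_pow]
    exact (norm_lt_one_iff_dvd _).2 (dv.2 h0))
  rw [e1, norm_lt_one_iff_dvd, dv, map_sub, sub_eq_zero] at a1
  exact ⟨z, e0 z ▸ a0, a1⟩

end WNoda

open WNoda in
theorem wNoda : NodaS := by
  intro W p _ x0 y0 α β hΔ h
  have c : ∀ {n : ℤ}, (p : ℤ) ∣ n ↔ (n : ZMod p) = 0 := (ZMod.intCast_zmod_eq_zero_iff_dvd _ _).symm
  have h0 := c.1 h.e
  have h1 := c.1 h.ex
  have h2 := c.1 h.ey
  have h3 := c.1 h.sum
  have h4 := c.1 h.prod
  have h5 := mt c.2 h.ne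
  simp only [eW, eX, eY, Int.cast_id] at h0 h1 h2
  push_cast at h0 h1 h2 h3 h4 h5
  have hD : (W.a₁ : ZMod p) ^ 2 + 4 * (W.a₂ + 3 * x0) ≠ 0 := fun e => pow_ne_zero 2 h5 (by
    linear_combination e + (α + β - W.a₁ : ZMod p) * h3 - 4 * h4)
  obtain ⟨e1, a0, a1⟩ := hen (p := p) 6 (W.a₁ ^ 2 + 4 * W.a₂) (W.a₁ * W.a₃ + 2 * W.a₄) x0
    (by
      simp only [map_add, map_mul, map_pow, map_intCast, map_ofNat]
      linear_combination (W.a₁ : ZMod p) * h2 - 2 * h1)
    (by
      simp only [map_add, map_mul, map_pow, map_intCast, map_ofNat]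
      exact fun e => hD (by linear_combination e))
  rw [map_intCast] at a1
  obtain ⟨a, b0, b1⟩ := hen (p := p) 1 W.a₁ (-(W.a₂ + 3 * e1)) α
    (by
      simp only [map_add, map_mul, map_pow, map_intCast, map_ofNat, map_neg, map_one, a1]
      linear_combination (α : ZMod p) * h3 - h4)
    (by
      simp only [map_add, map_mul, map_intCast, map_ofNat, map_one]
      exact fun e => h5 (by linear_combination e - h3))
  rw [map_intCast] at b1
  have d0 : toZMod ((W.a₁ : ℤ_[p]) ^ 2 + 4 * (W.a₂ + 3 * e1) : ℤ_[p]) ≠ 0 := by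
    simpa only [map_add, map_mul, map_pow, map_intCast, map_ofNat, a1] using hD
  have d1 := PadicInt.isUnit_iff.2 (un d0)
  obtain ⟨e2, c0⟩ := d1.dvd (a := W.a₁ * (3 * e1 ^ 2 + 2 * W.a₂ * e1 + W.a₄) -
    2 * (W.a₂ + 3 * e1) * (W.a₁ * e1 + W.a₃))
  have c1 : toZMod e2 = y0 := by
    have := congrArg toZMod c0
    simp only [map_add, map_sub, map_mul, map_pow, map_intCast, map_ofNat, a1] at this
    refine mul_left_cancel₀ hD ?_
    linear_combination -this - (W.a₁ : ZMod p) * h1 - 2 * (W.a₂ + 3 * x0 : ZMod p) * h2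
  have ex : eX W e1 e2 = 0 := mul_left_cancel₀ d1.ne_zero (by
    rw [eX]
    linear_combination -(W.a₁ : ℤ_[p]) * c0 - 2 * (W.a₂ + 3 * e1) * a0)
  have ey : eY W e1 e2 = 0 := mul_left_cancel₀ d1.ne_zero (by
    rw [eY]
    linear_combination -2 * c0 + (W.a₁ : ℤ_[p]) * a0)
  refine ⟨e1, e2, a, -W.a₁ - a, dv.2 (by rw [map_sub, a1, map_intCast, sub_self]),
    dv.2 (by rw [map_sub, c1, map_intCast, sub_self]),
    dv.2 (by rw [map_sub, b1, map_intCast, sub_self]), PadicInt.isUnit_iff.2 (un ?_), ex, ey,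
    by ring, by linear_combination -b0, fun e => ?_, dv.2 ?_⟩
  · simp only [map_sub, map_neg, map_intCast, b1]
    exact fun e => h5 (by linear_combination e - h3)
  · have := ((W.map (Int.castRingHom ℤ_[p])).toAffine.equation_iff_nonsingular_of_Δ_ne_zero
      (x := e1) (y := e2) (by
        rw [WeierstrassCurve.map_Δ]
        exact Int.cast_ne_zero.2 hΔ)).1 ((WeierstrassCurve.Affine.equation_iff' _ _).2 e)
    exact ((WeierstrassCurve.Affine.nonsingular_iff' _ _).1 this).2.elim (· ex) (· ey)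
  · simp only [eW, map_add, map_sub, map_mul, map_pow, map_intCast, a1, c1]
    exact h0

end Pool.Agent.MP_f3836a_nt.VE.W
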