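import Pool.Agent.MP_f3836a_nt.VE.SpecW1

/-! Lines and fibres near a node. -/

set_option autoImplicit false

namespace Pool.Agent.MP_f3836a_nt.VE.W

open Polynomial

namespace WNode

theorem ev0 (W : WeierstrassCurve ℤ) (r s t : ℤ) : (cW W r s).eval t =
    t ^ 3 + W.a₂ * t ^ 2 + W.a₄ * t + W.a₆ - (s * t + r) ^ 2 - (W.a₁ * t + W.a₃) * (s * t + r) := by
  simp [cW]

theorem ev1 (W : WeierstrassCurve ℤ) (r s t : ℤ) : (derivative (cW W r s)).eval t =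
    3 * t ^ 2 + 2 * W.a₂ * t + W.a₄ - 2 * s * (s * t + r) -
      (W.a₁ * (s * t + r) + (W.a₁ * t + W.a₃) * s) := by
  simp only [cW, derivative_sub, derivative_add, derivative_mul, derivative_pow, derivative_X,
    derivative_C, eval_sub, eval_add, eval_mul, eval_pow, eval_X, eval_C, eval_zero, eval_one]
  push_cast
  ring

theorem co2 (W : WeierstrassCurve ℤ) (r s : ℤ) : (cW W r s).coeff 2 = W.a₂ - s ^ 2 - W.a₁ * s := by
  have : cW W r s = X ^ 3 + C (W.a₂ - s ^ 2 - W.a₁ * s) * X ^ 2 +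
      C (W.a₄ - 2 * s * r - W.a₁ * r - W.a₃ * s) * X + C (W.a₆ - r ^ 2 - W.a₃ * r) := by
    simp only [cW, map_sub, map_mul, map_pow, map_ofNat]
    ring
  rw [this]
  simp only [coeff_add, coeff_X_pow, coeff_C_mul, coeff_X, coeff_C]
  simp

theorem ids {R : Type} [CommRing R] {a1 a2 a3 a4 a6 e1 e2 a b d : R}
    (hX : a1 * e2 - (3 * e1 ^ 2 + 2 * a2 * e1 + a4) = 0) (hY : 2 * e2 + a1 * e1 + a3 = 0)
    (hs : a + b + a1 = 0) (hp : a * b + (a2 + 3 * e1) = 0)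
    (hd : d = -(e2 ^ 2 + a1 * e1 * e2 + a3 * e2 - (e1 ^ 3 + a2 * e1 ^ 2 + a4 * e1 + a6))) (t : R) :
    4 * t ^ 3 + (a1 ^ 2 + 4 * a2) * t ^ 2 + 2 * (2 * a4 + a1 * a3) * t + (a3 ^ 2 + 4 * a6) =
      (a - b) ^ 2 * (t - e1) ^ 2 + 4 * (t - e1) ^ 3 + 4 * d ∧ ∀ r s : R,
    t ^ 3 + a2 * t ^ 2 + a4 * t + a6 - (s * t + r) ^ 2 - (a1 * t + a3) * (s * t + r) =
      d + ((t - e1) ^ 3 - ((s - a) * t + (r - (e2 - a * e1))) * (s * t + r - e2 - b * (t - e1))) ∧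
    3 * t ^ 2 + 2 * a2 * t + a4 - 2 * s * (s * t + r) - (a1 * (s * t + r) + (a1 * t + a3) * s) =
      3 * (t - e1) ^ 2 + -((s - a) * (s * t + r - e2 - b * (t - e1)) +
        ((s - a) * t + (r - (e2 - a * e1))) * (s - b)) ∧
    3 * t + (a2 - s ^ 2 - a1 * s) = 3 * (t - e1) + -((s - a) * (s - b)) := by
  obtain rfl : a1 = -(a + b) := by linear_combination hs
  obtain rfl : a2 = -(a * b) - 3 * e1 := by linear_combination hp
  obtain rfl : a3 = -(2 * e2) + (a + b) * e1 := by linear_combination hY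
  obtain rfl : a4 = -(a + b) * e2 - (3 * e1 ^ 2 + 2 * (-(a * b) - 3 * e1) * e1) := by
    linear_combination -hX
  subst hd
  exact ⟨by ring, fun r s => ⟨by ring, by ring, by ring⟩⟩

theorem cube {R : Type} [CommRing R] {q x e : R} (h : q ∣ x ^ 3) (h' : q ∣ e) :
    q ^ 2 ∣ (3 * x ^ 2 + e) ^ 3 ∧ q ∣ (3 * x + e) ^ 3 := by
  obtain ⟨u, hu⟩ := h
  obtain ⟨v, rfl⟩ := h'
  exact ⟨⟨27 * u ^ 2 + 27 * u * x * v + 9 * x ^ 2 * v ^ 2 + q * v ^ 3, by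
    linear_combination (27 * (x ^ 3 + q * u) + 27 * x * q * v) * hu⟩,
    ⟨27 * u + 27 * x ^ 2 * v + 9 * x * q * v ^ 2 + q ^ 2 * v ^ 3, by linear_combination 27 * hu⟩⟩

theorem apx {p : ℕ} [Fact p.Prime] (K : ℕ) (x : ℤ_[p]) : ∃ z : ℤ, (p : ℤ_[p]) ^ K ∣ z - x :=
  ⟨PadicInt.appr x K, by
    rw [dvd_sub_comm, Int.cast_natCast]
    exact Ideal.mem_span_singleton.1 (PadicInt.appr_spec K x)⟩

end WNode

open WNode in
theorem wNode : OfNode := by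
  intro hA hB W p x0 y0 α β hp hΔ hS
  have := Fact.mk hp
  obtain ⟨e1, e2, a, b, h1, h2, h3, hu, hX, hY, hs, hq, d0, d1⟩ := hA W p x0 y0 α β hΔ hS
  obtain ⟨d, hd⟩ : ∃ d, d = -eW W e1 e2 := ⟨_, rfl⟩
  rw [← neg_ne_zero, ← hd] at d0
  rw [← dvd_neg, ← hd] at d1
  obtain ⟨τ₁, ε, hτ, hε, hN⟩ := hB p (a - b) d hu d0 d1
  have I := ids hX hY hs hq hd
  have P := PadicInt.prime_p (p := p)
  obtain ⟨n, w, hw, e⟩ := WfDvdMonoid.max_power_factor d0 P.irreducible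
  have n0 : 0 < n := Nat.pos_of_ne_zero fun h => hw (by simpa [e, h] using d1)
  have dn : (p : ℤ_[p]) ^ n ∣ d := e ▸ dvd_mul_right _ _
  have dn' : ¬(p : ℤ_[p]) ^ (n + 1) ∣ d := fun h =>
    hw (by rwa [e, pow_succ, mul_dvd_mul_iff_left (pow_ne_zero n P.ne_zero)] at h)
  have t3 : (p : ℤ_[p]) ^ (n + 1) ∣ τ₁ ^ 3 := (pow_succ' (p : ℤ_[p]) n ▸ mul_dvd_mul_left _ dn).trans hτ
  have t1 : (p : ℤ_[p]) ∣ τ₁ := P.dvd_of_dvd_pow ((dvd_pow_self _ n.succ_ne_zero).trans t3)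
  obtain ⟨k, hk⟩ := PadicInt.exists_pow_neg_lt p hε
  have k1 : (p : ℤ_[p]) ∣ (p : ℤ_[p]) ^ (k + (n + 1)) := dvd_pow_self _ (by omega)
  have k2 : (p : ℤ_[p]) ^ (n + 1) ∣ (p : ℤ_[p]) ^ (k + (n + 1)) := pow_dvd_pow _ (by omega)
  have k3 : (p : ℤ_[p]) ^ n ∣ (p : ℤ_[p]) ^ (n + 1) := pow_dvd_pow _ (by omega)
  have k4 : (p : ℤ_[p]) ^ k ∣ (p : ℤ_[p]) ^ (k + (n + 1)) := pow_dvd_pow _ (by omega)
  have cv : ∀ (m : ℕ) (z : ℤ), (p : ℤ) ^ m ∣ z ↔ (p : ℤ_[p]) ^ m ∣ z := fun m z =>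
    (PadicInt.pow_p_dvd_int_iff m z).symm
  have cv1 : ∀ z : ℤ, (p : ℤ_[p]) ∣ z → (p : ℤ) ∣ z := fun z h => by
    simpa using (cv 1 z).2 (by simpa using h)
  obtain ⟨τ, aτ⟩ := apx (k + (n + 1)) (e1 + τ₁)
  obtain ⟨r, ar⟩ := apx (k + (n + 1)) (e2 - a * e1)
  obtain ⟨s, as⟩ := apx (k + (n + 1)) a
  refine ⟨n, k + (n + 1), τ, r, s, n0, by omega, cv1 _ ?_, cv1 _ ?_, cv1 _ ?_, fun t ht => ?_,
    fun t r' s' ht hr hs' => ?_⟩
  · convert ((k1.trans aτ).add h1).add t1 using 1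
    push_cast
    ring
  · convert (k1.trans as).add h3 using 1
    push_cast
    ring
  · convert ((k1.trans ar).add h2).sub ((h3.mul_right e1).add (h1.mul_left α)) using 1
    push_cast
    ring
  · intro p' hp' _ z hz
    obtain rfl : p = p' := (Finset.mem_singleton.1 hp').symm
    have b1 : ‖((t - τ : ℚ) : ℚ_[p])‖ ≤ (p : ℝ) ^ (-((k + (n + 1) : ℕ) : ℤ)) := by
      rw [Padic.eq_padicNorm]
      have := (Rat.cast_le (K := ℝ)).2 (ht p hp')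
      rwa [Rat.cast_zpow, Rat.cast_natCast] at this
    have b2 : ‖((t - τ : ℚ) : ℚ_[p])‖ ≤ 1 :=
      b1.trans (zpow_le_one_of_nonpos₀ (by exact_mod_cast hp.one_le) (by omega))
    let u : ℤ_[p] := ⟨_, b2⟩
    have b3 : (p : ℤ_[p]) ^ (k + (n + 1)) ∣ u :=
      Ideal.mem_span_singleton.1 ((PadicInt.norm_le_pow_iff_mem_span_pow u _).1 b1)
    have b4 : ‖u + τ - e1 - τ₁‖ ≤ ε := by
      refine le_trans ((PadicInt.norm_le_pow_iff_mem_span_pow _ k).2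
        (Ideal.mem_span_singleton.2 (k4.trans ?_))) hk.le
      convert b3.add aτ using 1
      ring
    refine hN _ b4 (2 * z) ?_
    have b5 : ((u + τ : ℤ_[p]) : ℚ_[p]) = t := by
      change ((t - τ : ℚ) : ℚ_[p]) + ((τ : ℤ_[p]) : ℚ_[p]) = t
      push_cast
      ring
    rw [← (I (u + τ)).1, mul_pow, hz]
    generalize u + τ = v at b5
    simp only [fW, WeierstrassCurve.b₂, WeierstrassCurve.b₄, WeierstrassCurve.b₆, eval_add, eval_mul,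
      eval_pow, eval_X, eval_C]
    push_cast
    rw [b5]
    have c4 : ((4 : ℤ_[p]) : ℚ_[p]) = 4 := rfl
    have c2 : ((2 : ℤ_[p]) : ℚ_[p]) = 2 := rfl
    rw [c4, c2]
    ring
  · rw [cv] at ht hr hs'
    push_cast at ht hr hs'
    obtain ⟨i0, i1, i2⟩ := (I t).2 r' s'
    have σ : (p : ℤ_[p]) ^ (n + 1) ∣ s' - a := k2.trans (by simpa using hs'.add as)
    have ρ : (p : ℤ_[p]) ^ (n + 1) ∣ r' - (e2 - a * e1) := k2.trans (by simpa using hr.add ar)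
    have x1 : (p : ℤ_[p]) ^ (n + 1) ∣ t - e1 - τ₁ := by
      convert k2.trans (ht.add aτ) using 1
      ring
    have x3 : (p : ℤ_[p]) ^ (n + 1) ∣ (t - e1) ^ 3 := by
      simpa using (x1.trans (sub_dvd_pow_sub_pow _ _ 3)).add t3
    have l := (σ.mul_right (t : ℤ_[p])).add ρ
    have m := x3.sub (l.mul_right (s' * t + r' - e2 - b * (t - e1)))
    refine ⟨?_, ?_, ?_, ?_⟩
    · rw [cv, ev0]
      push_cast
      rw [i0]
      exact dn.add (k3.trans m)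
    · rw [cv, ev0]
      push_cast
      rw [i0]
      exact fun h => dn' ((dvd_add_left m).1 h)
    · rw [cv, ev1]
      push_cast
      rw [i1, mul_comm 2 n, pow_mul]
      exact (cube (k3.trans x3) (k3.trans ((σ.mul_right _).add (l.mul_right _)).neg_right)).1
    · rw [cv, co2]
      push_cast
      rw [i2]
      exact (cube (k3.trans x3) (k3.trans (σ.mul_right _).neg_right)).2

end Pool.Agent.MP_f3836a_nt.VE.W
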