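import Pool.Agent.MP_f3836a_nt.VE.SpecW1

/-! Powers of a unit are near to one. -/

set_option autoImplicit false

namespace Pool.Agent.MP_f3836a_nt.VE.W

open Polynomial Finset

namespace WPow

theorem den (q : ℚ[X]) (n : ℕ) : ∃ E : ℤ, E ≠ 0 ∧ ∀ a : ℤ[X], a.natDegree ≤ n → ∃ Z : ℤ[X],
    C (E : ℚ) * (a.map (Int.castRingHom ℚ)).comp q = Z.map (Int.castRingHom ℚ) := by
  obtain ⟨D, hD, h⟩ := IsLocalization.integerNormalization_spec (nonZeroDivisors ℤ) q
  generalize IsLocalization.integerNormalization (nonZeroDivisors ℤ) q = Q at h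
  refine ⟨D ^ n, pow_ne_zero _ (nonZeroDivisors.ne_zero hD), fun a ha =>
    ⟨∑ i ∈ range (n + 1), C (a.coeff i * D ^ (n - i)) * Q ^ i, ?_⟩⟩
  rw [comp, eval₂_map, eval₂_eq_sum_range' _ (Nat.lt_succ_of_le ha), mul_sum, Polynomial.map_sum]
  refine sum_congr rfl fun i hi => ?_
  obtain ⟨d, rfl⟩ := Nat.exists_eq_add_of_le (Nat.lt_succ_iff.1 (mem_range.1 hi))
  rw [algebraMap_int_eq] at h
  rw [Polynomial.map_mul, Polynomial.map_pow, h, map_C, Nat.add_sub_cancel_left, zsmul_eq_mul]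
  simp only [eq_intCast, Int.cast_pow, map_mul, map_pow, map_intCast]
  ring

theorem small {p k : ℕ} (hp : p.Prime) {E w : ℤ} {z : ℚ} (hE : E ≠ 0)
    (hw : (p : ℤ) ^ (k + E.natAbs) ∣ w) (h : E * z = w) :
    padicNorm p z ≤ (p : ℚ) ^ (-(k : ℤ)) := by
  have := Fact.mk hp
  have h1 := (padicNorm.dvd_iff_norm_le (p := p) (n := k + E.natAbs) (z := w)).1
    (by exact_mod_cast hw)
  have h2 : (p : ℚ) ^ (-(E.natAbs : ℤ)) < padicNorm p E := by
    rw [← not_le, ← padicNorm.dvd_iff_norm_le, Int.natCast_dvd]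
    exact fun d => (Nat.le_of_dvd (Int.natAbs_pos.2 hE) d).not_gt
      (Nat.lt_pow_self hp.one_lt)
  have h0 : (0 : ℚ) < p := by exact_mod_cast hp.pos
  rw [← h, padicNorm.mul, Nat.cast_add, neg_add, zpow_add₀ h0.ne', mul_comm] at h1
  exact le_of_mul_le_mul_right ((mul_le_mul_of_nonneg_left h2.le (padicNorm.nonneg _)).trans h1)
    (zpow_pos h0 _)

theorem ord {P : ℤ[X]} (hP : P.Monic) {m : ℕ} (hm : m ≠ 0) (h : IsCoprime (m : ℤ) (P.eval 0)) :
    ∃ j : ℕ, 0 < j ∧ C (m : ℤ) ∣ (X ^ j - 1) %ₘ P := by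
  have : NeZero m := ⟨hm⟩
  have hM := hP.map (Int.castRingHom (ZMod m))
  have := hM.finite_adjoinRoot
  have := Module.finite_of_finite (ZMod m) (M := AdjoinRoot (P.map (Int.castRingHom (ZMod m))))
  have hu : IsUnit (AdjoinRoot.root (P.map (Int.castRingHom (ZMod m)))) := by
    have h1 := ((ZMod.coe_int_isUnit_iff_isCoprime _ _).2 h).map
      (AdjoinRoot.of (P.map (Int.castRingHom (ZMod m))))
    have h2 := congrArg (AdjoinRoot.mk (P.map (Int.castRingHom (ZMod m))))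
      (X_mul_divX_add (P.map (Int.castRingHom (ZMod m))))
    rw [AdjoinRoot.mk_self, map_add, map_mul, AdjoinRoot.mk_X, AdjoinRoot.mk_C, coeff_map,
      coeff_zero_eq_eval_zero, eq_intCast, add_eq_zero_iff_eq_neg] at h2
    exact isUnit_of_mul_isUnit_left (h2 ▸ h1.neg)
  obtain ⟨j, hj, e⟩ := (isOfFinOrder_of_finite hu.unit).exists_pow_eq_one
  refine ⟨j, hj, (C_dvd_iff_dvd_coeff _ _).2 fun i => ?_⟩
  have e1 : ((X ^ j - 1) %ₘ P).map (Int.castRingHom (ZMod m)) = 0 := by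
    rw [map_modByMonic _ hP, modByMonic_eq_zero_iff_dvd hM, ← AdjoinRoot.mk_eq_zero]
    have := congrArg Units.val e
    simp only [Units.val_pow_eq_pow_val, IsUnit.unit_spec, Units.val_one] at this
    simp [this]
  rw [← ZMod.intCast_zmod_eq_zero_iff_dvd]
  simpa using congrArg (coeff · i) e1

end WPow

open WPow in
theorem wPow : PowS := by
  intro s k c P q hs hP h0 hc
  obtain ⟨E, hE, hZ⟩ := den q P.natDegree
  have hm : (∏ p ∈ s, p) ^ (k + E.natAbs) ≠ 0 :=
    pow_ne_zero _ (prod_ne_zero_iff.2 fun p hp => (hs p hp).ne_zero)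
  obtain ⟨j, hj, a, ha⟩ := ord hP hm (by
    push_cast
    exact (IsCoprime.prod_left fun p hp =>
      ((Nat.prime_iff_prime_int.1 (hs p hp)).coprime_iff_not_dvd).2 (h0 p hp)).pow_left)
  obtain ⟨Z, hz⟩ := hZ a (by
    rw [← natDegree_C_mul (Nat.cast_ne_zero.2 hm), ← ha]; exact natDegree_modByMonic_le _ hP)
  refine ⟨j, hj, (((X ^ j - 1) %ₘ P).map (Int.castRingHom ℚ)).comp q, fun i p hp => ?_,
    hc.trans ⟨(((X ^ j - 1) /ₘ P).map (Int.castRingHom ℚ)).comp q, ?_⟩⟩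
  · refine small (hs p hp) hE (w := ((∏ p ∈ s, p) ^ (k + E.natAbs) : ℕ) * Z.coeff i)
      (Dvd.dvd.mul_right ?_ _) ?_
    · exact_mod_cast pow_dvd_pow_of_dvd (dvd_prod_of_mem id hp) _
    · have := congrArg (coeff · i) hz
      simp only [coeff_C_mul, coeff_map, eq_intCast] at this
      rw [ha, Polynomial.map_mul, map_C, mul_comp, C_comp, coeff_C_mul, Int.cast_mul, ← this,
        eq_intCast]
      ring
  · have := congrArg (fun F : ℤ[X] => (F.map (Int.castRingHom ℚ)).comp q)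
      (modByMonic_add_div (X ^ j - 1) P)
    simp only [Polynomial.map_add, Polynomial.map_mul, Polynomial.map_sub, Polynomial.map_pow,
      map_X, Polynomial.map_one, add_comp, mul_comp, sub_comp, X_pow_comp, one_comp] at this
    linear_combination -this

end Pool.Agent.MP_f3836a_nt.VE.W
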