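import Pool.Agent.MP_f3836a_nt.VE.SpecW1
import Pool.Agent.MP_f3836a_nt.VE.AScal

/-! Part W1: scaling into the primes of `s`. -/

set_option autoImplicit false

namespace Pool.Agent.MP_f3836a_nt.VE.W

open Polynomial VE.A

namespace WPre

variable {R ι : Type} [CommRing R] [Algebra ℚ R] {x y : R} {S : Sy R ι} {s : Finset ℕ}
  {v δ : ℕ → R → ℝ}

theorem ne0 {y' : R} {f q : ℚ[X]} (h : Model x y' f) (hq : q ≠ 0) : aeval x q ≠ 0 :=
  fun e => hq (h.ind q 0 (by simpa using e)).1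

theorem dq' (h : Tw S x y s v δ) {p : ℕ} (hp : p ∈ s) {c : ℚ} (hc : c ≠ 0) :
    δ p (algebraMap ℚ R c) = 0 := by
  have := h.dq p hp (C c) (C_ne_zero.2 hc)
  rwa [aeval_C] at this

theorem unit_nat {m : ℕ} (hm : m ≠ 0) : IsUnit (m : R) := by
  have : IsUnit (algebraMap ℚ R m) := (Nat.cast_ne_zero.2 hm).isUnit.map _
  rwa [map_natCast] at this

theorem aC {A : Type} [CommRing A] (z : A) (a : ℤ) : aeval z (C a) = (a : A) := by
  rw [aeval_C, eq_intCast]

theorem cop_unit {A : Type} [CommRing A] (g : A) {u : A} (hu : IsUnit u) : IsCoprime g u :=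
  (isCoprime_zero_left.2 hu).of_isCoprime_of_dvd_left (dvd_zero g)

theorem gv_eq (W : WeierstrassCurve ℤ) (n : ℕ) (A B : ℤ[X]) :
    gv (((2 * n : ℕ) : R) ^ 2 * x) (((2 * n : ℕ) : R) ^ 3 * yW W x y) A B =
      gv x y (A.comp (C ((2 * n : ℤ) ^ 2) * X) + B.comp (C ((2 * n : ℤ) ^ 2) * X) *
        (C (4 * (n : ℤ) ^ 3) * (C W.a₁ * X + C W.a₃)))
        (C ((2 * n : ℤ) ^ 3) * B.comp (C ((2 * n : ℤ) ^ 2) * X)) := by
  have h2 : (2 : R) * algebraMap ℚ R (1 / 2) = 1 := by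
    rw [← map_ofNat (algebraMap ℚ R) 2, ← map_mul]
    norm_num
  simp only [gv, yW, map_add, map_mul (aeval x), aeval_comp, aC, aeval_X]
  push_cast
  linear_combination (aeval ((2 * (n : R)) ^ 2 * x) B * (4 * (n : R) ^ 3) *
    (W.a₁ * x + W.a₃)) * h2

theorem ndvd {p : ℕ} {a : ℤ} {A : ℤ[X]} (h : ¬(p : ℤ) ∣ a) (e : A.eval 0 = a) (B : ℤ[X]) :
    ¬(C (p : ℤ) ∣ A ∧ C (p : ℤ) ∣ B) := fun hd => h (by
  have := eval_dvd (x := 0) hd.1
  rwa [eval_C, e] at this)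

end WPre

open WPre

theorem wPre : PreS := by
  intro R ι _ _ _ W x y S s v δ hM hT
  obtain ⟨n, hn⟩ : ∃ n : ℕ, n = ∏ p ∈ s, p := ⟨_, rfl⟩
  have hn0 : 0 < n := hn ▸ Finset.prod_pos fun p hp => (hT.pr p hp).pos
  have hdv : ∀ p ∈ s, (p : ℤ) ∣ n := fun p hp =>
    Int.natCast_dvd_natCast.2 (hn ▸ Finset.dvd_prod_of_mem _ hp)
  have hb : ((2 * n : ℕ) : ℚ) ≠ 0 := by positivity
  have hn1 : (n : ℚ) ≠ 0 := by positivity
  set F : ℤ[X] := X ^ 3 + C (W.b₂ * n ^ 2) * X ^ 2 + C (8 * W.b₄ * n ^ 4) * X +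
    C (16 * W.b₆ * n ^ 6) with hF
  have hev : ∀ t : ℚ, aeval t F = t ^ 3 + W.b₂ * n ^ 2 * t ^ 2 + 8 * W.b₄ * n ^ 4 * t +
      16 * W.b₆ * n ^ 6 := fun t => by
    simp only [hF, map_add, map_mul (aeval t), map_pow (aeval t), aC, aeval_X]
    push_cast
    ring
  have hm : F.map (Int.castRingHom ℚ) =
      C (((2 * n : ℕ) : ℚ) ^ 6) * (fW W).comp (C (((2 * n : ℕ) : ℚ) ^ 2)⁻¹ * X) := by
    refine Polynomial.funext fun t => ?_
    have e : (F.map (Int.castRingHom ℚ)).eval t = aeval t F := eval_map_algebraMap F t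
    rw [e, hev]
    simp only [fW, eval_mul, eval_add, eval_comp, eval_pow, eval_C, eval_X]
    push_cast
    field_simp
    ring
  have hM' := scal_model hM hb
  rw [← hm, map_pow, map_pow, map_natCast] at hM'
  have k : ∀ P : ℚ[X], aeval (((2 * n : ℕ) : R) ^ 2 * x) P =
      aeval x (P.comp (C (((2 * n : ℕ) : ℚ) ^ 2) * X)) := fun P => by
    rw [aeval_comp, map_mul, aeval_C, aeval_X, map_pow, map_natCast]
  have k0 : ∀ P : ℚ[X], P ≠ 0 → P.comp (C (((2 * n : ℕ) : ℚ) ^ 2) * X) ≠ 0 := fun P hP e =>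
    hP ((comp_C_mul_X_eq_zero_iff (mem_nonZeroDivisors_of_ne_zero (pow_ne_zero 2 hb))).1 e)
  refine ⟨2 * n, F, by omega, hM', ⟨hT.toOk0, hT.pr, fun q c hq hc => ?_,
    fun A B a c ha hc hg hco => ?_, fun g p hg hp hps => ?_⟩, fun p hp => ?_, fun t => ?_⟩
  · have hu : IsUnit (algebraMap ℚ R c) := hc.isUnit.map _
    rw [hT.sym _ _ (ne0 hM' hq) hu.ne_zero (cop_unit _ hu),
      hT.toOk0.L_unit_left hu, zero_add]
    refine Finset.sum_eq_zero fun p hp => ?_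
    rw [dq' hT hp hc, k, hT.dq p hp _ (k0 q hq), mul_zero, mul_zero, sub_zero]
  · have hq : (C ((c : ℚ) ^ 2) * X - C (a : ℚ) : ℚ[X]) ≠ 0 := fun e => by
      have := congrArg (coeff · 1) e
      simp only [coeff_sub, coeff_C_mul, coeff_X_one, coeff_C_succ, coeff_zero] at this
      exact hc (by simpa using this)
    have e1 : (c : R) ^ 2 * (((2 * n : ℕ) : R) ^ 2 * x) - a =
        aeval (((2 * n : ℕ) : R) ^ 2 * x) (C ((c : ℚ) ^ 2) * X - C (a : ℚ) : ℚ[X]) := by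
      rw [map_sub, map_mul, aeval_C, aeval_C, aeval_X, map_pow, map_intCast, map_intCast]
    have e2 : (c : R) ^ 2 * (((2 * n : ℕ) : R) ^ 2 * x) - a =
        gv x y (C (c ^ 2 * (2 * n : ℤ) ^ 2) * X - C a) 0 := by
      simp only [gv, map_sub, map_mul (aeval x), aC, aeval_X, map_zero]
      push_cast
      ring
    rw [hT.sym _ _ hg (e1 ▸ ne0 hM' hq) hco.symm, add_eq_left]
    refine Finset.sum_eq_zero fun p hp => ?_
    have d0 : δ p ((c : R) ^ 2 * (((2 * n : ℕ) : R) ^ 2 * x) - a) = 0 := by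
      rw [e1, k, hT.dq p hp _ (k0 _ hq)]
    rw [d0, mul_zero, sub_zero, mul_eq_zero]
    rcases ha p hp with h | h
    · left
      rw [e2]
      exact hT.v0 p hp _ _ (ndvd (a := -a) (by simpa using h) (by simp) _)
    · right
      obtain ⟨w, hw⟩ := map_dvd C (hdv p hp)
      have h0 : A.eval 0 ≠ 0 := fun e => h (by rw [e]; exact dvd_zero _)
      rw [gv_eq, ← hT.dc p hp (C (A.eval 0)) 0 _ _ (ndvd h (by simp) _)]
      · have e3 : gv x y (C (A.eval 0)) 0 = algebraMap ℚ R (A.eval 0 : ℤ) := by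
          simp only [gv, aC, map_zero, zero_mul, add_zero, map_intCast]
        rw [e3, dq' hT hp (Int.cast_ne_zero.2 h0)]
      · have e4 : A.comp (C ((2 * n : ℤ) ^ 2) * X) =
            A.divX.comp (C ((2 * n : ℤ) ^ 2) * X) * (C ((2 * n : ℤ) ^ 2) * X) + C (A.eval 0) := by
          conv_lhs => rw [← divX_mul_X_add A]
          rw [add_comp, mul_comp, X_comp, C_comp, coeff_zero_eq_eval_zero]
        rw [e4]
        generalize A.divX.comp (C ((2 * n : ℤ) ^ 2) * X) = P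
        generalize B.comp (C ((2 * n : ℤ) ^ 2) * X) = Q
        rw [map_pow, map_mul, map_mul, map_pow, hw]
        exact ⟨-(P * (C 2) ^ 2 * C (p : ℤ) * w ^ 2 * X) -
          Q * C 4 * C (p : ℤ) ^ 2 * w ^ 3 * (C W.a₁ * X + C W.a₃), by ring⟩
      · generalize B.comp (C ((2 * n : ℤ) ^ 2) * X) = Q
        rw [map_pow, map_mul, hw]
        exact ⟨-(Q * (C 2) ^ 3 * C (p : ℤ) ^ 2 * w ^ 3), by ring⟩
  · have hu : IsUnit (p : R) := unit_nat hp.ne_zero
    rw [hT.sym _ _ hg hu.ne_zero (cop_unit _ hu),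
      hT.toOk0.L_unit_left hu, zero_add]
    refine Finset.sum_eq_zero fun q hq => ?_
    have d0 : δ q (p : R) = 0 := by
      have := dq' hT hq (Nat.cast_ne_zero.2 hp.ne_zero : (p : ℚ) ≠ 0)
      rwa [map_natCast] at this
    have e : (p : R) = gv x y (C (p : ℤ)) 0 := by
      simp only [gv, aC, map_zero, zero_mul, add_zero, Int.cast_natCast]
    have v0 : v q (p : R) = 0 := by
      rw [e]
      refine hT.v0 q hq _ _ (ndvd (a := p) (fun hd => hps ?_) (by simp) _)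
      rwa [← (Nat.prime_dvd_prime_iff_eq (hT.pr q hq) hp).1 (Int.natCast_dvd_natCast.1 hd)]
    rw [d0, v0, zero_mul, mul_zero, sub_zero]
  · have e : F.eval 0 = 16 * W.b₆ * n ^ 6 := by
      simp only [hF, eval_add, eval_mul, eval_pow, eval_C, eval_X]
      ring
    rw [e]
    exact Dvd.dvd.mul_left (dvd_pow (hdv p hp) (by norm_num)) _
  · rw [hev]
    simp only [fW, eval_mul, eval_add, eval_pow, eval_C, eval_X]
    push_cast
    ring

theorem wZ : OfZ := by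
  intro h1 h2 R ι _ _ _ W x y S s v δ t hM hT ht hN
  obtain ⟨m, F, hm, hM', hO, hd, he⟩ := h1 W x y S s v δ hM hT
  have hm' : (0 : ℚ) < (m : ℚ) ^ 6 := by positivity
  have h3 := h2 _ _ F S s ((m : ℚ) ^ 2 * t) hM' hO hd
    (by rw [he]; exact mul_neg_of_pos_of_neg hm' ht) (fun p hp _ z hz => by
      have h0 : (m : ℚ_[p]) ≠ 0 := Nat.cast_ne_zero.2 hm.ne'
      refine hN p hp (z / (m : ℚ_[p]) ^ 3) ?_
      rw [div_pow, hz, he]
      push_cast
      field_simp)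
  rw [map_mul, map_pow, map_natCast, ← mul_sub] at h3
  refine hT.toOk0.Z_unit ((unit_nat hm.ne').pow 2) ?_ h3
  have := ne0 hM (X_sub_C_ne_zero t)
  rwa [map_sub, aeval_X, aeval_C] at this

end Pool.Agent.MP_f3836a_nt.VE.W
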