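import Pool.Agent.MP_f3836a_nt.VE.SpecW1
import Pool.Agent.MP_f3836a_nt.VE.AScal

/-! Part W1: scaling by an integer and the fibres which are not split. -/

set_option autoImplicit false

namespace Pool.Agent.MP_f3836a_nt.VE.W

open Polynomial VE.A

namespace WScal

theorem core {R : Type} [CommRing R] [Algebra ℚ R] {x y : R} {f : ℚ[X]} {t : ℚ} (h : Model x y f)
    (ht : f.eval t < 0) : ∃ (n : ℕ) (F : ℤ[X]) (t0 : ℤ) (A0 : ℕ), 0 < n ∧ Crv F t0 A0 ∧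
    (∀ s : ℝ, (t0 : ℝ) ≤ s → s ≤ t0 + 1 → aeval s F < -1) ∧ (t0 : ℚ) = (n : ℚ) ^ 2 * t ∧
    F.map (Int.castRingHom ℚ) = C ((n : ℚ) ^ 6) * f.comp (C ((n : ℚ) ^ 2)⁻¹ * X) := by
  have ht' : aeval (t : ℝ) f < 0 := by
    have e : aeval (t : ℝ) f = ((f.eval t : ℚ) : ℝ) := by
      rw [← eq_ratCast (algebraMap ℚ ℝ) t, aeval_algebraMap_apply, eq_ratCast, coe_aeval_eq_eval]
    rw [e]
    exact_mod_cast ht
  set η : ℝ := -aeval (t : ℝ) f / 2 with hη
  have hη0 : 0 < η := by rw [hη]; linarith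
  obtain ⟨δ, hδ, hc⟩ := Metric.continuous_iff.1 (f.continuous_aeval (A := ℝ)) t η hη0
  obtain ⟨N, hN⟩ := exists_nat_gt (max (1 / δ) (1 / η))
  have hN1 : 1 / δ < N := (le_max_left _ _).trans_lt hN
  have hN2 : 1 / η < N := (le_max_right _ _).trans_lt hN
  have hN0 : 0 < N := Nat.cast_pos.1 ((one_div_pos.2 hδ).trans hN1)
  set n : ℕ := (f.coeff 2).den * (f.coeff 1).den * (f.coeff 0).den * t.den * N with hn
  have hn0 : 0 < n := by
    have := (f.coeff 2).den_pos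
    have := (f.coeff 1).den_pos
    have := (f.coeff 0).den_pos
    have := t.den_pos
    positivity
  have hNn : N ≤ n := Nat.le_of_dvd hn0 (Dvd.intro_left _ rfl)
  obtain ⟨n2, e2⟩ := scal_int (f.coeff 2) (n := n) ⟨(f.coeff 1).den * (f.coeff 0).den * t.den * N,
    by rw [hn]; ring⟩ two_ne_zero
  obtain ⟨n1, e1⟩ := scal_int (f.coeff 1) (n := n) ⟨(f.coeff 2).den * (f.coeff 0).den * t.den * N,
    by rw [hn]; ring⟩ four_ne_zero
  obtain ⟨n0, e0⟩ := scal_int (f.coeff 0) (n := n) (k := 6)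
    ⟨(f.coeff 2).den * (f.coeff 1).den * t.den * N, by rw [hn]; ring⟩ (by norm_num)
  obtain ⟨t0, et⟩ := scal_int t (n := n) ⟨(f.coeff 2).den * (f.coeff 1).den * (f.coeff 0).den * N,
    by rw [hn]; ring⟩ two_ne_zero
  have hb : (n : ℚ) ≠ 0 := Nat.cast_ne_zero.2 hn0.ne'
  set F : ℤ[X] := X ^ 3 + C n2 * X ^ 2 + C n1 * X + C n0 with hF
  have hm : F.map (Int.castRingHom ℚ) = C ((n : ℚ) ^ 6) * f.comp (C ((n : ℚ) ^ 2)⁻¹ * X) := by
    rw [scal_eq h.monic h.deg hb, ← e2, ← e1, ← e0, hF]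
    simp
  have hM := scal_model h hb
  rw [← hm] at hM
  have hneg : ∀ s : ℝ, (t0 : ℝ) ≤ s → s ≤ t0 + 1 → aeval s F < -1 := by
    intro s s1 s2
    have hn1 : (1 : ℝ) ≤ n := by exact_mod_cast hn0
    have hn2 : (N : ℝ) ≤ n := by exact_mod_cast hNn
    have hp : (0 : ℝ) < (n : ℝ) ^ 2 := by positivity
    have et' : (t0 : ℝ) = t * (n : ℝ) ^ 2 := by exact_mod_cast congrArg (fun q : ℚ => (q : ℝ)) et
    have e : aeval s F = (n : ℝ) ^ 6 * aeval (s / (n : ℝ) ^ 2) f := by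
      have e3 : aeval s F = aeval s (F.map (Int.castRingHom ℚ)) :=
        (aeval_map_algebraMap ℚ s F).symm
      have e4 : s = algebraMap ℚ ℝ ((n : ℚ) ^ 2) * (s / (n : ℝ) ^ 2) := by
        simp only [eq_ratCast]; push_cast; field_simp
      rw [e3, hm, map_mul, aeval_C]
      conv_lhs => rw [e4]
      rw [scal_aeval _ (pow_ne_zero _ hb)]
      simp
    have h2 : (n : ℝ) ≤ (n : ℝ) ^ 2 := le_self_pow₀ hn1 two_ne_zero
    have h6 : (n : ℝ) ≤ (n : ℝ) ^ 6 := le_self_pow₀ hn1 (by norm_num)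
    have hd : dist (s / (n : ℝ) ^ 2) t < δ := by
      have e5 : s / (n : ℝ) ^ 2 - t = (s - t0) / (n : ℝ) ^ 2 := by rw [et']; field_simp
      rw [Real.dist_eq, e5, abs_of_nonneg (div_nonneg (by linarith) hp.le), div_lt_iff₀ hp]
      rw [div_lt_iff₀ hδ] at hN1
      nlinarith
    have h7 := hc _ hd
    rw [Real.dist_eq, abs_lt] at h7
    have h8 : aeval (s / (n : ℝ) ^ 2) f < -η := by linarith [h7.2]
    rw [div_lt_iff₀ hη0] at hN2
    rw [e]
    nlinarith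
  have hv : F.eval t0 < -1 := by
    have := hneg t0 le_rfl (by linarith)
    rw [← eq_intCast (algebraMap ℤ ℝ) t0, aeval_algebraMap_apply, eq_intCast, coe_aeval_eq_eval]
      at this
    exact_mod_cast this
  refine ⟨n, F, t0, (-F.eval t0).toNat, hn0, ⟨?_, ?_, hM.sep,
    fun s s1 s2 => by linarith [hneg s s1 s2], by omega, by omega⟩, hneg, by rw [et, mul_comm], hm⟩
  · rw [hF]; monicity!
  · rw [hF]; compute_degree!

theorem okT {R ι : Type} [CommRing R] [Algebra ℚ R] {S : Sy R ι} {x y : R} {s : Finset ℕ}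
    (h : OkT S x y s) {b : ℕ} (hb : b ≠ 0) : OkT S ((b : R) ^ 2 * x) ((b : R) ^ 3 * y) s := by
  refine ⟨h.toOk0, h.pr, fun q c hq hc => ?_, fun A B a k ha hk h0 hc => ?_, h.out⟩
  · have e : aeval ((b : R) ^ 2 * x) q = aeval x (q.comp (C ((b : ℚ) ^ 2) * X)) := by
      rw [aeval_comp, map_mul, aeval_C, aeval_X, map_pow, map_natCast]
    rw [e]
    exact h.con _ c (fun k => hq ((comp_C_mul_X_eq_zero_iff (mem_nonZeroDivisors_of_ne_zero
      (pow_ne_zero 2 (Nat.cast_ne_zero.2 hb)))).1 k)) hc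
  · have e1 : gv ((b : R) ^ 2 * x) ((b : R) ^ 3 * y) A B = gv x y (A.comp (C ((b : ℤ) ^ 2) * X))
        (C ((b : ℤ) ^ 3) * B.comp (C ((b : ℤ) ^ 2) * X)) := by
      simp only [gv, aeval_comp, map_mul, aeval_C, aeval_X, map_pow, map_natCast]
      ring
    have e2 : (k : R) ^ 2 * ((b : R) ^ 2 * x) - a = ((k * b : ℤ) : R) ^ 2 * x - a := by
      push_cast
      ring
    rw [e1] at h0
    rw [e1, e2] at hc ⊢
    exact h.sym _ _ a _ (by simpa using ha) (mul_ne_zero hk (Nat.cast_ne_zero.2 hb)) h0 hc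

theorem ev (f : ℤ[X]) (t : ℚ) : (f.map (Int.castRingHom ℚ)).eval t = aeval t f := by
  rw [aeval_def, eval_map]
  rfl

end WScal

open WScal in
theorem wScal : ScalT := by
  intro R ι _ _ _ x y f S s t h hS ht
  obtain ⟨n, F, t0, A0, hn, hC, hneg, et, hm⟩ := core h ((ev f t).trans_lt ht)
  have hb : (n : ℚ) ≠ 0 := Nat.cast_ne_zero.2 hn.ne'
  have hM := scal_model h hb
  rw [← hm, map_pow, map_pow, map_natCast] at hM
  have e : ∀ u : ℚ, aeval ((n : ℚ) ^ 2 * u) F = (n : ℚ) ^ 6 * aeval u f := fun u => by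
    rw [← ev, hm, eval_mul, eval_C, eval_comp, eval_mul, eval_C, eval_X, ← mul_assoc,
      inv_mul_cancel₀ (pow_ne_zero 2 hb), one_mul, ev]
  have e' : ∀ (P : ℤ[X]) (z : ℤ), aeval (z : ℚ) P = (P.eval z : ℤ) := fun P z => by
    rw [← eq_intCast (algebraMap ℤ ℚ) z, aeval_algebraMap_apply, eq_intCast, coe_aeval_eq_eval]
  refine ⟨n, F, t0, A0, hn, hC, hneg, et, hM, okT hS hn.ne', ?_, ?_⟩
  · have := e 0
    rw [mul_zero, ← Int.cast_zero, e', e'] at this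
    exact_mod_cast this
  · rw [← e, ← et, e', hC.val]
    push_cast
    rfl

theorem wT1 : OfT1 := by
  intro hCore hPa hScal hFib hEv hHs0 hIds R ι _ _ _ x y f S s t hM hS hs ht hN
  obtain ⟨b, F, t0, A0, hb, hCrv, hneg, ht0, hM', hS', e0, eA⟩ := hScal x y f S s t hM hS ht
  have hA : (A0 : ℤ) = -hv F 3 t0 (1 ^ 2) := by
    rw [one_pow, (hEv.2.1 F 3 t0 1 hCrv.deg.le).1, hCrv.val, neg_neg]
  obtain ⟨hHom, -, hZ⟩ := hFib _ _ F S s t0 1 A0 hM' hS' one_pos (lt_trans one_pos hCrv.one) hA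
  have hz := hZ (hHs0 A0 _ hCrv.one hHom fun p hp y0 hy => by
    obtain ⟨J', hJ⟩ := hCore F t0 A0 p hCrv hp.out
    obtain ⟨m, J, e, e', σ, As, Bs, ϖ, hP, hSS, hne⟩ := hPa F t0 A0 p y0 hCrv hy J'
    have hps : p ∉ s := fun k => hN p k ((y0 : ℚ_[p]) / (b : ℚ_[p]) ^ 3) (by
      have h1 : (y0 : ℚ_[p]) ^ 2 = -(A0 : ℚ_[p]) := by exact_mod_cast congrArg Subtype.val hy
      have h2 := congrArg (Rat.cast : ℚ → ℚ_[p]) eA
      have h3 : (b : ℚ_[p]) ≠ 0 := Nat.cast_ne_zero.2 hb.ne'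
      push_cast at h2
      rw [div_pow, h1, h2]
      field_simp)
    obtain ⟨ψ, ψ0, φ, c, hI⟩ := hIds _ _ F S s t0 A0 p J' m J e e' σ As Bs ϖ hM' hS'
      (fun q hq => e0 ▸ (hs q hq).mul_left _) hps hCrv hneg hp.out hP hSS
    exact ⟨ϖ, e', hP.nrm, hne, neg_eq_zero.1 (hJ m J e e' As Bs ϖ hP ψ ψ0 φ c _ hI)⟩)
  have he : ((1 : ℤ) : R) ^ 2 * ((b : R) ^ 2 * x) - (t0 : R) =
      algebraMap ℚ R ((b : ℚ) ^ 2) * (x - algebraMap ℚ R t) := by
    have h1 : (t0 : R) = algebraMap ℚ R ((b : ℚ) ^ 2) * algebraMap ℚ R t := by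
      rw [← map_mul, ← ht0, map_intCast]
    rw [h1, map_pow, map_natCast]
    push_cast
    ring
  rw [he] at hz
  refine hS.toOk0.Z_unit ((IsUnit.mk0 _ (pow_ne_zero 2 (Nat.cast_ne_zero.2 hb.ne'))).map
    (algebraMap ℚ R)) (fun k => X_sub_C_ne_zero t (hM.ind (X - C t) 0 ?_).1) hz
  simpa using k

end Pool.Agent.MP_f3836a_nt.VE.W
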