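import Pool.Agent.MP_f3836a_nt.VE.SpecW1

/-! The twist vanishes. -/

set_option autoImplicit false

namespace Pool.Agent.MP_f3836a_nt.VE.W

open Polynomial VE.A

namespace WTw

theorem nd (W : WeierstrassCurve ℤ) {p : ℕ} (hp : p.Prime) {x0 y0 t r s : ℤ} (h : Sing W p x0 y0)
    (h1 : (p : ℤ) ∣ t - x0) (h2 : (p : ℤ) ∣ r - (y0 + 1)) (h3 : (p : ℤ) ∣ s - 0) :
    ¬(p : ℤ) ∣ (cW W r s).eval t := by
  have := Fact.mk hp
  have e := h.e
  have ey := h.ey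
  rw [← ZMod.intCast_zmod_eq_zero_iff_dvd] at e ey h1 h2 h3 ⊢
  simp only [cW, eW, eY, eval_sub, eval_add, eval_mul, eval_pow, eval_C, eval_X] at e ey ⊢
  push_cast at e ey h1 h2 h3 ⊢
  rw [sub_eq_zero.1 h1, sub_eq_zero.1 h2, sub_eq_zero.1 h3]
  intro z
  exact one_ne_zero (α := ZMod p) (by linear_combination -z - e - ey)

end WTw

theorem wTw : OfTw := by
  intro hZ hA hC hP hG hN hL hMu R ι _ _ _ W x y S s v δ hΔ hM hT hS p1 hp1 x1 y1 α β h1
  have pr := hT.pr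
  obtain ⟨n, K1, τ1, r1, s1, n0, k1, -, a1, a2, a3, a4⟩ := hN W p1 x1 y1 α β (pr p1 hp1) hΔ h1
  have hall : ∀ p : ℕ, ∃ (K : ℕ) (τ r u : ℤ), p ∈ s →
      (∀ t : ℚ, Sm {p} K (t - τ) → Ns {p} ((fW W).eval t)) ∧ ∀ t r' u' : ℤ, (p : ℤ) ^ K ∣ t - τ →
        (p : ℤ) ^ K ∣ r' - r → (p : ℤ) ^ K ∣ u' - u →
        (p = p1 → Eqd (cW W r' u') t p n ∧ (p : ℤ) ∣ u' - α ∧ (p : ℤ) ∣ r' - (y1 - α * x1)) ∧
        (p ≠ p1 → ¬(p : ℤ) ∣ (cW W r' u').eval t) := by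
    intro p
    by_cases hp : p ∈ s
    swap
    · exact ⟨0, 0, 0, 0, fun h => absurd h hp⟩
    by_cases e : p = p1
    · subst e
      refine ⟨K1, τ1, r1, s1, fun _ => ⟨a3, fun t r' u' b1 b2 b3 => ⟨fun _ => ⟨a4 t r' u' b1 b2 b3,
        ?_, ?_⟩, fun h => absurd rfl h⟩⟩⟩
      · simpa using dvd_add ((dvd_pow_self _ k1.ne').trans b3) a1
      · simpa using dvd_add ((dvd_pow_self _ k1.ne').trans b2) a2
    · obtain ⟨x0, y0, a, b, h0⟩ := hS p hp
      obtain ⟨-, K, τ, -, -, -, k, c1, -, -, c2, -⟩ := hN W p x0 y0 a b (pr p hp) hΔ h0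
      refine ⟨K, τ, y0 + 1, 0, fun _ => ⟨c2, fun t r' u' b1 b2 b3 => ⟨fun h => absurd h e, fun _ =>
        WTw.nd W (pr p hp) h0.toSing ?_ ((dvd_pow_self _ k.ne').trans b2)
          ((dvd_pow_self _ k.ne').trans b3)⟩⟩⟩
      simpa using dvd_add ((dvd_pow_self _ k.ne').trans b1) c1
  choose K τ r u H using hall
  obtain ⟨-, A2, A3, -⟩ := hA s (s.sup K) pr
  obtain ⟨τ0, hτ⟩ := A2 τ
  obtain ⟨r0, hr⟩ := A2 r
  obtain ⟨u0, hu⟩ := A2 u
  have M0 : 0 < ∏ p ∈ s, p ^ s.sup K := Finset.prod_pos fun p hp => pow_pos (pr p hp).pos _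
  have Md : ∀ p ∈ s, (p : ℤ) ^ s.sup K ∣ (∏ p ∈ s, p ^ s.sup K : ℕ) := fun p hp => by
    exact_mod_cast Finset.dvd_prod_of_mem (fun p => p ^ s.sup K) hp
  generalize ∏ p ∈ s, p ^ s.sup K = M at M0 Md
  have Kd : ∀ p ∈ s, (p : ℤ) ^ K p ∣ (p : ℤ) ^ s.sup K := fun p hp => pow_dvd_pow _ (Finset.le_sup hp)
  obtain ⟨r', u', d1, d2, c1, c2, T0, ρ, c3, c4, c5, c6⟩ := hL W M r0 u0 M0
  obtain ⟨hw, hδ⟩ := hMu W x y S s v δ r' u' τ0 (s.sup K) T0 ρ hM hT c1 c2 c3 c4 c5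
    (fun t ht hs => hZ W x y S s v δ t hM hT (c6 t ht).1 fun p hp => by
      refine (H p hp).1 t (fun q hq => ?_) p (Finset.mem_singleton_self p)
      obtain rfl := Finset.mem_singleton.1 hq
      have := Fact.mk (pr q hp)
      have e : t - τ q = (t - τ0) + ((τ0 - τ q : ℤ) : ℚ) := by push_cast; ring
      rw [e]
      refine padicNorm.nonarchimedean.trans ((max_le (hs q hp)
        (padicNorm.dvd_iff_norm_le.1 (by exact_mod_cast hτ q hp))).trans ?_)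
      exact zpow_le_zpow_right₀ (by exact_mod_cast (pr q hp).one_le)
        (neg_le_neg (by exact_mod_cast Finset.le_sup hp)))
    fun t ht => (c6 t ht).2
  generalize hμ : (fun q : ℚ[X] => S.L (gv x y (-(C u' * X + C r')) 1) (aeval x q)) = μ at hw
  obtain ⟨k, hk⟩ := hC _ _ _ _ _ _ _ hw
  obtain ⟨j0, hj0⟩ := exists_nat_gt ((τ0 : ℚ) - T0)
  set t : ℤ := τ0 - M * j0 with ht
  have t1 : (t : ℚ) < T0 := by
    have : (1 : ℚ) ≤ M := by exact_mod_cast M0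
    rw [ht]
    push_cast
    nlinarith [Nat.cast_nonneg (α := ℚ) j0]
  have t2 : ∀ p ∈ s, (p : ℤ) ^ s.sup K ∣ t - τ0 := fun p hp => by
    simpa [ht] using (Md p hp).mul_right (j0 : ℤ)
  have HH := fun p hp => (H p hp).2 t r' u'
    ((Kd p hp).trans (by simpa using dvd_add (t2 p hp) (hτ p hp)))
    ((Kd p hp).trans (by simpa using dvd_add ((Md p hp).trans d1) (hr p hp)))
    ((Kd p hp).trans (by simpa using dvd_add ((Md p hp).trans d2) (hu p hp)))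
  obtain ⟨e1, e2, e3⟩ := (HH p1 hp1).1 rfl
  obtain ⟨P, p2, p3, p4⟩ := hG _ t p1 n (pr p1 hp1) c1 c2 e1
  obtain ⟨j, j1, j2⟩ := hP s k _ P _ pr p2 (fun p hp hd => by
    have hq := Nat.prime_iff_prime_int.1 (pr p hp)
    by_cases e : p = p1
    · subst e
      obtain ⟨w, hw⟩ := e1.1
      have e4 : P.eval 0 = w ^ 3 := mul_right_cancel₀ (pow_ne_zero (3 * n) hq.ne_zero) (by
        rw [p3, hw]; ring)
      rw [e4] at hd
      refine e1.2.1 ?_
      rw [hw, pow_succ]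
      exact mul_dvd_mul_left _ (hq.dvd_of_dvd_pow hd)
    · exact (HH p hp).2 e (hq.dvd_of_dvd_pow (p3 ▸ hd.mul_right _))) p4
  set c := (cW W r' u').map (Int.castRingHom ℚ) with hc
  have q0 : ((p1 : ℚ) ^ n) ≠ 0 := pow_ne_zero _ (by exact_mod_cast (pr p1 hp1).ne_zero)
  have k1 : ∀ a : ℚ, a ≠ 0 → IsCoprime c (C a) := fun a ha =>
    ⟨0, C a⁻¹, by rw [zero_mul, zero_add, ← C_mul, inv_mul_cancel₀ ha, C_1]⟩
  have k2 : IsCoprime c (X - C (t : ℚ)) := by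
    refine ((irreducible_X_sub_C (t : ℚ)).coprime_iff_not_dvd.2 fun h => (c6 t t1).2.ne ?_).symm
    rw [dvd_iff_isRoot, IsRoot, hc, eval_map] at h
    exact h
  have k3 : ∀ q, IsCoprime c q → ∀ i : ℕ, μ (q ^ i) = i * μ q := fun q hq i => by
    induction i with
    | zero =>
      have := hw.mul 1 1 isCoprime_one_right isCoprime_one_right
      rw [mul_one] at this
      rw [pow_zero]
      push_cast
      linarith
    | succ i ih =>
      rw [pow_succ, hw.mul _ _ hq.pow_right hq, ih]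
      push_cast
      ring
  have k4 := (k1 _ (one_div_ne_zero q0)).mul_right (k2.pow_right (n := 3))
  have k5 := hk _ k4.pow_right j2
  rw [k3 _ k4, mul_eq_zero, or_iff_right (by exact_mod_cast j1.ne')] at k5
  have k6 := hw.mul _ _ (k1 _ q0) k4
  rw [← mul_assoc, ← C_mul, mul_one_div_cancel q0, C_1, one_mul, k3 _ k2, k5,
    hw.lin t t1 (by exact_mod_cast (A3 _).2 t2), mul_zero, add_zero, ← hμ] at k6
  have k7 := k6.trans (hδ p1 hp1 n)
  rw [eq_comm, mul_eq_zero, or_iff_right (by exact_mod_cast n0.ne')] at k7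
  rw [← k7]
  refine (hT.dc p1 hp1 _ _ _ _ (fun h => ?_) ?_ (by simp)).symm
  · exact (Nat.prime_iff_prime_int.1 (pr p1 hp1)).not_isUnit (isUnit_C.1 (isUnit_of_dvd_one h.2))
  · have e : -(C u' * X + C r') - -(C α * X + C (y1 - α * x1)) =
        -(C (u' - α) * X + C (r' - (y1 - α * x1))) := by
      simp only [C_sub]
      ring
    rw [e]
    exact (dvd_add ((_root_.map_dvd C e2).mul_right _) (_root_.map_dvd C e3)).neg_right

end Pool.Agent.MP_f3836a_nt.VE.W
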