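import Pool.Agent.MP_f3836a_nt.VE.AAll
import Pool.Agent.MP_f3836a_nt.VE.WApx
import Pool.Agent.MP_f3836a_nt.VE.WCw1
import Pool.Agent.MP_f3836a_nt.VE.WCw2
import Pool.Agent.MP_f3836a_nt.VE.WFib
import Pool.Agent.MP_f3836a_nt.VE.WGrf
import Pool.Agent.MP_f3836a_nt.VE.WGs
import Pool.Agent.MP_f3836a_nt.VE.WIds
import Pool.Agent.MP_f3836a_nt.VE.WMu
import Pool.Agent.MP_f3836a_nt.VE.WNear
import Pool.Agent.MP_f3836a_nt.VE.WNoda
import Pool.Agent.MP_f3836a_nt.VE.WNodb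
import Pool.Agent.MP_f3836a_nt.VE.WNode
import Pool.Agent.MP_f3836a_nt.VE.WPow
import Pool.Agent.MP_f3836a_nt.VE.WPre
import Pool.Agent.MP_f3836a_nt.VE.WScal
import Pool.Agent.MP_f3836a_nt.VE.WTw

/-! Part W1: assembly. -/

set_option autoImplicit false

namespace Pool.Agent.MP_f3836a_nt.VE.W

open VE.A

theorem t1S : T1S :=
  wT1 core A7.paS wScal wFib aEv (aHs0 aEqv)
    (wIds wFib aEv wEv aHs (wGs aEv (aGsk aNfa aNfb aGsa)) wPhi)

theorem zS : ZS := wZ wPre t1S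

/-- the twist vanishes -/
theorem twS : TwS :=
  wTw zS wApx (wCw2 aCop wApx (wCw1 aCop wApx wNear)) wPow wGrf (wNode wNoda wNodb) wLine (wMu wApx)

end Pool.Agent.MP_f3836a_nt.VE.W
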