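import Pool.Agent.MP_f3836a_nt.VE.SpecW4

/-! Row Ch1: the affine chart. -/

set_option autoImplicit false

namespace Pool.Agent.MP_f3836a_nt.VE.W

open Polynomial PK VE.A WeierstrassCurve.Affine

namespace WCh1

variable {R : Type} [CommRing R] {x y : R}

/-- the cubic -/
noncomputable def cu (W : WeierstrassCurve ℤ) : ℤ[X] := X ^ 3 + C W.a₂ * X ^ 2 + C W.a₄ * X + C W.a₆

theorem gv_mul {W : WeierstrassCurve ℤ} (h : eW W x y = 0) (A B A' B' : ℤ[X]) :
    gv x y A B * gv x y A' B' =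
      gv x y (A * A' + B * B' * cu W) (A * B' + A' * B - B * B' * (C W.a₁ * X + C W.a₃)) := by
  simp only [gv, cu, map_add, map_sub, map_mul, map_pow, aeval_X, eq_intCast, map_intCast]
  linear_combination (norm := (unfold eW; ring)) aeval x B * aeval x B' * h

theorem gv_add (A B A' B' : ℤ[X]) : gv x y A B + gv x y A' B' = gv x y (A + A') (B + B') := by
  simp only [gv, map_add]
  ring

theorem gv_sub (A B A' B' : ℤ[X]) : gv x y A B - gv x y A' B' = gv x y (A - A') (B - B') := by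
  simp only [gv, map_sub]
  ring

theorem gv_smul (D A B : ℤ[X]) : gv x y (D * A) (D * B) = aeval x D * gv x y A B := by
  simp only [gv, map_mul]
  ring

theorem aev (g : ℤ[X] →+* R) (A : ℤ[X]) : aeval (g X) A = g A :=
  RingHom.congr_fun (Polynomial.ringHom_ext' (f := (aeval (g X)).toRingHom) (RingHom.ext_int _ _)
    (by simp)) A

/-- a generic point of the reduction -/
theorem red (W : WeierstrassCurve ℤ) (p : ℕ) (hp : p.Prime) : ∃ (S : Type) (_ : CommRing S)
    (_ : IsDomain S) (x y : S), eW W x y = 0 ∧ ∀ A B, gv x y A B = 0 ↔ Dv p A B := by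
  have := Fact.mk hp
  let V := (W.map (Int.castRingHom (ZMod p))).toAffine
  have e := aev ((CoordinateRing.mk V).comp (C.comp (mapRingHom (Int.castRingHom (ZMod p)))))
  simp only [RingHom.comp_apply, coe_mapRingHom, map_X] at e
  refine ⟨V.CoordinateRing, inferInstance, inferInstance, CoordinateRing.mk V (C X),
    CoordinateRing.mk V X, ?_, fun A B => ?_⟩
  · have h : CoordinateRing.mk V (X ^ 2 + C (C (W.a₁ : ZMod p) * X + C (W.a₃ : ZMod p)) * X -
        C (X ^ 3 + C (W.a₂ : ZMod p) * X ^ 2 + C (W.a₄ : ZMod p) * X + C (W.a₆ : ZMod p))) = 0 :=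
      AdjoinRoot.mk_self
    simp only [map_intCast, map_add, map_sub, map_mul, map_pow] at h
    linear_combination (norm := (unfold eW; ring)) h
  · have d : ∀ A : ℤ[X], C (p : ℤ) ∣ A ↔ A.map (Int.castRingHom (ZMod p)) = 0 := fun A => by
      rw [C_dvd_iff_dvd_coeff]
      simp only [Polynomial.ext_iff, coeff_map, eq_intCast, coeff_zero,
        ZMod.intCast_zmod_eq_zero_iff_dvd]
    rw [Dv, d, d, gv, e, e]
    refine ⟨fun h => CoordinateRing.smul_basis_eq_zero (W' := V) ?_, fun h => by simp [h.1, h.2]⟩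
    rwa [CoordinateRing.smul, CoordinateRing.smul, mul_one]

end WCh1

open WCh1 in
theorem wCh1 : Ch1S := by
  intro W K _ _ x y _ h
  have mem : ∀ z, z ∈ A1 x y ↔ ∃ A B : ℤ[X], z = gv x y A B := fun z => by
    refine ⟨fun hz => ?_, ?_⟩
    · induction hz using Subring.closure_induction with
      | mem z hz => exact hz.elim (fun e => ⟨X, 0, by simp [gv, e]⟩) fun e => ⟨0, 1, by simpa [gv]⟩
      | zero => exact ⟨0, 0, by simp [gv]⟩
      | one => exact ⟨1, 0, by simp [gv]⟩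
      | add _ _ _ _ a b =>
        obtain ⟨A, B, rfl⟩ := a
        obtain ⟨A', B', rfl⟩ := b
        exact ⟨_, _, gv_add ..⟩
      | neg _ _ a =>
        obtain ⟨A, B, rfl⟩ := a
        exact ⟨-A, -B, by simp [gv, add_comm]⟩
      | mul _ _ _ _ a b =>
        obtain ⟨A, B, rfl⟩ := a
        obtain ⟨A', B', rfl⟩ := b
        exact ⟨_, _, gv_mul h.eq ..⟩
    · rintro ⟨A, B, rfl⟩
      have e : ∀ A : ℤ[X], aeval x A ∈ A1 x y := fun A =>
        (aeval_algebraMap_apply K (xa x y) A : aeval x A = _) ▸ (aeval (xa x y) A).2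
      exact add_mem (e A) (mul_mem (e B) (ya x y).2)
  have memp : ∀ (p : ℕ) (a : A1 x y) (A B : ℤ[X]), (a : K) = gv x y A B →
      (a ∈ Ideal.span {(p : A1 x y)} ↔ Dv p A B) := fun p a A B e => by
    rw [Ideal.mem_span_singleton]
    constructor
    · rintro ⟨b, rfl⟩
      obtain ⟨A', B', e'⟩ := (mem b).1 b.2
      obtain ⟨h1, h2⟩ := h.ind (A - C (p : ℤ) * A') (B - C (p : ℤ) * B')
        (by rw [← gv_sub, gv_smul, ← e, ← e']; simp)
      exact ⟨⟨A', sub_eq_zero.1 h1⟩, B', sub_eq_zero.1 h2⟩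
    · rintro ⟨⟨A', rfl⟩, B', rfl⟩
      exact ⟨⟨_, (mem _).2 ⟨A', B', rfl⟩⟩, Subtype.ext (by rw [e, gv_smul]; simp)⟩
  refine ⟨mem, is_noetherian_subring_closure _ (Set.toFinite _), fun z => ?_, fun p hp => ?_, memp⟩
  · obtain ⟨A, B, D, h0, e⟩ := h.frac z
    have e' : aeval x D = gv x y D 0 := by simp [gv]
    exact ⟨⟨_, (mem _).2 ⟨A, B, rfl⟩⟩, ⟨_, (mem _).2 ⟨D, 0, e'⟩⟩,
      fun h1 => h0 (h.ind D 0 (e'.symm.trans h1)).1, e⟩
  have one : ∀ A : ℤ[X], ¬C (p : ℤ) ∣ 1 - X * A := fun A e => by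
    have := (C_dvd_iff_dvd_coeff _ _).1 e 0
    exact (Nat.prime_iff_prime_int.1 hp).not_dvd_one (by simpa using this)
  obtain ⟨S, _, _, x', y', e1, e2⟩ := red W p hp
  refine ⟨⟨fun e => one 0 ((memp p 1 _ 0 (by simp [gv])).1 (e ▸ Submodule.mem_top)).1,
    fun {a b} hab => ?_⟩, fun hm => ?_, fun e => hp.ne_zero ?_⟩
  · obtain ⟨A, B, ha⟩ := (mem a).1 a.2
    obtain ⟨A', B', hb⟩ := (mem b).1 b.2
    rw [memp p a A B ha, memp p b A' B' hb, ← e2, ← e2, ← mul_eq_zero, gv_mul e1, e2]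
    exact (memp p _ _ _ (by rw [← gv_mul h.eq, ← ha, ← hb]; rfl)).1 hab
  · obtain ⟨a, i, hi, e⟩ := hm.exists_inv (x := xa x y) fun e => by
      have := (C_dvd_iff_dvd_coeff _ _).1 ((memp p _ X 0 (by simp [gv, xa])).1 e).1 1
      exact (Nat.prime_iff_prime_int.1 hp).not_dvd_one (by simpa using this)
    obtain ⟨A, B, ha⟩ := (mem a).1 a.2
    refine one A ((memp p i _ (0 - X * B) ?_).1 hi).1
    rw [← gv_sub, gv_smul, ← ha, eq_sub_of_add_eq' e]
    simp [gv, xa, mul_comm]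
  · exact_mod_cast (by simpa using congrArg Subtype.val e : (p : K) = 0)

end Pool.Agent.MP_f3836a_nt.VE.W
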