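import Pool.Agent.MP_f3836a_nt.VE.SpecW4

/-! Chains of primes in the affine chart. -/

set_option autoImplicit false

namespace Pool.Agent.MP_f3836a_nt.VE.W

open Polynomial VE.A

namespace WCh2

theorem jac : IsJacobsonRing ℤ := isJacobsonRing_iff_prime_eq.2 fun P hP => by
  by_cases h : P = ⊥
  · rw [h, eq_bot_iff]
    intro x hx
    have h1 := Int.isUnit_iff.1 (Ideal.mem_jacobson_bot.1 hx x)
    have h2 := mul_self_nonneg x
    exact mul_self_eq_zero.1 (by omega)
  · have := IsPrime.to_maximal_ideal h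
    exact Ideal.jacobson_eq_self_of_isMaximal

theorem finite_field (F : Type) [Field F] (h : (Int.castRingHom F).FiniteType) : Finite F := by
  have : Algebra.FiniteType ℤ F := by
    rwa [← algebraMap_int_eq, RingHom.finiteType_algebraMap] at h
  have := jac
  have := finite_of_finite_type_of_isJacobsonRing ℤ F
  have h : ¬ Function.Injective (algebraMap ℤ F) := fun h =>
    Int.not_isField ((Algebra.IsIntegral.isField_iff_isField h).2 (Field.toIsField F))
  rw [injective_iff_map_eq_zero] at h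
  push Not at h
  obtain ⟨a, ha, h0⟩ := h
  exact Module.finite_of_fg_torsion F fun x => ⟨⟨a, mem_nonZeroDivisors_of_ne_zero h0⟩, by
    change a • x = 0
    rw [Algebra.smul_def, ha, zero_mul]⟩

theorem chain {a b c : Ideal ℤ[X]} [a.IsPrime] [b.IsPrime] [hc : c.IsPrime] (h0 : a ≠ ⊥)
    (h1 : a < b) (h2 : b < c) : False := by
  have e0 := Ideal.height_add_one_le_of_lt_of_isPrime (bot_lt_iff_ne_bot.2 h0)
  have e1 := Ideal.height_add_one_le_of_lt_of_isPrime h1
  have e2 := Ideal.height_add_one_le_of_lt_of_isPrime h2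
  have e3 := Ideal.height_le_ringKrullDim_of_ne_top hc.ne_top
  rw [Polynomial.ringKrullDim_of_isNoetherianRing,
    IsPrincipalIdealRing.ringKrullDim_eq_one ℤ Int.not_isField] at e3
  have e4 : (0 + 1 + 1 + 1 : ℕ∞) ≤ c.height := by
    refine le_trans ?_ e2
    gcongr
    refine le_trans ?_ e1
    gcongr
    refine le_trans ?_ e0
    gcongr
    exact zero_le
  exact absurd ((WithBot.coe_le_coe.2 e4).trans e3) (by decide)

theorem mx {B : Type} [CommRing B] [Algebra ℤ[X] B] [Algebra.IsIntegral ℤ[X] B] {a : Ideal ℤ[X]}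
    [a.IsPrime] {q : Ideal B} [hq : q.IsPrime] (h0 : a ≠ ⊥)
    (h1 : a < q.comap (algebraMap ℤ[X] B)) : q.IsMaximal := by
  obtain ⟨m, hm, h⟩ := q.exists_le_maximal hq.ne_top
  rcases h.eq_or_lt with rfl | h
  · exact hm
  · exact (chain h0 h1 (Ideal.IsIntegral.comap_lt_comap h)).elim

end WCh2

open WCh2 in
theorem wCh2 : Ch2S := by
  intro W K _ _ x y _ _ h
  let φ : ℤ[X] →+* A1 x y := (aeval (xa x y) : ℤ[X] →ₐ[ℤ] A1 x y)
  let _ := φ.toAlgebra
  have e : ∀ P : ℤ[X], (φ P : K) = aeval x P := fun P =>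
    (aeval_algHom_apply (A1 x y).subtype.toIntAlgHom (xa x y) P).symm
  have hf : Module.Finite ℤ[X] (A1 x y) := Module.Finite.of_surjective
    ((LinearMap.toSpanSingleton ℤ[X] (A1 x y) 1).coprod
      (LinearMap.toSpanSingleton ℤ[X] (A1 x y) (ya x y))) fun z => by
      obtain ⟨A, B, hz⟩ := (h.mem z).1 z.2
      refine ⟨(A, B), Subtype.ext ?_⟩
      change (φ A : K) * 1 + φ B * y = z
      rw [hz, e, e, mul_one, gv]
  refine ⟨fun q q' _ _ h0 h1 => mx (Ideal.IsIntegral.comap_ne_bot ℤ[X] h0)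
    (Ideal.IsIntegral.comap_lt_comap h1), fun m hm => ?_, fun π π' q p1 p2 h1 _ h2 h3 => ?_⟩
  · let _ := Ideal.Quotient.field m
    have t1 : (algebraMap ℤ ℤ[X]).FiniteType := RingHom.finiteType_algebraMap.2 inferInstance
    have t2 : φ.FiniteType := RingHom.Finite.finiteType hf
    have : Finite (A1 x y ⧸ m) := finite_field _ (by
      rw [RingHom.ext_int (Int.castRingHom _)
        ((Ideal.Quotient.mk m).comp (φ.comp (algebraMap ℤ ℤ[X])))]
      exact (t2.comp t1).comp_surjective Ideal.Quotient.mk_surjective)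
    obtain ⟨p, hp⟩ := CharP.exists (A1 x y ⧸ m)
    exact ⟨this, p, CharP.char_is_prime (A1 x y ⧸ m) p, Ideal.Quotient.eq_zero_iff_mem.1
      ((map_natCast _ p).trans (CharP.cast_eq_zero _ p))⟩
  · have := (Ideal.span_singleton_prime p1.ne_zero).2 p1
    refine mx (a := Ideal.span {π}) (mt Ideal.span_singleton_eq_bot.1 p1.ne_zero)
      (SetLike.lt_iff_le_and_exists.2 ⟨(Ideal.span_singleton_le_iff_mem _).2 h2, π', h3,
        fun h4 => h1 ?_⟩)
    exact p1.associated_of_dvd p2 (Ideal.mem_span_singleton.1 h4)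

end Pool.Agent.MP_f3836a_nt.VE.W
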