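import Pool.Agent.MP_f3836a_nt.VE.SpecW4

/-! The chart at infinity. -/

set_option autoImplicit false

namespace Pool.Agent.MP_f3836a_nt.VE.W

open Polynomial IsLocalRing

namespace WChI

variable {K : Type} [Field K]

theorem mem_sp {R : Subring K} {g : ℕ} (hg : (g : K) ≠ 0) (a : R) :
    a ∈ Ideal.span {(g : R)} ↔ (a : K) / g ∈ R := by
  rw [Ideal.mem_span_singleton']
  constructor
  · rintro ⟨c, rfl⟩
    rw [Subring.coe_mul, Subring.coe_natCast, mul_div_cancel_right₀ _ hg]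
    exact c.2
  · exact fun h => ⟨⟨_, h⟩, Subtype.ext (div_mul_cancel₀ _ hg)⟩

theorem pw1 {y : K} (hy : y ≠ 0) (n : ℕ) : y ^ n * (1 / y) ^ n = 1 := by
  rw [← mul_pow, mul_one_div_cancel hy, one_pow]

theorem pw {R : Subring K} {c : K} (hc : c ∈ R) {T : Set K} (h : ∀ z ∈ T, c * z ∈ R) {z : K}
    (hz : z ∈ Subring.closure T) : ∃ n : ℕ, c ^ n * z ∈ R := by
  induction hz using Subring.closure_induction with
  | mem z hz => exact ⟨1, by rw [pow_one]; exact h z hz⟩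
  | zero => exact ⟨0, by rw [mul_zero]; exact R.zero_mem⟩
  | one => exact ⟨0, by rw [mul_one, pow_zero]; exact R.one_mem⟩
  | add a b _ _ ha hb =>
    obtain ⟨n, ha⟩ := ha
    obtain ⟨m, hb⟩ := hb
    refine ⟨n + m, ?_⟩
    rw [show c ^ (n + m) * (a + b) = c ^ m * (c ^ n * a) + c ^ n * (c ^ m * b) by ring]
    exact R.add_mem (R.mul_mem (R.pow_mem hc _) ha) (R.mul_mem (R.pow_mem hc _) hb)
  | neg a _ ha =>
    obtain ⟨n, ha⟩ := ha
    exact ⟨n, by rw [mul_neg]; exact R.neg_mem ha⟩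
  | mul a b _ _ ha hb =>
    obtain ⟨n, ha⟩ := ha
    obtain ⟨m, hb⟩ := hb
    refine ⟨n + m, ?_⟩
    rw [show c ^ (n + m) * (a * b) = (c ^ n * a) * (c ^ m * b) by ring]
    exact R.mul_mem ha hb

/-- an augmented ring with two coordinates -/
structure St {B : Subring K} (ε : B →+* ℤ) (s t w : B) : Prop where
  hs : ε s = 0
  ht : ε t = 0
  hw : ε w = 1
  rel : s ^ 3 = t * w
  s0 : (s : K) ≠ 0
  red : ∀ b, ∃ c d, b = (ε b : B) + s * c + t * d

/-- the prime over `p` -/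
def M {B : Subring K} (ε : B →+* ℤ) (p : ℕ) : Ideal B := (Ideal.span {(p : ℤ)}).comap ε

section
variable {B : Subring K} {ε : B →+* ℤ} {s t w : B}

theorem mem_M {p : ℕ} {b : B} : b ∈ M ε p ↔ (p : ℤ) ∣ ε b := Ideal.mem_span_singleton

theorem mem_N {b : B} : b ∈ M ε 0 ↔ ε b = 0 := mem_M.trans zero_dvd_iff

theorem p_mem {p q : ℕ} : (q : B) ∈ M ε p ↔ p ∣ q := by
  rw [mem_M, map_natCast, Int.natCast_dvd_natCast]

theorem M_max {p : ℕ} (hp : p.Prime) : (M ε p).IsMaximal :=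
  have := PrincipalIdealRing.isMaximal_of_irreducible (Nat.prime_iff_prime_int.1 hp).irreducible
  Ideal.comap_isMaximal_of_surjective ε fun n : ℤ => ⟨(n : B), map_intCast ε n⟩

theorem N_pr : (M ε 0).IsPrime :=
  have : (Ideal.span {((0 : ℕ) : ℤ)}).IsPrime := by simpa using Ideal.isPrime_bot
  Ideal.comap_isPrime ε _

theorem N_le (p : ℕ) : M ε 0 ≤ M ε p := fun _ h => mem_M.2 (mem_N.1 h ▸ dvd_zero _)

theorem N_ne {p : ℕ} (hp : p.Prime) : M ε 0 ≠ M ε p := fun h =>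
  hp.ne_zero (zero_dvd_iff.1 (p_mem.1 (h ▸ p_mem.2 dvd_rfl : (p : B) ∈ M ε 0)))

theorem N_nm : ¬(M ε 0).IsMaximal := fun h =>
  N_ne Nat.prime_two (h.eq_of_le (M_max Nat.prime_two).ne_top (N_le 2))

theorem St.cls (h : St ε s t w) {q : Ideal B} (hq : q.IsPrime) (h1 : s ∈ q) (h2 : t ∈ q) :
    q = M ε 0 ∨ ∃ p : ℕ, p.Prime ∧ q = M ε p := by
  have e : q = (q.comap (Int.castRingHom B)).comap ε := by
    ext b
    obtain ⟨c, d, e⟩ := h.red b
    conv_lhs => rw [e, add_assoc]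
    exact Ideal.add_mem_iff_left _ (q.add_mem (q.mul_mem_right _ h1) (q.mul_mem_right _ h2))
  rcases Ideal.isPrime_int_iff.1 (Ideal.comap_isPrime (Int.castRingHom B) q) with h0 | ⟨p, hp, h0⟩
  · exact Or.inl (by rw [e, h0, M]; simp)
  · exact Or.inr ⟨p, hp, by rw [e, h0, M]⟩

theorem inv_mem {q : Ideal B} [q.IsPrime] {b : B} (hb : b ∉ q) :
    (b : K) ≠ 0 ∧ (b : K)⁻¹ ∈ lc B q :=
  have b0 : (b : K) ≠ 0 := fun h0 => hb (by rw [show b = 0 from Subtype.ext h0]; exact q.zero_mem)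
  ⟨b0, mem_lc.2 ⟨1, b, hb, inv_mul_cancel₀ b0⟩⟩

variable {p : ℕ} [hP : (M ε p).IsPrime]

theorem St.wn (h : St ε s t w) : w ∉ M ε p := fun hw =>
  hP.ne_top ((Ideal.eq_top_iff_one _).2 (mem_M.2 (by rw [map_one, ← h.hw]; exact mem_M.1 hw)))

theorem St.div_s (h : St ε s t w) {c : B} (hc : ε c = 0) : (c : K) / s ∈ lc B (M ε p) := by
  obtain ⟨a, d, e⟩ := h.red c
  obtain ⟨w0, hw⟩ := inv_mem (h.wn (p := p))
  have e1 : (c : K) = s * a + t * d := by simpa [hc] using congrArg Subtype.val e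
  have e2 : (s : K) ^ 3 = t * w := by simpa using congrArg Subtype.val h.rel
  have e3 : (c : K) / s = a + (s ^ 2 * d : B) * (w : K)⁻¹ := by
    have := h.s0
    push_cast
    field_simp
    linear_combination w * e1 - d * e2
  rw [e3]
  exact add_mem (le_lc _ _ a.2) (mul_mem (le_lc _ _ (s ^ 2 * d).2) hw)

theorem St.nzd (h : St ε s t w) (hp : p ≠ 0) {u : K} (h1 : p * u ∈ lc B (M ε p))
    (h2 : s * u ∈ lc B (M ε p)) : u ∈ lc B (M ε p) := by
  obtain ⟨a, b, hb, e⟩ := mem_lc.1 h1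
  obtain ⟨c, d, hd, e'⟩ := mem_lc.1 h2
  have e1 : s * a * d = p * c * b := Subtype.ext (by
    push_cast
    linear_combination (p * b : K) * e' - (s * d : K) * e)
  have e2 := congrArg ε e1
  simp only [map_mul, h.hs, zero_mul, map_natCast] at e2
  have hc : ε c = 0 := (mul_eq_zero.1 ((mul_eq_zero.1 e2.symm).resolve_right fun h0 =>
    hb (N_le p (mem_N.2 h0)))).resolve_left (by exact_mod_cast hp)
  obtain ⟨d0, hd'⟩ := inv_mem hd
  have e3 : u = (c : K) / s * (d : K)⁻¹ := by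
    have := h.s0
    rw [← e']
    field_simp
  rw [e3]
  exact mul_mem (h.div_s hc) hd'

theorem St.nzt (h : St ε s t w) (hp : p ≠ 0) {u : K} (h1 : p * u ∈ lc B (M ε p)) (k : ℕ)
    (h2 : (t : K) ^ k * u ∈ lc B (M ε p)) : u ∈ lc B (M ε p) := by
  have key : ∀ n : ℕ, (s : K) ^ n * u ∈ lc B (M ε p) → u ∈ lc B (M ε p) := fun n => by
    induction n with
    | zero => rw [pow_zero, one_mul]; exact id
    | succ n ih =>
      refine fun h3 => ih (h.nzd hp ?_ (by rwa [← mul_assoc, ← pow_succ']))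
      rw [mul_left_comm]
      exact mul_mem (pow_mem (le_lc _ _ s.2) _) h1
  have e2 : (s : K) ^ 3 = t * w := by simpa using congrArg Subtype.val h.rel
  refine key (3 * k) ?_
  rw [pow_mul, e2, mul_pow, mul_right_comm]
  exact mul_mem h2 (pow_mem (le_lc _ _ w.2) _)

theorem St.max (h : St ε s t w) (hL : LcA B) : maximalIdeal (lc B (M ε p)) =
    Ideal.span {(p : lc B (M ε p)), Subring.inclusion (le_lc B _) s} := by
  rw [hL.max]
  refine le_antisymm (Ideal.map_le_iff_le_comap.2 fun b hb => ?_) (Ideal.span_le.2 ?_)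
  · obtain ⟨k, hk⟩ := mem_M.1 hb
    have h1 := h.div_s (p := p) (c := b - (ε b : B)) (by simp)
    refine Ideal.mem_span_pair.2 ⟨k, ⟨_, h1⟩, Subtype.ext ?_⟩
    have := h.s0
    simp only [hk, Subring.coe_add, Subring.coe_mul, Subring.coe_intCast, Subring.coe_natCast,
      Subring.coe_inclusion, AddSubgroupClass.coe_sub, Int.cast_mul, Int.cast_natCast,
      div_mul_cancel₀ _ this]
    ring
  · rintro _ (rfl | rfl)
    · rw [← map_natCast (Subring.inclusion (le_lc B (M ε p)))]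
      exact Ideal.mem_map_of_mem _ (p_mem.2 dvd_rfl)
    · exact Ideal.mem_map_of_mem _ (N_le p (mem_N.2 h.hs))

end

section
variable {W : WeierstrassCurve ℤ} {x y : K}

theorem ne0 (hG : Gn W x y) : x ≠ 0 ∧ y ≠ 0 :=
  ⟨fun h => X_ne_zero (hG.ind X 0 (by simp [VE.A.gv, h])).1,
    fun h => one_ne_zero (hG.ind 0 1 (by simp [VE.A.gv, h])).2⟩

theorem st (hG : Gn W x y) (ε : A2 x y →+* ℤ)
    (h0 : ∀ a : A2 x y, (a : K) = x / y ∨ (a : K) = 1 / y → ε a = 0) :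
    ∃ w, St ε (xa _ _) (ya _ _) w := by
  obtain ⟨hx, hy⟩ := ne0 hG
  have hs := h0 (xa _ _) (Or.inl rfl)
  have ht := h0 (ya _ _) (Or.inr rfl)
  refine ⟨1 + (W.a₁ : A2 x y) * xa _ _ + (W.a₃ : A2 x y) * ya _ _ - (W.a₂ : A2 x y) * xa _ _ ^ 2 -
    (W.a₄ : A2 x y) * xa _ _ * ya _ _ - (W.a₆ : A2 x y) * ya _ _ ^ 2, hs, ht, by simp [hs, ht], Subtype.ext ?_, div_ne_zero hx hy, ?_⟩
  · have e := hG.eq
    simp only [eW] at e
    push_cast
    simp only [xa, ya]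
    field_simp
    linear_combination -e
  · rintro ⟨b, hb⟩
    induction hb using Subring.closure_induction with
    | mem z hz =>
      rcases hz with rfl | rfl
      · exact ⟨1, 0, show xa _ _ = (ε (xa _ _) : A2 x y) + _ + _ by simp [hs]⟩
      · exact ⟨0, 1, show ya _ _ = (ε (ya _ _) : A2 x y) + _ + _ by simp [ht]⟩
    | zero => exact ⟨0, 0, show (0 : A2 x y) = (ε 0 : A2 x y) + _ + _ by simp⟩
    | one => exact ⟨0, 0, show (1 : A2 x y) = (ε 1 : A2 x y) + _ + _ by simp⟩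
    | add a b ha hb iha ihb =>
      obtain ⟨c, d, e⟩ := iha
      obtain ⟨c', d', e'⟩ := ihb
      refine ⟨c + c', d + d', ?_⟩
      change (⟨a, ha⟩ + ⟨b, hb⟩ : A2 x y) = (ε (⟨a, ha⟩ + ⟨b, hb⟩) : A2 x y) + _ + _
      rw [map_add, Int.cast_add]
      linear_combination e + e'
    | neg a ha iha =>
      obtain ⟨c, d, e⟩ := iha
      refine ⟨-c, -d, ?_⟩
      change (-⟨a, ha⟩ : A2 x y) = (ε (-⟨a, ha⟩) : A2 x y) + _ + _
      rw [map_neg, Int.cast_neg]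
      linear_combination -e
    | mul a b ha hb iha ihb =>
      obtain ⟨c, d, e⟩ := iha
      obtain ⟨c', d', e'⟩ := ihb
      refine ⟨c * ⟨b, hb⟩ + (ε ⟨a, ha⟩ : A2 x y) * c', d * ⟨b, hb⟩ + (ε ⟨a, ha⟩ : A2 x y) * d', ?_⟩
      change (⟨a, ha⟩ * ⟨b, hb⟩ : A2 x y) = (ε (⟨a, ha⟩ * ⟨b, hb⟩) : A2 x y) + _ + _
      rw [map_mul, Int.cast_mul]
      linear_combination (⟨b, hb⟩ : A2 x y) * e + (ε ⟨a, ha⟩ : A2 x y) * e'

theorem toB (hy : y ≠ 0) (a : A1 x y) : ∃ n : ℕ, (1 / y) ^ n * a ∈ A2 x y := by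
  refine pw (c := 1 / y) (ya (x / y) (1 / y)).2 ?_ a.2
  rintro _ (rfl | rfl)
  · rw [one_div_mul_eq_div]
    exact (xa _ _).2
  · rw [one_div_mul_cancel hy]
    exact one_mem _

theorem toA (hy : y ≠ 0) (b : A2 x y) : ∃ n : ℕ, y ^ n * b ∈ A1 x y := by
  refine pw (c := y) (ya x y).2 ?_ b.2
  rintro _ (rfl | rfl)
  · rw [mul_div_cancel₀ _ hy]
    exact (xa _ _).2
  · rw [mul_one_div_cancel hy]
    exact one_mem _

theorem quo (hy : y ≠ 0) {z : K} {c d : A1 x y} (e : z * d = c) :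
    ∃ (N : ℕ) (a b : A2 x y), (b : K) = (1 / y) ^ N * d ∧ z * b = a := by
  obtain ⟨n, hn⟩ := toB hy c
  obtain ⟨m, hm⟩ := toB hy d
  refine ⟨n + m, ya _ _ ^ m * ⟨_, hn⟩, ya _ _ ^ n * ⟨_, hm⟩, ?_, ?_⟩
  · simp only [Subring.coe_mul, Subring.coe_pow, ya]
    ring
  · simp only [Subring.coe_mul, Subring.coe_pow, ya]
    rw [← e]
    ring

theorem cen (hL : LcS) {S G : Subring K} [IsLocalRing G] (hSG : S ≤ G) {p : ℕ} (p0 : (p : K) ≠ 0)
    (hm : maximalIdeal G = Ideal.span {(p : G)}) (cS : ∀ a : S, (a : K) / p ∈ G → (a : K) / p ∈ S) :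
    ∃ _ : (Ideal.span {(p : S)}).IsPrime, lc _ (Ideal.span {(p : S)}) ≤ G := by
  obtain ⟨q, hq', hle, hm'⟩ := (hL K _).cen G hSG
  have e : q = Ideal.span {(p : S)} := by
    ext a
    rw [hm', ← mem_nonunits_iff, ← mem_maximalIdeal, hm, mem_sp p0, mem_sp p0]
    exact ⟨cS a, fun h1 => hSG h1⟩
  subst e
  exact ⟨hq', hle⟩

theorem fibre [CharZero K] (hL : LcS) (hA : Ch1 x y) (hy : y ≠ 0) {ε : A2 x y →+* ℤ} {w : A2 x y}
    (h : St ε (xa _ _) (ya _ _) w) {p : ℕ} (hp : p.Prime) [(M ε p).IsPrime]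
    (hi : ∀ b : A2 x y, ¬(p : ℤ) ∣ ε b →
      ∃ (n : ℕ) (A B : ℤ[X]), y ^ n * b = VE.A.gv x y A B ∧ ¬Dv p A B)
    [hq : (Ideal.span {(p : A1 x y)}).IsPrime] :
    ∃ _ : (Ideal.span {(p : lc _ (M ε p))}).IsPrime,
      lc _ (Ideal.span {(p : A1 x y)}) = lc _ (Ideal.span {(p : lc _ (M ε p))}) := by
  have p0 : (p : K) ≠ 0 := by exact_mod_cast hp.ne_zero
  have hyG : y ∈ lc _ (Ideal.span {(p : A1 x y)}) := le_lc _ _ (ya x y).2
  have hyP : ya x y ∉ Ideal.span {(p : A1 x y)} := fun hm => by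
    have h1 := ((hA.memp p (ya x y) 0 1 (by simp [VE.A.gv, ya])).1 hm).2
    exact (Nat.prime_iff_prime_int.1 hp).not_isUnit (isUnit_C.1 (isUnit_of_dvd_one h1))
  have htG : 1 / y ∈ lc _ (Ideal.span {(p : A1 x y)}) := by rw [one_div]; exact (inv_mem hyP).2
  have hBG : A2 x y ≤ lc _ (Ideal.span {(p : A1 x y)}) := Subring.closure_le.2 (by
    rintro _ (rfl | rfl)
    · rw [div_eq_mul_one_div]
      exact mul_mem (le_lc _ _ (xa x y).2) htG
    · exact htG)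
  have hSG : lc _ (M ε p) ≤ lc _ (Ideal.span {(p : A1 x y)}) := fun z hz => by
    obtain ⟨a, b, hb, e⟩ := mem_lc.1 hz
    obtain ⟨n, A, B, e1, hd⟩ := hi b (mt mem_M.2 hb)
    have hc : VE.A.gv x y A B ∈ A1 x y := (hA.mem _).2 ⟨A, B, rfl⟩
    obtain ⟨c0, hc'⟩ := inv_mem (mt (hA.memp p ⟨_, hc⟩ A B rfl).1 hd)
    have e2 : z = a * y ^ n * (VE.A.gv x y A B)⁻¹ := by
      refine (eq_mul_inv_iff_mul_eq₀ c0).2 ?_
      linear_combination y ^ n * e - z * e1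
    rw [e2]
    exact mul_mem (mul_mem (hBG a.2) (pow_mem hyG _)) hc'
  have cA : ∀ e : A1 x y, (e : K) / p ∈ lc _ (Ideal.span {(p : A1 x y)}) →
      e ∈ Ideal.span {(p : A1 x y)} := fun e he => by
    obtain ⟨c, d, hd, e1⟩ := mem_lc.1 he
    have h1 : e * d ∈ Ideal.span {(p : A1 x y)} := (mem_sp p0 _).2 (by
      rw [Subring.coe_mul, mul_div_right_comm, e1]
      exact c.2)
    exact (hq.mem_or_mem h1).resolve_right hd
  have cS : ∀ a : lc _ (M ε p), (a : K) / p ∈ lc _ (Ideal.span {(p : A1 x y)}) →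
      (a : K) / p ∈ lc _ (M ε p) := fun ⟨a, ha'⟩ ha => by
    obtain ⟨a1, b, hb, e⟩ := mem_lc.1 ha'
    obtain ⟨b0, hb'⟩ := inv_mem hb
    obtain ⟨n, hn⟩ := toA hy a1
    have h0 : y ^ n * a1 / p ∈ lc _ (Ideal.span {(p : A1 x y)}) := by
      rw [show (y ^ n * a1 : K) / p = y ^ n * (a / p) * b by rw [← e]; ring]
      exact mul_mem (mul_mem (pow_mem hyG _) ha) (hBG b.2)
    have h1 : y ^ n * a1 / p ∈ A1 x y := (mem_sp p0 ⟨_, hn⟩).1 (cA ⟨_, hn⟩ h0)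
    obtain ⟨k, hk⟩ := toB hy ⟨_, h1⟩
    have h2 : (a1 : K) / p ∈ lc _ (M ε p) := by
      refine h.nzt hp.ne_zero (by rw [mul_div_cancel₀ _ p0]; exact le_lc _ _ a1.2) k ?_
      change (1 / y) ^ k * (a1 / p) ∈ lc _ (M ε p)
      rw [show (1 / y) ^ k * (a1 / p) = (1 / y) ^ n * ((1 / y) ^ k * (y ^ n * a1 / p)) by
        linear_combination -((1 / y) ^ k * (a1 / p)) * pw1 hy n]
      exact le_lc _ _ (mul_mem (pow_mem (ya (x / y) (1 / y)).2 _) hk)
    change a / p ∈ lc _ (M ε p)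
    rw [show a / p = a1 / p * (b : K)⁻¹ by rw [← e]; field_simp]
    exact mul_mem h2 hb'
  obtain ⟨hq', hle⟩ := cen hL hSG p0 (by
    rw [(hL K _).max, Ideal.map_span, Set.image_singleton, map_natCast]) cS
  refine ⟨hq', le_antisymm (fun z hz => ?_) hle⟩
  obtain ⟨c, d, hd, e⟩ := mem_lc.1 hz
  obtain ⟨N, a, b, eb, e'⟩ := quo hy e
  refine mem_lc.2 ⟨⟨a, le_lc _ _ a.2⟩, ⟨b, le_lc _ _ b.2⟩, fun hb => hd (cA d ?_), e'⟩
  rw [show (d : K) / p = y ^ N * (b / p) by rw [eb]; linear_combination -(d / p : K) * pw1 hy N]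
  exact mul_mem (pow_mem hyG _) (hSG ((mem_sp p0 _).1 hb))

end

end WChI

open WChI in
theorem wChI : OfChI := by
  intro hL hR hI W K _ _ x y hΔ hG hA
  obtain ⟨ε, h0, hi⟩ := hI W K x y hΔ hG
  obtain ⟨w, h⟩ := st hG ε h0
  obtain ⟨hx, hy⟩ := ne0 hG
  have hB := hL K (A2 x y)
  have hN : IsNoetherianRing (A2 x y) := is_noetherian_subring_closure _ (Set.toFinite _)
  have hinf : ∀ p, Inf (M ε p) := fun p a ha => N_le p (mem_N.2 (h0 a ha))
  have cls : ∀ q : Ideal (A2 x y), q.IsPrime → Inf q → q = M ε 0 ∨ ∃ p : ℕ, p.Prime ∧ q = M ε p :=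
    fun q hq hq' => h.cls hq (hq' _ (Or.inl rfl)) (hq' _ (Or.inr rfl))
  have ifp : ∀ p S, Ifp x y p S → p.Prime ∧ ∃ _ : (M ε p).IsPrime, S = lc _ (M ε p) := by
    rintro p S ⟨hp, m, hm, hm', hI', hpm, rfl⟩
    rcases cls m hm hI' with rfl | ⟨p', hp', rfl⟩
    · exact absurd hm' N_nm
    · obtain rfl := (Nat.prime_dvd_prime_iff_eq hp' hp).1 (p_mem.1 hpm)
      exact ⟨hp, hm, rfl⟩
  have t0 : ya (x / y) (1 / y) ≠ 0 := fun e => one_div_ne_zero hy (congrArg Subtype.val e)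
  have hyn : ∀ (p : ℕ) [(M ε p).IsPrime], y ∉ lc _ (M ε p) := fun p _ hm =>
    (hB.inv _ _ t0).1 (by simpa [ya] using hm) (hinf p _ (Or.inr rfl))
  have un : ∀ (p : ℕ) [(M ε p).IsPrime] (n : ℤ), ¬(p : ℤ) ∣ n → IsUnit (n : lc _ (M ε p)) :=
    fun p _ n hn => by
      rw [← map_intCast (Subring.inclusion (le_lc _ (M ε p)))]
      exact (hB.unit _ _).2 (by rwa [mem_M, map_intCast])
  have := N_pr (ε := ε)
  refine ⟨hN, fun p hp => ⟨_, hp, M ε p, (M_max hp).isPrime, M_max hp, hinf p, p_mem.2 dvd_rfl, rfl⟩,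
    fun p S S' h1 h2 => ?_, fun m hm hm' => ?_, fun p S h1 => ?_, lc _ (M ε 0),
    ⟨⟨_, this, hinf 0, N_nm, rfl⟩, ⟨fun hm => ?_, hyn 0⟩, fun p S h1 => ?_, fun z => ?_,
      fun n hn => un 0 n (by simpa using hn)⟩, fun q hq h1 h2 => ?_⟩
  · obtain ⟨-, _, rfl⟩ := ifp p S h1
    obtain ⟨-, _, rfl⟩ := ifp p S' h2
    rfl
  · rcases cls m hm.isPrime hm' with rfl | ⟨p, hp, rfl⟩
    · exact absurd hm N_nm
    · exact ⟨p, hp, p_mem.2 dvd_rfl⟩
  · obtain ⟨hp, _, rfl⟩ := ifp p S h1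
    have p0 : (p : K) ≠ 0 := by exact_mod_cast hp.ne_zero
    have := (hA.pr p hp).1
    obtain ⟨hq, e⟩ := fibre hL hA.toCh1 hy h hp fun b hb => hi b p hp hb
    have hmax := h.max (p := p) hB
    have hpu : ¬IsUnit (p : lc _ (M ε p)) := by
      rw [← mem_nonunits_iff, ← mem_maximalIdeal, hmax]
      exact Ideal.subset_span (Or.inl rfl)
    have hs : Subring.inclusion (le_lc _ (M ε p)) (xa _ _) ∉ Ideal.span {(p : lc _ (M ε p))} :=
      fun hm => by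
        have h2 : (p : K)⁻¹ ∈ lc _ (M ε p) := h.nzd hp.ne_zero
          (by rw [mul_inv_cancel₀ p0]; exact one_mem _) (by
            rw [← div_eq_mul_inv]; exact (mem_sp p0 _).1 hm)
        exact hpu (IsUnit.of_mul_eq_one ⟨_, h2⟩ (Subtype.ext (mul_inv_cancel₀ p0)))
    have p1 : (p : lc _ (M ε p)) ≠ 0 := fun e => p0 (congrArg Subtype.val e)
    obtain ⟨l1, l2, -⟩ := hR K _ _ _ (hB.noeth _ hN) (fun z => by
      obtain ⟨c, d, hd, e⟩ := hA.frac z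
      obtain ⟨N, a, b, eb, e'⟩ := quo hy e
      exact ⟨⟨a, le_lc _ _ a.2⟩, ⟨b, le_lc _ _ b.2⟩,
        eb ▸ mul_ne_zero (pow_ne_zero _ (one_div_ne_zero hy)) hd, e'⟩) p1 hmax hq hs
    refine ⟨l1, l2, hyn p, un p, hpu, ?_⟩
    rintro G ⟨-, q, _, rfl, rfl⟩
    refine ⟨_, hq, rfl, mt Ideal.span_singleton_eq_bot.1 p1, fun hm => hs ?_, e⟩
    rw [eq_maximalIdeal hm, hmax]
    exact Ideal.subset_span (Or.inr rfl)
  · obtain ⟨a, b, hb, e⟩ := mem_lc.1 hm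
    have e1 : xa _ _ ^ 2 * a = w * b := Subtype.ext (by
      have e2 : (x / y) ^ 3 = 1 / y * w := by simpa [xa, ya] using congrArg Subtype.val h.rel
      simp only [Subring.coe_mul, Subring.coe_pow, xa]
      rw [← e]
      field_simp at e2 ⊢
      linear_combination b * e2)
    have e3 := congrArg ε e1
    simp only [map_mul, map_pow, h.hs, h.hw, one_mul] at e3
    exact hb (mem_N.2 (by simpa using e3.symm))
  · obtain ⟨hp, _, rfl⟩ := ifp p S h1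
    obtain ⟨q, hq, lk⟩ := hB.up (M ε p) (M ε 0) (N_le p)
    refine ⟨q, hq, fun e => t0 ?_, fun hm => N_ne hp (lk.max.1 hm), lk.eq.symm, fun a => ?_⟩
    · exact Ideal.mem_bot.1 (lk.bot.1 e ▸ hinf 0 _ (Or.inr rfl))
    · have hmax := h.max (p := p) hB
      rw [← mem_nonunits_iff, ← mem_maximalIdeal]
      refine ⟨fun ha => (hmax.le.trans (Ideal.span_le.2 ?_)) ha, fun ha => (sup_le
        (le_maximalIdeal hq.ne_top) ((Ideal.span_mono (by simp)).trans hmax.ge)) ha⟩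
      rintro _ (rfl | rfl)
      · exact Ideal.mem_sup_right (Ideal.subset_span rfl)
      · exact Ideal.mem_sup_left ((lk.mem _).1 (hinf 0 _ (Or.inl rfl)))
  · obtain ⟨a, b, hb, e⟩ := mem_lc.1 z.2
    refine ⟨ε a, ε b, mt mem_N.2 hb, fun hu => ?_⟩
    have e1 : (z * ε b - ε a) * Subring.inclusion (le_lc _ (M ε 0)) b =
        Subring.inclusion (le_lc _ (M ε 0)) (a * ε b - ε a * b) := Subtype.ext (by
      simp only [Subring.coe_mul, map_sub, map_mul, map_intCast, Subring.coe_intCast,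
        AddSubgroupClass.coe_sub, Subring.coe_inclusion]
      rw [← e]
      ring)
    refine (hB.unit _ _).1 (e1 ▸ hu.mul ((hB.unit _ _).2 hb)) (mem_N.2 ?_)
    simp
  · rcases cls q hq h1 with rfl | ⟨p, hp, rfl⟩
    · rfl
    · exact absurd (M_max hp) h2

end Pool.Agent.MP_f3836a_nt.VE.W
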