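import Pool.Agent.MP_f3836a_nt.VE.SpecW4
import Pool.Agent.MP_f3836a_nt.PK.EDVA
import Pool.Agent.MP_f3836a_nt.PK.EDesc

/-! The tame symbol on a fibre. -/

set_option autoImplicit false

namespace Pool.Agent.MP_f3836a_nt.VE.W

open Polynomial IsLocalRing PK VE.A VE.T

namespace WDel

open EDesc

variable {K κ : Type} [Field K] [Field κ]

/-- the value of `ν` on the unit part -/
theorem ex {G : Subring K} {r : G →+* κ} (h : DV G r) {ν : κ → ℚ} (hν : Addv ν) {t : K}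
    (t0 : t ≠ 0) (t1 : ordR G t = 1) : ∃ δ : K → ℚ, Addv δ ∧ δ t = 0 ∧
    (∀ u, ordR G u = 0 → δ u = ν (resR G r u)) ∧ ∀ g g', g ≠ 0 → g' ≠ 0 →
      ν (tameR G r g g') = ordR G g' * δ g - ordR G g * δ g' := by
  have k : ∀ g, g ≠ 0 → g * t ^ (-ordR G g) ≠ 0 ∧ ordR G (g * t ^ (-ordR G g)) = 0 :=
    fun g hg => ⟨mul_ne_zero hg (zpow_ne_zero _ t0), by
      rw [EDVA.mul h hg (zpow_ne_zero _ t0), EDVA.v_zpow h t0, t1]; ring⟩
  have a : Addv fun g => ν (resR G r (g * t ^ (-ordR G g))) := fun f g hf hg => by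
    beta_reduce
    rw [← hν _ _ (EDVA.res_ne h (k f hf).1 (k f hf).2) (EDVA.res_ne h (k g hg).1 (k g hg).2),
      ← EDVA.res_mul h (k f hf).1 (k g hg).1 (k f hf).2 (k g hg).2, EDVA.mul h hf hg, neg_add,
      zpow_add₀ t0, mul_mul_mul_comm]
  have b : ∀ u, ordR G u = 0 → ν (resR G r (u * t ^ (-ordR G u))) = ν (resR G r u) :=
    fun u hu => by rw [hu, neg_zero, zpow_zero, mul_one]
  refine ⟨_, a, ?_, b, fun g g' hg hg' => ?_⟩
  · rw [t1, zpow_neg_one, mul_inv_cancel₀ t0, EDVA.res_one, a_one hν]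
  · have n1 : (-1 : K) ≠ 0 := neg_ne_zero.2 one_ne_zero
    rw [tameR, ← b _ (EDVA.tt h hg hg').2]
    generalize hd : (fun g => ν (resR G r (g * t ^ (-ordR G g)))) = δ at a
    simp only [congrFun hd]
    rw [tameE, div_eq_mul_inv, a _ _ (mul_ne_zero (zpow_ne_zero _ n1) (zpow_ne_zero _ hg))
      (inv_ne_zero (zpow_ne_zero _ hg')), a _ _ (zpow_ne_zero _ n1) (zpow_ne_zero _ hg),
      a_inv a (zpow_ne_zero _ hg'), a_zpow a n1, a_zpow a hg, a_zpow a hg', a_neg a]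
    ring

end WDel

open WDel EDesc in
theorem wDel : OfDel := by
  intro hL W K _ _ x y _ hG hA p G κ _ r ν hV h hν
  obtain ⟨hp, q, _, hq, rfl⟩ := hV
  have L := hL K (A1 x y)
  have p0 : (p : K) ≠ 0 := Nat.cast_ne_zero.2 hp.ne_zero
  have un : ∀ A B : ℤ[X], ∃ a : lc (A1 x y) q, (a : K) = gv x y A B ∧ (¬IsUnit a ↔ Dv p A B) :=
    fun A B => by
      have m := (hA.mem _).2 ⟨A, B, rfl⟩
      exact ⟨Subring.inclusion (le_lc _ q) ⟨_, m⟩, rfl, by
        rw [L.unit, not_not, hq, hA.memp p ⟨_, m⟩ A B rfl]⟩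
  have u0 : ∀ A B : ℤ[X], ¬Dv p A B → ordR (lc (A1 x y) q) (gv x y A B) = 0 := fun A B c => by
    obtain ⟨a, e, i⟩ := un A B
    exact e ▸ (EDVA.unit' h a (not_not.1 fun z => c (i.1 z))).2
  have t1 : ordR (lc (A1 x y) q) (p : K) = 1 := by
    obtain ⟨π, π0, π1⟩ := EDVA.uni h
    have m := (EDVA.mem h π0).2 (by omega)
    have n : (⟨π, m⟩ : lc (A1 x y) q) ∈ maximalIdeal _ := (EDVA.nu h ⟨π, m⟩ π0).2 (by
      change 0 < ordR _ π
      omega)
    have n' : ¬IsUnit (Subring.inclusion (le_lc _ q) (p : A1 x y)) := by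
      rw [L.unit, not_not, hq]
      exact Ideal.mem_span_singleton_self _
    rw [L.max] at n
    obtain ⟨c, e⟩ := Ideal.mem_span_singleton'.1 (by
      rwa [← Set.image_singleton, ← Ideal.map_span, ← hq] : (⟨π, m⟩ : lc (A1 x y) q) ∈
        Ideal.span {Subring.inclusion (le_lc _ q) (p : A1 x y)})
    have e' : (c : K) * p = π := congrArg Subtype.val e
    have c0 : (c : K) ≠ 0 := left_ne_zero_of_mul (e' ▸ π0)
    have h1 := EDVA.mul h c0 p0
    have h2 := (EDVA.mem h c0).1 c.2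
    have h3 : 0 < ordR _ (p : K) := (EDVA.nu h _ p0).1 n'
    rw [e'] at h1
    omega
  obtain ⟨δ, a, d0, d1, d2⟩ := ex h hν p0 t1
  refine ⟨fun g => ordR (lc (A1 x y) q) g, fun g => δ g, fun g g' hg hg' => ?_,
    fun g g' hg hg' => ?_, by simp only [t1, Int.cast_one], fun A B c => ⟨?_, ?_⟩,
    fun A B A' B' c hA' hB' => ?_, fun hz Q hQ => ?_⟩ <;> beta_reduce
  · exact_mod_cast d2 g g' hg hg'
  · exact_mod_cast EDVA.mul h hg hg'
  · exact_mod_cast u0 A B c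
  · exact_mod_cast d1 _ (u0 A B c)
  · have c' : ¬Dv p A' B' := fun z => c ⟨by simpa using dvd_add hA' z.1, by
      simpa using dvd_add hB' z.2⟩
    obtain ⟨b, e, -⟩ := un A B
    obtain ⟨b', e', -⟩ := un A' B'
    obtain ⟨d, f, i⟩ := un (A - A') (B - B')
    have g : b = d + b' := Subtype.ext (by
      rw [Subring.coe_add, e, e', f, gv, gv, gv, map_sub, map_sub]
      ring)
    rw [d1 _ (u0 A B c), d1 _ (u0 A' B' c'), ← e, ← e', EDVA.res_mem b.2, EDVA.res_mem b'.2]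
    change ((ν (r b) : ℚ) : ℝ) = ν (r b')
    rw [g, map_add, (h.ker d).2 (i.2 ⟨hA', hB'⟩), zero_add]
  · have g0 : ∀ A : ℤ[X], gv x y A 0 = aeval x A := fun A => by simp [gv]
    have n0 : ∀ A : ℤ[X], A ≠ 0 → aeval x A ≠ 0 := fun A c z => c (hG.ind A 0 (g0 A ▸ z)).1
    have z : ∀ A : ℤ[X], A ≠ 0 → δ (aeval x A) = 0 := fun A c => by
      obtain ⟨n, A', i, rfl⟩ := WfDvdMonoid.max_power_factor' (x := C (p : ℤ)) c (by
        rw [isUnit_C, Int.isUnit_iff_natAbs_eq, Int.natAbs_natCast]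
        exact hp.ne_one)
      rw [map_mul, map_pow, aeval_C, map_natCast, a _ _ (pow_ne_zero _ p0)
        (n0 _ (right_ne_zero_of_mul c)), ← zpow_natCast, a_zpow a p0, d0, mul_zero, zero_add,
        d1 _ (g0 A' ▸ u0 A' 0 fun w => i w.1), hz A' i]
    obtain ⟨b, hb, e⟩ := IsLocalization.integerNormalization_spec (nonZeroDivisors ℤ) Q
    have b0 := nonZeroDivisors.ne_zero hb
    have c : IsLocalization.integerNormalization (nonZeroDivisors ℤ) Q ≠ 0 := fun w =>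
      hQ (IsFractionRing.integerNormalization_eq_zero_iff.1 w)
    have e' := congrArg (aeval x) e
    rw [aeval_map_algebraMap, map_zsmul, zsmul_eq_mul] at e'
    have e1 := z _ c
    have e2 := z (C b) (C_ne_zero.2 b0)
    rw [aeval_C, eq_intCast] at e2
    rw [e', a _ _ (Int.cast_ne_zero.2 b0) (right_ne_zero_of_mul (e' ▸ n0 _ c)), e2,
      zero_add] at e1
    exact_mod_cast e1

end Pool.Agent.MP_f3836a_nt.VE.W
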