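import Pool.Agent.MP_f3836a_nt.VE.SpecW4

/-! Part W: finiteness of divisors, and the zero section. -/

set_option autoImplicit false

namespace Pool.Agent.MP_f3836a_nt.VE.W

open Polynomial IsLocalRing PK VE.A VE.T

namespace WFinX

variable {K : Type} [Field K]

theorem od_ne {κ : Type} [Field κ] {O D : Subring K} {r : O →+* κ} {u : κ} (h : od O r D u ≠ 0) :
    D ≤ O := by
  by_contra z
  exact h (if_neg z)

theorem unit_of (hL : LcS) {B S : Subring K} {q : Ideal B} [q.IsPrime] (e : S = lc B q) {a : B}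
    (ha : a ∉ q) : ∃ a' : S, IsUnit a' ∧ (a' : K) = a := by
  subst e
  exact ⟨_, ((hL K B).unit q a).2 ha, rfl⟩

theorem res_nat {κ : Type} [Field κ] (O D : Subring K) (r : O →+* κ) (n : ℕ) :
    resR O r ((n : D) : K) = n := by
  have h : ((n : D) : K) ∈ O := by
    rw [Subring.coe_natCast]
    exact natCast_mem O n
  rw [resR, dif_pos h, ← map_natCast r]
  exact congrArg r (Subtype.ext (by simp))

theorem add_zero' {κ : Type} [Field κ] {μ : κ → ℚ} (h : Addv μ)
    (h0 : ∀ n : ℤ, n ≠ 0 → (n : κ) ≠ 0) (hp : ∀ l : ℕ, l.Prime → μ l = 0) (n : ℤ) (hn : n ≠ 0) :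
    μ n = 0 := by
  have h1 : μ 1 = 0 := by
    have := h 1 1 one_ne_zero one_ne_zero
    rw [mul_one] at this
    linarith
  have h2 : μ (-1) = 0 := by
    have := h (-1) (-1) (neg_ne_zero.2 one_ne_zero) (neg_ne_zero.2 one_ne_zero)
    rw [neg_one_mul, neg_neg] at this
    linarith
  have h3 : ∀ m : ℕ, m ≠ 0 → (m : κ) ≠ 0 := fun m hm => by
    simpa using h0 m (by exact_mod_cast hm)
  have h4 : ∀ m : ℕ, m ≠ 0 → μ m = 0 := fun m => by
    induction m using induction_on_primes with
    | zero => exact fun z => absurd rfl z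
    | one => exact fun _ => by rw [Nat.cast_one, h1]
    | prime_mul p a hp' ih =>
      intro z
      have ha : a ≠ 0 := right_ne_zero_of_mul z
      rw [Nat.cast_mul, h _ _ (h3 p hp'.ne_zero) (h3 a ha), hp p hp', ih ha, add_zero]
  obtain ⟨m, rfl | rfl⟩ := n.eq_nat_or_neg
  · rw [Int.cast_natCast]
    exact h4 m (by exact_mod_cast hn)
  · have hm : m ≠ 0 := by rintro rfl; exact hn rfl
    rw [Int.cast_neg, Int.cast_natCast, ← neg_one_mul,
      h _ _ (neg_ne_zero.2 one_ne_zero) (h3 m hm), h2, h4 m hm, add_zero]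

end WFinX

open WFinX in
theorem wFinX : OfFinX := by
  intro hL hO hF W K _ _ x y Pt _ O κ _ r _ _ G
  have inj : Function.Injective fun z : Cl Pt => O z.1 := G.inj.comp Subtype.val_injective
  have inj' : Function.Injective fun z : Cv Pt => O z.1 := G.inj.comp Subtype.val_injective
  refine ⟨fun C z u u' hu hu' => ?_, fun C u hu => ?_, fun f => ?_⟩
  · by_cases h : O z.1 ≤ O C.1
    · obtain ⟨q, _, a, b, c⟩ := (G.thr z).2.cen C h
      exact (hO K _ _ _ q _ (G.thr z).1 a b c (G.dv C.1 C.2)).mul u u' hu hu'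
    · simp only [od, if_neg h, add_zero]
  · refine (((hF K _ _ _ _ u G.cha.noeth (G.dv C.1 C.2) hu).union
      (hF K _ _ _ _ u G.chi.noeth (G.dv C.1 C.2) hu)).preimage inj.injOn).subset fun z hz => ?_
    have h := (G.thr z).2.cen C (od_ne hz)
    obtain ⟨p, ⟨-, m, _, a, -, b⟩ | ⟨-, m, _, a, -, -, b⟩⟩ := (G.cl z.1).1 z.2
    · exact .inl ⟨⟨m, _, a, b⟩, (G.thr z).1, h, hz⟩
    · exact .inr ⟨⟨m, _, a, b⟩, (G.thr z).1, h, hz⟩
  · by_cases hf : f = 0
    · exact Set.finite_empty.subset fun C hC => hC (dif_neg fun z => z.1 hf)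
    obtain ⟨a, b, hb, e⟩ := G.cha.frac f
    have ha : (a : K) ≠ 0 := e ▸ mul_ne_zero hf hb
    obtain ⟨V, -, hV⟩ := G.chi.zer
    have := G.cha.noeth
    refine ((((Ideal.finite_minimalPrimes_of_isNoetherianRing _
      (Ideal.span {a * b})).dependent_image fun q hq =>
        @lc K _ _ q hq.1.1).insert V).preimage inj'.injOn).subset fun C hC => ?_
    rcases (G.cv C.1).1 C.2 with ⟨q, _, h1, h2, h3⟩ | h
    · have A := rDVA _ _ _ _ (G.dv C.1 C.2)
      have hq : a * b ∈ q := by
        by_contra z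
        obtain ⟨a', a1, a2⟩ := unit_of hL h3 fun w => z (q.mul_mem_right b w)
        obtain ⟨b', b1, b2⟩ := unit_of hL h3 fun w => z (q.mul_mem_left a w)
        have := A.mul f b hf hb
        rw [e, ← a2, ← b2, (A.unit' a' a1).2, (A.unit' b' b1).2, add_zero] at this
        exact hC this.symm
      obtain ⟨q0, m0, l0⟩ := Ideal.exists_minimalPrimes_le ((Ideal.span_singleton_le_iff_mem q).2 hq)
      have n0 : q0 ≠ ⊥ := fun z => by
        have := m0.1.2 (Ideal.mem_span_singleton_self _)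
        rw [z, Ideal.mem_bot] at this
        exact mul_ne_zero ha hb (congrArg Subtype.val this)
      obtain rfl : q0 = q := by
        by_contra z
        exact h2 (G.cha.dim q0 q m0.1.1 inferInstance n0 (lt_of_le_of_ne l0 z))
      exact .inr ⟨q0, m0, h3.symm⟩
    · obtain ⟨q, _, h1, h2, h3⟩ := h.pt
      exact .inl (h3.trans (hV q h1 h2))

open WFinX in
theorem wZero : OfZero := by
  intro _ hO hC W K _ _ x y Pt _ O κ _ r _ _ G hF C lam α hx hl hα u hu
  have hZ := G.zer C hx
  have dv := G.dv C.1 C.2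
  have h0 : ∀ n : ℤ, n ≠ 0 → (n : κ C.1) ≠ 0 := fun n hn z =>
    (dv.ker n).1 ((map_intCast _ n).trans z) (hZ.int n hn)
  have hc : Addv (cob O r α C) := (hC (Cv Pt) (Cl Pt) (fun C => κ C.1)
    (fun C z => od (O C.1) (r C.1) (O z.1)) α hF.mul hF.fin).1 C
  have hμ : Addv fun u => lam u - cob O r α C u := fun f g a b => by
    simp only [hl f g a b, hc f g a b]
    ring
  have hp : ∀ l : ℕ, l.Prime → lam l - cob O r α C l = 0 := fun l hl' => by
    obtain ⟨S, hS⟩ := G.chi.ex l hl'
    obtain ⟨z, rfl⟩ := G.cle l S (.inr hS)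
    let z0 : Cl Pt := ⟨z, (G.cl z).2 ⟨l, .inr hS⟩⟩
    have h1 : od (O C.1) (r C.1) (O z) l = 1 := by
      obtain ⟨q, _, a, b, c, d⟩ := hZ.thr l _ hS
      have A := hO K _ _ _ q _ (G.thr z0).1 a b c dv
      have n : (l : O z) ∉ q := fun w => h0 l (by exact_mod_cast hl'.ne_zero) (by
        have := (A.zero l).2 w
        rwa [res_nat, ← Int.cast_natCast] at this)
      have := (G.thr z0).1.loc
      have e : q ⊔ Ideal.span {(l : O z)} = maximalIdeal (O z) := Ideal.ext fun t => (d t).symm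
      have s := (A.len l n).2.1
      rw [res_nat, e, Module.length_eq_one_iff.2 (isSimpleModule_iff_isCoatom.2
        (maximalIdeal.isMaximal _).out)] at s
      have s' : (od (O C.1) (r C.1) (O z) l).toNat = 1 := by exact_mod_cast s.symm
      omega
    rw [cob, finsum_eq_single _ z0 fun w hw => ?_, h1, hα l z0 hS]
    · simp
    · by_contra t
      have t1 : od (O C.1) (r C.1) (O w.1) l ≠ 0 := fun e => t (by simp [e])
      have le := od_ne t1
      obtain ⟨p, ⟨-, m, _, -, -, b⟩ | h⟩ := (G.cl w.1).1 w.2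
      · exact hx (le (b ▸ le_lc _ m (xa x y).2))
      by_cases e : p = l
      · exact hw (Subtype.ext (G.inj (G.chi.uniq l _ _ (e ▸ h) hS)))
      obtain ⟨q, hq, a, b, c⟩ := (G.thr w).2.cen C le
      have un : IsUnit (l : O w.1) := by
        have := (G.chi.reg p _ h).2.2.2.1 l fun d =>
          e ((Nat.prime_dvd_prime_iff_eq h.1 hl').1 (Int.natCast_dvd_natCast.1 d))
        rwa [Int.cast_natCast] at this
      have := ((hO K _ _ _ q _ (G.thr w).1 a b c dv).len l fun d =>
        hq.ne_top (q.eq_top_of_isUnit_mem d un)).2.2.2 un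
      rw [res_nat] at this
      exact t1 this
  obtain ⟨z, rfl⟩ := dv.surj u
  obtain ⟨a, b, hb, e⟩ := hZ.rat z
  have e' := (dv.ker _).2 e
  rw [map_sub, map_mul, map_intCast, map_intCast, sub_eq_zero] at e'
  have ha : a ≠ 0 := by
    rintro rfl
    exact mul_ne_zero hu (h0 b hb) (e'.trans Int.cast_zero)
  have := hμ _ _ hu (h0 b hb)
  simp only [e', add_zero' hμ h0 hp a ha, add_zero' hμ h0 hp b hb] at this
  linarith

end Pool.Agent.MP_f3836a_nt.VE.W
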