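import Pool.Agent.MP_f3836a_nt.VE.SpecW4

set_option autoImplicit false

namespace Pool.Agent.MP_f3836a_nt.VE.W

open Polynomial IsLocalRing PK VE.A VE.T

namespace WGeo1

variable {K : Type} [Field K]

theorem inv_mem {S : Subring K} {a : S} (h : IsUnit a) : (a : K)⁻¹ ∈ S := by
  obtain ⟨b, e⟩ := h.exists_right_inv
  have e' : (a : K) * b = 1 := congrArg Subtype.val e
  rw [← eq_inv_of_mul_eq_one_right e']
  exact b.2

theorem unit_of {S : Subring K} {a : S} (h0 : (a : K) ≠ 0) (h : (a : K)⁻¹ ∈ S) : IsUnit a :=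
  IsUnit.of_mul_eq_one (⟨_, h⟩ : S) (Subtype.ext (mul_inv_cancel₀ h0))

theorem fr_le {B S : Subring K} (h : B ≤ S) (f : Fr B) : Fr S := fun z => by
  obtain ⟨a, b, hb, e⟩ := f z
  exact ⟨⟨a, h a.2⟩, ⟨b, h b.2⟩, hb, e⟩

theorem mx {T : Subring K} (h : IsDiscreteValuationRing T) (f : Fr T) (S : Subring K)
    (hle : T ≤ S) : S = T ∨ S = ⊤ :=
  (rDVA K (ResidueField T) T (residue T) ⟨h, f, residue_surjective, fun a => by
    rw [residue_eq_zero_iff, mem_maximalIdeal, mem_nonunits_iff]⟩).max S hle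

theorem h1 {B S : Subring K} (d : Dim2 B) (h : H1 B S) : IsDiscreteValuationRing S ∧ Fr S := by
  obtain ⟨q, _, q0, qm, rfl⟩ := h
  exact ⟨d.dvr q q0 qm, fr_le (le_lc B q) d.frac⟩

theorem zr {x y : K} (I : ChI x y) {V : Subring K} (h : Zer x y V) :
    (IsDiscreteValuationRing V ∧ Fr V) ∧ ∃ S, Ifp x y 2 S ∧ S ≤ V ∧ S ≠ V := by
  obtain ⟨S, hS⟩ := I.ex 2 Nat.prime_two
  obtain ⟨q, hq, q0, qm, e, -⟩ := h.thr 2 S hS
  obtain ⟨hl, -, -, -, hu, -⟩ := I.reg 2 S hS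
  refine ⟨h1 hl.toDim2 ⟨q, hq, q0, qm, e⟩, S, hS, e ▸ le_lc S q, fun e' => hu ?_⟩
  subst e'
  simpa using h.int 2 (by norm_num)

theorem aff_ne (L : LcS) {x y : K} (A : Ch1 x y) {p : ℕ} {S : Subring K} (h : Aff x y p S) :
    S ≠ ⊤ := by
  obtain ⟨hp, m, _, -, pm, rfl⟩ := h
  intro e
  rw [((L K _).top m A.frac).1 e] at pm
  exact (A.pr p hp).2.2 pm

theorem hard (L : LcS) {x y : K} (A : Ch1 x y) (I : ChI x y) {p p' : ℕ} {S S2 : Subring K}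
    (h : Aff x y p S) (h2 : Ifp x y p' S2) (hle : S2 ≤ S) : False := by
  have hne := aff_ne L A h
  obtain ⟨hp, m, _, hm, pm, rfl⟩ := h
  obtain ⟨hl, -, hy, -⟩ := I.reg p' S2 h2
  have := hl.loc
  obtain ⟨q, hq, hq1, hc⟩ := (L K S2).cen _ hle
  have y0 : y ≠ 0 := fun e => hy (e ▸ zero_mem _)
  have e2 : (1 / y)⁻¹ = y := by rw [one_div, inv_inv]
  have hi : 1 / y ∈ S2 := by
    obtain ⟨-, m', _, -, -, -, rfl⟩ := h2
    exact le_lc _ m' (ya (x / y) (1 / y)).2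
  have hn : (⟨1 / y, hi⟩ : S2) ∉ q := fun hh => (hc _).1 hh (unit_of (one_div_ne_zero y0) (by
    change (1 / y)⁻¹ ∈ _
    rw [e2]
    exact le_lc _ m (ya x y).2))
  have qm : ¬q.IsMaximal := fun hh => hn (by
    rw [eq_maximalIdeal hh, mem_maximalIdeal, mem_nonunits_iff]
    intro hu
    have := inv_mem hu
    change (1 / y)⁻¹ ∈ _ at this
    exact hy (e2 ▸ this))
  have q0 : q ≠ ⊥ := fun e => hne (top_unique (((L K S2).top q hl.frac).2 e ▸ hq1))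
  obtain ⟨d, f⟩ := h1 hl.toDim2 ⟨q, hq, q0, qm, rfl⟩
  obtain ⟨g1, g2, g3⟩ := A.pr p hp
  have l1 : lc _ m ≤ lc _ (Ideal.span {(p : A1 x y)}) :=
    ((L K _).le _ _).2 ((Ideal.span_singleton_le_iff_mem _).2 pm)
  rcases mx d f _ (hq1.trans l1) with e | e
  · have l2 := ((L K _).le _ _).1 (e.le.trans hq1)
    exact g2 (hm.eq_of_le g1.ne_top l2 ▸ hm)
  · exact g3 (by simpa using ((L K _).top _ A.frac).1 e)

end WGeo1

open WGeo1

theorem wGeo1 : OfGeo1 := by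
  intro L H W K _ _ x y Pt _ O κ _ r _ _ D A I
  obtain ⟨V, hV, hz⟩ := I.zer
  have cle : ∀ p S, Aff x y p S ∨ Ifp x y p S → ∃ z, O z = S := by
    rintro p S (⟨-, m, hm, -, -, e⟩ | ⟨-, m, hm, -, hI, -, e⟩)
    · exact (D.cls S).2 (Or.inl ⟨m, hm, e⟩)
    · exact (D.cls S).2 (Or.inr ⟨m, hm, hI, e⟩)
  have cve : ∀ S, H1 (A1 x y) S ∨ Zer x y S → ∃ C, O C = S := by
    rintro S (⟨m, hm, -, -, e⟩ | h)
    · exact (D.cls S).2 (Or.inl ⟨m, hm, e⟩)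
    · obtain ⟨m, hm, hI, -, e⟩ := h.pt
      exact (D.cls S).2 (Or.inr ⟨m, hm, hI, e⟩)
  have dv : ∀ S, H1 (A1 x y) S ∨ Zer x y S → IsDiscreteValuationRing S ∧ Fr S := fun S h =>
    h.elim (h1 A.dim2) fun h => (zr I h).1
  have key := H K Pt O (fun z => ∃ p, Aff x y p (O z) ∨ Ifp x y p (O z))
    (fun z => H1 (A1 x y) (O z) ∨ Zer x y (O z)) D.inj D.le (fun z => ?_) (fun z z' h hle => ?_)
    (fun z z' h hle => ?_) (fun z h => ?_) ?_
  · exact ⟨D.inj, fun z => (key z).1, cle, fun z => (key z).2.1, cve, fun z => (key z).2.2,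
      fun C h => ⟨(dv _ ((key C).2.1.1 h)).1, (dv _ ((key C).2.1.1 h)).2, D.surj C, D.ker C⟩⟩
  · rcases (D.cls (O z)).1 ⟨z, rfl⟩ with ⟨q, hq, e⟩ | ⟨q, hq, hI, e⟩
    · by_cases q0 : q = ⊥
      · exact Or.inr (Or.inr (e.trans (((L K _).top q A.frac).2 q0)))
      by_cases qm : q.IsMaximal
      · obtain ⟨-, p, hp, pm⟩ := A.mx q qm
        exact Or.inl ⟨p, Or.inl ⟨hp, q, hq, qm, pm, e⟩⟩
      · exact Or.inr (Or.inl (Or.inl ⟨q, hq, q0, qm, e⟩))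
    · by_cases qm : q.IsMaximal
      · obtain ⟨p, hp, pm⟩ := I.mx q qm hI
        exact Or.inl ⟨p, Or.inr ⟨hp, q, hq, qm, hI, pm, e⟩⟩
      · exact Or.inr (Or.inl (Or.inr (e.trans (hz q hI qm) ▸ hV)))
  · apply D.inj
    obtain ⟨p, h | h⟩ := h
    · rcases (D.cls (O z')).1 ⟨z', rfl⟩ with ⟨q, hq, e⟩ | ⟨q, hq, hI, e⟩
      · obtain ⟨-, m, _, hm, -, e'⟩ := h
        rw [e, e', (L K _).le] at hle
        obtain rfl := hm.eq_of_le hq.ne_top hle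
        exact e.trans e'.symm
      · exfalso
        by_cases qm : q.IsMaximal
        · obtain ⟨p', hp, pm⟩ := I.mx q qm hI
          exact hard L A.toCh1 I h ⟨hp, q, hq, qm, hI, pm, e⟩ hle
        · rw [e, hz q hI qm] at hle
          obtain ⟨d, f⟩ := (zr I hV).1
          rcases mx d f _ hle with e' | e'
          · obtain ⟨-, m, _, -, -, e2⟩ := h
            exact hV.nx.1 (e' ▸ e2 ▸ le_lc _ m (xa x y).2)
          · exact aff_ne L A.toCh1 h e'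
    · rcases (D.cls (O z')).1 ⟨z', rfl⟩ with ⟨q, hq, e⟩ | ⟨q, hq, hI, e⟩
      · exact absurd (hle (e ▸ le_lc _ q (ya x y).2)) (I.reg p _ h).2.2.1
      · obtain ⟨-, m, _, hm, -, -, e'⟩ := h
        rw [e, e', (L K _).le] at hle
        obtain rfl := hm.eq_of_le hq.ne_top hle
        exact e.trans e'.symm
  · obtain ⟨d, f⟩ := dv _ h
    exact (mx d f _ hle).imp_left fun e => D.inj e
  · rcases h with ⟨q, hq, q0, qm, e⟩ | h
    · refine ⟨fun t => q0 (((L K _).top q A.frac).1 (e ▸ t)), ?_⟩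
      obtain ⟨m, hm, hle⟩ := Ideal.exists_le_maximal q hq.ne_top
      obtain ⟨-, p, hp, pm⟩ := A.mx m hm
      have := hm.isPrime
      have ha : Aff x y p (lc _ m) := ⟨hp, m, this, hm, pm, rfl⟩
      obtain ⟨z', e'⟩ := cle p _ (Or.inl ha)
      refine ⟨z', ⟨p, Or.inl (e' ▸ ha)⟩, ?_, fun t => qm ?_⟩
      · rw [e, e']
        exact ((L K _).le _ _).2 hle
      · subst t
        have l := ((L K _).le _ _).1 (e.symm.trans e').le
        exact hm.eq_of_le hq.ne_top l ▸ hm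
    · refine ⟨fun t => h.nx.1 (t ▸ Subring.mem_top x), ?_⟩
      obtain ⟨-, S, hS, hle, hne⟩ := zr I h
      obtain ⟨z', e'⟩ := cle 2 _ (Or.inr hS)
      exact ⟨z', ⟨2, Or.inr (e' ▸ hS)⟩, e' ▸ hle, fun t => hne (e'.symm.trans (t ▸ rfl))⟩
  · obtain ⟨z, e⟩ := cve V (Or.inr hV)
    exact ⟨z, Or.inr (e ▸ hV)⟩

end Pool.Agent.MP_f3836a_nt.VE.W
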