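import Pool.Agent.MP_f3836a_nt.VE.SpecW4

/-! The curves through a closed point. -/

set_option autoImplicit false

namespace Pool.Agent.MP_f3836a_nt.VE.W

open Polynomial IsLocalRing PK VE.A VE.T

namespace WGeo2

variable {K : Type} [Field K] (L : LcS)

include L

theorem ctr {D T : Subring K} (hD : Dim2 D) [IsLocalRing T] (hT : T ≠ ⊤) (le : D ≤ T) :
    H1 D T ∨ ∃ q : Ideal D, q.IsMaximal ∧ ∀ a, a ∈ q ↔ ¬IsUnit (Subring.inclusion le a) := by
  obtain ⟨q, _, h1, h2⟩ := (L K D).cen T le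
  by_cases hm : q.IsMaximal
  · exact Or.inr ⟨q, hm, h2⟩
  have h0 : q ≠ ⊥ := fun e => hT (top_unique ((((L K D).top q hD.frac).2 e).ge.trans h1))
  have dv : DV (lc D q) (residue (lc D q)) :=
    ⟨hD.dvr q h0 hm, fun z => (hD.frac z).elim fun a h => h.elim fun b h =>
      ⟨⟨a, le_lc D q a.2⟩, ⟨b, le_lc D q b.2⟩, h⟩, residue_surjective,
      fun a => (residue_eq_zero_iff a).trans mem_nonunits_iff⟩
  exact Or.inl ⟨q, _, h0, hm, (EDVA.max dv T h1).resolve_right hT⟩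

variable {W : WeierstrassCurve ℤ} {x y : K} (ha : ChA W x y) (hi : ChI x y) {p : ℕ}
  {S T : Subring K}

include ha hi

theorem loc (h : Aff x y p S ∨ Ifp x y p S) : Loc2 S := by
  rcases h with ⟨-, m, _, hm, -, rfl⟩ | h
  · exact (L K _).loc ha.dim2 m hm
  · exact (hi.reg p S h).1

theorem cen (h : Aff x y p S ∨ Ifp x y p S) (hT : H1 (A1 x y) T ∨ Zer x y T) (le : S ≤ T) :
    H1 S T := by
  rcases h with ⟨-, m, _, hm, -, rfl⟩ | h <;> rcases hT with ⟨q, _, q0, q1, rfl⟩ | hT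
  · obtain ⟨q', _, k⟩ := (L K _).up m q (((L K _).le m q).1 le)
    exact ⟨q', _, fun e => q0 (k.bot.1 e), fun e => q1 (k.max.1 e ▸ hm), k.eq.symm⟩
  · exact (hT.nx.1 (le (le_lc _ m (xa x y).2))).elim
  · obtain ⟨l, -, hy, -⟩ := hi.reg p S h
    refine (ctr L l.toDim2 (fun e => q0 (((L K _).top q ha.dim2.frac).1 e)) le).resolve_right ?_
    rintro ⟨n, hn, h2⟩
    have := l.loc
    have y0 : y ≠ 0 := fun e => hy (e ▸ S.zero_mem)
    have t : 1 / y ∈ S := by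
      obtain ⟨-, m, _, -, -, -, rfl⟩ := h
      exact le_lc _ m (ya (x / y) (1 / y)).2
    have h3 : (⟨1 / y, t⟩ : S) ∉ n := fun e => (h2 _).1 e (IsUnit.of_mul_eq_one
      ⟨y, le_lc _ q (ya x y).2⟩ (Subtype.ext (one_div_mul_cancel y0)))
    rw [eq_maximalIdeal hn, notMem_maximalIdeal] at h3
    obtain ⟨b, hb⟩ := h3.exists_right_inv
    have h4 : 1 / y * b = 1 := congrArg Subtype.val hb
    rw [one_div, inv_mul_eq_one₀ y0] at h4
    exact hy (h4 ▸ b.2)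
  · obtain ⟨q, _, q0, q1, e, -⟩ := hT.thr p S h
    exact ⟨q, _, q0, q1, e⟩

omit L ha hi in
theorem cub (hg : Gn W x y) (y0 : y ≠ 0) (q : Ideal (A2 x y)) [q.IsPrime]
    (ht : ya (x / y) (1 / y) ∈ q) : Inf q := by
  have hs : xa (x / y) (1 / y) ∈ q := by
    refine Ideal.IsPrime.mem_of_pow_mem inferInstance 3 ?_
    have e : xa (x / y) (1 / y) ^ 3 = ya (x / y) (1 / y) * (1 + W.a₁ * xa (x / y) (1 / y) +
        W.a₃ * ya (x / y) (1 / y) - W.a₂ * xa (x / y) (1 / y) ^ 2 -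
        W.a₄ * xa (x / y) (1 / y) * ya (x / y) (1 / y) - W.a₆ * ya (x / y) (1 / y) ^ 2) := by
      apply Subtype.ext
      have := hg.eq
      rw [eW] at this
      push_cast
      simp only [xa, ya]
      field_simp
      linear_combination -this
    rw [e]
    exact q.mul_mem_right _ ht
  exact fun a h => h.elim (fun e => (Subtype.ext e : a = xa _ _) ▸ hs)
    fun e => (Subtype.ext e : a = ya _ _) ▸ ht

theorem exA (h : Ifp x y p S) (q' : Ideal S) [q'.IsPrime] (q0 : q' ≠ ⊥) (q1 : ¬q'.IsMaximal)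
    (le : A1 x y ≤ lc S q') : H1 (A1 x y) (lc S q') := by
  obtain ⟨l, -, -, un, -, ve⟩ := hi.reg p S h
  have hp := h.1
  rcases ctr L ha.dim2 (fun e => q0 (((L K _).top q' l.frac).1 e)) le with h | ⟨n, hn, h2⟩
  · exact h
  obtain ⟨-, p0, hp0, h3⟩ := ha.mx n hn
  have h4 : (p0 : S) ∈ q' := by
    by_contra e
    have := ((L K _).unit q' _).2 e
    rw [map_natCast] at this
    exact (h2 _).1 h3 (by rwa [map_natCast])
  obtain rfl : p = p0 := by
    refine (Nat.prime_dvd_prime_iff_eq hp hp0).1 (Int.natCast_dvd_natCast.1 (by_contra fun e => ?_))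
    exact Ideal.IsPrime.ne_top' (Ideal.eq_top_of_isUnit_mem q' h4 (by simpa using un p0 e))
  obtain ⟨a1, a2, a3⟩ := ha.pr p hp
  obtain ⟨n', _, rfl, b1, b2, b3⟩ := ve _ ⟨hp, _, a1, rfl, rfl⟩
  obtain rfl : Ideal.span {(p : S)} = q' := by
    by_contra e
    exact q1 (l.dim _ _ inferInstance inferInstance b1
      (lt_of_le_of_ne ((Ideal.span_singleton_le_iff_mem _).2 h4) e))
  exact ⟨_, a1, fun e => a3 (Ideal.span_singleton_eq_bot.1 e), a2, b3.symm⟩

theorem ex (hg : Gn W x y) (h : Aff x y p S ∨ Ifp x y p S) (hT : H1 S T) :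
    H1 (A1 x y) T ∨ Zer x y T := by
  obtain ⟨q', _, q0, q1, rfl⟩ := hT
  rcases h with ⟨-, m, _, hm, -, rfl⟩ | h
  · obtain ⟨q, _, k⟩ := (L K _).dn m q'
    exact Or.inl ⟨q, _, fun e => q0 (k.bot.2 e),
      fun e => q1 (k.max.2 (e.eq_of_le hm.ne_top k.le)), k.eq⟩
  have y0 : y ≠ 0 := fun e => (hi.reg p S h).2.2.1 (e ▸ Subring.zero_mem _)
  by_cases hy' : y ∈ lc _ q'
  · refine Or.inl (exA L ha hi h q' q0 q1 (Subring.closure_le.2
      (Set.insert_subset ?_ (Set.singleton_subset_iff.2 hy'))))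
    have h1 : x / y ∈ S := by
      obtain ⟨-, m, _, -, -, -, rfl⟩ := h
      exact le_lc _ m (xa (x / y) (1 / y)).2
    have := Subring.mul_mem _ (le_lc _ q' h1) hy'
    rwa [div_mul_cancel₀ x y0] at this
  obtain ⟨hp, m, _, hm, -, -, rfl⟩ := h
  obtain ⟨q, _, k⟩ := (L K _).dn m q'
  obtain ⟨V, v1, v2⟩ := hi.zer
  rw [k.eq] at hy' ⊢
  have ht : ya (x / y) (1 / y) ∈ q := by
    by_contra e
    have h1 : (1 / y)⁻¹ ∈ lc _ q :=
      ((L K _).inv q _ fun e0 => one_div_ne_zero y0 (congrArg Subtype.val e0)).2 e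
    rw [one_div y, inv_inv] at h1
    exact hy' h1
  rw [v2 q (cub hg y0 q ht) fun e => q1 (k.max.2 (e.eq_of_le hm.ne_top k.le))]
  exact Or.inr v1

end WGeo2

open WGeo2 in
theorem wGeo2 : OfGeo2 := by
  intro L W K _ _ x y Pt _ O κ _ r _ hg ha hi g z
  obtain ⟨p, h⟩ := (g.cl z.1).1 z.2
  refine ⟨loc L ha hi h, fun C C' e => Subtype.ext (g.inj e), fun C => g.dv C.1 C.2,
    fun C le => cen L ha hi h ((g.cv C.1).1 C.2) le, fun S hS => ?_⟩
  have h1 := ex L ha hi hg h hS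
  obtain ⟨C, rfl⟩ := g.cve S h1
  exact ⟨⟨C, (g.cv C).2 h1⟩, rfl⟩

end Pool.Agent.MP_f3836a_nt.VE.W
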