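import Pool.Agent.MP_f3836a_nt.VE.SpecW4

set_option autoImplicit false

namespace Pool.Agent.MP_f3836a_nt.VE.W

open Polynomial IsLocalRing PK VE.A VE.T

namespace WGeo3

variable {K : Type} [Field K]

theorem inv_mem {S : Subring K} {a : S} (h : IsUnit a) : (a : K)⁻¹ ∈ S := by
  obtain ⟨b, e⟩ := h.exists_right_inv
  have e' : (a : K) * b = 1 := congrArg Subtype.val e
  rw [← eq_inv_of_mul_eq_one_right e']
  exact b.2

theorem unit_of {S : Subring K} {a : S} (h0 : (a : K) ≠ 0) (h : (a : K)⁻¹ ∈ S) : IsUnit a :=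
  IsUnit.of_mul_eq_one (⟨_, h⟩ : S) (Subtype.ext (mul_inv_cancel₀ h0))

theorem val {κ : Type} [Field κ] {O : Subring K} {r : O →+* κ} (h : DV O r) (z : K) :
    z ∈ O ∨ z⁻¹ ∈ O := by
  have := h.dvr
  obtain ⟨a, b, hb, e⟩ := h.frac z
  obtain ⟨c, hc | hc⟩ := ValuationRing.cond a b
  · have e' : (a : K) * c = b := congrArg Subtype.val hc
    have : z * c = 1 := mul_right_cancel₀ hb (by rw [one_mul, mul_right_comm, e, e'])
    rw [← eq_inv_of_mul_eq_one_right this]
    exact Or.inr c.2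
  · have e' : (b : K) * c = a := congrArg Subtype.val hc
    have : z = c := mul_right_cancel₀ hb (by rw [e, ← e', mul_comm])
    exact Or.inl (this ▸ c.2)

theorem place [CharZero K] {κ : Type} [Field κ] {O : Subring K} {r : O →+* κ} (h : DV O r)
    (hp : ∀ p : ℕ, p.Prime → (p : K)⁻¹ ∈ O) : ∃ P : Place K, O = P.V.toSubring := by
  have := h.dvr
  have hn : ∀ n : ℕ, (n : K)⁻¹ ∈ O := by
    intro n
    induction n using induction_on_primes with
    | zero => simp
    | one => simp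
    | prime_mul p a hq ih => rw [Nat.cast_mul, mul_inv]; exact O.mul_mem (hp p hq) ih
  refine ⟨⟨⟨O, val h⟩, fun e => ?_, fun q => ?_⟩, rfl⟩
  · obtain ⟨w, hw⟩ := IsDiscreteValuationRing.exists_irreducible O
    refine hw.not_isUnit (unit_of (fun h0 => hw.ne_zero (Subtype.ext h0)) ?_)
    have : (w : K)⁻¹ ∈ (⟨O, val h⟩ : ValuationSubring K) := e ▸ ValuationSubring.mem_top _
    exact this
  · change algebraMap ℚ K q ∈ O
    rw [eq_ratCast, Rat.cast_def, div_eq_mul_inv]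
    exact O.mul_mem (intCast_mem O _) (hn _)

theorem pinv [CharZero K] (P : Place K) (p : ℕ) : (p : K)⁻¹ ∈ P.V.toSubring := by
  have := P.const (p : ℚ)⁻¹
  rw [map_inv₀, map_natCast] at this
  exact this

theorem dom {B S : Subring K} {q : Ideal B} [q.IsPrime] (h : B ≤ S) (hle : lc B q ≤ S)
    (hc : ∀ a : B, a ∈ q ↔ ¬IsUnit (Subring.inclusion h a))
    (hv : ∀ z : K, z ∈ lc B q ∨ z⁻¹ ∈ lc B q) : lc B q = S := by
  refine le_antisymm hle fun z hz => ?_
  rcases eq_or_ne z 0 with rfl | z0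
  · exact zero_mem _
  rcases hv z with h1 | h1
  · exact h1
  obtain ⟨a, b, hb, e⟩ := mem_lc.1 h1
  have e' : z * a = b := by rw [← e, mul_inv_cancel_left₀ z0]
  refine mem_lc.2 ⟨b, a, fun ha => (hc a).1 ha ?_, e'⟩
  have hu : IsUnit (Subring.inclusion h b) := by
    by_contra hn
    exact hb ((hc b).2 hn)
  have e2 : Subring.inclusion h b = ⟨z, hz⟩ * Subring.inclusion h a := Subtype.ext e'.symm
  exact isUnit_of_mul_isUnit_right (e2 ▸ hu)

theorem nop [CharZero K] (P : Place K) {B : Subring K} {q : Ideal B} (h : B ≤ P.V.toSubring)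
    (hc : ∀ a : B, a ∈ q ↔ ¬IsUnit (Subring.inclusion h a)) {p : ℕ} (hp : p.Prime) :
    (p : B) ∉ q := fun hq =>
  (hc p).1 hq (unit_of (by simpa using hp.ne_zero) (by simpa using pinv P p))

theorem y_mem {W : WeierstrassCurve ℤ} {x y : K} (e : eW W x y = 0) {S : Subring K}
    (hv : ∀ z : K, z ∈ S ∨ z⁻¹ ∈ S) (hx : x ∈ S) : y ∈ S := by
  rcases eq_or_ne y 0 with rfl | y0
  · exact zero_mem _
  rcases hv y with h | h
  · exact h
  have : y = (x ^ 3 + W.a₂ * x ^ 2 + W.a₄ * x + W.a₆) * y⁻¹ - (W.a₁ * x + W.a₃) := by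
    unfold eW at e
    field_simp
    linear_combination e
  rw [this]
  have c := fun n : ℤ => intCast_mem S n
  exact sub_mem (mul_mem (add_mem (add_mem (add_mem (pow_mem hx 3) (mul_mem (c _) (pow_mem hx 2)))
    (mul_mem (c _) hx)) (c _)) h) (add_mem (mul_mem (c _) hx) (c _))

theorem yx_not {W : WeierstrassCurve ℤ} {x y : K} (e : eW W x y = 0) {S : Subring K}
    (hi : x⁻¹ ∈ S) (hx : x ∉ S) : y * x⁻¹ ∉ S := by
  intro h
  have x0 : x ≠ 0 := fun h0 => hx (h0 ▸ zero_mem _)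
  have : x = (y * x⁻¹) ^ 2 + W.a₁ * (y * x⁻¹) + W.a₃ * (y * x⁻¹ * x⁻¹) -
      (W.a₂ + W.a₄ * x⁻¹ + W.a₆ * x⁻¹ ^ 2) := by
    unfold eW at e
    field_simp
    linear_combination -e
  apply hx
  rw [this]
  have c := fun n : ℤ => intCast_mem S n
  exact sub_mem (add_mem (add_mem (pow_mem h 2) (mul_mem (c _) h)) (mul_mem (c _) (mul_mem h hi)))
    (add_mem (add_mem (c _) (mul_mem (c _) hi)) (mul_mem (c _) (pow_mem hi 2)))

theorem a1_le {x y : K} {S : Subring K} (hx : x ∈ S) (hy : y ∈ S) : A1 x y ≤ S :=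
  Subring.closure_le.2 (by rintro z (rfl | rfl) <;> assumption)

theorem ver_inv (L : LcS) {x y : K} (h : Ch1 x y) {p : ℕ} {G : Subring K} (hG : Ver x y p G) :
    (p : K)⁻¹ ∉ G := by
  obtain ⟨hp, q, _, rfl, rfl⟩ := hG
  intro hi
  exact ((L K _).inv _ (p : A1 x y) (h.pr p hp).2.2).1 (by simpa using hi)
    (Ideal.mem_span_singleton_self _)

end WGeo3

open WGeo3

theorem wGeo3 : OfGeo3 := by
  intro L W K _ _ x y Pt _ O κ _ r _ gn A I G
  have fin : ∀ (B S : Subring K) (q : Ideal B) [q.IsPrime] (h : B ≤ S), lc B q ≤ S →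
      (∀ a : B, a ∈ q ↔ ¬IsUnit (Subring.inclusion h a)) →
      H1 (A1 x y) (lc B q) ∨ Zer x y (lc B q) → ∃ C : Cv Pt, O C.1 = S := by
    intro B S q _ h hle hc hh
    obtain ⟨C, e⟩ := G.cve _ hh
    have hC := (G.cv C).2 (e ▸ hh)
    exact ⟨⟨C, hC⟩, e.trans (dom h hle hc fun z => e ▸ val (G.dv C hC) z)⟩
  have xA : x ∈ A1 x y := (xa x y).2
  have yA : y ∈ A1 x y := (ya x y).2
  refine ⟨fun C => ?_, fun P => ?_, fun p hp => ?_, fun p P h => ver_inv L A.toCh1 h (pinv P p),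
    fun p p' S S' h h' => ⟨fun e => ?_, fun e => ?_⟩, fun p p' S V h h' => ?_, fun p p' S h h' => ?_,
    fun C hx => ?_⟩
  · rcases (G.cv C.1).1 C.2 with ⟨q, hq, q0, qm, e⟩ | h
    · by_cases hp : ∃ p : ℕ, p.Prime ∧ (p : A1 x y) ∈ q
      · obtain ⟨p, hp, hm⟩ := hp
        refine Or.inr ⟨p, hp, q, hq, ?_, e⟩
        obtain ⟨h1, -, h3⟩ := A.pr p hp
        by_contra hn
        exact qm (A.dim _ q h1 hq (by simpa using h3)
          (lt_of_le_of_ne ((Ideal.span_singleton_le_iff_mem _).2 hm) (Ne.symm hn)))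
      · refine Or.inl (place (G.dv _ C.2) fun p h => ?_)
        rw [e]
        simpa using ((L K _).inv q (p : A1 x y) (A.pr p h).2.2).2 fun hm => hp ⟨p, h, hm⟩
    · refine Or.inl (place (G.dv _ C.2) fun p hp => ?_)
      simpa using WGeo3.inv_mem (h.int p (by exact_mod_cast hp.ne_zero))
  · have : IsLocalRing P.V.toSubring := inferInstanceAs (IsLocalRing P.V)
    have hv : ∀ z : K, z ∈ P.V.toSubring ∨ z⁻¹ ∈ P.V.toSubring := P.V.mem_or_inv_mem
    by_cases hx : x ∈ P.V.toSubring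
    · have h := a1_le hx (y_mem gn.eq hv hx)
      obtain ⟨q, hq, hle, hc⟩ := (L K _).cen _ h
      refine fin _ _ q h hle hc (Or.inl ⟨q, hq, fun h0 => P.ne ?_, fun hm => ?_, rfl⟩)
      · rw [((L K _).top q A.frac).2 h0] at hle
        exact top_unique fun z _ => hle (Subring.mem_top z)
      · obtain ⟨-, p, hp, hm⟩ := A.mx q hm
        exact nop P h hc hp hm
    · have hi := (hv x).resolve_left hx
      have h1 := yx_not gn.eq hi hx
      have h2 : y ∉ P.V.toSubring := fun hy => h1 (mul_mem hy hi)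
      have e1 : (x / y)⁻¹ = y * x⁻¹ := by rw [inv_div, div_eq_mul_inv]
      have e2 : (1 / y)⁻¹ = y := by rw [one_div, inv_inv]
      have h : A2 x y ≤ P.V.toSubring := a1_le ((hv _).resolve_right (e1 ▸ h1))
        ((hv _).resolve_right (e2.symm ▸ h2))
      obtain ⟨q, hq, hle, hc⟩ := (L K _).cen _ h
      have hI : Inf q := by
        intro a ha
        refine (hc a).2 fun hu => ?_
        have := WGeo3.inv_mem hu
        change (a : K)⁻¹ ∈ _ at this
        rcases ha with ha | ha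
        · exact h1 (by rwa [ha, e1] at this)
        · exact h2 (by rwa [ha, e2] at this)
      obtain ⟨V, hV, hz⟩ := I.zer
      refine fin _ _ q h hle hc (Or.inr ?_)
      rw [hz q hI fun hm => ?_]
      · exact hV
      · obtain ⟨p, hp, hm⟩ := I.mx q hm hI
        exact nop P h hc hp hm
  · obtain ⟨h1, h2, h3⟩ := A.pr p hp
    have hh : H1 (A1 x y) (lc _ (Ideal.span {(p : A1 x y)})) :=
      ⟨_, h1, by simpa using h3, h2, rfl⟩
    obtain ⟨C, e⟩ := G.cve _ (Or.inl hh)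
    exact ⟨⟨C, (G.cv C).2 (Or.inl (e ▸ hh))⟩, hp, _, h1, rfl, e⟩
  · subst e
    obtain ⟨-, q, _, rfl, rfl⟩ := h
    obtain ⟨-, q, _, rfl, rfl⟩ := h'
    rfl
  · subst e
    by_contra hn
    have h1 := ver_inv L A.toCh1 h
    obtain ⟨hp', q, _, rfl, rfl⟩ := h'
    refine h1 ?_
    have := ((L K _).inv (Ideal.span {(p' : A1 x y)}) (p : A1 x y) (A.pr p h.1).2.2).2 fun hm => ?_
    · simpa using this
    have hd := ((A.memp p' (p : A1 x y) (C (p : ℤ)) 0 (by simp [gv])).1 hm).1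
    rw [C_dvd_iff_dvd_coeff] at hd
    have := hd 0
    rw [coeff_C_zero, Int.natCast_dvd_natCast, Nat.prime_dvd_prime_iff_eq hp' h.1] at this
    exact hn this.symm
  · rcases h with ⟨hp, m, _, hm, pm, rfl⟩ | h
    · obtain ⟨hp', q, _, rfl, rfl⟩ := h'
      rw [(L K _).le, Ideal.span_singleton_le_iff_mem]
      refine ⟨fun h => ?_, fun e => e ▸ pm⟩
      by_contra hn
      obtain ⟨a, b, e⟩ : IsCoprime (p' : A1 x y) (p : A1 x y) :=
        ((Nat.coprime_primes hp' hp).2 hn).cast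
      exact hm.ne_top ((Ideal.eq_top_iff_one _).2
        (e ▸ add_mem (m.mul_mem_left _ h) (m.mul_mem_left _ pm)))
    · obtain ⟨-, -, -, hu, -, hG⟩ := I.reg p S h
      refine ⟨fun hle => ?_, fun e => ?_⟩
      · by_contra hn
        refine ver_inv L A.toCh1 h' (hle ?_)
        have := WGeo3.inv_mem (hu p' fun hd => hn
          ((Nat.prime_dvd_prime_iff_eq h.1 h'.1).1 (Int.natCast_dvd_natCast.1 hd)).symm)
        simpa using this
      · subst e
        obtain ⟨q, _, -, -, -, rfl⟩ := hG V h'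
        exact le_lc _ q
  · obtain ⟨-, m, _, -, -, rfl⟩ := h
    exact (I.reg p' _ h').2.2.1 (le_lc _ m yA)
  · rcases (G.cv C.1).1 C.2 with ⟨q, hq, -, -, e⟩ | h
    · exact absurd (e ▸ le_lc _ q xA) hx
    · exact h

end Pool.Agent.MP_f3836a_nt.VE.W
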