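import Pool.Agent.MP_f3836a_nt.VE.SpecW4

/-! Part W4: horizontal curves are places. -/

set_option autoImplicit false

namespace Pool.Agent.MP_f3836a_nt.VE.W

open Polynomial IsLocalRing PK VE.A VE.T

namespace WHor

theorem dvr_eq {K : Type} [Field K] {S S' : Subring K} (e : S = S')
    (h : IsDiscreteValuationRing S) : IsDiscreteValuationRing S' := by
  subst e
  exact h

theorem one {κ : Type} [Field κ] {lam : κ → ℚ} (h : Addv lam) : lam 1 = 0 := by
  have := h 1 1 one_ne_zero one_ne_zero
  rw [mul_one] at this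
  linarith

end WHor

open WHor

theorem wHor : OfHor := by
  intro hT W K _ _ x y Pt _ O κ _ r _ _ hG hF lam Cp s hl hV hs h0 hz
  choose CP hCP using hG.ple
  have hdv : ∀ C : Cv Pt, DV (O C.1) (r C.1) := fun C => hG.dv C.1 C.2
  have hE : ∀ P : Place K, ∃ e : κ (CP P).1 ≃+* ResidueField P.V,
      ∀ f g, e (tameR (O (CP P).1) (r (CP P).1) f g) = P.tame f g := fun P => by
    obtain ⟨e, -, -, he⟩ := hT K _ _ (RingEquiv.refl K) _ _ _ _ (hdv (CP P))
      (P.dv (dvr_eq (hCP P) (hdv (CP P)).dvr)) (fun z => by rw [hCP P]; rfl)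
    exact ⟨e, he⟩
  choose e he using hE
  have hne : ∀ (P : Place K) a, a ≠ 0 → (e P).symm a ≠ 0 := fun P a ha =>
    (map_ne_zero_iff _ (e P).symm.injective).2 ha
  refine ⟨fun P a => lam (CP P) ((e P).symm a), fun P a b ha hb => ?_, fun P a ha hx => ?_,
    fun g h hg hh => ?_, fun H C P hC u hu => ?_⟩
  · simp only [map_mul]
    exact hl _ _ _ (hne P a ha) (hne P b hb)
  · exact hz _ (by rw [hCP P]; exact hx) _ (hne P a ha)
  · have hfin : (Function.support fun C : Cv Pt =>
        lam C (tameR (O C.1) (r C.1) g h)).Finite := by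
      refine ((hF.ord g).union (hF.ord h)).subset fun C hC => ?_
      by_contra hn
      simp only [Set.mem_union, Set.mem_ofPred_eq, not_or, not_not] at hn
      exact hC (by simp only [(rDVA _ _ _ _ (hdv C)).one g h hn.1 hn.2, one (hl C)])
    have hu : (Set.univ : Set (Cv Pt)) = Set.range CP ∪ Cp '' {p | p.Prime} := by
      refine (Set.eq_univ_of_forall fun C => ?_).symm
      rcases hG.plc C with ⟨P, hP⟩ | ⟨p, hp⟩
      · exact Or.inl ⟨P, Subtype.ext (hG.inj ((hCP P).trans hP.symm))⟩
      · exact Or.inr ⟨p, hp.1, Subtype.ext (hG.inj ((hG.veq p p _ _ (hV p hp.1) hp).1 rfl))⟩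
    have hd : Disjoint (Set.range CP) (Cp '' {p | p.Prime}) := by
      rw [Set.disjoint_left]
      rintro _ ⟨P, rfl⟩ ⟨p, hp, hc⟩
      have := hV p hp
      rw [hc, hCP P] at this
      exact hG.exc p P this
    have hi : Function.Injective CP := fun P Q hPQ => by
      have h1 : P.V.toSubring = Q.V.toSubring := by rw [← hCP P, ← hCP Q, hPQ]
      exact Place.ext (ValuationSubring.toSubring_injective h1)
    have hi' : Set.InjOn Cp {p | p.Prime} := fun p hp q hq hpq =>
      (hG.veq p q _ _ (hV p hp) (hV q hq)).2 (by rw [hpq])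
    rw [← finsum_mem_univ, hu, finsum_mem_union' hd (hfin.inter_of_right _)
      (hfin.inter_of_right _), finsum_mem_range hi, finsum_mem_image hi']
    congr 1
    · exact finsum_congr fun P => by simp only [← he P, RingEquiv.symm_apply_apply]
    · refine finsum_mem_eq_sum_of_inter_support_eq _ (Set.ext fun p => ⟨fun hp => ⟨?_, hp.2⟩,
        fun hp => ⟨hs p hp.1, hp.2⟩⟩)
      by_contra hn
      exact hp.2 (h0 p hp.1 hn _ ((rDVA _ _ _ _ (hdv _)).ne g h hg hh))
  · obtain rfl : C = CP P := Subtype.ext (hG.inj (hC.trans (hCP P).symm))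
    have := H P (e P u) ((map_ne_zero_iff _ (e P).injective).2 hu)
    simpa only [RingEquiv.symm_apply_apply] using this

end Pool.Agent.MP_f3836a_nt.VE.W
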