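import Pool.Agent.MP_f3836a_nt.VE.SpecW4

/-! The key lemma at points fixed by the involution and at all closed points. -/

set_option autoImplicit false

namespace Pool.Agent.MP_f3836a_nt.VE.W

open Polynomial IsLocalRing PK VE.A VE.T

namespace WKeyS

/-- a skew bimultiplicative pairing -/
structure Sk {K : Type} [Field K] (k : K → K → ℤ) : Prop where
  mul : ∀ f f' g, f ≠ 0 → f' ≠ 0 → g ≠ 0 → k (f * f') g = k f g + k f' g
  skew : ∀ f g, f ≠ 0 → g ≠ 0 → k f g = -k g f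

section
variable {K : Type} [Field K] {k : K → K → ℤ} {x : K}

theorem Sk.unit (h : Sk k) {u : ℤ[X]} (hu : IsUnit u) {g : K} (hg : g ≠ 0) :
    k (aeval x u) g = 0 := by
  have h1 : k 1 g = 0 := by
    have := h.mul 1 1 g one_ne_zero one_ne_zero hg
    rw [one_mul] at this
    omega
  obtain ⟨r, hr, rfl⟩ := Polynomial.isUnit_iff.mp hu
  rcases Int.isUnit_iff.mp hr with rfl | rfl
  · rw [C_1, map_one, h1]
  · have := h.mul (-1) (-1) g (by simp) (by simp) hg
    rw [neg_mul_neg, one_mul, h1] at this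
    rw [C_neg, C_1, map_neg, map_one]
    omega

theorem Sk.int (h : Sk k) (h0 : ∀ A : ℤ[X], A ≠ 0 → aeval x A ≠ 0)
    (hp : ∀ π π' : ℤ[X], Prime π → Prime π' → ¬Associated π π' → k (aeval x π) (aeval x π') = 0)
    (A B : ℤ[X]) (hA : A ≠ 0) (hB : B ≠ 0) : k (aeval x A) (aeval x B) = 0 := by
  have ind : ∀ g : K, g ≠ 0 → (∀ π : ℤ[X], Prime π → k (aeval x π) g = 0) →
      ∀ A : ℤ[X], A ≠ 0 → k (aeval x A) g = 0 := fun g hg H A => by
    refine UniqueFactorizationMonoid.induction_on_prime A (fun e => absurd rfl e)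
      (fun u hu _ => h.unit hu hg) fun a p ha hp ih _ => ?_
    rw [map_mul, h.mul _ _ _ (h0 p hp.ne_zero) (h0 a ha) hg, H p hp, ih ha, add_zero]
  refine ind _ (h0 B hB) (fun π hπ => ?_) A hA
  have n0 := h0 π hπ.ne_zero
  rw [h.skew _ _ n0 (h0 B hB), ind _ n0 (fun π' hπ' => ?_) B hB, neg_zero]
  by_cases e : Associated π π'
  · obtain ⟨u, rfl⟩ := e
    have := h.skew _ _ n0 n0
    rw [map_mul, h.mul _ _ _ n0 (h0 _ u.ne_zero) n0, h.unit u.isUnit n0]
    omega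
  · exact hp π' π hπ' hπ fun e' => e e'.symm

variable [CharZero K]

theorem clear (x : K) (q : ℚ[X]) (hq : q ≠ 0) :
    ∃ A N : ℤ[X], A ≠ 0 ∧ N ≠ 0 ∧ aeval x q * aeval x N = aeval x A := by
  obtain ⟨b, hb, e⟩ := IsLocalization.integerNormalization_spec (nonZeroDivisors ℤ) q
  refine ⟨_, C b, fun e0 => hq (IsFractionRing.integerNormalization_eq_zero_iff.mp e0),
    C_ne_zero.mpr (nonZeroDivisors.ne_zero hb), ?_⟩
  rw [← aeval_map_algebraMap ℚ x (IsLocalization.integerNormalization _ q), e, map_zsmul,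
    aeval_C, zsmul_eq_mul, mul_comm, eq_intCast]

theorem ne_rat (h0 : ∀ A : ℤ[X], A ≠ 0 → aeval x A ≠ 0) (q : ℚ[X]) (hq : q ≠ 0) :
    aeval x q ≠ 0 := fun e => by
  obtain ⟨A, N, hA, -, h⟩ := clear x q hq
  exact h0 A hA (by rw [← h, e, zero_mul])

theorem Sk.rat (h : Sk k) (h0 : ∀ A : ℤ[X], A ≠ 0 → aeval x A ≠ 0)
    (hi : ∀ A B : ℤ[X], A ≠ 0 → B ≠ 0 → k (aeval x A) (aeval x B) = 0)
    (p q : ℚ[X]) (hp : p ≠ 0) (hq : q ≠ 0) : k (aeval x p) (aeval x q) = 0 := by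
  have ind : ∀ g : K, g ≠ 0 → (∀ A : ℤ[X], A ≠ 0 → k (aeval x A) g = 0) →
      ∀ p : ℚ[X], p ≠ 0 → k (aeval x p) g = 0 := fun g hg H p hp => by
    obtain ⟨A, N, hA, hN, e⟩ := clear x p hp
    have := h.mul _ _ g (ne_rat h0 p hp) (h0 N hN) hg
    rw [e, H A hA, H N hN] at this
    omega
  refine ind _ (ne_rat h0 q hq) (fun A hA => ?_) p hp
  rw [h.skew _ _ (h0 A hA) (ne_rat h0 q hq),
    ind _ (h0 A hA) (fun B hB => hi B A hB hA) q hq, neg_zero]

end

section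
variable {K : Type} [Field K] {x y : K} {W : WeierstrassCurve ℤ}

theorem coe_aeval (A : ℤ[X]) : ((aeval (xa x y) A : A1 x y) : K) = aeval x A :=
  (aeval_algHom_apply (A1 x y).subtype.toIntAlgHom (xa x y) A).symm

theorem coe_eY : ((eY W (xa x y) (ya x y) : A1 x y) : K) = eY W x y := rfl

variable {σ : K ≃+* K} (hx : σ x = x) (hy : σ y = y - eY W x y)
include hx hy

theorem sig_gv (A B : ℤ[X]) : σ (gv x y A B) = gv x y A B - aeval x B * eY W x y := by
  have e : ∀ A : ℤ[X], σ (aeval x A) = aeval x A := fun A => by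
    have := aeval_algHom_apply (σ : K →+* K).toIntAlgHom x A
    exact this.symm.trans (congrArg (fun z => aeval z A) hx)
  rw [gv, map_add, map_mul, e, e, hy]
  ring

theorem sig_sig (c : Ch1 x y) (z : K) : σ (σ z) = z := by
  have e : ∀ a : A1 x y, σ (σ a) = a := fun a => by
    obtain ⟨A, B, h⟩ := (c.mem a).mp a.2
    have e1 : σ (eY W x y) = -eY W x y := by
      have := hy
      simp only [eY, map_add, map_mul, map_ofNat, map_intCast, hx] at this ⊢
      rw [this]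
      ring
    have e2 : σ (aeval x B) = aeval x B := by
      have := sig_gv hx hy B 0
      simpa [gv] using this
    rw [h, sig_gv hx hy, map_sub, map_mul, sig_gv hx hy, e1, e2]
    ring
  obtain ⟨a, b, hb, h⟩ := c.frac z
  refine mul_right_cancel₀ hb ?_
  rw [h, ← e a, ← h, map_mul, map_mul, e b]

theorem sig_mem (c : Ch1 x y) {m : Ideal (A1 x y)} [m.IsPrime]
    (hm : eY W (xa x y) (ya x y) ∈ m) (z : K) : z ∈ lc _ m ↔ σ z ∈ lc _ m := by
  have e : ∀ a : A1 x y, ∃ a' : A1 x y, (a' : K) = σ a ∧ a - a' ∈ m := fun a => by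
    obtain ⟨A, B, h⟩ := (c.mem a).mp a.2
    refine ⟨a - aeval (xa x y) B * eY W (xa x y) (ya x y), ?_, ?_⟩
    · rw [AddSubgroupClass.coe_sub, Subring.coe_mul, coe_aeval, coe_eY, h, sig_gv hx hy]
    · rw [sub_sub_cancel]
      exact m.mul_mem_left _ hm
  have f : ∀ z : K, z ∈ lc _ m → σ z ∈ lc _ m := fun z hz => by
    obtain ⟨a, b, hb, h⟩ := mem_lc.mp hz
    obtain ⟨a', ha', -⟩ := e a
    obtain ⟨b', hb', hb''⟩ := e b
    refine mem_lc.mpr ⟨a', b', fun h' => hb ?_, by rw [ha', hb', ← h, map_mul]⟩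
    simpa using m.add_mem hb'' h'
  exact ⟨f z, fun h => sig_sig hx hy c z ▸ f _ h⟩

end

end WKeyS

open WKeyS in
theorem wKeyS : OfKeyS := by
  intro hLc hQ hKb hFul hKs W K _ _ x y _ G c m _ I O κ _ r hm hY hT f g hf hg
  have hL := (hLc K (A1 x y)).loc c.dim2 m hm
  obtain ⟨-, k1, k2, k3⟩ := hKb K _ I O κ r hL hT
  obtain ⟨σ, hx, hy⟩ := c.sig
  have hS : Sk (Kf (lc _ m) O r) := ⟨k1, k2⟩
  have h0 : ∀ A : ℤ[X], A ≠ 0 → aeval x A ≠ 0 := fun A hA e =>
    hA (G.ind A 0 (by rw [gv, e, map_zero, zero_mul, add_zero])).1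
  have hr := hS.rat h0 (hS.int h0 fun π π' hπ hπ' hn => by
    have := hFul K _ I O κ r hL hT (Subring.inclusion (le_lc _ m) (aeval (xa x y) π))
      (Subring.inclusion (le_lc _ m) (aeval (xa x y) π'))
      ⟨fun e => h0 π hπ.ne_zero (coe_aeval (y := y) π ▸ congrArg Subtype.val e),
        fun e => h0 π' hπ'.ne_zero (coe_aeval (y := y) π' ▸ congrArg Subtype.val e),
        fun q' hq' h1 h2 => by
          obtain ⟨q, hq, l⟩ := (hLc K (A1 x y)).dn m q'
          exact l.max.mpr ((c.cop π π' q hπ hπ' hn hq ((l.mem _).mpr h1)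
            ((l.mem _).mpr h2)).eq_of_le hm.ne_top l.le)⟩
    rwa [Subring.coe_inclusion, Subring.coe_inclusion, coe_aeval, coe_aeval] at this)
  have key := hQ K x (y + (W.a₁ * x + W.a₃) / 2) (fW W) σ (fun f g => (Kf (lc _ m) O r f g : ℚ))
    ?_ hx ?_ (ne_rat h0) ?_ (fun a b d ha hb hd => by rw [k1 a b d ha hb hd, Int.cast_add])
    (fun a b ha hb => by rw [k2 a b ha hb, Int.cast_neg])
    (fun a ha hb => by rw [k3 a ha hb, Int.cast_zero])
    (fun a b ha hb => by rw [hKs K _ I O κ r hL hT σ (sig_mem hx hy c.toCh1 hY) a b ha hb])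
    (fun a b ha hb => ?_) (fun a π ha hπ _ => ?_)
    (fun π π' hπ _ hπ' _ _ => by rw [hr π π' hπ.ne_zero hπ'.ne_zero, Int.cast_zero]) f g hf hg
  · exact_mod_cast key
  · have e := G.eq
    simp only [eW, fW, WeierstrassCurve.b₂, WeierstrassCurve.b₄, WeierstrassCurve.b₆, map_add,
      map_mul, map_pow, aeval_X, aeval_C, eq_ratCast] at e ⊢
    push_cast
    linear_combination e
  · simp only [map_add, map_div₀, map_mul, map_intCast, map_ofNat, hx, hy, eY]
    ring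
  · intro z
    obtain ⟨A, B, D, hD, e⟩ := G.frac z
    refine ⟨A.map (algebraMap ℤ ℚ) - B.map (algebraMap ℤ ℚ) *
      (C ((W.a₁ : ℚ) / 2) * X + C ((W.a₃ : ℚ) / 2)), B.map (algebraMap ℤ ℚ),
      D.map (algebraMap ℤ ℚ), (Polynomial.map_ne_zero_iff (algebraMap ℤ ℚ).injective_int).mpr hD,
      ?_⟩
    simp only [map_sub, map_add, map_mul, aeval_map_algebraMap, aeval_X, aeval_C, eq_ratCast, e,
      gv]
    push_cast
    ring
  · rw [← aeval_C x a, ← aeval_C x b, hr _ _ (C_ne_zero.mpr ha) (C_ne_zero.mpr hb), Int.cast_zero]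
  · rw [← aeval_C x a, hr _ _ (C_ne_zero.mpr ha) hπ.ne_zero, Int.cast_zero]

theorem wKeyA : OfKeyA := by
  intro hSm hU hS W K _ _ x y Pt _ O κ _ r hΔ G geo z f g hf hg
  obtain ⟨hL, hT⟩ := geo.thr z
  obtain ⟨p, h | h⟩ := (geo.cl z.1).mp z.2
  · obtain ⟨hp, m, _, hm, hpm, e⟩ := h
    rw [e] at hL hT ⊢
    by_cases hY : eY W (xa x y) (ya x y) ∈ m
    · exact hS W K x y hΔ G geo.cha m _ _ _ _ hm hY hT f g hf hg
    · exact hU K _ _ _ _ _ hL hT (hSm W K x y hΔ G geo.cha m p hm hp hpm fun a => hY a.2).1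
        f g hf hg
  · exact hU K _ _ _ _ _ hL hT (geo.chi.reg p _ h).2.1 f g hf hg

end Pool.Agent.MP_f3836a_nt.VE.W
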