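import Pool.Agent.MP_f3836a_nt.VE.SpecW4

/-! Part W: the main argument. -/

set_option autoImplicit false

namespace Pool.Agent.MP_f3836a_nt.VE.W

open PK

namespace WMain

theorem ord_one {L : Type} [Field L] (R : Subring L) : ordR R 1 = 0 := by
  unfold ordR
  split_ifs with h
  · have e : h.2.choose.2 = h.2.choose.1 :=
      Subtype.ext ((one_mul _).symm.trans h.2.choose_spec.2)
    rw [e, sub_self]
  · rfl

theorem od_one {K κ : Type} [Field K] [Field κ] (O : Subring K) (r : O →+* κ) (D : Subring K) :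
    od O r D 1 = 0 := by
  unfold od
  rw [ord_one, ite_self]

theorem lam_one {κ : Type} [Field κ] {lam : κ → ℚ} (h : Addv lam) : lam 1 = 0 := by
  have := h 1 1 one_ne_zero one_ne_zero
  rw [mul_one] at this
  linarith

theorem sum_cv {Pt M : Type} [Preorder Pt] [AddCommMonoid M] (f : Pt → M)
    (h : ∀ C, Order.height C ≠ 1 → f C = 0) : ∑ᶠ C : Cv Pt, f C.1 = ∑ᶠ C, f C := by
  rw [finsum_subtype_eq_finsum_cond (f := f) fun C => Order.height C = 1]
  refine finsum_congr fun C => ?_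
  by_cases hC : Order.height C = 1
  · simp [hC]
  · simp [hC, h C hC]

end WMain

open WMain

theorem wMain : OfMain := by
  intro cha chi g1 g2 g3 finx keya cobs zeros vers reds W K _ _ x y Pt _ O κ _ r hΔ gn dc
  have hA := cha W K x y hΔ gn
  have hI := chi W K x y hΔ gn hA
  have G1 := g1 W K x y Pt O κ r hΔ gn dc hA hI
  have G : Geo x y O r W :=
    ⟨G1, g3 W K x y Pt O κ r hΔ gn hA hI G1, hA, hI, g2 W K x y Pt O κ r hΔ gn hA hI G1⟩
  have F := finx W K x y Pt O κ r hΔ gn G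
  refine ⟨G1.top, G1.dv, fun f => ((F.ord f).image Subtype.val).subset
    fun C hC => ⟨⟨C, hC.1⟩, hC.2, rfl⟩, fun φ lam h0 hfin hht hod hlam htame => ?_⟩
  obtain ⟨V, hV, hu⟩ := hI.zer
  obtain ⟨c0, rfl⟩ := G1.cve V (Or.inr hV)
  have hc0 : Order.height c0 = 1 := (G1.cv c0).2 (Or.inr hV)
  have uq : ∀ C : Cv Pt, x ∉ O C.1 → C = ⟨c0, hc0⟩ := fun C h => by
    obtain ⟨q, _, h1, h2, e⟩ := (G.zer C h).pt
    exact Subtype.ext (G1.inj (e.trans (hu q h1 h2)))
  choose Cp hCp using G.vee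
  choose αp hαp hVn using fun (p : ℕ) (hp : p.Prime) =>
    vers W K x y Pt O κ r hΔ gn G F (Cp p hp) p (lam _) (lam c0 p) (hCp p hp) (hlam _)
  choose pz hpz using fun z : Cl Pt => (G1.cl z.1).1 z.2
  have pr : ∀ z, (pz z).Prime := fun z => (hpz z).elim And.left And.left
  have hα : ∀ p hp z, O z.1 ≤ O (Cp p hp).1 → αp (pz z) (pr z) z = αp p hp z := fun p hp z h => by
    obtain rfl := (G.on _ _ _ _ (hpz z) (hCp p hp)).1 h
    rfl
  obtain ⟨c1, c2⟩ := cobs (Cv Pt) (Cl Pt) (fun C => κ C.1)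
    (fun C z => od (O C.1) (r C.1) (O z.1)) (fun z => αp (pz z) (pr z) z) F.mul F.fin
  have key := reds W K x y Pt O κ r hΔ gn G F
    (fun C u => lam C.1 u - cob O r (fun z => αp (pz z) (pr z) z) C u)
    (fun C f g hf hg => ?_) (fun g h hg hh => ?_) (fun C hC u hu => ?_) (fun C p hC => ?_)
  · have h1 : ∀ C, Order.height C ≠ 1 → φ C = 1 := fun C h => not_not.1 fun e => h (hht C e)
    rw [← sum_cv _ fun C h => by rw [h1 C h, lam_one (hlam C)],
      ← c2 (fun C => φ C.1) (fun C => lam C.1) (fun C => h0 _)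
        (hfin.preimage Subtype.val_injective.injOn) (fun z => ?_) fun C => hlam _]
    · exact finsum_eq_zero_of_forall_eq_zero fun C => key C _ (h0 _)
    · rw [sum_cv (fun C => od (O C) (r C) (O z.1) (φ C)) fun C h => by rw [h1 C h, od_one]]
      exact hod z.1 z.2
  · have e := c1 C f g hf hg
    simp only [cob] at e ⊢
    rw [e, hlam C.1 f g hf hg]
    ring
  · refine (c2 (fun C => tameR (O C.1) (r C.1) g h) (fun C => lam C.1)
      (fun C => (rDVA _ _ _ _ (G1.dv C.1 C.2)).ne g h hg hh)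
      (((F.ord g).union (F.ord h)).subset fun C hC => ?_)
      (fun z => keya W K x y Pt O κ r hΔ gn G z g h hg hh) fun C => hlam _).trans ?_
    · by_contra hn
      simp only [Set.mem_union, Set.mem_ofPred_eq, not_or, not_not] at hn
      exact hC ((rDVA _ _ _ _ (G1.dv C.1 C.2)).one g h hn.1 hn.2)
    · rw [finsum_subtype_eq_finsum_cond (f := fun C => lam C (tameR (O C) (r C) g h))
        fun C => Order.height C = 1]
      exact htame g h hg hh
  · obtain rfl := uq C hC
    refine sub_eq_zero.2 (zeros W K x y Pt O κ r hΔ gn G F _ _ _ hC (hlam _)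
      (fun p z hz => ?_) u hu)
    rw [hα p hz.1 z ((G.on _ _ _ _ (Or.inr hz) (hCp p hz.1)).2 rfl)]
    exact hαp p hz.1 z hz
  · obtain ⟨hp, -⟩ := id hC
    obtain rfl : C = Cp p hp := Subtype.ext (G1.inj ((G.veq _ _ _ _ hC (hCp p hp)).1 rfl))
    have e : ∀ u, cob O r (fun z => αp (pz z) (pr z) z) (Cp p hp) u =
        cob O r (αp p hp) (Cp p hp) u := fun u => finsum_congr fun z => by
      by_cases h : O z.1 ≤ O (Cp p hp).1
      · exact congrArg _ (hα p hp z h)
      · simp only [od, if_neg h, Int.cast_zero, zero_mul]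
    simp only [e]
    exact hVn p hp

end Pool.Agent.MP_f3836a_nt.VE.W
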