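import Pool.Agent.MP_f3836a_nt.VE.SpecW4
import Pool.Agent.MP_f3836a_nt.VE.TMod

/-! The model over the rationals and the affine chart. -/

set_option autoImplicit false

namespace Pool.Agent.MP_f3836a_nt.VE.W

open Polynomial IsLocalRing PK VE.A VE.T

namespace WMod

variable {K : Type} [Field K] [CharZero K] {W : WeierstrassCurve ℤ} {x y : K}

/-- the linear correction -/
noncomputable def lW (W : WeierstrassCurve ℤ) : ℚ[X] := C (1 / 2) * (C (W.a₁ : ℚ) * X + C (W.a₃ : ℚ))

theorem yW_eq (x y : K) : yW W x y = y + aeval x (lW W) := by simp [yW, lW]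

theorem coe_yW : ((yW W (xq x y) (yq x y) : Rq x y) : K) = yW W x y := by simp [yW, xq, yq]

theorem sq (h : eW W x y = 0) : yW W x y ^ 2 = aeval x (fW W) := by
  simp only [eW] at h
  simp [yW, fW, WeierstrassCurve.b₂, WeierstrassCurve.b₄, WeierstrassCurve.b₆]
  linear_combination h

theorem clear (x : K) (A : ℚ[X]) : ∃ (n : ℤ) (A' : ℤ[X]), n ≠ 0 ∧ aeval x A' = n * aeval x A ∧
    (A' = 0 → A = 0) := by
  obtain ⟨n, hn, e⟩ := IsLocalization.integerNormalization_spec (nonZeroDivisors ℤ) A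
  refine ⟨n, _, nonZeroDivisors.ne_zero hn, ?_, IsFractionRing.integerNormalization_eq_zero_iff.1⟩
  rw [← aeval_map_algebraMap ℚ, e, map_zsmul, zsmul_eq_mul]

theorem ind (h : Gn W x y) (A B : ℚ[X]) (e : aeval x A + aeval x B * y = 0) : A = 0 ∧ B = 0 := by
  obtain ⟨n, A', n0, a1, a2⟩ := clear x A
  obtain ⟨m, B', m0, b1, b2⟩ := clear x B
  obtain ⟨c1, c2⟩ := h.ind (C m * A') (C n * B') (by
    simp only [gv, map_mul, a1, b1, eq_intCast, map_intCast]
    linear_combination (m * n : K) * e)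
  exact ⟨a2 ((mul_eq_zero.1 c1).resolve_left (C_ne_zero.2 m0)),
    b2 ((mul_eq_zero.1 c2).resolve_left (C_ne_zero.2 n0))⟩

theorem gen (h : eW W x y = 0) {z : K} (hz : z ∈ Rq x y) :
    ∃ A B : ℚ[X], z = aeval x A + aeval x B * yW W x y := by
  induction hz using Algebra.adjoin_induction with
  | mem z hz =>
    rcases hz with rfl | rfl
    · exact ⟨X, 0, by simp⟩
    · exact ⟨-lW W, 1, by simp [yW_eq]⟩
  | algebraMap q => exact ⟨C q, 0, by simp⟩
  | add _ _ _ _ a b =>
    obtain ⟨A, B, rfl⟩ := a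
    obtain ⟨A', B', rfl⟩ := b
    exact ⟨A + A', B + B', by simp only [map_add]; ring⟩
  | mul _ _ _ _ a b =>
    obtain ⟨A, B, rfl⟩ := a
    obtain ⟨A', B', rfl⟩ := b
    exact ⟨A * A' + fW W * (B * B'), A * B' + A' * B, by
      simp only [map_add, map_mul, ← sq h]; ring⟩

theorem a1_le : A1 x y ≤ (Rq x y).toSubring :=
  Subring.closure_le.2 (Algebra.subset_adjoin (R := ℚ))

omit [CharZero K] in
theorem nat_not {B : Subring K} {q : Ideal B} [h : q.IsPrime]
    (hq : ∀ p : ℕ, p.Prime → (p : B) ∉ q) (n : ℕ) : n ≠ 0 → (n : B) ∉ q := by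
  induction n using induction_on_primes with
  | zero => exact fun e => absurd rfl e
  | one => exact fun _ e => h.ne_top ((Ideal.eq_top_iff_one q).2 (by simpa using e))
  | prime_mul p a hp ih =>
    rw [Nat.cast_mul]
    exact fun e f => (h.mem_or_mem f).elim (hq p hp) (ih (right_ne_zero_of_mul e))

theorem rq_le {q : Ideal (A1 x y)} [q.IsPrime] (hq : ∀ p : ℕ, p.Prime → (p : A1 x y) ∉ q) :
    (Rq x y).toSubring ≤ lc _ q := fun z (hz : z ∈ Rq x y) => by
  induction hz using Algebra.adjoin_induction with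
  | mem z hz => exact le_lc _ q (Subring.subset_closure hz)
  | algebraMap t => exact mem_lc.2 ⟨t.num, t.den, nat_not hq _ t.den_ne_zero, by
      simp [Rat.cast_def, t.den_ne_zero]⟩
  | add _ _ _ _ a b => exact add_mem a b
  | mul _ _ _ _ a b => exact mul_mem a b

end WMod

open WMod

theorem wMod : ModS := by
  intro W K _ _ x y hΔ h
  refine ⟨⟨by unfold fW; monicity!, by unfold fW; compute_degree!,
    TMod.sep_cubic _ _ _ fun e => hΔ ?_, Subtype.ext ?_, fun r => ?_, fun A B e => ?_⟩,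
    IsFractionRing.of_field _ _ fun z => ?_⟩
  · refine Int.cast_injective (α := ℚ) ?_
    simp only [WeierstrassCurve.Δ, WeierstrassCurve.b₂, WeierstrassCurve.b₄, WeierstrassCurve.b₆,
      WeierstrassCurve.b₈] at e ⊢
    push_cast at e ⊢
    linear_combination (-16 / 27 : ℚ) * e
  · rw [aeval_subalgebra_coe, SubmonoidClass.coe_pow, coe_yW]
    exact sq h.eq
  · obtain ⟨A, B, e⟩ := gen h.eq r.2
    exact ⟨A, B, Subtype.ext (by
      rw [e, Subalgebra.coe_add, Subalgebra.coe_mul, coe_yW, aeval_subalgebra_coe,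
        aeval_subalgebra_coe]; rfl)⟩
  · have := congrArg Subtype.val e
    rw [Subalgebra.coe_add, Subalgebra.coe_mul, coe_yW, aeval_subalgebra_coe,
      aeval_subalgebra_coe, yW_eq] at this
    obtain ⟨e1, e2⟩ := ind h (A + B * lW W) B (by
      rw [map_add, map_mul]; exact Eq.trans (by simp only [xq]; ring) this)
    exact ⟨by simpa [e2] using e1, e2⟩
  · obtain ⟨A, B, D, D0, e⟩ := h.frac z
    have a : ∀ P : ℤ[X], algebraMap (Rq x y) K (aeval (xq x y) P) = aeval x P := fun P =>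
      (aeval_algebraMap_apply K (xq x y) P).symm
    refine ⟨gv (xq x y) (yq x y) A B, aeval (xq x y) D, ?_⟩
    rw [gv, map_add, map_mul, a, a, a]
    exact (eq_div_iff fun e' => D0 (h.ind D 0 (by simp [gv, e'])).1).2 e

theorem wChA : OfChA := by
  intro hL hD hC h1 h2 hM W K _ _ x y hΔ h
  have c1 := h1 W K x y hΔ h
  have c2 := h2 W K x y hΔ h c1
  obtain ⟨m, _⟩ := hM W K x y hΔ h
  have L := hL K (A1 x y)
  refine ⟨c1, c2, ⟨c1.noeth, c1.frac, c2.dim, fun q _ q0 qm => ?_⟩, ?_⟩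
  · by_cases e : ∃ p : ℕ, p.Prime ∧ (p : A1 x y) ∈ q
    · obtain ⟨p, hp, e⟩ := e
      obtain ⟨p1, -, p3⟩ := c1.pr p hp
      have e' : Ideal.span {(p : A1 x y)} = q := not_not.1 fun n => qm (c2.dim _ q p1 ‹_›
        (mt Ideal.span_singleton_eq_bot.1 p3)
        (lt_of_le_of_ne ((Ideal.span_singleton_le_iff_mem _).2 e) n))
      have := L.noeth q c1.noeth
      have mx : maximalIdeal (lc _ q) = Ideal.span {(p : lc _ q)} := by
        rw [L.max q, ← map_natCast (Subring.inclusion (le_lc _ q)), ← Set.image_singleton,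
          ← Ideal.map_span, e']
      have pr : (maximalIdeal (lc _ q)).IsPrincipal := ⟨_, mx⟩
      refine ((IsDiscreteValuationRing.TFAE (lc _ q) fun f => ?_).out 0 4).2 pr
      rw [isField_iff_maximalIdeal_eq, mx, Ideal.span_singleton_eq_bot] at f
      exact hp.ne_zero (by exact_mod_cast congrArg Subtype.val f)
    · push Not at e
      obtain ⟨Q, _, Q1, Q2⟩ := (hL K _).cen (lc _ q) (rq_le e)
      have k : ∀ a : A1 x y, Subring.inclusion a1_le a ∈ Q ↔ a ∈ q := fun a =>
        (Q2 _).trans ((L.unit q a).not.trans not_not)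
      have e' : lc _ q = lc _ Q := le_antisymm (fun z hz => by
        obtain ⟨a, b, hb, e⟩ := mem_lc.1 hz
        exact mem_lc.2 ⟨Subring.inclusion a1_le a, _, (k b).not.2 hb, e⟩) Q1
      have : IsDedekindDomain (Rq x y).toSubring := hD (Rq x y) _ _ _ m
      rw [e']
      refine IsLocalization.AtPrime.isDiscreteValuationRing_of_dedekind_domain _ (P := Q) ?_ _
      rintro rfl
      exact q0 (eq_bot_iff.2 fun a ha => Subtype.ext (Subtype.ext_iff.1 ((k a).2 ha) :))
  · obtain ⟨σ, s1, s2⟩ := (hC (Rq x y) K _ _ _ m).1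
    change σ x = x at s1
    change σ ((yW W (xq x y) (yq x y) : Rq x y) : K) = -(yW W (xq x y) (yq x y) : Rq x y) at s2
    rw [coe_yW] at s2
    simp [yW, s1, map_ofNat] at s2
    exact ⟨σ, s1, by rw [eY]; linear_combination s2⟩

end Pool.Agent.MP_f3836a_nt.VE.W
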