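import Pool.Agent.MP_f3836a_nt.VE.SpecW4

/-! Reduced functionals vanish. -/

set_option autoImplicit false

namespace Pool.Agent.MP_f3836a_nt.VE.W

open Polynomial IsLocalRing PK VE.A VE.T

namespace WRed

variable {K : Type} [Field K] [CharZero K] (x y : K)

theorem coe_gv (A B : ℤ[X]) : ((gv (xq x y) (yq x y) A B : Rq x y) : K) = gv x y A B := by
  have e : ∀ q : ℤ[X], ((aeval (xq x y) q : Rq x y) : K) = aeval x q := fun q =>
    (aeval_algHom_apply ((Rq x y).val.toRingHom.toIntAlgHom) (xq x y) q).symm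
  rw [gv, gv, Subalgebra.coe_add, Subalgebra.coe_mul, e, e]
  rfl

theorem coe_ae (q : ℚ[X]) : ((aeval (xq x y) q : Rq x y) : K) = aeval x q :=
  (aeval_algHom_apply (Rq x y).val (xq x y) q).symm

theorem not_dv {p : ℕ} (hp : p.Prime) (A : ℤ[X]) : ¬Dv p A 1 := fun h =>
  (Nat.prime_iff_prime_int.1 hp).not_isUnit (isUnit_C.1 (isUnit_of_dvd_one h.2))

end WRed

open WRed in
theorem wRed : OfRed := by
  intro hTw hBr hAll hMod hSing hTwi hDel hHor W K _ _ x y Pt _ O κ _ r hΔ hG geo fin lam ad h0 hx hV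
  classical
  have e1 : ∀ p : ℕ, ∃ C : Cv Pt, p.Prime → Ver x y p (O C.1) := fun p => by
    by_cases hp : p.Prime
    · exact (geo.vee p hp).imp fun _ h _ => h
    · exact (geo.vee 2 Nat.prime_two).imp fun _ _ h => absurd h hp
  choose Cp hC using e1
  have e2 : ∀ p : ℕ, (p.Prime ∧ ¬∀ u, u ≠ 0 → lam (Cp p) u = 0) → _ := fun p h =>
    (hV (Cp p) p (hC p h.1)).resolve_left h.2
  have e3 : {p : ℕ | p.Prime ∧ ¬∀ u, u ≠ 0 → lam (Cp p) u = 0}.Finite :=
    (Set.finite_le_nat W.Δ.natAbs).subset fun p h => by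
      obtain ⟨x0, y0, α, β, h1, -⟩ := e2 p h
      exact Nat.le_of_dvd (Int.natAbs_pos.2 hΔ) (Int.natCast_dvd.1 (hSing.1 W p x0 y0 h1.toSing))
  obtain ⟨s, hs⟩ : ∃ s : Finset ℕ, ∀ p, p ∈ s ↔ p.Prime ∧ ¬∀ u, u ≠ 0 → lam (Cp p) u = 0 :=
    ⟨e3.toFinset, fun _ => e3.mem_toFinset⟩
  obtain ⟨μ, m1, m2, m3, m4⟩ := hHor W K x y Pt O κ r hΔ hG geo fin lam Cp s ad hC
    (fun p h => ((hs p).1 h).1) (fun p h h' => by_contra fun e => h' ((hs p).2 ⟨h, e⟩)) hx
  obtain ⟨md, fr⟩ := hMod W K x y hΔ hG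
  obtain ⟨P₀, pf, pi, -, ft⟩ := hAll (Rq x y) K _ _ _ md
  have e4 := fun (p : ℕ) (h : p ∈ s) => hDel W K x y hΔ hG geo.cha p _ _ (r (Cp p).1) (lam (Cp p))
    (hC p ((hs p).1 h).1) (geo.dv _ (Cp p).2) (ad _)
  choose! v δ d1 d2 d3 d4 d5 d6 using e4
  obtain ⟨ι, S, ok, sy⟩ := hTwi (Rq x y) K (xq x y) μ
    (fun g h => ∑ p ∈ s, (v p h * δ p g - v p g * δ p h)) pf m1
    (fun P g h hg hh hP => m2 P _ ((P.dva (ft.1 P)).ne g h hg hh) hP) fun g h hg hh => by
      have := m3 g h hg hh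
      rw [h0 g h hg hh] at this
      rw [← Finset.sum_congr rfl fun p hp => d1 p hp g h hg hh]
      exact_mod_cast this.symm
  have nz : ∀ {g : Rq x y}, g ≠ 0 → (g : K) ≠ 0 := fun h e => h (Subtype.ext e)
  have tw : Tw S (xq x y) (yq x y) s (fun p g => v p g) fun p g => δ p g :=
    { ok with
      pr := fun p h => ((hs p).1 h).1
      sym := sy
      vm := fun p h g u hg hu => d2 p h g u (nz hg) (nz hu)
      vp := fun p h => d3 p h
      v0 := fun p h A B e => by simpa only [coe_gv] using (d4 p h A B e).1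
      dc := fun p h A B A' B' e a b => by simpa only [coe_gv] using d5 p h A B A' B' e a b
      dq := fun p h q e => by
        obtain ⟨_, _, _, _, -, h2, -⟩ := e2 p ((hs p).1 h)
        simpa only [coe_ae] using d6 p h h2 q e }
  have e5 : ∀ p, p ∉ s := fun p h => by
    obtain ⟨x0, y0, α, β, h1, -, h3⟩ := e2 p ((hs p).1 h)
    have := hTw W _ _ S s _ _ hΔ md tw (fun q hq => (e2 q ((hs q).1 hq)).imp fun _ h =>
      h.imp fun _ h => h.imp fun _ h => h.imp fun _ h => h.1) p h x0 y0 α β h1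
    rw [coe_gv, (d4 p h _ _ (not_dv ((hs p).1 h).1 _)).2] at this
    exact ((hs p).1 h).2 (h3 (by exact_mod_cast this))
  have e6 := hBr (Rq x y) K _ _ _ P₀ md pf pi ft μ m1 (fun g h hg hh => by
    have := m3 g h hg hh
    rw [h0 g h hg hh, Finset.sum_eq_zero fun p hp => absurd hp (e5 p), add_zero] at this
    exact this.symm) fun a ha => m2 P₀ a ha ((pi.uniq P₀).2 rfl)
  intro C
  rcases geo.plc C with ⟨P, hP⟩ | ⟨p, hp⟩
  · exact m4 e6 C P hP
  · obtain rfl : C = Cp p := Subtype.ext (geo.inj ((geo.veq p p _ _ hp (hC p hp.1)).1 rfl))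
    exact by_contra fun e => e5 p ((hs p).2 ⟨hp.1, e⟩)

end Pool.Agent.MP_f3836a_nt.VE.W
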