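import Pool.Agent.MP_f3836a_nt.VE.SpecW4

/-! Singular points of the reductions, and units on an affine fibre. -/

set_option autoImplicit false

namespace Pool.Agent.MP_f3836a_nt.VE.W

open Polynomial VE.A

namespace WSing

variable (W : WeierstrassCurve ℤ)

section
variable {R S : Type} [CommRing R] [CommRing S] (f : R →+* S) (x y : R)

lemma map_eW : f (eW W x y) = eW W (f x) (f y) := by simp [eW]

lemma map_eX : f (eX W x y) = eX W (f x) (f y) := by simp [eX, map_ofNat]

lemma map_eY : f (eY W x y) = eY W (f x) (f y) := by simp [eY, map_ofNat]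

end

lemma uniq {k : Type} [Field k] {x y x' y' : k} (a : eW W x y = 0) (b : eX W x y = 0)
    (c : eY W x y = 0) (a' : eW W x' y' = 0) (b' : eX W x' y' = 0) (c' : eY W x' y' = 0) :
    x' = x ∧ y' = y := by
  unfold eW eX eY at *
  have h : (x' - x) ^ 3 = 0 := by
    linear_combination 2 * a' - 2 * a - (x' - x) * (b + b') - (y' - y) * (c + c')
  obtain rfl : x' = x := sub_eq_zero.1 (pow_eq_zero_iff three_ne_zero |>.1 h)
  have g : (y' - y) ^ 2 = 0 := by linear_combination a' - a - (y' - y) * c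
  exact ⟨rfl, sub_eq_zero.1 (pow_eq_zero_iff two_ne_zero |>.1 g)⟩

lemma sing_iff (k : Type) [CommRing k] (p : ℕ) [CharP k p] (x y : ℤ) : Sing W p x y ↔
    eW W (x : k) y = 0 ∧ eX W (x : k) y = 0 ∧ eY W (x : k) y = 0 := by
  have e1 := map_eW W (Int.castRingHom k) x y
  have e2 := map_eX W (Int.castRingHom k) x y
  have e3 := map_eY W (Int.castRingHom k) x y
  simp only [eq_intCast] at e1 e2 e3
  rw [← e1, ← e2, ← e3]
  simp only [CharP.intCast_eq_zero_iff k p]
  exact ⟨fun h => ⟨h.e, h.ex, h.ey⟩, fun h => ⟨h.1, h.2.1, h.2.2⟩⟩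

lemma gv_mul {R : Type} [CommRing R] {x y : R} (h : eW W x y = 0) (A B A' B' : ℤ[X]) :
    gv x y A B * gv x y A' B' =
      gv x y (A * A' + B * B' * (X ^ 3 + C W.a₂ * X ^ 2 + C W.a₄ * X + C W.a₆))
        (A * B' + A' * B - B * B' * (C W.a₁ * X + C W.a₃)) := by
  unfold eW at h
  simp only [gv, map_add, map_mul, map_sub, map_pow, aeval_X, eq_intCast, map_intCast]
  linear_combination aeval x B * aeval x B' * h

lemma mem {K : Type} [Field K] {x y : K} (h : eW W x y = 0) {z : K} (hz : z ∈ A1 x y) :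
    ∃ A B : ℤ[X], z = gv x y A B := by
  induction hz using Subring.closure_induction with
  | mem z hz =>
    rcases hz with rfl | rfl
    · exact ⟨X, 0, by simp [gv]⟩
    · exact ⟨0, 1, by simp [gv]⟩
  | zero => exact ⟨0, 0, by simp [gv]⟩
  | one => exact ⟨1, 0, by simp [gv]⟩
  | add a b _ _ ha hb =>
    obtain ⟨A, B, rfl⟩ := ha
    obtain ⟨A', B', rfl⟩ := hb
    exact ⟨A + A', B + B', by simp only [gv, map_add]; ring⟩
  | neg a _ ha =>
    obtain ⟨A, B, rfl⟩ := ha
    exact ⟨-A, -B, by simp only [gv, map_neg]; ring⟩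
  | mul a b _ _ ha hb =>
    obtain ⟨A, B, rfl⟩ := ha
    obtain ⟨A', B', rfl⟩ := hb
    exact ⟨_, _, gv_mul W h A B A' B'⟩

lemma mem_of {K : Type} [Field K] (D : Subring K) (u : K)
    (h : ∀ m : Ideal D, m.IsMaximal → ∃ a b : D, b ∉ m ∧ u * b = a) : u ∈ D := by
  let I : Ideal D :=
    { carrier := {b | u * b ∈ D}
      add_mem' := fun {a b} ha hb => by
        change u * (a + b) ∈ D
        rw [mul_add]; exact add_mem ha hb
      zero_mem' := by simp
      smul_mem' := fun c b hb => by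
        change u * (c * b) ∈ D
        rw [mul_left_comm]; exact mul_mem c.2 hb }
  by_cases e : I = ⊤
  · have : u * ((1 : D) : K) ∈ D := (Ideal.eq_top_iff_one I).1 e
    simpa using this
  · obtain ⟨m, hm, le⟩ := I.exists_le_maximal e
    obtain ⟨a, b, hb, e⟩ := h m hm
    exact absurd (le (show u * b ∈ D from e ▸ a.2)) hb

lemma dvd_iff (p : ℕ) (Q : ℤ[X]) : C (p : ℤ) ∣ Q ↔ Q.map (Int.castRingHom (ZMod p)) = 0 := by
  rw [C_dvd_iff_dvd_coeff]
  simp [Polynomial.ext_iff, ZMod.intCast_zmod_eq_zero_iff_dvd]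

end WSing

open WSing

theorem wSing : SingS := by
  refine ⟨fun W p x y h => ?_, fun W B _ x y m p hm _ hp h0 h1 h2 h3 => ?_⟩
  · obtain ⟨a, b, c⟩ := (sing_iff W (ZMod p) p x y).1 h
    by_contra hd
    have h1 : (W.map (Int.castRingHom (ZMod p))).Δ ≠ 0 := by
      rwa [W.map_Δ, eq_intCast, Ne, ZMod.intCast_zmod_eq_zero_iff_dvd]
    have h2 := (WeierstrassCurve.Affine.equation_iff_nonsingular_of_Δ_ne_zero
      (x := (x : ZMod p)) (y := (y : ZMod p)) h1).1
      ((WeierstrassCurve.Affine.equation_iff' _ _).2 a)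
    exact ((WeierstrassCurve.Affine.nonsingular_iff' _ _).1 h2).2.elim (· b) (· c)
  · let := Ideal.Quotient.field m
    have := Fact.mk hp
    let f := Ideal.Quotient.mk m
    have : CharP (B ⧸ m) p := (CharP.charP_iff_prime_eq_zero hp).2 (by
      rw [← map_natCast f]; exact Ideal.Quotient.eq_zero_iff_mem.2 h0)
    have a : eW W (f x) (f y) = 0 := by rw [← map_eW, h1, map_zero]
    have b : eX W (f x) (f y) = 0 := by rw [← map_eX]; exact Ideal.Quotient.eq_zero_iff_mem.2 h2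
    have c : eY W (f x) (f y) = 0 := by rw [← map_eY]; exact Ideal.Quotient.eq_zero_iff_mem.2 h3
    constructor
    · let φ := frobenius (B ⧸ m) p
      obtain ⟨e1, e2⟩ := uniq W a b c (x' := φ (f x)) (y' := φ (f y))
        (by rw [← map_eW, a, map_zero]) (by rw [← map_eX, b, map_zero])
        (by rw [← map_eY, c, map_zero])
      obtain ⟨x0, hx⟩ := (mem_bot_iff_intCast p _).1 ((Subfield.mem_bot_iff_pow_eq_self _ p).2 e1)
      obtain ⟨y0, hy⟩ := (mem_bot_iff_intCast p _).1 ((Subfield.mem_bot_iff_pow_eq_self _ p).2 e2)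
      exact ⟨x0, y0, (sing_iff W (B ⧸ m) p x0 y0).2 (by rw [hx, hy]; exact ⟨a, b, c⟩)⟩
    · intro x0 y0 h
      obtain ⟨a', b', c'⟩ := (sing_iff W (B ⧸ m) p x0 y0).1 h
      rw [← Ideal.Quotient.eq, map_intCast]
      exact (uniq W a b c a' b' c').1.symm

theorem wVdB : VdB := by
  intro W p κ _ x y u g u0 h
  have := Fact.mk g.pr
  obtain ⟨A, B, e⟩ := mem W g.eq (mem_of (A1 x y) u fun m hm =>
    let ⟨a, b, _, hb, e⟩ := h m hm; ⟨a, b, hb, e⟩)
  obtain ⟨A', B', e'⟩ := mem W g.eq (mem_of (A1 x y) u⁻¹ fun m hm =>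
    let ⟨a, b, ha, _, e⟩ := h m hm; ⟨b, a, ha, by rw [← e, inv_mul_cancel_left₀ u0]⟩)
  have z : ∀ Q : ℤ[X], Q.map (Int.castRingHom (ZMod p)) = 0 → aeval x Q = 0 := fun Q hQ => by
    obtain ⟨Q', rfl⟩ := (dvd_iff p Q).2 hQ
    simp [g.ch]
  obtain ⟨d1, d2⟩ := g.ind (A * A' + B * B' * (X ^ 3 + C W.a₂ * X ^ 2 + C W.a₄ * X + C W.a₆) - 1)
    (A * B' + A' * B - B * B' * (C W.a₁ * X + C W.a₃)) (by
      have := gv_mul W g.eq A B A' B'
      rw [← e, ← e', mul_inv_cancel₀ u0] at this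
      unfold gv at this ⊢
      rw [map_sub, map_one]
      linear_combination -this)
  rw [dvd_iff] at d1 d2
  set φ := Int.castRingHom (ZMod p)
  simp only [Polynomial.map_add, Polynomial.map_sub, Polynomial.map_mul, Polynomial.map_pow, map_X,
    map_C, Polynomial.map_one] at d1 d2
  have n1 := WeierstrassCurve.Affine.CoordinateRing.degree_norm_smul_basis (W' := W.map φ)
    (A.map φ) (B.map φ)
  rw [WeierstrassCurve.Affine.CoordinateRing.norm_smul_basis, degree_eq_zero_of_isUnit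
    (IsUnit.of_mul_eq_one ((A'.map φ) ^ 2 - A'.map φ * B'.map φ * (C (φ W.a₁) * X + C (φ W.a₃)) -
      (B'.map φ) ^ 2 * (X ^ 3 + C (φ W.a₂) * X ^ 2 + C (φ W.a₄) * X + C (φ W.a₆))) (by
      simp only [WeierstrassCurve.map_a₁, WeierstrassCurve.map_a₂, WeierstrassCurve.map_a₃,
        WeierstrassCurve.map_a₄, WeierstrassCurve.map_a₆]
      set c := X ^ 3 + C (φ W.a₂) * X ^ 2 + C (φ W.a₄) * X + C (φ W.a₆)
      set l := C (φ W.a₁) * X + C (φ W.a₃)
      linear_combination (A.map φ * A'.map φ + B.map φ * B'.map φ * c + 1) * d1 -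
        ((A.map φ * A'.map φ + B.map φ * B'.map φ * c) * l +
          (A.map φ * B'.map φ + A'.map φ * B.map φ - B.map φ * B'.map φ * l) * c) * d2))] at n1
  have b0 : B.map φ = 0 := by
    by_contra hb
    have := n1.ge.trans' (le_max_right _ _)
    rw [degree_eq_natDegree hb] at this
    norm_cast at this
  rw [b0] at d1
  obtain ⟨r, hr, er⟩ := isUnit_iff.1 (IsUnit.of_mul_eq_one (a := A.map φ) (A'.map φ)
    (by linear_combination d1))
  refine ⟨p - 1, by have := g.pr.two_le; omega, ?_⟩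
  have := z (A ^ (p - 1) - 1) (by
    rw [Polynomial.map_sub, Polynomial.map_pow, ← er, ← C_pow,
      ZMod.pow_card_sub_one_eq_one hr.ne_zero]
    simp)
  rw [e, gv, z B b0, zero_mul, add_zero, ← map_pow, ← sub_eq_zero, ← this, map_sub, map_one]

end Pool.Agent.MP_f3836a_nt.VE.W
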