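import Pool.Agent.MP_f3836a_nt.VE.SpecW4

/-! Smooth points of the fibres. -/

set_option autoImplicit false

namespace Pool.Agent.MP_f3836a_nt.VE.W

open IsLocalRing PK

namespace WSm

theorem map_eW (W : WeierstrassCurve ℤ) {R S : Type} [CommRing R] [CommRing S] (φ : R →+* S)
    (x y : R) : φ (eW W x y) = eW W (φ x) (φ y) := by simp [eW]

/-- powers of Frobenius modulo an ideal containing `p` -/
theorem frob {B : Type} [CommRing B] {J : Ideal B} (hJ : J ≠ ⊤) {p : ℕ} (hp : p.Prime)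
    (h : (p : B) ∈ J) (f : ℕ) : ∃ φ : B →+* B ⧸ J, ∀ a, φ a = Ideal.Quotient.mk J (a ^ p ^ f) := by
  have := Ideal.Quotient.nontrivial_iff.2 hJ
  have : CharP (B ⧸ J) p := (CharP.charP_iff_prime_eq_zero hp).2 (by
    rw [← map_natCast (Ideal.Quotient.mk J), Ideal.Quotient.eq_zero_iff_mem]; exact h)
  have := Fact.mk hp
  exact ⟨(iterateFrobenius _ p f).comp (Ideal.Quotient.mk J), fun a => by
    rw [RingHom.comp_apply, iterateFrobenius_def, map_pow]⟩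

theorem hom_ext {K S : Type} [Field K] [CommRing S] {x y : K} {f g : A1 x y →+* S}
    (hx : f (xa x y) = g (xa x y)) (hy : f (ya x y) = g (ya x y)) (a : A1 x y) : f a = g a := by
  obtain ⟨a, ha⟩ := a
  induction ha using Subring.closure_induction with
  | mem z hz => rcases hz with rfl | rfl; exacts [hx, hy]
  | zero => exact (map_zero f).trans (map_zero g).symm
  | one => exact (map_one f).trans (map_one g).symm
  | add a b ha hb h1 h2 =>
    exact (map_add f ⟨a, ha⟩ ⟨b, hb⟩).trans (by rw [h1, h2, ← map_add])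
  | neg a ha h1 => exact (map_neg f ⟨a, ha⟩).trans (by rw [h1, ← map_neg])
  | mul a b ha hb h1 h2 =>
    exact (map_mul f ⟨a, ha⟩ ⟨b, hb⟩).trans (by rw [h1, h2, ← map_mul])

end WSm

open WSm in
theorem wSm : SmS := by
  intro W K _ _ x y _ hG m p hm hfin hp hpm hs
  have e0 : eW W (xa x y) (ya x y) = 0 :=
    Subtype.ext ((map_eW W (A1 x y).subtype _ _).trans hG.eq)
  set X := xa x y
  set Y := ya x y
  let := Ideal.Quotient.field m
  let := Fintype.ofFinite (A1 x y ⧸ m)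
  have : CharP (A1 x y ⧸ m) p := (CharP.charP_iff_prime_eq_zero hp).2 (by
    rw [← map_natCast (Ideal.Quotient.mk m), Ideal.Quotient.eq_zero_iff_mem]; exact hpm)
  obtain ⟨f, -, hf⟩ := FiniteField.card (A1 x y ⧸ m) p
  have hq : ∀ a : A1 x y, a ^ p ^ (f : ℕ) - a ∈ m := fun a => by
    rw [← Ideal.Quotient.eq, map_pow, ← hf, FiniteField.pow_card]
  obtain ⟨n, hn⟩ : ∃ n, p ^ (f : ℕ) = n + 2 :=
    Nat.exists_eq_add_of_le' (Nat.one_lt_pow f.ne_zero hp.one_lt)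
  obtain ⟨u, hu⟩ : ∃ u, u = X ^ p ^ (f : ℕ) - X := ⟨_, rfl⟩
  obtain ⟨v, hv⟩ : ∃ v, v = Y ^ p ^ (f : ℕ) - Y := ⟨_, rfl⟩
  have um : u ∈ m := hu ▸ hq X
  have vm : v ∈ m := hv ▸ hq Y
  have gen : ∀ a ∈ m, ∃ b c1 c2 c3, b ∉ m ∧ a * b = c1 * p + c2 * u + c3 * v := by
    intro a ha
    have le : Ideal.span {(p : A1 x y), u, v} ≤ m := Ideal.span_le.2 (by
      rintro z (rfl | rfl | rfl) <;> assumption)
    obtain ⟨φ, hφ⟩ := frob (fun e => hm.ne_top (top_le_iff.1 (e ▸ le))) hp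
      (Ideal.subset_span (by simp)) f
    have := hom_ext (f := φ) (g := Ideal.Quotient.mk _)
      (by rw [hφ, Ideal.Quotient.eq, ← hu]; exact Ideal.subset_span (by simp))
      (by rw [hφ, Ideal.Quotient.eq, ← hv]; exact Ideal.subset_span (by simp)) a
    rw [hφ, Ideal.Quotient.eq, hn, Ideal.mem_span_insert] at this
    obtain ⟨c1, z, hz, e⟩ := this
    obtain ⟨c2, c3, rfl⟩ := Ideal.mem_span_pair.1 hz
    refine ⟨a ^ (n + 1) - 1, c1, c2, c3, fun h => hm.ne_top ((Ideal.eq_top_iff_one _).2 ?_),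
      by linear_combination e⟩
    simpa using m.sub_mem (m.pow_mem_of_mem ha (n + 1) n.succ_pos) h
  obtain ⟨t, ht⟩ : ∃ t, t * p = eW W (X + u) (Y + v) := by
    have le : Ideal.span {(p : A1 x y)} ≤ m := (Ideal.span_singleton_le_iff_mem _).2 hpm
    obtain ⟨φ, hφ⟩ := frob (fun e => hm.ne_top (top_le_iff.1 (e ▸ le))) hp
      (Ideal.mem_span_singleton_self _) f
    rw [← Ideal.mem_span_singleton', ← Ideal.Quotient.eq_zero_iff_mem, map_eW, hu, hv,
      add_sub_cancel, add_sub_cancel, ← hφ, ← hφ, ← map_eW, e0, map_zero]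
  by_cases hY : eY W X Y ∈ m
  · have hX : eX W X Y ∉ m := fun h => hs ⟨h, hY⟩
    refine ⟨v, vm, fun a ha => ?_⟩
    obtain ⟨b, c1, c2, c3, hb, e⟩ := gen a ha
    refine ⟨b * (eX W X Y - u * (3 * X + W.a₂ + u)), c3 * (eX W X Y - u * (3 * X + W.a₂ + u)) -
      c2 * (eY W X Y + v + W.a₁ * u), c1 * (eX W X Y - u * (3 * X + W.a₂ + u)) + c2 * t,
      fun h => (hm.isPrime.mem_or_mem h).elim hb fun h => hX ?_, ?_⟩
    · simpa using m.add_mem h (m.mul_mem_right (3 * X + W.a₂ + u) um)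
    · simp only [eW, eX, eY] at *
      linear_combination (W.a₁ * Y - (3 * X ^ 2 + 2 * W.a₂ * X + W.a₄) - u * (3 * X + W.a₂ + u)) * e
        - c2 * ht - c2 * e0
  · refine ⟨u, um, fun a ha => ?_⟩
    obtain ⟨b, c1, c2, c3, hb, e⟩ := gen a ha
    refine ⟨b * (eY W X Y + v), c2 * (eY W X Y + v) -
      c3 * (eX W X Y + W.a₁ * v - u * (3 * X + W.a₂ + u)), c1 * (eY W X Y + v) + c3 * t,
      fun h => (hm.isPrime.mem_or_mem h).elim hb fun h => hY ?_, ?_⟩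
    · simpa using m.sub_mem h vm
    · simp only [eW, eX, eY] at *
      linear_combination (2 * Y + W.a₁ * X + W.a₃ + v) * e - c3 * ht - c3 * e0

theorem wSmo : OfSmo := by
  intro hL hO hR hS W K _ _ x y hΔ hG ch m _ p hm hp hpm hs
  obtain ⟨π, πm, hπ⟩ := hS W K x y hΔ hG m p hm (ch.mx m hm).1 hp hpm hs
  have L := hL K (A1 x y)
  obtain ⟨pr, nm, p0⟩ := ch.pr p hp
  obtain ⟨q', _, lk⟩ := L.up m (Ideal.span {(p : A1 x y)})
    ((Ideal.span_singleton_le_iff_mem _).2 hpm)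
  set ι := Subring.inclusion (le_lc (A1 x y) m)
  have sur : ∀ z : lc _ m, ∃ a b : A1 x y, b ∉ m ∧ z * ι b = ι a := fun z => by
    obtain ⟨a, b, hb, e⟩ := mem_lc.1 z.2
    exact ⟨a, b, hb, Subtype.ext e⟩
  have eq' : Ideal.span {(p : lc _ m)} = q' := by
    refine le_antisymm ((Ideal.span_singleton_le_iff_mem _).2 ?_) fun z hz => ?_
    · rw [← map_natCast ι]
      exact (lk.mem _).1 (Ideal.mem_span_singleton_self _)
    · obtain ⟨a, b, hb, e⟩ := sur z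
      obtain ⟨c, rfl⟩ := Ideal.mem_span_singleton'.1 ((lk.mem a).2 (e ▸ q'.mul_mem_right _ hz))
      rw [← Ideal.mul_unit_mem_iff_mem _ ((L.unit m b).2 hb), e, map_mul, map_natCast]
      exact Ideal.mul_mem_left _ _ (Ideal.mem_span_singleton_self _)
  have mx : maximalIdeal (lc _ m) = Ideal.span {(p : lc _ m), ι π} := by
    rw [L.max]
    refine le_antisymm (Ideal.map_le_iff_le_comap.2 fun a ha => ?_) (Ideal.span_le.2 ?_)
    · obtain ⟨b, c, c', hb, e⟩ := hπ a ha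
      rw [Ideal.mem_comap, ← Ideal.mul_unit_mem_iff_mem _ ((L.unit m b).2 hb), ← map_mul, e]
      exact Ideal.mem_span_pair.2 ⟨ι c', ι c, by simp only [map_add, map_mul, map_natCast]; ring⟩
    · rintro z (rfl | rfl)
      · rw [← map_natCast ι]; exact Ideal.mem_map_of_mem _ hpm
      · exact Ideal.mem_map_of_mem _ πm
  have n1 : ¬q'.IsMaximal := fun h => nm (lk.max.1 h ▸ hm)
  have n0 : q' ≠ ⊥ := fun h => p0 (Ideal.span_singleton_eq_bot.1 (lk.bot.1 h))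
  have πq : ι π ∉ q' := fun h => n1 (by
    have : maximalIdeal (lc _ m) ≤ q' := mx ▸ Ideal.span_le.2 (by
      rintro z (rfl | rfl)
      · exact eq' ▸ Ideal.mem_span_singleton_self _
      · exact h)
    rw [← (maximalIdeal.isMaximal _).eq_of_le (Ideal.IsPrime.ne_top ‹_›) this]
    exact maximalIdeal.isMaximal _)
  obtain ⟨l2, pri, exp⟩ := hR K (lc _ m) p (ι π) (L.noeth m ch.noeth)
    (fun z => let ⟨a, b, hb, e⟩ := ch.frac z; ⟨ι a, ι b, hb, e⟩)
    (Nat.cast_ne_zero.2 hp.ne_zero) mx (eq' ▸ ‹_›) (eq' ▸ πq)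
  rw [eq'] at exp
  refine ⟨pri, fun G κ _ r u hV hd hu h0 => ?_⟩
  obtain ⟨-, q, _, rfl, hG'⟩ := hV
  have e1 : G = lc _ q' := hG'.trans lk.eq.symm
  have A := hO K κ _ G q' r l2 n0 n1 e1 hd
  have le : lc _ m ≤ G := e1 ▸ le_lc _ q'
  let ρ : lc _ m →+* κ := r.comp (Subring.inclusion le)
  have hρ : ∀ a : lc _ m, resR G r a = ρ a := fun a => EDVA.res_mem (le a.2)
  have un : ∀ w : lc _ m, IsUnit w → ρ w ≠ 0 ∧ od G r (lc _ m) (ρ w) = 0 := fun w hw =>
    ⟨(hw.map ρ).ne_zero, hρ w ▸ (A.len w fun h =>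
      Ideal.IsPrime.ne_top ‹_› (Ideal.eq_top_of_isUnit_mem _ h hw)).2.2.2 hw⟩
  have π0 : ρ (ι π) ≠ 0 := fun h => πq ((A.zero _).1 ((hρ _).trans h))
  have π1 : od G r (lc _ m) (ρ (ι π)) ≠ 0 := fun h =>
    (L.unit m π).1 ((A.len _ πq).2.2.1 ((hρ _).symm ▸ h)) πm
  have pw : ∀ k : ℕ, od G r (lc _ m) (ρ (ι π) ^ k) = k * od G r (lc _ m) (ρ (ι π)) := fun k => by
    induction k with
    | zero => simpa using (un 1 isUnit_one).2
    | succ k ih => rw [pow_succ, A.mul _ _ (pow_ne_zero _ π0) π0, ih]; push_cast; ring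
  have ex : ∀ a, a ∉ q' → ∃ (k : ℕ) (w : lc _ m), IsUnit w ∧ ρ a = ρ w * ρ (ι π) ^ k ∧
      od G r (lc _ m) (ρ a) = k * od G r (lc _ m) (ρ (ι π)) := fun a ha => by
    obtain ⟨k, w, hw, h⟩ := exp a ha
    have h1 := (A.zero _).2 h
    rw [hρ, map_sub, map_mul, map_pow, sub_eq_zero] at h1
    exact ⟨k, w, hw, h1, by
      rw [h1, A.mul _ _ (un w hw).1 (pow_ne_zero _ π0), (un w hw).2, pw, zero_add]⟩
  obtain ⟨a, b, ha, hb, e⟩ := A.frac u hu
  rw [hρ, hρ] at e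
  obtain ⟨k, w, hw, a1, a2⟩ := ex a ha
  obtain ⟨k', w', hw', b1, b2⟩ := ex b hb
  have h1 := A.mul u (ρ b) hu fun h => hb ((A.zero _).1 ((hρ _).trans h))
  rw [e, h0, a2, b2, zero_add] at h1
  obtain rfl : k = k' := by exact_mod_cast mul_right_cancel₀ π1 h1
  rw [a1, b1, ← mul_assoc] at e
  have e2 := mul_right_cancel₀ (pow_ne_zero _ π0) e
  obtain ⟨c, d, hd1, f1⟩ := sur w
  obtain ⟨c', d', hd2, f2⟩ := sur w'
  have c1 : c ∉ m := (L.unit m c).1 (f1 ▸ hw.mul ((L.unit m d).2 hd1))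
  have c2 : c' ∉ m := (L.unit m c').1 (f2 ▸ hw'.mul ((L.unit m d').2 hd2))
  refine ⟨c * d', c' * d, fun h => (hm.isPrime.mem_or_mem h).elim c1 hd2,
    fun h => (hm.isPrime.mem_or_mem h).elim c2 hd1, ?_⟩
  change u * resR G r (ι (c' * d)) = resR G r (ι (c * d'))
  rw [hρ, hρ, map_mul ι, map_mul ι, ← f1, ← f2]
  simp only [map_mul]
  linear_combination ρ (ι d) * ρ (ι d') * e2

end Pool.Agent.MP_f3836a_nt.VE.W
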