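import Pool.Agent.MP_f3836a_nt.VE.SpecW4

/-! Reduction modulo a prime and functions without zeros and poles on a fibre. -/

set_option autoImplicit false

namespace Pool.Agent.MP_f3836a_nt.VE.W

open Polynomial IsLocalRing PK VE.A VE.T

namespace WVd

theorem map_gv {R S : Type} [CommRing R] [CommRing S] (φ : R →+* S) (x y : R) (A B : ℤ[X]) :
    φ (gv x y A B) = gv (φ x) (φ y) A B := by
  have h : ∀ F : ℤ[X], φ (aeval x F) = aeval (φ x) F := fun F =>
    (aeval_algHom_apply φ.toIntAlgHom x F).symm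
  rw [gv, gv, map_add, map_mul, h, h]

theorem coe_gv {K : Type} [Field K] (x y : K) (A B : ℤ[X]) :
    ((gv (xa x y) (ya x y) A B : A1 x y) : K) = gv x y A B := map_gv (A1 x y).subtype _ _ A B

theorem eW_zero {K : Type} [Field K] {W : WeierstrassCurve ℤ} {x y : K} (h : eW W x y = 0) :
    eW W (xa x y) (ya x y) = 0 := Subtype.ext (by simpa [eW, xa, ya] using h)

theorem adz_zpow {κ : Type} [Field κ] {d : κ → ℤ} (hd : Adz d) {f : κ} (hf : f ≠ 0) (i : ℤ) :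
    d (f ^ i) = i * d f := by
  have h1 : d 1 = 0 := by
    have := hd 1 1 one_ne_zero one_ne_zero
    rw [one_mul] at this
    omega
  induction i using Int.induction_on with
  | zero => rw [zpow_zero, h1, zero_mul]
  | succ n ih => rw [zpow_add_one₀ hf, hd _ _ (zpow_ne_zero _ hf) hf, ih]; ring
  | pred n ih =>
    have := hd (f ^ (-(n : ℤ) - 1)) f (zpow_ne_zero _ hf) hf
    rw [← zpow_add_one₀ hf, sub_add_cancel, ih] at this
    linear_combination -this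

theorem monic_ne {κ : Type} [Field κ] {W : WeierstrassCurve ℤ} {p : ℕ} {x y : κ}
    (h : GnP W p x y) {F : ℤ[X]} (hF : F.Monic) : aeval x F ≠ 0 := fun h0 => by
  have h1 := (C_dvd_iff_dvd_coeff _ _).1 (h.ind F 0 (by simp [gv, h0])).1 F.natDegree
  rw [hF.coeff_natDegree] at h1
  exact h.pr.one_lt.ne' (by exact_mod_cast Int.eq_one_of_dvd_one (by positivity) h1)

end WVd

open WVd

theorem wRedP : OfRedP := by
  intro hL W K _ _ x y _ hG hA p G κ _ r ⟨hp, q, hq, hqe, hGe⟩ hD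
  subst hGe
  obtain ⟨φ, hφ'⟩ : ∃ φ : A1 x y →+* κ, φ = r.comp (Subring.inclusion (le_lc _ q)) := ⟨_, rfl⟩
  have hφ : ∀ a : A1 x y, resR (lc _ q) r a = φ a := fun a => by
    rw [hφ']; exact dif_pos (le_lc _ q a.2)
  have hk : ∀ a, φ a = 0 ↔ a ∈ q := fun a => by
    rw [hφ', RingHom.comp_apply, hD.ker, (hL K _).unit q a, not_not]
  have hx : resR (lc _ q) r x = φ (xa x y) := hφ (xa x y)
  have hy : resR (lc _ q) r y = φ (ya x y) := hφ (ya x y)
  have hg : ∀ (a : A1 x y) (A B : ℤ[X]), (a : K) = gv x y A B →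
      φ a = gv (φ (xa x y)) (φ (ya x y)) A B := fun a A B h => by
    rw [← map_gv, show a = gv (xa x y) (ya x y) A B from Subtype.ext (h.trans (coe_gv x y A B).symm)]
  rw [hx, hy]
  refine ⟨⟨hp, ?_, ?_, fun A B h => ?_, fun u => ?_⟩, fun A B => ?_, φ.codRestrict _ fun a => ?_,
    fun b => ?_, fun a => (hφ a).symm, fun a => ?_⟩
  · rw [← map_natCast φ, hk, hqe]
    exact Ideal.mem_span_singleton_self _
  · simpa [eW] using congrArg φ (eW_zero hG.eq)
  · rw [← map_gv, hk, hqe] at h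
    exact (hA.memp p _ A B (coe_gv x y A B)).1 h
  · obtain ⟨s, rfl⟩ := hD.surj u
    obtain ⟨a, b, hb, e⟩ := mem_lc.1 s.2
    obtain ⟨A, B, h⟩ := (hA.mem a).1 a.2
    obtain ⟨A', B', h'⟩ := (hA.mem b).1 b.2
    refine ⟨A, B, A', B', ?_, ?_⟩
    · rw [← hg b _ _ h']
      exact fun h0 => hb ((hk b).1 h0)
    · rw [← hg b _ _ h', ← hg a _ _ h, hφ', RingHom.comp_apply, RingHom.comp_apply, ← map_mul]
      exact congrArg r (Subtype.ext e)
  · rw [← coe_gv, hφ, map_gv]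
  · obtain ⟨A, B, h⟩ := (hA.mem a).1 a.2
    rw [hg a _ _ h, ← coe_gv]
    exact SetLike.coe_mem _
  · have h : A1 (φ (xa x y)) (φ (ya x y)) ≤ φ.range := Subring.closure_le.2 (by
      rintro _ (rfl | rfl)
      exacts [⟨_, rfl⟩, ⟨_, rfl⟩])
    obtain ⟨a, ha⟩ := h b.2
    exact ⟨a, Subtype.ext ha⟩
  · rw [← hqe, ← hk]
    exact Subtype.ext_iff

theorem wVd : OfVd := by
  intro hL hO hS hN hB hC hR W K _ _ x y hΔ hG hA p G κ _ r hV hD
  obtain ⟨hP, hgv, ρ, hs, hρ, hk⟩ := hR W K x y hΔ hG hA p G κ r hV hD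
  obtain ⟨hp, q, hq, hqe, hGe⟩ := id hV
  generalize resR G r x = xb at *
  generalize resR G r y = yb at *
  have ex : ρ (xa x y) = xa xb yb := Subtype.ext ((hρ _).trans (by simpa [gv, xa] using hgv X 0))
  have ey : ρ (ya x y) = ya xb yb := Subtype.ext ((hρ _).trans (by simpa [gv, ya] using hgv 0 1))
  have hpm : ∀ mb : Ideal (A1 xb yb), (p : A1 x y) ∈ mb.comap ρ := fun mb => by
    rw [Ideal.mem_comap, (hk _).2 (Ideal.mem_span_singleton_self _)]
    exact mb.zero_mem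
  have un : ∀ u, u ≠ 0 → (∀ S, Aff x y p S → od G r S u = 0) → ∀ mb : Ideal (A1 xb yb),
      mb.IsMaximal → Un xb yb mb u ∨ (∃ x0 y0 : ℤ, Sing W p x0 y0) ∧
        ∀ x0 y0 : ℤ, Sing W p x0 y0 → xa xb yb - x0 ∈ mb := fun u hu ho mb hm => by
    have hm' := Ideal.comap_isMaximal_of_surjective ρ hs (K := mb)
    by_cases h : eX W (xa x y) (ya x y) ∈ mb.comap ρ ∧ eY W (xa x y) (ya x y) ∈ mb.comap ρ
    · obtain ⟨h1, h2⟩ := hN.2 W _ _ _ _ p hm' (hA.mx _ hm').1 hp (hpm mb) (eW_zero hG.eq) h.1 h.2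
      refine Or.inr ⟨h1, fun x0 y0 h3 => ?_⟩
      have := h2 x0 y0 h3
      rwa [Ideal.mem_comap, map_sub, ex, map_intCast] at this
    · obtain ⟨a, b, ha, hb, e⟩ := (hS W K x y hΔ hG hA (mb.comap ρ) p hm' hp (hpm mb) h).2 G κ r u
        hV hD hu (ho _ ⟨hp, _, inferInstance, hm', hpm mb, rfl⟩)
      exact Or.inl ⟨ρ a, ρ b, ha, hb, by rw [hρ, hρ]; exact e⟩
  by_cases h0 : ∃ x0 y0 : ℤ, Sing W p x0 y0
  swap
  · exact ⟨fun _ => 0, fun _ _ _ _ => rfl, Or.inl fun _ => rfl, fun u hu ho _ =>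
      hB W p κ xb yb u hP hu fun mb hm => (un u hu ho mb hm).resolve_right fun h => h0 h.1⟩
  obtain ⟨x0, y0, h0⟩ := h0
  obtain ⟨d, hd, hc, hu'⟩ := hC W p κ xb yb x0 y0 hP h0
  refine ⟨d, hd, hc.imp id fun ⟨α, β, h1, h2, h3⟩ => ⟨x0, y0, α, β, h1, fun F hF => by
    rw [show resR G r (aeval x F) = aeval xb F by simpa [gv] using hgv F 0]
    exact h2 F hF, by rw [hgv]; exact h3⟩, fun u hu ho hdu => ?_⟩
  obtain ⟨i, j, hj, e⟩ := hu' u hu (fun mb hm hn =>
    (un u hu ho mb hm).resolve_right fun h => hn (h.2 x0 y0 h0)) hdu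
  have hw : xb - x0 ≠ 0 := by simpa using monic_ne hP (monic_X_sub_C x0)
  obtain ⟨mb, hm, hx⟩ : ∃ mb : Ideal (A1 xb yb), mb.IsMaximal ∧ xa xb yb - x0 ∈ mb := by
    by_contra hn
    obtain ⟨k, hk0, e⟩ := hB W p κ xb yb _ hP hw fun mb hm => ⟨xa xb yb - x0, 1,
      fun h => hn ⟨mb, hm, h⟩, fun h => hm.ne_top ((Ideal.eq_top_iff_one _).2 h), by simp [xa]⟩
    refine monic_ne hP (((monic_X_sub_C x0).pow k).sub_of_left (q := 1) ?_) (by simp [e])
    rw [degree_one, degree_pow, degree_X_sub_C, nsmul_one]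
    exact_mod_cast hk0
  have hm' := Ideal.comap_isMaximal_of_surjective ρ hs (K := mb)
  have ew : ρ (xa x y - x0) = xa xb yb - x0 := by rw [map_sub, ex, map_intCast]
  obtain ⟨q', _, hq'⟩ := (hL K _).up (mb.comap ρ) q (by
    rw [hqe, Ideal.span_singleton_le_iff_mem]; exact hpm mb)
  have H := hO K κ _ G q' r ((hL K _).loc hA.dim2 _ hm')
    (fun h => (hA.pr p hp).2.2 (Ideal.span_singleton_eq_bot.1 (hqe ▸ hq'.bot.1 h)))
    (fun h => (hA.pr p hp).2.1 (by rw [← hqe, hq'.max.1 h]; exact hm')) (hGe.trans hq'.eq.symm) hD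
  have h1 := (H.len (Subring.inclusion (le_lc _ _) (xa x y - x0)) fun h => hw (by
    have := (hk _).2 (hqe ▸ (hq'.mem _).2 h)
    rw [ew] at this
    simpa [xa] using congrArg Subtype.val this)).2.2
  have h2 : resR G r (Subring.inclusion (le_lc _ (mb.comap ρ)) (xa x y - x0) : K) = xb - x0 :=
    (hρ (xa x y - x0)).symm.trans (by rw [ew]; simp [xa])
  rw [h2, (hL K _).unit, Ideal.mem_comap, ew] at h1
  have h3 := adz_zpow H.mul hw i
  rw [← e, ← zpow_natCast, adz_zpow H.mul hu, ho _ ⟨hp, _, inferInstance, hm', hpm mb, rfl⟩,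
    mul_zero, eq_comm, mul_eq_zero] at h3
  refine ⟨j, hj, ?_⟩
  rw [e, h3.resolve_right fun h => h1.1 h hx, zpow_zero]

end Pool.Agent.MP_f3836a_nt.VE.W
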