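import Pool.Agent.MP_f3836a_nt.VE.SpecW4

set_option autoImplicit false

/-! The slope parametrises a singular fibre. -/

namespace Pool.Agent.MP_f3836a_nt.VE.W

open Polynomial IsLocalRing PK VE.A VE.T

namespace WVdC1

theorem map_zero_iff (p : ℕ) (q : ℤ[X]) :
    q.map (algebraMap ℤ (ZMod p)) = 0 ↔ C (p : ℤ) ∣ q := by
  rw [C_dvd_iff_dvd_coeff, Polynomial.ext_iff]
  refine forall_congr' fun i => ?_
  rw [coeff_map, coeff_zero, eq_intCast, ZMod.intCast_zmod_eq_zero_iff_dvd]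

variable {W : WeierstrassCurve ℤ} {p : ℕ} {κ : Type} [Field κ] {x y : κ}

theorem cast0 (h : (p : κ) = 0) {n : ℤ} (hn : (p : ℤ) ∣ n) : (n : κ) = 0 := by
  obtain ⟨c, rfl⟩ := hn
  simp [h]

theorem trx [Fact p.Prime] [Algebra (ZMod p) κ] (h : GnP W p x y) : Transcendental (ZMod p) x := by
  rw [transcendental_iff]
  intro g hg
  obtain ⟨G, rfl⟩ := map_surjective (algebraMap ℤ (ZMod p)) ZMod.intCast_surjective g
  rw [aeval_map_algebraMap] at hg
  exact (map_zero_iff p G).2 (h.ind G 0 (by simp [gv, hg])).1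

theorem gv_mem {k : Type} [CommRing k] [Algebra k κ] (T : Subalgebra k κ) (hx : x ∈ T) (hy : y ∈ T)
    (A B : ℤ[X]) : gv x y A B ∈ T := by
  have h : ∀ A : ℤ[X], aeval x A ∈ T := fun A => by
    rw [aeval_eq_sum_range]
    exact sum_mem fun i _ => zsmul_mem (pow_mem hx i) _
  exact add_mem (h A) (mul_mem (h B) hy)

/-- maximal ideals from irreducible polynomials -/
theorem mx {k B : Type} [Field k] [Finite k] [CommRing B] (ψ : B →+* k[X]) {π : k[X]}
    (hπ : Irreducible π) : ∃ m : Ideal B, m.IsMaximal ∧ ∀ a, a ∈ m ↔ π ∣ ψ a := by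
  have := Fact.mk hπ
  let φ : B →+* AdjoinRoot π := (AdjoinRoot.mk π).comp ψ
  have : Module.Finite k (AdjoinRoot π) := (AdjoinRoot.powerBasis hπ.ne_zero).finite
  have : Finite (AdjoinRoot π) := Module.finite_of_finite k
  have := RingHom.ker_isPrime φ
  have : Finite (B ⧸ RingHom.ker φ) := Finite.of_injective _ (RingHom.kerLift_injective φ)
  exact ⟨RingHom.ker φ, Ideal.Quotient.maximal_of_isField _ (Finite.isField_of_domain _),
    fun a => AdjoinRoot.mk_eq_zero⟩

end WVdC1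

open WVdC1

theorem wVdC1 : VdC1 := by
  intro W p _ κ _ _ x y x0 y0 h hS
  have tx := trx h
  have u0 : x - x0 ≠ 0 := fun e => tx (by
    rw [sub_eq_zero.1 e]
    exact isAlgebraic_intCast _)
  have e0 := cast0 h.ch hS.e
  have e1 := cast0 h.ch hS.ex
  have e2 := cast0 h.ch hS.ey
  have e3 := h.eq
  simp only [eW, eX, eY, Int.cast_id] at e0 e1 e2 e3
  push_cast at e0 e1 e2
  obtain ⟨z, hz⟩ : ∃ z, y - y0 = z * (x - x0) := ⟨(y - y0) / (x - x0), by field_simp⟩
  have hy : y = y0 + z * (x - x0) := by rw [← hz]; ring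
  have hx : x - x0 = z ^ 2 + W.a₁ * z - (W.a₂ + 3 * x0) := by
    refine mul_left_cancel₀ (pow_ne_zero 2 u0) ?_
    rw [hy] at e3
    linear_combination e0 + (x - x0) * e1 + z * (x - x0) * e2 - e3
  have mz : z ∈ (aeval z : (ZMod p)[X] →ₐ[ZMod p] κ).range := ⟨X, aeval_X z⟩
  have mx : x ∈ (aeval z : (ZMod p)[X] →ₐ[ZMod p] κ).range := by
    rw [eq_add_of_sub_eq hx]
    exact add_mem (sub_mem (add_mem (pow_mem mz 2) (mul_mem (intCast_mem _ _) mz))
      (add_mem (intCast_mem _ _) (mul_mem (ofNat_mem _ 3) (intCast_mem _ _)))) (intCast_mem _ _)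
  have my : y ∈ (aeval z : (ZMod p)[X] →ₐ[ZMod p] κ).range := by
    rw [hy]
    exact add_mem (intCast_mem _ _) (mul_mem mz (sub_mem mx (intCast_mem _ _)))
  refine ⟨z, hx, hz, ?_, fun u => ?_⟩
  · obtain ⟨g, hg⟩ := mx
    have hg' : aeval z g = x := hg
    rw [← hg'] at tx
    exact (transcendental_aeval_iff.1 tx).1
  · obtain ⟨A, B, A', B', h0, e⟩ := h.frac u
    obtain ⟨g, hg⟩ := gv_mem _ mx my A B
    obtain ⟨g', hg'⟩ := gv_mem _ mx my A' B'
    have hg1 : aeval z g = gv x y A B := hg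
    have hg2 : aeval z g' = gv x y A' B' := hg'
    refine ⟨g, g', ?_, by rw [hg1, hg2, e]⟩
    rintro rfl
    exact h0 (by rw [← hg2, map_zero])

theorem wVdC : OfVdC := by
  intro h1 h2 W p κ _ x y x0 y0 h hS
  have := Fact.mk h.pr
  have : CharP κ p := (CharP.charP_iff_prime_eq_zero h.pr).2 h.ch
  let : Algebra (ZMod p) κ := ZMod.algebra κ p
  obtain ⟨z, hx, hy, tz, hf⟩ := h1 W p κ x y x0 y0 h hS
  have inj := transcendental_iff_injective.1 tz
  obtain ⟨Q, hQ⟩ : ∃ Q : (ZMod p)[X],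
    Q = X ^ 2 + C (W.a₁ : ZMod p) * X - C ((W.a₂ + 3 * x0 : ℤ) : ZMod p) := ⟨_, rfl⟩
  have Qm : Q.Monic := by rw [hQ]; monicity!
  have Qd : Q.natDegree = 2 := by rw [hQ]; compute_degree!
  have Qz : aeval z Q = x - x0 := by
    rw [hQ, hx, map_sub, map_add, map_mul, map_pow, aeval_X, aeval_C, aeval_C, map_intCast,
      map_intCast]
    push_cast; rfl
  have u0 : x - x0 ≠ 0 := fun e => Qm.ne_zero (inj (by rw [Qz, e, map_zero]))
  obtain ⟨d, hd, halt, hfin⟩ := h2 (ZMod p) κ z Q Qm Qd tz hf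
  refine ⟨d, hd, halt.imp id ?_, fun u hu hm hdu => ?_⟩
  · rintro ⟨α', β', hne, hQ', hc, hα⟩
    obtain ⟨α, rfl⟩ := ZMod.intCast_surjective α'
    obtain ⟨β, rfl⟩ := ZMod.intCast_surjective β'
    have E := hQ.symm.trans hQ'
    have E0 := congrArg (eval 0) E
    have E1 := congrArg (eval 1) E
    simp only [eval_sub, eval_add, eval_mul, eval_pow, eval_X, eval_C] at E0 E1
    refine ⟨α, β, ⟨hS, ?_, ?_, ?_⟩, fun q hq => ?_, ?_⟩
    · rw [← ZMod.intCast_zmod_eq_zero_iff_dvd, Int.cast_add, Int.cast_add]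
      linear_combination E1 - E0
    · rw [← ZMod.intCast_zmod_eq_zero_iff_dvd, Int.cast_add, Int.cast_mul]
      linear_combination -E0
    · rw [← ZMod.intCast_zmod_eq_zero_iff_dvd, Int.cast_sub, sub_eq_zero]
      exact hne
    · have := hc ((q.map (algebraMap ℤ (ZMod p))).comp (X + C (x0 : ZMod p)))
        (comp_X_add_C_ne_zero_iff.2 fun e => hq ((map_zero_iff p q).1 e))
      rwa [aeval_comp, Qz, aeval_comp, map_add, aeval_X, aeval_C, map_intCast, sub_add_cancel,
        aeval_map_algebraMap] at this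
    · have z0 : z - algebraMap (ZMod p) κ α ≠ 0 := fun e => tz (by
        rw [sub_eq_zero.1 e]
        exact isAlgebraic_algebraMap _)
      have e : gv x y (-(C α * X + C (y0 - α * x0))) 1 =
          (z - algebraMap (ZMod p) κ α) * (x - x0) := by
        simp only [gv, map_neg, map_add, map_mul, map_sub, aeval_X, map_one, map_intCast,
          eq_intCast]
        linear_combination hy
      have := hc X X_ne_zero
      rw [X_comp, Qz] at this
      rw [e, hd _ _ z0 u0, this, add_zero]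
      exact hα
  · rw [← Qz]
    refine hfin u hu (fun π hπ hπQ => ?_) hdu
    have mz : z ∈ (aeval z : (ZMod p)[X] →ₐ[ZMod p] κ).range := ⟨X, aeval_X z⟩
    have mu : x - x0 ∈ (aeval z : (ZMod p)[X] →ₐ[ZMod p] κ).range := ⟨Q, Qz⟩
    have hle : A1 x y ≤ (aeval z : (ZMod p)[X] →ₐ[ZMod p] κ).range.toSubring := by
      refine Subring.closure_le.2 ?_
      rintro _ (rfl | rfl)
      · simpa using add_mem mu (intCast_mem _ x0)
      · rw [eq_add_of_sub_eq hy]
        exact add_mem (mul_mem mz mu) (intCast_mem _ y0)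
    let ψ : A1 x y →+* (ZMod p)[X] :=
      ((AlgEquiv.ofInjective _ inj).symm : _ →+* (ZMod p)[X]).comp (Subring.inclusion hle)
    have hψ : ∀ a, aeval z (ψ a) = a := fun a =>
      congrArg Subtype.val ((AlgEquiv.ofInjective _ inj).apply_symm_apply (Subring.inclusion hle a))
    obtain ⟨m, hmx, hmem⟩ := mx ψ hπ
    have hQψ : ψ (xa x y - x0) = Q := inj (by rw [hψ, Qz]; simp [xa])
    obtain ⟨a, b, ha, hb, e⟩ := hm m hmx (by rw [hmem, hQψ]; exact hπQ)
    exact ⟨ψ a, ψ b, fun e => ha ((hmem a).2 e), fun e => hb ((hmem b).2 e), by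
      rw [hψ, hψ, e]⟩

end Pool.Agent.MP_f3836a_nt.VE.W
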