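import Pool.Agent.MP_f3836a_nt.VE.SpecW4

/-! Rational functions with zeros and poles on a quadratic polynomial. -/

set_option autoImplicit false

namespace Pool.Agent.MP_f3836a_nt.VE.W

open Polynomial

namespace WVdC2

variable {k κ : Type} [Field k] [Field κ] [Algebra k κ] {z : κ}

theorem ne0 (hz : Transcendental k z) {g : k[X]} (hg : g ≠ 0) : aeval z g ≠ 0 := fun h =>
  hg (transcendental_iff_injective.1 hz (h.trans (map_zero _).symm))

theorem cross (hz : Transcendental k z) {u : κ} {g h g' h' : k[X]}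
    (e : u * aeval z h = aeval z g) (e' : u * aeval z h' = aeval z g') : g * h' = g' * h := by
  apply transcendental_iff_injective.1 hz
  rw [map_mul, map_mul, ← e, ← e']
  ring

theorem num_ne (hz : Transcendental k z) {u : κ} {g h : k[X]} (hu : u ≠ 0) (hh : h ≠ 0)
    (e : u * aeval z h = aeval z g) : g ≠ 0 := by
  rintro rfl
  exact mul_ne_zero hu (ne0 hz hh) (e.trans (map_zero _))

/-- the order at a rational point -/
theorem ord (hz : Transcendental k z)
    (hf : ∀ u : κ, ∃ g h : k[X], h ≠ 0 ∧ u * aeval z h = aeval z g) (a : k) :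
    ∃ o : κ → ℤ, Adz o ∧ ∀ g : k[X], g ≠ 0 → o (aeval z g) = rootMultiplicity a g := by
  choose g h hh e using hf
  have key : ∀ u, u ≠ 0 → ∀ g' h' : k[X], h' ≠ 0 → u * aeval z h' = aeval z g' →
      (rootMultiplicity a (g u) : ℤ) - rootMultiplicity a (h u) =
        rootMultiplicity a g' - rootMultiplicity a h' := by
    intro u hu g' h' hh' e'
    have h1 := congrArg (rootMultiplicity a) (cross hz (e u) e')
    rw [rootMultiplicity_mul (mul_ne_zero (num_ne hz hu (hh u) (e u)) hh'),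
      rootMultiplicity_mul (mul_ne_zero (num_ne hz hu hh' e') (hh u))] at h1
    omega
  refine ⟨fun u => (rootMultiplicity a (g u) : ℤ) - rootMultiplicity a (h u), ?_, ?_⟩
  · intro u v hu hv
    have e' : u * v * aeval z (h u * h v) = aeval z (g u * g v) := by
      rw [map_mul, map_mul, ← e u, ← e v]
      ring
    have h1 := key (u * v) (mul_ne_zero hu hv) _ _ (mul_ne_zero (hh u) (hh v)) e'
    rw [rootMultiplicity_mul (mul_ne_zero (num_ne hz hu (hh u) (e u)) (num_ne hz hv (hh v) (e v))),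
      rootMultiplicity_mul (mul_ne_zero (hh u) (hh v))] at h1
    simp only
    omega
  · intro p hp
    have h1 := key _ (ne0 hz hp) p 1 one_ne_zero (by simp)
    rw [← C_1, rootMultiplicity_C] at h1
    simpa using h1

theorem adz_zpow {d : κ → ℤ} (hd : Adz d) {x : κ} (hx : x ≠ 0) (n : ℤ) : d (x ^ n) = n * d x := by
  have h1 : d 1 = 0 := by
    have := hd 1 1 one_ne_zero one_ne_zero
    rw [mul_one] at this
    omega
  induction n using Int.induction_on with
  | zero => simpa using h1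
  | succ n ih => rw [zpow_add_one₀ hx, hd _ _ (zpow_ne_zero _ hx) hx, ih]; ring
  | pred n ih =>
    have h2 := hd (x ^ (-(n : ℤ) - 1)) x (zpow_ne_zero _ hx) hx
    rw [← zpow_add_one₀ hx, sub_add_cancel, ih] at h2
    linarith

theorem fac {P₁ P₂ : k[X]} (h₁ : Irreducible P₁) (h₂ : Irreducible P₂) (g : k[X]) : g ≠ 0 →
    (∀ π : k[X], Irreducible π → π ∣ g → π ∣ P₁ * P₂) →
    ∃ (c : k) (m n : ℕ), c ≠ 0 ∧ g = C c * P₁ ^ m * P₂ ^ n := by
  induction g using WfDvdMonoid.induction_on_irreducible with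
  | zero => exact fun h => (h rfl).elim
  | unit u hu =>
    obtain ⟨c, hc, rfl⟩ := Polynomial.isUnit_iff.1 hu
    exact fun _ _ => ⟨c, 0, 0, hc.ne_zero, by simp⟩
  | mul a π ha hπ ih =>
    intro _ h
    obtain ⟨c, m, n, hc, rfl⟩ := ih ha fun ρ hρ hd => h ρ hρ (hd.mul_left _)
    rcases hπ.prime.dvd_or_dvd (h π hπ (dvd_mul_right _ _)) with hd | hd
    · obtain ⟨w, rfl⟩ := (hπ.associated_of_dvd h₁ hd).symm
      obtain ⟨c', hc', e⟩ := Polynomial.isUnit_iff.1 w.isUnit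
      exact ⟨c' * c, m + 1, n, mul_ne_zero hc'.ne_zero hc, by rw [← e, C_mul]; ring⟩
    · obtain ⟨w, rfl⟩ := (hπ.associated_of_dvd h₂ hd).symm
      obtain ⟨c', hc', e⟩ := Polynomial.isUnit_iff.1 w.isUnit
      exact ⟨c' * c, m, n + 1, mul_ne_zero hc'.ne_zero hc, by rw [← e, C_mul]; ring⟩

theorem shape (hz : Transcendental k z)
    (hf : ∀ u : κ, ∃ g h : k[X], h ≠ 0 ∧ u * aeval z h = aeval z g) {P₁ P₂ Q : k[X]}
    (h₁ : Irreducible P₁) (h₂ : Irreducible P₂) (hQ : Q ∣ P₁ * P₂) {u : κ} (hu : u ≠ 0)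
    (H : ∀ π : k[X], Irreducible π → ¬π ∣ Q →
      ∃ g h : k[X], ¬π ∣ g ∧ ¬π ∣ h ∧ u * aeval z h = aeval z g) :
    ∃ (c : k) (a b : ℤ), c ≠ 0 ∧ u = algebraMap k κ c * aeval z P₁ ^ a * aeval z P₂ ^ b := by
  classical
  obtain ⟨g₀, h₀, hh₀, e₀⟩ := hf u
  obtain ⟨g, h, eg, eh, hc⟩ := extract_gcd g₀ h₀
  generalize gcd g₀ h₀ = t at eg eh
  subst eg eh
  have hh : h ≠ 0 := right_ne_zero_of_mul hh₀
  have e : u * aeval z h = aeval z g := by
    apply mul_left_cancel₀ (ne0 hz (left_ne_zero_of_mul hh₀))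
    rw [map_mul, map_mul] at e₀
    rw [← e₀]
    ring
  have key : ∀ π : k[X], Irreducible π → π ∣ g ∨ π ∣ h → π ∣ P₁ * P₂ := by
    intro π hπ hd
    by_contra hn
    obtain ⟨g', h', hg', hh', e'⟩ := H π hπ fun h => hn (h.trans hQ)
    have hx := cross hz e e'
    have hb : π ∣ g ∧ π ∣ h := by
      rcases hd with hd | hd
      · exact ⟨hd, (hπ.prime.dvd_or_dvd (hx ▸ hd.mul_right h')).resolve_left hg'⟩
      · exact ⟨(hπ.prime.dvd_or_dvd (hx ▸ hd.mul_left g')).resolve_right hh', hd⟩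
    exact hπ.not_isUnit (isUnit_of_dvd_unit (dvd_gcd hb.1 hb.2) hc)
  obtain ⟨c, m, n, hc0, rfl⟩ := fac h₁ h₂ g (num_ne hz hu hh e) fun π hπ h => key π hπ (.inl h)
  obtain ⟨c', m', n', hc0', rfl⟩ := fac h₁ h₂ h hh fun π hπ h => key π hπ (.inr h)
  refine ⟨c / c', m - m', n - n', div_ne_zero hc0 hc0', ?_⟩
  have p₁ := ne0 hz h₁.ne_zero
  have p₂ := ne0 hz h₂.ne_zero
  have p₃ : algebraMap k κ c' ≠ 0 := (_root_.map_ne_zero _).2 hc0'
  simp only [map_mul, map_pow, aeval_C] at e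
  rw [zpow_sub₀ p₁, zpow_sub₀ p₂, map_div₀, zpow_natCast, zpow_natCast, zpow_natCast,
    zpow_natCast]
  field_simp
  linear_combination e

theorem tors [Finite k] : ∃ j : ℕ, 0 < j ∧ ∀ c : k, c ≠ 0 → algebraMap k κ c ^ j = 1 := by
  have := Fintype.ofFinite k
  refine ⟨Fintype.card k - 1, Nat.sub_pos_of_lt Fintype.one_lt_card, fun c hc => ?_⟩
  rw [← map_pow, FiniteField.pow_card_sub_one_eq_one c hc, map_one]

theorem split {Q : k[X]} (hm : Q.Monic) (hd : Q.natDegree = 2) (h : ¬Irreducible Q) :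
    ∃ α β : k, Q = (X - C α) * (X - C β) := by
  rw [hm.irreducible_iff_roots_eq_zero_of_degree_le_three hd.ge (by omega)] at h
  obtain ⟨α, hα⟩ := Multiset.exists_mem_of_ne_zero h
  obtain ⟨R, rfl⟩ := dvd_iff_isRoot.2 (isRoot_of_mem_roots hα)
  have hR : R.Monic := (monic_X_sub_C α).of_mul_monic_left hm
  rw [(monic_X_sub_C α).natDegree_mul hR, natDegree_X_sub_C] at hd
  refine ⟨α, -R.coeff 0, ?_⟩
  rw [C_neg, sub_neg_eq_add, ← hR.eq_X_add_C (by omega)]

end WVdC2

open WVdC2 in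
theorem wVdC2 : VdC2 := by
  intro k κ _ _ _ _ z Q hm hd hz hf
  obtain ⟨j, hj, ht⟩ := tors (k := k) (κ := κ)
  have h0 : Adz (fun _ : κ => (0 : ℤ)) := fun _ _ _ _ => rfl
  by_cases hi : Irreducible Q
  · refine ⟨_, h0, .inl fun _ => rfl, fun u hu H _ => ?_⟩
    obtain ⟨c, a, b, hc, e⟩ := shape hz hf hi hi (dvd_mul_right _ _) hu H
    refine ⟨(a + b) * j, j, hj, ?_⟩
    rw [e, mul_assoc, mul_pow, ht c hc, one_mul, ← zpow_add₀ (ne0 hz hm.ne_zero), zpow_mul,
      zpow_natCast]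
  obtain ⟨α, β, rfl⟩ := split hm hd hi
  have iα := irreducible_X_sub_C α
  have iβ := irreducible_X_sub_C β
  have pα := ne0 hz iα.ne_zero
  have pβ := ne0 hz iβ.ne_zero
  by_cases hab : α = β
  · subst hab
    refine ⟨_, h0, .inl fun _ => rfl, fun u hu H _ => ?_⟩
    obtain ⟨c, a, b, hc, e⟩ := shape hz hf iα iα dvd_rfl hu H
    refine ⟨(a + b) * j, j * 2, by omega, ?_⟩
    rw [e, pow_mul, mul_assoc, mul_pow, ht c hc, one_mul, ← zpow_add₀ pα, map_mul, mul_zpow,
      zpow_mul, zpow_natCast, sq]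
  obtain ⟨o, ho, eo⟩ := ord hz hf α
  obtain ⟨o', ho', eo'⟩ := ord hz hf β
  have hD : Adz fun u => o u - o' u := fun f g hf hg => by
    simp only [ho f g hf hg, ho' f g hf hg]
    ring
  have r0 : ∀ a b : k, a ≠ b → rootMultiplicity a (X - C b) = 0 := fun a b h =>
    rootMultiplicity_eq_zero (by simpa [sub_eq_zero] using h)
  have dα : o (aeval z (X - C α)) - o' (aeval z (X - C α)) = 1 := by
    rw [eo _ iα.ne_zero, eo' _ iα.ne_zero, rootMultiplicity_X_sub_C_self, r0 β α (Ne.symm hab)]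
    rfl
  have dβ : o (aeval z (X - C β)) - o' (aeval z (X - C β)) = -1 := by
    rw [eo _ iβ.ne_zero, eo' _ iβ.ne_zero, rootMultiplicity_X_sub_C_self, r0 α β hab]
    rfl
  refine ⟨_, hD, .inr ⟨α, β, hab, rfl, fun g hg => ?_, ?_⟩, fun u hu H hu0 => ?_⟩
  · obtain ⟨q, e, hq⟩ := exists_eq_pow_rootMultiplicity_mul_and_not_dvd g hg 0
    rw [dvd_iff_isRoot] at hq
    have nα : ¬IsRoot (q.comp ((X - C α) * (X - C β))) α := by simpa [eval_comp] using hq
    have nβ : ¬IsRoot (q.comp ((X - C α) * (X - C β))) β := by simpa [eval_comp] using hq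
    have hq0 : q.comp ((X - C α) * (X - C β)) ≠ 0 := fun h => nα (by rw [h]; simp)
    have e1 := hD _ _ (pow_ne_zero (rootMultiplicity 0 g) (mul_ne_zero pα pβ)) (ne0 hz hq0)
    have e2 := adz_zpow hD (mul_ne_zero pα pβ) (rootMultiplicity 0 g : ℕ)
    have e3 := hD _ _ pα pβ
    simp only [zpow_natCast] at e1 e2 e3
    rw [e2, e3, dα, dβ, eo _ hq0, eo' _ hq0, rootMultiplicity_eq_zero nα,
      rootMultiplicity_eq_zero nβ] at e1
    rw [e, mul_comp, pow_comp, C_0, sub_zero, X_comp, map_mul, map_pow, map_mul]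
    simpa using e1
  · have e1 : aeval z (X - C α) = z - algebraMap k κ α := by simp
    rw [← e1]
    simp only [dα]
    exact one_ne_zero
  · obtain ⟨c, a, b, hc, e⟩ := shape hz hf iα iβ dvd_rfl hu H
    have pc : algebraMap k κ c ≠ 0 := (_root_.map_ne_zero _).2 hc
    have dc : o (algebraMap k κ c) - o' (algebraMap k κ c) = 0 := by
      rw [← aeval_C z c, eo _ (C_ne_zero.2 hc), eo' _ (C_ne_zero.2 hc), rootMultiplicity_C,
        rootMultiplicity_C, sub_self]
    have e1 := hD _ _ (mul_ne_zero pc (zpow_ne_zero a pα)) (zpow_ne_zero b pβ)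
    have e2 := hD _ _ pc (zpow_ne_zero a pα)
    have e3 := adz_zpow hD pα a
    have e4 := adz_zpow hD pβ b
    simp only at e1 e2 e3 e4 hu0
    rw [← e, hu0, e2, e3, e4, dc, dα, dβ] at e1
    have hb : b = a := by omega
    refine ⟨a * j, j, hj, ?_⟩
    rw [e, hb, mul_assoc, mul_pow, ht c hc, one_mul, ← mul_zpow, map_mul, zpow_mul, zpow_natCast]

end Pool.Agent.MP_f3836a_nt.VE.W
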