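import Pool.Agent.MP_f3836a_nt.VE.SpecW4

/-! Part W: a functional on one fibre is a coboundary up to the obstruction at a split node. -/

set_option autoImplicit false

namespace Pool.Agent.MP_f3836a_nt.VE.W

open Polynomial IsLocalRing PK VE.A VE.T

namespace WVer

theorem split {Z : Type} [DecidableEq Z] (o : Z → ℤ) (h : {z | o z ≠ 0}.Finite) (z0 : Z) (a : ℚ) (α : Z → ℚ) :
    ∑ᶠ z, (o z : ℚ) * (if z = z0 then a else α z) =
      ∑ᶠ z, ((if z = z0 then 0 else o z : ℤ) : ℚ) * α z + a * o z0 := by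
  have e : a * o z0 = ∑ᶠ z, if z = z0 then a * o z0 else 0 := by
    rw [finsum_eq_single _ z0 fun z hz => if_neg hz, if_pos rfl]
  rw [e, ← finsum_add_distrib]
  · refine finsum_congr fun z => ?_
    by_cases hz : z = z0 <;> simp [hz, mul_comm]
  · refine h.subset fun z hz h0 => hz ?_
    simp [h0]
  · refine (Set.finite_singleton z0).subset fun z hz => ?_
    by_contra h0
    exact hz (if_neg h0)

theorem not_dvd {p : ℕ} (hp : p.Prime) : ¬C (p : ℤ) ∣ (1 : ℤ[X]) := fun h =>
  (Nat.prime_iff_prime_int.1 hp).not_isUnit (isUnit_C.1 (isUnit_of_dvd_one h))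

end WVer

theorem wVer : OfVer := by
  classical
  intro hVa hRed hVd W K _ _ x y Pt _ O κ _ r hΔ hG geo fin D p lam a hv hlam
  obtain ⟨Si, hSi⟩ := geo.chi.ex p hv.1
  obtain ⟨z0, rfl⟩ := geo.cle p Si (Or.inr hSi)
  set zi : Cl Pt := ⟨z0, (geo.cl z0).2 ⟨p, Or.inr hSi⟩⟩ with hzi
  have dv := geo.dv D.1 D.2
  obtain ⟨d, dA, dB, dC⟩ := hVd W K x y hΔ hG geo.cha p _ _ (r D.1) hv dv
  obtain ⟨gp, hg, -⟩ := hRed W K x y hΔ hG geo.cha p _ _ (r D.1) hv dv
  obtain ⟨α, c, h⟩ := hVa (κ D.1) (Cl Pt)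
    (fun z u => if z = zi then 0 else od (O D.1) (r D.1) (O z.1) u) d
    (fun u => lam u - a * od (O D.1) (r D.1) (O zi.1) u)
    (fun z f g hf hg => by
      by_cases hz : z = zi
      · simp [hz]
      · simp only [if_neg hz]
        exact fin.mul D z f g hf hg) dA
    (fun f hf => (fin.fin D f hf).subset fun z hz h0 => hz (by simp [h0]))
    (fun f hf h0 => dC f hf fun S hS => by
      obtain ⟨z, rfl⟩ := geo.cle p S (Or.inl hS)
      have := h0 ⟨z, (geo.cl z).2 ⟨p, Or.inl hS⟩⟩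
      rwa [if_neg fun e => geo.ai p p _ hS (by
        rw [show z = z0 from congrArg Subtype.val e]; exact hSi)] at this)
    (fun f g hf hg => by
      beta_reduce
      rw [hlam f g hf hg, fin.mul D zi f g hf hg]
      push_cast
      ring)
  have key : ∀ u, u ≠ 0 → lam u - cob O r (fun z => if z = zi then a else α z) D u = c * d u :=
    fun u hu => by
      rw [cob, WVer.split _ (fin.fin D u hu)]
      linear_combination h u hu
  have ne : ∀ A B : ℤ[X], ¬Dv p A B → resR (O D.1) (r D.1) (gv x y A B) ≠ 0 := fun A B h1 h2 =>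
    h1 (gp.ind A B ((hg A B).symm.trans h2))
  refine ⟨fun z => if z = zi then a else α z, fun z hz => if_pos (Subtype.ext
    (geo.inj (geo.chi.uniq p _ _ hz hSi))), ?_⟩
  rcases dB with h0 | ⟨x0, y0, s, t, h1, h2, h3⟩
  · exact Or.inl fun u hu => by
      beta_reduce
      rw [key u hu, h0, Int.cast_zero, mul_zero]
  refine Or.inr ⟨x0, y0, s, t, h1, fun q hq => ?_, fun e u hu => ?_⟩
  · have := ne q 0 fun e => hq e.1
    rw [gv, map_zero, zero_mul, add_zero] at this
    beta_reduce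
    rw [key _ this, h2 q hq, Int.cast_zero, mul_zero]
  · beta_reduce at e ⊢
    rw [key _ (ne _ 1 fun e => WVer.not_dvd hv.1 e.2)] at e
    rw [key u hu, (mul_eq_zero.1 e).resolve_right (Int.cast_ne_zero.2 h3), zero_mul]

end Pool.Agent.MP_f3836a_nt.VE.W
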