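import Pool.Agent.MP_f3836a_nt.VE.All
import Pool.Agent.MP_f3836a_nt.VE.WAll1
import Pool.Agent.MP_f3836a_nt.VE.WAll2
import Pool.Agent.MP_f3836a_nt.VE.WChI
import Pool.Agent.MP_f3836a_nt.VE.WGeo1
import Pool.Agent.MP_f3836a_nt.VE.WGeo2
import Pool.Agent.MP_f3836a_nt.VE.WGeo3
import Pool.Agent.MP_f3836a_nt.VE.WKeyS
import Pool.Agent.MP_f3836a_nt.VE.WCh1
import Pool.Agent.MP_f3836a_nt.VE.WCh2
import Pool.Agent.MP_f3836a_nt.VE.WMod
import Pool.Agent.MP_f3836a_nt.VE.WInf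
import Pool.Agent.MP_f3836a_nt.VE.WSm
import Pool.Agent.MP_f3836a_nt.VE.WSing
import Pool.Agent.MP_f3836a_nt.VE.WVdC1
import Pool.Agent.MP_f3836a_nt.VE.WVdC2
import Pool.Agent.MP_f3836a_nt.VE.WVd
import Pool.Agent.MP_f3836a_nt.VE.WDel
import Pool.Agent.MP_f3836a_nt.VE.WFinX
import Pool.Agent.MP_f3836a_nt.VE.WVer
import Pool.Agent.MP_f3836a_nt.VE.WHor
import Pool.Agent.MP_f3836a_nt.VE.WRed
import Pool.Agent.MP_f3836a_nt.VE.WMain
import Pool.Agent.MP_f3836a_nt.VE.WSd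

/-! Part W: assembly. -/

set_option autoImplicit false

namespace Pool.Agent.MP_f3836a_nt.VE.W

theorem smoS : SmoS := wSmo wLc odS regS wSm

theorem redP : RedP := wRedP wLc

theorem vdS : VdS := wVd wLc odS smoS wSing wVdB (wVdC wVdC1 wVdC2) redP

theorem redS : RedS :=
  wRed twS (T.rBr A.fibres (T.rGen T.rDim) T.rTameA) T.all wMod wSing wTwi (wDel wLc) (wHor wTr)

/-- the theorem on the level of rings -/
theorem mainW : MainW :=
  wMain (wChA wLc T.rDed T.rCj wCh1 wCh2 wMod) (wChI wLc regS wInf) (wGeo1 wLc wHt) (wGeo2 wLc)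
    (wGeo3 wLc) (wFinX wLc odS finC) (wKeyA smoS keyU (wKeyS wLc T.rQuad kbS fulS ksS)) wCob
    (wZero wLc odS wCob) (wVer wVa redP vdS) redS

theorem finalW : FinalW := wFinal mainW

end Pool.Agent.MP_f3836a_nt.VE.W
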