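import Pool.Agent.MP_f3836a_nt.VE.SpecW2
import Pool.Agent.MP_f3836a_nt.PK.TAlpha

/-! Rows Cob and Va: functions on points and additive functions on a field. -/

set_option autoImplicit false

namespace Pool.Agent.MP_f3836a_nt.VE.W

open PK

theorem wCob : CobS := by
  intro I Z κ _ o α ho hf
  have hs : ∀ i f, f ≠ 0 → Function.HasFiniteSupport fun z => (o i z f : ℚ) * α z :=
    fun i f h => (hf i f h).subset fun z hz e => hz (by simp [e])
  have ha : ∀ i, Addv fun f => ∑ᶠ z, (o i z f : ℚ) * α z := fun i f g h h' => by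
    rw [← finsum_add_distrib (hs i f h) (hs i g h')]
    exact finsum_congr fun z => by rw [ho i z f g h h', Int.cast_add, add_mul]
  refine ⟨ha, fun φ lam h0 h1 h2 hl => ?_⟩
  have key : ∀ {M : Type} [AddCommMonoid M] (F : ∀ i, κ i → M), (∀ i, F i 1 = 0) →
      ∑ᶠ i, F i (φ i) = ∑ i ∈ h1.toFinset, F i (φ i) := fun F hF =>
    finsum_eq_sum_of_support_subset_of_finite _
      (fun i hi (e : φ i = 1) => hi (by simp only [e, hF])) h1
  rw [key (fun i f => lam i f - ∑ᶠ z, (o i z f : ℚ) * α z) fun i =>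
      sub_eq_zero.2 ((SComp.addv_one (hl i)).trans (SComp.addv_one (ha i)).symm),
    key lam fun i => SComp.addv_one (hl i), Finset.sum_sub_distrib, sub_eq_self,
    sum_finsum_comm _ _ fun i _ => hs i _ (h0 i)]
  refine finsum_eq_zero_of_forall_eq_zero fun z => ?_
  rw [← Finset.sum_mul, ← Int.cast_sum, ← key (fun i => o i z) fun i => by
    simpa using ho i z 1 1 one_ne_zero one_ne_zero, h2, Int.cast_zero, zero_mul]

theorem wVa : VaS := by
  intro κ Z _ o d μ ho hd hf ht hμ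
  let dv : Additive κˣ →+ (Z →₀ ℤ) × ℤ := AddMonoidHom.mk'
    (fun u => (Finsupp.ofSupportFinite (fun z => o z (u.toMul : κˣ)) (hf _ u.toMul.ne_zero),
      d (u.toMul : κˣ))) fun u v => Prod.ext
    (Finsupp.ext fun z => ho z _ _ u.toMul.ne_zero v.toMul.ne_zero)
    (hd _ _ u.toMul.ne_zero v.toMul.ne_zero)
  let lm : Additive κˣ →+ ℚ := AddMonoidHom.mk'
    (fun u => μ (u.toMul : κˣ)) fun u v => hμ _ _ u.toMul.ne_zero v.toMul.ne_zero
  obtain ⟨h, hh⟩ := rExt _ _ dv lm fun a ha => by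
    obtain ⟨j, h1, h2⟩ := ht _ a.toMul.ne_zero
      (fun z => congrArg (fun b : (Z →₀ ℤ) × ℤ => b.1 z) ha) (congrArg Prod.snd ha)
    have h3 : j • a = 0 := Additive.toMul.injective (Units.ext (by simpa using h2))
    have h4 := congrArg lm h3
    rw [map_nsmul, map_zero] at h4
    exact (smul_eq_zero.1 h4).resolve_left h1.ne'
  refine ⟨fun z => h (Finsupp.single z 1, 0), h (0, 1), fun f h0 => ?_⟩
  refine (hh (Additive.ofMul (Units.mk0 f h0))).symm.trans ?_
  rw [← Prod.fst_add_snd (dv _), map_add]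
  refine congrArg₂ _ (TAlpha.hom_eq (h.comp (AddMonoidHom.inl _ _)) _) ?_
  rw [mul_comm, ← zsmul_eq_mul, ← map_zsmul, Prod.smul_mk, smul_zero, smul_eq_mul, mul_one]
  rfl

end Pool.Agent.MP_f3836a_nt.VE.W
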