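import Pool.Agent.MP_f3836a_nt.VE.SpecW4

/-! The value at infinity. -/

set_option autoImplicit false

namespace Pool.Agent.MP_f3836a_nt.VE.W

open Polynomial IsLocalRing PK VE.A VE.T

namespace WInf

variable {K : Type} [Field K] {x y : K}

/-- elements of weight less than `w` -/
def G (x y : K) (w : ℕ) : AddSubgroup K :=
  AddSubgroup.closure {z | ∃ i j : ℕ, 2 * i + 3 * j < w ∧ z = x ^ i * y ^ j}

theorem mon {w : ℕ} (i j : ℕ) (h : 2 * i + 3 * j < w) : x ^ i * y ^ j ∈ G x y w :=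
  AddSubgroup.subset_closure ⟨i, j, h, rfl⟩

theorem zm {S : AddSubgroup K} {z : K} (c : ℤ) (h : z ∈ S) : c * z ∈ S := by
  simpa using S.zsmul_mem h c

theorem sh {w w' : ℕ} {z : K} (i j : ℕ) (h : z ∈ G x y w) (hw : w + 2 * i + 3 * j ≤ w') :
    x ^ i * y ^ j * z ∈ G x y w' := by
  induction h using AddSubgroup.closure_induction with
  | mem z hz =>
    obtain ⟨a, b, h, rfl⟩ := hz
    convert mon (x := x) (y := y) (w := w') (i + a) (j + b) (by omega) using 1
    ring
  | zero => simp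
  | add a b _ _ ha hb => rw [mul_add]; exact add_mem ha hb
  | neg a _ ha => rw [mul_neg]; exact neg_mem ha

theorem mul {w w' : ℕ} {z z' : K} (h : z ∈ G x y w) (h' : z' ∈ G x y w') :
    z * z' ∈ G x y (w + w') := by
  induction h using AddSubgroup.closure_induction with
  | mem z hz =>
    obtain ⟨a, b, h, rfl⟩ := hz
    exact sh a b h' (by omega)
  | zero => simp
  | add a b _ _ ha hb => rw [add_mul]; exact add_mem ha hb
  | neg a _ ha => rw [neg_mul]; exact neg_mem ha

/-- reduced elements -/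
def Q (x y : K) (w : ℕ) : AddSubgroup K where
  carrier := {z | ∃ A B : ℤ[X], z = gv x y A B ∧ ∀ i, w ≤ 2 * i → A.coeff i = 0}
  add_mem' := by
    rintro _ _ ⟨A, B, rfl, h⟩ ⟨A', B', rfl, h'⟩
    exact ⟨A + A', B + B', by simp only [gv, map_add]; ring, fun i hi => by simp [h i hi, h' i hi]⟩
  zero_mem' := ⟨0, 0, by simp [gv], by simp⟩
  neg_mem' := by
    rintro _ ⟨A, B, rfl, h⟩
    exact ⟨-A, -B, by simp only [gv, map_neg]; ring, fun i hi => by simp [h i hi]⟩

variable {W : WeierstrassCurve ℤ}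

theorem red (h : eW W x y = 0) (w : ℕ) : G x y w ≤ Q x y w := by
  refine (AddSubgroup.closure_le _).2 ?_
  rintro _ ⟨i, j, hw, rfl⟩
  induction j using Nat.twoStepInduction generalizing i with
  | zero => exact ⟨X ^ i, 0, by simp [gv], fun k hk => by rw [coeff_X_pow, if_neg (by omega)]⟩
  | one => exact ⟨0, X ^ i, by simp [gv], by simp⟩
  | more j h0 h1 =>
    have := sub_mem (sub_mem (add_mem (add_mem (add_mem (h0 (i + 3) (by omega))
      (zm W.a₂ (h0 (i + 2) (by omega)))) (zm W.a₄ (h0 (i + 1) (by omega))))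
      (zm W.a₆ (h0 i (by omega)))) (zm W.a₁ (h1 (i + 1) (by omega)))) (zm W.a₃ (h1 i (by omega)))
    convert this using 1
    rw [eW] at h
    refine iff_of_eq (congrArg (· ∈ Q x y w) ?_)
    linear_combination x ^ i * y ^ j * h

theorem ev (h : eW W x y = 0) (m : ℕ) : y ^ (2 * m) - x ^ (3 * m) ∈ G x y (6 * m) := by
  have b : y ^ 2 - x ^ 3 ∈ G x y 6 := by
    have := sub_mem (sub_mem (add_mem (add_mem (zm W.a₂ (mon (x := x) (y := y) (w := 6) 2 0
      (by omega))) (zm W.a₄ (mon 1 0 (by omega)))) (zm W.a₆ (mon 0 0 (by omega))))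
      (zm W.a₁ (mon 1 1 (by omega)))) (zm W.a₃ (mon 0 1 (by omega)))
    convert this using 1
    rw [eW] at h
    linear_combination h
  induction m with
  | zero => simp
  | succ m ih =>
    convert add_mem (sh (w' := 6 * (m + 1)) 0 2 ih (by omega)) (sh (3 * m) 0 b (by omega)) using 1
    ring

/-- the value is `c` -/
def Rel (x y b : K) (c : ℤ) : Prop := ∃ n : ℕ, y ^ n * (b - c) ∈ G x y (3 * n)

theorem Rel.add {b b' : K} {c c' : ℤ} (h : Rel x y b c) (h' : Rel x y b' c') :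
    Rel x y (b + b') (c + c') := by
  obtain ⟨n, h⟩ := h
  obtain ⟨n', h'⟩ := h'
  refine ⟨n + n', ?_⟩
  convert add_mem (sh (w' := 3 * (n + n')) 0 n' h (by omega)) (sh 0 n h' (by omega)) using 1
  push_cast
  ring

theorem Rel.mul {b b' : K} {c c' : ℤ} (h : Rel x y b c) (h' : Rel x y b' c') :
    Rel x y (b * b') (c * c') := by
  obtain ⟨n, h⟩ := h
  obtain ⟨n', h'⟩ := h'
  refine ⟨n + n', ?_⟩
  rw [mul_add 3]
  convert add_mem (add_mem (WInf.mul h h') (zm c' (sh 0 n' h (by omega))))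
    (zm c (sh 0 n h' (by omega))) using 1
  push_cast
  ring

theorem int (c : ℤ) : Rel x y c c := ⟨0, by simp⟩

theorem Rel.neg {b : K} {c : ℤ} (h : Rel x y b c) : Rel x y (-b) (-c) := by
  simpa using (int (-1)).mul h

theorem Rel.top (h : eW W x y = 0) {b : K} {c : ℤ} (hb : Rel x y b c) :
    ∃ (n i : ℕ) (A B : ℤ[X]), y ^ n * b = gv x y A B ∧ A.coeff i = c := by
  obtain ⟨n, hb⟩ := hb
  obtain ⟨A, B, e, hA⟩ := red h _ (add_mem (sh (w' := 6 * n) 0 n hb (by omega)) (zm c (ev h n)))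
  refine ⟨2 * n, 3 * n, A + C c * X ^ (3 * n), B, ?_, ?_⟩
  · simp only [gv, map_add, map_mul, map_pow, aeval_X, eq_intCast, map_intCast] at e ⊢
    linear_combination e
  · rw [coeff_add, hA _ (by omega), coeff_C_mul, coeff_X_pow, if_pos rfl, mul_one, zero_add]

end WInf

open WInf in
theorem wInf : InfA := by
  intro W K _ _ x y _ h
  have y0 : y ≠ 0 := fun e => one_ne_zero (h.ind 0 1 (by simp [gv, e])).2
  have uq : ∀ {b : K} {c c' : ℤ}, Rel x y b c → Rel x y b c' → c = c' := fun h1 h2 => by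
    obtain ⟨n, i, A, B, e, hA⟩ := (h1.add h2.neg).top h.eq
    rw [add_neg_cancel, mul_zero] at e
    rw [(h.ind A B e.symm).1, coeff_zero] at hA
    omega
  have g : ∀ a : K, a = x / y ∨ a = 1 / y → Rel x y a 0 := by
    rintro _ (rfl | rfl)
    · exact ⟨1, by convert mon (x := x) (y := y) (w := 3) 1 0 (by omega) using 1; field_simp; simp⟩
    · exact ⟨1, by convert mon (x := x) (y := y) (w := 3) 0 0 (by omega) using 1; field_simp; simp⟩
  have ex : ∀ b : A2 x y, ∃ c, Rel x y b c := by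
    rintro ⟨b, hb⟩
    induction hb using Subring.closure_induction with
    | mem a ha => exact ⟨0, g a ha⟩
    | zero => exact ⟨0, by simpa using WInf.int 0⟩
    | one => exact ⟨1, by simpa using WInf.int 1⟩
    | add a b _ _ ha hb => exact ⟨_, ha.choose_spec.add hb.choose_spec⟩
    | neg a _ ha => exact ⟨_, ha.choose_spec.neg⟩
    | mul a b _ _ ha hb => exact ⟨_, ha.choose_spec.mul hb.choose_spec⟩
  choose ε hε using ex
  refine ⟨⟨⟨⟨ε, uq (hε 1) (by simpa using WInf.int 1)⟩, fun a b => uq (hε _) ((hε a).mul (hε b))⟩,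
    uq (hε 0) (by simpa using WInf.int 0), fun a b => uq (hε _) ((hε a).add (hε b))⟩,
    fun a ha => uq (hε a) (g a ha), fun b p _ hp => ?_⟩
  obtain ⟨n, i, A, B, e, hA⟩ := (hε b).top h.eq
  exact ⟨n, A, B, e, fun d => hp (by
    have := (C_dvd_iff_dvd_coeff _ _).1 d.1 i
    rwa [hA] at this)⟩

end Pool.Agent.MP_f3836a_nt.VE.W
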