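import Pool.Agent.MP_f3836a_nt.VE.All
import Pool.Agent.MP_f3836a_nt.VE.WAll1
import Pool.Agent.MP_f3836a_nt.VE.WAll2
import Pool.Agent.MP_f3836a_nt.VE.WCh1
import Pool.Agent.MP_f3836a_nt.VE.WCh2
import Pool.Agent.MP_f3836a_nt.VE.WChI
import Pool.Agent.MP_f3836a_nt.VE.WDel
import Pool.Agent.MP_f3836a_nt.VE.WFinX
import Pool.Agent.MP_f3836a_nt.VE.WGeo1
import Pool.Agent.MP_f3836a_nt.VE.WGeo2
import Pool.Agent.MP_f3836a_nt.VE.WGeo3
import Pool.Agent.MP_f3836a_nt.VE.WHor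
import Pool.Agent.MP_f3836a_nt.VE.WInf
import Pool.Agent.MP_f3836a_nt.VE.WKeyS
import Pool.Agent.MP_f3836a_nt.VE.WMain
import Pool.Agent.MP_f3836a_nt.VE.WMod
import Pool.Agent.MP_f3836a_nt.VE.WRed
import Pool.Agent.MP_f3836a_nt.VE.WSing
import Pool.Agent.MP_f3836a_nt.VE.WSm
import Pool.Agent.MP_f3836a_nt.VE.WVd
import Pool.Agent.MP_f3836a_nt.VE.WVdC1
import Pool.Agent.MP_f3836a_nt.VE.WVdC2
import Pool.Agent.MP_f3836a_nt.VE.WVer
import Pool.Agent.MP_f3836a_nt.VE.WSd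

/-! Part W: the final assembly. -/

set_option autoImplicit false

namespace Pool.Agent.MP_f3836a_nt.VE.W.End

theorem chAS : ChAS := wChA wLc T.rDed T.rCj wCh1 wCh2 wMod
theorem smoS : SmoS := wSmo wLc odS regS wSm
theorem vdS : VdS := wVd wLc odS smoS wSing wVdB (wVdC wVdC1 wVdC2) (wRedP wLc)

theorem mainW : MainW :=
  wMain chAS (wChI wLc regS wInf) (wGeo1 wLc wHt) (wGeo2 wLc) (wGeo3 wLc) (wFinX wLc odS finC)
    (wKeyA smoS keyU (wKeyS wLc T.rQuad kbS fulS ksS)) wCob (wZero wLc odS wCob)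
    (wVer wVa (wRedP wLc) vdS)
    (wRed twS (T.rBr A.fibres (T.rGen T.rDim) T.rTameA) T.all wMod wSing wTwi (wDel wLc) (wHor wTr))

theorem finalW : FinalW := wFinal mainW

end Pool.Agent.MP_f3836a_nt.VE.W.End
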