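import Pool.Agent.MP_f3836a_nt.VE.SpecW1

/-! A fibre without points near the node. -/

set_option autoImplicit false

namespace Pool.Agent.MP_f3836a_nt.VE.W

namespace WNodb

variable {p : ℕ} [Fact p.Prime]

theorem sq_int {z : ℚ_[p]} {v : ℤ_[p]} (h : z ^ 2 = v) : IsSquare v := by
  have h1 : ‖z‖ ≤ 1 := by
    have h2 : ‖z‖ ^ 2 ≤ 1 := by
      rw [← norm_pow, h]
      exact v.2
    nlinarith [norm_nonneg z]
  exact ⟨⟨z, h1⟩, Subtype.ext (by rw [← h, sq]; rfl)⟩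

theorem sq_cancel {b v : ℤ_[p]} (hb : b ≠ 0) (h : IsSquare (b ^ 2 * v)) : IsSquare v := by
  obtain ⟨c, hc⟩ := h
  have hb' : (b : ℚ_[p]) ≠ 0 := PadicInt.coe_ne_zero.2 hb
  have hc' : (b : ℚ_[p]) ^ 2 * v = c * c := by
    exact_mod_cast congrArg (fun x : ℤ_[p] => (x : ℚ_[p])) hc
  refine sq_int (z := (c : ℚ_[p]) / (b : ℚ_[p])) ?_
  rw [div_pow, sq (c : ℚ_[p]), ← hc']
  field_simp

theorem key {γ b : ℤ_[p]} (hγ : IsUnit γ) :
    ∃ u, ¬IsSquare (γ ^ 2 * u ^ 2 + 4 * (p * b) * u ^ 3 + 4) := by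
  by_contra hc
  push Not at hc
  rcases eq_or_ne p 2 with rfl | h2
  · obtain ⟨c, e⟩ := (hc 1).map (PadicInt.toZModPow 3)
    obtain ⟨g, hg⟩ := (hγ.map (PadicInt.toZModPow 3)).exists_right_inv
    simp only [map_add, map_mul, map_pow, map_one, map_ofNat, map_natCast] at e
    revert e hg
    generalize PadicInt.toZModPow 3 γ = x
    generalize PadicInt.toZModPow 3 b = y
    revert x y c g
    decide
  · have hg : PadicInt.toZMod γ ≠ 0 := (hγ.map _).ne_zero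
    have step : ∀ y : ZMod p, IsSquare y → IsSquare (y + 4) := by
      rintro _ ⟨x, rfl⟩
      obtain ⟨u, hu⟩ := ZMod.ringHom_surjective (PadicInt.toZMod (p := p))
        (x / PadicInt.toZMod γ)
      have := (hc u).map (PadicInt.toZMod (p := p))
      simp only [map_add, map_mul, map_pow, map_ofNat, map_natCast, hu, ZMod.natCast_self,
        zero_mul, mul_zero, add_zero] at this
      have e : PadicInt.toZMod γ ^ 2 * (x / PadicInt.toZMod γ) ^ 2 = x * x := by field_simp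
      rwa [e] at this
    have all : ∀ k : ℕ, IsSquare (4 * k : ZMod p) := by
      intro k
      induction k with
      | zero => simp
      | succ k ih => simpa [mul_add] using step _ ih
    have hr : ringChar (ZMod p) ≠ 2 := by rwa [ZMod.ringChar_zmod_n]
    have h4 : (4 : ZMod p) ≠ 0 := by
      have : (2 : ZMod p) ≠ 0 := Ring.two_ne_zero hr
      rw [show (4 : ZMod p) = 2 * 2 by norm_num]
      exact mul_ne_zero this this
    obtain ⟨a, ha⟩ := FiniteField.exists_nonsquare hr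
    have := all (a / 4).val
    rw [ZMod.natCast_zmod_val, mul_div_cancel₀ _ h4] at this
    exact ha this

theorem point {γ d : ℤ_[p]} (hγ : IsUnit γ) (hd : d ≠ 0) (hp : (p : ℤ_[p]) ∣ d) :
    ∃ τ : ℤ_[p], p * d ∣ τ ^ 3 ∧ ¬IsSquare (γ ^ 2 * τ ^ 2 + 4 * τ ^ 3 + 4 * d) := by
  by_cases hs : IsSquare d
  · obtain ⟨b, rfl⟩ := hs
    have hb : b ≠ 0 := left_ne_zero_of_mul hd
    obtain ⟨c, hc⟩ : (p : ℤ_[p]) ∣ b := (PadicInt.prime_p.dvd_or_dvd hp).elim id id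
    obtain ⟨u, hu⟩ := key (b := c) hγ
    refine ⟨b * u, ⟨c * u ^ 3, by rw [hc]; ring⟩, fun h => hu (sq_cancel hb ?_)⟩
    rwa [← hc, show b ^ 2 * (γ ^ 2 * u ^ 2 + 4 * b * u ^ 3 + 4) =
      γ ^ 2 * (b * u) ^ 2 + 4 * (b * u) ^ 3 + 4 * (b * b) by ring]
  · refine ⟨0, by simp, fun h => hs (sq_cancel (b := 2) two_ne_zero ?_)⟩
    rwa [show (2 : ℤ_[p]) ^ 2 * d = γ ^ 2 * 0 ^ 2 + 4 * 0 ^ 3 + 4 * d by ring]

end WNodb

open WNodb

theorem wNodb : NodbS := by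
  intro p _ γ d hγ hd hp
  obtain ⟨τ, h1, h2⟩ := point hγ hd hp
  have hcl : IsClosed (Set.range fun x : ℤ_[p] => x * x) :=
    (isCompact_range (by fun_prop)).isClosed
  have hop : IsOpen ((fun t : ℤ_[p] => γ ^ 2 * t ^ 2 + 4 * t ^ 3 + 4 * d) ⁻¹'
      (Set.range fun x : ℤ_[p] => x * x)ᶜ) := hcl.isOpen_compl.preimage (by fun_prop)
  obtain ⟨ε, hε, hb⟩ := Metric.isOpen_iff.1 hop τ fun ⟨x, hx⟩ => h2 ⟨x, hx.symm⟩
  refine ⟨τ, ε / 2, h1, half_pos hε, fun t ht z hz => ?_⟩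
  obtain ⟨x, hx⟩ := sq_int hz
  refine hb (show t ∈ Metric.ball τ ε from ?_) ⟨x, hx.symm⟩
  rw [Metric.mem_ball, dist_eq_norm]
  linarith

end Pool.Agent.MP_f3836a_nt.VE.W
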