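import Pool.Agent.MP_f3836a_nt.VE.DefsW

/-! The homogeneous Weierstrass polynomial. -/

set_option autoImplicit false

namespace Pool.Agent.MP_f3836a_nt.VE.W

open MvPolynomial VE.A

/-- homogenization -/
theorem sa_hom {σ : Type} (i : σ) (G : MvPolynomial σ ℤ) : ∃ (n : ℕ) (G' : MvPolynomial σ ℤ),
    G'.IsHomogeneous n ∧ ∀ (S : Type) [CommRing S] (ψ : MvPolynomial σ ℤ →+* S), ψ (X i) = 1 →
      ψ G' = ψ G := by
  induction G using MvPolynomial.induction_on with
  | C a => exact ⟨0, C a, isHomogeneous_C _ _, fun _ _ _ _ => rfl⟩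
  | add p q hp hq =>
    obtain ⟨n, p', h1, h2⟩ := hp
    obtain ⟨m, q', h3, h4⟩ := hq
    refine ⟨n + m, p' * X i ^ m + X i ^ n * q', (h1.mul (isHomogeneous_X_pow _ _)).add
      ((isHomogeneous_X_pow _ _).mul h3), fun S _ ψ h => ?_⟩
    simp only [map_add, map_mul, map_pow, h, one_pow, mul_one, one_mul, h2 S ψ h, h4 S ψ h]
  | mul_X p j hp =>
    obtain ⟨n, p', h1, h2⟩ := hp
    exact ⟨n + 1, p' * X j, h1.mul (isHomogeneous_X _ _), fun S _ ψ h => by
      rw [map_mul, map_mul, h2 S ψ h]⟩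

variable (W : WeierstrassCurve ℤ)

theorem sa_eq : W.toProjective.polynomial =
    X 1 ^ 2 * X 2 + C W.a₁ * X 0 * X 1 * X 2 + C W.a₃ * X 1 * X 2 ^ 2
      - (X 0 ^ 3 + C W.a₂ * X 0 ^ 2 * X 2 + C W.a₄ * X 0 * X 2 ^ 2 + C W.a₆ * X 2 ^ 3) := rfl

theorem sa_homog : W.toProjective.polynomial.IsHomogeneous 3 := by
  have h (i : Fin 3) : (X i : MvPolynomial (Fin 3) ℤ).IsHomogeneous 1 := isHomogeneous_X _ _
  have c (a : ℤ) : (C a : MvPolynomial (Fin 3) ℤ).IsHomogeneous 0 := isHomogeneous_C _ _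
  rw [sa_eq]
  exact (((((h 1).pow 2).mul (h 2)).add ((((c _).mul (h 0)).mul (h 1)).mul (h 2))).add
    (((c _).mul (h 1)).mul ((h 2).pow 2))).sub (((((h 0).pow 3).add
      (((c _).mul ((h 0).pow 2)).mul (h 2))).add (((c _).mul (h 0)).mul ((h 2).pow 2))).add
        ((c _).mul ((h 2).pow 3)))

theorem sa_prime : Prime W.toProjective.polynomial := by
  have e : finSuccEquiv ℤ 2 (-W.toProjective.polynomial) =
      Cubic.toPoly ⟨1, X 1 * C W.a₂, X 1 * (C W.a₄ * X 1 - C W.a₁ * X 0),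
        X 1 * (C W.a₆ * X 1 ^ 2 - C W.a₃ * X 0 * X 1 - X 0 ^ 2)⟩ := by
    have h1 : finSuccEquiv ℤ 2 (X 1) = Polynomial.C (X 0) := finSuccEquiv_X_succ (j := 0)
    have h2 : finSuccEquiv ℤ 2 (X 2) = Polynomial.C (X 1) := finSuccEquiv_X_succ (j := 1)
    simp only [sa_eq, Cubic.toPoly, map_neg, map_sub, map_add, map_mul, map_pow, h1, h2,
      finSuccEquiv_X_zero, eq_intCast, map_intCast, map_one]
    ring
  have hP : (Ideal.span {(X 1 : MvPolynomial (Fin 2) ℤ)}).IsPrime :=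
    (Ideal.span_singleton_prime (X_ne_zero _)).2 X_prime
  have hm : (finSuccEquiv ℤ 2 (-W.toProjective.polynomial)).Monic := e ▸ Cubic.monic_of_a_eq_one'
  have hd : (finSuccEquiv ℤ 2 (-W.toProjective.polynomial)).degree = 3 :=
    e ▸ Cubic.degree_of_a_ne_zero' one_ne_zero
  have hi : Irreducible (finSuccEquiv ℤ 2 (-W.toProjective.polynomial)) := by
    refine Polynomial.irreducible_of_eisenstein_criterion hP ?_ (fun n hn => ?_) (by rw [hd]; decide)
      (fun h => ?_) hm.isPrimitive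
    · rw [hm.leadingCoeff]
      exact (Ideal.ne_top_iff_one _).1 hP.ne_top
    · rw [hd] at hn
      have : n < 3 := by exact_mod_cast hn
      rw [e, Ideal.mem_span_singleton]
      interval_cases n
      · rw [Cubic.coeff_eq_d]; exact dvd_mul_right _ _
      · rw [Cubic.coeff_eq_c]; exact dvd_mul_right _ _
      · rw [Cubic.coeff_eq_b]; exact dvd_mul_right _ _
    · rw [e, Cubic.coeff_eq_d, Ideal.span_singleton_pow, Ideal.mem_span_singleton, sq,
        mul_dvd_mul_iff_left (X_ne_zero _)] at h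
      have := map_dvd (eval ![1, 0]) h
      simp at this
  exact neg_neg W.toProjective.polynomial ▸
    Prime.neg ((MulEquiv.irreducible_iff (finSuccEquiv ℤ 2)).1 hi).prime

end Pool.Agent.MP_f3836a_nt.VE.W
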