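import Pool.Agent.MP_f3836a_nt.VE.WSb
import Pool.Agent.MP_f3836a_nt.VE.WSc
import Pool.Agent.MP_f3836a_nt.VE.DefsX
import Pool.Agent.MP_f3836a_nt.PK.SPr
import Pool.Agent.MP_f3836a_nt.PK.TFin

/-! From rings to the scheme. -/

set_option autoImplicit false

namespace Pool.Agent.MP_f3836a_nt.VE.W

open IsLocalRing AlgebraicGeometry CategoryTheory PK PS VE.A

section
open MvPolynomial

theorem sd_range {K : Type} [Field K] (E : MvPolynomial (Fin 3) ℤ →+* K) {a b : K}
    (h : ∀ j, E (X j) = 1 ∨ E (X j) = a ∨ E (X j) = b) (ha : a ∈ E.range) (hb : b ∈ E.range) :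
    A1 a b = E.range := by
  refine le_antisymm (Subring.closure_le.2 (Set.pair_subset ha hb)) ?_
  rintro _ ⟨G, rfl⟩
  induction G using MvPolynomial.induction_on with
  | C n => rw [eq_intCast, map_intCast]; exact intCast_mem _ n
  | add p q hp hq => rw [map_add]; exact add_mem hp hq
  | mul_X p j hp =>
    rw [map_mul]
    refine mul_mem hp ?_
    rcases h j with e | e | e <;> rw [e]
    exacts [one_mem _, Subring.subset_closure (.inl rfl), Subring.subset_closure (.inr rfl)]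

end

open Polynomial in
theorem sd_map {S T : Type} [CommRing S] [CommRing T] (ψ : S →+* T) (a b : S) (A B : ℤ[X]) :
    ψ (gv a b A B) = gv (ψ a) (ψ b) A B := by
  have (U : ℤ[X]) : ψ (aeval a U) = aeval (ψ a) U := (aeval_algHom_apply ψ.toIntAlgHom _ U).symm
  rw [gv, gv, map_add, map_mul, this, this]

open Polynomial in
theorem sd_id {S : Type} [CommRing S] (ψ : ℤ[X] →+* S) (b : S) (A B : ℤ[X]) :
    gv (ψ X) b A B = ψ B * b + ψ A := by
  have (U : ℤ[X]) : aeval (ψ X) U = ψ U := by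
    induction U using Polynomial.induction_on' with
    | add p q hp hq => rw [map_add, map_add, hp, hq]
    | monomial n a => simp [← C_mul_X_pow_eq_monomial]
  rw [gv, this, this, add_comm]

open Polynomial in
theorem sd_gn (W : WeierstrassCurve ℤ) {K : Type} [Field K] (E : MvPolynomial (Fin 3) ℤ →+* K)
    (h1 : E (.X 2) = 1) (h0 : ∀ n G, G.IsHomogeneous n → (E G = 0 ↔ W.toProjective.polynomial ∣ G))
    (hf : ∀ z : K, ∃ A B, E B ≠ 0 ∧ z * E B = E A) : Gn W (E (.X 0)) (E (.X 1)) := by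
  have he : eW W (E (.X 0)) (E (.X 1)) = 0 := by
    have := (h0 3 _ (sa_homog W)).2 dvd_rfl
    simp only [sa_eq, map_sub, map_add, map_mul, map_pow, h1, eq_intCast, map_intCast] at this
    rw [eW, ← this]
    ring
  have hi : ∀ A B : ℤ[X], gv (E (.X 0)) (E (.X 1)) A B = 0 → A = 0 ∧ B = 0 := fun A B h => by
    obtain ⟨n, G, g1, g2⟩ := sa_hom (2 : Fin 3) (gv (.X 0) (.X 1) A B)
    let ψ : MvPolynomial (Fin 3) ℤ →+* ℤ[X][X] :=
      MvPolynomial.eval₂Hom (Int.castRingHom _) ![C X, X, 1]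
    have p0 : ψ (.X 0) = C X := MvPolynomial.eval₂Hom_X' _ _ _
    have p1 : ψ (.X 1) = X := MvPolynomial.eval₂Hom_X' _ _ _
    have p2 : ψ (.X 2) = 1 := MvPolynomial.eval₂Hom_X' _ _ _
    have d := _root_.map_dvd ψ ((h0 n G g1).1 (by rw [g2 K E h1, sd_map, h]))
    have e : ψ W.toProjective.polynomial = W.toAffine.polynomial := by
      simp only [sa_eq, WeierstrassCurve.Affine.polynomial, map_sub, map_add, map_mul, map_pow, p0,
        p1, p2, eq_intCast, map_intCast]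
      ring
    rw [g2 _ ψ p2, sd_map, e, p0, p1, sd_id] at d
    have z := eq_zero_of_dvd_of_degree_lt d (degree_linear_lt.trans_le (by
      rw [WeierstrassCurve.Affine.degree_polynomial]))
    exact ⟨by simpa using congrArg (coeff · 0) z, by simpa using congrArg (coeff · 1) z⟩
  generalize hx : E (.X 0) = x at *
  generalize hy : E (.X 1) = y at *
  have hy2 : y ^ 2 = aeval x (X ^ 3 + C W.a₂ * X ^ 2 + C W.a₄ * X + C W.a₆) -
      aeval x (C W.a₁ * X + C W.a₃) * y := by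
    simp only [map_add, map_mul, map_pow, aeval_X, eq_intCast, map_intCast]
    rw [eW] at he
    linear_combination he
  generalize X ^ 3 + C W.a₂ * X ^ 2 + C W.a₄ * X + C W.a₆ = u at hy2
  generalize C W.a₁ * X + C W.a₃ = v at hy2
  have hm : ∀ A B A' B' : ℤ[X], gv x y A B * gv x y A' B' =
      gv x y (A * A' + B * B' * u) (A * B' + B * A' - B * B' * v) := fun A B A' B' => by
    simp only [gv, map_add, map_mul, map_sub]
    linear_combination (aeval x B * aeval x B') * hy2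
  have hg : ∀ G, ∃ A B, E G = gv x y A B := fun G => by
    induction G using MvPolynomial.induction_on with
    | C n => exact ⟨C n, 0, by simp [gv]⟩
    | add p q hp hq =>
      obtain ⟨A, B, e⟩ := hp
      obtain ⟨A', B', e'⟩ := hq
      exact ⟨A + A', B + B', by simp only [map_add, e, e', gv]; ring⟩
    | mul_X p j hp =>
      obtain ⟨A, B, e⟩ := hp
      obtain ⟨A', B', e'⟩ : ∃ A' B', E (.X j) = gv x y A' B' := by
        fin_cases j
        exacts [⟨X, 0, hx.trans (by simp [gv])⟩, ⟨0, 1, hy.trans (by simp [gv])⟩,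
          ⟨1, 0, h1.trans (by simp [gv])⟩]
      exact ⟨_, _, by rw [map_mul, e, e', hm]⟩
  refine ⟨he, hi, fun z => ?_⟩
  obtain ⟨A, B, b0, e⟩ := hf z
  obtain ⟨A1, B1, e1⟩ := hg A
  obtain ⟨A2, B2, e2⟩ := hg B
  have n1 : gv x y A2 B2 * gv x y (A2 - B2 * v) (-B2) =
      aeval x (A2 * (A2 - B2 * v) + B2 * -B2 * u) := by
    rw [hm, gv, show A2 * -B2 + B2 * (A2 - B2 * v) - B2 * -B2 * v = 0 by ring, map_zero, zero_mul,
      add_zero]
  refine ⟨_, _, A2 * (A2 - B2 * v) + B2 * -B2 * u, fun h => ?_, Eq.trans (by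
    rw [← n1, ← e2, ← mul_assoc, e, e1]) (hm A1 B1 (A2 - B2 * v) (-B2))⟩
  rw [h, map_zero, ← e2, mul_eq_zero] at n1
  obtain ⟨a, b⟩ := hi _ _ (n1.resolve_left b0)
  rw [neg_eq_zero] at b
  rw [b, zero_mul, sub_zero] at a
  exact b0 (by simp [e2, a, b, gv])

/-- the theorem for schemes -/
def FinalW : Prop := ∀ (W : WeierstrassCurve ℤ) (Y : Scheme.{0}) (ι : Y ⟶ PT.PN 2)
  [IsClosedImmersion ι], W.Δ ≠ 0 →
  (∀ q : PT.PN 2, q ∈ Set.range ι ↔ W.toProjective.polynomial ∈ PT.prm q) →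
  (∃ η : Y, Order.height η = 2 ∧ ∀ z, η ⤳ z) ∧
  ∀ φ : ∀ C : Y, Y.residueField C, (∀ C, φ C ≠ 0) → {C | φ C ≠ 1}.Finite →
    (∀ C, φ C ≠ 1 → Order.height C = 1) →
    (∀ x : Y, Order.height x = 0 → ∑ᶠ C, PT.ordZ C x (φ C) = 0) →
    ∃ n : ℕ, 0 < n ∧ ∃ l : List (Σ y : Y, Y.residueField y × Y.residueField y),
      (∀ a ∈ l, Order.height a.1 = 2 ∧ a.2.1 ≠ 0 ∧ a.2.2 ≠ 0) ∧
      ∀ C : Y, Order.height C = 1 → φ C ^ n = (l.map fun a => PT.bd a.1 C a.2.1 a.2.2).prod

open MvPolynomial in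
attribute [local instance] MvPolynomial.gradedAlgebra in
theorem wFinal (hM : MainW) : FinalW := by
  intro W Y ι hι hΔ hs
  have hF := sa_prime W
  have hin : ∀ z : Y, W.toProjective.polynomial ∈ SPr.pI (ι z) := fun z => (hs _).1 ⟨z, rfl⟩
  have nX : ∀ j : Fin 3, X j ∉ Ideal.span {W.toProjective.polynomial} := fun j h => by
    have h2 := (sa_homog W).totalDegree hF.ne_zero
    have h3 := totalDegree_le_of_dvd_of_isDomain (Ideal.mem_span_singleton.1 h) (X_ne_zero j)
    rw [h2, totalDegree_X] at h3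
    omega
  obtain ⟨η, hη⟩ : ∃ η : Y, SPr.pI (ι η) = Ideal.span {W.toProjective.polynomial} := by
    obtain ⟨q, hq⟩ := SPr.up _ ((Ideal.span_singleton_prime hF.ne_zero).2 hF) (fun G hG n =>
      homogeneousComponent_mem_of_mem (Ideal.homogeneous_span _ _ fun _ h => h ▸ ⟨3, sa_homog W⟩)
        hG n) ⟨1, nX 1⟩
    obtain ⟨η, rfl⟩ := (hs q).2 (hq.ge (Ideal.mem_span_singleton_self _))
    exact ⟨η, hq⟩
  obtain ⟨P, fr, H, hin, hη⟩ : ∃ P fr, PrA Y 2 P fr ∧ (∀ z, W.toProjective.polynomial ∈ P z) ∧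
    P η = Ideal.span {W.toProjective.polynomial} := ⟨_, _, SPr.main 2 Y ι hι, hin, hη⟩
  have g : ∀ z, η ⤳ z := fun z => (H.le _ _).2 (hη ▸ (Ideal.span_singleton_le_iff_mem _).2 (hin z))
  have n1 : X 1 ∉ P η := hη ▸ nX 1
  have n2 : X 2 ∉ P η := hη ▸ nX 2
  obtain ⟨E, c⟩ := sc_ex H η 2 n2
  obtain ⟨E', c'⟩ := sc_ex H η 1 n1
  have G : Gn W (E (X 0)) (E (X 1)) := sd_gn W E c.one
    (fun n G hG => (c.zero H n2 hG).trans (hη ▸ Ideal.mem_span_singleton)) fun z => by
      obtain ⟨a, rfl⟩ := (SComp.range_refl (g η)).ge (Subring.mem_top z)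
      obtain ⟨n, A, B, hA, hB, h, rfl⟩ := H.surj η a
      exact ⟨A, B, fun e => h ((c.zero H n2 hB).1 e), c.val η _ n A B hA hB h⟩
  have y0 : E (X 1) ≠ 0 := fun e => n1 ((c.zero H n2 (isHomogeneous_X _ _)).1 e)
  have ee : ∀ j, E' (X j) = E (X j) / E (X 1) := fun j => by
    rw [← c.val η (g η) 1 _ _ (isHomogeneous_X _ j) (isHomogeneous_X _ _) n1,
      ← c'.val η (g η) 1 _ _ (isHomogeneous_X _ j) (isHomogeneous_X _ _) n1, c'.one, mul_one,
      mul_div_cancel_right₀ _ y0]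
  have e2 : E' (X 2) = 1 / E (X 1) := by rw [ee, c.one]
  have a1 : A1 (E (X 0)) (E (X 1)) = E.range := sd_range E (fun j => by
    fin_cases j
    exacts [.inr (.inl rfl), .inr (.inr rfl), .inl c.one]) ⟨_, rfl⟩ ⟨_, rfl⟩
  have a2 : A1 (E (X 0) / E (X 1)) (1 / E (X 1)) = E'.range := sd_range E' (fun j => by
    fin_cases j
    exacts [.inr (.inl (ee 0)), .inl c'.one, .inr (.inr e2)]) ⟨_, ee 0⟩ ⟨_, e2⟩
  choose r hr using fun z => SComp.exists_rs (g z) _ rfl
  have hle : ∀ z z', z' ⤳ z ↔ (ev (g z)).range ≤ (ev (g z')).range := fun z z' =>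
    c.le H n2 (g z) (g z')
  have D : Dc (E (X 0)) (E (X 1)) (fun z => (ev (g z)).range) r := by
    refine ⟨fun z z' e => (((hle _ _).2 e.ge).antisymm ((hle _ _).2 e.le)).eq, hle, fun S => ?_,
      fun z t => ?_, fun z a => ⟨fun h0 hu => (hu.map (r z)).ne_zero h0, ?_⟩⟩
    · unfold Inf
      rw [a1, a2]
      constructor
      · rintro ⟨z, rfl⟩
        by_cases h2 : X 2 ∈ P z
        · have h0 : X 0 ∈ P z := (H.prime z).mem_of_pow_mem 3 (by
            have := sub_mem (Ideal.mul_mem_right (X 1 ^ 2 + C W.a₁ * X 0 * X 1 + C W.a₃ * X 1 * X 2 -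
              (C W.a₂ * X 0 ^ 2 + C W.a₄ * X 0 * X 2 + C W.a₆ * X 2 ^ 2)) _ h2) (hin z)
            rw [sa_eq] at this
            convert this using 1
            ring)
          have h1 : X 1 ∉ P z := fun h1 => by
            obtain ⟨j, hj⟩ := H.good z
            fin_cases j
            exacts [hj h0, hj h1, hj h2]
          obtain ⟨q, hq, m⟩ := c'.to H (g z) h1
          refine .inr ⟨q, hq, fun a ha => ?_, c'.loc H _ q m⟩
          rcases ha with ha | ha
          · exact (Subtype.ext ((ee 0).trans ha.symm) : E'.rangeRestrict _ = a) ▸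
              (m 1 _ (isHomogeneous_X _ _)).1 h0
          · exact (Subtype.ext (e2.trans ha.symm) : E'.rangeRestrict _ = a) ▸
              (m 1 _ (isHomogeneous_X _ _)).1 h2
        · obtain ⟨q, hq, m⟩ := c.to H (g z) h2
          exact .inl ⟨q, hq, c.loc H _ q m⟩
      · rintro (⟨q, hq, rfl⟩ | ⟨q, hq, -, rfl⟩)
        · obtain ⟨z, _, e⟩ := c.of H n2 q
          exact ⟨z, e⟩
        · obtain ⟨z, _, e⟩ := c'.of H n1 q
          exact ⟨z, e⟩
    · obtain ⟨a, rfl⟩ := SComp.res_surj z t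
      exact ⟨_, hr z a ⟨_, rfl⟩⟩
    · obtain ⟨_, b, rfl⟩ := a
      exact fun hu => (hr z b _).trans ((SComp.res_eq_zero z b).2 fun hb =>
        hu (hb.map (ev (g z)).rangeRestrict))
  have : CharZero (Y.residueField η) := charZero_of_inj_zero fun n h => by
    simpa using (G.ind (Polynomial.C n) 0 (by simp [gv, h])).1
  obtain ⟨m1, m2, m3, m4⟩ := hM W _ _ _ Y _ _ r hΔ G D
  have h2 := m1 η (SComp.range_refl _)
  have hb : ∀ C f f', Order.height C = 1 → f ≠ 0 → f' ≠ 0 →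
      PT.bd η C f f' = tameR _ (r C) f f' := fun C f f' hC hf hf' =>
    (dif_pos (g C)).trans (sb_bdry (ev (g C)) (r C) (fun a => hr C a _) (m2 C hC) hf hf')
  have dva := fun C hC => rDVA _ _ _ _ (m2 C hC)
  refine ⟨⟨η, h2, g⟩, fun φ hne hfin hsupp hdiv => ?_⟩
  obtain ⟨n, hn, l, l1, l2⟩ := rFin3 Y Set.univ φ
    ⟨hne, hfin, fun C h => ⟨hsupp C h, η, trivial, g C⟩, hdiv⟩ fun lam hl =>
    m4 φ lam hne hfin hsupp (fun z hz => (finsum_congr fun C => by
      unfold od PT.ordZ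
      by_cases h : C ⤳ z
      · rw [if_pos ((hle _ _).1 h), dif_pos h, im, SComp.loc_eq rfl (hr C) h]
        rfl
      · rw [if_neg fun e => h ((hle _ _).2 e), dif_neg h]).trans (hdiv z hz)) hl.add
      fun f f' hf hf' => (finsum_congr fun C => finsum_congr fun hC => by
        rw [hb C f f' hC hf hf']).trans (hl.bd η h2 ⟨η, trivial, g η⟩
        ⟨fun C f f' hC hf hf' => hb C f f' hC hf hf' ▸ (dva C hC).ne f f' hf hf',
          fun f f' hf hf' => ((m3 f).union (m3 f')).subset fun C hC => by_contra fun k => hC.2 (by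
            simp only [Set.mem_union, Set.mem_ofPred_eq, hC.1, true_and, not_or, not_not] at k
            rw [hb C f f' hC.1 hf hf', (dva C hC.1).one f f' k.1 k.2]),
          fun C f f' hC hf hf' => by
            rw [hb C f f' hC hf hf', hb C f' f hC hf' hf, (dva C hC).swap f f' hf hf']⟩ f f' hf hf')
  exact ⟨n, hn, l, fun a ha => ⟨(l1 a ha).1, (l1 a ha).2.2⟩, l2⟩

end Pool.Agent.MP_f3836a_nt.VE.W
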