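import Pool.Agent.MP_f3836a_nt.VE.SpecZ1

/-! A chart of the blow up of a regular point. -/

set_option autoImplicit false

namespace Pool.Agent.MP_f3836a_nt.VE.Z

open Polynomial IsLocalRing PK VE.A VE.T VE.W

namespace ZBl

variable {K : Type} [Field K] {D : Subring K} {a b : K}

theorem le_bl (D : Subring K) (t : K) : D ≤ Bl D t := fun _ h =>
  Subring.subset_closure (Set.mem_insert_of_mem _ h)

theorem mem_bl (D : Subring K) (t : K) : t ∈ Bl D t := Subring.subset_closure (Set.mem_insert _ _)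

theorem res_iff [IsLocalRing D] (d : D) : residue D d = 0 ↔ Nu D d := by
  rw [residue_eq_zero_iff, mem_maximalIdeal, mem_nonunits_iff, nu_iff]

theorem nu_a (h : Gen D a b) : Nu D a := (h.2.2 a).2 ⟨1, D.one_mem, 0, D.zero_mem, by ring⟩

theorem ev_mem (t : K) (p : D[X]) : eval₂ D.subtype t p ∈ Bl D t := by
  rw [eval₂_eq_sum_range]
  exact Subring.sum_mem _ fun i _ =>
    Subring.mul_mem _ (le_bl D t (p.coeff i).2) (Subring.pow_mem _ (mem_bl D t) i)

/-- evaluation at `t` -/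
noncomputable def ev (D : Subring K) (t : K) : D[X] →+* Bl D t :=
  (eval₂RingHom D.subtype t).codRestrict (Bl D t) (ev_mem t)

theorem ev_coe (t : K) (p : D[X]) : (ev D t p : K) = eval₂ D.subtype t p := rfl

theorem ev_surj (t : K) : Function.Surjective (ev D t) := by
  rintro ⟨z, hz⟩
  have h : Bl D t ≤ (eval₂RingHom D.subtype t).range := by
    refine Subring.closure_le.2 ?_
    rintro x (rfl | hx)
    · exact ⟨X, by simp⟩
    · exact ⟨C ⟨x, hx⟩, by simp⟩
  obtain ⟨p, hp⟩ := h hz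
  exact ⟨p, Subtype.ext hp⟩

theorem clear (ha : a ∈ D) (hb : b ∈ D) (h0 : a ≠ 0) {n : ℕ} {p : D[X]} (hp : p.natDegree ≤ n) :
    a ^ n * eval₂ D.subtype (b / a) p ∈ D := by
  rw [eval₂_eq_sum_range' _ (Nat.lt_succ_of_le hp), Finset.mul_sum]
  refine D.sum_mem fun i hi => ?_
  obtain ⟨m, rfl⟩ := Nat.exists_eq_add_of_le (Nat.lt_succ_iff.1 (Finset.mem_range.1 hi))
  have : a ^ (i + m) * (D.subtype (p.coeff i) * (b / a) ^ i) = p.coeff i * b ^ i * a ^ m := by
    rw [div_pow, pow_add, Subring.coe_subtype]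
    field_simp
  rw [this]
  exact D.mul_mem (D.mul_mem (p.coeff i).2 (D.pow_mem hb i)) (D.pow_mem ha m)

theorem ker_le [IsLocalRing D] {O : Subring K} (hG : Gen D a b) (hA : Ax D a b O) (n : ℕ) :
    ∀ p : D[X], p.natDegree ≤ n → eval₂ D.subtype (b / a) p = 0 → p.map (residue D) = 0 := by
  induction n with
  | zero =>
    intro p hp h
    rw [eq_C_of_natDegree_le_zero hp] at h ⊢
    rw [eval₂_C] at h
    rw [show p.coeff 0 = 0 from Subtype.ext h, map_zero, Polynomial.map_zero]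
  | succ n ih =>
    intro p hp h
    obtain ⟨c, r, hr, rfl⟩ : ∃ (c : D) (r : D[X]), r.natDegree ≤ n ∧ p = r + C c * X ^ (n + 1) := by
      refine ⟨p.coeff (n + 1), p - C (p.coeff (n + 1)) * X ^ (n + 1), ?_, by ring⟩
      refine natDegree_le_iff_coeff_eq_zero.2 fun N hN => ?_
      rw [coeff_sub, coeff_C_mul_X_pow]
      split_ifs with e
      · rw [e, sub_self]
      · rw [coeff_eq_zero_of_natDegree_lt (by omega), sub_zero]
    have a0 := hA.ne
    rw [eval₂_add, eval₂_mul, eval₂_C, eval₂_X_pow, Subring.coe_subtype] at h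
    have h1 : (c * b ^ (n + 1)) / a ∈ D := by
      have : (c * b ^ (n + 1)) / a = -(a ^ n * eval₂ D.subtype (b / a) r) := by
        rw [eq_neg_of_add_eq_zero_left h, div_pow]
        field_simp
        ring
      rw [this]
      exact D.neg_mem (clear hG.1 hG.2.1 a0 hr)
    have h2 : Nu O (c : K) := by
      have := ((hA.div _ (D.mul_mem c.2 (D.pow_mem hG.2.1 _))).2 h1).mul (hA.ut.pow (n + 1)).2.2
      rwa [mul_comm, mul_assoc, mul_inv_cancel₀ (pow_ne_zero _ hA.ut.1), mul_one] at this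
    have h3 := (hA.div _ c.2).1 h2
    have hc : residue D c = 0 := (res_iff c).2 (by
      simpa [div_mul_cancel₀ _ a0] using (nu_a hG).mul h3)
    let c' : D := ⟨c / a * b, D.mul_mem h3 hG.2.1⟩
    have hc' : residue D c' = 0 := (res_iff c').2 ((nu_a hG.swap).mul h3)
    have := ih (r + C c' * X ^ n)
      (natDegree_add_le_of_degree_le hr (natDegree_C_mul_X_pow_le _ _)) (by
        rw [eval₂_add, eval₂_mul, eval₂_C, eval₂_X_pow, Subring.coe_subtype, ← h]
        simp only [c']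
        ring)
    simpa [hc, hc'] using this

theorem nu_lc {B : Subring K} (hL : LcA B) (n : Ideal B) [n.IsPrime] (x : B) :
    Nu (lc B n) x ↔ x ∈ n := by
  have := nu_iff (Subring.inclusion (le_lc B n) x)
  rw [hL.unit, not_not] at this
  exact this

theorem ut_lc {B : Subring K} (hL : LcA B) (n : Ideal B) [n.IsPrime] {x : B} (h : x ∉ n) :
    Ut (lc B n) x := (nu_or (le_lc B n x.2)).resolve_left fun e => h ((nu_lc hL n x).1 e)

theorem tor_quot {k : Type} [Field k] (h : ∀ c : k, c ≠ 0 → ∃ j, 0 < j ∧ c ^ j = 1)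
    (m : Ideal k[X]) [m.IsMaximal] (f : k[X]) (hf : f ∉ m) : ∃ j, 0 < j ∧ f ^ j - 1 ∈ m := by
  letI := Ideal.Quotient.field m
  obtain ⟨p, hp⟩ := CharP.exists k
  have hpp : p.Prime := (CharP.char_is_prime_or_zero k p).resolve_right (by
    rintro rfl
    haveI := CharP.charP_to_charZero k
    obtain ⟨j, hj, e⟩ := h 2 two_ne_zero
    have : 2 ^ j = 1 := by exact_mod_cast e
    have := Nat.one_lt_two_pow hj.ne'
    omega)
  haveI := Fact.mk hpp
  haveI : CharP (k[X] ⧸ m) p := charP_of_injective_ringHom (algebraMap k _).injective p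
  haveI := finite_of_finite_type_of_isJacobsonRing k (k[X] ⧸ m)
  obtain ⟨j, hj, e⟩ := EDual.tors k (k[X] ⧸ m) p h (Ideal.Quotient.mk m f)
    (fun e => hf (Ideal.Quotient.eq_zero_iff_mem.1 e))
  exact ⟨j, hj, Ideal.Quotient.eq.1 (by rw [map_pow, e, map_one])⟩

end ZBl

open ZBl

theorem zBlA : OfBlA := by
  intro _ _ hC K _ D _ a b hR hG
  obtain ⟨O, hA⟩ := (hC K D hR).ax a b hG
  haveI := hR.noeth
  have hs := ev_surj (D := D) (b / a)
  have hk : RingHom.ker (ev D (b / a)) ≤ RingHom.ker (mapRingHom (residue D)) := fun p hp =>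
    ker_le hG hA _ p le_rfl (congrArg Subtype.val hp)
  let ρ := (ev D (b / a)).liftOfSurjective hs ⟨_, hk⟩
  have hρ : ∀ p, ρ (ev D (b / a) p) = p.map (residue D) := fun p =>
    RingHom.liftOfSurjective_comp_apply _ hs ⟨_, hk⟩ p
  have hd : ∀ (z : Bl D (b / a)) (d : D), (z : K) = d → ρ z = C (residue D d) := fun z d e => by
    rw [show z = ev D (b / a) (C d) from Subtype.ext (by rw [ev_coe, eval₂_C, e]; rfl), hρ, map_C]
  refine ⟨hA.ne, isNoetherianRing_of_surjective _ _ _ hs, ρ, fun f => ?_, fun z e => ?_, hd,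
    fun z => ⟨fun h => ?_, fun h => ?_⟩⟩
  · obtain ⟨p, rfl⟩ := map_surjective (residue D) residue_surjective f
    exact ⟨_, hρ p⟩
  · rw [show z = ev D (b / a) X from Subtype.ext (by rw [ev_coe, eval₂_X, e]), hρ, map_X]
  · obtain ⟨p, rfl⟩ := hs z
    rw [ev_coe, eval₂_eq_sum_range, Finset.sum_div]
    refine Subring.sum_mem _ fun i _ => ?_
    have h1 : residue D (p.coeff i) = 0 := by rw [← coeff_map, ← hρ, h, coeff_zero]
    obtain ⟨u, hu, v, hv, e⟩ := (hG.2.2 _).1 ((res_iff _).1 h1)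
    have : D.subtype (p.coeff i) * (b / a) ^ i / a = (u + v * (b / a)) * (b / a) ^ i := by
      have := hA.ne
      rw [Subring.coe_subtype, e]
      field_simp
    rw [this]
    exact Subring.mul_mem _ (Subring.add_mem _ (le_bl _ _ hu) (Subring.mul_mem _ (le_bl _ _ hv)
      (mem_bl _ _))) (Subring.pow_mem _ (mem_bl _ _) i)
  · have : z = ⟨a, le_bl _ _ hG.1⟩ * ⟨_, h⟩ := Subtype.ext (mul_div_cancel₀ _ hA.ne).symm
    rw [this, map_mul, hd _ ⟨a, hG.1⟩ rfl, (res_iff _).2 (nu_a hG), map_zero, zero_mul]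

theorem zBlF : OfBlF := by
  intro hL hB K _ D a b hR hG
  haveI := hR.loc
  obtain ⟨a0, hN, ρ, hs, hX, -, hk⟩ := hB K D a b hR hG
  have hle := le_bl D (b / a)
  have ht := mem_bl D (b / a)
  have haB := hle hG.1
  generalize Bl D (b / a) = B at *
  refine ⟨hN, fun z => ?_, haB, a0, fun z hz z' hz' h => ?_, ⟨_, ht, fun h => ?_, fun s h' h => ?_⟩,
    ?_⟩
  · obtain ⟨x, y, hy, e⟩ := hR.fr z
    exact ⟨⟨x, hle x.2⟩, ⟨y, hle y.2⟩, hy, e⟩
  · have := (hk (⟨z, hz⟩ * ⟨z', hz'⟩)).2 h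
    rw [map_mul, mul_eq_zero, hk, hk] at this
    exact this
  · exact X_ne_zero ((hX ⟨_, ht⟩ rfl).symm.trans ((hk _).2 h))
  · have := (hk (⟨_, ht⟩ * ⟨s, h'⟩ - 1)).2 h
    rw [map_sub, map_mul, map_one, hX _ rfl, sub_eq_zero] at this
    exact not_isUnit_X (IsUnit.of_mul_eq_one _ this)
  rintro D' ⟨n, _, hn, han, rfl⟩
  have L := hL K B
  have hdiv : ∀ z, ρ z = 0 → ∃ y : B, z = y * ⟨a, haB⟩ := fun z h =>
    ⟨⟨_, (hk z).1 h⟩, Subtype.ext (div_mul_cancel₀ _ a0).symm⟩
  have hkn : RingHom.ker ρ ≤ n := fun z h => by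
    obtain ⟨y, rfl⟩ := hdiv z h
    exact n.mul_mem_left _ (han _ rfl)
  have hm : ∀ x, ρ x ∈ n.map ρ → x ∈ n := fun x h => by
    obtain ⟨y, hy, e⟩ := (Ideal.mem_map_iff_of_surjective ρ hs).1 h
    simpa using n.add_mem (hkn (show ρ (x - y) = 0 by rw [map_sub, e, sub_self])) hy
  haveI := Ideal.IsMaximal.map_of_surjective_of_ker_le hs hkn
  constructor
  · obtain ⟨g, hg⟩ := (IsPrincipalIdealRing.principal (n.map ρ)).principal
    obtain ⟨w, hw, rfl⟩ := (Ideal.mem_map_iff_of_surjective ρ hs).1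
      (show g ∈ n.map ρ from hg ▸ Submodule.mem_span_singleton_self g)
    refine ⟨w, le_lc B n haB, le_lc B n w.2, fun z => ⟨fun h => ?_, ?_⟩⟩
    · obtain ⟨x, s, hs', e⟩ := mem_lc.1 h.1
      have u := ut_lc L n hs'
      have hx : x ∈ n := (nu_lc L n x).1 (by rw [← e, mul_comm]; exact h.mul u.2.1)
      obtain ⟨f, hf⟩ := Ideal.mem_span_singleton'.1
        (show ρ x ∈ Ideal.span {ρ w} from hg.le (Ideal.mem_map_of_mem ρ hx))
      obtain ⟨v, rfl⟩ := hs f
      obtain ⟨y, hy⟩ := hdiv (x - v * w) (by rw [map_sub, map_mul, hf, sub_self])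
      have hy' : (x : K) - v * w = y * a := congrArg Subtype.val hy
      refine ⟨y * (s : K)⁻¹, Subring.mul_mem _ (le_lc B n y.2) u.2.2, v * (s : K)⁻¹,
        Subring.mul_mem _ (le_lc B n v.2) u.2.2, ?_⟩
      have := u.1
      field_simp
      linear_combination e + hy'
    · rintro ⟨u, hu, v, hv, rfl⟩
      exact (((nu_lc L n ⟨a, haB⟩).2 (han _ rfl)).mul hu).add (((nu_lc L n w).2 hw).mul hv)
  · have key : ∀ x : B, x ∉ n → Tor (lc B n) x := fun x hx => by
      obtain ⟨j, hj, e⟩ := tor_quot (fun c hc => by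
        obtain ⟨d, rfl⟩ := residue_surjective c
        obtain ⟨j, hj, e⟩ := hR.alg d ((nu_or d.2).resolve_left fun e => hc ((res_iff d).2 e))
        refine ⟨j, hj, ?_⟩
        rw [← sub_eq_zero, ← map_pow, ← map_one (residue D), ← map_sub]
        exact (res_iff _).2 (by simpa using e)) (n.map ρ) (ρ x) fun h => hx (hm x h)
      refine ⟨j, hj, ?_⟩
      simpa using (nu_lc L n (x ^ j - 1)).2 (hm _ (by simpa using e))
    intro z hz
    obtain ⟨x, s, hs', e⟩ := mem_lc.1 hz.2.1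
    have u := ut_lc L n hs'
    have hx : x ∉ n := fun h => ((nu_lc L n x).2 h).not (e ▸ hz.mul u)
    rw [(eq_mul_inv_iff_mul_eq₀ u.1).2 e]
    exact (key x hx).mul ((key s hs').inv u)

end Pool.Agent.MP_f3836a_nt.VE.Z
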