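import Pool.Agent.MP_f3836a_nt.VE.SpecZ3

/-! The base ring inside a number field. -/

set_option autoImplicit false

namespace Pool.Agent.MP_f3836a_nt.VE.Z

open Polynomial IsLocalRing PK VE.A VE.T VE.W

namespace ZBsN

theorem fin {F : Type} [CommRing F] [IsDomain F] {p d : ℕ} (hp : p.Prime) (h0 : (p : F) = 0)
    (h : ∀ z : F, ∃ q : ℤ[X], q.IsPrimitive ∧ q.natDegree ≤ d ∧ aeval z q = 0) : Finite F := by
  classical
  have := (CharP.charP_iff_prime_eq_zero hp).2 h0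
  have := Fact.mk hp
  refine Set.finite_univ_iff.1 ((bUnion_roots_finite (ZMod.castHom (dvd_refl p) F) d
    Set.finite_univ).subset fun z _ => ?_)
  obtain ⟨q, h1, h2, h3⟩ := h z
  have h4 : q.map (Int.castRingHom (ZMod p)) ≠ 0 := fun e => by
    refine (Nat.prime_iff_prime_int.1 hp).not_isUnit
      (h1 _ ((C_dvd_iff_dvd_coeff _ _).2 fun i => ?_))
    simpa [ZMod.intCast_zmod_eq_zero_iff_dvd] using congrArg (coeff · i) e
  simp only [Set.mem_iUnion, Finset.mem_coe, Multiset.mem_toFinset]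
  refine ⟨_, ⟨natDegree_map_le.trans h2, fun _ => trivial⟩, (mem_roots (map_ne_zero h4)).2 ?_⟩
  rwa [IsRoot, map_map, eval_map, RingHom.ext_int (RingHom.comp _ _) (algebraMap ℤ F)]

theorem prim {L : Type} [Field L] [CharZero L] [FiniteDimensional ℚ L] (z : L) :
    ∃ q : ℤ[X], q.IsPrimitive ∧ q.natDegree ≤ Module.finrank ℚ L ∧ aeval z q = 0 := by
  refine ⟨(IsLocalization.integerNormalization (nonZeroDivisors ℤ) (minpoly ℚ z)).primPart,
    isPrimitive_primPart _, ?_, aeval_primPart_eq_zero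
      (IsFractionRing.integerNormalization_eq_zero_iff.not.2 (minpoly.ne_zero_of_finite ℚ z))
      (IsLocalization.integerNormalization_aeval_eq_zero _ _ (minpoly.aeval ℚ z))⟩
  rw [natDegree_primPart]
  exact (natDegree_le_natDegree (degree_mono
    (IsLocalization.integerNormalization_support _ _))).trans (minpoly.natDegree_le z)

end ZBsN

open ZBsN in
theorem zBsN : OfBsN := by
  intro hD K _ _ L V p fd hV hp nu
  have d := hD K V hV
  have p0 : (p : K) ≠ 0 := Nat.cast_ne_zero.2 hp.ne_zero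
  obtain ⟨_, ⟨π, πL, π0, pos, rfl⟩, mn⟩ := Int.exists_least_of_bdd
    (P := fun n => ∃ z ∈ L, z ≠ 0 ∧ 0 < ordR V z ∧ ordR V z = n)
    ⟨0, fun _ ⟨_, _, _, h, e⟩ => e ▸ h.le⟩
    ⟨_, p, natCast_mem L p, p0, ((d.nu p).1 nu).resolve_left p0, rfl⟩
  have ut : ∀ z : (V ⊓ L.toSubring : Subring K), (z : K) ≠ 0 → ordR V (z : K) = 0 → IsUnit z :=
    fun z h0 h => (ut_iff z).1 ⟨h0, z.2, ((d.ut z).2 ⟨h0, h⟩).2.2, L.inv_mem z.2.2⟩
  have nπ : Nu V π := (d.nu π).2 (.inr pos)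
  let π' : (V ⊓ L.toSubring : Subring K) := ⟨π, nπ.1, πL⟩
  have irr : Irreducible π' := ⟨fun h => nπ.not (((ut_iff π').2 h).mono inf_le_left), fun a b e => by
    have e' : π = a * b := congrArg Subtype.val e
    have a0 := left_ne_zero_of_mul (e' ▸ π0)
    have b0 := right_ne_zero_of_mul (e' ▸ π0)
    have h1 := (d.mem _ a0).1 a.2.1
    have h2 := (d.mem _ b0).1 b.2.1
    have h3 := e' ▸ d.mul _ _ a0 b0
    refine h1.eq_or_lt.imp (fun h => ut a a0 h.symm) fun h => ut b b0 ?_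
    have := mn _ ⟨a, a.2.2, a0, h, rfl⟩
    omega⟩
  have dvr : IsDiscreteValuationRing (V ⊓ L.toSubring : Subring K) := by
    refine IsDiscreteValuationRing.ofHasUnitMulPowIrreducibleFactorization
      ⟨π', irr, fun {z} hz => ?_⟩
    have z0 : (z : K) ≠ 0 := fun e => hz (Subtype.ext e)
    obtain ⟨n, hn⟩ := Int.eq_ofNat_of_zero_le (Int.ediv_nonneg ((d.mem _ z0).1 z.2.1) pos.le)
    have w0 := mul_ne_zero (zpow_ne_zero (-n : ℤ) π0) z0
    have wL := L.mul_mem (zpow_mem πL (-n : ℤ)) z.2.2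
    have e : ordR V (π ^ (-n : ℤ) * z) = ordR V (z : K) % ordR V π := by
      rw [d.mul _ _ (zpow_ne_zero _ π0) z0, d.zpow _ _ π0, ← hn, Int.emod_def]
      ring
    have e0 : ordR V (π ^ (-n : ℤ) * z) = 0 :=
      ((Int.emod_nonneg _ pos.ne').trans e.ge).eq_or_lt.elim Eq.symm fun h =>
        absurd (mn _ ⟨_, wL, w0, h, e⟩) (Int.emod_lt_of_pos _ pos).not_ge
    refine ⟨n, (ut ⟨_, (d.mem _ w0).2 e0.ge, wL⟩ w0 e0).unit, Subtype.ext ?_⟩
    simp [π', π0]
  refine ⟨π', ⟨dvr, irr, ?_⟩, nπ, fun z hz => ?_⟩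
  · have := (Ideal.span_singleton_prime irr.ne_zero).2 irr.prime
    refine fin (d := Module.finrank ℚ L) hp ?_ fun z => ?_
    · rw [← map_natCast (Ideal.Quotient.mk _), Ideal.Quotient.eq_zero_iff_mem,
        ← irr.maximalIdeal_eq]
      exact fun h => nu.not (((ut_iff _).2 h).mono inf_le_left)
    · obtain ⟨z, rfl⟩ := Ideal.Quotient.mk_surjective z
      obtain ⟨q, h1, h2, h3⟩ := prim (⟨z, z.2.2⟩ : L)
      refine ⟨q, h1, h2, ?_⟩
      have h4 : aeval z q = 0 := Subtype.ext <|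
        (aeval_algHom_apply (V ⊓ L.toSubring).subtype.toIntAlgHom z q).symm.trans <|
          (aeval_algHom_apply L.subtype.toIntAlgHom ⟨z, z.2.2⟩ q).trans (by simp [h3])
      exact (aeval_algHom_apply (Ideal.Quotient.mk _).toIntAlgHom z q).trans (by simp [h4])
  · by_cases z0 : z = 0
    · exact ⟨0, by simp [z0]⟩
    refine ⟨(-ordR V z).toNat, (d.mem _ (mul_ne_zero (pow_ne_zero _ π0) z0)).2 ?_⟩
    rw [d.mul _ _ (pow_ne_zero _ π0) z0, ← zpow_natCast, d.zpow _ _ π0]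
    have := Int.self_le_toNat (-ordR V z)
    nlinarith [Int.natCast_nonneg (-ordR V z).toNat]

end Pool.Agent.MP_f3836a_nt.VE.Z
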