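import Pool.Agent.MP_f3836a_nt.VE.SpecZ2

/-! Levels and sides of the nodal model, the first level, and the vanishing of the slope. -/

set_option autoImplicit false

namespace Pool.Agent.MP_f3836a_nt.VE.Z

open Polynomial IsLocalRing PK VE.A VE.T VE.W

namespace ZChain

variable {K : Type} [Field K] {R : Subring K} {π : R} {x y : K}

theorem alg (c : R) : algebraMap R K c = c := rfl

theorem nd_eq {e c : R} (h : Nd e c x y) : y ^ 2 + x * y = e * x ^ 3 + c := by
  simpa [alg] using h.eq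

theorem frac {a f : R[X]} (h : QC x y a f) {x' y' : K} (p q r : R[X]) (hx : x = aeval x' p)
    (hy : y = aeval x' q + aeval x' r * y') (z : K) :
    ∃ A B D : R[X], D ≠ 0 ∧ z * aeval x' D = gR x' y' A B := by
  obtain ⟨A, B, D, h0, e⟩ := h.frac z
  refine ⟨A.comp p + B.comp p * q, B.comp p * r, D.comp p, fun h1 => h0 (h.ind D 0 ?_).1, ?_⟩
  · rw [gR, hx, ← aeval_comp, h1]; simp
  · simp only [gR, map_add, map_mul, aeval_comp, ← hx] at e ⊢
    rw [e, hy]; ring

theorem up (hB : Bs R π) {e c : R} (h : Nd e (π ^ 2 * c) x y) : Nd (e * π) c (x / π) (y / π) := by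
  have p0 := hB.ne
  refine ⟨?_, fun A B h0 => ?_, frac h (C π * X) 0 (C π) (by simp [alg, mul_div_cancel₀ _ p0])
    (by simp [alg, mul_div_cancel₀ _ p0])⟩
  · have := nd_eq h
    simp only [map_add, map_mul, map_pow, aeval_X, aeval_C, alg]
    push_cast at this ⊢
    field_simp
    linear_combination this
  · have k : ∀ P : R[X], aeval x (P.scaleRoots π) = (π : K) ^ P.natDegree * aeval (x / π) P :=
      fun P => by
      have := scaleRoots_eval₂_mul (p := P) (algebraMap R K) (x / π) π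
      rwa [alg, mul_div_cancel₀ _ p0] at this
    have p1 : ∀ (n : ℕ) (P : R[X]), C π ^ n * P.scaleRoots π = 0 → P = 0 := fun n P h =>
      by_contra fun h1 => mul_ne_zero (pow_ne_zero n (C_ne_zero.2 hB.irr.ne_zero))
        (scaleRoots_ne_zero h1 π) h
    obtain ⟨a, b⟩ := h.ind (C π ^ (B.natDegree + 1) * A.scaleRoots π)
      (C π ^ A.natDegree * B.scaleRoots π) (by
        simp only [gR, map_mul, map_pow, aeval_C, alg, k] at h0 ⊢
        field_simp at h0
        linear_combination (π : K) ^ A.natDegree * (π : K) ^ B.natDegree * h0)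
    exact ⟨p1 _ _ a, p1 _ _ b⟩

theorem swap {e c : R} (h : Nd e c x y) : Nd (-e) c (-x) (y + x) := by
  refine ⟨?_, fun A B h0 => ?_, frac h (-X) X 1 (by simp) (by simp)⟩
  · have := nd_eq h
    simp only [map_add, map_mul, map_pow, aeval_X, aeval_C, alg]
    push_cast
    linear_combination this
  · obtain ⟨a, b⟩ := h.ind (A.comp (-X) + B.comp (-X) * X) (B.comp (-X)) (by
      simp only [gR, map_add, map_mul, aeval_comp, map_neg, aeval_X] at h0 ⊢
      linear_combination h0)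
    rw [b, zero_mul, add_zero] at a
    exact ⟨comp_neg_X_eq_zero_iff.1 a, comp_neg_X_eq_zero_iff.1 b⟩

theorem al_le {h : K} {S : Subring K} :
    AL R x y h ≤ S ↔ R ≤ S ∧ x ∈ S ∧ y ∈ S ∧ h⁻¹ ∈ S := by
  simp only [AL, Subring.closure_le, Set.union_subset_iff, Set.insert_subset_iff,
    Set.singleton_subset_iff, SetLike.mem_coe, SetLike.coe_subset_coe]

theorem iter (hB : Bs R π) (k : ℕ) : ∀ {e c : R} {x y : K}, Nd e (π ^ (2 * k) * c) x y →
    Nd (e * π ^ k) c (x / π ^ k) (y / π ^ k) := by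
  induction k with
  | zero => intro e c x y h; simpa using h
  | succ k ih =>
    intro e c x y h
    have := ih (up hB (c := π ^ (2 * k) * c) (by convert h using 1; ring))
    rwa [div_div, div_div, mul_assoc, ← pow_succ', ← pow_succ'] at this

theorem tor_zpow {O : Subring K} {a : K} (u : Ut O a) (h : Tor O a) (i : ℤ) : Tor O (a ^ i) := by
  obtain ⟨m, rfl | rfl⟩ := i.eq_nat_or_neg
  · rw [zpow_natCast]; exact h.pow m
  · rw [zpow_neg, zpow_natCast]; exact (h.pow m).inv (u.pow m)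

theorem nu_pi {B E : Subring K} {a : K} (h : Cu B a E) : Nu E a :=
  (h.div a h.mem).2 (by rw [div_self h.ne]; exact one_mem _)

end ZChain

open ZChain

theorem zNd : NdS := by
  intro K _ R π x y hB
  refine ⟨fun γ h => ?_, fun e c => ⟨up hB, fun h => ⟨swap h, ?_, ?_, le_antisymm ?_ ?_⟩⟩⟩
  · convert h using 1
    simp [WC, Nd, aW, cR, nW]
  · rintro rfl
    exact X_ne_zero (h.ind X 0 (by simp [gR])).1
  · rintro rfl
    exact one_ne_zero (h.ind 0 1 (by simp [gR])).2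
  · obtain ⟨a, b, c, d⟩ := (al_le (R := R) (x := x) (y := y) (h := 1)).1 le_rfl
    exact al_le.2 ⟨a, neg_mem b, add_mem c b, d⟩
  · obtain ⟨a, b, c, d⟩ := (al_le (R := R) (x := -x) (y := y + x) (h := 1)).1 le_rfl
    exact al_le.2 ⟨a, by simpa using b, by simpa using add_mem c b, d⟩

theorem zLv0 : OfLv0 := by
  intro hDv _ hSm hGs hVd hCu hCT hNd K _ R π x y hB γ ψ G hγ hW hψ hz hG
  have hN := (hNd K R π x y hB).1 γ hW
  obtain ⟨-, x0, -, sw⟩ := ((hNd K R π x y hB).2 _ _).2 hN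
  have eq : y ^ 2 + x * y = x ^ 3 + γ * γ := by simpa [sq] using nd_eq hN
  obtain ⟨b1, b2, b3, b4⟩ := (al_le (R := R) (x := x) (y := y) (h := x)).1 le_rfl
  obtain ⟨-, g1, g2, g3⟩ := (hGs K R π x y hB _ hW).2 G hG x (.inr rfl)
  have pt : ∀ D, Pp (AL R x y x) π D → (∃ w, Gen D π w) ∧ Alg D := fun D hD => by
    obtain ⟨a1, a2⟩ := hSm K R π x y hB _ _ x D hW.eq (al_le.1 le_rfl).2.1 x0 hD
    refine ⟨a2 ?_, a1⟩
    obtain ⟨n, _, -, n1, rfl⟩ := hD
    have le := le_lc _ n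
    have := IsLocalization.AtPrime.isLocalRing (lc _ n) n
    have p1 : Nu (lc _ n) (π : K) := (nu_iff (algebraMap (AL R x y x) (lc _ n)
      ⟨π, b1 π.2⟩)).2 fun u =>
      (IsLocalization.AtPrime.isUnit_to_map_iff _ n _).1 u (n1 _ rfl)
    have p2 := (hB.nu (b1.trans le) p1 hγ).mul (le (b1 γ.2))
    have m3 : 3 * x ^ 2 ∈ lc _ n := mul_mem (ofNat_mem _ 3) (pow_mem (le b2) 2)
    have m2 : 2 * y ∈ lc _ n := mul_mem (ofNat_mem _ 2) (le b3)
    have e1 : aeval x (aW (nW γ)) = x := by simp [aW, nW]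
    have e2 : aeval x (derivative (aW (nW γ))) * y - aeval x (derivative (cR (nW γ))) =
      y - 3 * x ^ 2 := by
      simp [aW, cR, nW, map_ofNat, derivative_pow]
    rw [e1, e2]
    rcases nu_or (add_mem m2 (le b2)) with c1 | c1
    · refine Or.inr ((nu_or (sub_mem (le b3) m3)).resolve_left fun c2 => ?_)
      refine Nu.not ?_ (Ut.pow ⟨x0, le b2, le b4⟩ 3)
      convert ((c2.mul m2).add (p2.mul (ofNat_mem _ 2))).add (c1.mul (sub_mem m3 m2)) using 1
      linear_combination 2 * eq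
    · exact Or.inl c1
  obtain ⟨E, hE⟩ := hCu K _ _ (g3 pt)
  obtain rfl := g2 E hE
  have un : ∀ V, Dvr V → AL R x y 1 ≤ V → Nu V π → ∀ t, t = y ∨ t = y + x → Ut V t →
      ¬Tor V t → V = E := fun V v1 v2 v3 t ht v4 v5 => by
    have := (hDv K V v1).loc
    obtain ⟨c1, c2, c3, -⟩ := al_le.1 v2
    have ux : Ut V x := (nu_or c2).resolve_left fun c => by
      have u : Ut V y ∧ Ut V (y + x) := by
        rcases ht with rfl | rfl
        · exact ⟨v4, v4.add c⟩
        · exact ⟨by simpa using v4.add c.neg, v4⟩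
      refine Nu.not ?_ (u.1.mul u.2)
      convert (c.mul (pow_mem c2 2)).add ((hB.nu c1 v3 hγ).mul (c1 γ.2)) using 1
      linear_combination eq
    refine (hE.cov V v1 (al_le.2 ⟨c1, c2, c3, ux.2.2⟩) v3).resolve_right fun ⟨D, d1, d2⟩ => ?_
    have le := (hE.pt D d1).2.1
    refine v5 (d2.tor ((pt D d1).2 t (d2.ut (le ?_) v4)))
    rcases ht with rfl | rfl
    · exact b3
    · exact add_mem b3 b2
  refine ⟨hE, fun V v1 v2 v3 => un V v1 v2 v3 _ (.inl rfl),
    fun V v1 v2 v3 => un V v1 (sw ▸ v2) v3 _ (.inr rfl), fun ⟨j, q, q', j0, q0, hq⟩ => ?_⟩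
  have := (hDv K E hE.dvr).loc
  obtain ⟨⟨w, w1, w', w2, w3, w4⟩, -⟩ := hCT K _ E π ψ hψ hE fun V v1 v2 v3 =>
    hz V v1 (b1.trans v2) v3 (v2 b2)
  have ψ1 := (hψ.1 E hE.dvr).2.1
  have ux : Ut E x := ⟨x0, g1 b2, g1 b4⟩
  have mq : aeval x q' ∈ E := by
    rw [aeval_eq_sum_range]
    exact sum_mem fun i _ => mul_mem (g1 (b1 (q'.coeff i).2)) (pow_mem ux.2.1 i)
  obtain ⟨i, k, k0, hk⟩ := (hVd K R π x y hB _ E hW hG).2 w w1 w' w2 w4 ⟨j, q, q', j0, q0, by
    convert hq.sub ((Nu.pow_sub ψ1 (g1 w1) w3 j).mul mq) using 1; ring⟩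
  have mx := (ux.zpow i).2.2
  refine ⟨i, k, k0, Tor.congr ?_ ?_ ?_ hk⟩
  · rw [div_eq_mul_inv]; exact mul_mem (pow_mem ψ1 k) mx
  · rw [div_eq_mul_inv]; exact mul_mem (pow_mem (g1 w1) k) mx
  · convert (Nu.pow_sub ψ1 (g1 w1) w3 k).mul mx using 1; ring

theorem zChain : OfChain := by
  intro hDv hNd hLn hS K _ R π x y hB m c ψ G i j hc hN hψ hz hG _ u1 u2 _ sl
  have hN' := swap hN
  have n1 := iter hB (m + 1) hN
  have n2 := iter hB (m + 1) hN'
  have eq := nd_eq n1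
  obtain ⟨-, -, -, sw⟩ := ((hNd K R π _ _ hB).2 _ _).2 n1
  obtain ⟨-, -, y0, -⟩ := ((hNd K R π _ _ hB).2 _ _).2 n2
  rw [pow_succ π, ← mul_assoc] at n1 n2
  obtain ⟨L, l1, l2⟩ := hLn K R π _ _ hB _ _ n1
  obtain ⟨L', l3, -⟩ := hLn K R π _ _ hB _ _ n2
  have s1 := hS K R π x y hB m 1 c ψ G L i j hN hψ hz hG u1 (.inr sl) l1
  have s2 := hS K R π (-x) (y + x) hB m (-1) c ψ G L' i j hN' hψ
    (fun V v1 v2 v3 v4 => hz V v1 v2 v3 (by simpa using v4)) hG u2 (.inr (Tor.of_pow two_pos (by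
      convert Tor.pow sl 2 using 1
      rw [div_pow, div_pow, ← zpow_natCast (_ ^ i), ← zpow_natCast (_ ^ i), ← zpow_mul, ← zpow_mul,
        Even.neg_zpow (by simp)]))) l3
  rw [neg_div, add_div] at l3
  rw [add_div] at s2 y0
  generalize x / (π : K) ^ (m + 1) = X at *
  generalize y / (π : K) ^ (m + 1) = Y at *
  have := (hDv K L' l3.dvr).loc
  obtain ⟨c1, c2, c3, c4⟩ := al_le.1 l3.le
  have p1 := nu_pi l3.toCu
  have uc : Ut L' c := ((ut_iff c).2 hc).mono c1
  have u3 : Ut L' (Y + X) := ⟨y0, c3, c4⟩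
  have p2 : Nu L' (Y * (Y + X) - c) := by
    convert p1.mul (mul_mem (pow_mem (c1 π.2) m) (pow_mem (neg_mem c2) 3)) using 1
    push_cast at eq
    linear_combination eq
  have u4 : Ut L' (Y * (Y + X)) := by simpa using uc.add p2
  have t4 : Tor L' (Y * (Y + X)) := (hB.tor c1 p1 hc).congr u4.2.1 uc.2.1 p2
  have u5 : Ut L' Y := by simpa [mul_div_cancel_right₀ _ y0] using u4.div u3
  obtain rfl : L' = L := l2 L' l3.dvr (sw ▸ al_le.2 ⟨c1, c2, c3, by simp⟩) p1 u5 fun t =>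
    one_ne_zero (l3.ntor 1 (by
      convert t4.mul (t.inv u5) using 1
      rw [zpow_one, mul_right_comm, mul_inv_cancel₀ u5.1, one_mul]))
  have uψ := (hψ.1 L' l3.dvr).pow j
  have := l1.ntor (2 * i) (by
    convert (Tor.mul s2 (Tor.inv (uψ.div (u5.zpow i)) s1)).mul (tor_zpow u4 t4 i) using 1
    have a1 := uψ.1
    have a2 := (u3.zpow i).1
    rw [mul_zpow, two_mul, zpow_add₀ u5.1]
    field_simp)
  omega

end Pool.Agent.MP_f3836a_nt.VE.Z
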