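import Pool.Agent.MP_f3836a_nt.VE.SpecZ3

/-! Part Z: families which are locally boundaries. -/

set_option autoImplicit false

namespace Pool.Agent.MP_f3836a_nt.VE.Z

open PK VE.A VE.T VE.W

namespace ZCo

variable {K K' : Type} [Field K] [Field K'] {i : K →+* K'} {S : Subring K'} {z : K}

theorem ut_c : Ut (S.comap i) z ↔ Ut S (i z) := by
  simp only [Ut, Subring.mem_comap, map_inv₀, ne_eq, map_eq_zero]

theorem nu_c : Nu (S.comap i) z ↔ Nu S (i z) := by
  simp only [Nu, Subring.mem_comap, map_inv₀, map_eq_zero]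

theorem loc_c [IsLocalRing S] : IsLocalRing (S.comap i) :=
  .of_isUnit_or_isUnit_one_sub_self fun a => by
    rw [← ut_iff, ← ut_iff, ut_c, ut_c]
    refine (nu_or (D := S) a.2).elim (fun h => .inr ?_) .inl
    simpa [sub_eq_add_neg] using ut_one.add h.neg

theorem alg_c (h : Alg S) : Alg (S.comap i) := fun z u =>
  (h _ (ut_c.1 u)).imp fun j t => ⟨t.1, nu_c.2 (by simpa using t.2)⟩

theorem tame_c {e : ℕ} (h : ∀ z, z ≠ 0 → ordR S (i z) = e * ordR (S.comap i) z) {f g : K}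
    (hf : f ≠ 0) (hg : g ≠ 0) : tameE S (i f) (i g) = i (tameE (S.comap i) f g) ^ e := by
  unfold tameE
  rw [h f hf, h g hg]
  generalize ordR (S.comap i) f = m
  generalize ordR (S.comap i) g = n
  have e1 : (-1 : K') ^ ((e : ℤ) * m * (e * n)) = (-1) ^ (m * n * e) := by
    have : (e : ℤ) * m * (e * n) = m * n * e + e * (e - 1) * (m * n) := by ring
    rw [this, zpow_add₀ (by simp), ((Int.even_mul_pred_self _).mul_right _).neg_one_zpow, mul_one]
  rw [e1, map_div₀, map_mul, map_zpow₀, map_zpow₀, map_zpow₀, map_neg, map_one, div_pow, mul_pow]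
  simp only [← zpow_natCast, ← zpow_mul]
  rw [mul_comm n, mul_comm m (e : ℤ)]

theorem bd_c {e : ℕ} (h : ∀ z, z ≠ 0 → ordR S (i z) = e * ordR (S.comap i) z) :
    ∀ l : List (K × K), NZ l → bdE (l.map (Prod.map i i)) S = i (bdE l (S.comap i)) ^ e
  | [], _ => by simp [bdE]
  | s :: l, hl => by
    have h1 := bd_c h l fun t ht => hl t (List.mem_cons_of_mem _ ht)
    have h2 := tame_c h (hl s List.mem_cons_self).1 (hl s List.mem_cons_self).2
    unfold bdE at h1 ⊢
    simp only [List.map_cons, List.prod_cons, map_mul, mul_pow, Prod.map_fst, Prod.map_snd, h1, h2]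

theorem bd_pow {l₀ l : List (K × K)} (h₀ : NZ l₀) (h : NZ l) (n : ℕ) :
    ∃ l', NZ l' ∧ ∀ V, bdE l' V = bdE l₀ V ^ n * bdE l V := by
  induction n with
  | zero => exact ⟨l, h, fun V => by simp⟩
  | succ n ih =>
    obtain ⟨l', h1, h2⟩ := ih
    refine ⟨l₀ ++ l', fun s hs => (List.mem_append.1 hs).elim (h₀ s) (h1 s), fun V => ?_⟩
    rw [pow_succ', mul_assoc, ← h2]
    simp [bdE]

/-- all primes but one are units -/
theorem prime (D : Subring K) [IsLocalRing D] :
    ∃ p : ℕ, p ≠ 0 ∧ ∀ q : ℕ, q.Prime → q = p ∨ Ut D q := by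
  by_cases h : ∃ p : ℕ, p.Prime ∧ Nu D p
  · obtain ⟨p, hp, h⟩ := h
    refine ⟨p, hp.ne_zero, fun q hq => or_iff_not_imp_left.2 fun e =>
      (nu_or (natCast_mem D q)).resolve_left fun k => ?_⟩
    obtain ⟨a, b, e⟩ := Nat.isCoprime_iff_coprime.2 ((Nat.coprime_primes hq hp).2 e)
    have e' : (a : K) * q + b * p = 1 := by exact_mod_cast congrArg (Int.cast : ℤ → K) e
    exact (e' ▸ (k.mul (intCast_mem D a)).add (h.mul (intCast_mem D b))).not ut_one
  · exact ⟨1, one_ne_zero, fun q hq =>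
      .inr ((nu_or (natCast_mem D q)).resolve_left fun k => h ⟨q, hq, k⟩)⟩

theorem ho {O : Subring K} (h : ∀ q : ℕ, q.Prime → Ut O q) : Ho O := fun n hn => by
  refine (?_ : Ut O n).2.2
  induction n using induction_on_primes with
  | zero => exact absurd rfl hn
  | one => simpa using ut_one
  | prime_mul p a hp ih =>
    rw [Nat.cast_mul]; exact (h p hp).mul (ih (right_ne_zero_of_mul hn))

end ZCo

open ZCo

theorem zCoE : OfCoE := by
  intro hD hE K K' _ _ _ _ ι ξ ψ h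
  have h0 : ∀ V : Subring K', ∃ e : ℕ, Dvr V → 0 < e ∧ ∀ z : K, z ≠ 0 →
      ordR V (algebraMap K K' z) = e * ordR (V.comap (algebraMap K K')) z := fun V => by
    by_cases hV : Dvr V
    · exact (hE K K' V hV).2.imp fun _ k _ => k
    · exact ⟨0, fun k => absurd k hV⟩
  choose e he using h0
  have hu : ∀ V, Dvr V → Ut V (algebraMap K K' (ψ (V.comap (algebraMap K K')))) := fun V hV =>
    ut_c.1 (h.us _ (hE K K' V hV).1)
  refine ⟨fun V => algebraMap K K' (ψ (V.comap (algebraMap K K'))) ^ e V,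
    ⟨h.ne.imp fun j k => by simpa using k, fun V hV => (hu V hV).pow _, fun S h1 h2 h3 => ?_, ?_⟩,
    fun V hV => ⟨e V, (he V hV).1, rfl⟩⟩
  · obtain ⟨l, hl, k⟩ := h.loc (S.comap (algebraMap K K')) loc_c (alg_c h2)
      (h3.imp fun j t => ⟨by simpa using t.1, fun j' => by simpa using t.2 j'⟩)
    refine ⟨l.map (Prod.map (algebraMap K K') (algebraMap K K')), fun s hs => ?_, fun V hV le => ?_⟩
    · obtain ⟨t, ht, rfl⟩ := List.mem_map.1 hs
      simpa using hl t ht
    · have hV' := (hE K K' V hV).1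
      rw [bd_c (he V hV).2 l hl]
      exact Nu.pow_sub (hu V hV).2.1 ((hD K _ hV').bd l hl).1.2.1
        (by simpa using nu_c.1 (k _ hV' fun _ t => le t)) _
  · obtain ⟨H, hH, k⟩ := h.fin
    refine ⟨algebraMap K K' '' H, hH.image _, fun V hV ho hz => ?_⟩
    have h1 := k _ (hE K K' V hV).1 (fun n hn => by simpa using ho n hn) fun f hf => by
      by_cases f0 : f = 0
      · rw [f0]; exact dif_neg fun t => t.1 rfl
      · have := hz _ ⟨f, hf, rfl⟩
        rw [(he V hV).2 f f0] at this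
        exact (mul_eq_zero.1 this).resolve_left (by exact_mod_cast (he V hV).1.ne')
    simpa using Nu.pow_sub (hu V hV).2.1 V.one_mem (by simpa using nu_c.1 h1) (e V)

theorem zCoR : OfCoR := by
  intro hD hR hC hE K ι _ _ _ ξ ψ h
  obtain ⟨H, hH, k⟩ := h.fin
  have ub : ∀ l : List (K × K), NZ l → Us (bdE l) := fun l hl V hV => ((hD K V hV).bd l hl).1
  refine ⟨hE K ι ξ ψ h.ne h.us (fun D hD' => ?_) fun D hD' hc => ?_, fun n l hl =>
    ⟨h.ne, fun V hV => ((h.us V hV).pow n).mul (ub l hl V hV), fun S h1 h2 h3 => ?_, ?_⟩⟩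
  · have := hD'.loc
    have A := hR K D hD'
    obtain ⟨p, p0, hp⟩ := prime D
    refine ((hH.insert (p : K)).biUnion fun f _ => A.fin f).subset fun O hO => ?_
    by_contra hn
    have h1 : ∀ f ∈ insert (p : K) H, ordR O f = 0 := fun f hf => by
      by_contra t
      exact hn (Set.mem_biUnion hf ⟨hO.1, t⟩)
    obtain ⟨hV, le, -⟩ := A.dvr O hO.1
    refine hO.2 (k O hV (ho fun q hq => (hp q hq).elim (fun e => ?_) fun u => u.mono le)
      fun f hf => h1 f (Set.mem_insert_of_mem _ hf))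
    rw [e]
    exact ((hD K O hV).ut _).2 ⟨Nat.cast_ne_zero.2 p0, h1 _ (Set.mem_insert _ _)⟩
  · obtain ⟨l, hl, t⟩ := h.loc D hD'.loc hD'.alg hc
    refine (hC K D hD').cg _ _ (ub l hl) h.us (fun O hO => ?_) ((hC K D hD').key l hl)
    obtain ⟨hV, le, -⟩ := (hR K D hD').dvr O hO
    simpa using (t O hV le).neg
  · obtain ⟨l₀, h₀, t⟩ := h.loc S h1 h2 h3
    obtain ⟨l', h4, h5⟩ := bd_pow h₀ hl n
    refine ⟨l', h4, fun V hV le => ?_⟩
    rw [h5, ← sub_mul, mul_comm]
    exact (Nu.pow_sub (h.us V hV).2.1 (ub l₀ h₀ V hV).2.1 (t V hV le) n).mul (ub l hl V hV).2.1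
  · refine ⟨H ∪ (Prod.fst '' {s | s ∈ l} ∪ Prod.snd '' {s | s ∈ l}),
      hH.union ((l.finite_toSet.image _).union (l.finite_toSet.image _)), fun V hV hh hz => ?_⟩
    beta_reduce
    rw [(hD K V hV).one l fun s hs =>
      ⟨hz _ (.inr (.inl ⟨s, hs, rfl⟩)), hz _ (.inr (.inr ⟨s, hs, rfl⟩))⟩]
    simpa using Nu.pow_sub (h.us V hV).2.1 V.one_mem (k V hV hh fun f hf => hz f (.inl hf)) n

end Pool.Agent.MP_f3836a_nt.VE.Z
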