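import Pool.Agent.MP_f3836a_nt.VE.SpecZ1

/-! Row ZCu: the local ring of an integral curve all of whose points are regular. -/

set_option autoImplicit false

namespace Pool.Agent.MP_f3836a_nt.VE.Z

open Polynomial IsLocalRing PK VE.A VE.T VE.W

namespace ZCu

variable {K : Type} [Field K] {B : Subring K} {a : K}

theorem nu_lc (L : LcA B) (q : Ideal B) [q.IsPrime] (z : B) : Nu (lc B q) z ↔ z ∈ q :=
  (nu_iff (Subring.inclusion (le_lc B q) z)).trans (by rw [L.unit, not_not])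

theorem mem_sp (h : a ∈ B) (h0 : a ≠ 0) (z : B) :
    z ∈ Ideal.span {(⟨a, h⟩ : B)} ↔ (z : K) / a ∈ B := by
  rw [Ideal.mem_span_singleton']
  refine ⟨?_, fun e => ⟨⟨_, e⟩, Subtype.ext (div_mul_cancel₀ _ h0)⟩⟩
  rintro ⟨c, rfl⟩
  simp [h0]

theorem le {E E' : Subring K} (h : Cu B a E) (h' : Cu B a E') : E ≤ E' := fun u hu => by
  obtain ⟨c, hc, d, hd, e, e'⟩ := h.frac u hu
  have k : Ut E' d := (nu_or (h'.le hd)).resolve_left fun n =>
    ((h.div d hd).2 ((h'.div d hd).1 n)).not e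
  rw [(eq_mul_inv_iff_mul_eq₀ e.1).2 e']
  exact E'.mul_mem (h'.le hc) k.2.2

end ZCu

open ZCu in
theorem zCu : OfCu := by
  intro hL hD hR hC
  refine ⟨fun K _ B a F => ?_, fun K _ B E E' a h h' => le_antisymm (le h h') (le h' h)⟩
  have L := hL K B
  have ms := mem_sp F.mem F.ne
  obtain ⟨t, ht, t1, t2⟩ := F.nm
  set q : Ideal B := Ideal.span {(⟨a, F.mem⟩ : B)} with hq
  have qt : q ≠ ⊤ := fun e => t1 ((ms ⟨t, ht⟩).1 (e ▸ Submodule.mem_top))
  have qp : q.IsPrime := ⟨qt, fun {x y} e => by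
    rw [ms] at e ⊢
    rw [ms]
    exact F.pr _ x.2 _ y.2 e⟩
  have aq : (⟨a, F.mem⟩ : B) ∈ q := Ideal.subset_span rfl
  have qm : ¬q.IsMaximal := fun m => by
    obtain ⟨s, c, hc, e⟩ := m.exists_inv (x := ⟨t, ht⟩) fun e => t1 ((ms _).1 e)
    refine t2 s s.2 ?_
    have e' : (s : K) * t + c = 1 := congrArg Subtype.val e
    have := (ms _).1 (q.neg_mem hc)
    rwa [show t * s - 1 = ((-c : B) : K) by rw [← e']; simp [mul_comm]]
  have na : Nu (lc B q) a := (nu_lc L q _).2 aq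
  have pp : ∀ (n : Ideal B) (m : n.IsMaximal), (⟨a, F.mem⟩ : B) ∈ n →
      Pp B a (@lc _ _ B n m.isPrime) := fun n m e =>
    ⟨n, m.isPrime, m, fun z hz => by rwa [show z = ⟨a, F.mem⟩ from Subtype.ext hz], rfl⟩
  have pt : ∀ D, Pp B a D → Rg D ∧ B ≤ D ∧ ∃ w, Gen D a w ∧ Ax D a w (lc B q) := fun D hp => by
    obtain ⟨⟨w, g⟩, al⟩ := F.gen D hp
    obtain ⟨n, _, m, hn, rfl⟩ := hp
    obtain ⟨q', _, k⟩ := L.up n q ((Ideal.span_singleton_le_iff_mem _).2 (hn _ rfl))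
    have b1 : q' ≠ ⊥ := fun e => F.ne (by
      rw [k.bot.1 e, Ideal.mem_bot] at aq; exact congrArg Subtype.val aq)
    have b2 : ¬q'.IsMaximal := fun e => qm (k.max.1 e ▸ m)
    have R : Rg (lc B n) := ⟨inferInstance, L.noeth n F.noeth, fun z => by
      obtain ⟨c, d, e, e'⟩ := F.fr z
      exact ⟨⟨c, le_lc B n c.2⟩, ⟨d, le_lc B n d.2⟩, e, e'⟩, al, ⟨a, w, g⟩, q', ‹_›, b1, b2⟩
    obtain ⟨O, x⟩ := (hC K _ R).ax a w g
    refine ⟨R, le_lc B n, w, g, ?_⟩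
    by_contra e
    exact na.not (x.oth _ ⟨q', ‹_›, b1, b2, k.eq.symm⟩ fun e' => e (e' ▸ x))
  have co : ∀ u, Ut (lc B q) u → (∀ D, Pp B a D → oK (lc B q) D u = 0) →
      ∃ w ∈ B, Nu (lc B q) (u - w) := fun u hu h => by
    let I : Ideal B :=
      { carrier := {c | ∃ w ∈ B, Nu (lc B q) (c * u - w)}
        add_mem' := fun ⟨w, hw, e⟩ ⟨w', hw', e'⟩ => ⟨w + w', B.add_mem hw hw', by
          convert e.add e' using 1; push_cast; ring⟩
        zero_mem' := ⟨0, B.zero_mem, by simpa using nu_zero⟩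
        smul_mem' := fun c x ⟨w, hw, e⟩ => ⟨c * w, B.mul_mem c.2 hw, by
          convert e.mul (le_lc B q c.2) using 1; simp; ring⟩ }
    have : I = ⊤ := by
      by_contra e
      obtain ⟨n, m, hn⟩ := I.exists_le_maximal e
      have p := pp n m (hn ⟨0, B.zero_mem, by simpa [mul_comm] using na.mul hu.2.1⟩)
      obtain ⟨R, -, b, -, x⟩ := pt _ p
      have A := hR K _ R
      have dl := (A.dvr _ x.h1).2.1
      obtain ⟨w, k, uw, e⟩ := x.nf u hu
      have u2 := uw.mono dl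
      have h1 := A.cg _ x.h1 u hu.2.1 _ (u2.mul (x.ut.zpow k)).2.1 e
      rw [h _ p, A.mul _ _ _ x.h1 u2 (x.ut.zpow k), A.zpow _ _ _ x.h1 x.ut, x.one,
        (A.pos _ x.h1 w uw.2.1 u2).2.2 uw, zero_add, mul_one] at h1
      subst h1
      obtain ⟨c, d, hd, e'⟩ := mem_lc.1 uw.2.1
      refine hd (hn ⟨c, c.2, ?_⟩)
      convert e.mul (le_lc B q d.2) using 1
      rw [← e']; simp; ring
    obtain ⟨w, hw, e⟩ : (1 : B) ∈ I := this ▸ Submodule.mem_top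
    exact ⟨w, hw, by simpa using e⟩
  obtain ⟨n, m, hn⟩ := q.exists_le_maximal qt
  obtain ⟨R, -, b, -, x⟩ := pt _ (pp n m (hn aq))
  refine ⟨lc B q, ((hR K _ R).dvr _ x.h1).1, le_lc B q, F.mem, F.ne, x.ord,
    fun z hz => (nu_lc L q ⟨z, hz⟩).trans (ms _), fun u hu => ?_, pt, fun u hu h => ?_,
    fun V hV le nV => ?_⟩
  · obtain ⟨c, d, hd, e⟩ := mem_lc.1 hu
    exact ⟨c, c.2, d, d.2, (nu_or (le_lc B q d.2)).resolve_left fun e => hd ((nu_lc L q d).1 e), e⟩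
  · obtain ⟨w, hw, e⟩ := co u hu h
    obtain ⟨w', hw', e'⟩ := co _ hu.inv fun D p => by
      obtain ⟨R, -, b, -, x⟩ := pt _ p
      rw [← zpow_neg_one, (hR K _ R).zpow _ _ _ x.h1 hu, h D p, mul_zero]
    refine ⟨w, hw, w', hw', e, ?_⟩
    convert ((e.mul (le_lc B q hw')).add (e'.mul hu.2.1)).neg using 1
    rw [mul_sub u, mul_inv_cancel₀ hu.1]; ring
  · have := (hD K V hV).loc
    obtain ⟨p, _, pl, hp⟩ := L.cen V le
    obtain ⟨n, m, hn⟩ := p.exists_le_maximal (Ideal.IsPrime.ne_top ‹_›)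
    have p := pp n m (hn ((hp _).2 ((nu_iff _).1 nV)))
    obtain ⟨R, -, b, -, x⟩ := pt _ p
    refine ((hR K _ R).cen V hV (((L.le _ _).2 hn).trans pl)).imp (fun h1 => ?_) fun d => ⟨_, p, d⟩
    by_contra e
    exact nV.not (x.oth V h1 e)

end Pool.Agent.MP_f3836a_nt.VE.Z
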