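import Pool.Agent.MP_f3836a_nt.VE.SpecZ1

/-! The exceptional curve of a blow up and descent of cycles. -/

set_option autoImplicit false

namespace Pool.Agent.MP_f3836a_nt.VE.Z

open Polynomial IsLocalRing PK VE.A VE.T VE.W

namespace ZEx

variable {K : Type} [Field K] {D O B : Subring K} {a b : K}

theorem le_bl (D : Subring K) (t : K) : D ≤ Bl D t :=
  fun _ h => Subring.subset_closure (Or.inr h)

theorem mem_bl (D : Subring K) (t : K) : t ∈ Bl D t := Subring.subset_closure (Or.inl rfl)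

theorem gen_nu (h : Gen D a b) : Nu D a := (h.2.2 a).2 ⟨1, D.one_mem, 0, D.zero_mem, by simp⟩

theorem eqn_nu (h : Eqn D O a) : Nu O a := (h.div a h.mem).2 (div_self h.ne ▸ D.one_mem)

theorem nu_lc (L : LcA B) (n : Ideal B) [n.IsPrime] (z : B) : Nu (lc B n) z ↔ z ∈ n :=
  (nu_iff (Subring.inclusion (le_lc B n) z)).trans ((L.unit n z).not.trans not_not)

end ZEx

open ZEx

theorem zEx : OfEx := by
  intro hL hV hR hC hA hF hU K _ D a b r g
  have := r.loc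
  obtain ⟨a0, -, ρ, su, ρt, ρd, ρ0⟩ := hA K D a b r g
  obtain ⟨E, c⟩ := hU K _ a (hF K D a b r g)
  have := (hV K E c.dvr).loc
  have hD := le_bl D (b / a)
  have ht := mem_bl D (b / a)
  have L := hL K (Bl D (b / a))
  have key : ∀ z : Bl D (b / a), Nu E z ↔ ρ z = 0 := fun z => (c.div z z.2).trans (ρ0 z).symm
  have dom : Dom D E := ⟨hD.trans c.le, fun z hz => (key ⟨z, hD hz.1⟩).2 (by
    rw [ρd _ ⟨z, hz.1⟩ rfl, (residue_eq_zero_iff _).2 ((nu_iff ⟨z, hz.1⟩).1 hz), map_zero])⟩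
  have ut : Ut E (b / a) := (nu_or (c.le ht)).resolve_left fun h =>
    X_ne_zero ((ρt ⟨_, ht⟩ rfl).symm.trans ((key ⟨_, ht⟩).1 h))
  have pt : ∀ D', Pp (Bl D (b / a)) a D' →
      Dom D D' ∧ ∀ O, H1 D' O → O = E ∨ (H1 D O ∧ Ut O a) := fun D' p => by
    obtain ⟨r', le, w, -, ax⟩ := c.pt D' p
    refine ⟨⟨hD.trans le, fun z hz => ?_⟩, fun O h => or_iff_not_imp_left.2 fun ne => ?_⟩
    · obtain ⟨n, _, -, hn, rfl⟩ := p
      obtain ⟨u, hu, v, hv, e⟩ := (g.2.2 z).1 hz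
      have := ((nu_lc L n ⟨a, c.mem⟩).2 (hn _ rfl)).mul
        (le (add_mem (hD hu) (mul_mem (hD hv) ht)))
      convert this using 1
      rw [e]
      field_simp
    · obtain ⟨d, le', -⟩ := (hR K D' r').dvr O h
      have u := ax.oth O h ne
      exact ⟨((hR K D r).cen O d (hD.trans (le.trans le'))).resolve_right fun e =>
        (e.2 a (gen_nu g)).not u, u⟩
  refine ⟨E, c, dom, ut, fun ⟨j, hj, e⟩ => ?_, pt, fun u hu h => ?_, ?_⟩
  · have := congrArg (eval 0) ((key (⟨_, ht⟩ ^ j - 1)).1 e)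
    rw [map_sub, map_pow, ρt _ rfl] at this
    simp [hj.ne'] at this
  · obtain ⟨w, hw, w', hw', e, e'⟩ := c.con u hu h
    have e1 := (key (⟨w, hw⟩ * ⟨w', hw'⟩ - 1)).1 e'
    rw [map_sub, map_mul, map_one, sub_eq_zero] at e1
    obtain ⟨x, hx, e2⟩ := Polynomial.isUnit_iff.1 (IsUnit.of_mul_eq_one _ e1)
    obtain ⟨d, rfl⟩ := residue_surjective x
    have e3 := (key (⟨w, hw⟩ - ⟨d, hD d.2⟩)).2 (by rw [map_sub, ρd ⟨d, _⟩ d rfl, e2, sub_self])
    refine Tor.congr hu.2.1 (dom.1 d.2) (by simpa using e.add e3) (dom.tor (r.alg _ ?_))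
    exact (ut_iff d).2 ((residue_ne_zero_iff_isUnit d).1 hx.ne_zero)
  · have := PrincipalIdealRing.isMaximal_of_irreducible (irreducible_X (R := ResidueField D))
    have m := Ideal.comap_isMaximal_of_surjective ρ su (K := Ideal.span {X})
    have := m.isPrime
    have ha : ∀ z : Bl D (b / a), (z : K) = a → z ∈ (Ideal.span {X}).comap ρ := fun z e => by
      rw [Ideal.mem_comap, (ρ0 z).2 (by rw [e, div_self a0]; exact one_mem _)]
      exact zero_mem _
    have p : Pp (Bl D (b / a)) a (lc _ ((Ideal.span {X}).comap ρ)) := ⟨_, _, m, ha, rfl⟩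
    obtain ⟨r', le, -⟩ := c.pt _ p
    have := r'.loc
    have g' : Gen (lc _ ((Ideal.span {X}).comap ρ)) (b / a) a := by
      refine ⟨le ht, le c.mem, fun z => ⟨fun hz => ?_, ?_⟩⟩
      · obtain ⟨α, β, hβ, e⟩ := mem_lc.1 hz.1
        have uβ := (nu_or (le β.2)).resolve_left ((nu_lc L _ β).not.2 hβ)
        have hα := hz.mul (le β.2)
        rw [mul_comm, e, nu_lc L, Ideal.mem_comap, Ideal.mem_span_singleton'] at hα
        obtain ⟨q, hq⟩ := hα
        obtain ⟨γ, rfl⟩ := su q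
        have hδ := (ρ0 (α - γ * ⟨_, ht⟩)).1 (by rw [map_sub, map_mul, ρt ⟨_, ht⟩ rfl, hq, sub_self])
        refine ⟨_, mul_mem (le γ.2) uβ.2.2, _, mul_mem (le hδ) uβ.2.2, ?_⟩
        have := uβ.1
        push_cast
        rw [← e]
        field_simp
        ring
      · rintro ⟨u, hu, v, hv, rfl⟩
        refine (((nu_lc L _ ⟨_, ht⟩).2 ?_).mul hu).add (((nu_lc L _ ⟨a, c.mem⟩).2 (ha _ rfl)).mul hv)
        rw [Ideal.mem_comap, ρt _ rfl]
        exact Ideal.mem_span_singleton_self _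
    refine ⟨_, p, g', fun O ax => ?_⟩
    obtain ⟨O', ax'⟩ := (hC K _ r').ax _ _ g'
    have nu := eqn_nu ax'.toEqn
    rcases (pt _ p).2 O' ax'.h1 with rfl | ⟨h, u⟩
    · exact absurd ut nu.not
    · rwa [← show O' = O from not_not.1 fun ne => nu.not ((ax.oth O' h ne).div u)]

theorem zDe : OfDe := by
  intro hV hR hC hL hE K _ D ψ r us fs H
  obtain ⟨a, b, g⟩ := r.gen
  obtain ⟨A, ax⟩ := (hC K D r).ax a b g
  obtain ⟨l, nz, hl⟩ := hL K D A a b ψ r g ax us fs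
  have nz' : NZ (l.map Prod.swap) := fun s hs => by
    obtain ⟨s', h, rfl⟩ := List.mem_map.1 hs
    exact (nz s' h).symm
  have u0 : Us (bdE l) := fun O d => ((hV K O d).bd l nz).1
  have u0' : Us (bdE (l.map Prod.swap)) := fun O d => ((hV K O d).bd _ nz').1
  obtain ⟨φ, hφ⟩ : ∃ φ : Subring K → K, φ = fun O => ψ O * bdE (l.map Prod.swap) O := ⟨_, rfl⟩
  have u1 : Us φ := fun O d => hφ ▸ (us O d).mul (u0' O d)
  have n1 : ∀ O, H1 D O → O ≠ A → Nu O (φ O - 1) := fun O h ne => by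
    have d := ((hR K D r).dvr O h).1
    have := (hV K O d).loc
    convert ((hl O h ne).mul (u0' O d).2.1).add ((hV K O d).bd l nz).2.1 using 1
    rw [hφ]
    ring
  have c1 : ∀ a b D', Rg D' → Gen D a b → Pp (Bl D (b / a)) a D' → Cyc D' φ :=
    fun a b D' r' g p => hφ ▸ (hC K D' r').mul _ _ us u0' (H a b D' g p) ((hC K D' r').key _ nz')
  obtain ⟨E, e⟩ := hE K D a b r g
  obtain ⟨E', e'⟩ := hE K D b a r g.swap
  have tE : Tor E (φ E) := e.con' _ (u1 E e.dvr) fun D' p => by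
    obtain ⟨r', -, w, -, ax'⟩ := e.pt D' p
    refine (hC K D' r').one φ E u1 (c1 a b D' r' g p) ax'.h1 fun O h ne => ?_
    obtain ⟨h', u⟩ := ((e.pt' D' p).2 O h).resolve_left ne
    exact (n1 O h' fun x => (eqn_nu ax.toEqn).not (x ▸ u)).tor
  have ui : Ut E (a / b) := inv_div b a ▸ e.ut.inv
  obtain rfl : E = E' := (e'.cov E e.dvr (Subring.closure_le.2 (Set.insert_subset ui.2.1 e.dom.1))
    (e.dom.2 b (gen_nu g.swap))).resolve_right fun ⟨D', p, dm⟩ => by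
      obtain ⟨r', le, -⟩ := e'.pt D' p
      exact e.ntor (inv_div a b ▸ (dm.tor (r'.alg _ (dm.ut (le (mem_bl D _)) ui))).inv ui)
  obtain ⟨D', p, -, h0⟩ := e'.org
  have ax' := h0 A ax
  obtain ⟨r', -⟩ := e'.pt D' p
  obtain ⟨dm, cu⟩ := e'.pt' D' p
  have z := (hC K D' r').one φ A u1 (c1 b a D' r' g.swap p) ax'.h1 fun O h ne => by
    rcases cu O h with rfl | ⟨h', -⟩
    exacts [tE, (n1 O h' ne).tor]
  obtain ⟨dA, le, -⟩ := (hR K D r).dvr A ax.h1
  obtain ⟨w, k, hw, nf⟩ := ax.nf _ (u1 A dA)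
  have val : ∀ S, Rg S → D ≤ S → H1 S A → oK A S b = 1 → oK A S (φ A) = k := fun S s h1 h2 h3 => by
    have R := hR K S s
    have uw := hw.mono le
    rw [R.cg A h2 _ (u1 A dA).2.1 _ (uw.mul (ax.ut.zpow k)).2.1 nf, R.mul A _ _ h2 uw (ax.ut.zpow k),
      R.zpow A _ _ h2 ax.ut, h3, (R.pos A h2 w (h1 hw.2.1) uw).2.2 (hw.mono h1), zero_add, mul_one]
  have c := (hC K D r).of φ A u1 ax.h1 n1 (by
    rw [val D r le_rfl ax.h1 ax.one, ← val D' r' dm.1 ax'.h1 ax'.one, z])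
  refine (hC K D r).cg _ ψ (fun O d => (u1 O d).mul (u0 O d)) us (fun O h => ?_)
    ((hC K D r).mul _ _ u1 u0 c ((hC K D r).key l nz))
  have d := ((hR K D r).dvr O h).1
  convert ((hV K O d).bd l nz).2.1.mul (us O d).2.1 using 1
  rw [hφ]
  ring

end Pool.Agent.MP_f3836a_nt.VE.Z
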