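import Pool.Agent.MP_f3836a_nt.VE.SpecZ2

/-! Rows Qc and Gs: the charts and the valuation ring of the special fibre. -/

set_option autoImplicit false

namespace Pool.Agent.MP_f3836a_nt.VE.Z

open Polynomial IsLocalRing PK VE.A VE.T VE.W WeierstrassCurve.Affine

namespace ZGs

variable {K : Type} [Field K] {R : Subring K} {x y : K}

theorem gR_mul {a f : R[X]} (h : y ^ 2 + aeval x a * y = aeval x f) (A B A' B' : R[X]) :
    gR x y A B * gR x y A' B' =
      gR x y (A * A' + B * B' * f) (A * B' + A' * B - B * B' * a) := by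
  simp only [gR, map_add, map_sub, map_mul]
  linear_combination aeval x B * aeval x B' * h

theorem gR_add (A B A' B' : R[X]) : gR x y A B + gR x y A' B' = gR x y (A + A') (B + B') := by
  simp only [gR, map_add]
  ring

theorem gR_sub (A B A' B' : R[X]) : gR x y A B - gR x y A' B' = gR x y (A - A') (B - B') := by
  simp only [gR, map_sub]
  ring

theorem gR_smul (D A B : R[X]) : gR x y (D * A) (D * B) = aeval x D * gR x y A B := by
  simp only [gR, map_mul]
  ring

theorem gR_zero (D : R[X]) : gR x y D 0 = aeval x D := by simp [gR]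

theorem aeval_C' (c : R) : aeval x (C c : R[X]) = (c : K) := aeval_C x c

theorem R_le (h : K) : R ≤ AL R x y h := fun _ hz => Subring.subset_closure (.inl hz)

theorem x_mem (h : K) : x ∈ AL R x y h := Subring.subset_closure (.inr (by simp))

theorem y_mem (h : K) : y ∈ AL R x y h := Subring.subset_closure (.inr (by simp))

theorem i_mem (h : K) : h⁻¹ ∈ AL R x y h := Subring.subset_closure (.inr (by simp))

theorem AL_le {h : K} {S : Subring K} (h1 : R ≤ S) (h2 : x ∈ S) (h3 : y ∈ S) (h4 : h⁻¹ ∈ S) :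
    AL R x y h ≤ S := by
  refine Subring.closure_le.2 ?_
  rintro z (hz | rfl | rfl | rfl)
  exacts [h1 hz, h2, h3, h4]

theorem one_le (h : K) : AL R x y 1 ≤ AL R x y h :=
  AL_le (R_le h) (x_mem h) (y_mem h) (by rw [inv_one]; exact one_mem _)

theorem aeval_mem (h : K) (A : R[X]) : aeval x A ∈ AL R x y h := by
  induction A using Polynomial.induction_on' with
  | add p q hp hq => rw [map_add]; exact add_mem hp hq
  | monomial n c => rw [aeval_monomial]; exact mul_mem (R_le h c.2) (pow_mem (x_mem h) n)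

theorem gR_mem (h : K) (A B : R[X]) : gR x y A B ∈ AL R x y h :=
  add_mem (aeval_mem h A) (mul_mem (aeval_mem h B) (y_mem h))

theorem uniq {a f : R[X]} (h : QC x y a f) {A B A' B' : R[X]} (e : gR x y A B = gR x y A' B') :
    A = A' ∧ B = B' := by
  obtain ⟨h1, h2⟩ := h.ind (A - A') (B - B') (by rw [← gR_sub, e, sub_self])
  exact ⟨sub_eq_zero.1 h1, sub_eq_zero.1 h2⟩

theorem dvd_iff {a f : R[X]} (h : QC x y a f) (q : QcA x y a f) {π : R} (h0 : (π : K) ≠ 0)
    (A B : R[X]) : gR x y A B / π ∈ AL R x y 1 ↔ C π ∣ A ∧ C π ∣ B := by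
  constructor
  · intro e
    obtain ⟨A', B', e'⟩ := (q.mem _).1 e
    obtain ⟨h1, h2⟩ := uniq h (A := A) (B := B) (A' := C π * A') (B' := C π * B')
      (by rw [gR_smul, aeval_C', ← e', mul_div_cancel₀ _ h0])
    exact ⟨⟨A', h1⟩, B', h2⟩
  · rintro ⟨⟨A', rfl⟩, B', rfl⟩
    rw [gR_smul, aeval_C', mul_div_cancel_left₀ _ h0]
    exact gR_mem 1 A' B'

theorem dvd_eval {π : R} {P : R[X]} (h : C π ∣ P) (c : R) : π ∣ P.eval c := by
  obtain ⟨Q, rfl⟩ := h
  rw [eval_mul, eval_C]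
  exact dvd_mul_right _ _

/-- the reduction is a domain -/
theorem red {π : R} (hb : Bs R π) {W : WeierstrassCurve R} (q : QcA x y (aW W) (cR W)) :
    ∃ 𝔭 : Ideal (AL R x y 1), 𝔭.IsPrime ∧ ∀ (z : AL R x y 1) (A B : R[X]), (z : K) = gR x y A B →
      (z ∈ 𝔭 ↔ C π ∣ A ∧ C π ∣ B) := by
  have := hb.dvr
  have hp : (Ideal.span {π}).IsPrime := (Ideal.span_singleton_prime hb.irr.ne_zero).2 hb.irr.prime
  have hd : IsDomain (R ⧸ Ideal.span {π}) := Ideal.Quotient.isDomain _
  let r := Ideal.Quotient.mk (Ideal.span {π})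
  let V := (W.map r).toAffine
  let g : R[X] →+* V.CoordinateRing := (CoordinateRing.mk V).comp (C.comp (mapRingHom r))
  have e : ∀ A : R[X], eval₂ (g.comp C) (g X) A = g A := fun A => by
    rw [← hom_eval₂, eval₂_C_X]
  have d : ∀ A : R[X], C π ∣ A ↔ A.map r = 0 := fun A => by
    rw [C_dvd_iff_dvd_coeff]
    simp only [Polynomial.ext_iff, coeff_map, coeff_zero, r, Ideal.Quotient.eq_zero_iff_mem,
      Ideal.mem_span_singleton]
  obtain ⟨ρ, hρ⟩ := q.lift V.CoordinateRing (g.comp C) (g X) (CoordinateRing.mk V X) (by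
    rw [e, e]
    have h : CoordinateRing.mk V (X ^ 2 + C (C (r W.a₁) * X + C (r W.a₃)) * X -
        C (X ^ 3 + C (r W.a₂) * X ^ 2 + C (r W.a₄) * X + C (r W.a₆))) = 0 :=
      AdjoinRoot.mk_self
    have ea : g (aW W) = CoordinateRing.mk V (C (C (r W.a₁) * X + C (r W.a₃))) := by
      simp [g, aW]
    have ec : g (cR W) = CoordinateRing.mk V
        (C (X ^ 3 + C (r W.a₂) * X ^ 2 + C (r W.a₄) * X + C (r W.a₆))) := by
      simp [g, cR]
    rw [map_sub, map_add, map_mul, map_pow] at h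
    rw [ea, ec]
    linear_combination h)
  refine ⟨RingHom.ker ρ, RingHom.ker_isPrime ρ, fun z A B hz => ?_⟩
  rw [RingHom.mem_ker, hρ z A B hz, e, e, d, d]
  refine ⟨fun h => CoordinateRing.smul_basis_eq_zero (W' := V) ?_, fun h => by simp [g, h.1, h.2]⟩
  rwa [CoordinateRing.smul, CoordinateRing.smul, mul_one]

end ZGs

open ZGs in
theorem zQc : QcS := by
  intro K _ R π x y hb a f h
  have := hb.dvr
  have mem : ∀ z, z ∈ AL R x y 1 ↔ ∃ A B : R[X], z = gR x y A B := fun z => by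
    refine ⟨fun hz => ?_, ?_⟩
    · induction hz using Subring.closure_induction with
      | mem z hz =>
        rcases hz with hz | rfl | rfl | rfl
        · exact ⟨C ⟨z, hz⟩, 0, by rw [gR_zero, aeval_C']⟩
        · exact ⟨X, 0, by simp [gR]⟩
        · exact ⟨0, 1, by simp [gR]⟩
        · exact ⟨1, 0, by simp [gR]⟩
      | zero => exact ⟨0, 0, by simp [gR]⟩
      | one => exact ⟨1, 0, by simp [gR]⟩
      | add _ _ _ _ a b =>
        obtain ⟨A, B, rfl⟩ := a
        obtain ⟨A', B', rfl⟩ := b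
        exact ⟨_, _, gR_add ..⟩
      | neg _ _ a =>
        obtain ⟨A, B, rfl⟩ := a
        exact ⟨-A, -B, by simp [gR, add_comm]⟩
      | mul _ _ _ _ a b =>
        obtain ⟨A, B, rfl⟩ := a
        obtain ⟨A', B', rfl⟩ := b
        exact ⟨_, _, gR_mul h.eq ..⟩
    · rintro ⟨A, B, rfl⟩
      exact gR_mem 1 A B
  refine ⟨mem, fun u hu u0 => ⟨one_le u, fun z hz => ?_⟩, fun u => noeth_cl (Set.toFinite _),
    fun u z => ?_, fun S _ φ ξ η e => ?_⟩
  · induction hz using Subring.closure_induction with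
    | mem z hz =>
      rcases hz with hz | rfl | rfl | rfl
      · exact ⟨0, by simpa using R_le 1 hz⟩
      · exact ⟨0, by simpa using x_mem 1⟩
      · exact ⟨0, by simpa using y_mem 1⟩
      · exact ⟨1, by rw [pow_one, mul_inv_cancel₀ u0]; exact one_mem _⟩
    | zero => exact ⟨0, by simp⟩
    | one => exact ⟨0, by simp⟩
    | add z z' _ _ a b =>
      obtain ⟨n, hn⟩ := a
      obtain ⟨m, hm⟩ := b
      refine ⟨n + m, ?_⟩
      rw [show u ^ (n + m) * (z + z') = u ^ m * (u ^ n * z) + u ^ n * (u ^ m * z') by ring]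
      exact add_mem (mul_mem (pow_mem hu m) hn) (mul_mem (pow_mem hu n) hm)
    | neg z _ a =>
      obtain ⟨n, hn⟩ := a
      exact ⟨n, by rw [mul_neg]; exact neg_mem hn⟩
    | mul z z' _ _ a b =>
      obtain ⟨n, hn⟩ := a
      obtain ⟨m, hm⟩ := b
      refine ⟨n + m, ?_⟩
      rw [show u ^ (n + m) * (z * z') = u ^ n * z * (u ^ m * z') by ring]
      exact mul_mem hn hm
  · obtain ⟨A, B, D, h0, e⟩ := h.frac z
    exact ⟨⟨_, gR_mem u A B⟩, ⟨_, aeval_mem u D⟩,
      fun h1 => h0 (h.ind D 0 ((gR_zero D).trans h1)).1, e⟩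
  · choose A B hAB using fun z : AL R x y 1 => (mem z).1 z.2
    have key : ∀ (z : AL R x y 1) (A' B' : R[X]), (z : K) = gR x y A' B' →
        eval₂ φ ξ (A z) + eval₂ φ ξ (B z) * η = eval₂ φ ξ A' + eval₂ φ ξ B' * η :=
      fun z A' B' hz => by
        obtain ⟨h1, h2⟩ := uniq h ((hAB z).symm.trans hz)
        rw [h1, h2]
    refine ⟨{ toFun := fun z => eval₂ φ ξ (A z) + eval₂ φ ξ (B z) * η
              map_one' := (key 1 1 0 (by simp [gR])).trans (by simp)
              map_zero' := (key 0 0 0 (by simp [gR])).trans (by simp)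
              map_mul' := fun z z' => ?_
              map_add' := fun z z' => ?_ }, key⟩
    · rw [key (z * z') _ _ (by
        rw [← gR_mul h.eq (A z) (B z) (A z') (B z'), ← hAB, ← hAB]; rfl)]
      simp only [eval₂_add, eval₂_sub, eval₂_mul]
      linear_combination -(eval₂ φ ξ (B z) * eval₂ φ ξ (B z')) * e
    · rw [key (z + z') _ _ (by rw [← gR_add (A z) (B z) (A z') (B z'), ← hAB, ← hAB]; rfl)]
      simp only [eval₂_add]
      ring

open ZGs in
theorem zGs : OfGs := by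
  intro hL hD hQ K _ R π x y hb W hW
  have q := hQ K R π x y hb _ _ hW
  have p0 := hb.ne
  have nd : ∀ c : R, IsUnit c → ¬π ∣ c := fun c hc e => hb.dvd.1 e hc
  refine ⟨?_, fun G hG h hh => ?_⟩
  · obtain ⟨𝔭, hp, h𝔭⟩ := red hb q
    have L := hL K (AL R x y 1)
    have nu : ∀ A B : R[X], Nu (lc _ 𝔭) (gR x y A B) ↔ C π ∣ A ∧ C π ∣ B := fun A B => by
      rw [← h𝔭 ⟨_, gR_mem 1 A B⟩ A B rfl]
      exact (nu_iff (Subring.inclusion (le_lc _ 𝔭) ⟨_, gR_mem 1 A B⟩)).trans
        (by rw [L.unit, not_not])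
    have hπ : Nu (lc _ 𝔭) (π : K) := by
      rw [← aeval_C' (x := x), ← gR_zero (y := y), nu]
      exact ⟨dvd_rfl, dvd_zero _⟩
    have dv : ∀ z, Nu (lc _ 𝔭) z → z / π ∈ lc _ 𝔭 := fun z hz => by
      obtain ⟨a, b, hb', e⟩ := mem_lc.1 hz.1
      obtain ⟨A, B, ha⟩ := (q.mem a).1 a.2
      have : Nu (lc _ 𝔭) (gR x y A B) := by
        rw [← ha, ← e, mul_comm]
        exact hz.mul (le_lc _ 𝔭 b.2)
      refine mem_lc.2 ⟨⟨_, (dvd_iff hW q p0 A B).2 ((nu A B).1 this)⟩, b, hb', ?_⟩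
      change z / π * b = gR x y A B / π
      rw [← ha, ← e]
      ring
    have hN := L.noeth 𝔭 (q.noeth 1)
    have hm : maximalIdeal (lc _ 𝔭) = Ideal.span {⟨π, hπ.1⟩} := by
      ext z
      rw [mem_maximalIdeal, mem_nonunits_iff, ← nu_iff, Ideal.mem_span_singleton']
      constructor
      · exact fun hz => ⟨⟨_, dv z hz⟩, Subtype.ext (div_mul_cancel₀ _ p0)⟩
      · rintro ⟨c, rfl⟩
        exact hπ.mul c.2
    have hF : ¬IsField (lc _ 𝔭) := fun e => p0 (congrArg Subtype.val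
      (Ideal.span_singleton_eq_bot.1 (hm.symm.trans (isField_iff_maximalIdeal_eq.1 e))))
    have hd : Dvr (lc _ 𝔭) := by
      have hpr : (maximalIdeal (lc _ 𝔭)).IsPrincipal := ⟨⟨_, hm⟩⟩
      refine ⟨((IsDiscreteValuationRing.TFAE (lc _ 𝔭) hF).out 4 0).1 hpr, fun z => ?_⟩
      obtain ⟨a, b, h0, e⟩ := q.fr 1 z
      exact ⟨⟨a, le_lc _ 𝔭 a.2⟩, ⟨b, le_lc _ 𝔭 b.2⟩, h0, e⟩
    have A := hD K _ hd
    refine ⟨_, hd, le_lc _ 𝔭, ?_, nu⟩
    obtain ⟨u, u0, hu⟩ := A.uni
    have h1 := (A.mem _ (div_ne_zero u0 p0)).1 (dv u ((A.nu u).2 (.inr (by omega))))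
    have h2 := A.mul _ _ (div_ne_zero u0 p0) p0
    have h3 := ((A.nu _).1 hπ).resolve_left p0
    rw [div_mul_cancel₀ _ p0] at h2
    omega
  · have A := hD K G hG.dvr
    obtain ⟨H, rfl, hH⟩ : ∃ H : R[X], h = aeval x H ∧ IsUnit (H.eval (-1)) := by
      rcases hh with rfl | rfl
      · exact ⟨1, by simp, by simp⟩
      · exact ⟨X, by simp, by simp⟩
    have uH : Ut G (aeval x H) := (nu_or (hG.le (aeval_mem 1 H))).resolve_left fun e =>
      nd _ hH (dvd_eval ((hG.nu H 0).1 (by rwa [gR_zero])).1 _)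
    have le : AL R x y (aeval x H) ≤ G :=
      AL_le ((R_le 1).trans hG.le) (hG.le (x_mem 1)) (hG.le (y_mem 1)) uH.2.2
    have hπ : Nu G (π : K) := (A.nu _).2 (.inr (by rw [hG.ord]; exact one_pos))
    have loc := (q.loc _ (aeval_mem 1 H) uH.1).2
    have dv : ∀ z ∈ AL R x y (aeval x H), Nu G z ↔ z / π ∈ AL R x y (aeval x H) := fun z hz => by
      refine ⟨fun e => ?_, fun e => ?_⟩
      · obtain ⟨n, hn⟩ := loc z hz
        obtain ⟨A, B, hAB⟩ := (q.mem _).1 hn
        have := (dvd_iff hW q p0 A B).2 ((hG.nu A B).1 (hAB ▸ e.mul (uH.pow n).2.1))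
        have e' : z / π = (aeval x H)⁻¹ ^ n * (gR x y A B / π) := by
          rw [← hAB, inv_pow, mul_div_assoc, inv_mul_cancel_left₀ (pow_ne_zero n uH.1)]
        rw [e']
        exact mul_mem (pow_mem (i_mem _) n) (one_le _ this)
      · have := hπ.mul (le e)
        rwa [div_mul_cancel₀ _ p0] at this
    refine ⟨dv, le, fun E hE => ?_, fun hg => ⟨q.noeth _, q.fr _, R_le _ π.2, p0,
      fun z hz z' hz' e => ?_, ⟨aeval x (X + 1 : R[X]), aeval_mem _ _, fun e => ?_,
        fun s hs e => ?_⟩, hg⟩⟩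
    · refine (((hD K E hE.dvr).max G fun u hu => ?_).resolve_right A.ne).symm
      obtain ⟨c, hc, d, hd, ud, e⟩ := hE.frac u hu
      have : Ut G d := (nu_or (le hd)).resolve_left fun e' =>
        ((hE.div d hd).2 ((dv d hd).1 e')).not ud
      rw [(eq_mul_inv_iff_mul_eq₀ ud.1).2 e]
      exact mul_mem (le hc) this.2.2
    · rw [← dv z hz, ← dv z' hz']
      by_contra hn
      rw [not_or] at hn
      exact ((dv _ (mul_mem hz hz')).2 e).not
        (((nu_or (le hz)).resolve_left hn.1).mul ((nu_or (le hz')).resolve_left hn.2))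
    · have := (dv _ (aeval_mem _ _)).2 e
      rw [← gR_zero (y := y), hG.nu] at this
      exact nd 1 isUnit_one (by simpa using dvd_eval this.1 0)
    · obtain ⟨n, hn⟩ := loc s hs
      obtain ⟨A, B, hAB⟩ := (q.mem _).1 hn
      have h1 := ((dv _ (sub_mem (mul_mem (aeval_mem _ _) hs) (one_mem _))).2 e).mul
        (uH.pow n).2.1
      have e' : aeval x H ^ n * (aeval x (X + 1 : R[X]) * s - 1) =
          gR x y ((X + 1) * A - H ^ n) ((X + 1) * B - 0) := by
        rw [← gR_sub, gR_smul, gR_zero, ← hAB, map_pow]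
        ring
      rw [e', hG.nu] at h1
      exact nd _ (hH.pow n) (by simpa using dvd_eval h1.1 (-1))

end Pool.Agent.MP_f3836a_nt.VE.Z
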