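import Pool.Agent.MP_f3836a_nt.VE.SpecZ2

/-! Rows Inf and LocR: the point at infinity of a Weierstrass model. -/

set_option autoImplicit false

namespace Pool.Agent.MP_f3836a_nt.VE.Z

open Polynomial IsLocalRing PK VE.A VE.T VE.W

namespace ZInf

variable {K : Type} [Field K] {R : Subring K} {W : WeierstrassCurve R} {x y s t : K}
  {V : Subring K}

theorem eqn (h : WC W x y) : y ^ 2 + (W.a₁ * x + W.a₃) * y =
    x ^ 3 + W.a₂ * x ^ 2 + W.a₄ * x + W.a₆ := by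
  simpa [aW, cR, Subring.smul_def, Algebra.algebraMap_eq_smul_one] using h.eq

theorem ae_ne (h : WC W x y) {q : R[X]} (hq : q ≠ 0) : aeval x q ≠ 0 := fun e =>
  hq (h.ind q 0 (by simp [gR, e])).1

theorem y_ne (h : WC W x y) : y ≠ 0 := fun e => one_ne_zero (h.ind 0 1 (by simp [gR, e])).2

theorem al_le {x y : K} (hR : R ≤ V) (hx : x ∈ V) (hy : y ∈ V) : AL R x y 1 ≤ V :=
  Subring.closure_le.2 (by
    rintro z (hz | rfl | rfl | rfl)
    exacts [hR hz, hx, hy, by simp])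

theorem aff (h : WC W x y) (hv : ∀ z, z ∈ V ∨ z⁻¹ ∈ V) (hR : R ≤ V) (hx : x ∈ V) :
    AL R x y 1 ≤ V := by
  refine al_le hR hx ((hv y).elim id fun hy => ?_)
  have y0 := y_ne h
  have : y = (x ^ 3 + W.a₂ * x ^ 2 + W.a₄ * x + W.a₆) * y⁻¹ - (W.a₁ * x + W.a₃) := by
    field_simp
    linear_combination eqn h
  rw [this]
  have c := fun n : R => hR n.2
  exact sub_mem (mul_mem (add_mem (add_mem (add_mem (pow_mem hx 3) (mul_mem (c _) (pow_mem hx 2)))
    (mul_mem (c _) hx)) (c _)) hy) (add_mem (mul_mem (c _) hx) (c _))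

theorem inf (h : WC W x y) (hv : ∀ z, z ∈ V ∨ z⁻¹ ∈ V) (hR : R ≤ V) (hx : x ∉ V) :
    Nu V (x / y) ∧ Nu V y⁻¹ := by
  have hi := (hv x).resolve_left hx
  have h1 : (x / y)⁻¹ ∉ V := by
    rw [inv_div, div_eq_mul_inv]
    intro h1
    have x0 : x ≠ 0 := fun h0 => hx (h0 ▸ zero_mem _)
    have : x = (y * x⁻¹) ^ 2 + W.a₁ * (y * x⁻¹) + W.a₃ * (y * x⁻¹ * x⁻¹) -
        (W.a₂ + W.a₄ * x⁻¹ + W.a₆ * x⁻¹ ^ 2) := by
      field_simp
      linear_combination -eqn h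
    apply hx
    rw [this]
    have c := fun n : R => hR n.2
    exact sub_mem (add_mem (add_mem (pow_mem h1 2) (mul_mem (c _) h1))
      (mul_mem (c _) (mul_mem h1 hi)))
      (add_mem (add_mem (c _) (mul_mem (c _) hi)) (mul_mem (c _) (pow_mem hi 2)))
  have h2 : y ∉ V := fun hy => h1 (by rw [inv_div, div_eq_mul_inv]; exact mul_mem hy hi)
  exact ⟨⟨(hv _).resolve_right h1, .inr h1⟩, (hv _).resolve_left h2, .inr (by rwa [inv_inv])⟩

theorem gens : R ≤ AL R s t 1 ∧ s ∈ AL R s t 1 ∧ t ∈ AL R s t 1 :=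
  ⟨fun _ hz => Subring.subset_closure (.inl hz), Subring.subset_closure (.inr (by simp)),
    Subring.subset_closure (.inr (by simp))⟩

theorem red {z : K} (hz : z ∈ AL R s t 1) :
    ∃ r : R, ∃ u ∈ AL R s t 1, ∃ v ∈ AL R s t 1, z = r + (u * s + v * t) := by
  obtain ⟨g1, g2, g3⟩ := gens (R := R) (s := s) (t := t)
  induction hz using Subring.closure_induction with
  | mem z hz =>
    rcases hz with hz | rfl | rfl | rfl
    · exact ⟨⟨z, hz⟩, 0, zero_mem _, 0, zero_mem _, by simp⟩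
    · exact ⟨0, 1, one_mem _, 0, zero_mem _, by simp⟩
    · exact ⟨0, 0, zero_mem _, 1, one_mem _, by simp⟩
    · exact ⟨1, 0, zero_mem _, 0, zero_mem _, by simp⟩
  | zero => exact ⟨0, 0, zero_mem _, 0, zero_mem _, by simp⟩
  | one => exact ⟨1, 0, zero_mem _, 0, zero_mem _, by simp⟩
  | add a b _ _ ha hb =>
    obtain ⟨r, u, hu, v, hv, rfl⟩ := ha
    obtain ⟨r', u', hu', v', hv', rfl⟩ := hb
    exact ⟨r + r', u + u', add_mem hu hu', v + v', add_mem hv hv', by push_cast; ring⟩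
  | neg a _ ha =>
    obtain ⟨r, u, hu, v, hv, rfl⟩ := ha
    exact ⟨-r, -u, neg_mem hu, -v, neg_mem hv, by push_cast; ring⟩
  | mul a b _ hb' ha hb =>
    obtain ⟨r, u, hu, v, hv, rfl⟩ := ha
    obtain ⟨r', u', hu', v', hv', e⟩ := hb
    exact ⟨r * r', r * u' + u * b, add_mem (mul_mem (g1 r.2) hu') (mul_mem hu hb'),
      r * v' + v * b, add_mem (mul_mem (g1 r.2) hv') (mul_mem hv hb'), by
        push_cast; linear_combination (r : K) * e⟩

theorem fr (h : WC W x y) : Fr (AL R (x / y) y⁻¹ 1) := by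
  intro z
  obtain ⟨g1, g2, g3⟩ := gens (R := R) (s := x / y) (t := y⁻¹)
  set F := Subfield.closure (AL R (x / y) y⁻¹ 1 : Set K)
  have hy : y ∈ F := by simpa using F.inv_mem (Subfield.subset_closure g3)
  have hx : x ∈ F := by
    simpa [y_ne h] using F.mul_mem (Subfield.subset_closure g2) hy
  have ha : ∀ q : R[X], aeval x q ∈ F := fun q => by
    rw [aeval_eq_sum_range]
    exact F.sum_mem fun i _ => by
      rw [Subring.smul_def, smul_eq_mul]
      exact F.mul_mem (Subfield.subset_closure (g1 (q.coeff i).2)) (F.pow_mem hx i)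
  obtain ⟨A, B, D, hD, e⟩ := h.frac z
  have hz : z ∈ F := by
    rw [eq_div_of_mul_eq (ae_ne h hD) e]
    exact F.div_mem (F.add_mem (ha A) (F.mul_mem (ha B) hy)) (ha D)
  obtain ⟨a, ha, b, hb, rfl⟩ := Subfield.mem_closure_iff.1 hz
  rw [Subring.closure_eq] at ha hb
  rcases eq_or_ne b 0 with rfl | b0
  · exact ⟨0, 1, one_ne_zero, by simp⟩
  · exact ⟨⟨a, ha⟩, ⟨b, hb⟩, b0, div_mul_cancel₀ a b0⟩

theorem lin [IsLocalRing V] (hR : R ≤ V) (hs : Nu V s) (ht : Nu V t) {u v : K}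
    (hu : u ∈ AL R s t 1) (hv : v ∈ AL R s t 1) : Nu V (u * s + v * t) :=
  (hs.mul (al_le hR hs.1 ht.1 hu)).add (ht.mul (al_le hR hs.1 ht.1 hv))

end ZInf

open ZInf

theorem zInf : OfInf := by
  intro L Dv RI RS CS K _ R π x y bs W V₀ h d0 R0 u0 x0
  obtain ⟨g1, g2, g3⟩ := gens (R := R) (s := x / y) (t := y⁻¹)
  have fB := fr h
  have iv : ∀ V, Dvr V → R ≤ V → x ∉ V → Nu V (x / y) ∧ Nu V y⁻¹ := fun V d =>
    inf h (Dv K V d).val
  have ew : y⁻¹ * (1 + (W.a₁ * (x / y) + W.a₃ * y⁻¹ - W.a₂ * (x / y) ^ 2 - W.a₄ * (x / y) * y⁻¹ -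
      W.a₆ * y⁻¹ ^ 2)) = (x / y) ^ 3 := by
    have := y_ne h
    field_simp
    linear_combination eqn h
  generalize x / y = s at *
  generalize y⁻¹ = t at *
  obtain ⟨s0, t0⟩ := iv V₀ d0 R0 x0
  have := bs.dvr
  have := (Dv K V₀ d0).loc
  have nB : IsNoetherianRing (AL R s t 1) := noeth_cl (Set.toFinite _)
  obtain ⟨n, hn, hle⟩ := Ideal.exists_le_maximal
    (Ideal.span {(⟨π, g1 π.2⟩ : AL R s t 1), ⟨s, g2⟩, ⟨t, g3⟩}) fun e => by
      obtain ⟨a, _, hz, e⟩ := Ideal.mem_span_insert.1 ((Ideal.eq_top_iff_one _).1 e)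
      obtain ⟨b, c, rfl⟩ := Ideal.mem_span_pair.1 hz
      obtain ⟨r, u, hu, v, hv, ea⟩ := red a.2
      have e' : (1 : K) = a * π + (b * s + c * t) := congrArg Subtype.val e
      have hu1 : IsUnit (1 - r * π) := (isUnit_or_isUnit_one_sub_self _).resolve_left fun e =>
        bs.irr.not_isUnit (isUnit_of_mul_isUnit_right e)
      refine Nu.not ?_ (((ut_iff _).2 hu1).mono R0)
      convert lin R0 s0 t0 (add_mem (mul_mem hu (g1 π.2)) b.2)
        (add_mem (mul_mem hv (g1 π.2)) c.2) using 1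
      push_cast
      linear_combination e' + (π : K) * ea
  have := hn.isPrime
  have le := le_lc (AL R s t 1) n
  have nu : ∀ a : AL R s t 1, a ∈ n ↔ Nu (lc _ n) a := fun a => by
    rw [← not_iff_not, ← (L K _).unit n a, ← ut_iff, nu_iff_not (le a.2), not_not]
    rfl
  have RD := g1.trans le
  have nπ : Nu (lc _ n) π := (nu ⟨π, g1 π.2⟩).1 (hle (Ideal.subset_span (by simp)))
  have ns : Nu (lc _ n) s := (nu ⟨s, g2⟩).1 (hle (Ideal.subset_span (by simp)))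
  have nt : Nu (lc _ n) t := (nu ⟨t, g3⟩).1 (hle (Ideal.subset_span (by simp)))
  have out : ∀ b : AL R s t 1, b ∉ n → ∃ r : R, IsUnit r ∧ ∃ u ∈ AL R s t 1, ∃ v ∈ AL R s t 1,
      (b : K) = r + (u * s + v * t) := fun b hb => by
    obtain ⟨r, u, hu, v, hv, e⟩ := red b.2
    refine ⟨r, by_contra fun hr => hb ((nu b).2 ?_), u, hu, v, hv, e⟩
    exact e ▸ (bs.nu RD nπ hr).add (lin RD ns nt hu hv)
  have utV : ∀ (V : Subring K) [IsLocalRing V], R ≤ V → Nu V s → Nu V t → ∀ b : AL R s t 1,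
      b ∉ n → Ut V b := fun V _ hR hs ht b hb => by
    obtain ⟨r, hr, u, hu, v, hv, e⟩ := out b hb
    exact e ▸ (((ut_iff _).2 hr).mono hR).add (lin hR hs ht hu hv)
  have leV : ∀ (V : Subring K) [IsLocalRing V], R ≤ V → Nu V s → Nu V t → lc _ n ≤ V :=
    fun V _ hR hs ht z hz => by
      obtain ⟨a, b, hb, e⟩ := mem_lc.1 hz
      have ub := utV V hR hs ht b hb
      rw [eq_div_of_mul_eq ub.1 e, div_eq_mul_inv]
      exact mul_mem (al_le hR hs.1 ht.1 a.2) ub.2.2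
  have gen : Gen (lc _ n) s π := by
    refine ⟨ns.1, nπ.1, fun z => ⟨fun hz => ?_, ?_⟩⟩
    · obtain ⟨a, b, hb, e⟩ := mem_lc.1 hz.1
      have ub := utV _ RD ns nt b hb
      obtain ⟨r, u, hu, v, hv, ea⟩ := red a.2
      have c := fun n : R => RD n.2
      have uw := ut_one.add (((((ns.mul (c W.a₁)).add (nt.mul (c W.a₃))).sub
        ((ns.mul ns.1).mul (c W.a₂))).sub (nt.mul (mul_mem (c W.a₄) ns.1))).sub
        ((nt.mul nt.1).mul (c W.a₆)))
      rw [← sq, ← sq] at uw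
      obtain ⟨d, rfl⟩ : π ∣ r := bs.dvd.2 fun hr => (hz.mul ub.2.1).not (by
        rw [mul_comm, e, ea]
        exact (((ut_iff _).2 hr).mono RD).add (lin RD ns nt hu hv))
      refine ⟨_, mul_mem ub.2.2 (add_mem (le hu) (mul_mem (mul_mem (le hv) (pow_mem ns.1 2))
        uw.2.2)), _, mul_mem ub.2.2 (c d), ?_⟩
      have et := eq_div_of_mul_eq uw.1 ew
      rw [eq_div_of_mul_eq ub.1 e, ea]
      push_cast
      linear_combination (b : K)⁻¹ * v * et
    · rintro ⟨u, hu, v, hv, rfl⟩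
      exact (ns.mul hu).add (nπ.mul hv)
  have tor : ∀ b : AL R s t 1, b ∉ n → Tor (lc _ n) b := fun b hb => by
    obtain ⟨r, hr, u, hu, v, hv, e⟩ := out b hb
    exact Tor.congr (le b.2) (RD r.2) (by rw [e, add_sub_cancel_left]; exact lin RD ns nt hu hv)
      (bs.tor RD nπ hr)
  have nd : ¬Dom (lc _ n) V₀ := fun e => (e.2 _ nπ).not u0
  have rg : Rg (lc _ n) := by
    refine RI K _ V₀ s π inferInstance ((L K _).noeth n nB) (fun z => ?_) (fun z hz => ?_) gen d0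
      (leV V₀ R0 s0 t0) nd
    · obtain ⟨a, b, hb, e⟩ := fB z
      exact ⟨⟨a, le a.2⟩, ⟨b, le b.2⟩, hb, e⟩
    · obtain ⟨a, b, hb, e⟩ := mem_lc.1 hz.2.1
      have ub := utV _ RD ns nt b hb
      rw [eq_div_of_mul_eq ub.1 e, div_eq_mul_inv]
      exact (tor a fun ha => ((nu a).1 ha).not (e ▸ hz.mul ub)).mul ((tor b hb).inv ub)
  have h0 := ((RS K _ rg).cen V₀ d0 (leV V₀ R0 s0 t0)).resolve_right nd
  refine ⟨_, rg, RD, nπ, h0, fun O hO ne => ?_, fun V d hR => ⟨fun hV hx =>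
    hV (aff h (Dv K V d).val hR hx), fun hx hπ => ?_⟩⟩
  · obtain ⟨A, hA⟩ := (CS K _ rg).ax s π gen
    obtain rfl : V₀ = A := by_contra fun e => s0.not (hA.oth V₀ h0 e)
    obtain ⟨d, hl, -⟩ := (RS K _ rg).dvr O hO
    exact aff h (Dv K O d).val (RD.trans hl) (by_contra fun hx =>
      (iv O d (RD.trans hl) hx).1.not (hA.oth O hO ne))
  · have := (Dv K V d).loc
    obtain ⟨hs, ht⟩ := iv V d hR hx
    have hl := leV V hR hs ht
    refine ⟨hl, fun z hz => ?_⟩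
    obtain ⟨u, hu, v, hv, rfl⟩ := (gen.2.2 z).1 hz
    exact (hs.mul (hl hu)).add (hπ.mul (hl hv))

theorem zLocR : OfLocR := by
  intro _ RS CS Tr IP K _ R π x y bs W ψ V₀ h rz af d0 R0 u0 x0
  obtain ⟨D, rg, RD, nπ, h0, oth, cov⟩ := IP K R π x y bs W V₀ h d0 R0 u0 x0
  have A := RS K D rg
  have tor : ∀ O, H1 D O → O ≠ V₀ → Tor O (ψ O) := fun O hO ne =>
    af O (A.dvr O hO).1 (oth O hO ne)
  refine ⟨fun c i c0 cu e => ?_, fun t0 V d hR hπ => ?_⟩
  · have uc : Ut V₀ c := by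
      obtain ⟨n, u, rfl⟩ := bs.eq c0
      push_cast
      exact (((ut_iff _).2 u.isUnit).mono R0).mul (u0.pow n)
    have e1 := (CS K D rg).one ψ V₀ rz.1 (rz.2 D rg) h0 tor
    rw [A.cg V₀ h0 _ (rz.1 V₀ d0).2.1 _ (uc.zpow i).2.1 e, A.zpow V₀ c i h0 uc] at e1
    exact (mul_eq_zero.1 e1).resolve_right fun e2 =>
      (bs.nu RD nπ cu).not ((A.pos V₀ h0 c (RD c.2) uc).2.1 e2)
  · by_cases hV : AL R x y 1 ≤ V
    · exact af V d hV
    · refine Tr K D V ψ rz rg (fun O hO => ?_) d ((cov V d hR).2 ((cov V d hR).1 hV) hπ)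
      rcases eq_or_ne O V₀ with rfl | ne
      exacts [t0, tor O hO ne]

end Pool.Agent.MP_f3836a_nt.VE.Z
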