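import Pool.Agent.MP_f3836a_nt.VE.SpecZ1
import Pool.Agent.MP_f3836a_nt.PK.FHer
import Pool.Agent.MP_f3836a_nt.PK.Ord

set_option autoImplicit false

namespace Pool.Agent.MP_f3836a_nt.VE.Z

open IsLocalRing PK VE.A VE.T VE.W Submodule
open scoped Pointwise

namespace ZKa

theorem fg_le {R M : Type} [CommRing R] [AddCommGroup M] [Module R M] (L : ℕ∞)
    (h : ∀ (n : ℕ) (x : Fin n → M), ∃ N : Submodule R M, (∀ i, x i ∈ N) ∧ Module.length R N ≤ L) :
    Module.length R M ≤ L := by
  rw [Module.length_eq_height, Order.height_le_iff]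
  intro p _
  choose x hx hx' using fun i : Fin p.length => 
    SetLike.exists_of_lt (show p i.castSucc < p i.succ from p.step i)
  obtain ⟨N, a, b⟩ := h _ x
  let q : LTSeries (Submodule R N) := ⟨p.length, fun i => comap N.subtype (p i), fun i =>
    lt_of_le_of_ne (comap_mono (le_of_lt (p.step i))) fun e =>
      hx' i (e.ge (show (⟨x i, a i⟩ : N) ∈ comap N.subtype (p i.succ) from hx i))⟩
  exact (Order.length_le_height (p := q) (x := ⊤) le_top).trans (Module.length_eq_height R N ▸ b)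

theorem ka {κ : Type} [Field κ] {A B : Subring κ} [IsNoetherianRing A] [Ring.KrullDimLE 1 A]
    (hA : Fr A) (h : A ≤ B) (f : A) (hf : f ≠ 0) :
    Ring.ord B (Subring.inclusion h f) ≤ Ring.ord A f := by
  let : Algebra A B := (Subring.inclusion h).toAlgebra
  let I : Ideal B := Ideal.span {Subring.inclusion h f}
  have h0 : Module.length B (B ⧸ I) ≤ Module.length A (B ⧸ I) := by
    have := Submodule.length_le_length_restrictScalars A (⊤ : Submodule B (B ⧸ I))
    rwa [restrictScalars_top, Module.length_top, Module.length_top] at this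
  refine h0.trans (fg_le _ fun n x => ?_)
  choose y hy using fun i => Ideal.Quotient.mk_surjective (x i)
  choose a b hb e using fun i => hA (y i)
  have d0 : ((∏ i, b i : A) : κ) ≠ 0 := by
    rw [SubmonoidClass.coe_finsetProd]; exact Finset.prod_ne_zero_iff.2 fun i _ => hb i
  have dy : ∀ i, ∃ c : A, (c : κ) * ((∏ i, b i : A) : κ)⁻¹ = y i := fun i => by
    obtain ⟨c, hc⟩ := Finset.dvd_prod_of_mem b (Finset.mem_univ i)
    exact ⟨a i * c, by rw [mul_inv_eq_iff_eq_mul₀ d0, hc, Subring.coe_mul, Subring.coe_mul, ← e,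
      mul_assoc]⟩
  generalize ∏ i, b i = d at d0 dy
  let J : Ideal A :=
    { carrier := {c | (c : κ) * (d : κ)⁻¹ ∈ B}
      add_mem' := fun u v => by
        rw [Set.mem_ofPred, Subring.coe_add, add_mul]; exact B.add_mem u v
      zero_mem' := by simp
      smul_mem' := fun c z u => by
        rw [Set.mem_ofPred, smul_eq_mul, Subring.coe_mul, mul_assoc]; exact B.mul_mem (h c.2) u }
  let φ : J →ₗ[A] B :=
    { toFun := fun c => ⟨(c.1 : κ) * (d : κ)⁻¹, c.2⟩
      map_add' := fun u v => Subtype.ext (add_mul (u.1 : κ) v.1 _)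
      map_smul' := fun c u => Subtype.ext (mul_assoc (c : κ) u.1 _) }
  let g : QuotSMulTop f J →ₗ[A] B ⧸ I :=
    liftQ _ ((Ideal.Quotient.mkₐ A I).toLinearMap ∘ₗ φ) fun z hz => by
      obtain ⟨w, -, rfl⟩ := (mem_smul_pointwise_iff_exists _ _ _).1 hz
      rw [LinearMap.mem_ker, LinearMap.comp_apply, map_smul]
      exact Ideal.Quotient.eq_zero_iff_mem.2 (I.mul_mem_right _ (Ideal.mem_span_singleton_self _))
  refine ⟨LinearMap.range g, fun i => ?_, (Module.length_le_of_surjective _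
    g.surjective_rangeRestrict).trans (le_of_eq ?_)⟩
  · obtain ⟨c, hc⟩ := dy i
    refine ⟨mkQ _ ⟨c, show _ ∈ B from hc ▸ (y i).2⟩, ?_⟩
    rw [← hy]
    exact congrArg (Ideal.Quotient.mk I) (Subtype.ext hc)
  · have dJ : d ∈ J := show _ ∈ B by rw [mul_inv_cancel₀ d0]; exact B.one_mem
    rw [rHer A A J f (fun m e => (mul_eq_zero.1 e).resolve_left hf) (ne_top_of_le_ne_top
      (Ord.fin (a := d) fun e => d0 (by simp [e])) (Module.length_le_of_surjective _
        (factor_surjective ((Ideal.span_singleton_le_iff_mem _).2 dJ)))),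
      ← FHer.cyc LinearMap.id Function.surjective_id, LinearMap.ker_id, bot_sup_eq]
    rfl

end ZKa

theorem zKa : OfKa := by
  intro _ hO hD hR K _ D D' O f r r' hd h1 h1' hf hu
  have hv := hD K O ((hR K D r).dvr O h1).1
  have := hv.loc
  have key : ∀ D, Rg D → H1 D O → D ≤ O ∧ IsNoetherianRing (im O (residue O) D) ∧
      Ring.KrullDimLE 1 (im O (residue O) D) ∧ Fr (im O (residue O) D) := fun D r h =>
    ⟨((hR K D r).dvr O h).2.1, by
      obtain ⟨q, _, a, b, c⟩ := h
      exact (hO K _ D O q _ (hR K D r).loc2 a b c hv.dv).im⟩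
  obtain ⟨l, _, _, a⟩ := key D r h1
  obtain ⟨l', _, _, -⟩ := key D' r' h1'
  have le : im O (residue O) D ≤ im O (residue O) D' := fun _ ⟨z, b, c⟩ => ⟨z, hd.1 b, c⟩
  let u : im O (residue O) D := ⟨residue O ⟨f, hu.2.1⟩, _, hf, rfl⟩
  have u0 : (u : ResidueField O) ≠ 0 :=
    (residue_ne_zero_iff_isUnit _).2 ((ut_iff (⟨f, hu.2.1⟩ : O)).1 hu)
  have u1 : u ≠ 0 := fun e => u0 (by simp [e])
  rw [oK_eq, oK_eq, W.od, W.od, if_pos l, if_pos l', resR, dif_pos hu.2.1]
  refine (Ord.coe (a := Subring.inclusion le u) fun e => u0 (congrArg Subtype.val e)).trans_le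
    (le_of_le_of_eq ?_ (Ord.coe u1).symm)
  exact Int.ofNat_le.2 (ENat.toNat_le_toNat (ZKa.ka a le u u1) (Ord.fin u1))

end Pool.Agent.MP_f3836a_nt.VE.Z
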