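import Pool.Agent.MP_f3836a_nt.VE.SpecZ2

/-! The point at which two components meet. -/

set_option autoImplicit false

namespace Pool.Agent.MP_f3836a_nt.VE.Z

open Polynomial IsLocalRing PK VE.A VE.T VE.W

namespace ZPt

variable {K : Type} [Field K] {R B : Subring K} {π : R} {y ρ : K}

/-- the ideal generated by `y` and `ρ` -/
def Jm (B : Subring K) (y ρ z : K) : Prop := ∃ u ∈ B, ∃ v ∈ B, z = u * y + v * ρ

theorem main (hL : LcA B) (hb : Bs R π) (hR : R ≤ B) (hy : y ∈ B) (hρ : ρ ∈ B)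
    (hπ : (π : K) = ρ * y) (hc : ∀ z ∈ B, ∃ r : R, Jm B y ρ (z - r)) (h1 : ¬Jm B y ρ 1)
    (hN : IsNoetherianRing B) : ∃ P, B ≤ P ∧ IsLocalRing P ∧ IsNoetherianRing P ∧ Alg P ∧
      Gen P y ρ ∧ ∀ V : Subring K, IsLocalRing V → B ≤ V → Nu V y → (∀ v ∈ B, ¬Nu V (1 - v * ρ)) →
        P ≤ V := by
  set J : Ideal B := Ideal.span {⟨y, hy⟩, ⟨ρ, hρ⟩} with hJ
  have mJ : ∀ z : B, z ∈ J ↔ Jm B y ρ z := fun z => Ideal.mem_span_pair.trans
    ⟨fun ⟨u, v, e⟩ => ⟨u, u.2, v, v.2, (congrArg Subtype.val e).symm⟩,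
      fun ⟨u, hu, v, hv, e⟩ => ⟨⟨u, hu⟩, ⟨v, hv⟩, Subtype.ext e.symm⟩⟩
  have mx : J.IsMaximal := by
    refine Ideal.isMaximal_iff.2 ⟨fun h => h1 ((mJ 1).1 h), fun I z le hz hz' => ?_⟩
    obtain ⟨r, hr⟩ := hc z z.2
    have e : z - ⟨r, hR r.2⟩ ∈ J := (mJ _).2 hr
    by_cases c : IsUnit r
    · have : (⟨r, hR r.2⟩ : B) ∈ I := by simpa using I.sub_mem hz' (le e)
      rw [I.eq_top_of_isUnit_mem this (c.map (Subring.inclusion hR))]
      trivial
    · obtain ⟨d, rfl⟩ := hb.dvd.2 c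
      refine absurd ?_ hz
      simpa using J.add_mem e ((mJ ⟨_, hR (π * d).2⟩).2
        ⟨ρ * d, mul_mem hρ (hR d.2), 0, zero_mem _, by rw [Subring.coe_mul, hπ]; ring⟩)
  have pr := mx.isPrime
  have le := le_lc B J
  have nu : ∀ z : B, Nu (lc B J) z ↔ z ∈ J := fun z =>
    (nu_iff (Subring.inclusion le z)).trans (by rw [hL.unit, not_not])
  have ut : ∀ z : B, z ∉ J → Ut (lc B J) z := fun z h =>
    (nu_or (le z.2)).resolve_left fun e => h ((nu z).1 e)
  have ny : Nu (lc B J) y := (nu ⟨y, hy⟩).2 (Ideal.subset_span (by simp))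
  have nr : Nu (lc B J) ρ := (nu ⟨ρ, hρ⟩).2 (Ideal.subset_span (by simp))
  have np : Nu (lc B J) π := hπ ▸ ny.mul nr.1
  have tor : ∀ a : B, Ut (lc B J) a → Tor (lc B J) a := fun a h => by
    obtain ⟨r, hr⟩ := hc a a.2
    have e : Nu (lc B J) (a - r) := (nu (a - ⟨r, hR r.2⟩)).2 ((mJ _).2 hr)
    refine (hb.tor (hR.trans le) np (by_contra fun c => ?_)).congr h.2.1 (le (hR r.2)) e
    exact (by simpa using e.add (hb.nu (hR.trans le) np c) : Nu (lc B J) a).not h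
  refine ⟨lc B J, le, inferInstance, hL.noeth J hN, fun z h => ?_, ⟨ny.1, nr.1, fun z =>
    ⟨fun h => ?_, fun ⟨u, hu, v, hv, e⟩ => e ▸ (ny.mul hu).add (nr.mul hv)⟩⟩,
    fun V _ l n h z hz => ?_⟩
  · obtain ⟨a, b, hb, e⟩ := mem_lc.1 h.2.1
    have u := ut b hb
    rw [(eq_mul_inv_iff_mul_eq₀ u.1).2 e]
    exact (tor a (e ▸ h.mul u)).mul ((tor b u).inv u)
  · obtain ⟨a, b, hb, e⟩ := mem_lc.1 h.1
    have w := ut b hb
    obtain ⟨u, hu, v, hv, e'⟩ := (mJ a).1 ((nu a).1 (by rw [← e, mul_comm]; exact h.mul w.2.1))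
    refine ⟨_, mul_mem (le hu) w.2.2, _, mul_mem (le hv) w.2.2, ?_⟩
    rw [(eq_mul_inv_iff_mul_eq₀ w.1).2 e, e']
    ring
  · obtain ⟨a, b, hb, e⟩ := mem_lc.1 hz
    obtain ⟨s, j, hj, e'⟩ := mx.exists_inv hb
    obtain ⟨u, hu, v, hv, e2⟩ := (mJ j).1 hj
    have e3 : (s : K) * b + j = 1 := congrArg Subtype.val e'
    have w := (nu_or (l b.2)).resolve_left fun c => h v hv (by
      rw [show 1 - v * ρ = s * b + u * y by rw [← e3, e2]; ring]
      exact (c.mul (l s.2)).add (n.mul (l hu)))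
    rw [(eq_mul_inv_iff_mul_eq₀ w.1).2 e]
    exact mul_mem (l a.2) w.2.2

end ZPt

open ZPt in
theorem zPt : OfPt := by
  intro hL hD hI hQ hN hLn K _ R π x y hb e c h
  have := hb.dvr
  obtain ⟨h1, -⟩ := (hN K R π x y hb).2 e c
  obtain ⟨-, -, y0, -⟩ := ((hN K R π x y hb).2 e (π ^ 2 * c)).2 h
  obtain ⟨L, l, -⟩ := hLn K R π _ _ hb e c (h1 h)
  have dL := hD K L l.dvr
  have := dL.loc
  have p0 := hb.ne
  have eq : (y + x) / y = e * ((y + x) / y - 1) ^ 3 * y + c * (π / y) * (π / y) := by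
    have := h.eq
    simp only [aeval_X, map_add, map_mul, map_pow, aeval_C] at this
    change _ = (e : K) * _ + (π : K) ^ 2 * c at this
    field_simp
    linear_combination this
  have ex : x = ((y + x) / y - 1) * y := by field_simp; ring
  have ep : (π : K) = π / y * y := by field_simp
  set ω := (y + x) / y with hω
  set ρ := (π : K) / y with hρ
  set B := Subring.closure ((R : Set K) ∪ {y, ω, ρ}) with hB
  have hR : R ≤ B := fun z hz => Subring.subset_closure (.inl hz)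
  have by' : y ∈ B := Subring.subset_closure (by simp)
  have bω : ω ∈ B := Subring.subset_closure (by simp)
  have bρ : ρ ∈ B := Subring.subset_closure (by simp)
  have ble : ∀ V : Subring K, R ≤ V → y ∈ V → ω ∈ V → ρ ∈ V → B ≤ V := fun V a b c d =>
    Subring.closure_le.2 (by rintro z (h | rfl | rfl | rfl) <;> first | exact a h | assumption)
  have bu : e * (ω - 1) ^ 3 ∈ B := mul_mem (hR e.2) (pow_mem (sub_mem bω (one_mem _)) _)
  have RL : R ≤ L := fun z hz => l.le (Subring.subset_closure (.inl hz))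
  have xL : x / π ∈ L := l.le (Subring.subset_closure (by simp))
  have yL : y / π ∈ L := l.le (Subring.subset_closure (by simp))
  have ρL : ρ ∈ L := l.le (Subring.subset_closure (by simp [hρ]))
  have ny : Nu L y := by
    simpa [p0] using ((dL.nu π).2 (.inr (l.ord ▸ one_pos))).mul yL
  have BL : B ≤ L := ble L RL ny.1 (by
    rw [show ω = 1 + x / π * ρ by rw [hω, hρ]; field_simp]
    exact add_mem (one_mem _) (mul_mem xL ρL)) ρL
  have q : ∀ z ∈ B, ∃ Q : R[X], Nu L (z - aeval ρ Q) := fun z hz => by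
    induction hz using Subring.closure_induction with
    | mem z h =>
      rcases h with h | rfl | rfl | rfl
      · exact ⟨C ⟨z, h⟩, by rw [aeval_C]; exact (sub_self z).symm ▸ nu_zero⟩
      · exact ⟨0, by simpa using ny⟩
      · refine ⟨C c * X * X, ?_⟩
        convert ny.mul (BL bu) using 1
        simp only [map_mul, aeval_C, aeval_X]
        exact sub_eq_iff_eq_add.2 eq
      · exact ⟨X, by simpa using nu_zero⟩
    | zero => exact ⟨0, by simpa using nu_zero⟩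
    | one => exact ⟨1, by simpa using nu_zero⟩
    | add z z' _ _ a b =>
      obtain ⟨Q, a⟩ := a
      obtain ⟨Q', b⟩ := b
      exact ⟨Q + Q', by convert a.add b using 1; rw [map_add]; ring⟩
    | neg z _ a =>
      obtain ⟨Q, a⟩ := a
      exact ⟨-Q, by convert a.neg using 1; rw [map_neg]; ring⟩
    | mul z z' m m' a b =>
      obtain ⟨Q, a⟩ := a
      obtain ⟨Q', b⟩ := b
      exact ⟨Q * Q', by
        convert (b.mul (BL m)).add (a.mul (sub_mem (BL m') b.1)) using 1; rw [map_mul]; ring⟩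
  have nL : ∀ v ∈ B, ¬Nu L (1 - v * ρ) := fun v hv n => by
    obtain ⟨Q, a⟩ := q v hv
    have ρ0 : ρ ≠ 0 := div_ne_zero p0 y0
    let _ := invertibleOfNonzero ρ0
    have e1 := eval₂_reflect_mul_pow (algebraMap R K) ρ _ (1 - X * Q) le_rfl
    rw [invOf_eq_inv, hρ, inv_div, ← hρ, ← aeval_def, ← aeval_def] at e1
    have e2 := (C_dvd_iff_dvd_coeff _ _).1 (l.inj (reflect (1 - X * Q).natDegree (1 - X * Q)) (by
      convert (n.add (a.mul ρL)).mul (pow_mem yL (1 - X * Q).natDegree) using 1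
      rw [(eq_mul_inv_iff_mul_eq₀ (pow_ne_zero _ ρ0)).2 e1, ← inv_pow, hρ, inv_div, ← hρ,
        map_sub, map_one, map_mul, aeval_X]
      ring)) (1 - X * Q).natDegree
    exact hb.irr.not_isUnit (isUnit_of_dvd_one (by simpa [coeff_reflect] using e2))
  have hc : ∀ z ∈ B, ∃ r : R, Jm B y ρ (z - r) := fun z hz => by
    have z0 := B.zero_mem
    induction hz using Subring.closure_induction with
    | mem z h =>
      rcases h with h | rfl | rfl | rfl
      · exact ⟨⟨z, h⟩, 0, z0, 0, z0, by simp⟩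
      · exact ⟨0, 1, one_mem _, 0, z0, by simp⟩
      · exact ⟨0, _, bu, _, mul_mem (hR c.2) bρ, by simpa using eq⟩
      · exact ⟨0, 0, z0, 1, one_mem _, by simp⟩
    | zero => exact ⟨0, 0, z0, 0, z0, by simp⟩
    | one => exact ⟨1, 0, z0, 0, z0, by simp⟩
    | add z z' _ _ a b =>
      obtain ⟨r, u, hu, v, hv, a⟩ := a
      obtain ⟨r', u', hu', v', hv', b⟩ := b
      exact ⟨r + r', _, add_mem hu hu', _, add_mem hv hv', by push_cast; linear_combination a + b⟩
    | neg z _ a =>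
      obtain ⟨r, u, hu, v, hv, a⟩ := a
      exact ⟨-r, _, neg_mem hu, _, neg_mem hv, by push_cast; linear_combination -a⟩
    | mul z z' m _ a b =>
      obtain ⟨r, u, hu, v, hv, a⟩ := a
      obtain ⟨r', u', hu', v', hv', b⟩ := b
      exact ⟨r * r', _, add_mem (mul_mem m hu') (mul_mem (hR r'.2) hu), _,
        add_mem (mul_mem m hv') (mul_mem (hR r'.2) hv), by
          push_cast; linear_combination z * b + r' * a⟩
  obtain ⟨P, p1, p2, p3, p4, p5, p6⟩ := main (hL K B) hb hR by' bρ ep hc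
    (fun ⟨u, hu, v, hv, a⟩ => nL v hv (sub_eq_iff_eq_add.2 a ▸ ny.mul (BL hu)))
    (noeth_cl (Set.toFinite _))
  have AP : AL R x y 1 ≤ P := le_trans (Subring.closure_le.2 (by
    rintro z (a | rfl | rfl | rfl)
    exacts [hR a, ex ▸ mul_mem (sub_mem bω (one_mem _)) by', by', by simp])) p1
  have ny' : ∀ z, Jm B y ρ z → Nu P z := fun z ⟨u, hu, v, hv, a⟩ =>
    (p5.2.2 z).2 ⟨u, p1 hu, v, p1 hv, a⟩
  refine ⟨P, hI K P L y ρ p2 p3 (fun z => ?_) p4 p5 l.dvr (p6 L this BL ny nL) fun d => ?_, p5, AP,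
    ny' _ ⟨_, bu, _, mul_mem (hR c.2) bρ, eq⟩, fun V v a b d f => ?_⟩
  · obtain ⟨a, b, b0, f⟩ := (hQ K R π x y hb _ _ h).fr 1 z
    exact ⟨⟨a, AP a.2⟩, ⟨b, AP b.2⟩, b0, f⟩
  · exact (d.2 ρ (ny' _ ⟨0, zero_mem _, 1, one_mem _, by simp⟩)).not
      ⟨div_ne_zero p0 y0, ρL, by rwa [hρ, inv_div]⟩
  · have := (hD K V v).loc
    have BV := ble V a b.1 f d.1
    have PV := p6 V this BV b fun v hv n =>
      Nu.not (sub_add_cancel 1 (v * ρ) ▸ n.add (d.mul (BV hv))) ut_one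
    refine ⟨PV, fun z n => ?_⟩
    obtain ⟨u, hu, v, hv, rfl⟩ := (p5.2.2 z).1 n
    exact (b.mul (PV hu)).add (d.mul (PV hv))

end Pool.Agent.MP_f3836a_nt.VE.Z

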