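import Pool.Agent.MP_f3836a_nt.VE.SpecZ2

/-! Smooth points of the special fibre over a discrete valuation ring. -/

set_option autoImplicit false

namespace Pool.Agent.MP_f3836a_nt.VE.Z

open Polynomial IsLocalRing PK VE.A VE.T VE.W

namespace ZSm

/-- powers of Frobenius modulo an ideal containing `p` -/
theorem frob {B : Type} [CommRing B] {J : Ideal B} (hJ : J ≠ ⊤) {p : ℕ} (hp : p.Prime)
    (h : (p : B) ∈ J) (f : ℕ) : ∃ φ : B →+* B ⧸ J, ∀ a, φ a = Ideal.Quotient.mk J (a ^ p ^ f) := by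
  have := Ideal.Quotient.nontrivial_iff.2 hJ
  have : CharP (B ⧸ J) p := (CharP.charP_iff_prime_eq_zero hp).2 (by
    rw [← map_natCast (Ideal.Quotient.mk J), Ideal.Quotient.eq_zero_iff_mem]; exact h)
  have := Fact.mk hp
  exact ⟨(iterateFrobenius _ p f).comp (Ideal.Quotient.mk J), fun a => by
    rw [RingHom.comp_apply, iterateFrobenius_def, map_pow]⟩

variable {K : Type} [Field K] {R B : Subring K}

theorem sub (le : R ≤ B) (T : Subring B) {X Y H : B} (hR : ∀ c, Subring.inclusion le c ∈ T)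
    (hX : X ∈ T) (hY : Y ∈ T) (hH : H ∈ T) {h : K} (e : (H : K) = h⁻¹) (z : B)
    (hz : (z : K) ∈ AL R X Y h) : z ∈ T := by
  have : AL R X Y h ≤ T.map B.subtype := Subring.closure_le.2 (by
    rintro w (hw | rfl | rfl | rfl)
    exacts [⟨_, hR ⟨w, hw⟩, rfl⟩, ⟨_, hX, rfl⟩, ⟨_, hY, rfl⟩, ⟨_, hH, e⟩])
  obtain ⟨w, hw, e⟩ := this hz
  exact (Subtype.ext e : w = z) ▸ hw

theorem taylor {R B : Type} [CommRing R] [CommRing B] (ι : R →+* B) (a : R[X]) (X u : B) :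
    ∃ k, eval₂ ι (X + u) a = eval₂ ι X a + eval₂ ι X (derivative a) * u + k * u ^ 2 := by
  obtain ⟨k, hk⟩ := binomExpansion (a.map ι) X u
  exact ⟨k, by simpa only [derivative_map, eval_map] using hk⟩

theorem gen_of (L : LcA B) (n : Ideal B) [hn : n.IsPrime] {p w : B} (hp : p ∈ n) (hw : w ∈ n)
    (h : ∀ a ∈ n, ∃ b c c', b ∉ n ∧ a * b = c * p + c' * w) : Gen (lc B n) p w := by
  have ut : ∀ a : B, Ut (lc B n) a ↔ a ∉ n := fun a =>
    (ut_iff (Subring.inclusion (le_lc B n) a)).trans (L.unit n a)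
  have nu : ∀ a ∈ n, Nu (lc B n) (a : B) := fun a ha =>
    (nu_iff_not (le_lc B n a.2)).2 fun u => (ut a).1 u ha
  refine ⟨le_lc B n p.2, le_lc B n w.2, fun z => ⟨fun hz => ?_, ?_⟩⟩
  · obtain ⟨a, b, hb, e⟩ := mem_lc.1 hz.1
    have ub := (ut b).2 hb
    have ha : a ∈ n := by
      by_contra ha
      exact hz.not (eq_div_of_mul_eq ub.1 e ▸ ((ut a).2 ha).div ub)
    obtain ⟨b', c, c', hb', e'⟩ := h a ha
    have ub' := ub.mul ((ut b').2 hb')
    have e2 : (a : K) * b' = c * p + c' * w := congrArg Subtype.val e'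
    refine ⟨c * (b * b' : K)⁻¹, mul_mem (le_lc B n c.2) ub'.2.2, c' * (b * b' : K)⁻¹,
      mul_mem (le_lc B n c'.2) ub'.2.2, ?_⟩
    linear_combination (b * b' : K)⁻¹ * e2 + (b * b' : K)⁻¹ * b' * e - z * mul_inv_cancel₀ ub'.1
  · rintro ⟨u, hu, v, hv, rfl⟩
    exact ((nu p hp).mul hu).add ((nu w hw).mul hv)

end ZSm

open ZSm in
theorem zSm : OfSm := by
  rintro hL K _ R π x y hB a f h D he hh h0 ⟨n, _, hm, hπ, rfl⟩
  have L := hL K (AL R x y h)
  have le : R ≤ AL R x y h := fun z hz => Subring.subset_closure (Or.inl hz)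
  have mx : x ∈ AL R x y h := Subring.subset_closure (by simp)
  have my : y ∈ AL R x y h := Subring.subset_closure (by simp)
  have mh : h⁻¹ ∈ AL R x y h := Subring.subset_closure (by simp)
  have mh' : h ∈ AL R x y h := (Subring.closure_le.2 (by
    rintro w (hw | rfl | rfl | rfl)
    exacts [le hw, mx, my, by simp]) : AL R x y 1 ≤ AL R x y h) hh
  generalize hBB : AL R x y h = B at n hm hπ L le mx my mh mh' ⊢
  have top : ∀ z : B, (z : K) ∈ AL R x y h := fun z => hBB ▸ z.2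
  lift x to B using mx with X
  lift y to B using my with Y
  set ι := Subring.inclusion le
  have πn : ι π ∈ n := hπ _ rfl
  have cn : ∀ c : R, ι c ∈ n → ι π ∣ ι c := fun c hc => map_dvd ι (hB.dvd.2 fun u =>
    hm.ne_top (Ideal.eq_top_of_isUnit_mem _ hc (u.map ι)))
  let := Ideal.Quotient.field n
  have : Finite (B ⧸ n) := by
    have := hB.fin
    let := (Ideal.Quotient.lift (Ideal.span {π}) ((Ideal.Quotient.mk n).comp ι) fun c hc => by
      obtain ⟨d, rfl⟩ := Ideal.mem_span_singleton.1 hc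
      exact Ideal.Quotient.eq_zero_iff_mem.2 (map_mul ι π d ▸ n.mul_mem_right _ πn)).toAlgebra
    have : Algebra.FiniteType (R ⧸ Ideal.span {π}) (B ⧸ n) := by
      classical
      refine ⟨⟨{Ideal.Quotient.mk n X, Ideal.Quotient.mk n Y, Ideal.Quotient.mk n ⟨_, mh⟩},
        eq_top_iff.2 fun z _ => ?_⟩⟩
      obtain ⟨z, rfl⟩ := Ideal.Quotient.mk_surjective z
      exact sub le ((Algebra.adjoin _ _).toSubring.comap (Ideal.Quotient.mk n)) (H := ⟨_, mh⟩)
        (fun c => (Algebra.adjoin (R ⧸ Ideal.span {π}) (_ : Set (B ⧸ n))).algebraMap_mem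
          (Ideal.Quotient.mk _ c))
        (Algebra.subset_adjoin (by simp)) (Algebra.subset_adjoin (by simp))
        (Algebra.subset_adjoin (by simp)) rfl z (top z)
    have := finite_of_finite_type_of_isJacobsonRing (R ⧸ Ideal.span {π}) (B ⧸ n)
    exact Module.finite_of_finite (R ⧸ Ideal.span {π})
  let := Fintype.ofFinite (B ⧸ n)
  obtain ⟨p, _, f', hp, hf⟩ := FiniteField.card' (B ⧸ n)
  have hq : ∀ a : B, a ^ p ^ (f' : ℕ) - a ∈ n := fun a => by
    rw [← Ideal.Quotient.eq, map_pow, ← hf, FiniteField.pow_card]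
  have pπ : ι π ∣ (p : B) := by
    rw [← map_natCast ι]
    refine cn _ ?_
    rw [map_natCast, ← Ideal.Quotient.eq_zero_iff_mem, map_natCast, CharP.cast_eq_zero]
  have cq : ∀ c : R, ι π ∣ ι c ^ p ^ (f' : ℕ) - ι c := fun c => by
    have := cn (c ^ p ^ (f' : ℕ) - c) (by rw [map_sub, map_pow]; exact hq _)
    rwa [map_sub, map_pow] at this
  obtain ⟨m, hn⟩ : ∃ m, p ^ (f' : ℕ) = m + 2 :=
    Nat.exists_eq_add_of_le' (Nat.one_lt_pow f'.ne_zero hp.one_lt)
  have ut : ∀ a : B, Ut (lc B n) a ↔ a ∉ n := fun a =>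
    (ut_iff (Subring.inclusion (le_lc B n) a)).trans (L.unit n a)
  refine ⟨fun z hz => ?_, fun hs => ?_⟩
  · have tor : ∀ a : B, a ∉ n → Tor (lc B n) a := fun a ha => by
      have h1 : a ^ (m + 1) - 1 ∈ n := (hm.isPrime.mem_or_mem (x := a) (by
        rw [mul_sub, mul_one, ← pow_succ', ← hn]; exact hq a)).resolve_left ha
      exact ⟨m + 1, m.succ_pos,
        (nu_iff_not (le_lc B n (a ^ (m + 1) - 1).2)).2 fun u => (ut _).1 u h1⟩
    obtain ⟨a, b, hb, e⟩ := mem_lc.1 hz.2.1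
    have ub := (ut b).2 hb
    rw [eq_div_of_mul_eq ub.1 e, div_eq_mul_inv]
    exact (tor a ((ut a).1 (e ▸ hz.mul ub))).mul ((tor b hb).inv ub)
  have ev : ∀ g : R[X], ((eval₂ ι X g : B) : K) = aeval (X : K) g := fun g =>
    hom_eval₂ g ι B.subtype X
  have e0 : Y ^ 2 + eval₂ ι X a * Y - eval₂ ι X f = 0 := Subtype.ext (by
    push_cast
    rw [ev, ev, he, sub_self])
  obtain ⟨u, hu⟩ : ∃ u, u = X ^ p ^ (f' : ℕ) - X := ⟨_, rfl⟩
  obtain ⟨v, hv⟩ : ∃ v, v = Y ^ p ^ (f' : ℕ) - Y := ⟨_, rfl⟩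
  have um : u ∈ n := hu ▸ hq X
  have vm : v ∈ n := hv ▸ hq Y
  have gen : ∀ a ∈ n, ∃ b c1 c2 c3, b ∉ n ∧ a * b = c1 * ι π + c2 * u + c3 * v := by
    intro a ha
    have le' : Ideal.span {ι π, u, v} ≤ n := Ideal.span_le.2 (by
      rintro z (rfl | rfl | rfl) <;> assumption)
    have hJ : ι π ∈ Ideal.span {ι π, u, v} := Ideal.subset_span (by simp)
    obtain ⟨φ, hφ⟩ := frob (fun e => hm.ne_top (top_le_iff.1 (e ▸ le'))) hp
      (Ideal.mem_of_dvd _ pπ hJ) f'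
    have hR : ∀ c, ι c ∈ φ.eqLocus (Ideal.Quotient.mk _) := fun c =>
      (hφ _).trans (Ideal.Quotient.eq.2 (Ideal.mem_of_dvd _ (cq c) hJ))
    have hX : X ∈ φ.eqLocus (Ideal.Quotient.mk _) :=
      (hφ _).trans (Ideal.Quotient.eq.2 (hu ▸ Ideal.subset_span (by simp)))
    have hY : Y ∈ φ.eqLocus (Ideal.Quotient.mk _) :=
      (hφ _).trans (Ideal.Quotient.eq.2 (hv ▸ Ideal.subset_span (by simp)))
    have h1 : φ ⟨h, mh'⟩ = Ideal.Quotient.mk _ ⟨h, mh'⟩ :=
      sub le _ hR hX hY (one_mem _) inv_one.symm ⟨h, mh'⟩ hh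
    have h2 : (⟨h, mh'⟩ * ⟨h⁻¹, mh⟩ : B) = 1 := Subtype.ext (mul_inv_cancel₀ h0)
    have h3 : φ ⟨h⁻¹, mh⟩ = Ideal.Quotient.mk _ ⟨h⁻¹, mh⟩ :=
      left_inv_eq_right_inv (a := φ ⟨h, mh'⟩) (by rw [mul_comm, ← map_mul, h2, map_one])
        (by rw [h1, ← map_mul, h2, map_one])
    have : φ a = Ideal.Quotient.mk _ a := sub le _ hR hX hY h3 rfl a (top a)
    rw [hφ, Ideal.Quotient.eq, hn, Ideal.mem_span_insert] at this
    obtain ⟨c1, z, hz, e⟩ := this
    obtain ⟨c2, c3, rfl⟩ := Ideal.mem_span_pair.1 hz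
    refine ⟨a ^ (m + 1) - 1, c1, c2, c3, fun h => hm.ne_top ((Ideal.eq_top_iff_one _).2 ?_),
      by linear_combination e⟩
    simpa using n.sub_mem (n.pow_mem_of_mem ha (m + 1) m.succ_pos) h
  obtain ⟨t, ht⟩ : ∃ t, t * ι π =
      (Y + v) ^ 2 + eval₂ ι (X + u) a * (Y + v) - eval₂ ι (X + u) f := by
    have le' : Ideal.span {ι π} ≤ n := (Ideal.span_singleton_le_iff_mem _).2 πn
    obtain ⟨φ, hφ⟩ := frob (fun e => hm.ne_top (top_le_iff.1 (e ▸ le'))) hp
      (Ideal.mem_span_singleton.2 pπ) f'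
    have hc : (Ideal.Quotient.mk _).comp ι = φ.comp ι := RingHom.ext fun c =>
      ((hφ _).trans (Ideal.Quotient.eq.2 (Ideal.mem_span_singleton.2 (cq c)))).symm
    have := congrArg φ e0
    rw [map_sub, map_add, map_mul, map_pow, hom_eval₂, hom_eval₂, map_zero] at this
    rw [← Ideal.mem_span_singleton', ← Ideal.Quotient.eq_zero_iff_mem, map_sub, map_add, map_mul,
      map_pow, hom_eval₂, hom_eval₂, hc, hu, hv, add_sub_cancel, add_sub_cancel, ← hφ, ← hφ, this]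
  obtain ⟨k1, hk1⟩ := taylor ι a X u
  obtain ⟨k2, hk2⟩ := taylor ι f X u
  obtain ⟨α, hα⟩ : ∃ α, α = 2 * Y + eval₂ ι X a + v := ⟨_, rfl⟩
  obtain ⟨β, hβ⟩ : ∃ β, β = eval₂ ι X (derivative a) * Y - eval₂ ι X (derivative f) +
    (eval₂ ι X (derivative a) * v + (k1 * (Y + v) - k2) * u) := ⟨_, rfl⟩
  have key : t * ι π = α * v + β * u := by
    rw [ht, hk1, hk2, hα, hβ]
    linear_combination e0
  rcases hs with hs | hs
  · have h1 : 2 * Y + eval₂ ι X a ∉ n := (ut _).1 (by push_cast; rwa [ev])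
    refine ⟨u, gen_of L n πn um fun a ha => ?_⟩
    obtain ⟨b, c1, c2, c3, hb, e⟩ := gen a ha
    refine ⟨b * α, c1 * α + c3 * t, c2 * α - c3 * β, fun h =>
      (hm.isPrime.mem_or_mem h).elim hb fun h => h1 ?_, by linear_combination α * e - c3 * key⟩
    exact (n.add_mem_iff_left vm).1 (hα ▸ h)
  · have h1 : eval₂ ι X (derivative a) * Y - eval₂ ι X (derivative f) ∉ n :=
      (ut _).1 (by push_cast; rwa [ev, ev])
    refine ⟨v, gen_of L n πn vm fun a ha => ?_⟩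
    obtain ⟨b, c1, c2, c3, hb, e⟩ := gen a ha
    refine ⟨b * β, c1 * β + c2 * t, c3 * β - c2 * α, fun h =>
      (hm.isPrime.mem_or_mem h).elim hb fun h => h1 ?_, by linear_combination β * e - c2 * key⟩
    exact (n.add_mem_iff_left (n.add_mem (n.mul_mem_left _ vm) (n.mul_mem_left _ um))).1 (hβ ▸ h)

end Pool.Agent.MP_f3836a_nt.VE.Z
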