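import Pool.Agent.MP_f3836a_nt.VE.SpecZ2

/-! The slope passes through the double points of a chain. -/

set_option autoImplicit false

namespace Pool.Agent.MP_f3836a_nt.VE.Z

open Polynomial IsLocalRing PK VE.A VE.T VE.W

namespace ZStep

variable {K : Type} [Field K] {R : Subring K}

theorem le_AL (x y h : K) : R ≤ AL R x y h := fun _ e => Subring.subset_closure (.inl e)

theorem x_AL (x y h : K) : x ∈ AL R x y h := Subring.subset_closure (.inr (by simp))

theorem y_AL (x y h : K) : y ∈ AL R x y h := Subring.subset_closure (.inr (by simp))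

theorem h_AL (x y h : K) : h⁻¹ ∈ AL R x y h := Subring.subset_closure (.inr (by simp))

theorem ax_nu {D O : Subring K} {a b : K} (h : Ax D a b O) : Nu O a :=
  (h.div a h.mem).2 (by rw [div_self h.ne]; exact D.one_mem)

theorem ok_div {D O : Subring K} (A : RgA D) (h : H1 D O) {u t : K} (hu : Ut O u) (ht : Ut O t)
    (i : ℤ) (j : ℕ) (e : Tor O (u ^ j / t ^ i)) : j * oK O D u = i * oK O D t := by
  have h1 := A.tor O _ h ((hu.pow j).div (ht.zpow i)) e
  rw [div_eq_mul_inv, ← zpow_neg, A.mul O _ _ h (hu.pow j) (ht.zpow _), ← zpow_natCast,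
    A.zpow O u _ h hu, A.zpow O t _ h ht] at h1
  linarith

theorem hz_div {π : R} {x : K} {ψ : Subring K → K} (h : Hz π x ψ) : Hz π (x / π) ψ :=
  fun V hV le u hx => h V hV le u (by
    have := V.mul_mem hx u.2.1
    rwa [div_mul_cancel₀ _ u.1] at this)

end ZStep

open ZStep

theorem zStep : OfStep := by
  intro hD hR hC hT hU K _ R π x y hB e c ψ P Γ L _ hZ hH hP _ hΓ hL
  have A := hR K P hP.rg
  have Cy := hC K P hP.rg
  have := hP.rg.loc
  obtain ⟨O₂, a₂⟩ := Cy.ax _ _ hP.gen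
  obtain ⟨O₁, a₁⟩ := Cy.ax _ _ hP.gen.swap
  have y0 : y ≠ 0 := a₂.ne
  have p0 := hB.ne
  have d₁ := A.dvr O₁ a₁.h1
  have d₂ := A.dvr O₂ a₂.h1
  have RP : R ≤ P := (le_AL x y 1).trans hP.le
  have ep : y * (π / y) = π := mul_div_cancel₀ _ y0
  have ei : (y / π)⁻¹ = π / y := inv_div _ _
  have ex : x = y * (-1 + (y + x) / y) := by field_simp; ring
  have uω : Ut P (-1 + (y + x) / y) :=
    Ut.add ⟨by simp, P.neg_mem P.one_mem, by simpa using P.neg_mem P.one_mem⟩ hP.nu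
  obtain rfl : O₁ = Γ := hΓ O₁ d₁.1 (hP.le.trans d₁.2.1) (ep ▸ (ax_nu a₁).mul a₁.ut.2.1) a₁.ut
    fun t => by simpa [a₁.one] using A.tor O₁ y a₁.h1 a₁.ut t
  have ut : Ut O₂ (y / π) := by simpa using a₂.ut.inv
  obtain rfl : O₂ = L := by
    refine (hL.cov O₂ d₂.1 ?_ ?_).resolve_right ?_
    · refine Subring.closure_le.2 (Set.union_subset (RP.trans d₂.2.1) ?_)
      rintro z (rfl | rfl | rfl)
      · have : x / π = y / π * (-1 + (y + x) / y) := by field_simp; ring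
        rw [this]
        exact O₂.mul_mem ut.2.1 (d₂.2.1 uω.2.1)
      · exact ut.2.1
      · exact ut.2.2
    · have := (ax_nu a₂).mul a₂.ut.2.1
      rwa [mul_comm, ep] at this
    · rintro ⟨D, hD, dom⟩
      obtain ⟨rg, le, -⟩ := hL.pt D hD
      have u : Ut D (π / y) := ⟨a₂.ut.1, ei ▸ le (h_AL _ _ _), by
        rw [inv_div]; exact le (y_AL _ _ _)⟩
      simpa [a₂.one] using A.tor O₂ _ a₂.h1 a₂.ut (dom.tor (rg.alg _ u))
  have ne : O₁ ≠ O₂ := fun h => (ax_nu a₂).not (h ▸ a₁.ut)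
  have oth : ∀ O, H1 P O → O ≠ O₁ → O ≠ O₂ → Tor O (ψ O) := fun O h h1 h2 =>
    have d := A.dvr O h
    hH O d.1 (RP.trans d.2.1) (ep ▸ (a₂.oth O h h2).mul (a₁.oth O h h1))
      (d.2.1 (hP.le (x_AL _ _ _)))
  have u₁ := hZ.1 O₁ d₁.1
  have u₂ := hZ.1 O₂ d₂.1
  refine ⟨fun i j hs => ?_, fun t₁ t₂ V hV dom => hT K P V ψ hZ hP.rg (fun O h => ?_) hV dom⟩
  · have two := Cy.two ψ O₁ O₂ hZ.1 (hZ.2 P hP.rg) a₁.h1 a₂.h1 ne oth
    have s1 : j * oK O₁ P (ψ O₁) = i := by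
      rcases hs with hs | hs
      · simpa [a₁.one] using ok_div A a₁.h1 u₁ a₁.ut i j hs
      · have uω' := uω.mono d₁.2.1
        have ox : oK O₁ P x = 1 := by
          rw [ex, A.mul O₁ _ _ a₁.h1 a₁.ut uω', a₁.one,
            (A.pos O₁ a₁.h1 _ uω.2.1 uω').2.2 uω, add_zero]
        simpa [ox] using ok_div A a₁.h1 u₁ (ex ▸ a₁.ut.mul uω') i j hs
    obtain ⟨w, hw, w', hw', n1, n2⟩ := (hU K _ O₂ π ψ hZ hL.toCu fun V hV le u =>
      hz_div hH V hV ((le_AL _ _ _).trans le) u (le (x_AL _ _ _))).1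
    obtain ⟨k, tk⟩ := hL.unit w hw w' hw' n2
    have := (hD K O₂ d₂.1).loc
    have uk := ut.zpow k
    have t2 : Tor O₂ (ψ O₂ / (y / π) ^ k) := by
      refine Tor.congr (u₂.div uk).2.1 ?_ ?_ tk
      · rw [div_eq_mul_inv]
        exact O₂.mul_mem (hL.le hw) uk.2.2
      · rw [← sub_div, div_eq_inv_mul]
        exact n1.mul uk.2.2
    have ot : oK O₂ P (y / π) = -1 := by
      have := A.zpow O₂ _ (-1) a₂.h1 a₂.ut
      rwa [zpow_neg_one, inv_div, a₂.one, mul_one] at this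
    have s2 := ok_div A a₂.h1 u₂ ut k 1 (by rwa [pow_one])
    rw [ot] at s2
    have ei : i = k * j := by
      rw [← s1, mul_comm]
      congr 1
      push_cast at s2
      linarith
    have := t2.pow j
    rwa [div_pow, ← zpow_natCast ((y / π) ^ k), ← zpow_mul, ← ei] at this
  · by_cases h1 : O = O₁
    · exact h1 ▸ t₁
    · by_cases h2 : O = O₂
      · exact h2 ▸ t₂
      · exact oth O h h1 h2

theorem zSide : OfSide := by
  intro hN hL hP hS K _ R π x y hB k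
  induction k generalizing x y with
  | zero =>
    intro e c ψ Γ L i j h hZ hH d u s l
    rw [zero_add, pow_one] at l ⊢
    obtain ⟨P, p⟩ := hP K R π x y hB e c h
    exact (hS K R π x y hB e c ψ P Γ L h hZ hH p d u l).1 i j s
  | succ k ih =>
    intro e c ψ Γ L i j h hZ hH d u s l
    rw [show π ^ (2 * (k + 1 + 1)) * c = π ^ 2 * (π ^ (2 * (k + 1)) * c) by ring] at h
    obtain ⟨P, p⟩ := hP K R π x y hB e _ h
    have h' := ((hN K R π x y hB).2 e _).1 h
    obtain ⟨L', l', u'⟩ := hL K R π _ _ hB e _ h'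
    have s' := (hS K R π x y hB e _ ψ P Γ L' h hZ hH p d u l').1 i j s
    rw [pow_succ' _ (k + 1), ← div_div] at l ⊢
    rw [← div_div] at l
    exact ih _ _ (e * π) c ψ L' L i j h' hZ (hz_div hH) l'.dvr u' (.inl s') l

end Pool.Agent.MP_f3836a_nt.VE.Z
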