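import Pool.Agent.MP_f3836a_nt.VE.SpecZ1

/-! The tree above a regular point, and elimination of indeterminacy. -/

set_option autoImplicit false

namespace Pool.Agent.MP_f3836a_nt.VE.Z

open PK VE.A VE.T VE.W

namespace ZTr

variable {K : Type} [Field K]

theorem cht {ι : Type} (ξ : ι → K) (D : Subring K) (h0 : ∃ i, ξ i ≠ 0)
    (h : ∀ i j, ξ i / ξ j ∈ D ∨ (ξ i / ξ j)⁻¹ ∈ D) (s : Finset ι) :
    ∃ i, ξ i ≠ 0 ∧ ∀ j ∈ s, ξ j / ξ i ∈ D := by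
  classical
  induction s using Finset.induction_on with
  | empty => exact h0.imp fun i hi => ⟨hi, by simp⟩
  | insert j s _ ih =>
    obtain ⟨i, hi, e⟩ := ih
    by_cases hj : ξ j / ξ i ∈ D
    · exact ⟨i, hi, Finset.forall_mem_insert _ _ _ |>.2 ⟨hj, e⟩⟩
    have h1 : ξ j ≠ 0 := fun g => hj (by simp [g])
    refine ⟨j, h1, Finset.forall_mem_insert _ _ _ |>.2 ⟨by simp [h1], fun l hl => ?_⟩⟩
    have := D.mul_mem (e l hl) ((h j i).resolve_left hj)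
    rwa [inv_div, div_mul_div_cancel₀ hi] at this

theorem tr (hD : DvS) (hC : CyS) (hE : ExS) : TrT := by
  intro K _ D V ψ hψ h1 h2 hV h3
  have A := hD K V hV
  have hu := hψ.1 V hV
  obtain ⟨f, hf, g, hg, g0, e⟩ : ∃ f ∈ D, ∃ g ∈ D, g ≠ 0 ∧ ψ V * g = f := by
    obtain ⟨f, g, g0, e⟩ := h1.fr (ψ V)
    exact ⟨f, f.2, g, g.2, g0, e⟩
  obtain ⟨n, hn⟩ : ∃ n : ℕ, ordR V g < n := ⟨(ordR V g).toNat + 1, by omega⟩
  induction n generalizing D f g with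
  | zero => exact absurd ((A.mem g g0).1 (h3.1 hg)) (not_le.2 hn)
  | succ n ih =>
  rcases nu_or hg with c | c
  swap
  · refine h3.tor (h1.alg _ (h3.ut ?_ hu))
    rw [(eq_mul_inv_iff_mul_eq₀ c.1).2 e]
    exact D.mul_mem hf c.2.2
  have c' : Nu D f := (nu_or hf).resolve_right fun u =>
    (e ▸ (h3.2 g c).mul hu.2.1 : Nu V f).not (u.mono h3.1)
  obtain ⟨a, b, hab, hv⟩ : ∃ a b, Gen D a b ∧ b / a ∈ V := by
    obtain ⟨a, b, hab⟩ := h1.gen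
    rcases A.val (b / a) with t | t
    · exact ⟨a, b, hab, t⟩
    · exact ⟨b, a, hab.swap, inv_div b a ▸ t⟩
  obtain ⟨E, X⟩ := hE K D a b h1 hab
  have le : D ≤ Bl D (b / a) := fun z hz => Subring.subset_closure (Or.inr hz)
  have tE : Tor E (ψ E) := X.con' _ (hψ.1 E X.dvr) fun D' p => by
    obtain ⟨r, -, w, -, ax⟩ := X.pt D' p
    exact (hC K D' r).one ψ E hψ.1 (hψ.2 D' r) ax.h1 fun O o ne =>
      h2 O (((X.pt' D' p).2 O o).resolve_left ne).1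
  have na : Nu V a := h3.2 a ((hab.2.2 a).2 ⟨1, D.one_mem, 0, D.zero_mem, by simp⟩)
  rcases X.cov V hV (Subring.closure_le.2 (Set.insert_subset hv h3.1)) na with rfl | ⟨D', p, d⟩
  · exact tE
  obtain ⟨r, le', -⟩ := X.pt D' p
  refine ih D' r (fun O o => ((X.pt' D' p).2 O o).elim (fun t => t ▸ tE) fun t => h2 O t.1) d
    (f / a) (le' ((X.div f (le hf)).1 (X.dom.2 f c'))) (g / a)
    (le' ((X.div g (le hg)).1 (X.dom.2 g c))) (div_ne_zero g0 X.ne) (by rw [← e, mul_div_assoc]) ?_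
  have h4 := A.mul (g / a) a (div_ne_zero g0 X.ne) X.ne
  have h5 := ((A.nu a).1 na).resolve_left X.ne
  rw [div_mul_cancel₀ _ X.ne] at h4
  omega

end ZTr

theorem zTr : OfTr := fun hD hR hC hE => ⟨ZTr.tr hD hC hE, fun K _ B E a ψ hψ X h => by
  have key : ∀ D, Pp B a D → ∀ O, H1 D O → O ≠ E → Tor O (ψ O) := fun D p O o ne => by
    obtain ⟨r, le, w, -, ax⟩ := X.pt D p
    obtain ⟨h1, h2, -⟩ := (hR K D r).dvr O o
    exact h O h1 (le.trans h2) (ax.oth O o ne)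
  refine ⟨X.con _ (hψ.1 E X.dvr) fun D p => ?_, fun tE V hV le => ?_⟩
  · obtain ⟨r, -, w, -, ax⟩ := X.pt D p
    exact (hC K D r).one ψ E hψ.1 (hψ.2 D r) ax.h1 (key D p)
  rcases nu_or (le X.mem) with c | c
  · rcases X.cov V hV le c with rfl | ⟨D, p, d⟩
    · exact tE
    · exact ZTr.tr hD hC hE K D V ψ hψ (X.pt D p).1
        (fun O o => (eq_or_ne O E).elim (fun t => t ▸ tE) (key D p O o)) hV d
  · exact h V hV le c⟩

theorem zEl : OfEl := by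
  intro hE hD hM K ι _ _ ξ ψ h0 hu hf hc
  obtain ⟨μ, hμ⟩ := hM K
  refine ⟨hu, fun D r => ?_⟩
  obtain ⟨n, hn⟩ : ∃ n, ∑ p : ι × ι, μ D (ξ p.1 / ξ p.2) < n := ⟨_, Nat.lt_succ_self _⟩
  induction n generalizing D with
  | zero => exact absurd hn (Nat.not_lt_zero _)
  | succ n ih =>
  by_cases h : ∀ i j, ξ i / ξ j ∈ D ∨ (ξ i / ξ j)⁻¹ ∈ D
  · exact hc D r ((ZTr.cht ξ D h0 h Finset.univ).imp fun i hi =>
      ⟨hi.1, fun j => hi.2 j (Finset.mem_univ j)⟩)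
  push Not at h
  obtain ⟨i, j, h1, h2⟩ := h
  refine hD K D ψ r hu (hf D r) fun a b D' g p => ?_
  obtain ⟨E, X⟩ := hE K D a b r g
  refine ih D' (X.pt D' p).1 (lt_of_lt_of_le ?_ (Nat.lt_succ_iff.1 hn))
  exact Finset.sum_lt_sum (fun q _ => (hμ D D' a b _ r g p).1)
    ⟨(i, j), Finset.mem_univ _, (hμ D D' a b _ r g p).2 h1 h2⟩

end Pool.Agent.MP_f3836a_nt.VE.Z
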