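import Pool.Agent.MP_f3836a_nt.VE.SpecZ2

/-! Everything above the double point, and multiplicative reduction. -/

set_option autoImplicit false

namespace Pool.Agent.MP_f3836a_nt.VE.Z

open Polynomial IsLocalRing PK VE.A VE.T VE.W

namespace ZUp

variable {K : Type} [Field K] {R : Subring K} {π : R} {x y h : K} {V : Subring K}

theorem al_le : AL R x y h ≤ V ↔ R ≤ V ∧ x ∈ V ∧ y ∈ V ∧ h⁻¹ ∈ V := by
  simp only [AL, Subring.closure_le, Set.union_subset_iff, Set.insert_subset_iff,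
    Set.singleton_subset_iff, SetLike.coe_subset_coe, SetLike.mem_coe]

theorem nd_eq {e c : R} (N : Nd e c x y) : (c : K) = y * (y + x) - e * x ^ 3 := by
  have := N.eq
  simp only [aeval_X, map_add, map_mul, aeval_C, map_pow] at this
  rw [show ∀ a : R, algebraMap R K a = a from fun _ => rfl,
    show ∀ a : R, algebraMap R K a = a from fun _ => rfl] at this
  linear_combination -this

theorem hz {ψ : Subring K → K} (B : Bs R π) (H : Hz π x ψ) : Hz π (x / π) ψ :=
  fun V hV le u hx => H V hV le u (by simpa [B.ne] using V.mul_mem hx u.2.1)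

theorem half (hD : DvS) (hC : CuT) (hN : NdS) (hL : LnS) (hP : PtS) (hS : StepS) (B : Bs R π)
    {e c : R} {ψ : Subring K → K} {Γ : Subring K} (N : Nd e (π ^ 2 * c) x y) (Z : RZ ψ)
    (H : Hz π x ψ) (dΓ : Dvr Γ) (U : Un1 π x y Γ) (T : Tor Γ (ψ Γ)) :
    ∃ L, Dvr L ∧ Un1 π (x / π) (y / π) L ∧ Tor L (ψ L) ∧ ∀ V, Dvr V → R ≤ V →
      (x / π ∈ V → Ut V (y / π) → Tor V (ψ V)) ∧
      (Nu V y → y / π ∉ V → (y + x) / y ∈ V → Tor V (ψ V)) := by
  obtain ⟨L, l, u⟩ := hL K R π _ _ B e c (((hN K R π x y B).2 e c).1 N)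
  obtain ⟨P, p⟩ := hP K R π x y B e c N
  obtain ⟨s1, s2⟩ := hS K R π x y B e c ψ P Γ L N Z H p dΓ U l
  have t : Tor L (ψ L) := by simpa [Sl] using s1 0 1 (.inl (by simpa [Sl] using T))
  refine ⟨L, l.dvr, u, t, fun V hV le => ⟨fun hx hy => ?_, fun hy n h => ?_⟩⟩
  · exact (hC K _ L π ψ Z l.toCu fun W hW b w =>
      hz B H W hW (al_le.1 b).1 w (al_le.1 b).2.1).2 t V hV (al_le.2 ⟨le, hx, hy.2⟩)
  · refine s2 T t V hV (p.cov V hV le hy ⟨?_, .inr (by rwa [inv_div])⟩ h)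
    simpa using ((hD K V hV).val (y / π)).resolve_left n

end ZUp

open ZUp

theorem zUp : OfUp := by
  intro hD hC hN hL hP hS K _ R π x y B m e c ψ Γ Γ' hc N Z H dΓ dΓ' U U' T T' V hV le hπ hx hy
  have := (hD K V hV).loc
  induction m using Nat.strong_induction_on generalizing x y e Γ Γ' with
  | _ m ih =>
  rw [mul_add, mul_one, pow_add, mul_comm _ (π ^ 2), mul_assoc] at N
  obtain ⟨N', -, y0, -⟩ := ((hN K R π x y B).2 e _).2 N
  obtain ⟨-, -, y1, -⟩ := ((hN K R π _ _ B).2 _ _).2 N'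
  obtain ⟨L, dL, uL, tL, a⟩ := half hD hC hN hL hP hS B N Z H dΓ U T
  obtain ⟨L', dL', uL', tL', a'⟩ := half hD hC hN hL hP hS B N' Z
    (fun W hW b w k => H W hW b w (neg_mem_iff.1 k)) dΓ' U' T'
  have N1 := ((hN K R π x y B).2 e _).1 N
  rw [neg_div, add_div] at uL'
  obtain ⟨a1, a2⟩ := a V hV le
  obtain ⟨b1, b2⟩ := a' V hV le
  rw [neg_div, add_div, neg_mem_iff] at b1
  rw [add_neg_cancel_right] at b2
  by_cases k : x / π ∈ V ∧ y / π ∈ V
  · refine (nu_or k.2).elim (fun n1 => ?_) (a1 k.1)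
    refine (nu_or (add_mem k.2 k.1)).elim (fun n2 => ?_) (b1 k.1)
    have n3 : Nu V (x / π) := by simpa using n2.sub n1
    rcases m with _ | m
    · have n4 := (n2.mul n1.1).sub ((n3.mul (V.pow_mem n3.1 2)).mul (le (e * π).2))
      rw [← pow_succ, ← nd_eq N1, mul_zero, pow_zero, one_mul] at n4
      exact (n4.not (((ut_iff c).2 hc).mono le)).elim
    · exact ih m m.lt_succ_self _ _ _ L L' N1 (hz B H) dL dL' uL uL' tL tL' n3 n1
  · rcases (hD K V hV).val ((y + x) / y) with h | h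
    · refine a2 hy (fun q => k ⟨?_, q⟩) h
      convert V.sub_mem (V.mul_mem h q) q using 1
      field_simp
      ring
    · rw [inv_div] at h
      refine b2 (hy.add hx) (fun q => ?_) h
      have q' : y / π ∈ V := by
        convert V.mul_mem h q using 1
        field_simp
      exact k ⟨by simpa [add_div] using V.sub_mem q q', q'⟩

theorem zNode : OfNode := by
  intro hD hC hG hN h0 hCh hU K _ R π x y B γ ψ g0 gu w Z H hs V hV le
  have := (hD K V hV).loc
  obtain ⟨n, u, rfl⟩ := B.eq g0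
  rcases n with _ | m
  · exact (gu (by simp)).elim
  have N := (hN K R π x y B).1 _ w
  obtain ⟨G, g⟩ := (hG K R π x y B _ w).1
  obtain ⟨c, U, U', s⟩ := h0 K R π x y B _ ψ G gu w Z H g
  obtain ⟨i, j, hj, s⟩ := s (hs G g)
  obtain ⟨r, hx, hy, -⟩ := al_le.1 le
  have e := nd_eq N
  rw [mul_pow, ← pow_mul, mul_comm (m + 1), mul_comm] at N
  obtain rfl := hCh K R π x y B m _ ψ G i j (u.isUnit.pow 2) N Z H g.dvr (al_le.1 g.le).2.1 U U' hj s
  have t : Tor G (ψ G) := Tor.of_pow hj (by simpa [Sl] using s)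
  refine (nu_or (r π.2)).elim (fun n1 => ?_) fun k => H V hV r k hx
  refine (nu_or hx).elim (fun n2 => ?_) fun k => (hC K _ G π ψ Z c fun W hW b w =>
    H W hW (al_le.1 b).1 w (al_le.1 b).2.1).2 t V hV (al_le.2 ⟨r, hx, hy, k.2.2⟩)
  refine hU K R π x y B m 1 _ ψ G G (u.isUnit.pow 2) N Z H g.dvr g.dvr U U' t t V hV r n1 n2
    ((nu_or hy).resolve_right fun k => ?_)
  have n3 := B.nu r n1 gu
  refine (((n3.mul n3.1).add (n2.mul (V.pow_mem hx 2))).sub (n2.mul hy)).not ?_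
  convert k.pow 2 using 1
  push_cast at e ⊢
  linear_combination e

end Pool.Agent.MP_f3836a_nt.VE.Z
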