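import Pool.Agent.MP_f3836a_nt.VE.SpecZ2

/-! Units on the special fibre, good reduction. -/

set_option autoImplicit false

namespace Pool.Agent.MP_f3836a_nt.VE.Z

open Polynomial IsLocalRing PK VE.A VE.T VE.W

namespace ZVd

/-- the norm form -/
def Nm {S : Type} [CommRing S] (a f A B : S) : S := A ^ 2 - A * B * a - B ^ 2 * f

theorem Nm_mul {S : Type} [CommRing S] (a f A B A' B' : S) :
    Nm a f (A * A' + B * B' * f) (A * B' + A' * B - B * B' * a) = Nm a f A B * Nm a f A' B' := by
  unfold Nm; ring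

theorem deg {k : Type} [Field k] (W : WeierstrassCurve k) {A B : k[X]} {c : k} (hc : c ≠ 0)
    (h : Nm (C W.a₁ * X + C W.a₃) (X ^ 3 + C W.a₂ * X ^ 2 + C W.a₄ * X + C W.a₆) A B = C c) :
    B = 0 := by
  by_contra hB
  have e := WeierstrassCurve.Affine.CoordinateRing.degree_norm_smul_basis (W' := W.toAffine) A B
  rw [WeierstrassCurve.Affine.CoordinateRing.norm_smul_basis] at e
  have e2 := (le_max_right _ _).trans (e.symm.trans ((congrArg degree h).trans (degree_C hc))).le
  rw [degree_eq_natDegree hB] at e2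
  norm_cast at e2

variable {K : Type} [Field K] {R G : Subring K} {π : R} {x y : K} {a f : R[X]}

theorem gR_mul (h : y ^ 2 + aeval x a * y = aeval x f) (A B A' B' P : R[X]) :
    gR x y A B * gR x y A' B' - aeval x P =
      gR x y (A * A' + B * B' * f - P) (A * B' + A' * B - B * B' * a) := by
  simp only [gR, map_add, map_mul, map_sub]
  linear_combination (aeval x B * aeval x B') * h

theorem gR_pow (h : y ^ 2 + aeval x a * y = aeval x f) (A B : R[X]) (j : ℕ) :
    ∃ A' B', gR x y A B ^ j = gR x y A' B' ∧ Nm a f A' B' = Nm a f A B ^ j := by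
  induction j with
  | zero => exact ⟨1, 0, by simp [gR], by simp [Nm]⟩
  | succ j ih =>
    obtain ⟨A', B', e, e'⟩ := ih
    refine ⟨_, _, ?_, (Nm_mul a f A' B' A B).trans (by rw [e', pow_succ])⟩
    simpa [pow_succ, e] using gR_mul h A' B' A B 0

theorem dvd [IsLocalRing R] (b : Bs R π) (P : R[X]) : C π ∣ P ↔ P.map (residue R) = 0 := by
  simp only [C_dvd_iff_dvd_coeff, Polynomial.ext_iff, coeff_map, coeff_zero, b.dvd,
    residue_eq_zero_iff, mem_maximalIdeal, mem_nonunits_iff]

theorem rle (h : K) : R ≤ AL R x y h := fun _ hz => Subring.subset_closure (.inl hz)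

theorem xmem (h : K) : x ∈ AL R x y h := Subring.subset_closure (.inr (by simp))

theorem ymem (h : K) : y ∈ AL R x y h := Subring.subset_closure (.inr (by simp))

theorem tc [IsLocalRing G] (b : Bs R π) (g : Gs π x y G) {c : R} (hc : IsUnit c) {z : K}
    (h : Nu G (z - c)) : Tor G z := by
  have le : R ≤ G := (rle 1).trans g.le
  have hπ : Nu G (algebraMap R K π) := by simpa [gR] using (g.nu (C π) 0).2 ⟨dvd_rfl, dvd_zero _⟩
  exact Tor.congr (by simpa using G.add_mem h.1 (le c.2)) (le c.2) h (b.tor le hπ hc)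

theorem nrm [IsLocalRing R] (b : Bs R π) (g : Gs π x y G) (h : y ^ 2 + aeval x a * y = aeval x f)
    {A B A' B' : R[X]} {M : ℕ} (e : Nu G (gR x y A B * gR x y A' B' - x ^ M)) :
    ∃ i ≤ 2 * M, ∃ c : R, IsUnit c ∧ (Nm a f A B).map (residue R) = C (residue R c) * X ^ i := by
  rw [show x ^ M = aeval x (X ^ M : R[X]) by simp, gR_mul h, g.nu, dvd b, dvd b,
    Polynomial.map_sub, sub_eq_zero] at e
  have e1 : (Nm a f A B).map (residue R) * (Nm a f A' B').map (residue R) = X ^ (2 * M) := by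
    rw [← Polynomial.map_mul, ← Nm_mul]
    generalize A * A' + B * B' * f = U at e
    generalize A * B' + A' * B - B * B' * a = V at e
    simp [Nm, e.1, e.2, ← pow_mul, mul_comm]
  obtain ⟨i, hi, e2⟩ := (dvd_prime_pow prime_X _).1 (Dvd.intro _ e1)
  obtain ⟨u, hu⟩ := e2.symm
  obtain ⟨r, hr, e3⟩ := Polynomial.isUnit_iff.1 u.isUnit
  obtain ⟨c, rfl⟩ := residue_surjective r
  exact ⟨i, hi, c, (residue_ne_zero_iff_isUnit c).1 hr.ne_zero, by rw [← hu, ← e3, mul_comm]⟩

theorem sq [IsLocalRing R] (b : Bs R π) (g : Gs π x y G) (h : y ^ 2 + aeval x a * y = aeval x f)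
    {A B : R[X]} {c : R} {i : ℕ} (hB : B.map (residue R) = 0)
    (e : (Nm a f A B).map (residue R) = C (residue R c) * X ^ i) :
    Nu G (gR x y A B ^ 2 - c * x ^ i) := by
  rw [show (c : K) * x ^ i = aeval x (C c * X ^ i : R[X]) by
    rw [map_mul, map_pow, aeval_C, aeval_X]; rfl, pow_two, gR_mul h, g.nu, dvd b, dvd b]
  simp only [Nm, Polynomial.map_sub, Polynomial.map_mul, Polynomial.map_pow, hB] at e
  simp only [Polynomial.map_sub, Polynomial.map_mul, Polynomial.map_pow, Polynomial.map_add, hB,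
    map_C, map_X, ← e]
  constructor <;> ring

theorem smooth {D : Subring K} [IsLocalRing D] (W : WeierstrassCurve R) (le : AL R x y 1 ≤ D)
    (h : y ^ 2 + aeval x (aW W) * y = aeval x (cR W)) (hΔ : IsUnit W.Δ) :
    Ut D (2 * y + aeval x (aW W)) ∨
      Ut D (aeval x (derivative (aW W)) * y - aeval x (derivative (cR W))) := by
  let ι : R →+* D := Subring.inclusion ((rle 1).trans le)
  let ξ : D := ⟨x, le (xmem 1)⟩
  let η : D := ⟨y, le (ymem 1)⟩
  have h1 : (W.map ι).toAffine.Equation ξ η := by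
    rw [WeierstrassCurve.Affine.equation_iff]
    refine Subtype.ext ?_
    simp only [aW, cR, map_add, map_mul, map_pow, aeval_C, aeval_X] at h
    show y ^ 2 + W.a₁ * x * y + W.a₃ * y = x ^ 3 + W.a₂ * x ^ 2 + W.a₄ * x + W.a₆
    have e : ∀ c : R, algebraMap R K c = c := fun _ => rfl
    simp only [e] at h
    linear_combination h
  have h2 := (WeierstrassCurve.Affine.nonsingular_iff' _ _).1
    ((WeierstrassCurve.Affine.equation_iff_nonsingular_of_Δ_ne_zero (by
      rw [WeierstrassCurve.map_Δ, WeierstrassCurve.map_Δ]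
      exact ((hΔ.map ι).map (residue D)).ne_zero)).1 (h1.map (residue D)))
  have e : ∀ c : R, algebraMap R K c = c := fun _ => rfl
  rcases h2.2 with h3 | h3
  · have := (ut_iff (ι W.a₁ * η - (3 * ξ ^ 2 + 2 * ι W.a₂ * ξ + ι W.a₄))).2
      ((residue_ne_zero_iff_isUnit _).1 (by simpa [map_ofNat] using h3))
    refine .inr ?_
    have e' : aeval x (derivative (aW W)) * y - aeval x (derivative (cR W)) =
        W.a₁ * y - (3 * x ^ 2 + 2 * W.a₂ * x + W.a₄) := by
      simp [aW, cR, e, map_ofNat]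
      ring
    rw [e']
    exact this
  · have := (ut_iff (2 * η + ι W.a₁ * ξ + ι W.a₃)).2
      ((residue_ne_zero_iff_isUnit _).1 (by simpa [map_ofNat] using h3))
    refine .inl ?_
    have e' : 2 * y + aeval x (aW W) = 2 * y + W.a₁ * x + W.a₃ := by
      simp [aW, e]
      ring
    rw [e']
    exact this

end ZVd

open ZVd

theorem zVdR : OfVdR := by
  intro dv qc K _ R π x y b W G h g
  have := b.dvr
  have := (dv K G g.dvr).loc
  have q := qc K R π x y b _ _ h
  refine ⟨fun w hw w' hw' e => ?_, fun w hw w' hw' e ⟨j, p, p', hj, hp, es⟩ => ?_⟩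
  · obtain ⟨A, B, rfl⟩ := (q.mem w).1 hw
    obtain ⟨A', B', rfl⟩ := (q.mem w').1 hw'
    obtain ⟨i, hi, c, hc, e1⟩ := nrm b g h.eq (M := 0) (by simpa using e)
    obtain rfl : i = 0 := by omega
    have hB : B.map (residue R) = 0 := deg (W.map (residue R)) (A := A.map (residue R))
      ((residue_ne_zero_iff_isUnit c).2 hc) (by simpa [Nm, aW, cR] using e1)
    exact Tor.of_pow two_pos (tc b g hc (by simpa using sq b g h.eq hB e1))
  · have hx : Ut G x := (nu_or (g.le (xmem 1))).resolve_left fun e => by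
      have := ((g.nu X 0).1 (by simpa [gR] using e)).1
      rw [dvd b, map_X] at this
      exact X_ne_zero this
    obtain ⟨n, hn⟩ := (q.loc x (xmem 1) hx.1).2 w hw
    obtain ⟨n', hn'⟩ := (q.loc x (xmem 1) hx.1).2 w' hw'
    obtain ⟨A, B, e1⟩ := (q.mem _).1 hn
    obtain ⟨A', B', e1'⟩ := (q.mem _).1 hn'
    obtain ⟨i, -, c, hc, e2⟩ := nrm b g h.eq (A := A) (B := B) (A' := A') (B' := B') (M := n + n')
      (by
        have := e.mul (hx.pow (n + n')).2.1
        rwa [show x ^ (n + n') * (w * w' - 1) = x ^ n * w * (x ^ n' * w') - x ^ (n + n') by ring,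
          e1, e1'] at this)
    obtain ⟨U, V, e3, e4⟩ := gR_pow h.eq A B j
    have hV : V.map (residue R) = 0 := by
      have := es.mul (hx.pow (n * j)).2.1
      rw [show x ^ (n * j) * (w ^ j * aeval x p' - aeval x p) =
        gR x y (U * p' - X ^ (n * j) * p) (V * p') by
          have e5 : x ^ (n * j) * w ^ j = aeval x U + aeval x V * y := by
            rw [pow_mul, ← mul_pow, e1, e3, gR]
          simp only [gR, map_sub, map_mul, map_pow, aeval_X]
          linear_combination aeval x p' * e5, g.nu, dvd b, dvd b, Polynomial.map_mul] at this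
      exact (mul_eq_zero.1 this.2).resolve_right fun e => hp ((dvd b _).2 e)
    have e6 := (sq b g h.eq hV (c := c ^ j) (i := i * j) (by
      rw [e4, Polynomial.map_pow, e2, mul_pow, map_pow, map_pow, pow_mul])).mul
      (hx.pow (i * j)).2.2
    refine ⟨(i * j : ℕ) - (n * j * 2 : ℕ), j * 2, by omega, tc b g (hc.pow j) ?_⟩
    have h0 := hx.1
    rw [← e3, ← e1] at e6
    rw [zpow_sub₀ h0, zpow_natCast, zpow_natCast]
    refine (congrArg (Nu G) ?_).mp e6
    field_simp
    ring

theorem zGood : OfGood := by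
  intro dv qc sm gs vd cu ct K _ R π x y b W ψ h hΔ hψ hz
  obtain ⟨⟨G, g⟩, hG⟩ := gs K R π x y b W h
  obtain ⟨-, -, h3, h4⟩ := hG G g 1 (.inl rfl)
  obtain ⟨E, hE⟩ := cu K _ _ (h4 fun D hD => by
    obtain ⟨h5, h6⟩ := sm K R π x y b _ _ 1 D h.eq (Subring.one_mem _) one_ne_zero hD
    obtain ⟨n, _, -, -, rfl⟩ := hD
    exact ⟨h6 (smooth W (le_lc _ n) h.eq hΔ), h5⟩)
  obtain rfl := h3 E hE
  have := (dv K E g.dvr).loc
  obtain ⟨⟨w, hw, w', hw', e, e'⟩, h7⟩ := ct K _ E π ψ hψ hE fun V hV le u =>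
    hz V hV ((rle 1).trans le) u (le (xmem 1))
  exact h7 (Tor.congr (hψ.1 E g.dvr).2.1 (g.le hw) e ((vd K R π x y b W E h g).1 w hw w' hw' e'))

end Pool.Agent.MP_f3836a_nt.VE.Z
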