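import Pool.Agent.MP_f3836a_nt.VE.WAll2
import Pool.Agent.MP_f3836a_nt.VE.ZBl
import Pool.Agent.MP_f3836a_nt.VE.ZChain
import Pool.Agent.MP_f3836a_nt.VE.ZCu
import Pool.Agent.MP_f3836a_nt.VE.ZCy
import Pool.Agent.MP_f3836a_nt.VE.ZDv
import Pool.Agent.MP_f3836a_nt.VE.ZEx
import Pool.Agent.MP_f3836a_nt.VE.ZGs
import Pool.Agent.MP_f3836a_nt.VE.ZInf
import Pool.Agent.MP_f3836a_nt.VE.ZKa
import Pool.Agent.MP_f3836a_nt.VE.ZLg1
import Pool.Agent.MP_f3836a_nt.VE.ZLn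
import Pool.Agent.MP_f3836a_nt.VE.ZMe
import Pool.Agent.MP_f3836a_nt.VE.ZPt
import Pool.Agent.MP_f3836a_nt.VE.ZRg
import Pool.Agent.MP_f3836a_nt.VE.ZSm
import Pool.Agent.MP_f3836a_nt.VE.ZStep
import Pool.Agent.MP_f3836a_nt.VE.ZTr
import Pool.Agent.MP_f3836a_nt.VE.ZUp
import Pool.Agent.MP_f3836a_nt.VE.ZVd

/-! Part Z: assembly of the local part. -/

set_option autoImplicit false

namespace Pool.Agent.MP_f3836a_nt.VE.Z.End

open VE.W

theorem rgS : RgS := zRg wLc odS regS kbS zDv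
theorem rgI : RgI := zRgI wLc zDv
theorem cyS : CyS := zCy wLc odS regS keyU zDv rgS
theorem lg : LgS ∧ LgF := zLg zDv rgS cyS (zLg1 zDv rgS cyS)
theorem cuS : CuS := (zCu wLc zDv rgS cyS).1
theorem blA : BlA := zBlA zDv rgS cyS
theorem exS : ExS := zEx wLc zDv rgS cyS blA (zBlF wLc blA) cuS
theorem elS : ElS :=
  zEl exS (zDe zDv rgS cyS lg.1 exS) (zMe zDv rgS cyS exS (zKa wLc odS zDv rgS))
theorem tr : TrT ∧ CuT := zTr zDv rgS cyS exS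
theorem smR : SmR := zSm wLc
theorem gsS : GsS := zGs wLc zDv zQc
theorem vdR : VdR := zVdR zDv zQc
theorem goodT : GoodT := zGood zDv zQc smR gsS vdR cuS tr.2
theorem lnS : LnS := zLn wLc zDv zQc smR cuS
theorem ptS : PtS := zPt wLc zDv rgI zQc zNd lnS
theorem stepS : StepS := zStep zDv rgS cyS tr.1 tr.2
theorem nodeT : NodeT := zNode zDv tr.2 gsS zNd (zLv0 zDv zQc smR gsS vdR cuS tr.2 zNd)
  (zChain zDv zNd lnS (zSide zNd lnS ptS stepS)) (zUp zDv tr.2 zNd lnS ptS stepS)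
theorem locR : LocR := zLocR zDv rgS cyS tr.1 (zInf wLc zDv rgI rgS cyS)

end Pool.Agent.MP_f3836a_nt.VE.Z.End
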