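import Pool.Agent.MP_f3836a_nt.VE.SpecZ3

/-! Semistable equations with given invariant. -/

set_option autoImplicit false

namespace Pool.Agent.MP_f3836a_nt.VE.Z

open Polynomial

namespace ZFam

variable {Ω : Type} [Field Ω]

theorem int4 (U : ValuationSubring Ω) {a b c d z : Ω} (ha : a ∈ U) (hb : b ∈ U) (hc : c ∈ U)
    (hd : d ∈ U) (h : z ^ 4 + a * z ^ 3 + b * z ^ 2 + c * z + d = 0) : z ∈ U := by
  rcases U.mem_or_inv_mem z with hz | hz
  · exact hz
  by_cases h0 : z = 0
  · rw [h0]; exact U.zero_mem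
  have e : z = -(a + b * z⁻¹ + c * z⁻¹ ^ 2 + d * z⁻¹ ^ 3) := by
    field_simp
    linear_combination h
  rw [e]
  exact neg_mem (add_mem (add_mem (add_mem ha (mul_mem hb hz)) (mul_mem hc (pow_mem hz 2)))
    (mul_mem hd (pow_mem hz 3)))

theorem ex4 [IsAlgClosed Ω] (a b c d : Ω) :
    ∃ z : Ω, z ^ 4 + a * z ^ 3 + b * z ^ 2 + c * z + d = 0 := by
  have hd : (X ^ 4 + C a * X ^ 3 + C b * X ^ 2 + C c * X + C d : Polynomial Ω).degree = 4 := by
    compute_degree!
  obtain ⟨z, hz⟩ := IsAlgClosed.exists_root _ (by rw [hd]; norm_num :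
    (X ^ 4 + C a * X ^ 3 + C b * X ^ 2 + C c * X + C d : Polynomial Ω).degree ≠ 0)
  exact ⟨z, by simpa using hz⟩

theorem ex3 [IsAlgClosed Ω] (c d : Ω) : ∃ z : Ω, z ^ 3 + c * z + d = 0 := by
  have hd : (X ^ 3 + C c * X + C d : Polynomial Ω).degree = 3 := by
    compute_degree!
  obtain ⟨z, hz⟩ := IsAlgClosed.exists_root _ (by rw [hd]; norm_num :
    (X ^ 3 + C c * X + C d : Polynomial Ω).degree ≠ 0)
  exact ⟨z, by simpa using hz⟩

theorem ex2 [IsAlgClosed Ω] (d : Ω) : ∃ z : Ω, z ^ 2 + z + d = 0 := by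
  have hd : (X ^ 2 + X + C d : Polynomial Ω).degree = 2 := by
    compute_degree!
  obtain ⟨z, hz⟩ := IsAlgClosed.exists_root _ (by rw [hd]; norm_num :
    (X ^ 2 + X + C d : Polynomial Ω).degree ≠ 0)
  exact ⟨z, by simpa using hz⟩

theorem root [IsAlgClosed Ω] (U : ValuationSubring Ω) {c : Ω} (hc : c ∈ U) :
    (∃ z ∈ U, z ^ 2 = c) ∧ ∃ z ∈ U, z ^ 3 = c := by
  obtain ⟨z, hz⟩ := IsAlgClosed.exists_pow_nat_eq c (n := 2) (by norm_num)
  obtain ⟨w, hw⟩ := IsAlgClosed.exists_pow_nat_eq c (n := 3) (by norm_num)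
  exact ⟨⟨z, int4 U (zero_mem U) (neg_mem hc) (zero_mem U) (zero_mem U)
      (by linear_combination z ^ 2 * hz), hz⟩,
    w, int4 U (zero_mem U) (zero_mem U) (neg_mem hc) (zero_mem U)
      (by linear_combination w * hw), hw⟩

end ZFam

theorem zFam : FamS := by
  intro Ω _ _ _ U p j _ _
  haveI : IsLocalRing U.toSubring := inferInstanceAs (IsLocalRing U)
  have hn : ∀ n : ℕ, (n : Ω) ∈ U := fun n => natCast_mem U n
  have h1 : ¬Nu U.toSubring 1 := fun h => h.not ut_one
  refine ⟨fun hj => ?_, fun hj => ?_⟩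
  · rcases nu_or (D := U.toSubring) (hn 2) with h2 | h2
    · have h3 : Ut U.toSubring 3 := by
        have := (ut_one (D := U.toSubring)).add h2
        convert this using 1
        norm_num
      obtain ⟨B, hB⟩ := ZFam.ex4 (-72 : Ω) 1728 (-13824 - j) (27 * j)
      have hBU : B ∈ U := ZFam.int4 U (neg_mem (by exact_mod_cast hn 72)) (by exact_mod_cast hn 1728)
        (sub_mem (neg_mem (by exact_mod_cast hn 13824)) hj)
        (mul_mem (by exact_mod_cast hn 27) hj) hB
      obtain ⟨a, ha, e⟩ := (ZFam.root U hBU).2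
      have hu : Ut U.toSubring (B - 27) := by
        refine (nu_or (D := U.toSubring) (sub_mem hBU (by exact_mod_cast hn 27))).resolve_left
          fun h => ?_
        have h4 := h.mul (c := j - (B ^ 3 - 45 * B ^ 2 + 513 * B + 27))
          (sub_mem hj (add_mem (add_mem (sub_mem (pow_mem hBU 3)
            (mul_mem (by exact_mod_cast hn 45) (pow_mem hBU 2)))
            (mul_mem (by exact_mod_cast hn 513) hBU)) (by exact_mod_cast hn 27)))
        refine h4.not ?_
        convert h3.pow 6 using 1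
        linear_combination -hB
      have eD : (⟨a, 0, 1, 0, 0⟩ : WeierstrassCurve Ω).Δ = B - 27 := by
        simp only [WeierstrassCurve.Δ, WeierstrassCurve.b₂, WeierstrassCurve.b₄,
          WeierstrassCurve.b₆, WeierstrassCurve.b₈]
        linear_combination e
      refine ⟨⟨a, 0, 1, 0, 0⟩, ha, zero_mem U, one_mem U, zero_mem U, zero_mem U, eD ▸ hu, ?_⟩
      rw [eD]
      simp only [WeierstrassCurve.c₄, WeierstrassCurve.b₂, WeierstrassCurve.b₄]
      subst e
      linear_combination hB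
    · have h2' : Ut U.toSubring 2 := by exact_mod_cast h2
      have hk : j / 256 ∈ U := by
        have : j / 256 = j * (2 ^ 8)⁻¹ := by rw [div_eq_mul_inv]; norm_num
        rw [this]
        exact mul_mem hj (h2'.pow 8).2.2
      obtain ⟨T, hT⟩ := ZFam.ex3 (-(j / 256)) (j / 256)
      have hTU : T ∈ U := ZFam.int4 U (zero_mem U) (neg_mem hk) hk (zero_mem U)
        (by linear_combination T * hT)
      obtain ⟨a, ha, e⟩ := (ZFam.root U (add_mem hTU (by exact_mod_cast hn 3 : (3 : Ω) ∈ U))).1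
      have hu : Ut U.toSubring (T - 1) := by
        refine (nu_or (D := U.toSubring) (sub_mem hTU (one_mem U))).resolve_left fun h => h1 ?_
        have h4 := h.mul (c := j / 256 - (T ^ 2 + T + 1))
          (sub_mem hk (add_mem (add_mem (pow_mem hTU 2) hTU) (one_mem U)))
        convert h4 using 1
        linear_combination hT
      have eD : (⟨0, a, 0, 1, 0⟩ : WeierstrassCurve Ω).Δ = 2 ^ 4 * (T - 1) := by
        simp only [WeierstrassCurve.Δ, WeierstrassCurve.b₂, WeierstrassCurve.b₄,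
          WeierstrassCurve.b₆, WeierstrassCurve.b₈]
        linear_combination 16 * e
      refine ⟨⟨0, a, 0, 1, 0⟩, zero_mem U, ha, zero_mem U, one_mem U, zero_mem U,
        eD ▸ (h2'.pow 4).mul hu, ?_⟩
      rw [eD]
      simp only [WeierstrassCurve.c₄, WeierstrassCurve.b₂, WeierstrassCurve.b₄]
      have e' : T = a ^ 2 - 3 := by linear_combination -e
      subst e'
      linear_combination 4096 * hT
  · have hj0 : j ≠ 0 := fun h => hj (h ▸ zero_mem U)
    have hw : Nu U.toSubring j⁻¹ :=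
      ⟨(U.mem_or_inv_mem j).resolve_left hj, .inr (by rw [inv_inv]; exact hj)⟩
    have hex : ∃ e : Ω, Ut U.toSubring e ∧ e ^ 2 + e + 432 * j⁻¹ = 0 := by
      obtain ⟨e, he⟩ := ZFam.ex2 (432 * j⁻¹)
      have heU : e ∈ U := ZFam.int4 U (one_mem U) (mul_mem (by exact_mod_cast hn 432) hw.1)
        (zero_mem U) (zero_mem U) (by linear_combination e ^ 2 * he)
      rcases nu_or (D := U.toSubring) heU with h | h
      · refine ⟨-1 - e, ?_, by linear_combination he⟩
        refine (nu_or (D := U.toSubring) (sub_mem (neg_mem (one_mem U)) heU)).resolve_left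
          fun h' => h1 ?_
        convert (h.add h').neg using 1
        ring
      · exact ⟨e, h, he⟩
    obtain ⟨e, hu, he⟩ := hex
    have hc : Nu U.toSubring (e⁻¹ * j⁻¹) := hw.mul hu.2.2
    obtain ⟨γ, hγ, eγ⟩ := (ZFam.root U hc.1).1
    have he0 := hu.1
    refine ⟨γ, fun h => ?_, (nu_or (D := U.toSubring) hγ).resolve_right fun h => hc.not ?_, ?_⟩
    · rw [h] at eγ
      exact mul_ne_zero (inv_ne_zero he0) (inv_ne_zero hj0) (by rw [← eγ]; norm_num)
    · rw [← eγ]; exact h.pow 2
    · rw [eγ]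
      have e2 : 1 + 432 * (e⁻¹ * j⁻¹) = -e := by
        have : 432 * j⁻¹ = -(e ^ 2 + e) := by linear_combination he
        rw [mul_left_comm, this]
        field_simp
        ring
      rw [e2]
      field_simp

end Pool.Agent.MP_f3836a_nt.VE.Z
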