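import Pool.Agent.MP_f3836a_nt.VE.SpecZ3

/-! The generic point after extension of the constants. -/

set_option autoImplicit false

namespace Pool.Agent.MP_f3836a_nt.VE.Z

open Polynomial IsLocalRing PK VE.A VE.T VE.W

namespace ZGenL

variable {K : Type} [Field K] {R : Subring K} {x y : K} {a f : R[X]}

theorem nrm (ha : a.natDegree ≤ 1) (hf : f.natDegree = 3) {A B : R[X]}
    (h : A * (A - a * B) = f * B ^ 2) : A = 0 ∧ B = 0 := by
  by_cases hB : B = 0
  · exact ⟨by simpa [hB] using h, hB⟩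
  have h0 : f ≠ 0 := fun e => by simp [e] at hf
  have h1 := mul_ne_zero_iff.1 (h ▸ mul_ne_zero h0 (pow_ne_zero 2 hB))
  have h2 := congrArg natDegree h
  rw [natDegree_mul h1.1 h1.2, natDegree_mul h0 (pow_ne_zero 2 hB), natDegree_pow, hf] at h2
  have h3 := natDegree_mul_le (p := a) (q := B)
  have h4 := natDegree_sub_le A (a * B)
  rcases lt_or_ge (a * B).natDegree A.natDegree with h5 | h5
  · rw [natDegree_sub_eq_left_of_natDegree_lt h5] at h2
    omega
  · omega

theorem cnj (he : y ^ 2 + aeval x a * y = aeval x f) (A B : R[X]) :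
    gR x y A B * gR x y (A - a * B) (-B) = aeval x (A * (A - a * B) - f * B ^ 2) := by
  simp only [gR, map_sub, map_mul, map_neg, map_pow, ← he]
  ring

/-- the elements that have a normal form -/
def sf (ha : a.natDegree ≤ 1) (hf : f.natDegree = 3) (he : y ^ 2 + aeval x a * y = aeval x f)
    (tr : ∀ P : R[X], aeval x P = 0 → P = 0) : Subfield K where
  carrier := {z | ∃ A B D : R[X], D ≠ 0 ∧ z * aeval x D = gR x y A B}
  zero_mem' := ⟨0, 0, 1, one_ne_zero, by simp [gR]⟩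
  one_mem' := ⟨1, 0, 1, one_ne_zero, by simp [gR]⟩
  neg_mem' := fun ⟨A, B, D, h, e⟩ => ⟨-A, -B, D, h, by
    simp only [gR, map_neg] at e ⊢
    linear_combination -e⟩
  add_mem' := fun ⟨A, B, D, h, e⟩ ⟨A', B', D', h', e'⟩ =>
    ⟨A * D' + A' * D, B * D' + B' * D, D * D', mul_ne_zero h h', by
      simp only [gR, map_add, map_mul] at e e' ⊢
      linear_combination aeval x D' * e + aeval x D * e'⟩
  mul_mem' := fun {z z'} ⟨A, B, D, h, e⟩ ⟨A', B', D', h', e'⟩ =>
    ⟨A * A' + B * B' * f, A * B' + A' * B - a * B * B', D * D', mul_ne_zero h h', by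
      simp only [gR, map_add, map_mul, map_sub, ← he] at e e' ⊢
      linear_combination z' * aeval x D' * e + (aeval x A + aeval x B * y) * e'⟩
  inv_mem' := fun z ⟨A, B, D, h, e⟩ => by
    by_cases h0 : z = 0
    · exact ⟨0, 0, 1, one_ne_zero, by simp [gR, h0]⟩
    refine ⟨D * (A - a * B), D * -B, A * (A - a * B) - f * B ^ 2, fun h1 => ?_, ?_⟩
    · obtain ⟨rfl, rfl⟩ := nrm ha hf (sub_eq_zero.1 h1)
      exact h (tr D (by simpa [gR, h0] using e))
    · rw [← cnj he, ← e, mul_assoc, inv_mul_cancel_left₀ h0]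
      simp only [gR, map_mul]
      ring

theorem ae {S : Subfield K} (h : x ∈ S) (P : ℤ[X]) : aeval x P ∈ S := by
  rw [aeval_eq_sum_range]
  exact sum_mem fun i _ => zsmul_mem (pow_mem h i) _

end ZGenL

open ZGenL in
theorem zGenL : GenL := by
  intro W K _ _ x y _ hG K' _ _ _ L R π W' c x' y' hL hc hR hπ hf hv ⟨hu, hr, hs, ht⟩ ex ey
  have am : ∀ r : R, algebraMap R K' r = r := fun _ => rfl
  have ha : (aW W').natDegree ≤ 1 := by unfold aW; compute_degree
  have h3 : (cR W').natDegree = 3 := by unfold cR; compute_degree!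
  have he : y' ^ 2 + aeval x' (aW W') * y' = aeval x' (cR W') := by
    have e := congrArg (algebraMap K K') hG.eq
    obtain ⟨h1, h2, h3, h4, h6⟩ := WeierstrassCurve.ext_iff.1 hv
    simp only [WeierstrassCurve.variableChange_def, WeierstrassCurve.map, eq_intCast,
      Units.val_inv_eq_inv_val, Subring.coe_subtype] at h1 h2 h3 h4 h6
    simp only [eW, map_add, map_sub, map_mul, map_pow, map_intCast, map_zero, ex, ey] at e
    simp only [aW, cR, map_add, map_mul, map_pow, aeval_C, aeval_X, am, ← h1, ← h2, ← h3, ← h4,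
      ← h6]
    have := c.u.ne_zero
    field_simp
    linear_combination e
  have al : ∀ z ∈ L, IsAlgebraic ℤ z := fun z hz =>
    (IsFractionRing.isAlgebraic_iff ℤ ℚ K').2
      ((Algebra.IsAlgebraic.isAlgebraic (R := ℚ) (⟨z, hz⟩ : L)).algHom L.subtype.toRatAlgHom)
  have tr : ∀ P : R[X], aeval x' P = 0 → P = 0 := fun P hP => by
    by_contra h0
    have : Algebra.IsAlgebraic ℤ R := ⟨fun z =>
      (isAlgebraic_algHom_iff R.subtype.toIntAlgHom Subtype.val_injective).1 (al z (hR z.2))⟩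
    have h1 : IsAlgebraic ℤ x' := IsAlgebraic.restrictScalars ℤ (S := R) ⟨P, h0, hP⟩
    obtain ⟨p, h2, h4⟩ := (isAlgebraic_algHom_iff (algebraMap K K').toIntAlgHom
      (algebraMap K K').injective).1 (ex ▸ (((al _ hu).pow 2).mul h1).add (al _ hr) :)
    exact h2 (hG.ind p 0 (by simpa [gv] using h4)).1
  refine ⟨he, fun A B h => nrm ha h3 (sub_eq_zero.1 (tr _ (by rw [← cnj he, h, zero_mul]))),
    fun z => ?_⟩
  have m0 : L ≤ sf ha h3 he tr := fun z hz => by
    obtain ⟨n, hn⟩ := hf z hz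
    exact ⟨C ⟨_, hn⟩, 0, C (π ^ n), C_ne_zero.2 (pow_ne_zero _ hπ), by simp [gR, am, mul_comm]⟩
  have mx : x' ∈ sf ha h3 he tr := ⟨X, 0, 1, one_ne_zero, by simp [gR]⟩
  have my : y' ∈ sf ha h3 he tr := ⟨0, 1, 1, one_ne_zero, by simp [gR]⟩
  have nx : x ∈ (sf ha h3 he tr).comap (algebraMap K K') :=
    Subfield.mem_comap.2 (ex ▸ add_mem (mul_mem (pow_mem (m0 hu) 2) mx) (m0 hr))
  have ny : y ∈ (sf ha h3 he tr).comap (algebraMap K K') :=
    Subfield.mem_comap.2 (ey ▸ add_mem (add_mem (mul_mem (pow_mem (m0 hu) 3) my)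
      (mul_mem (mul_mem (pow_mem (m0 hu) 2) (m0 hs)) mx)) (m0 ht))
  refine (hc.ge.trans (Subfield.closure_le.2 (Set.union_subset ?_ m0)) : ⊤ ≤ sf ha h3 he tr) trivial
  rintro _ ⟨w, rfl⟩
  obtain ⟨A, B, D, h0, e⟩ := hG.frac w
  have h1 : aeval x D ≠ 0 := fun h => h0 (hG.ind D 0 (by simpa [gv] using h)).1
  exact Subfield.mem_comap.1 (eq_div_of_mul_eq h1 e ▸
    div_mem (add_mem (ae nx A) (mul_mem (ae nx B) ny)) (ae nx D))

end Pool.Agent.MP_f3836a_nt.VE.Z
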