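import Pool.Agent.MP_f3836a_nt.VE.SpecZ3

/-! Row Glob: a global model all of whose fibres are of one of three types. -/

set_option autoImplicit false

namespace Pool.Agent.MP_f3836a_nt.VE.Z

open Polynomial IsLocalRing PK VE.A VE.T VE.W

namespace ZGlob

theorem nf (W : WeierstrassCurve ℤ) {K : Type} [CommRing K] (x y : K) : 1728 * eW W x y =
    432 * (2 * y + W.a₁ * x + W.a₃) ^ 2 - (12 * x + W.b₂) ^ 3 + 3 * W.c₄ * (12 * x + W.b₂) +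
      2 * W.c₆ := by
  simp only [eW, WeierstrassCurve.c₄, WeierstrassCurve.c₆, WeierstrassCurve.b₂,
    WeierstrassCurve.b₄, WeierstrassCurve.b₆]
  push_cast
  ring

theorem iso (G : GnT) {W W' : WeierstrassCurve ℤ} {K : Type} [Field K] [CharZero K] {x y : K}
    (h0 : W.Δ ≠ 0) (h : Gn W x y) {m n : ℤ} (m0 : m ≠ 0) (n0 : n ≠ 0)
    (h4 : n ^ 4 * W'.c₄ = m ^ 4 * W.c₄) (h6 : n ^ 6 * W'.c₆ = m ^ 6 * W.c₆) :
    ∃ x' y' : K, Gn W' x' y' := by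
  obtain ⟨l, hl⟩ : ∃ l : ℚ, l = m / n := ⟨_, rfl⟩
  have l0 : l ≠ 0 := by rw [hl]; positivity
  have nK : (n : K) ≠ 0 := Int.cast_ne_zero.2 n0
  have e4 : (W'.c₄ : K) = (l : K) ^ 4 * W.c₄ := by
    rw [hl]; push_cast; field_simp; exact_mod_cast (mul_comm _ _).trans h4
  have e6 : (W'.c₆ : K) = (l : K) ^ 6 * W.c₆ := by
    rw [hl]; push_cast; field_simp; exact_mod_cast (mul_comm _ _).trans h6
  refine ⟨_, _, G W K x y h0 h W' _ _ (l ^ 2) ((l ^ 2 * W.b₂ - W'.b₂) / 12) (l ^ 3)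
    ((l ^ 3 * W.a₁ - W'.a₁ * l ^ 2) / 2)
    ((l ^ 3 * W.a₃ - W'.a₃ - W'.a₁ * ((l ^ 2 * W.b₂ - W'.b₂) / 12)) / 2)
    (pow_ne_zero _ l0) (pow_ne_zero _ l0) rfl rfl ?_⟩
  refine mul_left_cancel₀ (by norm_num : (1728 : K) ≠ 0) ?_
  have e := nf W x y
  rw [h.eq] at e
  rw [nf, e4, e6]
  push_cast
  linear_combination -(l : K) ^ 6 * e

theorem sqf {c : ℤ} (h : c ≠ 0) : ∃ d n : ℤ, c = n ^ 2 * d ∧
    ∀ p : ℕ, p.Prime → ¬(p : ℤ) ^ 2 ∣ d := by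
  obtain ⟨a, b, e, ha⟩ := Nat.sq_mul_squarefree c.natAbs
  refine ⟨c.sign * a, b, ?_, fun p hp hd => hp.not_isUnit (ha p ?_)⟩
  · rw [mul_left_comm]
    exact_mod_cast (Int.sign_mul_natAbs c).symm.trans (by rw [← e])
  · have := Int.natAbs_dvd_natAbs.2 hd
    simpa [Int.natAbs_mul, Int.natAbs_sign_of_ne_zero h, sq] using this

end ZGlob

open ZGlob

theorem zGlob : OfGlob := by
  intro G W K _ _ x y h0 h
  have cr := W.c_relation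
  have nd : ∀ p : ℕ, p.Prime → ¬(p : ℤ) ∣ 1 := fun p hp e =>
    hp.ne_one (Nat.dvd_one.1 (Int.natCast_dvd_natCast.1 e))
  by_cases c4 : W.c₄ = 0
  · exact ⟨W, x, y, h0, h, fun p hp => .inl ⟨0, 1, nd p hp, by simp [c4]⟩⟩
  by_cases c6 : W.c₆ = 0
  · exact ⟨W, x, y, h0, h, fun p hp => .inl ⟨1728, 1, nd p hp, by simp [cr, c6]⟩⟩
  obtain ⟨g, a, b, -, hab, ea, eb⟩ :=
    Int.exists_gcd_one' (Int.gcd_pos_of_ne_zero_left (W.c₆ ^ 2) h0)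
  obtain ⟨d, n, ed, hd⟩ := sqf (neg_ne_zero.2 (mul_ne_zero c4 c6))
  have nd0 := mul_ne_zero_iff.1 (ed ▸ neg_ne_zero.2 (mul_ne_zero c4 c6))
  have a0 : a ≠ 0 := left_ne_zero_of_mul (ea ▸ h0)
  have b0 : b ≠ 0 := left_ne_zero_of_mul (eb ▸ pow_ne_zero 2 c6)
  have hk : b * W.c₄ ^ 3 = W.c₆ ^ 2 * (b + 1728 * a) := by
    linear_combination -b * cr + 1728 * b * ea - 1728 * a * eb
  have k0 : b + 1728 * a ≠ 0 := right_ne_zero_of_mul (hk ▸ mul_ne_zero b0 (pow_ne_zero 3 c4))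
  obtain ⟨t, e, he, ht⟩ : ∃ t e : ℤ, 4 * e = t ^ 2 * (d - 1) ∧ (t = 1 ∨ t = 2 ∧ d % 4 ≠ 1) := by
    by_cases h1 : d % 4 = 1
    · exact ⟨1, d / 4, by omega, .inl rfl⟩
    · exact ⟨2, d - 1, by ring, .inr ⟨rfl, h1⟩⟩
  have t0 : t ≠ 0 := by omega
  obtain ⟨W', hW⟩ : ∃ W' : WeierstrassCurve ℤ, W' =
    ⟨b * t, b ^ 2 * e, 0, -36 * a * b ^ 3 * t ^ 4 * d ^ 2, -a * b ^ 5 * t ^ 6 * d ^ 3⟩ := ⟨_, rfl⟩
  have b2 : W'.b₂ = b ^ 2 * t ^ 2 * d := by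
    simp only [hW, WeierstrassCurve.b₂]
    linear_combination b ^ 2 * he
  have e4 : W'.c₄ = b ^ 3 * t ^ 4 * d ^ 2 * (b + 1728 * a) := by
    rw [WeierstrassCurve.c₄, b2]
    simp only [hW, WeierstrassCurve.b₄]
    ring
  have e6 : W'.c₆ = -(b ^ 5 * t ^ 6 * d ^ 3 * (b + 1728 * a)) := by
    rw [WeierstrassCurve.c₆, b2]
    simp only [hW, WeierstrassCurve.b₄, WeierstrassCurve.b₆]
    ring
  have eD : W'.Δ = b ^ 9 * t ^ 12 * d ^ 6 * (b + 1728 * a) ^ 2 * a :=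
    mul_left_cancel₀ (by norm_num : (1728 : ℤ) ≠ 0) (by rw [W'.c_relation, e4, e6]; ring)
  obtain ⟨x', y', h'⟩ := iso G (W' := W') h0 h (mul_ne_zero (mul_ne_zero b0 t0) c4)
    (pow_ne_zero_iff two_ne_zero |>.1 nd0.1) (by
      rw [e4]
      linear_combination -b ^ 3 * t ^ 4 * (b + 1728 * a) * (n ^ 2 * d - W.c₄ * W.c₆) * ed -
        b ^ 3 * t ^ 4 * W.c₄ ^ 2 * hk) (by
      rw [e6]
      linear_combination b ^ 5 * t ^ 6 * (b + 1728 * a) * ((n ^ 2 * d) ^ 2 -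
        n ^ 2 * d * (W.c₄ * W.c₆) + (W.c₄ * W.c₆) ^ 2) * ed -
        b ^ 5 * t ^ 6 * W.c₄ ^ 3 * W.c₆ * hk)
  have d0 := nd0.2
  refine ⟨W', x', y', by rw [eD]; positivity, h', fun p hp => ?_⟩
  by_cases pa : (p : ℤ) ∣ a
  swap
  · exact .inl ⟨b + 1728 * a, a, pa, by rw [e4, eD]; ring⟩
  have pb : ¬(p : ℤ) ∣ b := fun pb => nd p hp (by
    have := Int.dvd_coe_gcd pa pb
    rwa [hab] at this)
  by_cases hr : (p : ℤ) ∣ d ∧ ¬(p : ℤ) ^ 2 ∣ d ∨ p = 2 ∧ d % 4 = 3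
  · refine .inr (.inr ⟨b * t, d, a, b, mul_ne_zero b0 t0, pa, pb, ?_, ?_, ?_, ?_, ?_, hr⟩) <;>
      simp only [hW]
    · linear_combination b ^ 2 * he
    · ring
    · ring
  refine .inr (.inl fun hc => ?_)
  have pp := Nat.prime_iff_prime_int.1 hp
  have pd : ¬(p : ℤ) ∣ d := fun e => hr (.inl ⟨e, hd p hp⟩)
  rw [e4] at hc
  rcases pp.dvd_or_dvd hc with hc | hc
  · rcases pp.dvd_or_dvd hc with hc | hc
    · rcases pp.dvd_or_dvd hc with hc | hc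
      · exact pb (pp.dvd_of_dvd_pow hc)
      · have := pp.dvd_of_dvd_pow hc
        rcases ht with rfl | ⟨rfl, ht⟩
        · exact nd p hp this
        · obtain rfl : p = 2 :=
            (Nat.prime_dvd_prime_iff_eq hp Nat.prime_two).1 (Int.natCast_dvd_natCast.1 this)
          exact hr (.inr ⟨rfl, by push_cast at pd; omega⟩)
    · exact pd (pp.dvd_of_dvd_pow hc)
  · exact pb ((dvd_add_left (pa.mul_left _)).1 hc)

end Pool.Agent.MP_f3836a_nt.VE.Z
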