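import Pool.Agent.MP_f3836a_nt.VE.SpecZ3

/-! The link for a ramified twist. -/

set_option autoImplicit false

namespace Pool.Agent.MP_f3836a_nt.VE.Z

open Polynomial IsLocalRing PK VE.A VE.T VE.W

namespace ZLinkR

variable {K : Type} [Field K] {G : Subring K}

theorem ord_add (h : DvA G) {f g : K} (hf : f ≠ 0) (hg : g ≠ 0) (lt : ordR G f < ordR G g) :
    f + g ≠ 0 ∧ ordR G (f + g) = ordR G f := by
  have := h.loc
  have e1 : ordR G g = ordR G f + ordR G (g / f) := by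
    rw [← h.mul _ _ hf (div_ne_zero hg hf), mul_div_cancel₀ _ hf]
  have u : Ut G (1 + g / f) := ut_one.add ((h.nu _).2 (.inr (by omega)))
  have e2 : f + g = f * (1 + g / f) := by field_simp
  rw [e2]
  exact ⟨mul_ne_zero hf u.1, by rw [h.mul _ _ hf u.1, ((h.ut _).1 u).2, add_zero]⟩

theorem aeval_sub [IsLocalRing G] {a b : K} (ha : a ∈ G) (hb : b ∈ G) (e : Nu G (a - b))
    (P : ℤ[X]) : Nu G (aeval a P - aeval b P) := by
  induction P using Polynomial.induction_on' with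
  | add P Q hP hQ => convert hP.add hQ using 1; simp only [map_add]; ring
  | monomial n c =>
    convert (Nu.pow_sub ha hb e n).mul (intCast_mem G c) using 1
    simp only [aeval_monomial, eq_intCast]; ring

theorem ord_poly (h : DvA G) {p : ℕ} (hp : p.Prime) (p0 : (p : K) ≠ 0) {X : K}
    (hP : ∀ P : ℤ[X], ¬C (p : ℤ) ∣ P → Ut G (aeval X P)) {P : ℤ[X]} (P0 : P ≠ 0) :
    ∃ (k : ℕ) (Q : ℤ[X]), ¬C (p : ℤ) ∣ Q ∧ aeval X P = (p : K) ^ k * aeval X Q ∧ aeval X P ≠ 0 ∧
      ordR G (aeval X P) = k * ordR G p := by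
  obtain ⟨k, Q, hQ, rfl⟩ := WfDvdMonoid.max_power_factor' P0 (x := C (p : ℤ))
    fun e => (Nat.prime_iff_prime_int.1 hp).not_isUnit (isUnit_C.1 e)
  have u := hP Q hQ
  have e : aeval X (C (p : ℤ) ^ k * Q) = (p : K) ^ k * aeval X Q := by simp
  refine ⟨k, Q, hQ, e, e ▸ mul_ne_zero (pow_ne_zero _ p0) u.1, ?_⟩
  rw [e, h.mul _ _ (pow_ne_zero _ p0) u.1, ((h.ut _).1 u).2, ← zpow_natCast, h.zpow _ _ p0, add_zero]

theorem odd_ne {e s : ℤ} (he : 0 < e) (hs : 2 * s = e) (k l : ℤ) : k * e + s ≠ l * e := fun q => by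
  have : (2 * (k - l) + 1) * e = 0 := by linarith
  rcases mul_eq_zero.1 this with q | q <;> omega

theorem core (h : DvA G) {p : ℕ} (hp : p.Prime) (p0 : (p : K) ≠ 0) (pn : Nu G p) {X η Z : K}
    (hP : ∀ P : ℤ[X], ¬C (p : ℤ) ∣ P → Ut G (aeval X P)) (η0 : η ≠ 0)
    (ho : 2 * ordR G η = ordR G p) (hZ : Ut G Z) {A B D : ℤ[X]} (hD : D ≠ 0)
    (e : Z * aeval X D = aeval X A + aeval X B * η) :
    ∃ A0 D0 : ℤ[X], ¬C (p : ℤ) ∣ D0 ∧ Nu G (Z * aeval X D0 - aeval X A0) := by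
  have he : 0 < ordR G p := ((h.nu _).1 pn).resolve_left p0
  obtain ⟨k, D0, hD0, eD, nD, oD⟩ := ord_poly h hp p0 hP hD
  have nL := mul_ne_zero hZ.1 nD
  have oL : ordR G (Z * aeval X D) = k * ordR G p := by
    rw [h.mul _ _ hZ.1 nD, ((h.ut _).1 hZ).2, oD, zero_add]
  have hT : B = 0 ∨ aeval X B * η ≠ 0 ∧ ∀ l : ℤ, ordR G (aeval X B * η) ≠ l * ordR G p := by
    refine or_iff_not_imp_left.2 fun hB => ?_
    obtain ⟨j, -, -, -, nB, oB⟩ := ord_poly h hp p0 hP hB
    exact ⟨mul_ne_zero nB η0, fun l => by rw [h.mul _ _ nB η0, oB]; exact odd_ne he ho _ _⟩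
  have hA : A ≠ 0 := by
    rintro rfl
    rw [map_zero, zero_add] at e
    rcases hT with rfl | hT
    · exact nL (by simpa using e)
    · exact hT.2 k (e ▸ oL)
  obtain ⟨l, A0, -, eA, nA, oA⟩ := ord_poly h hp p0 hP hA
  have key : ordR G (aeval X A) = k * ordR G p ∧
      (aeval X B * η = 0 ∨ k * ordR G p < ordR G (aeval X B * η)) := by
    rcases hT with rfl | hT
    · rw [map_zero, zero_mul, add_zero] at e
      exact ⟨e ▸ oL, .inl (by simp)⟩
    rcases lt_trichotomy (ordR G (aeval X A)) (ordR G (aeval X B * η)) with q | q | q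
    · have := (ord_add h nA hT.1 q).2
      rw [← e, oL] at this
      exact ⟨this.symm, .inr (this ▸ q)⟩
    · exact (hT.2 l (q ▸ oA)).elim
    · have := (ord_add h hT.1 nA q).2
      rw [add_comm, ← e, oL] at this
      exact (hT.2 k this.symm).elim
  obtain rfl : l = k := by exact_mod_cast mul_right_cancel₀ he.ne' (oA.symm.trans key.1)
  refine ⟨A0, D0, hD0, ?_⟩
  have pk := pow_ne_zero l p0
  have e2 : Z * aeval X D0 - aeval X A0 = aeval X B * η * (p : K) ^ (-(l : ℤ)) := by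
    rw [eD, eA] at e
    rw [zpow_neg, zpow_natCast]
    field_simp
    linear_combination e
  rw [e2]
  by_cases z : aeval X B * η = 0
  · rw [z, zero_mul]; exact nu_zero
  refine (h.nu _).2 (.inr ?_)
  have := key.2.resolve_left z
  rw [h.mul _ _ z (zpow_ne_zero _ p0), h.zpow _ _ p0]
  linarith

theorem nd {p : ℕ} {b : ℤ} (hb : ¬(p : ℤ) ∣ b) {P : ℤ[X]} (n : ℕ) (e : P.coeff n = b) :
    ¬C (p : ℤ) ∣ P := fun q => hb (e ▸ (C_dvd_iff_dvd_coeff _ _).1 q n)

/-- the element of half order -/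
theorem half (h : DvA G) {p : ℕ} (hp : p.Prime) (p0 : (p : K) ≠ 0) (pn : Nu G p) {X η : K}
    (hP : ∀ P : ℤ[X], ¬C (p : ℤ) ∣ P → Ut G (aeval X P)) {a b d : ℤ} (hb : ¬(p : ℤ) ∣ b)
    (e : b * η ^ 2 = d * (b * (4 * X ^ 3 + X ^ 2) - a * (144 * X + 4)))
    (hd : (p : ℤ) ∣ d ∧ ¬(p : ℤ) ^ 2 ∣ d ∨ p = 2 ∧ d % 4 = 3) :
    ∃ ε : ℤ, η + ε * X ≠ 0 ∧ 2 * ordR G (η + ε * X) = ordR G p := by
  have he : 0 < ordR G p := ((h.nu _).1 pn).resolve_left p0
  have ub : Ut G b := by simpa using hP (C b) (nd hb 0 (by simp))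
  have oq : ∀ {f w : K}, Ut G w → b * f = p * w → f ≠ 0 ∧ ordR G f = ordR G p := by
    intro f w uw q
    have f0 : f ≠ 0 := fun z => mul_ne_zero p0 uw.1 (by rw [← q, z, mul_zero])
    have := congrArg (ordR G) q
    rw [h.mul _ _ ub.1 f0, h.mul _ _ p0 uw.1, ((h.ut _).1 ub).2, ((h.ut _).1 uw).2] at this
    exact ⟨f0, by linarith⟩
  rcases hd with ⟨⟨d', rfl⟩, hd⟩ | ⟨rfl, hd⟩
  · have hd' : ¬(p : ℤ) ∣ d' * b := fun q =>
      ((Nat.prime_iff_prime_int.1 hp).dvd_or_dvd q).elim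
        (fun q => hd (by rw [sq]; exact mul_dvd_mul_left _ q)) hb
    have u := hP (monomial 3 (4 * d' * b) + monomial 2 (d' * b) - monomial 1 (144 * d' * a) -
      monomial 0 (4 * d' * a)) (nd hd' 2 (by simp only [coeff_add, coeff_sub, coeff_monomial]; simp))
    have := oq (f := η * η) u (by
      simp only [map_sub, map_add, aeval_monomial, eq_intCast]
      push_cast at e ⊢
      linear_combination e)
    have η0 := left_ne_zero_of_mul this.1
    refine ⟨0, by simpa using η0, ?_⟩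
    rw [← this.2, h.mul _ _ η0 η0, Int.cast_zero, zero_mul, add_zero, two_mul]
  · obtain ⟨k, rfl⟩ : ∃ k, d = 4 * k + 3 := ⟨d / 4, by omega⟩
    have hd' : ¬((2 : ℕ) : ℤ) ∣ (2 * k + 1) * b := fun q =>
      ((Nat.prime_iff_prime_int.1 hp).dvd_or_dvd q).elim (by omega) hb
    have u := hP (monomial 3 (2 * (4 * k + 3) * b) + monomial 2 ((2 * k + 1) * b) -
      monomial 1 (72 * (4 * k + 3) * a) - monomial 0 (2 * (4 * k + 3) * a))
      (nd hd' 2 (by simp only [coeff_add, coeff_sub, coeff_monomial]; simp))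
    have := oq (f := (η + X) * (η - X)) u (by
      simp only [map_sub, map_add, aeval_monomial, eq_intCast]
      push_cast at e ⊢
      linear_combination e)
    have n1 := left_ne_zero_of_mul this.1
    have n2 := right_ne_zero_of_mul this.1
    have s := this.2
    rw [h.mul _ _ n1 n2] at s
    have uX : Ut G X := by simpa using hP Polynomial.X (nd (b := 1) (by decide) 1 (by simp))
    have on : ∀ {f : K}, f ≠ 0 → ordR G (-f) = ordR G f := fun {f} f0 => by
      have m : Ut G (-1) := ⟨by simp, by simp, by simp⟩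
      rw [← neg_one_mul, h.mul _ _ m.1 f0, ((h.ut _).1 m).2, zero_add]
    have o2 : ordR G (η + X + -(η - X)) = ordR G ((2 : ℕ) : K) := by
      rw [show η + X + -(η - X) = ((2 : ℕ) : K) * X by push_cast; ring, h.mul _ _ p0 uX.1,
        ((h.ut _).1 uX).2, add_zero]
    refine ⟨1, by simpa using n1, ?_⟩
    rw [Int.cast_one, one_mul]
    rcases lt_trichotomy (ordR G (η + X)) (ordR G (-(η - X))) with q | q | q
    · have := (ord_add h n1 (neg_ne_zero.2 n2) q).2
      rw [on n2] at q; omega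
    · rw [on n2] at q; omega
    · have := (ord_add h (neg_ne_zero.2 n2) n1 q).2
      rw [add_comm, o2] at this
      rw [on n2] at q this; omega

theorem int_nd {R : Subring K} {π : R} (h : Bs R π) {p : ℕ} (hp : p.Prime) (np : ¬IsUnit (p : R))
    {P : ℤ[X]} (hP : ¬C (p : ℤ) ∣ P) : ¬C π ∣ P.map (algebraMap ℤ R) := fun q => hP <|
  (C_dvd_iff_dvd_coeff _ _).2 fun n => by
    by_contra hn
    have := h.dvr
    have q1 := h.dvd.1 ((C_dvd_iff_dvd_coeff _ _).1 q n)
    obtain ⟨s, t, e⟩ := (Nat.prime_iff_prime_int.1 hp).irreducible.coprime_iff_not_dvd.2 hn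
    have e' : (s : R) * p + t * (P.map (algebraMap ℤ R)).coeff n = 1 := by
      rw [coeff_map, eq_intCast]; exact_mod_cast congrArg (Int.cast : ℤ → R) e
    exact (isUnit_or_isUnit_of_isUnit_add (e' ▸ isUnit_one)).elim
      (fun z => np (isUnit_of_mul_isUnit_right z)) fun z => q1 (isUnit_of_mul_isUnit_right z)

end ZLinkR

open ZLinkR in
theorem zLinkR : OfLinkR := by
  intro dv W K _ _ x y _ gn _ K' _ _ p R π γ c x' y' G hp hγ pk gs
  rintro ⟨u, d, a, b, u0, -, hb, a1, a2, a3, a4, a6, hd⟩ z hz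
  have h := dv _ _ gs.dvr
  have := h.loc
  have inj := (algebraMap K K').injective
  have : CharZero K' := charZero_of_injective_algebraMap inj
  have le : R ≤ G := fun t ht => gs.le (Subring.subset_closure (.inl ht))
  have hx : x' ∈ G := gs.le (Subring.subset_closure (.inr (by simp)))
  have nπ : Nu G π := (h.nu _).2 (.inr (by rw [gs.ord]; exact one_pos))
  have pn : Nu G p := by simpa using pk.bs.nu le nπ pk.np
  have p0 : (p : K') ≠ 0 := Nat.cast_ne_zero.2 hp.ne_zero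
  have gn' : Nu G γ := pk.bs.nu le nπ hγ
  have b0 : (b : K') ≠ 0 := Int.cast_ne_zero.2 fun e => hb (e ▸ dvd_zero _)
  have d0 : (d : K') ≠ 0 := Int.cast_ne_zero.2 (by
    rintro rfl
    rcases hd with hd | hd
    · exact hd.2 (dvd_zero _)
    · omega)
  have u0' : (u : K') ≠ 0 := Int.cast_ne_zero.2 u0
  have c0 := c.u.ne_zero
  have A1 : (W.a₁ : K') = u := by exact_mod_cast a1
  have A2 : 4 * (W.a₂ : K') = u ^ 2 * (d - 1) := by exact_mod_cast a2
  have A3 : (W.a₃ : K') = 0 := by exact_mod_cast a3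
  have A4 : (b : K') * W.a₄ = -36 * a * u ^ 4 * d ^ 2 := by exact_mod_cast a4
  have A6 : (b : K') * W.a₆ = -a * u ^ 6 * d ^ 3 := by exact_mod_cast a6
  have v2 := congrArg WeierstrassCurve.b₂ pk.vc
  have v4 := congrArg WeierstrassCurve.c₄ pk.vc
  have v6 := congrArg WeierstrassCurve.c₆ pk.vc
  rw [WeierstrassCurve.variableChange_b₂] at v2
  rw [WeierstrassCurve.variableChange_c₄] at v4
  rw [WeierstrassCurve.variableChange_c₆] at v6
  simp only [WeierstrassCurve.c₄, WeierstrassCurve.c₆, WeierstrassCurve.b₂, WeierstrassCurve.b₄,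
    WeierstrassCurve.b₆, WeierstrassCurve.map_a₁, WeierstrassCurve.map_a₂, WeierstrassCurve.map_a₃,
    WeierstrassCurve.map_a₄, WeierstrassCurve.map_a₆, nW, eq_intCast, map_one, map_zero, map_pow,
    Subring.coe_subtype, Units.val_inv_eq_inv_val, A1, A2, A3] at v2 v4 v6
  field_simp at v2 v4 v6
  have hm : (c.u : K') ^ 2 * (1 + 864 * γ ^ 2) = u ^ 2 * d := by
    refine mul_left_cancel₀ (mul_ne_zero b0 (pow_ne_zero 4 c0)) ?_
    linear_combination b * v6 + b * u ^ 2 * d * v4 - 24 * u ^ 2 * d * A4 + 864 * A6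
  have hr : c.r = -72 * γ ^ 2 * (c.u : K') ^ 2 := by linear_combination (1 / 12) * v2 + (1 / 12) * hm
  have γm : (γ : K') ∈ G := gn'.1
  have uw : Ut G (1 + 864 * (γ : K') ^ 2) := by
    rw [sq, ← mul_assoc]; exact ut_one.add (gn'.mul (G.mul_mem (ofNat_mem G 864) γm))
  have m0 : (u : K') ^ 2 * d ≠ 0 := mul_ne_zero (pow_ne_zero _ u0') d0
  obtain ⟨X, hX⟩ : ∃ X, algebraMap K K' x = u ^ 2 * d * X := ⟨_, (mul_div_cancel₀ _ m0).symm⟩
  have nX : Nu G (X - x') := by
    have e : X - x' = -(γ * (72 + 864 * x') * (1 + 864 * (γ : K') ^ 2)⁻¹) * γ := by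
      refine mul_left_cancel₀ (mul_ne_zero (pow_ne_zero 2 c0) uw.1) ?_
      linear_combination pk.ex - hX + hr + X * hm +
        (c.u : K') ^ 2 * γ ^ 2 * (72 + 864 * x') * mul_inv_cancel₀ uw.1
    exact e ▸ gn'.mul (G.neg_mem (G.mul_mem (G.mul_mem γm (G.add_mem (ofNat_mem G 72)
      (G.mul_mem (ofNat_mem G 864) hx))) uw.2.2))
  have Xm : X ∈ G := by simpa using G.add_mem nX.1 hx
  have ea : ∀ P : ℤ[X], aeval x' (P.map (algebraMap ℤ R)) = aeval x' P := fun P =>
    aeval_map_algebraMap R x' P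
  have hP : ∀ P : ℤ[X], ¬C (p : ℤ) ∣ P → Ut G (aeval X P) := fun P nP => by
    have m : aeval x' P ∈ G := by
      rw [aeval_eq_sum_range]
      exact G.sum_mem fun i _ => G.zsmul_mem (G.pow_mem hx _) _
    have := ((nu_or m).resolve_left fun q => int_nd pk.bs hp pk.np nP
      ((gs.nu _ 0).1 (by rwa [gR, ea, map_zero, zero_mul, add_zero])).1).add (aeval_sub Xm hx nX P)
    simpa using this
  obtain ⟨η, hη⟩ : ∃ η, 2 * algebraMap K K' y + u * algebraMap K K' x = u ^ 3 * d * η :=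
    ⟨_, (mul_div_cancel₀ _ (mul_ne_zero (pow_ne_zero _ u0') d0)).symm⟩
  have eq := congrArg (algebraMap K K') gn.eq
  simp only [eW, map_sub, map_add, map_mul, map_pow, map_intCast, map_zero, A1, A3, hX] at eq
  rw [hX] at hη
  obtain ⟨ε, η0, ho⟩ := half h hp p0 pn hP hb (a := a) (η := η) (by
    refine mul_left_cancel₀ (pow_ne_zero 2 (mul_ne_zero (pow_ne_zero 3 u0') d0)) ?_
    linear_combination 4 * b * eq + b * (u ^ 2 * d * X) ^ 2 * A2 + 4 * u ^ 2 * d * X * A4 + 4 * A6 -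
      b * (2 * algebraMap K K' y + u * (u ^ 2 * d * X) + u ^ 3 * d * η) * hη) hd
  obtain ⟨A, B, D, D0, e⟩ := gn.frac z
  have e' := congrArg (algebraMap K K') e
  obtain ⟨T, ec⟩ : ∃ T : ℤ[X], ∀ P : ℤ[X], algebraMap K K' (aeval x P) = aeval X (P.comp T) :=
    ⟨C (u ^ 2 * d) * Polynomial.X, fun P => by rw [aeval_comp, ← aeval_algebraMap_apply, hX]; simp⟩
  simp only [gv, map_add, map_mul, ec] at e'
  have hZ : Ut G (algebraMap K K' z) :=
    ⟨(_root_.map_ne_zero _).2 hz.1, hz.2.1, by rw [← map_inv₀]; exact hz.2.2⟩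
  obtain ⟨A0, D1, nD, q⟩ := core h hp p0 pn hP η0 ho hZ
    (A := 2 * A.comp T - B.comp T * monomial 1 (u ^ 3 * d * (ε + 1)))
    (B := B.comp T * monomial 0 (u ^ 3 * d)) (D := 2 * D.comp T)
    (mul_ne_zero two_ne_zero fun z => D0 (gn.ind D 0 (inj (by simp [gv, ec, z]))).1) (by
      simp only [map_sub, map_mul, aeval_monomial, map_ofNat, eq_intCast]
      push_cast
      linear_combination 2 * e' + aeval X (B.comp T) * hη)
  refine ⟨1, A0.map (algebraMap ℤ R), D1.map (algebraMap ℤ R), one_pos, int_nd pk.bs hp pk.np nD, ?_⟩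
  rw [ea, ea, pow_one]
  convert (q.sub ((aeval_sub Xm hx nX D1).mul hZ.2.1)).add (aeval_sub Xm hx nX A0) using 1
  ring

end Pool.Agent.MP_f3836a_nt.VE.Z
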