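import Pool.Agent.MP_f3836a_nt.VE.SpecZ3

/-! Row ZLinkU: the fibre of the semistable model lies above the fibre of the integral model. -/

set_option autoImplicit false

namespace Pool.Agent.MP_f3836a_nt.VE.Z

open Polynomial IsLocalRing PK VE.A VE.T VE.W

namespace ZLinkU

variable {K : Type} [Field K] {R G : Subring K} {π : R} {x y : K}

theorem int4 (h : ∀ z, z ∈ G ∨ z⁻¹ ∈ G) {z a b c d : K} (ha : a ∈ G) (hb : b ∈ G) (hc : c ∈ G)
    (hd : d ∈ G) (e : z ^ 4 + a * z ^ 3 + b * z ^ 2 + c * z + d = 0) : z ∈ G := by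
  rcases h z with h1 | h1
  · exact h1
  rcases eq_or_ne z 0 with rfl | h0
  · exact G.zero_mem
  have : z = -(a + b * z⁻¹ + c * z⁻¹ ^ 2 + d * z⁻¹ ^ 3) := by
    field_simp
    linear_combination e
  rw [this]
  exact G.neg_mem (G.add_mem (G.add_mem (G.add_mem ha (G.mul_mem hb h1))
    (G.mul_mem hc (G.pow_mem h1 _))) (G.mul_mem hd (G.pow_mem h1 _)))

theorem int2 (h : ∀ z, z ∈ G ∨ z⁻¹ ∈ G) {z a b : K} (ha : a ∈ G) (hb : b ∈ G)
    (e : z ^ 2 + a * z + b = 0) : z ∈ G :=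
  int4 h ha hb G.zero_mem G.zero_mem (by linear_combination z ^ 2 * e)

theorem unit_int {p : ℕ} (hb : Bs R π) (hp : p.Prime) (np : ¬IsUnit (p : R)) {n : ℤ}
    (hn : ¬(p : ℤ) ∣ n) : IsUnit (n : R) := by
  have := hb.dvr
  obtain ⟨a, b, e⟩ := (Nat.prime_iff_prime_int.1 hp).irreducible.coprime_iff_not_dvd.2 hn
  have e' : (a : R) * p + b * n = 1 := by exact_mod_cast congrArg (Int.cast : ℤ → R) e
  rcases isUnit_or_isUnit_of_isUnit_add (e' ▸ isUnit_one) with h | h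
  · exact absurd (isUnit_of_mul_isUnit_right h) np
  · exact isUnit_of_mul_isUnit_right h

theorem le_G (hG : Gs π x y G) : R ≤ G := fun _ hz =>
  hG.le (Subring.subset_closure (.inl hz))

theorem gR_mem (hG : Gs π x y G) (A B : R[X]) : gR x y A B ∈ G := by
  have hx : x ∈ G := hG.le (Subring.subset_closure (.inr (by simp)))
  have hy : y ∈ G := hG.le (Subring.subset_closure (.inr (by simp)))
  have h : ∀ P : R[X], aeval x P ∈ G := fun P => by
    rw [aeval_eq_sum_range]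
    exact G.sum_mem fun i _ => G.mul_mem (le_G hG (P.coeff i).2) (G.pow_mem hx i)
  exact G.add_mem (h A) (G.mul_mem (h B) hy)

theorem lemA (hb : Bs R π) (hG : Gs π x y G) (hn : Nu G (π : K)) (n : ℕ) :
    ∀ z ∈ G, (π : K) ^ n * z ∈ R → z ∈ R := by
  induction n with
  | zero => intro z _ h; simpa using h
  | succ n ih =>
    intro z hz h
    have h1 : z * π ∈ R := ih _ (G.mul_mem hz hn.1) (by rwa [mul_comm z, ← mul_assoc, ← pow_succ])
    have h2 := ((hG.nu (C ⟨_, h1⟩) 0).1 (by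
      have e : gR x y (C (⟨_, h1⟩ : R)) 0 = z * π := by
        simp only [gR, aeval_C, map_zero, zero_mul, add_zero]
        rfl
      rw [e]
      exact hn.mul hz)).1
    obtain ⟨d, hd⟩ := (C_dvd_iff_dvd_coeff _ _).1 h2 0
    rw [coeff_C_zero] at hd
    have h3 : z * π = π * d := congrArg Subtype.val hd
    rw [mul_comm] at h3
    rw [mul_left_cancel₀ hb.ne h3]
    exact d.2

/-- substitution of an affine function -/
noncomputable def st (a b : R) (P : ℤ[X]) : R[X] :=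
  P.eval₂ (Int.castRingHom R[X]) (C a * X + C b)

theorem alg_st {S : Type} [CommRing S] [Algebra R S] (a b : R) (P : ℤ[X]) (w : S) :
    aeval w (st a b P) =
      P.eval₂ (Int.castRingHom S) (algebraMap R S a * w + algebraMap R S b) := by
  have := hom_eval₂ P (Int.castRingHom R[X]) (aeval w : R[X] →ₐ[R] S).toRingHom (C a * X + C b)
  rw [RingHom.ext_int (RingHom.comp _ _) (Int.castRingHom S)] at this
  refine this.trans (congrArg (fun v => P.eval₂ (Int.castRingHom S) v) ?_)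
  simp

theorem st_dvd {p : ℕ} (hb : Bs R π) (hp : p.Prime) (np : ¬IsUnit (p : R)) {a b : R}
    (ha : IsUnit a) {P : ℤ[X]} (h : C π ∣ st a b P) : C (p : ℤ) ∣ P := by
  obtain ⟨a', e⟩ := ha.exists_right_inv
  have h1 := map_dvd (aeval (C a' * (X - C b) : R[X]) : R[X] →ₐ[R] R[X]) h
  have e1 : algebraMap R R[X] a * (C a' * (X - C b)) + algebraMap R R[X] b = X := by
    rw [algebraMap_eq, ← mul_assoc, ← C_mul, e]
    simp
  rw [alg_st, e1, aeval_C, algebraMap_eq] at h1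
  have e2 : P.eval₂ (Int.castRingHom R[X]) X = P.map (Int.castRingHom R) := by
    rw [RingHom.ext_int (Int.castRingHom R[X]) (C.comp (Int.castRingHom R))]
    rfl
  rw [e2, C_dvd_iff_dvd_coeff] at h1
  refine (C_dvd_iff_dvd_coeff _ _).2 fun n => ?_
  by_contra hn
  have h2 := h1 n
  rw [coeff_map] at h2
  exact hb.dvd.1 h2 (unit_int hb hp np hn)

theorem mem_R {W : WeierstrassCurve ℤ} {p : ℕ} {x0 y0 : K} {γ : R}
    {c : WeierstrassCurve.VariableChange K} (hp : p.Prime) (h : Pk W p x0 y0 R π (nW γ) c x y)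
    (hG : Gs π x y G) (hD : DvA G) (h4 : ¬(p : ℤ) ∣ W.c₄) :
    (c.u : K) ∈ R ∧ (c.u : K)⁻¹ ∈ R ∧ c.r ∈ R ∧ c.s ∈ R ∧ c.t ∈ R := by
  have hn : Nu G (π : K) := (hD.nu _).2 (.inr (by rw [hG.ord]; exact one_pos))
  have hi : ∀ n : ℤ, (n : K) ∈ G := fun n => intCast_mem G n
  have hγ : (γ : K) ∈ G := le_G hG γ.2
  have u0 : (c.u : K) ≠ 0 := c.u.ne_zero
  have e4 := congrArg WeierstrassCurve.c₄ h.vc
  have e6 := congrArg WeierstrassCurve.b₆ h.vc
  have e8 := congrArg WeierstrassCurve.b₈ h.vc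
  have f2 := congrArg WeierstrassCurve.a₂ h.vc
  have f6 := congrArg WeierstrassCurve.a₆ h.vc
  rw [WeierstrassCurve.variableChange_c₄, WeierstrassCurve.map_c₄, WeierstrassCurve.map_c₄] at e4
  rw [WeierstrassCurve.variableChange_b₆] at e6
  rw [WeierstrassCurve.variableChange_b₈] at e8
  rw [WeierstrassCurve.variableChange_a₂] at f2
  rw [WeierstrassCurve.variableChange_a₆] at f6
  have n4 : (nW γ).c₄ = 1 := by simp [nW, WeierstrassCurve.c₄, WeierstrassCurve.b₂,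
    WeierstrassCurve.b₄]
  have n6 : (nW γ).b₆ = 4 * γ ^ 2 := by simp [nW, WeierstrassCurve.b₆]
  have n8 : (nW γ).b₈ = γ ^ 2 := by simp [nW, WeierstrassCurve.b₈]
  have m2 : (nW γ).a₂ = 0 := rfl
  have m6 : (nW γ).a₆ = γ ^ 2 := rfl
  simp only [WeierstrassCurve.map_b₂, WeierstrassCurve.map_b₄, WeierstrassCurve.map_b₆,
    WeierstrassCurve.map_b₈, WeierstrassCurve.map_a₁, WeierstrassCurve.map_a₂,
    WeierstrassCurve.map_a₃, WeierstrassCurve.map_a₄, WeierstrassCurve.map_a₆, n4, n6, n8, m2, m6,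
    eq_intCast, map_one, map_zero, map_mul, map_pow, map_ofNat, Subring.subtype_apply,
    Units.val_inv_eq_inv_val] at e4 e6 e8 f2 f6
  have hc := (ut_iff _).2 (unit_int h.bs hp h.np h4)
  have hc' : ((W.c₄ : ℤ) : K)⁻¹ ∈ G := le_G hG (by simpa using hc.2.2)
  have z := G.zero_mem
  field_simp at e4 e6 e8 f2 f6
  have hu : (c.u : K) ∈ G := int4 hD.val z z z (G.neg_mem (hi W.c₄)) (by linear_combination -e4)
  have hu' : (c.u : K)⁻¹ ∈ G := int4 hD.val z z z (G.neg_mem hc') (by rw [e4]; simp)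
  have hr : c.r ∈ G := int4 hD.val z (G.neg_mem (hi W.b₄))
    (G.neg_mem (G.add_mem (G.mul_mem (ofNat_mem G 2) (hi W.b₆)) (G.mul_mem (G.pow_mem hu 6)
      (G.mul_mem (ofNat_mem G 4) (G.pow_mem hγ 2)))))
    (G.sub_mem (G.mul_mem (G.pow_mem hu 8) (G.pow_mem hγ 2)) (hi W.b₈))
    (by linear_combination c.r * e6 - e8)
  have hs : c.s ∈ G := int2 hD.val (hi W.a₁)
    (G.neg_mem (G.add_mem (hi W.a₂) (G.mul_mem (ofNat_mem G 3) hr))) (by linear_combination -f2)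
  have ht : c.t ∈ G := int2 hD.val (G.add_mem (hi W.a₃) (G.mul_mem hr (hi W.a₁)))
    (G.sub_mem (G.mul_mem (G.pow_mem hu 6) (G.pow_mem hγ 2)) (G.add_mem (G.add_mem (G.add_mem
      (hi W.a₆) (G.mul_mem hr (hi W.a₄))) (G.mul_mem (G.pow_mem hr 2) (hi W.a₂)))
      (G.pow_mem hr 3))) (by linear_combination -f6)
  have k : ∀ w ∈ G, w ∈ ({(c.u : K), (c.u : K)⁻¹, c.r, c.s, c.t} : Set K) → w ∈ R :=
    fun w hw hw' => (h.fr w hw').elim fun n e => lemA h.bs hG hn n w hw e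
  exact ⟨k _ hu (by simp), k _ hu' (by simp), k _ hr (by simp), k _ hs (by simp), k _ ht (by simp)⟩

end ZLinkU

open ZLinkU in
theorem zLinkU : OfLinkU := by
  intro _ hDv W K _ _ x y _ _ hA K' _ _ p R π γ c x' y' G hp _ h hG h4
  have hD := hDv K' G hG.dvr
  have hn : Nu G (π : K') := (hD.nu _).2 (.inr (by rw [hG.ord]; exact one_pos))
  obtain ⟨hu, hu', hr, hs, ht⟩ := mem_R hp h hG hD h4
  obtain ⟨u, eu⟩ : ∃ u : R, algebraMap R K' u = c.u := ⟨⟨_, hu⟩, rfl⟩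
  obtain ⟨r, er⟩ : ∃ r : R, algebraMap R K' r = c.r := ⟨⟨_, hr⟩, rfl⟩
  obtain ⟨s, es⟩ : ∃ s : R, algebraMap R K' s = c.s := ⟨⟨_, hs⟩, rfl⟩
  obtain ⟨t, et⟩ : ∃ t : R, algebraMap R K' t = c.t := ⟨⟨_, ht⟩, rfl⟩
  have uu : IsUnit u := (ut_iff u).1 (by
    rw [show (u : K') = c.u from eu]
    exact ⟨c.u.ne_zero, hu, hu'⟩)
  have hst : ∀ P : ℤ[X], aeval x' (st (u ^ 2) r P) = algebraMap K K' (aeval x P) := by
    intro P
    rw [alg_st, map_pow, eu, er, ← h.ex, aeval_def, hom_eval₂,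
      RingHom.ext_int (RingHom.comp _ _) (Int.castRingHom K')]
  have hgv : ∀ A B : ℤ[X], algebraMap K K' (gv x y A B) = gR x' y' (st (u ^ 2) r A +
      st (u ^ 2) r B * (C (u ^ 2 * s) * X + C t)) (C (u ^ 3) * st (u ^ 2) r B) := by
    intro A B
    simp only [gv, gR, map_add, map_mul, map_pow, hst, aeval_C, aeval_X, h.ey, eu, es, et]
    ring
  refine ⟨⟨hp, _, (hA.pr p hp).1, rfl, ?_⟩, ?_⟩
  · have hq := (hA.pr p hp).1
    have hV : Dvr (lc (A1 x y) (Ideal.span {(p : A1 x y)})) :=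
      ⟨hA.dim2.dvr _ (by simpa using (hA.pr p hp).2.2) (hA.pr p hp).2.1, fun z => by
        obtain ⟨a, b, hb, e⟩ := hA.frac z
        exact ⟨⟨a, le_lc _ _ a.2⟩, ⟨b, le_lc _ _ b.2⟩, hb, e⟩⟩
    refine ((hDv K _ hV).max _ fun z hz => ?_).resolve_right fun e => ?_
    · obtain ⟨a, b, hb, e⟩ := mem_lc.1 hz
      obtain ⟨A, B, ea⟩ := (hA.mem a).1 a.2
      obtain ⟨A', B', eb⟩ := (hA.mem b).1 b.2
      have h1 : algebraMap K K' a ∈ G := by rw [ea, hgv]; exact gR_mem hG _ _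
      have h2 : Ut G (algebraMap K K' b) := by
        rw [eb, hgv]
        refine (nu_or (gR_mem hG _ _)).resolve_left fun h3 => hb ((hA.memp p b A' B' eb).2 ?_)
        obtain ⟨h5, h6⟩ := (hG.nu _ _).1 h3
        have h7 := ((isUnit_C.2 (uu.pow 3)).dvd_mul_left).1 h6
        exact ⟨st_dvd h.bs hp h.np (uu.pow 2) ((dvd_add_left (h7.mul_right _)).1 h5),
          st_dvd h.bs hp h.np (uu.pow 2) h7⟩
      rw [Subring.mem_comap, (mul_inv_cancel_right₀ h2.1 (algebraMap K K' z)).symm, ← map_mul, e]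
      exact G.mul_mem h1 h2.2.2
    · have h1 : Nu G (p : K') := by simpa using h.bs.nu (le_G hG) hn h.np
      have h2 : (p : K)⁻¹ ∈ G.comap (algebraMap K K') := e ▸ Subring.mem_top _
      rw [Subring.mem_comap, map_inv₀, map_natCast] at h2
      refine h1.2.elim (fun h3 => hp.ne_zero ?_) fun h3 => h3 h2
      rw [← map_natCast (algebraMap K K'), map_eq_zero] at h3
      exact_mod_cast h3
  · rintro z ⟨j, q, q', hj, hq, e⟩
    refine ⟨j, st (u ^ 2) r q, st (u ^ 2) r q', hj,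
      fun h1 => hq (st_dvd h.bs hp h.np (uu.pow 2) h1), ?_⟩
    rw [hst, hst, ← map_pow, ← map_mul, ← map_sub]
    refine ⟨e.1, e.2.imp (fun h1 => by rw [h1, map_zero]) fun h1 h2 => h1 ?_⟩
    rwa [Subring.mem_comap, map_inv₀]

end Pool.Agent.MP_f3836a_nt.VE.Z
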