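import Pool.Agent.MP_f3836a_nt.VE.SpecZ3

/-! The local theorem over the rationals. -/

set_option autoImplicit false

namespace Pool.Agent.MP_f3836a_nt.VE.Z

open Polynomial IsLocalRing PK VE.A VE.T VE.W

namespace ZLocK

section
variable {K K' : Type} [Field K] [Field K'] (f : K →+* K') (V : Subring K') (z : K)

theorem nu_cm : Nu (V.comap f) z ↔ Nu V (f z) := by
  simp only [Nu, Subring.mem_comap, map_inv₀, map_eq_zero]

theorem tor_cm : Tor (V.comap f) z ↔ Tor V (f z) := by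
  simp only [Tor, nu_cm, map_sub, map_pow, map_one]

theorem ho_cm : Ho (V.comap f) ↔ Ho V := by
  simp only [Ho, Subring.mem_comap, map_inv₀, map_natCast]

end

variable {K : Type} [Field K] {R V : Subring K} {π : R}

theorem aeval_mem (h : R ≤ V) {x : K} (hx : x ∈ V) (q : R[X]) : aeval x q ∈ V := by
  rw [aeval_eq_sum_range]
  exact V.sum_mem fun i _ => V.mul_mem (h (q.coeff i).2) (V.pow_mem hx i)

theorem sym_pow {x y u : K} (hb : Bs R π) (hG : Gs π x y V) (h : Sym π x V u) (e : ℕ) :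
    Sym π x V (u ^ e) := by
  obtain ⟨j, q, q', hj, h1, h2⟩ := h
  have := hb.dvr
  have hq : aeval x q ∈ V := aeval_mem (fun z hz => hG.le (Subring.subset_closure (.inl hz)))
    (hG.le (Subring.subset_closure (.inr (.inl rfl)))) q
  refine ⟨j, q ^ e, q' ^ e, hj, fun d => h1 ((prime_C_iff.2 hb.irr.prime).dvd_of_dvd_pow d), ?_⟩
  have := Nu.pow_sub (by simpa using V.add_mem h2.1 hq) hq h2 e
  rwa [mul_pow, ← pow_mul, mul_comm j, pow_mul, ← map_pow, ← map_pow] at this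

theorem ho_of [CharZero K] (hb : Bs R π) (le : R ≤ V) (hu : Ut V π) : Ho V := fun n hn => by
  obtain ⟨k, u, e⟩ := hb.eq (c := (n : R)) fun e => hn (by
    exact_mod_cast (congrArg Subtype.val e : ((n : R) : K) = (0 : R)))
  have e' : (n : K) = (u : R) * (π : K) ^ k := by exact_mod_cast congrArg Subtype.val e
  exact e' ▸ ((((ut_iff _).2 u.isUnit).mono le).mul (hu.pow k)).2.2

theorem mem_of {W : WeierstrassCurve ℤ} {p : ℕ} {x y x' y' : K} {W' : WeierstrassCurve R}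
    {c : WeierstrassCurve.VariableChange K} (h : Pk W p x y R π W' c x' y') (le : R ≤ V)
    (hu : Ut V π) (hx : x' ∈ V) : x ∈ V := by
  have k : ∀ z ∈ ({(c.u : K), (c.u : K)⁻¹, c.r, c.s, c.t} : Set K), z ∈ V := fun z hz => by
    obtain ⟨n, hn⟩ := h.fr z hz
    have := V.mul_mem (hu.pow n).2.2 (le hn)
    rwa [inv_mul_cancel_left₀ (hu.pow n).1] at this
  rw [h.ex]
  exact V.add_mem (V.mul_mem (V.pow_mem (k _ (by simp)) 2) hx) (k _ (by simp))

theorem alg_mem [CharZero K] (hV : DvA V) (ho : Ho V) {z : K} (h : IsAlgebraic ℤ z) : z ∈ V := by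
  obtain ⟨n, hn, q, h1, h2⟩ := h.exists_integral_multiple
  have h3 : n • z ∈ V := hV.int _ (q.map (algebraMap ℤ V)) (h1.map _) (by
    rw [aeval_map_algebraMap]; exact h2)
  have h4 : (n : K)⁻¹ ∈ V := by
    obtain ⟨m, rfl | rfl⟩ := n.eq_nat_or_neg
    · exact_mod_cast ho m (by simpa using hn)
    · rw [Int.cast_neg, inv_neg]
      exact V.neg_mem (by exact_mod_cast ho m (by simpa using hn))
  have := V.mul_mem h4 h3
  rwa [zsmul_eq_mul, inv_mul_cancel_left₀ (Int.cast_ne_zero.2 hn)] at this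

theorem frac [CharZero K] (hb : Bs R π) {p : ℕ} (hp : p.Prime) (np : ¬IsUnit (p : R)) {a b : ℤ}
    (h0 : a ≠ 0) (ha : (p : ℤ) ∣ a) (h : ¬(p : ℤ) ∣ b) :
    ∃ c : R, c ≠ 0 ∧ ¬IsUnit c ∧ (c : K) = a / b := by
  have := hb.dvr
  obtain ⟨s, t, e⟩ := ((Nat.prime_iff_prime_int.1 hp).irreducible.coprime_iff_not_dvd.2 h).map
    (Int.castRingHom R)
  obtain ⟨w, hw⟩ := (isUnit_of_mul_isUnit_right
    ((isUnit_or_isUnit_of_isUnit_add (e ▸ isUnit_one)).resolve_left fun u =>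
      np (by simpa using isUnit_of_mul_isUnit_right u))).exists_right_inv
  have hw' : (w : K) = (b : K)⁻¹ :=
    eq_inv_of_mul_eq_one_right (by exact_mod_cast congrArg Subtype.val hw)
  obtain ⟨d, rfl⟩ := ha
  refine ⟨((p * d : ℤ) : R) * w, mul_ne_zero (fun e => h0 ?_) (right_ne_zero_of_mul_eq_one hw),
    fun u => np ?_, by rw [Subring.coe_mul, hw', div_eq_mul_inv, Subring.coe_intCast]⟩
  · exact_mod_cast (congrArg Subtype.val e : (((p * d : ℤ) : R) : K) = (0 : R))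
  · have := isUnit_of_mul_isUnit_left u
    push_cast at this
    exact isUnit_of_mul_isUnit_left this

end ZLocK

open ZLocK in
theorem zLocK : OfLocK := by
  intro hD hA hB hE hR hP hU hL hG hN hLoc W K _ _ x y hΔ hGn hCh hT ι _ ξ ψ V₀ V p hCo hHz hS
    hV₀ ho hx hV hp hNu
  obtain ⟨K', _, _, _, R, π, W', c, x', y', V', pk, dV', cV', le', nπ⟩ :=
    hP W K x y hΔ hGn V p hV hp hNu
  have : CharZero K' := charZero_of_injective_algebraMap (algebraMap K K').injective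
  obtain ⟨ψ', hCo', hψ⟩ := hE K K' ι ξ ψ hCo
  have rz : RZ ψ' := (hR K' ι _ ψ' hCo').1
  have hz : Hz π x' ψ' := fun U dU le u hx' => by
    obtain ⟨e, -, he⟩ := hψ U dU
    rw [he]
    exact ((tor_cm _ _ _).1 (hHz _ (hA K K' U dU).1 ((ho_cm _ _).2 (ho_of pk.bs le u))
      (mem_of pk le u hx' :))).pow e
  have af : AfT R x' y' ψ' := by
    rcases pk.typ with h | ⟨h, γ, h0, h1, rfl⟩
    · exact hG K' R π x' y' pk.bs W' ψ' pk.wc h rz hz
    refine hN K' R π x' y' pk.bs γ ψ' h0 h1 pk.wc rz hz fun G g => ?_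
    obtain ⟨e, -, he⟩ := hψ G g.dvr
    rw [he]
    refine sym_pow pk.bs g ?_ e
    rcases (hT p hp).resolve_left h with h2 | h2
    · obtain ⟨a, b⟩ := hU W K x y hΔ hGn hCh K' p R π γ c x' y' G hp h1 pk g h2
      exact b _ (hS _ a)
    · exact hL W K x y hΔ hGn hCh K' p R π γ c x' y' G hp h1 pk g h2 _
        (hCo.us _ (hA K K' G g.dvr).1)
  obtain ⟨U, dU, rfl⟩ := (hB K K').2 V₀ hV₀
  have al : ∀ z : K', IsAlgebraic ℤ z → z ∈ U := fun z => alg_mem (hD K' U dU) ((ho_cm _ _).1 ho)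
  have le : R ≤ U := fun z hz => al z (pk.alg ⟨z, hz⟩)
  have u : Ut U π := ⟨pk.bs.ne, le π.2, al _ (pk.alg π).inv⟩
  obtain ⟨l1, l2⟩ := hLoc K' R π x' y' pk.bs W' ψ' U pk.wc rz af dU le u
    fun h => hx (mem_of pk le u h :)
  obtain ⟨e, he0, he⟩ := hψ U dU
  refine ⟨fun a b i h0 ha hb h => ?_, fun h => ?_⟩
  · obtain ⟨d, d0, d1, d2⟩ := frac pk.bs hp pk.np h0 ha hb
    have h1 := (nu_cm _ _ _).1 h
    rw [map_sub, map_zpow₀, map_div₀, map_intCast, map_intCast, ← d2] at h1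
    have h2 : algebraMap K K' (ψ (U.comap (algebraMap K K'))) ∈ U := (hCo.us _ hV₀).2.1
    have h3 := Nu.pow_sub h2 (by simpa using U.sub_mem h2 h1.1) h1 e
    rw [← he, ← zpow_natCast, ← zpow_mul] at h3
    exact (mul_eq_zero.1 (l1 d _ d0 d1 h3)).resolve_right (Int.natCast_ne_zero.2 he0.ne')
  · obtain ⟨e', he1, he'⟩ := hψ V' dV'
    have := l2 (he ▸ ((tor_cm _ _ _).1 h).pow e) V' dV' le' nπ
    rw [he'] at this
    exact cV' ▸ (tor_cm _ _ _).2 (this.of_pow he1)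

end Pool.Agent.MP_f3836a_nt.VE.Z
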