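import Pool.Agent.MP_f3836a_nt.VE.SpecZ3

/-! The semistable model over the base ring. -/

set_option autoImplicit false

namespace Pool.Agent.MP_f3836a_nt.VE.Z

open WeierstrassCurve VE.W

namespace ZPack

variable {K : Type} [Field K]

theorem coef_mem (L : Subfield K) (W : WeierstrassCurve ℤ) (c : VariableChange K)
    (h : (c.u : K) ∈ L ∧ c.r ∈ L ∧ c.s ∈ L ∧ c.t ∈ L) {W' : WeierstrassCurve K}
    (e : c • W.map (Int.castRingHom K) = W') :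
    W'.a₁ ∈ L ∧ W'.a₂ ∈ L ∧ W'.a₃ ∈ L ∧ W'.a₄ ∈ L ∧ W'.a₆ ∈ L := by
  obtain ⟨hu, hr, hs, ht⟩ := h
  have hi : ((c.u⁻¹ : Kˣ) : K) ∈ L := by rw [Units.val_inv_eq_inv_val]; exact inv_mem hu
  have h2 : (2 : K) ∈ L := ofNat_mem L 2
  have h3 : (3 : K) ∈ L := ofNat_mem L 3
  have a1 : (W.map (Int.castRingHom K)).a₁ ∈ L := intCast_mem L _
  have a2 : (W.map (Int.castRingHom K)).a₂ ∈ L := intCast_mem L _
  have a3 : (W.map (Int.castRingHom K)).a₃ ∈ L := intCast_mem L _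
  have a4 : (W.map (Int.castRingHom K)).a₄ ∈ L := intCast_mem L _
  have a6 : (W.map (Int.castRingHom K)).a₆ ∈ L := intCast_mem L _
  subst e
  rw [variableChange_a₁, variableChange_a₂, variableChange_a₃, variableChange_a₄, variableChange_a₆]
  refine ⟨?_, ?_, ?_, ?_, ?_⟩ <;> apply_rules (maxDepth := 200) [mul_mem, add_mem, sub_mem, pow_mem]

theorem alg [CharZero K] (L : Subfield K) (h : FiniteDimensional ℚ L) {z : K} (hz : z ∈ L) :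
    IsAlgebraic ℤ z :=
  ((IsFractionRing.isAlgebraic_iff ℤ ℚ L).2
    (Algebra.IsAlgebraic.isAlgebraic (⟨z, hz⟩ : L))).algHom L.subtype.toIntAlgHom

end ZPack

theorem zPack : OfPack := by
  intro hB hA hG W K _ _ x y hΔ gn V p dv pp nu
  obtain ⟨K', _, _, _, _, L, V', W', c, fd, cl, dv', cm, vc, hc, hV, typ⟩ :=
    hA K W V p hΔ dv pp nu
  have nu' : Nu V' (p : K') := ⟨natCast_mem V' p, .inr fun h => nu.2.elim
    (Nat.cast_ne_zero.2 pp.ne_zero) fun e => e (by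
      rw [← cm, Subring.mem_comap, map_inv₀, map_natCast]; exact h)⟩
  obtain ⟨π, bs, nπ, fr⟩ := hB K' L V' p fd dv' pp nu'
  have hL := ZPack.coef_mem L W c hc vc
  have fr' : ∀ z ∈ L, ∃ n : ℕ, (π : K') ^ n * z ∈ (V' ⊓ L.toSubring : Subring K') := fun z hz =>
    (fr z hz).imp fun n h => ⟨h, L.mul_mem (L.pow_mem π.2.2 n) hz⟩
  have nu2 : ∀ z : (V' ⊓ L.toSubring : Subring K'), Nu V' z → ¬IsUnit z := fun z h u =>
    h.not (((ut_iff z).2 u).mono inf_le_left)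
  let W3 : WeierstrassCurve (V' ⊓ L.toSubring : Subring K') :=
    ⟨⟨W'.a₁, hV.1, hL.1⟩, ⟨W'.a₂, hV.2.1, hL.2.1⟩, ⟨W'.a₃, hV.2.2.1, hL.2.2.1⟩,
      ⟨W'.a₄, hV.2.2.2.1, hL.2.2.2.1⟩, ⟨W'.a₆, hV.2.2.2.2, hL.2.2.2.2⟩⟩
  have e3 : W' = W3.map (Subring.subtype _) := rfl
  have u0 : (c.u : K') ≠ 0 := c.u.ne_zero
  obtain ⟨x', ex⟩ : ∃ x', algebraMap K K' x = (c.u : K') ^ 2 * x' + c.r :=
    ⟨(algebraMap K K' x - c.r) / c.u ^ 2, by field_simp; ring⟩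
  obtain ⟨y', ey⟩ :
      ∃ y', algebraMap K K' y = (c.u : K') ^ 3 * y' + (c.u : K') ^ 2 * c.s * x' + c.t :=
    ⟨(algebraMap K K' y - c.u ^ 2 * c.s * x' - c.t) / c.u ^ 3, by field_simp; ring⟩
  refine ⟨K', _, _, ‹_›, _, π, W3, c, x', y', V', ⟨bs, hG W K x y hΔ gn K' L _ π W3 c x' y' fd cl
    inf_le_right bs.irr.ne_zero fr' (vc.trans e3) hc ex ey, nu2 _ (by simpa using nu'), ex, ey,
    vc.trans e3, ?_, fun z => ZPack.alg L fd z.2.2, ?_⟩, dv', cm, inf_le_left, nπ⟩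
  · rintro z (rfl | rfl | rfl | rfl | rfl)
    exacts [fr' _ hc.1, fr' _ (inv_mem hc.1), fr' _ hc.2.1, fr' _ hc.2.2.1, fr' _ hc.2.2.2]
  · refine typ.imp (fun u => (ut_iff _).1 ?_) (And.imp_right ?_)
    · have e : W'.Δ = W3.Δ := by rw [e3]; exact map_Δ _ _
      rw [e] at u
      exact ⟨u.1, W3.Δ.2, u.2.2, L.inv_mem W3.Δ.2.2⟩
    · rintro ⟨γ, hγ, γ0, nγ, e⟩
      refine ⟨⟨γ, nγ.1, hγ⟩, fun z => γ0 (congrArg Subtype.val z), nu2 _ nγ, ?_⟩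
      subst e
      rfl

end Pool.Agent.MP_f3836a_nt.VE.Z
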