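import Pool.Agent.MP_f3836a_nt.VE.SpecZ3

/-! A semistable equation after a finite extension of the constants. -/

set_option autoImplicit false

namespace Pool.Agent.MP_f3836a_nt.VE.Z

open Polynomial IsLocalRing PK VE.A VE.T VE.W

namespace ZPackA

open WeierstrassCurve

section
variable {F F' : Type} [Field F] [Field F']

theorem ut_map (f : F →+* F') (U : Subring F') (z : F) : Ut (U.comap f) z ↔ Ut U (f z) := by
  simp only [Ut, Subring.mem_comap, map_inv₀, _root_.map_ne_zero]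

theorem nu_map (f : F →+* F') (U : Subring F') (z : F) : Nu (U.comap f) z ↔ Nu U (f z) := by
  simp only [Nu, Subring.mem_comap, map_inv₀, map_eq_zero]

/-- the semistable shape -/
def Sh (P : Prop) (U : Subring F) (E : WeierstrassCurve F) (γ : F) : Prop :=
  (E.a₁ ∈ U ∧ E.a₂ ∈ U ∧ E.a₃ ∈ U ∧ E.a₄ ∈ U ∧ E.a₆ ∈ U) ∧
    (Ut U E.Δ ∨ P ∧ γ ≠ 0 ∧ Nu U γ ∧ E = ⟨1, 0, 0, 0, γ ^ 2⟩)

theorem sh_map (P : Prop) (f : F →+* F') (U : Subring F') (E : WeierstrassCurve F) (γ : F) :
    Sh P (U.comap f) E γ ↔ Sh P U (E.map f) (f γ) := by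
  have e : E = ⟨1, 0, 0, 0, γ ^ 2⟩ ↔ E.map f = ⟨1, 0, 0, 0, f γ ^ 2⟩ := by
    rw [← (map_injective f.injective).eq_iff]
    simp [WeierstrassCurve.map]
  simp only [Sh, ut_map, nu_map, map_Δ, e, Subring.mem_comap, map_a₁, map_a₂, map_a₃, map_a₄,
    map_a₆, _root_.map_ne_zero]

theorem vc_map (f : F →+* F') (W : WeierstrassCurve ℤ) (c : VariableChange F) :
    (c • W.map (Int.castRingHom F)).map f = c.map f • W.map (Int.castRingHom F') := by
  rw [← map_variableChange, WeierstrassCurve.map_map, RingHom.eq_intCast' (f.comp _)]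

theorem iso [IsAlgClosed F] (E E' : WeierstrassCurve F) (j : F) (h : E.Δ ≠ 0) (h' : E'.Δ ≠ 0)
    (e : E.c₄ ^ 3 = j * E.Δ) (e' : E'.c₄ ^ 3 = j * E'.Δ) : ∃ c : VariableChange F, c • E = E' := by
  have : E.IsElliptic := ⟨h.isUnit⟩
  have : E'.IsElliptic := ⟨h'.isUnit⟩
  refine exists_variableChange_of_j_eq E E' ?_
  simp only [WeierstrassCurve.j, Units.val_inv_eq_inv_val, coe_Δ', e, e']
  field_simp

theorem closed (hS : FamS) [IsAlgClosed F] [CharZero F] (U : ValuationSubring F)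
    (W : WeierstrassCurve ℤ) (p : ℕ) (h : W.Δ ≠ 0) (hp : p.Prime) (hU : Nu U.toSubring p) :
    ∃ (c : VariableChange F) (γ : F),
      Sh (¬PG W p) U.toSubring (c • W.map (Int.castRingHom F)) γ := by
  have hΔ : (W.Δ : F) ≠ 0 := Int.cast_ne_zero.2 h
  have h0 : (W.map (Int.castRingHom F)).Δ ≠ 0 := by simpa using h
  have e0 : (W.map (Int.castRingHom F)).c₄ ^ 3 =
      (W.c₄ : F) ^ 3 / W.Δ * (W.map (Int.castRingHom F)).Δ := by
    simp only [map_c₄, map_Δ, eq_intCast]; field_simp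
  obtain ⟨h1, h2⟩ := hS F U p ((W.c₄ : F) ^ 3 / W.Δ) hp hU
  by_cases hj : (W.c₄ : F) ^ 3 / W.Δ ∈ U
  · obtain ⟨E, a1, a2, a3, a4, a6, u, e⟩ := h1 hj
    obtain ⟨c, hc⟩ := iso _ E _ h0 u.1 e0 e
    exact ⟨c, 0, hc ▸ ⟨⟨a1, a2, a3, a4, a6⟩, .inl u⟩⟩
  · obtain ⟨γ, g0, gn, e⟩ := h2 hj
    have d : (⟨1, 0, 0, 0, γ ^ 2⟩ : WeierstrassCurve F).Δ = -(γ ^ 2 * (1 + 432 * γ ^ 2)) := by
      simp only [WeierstrassCurve.Δ, b₂, b₄, b₆, b₈]; ring
    have d' : (⟨1, 0, 0, 0, γ ^ 2⟩ : WeierstrassCurve F).c₄ = 1 := by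
      simp only [c₄, b₂, b₄]; ring
    obtain ⟨c, hc⟩ := iso _ ⟨1, 0, 0, 0, γ ^ 2⟩ _ h0 (d ▸ right_ne_zero_of_mul_eq_one e) e0
      (by rw [d, d', e, one_pow])
    refine ⟨c, γ, hc ▸ ⟨⟨U.one_mem, U.zero_mem, U.zero_mem, U.zero_mem,
      U.toSubring.pow_mem gn.1 2⟩, .inr ⟨?_, g0, gn, rfl⟩⟩⟩
    rintro ⟨a, b, hb, eb⟩
    obtain ⟨x, y, hxy⟩ := (Nat.prime_iff_prime_int.1 hp).irreducible.coprime_iff_not_dvd.2 hb
    have hl : IsLocalRing U.toSubring := inferInstanceAs (IsLocalRing U)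
    have ub : Ut U.toSubring (b : F) := (nu_or (intCast_mem _ b)).resolve_left fun n => by
      have := (hU.mul (intCast_mem _ x)).add (n.mul (intCast_mem _ y))
      rw [show (x : F) * (p : F) + y * b = 1 by exact_mod_cast hxy] at this
      exact this.not ut_one
    have eb' : (W.c₄ : F) ^ 3 * b = a * W.Δ := by exact_mod_cast eb
    refine hj ?_
    rw [show (W.c₄ : F) ^ 3 / W.Δ = a * (b : F)⁻¹ by
      have := ub.1
      field_simp
      linear_combination eb']
    exact U.toSubring.mul_mem (intCast_mem _ a) ub.2.2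

end

theorem sub {K Ω : Type} [Field K] [Field Ω] [Algebra K Ω] [CharZero Ω] (S : Set Ω)
    (hf : S.Finite) (hS : ∀ z ∈ S, IsIntegral ℚ z) [CharZero (IntermediateField.adjoin K S)] :
    ∃ L : Subfield (IntermediateField.adjoin K S), FiniteDimensional ℚ L ∧
      Subfield.closure (Set.range (algebraMap K (IntermediateField.adjoin K S)) ∪ L) = ⊤ ∧
      ∀ z : IntermediateField.adjoin K S, z.1 ∈ S → z ∈ L := by
  let T : Set (IntermediateField.adjoin K S) := Subtype.val ⁻¹' S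
  have : Finite T := (hf.preimage Subtype.val_injective.injOn).to_subtype
  have fd := IntermediateField.finiteDimensional_adjoin (K := ℚ) (S := T) fun z hz =>
    (isIntegral_algHom_iff (RingHom.toRatAlgHom (IntermediateField.adjoin K S).val.toRingHom)
      Subtype.val_injective).1 (hS z.1 hz)
  refine ⟨(IntermediateField.adjoin ℚ T).toSubfield, by convert fd using 1 <;> rfl, eq_top_iff.2 ?_,
    fun z hz => IntermediateField.subset_adjoin ℚ T hz⟩
  rintro ⟨z, hz⟩ -
  induction hz using IntermediateField.adjoin_induction with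
  | mem x hx => exact Subfield.subset_closure (.inr (IntermediateField.subset_adjoin ℚ T hx))
  | algebraMap x => exact Subfield.subset_closure (.inl ⟨x, rfl⟩)
  | add x y hx hy a b => exact add_mem a b
  | inv x hx a => exact inv_mem a
  | mul x y hx hy a b => exact mul_mem a b

end ZPackA

open ZPackA WeierstrassCurve in
theorem zPackA : OfPackA := by
  intro hB hC hS K _ _ W V p hΔ hV hp hn
  obtain ⟨U, hU⟩ := hC K (AlgebraicClosure K) V hV
  have alg : Algebra.IsAlgebraic ℚ (AlgebraicClosure ℚ) := by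
    convert AlgebraicClosure.isAlgebraic ℚ <;> rfl
  let io : AlgebraicClosure ℚ →ₐ[ℚ] AlgebraicClosure K := IsAlgClosed.lift
  have hp' : Nu U.toSubring p := by
    rw [← hU, nu_map, map_natCast] at hn
    exact hn
  obtain ⟨c, γ, h⟩ := closed hS (U.comap io.toRingHom) W p hΔ hp
    ((nu_map io.toRingHom U.toSubring _).2 (by rw [map_natCast]; exact hp'))
  have h1 := (sh_map _ io.toRingHom U.toSubring _ _).1 h
  rw [vc_map] at h1
  let S : Set (AlgebraicClosure K) := io '' {(c.u : AlgebraicClosure ℚ), c.r, c.s, c.t, γ}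
  have hf : S.Finite := (Set.toFinite _).image _
  have hi : ∀ z ∈ S, IsIntegral ℚ z := by
    rintro _ ⟨z, -, rfl⟩
    exact (alg.isAlgebraic z).isIntegral.map io
  have : Finite S := hf.to_subtype
  let K' := IntermediateField.adjoin K S
  have fd : FiniteDimensional K K' :=
    IntermediateField.finiteDimensional_adjoin fun z _ => Algebra.IsIntegral.isIntegral z
  have cz : CharZero K' := algebraRat.charZero _
  obtain ⟨L, hL, ht, hm⟩ := sub (K := K) S hf hi
  let g : ∀ z ∈ ({(c.u : AlgebraicClosure ℚ), c.r, c.s, c.t, γ} : Set _), K' := fun z hz =>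
    ⟨io z, IntermediateField.subset_adjoin K S ⟨z, hz, rfl⟩⟩
  have gm : ∀ z hz, g z hz ∈ L := fun z hz => hm _ ⟨z, hz, rfl⟩
  let c' : VariableChange K' := ⟨Units.mk0 (g c.u (by simp)) fun e => c.u.ne_zero
    ((map_eq_zero io).1 (congrArg Subtype.val e)), g c.r (by simp), g c.s (by simp), g c.t (by simp)⟩
  have ec : c'.map K'.subtype = c.map io.toRingHom := by
    ext <;> rfl
  have h2 : Sh (¬PG W p) (U.toSubring.comap K'.subtype) (c' • W.map (Int.castRingHom K'))
      (g γ (by simp)) := by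
    rw [sh_map, vc_map, ec]
    exact h1
  have ev : (U.toSubring.comap K'.subtype).comap (algebraMap K K') = V := hU
  exact ⟨K', inferInstance, inferInstance, fd, cz, L, _, _, c', hL, ht,
    (hB K K').1 (U.comap K'.subtype) (ev ▸ hV :), ev, rfl,
    ⟨gm _ (by simp), gm _ (by simp), gm _ (by simp), gm _ (by simp)⟩, h2.1,
    h2.2.imp_right fun e => ⟨e.1, _, gm γ (by simp), e.2⟩⟩

end Pool.Agent.MP_f3836a_nt.VE.Z
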