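import Pool.Agent.MP_f3836a_nt.VE.SpecZ3

/-! Reduction to families which are trivial at the finite places. -/

set_option autoImplicit false

namespace Pool.Agent.MP_f3836a_nt.VE.Z

open Polynomial IsLocalRing PK VE.A VE.T VE.W

namespace ZPrim

theorem fs {A B : Type} (f : A ⊕ B → ℚ) (h : f.support.Finite) :
    ∑ᶠ i, f i = ∑ᶠ a, f (.inl a) + ∑ᶠ b, f (.inr b) := by
  obtain ⟨h1, h2⟩ := Set.finite_preimage_inl_and_inr.2 h
  rw [finsum_eq_sum_of_support_subset _ (s := h1.toFinset.disjSum h2.toFinset) (by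
      rintro (a | a) e <;> simpa using e), Finset.sum_disjSum,
    finsum_eq_sum_of_support_subset _ (s := h1.toFinset) fun a e => by simpa using e,
    finsum_eq_sum_of_support_subset _ (s := h2.toFinset) fun a e => by simpa using e]

variable {κ : Type} [Field κ]

theorem av_one {l : κ → ℚ} (h : Addv l) : l 1 = 0 := by
  simpa using h 1 1 one_ne_zero one_ne_zero

theorem av_zpow {l : κ → ℚ} (h : Addv l) {a : κ} (ha : a ≠ 0) (k : ℤ) : l (a ^ k) = k * l a := by
  induction k using Int.induction_on with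
  | zero => simpa using av_one h
  | succ k ih =>
    rw [zpow_add_one₀ ha, h _ _ (zpow_ne_zero _ ha) ha, ih]
    push_cast
    ring
  | pred k ih =>
    have := h _ _ (zpow_ne_zero (-k - 1 : ℤ) ha) ha
    rw [← zpow_add_one₀ ha, sub_add_cancel, ih] at this
    push_cast at this ⊢
    linear_combination -this

theorem az_one {d : κ → ℤ} (h : Adz d) : d 1 = 0 := by
  simpa using h 1 1 one_ne_zero one_ne_zero

theorem az_prod {d : κ → ℤ} (h : Adz d) {α : Type} (f : α → κ) (hf : ∀ a, f a ≠ 0) (l : List α) :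
    d (l.map f).prod = (l.map fun a => d (f a)).sum := by
  induction l with
  | nil => simp [az_one h]
  | cons a l ih =>
    rw [List.map_cons, List.prod_cons, h _ _ (hf a) (List.prod_ne_zero (by simp [hf])), ih,
      List.map_cons, List.sum_cons]

theorem two_prod {α : Type} (f : α → ℤ) (l : List α) :
    (l.map fun a => (2 : ℚ) ^ f a).prod = 2 ^ (l.map f).sum := by
  induction l with
  | nil => simp
  | cons a l ih => simp [ih, zpow_add₀]

/-- the fields -/
def kp {A : Type} (B : Type) (F : A → Type) : A ⊕ B → Type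
  | .inl a => F a
  | .inr _ => ℚ

instance {A B : Type} (F : A → Type) [h : ∀ a, Field (F a)] : ∀ i, Field (kp B F i)
  | .inl a => h a
  | .inr _ => inferInstanceAs (Field ℚ)

/-- an element of the product -/
def el {A B : Type} {F : A → Type} (a : ∀ i, F i) (b : B → ℤ) : ∀ i, kp B F i
  | .inl i => a i
  | .inr p => (2 : ℚ) ^ b p

theorem dual (hA : RDualA.{0}) {A B S : Type} (F : A → Type) [∀ a, Field (F a)] (s : Finset B)
    (t : S → ∀ a, F a) (u : S → B → ℤ) (φ : ∀ a, F a) (ψ : B → ℤ) (h1 : ∀ q a, t q a ≠ 0)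
    (h2 : ∀ q, {a | t q a ≠ 1}.Finite) (h3 : ∀ q, ∀ b ∉ s, u q b = 0)
    (h4 : ∀ q, ∃ q', (∀ a, t q a * t q' a = 1) ∧ ∀ b, u q b + u q' b = 0) (h5 : ∀ a, φ a ≠ 0)
    (h6 : {a | φ a ≠ 1}.Finite) (h7 : ∀ b ∉ s, ψ b = 0)
    (H : ∀ (lam : ∀ a, F a → ℚ) (c : B → ℚ), (∀ a, Addv (lam a)) →
      (∀ q, ∑ᶠ a, lam a (t q a) + ∑ b ∈ s, u q b * c b = 0) →
      (∀ a, lam a (φ a) = 0) ∧ ∀ b ∈ s, ψ b * c b = 0) :
    ∃ n : ℕ, 0 < n ∧ ∃ l : List S, (∀ a, φ a ^ n = (l.map fun q => t q a).prod) ∧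
      ∀ b, n * ψ b = (l.map fun q => u q b).sum := by
  have ne : ∀ (a : ∀ i, F i) (b : B → ℤ), (∀ i, a i ≠ 0) → ∀ i, el a b i ≠ 0 := by
    rintro a b h (i | i)
    exacts [h i, zpow_ne_zero (G₀ := ℚ) _ two_ne_zero]
  have fn : ∀ (a : ∀ i, F i) (b : B → ℤ), {i | a i ≠ 1}.Finite → (∀ i ∉ s, b i = 0) →
      {i | el a b i ≠ 1}.Finite := fun a b h h' =>
    Set.finite_preimage_inl_and_inr.1 ⟨h, s.finite_toSet.subset fun p e => by_contra fun e' =>
      e ((congrArg ((2 : ℚ) ^ ·) (h' p e')).trans (zpow_zero _))⟩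
  obtain ⟨n, hn, l, hl⟩ := hA (A ⊕ B) S (kp B F) (fun q => el (t q) (u q)) (fun q => ne _ _ (h1 q))
    (fun q => fn _ _ (h2 q) (h3 q)) (fun q => (h4 q).imp fun q' e => by
      rintro (i | i)
      · exact e.1 i
      · exact (zpow_add₀ (G₀ := ℚ) two_ne_zero _ _).symm.trans (by rw [e.2, zpow_zero]; rfl))
    (el φ ψ) (ne _ _ h5) (fn _ _ h6 h7) fun lam a1 a2 => by
      have a3 : ∀ (a : ∀ i, F i) (b : B → ℤ) (p : B),
          lam (.inr p) (el a b (.inr p)) = b p * lam (.inr p) (2 : ℚ) := fun a b p =>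
        av_zpow (κ := ℚ) (l := lam (.inr p)) (a1 (.inr p)) (two_ne_zero' ℚ) _
      obtain ⟨a4, a5⟩ := H (fun a => lam (.inl a)) (fun p => lam (.inr p) (2 : ℚ))
        (fun a => a1 (.inl a)) fun q => by
          have := a2 q
          rw [fs _ ((fn _ _ (h2 q) (h3 q)).subset fun i e e' => e (by
            rw [e']
            exact av_one (a1 i))), finsum_congr (a3 _ _),
            finsum_eq_sum_of_support_subset (fun p => (u q p : ℚ) * _) (s := s) fun p e =>
              by_contra fun e' => e (by simp [h3 q p e'])] at this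
          exact this
      refine finsum_eq_zero_of_forall_eq_zero ?_
      rintro (i | i)
      · exact a4 i
      · rw [a3]
        by_cases e : i ∈ s
        · exact a5 i e
        · rw [h7 i e, Int.cast_zero, zero_mul]
  refine ⟨n, hn, l, fun a => hl (.inl a), fun b =>
    zpow_right_injective₀ (a := (2 : ℚ)) two_pos (by norm_num) ?_⟩
  simp only
  rw [← two_prod, mul_comm, zpow_mul, zpow_natCast]
  exact hl (.inr b)

variable {K : Type} [Field K] {O : Subring K} {r : O →+* κ}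

theorem res_ne (hD : DvS) (h : DV O r) {u : K} (hu : Ut O u) : resR O r u ≠ 0 := fun e =>
  Nu.not (sub_zero u ▸ ((hD K O ⟨h.dvr, h.frac⟩).res κ r h u hu.2.1 0 O.zero_mem).1
    (e.trans ((dif_pos O.zero_mem).trans (map_zero r)).symm)) hu

theorem res_one : resR O r 1 = 1 := (dif_pos O.one_mem).trans (map_one r)

theorem res_pow (h : DV O r) {u : K} (hu : u ∈ O) (n : ℕ) : resR O r (u ^ n) = resR O r u ^ n := by
  induction n with
  | zero => simp [res_one]
  | succ n ih => rw [pow_succ, (rDVA _ _ _ _ h).rmul _ _ (O.pow_mem hu n) hu, ih, pow_succ]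

end ZPrim

open ZPrim Classical in
theorem zPrim : OfPrim := by
  intro hA hR hM hS _ hD hE W K _ _ x y h1 h2 h3 G κ _ r h4 d ψ hd hU ⟨H, hH, hF⟩
  obtain ⟨hm, _⟩ := hM W K x y h1 h2
  obtain ⟨-, -, -, -, hT, -, hO⟩ := hR _ K _ _ _ hm
  have dv := fun P : Place K => P.dv (hT P)
  have dr : ∀ P : Place K, Dvr P.V.toSubring := fun P => ⟨(dv P).dvr, (dv P).frac⟩
  have dg : ∀ p, Dvr (G p) := fun p => ⟨(h4 p).2.dvr, (h4 p).2.frac⟩
  have ga := fun p => rDVA _ _ _ _ (h4 p).2
  obtain ⟨s, hs⟩ : ∃ s : Finset Nat.Primes, ∀ p ∉ s, ∀ u, d p u = 0 :=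
    ⟨W.Δ.natAbs.divisors.subtype Nat.Prime, fun p hp => (hd p).2.resolve_right
      fun ⟨_, _, _, _, e, _⟩ => hp (Finset.mem_subtype.2 (Nat.mem_divisors.2
        ⟨Int.natCast_dvd.1 (hS.1 W p _ _ e.toSing), by simpa using h1⟩))⟩
  have ne : ∀ (P : Place K) (a : ResidueField P.V), a ≠ 0 → (if x ∈ P.V then a else 1) ≠ 0 :=
    fun P a h => by
      split_ifs
      exacts [h, one_ne_zero]
  obtain ⟨n, hn, l, hl, hl'⟩ := dual hA (S := {q : K × K // q.1 ≠ 0 ∧ q.2 ≠ 0})
    (fun P : Place K => ResidueField P.V) s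
    (fun q P => if x ∈ P.V then P.tame q.1.1 q.1.2 else 1)
    (fun q p => d p (tameR (G p) (r p) q.1.1 q.1.2))
    (fun P => if x ∈ P.V then P.res (ψ P.V.toSubring) else 1)
    (fun p => d p (resR (G p) (r p) (ψ (G p))))
    (fun q P => ne P _ ((P.dva (hT P)).ne _ _ q.2.1 q.2.2))
    (fun q => ((hO q.1.1).union (hO q.1.2)).subset fun P e => by_contra fun e' =>
      e (ite_eq_right_iff.2 fun _ => (P.dva (hT P)).one _ _ (by_contra fun a => e' (.inl a))
        (by_contra fun a => e' (.inr a)))) (fun _ p hp => hs p hp _)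
    (fun q => ⟨⟨q.1.swap, q.2.symm⟩, fun P => by
      split_ifs
      exacts [(P.dva (hT P)).swap _ _ q.2.1 q.2.2, one_mul _], fun p =>
      ((hd p).1 _ _ ((ga p).ne _ _ q.2.1 q.2.2) ((ga p).ne _ _ q.2.2 q.2.1)).symm.trans (by
        rw [(ga p).swap _ _ q.2.1 q.2.2, az_one (hd p).1])⟩)
    (fun P => ne P _ (res_ne hD (dv P) (hU _ (dr P))))
    ((hH.biUnion fun h _ => hO h).subset fun P e => by_contra fun e' =>
      e (ite_eq_right_iff.2 fun _ => by
      refine (((hD K _ (dr P)).res _ _ (dv P) _ (hU _ (dr P)).2.1 1 (one_mem _)).2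
        (hF _ (dr P) (fun n _ => ?_) fun h hh => ?_)).trans res_one
      · simpa using P.const (n : ℚ)⁻¹
      · by_contra a
        exact e' (Set.mem_biUnion hh a))) (fun p hp => hs p hp _)
    fun lam c h5 h6 => by
      have h7 : ∀ (P : Place K) (a : ResidueField P.V),
          lam P (if x ∈ P.V then a else 1) = if x ∈ P.V then lam P a else 0 := fun P a => by
        rw [apply_ite (lam P), av_one (h5 P)]
      obtain ⟨h9, h10⟩ := hE W K x y h1 h2 h3 G κ r h4 s (fun p u => d p u * c p)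
        (fun P a => if x ∈ P.V then lam P a else 0)
        (fun p => ⟨fun f g hf hg => by simp only [(hd p).1 f g hf hg, Int.cast_add, add_mul],
          (hd p).2.imp (fun e u _ => by simp [e]) fun ⟨x0, y0, α, β, e1, e2, e3⟩ =>
            ⟨x0, y0, α, β, e1, fun q hq => by simp [e2 q hq], fun e u _ => by
              simp [(mul_eq_zero.1 e).resolve_left (Int.cast_ne_zero.2 e3)]⟩⟩)
        (fun P f g hf hg => by
          split_ifs
          exacts [h5 P f g hf hg, (add_zero _).symm])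
        (fun P a _ e => if_neg e) fun g h hg hh => by simpa only [h7] using h6 ⟨(g, h), hg, hh⟩
      exact ⟨fun P => (h7 P _).trans (h9 P _ (res_ne hD (dv P) (hU _ (dr P)))),
        fun p e => h10 p e _ (res_ne hD (h4 p).2 (hU _ (dg p)))⟩
  have nz : NZ (l.map Subtype.val) := by
    intro q hq
    obtain ⟨q, -, rfl⟩ := List.mem_map.1 hq
    exact q.2
  have nz' : NZ ((l.map Subtype.val).map Prod.swap) := by
    intro q hq
    obtain ⟨q', hq', rfl⟩ := List.mem_map.1 hq
    exact (nz q' hq').symm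
  refine ⟨n, hn, _, nz', fun V hV hV' hx => ?_, fun p => ?_⟩
  · have a := hD K V hV
    have := a.loc
    let P : Place K := ⟨⟨V, a.val⟩, fun e => a.ne (congrArg ValuationSubring.toSubring e), fun q => by
      rw [eq_ratCast, Rat.cast_def, div_eq_mul_inv]
      exact V.mul_mem (intCast_mem V _) (hV' _ q.den_nz)⟩
    have e := hl P
    simp only [if_pos (show x ∈ P.V from hx)] at e
    obtain ⟨b1, b2, b3⟩ := a.bd _ nz
    have b4 := (a.res _ _ (dv P) _ (V.pow_mem (hU V hV).2.1 n) _ b1.2.1).1 (by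
      rw [b3 _ _ (dv P), List.map_map]
      exact (res_pow (dv P) (hU V hV).2.1 n).trans e)
    convert (b4.mul (a.bd _ nz').1.2.1).add b2 using 1
    ring
  · have a := hD K _ (dg p)
    obtain ⟨b1, b2, b3⟩ := a.bd _ nz
    have b4 := (a.bd _ nz').1
    have b5 := (a.res _ _ (h4 p).2 _ (b1.mul b4).2.1 1 (one_mem _)).2 b2
    have u := hU _ (dg p)
    have c := fun {u} => res_ne (u := u) hD (h4 p).2
    rw [(ga p).rmul _ _ b1.2.1 b4.2.1, res_one] at b5
    have b6 := az_prod (hd p).1 (fun _ : Unit => resR (G p) (r p) (ψ (G p))) (fun _ => c u)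
      (List.replicate n ())
    simp only [List.map_replicate, List.prod_replicate, List.sum_replicate, nsmul_eq_mul] at b6
    rw [(ga p).rmul _ _ (u.pow n).2.1 b4.2.1, (hd p).1 _ _ (c (u.pow n)) (c b4),
      res_pow (h4 p).2 u.2.1, b6, hl', ← az_one (hd p).1, ← b5, (hd p).1 _ _ (c b1) (c b4),
      b3 _ _ (h4 p).2, ← az_prod (hd p).1 _ fun q : {q : K × K // q.1 ≠ 0 ∧ q.2 ≠ 0} =>
        (ga p).ne _ _ q.2.1 q.2.2, List.map_map (l := l) (f := Subtype.val) (g := fun s => tameR _ _ _ _)]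
    rfl

end Pool.Agent.MP_f3836a_nt.VE.Z
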