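import Pool.Agent.MP_f3836a_nt.VE.SpecZ3
import Pool.Agent.MP_f3836a_nt.VE.WRed

/-! Reduced functionals on places and fibres vanish. -/

set_option autoImplicit false

namespace Pool.Agent.MP_f3836a_nt.VE.Z

open Polynomial IsLocalRing PK VE.A VE.T VE.W

open WRed in
theorem zRed2 : OfRed2 := by
  intro hTw hBr hAll hMod hTwi hDel W K _ _ x y hΔ hG cha G κ _ r hV s ν μ hν m1 m2 h0
  classical
  obtain ⟨t, ht⟩ : ∃ t : ℕ → Nat.Primes, ∀ p : Nat.Primes, t p.1 = p :=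
    ⟨fun n => if h : n.Prime then ⟨n, h⟩ else ⟨2, Nat.prime_two⟩, fun p => dif_pos p.2⟩
  obtain ⟨s0, hs⟩ : ∃ s0 : Finset Nat.Primes, s0 = s.filter fun p => ¬∀ u, u ≠ 0 → ν p u = 0 :=
    ⟨_, rfl⟩
  have e1 : ∀ p, p ∈ s0 ↔ p ∈ s ∧ ¬∀ u, u ≠ 0 → ν p u = 0 := fun p => by rw [hs, Finset.mem_filter]
  have e2 : ∀ p ∈ s0, _ := fun p h => (hν p).2.resolve_left ((e1 p).1 h).2
  have m3 : ∀ g h : K, g ≠ 0 → h ≠ 0 →
      ∑ᶠ P, μ P (P.tame g h) + ∑ p ∈ s0, ν p (tameR (G p) (r p) g h) = 0 := fun g h hg hh => by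
    rw [← h0 g h hg hh, hs, Finset.sum_filter_of_ne]
    exact fun p _ e e' => e (e' _ ((rDVA _ _ _ _ (hV p).2).ne g h hg hh))
  obtain ⟨md, fr⟩ := hMod W K x y hΔ hG
  obtain ⟨P₀, pf, pi, -, ft⟩ := hAll (Rq x y) K _ _ _ md
  choose v δ d1 d2 d3 d4 d5 d6 using fun p : Nat.Primes =>
    hDel W K x y hΔ hG cha p _ _ (r p) (ν p) (hV p).1 (hV p).2 (hν p).1
  obtain ⟨ι, S, ok, sy⟩ := hTwi (Rq x y) K (xq x y) μ
    (fun g h => ∑ p ∈ s0, (v p h * δ p g - v p g * δ p h)) pf m1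
    (fun P g h hg hh hP => m2 P _ ((P.dva (ft.1 P)).ne g h hg hh) hP) fun g h hg hh => by
      rw [← Finset.sum_congr rfl fun p _ => d1 p g h hg hh]
      exact_mod_cast m3 g h hg hh
  have nz : ∀ {g : Rq x y}, g ≠ 0 → (g : K) ≠ 0 := fun h e => h (Subtype.ext e)
  let f : Nat.Primes ↪ ℕ := ⟨fun p => p.1, Subtype.val_injective⟩
  have mm : ∀ {Φ : ℕ → Prop}, (∀ p ∈ s0, Φ p.1) → ∀ n ∈ s0.map f, Φ n := fun h n hn => by
    obtain ⟨p, hp, rfl⟩ := Finset.mem_map.1 hn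
    exact h p hp
  have tw : Tw S (xq x y) (yq x y) (s0.map f)
      (fun p g => v (t p) g) fun p g => δ (t p) g :=
    { ok with
      pr := mm fun p _ => p.2
      sym := fun g u hg hu e => by
        rw [sy g u hg hu e, Finset.sum_map]
        exact congrArg _ (Finset.sum_congr rfl fun p _ => by rw [show t (f p) = p from ht p]; rfl)
      vm := fun p _ g u hg hu => d2 _ g u (nz hg) (nz hu)
      vp := mm fun p _ => by rw [ht]; exact d3 p
      v0 := mm fun p _ A B e => by simpa only [coe_gv, ht] using (d4 p A B e).1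
      dc := mm fun p _ A B A' B' e a b => by simpa only [coe_gv, ht] using d5 p A B A' B' e a b
      dq := mm fun p h q e => by
        obtain ⟨_, _, _, _, -, h2, -⟩ := e2 p h
        simpa only [coe_ae, ht] using d6 p h2 q e }
  have e5 : ∀ p, p ∉ s0 := fun p h => by
    obtain ⟨x0, y0, α, β, h1, -, h3⟩ := e2 p h
    have := hTw W _ _ S _ _ _ hΔ md tw (mm fun q hq => (e2 q hq).imp fun _ h =>
      h.imp fun _ h => h.imp fun _ h => h.imp fun _ h => h.1) p (Finset.mem_map_of_mem f h)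
      x0 y0 α β h1
    rw [coe_gv, ht, (d4 p _ _ (not_dv p.2 _)).2] at this
    exact ((e1 p).1 h).2 (h3 (by exact_mod_cast this))
  refine ⟨hBr (Rq x y) K _ _ _ P₀ md pf pi ft μ m1 (fun g h hg hh => ?_)
    fun a ha => m2 P₀ a ha ((pi.uniq P₀).2 rfl),
    fun p hp => by_contra fun e => e5 p ((e1 p).2 ⟨hp, e⟩)⟩
  have := m3 g h hg hh
  rwa [Finset.sum_eq_zero fun p hp => absurd hp (e5 p), add_zero] at this

end Pool.Agent.MP_f3836a_nt.VE.Z
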