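import Pool.Agent.MP_f3836a_nt.VE.SpecZ3
import Pool.Agent.MP_f3836a_nt.VE.WVd

/-! A cycle which is torsion on the horizontal curves, restricted to a fibre. -/

set_option autoImplicit false

namespace Pool.Agent.MP_f3836a_nt.VE.Z

open Polynomial IsLocalRing PK VE.A VE.T VE.W

namespace ZVd2

variable {K : Type} [Field K] {B : Subring K}

theorem nu_lc (hL : LcA B) (m : Ideal B) [m.IsPrime] (a : B) : Nu (lc B m) a ↔ a ∈ m := by
  rw [← not_not (a := a ∈ m), ← hL.unit m a]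
  exact nu_iff (Subring.inclusion (le_lc B m) a)

theorem ut_lc (hL : LcA B) (m : Ideal B) [m.IsPrime] (a : B) : Ut (lc B m) a ↔ a ∉ m := by
  rw [← nu_lc hL, nu_iff_not (le_lc B m a.2), not_not]

theorem alg (hL : LcA B) (m : Ideal B) [m.IsPrime] (hm : m.IsMaximal) [Finite (B ⧸ m)] :
    Alg (lc B m) := by
  have t : ∀ a : B, a ∉ m → Tor (lc B m) a := fun a ha => by
    let := Ideal.Quotient.field m
    have := Fintype.ofFinite (B ⧸ m)
    refine ⟨Fintype.card (B ⧸ m) - 1, Nat.sub_pos_of_lt Fintype.one_lt_card, ?_⟩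
    have h := FiniteField.pow_card_sub_one_eq_one (Ideal.Quotient.mk m a)
      fun e => ha (Ideal.Quotient.eq_zero_iff_mem.1 e)
    exact (nu_lc hL m (a ^ _ - 1)).2 (Ideal.Quotient.eq.1 h)
  intro z hz
  obtain ⟨a, b, hb, e⟩ := mem_lc.1 hz.2.1
  have ub := (ut_lc hL m b).2 hb
  rw [← mul_inv_cancel_right₀ ub.1 z, e]
  exact (t a ((ut_lc hL m a).1 (e ▸ hz.mul ub))).mul ((t b hb).inv ub)

theorem gen (hL : LcA B) (m : Ideal B) [m.IsPrime] {π p : B} (h1 : π ∈ m) (h2 : p ∈ m)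
    (h : ∀ a ∈ m, ∃ b c c', b ∉ m ∧ a * b = π * c + p * c') : Gen (lc B m) π p := by
  refine ⟨le_lc B m π.2, le_lc B m p.2, fun z => ⟨fun hz => ?_, ?_⟩⟩
  · obtain ⟨a, b, hb, e⟩ := mem_lc.1 hz.1
    obtain ⟨b', c, c', hb', e'⟩ := h a ((nu_lc hL m a).1 (by
      rw [← e, mul_comm]; exact hz.mul (le_lc B m b.2)))
    have u := ((ut_lc hL m b).2 hb).mul ((ut_lc hL m b').2 hb')
    refine ⟨_, mul_mem (le_lc B m c.2) u.2.2, _, mul_mem (le_lc B m c'.2) u.2.2, ?_⟩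
    have e'' : (a : K) * b' = π * c + p * c' := congrArg Subtype.val e'
    rw [← mul_inv_cancel_right₀ u.1 z]
    linear_combination ((b : K) * b')⁻¹ * (b' * e + e'')
  · rintro ⟨u, hu, v, hv, rfl⟩
    exact (((nu_lc hL m π).2 h1).mul hu).add (((nu_lc hL m p).2 h2).mul hv)

end ZVd2

open ZVd2 WVd

theorem zVd2 : OfVd2 := by
  intro hL hSm hS hN hB hC hR hDv hI hRg hCy hOk W K _ _ x y hΔ hG hA p G κ _ r hV hD
  obtain ⟨hP, hgv, ρ, hs, hρ, hk⟩ := hR W K x y hΔ hG hA p G κ r hV hD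
  obtain ⟨hp, q, hq, hqe, hGe⟩ := id hV
  have L := hL K (A1 x y)
  have dG : Dvr G := ⟨hD.dvr, hD.frac⟩
  have q0 : q ≠ ⊥ := fun h => (hA.pr p hp).2.2 (Ideal.span_singleton_eq_bot.1 (hqe ▸ h))
  have key : ∀ ψ, RZ ψ → HzK x ψ → ∀ (m : Ideal (A1 x y)) [m.IsPrime], m.IsMaximal →
      (p : A1 x y) ∈ m → ¬(eX W (xa x y) (ya x y) ∈ m ∧ eY W (xa x y) (ya x y) ∈ m) →
      od G r (lc _ m) (resR G r (ψ G)) = 0 := by
    intro ψ hψ hz m _ hm pm hn
    have fin := (hA.mx m hm).1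
    obtain ⟨π, π1, π2⟩ := hSm W K x y hΔ hG m p hm fin hp pm hn
    have l2 := L.loc hA.dim2 m hm
    have qm : q ≤ m := by rwa [hqe, Ideal.span_singleton_le_iff_mem]
    have qn : q ≠ m := fun h => (hA.pr p hp).2.1 (by rwa [← hqe, h])
    have rg : Rg (lc _ m) := hI K _ G π (p : A1 x y) l2.loc l2.noeth l2.frac (alg L m hm)
      (gen L m π1 pm π2) dG (hGe ▸ (L.le m q).2 qm) fun h => qn (le_antisymm qm fun a ha =>
        (nu_lc L q a).1 (hGe ▸ h.2 _ ((nu_lc L m a).2 ha)))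
    obtain ⟨q', _, hq'⟩ := L.up m q qm
    have h1 : H1 (lc _ m) G :=
      ⟨q', _, mt hq'.bot.1 q0, mt hq'.max.1 qn, hGe.trans hq'.eq.symm⟩
    rw [hOk K κ _ G r _ rg h1 hD]
    refine (hCy K _ rg).one ψ G hψ.1 (hψ.2 _ rg) h1 fun O hO ne => ?_
    have dO := ((hRg K _ rg).dvr O hO).1
    obtain ⟨n', _, -, n1, rfl⟩ := hO
    obtain ⟨n, _, hn'⟩ := L.dn m n'
    rw [hn'.eq] at ne dO ⊢
    have pn : (p : A1 x y) ∉ n := fun h => by
      have le : q ≤ n := by rwa [hqe, Ideal.span_singleton_le_iff_mem]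
      rcases le.eq_or_lt with rfl | lt
      · exact ne hGe.symm
      · exact n1 (hn'.max.2 ((hA.dim q n hq inferInstance q0 lt).eq_of_le hm.ne_top hn'.le))
    refine hz _ dO (fun k k0 => ?_) (le_lc _ n (xa x y).2)
    refine ((ut_lc L n k).2 fun h => ?_).2.2
    obtain ⟨e, k', h1, rfl⟩ := Nat.exists_eq_pow_mul_and_not_dvd k0 p hp.ne_one
    rw [Nat.cast_mul, Nat.cast_pow] at h
    rcases Ideal.IsPrime.mem_or_mem inferInstance h with h | h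
    · exact pn (Ideal.IsPrime.mem_of_pow_mem inferInstance e h)
    · obtain ⟨a, b, e⟩ : IsCoprime (p : A1 x y) k' :=
        Nat.Coprime.cast (hp.coprime_iff_not_dvd.2 h1)
      exact hm.ne_top ((Ideal.eq_top_iff_one _).2
        (e ▸ add_mem (m.mul_mem_left a pm) (m.mul_mem_left b (hn'.le h))))
  have rs : ∀ a (h : a ∈ G), resR G r a = r ⟨a, h⟩ := fun a h => dif_pos h
  have ev : ∀ F : ℤ[X], resR G r (aeval x F) = aeval (resR G r x) F := fun F => by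
    simpa [gv] using hgv F 0
  have mem : ∀ F : ℤ[X], aeval x F ∈ G := fun F =>
    hGe ▸ le_lc _ q ((hA.mem _).2 ⟨F, 0, by simp [gv]⟩)
  have fin : ∀ z ∈ G, ∀ (j : ℕ) (F F' : ℤ[X]), 0 < j → F'.Monic →
      resR G r z ^ j * aeval (resR G r x) F' = aeval (resR G r x) F → SymZ x p G z := by
    intro z hz j F F' j0 hF e
    refine ⟨j, F, F', j0, ?_, ((hDv K G dG).res κ r hD _ (mul_mem (pow_mem hz j) (mem F')) _
      (mem F)).1 ?_⟩
    · rintro ⟨F'', rfl⟩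
      exact monic_ne hP hF (by simp [hP.ch])
    · rw [ev, ← e, ← ev, rs _ hz, rs _ (mem F'), rs _ (mul_mem (pow_mem hz j) (mem F')),
        ← map_pow, ← map_mul]
      rfl
  have ne : ∀ ψ, RZ ψ → resR G r (ψ G) ≠ 0 := fun ψ hψ h => by
    have u := hψ.1 G dG
    rw [rs _ u.2.1, hD.ker] at h
    exact h ((ut_iff _).1 u)
  generalize resR G r x = xb at *
  generalize resR G r y = yb at *
  have ex : ρ (xa x y) = xa xb yb := Subtype.ext ((hρ _).trans (by simpa [gv, xa] using hgv X 0))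
  have hpm : ∀ mb : Ideal (A1 xb yb), (p : A1 x y) ∈ mb.comap ρ := fun mb => by
    rw [Ideal.mem_comap, (hk _).2 (Ideal.mem_span_singleton_self _)]
    exact mb.zero_mem
  have un : ∀ ψ, RZ ψ → HzK x ψ → ∀ mb : Ideal (A1 xb yb),
      mb.IsMaximal → Un xb yb mb (resR G r (ψ G)) ∨ (∃ x0 y0 : ℤ, Sing W p x0 y0) ∧
        ∀ x0 y0 : ℤ, Sing W p x0 y0 → xa xb yb - x0 ∈ mb := fun ψ hψ hz mb hm => by
    have hm' := Ideal.comap_isMaximal_of_surjective ρ hs (K := mb)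
    by_cases h : eX W (xa x y) (ya x y) ∈ mb.comap ρ ∧ eY W (xa x y) (ya x y) ∈ mb.comap ρ
    · obtain ⟨h1, h2⟩ := hN.2 W _ _ _ _ p hm' (hA.mx _ hm').1 hp (hpm mb) (eW_zero hG.eq) h.1 h.2
      refine Or.inr ⟨h1, fun x0 y0 h3 => ?_⟩
      have := h2 x0 y0 h3
      rwa [Ideal.mem_comap, map_sub, ex, map_intCast] at this
    · obtain ⟨a, b, ha, hb, e⟩ := (hS W K x y hΔ hG hA (mb.comap ρ) p hm' hp (hpm mb) h).2 G κ r _
        hV hD (ne ψ hψ) (key ψ hψ hz _ hm' (hpm mb) h)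
      exact Or.inl ⟨ρ a, ρ b, ha, hb, by rw [hρ, hρ]; exact e⟩
  by_cases h0 : ∃ x0 y0 : ℤ, Sing W p x0 y0
  swap
  · refine ⟨fun _ => 0, ⟨fun _ _ _ _ => rfl, Or.inl fun _ => rfl⟩, fun ψ hψ hz _ => ?_⟩
    obtain ⟨j, j0, e⟩ := hB W p κ xb yb _ hP (ne ψ hψ) fun mb hm =>
      (un ψ hψ hz mb hm).resolve_right fun h => h0 h.1
    exact fin _ (hψ.1 G dG).2.1 j 1 1 j0 monic_one (by simp [e])
  obtain ⟨x0, y0, h0⟩ := h0
  obtain ⟨d, hd, hc, hu'⟩ := hC W p κ xb yb x0 y0 hP h0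
  refine ⟨d, ⟨hd, hc.imp id fun ⟨α, β, h1, h2, h3⟩ => ⟨x0, y0, α, β, h1, fun F hF => by
    rw [ev]; exact h2 F hF, by rw [hgv]; exact h3⟩⟩, fun ψ hψ hz hdu => ?_⟩
  obtain ⟨i, j, hj, e⟩ := hu' _ (ne ψ hψ) (fun mb hm hn =>
    (un ψ hψ hz mb hm).resolve_right fun h => hn (h.2 x0 y0 h0)) hdu
  have hw : xb - x0 ≠ 0 := by simpa using monic_ne hP (monic_X_sub_C x0)
  refine fin _ (hψ.1 G dG).2.1 j ((X - C x0) ^ i.toNat) ((X - C x0) ^ (-i).toNat) hj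
    ((monic_X_sub_C x0).pow _) ?_
  simp only [e, map_pow, map_sub, aeval_X, eq_intCast, map_intCast]
  rw [← zpow_natCast, ← zpow_natCast, ← zpow_add₀ hw]
  congr 1
  omega

end Pool.Agent.MP_f3836a_nt.VE.Z
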