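import Pool.Agent.MP_f3836a_nt.VE.WEnd
import Pool.Agent.MP_f3836a_nt.VE.ZEnd1
import Pool.Agent.MP_f3836a_nt.VE.ZExA
import Pool.Agent.MP_f3836a_nt.VE.ZBsN
import Pool.Agent.MP_f3836a_nt.VE.ZCo
import Pool.Agent.MP_f3836a_nt.VE.ZFam
import Pool.Agent.MP_f3836a_nt.VE.ZPackA
import Pool.Agent.MP_f3836a_nt.VE.ZGenL
import Pool.Agent.MP_f3836a_nt.VE.ZPack
import Pool.Agent.MP_f3836a_nt.VE.ZLinkU
import Pool.Agent.MP_f3836a_nt.VE.ZLinkR
import Pool.Agent.MP_f3836a_nt.VE.ZGnT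
import Pool.Agent.MP_f3836a_nt.VE.ZGlob
import Pool.Agent.MP_f3836a_nt.VE.ZVd2
import Pool.Agent.MP_f3836a_nt.VE.ZRed2
import Pool.Agent.MP_f3836a_nt.VE.ZPrim
import Pool.Agent.MP_f3836a_nt.VE.ZLocK
import Pool.Agent.MP_f3836a_nt.VE.ZAllT
import Pool.Agent.MP_f3836a_nt.VE.ZPsi
import Pool.Agent.MP_f3836a_nt.VE.ZMainY
import Pool.Agent.MP_f3836a_nt.VE.ZSd
import Pool.Agent.MP_f3836a_nt.PK.EDual

/-! Part Z: the final assembly. -/

set_option autoImplicit false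

namespace Pool.Agent.MP_f3836a_nt.VE.Z.End

open VE.W

theorem coR : CoR := zCoR zDv rgS cyS elS
theorem okS : OkS := zOk odS wTr zDv rgS
theorem packS : PackS :=
  zPack (zBsN zDv) (zPackA (zExB zDv).1 (zExB zDv).2 zFam) zGenL
theorem locK : LocK := zLocK zDv (zExA zDv) (zExB zDv).1 (zCoE zDv (zExA zDv)) coR packS
  (zLinkU wLc zDv) (zLinkR zDv) goodT nodeT locR
theorem vd2 : Vd2 := zVd2 wLc wSm W.End.smoS wSing wVdB (wVdC wVdC1 wVdC2) (wRedP wLc) zDv rgI rgS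
  cyS okS
theorem primS : PrimS := zPrim PK.rDualA T.all wMod wSing (wRedP wLc) zDv
  (zRed2 twS (T.rBr A.fibres (T.rGen T.rDim) T.rTameA) T.all wMod wTwi (wDel wLc))
theorem mainY : MainY := zMainY zDv (zPsi zDv rgS lg.2 okS)
  (zAllT wLc T.all wMod W.End.chAS zDv coR (zGlob zGnT) vd2 primS locK)

theorem finalZ : FinalZ := zFinal zDv rgS mainY

end Pool.Agent.MP_f3836a_nt.VE.Z.End
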