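import Pool.Agent.MP_f3836a_nt.VE.SpecZ3

/-! Affine changes of coordinates keep the generic point. -/

set_option autoImplicit false

namespace Pool.Agent.MP_f3836a_nt.VE.Z

open Polynomial IsLocalRing PK VE.A VE.T VE.W

namespace ZGnT

variable {K : Type} [Field K] [CharZero K] {W : WeierstrassCurve ℤ} {x y : K}

theorem clear (x : K) (A : ℚ[X]) : ∃ (n : ℤ) (A' : ℤ[X]), n ≠ 0 ∧ aeval x A' = n * aeval x A ∧
    (A' = 0 → A = 0) := by
  obtain ⟨n, hn, e⟩ := IsLocalization.integerNormalization_spec (nonZeroDivisors ℤ) A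
  refine ⟨n, _, nonZeroDivisors.ne_zero hn, ?_, IsFractionRing.integerNormalization_eq_zero_iff.1⟩
  rw [← aeval_map_algebraMap ℚ, e, map_zsmul, zsmul_eq_mul]

theorem ind (h : Gn W x y) (A B : ℚ[X]) (e : aeval x A + aeval x B * y = 0) : A = 0 ∧ B = 0 := by
  obtain ⟨n, A', n0, a1, a2⟩ := clear x A
  obtain ⟨m, B', m0, b1, b2⟩ := clear x B
  obtain ⟨c1, c2⟩ := h.ind (C m * A') (C n * B') (by
    simp only [gv, map_mul, a1, b1, eq_intCast, map_intCast]
    linear_combination (m * n : K) * e)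
  exact ⟨a2 ((mul_eq_zero.1 c1).resolve_left (C_ne_zero.2 m0)),
    b2 ((mul_eq_zero.1 c2).resolve_left (C_ne_zero.2 n0))⟩

theorem map_zero' {A : ℤ[X]} (h : A.map (algebraMap ℤ ℚ) = 0) : A = 0 :=
  (Polynomial.map_eq_zero_iff (algebraMap ℤ ℚ).injective_int).1 h

theorem comp_zero {A : ℚ[X]} {a b : ℚ} (ha : a ≠ 0) (h : A.comp (C a * X + C b) = 0) : A = 0 := by
  rcases comp_eq_zero_iff.1 h with h | ⟨-, h⟩
  · exact h
  · have := congrArg (fun p => coeff p 1) h
    simp at this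
    exact absurd this ha

theorem ev_comp (x : K) (A : ℚ[X]) (a b : ℚ) :
    aeval x (A.comp (C a * X + C b)) = aeval ((a : K) * x + b) A := by
  rw [aeval_comp]
  simp

theorem frac (x y z : K) (A B D : ℚ[X]) (hD : D ≠ 0)
    (e : z * aeval x D = aeval x A + aeval x B * y) :
    ∃ A B D : ℤ[X], D ≠ 0 ∧ z * aeval x D = gv x y A B := by
  obtain ⟨n, A', n0, a1, -⟩ := clear x A
  obtain ⟨m, B', m0, b1, -⟩ := clear x B
  obtain ⟨k, D', k0, d1, d2⟩ := clear x D
  refine ⟨C (m * k) * A', C (n * k) * B', C (n * m) * D',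
    mul_ne_zero (C_ne_zero.2 (mul_ne_zero n0 m0)) fun h => hD (d2 h), ?_⟩
  simp only [gv, map_mul, a1, b1, d1, eq_intCast, map_intCast]
  linear_combination (m * n * k : K) * e

end ZGnT

open ZGnT in
theorem zGnT : GnT := by
  intro W K _ _ x y _ h W' x' y' a b c d e ha hc ex ey hq
  have ha' : (a : K) ≠ 0 := by exact_mod_cast ha
  have hc' : (c : K) ≠ 0 := by exact_mod_cast hc
  refine ⟨hq, fun A B h0 => ?_, fun z => ?_⟩
  · have h1 := ind h ((A.map (algebraMap ℤ ℚ)).comp (C a * X + C b) +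
      (B.map (algebraMap ℤ ℚ)).comp (C a * X + C b) * (C d * X + C e))
      ((B.map (algebraMap ℤ ℚ)).comp (C a * X + C b) * C c) (by
        simp only [map_add, map_mul, ev_comp, ← ex, aeval_map_algebraMap, aeval_C, aeval_X,
          eq_ratCast]
        simp only [gv] at h0
        rw [ey] at h0
        linear_combination h0)
    have hB := (mul_eq_zero.1 h1.2).resolve_right (C_ne_zero.2 hc)
    have hA := h1.1
    rw [hB, zero_mul, add_zero] at hA
    exact ⟨map_zero' (comp_zero ha hA), map_zero' (comp_zero ha hB)⟩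
  · obtain ⟨A, B, D, hD, e1⟩ := h.frac z
    have ex' : ((a⁻¹ : ℚ) : K) * x' + ((-b / a : ℚ) : K) = x := by
      rw [ex]
      push_cast
      field_simp
      ring
    refine frac x' y' z ((A.map (algebraMap ℤ ℚ)).comp (C a⁻¹ * X + C (-b / a)) +
      (B.map (algebraMap ℤ ℚ)).comp (C a⁻¹ * X + C (-b / a)) *
        (C (-d / (a * c)) * X + C (d * b / (a * c) - e / c)))
      ((B.map (algebraMap ℤ ℚ)).comp (C a⁻¹ * X + C (-b / a)) * C c⁻¹)
      ((D.map (algebraMap ℤ ℚ)).comp (C a⁻¹ * X + C (-b / a)))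
      (fun h0 => hD (map_zero' (comp_zero (inv_ne_zero ha) h0))) ?_
    simp only [map_add, map_mul, ev_comp, ex', aeval_map_algebraMap, aeval_C, aeval_X, eq_ratCast]
    simp only [gv] at e1
    rw [e1, ey, ex]
    push_cast
    field_simp
    ring

end Pool.Agent.MP_f3836a_nt.VE.Z
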