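import Pool.Agent.MP_f3836a_nt.VE.SpecZ2

/-! The component of the special fibre on which `y` is a coordinate. -/

set_option autoImplicit false

namespace Pool.Agent.MP_f3836a_nt.VE.Z

open Polynomial IsLocalRing PK VE.A VE.T VE.W

namespace ZLn

variable {K : Type} [Field K] {R : Subring K} {π e c : R} {x y : K}

theorem am (r : R) : algebraMap R K r = r := rfl

theorem mR (h : K) (r : R) : (r : K) ∈ AL R x y h := Subring.subset_closure (.inl r.2)

theorem mx (h : K) : x ∈ AL R x y h := Subring.subset_closure (.inr (by simp))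

theorem my (h : K) : y ∈ AL R x y h := Subring.subset_closure (.inr (by simp))

theorem mi (h : K) : h⁻¹ ∈ AL R x y h := Subring.subset_closure (.inr (by simp))

theorem mP (h : K) (P : R[X]) : aeval y P ∈ AL R x y h := by
  rw [aeval_eq_sum_range]
  exact Subring.sum_mem _ fun i _ => Subring.mul_mem _ (mR h _) (Subring.pow_mem _ (my h) i)

theorem y_ne (h : Nd e c x y) : y ≠ 0 := fun h0 =>
  one_ne_zero (h.ind 0 1 (by simp [gR, h0])).2

theorem comb {B : Subring K} {a p q u v z : K} (hp : p / a ∈ B) (hq : q / a ∈ B) (hu : u ∈ B)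
    (hv : v ∈ B) (e : z = u * p + v * q) : z / a ∈ B := by
  rw [e, add_div, mul_div_assoc, mul_div_assoc]
  exact B.add_mem (B.mul_mem hu hp) (B.mul_mem hv hq)

theorem red (hb : Bs R π) (h : Nd (e * π) c x y) (z : K) (hz : z ∈ AL R x y y) :
    ∃ (n : ℕ) (P : R[X]), (y ^ n * z - aeval y P) / π ∈ AL R x y y := by
  have yp : ∀ n : ℕ, y ^ n ∈ AL R x y y := fun n => Subring.pow_mem _ (my y) n
  induction hz using Subring.closure_induction with
  | mem z hz =>
    rcases hz with hz | rfl | rfl | rfl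
    · exact ⟨0, C ⟨z, hz⟩, by simp [am]⟩
    · refine ⟨1, C c - X ^ 2, ?_⟩
      have h1 := h.eq
      simp only [aeval_X, map_add, map_mul, map_pow, aeval_C, map_sub, am] at h1 ⊢
      have h2 : (y ^ 1 * z - (c - y ^ 2)) / π = e * z ^ 3 := by
        rw [div_eq_iff hb.ne]
        linear_combination h1
      exact h2 ▸ Subring.mul_mem _ (mR _ e) (Subring.pow_mem _ (mx _) 3)
    · exact ⟨0, X, by simp⟩
    · exact ⟨1, 1, by simp [y_ne h]⟩
  | zero => exact ⟨0, 0, by simp⟩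
  | one => exact ⟨0, 1, by simp⟩
  | add z z' _ _ h1 h2 =>
    obtain ⟨n, P, h1⟩ := h1
    obtain ⟨m, Q, h2⟩ := h2
    exact ⟨n + m, X ^ m * P + X ^ n * Q, comb h1 h2 (yp m) (yp n) (by simp; ring)⟩
  | neg z _ h1 =>
    obtain ⟨n, P, h1⟩ := h1
    exact ⟨n, -P, comb h1 h1 (Subring.neg_mem _ (Subring.one_mem _)) (Subring.zero_mem _)
      (by simp; ring)⟩
  | mul z z' _ hz' h1 h2 =>
    obtain ⟨n, P, h1⟩ := h1
    obtain ⟨m, Q, h2⟩ := h2
    exact ⟨n + m, P * Q, comb h1 h2 (Subring.mul_mem _ (yp m) hz') (mP _ P) (by simp; ring)⟩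

theorem prime (hb : Bs R π) : Prime π :=
  have := hb.dvr
  hb.irr.prime

theorem dvd_iff (P : R[X]) : C π ∣ P ↔ P.map (Ideal.Quotient.mk (Ideal.span {π})) = 0 := by
  simp only [C_dvd_iff_dvd_coeff, Polynomial.ext_iff, coeff_map, coeff_zero,
    Ideal.Quotient.eq_zero_iff_mem, Ideal.mem_span_singleton]

theorem ex_fld (A : Type) [CommRing A] [IsDomain A] :
    ∃ (S : Type) (_ : Field S) (j : A →+* S), Function.Injective j :=
  ⟨FractionRing A, inferInstance, algebraMap A _, IsFractionRing.injective _ _⟩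

theorem mono {A : Type} [CommRing A] [IsDomain A] {P Q : A[X]} {n : ℕ} (h : X ^ n = P * Q) :
    ∃ (i : ℕ) (r : A), IsUnit r ∧ P = C r * X ^ i := by
  obtain ⟨i, -, u, hu⟩ := (dvd_prime_pow prime_X _).1 (Dvd.intro _ h.symm)
  obtain ⟨r, hr1, hr2⟩ := Polynomial.isUnit_iff.1 u⁻¹.isUnit
  exact ⟨i, r, hr1, by rw [hr2, ← hu, mul_left_comm, Units.inv_mul, mul_one]⟩

theorem inj (hb : Bs R π) (h : Nd (e * π) c x y) (Q : QcA x y (X : R[X]) (C (e * π) * X ^ 3 + C c))
    (P : R[X]) (hP : aeval y P / π ∈ AL R x y y) : C π ∣ P := by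
  have : (Ideal.span {π}).IsPrime := (Ideal.span_singleton_prime hb.irr.ne_zero).2 (prime hb)
  let mk := Ideal.Quotient.mk (Ideal.span {π})
  obtain ⟨S, _, j, hj⟩ := ex_fld (R ⧸ Ideal.span {π})[X]
  have hT : j X ≠ 0 := (map_ne_zero_iff j hj).2 X_ne_zero
  have hπ : (j.comp (C.comp mk)) π = 0 := by simp [mk]
  obtain ⟨ρ, hρ⟩ := Q.lift _ (j.comp (C.comp mk)) (j.comp (C.comp mk) c / j X - j X) (j X) (by
    simp only [eval₂_X, eval₂_add, eval₂_mul, eval₂_C, map_mul, hπ]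
    field_simp
    ring)
  obtain ⟨n, hn⟩ := (Q.loc y (my 1) (y_ne h)).2 _ hP
  let i : R →+* AL R x y 1 := Subring.inclusion fun r hr => mR 1 ⟨r, hr⟩
  have h1 : ρ.comp i = j.comp (C.comp mk) := RingHom.ext fun r => by
    simpa using hρ (i r) (C r) 0 (by simp [gR]; rfl)
  have h2 : ρ ⟨y, my 1⟩ = j X := by simpa using hρ ⟨y, my 1⟩ 0 1 (by simp [gR])
  have h3 : (⟨y, my 1⟩ : AL R x y 1) ^ n * eval₂ i ⟨y, my 1⟩ P = ⟨_, hn⟩ * i π := by
    refine Subtype.ext ?_
    have h4 : ((eval₂ i ⟨y, my 1⟩ P : AL R x y 1) : K) = aeval y P :=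
      hom_eval₂ P i (AL R x y 1).subtype ⟨y, my 1⟩
    change y ^ n * _ = y ^ n * (aeval y P / π) * π
    rw [h4, mul_assoc, div_mul_cancel₀ _ hb.ne]
  have h5 := congrArg ρ h3
  rw [map_mul, map_mul, map_pow, hom_eval₂, h1, h2, ← RingHom.comp_apply ρ i, h1, hπ, mul_zero,
    ← hom_eval₂] at h5
  exact (dvd_iff P).2 (hj ((mul_eq_zero.1 h5).resolve_left (pow_ne_zero n hT)|>.trans
    (map_zero j).symm))

theorem of_dvd (hb : Bs R π) {P : R[X]} (h : C π ∣ P) : aeval y P / π ∈ AL R x y y := by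
  obtain ⟨Q, rfl⟩ := h
  rw [map_mul, aeval_C, mul_comm]
  exact (mul_div_cancel_right₀ (aeval y Q) hb.ne).symm ▸ mP y Q

theorem not_ev (hb : Bs R π) {P : R[X]} (t : R) (h : C π ∣ P) (e : P.eval t = -1) : False := by
  have := map_dvd (evalRingHom t) h
  simp only [coe_evalRingHom, eval_C, e, dvd_neg] at this
  exact hb.irr.not_isUnit (isUnit_of_dvd_one this)

theorem fb (hL : LcS) (hS : SmR) (hb : Bs R π) (h : Nd (e * π) c x y)
    (Q : QcA x y (X : R[X]) (C (e * π) * X ^ 3 + C c)) : Fb (AL R x y y) π := by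
  have yp : ∀ n : ℕ, y ^ n ∈ AL R x y y := fun n => Subring.pow_mem _ (my y) n
  have can : ∀ {n : ℕ} {z : K} {P : R[X]}, (y ^ n * z - aeval y P) / π ∈ AL R x y y → C π ∣ P →
      z / π ∈ AL R x y y := fun {n z P} h1 h2 =>
    comb h1 (of_dvd hb h2) (Subring.pow_mem _ (mi y) n) (Subring.pow_mem _ (mi y) n) (by
      rw [← mul_add, sub_add_cancel, inv_pow, inv_mul_cancel_left₀ (pow_ne_zero n (y_ne h))])
  refine ⟨Q.noeth y, Q.fr y, mR y π, hb.ne, fun z hz z' hz' hp => ?_,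
    ⟨y - 1, Subring.sub_mem _ (my y) (Subring.one_mem _), fun h1 => ?_, fun s hs h1 => ?_⟩,
    fun D hD => ?_⟩
  · obtain ⟨n, P, h1⟩ := red hb h z hz
    obtain ⟨m, P', h2⟩ := red hb h z' hz'
    have h3 : (y ^ (n + m) * (z * z') - aeval y (P * P')) / π ∈ AL R x y y :=
      comb h1 h2 (Subring.mul_mem _ (yp m) hz') (mP _ P) (by simp; ring)
    have h4 := inj hb h Q (P * P') (comb hp h3 (yp (n + m))
      (Subring.neg_mem _ (Subring.one_mem _)) (by ring))
    exact ((prime_C_iff.2 (prime hb)).dvd_or_dvd h4).imp (can h1) (can h2)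
  · exact not_ev hb 0 (inj hb h Q (X - 1) (by simpa using h1)) (by simp)
  · obtain ⟨n, P, h2⟩ := red hb h s hs
    exact not_ev hb 1 (inj hb h Q ((X - 1) * P - X ^ n) (comb h1 h2 (yp n)
      (Subring.sub_mem _ (Subring.one_mem _) (my y)) (by simp; ring))) (by simp)
  · obtain ⟨ha, hg⟩ := hS K R π x y hb _ _ y D h.eq (my 1) (y_ne h) hD
    refine ⟨hg (.inr ?_), ha⟩
    obtain ⟨n, _, -, hn, rfl⟩ := hD
    have le := le_lc _ n
    have h1 : Nu (lc _ n) π := (nu_iff (Subring.inclusion le ⟨π, mR y π⟩)).2 fun u =>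
      ((hL K _).unit n _).1 u (hn _ rfl)
    have h2 : Ut (lc _ n) y := ⟨y_ne h, le (my y), le (mi y)⟩
    have h3 := h2.add (h1.mul (c := -(3 * e * x ^ 2)) (le (Subring.neg_mem _ (Subring.mul_mem _
      (Subring.mul_mem _ (natCast_mem _ 3) (mR y e)) (Subring.pow_mem _ (mx y) 2)))))
    convert h3 using 1
    simp [am, map_ofNat]
    ring

end ZLn

open ZLn in
theorem zLn : OfLn := by
  intro hL hD hQ hS hC K _ R π x y hb e c h
  have Q := hQ K R π x y hb _ _ h
  obtain ⟨L, hc⟩ := hC K _ _ (fb hL hS hb h Q)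
  have := (hD K L hc.dvr).loc
  have yp : ∀ n : ℕ, y ^ n ∈ AL R x y y := fun n => Subring.pow_mem _ (my y) n
  have y0 := y_ne h
  have uy : Ut L y := ⟨y0, hc.le (my y), hc.le (mi y)⟩
  have hi : ∀ P : R[X], Nu L (aeval y P) → C π ∣ P := fun P hP =>
    inj hb h Q P ((hc.div _ (mP y P)).1 hP)
  have hπ : Nu L π := (hc.div _ hc.mem).2 (by rw [div_self hb.ne]; exact Subring.one_mem _)
  have hr : ∀ z ∈ AL R x y y, ∃ (n : ℕ) (P : R[X]), Nu L (y ^ n * z - aeval y P) := fun z hz =>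
    (red hb h z hz).imp fun n => Exists.imp fun P hP =>
      (hc.div _ (Subring.sub_mem _ (Subring.mul_mem _ (yp n) hz) (mP y P))).2 hP
  have nt : ∀ m : ℕ, Tor L (y ^ m) → m = 0 := fun m ⟨j, hj, ht⟩ => by
    by_contra h0
    exact not_ev hb 0 (hi ((X ^ m) ^ j - 1) (by simpa using ht)) (by simp [h0, hj.ne'])
  refine ⟨L, ⟨hc, hr, hi, fun w hw w' hw' hn => ?_, fun i ht => ?_⟩, fun V hV le hπV hy hny => ?_⟩
  · have : (Ideal.span {π}).IsPrime := (Ideal.span_singleton_prime hb.irr.ne_zero).2 (prime hb)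
    obtain ⟨n, P, h1⟩ := hr w hw
    obtain ⟨m, P', h2⟩ := hr w' hw'
    have h3 := hi (X ^ (n + m) - P * P') (by
      convert ((h1.mul (hc.le (Subring.mul_mem _ (yp m) hw'))).add (h2.mul (hc.le (mP y P)))).sub
        (hn.mul (hc.le (yp (n + m)))) using 1
      simp
      ring)
    rw [dvd_iff, Polynomial.map_sub, Polynomial.map_mul, Polynomial.map_pow, map_X,
      sub_eq_zero] at h3
    obtain ⟨i, r, hr1, hr2⟩ := mono h3
    obtain ⟨r, rfl⟩ := Ideal.Quotient.mk_surjective r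
    have h4 : C π ∣ P - C r * X ^ i := by
      rw [dvd_iff, Polynomial.map_sub, Polynomial.map_mul, Polynomial.map_pow, map_X, map_C, hr2,
        sub_self]
    have h5 : IsUnit r := by
      by_contra h6
      exact hr1.ne_zero (Ideal.Quotient.eq_zero_iff_mem.2
        (Ideal.mem_span_singleton.2 (hb.dvd.2 h6)))
    have h6 := (h1.add ((hc.div _ (mP y _)).2 (of_dvd hb h4))).mul (uy.pow i).2.2
    refine ⟨i - n, Tor.congr (div_eq_mul_inv w _ ▸ L.mul_mem (hc.le hw) (uy.zpow _).2.2)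
      (hc.le (mR y r)) ?_ (hb.tor (fun a ha => hc.le (mR y ⟨a, ha⟩)) hπ h5)⟩
    convert h6 using 1
    simp only [map_sub, map_mul, map_pow, aeval_C, aeval_X, zpow_sub₀ y0, zpow_natCast, am]
    field_simp
    ring
  · obtain ⟨m, rfl | rfl⟩ := i.eq_nat_or_neg
    · rw [nt m (by rwa [zpow_natCast] at ht), Nat.cast_zero]
    · rw [nt m (by simpa using ht.inv (uy.zpow _)), Nat.cast_zero, neg_zero]
  · have hle : AL R x y y ≤ V := Subring.closure_le.2 (by
      rintro z (hz | rfl | rfl | rfl)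
      · exact le (mR 1 ⟨z, hz⟩)
      · exact le (mx 1)
      · exact le (my 1)
      · exact hy.2.2)
    refine (hc.cov V hV hle hπV).resolve_right fun ⟨D, h1, h2⟩ => hny (h2.tor ?_)
    obtain ⟨h3, h4, -⟩ := hc.pt D h1
    exact h3.alg y ⟨y0, h4 (my y), h4 (mi y)⟩

end Pool.Agent.MP_f3836a_nt.VE.Z
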